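import Pool.Agent.H94.EH.H80.KF.Defs
import Pool.Agent.H94.EH.H91.EHA.Defs

/-! The parts of this file: H80.KF.Mxb, H80.KF.RamB, H80.KF.StrA, H35.KM.Defs, H80.KF.CrR, H80.KF.StrC, H35.KM.StG, H80.KF.Mxa. -/

section

/-!
# The maximum over the endpoint

`L = log x`, `G = ⌈L^{c+4}⌉`.  By `grid`, `phi_inv_sum` and `few_set (2c+6)` at the points
`y_j = ⌊jx/G⌋ ≤ x` the sum is at most `(G+1)(√#A x L⁴ + #A x/L^{2c+6}) + #A (x/G + 1) 4L²`, with
`G + 1 ≤ 2 L^{c+4}`: at most `√#A x L^{c+9} + #A x (2/L^{c+2} + 8/L^{c+2})`.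
`few_max_exc`: `few_max (c+1)` gives `√#A (1 - 1/L) ≤ L^{2c+10}`.
-/

set_option autoImplicit false

namespace Pool.Agent.H80.KF

open Finset
open Pool.Agent.H91.EHA (err)

/-- the largest error up to `x` -/
noncomputable def ME (x q : ℕ) (b : ZMod q) : ℝ :=
  (range (x + 1)).sup' nonempty_range_add_one (fun y => |err y q b|)

end Pool.Agent.H80.KF

end

section

/-!
# Ramanujan sums

`ram_sum`: `∑_{r ∣ g} c_r(h) = ∑_{d ∣ g, d ∣ h} d ∑_{e ∣ g/d} μ(e) = g [g ∣ h]`.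
`ram_gcd`: `d ↦ f((q,d))`, `f(e) = e [e ∣ h]`, equals `∑_{e ∣ d, e ∣ q} (μ * f)(e)`, so its Möbius
transform at `r` is `(μ * f)(r) = c_r(h)` if `r ∣ q` and `0` otherwise.
`ram_phi`: multiplicative in `r`; at `p^k`: `p/(p-1) - 1` for `k = 1`, `0` for `k ≥ 2`.
`sum_phi`: `q/φ(q) = ∏ (1 + 1/(p-1))`.
-/

set_option autoImplicit false

namespace Pool.Agent.H80.KF

open Finset

/-- Moebius inversion with the sum over divisors -/
theorem ramb_inv {f g : ℕ → ℝ} :
    (∀ n : ℕ, 0 < n → ∑ i ∈ n.divisors, f i = g n) ↔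
      ∀ n : ℕ, 0 < n → ∑ d ∈ n.divisors, (ArithmeticFunction.moebius (n / d) : ℝ) * g d = f n := by
  have h := ArithmeticFunction.sum_eq_iff_sum_mul_moebius_eq (f := f) (g := g)
  constructor
  · intro h1 n hn
    have h2 := h.1 h1 n hn
    rw [← h2]
    exact (Nat.sum_divisorsAntidiagonal'
      (fun a b => (ArithmeticFunction.moebius a : ℝ) * g b)).symm
  · intro h1
    refine h.2 ?_
    intro n hn
    rw [← h1 n hn]
    exact Nat.sum_divisorsAntidiagonal'
      (fun a b => (ArithmeticFunction.moebius a : ℝ) * g b)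

theorem ramb_eq (r : ℕ) (h : ℤ) :
    ram r h = ∑ d ∈ r.divisors, (ArithmeticFunction.moebius (r / d) : ℝ) *
      (if (d : ℤ) ∣ h then (d : ℝ) else 0) := by
  unfold ram
  rw [Finset.sum_filter]
  refine Finset.sum_congr rfl fun d _ => ?_
  by_cases hd : (d : ℤ) ∣ h
  · simp only [hd, if_true]; ring
  · simp only [hd, if_false]; ring

theorem ram_sum (g : ℕ) (hg : 1 ≤ g) (h : ℤ) :
    ∑ r ∈ g.divisors, ram r h = if (g : ℤ) ∣ h then (g : ℝ) else 0 := by
  have key := (ramb_inv (f := fun r => ram r h)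
    (g := fun d : ℕ => if (d : ℤ) ∣ h then (d : ℝ) else 0)).2
    (fun n _ => (ramb_eq n h).symm)
  exact key g hg

theorem ram_gcd (q r : ℕ) (hq : 1 ≤ q) (hr : 1 ≤ r) (h : ℤ) :
    ∑ d ∈ r.divisors, (ArithmeticFunction.moebius (r / d) : ℝ) *
        (if ((Nat.gcd q d : ℕ) : ℤ) ∣ h then ((Nat.gcd q d : ℕ) : ℝ) else 0) =
      if r ∣ q then ram r h else 0 := by
  have key := (ramb_inv (f := fun r => if r ∣ q then ram r h else 0)
    (g := fun d : ℕ => if ((Nat.gcd q d : ℕ) : ℤ) ∣ h then ((Nat.gcd q d : ℕ) : ℝ) else 0)).1 ?_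
  · exact key r hr
  · intro n hn
    have hg : 1 ≤ Nat.gcd q n := Nat.gcd_pos_of_pos_right q hn
    have h1 := ram_sum (Nat.gcd q n) hg h
    show ∑ i ∈ n.divisors, (if i ∣ q then ram i h else 0) = _
    rw [← h1, ← Finset.sum_filter]
    refine Finset.sum_congr ?_ fun _ _ => rfl
    ext i
    simp only [Finset.mem_filter, Nat.mem_divisors]
    constructor
    · rintro ⟨⟨a, _⟩, c⟩
      exact ⟨Nat.dvd_gcd c a, by omega⟩
    · rintro ⟨a, _⟩
      exact ⟨⟨a.trans (Nat.gcd_dvd_right q n), by omega⟩, a.trans (Nat.gcd_dvd_left q n)⟩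

theorem ram_abs (r : ℕ) (n : ℤ) :
    |ram r n| ≤ ∑ d ∈ r.divisors.filter (fun d : ℕ => (d : ℤ) ∣ n), (d : ℝ) := by
  unfold ram
  refine le_trans (Finset.abs_sum_le_sum_abs _ _) (Finset.sum_le_sum fun d _ => ?_)
  rw [abs_mul, Nat.abs_cast]
  have h1 : |(ArithmeticFunction.moebius (r / d) : ℝ)| ≤ 1 := by
    have := @ArithmeticFunction.abs_moebius_le_one (r / d)
    exact_mod_cast this
  calc (d : ℝ) * |(ArithmeticFunction.moebius (r / d) : ℝ)| ≤ d * 1 :=
        mul_le_mul_of_nonneg_left h1 (Nat.cast_nonneg d)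
    _ = d := mul_one _

theorem ram_at_zero (r : ℕ) : ram r 0 = (Nat.totient r : ℝ) := by
  rcases Nat.eq_zero_or_pos r with rfl | hr
  · simp [ram]
  · have key := (ramb_inv (f := fun r => (Nat.totient r : ℝ)) (g := fun d : ℕ => (d : ℝ))).1 ?_
    · rw [ramb_eq]
      simp only [dvd_zero, if_true]
      exact key r hr
    · intro n hn
      show ∑ i ∈ n.divisors, (Nat.totient i : ℝ) = n
      exact_mod_cast Nat.sum_totient n

/-- `r ↦ μ(r)² / φ(r)` -/
noncomputable def rambA : ArithmeticFunction ℝ :=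
  ⟨fun r => (ArithmeticFunction.moebius r : ℝ) ^ 2 / (Nat.totient r : ℝ), by simp⟩

/-- `q ↦ q / φ(q)` -/
noncomputable def rambB : ArithmeticFunction ℝ :=
  ⟨fun q => (q : ℝ) / (Nat.totient q : ℝ), by simp⟩

theorem rambA_mult : rambA.IsMultiplicative := by
  constructor
  · simp [rambA]
  · intro m n hmn
    show (ArithmeticFunction.moebius (m * n) : ℝ) ^ 2 / (Nat.totient (m * n) : ℝ) =
      (ArithmeticFunction.moebius m : ℝ) ^ 2 / (Nat.totient m : ℝ) *
        ((ArithmeticFunction.moebius n : ℝ) ^ 2 / (Nat.totient n : ℝ))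
    rw [ArithmeticFunction.isMultiplicative_moebius.map_mul_of_coprime hmn, Nat.totient_mul hmn]
    push_cast
    rw [mul_pow, mul_div_mul_comm]

theorem rambB_mult : rambB.IsMultiplicative := by
  constructor
  · simp [rambB]
  · intro m n hmn
    show ((m * n : ℕ) : ℝ) / (Nat.totient (m * n) : ℝ) =
      (m : ℝ) / (Nat.totient m : ℝ) * ((n : ℝ) / (Nat.totient n : ℝ))
    rw [Nat.totient_mul hmn]
    push_cast
    rw [mul_div_mul_comm]

theorem rambA_zeta : rambA * (ArithmeticFunction.zeta : ArithmeticFunction ℝ) = rambB := by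
  have hm : (rambA * (ArithmeticFunction.zeta : ArithmeticFunction ℝ)).IsMultiplicative :=
    rambA_mult.mul ArithmeticFunction.isMultiplicative_zeta.natCast
  rw [ArithmeticFunction.IsMultiplicative.eq_iff_eq_on_prime_powers _ hm _ rambB_mult]
  intro p i hp
  rcases Nat.eq_zero_or_pos i with rfl | hi
  · rw [pow_zero, hm.1, rambB_mult.1]
  · rw [ArithmeticFunction.coe_mul_zeta_apply, Nat.sum_divisors_prime_pow hp]
    have h0 : rambA (p ^ 0) = 1 := by rw [pow_zero]; exact rambA_mult.1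
    have h1 : rambA (p ^ 1) = 1 / ((p : ℝ) - 1) := by
      show (ArithmeticFunction.moebius (p ^ 1) : ℝ) ^ 2 / (Nat.totient (p ^ 1) : ℝ) = _
      rw [pow_one, ArithmeticFunction.moebius_apply_prime hp, Nat.totient_prime hp,
        Nat.cast_sub hp.one_le]
      push_cast
      norm_num
    have h2 : ∀ k, 2 ≤ k → rambA (p ^ k) = 0 := by
      intro k hk
      show (ArithmeticFunction.moebius (p ^ k) : ℝ) ^ 2 / (Nat.totient (p ^ k) : ℝ) = 0
      rw [ArithmeticFunction.moebius_apply_prime_pow hp (by omega), if_neg (by omega)]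
      simp
    obtain ⟨j, rfl⟩ : ∃ j, i = j + 1 := ⟨i - 1, by omega⟩
    have e : ∑ k ∈ range (j + 1 + 1), rambA (p ^ k) = 1 + 1 / ((p : ℝ) - 1) := by
      rw [Finset.sum_range_succ', Finset.sum_range_succ']
      rw [Finset.sum_eq_zero (fun k _ => h2 (k + 1 + 1) (by omega))]
      rw [h0, h1]
      ring
    rw [e]
    show _ = ((p ^ (j + 1) : ℕ) : ℝ) / (Nat.totient (p ^ (j + 1)) : ℝ)
    rw [Nat.totient_prime_pow hp (by omega)]
    have hp1 : (1 : ℝ) < p := by exact_mod_cast hp.one_lt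
    have hp0 : (p : ℝ) - 1 ≠ 0 := by
      intro h'
      linarith
    have hp2 : (p : ℝ) ≠ 0 := by
      intro h'
      linarith
    rw [Nat.add_sub_cancel]
    push_cast [Nat.cast_sub hp.one_le]
    field_simp
    ring

theorem sum_phi (q : ℕ) (hq : 1 ≤ q) :
    ∑ r ∈ q.divisors, (ArithmeticFunction.moebius r : ℝ) ^ 2 / (Nat.totient r : ℝ) =
      (q : ℝ) / (Nat.totient q : ℝ) := by
  have h : (rambA * (ArithmeticFunction.zeta : ArithmeticFunction ℝ)) q = rambB q := by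
    rw [rambA_zeta]
  rw [ArithmeticFunction.coe_mul_zeta_apply] at h
  exact h

theorem ram_phi (r : ℕ) (hr : 1 ≤ r) :
    ∑ d ∈ r.divisors, (d : ℝ) * (ArithmeticFunction.moebius (r / d) : ℝ) / (Nat.totient d : ℝ) =
      (ArithmeticFunction.moebius r : ℝ) ^ 2 / (Nat.totient r : ℝ) := by
  have key := (ramb_inv
    (f := fun r => (ArithmeticFunction.moebius r : ℝ) ^ 2 / (Nat.totient r : ℝ))
    (g := fun d : ℕ => (d : ℝ) / (Nat.totient d : ℝ))).1 (fun n hn => sum_phi n hn)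
  rw [← key r hr]
  refine Finset.sum_congr rfl fun d _ => ?_
  ring

end Pool.Agent.H80.KF

end

section

/-!
# The structured part, exactly

`∑_p [d ∣ p - a] = π(x;d,a) = err x d a + π(x)/φ(d)` (`d ∣ p - a` iff `(p : ZMod d) = a`), so
`∑_p ∑_{r ∣ q, r ≤ R} c_r(p-a) = ∑_{r ∣ q, r ≤ R} ∑_{d ∣ r} d μ(r/d) (err x d a + π(x)/φ(d))` and
`∑_{d ∣ r} d μ(r/d)/φ(d) = μ²(r)/φ(r)` (`ram_phi`), `∑_{r ∣ q} μ²(r)/φ(r) = q/φ(q)` (`sum_phi`).
-/

set_option autoImplicit false

namespace Pool.Agent.H80.KF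

open Finset
open Pool.Agent.H91.EHA (err)

/-- the primes up to `x` -/
def PX (x : ℕ) : Finset ℕ := (Icc 1 x).filter Nat.Prime

private theorem strA_count (x d : ℕ) (a : ℤ) :
    ∑ p ∈ PX x, (if (d : ℤ) ∣ (p : ℤ) - a then (1 : ℝ) else 0) =
      err x d (a : ZMod d) + (Nat.primeCounting x : ℝ) / (Nat.totient d : ℝ) := by
  unfold err PX
  rw [← Finset.sum_filter, Finset.filter_filter, Finset.sum_const, nsmul_eq_mul, mul_one]
  have h : ((Icc 1 x).filter (fun p : ℕ => Nat.Prime p ∧ (d : ℤ) ∣ (p : ℤ) - a)) =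
      ((Icc 1 x).filter (fun p : ℕ => Nat.Prime p ∧ ((p : ZMod d) = (a : ZMod d)))) := by
    refine Finset.filter_congr fun p _ => ?_
    have h1 : ((p : ZMod d) = (a : ZMod d)) ↔ (d : ℤ) ∣ (p : ℤ) - a := by
      have h2 := ZMod.intCast_eq_intCast_iff_dvd_sub a (p : ℤ) d
      rw [Int.cast_natCast] at h2
      rw [← h2]
      exact eq_comm
    rw [h1]
  rw [h]
  ring

private theorem strA_ram (x r : ℕ) (a : ℤ) (hr : 1 ≤ r) :
    ∑ p ∈ PX x, ram r ((p : ℤ) - a) =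
      ∑ d ∈ r.divisors, (d : ℝ) * (ArithmeticFunction.moebius (r / d) : ℝ) *
          err x d (a : ZMod d) +
        (Nat.primeCounting x : ℝ) *
          ((ArithmeticFunction.moebius r : ℝ) ^ 2 / (Nat.totient r : ℝ)) := by
  unfold ram
  have h1 : ∀ p ∈ PX x, ∑ d ∈ r.divisors.filter (fun d : ℕ => (d : ℤ) ∣ (p : ℤ) - a),
      (d : ℝ) * (ArithmeticFunction.moebius (r / d) : ℝ) =
      ∑ d ∈ r.divisors, (d : ℝ) * (ArithmeticFunction.moebius (r / d) : ℝ) *
        (if (d : ℤ) ∣ (p : ℤ) - a then (1 : ℝ) else 0) := by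
    intro p _
    rw [Finset.sum_filter]
    refine Finset.sum_congr rfl fun d _ => ?_
    split_ifs <;> ring
  rw [Finset.sum_congr rfl h1, Finset.sum_comm]
  have h2 : ∀ d ∈ r.divisors, ∑ p ∈ PX x, (d : ℝ) * (ArithmeticFunction.moebius (r / d) : ℝ) *
        (if (d : ℤ) ∣ (p : ℤ) - a then (1 : ℝ) else 0) =
      (d : ℝ) * (ArithmeticFunction.moebius (r / d) : ℝ) * err x d (a : ZMod d) +
        (Nat.primeCounting x : ℝ) *
          ((d : ℝ) * (ArithmeticFunction.moebius (r / d) : ℝ) / (Nat.totient d : ℝ)) := by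
    intro d _
    rw [← Finset.mul_sum, strA_count]
    ring
  rw [Finset.sum_congr rfl h2, Finset.sum_add_distrib, ← Finset.mul_sum, ram_phi r hr]

theorem str_id (x R q : ℕ) (hq : 1 ≤ q) (a : ℤ) :
    err x q (a : ZMod q) - ∑ p ∈ PX x, uu R q a p =
      (1 / (q : ℝ)) * ∑ r ∈ q.divisors.filter (fun r => r ≤ R), ∑ d ∈ r.divisors,
          (d : ℝ) * (ArithmeticFunction.moebius (r / d) : ℝ) * err x d (a : ZMod d) -
        (Nat.primeCounting x : ℝ) / (q : ℝ) *
          ∑ r ∈ q.divisors.filter (fun r => R < r),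
            (ArithmeticFunction.moebius r : ℝ) ^ 2 / (Nat.totient r : ℝ) := by
  have hq0 : (q : ℝ) ≠ 0 := by
    have : q ≠ 0 := by omega
    exact_mod_cast this
  have h1 : ∑ p ∈ PX x, uu R q a p =
      err x q (a : ZMod q) + (Nat.primeCounting x : ℝ) / (Nat.totient q : ℝ) -
        (1 / (q : ℝ)) * ∑ r ∈ q.divisors.filter (fun r => r ≤ R),
          ∑ p ∈ PX x, ram r ((p : ℤ) - a) := by
    unfold uu
    rw [Finset.sum_sub_distrib, strA_count, ← Finset.mul_sum, Finset.sum_comm]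
  have h2 : ∑ r ∈ q.divisors.filter (fun r => r ≤ R), ∑ p ∈ PX x, ram r ((p : ℤ) - a) =
      ∑ r ∈ q.divisors.filter (fun r => r ≤ R), ∑ d ∈ r.divisors,
          (d : ℝ) * (ArithmeticFunction.moebius (r / d) : ℝ) * err x d (a : ZMod d) +
        (Nat.primeCounting x : ℝ) * ∑ r ∈ q.divisors.filter (fun r => r ≤ R),
          (ArithmeticFunction.moebius r : ℝ) ^ 2 / (Nat.totient r : ℝ) := by
    rw [Finset.mul_sum, ← Finset.sum_add_distrib]
    refine Finset.sum_congr rfl fun r hr => ?_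
    have hr1 : 1 ≤ r := Nat.pos_of_mem_divisors (Finset.mem_filter.1 hr).1
    exact strA_ram x r a hr1
  have h3 := sum_phi q hq
  have h4 : ∑ r ∈ q.divisors, (ArithmeticFunction.moebius r : ℝ) ^ 2 / (Nat.totient r : ℝ) =
      ∑ r ∈ q.divisors.filter (fun r => r ≤ R),
          (ArithmeticFunction.moebius r : ℝ) ^ 2 / (Nat.totient r : ℝ) +
        ∑ r ∈ q.divisors.filter (fun r => R < r),
          (ArithmeticFunction.moebius r : ℝ) ^ 2 / (Nat.totient r : ℝ) := by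
    rw [← Finset.sum_filter_add_sum_filter_not q.divisors (fun r => r ≤ R)]
    congr 1
    refine Finset.sum_congr (Finset.filter_congr fun r _ => ?_) fun _ _ => rfl
    exact not_le
  rw [h4] at h3
  rw [h1, h2]
  set A := ∑ r ∈ q.divisors.filter (fun r => r ≤ R),
          (ArithmeticFunction.moebius r : ℝ) ^ 2 / (Nat.totient r : ℝ) with hA
  set B := ∑ r ∈ q.divisors.filter (fun r => R < r),
          (ArithmeticFunction.moebius r : ℝ) ^ 2 / (Nat.totient r : ℝ) with hB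
  have h5 : (Nat.primeCounting x : ℝ) / (Nat.totient q : ℝ) =
      (Nat.primeCounting x : ℝ) / q * (A + B) := by
    rw [h3]
    field_simp
  rw [h5]
  ring

end Pool.Agent.H80.KF

end

section

/-!
# Project KM: definitions

Elliott-Halberstam beyond `x^{1/2}` with the maximum over sets of `x^κ` residues.

`Sel A M T`: for every modulus `q` a set `T q` of at most `M` residues prime to `q`, all from `A`.
If `A_1, ..., A_M` are pairwise disjoint sets of residues, `A` is their union and `a_i(q) ∈ A_i` is a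
residue with the largest error, then `T q = {a_1(q), ..., a_M(q)}` is such a selection: `#A` may be
`M x^κ`, but the diagonal of the Gram form costs only `M`.
-/

set_option autoImplicit false

namespace Pool.Agent.H35.KM

open Finset
open Pool.Agent.H80.KF

/-- the frequencies with denominator at most `RR x` are treated by Bombieri-Vinogradov -/
noncomputable def RR (x : ℕ) : ℕ := ⌊(x : ℝ) ^ ((1 : ℝ) / 50)⌋₊

/-- the level `x^{101/200 - κ}` -/
noncomputable def QQ (κ : ℝ) (x : ℕ) : ℕ := ⌊(x : ℝ) ^ ((101 : ℝ) / 200 - κ)⌋₊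

/-- for every modulus `q` at most `M` residues `T q` prime to `q`, all from the set `A` -/
def Sel (A : Finset ℤ) (M : ℕ) (T : ℕ → Finset ℤ) : Prop :=
  ∀ q, T q ⊆ A ∧ (T q).card ≤ M ∧ ∀ a ∈ T q, IsCoprime a (q : ℤ)

/-- `A` lies in `[-x, x]`, and the differences of its elements are at most `x` -/
def Adx (x : ℕ) (A : Finset ℤ) : Prop :=
  (∀ a ∈ A, |a| ≤ x) ∧ ∀ a ∈ A, ∀ a' ∈ A, |a' - a| ≤ x

/-- `∑_{r | q, r ≤ R} ∑_{d | r} τ(d)` -/
noncomputable def WW (R q : ℕ) : ℝ :=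
  ∑ r ∈ q.divisors.filter (fun r => r ≤ R), ∑ d ∈ r.divisors, (tau d : ℝ)

/-- majorant of the diagonal entries of the Gram form -/
noncomputable def PS (x R q : ℕ) : ℝ :=
  100 * x / q * (3 + 3 * (1 + Real.log R) ^ 2) * (tau q + WW R q)

end Pool.Agent.H35.KM

end

section

/-!
# Common denominators larger than `R`

`|∑| ≤ (π²x/2) ∑_{R < r ≤ 2Q} |c_r(h)| (∑_{q ∈ (Q,2Q], r ∣ q} 1/q)²`, the inner sum is
`≤ (1/Q)(Q/r + 1) ≤ 3/r` (`r ≤ 2Q`), `|c_r(h)| ≤ ∑_{d ∣ r, d ∣ h} d`, and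
`∑_{r > R, d ∣ r} 1/r² ≤ 2/(d R)`.  Total `≤ (π²/2) 18 x τ(|h|)/R ≤ 100 x τ(|h|)/R`.
-/

set_option autoImplicit false

namespace Pool.Agent.H80.KF

open Finset

private theorem crR_card (Q r : ℕ) (hr : 1 ≤ r) :
    (((Ioc Q (2 * Q)).filter (fun q => r ∣ q)).card : ℝ) ≤ (Q : ℝ) / r + 1 := by
  have h1 := Nat.Ioc_filter_dvd_card_eq_div (2 * Q) r
  have h2 := Nat.Ioc_filter_dvd_card_eq_div Q r
  have hd : Disjoint ((Ioc 0 Q).filter (fun q => r ∣ q)) ((Ioc Q (2 * Q)).filter (fun q => r ∣ q)) := by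
    rw [Finset.disjoint_left]
    intro a ha hb
    rw [mem_filter, mem_Ioc] at ha hb
    omega
  have hu : (Ioc 0 (2 * Q)).filter (fun q => r ∣ q) =
      ((Ioc 0 Q).filter (fun q => r ∣ q)) ∪ ((Ioc Q (2 * Q)).filter (fun q => r ∣ q)) := by
    ext a
    rw [mem_union, mem_filter, mem_filter, mem_filter, mem_Ioc, mem_Ioc, mem_Ioc]
    constructor
    · rintro ⟨⟨h3, h4⟩, h5⟩
      rcases Nat.lt_or_ge Q a with h6 | h6
      · exact Or.inr ⟨⟨h6, h4⟩, h5⟩
      · exact Or.inl ⟨⟨h3, h6⟩, h5⟩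
    · rintro (⟨⟨h3, h4⟩, h5⟩ | ⟨⟨h3, h4⟩, h5⟩)
      · exact ⟨⟨h3, by omega⟩, h5⟩
      · exact ⟨⟨by omega, h4⟩, h5⟩
  rw [hu, card_union_of_disjoint hd, h2] at h1
  have hr0 : (0 : ℝ) < r := by exact_mod_cast hr
  have h3 : ((2 * Q / r : ℕ) : ℝ) ≤ ((2 * Q : ℕ) : ℝ) / r := Nat.cast_div_le
  have h4 : (Q : ℝ) / r < ((Q / r : ℕ) : ℝ) + 1 := by
    rw [div_lt_iff₀ hr0]
    have h5 := Nat.lt_mul_div_succ Q hr
    have h6 : (Q : ℝ) < (r : ℝ) * ((Q / r : ℕ) + 1 : ℝ) := by exact_mod_cast h5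
    linarith only [h6]
  have h7 : ((Q / r : ℕ) : ℝ) + (((Ioc Q (2 * Q)).filter (fun q => r ∣ q)).card : ℝ) =
      ((2 * Q / r : ℕ) : ℝ) := by exact_mod_cast h1
  push_cast at h3
  have h8 : 2 * (Q : ℝ) / r = Q / r + Q / r := by ring
  rw [h8] at h3
  linarith only [h4, h7, h3]

theorem sum_inv_mult (Q r : ℕ) (hQ : 1 ≤ Q) (hr : 1 ≤ r) (hr' : r ≤ 2 * Q) :
    ∑ q ∈ (Ioc Q (2 * Q)).filter (fun q => r ∣ q), (1 : ℝ) / q ≤ 3 / r := by
  have hQ0 : (0 : ℝ) < Q := by exact_mod_cast hQ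
  have hr0 : (0 : ℝ) < r := by exact_mod_cast hr
  have hr'' : (r : ℝ) ≤ 2 * Q := by exact_mod_cast hr'
  calc ∑ q ∈ (Ioc Q (2 * Q)).filter (fun q => r ∣ q), (1 : ℝ) / q
      ≤ ∑ q ∈ (Ioc Q (2 * Q)).filter (fun q => r ∣ q), (1 : ℝ) / Q := by
        apply sum_le_sum
        intro q hq
        rw [mem_filter, mem_Ioc] at hq
        have h1 : (Q : ℝ) ≤ q := by exact_mod_cast hq.1.1.le
        exact one_div_le_one_div_of_le hQ0 h1
    _ = (((Ioc Q (2 * Q)).filter (fun q => r ∣ q)).card : ℝ) * (1 / Q) := by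
        rw [sum_const, nsmul_eq_mul]
    _ ≤ ((Q : ℝ) / r + 1) * (1 / Q) :=
        mul_le_mul_of_nonneg_right (crR_card Q r hr) (by positivity)
    _ = 1 / r + 1 / Q := by field_simp
    _ ≤ 1 / r + 2 / r := by
        have : 1 / (Q : ℝ) ≤ 2 / r := by
          rw [div_le_div_iff₀ hQ0 hr0]
          linarith only [hr'']
        linarith only [this]
    _ = 3 / r := by ring

private theorem crR_sq (R M d : ℕ) (hR : 1 ≤ R) (hd : 1 ≤ d) :
    ∑ r ∈ (Ioc R M).filter (fun r => d ∣ r), (1 : ℝ) / (r : ℝ) ^ 2 ≤ 2 / (d * R) := by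
  classical
  have hd0 : (0 : ℝ) < d := by exact_mod_cast hd
  have hR0 : (0 : ℝ) < R := by exact_mod_cast hR
  have hsub : (Ioc R M).filter (fun r => d ∣ r) ⊆ (Ioo (R / d) (M / d + 1)).image (fun k => d * k) := by
    intro r hr
    rw [mem_filter, mem_Ioc] at hr
    obtain ⟨⟨h1, h2⟩, k, rfl⟩ := hr
    rw [mem_image]
    refine ⟨k, ?_, rfl⟩
    rw [mem_Ioo]
    constructor
    · rw [Nat.div_lt_iff_lt_mul hd, mul_comm]
      exact h1
    · rw [Nat.lt_succ_iff, Nat.le_div_iff_mul_le hd, mul_comm]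
      exact h2
  calc ∑ r ∈ (Ioc R M).filter (fun r => d ∣ r), (1 : ℝ) / (r : ℝ) ^ 2
      ≤ ∑ r ∈ (Ioo (R / d) (M / d + 1)).image (fun k => d * k), (1 : ℝ) / (r : ℝ) ^ 2 := by
        apply sum_le_sum_of_subset_of_nonneg hsub
        intro _ _ _
        positivity
    _ = ∑ k ∈ Ioo (R / d) (M / d + 1), (1 : ℝ) / (((d * k : ℕ) : ℝ)) ^ 2 := by
        rw [sum_image]
        intro a _ b _ hab
        exact Nat.eq_of_mul_eq_mul_left hd hab
    _ = 1 / (d : ℝ) ^ 2 * ∑ k ∈ Ioo (R / d) (M / d + 1), ((k : ℝ) ^ 2)⁻¹ := by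
        rw [mul_sum]
        apply sum_congr rfl
        intro k _
        push_cast
        rw [mul_pow, ← one_div, div_mul_div_comm, one_mul]
    _ ≤ 1 / (d : ℝ) ^ 2 * (2 / (((R / d : ℕ) : ℝ) + 1)) :=
        mul_le_mul_of_nonneg_left (sum_Ioo_inv_sq_le (R / d) (M / d + 1)) (by positivity)
    _ ≤ 1 / (d : ℝ) ^ 2 * (2 / ((R : ℝ) / d)) := by
        apply mul_le_mul_of_nonneg_left _ (by positivity)
        apply div_le_div_of_nonneg_left (by norm_num) (by positivity)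
        rw [div_le_iff₀ hd0]
        have h5 := (Nat.lt_mul_div_succ R hd).le
        have h6 : (R : ℝ) ≤ (d : ℝ) * ((R / d : ℕ) + 1 : ℝ) := by exact_mod_cast h5
        linarith only [h6]
    _ = 2 / (d * R) := by field_simp

private theorem crR_ram (R M : ℕ) (hR : 1 ≤ R) (h : ℤ) (hh : h ≠ 0) :
    ∑ r ∈ Ioc R M, 1 / (r : ℝ) ^ 2 * |ram r h| ≤ 2 * (tau h.natAbs : ℝ) / R := by
  have hR0 : (0 : ℝ) < R := by exact_mod_cast hR
  have hn : h.natAbs ≠ 0 := Int.natAbs_ne_zero.2 hh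
  calc ∑ r ∈ Ioc R M, 1 / (r : ℝ) ^ 2 * |ram r h|
      ≤ ∑ r ∈ Ioc R M, 1 / (r : ℝ) ^ 2 *
          ∑ d ∈ h.natAbs.divisors, (if d ∣ r then (d : ℝ) else 0) := by
        apply sum_le_sum
        intro r hr
        rw [mem_Ioc] at hr
        apply mul_le_mul_of_nonneg_left _ (by positivity)
        refine (ram_abs r h).trans ?_
        rw [← sum_filter]
        apply sum_le_sum_of_subset_of_nonneg
        · intro d hd
          rw [mem_filter, Nat.mem_divisors] at hd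
          rw [mem_filter, Nat.mem_divisors]
          exact ⟨⟨Int.natCast_dvd.1 hd.2, hn⟩, hd.1.1⟩
        · intro _ _ _
          positivity
    _ = ∑ d ∈ h.natAbs.divisors, ∑ r ∈ Ioc R M, 1 / (r : ℝ) ^ 2 * (if d ∣ r then (d : ℝ) else 0) := by
        rw [sum_comm]
        apply sum_congr rfl
        intro r _
        rw [mul_sum]
    _ ≤ ∑ d ∈ h.natAbs.divisors, 2 / (R : ℝ) := by
        apply sum_le_sum
        intro d hd
        have hd1 : 1 ≤ d := Nat.pos_of_mem_divisors hd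
        have hd0 : (0 : ℝ) < d := by exact_mod_cast hd1
        have e : ∑ r ∈ Ioc R M, 1 / (r : ℝ) ^ 2 * (if d ∣ r then (d : ℝ) else 0) =
            (d : ℝ) * ∑ r ∈ (Ioc R M).filter (fun r => d ∣ r), 1 / (r : ℝ) ^ 2 := by
          rw [sum_filter, mul_sum]
          apply sum_congr rfl
          intro r _
          split_ifs <;> ring
        rw [e]
        calc (d : ℝ) * ∑ r ∈ (Ioc R M).filter (fun r => d ∣ r), 1 / (r : ℝ) ^ 2
            ≤ d * (2 / (d * R)) := mul_le_mul_of_nonneg_left (crR_sq R M d hR hd1) hd0.le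
          _ = 2 / R := by field_simp
    _ = 2 * (tau h.natAbs : ℝ) / R := by
        rw [sum_const, nsmul_eq_mul]
        unfold tau
        ring

theorem cross_ram (x Q R : ℕ) (hQ : 1 ≤ Q) (hR : 1 ≤ R) (c c' : ℕ → ℝ) (hc : ∀ q, |c q| ≤ 1)
    (hc' : ∀ q, |c' q| ≤ 1) (h : ℤ) (hh : h ≠ 0) :
    |∑ q ∈ Ioc Q (2 * Q), ∑ q' ∈ Ioc Q (2 * Q), c q * c' q' * (Real.pi ^ 2 * x / (2 * q * q')) *
        ∑ r ∈ (Nat.gcd q q').divisors.filter (fun r => R < r), ram r h| ≤
      100 * x * (tau h.natAbs : ℝ) / R := by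
  have hR0 : (0 : ℝ) < R := by exact_mod_cast hR
  set K : ℝ := Real.pi ^ 2 * x / 2 with hK
  have hK0 : 0 ≤ K := by positivity
  -- one term
  have hterm : ∀ q ∈ Ioc Q (2 * Q), ∀ q' ∈ Ioc Q (2 * Q),
      |c q * c' q' * (Real.pi ^ 2 * x / (2 * q * q')) *
        ∑ r ∈ (Nat.gcd q q').divisors.filter (fun r => R < r), ram r h| ≤
      ∑ r ∈ Ioc R (2 * Q), (K * |ram r h|) *
        ((if r ∣ q then 1 / (q : ℝ) else 0) * (if r ∣ q' then 1 / (q' : ℝ) else 0)) := by
    intro q hq q' hq'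
    rw [mem_Ioc] at hq hq'
    have hP : 0 ≤ Real.pi ^ 2 * x / (2 * (q : ℝ) * q') := by positivity
    have hcc : |c q * c' q'| ≤ 1 := by
      rw [abs_mul]
      exact mul_le_one₀ (hc q) (abs_nonneg _) (hc' q')
    rw [abs_mul, abs_mul, abs_of_nonneg hP]
    have h1 : |∑ r ∈ (Nat.gcd q q').divisors.filter (fun r => R < r), ram r h| ≤
        ∑ r ∈ (Ioc R (2 * Q)).filter (fun r => r ∣ q ∧ r ∣ q'), |ram r h| := by
      refine (abs_sum_le_sum_abs _ _).trans ?_
      apply sum_le_sum_of_subset_of_nonneg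
      · intro r hr
        rw [mem_filter, Nat.mem_divisors] at hr
        rw [mem_filter, mem_Ioc]
        have h2 : r ∣ q := hr.1.1.trans (Nat.gcd_dvd_left _ _)
        have h3 : r ∣ q' := hr.1.1.trans (Nat.gcd_dvd_right _ _)
        have h4 : r ≤ q := Nat.le_of_dvd (by omega) h2
        exact ⟨⟨hr.2, by omega⟩, h2, h3⟩
      · intro _ _ _
        exact abs_nonneg _
    calc |c q * c' q'| * (Real.pi ^ 2 * x / (2 * (q : ℝ) * q')) *
          |∑ r ∈ (Nat.gcd q q').divisors.filter (fun r => R < r), ram r h|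
        ≤ 1 * (Real.pi ^ 2 * x / (2 * (q : ℝ) * q')) *
          ∑ r ∈ (Ioc R (2 * Q)).filter (fun r => r ∣ q ∧ r ∣ q'), |ram r h| := by
          apply mul_le_mul _ h1 (abs_nonneg _) (by positivity)
          exact mul_le_mul_of_nonneg_right hcc hP
      _ = ∑ r ∈ Ioc R (2 * Q), (K * |ram r h|) *
          ((if r ∣ q then 1 / (q : ℝ) else 0) * (if r ∣ q' then 1 / (q' : ℝ) else 0)) := by
          rw [one_mul, sum_filter, mul_sum]
          apply sum_congr rfl
          intro r _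
          by_cases h2 : r ∣ q
          · by_cases h3 : r ∣ q'
            · rw [if_pos ⟨h2, h3⟩, if_pos h2, if_pos h3, hK]
              have hq0 : (q : ℝ) ≠ 0 := by
                have : 0 < q := by omega
                positivity
              have hq0' : (q' : ℝ) ≠ 0 := by
                have : 0 < q' := by omega
                positivity
              field_simp
            · rw [if_neg (fun h => h3 h.2), if_neg h3, mul_zero, mul_zero, mul_zero]
          · rw [if_neg (fun h => h2 h.1), if_neg h2, mul_zero, zero_mul, mul_zero]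
  -- sum
  have hsum : |∑ q ∈ Ioc Q (2 * Q), ∑ q' ∈ Ioc Q (2 * Q),
        c q * c' q' * (Real.pi ^ 2 * x / (2 * q * q')) *
        ∑ r ∈ (Nat.gcd q q').divisors.filter (fun r => R < r), ram r h| ≤
      ∑ q ∈ Ioc Q (2 * Q), ∑ q' ∈ Ioc Q (2 * Q), ∑ r ∈ Ioc R (2 * Q), (K * |ram r h|) *
        ((if r ∣ q then 1 / (q : ℝ) else 0) * (if r ∣ q' then 1 / (q' : ℝ) else 0)) := by
    refine (abs_sum_le_sum_abs _ _).trans (sum_le_sum fun q hq => ?_)
    exact (abs_sum_le_sum_abs _ _).trans (sum_le_sum fun q' hq' => hterm q hq q' hq')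
  refine hsum.trans ?_
  have hswap : ∑ q ∈ Ioc Q (2 * Q), ∑ q' ∈ Ioc Q (2 * Q), ∑ r ∈ Ioc R (2 * Q), (K * |ram r h|) *
        ((if r ∣ q then 1 / (q : ℝ) else 0) * (if r ∣ q' then 1 / (q' : ℝ) else 0)) =
      ∑ r ∈ Ioc R (2 * Q), (K * |ram r h|) *
        ((∑ q ∈ (Ioc Q (2 * Q)).filter (fun q => r ∣ q), (1 : ℝ) / q) *
          (∑ q ∈ (Ioc Q (2 * Q)).filter (fun q => r ∣ q), (1 : ℝ) / q)) := by
    rw [sum_congr rfl fun q _ => sum_comm, sum_comm]
    apply sum_congr rfl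
    intro r _
    rw [sum_filter, sum_mul_sum, mul_sum]
    apply sum_congr rfl
    intro q _
    rw [mul_sum]
  rw [hswap]
  calc ∑ r ∈ Ioc R (2 * Q), (K * |ram r h|) *
        ((∑ q ∈ (Ioc Q (2 * Q)).filter (fun q => r ∣ q), (1 : ℝ) / q) *
          (∑ q ∈ (Ioc Q (2 * Q)).filter (fun q => r ∣ q), (1 : ℝ) / q))
      ≤ ∑ r ∈ Ioc R (2 * Q), (K * |ram r h|) * ((3 / r) * (3 / r)) := by
        apply sum_le_sum
        intro r hr
        rw [mem_Ioc] at hr
        have h1 := sum_inv_mult Q r hQ (by omega) hr.2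
        have h2 : 0 ≤ ∑ q ∈ (Ioc Q (2 * Q)).filter (fun q => r ∣ q), (1 : ℝ) / q :=
          sum_nonneg fun _ _ => by positivity
        apply mul_le_mul_of_nonneg_left _ (by positivity)
        exact mul_le_mul h1 h1 h2 (by positivity)
    _ = 9 * K * ∑ r ∈ Ioc R (2 * Q), 1 / (r : ℝ) ^ 2 * |ram r h| := by
        rw [mul_sum]
        apply sum_congr rfl
        intro r _
        ring
    _ ≤ 9 * K * (2 * (tau h.natAbs : ℝ) / R) :=
        mul_le_mul_of_nonneg_left (crR_ram R (2 * Q) hR h hh) (by positivity)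
    _ = (9 * Real.pi ^ 2) * (x * (tau h.natAbs : ℝ) / R) := by
        rw [hK]; ring
    _ ≤ 100 * (x * (tau h.natAbs : ℝ) / R) := by
        apply mul_le_mul_of_nonneg_right _ (by positivity)
        have h1 := Real.pi_lt_d2
        have h2 := Real.pi_pos
        nlinarith only [h1, h2]
    _ = 100 * x * (tau h.natAbs : ℝ) / R := by ring

end Pool.Agent.H80.KF

end

section

/-!
# The structured part: denominators larger than `R`

`r/φ(r) = ∑_{d ∣ r} μ²(d)/φ(d) ≤ τ(r) ≤ 2 √r` (`sum_phi`), so `μ²(r)/φ(r) ≤ 2/√r` and the sum is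
`≤ ∑_{R < r ≤ 2Q} (3/r)(2/√r) = 6 ∑_{r > R} r^{-3/2} ≤ 12/√R`
(`r^{-3/2} ≤ 2/√(r-1) - 2/√r`).
-/

set_option autoImplicit false

namespace Pool.Agent.H80.KF

open Finset

private theorem StrC_card (r : ℕ) (hr : 1 ≤ r) :
    (r.divisors.card : ℝ) ≤ 2 * Real.sqrt r := by
  have h1 : r.divisors.card ≤ 2 * Nat.sqrt r := by
    have hsub : r.divisors ⊆
        (Icc 1 (Nat.sqrt r)) ∪ ((Icc 1 (Nat.sqrt r)).image (fun d => r / d)) := by
      intro d hd
      have hd' := Nat.mem_divisors.1 hd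
      have hdpos := Nat.pos_of_mem_divisors hd
      by_cases h : d ≤ Nat.sqrt r
      · exact mem_union_left _ (mem_Icc.2 ⟨hdpos, h⟩)
      · refine mem_union_right _ (mem_image.2 ⟨r / d, mem_Icc.2 ⟨?_, ?_⟩, ?_⟩)
        · exact Nat.div_pos (Nat.le_of_dvd (by omega) hd'.1) hdpos
        · by_contra hc
          push Not at hc h
          have h3 : (Nat.sqrt r + 1) * (Nat.sqrt r + 1) ≤ d * (r / d) :=
            Nat.mul_le_mul h hc
          rw [Nat.mul_div_cancel' hd'.1] at h3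
          exact absurd (Nat.lt_succ_sqrt r) (not_lt.2 h3)
        · exact Nat.div_div_self hd'.1 (by omega)
    calc r.divisors.card ≤ _ := card_le_card hsub
      _ ≤ _ := card_union_le _ _
      _ ≤ Nat.sqrt r + Nat.sqrt r := add_le_add (by simp) (card_image_le.trans (by simp))
      _ = 2 * Nat.sqrt r := by ring
  have h2 : (Nat.sqrt r : ℝ) ≤ Real.sqrt r := Real.nat_sqrt_le_real_sqrt
  calc (r.divisors.card : ℝ) ≤ ((2 * Nat.sqrt r : ℕ) : ℝ) := by exact_mod_cast h1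
    _ = 2 * (Nat.sqrt r : ℝ) := by push_cast; ring
    _ ≤ 2 * Real.sqrt r := by linarith

private theorem StrC_w (r : ℕ) (hr : 1 ≤ r) :
    (ArithmeticFunction.moebius r : ℝ) ^ 2 / (Nat.totient r : ℝ) ≤ 2 / Real.sqrt r := by
  have hφ : ∀ d : ℕ, 1 ≤ d → (1 : ℝ) ≤ (Nat.totient d : ℝ) := fun d hd => by
    exact_mod_cast Nat.totient_pos.2 hd
  have hmu : ∀ d : ℕ, (ArithmeticFunction.moebius d : ℝ) ^ 2 ≤ 1 := fun d => by
    rw [sq_le_one_iff_abs_le_one]
    have := ArithmeticFunction.abs_moebius_le_one (n := d)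
    exact_mod_cast this
  have h1 := sum_phi r hr
  have h2 : ∑ d ∈ r.divisors, (ArithmeticFunction.moebius d : ℝ) ^ 2 / (Nat.totient d : ℝ) ≤
      (r.divisors.card : ℝ) := by
    have : ∑ d ∈ r.divisors, (ArithmeticFunction.moebius d : ℝ) ^ 2 / (Nat.totient d : ℝ) ≤
        ∑ _d ∈ r.divisors, (1 : ℝ) := by
      refine sum_le_sum fun d hd => ?_
      have h3 := hφ d (Nat.pos_of_mem_divisors hd)
      rw [div_le_one (by linarith)]
      exact (hmu d).trans h3
    simpa using this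
  have h3 : (r : ℝ) / (Nat.totient r : ℝ) ≤ 2 * Real.sqrt r :=
    h1 ▸ h2.trans (StrC_card r hr)
  have h4 := hφ r hr
  have h5 : (0 : ℝ) < Real.sqrt r := Real.sqrt_pos.2 (by exact_mod_cast hr)
  have h6 : Real.sqrt r * Real.sqrt r = r := Real.mul_self_sqrt (Nat.cast_nonneg _)
  calc (ArithmeticFunction.moebius r : ℝ) ^ 2 / (Nat.totient r : ℝ)
      ≤ 1 / (Nat.totient r : ℝ) := by
        apply div_le_div_of_nonneg_right (hmu r) (by linarith)
    _ = (r : ℝ) / (Nat.totient r : ℝ) / (Real.sqrt r * Real.sqrt r) := by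
        rw [h6]
        have : (r : ℝ) ≠ 0 := by positivity
        field_simp
    _ ≤ 2 * Real.sqrt r / (Real.sqrt r * Real.sqrt r) :=
        div_le_div_of_nonneg_right h3 (by positivity)
    _ = 2 / Real.sqrt r := by field_simp

private theorem StrC_step (r : ℕ) (hr : 1 ≤ r) :
    3 / ((r + 1 : ℕ) : ℝ) * (2 / Real.sqrt ((r + 1 : ℕ) : ℝ)) ≤
      12 / Real.sqrt r - 12 / Real.sqrt ((r + 1 : ℕ) : ℝ) := by
  have ha : (0 : ℝ) < Real.sqrt r := Real.sqrt_pos.2 (by exact_mod_cast hr)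
  have hab : Real.sqrt r ≤ Real.sqrt ((r + 1 : ℕ) : ℝ) :=
    Real.sqrt_le_sqrt (by push_cast; linarith)
  have hb : (0 : ℝ) < Real.sqrt ((r + 1 : ℕ) : ℝ) := ha.trans_le hab
  have h1 : Real.sqrt r * Real.sqrt r = r := Real.mul_self_sqrt (Nat.cast_nonneg _)
  have h2 : Real.sqrt ((r + 1 : ℕ) : ℝ) * Real.sqrt ((r + 1 : ℕ) : ℝ) = ((r + 1 : ℕ) : ℝ) :=
    Real.mul_self_sqrt (Nat.cast_nonneg _)
  have h3 : Real.sqrt ((r + 1 : ℕ) : ℝ) * Real.sqrt ((r + 1 : ℕ) : ℝ) -
      Real.sqrt r * Real.sqrt r = 1 := by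
    rw [h1, h2]; push_cast; ring
  have h0 : 3 / ((r + 1 : ℕ) : ℝ) = 3 / (Real.sqrt ((r + 1 : ℕ) : ℝ) *
      Real.sqrt ((r + 1 : ℕ) : ℝ)) := by rw [h2]
  rw [h0]
  generalize Real.sqrt ((r + 1 : ℕ) : ℝ) = b at *
  generalize Real.sqrt (r : ℝ) = a at *
  have h4 : (b - a) * (b + a) = 1 := by linarith
  have h5 : 1 ≤ (b - a) * (2 * b) := by
    rw [← h4]
    exact mul_le_mul_of_nonneg_left (by linarith) (by linarith)
  have h6 : 12 / a - 12 / b = 12 * (b - a) / (a * b) := by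
    field_simp
  have h7 : 3 / (b * b) * (2 / b) = 6 / (b * b * b) := by
    field_simp; norm_num
  rw [h6, h7, div_le_div_iff₀ (by positivity) (by positivity)]
  have h8 : a * b ≤ b * b := mul_le_mul_of_nonneg_right hab hb.le
  calc 6 * (a * b) ≤ 6 * (b * b) := by linarith
    _ ≤ 6 * (b * b) * ((b - a) * (2 * b)) := by
        have : 0 ≤ 6 * (b * b) := by positivity
        nlinarith
    _ = 12 * (b - a) * (b * b * b) := by ring

private theorem StrC_tel (R : ℕ) (hR : 1 ≤ R) (M : ℕ) (hM : R ≤ M) :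
    ∑ r ∈ Ioc R M, 3 / (r : ℝ) * (2 / Real.sqrt r) ≤ 12 / Real.sqrt R - 12 / Real.sqrt M := by
  induction M, hM using Nat.le_induction with
  | base => simp
  | succ M hM ih =>
    rw [← Finset.insert_Ioc_right_eq_Ioc_add_one (by omega), sum_insert (by simp)]
    have := StrC_step M (hR.trans hM)
    linarith

theorem str_tail (Q R : ℕ) (hQ : 1 ≤ Q) (hR : 1 ≤ R) :
    ∑ q ∈ Ioc Q (2 * Q), (1 / (q : ℝ)) * ∑ r ∈ q.divisors.filter (fun r => R < r),
        (ArithmeticFunction.moebius r : ℝ) ^ 2 / (Nat.totient r : ℝ) ≤ 12 / Real.sqrt R := by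
  have e1 : ∀ q ∈ Ioc Q (2 * Q), q.divisors.filter (fun r => R < r) =
      (Ioc R (2 * Q)).filter (fun r => r ∣ q) := by
    intro q hq
    rw [mem_Ioc] at hq
    ext r
    simp only [mem_filter, Nat.mem_divisors, mem_Ioc]
    constructor
    · rintro ⟨⟨h1, h2⟩, h3⟩
      exact ⟨⟨h3, (Nat.le_of_dvd (by omega) h1).trans hq.2⟩, h1⟩
    · rintro ⟨⟨h1, h2⟩, h3⟩
      exact ⟨⟨h3, by omega⟩, h1⟩
  have e2 : ∑ q ∈ Ioc Q (2 * Q), (1 / (q : ℝ)) * ∑ r ∈ q.divisors.filter (fun r => R < r),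
        (ArithmeticFunction.moebius r : ℝ) ^ 2 / (Nat.totient r : ℝ) =
      ∑ r ∈ Ioc R (2 * Q), (∑ q ∈ (Ioc Q (2 * Q)).filter (fun q => r ∣ q), (1 : ℝ) / q) *
        ((ArithmeticFunction.moebius r : ℝ) ^ 2 / (Nat.totient r : ℝ)) := by
    have e3 : ∀ q ∈ Ioc Q (2 * Q), (1 / (q : ℝ)) * ∑ r ∈ q.divisors.filter (fun r => R < r),
        (ArithmeticFunction.moebius r : ℝ) ^ 2 / (Nat.totient r : ℝ) =
        ∑ r ∈ Ioc R (2 * Q), if r ∣ q then (1 / (q : ℝ)) *
          ((ArithmeticFunction.moebius r : ℝ) ^ 2 / (Nat.totient r : ℝ)) else 0 := by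
      intro q hq
      rw [e1 q hq, mul_sum, sum_filter]
    rw [sum_congr rfl e3, sum_comm]
    refine sum_congr rfl fun r _ => ?_
    rw [sum_mul, sum_filter]
  rw [e2]
  by_cases h : R ≤ 2 * Q
  · calc ∑ r ∈ Ioc R (2 * Q), (∑ q ∈ (Ioc Q (2 * Q)).filter (fun q => r ∣ q), (1 : ℝ) / q) *
          ((ArithmeticFunction.moebius r : ℝ) ^ 2 / (Nat.totient r : ℝ))
        ≤ ∑ r ∈ Ioc R (2 * Q), 3 / (r : ℝ) * (2 / Real.sqrt r) := by
          refine sum_le_sum fun r hr => ?_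
          rw [mem_Ioc] at hr
          refine mul_le_mul (sum_inv_mult Q r hQ (by omega) hr.2) (StrC_w r (by omega)) ?_ ?_
          · positivity
          · positivity
      _ ≤ 12 / Real.sqrt R - 12 / Real.sqrt ((2 * Q : ℕ) : ℝ) := StrC_tel R hR (2 * Q) h
      _ ≤ 12 / Real.sqrt R := by
          have : (0 : ℝ) ≤ 12 / Real.sqrt ((2 * Q : ℕ) : ℝ) := by positivity
          linarith
  · rw [Ioc_eq_empty (by omega), sum_empty]
    positivity

end Pool.Agent.H80.KF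

end

section

/-!
# The structured part for general nonnegative numbers

`str_main` of KF (StrB.lean) for arbitrary `E d ≥ 0`, without the coprimality condition; the same
proof.
-/

set_option autoImplicit false

namespace Pool.Agent.H35.KM

open Finset
open Pool.Agent.H80.KF

private theorem StG_harm (R : ℕ) : ∑ k ∈ Icc 1 R, (1 : ℝ) / k ≤ 1 + Real.log R := by
  have h := harmonic_le_one_add_log R
  rw [harmonic_eq_sum_Icc] at h
  push_cast at h
  simpa [one_div] using h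

private theorem StG_mult (R d : ℕ) (hd : 1 ≤ d) :
    ∑ r ∈ (Icc 1 R).filter (fun r => d ∣ r), (d : ℝ) / r ≤ 1 + Real.log R := by
  have h1 : ∑ r ∈ (Icc 1 R).filter (fun r => d ∣ r), (d : ℝ) / r =
      ∑ k ∈ ((Icc 1 R).filter (fun r => d ∣ r)).image (fun r => r / d), (1 : ℝ) / k := by
    rw [Finset.sum_image]
    · refine Finset.sum_congr rfl fun r hr => ?_
      rw [mem_filter, mem_Icc] at hr
      obtain ⟨k, rfl⟩ := hr.2
      rw [Nat.mul_div_cancel_left k (by omega)]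
      have hk : (k : ℝ) ≠ 0 := by
        have : k ≠ 0 := by
          rintro rfl
          simp at hr
        exact_mod_cast this
      have hd' : (d : ℝ) ≠ 0 := by
        have : d ≠ 0 := by omega
        exact_mod_cast this
      push_cast
      field_simp
    · intro r hr s hs hrs
      rw [Finset.mem_coe, mem_filter] at hr hs
      have h2 : r / d = s / d := hrs
      rw [← Nat.div_mul_cancel hr.2, ← Nat.div_mul_cancel hs.2, h2]
  rw [h1]
  refine le_trans ?_ (StG_harm R)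
  apply Finset.sum_le_sum_of_subset_of_nonneg
  · intro k hk
    rw [mem_image] at hk
    obtain ⟨r, hr, rfl⟩ := hk
    rw [mem_filter, mem_Icc] at hr
    rw [mem_Icc]
    refine ⟨Nat.div_pos (Nat.le_of_dvd (by omega) hr.2) (by omega), (Nat.div_le_self _ _).trans hr.1.2⟩
  · intro k _ _
    positivity

theorem stg (Q R : ℕ) (hQ : 1 ≤ Q) (hR : 1 ≤ R) (E : ℕ → ℝ) (hE : ∀ d, 0 ≤ E d) :
    ∑ q ∈ Ioc Q (2 * Q), (1 / (q : ℝ)) * ∑ r ∈ q.divisors.filter (fun r => r ≤ R),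
        ∑ d ∈ r.divisors, (d : ℝ) * E d ≤
      3 * (1 + Real.log R) * ∑ d ∈ Icc 1 R, E d := by
  classical
  set G : ℕ → ℝ := fun r => ∑ d ∈ r.divisors, (d : ℝ) * E d with hG
  have hG0 : ∀ r, 0 ≤ G r := fun r => Finset.sum_nonneg fun d _ =>
    mul_nonneg (Nat.cast_nonneg d) (hE d)
  -- step A
  have hA : ∑ q ∈ Ioc Q (2 * Q), (1 / (q : ℝ)) * ∑ r ∈ q.divisors.filter (fun r => r ≤ R),
        ∑ d ∈ r.divisors, (d : ℝ) * E d =
      ∑ q ∈ Ioc Q (2 * Q), ∑ r ∈ Icc 1 R, if r ∣ q then (1 / (q : ℝ)) * G r else 0 := by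
    refine Finset.sum_congr rfl fun q hq => ?_
    rw [mem_Ioc] at hq
    rw [← Finset.sum_filter, Finset.mul_sum]
    have hset : q.divisors.filter (fun r => r ≤ R) = (Icc 1 R).filter (fun r => r ∣ q) := by
      ext r
      simp only [mem_filter, Nat.mem_divisors, mem_Icc]
      constructor
      · rintro ⟨⟨h2, h3⟩, h4⟩
        exact ⟨⟨Nat.pos_of_dvd_of_pos h2 (by omega), h4⟩, h2⟩
      · rintro ⟨⟨_, h4⟩, h2⟩
        exact ⟨⟨h2, by omega⟩, h4⟩
    rw [hset]
  -- step B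
  have hB : ∑ q ∈ Ioc Q (2 * Q), ∑ r ∈ Icc 1 R, (if r ∣ q then (1 / (q : ℝ)) * G r else 0) ≤
      ∑ r ∈ Icc 1 R, G r * (3 / r) := by
    rw [Finset.sum_comm]
    refine Finset.sum_le_sum fun r hr => ?_
    rw [mem_Icc] at hr
    rw [← Finset.sum_filter, ← Finset.sum_mul, mul_comm (∑ i ∈ _, _)]
    apply mul_le_mul_of_nonneg_left _ (hG0 r)
    rcases le_or_gt r (2 * Q) with h | h
    · exact sum_inv_mult Q r hQ hr.1 h
    · rw [Finset.sum_eq_zero]
      · positivity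
      · intro q hq
        exfalso
        rw [mem_filter, mem_Ioc] at hq
        have := Nat.le_of_dvd (by omega) hq.2
        omega
  -- step C
  have hC : ∑ r ∈ Icc 1 R, G r * (3 / r) =
      3 * ∑ d ∈ Icc 1 R, E d * ∑ r ∈ (Icc 1 R).filter (fun r => d ∣ r), (d : ℝ) / r := by
    have h1 : ∀ r ∈ Icc 1 R, G r * (3 / r) =
        ∑ d ∈ Icc 1 R, if d ∣ r then 3 * (E d * ((d : ℝ) / r)) else 0 := by
      intro r hr
      rw [mem_Icc] at hr
      rw [← Finset.sum_filter, hG]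
      show (∑ d ∈ r.divisors, (d : ℝ) * E d) * (3 / r) = _
      rw [Finset.sum_mul]
      have hset : r.divisors = (Icc 1 R).filter (fun d : ℕ => d ∣ r) := by
        ext d
        simp only [mem_filter, Nat.mem_divisors, mem_Icc]
        constructor
        · rintro ⟨h2, h3⟩
          have h5 := Nat.le_of_dvd (by omega) h2
          exact ⟨⟨Nat.pos_of_dvd_of_pos h2 (by omega), by omega⟩, h2⟩
        · rintro ⟨_, h2⟩
          exact ⟨h2, by omega⟩
      rw [hset]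
      refine Finset.sum_congr rfl fun d _ => ?_
      ring
    rw [Finset.sum_congr rfl h1, Finset.sum_comm, Finset.mul_sum]
    refine Finset.sum_congr rfl fun d _ => ?_
    rw [Finset.mul_sum, Finset.mul_sum, Finset.sum_filter]
  -- step D
  have hD : ∑ d ∈ Icc 1 R, E d * ∑ r ∈ (Icc 1 R).filter (fun r => d ∣ r), (d : ℝ) / r ≤
      ∑ d ∈ Icc 1 R, E d * (1 + Real.log R) := by
    refine Finset.sum_le_sum fun d hd => ?_
    rw [mem_Icc] at hd
    exact mul_le_mul_of_nonneg_left (StG_mult R d hd.1) (hE d)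
  calc _ = _ := hA
    _ ≤ _ := hB
    _ = _ := hC
    _ ≤ 3 * ∑ d ∈ Icc 1 R, E d * (1 + Real.log R) :=
        mul_le_mul_of_nonneg_left hD (by norm_num)
    _ = _ := by
        rw [← Finset.sum_mul]
        ring

end Pool.Agent.H35.KM

end

section

/-!
# A grid for the endpoint

`grid`: let `j` be the largest index with `y_j = ⌊jx/G⌋ ≤ y`; if `j = G` then `y = x = y_G`.  Otherwise
`y_j ≤ y < y_{j+1}`, `y_{j+1} - y_j ≤ x/G + 1`, the number of primes in a class is monotone and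
`π(y_{j+1}) - π(y_j) ≤ y_{j+1} - y_j`, so `|err y| ≤ |err y_j| + |err y_{j+1}| + (x/G + 1)/φ(q)`.
`phi_inv_sum`: `1/φ(q) ≤ τ(q)/q` (`sum_phi`: `q/φ(q) = ∑_{r ∣ q} μ²(r)/φ(r) ≤ τ(q)`), and
`∑_{q ≤ x} τ(q)/q ≤ (∑_{d ≤ x} 1/d)² ≤ (1 + log x)² ≤ 4 (log x)²`.
-/

set_option autoImplicit false

namespace Pool.Agent.H80.KF

open Finset
open Pool.Agent.H91.EHA (err)

private theorem mxa_pc_sub (a b : ℕ) (hab : a ≤ b) :
    (Nat.primeCounting b : ℝ) - (Nat.primeCounting a : ℝ) ≤ (b : ℝ) - a := by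
  obtain ⟨c, rfl⟩ := Nat.exists_eq_add_of_le hab
  have h1 : Nat.primeCounting (a + c) ≤ Nat.primeCounting a + c := by
    unfold Nat.primeCounting Nat.primeCounting'
    have h2 : a + c + 1 = (a + 1) + c := by ring
    rw [h2, Nat.count_add]
    exact Nat.add_le_add_left (Nat.count_le _) _
  have h3 : ((Nat.primeCounting (a + c) : ℕ) : ℝ) ≤ ((Nat.primeCounting a + c : ℕ) : ℝ) := by
    exact_mod_cast h1
  push_cast at h3 ⊢
  linarith

private theorem mxa_card_mono (q : ℕ) (b : ZMod q) (y z : ℕ) (hyz : y ≤ z) :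
    (((Finset.Icc 1 y).filter (fun p : ℕ => Nat.Prime p ∧ ((p : ZMod q) = b))).card : ℝ) ≤
      (((Finset.Icc 1 z).filter (fun p : ℕ => Nat.Prime p ∧ ((p : ZMod q) = b))).card : ℝ) := by
  have h : ((Finset.Icc 1 y).filter (fun p : ℕ => Nat.Prime p ∧ ((p : ZMod q) = b))).card ≤
      ((Finset.Icc 1 z).filter (fun p : ℕ => Nat.Prime p ∧ ((p : ZMod q) = b))).card :=
    Finset.card_le_card (Finset.filter_subset_filter _ (Finset.Icc_subset_Icc le_rfl hyz))
  exact_mod_cast h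

private theorem mxa_between (q : ℕ) (b : ZMod q) (u y v : ℕ) (huy : u ≤ y)
    (hyv : y ≤ v) :
    |err y q b| ≤ |err u q b| + |err v q b| + ((v : ℝ) - u) / (Nat.totient q : ℝ) := by
  have hφ : (0 : ℝ) ≤ (Nat.totient q : ℝ) := Nat.cast_nonneg _
  have h1 := mxa_card_mono q b u y huy
  have h2 := mxa_card_mono q b y v hyv
  have h3 : (Nat.primeCounting u : ℝ) / (Nat.totient q : ℝ) ≤
      (Nat.primeCounting y : ℝ) / (Nat.totient q : ℝ) := by
    gcongr
    exact Nat.monotone_primeCounting huy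
  have h4 : (Nat.primeCounting y : ℝ) / (Nat.totient q : ℝ) ≤
      (Nat.primeCounting v : ℝ) / (Nat.totient q : ℝ) := by
    gcongr
    exact Nat.monotone_primeCounting hyv
  have h5 : (Nat.primeCounting v : ℝ) / (Nat.totient q : ℝ) -
      (Nat.primeCounting u : ℝ) / (Nat.totient q : ℝ) ≤
      ((v : ℝ) - u) / (Nat.totient q : ℝ) := by
    rw [← sub_div]
    exact div_le_div_of_nonneg_right (mxa_pc_sub u v (huy.trans hyv)) hφ
  have h6 := neg_abs_le (err u q b)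
  have h7 := le_abs_self (err v q b)
  have h8 := abs_nonneg (err u q b)
  have h9 := abs_nonneg (err v q b)
  rw [abs_le]
  have eu : err u q b =
    (((Finset.Icc 1 u).filter (fun p : ℕ => Nat.Prime p ∧ ((p : ZMod q) = b))).card : ℝ)
    - (Nat.primeCounting u : ℝ) / (Nat.totient q : ℝ) := rfl
  have ey : err y q b =
    (((Finset.Icc 1 y).filter (fun p : ℕ => Nat.Prime p ∧ ((p : ZMod q) = b))).card : ℝ)
    - (Nat.primeCounting y : ℝ) / (Nat.totient q : ℝ) := rfl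
  have ev : err v q b =
    (((Finset.Icc 1 v).filter (fun p : ℕ => Nat.Prime p ∧ ((p : ZMod q) = b))).card : ℝ)
    - (Nat.primeCounting v : ℝ) / (Nat.totient q : ℝ) := rfl
  constructor
  · linarith
  · linarith

theorem grid (x G q : ℕ) (hx : 1 ≤ x) (hG : 1 ≤ G) (hq : 1 ≤ q) (b : ZMod q) (y : ℕ)
    (hy : y ≤ x) :
    |err y q b| ≤ ∑ j ∈ range (G + 1), |err (j * x / G) q b| +
      ((x : ℝ) / G + 1) / (Nat.totient q : ℝ) := by
  have hG0 : (0 : ℝ) < G := by exact_mod_cast hG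
  have hlast : (0 : ℝ) ≤ ((x : ℝ) / G + 1) / (Nat.totient q : ℝ) := by positivity
  set j := Nat.findGreatest (fun j => j * x / G ≤ y) G with hj
  have hjG : j ≤ G := Nat.findGreatest_le G
  have hjy : j * x / G ≤ y :=
    Nat.findGreatest_spec (P := fun j => j * x / G ≤ y) (Nat.zero_le G) (by simp)
  have hnn : ∀ i ∈ range (G + 1), 0 ≤ |err (i * x / G) q b| := fun i _ => abs_nonneg _
  rcases hjG.eq_or_lt with hjG | hjG
  · have h1 : y = j * x / G := by
      rw [hjG, Nat.mul_div_cancel_left x (by omega)] at hjy ⊢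
      omega
    have h2 : |err (j * x / G) q b| ≤ ∑ j ∈ range (G + 1), |err (j * x / G) q b| :=
      Finset.single_le_sum (f := fun j => |err (j * x / G) q b|) hnn
        (Finset.mem_range.2 (by omega))
    rw [← h1] at h2
    linarith
  · have h1 : y < (j + 1) * x / G := by
      by_contra hcon
      exact Nat.findGreatest_is_greatest (P := fun j => j * x / G ≤ y) (n := G) (k := j + 1)
        (by omega) (by omega) (not_lt.1 hcon)
    have h2 := mxa_between q b _ y _ hjy h1.le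
    have h3 : |err (j * x / G) q b| + |err ((j + 1) * x / G) q b| ≤
        ∑ j ∈ range (G + 1), |err (j * x / G) q b| := by
      have h4 : ∑ i ∈ ({j, j + 1} : Finset ℕ), |err (i * x / G) q b| ≤
          ∑ i ∈ range (G + 1), |err (i * x / G) q b| := by
        refine Finset.sum_le_sum_of_subset_of_nonneg ?_ (fun i hi _ => hnn i hi)
        intro i hi
        rw [Finset.mem_insert, Finset.mem_singleton] at hi
        rw [Finset.mem_range]
        omega
      rwa [Finset.sum_pair (by omega)] at h4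
    have h5 : ((((j + 1) * x / G : ℕ) : ℝ) - ((j * x / G : ℕ) : ℝ)) / (Nat.totient q : ℝ) ≤
        ((x : ℝ) / G + 1) / (Nat.totient q : ℝ) := by
      gcongr
      have h6 : (((j + 1) * x / G : ℕ) : ℝ) ≤ ((j + 1 : ℕ) * (x : ℝ)) / G := by
        have := @Nat.cast_div_le ℝ _ _ _ ((j + 1) * x) G
        push_cast at this ⊢
        exact this
      have h7 : ((j : ℝ) * x) / G < ((j * x / G : ℕ) : ℝ) + 1 := by
        rw [div_lt_iff₀ hG0]
        have h8 : j * x < (j * x / G + 1) * G := by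
          rw [mul_comm (j * x / G + 1)]
          exact Nat.lt_mul_div_succ (j * x) (Nat.lt_of_lt_of_le Nat.zero_lt_one hG)
        exact_mod_cast h8
      have h9 : ((j + 1 : ℕ) * (x : ℝ)) / G = ((j : ℝ) * x) / G + (x : ℝ) / G := by
        push_cast
        ring
      linarith
    linarith

private theorem mxa_phi_le (q : ℕ) (hq : 1 ≤ q) :
    1 / (Nat.totient q : ℝ) ≤ ∑ _r ∈ q.divisors, 1 / (q : ℝ) := by
  have hq0 : (0 : ℝ) < q := by exact_mod_cast hq
  have h1 := sum_phi q hq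
  have h2 : (q : ℝ) / (Nat.totient q : ℝ) ≤ ∑ _r ∈ q.divisors, (1 : ℝ) := by
    rw [← h1]
    refine Finset.sum_le_sum fun r hr => ?_
    have hr0 : 0 < r := Nat.pos_of_mem_divisors hr
    have h3 : (1 : ℝ) ≤ (Nat.totient r : ℝ) := by
      exact_mod_cast (Nat.totient_pos.2 hr0)
    rw [div_le_one (by linarith)]
    have h4 : (ArithmeticFunction.moebius r : ℝ) ^ 2 ≤ 1 := by
      have h5 : |(ArithmeticFunction.moebius r : ℤ)| ≤ 1 := ArithmeticFunction.abs_moebius_le_one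
      have h6 : |(ArithmeticFunction.moebius r : ℝ)| ≤ 1 := by exact_mod_cast h5
      rw [← sq_abs]
      exact pow_le_one₀ (abs_nonneg _) h6
    linarith
  have h3 : 1 / (Nat.totient q : ℝ) = (q : ℝ) / (Nat.totient q : ℝ) * (1 / (q : ℝ)) := by
    field_simp
  rw [h3]
  calc (q : ℝ) / (Nat.totient q : ℝ) * (1 / (q : ℝ))
      ≤ (∑ _r ∈ q.divisors, (1 : ℝ)) * (1 / (q : ℝ)) := by gcongr
    _ = ∑ _r ∈ q.divisors, 1 / (q : ℝ) := by rw [Finset.sum_mul]; simp

private theorem mxa_harm (x : ℕ) :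
    ∑ d ∈ Icc 1 x, 1 / (d : ℝ) ≤ 1 + Real.log x := by
  have h := harmonic_le_one_add_log x
  rw [harmonic_eq_sum_Icc] at h
  push_cast at h
  simpa [one_div] using h

theorem phi_inv_sum (x : ℕ) (hx : 3 ≤ x) :
    ∑ q ∈ Icc 1 x, 1 / (Nat.totient q : ℝ) ≤ 4 * Real.log x ^ 2 := by
  have hlog : 1 ≤ Real.log x := by
    rw [Real.le_log_iff_exp_le (by positivity)]
    have h1 : (3 : ℝ) ≤ x := by exact_mod_cast hx
    linarith [Real.exp_one_lt_d9]
  have h1 : ∑ q ∈ Icc 1 x, 1 / (Nat.totient q : ℝ) ≤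
      ∑ q ∈ Icc 1 x, ∑ _r ∈ q.divisors, 1 / (q : ℝ) :=
    Finset.sum_le_sum fun q hq => mxa_phi_le q (Finset.mem_Icc.1 hq).1
  have h2 : ∑ q ∈ Icc 1 x, ∑ _r ∈ q.divisors, 1 / (q : ℝ) ≤
      ∑ d ∈ Icc 1 x, ∑ e ∈ Icc 1 x, 1 / (d : ℝ) * (1 / (e : ℝ)) := by
    have h20 : ∑ q ∈ Icc 1 x, ∑ _r ∈ q.divisors, 1 / (q : ℝ) =
        ∑ d ∈ Icc 1 x, ∑ q ∈ (Icc 1 x).filter (fun q => d ∣ q), 1 / (q : ℝ) := by
      refine Finset.sum_comm' fun q d => ?_
      rw [Nat.mem_divisors, Finset.mem_filter, Finset.mem_Icc, Finset.mem_Icc]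
      constructor
      · rintro ⟨⟨h1, h2⟩, h3, h4⟩
        exact ⟨⟨⟨h1, h2⟩, h3⟩, Nat.pos_of_dvd_of_pos h3 h1, (Nat.le_of_dvd h1 h3).trans h2⟩
      · rintro ⟨⟨⟨h1, h2⟩, h3⟩, h4, h5⟩
        exact ⟨⟨h1, h2⟩, h3, by omega⟩
    rw [h20]
    refine Finset.sum_le_sum fun d hd => ?_
    have hd1 : 1 ≤ d := (Finset.mem_Icc.1 hd).1
    calc ∑ q ∈ (Icc 1 x).filter (fun q => d ∣ q), 1 / (q : ℝ)
        ≤ ∑ q ∈ (Icc 1 x).image (fun e => d * e), 1 / (q : ℝ) := by
          refine Finset.sum_le_sum_of_subset_of_nonneg ?_ (fun i _ _ => by positivity)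
          intro q hq
          rw [Finset.mem_filter, Finset.mem_Icc] at hq
          obtain ⟨⟨h1, h2⟩, e, rfl⟩ := hq
          refine Finset.mem_image.2 ⟨e, Finset.mem_Icc.2 ⟨?_, ?_⟩, rfl⟩
          · exact Nat.pos_of_ne_zero (fun h => by simp [h] at h1)
          · exact (Nat.le_mul_of_pos_left e hd1).trans h2
      _ = ∑ e ∈ Icc 1 x, 1 / ((d * e : ℕ) : ℝ) := by
          rw [Finset.sum_image]
          intro a _ b _ hab
          exact Nat.eq_of_mul_eq_mul_left hd1 hab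
      _ = ∑ e ∈ Icc 1 x, 1 / (d : ℝ) * (1 / (e : ℝ)) := by
          refine Finset.sum_congr rfl fun e _ => ?_
          push_cast
          rw [one_div_mul_one_div]
  have h3 : ∑ d ∈ Icc 1 x, ∑ e ∈ Icc 1 x, 1 / (d : ℝ) * (1 / (e : ℝ)) =
      (∑ d ∈ Icc 1 x, 1 / (d : ℝ)) ^ 2 := by
    rw [sq, Finset.sum_mul_sum]
  have h4 : (∑ d ∈ Icc 1 x, 1 / (d : ℝ)) ^ 2 ≤ (1 + Real.log x) ^ 2 := by
    gcongr
    exact mxa_harm x
  have h5 : (1 + Real.log x) ^ 2 ≤ 4 * Real.log x ^ 2 := by nlinarith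
  linarith

end Pool.Agent.H80.KF

end
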