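import Pool.Agent.H94.EH.M04

/-! The parts of this file: H76.EHB.Defs, H35.W.Defs, H76.EHB.Planch, H76.EHB.Mell, H76.EHB.Osc, H76.EHB.Basic, H76.EHB.Gft. -/

section

/-!
# PROJECT EHB (MP_a78e8f_nt): common definitions

The exponential sum `FF f N θ = ∑_{n ≤ N} f(n) e(n θ)`, `S2 f N = ∑_{n ≤ N} f(n)^2`, the set `ks K` of the
integers `k ≠ 0` with `|k| ≤ K`, the Gaussian weight `wt A u = exp(-π (u/A)^2)`.
-/

set_option autoImplicit false

namespace Pool.Agent.H76.EHB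

open Finset MeasureTheory
open Pool.Agent.H91.PK (ee)

/-- `∑_{n ≤ N} f(n) e(n θ)` -/
noncomputable def FF (f : ℕ → ℝ) (N : ℕ) (θ : ℝ) : ℂ := ∑ n ∈ Icc 1 N, (f n : ℂ) * ee (n * θ)

/-- `∑_{n ≤ N} f(n)^2` -/
noncomputable def S2 (f : ℕ → ℝ) (N : ℕ) : ℝ := ∑ n ∈ Icc 1 N, f n ^ 2

/-- extension of `f` by zero to all integers -/
noncomputable def ft (f : ℕ → ℝ) (N : ℕ) (m : ℤ) : ℝ := if 1 ≤ m ∧ m ≤ N then f m.toNat else 0

/-- Gaussian weight -/
noncomputable def wt (A u : ℝ) : ℝ := Real.exp (-Real.pi * (u / A) ^ 2)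

/-- the integers `k ≠ 0`, `|k| ≤ K` -/
noncomputable def ks (K : ℕ) : Finset ℤ := (Icc (-(K : ℤ)) K).erase 0

/-- the off-diagonal sum of the pair `k1 ≠ k2` (physical side) -/
noncomputable def Soff (f : ℕ → ℝ) (N : ℕ) (A : ℝ) (a0 : ℤ) (k1 k2 : ℤ) : ℝ :=
  ∑ n1 ∈ Icc 1 N, ∑ n2 ∈ Icc 1 N,
    if (k2 - k1) ∣ ((n1 : ℤ) - n2) then
      f n1 * f n2 * wt A (((k2 * n1 - k1 * n2 : ℤ) : ℝ) / ((k2 - k1 : ℤ) : ℝ) - a0) else 0

/-- the integral of the pair `k1, k2` at the fraction `α`, `y ∈ S` -/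
noncomputable def IpS (f : ℕ → ℝ) (N : ℕ) (A : ℝ) (a0 : ℤ) (α : ℝ) (k1 k2 : ℤ) (S : Set ℝ) : ℂ :=
  ∫ y in S, ((A * Real.exp (-Real.pi * (A * ((k2 - k1 : ℤ) : ℝ) * y) ^ 2) : ℝ) : ℂ)
    * ee (-((a0 : ℝ) * ((k2 - k1 : ℤ) : ℝ) * y))
    * (FF f N (α + k2 * y) * (starRingEnd ℂ) (FF f N (α + k1 * y)))

/-- the majorant `∫ A exp(-π (A r y)^2) |F(α + k y)|^2 dy` -/
noncomputable def Wk (f : ℕ → ℝ) (N : ℕ) (A : ℝ) (α k r : ℝ) (S : Set ℝ) : ℝ :=
  ∫ y in S, A * Real.exp (-Real.pi * (A * r * y) ^ 2) * ‖FF f N (α + k * y)‖ ^ 2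

/-- the small denominator integral: `l` a class modulo `d`, `a` a real shift -/
noncomputable def JJ (f : ℕ → ℝ) (N K d : ℕ) (l : ℤ) (α a Y : ℝ) : ℝ :=
  ∫ y in Set.Icc (-Y) Y,
    ‖∑ k ∈ (ks K).filter (fun k => (d : ℤ) ∣ k - l), FF f N (α + k * y) * ee (-(a * k * y))‖ ^ 2

end Pool.Agent.H76.EHB

end

section

/-!
# PROJECT W (MP_a78e8f_nt): common definitions

Elliott-Halberstam with the saving `(log x)^(-1/2+o(1))` for almost all residues `a` in every interval of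
length `x^ε`.  Notation: `L = log x`, `f = hR R` with `R = ⌊L^20⌋`, `ee(t) = exp(2 π i t)`.
`FF f N θ = ∑_{n ≤ N} f(n) ee(n θ)`, `S2 f N = ∑_{n ≤ N} f(n)^2`, `ZZ S t = ∑_{k ∈ S} k^{-1/2 + i t}`,
`Mel g t = ∫_0^∞ g(θ) θ^{-1/2 - i t} dθ`, `II S g = ∫_0^∞ |∑_{k ∈ S} g(k y)|^2 dy` are those of EHB.
-/

set_option autoImplicit false

namespace Pool.Agent.H35.W

open Finset MeasureTheory
open Pool.Agent.H91.PK (ee)
open Pool.Agent.H76.EHB

/-- the primes of the block `(P, 2P]` -/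
def pb (P : ℕ) : Finset ℕ := (Ioc P (2 * P)).filter Nat.Prime

/-- the primes of the block `(P, 2P]` in the class `l` modulo `d` -/
def pbl (P d : ℕ) (l : ℤ) : Finset ℕ := (pb P).filter (fun p => (d : ℤ) ∣ (p : ℤ) - l)

/-- a finite set of natural numbers as a set of integers -/
def zs (S : Finset ℕ) : Finset ℤ := S.image (fun k : ℕ => (k : ℤ))

/-- `k` has no prime factor in the blocks `pb (P 2^i)`, `i < J`, i.e. in `(P, P 2^J]` -/
def Rk (P J k : ℕ) : Prop := ∀ i, i < J → ∀ p ∈ pb (P * 2 ^ i), ¬ p ∣ k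

open Classical in
/-- the `k ≤ y` without prime factor in `(P, P 2^J]` -/
noncomputable def rgh (P J y : ℕ) : Finset ℕ := (Icc 1 y).filter (fun k => Rk P J k)

open Classical in
/-- the `k ≤ y` with a prime factor in `(P, P 2^J]` -/
noncomputable def fcs (P J y : ℕ) : Finset ℕ := (Icc 1 y).filter (fun k => ¬ Rk P J k)

open Classical in
/-- the `k ≤ y` divisible by the square of a prime `> P` -/
noncomputable def sqs (P y : ℕ) : Finset ℕ :=
  (Icc 1 y).filter (fun k => ∃ p, P < p ∧ p.Prime ∧ p ^ 2 ∣ k)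

/-- the correlation of `g` with `ee(n α + t log (n - a0))` on `(M, y]` -/
noncomputable def cor (g : ℕ → ℝ) (a0 M : ℕ) (α t : ℝ) (y : ℕ) : ℂ :=
  ∑ n ∈ Ioc M y, (g n : ℂ) * ee (n * α + t * Real.log ((n : ℝ) - a0))

/-- the small denominator integral of a finite set `T` of integers -/
noncomputable def JJT (f : ℕ → ℝ) (N : ℕ) (T : Finset ℤ) (α a Y : ℝ) : ℝ :=
  ∫ y in Set.Icc (-Y) Y, ‖∑ k ∈ T, FF f N (α + k * y) * ee (-(a * k * y))‖ ^ 2

/-- the exponentially damped exponential sum -/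
noncomputable def ge (f : ℕ → ℝ) (N : ℕ) (α a Θ s θ : ℝ) : ℂ :=
  if 0 < θ then FF f N (α + s * θ) * ee (-(a * s * θ)) * ((Real.exp (-(θ / Θ)) : ℝ) : ℂ) else 0

/-- the parameters `(c, d, t, y)` of the test functions `v(n) = ee(n c/d + t log(n - a0))`, `n ≤ y` -/
def Vx (x N B : ℕ) : Set (ℤ × ℕ × ℝ × ℕ) :=
  {p | 1 ≤ p.2.1 ∧ (p.2.1 : ℝ) ≤ Real.log x ^ B ∧ IsCoprime p.1 (p.2.1 : ℤ) ∧
    |p.2.2.1| ≤ (x : ℝ) ^ (2 : ℕ) ∧ p.2.2.2 ≤ N}

/-- the test function with the parameters `p = (c, d, t, y)` on `(M, y]` -/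
noncomputable def vv (a0 M : ℕ) (p : ℤ × ℕ × ℝ × ℕ) (n : ℕ) : ℂ :=
  if n ∈ Ioc M p.2.2.2 then
    ee (n * ((p.1 : ℝ) / p.2.1) + p.2.2.1 * Real.log ((n : ℝ) - a0)) else 0

/-- the threshold `λ(t) = x max ((1 + |t|)^(-1/8), x^(-η))` -/
noncomputable def lam (x : ℕ) (η t : ℝ) : ℝ :=
  x * max ((1 + |t|) ^ (-(1 / 8) : ℝ)) ((x : ℝ) ^ (-η))

/-- `g` is supported on `(M, N]`, has the second moment `≤ x L^2`, and does not correlate with
`ee(n c/d + t log(n - a0))`, `d ≤ L^B`, `|t| ≤ x`. -/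
structure CorB (x B m : ℕ) (η : ℝ) (N M a0 : ℕ) (g : ℕ → ℝ) : Prop where
  supp : ∀ n, n ∉ Ioc M N → g n = 0
  sq : S2 g N ≤ x * Real.log x ^ 2
  low : ∀ (c : ℤ) (d : ℕ) (t : ℝ) (y : ℕ), 1 ≤ d → (d : ℝ) ≤ Real.log x ^ B →
    IsCoprime c (d : ℤ) → y ≤ N → |t| ≤ Real.log x ^ (4 * m) →
      ‖cor g a0 M ((c : ℝ) / d) t y‖ ≤ x / Real.log x ^ (3 * m)
  high : ∀ (c : ℤ) (d : ℕ) (t : ℝ) (y : ℕ), 1 ≤ d → (d : ℝ) ≤ Real.log x ^ B →
    IsCoprime c (d : ℤ) → y ≤ N → |t| ≤ x →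
      ‖cor g a0 M ((c : ℝ) / d) t y‖ ≤ lam x η t

end Pool.Agent.H35.W

end

section

/-!
# EHB Planch: Plancherel for integrable square integrable functions

Route A: Mathlib's `MeasureTheory.Lp.norm_fourier_eq` (`Mathlib/Analysis/Fourier/LpSpace.lean`) plus the identification of
the `L²` Fourier transform with the integral: approximate `G` by Schwartz functions simultaneously in `L¹` and `L²`
(density, `SchwartzMap.toLp_fourier_eq`); the transforms converge uniformly and in `L²`, so the limits agree a.e.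
Route B (elementary).  `Ĝ(ξ) = ∫ G(u) e(-uξ) du` is bounded and continuous.  For `ε > 0`
`∫ |Ĝ(ξ)|^2 exp(-π (ε ξ)^2) dξ = ∫∫ G(u) conj G(v) (1/ε) exp(-π ((u-v)/ε)^2) du dv` (Fubini and the Gaussian transform, `gft2` scaled).
The right side is `∫ c(w) (1/ε) exp(-π (w/ε)^2) dw` with `c(w) = ∫ G(u + w) conj G(u) du`, a bounded continuous function of `w`
(continuity of translation in `L²`), `c(0) = ∫ |G|^2`, so it tends to `∫|G|^2` as `ε → 0` (for example by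
`Real.tendsto_integral_gaussian_smul'` or directly).  The left side increases to `∫ |Ĝ|^2` (monotone convergence), which is
therefore finite.
-/

set_option autoImplicit false

namespace Pool.Agent.H76.EHB

open Finset MeasureTheory
open Pool.Agent.H91.PK (ee)
open scoped FourierTransform ContDiff SchwartzMap

private theorem planch_eq (G : ℝ → ℂ) (ξ : ℝ) :
    ∫ u, G u * ee (-(u * ξ)) = FourierTransform.fourier G ξ := by
  rw [Real.fourier_real_eq_integral_exp_smul]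
  apply integral_congr_ae
  filter_upwards with u
  rw [ee, smul_eq_mul, mul_comm]
  congr 2
  push_cast
  ring

private theorem planch_continuous (G : ℝ → ℂ) (h1 : Integrable G) :
    Continuous (FourierTransform.fourier G : ℝ → ℂ) :=
  VectorFourier.fourierIntegral_continuous Real.continuous_fourierChar
    (by exact continuous_inner) h1

private theorem planch_ae (G : ℝ → ℂ) (h1 : Integrable G) (h2 : MemLp G 2) :
    (FourierTransform.fourier (h2.toLp G) : Lp (α := ℝ) ℂ 2) =ᵐ[volume]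
      (FourierTransform.fourier G : ℝ → ℂ) := by
  apply ae_eq_of_integral_contDiff_smul_eq
  · exact (Lp.memLp _).locallyIntegrable one_le_two
  · exact (planch_continuous G h1).locallyIntegrable
  · intro g g_smooth g_cpt
    have hg₁ : HasCompactSupport (Complex.ofRealCLM ∘ g) := g_cpt.comp_left rfl
    have hg₂ : ContDiff ℝ ∞ (Complex.ofRealCLM ∘ g) := by fun_prop
    set φ : 𝓢(ℝ, ℂ) := hg₁.toSchwartzMap hg₂ with hφ
    have e1 : ∫ x, g x • (FourierTransform.fourier (h2.toLp G) : Lp (α := ℝ) ℂ 2) x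
        = Lp.toTemperedDistribution (FourierTransform.fourier (h2.toLp G) : Lp (α := ℝ) ℂ 2) φ := by
      rw [Lp.toTemperedDistribution_apply]
      rfl
    have e2 : Lp.toTemperedDistribution (FourierTransform.fourier (h2.toLp G) : Lp (α := ℝ) ℂ 2) φ
        = Lp.toTemperedDistribution (h2.toLp G) (FourierTransform.fourier φ) := by
      rw [← Lp.fourier_toTemperedDistribution_eq]
      rfl
    have e3 : Lp.toTemperedDistribution (h2.toLp G) (FourierTransform.fourier φ)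
        = ∫ x, (FourierTransform.fourier φ : 𝓢(ℝ, ℂ)) x • G x := by
      rw [Lp.toTemperedDistribution_apply]
      apply integral_congr_ae
      filter_upwards [h2.coeFn_toLp] with x hx
      rw [hx]
    have e4 : ∫ x, (FourierTransform.fourier φ : 𝓢(ℝ, ℂ)) x • G x
        = ∫ x, φ x • (FourierTransform.fourier G : ℝ → ℂ) x := by
      have h := VectorFourier.integral_fourierIntegral_smul_eq_flip (L := innerₗ ℝ)
        (μ := volume) (ν := volume) (f := (φ : ℝ → ℂ)) (g := G)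
        Real.continuous_fourierChar continuous_inner φ.integrable h1
      simpa using! h
    rw [e1, e2, e3, e4]
    rfl

private theorem planch_sq (f : Lp (α := ℝ) ℂ 2) : ‖f‖ ^ 2 = ∫ u, ‖f u‖ ^ 2 := by
  have h : (RCLike.re (inner ℂ f f) : ℝ) = ‖f‖ ^ 2 := by
    rw [inner_self_eq_norm_sq]
  rw [← h, L2.inner_def]
  have h2 : ∫ a, (inner ℂ (f a) (f a) : ℂ) = ((∫ u, ‖f u‖ ^ 2 : ℝ) : ℂ) := by
    rw [← integral_complex_ofReal]
    apply integral_congr_ae
    filter_upwards with u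
    rw [inner_self_eq_norm_sq_to_K]
    push_cast
    rfl
  rw [h2]
  exact Complex.ofReal_re _

theorem planch (G : ℝ → ℂ) (h1 : Integrable G) (h2 : MemLp G 2) :
    Integrable (fun ξ : ℝ => ‖∫ u, G u * ee (-(u * ξ))‖ ^ 2) ∧
      ∫ ξ : ℝ, ‖∫ u, G u * ee (-(u * ξ))‖ ^ 2 = ∫ u, ‖G u‖ ^ 2 := by
  have hae := planch_ae G h1 h2
  have hmem : MemLp (FourierTransform.fourier G : ℝ → ℂ) 2 :=
    (memLp_congr_ae hae).1 (Lp.memLp _)
  have hfun : (fun ξ : ℝ => ‖∫ u, G u * ee (-(u * ξ))‖ ^ 2)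
      = fun ξ : ℝ => ‖(FourierTransform.fourier G : ℝ → ℂ) ξ‖ ^ 2 := by
    funext ξ
    rw [planch_eq]
  rw [hfun]
  refine ⟨hmem.integrable_norm_pow (by norm_num), ?_⟩
  have e1 : ∫ ξ : ℝ, ‖(FourierTransform.fourier G : ℝ → ℂ) ξ‖ ^ 2
      = ∫ ξ : ℝ, ‖(FourierTransform.fourier (h2.toLp G) : Lp (α := ℝ) ℂ 2) ξ‖ ^ 2 := by
    apply integral_congr_ae
    filter_upwards [hae] with ξ hξ
    rw [hξ]
  have e2 : ∫ u, ‖G u‖ ^ 2 = ∫ u, ‖(h2.toLp G) u‖ ^ 2 := by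
    apply integral_congr_ae
    filter_upwards [h2.coeFn_toLp] with u hu
    rw [hu]
  rw [e1, e2, ← planch_sq, ← planch_sq, Lp.norm_fourier_eq]

end Pool.Agent.H76.EHB

end

section

/-!
# EHB Mell: Mellin transform on the line 1/2

`Mel g t = ∫_0^∞ g(θ) θ^{-1/2 - i t} dθ` (Mathlib's `mellin g (1/2 - t i)`).
`mel_planch`: with `G(u) = exp(-u/2) g(exp(-u))`, Mathlib's `mellin_eq_fourier` gives
`mellin g (1/2 - i t) = Ĝ(-t/(2π))`.  `g` bounded by `B`, zero outside `(0, Θ]`: `G` is integrable and square integrable,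
`∫ |G|^2 du = ∫_0^∞ |g|^2 dθ` (substitution `θ = exp(-u)`), so `planch` and the substitution `ξ = -t/(2π)` give the claim.
`mel_sum`: `mellin_comp_mul_left`.  `int_sum_sq`: combine (the function `∑ g(k ·)` is again bounded with bounded support).
-/

set_option autoImplicit false

namespace Pool.Agent.H76.EHB

open Finset MeasureTheory
open Pool.Agent.H91.PK (ee)

/-- Mellin transform at `1/2 - i t` -/
noncomputable def Mel (g : ℝ → ℂ) (t : ℝ) : ℂ := mellin g (1 / 2 - t * Complex.I)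

/-- `∑_{k ∈ S} k^{-1/2 + i t}` -/
noncomputable def ZZ (S : Finset ℕ) (t : ℝ) : ℂ := ∑ k ∈ S, (k : ℂ) ^ (-(1 / 2 : ℂ) + t * Complex.I)

private theorem mell_integrable {E : Type*} [NormedAddCommGroup E] {f : ℝ → E}
    (hf : AEStronglyMeasurable f) {b C a : ℝ} (hb : 0 < b) (h1 : ∀ u, ‖f u‖ ≤ C * Real.exp (-b * u))
    (h2 : ∀ u, u ≤ a → f u = 0) : Integrable f := by
  have hI : Integrable (Set.indicator (Set.Ioi a) (fun u => C * Real.exp (-b * u))) :=
    (integrable_indicator_iff measurableSet_Ioi).2 ((exp_neg_integrableOn_Ioi a hb).const_mul C)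
  refine hI.mono' hf (Filter.Eventually.of_forall fun u => ?_)
  by_cases hu : u ≤ a
  · rw [h2 u hu, norm_zero, Set.indicator_of_notMem (by simpa using hu)]
  · rw [Set.indicator_of_mem (by simpa using lt_of_not_ge hu)]
    exact h1 u

private theorem mell_subst (h : ℝ → ℝ) :
    ∫ θ in Set.Ioi (0 : ℝ), h θ = ∫ u, Real.exp (-u) * h (Real.exp (-u)) := by
  have him : (Real.exp ∘ Neg.neg) '' (Set.univ : Set ℝ) = Set.Ioi 0 := by
    rw [Set.image_comp, Set.image_univ_of_surjective neg_surjective, Set.image_univ, Real.range_exp]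
  have hder : ∀ x ∈ (Set.univ : Set ℝ),
      HasDerivWithinAt (Real.exp ∘ Neg.neg) (-Real.exp (-x)) Set.univ x := fun x _ =>
    mul_neg_one (Real.exp (-x)) ▸
      ((Real.hasDerivAt_exp (-x)).comp x (hasDerivAt_neg x)).hasDerivWithinAt
  have hinj : Set.InjOn (Real.exp ∘ Neg.neg) (Set.univ : Set ℝ) :=
    (Real.exp_injective.comp neg_injective).injOn
  rw [← him, integral_image_eq_integral_abs_deriv_smul MeasurableSet.univ hder hinj]
  simp

/-- the function `exp(-u/2) g(exp(-u))` -/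
private noncomputable def GG (g : ℝ → ℂ) (u : ℝ) : ℂ :=
  (Real.exp (-(1 / 2) * u) : ℝ) • g (Real.exp (-u))

private theorem GG_measurable (g : ℝ → ℂ) (hg : Measurable g) : Measurable (GG g) := by
  unfold GG
  exact (by fun_prop : Measurable fun u : ℝ => (Real.exp (-(1 / 2) * u) : ℝ)).smul
    (hg.comp (by fun_prop))

private theorem GG_norm (g : ℝ → ℂ) (u : ℝ) :
    ‖GG g u‖ = Real.exp (-(1 / 2) * u) * ‖g (Real.exp (-u))‖ := by
  unfold GG
  rw [norm_smul, Real.norm_of_nonneg (Real.exp_pos _).le]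

private theorem GG_norm_sq (g : ℝ → ℂ) (u : ℝ) :
    ‖GG g u‖ ^ 2 = Real.exp (-u) * ‖g (Real.exp (-u))‖ ^ 2 := by
  rw [GG_norm, mul_pow, ← Real.exp_nat_mul]
  congr 2
  push_cast
  ring

private theorem GG_zero (g : ℝ → ℂ) (Θ : ℝ) (hs : ∀ θ, Θ < θ → g θ = 0) (u : ℝ)
    (hu : u ≤ -Real.log (max Θ 1) - 1) : GG g u = 0 := by
  unfold GG
  rw [hs, smul_zero]
  have h1 : Real.log (max Θ 1) < -u := by linarith
  have h2 : (0 : ℝ) < max Θ 1 := lt_of_lt_of_le one_pos (le_max_right _ _)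
  exact lt_of_le_of_lt (le_max_left _ _) ((Real.log_lt_iff_lt_exp h2).1 h1)

private theorem GG_integrable (g : ℝ → ℂ) (hg : Measurable g) (B Θ : ℝ) (hB : ∀ θ, ‖g θ‖ ≤ B)
    (hs : ∀ θ, Θ < θ → g θ = 0) : Integrable (GG g) := by
  refine mell_integrable (GG_measurable g hg).aestronglyMeasurable (b := 1 / 2) (C := B)
    (a := -Real.log (max Θ 1) - 1) (by norm_num) (fun u => ?_) (GG_zero g Θ hs)
  rw [GG_norm, mul_comm]
  exact mul_le_mul_of_nonneg_right (hB _) (Real.exp_pos _).le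

private theorem GG_memLp (g : ℝ → ℂ) (hg : Measurable g) (B Θ : ℝ) (hB : ∀ θ, ‖g θ‖ ≤ B)
    (hs : ∀ θ, Θ < θ → g θ = 0) : MemLp (GG g) 2 := by
  rw [memLp_two_iff_integrable_sq_norm (GG_measurable g hg).aestronglyMeasurable]
  refine mell_integrable ((GG_measurable g hg).norm.pow_const 2).aestronglyMeasurable
    (b := 1) (C := B ^ 2) (a := -Real.log (max Θ 1) - 1) one_pos (fun u => ?_) (fun u hu => ?_)
  · rw [Real.norm_of_nonneg (sq_nonneg _), GG_norm_sq, mul_comm, neg_one_mul]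
    refine mul_le_mul_of_nonneg_right ?_ (Real.exp_pos _).le
    exact pow_le_pow_left₀ (norm_nonneg _) (hB _) 2
  · rw [GG_zero g Θ hs u hu, norm_zero]
    norm_num

private theorem Mel_eq (g : ℝ → ℂ) (t : ℝ) :
    Mel g t = ∫ u, GG g u * ee (-(u * (-(1 / (2 * Real.pi)) * t))) := by
  unfold Mel
  rw [mellin_eq_fourier, Real.fourier_real_eq_integral_exp_smul]
  refine integral_congr_ae (Filter.Eventually.of_forall fun u => ?_)
  have hre : ((1 / 2 : ℂ) - t * Complex.I).re = 1 / 2 := by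
    simp
  have him : ((1 / 2 : ℂ) - t * Complex.I).im = -t := by
    simp
  simp only [hre, him]
  rw [smul_eq_mul, mul_comm]
  unfold GG ee
  congr 2
  push_cast
  ring

theorem mel_planch (g : ℝ → ℂ) (hg : Measurable g) (B Θ : ℝ) (hB : ∀ θ, ‖g θ‖ ≤ B)
    (hs : ∀ θ, Θ < θ → g θ = 0) :
    Integrable (fun t => ‖Mel g t‖ ^ 2) ∧
      ∫ t, ‖Mel g t‖ ^ 2 = 2 * Real.pi * ∫ θ in Set.Ioi (0 : ℝ), ‖g θ‖ ^ 2 := by
  obtain ⟨h1, h2⟩ := planch (GG g) (GG_integrable g hg B Θ hB hs) (GG_memLp g hg B Θ hB hs)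
  have hpi : (0 : ℝ) < 2 * Real.pi := by positivity
  have ha : -(1 / (2 * Real.pi)) ≠ 0 := neg_ne_zero.2 (by positivity)
  have hfun : (fun t => ‖Mel g t‖ ^ 2) =
      fun t => (fun ξ : ℝ => ‖∫ u, GG g u * ee (-(u * ξ))‖ ^ 2) (-(1 / (2 * Real.pi)) * t) := by
    funext t
    rw [Mel_eq]
  rw [hfun]
  refine ⟨h1.comp_mul_left' ha, ?_⟩
  rw [Measure.integral_comp_mul_left
    (fun ξ : ℝ => ‖∫ u, GG g u * ee (-(u * ξ))‖ ^ 2) (-(1 / (2 * Real.pi))), h2, smul_eq_mul]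
  congr 1
  · rw [inv_neg, one_div, inv_inv, abs_neg, abs_of_pos hpi]
  · rw [mell_subst (fun θ => ‖g θ‖ ^ 2)]
    exact integral_congr_ae (Filter.Eventually.of_forall fun u => GG_norm_sq g u)

private theorem mell_conv (g : ℝ → ℂ) (hg : Measurable g) (B Θ : ℝ) (hB : ∀ θ, ‖g θ‖ ≤ B)
    (hs : ∀ θ, Θ < θ → g θ = 0) (t : ℝ) : MellinConvergent g (1 / 2 - t * Complex.I) := by
  unfold MellinConvergent
  have hmeas : AEStronglyMeasurable
      (fun θ : ℝ => (θ : ℂ) ^ ((1 / 2 : ℂ) - t * Complex.I - 1) • g θ)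
      (volume.restrict (Set.Ioi 0)) := by
    have hc : AEStronglyMeasurable (fun θ : ℝ => (θ : ℂ) ^ ((1 / 2 : ℂ) - t * Complex.I - 1))
        (volume.restrict (Set.Ioi 0)) := ?_
    · exact hc.smul hg.aestronglyMeasurable
    refine ContinuousOn.aestronglyMeasurable ?_ measurableSet_Ioi
    intro θ hθ
    exact (Complex.continuousAt_ofReal_cpow_const θ _ (Or.inr (ne_of_gt hθ))).continuousWithinAt
  have hB0 : 0 ≤ B := (norm_nonneg _).trans (hB 0)
  have hI : IntegrableOn (Set.indicator (Set.Ioc 0 (max Θ 1)) (fun θ : ℝ => θ ^ (-(1 / 2) : ℝ) * B))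
      (Set.Ioi 0) := by
    refine Integrable.integrableOn ?_
    rw [integrable_indicator_iff measurableSet_Ioc]
    have h0 : (0 : ℝ) ≤ max Θ 1 := le_trans zero_le_one (le_max_right _ _)
    have := (intervalIntegrable_iff_integrableOn_Ioc_of_le h0).1
      (intervalIntegral.intervalIntegrable_rpow' (r := -(1 / 2)) (a := 0) (b := max Θ 1)
        (by norm_num))
    exact this.mul_const B
  refine Integrable.mono' hI hmeas ?_
  refine (ae_restrict_iff' measurableSet_Ioi).2 (Filter.Eventually.of_forall fun θ hθ => ?_)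
  have hθ' : (0 : ℝ) < θ := hθ
  by_cases h : θ ≤ max Θ 1
  · rw [Set.indicator_of_mem (show θ ∈ Set.Ioc 0 (max Θ 1) from ⟨hθ', h⟩), norm_smul,
      Complex.norm_cpow_eq_rpow_re_of_pos hθ']
    have hre : ((1 / 2 : ℂ) - t * Complex.I - 1).re = -(1 / 2) := by
      simp
      norm_num
    rw [hre]
    exact mul_le_mul_of_nonneg_left (hB θ) (Real.rpow_nonneg hθ'.le _)
  · rw [hs θ (lt_of_le_of_lt (le_max_left _ _) (lt_of_not_ge h)), smul_zero, norm_zero]
    exact Set.indicator_nonneg (fun x hx => mul_nonneg (Real.rpow_nonneg hx.1.le _) hB0) θ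

theorem mel_sum (S : Finset ℕ) (hS : ∀ k ∈ S, 1 ≤ k) (g : ℝ → ℂ) (hg : Measurable g) (B Θ : ℝ)
    (hB : ∀ θ, ‖g θ‖ ≤ B) (hs : ∀ θ, Θ < θ → g θ = 0) (t : ℝ) :
    Mel (fun y => ∑ k ∈ S, g (k * y)) t = ZZ S t * Mel g t := by
  unfold Mel ZZ
  have hconv := mell_conv g hg B Θ hB hs t
  rw [sum_mul]
  have h1 : mellin (fun y => ∑ k ∈ S, g (k * y)) (1 / 2 - t * Complex.I) =
      ∑ k ∈ S, mellin (fun y => g (k * y)) (1 / 2 - t * Complex.I) := by
    unfold mellin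
    simp only [smul_sum]
    refine integral_finsetSum S fun k hk => ?_
    have hk0 : (0 : ℝ) < k := by exact_mod_cast hS k hk
    exact (MellinConvergent.comp_mul_left hk0).2 hconv
  rw [h1]
  refine sum_congr rfl fun k hk => ?_
  have hk0 : (0 : ℝ) < k := by exact_mod_cast hS k hk
  rw [mellin_comp_mul_left g _ hk0, smul_eq_mul]
  congr 1
  push_cast
  congr 1
  ring

theorem int_sum_sq (S : Finset ℕ) (hS : ∀ k ∈ S, 1 ≤ k) (g : ℝ → ℂ) (hg : Measurable g) (B Θ : ℝ)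
    (hB : ∀ θ, ‖g θ‖ ≤ B) (hs : ∀ θ, Θ < θ → g θ = 0) :
    Integrable (fun t => ‖ZZ S t‖ ^ 2 * ‖Mel g t‖ ^ 2) ∧
    ∫ y in Set.Ioi (0 : ℝ), ‖∑ k ∈ S, g (k * y)‖ ^ 2
      = 1 / (2 * Real.pi) * ∫ t, ‖ZZ S t‖ ^ 2 * ‖Mel g t‖ ^ 2 := by
  have hfun : (fun t => ‖ZZ S t‖ ^ 2 * ‖Mel g t‖ ^ 2) =
      fun t => ‖Mel (fun y => ∑ k ∈ S, g (k * y)) t‖ ^ 2 := by
    funext t
    rw [mel_sum S hS g hg B Θ hB hs t, norm_mul, mul_pow]
  have hm : Measurable (fun y : ℝ => ∑ k ∈ S, g (k * y)) :=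
    Finset.measurable_sum S fun k _ => hg.comp (by fun_prop)
  have hb : ∀ y : ℝ, ‖∑ k ∈ S, g (k * y)‖ ≤ S.card * B := by
    intro y
    refine (norm_sum_le _ _).trans ?_
    have h3 : ∑ k ∈ S, ‖g ((k : ℝ) * y)‖ ≤ ∑ _k ∈ S, B := sum_le_sum fun k _ => hB (k * y)
    refine h3.trans ?_
    rw [sum_const, nsmul_eq_mul]
  have hz : ∀ y : ℝ, max Θ 0 < y → ∑ k ∈ S, g (k * y) = 0 := by
    intro y hy
    have hy0 : 0 < y := lt_of_le_of_lt (le_max_right _ _) hy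
    have hyT : Θ < y := lt_of_le_of_lt (le_max_left _ _) hy
    refine sum_eq_zero fun k hk => hs _ ?_
    have hk1 : (1 : ℝ) ≤ k := by exact_mod_cast hS k hk
    nlinarith
  obtain ⟨h1, h2⟩ := mel_planch (fun y => ∑ k ∈ S, g (k * y)) hm (S.card * B) (max Θ 0) hb hz
  rw [hfun]
  refine ⟨h1, ?_⟩
  rw [h2]
  have hpi : (2 * Real.pi) ≠ 0 := by positivity
  field_simp

end Pool.Agent.H76.EHB

end

section

/-!
# EHB Osc: an oscillatory integral

`I = ∫_a^b e(v θ) θ^{-1/2 - i t} dθ`, `0 < a ≤ b ≤ 1`.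
(i) trivially `|I| ≤ ∫_0^b θ^{-1/2} = 2 √b ≤ 2`.
(ii) `v ≠ 0`: integrate by parts, `e(vθ)/(2πi v)` is a primitive: `|I| ≤ (1/(2π|v|)) (2 a^{-1/2} + (1/2+|t|) ∫_a^b θ^{-3/2})
   ≤ (1/(2π|v|)) (2 + 2 (1/2 + |t|)) a^{-1/2} ≤ (1+|t|)/(|v| √a)`.
(iii) `v ≠ 0`: split at `θ = 1/|v|` (if it lies in `(a,b)`): `∫_a^{1/|v|} θ^{-1/2} ≤ 2/√|v|` and (ii) on `[1/|v|, b]`; if `1/|v| ≥ b`
   use (i) `≤ 2√b ≤ 2/√|v|`; if `1/|v| ≤ a` use (ii): `(1+|t|)/(|v|√a) ≤ (1+|t|)/√|v|`.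
`osc_sum`: the majorant `bb P v` is `2` for `|v| < 1`, `3/√|v|` for `1 ≤ |v| ≤ P`, `√P/|v|` for `|v| > P`; the points `n - a'` are spaced by one,
so the sum over `n ≤ N` is `≤ 2*2 + 2 ∑_{1 ≤ j ≤ P} 3/√j + 2 √P (1/P + log((P+N)/P)) ≤ 20 √P (1 + log N)` (each side of `a'` separately: the
`j`-th point on one side with `|v| ≥ 1` has `|v| ≥ j`).
-/

set_option autoImplicit false

namespace Pool.Agent.H76.EHB

open Finset MeasureTheory
open Pool.Agent.H91.PK (ee)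

private theorem osc_norm (t θ : ℝ) (h : 0 < θ) :
    ‖(θ : ℂ) ^ (-(1 / 2 : ℂ) - t * Complex.I)‖ = θ ^ (-(1 / 2) : ℝ) := by
  rw [Complex.norm_cpow_eq_rpow_re_of_pos h]
  congr 1
  simp

private theorem osc_ee_norm (x : ℝ) : ‖ee x‖ = 1 := by
  unfold Pool.Agent.H91.PK.ee
  rw [show (2 * Real.pi * x * Complex.I : ℂ) = ((2 * Real.pi * x : ℝ) : ℂ) * Complex.I by push_cast; ring]
  exact Complex.norm_exp_ofReal_mul_I _

private theorem osc_ee_deriv (v θ : ℝ) :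
    HasDerivAt (fun x : ℝ => ee (v * x)) (2 * Real.pi * v * Complex.I * ee (v * θ)) θ := by
  unfold Pool.Agent.H91.PK.ee
  have h1 : HasDerivAt (fun x : ℝ => (2 * Real.pi * ((v * x : ℝ) : ℂ) * Complex.I : ℂ))
      (2 * Real.pi * v * Complex.I) θ := by
    have h2 : HasDerivAt (fun x : ℝ => ((v * x : ℝ) : ℂ)) ((v : ℝ) : ℂ) θ := by
      have := ((hasDerivAt_id θ).const_mul v).ofReal_comp
      simpa using this
    have h3 := (h2.const_mul (2 * Real.pi : ℂ)).mul_const Complex.I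
    simpa using h3
  have h4 := h1.cexp
  rw [mul_comm (Complex.exp _)] at h4
  exact h4

private theorem osc_pow_deriv (s : ℂ) (θ : ℝ) (h : 0 < θ) :
    HasDerivAt (fun x : ℝ => (x : ℂ) ^ s) (s * (θ : ℂ) ^ (s - 1)) θ := by
  have h1 : HasDerivAt (fun z : ℂ => z ^ s) (s * (θ : ℂ) ^ (s - 1)) (θ : ℂ) := by
    have := (hasDerivAt_id (θ : ℂ)).cpow_const (c := s)
      (Complex.ofReal_mem_slitPlane.2 h)
    simpa using this
  exact h1.comp_ofReal

private theorem osc_cont (v t a b : ℝ) (ha : 0 < a) (hab : a ≤ b) :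
    ContinuousOn (fun θ : ℝ => ee (v * θ) * (θ : ℂ) ^ (-(1 / 2 : ℂ) - t * Complex.I))
      (Set.uIcc a b) := by
  intro θ hθ
  rw [Set.uIcc_of_le hab] at hθ
  have h0 : 0 < θ := lt_of_lt_of_le ha hθ.1
  exact ((osc_ee_deriv v θ).continuousAt.mul (osc_pow_deriv _ θ h0).continuousAt).continuousWithinAt

private theorem osc_triv (v t a b : ℝ) (ha : 0 < a) (hab : a ≤ b) :
    ‖∫ θ in a..b, ee (v * θ) * (θ : ℂ) ^ (-(1 / 2 : ℂ) - t * Complex.I)‖ ≤ 2 * Real.sqrt b := by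
  have hint : IntervalIntegrable (fun θ : ℝ => θ ^ (-(1 / 2) : ℝ)) volume a b :=
    intervalIntegral.intervalIntegrable_rpow' (by norm_num)
  have h1 : ‖∫ θ in a..b, ee (v * θ) * (θ : ℂ) ^ (-(1 / 2 : ℂ) - t * Complex.I)‖ ≤
      ∫ θ in a..b, θ ^ (-(1 / 2) : ℝ) := by
    apply intervalIntegral.norm_integral_le_of_norm_le hab _ hint
    refine Filter.Eventually.of_forall ?_
    intro θ hθ
    have h0 : 0 < θ := lt_of_lt_of_le ha hθ.1.le
    rw [norm_mul, osc_ee_norm, osc_norm t θ h0, one_mul]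
  rw [integral_rpow (Or.inl (by norm_num))] at h1
  have e1 : (-(1 / 2) + 1 : ℝ) = 1 / 2 := by norm_num
  rw [e1, ← Real.sqrt_eq_rpow, ← Real.sqrt_eq_rpow] at h1
  have h2 : 0 ≤ Real.sqrt a := Real.sqrt_nonneg a
  have h3 : (Real.sqrt b - Real.sqrt a) / (1 / 2) = 2 * Real.sqrt b - 2 * Real.sqrt a := by ring
  rw [h3] at h1
  linarith

theorem osc1 (v t a b : ℝ) (ha : 0 < a) (hab : a ≤ b) (hb : b ≤ 1) :
    ‖∫ θ in a..b, ee (v * θ) * (θ : ℂ) ^ (-(1 / 2 : ℂ) - t * Complex.I)‖ ≤ 2 := by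
  have h1 := osc_triv v t a b ha hab
  have h2 : Real.sqrt b ≤ 1 := by
    rw [show (1 : ℝ) = Real.sqrt 1 from Real.sqrt_one.symm]
    exact Real.sqrt_le_sqrt hb
  linarith

theorem osc2 (v t a b : ℝ) (ha : 0 < a) (hab : a ≤ b) (hb : b ≤ 1) (hv : v ≠ 0) :
    ‖∫ θ in a..b, ee (v * θ) * (θ : ℂ) ^ (-(1 / 2 : ℂ) - t * Complex.I)‖
      ≤ (1 + |t|) / (|v| * Real.sqrt a) := by
  set s : ℂ := -(1 / 2 : ℂ) - t * Complex.I with hs
  have hb0 : 0 < b := lt_of_lt_of_le ha hab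
  have hv0 : 0 < |v| := abs_pos.2 hv
  have hpi : 0 < Real.pi := Real.pi_pos
  set c : ℂ := (2 * Real.pi * v * Complex.I)⁻¹ with hc
  have hc0 : (2 * Real.pi * v * Complex.I : ℂ) ≠ 0 := by
    have : (v : ℂ) ≠ 0 := by exact_mod_cast hv
    have : (Real.pi : ℂ) ≠ 0 := by exact_mod_cast hpi.ne'
    simp [*, Complex.I_ne_zero]
  have hcn : ‖c‖ = 1 / (2 * Real.pi * |v|) := by
    rw [hc, norm_inv, norm_mul, norm_mul, norm_mul, Complex.norm_I, Complex.norm_real,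
      Complex.norm_real, Real.norm_eq_abs, Real.norm_eq_abs, abs_of_pos hpi]
    norm_num
  have hsn : ‖s‖ ≤ 1 / 2 + |t| := by
    rw [hs]
    refine (norm_sub_le _ _).trans ?_
    rw [norm_neg, norm_mul, Complex.norm_I, Complex.norm_real, Real.norm_eq_abs, mul_one]
    norm_num
  have hcont' : ContinuousOn (fun θ : ℝ => s * (θ : ℂ) ^ (s - 1)) (Set.uIcc a b) := by
    intro θ hθ
    rw [Set.uIcc_of_le hab] at hθ
    have h0 : 0 < θ := lt_of_lt_of_le ha hθ.1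
    exact (continuousAt_const.mul (osc_pow_deriv (s - 1) θ h0).continuousAt).continuousWithinAt
  have hconte : Continuous (fun θ : ℝ => ee (v * θ)) :=
    continuous_iff_continuousAt.2 fun θ => (osc_ee_deriv v θ).continuousAt
  have hibp := intervalIntegral.integral_mul_deriv_eq_deriv_mul
    (u := fun θ : ℝ => (θ : ℂ) ^ s) (v := fun θ : ℝ => c * ee (v * θ))
    (u' := fun θ : ℝ => s * (θ : ℂ) ^ (s - 1)) (v' := fun θ : ℝ => ee (v * θ)) (a := a) (b := b)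
    (by
      intro θ hθ
      rw [Set.uIcc_of_le hab] at hθ
      exact osc_pow_deriv s θ (lt_of_lt_of_le ha hθ.1))
    (by
      intro θ _
      have h1 := (osc_ee_deriv v θ).const_mul c
      have h2 : c * (2 * Real.pi * v * Complex.I * ee (v * θ)) = ee (v * θ) := by
        rw [← mul_assoc, hc, inv_mul_cancel₀ hc0, one_mul]
      rw [h2] at h1
      exact h1)
    hcont'.intervalIntegrable
    (hconte.intervalIntegrable _ _)
  have hcomm : ∫ θ in a..b, ee (v * θ) * (θ : ℂ) ^ s = ∫ θ in a..b, (θ : ℂ) ^ s * ee (v * θ) := by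
    apply intervalIntegral.integral_congr
    intro θ _
    exact mul_comm _ _
  rw [hcomm, hibp]
  have hint : IntervalIntegrable (fun θ : ℝ => ‖s‖ * ‖c‖ * θ ^ (-(3 / 2) : ℝ)) volume a b := by
    apply ContinuousOn.intervalIntegrable
    intro θ hθ
    rw [Set.uIcc_of_le hab] at hθ
    have h0 : θ ≠ 0 := (lt_of_lt_of_le ha hθ.1).ne'
    exact (continuousAt_const.mul (Real.continuousAt_rpow_const _ _ (Or.inl h0))).continuousWithinAt
  have h3 : ‖∫ θ in a..b, s * (θ : ℂ) ^ (s - 1) * (c * ee (v * θ))‖ ≤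
      ∫ θ in a..b, ‖s‖ * ‖c‖ * θ ^ (-(3 / 2) : ℝ) := by
    apply intervalIntegral.norm_integral_le_of_norm_le hab _ hint
    refine Filter.Eventually.of_forall ?_
    intro θ hθ
    have h0 : 0 < θ := lt_of_lt_of_le ha hθ.1.le
    rw [norm_mul, norm_mul, norm_mul, osc_ee_norm, Complex.norm_cpow_eq_rpow_re_of_pos h0]
    have e : (s - 1).re = -(3 / 2) := by
      rw [hs]
      simp
      norm_num
    rw [e]
    apply le_of_eq
    ring
  have h4 : ∫ θ in a..b, ‖s‖ * ‖c‖ * θ ^ (-(3 / 2) : ℝ) =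
      ‖s‖ * ‖c‖ * (2 * (a ^ (-(1 / 2) : ℝ) - b ^ (-(1 / 2) : ℝ))) := by
    rw [intervalIntegral.integral_const_mul, integral_rpow]
    · have e1 : (-(3 / 2) + 1 : ℝ) = -(1 / 2) := by norm_num
      rw [e1]
      ring
    · right
      refine ⟨by norm_num, ?_⟩
      rw [Set.uIcc_of_le hab]
      intro h
      exact absurd h.1 (not_le.2 ha)
  rw [h4] at h3
  have hA : a ^ (-(1 / 2) : ℝ) = 1 / Real.sqrt a := by
    rw [Real.rpow_neg ha.le, ← Real.sqrt_eq_rpow, one_div]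
  have hBA : b ^ (-(1 / 2) : ℝ) ≤ a ^ (-(1 / 2) : ℝ) :=
    Real.rpow_le_rpow_of_nonpos ha hab (by norm_num)
  have hB0 : 0 ≤ b ^ (-(1 / 2) : ℝ) := by positivity
  have h5 : ‖(b : ℂ) ^ s * (c * ee (v * b))‖ = b ^ (-(1 / 2) : ℝ) * ‖c‖ := by
    rw [norm_mul, norm_mul, osc_ee_norm, osc_norm t b hb0, mul_one]
  have h6 : ‖(a : ℂ) ^ s * (c * ee (v * a))‖ = a ^ (-(1 / 2) : ℝ) * ‖c‖ := by
    rw [norm_mul, norm_mul, osc_ee_norm, osc_norm t a ha, mul_one]
  set A := a ^ (-(1 / 2) : ℝ) with hAdef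
  set B := b ^ (-(1 / 2) : ℝ) with hBdef
  have h7 : ‖(b : ℂ) ^ s * (c * ee (v * b)) - (a : ℂ) ^ s * (c * ee (v * a)) -
      ∫ θ in a..b, s * (θ : ℂ) ^ (s - 1) * (c * ee (v * θ))‖ ≤
      B * ‖c‖ + A * ‖c‖ + ‖s‖ * ‖c‖ * (2 * (A - B)) := by
    refine (norm_sub_le _ _).trans ?_
    refine add_le_add ((norm_sub_le _ _).trans (le_of_eq ?_)) h3
    rw [h5, h6]
  refine h7.trans ?_
  have hc0' : 0 ≤ ‖c‖ := norm_nonneg c
  have ht0 : 0 ≤ |t| := abs_nonneg t
  have h8 : ‖s‖ * ‖c‖ * (2 * (A - B)) ≤ (1 / 2 + |t|) * ‖c‖ * (2 * (A - B)) := by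
    apply mul_le_mul_of_nonneg_right
    · exact mul_le_mul_of_nonneg_right hsn hc0'
    · linarith
  have h9 : B * ‖c‖ + A * ‖c‖ + (1 / 2 + |t|) * ‖c‖ * (2 * (A - B)) ≤
      2 * (1 + |t|) * A * ‖c‖ := by
    have : 0 ≤ |t| * B * ‖c‖ := by positivity
    nlinarith
  have hA0 : 0 < A := by rw [hAdef]; positivity
  calc B * ‖c‖ + A * ‖c‖ + ‖s‖ * ‖c‖ * (2 * (A - B)) ≤ 2 * (1 + |t|) * A * ‖c‖ := by linarith
    _ = (1 + |t|) * A / |v| * (1 / Real.pi) := by
        rw [hcn]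
        field_simp
    _ ≤ (1 + |t|) * A / |v| * 1 := by
        apply mul_le_mul_of_nonneg_left _ (by positivity)
        rw [div_le_one hpi]
        linarith [Real.pi_gt_three]
    _ = (1 + |t|) / (|v| * Real.sqrt a) := by
        rw [hA]
        have : Real.sqrt a ≠ 0 := (Real.sqrt_pos.2 ha).ne'
        field_simp

theorem osc3 (v t a b : ℝ) (ha : 0 < a) (hab : a ≤ b) (hb : b ≤ 1) (hv : v ≠ 0) :
    ‖∫ θ in a..b, ee (v * θ) * (θ : ℂ) ^ (-(1 / 2 : ℂ) - t * Complex.I)‖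
      ≤ 3 * (1 + |t|) / Real.sqrt |v| := by
  have hv0 : 0 < |v| := abs_pos.2 hv
  have hsv : 0 < Real.sqrt |v| := Real.sqrt_pos.2 hv0
  have ht0 : 0 ≤ |t| := abs_nonneg t
  have hsq : Real.sqrt |v| * Real.sqrt |v| = |v| := Real.mul_self_sqrt hv0.le
  have hc : Real.sqrt (1 / |v|) = 1 / Real.sqrt |v| := by
    rw [Real.sqrt_div zero_le_one, Real.sqrt_one]
  -- the bound coming from osc2 when the lower end is at least `1/|v|`
  have key : ∀ x : ℝ, 1 / |v| ≤ x → (1 + |t|) / (|v| * Real.sqrt x) ≤ (1 + |t|) / Real.sqrt |v| := by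
    intro x hx
    apply div_le_div_of_nonneg_left (by positivity) hsv
    have h1 : 1 / Real.sqrt |v| ≤ Real.sqrt x := by
      rw [← hc]; exact Real.sqrt_le_sqrt hx
    calc Real.sqrt |v| = |v| * (1 / Real.sqrt |v|) := by
          field_simp
          nlinarith [hsq]
      _ ≤ |v| * Real.sqrt x := mul_le_mul_of_nonneg_left h1 hv0.le
  by_cases h1 : b ≤ 1 / |v|
  · have h2 := osc_triv v t a b ha hab
    have h3 : Real.sqrt b ≤ 1 / Real.sqrt |v| := by
      rw [← hc]; exact Real.sqrt_le_sqrt h1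
    calc _ ≤ 2 * Real.sqrt b := h2
      _ ≤ 2 * (1 / Real.sqrt |v|) := by linarith
      _ = 2 / Real.sqrt |v| := by ring
      _ ≤ 3 * (1 + |t|) / Real.sqrt |v| := by
          apply div_le_div_of_nonneg_right _ hsv.le
          linarith
  · rw [not_le] at h1
    by_cases h2 : 1 / |v| ≤ a
    · have h3 := osc2 v t a b ha hab hb hv
      refine h3.trans ((key a h2).trans ?_)
      apply div_le_div_of_nonneg_right _ hsv.le
      linarith
    · rw [not_le] at h2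
      have hc0 : 0 < 1 / |v| := by positivity
      have h4 := osc_triv v t a (1 / |v|) ha h2.le
      have h5 := osc2 v t (1 / |v|) b hc0 h1.le hb hv
      have h6 := key (1 / |v|) le_rfl
      have h7 : ∫ θ in a..b, ee (v * θ) * (θ : ℂ) ^ (-(1 / 2 : ℂ) - t * Complex.I) =
          (∫ θ in a..(1 / |v|), ee (v * θ) * (θ : ℂ) ^ (-(1 / 2 : ℂ) - t * Complex.I)) +
          ∫ θ in (1 / |v|)..b, ee (v * θ) * (θ : ℂ) ^ (-(1 / 2 : ℂ) - t * Complex.I) := by
        rw [intervalIntegral.integral_add_adjacent_intervals]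
        · exact (osc_cont v t a (1 / |v|) ha h2.le).intervalIntegrable
        · exact (osc_cont v t (1 / |v|) b hc0 h1.le).intervalIntegrable
      rw [h7]
      refine (norm_add_le _ _).trans ?_
      rw [hc] at h4
      calc _ ≤ 2 * (1 / Real.sqrt |v|) + (1 + |t|) / Real.sqrt |v| := add_le_add h4 (h5.trans h6)
        _ = (2 + (1 + |t|)) / Real.sqrt |v| := by ring
        _ ≤ 3 * (1 + |t|) / Real.sqrt |v| := by
            apply div_le_div_of_nonneg_right _ hsv.le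
            linarith

end Pool.Agent.H76.EHB

end

section

/-!
# EHB Basic: elementary facts on `ee`, `FF`, `ks`

Everything follows from `LSa_ee_add`, `LSa_norm_ee`, `LSa_conj_ee`, `LSa_int_ee`, `LSa_parseval` of
`Pool/Agent/H91/PK/LSa.lean` (for `FF_parseval` take `c = 0`, `s = Icc 1 N`, `b n = f n`).
`sum_inv_ks`: the sum is `2 ∑_{k ≤ K} 1/k ≤ 2 (1 + log K)` (`harmonic_le_one_add_log`).
-/

set_option autoImplicit false

namespace Pool.Agent.H76.EHB

open Finset MeasureTheory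
open Pool.Agent.H91.PK (ee)

theorem continuous_ee : Continuous ee := by
  unfold ee
  fun_prop

theorem ee_int (j : ℤ) : ee j = 1 := by
  unfold ee
  rw [Complex.exp_eq_one_iff]
  refine ⟨j, ?_⟩
  push_cast
  ring

theorem ee_add_int (t : ℝ) (j : ℤ) : ee (t + j) = ee t := by
  rw [Pool.Agent.H91.PK.LSa_ee_add, ee_int, mul_one]

theorem FF_add_int (f : ℕ → ℝ) (N : ℕ) (θ : ℝ) (j : ℤ) : FF f N (θ + j) = FF f N θ := by
  unfold FF
  refine sum_congr rfl fun n _ => ?_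
  have h : (n : ℝ) * (θ + j) = n * θ + (((n : ℤ) * j : ℤ) : ℝ) := by
    push_cast
    ring
  rw [h, ee_add_int]

theorem FF_continuous (f : ℕ → ℝ) (N : ℕ) : Continuous (FF f N) := by
  unfold FF
  refine continuous_finsetSum _ fun n _ => ?_
  exact continuous_const.mul (continuous_ee.comp (continuous_const.mul continuous_id))

theorem norm_FF_le (f : ℕ → ℝ) (N : ℕ) (θ : ℝ) : ‖FF f N θ‖ ≤ ∑ n ∈ Icc 1 N, |f n| := by
  unfold FF
  refine (norm_sum_le _ _).trans (le_of_eq (sum_congr rfl fun n _ => ?_))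
  rw [norm_mul, Pool.Agent.H91.PK.LSa_norm_ee, mul_one, Complex.norm_real, Real.norm_eq_abs]

/-- Cauchy-Schwarz -/
theorem norm_FF_sq_le (f : ℕ → ℝ) (N : ℕ) (θ : ℝ) : ‖FF f N θ‖ ^ 2 ≤ N * S2 f N := by
  have h1 : ‖FF f N θ‖ ^ 2 ≤ (∑ n ∈ Icc 1 N, |f n|) ^ 2 :=
    pow_le_pow_left₀ (norm_nonneg _) (norm_FF_le f N θ) 2
  refine h1.trans ((sq_sum_le_card_mul_sum_sq).trans (le_of_eq ?_))
  unfold S2
  rw [Nat.card_Icc, Nat.add_sub_cancel]
  simp only [sq_abs]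

theorem FF_parseval (f : ℕ → ℝ) (N : ℕ) (x : ℝ) :
    ∫ t in x..(x + 1), ‖FF f N t‖ ^ 2 = S2 f N := by
  have h := Pool.Agent.H91.PK.LSa_parseval (Icc 1 N) (fun n => (f n : ℂ)) 0 x
  simp only [sub_zero, Complex.norm_real, Real.norm_eq_abs, sq_abs] at h
  exact h

theorem S2_nonneg (f : ℕ → ℝ) (N : ℕ) : 0 ≤ S2 f N := Finset.sum_nonneg fun _ _ => sq_nonneg _

theorem mem_ks {K : ℕ} {k : ℤ} : k ∈ ks K ↔ k ≠ 0 ∧ |k| ≤ K := by
  unfold ks
  rw [mem_erase, mem_Icc, abs_le]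

theorem card_ks (K : ℕ) : (ks K).card = 2 * K := by
  unfold ks
  rw [card_erase_of_mem (by rw [mem_Icc]; omega), Int.card_Icc]
  omega

private theorem basic_ks_succ (K : ℕ) :
    ks (K + 1) = insert ((K : ℤ) + 1) (insert (-((K : ℤ) + 1)) (ks K)) := by
  ext k
  rw [mem_insert, mem_insert, mem_ks, mem_ks]
  push_cast
  rw [abs_le, abs_le]
  omega

private theorem basic_harm (K : ℕ) : ∑ k ∈ ks K, 1 / |(k : ℝ)| = 2 * ((harmonic K : ℚ) : ℝ) := by
  induction K with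
  | zero =>
    have : ks 0 = ∅ := by
      rw [eq_empty_iff_forall_notMem]
      intro k hk
      rw [mem_ks, abs_le] at hk
      push_cast at hk
      omega
    rw [this, sum_empty, harmonic_zero, Rat.cast_zero, mul_zero]
  | succ K ih =>
    have h1 : (-((K : ℤ) + 1)) ∉ ks K := by
      rw [mem_ks, abs_le]
      omega
    have h2 : ((K : ℤ) + 1) ∉ insert (-((K : ℤ) + 1)) (ks K) := by
      rw [mem_insert, mem_ks, abs_le]
      omega
    rw [basic_ks_succ, sum_insert h2, sum_insert h1, ih, harmonic_succ]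
    have h3 : |(((K : ℤ) + 1 : ℤ) : ℝ)| = (K : ℝ) + 1 := by
      push_cast
      exact abs_of_nonneg (by positivity)
    have h4 : |((-((K : ℤ) + 1) : ℤ) : ℝ)| = (K : ℝ) + 1 := by
      rw [Int.cast_neg, abs_neg, h3]
    rw [h3, h4]
    push_cast
    ring

theorem sum_inv_ks (K : ℕ) (hK : 1 ≤ K) :
    ∑ k ∈ ks K, 1 / |(k : ℝ)| ≤ 2 * (1 + Real.log K) := by
  rw [basic_harm]
  have := harmonic_le_one_add_log K
  linarith

end Pool.Agent.H76.EHB

end

section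

/-!
# EHB Gft: Gaussian Fourier identities

Both are `fourier_gaussian_pi` / `fourierIntegral_gaussian` of Mathlib
(`∫ exp(-π b x^2) e(-x t) dx = b^{-1/2} exp(-π t^2/b)`), `ee(s) = exp(2 π i s)`:
`gft1`: `exp(-π (u/A)^2) = ∫ A |r| exp(-π (A r y)^2) e(u r y) dy` (A > 0, r ≠ 0), substitute `z = A r y`.
`gft2`: `exp(-π s^2) = ∫ exp(-π v^2) e(-s v) dv`.
-/

set_option autoImplicit false

namespace Pool.Agent.H76.EHB

open Finset MeasureTheory
open Pool.Agent.H91.PK (ee)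

theorem gauss_integrable (b : ℝ) (hb : b ≠ 0) :
    Integrable (fun y : ℝ => Real.exp (-Real.pi * (b * y) ^ 2)) := by
  have h : 0 < Real.pi * b ^ 2 := by positivity
  have := integrable_exp_neg_mul_sq h
  refine this.congr (Filter.Eventually.of_forall fun y => ?_)
  show Real.exp (-(Real.pi * b ^ 2) * y ^ 2) = Real.exp (-Real.pi * (b * y) ^ 2)
  congr 1
  ring

theorem gauss_integral (b : ℝ) (hb : b ≠ 0) :
    ∫ y : ℝ, Real.exp (-Real.pi * (b * y) ^ 2) = 1 / |b| := by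
  have h1 : (fun y : ℝ => Real.exp (-Real.pi * (b * y) ^ 2)) =
      fun y : ℝ => Real.exp (-(Real.pi * b ^ 2) * y ^ 2) := by
    funext y
    congr 1
    ring
  rw [h1, integral_gaussian]
  have h2 : Real.pi / (Real.pi * b ^ 2) = (1 / |b|) ^ 2 := by
    rw [div_pow, sq_abs, one_pow]
    field_simp
  rw [h2, Real.sqrt_sq (by positivity)]

theorem gft2 (s : ℝ) :
    ((Real.exp (-Real.pi * s ^ 2) : ℝ) : ℂ)
      = ∫ v : ℝ, ((Real.exp (-Real.pi * v ^ 2) : ℝ) : ℂ) * ee (-(s * v)) := by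
  have hpi : (Real.pi : ℂ) ≠ 0 := by exact_mod_cast Real.pi_ne_zero
  have h := fourierIntegral_gaussian (b := (Real.pi : ℂ)) (by
    rw [Complex.ofReal_re]; exact Real.pi_pos) (-(2 * Real.pi * s))
  have h1 : (fun v : ℝ => ((Real.exp (-Real.pi * v ^ 2) : ℝ) : ℂ) * ee (-(s * v))) =
      fun x : ℝ => Complex.exp (Complex.I * (-(2 * Real.pi * s)) * x) *
        Complex.exp (-(Real.pi : ℂ) * x ^ 2) := by
    funext v
    rw [mul_comm]
    unfold ee
    congr 1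
    · congr 1
      push_cast
      ring
    · push_cast
      rfl
  rw [h1, h, div_self hpi, Complex.one_cpow, one_mul, Complex.ofReal_exp]
  congr 1
  push_cast
  field_simp
  ring

theorem gft1 (A r u : ℝ) (hA : 0 < A) (hr : r ≠ 0) :
    ((wt A u : ℝ) : ℂ)
      = ∫ y : ℝ, ((A * |r| * Real.exp (-Real.pi * (A * r * y) ^ 2) : ℝ) : ℂ) * ee (u * r * y) := by
  have hAr : A * r ≠ 0 := mul_ne_zero hA.ne' hr
  have h := Measure.integral_comp_mul_left
    (fun v : ℝ => ((Real.exp (-Real.pi * v ^ 2) : ℝ) : ℂ) * ee (-(-(u / A) * v))) (A * r)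
  rw [← gft2 (-(u / A))] at h
  have h1 : (fun y : ℝ => ((A * |r| * Real.exp (-Real.pi * (A * r * y) ^ 2) : ℝ) : ℂ) *
      ee (u * r * y)) = fun y : ℝ => ((A * |r| : ℝ) : ℂ) *
      (((Real.exp (-Real.pi * (A * r * y) ^ 2) : ℝ) : ℂ) * ee (-(-(u / A) * (A * r * y)))) := by
    funext y
    have e1 : u * r * y = -(-(u / A) * (A * r * y)) := by
      field_simp
    rw [← e1]
    push_cast
    ring
  rw [h1, integral_const_mul, h, Complex.real_smul, ← mul_assoc, ← Complex.ofReal_mul]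
  have h2 : A * |r| * |(A * r)⁻¹| = 1 := by
    rw [abs_inv, abs_mul, abs_of_pos hA]
    have : |r| ≠ 0 := abs_ne_zero.mpr hr
    field_simp
  rw [h2, Complex.ofReal_one, one_mul]
  unfold wt
  congr 2
  ring

end Pool.Agent.H76.EHB

end
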