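import Pool.Agent.H94.EH.M18
import Pool.Agent.H94.EH.M19
import Pool.Agent.H94.EH.M36

/-! The parts of this file: H65.MS.Defs, H65.MS.CutA, H65.MS.CutD, H65.MS.CutB, H65.MS.CutC, H76.EHB.SmallB, H65.MS.Tri, H76.GB.PbCard. -/

section

/-!
# PROJECT MS (MP_a78e8f_nt): definitions

`ee t = exp(2 π i t)` (`Pool.Agent.H91.PK.ee`), `red d` = reduced residues in `[0, d)`
(`Pool.Agent.H92.EH.red`), `ram d m` = Ramanujan sum, `uu R q a n` = indicator of `n ≡ a mod q`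
without the frequencies of denominator `≤ R` (`Pool.Agent.H80.KF`), `err y q b`
(`Pool.Agent.H91.EHA.err`), `ME x q b` = maximum over `y ≤ x` of `|err y q b|` (`KF.Mxb`).

* `blk Y n`: the block `(jY, (j+1)Y]`, `j = (n-1)/Y`, which contains `n ≥ 1`;
* `RS R m = ∑_{d ≤ R} c_d(m)`;
* `fs R Y f n = (1/Y) ∑_{m ∈ blk Y n} f(m) RS R (m - n)`: the part of `f` with frequencies near the
  fractions of denominator `≤ R`, block by block;
* `gc R Y f = f - fs R Y f` (the cut function);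
* `mE x q A`: the maximum over the `a ∈ A` prime to `q` and over `y ≤ x` of `|err y q a|`.
-/

set_option autoImplicit false

namespace Pool.Agent.H65.MS

open Finset
open Pool.Agent.H91.EHA (err)
open Pool.Agent.H80.KF (ram uu ME)

/-- the block `(jY, (j+1)Y]` with `j = (n-1)/Y` -/
def blk (Y n : ℕ) : Finset ℕ := Ioc ((n - 1) / Y * Y) ((n - 1) / Y * Y + Y)

/-- `∑_{d ≤ R} c_d(m)` -/
noncomputable def RS (R : ℕ) (m : ℤ) : ℝ := ∑ d ∈ Icc 1 R, ram d m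

/-- the structured part -/
noncomputable def fs (R Y : ℕ) (f : ℕ → ℝ) (n : ℕ) : ℝ :=
  (1 / (Y : ℝ)) * ∑ m ∈ blk Y n, f m * RS R ((m : ℤ) - n)

/-- the cut function -/
noncomputable def gc (R Y : ℕ) (f : ℕ → ℝ) (n : ℕ) : ℝ := f n - fs R Y f n

/-- the maximum over `a ∈ A` prime to `q` of the largest error up to `x` (`0` if there is none) -/
noncomputable def mE (x q : ℕ) (A : Finset ℕ) : ℝ :=
  ⨆ a : {a : ℕ // a ∈ A ∧ Nat.Coprime a q}, ME x q ((a : ℕ) : ZMod q)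

end Pool.Agent.H65.MS

end

section

/-!
# MS CutA: blocks, `RS` as an exponential sum, geometric sums over Farey differences

* `blk_eq`: for `jY < n ≤ (j+1)Y` (`Y ≥ 1`): `(n-1)/Y = j` (`Nat.div_eq_of_lt_le`).
* `RS_eq`: for `d ≥ 1` the Ramanujan sum `ram d m` (real, definition in `KF.Defs`) is `∑_{c ∈ red d} ee(m c/d)`:
  compare `Pool.Agent.H92.EH.ram_eq` (with `Pool.Agent.H92.EH.e t = ee t`, both are `exp(2 π i t)`) with the definition of
  `KF.ram` (`Nat.sum_divisorsAntidiagonal'` turns the sum over pairs into the sum over divisors; the filter is an `if`).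
* `abs_ram_le'`: `|ram d m| ≤ #red d ≤ d`.  `abs_RS_le`: `∑_{d ≤ R} d ≤ R^2`.
* `abs_gc_le`: `|fs| ≤ (1/Y) ∑_{m ∈ blk} |f m| |RS| ≤ R^2`, `#blk = Y`.
* `geo`: for distinct fractions `c/d ≠ c'/d'`, `d, d' ≤ R`, the distance of `θ = c/d - c'/d'` to every integer is `≥ 1/R^2`
  (`farey_spacing`), so `|∑_{u < n ≤ v} ee(n θ)| ≤ 2/|ee θ - 1| = 1/|sin π θ| ≤ R^2/2 ≤ R^2` (geometric series; `|sin π θ| ≥ 2 ‖θ‖`).
* `geo2`: the same for `θ = q c/d`, `d ∤ q`, `c ∈ red d`: the distance to every integer is `≥ 1/d`.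
  (Both follow from `geo0`: if `δ ≤ |θ - k|` for all integers `k`, `0 < δ`, then the sum is at most `1/δ`.)
-/

set_option autoImplicit false

namespace Pool.Agent.H65.MS

open Finset
open Pool.Agent.H91.PK (ee)
open Pool.Agent.H92.EH (red)
open Pool.Agent.H80.KF (ram uu)

private theorem CutA_e_ee (t : ℝ) : Pool.Agent.H92.EH.e t = ee t := by
  unfold Pool.Agent.H92.EH.e ee
  congr 1
  push_cast
  ring

theorem blk_eq (Y j n : ℕ) (hY : 1 ≤ Y) (hn : n ∈ Ioc (j * Y) (j * Y + Y)) :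
    blk Y n = Ioc (j * Y) (j * Y + Y) := by
  rw [mem_Ioc] at hn
  have h1 : (n - 1) / Y = j := by
    apply Nat.div_eq_of_lt_le
    · omega
    · rw [add_mul, one_mul]
      omega
  unfold blk
  rw [h1]

theorem card_blk (Y n : ℕ) : (blk Y n).card = Y := by
  unfold blk
  rw [Nat.card_Ioc]
  omega

theorem ram_ee (d : ℕ) (hd : 1 ≤ d) (m : ℤ) :
    ((ram d m : ℝ) : ℂ) = ∑ c ∈ red d, ee ((m : ℝ) * ((c : ℝ) / d)) := by
  have h1 : ∑ c ∈ red d, ee ((m : ℝ) * ((c : ℝ) / d)) = Pool.Agent.H92.EH.ram d m := by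
    unfold Pool.Agent.H92.EH.ram
    refine Finset.sum_congr rfl fun c _ => ?_
    rw [CutA_e_ee]
  rw [h1, Pool.Agent.H92.EH.ram_eq d (by omega) m]
  rw [Nat.sum_divisorsAntidiagonal' (f := fun a b : ℕ =>
    ((ArithmeticFunction.moebius a : ℤ) : ℂ) * (if ((b : ℕ) : ℤ) ∣ m then (b : ℂ) else 0))]
  unfold ram
  rw [Finset.sum_filter]
  push_cast
  refine Finset.sum_congr rfl fun x _ => ?_
  split_ifs
  · push_cast
    ring
  · simp

theorem abs_ram_le' (d : ℕ) (hd : 1 ≤ d) (m : ℤ) : |ram d m| ≤ (d : ℝ) := by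
  have h1 : |ram d m| = ‖((ram d m : ℝ) : ℂ)‖ := by
    rw [Complex.norm_real, Real.norm_eq_abs]
  rw [h1, ram_ee d hd m]
  refine (norm_sum_le _ _).trans ?_
  simp only [Pool.Agent.H91.PK.LSa_norm_ee, sum_const, nsmul_eq_mul, mul_one]
  rw [Pool.Agent.H92.EH.card_red]
  exact_mod_cast Nat.totient_le d

theorem RS_eq (R : ℕ) (m : ℤ) :
    ((RS R m : ℝ) : ℂ) = ∑ d ∈ Icc 1 R, ∑ c ∈ red d, ee ((m : ℝ) * ((c : ℝ) / d)) := by
  unfold RS
  rw [Complex.ofReal_sum]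
  refine Finset.sum_congr rfl fun d hd => ?_
  rw [mem_Icc] at hd
  exact ram_ee d hd.1 m

theorem abs_RS_le (R : ℕ) (m : ℤ) : |RS R m| ≤ (R : ℝ) ^ 2 := by
  unfold RS
  refine (Finset.abs_sum_le_sum_abs _ _).trans ?_
  have h1 : ∀ d ∈ Icc 1 R, |ram d m| ≤ (R : ℝ) := by
    intro d hd
    rw [mem_Icc] at hd
    refine (abs_ram_le' d hd.1 m).trans ?_
    exact_mod_cast hd.2
  refine (Finset.sum_le_sum h1).trans ?_
  rw [Finset.sum_const, Nat.card_Icc, nsmul_eq_mul]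
  apply le_of_eq
  rw [Nat.add_sub_cancel]
  ring

theorem abs_gc_le (R Y : ℕ) (hY : 1 ≤ Y) (f : ℕ → ℝ) (hf : ∀ n, |f n| ≤ 1) (n : ℕ) :
    |gc R Y f n| ≤ 1 + (R : ℝ) ^ 2 := by
  have hY0 : (0 : ℝ) < Y := by exact_mod_cast hY
  have h1 : |fs R Y f n| ≤ (R : ℝ) ^ 2 := by
    unfold fs
    rw [abs_mul, abs_of_nonneg (by positivity : (0 : ℝ) ≤ 1 / (Y : ℝ))]
    have h2 : |∑ m ∈ blk Y n, f m * RS R ((m : ℤ) - n)| ≤ (Y : ℝ) * (R : ℝ) ^ 2 := by
      refine (Finset.abs_sum_le_sum_abs _ _).trans ?_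
      have h3 : ∀ m ∈ blk Y n, |f m * RS R ((m : ℤ) - n)| ≤ (R : ℝ) ^ 2 := by
        intro m _
        rw [abs_mul]
        calc |f m| * |RS R ((m : ℤ) - n)| ≤ 1 * (R : ℝ) ^ 2 :=
              mul_le_mul (hf m) (abs_RS_le R _) (abs_nonneg _) (by norm_num)
          _ = (R : ℝ) ^ 2 := one_mul _
      refine (Finset.sum_le_sum h3).trans ?_
      rw [Finset.sum_const, card_blk, nsmul_eq_mul]
    calc 1 / (Y : ℝ) * |∑ m ∈ blk Y n, f m * RS R ((m : ℤ) - n)|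
        ≤ 1 / (Y : ℝ) * ((Y : ℝ) * (R : ℝ) ^ 2) := mul_le_mul_of_nonneg_left h2 (by positivity)
      _ = (R : ℝ) ^ 2 := by field_simp
  unfold gc
  calc |f n - fs R Y f n| ≤ |f n| + |fs R Y f n| := abs_sub _ _
    _ ≤ 1 + (R : ℝ) ^ 2 := add_le_add (hf n) h1

private theorem CutA_ee_int (k : ℤ) : ee (k : ℝ) = 1 := by
  unfold ee
  rw [← Complex.exp_int_mul_two_pi_mul_I k]
  congr 1
  push_cast
  ring

private theorem CutA_ee_nat (n : ℕ) (θ : ℝ) : ee ((n : ℝ) * θ) = ee θ ^ n := by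
  induction n with
  | zero => simp [ee]
  | succ n ih =>
    rw [pow_succ, ← ih, ← Pool.Agent.H91.PK.LSa_ee_add]
    congr 1
    push_cast
    ring

private theorem CutA_sub_one (θ δ : ℝ) (h : ∀ k : ℤ, δ ≤ |θ - k|) : 4 * δ ≤ ‖ee θ - 1‖ := by
  obtain ⟨t, ht⟩ : ∃ t : ℝ, t = θ - round θ := ⟨_, rfl⟩
  have h1 : ee θ = ee t := by
    have : θ = t + ((round θ : ℤ) : ℝ) := by rw [ht]; ring
    rw [this, Pool.Agent.H91.PK.LSa_ee_add, CutA_ee_int, mul_one]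
  have h2 : |t| ≤ 1 / 2 := by rw [ht]; exact abs_sub_round θ
  have h3 : δ ≤ |t| := by rw [ht]; exact h (round θ)
  have h4 : ee t = Complex.exp (Complex.I * ((2 * Real.pi * t : ℝ) : ℂ)) := by
    unfold ee
    congr 1
    push_cast
    ring
  rw [h1, h4, Complex.norm_exp_I_mul_ofReal_sub_one]
  have h5 : 2 * Real.pi * t / 2 = Real.pi * t := by ring
  rw [h5, Real.norm_eq_abs, abs_mul, abs_of_pos (by norm_num : (0 : ℝ) < 2)]
  have hpi := Real.pi_pos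
  have h6 : |Real.sin (Real.pi * t)| = Real.sin (Real.pi * |t|) := by
    rcases le_total 0 t with h0 | h0
    · rw [abs_of_nonneg h0]
      apply abs_of_nonneg
      apply Real.sin_nonneg_of_nonneg_of_le_pi (by positivity)
      rw [abs_of_nonneg h0] at h2
      nlinarith
    · rw [abs_of_nonpos h0, mul_neg, Real.sin_neg]
      apply abs_of_nonpos
      apply Real.sin_nonpos_of_nonpos_of_neg_pi_le
      · nlinarith
      · rw [abs_of_nonpos h0] at h2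
        nlinarith
  rw [h6]
  have h7 : 2 / Real.pi * (Real.pi * |t|) ≤ Real.sin (Real.pi * |t|) := by
    apply Real.mul_le_sin (by positivity)
    nlinarith
  have h8 : 2 / Real.pi * (Real.pi * |t|) = 2 * |t| := by
    field_simp
  rw [h8] at h7
  linarith

theorem geo0 (θ δ : ℝ) (hδ : 0 < δ) (h : ∀ k : ℤ, δ ≤ |θ - k|) (u v : ℕ) :
    ‖∑ n ∈ Ioc u v, ee ((n : ℝ) * θ)‖ ≤ 1 / δ := by
  have h1 := CutA_sub_one θ δ h
  have h2 : 0 < ‖ee θ - 1‖ := by linarith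
  have hIoc : Ioc u v = Ico (u + 1) (v + 1) := by
    ext n
    rw [mem_Ioc, mem_Ico]
    omega
  have h3 : ∑ n ∈ Ioc u v, ee ((n : ℝ) * θ) =
      ee θ ^ (u + 1) * ∑ i ∈ range (v + 1 - (u + 1)), ee θ ^ i := by
    rw [hIoc, Finset.sum_Ico_eq_sum_range, Finset.mul_sum]
    refine Finset.sum_congr rfl fun i _ => ?_
    rw [CutA_ee_nat, pow_add]
  obtain ⟨n, hn⟩ : ∃ n, n = v + 1 - (u + 1) := ⟨_, rfl⟩
  rw [← hn] at h3
  have hnorm : ‖ee θ‖ = 1 := Pool.Agent.H91.PK.LSa_norm_ee θ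
  rw [h3, norm_mul, norm_pow, hnorm, one_pow, one_mul]
  have h4 : (∑ i ∈ range n, ee θ ^ i) * (ee θ - 1) = ee θ ^ n - 1 := geom_sum_mul _ _
  have h5 : ‖∑ i ∈ range n, ee θ ^ i‖ * ‖ee θ - 1‖ ≤ 2 := by
    rw [← norm_mul, h4]
    refine (norm_sub_le _ _).trans ?_
    rw [norm_pow, hnorm, one_pow, norm_one]
    norm_num
  have h6 : ‖∑ i ∈ range n, ee θ ^ i‖ * (4 * δ) ≤ 2 :=
    (mul_le_mul_of_nonneg_left h1 (norm_nonneg _)).trans h5
  rw [le_div_iff₀ hδ]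
  linarith

theorem geo (R d d' c c' : ℕ) (hd : d ∈ Icc 1 R) (hd' : d' ∈ Icc 1 R) (hc : c ∈ red d)
    (hc' : c' ∈ red d') (hne : ¬ (d = d' ∧ c = c')) (u v : ℕ) :
    ‖∑ n ∈ Ioc u v, ee ((n : ℝ) * ((c : ℝ) / d - (c' : ℝ) / d'))‖ ≤ (R : ℝ) ^ 2 := by
  rw [mem_Icc] at hd hd'
  have hR : (0 : ℝ) < R := by
    have : 0 < R := by omega
    exact_mod_cast this
  have h1 := geo0 ((c : ℝ) / d - (c' : ℝ) / d') (1 / (R : ℝ) ^ 2) (by positivity) ?_ u v
  · rw [one_div_one_div] at h1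
    exact h1
  · intro k
    refine le_trans ?_ (Pool.Agent.H92.EH.farey_spacing (by omega) (by omega) hc hc' hne k)
    have e1 : (0 : ℝ) < d := by exact_mod_cast hd.1
    have e2 : (0 : ℝ) < d' := by exact_mod_cast hd'.1
    have e3 : (d : ℝ) ≤ R := by exact_mod_cast hd.2
    have e4 : (d' : ℝ) ≤ R := by exact_mod_cast hd'.2
    apply one_div_le_one_div_of_le (by positivity)
    calc (d : ℝ) * d' ≤ R * R := mul_le_mul e3 e4 e2.le hR.le
      _ = (R : ℝ) ^ 2 := by ring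

theorem geo2 (q d c : ℕ) (hd : 1 ≤ d) (hc : c ∈ red d) (hq : ¬ d ∣ q) (u v : ℕ) :
    ‖∑ n ∈ Ioc u v, ee ((n : ℝ) * ((q : ℝ) * ((c : ℝ) / d)))‖ ≤ d := by
  have hd0 : (0 : ℝ) < d := by exact_mod_cast hd
  have h1 := geo0 ((q : ℝ) * ((c : ℝ) / d)) (1 / (d : ℝ)) (by positivity) ?_ u v
  · rw [one_div_one_div] at h1
    exact h1
  · intro k
    have h2 : (q : ℝ) * ((c : ℝ) / d) - k = (((q : ℤ) * c - k * d : ℤ) : ℝ) / d := by
      push_cast
      field_simp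
    rw [h2, abs_div, abs_of_pos hd0]
    apply div_le_div_of_nonneg_right _ hd0.le
    have h3 : (q : ℤ) * c - k * d ≠ 0 := by
      intro h0
      apply hq
      rw [Pool.Agent.H92.EH.mem_red] at hc
      have h4 : (d : ℤ) ∣ (q : ℤ) * c := ⟨k, by linarith⟩
      have h5 : d ∣ q * c := by exact_mod_cast h4
      exact (Nat.Coprime.dvd_of_dvd_mul_right hc.2.symm h5)
    have h6 : (1 : ℤ) ≤ |(q : ℤ) * c - k * d| := Int.one_le_abs h3
    exact_mod_cast h6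

end Pool.Agent.H65.MS

end

section

/-!
# MS CutD: the cut function in residue classes

Block `b = (jY, (j+1)Y]`, `q ≥ 1`.  For an integer `m` and `d ≤ R`,
`T_d(m) = ∑_{n ∈ b, n ≡ a (q)} ram d (m - n)`:
* if `d ∣ q`: `n ≡ a (d)`, so `ram d (m-n) = ram d (m-a)` (`ram d` is periodic mod `d`: definition of `KF.ram`, `d' ∣ d`), and the number of
  `n ∈ b` with `n ≡ a (q)` is `Y/q + θ`, `|θ| ≤ 1`: `T_d(m) = (Y/q) ram d (m-a) + O(d)` (`abs_ram_le'`);
* if `d ∤ q`: `T_d(m) = ∑_{c ∈ red d} ee(m c/d) ∑_{n ∈ b, n ≡ a (q)} ee(-n c/d)` and the `n` are `n0 + q k`, `k` in an interval, so the inner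
  sum is at most `d` by `geo2` (and complex conjugation): `|T_d(m)| ≤ d^2`.
So `∑_{n ∈ b, n ≡ a (q)} fs(n) = (1/Y) ∑_{m ∈ b} f(m) ∑_{d ≤ R} T_d(m) = (1/q) ∑_{m ∈ b} f(m) ∑_{d ∣ q, d ≤ R} ram d (m-a) + O(∑_{d ≤ R} d^2)`
and `∑_{d ≤ R} d^2 ≤ R^3`.  Subtract from `∑_{n ∈ b, n ≡ a (q)} f(n)`; the definition of `uu` gives the claim for one block; sum over `J` blocks
(`Icc 1 (J Y)` is the disjoint union of the blocks).
-/

set_option autoImplicit false

namespace Pool.Agent.H65.MS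

open Finset
open Pool.Agent.H91.PK (ee)
open Pool.Agent.H92.EH (red)
open Pool.Agent.H80.KF (ram uu)

/-- the elements of a residue class in an interval -/
private theorem CutD_cls {M : Type} [AddCommMonoid M] (A B q a : ℕ) (hq : 1 ≤ q) (g : ℕ → M) :
    ∑ n ∈ (Ioc A B).filter (fun n => n ≡ a [MOD q]), g n =
      ∑ k ∈ Ioc ((A + q - a % q) / q) ((B + q - a % q) / q), g (a % q + q * k - q) := by
  have hr : a % q < q := Nat.mod_lt _ hq
  set r := a % q with hrd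
  symm
  refine sum_nbij (fun k => r + q * k - q) ?_ ?_ ?_ fun _ _ => rfl
  · intro k hk
    rw [mem_Ioc] at hk
    obtain ⟨h1, h2⟩ := hk
    rw [Nat.div_lt_iff_lt_mul hq, mul_comm] at h1
    rw [Nat.le_div_iff_mul_le hq, mul_comm] at h2
    rw [mem_filter, mem_Ioc]
    have hk1 : 1 ≤ k := by
      rcases Nat.eq_zero_or_pos k with rfl | h
      · omega
      · exact h
    have h3 : q ≤ q * k := Nat.le_mul_of_pos_right q hk1
    refine ⟨⟨by omega, by omega⟩, ?_⟩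
    have h4 : r + q * k - q = r + q * (k - 1) := by
      rw [Nat.mul_sub, mul_one]
      omega
    rw [h4]
    show (r + q * (k - 1)) % q = a % q
    rw [Nat.add_mul_mod_self_left, hrd, Nat.mod_mod]
  · intro k hk k' hk' h
    rw [mem_coe, mem_Ioc] at hk hk'
    have hk1 : 1 ≤ k := (Nat.zero_le _).trans_lt hk.1
    have hk1' : 1 ≤ k' := (Nat.zero_le _).trans_lt hk'.1
    have h3 : q ≤ q * k := Nat.le_mul_of_pos_right q hk1
    have h3' : q ≤ q * k' := Nat.le_mul_of_pos_right q hk1'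
    have h4 : q * k = q * k' := by
      have h5 : r + q * k - q = r + q * k' - q := h
      omega
    exact Nat.eq_of_mul_eq_mul_left hq h4
  · intro n hn
    rw [mem_coe, mem_filter, mem_Ioc] at hn
    obtain ⟨⟨h1, h2⟩, h3⟩ := hn
    have h4 : n % q = r := h3
    have h5 := Nat.div_add_mod n q
    rw [h4] at h5
    refine ⟨n / q + 1, ?_, ?_⟩
    · rw [mem_coe, mem_Ioc, Nat.div_lt_iff_lt_mul hq, Nat.le_div_iff_mul_le hq]
      have h6 : (n / q + 1) * q = q * (n / q) + q := by ring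
      rw [h6]
      omega
    · show r + q * (n / q + 1) - q = n
      have h6 : q * (n / q + 1) = q * (n / q) + q := by ring
      rw [h6]
      omega

/-- `ram d` is periodic -/
private theorem CutD_per (d : ℕ) (x y : ℤ) (h : (d : ℤ) ∣ x - y) : ram d x = ram d y := by
  unfold ram
  refine sum_congr (filter_congr fun e he => ?_) fun _ _ => rfl
  have h1 : (e : ℤ) ∣ d := by exact_mod_cast (Nat.mem_divisors.1 he).1
  have h2 : (e : ℤ) ∣ x - y := h1.trans h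
  exact (dvd_iff_dvd_of_dvd_sub h2)

private theorem CutD_card_red (d : ℕ) : ((red d).card : ℝ) ≤ d := by
  have h : (red d).card ≤ d := by
    unfold Pool.Agent.H92.EH.red
    refine (card_filter_le _ _).trans ?_
    rw [card_range]
  exact_mod_cast h

private theorem CutD_ee_add (s t : ℝ) : ee (s + t) = ee s * ee t := by
  unfold ee
  rw [← Complex.exp_add]
  congr 1
  push_cast
  ring

private theorem CutD_norm_ee (t : ℝ) : ‖ee t‖ = 1 := by
  unfold ee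
  rw [Complex.norm_exp]
  have h : (2 * (Real.pi : ℂ) * t * Complex.I).re = 0 := by
    simp [Complex.mul_re, Complex.mul_im]
  rw [h, Real.exp_zero]

private theorem CutD_conj_ee (t : ℝ) : (starRingEnd ℂ) (ee t) = ee (-t) := by
  unfold ee
  rw [← Complex.exp_conj]
  congr 1
  simp [map_ofNat]

/-- the sum over one class, frequency not of denominator dividing `q` -/
private theorem CutD_osc (A B q a d c : ℕ) (hq : 1 ≤ q) (hd : 1 ≤ d) (hc : c ∈ red d)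
    (hdq : ¬ d ∣ q) :
    ‖∑ n ∈ (Ioc A B).filter (fun n => n ≡ a [MOD q]), ee (-((n : ℝ) * ((c : ℝ) / d)))‖ ≤ d := by
  rw [CutD_cls A B q a hq]
  set r := a % q with hr
  set θ : ℝ := (c : ℝ) / d with hθ
  have h1 : ∀ k ∈ Ioc ((A + q - r) / q) ((B + q - r) / q),
      ee (-(((r + q * k - q : ℕ) : ℝ) * θ)) =
        ee (-(((r : ℝ) - q) * θ)) * (starRingEnd ℂ) (ee ((k : ℝ) * ((q : ℝ) * θ))) := by
    intro k hk
    rw [mem_Ioc] at hk
    have hk1 : 1 ≤ k := (Nat.zero_le _).trans_lt hk.1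
    have h3 : q ≤ q * k := Nat.le_mul_of_pos_right q hk1
    have h2 : ((r + q * k - q : ℕ) : ℝ) = (r : ℝ) + q * k - q := by
      rw [Nat.cast_sub (by omega)]
      push_cast
      ring
    rw [CutD_conj_ee, ← CutD_ee_add, h2]
    congr 1
    ring
  rw [sum_congr rfl h1, ← mul_sum, norm_mul, CutD_norm_ee, one_mul, ← map_sum,
    RCLike.norm_conj]
  exact geo2 q d c hd hc hdq _ _

/-- the number of elements of a class in an interval -/
private theorem CutD_count (A Y q a : ℕ) (hq : 1 ≤ q) :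
    |(((Ioc A (A + Y)).filter (fun n => n ≡ a [MOD q])).card : ℝ) - (Y : ℝ) / q| ≤ 1 := by
  have hr : a % q < q := Nat.mod_lt _ hq
  have h1 : (((Ioc A (A + Y)).filter (fun n => n ≡ a [MOD q])).card : ℝ) =
      (((A + Y + q - a % q) / q - (A + q - a % q) / q : ℕ) : ℝ) := by
    have h2 := CutD_cls (M := ℕ) A (A + Y) q a hq (fun _ => 1)
    rw [sum_const, sum_const, smul_eq_mul, smul_eq_mul, mul_one, mul_one, Nat.card_Ioc] at h2
    rw [h2]
  rw [h1]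
  set X := A + q - a % q with hX
  have h3 : A + Y + q - a % q = X + Y := by omega
  rw [h3]
  have hle : X / q ≤ (X + Y) / q := Nat.div_le_div_right (Nat.le_add_right _ _)
  rw [Nat.cast_sub hle]
  have hq0 : (0 : ℝ) < q := by exact_mod_cast hq
  have e1 : (q : ℝ) * ((X / q : ℕ) : ℝ) ≤ X := by exact_mod_cast Nat.mul_div_le X q
  have e2 : (X : ℝ) < q * (((X / q : ℕ) : ℝ) + 1) := by
    exact_mod_cast Nat.lt_mul_div_succ X hq
  have e3 : (q : ℝ) * (((X + Y) / q : ℕ) : ℝ) ≤ X + Y := by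
    exact_mod_cast Nat.mul_div_le (X + Y) q
  have e4 : (X : ℝ) + Y < q * ((((X + Y) / q : ℕ) : ℝ) + 1) := by
    exact_mod_cast Nat.lt_mul_div_succ (X + Y) hq
  have e5 : (Y : ℝ) = q * ((Y : ℝ) / q) := by field_simp
  rw [abs_le]
  constructor
  · have h6 : (q : ℝ) * (-1) ≤ q * ((((X + Y) / q : ℕ) : ℝ) - ((X / q : ℕ) : ℝ) - (Y : ℝ) / q) := by
      have h7 : (q : ℝ) * ((((X + Y) / q : ℕ) : ℝ) - ((X / q : ℕ) : ℝ) - (Y : ℝ) / q) =
          q * (((X + Y) / q : ℕ) : ℝ) - q * ((X / q : ℕ) : ℝ) - q * ((Y : ℝ) / q) := by ring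
      rw [h7, ← e5]
      linarith
    exact le_of_mul_le_mul_left h6 hq0
  · have h6 : (q : ℝ) * ((((X + Y) / q : ℕ) : ℝ) - ((X / q : ℕ) : ℝ) - (Y : ℝ) / q) ≤ q * 1 := by
      have h7 : (q : ℝ) * ((((X + Y) / q : ℕ) : ℝ) - ((X / q : ℕ) : ℝ) - (Y : ℝ) / q) =
          q * (((X + Y) / q : ℕ) : ℝ) - q * ((X / q : ℕ) : ℝ) - q * ((Y : ℝ) / q) := by ring
      rw [h7, ← e5]
      linarith
    exact le_of_mul_le_mul_left h6 hq0

theorem ram_cls (Y j q a d : ℕ) (hq : 1 ≤ q) (hd : 1 ≤ d) (m : ℤ) :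
    |∑ n ∈ (Ioc (j * Y) (j * Y + Y)).filter (fun n => n ≡ a [MOD q]), ram d (m - n)
      - (if d ∣ q then (Y : ℝ) / q * ram d (m - a) else 0)| ≤ (d : ℝ) ^ 2 := by
  have hd1 : (1 : ℝ) ≤ d := by exact_mod_cast hd
  by_cases hdq : d ∣ q
  · rw [if_pos hdq]
    have h1 : ∀ n ∈ (Ioc (j * Y) (j * Y + Y)).filter (fun n => n ≡ a [MOD q]),
        ram d (m - n) = ram d (m - a) := by
      intro n hn
      have h2 : n ≡ a [MOD q] := (mem_filter.1 hn).2
      have h3 : n ≡ a [MOD d] := h2.of_dvd hdq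
      apply CutD_per
      have h4 : (m - (n : ℤ)) - (m - a) = (a : ℤ) - n := by ring
      rw [h4]
      exact (Nat.modEq_iff_dvd.1 h3)
    rw [sum_congr rfl h1, sum_const, nsmul_eq_mul, ← sub_mul, abs_mul]
    calc _ ≤ 1 * (d : ℝ) := mul_le_mul (CutD_count _ _ _ _ hq) (abs_ram_le' d hd _)
          (abs_nonneg _) zero_le_one
      _ ≤ (d : ℝ) ^ 2 := by nlinarith
  · rw [if_neg hdq, sub_zero]
    have h1 : |∑ n ∈ (Ioc (j * Y) (j * Y + Y)).filter (fun n => n ≡ a [MOD q]), ram d (m - n)| =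
        ‖∑ n ∈ (Ioc (j * Y) (j * Y + Y)).filter (fun n => n ≡ a [MOD q]),
          ((ram d (m - n) : ℝ) : ℂ)‖ := by
      rw [← Complex.ofReal_sum, Complex.norm_real, Real.norm_eq_abs]
    have h2 : ∑ n ∈ (Ioc (j * Y) (j * Y + Y)).filter (fun n => n ≡ a [MOD q]),
          ((ram d (m - n) : ℝ) : ℂ) = ∑ c ∈ red d, ee ((m : ℝ) * ((c : ℝ) / d)) *
          ∑ n ∈ (Ioc (j * Y) (j * Y + Y)).filter (fun n => n ≡ a [MOD q]),
            ee (-((n : ℝ) * ((c : ℝ) / d))) := by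
      simp_rw [mul_sum]
      rw [sum_comm]
      refine sum_congr rfl fun n _ => ?_
      rw [ram_ee d hd]
      refine sum_congr rfl fun c _ => ?_
      rw [← CutD_ee_add]
      congr 1
      push_cast
      ring
    rw [h1, h2]
    refine (norm_sum_le _ _).trans ?_
    calc ∑ c ∈ red d, ‖ee ((m : ℝ) * ((c : ℝ) / d)) *
          ∑ n ∈ (Ioc (j * Y) (j * Y + Y)).filter (fun n => n ≡ a [MOD q]),
            ee (-((n : ℝ) * ((c : ℝ) / d)))‖ ≤ ∑ _c ∈ red d, (d : ℝ) := by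
          refine sum_le_sum fun c hc => ?_
          rw [norm_mul, CutD_norm_ee, one_mul]
          exact CutD_osc _ _ q a d c hq hd hc hdq
      _ = (red d).card * (d : ℝ) := by rw [sum_const, nsmul_eq_mul]
      _ ≤ (d : ℝ) ^ 2 := by
          rw [pow_two]
          exact mul_le_mul_of_nonneg_right (CutD_card_red d) (Nat.cast_nonneg _)

theorem cls_blk (R Y j q a : ℕ) (hY : 1 ≤ Y) (hq : 1 ≤ q) (f : ℕ → ℝ) (hf : ∀ n, |f n| ≤ 1) :
    |∑ n ∈ (Ioc (j * Y) (j * Y + Y)).filter (fun n => n ≡ a [MOD q]), gc R Y f n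
      - ∑ n ∈ Ioc (j * Y) (j * Y + Y), f n * uu R q a n| ≤ (R : ℝ) ^ 3 := by
  classical
  set b := Ioc (j * Y) (j * Y + Y) with hb
  set c := b.filter (fun n => n ≡ a [MOD q]) with hc
  have hY0 : (0 : ℝ) < Y := by exact_mod_cast hY
  have hq0 : (0 : ℝ) < q := by exact_mod_cast hq
  have hbc : (b.card : ℝ) = Y := by
    rw [hb, Nat.card_Ioc]
    congr 1
    omega
  -- the sum of the structured part
  have h1 : ∑ n ∈ c, fs R Y f n =
      (1 / (Y : ℝ)) * ∑ m ∈ b, f m * ∑ d ∈ Icc 1 R, ∑ n ∈ c, ram d ((m : ℤ) - n) := by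
    have h2 : ∀ n ∈ c, fs R Y f n = (1 / (Y : ℝ)) * ∑ m ∈ b, f m * RS R ((m : ℤ) - n) := by
      intro n hn
      unfold fs
      rw [blk_eq Y j n hY (mem_filter.1 hn).1]
    rw [sum_congr rfl h2, ← mul_sum, sum_comm]
    congr 1
    refine sum_congr rfl fun m _ => ?_
    rw [← mul_sum, sum_comm]
    rfl
  have h2 : ∑ m ∈ b, f m * uu R q a m = ∑ n ∈ c, f n -
      (1 / (Y : ℝ)) * ∑ m ∈ b, f m * ∑ d ∈ Icc 1 R,
        (if d ∣ q then (Y : ℝ) / q * ram d ((m : ℤ) - a) else 0) := by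
    have h3 : ∀ m ∈ b, f m * uu R q a m = (if m ≡ a [MOD q] then f m else 0) -
        (1 / (Y : ℝ)) * (f m * ∑ d ∈ Icc 1 R,
          (if d ∣ q then (Y : ℝ) / q * ram d ((m : ℤ) - a) else 0)) := by
      intro m _
      unfold uu
      have h4 : ((q : ℤ) ∣ (m : ℤ) - a) ↔ m ≡ a [MOD q] := by
        rw [Nat.ModEq.comm, Nat.modEq_iff_dvd]
      have h5 : ∑ d ∈ Icc 1 R, (if d ∣ q then (Y : ℝ) / q * ram d ((m : ℤ) - a) else 0) =
          (Y : ℝ) / q * ∑ r ∈ q.divisors.filter (fun r => r ≤ R), ram r ((m : ℤ) - a) := by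
        rw [← sum_filter, mul_sum]
        refine sum_congr ?_ fun _ _ => rfl
        ext d
        rw [mem_filter, mem_filter, mem_Icc, Nat.mem_divisors]
        constructor
        · rintro ⟨⟨_, k2⟩, k3⟩
          exact ⟨⟨k3, by omega⟩, k2⟩
        · rintro ⟨⟨k1, _⟩, k3⟩
          exact ⟨⟨Nat.pos_of_dvd_of_pos k1 hq, k3⟩, k1⟩
      rw [h5]
      by_cases h6 : m ≡ a [MOD q]
      · rw [if_pos h6, if_pos (h4.2 h6)]
        field_simp
      · rw [if_neg h6, if_neg (fun h => h6 (h4.1 h))]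
        field_simp
        ring
    rw [sum_congr rfl h3, sum_sub_distrib, ← mul_sum, hc, sum_filter]
  have h3 : ∑ n ∈ c, gc R Y f n = ∑ n ∈ c, f n - ∑ n ∈ c, fs R Y f n := by
    unfold gc
    rw [sum_sub_distrib]
  have h4 : ∑ n ∈ c, gc R Y f n - ∑ m ∈ b, f m * uu R q a m =
      -((1 / (Y : ℝ)) * ∑ m ∈ b, f m * ∑ d ∈ Icc 1 R, (∑ n ∈ c, ram d ((m : ℤ) - n) -
        (if d ∣ q then (Y : ℝ) / q * ram d ((m : ℤ) - a) else 0))) := by
    rw [h3, h1, h2]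
    simp_rw [sum_sub_distrib, mul_sub]
    rw [sum_sub_distrib]
    ring
  rw [h4, abs_neg, abs_mul, abs_of_pos (by positivity : (0 : ℝ) < 1 / (Y : ℝ))]
  have h5 : |∑ m ∈ b, f m * ∑ d ∈ Icc 1 R, (∑ n ∈ c, ram d ((m : ℤ) - n) -
        (if d ∣ q then (Y : ℝ) / q * ram d ((m : ℤ) - a) else 0))| ≤ Y * (R : ℝ) ^ 3 := by
    refine (abs_sum_le_sum_abs _ _).trans ?_
    calc ∑ m ∈ b, |f m * ∑ d ∈ Icc 1 R, (∑ n ∈ c, ram d ((m : ℤ) - n) -
        (if d ∣ q then (Y : ℝ) / q * ram d ((m : ℤ) - a) else 0))| ≤ ∑ _m ∈ b, (R : ℝ) ^ 3 := by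
          refine sum_le_sum fun m _ => ?_
          rw [abs_mul]
          have h6 : |∑ d ∈ Icc 1 R, (∑ n ∈ c, ram d ((m : ℤ) - n) -
              (if d ∣ q then (Y : ℝ) / q * ram d ((m : ℤ) - a) else 0))| ≤ (R : ℝ) ^ 3 := by
            refine (abs_sum_le_sum_abs _ _).trans ?_
            calc ∑ d ∈ Icc 1 R, |∑ n ∈ c, ram d ((m : ℤ) - n) -
                (if d ∣ q then (Y : ℝ) / q * ram d ((m : ℤ) - a) else 0)|
                ≤ ∑ _d ∈ Icc 1 R, (R : ℝ) ^ 2 := by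
                  refine sum_le_sum fun d hd => ?_
                  rw [mem_Icc] at hd
                  refine (ram_cls Y j q a d hq hd.1 m).trans ?_
                  have h7 : (d : ℝ) ≤ R := by exact_mod_cast hd.2
                  exact pow_le_pow_left₀ (Nat.cast_nonneg _) h7 2
              _ = (R : ℝ) ^ 3 := by
                  rw [sum_const, Nat.card_Icc, nsmul_eq_mul]
                  have h8 : R + 1 - 1 = R := by omega
                  rw [h8]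
                  ring
          calc |f m| * _ ≤ 1 * (R : ℝ) ^ 3 := mul_le_mul (hf m) h6 (abs_nonneg _) zero_le_one
            _ = (R : ℝ) ^ 3 := one_mul _
      _ = Y * (R : ℝ) ^ 3 := by rw [sum_const, nsmul_eq_mul, hbc]
  calc 1 / (Y : ℝ) * _ ≤ 1 / (Y : ℝ) * (Y * (R : ℝ) ^ 3) :=
        mul_le_mul_of_nonneg_left h5 (by positivity)
    _ = (R : ℝ) ^ 3 := by field_simp

theorem cls_sum (R Y J q a : ℕ) (hY : 1 ≤ Y) (hq : 1 ≤ q) (f : ℕ → ℝ) (hf : ∀ n, |f n| ≤ 1) :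
    |∑ n ∈ (Icc 1 (J * Y)).filter (fun n => n ≡ a [MOD q]), gc R Y f n
      - ∑ n ∈ Icc 1 (J * Y), f n * uu R q a n| ≤ J * (R : ℝ) ^ 3 := by
  induction J with
  | zero => simp
  | succ J ih =>
    have h1 : (J + 1) * Y = J * Y + Y := by ring
    have h2 : Icc 1 (J * Y + Y) = Icc 1 (J * Y) ∪ Ioc (J * Y) (J * Y + Y) := by
      ext n
      rw [mem_union, mem_Icc, mem_Icc, mem_Ioc]
      omega
    have h3 : Disjoint (Icc 1 (J * Y)) (Ioc (J * Y) (J * Y + Y)) := by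
      rw [disjoint_left]
      intro n h4 h5
      rw [mem_Icc] at h4
      rw [mem_Ioc] at h5
      omega
    rw [h1, h2, filter_union, sum_union (disjoint_filter_filter h3), sum_union h3]
    have h4 := cls_blk R Y J q a hY hq f hf
    have h5 : ∀ x y z w : ℝ, x + y - (z + w) = (x - z) + (y - w) := fun x y z w => by ring
    rw [h5]
    refine (abs_add_le _ _).trans ?_
    push_cast
    linarith

end Pool.Agent.H65.MS

end

section

/-!
# MS CutB: the cut function is orthogonal to the small frequencies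

Let `|f| ≤ 1`, `d ≤ R`, `c ∈ red d`, `e_{c/d}(n) = ee(n (c/d))`.
* `blk_sum`: on a block `b = (jY, (j+1)Y]`, by `blk_eq` and `RS_eq`,
  `∑_{n ∈ b} fs(n) ee(n c/d) = (1/Y) ∑_{m ∈ b} f(m) ∑_{d' ≤ R} ∑_{c' ∈ red d'} ee(m c'/d') ∑_{n ∈ b} ee(n (c/d - c'/d'))`.
  The pair `(d', c') = (d, c)` gives `(1/Y) ∑ f(m) ee(m c/d) Y`, which cancels `∑_{n ∈ b} f(n) ee(n c/d)`; the other at most
  `∑_{d' ≤ R} φ(d') ≤ R^2` pairs give at most `(1/Y) Y R^2 R^2 = R^4` (`geo`).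
* `par_sum`: `u ≤ J Y`: the `j < u/Y ≤ J` full blocks cost `R^4` each, the last incomplete block at most
  `Y (1 + R^2)` (`abs_gc_le`).
-/

set_option autoImplicit false

namespace Pool.Agent.H65.MS

open Finset
open Pool.Agent.H91.PK (ee)
open Pool.Agent.H92.EH (red)

private def CutB_Fr (R : ℕ) : Finset (Σ _ : ℕ, ℕ) := (Icc 1 R).sigma red

private theorem CutB_card (R : ℕ) : ((CutB_Fr R).card : ℝ) ≤ (R : ℝ) ^ 2 := by
  unfold CutB_Fr
  rw [Finset.card_sigma]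
  push_cast
  calc ∑ d ∈ Icc 1 R, ((red d).card : ℝ) ≤ ∑ d ∈ Icc 1 R, (R : ℝ) := by
        apply Finset.sum_le_sum
        intro d hd
        rw [Finset.mem_Icc] at hd
        have h1 : (red d).card ≤ d := by
          unfold red
          exact (Finset.card_filter_le _ _).trans (by simp)
        exact_mod_cast h1.trans hd.2
    _ = (R : ℝ) ^ 2 := by
        rw [Finset.sum_const, Nat.card_Icc, nsmul_eq_mul]
        simp [sq]

/-- the value of a fraction -/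
private noncomputable def CutB_v (α : Σ _ : ℕ, ℕ) : ℝ := (α.2 : ℝ) / α.1

private theorem CutB_RS (R : ℕ) (m : ℤ) :
    ((RS R m : ℝ) : ℂ) = ∑ α ∈ CutB_Fr R, ee ((m : ℝ) * CutB_v α) := by
  rw [RS_eq]
  unfold CutB_Fr
  rw [Finset.sum_sigma]
  rfl

private theorem CutB_fs (R Y j : ℕ) (hY : 1 ≤ Y) (f : ℕ → ℝ) (θ : ℝ) :
    ∑ n ∈ Ioc (j * Y) (j * Y + Y), ((fs R Y f n : ℝ) : ℂ) * ee ((n : ℝ) * θ) =
      (1 / (Y : ℂ)) * ∑ α ∈ CutB_Fr R,
        (∑ m ∈ Ioc (j * Y) (j * Y + Y), (f m : ℂ) * ee ((m : ℝ) * CutB_v α)) *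
          ∑ n ∈ Ioc (j * Y) (j * Y + Y), ee ((n : ℝ) * (θ - CutB_v α)) := by
  have h1 : ∀ n ∈ Ioc (j * Y) (j * Y + Y), ((fs R Y f n : ℝ) : ℂ) * ee ((n : ℝ) * θ) =
      (1 / (Y : ℂ)) * ∑ α ∈ CutB_Fr R, ∑ m ∈ Ioc (j * Y) (j * Y + Y),
        (f m : ℂ) * ee ((m : ℝ) * CutB_v α) * ee ((n : ℝ) * (θ - CutB_v α)) := by
    intro n hn
    unfold fs
    rw [blk_eq Y j n hY hn]
    push_cast
    rw [mul_assoc, Finset.sum_mul, Finset.sum_comm]
    congr 1
    refine Finset.sum_congr rfl fun m _ => ?_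
    rw [CutB_RS, Finset.mul_sum, Finset.sum_mul]
    refine Finset.sum_congr rfl fun α _ => ?_
    rw [mul_assoc, mul_assoc, ← Pool.Agent.H91.PK.LSa_ee_add, ← Pool.Agent.H91.PK.LSa_ee_add]
    congr 2
    push_cast
    ring
  rw [Finset.sum_congr rfl h1, ← Finset.mul_sum]
  congr 1
  rw [Finset.sum_comm]
  refine Finset.sum_congr rfl fun α _ => ?_
  rw [Finset.sum_mul, Finset.sum_comm]
  refine Finset.sum_congr rfl fun m _ => ?_
  rw [Finset.mul_sum]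

private theorem CutB_ee_zero : ee 0 = 1 := by
  unfold ee
  simp

theorem blk_sum (R Y j : ℕ) (hY : 1 ≤ Y) (f : ℕ → ℝ) (hf : ∀ n, |f n| ≤ 1) (d c : ℕ)
    (hd : d ∈ Icc 1 R) (hc : c ∈ red d) :
    ‖∑ n ∈ Ioc (j * Y) (j * Y + Y), (gc R Y f n : ℂ) * ee ((n : ℝ) * ((c : ℝ) / d))‖
      ≤ (R : ℝ) ^ 4 := by
  have hY0 : (Y : ℂ) ≠ 0 := by
    have : Y ≠ 0 := by omega
    exact_mod_cast this
  have hYr : (0 : ℝ) < Y := by exact_mod_cast hY
  obtain ⟨b, hb⟩ : ∃ b : Finset ℕ, b = Ioc (j * Y) (j * Y + Y) := ⟨_, rfl⟩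
  obtain ⟨G, hG⟩ : ∃ G : (Σ _ : ℕ, ℕ) → ℂ, ∀ α, G α = ∑ m ∈ b, (f m : ℂ) * ee ((m : ℝ) * CutB_v α) :=
    ⟨_, fun _ => rfl⟩
  obtain ⟨S, hS⟩ : ∃ S : (Σ _ : ℕ, ℕ) → ℂ, ∀ α, S α =
      ∑ n ∈ b, ee ((n : ℝ) * ((c : ℝ) / d - CutB_v α)) := ⟨_, fun _ => rfl⟩
  have h1 := CutB_fs R Y j hY f ((c : ℝ) / d)
  rw [← hb] at h1 ⊢
  simp only [← hG, ← hS] at h1
  have hα0 : (⟨d, c⟩ : Σ _ : ℕ, ℕ) ∈ CutB_Fr R := by
    unfold CutB_Fr
    rw [Finset.mem_sigma]
    exact ⟨hd, hc⟩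
  have hcardb : b.card = Y := by rw [hb, Nat.card_Ioc]; omega
  have hS0 : S ⟨d, c⟩ = Y := by
    rw [hS]
    have : ∀ n ∈ b, ee ((n : ℝ) * ((c : ℝ) / d - CutB_v ⟨d, c⟩)) = 1 := by
      intro n _
      unfold CutB_v
      simp only [sub_self, mul_zero]
      exact CutB_ee_zero
    rw [Finset.sum_congr rfl this, Finset.sum_const, hcardb, nsmul_eq_mul, mul_one]
  have hsum : ∑ n ∈ b, (gc R Y f n : ℂ) * ee ((n : ℝ) * ((c : ℝ) / d)) =
      -((1 / (Y : ℂ)) * ∑ α ∈ (CutB_Fr R).erase ⟨d, c⟩, G α * S α) := by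
    have e1 : ∀ n ∈ b, (gc R Y f n : ℂ) * ee ((n : ℝ) * ((c : ℝ) / d)) =
        (f n : ℂ) * ee ((n : ℝ) * ((c : ℝ) / d)) - ((fs R Y f n : ℝ) : ℂ) * ee ((n : ℝ) * ((c : ℝ) / d)) := by
      intro n _
      unfold gc
      push_cast
      ring
    rw [Finset.sum_congr rfl e1, Finset.sum_sub_distrib, h1, ← Finset.add_sum_erase _ _ hα0, hS0]
    have e2 : G ⟨d, c⟩ = ∑ n ∈ b, (f n : ℂ) * ee ((n : ℝ) * ((c : ℝ) / d)) := hG _
    rw [← e2]
    field_simp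
    ring
  rw [hsum, norm_neg, norm_mul]
  have hYn : ‖(1 / (Y : ℂ))‖ = 1 / (Y : ℝ) := by
    rw [norm_div, norm_one, Complex.norm_natCast]
  rw [hYn]
  have hterm : ∀ α ∈ (CutB_Fr R).erase ⟨d, c⟩, ‖G α * S α‖ ≤ Y * (R : ℝ) ^ 2 := by
    rintro ⟨d', c'⟩ hα
    rw [Finset.mem_erase] at hα
    obtain ⟨hne, hα⟩ := hα
    unfold CutB_Fr at hα
    rw [Finset.mem_sigma] at hα
    obtain ⟨hd', hc'⟩ := hα
    rw [norm_mul]
    apply mul_le_mul _ _ (norm_nonneg _) hYr.le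
    · rw [hG]
      refine (norm_sum_le _ _).trans ?_
      have e3 : ∀ m ∈ b, ‖(f m : ℂ) * ee ((m : ℝ) * CutB_v ⟨d', c'⟩)‖ ≤ 1 := by
        intro m _
        rw [norm_mul, Pool.Agent.H91.PK.LSa_norm_ee, mul_one, Complex.norm_real]
        exact hf m
      refine (Finset.sum_le_sum e3).trans (le_of_eq ?_)
      rw [Finset.sum_const, hcardb, nsmul_eq_mul, mul_one]
    · rw [hS, hb]
      refine geo R d d' c c' hd hd' hc hc' ?_ _ _
      rintro ⟨rfl, rfl⟩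
      exact hne rfl
  have hsum2 : ‖∑ α ∈ (CutB_Fr R).erase ⟨d, c⟩, G α * S α‖ ≤ (R : ℝ) ^ 2 * (Y * (R : ℝ) ^ 2) := by
    refine (norm_sum_le _ _).trans ((Finset.sum_le_sum hterm).trans ?_)
    rw [Finset.sum_const, nsmul_eq_mul]
    apply mul_le_mul_of_nonneg_right _ (by positivity)
    refine le_trans ?_ (CutB_card R)
    exact_mod_cast Finset.card_erase_le
  calc 1 / (Y : ℝ) * ‖∑ α ∈ (CutB_Fr R).erase ⟨d, c⟩, G α * S α‖
      ≤ 1 / (Y : ℝ) * ((R : ℝ) ^ 2 * (Y * (R : ℝ) ^ 2)) :=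
        mul_le_mul_of_nonneg_left hsum2 (by positivity)
    _ = (R : ℝ) ^ 4 := by
        field_simp

private theorem CutB_full (R Y : ℕ) (hY : 1 ≤ Y) (f : ℕ → ℝ) (hf : ∀ n, |f n| ≤ 1) (d c : ℕ)
    (hd : d ∈ Icc 1 R) (hc : c ∈ red d) (k : ℕ) :
    ‖∑ n ∈ Ioc 0 (k * Y), (gc R Y f n : ℂ) * ee ((n : ℝ) * ((c : ℝ) / d))‖ ≤ k * (R : ℝ) ^ 4 := by
  induction k with
  | zero => simp
  | succ k ih =>
    have e1 : (k + 1) * Y = k * Y + Y := by ring
    rw [e1, ← Finset.sum_Ioc_consecutive _ (Nat.zero_le (k * Y)) (Nat.le_add_right (k * Y) Y)]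
    refine (norm_add_le _ _).trans ?_
    have h2 := blk_sum R Y k hY f hf d c hd hc
    push_cast
    linarith

theorem par_sum (R Y J : ℕ) (hY : 1 ≤ Y) (f : ℕ → ℝ) (hf : ∀ n, |f n| ≤ 1) (d c : ℕ)
    (hd : d ∈ Icc 1 R) (hc : c ∈ red d) (u : ℕ) (hu : u ≤ J * Y) :
    ‖∑ n ∈ Icc 1 u, (gc R Y f n : ℂ) * ee ((n : ℝ) * ((c : ℝ) / d))‖
      ≤ J * (R : ℝ) ^ 4 + Y * (1 + (R : ℝ) ^ 2) := by
  have e0 : Icc 1 u = Ioc 0 u := by
    ext n
    rw [mem_Icc, mem_Ioc]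
    omega
  have hk : u / Y * Y ≤ u := Nat.div_mul_le_self u Y
  have hk2 : u < u / Y * Y + Y := by
    have h1 := Nat.div_add_mod u Y
    have h2 := Nat.mod_lt u (show 0 < Y by omega)
    have h3 : Y * (u / Y) = u / Y * Y := Nat.mul_comm _ _
    omega
  rw [e0, ← Finset.sum_Ioc_consecutive _ (Nat.zero_le (u / Y * Y)) hk]
  refine (norm_add_le _ _).trans (add_le_add ?_ ?_)
  · refine (CutB_full R Y hY f hf d c hd hc (u / Y)).trans ?_
    apply mul_le_mul_of_nonneg_right _ (by positivity)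
    have : u / Y ≤ J := Nat.div_le_of_le_mul (by rw [Nat.mul_comm]; exact hu)
    exact_mod_cast this
  · refine (norm_sum_le _ _).trans ?_
    have h1 : ∀ n ∈ Ioc (u / Y * Y) u, ‖(gc R Y f n : ℂ) * ee ((n : ℝ) * ((c : ℝ) / d))‖ ≤
        1 + (R : ℝ) ^ 2 := by
      intro n _
      rw [norm_mul, Pool.Agent.H91.PK.LSa_norm_ee, mul_one, Complex.norm_real]
      exact abs_gc_le R Y hY f hf n
    refine (Finset.sum_le_sum h1).trans ?_
    rw [Finset.sum_const, Nat.card_Ioc, nsmul_eq_mul]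
    apply mul_le_mul_of_nonneg_right _ (by positivity)
    have : u - u / Y * Y ≤ Y := by omega
    exact_mod_cast this

end Pool.Agent.H65.MS

end

section

/-!
# MS CutC: the second moment of the cut function

Let `b = (jY, (j+1)Y]`, `A(c/d) = ∑_{m ∈ b} f(m) ee(m c/d)` for `d ≤ R`, `c ∈ red d` (at most `R^2` fractions).
For `n ∈ b`: `Y fs(n) = ∑_{(d,c)} A(c/d) ee(-n c/d)` (`blk_eq`, `RS_eq`).  So
`Y^2 ∑_{n ∈ b} fs(n)^2 = ∑_{(d,c),(d',c')} A(c/d) conj(A(c'/d')) ∑_{n ∈ b} ee(n (c'/d' - c/d))`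
`≤ Y ∑ |A|^2 + R^2 (∑ |A|)^2 ≤ (Y + R^4) ∑ |A|^2 ≤ 2 Y ∑ |A|^2` (diagonal; `geo`; Cauchy-Schwarz with at most `R^2` fractions; `R^4 ≤ Y`).
`additive_ls` (with `K0 = jY`, `K = Y`, `a = f`; its index set `(Icc 1 r).filter (Coprime b r)` is `red r` up to `r = 1`: `b = 1` instead of `0`, the
same value of `ee(n b/r)`) gives `∑ |A|^2 ≤ (R^2 + π Y) ∑_{m ∈ b} f(m)^2 ≤ 4.2 Y ∑_{m ∈ b} f(m)^2`.
So `∑_{n ∈ b} fs(n)^2 ≤ 8.4 ∑_{m ∈ b} f(m)^2 ≤ 8.4 Y` and, by `(u-v)^2 ≤ 2u^2+2v^2`, `∑_{n ∈ b} gc(n)^2 ≤ 2 Y + 16.8 Y ≤ 20 Y`.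
Sum over the `J` blocks.
-/

set_option autoImplicit false

namespace Pool.Agent.H65.MS

open Finset
open Pool.Agent.H91.PK (ee)
open Pool.Agent.H92.EH (red)
open Pool.Agent.H76.EHB (S2)

private theorem CutC_ee_add (s t : ℝ) : ee (s + t) = ee s * ee t := by
  unfold ee
  rw [← Complex.exp_add]
  congr 1
  push_cast
  ring

private theorem CutC_ee_nat (m : ℕ) : ee (m : ℝ) = 1 := by
  unfold ee
  rw [Complex.exp_eq_one_iff]
  exact ⟨m, by push_cast; ring⟩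

private theorem CutC_ee_zero : ee 0 = 1 := by
  have := CutC_ee_nat 0
  simpa using this

private theorem CutC_conj_ee (t : ℝ) : (starRingEnd ℂ) (ee t) = ee (-t) := by
  unfold ee
  rw [← Complex.exp_conj]
  congr 1
  simp only [map_mul, Complex.conj_ofReal, Complex.conj_I, map_ofNat]
  push_cast
  ring

private theorem CutC_norm_ee (t : ℝ) : ‖ee t‖ = 1 := Pool.Agent.H91.PK.LSa_norm_ee t

private def CutC_Fr (R : ℕ) : Finset (Σ _ : ℕ, ℕ) := (Icc 1 R).sigma red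

private theorem CutC_card (R : ℕ) : ((CutC_Fr R).card : ℝ) ≤ (R : ℝ) ^ 2 := by
  unfold CutC_Fr
  rw [Finset.card_sigma]
  push_cast
  calc ∑ d ∈ Icc 1 R, ((red d).card : ℝ) ≤ ∑ d ∈ Icc 1 R, (R : ℝ) := by
        apply Finset.sum_le_sum
        intro d hd
        rw [Finset.mem_Icc] at hd
        have h1 : (red d).card ≤ d := by
          unfold red
          exact (Finset.card_filter_le _ _).trans (by simp)
        exact_mod_cast h1.trans hd.2
    _ = (R : ℝ) ^ 2 := by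
        rw [Finset.sum_const, Nat.card_Icc, nsmul_eq_mul]
        simp [sq]

private noncomputable def CutC_A (Y j : ℕ) (f : ℕ → ℝ) (α : Σ _ : ℕ, ℕ) : ℂ :=
  ∑ m ∈ Ioc (j * Y) (j * Y + Y), (f m : ℂ) * ee ((m : ℝ) * ((α.2 : ℝ) / α.1))

private theorem CutC_ls (R Y j : ℕ) (f : ℕ → ℝ) :
    ∑ α ∈ CutC_Fr R, ‖CutC_A Y j f α‖ ^ 2 ≤ ((R : ℝ) ^ 2 + Real.pi * Y) * ∑ m ∈ Ioc (j * Y) (j * Y + Y), f m ^ 2 := by
  have h := Pool.Agent.H91.PK.additive_ls R (j * Y) Y (fun m => (f m : ℂ))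
  have e1 : ∑ n ∈ Ioc (j * Y) (j * Y + Y), ‖(f n : ℂ)‖ ^ 2 = ∑ m ∈ Ioc (j * Y) (j * Y + Y), f m ^ 2 := by
    refine Finset.sum_congr rfl (fun m _ => ?_)
    rw [Complex.norm_real, Real.norm_eq_abs, sq_abs]
  rw [e1] at h
  refine le_trans (le_of_eq ?_) h
  unfold CutC_Fr
  rw [Finset.sum_sigma]
  refine Finset.sum_congr rfl (fun d hd => ?_)
  rw [Finset.mem_Icc] at hd
  rcases Nat.lt_or_ge d 2 with h2 | h2
  · have hd1 : d = 1 := by omega
    subst hd1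
    have e2 : red 1 = {0} := by decide
    have e3 : (Icc 1 1).filter (fun b => Nat.Coprime b 1) = {1} := by decide
    rw [e2, e3, Finset.sum_singleton, Finset.sum_singleton]
    congr 2
    unfold CutC_A
    refine Finset.sum_congr rfl (fun m _ => ?_)
    congr 1
    simp only [Nat.cast_zero, Nat.cast_one, div_one, mul_zero, mul_one]
    rw [CutC_ee_zero, CutC_ee_nat]
  · have e2 : red d = (Icc 1 d).filter (fun b => Nat.Coprime b d) := by
      ext c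
      rw [Pool.Agent.H92.EH.mem_red, Finset.mem_filter, Finset.mem_Icc]
      constructor
      · rintro ⟨h3, h4⟩
        refine ⟨⟨?_, h3.le⟩, h4⟩
        rcases Nat.eq_zero_or_pos c with h5 | h5
        · subst h5
          rw [Nat.coprime_zero_left] at h4
          omega
        · exact h5
      · rintro ⟨⟨h3, h4⟩, h5⟩
        refine ⟨lt_of_le_of_ne h4 ?_, h5⟩
        rintro rfl
        rw [Nat.coprime_self] at h5
        omega
    rw [e2]
    refine Finset.sum_congr rfl (fun c _ => ?_)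
    congr 2
    unfold CutC_A
    refine Finset.sum_congr rfl (fun m _ => ?_)
    congr 2
    ring

private theorem CutC_fs (R Y j : ℕ) (hY : 1 ≤ Y) (f : ℕ → ℝ) (n : ℕ) (hn : n ∈ Ioc (j * Y) (j * Y + Y)) :
    (((Y : ℝ) * fs R Y f n : ℝ) : ℂ) =
      ∑ α ∈ CutC_Fr R, CutC_A Y j f α * ee (-((n : ℝ) * ((α.2 : ℝ) / α.1))) := by
  have hY0 : (Y : ℝ) ≠ 0 := by positivity
  unfold fs
  rw [blk_eq Y j n hY hn, ← mul_assoc, mul_one_div_cancel hY0, one_mul]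
  push_cast
  have e1 : ∀ m ∈ Ioc (j * Y) (j * Y + Y), (f m : ℂ) * ((RS R ((m : ℤ) - n) : ℝ) : ℂ) =
      ∑ α ∈ CutC_Fr R, (f m : ℂ) * ee ((m : ℝ) * ((α.2 : ℝ) / α.1)) * ee (-((n : ℝ) * ((α.2 : ℝ) / α.1))) := by
    intro m _
    rw [RS_eq]
    unfold CutC_Fr
    rw [Finset.sum_sigma, Finset.mul_sum]
    refine Finset.sum_congr rfl (fun d _ => ?_)
    rw [Finset.mul_sum]
    refine Finset.sum_congr rfl (fun c _ => ?_)
    rw [mul_assoc, ← CutC_ee_add]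
    congr 2
    push_cast
    ring
  rw [Finset.sum_congr rfl e1, Finset.sum_comm]
  refine Finset.sum_congr rfl (fun α _ => ?_)
  unfold CutC_A
  rw [Finset.sum_mul]

private theorem CutC_G (R Y j : ℕ) (α β : Σ _ : ℕ, ℕ) (hα : α ∈ CutC_Fr R) (hβ : β ∈ CutC_Fr R) :
    ‖∑ n ∈ Ioc (j * Y) (j * Y + Y), ee ((n : ℝ) * ((β.2 : ℝ) / β.1 - (α.2 : ℝ) / α.1))‖ ≤
      (if α = β then (Y : ℝ) else 0) + (R : ℝ) ^ 2 := by
  unfold CutC_Fr at hα hβ
  rw [Finset.mem_sigma] at hα hβ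
  split_ifs with h
  · subst h
    refine le_trans (norm_sum_le _ _) ?_
    have : ∀ n ∈ Ioc (j * Y) (j * Y + Y), ‖ee ((n : ℝ) * ((α.2 : ℝ) / α.1 - (α.2 : ℝ) / α.1))‖ = 1 :=
      fun n _ => CutC_norm_ee _
    rw [Finset.sum_congr rfl this, Finset.sum_const, Nat.card_Ioc]
    simp
  · rw [zero_add]
    refine geo R β.1 α.1 β.2 α.2 hβ.1 hα.1 hβ.2 hα.2 ?_ _ _
    rintro ⟨h1, h2⟩
    apply h
    exact Sigma.ext h1.symm (heq_of_eq h2.symm)

private theorem CutC_sum (R Y j : ℕ) (hY : 1 ≤ Y) (f : ℕ → ℝ) :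
    ∑ n ∈ Ioc (j * Y) (j * Y + Y), ((Y : ℝ) * fs R Y f n) ^ 2 ≤
      ((Y : ℝ) + (R : ℝ) ^ 4) * ∑ α ∈ CutC_Fr R, ‖CutC_A Y j f α‖ ^ 2 := by
  set A := CutC_A Y j f with hA
  have e1 : ((∑ n ∈ Ioc (j * Y) (j * Y + Y), ((Y : ℝ) * fs R Y f n) ^ 2 : ℝ) : ℂ) =
      ∑ α ∈ CutC_Fr R, ∑ β ∈ CutC_Fr R, A α * (starRingEnd ℂ) (A β) *
        ∑ n ∈ Ioc (j * Y) (j * Y + Y), ee ((n : ℝ) * ((β.2 : ℝ) / β.1 - (α.2 : ℝ) / α.1)) := by
    have e2 : ∀ n ∈ Ioc (j * Y) (j * Y + Y), ((((Y : ℝ) * fs R Y f n) ^ 2 : ℝ) : ℂ) =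
        ∑ α ∈ CutC_Fr R, ∑ β ∈ CutC_Fr R, A α * (starRingEnd ℂ) (A β) *
          ee ((n : ℝ) * ((β.2 : ℝ) / β.1 - (α.2 : ℝ) / α.1)) := by
      intro n hn
      have h1 := CutC_fs R Y j hY f n hn
      have h2 : (((Y : ℝ) * fs R Y f n : ℝ) : ℂ) =
          (starRingEnd ℂ) (((Y : ℝ) * fs R Y f n : ℝ) : ℂ) := (Complex.conj_ofReal _).symm
      rw [Complex.ofReal_pow, sq]
      nth_rewrite 2 [h2]
      rw [h1, map_sum, Finset.sum_mul_sum]
      refine Finset.sum_congr rfl (fun α _ => Finset.sum_congr rfl (fun β _ => ?_))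
      rw [map_mul, CutC_conj_ee]
      have h3 : (n : ℝ) * ((β.2 : ℝ) / β.1 - (α.2 : ℝ) / α.1) =
          -((n : ℝ) * ((α.2 : ℝ) / α.1)) + -(-((n : ℝ) * ((β.2 : ℝ) / β.1))) := by ring
      rw [h3, CutC_ee_add]
      ring
    rw [Complex.ofReal_sum, Finset.sum_congr rfl e2, Finset.sum_comm]
    refine Finset.sum_congr rfl (fun α _ => ?_)
    rw [Finset.sum_comm]
    refine Finset.sum_congr rfl (fun β _ => ?_)
    rw [Finset.mul_sum]
  have e3 : ∑ n ∈ Ioc (j * Y) (j * Y + Y), ((Y : ℝ) * fs R Y f n) ^ 2 ≤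
      ∑ α ∈ CutC_Fr R, ∑ β ∈ CutC_Fr R, ‖A α‖ * ‖A β‖ * ((if α = β then (Y : ℝ) else 0) + (R : ℝ) ^ 2) := by
    have h0 : 0 ≤ ∑ n ∈ Ioc (j * Y) (j * Y + Y), ((Y : ℝ) * fs R Y f n) ^ 2 :=
      Finset.sum_nonneg (fun _ _ => sq_nonneg _)
    have h1 : ∑ n ∈ Ioc (j * Y) (j * Y + Y), ((Y : ℝ) * fs R Y f n) ^ 2 =
        ‖((∑ n ∈ Ioc (j * Y) (j * Y + Y), ((Y : ℝ) * fs R Y f n) ^ 2 : ℝ) : ℂ)‖ := by
      rw [Complex.norm_real, Real.norm_of_nonneg h0]
    rw [h1, e1]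
    refine (norm_sum_le _ _).trans (Finset.sum_le_sum (fun α hα => ?_))
    refine (norm_sum_le _ _).trans (Finset.sum_le_sum (fun β hβ => ?_))
    rw [norm_mul, norm_mul, RCLike.norm_conj]
    exact mul_le_mul_of_nonneg_left (CutC_G R Y j α β hα hβ) (by positivity)
  refine e3.trans ?_
  have e4 : ∑ α ∈ CutC_Fr R, ∑ β ∈ CutC_Fr R, ‖A α‖ * ‖A β‖ * ((if α = β then (Y : ℝ) else 0) + (R : ℝ) ^ 2) =
      (Y : ℝ) * ∑ α ∈ CutC_Fr R, ‖A α‖ ^ 2 + (R : ℝ) ^ 2 * (∑ α ∈ CutC_Fr R, ‖A α‖) ^ 2 := by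
    have h1 : ∀ α ∈ CutC_Fr R, ∑ β ∈ CutC_Fr R, ‖A α‖ * ‖A β‖ * ((if α = β then (Y : ℝ) else 0) + (R : ℝ) ^ 2) =
        (Y : ℝ) * ‖A α‖ ^ 2 + (R : ℝ) ^ 2 * (‖A α‖ * ∑ β ∈ CutC_Fr R, ‖A β‖) := by
      intro α hα
      have h2 : ∀ β ∈ CutC_Fr R, ‖A α‖ * ‖A β‖ * ((if α = β then (Y : ℝ) else 0) + (R : ℝ) ^ 2) =
          (if α = β then ‖A α‖ * ‖A β‖ * (Y : ℝ) else 0) + (R : ℝ) ^ 2 * (‖A α‖ * ‖A β‖) := by
        intro β _
        split_ifs <;> ring
      rw [Finset.sum_congr rfl h2, Finset.sum_add_distrib, Finset.sum_ite_eq, if_pos hα, ← Finset.mul_sum,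
        ← Finset.mul_sum]
      ring
    rw [Finset.sum_congr rfl h1, Finset.sum_add_distrib, ← Finset.mul_sum, ← Finset.mul_sum, ← Finset.sum_mul]
    ring
  rw [e4, add_mul]
  have h5 : (∑ α ∈ CutC_Fr R, ‖A α‖) ^ 2 ≤ (R : ℝ) ^ 2 * ∑ α ∈ CutC_Fr R, ‖A α‖ ^ 2 := by
    refine (sq_sum_le_card_mul_sum_sq).trans ?_
    exact mul_le_mul_of_nonneg_right (CutC_card R) (Finset.sum_nonneg (fun _ _ => sq_nonneg _))
  have h6 := mul_le_mul_of_nonneg_left h5 (sq_nonneg (R : ℝ))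
  have h7 : (R : ℝ) ^ 2 * ((R : ℝ) ^ 2 * ∑ α ∈ CutC_Fr R, ‖A α‖ ^ 2) =
      (R : ℝ) ^ 4 * ∑ α ∈ CutC_Fr R, ‖A α‖ ^ 2 := by ring
  rw [h7] at h6
  linarith

private theorem CutC_num {Y r2 r4 S T F : ℝ} (hY : 1 ≤ Y) (h2 : r2 ≤ Y) (h4 : r4 ≤ Y) (hS : 0 ≤ S) (hF : 0 ≤ F)
    (h : Y ^ 2 * T ≤ (Y + r4) * S) (hls : S ≤ (r2 + Real.pi * Y) * F) : T ≤ 9 * F := by
  have hpi : Real.pi ≤ 3.15 := by
    have := Real.pi_lt_d2
    linarith
  have hY0 : 0 < Y := by linarith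
  have h5 : (r2 + Real.pi * Y) ≤ 4.2 * Y := by
    have := mul_le_mul_of_nonneg_right hpi hY0.le
    linarith
  have h6 : S ≤ 4.2 * Y * F := hls.trans (mul_le_mul_of_nonneg_right h5 hF)
  have h7 : (Y + r4) * S ≤ 2 * Y * (4.2 * Y * F) := by
    calc (Y + r4) * S ≤ (2 * Y) * S := mul_le_mul_of_nonneg_right (by linarith) hS
      _ ≤ 2 * Y * (4.2 * Y * F) := mul_le_mul_of_nonneg_left h6 (by linarith)
  have h8 : Y ^ 2 * T ≤ Y ^ 2 * (8.4 * F) := by
    refine (h.trans h7).trans (le_of_eq ?_)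
    ring
  have h9 := le_of_mul_le_mul_left h8 (by positivity)
  linarith

/-- near orthogonality and the large sieve on one block -/
theorem fs_sq (R Y j : ℕ) (hR : 1 ≤ R) (hY : R ^ 4 ≤ Y) (f : ℕ → ℝ) :
    ∑ n ∈ Ioc (j * Y) (j * Y + Y), fs R Y f n ^ 2
      ≤ 9 * ∑ n ∈ Ioc (j * Y) (j * Y + Y), f n ^ 2 := by
  have hY1 : 1 ≤ Y := le_trans (Nat.one_le_pow _ _ hR) hY
  have hR2 : R ^ 2 ≤ Y := le_trans (Nat.pow_le_pow_right hR (by norm_num)) hY
  have h1 := CutC_sum R Y j hY1 f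
  have h2 := CutC_ls R Y j f
  have h3 : ∑ n ∈ Ioc (j * Y) (j * Y + Y), ((Y : ℝ) * fs R Y f n) ^ 2 =
      (Y : ℝ) ^ 2 * ∑ n ∈ Ioc (j * Y) (j * Y + Y), fs R Y f n ^ 2 := by
    rw [Finset.mul_sum]
    refine Finset.sum_congr rfl (fun n _ => ?_)
    ring
  rw [h3] at h1
  refine CutC_num (Y := (Y : ℝ)) (r2 := (R : ℝ) ^ 2) (r4 := (R : ℝ) ^ 4) (by exact_mod_cast hY1) (by exact_mod_cast hR2)
    (by exact_mod_cast hY) (Finset.sum_nonneg (fun _ _ => sq_nonneg _)) (Finset.sum_nonneg (fun _ _ => sq_nonneg _)) h1 h2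

theorem S2_gc (R Y J : ℕ) (hR : 1 ≤ R) (hY : R ^ 4 ≤ Y) (f : ℕ → ℝ) (hf : ∀ n, |f n| ≤ 1) :
    S2 (gc R Y f) (J * Y) ≤ 20 * ((J : ℝ) * Y) := by
  unfold S2
  have e0 : ∀ N : ℕ, Icc 1 N = Ioc 0 N := by
    intro N
    ext n
    rw [Finset.mem_Icc, Finset.mem_Ioc]
    omega
  rw [e0]
  induction J with
  | zero => simp
  | succ J ih =>
    have h1 : (J + 1) * Y = J * Y + Y := by ring
    rw [h1, ← Finset.sum_Ioc_consecutive _ (Nat.zero_le (J * Y)) (Nat.le_add_right _ Y)]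
    have h2 := fs_sq R Y J hR hY f
    have h3 : ∑ n ∈ Ioc (J * Y) (J * Y + Y), f n ^ 2 ≤ Y := by
      calc ∑ n ∈ Ioc (J * Y) (J * Y + Y), f n ^ 2 ≤ ∑ n ∈ Ioc (J * Y) (J * Y + Y), (1 : ℝ) := by
            apply Finset.sum_le_sum
            intro n _
            rw [← sq_abs]
            exact pow_le_one₀ (abs_nonneg _) (hf n)
        _ = Y := by
            rw [Finset.sum_const, Nat.card_Ioc]
            simp
    have h4 : ∑ n ∈ Ioc (J * Y) (J * Y + Y), gc R Y f n ^ 2 ≤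
        2 * ∑ n ∈ Ioc (J * Y) (J * Y + Y), f n ^ 2 + 2 * ∑ n ∈ Ioc (J * Y) (J * Y + Y), fs R Y f n ^ 2 := by
      rw [Finset.mul_sum, Finset.mul_sum, ← Finset.sum_add_distrib]
      apply Finset.sum_le_sum
      intro n _
      unfold gc
      nlinarith [sq_nonneg (f n + fs R Y f n)]
    push_cast
    linarith

end Pool.Agent.H65.MS

end

section

/-!
# EHB SmallB: completing the square

For all pairs `k1, k2 ∈ ks K` (equal ones included) with `d ∣ k2 - k1` and `y` real, with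
`X_k = FF(α + k y) e(-(a0 + A v) k y)`,
`A exp(-π (A (k2-k1) y)^2) e(-a0 (k2-k1) y) FF(α+k2 y) conj FF(α+k1 y) = ∫_v A exp(-π v^2) X_{k2} conj X_{k1} dv`
(`gft2` with `s = A (k2 - k1) y`).  Summing over the pairs with `d ∣ k2 - k1`, i.e. `k1 ≡ k2 ≡ l (mod d)` for exactly one
`l ∈ range d`, gives `∑_l ∫_v A exp(-π v^2) |∑_{k ≡ l} X_k|^2 dv`; integrate over `|y| ≤ Y` and exchange (everything bounded
times the integrable `exp(-π v^2)`).
-/

set_option autoImplicit false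

namespace Pool.Agent.H76.EHB

open Finset MeasureTheory
open Pool.Agent.H91.PK (ee)

/-- the integrand of the pair `k1, k2` -/
private noncomputable def smB_H (f : ℕ → ℝ) (N : ℕ) (A α : ℝ) (a0 k1 k2 : ℤ) (y v : ℝ) : ℂ :=
  (((A * Real.exp (-Real.pi * v ^ 2) : ℝ) : ℂ))
    * (ee (-((a0 + A * v) * ((k2 - k1 : ℤ) : ℝ) * y))
      * (FF f N (α + k2 * y) * (starRingEnd ℂ) (FF f N (α + k1 * y))))

private theorem smB_norm_ee (t : ℝ) : ‖ee t‖ = 1 := Pool.Agent.H91.PK.LSa_norm_ee t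

private theorem smB_gauss_int : Integrable (fun v : ℝ => Real.exp (-Real.pi * v ^ 2)) := by
  have h := gauss_integrable 1 one_ne_zero
  simpa using h

private theorem smB_continuous_H (f : ℕ → ℝ) (N : ℕ) (A α : ℝ) (a0 k1 k2 : ℤ) :
    Continuous (fun p : ℝ × ℝ => ee (-((a0 + A * p.2) * ((k2 - k1 : ℤ) : ℝ) * p.1))
      * (FF f N (α + k2 * p.1) * (starRingEnd ℂ) (FF f N (α + k1 * p.1)))) := by
  have h1 := continuous_ee
  have h2 := FF_continuous f N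
  have h3 : Continuous (fun p : ℝ × ℝ => FF f N (α + k1 * p.1)) := h2.comp (by fun_prop)
  have h4 : Continuous (fun p : ℝ × ℝ => FF f N (α + k2 * p.1)) := h2.comp (by fun_prop)
  have h5 : Continuous (fun p : ℝ × ℝ => ee (-((a0 + A * p.2) * ((k2 - k1 : ℤ) : ℝ) * p.1))) :=
    h1.comp (by fun_prop)
  exact h5.mul (h4.mul (Complex.continuous_conj.comp h3))

private theorem smB_continuous_y (f : ℕ → ℝ) (N : ℕ) (A α : ℝ) (a0 k1 k2 : ℤ) (v : ℝ) :
    Continuous (fun y : ℝ => smB_H f N A α a0 k1 k2 y v) := by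
  have h1 := continuous_ee
  have h2 := FF_continuous f N
  have h3 : Continuous (fun y : ℝ => FF f N (α + k1 * y)) := h2.comp (by fun_prop)
  have h4 : Continuous (fun y : ℝ => FF f N (α + k2 * y)) := h2.comp (by fun_prop)
  have h5 : Continuous (fun y : ℝ => ee (-((a0 + A * v) * ((k2 - k1 : ℤ) : ℝ) * y))) :=
    h1.comp (by fun_prop)
  unfold smB_H
  exact continuous_const.mul (h5.mul (h4.mul (Complex.continuous_conj.comp h3)))

private theorem smB_bound (f : ℕ → ℝ) (N : ℕ) (A α : ℝ) (a0 k1 k2 : ℤ) (p : ℝ × ℝ) :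
    ‖ee (-((a0 + A * p.2) * ((k2 - k1 : ℤ) : ℝ) * p.1))
      * (FF f N (α + k2 * p.1) * (starRingEnd ℂ) (FF f N (α + k1 * p.1)))‖
      ≤ (∑ n ∈ Icc 1 N, |f n|) * (∑ n ∈ Icc 1 N, |f n|) := by
  rw [norm_mul, smB_norm_ee, one_mul, norm_mul, RCLike.norm_conj]
  exact mul_le_mul (norm_FF_le f N _) (norm_FF_le f N _) (norm_nonneg _)
    (Finset.sum_nonneg fun _ _ => abs_nonneg _)

private theorem smB_integrable (f : ℕ → ℝ) (N : ℕ) (A α Y : ℝ) (a0 k1 k2 : ℤ) :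
    Integrable (fun p : ℝ × ℝ => smB_H f N A α a0 k1 k2 p.1 p.2)
      ((volume.restrict (Set.Icc (-Y) Y)).prod volume) := by
  have h1 : Integrable (fun p : ℝ × ℝ => ((A * Real.exp (-Real.pi * p.2 ^ 2) : ℝ) : ℂ))
      ((volume.restrict (Set.Icc (-Y) Y)).prod volume) := by
    have h := (smB_gauss_int.const_mul A).ofReal (𝕜 := ℂ)
    exact h.comp_snd (volume.restrict (Set.Icc (-Y) Y))
  unfold smB_H
  exact h1.mul_bdd (smB_continuous_H f N A α a0 k1 k2).aestronglyMeasurable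
    (Filter.Eventually.of_forall fun p => smB_bound f N A α a0 k1 k2 p)

private theorem smB_pair (f : ℕ → ℝ) (N : ℕ) (A α Y : ℝ) (a0 k1 k2 : ℤ) :
    IpS f N A a0 α k1 k2 (Set.Icc (-Y) Y)
      = ∫ v : ℝ, ∫ y in Set.Icc (-Y) Y, smB_H f N A α a0 k1 k2 y v := by
  rw [← integral_integral_swap (f := fun y v => smB_H f N A α a0 k1 k2 y v)
    (smB_integrable f N A α Y a0 k1 k2)]
  unfold IpS
  refine integral_congr_ae (Filter.Eventually.of_forall fun y => ?_)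
  show _ = ∫ v : ℝ, smB_H f N A α a0 k1 k2 y v
  have hg := gft2 (A * ((k2 - k1 : ℤ) : ℝ) * y)
  have e1 : ∀ v : ℝ, smB_H f N A α a0 k1 k2 y v
      = ((A : ℂ) * ee (-((a0 : ℝ) * ((k2 - k1 : ℤ) : ℝ) * y))
        * (FF f N (α + k2 * y) * (starRingEnd ℂ) (FF f N (α + k1 * y))))
        * (((Real.exp (-Real.pi * v ^ 2) : ℝ) : ℂ) * ee (-(A * ((k2 - k1 : ℤ) : ℝ) * y * v))) := by
    intro v
    unfold smB_H
    have e2 : -((a0 + A * v) * ((k2 - k1 : ℤ) : ℝ) * y)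
        = -((a0 : ℝ) * ((k2 - k1 : ℤ) : ℝ) * y) + -(A * ((k2 - k1 : ℤ) : ℝ) * y * v) := by ring
    rw [e2, Pool.Agent.H91.PK.LSa_ee_add]
    push_cast
    ring
  simp_rw [e1]
  rw [integral_const_mul, ← hg]
  push_cast
  ring

private theorem smB_class (f : ℕ → ℝ) (N K d : ℕ) (A α Y : ℝ) (a0 l : ℤ) :
    ((∫ v : ℝ, A * Real.exp (-Real.pi * v ^ 2) * JJ f N K d l α (a0 + A * v) Y : ℝ) : ℂ)
      = ∑ k1 ∈ (ks K).filter (fun k => (d : ℤ) ∣ k - l),
          ∑ k2 ∈ (ks K).filter (fun k => (d : ℤ) ∣ k - l),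
            ∫ v : ℝ, ∫ y in Set.Icc (-Y) Y, smB_H f N A α a0 k1 k2 y v := by
  set F := (ks K).filter (fun k => (d : ℤ) ∣ k - l) with hF
  have hv : ∀ k1 k2 : ℤ, Integrable (fun v : ℝ => ∫ y in Set.Icc (-Y) Y, smB_H f N A α a0 k1 k2 y v) := by
    intro k1 k2
    exact (smB_integrable f N A α Y a0 k1 k2).integral_prod_right
  have hy : ∀ (k1 k2 : ℤ) (v : ℝ), Integrable (fun y : ℝ => smB_H f N A α a0 k1 k2 y v)
      (volume.restrict (Set.Icc (-Y) Y)) := by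
    intro k1 k2 v
    exact (smB_continuous_y f N A α a0 k1 k2 v).continuousOn.integrableOn_compact isCompact_Icc
  rw [← integral_complex_ofReal]
  have h1 : ∀ k1 ∈ F, ∑ k2 ∈ F, ∫ v : ℝ, ∫ y in Set.Icc (-Y) Y, smB_H f N A α a0 k1 k2 y v
      = ∫ v : ℝ, ∑ k2 ∈ F, ∫ y in Set.Icc (-Y) Y, smB_H f N A α a0 k1 k2 y v := by
    intro k1 _
    rw [integral_finsetSum _ (fun k2 _ => hv k1 k2)]
  rw [Finset.sum_congr rfl h1]
  rw [← integral_finsetSum _ (fun k1 _ => integrable_finsetSum _ (fun k2 _ => hv k1 k2))]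
  refine integral_congr_ae (Filter.Eventually.of_forall fun v => ?_)
  have h2 : ∀ k1 ∈ F, ∑ k2 ∈ F, ∫ y in Set.Icc (-Y) Y, smB_H f N A α a0 k1 k2 y v
      = ∫ y in Set.Icc (-Y) Y, ∑ k2 ∈ F, smB_H f N A α a0 k1 k2 y v := by
    intro k1 _
    rw [integral_finsetSum _ (fun k2 _ => hy k1 k2 v)]
  show ((A * Real.exp (-Real.pi * v ^ 2) * JJ f N K d l α (a0 + A * v) Y : ℝ) : ℂ)
    = ∑ k1 ∈ F, ∑ k2 ∈ F, ∫ y in Set.Icc (-Y) Y, smB_H f N A α a0 k1 k2 y v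
  rw [Finset.sum_congr rfl h2,
    ← integral_finsetSum _ (fun k1 _ => integrable_finsetSum _ (fun k2 _ => hy k1 k2 v))]
  unfold JJ
  rw [← integral_const_mul, ← integral_complex_ofReal]
  refine integral_congr_ae (Filter.Eventually.of_forall fun y => ?_)
  show ((A * Real.exp (-Real.pi * v ^ 2)
    * ‖∑ k ∈ F, FF f N (α + k * y) * ee (-((a0 + A * v) * k * y))‖ ^ 2 : ℝ) : ℂ)
    = ∑ k1 ∈ F, ∑ k2 ∈ F, smB_H f N A α a0 k1 k2 y v
  have h3 : ((‖∑ k ∈ F, FF f N (α + k * y) * ee (-((a0 + A * v) * k * y))‖ ^ 2 : ℝ) : ℂ)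
      = ∑ k1 ∈ F, ∑ k2 ∈ F, (FF f N (α + k2 * y) * ee (-((a0 + A * v) * k2 * y)))
        * (starRingEnd ℂ) (FF f N (α + k1 * y) * ee (-((a0 + A * v) * k1 * y))) := by
    push_cast
    rw [← Complex.mul_conj', map_sum, Finset.sum_mul_sum, Finset.sum_comm]
  rw [Complex.ofReal_mul, h3, Finset.mul_sum]
  refine Finset.sum_congr rfl fun k1 _ => ?_
  rw [Finset.mul_sum]
  refine Finset.sum_congr rfl fun k2 _ => ?_
  unfold smB_H
  have e3 : (-((a0 + A * v) * ((k2 - k1 : ℤ) : ℝ) * y))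
      = -((a0 + A * v) * k2 * y) + -(-((a0 + A * v) * k1 * y)) := by
    push_cast; ring
  rw [e3, Pool.Agent.H91.PK.LSa_ee_add, map_mul, Pool.Agent.H91.PK.LSa_conj_ee]
  ring

theorem square_identity (f : ℕ → ℝ) (N K d : ℕ) (A α Y : ℝ) (a0 : ℤ) (hd : 1 ≤ d) (hA : 0 < A) (hY : 0 ≤ Y) :
    ∑ k1 ∈ ks K, ∑ k2 ∈ (ks K).filter (fun k2 => (d : ℤ) ∣ k2 - k1),
      IpS f N A a0 α k1 k2 (Set.Icc (-Y) Y)
      = ((∑ l ∈ range d, ∫ v : ℝ, A * Real.exp (-Real.pi * v ^ 2) * JJ f N K d l α (a0 + A * v) Y : ℝ) : ℂ) := by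
  have hd0 : (0 : ℤ) < d := by exact_mod_cast hd
  rw [Complex.ofReal_sum]
  have h1 : ∀ l ∈ range d,
      ((∫ v : ℝ, A * Real.exp (-Real.pi * v ^ 2) * JJ f N K d l α (a0 + A * v) Y : ℝ) : ℂ)
      = ∑ k1 ∈ ks K, if (d : ℤ) ∣ k1 - (l : ℤ) then
          ∑ k2 ∈ (ks K).filter (fun k => (d : ℤ) ∣ k - k1),
            IpS f N A a0 α k1 k2 (Set.Icc (-Y) Y) else 0 := by
    intro l _
    rw [smB_class f N K d A α Y a0 l, ← Finset.sum_filter]
    refine Finset.sum_congr rfl fun k1 hk1 => ?_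
    have hk : (d : ℤ) ∣ k1 - l := (Finset.mem_filter.mp hk1).2
    have hfe : (ks K).filter (fun k => (d : ℤ) ∣ k - l) = (ks K).filter (fun k => (d : ℤ) ∣ k - k1) := by
      refine Finset.filter_congr fun k _ => ?_
      constructor
      · intro h
        have := dvd_sub h hk
        have e : k - (l : ℤ) - (k1 - l) = k - k1 := by ring
        rwa [e] at this
      · intro h
        have := dvd_add h hk
        have e : k - k1 + (k1 - (l : ℤ)) = k - l := by ring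
        rwa [e] at this
    rw [hfe]
    exact Finset.sum_congr rfl fun k2 _ => (smB_pair f N A α Y a0 k1 k2).symm
  rw [Finset.sum_congr rfl h1, Finset.sum_comm]
  refine Finset.sum_congr rfl fun k1 _ => ?_
  have hmem : (k1 % (d : ℤ)).toNat ∈ range d := by
    rw [Finset.mem_range]
    have h2 := Int.emod_lt_of_pos k1 hd0
    have h3 := Int.emod_nonneg k1 hd0.ne'
    omega
  rw [Finset.sum_eq_single_of_mem _ hmem]
  · rw [if_pos]
    have h3 := Int.emod_nonneg k1 hd0.ne'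
    rw [Int.toNat_of_nonneg h3]
    exact Int.dvd_self_sub_emod
  · intro l hl hne
    rw [if_neg]
    intro hdv
    apply hne
    have hl' : (l : ℤ) < d := by exact_mod_cast Finset.mem_range.mp hl
    have h4 : k1 % (d : ℤ) = (l : ℤ) := by
      have h6 : k1 % (d : ℤ) = (l : ℤ) % d := Int.ModEq.symm ((Int.modEq_iff_dvd).mpr hdv)
      rw [h6, Int.emod_eq_of_lt (by positivity) hl']
    rw [h4]
    simp

end Pool.Agent.H76.EHB

end

section

/-!
# MS Tri: trivial bounds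

* `err_triv`: for `q ≥ 1`: `#{p ≤ y : p ≡ b (q)} ≤ #{n ∈ Icc 1 y : (n : ZMod q) = b} ≤ y/q + 1`, `π(y) ≤ y`, `1/q ≤ 1/φ(q)`:
  `|err y q b| ≤ 2 y/φ(q) + 1`.
* `sel_triv`: sum over `q ∈ M ⊆ Icc 1 x` and at most `nb` residues: `≤ nb (8 y (log x)^2 + #M)` by `phi_inv_sum` (`KF.Mxa`).
* `ME_mono`: `ME` is monotone in `x`; `ME_nonneg`.
* `mE_nonneg`, `mE_cases`: if no `a ∈ A` is prime to `q` then `mE x q A = 0`, otherwise the supremum over the nonempty finite type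
  `{a // a ∈ A ∧ Coprime a q}` is attained (`Finite` from `A`, `exists_eq_ciSup_of_finite`).
* `mE_singleton`.
-/

set_option autoImplicit false

namespace Pool.Agent.H65.MS

open Finset
open Pool.Agent.H91.EHA (err)
open Pool.Agent.H80.KF (ME)

private theorem Tri_count (y q : ℕ) (hq : 1 ≤ q) (b : ZMod q) :
    ((Icc 1 y).filter (fun p : ℕ => Nat.Prime p ∧ ((p : ZMod q) = b))).card ≤ y / q + 1 := by
  have h1 : ((Icc 1 y).filter (fun p : ℕ => Nat.Prime p ∧ ((p : ZMod q) = b))).card ≤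
      (range (y / q + 1)).card := by
    apply card_le_card_of_injOn (fun n => n / q)
    · intro n hn
      rw [mem_coe, mem_filter, mem_Icc] at hn
      rw [mem_coe, mem_range, Nat.lt_succ_iff]
      exact Nat.div_le_div_right hn.1.2
    · intro n hn m hm h
      rw [mem_coe, mem_filter] at hn hm
      have h2 : (n : ZMod q) = (m : ZMod q) := by rw [hn.2.2, hm.2.2]
      rw [ZMod.natCast_eq_natCast_iff] at h2
      have h3 : n % q = m % q := h2
      have h4 : n / q = m / q := h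
      rw [← Nat.div_add_mod n q, ← Nat.div_add_mod m q, h3, h4]
  rwa [card_range] at h1

private theorem Tri_pc (y : ℕ) : Nat.primeCounting y ≤ y := by
  unfold Nat.primeCounting Nat.primeCounting'
  have h2 : y + 1 = 1 + y := by ring
  rw [h2, Nat.count_add]
  have h3 : Nat.count Nat.Prime 1 = 0 := by
    rw [Nat.count_succ, Nat.count_zero, if_neg Nat.not_prime_zero]
  rw [h3, zero_add]
  exact Nat.count_le _

private instance Tri_fin (q : ℕ) (A : Finset ℕ) : Finite {a : ℕ // a ∈ A ∧ Nat.Coprime a q} :=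
  Set.Finite.to_subtype (A.finite_toSet.subset fun _ ha => ha.1)

theorem err_triv (y q : ℕ) (hq : 1 ≤ q) (b : ZMod q) :
    |err y q b| ≤ 2 * y / (Nat.totient q : ℝ) + 1 := by
  have hφ : 1 ≤ Nat.totient q := Nat.totient_pos.2 hq
  have hφr : (1 : ℝ) ≤ (Nat.totient q : ℝ) := by exact_mod_cast hφ
  have hφ0 : (0 : ℝ) < (Nat.totient q : ℝ) := by linarith
  have hφq : (Nat.totient q : ℝ) ≤ q := by exact_mod_cast Nat.totient_le q
  have h1 : (((Icc 1 y).filter (fun p : ℕ => Nat.Prime p ∧ ((p : ZMod q) = b))).card : ℝ) ≤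
      y / (Nat.totient q : ℝ) + 1 := by
    have h2 : (((Icc 1 y).filter (fun p : ℕ => Nat.Prime p ∧ ((p : ZMod q) = b))).card : ℝ) ≤
        ((y / q + 1 : ℕ) : ℝ) := by exact_mod_cast Tri_count y q hq b
    refine h2.trans ?_
    push_cast
    have h3 : ((y / q : ℕ) : ℝ) ≤ (y : ℝ) / (q : ℝ) := Nat.cast_div_le
    have h4 : (y : ℝ) / (q : ℝ) ≤ y / (Nat.totient q : ℝ) :=
      div_le_div_of_nonneg_left (Nat.cast_nonneg _) hφ0 hφq
    linarith
  have h5 : (Nat.primeCounting y : ℝ) / (Nat.totient q : ℝ) ≤ y / (Nat.totient q : ℝ) := by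
    apply div_le_div_of_nonneg_right _ hφ0.le
    exact_mod_cast Tri_pc y
  have h6 : 0 ≤ (Nat.primeCounting y : ℝ) / (Nat.totient q : ℝ) := by positivity
  have h7 : (0 : ℝ) ≤ (((Icc 1 y).filter (fun p : ℕ => Nat.Prime p ∧ ((p : ZMod q) = b))).card : ℝ) :=
    Nat.cast_nonneg _
  have h8 : 2 * (y : ℝ) / (Nat.totient q : ℝ) = y / (Nat.totient q : ℝ) + y / (Nat.totient q : ℝ) := by
    ring
  unfold err
  rw [h8, abs_le]
  constructor <;> linarith

theorem sel_triv (x y nb : ℕ) (hx : 3 ≤ x) (M : Finset ℕ) (hM : M ⊆ Icc 1 x) (S : ℕ → Finset ℕ)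
    (hS : ∀ q, (S q).card ≤ nb) :
    ∑ q ∈ M, ∑ a ∈ S q, |err y q (a : ZMod q)| ≤ nb * (8 * y * Real.log x ^ 2 + M.card) := by
  have h1 : ∀ q ∈ M, ∑ a ∈ S q, |err y q (a : ZMod q)| ≤
      nb * (2 * y * (1 / (Nat.totient q : ℝ)) + 1) := by
    intro q hq
    have hq1 : 1 ≤ q := (mem_Icc.1 (hM hq)).1
    have h2 : ∑ a ∈ S q, |err y q (a : ZMod q)| ≤
        ∑ _a ∈ S q, (2 * y * (1 / (Nat.totient q : ℝ)) + 1) := by
      refine sum_le_sum fun a _ => ?_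
      have h3 := err_triv y q hq1 (a : ZMod q)
      rw [mul_one_div]
      exact h3
    rw [sum_const, nsmul_eq_mul] at h2
    refine h2.trans ?_
    apply mul_le_mul_of_nonneg_right
    · exact_mod_cast hS q
    · positivity
  refine (sum_le_sum h1).trans ?_
  rw [← mul_sum, sum_add_distrib, ← mul_sum, sum_const, nsmul_eq_mul, mul_one]
  apply mul_le_mul_of_nonneg_left _ (Nat.cast_nonneg _)
  have h4 : ∑ q ∈ M, 1 / (Nat.totient q : ℝ) ≤ 4 * Real.log x ^ 2 :=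
    (sum_le_sum_of_subset_of_nonneg hM fun _ _ _ => by positivity).trans
      (Pool.Agent.H80.KF.phi_inv_sum x hx)
  have h5 : 2 * (y : ℝ) * ∑ q ∈ M, 1 / (Nat.totient q : ℝ) ≤ 2 * y * (4 * Real.log x ^ 2) :=
    mul_le_mul_of_nonneg_left h4 (by positivity)
  have h6 : 2 * (y : ℝ) * (4 * Real.log x ^ 2) = 8 * y * Real.log x ^ 2 := by ring
  linarith

theorem ME_nonneg (x q : ℕ) (b : ZMod q) : 0 ≤ ME x q b := by
  unfold ME
  exact (abs_nonneg (err 0 q b)).trans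
    (le_sup' (fun y => |err y q b|) (mem_range.2 (Nat.succ_pos x)))

theorem ME_mono (x x' q : ℕ) (h : x ≤ x') (b : ZMod q) : ME x q b ≤ ME x' q b := by
  unfold ME
  apply sup'_le
  intro y hy
  apply le_sup' (fun y => |err y q b|)
  rw [mem_range] at hy ⊢
  omega

private theorem Tri_cases (x q : ℕ) (A : Finset ℕ) : mE x q A = 0 ∨
    ∃ a ∈ A, Nat.Coprime a q ∧ mE x q A = ME x q (a : ZMod q) := by
  rcases isEmpty_or_nonempty {a : ℕ // a ∈ A ∧ Nat.Coprime a q} with h | h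
  · left
    unfold mE
    exact Real.iSup_of_isEmpty _
  · right
    obtain ⟨⟨a, ha, hq⟩, h1⟩ := exists_eq_ciSup_of_finite
      (f := fun a : {a : ℕ // a ∈ A ∧ Nat.Coprime a q} => ME x q ((a : ℕ) : ZMod q))
    exact ⟨a, ha, hq, h1.symm⟩

theorem mE_nonneg (x q : ℕ) (A : Finset ℕ) : 0 ≤ mE x q A := by
  rcases Tri_cases x q A with h | ⟨a, _, _, h⟩
  · rw [h]
  · rw [h]
    exact ME_nonneg _ _ _

theorem mE_cases (x q : ℕ) (A : Finset ℕ) : mE x q A = 0 ∨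
    ∃ a ∈ A, Nat.Coprime a q ∧ mE x q A = ME x q (a : ZMod q) := by
  exact Tri_cases x q A

theorem le_mE (x q : ℕ) (A : Finset ℕ) (a : ℕ) (ha : a ∈ A) (hq : Nat.Coprime a q) :
    ME x q (a : ZMod q) ≤ mE x q A := by
  exact le_ciSup (f := fun a : {a : ℕ // a ∈ A ∧ Nat.Coprime a q} => ME x q ((a : ℕ) : ZMod q))
    (Set.finite_range _).bddAbove ⟨a, ha, hq⟩

theorem mE_singleton (x q a : ℕ) :
    mE x q {a} = if Nat.Coprime a q then ME x q (a : ZMod q) else 0 := by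
  by_cases h : Nat.Coprime a q
  · rw [if_pos h]
    have h1 := le_mE x q {a} a (mem_singleton_self a) h
    rcases mE_cases x q {a} with h2 | ⟨a', h2, -, h3⟩
    · have h4 := ME_nonneg x q (a : ZMod q)
      rw [h2] at h1 ⊢
      exact le_antisymm h4 h1
    · rw [mem_singleton] at h2
      rw [h3, h2]
  · rw [if_neg h]
    rcases mE_cases x q {a} with h2 | ⟨a', h2, h3, -⟩
    · exact h2
    · rw [mem_singleton] at h2
      rw [h2] at h3
      exact absurd h3 h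

end Pool.Agent.H65.MS

end

section

/-!
# GB PbCard: a lower bound for the number of primes in `(P, 2P]` (elementary, central binomial coefficient)
-/

set_option autoImplicit false

namespace Pool.Agent.H76.GB

open Finset
open Pool.Agent.H35.W

private theorem pbcard_binom (n : ℕ) (hn : 2 < n) :
    n.centralBinom ≤ (2 * n) ^ (Nat.sqrt (2 * n) + (pb n).card) * 4 ^ (2 * n / 3) := by
  have h0 : 0 < 2 * n := by omega
  have h1 : n.centralBinom =
      ∏ p ∈ (range (2 * n + 1)).filter Nat.Prime, p ^ n.centralBinom.factorization p := by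
    conv_lhs => rw [← Nat.prod_pow_factorization_centralBinom n]
    symm
    refine Finset.prod_filter_of_ne fun p _ h => ?_
    contrapose h
    rw [Nat.factorization_eq_zero_of_not_prime n.centralBinom h, pow_zero]
  have h2 : ∀ p ∈ (range (2 * n + 1)).filter Nat.Prime, p ^ n.centralBinom.factorization p ≤
      (if p ≤ Nat.sqrt (2 * n) ∨ n < p then 2 * n else 1) * (if p ≤ 2 * n / 3 then p else 1) := by
    intro p hp
    rw [mem_filter, mem_range] at hp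
    have hp1 : 1 ≤ p := hp.2.one_lt.le
    have hb : 1 ≤ (if p ≤ 2 * n / 3 then p else 1) := by split_ifs <;> omega
    have hf : p ^ n.centralBinom.factorization p ≤ 2 * n := Nat.pow_factorization_choose_le h0
    by_cases ha : p ≤ Nat.sqrt (2 * n) ∨ n < p
    · rw [if_pos ha]
      nlinarith only [hf, hb]
    · rw [if_neg ha, one_mul]
      push Not at ha
      have h3 : n.centralBinom.factorization p ≤ 1 :=
        Nat.factorization_choose_le_one (Nat.sqrt_lt'.mp ha.1)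
      by_cases hc : p ≤ 2 * n / 3
      · rw [if_pos hc]
        exact (Nat.pow_le_pow_right hp1 h3).trans (pow_one p).le
      · rw [if_neg hc]
        have h4 : n.centralBinom.factorization p = 0 :=
          Nat.factorization_centralBinom_of_two_mul_self_lt_three_mul hn ha.2 (by omega)
        rw [h4, pow_zero]
  rw [h1]
  refine (Finset.prod_le_prod' h2).trans ?_
  rw [Finset.prod_mul_distrib]
  refine Nat.mul_le_mul ?_ ?_
  · rw [← Finset.prod_filter, Finset.prod_const]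
    refine Nat.pow_le_pow_right h0 ?_
    have h5 : ((range (2 * n + 1)).filter Nat.Prime).filter (fun p => p ≤ Nat.sqrt (2 * n) ∨ n < p) ⊆
        Icc 1 (Nat.sqrt (2 * n)) ∪ pb n := by
      intro p hp
      simp only [mem_filter, mem_range] at hp
      unfold pb
      simp only [mem_union, mem_Icc, mem_filter, mem_Ioc]
      have := hp.1.2.one_lt
      rcases hp.2 with h | h
      · left
        omega
      · right
        exact ⟨by omega, hp.1.2⟩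
    refine (card_le_card h5).trans ((card_union_le _ _).trans ?_)
    rw [Nat.card_Icc]
    omega
  · rw [← Finset.prod_filter]
    refine le_trans ?_ (primorial_le_four_pow (2 * n / 3))
    unfold primorial
    refine Finset.prod_le_prod_of_subset_of_one_le' ?_ ?_
    · intro p hp
      simp only [mem_filter, mem_range] at hp ⊢
      exact ⟨by omega, hp.1.2⟩
    · intro p hp _
      exact (mem_filter.1 hp).2.one_lt.le

theorem pb_card : ∃ P0 : ℕ, ∀ P : ℕ, P0 ≤ P → (P : ℝ) / (8 * Real.log P) ≤ ((pb P).card : ℝ) := by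
  have h1 := (isLittleO_log_rpow_atTop (r := 1 / 4) (by norm_num)).bound (c := 1)
    (by norm_num)
  obtain ⟨x1, hx1⟩ := Filter.eventually_atTop.1 (tendsto_natCast_atTop_atTop (R := ℝ) |>.eventually h1)
  refine ⟨max x1 (10 ^ 12), fun P hP => ?_⟩
  have hPx : x1 ≤ P := (le_max_left _ _).trans hP
  have hP1 : 10 ^ 12 ≤ P := (le_max_right _ _).trans hP
  have hPR : (10 : ℝ) ^ 12 ≤ P := by exact_mod_cast hP1
  have hP0 : (0 : ℝ) < P := by linarith only [hPR, pow_pos (show (0:ℝ) < 10 by norm_num) 12]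
  obtain ⟨k, hk⟩ : ∃ k, k = (pb P).card := ⟨_, rfl⟩
  have hlogP : Real.log P ≤ (P : ℝ) ^ (1 / 4 : ℝ) := by
    have h := hx1 P hPx
    rw [Real.norm_eq_abs, Real.norm_eq_abs, one_mul] at h
    exact (le_abs_self _).trans (h.trans (le_of_eq (abs_of_nonneg (by positivity))))
  have hL1 : 1 ≤ Real.log P := by
    rw [Real.le_log_iff_exp_le hP0]
    linarith only [hPR, Real.exp_one_lt_d9, show (2.7182818286 : ℝ) < 10 ^ 12 by norm_num]
  have b1 : (4 : ℝ) ^ P < P * ((2 * P : ℕ) : ℝ) ^ (Nat.sqrt (2 * P) + k) * 4 ^ (2 * P / 3) := by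
    have h2 := Nat.four_pow_lt_mul_centralBinom P (by omega)
    have h3 := pbcard_binom P (by omega)
    rw [← hk] at h3
    have h4 : 4 ^ P < P * ((2 * P) ^ (Nat.sqrt (2 * P) + k) * 4 ^ (2 * P / 3)) :=
      h2.trans_le (Nat.mul_le_mul_left _ h3)
    rw [← mul_assoc] at h4
    exact_mod_cast h4
  have b2 := Real.log_lt_log (by positivity) b1
  rw [Real.log_mul (by positivity) (by positivity), Real.log_mul (by positivity) (by positivity),
    Real.log_pow, Real.log_pow, Real.log_pow] at b2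
  have l4 : Real.log 4 = 2 * Real.log 2 := by
    rw [show (4 : ℝ) = 2 ^ 2 by norm_num, Real.log_pow]
    norm_num
  have l2a := Real.log_two_gt_d9
  have l2b := Real.log_two_lt_d9
  have b3 : ((2 * P / 3 : ℕ) : ℝ) ≤ 2 * P / 3 := by
    have := @Nat.cast_div_le ℝ _ _ _ (2 * P) 3
    push_cast at this
    exact this
  have b4 : Real.log ((2 * P : ℕ) : ℝ) ≤ 2 * Real.log P := by
    push_cast
    rw [Real.log_mul (by norm_num) hP0.ne']
    linarith only [hL1, l2a, l2b]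
  have b5 : ((Nat.sqrt (2 * P) : ℕ) : ℝ) ≤ 2 * (P : ℝ) ^ (1 / 2 : ℝ) := by
    have h5 : Nat.sqrt (2 * P) * Nat.sqrt (2 * P) ≤ 2 * P := Nat.sqrt_le _
    have h6 : ((Nat.sqrt (2 * P) : ℕ) : ℝ) * ((Nat.sqrt (2 * P) : ℕ) : ℝ) ≤ 2 * P := by exact_mod_cast h5
    have h7 : (P : ℝ) ^ (1 / 2 : ℝ) * (P : ℝ) ^ (1 / 2 : ℝ) = P := by
      rw [← Real.rpow_add hP0]
      norm_num
    have h8 : 0 ≤ (P : ℝ) ^ (1 / 2 : ℝ) := by positivity
    by_contra hc
    push Not at hc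
    nlinarith only [h8, hc, hPR, h6, h7, mul_pos_of_neg_of_neg (sub_neg.2 hc) (sub_neg.2 hc)]
  have hq : (P : ℝ) ^ (1 / 4 : ℝ) * (P : ℝ) ^ (1 / 4 : ℝ) = (P : ℝ) ^ (1 / 2 : ℝ) := by
    rw [← Real.rpow_add hP0]
    norm_num
  have hq2 : (P : ℝ) ^ (1 / 2 : ℝ) * (P : ℝ) ^ (1 / 4 : ℝ) * (P : ℝ) ^ (1 / 4 : ℝ) = P := by
    rw [mul_assoc, hq, ← Real.rpow_add hP0]
    norm_num
  have hq3 : (1000 : ℝ) ≤ (P : ℝ) ^ (1 / 4 : ℝ) := by
    have h9 := Real.rpow_le_rpow (by positivity) hPR (show (0 : ℝ) ≤ 1 / 4 by norm_num)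
    refine le_trans (le_of_eq ?_) h9
    rw [← Real.rpow_natCast, ← Real.rpow_mul (by norm_num)]
    norm_num
  set r : ℝ := (P : ℝ) ^ (1 / 2 : ℝ) with hr
  set t : ℝ := (P : ℝ) ^ (1 / 4 : ℝ) with ht
  have hr0 : 0 ≤ r := by positivity
  -- the main inequality
  have b6 : ((Nat.sqrt (2 * P) : ℕ) : ℝ) * Real.log ((2 * P : ℕ) : ℝ) ≤ 4 * (r * t) := by
    have hs0 : (0 : ℝ) ≤ ((Nat.sqrt (2 * P) : ℕ) : ℝ) := Nat.cast_nonneg _
    calc ((Nat.sqrt (2 * P) : ℕ) : ℝ) * Real.log ((2 * P : ℕ) : ℝ) ≤ (2 * r) * (2 * t) :=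
          mul_le_mul b5 (b4.trans (by linarith only [hlogP])) (Real.log_nonneg (by exact_mod_cast (by omega : 1 ≤ 2 * P)))
            (by positivity)
      _ = 4 * (r * t) := by ring
  have b7 : r * t * 1000 ≤ P := by
    rw [← hq2]
    exact mul_le_mul_of_nonneg_left hq3 (by positivity)
  have b8 : Real.log P ≤ r * t := by
    have : (1 : ℝ) ≤ r := by
      rw [← hq]
      nlinarith only [hPR, l2a, l2b, hq2, hq]
    nlinarith only [this, hlogP, hL1, l2a, l2b, b5]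
  have b9 : (k : ℝ) * Real.log ((2 * P : ℕ) : ℝ) ≤ k * (2 * Real.log P) :=
    mul_le_mul_of_nonneg_left b4 (Nat.cast_nonneg _)
  push_cast at b2 b6 b9
  rw [l4] at b2
  have b10 : (2 * P / 3 : ℝ) * (2 * Real.log 2) = (P : ℝ) * (4 / 3 * Real.log 2) := by ring
  have b11 : ((2 * P / 3 : ℕ) : ℝ) * (2 * Real.log 2) ≤ (P : ℝ) * (4 / 3 * Real.log 2) := by
    rw [← b10]
    exact mul_le_mul_of_nonneg_right b3 (by linarith only [l2a, l2b])
  rw [← hk, div_le_iff₀ (by positivity)]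
  nlinarith only [hPR, l2a, l2b, b7, b8, b2, b6, b9, b11]

end Pool.Agent.H76.GB

end
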