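import Mathlib

/-! The parts of this file: H92.EH.Exp, H92.EH.Farey, H92.EH.Ramanujan, H76.EHB.OscSum, H35.W.MeanV, H76.EHB.Gs, H76.EHB.Vdc1, H76.EHB.Lap, H91.EHA.Lam2. -/

section

/-!
The additive character `e t = exp (2 π i t)` and elementary estimates.
-/

set_option autoImplicit false

namespace Pool.Agent.H92.EH

open Finset

/-- `e t = exp (2 π i t)`. -/
noncomputable def e (t : ℝ) : ℂ := Complex.exp (Complex.I * ((2 * Real.pi * t : ℝ) : ℂ))

theorem e_zero : e 0 = 1 := by simp [e]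

theorem e_add (s t : ℝ) : e (s + t) = e s * e t := by
  unfold e
  rw [← Complex.exp_add]
  congr 1
  push_cast
  ring

theorem norm_e (t : ℝ) : ‖e t‖ = 1 := Complex.norm_exp_I_mul_ofReal _

theorem e_int (n : ℤ) : e n = 1 := by
  unfold e
  rw [Complex.exp_eq_one_iff]
  exact ⟨n, by push_cast; ring⟩

theorem e_nat (n : ℕ) : e n = 1 := by
  have := e_int n
  simpa using this

theorem e_add_int (t : ℝ) (n : ℤ) : e (t + n) = e t := by
  rw [e_add, e_int, mul_one]

theorem e_sub_int (t : ℝ) (n : ℤ) : e (t - n) = e t := by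
  have := e_add_int t (-n)
  push_cast at this
  rw [← sub_eq_add_neg] at this
  exact this

theorem e_neg (t : ℝ) : e (-t) = (starRingEnd ℂ) (e t) := by
  unfold e
  rw [← Complex.exp_conj, map_mul, Complex.conj_I, Complex.conj_ofReal]
  congr 1
  push_cast
  ring

theorem e_mul_conj (s t : ℝ) : e s * (starRingEnd ℂ) (e t) = e (s - t) := by
  rw [← e_neg, ← e_add, sub_eq_add_neg]

theorem e_nat_mul (n : ℕ) (t : ℝ) : e (n * t) = e t ^ n := by
  unfold e
  rw [← Complex.exp_nat_mul]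
  congr 1
  push_cast
  ring

/-- Lower bound for `|e t - 1|` when `|t| ≤ 1/2`. -/
theorem le_norm_e_sub_one_of_abs_le {t : ℝ} (ht : |t| ≤ 1 / 2) : 4 * |t| ≤ ‖e t - 1‖ := by
  unfold e
  rw [Complex.norm_exp_I_mul_ofReal_sub_one]
  have h1 : 2 * Real.pi * t / 2 = Real.pi * t := by ring
  rw [h1]
  have h2 : 2 / Real.pi * |Real.pi * t| ≤ |Real.sin (Real.pi * t)| := by
    apply Real.mul_abs_le_abs_sin
    rw [abs_mul, abs_of_pos Real.pi_pos]
    have := Real.pi_pos
    nlinarith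
  rw [abs_mul, abs_of_pos Real.pi_pos] at h2
  have h3 : 2 / Real.pi * (Real.pi * |t|) = 2 * |t| := by
    field_simp
  rw [h3] at h2
  simp only [norm_mul, Real.norm_eq_abs]
  rw [abs_of_pos (by norm_num : (0:ℝ) < 2)]
  linarith

/-- If `|t - m| ≥ δ` for all integers `m` then `|e t - 1| ≥ 4 δ`. -/
theorem le_norm_e_sub_one {t δ : ℝ} (h : ∀ m : ℤ, δ ≤ |t - m|) : 4 * δ ≤ ‖e t - 1‖ := by
  have h1 := h (round t)
  have h2 : |t - round t| ≤ 1 / 2 := abs_sub_round t
  have h3 := le_norm_e_sub_one_of_abs_le h2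
  rw [e_sub_int] at h3
  linarith

end Pool.Agent.H92.EH

end

section

/-!
Farey fractions are well spaced, and the resulting mean value estimate for exponential sums
over primes.
-/

set_option autoImplicit false

namespace Pool.Agent.H92.EH

open Finset

/-- Reduced residues modulo `r`, as natural numbers less than `r`. -/
def red (r : ℕ) : Finset ℕ := (range r).filter (fun b => Nat.Coprime b r)

theorem mem_red {r b : ℕ} : b ∈ red r ↔ b < r ∧ Nat.Coprime b r := by
  simp [red]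

theorem card_red (r : ℕ) : (red r).card = Nat.totient r := by
  unfold red
  rw [Nat.totient_eq_card_coprime]
  congr 1
  ext b
  simp [Nat.coprime_comm]

theorem farey_spacing {r r' b b' : ℕ} (hr : 0 < r) (hr' : 0 < r') (hb : b ∈ red r)
    (hb' : b' ∈ red r') (hne : ¬ (r = r' ∧ b = b')) (m : ℤ) :
    (1 : ℝ) / (r * r') ≤ |(b : ℝ) / r - (b' : ℝ) / r' - m| := by
  have hr0 : (0 : ℝ) < r := by exact_mod_cast hr
  have hr0' : (0 : ℝ) < r' := by exact_mod_cast hr'
  rw [mem_red] at hb hb'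
  set N : ℤ := (b : ℤ) * r' - b' * r - m * (r * r') with hN
  have h1 : (b : ℝ) / r - (b' : ℝ) / r' - m = (N : ℝ) / (r * r') := by
    rw [hN]
    push_cast
    field_simp
  have hN0 : N ≠ 0 := by
    intro h0
    apply hne
    have h2 : (b : ℤ) * r' = r * (b' + m * r') := by rw [hN] at h0; linarith
    have h3 : (b' : ℤ) * r = r' * (b - m * r) := by rw [hN] at h0; linarith
    have d1 : (r : ℤ) ∣ b * r' := ⟨_, h2⟩
    have d2 : (r' : ℤ) ∣ b' * r := ⟨_, h3⟩
    have d1' : r ∣ b * r' := by exact_mod_cast d1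
    have d2' : r' ∣ b' * r := by exact_mod_cast d2
    have e1 : r ∣ r' := (Nat.Coprime.dvd_of_dvd_mul_left (Nat.coprime_comm.mp hb.2) d1')
    have e2 : r' ∣ r := (Nat.Coprime.dvd_of_dvd_mul_left (Nat.coprime_comm.mp hb'.2) d2')
    have e3 : r = r' := Nat.dvd_antisymm e1 e2
    refine ⟨e3, ?_⟩
    subst e3
    have h4 : (r : ℤ) * b = r * (b' + m * r) := by linarith
    have hrz : (r : ℤ) ≠ 0 := by exact_mod_cast hr.ne'
    have h5 : (b : ℤ) = b' + m * r := mul_left_cancel₀ hrz h4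
    have h6 : (b : ℤ) < r := by exact_mod_cast hb.1
    have h7 : (b' : ℤ) < r := by exact_mod_cast hb'.1
    have h8 : (0 : ℤ) ≤ b := by positivity
    have h9 : (0 : ℤ) ≤ b' := by positivity
    have h10 : m = 0 := by
      by_contra hm
      rcases lt_or_gt_of_ne hm with hm | hm
      · have : m * r ≤ -1 * r := mul_le_mul_of_nonneg_right (by omega) (by positivity)
        linarith
      · have : 1 * (r : ℤ) ≤ m * r := mul_le_mul_of_nonneg_right (by omega) (by positivity)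
        linarith
    rw [h10] at h5
    simp at h5
    exact h5
  rw [h1, abs_div, abs_of_pos (by positivity : (0 : ℝ) < r * r')]
  apply div_le_div_of_nonneg_right _ (by positivity)
  have : (1 : ℤ) ≤ |N| := Int.one_le_abs hN0
  exact_mod_cast this

end Pool.Agent.H92.EH

end

section

/-!
Complete exponential sums and Ramanujan sums.
-/

set_option autoImplicit false

namespace Pool.Agent.H92.EH

open Finset

/-- Complete sums of additive characters. -/
theorem sum_complete (n : ℕ) (hn : 0 < n) (m : ℤ) :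
    ∑ b ∈ range n, e (m * ((b : ℝ) / n)) = if (n : ℤ) ∣ m then (n : ℂ) else 0 := by
  have hn0 : (n : ℝ) ≠ 0 := by exact_mod_cast hn.ne'
  have h1 : ∀ b : ℕ, e (m * ((b : ℝ) / n)) = e ((m : ℝ) / n) ^ b := by
    intro b
    rw [← e_nat_mul]
    congr 1
    ring
  simp_rw [h1]
  split_ifs with h
  · obtain ⟨k, rfl⟩ := h
    have : ((n : ℤ) * k : ℤ) / (n : ℝ) = (k : ℝ) := by
      push_cast
      field_simp
    rw [this, e_int]
    simp
  · have hne : e ((m : ℝ) / n) ≠ 1 := by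
      intro he
      apply h
      unfold e at he
      rw [Complex.exp_eq_one_iff] at he
      obtain ⟨k, hk⟩ := he
      refine ⟨k, ?_⟩
      have hpi : (Real.pi : ℂ) ≠ 0 := by exact_mod_cast Real.pi_ne_zero
      have hI := Complex.I_ne_zero
      have hn0' : (n : ℂ) ≠ 0 := by exact_mod_cast hn.ne'
      push_cast at hk
      have h2 : (2 * Real.pi * Complex.I : ℂ) * (m / n) = (2 * Real.pi * Complex.I) * k := by
        linear_combination hk
      have h3 : ((m : ℂ) / n) = k := by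
        apply mul_left_cancel₀ _ h2
        simp [hpi, hI]
      rw [div_eq_iff hn0'] at h3
      have h4 : (m : ℂ) = ((n : ℤ) * k : ℤ) := by
        rw [h3]
        push_cast
        ring
      exact_mod_cast h4
    have h5 : (∑ b ∈ range n, e ((m : ℝ) / n) ^ b) * (e ((m : ℝ) / n) - 1) = 0 := by
      rw [geom_sum_mul, ← e_nat_mul]
      have : (n : ℝ) * ((m : ℝ) / n) = m := by field_simp
      rw [this, e_int, sub_self]
    rcases mul_eq_zero.mp h5 with h6 | h6
    · exact h6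
    · exact absurd (sub_eq_zero.mp h6) hne

/-- The Ramanujan sum `c_r(m)`. -/
noncomputable def ram (r : ℕ) (m : ℤ) : ℂ := ∑ b ∈ red r, e (m * ((b : ℝ) / r))

theorem sum_ram_divisors (n : ℕ) (hn : 0 < n) (m : ℤ) :
    ∑ d ∈ n.divisors, ram d m = if (n : ℤ) ∣ m then (n : ℂ) else 0 := by
  rw [← sum_complete n hn m]
  -- partition `range n` according to the gcd with `n`
  have h1 : ∑ b ∈ range n, e (m * ((b : ℝ) / n))
      = ∑ d ∈ n.divisors, ∑ b ∈ (range n).filter (fun b => n / Nat.gcd b n = d),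
          e (m * ((b : ℝ) / n)) := by
    rw [sum_fiberwise_of_maps_to]
    intro b _
    rw [Nat.mem_divisors]
    exact ⟨Nat.div_dvd_of_dvd (Nat.gcd_dvd_right b n), hn.ne'⟩
  rw [h1]
  refine sum_congr rfl fun d hd => ?_
  rw [Nat.mem_divisors] at hd
  obtain ⟨k, hk⟩ := hd.1
  have hdpos : 0 < d := Nat.pos_of_ne_zero (by rintro rfl; omega)
  have hkpos : 0 < k := Nat.pos_of_ne_zero (by rintro rfl; omega)
  unfold ram
  refine sum_bij (fun b _ => b * k) ?_ ?_ ?_ ?_
  · intro b hb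
    rw [mem_red] at hb
    rw [mem_filter, mem_range]
    have hg : Nat.gcd (b * k) n = k := by
      rw [hk, Nat.gcd_mul_right]
      have : Nat.gcd b d = 1 := hb.2
      rw [this, one_mul]
    refine ⟨?_, ?_⟩
    · rw [hk]
      exact Nat.mul_lt_mul_of_pos_right hb.1 hkpos
    · rw [hg, hk]
      exact Nat.mul_div_cancel _ hkpos
  · intro b _ b' _ h
    exact Nat.eq_of_mul_eq_mul_right hkpos h
  · intro c hc
    rw [mem_filter, mem_range] at hc
    obtain ⟨hc1, hc2⟩ := hc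
    have hgpos : 0 < Nat.gcd c n := Nat.gcd_pos_of_pos_right _ hn
    have hgk : Nat.gcd c n = k := by
      have h2 : Nat.gcd c n ∣ n := Nat.gcd_dvd_right c n
      have h3 : n / Nat.gcd c n * Nat.gcd c n = n := Nat.div_mul_cancel h2
      rw [hc2] at h3
      exact Nat.eq_of_mul_eq_mul_left hdpos (h3.trans hk)
    have hkc : k ∣ c := by rw [← hgk]; exact Nat.gcd_dvd_left c n
    obtain ⟨b, hb⟩ := hkc
    refine ⟨b, ?_, by rw [hb]; ring⟩
    rw [mem_red]
    constructor
    · have : k * b < k * d := by rw [← hb, mul_comm k d, ← hk]; exact hc1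
      exact lt_of_mul_lt_mul_left this (Nat.zero_le _)
    · have h2 : Nat.gcd (k * b) (k * d) = k := by
        rw [← hb, mul_comm k d, ← hk]
        exact hgk
      rw [Nat.gcd_mul_left] at h2
      have h3 : k * Nat.gcd b d = k * 1 := by rw [h2, mul_one]
      exact Nat.eq_of_mul_eq_mul_left hkpos h3
  · intro b _
    congr 2
    have hd0 : (d : ℝ) ≠ 0 := by exact_mod_cast hdpos.ne'
    have hk0 : (k : ℝ) ≠ 0 := by exact_mod_cast hkpos.ne'
    rw [hk]
    push_cast
    field_simp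

/-- Formula for the Ramanujan sum. -/
theorem ram_eq (r : ℕ) (hr : 0 < r) (m : ℤ) :
    ram r m = ∑ x ∈ r.divisorsAntidiagonal,
      ((ArithmeticFunction.moebius x.1 : ℤ) : ℂ) * (if ((x.2 : ℕ) : ℤ) ∣ m then (x.2 : ℂ) else 0) := by
  have h := (ArithmeticFunction.sum_eq_iff_sum_mul_moebius_eq
    (f := fun n => ram n m) (g := fun n : ℕ => if (n : ℤ) ∣ m then (n : ℂ) else 0)).mp
    (fun n hn => sum_ram_divisors n hn m) r hr
  exact h.symm

end Pool.Agent.H92.EH

end

section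

/-!
# EHB OscSum

See the header of `Osc`: `bb P v` is `2` for `|v| < 1`, `3/√|v|` for `1 ≤ |v| ≤ P`, `√P/|v|` for `|v| > P`.
For each of the two sides of `a'` order the `n` by distance: the `j`-th (`j = 0, 1, ...`) has `|n - a'| ≥ j`; at most one `n` per side has
`|n-a'| < 1`.  One side gives at most `2 + ∑_{1 ≤ j ≤ P} 3/√j + 3/√P... ` — all together `≤ 20 √P (1 + log N)`:
points with `1 ≤ |v| ≤ P`: `≤ ∑_{1≤j≤P+1} 3/√j ≤ 6 √(P+1)`... ; points with `|v| > P`: `≤ √P ∑_{i=0}^{N} 1/(P+i) ≤ √P (1/P + log(1+N/P))`.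
(The constant 20 is generous; if needed message helper76.)

Here: `bb P v ≤ 6 √P / (1 + |v|)`, and each side of `a` gives at most `6 √P H_{N+1}`.
-/

set_option autoImplicit false

namespace Pool.Agent.H76.EHB

open Finset

noncomputable def bb (P v : ℝ) : ℝ :=
  if |v| < 1 then 2 else if |v| ≤ P then 3 / Real.sqrt |v| else Real.sqrt P / |v|

private theorem OscSum_bb_le {P v : ℝ} (hP : 1 ≤ P) (i : ℕ) (hi : (i : ℝ) ≤ |v|) :
    bb P v ≤ 6 * Real.sqrt P * (1 / ((i : ℝ) + 1)) := by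
  have hsP : 1 ≤ Real.sqrt P := Real.one_le_sqrt.2 hP
  have h1 : bb P v ≤ 6 * Real.sqrt P * (1 / (|v| + 1)) := by
    have hv : 0 ≤ |v| := abs_nonneg v
    rw [mul_one_div, le_div_iff₀ (by linarith)]
    unfold bb
    split_ifs with h2 h3
    · nlinarith
    · rw [not_lt] at h2
      have hv1 : 1 ≤ Real.sqrt |v| := Real.one_le_sqrt.2 h2
      have h4 : Real.sqrt |v| ≤ Real.sqrt P := Real.sqrt_le_sqrt h3
      have h5 : Real.sqrt |v| * Real.sqrt |v| = |v| := Real.mul_self_sqrt hv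
      have h6 : 3 / Real.sqrt |v| * (|v| + 1) ≤ 3 / Real.sqrt |v| * (2 * |v|) := by
        gcongr
        linarith
      refine h6.trans ?_
      have h7 : 3 / Real.sqrt |v| * (2 * |v|) = 6 * Real.sqrt |v| := by
        rw [div_mul_eq_mul_div, div_eq_iff (by linarith)]
        nlinarith
      rw [h7]
      linarith
    · rw [not_lt] at h2
      rw [div_mul_eq_mul_div, div_le_iff₀ (by linarith)]
      nlinarith
  refine h1.trans ?_
  gcongr

private theorem OscSum_harm (N : ℕ) (hN : 1 ≤ N) :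
    ∑ i ∈ range (N + 1), 1 / ((i : ℝ) + 1) ≤ 2 * (1 + Real.log N) := by
  have h := harmonic_le_one_add_log (N + 1)
  unfold harmonic at h
  push_cast at h
  have hN0 : (0 : ℝ) < N := by exact_mod_cast hN
  have h1 : Real.log ((N : ℝ) + 1) ≤ 1 + Real.log N := by
    have h2 : Real.log ((N : ℝ) + 1) ≤ Real.log (2 * N) := by
      apply Real.log_le_log (by positivity)
      have : (1 : ℝ) ≤ N := by exact_mod_cast hN
      linarith
    rw [Real.log_mul (by norm_num) hN0.ne'] at h2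
    have := Real.log_two_lt_d9
    linarith
  have h3 : 0 ≤ Real.log N := Real.log_natCast_nonneg N
  simp only [one_div]
  linarith

/-- One side of `a`. -/
private theorem OscSum_side (N : ℕ) (P a : ℝ) (hN : 1 ≤ N) (hP : 1 ≤ P) (s : Finset ℕ)
    (g : ℕ → ℕ) (hg : Set.InjOn g s) (hgN : ∀ n ∈ s, g n ≤ N)
    (hgv : ∀ n ∈ s, ((g n : ℕ) : ℝ) ≤ |(n : ℝ) - a|) :
    ∑ n ∈ s, bb P (n - a) ≤ 12 * Real.sqrt P * (1 + Real.log N) := by
  have hsP : 0 ≤ Real.sqrt P := Real.sqrt_nonneg P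
  calc ∑ n ∈ s, bb P (n - a) ≤ ∑ n ∈ s, 6 * Real.sqrt P * (1 / ((g n : ℝ) + 1)) :=
        sum_le_sum fun n hn => OscSum_bb_le hP (g n) (hgv n hn)
    _ = ∑ i ∈ s.image g, 6 * Real.sqrt P * (1 / ((i : ℝ) + 1)) := by
        rw [sum_image hg]
    _ ≤ ∑ i ∈ range (N + 1), 6 * Real.sqrt P * (1 / ((i : ℝ) + 1)) := by
        refine sum_le_sum_of_subset_of_nonneg ?_ fun i _ _ => by positivity
        intro i hi
        obtain ⟨n, hn, rfl⟩ := mem_image.1 hi
        exact mem_range.2 (Nat.lt_succ_of_le (hgN n hn))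
    _ = 6 * Real.sqrt P * ∑ i ∈ range (N + 1), 1 / ((i : ℝ) + 1) := by rw [mul_sum]
    _ ≤ 6 * Real.sqrt P * (2 * (1 + Real.log N)) := by
        gcongr
        exact OscSum_harm N hN
    _ = _ := by ring

theorem bb_sum (N : ℕ) (P a : ℝ) (hN : 1 ≤ N) (hP : 1 ≤ P) :
    ∑ n ∈ Icc 1 N, bb P (n - a) ≤ 30 * Real.sqrt P * (1 + Real.log N) := by
  classical
  have hlog : 0 ≤ Real.log N := Real.log_natCast_nonneg N
  have hsP : 0 ≤ Real.sqrt P := Real.sqrt_nonneg P
  rw [← sum_filter_add_sum_filter_not (Icc 1 N) (fun n : ℕ => a ≤ (n : ℝ))]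
  have h1 : ∑ n ∈ (Icc 1 N).filter (fun n : ℕ => a ≤ (n : ℝ)), bb P (n - a) ≤
      12 * Real.sqrt P * (1 + Real.log N) := by
    refine OscSum_side N P a hN hP _ (fun n => n - ⌈a⌉₊) ?_ ?_ ?_
    · intro n hn n' hn' he
      rw [mem_coe, mem_filter] at hn hn'
      have h2 : ⌈a⌉₊ ≤ n := Nat.ceil_le.2 hn.2
      have h3 : ⌈a⌉₊ ≤ n' := Nat.ceil_le.2 hn'.2
      have h4 : n - ⌈a⌉₊ = n' - ⌈a⌉₊ := he
      omega
    · intro n hn
      rw [mem_filter, mem_Icc] at hn
      show n - ⌈a⌉₊ ≤ N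
      omega
    · intro n hn
      rw [mem_filter, mem_Icc] at hn
      have h2 : ⌈a⌉₊ ≤ n := Nat.ceil_le.2 hn.2
      rw [Nat.cast_sub h2]
      have h3 := Nat.le_ceil a
      have h4 := le_abs_self ((n : ℝ) - a)
      linarith
  have h2 : ∑ n ∈ (Icc 1 N).filter (fun n : ℕ => ¬ a ≤ (n : ℝ)), bb P (n - a) ≤
      12 * Real.sqrt P * (1 + Real.log N) := by
    refine OscSum_side N P a hN hP _ (fun n => min ⌊a⌋₊ N - n) ?_ ?_ ?_
    · intro n hn n' hn' he
      rw [mem_coe, mem_filter, mem_Icc, not_le] at hn hn'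
      have h2 : n ≤ ⌊a⌋₊ := Nat.le_floor hn.2.le
      have h3 : n' ≤ ⌊a⌋₊ := Nat.le_floor hn'.2.le
      have h4 : min ⌊a⌋₊ N - n = min ⌊a⌋₊ N - n' := he
      omega
    · intro n hn
      show min ⌊a⌋₊ N - n ≤ N
      omega
    · intro n hn
      rw [mem_filter, mem_Icc, not_le] at hn
      have h2 : n ≤ ⌊a⌋₊ := Nat.le_floor hn.2.le
      have h5 : n ≤ min ⌊a⌋₊ N := by omega
      rw [Nat.cast_sub h5]
      have hn0 : (0 : ℝ) ≤ n := Nat.cast_nonneg n
      have h3 : ((⌊a⌋₊ : ℕ) : ℝ) ≤ a := Nat.floor_le (by linarith [hn.2])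
      have h6 : ((min ⌊a⌋₊ N : ℕ) : ℝ) ≤ (⌊a⌋₊ : ℝ) := by exact_mod_cast min_le_left _ _
      have h4 := neg_abs_le ((n : ℝ) - a)
      linarith
  calc _ ≤ 12 * Real.sqrt P * (1 + Real.log N) + 12 * Real.sqrt P * (1 + Real.log N) :=
        add_le_add h1 h2
    _ ≤ 30 * Real.sqrt P * (1 + Real.log N) := by
        have : 0 ≤ Real.sqrt P * (1 + Real.log N) := by positivity
        nlinarith

end Pool.Agent.H76.EHB

end

section

/-!
# W MeanV: mean value theorem for Dirichlet polynomials (elementary)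

Proof.  Expand: `∫_{-T}^T ‖∑‖^2 = ∑_{m,m'} a_m conj(a_m') (m m')^{-1/2} ∫_{-T}^T (m/m')^{it} dt`; the diagonal gives
`2T ∑ |a_m|^2/m`; for `m ≠ m'` the integral is `≤ 2/|log(m/m')| ≤ 2 X/|m - m'|` in absolute value
(`|log(m/m')| ≥ |m-m'|/max(m,m')`), `|a_m a_m'| (m m')^{-1/2} ≤ (|a_m|^2/m + |a_m'|^2/m')/2`, and
`∑_{m' ≠ m, m' ≤ X} 1/|m-m'| ≤ 2 (1 + log X)`.
-/

set_option autoImplicit false

namespace Pool.Agent.H35.W

open Finset MeasureTheory

/-- the integral of a character -/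
private theorem mv_int (T c : ℝ) (hc : c ≠ 0) :
    ‖∫ t in (-T)..T, Complex.exp ((c * Complex.I) * (t : ℂ))‖ ≤ 2 / |c| := by
  have hc' : (c * Complex.I : ℂ) ≠ 0 := by
    simp [hc]
  rw [integral_exp_mul_complex hc', norm_div]
  have h1 : ‖(c * Complex.I : ℂ)‖ = |c| := by simp
  rw [h1]
  refine div_le_div_of_nonneg_right ?_ (abs_nonneg _)
  have e : ∀ s : ℝ, ‖Complex.exp ((c * Complex.I) * (s : ℂ))‖ = 1 := by
    intro s
    have : (c * Complex.I) * (s : ℂ) = ((c * s : ℝ) : ℂ) * Complex.I := by push_cast; ring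
    rw [this, Complex.norm_exp_ofReal_mul_I]
  refine (norm_sub_le _ _).trans ?_
  rw [e, e]
  norm_num

/-- expansion of the mean square -/
private theorem mv_expand (b : ℕ → ℂ) (l : ℕ → ℝ) (S : Finset ℕ) (T : ℝ) :
    ∫ t in (-T)..T, ‖∑ m ∈ S, b m * Complex.exp ((l m * Complex.I) * (t : ℂ))‖ ^ 2
      ≤ ∑ m ∈ S, ∑ n ∈ S, ‖b m‖ * ‖b n‖ *
        ‖∫ t in (-T)..T, Complex.exp ((((l m - l n : ℝ) : ℂ) * Complex.I) * (t : ℂ))‖ := by
  have hpt : ∀ t : ℝ, ((‖∑ m ∈ S, b m * Complex.exp ((l m * Complex.I) * (t : ℂ))‖ ^ 2 : ℝ) : ℂ)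
      = ∑ m ∈ S, ∑ n ∈ S, b m * (starRingEnd ℂ) (b n) *
        Complex.exp ((((l m - l n : ℝ) : ℂ) * Complex.I) * (t : ℂ)) := by
    intro t
    rw [← Complex.normSq_eq_norm_sq, ← Complex.mul_conj, map_sum, Finset.sum_mul_sum]
    refine Finset.sum_congr rfl fun m _ => Finset.sum_congr rfl fun n _ => ?_
    rw [map_mul, ← Complex.exp_conj]
    have : (starRingEnd ℂ) ((l n * Complex.I) * (t : ℂ)) = -((l n * Complex.I) * (t : ℂ)) := by
      simp
    rw [this]
    have e : Complex.exp ((((l m - l n : ℝ) : ℂ) * Complex.I) * (t : ℂ)) =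
        Complex.exp ((l m * Complex.I) * (t : ℂ)) * Complex.exp (-((l n * Complex.I) * (t : ℂ))) := by
      rw [← Complex.exp_add]
      congr 1
      push_cast
      ring
    rw [e]
    ring
  have hcont : ∀ c : ℝ, Continuous fun t : ℝ => Complex.exp ((c * Complex.I) * (t : ℂ)) := by
    intro c
    fun_prop
  have hint : ((∫ t in (-T)..T, ‖∑ m ∈ S, b m * Complex.exp ((l m * Complex.I) * (t : ℂ))‖ ^ 2 : ℝ) : ℂ)
      = ∑ m ∈ S, ∑ n ∈ S, b m * (starRingEnd ℂ) (b n) *
        ∫ t in (-T)..T, Complex.exp ((((l m - l n : ℝ) : ℂ) * Complex.I) * (t : ℂ)) := by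
    rw [← intervalIntegral.integral_ofReal]
    have : (fun t : ℝ => ((‖∑ m ∈ S, b m * Complex.exp ((l m * Complex.I) * (t : ℂ))‖ ^ 2 : ℝ) : ℂ))
        = fun t : ℝ => ∑ m ∈ S, ∑ n ∈ S, b m * (starRingEnd ℂ) (b n) *
        Complex.exp ((((l m - l n : ℝ) : ℂ) * Complex.I) * (t : ℂ)) := funext hpt
    rw [intervalIntegral.integral_congr (g := fun t : ℝ => ∑ m ∈ S, ∑ n ∈ S,
      b m * (starRingEnd ℂ) (b n) *
        Complex.exp ((((l m - l n : ℝ) : ℂ) * Complex.I) * (t : ℂ))) (fun t _ => hpt t)]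
    rw [intervalIntegral.integral_finsetSum]
    · refine Finset.sum_congr rfl fun m _ => ?_
      rw [intervalIntegral.integral_finsetSum]
      · refine Finset.sum_congr rfl fun n _ => ?_
        rw [intervalIntegral.integral_const_mul]
      · intro n _
        exact ((hcont _).const_mul _).intervalIntegrable _ _
    · intro m _
      refine Continuous.intervalIntegrable ?_ _ _
      refine continuous_finsetSum _ fun n _ => ?_
      exact continuous_const.mul (hcont _)
  have hn : ∫ t in (-T)..T, ‖∑ m ∈ S, b m * Complex.exp ((l m * Complex.I) * (t : ℂ))‖ ^ 2 ≤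
      ‖((∫ t in (-T)..T, ‖∑ m ∈ S, b m * Complex.exp ((l m * Complex.I) * (t : ℂ))‖ ^ 2 : ℝ) : ℂ)‖ := by
    rw [Complex.norm_real]
    exact le_abs_self _
  refine hn.trans ?_
  rw [hint]
  refine (norm_sum_le _ _).trans (Finset.sum_le_sum fun m _ => ?_)
  refine (norm_sum_le _ _).trans (Finset.sum_le_sum fun n _ => ?_)
  rw [norm_mul, norm_mul, Complex.norm_conj]

/-- harmonic bound -/
private theorem mv_harm (X : ℕ) : ∑ i ∈ range X, (1 : ℝ) / ((i : ℝ) + 1) ≤ 1 + Real.log X := by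
  have h := harmonic_le_one_add_log X
  have e : ((harmonic X : ℚ) : ℝ) = ∑ i ∈ range X, (1 : ℝ) / ((i : ℝ) + 1) := by
    unfold harmonic
    push_cast
    exact Finset.sum_congr rfl fun i _ => by rw [one_div]
  linarith only [h, e]

private theorem mv_row (X m : ℕ) (hm : m ∈ Icc 1 X) :
    ∑ n ∈ (Icc 1 X).filter (fun n => n ≠ m), (1 : ℝ) / |(m : ℝ) - n| ≤ 2 * (1 + Real.log X) := by
  have hm' := Finset.mem_Icc.1 hm
  have hsplit : (Icc 1 X).filter (fun n => n ≠ m) =
      (Icc 1 X).filter (fun n => n < m) ∪ (Icc 1 X).filter (fun n => m < n) := by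
    ext n
    simp only [Finset.mem_filter, Finset.mem_union, Finset.mem_Icc]
    omega
  have hdisj : Disjoint ((Icc 1 X).filter (fun n => n < m)) ((Icc 1 X).filter (fun n => m < n)) := by
    rw [Finset.disjoint_left]
    intro n h1 h2
    have := (Finset.mem_filter.1 h1).2
    have := (Finset.mem_filter.1 h2).2
    omega
  rw [hsplit, Finset.sum_union hdisj]
  have h1 : ∑ n ∈ (Icc 1 X).filter (fun n => n < m), (1 : ℝ) / |(m : ℝ) - n| ≤ 1 + Real.log X := by
    refine le_trans ?_ (mv_harm X)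
    have hinj : Set.InjOn (fun n => m - n - 1) ((Icc 1 X).filter (fun n => n < m) : Finset ℕ) := by
      intro a ha b hb hab
      have ha' := (Finset.mem_filter.1 (Finset.mem_coe.1 ha)).2
      have hb' := (Finset.mem_filter.1 (Finset.mem_coe.1 hb)).2
      simp only at hab
      omega
    have hsub : ((Icc 1 X).filter (fun n => n < m)).image (fun n => m - n - 1) ⊆ range X := by
      intro k hk
      obtain ⟨n, hn, rfl⟩ := Finset.mem_image.1 hk
      have hn' := Finset.mem_filter.1 hn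
      have := Finset.mem_Icc.1 hn'.1
      rw [Finset.mem_range]
      omega
    calc ∑ n ∈ (Icc 1 X).filter (fun n => n < m), (1 : ℝ) / |(m : ℝ) - n|
        = ∑ n ∈ (Icc 1 X).filter (fun n => n < m), (1 : ℝ) / (((m - n - 1 : ℕ) : ℝ) + 1) := by
          refine Finset.sum_congr rfl fun n hn => ?_
          have hn' := (Finset.mem_filter.1 hn).2
          have e : ((m - n - 1 : ℕ) : ℝ) + 1 = (m : ℝ) - n := by
            have : m - n - 1 + 1 + n = m := by omega
            have h3 : (((m - n - 1 + 1 + n : ℕ)) : ℝ) = (m : ℝ) := by rw [this]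
            push_cast at h3
            linarith only [h3]
          rw [e, abs_of_pos]
          have : (n : ℝ) < m := by exact_mod_cast hn'
          linarith only [e]
      _ = ∑ k ∈ ((Icc 1 X).filter (fun n => n < m)).image (fun n => m - n - 1),
            (1 : ℝ) / ((k : ℝ) + 1) := by
          rw [Finset.sum_image hinj]
      _ ≤ ∑ i ∈ range X, (1 : ℝ) / ((i : ℝ) + 1) :=
          Finset.sum_le_sum_of_subset_of_nonneg hsub fun i _ _ => by positivity
  have h2 : ∑ n ∈ (Icc 1 X).filter (fun n => m < n), (1 : ℝ) / |(m : ℝ) - n| ≤ 1 + Real.log X := by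
    refine le_trans ?_ (mv_harm X)
    have hinj : Set.InjOn (fun n => n - m - 1) ((Icc 1 X).filter (fun n => m < n) : Finset ℕ) := by
      intro a ha b hb hab
      have ha' := (Finset.mem_filter.1 (Finset.mem_coe.1 ha)).2
      have hb' := (Finset.mem_filter.1 (Finset.mem_coe.1 hb)).2
      simp only at hab
      omega
    have hsub : ((Icc 1 X).filter (fun n => m < n)).image (fun n => n - m - 1) ⊆ range X := by
      intro k hk
      obtain ⟨n, hn, rfl⟩ := Finset.mem_image.1 hk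
      have hn' := Finset.mem_filter.1 hn
      have := Finset.mem_Icc.1 hn'.1
      rw [Finset.mem_range]
      omega
    calc ∑ n ∈ (Icc 1 X).filter (fun n => m < n), (1 : ℝ) / |(m : ℝ) - n|
        = ∑ n ∈ (Icc 1 X).filter (fun n => m < n), (1 : ℝ) / (((n - m - 1 : ℕ) : ℝ) + 1) := by
          refine Finset.sum_congr rfl fun n hn => ?_
          have hn' := (Finset.mem_filter.1 hn).2
          have e : ((n - m - 1 : ℕ) : ℝ) + 1 = (n : ℝ) - m := by
            have : n - m - 1 + 1 + m = n := by omega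
            have h3 : (((n - m - 1 + 1 + m : ℕ)) : ℝ) = (n : ℝ) := by rw [this]
            push_cast at h3
            linarith only [h3]
          rw [e, abs_sub_comm, abs_of_pos]
          have : (m : ℝ) < n := by exact_mod_cast hn'
          linarith
      _ = ∑ k ∈ ((Icc 1 X).filter (fun n => m < n)).image (fun n => n - m - 1),
            (1 : ℝ) / ((k : ℝ) + 1) := by
          rw [Finset.sum_image hinj]
      _ ≤ ∑ i ∈ range X, (1 : ℝ) / ((i : ℝ) + 1) :=
          Finset.sum_le_sum_of_subset_of_nonneg hsub fun i _ _ => by positivity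
  linarith only [h1, h2]

private theorem mv_log {m n X : ℕ} (hm : m ∈ Icc 1 X) (hn : n ∈ Icc 1 X) (hne : n ≠ m) :
    |(m : ℝ) - n| / X ≤ |Real.log m - Real.log n| := by
  have key : ∀ a b : ℕ, a ∈ Icc 1 X → b ∈ Icc 1 X → b < a →
      ((a : ℝ) - b) / X ≤ Real.log a - Real.log b := by
    intro a b ha hb hlt
    have ha' := Finset.mem_Icc.1 ha
    have hb' := Finset.mem_Icc.1 hb
    have ha0 : (0 : ℝ) < a := by exact_mod_cast (show 0 < a by omega)
    have hb0 : (0 : ℝ) < b := by exact_mod_cast (show 0 < b by omega)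
    have hX : (0 : ℝ) < X := by exact_mod_cast (show 0 < X by omega)
    have haX : (a : ℝ) ≤ X := by exact_mod_cast ha'.2
    have hlt' : (b : ℝ) < a := by exact_mod_cast hlt
    have h := Real.log_le_sub_one_of_pos (div_pos hb0 ha0)
    rw [Real.log_div hb0.ne' ha0.ne'] at h
    have e : (b : ℝ) / a - 1 = -(((a : ℝ) - b) / a) := by field_simp; ring
    rw [e] at h
    have h2 : ((a : ℝ) - b) / X ≤ ((a : ℝ) - b) / a :=
      div_le_div_of_nonneg_left (by linarith only [hlt']) ha0 haX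
    linarith only [h, h2]
  rcases lt_or_gt_of_ne hne with h | h
  · have h1 := key m n hm hn h
    have h2 : (n : ℝ) < m := by exact_mod_cast h
    rw [abs_of_pos (by linarith : (0 : ℝ) < (m : ℝ) - n)]
    exact h1.trans (le_abs_self _)
  · have h1 := key n m hn hm h
    have h2 : (m : ℝ) < n := by exact_mod_cast h
    rw [abs_sub_comm, abs_of_pos (by linarith only [h2] : (0 : ℝ) < (n : ℝ) - m), abs_sub_comm]
    exact h1.trans (le_abs_self _)

/-- the kernel -/
private noncomputable def mvK (X : ℕ) (T : ℝ) (m n : ℕ) : ℝ :=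
  if n = m then 2 * T else 2 * X * (1 / |(m : ℝ) - n|)

private theorem mvK_symm (X : ℕ) (T : ℝ) (m n : ℕ) : mvK X T m n = mvK X T n m := by
  unfold mvK
  by_cases h : n = m
  · rw [if_pos h, if_pos h.symm]
  · rw [if_neg h, if_neg (Ne.symm h), abs_sub_comm]

private theorem mvK_nonneg (X : ℕ) {T : ℝ} (hT : 0 ≤ T) (m n : ℕ) : 0 ≤ mvK X T m n := by
  unfold mvK
  split_ifs <;> positivity

private theorem mvK_row (X m : ℕ) (T : ℝ) (hm : m ∈ Icc 1 X) :
    ∑ n ∈ Icc 1 X, mvK X T m n ≤ 2 * T + 4 * X * (1 + Real.log X) := by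
  rw [← Finset.sum_filter_add_sum_filter_not (Icc 1 X) (fun n => n = m)]
  have h1 : ∑ n ∈ (Icc 1 X).filter (fun n => n = m), mvK X T m n = 2 * T := by
    rw [Finset.filter_eq' (Icc 1 X) m, if_pos hm, Finset.sum_singleton]
    unfold mvK
    rw [if_pos rfl]
  have h2 : ∑ n ∈ (Icc 1 X).filter (fun n => ¬ n = m), mvK X T m n
      = 2 * X * ∑ n ∈ (Icc 1 X).filter (fun n => n ≠ m), (1 : ℝ) / |(m : ℝ) - n| := by
    rw [Finset.mul_sum]
    refine Finset.sum_congr rfl fun n hn => ?_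
    unfold mvK
    rw [if_neg (Finset.mem_filter.1 hn).2]
  rw [h1, h2]
  have h3 := mul_le_mul_of_nonneg_left (mv_row X m hm) (by positivity : (0 : ℝ) ≤ 2 * X)
  linarith only [h3]

private theorem mv_kernel {X m n : ℕ} {T : ℝ} (hT : 0 ≤ T) (hm : m ∈ Icc 1 X) (hn : n ∈ Icc 1 X) :
    ‖∫ t in (-T)..T, Complex.exp ((((Real.log m - Real.log n : ℝ) : ℂ) * Complex.I) * (t : ℂ))‖
      ≤ mvK X T m n := by
  unfold mvK
  by_cases h : n = m
  · rw [if_pos h, h]
    have e : ∀ t : ℝ, Complex.exp ((((Real.log m - Real.log m : ℝ) : ℂ) * Complex.I) * (t : ℂ)) = 1 := by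
      intro t
      rw [sub_self]
      simp
    simp only [e]
    rw [intervalIntegral.integral_const]
    simp only [Complex.real_smul, mul_one]
    rw [Complex.norm_real, Real.norm_eq_abs, abs_of_nonneg (by linarith only [hT])]
    linarith
  · rw [if_neg h]
    have hX : (0 : ℝ) < X := by
      have := Finset.mem_Icc.1 hm
      exact_mod_cast (show 0 < X by omega)
    have hne : (m : ℝ) - n ≠ 0 := by
      intro h0
      apply h
      have : (n : ℝ) = m := by linarith only [h0]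
      exact_mod_cast this
    have hpos : 0 < |(m : ℝ) - n| := abs_pos.2 hne
    have hl := mv_log hm hn h
    have hlpos : 0 < |Real.log m - Real.log n| := lt_of_lt_of_le (div_pos hpos hX) hl
    refine (mv_int T _ (abs_pos.1 hlpos)).trans ?_
    calc 2 / |Real.log m - Real.log n| ≤ 2 / (|(m : ℝ) - n| / X) :=
          div_le_div_of_nonneg_left (by norm_num) (div_pos hpos hX) hl
      _ = 2 * X * (1 / |(m : ℝ) - n|) := by field_simp

theorem mean_v (a : ℕ → ℂ) (X : ℕ) (T : ℝ) (hX : 1 ≤ X) (hT : 0 ≤ T) :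
    ∫ t in (-T)..T, ‖∑ m ∈ Icc 1 X, a m * (m : ℂ) ^ (-(1 / 2 : ℂ) + t * Complex.I)‖ ^ 2
      ≤ (2 * T + 4 * X * (1 + Real.log X)) * ∑ m ∈ Icc 1 X, ‖a m‖ ^ 2 / m := by
  set b : ℕ → ℂ := fun m => a m * (m : ℂ) ^ (-(1 / 2 : ℂ)) with hb
  have hbn : ∀ m ∈ Icc 1 X, ‖b m‖ ^ 2 = ‖a m‖ ^ 2 / m := by
    intro m hm
    have hm' := Finset.mem_Icc.1 hm
    have hm0 : (0 : ℝ) < m := by exact_mod_cast (show 0 < m by omega)
    rw [hb]
    simp only
    rw [norm_mul, mul_pow, Complex.norm_natCast_cpow_of_pos (by omega)]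
    have e : (-(1 / 2 : ℂ)).re = -(1 / 2 : ℝ) := by simp
    rw [e, ← Real.rpow_natCast, ← Real.rpow_natCast, ← Real.rpow_mul hm0.le]
    norm_num
    rw [Real.rpow_neg_one]
    ring
  have hpt : ∀ t : ℝ, ∑ m ∈ Icc 1 X, a m * (m : ℂ) ^ (-(1 / 2 : ℂ) + t * Complex.I)
      = ∑ m ∈ Icc 1 X, b m * Complex.exp ((((Real.log m : ℝ) : ℂ) * Complex.I) * (t : ℂ)) := by
    intro t
    refine Finset.sum_congr rfl fun m hm => ?_
    have hm' := Finset.mem_Icc.1 hm
    have hm0 : (m : ℂ) ≠ 0 := by exact_mod_cast (show m ≠ 0 by omega)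
    rw [hb]
    simp only
    rw [Complex.cpow_add _ _ hm0, mul_assoc]
    congr 2
    rw [Complex.cpow_def_of_ne_zero hm0, ← Complex.natCast_log]
    congr 1
    ring
  simp_rw [hpt]
  refine (mv_expand b (fun m => Real.log m) (Icc 1 X) T).trans ?_
  calc ∑ m ∈ Icc 1 X, ∑ n ∈ Icc 1 X, ‖b m‖ * ‖b n‖ *
        ‖∫ t in (-T)..T, Complex.exp ((((Real.log m - Real.log n : ℝ) : ℂ) * Complex.I) * (t : ℂ))‖
      ≤ ∑ m ∈ Icc 1 X, ∑ n ∈ Icc 1 X, (‖b m‖ ^ 2 / 2 * mvK X T m n + ‖b n‖ ^ 2 / 2 * mvK X T m n) := by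
        refine Finset.sum_le_sum fun m hm => Finset.sum_le_sum fun n hn => ?_
        have h1 := mv_kernel hT hm hn
        have h2 : ‖b m‖ * ‖b n‖ ≤ ‖b m‖ ^ 2 / 2 + ‖b n‖ ^ 2 / 2 := by
          nlinarith only [sq_nonneg (‖b m‖ - ‖b n‖)]
        have h3 := mvK_nonneg X hT m n
        calc ‖b m‖ * ‖b n‖ * ‖∫ t in (-T)..T,
              Complex.exp ((((Real.log m - Real.log n : ℝ) : ℂ) * Complex.I) * (t : ℂ))‖
            ≤ ‖b m‖ * ‖b n‖ * mvK X T m n := mul_le_mul_of_nonneg_left h1 (by positivity)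
          _ ≤ (‖b m‖ ^ 2 / 2 + ‖b n‖ ^ 2 / 2) * mvK X T m n := mul_le_mul_of_nonneg_right h2 h3
          _ = _ := by ring
    _ = ∑ m ∈ Icc 1 X, ‖b m‖ ^ 2 * ∑ n ∈ Icc 1 X, mvK X T m n := by
        simp_rw [Finset.sum_add_distrib]
        have e1 : ∑ m ∈ Icc 1 X, ∑ n ∈ Icc 1 X, ‖b n‖ ^ 2 / 2 * mvK X T m n
            = ∑ m ∈ Icc 1 X, ∑ n ∈ Icc 1 X, ‖b m‖ ^ 2 / 2 * mvK X T m n := by
          rw [Finset.sum_comm]
          refine Finset.sum_congr rfl fun m _ => Finset.sum_congr rfl fun n _ => ?_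
          rw [mvK_symm]
        rw [e1, ← Finset.sum_add_distrib]
        refine Finset.sum_congr rfl fun m _ => ?_
        rw [← Finset.sum_add_distrib, Finset.mul_sum]
        refine Finset.sum_congr rfl fun n _ => ?_
        ring
    _ ≤ ∑ m ∈ Icc 1 X, ‖b m‖ ^ 2 * (2 * T + 4 * X * (1 + Real.log X)) := by
        refine Finset.sum_le_sum fun m hm => ?_
        exact mul_le_mul_of_nonneg_left (mvK_row X m T hm) (by positivity)
    _ = (2 * T + 4 * X * (1 + Real.log X)) * ∑ m ∈ Icc 1 X, ‖a m‖ ^ 2 / m := by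
        rw [Finset.mul_sum]
        refine Finset.sum_congr rfl fun m hm => ?_
        rw [hbn m hm]
        ring

end Pool.Agent.H35.W

end

section

/-!
# EHB Gs: Gaussian sum over spaced points

For points `α i` (`i ∈ J`) with pairwise distances `≥ δ` and any centre `c`:
`∑_i exp(-π (λ (α i - c))^2) ≤ 2 + 2/(λ δ)`.

Proof.  Split `J` into the points with `α i ≥ c` and the points with `α i < c`.  On the right the map
`i ↦ floor((α i - c)/δ)` is injective, and `∑_j exp(-π (λ δ j)^2) ≤ 1 + ∫_0^∞ exp(-π (λ δ t)^2) dt = 1 + 1/(2 λ δ)`.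
-/

set_option autoImplicit false

namespace Pool.Agent.H76.EHB

open Finset

private lemma gs_sum (a : ℝ) (ha : 0 < a) (M : ℕ) :
    ∑ j ∈ range M, Real.exp (-Real.pi * (a * j) ^ 2) ≤ 1 + 1 / (2 * a) := by
  have h0 : ∀ j : ℕ, 0 ≤ Real.exp (-Real.pi * (a * j) ^ 2) := fun j => (Real.exp_pos _).le
  have h1 : ∑ j ∈ range M, Real.exp (-Real.pi * (a * j) ^ 2)
      ≤ ∑ j ∈ range (M + 1), Real.exp (-Real.pi * (a * j) ^ 2) :=
    Finset.sum_le_sum_of_subset_of_nonneg (Finset.range_mono (Nat.le_succ _)) fun j _ _ => h0 j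
  refine h1.trans ?_
  rw [Finset.sum_range_succ']
  have hanti : AntitoneOn (fun x : ℝ => Real.exp (-Real.pi * (a * x) ^ 2)) (Set.Icc 0 (0 + (M : ℝ))) := by
    intro x hx y hy hxy
    simp only
    apply Real.exp_le_exp.mpr
    have h2 : (a * x) ^ 2 ≤ (a * y) ^ 2 := by
      apply pow_le_pow_left₀
      · exact mul_nonneg ha.le hx.1
      · exact mul_le_mul_of_nonneg_left hxy ha.le
    nlinarith [Real.pi_pos]
  have h3 := hanti.sum_le_integral
  have h4 : ∫ x in (0 : ℝ)..(0 + (M : ℝ)), Real.exp (-Real.pi * (a * x) ^ 2) ≤ 1 / (2 * a) := by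
    have hform : (fun x : ℝ => Real.exp (-Real.pi * (a * x) ^ 2))
        = fun x : ℝ => Real.exp (-(Real.pi * a ^ 2) * x ^ 2) := by
      funext x; congr 1; ring
    have hb : 0 < Real.pi * a ^ 2 := by positivity
    have hint : MeasureTheory.Integrable (fun x : ℝ => Real.exp (-Real.pi * (a * x) ^ 2)) := by
      rw [hform]; exact integrable_exp_neg_mul_sq hb
    have h5 : ∫ x in Set.Ioi (0 : ℝ), Real.exp (-Real.pi * (a * x) ^ 2) = 1 / (2 * a) := by
      rw [hform, integral_gaussian_Ioi]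
      have : Real.pi / (Real.pi * a ^ 2) = (1 / a) ^ 2 := by
        have := Real.pi_pos.ne'
        field_simp
      rw [this, Real.sqrt_sq (by positivity)]
      field_simp
    rw [intervalIntegral.integral_of_le (by positivity), ← h5]
    apply MeasureTheory.setIntegral_mono_set hint.integrableOn
    · exact Filter.Eventually.of_forall fun x => (Real.exp_pos _).le
    · exact (Set.Ioc_subset_Ioi_self).eventuallyLE
  have h5 : ∑ j ∈ range M, Real.exp (-Real.pi * (a * ((j + 1 : ℕ) : ℝ)) ^ 2) ≤ 1 / (2 * a) := by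
    refine le_trans (le_of_eq ?_) (h3.trans h4)
    refine Finset.sum_congr rfl fun j _ => ?_
    rw [zero_add]
  simp only [Nat.cast_zero, mul_zero]
  have h6 : Real.exp (-Real.pi * 0 ^ 2) = 1 := by simp
  rw [h6]
  linarith

private lemma gs_half {ι : Type*} (J : Finset ι) (α : ι → ℝ) (δ lam c : ℝ) (hδ : 0 < δ)
    (hlam : 0 < lam) (hsep : ∀ i ∈ J, ∀ j ∈ J, i ≠ j → δ ≤ |α i - α j|) (hc : ∀ i ∈ J, c ≤ α i) :
    ∑ i ∈ J, Real.exp (-Real.pi * (lam * (α i - c)) ^ 2) ≤ 1 + 1 / (2 * (lam * δ)) := by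
  classical
  set g : ι → ℕ := fun i => ⌊(α i - c) / δ⌋₊ with hg
  have hinj : Set.InjOn g J := by
    intro i hi j hj hij
    by_contra hne
    have h1 := hsep i hi j hj hne
    have hi0 : 0 ≤ (α i - c) / δ := div_nonneg (sub_nonneg.2 (hc i hi)) hδ.le
    have hj0 : 0 ≤ (α j - c) / δ := div_nonneg (sub_nonneg.2 (hc j hj)) hδ.le
    have a1 := Nat.floor_le hi0
    have a2 := Nat.lt_floor_add_one ((α i - c) / δ)
    have b1 := Nat.floor_le hj0
    have b2 := Nat.lt_floor_add_one ((α j - c) / δ)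
    simp only [hg] at hij
    rw [hij] at a1 a2
    have h2 : |(α i - c) / δ - (α j - c) / δ| < 1 := by
      rw [abs_lt]; constructor <;> linarith
    have h3 : (α i - c) / δ - (α j - c) / δ = (α i - α j) / δ := by ring
    rw [h3, abs_div, abs_of_pos hδ, div_lt_one hδ] at h2
    linarith
  have hle : ∀ i ∈ J, Real.exp (-Real.pi * (lam * (α i - c)) ^ 2)
      ≤ Real.exp (-Real.pi * ((lam * δ) * (g i : ℝ)) ^ 2) := by
    intro i hi
    apply Real.exp_le_exp.mpr
    have hi0 : 0 ≤ (α i - c) / δ := div_nonneg (sub_nonneg.2 (hc i hi)) hδ.le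
    have a1 := Nat.floor_le hi0
    have h2 : δ * (g i : ℝ) ≤ α i - c := by
      have := mul_le_mul_of_nonneg_left a1 hδ.le
      rwa [mul_div_cancel₀ _ hδ.ne'] at this
    have h3 : (lam * δ * (g i : ℝ)) ^ 2 ≤ (lam * (α i - c)) ^ 2 := by
      apply pow_le_pow_left₀
      · positivity
      · rw [mul_assoc]; exact mul_le_mul_of_nonneg_left h2 hlam.le
    nlinarith [Real.pi_pos]
  refine (Finset.sum_le_sum hle).trans ?_
  rw [← Finset.sum_image (s := J) (g := g)
    (f := fun j : ℕ => Real.exp (-Real.pi * ((lam * δ) * (j : ℝ)) ^ 2)) hinj]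
  obtain ⟨M, hM⟩ : ∃ M : ℕ, J.image g ⊆ range M := (J.image g).exists_nat_subset_range
  exact (Finset.sum_le_sum_of_subset_of_nonneg hM fun j _ _ => (Real.exp_pos _).le).trans
    (gs_sum (lam * δ) (by positivity) M)

theorem gauss_spaced {ι : Type*} (J : Finset ι) (α : ι → ℝ) (δ lam c : ℝ) (hδ : 0 < δ) (hlam : 0 < lam)
    (hsep : ∀ i ∈ J, ∀ j ∈ J, i ≠ j → δ ≤ |α i - α j|) :
    ∑ i ∈ J, Real.exp (-Real.pi * (lam * (α i - c)) ^ 2) ≤ 2 + 2 / (lam * δ) := by
  classical
  rw [← Finset.sum_filter_add_sum_filter_not J (fun i => c ≤ α i)]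
  have h1 := gs_half (J.filter (fun i => c ≤ α i)) α δ lam c hδ hlam
    (fun i hi j hj hij => hsep i (Finset.mem_filter.1 hi).1 j (Finset.mem_filter.1 hj).1 hij)
    (fun i hi => (Finset.mem_filter.1 hi).2)
  have h2 := gs_half (J.filter (fun i => ¬ c ≤ α i)) (fun i => -α i) δ lam (-c) hδ hlam
    (fun i hi j hj hij => by
      have := hsep i (Finset.mem_filter.1 hi).1 j (Finset.mem_filter.1 hj).1 hij
      rw [show -α i - -α j = -(α i - α j) by ring, abs_neg]
      exact this)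
    (fun i hi => by
      have := (Finset.mem_filter.1 hi).2
      linarith)
  have h3 : ∑ i ∈ J.filter (fun i => ¬ c ≤ α i), Real.exp (-Real.pi * (lam * (-α i - -c)) ^ 2)
      = ∑ i ∈ J.filter (fun i => ¬ c ≤ α i), Real.exp (-Real.pi * (lam * (α i - c)) ^ 2) := by
    refine Finset.sum_congr rfl fun i _ => ?_
    congr 1; ring
  rw [h3] at h2
  have h4 : 1 / (2 * (lam * δ)) + 1 / (2 * (lam * δ)) ≤ 2 / (lam * δ) := by
    have : 0 < lam * δ := by positivity
    rw [← add_div, div_le_div_iff₀ (by positivity) this]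
    nlinarith
  linarith

end Pool.Agent.H76.EHB

end

section

/-!
# EHB Vdc1: the inequality of Weyl and van der Corput

Put `z n = 0` outside `Ioc a b`.  `H ∑_n z_n = ∑_m ∑_{0 ≤ h < H} z_{m+h}` where `m` runs over at most `Y + H ≤ 2Y` integers; Cauchy:
`H^2 |∑ z|^2 ≤ (Y+H) ∑_m |∑_{h<H} z_{m+h}|^2 = (Y+H) ∑_{h1,h2<H} ∑_m z_{m+h1} conj z_{m+h2}
 ≤ (Y+H) (H Y + 2 H ∑_{h=1}^{H-1} |∑_n z_{n+h} conj z_n|)`, the inner sum over `n ∈ Ioc a (b-h)`.
(Work with integers or shift; with natural numbers take `m + h` with `m` from `a + 1 - H`: use `ℤ` or replace `z_{m+h}` by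
`z_{m-h}`, `m ∈ Ioc a (b + H)`.)
-/

set_option autoImplicit false

namespace Pool.Agent.H76.EHB

open Finset

private theorem vdc_shift (g : ℕ → ℂ) (c d h : ℕ) :
    ∑ n ∈ Ioc c d, g (n + h) = ∑ m ∈ Ioc (c + h) (d + h), g m := by
  rw [← Finset.map_add_right_Ioc, Finset.sum_map]
  simp

private theorem vdc_pair (z w : ℕ → ℂ) (a b H : ℕ)
    (hw1 : ∀ n ∈ Ioc a b, w n = z n) (hw0 : ∀ n, n ∉ Ioc a b → w n = 0) (h1 h2 : ℕ)
    (h12 : h1 ≤ h2) (h2H : h2 ≤ H) :
    ∑ m ∈ Ioc a (b + H), w (m - h1) * (starRingEnd ℂ) (w (m - h2))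
      = ∑ n ∈ Ioc a (b - (h2 - h1)), z (n + (h2 - h1)) * (starRingEnd ℂ) (z n) := by
  have e1 : ∑ n ∈ Ioc a (b - (h2 - h1)), z (n + (h2 - h1)) * (starRingEnd ℂ) (z n)
      = ∑ n ∈ Ioc a (b - (h2 - h1)), (fun m => w (m - h1) * (starRingEnd ℂ) (w (m - h2))) (n + h2) := by
    refine Finset.sum_congr rfl fun n hn => ?_
    rw [mem_Ioc] at hn
    show z (n + (h2 - h1)) * (starRingEnd ℂ) (z n)
      = w (n + h2 - h1) * (starRingEnd ℂ) (w (n + h2 - h2))
    have e2 : n + h2 - h2 = n := by omega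
    have e3 : n + h2 - h1 = n + (h2 - h1) := by omega
    rw [e2, e3, hw1 n (mem_Ioc.2 ⟨by omega, by omega⟩), hw1 _ (mem_Ioc.2 ⟨by omega, by omega⟩)]
  rw [e1, vdc_shift (fun m => w (m - h1) * (starRingEnd ℂ) (w (m - h2))) _ _ h2]
  symm
  apply Finset.sum_subset
  · intro m hm
    rw [mem_Ioc] at hm ⊢
    omega
  · intro m hm hm2
    rw [mem_Ioc] at hm hm2
    by_cases hc : m - h1 ∈ Ioc a b
    · have hc2 : m - h2 ∉ Ioc a b := by
        intro hc2
        rw [mem_Ioc] at hc hc2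
        apply hm2
        omega
      rw [hw0 _ hc2]; simp
    · rw [hw0 _ hc]; simp

private theorem vdc_single (z w : ℕ → ℂ) (a b H : ℕ)
    (hw1 : ∀ n ∈ Ioc a b, w n = z n) (hw0 : ∀ n, n ∉ Ioc a b → w n = 0) (h : ℕ) (hH : h ≤ H) :
    ∑ m ∈ Ioc a (b + H), w (m - h) = ∑ n ∈ Ioc a b, z n := by
  have e1 : ∑ n ∈ Ioc a b, z n = ∑ n ∈ Ioc a b, (fun m => w (m - h)) (n + h) := by
    refine Finset.sum_congr rfl fun n hn => ?_
    show z n = w (n + h - h)
    rw [show n + h - h = n by omega, hw1 n hn]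
  rw [e1, vdc_shift (fun m => w (m - h)) _ _ h]
  symm
  apply Finset.sum_subset
  · intro m hm
    rw [mem_Ioc] at hm ⊢
    omega
  · intro m hm hm2
    rw [mem_Ioc] at hm hm2
    refine hw0 _ fun hc => ?_
    rw [mem_Ioc] at hc
    apply hm2
    omega

theorem vdc_step (z : ℕ → ℂ) (hz : ∀ n, ‖z n‖ ≤ 1) (a b Y H : ℕ) (hab : b - a ≤ Y) (hH : 1 ≤ H)
    (hHY : H ≤ Y) :
    ‖∑ n ∈ Ioc a b, z n‖ ^ 2
      ≤ 2 * (Y : ℝ) ^ 2 / H + 4 * (Y : ℝ) / H * ∑ h ∈ Icc 1 H,
          ‖∑ n ∈ Ioc a (b - h), z (n + h) * (starRingEnd ℂ) (z n)‖ := by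
  classical
  set w : ℕ → ℂ := fun n => if n ∈ Ioc a b then z n else 0 with hw
  have hw1 : ∀ n ∈ Ioc a b, w n = z n := fun n hn => by simp only [hw, if_pos hn]
  have hw0 : ∀ n, n ∉ Ioc a b → w n = 0 := fun n hn => by simp only [hw, if_neg hn]
  set C : ℕ → ℝ := fun h => ‖∑ n ∈ Ioc a (b - h), z (n + h) * (starRingEnd ℂ) (z n)‖ with hC
  have hC0 : ∀ h, 0 ≤ C h := fun h => norm_nonneg _
  set Sg : ℝ := ∑ h ∈ Icc 1 H, C h with hSg
  have hSg0 : 0 ≤ Sg := Finset.sum_nonneg fun h _ => hC0 h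
  have hCz : C 0 ≤ Y := by
    simp only [hC]
    refine (norm_sum_le _ _).trans ?_
    calc ∑ n ∈ Ioc a (b - 0), ‖z (n + 0) * (starRingEnd ℂ) (z n)‖
        ≤ ∑ n ∈ Ioc a (b - 0), (1:ℝ) := by
          refine Finset.sum_le_sum fun n _ => ?_
          rw [norm_mul, RCLike.norm_conj]
          calc ‖z (n + 0)‖ * ‖z n‖ ≤ 1 * 1 := mul_le_mul (hz _) (hz _) (norm_nonneg _) (by norm_num)
            _ = 1 := by norm_num
      _ = ((b - a : ℕ) : ℝ) := by simp
      _ ≤ Y := by exact_mod_cast hab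
  -- pairs
  set T : ℕ → ℕ → ℂ := fun h1 h2 => ∑ m ∈ Ioc a (b + H), w (m - h1) * (starRingEnd ℂ) (w (m - h2))
    with hT
  have hTle : ∀ h1 h2, h1 ≤ h2 → h2 ≤ H → ‖T h1 h2‖ = C (h2 - h1) := by
    intro h1 h2 h12 h2H
    simp only [hT, hC]
    rw [vdc_pair z w a b H hw1 hw0 h1 h2 h12 h2H]
  have hTsymm : ∀ h1 h2, ‖T h1 h2‖ = ‖T h2 h1‖ := by
    intro h1 h2
    rw [← RCLike.norm_conj (T h1 h2)]
    congr 1
    simp only [hT, map_sum, map_mul, Complex.conj_conj]
    exact Finset.sum_congr rfl fun m _ => mul_comm _ _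
  -- row sums
  have hrow : ∀ h1 ∈ range H, ∑ h2 ∈ range H, ‖T h1 h2‖ ≤ Y + 2 * Sg := by
    intro h1 hh1
    rw [mem_range] at hh1
    have hsplit : ∑ h2 ∈ range H, ‖T h1 h2‖
        = ∑ h2 ∈ range h1, ‖T h1 h2‖ + ∑ h2 ∈ Ico h1 H, ‖T h1 h2‖ := by
      rw [Finset.sum_range_add_sum_Ico _ hh1.le]
    rw [hsplit]
    have hA : ∑ h2 ∈ range h1, ‖T h1 h2‖ ≤ Sg := by
      have e : ∑ h2 ∈ range h1, ‖T h1 h2‖ = ∑ h2 ∈ range h1, C (h1 - h2) := by
        refine Finset.sum_congr rfl fun h2 hh2 => ?_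
        rw [mem_range] at hh2
        rw [hTsymm, hTle h2 h1 hh2.le hh1.le]
      rw [e]
      have e2 : ∑ h2 ∈ range h1, C (h1 - h2) = ∑ d ∈ Icc 1 h1, C d := by
        refine Finset.sum_nbij' (fun h2 => h1 - h2) (fun d => h1 - d) ?_ ?_ ?_ ?_ ?_
        · intro x hx
          rw [mem_range] at hx
          rw [mem_Icc]; omega
        · intro x hx
          rw [mem_Icc] at hx
          rw [mem_range]; omega
        · intro x hx
          rw [mem_range] at hx
          show h1 - (h1 - x) = x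
          omega
        · intro x hx
          rw [mem_Icc] at hx
          show h1 - (h1 - x) = x
          omega
        · intro x _
          rfl
      rw [e2]
      refine Finset.sum_le_sum_of_subset_of_nonneg ?_ fun h _ _ => hC0 h
      exact Finset.Icc_subset_Icc le_rfl hh1.le
    have hB : ∑ h2 ∈ Ico h1 H, ‖T h1 h2‖ ≤ Y + Sg := by
      have e : ∑ h2 ∈ Ico h1 H, ‖T h1 h2‖ = ∑ h2 ∈ Ico h1 H, C (h2 - h1) := by
        refine Finset.sum_congr rfl fun h2 hh2 => ?_
        rw [mem_Ico] at hh2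
        rw [hTle h1 h2 hh2.1 hh2.2.le]
      rw [e, Finset.sum_Ico_eq_sum_range]
      have e2 : ∑ i ∈ range (H - h1), C (h1 + i - h1) = ∑ i ∈ range (H - h1), C i :=
        Finset.sum_congr rfl fun i _ => by rw [Nat.add_sub_cancel_left]
      rw [e2]
      obtain ⟨m, hm⟩ : ∃ m, H - h1 = m + 1 := ⟨H - h1 - 1, by omega⟩
      rw [hm, Finset.sum_range_succ']
      have e3 : ∑ k ∈ range m, C (k + 1) ≤ Sg := by
        have e4 : ∑ k ∈ range m, C (k + 1) = ∑ d ∈ Ico 1 (m + 1), C d := by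
          rw [Finset.sum_Ico_eq_sum_range]
          simp [add_comm]
        rw [e4]
        refine Finset.sum_le_sum_of_subset_of_nonneg ?_ fun h _ _ => hC0 h
        intro x hx
        rw [mem_Ico] at hx
        rw [mem_Icc]; omega
      linarith
    linarith
  -- the main identity
  have hS1 : (H : ℂ) * ∑ n ∈ Ioc a b, z n = ∑ m ∈ Ioc a (b + H), ∑ h ∈ range H, w (m - h) := by
    rw [Finset.sum_comm]
    rw [Finset.sum_congr rfl (fun h hh => vdc_single z w a b H hw1 hw0 h (by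
      rw [mem_range] at hh; exact hh.le))]
    simp
  have hS2 : ((∑ m ∈ Ioc a (b + H), ‖∑ h ∈ range H, w (m - h)‖ ^ 2 : ℝ) : ℂ)
      = ∑ h1 ∈ range H, ∑ h2 ∈ range H, T h1 h2 := by
    push_cast
    have e : ∀ m, ((‖∑ h ∈ range H, w (m - h)‖ : ℂ)) ^ 2
        = ∑ h1 ∈ range H, ∑ h2 ∈ range H, w (m - h1) * (starRingEnd ℂ) (w (m - h2)) := by
      intro m
      rw [← Complex.mul_conj']
      rw [map_sum, Finset.sum_mul_sum]
    rw [Finset.sum_congr rfl (fun m _ => e m), Finset.sum_comm]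
    refine Finset.sum_congr rfl fun h1 _ => ?_
    rw [Finset.sum_comm]
  have hS3 : ∑ m ∈ Ioc a (b + H), ‖∑ h ∈ range H, w (m - h)‖ ^ 2 ≤ H * (Y + 2 * Sg) := by
    have hnn : 0 ≤ ∑ m ∈ Ioc a (b + H), ‖∑ h ∈ range H, w (m - h)‖ ^ 2 :=
      Finset.sum_nonneg fun m _ => by positivity
    have e : ∑ m ∈ Ioc a (b + H), ‖∑ h ∈ range H, w (m - h)‖ ^ 2
        = ‖((∑ m ∈ Ioc a (b + H), ‖∑ h ∈ range H, w (m - h)‖ ^ 2 : ℝ) : ℂ)‖ := by
      rw [Complex.norm_real, Real.norm_of_nonneg hnn]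
    rw [e, hS2]
    refine (norm_sum_le _ _).trans ?_
    calc ∑ h1 ∈ range H, ‖∑ h2 ∈ range H, T h1 h2‖
        ≤ ∑ h1 ∈ range H, (Y + 2 * Sg) :=
          Finset.sum_le_sum fun h1 hh1 => (norm_sum_le _ _).trans (hrow h1 hh1)
      _ = H * (Y + 2 * Sg) := by
        rw [Finset.sum_const, card_range, nsmul_eq_mul]
  have hcs : ‖∑ m ∈ Ioc a (b + H), ∑ h ∈ range H, w (m - h)‖ ^ 2
      ≤ ((Ioc a (b + H)).card : ℝ) * ∑ m ∈ Ioc a (b + H), ‖∑ h ∈ range H, w (m - h)‖ ^ 2 := by
    have h1 : ‖∑ m ∈ Ioc a (b + H), ∑ h ∈ range H, w (m - h)‖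
        ≤ ∑ m ∈ Ioc a (b + H), ‖∑ h ∈ range H, w (m - h)‖ := norm_sum_le _ _
    have h2 : (∑ m ∈ Ioc a (b + H), ‖∑ h ∈ range H, w (m - h)‖) ^ 2
        ≤ ((Ioc a (b + H)).card : ℝ) * ∑ m ∈ Ioc a (b + H), ‖∑ h ∈ range H, w (m - h)‖ ^ 2 :=
      sq_sum_le_card_mul_sum_sq
    exact (pow_le_pow_left₀ (norm_nonneg _) h1 2).trans h2
  have hcard : ((Ioc a (b + H)).card : ℝ) ≤ 2 * Y := by
    rw [Nat.card_Ioc]
    have : b + H - a ≤ 2 * Y := by omega
    exact_mod_cast this
  have hH0 : (0:ℝ) < H := by exact_mod_cast hH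
  have hfin : (H:ℝ) ^ 2 * ‖∑ n ∈ Ioc a b, z n‖ ^ 2 ≤ 2 * Y * (H * (Y + 2 * Sg)) := by
    have e : (H:ℝ) ^ 2 * ‖∑ n ∈ Ioc a b, z n‖ ^ 2 = ‖(H : ℂ) * ∑ n ∈ Ioc a b, z n‖ ^ 2 := by
      rw [norm_mul, mul_pow, Complex.norm_natCast]
    rw [e, hS1]
    refine hcs.trans ?_
    have hnn : 0 ≤ ∑ m ∈ Ioc a (b + H), ‖∑ h ∈ range H, w (m - h)‖ ^ 2 :=
      Finset.sum_nonneg fun m _ => by positivity
    exact mul_le_mul hcard hS3 hnn (by positivity)
  have e : 2 * (Y : ℝ) ^ 2 / H + 4 * (Y : ℝ) / H * Sg = 2 * Y * (H * (Y + 2 * Sg)) / H ^ 2 := by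
    field_simp; ring
  rw [e, le_div_iff₀ (by positivity)]
  linarith

end Pool.Agent.H76.EHB

end

section

/-!
# EHB Lap: iterated differences of `1/(x+β)`

`LL hs β x = ∫_0^∞ exp(-(x+β) s) ∏_{h ∈ hs} (1 - exp(-h s)) ds` for `x + β > 0`, all `h > 0`.
`LL_nil`: `1/(x+β)`.  `LL_cons`: `(1 - e^{-hs}) e^{-(x+β)s} = e^{-(x+β)s} - e^{-(x+h+β)s}`.
`LL_le`, `LL_ge`: `h s e^{-hs} ≤ 1 - e^{-hs} ≤ h s` and `∫_0^∞ e^{-c s} s^J ds = J!/c^{J+1}` (`Real.integral_rpow_mul_exp_neg_mul_Ioi` or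
`integral_exp_neg_mul_rpow`...).
`LL_deriv`: by induction on `hs` from `LL_cons` (derivative of `LL (h :: hs)` at `x` is the difference of the derivatives), the derivative at `x`
is `-∫_0^∞ s exp(-(x+β)s) ∏(1 - e^{-hs}) ds ≤ 0`; it may be simplest to define `LD` by this integral, prove `LD_nil` (`1/(x+β)^2`), `LD_cons`,
`0 ≤ LD`, `HasDerivAt (LL hs β) (-LD hs β x) x`, and the continuity of `LD` by the same induction.
-/

set_option autoImplicit false

namespace Pool.Agent.H76.EHB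

open MeasureTheory

noncomputable def LL (hs : List ℝ) (β x : ℝ) : ℝ :=
  ∫ s in Set.Ioi (0 : ℝ), Real.exp (-(x + β) * s) * (hs.map (fun h => 1 - Real.exp (-h * s))).prod

noncomputable def LD (hs : List ℝ) (β x : ℝ) : ℝ :=
  ∫ s in Set.Ioi (0 : ℝ), s * (Real.exp (-(x + β) * s) * (hs.map (fun h => 1 - Real.exp (-h * s))).prod)

private lemma lap_prod_nonneg (hs : List ℝ) (hpos : ∀ g ∈ hs, 0 < g) {s : ℝ} (h0 : 0 < s) :
    0 ≤ (hs.map (fun h => 1 - Real.exp (-h * s))).prod := by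
  induction hs with
  | nil => simp
  | cons a l ih =>
    rw [List.map_cons, List.prod_cons]
    have ha : 0 < a := hpos a (by simp)
    have h1 : Real.exp (-a * s) ≤ 1 := by
      rw [Real.exp_le_one_iff]
      nlinarith
    exact mul_nonneg (by linarith) (ih (fun g hg => hpos g (by simp [hg])))

private lemma lap_prod_le_one (hs : List ℝ) (hpos : ∀ g ∈ hs, 0 < g) {s : ℝ} (h0 : 0 < s) :
    (hs.map (fun h => 1 - Real.exp (-h * s))).prod ≤ 1 := by
  induction hs with
  | nil => simp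
  | cons a l ih =>
    rw [List.map_cons, List.prod_cons]
    have h1 : 0 < Real.exp (-a * s) := Real.exp_pos _
    have h2 := ih (fun g hg => hpos g (by simp [hg]))
    have h3 := lap_prod_nonneg l (fun g hg => hpos g (by simp [hg])) h0
    have ha : 0 < a := hpos a (by simp)
    have h4 : Real.exp (-a * s) ≤ 1 := by
      rw [Real.exp_le_one_iff]
      nlinarith
    calc (1 - Real.exp (-a * s)) * (l.map (fun h => 1 - Real.exp (-h * s))).prod
        ≤ 1 * 1 := mul_le_mul (by linarith) h2 h3 (by norm_num)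
      _ = 1 := by norm_num

private lemma lap_prod_le (hs : List ℝ) (hpos : ∀ g ∈ hs, 0 < g) {s : ℝ} (h0 : 0 < s) :
    (hs.map (fun h => 1 - Real.exp (-h * s))).prod ≤ hs.prod * s ^ hs.length := by
  induction hs with
  | nil => simp
  | cons a l ih =>
    rw [List.map_cons, List.prod_cons, List.prod_cons, List.length_cons]
    have h2 := ih (fun g hg => hpos g (by simp [hg]))
    have h3 := lap_prod_nonneg l (fun g hg => hpos g (by simp [hg])) h0
    have ha : 0 < a := hpos a (by simp)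
    have h4 : 1 - Real.exp (-a * s) ≤ a * s := by
      have := Real.add_one_le_exp (-a * s)
      nlinarith
    calc (1 - Real.exp (-a * s)) * (l.map (fun h => 1 - Real.exp (-h * s))).prod
        ≤ (a * s) * (l.prod * s ^ l.length) := mul_le_mul h4 h2 h3 (by positivity)
      _ = a * l.prod * s ^ (l.length + 1) := by ring

private lemma lap_prod_pos (hs : List ℝ) (hpos : ∀ g ∈ hs, 0 < g) : 0 < hs.prod := by
  induction hs with
  | nil => simp
  | cons a l ih =>
    rw [List.prod_cons]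
    exact mul_pos (hpos a (by simp)) (ih (fun g hg => hpos g (by simp [hg])))

private lemma lap_sum_nonneg (hs : List ℝ) (hpos : ∀ g ∈ hs, 0 < g) : 0 ≤ hs.sum := by
  induction hs with
  | nil => simp
  | cons a l ih =>
    rw [List.sum_cons]
    have := hpos a (by simp)
    have := ih (fun g hg => hpos g (by simp [hg]))
    linarith

private lemma lap_prod_ge (hs : List ℝ) (hpos : ∀ g ∈ hs, 0 < g) {s : ℝ} (h0 : 0 < s) :
    hs.prod * s ^ hs.length * Real.exp (-hs.sum * s) ≤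
      (hs.map (fun h => 1 - Real.exp (-h * s))).prod := by
  induction hs with
  | nil => simp
  | cons a l ih =>
    rw [List.map_cons, List.prod_cons, List.prod_cons, List.length_cons, List.sum_cons]
    have h2 := ih (fun g hg => hpos g (by simp [hg]))
    have hl := lap_prod_pos l (fun g hg => hpos g (by simp [hg]))
    have h3 := lap_prod_nonneg l (fun g hg => hpos g (by simp [hg])) h0
    have ha : 0 < a := hpos a (by simp)
    have h4 : a * s * Real.exp (-a * s) ≤ 1 - Real.exp (-a * s) := by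
      have h5 := Real.add_one_le_exp (a * s)
      have h6 : Real.exp (a * s) * Real.exp (-a * s) = 1 := by
        rw [← Real.exp_add]; simp
      have h7 := Real.exp_pos (-a * s)
      nlinarith [mul_le_mul_of_nonneg_right h5 h7.le]
    have h8 : Real.exp (-(a + l.sum) * s) = Real.exp (-a * s) * Real.exp (-l.sum * s) := by
      rw [← Real.exp_add]; ring_nf
    calc a * l.prod * s ^ (l.length + 1) * Real.exp (-(a + l.sum) * s)
        = (a * s * Real.exp (-a * s)) * (l.prod * s ^ l.length * Real.exp (-l.sum * s)) := by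
          rw [h8]; ring
      _ ≤ (1 - Real.exp (-a * s)) * (l.map (fun h => 1 - Real.exp (-h * s))).prod := by
          apply mul_le_mul h4 h2 (by positivity)
          exact le_trans (by positivity) h4

private lemma lap_cont (hs : List ℝ) :
    Continuous (fun s : ℝ => (hs.map (fun h => 1 - Real.exp (-h * s))).prod) := by
  induction hs with
  | nil => simpa using continuous_const
  | cons a l ih =>
    simp only [List.map_cons, List.prod_cons]
    fun_prop

private lemma lap_pow_int (n : ℕ) {c : ℝ} (hc : 0 < c) :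
    IntegrableOn (fun s : ℝ => s ^ n * Real.exp (-c * s)) (Set.Ioi 0) := by
  have h := integrableOn_rpow_mul_exp_neg_mul_rpow (p := 1) (s := (n : ℝ)) (b := c)
    (by have : (0 : ℝ) ≤ n := Nat.cast_nonneg n
        linarith) one_pos hc
  refine h.congr_fun (fun s _ => ?_) measurableSet_Ioi
  simp [Real.rpow_natCast]

private lemma lap_pow_integral (n : ℕ) {c : ℝ} (hc : 0 < c) :
    ∫ s in Set.Ioi (0 : ℝ), s ^ n * Real.exp (-c * s) = (n.factorial : ℝ) / c ^ (n + 1) := by
  have h := Real.integral_rpow_mul_exp_neg_mul_Ioi (a := (n : ℝ) + 1) (r := c) (by positivity) hc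
  have h1 : ∫ s in Set.Ioi (0 : ℝ), s ^ n * Real.exp (-c * s)
      = ∫ t : ℝ in Set.Ioi 0, t ^ ((n : ℝ) + 1 - 1) * Real.exp (-(c * t)) := by
    apply setIntegral_congr_fun measurableSet_Ioi
    intro s _
    simp [Real.rpow_natCast]
  rw [h1, h, Real.Gamma_nat_eq_factorial]
  have h2 : (1 / c) ^ ((n : ℝ) + 1) = 1 / c ^ (n + 1) := by
    have : ((n : ℝ) + 1) = ((n + 1 : ℕ) : ℝ) := by push_cast; ring
    rw [this, Real.rpow_natCast, one_div, one_div, inv_pow]
  rw [h2]
  ring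

private lemma lap_int (hs : List ℝ) (hpos : ∀ g ∈ hs, 0 < g) {c : ℝ} (hc : 0 < c) :
    IntegrableOn (fun s : ℝ => Real.exp (-c * s) * (hs.map (fun h => 1 - Real.exp (-h * s))).prod)
      (Set.Ioi 0) := by
  have h := lap_pow_int 0 hc
  refine Integrable.mono' h ?_ ?_
  · exact (Continuous.aestronglyMeasurable (by
      have := lap_cont hs
      fun_prop))
  · refine (ae_restrict_iff' measurableSet_Ioi).mpr (Filter.Eventually.of_forall (fun s hs0 => ?_))
    have h0 : 0 < s := hs0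
    have h1 := lap_prod_nonneg hs hpos h0
    have h2 := lap_prod_le_one hs hpos h0
    have h3 := Real.exp_pos (-c * s)
    rw [Real.norm_of_nonneg (by positivity)]
    simp only [pow_zero, one_mul]
    nlinarith

private lemma lap_int' (hs : List ℝ) (hpos : ∀ g ∈ hs, 0 < g) {c : ℝ} (hc : 0 < c) :
    IntegrableOn (fun s : ℝ =>
      s * (Real.exp (-c * s) * (hs.map (fun h => 1 - Real.exp (-h * s))).prod)) (Set.Ioi 0) := by
  have h := lap_pow_int 1 hc
  refine Integrable.mono' h ?_ ?_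
  · exact (Continuous.aestronglyMeasurable (by
      have := lap_cont hs
      fun_prop))
  · refine (ae_restrict_iff' measurableSet_Ioi).mpr (Filter.Eventually.of_forall (fun s hs0 => ?_))
    have h0 : 0 < s := hs0
    have h1 := lap_prod_nonneg hs hpos h0
    have h2 := lap_prod_le_one hs hpos h0
    have h3 := Real.exp_pos (-c * s)
    rw [Real.norm_of_nonneg (by positivity)]
    simp only [pow_one]
    apply mul_le_mul_of_nonneg_left _ h0.le
    nlinarith

theorem LL_nil (β x : ℝ) (hx : 0 < x + β) : LL [] β x = 1 / (x + β) := by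
  have h := lap_pow_integral 0 hx
  simp only [pow_zero, one_mul, Nat.factorial_zero, Nat.cast_one, zero_add, pow_one] at h
  simpa [LL] using h

theorem LL_cons (h : ℝ) (hs : List ℝ) (β x : ℝ) (hx : 0 < x + β) (hh : 0 < h) (hpos : ∀ g ∈ hs, 0 < g) :
    LL (h :: hs) β x = LL hs β x - LL hs β (x + h) := by
  have h1 := lap_int hs hpos hx
  have h2 := lap_int hs hpos (c := x + h + β) (by linarith)
  unfold LL
  rw [← integral_sub h1 h2]
  apply setIntegral_congr_fun measurableSet_Ioi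
  intro s _
  simp only [List.map_cons, List.prod_cons]
  have h3 : Real.exp (-(x + h + β) * s) = Real.exp (-(x + β) * s) * Real.exp (-h * s) := by
    rw [← Real.exp_add]; ring_nf
  rw [h3]
  ring

private lemma LD_nil (β x : ℝ) (hx : 0 < x + β) : LD [] β x = 1 / (x + β) ^ 2 := by
  have h := lap_pow_integral 1 hx
  simp only [pow_one, Nat.factorial_one, Nat.cast_one, one_add_one_eq_two] at h
  simpa [LD] using h

private lemma LD_cons (h : ℝ) (hs : List ℝ) (β x : ℝ) (hx : 0 < x + β) (hh : 0 < h)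
    (hpos : ∀ g ∈ hs, 0 < g) :
    LD (h :: hs) β x = LD hs β x - LD hs β (x + h) := by
  have h1 := lap_int' hs hpos hx
  have h2 := lap_int' hs hpos (c := x + h + β) (by linarith)
  unfold LD
  rw [← integral_sub h1 h2]
  apply setIntegral_congr_fun measurableSet_Ioi
  intro s _
  simp only [List.map_cons, List.prod_cons]
  have h3 : Real.exp (-(x + h + β) * s) = Real.exp (-(x + β) * s) * Real.exp (-h * s) := by
    rw [← Real.exp_add]; ring_nf
  rw [h3]
  ring

theorem LL_le (hs : List ℝ) (β x : ℝ) (hx : 0 < x + β) (hpos : ∀ g ∈ hs, 0 < g) :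
    LL hs β x ≤ (hs.length.factorial : ℝ) * hs.prod / (x + β) ^ (hs.length + 1) := by
  have h1 := lap_int hs hpos hx
  have h2 := (lap_pow_int hs.length hx).const_mul hs.prod
  have h3 : LL hs β x ≤ ∫ s in Set.Ioi (0 : ℝ),
      hs.prod * (s ^ hs.length * Real.exp (-(x + β) * s)) := by
    unfold LL
    apply setIntegral_mono_on h1 h2 measurableSet_Ioi
    intro s hs0
    have h0 : 0 < s := hs0
    have h4 := lap_prod_le hs hpos h0
    have h5 := Real.exp_pos (-(x + β) * s)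
    nlinarith [mul_le_mul_of_nonneg_left h4 h5.le]
  rw [integral_const_mul, lap_pow_integral hs.length hx] at h3
  calc LL hs β x ≤ hs.prod * ((hs.length.factorial : ℝ) / (x + β) ^ (hs.length + 1)) := h3
    _ = (hs.length.factorial : ℝ) * hs.prod / (x + β) ^ (hs.length + 1) := by ring

theorem LL_ge (hs : List ℝ) (β x : ℝ) (hx : 0 < x + β) (hpos : ∀ g ∈ hs, 0 < g) :
    (hs.length.factorial : ℝ) * hs.prod / (x + β + hs.sum) ^ (hs.length + 1) ≤ LL hs β x := by
  have h1 := lap_int hs hpos hx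
  have hs0 := lap_sum_nonneg hs hpos
  have hx2 : 0 < x + β + hs.sum := by linarith
  have h2 := (lap_pow_int hs.length hx2).const_mul hs.prod
  have h3 : ∫ s in Set.Ioi (0 : ℝ),
      hs.prod * (s ^ hs.length * Real.exp (-(x + β + hs.sum) * s)) ≤ LL hs β x := by
    unfold LL
    apply setIntegral_mono_on h2 h1 measurableSet_Ioi
    intro s hs0
    have h0 : 0 < s := hs0
    have h4 := lap_prod_ge hs hpos h0
    have h5 := Real.exp_pos (-(x + β) * s)
    have h6 : Real.exp (-(x + β + hs.sum) * s)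
        = Real.exp (-(x + β) * s) * Real.exp (-hs.sum * s) := by
      rw [← Real.exp_add]; ring_nf
    rw [h6]
    calc hs.prod * (s ^ hs.length * (Real.exp (-(x + β) * s) * Real.exp (-hs.sum * s)))
        = Real.exp (-(x + β) * s) * (hs.prod * s ^ hs.length * Real.exp (-hs.sum * s)) := by ring
      _ ≤ Real.exp (-(x + β) * s) * (hs.map (fun h => 1 - Real.exp (-h * s))).prod :=
          mul_le_mul_of_nonneg_left h4 h5.le
  rw [integral_const_mul, lap_pow_integral hs.length hx2] at h3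
  calc (hs.length.factorial : ℝ) * hs.prod / (x + β + hs.sum) ^ (hs.length + 1)
      = hs.prod * ((hs.length.factorial : ℝ) / (x + β + hs.sum) ^ (hs.length + 1)) := by ring
    _ ≤ LL hs β x := h3

theorem LD_nonneg (hs : List ℝ) (β x : ℝ) (hpos : ∀ g ∈ hs, 0 < g) : 0 ≤ LD hs β x := by
  unfold LD
  apply setIntegral_nonneg measurableSet_Ioi
  intro s hs0
  have h0 : 0 < s := hs0
  have h1 := lap_prod_nonneg hs hpos h0
  positivity

theorem LL_hasDerivAt (hs : List ℝ) (β x : ℝ) (hx : 0 < x + β) (hpos : ∀ g ∈ hs, 0 < g) :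
    HasDerivAt (LL hs β) (-LD hs β x) x := by
  induction hs generalizing x with
  | nil =>
    rw [LD_nil β x hx]
    have h1 : HasDerivAt (fun y : ℝ => (y + β)⁻¹) (-1 / (x + β) ^ 2) x :=
      ((hasDerivAt_id x).add_const β).inv hx.ne'
    have h2 : (LL [] β) =ᶠ[nhds x] (fun y : ℝ => (y + β)⁻¹) := by
      have h3 : ∀ᶠ y in nhds x, -β < y := lt_mem_nhds (by linarith)
      filter_upwards [h3] with y hy
      rw [LL_nil β y (by linarith), one_div]
    have h4 := h1.congr_of_eventuallyEq h2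
    have h5 : -(1 / (x + β) ^ 2) = -1 / (x + β) ^ 2 := by ring
    rw [h5]
    exact h4
  | cons a l ih =>
    have ha : 0 < a := hpos a (by simp)
    have hl : ∀ g ∈ l, 0 < g := fun g hg => hpos g (by simp [hg])
    rw [LD_cons a l β x hx ha hl]
    have h1 := ih x hx hl
    have h2 := (ih (x + a) (by linarith) hl).comp_add_const x a
    have h3 : (LL (a :: l) β) =ᶠ[nhds x] (fun y : ℝ => LL l β y - LL l β (y + a)) := by
      have h4 : ∀ᶠ y in nhds x, -β < y := lt_mem_nhds (by linarith)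
      filter_upwards [h4] with y hy
      exact LL_cons a l β y (by linarith) ha hl
    have h5 := (h1.sub h2).congr_of_eventuallyEq h3
    have h6 : -(LD l β x - LD l β (x + a)) = -LD l β x - -LD l β (x + a) := by ring
    rw [h6]
    exact h5

theorem LD_continuousOn (hs : List ℝ) (β : ℝ) (hpos : ∀ g ∈ hs, 0 < g) :
    ContinuousOn (LD hs β) (Set.Ioi (-β)) := by
  induction hs with
  | nil =>
    have h1 : ContinuousOn (fun y : ℝ => 1 / (y + β) ^ 2) (Set.Ioi (-β)) := by
      apply ContinuousOn.div continuousOn_const (by fun_prop)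
      intro y hy
      have : 0 < y + β := by
        have : -β < y := hy
        linarith
      positivity
    refine h1.congr (fun y hy => ?_)
    have : -β < y := hy
    exact LD_nil β y (by linarith)
  | cons a l ih =>
    have ha : 0 < a := hpos a (by simp)
    have hl : ∀ g ∈ l, 0 < g := fun g hg => hpos g (by simp [hg])
    have h1 := ih hl
    have h2 : ContinuousOn (fun y : ℝ => LD l β (y + a)) (Set.Ioi (-β)) := by
      refine h1.comp (by fun_prop) (fun y hy => ?_)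
      have : -β < y := hy
      show -β < y + a
      linarith
    refine (h1.sub h2).congr (fun y hy => ?_)
    have : -β < y := hy
    exact LD_cons a l β y (by linarith) ha hl

end Pool.Agent.H76.EHB

end

section

/-!
# The main term on average

`∑_{c | q} μ(c)²/φ(c) = q/φ(q)`.  So the quantity is `(1/q) ∑_{c | q, c > R} μ(c)²/φ(c) ≥ 0`, and
`∑_{q ∈ (Q,2Q], c | q} 1/q ≤ 3/c` for `c ≤ 2Q`; `1/φ(c) ≤ τ(c)/c`, `∑_{R<c≤2Q} τ(c)/c² ≤ (1/R) ∑_{c≤2Q} τ(c)/c
≤ (1/R)(1+log(2Q))²`.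
-/

set_option autoImplicit false

namespace Pool.Agent.H91.EHA

open Finset

/-- `μ²/φ` as an arithmetic function. -/
private noncomputable def lam2F : ArithmeticFunction ℝ :=
  ⟨fun n => (ArithmeticFunction.moebius n : ℝ) ^ 2 / (n.totient : ℝ), by simp⟩

/-- `n/φ(n)` as an arithmetic function. -/
private noncomputable def lam2G : ArithmeticFunction ℝ :=
  ⟨fun n => (n : ℝ) / (n.totient : ℝ), by simp⟩

private theorem lam2F_apply (n : ℕ) :
    lam2F n = (ArithmeticFunction.moebius n : ℝ) ^ 2 / (n.totient : ℝ) := rfl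

private theorem lam2G_apply (n : ℕ) : lam2G n = (n : ℝ) / (n.totient : ℝ) := rfl

private theorem lam2F_mult : lam2F.IsMultiplicative := by
  refine ⟨by simp [lam2F_apply], fun {m n} h => ?_⟩
  rw [lam2F_apply, lam2F_apply, lam2F_apply, Nat.totient_mul h,
    ArithmeticFunction.isMultiplicative_moebius.map_mul_of_coprime h]
  push_cast
  rw [mul_pow, mul_div_mul_comm]

private theorem lam2G_mult : lam2G.IsMultiplicative := by
  refine ⟨by simp [lam2G_apply], fun {m n} h => ?_⟩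
  rw [lam2G_apply, lam2G_apply, lam2G_apply, Nat.totient_mul h]
  push_cast
  rw [mul_div_mul_comm]

private theorem lam2_conv : lam2F * (ArithmeticFunction.zeta : ArithmeticFunction ℝ) = lam2G := by
  have h1 : (lam2F * (ArithmeticFunction.zeta : ArithmeticFunction ℝ)).IsMultiplicative :=
    lam2F_mult.mul ArithmeticFunction.isMultiplicative_zeta.natCast
  rw [h1.eq_iff_eq_on_prime_powers _ _ lam2G_mult]
  intro p i hp
  rw [ArithmeticFunction.coe_mul_zeta_apply]
  rcases i with _ | k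
  · simp [lam2F_apply, lam2G_apply]
  · rw [Nat.sum_divisors_prime_pow hp, sum_range_succ', sum_range_succ', sum_eq_zero]
    · have hp1 : (1 : ℝ) < p := by exact_mod_cast hp.one_lt
      have hpne : (p : ℝ) ≠ 0 := by positivity
      have hp1ne : (p : ℝ) - 1 ≠ 0 := by linarith
      rw [lam2F_apply, lam2F_apply, lam2G_apply, zero_add, zero_add, pow_one, pow_zero,
        ArithmeticFunction.moebius_apply_prime hp, Nat.totient_prime hp,
        Nat.totient_prime_pow_succ hp, ArithmeticFunction.moebius_apply_one, Nat.totient_one]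
      have h2 : ((p - 1 : ℕ) : ℝ) = (p : ℝ) - 1 := by
        rw [Nat.cast_sub hp.one_lt.le, Nat.cast_one]
      push_cast
      rw [h2, pow_succ]
      field_simp
      ring
    · intro j _
      rw [lam2F_apply, ArithmeticFunction.moebius_apply_prime_pow hp (by omega), if_neg (by omega)]
      simp

/-- `∑_{c | q} μ(c)²/φ(c) = q/φ(q)`. -/
private theorem lam2_sum (q : ℕ) :
    ∑ c ∈ q.divisors, (ArithmeticFunction.moebius c : ℝ) ^ 2 / (c.totient : ℝ) =
      (q : ℝ) / (q.totient : ℝ) := by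
  have h := congrArg (fun f : ArithmeticFunction ℝ => f q) lam2_conv
  simp only [ArithmeticFunction.coe_mul_zeta_apply] at h
  exact h

private theorem lam2_mu_le (c : ℕ) : (ArithmeticFunction.moebius c : ℝ) ^ 2 ≤ 1 := by
  rw [sq_le_one_iff_abs_le_one]
  have := ArithmeticFunction.abs_moebius_le_one (n := c)
  exact_mod_cast this

/-- `c ≤ τ(c) φ(c)`. -/
private theorem lam2_tot {c : ℕ} (hc : 1 ≤ c) :
    1 / (c.totient : ℝ) ≤ (c.divisors.card : ℝ) / c := by
  have h1 := lam2_sum c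
  have hc0 : (0 : ℝ) < c := by exact_mod_cast hc
  have h2 : (c : ℝ) / (c.totient : ℝ) ≤ c.divisors.card := by
    rw [← h1, card_eq_sum_ones]
    push_cast
    refine sum_le_sum fun d hd => ?_
    have hd1 : 0 < d := Nat.pos_of_mem_divisors hd
    have ht : (1 : ℝ) ≤ (d.totient : ℝ) := by exact_mod_cast Nat.totient_pos.2 hd1
    rw [div_le_one (by linarith)]
    exact (lam2_mu_le d).trans ht
  rw [le_div_iff₀ hc0]
  calc 1 / (c.totient : ℝ) * c = (c : ℝ) / (c.totient : ℝ) := by ring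
    _ ≤ _ := h2

private theorem lam2_harm (n : ℕ) : ∑ g ∈ Icc 1 n, (1 : ℝ) / g ≤ 1 + Real.log n := by
  have h := harmonic_le_one_add_log n
  rw [harmonic_eq_sum_Icc] at h
  push_cast at h
  simpa [one_div] using h

private theorem lam2_tau (N : ℕ) :
    ∑ c ∈ Icc 1 N, (c.divisors.card : ℝ) / c ≤ (1 + Real.log N) ^ 2 := by
  have h1 : ∀ c ∈ Icc 1 N, (c.divisors.card : ℝ) / c =
      ∑ x ∈ (Icc 1 N ×ˢ Icc 1 N).filter (fun x => x.1 * x.2 = c), (1 : ℝ) / x.1 * (1 / x.2) := by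
    intro c hc
    rw [mem_Icc] at hc
    have h2 : (Icc 1 N ×ˢ Icc 1 N).filter (fun x => x.1 * x.2 = c) = c.divisorsAntidiagonal := by
      ext ⟨a, b⟩
      simp only [mem_filter, mem_product, mem_Icc, Nat.mem_divisorsAntidiagonal]
      constructor
      · rintro ⟨_, h⟩
        exact ⟨h, by omega⟩
      · rintro ⟨h, _⟩
        have ha : 0 < a := by
          rcases Nat.eq_zero_or_pos a with h0 | h0
          · rw [h0, zero_mul] at h
            omega
          · exact h0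
        have hb : 0 < b := by
          rcases Nat.eq_zero_or_pos b with h0 | h0
          · rw [h0, mul_zero] at h
            omega
          · exact h0
        have ha' : a ≤ c := by nlinarith
        have hb' : b ≤ c := by nlinarith
        exact ⟨⟨⟨ha, by omega⟩, ⟨hb, by omega⟩⟩, h⟩
    rw [h2]
    have h3 : ∀ x ∈ c.divisorsAntidiagonal, (1 : ℝ) / x.1 * (1 / x.2) = 1 / c := by
      intro x hx
      rw [Nat.mem_divisorsAntidiagonal] at hx
      rw [← hx.1]
      push_cast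
      rw [div_mul_div_comm, one_mul]
    rw [sum_congr rfl h3, sum_const, nsmul_eq_mul, ← Nat.map_div_right_divisors, card_map]
    ring
  rw [sum_congr rfl h1]
  have h4 : ∑ c ∈ Icc 1 N, ∑ x ∈ (Icc 1 N ×ˢ Icc 1 N).filter (fun x => x.1 * x.2 = c),
      (1 : ℝ) / x.1 * (1 / x.2) ≤ ∑ x ∈ Icc 1 N ×ˢ Icc 1 N, (1 : ℝ) / x.1 * (1 / x.2) := by
    rw [← sum_biUnion]
    · refine sum_le_sum_of_subset_of_nonneg ?_ fun x _ _ => by positivity
      intro x hx
      rw [mem_biUnion] at hx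
      obtain ⟨c, _, hx⟩ := hx
      exact (mem_filter.1 hx).1
    · intro a _ b _ hab
      refine disjoint_left.2 fun x hx hx' => hab ?_
      rw [← (mem_filter.1 hx).2, ← (mem_filter.1 hx').2]
  refine h4.trans ?_
  rw [sum_product]
  simp only
  rw [← sum_mul_sum, ← sq]
  have h5 := lam2_harm N
  have h6 : 0 ≤ ∑ g ∈ Icc 1 N, (1 : ℝ) / g := sum_nonneg fun g _ => by positivity
  gcongr

private theorem lam2_mult {Q c : ℕ} (hc : 1 ≤ c) (hcQ : c ≤ 2 * Q) :
    ((((Ioc Q (2 * Q)).filter (fun q => c ∣ q)).card : ℕ) : ℝ) ≤ 3 * Q / c := by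
  have h1 : ((Ioc Q (2 * Q)).filter (fun q => c ∣ q)).card ≤ (Ioc (Q / c) (2 * Q / c)).card := by
    refine card_le_card_of_injOn (fun q => q / c) ?_ ?_
    · intro q hq
      rw [mem_coe, mem_filter, mem_Ioc] at hq
      obtain ⟨⟨hq1, hq2⟩, m, rfl⟩ := hq
      rw [mem_coe, mem_Ioc]
      change Q / c < c * m / c ∧ c * m / c ≤ 2 * Q / c
      refine ⟨?_, Nat.div_le_div_right hq2⟩
      rw [Nat.mul_div_cancel_left _ hc]
      exact Nat.div_lt_of_lt_mul hq1
    · intro q hq q' hq' h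
      rw [mem_coe, mem_filter] at hq hq'
      obtain ⟨m, hm⟩ := hq.2
      obtain ⟨m', hm'⟩ := hq'.2
      simp only [hm, hm', Nat.mul_div_cancel_left _ hc] at h
      rw [hm, hm', h]
  rw [Nat.card_Ioc] at h1
  have h2 : 2 * Q / c ≤ 2 * (Q / c) + 1 := by
    rw [Nat.div_le_iff_le_mul_add_pred hc]
    have := Nat.div_add_mod Q c
    have := Nat.mod_lt Q hc
    have h : c * (2 * (Q / c) + 1) = 2 * (c * (Q / c)) + c := by ring
    omega
  have h3 : ((Ioc Q (2 * Q)).filter (fun q => c ∣ q)).card * c ≤ 3 * Q := by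
    calc ((Ioc Q (2 * Q)).filter (fun q => c ∣ q)).card * c ≤ (Q / c + 1) * c :=
          Nat.mul_le_mul_right c (by omega)
      _ = Q / c * c + c := by ring
      _ ≤ Q + 2 * Q := Nat.add_le_add (Nat.div_mul_le_self Q c) hcQ
      _ = 3 * Q := by ring
  rw [le_div_iff₀ (by exact_mod_cast hc)]
  exact_mod_cast h3

theorem lamR_avg : ∃ C : ℝ, 0 < C ∧ ∀ R Q : ℕ, 1 ≤ R → 1 ≤ Q →
    ∑ q ∈ Ioc Q (2 * Q), |1 / (q : ℝ) * (∑ c ∈ q.divisors.filter (fun c => c ≤ R),
        (ArithmeticFunction.moebius c : ℝ) ^ 2 / (c.totient : ℝ)) - 1 / (q.totient : ℝ)|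
      ≤ C * (1 + Real.log Q) ^ 2 / R := by
  refine ⟨12, by norm_num, fun R Q hR hQ => ?_⟩
  have hR0 : (0 : ℝ) < R := by exact_mod_cast hR
  have hQ0 : (0 : ℝ) < Q := by exact_mod_cast hQ
  -- each term
  have h1 : ∀ q ∈ Ioc Q (2 * Q), |1 / (q : ℝ) * (∑ c ∈ q.divisors.filter (fun c => c ≤ R),
        (ArithmeticFunction.moebius c : ℝ) ^ 2 / (c.totient : ℝ)) - 1 / (q.totient : ℝ)| ≤
      ∑ c ∈ (Ioc R (2 * Q)).filter (fun c => c ∣ q), 1 / (Q : ℝ) * ((c.divisors.card : ℝ) / c) := by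
    intro q hq
    rw [mem_Ioc] at hq
    have hq0 : (0 : ℝ) < q := by exact_mod_cast (by omega : 0 < q)
    have h2 : 1 / (q.totient : ℝ) = 1 / (q : ℝ) * ∑ c ∈ q.divisors,
        (ArithmeticFunction.moebius c : ℝ) ^ 2 / (c.totient : ℝ) := by
      rw [lam2_sum]
      field_simp
    have h3 := sum_filter_add_sum_filter_not q.divisors (fun c => c ≤ R)
      (fun c => (ArithmeticFunction.moebius c : ℝ) ^ 2 / (c.totient : ℝ))
    rw [h2, ← h3, ← mul_sub, sub_add_cancel_left, abs_mul, abs_neg,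
      abs_of_pos (by positivity : (0 : ℝ) < 1 / (q : ℝ)), abs_of_nonneg (by positivity), ← mul_sum]
    have h4 : (q.divisors.filter (fun c => ¬ c ≤ R)) ⊆
        (Ioc R (2 * Q)).filter (fun c => c ∣ q) := by
      intro c hc
      rw [mem_filter, Nat.mem_divisors] at hc
      rw [mem_filter, mem_Ioc]
      exact ⟨⟨not_le.1 hc.2, (Nat.le_of_dvd (by omega) hc.1.1).trans hq.2⟩, hc.1.1⟩
    refine mul_le_mul ?_ ?_ (sum_nonneg fun c _ => by positivity) (by positivity)
    · refine one_div_le_one_div_of_le hQ0 ?_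
      exact_mod_cast hq.1.le
    · refine (sum_le_sum_of_subset_of_nonneg h4 fun c _ _ => by positivity).trans ?_
      refine sum_le_sum fun c hc => ?_
      rw [mem_filter, mem_Ioc] at hc
      refine le_trans ?_ (lam2_tot (by omega : 1 ≤ c))
      have := lam2_mu_le c
      gcongr
  refine (sum_le_sum h1).trans ?_
  -- exchange
  have h5 : ∑ q ∈ Ioc Q (2 * Q), ∑ c ∈ (Ioc R (2 * Q)).filter (fun c => c ∣ q),
      1 / (Q : ℝ) * ((c.divisors.card : ℝ) / c) = ∑ c ∈ Ioc R (2 * Q),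
        (((Ioc Q (2 * Q)).filter (fun q => c ∣ q)).card : ℝ) *
          (1 / (Q : ℝ) * ((c.divisors.card : ℝ) / c)) := by
    simp only [sum_filter]
    rw [sum_comm]
    refine sum_congr rfl fun c _ => ?_
    rw [← sum_filter, sum_const, nsmul_eq_mul]
  rw [h5]
  have h6 : ∀ c ∈ Ioc R (2 * Q), (((Ioc Q (2 * Q)).filter (fun q => c ∣ q)).card : ℝ) *
      (1 / (Q : ℝ) * ((c.divisors.card : ℝ) / c)) ≤ 3 / R * ((c.divisors.card : ℝ) / c) := by
    intro c hc
    rw [mem_Ioc] at hc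
    have hc0 : (0 : ℝ) < c := by exact_mod_cast (by omega : 0 < c)
    have h7 := lam2_mult (Q := Q) (by omega : 1 ≤ c) hc.2
    rw [← mul_assoc]
    refine mul_le_mul_of_nonneg_right ?_ (by positivity)
    calc (((Ioc Q (2 * Q)).filter (fun q => c ∣ q)).card : ℝ) * (1 / (Q : ℝ)) ≤
          3 * Q / c * (1 / (Q : ℝ)) := by gcongr
      _ = 3 / c := by field_simp
      _ ≤ 3 / R := by
          have : (R : ℝ) ≤ c := by exact_mod_cast hc.1.le
          gcongr
  refine (sum_le_sum h6).trans ?_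
  rw [← mul_sum]
  have h8 : ∑ c ∈ Ioc R (2 * Q), (c.divisors.card : ℝ) / c ≤
      ∑ c ∈ Icc 1 (2 * Q), (c.divisors.card : ℝ) / c := by
    refine sum_le_sum_of_subset_of_nonneg ?_ fun c _ _ => by positivity
    intro c hc
    rw [mem_Ioc] at hc
    rw [mem_Icc]
    omega
  have h9 := lam2_tau (2 * Q)
  have h10 : Real.log ((2 * Q : ℕ) : ℝ) ≤ 1 + Real.log Q := by
    push_cast
    rw [Real.log_mul (by norm_num) hQ0.ne']
    have := Real.log_two_lt_d9
    linarith
  have h11 : 0 ≤ Real.log Q := Real.log_nonneg (by exact_mod_cast hQ)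
  have h12 : 0 ≤ Real.log ((2 * Q : ℕ) : ℝ) := Real.log_natCast_nonneg _
  calc 3 / (R : ℝ) * ∑ c ∈ Ioc R (2 * Q), (c.divisors.card : ℝ) / c
      ≤ 3 / (R : ℝ) * (1 + Real.log ((2 * Q : ℕ) : ℝ)) ^ 2 := by
        gcongr
        exact h8.trans h9
    _ ≤ 3 / (R : ℝ) * (2 * (1 + Real.log Q)) ^ 2 := by
        gcongr
        linarith
    _ = 12 * (1 + Real.log Q) ^ 2 / R := by ring

end Pool.Agent.H91.EHA

end
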