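import Pool.Agent.H94.EH.M18
import Pool.Agent.H94.EH.M19

/-! The parts of this file: H76.EHB.Jred, H76.EHB.MelB, H76.EHB.MelT, H76.EHB.JB. -/

section

/-!
# EHB Jred: from `JJ` to Mellin transforms

`gg f N α a Θ s` (`s = 1` or `-1`) is `FF(α + s θ) e(-a s θ)` on `(0, Θ]`, zero elsewhere.
For `0 < y ≤ Y` (`K Y ≤ Θ`) the inner sum of `JJ` is `∑_{k ∈ S+} gg_{+}(k y) + ∑_{k ∈ S-} gg_{-}(k y)` with
`S+ = {1 ≤ k ≤ K : d ∣ k - l}`, `S- = {1 ≤ k ≤ K : d ∣ -k - l}` (from `k < 0`); for `y = -z < 0` it is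
`∑_{S+} gg_{-}(k z) + ∑_{S-} gg_{+}(k z)`.  Use `|u+v|^2 ≤ 2|u|^2 + 2|v|^2` and enlarge `(0, Y]` to `(0, ∞)`
(integrable, since the functions are bounded with bounded support).
-/

set_option autoImplicit false

namespace Pool.Agent.H76.EHB

open Finset MeasureTheory
open Pool.Agent.H91.PK (ee)

noncomputable def gg (f : ℕ → ℝ) (N : ℕ) (α a Θ s θ : ℝ) : ℂ :=
  if 0 < θ ∧ θ ≤ Θ then FF f N (α + s * θ) * ee (-(a * s * θ)) else 0

/-- the positive `k ≤ K` with `k ≡ l mod d` -/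
def Sp (K d : ℕ) (l : ℤ) : Finset ℕ := (Icc 1 K).filter (fun k => (d : ℤ) ∣ (k : ℤ) - l)

/-- `∫_0^∞ |∑_{k ∈ S} g(k y)|^2 dy` -/
noncomputable def II (S : Finset ℕ) (g : ℝ → ℂ) : ℝ :=
  ∫ y in Set.Ioi (0 : ℝ), ‖∑ k ∈ S, g (k * y)‖ ^ 2

theorem gg_measurable (f : ℕ → ℝ) (N : ℕ) (α a Θ s : ℝ) : Measurable (gg f N α a Θ s) := by
  unfold gg
  refine Measurable.ite (measurableSet_Ioc (a := (0 : ℝ)) (b := Θ)) ?_ measurable_const
  have h1 : Continuous (fun θ : ℝ => FF f N (α + s * θ)) :=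
    (FF_continuous f N).comp (by fun_prop)
  have h2 : Continuous (fun θ : ℝ => ee (-(a * s * θ))) := continuous_ee.comp (by fun_prop)
  exact (h1.mul h2).measurable

private theorem Jred_norm_ee (t : ℝ) : ‖ee t‖ = 1 := Pool.Agent.H91.PK.LSa_norm_ee t

theorem norm_gg_le (f : ℕ → ℝ) (N : ℕ) (α a Θ s θ : ℝ) :
    ‖gg f N α a Θ s θ‖ ≤ ∑ n ∈ Icc 1 N, |f n| := by
  unfold gg
  split_ifs
  · rw [norm_mul, Jred_norm_ee, mul_one]
    exact norm_FF_le f N _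
  · rw [norm_zero]
    exact Finset.sum_nonneg fun _ _ => abs_nonneg _

private theorem Jred_period (f : ℕ → ℝ) (N : ℕ) (α s : ℝ) (hs : s = 1 ∨ s = -1) :
    ∫ θ in Set.Ioc (0 : ℝ) 1, ‖FF f N (α + s * θ)‖ ^ 2 = S2 f N := by
  rw [← intervalIntegral.integral_of_le zero_le_one]
  rcases hs with rfl | rfl
  · have h := intervalIntegral.integral_comp_add_left (a := 0) (b := 1)
      (fun t => ‖FF f N t‖ ^ 2) α
    simp only [one_mul]
    rw [h, add_zero]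
    exact FF_parseval f N α
  · have h := intervalIntegral.integral_comp_sub_left (a := 0) (b := 1)
      (fun t => ‖FF f N t‖ ^ 2) α
    have e : ∀ θ : ℝ, α + -1 * θ = α - θ := fun θ => by ring
    simp only [e]
    rw [h, sub_zero]
    have h2 := FF_parseval f N (α - 1)
    rwa [sub_add_cancel] at h2

theorem gg_L2 (f : ℕ → ℝ) (N : ℕ) (α a Θ s : ℝ) (hΘ : Θ ≤ 1) (hs : s = 1 ∨ s = -1) :
    ∫ θ in Set.Ioi (0 : ℝ), ‖gg f N α a Θ s θ‖ ^ 2 ≤ S2 f N := by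
  rw [← Jred_period f N α s hs]
  have hc : Continuous (fun θ : ℝ => ‖FF f N (α + s * θ)‖ ^ 2) :=
    (((FF_continuous f N).comp (by fun_prop : Continuous fun θ : ℝ => α + s * θ)).norm).pow 2
  have hint : IntegrableOn (fun θ : ℝ => ‖FF f N (α + s * θ)‖ ^ 2) (Set.Ioc (0 : ℝ) 1) :=
    (hc.integrableOn_Icc (a := 0) (b := 1)).mono_set Set.Ioc_subset_Icc_self
  have hinter : Set.Ioi (0 : ℝ) ∩ Set.Ioc 0 1 = Set.Ioc 0 1 := by
    ext x
    simp only [Set.mem_inter_iff, Set.mem_Ioi, Set.mem_Ioc]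
    constructor
    · rintro ⟨_, h⟩
      exact h
    · intro h
      exact ⟨h.1, h⟩
  calc ∫ θ in Set.Ioi (0 : ℝ), ‖gg f N α a Θ s θ‖ ^ 2
      ≤ ∫ θ in Set.Ioi (0 : ℝ),
          (Set.Ioc (0 : ℝ) 1).indicator (fun θ => ‖FF f N (α + s * θ)‖ ^ 2) θ := by
        apply integral_mono_of_nonneg
        · exact Filter.Eventually.of_forall fun θ => sq_nonneg _
        · rw [integrable_indicator_iff measurableSet_Ioc]
          exact hint.mono_measure Measure.restrict_le_self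
        · refine Filter.Eventually.of_forall fun θ => ?_
          simp only
          unfold gg
          split_ifs with h
          · rw [Set.indicator_of_mem (show θ ∈ Set.Ioc (0 : ℝ) 1 from ⟨h.1, h.2.trans hΘ⟩),
              norm_mul, Jred_norm_ee, mul_one]
          · rw [norm_zero]
            have : 0 ≤ (Set.Ioc (0 : ℝ) 1).indicator
              (fun θ => ‖FF f N (α + s * θ)‖ ^ 2) θ :=
              Set.indicator_nonneg (fun _ _ => sq_nonneg _) θ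
            simpa using this
    _ = ∫ θ in Set.Ioc (0 : ℝ) 1, ‖FF f N (α + s * θ)‖ ^ 2 := by
        rw [setIntegral_indicator measurableSet_Ioc, hinter]

private theorem Jred_split (K d : ℕ) (l : ℤ) (F : ℤ → ℂ) :
    ∑ k ∈ (ks K).filter (fun k => (d : ℤ) ∣ k - l), F k =
      ∑ k ∈ Sp K d l, F (k : ℤ) + ∑ k ∈ Sp K d (-l), F (-(k : ℤ)) := by
  rw [← Finset.sum_filter_add_sum_filter_not _ (fun k : ℤ => 0 < k)]
  congr 1
  · symm
    refine Finset.sum_bij' (fun (k : ℕ) _ => (k : ℤ)) (fun (k : ℤ) _ => k.toNat) ?_ ?_ ?_ ?_ ?_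
    · intro k hk
      unfold Sp at hk
      rw [mem_filter, mem_Icc] at hk
      rw [mem_filter, mem_filter, mem_ks]
      refine ⟨⟨⟨by omega, ?_⟩, hk.2⟩, by omega⟩
      rw [abs_of_nonneg (by omega)]
      exact_mod_cast hk.1.2
    · intro k hk
      rw [mem_filter, mem_filter, mem_ks] at hk
      obtain ⟨⟨⟨h1, h2⟩, h3⟩, h4⟩ := hk
      rw [abs_of_pos h4] at h2
      unfold Sp
      rw [mem_filter, mem_Icc, Int.toNat_of_nonneg h4.le]
      exact ⟨⟨by omega, by omega⟩, h3⟩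
    · intro k _
      simp
    · intro k hk
      rw [mem_filter] at hk
      exact Int.toNat_of_nonneg hk.2.le
    · intro k _
      rfl
  · symm
    refine Finset.sum_bij' (fun (k : ℕ) _ => -(k : ℤ)) (fun (k : ℤ) _ => (-k).toNat)
      ?_ ?_ ?_ ?_ ?_
    · intro k hk
      unfold Sp at hk
      rw [mem_filter, mem_Icc] at hk
      rw [mem_filter, mem_filter, mem_ks]
      refine ⟨⟨⟨by omega, ?_⟩, ?_⟩, by omega⟩
      · rw [abs_neg, abs_of_nonneg (by omega)]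
        exact_mod_cast hk.1.2
      · have h := (dvd_neg (α := ℤ)).2 hk.2
        have e : -((k : ℤ) - -l) = -(k : ℤ) - l := by ring
        rwa [e] at h
    · intro k hk
      rw [mem_filter, mem_filter, mem_ks] at hk
      obtain ⟨⟨⟨h1, h2⟩, h3⟩, h4⟩ := hk
      have h5 : k < 0 := by omega
      rw [abs_of_neg h5] at h2
      unfold Sp
      rw [mem_filter, mem_Icc, Int.toNat_of_nonneg (by omega)]
      refine ⟨⟨by omega, by omega⟩, ?_⟩
      have h := (dvd_neg (α := ℤ)).2 h3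
      have e : -(k - l) = -k - -l := by ring
      rwa [e] at h
    · intro k _
      simp
    · intro k hk
      rw [mem_filter, mem_filter, mem_ks] at hk
      have h5 : k < 0 := by omega
      rw [Int.toNat_of_nonneg (by omega)]
      ring
    · intro k _
      rfl

private theorem Jred_gg_eq (f : ℕ → ℝ) (N K : ℕ) (α a Y Θ s y : ℝ) (hΘ : K * Y ≤ Θ)
    (hy0 : 0 < y) (hyY : y ≤ Y) {k : ℕ} (hk1 : 1 ≤ k) (hkK : k ≤ K) :
    gg f N α a Θ s (k * y) = FF f N (α + s * (k * y)) * ee (-(a * s * (k * y))) := by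
  unfold gg
  have hk : (1 : ℝ) ≤ k := by exact_mod_cast hk1
  have hk' : (k : ℝ) ≤ K := by exact_mod_cast hkK
  rw [if_pos]
  constructor
  · positivity
  · calc (k : ℝ) * y ≤ K * Y := mul_le_mul hk' hyY hy0.le (by positivity)
      _ ≤ Θ := hΘ

private theorem Jred_integrable (S : Finset ℕ) (hS : ∀ k ∈ S, 1 ≤ k) (g : ℝ → ℂ)
    (hg : Measurable g) (B Θ : ℝ) (hB : ∀ θ, ‖g θ‖ ≤ B) (hs : ∀ θ, Θ < θ → g θ = 0) :
    IntegrableOn (fun y => ‖∑ k ∈ S, g (k * y)‖ ^ 2) (Set.Ioi (0 : ℝ)) := by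
  have hmeas : Measurable (fun y => ‖∑ k ∈ S, g (k * y)‖ ^ 2) := by
    refine (Measurable.norm (Finset.measurable_sum S fun k _ => ?_)).pow_const 2
    exact hg.comp (measurable_const.mul measurable_id)
  have h1 : IntegrableOn (fun y => ‖∑ k ∈ S, g (k * y)‖ ^ 2) (Set.Ioc (0 : ℝ) Θ) := by
    refine Measure.integrableOn_of_bounded (M := (∑ _k ∈ S, B) ^ 2) ?_
      hmeas.aestronglyMeasurable ?_
    · rw [Real.volume_Ioc]
      exact ENNReal.ofReal_ne_top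
    · refine Filter.Eventually.of_forall fun y => ?_
      rw [Real.norm_eq_abs, abs_of_nonneg (sq_nonneg _)]
      refine pow_le_pow_left₀ (norm_nonneg _) ?_ 2
      exact (norm_sum_le _ _).trans (Finset.sum_le_sum fun k _ => hB _)
  refine h1.of_forall_sdiff_eq_zero measurableSet_Ioi ?_
  rintro y ⟨hy1, hy2⟩
  have hy1' : 0 < y := hy1
  have hy3 : Θ < y := by
    by_contra hcon
    exact hy2 ⟨hy1', not_lt.1 hcon⟩
  have h0 : ∑ k ∈ S, g (k * y) = 0 := by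
    refine Finset.sum_eq_zero fun k hk => hs _ ?_
    have hk' : (1 : ℝ) ≤ k := by exact_mod_cast hS k hk
    nlinarith
  rw [h0, norm_zero]
  norm_num

private theorem Jred_half (S T : Finset ℕ) (hS : ∀ k ∈ S, 1 ≤ k) (hT : ∀ k ∈ T, 1 ≤ k)
    (g h : ℝ → ℂ) (hg : Measurable g) (hh : Measurable h) (B Θ Y : ℝ) (hB : ∀ θ, ‖g θ‖ ≤ B)
    (hB' : ∀ θ, ‖h θ‖ ≤ B) (hs : ∀ θ, Θ < θ → g θ = 0) (hs' : ∀ θ, Θ < θ → h θ = 0)
    (H : ℝ → ℂ) (hH : ∀ y, 0 < y → y ≤ Y → H y = ∑ k ∈ S, g (k * y) + ∑ k ∈ T, h (k * y)) :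
    ∫ y in Set.Ioc (0 : ℝ) Y, ‖H y‖ ^ 2 ≤ 2 * (II S g + II T h) := by
  have i1 := Jred_integrable S hS g hg B Θ hB hs
  have i2 := Jred_integrable T hT h hh B Θ hB' hs'
  have hsub : Set.Ioc (0 : ℝ) Y ⊆ Set.Ioi 0 := fun y hy => hy.1
  have j1 := i1.mono_set hsub
  have j2 := i2.mono_set hsub
  have m1 : ∫ y in Set.Ioc (0 : ℝ) Y, ‖∑ k ∈ S, g (k * y)‖ ^ 2 ≤ II S g :=
    setIntegral_mono_set i1 (Filter.Eventually.of_forall fun y => sq_nonneg _)
      (HasSubset.Subset.eventuallyLE hsub)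
  have m2 : ∫ y in Set.Ioc (0 : ℝ) Y, ‖∑ k ∈ T, h (k * y)‖ ^ 2 ≤ II T h :=
    setIntegral_mono_set i2 (Filter.Eventually.of_forall fun y => sq_nonneg _)
      (HasSubset.Subset.eventuallyLE hsub)
  calc ∫ y in Set.Ioc (0 : ℝ) Y, ‖H y‖ ^ 2
      ≤ ∫ y in Set.Ioc (0 : ℝ) Y, (2 * ‖∑ k ∈ S, g (k * y)‖ ^ 2 +
          2 * ‖∑ k ∈ T, h (k * y)‖ ^ 2) := by
        apply integral_mono_of_nonneg
        · exact Filter.Eventually.of_forall fun y => sq_nonneg _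
        · exact (j1.const_mul 2).add (j2.const_mul 2)
        · refine (ae_restrict_iff' measurableSet_Ioc).2 (Filter.Eventually.of_forall ?_)
          intro y hy
          simp only
          rw [hH y hy.1 hy.2]
          have h1 := norm_add_le (∑ k ∈ S, g (k * y)) (∑ k ∈ T, h (k * y))
          have h2 := norm_nonneg (∑ k ∈ S, g (k * y) + ∑ k ∈ T, h (k * y))
          nlinarith [sq_nonneg (‖∑ k ∈ S, g (k * y)‖ - ‖∑ k ∈ T, h (k * y)‖),
            norm_nonneg (∑ k ∈ S, g (k * y)), norm_nonneg (∑ k ∈ T, h (k * y))]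
    _ = 2 * (∫ y in Set.Ioc (0 : ℝ) Y, ‖∑ k ∈ S, g (k * y)‖ ^ 2) +
          2 * ∫ y in Set.Ioc (0 : ℝ) Y, ‖∑ k ∈ T, h (k * y)‖ ^ 2 := by
        rw [integral_add (j1.const_mul 2) (j2.const_mul 2), integral_const_mul,
          integral_const_mul]
    _ ≤ 2 * (II S g + II T h) := by linarith

theorem JJ_le (f : ℕ → ℝ) (N K d : ℕ) (l : ℤ) (α a Y Θ : ℝ) (hY : 0 ≤ Y) (hΘ : K * Y ≤ Θ) :
    JJ f N K d l α a Y
      ≤ 2 * (II (Sp K d l) (gg f N α a Θ 1) + II (Sp K d (-l)) (gg f N α a Θ (-1))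
          + II (Sp K d l) (gg f N α a Θ (-1)) + II (Sp K d (-l)) (gg f N α a Θ 1)) := by
  obtain ⟨H, hH⟩ : ∃ H : ℝ → ℂ, H = fun y => ∑ k ∈ (ks K).filter (fun k => (d : ℤ) ∣ k - l),
      FF f N (α + k * y) * ee (-(a * k * y)) := ⟨_, rfl⟩
  have hHc : Continuous H := by
    rw [hH]
    refine continuous_finsetSum _ fun k _ => ?_
    have h1 : Continuous (fun y : ℝ => FF f N (α + k * y)) :=
      (FF_continuous f N).comp (by fun_prop)
    have h2 : Continuous (fun y : ℝ => ee (-(a * k * y))) := continuous_ee.comp (by fun_prop)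
    exact h1.mul h2
  have hJJ : JJ f N K d l α a Y = (∫ y in Set.Ioc (0 : ℝ) Y, ‖H y‖ ^ 2) +
      ∫ y in Set.Ioc (0 : ℝ) Y, ‖H (-y)‖ ^ 2 := by
    have h1 : JJ f N K d l α a Y = ∫ y in (-Y)..Y, ‖H y‖ ^ 2 := by
      rw [intervalIntegral.integral_of_le (by linarith), ← integral_Icc_eq_integral_Ioc, hH]
      rfl
    have hi : ∀ u v : ℝ, IntervalIntegrable (fun y => ‖H y‖ ^ 2) volume u v := fun u v =>
      (hHc.norm.pow 2).intervalIntegrable u v
    rw [h1, ← intervalIntegral.integral_add_adjacent_intervals (hi (-Y) 0) (hi 0 Y),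
      ← intervalIntegral.integral_of_le hY, ← intervalIntegral.integral_of_le hY,
      intervalIntegral.integral_comp_neg (fun y => ‖H y‖ ^ 2), neg_zero, add_comm]
  have hSp : ∀ (l' : ℤ), ∀ k ∈ Sp K d l', 1 ≤ k ∧ k ≤ K := by
    intro l' k hk
    unfold Sp at hk
    rw [mem_filter, mem_Icc] at hk
    exact hk.1
  have hz : ∀ s θ : ℝ, Θ < θ → gg f N α a Θ s θ = 0 := by
    intro s θ hθ
    unfold gg
    rw [if_neg]
    rintro ⟨_, h⟩
    linarith
  have e1 := Jred_half (Sp K d l) (Sp K d (-l)) (fun k hk => (hSp _ k hk).1)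
    (fun k hk => (hSp _ k hk).1) (gg f N α a Θ 1) (gg f N α a Θ (-1)) (gg_measurable _ _ _ _ _ _)
    (gg_measurable _ _ _ _ _ _) (∑ n ∈ Icc 1 N, |f n|) Θ Y (norm_gg_le f N α a Θ 1)
    (norm_gg_le f N α a Θ (-1)) (hz 1) (hz (-1)) H (by
      intro y hy0 hyY
      rw [hH]
      simp only
      rw [Jred_split K d l (fun k => FF f N (α + k * y) * ee (-(a * k * y)))]
      congr 1
      · refine Finset.sum_congr rfl fun k hk => ?_
        rw [Jred_gg_eq f N K α a Y Θ 1 y hΘ hy0 hyY (hSp _ k hk).1 (hSp _ k hk).2]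
        push_cast
        congr 2 <;> ring
      · refine Finset.sum_congr rfl fun k hk => ?_
        rw [Jred_gg_eq f N K α a Y Θ (-1) y hΘ hy0 hyY (hSp _ k hk).1 (hSp _ k hk).2]
        push_cast
        congr 2 <;> ring)
  have e2 := Jred_half (Sp K d l) (Sp K d (-l)) (fun k hk => (hSp _ k hk).1)
    (fun k hk => (hSp _ k hk).1) (gg f N α a Θ (-1)) (gg f N α a Θ 1) (gg_measurable _ _ _ _ _ _)
    (gg_measurable _ _ _ _ _ _) (∑ n ∈ Icc 1 N, |f n|) Θ Y (norm_gg_le f N α a Θ (-1))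
    (norm_gg_le f N α a Θ 1) (hz (-1)) (hz 1) (fun y => H (-y)) (by
      intro y hy0 hyY
      rw [hH]
      simp only
      rw [Jred_split K d l (fun k => FF f N (α + k * -y) * ee (-(a * k * -y)))]
      congr 1
      · refine Finset.sum_congr rfl fun k hk => ?_
        rw [Jred_gg_eq f N K α a Y Θ (-1) y hΘ hy0 hyY (hSp _ k hk).1 (hSp _ k hk).2]
        push_cast
        congr 2 <;> ring
      · refine Finset.sum_congr rfl fun k hk => ?_
        rw [Jred_gg_eq f N K α a Y Θ 1 y hΘ hy0 hyY (hSp _ k hk).1 (hSp _ k hk).2]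
        push_cast
        congr 2 <;> ring)
  rw [hJJ]
  linarith

end Pool.Agent.H76.EHB

end

section

/-!
# EHB MelB: the Mellin transform for small `t`

`FF_near`: Abel summation: `FF(α+θ) = ∑ f(n) e(nα) e(nθ)`, `|e((n+1)θ) - e(nθ)| ≤ 2π|θ|`, so `|FF(α+θ)| ≤ (1 + 2π|θ| N) E` if all truncated
sums `∑_{n ≤ u} f(n) e(nα)`, `u ≤ N`, are at most `E` in absolute value.
`mel_small`: `Mel g t = ∫_0^Θ g(θ) θ^{-1/2-it} dθ`, `g = gg`, `s = ±1`.  Let `θ0 = 1/P`.  The part `θ ≤ θ0` is at most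
`∫_0^{θ0} (1 + 7 θ N) E θ^{-1/2} ≤ 2 √θ0 (1 + 7 θ0 N) E`.  If `Θ > θ0` the rest is
`∑_n f(n) e(nα) ∫_{θ0}^Θ e(s (n - a) θ) θ^{-1/2-it} dθ`, at most `Fm ∑_n (1+|t|) bb P (n - a)` by `osc1` (for `|n-a| < 1`), `osc3`
(for `1 ≤ |n-a| ≤ P`), `osc2` (`|n-a| > P`, `1/√θ0 = √P`), and `bb_sum`.
-/

set_option autoImplicit false

namespace Pool.Agent.H76.EHB

open Finset MeasureTheory
open Pool.Agent.H91.PK (ee)

theorem melB_ee_sub (x θ : ℝ) : ‖ee (x + θ) - ee x‖ ≤ 7 * |θ| := by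
  have h1 : ee (x + θ) - ee x = ee x * (ee θ - 1) := by
    rw [Pool.Agent.H91.PK.LSa_ee_add]; ring
  rw [h1, norm_mul, Pool.Agent.H91.PK.LSa_norm_ee, one_mul]
  have h2 : ee θ = Complex.exp (Complex.I * ((2 * Real.pi * θ : ℝ) : ℂ)) := by
    unfold Pool.Agent.H91.PK.ee
    congr 1
    push_cast
    ring
  rw [h2]
  refine (Real.norm_exp_I_mul_ofReal_sub_one_le).trans ?_
  rw [Real.norm_eq_abs, abs_mul, abs_of_pos (by positivity : (0 : ℝ) < 2 * Real.pi)]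
  have h3 := Real.pi_lt_d2
  have h4 := abs_nonneg θ
  nlinarith

theorem melB_abel (f : ℕ → ℝ) (N : ℕ) (α θ : ℝ) :
    FF f N (α + θ) = (∑ n ∈ Icc 1 N, (f n : ℂ) * ee (n * α)) * ee (N * θ)
      - ∑ n ∈ range N, (∑ m ∈ Icc 1 n, (f m : ℂ) * ee (m * α)) *
          (ee (n * θ + θ) - ee (n * θ)) := by
  induction N with
  | zero => simp [FF]
  | succ N ih =>
    have h1 : FF f (N + 1) (α + θ) = FF f N (α + θ)
        + (f (N + 1) : ℂ) * ee (((N + 1 : ℕ) : ℝ) * (α + θ)) := by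
      unfold FF
      rw [Finset.sum_Icc_succ_top (by omega)]
    have h2 : (((N + 1 : ℕ) : ℝ)) * (α + θ) = ((N + 1 : ℕ) : ℝ) * α + ((N + 1 : ℕ) : ℝ) * θ := by
      ring
    have h3 : ((N + 1 : ℕ) : ℝ) * θ = N * θ + θ := by push_cast; ring
    rw [h1, ih, Finset.sum_Icc_succ_top (by omega), sum_range_succ, h2,
      Pool.Agent.H91.PK.LSa_ee_add, h3]
    ring

theorem FF_near (f : ℕ → ℝ) (N : ℕ) (α θ E : ℝ) (hE : 0 ≤ E)
    (h : ∀ u, u ≤ N → ‖∑ n ∈ Icc 1 u, (f n : ℂ) * ee (n * α)‖ ≤ E) :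
    ‖FF f N (α + θ)‖ ≤ (1 + 7 * |θ| * N) * E := by
  rw [melB_abel]
  refine (norm_sub_le _ _).trans ?_
  have h1 : ‖(∑ n ∈ Icc 1 N, (f n : ℂ) * ee (n * α)) * ee (N * θ)‖ ≤ E := by
    rw [norm_mul, Pool.Agent.H91.PK.LSa_norm_ee, mul_one]
    exact h N le_rfl
  have h2 : ‖∑ n ∈ range N, (∑ m ∈ Icc 1 n, (f m : ℂ) * ee (m * α)) *
          (ee (n * θ + θ) - ee (n * θ))‖ ≤ ∑ n ∈ range N, E * (7 * |θ|) := by
    refine (norm_sum_le _ _).trans (sum_le_sum fun n hn => ?_)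
    rw [norm_mul]
    exact mul_le_mul (h n (mem_range.mp hn).le) (melB_ee_sub _ _) (norm_nonneg _) hE
  rw [sum_const, card_range, nsmul_eq_mul] at h2
  linarith

/-- the Mellin transform as an integral over `(0, Θ]` -/
theorem melB_mel (f : ℕ → ℝ) (N : ℕ) (α a Θ s t : ℝ) :
    Mel (gg f N α a Θ s) t = ∫ θ in Set.Ioc 0 Θ,
      (θ : ℂ) ^ (-(1 / 2 : ℂ) - t * Complex.I) * (FF f N (α + s * θ) * ee (-(a * s * θ))) := by
  unfold Mel mellin
  have h1 : (1 / 2 - t * Complex.I - 1 : ℂ) = -(1 / 2 : ℂ) - t * Complex.I := by ring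
  rw [h1]
  have h2 : (fun θ : ℝ => (θ : ℂ) ^ (-(1 / 2 : ℂ) - t * Complex.I) • gg f N α a Θ s θ)
      = (Set.Ioc 0 Θ).indicator (fun θ : ℝ => (θ : ℂ) ^ (-(1 / 2 : ℂ) - t * Complex.I) *
        (FF f N (α + s * θ) * ee (-(a * s * θ)))) := by
    funext θ
    unfold gg
    by_cases h : 0 < θ ∧ θ ≤ Θ
    · rw [if_pos h, Set.indicator_of_mem (Set.mem_Ioc.mpr h), smul_eq_mul]
    · rw [if_neg h, Set.indicator_of_notMem (fun h' => h (Set.mem_Ioc.mp h')), smul_zero]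
  rw [h2, setIntegral_indicator measurableSet_Ioc]
  congr 2
  ext θ
  simp only [Set.mem_inter_iff, Set.mem_Ioi, Set.mem_Ioc]
  tauto

theorem melB_norm_cpow (t : ℝ) {θ : ℝ} (hθ : 0 < θ) :
    ‖(θ : ℂ) ^ (-(1 / 2 : ℂ) - t * Complex.I)‖ = θ ^ (-(1 / 2) : ℝ) := by
  rw [Complex.norm_cpow_eq_rpow_re_of_pos hθ]
  congr 1
  simp

theorem melB_intble (t u v : ℝ) (G : ℝ → ℂ) (hG : Continuous G) :
    IntervalIntegrable (fun θ : ℝ => (θ : ℂ) ^ (-(1 / 2 : ℂ) - t * Complex.I) * G θ) volume u v := by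
  refine IntervalIntegrable.mul_continuousOn ?_ hG.continuousOn
  refine intervalIntegral.intervalIntegrable_cpow' ?_
  simp
  norm_num

theorem melB_cont (f : ℕ → ℝ) (N : ℕ) (α a s : ℝ) :
    Continuous (fun θ : ℝ => FF f N (α + s * θ) * ee (-(a * s * θ))) := by
  refine Continuous.mul ?_ ?_
  · exact (FF_continuous f N).comp (by fun_prop)
  · exact continuous_ee.comp (by fun_prop)

/-- the part near zero -/
theorem melB_near (f : ℕ → ℝ) (N : ℕ) (α a s t E P m : ℝ) (hs : s = 1 ∨ s = -1)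
    (hE : 0 ≤ E) (hP : 1 ≤ P) (hm0 : 0 ≤ m) (hm : m ≤ 1 / P)
    (h : ∀ u, u ≤ N → ‖∑ n ∈ Icc 1 u, (f n : ℂ) * ee (n * α)‖ ≤ E) :
    ‖∫ θ in (0 : ℝ)..m, (θ : ℂ) ^ (-(1 / 2 : ℂ) - t * Complex.I) *
        (FF f N (α + s * θ) * ee (-(a * s * θ)))‖
      ≤ 2 * (1 + 7 * (1 / P) * N) * E / Real.sqrt P := by
  have hP0 : 0 < P := by linarith
  set M : ℝ := (1 + 7 * (1 / P) * N) * E with hM
  have hM0 : 0 ≤ M := by positivity
  have h1 : ‖∫ θ in (0 : ℝ)..m, (θ : ℂ) ^ (-(1 / 2 : ℂ) - t * Complex.I) *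
        (FF f N (α + s * θ) * ee (-(a * s * θ)))‖
      ≤ ∫ θ in (0 : ℝ)..m, θ ^ (-(1 / 2) : ℝ) * M := by
    refine intervalIntegral.norm_integral_le_of_norm_le hm0 ?_ ?_
    · refine Filter.Eventually.of_forall fun θ hθ => ?_
      rw [norm_mul, norm_mul, melB_norm_cpow t hθ.1, Pool.Agent.H91.PK.LSa_norm_ee, mul_one]
      refine mul_le_mul_of_nonneg_left ?_ (Real.rpow_nonneg hθ.1.le _)
      refine (FF_near f N α (s * θ) E hE h).trans ?_
      rw [hM]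
      refine mul_le_mul_of_nonneg_right ?_ hE
      have h2 : |s * θ| = θ := by
        rcases hs with rfl | rfl
        · rw [one_mul, abs_of_pos hθ.1]
        · rw [neg_one_mul, abs_neg, abs_of_pos hθ.1]
      rw [h2]
      have h3 : θ ≤ 1 / P := hθ.2.trans hm
      have h4 : (0 : ℝ) ≤ N := Nat.cast_nonneg N
      nlinarith [mul_le_mul_of_nonneg_right h3 h4]
    · refine IntervalIntegrable.mul_const ?_ _
      exact intervalIntegral.intervalIntegrable_rpow' (by norm_num)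
  have h5 : ∫ θ in (0 : ℝ)..m, θ ^ (-(1 / 2) : ℝ) * M = 2 * Real.sqrt m * M := by
    rw [intervalIntegral.integral_mul_const, integral_rpow (Or.inl (by norm_num))]
    have e1 : (-(1 / 2) + 1 : ℝ) = 1 / 2 := by norm_num
    rw [e1, Real.zero_rpow (by norm_num), ← Real.sqrt_eq_rpow]
    ring
  rw [h5] at h1
  refine h1.trans ?_
  have h6 : Real.sqrt m ≤ 1 / Real.sqrt P := by
    have e : Real.sqrt (1 / P) = 1 / Real.sqrt P := by
      rw [Real.sqrt_div (by norm_num : (0 : ℝ) ≤ 1), Real.sqrt_one]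
    rw [← e]
    exact Real.sqrt_le_sqrt hm
  calc 2 * Real.sqrt m * M ≤ 2 * (1 / Real.sqrt P) * M :=
        mul_le_mul_of_nonneg_right (by linarith) hM0
    _ = 2 * (1 + 7 * (1 / P) * N) * E / Real.sqrt P := by rw [hM]; ring

/-- one oscillatory integral -/
theorem melB_osc (t P Θ v : ℝ) (hP : 1 ≤ P) (hΘ0 : 1 / P ≤ Θ) (hΘ : Θ ≤ 1) :
    ‖∫ θ in (1 / P)..Θ, ee (v * θ) * (θ : ℂ) ^ (-(1 / 2 : ℂ) - t * Complex.I)‖
      ≤ (1 + |t|) * bb P v := by
  have hP0 : 0 < P := by linarith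
  have h0 : 0 < 1 / P := by positivity
  have ht : 0 ≤ |t| := abs_nonneg t
  unfold bb
  by_cases h1 : |v| < 1
  · rw [if_pos h1]
    refine (osc1 v t (1 / P) Θ h0 hΘ0 hΘ).trans ?_
    linarith
  · rw [if_neg h1]
    rw [not_lt] at h1
    have hv : v ≠ 0 := by
      rintro rfl
      rw [abs_zero] at h1
      linarith
    by_cases h2 : |v| ≤ P
    · rw [if_pos h2]
      refine (osc3 v t (1 / P) Θ h0 hΘ0 hΘ hv).trans (le_of_eq ?_)
      ring
    · rw [if_neg h2]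
      refine (osc2 v t (1 / P) Θ h0 hΘ0 hΘ hv).trans (le_of_eq ?_)
      have hsq : Real.sqrt (1 / P) = 1 / Real.sqrt P := by
        rw [Real.sqrt_div (by norm_num : (0 : ℝ) ≤ 1), Real.sqrt_one]
      have hsP : Real.sqrt P ≠ 0 := (Real.sqrt_pos.mpr hP0).ne'
      have hv' : |v| ≠ 0 := abs_ne_zero.mpr hv
      rw [hsq]
      field_simp

/-- the part away from zero -/
theorem melB_far (f : ℕ → ℝ) (N : ℕ) (α a Θ s t Fm P : ℝ) (hN : 1 ≤ N) (hs : s = 1 ∨ s = -1)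
    (hΘ0 : 1 / P ≤ Θ) (hΘ : Θ ≤ 1) (hP : 1 ≤ P) (hF : ∀ n ∈ Icc 1 N, |f n| ≤ Fm) :
    ‖∫ θ in (1 / P)..Θ, (θ : ℂ) ^ (-(1 / 2 : ℂ) - t * Complex.I) *
        (FF f N (α + s * θ) * ee (-(a * s * θ)))‖
      ≤ 30 * Fm * (1 + |t|) * Real.sqrt P * (1 + Real.log N) := by
  have hP0 : 0 < P := by linarith
  have ht : 0 ≤ |t| := abs_nonneg t
  have hFm : 0 ≤ Fm := (abs_nonneg _).trans (hF 1 (mem_Icc.mpr ⟨le_rfl, hN⟩))
  have h1 : (∫ θ in (1 / P)..Θ, (θ : ℂ) ^ (-(1 / 2 : ℂ) - t * Complex.I) *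
        (FF f N (α + s * θ) * ee (-(a * s * θ))))
      = ∑ n ∈ Icc 1 N, ((f n : ℂ) * ee (n * α)) *
        ∫ θ in (1 / P)..Θ, ee ((s * (n - a)) * θ) * (θ : ℂ) ^ (-(1 / 2 : ℂ) - t * Complex.I) := by
    have h2 : ∀ θ : ℝ, (θ : ℂ) ^ (-(1 / 2 : ℂ) - t * Complex.I) *
        (FF f N (α + s * θ) * ee (-(a * s * θ)))
        = ∑ n ∈ Icc 1 N, ((f n : ℂ) * ee (n * α)) *
          (ee ((s * (n - a)) * θ) * (θ : ℂ) ^ (-(1 / 2 : ℂ) - t * Complex.I)) := by
      intro θ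
      unfold FF
      rw [sum_mul, mul_sum]
      refine sum_congr rfl fun n _ => ?_
      have e1 : (n : ℝ) * (α + s * θ) = n * α + n * (s * θ) := by ring
      have e2 : s * ((n : ℝ) - a) * θ = n * (s * θ) + -(a * s * θ) := by ring
      rw [e1, e2, Pool.Agent.H91.PK.LSa_ee_add, Pool.Agent.H91.PK.LSa_ee_add]
      ring
    simp only [h2]
    rw [intervalIntegral.integral_finsetSum]
    · refine sum_congr rfl fun n _ => ?_
      rw [intervalIntegral.integral_const_mul]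
    · intro n _
      refine IntervalIntegrable.const_mul ?_ _
      have := melB_intble t (1 / P) Θ (fun θ => ee (s * (n - a) * θ))
        (continuous_ee.comp (by fun_prop))
      refine this.congr ?_
      intro θ _
      exact mul_comm _ _
  rw [h1]
  refine (norm_sum_le _ _).trans ?_
  have h3 : ∀ n ∈ Icc 1 N, ‖((f n : ℂ) * ee (n * α)) *
        ∫ θ in (1 / P)..Θ, ee ((s * (n - a)) * θ) * (θ : ℂ) ^ (-(1 / 2 : ℂ) - t * Complex.I)‖
      ≤ Fm * (1 + |t|) * bb P (n - a) := by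
    intro n hn
    rw [norm_mul, norm_mul, Pool.Agent.H91.PK.LSa_norm_ee, mul_one, Complex.norm_real,
      Real.norm_eq_abs]
    have h4 := melB_osc t P Θ (s * (n - a)) hP hΘ0 hΘ
    have h5 : bb P (s * (n - a)) = bb P (n - a) := by
      have h6 : |s * ((n : ℝ) - a)| = |(n : ℝ) - a| := by
        rcases hs with rfl | rfl
        · rw [one_mul]
        · rw [neg_one_mul, abs_neg]
      unfold bb
      rw [h6]
    rw [h5] at h4
    rw [mul_assoc]
    exact mul_le_mul (hF n hn) h4 (norm_nonneg _) hFm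
  refine (sum_le_sum h3).trans ?_
  rw [← mul_sum]
  have h7 := bb_sum N P a hN hP
  calc Fm * (1 + |t|) * ∑ n ∈ Icc 1 N, bb P (n - a)
      ≤ Fm * (1 + |t|) * (30 * Real.sqrt P * (1 + Real.log N)) :=
        mul_le_mul_of_nonneg_left h7 (by positivity)
    _ = 30 * Fm * (1 + |t|) * Real.sqrt P * (1 + Real.log N) := by ring

theorem mel_small (f : ℕ → ℝ) (N : ℕ) (α a Θ s t E Fm P : ℝ) (hN : 1 ≤ N) (hs : s = 1 ∨ s = -1)
    (hΘ : Θ ≤ 1) (hE : 0 ≤ E) (hP : 1 ≤ P) (hF : ∀ n ∈ Icc 1 N, |f n| ≤ Fm)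
    (h : ∀ u, u ≤ N → ‖∑ n ∈ Icc 1 u, (f n : ℂ) * ee (n * α)‖ ≤ E) :
    ‖Mel (gg f N α a Θ s) t‖
      ≤ 2 * (1 + 7 * (1 / P) * N) * E / Real.sqrt P
        + 30 * Fm * (1 + |t|) * Real.sqrt P * (1 + Real.log N) := by
  have hP0 : 0 < P := by linarith
  have ht : 0 ≤ |t| := abs_nonneg t
  have hFm : 0 ≤ Fm := (abs_nonneg _).trans (hF 1 (mem_Icc.mpr ⟨le_rfl, hN⟩))
  have hlog : 0 ≤ Real.log N := Real.log_natCast_nonneg N
  have hA : 0 ≤ 2 * (1 + 7 * (1 / P) * N) * E / Real.sqrt P := by positivity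
  have hB : 0 ≤ 30 * Fm * (1 + |t|) * Real.sqrt P * (1 + Real.log N) := by positivity
  rw [melB_mel]
  rcases le_or_gt Θ 0 with h0 | h0
  · rw [Set.Ioc_eq_empty (by simpa using h0), Measure.restrict_empty, integral_zero_measure,
      norm_zero]
    linarith
  rw [← intervalIntegral.integral_of_le h0.le]
  rcases le_or_gt Θ (1 / P) with h1 | h1
  · have h2 := melB_near f N α a s t E P Θ hs hE hP h0.le h1 h
    linarith
  · rw [← intervalIntegral.integral_add_adjacent_intervals (b := 1 / P)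
      (melB_intble t 0 (1 / P) _ (melB_cont f N α a s))
      (melB_intble t (1 / P) Θ _ (melB_cont f N α a s))]
    refine (norm_add_le _ _).trans (add_le_add ?_ ?_)
    · exact melB_near f N α a s t E P (1 / P) hs hE hP (by positivity) le_rfl h
    · exact melB_far f N α a Θ s t Fm P hN hs h1.le hΘ hP hF

end Pool.Agent.H76.EHB

end

section

/-!
# EHB MelT: the Mellin transform for large `t`

On `(0, Θ]`, `Θ ≤ 1`, `g(θ) = p(θ) = FF(α+sθ) e(-a s θ)` with `|p| ≤ F1 = ∑|f|`, `|p'| ≤ 2π (N + |a|) F1`.  Integrate by parts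
`∫_0^Θ p θ^{-1/2-it} = [p θ^{1/2-it}/(1/2-it)]_0^Θ - ∫ p' θ^{1/2-it}/(1/2-it)`, `|1/2 - it| ≥ |t|`.
(If `Θ ≤ 0` everything is 0.)
-/

set_option autoImplicit false

namespace Pool.Agent.H76.EHB

open Finset MeasureTheory
open Pool.Agent.H91.PK (ee)

/-- one frequency: integrability and the bound, by one integration by parts -/
private theorem melT_term (β Θ t : ℝ) (h0 : 0 ≤ Θ) (h1 : Θ ≤ 1) (ht : t ≠ 0) :
    IntervalIntegrable (fun θ : ℝ => ee (β * θ) * (θ : ℂ) ^ (-(1 / 2 : ℂ) - t * Complex.I))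
      volume 0 Θ ∧
    ‖∫ θ in (0 : ℝ)..Θ, ee (β * θ) * (θ : ℂ) ^ (-(1 / 2 : ℂ) - t * Complex.I)‖
      ≤ (1 + 2 * Real.pi * |β|) / |t| := by
  set r : ℂ := -(1 / 2 : ℂ) - t * Complex.I with hr
  have hre : r.re = -(1 / 2) := by
    rw [hr]
    simp
  have hre1 : (r + 1).re = 1 / 2 := by
    rw [Complex.add_re, hre]
    norm_num
  have him1 : (r + 1).im = -t := by
    rw [hr]
    simp
  have hr1 : r ≠ -1 := by
    intro h
    rw [h] at hre
    norm_num at hre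
  have hr2 : r + 1 ≠ 0 := by
    intro h
    rw [h] at hre1
    norm_num at hre1
  have hnr : |t| ≤ ‖r + 1‖ := by
    have := Complex.abs_im_le_norm (r + 1)
    rwa [him1, abs_neg] at this
  have ht0 : 0 < |t| := abs_pos.2 ht
  have hcont : Continuous (fun θ : ℝ => ee (β * θ)) :=
    continuous_iff_continuousAt.2 fun θ => (Pool.Agent.H91.PK.LSa_hasDeriv β θ).continuousAt
  have hint : IntervalIntegrable (fun θ : ℝ => (θ : ℂ) ^ r) volume 0 Θ := by
    apply intervalIntegral.intervalIntegrable_cpow'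
    rw [hre]
    norm_num
  have hvc : Continuous (fun θ : ℝ => (θ : ℂ) ^ (r + 1) / (r + 1)) :=
    (Complex.continuous_ofReal_cpow_const (by rw [hre1]; norm_num)).div_const _
  have hv : ∀ θ : ℝ, 0 ≤ θ → θ ≤ 1 → ‖(θ : ℂ) ^ (r + 1) / (r + 1)‖ ≤ 1 / |t| := by
    intro θ hθ0 hθ1
    rw [norm_div]
    have h2 : ‖(θ : ℂ) ^ (r + 1)‖ ≤ 1 := by
      rcases hθ0.eq_or_lt with h | h
      · rw [← h, Complex.ofReal_zero, Complex.zero_cpow hr2, norm_zero]
        norm_num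
      · rw [Complex.norm_cpow_eq_rpow_re_of_pos h, hre1]
        exact Real.rpow_le_one hθ0 hθ1 (by norm_num)
    gcongr
  refine ⟨hint.continuousOn_mul hcont.continuousOn, ?_⟩
  have hibp := intervalIntegral.integral_mul_deriv_eq_deriv_mul_of_hasDerivAt
    (a := 0) (b := Θ) (u := fun θ : ℝ => ee (β * θ))
    (u' := fun θ : ℝ => (2 * Real.pi * β * Complex.I) * ee (β * θ))
    (v := fun θ : ℝ => (θ : ℂ) ^ (r + 1) / (r + 1)) (v' := fun θ : ℝ => (θ : ℂ) ^ r)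
    hcont.continuousOn hvc.continuousOn
    (fun x _ => Pool.Agent.H91.PK.LSa_hasDeriv β x)
    (fun x hx => by
      rw [min_eq_left h0] at hx
      exact hasDerivAt_ofReal_cpow_const' hx.1.ne' hr1)
    (Continuous.intervalIntegrable (by fun_prop) 0 Θ) hint
  rw [hibp]
  have hz : ee (β * 0) * (((0 : ℝ) : ℂ) ^ (r + 1) / (r + 1)) = 0 := by
    rw [Complex.ofReal_zero, Complex.zero_cpow hr2, zero_div, mul_zero]
  rw [hz, sub_zero]
  have hb1 : ‖ee (β * Θ) * ((Θ : ℂ) ^ (r + 1) / (r + 1))‖ ≤ 1 / |t| := by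
    rw [norm_mul, Pool.Agent.H91.PK.LSa_norm_ee, one_mul]
    exact hv Θ h0 h1
  have hb2 : ‖∫ θ in (0 : ℝ)..Θ, (2 * Real.pi * β * Complex.I) * ee (β * θ) *
      ((θ : ℂ) ^ (r + 1) / (r + 1))‖ ≤ (2 * Real.pi * |β| * (1 / |t|)) * |Θ - 0| := by
    apply intervalIntegral.norm_integral_le_of_norm_le_const
    intro θ hθ
    rw [Set.uIoc_of_le h0] at hθ
    have hn : ‖(2 * Real.pi * β * Complex.I : ℂ)‖ = 2 * Real.pi * |β| := by
      rw [norm_mul, Complex.norm_I, mul_one, norm_mul, norm_mul, Complex.norm_real,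
        Complex.norm_real, Real.norm_eq_abs, Real.norm_eq_abs, abs_of_pos Real.pi_pos]
      norm_num
    rw [norm_mul, norm_mul, hn, Pool.Agent.H91.PK.LSa_norm_ee, mul_one]
    have := hv θ hθ.1.le (hθ.2.trans h1)
    have hpi := Real.pi_pos
    gcongr
  calc ‖ee (β * Θ) * ((Θ : ℂ) ^ (r + 1) / (r + 1)) -
        ∫ θ in (0 : ℝ)..Θ, (2 * Real.pi * β * Complex.I) * ee (β * θ) *
          ((θ : ℂ) ^ (r + 1) / (r + 1))‖
      ≤ 1 / |t| + (2 * Real.pi * |β| * (1 / |t|)) * |Θ - 0| :=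
        (norm_sub_le _ _).trans (add_le_add hb1 hb2)
    _ ≤ 1 / |t| + (2 * Real.pi * |β| * (1 / |t|)) * 1 := by
        have hpi := Real.pi_pos
        have : |Θ - 0| ≤ 1 := by
          rw [sub_zero, abs_of_nonneg h0]
          exact h1
        gcongr
    _ = (1 + 2 * Real.pi * |β|) / |t| := by ring

theorem mel_tail (f : ℕ → ℝ) (N : ℕ) (α a Θ s t : ℝ) (hs : s = 1 ∨ s = -1) (hΘ : Θ ≤ 1) (ht : t ≠ 0) :
    ‖Mel (gg f N α a Θ s) t‖ ≤ 7 * (N + |a| + 1) * (∑ n ∈ Icc 1 N, |f n|) / |t| := by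
  have ht0 : 0 < |t| := abs_pos.2 ht
  have hF : 0 ≤ ∑ n ∈ Icc 1 N, |f n| := Finset.sum_nonneg fun _ _ => abs_nonneg _
  rcases lt_or_ge Θ 0 with h0 | h0
  · have hg : gg f N α a Θ s = fun _ => 0 := by
      funext θ
      unfold gg
      rw [if_neg]
      rintro ⟨h2, h3⟩
      linarith
    rw [hg]
    unfold Mel mellin
    simp only [smul_zero, integral_zero, norm_zero]
    positivity
  · have hkey : Mel (gg f N α a Θ s) t = ∑ n ∈ Icc 1 N, ((f n : ℂ) * ee (n * α)) *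
        ∫ θ in (0 : ℝ)..Θ, ee ((s * ((n : ℝ) - a)) * θ) * (θ : ℂ) ^ (-(1 / 2 : ℂ) - t * Complex.I) := by
      unfold Mel mellin
      have hexp : ((1 / 2 : ℂ) - t * Complex.I - 1) = -(1 / 2 : ℂ) - t * Complex.I := by ring
      rw [hexp]
      have hE : ∫ θ in Set.Ioi (0 : ℝ), (θ : ℂ) ^ (-(1 / 2 : ℂ) - t * Complex.I) • gg f N α a Θ s θ
          = ∫ θ in Set.Ioc (0 : ℝ) Θ,
            (θ : ℂ) ^ (-(1 / 2 : ℂ) - t * Complex.I) • gg f N α a Θ s θ := by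
        have hsub : Set.Ioc (0 : ℝ) Θ ⊆ Set.Ioi 0 := fun θ hθ => hθ.1
        apply MeasureTheory.setIntegral_eq_of_subset_of_forall_sdiff_eq_zero measurableSet_Ioi hsub
        intro θ hθ
        have : ¬ (0 < θ ∧ θ ≤ Θ) := fun h => hθ.2 ⟨h.1, h.2⟩
        unfold gg
        rw [if_neg this, smul_zero]
      rw [hE, ← intervalIntegral.integral_of_le h0]
      simp only [← intervalIntegral.integral_const_mul]
      rw [← intervalIntegral.integral_finsetSum]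
      · apply intervalIntegral.integral_congr_ae
        refine Filter.Eventually.of_forall fun θ hθ => ?_
        rw [Set.uIoc_of_le h0] at hθ
        unfold gg FF
        rw [if_pos ⟨hθ.1, hθ.2⟩, smul_eq_mul, Finset.sum_mul, Finset.mul_sum]
        refine Finset.sum_congr rfl fun n _ => ?_
        have h2 : ee ((n : ℝ) * (α + s * θ)) * ee (-(a * s * θ)) =
            ee (n * α) * ee ((s * ((n : ℝ) - a)) * θ) := by
          rw [← Pool.Agent.H91.PK.LSa_ee_add, ← Pool.Agent.H91.PK.LSa_ee_add]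
          congr 1
          ring
        calc (θ : ℂ) ^ (-(1 / 2 : ℂ) - t * Complex.I) *
              ((f n : ℂ) * ee ((n : ℝ) * (α + s * θ)) * ee (-(a * s * θ)))
            = (θ : ℂ) ^ (-(1 / 2 : ℂ) - t * Complex.I) * (f n : ℂ) *
              (ee ((n : ℝ) * (α + s * θ)) * ee (-(a * s * θ))) := by ring
          _ = _ := by rw [h2]; ring
      · intro n _
        exact (melT_term (s * ((n : ℝ) - a)) Θ t h0 hΘ ht).1.const_mul _
    rw [hkey]
    have habs : |s| = 1 := by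
      rcases hs with h | h <;> rw [h] <;> norm_num
    calc ‖∑ n ∈ Icc 1 N, ((f n : ℂ) * ee (n * α)) *
        ∫ θ in (0 : ℝ)..Θ, ee ((s * ((n : ℝ) - a)) * θ) *
          (θ : ℂ) ^ (-(1 / 2 : ℂ) - t * Complex.I)‖
        ≤ ∑ n ∈ Icc 1 N, |f n| * (7 * (N + |a| + 1) / |t|) := by
          refine (norm_sum_le _ _).trans (Finset.sum_le_sum fun n hn => ?_)
          rw [norm_mul, norm_mul, Pool.Agent.H91.PK.LSa_norm_ee, mul_one, Complex.norm_real,
            Real.norm_eq_abs]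
          gcongr
          refine (melT_term (s * ((n : ℝ) - a)) Θ t h0 hΘ ht).2.trans ?_
          have hn2 : (n : ℝ) ≤ N := by exact_mod_cast (mem_Icc.1 hn).2
          have hb : |s * ((n : ℝ) - a)| ≤ N + |a| := by
            rw [abs_mul, habs, one_mul]
            refine (abs_sub _ _).trans ?_
            rw [Nat.abs_cast]
            linarith
          have hpi : Real.pi ≤ 3.15 := Real.pi_lt_d2.le
          have hpi0 := Real.pi_pos
          have hna : (0 : ℝ) ≤ N + |a| := by positivity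
          gcongr
          calc 1 + 2 * Real.pi * |s * ((n : ℝ) - a)| ≤ 1 + 2 * 3.15 * (N + |a|) := by gcongr
            _ ≤ 7 * (N + |a| + 1) := by linarith
      _ = 7 * (N + |a| + 1) * (∑ n ∈ Icc 1 N, |f n|) / |t| := by
          rw [← Finset.sum_mul]
          ring

end Pool.Agent.H76.EHB

end

section

/-!
# EHB JB: the bound for `II`

`int_sum_sq`; `‖ZZ S t‖ ≤ ∑_{k ≤ K} k^{-1/2} ≤ 2 √K` for `S ⊆ Icc 1 K`.  Split the `t`-integral of `‖ZZ‖²‖Mel‖²` into `|t| ≤ T0`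
(`≤ 4K * 2 T0 * MB²`), `T0 < |t| ≤ T1` (`≤ ZB * ∫‖Mel‖² ≤ ZB * 2π S2`, `mel_planch`, `gg_L2`), `|t| > T1`
(`≤ 4K * 2 * (7 (N+|a|+1) F1)²/T1`, `mel_tail`, `∫_{T1}^∞ dt/t² = 1/T1`).  Divide by `2π`.
-/

set_option autoImplicit false

namespace Pool.Agent.H76.EHB

open Finset MeasureTheory
open Pool.Agent.H91.PK (ee)

theorem jb_sum (K : ℕ) : ∑ k ∈ Icc 1 K, 1 / Real.sqrt (k : ℝ) ≤ 2 * Real.sqrt K := by
  induction K with
  | zero => simp
  | succ n ih =>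
    rw [Finset.sum_Icc_succ_top (by omega)]
    have h0 : (0 : ℝ) ≤ n := Nat.cast_nonneg n
    have h1 : (0 : ℝ) < ((n + 1 : ℕ) : ℝ) := by positivity
    have hb : 0 < Real.sqrt ((n + 1 : ℕ) : ℝ) := Real.sqrt_pos.2 h1
    have ha : 0 ≤ Real.sqrt (n : ℝ) := Real.sqrt_nonneg _
    have hb2 : Real.sqrt ((n + 1 : ℕ) : ℝ) ^ 2 = (n : ℝ) + 1 := by
      rw [Real.sq_sqrt h1.le]; push_cast; ring
    have ha2 : Real.sqrt (n : ℝ) ^ 2 = (n : ℝ) := Real.sq_sqrt h0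
    have key : 1 / Real.sqrt ((n + 1 : ℕ) : ℝ)
        ≤ 2 * Real.sqrt ((n + 1 : ℕ) : ℝ) - 2 * Real.sqrt (n : ℝ) := by
      rw [div_le_iff₀ hb]
      nlinarith only [hb2, ha2, sq_nonneg (Real.sqrt ((n + 1 : ℕ) : ℝ) - Real.sqrt (n : ℝ))]
    linarith only [ih, key]

theorem jb_norm_term (k : ℕ) (hk : 1 ≤ k) (t : ℝ) :
    ‖(k : ℂ) ^ (-(1 / 2 : ℂ) + t * Complex.I)‖ = 1 / Real.sqrt (k : ℝ) := by
  rw [Complex.norm_natCast_cpow_of_pos (by omega)]
  have h : (-(1 / 2 : ℂ) + t * Complex.I).re = -(1 / 2 : ℝ) := by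
    simp
  rw [h, Real.rpow_neg (Nat.cast_nonneg k), ← Real.sqrt_eq_rpow, one_div]

theorem norm_ZZ_sq_le (K : ℕ) (S : Finset ℕ) (hS : S ⊆ Icc 1 K) (t : ℝ) : ‖ZZ S t‖ ^ 2 ≤ 4 * K := by
  have h1 : ‖ZZ S t‖ ≤ 2 * Real.sqrt K := by
    unfold ZZ
    refine (norm_sum_le _ _).trans ?_
    have h2 : ∑ k ∈ S, ‖(k : ℂ) ^ (-(1 / 2 : ℂ) + t * Complex.I)‖
        = ∑ k ∈ S, 1 / Real.sqrt (k : ℝ) :=
      Finset.sum_congr rfl fun k hk => jb_norm_term k (Finset.mem_Icc.1 (hS hk)).1 t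
    rw [h2]
    refine (Finset.sum_le_sum_of_subset_of_nonneg hS ?_).trans (jb_sum K)
    intro i _ _
    positivity
  have h3 : (2 * Real.sqrt K) ^ 2 = 4 * (K : ℝ) := by
    rw [mul_pow, Real.sq_sqrt (Nat.cast_nonneg K)]; norm_num
  rw [← h3]
  exact pow_le_pow_left₀ (norm_nonneg _) h1 2

/-- the tail function -/
noncomputable def jbh (T1 C t : ℝ) : ℝ := (Set.Ioi T1).indicator (fun t => C * t ^ (-2 : ℝ)) t

theorem jbh_nonneg (T1 C t : ℝ) (hT1 : 1 ≤ T1) (hC : 0 ≤ C) : 0 ≤ jbh T1 C t := by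
  unfold jbh
  refine Set.indicator_nonneg ?_ t
  intro x hx
  have : 0 < x := by have := Set.mem_Ioi.1 hx; linarith
  positivity

theorem jbh_integrable (T1 C : ℝ) (hT1 : 1 ≤ T1) : Integrable (jbh T1 C) := by
  have h : IntegrableOn (fun t : ℝ => C * t ^ (-2 : ℝ)) (Set.Ioi T1) :=
    (integrableOn_Ioi_rpow_of_lt (by norm_num) (by linarith)).const_mul C
  have h2 := (integrable_indicator_iff (measurableSet_Ioi (a := T1))).2 h
  exact h2

theorem jbh_integral (T1 C : ℝ) (hT1 : 1 ≤ T1) : ∫ t, jbh T1 C t = C / T1 := by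
  unfold jbh
  have h0 : 0 < T1 := by linarith
  rw [integral_indicator measurableSet_Ioi, integral_const_mul,
    integral_Ioi_rpow_of_lt (by norm_num) h0]
  have h1 : T1 ^ ((-2 : ℝ) + 1) = T1⁻¹ := by
    rw [show (-2 : ℝ) + 1 = -1 by norm_num, Real.rpow_neg_one]
  rw [h1]
  field_simp
  norm_num

theorem jb_box_integrable (T0 C : ℝ) :
    Integrable ((Set.Icc (-T0) T0).indicator (fun _ : ℝ => C)) := by
  rw [integrable_indicator_iff measurableSet_Icc]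
  exact integrableOn_const (by simp [Real.volume_Icc])

theorem jb_box_integral (T0 C : ℝ) (hT0 : 0 ≤ T0) :
    ∫ t, (Set.Icc (-T0) T0).indicator (fun _ : ℝ => C) t = 2 * T0 * C := by
  rw [integral_indicator measurableSet_Icc, setIntegral_const]
  rw [Measure.real, Real.volume_Icc, ENNReal.toReal_ofReal (by linarith only [hT0]), smul_eq_mul]
  ring

theorem II_le (f : ℕ → ℝ) (N K : ℕ) (α a Θ s T0 T1 MB ZB : ℝ) (S : Finset ℕ) (hS : S ⊆ Icc 1 K)
    (hs : s = 1 ∨ s = -1) (hΘ : Θ ≤ 1) (hT0 : 0 ≤ T0) (hT1 : 1 ≤ T1) (hMB : 0 ≤ MB) (hZB : 0 ≤ ZB)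
    (hM : ∀ t, |t| ≤ T0 → ‖Mel (gg f N α a Θ s) t‖ ≤ MB)
    (hZ : ∀ t, T0 ≤ |t| → |t| ≤ T1 → ‖ZZ S t‖ ^ 2 ≤ ZB) :
    II S (gg f N α a Θ s)
      ≤ 2 * K * T0 * MB ^ 2 + ZB * S2 f N
        + 100 * K * ((N + |a| + 1) * ∑ n ∈ Icc 1 N, |f n|) ^ 2 / T1 := by
  classical
  have hK0 : (0 : ℝ) ≤ K := Nat.cast_nonneg K
  have hS1 : ∀ k ∈ S, 1 ≤ k := fun k hk => (Finset.mem_Icc.1 (hS hk)).1
  have hmeas := gg_measurable f N α a Θ s
  have hbd := norm_gg_le f N α a Θ s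
  have hz : ∀ θ, Θ < θ → gg f N α a Θ s θ = 0 := by
    intro θ hθ
    unfold gg
    rw [if_neg]
    rintro ⟨_, h2⟩
    linarith
  obtain ⟨hint, heq⟩ := int_sum_sq S hS1 (gg f N α a Θ s) hmeas _ Θ hbd hz
  obtain ⟨hMint, hMeq⟩ := mel_planch (gg f N α a Θ s) hmeas _ Θ hbd hz
  have hL2 := gg_L2 f N α a Θ s hΘ hs
  set F1 : ℝ := ∑ n ∈ Icc 1 N, |f n| with hF1
  set W : ℝ := (N + |a| + 1) * F1 with hW
  have hunf : II S (gg f N α a Θ s)
      = 1 / (2 * Real.pi) * ∫ t, ‖ZZ S t‖ ^ 2 * ‖Mel (gg f N α a Θ s) t‖ ^ 2 := heq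
  rw [hunf]
  set C : ℝ := 4 * K * (49 * W ^ 2) with hC
  have hC0 : 0 ≤ C := by positivity
  have hT1p : 0 < T1 := by linarith
  -- the majorant
  have hb1 := jb_box_integrable T0 (4 * K * MB ^ 2)
  have hb2 : Integrable (fun t => ZB * ‖Mel (gg f N α a Θ s) t‖ ^ 2) := hMint.const_mul ZB
  have hb3 := jbh_integrable T1 C hT1
  have hb4 : Integrable (fun t => jbh T1 C (-t)) := hb3.comp_neg
  have hpt : ∀ t, ‖ZZ S t‖ ^ 2 * ‖Mel (gg f N α a Θ s) t‖ ^ 2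
      ≤ (((Set.Icc (-T0) T0).indicator (fun _ : ℝ => 4 * K * MB ^ 2) t
          + ZB * ‖Mel (gg f N α a Θ s) t‖ ^ 2) + jbh T1 C t) + jbh T1 C (-t) := by
    intro t
    have hZ4 := norm_ZZ_sq_le K S hS t
    have hp1 : 0 ≤ (Set.Icc (-T0) T0).indicator (fun _ : ℝ => 4 * (K : ℝ) * MB ^ 2) t :=
      Set.indicator_nonneg (fun _ _ => by positivity) t
    have hp2 : 0 ≤ ZB * ‖Mel (gg f N α a Θ s) t‖ ^ 2 := by positivity
    have hp3 := jbh_nonneg T1 C t hT1 hC0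
    have hp4 := jbh_nonneg T1 C (-t) hT1 hC0
    by_cases h1 : |t| ≤ T0
    · have hin : t ∈ Set.Icc (-T0) T0 := Set.mem_Icc.2 (abs_le.1 h1)
      rw [Set.indicator_of_mem hin]
      have hm : ‖Mel (gg f N α a Θ s) t‖ ^ 2 ≤ MB ^ 2 :=
        pow_le_pow_left₀ (norm_nonneg _) (hM t h1) 2
      have : ‖ZZ S t‖ ^ 2 * ‖Mel (gg f N α a Θ s) t‖ ^ 2 ≤ 4 * K * MB ^ 2 :=
        mul_le_mul hZ4 hm (by positivity) (by positivity)
      linarith only [hp2, hp3, hp4, this]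
    · by_cases h2 : |t| ≤ T1
      · have hz2 := hZ t (not_le.1 h1).le h2
        have : ‖ZZ S t‖ ^ 2 * ‖Mel (gg f N α a Θ s) t‖ ^ 2
            ≤ ZB * ‖Mel (gg f N α a Θ s) t‖ ^ 2 :=
          mul_le_mul_of_nonneg_right hz2 (by positivity)
        linarith only [hp1, hp3, hp4, this]
      · have h3 : T1 < |t| := not_le.1 h2
        have htp : 0 < |t| := by linarith only [hT1, h2]
        have ht0 : t ≠ 0 := abs_pos.1 htp
        have hml := mel_tail f N α a Θ s t hs hΘ ht0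
        have hmm : ‖Mel (gg f N α a Θ s) t‖ ^ 2 ≤ 49 * W ^ 2 / t ^ 2 := by
          have h5 := pow_le_pow_left₀ (norm_nonneg _) hml 2
          refine h5.trans (le_of_eq ?_)
          rw [div_pow, sq_abs, hW]
          ring
        have hmain : ‖ZZ S t‖ ^ 2 * ‖Mel (gg f N α a Θ s) t‖ ^ 2 ≤ C / t ^ 2 := by
          have h6 : ‖ZZ S t‖ ^ 2 * ‖Mel (gg f N α a Θ s) t‖ ^ 2
              ≤ 4 * K * (49 * W ^ 2 / t ^ 2) :=
            mul_le_mul hZ4 hmm (by positivity) (by positivity)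
          refine h6.trans (le_of_eq ?_)
          rw [hC]
          ring
        have hval : C / t ^ 2 = C * |t| ^ (-2 : ℝ) := by
          rw [Real.rpow_neg (abs_nonneg t)]
          have : |t| ^ (2 : ℝ) = t ^ 2 := by
            rw [show (2 : ℝ) = ((2 : ℕ) : ℝ) by norm_num, Real.rpow_natCast, sq_abs]
          rw [this]
          ring
        rcases le_or_gt 0 t with h7 | h7
        · have habs : |t| = t := abs_of_nonneg h7
          have hj : jbh T1 C t = C * |t| ^ (-2 : ℝ) := by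
            unfold jbh
            have hin : t ∈ Set.Ioi T1 := by rw [Set.mem_Ioi, ← habs]; exact h3
            rw [Set.indicator_of_mem hin, habs]
          linarith only [hp1, hp2, hp4, hmain, hval, hj]
        · have habs : |t| = -t := abs_of_neg h7
          have hj : jbh T1 C (-t) = C * |t| ^ (-2 : ℝ) := by
            unfold jbh
            have hin : -t ∈ Set.Ioi T1 := by rw [Set.mem_Ioi, ← habs]; exact h3
            rw [Set.indicator_of_mem hin, habs]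
          linarith only [hp1, hp2, hp3, hmain, hval, hj]
  have hb12 : Integrable (fun t => (Set.Icc (-T0) T0).indicator (fun _ : ℝ => 4 * (K : ℝ) * MB ^ 2) t
      + ZB * ‖Mel (gg f N α a Θ s) t‖ ^ 2) := hb1.add hb2
  have hb123 : Integrable (fun t => ((Set.Icc (-T0) T0).indicator
      (fun _ : ℝ => 4 * (K : ℝ) * MB ^ 2) t + ZB * ‖Mel (gg f N α a Θ s) t‖ ^ 2) + jbh T1 C t) :=
    hb12.add hb3
  have hb1234 : Integrable (fun t => (((Set.Icc (-T0) T0).indicator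
      (fun _ : ℝ => 4 * (K : ℝ) * MB ^ 2) t + ZB * ‖Mel (gg f N α a Θ s) t‖ ^ 2) + jbh T1 C t)
        + jbh T1 C (-t)) := hb123.add hb4
  have hI := integral_mono hint hb1234 hpt
  have hcalc : ∫ t, ((((Set.Icc (-T0) T0).indicator (fun _ : ℝ => 4 * K * MB ^ 2) t
          + ZB * ‖Mel (gg f N α a Θ s) t‖ ^ 2) + jbh T1 C t) + jbh T1 C (-t))
      = 2 * T0 * (4 * K * MB ^ 2) + ZB * (2 * Real.pi *
          ∫ θ in Set.Ioi (0 : ℝ), ‖gg f N α a Θ s θ‖ ^ 2) + C / T1 + C / T1 := by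
    rw [integral_add hb123 hb4, integral_add hb12 hb3, integral_add hb1 hb2, jb_box_integral T0 _ hT0, integral_const_mul, hMeq,
      integral_neg_eq_self (jbh T1 C) volume, jbh_integral T1 C hT1]
  have hI2 : ∫ t, ‖ZZ S t‖ ^ 2 * ‖Mel (gg f N α a Θ s) t‖ ^ 2
      ≤ 2 * T0 * (4 * K * MB ^ 2) + ZB * (2 * Real.pi * S2 f N) + C / T1 + C / T1 := by
    have hI3 : ∫ t, ‖ZZ S t‖ ^ 2 * ‖Mel (gg f N α a Θ s) t‖ ^ 2
        ≤ 2 * T0 * (4 * K * MB ^ 2) + ZB * (2 * Real.pi *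
          ∫ θ in Set.Ioi (0 : ℝ), ‖gg f N α a Θ s θ‖ ^ 2) + C / T1 + C / T1 := by
      rw [← hcalc]
      exact hI
    have : ZB * (2 * Real.pi * ∫ θ in Set.Ioi (0 : ℝ), ‖gg f N α a Θ s θ‖ ^ 2)
        ≤ ZB * (2 * Real.pi * S2 f N) := by
      refine mul_le_mul_of_nonneg_left ?_ hZB
      exact mul_le_mul_of_nonneg_left hL2 (by positivity)
    linarith only [hI, hcalc, this]
  have hpi3 : 3.14 < Real.pi := Real.pi_gt_d2
  have hpi0 : 0 < 2 * Real.pi := by positivity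
  rw [one_div, inv_mul_le_iff₀ hpi0]
  refine hI2.trans ?_
  have e1 : 2 * T0 * (4 * K * MB ^ 2) ≤ 2 * Real.pi * (2 * K * T0 * MB ^ 2) := by
    have : 0 ≤ K * T0 * MB ^ 2 := by positivity
    nlinarith only [this, hpi3]
  have e2 : C / T1 + C / T1 ≤ 2 * Real.pi * (100 * K * W ^ 2 / T1) := by
    have h8 : C / T1 + C / T1 = 392 * (K * W ^ 2 / T1) := by rw [hC]; ring
    have h9 : 2 * Real.pi * (100 * K * W ^ 2 / T1) = 200 * Real.pi * (K * W ^ 2 / T1) := by ring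
    rw [h8, h9]
    have : 0 ≤ K * W ^ 2 / T1 := by positivity
    nlinarith only [this, hpi3]
  have e3 : ZB * (2 * Real.pi * S2 f N) = 2 * Real.pi * (ZB * S2 f N) := by ring
  rw [e3]
  nlinarith only [e1, e2]

end Pool.Agent.H76.EHB

end
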