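import Pool.Agent.H94.EH.H88.PSI.Defs
import Pool.Agent.H94.EH.H91.EHA.Defs
import Pool.Agent.H94.EH.M01

/-! The parts of this file: H91.L1.Defs, H65.MS.SMa, H88.PSI.Pw, H88.PSI.Dks, H97.VK.SDef, H76.VKT.SDef, H43.MP.Mrt, H97.VK.TailA, H91.PK.CA. -/

section

/-!
# PROJECT L1 (MP_a78e8f_nt): level of distribution one, definitions

`L = log x`, `R = ⌊L^B⌋`, `hR R = Λ - Λ_R` (`Pool/Agent/H91/EHA/Defs.lean`).

* `fz R n` is `hR R n` for `n ≥ 1` and `0` for `n ≤ 0` (`n` an integer);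
* `Wd h d H w = ∑_{w < n ≤ w + H, n ≡ w (d)} h(n)`;
* `GG h a0 H Q d k n = ∑_{Q < q ≤ 2Q, a0 < n - q k ≤ a0 + H} h(n + q d)`;
* `TT R a0 H Q k k' = ∑_{Q < q ≤ 2Q} ∑_{a0 < a ≤ a0 + H} fz(a + q k) fz(a + q k')`;
* `HuxProp`: primes in almost all intervals of length `X^(1/6+e)`, in residue classes modulo `d ≤ (log X)^B`
  (project PSI of helper88).
-/

set_option autoImplicit false

namespace Pool.Agent.H91.L1

open Finset
open Pool.Agent.H91.EHA (Lam lamR hR psiA err)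

/-- `hR` on the integers, zero on `n ≤ 0` -/
noncomputable def fz (R : ℕ) (n : ℤ) : ℝ := if 1 ≤ n then hR R n.toNat else 0

/-- the sum over the window `(w, w + H]` in the class of `w` -/
noncomputable def Wd (h : ℕ → ℝ) (d H w : ℕ) : ℝ :=
  ∑ n ∈ (Ioc w (w + H)).filter (fun n => n ≡ w [MOD d]), h n

/-- the inner sum -/
noncomputable def GG (h : ℕ → ℝ) (a0 H Q d : ℕ) (k : ℤ) (n : ℕ) : ℝ :=
  ∑ q ∈ (Ioc Q (2 * Q)).filter
    (fun q : ℕ => (a0 : ℤ) < (n : ℤ) - q * k ∧ (n : ℤ) - q * k ≤ a0 + H), h (n + q * d)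

/-- the pair sum -/
noncomputable def TT (R a0 H Q : ℕ) (k k' : ℤ) : ℝ :=
  ∑ q ∈ Ioc Q (2 * Q), ∑ a ∈ Ioc a0 (a0 + H), fz R ((a : ℤ) + q * k) * fz R ((a : ℤ) + q * k')

/-- primes in almost all short intervals, in residue classes -/
def HuxProp : Prop := ∀ e : ℝ, 0 < e → ∀ A B : ℕ, ∃ X0 : ℕ, ∀ X : ℕ, X0 ≤ X → ∀ d u H : ℕ, 1 ≤ d →
  (d : ℝ) ≤ Real.log X ^ B → Nat.Coprime u d →
  (X : ℝ) ^ (1 / 6 + e) ≤ H → (H : ℝ) ≤ (X : ℝ) ^ (1 / 3 : ℝ) →
  ∑ w ∈ Ico X (2 * X), ((∑ n ∈ (Ioc w (w + H)).filter (fun n => n ≡ u [MOD d]), Lam n)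
    - (H : ℝ) / (d.totient : ℝ)) ^ 2 ≤ X * (H : ℝ) ^ 2 / Real.log X ^ A

end Pool.Agent.H91.L1

end

section

/-!
# MS SMa: numerical part of the second moment bound

Notation: `X = x`, `L = log x`, `r = R ≤ x^ρ`, `R ≥ x^ρ/2`, `S ≤ 40 x`, `K ≤ 3x/Q` etc.
-/

set_option autoImplicit false

namespace Pool.Agent.H65.MS

open Finset

/-- logarithms are smaller than powers -/
theorem log_pow_ev (s C : ℝ) (hs : 0 < s) (c : ℕ) :
    ∃ x0 : ℕ, ∀ x : ℕ, x0 ≤ x → 1 ≤ x ∧ C ≤ Real.log x ∧ C * Real.log x ^ c ≤ (x : ℝ) ^ s := by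
  have h1 : ∀ᶠ x : ℝ in Filter.atTop, C ≤ Real.log x :=
    Real.tendsto_log_atTop.eventually_ge_atTop C
  have h0 : ∀ᶠ x : ℝ in Filter.atTop, 0 ≤ Real.log x :=
    Real.tendsto_log_atTop.eventually_ge_atTop 0
  have hC : 0 < 1 / (|C| + 1) := by positivity
  have h2 := (isLittleO_log_rpow_rpow_atTop (c : ℝ) hs).bound hC
  have h3 := tendsto_natCast_atTop_atTop.eventually ((h1.and h0).and h2)
  obtain ⟨x0, hx0⟩ := Filter.eventually_atTop.1 h3
  refine ⟨max x0 1, fun x hx => ?_⟩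
  obtain ⟨⟨h4, h5⟩, h6⟩ := hx0 x ((le_max_left _ _).trans hx)
  refine ⟨(le_max_right _ _).trans hx, h4, ?_⟩
  rw [Real.rpow_natCast, Real.norm_of_nonneg (pow_nonneg h5 c),
    Real.norm_of_nonneg (Real.rpow_nonneg (Nat.cast_nonneg x) s)] at h6
  have h7 : 0 < |C| + 1 := by positivity
  have h8 : (|C| + 1) * Real.log x ^ c ≤ (x : ℝ) ^ s := by
    have h9 := mul_le_mul_of_nonneg_left h6 h7.le
    rwa [← mul_assoc, mul_one_div_cancel h7.ne', one_mul] at h9
  refine le_trans ?_ h8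
  apply mul_le_mul_of_nonneg_right _ (pow_nonneg h5 c)
  have := le_abs_self C
  linarith only [this]

private theorem SMa_t1 (A X k u L S l : ℝ) (hA : 0 < A) (hX : 0 < X) (hk : 1 ≤ k) (hu : 0 < u)
    (hL : 1 ≤ L) (hS : S ≤ 40 * X) (hl : l ≤ L) (hl0 : 0 ≤ l) (f1 : k ≤ 4 * A * u) (f2 : 1 ≤ k * u) :
    4 * S * (k + A * (1 + l)) ≤ (640 + 320 * L) * (A * X * k * u) := by
  have h1 : 0 ≤ k + A * (1 + l) := by positivity
  have h2 : 4 * S * (k + A * (1 + l)) ≤ 160 * X * (k + A * (1 + l)) := by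
    apply mul_le_mul_of_nonneg_right _ h1
    linarith only [hS]
  refine h2.trans ?_
  have h3 : k ≤ 4 * (A * k * u) := by
    have h4 : 4 * A * u * 1 ≤ 4 * A * u * k := mul_le_mul_of_nonneg_left hk (by positivity)
    linarith
  have h4 : A * (1 + l) ≤ 2 * L * (A * k * u) := by
    have h5 : A * (1 + l) ≤ A * (2 * L) := mul_le_mul_of_nonneg_left (by linarith) hA.le
    have h6 : A * (2 * L) * 1 ≤ A * (2 * L) * (k * u) := mul_le_mul_of_nonneg_left f2 (by positivity)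
    linarith
  have h5 : 160 * X * (k + A * (1 + l)) ≤ 160 * X * (4 * (A * k * u) + 2 * L * (A * k * u)) :=
    mul_le_mul_of_nonneg_left (by linarith) (by positivity)
  have h6 : 160 * X * (4 * (A * k * u) + 2 * L * (A * k * u)) = (640 + 320 * L) * (A * X * k * u) := by
    ring
  linarith only [h5]

private theorem SMa_t2 (A X k u L S l r : ℝ) (hA : 0 < A) (hX : 0 < X) (hk : 1 ≤ k) (hu : 0 < u)
    (hL : 1 ≤ L) (hS0 : 0 ≤ S) (hS : S ≤ 40 * X) (hl : l ≤ 1 + L) (hl0 : 0 ≤ l)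
    (f1 : k ≤ 4 * A * u) (f3 : 1 ≤ 2 * (r * u)) (hr : 0 < r) :
    128 * S * (1 + l) * (A * k / r + k ^ 2) ≤ 92160 * L * (A * X * k * u) := by
  have h1 : S * (1 + l) ≤ 40 * X * (3 * L) := mul_le_mul hS (by linarith only [hL, hl]) (by linarith) (by positivity)
  have h2 : A * k / r ≤ 2 * (A * k * u) := by
    rw [div_le_iff₀ hr]
    have h3 : A * k * 1 ≤ A * k * (2 * (r * u)) := mul_le_mul_of_nonneg_left f3 (by positivity)
    linarith only [h3]
  have h3 : k ^ 2 ≤ 4 * (A * k * u) := by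
    have h4 : k * k ≤ k * (4 * A * u) := mul_le_mul_of_nonneg_left f1 (by linarith only [hk])
    nlinarith only [h4]
  calc 128 * S * (1 + l) * (A * k / r + k ^ 2) = 128 * ((S * (1 + l)) * (A * k / r + k ^ 2)) := by ring
    _ ≤ 128 * ((40 * X * (3 * L)) * (6 * (A * k * u))) := by
        apply mul_le_mul_of_nonneg_left _ (by norm_num)
        exact mul_le_mul h1 (by linarith only [h2, h3]) (by positivity) (by positivity)
    _ = 92160 * L * (A * X * k * u) := by ring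

private theorem SMa_sum (T1 T2 a b c W L : ℝ) (hL : 1 ≤ L) (hW : 0 ≤ W)
    (h1 : T1 ≤ (640 + 320 * L) * W) (h2 : T2 ≤ 92160 * L * W) (h3 : a ≤ 5440 * L * W)
    (h4 : b ≤ 2560 * W) (h5 : c ≤ 16 * W) : T1 + T2 + (a + b + c) ≤ 102000 * L * W := by
  have h6 : W ≤ L * W := by
    have := mul_le_mul_of_nonneg_right hL hW
    rwa [one_mul] at this
  have h7 : (640 + 320 * L) * W = 640 * W + 320 * (L * W) := by ring
  have h8 : 92160 * L * W = 92160 * (L * W) := by ring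
  have h9 : 5440 * L * W = 5440 * (L * W) := by ring
  have h10 : 102000 * L * W = 102000 * (L * W) := by ring
  rw [h7] at h1
  rw [h8] at h2
  rw [h9] at h3
  rw [h10]
  linarith only [hW, h1, h2, h3, h4, h5, h6]

private theorem SMa_sq (L : ℝ) (hL : 10 ≤ L) : -L ^ 2 ≤ L * -(10 : ℝ) := by
  have h := mul_le_mul_of_nonneg_left hL (by linarith only [hL] : (0 : ℝ) ≤ L)
  rw [sq]
  linarith

private theorem SMa_exp_pi : Real.exp Real.pi ≤ 81 := by
  have h1 : Real.exp Real.pi ≤ Real.exp 4 := Real.exp_le_exp.2 Real.pi_le_four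
  have h2 : Real.exp 4 = Real.exp 1 ^ 4 := by
    rw [← Real.exp_nat_mul]
    norm_num
  have h3 : Real.exp 1 ≤ 3 := by linarith only [Real.exp_one_lt_d9]
  have h4 := pow_le_pow_left₀ (Real.exp_pos 1).le h3 4
  rw [h2] at h1
  norm_num at h4
  linarith

private theorem SMa_end (A X k Q L u v W : ℝ) (hA : 0 < A) (hX : 0 < X) (hQ : 1 ≤ Q) (hu : 0 < u)
    (hv : 0 < v) (huv : 300000000 * L * u ≤ v) (hk : k ≤ 3 * X / Q) (hL : 0 ≤ L)
    (hW : W ≤ 102000 * L * (A * X * k * u)) :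
    Real.exp Real.pi * W ≤ A * X ^ 2 / Q * v / 8 := by
  have hQ0 : 0 < Q := by linarith
  have h1 : Real.exp Real.pi * W ≤ Real.exp Real.pi * (102000 * L * (A * X * (3 * X / Q) * u)) := by
    apply mul_le_mul_of_nonneg_left _ (Real.exp_pos _).le
    refine hW.trans ?_
    apply mul_le_mul_of_nonneg_left _ (by positivity)
    apply mul_le_mul_of_nonneg_right _ hu.le
    exact mul_le_mul_of_nonneg_left hk (by positivity)
  have h2 : Real.exp Real.pi * (102000 * L * (A * X * (3 * X / Q) * u)) ≤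
      81 * (102000 * L * (A * X * (3 * X / Q) * u)) :=
    mul_le_mul_of_nonneg_right SMa_exp_pi (by positivity)
  have h3 : 81 * (102000 * L * (A * X * (3 * X / Q) * u)) =
      A * X ^ 2 / Q * (24786000 * L * u) := by
    field_simp
    ring
  have h4 : A * X ^ 2 / Q * (24786000 * L * u) ≤ A * X ^ 2 / Q * (v / 8) := by
    apply mul_le_mul_of_nonneg_left _ (by positivity)
    have h5 : 0 ≤ L * u := by positivity
    linarith only [hv, huv]
  have h5 : A * X ^ 2 / Q * (v / 8) = A * X ^ 2 / Q * v / 8 := by ring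
  linarith only [h1, h2, h3, h4]

/-- the right side of `second_moment` (times two) plus the trivial terms.

`S ≤ 40x`, `k = K`, `x/Q ≤ k ≤ 3x/Q`, `x^κ ≤ k`, `k x^e/4 ≤ A` (from `x^(1+e) ≤ Q A`), `x^ρ/2 ≤ r ≤ x^ρ`, `r0 ≤ 2 k x^(-4ρ)` (`k x^(-4ρ) ≥ 1`),
`U = 4 k x^(1-5ρ)`, `N ≤ 2x`, `log k ≤ 2L`, `exp(-L^2) ≤ x^(-10)` for `L ≥ 10`.  With `ρ ≤ κ/100`, `ρ ≤ e/100` every term is at most
`A k x * x^(-ρ) * (const) * L` (and `x^(-ρ)` replaced by something smaller in all terms but the one with `A k/r`), and `k ≤ 3x/Q`: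
* `e^π 4 S (k + A (1+log k)) ≤ C A x L`, and `1 ≤ k x^(-κ)`;
* `128 S (1+log 2k) A k/r ≤ C A k x L x^(-ρ)`;  `128 S (1+log 2k) k^2 ≤ C x L k A x^(-e)`;
* `r^2 34 A (1+log k) r0 S ≤ C x^(2ρ) A L k x^(-4ρ) x`;
* `r^2 8 k^2 N S exp(-L^2) ≤ C x^(2ρ) k^2 x^2 x^(-10) ≤ C A k x x^(-5)`;
* `r^2 4 A r U ≤ C x^(3ρ) A k x^(1-5ρ)`. -/
theorem sm_num (κ e : ℝ) (hκ : 0 < κ) (he : 0 < e) (hκ1 : κ ≤ 1) (he1 : e ≤ 1) :
    ∀ ρ : ℝ, 0 < ρ → ρ ≤ κ / 100 → ρ ≤ e / 100 → ∃ x0 : ℕ, ∀ x : ℕ, x0 ≤ x →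
    ∀ Q A k r r0 N S : ℝ, 1 ≤ Q → (x : ℝ) ^ κ ≤ k → x / Q ≤ k → k ≤ 3 * x / Q → k ≤ x →
      k * (x : ℝ) ^ e ≤ 4 * A → (x : ℝ) ^ ρ / 2 ≤ r → r ≤ (x : ℝ) ^ ρ → 0 ≤ r0 →
      r0 ≤ 2 * k * (x : ℝ) ^ (-(4 * ρ)) → 0 ≤ N → N ≤ 2 * x → 0 ≤ S → S ≤ 40 * x →
      Real.exp Real.pi * (4 * S * (k + A * (1 + Real.log k))
          + 128 * S * (1 + Real.log (2 * k)) * (A * k / r + k ^ 2)
          + r ^ 2 * (34 * A * (1 + Real.log k) * r0 * S + 8 * k ^ 2 * N * S * Real.exp (-Real.log x ^ 2)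
            + 4 * A * r * (4 * k * (x : ℝ) ^ (1 - 5 * ρ))))
        ≤ A * (x : ℝ) ^ 2 / Q * (x : ℝ) ^ (-(ρ / 2)) / 8 := by
  intro ρ hρ hρκ hρe
  obtain ⟨x0, hx0⟩ := log_pow_ev (ρ / 2) 300000000 (by positivity) 1
  refine ⟨x0, fun x hx Q A k r r0 N S hQ hk1 hk2 hk3 hkx hA hr1 hr2 hr0 hr0' hN hN' hS hS' => ?_⟩
  obtain ⟨hx1, hL, hLx⟩ := hx0 x hx
  rw [pow_one] at hLx
  have hxr : (1 : ℝ) ≤ x := by exact_mod_cast hx1
  have hx0' : (0 : ℝ) < x := by linarith only [hκ1, hρ, hρκ, hxr]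
  set X : ℝ := (x : ℝ) with hX
  set L := Real.log X with hLdef
  -- powers of `x`
  have hu0 : 0 < X ^ (-ρ) := Real.rpow_pos_of_pos hx0' _
  have hk0 : 1 ≤ k := (Real.one_le_rpow hxr hκ.le).trans hk1
  have hA0 : 0 < A := by
    have h1 : 0 < k * X ^ e := mul_pos (by linarith only [hκ1, hρ, hρκ, hk0]) (Real.rpow_pos_of_pos hx0' _)
    linarith only [hA, h1]
  have hB0 : 0 < A * X * k := by positivity
  -- facts
  have f1 : k ≤ 4 * A * X ^ (-ρ) := by
    have h1 : k * X ^ e * X ^ (-ρ) ≤ 4 * A * X ^ (-ρ) := mul_le_mul_of_nonneg_right hA hu0.le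
    refine le_trans ?_ h1
    rw [mul_assoc, ← Real.rpow_add hx0']
    exact le_mul_of_one_le_right (by linarith only [hκ1, hρ, hρκ, hk0]) (Real.one_le_rpow hxr (by linarith only [hρ, hρe]))
  have f2 : 1 ≤ k * X ^ (-ρ) := by
    have h1 : X ^ κ * X ^ (-ρ) ≤ k * X ^ (-ρ) := mul_le_mul_of_nonneg_right hk1 hu0.le
    refine le_trans ?_ h1
    rw [← Real.rpow_add hx0']
    exact Real.one_le_rpow hxr (by linarith only [hρ, hρκ])
  have hlogk : Real.log k ≤ L := Real.log_le_log (by linarith only [hκ1, hρ, hρκ, hk0]) hkx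
  have hlogk0 : 0 ≤ Real.log k := Real.log_nonneg hk0
  have hlog2k : Real.log (2 * k) ≤ 1 + L := by
    rw [Real.log_mul (by norm_num) (by linarith only [hκ1, hρ, hρκ, hk0])]
    have : Real.log 2 < 1 := by
      have := Real.log_two_lt_d9
      linarith only [hκ1, hρ, hρκ, this]
    linarith only [hlogk, this]
  have hlog2k0 : 0 ≤ Real.log (2 * k) := Real.log_nonneg (by linarith only [hκ1, hρ, hρκ, hk0])
  have t1 := SMa_t1 A X k (X ^ (-ρ)) L S (Real.log k) hA0 hx0' hk0 hu0 (by linarith only [hκ1, hρ, hρκ, hL]) hS' hlogk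
    hlogk0 f1 f2
  have t2 := SMa_t2 A X k (X ^ (-ρ)) L S (Real.log (2 * k)) r hA0 hx0' hk0 hu0 (by linarith only [hκ1, hρ, hρκ, hL]) hS hS'
    hlog2k hlog2k0 f1 (by
      have h1 : X ^ ρ * X ^ (-ρ) = 1 := by
        rw [← Real.rpow_add hx0', add_neg_cancel, Real.rpow_zero]
      have h2 : X ^ ρ / 2 * X ^ (-ρ) ≤ r * X ^ (-ρ) := mul_le_mul_of_nonneg_right hr1 hu0.le
      have h3 : X ^ ρ / 2 * X ^ (-ρ) = 1 / 2 := by rw [div_mul_eq_mul_div, h1]
      linarith only [h1, h2]) (lt_of_lt_of_le (by positivity) hr1)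
  have hr : 0 ≤ r := le_trans (by positivity) hr1
  have hrsq : r ^ 2 ≤ X ^ (2 * ρ) := by
    have h1 := pow_le_pow_left₀ hr hr2 2
    have h2 : (X ^ ρ) ^ 2 = X ^ (2 * ρ) := by
      rw [← Real.rpow_natCast, ← Real.rpow_mul hx0'.le]
      congr 1
      push_cast
      ring
    rwa [h2] at h1
  have hrcb : r ^ 3 ≤ X ^ (3 * ρ) := by
    have h1 := pow_le_pow_left₀ hr hr2 3
    have h2 : (X ^ ρ) ^ 3 = X ^ (3 * ρ) := by
      rw [← Real.rpow_natCast, ← Real.rpow_mul hx0'.le]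
      congr 1
      push_cast
      ring
    rwa [h2] at h1
  have t3a : r ^ 2 * (34 * A * (1 + Real.log k) * r0 * S) ≤ 5440 * L * (A * X * k * X ^ (-ρ)) := by
    have h1 : r ^ 2 * r0 ≤ 2 * k * X ^ (-ρ) := by
      calc r ^ 2 * r0 ≤ X ^ (2 * ρ) * (2 * k * X ^ (-(4 * ρ))) :=
            mul_le_mul hrsq hr0' hr0 (by positivity)
        _ = 2 * k * X ^ (2 * ρ + -(4 * ρ)) := by
            rw [Real.rpow_add hx0']
            ring
        _ ≤ 2 * k * X ^ (-ρ) := by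
            apply mul_le_mul_of_nonneg_left _ (by linarith only [hκ1, hρ, hρκ, hk0])
            exact Real.rpow_le_rpow_of_exponent_le hxr (by linarith only [hρ])
    have h2 : (1 + Real.log k) * S ≤ 2 * L * (40 * X) :=
      mul_le_mul (by linarith only [hκ1, hρ, hρκ, hL, hlogk]) hS' hS (by linarith only [hκ1, hρ, hρκ, hL])
    calc r ^ 2 * (34 * A * (1 + Real.log k) * r0 * S)
        = 34 * A * ((r ^ 2 * r0) * ((1 + Real.log k) * S)) := by ring
      _ ≤ 34 * A * ((2 * k * X ^ (-ρ)) * (2 * L * (40 * X))) := by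
          apply mul_le_mul_of_nonneg_left _ (by linarith only [hA0])
          exact mul_le_mul h1 h2 (by positivity) (by positivity)
      _ = 5440 * L * (A * X * k * X ^ (-ρ)) := by ring
  have t3b : r ^ 2 * (8 * k ^ 2 * N * S * Real.exp (-L ^ 2)) ≤ 2560 * (A * X * k * X ^ (-ρ)) := by
    have h1 : Real.exp (-L ^ 2) ≤ X ^ (-(10 : ℝ)) := by
      rw [Real.rpow_def_of_pos hx0', Real.exp_le_exp, ← hLdef]
      exact SMa_sq L (by linarith only [hκ1, hρ, hρκ, hL])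
    have h2 : r ^ 2 * (X * Real.exp (-L ^ 2)) ≤ X ^ (-ρ) := by
      calc r ^ 2 * (X * Real.exp (-L ^ 2)) ≤ X ^ (2 * ρ) * (X * X ^ (-(10 : ℝ))) := by
            apply mul_le_mul hrsq _ (by positivity) (by positivity)
            exact mul_le_mul_of_nonneg_left h1 hx0'.le
        _ = X ^ (2 * ρ + (1 + -(10 : ℝ))) := by
            rw [Real.rpow_add hx0', Real.rpow_add hx0' 1 (-(10 : ℝ)), Real.rpow_one]
        _ ≤ X ^ (-ρ) := Real.rpow_le_rpow_of_exponent_le hxr (by linarith only [hκ1, hρ, hρκ])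
    have h3 : k ≤ 4 * A := by
      refine le_trans ?_ hA
      exact le_mul_of_one_le_right (by linarith only [hκ1, hρ, hρκ, hk0]) (Real.one_le_rpow hxr he.le)
    have h4 : N * S ≤ 2 * X * (40 * X) := mul_le_mul hN' hS' hS (by positivity)
    have h5 : k * k ≤ k * (4 * A) := mul_le_mul_of_nonneg_left h3 (by linarith only [hκ1, hρ, hρκ, hk0])
    calc r ^ 2 * (8 * k ^ 2 * N * S * Real.exp (-L ^ 2))
        = 8 * ((k * k) * (N * S)) * (r ^ 2 * Real.exp (-L ^ 2)) := by ring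
      _ ≤ 8 * ((k * (4 * A)) * (2 * X * (40 * X))) * (r ^ 2 * Real.exp (-L ^ 2)) := by
          apply mul_le_mul_of_nonneg_right _ (by positivity)
          apply mul_le_mul_of_nonneg_left _ (by norm_num)
          exact mul_le_mul h5 h4 (by positivity) (by positivity)
      _ = 2560 * (A * X * k) * (r ^ 2 * (X * Real.exp (-L ^ 2))) := by ring
      _ ≤ 2560 * (A * X * k) * X ^ (-ρ) := mul_le_mul_of_nonneg_left h2 (by positivity)
      _ = 2560 * (A * X * k * X ^ (-ρ)) := by ring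
  have t3c : r ^ 2 * (4 * A * r * (4 * k * X ^ (1 - 5 * ρ))) ≤ 16 * (A * X * k * X ^ (-ρ)) := by
    have h1 : r ^ 3 * X ^ (1 - 5 * ρ) ≤ X * X ^ (-ρ) := by
      calc r ^ 3 * X ^ (1 - 5 * ρ) ≤ X ^ (3 * ρ) * X ^ (1 - 5 * ρ) :=
            mul_le_mul_of_nonneg_right hrcb (by positivity)
        _ = X ^ (3 * ρ + (1 - 5 * ρ)) := by rw [Real.rpow_add hx0']
        _ ≤ X ^ (1 + -ρ) := Real.rpow_le_rpow_of_exponent_le hxr (by linarith only [hρ])
        _ = X * X ^ (-ρ) := by rw [Real.rpow_add hx0', Real.rpow_one]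
    calc r ^ 2 * (4 * A * r * (4 * k * X ^ (1 - 5 * ρ)))
        = 16 * (A * k) * (r ^ 3 * X ^ (1 - 5 * ρ)) := by ring
      _ ≤ 16 * (A * k) * (X * X ^ (-ρ)) := mul_le_mul_of_nonneg_left h1 (by positivity)
      _ = 16 * (A * X * k * X ^ (-ρ)) := by ring
  have hL1 : 1 ≤ L := by linarith only [hκ1, hρ, hρκ, hL]
  have hW0 : 0 < A * X * k * X ^ (-ρ) := by positivity
  have hsum : 4 * S * (k + A * (1 + Real.log k))
      + 128 * S * (1 + Real.log (2 * k)) * (A * k / r + k ^ 2)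
      + r ^ 2 * (34 * A * (1 + Real.log k) * r0 * S + 8 * k ^ 2 * N * S * Real.exp (-L ^ 2)
        + 4 * A * r * (4 * k * X ^ (1 - 5 * ρ))) ≤ 102000 * L * (A * X * k * X ^ (-ρ)) := by
    have h2 : r ^ 2 * (34 * A * (1 + Real.log k) * r0 * S + 8 * k ^ 2 * N * S * Real.exp (-L ^ 2)
        + 4 * A * r * (4 * k * X ^ (1 - 5 * ρ))) =
        r ^ 2 * (34 * A * (1 + Real.log k) * r0 * S) +
        r ^ 2 * (8 * k ^ 2 * N * S * Real.exp (-L ^ 2)) +
        r ^ 2 * (4 * A * r * (4 * k * X ^ (1 - 5 * ρ))) := by ring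
    rw [h2]
    exact SMa_sum _ _ _ _ _ _ _ hL1 hW0.le t1 t2 t3a t3b t3c
  exact SMa_end A X k Q L (X ^ (-ρ)) (X ^ (-(ρ / 2))) _ hA0 hx0' hQ hu0
    (Real.rpow_pos_of_pos hx0' _) (by
      have h1 : X ^ (-ρ) = X ^ (-(ρ / 2)) * X ^ (-(ρ / 2)) := by
        rw [← Real.rpow_add hx0']
        congr 1
        ring
      have h2 : X ^ (ρ / 2) * X ^ (-(ρ / 2)) = 1 := by
        rw [← Real.rpow_add hx0', add_neg_cancel, Real.rpow_zero]
      have h3 : 0 < X ^ (-(ρ / 2)) := Real.rpow_pos_of_pos hx0' _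
      rw [h1]
      calc 300000000 * L * (X ^ (-(ρ / 2)) * X ^ (-(ρ / 2)))
          = (300000000 * L) * X ^ (-(ρ / 2)) * X ^ (-(ρ / 2)) := by ring
        _ ≤ X ^ (ρ / 2) * X ^ (-(ρ / 2)) * X ^ (-(ρ / 2)) := by
            apply mul_le_mul_of_nonneg_right _ h3.le
            exact mul_le_mul_of_nonneg_right hLx h3.le
        _ = X ^ (-(ρ / 2)) := by rw [h2, one_mul]) hk3 (by linarith only [hκ1, hρ, hρκ, hL]) hsum

/-- the error terms of `link` and of `cls_sum`: `Fm = 1 + r^2`, `J ≤ 3 x^(80ρ)` blocks -/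
theorem sm_num2 (κ : ℝ) (hκ : 0 < κ) (hκ1 : κ ≤ 1) :
    ∀ ρ : ℝ, 0 < ρ → ρ ≤ κ / 100 → ∃ x0 : ℕ, ∀ x : ℕ, x0 ≤ x →
    ∀ Q A r J : ℝ, 1 ≤ Q → Q ≤ (x : ℝ) ^ (1 - κ) → 0 ≤ A → 0 ≤ r → r ≤ (x : ℝ) ^ ρ → 0 ≤ J →
      J ≤ 3 * (x : ℝ) ^ (80 * ρ) →
      2 * Q * A * (1 + r ^ 2) ^ 2 + Q * A * (J * r ^ 3) ^ 2
        ≤ A * (x : ℝ) ^ 2 / Q * (x : ℝ) ^ (-(ρ / 2)) / 8 := by
  intro ρ hρ hρκ
  obtain ⟨x0, hx0⟩ := log_pow_ev (κ / 4) 136 (by positivity) 0
  refine ⟨x0, fun x hx Q A r J hQ hQ' hA hr hr' hJ hJ' => ?_⟩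
  obtain ⟨hx1, hL, hLx⟩ := hx0 x hx
  rw [pow_zero, mul_one] at hLx
  have hxr : (1 : ℝ) ≤ x := by exact_mod_cast hx1
  have hx0' : (0 : ℝ) < x := by linarith only [hκ1, hρ, hρκ, hxr]
  set X : ℝ := (x : ℝ) with hX
  have hQ0 : 0 < Q := by linarith only [hκ1, hρ, hρκ, hQ]
  have h1 : (1 + r ^ 2) ^ 2 ≤ 4 * X ^ (166 * ρ) := by
    have h2 : r ^ 2 ≤ X ^ (2 * ρ) := by
      have h3 := pow_le_pow_left₀ hr hr' 2
      have h4 : (X ^ ρ) ^ 2 = X ^ (2 * ρ) := by
        rw [← Real.rpow_natCast, ← Real.rpow_mul hx0'.le]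
        congr 1
        push_cast
        ring
      rwa [h4] at h3
    have h3 : 1 ≤ X ^ (2 * ρ) := Real.one_le_rpow hxr (by positivity)
    have h5 : 1 + r ^ 2 ≤ 2 * X ^ (2 * ρ) := by linarith only [h2, h3]
    have h6 := pow_le_pow_left₀ (by positivity) h5 2
    have h7 : (2 * X ^ (2 * ρ)) ^ 2 = 4 * X ^ (4 * ρ) := by
      rw [mul_pow, ← Real.rpow_natCast (X ^ (2 * ρ)), ← Real.rpow_mul hx0'.le]
      congr 1
      · norm_num
      · congr 1
        push_cast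
        ring
    rw [h7] at h6
    refine h6.trans ?_
    apply mul_le_mul_of_nonneg_left _ (by norm_num)
    exact Real.rpow_le_rpow_of_exponent_le hxr (by linarith only [hρ])
  have h2 : (J * r ^ 3) ^ 2 ≤ 9 * X ^ (166 * ρ) := by
    have h3 : r ^ 3 ≤ X ^ (3 * ρ) := by
      have h3 := pow_le_pow_left₀ hr hr' 3
      have h4 : (X ^ ρ) ^ 3 = X ^ (3 * ρ) := by
        rw [← Real.rpow_natCast, ← Real.rpow_mul hx0'.le]
        congr 1
        push_cast
        ring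
      rwa [h4] at h3
    have h4 : J * r ^ 3 ≤ 3 * X ^ (80 * ρ) * X ^ (3 * ρ) :=
      mul_le_mul hJ' h3 (by positivity) (by positivity)
    have h5 : 3 * X ^ (80 * ρ) * X ^ (3 * ρ) = 3 * X ^ (83 * ρ) := by
      rw [mul_assoc, ← Real.rpow_add hx0']
      congr 2
      ring
    rw [h5] at h4
    have h6 := pow_le_pow_left₀ (by positivity) h4 2
    have h7 : (3 * X ^ (83 * ρ)) ^ 2 = 9 * X ^ (166 * ρ) := by
      rw [mul_pow, ← Real.rpow_natCast (X ^ (83 * ρ)), ← Real.rpow_mul hx0'.le]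
      congr 1
      · norm_num
      · congr 1
        push_cast
        ring
    rwa [h7] at h6
  have h3 : 2 * Q * A * (1 + r ^ 2) ^ 2 + Q * A * (J * r ^ 3) ^ 2 ≤ 17 * (Q * A) * X ^ (166 * ρ) := by
    have h4 : 2 * Q * A * (1 + r ^ 2) ^ 2 ≤ 2 * Q * A * (4 * X ^ (166 * ρ)) :=
      mul_le_mul_of_nonneg_left h1 (by positivity)
    have h5 : Q * A * (J * r ^ 3) ^ 2 ≤ Q * A * (9 * X ^ (166 * ρ)) :=
      mul_le_mul_of_nonneg_left h2 (by positivity)
    have h6 : 2 * Q * A * (4 * X ^ (166 * ρ)) + Q * A * (9 * X ^ (166 * ρ)) =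
        17 * (Q * A) * X ^ (166 * ρ) := by ring
    linarith only [h4, h5]
  refine h3.trans ?_
  have h4 : 136 * (Q * Q) * X ^ (166 * ρ) ≤ X ^ 2 * X ^ (-(ρ / 2)) := by
    have h5 : Q * Q ≤ X ^ (1 - κ) * X ^ (1 - κ) := mul_le_mul hQ' hQ' hQ0.le (by positivity)
    calc 136 * (Q * Q) * X ^ (166 * ρ)
        ≤ X ^ (κ / 4) * (X ^ (1 - κ) * X ^ (1 - κ)) * X ^ (166 * ρ) := by
          apply mul_le_mul_of_nonneg_right _ (by positivity)
          exact mul_le_mul hLx h5 (by positivity) (by positivity)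
      _ = X ^ (κ / 4 + (1 - κ) + (1 - κ) + 166 * ρ) := by
          rw [Real.rpow_add hx0', Real.rpow_add hx0', Real.rpow_add hx0']
          ring
      _ ≤ X ^ ((2 : ℝ) + -(ρ / 2)) := Real.rpow_le_rpow_of_exponent_le hxr (by linarith only [hρ, hρκ])
      _ = X ^ 2 * X ^ (-(ρ / 2)) := by
          rw [Real.rpow_add hx0', Real.rpow_two]
  have h5 : 17 * (Q * A) * X ^ (166 * ρ) = A / Q * (136 * (Q * Q) * X ^ (166 * ρ)) / 8 := by
    field_simp
    ring
  have h6 : A * X ^ 2 / Q * X ^ (-(ρ / 2)) / 8 = A / Q * (X ^ 2 * X ^ (-(ρ / 2))) / 8 := by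
    field_simp
  rw [h5, h6]
  apply div_le_div_of_nonneg_right _ (by norm_num)
  exact mul_le_mul_of_nonneg_left h4 (by positivity)

end Pool.Agent.H65.MS

end

section

/-!
# PSI Pw: pointwise bounds, supports, divisor bounds

`|(f * g)(n)| ≤ ∑_{d ∣ n} |f(d)| |g(n/d)|` and `tau d ≤ tau n` for `d ∣ n`, `n ≠ 0`.
`tau_eps`: from `∑_{m ≤ n} tau(m)^j ≤ n (1 + log n)^(2^j)` (`Pool.Agent.H35.U.tau_pow` in
`Pool/Agent/H35/U/TauM.lean`) with `j ≥ 2/e`, or from any divisor bound of the pool (`H92/EH3/DivBound.lean`).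
-/

set_option autoImplicit false

namespace Pool.Agent.H88.PSI

open Finset

private theorem Pw_tau_nonneg (n : ℕ) : 0 ≤ tau n := by
  unfold tau
  positivity

private theorem Pw_tau_one_le {n : ℕ} (hn : n ≠ 0) : 1 ≤ tau n := by
  unfold tau
  have : 0 < n.divisors.card := by
    rw [Finset.card_pos]
    exact ⟨1, Nat.one_mem_divisors.2 hn⟩
  exact_mod_cast this

private theorem Pw_tau_dvd {d n : ℕ} (h : d ∣ n) (hn : n ≠ 0) : tau d ≤ tau n := by
  unfold tau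
  exact_mod_cast Finset.card_le_card (Nat.divisors_subset_of_dvd hn h)

private theorem Pw_card (n : ℕ) : (n.divisorsAntidiagonal.card : ℝ) = tau n := by
  unfold tau
  have h := Nat.sum_divisorsAntidiagonal (fun _ _ => (1:ℝ)) (n := n)
  simp only [Finset.sum_const, nsmul_eq_mul, mul_one] at h
  exact h

private theorem Pw_mul {R : Type*} [NormedCommRing R] (f g : ArithmeticFunction R) (A B : ℝ)
    (hA : 0 ≤ A) (hB : 0 ≤ B) (a b : ℕ) (hf : ∀ n, ‖f n‖ ≤ A * tau n ^ a)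
    (hg : ∀ n, ‖g n‖ ≤ B * tau n ^ b) (n : ℕ) : ‖(f * g) n‖ ≤ A * B * tau n ^ (a + b + 1) := by
  have ht := Pw_tau_nonneg n
  rcases Nat.eq_zero_or_pos n with h0 | h0
  · subst h0
    rw [ArithmeticFunction.map_zero, norm_zero]
    positivity
  · rw [ArithmeticFunction.mul_apply]
    refine (norm_sum_le _ _).trans ?_
    have h1 : ∀ x ∈ n.divisorsAntidiagonal, ‖f x.1 * g x.2‖ ≤ A * B * tau n ^ (a + b) := by
      intro x hx
      rw [Nat.mem_divisorsAntidiagonal] at hx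
      have hx1 : tau x.1 ≤ tau n := Pw_tau_dvd ⟨x.2, hx.1.symm⟩ hx.2
      have hx2 : tau x.2 ≤ tau n := Pw_tau_dvd ⟨x.1, by rw [mul_comm]; exact hx.1.symm⟩ hx.2
      have h2 : ‖f x.1‖ ≤ A * tau n ^ a := (hf x.1).trans
        (mul_le_mul_of_nonneg_left (pow_le_pow_left₀ (Pw_tau_nonneg _) hx1 a) hA)
      have h3 : ‖g x.2‖ ≤ B * tau n ^ b := (hg x.2).trans
        (mul_le_mul_of_nonneg_left (pow_le_pow_left₀ (Pw_tau_nonneg _) hx2 b) hB)
      calc ‖f x.1 * g x.2‖ ≤ ‖f x.1‖ * ‖g x.2‖ := norm_mul_le _ _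
        _ ≤ (A * tau n ^ a) * (B * tau n ^ b) :=
            mul_le_mul h2 h3 (norm_nonneg _) (by positivity)
        _ = A * B * tau n ^ (a + b) := by rw [pow_add]; ring
    refine (Finset.sum_le_sum h1).trans (le_of_eq ?_)
    rw [Finset.sum_const, nsmul_eq_mul, Pw_card, pow_succ]
    ring

/-- products of bounded functions -/
theorem prod_bd {r : ℕ} (f : Fin r → ArithmeticFunction ℂ) (L : ℝ) (hL : 1 ≤ L)
    (h : ∀ i n, ‖f i n‖ ≤ L) (n : ℕ) : ‖(∏ i, f i) n‖ ≤ L ^ r * tau n ^ r := by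
  have key : ∀ s : Finset (Fin r), ∀ n : ℕ, ‖(∏ i ∈ s, f i) n‖ ≤ L ^ s.card * tau n ^ s.card := by
    intro s
    induction s using Finset.induction_on with
    | empty =>
      intro n
      rw [Finset.prod_empty, Finset.card_empty, pow_zero, pow_zero, mul_one,
        ArithmeticFunction.one_apply]
      split_ifs
      · rw [norm_one]
      · rw [norm_zero]
        exact zero_le_one
    | insert i s hi ih =>
      intro n
      rw [Finset.prod_insert hi, Finset.card_insert_of_notMem hi]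
      have h1 := Pw_mul (f i) (∏ i ∈ s, f i) L (L ^ s.card) (by linarith) (by positivity) 0 s.card
        (fun m => by rw [pow_zero, mul_one]; exact h i m) ih n
      refine h1.trans (le_of_eq ?_)
      rw [zero_add, pow_succ L]
      ring
  have h2 := key univ n
  rw [Finset.card_univ, Fintype.card_fin] at h2
  exact h2

/-- products of functions supported on `[N i, 2 N i)` -/
theorem prod_supp {r : ℕ} (f : Fin r → ArithmeticFunction ℂ) (N : Fin r → ℕ)
    (h : ∀ i n, f i n ≠ 0 → N i ≤ n ∧ n < 2 * N i) (n : ℕ) (hn : (∏ i, f i) n ≠ 0) :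
    ∏ i, N i ≤ n ∧ n ≤ ∏ i, (2 * N i) := by
  have key : ∀ s : Finset (Fin r), ∀ n : ℕ, (∏ i ∈ s, f i) n ≠ 0 →
      ∏ i ∈ s, N i ≤ n ∧ n ≤ ∏ i ∈ s, (2 * N i) := by
    intro s
    induction s using Finset.induction_on with
    | empty =>
      intro n hn
      rw [Finset.prod_empty, ArithmeticFunction.one_apply] at hn
      rw [Finset.prod_empty, Finset.prod_empty]
      split_ifs at hn with h1
      · omega
      · exact absurd rfl hn
    | insert i s hi ih =>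
      intro n hn
      rw [Finset.prod_insert hi, ArithmeticFunction.mul_apply] at hn
      obtain ⟨x, hx, hne⟩ := Finset.exists_ne_zero_of_sum_ne_zero hn
      rw [Nat.mem_divisorsAntidiagonal] at hx
      have h1 := h i x.1 (left_ne_zero_of_mul hne)
      have h2 := ih x.2 (right_ne_zero_of_mul hne)
      rw [Finset.prod_insert hi, Finset.prod_insert hi, ← hx.1]
      exact ⟨Nat.mul_le_mul h1.1 h2.1, Nat.mul_le_mul h1.2.le h2.2⟩
  exact key univ n hn

private theorem Pw_sub (f g : ArithmeticFunction ℝ) (n : ℕ) : (f - g) n = f n - g n := by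
  rw [sub_eq_add_neg, ArithmeticFunction.add_apply, sub_eq_add_neg]
  rfl

private theorem Pw_seg2 (w : ℕ) (n : ℕ) : ‖seg 2 1 (2 ^ w) n‖ ≤ 1 * tau n ^ 0 := by
  rw [pow_zero, mul_one]
  show ‖if n ≠ 0 ∧ 1 ≤ n ∧ n < 2 ^ w then kf 2 n else 0‖ ≤ 1
  split_ifs
  · have h1 : kf 2 n = ((ArithmeticFunction.moebius n : ℤ) : ℝ) := by
      unfold kf
      rw [if_neg (by decide), if_neg (by decide)]
    rw [h1, Real.norm_eq_abs, ← Int.cast_abs]
    exact_mod_cast ArithmeticFunction.abs_moebius_le_one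
  · rw [norm_zero]
    exact zero_le_one

private theorem Pw_hi0 (n : ℕ) : ‖hi 0 1 n‖ ≤ 1 * tau n ^ 0 := by
  rw [pow_zero, mul_one]
  show ‖if n ≠ 0 ∧ 1 ≤ n then kf 0 n else 0‖ ≤ 1
  split_ifs
  · have h1 : kf 0 n = 1 := by
      unfold kf
      rw [if_pos rfl]
    rw [h1, norm_one]
  · rw [norm_zero]
    exact zero_le_one

private theorem Pw_seg0 (y : ℕ) (n : ℕ) : ‖seg 0 1 (2 ^ y) n‖ ≤ 1 := by
  show ‖if n ≠ 0 ∧ 1 ≤ n ∧ n < 2 ^ y then kf 0 n else 0‖ ≤ 1
  split_ifs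
  · have h1 : kf 0 n = 1 := by
      unfold kf
      rw [if_pos rfl]
    rw [h1, norm_one]
  · rw [norm_zero]
    exact zero_le_one

private theorem Pw_seg1 (y : ℕ) (n : ℕ) : ‖seg 1 1 (2 ^ y) n‖ ≤ (y : ℝ) * tau n ^ 0 := by
  rw [pow_zero, mul_one]
  show ‖if n ≠ 0 ∧ 1 ≤ n ∧ n < 2 ^ y then kf 1 n else 0‖ ≤ (y : ℝ)
  split_ifs with h
  · have h1 : kf 1 n = Real.log n := by
      unfold kf
      rw [if_neg (by decide), if_pos rfl]
    have hn1 : (1 : ℝ) ≤ n := by exact_mod_cast h.2.1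
    rw [h1, Real.norm_eq_abs, abs_of_nonneg (Real.log_nonneg hn1)]
    have h2 : (n : ℝ) ≤ 2 ^ y := by exact_mod_cast h.2.2.le
    have h3 : Real.log n ≤ Real.log ((2 : ℝ) ^ y) := Real.log_le_log (by linarith) h2
    rw [Real.log_pow] at h3
    have h4 : Real.log 2 ≤ 1 := by
      have := Real.log_two_lt_d9
      linarith
    have h5 : (0 : ℝ) ≤ y := Nat.cast_nonneg y
    nlinarith
  · rw [norm_zero]
    exact Nat.cast_nonneg y

private theorem Pw_hs (y : ℕ) (n : ℕ) : ‖(hi 0 1 + seg 0 1 (2 ^ y)) n‖ ≤ 2 * tau n ^ 0 := by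
  rw [ArithmeticFunction.add_apply]
  have h1 := Pw_hi0 n
  have h2 := Pw_seg0 y n
  rw [pow_zero, mul_one] at h1 ⊢
  refine (norm_add_le _ _).trans ?_
  linarith

private theorem Pw_sq (w : ℕ) (n : ℕ) : ‖(seg 2 1 (2 ^ w) ^ 2) n‖ ≤ 1 * tau n ^ 1 := by
  rw [pow_two]
  have h := Pw_mul (seg 2 1 (2 ^ w)) (seg 2 1 (2 ^ w)) 1 1 zero_le_one zero_le_one 0 0 (Pw_seg2 w)
    (Pw_seg2 w) n
  simpa using h

private theorem Pw_cube (w : ℕ) (n : ℕ) : ‖(seg 2 1 (2 ^ w) ^ 3) n‖ ≤ 1 * tau n ^ 2 := by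
  rw [pow_succ]
  have h := Pw_mul (seg 2 1 (2 ^ w) ^ 2) (seg 2 1 (2 ^ w)) 1 1 zero_le_one zero_le_one 1 0 (Pw_sq w)
    (Pw_seg2 w) n
  simpa using h

/-- the coefficients `cA` -/
theorem cA_bd (w n : ℕ) : |cA w n| ≤ 7 * tau n ^ 5 := by
  rcases Nat.eq_zero_or_pos n with h0 | h0
  · subst h0
    rw [ArithmeticFunction.map_zero, abs_zero]
    have := Pw_tau_nonneg 0
    positivity
  · have ht := Pw_tau_one_le (n := n) (by omega)
    have h1 := Pw_seg2 w n
    have h2 := Pw_mul (hi 0 1) (seg 2 1 (2 ^ w) ^ 2) 1 1 zero_le_one zero_le_one 0 1 Pw_hi0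
      (Pw_sq w) n
    have h3 : ∀ n, ‖(hi 0 1 ^ 2) n‖ ≤ 1 * tau n ^ 1 := by
      intro n
      rw [pow_two]
      have h := Pw_mul (hi 0 1) (hi 0 1) 1 1 zero_le_one zero_le_one 0 0 Pw_hi0 Pw_hi0 n
      simpa using h
    have h4 := Pw_mul (hi 0 1 ^ 2) (seg 2 1 (2 ^ w) ^ 3) 1 1 zero_le_one zero_le_one 1 2 h3
      (Pw_cube w) n
    rw [Real.norm_eq_abs] at h1 h2 h4
    have e : cA w n = 3 * seg 2 1 (2 ^ w) n - 3 * (hi 0 1 * seg 2 1 (2 ^ w) ^ 2) n +
        (hi 0 1 ^ 2 * seg 2 1 (2 ^ w) ^ 3) n := by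
      unfold cA
      rw [ArithmeticFunction.add_apply, Pw_sub]
      rfl
    rw [e]
    have p1 : tau n ^ 0 ≤ tau n ^ 5 := pow_le_pow_right₀ ht (by norm_num)
    have p2 : tau n ^ (0 + 1 + 1) ≤ tau n ^ 5 := pow_le_pow_right₀ ht (by norm_num)
    have p3 : tau n ^ (1 + 2 + 1) ≤ tau n ^ 5 := pow_le_pow_right₀ ht (by norm_num)
    have q1 := abs_le.1 h1
    have q2 := abs_le.1 h2
    have q4 := abs_le.1 h4
    rw [abs_le]
    constructor <;> linarith [q1.1, q1.2, q2.1, q2.2, q4.1, q4.2]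

/-- the coefficients `cB` -/
theorem cB_bd (y w n : ℕ) : |cB y w n| ≤ 5 * (y + 1) * tau n ^ 5 := by
  rcases Nat.eq_zero_or_pos n with h0 | h0
  · subst h0
    rw [ArithmeticFunction.map_zero, abs_zero]
    have := Pw_tau_nonneg 0
    positivity
  · have ht := Pw_tau_one_le (n := n) (by omega)
    have hy : (0 : ℝ) ≤ y := Nat.cast_nonneg y
    have h1 := Pw_mul (seg 1 1 (2 ^ y)) (hi 0 1 + seg 0 1 (2 ^ y)) y 2 hy (by norm_num) 0 0
      (Pw_seg1 y) (Pw_hs y)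
    have h2 := Pw_mul (seg 1 1 (2 ^ y) * (hi 0 1 + seg 0 1 (2 ^ y))) (seg 2 1 (2 ^ w) ^ 3) (y * 2) 1
      (by positivity) zero_le_one (0 + 0 + 1) 2 h1 (Pw_cube w) n
    have h3 := Pw_mul (seg 1 1 (2 ^ y)) (seg 2 1 (2 ^ w) ^ 2) y 1 hy zero_le_one 0 1 (Pw_seg1 y)
      (Pw_sq w) n
    rw [Real.norm_eq_abs] at h2 h3
    have e : cB y w n = (seg 1 1 (2 ^ y) * (hi 0 1 + seg 0 1 (2 ^ y)) * seg 2 1 (2 ^ w) ^ 3) n -
        3 * (seg 1 1 (2 ^ y) * seg 2 1 (2 ^ w) ^ 2) n := by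
      unfold cB
      rw [Pw_sub]
      rfl
    rw [e]
    have p2 : tau n ^ (0 + 1 + 1) ≤ tau n ^ 5 := pow_le_pow_right₀ ht (by norm_num)
    have p3 : tau n ^ (0 + 0 + 1 + 2 + 1) ≤ tau n ^ 5 := pow_le_pow_right₀ ht (by norm_num)
    have r2 : (y : ℝ) * 1 * tau n ^ (0 + 1 + 1) ≤ y * tau n ^ 5 := by
      rw [mul_one]
      exact mul_le_mul_of_nonneg_left p2 hy
    have r3 : (y : ℝ) * 2 * 1 * tau n ^ (0 + 0 + 1 + 2 + 1) ≤ 2 * (y * tau n ^ 5) := by
      have := mul_le_mul_of_nonneg_left p3 hy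
      linarith
    have r4 : 0 ≤ tau n ^ 5 := by positivity
    have q2 := abs_le.1 h2
    have q3 := abs_le.1 h3
    rw [abs_le]
    constructor <;> linarith [q2.1, q2.2, q3.1, q3.2]

/-- divisor bound -/
theorem tau_eps (e : ℝ) (he : 0 < e) : ∃ C : ℝ, 1 ≤ C ∧ ∀ n : ℕ, tau n ≤ C * (n : ℝ) ^ e + C := by
  obtain ⟨C, hC, h⟩ := Pool.Agent.H92.EH.div_bound e he
  refine ⟨C, hC, fun n => ?_⟩
  have hn : (0 : ℝ) ≤ (n : ℝ) ^ e := Real.rpow_nonneg (Nat.cast_nonneg n) e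
  rcases Nat.eq_zero_or_pos n with h0 | h0
  · subst h0
    unfold tau
    rw [Nat.divisors_zero, Finset.card_empty, Nat.cast_zero]
    have h2 : (0 : ℝ) ≤ (0 : ℝ) ^ e := Real.rpow_nonneg le_rfl e
    have h3 : 0 ≤ C * (0 : ℝ) ^ e := mul_nonneg (by linarith) h2
    linarith
  · have h1 := h n h0
    unfold tau
    linarith

open scoped Pointwise in
private theorem Pw_tau_mul_le (d e : ℕ) :
    (d * e).divisors.card ≤ d.divisors.card * e.divisors.card := by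
  rw [Nat.divisors_mul]
  exact card_mul_le

private noncomputable def Pw_S (k n : ℕ) : ℝ := ∑ m ∈ Icc 1 n, (m.divisors.card : ℝ) ^ k / m

private theorem Pw_S_nonneg (k n : ℕ) : 0 ≤ Pw_S k n :=
  sum_nonneg fun _ _ => by positivity

private theorem Pw_S_succ (k n : ℕ) : Pw_S (k + 1) n ≤ Pw_S k n ^ 2 := by
  obtain ⟨f, hf⟩ : ∃ f : ℕ × ℕ → ℝ, f = fun p => ((p.1.divisors.card : ℝ) ^ k / p.1) *
      ((p.2.divisors.card : ℝ) ^ k / p.2) := ⟨_, rfl⟩
  have hf0 : ∀ p, 0 ≤ f p := fun p => by rw [hf]; positivity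
  have h1 : Pw_S k n ^ 2 = ∑ p ∈ Icc 1 n ×ˢ Icc 1 n, f p := by
    unfold Pw_S
    rw [sq, sum_mul_sum, sum_product, hf]
  have h2 : ∀ m ∈ Icc 1 n, (m.divisors.card : ℝ) ^ (k + 1) / m ≤
      ∑ p ∈ ((Icc 1 n ×ˢ Icc 1 n).filter (fun p => p.1 * p.2 ∈ Icc 1 n)).filter
        (fun p => p.1 * p.2 = m), f p := by
    intro m hm
    have hm' := mem_Icc.1 hm
    have e1 : ((Icc 1 n ×ˢ Icc 1 n).filter (fun p => p.1 * p.2 ∈ Icc 1 n)).filter
        (fun p => p.1 * p.2 = m) = m.divisorsAntidiagonal := by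
      ext p
      rw [mem_filter, mem_filter, mem_product, mem_Icc, mem_Icc, Nat.mem_divisorsAntidiagonal]
      constructor
      · rintro ⟨_, h⟩
        exact ⟨h, by omega⟩
      · rintro ⟨h, _⟩
        have hp1 : 1 ≤ p.1 := Nat.one_le_iff_ne_zero.2 (by rintro h0; rw [h0, zero_mul] at h; omega)
        have hp2 : 1 ≤ p.2 := Nat.one_le_iff_ne_zero.2 (by rintro h0; rw [h0, mul_zero] at h; omega)
        have h3 : p.1 ≤ m := h ▸ Nat.le_mul_of_pos_right _ hp2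
        have h4 : p.2 ≤ m := h ▸ Nat.le_mul_of_pos_left _ hp1
        exact ⟨⟨⟨⟨hp1, by omega⟩, ⟨hp2, by omega⟩⟩, h ▸ hm⟩, h⟩
    rw [e1]
    have e2 : (m.divisors.card : ℝ) = ∑ _p ∈ m.divisorsAntidiagonal, (1:ℝ) := by
      rw [Nat.sum_divisorsAntidiagonal (fun _ _ => (1:ℝ))]
      simp
    have e3 : (m.divisors.card : ℝ) ^ (k + 1) / m =
        ∑ _p ∈ m.divisorsAntidiagonal, (m.divisors.card : ℝ) ^ k / m := by
      rw [← mul_one ((m.divisors.card : ℝ) ^ k / m), ← mul_sum, ← e2, pow_succ]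
      ring
    rw [e3]
    refine sum_le_sum fun p hp => ?_
    rw [Nat.mem_divisorsAntidiagonal] at hp
    rw [hf]
    have h5 := Pw_tau_mul_le p.1 p.2
    rw [hp.1] at h5
    have h6 : (m.divisors.card : ℝ) ≤ (p.1.divisors.card : ℝ) * (p.2.divisors.card : ℝ) := by
      exact_mod_cast h5
    have h7 : (m : ℝ) = (p.1 : ℝ) * p.2 := by rw [← hp.1]; push_cast; rfl
    show (m.divisors.card : ℝ) ^ k / m ≤ ((p.1.divisors.card : ℝ) ^ k / p.1) *
      ((p.2.divisors.card : ℝ) ^ k / p.2)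
    rw [div_mul_div_comm, ← mul_pow, ← h7]
    exact div_le_div_of_nonneg_right (pow_le_pow_left₀ (by positivity) h6 k) (by positivity)
  rw [h1]
  unfold Pw_S
  calc ∑ m ∈ Icc 1 n, (m.divisors.card : ℝ) ^ (k + 1) / m
      ≤ ∑ m ∈ Icc 1 n, ∑ p ∈ ((Icc 1 n ×ˢ Icc 1 n).filter (fun p => p.1 * p.2 ∈ Icc 1 n)).filter
        (fun p => p.1 * p.2 = m), f p := sum_le_sum h2
    _ = ∑ p ∈ (Icc 1 n ×ˢ Icc 1 n).filter (fun p => p.1 * p.2 ∈ Icc 1 n), f p :=
        sum_fiberwise_of_maps_to (fun p hp => (mem_filter.1 hp).2) f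
    _ ≤ ∑ p ∈ Icc 1 n ×ˢ Icc 1 n, f p :=
        sum_le_sum_of_subset_of_nonneg (filter_subset _ _) (fun p _ _ => hf0 p)

private theorem Pw_S_zero (n : ℕ) : Pw_S 0 n ≤ 1 + Real.log n := by
  have h := harmonic_le_one_add_log n
  refine le_trans (le_of_eq ?_) h
  unfold Pw_S
  rw [harmonic_eq_sum_Icc]
  push_cast
  refine sum_congr rfl fun m _ => ?_
  rw [pow_zero, one_div]

private theorem Pw_S_pow (n k : ℕ) : Pw_S k n ≤ (1 + Real.log n) ^ (2 ^ k) := by
  induction k with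
  | zero => simpa using Pw_S_zero n
  | succ k ih =>
    refine (Pw_S_succ k n).trans ?_
    rw [pow_succ 2 k, pow_mul]
    exact pow_le_pow_left₀ (Pw_S_nonneg k n) ih 2

/-- moments of the divisor function -/
theorem tau_mom (j n : ℕ) : ∑ m ∈ Icc 1 n, tau m ^ j ≤ n * (1 + Real.log n) ^ (2 ^ j) := by
  have h1 : ∑ m ∈ Icc 1 n, tau m ^ j ≤ n * Pw_S j n := by
    unfold Pw_S
    rw [mul_sum]
    refine sum_le_sum fun m hm => ?_
    have hm' := mem_Icc.1 hm
    have hm0 : (0:ℝ) < m := by exact_mod_cast hm'.1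
    have hmn : (m:ℝ) ≤ n := by exact_mod_cast hm'.2
    unfold tau
    rw [← mul_div_assoc, le_div_iff₀ hm0, mul_comm]
    exact mul_le_mul_of_nonneg_right hmn (by positivity)
  exact h1.trans (mul_le_mul_of_nonneg_left (Pw_S_pow n j) (by positivity))

/-- the same with weights `1/m` (see the private `tau_S_pow` in `Pool/Agent/H80/LV/Tau4.lean`) -/
theorem tau_momd (j n : ℕ) : ∑ m ∈ Icc 1 n, tau m ^ j / m ≤ (1 + Real.log n) ^ (2 ^ j) := by
  exact Pw_S_pow n j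

end Pool.Agent.H88.PSI

end

section

/-!
# PSI Dks: the kernel `dk H θ = ∑_{j ≤ H} ee(jθ)` at the points `c/q + b/d`

`|dk H θ| ≤ H` and `|dk H θ| ≤ 1/(2 ‖θ‖)` (`‖θ‖` = distance to the nearest integer, geometric sum).  The points `c/q + b/d` (`c` mod `q`) are spaced by
`1/q` modulo 1 and are `≥ 1/(qd)` away from the integers (`(q, d) = 1`, not `q = 1, b = 0`).  The two nearest: `≤ min(H, qd/2)^2 ≤ d^2 min(q^2, qH)`; the
others `≤ 2 ∑_{k ≥ 1} min(H, q/(2k))^2 ≤ 4 min(q^2, qH)`.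
-/

set_option autoImplicit false

namespace Pool.Agent.H88.PSI

open Finset
open Pool.Agent.H91.PK (ee)

private theorem Dks_ee_add (a b : ℝ) : ee (a + b) = ee a * ee b := by
  unfold ee
  rw [← Complex.exp_add]
  congr 1
  push_cast
  ring

private theorem Dks_norm_ee (a : ℝ) : ‖ee a‖ = 1 := by
  unfold ee
  have : (2 * Real.pi * a * Complex.I : ℂ) = ((2 * Real.pi * a : ℝ) : ℂ) * Complex.I := by
    push_cast; ring
  rw [this]
  exact Complex.norm_exp_ofReal_mul_I _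

private theorem Dks_ee_int (n : ℤ) : ee (n : ℝ) = 1 := by
  unfold ee
  rw [Complex.exp_eq_one_iff]
  exact ⟨n, by push_cast; ring⟩

private theorem Dks_sin (δ : ℝ) (h : |δ| ≤ 1 / 2) : 4 * |δ| ≤ ‖1 - ee δ‖ := by
  have h1 : ‖1 - ee δ‖ = 2 * |Real.sin (Real.pi * δ)| := by
    have e1 : ee δ = Complex.exp (((2 * Real.pi * δ : ℝ) : ℂ) * Complex.I) := by
      unfold ee; congr 1; push_cast; ring
    rw [e1, norm_sub_rev]
    have := Complex.norm_exp_I_mul_ofReal_sub_one (2 * Real.pi * δ)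
    rw [mul_comm (Complex.I)] at this
    rw [this, Real.norm_eq_abs, abs_mul, abs_two]
    congr 3
    ring
  rw [h1]
  have h2 := Real.mul_abs_le_abs_sin (x := Real.pi * δ) (by
    rw [abs_mul, abs_of_pos Real.pi_pos]
    nlinarith only [h, Real.pi_pos])
  rw [abs_mul, abs_of_pos Real.pi_pos] at h2
  have h3 : 2 / Real.pi * (Real.pi * |δ|) = 2 * |δ| := by
    field_simp [Real.pi_pos.ne']
  rw [h3] at h2
  linarith only [h2]

theorem dk_le (H : ℕ) (θ : ℝ) : ‖dk H θ‖ ≤ H := by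
  unfold dk
  refine (norm_sum_le _ _).trans ?_
  simp [Dks_norm_ee]

private theorem Dks_geom (H : ℕ) (θ : ℝ) :
    (1 - ee θ) * dk H θ = ee θ - ee ((H + 1 : ℝ) * θ) := by
  unfold dk
  induction H with
  | zero => simp
  | succ n ih =>
    rw [Finset.sum_Icc_succ_top (by omega), mul_add, ih]
    have : ee (((n + 1 : ℕ) : ℝ) * θ) * ee θ = ee (((n + 1 : ℕ) + 1 : ℝ) * θ) := by
      rw [← Dks_ee_add]; congr 1; ring
    rw [sub_mul, one_mul, mul_comm (ee θ), this]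
    push_cast
    ring

theorem dk_inv (H : ℕ) (θ : ℝ) (n : ℤ) (h : ∀ m : ℤ, θ ≠ m) (hn : |θ - n| ≤ 1 / 2) :
    ‖dk H θ‖ ≤ 1 / (2 * |θ - n|) := by
  have hpos : 0 < |θ - n| := abs_pos.2 (sub_ne_zero.2 (h n))
  have h1 : 4 * |θ - n| ≤ ‖1 - ee θ‖ := by
    have := Dks_sin (θ - n) hn
    have e : ee θ = ee (θ - n) := by
      have : θ = (θ - n) + n := by ring
      conv_lhs => rw [this]
      rw [Dks_ee_add, Dks_ee_int, mul_one]
    rw [e]; exact this
  have h2 : ‖1 - ee θ‖ * ‖dk H θ‖ ≤ 2 := by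
    rw [← norm_mul, Dks_geom]
    refine (norm_sub_le _ _).trans ?_
    rw [Dks_norm_ee, Dks_norm_ee]; norm_num
  rw [le_div_iff₀ (by positivity)]
  have h3 := norm_nonneg (dk H θ)
  nlinarith only [h2, h1, h3, mul_le_mul_of_nonneg_right h1 h3]

private theorem Dks_nonint (q d b c : ℕ) (hb : b < d)
    (hqd : Nat.Coprime q d) (h0 : ¬ (q = 1 ∧ b = 0)) (hc : Nat.Coprime c q) (m : ℤ) :
    ((c : ℤ) * d + b * q) ≠ m * (q * d) := by
  intro he
  have h1 : (q : ℤ) ∣ (c : ℤ) * d := by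
    have : (c : ℤ) * d = q * (m * d - b) := by linear_combination he
    exact ⟨_, this⟩
  have h2 : q ∣ c * d := by exact_mod_cast h1
  have h3 : q ∣ c := hqd.dvd_of_dvd_mul_right h2
  have h4 : q = 1 := by
    have : q ∣ Nat.gcd c q := Nat.dvd_gcd h3 dvd_rfl
    rw [hc] at this
    exact Nat.dvd_one.1 this
  have h5 : (d : ℤ) ∣ (b : ℤ) * q := by
    have : (b : ℤ) * q = d * (m * q - c) := by linear_combination he
    exact ⟨_, this⟩
  have h6 : d ∣ b * q := by exact_mod_cast h5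
  have h7 : d ∣ b := hqd.symm.dvd_of_dvd_mul_right h6
  exact h0 ⟨h4, Nat.eq_zero_of_dvd_of_lt h7 hb⟩

private theorem Dks_half (S : Finset ℕ) (r : ℕ → ℕ) (hinj : Set.InjOn r S) (M : ℕ)
    (hM : ∀ c ∈ S, 1 ≤ r c ∧ r c ≤ M) (g : ℕ → ℝ) (hg : ∀ k, 0 ≤ g k) :
    ∑ c ∈ S, g (r c) ≤ ∑ k ∈ Icc 1 M, g k := by
  rw [← Finset.sum_image (f := g) hinj]
  refine Finset.sum_le_sum_of_subset_of_nonneg ?_ fun k _ _ => hg k
  intro k hk
  rw [Finset.mem_image] at hk
  obtain ⟨c, hc, rfl⟩ := hk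
  exact Finset.mem_Icc.2 (hM c hc)

private theorem Dks_two (S : Finset ℕ) (r : ℕ → ℤ) (hinj : Set.InjOn r S)
    (hne : ∀ c ∈ S, r c ≠ 0) (M : ℕ) (hM : ∀ c ∈ S, (r c).natAbs ≤ M) (g : ℕ → ℝ)
    (hg : ∀ k, 0 ≤ g k) :
    ∑ c ∈ S, g (r c).natAbs ≤ 2 * ∑ k ∈ Icc 1 M, g k := by
  rw [← Finset.sum_filter_add_sum_filter_not S (fun c => 0 < r c), two_mul]
  refine add_le_add ?_ ?_
  · refine Dks_half _ (fun c => (r c).natAbs) ?_ M ?_ g hg
    · intro a ha b hb hab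
      rw [Finset.mem_coe, Finset.mem_filter] at ha hb
      refine hinj ha.1 hb.1 ?_
      have h1 := ha.2
      have h2 := hb.2
      simp only at hab
      omega
    · intro c hc
      rw [Finset.mem_filter] at hc
      refine ⟨?_, hM c hc.1⟩
      have := hne c hc.1
      omega
  · refine Dks_half _ (fun c => (r c).natAbs) ?_ M ?_ g hg
    · intro a ha b hb hab
      rw [Finset.mem_coe, Finset.mem_filter] at ha hb
      refine hinj ha.1 hb.1 ?_
      have h1 := ha.2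
      have h2 := hb.2
      simp only at hab
      omega
    · intro c hc
      rw [Finset.mem_filter] at hc
      refine ⟨?_, hM c hc.1⟩
      have := hne c hc.1
      omega

private theorem Dks_s1' (M : ℕ) : ∑ k ∈ Icc 1 (M + 1), 1 / (k : ℝ) ^ 2 ≤ 2 - 1 / ((M : ℝ) + 1) := by
  induction M with
  | zero => norm_num
  | succ n ih =>
    rw [Finset.sum_Icc_succ_top (by omega)]
    have h2 : (0 : ℝ) < (n : ℝ) + 1 := by positivity
    have h3 : (0 : ℝ) < (n : ℝ) + 2 := by positivity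
    have h5 : 1 / (((n : ℝ) + 2) ^ 2) ≤ 1 / ((n : ℝ) + 1) - 1 / ((n : ℝ) + 2) := by
      have e : 1 / ((n : ℝ) + 1) - 1 / ((n : ℝ) + 2) = 1 / (((n : ℝ) + 1) * ((n : ℝ) + 2)) := by
        field_simp
        ring
      rw [e]
      apply one_div_le_one_div_of_le (by positivity)
      nlinarith only
    have h6 : (((n + 1 + 1 : ℕ)) : ℝ) = (n : ℝ) + 2 := by push_cast; ring
    have h7 : (((n + 1 : ℕ)) : ℝ) + 1 = (n : ℝ) + 2 := by push_cast; ring
    rw [h6, h7]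
    linarith only [ih, h5]

private theorem Dks_s1 (M : ℕ) : ∑ k ∈ Icc 1 M, 1 / (k : ℝ) ^ 2 ≤ 2 := by
  rcases M with _ | M
  · simp
  · refine (Dks_s1' M).trans ?_
    have : (0 : ℝ) ≤ 1 / ((M : ℝ) + 1) := by positivity
    linarith only [this]

private theorem Dks_s2 (A H : ℝ) (hA : 0 < A) (hH : 0 < H) (M : ℕ) :
    ∑ k ∈ Icc 1 M, A ^ 2 * H ^ 2 / (A + k * H) ^ 2 ≤ A * H - A ^ 2 * H / (A + M * H) := by
  induction M with
  | zero =>
    simp
    field_simp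
    norm_num
  | succ n ih =>
    rw [Finset.sum_Icc_succ_top (by omega)]
    have h1 : 0 < A + n * H := by positivity
    have h6 : (((n + 1 : ℕ)) : ℝ) = (n : ℝ) + 1 := by push_cast; ring
    rw [h6]
    have h2 : 0 < A + ((n : ℝ) + 1) * H := by positivity
    have h3 : A ^ 2 * H ^ 2 / (A + ((n : ℝ) + 1) * H) ^ 2 ≤
        A ^ 2 * H / (A + n * H) - A ^ 2 * H / (A + ((n : ℝ) + 1) * H) := by
      have e : A ^ 2 * H / (A + n * H) - A ^ 2 * H / (A + ((n : ℝ) + 1) * H)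
          = A ^ 2 * H ^ 2 / ((A + n * H) * (A + ((n : ℝ) + 1) * H)) := by
        field_simp
        ring
      rw [e]
      apply div_le_div_of_nonneg_left (by positivity) (by positivity)
      rw [sq]
      apply mul_le_mul_of_nonneg_right _ h2.le
      nlinarith only [hH]
    linarith only [ih, h3]

private theorem Dks_pt (H : ℕ) (A x δ : ℝ) (hA : 0 < A) (hH : 1 ≤ H) (hx0 : 0 ≤ x) (hx : x ≤ H)
    (k : ℕ) (hk : 1 ≤ k) (hd : δ = k / A) (h : x ≤ 1 / (2 * δ)) :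
    x ^ 2 ≤ A ^ 2 * (1 / (k : ℝ) ^ 2) ∧ x ^ 2 ≤ 4 * (A ^ 2 * (H : ℝ) ^ 2 / (A + k * H) ^ 2) := by
  have hk' : (0 : ℝ) < k := by exact_mod_cast hk
  have hH' : (0 : ℝ) < H := by exact_mod_cast hH
  have h1 : x ≤ A / (2 * k) := by
    have : 1 / (2 * δ) = A / (2 * k) := by rw [hd]; field_simp
    rw [this] at h; exact h
  have h2 : x ^ 2 ≤ (A / (2 * k)) ^ 2 := pow_le_pow_left₀ hx0 h1 2
  have h3 : x ^ 2 ≤ (H : ℝ) ^ 2 := pow_le_pow_left₀ hx0 hx 2
  constructor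
  · refine h2.trans ?_
    have : (A / (2 * k)) ^ 2 = A ^ 2 * (1 / (k : ℝ) ^ 2) / 4 := by field_simp; norm_num
    rw [this]
    have : 0 ≤ A ^ 2 * (1 / (k : ℝ) ^ 2) := by positivity
    linarith only [this]
  · rcases le_total ((k : ℝ) * H) A with hc | hc
    · refine h3.trans ?_
      rw [← mul_div_assoc, le_div_iff₀ (by positivity)]
      have h4 : (A + k * H) ^ 2 ≤ (2 * A) ^ 2 := by
        apply pow_le_pow_left₀ (by positivity)
        linarith only [hc]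
      nlinarith only [h4, mul_le_mul_of_nonneg_left h4 (sq_nonneg (H : ℝ))]
    · refine h2.trans ?_
      rw [← mul_div_assoc, div_pow, div_le_div_iff₀ (by positivity) (by positivity)]
      have h4 : (A + k * H) ^ 2 ≤ (2 * (k * H)) ^ 2 := by
        apply pow_le_pow_left₀ (by positivity)
        linarith only [hc]
      have h5 := mul_le_mul_of_nonneg_left h4 (sq_nonneg A)
      have h6 : 0 ≤ A ^ 2 * (H : ℝ) ^ 2 * (k : ℝ) ^ 2 := by positivity
      nlinarith only [h5, h6]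

theorem dk_sum (H q d b : ℕ) (hH : 1 ≤ H) (hq : 1 ≤ q) (hd : 1 ≤ d) (hb : b < d)
    (hqd : Nat.Coprime q d) (h0 : ¬ (q = 1 ∧ b = 0)) :
    ∑ c ∈ (Icc 1 q).filter (fun c => Nat.Coprime c q), ‖dk H ((c : ℝ) / q + (b : ℝ) / d)‖ ^ 2
      ≤ 100 * (d : ℝ) ^ 2 * min ((q : ℝ) ^ 2) (q * H) := by
  have hq' : (0 : ℝ) < q := by exact_mod_cast hq
  have hd' : (0 : ℝ) < d := by exact_mod_cast hd
  have hd1 : (1 : ℝ) ≤ d := by exact_mod_cast hd
  have hH' : (0 : ℝ) < H := by exact_mod_cast hH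
  set A : ℝ := q * d with hA
  have hA0 : 0 < A := by positivity
  let th : ℕ → ℝ := fun c => (c : ℝ) / q + (b : ℝ) / d
  let r : ℕ → ℤ := fun c => ((c : ℤ) * d + b * q) - round (th c) * (q * d)
  have hr : ∀ c, th c - (round (th c) : ℤ) = (r c : ℝ) / A := by
    intro c
    simp only [r, th, hA]
    push_cast
    field_simp
  have hrne : ∀ c, Nat.Coprime c q → r c ≠ 0 := by
    intro c hc he
    exact Dks_nonint q d b c hb hqd h0 hc (round (th c)) (sub_eq_zero.1 he)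
  have hrabs : ∀ c, |th c - (round (th c) : ℤ)| = ((r c).natAbs : ℝ) / A := by
    intro c
    rw [hr, abs_div, abs_of_pos hA0]
    congr 1
    rw [Nat.cast_natAbs, Int.cast_abs]
  have hrle : ∀ c, (r c).natAbs ≤ q * d := by
    intro c
    have h1 := abs_sub_round (th c)
    rw [hrabs, div_le_iff₀ hA0] at h1
    have : ((r c).natAbs : ℝ) ≤ ((q * d : ℕ) : ℝ) := by
      push_cast
      rw [hA] at h1
      nlinarith only [hA0, h1, mul_pos hq' hd']
    exact_mod_cast this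
  set S : Finset ℕ := (Icc 1 q).filter (fun c => Nat.Coprime c q) with hS
  have hinj : Set.InjOn r S := by
    intro c hc c' hc' he
    rw [Finset.mem_coe, hS, Finset.mem_filter, Finset.mem_Icc] at hc hc'
    simp only [r] at he
    have h1 : ((c : ℤ) - c') * d = ((round (th c) - round (th c')) * q) * d := by
      linear_combination he
    have h2 : (c : ℤ) - c' = (round (th c) - round (th c')) * q := by
      refine mul_right_cancel₀ (b := (d : ℤ)) ?_ h1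
      exact_mod_cast hd'.ne'
    have h3 : (q : ℤ) ∣ (c : ℤ) - c' := by rw [h2]; exact dvd_mul_left _ _
    have h4 : (c : ℤ) - c' = 0 := by
      apply Int.eq_zero_of_abs_lt_dvd h3
      rw [abs_lt]
      constructor <;> omega
    omega
  have hthne : ∀ c, Nat.Coprime c q → ∀ m : ℤ, th c ≠ m := by
    intro c hc m he
    refine Dks_nonint q d b c hb hqd h0 hc m ?_
    have h1 : (c : ℝ) * d + b * q = m * (q * d) := by
      rw [← he]
      simp only [th]
      field_simp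
    exact_mod_cast h1
  have key : ∀ c ∈ S, ‖dk H (th c)‖ ^ 2 ≤ A ^ 2 * (1 / (((r c).natAbs : ℕ) : ℝ) ^ 2) ∧
      ‖dk H (th c)‖ ^ 2 ≤ 4 * (A ^ 2 * (H : ℝ) ^ 2 / (A + ((r c).natAbs : ℕ) * H) ^ 2) := by
    intro c hc
    rw [hS, Finset.mem_filter, Finset.mem_Icc] at hc
    refine Dks_pt H A _ (|th c - (round (th c) : ℤ)|) hA0 hH (norm_nonneg _) (dk_le _ _) _ ?_
      (hrabs c) ?_
    · have := hrne c hc.2
      omega
    · exact dk_inv H (th c) _ (hthne c hc.2) (abs_sub_round _)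
  have b1 : ∑ c ∈ S, ‖dk H (th c)‖ ^ 2 ≤ 4 * A ^ 2 := by
    refine (Finset.sum_le_sum fun c hc => (key c hc).1).trans ?_
    refine (Dks_two S r hinj (fun c hc => ?_) (q * d) (fun c _ => hrle c)
      (fun k => A ^ 2 * (1 / (k : ℝ) ^ 2)) (fun k => by positivity)).trans ?_
    · rw [hS, Finset.mem_filter] at hc
      exact hrne c hc.2
    · rw [← Finset.mul_sum]
      nlinarith only [mul_le_mul_of_nonneg_left (Dks_s1 (q * d)) (sq_nonneg A)]
  have b2 : ∑ c ∈ S, ‖dk H (th c)‖ ^ 2 ≤ 8 * (A * H) := by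
    refine (Finset.sum_le_sum fun c hc => (key c hc).2).trans ?_
    refine (Dks_two S r hinj (fun c hc => ?_) (q * d) (fun c _ => hrle c)
      (fun k => 4 * (A ^ 2 * (H : ℝ) ^ 2 / (A + k * H) ^ 2)) (fun k => by positivity)).trans ?_
    · rw [hS, Finset.mem_filter] at hc
      exact hrne c hc.2
    · rw [← Finset.mul_sum]
      have h1 := Dks_s2 A H hA0 hH' (q * d)
      have h2 : 0 ≤ A ^ 2 * H / (A + ((q * d : ℕ) : ℝ) * H) := by positivity
      linarith only [h1, h2]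
  have hdd : (d : ℝ) ≤ (d : ℝ) ^ 2 := by nlinarith only [hd1]
  have e : ∑ c ∈ S, ‖dk H ((c : ℝ) / q + (b : ℝ) / d)‖ ^ 2 = ∑ c ∈ S, ‖dk H (th c)‖ ^ 2 := rfl
  rw [e]
  rcases le_total ((q : ℝ) ^ 2) (q * H) with hc | hc
  · rw [min_eq_left hc]
    refine b1.trans ?_
    rw [hA]
    have : 0 ≤ (q : ℝ) ^ 2 * (d : ℝ) ^ 2 := by positivity
    nlinarith only
  · rw [min_eq_right hc]
    refine b2.trans ?_
    rw [hA]
    have h1 : (0 : ℝ) ≤ q * H := by positivity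
    nlinarith only [hdd, h1, mul_le_mul_of_nonneg_left hdd h1, mul_nonneg h1 (sq_nonneg (d : ℝ))]

end Pool.Agent.H88.PSI

end

section

/-!
# PROJECT VK, Part I.b: sieved Dirichlet characters

Notation: `L = log x`, `L9 x = L^{9/10}`, `LL x = log L`, `y = Yx x = ⌊exp(L^{9/10})⌋`.  A character `χ` mod `d` is replaced by the character
`ch x χ` modulo `qm x d = d · y#` induced by it: `ch x χ n = χ(n)` if `n` has no prime factor `≤ y`, otherwise `0`.
The tools `Lk`, `Fk` (`∑ χ(n) (log n)^k n^{-s}`, `∑ Λ(n) χ(n) (log n)^k n^{-s}`) of EHA are applied to `ch x χ`.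
-/

set_option autoImplicit false

namespace Pool.Agent.H97.VK

open Finset

/-- `(log x)^{9/10}` -/
noncomputable def L9 (x : ℕ) : ℝ := Real.log x ^ (9 / 10 : ℝ)

/-- `log log x` -/
noncomputable def LL (x : ℕ) : ℝ := Real.log (Real.log x)

/-- the sieving level -/
noncomputable def Yx (x : ℕ) : ℕ := ⌊Real.exp (L9 x)⌋₊

/-- the modulus `d · y#` -/
noncomputable def qm (x d : ℕ) : ℕ := d * primorial (Yx x)

/-- the character modulo `qm x d` induced by `χ` -/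
noncomputable def ch (x : ℕ) {d : ℕ} (χ : DirichletCharacter ℂ d) : DirichletCharacter ℂ (qm x d) :=
  DirichletCharacter.changeLevel (Dvd.intro _ rfl) χ

end Pool.Agent.H97.VK

end

section

/-!
# PROJECT VKT (H97/VK of helper97 with the parameter `T0.t` in place of `9/10`), Part I.b: sieved Dirichlet characters

Notation: `L = log x`, `L9 x = L^{9/10}`, `LL x = log L`, `y = Yx x = ⌊exp(L^{9/10})⌋`.  A character `χ` mod `d` is replaced by the character
`ch x χ` modulo `qm x d = d · y#` induced by it: `ch x χ n = χ(n)` if `n` has no prime factor `≤ y`, otherwise `0`.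
The tools `Lk`, `Fk` (`∑ χ(n) (log n)^k n^{-s}`, `∑ Λ(n) χ(n) (log n)^k n^{-s}`) of EHA are applied to `ch x χ`.
-/

set_option autoImplicit false

namespace Pool.Agent.H76.VKT

open Finset

/-- the parameter `t ∈ (2/3, 1)`; it replaces `9/10` in `Pool.Agent.H97.VK` -/
class T0 where
  /-- the exponent -/
  t : ℝ
  lo : 2 / 3 < t
  hi : t < 1

variable [T0]

/-- `(log x)^t` -/
noncomputable def L9 (x : ℕ) : ℝ := Real.log x ^ T0.t

/-- `log log x` -/
noncomputable def LL (x : ℕ) : ℝ := Real.log (Real.log x)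

/-- the sieving level -/
noncomputable def Yx (x : ℕ) : ℕ := ⌊Real.exp (L9 x)⌋₊

/-- the modulus `d · y#` -/
noncomputable def qm (x d : ℕ) : ℕ := d * primorial (Yx x)

/-- the character modulo `qm x d` induced by `χ` -/
noncomputable def ch (x : ℕ) {d : ℕ} (χ : DirichletCharacter ℂ d) : DirichletCharacter ℂ (qm x d) :=
  DirichletCharacter.changeLevel (Dvd.intro _ rfl) χ

theorem qm_pos (x d : ℕ) (hd : 1 ≤ d) : 1 ≤ qm x d :=
  Nat.mul_pos hd (primorial_pos _)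

theorem ch_sq (x : ℕ) {d : ℕ} (χ : DirichletCharacter ℂ d) : ch x χ ^ 2 = ch x (χ ^ 2) := by
  unfold ch
  rw [map_pow]
  rfl

theorem ch_apply (x : ℕ) {d : ℕ} (hd : 1 ≤ d) (χ : DirichletCharacter ℂ d) (n : ℕ) :
    ch x χ (n : ZMod (qm x d)) =
      if n.Coprime (primorial (Yx x)) then χ (n : ZMod d) else 0 := by
  have hq0 : qm x d ≠ 0 := by have := qm_pos x d hd; omega
  by_cases h1 : n.Coprime (qm x d)
  · have h2 : n.Coprime (primorial (Yx x)) := by
      unfold qm at h1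
      exact (Nat.coprime_mul_iff_right.1 h1).2
    rw [if_pos h2]
    unfold ch
    have h3 : IsCoprime (n : ℤ) (qm x d : ℤ) := Nat.isCoprime_iff_coprime.2 h1
    have h4 := DirichletCharacter.changeLevel_eq_cast_of_dvd' χ
      (Dvd.intro (primorial (Yx x)) rfl : d ∣ qm x d) h3
    rw [Int.cast_natCast, Int.cast_natCast] at h4
    exact h4
  · have h2 : ¬ IsUnit (n : ZMod (qm x d)) := by
      rw [ZMod.isUnit_iff_coprime]; exact h1
    rw [MulChar.map_nonunit _ h2]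
    split_ifs with h3
    · have h4 : ¬ n.Coprime d := by
        intro h5
        apply h1
        unfold qm
        exact Nat.coprime_mul_iff_right.2 ⟨h5, h3⟩
      have h5 : ¬ IsUnit (n : ZMod d) := by
        rw [ZMod.isUnit_iff_coprime]; exact h4
      rw [MulChar.map_nonunit _ h5]
    · rfl

theorem ch_norm_le (x : ℕ) {d : ℕ} (χ : DirichletCharacter ℂ d) (n : ZMod (qm x d)) : ‖ch x χ n‖ ≤ 1 :=
  DirichletCharacter.norm_le_one _ _

omit [T0] in
theorem cop_gt (y n : ℕ) (hy : 2 ≤ y) (hn : n.Coprime (primorial y)) : n = 1 ∨ y < n := by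
  by_contra hcon
  push Not at hcon
  obtain ⟨h1, h2⟩ := hcon
  have h3 : n.minFac.Prime := Nat.minFac_prime h1
  rcases Nat.eq_zero_or_pos n with h0 | h0
  · subst h0
    have h4 : 2 ∣ primorial y := Nat.prime_two.dvd_primorial_iff.2 hy
    rw [Nat.coprime_zero_left] at hn
    rw [hn] at h4
    omega
  · have h4 : n.minFac ≤ y := (Nat.minFac_le h0).trans h2
    have h5 : n.minFac ∣ primorial y := h3.dvd_primorial_iff.2 h4
    exact Nat.not_coprime_of_dvd_of_dvd h3.one_lt (Nat.minFac_dvd n) h5 hn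

theorem yx_ev : ∃ x0 : ℕ, ∀ x : ℕ, x0 ≤ x → 3 ≤ Yx x ∧ Real.log (Yx x) ≤ L9 x ∧ L9 x / 2 ≤ Real.log (Yx x) ∧
    1 ≤ LL x ∧ 1 ≤ L9 x ∧ 1 ≤ Real.log x ∧ (Yx x : ℝ) + 1 ≤ x := by
  have hlo := T0.lo
  have hhi := T0.hi
  have hev : ∀ᶠ L : ℝ in Filter.atTop, 1024 ≤ L ∧ 512 ≤ L ^ T0.t ∧ 2 ≤ L ^ (1 - T0.t) := by
    filter_upwards [Filter.eventually_ge_atTop (1024 : ℝ),
      (tendsto_rpow_atTop (show 0 < T0.t by linarith)).eventually_ge_atTop 512,
      (tendsto_rpow_atTop (show 0 < 1 - T0.t by linarith)).eventually_ge_atTop 2] with L h1 h2 h3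
    exact ⟨h1, h2, h3⟩
  obtain ⟨x1, hx1'⟩ := Filter.eventually_atTop.1
    ((Real.tendsto_log_atTop.comp tendsto_natCast_atTop_atTop).eventually hev)
  refine ⟨max x1 1, fun x hx => ?_⟩
  obtain ⟨hL1, h512', hpow2⟩ := hx1' x ((le_max_left _ _).trans hx)
  simp only [Function.comp_apply] at hL1 h512' hpow2
  have hx0 : (0:ℝ) < x := by
    have : 1 ≤ x := (le_max_right _ _).trans hx
    exact_mod_cast this
  obtain ⟨L, hL⟩ : ∃ L, L = Real.log x := ⟨_, rfl⟩
  rw [← hL] at hL1 h512' hpow2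
  have hL0 : 0 < L := by linarith
  obtain ⟨M, hM⟩ : ∃ M, M = L9 x := ⟨_, rfl⟩
  have hM1 : M = L ^ T0.t := by rw [hM, hL]; rfl
  have h512 : (512:ℝ) ≤ M := by rw [hM1]; exact h512'
  have hML : M ≤ L / 2 := by
    have h2 : M * L ^ (1 - T0.t) = L := by
      rw [hM1, ← Real.rpow_add hL0]
      rw [show T0.t + (1 - T0.t) = 1 by ring, Real.rpow_one]
    have h3 : 0 ≤ M := by linarith
    nlinarith
  have hexpM : 512 ≤ Real.exp (M / 2) := by
    have := Real.add_one_le_exp (M / 2)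
    have h4 : Real.exp (M / 4) ^ 2 = Real.exp (M / 2) := by
      rw [← Real.exp_nat_mul]; congr 1; push_cast; ring
    have h5 := Real.add_one_le_exp (M / 4)
    nlinarith
  have hsq : Real.exp M = Real.exp (M / 2) * Real.exp (M / 2) := by
    rw [← Real.exp_add]; congr 1; ring
  have hY1 : (Yx x : ℝ) ≤ Real.exp M := by
    unfold Yx; rw [← hM]; exact Nat.floor_le (Real.exp_pos _).le
  have hY2 : Real.exp (M / 2) + 3 ≤ (Yx x : ℝ) := by
    have h1 : Real.exp M < (Yx x : ℝ) + 1 := by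
      unfold Yx; rw [← hM]; exact Nat.lt_floor_add_one _
    nlinarith
  have hY0 : (0:ℝ) < Yx x := by linarith
  refine ⟨?_, ?_, ?_, ?_, ?_, ?_, ?_⟩
  · have h1 : (3:ℝ) ≤ (Yx x : ℝ) := by linarith
    exact_mod_cast h1
  · rw [← hM, Real.log_le_iff_le_exp hY0]; exact hY1
  · rw [← hM, Real.le_log_iff_exp_le hY0]; linarith
  · unfold LL
    rw [← hL, Real.le_log_iff_exp_le hL0]
    have := Real.exp_one_lt_d9
    linarith
  · rw [← hM]; linarith
  · rw [← hL]; linarith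
  · have h1 : Real.exp L = x := by rw [hL, Real.exp_log hx0]
    have h2 : Real.exp M ≤ Real.exp (L / 2) := Real.exp_le_exp.2 hML
    have h3 : Real.exp L = Real.exp (L / 2) * Real.exp (L / 2) := by
      rw [← Real.exp_add]; congr 1; ring
    have h4 : 512 ≤ Real.exp (L / 2) := by
      have := Real.add_one_le_exp (L / 2)
      linarith
    rw [← h1]
    nlinarith

end Pool.Agent.H76.VKT

end

section

/-!
# Mrt: the upper bound of Mertens for the sum of the reciprocals of the primes, elementary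
-/

set_option autoImplicit false

namespace Pool.Agent.H43.MP

open Finset

private theorem mrt_log {n : ℕ} (hn : 1 ≤ n) :
    ∑ p ∈ (Icc 1 n).filter Nat.Prime, Real.log p / p ≤ Real.log n + Real.log 4 := by
  have hn0 : (0 : ℝ) < n := by exact_mod_cast hn
  have h1 : ∑ k ∈ Ioc 0 n, Real.log k = ∑ d ∈ Ioc 0 n, ArithmeticFunction.vonMangoldt d * ((n / d : ℕ) : ℝ) := by
    rw [← ArithmeticFunction.sum_Ioc_mul_zeta_eq_sum, ArithmeticFunction.vonMangoldt_mul_zeta]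
    rfl
  have h2 : ∑ k ∈ Ioc 0 n, Real.log (k : ℝ) ≤ n * Real.log n := by
    calc ∑ k ∈ Ioc 0 n, Real.log (k : ℝ) ≤ ∑ _k ∈ Ioc 0 n, Real.log n := by
          refine sum_le_sum fun k hk => ?_
          rw [mem_Ioc] at hk
          exact Real.log_le_log (by exact_mod_cast hk.1) (by exact_mod_cast hk.2)
      _ = n * Real.log n := by
          rw [sum_const, Nat.card_Ioc, nsmul_eq_mul]
          simp
  have h3 : ∑ p ∈ (Icc 1 n).filter Nat.Prime, Real.log p ≤ Real.log 4 * n := by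
    have h := Chebyshev.theta_le_log4_mul_x (x := (n : ℝ)) (by positivity)
    unfold Chebyshev.theta at h
    rw [Nat.floor_natCast] at h
    refine le_trans (le_of_eq ?_) h
    refine sum_congr ?_ fun _ _ => rfl
    ext p
    simp only [mem_filter, mem_Icc, mem_Ioc]
    constructor
    · rintro ⟨⟨a, b⟩, c⟩
      exact ⟨⟨by omega, b⟩, c⟩
    · rintro ⟨⟨a, b⟩, c⟩
      exact ⟨⟨by omega, b⟩, c⟩
  have h4 : n * ∑ p ∈ (Icc 1 n).filter Nat.Prime, Real.log p / p ≤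
      ∑ d ∈ Ioc 0 n, ArithmeticFunction.vonMangoldt d * ((n / d : ℕ) : ℝ) +
        ∑ p ∈ (Icc 1 n).filter Nat.Prime, Real.log p := by
    have h5 : ∑ p ∈ (Icc 1 n).filter Nat.Prime, ArithmeticFunction.vonMangoldt p * ((n / p : ℕ) : ℝ) ≤
        ∑ d ∈ Ioc 0 n, ArithmeticFunction.vonMangoldt d * ((n / d : ℕ) : ℝ) := by
      refine sum_le_sum_of_subset_of_nonneg ?_ fun d _ _ =>
        mul_nonneg ArithmeticFunction.vonMangoldt_nonneg (Nat.cast_nonneg _)
      intro p hp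
      simp only [mem_filter, mem_Icc] at hp
      rw [mem_Ioc]
      omega
    refine le_trans ?_ (add_le_add_left h5 _)
    rw [mul_sum, ← sum_add_distrib]
    refine sum_le_sum fun p hp => ?_
    rw [mem_filter, mem_Icc] at hp
    have hp0 : (0 : ℝ) < p := by exact_mod_cast hp.1.1
    rw [ArithmeticFunction.vonMangoldt_apply_prime hp.2]
    have hlp : 0 ≤ Real.log p := Real.log_nonneg (by exact_mod_cast hp.1.1)
    have h6 : (n : ℝ) / p ≤ ((n / p : ℕ) : ℝ) + 1 := by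
      rw [div_le_iff₀ hp0]
      have h7 : n < (n / p + 1) * p := by
        have := Nat.lt_div_mul_add (a := n) (b := p) hp.1.1
        rw [add_mul, one_mul]
        exact this
      exact_mod_cast h7.le
    calc (n : ℝ) * (Real.log p / p) = Real.log p * (n / p) := by ring
      _ ≤ Real.log p * (((n / p : ℕ) : ℝ) + 1) := mul_le_mul_of_nonneg_left h6 hlp
      _ = Real.log p * ((n / p : ℕ) : ℝ) + Real.log p := by ring
  rw [← h1] at h4
  have h8 : n * ∑ p ∈ (Icc 1 n).filter Nat.Prime, Real.log p / p ≤ n * (Real.log n + Real.log 4) := by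
    linarith
  exact le_of_mul_le_mul_left h8 hn0

private theorem mrt_step (y : ℕ) (hy : 2 ≤ y) :
    ∑ p ∈ (Icc 1 y).filter Nat.Prime, (1 : ℝ) / p -
      (∑ p ∈ (Icc 1 y).filter Nat.Prime, Real.log p / p - Real.log y - Real.log 4) / Real.log y ≤
      Real.log (Real.log y) + (2 + Real.log 4 / Real.log 2 - Real.log (Real.log 2)) := by
  have hl2 : 0 < Real.log 2 := Real.log_pos (by norm_num)
  induction y, hy using Nat.le_induction with
  | base =>
    have e : (Icc 1 2).filter Nat.Prime = {2} := by decide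
    rw [e, sum_singleton, sum_singleton]
    push_cast
    have h1 : (1 : ℝ) / 2 - (Real.log 2 / 2 - Real.log 2 - Real.log 4) / Real.log 2 =
        1 + Real.log 4 / Real.log 2 := by
      field_simp
      ring
    rw [h1]
    linarith
  | succ y hy ih =>
    have hL : 0 < Real.log y := Real.log_pos (by exact_mod_cast (by omega : 1 < y))
    have hLL : Real.log y ≤ Real.log ((y + 1 : ℕ) : ℝ) :=
      Real.log_le_log (by exact_mod_cast (by omega : 0 < y)) (by exact_mod_cast (by omega))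
    have hA := mrt_log (n := y) (by omega)
    obtain ⟨L, hLd⟩ : ∃ L, L = Real.log y := ⟨_, rfl⟩
    obtain ⟨M, hMd⟩ : ∃ M, M = Real.log ((y + 1 : ℕ) : ℝ) := ⟨_, rfl⟩
    obtain ⟨A, hAd⟩ : ∃ A, A = ∑ p ∈ (Icc 1 y).filter Nat.Prime, Real.log p / p := ⟨_, rfl⟩
    obtain ⟨S, hSd⟩ : ∃ S, S = ∑ p ∈ (Icc 1 y).filter Nat.Prime, (1 : ℝ) / p := ⟨_, rfl⟩
    rw [← hLd, ← hAd, ← hSd] at ih
    rw [← hLd] at hL
    rw [← hLd, ← hMd] at hLL
    rw [← hLd, ← hAd] at hA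
    have hM : 0 < M := lt_of_lt_of_le hL hLL
    have hlog : 1 - L / M ≤ Real.log M - Real.log L := by
      have h := Real.one_sub_inv_le_log_of_pos (div_pos hM hL)
      rw [Real.log_div hM.ne' hL.ne', inv_div] at h
      exact h
    have key : (A - Real.log 4) * (1 / L - 1 / M) ≤ 1 - L / M := by
      have h1 : 0 ≤ 1 / L - 1 / M := sub_nonneg.2 (one_div_le_one_div_of_le hL hLL)
      calc (A - Real.log 4) * (1 / L - 1 / M) ≤ L * (1 / L - 1 / M) :=
            mul_le_mul_of_nonneg_right (by linarith) h1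
        _ = 1 - L / M := by field_simp
    have hfin : ∀ S' A' : ℝ, (S' - (A' - M - Real.log 4) / M) =
        (S - (A - L - Real.log 4) / L) + (A - Real.log 4) * (1 / L - 1 / M) →
        S' - (A' - M - Real.log 4) / M ≤
          Real.log M + (2 + Real.log 4 / Real.log 2 - Real.log (Real.log 2)) := by
      intro S' A' h
      rw [h]
      linarith
    rw [← hMd]
    apply hfin
    have hins : Icc 1 y.succ = insert y.succ (Icc 1 y) := by
      ext k
      rw [mem_insert, mem_Icc, mem_Icc]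
      omega
    rw [← Nat.succ_eq_add_one, hins, Finset.filter_insert]
    have hni : y.succ ∉ (Icc 1 y).filter Nat.Prime := by
      rw [mem_filter, mem_Icc]
      omega
    by_cases hp : y.succ.Prime
    · rw [if_pos hp, sum_insert hni, sum_insert hni, ← hAd, ← hSd]
      rw [Nat.succ_eq_add_one, ← hMd]
      have hy0 : ((y + 1 : ℕ) : ℝ) ≠ 0 := by positivity
      field_simp
      ring
    · rw [if_neg hp, ← hAd, ← hSd]
      field_simp
      ring

theorem mrt_upper : ∃ C : ℝ, 0 < C ∧ ∀ y : ℕ, 2 ≤ y →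
    ∑ p ∈ (Icc 1 y).filter Nat.Prime, (1 : ℝ) / p ≤ Real.log (Real.log y) + C := by
  have hl2 : 0 < Real.log 2 := Real.log_pos (by norm_num)
  have hl4 : 0 < Real.log 4 := Real.log_pos (by norm_num)
  have hll : Real.log (Real.log 2) ≤ 0 := by
    refine Real.log_nonpos hl2.le ?_
    have := Real.log_two_lt_d9
    linarith
  refine ⟨2 + Real.log 4 / Real.log 2 - Real.log (Real.log 2), ?_, fun y hy => ?_⟩
  · have : 0 < Real.log 4 / Real.log 2 := div_pos hl4 hl2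
    linarith
  · have h1 := mrt_step y hy
    have hL : 0 < Real.log y := Real.log_pos (by exact_mod_cast (by omega : 1 < y))
    have h2 := mrt_log (n := y) (by omega)
    have h3 : (∑ p ∈ (Icc 1 y).filter Nat.Prime, Real.log p / p - Real.log y - Real.log 4) / Real.log y ≤ 0 :=
      div_nonpos_of_nonpos_of_nonneg (by linarith) hL.le
    linarith

end Pool.Agent.H43.MP

end

section

/-!
# VK TailA: tails of Dirichlet series by Abel summation

Proof.  `g(u) = (log u)^k u^{-σ}`, `S(u) = ∑_{n ≤ u} f n`.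
`∑_{N<n≤M} f(n) g(n) = S(M) g(M) - S(N) g(N+1) + ∑_{N<n<M} S(n) (g(n) - g(n+1))` (for `M > N`), and `|g(n) - g(n+1)| ≤ sup |g'|` on `[n,n+1]`,
`|g'(u)| ≤ (k (log u)^{k-1} + σ (log u)^k) u^{-σ-1} ≤ (k+2) (1 + log(n+1))^k n^{-σ-1}`.  So everything is at most
`3 (k+2) δ (sup_n n g(n) + ∑_n (1 + log(n+1))^k n^{-σ})`.  With `a = (σ-1)/2 ≤ 1/2`: `w^k ≤ k! a^{-k} e^{a w}` for `w = 1 + log(n+1)`, so
`(1+log(n+1))^k ≤ 4 k! (2/(σ-1))^k n^{(σ-1)/2}` and `∑_n n^{-1-(σ-1)/2} ≤ 1 + 2/(σ-1) ≤ 3/(σ-1)`.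
-/

set_option autoImplicit false

namespace Pool.Agent.H97.VK

open Finset

/-- the weight -/
private noncomputable def tailA_g (k : ℕ) (σ : ℝ) (n : ℕ) : ℝ := Real.log n ^ k * (n : ℝ) ^ (-σ)

private lemma tailA_diff (k : ℕ) (σ : ℝ) (h1 : 1 < σ) (h2 : σ ≤ 2) (n : ℕ) (hn : 1 ≤ n) :
    |tailA_g k σ n - tailA_g k σ (n + 1)| ≤
      (k + 2) * ((1 + Real.log (n + 1)) ^ k * (n : ℝ) ^ (-σ - 1)) := by
  have hn0 : (0 : ℝ) < n := by exact_mod_cast (show 0 < n by omega)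
  have hn1 : (1 : ℝ) ≤ n := by exact_mod_cast hn
  have hder : ∀ u ∈ Set.Icc (n : ℝ) (n + 1), HasDerivWithinAt
      (fun u : ℝ => Real.log u ^ k * u ^ (-σ))
      ((k : ℝ) * Real.log u ^ (k - 1) * u⁻¹ * u ^ (-σ) + Real.log u ^ k * (-σ * u ^ (-σ - 1)))
      (Set.Icc (n : ℝ) (n + 1)) u := by
    intro u hu
    have hu0 : u ≠ 0 := by
      have := hu.1
      linarith only [hn0, this]
    exact (((Real.hasDerivAt_log hu0).pow k).mul
      (Real.hasDerivAt_rpow_const (Or.inl hu0))).hasDerivWithinAt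
  have hbd : ∀ u ∈ Set.Icc (n : ℝ) (n + 1),
      ‖(k : ℝ) * Real.log u ^ (k - 1) * u⁻¹ * u ^ (-σ) +
        Real.log u ^ k * (-σ * u ^ (-σ - 1))‖ ≤
      (k + 2) * ((1 + Real.log (n + 1)) ^ k * (n : ℝ) ^ (-σ - 1)) := by
    intro u hu
    have hu0 : 0 < u := lt_of_lt_of_le hn0 hu.1
    have hu1 : 1 ≤ u := hn1.trans hu.1
    have hlu : 0 ≤ Real.log u := Real.log_nonneg hu1
    have hlw : Real.log u ≤ 1 + Real.log (n + 1) := by
      have := Real.log_le_log hu0 hu.2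
      linarith only [this]
    have hw1 : 1 ≤ 1 + Real.log ((n : ℝ) + 1) := by
      have : 0 ≤ Real.log ((n : ℝ) + 1) := Real.log_nonneg (by linarith)
      linarith
    have hinv : u⁻¹ * u ^ (-σ) = u ^ (-σ - 1) := by
      rw [← Real.rpow_neg_one u, ← Real.rpow_add hu0]
      congr 1
      ring
    have hun : u ^ (-σ - 1) ≤ (n : ℝ) ^ (-σ - 1) :=
      Real.rpow_le_rpow_of_nonpos hn0 hu.1 (by linarith only [h1])
    have hun0 : 0 ≤ u ^ (-σ - 1) := by positivity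
    have hp1 : Real.log u ^ (k - 1) ≤ (1 + Real.log ((n : ℝ) + 1)) ^ k :=
      (pow_le_pow_left₀ hlu hlw _).trans (pow_le_pow_right₀ hw1 (Nat.sub_le k 1))
    have hp2 : Real.log u ^ k ≤ (1 + Real.log ((n : ℝ) + 1)) ^ k := pow_le_pow_left₀ hlu hlw _
    have hlp1 : 0 ≤ Real.log u ^ (k - 1) := pow_nonneg hlu _
    have hlp2 : 0 ≤ Real.log u ^ k := pow_nonneg hlu _
    have hk : (0 : ℝ) ≤ k := Nat.cast_nonneg k
    have hm1 : Real.log u ^ (k - 1) * u ^ (-σ - 1) ≤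
        (1 + Real.log ((n : ℝ) + 1)) ^ k * (n : ℝ) ^ (-σ - 1) :=
      mul_le_mul hp1 hun hun0 (by positivity)
    have hm2 : Real.log u ^ k * u ^ (-σ - 1) ≤
        (1 + Real.log ((n : ℝ) + 1)) ^ k * (n : ℝ) ^ (-σ - 1) :=
      mul_le_mul hp2 hun hun0 (by positivity)
    have e1 : (k : ℝ) * Real.log u ^ (k - 1) * u⁻¹ * u ^ (-σ) +
        Real.log u ^ k * (-σ * u ^ (-σ - 1)) =
        k * (Real.log u ^ (k - 1) * u ^ (-σ - 1)) - σ * (Real.log u ^ k * u ^ (-σ - 1)) := by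
      rw [← hinv]
      ring
    rw [e1, Real.norm_eq_abs, abs_le]
    have hA := mul_le_mul_of_nonneg_left hm1 hk
    have hB : σ * (Real.log u ^ k * u ^ (-σ - 1)) ≤
        2 * ((1 + Real.log ((n : ℝ) + 1)) ^ k * (n : ℝ) ^ (-σ - 1)) :=
      mul_le_mul h2 hm2 (by positivity) (by norm_num)
    have hA0 : 0 ≤ (k : ℝ) * (Real.log u ^ (k - 1) * u ^ (-σ - 1)) := by positivity
    have hB0 : 0 ≤ σ * (Real.log u ^ k * u ^ (-σ - 1)) := by positivity
    have hX : 0 ≤ (1 + Real.log ((n : ℝ) + 1)) ^ k * (n : ℝ) ^ (-σ - 1) := by positivity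
    have hkX : 0 ≤ (k : ℝ) * ((1 + Real.log ((n : ℝ) + 1)) ^ k * (n : ℝ) ^ (-σ - 1)) := by
      positivity
    constructor
    · linarith only [hA, hB, hA0]
    · linarith only [hA, hB, hB0]
  have h := Convex.norm_image_sub_le_of_norm_hasDerivWithin_le hder hbd (convex_Icc _ _)
    (Set.right_mem_Icc.2 (by linarith)) (Set.left_mem_Icc.2 (by linarith))
  have e2 : ‖(n : ℝ) - ((n : ℝ) + 1)‖ = 1 := by
    rw [show (n : ℝ) - ((n : ℝ) + 1) = -1 by ring]
    simp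
  rw [e2, mul_one, Real.norm_eq_abs] at h
  unfold tailA_g
  push_cast
  exact h

private lemma tailA_sum (a : ℝ) (ha : 0 < a) (ha1 : a ≤ 1) (M : ℕ) :
    ∑ n ∈ Icc 1 M, (n : ℝ) ^ (-1 - a) ≤ 1 + 1 / a := by
  have key : ∀ n : ℕ, 1 ≤ n →
      a * ((n + 1 : ℕ) : ℝ) ^ (-1 - a) ≤ (n : ℝ) ^ (-a) - ((n + 1 : ℕ) : ℝ) ^ (-a) := by
    intro n hn
    have hn0 : (0 : ℝ) < n := by exact_mod_cast (show 0 < n by omega)
    have hm0 : (0 : ℝ) < (n : ℝ) + 1 := by linarith only [hn0]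
    push_cast
    set m : ℝ := (n : ℝ) + 1 with hm
    have h1 : (n / m) ^ a ≤ 1 - a / m := by
      have h := rpow_one_add_le_one_add_mul_self (s := -(1 / m)) (by
        rw [neg_le_neg_iff, div_le_one hm0]
        linarith) ha.le ha1
      have e1 : 1 + -(1 / m) = n / m := by
        field_simp
        rw [hm]
        ring
      rw [e1] at h
      refine h.trans (le_of_eq ?_)
      ring
    have hnm : 0 < (n : ℝ) / m := by positivity
    have hx0 : 0 < ((n : ℝ) / m) ^ a := Real.rpow_pos_of_pos hnm a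
    have ham : 0 ≤ a / m := by positivity
    have h2 : 1 + a / m ≤ (n / m) ^ (-a) := by
      rw [Real.rpow_neg hnm.le, ← one_div, le_div_iff₀ hx0]
      nlinarith only [h1, ham]
    have h3 : (n : ℝ) ^ (-a) = (n / m) ^ (-a) * m ^ (-a) := by
      rw [← Real.mul_rpow hnm.le hm0.le]
      congr 1
      field_simp
    have h4 : m ^ (-1 - a) = m ^ (-a) / m := by
      rw [show (-1 - a) = -a - 1 by ring, Real.rpow_sub hm0, Real.rpow_one]
    have h5 : 0 ≤ m ^ (-a) := by positivity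
    rw [h3, h4]
    have h6 := mul_le_mul_of_nonneg_right h2 h5
    have e3 : a * (m ^ (-a) / m) = a / m * m ^ (-a) := by ring
    rw [e3]
    linarith only [h6]
  have hind : ∀ M : ℕ, 1 ≤ M → a * ∑ n ∈ Icc 1 M, (n : ℝ) ^ (-1 - a) ≤
      a + 1 - (M : ℝ) ^ (-a) := by
    intro M hM
    induction M, hM using Nat.le_induction with
    | base => simp
    | succ M hM ih =>
      rw [sum_Icc_succ_top (by omega)]
      have := key M hM
      rw [mul_add]
      linarith only [ih, this]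
  rcases Nat.eq_zero_or_pos M with rfl | hM
  · simp
    positivity
  · have h := hind M hM
    have h0 : 0 ≤ (M : ℝ) ^ (-a) := by positivity
    have e : 1 + 1 / a = (a + 1) / a := by field_simp
    rw [e, le_div_iff₀ ha, mul_comm]
    linarith only [h, h0]

private lemma tailA_pow (k : ℕ) (a w : ℝ) (ha : 0 < a) (hw : 0 ≤ w) :
    w ^ k ≤ (k.factorial : ℝ) * (1 / a) ^ k * Real.exp (a * w) := by
  have h := Real.pow_div_factorial_le_exp (a * w) (by positivity) k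
  have hf : (0 : ℝ) < k.factorial := by exact_mod_cast Nat.factorial_pos k
  rw [div_le_iff₀ hf, mul_pow] at h
  have e : w ^ k = (1 / a) ^ k * (a ^ k * w ^ k) := by
    rw [← mul_assoc, ← mul_pow, one_div, inv_mul_cancel₀ ha.ne', one_pow, one_mul]
  rw [e]
  calc (1 / a) ^ k * (a ^ k * w ^ k) ≤ (1 / a) ^ k * (Real.exp (a * w) * k.factorial) :=
        mul_le_mul_of_nonneg_left h (by positivity)
    _ = _ := by ring

private lemma tailA_abel (f : ℕ → ℂ) (g : ℕ → ℝ) (N M : ℕ) (hM : N ≤ M) :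
    ∑ n ∈ Ioc N M, f n * (g n : ℂ) = (∑ n ∈ Ioc N M, f n) * (g M : ℂ) +
      ∑ n ∈ Ico N M, (∑ j ∈ Ioc N n, f j) * ((g n - g (n + 1) : ℝ) : ℂ) := by
  induction M, hM using Nat.le_induction with
  | base => simp
  | succ M hM ih =>
    rw [sum_Ioc_succ_top (by omega), sum_Ico_succ_top (by omega), sum_Ioc_succ_top (by omega), ih]
    push_cast
    ring

theorem tail_abel (k : ℕ) : ∃ C : ℝ, 1 ≤ C ∧ ∀ (f : ℕ → ℂ) (δ σ : ℝ) (N : ℕ), 0 ≤ δ → 1 < σ → σ ≤ 2 → 1 ≤ N →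
    (∀ u : ℕ, N ≤ u → ‖∑ n ∈ Icc 1 u, f n‖ ≤ δ * u) → ∀ M : ℕ, N ≤ M →
    ‖∑ n ∈ Ioc N M, f n * ((Real.log n ^ k * (n : ℝ) ^ (-σ) : ℝ) : ℂ)‖ ≤ C * δ * (1 / (σ - 1)) ^ (k + 1) := by
  have hf1 : (1 : ℝ) ≤ k.factorial := by exact_mod_cast Nat.factorial_pos k
  have hk0 : (0 : ℝ) ≤ k := Nat.cast_nonneg k
  have h2k : (1 : ℝ) ≤ 2 ^ k := one_le_pow₀ (by norm_num)
  refine ⟨(k.factorial : ℝ) * 2 ^ k * (2 + 24 * (k + 2)), ?_, ?_⟩
  · have h1 : (1 : ℝ) ≤ k.factorial * 2 ^ k := one_le_mul_of_one_le_of_one_le hf1 h2k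
    nlinarith only [h1]
  intro f δ σ N hδ h1 h2 hN hS M hM
  set a : ℝ := (σ - 1) / 2 with ha
  have ha0 : 0 < a := by rw [ha]; linarith only [h1]
  have ha1 : a ≤ 1 / 2 := by rw [ha]; linarith only [h2]
  set X : ℝ := 1 / (σ - 1) with hX
  have hX1 : 1 ≤ X := by
    rw [hX, le_div_iff₀ (by linarith only [h1])]
    linarith only [h2]
  have hinva : 1 / a = 2 * X := by
    rw [ha, hX]
    field_simp
  have hinvak : (1 / a) ^ k = 2 ^ k * X ^ k := by rw [hinva, mul_pow]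
  have hfg : ∀ n : ℕ, ((Real.log n ^ k * (n : ℝ) ^ (-σ) : ℝ) : ℂ) = (tailA_g k σ n : ℂ) :=
    fun n => rfl
  simp only [hfg]
  rw [tailA_abel f (tailA_g k σ) N M hM]
  have hT : ∀ n : ℕ, N ≤ n → ‖∑ j ∈ Ioc N n, f j‖ ≤ 2 * δ * n := by
    intro n hn
    have e : ∑ j ∈ Ioc N n, f j = ∑ j ∈ Icc 1 n, f j - ∑ j ∈ Icc 1 N, f j := by
      have h3 : Icc 1 n = Icc 1 N ∪ Ioc N n := by
        ext j
        simp only [mem_Icc, mem_union, mem_Ioc]
        omega
      have h4 : Disjoint (Icc 1 N) (Ioc N n) := by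
        rw [disjoint_left]
        intro j hj hj'
        rw [mem_Icc] at hj
        rw [mem_Ioc] at hj'
        omega
      rw [h3, sum_union h4]
      ring
    rw [e]
    have h5 := norm_sub_le (∑ j ∈ Icc 1 n, f j) (∑ j ∈ Icc 1 N, f j)
    have h6 := hS n hn
    have h7 := hS N le_rfl
    have h8 : δ * N ≤ δ * n := mul_le_mul_of_nonneg_left (by exact_mod_cast hn) hδ
    linarith only [h5, h6, h7, h8]
  have hgM : (M : ℝ) * |tailA_g k σ M| ≤ k.factorial * (2 ^ k * X ^ k) := by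
    have hM1 : 1 ≤ M := hN.trans hM
    have hM0 : (0 : ℝ) < M := by exact_mod_cast (show 0 < M by omega)
    have hM1' : (1 : ℝ) ≤ M := by exact_mod_cast hM1
    have hlM : 0 ≤ Real.log M := Real.log_nonneg hM1'
    have h3 := tailA_pow k a (Real.log M) ha0 hlM
    have e1 : Real.exp (a * Real.log M) = (M : ℝ) ^ a := by
      rw [Real.rpow_def_of_pos hM0, mul_comm]
    rw [e1, hinvak] at h3
    unfold tailA_g
    rw [abs_of_nonneg (by positivity)]
    have h4 : (M : ℝ) ^ a * (M : ℝ) ^ (-σ) * M ≤ 1 := by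
      have : (M : ℝ) ^ a * (M : ℝ) ^ (-σ) * M = (M : ℝ) ^ (-a) := by
        rw [← Real.rpow_add hM0]
        nth_rewrite 2 [← Real.rpow_one (M : ℝ)]
        rw [← Real.rpow_add hM0]
        congr 1
        rw [ha]
        ring
      rw [this]
      exact Real.rpow_le_one_of_one_le_of_nonpos hM1' (by linarith only [ha0])
    have h5 : 0 ≤ (M : ℝ) ^ (-σ) * M := by positivity
    calc (M : ℝ) * (Real.log M ^ k * (M : ℝ) ^ (-σ)) = Real.log M ^ k * ((M : ℝ) ^ (-σ) * M) := by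
          ring
      _ ≤ (k.factorial * (2 ^ k * X ^ k) * (M : ℝ) ^ a) * ((M : ℝ) ^ (-σ) * M) :=
          mul_le_mul_of_nonneg_right h3 h5
      _ = (k.factorial * (2 ^ k * X ^ k)) * ((M : ℝ) ^ a * (M : ℝ) ^ (-σ) * M) := by ring
      _ ≤ (k.factorial * (2 ^ k * X ^ k)) * 1 := mul_le_mul_of_nonneg_left h4 (by positivity)
      _ = _ := mul_one _
  have hterm : ∀ n ∈ Ico N M, ‖(∑ j ∈ Ioc N n, f j) * ((tailA_g k σ n - tailA_g k σ (n + 1) : ℝ) : ℂ)‖ ≤
      8 * δ * (k + 2) * (k.factorial * (2 ^ k * X ^ k)) * (n : ℝ) ^ (-1 - a) := by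
    intro n hn
    rw [mem_Ico] at hn
    have hn1 : 1 ≤ n := hN.trans hn.1
    have hn0 : (0 : ℝ) < n := by exact_mod_cast (show 0 < n by omega)
    have hn1' : (1 : ℝ) ≤ n := by exact_mod_cast hn1
    have hd := tailA_diff k σ h1 h2 n hn1
    have hw : 0 ≤ 1 + Real.log ((n : ℝ) + 1) := by
      have : 0 ≤ Real.log ((n : ℝ) + 1) := Real.log_nonneg (by linarith only [h2, ha, ha0, hn1'])
      linarith only [h2, ha, ha0, this]
    have h3 := tailA_pow k a (1 + Real.log ((n : ℝ) + 1)) ha0 hw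
    rw [hinvak] at h3
    have h4 : Real.exp (a * (1 + Real.log ((n : ℝ) + 1))) ≤ 4 * (n : ℝ) ^ a := by
      have e1 : a * (1 + Real.log ((n : ℝ) + 1)) = a + a * Real.log ((n : ℝ) + 1) := by ring
      have e2 : Real.exp (a * Real.log ((n : ℝ) + 1)) = ((n : ℝ) + 1) ^ a := by
        rw [Real.rpow_def_of_pos (by linarith only [h2, ha, ha0, hn1']), mul_comm]
      rw [e1, Real.exp_add, e2]
      have h5 : Real.exp a ≤ 2 := by
        have h6 : Real.exp a ≤ Real.exp (1 / 2) := Real.exp_le_exp.2 ha1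
        have h7 : Real.exp (1 / 2) ^ 2 = Real.exp 1 := by
          rw [← Real.exp_nat_mul]
          norm_num
        have h8 := Real.exp_one_lt_d9
        have h9 : 0 < Real.exp (1 / 2) := Real.exp_pos _
        nlinarith only [ha, ha0, h6, h7, h8, h1, h2, h9]
      have h6 : ((n : ℝ) + 1) ^ a ≤ 2 * (n : ℝ) ^ a := by
        calc ((n : ℝ) + 1) ^ a ≤ (2 * (n : ℝ)) ^ a :=
              Real.rpow_le_rpow (by linarith only [h2, ha, ha0, hn1']) (by linarith only [hn1']) ha0.le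
          _ = 2 ^ a * (n : ℝ) ^ a := Real.mul_rpow (by norm_num) hn0.le
          _ ≤ 2 * (n : ℝ) ^ a := by
              refine mul_le_mul_of_nonneg_right ?_ (by positivity)
              calc (2 : ℝ) ^ a ≤ (2 : ℝ) ^ (1 : ℝ) :=
                    Real.rpow_le_rpow_of_exponent_le (by norm_num) (by linarith only [h2, ha, ha0])
                _ = 2 := Real.rpow_one 2
      calc Real.exp a * ((n : ℝ) + 1) ^ a ≤ 2 * (2 * (n : ℝ) ^ a) :=
            mul_le_mul h5 h6 (by positivity) (by norm_num)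
        _ = 4 * (n : ℝ) ^ a := by ring
    have h5 : (1 + Real.log ((n : ℝ) + 1)) ^ k ≤
        k.factorial * (2 ^ k * X ^ k) * (4 * (n : ℝ) ^ a) :=
      h3.trans (mul_le_mul_of_nonneg_left h4 (by positivity))
    have h6 : (n : ℝ) ^ a * (n : ℝ) ^ (-σ - 1) * n = (n : ℝ) ^ (-1 - a) := by
      rw [← Real.rpow_add hn0]
      nth_rewrite 2 [← Real.rpow_one (n : ℝ)]
      rw [← Real.rpow_add hn0]
      congr 1
      rw [ha]
      ring
    rw [norm_mul, Complex.norm_real, Real.norm_eq_abs]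
    have hp : 0 ≤ (n : ℝ) ^ (-σ - 1) := by positivity
    calc ‖∑ j ∈ Ioc N n, f j‖ * |tailA_g k σ n - tailA_g k σ (n + 1)|
        ≤ (2 * δ * n) * ((k + 2) * ((1 + Real.log (n + 1)) ^ k * (n : ℝ) ^ (-σ - 1))) :=
          mul_le_mul (hT n hn.1) hd (abs_nonneg _) (by positivity)
      _ ≤ (2 * δ * n) * ((k + 2) * ((k.factorial * (2 ^ k * X ^ k) * (4 * (n : ℝ) ^ a)) *
            (n : ℝ) ^ (-σ - 1))) := by
          refine mul_le_mul_of_nonneg_left ?_ (by positivity)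
          refine mul_le_mul_of_nonneg_left ?_ (by positivity)
          exact mul_le_mul_of_nonneg_right h5 hp
      _ = 8 * δ * (k + 2) * (k.factorial * (2 ^ k * X ^ k)) *
            ((n : ℝ) ^ a * (n : ℝ) ^ (-σ - 1) * n) := by ring
      _ = _ := by rw [h6]
  have hsum : ‖∑ n ∈ Ico N M, (∑ j ∈ Ioc N n, f j) *
      ((tailA_g k σ n - tailA_g k σ (n + 1) : ℝ) : ℂ)‖ ≤
      8 * δ * (k + 2) * (k.factorial * (2 ^ k * X ^ k)) * (3 * X) := by
    refine (norm_sum_le _ _).trans ((sum_le_sum hterm).trans ?_)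
    rw [← mul_sum]
    refine mul_le_mul_of_nonneg_left ?_ (by positivity)
    have h3 : ∑ n ∈ Ico N M, (n : ℝ) ^ (-1 - a) ≤ ∑ n ∈ Icc 1 M, (n : ℝ) ^ (-1 - a) := by
      refine sum_le_sum_of_subset_of_nonneg ?_ fun _ _ _ => by positivity
      intro n hn
      rw [mem_Ico] at hn
      rw [mem_Icc]
      omega
    refine h3.trans ((tailA_sum a ha0 (by linarith only [h2, ha]) M).trans ?_)
    rw [hinva]
    linarith only [hX1]
  have hfirst : ‖(∑ n ∈ Ioc N M, f n) * (tailA_g k σ M : ℂ)‖ ≤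
      2 * δ * (k.factorial * (2 ^ k * X ^ k)) := by
    rw [norm_mul, Complex.norm_real, Real.norm_eq_abs]
    calc ‖∑ n ∈ Ioc N M, f n‖ * |tailA_g k σ M| ≤ (2 * δ * M) * |tailA_g k σ M| :=
          mul_le_mul_of_nonneg_right (hT M hM) (abs_nonneg _)
      _ = 2 * δ * (M * |tailA_g k σ M|) := by ring
      _ ≤ _ := mul_le_mul_of_nonneg_left hgM (by positivity)
  refine (norm_add_le _ _).trans ((add_le_add hfirst hsum).trans ?_)
  have hD : 0 ≤ δ * (k.factorial * (2 ^ k * X ^ k)) := by positivity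
  have e1 : (k.factorial : ℝ) * 2 ^ k * (2 + 24 * (k + 2)) * δ * X ^ (k + 1) =
      δ * (k.factorial * (2 ^ k * X ^ k)) * (2 * X + 24 * (k + 2) * X) := by
    rw [pow_succ]
    ring
  have e2 : 2 * δ * (k.factorial * (2 ^ k * X ^ k)) +
      8 * δ * (k + 2) * (k.factorial * (2 ^ k * X ^ k)) * (3 * X) =
      δ * (k.factorial * (2 ^ k * X ^ k)) * (2 + 24 * (k + 2) * X) := by
    ring
  rw [e1, e2]
  refine mul_le_mul_of_nonneg_left ?_ hD
  linarith only [hX1]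

end Pool.Agent.H97.VK

end

section

/-!
PK CA: Taylor coefficients of L-functions to the right of 1 and their trivial bounds.

aL f j s = ∑_n f(n) (log n)^j/j! n^{-s},  fL f j s = ∑_n f(n) Λ(n) (log n)^j/j! n^{-s}.

`aL_bound`: let |f| ≤ 1, all partial sums over [1,B] bounded by r (r ≥ 1 real), 1 < σ ≤ 2, y = r(|t|+2),
  A = log y + 5.  Then |aL f j (σ+it)| ≤ A^(j+1).
Proof. n ≤ y: ∑_{n≤y} (log n)^j/n ≤ (log y)^j (log y + 1).
 n > y: partial sums of f over (⌊y⌋, u] are ≤ 2r; Abel summation against h(u) = (log u)^j u^{-s}: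
   |∑_{n>y}| ≤ 2r (sup_{u≥y} |h| + ∫_y^∞ |h'|) (or directly with h(n)-h(n+1) = -∫_n^{n+1} h'), |h'(u)| ≤
   (j (log u)^{j-1} + |s| (log u)^j)/u².   I_j := ∫_y^∞ (log u)^j u^{-2} du = (1/y) ∑_{i≤j} (j!/i!) (log y)^i
   ≤ (j!/y)(1+log y)^j, and sup_{u≥y} (log u)^j/u ≤ I_j.  Total ≤ 2r (j!/y)(1+log y)^j (2+|s|) ≤ 4 j! (1+log y)^j as
   |s| ≤ 2+|t|.
 Sum: j! |aL| ≤ (log y)^j(log y+1) + 4 j!(1+log y)^j ≤ j! (1+log y)^j (log y + 5).
 (An alternative to integrals: the sequence h(n) for n > y and induction; free choice.)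
`aL_bound_principal`: if instead |∑_{n≤B} f(n) - κ B| ≤ r with 0 ≤ κ ≤ 1, then |aL f 0 s| ≤ log y + 8 + 1/|s-1|.
 (tail: ∑_{n>Y} n^{-s} = Y^{1-s}/(s-1) + O((|s|+1)/Y) with Y = ⌊y⌋ or ⌈y⌉, plus the part with f - κ bounded as before.)
`char_principal`: for the principal character mod r: |∑_{n≤B} 1_{(n,r)=1} - (φ(r)/r) B| ≤ r.
-/

set_option autoImplicit false

namespace Pool.Agent.H91.PK

open Finset

/-! ### auxiliary functions -/

/-- zeta at 1+x -/
theorem zeta_bound {x : ℝ} (hx : 0 < x) : ∑' n : ℕ, 1 / ((n : ℝ) + 1) ^ (1 + x) ≤ 1 + 1 / x := by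
  have key : ∀ a : ℝ, 1 ≤ a → 1 / (a + 1) ^ (1 + x) ≤ 1 / x * (a ^ (-x) - (a + 1) ^ (-x)) := by
    intro a ha
    have ha0 : 0 < a := by linarith
    have h1 : 1 + x / (a + 1) ≤ ((a + 1) / a) ^ x := by
      rw [Real.rpow_def_of_pos (by positivity)]
      have h2 := Real.add_one_le_exp (Real.log ((a + 1) / a) * x)
      have h3 := Real.one_sub_inv_le_log_of_pos (show 0 < (a + 1) / a by positivity)
      have h4 : 1 - ((a + 1) / a)⁻¹ = 1 / (a + 1) := by
        field_simp; ring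
      rw [h4] at h3
      have h5 : x / (a + 1) ≤ Real.log ((a + 1) / a) * x := by
        calc x / (a + 1) = 1 / (a + 1) * x := by ring
          _ ≤ _ := mul_le_mul_of_nonneg_right h3 hx.le
      linarith
    have h2 : ((a + 1) / a) ^ x = (a + 1) ^ x * a ^ (-x) := by
      rw [Real.div_rpow (by positivity) ha0.le, Real.rpow_neg ha0.le]; rfl
    have h3 : (a + 1) ^ (-x) * ((a + 1) ^ x * a ^ (-x)) = a ^ (-x) := by
      rw [← mul_assoc, ← Real.rpow_add (by positivity)]; simp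
    have h4 : 0 < (a + 1) ^ (-x) := Real.rpow_pos_of_pos (by positivity) _
    have h5 := mul_le_mul_of_nonneg_left h1 h4.le
    rw [h2, h3] at h5
    have h6 : 1 / (a + 1) ^ (1 + x) = (a + 1) ^ (-x) / (a + 1) := by
      rw [Real.rpow_add (by positivity), Real.rpow_one, Real.rpow_neg (by positivity)]
      field_simp
    rw [h6]
    have h7 : (a + 1) ^ (-x) / (a + 1) = 1 / x * ((a + 1) ^ (-x) * (1 + x / (a + 1)) - (a + 1) ^ (-x)) := by
      field_simp
      ring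
    rw [h7]
    apply mul_le_mul_of_nonneg_left _ (by positivity)
    linarith
  have part : ∀ M : ℕ, ∑ n ∈ range (M + 1), 1 / ((n : ℝ) + 1) ^ (1 + x)
      ≤ 1 + 1 / x * (1 - ((M : ℝ) + 1) ^ (-x)) := by
    intro M
    induction M with
    | zero => simp
    | succ M ih =>
      rw [Finset.sum_range_succ]
      have h := key ((M : ℝ) + 1) (by linarith [Nat.cast_nonneg (α := ℝ) M])
      push_cast
      have : 1 + 1 / x * (1 - ((M : ℝ) + 1 + 1) ^ (-x)) = 1 + 1 / x * (1 - ((M : ℝ) + 1) ^ (-x))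
        + 1 / x * (((M : ℝ) + 1) ^ (-x) - ((M : ℝ) + 1 + 1) ^ (-x)) := by ring
      rw [this]
      exact add_le_add ih h
  apply Real.tsum_le_of_sum_range_le
  · intro n; positivity
  · intro n
    cases n with
    | zero => simp; positivity
    | succ M =>
      refine (part M).trans ?_
      have h1 : 0 < ((M : ℝ) + 1) ^ (-x) := by positivity
      have h2 : 1 / x * (1 - ((M : ℝ) + 1) ^ (-x)) ≤ 1 / x * 1 :=
        mul_le_mul_of_nonneg_left (by linarith) (by positivity)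
      linarith

end Pool.Agent.H91.PK

end
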