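import Pool.Agent.H94.EH.H88.PSI.Defs
import Pool.Agent.H94.EH.H91.EHA.Defs
import Pool.Agent.H94.EH.M18

/-! The parts of this file: H91.L1.LamC, H88.PSI.Dpm, H80.LV.Defs, H88.PSI.Cov, H88.PSI.Mvt, H88.PSI.Edg, H88.PSI.Bin, H97.VK.VDefs. -/

section

/-!
# L1 LamC: `lamR` in residue classes modulo `d ≤ R`

`lamR R n = ∑_{c ≤ R} μ(c)/φ(c) ∑_{e | (c, n)} e μ(c/e)`.  The number of `n ≤ y`, `n ≡ u (d)`, `e | n` is `0` if
`gcd(d,e)` does not divide `u`, otherwise `y/lcm(d,e)` up to an error at most `1`; total error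
`∑_{c ≤ R} (1/φ(c)) ∑_{e|c} e ≤ ∑_{c ≤ R} c² ≤ R³` (as in `EHA/Lam1.lean`, whose lemmas may help).
Main term: `(y/d) ∑_{c ≤ R} μ(c)/φ(c) ∑_{e|c} μ(c/e) g(e)`, `g(e) = gcd(e,d)` if `gcd(e,d) | u`, else `0`; `c` squarefree:
the inner sum is `∏_{p|c} (g(p) - 1)`, zero if some `p | c` does not divide `d` (`g(p) = 1`); so `c | d`, and
`g(p) = p` for `p | u`, `0` otherwise.  As `d ≤ R` all `c | d` occur:
`∑_{c|d} μ(c)/φ(c) ∏_{p|c}(p 1_{p|u} - 1) = ∏_{p|d} (1 - (p 1_{p|u} - 1)/(p-1)) = (d/φ(d)) 1_{(u,d)=1}`.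
(Alternatively: `ramS c n = ∑_{b mod c, (b,c)=1} e(nb/c)` (`EHA/SwK2.lean: ramS_eq`), sums over a class mod `d` of `e(nb/c)`
are `O(c)` unless `c | d`.)
-/

set_option autoImplicit false

namespace Pool.Agent.H91.L1

open Finset
open Pool.Agent.H91.EHA (Lam lamR hR psiA err)

/-- Number of `n ≤ y` in a residue class. -/
private theorem LamC_count (y m b : ℕ) (hm : 0 < m) :
    |(((Icc 1 y).filter (fun n => n ≡ b [MOD m])).card : ℝ) - (y : ℝ) / m| ≤ 1 := by
  have h0 : Icc 1 y = Ioc 0 y := by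
    ext n
    simp only [mem_Icc, mem_Ioc]
    omega
  have h1 := Nat.Ioc_filter_modEq_card 0 y hm b
  rw [h0]
  have hmq : (0 : ℚ) < (m : ℚ) := by exact_mod_cast hm
  set A : ℚ := ((y : ℚ) - b) / m with hA
  set B : ℚ := (((0 : ℕ) : ℚ) - b) / m with hB
  have hAB : A = B + (y : ℚ) / m := by
    rw [hA, hB]
    push_cast
    ring
  have hy : (0 : ℚ) ≤ (y : ℚ) / m := by positivity
  have hle : ⌊B⌋ ≤ ⌊A⌋ := Int.floor_le_floor (by rw [hAB]; linarith)
  rw [max_eq_left (by linarith)] at h1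
  have h2 : ((((Ioc 0 y).filter (fun n => n ≡ b [MOD m])).card : ℤ) : ℚ) = (⌊A⌋ : ℚ) - (⌊B⌋ : ℚ) := by
    rw [h1]
    push_cast
    ring
  have a1 := Int.floor_le A
  have a2 := Int.lt_floor_add_one A
  have b1 := Int.floor_le B
  have b2 := Int.lt_floor_add_one B
  have h3 : |((((Ioc 0 y).filter (fun n => n ≡ b [MOD m])).card : ℤ) : ℚ) - (y : ℚ) / m| ≤ 1 := by
    rw [h2, abs_le]
    constructor <;> linarith
  have h4 : ((|((((Ioc 0 y).filter (fun n => n ≡ b [MOD m])).card : ℤ) : ℚ) - (y : ℚ) / m| : ℚ) : ℝ)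
      ≤ ((1 : ℚ) : ℝ) := by
    exact_mod_cast h3
  push_cast at h4
  simpa using h4

/-- Number of `n ≤ y`, `n ≡ u mod d`, divisible by `e`. -/
private noncomputable def LamC_N (y d u e : ℕ) : ℕ :=
  (((Icc 1 y).filter (fun n => n ≡ u [MOD d])).filter (fun n => e ∣ n)).card

/-- `gcd(e,d)` if it divides `u`, otherwise `0` -/
private noncomputable def LamC_g (d u : ℕ) : ArithmeticFunction ℝ :=
  ⟨fun e => if e = 0 then 0 else if Nat.gcd e d ∣ u then (Nat.gcd e d : ℝ) else 0, by simp⟩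

private theorem LamC_g_apply (d u e : ℕ) (he : e ≠ 0) :
    LamC_g d u e = if Nat.gcd e d ∣ u then (Nat.gcd e d : ℝ) else 0 := by
  simp [LamC_g, he]

private theorem LamC_g_mult (d u : ℕ) : (LamC_g d u).IsMultiplicative := by
  rw [ArithmeticFunction.IsMultiplicative.iff_ne_zero]
  refine ⟨?_, fun {m n} hm hn hmn => ?_⟩
  · rw [LamC_g_apply _ _ _ one_ne_zero]
    simp
  · rw [LamC_g_apply _ _ _ hm, LamC_g_apply _ _ _ hn, LamC_g_apply _ _ _ (mul_ne_zero hm hn)]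
    have h1 : Nat.gcd (m * n) d = Nat.gcd m d * Nat.gcd n d := by
      rw [Nat.gcd_comm (m * n) d, Nat.Coprime.gcd_mul d hmn, Nat.gcd_comm d m, Nat.gcd_comm d n]
    have h2 : Nat.Coprime (Nat.gcd m d) (Nat.gcd n d) :=
      Nat.Coprime.coprime_dvd_left (Nat.gcd_dvd_left m d)
        (Nat.Coprime.coprime_dvd_right (Nat.gcd_dvd_left n d) hmn)
    rw [h1]
    by_cases a : Nat.gcd m d ∣ u
    · by_cases b : Nat.gcd n d ∣ u
      · rw [if_pos a, if_pos b, if_pos (h2.mul_dvd_of_dvd_of_dvd a b)]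
        push_cast
        ring
      · rw [if_neg b, if_neg (fun h => b ((Dvd.intro_left _ rfl).trans h)), mul_zero]
    · rw [if_neg a, if_neg (fun h => a ((Dvd.intro _ rfl).trans h)), zero_mul]

private theorem LamC_N_bound (y d u e : ℕ) (hd : 1 ≤ d) (he : 1 ≤ e) :
    |(LamC_N y d u e : ℝ) - (y : ℝ) / d * (LamC_g d u e / e)| ≤ 1 := by
  rw [LamC_g_apply _ _ _ (by omega)]
  by_cases h : Nat.gcd e d ∣ u
  · rw [if_pos h]
    have h0 : u ≡ 0 [MOD Nat.gcd d e] := by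
      rw [Nat.modEq_zero_iff_dvd, Nat.gcd_comm]
      exact h
    obtain ⟨b, hb1, hb2⟩ := Nat.chineseRemainder' h0
    have h1 : ((Icc 1 y).filter (fun n => n ≡ u [MOD d])).filter (fun n => e ∣ n)
        = (Icc 1 y).filter (fun n => n ≡ b [MOD (Nat.lcm d e)]) := by
      rw [filter_filter]
      apply filter_congr
      intro n _
      constructor
      · rintro ⟨h, h'⟩
        exact Nat.mod_lcm (h.trans hb1.symm) (((Nat.modEq_zero_iff_dvd).2 h').trans hb2.symm)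
      · intro h
        exact ⟨(h.of_dvd (Nat.dvd_lcm_left d e)).trans hb1,
          (Nat.modEq_zero_iff_dvd).1 ((h.of_dvd (Nat.dvd_lcm_right d e)).trans hb2)⟩
    unfold LamC_N
    rw [h1]
    have h2 := LamC_count y (Nat.lcm d e) b (Nat.lcm_pos hd he)
    have h3 : (y : ℝ) / (Nat.lcm d e : ℝ) = (y : ℝ) / d * ((Nat.gcd e d : ℝ) / e) := by
      have h4 : Nat.gcd d e * Nat.lcm d e = d * e := Nat.gcd_mul_lcm d e
      have h5 : (Nat.gcd d e : ℝ) * (Nat.lcm d e : ℝ) = (d : ℝ) * e := by exact_mod_cast h4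
      have hl : (0 : ℝ) < (Nat.lcm d e : ℝ) := by exact_mod_cast Nat.lcm_pos hd he
      have hd0 : (0 : ℝ) < d := by exact_mod_cast hd
      have he0 : (0 : ℝ) < e := by exact_mod_cast he
      rw [Nat.gcd_comm e d]
      field_simp
      linear_combination (-(y : ℝ)) * h5
    rw [h3] at h2
    exact h2
  · rw [if_neg h]
    have h1 : LamC_N y d u e = 0 := by
      unfold LamC_N
      rw [card_eq_zero, filter_eq_empty_iff]
      intro n hn hdn
      rw [mem_filter] at hn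
      apply h
      have h1 : Nat.gcd e d ∣ n := (Nat.gcd_dvd_left e d).trans hdn
      have h2 : Nat.gcd e d ∣ d := Nat.gcd_dvd_right e d
      exact ((hn.2.of_dvd h2).dvd_iff dvd_rfl).1 h1
    rw [h1]
    simp

private theorem LamC_ramS (c n : ℕ) (hc : c ≠ 0) : Pool.Agent.H91.EHA.ramS c n =
    ∑ e ∈ c.divisors, if e ∣ n then (e : ℝ) * (ArithmeticFunction.moebius (c / e) : ℝ) else 0 := by
  rw [← sum_filter]
  unfold Pool.Agent.H91.EHA.ramS
  apply sum_congr _ (fun _ _ => rfl)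
  ext d
  simp only [mem_filter, Nat.mem_divisors, Nat.dvd_gcd_iff, ne_eq, Nat.gcd_eq_zero_iff]
  constructor
  · rintro ⟨⟨h, h'⟩, _⟩
    exact ⟨⟨h, hc⟩, h'⟩
  · rintro ⟨⟨h, _⟩, h'⟩
    exact ⟨⟨h, h'⟩, fun h => hc h.1⟩

private theorem LamC_swap (y d u c : ℕ) (hc : c ≠ 0) :
    ∑ n ∈ (Icc 1 y).filter (fun n => n ≡ u [MOD d]), Pool.Agent.H91.EHA.ramS c n
      = ∑ e ∈ c.divisors, (e : ℝ) * (ArithmeticFunction.moebius (c / e) : ℝ) * (LamC_N y d u e : ℝ) := by
  rw [sum_congr rfl (fun n _ => LamC_ramS c n hc), sum_comm]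
  apply sum_congr rfl
  intro d _
  rw [← sum_filter, sum_const, nsmul_eq_mul]
  unfold LamC_N
  ring

/-- the main term of one `c` -/
private noncomputable def LamC_G (d u : ℕ) : ArithmeticFunction ℝ :=
  LamC_g d u * (ArithmeticFunction.moebius : ArithmeticFunction ℝ)

private theorem LamC_G_mult (d u : ℕ) : (LamC_G d u).IsMultiplicative :=
  (LamC_g_mult d u).mul ArithmeticFunction.isMultiplicative_moebius.intCast

private theorem LamC_G_apply (d u c : ℕ) : LamC_G d u c =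
    ∑ e ∈ c.divisors, LamC_g d u e * (ArithmeticFunction.moebius (c / e) : ℝ) := by
  unfold LamC_G
  rw [ArithmeticFunction.mul_apply]
  rw [Nat.sum_divisorsAntidiagonal (f := fun a b : ℕ =>
    LamC_g d u a * (ArithmeticFunction.moebius : ArithmeticFunction ℝ) b)]
  rfl

/-- One `c`. -/
private theorem LamC_term (R y d u c : ℕ) (hd : 1 ≤ d) (hc : c ∈ Icc 1 R) :
    |(ArithmeticFunction.moebius c : ℝ) / (c.totient : ℝ) *
        ∑ n ∈ (Icc 1 y).filter (fun n => n ≡ u [MOD d]), Pool.Agent.H91.EHA.ramS c n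
      - (y : ℝ) / d * ((ArithmeticFunction.moebius c : ℝ) / (c.totient : ℝ) * LamC_G d u c)|
      ≤ (R : ℝ) ^ 2 := by
  have hc1 : 1 ≤ c := (mem_Icc.1 hc).1
  have hcR : c ≤ R := (mem_Icc.1 hc).2
  have hc0 : c ≠ 0 := by omega
  have hmain : (y : ℝ) / d * ((ArithmeticFunction.moebius c : ℝ) / (c.totient : ℝ) * LamC_G d u c)
      = (ArithmeticFunction.moebius c : ℝ) / (c.totient : ℝ) *
        ∑ e ∈ c.divisors, (e : ℝ) * (ArithmeticFunction.moebius (c / e) : ℝ) *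
          ((y : ℝ) / d * (LamC_g d u e / e)) := by
    rw [LamC_G_apply, mul_left_comm, mul_sum]
    congr 1
    apply sum_congr rfl
    intro e he
    have he0 : (e : ℝ) ≠ 0 := by
      have := Nat.pos_of_mem_divisors he
      positivity
    field_simp
  rw [hmain, LamC_swap y d u c hc0, ← mul_sub, ← sum_sub_distrib, abs_mul]
  have hφ : (1 : ℝ) ≤ (c.totient : ℝ) := by
    exact_mod_cast Nat.totient_pos.2 hc1
  have hμ : |(ArithmeticFunction.moebius c : ℝ) / (c.totient : ℝ)| ≤ 1 := by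
    rw [abs_div, abs_of_nonneg (by positivity : (0 : ℝ) ≤ (c.totient : ℝ))]
    rw [div_le_one (by positivity)]
    have : |(ArithmeticFunction.moebius c : ℝ)| ≤ 1 := by
      exact_mod_cast ArithmeticFunction.abs_moebius_le_one
    linarith
  have hsum : |∑ e ∈ c.divisors, ((e : ℝ) * (ArithmeticFunction.moebius (c / e) : ℝ) * (LamC_N y d u e : ℝ)
      - (e : ℝ) * (ArithmeticFunction.moebius (c / e) : ℝ) *
          ((y : ℝ) / d * (LamC_g d u e / e)))| ≤ (R : ℝ) ^ 2 := by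
    refine (abs_sum_le_sum_abs _ _).trans ?_
    have hb : ∀ e ∈ c.divisors, |(e : ℝ) * (ArithmeticFunction.moebius (c / e) : ℝ) * (LamC_N y d u e : ℝ)
      - (e : ℝ) * (ArithmeticFunction.moebius (c / e) : ℝ) *
          ((y : ℝ) / d * (LamC_g d u e / e))| ≤ (R : ℝ) := by
      intro e he
      have he1 : 1 ≤ e := Nat.pos_of_mem_divisors he
      have hec : e ≤ c := Nat.divisor_le he
      rw [← mul_sub, abs_mul, abs_mul]
      have hμd : |(ArithmeticFunction.moebius (c / e) : ℝ)| ≤ 1 := by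
        exact_mod_cast ArithmeticFunction.abs_moebius_le_one
      have hN := LamC_N_bound y d u e hd he1
      have hdR : |(e : ℝ)| ≤ (R : ℝ) := by
        rw [abs_of_nonneg (by positivity)]
        exact_mod_cast hec.trans hcR
      calc |(e : ℝ)| * |(ArithmeticFunction.moebius (c / e) : ℝ)| * _
          ≤ (R : ℝ) * 1 * 1 := by
            apply mul_le_mul _ hN (abs_nonneg _) (by positivity)
            exact mul_le_mul hdR hμd (abs_nonneg _) (by positivity)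
        _ = (R : ℝ) := by ring
    refine (sum_le_card_nsmul _ _ _ hb).trans ?_
    rw [nsmul_eq_mul, pow_two]
    apply mul_le_mul_of_nonneg_right _ (by positivity)
    have : c.divisors.card ≤ c := Nat.card_divisors_le_self c
    exact_mod_cast this.trans hcR
  calc _ ≤ 1 * (R : ℝ) ^ 2 := mul_le_mul hμ hsum (abs_nonneg _) zero_le_one
    _ = _ := one_mul _

private theorem LamC_G_dvd (d u c : ℕ) (hcd : c ∣ d) : LamC_G d u c = LamC_G 0 u c := by
  rw [LamC_G_apply, LamC_G_apply]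
  apply sum_congr rfl
  intro e he
  have he0 : e ≠ 0 := (Nat.pos_of_mem_divisors he).ne'
  have h1 : Nat.gcd e d = e := Nat.gcd_eq_left ((Nat.dvd_of_mem_divisors he).trans hcd)
  rw [LamC_g_apply _ _ _ he0, LamC_g_apply _ _ _ he0, h1, Nat.gcd_zero_right]

private theorem LamC_G_prime (d u p : ℕ) (hp : p.Prime) :
    LamC_G d u p = (if Nat.gcd p d ∣ u then (Nat.gcd p d : ℝ) else 0) - 1 := by
  rw [LamC_G_apply, hp.divisors, Finset.sum_pair hp.one_lt.ne, LamC_g_apply _ _ _ one_ne_zero,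
    LamC_g_apply _ _ _ hp.ne_zero, Nat.div_one, Nat.div_self hp.pos,
    ArithmeticFunction.moebius_apply_prime hp]
  simp
  ring

private theorem LamC_G_not_dvd (d u c : ℕ) (hc : Squarefree c) (hcd : ¬ c ∣ d) :
    LamC_G d u c = 0 := by
  have hc0 : c ≠ 0 := hc.ne_zero
  obtain ⟨p, hp, hpc, hpd⟩ : ∃ p, p.Prime ∧ p ∣ c ∧ ¬ p ∣ d := by
    by_contra hcon
    push Not at hcon
    apply hcd
    rw [← Nat.prod_primeFactors_of_squarefree hc]
    apply Finset.prod_primes_dvd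
    · intro p hp
      exact (Nat.prime_of_mem_primeFactors hp).prime
    · intro p hp
      exact hcon p (Nat.prime_of_mem_primeFactors hp) (Nat.dvd_of_mem_primeFactors hp)
  obtain ⟨e, rfl⟩ := hpc
  have hcop : Nat.Coprime p e := Nat.coprime_of_squarefree_mul hc
  rw [(LamC_G_mult d u).map_mul_of_coprime hcop, LamC_G_prime d u p hp]
  have h1 : Nat.gcd p d = 1 := (Nat.Prime.coprime_iff_not_dvd hp).2 hpd
  rw [h1]
  simp

private noncomputable def LamC_F (u : ℕ) : ArithmeticFunction ℝ :=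
  ⟨fun c => (ArithmeticFunction.moebius c : ℝ) / (c.totient : ℝ) * LamC_G 0 u c, by simp⟩

private theorem LamC_F_apply (u c : ℕ) :
    LamC_F u c = (ArithmeticFunction.moebius c : ℝ) / (c.totient : ℝ) * LamC_G 0 u c := rfl

private theorem LamC_F_mult (u : ℕ) : (LamC_F u).IsMultiplicative := by
  rw [ArithmeticFunction.IsMultiplicative.iff_ne_zero]
  refine ⟨?_, fun {m n} hm hn hmn => ?_⟩
  · rw [LamC_F_apply, (LamC_G_mult 0 u).map_one]
    simp
  · rw [LamC_F_apply, LamC_F_apply, LamC_F_apply, (LamC_G_mult 0 u).map_mul_of_coprime hmn,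
      ArithmeticFunction.isMultiplicative_moebius.map_mul_of_coprime hmn, Nat.totient_mul hmn]
    push_cast
    rw [mul_div_mul_comm]
    ring

private noncomputable def LamC_T (u : ℕ) : ArithmeticFunction ℝ :=
  ⟨fun d => if d = 0 then 0 else if Nat.Coprime u d then (d : ℝ) / (d.totient : ℝ) else 0, by simp⟩

private theorem LamC_T_apply (u d : ℕ) (hd : d ≠ 0) :
    LamC_T u d = if Nat.Coprime u d then (d : ℝ) / (d.totient : ℝ) else 0 := by
  simp [LamC_T, hd]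

private theorem LamC_T_mult (u : ℕ) : (LamC_T u).IsMultiplicative := by
  rw [ArithmeticFunction.IsMultiplicative.iff_ne_zero]
  refine ⟨?_, fun {m n} hm hn hmn => ?_⟩
  · rw [LamC_T_apply _ _ one_ne_zero]
    simp
  · rw [LamC_T_apply _ _ hm, LamC_T_apply _ _ hn, LamC_T_apply _ _ (mul_ne_zero hm hn),
      Nat.totient_mul hmn]
    by_cases a : Nat.Coprime u m
    · by_cases b : Nat.Coprime u n
      · rw [if_pos a, if_pos b, if_pos (Nat.Coprime.mul_right a b)]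
        push_cast
        rw [mul_div_mul_comm]
      · rw [if_neg b, if_neg (fun h => b (Nat.Coprime.coprime_dvd_right (Dvd.intro_left _ rfl) h)),
          mul_zero]
    · rw [if_neg a, if_neg (fun h => a (Nat.Coprime.coprime_dvd_right (Dvd.intro _ rfl) h)), zero_mul]

private theorem LamC_FT (u : ℕ) :
    LamC_F u * (ArithmeticFunction.zeta : ArithmeticFunction ℝ) = LamC_T u := by
  rw [((LamC_F_mult u).mul ArithmeticFunction.isMultiplicative_zeta.natCast).eq_iff_eq_on_prime_powers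
    _ _ (LamC_T_mult u)]
  intro p i hp
  rw [ArithmeticFunction.coe_mul_zeta_apply, Nat.sum_divisors_prime_pow hp,
    LamC_T_apply _ _ (pow_ne_zero i hp.ne_zero)]
  have hF1 : LamC_F u 1 = 1 := (LamC_F_mult u).map_one
  rcases Nat.eq_zero_or_pos i with hi | hi
  · subst hi
    simp [hF1]
  · obtain ⟨j, rfl⟩ : ∃ j, i = j + 1 := ⟨i - 1, by omega⟩
    rw [sum_range_succ', pow_zero, hF1, sum_range_succ', zero_add, pow_one]
    have h0 : ∑ k ∈ range j, LamC_F u (p ^ (k + 1 + 1)) = 0 := by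
      apply sum_eq_zero
      intro k _
      rw [LamC_F_apply, ArithmeticFunction.moebius_apply_prime_pow hp (by omega), if_neg (by omega)]
      simp
    rw [h0, zero_add, LamC_F_apply, ArithmeticFunction.moebius_apply_prime hp, Nat.totient_prime hp,
      LamC_G_prime 0 u p hp, Nat.gcd_zero_right, Nat.totient_prime_pow_succ hp]
    have hp1 : (1 : ℝ) < p := by exact_mod_cast hp.one_lt
    have hpc : ((p - 1 : ℕ) : ℝ) = (p : ℝ) - 1 := by
      rw [Nat.cast_sub hp.one_lt.le, Nat.cast_one]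
    have hp1' : (p : ℝ) - 1 ≠ 0 := by linarith
    have hcop : Nat.Coprime u (p ^ (j + 1)) ↔ ¬ p ∣ u := by
      rw [Nat.coprime_pow_right_iff (by omega), Nat.coprime_comm, Nat.Prime.coprime_iff_not_dvd hp]
    by_cases h : p ∣ u
    · rw [if_pos h, if_neg (fun h' => (hcop.1 h') h), hpc]
      push_cast
      field_simp
      ring
    · rw [if_neg h, if_pos (hcop.2 h)]
      push_cast
      rw [hpc, pow_succ]
      have hpj : (p : ℝ) ^ j ≠ 0 := by positivity
      field_simp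
      ring

private theorem LamC_main (R d u : ℕ) (hd : 1 ≤ d) (hdR : d ≤ R) :
    ∑ c ∈ Icc 1 R, (ArithmeticFunction.moebius c : ℝ) / (c.totient : ℝ) * LamC_G d u c =
      if Nat.Coprime u d then (d : ℝ) / (d.totient : ℝ) else 0 := by
  rw [← LamC_T_apply u d (by omega), ← LamC_FT u, ArithmeticFunction.coe_mul_zeta_apply]
  have hsub : d.divisors ⊆ Icc 1 R := by
    intro c hc
    rw [mem_Icc]
    exact ⟨Nat.pos_of_mem_divisors hc, (Nat.divisor_le hc).trans hdR⟩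
  rw [← sum_subset hsub]
  · apply sum_congr rfl
    intro c hc
    rw [LamC_F_apply, LamC_G_dvd d u c (Nat.dvd_of_mem_divisors hc)]
  · intro c hc1 hc2
    by_cases hsq : Squarefree c
    · rw [LamC_G_not_dvd d u c hsq, mul_zero]
      intro h
      exact hc2 (Nat.mem_divisors.2 ⟨h, by omega⟩)
    · rw [ArithmeticFunction.moebius_eq_zero_of_not_squarefree hsq]
      simp

theorem lamC (R d u y : ℕ) (hd : 1 ≤ d) (hdR : d ≤ R) :
    |(∑ n ∈ (Icc 1 y).filter (fun n => n ≡ u [MOD d]), lamR R n)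
      - (if Nat.Coprime u d then (y : ℝ) / (d.totient : ℝ) else 0)| ≤ (R : ℝ) ^ 3 := by
  have h1 : (∑ n ∈ (Icc 1 y).filter (fun n => n ≡ u [MOD d]), lamR R n)
      = ∑ c ∈ Icc 1 R, (ArithmeticFunction.moebius c : ℝ) / (c.totient : ℝ) *
        ∑ n ∈ (Icc 1 y).filter (fun n => n ≡ u [MOD d]), Pool.Agent.H91.EHA.ramS c n := by
    unfold lamR
    rw [sum_comm]
    apply sum_congr rfl
    intro c _
    rw [mul_sum]
  have h2 : (if Nat.Coprime u d then (y : ℝ) / (d.totient : ℝ) else 0) =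
      ∑ c ∈ Icc 1 R, (y : ℝ) / d *
        ((ArithmeticFunction.moebius c : ℝ) / (c.totient : ℝ) * LamC_G d u c) := by
    rw [← mul_sum, LamC_main R d u hd hdR]
    have hd0 : (0 : ℝ) < d := by exact_mod_cast hd
    split_ifs
    · field_simp
    · simp
  rw [h1, h2, ← sum_sub_distrib]
  refine (abs_sum_le_sum_abs _ _).trans ?_
  refine (sum_le_card_nsmul _ _ _ (fun c hc => LamC_term R y d u c hd hc)).trans ?_
  rw [nsmul_eq_mul, Nat.card_Icc]
  apply le_of_eq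
  simp only [Nat.add_sub_cancel]
  ring

/-- the same for windows (difference of two values of `y`) -/
theorem lamC_win (R d u w H : ℕ) (hd : 1 ≤ d) (hdR : d ≤ R) :
    |(∑ n ∈ (Ioc w (w + H)).filter (fun n => n ≡ u [MOD d]), lamR R n)
      - (if Nat.Coprime u d then (H : ℝ) / (d.totient : ℝ) else 0)| ≤ 2 * (R : ℝ) ^ 3 := by
  have h1 := lamC R d u (w + H) hd hdR
  have h2 := lamC R d u w hd hdR
  have h3 : (∑ n ∈ (Icc 1 (w + H)).filter (fun n => n ≡ u [MOD d]), lamR R n) =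
      (∑ n ∈ (Icc 1 w).filter (fun n => n ≡ u [MOD d]), lamR R n) +
        ∑ n ∈ (Ioc w (w + H)).filter (fun n => n ≡ u [MOD d]), lamR R n := by
    rw [← sum_union]
    · rw [← filter_union]
      congr 2
      ext n
      simp only [mem_Icc, mem_union, mem_Ioc]
      omega
    · rw [disjoint_left]
      intro n hn hn'
      rw [mem_filter, mem_Icc] at hn
      rw [mem_filter, mem_Ioc] at hn'
      omega
  have h4 : (if Nat.Coprime u d then ((w + H : ℕ) : ℝ) / (d.totient : ℝ) else 0) =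
      (if Nat.Coprime u d then (w : ℝ) / (d.totient : ℝ) else 0) +
        (if Nat.Coprime u d then (H : ℝ) / (d.totient : ℝ) else 0) := by
    split_ifs
    · push_cast
      ring
    · simp
  rw [h3, h4] at h1
  rw [abs_le] at h1 h2 ⊢
  constructor <;> linarith [h1.1, h1.2, h2.1, h2.2]

end Pool.Agent.H91.L1

end

section

/-!
# PSI Dpm: multiplicativity of the Dirichlet polynomials and of the twist

`ee (t log (m n)) = ee (t log m) ee (t log n)`, `(f * g)(n) = ∑_{ab = n} f(a) g(b)`; a pair `(a, b)` with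
`f a ≠ 0`, `g b ≠ 0` has `1 ≤ a ≤ N`, `1 ≤ b ≤ M`.
-/

set_option autoImplicit false

namespace Pool.Agent.H88.PSI

open Finset

private theorem Dpm_ee_add (x y : ℝ) : Pool.Agent.H91.PK.ee (x + y) = Pool.Agent.H91.PK.ee x * Pool.Agent.H91.PK.ee y := by
  unfold Pool.Agent.H91.PK.ee
  rw [← Complex.exp_add]
  congr 1
  push_cast
  ring

private theorem Dpm_norm_ee (x : ℝ) : ‖Pool.Agent.H91.PK.ee x‖ = 1 := by
  unfold Pool.Agent.H91.PK.ee
  have h1 : 2 * (Real.pi : ℂ) * (x : ℂ) * Complex.I = ((2 * Real.pi * x : ℝ) : ℂ) * Complex.I := by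
    push_cast
    ring
  rw [h1, Complex.norm_exp_ofReal_mul_I]

private theorem Dpm_supp {f g : ArithmeticFunction ℂ} {N M : ℕ} (hf : ∀ n, f n ≠ 0 → n ≤ N)
    (hg : ∀ n, g n ≠ 0 → n ≤ M) (n : ℕ) (h : (f * g) n ≠ 0) : n ≤ N * M := by
  rw [ArithmeticFunction.mul_apply] at h
  obtain ⟨p, hp, hne⟩ := Finset.exists_ne_zero_of_sum_ne_zero h
  rw [Nat.mem_divisorsAntidiagonal] at hp
  rw [← hp.1]
  exact Nat.mul_le_mul (hf _ (left_ne_zero_of_mul hne)) (hg _ (right_ne_zero_of_mul hne))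

theorem dp_mul (f g : ArithmeticFunction ℂ) (N M : ℕ) (hf : ∀ n, f n ≠ 0 → n ≤ N)
    (hg : ∀ n, g n ≠ 0 → n ≤ M) (t : ℝ) :
    DP (⇑(f * g)) (N * M) t = DP f N t * DP g M t := by
  classical
  unfold DP
  rw [Finset.sum_mul_sum, ← Finset.sum_product']
  rw [← Finset.sum_fiberwise_of_maps_to (s := Icc 1 N ×ˢ Icc 1 M) (t := Icc 1 (N * M))
    (g := fun p => p.1 * p.2)]
  · refine Finset.sum_congr rfl fun n hn => ?_
    rw [Finset.mem_Icc] at hn
    rw [ArithmeticFunction.mul_apply, Finset.sum_mul]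
    symm
    refine (Finset.sum_subset (fun p hp => ?_) fun p hp hp' => ?_).trans
      (Finset.sum_congr rfl fun p hp => ?_)
    · rw [Finset.mem_filter, Finset.mem_product, Finset.mem_Icc, Finset.mem_Icc] at hp
      rw [Nat.mem_divisorsAntidiagonal]
      exact ⟨hp.2, by omega⟩
    · rw [Nat.mem_divisorsAntidiagonal] at hp
      rw [Finset.mem_filter, Finset.mem_product, Finset.mem_Icc, Finset.mem_Icc] at hp'
      have h1 : 1 ≤ p.1 := by
        rcases Nat.eq_zero_or_pos p.1 with h | h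
        · rw [h, zero_mul] at hp
          omega
        · exact h
      have h2 : 1 ≤ p.2 := by
        rcases Nat.eq_zero_or_pos p.2 with h | h
        · rw [h, mul_zero] at hp
          omega
        · exact h
      by_cases h3 : f p.1 = 0
      · rw [h3]
        ring
      · by_cases h4 : g p.2 = 0
        · rw [h4]
          ring
        · exact absurd ⟨⟨⟨h1, hf _ h3⟩, ⟨h2, hg _ h4⟩⟩, hp.1⟩ hp'
    · rw [Nat.mem_divisorsAntidiagonal] at hp
      have h1 : p.1 ≠ 0 := by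
        intro h
        rw [h, zero_mul] at hp
        omega
      have h2 : p.2 ≠ 0 := by
        intro h
        rw [h, mul_zero] at hp
        omega
      rw [← hp.1, Nat.cast_mul, Real.log_mul (by exact_mod_cast h1) (by exact_mod_cast h2),
        mul_add, Dpm_ee_add]
      ring
  · intro p hp
    rw [Finset.mem_product, Finset.mem_Icc, Finset.mem_Icc] at hp
    rw [Finset.mem_Icc]
    exact ⟨Nat.mul_pos hp.1.1 hp.2.1, Nat.mul_le_mul hp.1.2 hp.2.2⟩

private theorem Dpm_one (t : ℝ) : DP (⇑(1 : ArithmeticFunction ℂ)) 1 t = 1 := by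
  unfold DP
  have h1 : Pool.Agent.H91.PK.ee 0 = 1 := by
    unfold Pool.Agent.H91.PK.ee
    simp
  simp [h1]

private theorem Dpm_pow_supp (f : ArithmeticFunction ℂ) (N k : ℕ) (hf : ∀ n, f n ≠ 0 → n ≤ N) :
    ∀ n, (f ^ k) n ≠ 0 → n ≤ N ^ k := by
  induction k with
  | zero =>
    intro n hn
    rw [pow_zero] at hn ⊢
    by_contra hcon
    exact hn (ArithmeticFunction.one_apply_ne (by omega))
  | succ k ih =>
    intro n hn
    rw [pow_succ] at hn ⊢
    exact Dpm_supp ih hf n hn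

theorem dp_pow (f : ArithmeticFunction ℂ) (N k : ℕ) (hf : ∀ n, f n ≠ 0 → n ≤ N) (t : ℝ) :
    DP (⇑(f ^ k)) (N ^ k) t = DP f N t ^ k := by
  induction k with
  | zero => simpa using Dpm_one t
  | succ k ih =>
    rw [pow_succ, pow_succ, dp_mul _ _ _ _ (Dpm_pow_supp f N k hf) hf, ih, pow_succ]

private theorem Dpm_prod_supp {ι : Type*} [DecidableEq ι] (s : Finset ι)
    (f : ι → ArithmeticFunction ℂ) (N : ι → ℕ) (hf : ∀ i ∈ s, ∀ n, f i n ≠ 0 → n ≤ N i) :
    ∀ n, (∏ i ∈ s, f i) n ≠ 0 → n ≤ ∏ i ∈ s, N i := by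
  induction s using Finset.induction_on with
  | empty =>
    intro n hn
    rw [Finset.prod_empty] at hn ⊢
    by_contra hcon
    exact hn (ArithmeticFunction.one_apply_ne (by omega))
  | insert a s ha ih =>
    intro n hn
    rw [Finset.prod_insert ha] at hn ⊢
    exact Dpm_supp (hf a (Finset.mem_insert_self a s))
      (ih fun i hi => hf i (Finset.mem_insert_of_mem hi)) n hn

theorem dp_prod {ι : Type*} [DecidableEq ι] (s : Finset ι) (f : ι → ArithmeticFunction ℂ) (N : ι → ℕ)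
    (hf : ∀ i ∈ s, ∀ n, f i n ≠ 0 → n ≤ N i) (t : ℝ) :
    DP (⇑(∏ i ∈ s, f i)) (∏ i ∈ s, N i) t = ∏ i ∈ s, DP (f i) (N i) t := by
  induction s using Finset.induction_on with
  | empty => simpa using Dpm_one t
  | insert a s ha ih =>
    have h1 : ∀ i ∈ s, ∀ n, f i n ≠ 0 → n ≤ N i := fun i hi => hf i (Finset.mem_insert_of_mem hi)
    rw [Finset.prod_insert ha, Finset.prod_insert ha, Finset.prod_insert ha,
      dp_mul _ _ _ _ (hf a (Finset.mem_insert_self a s)) (Dpm_prod_supp s f N h1), ih h1]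

theorem dp_cont (f : ℕ → ℂ) (N : ℕ) : Continuous (DP f N) := by
  have h1 : DP f N = fun t => ∑ n ∈ Icc 1 N, f n * Pool.Agent.H91.PK.ee (t * Real.log n) := rfl
  rw [h1]
  refine continuous_finsetSum _ fun n _ => continuous_const.mul ?_
  unfold Pool.Agent.H91.PK.ee
  fun_prop

theorem dp_norm_le (f : ℕ → ℂ) (N : ℕ) (t : ℝ) : ‖DP f N t‖ ≤ ∑ n ∈ Icc 1 N, ‖f n‖ := by
  unfold DP
  refine (norm_sum_le _ _).trans (Finset.sum_le_sum fun n _ => ?_)
  rw [norm_mul, Dpm_norm_ee, mul_one]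

theorem tw_mul {d : ℕ} (χ : DirichletCharacter ℂ d) (f g : ArithmeticFunction ℝ) :
    tw χ (f * g) = tw χ f * tw χ g := by
  ext n
  rw [ArithmeticFunction.mul_apply]
  have h1 : tw χ (f * g) n = (((f * g) n : ℝ) : ℂ) * χ (n : ZMod d) := rfl
  rw [h1, ArithmeticFunction.mul_apply]
  push_cast
  rw [Finset.sum_mul]
  refine Finset.sum_congr rfl fun p hp => ?_
  rw [Nat.mem_divisorsAntidiagonal] at hp
  have h2 : tw χ f p.1 = ((f p.1 : ℝ) : ℂ) * χ (p.1 : ZMod d) := rfl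
  have h3 : tw χ g p.2 = ((g p.2 : ℝ) : ℂ) * χ (p.2 : ZMod d) := rfl
  rw [h2, h3, ← hp.1, Nat.cast_mul, map_mul]
  ring

theorem tw_prod {d : ℕ} (χ : DirichletCharacter ℂ d) {ι : Type*} [DecidableEq ι] (s : Finset ι)
    (f : ι → ArithmeticFunction ℝ) (hd : d ≠ 0) : tw χ (∏ i ∈ s, f i) = ∏ i ∈ s, tw χ (f i) := by
  induction s using Finset.induction_on with
  | empty =>
    rw [Finset.prod_empty, Finset.prod_empty]
    ext n
    have h1 : tw χ 1 n = ((((1 : ArithmeticFunction ℝ) n : ℝ)) : ℂ) * χ (n : ZMod d) := rfl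
    rw [h1]
    by_cases h2 : n = 1
    · subst h2
      simp
    · rw [ArithmeticFunction.one_apply_ne h2, ArithmeticFunction.one_apply_ne h2]
      simp
  | insert a s ha ih => rw [Finset.prod_insert ha, Finset.prod_insert ha, tw_mul, ih]

end Pool.Agent.H88.PSI

end

section

/-!
# PROJECT SP, Part II (large values): common definitions

`L = log x`, `ee(t) = exp(2 π i t)` (`Pool.Agent.H91.PK.ee`; `LSa_ee_add`, `LSa_norm_ee`, `LSa_conj_ee` in
`H91/PK/LSa.lean`).  `gE α t n = e(n α) n^{2 π i t}`.  `VK` is the statement of Part I (helper97,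
`vk_class`).
-/

set_option autoImplicit false

namespace Pool.Agent.H80.LV

open Finset

/-- logarithms are smaller than powers -/
theorem log_pow_le (s C : ℝ) (hs : 0 < s) (hC : 0 < C) (c : ℕ) :
    ∃ x0 : ℕ, ∀ x : ℕ, x0 ≤ x → C * Real.log x ^ c ≤ (x : ℝ) ^ s := by
  have h1 := (isLittleO_log_rpow_rpow_atTop (c : ℝ) hs).bound (c := 1 / C) (by positivity)
  have h2 := h1.and (Filter.eventually_ge_atTop (1 : ℝ))
  have h3 := tendsto_natCast_atTop_atTop (R := ℝ) |>.eventually h2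
  obtain ⟨x0, hx0⟩ := Filter.eventually_atTop.1 h3
  refine ⟨x0, fun x hx => ?_⟩
  obtain ⟨h4, h5⟩ := hx0 x hx
  have hl : 0 ≤ Real.log x := Real.log_nonneg h5
  have hp : (0 : ℝ) ≤ (x : ℝ) ^ s := Real.rpow_nonneg (by positivity) _
  rw [Real.rpow_natCast, Real.norm_eq_abs, Real.norm_eq_abs, abs_of_nonneg (by positivity),
    abs_of_nonneg hp] at h4
  rw [div_mul_eq_mul_div, one_mul, le_div_iff₀ hC] at h4
  linarith

/-- logarithms are large -/
theorem log_ge (C : ℝ) : ∃ x0 : ℕ, ∀ x : ℕ, x0 ≤ x → C ≤ Real.log x := by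
  have h := (Real.tendsto_log_atTop.comp (tendsto_natCast_atTop_atTop (R := ℝ))).eventually
    (Filter.eventually_ge_atTop C)
  exact Filter.eventually_atTop.1 h

/-- powers are large -/
theorem pow_ge (s C : ℝ) (hs : 0 < s) : ∃ x0 : ℕ, ∀ x : ℕ, x0 ≤ x → C ≤ (x : ℝ) ^ s := by
  have h := ((tendsto_rpow_atTop hs).comp (tendsto_natCast_atTop_atTop (R := ℝ))).eventually
    (Filter.eventually_ge_atTop C)
  exact Filter.eventually_atTop.1 h

end Pool.Agent.H80.LV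

end

section

/-!
# PSI Cov: if the product is large, some factor is large

Otherwise every `i` has `v i ≤ 2 L X^(κ/24) (N i)^(s-κ)` (if `N i < X^(κ/24)` by `v i ≤ 2 L N i` and `(N i)^(s-κ) ≥ 1`; if not by `v i < (N i)^(s-κ)`), so
`∏ v i ≤ (2 L)^6 X^(κ/4) (3 X)^(s-κ) ≤ 9 (2 L)^6 X^(s-3κ/4) ≤ X^(s-κ/4)` (`r ≤ 6`; factors `2 L X^(κ/24) ≥ 1`), a contradiction.
-/

set_option autoImplicit false

namespace Pool.Agent.H88.PSI

open Finset

private theorem Cov_large {κ : ℝ} (hκ : 0 < κ) : ∃ X0 : ℕ, ∀ X : ℕ, X0 ≤ X →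
    3 * (2 * Real.log X) ^ 6 ≤ (X : ℝ) ^ (κ / 2) := by
  have h1 := (isLittleO_log_rpow_rpow_atTop (6 : ℝ) (by positivity : 0 < κ / 2)).bound
    (by norm_num : (0 : ℝ) < 1 / 192)
  have h2 : ∀ᶠ X : ℕ in Filter.atTop, ‖Real.log (X : ℝ) ^ (6 : ℝ)‖ ≤
      1 / 192 * ‖(X : ℝ) ^ (κ / 2)‖ := tendsto_natCast_atTop_atTop.eventually h1
  obtain ⟨X0, hX0⟩ := Filter.eventually_atTop.mp (h2.and (Filter.eventually_ge_atTop 1))
  refine ⟨X0, fun X hX => ?_⟩
  obtain ⟨h3, h4⟩ := hX0 X hX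
  have h5 : (0 : ℝ) ≤ (X : ℝ) ^ (κ / 2) := Real.rpow_nonneg (Nat.cast_nonneg _) _
  rw [Real.norm_of_nonneg h5] at h3
  have h6 : Real.log (X : ℝ) ^ (6 : ℝ) = Real.log (X : ℝ) ^ 6 := by
    rw [← Real.rpow_natCast]
    norm_num
  rw [h6] at h3
  have h7 := (le_abs_self _).trans h3
  have h8 : 3 * (2 * Real.log (X : ℝ)) ^ 6 = 192 * Real.log (X : ℝ) ^ 6 := by ring
  rw [h8]
  linarith

theorem cov (κ : ℝ) (hκ : 0 < κ) (hκ' : κ ≤ 1 / 4) : ∃ X0 : ℕ, ∀ X : ℕ, X0 ≤ X →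
    ∀ (r : ℕ) (N : Fin r → ℕ) (v : Fin r → ℝ) (s : ℝ), r ≤ 6 → (∀ i, 1 ≤ N i) →
    ∏ i, N i ≤ 3 * X → (∀ i, 0 ≤ v i) → (∀ i, v i ≤ 2 * Real.log X * N i) → 1 / 2 ≤ s →
    s ≤ 1 + κ → (X : ℝ) ^ (s - κ / 4) < ∏ i, v i →
    ∃ i, (X : ℝ) ^ (κ / 24) ≤ N i ∧ (N i : ℝ) ^ (s - κ) ≤ v i := by
  obtain ⟨X0, hX0⟩ := Cov_large hκ
  refine ⟨max X0 2, fun X hX r N v s hr hN hprod hv0 hv hs hs' hbig => ?_⟩
  have hlarge := hX0 X ((le_max_left _ _).trans hX)
  have hX2 : 2 ≤ X := (le_max_right _ _).trans hX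
  have hXr : (2 : ℝ) ≤ X := by exact_mod_cast hX2
  have hX0' : (0 : ℝ) < X := by linarith
  have hL : 1 ≤ 2 * Real.log X := by
    have h1 : Real.log 2 ≤ Real.log X := Real.log_le_log (by norm_num) hXr
    have h2 := Real.log_two_gt_d9
    linarith
  have he : 0 ≤ s - κ := by linarith
  have hXk : 1 ≤ (X : ℝ) ^ (κ / 24) := Real.one_le_rpow (by linarith) (by positivity)
  by_contra hcon
  push Not at hcon
  obtain ⟨B, hB⟩ : ∃ B, B = 2 * Real.log X * (X : ℝ) ^ (κ / 24) := ⟨_, rfl⟩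
  have hB1 : 1 ≤ B := by
    rw [hB]
    exact one_le_mul_of_one_le_of_one_le hL hXk
  have hNe : ∀ i, 1 ≤ (N i : ℝ) ^ (s - κ) := fun i =>
    Real.one_le_rpow (by exact_mod_cast hN i) he
  have key : ∀ i, v i ≤ B * (N i : ℝ) ^ (s - κ) := by
    intro i
    rcases lt_or_ge (N i : ℝ) ((X : ℝ) ^ (κ / 24)) with h1 | h1
    · have h2 : v i ≤ B := by
        refine (hv i).trans ?_
        rw [hB]
        exact mul_le_mul_of_nonneg_left h1.le (by linarith)
      have h3 : B ≤ B * (N i : ℝ) ^ (s - κ) := le_mul_of_one_le_right (by linarith) (hNe i)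
      exact h2.trans h3
    · have h2 := (hcon i h1).le
      have h3 : (N i : ℝ) ^ (s - κ) ≤ B * (N i : ℝ) ^ (s - κ) :=
        le_mul_of_one_le_left (by linarith [hNe i]) hB1
      exact h2.trans h3
  have h1 : ∏ i, v i ≤ B ^ 6 * (3 * (X : ℝ)) ^ (s - κ) := by
    refine (Finset.prod_le_prod (fun i _ => hv0 i) fun i _ => key i).trans ?_
    rw [Finset.prod_mul_distrib, Finset.prod_const, Finset.card_univ, Fintype.card_fin]
    refine mul_le_mul (pow_le_pow_right₀ hB1 hr) ?_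
      (Finset.prod_nonneg fun i _ => by linarith [hNe i]) (by positivity)
    rw [Real.finsetProd_rpow _ _ fun i _ => Nat.cast_nonneg _]
    refine Real.rpow_le_rpow (Finset.prod_nonneg fun i _ => Nat.cast_nonneg _) ?_ he
    exact_mod_cast hprod
  have h2 : (3 * (X : ℝ)) ^ (s - κ) ≤ 3 * (X : ℝ) ^ (s - κ) := by
    rw [Real.mul_rpow (by norm_num) hX0'.le]
    refine mul_le_mul_of_nonneg_right ?_ (Real.rpow_nonneg hX0'.le _)
    calc (3 : ℝ) ^ (s - κ) ≤ (3 : ℝ) ^ (1 : ℝ) :=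
          Real.rpow_le_rpow_of_exponent_le (by norm_num) (by linarith)
      _ = 3 := Real.rpow_one 3
  have h3 : B ^ 6 = (2 * Real.log X) ^ 6 * (X : ℝ) ^ (κ / 4) := by
    rw [hB, mul_pow, ← Real.rpow_natCast ((X : ℝ) ^ (κ / 24)) 6, ← Real.rpow_mul hX0'.le]
    congr 2
    push_cast
    ring
  have h4 : B ^ 6 * (3 * (X : ℝ) ^ (s - κ)) ≤ (X : ℝ) ^ (s - κ / 4) := by
    have e1 : B ^ 6 * (3 * (X : ℝ) ^ (s - κ)) =
        3 * (2 * Real.log X) ^ 6 * ((X : ℝ) ^ (κ / 4) * (X : ℝ) ^ (s - κ)) := by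
      rw [h3]
      ring
    have e2 : (X : ℝ) ^ (s - κ / 4) = (X : ℝ) ^ (κ / 2) * ((X : ℝ) ^ (κ / 4) * (X : ℝ) ^ (s - κ)) := by
      rw [← Real.rpow_add hX0', ← Real.rpow_add hX0']
      congr 1
      ring
    rw [e1, e2]
    exact mul_le_mul_of_nonneg_right hlarge
      (mul_nonneg (Real.rpow_nonneg hX0'.le _) (Real.rpow_nonneg hX0'.le _))
  have h5 : B ^ 6 * (3 * (X : ℝ)) ^ (s - κ) ≤ B ^ 6 * (3 * (X : ℝ) ^ (s - κ)) :=
    mul_le_mul_of_nonneg_left h2 (by positivity)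
  linarith

end Pool.Agent.H88.PSI

end

section

/-!
# PSI Mvt: mean value theorem

From `Pool.Agent.H35.W.mean_v` (`Pool/Agent/H35/W/MeanV.lean`) with `a m = √m b m` and the substitution `t ↦ 2 π t`.
`tail_int`: dyadic pieces `2^j T ≤ |t| ≤ 2^(j+1) T` (or monotone convergence): `∑_j (2^j T)^(-2) (2^(j+2) T + 4 M (1+log M)) S`.
-/

set_option autoImplicit false

namespace Pool.Agent.H88.PSI

open Finset MeasureTheory

private theorem Mvt_pt (b : ℕ → ℂ) (M : ℕ) (t : ℝ) :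
    ∑ m ∈ Icc 1 M, (((Real.sqrt m : ℝ) : ℂ) * b m) *
      (m : ℂ) ^ (-(1 / 2 : ℂ) + ((2 * Real.pi * t : ℝ) : ℂ) * Complex.I) = DP b M t := by
  unfold DP
  refine Finset.sum_congr rfl fun m hm => ?_
  have hm' := Finset.mem_Icc.1 hm
  have hm0 : (m : ℂ) ≠ 0 := by exact_mod_cast (show m ≠ 0 by omega)
  have hmr : (0 : ℝ) < m := by exact_mod_cast (show 0 < m by omega)
  rw [Complex.cpow_add _ _ hm0]
  have e1 : (m : ℂ) ^ (-(1 / 2 : ℂ)) = (((m : ℝ) ^ (-(1 / 2) : ℝ) : ℝ) : ℂ) := by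
    rw [Complex.ofReal_cpow hmr.le]
    push_cast
    rfl
  have e2 : ((Real.sqrt m : ℝ) : ℂ) * (m : ℂ) ^ (-(1 / 2 : ℂ)) = 1 := by
    rw [e1, ← Complex.ofReal_mul, Real.sqrt_eq_rpow, ← Real.rpow_add hmr]
    norm_num
  have e3 : (m : ℂ) ^ (((2 * Real.pi * t : ℝ) : ℂ) * Complex.I) =
      Pool.Agent.H91.PK.ee (t * Real.log m) := by
    unfold Pool.Agent.H91.PK.ee
    rw [Complex.cpow_def_of_ne_zero hm0, ← Complex.natCast_log]
    congr 1
    push_cast
    ring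
  rw [e3]
  calc ((Real.sqrt m : ℝ) : ℂ) * b m * ((m : ℂ) ^ (-(1 / 2 : ℂ)) *
        Pool.Agent.H91.PK.ee (t * Real.log m)) =
        (((Real.sqrt m : ℝ) : ℂ) * (m : ℂ) ^ (-(1 / 2 : ℂ))) *
          (b m * Pool.Agent.H91.PK.ee (t * Real.log m)) := by ring
    _ = _ := by rw [e2, one_mul]

private theorem Mvt_SS_nonneg (b : ℕ → ℂ) (M : ℕ) : 0 ≤ SS b M :=
  Finset.sum_nonneg fun _ _ => sq_nonneg _

private theorem Mvt_log (M : ℕ) : 0 ≤ 1 + Real.log M := by
  have := Real.log_natCast_nonneg M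
  linarith

theorem mvt (b : ℕ → ℂ) (M : ℕ) (T : ℝ) (hM : 1 ≤ M) (hT : 0 ≤ T) :
    ∫ t in Set.Icc (-T) T, ‖DP b M t‖ ^ 2 ≤ (2 * T + 4 * M * (1 + Real.log M)) * SS b M := by
  have hpi := Real.pi_pos
  have h := Pool.Agent.H35.W.mean_v (fun m => ((Real.sqrt m : ℝ) : ℂ) * b m) M
    (2 * Real.pi * T) hM (by positivity)
  have e1 : ∑ m ∈ Icc 1 M, ‖(fun m : ℕ => ((Real.sqrt m : ℝ) : ℂ) * b m) m‖ ^ 2 / m = SS b M := by
    unfold SS
    refine Finset.sum_congr rfl fun m hm => ?_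
    have hm' := Finset.mem_Icc.1 hm
    have hmr : (0 : ℝ) < m := by exact_mod_cast (show 0 < m by omega)
    show ‖((Real.sqrt m : ℝ) : ℂ) * b m‖ ^ 2 / m = _
    rw [norm_mul, Complex.norm_real, Real.norm_of_nonneg (Real.sqrt_nonneg _), mul_pow,
      Real.sq_sqrt hmr.le]
    field_simp
  rw [e1] at h
  rw [integral_Icc_eq_integral_Ioc, ← intervalIntegral.integral_of_le (by linarith : -T ≤ T)]
  have e2 : ∫ t in (-T)..T, ‖DP b M t‖ ^ 2 = (2 * Real.pi)⁻¹ • ∫ u in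
      (2 * Real.pi * -T)..(2 * Real.pi * T), ‖∑ m ∈ Icc 1 M, (((Real.sqrt m : ℝ) : ℂ) * b m) *
      (m : ℂ) ^ (-(1 / 2 : ℂ) + (u : ℂ) * Complex.I)‖ ^ 2 := by
    rw [← intervalIntegral.integral_comp_mul_left (fun u : ℝ => ‖∑ m ∈ Icc 1 M,
      (((Real.sqrt m : ℝ) : ℂ) * b m) * (m : ℂ) ^ (-(1 / 2 : ℂ) + (u : ℂ) * Complex.I)‖ ^ 2)
      (by positivity : 2 * Real.pi ≠ 0)]
    refine intervalIntegral.integral_congr fun t _ => ?_
    show ‖DP b M t‖ ^ 2 = _
    rw [← Mvt_pt b M t]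
  rw [e2, smul_eq_mul, show 2 * Real.pi * -T = -(2 * Real.pi * T) by ring]
  have h2 := mul_le_mul_of_nonneg_left h (by positivity : 0 ≤ (2 * Real.pi)⁻¹)
  refine h2.trans ?_
  rw [← mul_assoc]
  refine mul_le_mul_of_nonneg_right ?_ (Mvt_SS_nonneg b M)
  have h3 : (2 * Real.pi)⁻¹ * (2 * (2 * Real.pi * T) + 4 * M * (1 + Real.log M)) =
      2 * T + (2 * Real.pi)⁻¹ * (4 * M * (1 + Real.log M)) := by
    field_simp
  rw [h3]
  have h4 : (2 * Real.pi)⁻¹ ≤ 1 := by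
    have := Real.pi_gt_three
    exact inv_le_one_of_one_le₀ (by linarith)
  have h5 : 0 ≤ 4 * M * (1 + Real.log M) := mul_nonneg (by positivity) (Mvt_log M)
  have h6 := mul_le_mul_of_nonneg_right h4 h5
  linarith

/-- the dyadic pieces -/
private def Mvt_S (T : ℝ) (j : ℕ) : Set ℝ := {t | T < |t| ∧ 2 ^ j * T ≤ |t| ∧ |t| < 2 ^ (j + 1) * T}

private theorem Mvt_meas (T : ℝ) (j : ℕ) : MeasurableSet (Mvt_S T j) := by
  unfold Mvt_S
  have h : Measurable fun t : ℝ => |t| := continuous_abs.measurable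
  exact (measurableSet_lt measurable_const h).inter
    ((measurableSet_le measurable_const h).inter (measurableSet_lt h measurable_const))

private theorem Mvt_union {T : ℝ} (hT : 1 ≤ T) : ⋃ j, Mvt_S T j = {t : ℝ | T < |t|} := by
  have hT0 : 0 < T := by linarith
  ext t
  rw [Set.mem_iUnion]
  constructor
  · rintro ⟨j, h, -, -⟩
    exact h
  · intro h
    have h' : T < |t| := h
    obtain ⟨j, h1, h2⟩ := exists_nat_pow_near (x := |t| / T) (y := (2 : ℝ))
      (by rw [le_div_iff₀ hT0]; linarith) (by norm_num)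
    rw [le_div_iff₀ hT0] at h1
    rw [div_lt_iff₀ hT0] at h2
    exact ⟨j, h', h1, h2⟩

private theorem Mvt_disj {T : ℝ} (hT : 1 ≤ T) : Pairwise (Function.onFun Disjoint (Mvt_S T)) := by
  have key : ∀ i j : ℕ, i < j → Disjoint (Mvt_S T i) (Mvt_S T j) := by
    intro i j hij
    rw [Set.disjoint_left]
    rintro t ⟨-, -, h1⟩ ⟨-, h2, -⟩
    have h3 : (2 : ℝ) ^ (i + 1) ≤ 2 ^ j := pow_le_pow_right₀ (by norm_num) hij
    have h4 := mul_le_mul_of_nonneg_right h3 (by linarith : 0 ≤ T)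
    linarith
  intro i j hij
  rcases lt_or_gt_of_ne hij with h | h
  · exact key i j h
  · exact (key j i h).symm

private theorem Mvt_sub {T : ℝ} (j : ℕ) :
    Mvt_S T j ⊆ Set.Icc (-(2 ^ (j + 1) * T)) (2 ^ (j + 1) * T) := by
  rintro t ⟨-, -, h⟩
  exact ⟨(abs_lt.1 h).1.le, (abs_lt.1 h).2.le⟩

private theorem Mvt_int (b : ℕ → ℂ) (M : ℕ) {T : ℝ} (hT : 1 ≤ T) (j : ℕ) :
    IntegrableOn (fun t => ‖DP b M t‖ ^ 2 / t ^ 2) (Mvt_S T j) := by
  have hms : Measurable (fun t => ‖DP b M t‖ ^ 2 / t ^ 2) :=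
    (((dp_cont b M).norm.pow 2).measurable).div (measurable_id.pow_const 2)
  refine Measure.integrableOn_of_bounded (M := (∑ n ∈ Icc 1 M, ‖b n‖) ^ 2) ?_
    hms.aestronglyMeasurable ?_
  · refine ((measure_mono (Mvt_sub j)).trans_lt ?_).ne
    rw [Real.volume_Icc]
    exact ENNReal.ofReal_lt_top
  · refine (ae_restrict_iff' (Mvt_meas T j)).2 (Filter.Eventually.of_forall fun t ht => ?_)
    have h1 : 1 ≤ |t| := hT.trans ht.1.le
    have h2 : 1 ≤ t ^ 2 := by
      rw [← sq_abs]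
      nlinarith
    rw [Real.norm_of_nonneg (by positivity)]
    refine (div_le_self (sq_nonneg _) h2).trans ?_
    exact pow_le_pow_left₀ (norm_nonneg _) (dp_norm_le b M t) 2

private theorem Mvt_piece (b : ℕ → ℂ) (M : ℕ) {T : ℝ} (hM : 1 ≤ M) (hT : 1 ≤ T) (j : ℕ) :
    ∫ t in Mvt_S T j, ‖DP b M t‖ ^ 2 / t ^ 2 ≤
      (4 / T * (1 / 2) ^ j + 4 * M * (1 + Real.log M) / T ^ 2 * (1 / 4) ^ j) * SS b M := by
  have hT0 : 0 < T := by linarith
  have hj : (0 : ℝ) < 2 ^ j := by positivity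
  have hcont : Continuous fun t => ‖DP b M t‖ ^ 2 := (dp_cont b M).norm.pow 2
  have hI : IntegrableOn (fun t => ‖DP b M t‖ ^ 2)
      (Set.Icc (-(2 ^ (j + 1) * T)) (2 ^ (j + 1) * T)) := hcont.integrableOn_Icc
  have h1 : ∫ t in Mvt_S T j, ‖DP b M t‖ ^ 2 / t ^ 2 ≤
      ∫ t in Mvt_S T j, ‖DP b M t‖ ^ 2 * (1 / (2 ^ j * T) ^ 2) := by
    refine setIntegral_mono_on (Mvt_int b M hT j) ((hI.mono_set (Mvt_sub j)).mul_const _)
      (Mvt_meas T j) fun t ht => ?_
    rw [div_eq_mul_one_div]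
    refine mul_le_mul_of_nonneg_left ?_ (sq_nonneg _)
    refine one_div_le_one_div_of_le (by positivity) ?_
    rw [← sq_abs t]
    exact pow_le_pow_left₀ (by positivity) ht.2.1 2
  have h2 : ∫ t in Mvt_S T j, ‖DP b M t‖ ^ 2 * (1 / (2 ^ j * T) ^ 2) =
      (∫ t in Mvt_S T j, ‖DP b M t‖ ^ 2) * (1 / (2 ^ j * T) ^ 2) := integral_mul_const _ _
  have h3 : ∫ t in Mvt_S T j, ‖DP b M t‖ ^ 2 ≤
      ∫ t in Set.Icc (-(2 ^ (j + 1) * T)) (2 ^ (j + 1) * T), ‖DP b M t‖ ^ 2 :=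
    setIntegral_mono_set hI (Filter.Eventually.of_forall fun _ => sq_nonneg _)
      (Mvt_sub j).eventuallyLE
  have h4 := mvt b M (2 ^ (j + 1) * T) hM (by positivity)
  rw [h2] at h1
  refine h1.trans ((mul_le_mul_of_nonneg_right (h3.trans h4) (by positivity)).trans (le_of_eq ?_))
  have e1 : (1 / 2 : ℝ) ^ j = 1 / 2 ^ j := by rw [one_div_pow]
  have e2 : (1 / 4 : ℝ) ^ j = 1 / (2 ^ j * 2 ^ j) := by
    rw [one_div_pow, ← mul_pow]
    norm_num
  rw [e1, e2, pow_succ]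
  field_simp
  ring

theorem tail_int (b : ℕ → ℂ) (M : ℕ) (T : ℝ) (hM : 1 ≤ M) (hT : 1 ≤ T) :
    IntegrableOn (fun t => ‖DP b M t‖ ^ 2 / t ^ 2) {t : ℝ | T < |t|} ∧
      ∫ t in {t : ℝ | T < |t|}, ‖DP b M t‖ ^ 2 / t ^ 2
        ≤ 100 * (1 / T + M * (1 + Real.log M) / T ^ 2) * SS b M := by
  have hT0 : 0 < T := by linarith
  have hK : 0 ≤ 4 * (M : ℝ) * (1 + Real.log M) := mul_nonneg (by positivity) (Mvt_log M)
  have hS := Mvt_SS_nonneg b M
  have hg2 : HasSum (fun j : ℕ => (1 / 2 : ℝ) ^ j) 2 := hasSum_geometric_two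
  have hg4 : HasSum (fun j : ℕ => (1 / 4 : ℝ) ^ j) (4 / 3) := by
    have h := hasSum_geometric_of_lt_one (r := (1 / 4 : ℝ)) (by norm_num) (by norm_num)
    have e : (1 - (1 / 4 : ℝ))⁻¹ = 4 / 3 := by norm_num
    rwa [e] at h
  have hsum := ((hg2.mul_left (4 / T)).add
    (hg4.mul_left (4 * M * (1 + Real.log M) / T ^ 2))).mul_right (SS b M)
  have hnn : ∀ j, 0 ≤ ∫ t in Mvt_S T j, ‖DP b M t‖ ^ 2 / t ^ 2 := fun j =>
    setIntegral_nonneg (Mvt_meas T j) fun t _ => by positivity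
  have hint : IntegrableOn (fun t => ‖DP b M t‖ ^ 2 / t ^ 2) (⋃ j, Mvt_S T j) := by
    refine integrableOn_iUnion_of_summable_integral_norm (Mvt_int b M hT) ?_
    have e : (fun j => ∫ t in Mvt_S T j, ‖‖DP b M t‖ ^ 2 / t ^ 2‖) =
        fun j => ∫ t in Mvt_S T j, ‖DP b M t‖ ^ 2 / t ^ 2 := by
      funext j
      refine setIntegral_congr_fun (Mvt_meas T j) fun t _ => ?_
      exact Real.norm_of_nonneg (by positivity)
    rw [e]
    exact Summable.of_nonneg_of_le hnn (Mvt_piece b M hM hT) hsum.summable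
  have h1 := hasSum_integral_iUnion (Mvt_meas T) (Mvt_disj hT) hint
  rw [Mvt_union hT] at hint h1
  refine ⟨hint, ?_⟩
  refine (hasSum_le (Mvt_piece b M hM hT) h1 hsum).trans ?_
  refine mul_le_mul_of_nonneg_right ?_ hS
  have h2 : 0 ≤ (M : ℝ) * (1 + Real.log M) / T ^ 2 :=
    div_nonneg (mul_nonneg (by positivity) (Mvt_log M)) (by positivity)
  have h3 : 0 ≤ 1 / T := by positivity
  have h4 : 4 / T * 2 = 8 * (1 / T) := by ring
  have h5 : 4 * (M : ℝ) * (1 + Real.log M) / T ^ 2 * (4 / 3) =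
      16 / 3 * (M * (1 + Real.log M) / T ^ 2) := by ring
  rw [h4, h5]
  linarith

end Pool.Agent.H88.PSI

end

section

/-!
# PSI Edg: the cut in the smooth variable

`(hi 0 k * a)(n) = ∑_{m ∣ n, n/m ≥ k} a m`; for `m ≤ x/k` all multiples `n > x` of `m` have `n/m ≥ k`, for `m > (x+H)/k` none `≤ x + H` has;
`m ∣ n ≡ u (d)` forces `(m, d) = 1`.  A window of length `H` has `≤ H/m + 1` multiples of `m`.  `em_abs`: `(m, d) = 1`, the numbers divisible by `m` in the class `u`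
form one class modulo `m d`.  `zone_sum`: `x/k < m ≤ (x+H)/k` iff `x < m k ≤ x + H`: for every `m` at most `H` values of `x`.
-/

set_option autoImplicit false

namespace Pool.Agent.H88.PSI

open Finset

private theorem Edg_count (x H r v : ℕ) (hr : 1 ≤ r) :
    |(((Ioc x (x + H)).filter (fun n => n ≡ v [MOD r])).card : ℝ) - H / r| ≤ 1 := by
  have hr0 : (0 : ℚ) < r := by exact_mod_cast hr
  have h1 := Nat.Ioc_filter_modEq_card x (x + H) (r := r) hr v
  obtain ⟨A, hA⟩ : ∃ A : ℤ, A = ⌊(((x + H : ℕ) : ℚ) - v) / (r : ℚ)⌋ := ⟨_, rfl⟩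
  obtain ⟨B, hB⟩ : ∃ B : ℤ, B = ⌊((x : ℚ) - v) / (r : ℚ)⌋ := ⟨_, rfl⟩
  rw [← hA, ← hB] at h1
  have a1 := Int.floor_le ((((x + H : ℕ) : ℚ) - v) / (r : ℚ))
  have a2 := Int.lt_floor_add_one ((((x + H : ℕ) : ℚ) - v) / (r : ℚ))
  have b1 := Int.floor_le (((x : ℚ) - v) / (r : ℚ))
  have b2 := Int.lt_floor_add_one (((x : ℚ) - v) / (r : ℚ))
  rw [← hA] at a1 a2
  rw [← hB] at b1 b2
  have hsplit : (((x + H : ℕ) : ℚ) - v) / (r : ℚ) = ((x : ℚ) - v) / (r : ℚ) + (H : ℚ) / r := by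
    push_cast
    ring
  have hH0 : (0 : ℚ) ≤ (H : ℚ) / r := div_nonneg (Nat.cast_nonneg _) hr0.le
  have hAB : B ≤ A := by
    rw [hA, hB]
    apply Int.floor_le_floor
    rw [hsplit]
    linarith
  rw [max_eq_left (by omega)] at h1
  have h2 : ((((Ioc x (x + H)).filter (fun n => n ≡ v [MOD r])).card : ℕ) : ℚ) = (A : ℚ) - B := by
    exact_mod_cast h1
  have h3 : |((((Ioc x (x + H)).filter (fun n => n ≡ v [MOD r])).card : ℕ) : ℚ) - (H : ℚ) / r| ≤ 1 := by
    rw [h2, abs_le]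
    constructor <;> linarith
  have h4 : ((|((((Ioc x (x + H)).filter (fun n => n ≡ v [MOD r])).card : ℕ) : ℚ) - (H : ℚ) / r| : ℚ) : ℝ) ≤
      ((1 : ℚ) : ℝ) := by exact_mod_cast h3
  push_cast at h4
  exact h4

private theorem Edg_kf (k n : ℕ) : (hi 0 k : ArithmeticFunction ℝ) n = if n ≠ 0 ∧ k ≤ n then 1 else 0 := by
  show (if n ≠ 0 ∧ k ≤ n then kf 0 n else 0) = _
  unfold kf
  rw [if_pos rfl]

private theorem Edg_conv (a : ArithmeticFunction ℝ) (k n M : ℕ) (hk : 1 ≤ k) (hn : 1 ≤ n)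
    (hM : n / k ≤ M) :
    (hi 0 k * a) n = ∑ m ∈ Icc 1 M, if m ∣ n ∧ k * m ≤ n then a m else 0 := by
  rw [ArithmeticFunction.mul_apply,
    Nat.sum_divisorsAntidiagonal' (f := fun p q => (hi 0 k : ArithmeticFunction ℝ) p * a q)]
  have h1 : ∀ m ∈ n.divisors, (hi 0 k : ArithmeticFunction ℝ) (n / m) * a m =
      if m ∣ n ∧ k * m ≤ n then a m else 0 := by
    intro m hm
    have hmn := Nat.dvd_of_mem_divisors hm
    have hm0 : 0 < m := Nat.pos_of_mem_divisors hm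
    have hnm : n / m ≠ 0 := by
      have := Nat.div_pos (Nat.le_of_dvd hn hmn) hm0
      omega
    rw [Edg_kf]
    by_cases h : k * m ≤ n
    · rw [if_pos ⟨hnm, (Nat.le_div_iff_mul_le hm0).mpr h⟩, if_pos ⟨hmn, h⟩, one_mul]
    · rw [if_neg (fun h' => h ((Nat.le_div_iff_mul_le hm0).mp h'.2)), if_neg (fun h' => h h'.2),
        zero_mul]
  rw [Finset.sum_congr rfl h1, ← Finset.sum_filter, ← Finset.sum_filter]
  refine Finset.sum_congr ?_ fun _ _ => rfl
  ext m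
  rw [mem_filter, mem_filter, Nat.mem_divisors, mem_Icc]
  constructor
  · rintro ⟨⟨h2, h3⟩, h4, h5⟩
    refine ⟨⟨Nat.pos_of_dvd_of_pos h2 hn, ?_⟩, h4, h5⟩
    refine le_trans ?_ hM
    rw [Nat.le_div_iff_mul_le hk]
    rw [mul_comm]
    exact h5
  · rintro ⟨_, h4, h5⟩
    exact ⟨⟨h4, by omega⟩, h4, h5⟩

private theorem Edg_coprime {d u m n : ℕ} (hu : Nat.Coprime u d) (hmn : m ∣ n)
    (hn : n % d = u % d) : Nat.Coprime m d := by
  have h1 : Nat.gcd m d ∣ n := (Nat.gcd_dvd_left m d).trans hmn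
  have h2 : Nat.gcd m d ∣ d := Nat.gcd_dvd_right m d
  have h3 : n ≡ u [MOD Nat.gcd m d] := Nat.ModEq.of_dvd h2 hn
  have h4 : Nat.gcd m d ∣ u := (Nat.ModEq.dvd_iff h3 dvd_rfl).mp h1
  have h5 := Nat.dvd_gcd h4 h2
  rw [hu] at h5
  exact Nat.dvd_one.mp h5

private theorem Edg_mult (x H m : ℕ) (hm : 1 ≤ m) :
    (((Ioc x (x + H)).filter (fun n => m ∣ n)).card : ℝ) ≤ (H : ℝ) / m + 1 := by
  have h1 := (abs_le.mp (Edg_count x H m 0 hm)).2
  have h2 : (Ioc x (x + H)).filter (fun n => n ≡ 0 [MOD m]) =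
      (Ioc x (x + H)).filter (fun n => m ∣ n) := by
    refine Finset.filter_congr fun n _ => Nat.modEq_zero_iff_dvd
  rw [h2] at h1
  linarith

theorem ti_edge (a : ArithmeticFunction ℝ) (d u H k x : ℕ) (hd : 1 ≤ d) (hk : 1 ≤ k)
    (hu : Nat.Coprime u d) :
    ‖W (cl d u (hi 0 k * a)) H x
        - ((∑ m ∈ (Icc 1 (x / k)).filter (fun m => Nat.Coprime m d), a m * cnt d u H m x : ℝ) : ℂ)‖
      ≤ ∑ m ∈ Ioc (x / k) ((x + H) / k), |a m| * ((H : ℝ) / m + 1) := by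
  have hxk : x / k ≤ (x + H) / k := Nat.div_le_div_right (Nat.le_add_right _ _)
  -- the counting function with the cut
  obtain ⟨C, hC⟩ : ∃ C : ℕ → ℝ, C = fun m : ℕ => (((Ioc x (x + H)).filter
      (fun n => n % d = u % d ∧ (m ∣ n ∧ k * m ≤ n))).card : ℝ) := ⟨_, rfl⟩
  have hW : W (cl d u (hi 0 k * a)) H x = ((∑ m ∈ Icc 1 ((x + H) / k), a m * C m : ℝ) : ℂ) := by
    have h1 : W (cl d u (hi 0 k * a)) H x =
        ((∑ n ∈ Ioc x (x + H), if n % d = u % d then (hi 0 k * a) n else 0 : ℝ) : ℂ) := by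
      unfold W cl
      push_cast
      refine Finset.sum_congr rfl fun n _ => ?_
      split_ifs
      · rfl
      · simp
    rw [h1]
    congr 1
    have h2 : ∀ n ∈ Ioc x (x + H), (if n % d = u % d then (hi 0 k * a) n else 0) =
        ∑ m ∈ Icc 1 ((x + H) / k), if n % d = u % d ∧ (m ∣ n ∧ k * m ≤ n) then a m else 0 := by
      intro n hn
      rw [mem_Ioc] at hn
      by_cases h3 : n % d = u % d
      · rw [if_pos h3, Edg_conv a k n ((x + H) / k) hk (by omega) (Nat.div_le_div_right hn.2)]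
        refine Finset.sum_congr rfl fun m _ => ?_
        by_cases h4 : m ∣ n ∧ k * m ≤ n
        · rw [if_pos h4, if_pos ⟨h3, h4⟩]
        · rw [if_neg h4, if_neg (fun h5 => h4 h5.2)]
      · rw [if_neg h3]
        symm
        refine Finset.sum_eq_zero fun m _ => ?_
        rw [if_neg (fun h5 => h3 h5.1)]
    rw [Finset.sum_congr rfl h2, Finset.sum_comm]
    refine Finset.sum_congr rfl fun m _ => ?_
    rw [← Finset.sum_filter, Finset.sum_const, nsmul_eq_mul, hC, mul_comm]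
  have hsplit : ∑ m ∈ Icc 1 ((x + H) / k), a m * C m =
      (∑ m ∈ Icc 1 (x / k), a m * C m) + ∑ m ∈ Ioc (x / k) ((x + H) / k), a m * C m := by
    rw [← Finset.sum_union]
    · refine Finset.sum_congr ?_ fun _ _ => rfl
      ext m
      rw [mem_union, mem_Icc, mem_Icc, mem_Ioc]
      generalize x / k = A at hxk ⊢
      generalize (x + H) / k = B at hxk ⊢
      omega
    · rw [Finset.disjoint_left]
      intro m h1 h2
      rw [mem_Icc] at h1
      rw [mem_Ioc] at h2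
      omega
  have hlow : ∑ m ∈ Icc 1 (x / k), a m * C m =
      ∑ m ∈ (Icc 1 (x / k)).filter (fun m => Nat.Coprime m d), a m * cnt d u H m x := by
    rw [Finset.sum_filter]
    refine Finset.sum_congr rfl fun m hm => ?_
    rw [mem_Icc] at hm
    have hkm : k * m ≤ x := by
      have := (Nat.le_div_iff_mul_le hk).mp hm.2
      rw [mul_comm]
      exact this
    have h1 : (Ioc x (x + H)).filter (fun n => n % d = u % d ∧ (m ∣ n ∧ k * m ≤ n)) =
        (Ioc x (x + H)).filter (fun n => m ∣ n ∧ n % d = u % d) := by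
      refine Finset.filter_congr fun n hn => ?_
      rw [mem_Ioc] at hn
      constructor
      · rintro ⟨h2, h3, _⟩
        exact ⟨h3, h2⟩
      · rintro ⟨h2, h3⟩
        exact ⟨h3, h2, by omega⟩
    have h2 : C m = cnt d u H m x := by
      rw [hC]
      unfold cnt
      simp only
      rw [h1]
    split_ifs with h3
    · rw [h2]
    · have h4 : C m = 0 := by
        rw [h2]
        unfold cnt
        rw [Nat.cast_eq_zero, Finset.card_eq_zero, Finset.filter_eq_empty_iff]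
        intro n _ h5
        exact h3 (Edg_coprime hu h5.1 h5.2)
      rw [h4, mul_zero]
  rw [hW, hsplit, hlow, ← Complex.ofReal_sub, add_sub_cancel_left, Complex.norm_real, Real.norm_eq_abs]
  refine (Finset.abs_sum_le_sum_abs _ _).trans (Finset.sum_le_sum fun m hm => ?_)
  rw [mem_Ioc] at hm
  have hC0 : 0 ≤ C m := by
    rw [hC]
    exact Nat.cast_nonneg _
  rw [abs_mul, abs_of_nonneg hC0]
  refine mul_le_mul_of_nonneg_left ?_ (abs_nonneg _)
  refine le_trans ?_ (Edg_mult x H m (Nat.lt_of_le_of_lt (Nat.zero_le _) hm.1))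
  rw [hC]
  simp only
  rw [Nat.cast_le]
  apply Finset.card_le_card
  intro n hn
  rw [mem_filter] at hn ⊢
  exact ⟨hn.1, hn.2.2.1⟩

theorem em_abs (d u H m x : ℕ) (hd : 1 ≤ d) (hm : 1 ≤ m) (h : Nat.Coprime m d) :
    |em d u H m x| ≤ 1 := by
  obtain ⟨v, hv1, hv2⟩ := Nat.chineseRemainder h 0 u
  have h1 : (Ioc x (x + H)).filter (fun n => m ∣ n ∧ n % d = u % d) =
      (Ioc x (x + H)).filter (fun n => n ≡ v [MOD m * d]) := by
    refine Finset.filter_congr fun n _ => ?_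
    rw [← Nat.modEq_and_modEq_iff_modEq_mul h]
    constructor
    · rintro ⟨h2, h3⟩
      exact ⟨(Nat.modEq_zero_iff_dvd.mpr h2).trans hv1.symm, Nat.ModEq.trans h3 hv2.symm⟩
    · rintro ⟨h2, h3⟩
      exact ⟨Nat.modEq_zero_iff_dvd.mp (h2.trans hv1), h3.trans hv2⟩
  unfold em cnt
  rw [h1]
  have h2 := Edg_count x H (m * d) v (Nat.mul_pos hm hd)
  push_cast at h2
  exact h2

theorem zone_sum (X H k : ℕ) (hk : 1 ≤ k) (hX : 1 ≤ X) (hH : H ≤ X) (b : ℕ → ℝ) (hb : ∀ m, 0 ≤ b m) :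
    ∑ x ∈ Ico X (2 * X), ∑ m ∈ Ioc (x / k) ((x + H) / k), b m ≤ H * ∑ m ∈ Icc 1 (3 * X), b m := by
  have h1 : ∀ x ∈ Ico X (2 * X), ∑ m ∈ Ioc (x / k) ((x + H) / k), b m =
      ∑ m ∈ Icc 1 (3 * X), if x < m * k ∧ m * k ≤ x + H then b m else 0 := by
    intro x hx
    rw [mem_Ico] at hx
    rw [← Finset.sum_filter]
    refine Finset.sum_congr ?_ fun _ _ => rfl
    ext m
    rw [mem_Ioc, mem_filter, mem_Icc, Nat.div_lt_iff_lt_mul hk, Nat.le_div_iff_mul_le hk]
    constructor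
    · rintro ⟨h2, h3⟩
      refine ⟨⟨?_, ?_⟩, h2, h3⟩
      · rcases Nat.eq_zero_or_pos m with rfl | h4
        · omega
        · exact h4
      · have : m ≤ m * k := Nat.le_mul_of_pos_right m hk
        omega
    · rintro ⟨_, h2, h3⟩
      exact ⟨h2, h3⟩
  rw [Finset.sum_congr rfl h1, Finset.sum_comm, Finset.mul_sum]
  refine Finset.sum_le_sum fun m _ => ?_
  rw [← Finset.sum_filter, Finset.sum_const, nsmul_eq_mul]
  refine mul_le_mul_of_nonneg_right ?_ (hb m)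
  rw [Nat.cast_le]
  have h2 : (Ico X (2 * X)).filter (fun x => x < m * k ∧ m * k ≤ x + H) ⊆ Ico (m * k - H) (m * k) := by
    intro x hx
    rw [mem_filter] at hx
    rw [mem_Ico]
    omega
  refine (Finset.card_le_card h2).trans ?_
  rw [Nat.card_Ico]
  omega

/-- the main terms of `cnt` add up to `Bk` -/
theorem bk_eq (a : ℕ → ℝ) (d u H k x : ℕ) (hH : 1 ≤ H) :
    (∑ m ∈ (Icc 1 (x / k)).filter (fun m => Nat.Coprime m d), a m * cnt d u H m x) / H
      - Bk a d k x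
      = (∑ m ∈ (Icc 1 (x / k)).filter (fun m => Nat.Coprime m d), a m * em d u H m x) / H := by
  have hH0 : (H : ℝ) ≠ 0 := by
    have : (1 : ℝ) ≤ H := by exact_mod_cast hH
    linarith
  unfold Bk
  rw [Finset.sum_div, Finset.sum_div, Finset.mul_sum, ← Finset.sum_sub_distrib]
  refine Finset.sum_congr rfl fun m _ => ?_
  unfold em
  have h1 : (H : ℝ) / (m * d) / H = 1 / (m * d) := by
    rw [div_div, mul_comm ((m : ℝ) * d) H, ← div_div, div_self hH0]
  have h2 : a m * (cnt d u H m x - H / (m * d)) / H =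
      a m * cnt d u H m x / H - a m * ((H : ℝ) / (m * d) / H) := by ring
  rw [h2, h1]
  ring

end Pool.Agent.H88.PSI

end

section

/-!
# PSI Bin: binary decomposition of an initial segment

Induction on `r`: if `M < 2^r`, `2^(r-1) ≤ M`: `range M = range 2^(r-1) ∪ Ico 2^(r-1) M`,
`|a+b|^2 ≤ r |a|^2 + r/(r-1) |b|^2`.  (Apply the induction hypothesis to the shifted function.)
-/

set_option autoImplicit false

namespace Pool.Agent.H88.PSI

open Finset

theorem bin_dec (r : ℕ) (f : ℕ → ℝ) (M : ℕ) (hM : M < 2 ^ r) :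
    (∑ m ∈ range M, f m) ^ 2 ≤ r * ∑ l ∈ range r, ∑ j ∈ range (2 ^ (r - l)),
      (∑ m ∈ Ico (j * 2 ^ l) ((j + 1) * 2 ^ l), f m) ^ 2 := by
  set S : ℕ → ℝ := fun l => ∑ m ∈ range (M / 2 ^ l * 2 ^ l), f m with hS
  have h0 : S 0 = ∑ m ∈ range M, f m := by simp [hS]
  have hr : S r = 0 := by simp [hS, Nat.div_eq_of_lt hM]
  have tel : ∑ m ∈ range M, f m = ∑ l ∈ range r, (S l - S (l + 1)) := by
    rw [Finset.sum_range_sub', h0, hr, sub_zero]
  have hterm : ∀ l ∈ range r, (S l - S (l + 1)) ^ 2 ≤ ∑ j ∈ range (2 ^ (r - l)),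
      (∑ m ∈ Ico (j * 2 ^ l) ((j + 1) * 2 ^ l), f m) ^ 2 := by
    intro l hl
    have hl' : l < r := mem_range.1 hl
    have hq : M / 2 ^ l < 2 ^ (r - l) := by
      refine Nat.div_lt_of_lt_mul ?_
      rw [← pow_add, Nat.add_sub_cancel' hl'.le]
      exact hM
    have hq' : M / 2 ^ (l + 1) = M / 2 ^ l / 2 := by rw [pow_succ, Nat.div_div_eq_div_mul]
    rcases Nat.even_or_odd' (M / 2 ^ l) with ⟨q, hq2 | hq2⟩
    · have e1 : M / 2 ^ (l + 1) * 2 ^ (l + 1) = M / 2 ^ l * 2 ^ l := by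
        rw [hq', hq2, Nat.mul_div_cancel_left q (by norm_num), pow_succ]
        ring
      have e2 : S l - S (l + 1) = 0 := by
        simp only [hS]
        rw [e1, sub_self]
      rw [e2, zero_pow two_ne_zero]
      exact sum_nonneg fun j _ => sq_nonneg _
    · have e0 : M / 2 ^ (l + 1) = q := by
        rw [hq', hq2]
        omega
      have e2 : S l - S (l + 1) = ∑ m ∈ Ico (2 * q * 2 ^ l) ((2 * q + 1) * 2 ^ l), f m := by
        simp only [hS]
        rw [e0, hq2, pow_succ]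
        have e3 : q * (2 ^ l * 2) = 2 * q * 2 ^ l := by ring
        rw [e3, Finset.sum_Ico_eq_sub _ (Nat.mul_le_mul_right _ (by omega))]
      rw [e2]
      exact single_le_sum (f := fun j => (∑ m ∈ Ico (j * 2 ^ l) ((j + 1) * 2 ^ l), f m) ^ 2)
        (fun j _ => sq_nonneg _) (mem_range.2 (by omega : 2 * q < 2 ^ (r - l)))
  rw [tel]
  calc (∑ l ∈ range r, (S l - S (l + 1))) ^ 2
      ≤ (range r).card * ∑ l ∈ range r, (S l - S (l + 1)) ^ 2 := sq_sum_le_card_mul_sum_sq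
    _ = r * ∑ l ∈ range r, (S l - S (l + 1)) ^ 2 := by rw [card_range]
    _ ≤ _ := mul_le_mul_of_nonneg_left (sum_le_sum hterm) (Nat.cast_nonneg r)

end Pool.Agent.H88.PSI

end

section

/-!
# PROJECT VK (for MP_967f73_nt): definitions for the Vinogradov mean value theorem

`ee(t) = exp(2 π i t)` (`Pool.Agent.H91.PK.ee`, lemmas `LSa_ee_add`, `LSa_norm_ee`, `LSa_conj_ee`).
-/

set_option autoImplicit false

namespace Pool.Agent.H97.VK

open Finset
open Pool.Agent.H91.PK (ee)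

/-- the box `[1,M]^s` -/
def box (s M : ℕ) : Finset (Fin s → ℕ) := Fintype.piFinset (fun _ => Icc 1 M)

/-- the vector of the power sums with exponents `1, ..., k` -/
def pv (k : ℕ) {s : ℕ} (x : Fin s → ℕ) (j : Fin k) : ℤ := ∑ i, (x i : ℤ) ^ ((j : ℕ) + 1)

/-- number of the solutions of the Vinogradov system of degree `k` in `2 s` variables in `[1,M]` -/
def JV (k s M : ℕ) : ℕ :=
  (((box s M) ×ˢ (box s M)).filter (fun w => pv k w.1 = pv k w.2)).card

/-- the finite grid `[0,Q)^k` of frequencies -/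
def grid (k Q : ℕ) : Finset (Fin k → ℕ) := Fintype.piFinset (fun _ => range Q)

/-- exponential sum of a finite set with values in `ℤ^k` -/
noncomputable def FS {ι : Type} {k : ℕ} (X : Finset ι) (φ : ι → Fin k → ℤ) (Q : ℕ)
    (α : Fin k → ℕ) : ℂ :=
  ∑ x ∈ X, ee ((∑ j, (α j : ℝ) * (φ x j : ℝ)) / Q)

/-- the solutions of `φ(w) + ∑ pv(u) = φ(w') + ∑ pv(v)` with `w, w' ∈ W`, `u, v ∈ A^s` -/
def SC {ι : Type} {k : ℕ} (s : ℕ) (W : Finset ι) (φ : ι → Fin k → ℤ) (A : Finset ℕ) : ℕ :=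
  (((W ×ˢ W) ×ˢ ((Fintype.piFinset (fun _ : Fin s => A)) ×ˢ (Fintype.piFinset (fun _ : Fin s => A)))).filter
    (fun z => ∀ j, φ z.1.1 j + pv k z.2.1 j = φ z.1.2 j + pv k z.2.2 j)).card

/-- the tuples in `[1,M]^k` with distinct residues modulo `p` -/
def inj (k p M : ℕ) : Finset (Fin k → ℕ) :=
  (box k M).filter (fun x => ∀ i i', i ≠ i' → x i % p ≠ x i' % p)

/-- the bilinear exponential sum -/
noncomputable def bil (k X : ℕ) (α : Fin k → ℝ) : ℂ :=
  ∑ a ∈ Icc 1 X, ∑ b ∈ Icc 1 X, ee (∑ j : Fin k, α j * ((a : ℝ) * b) ^ ((j : ℕ) + 1))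

/-- the one dimensional sum of geometric sums -/
noncomputable def GG (α : ℝ) (W : ℕ) : ℝ :=
  ∑ w ∈ Icc (-(W : ℤ)) W, ‖∑ v ∈ Icc (-(W : ℤ)) W, ee (α * w * v)‖

end Pool.Agent.H97.VK

end
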