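import Pool.Agent.H94.EH.M19
import Pool.Agent.H94.EH.M40
import Pool.Agent.H94.EH.M41

/-! The parts of this file: H91.L1.Seg, H76.EHB.Link, H88.PSI.Chi, H88.PSI.Lon, H97.VK.PropA, H97.VK.Fou, H97.VK.Bil, H97.VK.Lin1, H97.VK.Lin2. -/

section

/-!
# L1 Seg: one segment of `k`

`seg`: open the square; `k = k'` gives at most `l Dg`; the ordered pairs `k ≠ k'` give `TT k k'` (symmetric: `TT R a0 H Q k k' = TT R a0 H Q k' k`),
at most `l²` of them, each at most `T` (write the larger one as the smaller one plus `d`, `1 ≤ d < l`).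
`cut`: fixed `q ≥ 1`, `a`, `y`.  The `n ∈ [1,y]`, `n ≡ a (q)` are the `a + q k ≥ 1` with `k ≤ kp = ⌊(y - a)/q⌋` (integer division, floor), and
`fz = 0` on `a + q k ≤ 0`; so the sum is `∑_{k ∈ Ico (-J l) (kp + 1)} fz(a + q k)` if `a - q (J l + 1) ≤ 0`, that is all `k < -J l` have
`a + q k ≤ 0` (follows from `hJ`: `a ≤ x`, `x < q J l`), and `kp + 1 ≤ J l` (`y ≤ x < q J l`, `a ≥ 0`).  Let `jp = ⌊(kp+1)/l⌋`; the sum over
`k ∈ Ico (-J l) (jp l)` is the sum of the complete segments `j ∈ Ico (-J) jp`, the rest has fewer than `l` terms, each `a + q k ≤ y ≤ x` so `≤ M`.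
The segments with `-j0 ≤ j < j0` are bounded by the sum of `|fz|` over `Ico (-j0 l) (j0 l)`, the others by their absolute values
(all `j ∈ Ico (-J) J`).
-/

set_option autoImplicit false

namespace Pool.Agent.H91.L1

open Finset
open Pool.Agent.H91.EHA (Lam lamR hR psiA err)

private lemma seg_symm (R a0 H Q : ℕ) (k k' : ℤ) : TT R a0 H Q k k' = TT R a0 H Q k' k := by
  unfold TT
  apply Finset.sum_congr rfl
  intro q _
  apply Finset.sum_congr rfl
  intro a _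
  exact mul_comm _ _

private lemma seg_TT (R a0 H Q l : ℕ) (j : ℤ) (Dg T : ℝ) (hT0 : 0 ≤ T)
    (hD : ∀ k ∈ Ico j (j + l),
      ∑ q ∈ Ioc Q (2 * Q), ∑ a ∈ Ioc a0 (a0 + H), fz R ((a : ℤ) + q * k) ^ 2 ≤ Dg)
    (hT : ∀ k : ℤ, ∀ d : ℕ, j ≤ k → 1 ≤ d → k + d < j + l → |TT R a0 H Q k (k + d)| ≤ T)
    (k k' : ℤ) (hk : k ∈ Ico j (j + l)) (hk' : k' ∈ Ico j (j + l)) :
    TT R a0 H Q k k' ≤ (if k = k' then Dg else 0) + T := by
  rcases lt_trichotomy k k' with h | h | h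
  · rw [if_neg h.ne, zero_add]
    rw [mem_Ico] at hk hk'
    obtain ⟨d, hd⟩ := Int.le.dest h.le
    rw [← hd]
    exact (le_abs_self _).trans (hT k d hk.1 (by omega) (by omega))
  · subst h
    rw [if_pos rfl]
    have : TT R a0 H Q k k ≤ Dg := by
      refine le_trans (le_of_eq ?_) (hD k hk)
      unfold TT
      apply Finset.sum_congr rfl
      intro q _
      apply Finset.sum_congr rfl
      intro a _
      exact (sq _).symm
    linarith
  · rw [if_neg h.ne', zero_add, seg_symm]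
    rw [mem_Ico] at hk hk'
    obtain ⟨d, hd⟩ := Int.le.dest h.le
    rw [← hd]
    exact (le_abs_self _).trans (hT k' d hk'.1 (by omega) (by omega))

theorem seg (R a0 H Q l : ℕ) (j : ℤ) (Dg T : ℝ) (hT0 : 0 ≤ T)
    (hD : ∀ k ∈ Ico j (j + l),
      ∑ q ∈ Ioc Q (2 * Q), ∑ a ∈ Ioc a0 (a0 + H), fz R ((a : ℤ) + q * k) ^ 2 ≤ Dg)
    (hT : ∀ k : ℤ, ∀ d : ℕ, j ≤ k → 1 ≤ d → k + d < j + l → |TT R a0 H Q k (k + d)| ≤ T) :
    ∑ q ∈ Ioc Q (2 * Q), ∑ a ∈ Ioc a0 (a0 + H), (∑ k ∈ Ico j (j + l), fz R ((a : ℤ) + q * k)) ^ 2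
      ≤ l * Dg + (l : ℝ) ^ 2 * T := by
  have e1 : ∑ q ∈ Ioc Q (2 * Q), ∑ a ∈ Ioc a0 (a0 + H),
      (∑ k ∈ Ico j (j + l), fz R ((a : ℤ) + q * k)) ^ 2
      = ∑ k ∈ Ico j (j + l), ∑ k' ∈ Ico j (j + l), TT R a0 H Q k k' := by
    unfold TT
    have : ∀ q ∈ Ioc Q (2 * Q), ∑ a ∈ Ioc a0 (a0 + H),
        (∑ k ∈ Ico j (j + l), fz R ((a : ℤ) + q * k)) ^ 2
        = ∑ k ∈ Ico j (j + l), ∑ k' ∈ Ico j (j + l), ∑ a ∈ Ioc a0 (a0 + H),
          fz R ((a : ℤ) + q * k) * fz R ((a : ℤ) + q * k') := by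
      intro q _
      have : ∀ a ∈ Ioc a0 (a0 + H), (∑ k ∈ Ico j (j + l), fz R ((a : ℤ) + q * k)) ^ 2
          = ∑ k ∈ Ico j (j + l), ∑ k' ∈ Ico j (j + l),
            fz R ((a : ℤ) + q * k) * fz R ((a : ℤ) + q * k') := by
        intro a _
        rw [sq, Finset.sum_mul_sum]
      rw [Finset.sum_congr rfl this, Finset.sum_comm]
      apply Finset.sum_congr rfl
      intro k _
      rw [Finset.sum_comm]
    rw [Finset.sum_congr rfl this, Finset.sum_comm]
    apply Finset.sum_congr rfl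
    intro k _
    rw [Finset.sum_comm]
  rw [e1]
  have hcard : (Ico j (j + l)).card = l := by
    rw [Int.card_Ico]
    have : j + (l : ℤ) - j = l := by ring
    rw [this, Int.toNat_natCast]
  calc ∑ k ∈ Ico j (j + l), ∑ k' ∈ Ico j (j + l), TT R a0 H Q k k'
      ≤ ∑ k ∈ Ico j (j + l), ∑ k' ∈ Ico j (j + l), ((if k = k' then Dg else 0) + T) := by
        apply Finset.sum_le_sum
        intro k hk
        apply Finset.sum_le_sum
        intro k' hk'
        exact seg_TT R a0 H Q l j Dg T hT0 hD hT k k' hk hk'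
    _ = ∑ k ∈ Ico j (j + l), (Dg + l * T) := by
        apply Finset.sum_congr rfl
        intro k hk
        rw [Finset.sum_add_distrib, Finset.sum_ite_eq, if_pos hk, Finset.sum_const, hcard,
          nsmul_eq_mul]
    _ = l * Dg + (l : ℝ) ^ 2 * T := by
        rw [Finset.sum_const, hcard, nsmul_eq_mul]
        ring

private lemma cut_seg (g : ℤ → ℝ) (l : ℕ) (a b : ℤ) (hab : a ≤ b) :
    ∑ k ∈ Ico (a * l) (b * l), g k = ∑ j ∈ Ico a b, ∑ k ∈ Ico (j * l) (j * l + l), g k := by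
  induction b, hab using Int.leInduction with
  | base => simp
  | succ n hn ih =>
    have h1 : a * (l : ℤ) ≤ n * l := mul_le_mul_of_nonneg_right hn (Int.natCast_nonneg l)
    have h2 : n * (l : ℤ) ≤ n * l + l := by have := Int.natCast_nonneg l; linarith
    have e1 : (n + 1) * (l : ℤ) = n * l + l := by ring
    have e2 : Ico a (n + 1) = insert n (Ico a n) := by
      ext x
      rw [mem_insert, mem_Ico, mem_Ico]
      omega
    rw [e1, e2, Finset.sum_insert (by simp), ← ih,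
      ← Finset.Ico_union_Ico_eq_Ico h1 h2, Finset.sum_union]
    · ring
    · exact Finset.Ico_disjoint_Ico_consecutive _ _ _

private lemma cut_sum (R q a x y : ℕ) (K : ℤ) (hq : 1 ≤ q) (ha : a ≤ x)
    (hK : (x : ℤ) < q * K) :
    ∑ n ∈ (Icc 1 y).filter (fun n => n ≡ a [MOD q]), hR R n
      = ∑ k ∈ Ico (-K) (((y : ℤ) - a) / q + 1), fz R ((a : ℤ) + q * k) := by
  have hqZ : (0 : ℤ) < q := by exact_mod_cast hq
  have haZ : (a : ℤ) ≤ x := by exact_mod_cast ha
  have e1 : ∑ k ∈ Ico (-K) (((y : ℤ) - a) / q + 1), fz R ((a : ℤ) + q * k)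
      = ∑ k ∈ (Ico (-K) (((y : ℤ) - a) / q + 1)).filter (fun k => 1 ≤ (a : ℤ) + q * k),
        fz R ((a : ℤ) + q * k) := by
    symm
    apply Finset.sum_filter_of_ne
    intro k _ hk
    by_contra hc
    apply hk
    unfold fz
    rw [if_neg hc]
  rw [e1]
  apply Finset.sum_nbij' (fun n : ℕ => ((n : ℤ) - a) / q) (fun k : ℤ => ((a : ℤ) + q * k).toNat)
  · intro n hn
    rw [mem_filter, mem_Icc] at hn
    obtain ⟨⟨h1, h2⟩, h3⟩ := hn
    have h4 : (q : ℤ) ∣ (n : ℤ) - a := by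
      have := (Nat.modEq_iff_dvd.mp h3.symm)
      exact this
    have h5 : (q : ℤ) * (((n : ℤ) - a) / q) = n - a := Int.mul_ediv_cancel' h4
    rw [mem_filter, mem_Ico]
    refine ⟨⟨?_, ?_⟩, ?_⟩
    · have h6 : -((q : ℤ) * K) < (q : ℤ) * (((n : ℤ) - a) / q) := by
        rw [h5]; have := Int.natCast_nonneg n; linarith
      have h7 : (q : ℤ) * (-K) < (q : ℤ) * (((n : ℤ) - a) / q) := by linarith
      exact (lt_of_mul_lt_mul_left h7 hqZ.le).le
    · apply Int.lt_add_one_of_le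
      apply Int.ediv_le_ediv hqZ
      have : (n : ℤ) ≤ y := by exact_mod_cast h2
      linarith
    · show 1 ≤ (a : ℤ) + q * (((n : ℤ) - a) / q)
      rw [h5]
      have : (1 : ℤ) ≤ n := by exact_mod_cast h1
      linarith
  · intro k hk
    rw [mem_filter, mem_Ico] at hk
    obtain ⟨⟨h1, h2⟩, h3⟩ := hk
    have h4 : k ≤ ((y : ℤ) - a) / q := Int.lt_add_one_iff.mp h2
    rw [Int.le_ediv_iff_mul_le hqZ] at h4
    have h5 : ((((a : ℤ) + q * k).toNat : ℕ) : ℤ) = (a : ℤ) + q * k :=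
      Int.toNat_of_nonneg (by linarith)
    rw [mem_filter, mem_Icc]
    refine ⟨⟨?_, ?_⟩, ?_⟩
    · omega
    · have : ((((a : ℤ) + q * k).toNat : ℕ) : ℤ) ≤ y := by rw [h5]; linarith
      exact_mod_cast this
    · have : (a : ℤ) ≡ (((a : ℤ) + q * k).toNat : ℕ) [ZMOD q] := by
        rw [h5, Int.modEq_iff_dvd]
        exact ⟨k, by ring⟩
      exact (Int.natCast_modEq_iff.mp this).symm
  · intro n hn
    rw [mem_filter, mem_Icc] at hn
    obtain ⟨⟨h1, h2⟩, h3⟩ := hn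
    have h4 : (q : ℤ) ∣ (n : ℤ) - a := (Nat.modEq_iff_dvd.mp h3.symm)
    have h5 : (q : ℤ) * (((n : ℤ) - a) / q) = n - a := Int.mul_ediv_cancel' h4
    show ((a : ℤ) + q * (((n : ℤ) - a) / q)).toNat = n
    rw [h5]
    have : (a : ℤ) + (n - a) = n := by ring
    rw [this, Int.toNat_natCast]
  · intro k hk
    rw [mem_filter, mem_Ico] at hk
    obtain ⟨⟨h1, h2⟩, h3⟩ := hk
    have h5 : ((((a : ℤ) + q * k).toNat : ℕ) : ℤ) = (a : ℤ) + q * k :=
      Int.toNat_of_nonneg (by linarith)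
    show (((((a : ℤ) + q * k).toNat : ℕ) : ℤ) - a) / q = k
    rw [h5]
    have : (a : ℤ) + q * k - a = q * k := by ring
    rw [this, Int.mul_ediv_cancel_left _ hqZ.ne']
  · intro n hn
    rw [mem_filter, mem_Icc] at hn
    obtain ⟨⟨h1, h2⟩, h3⟩ := hn
    have h4 : (q : ℤ) ∣ (n : ℤ) - a := (Nat.modEq_iff_dvd.mp h3.symm)
    have h5 : (q : ℤ) * (((n : ℤ) - a) / q) = n - a := Int.mul_ediv_cancel' h4
    show hR R n = fz R ((a : ℤ) + q * (((n : ℤ) - a) / q))
    rw [h5]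
    have : (a : ℤ) + (n - a) = n := by ring
    rw [this]
    unfold fz
    rw [if_pos (by exact_mod_cast h1), Int.toNat_natCast]

theorem cut (R q a x y l J j0 : ℕ) (M : ℝ) (hM0 : 0 ≤ M) (hM : ∀ n : ℕ, n ≤ x → |hR R n| ≤ M)
    (hq : 1 ≤ q) (hl : 1 ≤ l) (ha : a ≤ x) (hy : y ≤ x) (hJ : x < q * (J * l)) (hj : j0 ≤ J) :
    |∑ n ∈ (Icc 1 y).filter (fun n => n ≡ a [MOD q]), hR R n|
      ≤ l * M + (∑ k ∈ Ico (-(j0 * l : ℤ)) (j0 * l), |fz R ((a : ℤ) + q * k)|)
        + ∑ j ∈ (Ico (-(J : ℤ)) J).filter (fun j => j < -(j0 : ℤ) ∨ (j0 : ℤ) ≤ j),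
            |∑ k ∈ Ico (j * l) (j * l + l), fz R ((a : ℤ) + q * k)| := by
  have hqZ : (0 : ℤ) < q := by exact_mod_cast hq
  have hlZ : (0 : ℤ) < l := by exact_mod_cast hl
  have haZ : (a : ℤ) ≤ x := by exact_mod_cast ha
  have hyZ : (y : ℤ) ≤ x := by exact_mod_cast hy
  have hJZ : (x : ℤ) < q * (J * l) := by exact_mod_cast hJ
  have ha0 : (0 : ℤ) ≤ a := Int.natCast_nonneg a
  have hy0 : (0 : ℤ) ≤ y := Int.natCast_nonneg y
  rw [cut_sum R q a x y (J * l) hq ha hJZ]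
  set g : ℤ → ℝ := fun k => fz R ((a : ℤ) + q * k) with hg
  set K : ℤ := ((y : ℤ) - a) / q + 1 with hK
  have hK1 : K ≤ J * l := by
    apply Int.add_one_le_of_lt
    rw [Int.ediv_lt_iff_lt_mul hqZ]
    have : (J : ℤ) * l * q = q * (J * l) := by ring
    rw [this]
    linarith
  have hK2 : -((J : ℤ) * l) ≤ K := by
    have : -((J : ℤ) * l) ≤ ((y : ℤ) - a) / q := by
      rw [Int.le_ediv_iff_mul_le hqZ]
      have : -((J : ℤ) * l) * q = -(q * (J * l)) := by ring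
      rw [this]
      linarith
    rw [hK]
    linarith
  set P : ℤ := K / l with hP
  have hP1 : P * l ≤ K := by
    have := Int.mul_ediv_add_emod K l
    have h2 := Int.emod_nonneg K hlZ.ne'
    have h3 : P * (l : ℤ) = l * (K / l) := by rw [hP]; ring
    linarith
  have hP2 : K < P * l + l := by
    have := Int.mul_ediv_add_emod K l
    have h2 := Int.emod_lt_of_pos K hlZ
    have h3 : P * (l : ℤ) = l * (K / l) := by rw [hP]; ring
    linarith
  have hP3 : -(J : ℤ) ≤ P := by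
    rw [hP, Int.le_ediv_iff_mul_le hlZ]
    linarith
  have hP4 : P ≤ J := by
    by_contra hc
    have h1 : (J : ℤ) + 1 ≤ P := Int.add_one_le_of_lt (not_le.mp hc)
    have h2 : ((J : ℤ) + 1) * l ≤ P * l := mul_le_mul_of_nonneg_right h1 hlZ.le
    have h3 : ((J : ℤ) + 1) * l = J * l + l := by ring
    linarith
  -- split
  have hPl : -((J : ℤ) * l) ≤ P * l := by
    have := mul_le_mul_of_nonneg_right hP3 hlZ.le
    linarith
  have e1 : ∑ k ∈ Ico (-((J : ℤ) * l)) K, g k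
      = ∑ k ∈ Ico (-((J : ℤ) * l)) (P * l), g k + ∑ k ∈ Ico (P * l) K, g k := by
    rw [← Finset.Ico_union_Ico_eq_Ico hPl hP1, Finset.sum_union]
    exact Finset.Ico_disjoint_Ico_consecutive _ _ _
  have e2 : ∑ k ∈ Ico (-((J : ℤ) * l)) (P * l), g k
      = ∑ j ∈ Ico (-(J : ℤ)) P, ∑ k ∈ Ico (j * l) (j * l + l), g k := by
    rw [← cut_seg g l (-(J : ℤ)) P hP3, neg_mul]
  have hgM : ∀ k : ℤ, k < K → |g k| ≤ M := by
    intro k hk
    rw [hg]
    show |fz R ((a : ℤ) + q * k)| ≤ M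
    unfold fz
    split_ifs with h0
    · apply hM
      have h4 : k ≤ ((y : ℤ) - a) / q := Int.lt_add_one_iff.mp hk
      rw [Int.le_ediv_iff_mul_le hqZ] at h4
      have : (((a : ℤ) + q * k).toNat : ℤ) ≤ x := by
        rw [Int.toNat_of_nonneg (by linarith)]
        linarith
      exact_mod_cast this
    · rw [abs_zero]; exact hM0
  have e3 : |∑ k ∈ Ico (P * l) K, g k| ≤ l * M := by
    refine (Finset.abs_sum_le_sum_abs _ _).trans ?_
    refine (Finset.sum_le_card_nsmul _ _ M ?_).trans ?_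
    · intro k hk
      rw [mem_Ico] at hk
      exact hgM k hk.2
    · rw [nsmul_eq_mul, Int.card_Ico]
      apply mul_le_mul_of_nonneg_right _ hM0
      have : (K - P * l).toNat ≤ l := by omega
      exact_mod_cast this
  have e4 : |∑ j ∈ Ico (-(J : ℤ)) P, ∑ k ∈ Ico (j * l) (j * l + l), g k|
      ≤ (∑ k ∈ Ico (-(j0 * l : ℤ)) (j0 * l), |g k|)
        + ∑ j ∈ (Ico (-(J : ℤ)) J).filter (fun j => j < -(j0 : ℤ) ∨ (j0 : ℤ) ≤ j),
            |∑ k ∈ Ico (j * l) (j * l + l), g k| := by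
    have f1 : |∑ j ∈ Ico (-(J : ℤ)) P, ∑ k ∈ Ico (j * l) (j * l + l), g k|
        ≤ ∑ j ∈ Ico (-(J : ℤ)) J, |∑ k ∈ Ico (j * l) (j * l + l), g k| := by
      refine (Finset.abs_sum_le_sum_abs _ _).trans ?_
      apply Finset.sum_le_sum_of_subset_of_nonneg
      · apply Finset.Ico_subset_Ico_right hP4
      · intro j _ _
        exact abs_nonneg _
    refine f1.trans ?_
    rw [← Finset.sum_filter_add_sum_filter_not (Ico (-(J : ℤ)) J)
      (fun j => j < -(j0 : ℤ) ∨ (j0 : ℤ) ≤ j), add_comm]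
    apply add_le_add_left
    have f2 : (Ico (-(J : ℤ)) J).filter (fun j => ¬ (j < -(j0 : ℤ) ∨ (j0 : ℤ) ≤ j))
        = Ico (-(j0 : ℤ)) j0 := by
      ext j
      rw [mem_filter, mem_Ico, mem_Ico]
      have : (j0 : ℤ) ≤ J := by exact_mod_cast hj
      omega
    rw [f2]
    have f3 : ∑ k ∈ Ico (-(j0 * l : ℤ)) (j0 * l), |g k|
        = ∑ j ∈ Ico (-(j0 : ℤ)) j0, ∑ k ∈ Ico (j * l) (j * l + l), |g k| := by
      rw [← cut_seg (fun k => |g k|) l (-(j0 : ℤ)) j0 (by have := Int.natCast_nonneg j0; linarith),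
        neg_mul]
    rw [f3]
    apply Finset.sum_le_sum
    intro j _
    exact Finset.abs_sum_le_sum_abs _ _
  rw [e1, e2]
  refine (abs_add_le _ _).trans ?_
  linarith

end Pool.Agent.H91.L1

end

section

/-!
# EHB Link: from residue classes to `ft`

For `q ∈ (Q, 2Q]`, `a ∈ (a0, a0+A]`: the `n ∈ Icc 1 N` with `n ≡ a [MOD q]` are the `a + k q` with integer `k`; `|k| q = |n - a| ≤ max N (a0+A) ≤ K Q`, so
`|k| ≤ K`; the term `k = 0` (if `a ≤ N`) is `f a = ft a`, the others are `∑_{k ∈ ks K} ft (a + k q)`.  `(u+v)^2 ≤ 2u^2 + 2v^2` and `|ft a| ≤ Fm`.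
-/

set_option autoImplicit false

namespace Pool.Agent.H76.EHB

open Finset

private theorem Link_sum (f : ℕ → ℝ) (N K Q q a : ℕ) (hQ : Q < q) (h1 : N ≤ K * Q)
    (h2 : a ≤ K * Q) :
    ∑ n ∈ (Icc 1 N).filter (fun n => n ≡ a [MOD q]), f n =
      ft f N a + ∑ k ∈ ks K, ft f N (a + k * q) := by
  have hq : (0 : ℤ) < q := by exact_mod_cast (by omega : 0 < q)
  have h0 : (0 : ℤ) ∈ Icc (-(K : ℤ)) K := by
    rw [mem_Icc]
    omega
  have h3 : ft f N a + ∑ k ∈ ks K, ft f N (a + k * q) =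
      ∑ k ∈ Icc (-(K : ℤ)) K, ft f N (a + k * q) := by
    unfold ks
    rw [← add_sum_erase _ _ h0, zero_mul, add_zero]
  rw [h3]
  have h4 : ∑ k ∈ Icc (-(K : ℤ)) K, ft f N (a + k * q) =
      ∑ k ∈ (Icc (-(K : ℤ)) K).filter (fun k => 1 ≤ (a : ℤ) + k * q ∧ (a : ℤ) + k * q ≤ N),
        f ((a : ℤ) + k * q).toNat := by
    rw [sum_filter]
    rfl
  rw [h4]
  refine sum_nbij' (fun n => ((n : ℤ) - a) / q) (fun k => ((a : ℤ) + k * q).toNat) ?_ ?_ ?_ ?_ ?_
  · intro n hn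
    rw [mem_filter, mem_Icc] at hn
    obtain ⟨k, hk⟩ := (Nat.modEq_iff_dvd.1 hn.2.symm)
    have hk' : ((n : ℤ) - a) / q = k := by
      rw [hk, Int.mul_ediv_cancel_left _ hq.ne']
    simp only [mem_filter, mem_Icc, hk']
    have h5 : (a : ℤ) + k * q = n := by linarith [mul_comm (q : ℤ) k]
    have hN : (N : ℤ) ≤ K * Q := by exact_mod_cast h1
    have ha : (a : ℤ) ≤ K * Q := by exact_mod_cast h2
    have hn1 : (1 : ℤ) ≤ n := by exact_mod_cast hn.1.1
    have hnN : (n : ℤ) ≤ N := by exact_mod_cast hn.1.2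
    have ha0 : (0 : ℤ) ≤ a := Int.natCast_nonneg a
    have hK : (K : ℤ) * Q ≤ K * q := by
      have : (Q : ℤ) ≤ q := by exact_mod_cast hQ.le
      have hK0 : (0 : ℤ) ≤ K := Int.natCast_nonneg K
      exact mul_le_mul_of_nonneg_left this hK0
    refine ⟨⟨?_, ?_⟩, ?_, ?_⟩
    · refine le_of_mul_le_mul_right ?_ hq
      linarith
    · refine le_of_mul_le_mul_right ?_ hq
      linarith
    · linarith
    · linarith
  · intro k hk
    rw [mem_filter, mem_Icc] at hk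
    rw [mem_filter, mem_Icc]
    refine ⟨by omega, ?_⟩
    refine (Nat.modEq_iff_dvd.2 ?_).symm
    rw [Int.toNat_of_nonneg (by omega)]
    exact ⟨k, by ring⟩
  · intro n hn
    rw [mem_filter, mem_Icc] at hn
    obtain ⟨k, hk⟩ := (Nat.modEq_iff_dvd.1 hn.2.symm)
    have hk' : ((n : ℤ) - a) / q = k := by
      rw [hk, Int.mul_ediv_cancel_left _ hq.ne']
    simp only [hk']
    have h5 : (a : ℤ) + k * q = n := by linarith [mul_comm (q : ℤ) k]
    rw [h5, Int.toNat_natCast]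
  · intro k hk
    rw [mem_filter, mem_Icc] at hk
    rw [Int.toNat_of_nonneg (by omega), add_sub_cancel_left, Int.mul_ediv_cancel _ hq.ne']
  · intro n hn
    rw [mem_filter, mem_Icc] at hn
    obtain ⟨k, hk⟩ := (Nat.modEq_iff_dvd.1 hn.2.symm)
    have hk' : ((n : ℤ) - a) / q = k := by
      rw [hk, Int.mul_ediv_cancel_left _ hq.ne']
    simp only [hk']
    have h5 : (a : ℤ) + k * q = n := by linarith [mul_comm (q : ℤ) k]
    rw [h5, Int.toNat_natCast]

theorem link (f : ℕ → ℝ) (N K A Q a0 : ℕ) (Fm : ℝ) (hF : ∀ n ∈ Icc 1 N, |f n| ≤ Fm) (hF0 : 0 ≤ Fm)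
    (hQ : 1 ≤ Q) (h1 : N ≤ K * Q) (h2 : a0 + A ≤ K * Q) :
    ∑ q ∈ Ioc Q (2 * Q), ∑ a ∈ Ioc a0 (a0 + A),
        (∑ n ∈ (Icc 1 N).filter (fun n => n ≡ a [MOD q]), f n) ^ 2
      ≤ 2 * Q * A * Fm ^ 2
        + 2 * ∑ q ∈ Ioc Q (2 * Q), ∑ a ∈ Ioc (a0 : ℤ) (a0 + A), (∑ k ∈ ks K, ft f N (a + k * q)) ^ 2 := by
  have hcast : ∀ g : ℤ → ℝ, ∑ a ∈ Ioc (a0 : ℤ) (a0 + A), g a =
      ∑ a ∈ Ioc a0 (a0 + A), g (a : ℤ) := by
    intro g
    symm
    refine sum_nbij' (fun a => (a : ℤ)) (fun a => a.toNat) ?_ ?_ ?_ ?_ ?_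
    · intro a ha
      rw [mem_Ioc] at ha
      simp only [mem_Ioc]
      omega
    · intro a ha
      rw [mem_Ioc] at ha
      simp only [mem_Ioc]
      omega
    · intro a _
      simp
    · intro a ha
      rw [mem_Ioc] at ha
      omega
    · intro a _
      rfl
  have hft : ∀ a : ℕ, |ft f N a| ≤ Fm := by
    intro a
    unfold ft
    split_ifs with h
    · rw [Int.toNat_natCast]
      exact hF a (mem_Icc.2 (by omega))
    · rw [abs_zero]
      exact hF0
  calc ∑ q ∈ Ioc Q (2 * Q), ∑ a ∈ Ioc a0 (a0 + A),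
        (∑ n ∈ (Icc 1 N).filter (fun n => n ≡ a [MOD q]), f n) ^ 2
      ≤ ∑ q ∈ Ioc Q (2 * Q), ∑ a ∈ Ioc a0 (a0 + A),
        (2 * Fm ^ 2 + 2 * (∑ k ∈ ks K, ft f N ((a : ℤ) + k * q)) ^ 2) := by
        refine sum_le_sum fun q hq => sum_le_sum fun a ha => ?_
        rw [mem_Ioc] at hq ha
        rw [Link_sum f N K Q q a hq.1 h1 (by omega)]
        have h3 : ft f N a ^ 2 ≤ Fm ^ 2 := sq_le_sq' (neg_le_of_abs_le (hft a)) (le_of_abs_le (hft a))
        nlinarith [sq_nonneg (ft f N a - ∑ k ∈ ks K, ft f N ((a : ℤ) + k * q))]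
    _ = 2 * Q * A * Fm ^ 2 + 2 * ∑ q ∈ Ioc Q (2 * Q), ∑ a ∈ Ioc (a0 : ℤ) (a0 + A),
          (∑ k ∈ ks K, ft f N (a + k * q)) ^ 2 := by
        simp only [hcast, sum_add_distrib, sum_const, Nat.card_Ioc, nsmul_eq_mul, ← mul_sum]
        have h3 : 2 * Q - Q = Q := by omega
        have h4 : a0 + A - a0 = A := by omega
        rw [h3, h4]
        ring

end Pool.Agent.H76.EHB

end

section

/-!
# PSI Chi: from characters to a residue class

`φ(d) cl d u f n = ∑_χ χ(u⁻¹) tw χ f n` for `(u, d) = 1` (orthogonality, cf. `VkClass_orth` in `Pool/Agent/H97/VK/VkClass.lean` or `swk1_orth`), `D` is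
linear, Cauchy-Schwarz: `|D(cl)|^2 ≤ (1/φ(d)) ∑_χ |D(tw χ f)|^2`.
-/

set_option autoImplicit false

namespace Pool.Agent.H88.PSI

open Finset

private theorem Chi_sum {ι : Type*} (s : Finset ι) (f : ι → ℕ → ℂ) (H H1 x : ℕ) :
    D (fun n => ∑ i ∈ s, f i n) H H1 x = ∑ i ∈ s, D (f i) H H1 x := by
  unfold D W
  rw [sum_sub_distrib, sum_comm, sum_div, sum_comm (s := Ioc x (x + H1)), sum_div]

private theorem Chi_smul (c : ℂ) (f : ℕ → ℂ) (H H1 x : ℕ) :
    D (fun n => c * f n) H H1 x = c * D f H H1 x := by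
  unfold D W
  rw [← mul_sum, ← mul_sum]
  ring

private theorem Chi_orth (f : ArithmeticFunction ℝ) {d u : ℕ} (hd : 1 ≤ d) (hu : Nat.Coprime u d)
    (n : ℕ) : (d.totient : ℂ) * cl d u f n =
      ∑ χ : DirichletCharacter ℂ d, χ ((u : ZMod d)⁻¹) * tw χ f n := by
  have : NeZero d := ⟨by omega⟩
  have hun : IsUnit (u : ZMod d) := (ZMod.isUnit_iff_coprime u d).mpr hu
  have h1 : ∀ χ : DirichletCharacter ℂ d,
      χ ((u : ZMod d)⁻¹) * tw χ f n = (χ ((u : ZMod d)⁻¹) * χ (n : ZMod d)) * ((f n : ℝ) : ℂ) := by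
    intro χ
    show χ ((u : ZMod d)⁻¹) * (((f n : ℝ) : ℂ) * χ (n : ZMod d)) = _
    ring
  simp only [h1]
  rw [← sum_mul, DirichletCharacter.sum_char_inv_mul_char_eq ℂ hun]
  have hiff : ((u : ZMod d) = (n : ZMod d)) ↔ n % d = u % d := by
    rw [eq_comm]
    exact ZMod.natCast_eq_natCast_iff' n u d
  unfold cl
  by_cases h : n % d = u % d
  · rw [if_pos h, if_pos (hiff.mpr h)]
  · rw [if_neg h, if_neg (fun h' => h (hiff.mp h')), mul_zero, zero_mul]

private theorem Chi_norm {d : ℕ} (χ : DirichletCharacter ℂ d) (a : ZMod d) : ‖χ a‖ ≤ 1 :=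
  DirichletCharacter.norm_le_one χ a

private theorem Chi_pt (f : ArithmeticFunction ℝ) {d u : ℕ} (H H1 x : ℕ) (hd : 1 ≤ d)
    (hu : Nat.Coprime u d) :
    (d.totient : ℝ) * ‖D (cl d u f) H H1 x‖ ^ 2 ≤
      ∑ χ : DirichletCharacter ℂ d, ‖D (tw χ f) H H1 x‖ ^ 2 := by
  have hne : NeZero d := ⟨by omega⟩
  have hφ : (0 : ℝ) < d.totient := by exact_mod_cast Nat.totient_pos.2 hd
  have h1 : (d.totient : ℂ) * D (cl d u f) H H1 x =
      ∑ χ : DirichletCharacter ℂ d, χ ((u : ZMod d)⁻¹) * D (tw χ f) H H1 x := by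
    rw [← Chi_smul]
    have e : (fun n => (d.totient : ℂ) * cl d u f n) =
        fun n => ∑ χ : DirichletCharacter ℂ d, χ ((u : ZMod d)⁻¹) * tw χ f n :=
      funext (Chi_orth f hd hu)
    rw [e, Chi_sum]
    refine sum_congr rfl fun χ _ => ?_
    exact Chi_smul _ _ _ _ _
  have h2 : (d.totient : ℝ) * ‖D (cl d u f) H H1 x‖ ≤
      ∑ χ : DirichletCharacter ℂ d, ‖D (tw χ f) H H1 x‖ := by
    have e : (d.totient : ℝ) * ‖D (cl d u f) H H1 x‖ =
        ‖(d.totient : ℂ) * D (cl d u f) H H1 x‖ := by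
      rw [norm_mul, Complex.norm_natCast]
    rw [e, h1]
    refine (norm_sum_le _ _).trans (sum_le_sum fun χ _ => ?_)
    rw [norm_mul]
    exact mul_le_of_le_one_left (norm_nonneg _) (Chi_norm χ _)
  have hcard : ((univ : Finset (DirichletCharacter ℂ d)).card : ℝ) = d.totient := by
    rw [card_univ, ← Nat.card_eq_fintype_card,
      DirichletCharacter.card_eq_totient_of_hasEnoughRootsOfUnity ℂ d]
  have h3 : (∑ χ : DirichletCharacter ℂ d, ‖D (tw χ f) H H1 x‖) ^ 2 ≤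
      (d.totient : ℝ) * ∑ χ : DirichletCharacter ℂ d, ‖D (tw χ f) H H1 x‖ ^ 2 := by
    rw [← hcard]
    exact sq_sum_le_card_mul_sum_sq
  have h4 : ((d.totient : ℝ) * ‖D (cl d u f) H H1 x‖) ^ 2 ≤
      (∑ χ : DirichletCharacter ℂ d, ‖D (tw χ f) H H1 x‖) ^ 2 :=
    pow_le_pow_left₀ (by positivity) h2 2
  have h5 : (d.totient : ℝ) * ((d.totient : ℝ) * ‖D (cl d u f) H H1 x‖ ^ 2) ≤
      (d.totient : ℝ) * ∑ χ : DirichletCharacter ℂ d, ‖D (tw χ f) H H1 x‖ ^ 2 := by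
    refine le_trans (le_of_eq ?_) (h4.trans h3)
    ring
  exact le_of_mul_le_mul_left h5 hφ

theorem chi_cl (f : ArithmeticFunction ℝ) (d u H H1 : ℕ) (S : Finset ℕ) (E : ℝ) (hd : 1 ≤ d)
    (hu : Nat.Coprime u d)
    (h : ∀ χ : DirichletCharacter ℂ d, ∑ x ∈ S, ‖D (tw χ f) H H1 x‖ ^ 2 ≤ E) :
    ∑ x ∈ S, ‖D (cl d u f) H H1 x‖ ^ 2 ≤ E := by
  have hne : NeZero d := ⟨by omega⟩
  have hφ : (0 : ℝ) < d.totient := by exact_mod_cast Nat.totient_pos.2 hd
  have hcard : ((univ : Finset (DirichletCharacter ℂ d)).card : ℝ) = d.totient := by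
    rw [card_univ, ← Nat.card_eq_fintype_card,
      DirichletCharacter.card_eq_totient_of_hasEnoughRootsOfUnity ℂ d]
  have h1 : (d.totient : ℝ) * ∑ x ∈ S, ‖D (cl d u f) H H1 x‖ ^ 2 ≤ (d.totient : ℝ) * E := by
    rw [mul_sum]
    calc ∑ x ∈ S, (d.totient : ℝ) * ‖D (cl d u f) H H1 x‖ ^ 2
        ≤ ∑ x ∈ S, ∑ χ : DirichletCharacter ℂ d, ‖D (tw χ f) H H1 x‖ ^ 2 :=
          sum_le_sum fun x _ => Chi_pt f H H1 x hd hu
      _ = ∑ χ : DirichletCharacter ℂ d, ∑ x ∈ S, ‖D (tw χ f) H H1 x‖ ^ 2 := sum_comm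
      _ ≤ ∑ χ : DirichletCharacter ℂ d, E := sum_le_sum fun χ _ => h χ
      _ = (d.totient : ℝ) * E := by rw [sum_const, nsmul_eq_mul, hcard]
  exact le_of_mul_le_mul_left h1 hφ

/-- `D` is additive -/
theorem d_sum {ι : Type*} (s : Finset ι) (f : ι → ℕ → ℂ) (H H1 x : ℕ) :
    D (fun n => ∑ i ∈ s, f i n) H H1 x = ∑ i ∈ s, D (f i) H H1 x :=
  Chi_sum s f H H1 x

theorem d_smul (c : ℂ) (f : ℕ → ℂ) (H H1 x : ℕ) :
    D (fun n => c * f n) H H1 x = c * D f H H1 x :=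
  Chi_smul c f H H1 x

end Pool.Agent.H88.PSI

end

section

/-!
# PSI Lon: long windows, type I

`em_abs`: `∑_{m ≤ x/k} |a m|/H1 ≤ 4 X^(13/24) Q/H1`; edge: `∑_zone |a m|/H1 ≤ Q (H1/k + 1)/H1`; and
`(∑_zone |a m|/m)^2 ≤ (1 + log 3X) ∑_zone |a m|^2/m`, `zone_sum`, `tau_momd`: `≤ 2 L H1 (20 L)^2 (1+log 3X)^(2^10) ≤ X L^(C - A1)`.
-/

set_option autoImplicit false

namespace Pool.Agent.H88.PSI

open Finset

private theorem Lon_ev (c : ℝ) (n : ℕ) (e : ℝ) (he : 0 < e) :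
    ∀ᶠ X : ℕ in Filter.atTop, c * Real.log X ^ n ≤ (X : ℝ) ^ e := by
  have h1 := isLittleO_log_rpow_rpow_atTop (s := e) (n : ℝ) he
  have hc : (0 : ℝ) < 1 / (|c| + 1) := by positivity
  have h2 := (tendsto_natCast_atTop_atTop (R := ℝ)).eventually (h1.bound hc)
  filter_upwards [h2, Filter.eventually_ge_atTop 1] with X hX hX1
  have hx1 : (1 : ℝ) ≤ X := by exact_mod_cast hX1
  have hl : 0 ≤ Real.log X := Real.log_nonneg hx1
  rw [Real.norm_of_nonneg (show (0 : ℝ) ≤ Real.log X ^ (n : ℝ) from Real.rpow_nonneg hl _),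
    Real.norm_of_nonneg (show (0 : ℝ) ≤ (X : ℝ) ^ e by positivity), Real.rpow_natCast] at hX
  have h3 : (|c| + 1) * Real.log X ^ n ≤ (X : ℝ) ^ e := by
    have := mul_le_mul_of_nonneg_left hX (show 0 ≤ |c| + 1 by positivity)
    calc (|c| + 1) * Real.log X ^ n ≤ (|c| + 1) * (1 / (|c| + 1) * (X : ℝ) ^ e) := this
      _ = (X : ℝ) ^ e := by field_simp
  refine le_trans (mul_le_mul_of_nonneg_right ?_ (by positivity)) h3
  linarith only [le_abs_self c]

/-- the divisor bound used -/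
private theorem Lon_Q : ∀ᶠ X : ℕ in Filter.atTop, ∀ m : ℕ, m ≤ 3 * X →
    20 * Real.log X * tau m ^ 5 ≤ (X : ℝ) ^ (1 / 1000 : ℝ) := by
  obtain ⟨C, hC, hτ⟩ := tau_eps (1 / 10000) (by norm_num)
  filter_upwards [Lon_ev (1920 * C ^ 5) 1 (1 / 2000) (by norm_num),
    Filter.eventually_ge_atTop 1] with X hX hX1 m hm
  have hx1 : (1 : ℝ) ≤ X := by exact_mod_cast hX1
  have hx0 : (0 : ℝ) < X := by linarith only [hx1]
  have hl : 0 ≤ Real.log X := Real.log_nonneg hx1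
  have hmr : (m : ℝ) ≤ 3 * X := by exact_mod_cast hm
  have h1 : (m : ℝ) ^ (1 / 10000 : ℝ) ≤ (3 * (X : ℝ)) ^ (1 / 10000 : ℝ) :=
    Real.rpow_le_rpow (Nat.cast_nonneg _) hmr (by norm_num)
  have h2 : (1 : ℝ) ≤ (3 * (X : ℝ)) ^ (1 / 10000 : ℝ) :=
    Real.one_le_rpow (by linarith only [hx1]) (by norm_num)
  have h3 : tau m ≤ 2 * C * (3 * (X : ℝ)) ^ (1 / 10000 : ℝ) := by
    have h4 := hτ m
    have h5 := mul_le_mul_of_nonneg_left h1 (show (0 : ℝ) ≤ C by linarith only [hC])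
    have h6 := mul_le_mul_of_nonneg_left h2 (show (0 : ℝ) ≤ C by linarith only [hC])
    linarith only [h4, h5, h6]
  have ht0 : 0 ≤ tau m := by unfold tau; positivity
  have h4 : tau m ^ 5 ≤ 96 * C ^ 5 * (X : ℝ) ^ (1 / 2000 : ℝ) := by
    calc tau m ^ 5 ≤ (2 * C * (3 * (X : ℝ)) ^ (1 / 10000 : ℝ)) ^ 5 :=
          pow_le_pow_left₀ ht0 h3 5
      _ = 32 * C ^ 5 * ((3 : ℝ) ^ (1 / 2000 : ℝ) * (X : ℝ) ^ (1 / 2000 : ℝ)) := by
          rw [mul_pow, ← Real.mul_rpow (by norm_num) hx0.le, ← Real.rpow_natCast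
            ((3 * (X : ℝ)) ^ (1 / 10000 : ℝ)), ← Real.rpow_mul (by positivity), mul_pow]
          norm_num
      _ ≤ 32 * C ^ 5 * (3 * (X : ℝ) ^ (1 / 2000 : ℝ)) := by
          refine mul_le_mul_of_nonneg_left (mul_le_mul_of_nonneg_right ?_ (by positivity))
            (by positivity)
          calc (3 : ℝ) ^ (1 / 2000 : ℝ) ≤ (3 : ℝ) ^ (1 : ℝ) :=
                Real.rpow_le_rpow_of_exponent_le (by norm_num) (by norm_num)
            _ = 3 := Real.rpow_one _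
      _ = 96 * C ^ 5 * (X : ℝ) ^ (1 / 2000 : ℝ) := by ring
  rw [pow_one] at hX
  calc 20 * Real.log X * tau m ^ 5 ≤ 20 * Real.log X * (96 * C ^ 5 * (X : ℝ) ^ (1 / 2000 : ℝ)) :=
        mul_le_mul_of_nonneg_left h4 (by positivity)
    _ = (1920 * C ^ 5 * Real.log X) * (X : ℝ) ^ (1 / 2000 : ℝ) := by ring
    _ ≤ (X : ℝ) ^ (1 / 2000 : ℝ) * (X : ℝ) ^ (1 / 2000 : ℝ) :=
        mul_le_mul_of_nonneg_right hX (by positivity)
    _ = (X : ℝ) ^ (1 / 1000 : ℝ) := by
        rw [← Real.rpow_add hx0]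
        norm_num

/-- pointwise bound of the difference -/
private theorem Lon_pt (d u H1 k X x : ℕ) (a : ArithmeticFunction ℝ) (Q : ℝ) (hd : 1 ≤ d)
    (hu : Nat.Coprime u d) (hk : 1 ≤ k) (hH1 : 1 ≤ H1) (hHX : H1 ≤ X) (hx : x ∈ Ico X (2 * X))
    (hQ : ∀ m ≤ 3 * X, |a m| ≤ Q) :
    ‖W (cl d u (hi 0 k * a)) H1 x / H1 - ((Bk a d k x : ℝ) : ℂ)‖ ≤
      ∑ m ∈ Ioc (x / k) ((x + H1) / k), |a m| / m +
        (Q / k + Q / H1 + 2 * X / k * Q / H1) := by
  rw [mem_Ico] at hx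
  have hH0 : (0 : ℝ) < H1 := by exact_mod_cast hH1
  have hk0 : (0 : ℝ) < k := by exact_mod_cast hk
  have hQ0 : 0 ≤ Q := (abs_nonneg _).trans (hQ 0 (Nat.zero_le _))
  have hxX : x ≤ 2 * X := hx.2.le
  set S : ℝ := ∑ m ∈ (Icc 1 (x / k)).filter (fun m => Nat.Coprime m d), a m * cnt d u H1 m x
    with hS
  set S' : ℝ := ∑ m ∈ (Icc 1 (x / k)).filter (fun m => Nat.Coprime m d), a m * em d u H1 m x
    with hS'
  have e1 := ti_edge a d u H1 k x hd hk hu
  have e2 := bk_eq a d u H1 k x hH1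
  rw [← hS, ← hS'] at e2
  rw [← hS] at e1
  have e3 : W (cl d u (hi 0 k * a)) H1 x / H1 - ((Bk a d k x : ℝ) : ℂ) =
      (W (cl d u (hi 0 k * a)) H1 x - ((S : ℝ) : ℂ)) / H1 + ((S' / H1 : ℝ) : ℂ) := by
    rw [← e2]
    push_cast
    ring
  rw [e3]
  refine (norm_add_le _ _).trans ?_
  have n1 : ‖(W (cl d u (hi 0 k * a)) H1 x - ((S : ℝ) : ℂ)) / H1‖ ≤
      ∑ m ∈ Ioc (x / k) ((x + H1) / k), |a m| / m + (Q / k + Q / H1) := by
    rw [norm_div, Complex.norm_natCast, div_le_iff₀ hH0]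
    refine e1.trans ?_
    have z1 : ∑ m ∈ Ioc (x / k) ((x + H1) / k), |a m| * ((H1 : ℝ) / m + 1) =
        (∑ m ∈ Ioc (x / k) ((x + H1) / k), |a m| / m) * H1 +
          ∑ m ∈ Ioc (x / k) ((x + H1) / k), |a m| := by
      rw [sum_mul, ← sum_add_distrib]
      exact sum_congr rfl fun m _ => by ring
    have z2 : ∑ m ∈ Ioc (x / k) ((x + H1) / k), |a m| ≤ ((H1 : ℝ) / k + 1) * Q := by
      have c1 : ∑ m ∈ Ioc (x / k) ((x + H1) / k), |a m| ≤
          ∑ m ∈ Ioc (x / k) ((x + H1) / k), Q := by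
        refine sum_le_sum fun m hm => hQ m ?_
        rw [mem_Ioc] at hm
        have := hm.2.trans (Nat.div_le_self _ _)
        omega
      rw [sum_const, nsmul_eq_mul, Nat.card_Ioc] at c1
      refine c1.trans (mul_le_mul_of_nonneg_right ?_ hQ0)
      have c2 : (x + H1) / k - x / k ≤ H1 / k + 1 := by
        have := Nat.add_div (a := x) (b := H1) (c := k) (by omega)
        rw [this]
        generalize x / k = q1
        generalize H1 / k = q2
        split_ifs <;> omega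
      have c3 : (((x + H1) / k - x / k : ℕ) : ℝ) ≤ ((H1 / k + 1 : ℕ) : ℝ) := by exact_mod_cast c2
      refine c3.trans ?_
      push_cast
      have := Nat.cast_div_le (α := ℝ) (m := H1) (n := k)
      linarith only [this]
    rw [z1]
    have z3 : ((∑ m ∈ Ioc (x / k) ((x + H1) / k), |a m| / m) + (Q / k + Q / H1)) * H1 =
        (∑ m ∈ Ioc (x / k) ((x + H1) / k), |a m| / m) * H1 + ((H1 : ℝ) / k + 1) * Q := by
      field_simp
    rw [z3]
    linarith only [z2]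
  have n2 : ‖((S' / H1 : ℝ) : ℂ)‖ ≤ 2 * X / k * Q / H1 := by
    rw [Complex.norm_real, norm_div, Real.norm_eq_abs, Real.norm_of_nonneg hH0.le]
    refine div_le_div_of_nonneg_right ?_ hH0.le
    rw [hS']
    refine (abs_sum_le_sum_abs _ _).trans ?_
    have c1 : ∑ m ∈ (Icc 1 (x / k)).filter (fun m => Nat.Coprime m d), |a m * em d u H1 m x| ≤
        ∑ m ∈ (Icc 1 (x / k)).filter (fun m => Nat.Coprime m d), Q := by
      refine sum_le_sum fun m hm => ?_
      rw [mem_filter, mem_Icc] at hm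
      rw [abs_mul]
      have hmX : m ≤ 3 * X := by
        have := hm.1.2.trans (Nat.div_le_self _ _)
        omega
      calc |a m| * |em d u H1 m x| ≤ Q * 1 :=
            mul_le_mul (hQ m hmX) (em_abs d u H1 m x hd hm.1.1 hm.2) (abs_nonneg _) hQ0
        _ = Q := mul_one _
    refine c1.trans ?_
    rw [sum_const, nsmul_eq_mul]
    refine mul_le_mul_of_nonneg_right ?_ hQ0
    have c2 : ((Icc 1 (x / k)).filter (fun m => Nat.Coprime m d)).card ≤ x / k := by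
      refine (card_filter_le _ _).trans ?_
      rw [Nat.card_Icc]
      exact (Nat.add_sub_cancel (x / k) 1).le
    have c3 : (((Icc 1 (x / k)).filter (fun m => Nat.Coprime m d)).card : ℝ) ≤ ((x / k : ℕ) : ℝ) := by
      exact_mod_cast c2
    refine c3.trans (Nat.cast_div_le.trans ?_)
    refine div_le_div_of_nonneg_right ?_ hk0.le
    exact_mod_cast hxX
  linarith only [n1, n2]

theorem ti_long (A B : ℕ) : ∃ A0 : ℕ, ∀ A1 : ℕ, A0 ≤ A1 → ∃ X0 : ℕ, ∀ X : ℕ, X0 ≤ X →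
    ∀ (d u H1 k : ℕ) (a : ArithmeticFunction ℝ), 1 ≤ d → (d : ℝ) ≤ Real.log X ^ B → Nat.Coprime u d →
    H1 = ⌊X / Real.log X ^ A1⌋₊ →
    (X : ℝ) ^ (11 / 24 : ℝ) / 2 ≤ k → (∀ m, |a m| ≤ 20 * Real.log X * tau m ^ 5) →
    ∑ x ∈ Ico X (2 * X), ‖W (cl d u (hi 0 k * a)) H1 x / H1 - ((Bk a d k x : ℝ) : ℂ)‖ ^ 2
      ≤ X / Real.log X ^ A := by
  refine ⟨A + (2 ^ 10 + 4), fun A1 hA1 => ?_⟩
  rw [← Filter.eventually_atTop]
  have htm : ∀ n : ℕ, ∑ m ∈ Icc 1 n, tau m ^ 10 / m ≤ (1 + Real.log n) ^ (2 ^ 10) :=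
    fun n => tau_momd 10 n
  generalize (2 ^ 10 : ℕ) = N at htm hA1
  obtain ⟨K3, hK3, hK30⟩ : ∃ K3 : ℝ, (∀ t : ℝ, (3 * t) ^ (N + 1) = K3 * t ^ (N + 1)) ∧ 0 < K3 :=
    ⟨3 ^ (N + 1), fun t => mul_pow 3 t (N + 1), by positivity⟩
  have hL : ∀ c : ℝ, ∀ᶠ X : ℕ in Filter.atTop, c ≤ Real.log X := fun c =>
    (Real.tendsto_log_atTop.comp (tendsto_natCast_atTop_atTop (R := ℝ))).eventually_ge_atTop c
  filter_upwards [Lon_Q, hL (1600 * K3 + 2), Lon_ev 2 A1 1 one_pos,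
    Lon_ev 12 A1 (1 / 10) (by norm_num), Lon_ev 4 A (1 / 2) (by norm_num),
    Filter.eventually_ge_atTop 1] with X hQ hL1 hX1 hX2 hX3 hXge d u H1 k a hd hdB hu hH1 hk ha
  have hx1 : (1 : ℝ) ≤ X := by exact_mod_cast hXge
  have hx0 : (0 : ℝ) < X := by linarith only [hx1]
  set L : ℝ := Real.log X with hLdef
  have hL2 : 2 ≤ L := by linarith only [hK30, hL1]
  have hL0 : 0 < L := by linarith only [hK30, hL1]
  set Q : ℝ := (X : ℝ) ^ (1 / 1000 : ℝ) with hQdef
  have hQ0 : 0 < Q := by positivity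
  have haQ : ∀ m ≤ 3 * X, |a m| ≤ Q := fun m hm => (ha m).trans (hQ m hm)
  -- `H1`
  have hLA : 1 ≤ L ^ A1 := one_le_pow₀ (by linarith only [hK30, hL1])
  rw [Real.rpow_one] at hX1
  have hq2 : 2 ≤ X / L ^ A1 := by
    rw [le_div_iff₀ (by positivity)]
    exact hX1
  have hH1le : (H1 : ℝ) ≤ X / L ^ A1 := by
    rw [hH1]
    exact Nat.floor_le (by positivity)
  have hH1ge : X / (2 * L ^ A1) ≤ (H1 : ℝ) := by
    have h1 : X / L ^ A1 < (H1 : ℝ) + 1 := by
      rw [hH1]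
      exact Nat.lt_floor_add_one _
    have h2 : X / (2 * L ^ A1) = (X / L ^ A1) / 2 := by ring
    rw [h2]
    linarith only [hq2, h1]
  have hH1pos : (0 : ℝ) < H1 := lt_of_lt_of_le (by positivity) hH1ge
  have hH1one : 1 ≤ H1 := by
    have : 0 < H1 := by exact_mod_cast hH1pos
    omega
  have hHX : H1 ≤ X := by
    have : (H1 : ℝ) ≤ X := hH1le.trans (div_le_self hx0.le hLA)
    exact_mod_cast this
  have hkpos : (0 : ℝ) < k := lt_of_lt_of_le (by positivity) hk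
  have hkone : 1 ≤ k := by
    have : 0 < k := by exact_mod_cast hkpos
    omega
  -- the constant part
  set R : ℝ := Q / k + Q / H1 + 2 * X / k * Q / H1 with hR
  have hR0 : 0 ≤ R := by positivity
  have hRle : R ≤ (X : ℝ) ^ (-(1 / 4) : ℝ) := by
    have k1 : 1 / (k : ℝ) ≤ 2 * (X : ℝ) ^ (-(11 / 24) : ℝ) := by
      rw [div_le_iff₀ hkpos, Real.rpow_neg hx0.le]
      have hp : (0 : ℝ) < (X : ℝ) ^ (11 / 24 : ℝ) := by positivity
      calc (1 : ℝ) = 2 * ((X : ℝ) ^ (11 / 24 : ℝ))⁻¹ * ((X : ℝ) ^ (11 / 24 : ℝ) / 2) := by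
            field_simp
        _ ≤ _ := mul_le_mul_of_nonneg_left hk (by positivity)
    have k2 : 1 / (H1 : ℝ) ≤ 2 * L ^ A1 / X := by
      rw [div_le_div_iff₀ hH1pos hx0]
      rw [div_le_iff₀ (by positivity)] at hH1ge
      linarith only [hH1ge]
    have s1 : Q / k ≤ 2 * ((X : ℝ) ^ (-(11 / 24) : ℝ) * Q) := by
      have := mul_le_mul_of_nonneg_left k1 hQ0.le
      calc Q / k = Q * (1 / k) := by ring
        _ ≤ _ := this
        _ = _ := by ring
    have s2 : Q / H1 ≤ 2 * L ^ A1 * ((X : ℝ) ^ (-1 : ℝ) * Q) := by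
      have := mul_le_mul_of_nonneg_left k2 hQ0.le
      calc Q / H1 = Q * (1 / H1) := by ring
        _ ≤ _ := this
        _ = _ := by rw [Real.rpow_neg_one]; ring
    have s3 : 2 * X / k * Q / H1 ≤ 8 * L ^ A1 * ((X : ℝ) ^ (-(11 / 24) : ℝ) * Q) := by
      calc 2 * X / k * Q / H1 = 2 * X * Q * ((1 / k) * (1 / H1)) := by ring
        _ ≤ 2 * X * Q * ((2 * (X : ℝ) ^ (-(11 / 24) : ℝ)) * (2 * L ^ A1 / X)) :=
            mul_le_mul_of_nonneg_left (mul_le_mul k1 k2 (by positivity) (by positivity))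
              (by positivity)
        _ = _ := by field_simp; ring
    have t1 : (X : ℝ) ^ (-1 : ℝ) * Q ≤ (X : ℝ) ^ (-(11 / 24) : ℝ) * Q :=
      mul_le_mul_of_nonneg_right (Real.rpow_le_rpow_of_exponent_le hx1 (by norm_num)) hQ0.le
    have t2 : (X : ℝ) ^ (-(11 / 24) : ℝ) * Q ≤ (X : ℝ) ^ (-(7 / 20) : ℝ) := by
      rw [hQdef, ← Real.rpow_add hx0]
      exact Real.rpow_le_rpow_of_exponent_le hx1 (by norm_num)
    have t3 : R ≤ 12 * L ^ A1 * (X : ℝ) ^ (-(7 / 20) : ℝ) := by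
      have u0 : 0 ≤ (X : ℝ) ^ (-(11 / 24) : ℝ) * Q := by positivity
      have u1 : 2 * ((X : ℝ) ^ (-(11 / 24) : ℝ) * Q) ≤
          2 * L ^ A1 * ((X : ℝ) ^ (-(11 / 24) : ℝ) * Q) := by
        nlinarith only [hLA, u0, mul_le_mul_of_nonneg_right hLA u0]
      have u2 : 2 * L ^ A1 * ((X : ℝ) ^ (-1 : ℝ) * Q) ≤
          2 * L ^ A1 * ((X : ℝ) ^ (-(11 / 24) : ℝ) * Q) :=
        mul_le_mul_of_nonneg_left t1 (by positivity)
      have u3 : 12 * L ^ A1 * ((X : ℝ) ^ (-(11 / 24) : ℝ) * Q) ≤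
          12 * L ^ A1 * (X : ℝ) ^ (-(7 / 20) : ℝ) :=
        mul_le_mul_of_nonneg_left t2 (by positivity)
      rw [hR]
      linarith only [s1, s2, s3, u1, u2, u3]
    refine t3.trans ?_
    calc 12 * L ^ A1 * (X : ℝ) ^ (-(7 / 20) : ℝ) ≤
        (X : ℝ) ^ (1 / 10 : ℝ) * (X : ℝ) ^ (-(7 / 20) : ℝ) :=
          mul_le_mul_of_nonneg_right hX2 (by positivity)
      _ = (X : ℝ) ^ (-(1 / 4) : ℝ) := by
          rw [← Real.rpow_add hx0]
          norm_num
  -- the zone part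
  set T : ℕ → ℝ := fun x => ∑ m ∈ Ioc (x / k) ((x + H1) / k), |a m| / m with hT
  have hT0 : ∀ x, 0 ≤ T x := fun x => sum_nonneg fun m _ => by positivity
  set ℓ : ℝ := 1 + Real.log ((3 * X : ℕ) : ℝ) with hℓ
  have hℓ1 : ℓ ≤ 3 * L := by
    rw [hℓ]
    push_cast
    rw [Real.log_mul (by norm_num) hx0.ne']
    have : Real.log 3 ≤ 2 := by
      have := Real.log_le_sub_one_of_pos (show (0 : ℝ) < 3 by norm_num)
      linarith only [this]
    linarith only [hK30, hL1, this]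
  have hℓ0 : 0 ≤ ℓ := by
    have : 0 ≤ Real.log ((3 * X : ℕ) : ℝ) := Real.log_natCast_nonneg _
    linarith only [this]
  have hTsq : ∀ x ∈ Ico X (2 * X), T x ^ 2 ≤
      ℓ * ∑ m ∈ Ioc (x / k) ((x + H1) / k), |a m| ^ 2 / m := by
    intro x hx
    rw [mem_Ico] at hx
    have c1 : T x ^ 2 ≤ (∑ m ∈ Ioc (x / k) ((x + H1) / k), 1 / (m : ℝ)) *
        ∑ m ∈ Ioc (x / k) ((x + H1) / k), |a m| ^ 2 / m := by
      refine sum_sq_le_sum_mul_sum_of_sq_le_mul _ (fun m _ => by positivity)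
        (fun m _ => by positivity) (fun m _ => ?_)
      rw [div_pow, div_mul_div_comm, one_mul, ← pow_two]
    refine c1.trans (mul_le_mul_of_nonneg_right ?_ (sum_nonneg fun m _ => by positivity))
    have c2 := tau_momd 0 (3 * X)
    simp only [pow_zero, pow_one] at c2
    refine le_trans (sum_le_sum_of_subset_of_nonneg ?_ fun m _ _ => by positivity) c2
    intro m hm
    rw [mem_Ioc] at hm
    rw [mem_Icc]
    have := hm.2.trans (Nat.div_le_self _ _)
    exact ⟨lt_of_le_of_lt (Nat.zero_le _) hm.1, by omega⟩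
  have hTsum : ∑ x ∈ Ico X (2 * X), T x ^ 2 ≤ ℓ * (H1 * (400 * L ^ 2 * ℓ ^ N)) := by
    refine (sum_le_sum hTsq).trans ?_
    rw [← mul_sum]
    refine mul_le_mul_of_nonneg_left ?_ hℓ0
    refine (zone_sum X H1 k hkone hXge hHX (fun m => |a m| ^ 2 / m)
      (fun m => by positivity)).trans ?_
    refine mul_le_mul_of_nonneg_left ?_ (Nat.cast_nonneg _)
    calc ∑ m ∈ Icc 1 (3 * X), |a m| ^ 2 / (m : ℝ) ≤
        ∑ m ∈ Icc 1 (3 * X), 400 * L ^ 2 * (tau m ^ 10 / m) := by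
          refine sum_le_sum fun m _ => ?_
          rw [mul_div_assoc']
          refine div_le_div_of_nonneg_right ?_ (Nat.cast_nonneg _)
          calc |a m| ^ 2 ≤ (20 * L * tau m ^ 5) ^ 2 :=
                pow_le_pow_left₀ (abs_nonneg _) (ha m) 2
            _ = 400 * L ^ 2 * tau m ^ 10 := by ring
      _ = 400 * L ^ 2 * ∑ m ∈ Icc 1 (3 * X), tau m ^ 10 / m := by rw [mul_sum]
      _ ≤ 400 * L ^ 2 * ℓ ^ N := by
          refine mul_le_mul_of_nonneg_left ?_ (by positivity)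
          exact htm (3 * X)
  have hTfin : 2 * ∑ x ∈ Ico X (2 * X), T x ^ 2 ≤ X / L ^ A / 2 := by
    have c1 : ℓ * (H1 * (400 * L ^ 2 * ℓ ^ N)) ≤ X / L ^ A1 * (400 * K3 * L ^ (N + 3)) := by
      calc ℓ * (H1 * (400 * L ^ 2 * ℓ ^ N)) = H1 * (400 * L ^ 2 * ℓ ^ (N + 1)) := by ring
        _ ≤ X / L ^ A1 * (400 * L ^ 2 * (3 * L) ^ (N + 1)) := by
            refine mul_le_mul hH1le ?_ (by positivity) (by positivity)
            exact mul_le_mul_of_nonneg_left (pow_le_pow_left₀ hℓ0 hℓ1 _) (by positivity)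
        _ = X / L ^ A1 * (400 * K3 * L ^ (N + 3)) := by
            rw [hK3]
            ring
    have c2 : L ^ (A + (N + 4)) ≤ L ^ A1 := pow_le_pow_right₀ (by linarith only [hK30, hL1]) hA1
    have c3 : X / L ^ A1 * (400 * K3 * L ^ (N + 3)) ≤ X / L ^ A / 4 := by
      calc X / L ^ A1 * (400 * K3 * L ^ (N + 3)) ≤
          X / L ^ (A + (N + 4)) * (400 * K3 * L ^ (N + 3)) :=
            mul_le_mul_of_nonneg_right
              (div_le_div_of_nonneg_left hx0.le (by positivity) c2) (by positivity)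
        _ = X / L ^ A * ((400 * K3) / L) := by
            rw [pow_add, show N + 4 = (N + 3) + 1 from rfl, pow_succ L (N + 3)]
            field_simp
        _ ≤ X / L ^ A * (1 / 4) := by
            refine mul_le_mul_of_nonneg_left ?_ (by positivity)
            rw [div_le_div_iff₀ hL0 (by norm_num)]
            linarith only [hL1]
        _ = X / L ^ A / 4 := by ring
    have := hTsum.trans (c1.trans c3)
    linarith only [hTsum, c1, c3]
  have hRfin : 2 * (X * R ^ 2) ≤ X / L ^ A / 2 := by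
    have c1 : R ^ 2 ≤ (X : ℝ) ^ (-(1 / 2) : ℝ) := by
      calc R ^ 2 ≤ ((X : ℝ) ^ (-(1 / 4) : ℝ)) ^ 2 := pow_le_pow_left₀ hR0 hRle 2
        _ = (X : ℝ) ^ (-(1 / 2) : ℝ) := by
            rw [← Real.rpow_natCast, ← Real.rpow_mul hx0.le]
            norm_num
    have c2 : (X : ℝ) ^ (-(1 / 2) : ℝ) ≤ 1 / (4 * L ^ A) := by
      rw [Real.rpow_neg hx0.le, inv_eq_one_div]
      exact one_div_le_one_div_of_le (by positivity) hX3
    calc 2 * (X * R ^ 2) ≤ 2 * (X * (1 / (4 * L ^ A))) := by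
          have := mul_le_mul_of_nonneg_left (c1.trans c2) hx0.le
          linarith only [this]
      _ = X / L ^ A / 2 := by field_simp; ring
  -- assembly
  calc ∑ x ∈ Ico X (2 * X), ‖W (cl d u (hi 0 k * a)) H1 x / H1 - ((Bk a d k x : ℝ) : ℂ)‖ ^ 2 ≤
      ∑ x ∈ Ico X (2 * X), (2 * T x ^ 2 + 2 * R ^ 2) := by
        refine sum_le_sum fun x hx => ?_
        have h1 := Lon_pt d u H1 k X x a Q hd hu hkone hH1one hHX hx haQ
        have h2 : ‖W (cl d u (hi 0 k * a)) H1 x / H1 - ((Bk a d k x : ℝ) : ℂ)‖ ^ 2 ≤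
            (T x + R) ^ 2 := pow_le_pow_left₀ (norm_nonneg _) h1 2
        nlinarith only [h2, sq_nonneg (T x - R)]
    _ = 2 * ∑ x ∈ Ico X (2 * X), T x ^ 2 + 2 * (X * R ^ 2) := by
        rw [sum_add_distrib, ← mul_sum, sum_const, nsmul_eq_mul, Nat.card_Ico]
        have : 2 * X - X = X := by omega
        rw [this]
        ring
    _ ≤ X / L ^ A := by linarith only [hTfin, hRfin]

end Pool.Agent.H88.PSI

end

section

set_option autoImplicit false

namespace Pool.Agent.H97.VK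

open Finset
open Pool.Agent.H91.PK (ee)

/-- the statement of `jv_eight` -/
def jv_eight_P : Prop :=
    ∃ C : ℝ, 1 ≤ C ∧ ∀ k M : ℕ, 2 ≤ k → 1 ≤ M →
    (JV k (8 * k ^ 2) M : ℝ) ≤ (C * k) ^ (C * k ^ 3) *
      (M : ℝ) ^ (16 * (k : ℝ) ^ 2 - (k : ℝ) * (k + 1) / 2 + (k : ℝ) ^ 2 / 1000)

/-- the statement of `vexp` -/
def vexp_P : Prop :=
    ∃ c C : ℝ, 0 < c ∧ 1 ≤ C ∧ ∀ (κ N a b : ℕ) (β t : ℝ), 4 ≤ κ → (C * κ) ^ C ≤ N →
    N ≤ a → b ≤ 2 * N → 0 ≤ β → β ≤ 1 → (N : ℝ) ^ (4 * κ - 4) ≤ |t| → |t| ≤ (N : ℝ) ^ (4 * κ) →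
    ‖∑ n ∈ Ioc a b, ee (t * Real.log (n + β))‖ ≤ C * (N : ℝ) ^ (1 - c / (κ : ℝ) ^ 2)

end Pool.Agent.H97.VK

end

section

/-!
# VK Fou: counting with exponential sums on a finite grid

Proofs.  `fs_orth`: the sum is the product over `j` of the geometric sums `∑_{a < Q} ee(a v_j / Q)` (`Finset.prod_univ_sum`), each is `Q` if
`Q ∣ v_j`, else `0`.
`fs_count`: expand the right side, `fs_orth` for `v = φ x - ψ y - h`; by `hb` divisibility of `v_j` by `Q` means `v_j = 0`.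
`fs_pow`: `FS` of the power set with `∑ pv` is the product (`Finset.prod_univ_sum` / `Fintype.piFinset`), `pv` of `u : Fin s → ℕ` is the sum of the
values of the single coordinates.
`shift_le`: Cauchy's inequality (either with `fs_count`, `Q` large, or directly: with `r(v) = #{x ∈ X : φ x = v}` the left side is `∑ r(v) r(v - h)`).
`sc_class`: `SC` is `(1/Q^k) ∑_α |FS W φ|^2 |f|^{2s}`, `f = FS A`, `f = ∑_{b < p} f_b`; Hölder (`inner_le_nnorm_mul_nnorm` or
`Real.pow_arith_mean_le_arith_mean_pow`, Mathlib `inner_mul_le_norm_mul_norm`, `Finset.sum_pow_le ...`): `|∑_b f_b|^{2s} ≤ p^{2s-1} ∑_b |f_b|^{2s}`.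
(`W` and `A` are finite, so some `Q` satisfies the bounds needed in `fs_count`.)
`jv_mono`, `jv_two`: `JV k (s + r) M ≤ M^{2r} JV k s M` (`|f| ≤ M`, or fix the last `r` coordinates of both tuples and use `shift_le`).
-/

set_option autoImplicit false

namespace Pool.Agent.H97.VK

open Finset
open Pool.Agent.H91.PK (ee)

private theorem ee_add' (s t : ℝ) : ee (s + t) = ee s * ee t :=
  Pool.Agent.H91.PK.LSa_ee_add s t

private theorem ee_zero' : ee 0 = 1 := by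
  simp [ee]

private theorem ee_sum' {ι : Type*} (s : Finset ι) (f : ι → ℝ) :
    ee (∑ i ∈ s, f i) = ∏ i ∈ s, ee (f i) := by
  classical
  induction s using Finset.induction_on with
  | empty => simp [ee_zero']
  | insert a s ha ih => rw [sum_insert ha, prod_insert ha, ee_add', ih]

private theorem ee_nsmul' (n : ℕ) (t : ℝ) : ee ((n : ℝ) * t) = ee t ^ n := by
  induction n with
  | zero => simp [ee_zero']
  | succ n ih => rw [pow_succ, ← ih, ← ee_add']; congr 1; push_cast; ring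

private theorem ee_eq_one_iff' (t : ℝ) : ee t = 1 ↔ ∃ n : ℤ, t = n := by
  unfold ee
  rw [Complex.exp_eq_one_iff]
  constructor
  · rintro ⟨n, hn⟩
    refine ⟨n, ?_⟩
    have h2 : (2 * (Real.pi : ℂ) * Complex.I) ≠ 0 := by
      simp [Real.pi_ne_zero, Complex.I_ne_zero]
    have h3 : (t : ℂ) * (2 * (Real.pi : ℂ) * Complex.I) = n * (2 * (Real.pi : ℂ) * Complex.I) := by
      rw [← hn]; ring
    have h4 := mul_right_cancel₀ h2 h3
    exact_mod_cast h4
  · rintro ⟨n, rfl⟩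
    exact ⟨n, by push_cast; ring⟩

private theorem geom' (Q : ℕ) (hQ : 1 ≤ Q) (v : ℤ) :
    ∑ a ∈ range Q, ee ((a : ℝ) * (v : ℝ) / Q) = if (Q : ℤ) ∣ v then (Q : ℂ) else 0 := by
  have hQ0 : (Q : ℝ) ≠ 0 := by positivity
  have h1 : ∀ a : ℕ, ee ((a : ℝ) * (v : ℝ) / Q) = ee ((v : ℝ) / Q) ^ a := by
    intro a
    rw [← ee_nsmul']
    congr 1
    ring
  simp_rw [h1]
  by_cases hd : (Q : ℤ) ∣ v
  · rw [if_pos hd]
    obtain ⟨m, rfl⟩ := hd
    have : ee ((((Q : ℤ) * m : ℤ) : ℝ) / Q) = 1 := by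
      rw [ee_eq_one_iff']
      refine ⟨m, ?_⟩
      push_cast
      field_simp
    rw [this]
    simp
  · rw [if_neg hd]
    have hne : ee ((v : ℝ) / Q) ≠ 1 := by
      rw [Ne, ee_eq_one_iff']
      rintro ⟨n, hn⟩
      apply hd
      refine ⟨n, ?_⟩
      rw [div_eq_iff hQ0] at hn
      have : (v : ℝ) = ((Q * n : ℤ) : ℝ) := by rw [hn]; push_cast; ring
      exact_mod_cast this
    have h3 := geom_sum_mul (ee ((v : ℝ) / Q)) Q
    have h4 : ee ((v : ℝ) / Q) ^ Q = 1 := by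
      rw [← ee_nsmul', ee_eq_one_iff']
      exact ⟨v, by field_simp⟩
    rw [h4, sub_self] at h3
    rcases mul_eq_zero.1 h3 with h | h
    · exact h
    · exact absurd (sub_eq_zero.1 h) hne

theorem fs_orth (k Q : ℕ) (hQ : 1 ≤ Q) (v : Fin k → ℤ) :
    ∑ α ∈ grid k Q, ee ((∑ j, (α j : ℝ) * (v j : ℝ)) / Q) = if ∀ j, (Q : ℤ) ∣ v j then ((Q : ℂ) ^ k) else 0 := by
  have h1 : ∀ α : Fin k → ℕ, ee ((∑ j, (α j : ℝ) * (v j : ℝ)) / Q) =
      ∏ j, ee ((α j : ℝ) * (v j : ℝ) / Q) := by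
    intro α
    rw [sum_div, ee_sum']
  simp_rw [h1]
  unfold grid
  rw [← Finset.prod_univ_sum (fun _ => range Q) (fun (j : Fin k) (a : ℕ) => ee ((a : ℝ) * (v j : ℝ) / Q))]
  simp_rw [geom' Q hQ]
  by_cases hd : ∀ j, (Q : ℤ) ∣ v j
  · rw [if_pos hd]
    rw [prod_congr rfl (fun j _ => if_pos (hd j))]
    simp
  · rw [if_neg hd]
    push Not at hd
    obtain ⟨j, hj⟩ := hd
    exact prod_eq_zero (mem_univ j) (if_neg hj)

theorem fs_count {ι κ : Type} {k : ℕ} (X : Finset ι) (Y : Finset κ) (φ : ι → Fin k → ℤ)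
    (ψ : κ → Fin k → ℤ) (h : Fin k → ℤ) (Q : ℕ) (hQ : 1 ≤ Q)
    (hb : ∀ x ∈ X, ∀ y ∈ Y, ∀ j, |φ x j - ψ y j - h j| < Q) :
    ((((X ×ˢ Y).filter (fun w => ∀ j, φ w.1 j = ψ w.2 j + h j)).card : ℕ) : ℂ) =
      (1 / (Q : ℂ) ^ k) * ∑ α ∈ grid k Q, FS X φ Q α * (starRingEnd ℂ) (FS Y ψ Q α) *
        ee (-(∑ j, (α j : ℝ) * (h j : ℝ)) / Q) := by
  have hQ0 : (Q : ℂ) ^ k ≠ 0 := by
    apply pow_ne_zero
    have : (Q : ℂ) ≠ 0 := by exact_mod_cast (by omega : Q ≠ 0)
    exact this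
  have key : ∀ α : Fin k → ℕ, FS X φ Q α * (starRingEnd ℂ) (FS Y ψ Q α) *
        ee (-(∑ j, (α j : ℝ) * (h j : ℝ)) / Q) =
      ∑ w ∈ X ×ˢ Y, ee ((∑ j, (α j : ℝ) * (((φ w.1 j - ψ w.2 j - h j : ℤ)) : ℝ)) / Q) := by
    intro α
    unfold FS
    rw [map_sum, sum_mul_sum, ← sum_product', sum_mul]
    apply sum_congr rfl
    intro w _
    rw [Pool.Agent.H91.PK.LSa_conj_ee, ← ee_add', ← ee_add']
    congr 1
    rw [← neg_div, ← add_div, ← add_div]
    congr 1
    rw [← sum_neg_distrib, ← sum_neg_distrib, ← sum_add_distrib, ← sum_add_distrib]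
    apply sum_congr rfl
    intro j _
    push_cast
    ring
  simp_rw [key]
  rw [sum_comm]
  simp_rw [fs_orth k Q hQ]
  rw [card_filter]
  push_cast
  rw [mul_sum]
  apply sum_congr rfl
  intro w hw
  rw [mem_product] at hw
  have hiff : (∀ j, (Q : ℤ) ∣ φ w.1 j - ψ w.2 j - h j) ↔ (∀ j, φ w.1 j = ψ w.2 j + h j) := by
    constructor
    · intro hd j
      have h1 := Int.eq_zero_of_abs_lt_dvd (hd j) (hb w.1 hw.1 w.2 hw.2 j)
      omega
    · intro he j
      have : φ w.1 j - ψ w.2 j - h j = 0 := by rw [he j]; ring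
      rw [this]
      exact dvd_zero _
  by_cases hc : ∀ j, φ w.1 j = ψ w.2 j + h j
  · rw [if_pos hc, if_pos (hiff.2 hc)]
    field_simp
  · rw [if_neg hc, if_neg (fun h => hc (hiff.1 h))]
    simp

theorem fs_pow (k s Q : ℕ) (A : Finset ℕ) (α : Fin k → ℕ) :
    FS (Fintype.piFinset (fun _ : Fin s => A)) (pv k) Q α =
      (∑ n ∈ A, ee ((∑ j : Fin k, (α j : ℝ) * (n : ℝ) ^ ((j : ℕ) + 1)) / Q)) ^ s := by
  unfold FS
  have h1 : ∀ x : Fin s → ℕ, ee ((∑ j, (α j : ℝ) * ((pv k x j : ℤ) : ℝ)) / Q) =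
      ∏ i, ee ((∑ j : Fin k, (α j : ℝ) * (x i : ℝ) ^ ((j : ℕ) + 1)) / Q) := by
    intro x
    rw [← ee_sum']
    congr 1
    rw [← sum_div]
    congr 1
    rw [sum_comm]
    apply sum_congr rfl
    intro j _
    rw [← mul_sum]
    congr 1
    unfold pv
    push_cast
    rfl
  simp_rw [h1]
  rw [← Finset.prod_univ_sum (fun _ : Fin s => A) (fun (_ : Fin s) (n : ℕ) =>
    ee ((∑ j : Fin k, (α j : ℝ) * (n : ℝ) ^ ((j : ℕ) + 1)) / Q))]
  simp

theorem shift_le {ι : Type} {k : ℕ} (X : Finset ι) (φ : ι → Fin k → ℤ) (h : Fin k → ℤ) :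
    ((X ×ˢ X).filter (fun w => ∀ j, φ w.1 j = φ w.2 j + h j)).card ≤
      ((X ×ˢ X).filter (fun w => ∀ j, φ w.1 j = φ w.2 j)).card := by
  classical
  -- r(v) = # {x ∈ X : φ x = v}
  set r : (Fin k → ℤ) → ℕ := fun v => (X.filter (fun x => φ x = v)).card with hr
  set V : Finset (Fin k → ℤ) := X.image φ ∪ X.image (fun x => φ x + h) with hV
  have hsum : ∀ g : Fin k → ℤ, (∀ x ∈ X, φ x + g ∈ V) →
      ((X ×ˢ X).filter (fun w => ∀ j, φ w.1 j = φ w.2 j + g j)).card =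
        ∑ v ∈ V, r v * r (v - g) := by
    intro g hg
    rw [card_eq_sum_card_fiberwise (f := fun w => φ w.2 + g) (t := V)]
    · apply sum_congr rfl
      intro v _
      rw [hr]
      simp only
      rw [← card_product]
      congr 1
      ext w
      simp only [mem_filter, mem_product]
      constructor
      · rintro ⟨⟨⟨h1, h2⟩, h3⟩, h4⟩
        refine ⟨⟨h1, ?_⟩, h2, ?_⟩
        · rw [← h4]; funext j; exact h3 j
        · rw [← h4]; simp
      · rintro ⟨⟨h1, h2⟩, h3, h4⟩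
        refine ⟨⟨⟨h1, h3⟩, ?_⟩, ?_⟩
        · intro j
          rw [h2, h4]; simp
        · rw [h4]; simp
    · intro w hw
      rw [mem_coe, mem_filter, mem_product] at hw
      exact hg _ hw.1.2
  have e1 := hsum h (fun x hx => by
    rw [hV, mem_union]; right; exact mem_image.2 ⟨x, hx, rfl⟩)
  have e0 := hsum 0 (fun x hx => by
    rw [hV, mem_union, add_zero]; left; exact mem_image.2 ⟨x, hx, rfl⟩)
  have e0' : ((X ×ˢ X).filter (fun w => ∀ j, φ w.1 j = φ w.2 j)).card =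
        ∑ v ∈ V, r v * r v := by
    simpa using e0
  rw [e1, e0']
  have hshift : ∑ v ∈ V, r (v - h) ^ 2 ≤ ∑ v ∈ V, r v ^ 2 := by
    -- support of r is image φ
    have hs : ∀ v, r v ≠ 0 → v ∈ X.image φ := by
      intro v hv
      rw [hr] at hv
      simp only at hv
      obtain ⟨x, hx⟩ := card_pos.1 (Nat.pos_of_ne_zero hv)
      rw [mem_filter] at hx
      exact mem_image.2 ⟨x, hx.1, hx.2⟩
    calc ∑ v ∈ V, r (v - h) ^ 2 = ∑ v ∈ V.filter (fun v => r (v - h) ≠ 0), r (v - h) ^ 2 := by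
          rw [sum_filter_of_ne]
          intro v _ hv hv'
          apply hv
          rw [hv']; simp
      _ = ∑ u ∈ (V.filter (fun v => r (v - h) ≠ 0)).image (fun v => v - h), r u ^ 2 := by
          rw [sum_image]
          intro a _ b _ hab
          simpa using hab
      _ ≤ ∑ v ∈ V, r v ^ 2 := by
          apply sum_le_sum_of_subset
          intro u hu
          rw [mem_image] at hu
          obtain ⟨v, hv, rfl⟩ := hu
          rw [mem_filter] at hv
          rw [hV, mem_union]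
          left
          exact hs _ hv.2
  have hcs : 2 * ∑ v ∈ V, r v * r (v - h) ≤ ∑ v ∈ V, r v ^ 2 + ∑ v ∈ V, r (v - h) ^ 2 := by
    rw [mul_sum, ← sum_add_distrib]
    apply sum_le_sum
    intro v _
    nlinarith [sq_nonneg ((r v : ℤ) - r (v - h)), two_mul_le_add_sq (r v) (r (v - h))]
  have hsq : ∑ v ∈ V, r v * r v = ∑ v ∈ V, r v ^ 2 := by
    apply sum_congr rfl
    intro v _
    ring
  omega

/-- combined counting set -/
private theorem sc_fs {ι : Type} {k : ℕ} (s : ℕ) (W : Finset ι) (φ : ι → Fin k → ℤ) (A : Finset ℕ)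
    (Q : ℕ) (hQ : 1 ≤ Q)
    (hb : ∀ x ∈ W ×ˢ (Fintype.piFinset (fun _ : Fin s => A)),
      ∀ y ∈ W ×ˢ (Fintype.piFinset (fun _ : Fin s => A)),
      ∀ j, |(φ x.1 j + pv k x.2 j) - (φ y.1 j + pv k y.2 j)| < (Q : ℤ)) :
    ((SC s W φ A : ℕ) : ℝ) =
      (1 / (Q : ℝ) ^ k) * ∑ α ∈ grid k Q, ‖FS W φ Q α‖ ^ 2 *
        ‖∑ n ∈ A, ee ((∑ j : Fin k, (α j : ℝ) * (n : ℝ) ^ ((j : ℕ) + 1)) / Q)‖ ^ (2 * s) := by
  have h1 := fs_count (W ×ˢ (Fintype.piFinset (fun _ : Fin s => A)))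
    (W ×ˢ (Fintype.piFinset (fun _ : Fin s => A)))
    (fun x j => φ x.1 j + pv k x.2 j) (fun x j => φ x.1 j + pv k x.2 j) 0 Q hQ
    (by
      intro x hx y hy j
      have := hb x hx y hy j
      simpa using this)
  have hcard : (((W ×ˢ (Fintype.piFinset (fun _ : Fin s => A))) ×ˢ
      (W ×ˢ (Fintype.piFinset (fun _ : Fin s => A)))).filter
        (fun w => ∀ j, φ w.1.1 j + pv k w.1.2 j = φ w.2.1 j + pv k w.2.2 j + (0 : Fin k → ℤ) j)).card
      = SC s W φ A := by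
    unfold SC
    apply card_bij (fun z _ => ((z.1.1, z.2.1), (z.1.2, z.2.2)))
    · intro z hz
      simp only [mem_filter, mem_product, Pi.zero_apply, add_zero] at hz ⊢
      tauto
    · intro z _ z' _ he
      simp only [Prod.mk.injEq] at he
      obtain ⟨⟨h1, h2⟩, h3, h4⟩ := he
      exact Prod.ext (Prod.ext h1 h3) (Prod.ext h2 h4)
    · intro z hz
      refine ⟨((z.1.1, z.2.1), (z.1.2, z.2.2)), ?_, rfl⟩
      simp only [mem_filter, mem_product, Pi.zero_apply, add_zero] at hz ⊢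
      tauto
  rw [hcard] at h1
  have hFS : ∀ α : Fin k → ℕ, FS (W ×ˢ (Fintype.piFinset (fun _ : Fin s => A)))
      (fun x j => φ x.1 j + pv k x.2 j) Q α = FS W φ Q α *
        (∑ n ∈ A, ee ((∑ j : Fin k, (α j : ℝ) * (n : ℝ) ^ ((j : ℕ) + 1)) / Q)) ^ s := by
    intro α
    rw [← fs_pow]
    unfold FS
    rw [sum_mul_sum, ← sum_product']
    apply sum_congr rfl
    intro x _
    rw [← ee_add', ← add_div, ← sum_add_distrib]
    congr 2
    apply sum_congr rfl
    intro j _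
    push_cast
    ring
  have h2 : ((SC s W φ A : ℕ) : ℂ) = (((1 / (Q : ℝ) ^ k) * ∑ α ∈ grid k Q, ‖FS W φ Q α‖ ^ 2 *
        ‖∑ n ∈ A, ee ((∑ j : Fin k, (α j : ℝ) * (n : ℝ) ^ ((j : ℕ) + 1)) / Q)‖ ^ (2 * s) : ℝ) : ℂ) := by
    rw [h1]
    push_cast
    congr 1
    apply sum_congr rfl
    intro α _
    have : ee (-(∑ j, (α j : ℝ) * (((0 : Fin k → ℤ) j : ℤ) : ℝ)) / Q) = 1 := by
      simp [ee_zero']
    rw [this, mul_one, Complex.mul_conj', hFS, norm_mul, norm_pow]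
    push_cast
    ring
  exact_mod_cast h2

private theorem hoelder' (p s : ℕ) (hs : 1 ≤ s) (g : ℕ → ℂ) :
    ‖∑ b ∈ range p, g b‖ ^ (2 * s) ≤ (p : ℝ) ^ (2 * s - 1) * ∑ b ∈ range p, ‖g b‖ ^ (2 * s) := by
  obtain ⟨m, hm⟩ : ∃ m, 2 * s = m + 1 := ⟨2 * s - 1, by omega⟩
  rw [hm, Nat.add_sub_cancel]
  have h1 : ‖∑ b ∈ range p, g b‖ ^ (m + 1) ≤ (∑ b ∈ range p, ‖g b‖) ^ (m + 1) :=
    pow_le_pow_left₀ (norm_nonneg _) (norm_sum_le _ _) _
  refine h1.trans ?_
  rcases Nat.eq_zero_or_pos p with rfl | hp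
  · simp
  have h3 := pow_sum_div_card_le_sum_pow (s := range p) (f := fun b => ‖g b‖)
    (hf := fun b _ => norm_nonneg _) m
  rw [card_range, div_le_iff₀ (by positivity)] at h3
  linarith

private theorem bound' {κ : Type} {k : ℕ} (X : Finset κ) (f : κ → Fin k → ℤ) :
    ∃ B : ℤ, 0 ≤ B ∧ ∀ x ∈ X, ∀ j, |f x j| ≤ B := by
  classical
  induction X using Finset.induction_on with
  | empty => exact ⟨0, le_refl _, by simp⟩
  | insert a X ha ih =>
    obtain ⟨B, hB, h⟩ := ih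
    have h0 : 0 ≤ ∑ j, |f a j| := sum_nonneg fun j _ => abs_nonneg _
    refine ⟨B + ∑ j, |f a j|, add_nonneg hB h0, ?_⟩
    intro x hx j
    rcases mem_insert.1 hx with rfl | hx
    · have h1 : |f x j| ≤ ∑ j, |f x j| :=
        single_le_sum (f := fun j => |f x j|) (fun j _ => abs_nonneg _) (mem_univ j)
      linarith
    · have := h x hx j
      linarith

theorem sc_class {ι : Type} {k : ℕ} (s p : ℕ) (hs : 1 ≤ s) (hp : 1 ≤ p) (W : Finset ι)
    (φ : ι → Fin k → ℤ) (A : Finset ℕ) :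
    SC s W φ A ≤ p ^ (2 * s - 1) * ∑ b ∈ range p, SC s W φ (A.filter (fun n => n % p = b)) := by
  classical
  -- choose Q
  set X := W ×ˢ (Fintype.piFinset (fun _ : Fin s => A)) with hX
  obtain ⟨B, hB0, hxB⟩ := bound' X (fun x j => φ x.1 j + pv k x.2 j)
  obtain ⟨Q, hQB⟩ : ∃ Q : ℕ, (Q : ℤ) = 2 * B + 1 :=
    ⟨(2 * B + 1).toNat, Int.toNat_of_nonneg (by linarith)⟩
  have hQ1 : 1 ≤ Q := by
    have : (1 : ℤ) ≤ Q := by linarith
    exact_mod_cast this
  have hb : ∀ x ∈ X, ∀ y ∈ X,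
      ∀ j, |(φ x.1 j + pv k x.2 j) - (φ y.1 j + pv k y.2 j)| < (Q : ℤ) := by
    intro x hx y hy j
    have h1 := hxB x hx j
    have h2 := hxB y hy j
    calc |(φ x.1 j + pv k x.2 j) - (φ y.1 j + pv k y.2 j)| ≤
          |φ x.1 j + pv k x.2 j| + |φ y.1 j + pv k y.2 j| := abs_sub _ _
      _ < Q := by rw [hQB]; linarith
  have hsub : ∀ b, ∀ x ∈ W ×ˢ (Fintype.piFinset (fun _ : Fin s => A.filter (fun n => n % p = b))),
      x ∈ X := by
    intro b x hx
    rw [mem_product, Fintype.mem_piFinset] at hx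
    rw [hX, mem_product, Fintype.mem_piFinset]
    exact ⟨hx.1, fun i => (mem_filter.1 (hx.2 i)).1⟩
  have e1 := sc_fs s W φ A Q hQ1 hb
  have e2 : ∀ b, ((SC s W φ (A.filter (fun n => n % p = b)) : ℕ) : ℝ) =
      (1 / (Q : ℝ) ^ k) * ∑ α ∈ grid k Q, ‖FS W φ Q α‖ ^ 2 *
        ‖∑ n ∈ A.filter (fun n => n % p = b),
          ee ((∑ j : Fin k, (α j : ℝ) * (n : ℝ) ^ ((j : ℕ) + 1)) / Q)‖ ^ (2 * s) := by
    intro b
    exact sc_fs s W φ _ Q hQ1 (fun x hx y hy j => hb x (hsub b x hx) y (hsub b y hy) j)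
  have main : ((SC s W φ A : ℕ) : ℝ) ≤ (p : ℝ) ^ (2 * s - 1) *
      ∑ b ∈ range p, ((SC s W φ (A.filter (fun n => n % p = b)) : ℕ) : ℝ) := by
    rw [e1]
    simp_rw [e2]
    rw [← mul_sum, sum_comm, mul_left_comm]
    apply mul_le_mul_of_nonneg_left _ (by positivity)
    rw [mul_sum]
    apply sum_le_sum
    intro α _
    rw [← mul_sum, mul_left_comm]
    apply mul_le_mul_of_nonneg_left _ (by positivity)
    have h5 : ∑ n ∈ A, ee ((∑ j : Fin k, (α j : ℝ) * (n : ℝ) ^ ((j : ℕ) + 1)) / Q) =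
        ∑ b ∈ range p, ∑ n ∈ A.filter (fun n => n % p = b),
          ee ((∑ j : Fin k, (α j : ℝ) * (n : ℝ) ^ ((j : ℕ) + 1)) / Q) := by
      rw [sum_fiberwise_of_maps_to]
      intro n _
      rw [mem_range]
      exact Nat.mod_lt _ hp
    rw [h5]
    exact hoelder' p s hs _
  exact_mod_cast main

theorem jv_mono (k s M M' : ℕ) (h : M ≤ M') : JV k s M ≤ JV k s M' := by
  unfold JV
  apply card_le_card
  apply filter_subset_filter
  have : box s M ⊆ box s M' := by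
    unfold box
    intro x hx
    rw [Fintype.mem_piFinset] at hx ⊢
    intro i
    have := mem_Icc.1 (hx i)
    exact mem_Icc.2 ⟨this.1, this.2.trans h⟩
  exact product_subset_product this this

theorem jv_add (k s r M : ℕ) : JV k (s + r) M ≤ M ^ (2 * r) * JV k s M := by
  classical
  have hpv : ∀ (x : Fin (s + r) → ℕ) (j : Fin k), pv k x j =
      pv k (fun i : Fin s => x (Fin.castAdd r i)) j + pv k (fun i : Fin r => x (Fin.natAdd s i)) j := by
    intro x j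
    unfold pv
    rw [Fin.sum_univ_add]
  -- map a pair to the pair of the last coordinates
  unfold JV
  have hmaps : ∀ w ∈ ((box (s + r) M) ×ˢ (box (s + r) M)).filter (fun w => pv k w.1 = pv k w.2),
      ((fun i : Fin r => w.1 (Fin.natAdd s i)), (fun i : Fin r => w.2 (Fin.natAdd s i))) ∈
        (box r M) ×ˢ (box r M) := by
    intro w hw
    rw [mem_filter, mem_product] at hw
    unfold box at hw ⊢
    rw [Fintype.mem_piFinset, Fintype.mem_piFinset] at hw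
    rw [mem_product, Fintype.mem_piFinset, Fintype.mem_piFinset]
    exact ⟨fun i => hw.1.1 _, fun i => hw.1.2 _⟩
  rw [card_eq_sum_card_fiberwise (f := fun w : (Fin (s + r) → ℕ) × (Fin (s + r) → ℕ) =>
    ((fun i : Fin r => w.1 (Fin.natAdd s i)), (fun i : Fin r => w.2 (Fin.natAdd s i))))
    (t := (box r M) ×ˢ (box r M)) (by intro w hw; exact hmaps w hw)]
  have hfib : ∀ y ∈ (box r M) ×ˢ (box r M),
      ((((box (s + r) M) ×ˢ (box (s + r) M)).filter (fun w => pv k w.1 = pv k w.2)).filter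
        (fun w => ((fun i : Fin r => w.1 (Fin.natAdd s i)), (fun i : Fin r => w.2 (Fin.natAdd s i))) = y)).card
        ≤ (((box s M) ×ˢ (box s M)).filter (fun w => pv k w.1 = pv k w.2)).card := by
    intro y _
    calc _ ≤ (((box s M) ×ˢ (box s M)).filter (fun w => ∀ j, pv k w.1 j = pv k w.2 j +
          (pv k y.2 - pv k y.1) j)).card := by
          apply card_le_card_of_injOn (fun w => ((fun i : Fin s => w.1 (Fin.castAdd r i)),
            (fun i : Fin s => w.2 (Fin.castAdd r i))))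
          · intro w hw
            rw [mem_coe, mem_filter, mem_filter, mem_product] at hw
            rw [mem_coe, mem_filter, mem_product]
            obtain ⟨⟨⟨h1, h2⟩, h3⟩, h4⟩ := hw
            unfold box at h1 h2 ⊢
            rw [Fintype.mem_piFinset] at h1 h2
            refine ⟨⟨Fintype.mem_piFinset.2 fun i => h1 _, Fintype.mem_piFinset.2 fun i => h2 _⟩, ?_⟩
            intro j
            have h5 := congrFun h3 j
            rw [hpv, hpv] at h5
            rw [← h4]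
            simp only [Pi.sub_apply]
            linarith
          · intro w hw w' hw' he
            rw [mem_coe, mem_filter, mem_filter] at hw hw'
            have h4 := hw.2.trans hw'.2.symm
            simp only [Prod.mk.injEq] at he h4
            apply Prod.ext
            · funext i
              refine Fin.addCases (fun i => ?_) (fun i => ?_) i
              · exact congrFun he.1 i
              · exact congrFun h4.1 i
            · funext i
              refine Fin.addCases (fun i => ?_) (fun i => ?_) i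
              · exact congrFun he.2 i
              · exact congrFun h4.2 i
      _ ≤ (((box s M) ×ˢ (box s M)).filter (fun w => ∀ j, pv k w.1 j = pv k w.2 j)).card :=
          shift_le _ _ _
      _ = _ := by
          congr 1
          apply filter_congr
          intro w _
          exact funext_iff.symm
  refine (sum_le_card_nsmul _ _ _ hfib).trans ?_
  rw [smul_eq_mul, card_product]
  have hbc : (box r M).card = M ^ r := by
    unfold box
    rw [Fintype.card_piFinset]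
    simp
  rw [hbc]
  apply le_of_eq
  ring

end Pool.Agent.H97.VK

end

section

/-!
# VK Bil: the bilinear sum and the mean value

Write `U = ‖bil k X α‖`, `ψ(v) = ∑_j α_j v_j`.
(1) `U ≤ ∑_a |∑_b ee(∑_j α_j a^j b^j)|`, so `U^{2s} ≤ X^{2s-1} ∑_a |∑_b ..|^{2s}
 = X^{2s-1} ∑_a ∑_{y,y' ∈ [1,X]^s} ee(∑_j α_j a^j (pv(y)_j - pv(y')_j)) ≤ X^{2s-1} ∑_v R(v) |T(v)|`, where
 `R(v) = #{(y,y') : pv(y) - pv(y') = v}`, `T(v) = ∑_{a ≤ X} ee(∑_j α_j v_j a^j)`; `v` runs over `V = {|v_j| ≤ s X^j}` (finite).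
(2) Hölder (exponents `s/(s-1), 2s, 2s`; or Cauchy-Schwarz-type steps):
 `(∑ R|T|)^{2s} ≤ (∑ R)^{2s-2} (∑ R^2) (∑_{v ∈ V} |T(v)|^{2s})`.  (E.g. `(∑ R |T|)^s ≤ (∑ R)^{s-1} ∑ R |T|^s` and
 `(∑ R|T|^s)^2 ≤ ∑ R^2 ∑ |T|^{2s}`.)
(3) `∑ R = X^{2s}`; `∑ R^2 ≤ JV k (2s) X` (equality after renaming: `pv(y) - pv(y') = pv(z) - pv(z')`).
(4) `∑_{v ∈ V} |T(v)|^{2s} = ∑_w R(w) ∑_{v ∈ V} ee(∑_j α_j v_j w_j) ≤ JV k s X ∏_j GG (α_j) (s X^j)`: `R(w) ≤ R(0) = JV k s X` (`shift_le`),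
 `w` runs over `V`, and the sum over `v ∈ V` is the product over `j` of `∑_{|v| ≤ s X^j} ee(α_j w_j v)`.
Exponents: `2s(2s-1) + 2s(2s-2) = 8s^2 - 6s`.  Here `j` = `(j : Fin k) + 1`.
-/

set_option autoImplicit false

namespace Pool.Agent.H97.VK

open Finset
open Pool.Agent.H91.PK (ee)

private theorem Bil_ee_zero : ee 0 = 1 := by
  simp [ee]

private theorem Bil_ee_sum {ι : Type} (S : Finset ι) (f : ι → ℝ) :
    ee (∑ i ∈ S, f i) = ∏ i ∈ S, ee (f i) := by
  classical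
  induction S using Finset.induction_on with
  | empty => simp [Bil_ee_zero]
  | insert a S ha ih => rw [Finset.sum_insert ha, Finset.prod_insert ha,
      Pool.Agent.H91.PK.LSa_ee_add, ih]

/-- the one variable exponential sum with coefficients `c` -/
private noncomputable def BilE {k : ℕ} (X : ℕ) (c : Fin k → ℝ) : ℂ :=
  ∑ n ∈ Icc 1 X, ee (∑ j : Fin k, c j * (n : ℝ) ^ ((j : ℕ) + 1))

private noncomputable def BilD {k s : ℕ} (w : (Fin s → ℕ) × (Fin s → ℕ)) (j : Fin k) : ℤ :=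
  pv k w.1 j - pv k w.2 j

private theorem Bil_pow (k s X : ℕ) (c : Fin k → ℝ) :
    (BilE X c) ^ s = ∑ y ∈ box s X, ee (∑ j : Fin k, c j * (pv k y j : ℝ)) := by
  have h1 : (BilE X c) ^ s = ∏ _i : Fin s, BilE X c := by
    rw [Finset.prod_const, Finset.card_univ, Fintype.card_fin]
  rw [h1]
  unfold BilE
  rw [Finset.prod_univ_sum]
  unfold box
  refine Finset.sum_congr rfl fun y _ => ?_
  rw [← Bil_ee_sum]
  congr 1
  rw [Finset.sum_comm]
  refine Finset.sum_congr rfl fun j _ => ?_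
  rw [← Finset.mul_sum]
  congr 1
  unfold pv
  push_cast
  rfl

private theorem Bil_norm_pow (k s X : ℕ) (c : Fin k → ℝ) :
    ((‖BilE X c‖ ^ (2 * s) : ℝ) : ℂ) =
      ∑ w ∈ box s X ×ˢ box s X, ee (∑ j : Fin k, c j * (BilD w j : ℝ)) := by
  have h1 : ((‖BilE X c‖ ^ (2 * s) : ℝ) : ℂ) = (BilE X c) ^ s * (starRingEnd ℂ) ((BilE X c) ^ s) := by
    rw [map_pow, ← mul_pow, Complex.mul_conj, Complex.normSq_eq_norm_sq, pow_mul]
    push_cast
    rfl
  rw [h1, Bil_pow, map_sum, Finset.sum_mul_sum, Finset.sum_product]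
  refine Finset.sum_congr rfl fun y _ => Finset.sum_congr rfl fun y' _ => ?_
  rw [Pool.Agent.H91.PK.LSa_conj_ee, ← Pool.Agent.H91.PK.LSa_ee_add]
  congr 1
  rw [← sub_eq_add_neg, ← Finset.sum_sub_distrib]
  refine Finset.sum_congr rfl fun j _ => ?_
  unfold BilD
  push_cast
  ring

private noncomputable def BilV (k s X : ℕ) : Finset (Fin k → ℤ) :=
  Fintype.piFinset (fun j : Fin k => Icc (-((s * X ^ ((j : ℕ) + 1) : ℕ) : ℤ)) ((s * X ^ ((j : ℕ) + 1) : ℕ) : ℤ))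

private theorem Bil_pv_le {k s X : ℕ} {y : Fin s → ℕ} (hy : y ∈ box s X) (j : Fin k) :
    0 ≤ pv k y j ∧ pv k y j ≤ ((s * X ^ ((j : ℕ) + 1) : ℕ) : ℤ) := by
  unfold box at hy
  rw [Fintype.mem_piFinset] at hy
  unfold pv
  refine ⟨Finset.sum_nonneg fun i _ => by positivity, ?_⟩
  calc ∑ i, (y i : ℤ) ^ ((j : ℕ) + 1) ≤ ∑ _i : Fin s, (X : ℤ) ^ ((j : ℕ) + 1) := by
        refine Finset.sum_le_sum fun i _ => ?_
        have := (Finset.mem_Icc.mp (hy i)).2
        exact pow_le_pow_left₀ (by positivity) (by exact_mod_cast this) _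
    _ = ((s * X ^ ((j : ℕ) + 1) : ℕ) : ℤ) := by
        rw [Finset.sum_const, Finset.card_univ, Fintype.card_fin]
        push_cast
        simp

private theorem Bil_mem {k s X : ℕ} {w : (Fin s → ℕ) × (Fin s → ℕ)} (hw : w ∈ box s X ×ˢ box s X) :
    (BilD w : Fin k → ℤ) ∈ BilV k s X := by
  rw [Finset.mem_product] at hw
  unfold BilV
  rw [Fintype.mem_piFinset]
  intro j
  rw [Finset.mem_Icc]
  have h1 := Bil_pv_le hw.1 j
  have h2 := Bil_pv_le hw.2 j
  unfold BilD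
  constructor <;> linarith [h1.1, h1.2, h2.1, h2.2]

private noncomputable def BilR (k s X : ℕ) (v : Fin k → ℤ) : ℕ :=
  ((box s X ×ˢ box s X).filter (fun w => BilD w = v)).card

private theorem Bil_fiber (k s X : ℕ) (f : (Fin k → ℤ) → ℝ) :
    ∑ w ∈ box s X ×ˢ box s X, f (BilD w) = ∑ v ∈ BilV k s X, (BilR k s X v : ℝ) * f v := by
  rw [← Finset.sum_fiberwise_of_maps_to' (fun w hw => Bil_mem (k := k) hw) f]
  refine Finset.sum_congr rfl fun v _ => ?_
  rw [Finset.sum_const, nsmul_eq_mul]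
  rfl

private theorem Bil_R_le (k s X : ℕ) (v : Fin k → ℤ) : BilR k s X v ≤ JV k s X := by
  have h := shift_le (box s X) (pv k) v
  unfold BilR JV
  calc ((box s X ×ˢ box s X).filter (fun w => BilD w = v)).card
      = ((box s X ×ˢ box s X).filter (fun w => ∀ j, pv k w.1 j = pv k w.2 j + v j)).card := by
        congr 1
        refine Finset.filter_congr fun w _ => ?_
        rw [funext_iff]
        refine forall_congr' fun j => ?_
        unfold BilD
        constructor <;> intro h <;> linarith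
    _ ≤ ((box s X ×ˢ box s X).filter (fun w => ∀ j, pv k w.1 j = pv k w.2 j)).card := h
    _ = ((box s X ×ˢ box s X).filter (fun w => pv k w.1 = pv k w.2)).card := by
        congr 1
        refine Finset.filter_congr fun w _ => ?_
        rw [funext_iff]

private theorem Bil_pv_append (k s : ℕ) (a b : Fin s → ℕ) (j : Fin k) :
    pv k (Fin.append a b) j = pv k a j + pv k b j := by
  unfold pv
  rw [Fin.sum_univ_add]
  simp only [Fin.append_left, Fin.append_right]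

private theorem Bil_append_mem {s X : ℕ} {a b : Fin s → ℕ} (ha : a ∈ box s X) (hb : b ∈ box s X) :
    Fin.append a b ∈ box (s + s) X := by
  unfold box at *
  rw [Fintype.mem_piFinset] at *
  intro i
  refine Fin.addCases (fun i => ?_) (fun i => ?_) i
  · rw [Fin.append_left]; exact ha i
  · rw [Fin.append_right]; exact hb i

private theorem Bil_append_inj {s : ℕ} {a b a' b' : Fin s → ℕ}
    (h : Fin.append a b = Fin.append a' b') : a = a' ∧ b = b' := by
  constructor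
  · funext i
    have := congrFun h (Fin.castAdd s i)
    rwa [Fin.append_left, Fin.append_left] at this
  · funext i
    have := congrFun h (Fin.natAdd s i)
    rwa [Fin.append_right, Fin.append_right] at this

private theorem Bil_sumR_sq (k s X : ℕ) :
    ∑ v ∈ BilV k s X, (BilR k s X v : ℝ) ^ 2 ≤ (JV k (2 * s) X : ℝ) := by
  have h1 : ∑ v ∈ BilV k s X, (BilR k s X v : ℝ) ^ 2 =
      ∑ w ∈ box s X ×ˢ box s X, (BilR k s X (BilD w) : ℝ) := by
    refine Eq.trans ?_ (Bil_fiber k s X (fun v => (BilR k s X v : ℝ))).symm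
    exact Finset.sum_congr rfl fun v _ => pow_two _
  have h2' : ∑ w ∈ box s X ×ˢ box s X, BilR k s X (BilD w) =
      (((box s X ×ˢ box s X) ×ˢ (box s X ×ˢ box s X)).filter
        (fun z => (BilD z.2 : Fin k → ℤ) = BilD z.1)).card := by
    rw [Finset.card_filter]
    refine Eq.symm ((Finset.sum_product (box s X ×ˢ box s X) (box s X ×ˢ box s X) _).trans ?_)
    refine Finset.sum_congr rfl fun w _ => ?_
    unfold BilR
    rw [Finset.card_filter]
  have h2 : ∑ w ∈ box s X ×ˢ box s X, (BilR k s X (BilD w) : ℝ) =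
      ((((box s X ×ˢ box s X) ×ˢ (box s X ×ˢ box s X)).filter
        (fun z => (BilD z.2 : Fin k → ℤ) = BilD z.1)).card : ℝ) := by
    rw [← h2', Nat.cast_sum]
  rw [h1, h2]
  have h3 : JV k (2 * s) X = JV k (s + s) X := by rw [two_mul]
  rw [h3]
  unfold JV
  rw [Nat.cast_le]
  refine Finset.card_le_card_of_injOn
    (fun z => (Fin.append z.1.1 z.2.2, Fin.append z.1.2 z.2.1)) ?_ ?_
  · intro z hz
    rw [Finset.mem_coe, Finset.mem_filter, Finset.mem_product, Finset.mem_product,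
      Finset.mem_product] at hz
    obtain ⟨⟨⟨h11, h12⟩, ⟨h21, h22⟩⟩, he⟩ := hz
    rw [Finset.mem_coe, Finset.mem_filter, Finset.mem_product]
    refine ⟨⟨Bil_append_mem h11 h22, Bil_append_mem h12 h21⟩, ?_⟩
    funext j
    simp only
    rw [Bil_pv_append, Bil_pv_append]
    have := congrFun he j
    unfold BilD at this
    linarith
  · intro z _ z' _ h
    simp only [Prod.mk.injEq] at h
    have h1 := Bil_append_inj h.1
    have h2 := Bil_append_inj h.2
    ext1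
    · ext1
      · exact h1.1
      · exact h2.1
    · ext1
      · exact h2.2
      · exact h1.2

private theorem Bil_prod_norm (k s X : ℕ) (α : Fin k → ℝ) (u : Fin k → ℤ) :
    ‖∑ v ∈ BilV k s X, ee (∑ j : Fin k, α j * (v j : ℝ) * (u j : ℝ))‖ =
      ∏ j : Fin k, ‖∑ v ∈ Icc (-((s * X ^ ((j : ℕ) + 1) : ℕ) : ℤ)) ((s * X ^ ((j : ℕ) + 1) : ℕ) : ℤ),
        ee (α j * (u j : ℝ) * (v : ℝ))‖ := by
  rw [← norm_prod, Finset.prod_univ_sum]
  unfold BilV
  congr 1
  refine Finset.sum_congr rfl fun v _ => ?_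
  rw [Bil_ee_sum]
  refine Finset.prod_congr rfl fun j _ => ?_
  congr 1
  ring

private theorem Bil_sumT (k s X : ℕ) (α : Fin k → ℝ) :
    ∑ v ∈ BilV k s X, ‖BilE X (fun j => α j * (v j : ℝ))‖ ^ (2 * s) ≤
      (JV k s X : ℝ) * ∏ j : Fin k, GG (α j) (s * X ^ ((j : ℕ) + 1)) := by
  have h1 : ((∑ v ∈ BilV k s X, ‖BilE X (fun j => α j * (v j : ℝ))‖ ^ (2 * s) : ℝ) : ℂ) =
      ∑ w ∈ box s X ×ˢ box s X, ∑ v ∈ BilV k s X,
        ee (∑ j : Fin k, α j * (v j : ℝ) * (BilD w j : ℝ)) := by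
    rw [Complex.ofReal_sum, Finset.sum_comm]
    refine Finset.sum_congr rfl fun v _ => ?_
    exact Bil_norm_pow k s X (fun j => α j * (v j : ℝ))
  have h0 : 0 ≤ ∑ v ∈ BilV k s X, ‖BilE X (fun j => α j * (v j : ℝ))‖ ^ (2 * s) :=
    Finset.sum_nonneg fun v _ => by positivity
  have h2 : ∑ v ∈ BilV k s X, ‖BilE X (fun j => α j * (v j : ℝ))‖ ^ (2 * s) =
      ‖((∑ v ∈ BilV k s X, ‖BilE X (fun j => α j * (v j : ℝ))‖ ^ (2 * s) : ℝ) : ℂ)‖ := by
    rw [Complex.norm_real, Real.norm_of_nonneg h0]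
  rw [h2, h1]
  calc ‖∑ w ∈ box s X ×ˢ box s X, ∑ v ∈ BilV k s X,
        ee (∑ j : Fin k, α j * (v j : ℝ) * (BilD w j : ℝ))‖
      ≤ ∑ w ∈ box s X ×ˢ box s X, ‖∑ v ∈ BilV k s X,
        ee (∑ j : Fin k, α j * (v j : ℝ) * (BilD w j : ℝ))‖ := norm_sum_le _ _
    _ = ∑ u ∈ BilV k s X, (BilR k s X u : ℝ) * ‖∑ v ∈ BilV k s X,
        ee (∑ j : Fin k, α j * (v j : ℝ) * (u j : ℝ))‖ :=
        Bil_fiber k s X (fun u => ‖∑ v ∈ BilV k s X,
          ee (∑ j : Fin k, α j * (v j : ℝ) * (u j : ℝ))‖)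
    _ ≤ ∑ u ∈ BilV k s X, (JV k s X : ℝ) * ‖∑ v ∈ BilV k s X,
        ee (∑ j : Fin k, α j * (v j : ℝ) * (u j : ℝ))‖ := by
        refine Finset.sum_le_sum fun u _ => ?_
        refine mul_le_mul_of_nonneg_right ?_ (norm_nonneg _)
        exact_mod_cast Bil_R_le k s X u
    _ = (JV k s X : ℝ) * ∏ j : Fin k, GG (α j) (s * X ^ ((j : ℕ) + 1)) := by
        rw [← Finset.mul_sum]
        congr 1
        unfold GG
        rw [Finset.prod_univ_sum]
        refine Finset.sum_congr rfl fun u _ => ?_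
        exact Bil_prod_norm k s X α u

private theorem Bil_box_card (s X : ℕ) : (box s X ×ˢ box s X).card = X ^ (2 * s) := by
  rw [Finset.card_product]
  unfold box
  rw [Fintype.card_piFinset]
  simp only [Nat.card_Icc, Finset.prod_const, Finset.card_univ, Fintype.card_fin,
    Nat.add_sub_cancel]
  rw [two_mul, pow_add]

/-- the sum of the norms of `T(v)` over the pairs -/
private noncomputable def BilA (k s X : ℕ) (α : Fin k → ℝ) : ℝ :=
  ∑ w ∈ box s X ×ˢ box s X, ‖BilE X (fun j : Fin k => α j * (BilD w j : ℝ))‖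

private theorem Bil_step1 (k s X : ℕ) (hs : 1 ≤ s) (α : Fin k → ℝ) :
    ‖bil k X α‖ ^ (2 * s) ≤ (X : ℝ) ^ (2 * s - 1) * BilA k s X α := by
  have hE : ∀ a : ℕ, (∑ b ∈ Icc 1 X, ee (∑ j : Fin k, α j * ((a : ℝ) * b) ^ ((j : ℕ) + 1))) =
      BilE X (fun j : Fin k => α j * (a : ℝ) ^ ((j : ℕ) + 1)) := by
    intro a
    unfold BilE
    refine Finset.sum_congr rfl fun b _ => ?_
    congr 1
    refine Finset.sum_congr rfl fun j _ => ?_
    rw [mul_pow]
    ring
  have h1 : ‖bil k X α‖ ≤ ∑ a ∈ Icc 1 X, ‖BilE X (fun j : Fin k => α j * (a : ℝ) ^ ((j : ℕ) + 1))‖ := by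
    unfold bil
    refine (norm_sum_le _ _).trans (le_of_eq ?_)
    refine Finset.sum_congr rfl fun a _ => ?_
    rw [hE a]
  have h2 : (∑ a ∈ Icc 1 X, ‖BilE X (fun j : Fin k => α j * (a : ℝ) ^ ((j : ℕ) + 1))‖) ^ (2 * s) ≤
      (X : ℝ) ^ (2 * s - 1) *
        ∑ a ∈ Icc 1 X, ‖BilE X (fun j : Fin k => α j * (a : ℝ) ^ ((j : ℕ) + 1))‖ ^ (2 * s) := by
    obtain ⟨n, hn⟩ : ∃ n, 2 * s = n + 1 := ⟨2 * s - 1, by omega⟩
    rw [hn, Nat.add_sub_cancel]
    have := pow_sum_le_card_mul_sum_pow (s := Icc 1 X)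
      (f := fun a : ℕ => ‖BilE X (fun j : Fin k => α j * (a : ℝ) ^ ((j : ℕ) + 1))‖)
      (fun a _ => norm_nonneg _) n
    rw [Nat.card_Icc, Nat.add_sub_cancel] at this
    exact this
  have h3 : ∑ a ∈ Icc 1 X, ‖BilE X (fun j : Fin k => α j * (a : ℝ) ^ ((j : ℕ) + 1))‖ ^ (2 * s) ≤
      BilA k s X α := by
    have e : ((∑ a ∈ Icc 1 X, ‖BilE X (fun j : Fin k => α j * (a : ℝ) ^ ((j : ℕ) + 1))‖ ^ (2 * s) : ℝ) : ℂ)
        = ∑ w ∈ box s X ×ˢ box s X, BilE X (fun j : Fin k => α j * (BilD w j : ℝ)) := by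
      rw [Complex.ofReal_sum]
      unfold BilE
      rw [Finset.sum_comm]
      refine Finset.sum_congr rfl fun a _ => ?_
      have := Bil_norm_pow k s X (fun j : Fin k => α j * (a : ℝ) ^ ((j : ℕ) + 1))
      unfold BilE at this
      rw [this]
      refine Finset.sum_congr rfl fun w _ => ?_
      congr 1
      refine Finset.sum_congr rfl fun j _ => ?_
      ring
    have h0 : 0 ≤ ∑ a ∈ Icc 1 X, ‖BilE X (fun j : Fin k => α j * (a : ℝ) ^ ((j : ℕ) + 1))‖ ^ (2 * s) :=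
      Finset.sum_nonneg fun v _ => by positivity
    have e2 : ∑ a ∈ Icc 1 X, ‖BilE X (fun j : Fin k => α j * (a : ℝ) ^ ((j : ℕ) + 1))‖ ^ (2 * s) =
        ‖((∑ a ∈ Icc 1 X, ‖BilE X (fun j : Fin k => α j * (a : ℝ) ^ ((j : ℕ) + 1))‖ ^ (2 * s) : ℝ) : ℂ)‖ := by
      rw [Complex.norm_real, Real.norm_of_nonneg h0]
    rw [e2, e]
    exact norm_sum_le _ _
  calc ‖bil k X α‖ ^ (2 * s)
      ≤ (∑ a ∈ Icc 1 X, ‖BilE X (fun j : Fin k => α j * (a : ℝ) ^ ((j : ℕ) + 1))‖) ^ (2 * s) :=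
        pow_le_pow_left₀ (norm_nonneg _) h1 _
    _ ≤ _ := h2
    _ ≤ _ := mul_le_mul_of_nonneg_left h3 (by positivity)

private theorem Bil_step2 (k s X : ℕ) (hs : 1 ≤ s) (α : Fin k → ℝ) :
    BilA k s X α ^ (2 * s) ≤ (X : ℝ) ^ (2 * s * (2 * s - 2)) * ((JV k (2 * s) X : ℝ) *
      ((JV k s X : ℝ) * ∏ j : Fin k, GG (α j) (s * X ^ ((j : ℕ) + 1)))) := by
  have hA0 : 0 ≤ BilA k s X α := Finset.sum_nonneg fun w _ => norm_nonneg _
  set B : ℝ := ∑ w ∈ box s X ×ˢ box s X, ‖BilE X (fun j : Fin k => α j * (BilD w j : ℝ))‖ ^ s with hB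
  have hB0 : 0 ≤ B := Finset.sum_nonneg fun w _ => by positivity
  have h1 : BilA k s X α ^ s ≤ (X : ℝ) ^ (2 * s * (s - 1)) * B := by
    obtain ⟨n, hn⟩ : ∃ n, s = n + 1 := ⟨s - 1, by omega⟩
    have := pow_sum_le_card_mul_sum_pow (s := box s X ×ˢ box s X)
      (f := fun w => ‖BilE X (fun j : Fin k => α j * (BilD w j : ℝ))‖)
      (fun a _ => norm_nonneg _) (s - 1)
    rw [Bil_box_card, Nat.sub_add_cancel hs] at this
    unfold BilA
    rw [hB]
    push_cast at this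
    rw [← pow_mul] at this
    exact this
  have h2 : B = ∑ v ∈ BilV k s X, (BilR k s X v : ℝ) * ‖BilE X (fun j => α j * (v j : ℝ))‖ ^ s := by
    rw [hB]
    exact Bil_fiber k s X (fun v => ‖BilE X (fun j => α j * (v j : ℝ))‖ ^ s)
  have h3 : B ^ 2 ≤ (JV k (2 * s) X : ℝ) *
      ((JV k s X : ℝ) * ∏ j : Fin k, GG (α j) (s * X ^ ((j : ℕ) + 1))) := by
    rw [h2]
    refine (Finset.sum_mul_sq_le_sq_mul_sq _ _ _).trans ?_
    have e : ∑ v ∈ BilV k s X, (‖BilE X (fun j => α j * (v j : ℝ))‖ ^ s) ^ 2 =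
        ∑ v ∈ BilV k s X, ‖BilE X (fun j => α j * (v j : ℝ))‖ ^ (2 * s) := by
      refine Finset.sum_congr rfl fun v _ => ?_
      rw [← pow_mul, mul_comm s 2]
    rw [e]
    refine mul_le_mul (Bil_sumR_sq k s X) (Bil_sumT k s X α) ?_ (by positivity)
    exact Finset.sum_nonneg fun v _ => by positivity
  calc BilA k s X α ^ (2 * s) = (BilA k s X α ^ s) ^ 2 := by rw [← pow_mul, mul_comm s 2]
    _ ≤ ((X : ℝ) ^ (2 * s * (s - 1)) * B) ^ 2 := pow_le_pow_left₀ (by positivity) h1 2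
    _ = (X : ℝ) ^ (2 * s * (2 * s - 2)) * B ^ 2 := by
        rw [mul_pow, ← pow_mul]
        congr 2
        have : 2 * s - 2 = 2 * (s - 1) := by omega
        rw [this]
        ring
    _ ≤ _ := mul_le_mul_of_nonneg_left h3 (by positivity)

theorem bil_bound (k s X : ℕ) (hs : 1 ≤ s) (hX : 1 ≤ X) (α : Fin k → ℝ) :
    ‖bil k X α‖ ^ (4 * s ^ 2) ≤ (X : ℝ) ^ (8 * s ^ 2 - 6 * s) * (JV k (2 * s) X : ℝ) * (JV k s X : ℝ) *
      ∏ j : Fin k, GG (α j) (s * X ^ ((j : ℕ) + 1)) := by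
  have hA0 : 0 ≤ BilA k s X α := Finset.sum_nonneg fun w _ => norm_nonneg _
  have e1 : ‖bil k X α‖ ^ (4 * s ^ 2) = (‖bil k X α‖ ^ (2 * s)) ^ (2 * s) := by
    rw [← pow_mul]
    congr 1
    ring
  have e2 : (2 * s - 1) * (2 * s) + 2 * s * (2 * s - 2) = 8 * s ^ 2 - 6 * s := by
    obtain ⟨n, rfl⟩ : ∃ n, s = n + 1 := ⟨s - 1, by omega⟩
    have a1 : 2 * (n + 1) - 1 = 2 * n + 1 := by omega
    have a2 : 2 * (n + 1) - 2 = 2 * n := by omega
    rw [a1, a2]
    refine (Nat.sub_eq_of_eq_add ?_).symm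
    ring
  rw [e1]
  calc (‖bil k X α‖ ^ (2 * s)) ^ (2 * s)
      ≤ ((X : ℝ) ^ (2 * s - 1) * BilA k s X α) ^ (2 * s) :=
        pow_le_pow_left₀ (by positivity) (Bil_step1 k s X hs α) _
    _ = (X : ℝ) ^ ((2 * s - 1) * (2 * s)) * BilA k s X α ^ (2 * s) := by
        rw [mul_pow, ← pow_mul]
    _ ≤ (X : ℝ) ^ ((2 * s - 1) * (2 * s)) * ((X : ℝ) ^ (2 * s * (2 * s - 2)) * ((JV k (2 * s) X : ℝ) *
      ((JV k s X : ℝ) * ∏ j : Fin k, GG (α j) (s * X ^ ((j : ℕ) + 1))))) :=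
        mul_le_mul_of_nonneg_left (Bil_step2 k s X hs α) (by positivity)
    _ = _ := by
        rw [← e2, pow_add]
        ring

end Pool.Agent.H97.VK

end

section

/-!
# VK Lin1: power sums modulo `p^m` determine the tuple up to order

Proof.  Newton's identities (Mathlib `MvPolynomial.mul_esymm_eq_sum`, or `MvPolynomial.psum`/`esymm` identities
specialised by `MvPolynomial.aeval`): `j e_j = ∑ ± e_{j-i} p_i`; `j ≤ k < p` is a unit in `ZMod (p^m)`, so the elementary symmetric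
functions of `x` and `y` agree, hence `∏ (T - x_i) = ∏ (T - y_i)` as polynomials over `ZMod (p^m)` (Vieta,
`Multiset.prod_X_sub_X_eq_sum_esymm` or `MvPolynomial.prod_C_add_X_eq_sum_esymm`).  Put `T = y_i`: `∏_{i'} (y_i - x_{i'}) = 0`.
If all factors but one are units the remaining one is `0`.  A factor `y_i - x_{i'}` is a unit iff it is not divisible by `p`
(`ZMod (p^m)` is local with maximal ideal `(p)`); two factors `y_i - x_{i'}`, `y_i - x_{i''}` cannot both be nonunits because their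
difference `x_{i''} - x_{i'}` is a unit (in a local ring the sum of nonunits is a nonunit).
`lin_card`: fix one member `x0` of the set; every member `y` is `x0 ∘ σ` with `σ : Fin k → Fin k`; `σ` is injective as `y` is (differences are
units and the ring is nontrivial), so it is one of the `k!` permutations.
-/

set_option autoImplicit false

namespace Pool.Agent.H97.VK

open Finset

private theorem Lin1_esymm {R : Type*} [CommRing R] {k : ℕ} (x y : Fin k → R)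
    (hc : ∀ j : ℕ, 1 ≤ j → j ≤ k → ∀ a b : R, (j : R) * a = (j : R) * b → a = b)
    (h : ∀ j, 1 ≤ j → j ≤ k → ∑ i, x i ^ j = ∑ i, y i ^ j) (n : ℕ) (hn : n ≤ k) :
    (univ.val.map x).esymm n = (univ.val.map y).esymm n := by
  have hN : ∀ (z : Fin k → R) (n : ℕ), (n : R) * (univ.val.map z).esymm n = (-1) ^ (n + 1) *
      ∑ a ∈ antidiagonal n with a.1 < n, (-1) ^ a.1 * (univ.val.map z).esymm a.1 *
        ∑ i, z i ^ a.2 := by
    intro z n
    have h1 := congrArg (MvPolynomial.aeval z) (MvPolynomial.mul_esymm_eq_sum (Fin k) R n)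
    simp only [map_mul, map_natCast, map_pow, map_neg, map_one, map_sum,
      MvPolynomial.aeval_esymm_eq_multiset_esymm, MvPolynomial.psum, MvPolynomial.aeval_X] at h1
    exact h1
  induction n using Nat.strong_induction_on with
  | _ n ih =>
    rcases Nat.eq_zero_or_pos n with h0 | h0
    · subst h0
      simp [Multiset.esymm]
    · refine hc n h0 hn _ _ ?_
      rw [hN x n, hN y n]
      congr 1
      refine sum_congr rfl fun a ha => ?_
      rw [mem_filter, HasAntidiagonal.mem_antidiagonal] at ha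
      rw [ih a.1 ha.2 (by omega), h a.2 (by omega) (by omega)]

private theorem Lin1_prod {R : Type*} [CommRing R] {k : ℕ} (x y : Fin k → R)
    (hc : ∀ j : ℕ, 1 ≤ j → j ≤ k → ∀ a b : R, (j : R) * a = (j : R) * b → a = b)
    (h : ∀ j, 1 ≤ j → j ≤ k → ∑ i, x i ^ j = ∑ i, y i ^ j) :
    ((univ.val.map x).map fun t => Polynomial.X - Polynomial.C t).prod =
      ((univ.val.map y).map fun t => Polynomial.X - Polynomial.C t).prod := by
  rw [Multiset.prod_X_sub_X_eq_sum_esymm, Multiset.prod_X_sub_X_eq_sum_esymm]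
  have hx : Multiset.card (univ.val.map x) = k := by simp
  have hy : Multiset.card (univ.val.map y) = k := by simp
  rw [hx, hy]
  refine sum_congr rfl fun j hj => ?_
  rw [mem_range] at hj
  rw [Lin1_esymm x y hc h j (by omega)]

private theorem Lin1_eval {R : Type*} [CommRing R] {k : ℕ} (x y : Fin k → R)
    (hc : ∀ j : ℕ, 1 ≤ j → j ≤ k → ∀ a b : R, (j : R) * a = (j : R) * b → a = b)
    (h : ∀ j, 1 ≤ j → j ≤ k → ∑ i, x i ^ j = ∑ i, y i ^ j) (i : Fin k) :
    ∏ i', (y i - x i') = 0 := by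
  have h1 := congrArg (Polynomial.eval (y i)) (Lin1_prod x y hc h)
  have h2 : ∀ z : Fin k → R, Polynomial.eval (y i)
      ((univ.val.map z).map fun t => Polynomial.X - Polynomial.C t).prod = ∏ i', (y i - z i') := by
    intro z
    rw [Multiset.map_map, Finset.prod_map_val, Polynomial.eval_prod]
    refine prod_congr rfl fun i' _ => ?_
    simp
  rw [h2, h2] at h1
  rw [h1]
  exact prod_eq_zero (mem_univ i) (sub_self _)

private theorem Lin1_unit {p m : ℕ} (hp : p.Prime) (hm : 1 ≤ m) (a : ZMod (p ^ m)) :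
    IsUnit a ↔ ZMod.castHom (dvd_pow_self p (by omega : m ≠ 0)) (ZMod p) a ≠ 0 := by
  have : NeZero (p ^ m) := ⟨(pow_pos hp.pos m).ne'⟩
  obtain ⟨v, rfl⟩ : ∃ v : ℕ, (v : ZMod (p ^ m)) = a := ⟨a.val, ZMod.natCast_zmod_val a⟩
  rw [ZMod.isUnit_iff_coprime, map_natCast, Ne, ZMod.natCast_eq_zero_iff,
    Nat.coprime_pow_right_iff (by omega), Nat.coprime_comm, hp.coprime_iff_not_dvd]

private theorem Lin1_nontriv {p m : ℕ} (hp : p.Prime) (hm : 1 ≤ m) : Nontrivial (ZMod (p ^ m)) := by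
  have : Fact (1 < p ^ m) := ⟨Nat.one_lt_pow (by omega) hp.one_lt⟩
  infer_instance

private theorem Lin1_cancel {k p m : ℕ} (hp : p.Prime) (hk : k < p) (j : ℕ)
    (h1 : 1 ≤ j) (h2 : j ≤ k) (a b : ZMod (p ^ m))
    (h : (j : ZMod (p ^ m)) * a = (j : ZMod (p ^ m)) * b) : a = b := by
  have h3 : IsUnit (j : ZMod (p ^ m)) := by
    rw [ZMod.isUnit_iff_coprime]
    refine Nat.Coprime.pow_right m ?_
    rw [Nat.coprime_comm, hp.coprime_iff_not_dvd]
    exact fun h4 => absurd (Nat.le_of_dvd (by omega) h4) (by omega)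
  exact h3.mul_left_cancel h

/-- equal multisets: the tuples differ by a permutation -/
private theorem Lin1_perm {α : Type*} {k : ℕ} (x y : Fin k → α)
    (h : univ.val.map x = univ.val.map y) : ∃ σ : Equiv.Perm (Fin k), y = x ∘ σ := by
  classical
  have h1 : ∀ c, Fintype.card {i // y i = c} = Fintype.card {i // x i = c} := by
    intro c
    rw [Fintype.card_subtype, Fintype.card_subtype]
    have h2 := congrArg (Multiset.count c) h
    rw [Multiset.count_map, Multiset.count_map] at h2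
    have h3 : ∀ z : Fin k → α, #{i | z i = c} = (Multiset.filter (fun i => c = z i) univ.val).card := by
      intro z
      rw [← Finset.filter_val, Finset.card_val]
      congr 1
      ext i
      simp [eq_comm]
    rw [h3, h3, h2]
  refine ⟨Equiv.ofFiberEquiv (fun c => Fintype.equivOfCardEq (h1 c)), ?_⟩
  funext i
  exact (Equiv.ofFiberEquiv_map (fun c => Fintype.equivOfCardEq (h1 c)) i).symm

theorem lin_perm {k p m : ℕ} (hp : p.Prime) (hk : k < p) (hm : 1 ≤ m) (x y : Fin k → ZMod (p ^ m))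
    (h : ∀ j, 1 ≤ j → j ≤ k → ∑ i, x i ^ j = ∑ i, y i ^ j)
    (hinj : ∀ i i', i ≠ i' → IsUnit (x i - x i')) (i : Fin k) : ∃ i', y i = x i' := by
  have := Lin1_nontriv hp hm
  have h0 := Lin1_eval x y (fun j h1 h2 => Lin1_cancel hp hk j h1 h2) h i
  have h1 : ∃ i', ¬ IsUnit (y i - x i') := by
    by_contra hcon
    push Not at hcon
    have h2 : IsUnit (∏ i', (y i - x i')) := by
      exact IsUnit.prod_univ_iff.2 hcon
    rw [h0] at h2
    exact not_isUnit_zero h2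
  obtain ⟨i', hi'⟩ := h1
  refine ⟨i', ?_⟩
  have h3 : ∀ i'', i'' ≠ i' → IsUnit (y i - x i'') := by
    intro i'' hne
    by_contra hcon
    have h4 := hinj i'' i' hne
    rw [Lin1_unit hp hm] at hi' hcon h4
    push Not at hi' hcon
    apply h4
    have h5 : x i'' - x i' = (y i - x i') - (y i - x i'') := by ring
    rw [h5, map_sub, hi', hcon, sub_zero]
  have h6 : (y i - x i') * ∏ i'' ∈ univ.erase i', (y i - x i'') = 0 := by
    rw [mul_prod_erase univ (fun i'' => y i - x i'') (mem_univ i')]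
    exact h0
  have h7 : IsUnit (∏ i'' ∈ univ.erase i', (y i - x i'')) := by
    rw [IsUnit.prod_iff]
    exact fun i'' hi'' => h3 i'' (ne_of_mem_erase hi'')
  have h8 := (h7.mul_left_eq_zero).1 h6
  exact sub_eq_zero.1 h8

theorem lin_card {k p m : ℕ} (hp : p.Prime) (hk : k < p) (hm : 1 ≤ m) (c : ℕ → ZMod (p ^ m))
    (X : Finset (Fin k → ZMod (p ^ m)))
    (hX : ∀ x ∈ X, (∀ j, 1 ≤ j → j ≤ k → ∑ i, x i ^ j = c j) ∧ ∀ i i', i ≠ i' → IsUnit (x i - x i')) :
    X.card ≤ k.factorial := by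
  classical
  have := Lin1_nontriv hp hm
  rcases X.eq_empty_or_nonempty with h0 | ⟨x0, hx0⟩
  · rw [h0, card_empty]; exact Nat.zero_le _
  · have h1 : X ⊆ (univ : Finset (Equiv.Perm (Fin k))).image (fun σ : Equiv.Perm (Fin k) => x0 ∘ ⇑σ) := by
      intro y hy
      rw [mem_image]
      have h2 : ∀ i, ∃ i', y i = x0 i' := fun i => lin_perm hp hk hm x0 y
        (fun j h1 h2 => by rw [(hX x0 hx0).1 j h1 h2, (hX y hy).1 j h1 h2]) (hX x0 hx0).2 i
      choose σ hσ using h2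
      have h3 : Function.Injective σ := by
        intro i i' h4
        by_contra hne
        have h5 := (hX y hy).2 i i' hne
        rw [hσ i, hσ i', h4, sub_self] at h5
        exact not_isUnit_zero h5
      refine ⟨Equiv.ofBijective σ (Finite.injective_iff_bijective.1 h3), mem_univ _, ?_⟩
      funext i
      exact (hσ i).symm
    calc X.card ≤ ((univ : Finset (Equiv.Perm (Fin k))).image (fun σ : Equiv.Perm (Fin k) => x0 ∘ ⇑σ)).card :=
          card_le_card h1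
      _ ≤ (univ : Finset (Equiv.Perm (Fin k))).card := card_image_le
      _ = k.factorial := by rw [card_univ, Fintype.card_perm, Fintype.card_fin]

/-- the same over the integers: `J_{k,k}(M) ≤ k! M^k` (here no condition on the differences is needed: `ℤ` is a domain, the multisets of
the `x_i` and of the `y_i` agree, so `y = x ∘ σ` with a permutation `σ`) -/
theorem jv_base (k M : ℕ) : JV k k M ≤ k.factorial * M ^ k := by
  classical
  have h1 : ((box k M) ×ˢ (box k M)).filter (fun w => pv k w.1 = pv k w.2) ⊆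
      ((box k M) ×ˢ (univ : Finset (Equiv.Perm (Fin k)))).image (fun w : (Fin k → ℕ) × Equiv.Perm (Fin k) => (w.1, w.1 ∘ ⇑w.2)) := by
    intro w hw
    rw [mem_filter, mem_product] at hw
    obtain ⟨⟨hw1, hw2⟩, hw3⟩ := hw
    have h2 : ∀ j, 1 ≤ j → j ≤ k → ∑ i, (w.1 i : ℤ) ^ j = ∑ i, (w.2 i : ℤ) ^ j := by
      intro j hj1 hj2
      have h3 := congrFun hw3 ⟨j - 1, by omega⟩
      unfold pv at h3
      have h4 : j - 1 + 1 = j := by omega
      simp only [h4] at h3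
      exact h3
    have h5 := Lin1_prod (fun i => (w.1 i : ℤ)) (fun i => (w.2 i : ℤ)) (fun j hj1 _ a b hab =>
      mul_left_cancel₀ (by exact_mod_cast (by omega : j ≠ 0)) hab) h2
    have h6 := congrArg Polynomial.roots h5
    rw [Polynomial.roots_multiset_prod_X_sub_C, Polynomial.roots_multiset_prod_X_sub_C] at h6
    obtain ⟨σ, hσ⟩ := Lin1_perm _ _ h6
    rw [mem_image]
    refine ⟨(w.1, σ), mem_product.2 ⟨hw1, mem_univ _⟩, ?_⟩
    refine Prod.ext rfl ?_
    funext i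
    have h7 := congrFun hσ i
    simp only [Function.comp_apply] at h7 ⊢
    exact_mod_cast h7.symm
  unfold JV
  calc _ ≤ _ := card_le_card h1
    _ ≤ ((box k M) ×ˢ (univ : Finset (Equiv.Perm (Fin k)))).card := card_image_le
    _ = k.factorial * M ^ k := by
        rw [card_product, card_univ, Fintype.card_perm, Fintype.card_fin, box,
          Fintype.card_piFinset]
        simp [mul_comm]

end Pool.Agent.H97.VK

end

section

/-!
# VK Lin2: Linnik's lemma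

Proof.  Map `x` to the tuple `(x_i - b) mod p^k` (injective on the box because `M ≤ p^k`).  The power sums `S_j(x) = ∑ (x_i - b)^j` are
`≡ c_j mod p^j`, so their residues modulo `p^k` lie in a set of `p^{k-j}` residues; altogether `∏_{j=1}^k p^{k-j} = p^{k(k-1)/2}` vectors of
residues mod `p^k`.  For each vector at most `k!` tuples (`lin_card` with `m = k`; differences of the coordinates are not divisible by `p`,
hence units).  (`k = 0`: the box has one element.)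
-/

set_option autoImplicit false

namespace Pool.Agent.H97.VK

open Finset

theorem lin_count (k p M b : ℕ) (c : ℕ → ℤ) (hp : p.Prime) (hk : k < p) (hM : M ≤ p ^ k) :
    ((inj k p M).filter (fun x => ∀ j ∈ Icc 1 k,
      ((p : ℤ) ^ j) ∣ (∑ i, ((x i : ℤ) - b) ^ j) - c j)).card ≤ k.factorial * p ^ (k * (k - 1) / 2) := by
  rcases Nat.eq_zero_or_pos k with hk0 | hkpos
  · subst hk0
    have h1 : ((inj 0 p M).filter (fun x => ∀ j ∈ Icc 1 0,
      ((p : ℤ) ^ j) ∣ (∑ i, ((x i : ℤ) - b) ^ j) - c j)).card ≤ 1 := by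
      apply Finset.card_le_one.2
      intro a _ b _
      exact Subsingleton.elim _ _
    simpa using h1
  set S := (inj k p M).filter (fun x => ∀ j ∈ Icc 1 k,
      ((p : ℤ) ^ j) ∣ (∑ i, ((x i : ℤ) - b) ^ j) - c j) with hS
  let φ : (Fin k → ℕ) → (Fin k → ZMod (p ^ k)) := fun x j =>
    ∑ i, (((x i : ℤ) - b : ℤ) : ZMod (p ^ k)) ^ ((j : ℕ) + 1)
  let V : Fin k → Finset (ZMod (p ^ k)) := fun j =>
    (range (p ^ (k - 1 - (j : ℕ)))).image
      (fun t : ℕ => ((c ((j : ℕ) + 1) + (p : ℤ) ^ ((j : ℕ) + 1) * (t : ℤ) : ℤ) : ZMod (p ^ k)))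
  have himg : S.image φ ⊆ Fintype.piFinset V := by
    intro v hv
    obtain ⟨x, hx, rfl⟩ := Finset.mem_image.1 hv
    rw [Fintype.mem_piFinset]
    intro j
    have hx2 := (Finset.mem_filter.1 hx).2 ((j : ℕ) + 1)
      (Finset.mem_Icc.2 ⟨by omega, by have := j.2; omega⟩)
    obtain ⟨q, hq⟩ := hx2
    refine Finset.mem_image.2 ⟨(q % ((p ^ (k - 1 - (j : ℕ)) : ℕ) : ℤ)).toNat, ?_, ?_⟩
    · rw [Finset.mem_range]
      have hpos : (0 : ℤ) < ((p ^ (k - 1 - (j : ℕ)) : ℕ) : ℤ) := by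
        exact_mod_cast pow_pos hp.pos _
      have h1 := Int.emod_lt_of_pos q hpos
      have h2 := Int.emod_nonneg q hpos.ne'
      omega
    · have hpos : (0 : ℤ) < ((p ^ (k - 1 - (j : ℕ)) : ℕ) : ℤ) := by
        exact_mod_cast pow_pos hp.pos _
      have h2 := Int.emod_nonneg q hpos.ne'
      have h3 : (((q % ((p ^ (k - 1 - (j : ℕ)) : ℕ) : ℤ)).toNat : ℕ) : ℤ)
          = q % ((p ^ (k - 1 - (j : ℕ)) : ℕ) : ℤ) := Int.toNat_of_nonneg h2
      have h4 : (∑ i, (((x i : ℤ) - b : ℤ) : ZMod (p ^ k)) ^ ((j : ℕ) + 1))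
          = (((∑ i, ((x i : ℤ) - b) ^ ((j : ℕ) + 1)) : ℤ) : ZMod (p ^ k)) := by
        push_cast
        rfl
      show _ = (∑ i, (((x i : ℤ) - b : ℤ) : ZMod (p ^ k)) ^ ((j : ℕ) + 1))
      rw [h4, ZMod.intCast_eq_intCast_iff_dvd_sub]
      rw [h3]
      have h5 : (∑ i, ((x i : ℤ) - b) ^ ((j : ℕ) + 1))
          = c ((j : ℕ) + 1) + (p : ℤ) ^ ((j : ℕ) + 1) * q := by linarith
      rw [h5]
      have h6 : c ((j : ℕ) + 1) + (p : ℤ) ^ ((j : ℕ) + 1) * q
          - (c ((j : ℕ) + 1) + (p : ℤ) ^ ((j : ℕ) + 1) * (q % ((p ^ (k - 1 - (j : ℕ)) : ℕ) : ℤ)))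
          = (p : ℤ) ^ ((j : ℕ) + 1) * (q - q % ((p ^ (k - 1 - (j : ℕ)) : ℕ) : ℤ)) := by ring
      rw [h6]
      have h7 : ((p ^ k : ℕ) : ℤ) = (p : ℤ) ^ ((j : ℕ) + 1) * ((p ^ (k - 1 - (j : ℕ)) : ℕ) : ℤ) := by
        push_cast
        rw [← pow_add]
        congr 1
        have := j.2
        omega
      rw [h7]
      exact mul_dvd_mul_left _ (Int.dvd_self_sub_emod)
  have hcardV : (Fintype.piFinset V).card ≤ p ^ (k * (k - 1) / 2) := by
    rw [Fintype.card_piFinset]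
    calc ∏ j : Fin k, (V j).card ≤ ∏ j : Fin k, p ^ (k - 1 - (j : ℕ)) := by
          apply Finset.prod_le_prod'
          intro j _
          exact (Finset.card_image_le).trans (by rw [Finset.card_range])
      _ = p ^ (k * (k - 1) / 2) := by
          rw [Finset.prod_pow_eq_pow_sum]
          congr 1
          rw [Fin.sum_univ_eq_sum_range (fun j => k - 1 - j) k, Finset.sum_range_reflect (fun j => j) k,
            Finset.sum_range_id]
  have hfib : ∀ v ∈ S.image φ, (S.filter (fun x => φ x = v)).card ≤ k.factorial := by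
    intro v hv
    obtain ⟨x0, hx0, hx0v⟩ := Finset.mem_image.1 hv
    let ψ : (Fin k → ℕ) → (Fin k → ZMod (p ^ k)) := fun x i => (((x i : ℤ) - b : ℤ) : ZMod (p ^ k))
    have hinj : Set.InjOn ψ (S.filter (fun x => φ x = v) : Finset _) := by
      intro x hx y hy hxy
      have hx1 := (Finset.mem_filter.1 (Finset.mem_coe.1 hx)).1
      have hy1 := (Finset.mem_filter.1 (Finset.mem_coe.1 hy)).1
      have hx2 := (Finset.mem_filter.1 (Finset.mem_filter.1 hx1).1).1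
      have hy2 := (Finset.mem_filter.1 (Finset.mem_filter.1 hy1).1).1
      funext i
      have hxi := Finset.mem_Icc.1 (Fintype.mem_piFinset.1 hx2 i)
      have hyi := Finset.mem_Icc.1 (Fintype.mem_piFinset.1 hy2 i)
      have h1 := congrFun hxy i
      have h2 : (((x i : ℤ) - b : ℤ) : ZMod (p ^ k)) = (((y i : ℤ) - b : ℤ) : ZMod (p ^ k)) := h1
      rw [ZMod.intCast_eq_intCast_iff_dvd_sub] at h2
      have h3 : ((y i : ℤ) - b - ((x i : ℤ) - b)) = (y i : ℤ) - x i := by ring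
      rw [h3] at h2
      have hM' : (M : ℤ) ≤ ((p ^ k : ℕ) : ℤ) := by exact_mod_cast hM
      have h4 : |(y i : ℤ) - x i| < ((p ^ k : ℕ) : ℤ) := by
        rw [abs_lt]
        constructor
        · have : (x i : ℤ) ≤ M := by exact_mod_cast hxi.2
          have : (1 : ℤ) ≤ y i := by exact_mod_cast hyi.1
          linarith
        · have : (y i : ℤ) ≤ M := by exact_mod_cast hyi.2
          have : (1 : ℤ) ≤ x i := by exact_mod_cast hxi.1
          linarith
      have h5 := Int.eq_zero_of_abs_lt_dvd h2 h4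
      have h6 : (y i : ℤ) = x i := by linarith
      exact_mod_cast h6.symm
    rw [← Finset.card_image_of_injOn hinj]
    apply lin_card hp hk hkpos (fun j => ∑ i, ψ x0 i ^ j)
    intro w hw
    obtain ⟨x, hx, rfl⟩ := Finset.mem_image.1 hw
    obtain ⟨hx1, hxv⟩ := Finset.mem_filter.1 hx
    constructor
    · intro j hj1 hjk
      have h1 : φ x = φ x0 := by rw [hxv, hx0v]
      have h2 := congrFun h1 ⟨j - 1, by omega⟩
      have h3 : (∑ i, (((x i : ℤ) - b : ℤ) : ZMod (p ^ k)) ^ ((j - 1) + 1))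
          = ∑ i, (((x0 i : ℤ) - b : ℤ) : ZMod (p ^ k)) ^ ((j - 1) + 1) := h2
      rw [Nat.sub_add_cancel hj1] at h3
      exact h3
    · intro i i' hii
      have hx2 := (Finset.mem_filter.1 (Finset.mem_filter.1 hx1).1).2 i i' hii
      have h1 : ψ x i - ψ x i' = (((x i : ℤ) - x i' : ℤ) : ZMod (p ^ k)) := by
        show (((x i : ℤ) - b : ℤ) : ZMod (p ^ k)) - (((x i' : ℤ) - b : ℤ) : ZMod (p ^ k)) = _
        push_cast
        ring
      rw [h1, ZMod.coe_int_isUnit_iff_isCoprime]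
      rw [Nat.cast_pow]
      apply IsCoprime.pow_left
      rw [(Nat.prime_iff_prime_int.1 hp).coprime_iff_not_dvd]
      intro hdvd
      apply hx2
      have h2 : (x i' : ℤ) ≡ (x i : ℤ) [ZMOD p] := (Int.modEq_iff_dvd).2 hdvd
      have h3 : x i' ≡ x i [MOD p] := by exact_mod_cast h2
      exact h3.symm
  calc S.card ≤ k.factorial * (S.image φ).card := Finset.card_le_mul_card_image S _ hfib
    _ ≤ k.factorial * p ^ (k * (k - 1) / 2) :=
        Nat.mul_le_mul_left _ ((Finset.card_le_card himg).trans hcardV)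

end Pool.Agent.H97.VK

end
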