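import Pool.Agent.H94.EH.M19
import Pool.Agent.H94.EH.M40
import Pool.Agent.H94.EH.M41
import Pool.Agent.H94.EH.M48

/-! The parts of this file: H91.L1.PairG, H76.EHB.ZZb, H88.PSI.BoxD, H88.PSI.Lvk, H88.PSI.Lvs, H88.PSI.BoxS, H88.PSI.BoxM. -/

section

/-!
# L1 PairG: the inner sums are window sums (combinatorics, arbitrary `h`)

Put `κ = |k| ≥ 2d`.  For an integer `n` the integers `q` with `a0 < n - q k ≤ a0 + H` form an interval `(q0, q1]`:
`k > 0`: `q0 = ⌈(n - a0 - H)/k⌉ - 1`, `q1 = ⌈(n - a0)/k⌉ - 1`; `k < 0`: `q0 = ⌊(a0 - n)/κ⌋`, `q1 = ⌊(a0 + H - n)/κ⌋`; in both cases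
`q1 - q0` is `⌊H/κ⌋` or `⌊H/κ⌋ + 1`.
`n` is bad if `a0 < n - Q k ≤ a0 + H` or `a0 < n - 2 Q k ≤ a0 + H`: at most `2H` bad `n`, for these `|GG| ≤ (H/κ + 1) M`.
If `n` is not bad then `(q0, q1]` and `(Q, 2Q]` are disjoint (`GG = 0`) or `(q0, q1] ⊆ (Q, 2Q]` (the end points `Q`, `2Q` do not belong to
`(q0, q1]`).  In the second case the `n + q d`, `q0 < q ≤ q1`, are exactly the `n' ≡ n (mod d)` with `w < n' ≤ n + q1 d`,
`w = w(n) = n + q0 d ≥ 0`, `w ≡ n (mod d)`, so `GG = Wd h d (⌊H/κ⌋ d) w` plus at most one term `≤ M`: `GG² ≤ 2 Wd² + 2 M²`,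
`w ≤ N + 2 Q d`.
At most three `n` have the same `w(n)`: `n ≡ w (mod d)`, and if `w(n) = w(m)`, `n < m`, then
`m - n = (q0(n) - q0(m)) d`; for `k > 0` `q0` is nondecreasing: impossible; for `k < 0` `q0(n) - q0(m) ≤ (m-n)/κ + 1`, so
`(m-n)(1 - d/κ) ≤ d`, `m - n ≤ 2d`, `m - n ∈ {d, 2d}`.
-/

set_option autoImplicit false

namespace Pool.Agent.H91.L1

open Finset
open Pool.Agent.H91.EHA (Lam lamR hR psiA err)

/-- the left end point, multiplied by `|k|` -/
private def pairG_z (a0 H : ℕ) (k n : ℤ) : ℤ := if 0 < k then n - a0 - H - 1 else a0 - n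

private lemma pairG_iff (a0 H : ℕ) (k n q : ℤ) (hk : k ≠ 0) :
    ((a0 : ℤ) < n - q * k ∧ n - q * k ≤ a0 + H) ↔
      (pairG_z a0 H k n / |k| < q ∧ q ≤ (pairG_z a0 H k n + H) / |k|) := by
  have hpos : 0 < |k| := abs_pos.mpr hk
  rw [Int.ediv_lt_iff_lt_mul hpos, Int.le_ediv_iff_mul_le hpos]
  unfold pairG_z
  split_ifs with h0
  · rw [abs_of_pos h0]
    constructor <;> rintro ⟨h1, h2⟩ <;> constructor <;> linarith only [h2, h1]
  · have h1 : k < 0 := lt_of_le_of_ne (not_lt.mp h0) hk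
    rw [abs_of_neg h1, mul_neg]
    constructor <;> rintro ⟨h1, h2⟩ <;> constructor <;> linarith

private lemma pairG_len (z H K : ℤ) (hK : 0 < K) :
    (z + H) / K = z / K + H / K ∨ (z + H) / K = z / K + H / K + 1 := by
  have h1 : K * (z / K) + z % K = z := Int.mul_ediv_add_emod z K
  have h2 : K * (H / K) + H % K = H := Int.mul_ediv_add_emod H K
  have h3 := Int.emod_nonneg z hK.ne'
  have h4 := Int.emod_lt_of_pos z hK
  have h5 := Int.emod_nonneg H hK.ne'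
  have h6 := Int.emod_lt_of_pos H hK
  have e : (z + H) / K = z / K + H / K + (z % K + H % K) / K := by
    have : z + H = (z % K + H % K) + K * (z / K + H / K) := by
      rw [mul_add]; linarith only [h1, h2]
    rw [this, Int.add_mul_ediv_left _ _ hK.ne']
    have h7 : (z % K + H % K + K * (z / K + H / K)) = z + H := by
      rw [mul_add]; linarith only [h1, h2]
    ring
  rw [e]
  by_cases hc : z % K + H % K < K
  · left
    rw [Int.ediv_eq_zero_of_lt (by linarith only [h3, h5]) hc, add_zero]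
  · right
    have : (z % K + H % K) / K = 1 := by
      rw [Int.ediv_eq_iff_of_pos hK]
      constructor <;> linarith only [hc, h4, h6]
    rw [this]

/-- the window sum as a sum over an arithmetic progression -/
private lemma pairG_Wd (h : ℕ → ℝ) (d m w : ℕ) (hd : 1 ≤ d) :
    Wd h d (m * d) w = ∑ i ∈ Ioc 0 m, h (w + i * d) := by
  unfold Wd
  symm
  apply Finset.sum_nbij (fun i => w + i * d)
  · intro i hi
    rw [mem_Ioc] at hi
    rw [mem_filter, mem_Ioc]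
    refine ⟨⟨?_, ?_⟩, ?_⟩
    · have : 0 < i * d := Nat.mul_pos hi.1 hd
      omega
    · have : i * d ≤ m * d := Nat.mul_le_mul_right d hi.2
      omega
    · have : w + i * d ≡ w + 0 [MOD d] := by
        apply Nat.ModEq.add_left
        exact (Nat.modEq_zero_iff_dvd.mpr (Dvd.intro_left i rfl))
      exact this
  · intro a _ b _ hab
    have : a * d = b * d := by simpa using hab
    exact Nat.eq_of_mul_eq_mul_right hd this
  · intro n hn
    rw [mem_coe, mem_filter, mem_Ioc] at hn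
    obtain ⟨⟨h1, h2⟩, h3⟩ := hn
    have h4 : d ∣ n - w := (Nat.modEq_iff_dvd' h1.le).mp h3.symm
    obtain ⟨c, hc⟩ := h4
    refine ⟨c, ?_, ?_⟩
    · rw [mem_coe, mem_Ioc]
      constructor
      · rcases Nat.eq_zero_or_pos c with h0 | h0
        · subst h0
          simp at hc
          omega
        · exact h0
      · by_contra hcon
        have : m * d < c * d := by
          apply Nat.mul_lt_mul_of_pos_right (by omega) hd
        rw [mul_comm d c] at hc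
        omega
    · show w + c * d = n
      rw [mul_comm d c] at hc
      omega
  · intro i _
    rfl

private lemma pairG_card1 (a0 H N : ℕ) (c : ℤ) :
    ((Icc 1 N).filter (fun n : ℕ => (a0 : ℤ) < (n : ℤ) - c ∧ (n : ℤ) - c ≤ a0 + H)).card ≤ H := by
  have h1 : ((Icc 1 N).filter (fun n : ℕ => (a0 : ℤ) < (n : ℤ) - c ∧ (n : ℤ) - c ≤ a0 + H)).card
      ≤ (Ioc ((a0 : ℤ) + c) (a0 + c + H)).card := by
    apply Finset.card_le_card_of_injOn (fun n : ℕ => (n : ℤ))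
    · intro n hn
      have hn' := (mem_filter.mp (mem_coe.mp hn)).2
      rw [mem_coe, mem_Ioc]
      constructor <;> linarith only [hn', hn'.1, hn'.2]
    · intro a _ b _ hab
      exact Int.ofNat_inj.mp hab
  rw [Int.card_Ioc] at h1
  have h2 : ((a0 : ℤ) + c + H - (a0 + c)).toNat = H := by
    have : (a0 : ℤ) + c + H - (a0 + c) = (H : ℤ) := by ring
    rw [this, Int.toNat_natCast]
  rwa [h2] at h1

/-- the bad points -/
private def pairG_P (a0 H : ℕ) (k : ℤ) (n q : ℕ) : Prop :=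
  (a0 : ℤ) < (n : ℤ) - q * k ∧ (n : ℤ) - q * k ≤ a0 + H

private lemma pairG_ends (a0 H Q : ℕ) (k : ℤ) (n q : ℕ) (hk : k ≠ 0)
    (h1 : ¬ pairG_P a0 H k n Q) (h2 : ¬ pairG_P a0 H k n (2 * Q))
    (hq : q ∈ Ioc Q (2 * Q)) (hP : pairG_P a0 H k n q) :
    (Q : ℤ) ≤ pairG_z a0 H k n / |k| ∧ (pairG_z a0 H k n + H) / |k| ≤ 2 * Q := by
  unfold pairG_P at h1 h2 hP
  rw [pairG_iff a0 H k n _ hk] at h1 h2 hP
  rw [mem_Ioc] at hq
  push_cast at h1 h2
  obtain ⟨hq1, hq2⟩ := hq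
  have hq1' : (Q : ℤ) < q := by exact_mod_cast hq1
  have hq2' : (q : ℤ) ≤ 2 * Q := by exact_mod_cast hq2
  constructor
  · by_contra hc
    exact h1 ⟨not_le.mp hc, by linarith only [hP, hq1, hP.2]⟩
  · by_contra hc
    exact h2 ⟨by linarith only [hP, hq2, hP.1], (not_le.mp hc).le⟩

private lemma pairG_GG (h : ℕ → ℝ) (a0 H Q d : ℕ) (k : ℤ) (n q0 q1 : ℕ) (hk : k ≠ 0)
    (h0 : (q0 : ℤ) = pairG_z a0 H k n / |k|) (h1 : (q1 : ℤ) = (pairG_z a0 H k n + H) / |k|)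
    (hQ0 : Q ≤ q0) (hQ1 : q1 ≤ 2 * Q) :
    GG h a0 H Q d k n = ∑ i ∈ Ioc 0 (q1 - q0), h (n + q0 * d + i * d) := by
  unfold GG
  symm
  apply Finset.sum_nbij (fun i => q0 + i)
  · intro i hi
    rw [mem_Ioc] at hi
    rw [mem_filter, mem_Ioc, pairG_iff a0 H k n _ hk, ← h0, ← h1]
    refine ⟨⟨by omega, by omega⟩, ?_, ?_⟩
    · push_cast; omega
    · push_cast; omega
  · intro a _ b _ hab
    have : q0 + a = q0 + b := hab
    omega
  · intro q hq
    rw [mem_coe, mem_filter, mem_Ioc, pairG_iff a0 H k n _ hk, ← h0, ← h1] at hq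
    obtain ⟨_, h3, h4⟩ := hq
    refine ⟨q - q0, ?_, ?_⟩
    · rw [mem_coe, mem_Ioc]
      omega
    · show q0 + (q - q0) = q
      omega
  · intro i _
    congr 1
    ring

private lemma pairG_good (h : ℕ → ℝ) (M : ℝ) (N a0 H Q d : ℕ) (k : ℤ) (n q0 q1 : ℕ) (hk : k ≠ 0)
    (hd : 1 ≤ d) (hM : ∀ n : ℕ, n ≤ N + 2 * Q * d → |h n| ≤ M) (hn : n ≤ N)
    (h0 : (q0 : ℤ) = pairG_z a0 H k n / |k|) (h1 : (q1 : ℤ) = (pairG_z a0 H k n + H) / |k|)
    (hQ0 : Q ≤ q0) (hQ1 : q1 ≤ 2 * Q) :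
    GG h a0 H Q d k n ^ 2 ≤ 2 * Wd h d (H / k.natAbs * d) (n + q0 * d) ^ 2 + 2 * M ^ 2 := by
  rw [pairG_GG h a0 H Q d k n q0 q1 hk h0 h1 hQ0 hQ1, pairG_Wd h d _ _ hd]
  have hlen := pairG_len (pairG_z a0 H k n) H |k| (abs_pos.mpr hk)
  rw [← h0, ← h1] at hlen
  have hm : (H : ℤ) / |k| = ((H / k.natAbs : ℕ) : ℤ) := by
    rw [Int.abs_eq_natAbs]
    push_cast
    rfl
  rw [hm] at hlen
  clear hm
  generalize H / k.natAbs = m at *
  rcases hlen with h2 | h2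
  · have : q1 - q0 = m := by omega
    rw [this]
    nlinarith only [sq_nonneg M]
  · have : q1 - q0 = m + 1 := by omega
    rw [this, Finset.sum_Ioc_succ_top (Nat.zero_le _)]
    have hb : |h (n + q0 * d + (m + 1) * d)| ≤ M := by
      apply hM
      have e1 : n + q0 * d + (m + 1) * d = n + q1 * d := by
        have : q1 = q0 + (m + 1) := by omega
        rw [this]; ring
      rw [e1]
      have : q1 * d ≤ 2 * Q * d := Nat.mul_le_mul_right d hQ1
      omega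
    have hb2 : h (n + q0 * d + (m + 1) * d) ^ 2 ≤ M ^ 2 := by
      rw [← sq_abs]
      exact pow_le_pow_left₀ (abs_nonneg _) hb 2
    nlinarith only [hb2, sq_nonneg (∑ i ∈ Ioc 0 (m), h (n + q0 * d + i * d)
      - h (n + q0 * d + (m + 1) * d))]

private lemma pairG_all (h : ℕ → ℝ) (M : ℝ) (N a0 H Q d : ℕ) (k : ℤ) (n : ℕ) (hk : k ≠ 0)
    (hM : ∀ n : ℕ, n ≤ N + 2 * Q * d → |h n| ≤ M) (hM0 : 0 ≤ M) (hn : n ≤ N) :
    GG h a0 H Q d k n ^ 2 ≤ (((H / k.natAbs : ℕ) : ℝ) + 1) ^ 2 * M ^ 2 := by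
  have hc : ((Ioc Q (2 * Q)).filter
      (fun q : ℕ => (a0 : ℤ) < (n : ℤ) - q * k ∧ (n : ℤ) - q * k ≤ a0 + H)).card
      ≤ H / k.natAbs + 1 := by
    have h1 : ((Ioc Q (2 * Q)).filter
        (fun q : ℕ => (a0 : ℤ) < (n : ℤ) - q * k ∧ (n : ℤ) - q * k ≤ a0 + H)).card
        ≤ (Ioc (pairG_z a0 H k n / |k|) ((pairG_z a0 H k n + H) / |k|)).card := by
      apply Finset.card_le_card_of_injOn (fun n : ℕ => (n : ℤ))
      · intro q hq
        have hq' := (mem_filter.mp (mem_coe.mp hq)).2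
        rw [pairG_iff a0 H k n _ hk] at hq'
        rw [mem_coe, mem_Ioc]
        exact hq'
      · intro a _ b _ hab
        exact Int.ofNat_inj.mp hab
    rw [Int.card_Ioc] at h1
    refine h1.trans ?_
    have hlen := pairG_len (pairG_z a0 H k n) H |k| (abs_pos.mpr hk)
    have hm : (H : ℤ) / |k| = ((H / k.natAbs : ℕ) : ℤ) := by
      rw [Int.abs_eq_natAbs]
      push_cast
      rfl
    rw [hm] at hlen
    clear hm
    generalize H / k.natAbs = m at *
    omega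
  have h2 : |GG h a0 H Q d k n| ≤ (((H / k.natAbs : ℕ) : ℝ) + 1) * M := by
    unfold GG
    refine (Finset.abs_sum_le_sum_abs _ _).trans ?_
    refine (Finset.sum_le_card_nsmul _ _ M ?_).trans ?_
    · intro q hq
      rw [mem_filter, mem_Ioc] at hq
      apply hM
      have : q * d ≤ 2 * Q * d := Nat.mul_le_mul_right d hq.1.2
      omega
    · rw [nsmul_eq_mul]
      apply mul_le_mul_of_nonneg_right _ hM0
      exact_mod_cast hc
  rw [← sq_abs, ← mul_pow]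
  exact pow_le_pow_left₀ (abs_nonneg _) h2 2

/-- at most three `n` have the same starting point -/
private lemma pairG_fib (a0 H d w : ℕ) (k : ℤ) (hd : 1 ≤ d) (hk : 2 * (d : ℤ) ≤ |k|)
    (S : Finset ℕ) (f : ℕ → ℕ)
    (hf : ∀ n ∈ S, (f n : ℤ) = pairG_z a0 H k n / |k|) (hw : ∀ n ∈ S, n + f n * d = w) :
    S.card ≤ 3 := by
  rcases S.eq_empty_or_nonempty with h0 | h0
  · rw [h0]; simp
  have hdZ : (1 : ℤ) ≤ d := by exact_mod_cast hd
  have hpos : 0 < |k| := by linarith only [hd, hk]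
  set n := S.min' h0 with hn
  have hnS : n ∈ S := S.min'_mem h0
  have hsub : S ⊆ {n, n + d, n + 2 * d} := by
    intro m hm
    have hnm : n ≤ m := S.min'_le m hm
    have e1 := hw n hnS
    have e2 := hw m hm
    have hfn := hf n hnS
    have hfm := hf m hm
    have a1 : |k| * (pairG_z a0 H k n / |k|) + pairG_z a0 H k n % |k| = pairG_z a0 H k n :=
      Int.mul_ediv_add_emod _ _
    have a2 : |k| * (pairG_z a0 H k m / |k|) + pairG_z a0 H k m % |k| = pairG_z a0 H k m :=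
      Int.mul_ediv_add_emod _ _
    have b1 := Int.emod_nonneg (pairG_z a0 H k n) hpos.ne'
    have b2 := Int.emod_lt_of_pos (pairG_z a0 H k n) hpos
    have b3 := Int.emod_nonneg (pairG_z a0 H k m) hpos.ne'
    have b4 := Int.emod_lt_of_pos (pairG_z a0 H k m) hpos
    rw [← hfn] at a1
    rw [← hfm] at a2
    have hz : pairG_z a0 H k n - pairG_z a0 H k m ≤ (m : ℤ) - n := by
      unfold pairG_z
      split_ifs <;> omega
    -- the difference
    have e3 : (n : ℤ) + f n * d = m + f m * d := by exact_mod_cast e1.trans e2.symm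
    set t : ℤ := (f n : ℤ) - f m with ht
    have e4 : (m : ℤ) - n = t * d := by rw [ht, sub_mul]; linarith only [e1, e2]
    have ht0 : 0 ≤ t := by
      by_contra hc
      have : t * d < 0 := mul_neg_of_neg_of_pos (not_le.mp hc) (by linarith only [hd])
      have : (n : ℤ) ≤ m := by exact_mod_cast hnm
      linarith
    have ht2 : t < 2 := by
      by_contra hc
      have hc' : 2 ≤ t := not_lt.mp hc
      have c1 : (t - 1) * |k| < t * d := by
        have : |k| * (f n : ℤ) - |k| * (f m : ℤ) = t * |k| := by rw [ht]; ring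
        have c2 : (t - 1) * |k| = t * |k| - |k| := by ring
        linarith only [e1, e2, a1, a2, b1, b4, hz]
      have c3 : (t - 1) * (2 * (d : ℤ)) ≤ (t - 1) * |k| :=
        mul_le_mul_of_nonneg_left hk (by linarith only [hc])
      nlinarith only [e1, e2, a1, a2, b1, b4, hz, c3, hc]
    rw [mem_insert, mem_insert, mem_singleton]
    have : t = 0 ∨ t = 1 := by omega
    rcases this with h | h
    · left
      rw [h] at e4
      simp at e4
      omega
    · right; left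
      rw [h, one_mul] at e4
      omega
  refine (Finset.card_le_card hsub).trans ?_
  exact Finset.card_le_three

theorem pairG (h : ℕ → ℝ) (M : ℝ) (N a0 H Q d : ℕ) (k : ℤ) (hd : 1 ≤ d)
    (hk : 2 * (d : ℤ) ≤ |k|) (hM0 : 0 ≤ M) (hM : ∀ n : ℕ, n ≤ N + 2 * Q * d → |h n| ≤ M) :
    ∑ n ∈ Icc 1 N, GG h a0 H Q d k n ^ 2
      ≤ 6 * ∑ w ∈ range (N + 2 * Q * d + 1), Wd h d (H / k.natAbs * d) w ^ 2
        + 2 * N * M ^ 2 + 2 * H * (((H / k.natAbs : ℕ) : ℝ) + 1) ^ 2 * M ^ 2 := by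
  classical
  have hdZ : (1 : ℤ) ≤ d := by exact_mod_cast hd
  have hpos : 0 < |k| := by linarith only [hd, hk]
  have hk0 : k ≠ 0 := abs_pos.mp hpos
  set m := H / k.natAbs with hm
  set C : ℝ := ((m : ℝ) + 1) ^ 2 * M ^ 2 with hC
  have hC0 : 0 ≤ C := by positivity
  let f : ℕ → ℕ := fun n => (pairG_z a0 H k n / |k|).toNat
  let Bd : ℕ → Prop := fun n => pairG_P a0 H k n Q ∨ pairG_P a0 H k n (2 * Q)
  let Gd : ℕ → Prop := fun n => ¬ Bd n ∧ ∃ q ∈ Ioc Q (2 * Q), pairG_P a0 H k n q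
  have hGd : ∀ n, Gd n → (Q : ℤ) ≤ pairG_z a0 H k n / |k| ∧ (pairG_z a0 H k n + H) / |k| ≤ 2 * Q := by
    rintro n ⟨h1, q, hq, hP⟩
    exact pairG_ends a0 H Q k n q hk0 (fun h => h1 (Or.inl h)) (fun h => h1 (Or.inr h)) hq hP
  have hmono : ∀ n : ℕ, pairG_z a0 H k n / |k| ≤ (pairG_z a0 H k n + H) / |k| := by
    intro n
    apply Int.ediv_le_ediv hpos
    have : (0 : ℤ) ≤ H := Int.natCast_nonneg H
    linarith only
  have hf : ∀ n, Gd n → (f n : ℤ) = pairG_z a0 H k n / |k| := by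
    intro n hn
    apply Int.toNat_of_nonneg
    have := (hGd n hn).1
    have : (0 : ℤ) ≤ Q := Int.natCast_nonneg Q
    linarith
  -- pointwise
  have hpt : ∀ n ∈ Icc 1 N, GG h a0 H Q d k n ^ 2
      ≤ (if Gd n then 2 * Wd h d (m * d) (n + f n * d) ^ 2 else 0) + 2 * M ^ 2
        + (if Bd n then C else 0) := by
    intro n hn
    rw [mem_Icc] at hn
    by_cases hB : Bd n
    · rw [if_pos hB]
      have h1 := pairG_all h M N a0 H Q d k n hk0 hM hM0 hn.2
      have h2 : 0 ≤ (if Gd n then 2 * Wd h d (m * d) (n + f n * d) ^ 2 else 0) := by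
        split_ifs
        · positivity
        · exact le_refl _
      have h3 : 0 ≤ 2 * M ^ 2 := by positivity
      linarith only [h1, h2, h3]
    · rw [if_neg hB]
      by_cases hG : Gd n
      · rw [if_pos hG, add_zero]
        obtain ⟨g1, g2⟩ := hGd n hG
        have hq1 : (((pairG_z a0 H k n + H) / |k|).toNat : ℤ) = (pairG_z a0 H k n + H) / |k| := by
          apply Int.toNat_of_nonneg
          have h1 := hmono n
          have : (0 : ℤ) ≤ Q := Int.natCast_nonneg Q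
          linarith only [g1, h1]
        exact pairG_good h M N a0 H Q d k n (f n) (((pairG_z a0 H k n + H) / |k|).toNat) hk0 hd hM
          hn.2 (hf n hG) hq1 (by have := hf n hG; omega) (by omega)
      · rw [if_neg hG]
        have : GG h a0 H Q d k n = 0 := by
          unfold GG
          apply Finset.sum_eq_zero
          intro q hq
          exfalso
          rw [mem_filter] at hq
          exact hG ⟨hB, q, hq.1, hq.2⟩
        rw [this]
        have : 0 ≤ 2 * M ^ 2 := by positivity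
        simp only [ne_eq, OfNat.ofNat_ne_zero, not_false_eq_true, zero_pow, zero_add, add_zero]
        exact this
  refine (Finset.sum_le_sum hpt).trans ?_
  rw [Finset.sum_add_distrib, Finset.sum_add_distrib]
  have hS1 : ∑ n ∈ Icc 1 N, (if Gd n then 2 * Wd h d (m * d) (n + f n * d) ^ 2 else 0)
      ≤ 6 * ∑ w ∈ range (N + 2 * Q * d + 1), Wd h d (m * d) w ^ 2 := by
    rw [← Finset.sum_filter]
    rw [← Finset.sum_fiberwise_of_maps_to (s := (Icc 1 N).filter Gd)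
      (t := range (N + 2 * Q * d + 1)) (g := fun n => n + f n * d)]
    · rw [Finset.mul_sum]
      apply Finset.sum_le_sum
      intro w _
      have hcard : (((Icc 1 N).filter Gd).filter (fun n => n + f n * d = w)).card ≤ 3 := by
        apply pairG_fib a0 H d w k hd hk _ f
        · intro n hn
          rw [mem_filter, mem_filter] at hn
          exact hf n hn.1.2
        · intro n hn
          rw [mem_filter, mem_filter] at hn
          exact hn.2
      calc ∑ n ∈ ((Icc 1 N).filter Gd).filter (fun n => n + f n * d = w),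
            2 * Wd h d (m * d) (n + f n * d) ^ 2
          = ∑ n ∈ ((Icc 1 N).filter Gd).filter (fun n => n + f n * d = w),
            2 * Wd h d (m * d) w ^ 2 := by
            apply Finset.sum_congr rfl
            intro n hn
            rw [mem_filter] at hn
            rw [hn.2]
        _ = ((((Icc 1 N).filter Gd).filter (fun n => n + f n * d = w)).card : ℝ)
            * (2 * Wd h d (m * d) w ^ 2) := by
            rw [Finset.sum_const, nsmul_eq_mul]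
        _ ≤ 3 * (2 * Wd h d (m * d) w ^ 2) := by
            apply mul_le_mul_of_nonneg_right _ (by positivity)
            exact_mod_cast hcard
        _ = 6 * Wd h d (m * d) w ^ 2 := by ring
    · intro n hn
      rw [mem_filter, mem_Icc] at hn
      rw [mem_range]
      obtain ⟨g1, g2⟩ := hGd n hn.2
      have h1 := hmono n
      have h2 := hf n hn.2
      have h3 : f n ≤ 2 * Q := by omega
      have h4 : f n * d ≤ 2 * Q * d := Nat.mul_le_mul_right d h3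
      show n + f n * d < N + 2 * Q * d + 1
      omega
  have hS2 : ∑ n ∈ Icc 1 N, 2 * M ^ 2 = 2 * N * M ^ 2 := by
    rw [Finset.sum_const, nsmul_eq_mul, Nat.card_Icc]
    simp
    ring
  have hS3 : ∑ n ∈ Icc 1 N, (if Bd n then C else 0) ≤ 2 * H * ((m : ℝ) + 1) ^ 2 * M ^ 2 := by
    rw [← Finset.sum_filter, Finset.sum_const, nsmul_eq_mul]
    have hcard : ((Icc 1 N).filter Bd).card ≤ 2 * H := by
      have e : (Icc 1 N).filter Bd ⊆
          (Icc 1 N).filter (fun n : ℕ => (a0 : ℤ) < (n : ℤ) - (Q : ℤ) * k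
            ∧ (n : ℤ) - (Q : ℤ) * k ≤ a0 + H)
          ∪ (Icc 1 N).filter (fun n : ℕ => (a0 : ℤ) < (n : ℤ) - ((2 * Q : ℕ) : ℤ) * k
            ∧ (n : ℤ) - ((2 * Q : ℕ) : ℤ) * k ≤ a0 + H) := by
        intro n hn
        rw [mem_filter] at hn
        rw [mem_union, mem_filter, mem_filter]
        rcases hn.2 with h | h
        · left; exact ⟨hn.1, h⟩
        · right; exact ⟨hn.1, h⟩
      refine (Finset.card_le_card e).trans ((Finset.card_union_le _ _).trans ?_)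
      have h1 := pairG_card1 a0 H N ((Q : ℤ) * k)
      have h2 := pairG_card1 a0 H N (((2 * Q : ℕ) : ℤ) * k)
      omega
    have hcard' : ((((Icc 1 N).filter Bd).card : ℕ) : ℝ) ≤ 2 * H := by exact_mod_cast hcard
    calc ((((Icc 1 N).filter Bd).card : ℕ) : ℝ) * C ≤ 2 * H * C :=
          mul_le_mul_of_nonneg_right hcard' hC0
      _ = 2 * H * ((m : ℝ) + 1) ^ 2 * M ^ 2 := by rw [hC]; ring
  rw [hS2]
  linarith only [hS1, hS3]

end Pool.Agent.H91.L1

end

section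

/-!
# EHB ZZb: the bound for `ZZ`

See the header of `ApSum`: `ZZ S t = ∑_{k ∈ S} k^{-1/2} k^{it}`, `k^{it} = ee((t/2π) log k)`.  The `k ≤ u0 = K/(log x)^{c+3}` contribute at most
`2 √u0`; for the others Abel summation with `ap_sum` (used with exponent `kap/2` and saving `c + 3`, for `u ≥ u0 ≥ x^{kap/2}`, and `t/(2π)` in place
of `t`): `|∑_{u0 < k ≤ K} k^{-1/2} a_k| ≤ 2 max_u |∑_{k≤u} a_k| u0^{-1/2}`... more precisely
`|∑_{u0<k≤K}| ≤ A(K) K^{-1/2} + A(u0) u0^{-1/2} + ∫_{u0}^K A(u) u^{-3/2}/2 du` with `A(u) ≤ u/(log x)^{c+3}`, at most `3 √K/(log x)^{c+3}`.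
Square and compare with `K/(log x)^c`.
-/

set_option autoImplicit false

namespace Pool.Agent.H76.EHB

open Finset
open Pool.Agent.H91.PK (ee)

end Pool.Agent.H76.EHB

end

section

/-!
# PSI BoxD: boxes of factors (definition) and trivial bounds
-/

set_option autoImplicit false

namespace Pool.Agent.H88.PSI

open Finset MeasureTheory

/-- `r ≤ 6` factors `g i` supported on `[N i, 2 N i)`, bounded by `2 log X`, `N i ≤ X^(11/24)`, `∏ N i ≤ 3 X` -/
structure Box (X : ℕ) {r : ℕ} (N : Fin r → ℕ) (g : Fin r → ArithmeticFunction ℂ) : Prop where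
  hr : r ≤ 6
  one : ∀ i, 1 ≤ N i
  top : ∀ i, (N i : ℝ) ≤ (X : ℝ) ^ (11 / 24 : ℝ)
  prod : ∏ i, N i ≤ 3 * X
  supp : ∀ i n, g i n ≠ 0 → N i ≤ n ∧ n < 2 * N i
  bd : ∀ i n, ‖g i n‖ ≤ 2 * Real.log X

/-- the absolute value of the Dirichlet polynomial of the box -/
noncomputable def FF {r : ℕ} (N : Fin r → ℕ) (g : Fin r → ArithmeticFunction ℂ) (t : ℝ) : ℝ :=
  ∏ i, ‖DP (g i) (2 * N i) t‖

theorem ff_cont {r : ℕ} (N : Fin r → ℕ) (g : Fin r → ArithmeticFunction ℂ) :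
    Continuous (FF N g) := by
  unfold FF
  exact continuous_finsetProd _ fun i _ => (dp_cont _ _).norm

theorem ff_nonneg {r : ℕ} (N : Fin r → ℕ) (g : Fin r → ArithmeticFunction ℂ) (t : ℝ) :
    0 ≤ FF N g t := by
  unfold FF
  exact Finset.prod_nonneg fun i _ => norm_nonneg _

/-- the trivial bound for one factor -/
theorem box_tr {X r : ℕ} {N : Fin r → ℕ} {g : Fin r → ArithmeticFunction ℂ} (h : Box X N g)
    (i : Fin r) (t : ℝ) : ‖DP (g i) (2 * N i) t‖ ≤ 2 * Real.log X * N i := by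
  have hL : 0 ≤ 2 * Real.log X := (norm_nonneg _).trans (h.bd i 1)
  refine (dp_norm_le _ _ t).trans ?_
  have h1 : ∑ n ∈ Icc 1 (2 * N i), ‖g i n‖ = ∑ n ∈ Ico (N i) (2 * N i), ‖g i n‖ := by
    symm
    apply sum_subset
    · intro n hn
      have h2 := mem_Ico.mp hn
      have h3 := h.one i
      exact mem_Icc.mpr ⟨by omega, by omega⟩
    · intro n _ hn
      by_contra h0
      have h4 : g i n ≠ 0 := fun h5 => h0 (by rw [h5, norm_zero])
      exact hn (mem_Ico.mpr (h.supp i n h4))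
  rw [h1]
  calc ∑ n ∈ Ico (N i) (2 * N i), ‖g i n‖ ≤ ∑ n ∈ Ico (N i) (2 * N i), 2 * Real.log X :=
        sum_le_sum fun n _ => h.bd i n
    _ = 2 * Real.log X * N i := by
        rw [sum_const, Nat.card_Ico, nsmul_eq_mul, mul_comm]
        congr 1
        have : 2 * N i - N i = N i := by omega
        rw [this]

end Pool.Agent.H88.PSI

end

section

/-!
# PSI Lvk: large values of powers

`b = g^k` (`dp_pow` with the bound `2 N`; `M = (2 N)^k ≤ X`), `|b(n)| ≤ (2 L)^k tau(n)^k` (`prod_bd` with the constant family, `∏ i : Fin k, g = g^k`), so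
`SS b M ≤ M X^(e1/8)` (`tau_eps`).  `mvt`: `V^(2k) |B| ≤ (2 T + 4 M (1 + log M)) SS`; `huxley` with `V^k`.  Constants `2^(4k)`, `L^6` are
absorbed in `X^e1`.
-/

set_option autoImplicit false

namespace Pool.Agent.H88.PSI

open Finset MeasureTheory

private theorem Lvk_log (n : ℕ) (A δ : ℝ) (hδ : 0 < δ) :
    ∃ X0 : ℕ, ∀ X : ℕ, X0 ≤ X → A * Real.log X ^ n ≤ (X : ℝ) ^ δ := by
  have h1 := (isLittleO_log_rpow_rpow_atTop (n : ℝ) hδ).comp_tendsto tendsto_natCast_atTop_atTop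
  have hc : 0 < 1 / (|A| + 1) := by positivity
  have h2 := h1.def hc
  rw [Filter.eventually_atTop] at h2
  obtain ⟨X0, hX0⟩ := h2
  refine ⟨X0, fun X hX => ?_⟩
  have h3 := hX0 X hX
  simp only [Function.comp_apply, Real.rpow_natCast] at h3
  have h4 : (0 : ℝ) ≤ (X : ℝ) ^ δ := by positivity
  rw [Real.norm_of_nonneg h4, Real.norm_eq_abs] at h3
  have h5 : A * Real.log X ^ n ≤ |A| * |Real.log X ^ n| := by
    rw [← abs_mul]
    exact le_abs_self _
  have h6 : |A| * |Real.log X ^ n| ≤ |A| * (1 / (|A| + 1) * (X : ℝ) ^ δ) :=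
    mul_le_mul_of_nonneg_left h3 (abs_nonneg _)
  have h7 : |A| * (1 / (|A| + 1) * (X : ℝ) ^ δ) = |A| / (|A| + 1) * (X : ℝ) ^ δ := by ring
  have h8 : |A| / (|A| + 1) ≤ 1 := by
    rw [div_le_one (by positivity)]
    linarith only
  have h9 : |A| / (|A| + 1) * (X : ℝ) ^ δ ≤ 1 * (X : ℝ) ^ δ := mul_le_mul_of_nonneg_right h8 h4
  linarith only [h5, h6, h7, h9]

/-- the second moment of the coefficients -/
private theorem Lvk_SS (k : ℕ) (e1 : ℝ) (hk : 1 ≤ k) (he1 : 0 < e1) : ∃ X0 : ℕ, ∀ X : ℕ, X0 ≤ X →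
    ∀ (M : ℕ) (g : ArithmeticFunction ℂ), M ≤ X → (∀ n, ‖g n‖ ≤ 2 * Real.log X) →
      SS (⇑(g ^ k)) M ≤ M * (X : ℝ) ^ (e1 / 16) := by
  have hk0 : (0 : ℝ) < k := by exact_mod_cast hk
  have he : 0 < e1 / (64 * k) := by positivity
  obtain ⟨C1, hC1, htau⟩ := tau_eps (e1 / (64 * k)) he
  obtain ⟨X1, hX1⟩ := Lvk_log (2 * k) ((4 * C1) ^ (2 * k) * 2 ^ (2 * k)) (e1 / 32) (by positivity)
  refine ⟨max 3 X1, fun X hX M g hM hg => ?_⟩
  have hX3 : 3 ≤ X := (le_max_left _ _).trans hX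
  have hX3' : (3 : ℝ) ≤ X := by exact_mod_cast hX3
  have hXpos : (0 : ℝ) < X := by linarith only [hX3']
  have hL : 1 ≤ Real.log X := by
    rw [Real.le_log_iff_exp_le hXpos]
    have := Real.exp_one_lt_d9
    linarith only [hX3', this]
  have h1 := hX1 X ((le_max_right _ _).trans hX)
  have hprod : ∀ n, ‖(g ^ k) n‖ ≤ (2 * Real.log X) ^ k * tau n ^ k := by
    intro n
    have h2 := prod_bd (fun _ : Fin k => g) (2 * Real.log X) (by linarith) (fun _ n => hg n) n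
    rwa [prod_const, card_univ, Fintype.card_fin] at h2
  have hterm : ∀ n ∈ Icc 1 M, ‖(g ^ k) n‖ ^ 2 ≤ (X : ℝ) ^ (e1 / 16) := by
    intro n hn
    rw [mem_Icc] at hn
    have hn1 : (1 : ℝ) ≤ n := by exact_mod_cast hn.1
    have hnX : (n : ℝ) ≤ X := by exact_mod_cast hn.2.trans hM
    set e := e1 / (64 * k) with hedef
    have hXe : 1 ≤ (X : ℝ) ^ e := Real.one_le_rpow (by linarith only [hX3']) he.le
    have hne : (n : ℝ) ^ e ≤ (X : ℝ) ^ e := Real.rpow_le_rpow (by linarith only [hn1]) hnX he.le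
    have htn : tau n ≤ 2 * C1 * (X : ℝ) ^ e := by
      have h3 := htau n
      nlinarith only [hXe, hne, h3, hC1]
    have htn0 : 0 ≤ tau n := by
      unfold tau
      positivity
    have h4 : tau n ^ k ≤ (2 * C1 * (X : ℝ) ^ e) ^ k := pow_le_pow_left₀ htn0 htn k
    have h5 : ‖(g ^ k) n‖ ≤ (2 * Real.log X) ^ k * (2 * C1 * (X : ℝ) ^ e) ^ k :=
      (hprod n).trans (mul_le_mul_of_nonneg_left h4 (by positivity))
    have h6 : ‖(g ^ k) n‖ ^ 2 ≤ ((2 * Real.log X) ^ k * (2 * C1 * (X : ℝ) ^ e) ^ k) ^ 2 :=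
      pow_le_pow_left₀ (norm_nonneg _) h5 2
    have h7 : ((2 * Real.log X) ^ k * (2 * C1 * (X : ℝ) ^ e) ^ k) ^ 2 =
        ((4 * C1) ^ (2 * k) * Real.log X ^ (2 * k)) * ((X : ℝ) ^ e) ^ (2 * k) := by
      rw [← mul_pow, ← mul_pow, ← mul_pow, ← pow_mul, mul_comm k 2]
      congr 1
      ring
    have h8 : ((X : ℝ) ^ e) ^ (2 * k) = (X : ℝ) ^ (e1 / 32) := by
      rw [← Real.rpow_natCast, ← Real.rpow_mul hXpos.le]
      congr 1
      rw [hedef]
      push_cast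
      field_simp
      ring
    have h9 : (4 * C1) ^ (2 * k) * Real.log X ^ (2 * k) ≤ (X : ℝ) ^ (e1 / 32) := by
      refine le_trans ?_ h1
      have h10 : (1 : ℝ) ≤ 2 ^ (2 * k) := one_le_pow₀ (by norm_num)
      have h11 : 0 ≤ (4 * C1) ^ (2 * k) := by positivity
      have h12 : (4 * C1) ^ (2 * k) ≤ (4 * C1) ^ (2 * k) * 2 ^ (2 * k) := by nlinarith only [h10, h11]
      exact mul_le_mul_of_nonneg_right h12 (by positivity)
    have h13 : (X : ℝ) ^ (e1 / 32) * (X : ℝ) ^ (e1 / 32) = (X : ℝ) ^ (e1 / 16) := by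
      rw [← Real.rpow_add hXpos]
      congr 1
      ring
    calc ‖(g ^ k) n‖ ^ 2 ≤ ((4 * C1) ^ (2 * k) * Real.log X ^ (2 * k)) * ((X : ℝ) ^ e) ^ (2 * k) := by
          rw [← h7]
          exact h6
      _ ≤ (X : ℝ) ^ (e1 / 32) * (X : ℝ) ^ (e1 / 32) := by
          rw [h8]
          exact mul_le_mul_of_nonneg_right h9 (by positivity)
      _ = _ := h13
  unfold SS
  refine (sum_le_sum hterm).trans (le_of_eq ?_)
  rw [sum_const, Nat.card_Icc, nsmul_eq_mul]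
  congr 2

theorem lvk (k : ℕ) (e1 : ℝ) (hk : 1 ≤ k) (he1 : 0 < e1) : ∃ X0 : ℕ, ∀ X : ℕ, X0 ≤ X →
    ∀ (N : ℕ) (g : ArithmeticFunction ℂ) (V T : ℝ) (B : Set ℝ), 1 ≤ N → (2 * N) ^ k ≤ X →
    (∀ n, g n ≠ 0 → n ≤ 2 * N) → (∀ n, ‖g n‖ ≤ 2 * Real.log X) → 0 < V → 1 ≤ T → T ≤ X →
    MeasurableSet B → B ⊆ Set.Icc (-T) T → (∀ t ∈ B, V ≤ ‖DP g (2 * N) t‖) →
    volume.real B ≤ (X : ℝ) ^ e1 * ((N : ℝ) ^ (2 * k) / V ^ (2 * k) +
      min (T * (N : ℝ) ^ k / V ^ (2 * k)) (T * (N : ℝ) ^ (4 * k) / V ^ (6 * k))) := by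
  obtain ⟨C0, hC0, hux⟩ := huxley
  obtain ⟨X1, hX1⟩ := Lvk_SS k e1 hk he1
  obtain ⟨X2, hX2⟩ := Lvk_log 1 (8 * 4 ^ k) (e1 / 16) (by positivity)
  obtain ⟨X3, hX3⟩ := Lvk_log 6 (C0 * 16 ^ k) (e1 / 16) (by positivity)
  refine ⟨max (max 3 X1) (max X2 X3), fun X hX N g V T B hN hNX hsupp hg hV hT hTX hBm hB hBV => ?_⟩
  have hX3a : 3 ≤ X := (le_max_left _ _).trans ((le_max_left _ _).trans hX)
  have hX1a : X1 ≤ X := (le_max_right _ _).trans ((le_max_left _ _).trans hX)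
  have hX2a : X2 ≤ X := (le_max_left _ _).trans ((le_max_right _ _).trans hX)
  have hX3b : X3 ≤ X := (le_max_right _ _).trans ((le_max_right _ _).trans hX)
  have hX3' : (3 : ℝ) ≤ X := by exact_mod_cast hX3a
  have hXpos : (0 : ℝ) < X := by linarith only [hX3']
  have hL : 1 ≤ Real.log X := by
    rw [Real.le_log_iff_exp_le hXpos]
    have := Real.exp_one_lt_d9
    linarith only [hX3', this]
  have h2 := hX2 X hX2a
  have h3 := hX3 X hX3b
  rw [pow_one] at h2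
  set Y : ℝ := (X : ℝ) ^ (e1 / 16) with hY
  have hY1 : 1 ≤ Y := Real.one_le_rpow (by linarith only [hX3']) (by positivity)
  have hY0 : 0 < Y := by linarith only [hY1]
  have hY16 : Y ^ 16 = (X : ℝ) ^ e1 := by
    rw [hY, ← Real.rpow_natCast, ← Real.rpow_mul hXpos.le]
    congr 1
    push_cast
    ring
  set M : ℕ := (2 * N) ^ k with hM
  have hM1 : 1 ≤ M := Nat.one_le_pow _ _ (by omega)
  have hMR : (M : ℝ) = 2 ^ k * (N : ℝ) ^ k := by
    rw [hM]
    push_cast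
    rw [mul_pow]
  have hS := hX1 X hX1a M g hNX hg
  set S := SS (⇑(g ^ k)) M with hSdef
  have hS0 : 0 ≤ S := by
    rw [hSdef]
    unfold SS
    exact sum_nonneg fun n _ => by positivity
  have hDP : ∀ t, DP (⇑(g ^ k)) M t = DP g (2 * N) t ^ k := fun t => dp_pow g (2 * N) k hsupp t
  have hVt : ∀ t ∈ B, V ^ k ≤ ‖DP (⇑(g ^ k)) M t‖ := by
    intro t ht
    rw [hDP, norm_pow]
    exact pow_le_pow_left₀ hV.le (hBV t ht) k
  have hNR : (1 : ℝ) ≤ N := by exact_mod_cast hN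
  have hlogM : Real.log M ≤ Real.log X :=
    Real.log_le_log (by exact_mod_cast hM1) (by exact_mod_cast hNX)
  -- the mean value theorem
  have b1 : volume.real B ≤ (X : ℝ) ^ e1 * ((N : ℝ) ^ (2 * k) / V ^ (2 * k) +
      T * (N : ℝ) ^ k / V ^ (2 * k)) := by
    have hm := mvt (⇑(g ^ k)) M T hM1 (by linarith only [hT])
    have hcont : Continuous fun t => ‖DP (⇑(g ^ k)) M t‖ ^ 2 := (dp_cont _ M).norm.pow 2
    have hint : IntegrableOn (fun t => ‖DP (⇑(g ^ k)) M t‖ ^ 2) (Set.Icc (-T) T) :=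
      hcont.continuousOn.integrableOn_Icc
    have hfin : volume B ≠ ⊤ :=
      ne_top_of_le_ne_top (by rw [Real.volume_Icc]; exact ENNReal.ofReal_ne_top) (measure_mono hB)
    have e1' : volume.real B * V ^ (2 * k) ≤ ∫ t in B, ‖DP (⇑(g ^ k)) M t‖ ^ 2 := by
      have h4 : ∫ t in B, (V ^ (2 * k) : ℝ) = volume.real B * V ^ (2 * k) := by
        rw [setIntegral_const, smul_eq_mul]
      rw [← h4]
      refine setIntegral_mono_on (integrableOn_const hfin) (hint.mono_set hB) hBm fun t ht => ?_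
      have h5 := pow_le_pow_left₀ (by positivity) (hVt t ht) 2
      rwa [← pow_mul, mul_comm k 2] at h5
    have e2 : ∫ t in B, ‖DP (⇑(g ^ k)) M t‖ ^ 2 ≤
        ∫ t in Set.Icc (-T) T, ‖DP (⇑(g ^ k)) M t‖ ^ 2 :=
      setIntegral_mono_set hint (Filter.Eventually.of_forall fun t => by positivity)
        hB.eventuallyLE
    have e3 : volume.real B * V ^ (2 * k) ≤ (2 * T + 4 * M * (1 + Real.log M)) * S :=
      e1'.trans (e2.trans hm)
    have e4 : (2 * T + 4 * M * (1 + Real.log M)) * S ≤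
        (2 * T + 4 * M * (2 * Real.log X)) * (M * Y) := by
      refine mul_le_mul ?_ hS hS0 (by positivity)
      have h6 : (M : ℝ) * (1 + Real.log M) ≤ M * (2 * Real.log X) :=
        mul_le_mul_of_nonneg_left (by linarith only [hL, hlogM]) (by positivity)
      linarith only [h6]
    have e5 : (2 * T + 4 * M * (2 * Real.log X)) * (M * Y) ≤
        Y ^ 16 * ((N : ℝ) ^ (2 * k) + T * (N : ℝ) ^ k) := by
      rw [hMR]
      have a1 : (2 : ℝ) * 2 ^ k ≤ 8 * 4 ^ k * Real.log X := by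
        have a2 : (2 : ℝ) ^ k ≤ 4 ^ k := pow_le_pow_left₀ (by norm_num) (by norm_num) k
        have a3 : (0 : ℝ) < 4 ^ k := by positivity
        nlinarith only [a2, a3, hL]
      have a4 : (2 : ℝ) * 2 ^ k ≤ Y := a1.trans h2
      have a5 : Y * Y ≤ Y ^ 16 := by
        rw [← pow_two]
        exact pow_le_pow_right₀ hY1 (by norm_num)
      have a6 : (4 : ℝ) ^ k = 2 ^ k * 2 ^ k := by
        rw [← mul_pow]
        norm_num
      have a7 : (N : ℝ) ^ (2 * k) = (N : ℝ) ^ k * (N : ℝ) ^ k := by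
        rw [two_mul, pow_add]
      have a8 : 8 * (2 ^ k * 2 ^ k) * Real.log X ≤ Y := by
        rw [← a6]
        exact h2
      have p1 : 0 ≤ T * (N : ℝ) ^ k * Y := by positivity
      have p2 : 0 ≤ (N : ℝ) ^ k * (N : ℝ) ^ k * Y := by positivity
      calc (2 * T + 4 * (2 ^ k * (N : ℝ) ^ k) * (2 * Real.log X)) * (2 ^ k * (N : ℝ) ^ k * Y) =
          (2 * 2 ^ k) * (T * (N : ℝ) ^ k * Y) +
            (8 * (2 ^ k * 2 ^ k) * Real.log X) * ((N : ℝ) ^ k * (N : ℝ) ^ k * Y) := by ring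
        _ ≤ Y * (T * (N : ℝ) ^ k * Y) + Y * ((N : ℝ) ^ k * (N : ℝ) ^ k * Y) :=
            add_le_add (mul_le_mul_of_nonneg_right a4 p1) (mul_le_mul_of_nonneg_right a8 p2)
        _ = (Y * Y) * ((N : ℝ) ^ (2 * k) + T * (N : ℝ) ^ k) := by
            rw [a7]
            ring
        _ ≤ Y ^ 16 * ((N : ℝ) ^ (2 * k) + T * (N : ℝ) ^ k) :=
            mul_le_mul_of_nonneg_right a5 (by positivity)
    rw [← hY16, ← add_div, mul_div_assoc', le_div_iff₀ (by positivity)]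
    exact e3.trans (e4.trans e5)
  -- Huxley
  have b2 : volume.real B ≤ (X : ℝ) ^ e1 * ((N : ℝ) ^ (2 * k) / V ^ (2 * k) +
      T * (N : ℝ) ^ (4 * k) / V ^ (6 * k)) := by
    have hh := hux X M (⇑(g ^ k)) (V ^ k) T B hX3a hM1 hNX (by positivity) hT hTX hBm hB hVt
    rw [← hSdef, ← pow_mul, ← pow_mul, mul_comm k 2, mul_comm k 6] at hh
    refine hh.trans ?_
    have a1 : M * S ≤ 16 ^ k * Y ^ 3 * (N : ℝ) ^ (2 * k) := by
      have c1 : M * S ≤ M * (M * Y) := mul_le_mul_of_nonneg_left hS (by positivity)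
      have c2 : (M : ℝ) * (M * Y) = 4 ^ k * Y * (N : ℝ) ^ (2 * k) := by
        have c3 : (4 : ℝ) ^ k = 2 ^ k * 2 ^ k := by
          rw [← mul_pow]
          norm_num
        rw [hMR, c3, two_mul, pow_add]
        ring
      have c4 : (4 : ℝ) ^ k ≤ 16 ^ k := pow_le_pow_left₀ (by norm_num) (by norm_num) k
      have c5 : Y ≤ Y ^ 3 := le_self_pow₀ hY1 (by norm_num)
      have c6 : (4 : ℝ) ^ k * Y ≤ 16 ^ k * Y ^ 3 := mul_le_mul c4 c5 hY0.le (by positivity)
      have c7 : 4 ^ k * Y * (N : ℝ) ^ (2 * k) ≤ 16 ^ k * Y ^ 3 * (N : ℝ) ^ (2 * k) :=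
        mul_le_mul_of_nonneg_right c6 (by positivity)
      linarith only [c1, c2, c7]
    have a2 : M * S ^ 3 ≤ 16 ^ k * Y ^ 3 * (N : ℝ) ^ (4 * k) := by
      have c1 : S ^ 3 ≤ (M * Y) ^ 3 := pow_le_pow_left₀ hS0 hS 3
      have c2 : (M : ℝ) * S ^ 3 ≤ M * (M * Y) ^ 3 := mul_le_mul_of_nonneg_left c1 (by positivity)
      have c3 : (M : ℝ) * (M * Y) ^ 3 = 16 ^ k * Y ^ 3 * (N : ℝ) ^ (4 * k) := by
        have c4 : (16 : ℝ) ^ k = (2 ^ k) ^ 4 := by
          rw [← pow_mul, mul_comm, pow_mul]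
          norm_num
        have c5 : (N : ℝ) ^ (4 * k) = ((N : ℝ) ^ k) ^ 4 := by
          rw [← pow_mul, mul_comm]
        rw [hMR, c4, c5]
        ring
      linarith only [c2, c3]
    have p1 : 0 < V ^ (2 * k) := by positivity
    have p2 : 0 < V ^ (6 * k) := by positivity
    have a3 : M * S / V ^ (2 * k) ≤ 16 ^ k * Y ^ 3 * ((N : ℝ) ^ (2 * k) / V ^ (2 * k)) := by
      rw [mul_div_assoc']
      exact div_le_div_of_nonneg_right a1 p1.le
    have a4 : T * M * S ^ 3 / V ^ (6 * k) ≤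
        16 ^ k * Y ^ 3 * (T * (N : ℝ) ^ (4 * k) / V ^ (6 * k)) := by
      rw [mul_div_assoc']
      refine div_le_div_of_nonneg_right ?_ p2.le
      have := mul_le_mul_of_nonneg_left a2 (by linarith only [hT] : (0 : ℝ) ≤ T)
      linarith only [this]
    have p3 : 0 ≤ (N : ℝ) ^ (2 * k) / V ^ (2 * k) + T * (N : ℝ) ^ (4 * k) / V ^ (6 * k) := by
      positivity
    calc C0 * Real.log X ^ 6 * (M * S / V ^ (2 * k) + T * M * S ^ 3 / V ^ (6 * k)) ≤
        C0 * Real.log X ^ 6 * (16 ^ k * Y ^ 3 * ((N : ℝ) ^ (2 * k) / V ^ (2 * k)) +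
          16 ^ k * Y ^ 3 * (T * (N : ℝ) ^ (4 * k) / V ^ (6 * k))) :=
          mul_le_mul_of_nonneg_left (add_le_add a3 a4) (by positivity)
      _ = (C0 * 16 ^ k * Real.log X ^ 6) * Y ^ 3 * ((N : ℝ) ^ (2 * k) / V ^ (2 * k) +
          T * (N : ℝ) ^ (4 * k) / V ^ (6 * k)) := by ring
      _ ≤ Y * Y ^ 3 * ((N : ℝ) ^ (2 * k) / V ^ (2 * k) +
          T * (N : ℝ) ^ (4 * k) / V ^ (6 * k)) :=
          mul_le_mul_of_nonneg_right (mul_le_mul_of_nonneg_right h3 (by positivity)) p3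
      _ ≤ Y ^ 16 * ((N : ℝ) ^ (2 * k) / V ^ (2 * k) +
          T * (N : ℝ) ^ (4 * k) / V ^ (6 * k)) := by
          refine mul_le_mul_of_nonneg_right ?_ p3
          rw [← pow_succ']
          exact pow_le_pow_right₀ hY1 (by norm_num)
      _ = _ := by rw [hY16]
  rcases min_choice (T * (N : ℝ) ^ k / V ^ (2 * k)) (T * (N : ℝ) ^ (4 * k) / V ^ (6 * k)) with
    h | h
  · rw [h]
    exact b1
  · rw [h]
    exact b2

end Pool.Agent.H88.PSI

end

section

/-!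
# PSI Lvs: large values of one factor, exponents

Choose `k` with `N^k ∈ [X^(2/3-e), X^(1-e)]`: `k = 2` if `N > X^(1/3)` (then `X^(2/3) < N^2 ≤ X^(11/12) ≤ X^(1-e)`), otherwise the least `k`
with `N^k ≥ X^(2/3-e)` (then `N^k < X^(2/3-e) N ≤ X^(1-e)`); `k ≤ 1/κ + 1`, so `X0` = the maximum of the `X0` of `lvk k (e δ/8)` (`lvk k (δ/2)`
for `lvl`) over these `k`, and `2^k X^(1-e) ≤ X`.  Write `N^k = X^u`, `u ∈ [2/3-e, 1-e]`, `V = N^σ`.  Exponents in `lvk`:
* first term: `2u(1-σ)`;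
* second: `5/6 - e + u(1-2σ)`, `5/6 - e + u(4-6σ)`.

`lvs`: `σ = s - eδ/4`.  First: `2u(1-σ) ≤ 2(1-e)(1-s+eδ/4) ≤ 2-2s - (3/2) e δ`.  Second: the smaller one is `≤ 2-2σ-e/2`:
for `σ ≤ 1/2`: `5/6-e+(1-2σ)`; for `1/2 ≤ σ ≤ 3/4`: `2-2σ-(5/6-e)-u(1-2σ) ≥ 1/2+2e-σ(2/3+2e) ≥ e/2`; for `3/4 ≤ σ ≤ 1`:
`2-2σ-(5/6-e)-u(4-6σ) ≥ -3/2+5e+σ(2-6e) ≥ e/2`.  And `2-2σ-e/2 = 2-2s+eδ/2-e/2 ≤ 2-2s-(9/8)eδ - e/16`-ish (`δ ≤ 1/4`).  Total
`X^(eδ/8) (X^(2-2s-3eδ/2) + X^(2-2s-9eδ/8-..)) ≤ X^(2-2s-eδ)`.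

`lvl`: `σ = 1-δ`: first `≤ 2δ`; second (Huxley) `5/6-e-2u+6uδ ≤ 5/6-4/3+2e+6δ < 0`.  Total `≤ X^(3δ)`.
-/

set_option autoImplicit false

namespace Pool.Agent.H88.PSI

open Finset MeasureTheory

private theorem lvs_k {x n e κ : ℝ} {K : ℕ} (hx : 3 ≤ x) (hn : 1 ≤ n) (he : 0 < e)
    (he' : e ≤ 1 / 100) (hK : 1 ≤ κ * K) (h1 : x ^ κ ≤ n)
    (h2 : n ≤ x ^ (11 / 24 : ℝ)) : ∃ j : ℕ, j < K + 2 ∧ x ^ (2 / 3 - e) ≤ n ^ (j + 1) ∧
      n ^ (j + 1) ≤ x ^ (1 - e) := by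
  have hx0 : 0 < x := by linarith only [hx, he, he']
  have hx1 : 1 < x := by linarith only [hx, he, he']
  have hn0 : 0 < n := by linarith
  by_cases h3 : x ^ (1 / 3 : ℝ) < n
  · refine ⟨1, by omega, ?_, ?_⟩
    · calc x ^ (2 / 3 - e) ≤ x ^ (1 / 3 + 1 / 3 : ℝ) :=
            Real.rpow_le_rpow_of_exponent_le hx1.le (by linarith only [he])
        _ = x ^ (1 / 3 : ℝ) * x ^ (1 / 3 : ℝ) := Real.rpow_add hx0 _ _
        _ ≤ n * n := mul_le_mul h3.le h3.le (Real.rpow_nonneg hx0.le _) hn0.le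
        _ = n ^ (1 + 1) := by ring
    · calc n ^ (1 + 1) = n * n := by ring
        _ ≤ x ^ (11 / 24 : ℝ) * x ^ (11 / 24 : ℝ) :=
            mul_le_mul h2 h2 hn0.le (Real.rpow_nonneg hx0.le _)
        _ = x ^ (11 / 24 + 11 / 24 : ℝ) := (Real.rpow_add hx0 _ _).symm
        _ ≤ x ^ (1 - e) := Real.rpow_le_rpow_of_exponent_le hx1.le (by linarith only [he, he'])
  · push Not at h3
    have hex : ∃ k : ℕ, x ^ (2 / 3 - e) ≤ n ^ k := by
      refine ⟨K, ?_⟩
      calc x ^ (2 / 3 - e) ≤ x ^ (κ * K) :=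
            Real.rpow_le_rpow_of_exponent_le hx1.le (by linarith only [he, he', hK])
        _ = (x ^ κ) ^ K := by rw [Real.rpow_mul hx0.le, Real.rpow_natCast]
        _ ≤ n ^ K := pow_le_pow_left₀ (Real.rpow_nonneg hx0.le _) h1 K
    classical
    have hle : Nat.find hex ≤ K := by
      refine Nat.find_min' hex ?_
      calc x ^ (2 / 3 - e) ≤ x ^ (κ * K) :=
            Real.rpow_le_rpow_of_exponent_le hx1.le (by linarith only [he, he', hK])
        _ = (x ^ κ) ^ K := by rw [Real.rpow_mul hx0.le, Real.rpow_natCast]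
        _ ≤ n ^ K := pow_le_pow_left₀ (Real.rpow_nonneg hx0.le _) h1 K
    have hne : Nat.find hex ≠ 0 := by
      intro h0
      have h4 := Nat.find_spec hex
      rw [h0, pow_zero] at h4
      have h5 : 1 < x ^ (2 / 3 - e) := Real.one_lt_rpow hx1 (by linarith only [he, he'])
      linarith only [h4, h5]
    obtain ⟨j, hj⟩ := Nat.exists_eq_succ_of_ne_zero hne
    refine ⟨j, by omega, ?_, ?_⟩
    · have h4 := Nat.find_spec hex
      rw [hj] at h4
      exact h4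
    · have h5 : ¬ x ^ (2 / 3 - e) ≤ n ^ j := Nat.find_min hex (by omega)
      push Not at h5
      calc n ^ (j + 1) = n ^ j * n := pow_succ _ _
        _ ≤ x ^ (2 / 3 - e) * x ^ (1 / 3 : ℝ) :=
            mul_le_mul h5.le h3 hn0.le (Real.rpow_nonneg hx0.le _)
        _ = x ^ (2 / 3 - e + 1 / 3) := (Real.rpow_add hx0 _ _).symm
        _ = x ^ (1 - e) := by congr 1; ring

private theorem lvs_core (e e1 κ : ℝ) (he : 0 < e) (he' : e ≤ 1 / 100) (he1 : 0 < e1)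
    (hκ : 0 < κ) : ∃ X0 : ℕ, ∀ X : ℕ, X0 ≤ X → 3 ≤ X ∧
    ∀ (N : ℕ) (g : ArithmeticFunction ℂ) (σ T : ℝ) (B : Set ℝ),
    (X : ℝ) ^ κ ≤ N → (N : ℝ) ≤ (X : ℝ) ^ (11 / 24 : ℝ) →
    (∀ n, g n ≠ 0 → n ≤ 2 * N) → (∀ n, ‖g n‖ ≤ 2 * Real.log X) →
    1 ≤ T → T ≤ (X : ℝ) ^ (5 / 6 - e) → MeasurableSet B → B ⊆ Set.Icc (-T) T →
    (∀ t ∈ B, (N : ℝ) ^ σ ≤ ‖DP g (2 * N) t‖) →
    ∃ u : ℝ, 2 / 3 - e ≤ u ∧ u ≤ 1 - e ∧ volume.real B ≤ (X : ℝ) ^ e1 *
      ((X : ℝ) ^ (2 * u * (1 - σ)) + min ((X : ℝ) ^ (5 / 6 - e + u * (1 - 2 * σ)))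
        ((X : ℝ) ^ (5 / 6 - e + u * (4 - 6 * σ)))) := by
  choose f hf using fun j : ℕ => lvk (j + 1) e1 (by omega) he1
  set K : ℕ := ⌈1 / κ⌉₊ with hK
  have hK1 : 1 ≤ κ * K := by
    have h1 : 1 / κ ≤ K := Nat.le_ceil _
    rw [div_le_iff₀ hκ] at h1
    linarith only [h1]
  refine ⟨max (∑ j ∈ range (K + 2), f j) (max 3 ⌈((2 : ℝ) ^ (K + 2)) ^ (1 / e)⌉₊),
    fun X hX => ?_⟩
  have hX1 : ∑ j ∈ range (K + 2), f j ≤ X := (le_max_left _ _).trans hX
  have hX3 : 3 ≤ X := (le_max_left _ _).trans ((le_max_right _ _).trans hX)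
  have hX2 : ⌈((2 : ℝ) ^ (K + 2)) ^ (1 / e)⌉₊ ≤ X :=
    (le_max_right _ _).trans ((le_max_right _ _).trans hX)
  refine ⟨hX3, fun N g σ T B h1 h2 hg hg' hT hT' hB hBT hV => ?_⟩
  set x : ℝ := (X : ℝ) with hx
  have hx3 : 3 ≤ x := by
    rw [hx]
    exact_mod_cast hX3
  have hx0 : 0 < x := by linarith only [he, he', hx3]
  have hx1 : 1 < x := by linarith only [he, he', hx3]
  have hN1 : (1 : ℝ) ≤ N := (Real.one_le_rpow hx1.le hκ.le).trans h1
  have hN0 : (0 : ℝ) < N := by linarith only [he, he', hN1]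
  have hN : 1 ≤ N := by exact_mod_cast hN1
  obtain ⟨j, hj, k1, k2⟩ := lvs_k hx3 hN1 he he' hK1 h1 h2
  have hfX : f j ≤ X := (single_le_sum (fun i _ => Nat.zero_le (f i)) (mem_range.2 hj)).trans hX1
  have h2e : (2 : ℝ) ^ (K + 2) ≤ x ^ e := by
    have h3 : ((2 : ℝ) ^ (K + 2)) ^ (1 / e) ≤ x := (Nat.le_ceil _).trans (by rw [hx]; exact_mod_cast hX2)
    have h4 : (((2 : ℝ) ^ (K + 2)) ^ (1 / e)) ^ e ≤ x ^ e :=
      Real.rpow_le_rpow (by positivity) h3 he.le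
    rwa [← Real.rpow_mul (by positivity), one_div_mul_cancel he.ne', Real.rpow_one] at h4
  have hpow : (2 * N) ^ (j + 1) ≤ X := by
    have h3 : ((2 * N : ℕ) : ℝ) ^ (j + 1) ≤ x := by
      push_cast
      rw [mul_pow]
      calc (2 : ℝ) ^ (j + 1) * (N : ℝ) ^ (j + 1) ≤ 2 ^ (K + 2) * x ^ (1 - e) :=
            mul_le_mul (pow_le_pow_right₀ (by norm_num) (by omega)) k2 (by positivity)
              (by positivity)
        _ ≤ x ^ e * x ^ (1 - e) := mul_le_mul_of_nonneg_right h2e (Real.rpow_nonneg hx0.le _)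
        _ = x := by rw [← Real.rpow_add hx0]; simp
    rw [hx] at h3
    exact_mod_cast h3
  have hTX : T ≤ x := by
    refine hT'.trans ?_
    calc x ^ (5 / 6 - e) ≤ x ^ (1 : ℝ) := Real.rpow_le_rpow_of_exponent_le hx1.le (by linarith only [he, he'])
      _ = x := Real.rpow_one x
  have hV0 : 0 < (N : ℝ) ^ σ := Real.rpow_pos_of_pos hN0 _
  have main := hf j X hfX N g ((N : ℝ) ^ σ) T B hN hpow hg hg' hV0 hT hTX hB hBT hV
  obtain ⟨u, hu⟩ : ∃ u : ℝ, x ^ u = (N : ℝ) ^ (j + 1) :=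
    ⟨Real.logb x ((N : ℝ) ^ (j + 1)), Real.rpow_logb hx0 hx1.ne' (by positivity)⟩
  have u1 : 2 / 3 - e ≤ u := by
    rw [← hu] at k1
    exact (Real.rpow_le_rpow_left_iff hx1).1 k1
  have u2 : u ≤ 1 - e := by
    rw [← hu] at k2
    exact (Real.rpow_le_rpow_left_iff hx1).1 k2
  -- the powers of `N` and `V`
  have pN : ∀ m : ℕ, (N : ℝ) ^ (m * (j + 1)) = x ^ (m * u) := by
    intro m
    rw [mul_comm m, pow_mul, ← hu, ← Real.rpow_natCast, ← Real.rpow_mul hx0.le, mul_comm u]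
  have pV : ∀ m : ℕ, ((N : ℝ) ^ σ) ^ (m * (j + 1)) = x ^ (m * u * σ) := by
    intro m
    rw [← Real.rpow_natCast, ← Real.rpow_mul hN0.le, mul_comm σ, Real.rpow_mul hN0.le,
      Real.rpow_natCast, pN, ← Real.rpow_mul hx0.le]
  have p1 : (N : ℝ) ^ (j + 1) = x ^ (1 * u) := by rw [one_mul, hu]
  refine ⟨u, u1, u2, main.trans ?_⟩
  refine mul_le_mul_of_nonneg_left (add_le_add ?_ (min_le_min ?_ ?_)) (Real.rpow_nonneg hx0.le _)
  · rw [pN, pV, ← Real.rpow_sub hx0]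
    refine le_of_eq ?_
    congr 1
    push_cast
    ring
  · rw [p1, pV]
    calc T * x ^ (1 * u) / x ^ (((2 : ℕ) : ℝ) * u * σ)
        ≤ x ^ (5 / 6 - e) * x ^ (1 * u) / x ^ (((2 : ℕ) : ℝ) * u * σ) := by gcongr
      _ = x ^ (5 / 6 - e + u * (1 - 2 * σ)) := by
        rw [← Real.rpow_add hx0, ← Real.rpow_sub hx0]
        congr 1
        push_cast
        ring
  · rw [pN, pV]
    calc T * x ^ (((4 : ℕ) : ℝ) * u) / x ^ (((6 : ℕ) : ℝ) * u * σ)
        ≤ x ^ (5 / 6 - e) * x ^ (((4 : ℕ) : ℝ) * u) / x ^ (((6 : ℕ) : ℝ) * u * σ) := by gcongr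
      _ = x ^ (5 / 6 - e + u * (4 - 6 * σ)) := by
        rw [← Real.rpow_add hx0, ← Real.rpow_sub hx0]
        congr 1
        push_cast
        ring

private theorem lvs_two {c : ℝ} (hc : 0 < c) : ∃ X0 : ℕ, ∀ X : ℕ, X0 ≤ X → 2 ≤ (X : ℝ) ^ c := by
  refine ⟨⌈(2 : ℝ) ^ (1 / c)⌉₊, fun X hX => ?_⟩
  have h3 : (2 : ℝ) ^ (1 / c) ≤ X := (Nat.le_ceil _).trans (by exact_mod_cast hX)
  have h4 : ((2 : ℝ) ^ (1 / c)) ^ c ≤ (X : ℝ) ^ c := Real.rpow_le_rpow (by positivity) h3 hc.le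
  rwa [← Real.rpow_mul (by norm_num), one_div_mul_cancel hc.ne', Real.rpow_one] at h4

theorem lvs (e δ κ : ℝ) (he : 0 < e) (he' : e ≤ 1 / 100) (hδ : 0 < δ) (hδ' : δ ≤ 1 / 4) (hκ : 0 < κ) :
    ∃ X0 : ℕ, ∀ X : ℕ, X0 ≤ X → ∀ (N : ℕ) (g : ArithmeticFunction ℂ) (s T : ℝ) (B : Set ℝ),
    (X : ℝ) ^ κ ≤ N → (N : ℝ) ≤ (X : ℝ) ^ (11 / 24 : ℝ) →
    (∀ n, g n ≠ 0 → n ≤ 2 * N) → (∀ n, ‖g n‖ ≤ 2 * Real.log X) → 1 / 2 ≤ s → s ≤ 1 - δ →
    1 ≤ T → T ≤ (X : ℝ) ^ (5 / 6 - e) → MeasurableSet B → B ⊆ Set.Icc (-T) T →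
    (∀ t ∈ B, (N : ℝ) ^ (s - e * δ / 4) ≤ ‖DP g (2 * N) t‖) →
    volume.real B ≤ (X : ℝ) ^ (2 - 2 * s - e * δ) := by
  obtain ⟨X1, h1⟩ := lvs_core e (e * δ / 8) κ he he' (by positivity) hκ
  obtain ⟨X2, h2⟩ := lvs_two (c := 3 / 8 * (e * δ)) (by positivity)
  refine ⟨max X1 X2, fun X hX N g s T B hN hN' hg hg' hs hs' hT hT' hB hBT hV => ?_⟩
  obtain ⟨hX3, h3⟩ := h1 X ((le_max_left _ _).trans hX)
  have h4 := h2 X ((le_max_right _ _).trans hX)
  obtain ⟨u, u1, u2, hb⟩ := h3 N g (s - e * δ / 4) T B hN hN' hg hg' hT hT' hB hBT hV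
  set x : ℝ := (X : ℝ) with hx
  have hx3 : 3 ≤ x := by
    rw [hx]
    exact_mod_cast hX3
  have hx0 : 0 < x := by linarith only [he, he', hx3]
  have hx1 : 1 ≤ x := by linarith only [he, he', hx3]
  have hed : 0 < e * δ := by positivity
  have hed1 : e * δ ≤ e / 4 := by nlinarith only [he, hδ']
  have hed2 : e * δ ≤ 1 / 400 := by linarith only [he', hed1]
  set σ : ℝ := s - e * δ / 4 with hσ
  have b1 : x ^ (2 * u * (1 - σ)) ≤ x ^ (2 - 2 * s - 3 / 2 * (e * δ)) := by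
    refine Real.rpow_le_rpow_of_exponent_le hx1 ?_
    have : 0 ≤ 1 - σ := by rw [hσ]; linarith only [hδ, hs', hed]
    have a1 : u * (1 - σ) ≤ (1 - e) * (1 - σ) := mul_le_mul_of_nonneg_right u2 this
    have a2 : (1 - e) * (1 - σ) = 1 - s + e * δ / 4 - e * (1 - s) - e * (e * δ) / 4 := by
      rw [hσ]; ring
    have a3 : e * δ ≤ e * (1 - s) := mul_le_mul_of_nonneg_left (by linarith only [hs']) he.le
    have a4 : 0 ≤ e * (e * δ) := by positivity
    linarith only [a1, a2, a3, a4]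
  have b2 : min (x ^ (5 / 6 - e + u * (1 - 2 * σ))) (x ^ (5 / 6 - e + u * (4 - 6 * σ))) ≤
      x ^ (2 - 2 * s - 3 / 2 * (e * δ)) := by
    have hgoal : 2 - 2 * σ - e / 2 ≤ 2 - 2 * s - 3 / 2 * (e * δ) := by
      rw [hσ]
      linarith only [hed1]
    rcases le_total σ (1 / 2) with c1 | c1
    · refine (min_le_left _ _).trans (Real.rpow_le_rpow_of_exponent_le hx1 (le_trans ?_ hgoal))
      have a1 : u * (1 - 2 * σ) ≤ 1 * (1 - 2 * σ) :=
        mul_le_mul_of_nonneg_right (by linarith only [u2, hed, hed1]) (by linarith only [c1])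
      linarith only [he', hed, hed1, a1]
    rcases le_total σ (3 / 4) with c2 | c2
    · refine (min_le_left _ _).trans (Real.rpow_le_rpow_of_exponent_le hx1 (le_trans ?_ hgoal))
      have a1 : (2 / 3 - e) * (2 * σ - 1) ≤ u * (2 * σ - 1) :=
        mul_le_mul_of_nonneg_right u1 (by linarith only [c1])
      have a2 : (2 / 3 + 2 * e) * σ ≤ (2 / 3 + 2 * e) * (3 / 4) :=
        mul_le_mul_of_nonneg_left c2 (by linarith only [he', hed, hed1])
      nlinarith only [a1, a2]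
    · refine (min_le_right _ _).trans (Real.rpow_le_rpow_of_exponent_le hx1 (le_trans ?_ hgoal))
      have a1 : (2 / 3 - e) * (6 * σ - 4) ≤ u * (6 * σ - 4) :=
        mul_le_mul_of_nonneg_right u1 (by linarith only [he', hed, hed1, c2])
      have a2 : (2 - 6 * e) * (3 / 4) ≤ (2 - 6 * e) * σ :=
        mul_le_mul_of_nonneg_left c2 (by linarith only [he', hed, hed1])
      nlinarith only [a1, a2]
  calc volume.real B ≤ x ^ (e * δ / 8) * (x ^ (2 - 2 * s - 3 / 2 * (e * δ)) +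
        x ^ (2 - 2 * s - 3 / 2 * (e * δ))) := by
        refine hb.trans (mul_le_mul_of_nonneg_left (add_le_add b1 b2) (Real.rpow_nonneg hx0.le _))
    _ = 2 * x ^ (2 - 2 * s - e * δ - 3 / 8 * (e * δ)) := by
        rw [← two_mul, mul_left_comm, ← Real.rpow_add hx0]
        congr 2
        ring
    _ ≤ x ^ (3 / 8 * (e * δ)) * x ^ (2 - 2 * s - e * δ - 3 / 8 * (e * δ)) :=
        mul_le_mul_of_nonneg_right h4 (Real.rpow_nonneg hx0.le _)
    _ = x ^ (2 - 2 * s - e * δ) := by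
        rw [← Real.rpow_add hx0]
        congr 1
        ring

theorem lvl (e δ κ : ℝ) (he : 0 < e) (he' : e ≤ 1 / 100) (hδ : 0 < δ) (hδ' : δ ≤ 1 / 50) (hκ : 0 < κ) :
    ∃ X0 : ℕ, ∀ X : ℕ, X0 ≤ X → ∀ (N : ℕ) (g : ArithmeticFunction ℂ) (T : ℝ) (B : Set ℝ),
    (X : ℝ) ^ κ ≤ N → (N : ℝ) ≤ (X : ℝ) ^ (11 / 24 : ℝ) →
    (∀ n, g n ≠ 0 → n ≤ 2 * N) → (∀ n, ‖g n‖ ≤ 2 * Real.log X) →
    1 ≤ T → T ≤ (X : ℝ) ^ (5 / 6 - e) → MeasurableSet B → B ⊆ Set.Icc (-T) T →
    (∀ t ∈ B, (N : ℝ) ^ (1 - δ) ≤ ‖DP g (2 * N) t‖) →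
    volume.real B ≤ (X : ℝ) ^ (3 * δ) := by
  obtain ⟨X1, h1⟩ := lvs_core e (δ / 2) κ he he' (by positivity) hκ
  obtain ⟨X2, h2⟩ := lvs_two (c := δ / 2) (by positivity)
  refine ⟨max X1 X2, fun X hX N g T B hN hN' hg hg' hT hT' hB hBT hV => ?_⟩
  obtain ⟨hX3, h3⟩ := h1 X ((le_max_left _ _).trans hX)
  have h4 := h2 X ((le_max_right _ _).trans hX)
  obtain ⟨u, u1, u2, hb⟩ := h3 N g (1 - δ) T B hN hN' hg hg' hT hT' hB hBT hV
  set x : ℝ := (X : ℝ) with hx
  have hx3 : 3 ≤ x := by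
    rw [hx]
    exact_mod_cast hX3
  have hx0 : 0 < x := by linarith only [he, he', hx3]
  have hx1 : 1 ≤ x := by linarith only [he, he', hx3]
  have b1 : x ^ (2 * u * (1 - (1 - δ))) ≤ x ^ (2 * δ) := by
    refine Real.rpow_le_rpow_of_exponent_le hx1 ?_
    nlinarith only [he, hδ, he', u2]
  have b2 : min (x ^ (5 / 6 - e + u * (1 - 2 * (1 - δ))))
      (x ^ (5 / 6 - e + u * (4 - 6 * (1 - δ)))) ≤ x ^ (2 * δ) := by
    refine (min_le_right _ _).trans (Real.rpow_le_rpow_of_exponent_le hx1 ?_)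
    nlinarith only [he', hδ', u1, he, hδ, u2]
  calc volume.real B ≤ x ^ (δ / 2) * (x ^ (2 * δ) + x ^ (2 * δ)) :=
        hb.trans (mul_le_mul_of_nonneg_left (add_le_add b1 b2) (Real.rpow_nonneg hx0.le _))
    _ = 2 * x ^ (δ / 2 + 2 * δ) := by
        rw [← two_mul, mul_left_comm, ← Real.rpow_add hx0]
    _ ≤ x ^ (δ / 2) * x ^ (δ / 2 + 2 * δ) :=
        mul_le_mul_of_nonneg_right h4 (Real.rpow_nonneg hx0.le _)
    _ = x ^ (3 * δ) := by
        rw [← Real.rpow_add hx0]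
        congr 1
        ring

end Pool.Agent.H88.PSI

end

section

/-!
# PSI BoxS: the part of the integral where the product is `≤ X^(1-δ)`

`κ = eδ/4`, `η = (1/2-δ)/m1 ≤ κ/4` with `m1 : ℕ` fixed, `s_m = 1/2 + m η` (`s_{m1} = 1-δ`).
`{FF ≤ X^(1/2)}`: `≤ 2 T X ≤ 2 X^(11/6)`.  `B_m = {|t| ≤ T, X^(s_{m-1}) < FF ≤ X^(s_m)}`: by `cov` (`s = s_m`, `X^(s-κ/4) ≤ X^(s-η)`, `box_tr`)
`B_m` is covered by the `r ≤ 6` sets `{t ∈ B_m, X^(κ/24) ≤ N i, (N i)^(s_m-κ) ≤ ‖F_i(t)‖}`, each of measure `≤ X^(2-2s_m-eδ)` (`lvs` with the `κ` of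
`lvs` := `eδ/96`), so `∫_{B_m} FF^2 ≤ 6 X^(2-eδ)`; sum over `m ≤ m1`.
-/

set_option autoImplicit false

namespace Pool.Agent.H88.PSI

open Finset MeasureTheory

private theorem BoxS_large (a : ℝ) (ha : 0 < a) (c : ℝ) :
    ∃ X0 : ℕ, ∀ X : ℕ, X0 ≤ X → c ≤ (X : ℝ) ^ a := by
  have h := (tendsto_rpow_atTop ha).comp tendsto_natCast_atTop_atTop
  obtain ⟨X0, hX0⟩ := (Filter.tendsto_atTop_atTop.mp h) c
  exact ⟨X0, fun X hX => hX0 X hX⟩

private theorem BoxS_sq {x a : ℝ} (hx : 0 ≤ x) : (x ^ a) ^ 2 = x ^ (2 * a) := by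
  rw [← Real.rpow_natCast, ← Real.rpow_mul hx]
  congr 1
  push_cast
  ring

theorem box_s (e δ : ℝ) (he : 0 < e) (he' : e ≤ 1 / 100) (hδ : 0 < δ) (hδ' : δ ≤ 1 / 4) :
    ∃ X0 : ℕ, ∀ X : ℕ, X0 ≤ X → ∀ (r : ℕ) (N : Fin r → ℕ) (g : Fin r → ArithmeticFunction ℂ) (T : ℝ),
    Box X N g → 1 ≤ T → T ≤ (X : ℝ) ^ (5 / 6 - e) →
    ∫ t in {t : ℝ | |t| ≤ T ∧ FF N g t ≤ (X : ℝ) ^ (1 - δ)}, FF N g t ^ 2
      ≤ (X : ℝ) ^ (2 - e * δ / 2) := by
  set κ : ℝ := e * δ / 4 with hκd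
  have hκ : 0 < κ := by positivity
  have hed : e * δ ≤ 1 / 400 := by
    calc e * δ ≤ (1 / 100) * (1 / 4) := mul_le_mul he' hδ' hδ.le (by norm_num)
      _ = 1 / 400 := by norm_num
  have hκ' : κ ≤ 1 / 4 := by rw [hκd]; linarith only [hed]
  obtain ⟨m1, hm1⟩ := exists_nat_gt ((1 / 2 - δ) * 4 / κ)
  have hm0 : (0 : ℝ) < m1 := by
    have : 0 ≤ (1 / 2 - δ) * 4 / κ := by
      apply div_nonneg _ hκ.le
      linarith only [hδ']
    linarith only [hm1, this]
  set η : ℝ := (1 / 2 - δ) / m1 with hη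
  have hη0 : 0 ≤ η := div_nonneg (by linarith only [hδ']) hm0.le
  have hη1 : η ≤ κ / 4 := by
    rw [hη, div_le_iff₀ hm0]
    rw [div_lt_iff₀ hκ] at hm1
    linarith only [hm1]
  obtain ⟨X1, hcov⟩ := cov κ hκ hκ'
  obtain ⟨X2, hlvs⟩ := lvs e δ (κ / 24) he he' hδ hδ' (by positivity)
  obtain ⟨X3, hX3⟩ := BoxS_large (e * δ / 2) (by positivity) (6 * m1 + 2)
  refine ⟨max (max X1 X2) (max X3 1), ?_⟩
  intro X hX r N g T hB hT hT'
  have hXa : X1 ≤ X := le_trans (le_trans (le_max_left _ _) (le_max_left _ _)) hX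
  have hXb : X2 ≤ X := le_trans (le_trans (le_max_right _ _) (le_max_left _ _)) hX
  have hXc : X3 ≤ X := le_trans (le_trans (le_max_left _ _) (le_max_right _ _)) hX
  have hXd : 1 ≤ X := le_trans (le_trans (le_max_right _ _) (le_max_right _ _)) hX
  have hx1 : (1 : ℝ) ≤ X := by exact_mod_cast hXd
  have hx0 : (0 : ℝ) < X := by linarith only [hx1]
  set s : ℕ → ℝ := fun m => 1 / 2 + m * η with hs
  have hs0 : ∀ m, 1 / 2 ≤ s m := fun m => by
    have : 0 ≤ (m : ℝ) * η := by positivity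
    simp only [hs]
    linarith only [this]
  have hsm1 : s m1 = 1 - δ := by
    simp only [hs, hη]
    field_simp
    ring
  have hsle : ∀ m, m ≤ m1 → s m ≤ 1 - δ := by
    intro m hm
    rw [← hsm1]
    simp only [hs]
    have : (m : ℝ) ≤ m1 := by exact_mod_cast hm
    nlinarith only [hκd, hκ, hed, hη0, this]
  set C : ℕ → Fin r → Set ℝ := fun m i => {t : ℝ | |t| ≤ T ∧ (X : ℝ) ^ (κ / 24) ≤ N i ∧
    (N i : ℝ) ^ (s m - κ) ≤ ‖DP (g i) (2 * N i) t‖} with hC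
  have hCm : ∀ m i, MeasurableSet (C m i) := by
    intro m i
    have h1 : MeasurableSet {t : ℝ | |t| ≤ T} :=
      measurableSet_le continuous_abs.measurable measurable_const
    have h3 : MeasurableSet {t : ℝ | (N i : ℝ) ^ (s m - κ) ≤ ‖DP (g i) (2 * N i) t‖} :=
      measurableSet_le measurable_const (dp_cont _ _).norm.measurable
    exact h1.inter ((MeasurableSet.const _).inter h3)
  have hCI : ∀ m i, C m i ⊆ Set.Icc (-T) T := by
    intro m i t ht
    exact abs_le.mp ht.1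
  have hCv : ∀ m i, m ≤ m1 → volume.real (C m i) ≤ (X : ℝ) ^ (2 - 2 * s m - e * δ) := by
    intro m i hm
    by_cases hN : (X : ℝ) ^ (κ / 24) ≤ N i
    · refine hlvs X hXb (N i) (g i) (s m) T (C m i) hN (hB.top i) ?_ (hB.bd i) (hs0 m)
        (hsle m hm) hT hT' (hCm m i) (hCI m i) ?_
      · intro n hn
        exact (hB.supp i n hn).2.le
      · intro t ht
        exact ht.2.2
    · have : C m i = ∅ := by
        ext t
        simp only [hC, Set.mem_ofPred_eq, Set.mem_empty_iff_false, iff_false]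
        exact fun h => hN h.2.1
      rw [this, measureReal_empty]
      positivity
  set F : ℝ → ℝ := FF N g with hF
  have hFc : Continuous F := ff_cont N g
  have hF0 : ∀ t, 0 ≤ F t := ff_nonneg N g
  set h : ℝ → ℝ := fun t => (X : ℝ) + ∑ m ∈ Icc 1 m1, ∑ i : Fin r,
    (C m i).indicator (fun _ => (X : ℝ) ^ (2 * s m)) t with hh
  have hind0 : ∀ m i t, 0 ≤ (C m i).indicator (fun _ => (X : ℝ) ^ (2 * s m)) t := by
    intro m i t
    exact Set.indicator_nonneg (fun _ _ => by positivity) t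
  have hh0 : ∀ t, 0 ≤ h t := fun t =>
    add_nonneg hx0.le (sum_nonneg fun m _ => sum_nonneg fun i _ => hind0 m i t)
  have key : ∀ t, |t| ≤ T → F t ≤ (X : ℝ) ^ (1 - δ) → F t ^ 2 ≤ h t := by
    intro t ht hFt
    by_cases h1 : F t ≤ (X : ℝ) ^ (1 / 2 : ℝ)
    · have h2 : F t ^ 2 ≤ ((X : ℝ) ^ (1 / 2 : ℝ)) ^ 2 := pow_le_pow_left₀ (hF0 t) h1 2
      rw [BoxS_sq hx0.le] at h2
      norm_num at h2
      simp only [hh]
      have h3 : 0 ≤ ∑ m ∈ Icc 1 m1, ∑ i : Fin r,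
        (C m i).indicator (fun _ => (X : ℝ) ^ (2 * s m)) t :=
        sum_nonneg fun m _ => sum_nonneg fun i _ => hind0 m i t
      linarith only [h2, h3]
    · have hex : ∃ m, F t ≤ (X : ℝ) ^ s m := ⟨m1, by rw [hsm1]; exact hFt⟩
      classical
      set m := Nat.find hex with hm
      have hP : F t ≤ (X : ℝ) ^ s m := Nat.find_spec hex
      have hmle : m ≤ m1 := Nat.find_min' hex (by rw [hsm1]; exact hFt)
      have hm1' : 1 ≤ m := by
        by_contra h0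
        have h0' : m = 0 := by omega
        rw [h0'] at hP
        simp only [hs, Nat.cast_zero, zero_mul, add_zero] at hP
        exact h1 hP
      have hPn : ¬ F t ≤ (X : ℝ) ^ s (m - 1) := Nat.find_min hex (by omega)
      rw [not_le] at hPn
      have hsm : s m - κ / 4 ≤ s (m - 1) := by
        simp only [hs]
        have : ((m - 1 : ℕ) : ℝ) = m - 1 := by
          rw [Nat.cast_sub hm1', Nat.cast_one]
        rw [this]
        linarith only [hη1]
      have hlt : (X : ℝ) ^ (s m - κ / 4) < ∏ i, ‖DP (g i) (2 * N i) t‖ :=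
        lt_of_le_of_lt (Real.rpow_le_rpow_of_exponent_le hx1 hsm) hPn
      obtain ⟨i, hi1, hi2⟩ := hcov X hXa r N (fun i => ‖DP (g i) (2 * N i) t‖) (s m) hB.hr
        hB.one hB.prod (fun i => norm_nonneg _) (fun i => box_tr hB i t) (hs0 m)
        (by have := hsle m hmle; linarith only [hδ, hκ, this]) hlt
      have htC : t ∈ C m i := ⟨ht, hi1, hi2⟩
      have h2 : F t ^ 2 ≤ (X : ℝ) ^ (2 * s m) := by
        rw [← BoxS_sq hx0.le]
        exact pow_le_pow_left₀ (hF0 t) hP 2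
      have h3 : (X : ℝ) ^ (2 * s m) ≤ ∑ i : Fin r,
          (C m i).indicator (fun _ => (X : ℝ) ^ (2 * s m)) t := by
        have h4 := single_le_sum (s := univ) (f := fun i : Fin r =>
          (C m i).indicator (fun _ => (X : ℝ) ^ (2 * s m)) t)
          (fun i _ => hind0 m i t) (mem_univ i)
        simp only [Set.indicator_of_mem htC] at h4
        exact h4
      have h5 : ∑ i : Fin r, (C m i).indicator (fun _ => (X : ℝ) ^ (2 * s m)) t ≤
          ∑ m ∈ Icc 1 m1, ∑ i : Fin r,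
            (C m i).indicator (fun _ => (X : ℝ) ^ (2 * s m)) t :=
        single_le_sum (f := fun m => ∑ i : Fin r,
          (C m i).indicator (fun _ => (X : ℝ) ^ (2 * s m)) t)
          (fun m _ => sum_nonneg fun i _ => hind0 m i t) (mem_Icc.mpr ⟨hm1', hmle⟩)
      simp only [hh]
      linarith only [hx1, h2, h3, h5]
  -- integration
  set E : Set ℝ := {t : ℝ | |t| ≤ T ∧ F t ≤ (X : ℝ) ^ (1 - δ)} with hE
  have hEm : MeasurableSet E :=
    (measurableSet_le continuous_abs.measurable measurable_const).inter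
      (measurableSet_le hFc.measurable measurable_const)
  have hEI : E ⊆ Set.Icc (-T) T := fun t ht => abs_le.mp ht.1
  have hFi : IntegrableOn (fun t => F t ^ 2) (Set.Icc (-T) T) :=
    (hFc.pow 2).continuousOn.integrableOn_Icc
  have hci : ∀ c : ℝ, IntegrableOn (fun _ : ℝ => c) (Set.Icc (-T) T) := fun c =>
    continuous_const.continuousOn.integrableOn_Icc
  have hii : ∀ m i, IntegrableOn ((C m i).indicator (fun _ => (X : ℝ) ^ (2 * s m)))
      (Set.Icc (-T) T) := fun m i => (hci _).indicator (hCm m i)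
  have hsi : IntegrableOn (fun t => ∑ m ∈ Icc 1 m1, ∑ i : Fin r,
      (C m i).indicator (fun _ => (X : ℝ) ^ (2 * s m)) t) (Set.Icc (-T) T) := by
    apply integrable_finsetSum
    intro m _
    apply integrable_finsetSum
    intro i _
    exact hii m i
  have hhi : IntegrableOn h (Set.Icc (-T) T) := (hci _).add hsi
  have step1 : ∫ t in E, F t ^ 2 ≤ ∫ t in E, h t :=
    setIntegral_mono_on (hFi.mono_set hEI) (hhi.mono_set hEI) hEm
      (fun t ht => key t ht.1 ht.2)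
  have step2 : ∫ t in E, h t ≤ ∫ t in Set.Icc (-T) T, h t :=
    setIntegral_mono_set hhi (Filter.Eventually.of_forall hh0)
      (Filter.Eventually.of_forall hEI)
  have hvolI : volume.real (Set.Icc (-T) T) = 2 * T := by
    rw [Real.volume_real_Icc_of_le (by linarith only [hT])]
    ring
  have step3 : ∫ t in Set.Icc (-T) T, h t = 2 * T * X + ∑ m ∈ Icc 1 m1, ∑ i : Fin r,
      volume.real (C m i) * (X : ℝ) ^ (2 * s m) := by
    simp only [hh]
    rw [integral_add (hci _) hsi, setIntegral_const, hvolI, smul_eq_mul]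
    congr 1
    rw [integral_finsetSum]
    · refine sum_congr rfl fun m _ => ?_
      rw [integral_finsetSum]
      · refine sum_congr rfl fun i _ => ?_
        rw [setIntegral_indicator (hCm m i), Set.inter_eq_right.mpr (hCI m i),
          setIntegral_const, smul_eq_mul]
      · intro i _
        exact hii m i
    · intro m _
      apply integrable_finsetSum
      intro i _
      exact hii m i
  have step4 : ∑ m ∈ Icc 1 m1, ∑ i : Fin r, volume.real (C m i) * (X : ℝ) ^ (2 * s m) ≤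
      6 * m1 * (X : ℝ) ^ (2 - e * δ) := by
    calc ∑ m ∈ Icc 1 m1, ∑ i : Fin r, volume.real (C m i) * (X : ℝ) ^ (2 * s m)
        ≤ ∑ m ∈ Icc 1 m1, ∑ _i : Fin r, (X : ℝ) ^ (2 - e * δ) := by
          refine sum_le_sum fun m hm => sum_le_sum fun i _ => ?_
          have hm' := (mem_Icc.mp hm).2
          calc volume.real (C m i) * (X : ℝ) ^ (2 * s m)
              ≤ (X : ℝ) ^ (2 - 2 * s m - e * δ) * (X : ℝ) ^ (2 * s m) :=
                mul_le_mul_of_nonneg_right (hCv m i hm') (by positivity)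
            _ = (X : ℝ) ^ (2 - e * δ) := by
                rw [← Real.rpow_add hx0]
                congr 1
                ring
      _ = m1 * (r * (X : ℝ) ^ (2 - e * δ)) := by
          rw [sum_const, sum_const, Nat.card_Icc, card_univ, Fintype.card_fin, nsmul_eq_mul,
            nsmul_eq_mul, Nat.add_sub_cancel]
      _ ≤ 6 * m1 * (X : ℝ) ^ (2 - e * δ) := by
          have hr : (r : ℝ) ≤ 6 := by exact_mod_cast hB.hr
          have hp : 0 ≤ (X : ℝ) ^ (2 - e * δ) := by positivity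
          have := mul_le_mul_of_nonneg_right hr hp
          nlinarith only [this]
  have step5 : 2 * T * X ≤ 2 * (X : ℝ) ^ (2 - e * δ) := by
    have h1 : T * X ≤ (X : ℝ) ^ (5 / 6 - e) * X := mul_le_mul_of_nonneg_right hT' hx0.le
    have h2 : (X : ℝ) ^ (5 / 6 - e) * X = (X : ℝ) ^ (5 / 6 - e + 1) := by
      rw [Real.rpow_add_one hx0.ne']
    have h3 : (X : ℝ) ^ (5 / 6 - e + 1) ≤ (X : ℝ) ^ (2 - e * δ) :=
      Real.rpow_le_rpow_of_exponent_le hx1 (by linarith only [he, hed])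
    linarith only [h1, h2, h3]
  calc ∫ t in E, F t ^ 2 ≤ 2 * T * X + ∑ m ∈ Icc 1 m1, ∑ i : Fin r,
      volume.real (C m i) * (X : ℝ) ^ (2 * s m) := by
        rw [← step3]
        exact step1.trans step2
    _ ≤ 2 * (X : ℝ) ^ (2 - e * δ) + 6 * m1 * (X : ℝ) ^ (2 - e * δ) := add_le_add step5 step4
    _ = (6 * m1 + 2) * (X : ℝ) ^ (2 - e * δ) := by ring
    _ ≤ (X : ℝ) ^ (e * δ / 2) * (X : ℝ) ^ (2 - e * δ) :=
        mul_le_mul_of_nonneg_right (hX3 X hXc) (by positivity)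
    _ = (X : ℝ) ^ (2 - e * δ / 2) := by
        rw [← Real.rpow_add hx0]
        congr 1
        ring

end Pool.Agent.H88.PSI

end

section

/-!
# PSI BoxM: the measure of the set where the product is `> X^(1-δ)`

`cov` with `κ = 4δ`, `s = 1` (`X^(s-κ/4) = X^(1-δ)`), then `lvl` with `4δ ≤ 1/50` and `κ := δ/6`: `≤ 6 X^(12 δ) ≤ X^(13 δ)`.
-/

set_option autoImplicit false

namespace Pool.Agent.H88.PSI

open Finset MeasureTheory

theorem box_m (e δ : ℝ) (he : 0 < e) (he' : e ≤ 1 / 100) (hδ : 0 < δ) (hδ' : δ ≤ 1 / 200) :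
    ∃ X0 : ℕ, ∀ X : ℕ, X0 ≤ X → ∀ (r : ℕ) (N : Fin r → ℕ) (g : Fin r → ArithmeticFunction ℂ) (T : ℝ),
    Box X N g → 1 ≤ T → T ≤ (X : ℝ) ^ (5 / 6 - e) →
    volume.real {t : ℝ | |t| ≤ T ∧ (X : ℝ) ^ (1 - δ) < FF N g t} ≤ (X : ℝ) ^ (13 * δ) := by
  classical
  obtain ⟨X1, h1⟩ := cov (4 * δ) (by positivity) (by linarith)
  obtain ⟨X2, h2⟩ := lvl e (4 * δ) (δ / 6) he he' (by positivity) (by linarith) (by positivity)
  obtain ⟨X3, h3⟩ : ∃ X3 : ℕ, ∀ X : ℕ, X3 ≤ X → (6 : ℝ) ≤ (X : ℝ) ^ δ := by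
    have h4 := (tendsto_rpow_atTop hδ).comp tendsto_natCast_atTop_atTop
    exact Filter.eventually_atTop.1 (h4.eventually (Filter.eventually_ge_atTop 6))
  refine ⟨X1 + X2 + X3 + 1, fun X hX r N g T hB hT hT' => ?_⟩
  have hX0 : (0 : ℝ) < X := by
    have : 0 < X := by omega
    exact_mod_cast this
  set B : Fin r → Set ℝ := fun i => if (X : ℝ) ^ (δ / 6) ≤ N i then
    {t | t ∈ Set.Icc (-T) T ∧ (N i : ℝ) ^ (1 - 4 * δ) ≤ ‖DP (g i) (2 * N i) t‖} else ∅ with hBd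
  have hsub : {t : ℝ | |t| ≤ T ∧ (X : ℝ) ^ (1 - δ) < FF N g t} ⊆ ⋃ i, B i := by
    rintro t ⟨ht, hF⟩
    obtain ⟨i, hi1, hi2⟩ := h1 X (by omega) r N (fun i => ‖DP (g i) (2 * N i) t‖) 1 hB.hr hB.one
      hB.prod (fun i => norm_nonneg _) (fun i => box_tr hB i t) (by norm_num) (by linarith)
      (by
        have h5 : 1 - 4 * δ / 4 = 1 - δ := by ring
        rw [h5]
        exact hF)
    rw [Set.mem_iUnion]
    refine ⟨i, ?_⟩
    simp only [hBd]
    have h6 : 4 * δ / 24 = δ / 6 := by ring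
    rw [h6] at hi1
    rw [if_pos hi1]
    exact ⟨abs_le.1 ht, hi2⟩
  have hBi : ∀ i, volume.real (B i) ≤ (X : ℝ) ^ (12 * δ) := by
    intro i
    simp only [hBd]
    by_cases h5 : (X : ℝ) ^ (δ / 6) ≤ N i
    · rw [if_pos h5]
      have h6 : 3 * (4 * δ) = 12 * δ := by ring
      have h7 := h2 X (by omega) (N i) (g i) T
        {t | t ∈ Set.Icc (-T) T ∧ (N i : ℝ) ^ (1 - 4 * δ) ≤ ‖DP (g i) (2 * N i) t‖} h5 (hB.top i)
        (fun n hn => (hB.supp i n hn).2.le) (hB.bd i) hT hT'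
        (measurableSet_Icc.inter (measurableSet_le measurable_const
          (dp_cont _ _).norm.measurable)) (fun t ht => ht.1) (fun t ht => ht.2)
      rwa [h6] at h7
    · rw [if_neg h5, measureReal_empty]
      positivity
  have hBsub : ∀ i, B i ⊆ Set.Icc (-T) T := by
    intro i t ht
    simp only [hBd] at ht
    by_cases h5 : (X : ℝ) ^ (δ / 6) ≤ N i
    · rw [if_pos h5] at ht
      exact ht.1
    · rw [if_neg h5] at ht
      exact absurd ht (Set.notMem_empty _)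
  have hfin : volume (⋃ i, B i) ≠ ⊤ := by
    refine ne_top_of_le_ne_top ?_ (measure_mono (Set.iUnion_subset hBsub))
    rw [Real.volume_Icc]
    exact ENNReal.ofReal_ne_top
  calc volume.real {t : ℝ | |t| ≤ T ∧ (X : ℝ) ^ (1 - δ) < FF N g t}
      ≤ volume.real (⋃ i, B i) := measureReal_mono hsub hfin
    _ ≤ ∑ i, volume.real (B i) := measureReal_iUnion_fintype_le _
    _ ≤ ∑ _i : Fin r, (X : ℝ) ^ (12 * δ) := Finset.sum_le_sum fun i _ => hBi i
    _ = r * (X : ℝ) ^ (12 * δ) := by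
      rw [Finset.sum_const, Finset.card_univ, Fintype.card_fin, nsmul_eq_mul]
    _ ≤ (X : ℝ) ^ δ * (X : ℝ) ^ (12 * δ) := by
      refine mul_le_mul_of_nonneg_right ?_ (by positivity)
      have h5 : (r : ℝ) ≤ 6 := by exact_mod_cast hB.hr
      exact h5.trans (h3 X (by omega))
    _ = (X : ℝ) ^ (13 * δ) := by
      rw [← Real.rpow_add hX0]
      congr 1
      ring

end Pool.Agent.H88.PSI

end
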