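import Pool.Agent.H94.EH.M21
import Pool.Agent.H94.EH.M27
import Pool.Agent.H94.EH.M30
import Pool.Agent.H94.EH.M42
import Pool.Agent.H94.EH.M43
import Pool.Agent.H94.EH.M49

/-! The parts of this file: H65.MS.ZPa, H65.MS.ZPb, H65.MS.JP, H76.EHB.SmallC, H76.EHB.Second, H65.MS.SMb. -/

section

/-!
# MS ZPa: exponential sums over arithmetic progressions, power saving

Same proof as `ap_sum` in `Pool/Agent/H76/EHB/ApSum.lean` (copy the file; its private lemmas `dyad`, `ap_reduce` are needed unchanged), with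
`(log x)^c` replaced by `x^(7ρ)`.  `k0 ≥ 40/kap`, `δ, C` from `vdc k0`, `X = x^(kap/4)`, `ρ0 = kap δ/100`.  What is used for `x ≥ x0(ρ)`:
`2 ≤ x^(kap/4)`; `6 C x^(7ρ) ≤ X^δ` (`7ρ < kap δ/4`); `84 x^(7ρ) ≤ x^(kap/6)`; `8 x^(7ρ) ≤ x^(kap/2)`; `48 x^(7ρ) ≤ x^(8ρ)`.
-/

set_option autoImplicit false

namespace Pool.Agent.H65.MS

open Finset
open Pool.Agent.H91.PK (ee)
open Pool.Agent.H76.EHB

/-- dyadic decomposition -/
private lemma ZPa_dyad (g : ℕ → ℂ) (hg : ∀ n, ‖g n‖ ≤ 1) (M1 U : ℕ) (E : ℝ) (hE : 0 ≤ E)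
    (hM1 : 1 ≤ M1)
    (h : ∀ M b : ℕ, M1 ≤ 2 * M → M ≤ U → b ≤ 2 * M → ‖∑ n ∈ Ioc M b, g n‖ ≤ M * E) :
    ∀ P : ℕ, P ≤ U → ‖∑ n ∈ Ioc 0 P, g n‖ ≤ M1 + 3 * E * P := by
  intro P
  induction P using Nat.strong_induction_on with
  | _ P ih =>
    intro hPU
    rcases le_or_gt P M1 with hP | hP
    · have h1 : ‖∑ n ∈ Ioc 0 P, g n‖ ≤ P := by
        refine (norm_sum_le _ _).trans ?_
        refine (Finset.sum_le_sum fun n _ => hg n).trans ?_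
        simp
      have h2 : (P : ℝ) ≤ M1 := by exact_mod_cast hP
      have h3 : 0 ≤ 3 * E * P := by positivity
      linarith only [h1, h2, h3]
    · have hlt : (P + 1) / 2 < P := by omega
      have h1 := ih _ hlt (by omega)
      have h2 := h ((P + 1) / 2) P (by omega) (by omega) (by omega)
      have h3 : ∑ n ∈ Ioc 0 P, g n
          = ∑ n ∈ Ioc 0 ((P + 1) / 2), g n + ∑ n ∈ Ioc ((P + 1) / 2) P, g n :=
        (Finset.sum_Ioc_consecutive g (Nat.zero_le _) hlt.le).symm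
      have h4 : (((P + 1) / 2 : ℕ) : ℝ) ≤ (P + 1) / 2 := by
        have : 2 * ((P + 1) / 2) ≤ P + 1 := by omega
        have h5 : (2 : ℝ) * (((P + 1) / 2 : ℕ) : ℝ) ≤ (P : ℝ) + 1 := by exact_mod_cast this
        linarith only [h5]
      have hP2 : (2 : ℝ) ≤ P := by
        have : 2 ≤ P := by omega
        exact_mod_cast this
      rw [h3]
      refine (norm_add_le _ _).trans ?_
      have h5 : E * (((P + 1) / 2 : ℕ) : ℝ) ≤ E * ((P + 1) / 2) :=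
        mul_le_mul_of_nonneg_left h4 hE
      have h6 : E * 2 ≤ E * P := mul_le_mul_of_nonneg_left hP2 hE
      nlinarith only [h1, h2, h5, h6]

/-- reduction of an arithmetic progression to an interval -/
private lemma ZPa_reduce (u d : ℕ) (l : ℤ) (t : ℝ) (hd : 1 ≤ d) :
    ∃ (P : ℕ) (β : ℝ), P ≤ u ∧ 0 ≤ β ∧ β ≤ 1 ∧
      ‖∑ k ∈ Sp u d l, ee (t * Real.log k)‖
        ≤ 1 + ‖∑ n ∈ Ioc 0 P, ee (t * Real.log (n + β))‖ := by
  set r : ℕ := ((l - 1) % (d : ℤ)).toNat + 1 with hr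
  have hd0 : (0 : ℤ) < d := by exact_mod_cast hd
  have hm0 : 0 ≤ (l - 1) % (d : ℤ) := Int.emod_nonneg _ hd0.ne'
  have hm1 : (l - 1) % (d : ℤ) < d := Int.emod_lt_of_pos _ hd0
  have hrz : (r : ℤ) = (l - 1) % (d : ℤ) + 1 := by
    rw [hr]
    push_cast
    rw [Int.toNat_of_nonneg hm0]
  have hr1 : 1 ≤ r := by omega
  have hrd : r ≤ d := by omega
  have hdvd : (d : ℤ) ∣ (r : ℤ) - l := by
    have h1 := Int.emod_add_mul_ediv (l - 1) (d : ℤ)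
    refine ⟨-((l - 1) / (d : ℤ)), ?_⟩
    rw [hrz]
    linarith only [h1]
  rcases lt_or_ge u r with hur | hur
  · -- no terms
    refine ⟨0, 0, Nat.zero_le _, le_refl _, zero_le_one, ?_⟩
    have hempty : Sp u d l = ∅ := by
      rw [Sp, Finset.filter_eq_empty_iff]
      intro k hk hk2
      rw [Finset.mem_Icc] at hk
      have h1 : (d : ℤ) ∣ (r : ℤ) - k := by
        have := dvd_sub hdvd hk2
        have e : (r : ℤ) - l - ((k : ℤ) - l) = (r : ℤ) - k := by ring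
        rwa [e] at this
      have h2 : (0 : ℤ) < (r : ℤ) - k := by
        have : k < r := by omega
        have : (k : ℤ) < r := by exact_mod_cast this
        linarith only [hur, hk]
      have h3 := Int.le_of_dvd h2 h1
      have h4 : (r : ℤ) ≤ d := by exact_mod_cast hrd
      have h5 : (1 : ℤ) ≤ k := by exact_mod_cast hk.1
      linarith only [hm1, hrz, hk, h3]
    rw [hempty]
    simp
  · set P : ℕ := (u - r) / d with hP
    have hdR : (0 : ℝ) < d := by exact_mod_cast hd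
    refine ⟨P, (r : ℝ) / d, ?_, by positivity, ?_, ?_⟩
    · rw [hP]
      exact (Nat.div_le_self _ _).trans (Nat.sub_le _ _)
    · rw [div_le_one hdR]
      exact_mod_cast hrd
    · have himg : Sp u d l = (Finset.range (P + 1)).image (fun m => r + d * m) := by
        ext k
        rw [Sp, Finset.mem_filter, Finset.mem_Icc, Finset.mem_image]
        constructor
        · rintro ⟨⟨h1, h2⟩, h3⟩
          have h4 : (d : ℤ) ∣ (k : ℤ) - r := by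
            have := dvd_sub h3 hdvd
            have e : (k : ℤ) - l - ((r : ℤ) - l) = (k : ℤ) - r := by ring
            rwa [e] at this
          obtain ⟨j, hj⟩ := h4
          have hj0 : 0 ≤ j := by
            by_contra hneg
            push Not at hneg
            have h5 : (d : ℤ) * j ≤ -d := by nlinarith only [hm1, hrz, h1, hj, hneg]
            have h6 : (r : ℤ) ≤ d := by exact_mod_cast hrd
            have h7 : (1 : ℤ) ≤ k := by exact_mod_cast h1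
            linarith only [hm1, hrz, h1, hj, h5]
          obtain ⟨m, rfl⟩ := Int.eq_ofNat_of_zero_le hj0
          have h5 : k = r + d * m := by
            have : (k : ℤ) = r + d * m := by linarith only [hj]
            exact_mod_cast this
          refine ⟨m, ?_, h5.symm⟩
          rw [Finset.mem_range, Nat.lt_succ_iff, hP, Nat.le_div_iff_mul_le hd]
          have : m * d = d * m := Nat.mul_comm _ _
          omega
        · rintro ⟨m, hm, rfl⟩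
          rw [Finset.mem_range, Nat.lt_succ_iff, hP, Nat.le_div_iff_mul_le hd] at hm
          have h0 : m * d = d * m := Nat.mul_comm _ _
          refine ⟨⟨by omega, by omega⟩, ?_⟩
          have e : ((r + d * m : ℕ) : ℤ) - l = ((r : ℤ) - l) + d * m := by push_cast; ring
          rw [e]
          exact dvd_add hdvd (dvd_mul_right _ _)
      rw [himg, Finset.sum_image]
      · have hterm : ∀ m ∈ Finset.range (P + 1), ee (t * Real.log ((r + d * m : ℕ) : ℝ))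
            = ee (t * Real.log d) * ee (t * Real.log ((m : ℝ) + (r : ℝ) / d)) := by
          intro m _
          rw [← Pool.Agent.H91.PK.LSa_ee_add, ← mul_add, ← Real.log_mul hdR.ne' ?_]
          · congr 3
            push_cast
            field_simp
            ring
          · have : (0 : ℝ) < r := by exact_mod_cast hr1
            positivity
        rw [Finset.sum_congr rfl hterm, ← Finset.mul_sum, norm_mul,
          Pool.Agent.H91.PK.LSa_norm_ee, one_mul, Finset.sum_range_succ']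
        rw [add_comm]
        refine (norm_add_le _ _).trans ?_
        rw [Pool.Agent.H91.PK.LSa_norm_ee]
        have hshift : ∑ k ∈ Finset.range P, ee (t * Real.log (((k + 1 : ℕ) : ℝ) + (r : ℝ) / d))
            = ∑ n ∈ Ioc 0 P, ee (t * Real.log ((n : ℝ) + (r : ℝ) / d)) := by
          rw [Finset.range_eq_Ico, Finset.sum_Ico_add' (fun n : ℕ =>
            ee (t * Real.log ((n : ℝ) + (r : ℝ) / d))) 0 P 1]
          rfl
        rw [hshift]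
      · intro a _ b _ hab
        have hab' : r + d * a = r + d * b := hab
        have : d * a = d * b := by omega
        exact Nat.eq_of_mul_eq_mul_left hd this

/-- powers -/
private lemma ZPa_pow (s1 s2 C : ℝ) (h : s1 < s2) :
    ∃ x0 : ℕ, ∀ x : ℕ, x0 ≤ x → C * (x : ℝ) ^ s1 ≤ (x : ℝ) ^ s2 := by
  have h1 := (tendsto_rpow_atTop (sub_pos.2 h)).eventually_ge_atTop C
  have h3 := tendsto_natCast_atTop_atTop (R := ℝ) |>.eventually h1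
  obtain ⟨x0, hx0⟩ := Filter.eventually_atTop.1 h3
  refine ⟨max x0 1, fun x hx => ?_⟩
  have hx1 : (0 : ℝ) < x := by
    have : 1 ≤ x := (le_max_right _ _).trans hx
    exact_mod_cast this
  have h4 := hx0 x ((le_max_left _ _).trans hx)
  have h5 : (x : ℝ) ^ s2 = (x : ℝ) ^ (s2 - s1) * (x : ℝ) ^ s1 := by
    rw [← Real.rpow_add hx1]
    congr 1
    ring
  rw [h5]
  exact mul_le_mul_of_nonneg_right h4 (Real.rpow_nonneg hx1.le _)

theorem ap_pow (kap : ℝ) (hkap : 0 < kap) : ∃ ρ0 : ℝ, 0 < ρ0 ∧ ∀ ρ : ℝ, 0 < ρ → ρ ≤ ρ0 →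
    ∃ x0 : ℕ, ∀ x : ℕ, x0 ≤ x → ∀ (u d : ℕ) (l : ℤ) (t : ℝ), (x : ℝ) ^ kap ≤ u → u ≤ x → 1 ≤ d →
      (x : ℝ) ^ (8 * ρ) ≤ |t| → |t| ≤ (x : ℝ) ^ (10 : ℕ) →
      ‖∑ k ∈ Sp u d l, ee (t * Real.log k)‖ ≤ u / (x : ℝ) ^ (7 * ρ) := by
  obtain ⟨k0, hk0⟩ := exists_nat_ge (40 / kap)
  obtain ⟨δ, C, hδ, hδ1, hC, hvdc⟩ := vdc k0
  refine ⟨kap * δ / 100, by positivity, fun ρ hρ hρ0 => ?_⟩
  have hkd : 0 < kap * δ := mul_pos hkap hδ
  have hkd1 : kap * δ ≤ kap := by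
    have := mul_le_mul_of_nonneg_left hδ1 hkap.le
    linarith only [this]
  obtain ⟨xa, hxa⟩ := ZPa_pow (7 * ρ) (8 * ρ) 48 (by linarith)
  obtain ⟨xb, hxb⟩ := ZPa_pow 0 (kap / 4) 2 (by linarith only [hρ, hρ0, hkd1])
  obtain ⟨xc, hxc⟩ := ZPa_pow (7 * ρ) (kap / 4 * δ) (6 * C) (by linarith only [hρ, hρ0])
  obtain ⟨xd, hxd⟩ := ZPa_pow (7 * ρ) (kap / 6) 84 (by linarith)
  obtain ⟨xe, hxe⟩ := ZPa_pow (7 * ρ) (kap / 2) 8 (by linarith only [hρ, hρ0, hkd1])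
  refine ⟨max xa (max xb (max xc (max xd (max xe 1)))), fun x hx => ?_⟩
  simp only [max_le_iff] at hx
  obtain ⟨hx1, hx2, hx3, hx4, hx5, hx6⟩ := hx
  replace hxa := hxa x hx1
  replace hxb := hxb x hx2
  replace hxc := hxc x hx3
  replace hxd := hxd x hx4
  replace hxe := hxe x hx5
  rw [Real.rpow_zero, mul_one] at hxb
  intro u d l t hu1 hu2 hd ht1 ht2
  have hx0 : (1 : ℝ) ≤ x := by exact_mod_cast hx6
  have hxpos : (0 : ℝ) < x := by linarith only [hx0]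
  set Y : ℝ := (x : ℝ) ^ (7 * ρ) with hY
  have hYc : 0 < Y := Real.rpow_pos_of_pos hxpos _
  have htpos : 0 < |t| := lt_of_lt_of_le (by positivity) ht1
  have ht0 : t ≠ 0 := abs_pos.1 htpos
  set X : ℝ := (x : ℝ) ^ (kap / 4) with hX
  have hXX : (x : ℝ) ^ (kap / 2) = X ^ 2 := by
    rw [hX, ← Real.rpow_natCast, ← Real.rpow_mul hxpos.le]
    congr 1
    push_cast
    ring
  have hXXX : (x : ℝ) ^ kap = X ^ 4 := by
    rw [hX, ← Real.rpow_natCast, ← Real.rpow_mul hxpos.le]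
    congr 1
    push_cast
    ring
  set M1 : ℕ := ⌈(x : ℝ) ^ (kap / 2)⌉₊ with hM1
  have hM1a : (x : ℝ) ^ (kap / 2) ≤ M1 := Nat.le_ceil _
  have hM1b : (M1 : ℝ) < (x : ℝ) ^ (kap / 2) + 1 :=
    Nat.ceil_lt_add_one (Real.rpow_nonneg hxpos.le _)
  have hM1c : 1 ≤ M1 := by
    have : (0 : ℝ) < M1 := lt_of_lt_of_le (Real.rpow_pos_of_pos hxpos _) hM1a
    exact_mod_cast this
  obtain ⟨P, β, hPu, hβ0, hβ1, hred⟩ := ZPa_reduce u d l t hd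
  set E : ℝ := 1 / (6 * Y) with hE
  have hE0 : 0 ≤ E := by positivity
  have hdy := ZPa_dyad (fun n : ℕ => ee (t * Real.log (n + β)))
    (fun n => (Pool.Agent.H91.PK.LSa_norm_ee _).le) M1 u E hE0 hM1c (by
    intro M b hM2 hMU hb
    have hMX : X ≤ M := by
      have h1 : (M1 : ℝ) ≤ 2 * M := by exact_mod_cast hM2
      rw [hXX] at hM1a
      nlinarith only [hxb, hM1a, h1]
    have hM1' : (1 : ℝ) ≤ M := by linarith only [hxb, hMX]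
    have hM1n : 1 ≤ M := by exact_mod_cast hM1'
    have hM0 : (0 : ℝ) < M := by linarith only [hxb, hMX]
    rcases le_or_gt ((M : ℝ) ^ (1 / 3 : ℝ)) |t| with hcase | hcase
    · -- van der Corput
      have h1 : |t| ≤ (M : ℝ) ^ k0 := by
        have h2 : (x : ℝ) ^ (10 : ℕ) ≤ X ^ k0 := by
          rw [hX, ← Real.rpow_natCast, ← Real.rpow_natCast, ← Real.rpow_mul hxpos.le]
          apply Real.rpow_le_rpow_of_exponent_le hx0
          rw [div_le_iff₀ hkap] at hk0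
          push_cast
          linarith only [hk0]
        have h3 : X ^ k0 ≤ (M : ℝ) ^ k0 := by
          apply pow_le_pow_left₀ _ hMX
          linarith only [hxb]
        linarith only [ht2, h2, h3]
      have h4 := hvdc M M b β t hM1n le_rfl hb hβ0 hβ1 hcase h1
      refine h4.trans ?_
      have h5 : (M : ℝ) ^ (1 - δ) = M * (1 / (M : ℝ) ^ δ) := by
        rw [Real.rpow_sub hM0, Real.rpow_one]
        ring
      have h6 : 6 * C * Y ≤ (M : ℝ) ^ δ := by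
        refine hxc.trans ?_
        rw [Real.rpow_mul hxpos.le]
        exact Real.rpow_le_rpow (by linarith only [hxb]) hMX hδ.le
      have h7 : 0 < (M : ℝ) ^ δ := Real.rpow_pos_of_pos hM0 _
      rw [h5, hE]
      have h8 : C * (1 / (M : ℝ) ^ δ) ≤ 1 / (6 * Y) := by
        rw [mul_one_div, div_le_div_iff₀ h7 (by positivity)]
        linarith only [h6]
      calc C * (M * (1 / (M : ℝ) ^ δ)) = M * (C * (1 / (M : ℝ) ^ δ)) := by ring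
        _ ≤ M * (1 / (6 * Y)) := mul_le_mul_of_nonneg_left h8 hM0.le
    · have h1 := low_sum t β M M b hM1n le_rfl hb hβ0 hβ1 ht0
      refine h1.trans ?_
      have h2 : 4 * M / |t| ≤ M * (1 / (12 * Y)) := by
        rw [mul_one_div, div_le_div_iff₀ htpos (by positivity)]
        have h3 : 48 * Y ≤ |t| := hxa.trans ht1
        nlinarith only [ht1, hxa]
      have h3 : 7 * |t| ≤ M * (1 / (12 * Y)) := by
        have h4 : (M : ℝ) = (M : ℝ) ^ (1 / 3 : ℝ) * (M : ℝ) ^ (2 / 3 : ℝ) := by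
          rw [← Real.rpow_add hM0]
          norm_num
        have h5 : 84 * Y ≤ (M : ℝ) ^ (2 / 3 : ℝ) := by
          refine hxd.trans ?_
          have h6 : (x : ℝ) ^ (kap / 6) = X ^ (2 / 3 : ℝ) := by
            rw [hX, ← Real.rpow_mul hxpos.le]
            congr 1
            ring
          rw [h6]
          exact Real.rpow_le_rpow (by linarith only [hxb]) hMX (by norm_num)
        have h7 : 0 < (M : ℝ) ^ (1 / 3 : ℝ) := Real.rpow_pos_of_pos hM0 _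
        rw [mul_one_div, le_div_iff₀ (by positivity)]
        calc 7 * |t| * (12 * Y) = |t| * (84 * Y) := by ring
          _ ≤ (M : ℝ) ^ (1 / 3 : ℝ) * (M : ℝ) ^ (2 / 3 : ℝ) :=
            mul_le_mul hcase.le h5 (by positivity) h7.le
          _ = M := h4.symm
      have h8 : M * (1 / (12 * Y)) + M * (1 / (12 * Y)) = M * E := by
        rw [hE]
        field_simp
        norm_num
      linarith only [h2, h3, h8])
  have h1 := hdy P hPu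
  refine hred.trans ?_
  have hPu' : (P : ℝ) ≤ u := by exact_mod_cast hPu
  have h2 : 3 * E * P ≤ u / (2 * Y) := by
    have h3 : 3 * E * P ≤ 3 * E * u := mul_le_mul_of_nonneg_left hPu' (by positivity)
    refine h3.trans (le_of_eq ?_)
    rw [hE]
    field_simp
    ring
  have h4 : 1 + (M1 : ℝ) ≤ u / (2 * Y) := by
    rw [le_div_iff₀ (by positivity)]
    have h5 : 1 ≤ X ^ 2 := by nlinarith only [hxb]
    rw [hXX] at hM1b hxe
    have h6 : (1 + (M1 : ℝ)) ≤ 4 * X ^ 2 := by linarith only [hYc, hxe, hM1b, h5]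
    calc (1 + (M1 : ℝ)) * (2 * Y) ≤ 4 * X ^ 2 * (2 * Y) :=
          mul_le_mul_of_nonneg_right h6 (by positivity)
      _ = X ^ 2 * (8 * Y) := by ring
      _ ≤ X ^ 2 * X ^ 2 := mul_le_mul_of_nonneg_left hxe (by positivity)
      _ = X ^ 4 := by ring
      _ ≤ u := by rw [← hXXX]; exact hu1
  have h9 : (u : ℝ) / (2 * Y) + u / (2 * Y) = u / Y := by
    field_simp
    norm_num
  linarith only [h1, h2, h4, h9]

end Pool.Agent.H65.MS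

end

section

/-!
# MS ZPb: the bound for `ZZ`, power saving

Same proof as `ZZ_bound` in `Pool/Agent/H76/EHB/ZZb.lean` (copy it, with its private lemmas), with `ap_pow (kap/2)` instead of `ap_sum` and
`w = K/x^(7ρ)` instead of `K/(log x)^(c+3)`.  Needed: `x^(7ρ) ≤ x^(kap/2)` (`ρ0 ≤ kap/14`), `7 x^(8ρ) ≤ x^(10ρ)` (then
`|τ| = |t|/(2π) ≥ x^(10ρ)/7 ≥ x^(8ρ)`), `24 ≤ x^ρ` (then `24 w ≤ K/x^(6ρ)`).
-/

set_option autoImplicit false

namespace Pool.Agent.H65.MS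

open Finset
open Pool.Agent.H91.PK (ee)
open Pool.Agent.H76.EHB

private theorem ZPb_abel (f : ℕ → ℝ) (hf : ∀ n, f (n + 1) ≤ f n)
    (a : ℕ → ℂ) (m : ℕ) (M : ℝ) (n : ℕ) (hmn : m + 1 ≤ n)
    (hS : ∀ j, m ≤ j → j ≤ n → ‖∑ k ∈ Ioc m j, a k‖ ≤ M) :
    ‖∑ k ∈ Ioc m n, (f k : ℂ) * a k - (f n : ℂ) * ∑ k ∈ Ioc m n, a k‖ ≤ M * (f (m + 1) - f n) := by
  induction n, hmn using Nat.le_induction with
  | base =>
    have h1 : Ioc m (m + 1) = {m + 1} := by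
      ext j; rw [mem_Ioc, mem_singleton]; omega
    rw [h1, sum_singleton, sum_singleton, sub_self, norm_zero, sub_self, mul_zero]
  | succ n hn ih =>
    have hih := ih (fun j h1 h2 => hS j h1 (h2.trans (Nat.le_succ n)))
    have hsucc : ∀ g : ℕ → ℂ, ∑ k ∈ Ioc m (n + 1), g k = ∑ k ∈ Ioc m n, g k + g (n + 1) := by
      intro g
      exact sum_Ioc_succ_top (by omega) g
    rw [hsucc, hsucc]
    have hSn := hS n (by omega) (Nat.le_succ n)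
    have e : ∑ k ∈ Ioc m n, (f k : ℂ) * a k + (f (n + 1) : ℂ) * a (n + 1)
        - (f (n + 1) : ℂ) * (∑ k ∈ Ioc m n, a k + a (n + 1)) =
        (∑ k ∈ Ioc m n, (f k : ℂ) * a k - (f n : ℂ) * ∑ k ∈ Ioc m n, a k) +
        ((f n - f (n + 1) : ℝ) : ℂ) * ∑ k ∈ Ioc m n, a k := by
      push_cast
      ring
    rw [e]
    refine (norm_add_le _ _).trans ?_
    have h2 : ‖((f n - f (n + 1) : ℝ) : ℂ) * ∑ k ∈ Ioc m n, a k‖ ≤ (f n - f (n + 1)) * M := by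
      rw [norm_mul, Complex.norm_real, Real.norm_of_nonneg (by linarith only [hf, hf n])]
      exact mul_le_mul_of_nonneg_left hSn (by linarith only [hf, hf n])
    calc _ ≤ M * (f (m + 1) - f n) + (f n - f (n + 1)) * M := add_le_add hih h2
      _ = M * (f (m + 1) - f (n + 1)) := by ring

private theorem ZPb_abel2 (f : ℕ → ℝ) (hf : ∀ n, f (n + 1) ≤ f n) (hf0 : ∀ n, 0 ≤ f n)
    (a : ℕ → ℂ) (m : ℕ) (M : ℝ) (n : ℕ) (hmn : m ≤ n)
    (hS : ∀ j, m ≤ j → j ≤ n → ‖∑ k ∈ Ioc m j, a k‖ ≤ M) :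
    ‖∑ k ∈ Ioc m n, (f k : ℂ) * a k‖ ≤ M * f (m + 1) := by
  have hM : 0 ≤ M := (norm_nonneg _).trans (hS m le_rfl hmn)
  rcases Nat.eq_or_lt_of_le hmn with h | h
  · subst h
    rw [Ioc_self, sum_empty, norm_zero]
    exact mul_nonneg hM (hf0 _)
  · have h1 := ZPb_abel f hf a m M n h hS
    have h2 : ‖(f n : ℂ) * ∑ k ∈ Ioc m n, a k‖ ≤ f n * M := by
      rw [norm_mul, Complex.norm_real, Real.norm_of_nonneg (hf0 n)]
      exact mul_le_mul_of_nonneg_left (hS n hmn le_rfl) (hf0 n)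
    calc ‖∑ k ∈ Ioc m n, (f k : ℂ) * a k‖
        = ‖(∑ k ∈ Ioc m n, (f k : ℂ) * a k - (f n : ℂ) * ∑ k ∈ Ioc m n, a k) +
          (f n : ℂ) * ∑ k ∈ Ioc m n, a k‖ := by rw [sub_add_cancel]
      _ ≤ M * (f (m + 1) - f n) + f n * M := (norm_add_le _ _).trans (add_le_add h1 h2)
      _ = M * f (m + 1) := by ring

private theorem ZPb_sqrt_sum (n : ℕ) :
    ∑ k ∈ Icc 1 n, (k : ℝ) ^ (-(1 / 2) : ℝ) ≤ 2 * Real.sqrt n := by
  induction n with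
  | zero => simp
  | succ n ih =>
    rw [sum_Icc_succ_top (by omega : 1 ≤ n + 1)]
    have h0 : (0 : ℝ) ≤ n := Nat.cast_nonneg n
    have h1 : (((n + 1 : ℕ) : ℝ)) ^ (-(1 / 2) : ℝ) = 1 / Real.sqrt (n + 1) := by
      rw [Real.rpow_neg (by positivity), Real.sqrt_eq_rpow, one_div, one_div]
      push_cast
      rfl
    rw [h1]
    have hs : 0 < Real.sqrt ((n : ℝ) + 1) := Real.sqrt_pos.2 (by linarith only)
    have hs0 : 0 ≤ Real.sqrt (n : ℝ) := Real.sqrt_nonneg _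
    have e1 : Real.sqrt ((n : ℝ) + 1) * Real.sqrt ((n : ℝ) + 1) = n + 1 :=
      Real.mul_self_sqrt (by linarith only)
    have e2 : Real.sqrt (n : ℝ) * Real.sqrt (n : ℝ) = n := Real.mul_self_sqrt h0
    have h2 : 1 / Real.sqrt ((n : ℝ) + 1) ≤ 2 * Real.sqrt ((n : ℝ) + 1) - 2 * Real.sqrt n := by
      rw [div_le_iff₀ hs]
      nlinarith only [e1, e2, sq_nonneg (Real.sqrt ((n : ℝ) + 1) - Real.sqrt n)]
    push_cast
    linarith only [ih, h2]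

private theorem ZPb_term (k : ℕ) (hk : 1 ≤ k) (t : ℝ) :
    (k : ℂ) ^ (-(1 / 2 : ℂ) + t * Complex.I) =
      (((k : ℝ) ^ (-(1 / 2) : ℝ) : ℝ) : ℂ) * ee (t / (2 * Real.pi) * Real.log k) := by
  have hk0 : (k : ℂ) ≠ 0 := by
    have : k ≠ 0 := by omega
    exact_mod_cast this
  have hkr : (0 : ℝ) < k := by exact_mod_cast hk
  have hpi : (Real.pi : ℂ) ≠ 0 := by exact_mod_cast Real.pi_ne_zero
  rw [Complex.cpow_add _ _ hk0, Complex.ofReal_cpow hkr.le]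
  congr 1
  · push_cast
    rfl
  · rw [Complex.cpow_def_of_ne_zero hk0, ee, ← Complex.natCast_log]
    congr 1
    push_cast
    field_simp

/-- powers -/
private lemma ZPb_pow (s1 s2 C : ℝ) (h : s1 < s2) :
    ∃ x0 : ℕ, ∀ x : ℕ, x0 ≤ x → C * (x : ℝ) ^ s1 ≤ (x : ℝ) ^ s2 := by
  have h1 := (tendsto_rpow_atTop (sub_pos.2 h)).eventually_ge_atTop C
  have h3 := tendsto_natCast_atTop_atTop (R := ℝ) |>.eventually h1
  obtain ⟨x0, hx0⟩ := Filter.eventually_atTop.1 h3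
  refine ⟨max x0 1, fun x hx => ?_⟩
  have hx1 : (0 : ℝ) < x := by
    have : 1 ≤ x := (le_max_right _ _).trans hx
    exact_mod_cast this
  have h4 := hx0 x ((le_max_left _ _).trans hx)
  have h5 : (x : ℝ) ^ s2 = (x : ℝ) ^ (s2 - s1) * (x : ℝ) ^ s1 := by
    rw [← Real.rpow_add hx1]
    congr 1
    ring
  rw [h5]
  exact mul_le_mul_of_nonneg_right h4 (Real.rpow_nonneg hx1.le _)

theorem ZZ_pow (kap : ℝ) (hkap : 0 < kap) : ∃ ρ0 : ℝ, 0 < ρ0 ∧ ∀ ρ : ℝ, 0 < ρ → ρ ≤ ρ0 →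
    ∃ x0 : ℕ, ∀ x : ℕ, x0 ≤ x → ∀ (K d : ℕ) (l : ℤ) (t : ℝ), (x : ℝ) ^ kap ≤ K → K ≤ x → 1 ≤ d →
      (x : ℝ) ^ (10 * ρ) ≤ |t| → |t| ≤ (x : ℝ) ^ (10 : ℕ) →
      ‖ZZ (Sp K d l) t‖ ^ 2 ≤ K / (x : ℝ) ^ (6 * ρ) := by
  obtain ⟨ρ1, hρ1, hap0⟩ := ap_pow (kap / 2) (by positivity)
  refine ⟨min ρ1 (kap / 14), lt_min hρ1 (by positivity), fun ρ hρ hρ0 => ?_⟩
  have hρa : ρ ≤ ρ1 := hρ0.trans (min_le_left _ _)
  have hρb : ρ ≤ kap / 14 := hρ0.trans (min_le_right _ _)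
  obtain ⟨x1, hap⟩ := hap0 ρ hρ hρa
  obtain ⟨x3, hx3⟩ := ZPb_pow 0 ρ 24 (by linarith only [hρ])
  obtain ⟨x4, hx4⟩ := ZPb_pow (8 * ρ) (10 * ρ) 7 (by linarith only [hρ])
  refine ⟨max x1 (max x3 (max x4 1)), ?_⟩
  intro x hx K d l t hK1 hK2 hd1 ht1 ht2
  have hxa : x1 ≤ x := (le_max_left _ _).trans hx
  have hxb : x3 ≤ x := ((le_max_left _ _).trans (le_max_right _ _)).trans hx
  have hxc : x4 ≤ x := (((le_max_left _ _).trans (le_max_right _ _)).trans (le_max_right _ _)).trans hx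
  have hxd : 1 ≤ x := (((le_max_right _ _).trans (le_max_right _ _)).trans (le_max_right _ _)).trans hx
  have hx0 : (1 : ℝ) ≤ x := by exact_mod_cast hxd
  have hxpos : (0 : ℝ) < x := by linarith only [hx0]
  have h24x := hx3 x hxb
  rw [Real.rpow_zero, mul_one] at h24x
  have h7x := hx4 x hxc
  obtain ⟨Y, hY⟩ : ∃ Y : ℝ, Y = (x : ℝ) ^ (7 * ρ) := ⟨_, rfl⟩
  have hLp : Y ≤ (x : ℝ) ^ (kap / 2) := by
    rw [hY]
    exact Real.rpow_le_rpow_of_exponent_le hx0 (by linarith only [hρb])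
  have hC0 : 0 < Y := by rw [hY]; exact Real.rpow_pos_of_pos hxpos _
  have hY1 : 1 ≤ Y := by rw [hY]; exact Real.one_le_rpow hx0 (by positivity)
  have hxk : (x : ℝ) ^ kap = (x : ℝ) ^ (kap / 2) * (x : ℝ) ^ (kap / 2) := by
    rw [← Real.rpow_add (by linarith only [hx0])]
    congr 1
    ring
  have hxk1 : 1 ≤ (x : ℝ) ^ (kap / 2) := Real.one_le_rpow hx0 (by positivity)
  -- the threshold
  obtain ⟨w, hw⟩ : ∃ w : ℝ, w = (K : ℝ) / Y := ⟨_, rfl⟩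
  have hwx : (x : ℝ) ^ (kap / 2) ≤ w := by
    rw [hw, le_div_iff₀ hC0]
    calc (x : ℝ) ^ (kap / 2) * Y ≤ (x : ℝ) ^ (kap / 2) * (x : ℝ) ^ (kap / 2) :=
          mul_le_mul_of_nonneg_left hLp (by positivity)
      _ = (x : ℝ) ^ kap := hxk.symm
      _ ≤ K := hK1
  have hw1 : 1 ≤ w := hxk1.trans hwx
  have hwK : w ≤ K := by
    rw [hw]
    exact div_le_self (Nat.cast_nonneg K) hY1
  obtain ⟨u0, hu0⟩ : ∃ u0 : ℕ, u0 = ⌈w⌉₊ := ⟨_, rfl⟩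
  have hu0w : w ≤ u0 := by rw [hu0]; exact Nat.le_ceil w
  have hu0K : u0 ≤ K := by rw [hu0]; exact Nat.ceil_le.2 hwK
  have hu02 : (u0 : ℝ) ≤ 2 * w := by
    have := Nat.ceil_lt_add_one (by linarith only [hLp, hC0, hwx] : (0 : ℝ) ≤ w)
    rw [← hu0] at this
    linarith only [hLp, hY1, hwx, this]
  -- the coefficients
  obtain ⟨τ, hτ⟩ : ∃ τ : ℝ, τ = t / (2 * Real.pi) := ⟨_, rfl⟩
  have hpi0 := Real.pi_pos
  have hpi3 := Real.pi_gt_three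
  have hpi4 := Real.pi_lt_d2
  have hτabs : |τ| = |t| / (2 * Real.pi) := by
    rw [hτ, abs_div, abs_of_pos (by positivity : (0 : ℝ) < 2 * Real.pi)]
  have hτ1 : (x : ℝ) ^ (8 * ρ) ≤ |τ| := by
    rw [hτabs, le_div_iff₀ (by positivity)]
    refine le_trans ?_ (h7x.trans ht1)
    rw [mul_comm 7]
    exact mul_le_mul_of_nonneg_left (by linarith only [hpi3, hpi4]) (by positivity)
  have hτ2 : |τ| ≤ (x : ℝ) ^ (10 : ℕ) := by
    refine le_trans ?_ ht2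
    rw [hτabs]
    exact div_le_self (abs_nonneg _) (by linarith only [hpi3, hpi4])
  have hA : ∀ u : ℕ, u0 ≤ u → u ≤ K →
      ‖∑ k ∈ Sp u d l, ee (τ * Real.log k)‖ ≤ w := by
    intro u h1 h2
    have h3 := hap x hxa u d l τ (hwx.trans (hu0w.trans (by exact_mod_cast h1)))
      (h2.trans hK2) hd1 hτ1 hτ2
    rw [← hY] at h3
    refine h3.trans ?_
    rw [hw]
    exact div_le_div_of_nonneg_right (by exact_mod_cast h2) hC0.le
  obtain ⟨a, ha⟩ : ∃ a : ℕ → ℂ, ∀ k, a k = if (d : ℤ) ∣ (k : ℤ) - l then ee (τ * Real.log k) else 0 :=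
    ⟨_, fun _ => rfl⟩
  have hAa : ∀ u : ℕ, ∑ k ∈ Sp u d l, ee (τ * Real.log k) = ∑ k ∈ Icc 1 u, a k := by
    intro u
    rw [Sp, sum_filter]
    exact sum_congr rfl fun k _ => (ha k).symm
  have hsplit : ∀ (g : ℕ → ℂ) (u : ℕ), u0 ≤ u →
      ∑ k ∈ Icc 1 u, g k = ∑ k ∈ Icc 1 u0, g k + ∑ k ∈ Ioc u0 u, g k := by
    intro g u hu
    have h1 : Icc 1 u = Icc 1 u0 ∪ Ioc u0 u := by
      ext j; rw [mem_union, mem_Icc, mem_Icc, mem_Ioc]; omega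
    rw [h1, sum_union]
    rw [disjoint_left]
    intro j h2 h3
    rw [mem_Icc] at h2
    rw [mem_Ioc] at h3
    omega
  have hS : ∀ j, u0 ≤ j → j ≤ K → ‖∑ k ∈ Ioc u0 j, a k‖ ≤ 2 * w := by
    intro j h1 h2
    have h3 := hA j h1 h2
    have h4 := hA u0 le_rfl hu0K
    rw [hAa] at h3 h4
    have h5 := hsplit a j h1
    have h6 : ∑ k ∈ Ioc u0 j, a k = ∑ k ∈ Icc 1 j, a k - ∑ k ∈ Icc 1 u0, a k := by
      rw [h5]; ring
    rw [h6]
    refine (norm_sub_le _ _).trans ?_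
    linarith only [h3, h4]
  -- the weights
  obtain ⟨f, hf⟩ : ∃ f : ℕ → ℝ, ∀ k, f k = if k = 0 then 1 else (k : ℝ) ^ (-(1 / 2) : ℝ) :=
    ⟨_, fun _ => rfl⟩
  have hf0 : ∀ n, 0 ≤ f n := by
    intro n
    rw [hf]
    split_ifs
    · exact zero_le_one
    · positivity
  have hfm : ∀ n, f (n + 1) ≤ f n := by
    intro n
    rw [hf, hf, if_neg (Nat.succ_ne_zero n)]
    split_ifs with h
    · subst h
      simp
    · have hn : (0 : ℝ) < n := by exact_mod_cast Nat.pos_of_ne_zero h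
      exact Real.rpow_le_rpow_of_nonpos hn (by push_cast; linarith only [hpi3, hpi4]) (by norm_num)
  have hZ : ZZ (Sp K d l) t = ∑ k ∈ Icc 1 u0, (f k : ℂ) * a k + ∑ k ∈ Ioc u0 K, (f k : ℂ) * a k := by
    rw [← hsplit _ K hu0K, ZZ, Sp, sum_filter]
    refine sum_congr rfl fun k hk => ?_
    rw [mem_Icc] at hk
    rw [ha, hf, if_neg (by omega : k ≠ 0)]
    split_ifs
    · rw [ZPb_term k hk.1 t, hτ]
    · rw [mul_zero]
  have hnee : ∀ y : ℝ, ‖ee y‖ = 1 := by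
    intro y
    have : (2 * (Real.pi : ℂ) * (y : ℂ) * Complex.I) = ((2 * Real.pi * y : ℝ) : ℂ) * Complex.I := by
      push_cast
      ring
    rw [ee, this, Complex.norm_exp_ofReal_mul_I]
  have hpart1 : ‖∑ k ∈ Icc 1 u0, (f k : ℂ) * a k‖ ≤ 2 * Real.sqrt u0 := by
    refine (norm_sum_le _ _).trans (le_trans (sum_le_sum ?_) (ZPb_sqrt_sum u0))
    intro k hk
    rw [mem_Icc] at hk
    rw [norm_mul, Complex.norm_real, Real.norm_of_nonneg (hf0 k), hf, if_neg (by omega : k ≠ 0)]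
    refine mul_le_of_le_one_right (by positivity) ?_
    rw [ha]
    split_ifs
    · rw [hnee]
    · rw [norm_zero]; exact zero_le_one
  have hpart2 : ‖∑ k ∈ Ioc u0 K, (f k : ℂ) * a k‖ ≤ 2 * w * f (u0 + 1) :=
    ZPb_abel2 f hfm hf0 a u0 (2 * w) K hu0K hS
  have hf2 : f (u0 + 1) ^ 2 ≤ 1 / w := by
    rw [hf, if_neg (Nat.succ_ne_zero u0), ← Real.rpow_natCast, ← Real.rpow_mul (by positivity)]
    have e1 : (-(1 / 2) : ℝ) * ((2 : ℕ) : ℝ) = -1 := by norm_num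
    rw [e1, Real.rpow_neg_one, ← one_div]
    apply one_div_le_one_div_of_le (by linarith only [hLp, hY1, hwx, hpi3, hpi4])
    push_cast
    linarith only [hu0w, hpi3, hpi4]
  have hp1 : ‖∑ k ∈ Icc 1 u0, (f k : ℂ) * a k‖ ^ 2 ≤ 8 * w := by
    calc ‖∑ k ∈ Icc 1 u0, (f k : ℂ) * a k‖ ^ 2 ≤ (2 * Real.sqrt u0) ^ 2 :=
          pow_le_pow_left₀ (norm_nonneg _) hpart1 2
      _ = 4 * u0 := by
          rw [mul_pow, Real.sq_sqrt (Nat.cast_nonneg u0)]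
          norm_num
      _ ≤ 8 * w := by linarith only [hu02]
  have hp2 : ‖∑ k ∈ Ioc u0 K, (f k : ℂ) * a k‖ ^ 2 ≤ 4 * w := by
    calc ‖∑ k ∈ Ioc u0 K, (f k : ℂ) * a k‖ ^ 2 ≤ (2 * w * f (u0 + 1)) ^ 2 :=
          pow_le_pow_left₀ (norm_nonneg _) hpart2 2
      _ = 4 * w ^ 2 * f (u0 + 1) ^ 2 := by ring
      _ ≤ 4 * w ^ 2 * (1 / w) := mul_le_mul_of_nonneg_left hf2 (by positivity)
      _ = 4 * w := by
          have : w ≠ 0 := by linarith only [hLp, hY1, hwx, hpi3, hpi4]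
          field_simp
  have h24 : ‖ZZ (Sp K d l) t‖ ^ 2 ≤ 24 * w := by
    rw [hZ]
    have h1 := norm_add_le (∑ k ∈ Icc 1 u0, (f k : ℂ) * a k) (∑ k ∈ Ioc u0 K, (f k : ℂ) * a k)
    have h2 := pow_le_pow_left₀ (norm_nonneg _) h1 2
    have h3 : ∀ p q : ℝ, (p + q) ^ 2 ≤ 2 * p ^ 2 + 2 * q ^ 2 := by
      intro p q
      nlinarith only [sq_nonneg (p - q)]
    have h4 := h3 ‖∑ k ∈ Icc 1 u0, (f k : ℂ) * a k‖ ‖∑ k ∈ Ioc u0 K, (f k : ℂ) * a k‖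
    linarith only [hp1, hp2, h2, h4]
  refine h24.trans ?_
  have hY2 : Y = (x : ℝ) ^ (6 * ρ) * (x : ℝ) ^ ρ := by
    rw [hY, ← Real.rpow_add hxpos]
    congr 1
    ring
  rw [hw, ← mul_div_assoc, div_le_div_iff₀ (by positivity) (by positivity), hY2]
  have hnn : 0 ≤ (K : ℝ) * (x : ℝ) ^ (6 * ρ) := by positivity
  calc 24 * (K : ℝ) * (x : ℝ) ^ (6 * ρ) = (K : ℝ) * (x : ℝ) ^ (6 * ρ) * 24 := by ring
    _ ≤ (K : ℝ) * (x : ℝ) ^ (6 * ρ) * (x : ℝ) ^ ρ := mul_le_mul_of_nonneg_left h24x hnn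
    _ = (K : ℝ) * ((x : ℝ) ^ (6 * ρ) * (x : ℝ) ^ ρ) := by ring

end Pool.Agent.H65.MS

end

section

/-!
# MS JP: the bound for `JJ`, power saving

The analogue of `JJ_bound` in `Pool/Agent/H76/EHB/JJfin.lean` (same structure).  `JJ_le` with `Θ = K Y ≤ 1` and four times `II_le` with
`T0 = x^(10ρ)`, `T1 = x^10`, `ZB = K/x^(6ρ)` (`ZZ_pow`, for `l` and `-l`; `Sp ⊆ Icc 1 K`), and `MB` from `mel_small` with
`P = x^(1 - 46ρ)` (`≥ 1`), `E = x^(1 - 77ρ)`, `Fm = 2 x^(2ρ)`, `|t| ≤ T0`, `N ≤ 2x`, `√P = x^(1/2 - 23ρ)`: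
`2 (1 + 7 N/P) E/√P ≤ 2 (1 + 14 x^(46ρ)) x^(1-77ρ) x^(-1/2+23ρ) ≤ 30 x^(1/2 - 8ρ)`,
`30 Fm (1+|t|) √P (1 + log N) ≤ 30 * 2 x^(2ρ) * 2 x^(10ρ) * x^(1/2-23ρ) * 3 log x ≤ x^(1/2 - 10ρ)` for large `x`.
So `MB = 31 x^(1/2-8ρ)`, `2 K T0 MB^2 ≤ 2000 K x^(1-6ρ)`;  `ZB S2 ≤ 40 K x^(1-6ρ)`;  last term: `∑|f| ≤ 2x * 2x^(2ρ) ≤ x^2`,
`N + |a| + 1 ≤ 3x (1 + |a|/x)`, so `100 K (..)^2/x^10 ≤ 900 K (1+|a|/x)^2/x^4`.  All together (factor `2 * 4`)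
`≤ K x^(1-5ρ) (1+|a|/x)^2` since `x^ρ` is large.  `ρ0 = min(ρ0 of ZZ_pow, 1/100)`.
-/

set_option autoImplicit false

namespace Pool.Agent.H65.MS

open Finset
open Pool.Agent.H91.PK (ee)
open Pool.Agent.H76.EHB

private theorem JP_x0 (ρ : ℝ) (hρ : 0 < ρ) : ∃ x0 : ℕ, ∀ x : ℕ, x0 ≤ x →
    (1 : ℝ) ≤ x ∧ 32000 ≤ (x : ℝ) ^ ρ ∧ 120 * (1 + Real.log (2 * x)) ≤ (x : ℝ) ^ ρ := by
  have h1 : ∀ᶠ y : ℝ in Filter.atTop, ‖Real.log y‖ ≤ 1 / 240 * ‖y ^ ρ‖ :=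
    (isLittleO_log_rpow_atTop hρ).bound (by norm_num)
  have h2 : ∀ᶠ y : ℝ in Filter.atTop, 32000 ≤ y ^ ρ :=
    (tendsto_rpow_atTop hρ).eventually_ge_atTop 32000
  have h3 : ∀ᶠ y : ℝ in Filter.atTop, (1 : ℝ) ≤ y := Filter.eventually_ge_atTop 1
  have h4 := tendsto_natCast_atTop_atTop (R := ℝ)
  have h5 : ∀ᶠ x : ℕ in Filter.atTop,
      (1 : ℝ) ≤ x ∧ 32000 ≤ (x : ℝ) ^ ρ ∧ 120 * (1 + Real.log (2 * x)) ≤ (x : ℝ) ^ ρ := by
    filter_upwards [h4.eventually h1, h4.eventually h2, h4.eventually h3] with x a1 a2 a3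
    refine ⟨a3, a2, ?_⟩
    have hx0 : (0 : ℝ) < x := by linarith only [a3]
    rw [Real.norm_of_nonneg (Real.log_nonneg a3), Real.norm_of_nonneg (by positivity)] at a1
    rw [Real.log_mul (by norm_num) hx0.ne']
    have h6 := Real.log_two_lt_d9
    linarith only [a1, a2, h6]
  exact Filter.eventually_atTop.mp h5

/-- The bound for the Mellin transform. -/
private theorem JP_mel (f : ℕ → ℝ) (N : ℕ) (α a Θ s t x y : ℝ) (hN : 1 ≤ N)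
    (hNx : (N : ℝ) ≤ 2 * x) (hs : s = 1 ∨ s = -1) (hΘ : Θ ≤ 1) (hx : 1 ≤ x) (hy : 1 ≤ y)
    (hlog : 120 * (1 + Real.log (2 * x)) ≤ y) (hP : y ^ 100 ≤ x)
    (hF : ∀ n ∈ Icc 1 N, |f n| ≤ 2 * y ^ 2)
    (h : ∀ u, u ≤ N → ‖∑ n ∈ Icc 1 u, (f n : ℂ) * ee (n * α)‖ ≤ x / y ^ 77)
    (ht : |t| ≤ y ^ 10) :
    ‖Mel (gg f N α a Θ s) t‖ ≤ 31 * (Real.sqrt x / y ^ 8) := by
  have hy0 : 0 < y := by linarith only [hy]
  have hx0 : 0 < x := by linarith only [hx]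
  have hsx : 0 < Real.sqrt x := Real.sqrt_pos.mpr hx0
  have hsxx : Real.sqrt x * Real.sqrt x = x := Real.mul_self_sqrt hx0.le
  have hP1 : 1 ≤ x / y ^ 46 := by
    rw [le_div_iff₀ (by positivity)]
    have : y ^ 46 ≤ y ^ 100 := pow_le_pow_right₀ hy (by norm_num)
    linarith only [hP, this]
  have hmel := mel_small f N α a Θ s t (x / y ^ 77) (2 * y ^ 2) (x / y ^ 46) hN hs
    hΘ (by positivity) hP1 hF h
  have hsq : Real.sqrt (x / y ^ 46) = Real.sqrt x / y ^ 23 := by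
    have h1 : y ^ 46 = (y ^ 23) ^ 2 := by ring
    rw [Real.sqrt_div hx0.le, h1, Real.sqrt_sq (by positivity)]
  rw [hsq] at hmel
  have hN0 : (0 : ℝ) < N := by exact_mod_cast hN
  have hlogN : Real.log N ≤ Real.log (2 * x) := Real.log_le_log hN0 hNx
  have hlogN0 : 0 ≤ Real.log N := Real.log_natCast_nonneg N
  -- first term
  have ha1 : 1 + 7 * (1 / (x / y ^ 46)) * N ≤ 15 * y ^ 46 := by
    have h1 : 1 / (x / y ^ 46) * N ≤ 2 * y ^ 46 := by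
      rw [one_div_div, div_mul_eq_mul_div, div_le_iff₀ hx0]
      have := mul_le_mul_of_nonneg_left hNx (by positivity : 0 ≤ y ^ 46)
      linarith only [this]
    have h2 : (1 : ℝ) ≤ y ^ 46 := one_le_pow₀ hy
    linarith only [h1, h2]
  have hb1 : 2 * (1 + 7 * (1 / (x / y ^ 46)) * N) * (x / y ^ 77) /
      (Real.sqrt x / y ^ 23) ≤ 30 * (Real.sqrt x / y ^ 8) := by
    have h1 : 2 * (15 * y ^ 46) * (x / y ^ 77) / (Real.sqrt x / y ^ 23) =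
        30 * (Real.sqrt x / y ^ 8) := by
      have key : ∀ z : ℝ, z ≠ 0 → 2 * (15 * y ^ 46) * (z * z / y ^ 77) / (z / y ^ 23) =
          30 * (z / y ^ 8) := by
        intro z hz
        field_simp
        ring
      have key2 := key (Real.sqrt x) hsx.ne'
      rw [hsxx] at key2
      exact key2
    rw [← h1]
    gcongr
  -- second term
  have hb2 : 30 * (2 * y ^ 2) * (1 + |t|) * (Real.sqrt x / y ^ 23) * (1 + Real.log N) ≤
      Real.sqrt x / y ^ 8 := by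
    have h1 : 1 + |t| ≤ 2 * y ^ 10 := by
      have : (1 : ℝ) ≤ y ^ 10 := one_le_pow₀ hy
      linarith only [ht, this]
    have h2 : 1 + Real.log N ≤ y / 120 := by linarith only [hlog, hlogN]
    have h3 : 30 * (2 * y ^ 2) * (2 * y ^ 10) * (Real.sqrt x / y ^ 23) * (y / 120) =
        Real.sqrt x / y ^ 10 := by
      field_simp
      ring
    have h4 : Real.sqrt x / y ^ 10 ≤ Real.sqrt x / y ^ 8 := by
      apply div_le_div_of_nonneg_left hsx.le (by positivity)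
      exact pow_le_pow_right₀ hy (by norm_num)
    refine le_trans ?_ h4
    rw [← h3]
    gcongr
  linarith only [hmel, hb1, hb2]

private theorem JP_num1 (K x y : ℝ) (hK : 0 ≤ K) (hx : 1 ≤ x) (hy : 32000 ≤ y) :
    2 * K * y ^ 10 * (31 * (Real.sqrt x / y ^ 8)) ^ 2 + K / y ^ 6 * (40 * x)
      ≤ 1 / 16 * (K * (x / y ^ 5)) := by
  have hy0 : 0 < y := by linarith only [hy]
  have hx0 : 0 < x := by linarith
  have hsxx : Real.sqrt x ^ 2 = x := Real.sq_sqrt hx0.le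
  have h1 : 2 * K * y ^ 10 * (31 * (Real.sqrt x / y ^ 8)) ^ 2 + K / y ^ 6 * (40 * x)
      = (K * (x / y ^ 5)) * (1962 / y) := by
    rw [mul_pow, div_pow, hsxx]
    field_simp
    ring
  rw [h1, mul_comm (1 / 16 : ℝ)]
  refine mul_le_mul_of_nonneg_left ?_ (by positivity)
  rw [div_le_div_iff₀ hy0 (by norm_num)]
  linarith only [hy]

private theorem JP_num2 (K x y q S b : ℝ) (hK : 0 ≤ K) (hx : 1 ≤ x) (hy : 32000 ≤ y) (hP : y ^ 100 ≤ x)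
    (hS0 : 0 ≤ S) (hS : S ≤ x * x) (hb0 : 0 ≤ b) (hb : b ≤ 3 * x * q) :
    100 * K * (b * S) ^ 2 / x ^ 10 ≤ 1 / 16 * (K * (x / y ^ 5) * q ^ 2) := by
  have hy0 : 0 < y := by linarith only [hy]
  have hx0 : 0 < x := by linarith only [hx]
  have h1 : (b * S) ^ 2 ≤ (3 * x * q * (x * x)) ^ 2 :=
    pow_le_pow_left₀ (by positivity) (mul_le_mul hb hS hS0 (hb0.trans hb)) 2
  have h2 : 100 * K * (3 * x * q * (x * x)) ^ 2 / x ^ 10 = K * q ^ 2 * (900 / x ^ 4) := by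
    field_simp
    ring
  have h3 : 900 / x ^ 4 ≤ 1 / 16 * (x / y ^ 5) := by
    rw [div_le_iff₀ (by positivity)]
    have h4 : 14400 * y ^ 5 ≤ x := by
      have h5 : y ^ 6 ≤ y ^ 100 := pow_le_pow_right₀ (by linarith only [hy]) (by norm_num)
      have h6 : y ^ 6 = y * y ^ 5 := by ring
      have h7 : 14400 * y ^ 5 ≤ y * y ^ 5 := mul_le_mul_of_nonneg_right (by linarith only [hy]) (by positivity)
      linarith only [hP, h5, h7]
    have h8 : 14400 ≤ x / y ^ 5 := by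
      rw [le_div_iff₀ (by positivity)]; exact h4
    have h9 : (1 : ℝ) ≤ x ^ 4 := one_le_pow₀ hx
    calc (900 : ℝ) = 1 / 16 * 14400 * 1 := by norm_num
      _ ≤ 1 / 16 * (x / y ^ 5) * x ^ 4 := by
          refine mul_le_mul ?_ h9 (by norm_num) (by positivity)
          exact mul_le_mul_of_nonneg_left h8 (by norm_num)
  calc 100 * K * (b * S) ^ 2 / x ^ 10 ≤ 100 * K * (3 * x * q * (x * x)) ^ 2 / x ^ 10 := by
        gcongr
    _ = K * q ^ 2 * (900 / x ^ 4) := h2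
    _ ≤ K * q ^ 2 * (1 / 16 * (x / y ^ 5)) := mul_le_mul_of_nonneg_left h3 (by positivity)
    _ = _ := by ring

private theorem JP_one (f : ℕ → ℝ) (N K : ℕ) (α a Θ s x y : ℝ) (S : Finset ℕ)
    (hS : S ⊆ Icc 1 K) (hN : 1 ≤ N)
    (hNx : (N : ℝ) ≤ 2 * x) (hs : s = 1 ∨ s = -1) (hΘ : Θ ≤ 1) (hx : 1 ≤ x) (hy : 32000 ≤ y)
    (hlog : 120 * (1 + Real.log (2 * x)) ≤ y) (hP : y ^ 100 ≤ x)
    (hF : ∀ n ∈ Icc 1 N, |f n| ≤ 2 * y ^ 2)
    (h : ∀ u, u ≤ N → ‖∑ n ∈ Icc 1 u, (f n : ℂ) * ee (n * α)‖ ≤ x / y ^ 77)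
    (hS2 : S2 f N ≤ 40 * x)
    (hZ : ∀ t, y ^ 10 ≤ |t| → |t| ≤ x ^ 10 → ‖ZZ S t‖ ^ 2 ≤ K / y ^ 6) :
    II S (gg f N α a Θ s) ≤ 1 / 8 * (K * (x / y ^ 5) * (1 + |a| / x) ^ 2) := by
  have hy1 : 1 ≤ y := by linarith only [hy]
  have hy0 : 0 < y := by linarith only [hy]
  have hx0 : 0 < x := by linarith
  have hK0 : (0 : ℝ) ≤ K := Nat.cast_nonneg K
  have hII := II_le f N K α a Θ s (y ^ 10) (x ^ 10) (31 * (Real.sqrt x / y ^ 8)) (K / y ^ 6) S hS hs hΘ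
    (by positivity) (one_le_pow₀ hx) (by positivity) (by positivity)
    (fun t ht => JP_mel f N α a Θ s t x y hN hNx hs hΘ hx hy1 hlog hP hF h ht) hZ
  refine hII.trans ?_
  have hq : 1 ≤ (1 + |a| / x) ^ 2 := by
    have : 0 ≤ |a| / x := by positivity
    exact one_le_pow₀ (by linarith only [this])
  have hbase : 0 ≤ K * (x / y ^ 5) := by positivity
  have hone : K * (x / y ^ 5) ≤ K * (x / y ^ 5) * (1 + |a| / x) ^ 2 := le_mul_of_one_le_right hbase hq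
  have h1 := JP_num1 K x y hK0 hx hy
  have h2 : K / y ^ 6 * S2 f N ≤ K / y ^ 6 * (40 * x) := mul_le_mul_of_nonneg_left hS2 (by positivity)
  have hsum0 : 0 ≤ ∑ n ∈ Icc 1 N, |f n| := Finset.sum_nonneg fun _ _ => abs_nonneg _
  have hsum : ∑ n ∈ Icc 1 N, |f n| ≤ x * x := by
    have h4 : 2 * (2 * y ^ 2) ≤ x := by
      have h5 : y ^ 3 ≤ y ^ 100 := pow_le_pow_right₀ hy1 (by norm_num)
      have h6 : y ^ 3 = y * y ^ 2 := by ring
      have h7 : 4 * y ^ 2 ≤ y * y ^ 2 := mul_le_mul_of_nonneg_right (by linarith only [hy]) (by positivity)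
      linarith only [hP, h5, h7]
    calc ∑ n ∈ Icc 1 N, |f n| ≤ ∑ n ∈ Icc 1 N, 2 * y ^ 2 := Finset.sum_le_sum hF
      _ = N * (2 * y ^ 2) := by rw [Finset.sum_const, Nat.card_Icc, nsmul_eq_mul]; simp
      _ ≤ (2 * x) * (2 * y ^ 2) := mul_le_mul_of_nonneg_right hNx (by positivity)
      _ = x * (2 * (2 * y ^ 2)) := by ring
      _ ≤ x * x := mul_le_mul_of_nonneg_left h4 hx0.le
  have hb : (N : ℝ) + |a| + 1 ≤ 3 * x * (1 + |a| / x) := by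
    have h6 : 3 * x * (1 + |a| / x) = 3 * x + 3 * |a| := by field_simp
    rw [h6]
    have := abs_nonneg a
    linarith only [hNx, hx, this]
  have hb0 : 0 ≤ (N : ℝ) + |a| + 1 := by positivity
  have h3 := JP_num2 K x y (1 + |a| / x) (∑ n ∈ Icc 1 N, |f n|) (N + |a| + 1) hK0 hx hy hP hsum0 hsum
    hb0 hb
  linarith only [hone, h1, h2, h3]

theorem JJ_pow (kap : ℝ) (hkap : 0 < kap) : ∃ ρ0 : ℝ, 0 < ρ0 ∧ ∀ ρ : ℝ, 0 < ρ → ρ ≤ ρ0 →
    ∃ x0 : ℕ, ∀ x : ℕ, x0 ≤ x → ∀ (f : ℕ → ℝ) (N K d : ℕ) (l : ℤ) (α a Y : ℝ), 1 ≤ N → N ≤ 2 * x →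
      (x : ℝ) ^ kap ≤ K → K ≤ x → 1 ≤ d → 0 ≤ Y → K * Y ≤ 1 →
      (∀ n ∈ Icc 1 N, |f n| ≤ 2 * (x : ℝ) ^ (2 * ρ)) →
      (∀ u, u ≤ N → ‖∑ n ∈ Icc 1 u, (f n : ℂ) * ee (n * α)‖ ≤ (x : ℝ) ^ (1 - 77 * ρ)) →
      S2 f N ≤ 40 * x →
      JJ f N K d l α a Y ≤ K * (x : ℝ) ^ (1 - 5 * ρ) * (1 + |a| / x) ^ 2 := by
  obtain ⟨ρ1, hρ1, hZZ⟩ := ZZ_pow kap hkap
  refine ⟨min ρ1 (1 / 100), lt_min hρ1 (by norm_num), fun ρ hρ hρle => ?_⟩
  obtain ⟨x1, hx1⟩ := hZZ ρ hρ (hρle.trans (min_le_left _ _))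
  have hρ100 : ρ ≤ 1 / 100 := hρle.trans (min_le_right _ _)
  obtain ⟨x2, hx2⟩ := JP_x0 ρ hρ
  refine ⟨max x1 x2, fun x hx f N K d l α a Y hN hNx hK hKx hd hY hKY hF hsum hS2 => ?_⟩
  obtain ⟨hX1, hy, hlog⟩ := hx2 x (le_of_max_le_right hx)
  have hX0 : (0 : ℝ) < x := by linarith only [hρ, hρ100, hX1]
  have hpw : ∀ k : ℕ, (x : ℝ) ^ (k * ρ) = ((x : ℝ) ^ ρ) ^ k := by
    intro k
    rw [mul_comm, Real.rpow_mul hX0.le, Real.rpow_natCast]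
  have hpw' : ∀ k : ℕ, (x : ℝ) ^ (1 - k * ρ) = (x : ℝ) / ((x : ℝ) ^ ρ) ^ k := by
    intro k
    rw [Real.rpow_sub hX0, Real.rpow_one, hpw]
  have e2 : (x : ℝ) ^ (2 * ρ) = ((x : ℝ) ^ ρ) ^ 2 := by exact_mod_cast hpw 2
  have e6 : (x : ℝ) ^ (6 * ρ) = ((x : ℝ) ^ ρ) ^ 6 := by exact_mod_cast hpw 6
  have e10 : (x : ℝ) ^ (10 * ρ) = ((x : ℝ) ^ ρ) ^ 10 := by exact_mod_cast hpw 10
  have e5 : (x : ℝ) ^ (1 - 5 * ρ) = (x : ℝ) / ((x : ℝ) ^ ρ) ^ 5 := by exact_mod_cast hpw' 5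
  have e77 : (x : ℝ) ^ (1 - 77 * ρ) = (x : ℝ) / ((x : ℝ) ^ ρ) ^ 77 := by exact_mod_cast hpw' 77
  have hP : ((x : ℝ) ^ ρ) ^ 100 ≤ x := by
    rw [← hpw 100]
    calc (x : ℝ) ^ (((100 : ℕ) : ℝ) * ρ) ≤ (x : ℝ) ^ (1 : ℝ) := by
          apply Real.rpow_le_rpow_of_exponent_le hX1
          push_cast
          linarith only [hρ100]
      _ = x := Real.rpow_one _
  have hNx' : (N : ℝ) ≤ 2 * x := by exact_mod_cast hNx
  have hSp : ∀ l' : ℤ, Sp K d l' ⊆ Icc 1 K := fun l' => Finset.filter_subset _ _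
  have hZ := fun (l' : ℤ) (t : ℝ) => hx1 x (le_of_max_le_left hx) K d l' t hK hKx hd
  rw [e6, e10] at hZ
  rw [e2] at hF
  rw [e77] at hsum
  rw [e5]
  have hall : ∀ (l' : ℤ) (s : ℝ), s = 1 ∨ s = -1 →
      II (Sp K d l') (gg f N α a (K * Y) s) ≤
        1 / 8 * (K * ((x : ℝ) / ((x : ℝ) ^ ρ) ^ 5) * (1 + |a| / x) ^ 2) := fun l' s hs =>
    JP_one f N K α a (K * Y) s x ((x : ℝ) ^ ρ) (Sp K d l') (hSp l') hN hNx' hs hKY hX1
      hy hlog hP hF hsum hS2 (hZ l')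
  refine (JJ_le f N K d l α a Y (K * Y) hY le_rfl).trans ?_
  have h1 := hall l 1 (Or.inl rfl)
  have h2 := hall (-l) (-1) (Or.inr rfl)
  have h3 := hall l (-1) (Or.inr rfl)
  have h4 := hall (-l) 1 (Or.inl rfl)
  linarith only [h1, h2, h3, h4]

end Pool.Agent.H65.MS

end

section

/-!
# EHB SmallC: one small denominator

`Dal = ∑_{k1 ≠ k2, d ∣ k2 - k1} IpS univ`.  Split by `|k2 - k1| < r0` and `≥ r0`:
`Dal = ∑_{near} IpS univ + ∑_{far} (IpS univ - IpS [-Y,Y]) + ∑_{all, d ∣ k2-k1} IpS [-Y,Y] - ∑_{near} IpS [-Y,Y] - ∑_{equal} IpS [-Y,Y]`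
with `Y = L/(A r0)` (near: `0 < |k2-k1| < r0`; far: `|k2-k1| ≥ r0`; all includes equal).  Bounds: `near_pairs` twice, `far_pairs`, `equal_pairs`,
and `square_identity` for the sum over all (the hypothesis `hJ` bounds its terms; `r0 ≥ 1`).
The hypothesis `hJ` is stated so that no measurability in `v` is needed (use `integral_mono_of_nonneg`):
`∫ exp(-π v^2) (1 + |v|)^2 dv ≤ 4`.
-/

set_option autoImplicit false

namespace Pool.Agent.H76.EHB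

open Finset MeasureTheory

private theorem smallC_gauss_pt (v : ℝ) :
    Real.exp (-Real.pi * v ^ 2) * (1 + |v|) ^ 2 ≤
      2 * Real.exp (-Real.pi * v ^ 2) + 4 / Real.pi * Real.exp (-(Real.pi / 2) * v ^ 2) := by
  have hπ : 0 < Real.pi := Real.pi_pos
  have h1 : (1 + |v|) ^ 2 ≤ 2 + 2 * v ^ 2 := by
    have h2 : |v| ^ 2 = v ^ 2 := sq_abs v
    nlinarith [sq_nonneg (1 - |v|)]
  have h3 : Real.exp (-Real.pi * v ^ 2) =
      Real.exp (-(Real.pi / 2) * v ^ 2) * Real.exp (-(Real.pi / 2) * v ^ 2) := by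
    rw [← Real.exp_add]; congr 1; ring
  have h4 : v ^ 2 * Real.exp (-(Real.pi / 2) * v ^ 2) ≤ 2 / Real.pi := by
    have h5 : Real.pi / 2 * v ^ 2 ≤ Real.exp (Real.pi / 2 * v ^ 2) := by
      have := Real.add_one_le_exp (Real.pi / 2 * v ^ 2)
      linarith
    have h6 : Real.exp (Real.pi / 2 * v ^ 2) * Real.exp (-(Real.pi / 2) * v ^ 2) = 1 := by
      rw [← Real.exp_add, show Real.pi / 2 * v ^ 2 + -(Real.pi / 2) * v ^ 2 = 0 by ring,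
        Real.exp_zero]
    have h7 : Real.pi / 2 * v ^ 2 * Real.exp (-(Real.pi / 2) * v ^ 2) ≤ 1 := by
      calc Real.pi / 2 * v ^ 2 * Real.exp (-(Real.pi / 2) * v ^ 2) ≤
            Real.exp (Real.pi / 2 * v ^ 2) * Real.exp (-(Real.pi / 2) * v ^ 2) :=
            mul_le_mul_of_nonneg_right h5 (Real.exp_pos _).le
        _ = 1 := h6
    rw [le_div_iff₀ hπ]
    nlinarith
  have h8 : Real.exp (-Real.pi * v ^ 2) * (2 * v ^ 2) ≤
      4 / Real.pi * Real.exp (-(Real.pi / 2) * v ^ 2) := by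
    calc Real.exp (-Real.pi * v ^ 2) * (2 * v ^ 2) =
          2 * (v ^ 2 * Real.exp (-(Real.pi / 2) * v ^ 2)) *
            Real.exp (-(Real.pi / 2) * v ^ 2) := by rw [h3]; ring
      _ ≤ 2 * (2 / Real.pi) * Real.exp (-(Real.pi / 2) * v ^ 2) :=
          mul_le_mul_of_nonneg_right (by linarith) (Real.exp_pos _).le
      _ = _ := by ring
  calc Real.exp (-Real.pi * v ^ 2) * (1 + |v|) ^ 2 ≤
        Real.exp (-Real.pi * v ^ 2) * (2 + 2 * v ^ 2) :=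
        mul_le_mul_of_nonneg_left h1 (Real.exp_pos _).le
    _ = 2 * Real.exp (-Real.pi * v ^ 2) + Real.exp (-Real.pi * v ^ 2) * (2 * v ^ 2) := by ring
    _ ≤ _ := by linarith

private theorem smallC_integral (A U : ℝ) (hA : 0 ≤ A) (hU : 0 ≤ U) (G : ℝ → ℝ)
    (hG0 : ∀ v, 0 ≤ G v) (hG : ∀ v, G v ≤ U * (1 + |v|) ^ 2) :
    0 ≤ ∫ v : ℝ, A * Real.exp (-Real.pi * v ^ 2) * G v ∧
      ∫ v : ℝ, A * Real.exp (-Real.pi * v ^ 2) * G v ≤ 4 * A * U := by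
  have hπ : 0 < Real.pi := Real.pi_pos
  refine ⟨integral_nonneg fun v => mul_nonneg (mul_nonneg hA (Real.exp_pos _).le) (hG0 v), ?_⟩
  have hi1 : Integrable (fun v : ℝ => Real.exp (-Real.pi * v ^ 2)) :=
    integrable_exp_neg_mul_sq hπ
  have hi2 : Integrable (fun v : ℝ => Real.exp (-(Real.pi / 2) * v ^ 2)) :=
    integrable_exp_neg_mul_sq (by positivity)
  have hi : Integrable (fun v : ℝ => A * U * (2 * Real.exp (-Real.pi * v ^ 2) +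
      4 / Real.pi * Real.exp (-(Real.pi / 2) * v ^ 2))) :=
    ((hi1.const_mul 2).add (hi2.const_mul (4 / Real.pi))).const_mul (A * U)
  have h1 : ∫ v : ℝ, A * Real.exp (-Real.pi * v ^ 2) * G v ≤
      ∫ v : ℝ, A * U * (2 * Real.exp (-Real.pi * v ^ 2) +
        4 / Real.pi * Real.exp (-(Real.pi / 2) * v ^ 2)) := by
    refine integral_mono_of_nonneg (Filter.Eventually.of_forall fun v =>
      mul_nonneg (mul_nonneg hA (Real.exp_pos _).le) (hG0 v)) hi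
      (Filter.Eventually.of_forall fun v => ?_)
    show A * Real.exp (-Real.pi * v ^ 2) * G v ≤ A * U * (2 * Real.exp (-Real.pi * v ^ 2) +
        4 / Real.pi * Real.exp (-(Real.pi / 2) * v ^ 2))
    calc A * Real.exp (-Real.pi * v ^ 2) * G v ≤
          A * Real.exp (-Real.pi * v ^ 2) * (U * (1 + |v|) ^ 2) :=
          mul_le_mul_of_nonneg_left (hG v) (mul_nonneg hA (Real.exp_pos _).le)
      _ = A * U * (Real.exp (-Real.pi * v ^ 2) * (1 + |v|) ^ 2) := by ring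
      _ ≤ _ := mul_le_mul_of_nonneg_left (smallC_gauss_pt v) (mul_nonneg hA hU)
  have h2 : ∫ v : ℝ, A * U * (2 * Real.exp (-Real.pi * v ^ 2) +
        4 / Real.pi * Real.exp (-(Real.pi / 2) * v ^ 2)) =
      A * U * (2 * 1 + 4 / Real.pi * Real.sqrt 2) := by
    rw [integral_const_mul, integral_add (hi1.const_mul 2) (hi2.const_mul (4 / Real.pi)),
      integral_const_mul, integral_const_mul, integral_gaussian, integral_gaussian,
      div_self hπ.ne', Real.sqrt_one, show Real.pi / (Real.pi / 2) = 2 by field_simp]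
  have h3 : 4 / Real.pi * Real.sqrt 2 ≤ 2 := by
    rw [div_mul_eq_mul_div, div_le_iff₀ hπ]
    have h4 : Real.sqrt 2 ≤ 1.5 := by
      rw [Real.sqrt_le_left (by norm_num)]
      norm_num
    have h5 := Real.pi_gt_three
    linarith
  rw [h2] at h1
  refine h1.trans ?_
  have h6 : 0 ≤ A * U := mul_nonneg hA hU
  nlinarith

private theorem smallC_JJ_nonneg (f : ℕ → ℝ) (N K d : ℕ) (l : ℤ) (α a Y : ℝ) :
    0 ≤ JJ f N K d l α a Y := by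
  unfold JJ
  exact integral_nonneg fun y => sq_nonneg _

/-- Splitting a sum over pairs. -/
private theorem smallC_split (K d r0 : ℕ) (hr0 : 1 ≤ r0) (k1 : ℤ) (g : ℤ → ℂ) :
    ∑ k2 ∈ (ks K).filter (fun k2 => k2 ≠ k1 ∧ (d : ℤ) ∣ k2 - k1), g k2 =
      ∑ k2 ∈ (ks K).filter (fun k2 => k2 ≠ k1 ∧ (d : ℤ) ∣ k2 - k1 ∧ |k2 - k1| < r0), g k2 +
      ∑ k2 ∈ (ks K).filter (fun k2 => (d : ℤ) ∣ k2 - k1 ∧ (r0 : ℤ) ≤ |k2 - k1|), g k2 := by
  rw [← Finset.sum_filter_add_sum_filter_not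
    ((ks K).filter (fun k2 => k2 ≠ k1 ∧ (d : ℤ) ∣ k2 - k1)) (fun k2 => |k2 - k1| < r0),
    Finset.filter_filter, Finset.filter_filter]
  congr 1
  · apply Finset.sum_congr _ fun _ _ => rfl
    apply Finset.filter_congr
    intro k2 _
    tauto
  · apply Finset.sum_congr _ fun _ _ => rfl
    apply Finset.filter_congr
    intro k2 _
    constructor
    · rintro ⟨⟨_, h2⟩, h3⟩
      exact ⟨h2, not_lt.1 h3⟩
    · rintro ⟨h2, h3⟩
      refine ⟨⟨?_, h2⟩, not_lt.2 h3⟩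
      rintro rfl
      rw [sub_self, abs_zero] at h3
      have : (1 : ℤ) ≤ r0 := by exact_mod_cast hr0
      omega

private theorem smallC_split_all (K d : ℕ) (k1 : ℤ) (hk1 : k1 ∈ ks K) (g : ℤ → ℂ) :
    ∑ k2 ∈ (ks K).filter (fun k2 => (d : ℤ) ∣ k2 - k1), g k2 =
      ∑ k2 ∈ (ks K).filter (fun k2 => k2 ≠ k1 ∧ (d : ℤ) ∣ k2 - k1), g k2 + g k1 := by
  have h1 : (ks K).filter (fun k2 => (d : ℤ) ∣ k2 - k1) =
      insert k1 ((ks K).filter (fun k2 => k2 ≠ k1 ∧ (d : ℤ) ∣ k2 - k1)) := by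
    ext k2
    rw [Finset.mem_insert, Finset.mem_filter, Finset.mem_filter]
    constructor
    · rintro ⟨h2, h3⟩
      by_cases h4 : k2 = k1
      · exact Or.inl h4
      · exact Or.inr ⟨h2, h4, h3⟩
    · rintro (rfl | ⟨h2, _, h3⟩)
      · exact ⟨hk1, by rw [sub_self]; exact dvd_zero _⟩
      · exact ⟨h2, h3⟩
  rw [h1, Finset.sum_insert (by simp), add_comm]

theorem small_den (f : ℕ → ℝ) (N K d r0 : ℕ) (A α L : ℝ) (a0 : ℤ) (hK : 1 ≤ K) (hKA : (K : ℝ) ≤ A)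
    (hd : 1 ≤ d) (hr0 : 1 ≤ r0) (hL : 1 ≤ L) (hKY : K * (L / (A * r0)) ≤ 1 / 2) (U : ℝ) (hU : 0 ≤ U)
    (hJ : ∀ l ∈ range d, ∀ v : ℝ, JJ f N K d l α (a0 + A * v) (L / (A * r0)) ≤ U * (1 + |v|) ^ 2) :
    ‖∑ k1 ∈ ks K, ∑ k2 ∈ (ks K).filter (fun k2 => k2 ≠ k1 ∧ (d : ℤ) ∣ k2 - k1), IpS f N A a0 α k1 k2 Set.univ‖
      ≤ 34 * A * (1 + Real.log K) * r0 * S2 f N + 8 * K ^ 2 * N * S2 f N * Real.exp (-L ^ 2)
        + 4 * A * d * U := by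
  obtain ⟨Y, hY⟩ : ∃ Y : ℝ, Y = L / (A * r0) := ⟨_, rfl⟩
  have hK1 : (1 : ℝ) ≤ K := by exact_mod_cast hK
  have hA1 : 1 ≤ A := hK1.trans hKA
  have hA0 : 0 < A := by linarith
  have hr0' : (1 : ℝ) ≤ r0 := by exact_mod_cast hr0
  have hd' : (1 : ℝ) ≤ d := by exact_mod_cast hd
  have hY0 : 0 ≤ Y := by rw [hY]; positivity
  have hS2 := S2_nonneg f N
  have hlogK : 0 ≤ Real.log K := Real.log_nonneg hK1
  have hnear1 := near_pairs f N K d r0 A α a0 hK hKA hd Set.univ MeasurableSet.univ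
  have hnear2 := near_pairs f N K d r0 A α a0 hK hKA hd (Set.Icc (-Y) Y) measurableSet_Icc
  have hfar := far_pairs f N K d r0 A α L a0 hA1 hr0 hL
  have hequal := equal_pairs f N K A α Y a0 hK hA0 hY0 (by rw [hY]; exact hKY)
  have hsq := square_identity f N K d A α Y a0 hd hA0 hY0
  rw [← hY] at hfar
  have hall : ‖∑ k1 ∈ ks K, ∑ k2 ∈ (ks K).filter (fun k2 => (d : ℤ) ∣ k2 - k1),
      IpS f N A a0 α k1 k2 (Set.Icc (-Y) Y)‖ ≤ 4 * A * d * U := by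
    rw [hsq, Complex.norm_real, Real.norm_eq_abs]
    have h1 : ∀ l ∈ range d,
        |∫ v : ℝ, A * Real.exp (-Real.pi * v ^ 2) * JJ f N K d l α (a0 + A * v) Y| ≤
          4 * A * U := by
      intro l hl
      obtain ⟨h2, h3⟩ := smallC_integral A U hA0.le hU
        (fun v => JJ f N K d l α (a0 + A * v) Y) (fun v => smallC_JJ_nonneg _ _ _ _ _ _ _ _)
        (fun v => by rw [hY]; exact hJ l hl v)
      rw [abs_of_nonneg h2]
      exact h3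
    refine (Finset.abs_sum_le_sum_abs _ _).trans ((Finset.sum_le_sum h1).trans ?_)
    rw [Finset.sum_const, Finset.card_range, nsmul_eq_mul]
    linarith [show (d : ℝ) * (4 * A * U) = 4 * A * d * U by ring]
  -- the decomposition
  have hdec : ∑ k1 ∈ ks K, ∑ k2 ∈ (ks K).filter (fun k2 => k2 ≠ k1 ∧ (d : ℤ) ∣ k2 - k1),
      IpS f N A a0 α k1 k2 Set.univ =
      ∑ k1 ∈ ks K, ∑ k2 ∈ (ks K).filter
          (fun k2 => k2 ≠ k1 ∧ (d : ℤ) ∣ k2 - k1 ∧ |k2 - k1| < r0),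
        IpS f N A a0 α k1 k2 Set.univ +
      ∑ k1 ∈ ks K, ∑ k2 ∈ (ks K).filter
          (fun k2 => (d : ℤ) ∣ k2 - k1 ∧ (r0 : ℤ) ≤ |k2 - k1|),
        (IpS f N A a0 α k1 k2 Set.univ - IpS f N A a0 α k1 k2 (Set.Icc (-Y) Y)) +
      ∑ k1 ∈ ks K, ∑ k2 ∈ (ks K).filter (fun k2 => (d : ℤ) ∣ k2 - k1),
        IpS f N A a0 α k1 k2 (Set.Icc (-Y) Y) -
      ∑ k1 ∈ ks K, ∑ k2 ∈ (ks K).filter
          (fun k2 => k2 ≠ k1 ∧ (d : ℤ) ∣ k2 - k1 ∧ |k2 - k1| < r0),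
        IpS f N A a0 α k1 k2 (Set.Icc (-Y) Y) -
      ∑ k1 ∈ ks K, IpS f N A a0 α k1 k1 (Set.Icc (-Y) Y) := by
    rw [← Finset.sum_add_distrib, ← Finset.sum_add_distrib, ← Finset.sum_sub_distrib,
      ← Finset.sum_sub_distrib]
    refine Finset.sum_congr rfl fun k1 hk1 => ?_
    rw [smallC_split K d r0 hr0 k1 (fun k2 => IpS f N A a0 α k1 k2 Set.univ),
      smallC_split_all K d k1 hk1 (fun k2 => IpS f N A a0 α k1 k2 (Set.Icc (-Y) Y)),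
      smallC_split K d r0 hr0 k1 (fun k2 => IpS f N A a0 α k1 k2 (Set.Icc (-Y) Y)),
      Finset.sum_sub_distrib]
    ring
  have hn : ∀ (g : ℤ → ℤ → ℂ) (P : ℤ → Finset ℤ) (b : ℝ),
      ∑ k1 ∈ ks K, ∑ k2 ∈ P k1, ‖g k1 k2‖ ≤ b → ‖∑ k1 ∈ ks K, ∑ k2 ∈ P k1, g k1 k2‖ ≤ b := by
    intro g P b h
    refine ((norm_sum_le _ _).trans (Finset.sum_le_sum fun k1 _ => norm_sum_le _ _)).trans h
  have hrd : 16 * A * (1 + Real.log K) * ((r0 : ℝ) / d) * S2 f N ≤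
      16 * A * (1 + Real.log K) * r0 * S2 f N := by
    have h1 : (r0 : ℝ) / d ≤ r0 := div_le_self (by linarith) hd'
    have h2 : 0 ≤ 16 * A * (1 + Real.log K) := by positivity
    exact mul_le_mul_of_nonneg_right (mul_le_mul_of_nonneg_left h1 h2) hS2
  have hr1 : 2 * A * (1 + Real.log K) * S2 f N ≤ 2 * A * (1 + Real.log K) * r0 * S2 f N := by
    have h2 : 0 ≤ 2 * A * (1 + Real.log K) := by positivity
    have h3 : 2 * A * (1 + Real.log K) ≤ 2 * A * (1 + Real.log K) * r0 :=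
      le_mul_of_one_le_right h2 hr0'
    exact mul_le_mul_of_nonneg_right h3 hS2
  have hb1 := hn (fun k1 k2 => IpS f N A a0 α k1 k2 Set.univ) _ _ (hnear1.trans hrd)
  have hb2 := hn (fun k1 k2 => IpS f N A a0 α k1 k2 Set.univ -
    IpS f N A a0 α k1 k2 (Set.Icc (-Y) Y)) _ _ hfar
  have hb4 := hn (fun k1 k2 => IpS f N A a0 α k1 k2 (Set.Icc (-Y) Y)) _ _ (hnear2.trans hrd)
  have hb5 : ‖∑ k1 ∈ ks K, IpS f N A a0 α k1 k1 (Set.Icc (-Y) Y)‖ ≤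
      2 * A * (1 + Real.log K) * r0 * S2 f N :=
    ((norm_sum_le _ _).trans hequal).trans hr1
  rw [hdec]
  refine (norm_sub_le _ _).trans ?_
  refine (add_le_add ((norm_sub_le _ _).trans (add_le_add ((norm_add_le _ _).trans
    (add_le_add ((norm_add_le _ _).trans (add_le_add hb1 hb2)) hall)) hb4)) hb5).trans
    (le_of_eq ?_)
  ring

end Pool.Agent.H76.EHB

end

section

/-!
# EHB Second: the second moment (abstract form)

`expand`, `diag_bound`; the off-diagonal sum is by `Soff_den` the sum over `k1 ≠ k2`, `d ∣ k2 - k1`, `c ∈ red d` of `IpS univ`.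
Part `d > R`: `large1`, `large2`.  Part `d ≤ R`: exchange sums (`d ∈ Icc 1 R`, `c ∈ red d`, then the pairs `k1 ≠ k2` with `d ∣ k2 - k1`) and use
`small_den` (number of `(d, c)`: `≤ R^2`, `d ≤ R`).
-/

set_option autoImplicit false

namespace Pool.Agent.H76.EHB

open Finset MeasureTheory
open Pool.Agent.H92.EH (red)

/-- the small denominators: exchange of the sums -/
theorem Second_swap (K R : ℕ) (Φ : ℤ → ℤ → ℝ → ℂ) :
    ∑ k1 ∈ ks K, ∑ k2 ∈ (ks K).erase k1, ∑ d ∈ (k2 - k1).natAbs.divisors.filter (fun d => ¬ R < d),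
      ∑ c ∈ red d, Φ k1 k2 ((c : ℝ) / d)
      = ∑ d ∈ Icc 1 R, ∑ c ∈ red d, ∑ k1 ∈ ks K,
          ∑ k2 ∈ (ks K).filter (fun k2 => k2 ≠ k1 ∧ (d : ℤ) ∣ k2 - k1), Φ k1 k2 ((c : ℝ) / d) := by
  have h1 : ∀ k1 ∈ ks K, ∀ k2 ∈ (ks K).erase k1,
      ∑ d ∈ (k2 - k1).natAbs.divisors.filter (fun d => ¬ R < d), ∑ c ∈ red d, Φ k1 k2 ((c : ℝ) / d)
      = ∑ d ∈ Icc 1 R, if (d : ℤ) ∣ k2 - k1 then ∑ c ∈ red d, Φ k1 k2 ((c : ℝ) / d) else 0 := by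
    intro k1 _ k2 hk2
    rw [← sum_filter]
    refine sum_congr ?_ fun _ _ => rfl
    ext d
    rw [mem_filter, mem_filter, Nat.mem_divisors, mem_Icc, Int.natCast_dvd]
    have hne : (k2 - k1).natAbs ≠ 0 := by
      rw [mem_erase] at hk2
      rw [Int.natAbs_ne_zero]
      exact sub_ne_zero.mpr hk2.1
    constructor
    · rintro ⟨⟨h2, -⟩, h3⟩
      exact ⟨⟨Nat.pos_of_ne_zero (fun h => hne (by rw [h, zero_dvd_iff] at h2; exact h2)),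
        not_lt.mp h3⟩, h2⟩
    · rintro ⟨⟨h2, h3⟩, h4⟩
      exact ⟨⟨h4, hne⟩, not_lt.mpr h3⟩
  calc _ = ∑ k1 ∈ ks K, ∑ k2 ∈ (ks K).erase k1, ∑ d ∈ Icc 1 R,
        if (d : ℤ) ∣ k2 - k1 then ∑ c ∈ red d, Φ k1 k2 ((c : ℝ) / d) else 0 :=
        sum_congr rfl fun k1 hk1 => sum_congr rfl fun k2 hk2 => h1 k1 hk1 k2 hk2
    _ = ∑ k1 ∈ ks K, ∑ d ∈ Icc 1 R, ∑ k2 ∈ (ks K).erase k1,
        if (d : ℤ) ∣ k2 - k1 then ∑ c ∈ red d, Φ k1 k2 ((c : ℝ) / d) else 0 :=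
        sum_congr rfl fun k1 _ => sum_comm
    _ = ∑ d ∈ Icc 1 R, ∑ k1 ∈ ks K, ∑ k2 ∈ (ks K).erase k1,
        if (d : ℤ) ∣ k2 - k1 then ∑ c ∈ red d, Φ k1 k2 ((c : ℝ) / d) else 0 := sum_comm
    _ = _ := by
        refine sum_congr rfl fun d _ => ?_
        have h2 : ∀ k1 ∈ ks K, ∑ k2 ∈ (ks K).erase k1,
            (if (d : ℤ) ∣ k2 - k1 then ∑ c ∈ red d, Φ k1 k2 ((c : ℝ) / d) else 0)
            = ∑ c ∈ red d, ∑ k2 ∈ (ks K).filter (fun k2 => k2 ≠ k1 ∧ (d : ℤ) ∣ k2 - k1),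
              Φ k1 k2 ((c : ℝ) / d) := by
          intro k1 _
          rw [← sum_filter, sum_comm]
          refine sum_congr rfl fun c _ => sum_congr ?_ fun _ _ => rfl
          ext k2
          rw [mem_filter, mem_erase, mem_filter]
          tauto
        rw [sum_congr rfl h2, sum_comm]

theorem second_moment (f : ℕ → ℝ) (N K A Q R r0 : ℕ) (L : ℝ) (a0 : ℤ) (hK : 1 ≤ K) (hKA : K ≤ A)
    (hR : 1 ≤ R) (hr0 : 1 ≤ r0) (hL : 1 ≤ L) (hKY : K * (L / (A * r0)) ≤ 1 / 2) (U : ℝ) (hU : 0 ≤ U)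
    (hJ : ∀ d ∈ Icc 1 R, ∀ c ∈ red d, ∀ l ∈ range d, ∀ v : ℝ,
      JJ f N K d l ((c : ℝ) / d) (a0 + A * v) (L / (A * r0)) ≤ U * (1 + |v|) ^ 2) :
    ∑ q ∈ Ioc Q (2 * Q), ∑ a ∈ Ioc a0 (a0 + A), (∑ k ∈ ks K, ft f N (a + k * q)) ^ 2
      ≤ Real.exp Real.pi * (4 * S2 f N * (K + A * (1 + Real.log K))
          + 128 * S2 f N * (1 + Real.log (2 * K)) * (A * K / R + K ^ 2)
          + R ^ 2 * (34 * A * (1 + Real.log K) * r0 * S2 f N + 8 * K ^ 2 * N * S2 f N * Real.exp (-L ^ 2)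
            + 4 * A * R * U)) := by
  have hA : 1 ≤ A := hK.trans hKA
  have hA0 : (0 : ℝ) < A := by exact_mod_cast hA
  have hS := S2_nonneg f N
  have hlogK : 0 ≤ Real.log K := Real.log_natCast_nonneg K
  obtain ⟨Z, hZ⟩ := expand f N K A Q a0 hA
  refine hZ.trans (mul_le_mul_of_nonneg_left ?_ (Real.exp_pos _).le)
  have hdiag := diag_bound f N K A Z a0 hA hK
  -- the off-diagonal sum
  have hoff : ((∑ k1 ∈ ks K, ∑ k2 ∈ (ks K).erase k1, Soff f N A a0 k1 k2 : ℝ) : ℂ)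
      = ∑ k1 ∈ ks K, ∑ k2 ∈ (ks K).erase k1, ∑ d ∈ (k2 - k1).natAbs.divisors.filter (fun d => R < d),
          ∑ c ∈ red d, IpS f N A a0 ((c : ℝ) / d) k1 k2 Set.univ
        + ∑ k1 ∈ ks K, ∑ k2 ∈ (ks K).erase k1,
          ∑ d ∈ (k2 - k1).natAbs.divisors.filter (fun d => ¬ R < d),
          ∑ c ∈ red d, IpS f N A a0 ((c : ℝ) / d) k1 k2 Set.univ := by
    rw [← sum_add_distrib, Complex.ofReal_sum]
    refine sum_congr rfl fun k1 _ => ?_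
    rw [← sum_add_distrib, Complex.ofReal_sum]
    refine sum_congr rfl fun k2 hk2 => ?_
    rw [mem_erase] at hk2
    rw [Soff_den f N A hA0 a0 k1 k2 (Ne.symm hk2.1), sum_filter_add_sum_filter_not]
  have hlarge : ‖∑ k1 ∈ ks K, ∑ k2 ∈ (ks K).erase k1,
      ∑ d ∈ (k2 - k1).natAbs.divisors.filter (fun d => R < d),
        ∑ c ∈ red d, IpS f N A a0 ((c : ℝ) / d) k1 k2 Set.univ‖
      ≤ 128 * S2 f N * (1 + Real.log (2 * K)) * (A * K / R + K ^ 2) := by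
    refine le_trans ?_ ((large1 f N K R A a0 hA0).trans ((mul_le_mul_of_nonneg_left
      (large2 f N K R A hA0 hK hR) (by norm_num)).trans (le_of_eq (by ring))))
    refine (norm_sum_le _ _).trans (sum_le_sum fun k1 _ => ?_)
    refine (norm_sum_le _ _).trans (sum_le_sum fun k2 _ => ?_)
    refine (norm_sum_le _ _).trans (sum_le_sum fun d _ => ?_)
    exact norm_sum_le _ _
  set B : ℝ := 34 * A * (1 + Real.log K) * r0 * S2 f N
    + 8 * K ^ 2 * N * S2 f N * Real.exp (-L ^ 2) + 4 * A * R * U with hB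
  have hB0 : 0 ≤ B := by
    rw [hB]
    have e1 : 0 ≤ 34 * (A : ℝ) * (1 + Real.log K) * r0 * S2 f N := by
      have : 0 ≤ 1 + Real.log K := by linarith
      positivity
    have e2 : 0 ≤ 8 * (K : ℝ) ^ 2 * N * S2 f N * Real.exp (-L ^ 2) := by positivity
    have e3 : 0 ≤ 4 * (A : ℝ) * R * U := by positivity
    linarith
  have hsmall : ‖∑ k1 ∈ ks K, ∑ k2 ∈ (ks K).erase k1,
      ∑ d ∈ (k2 - k1).natAbs.divisors.filter (fun d => ¬ R < d),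
        ∑ c ∈ red d, IpS f N A a0 ((c : ℝ) / d) k1 k2 Set.univ‖ ≤ R ^ 2 * B := by
    rw [Second_swap K R (fun k1 k2 α => IpS f N A a0 α k1 k2 Set.univ)]
    refine (norm_sum_le _ _).trans ?_
    have h1 : ∀ d ∈ Icc 1 R, ‖∑ c ∈ red d, ∑ k1 ∈ ks K,
        ∑ k2 ∈ (ks K).filter (fun k2 => k2 ≠ k1 ∧ (d : ℤ) ∣ k2 - k1),
          IpS f N A a0 ((c : ℝ) / d) k1 k2 Set.univ‖ ≤ R * B := by
      intro d hd
      have hd' := mem_Icc.mp hd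
      refine (norm_sum_le _ _).trans ?_
      have h2 : ∀ c ∈ red d, ‖∑ k1 ∈ ks K,
          ∑ k2 ∈ (ks K).filter (fun k2 => k2 ≠ k1 ∧ (d : ℤ) ∣ k2 - k1),
          IpS f N A a0 ((c : ℝ) / d) k1 k2 Set.univ‖ ≤ B := by
        intro c hc
        refine (small_den f N K d r0 A ((c : ℝ) / d) L a0 hK (by exact_mod_cast hKA) hd'.1 hr0 hL
          hKY U hU (fun l hl v => hJ d hd c hc l hl v)).trans ?_
        rw [hB]
        have e3 : 4 * (A : ℝ) * d * U ≤ 4 * A * R * U := by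
          have hdR : (d : ℝ) ≤ R := by exact_mod_cast hd'.2
          gcongr
        linarith
      refine (sum_le_sum h2).trans ?_
      rw [sum_const, Pool.Agent.H92.EH.card_red, nsmul_eq_mul]
      refine mul_le_mul_of_nonneg_right ?_ hB0
      exact_mod_cast (Nat.totient_le d).trans hd'.2
    refine (sum_le_sum h1).trans (le_of_eq ?_)
    rw [sum_const, Nat.card_Icc, nsmul_eq_mul, Nat.add_sub_cancel]
    ring
  have hfin : ∑ k1 ∈ ks K, ∑ k2 ∈ (ks K).erase k1, Soff f N A a0 k1 k2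
      ≤ 128 * S2 f N * (1 + Real.log (2 * K)) * (A * K / R + K ^ 2) + R ^ 2 * B := by
    refine (le_abs_self _).trans ?_
    rw [← Real.norm_eq_abs, ← Complex.norm_real, hoff]
    exact (norm_add_le _ _).trans (add_le_add hlarge hsmall)
  linarith

end Pool.Agent.H76.EHB

end

section

/-!
# MS SMb: the second moment for an arbitrary bounded function

PROOF.  Assume `κ ≤ 1`, `e ≤ 1` (otherwise replace them by `min κ 1`, `min e 1`: the hypotheses `Q ≤ x^(1-κ)`, `x^(1+e) ≤ Q A` get weaker).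
`ρ0 = min (ρ0 of JJ_pow (κ)) (κ/200) (e/200)` (`≤ 1/200`).
Let `R = ⌊x^ρ⌋`, `Y = ⌊x^(1-80ρ)⌋`, `J = x/Y + 1` (natural division), `N = J Y`, so `x ≤ N ≤ 2x`, `J ≤ 3 x^(80ρ)`, `R^4 ≤ Y` (`84ρ < 1`).
`g = gc R Y f`, `K = 2x/Q + 1` (natural division): `K Q ≥ 2x ≥ N, a0 + A`; `Q ≥ 2` (as `Q A ≥ x^(1+e)`, `A ≤ x`, so `Q ≥ x^e`), `x/Q ≤ K ≤ 3x/Q`, `K ≤ x`,
`K ≥ x/Q ≥ x^κ`, `K x^e ≤ 3 x^(1+e)/Q ≤ 3 A`, in particular `K ≤ A`.
(1) `abs_gc_le`: `|g| ≤ 1 + R^2 ≤ 2 x^(2ρ)`; `S2_gc`: `S2 g N ≤ 20 N ≤ 40 x`; `par_sum`: for `u ≤ N`, `d ≤ R`, `c ∈ red d` the sum is at most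
`J R^4 + Y (1+R^2) ≤ 3 x^(84ρ) + 2 x^(1-78ρ) ≤ x^(1-77ρ)`.
(2) `JJ_pow`: `JJ g N K d l (c/d) (a0 + A v) Y' ≤ K x^(1-5ρ) (1 + |a0 + A v|/x)^2 ≤ U (1+|v|)^2`, `U = 4 K x^(1-5ρ)` (`|a0 + A v| ≤ x (1+|v|)`), for
`Y' = L/(A r0)`, `L = log x`, `r0 = ⌈K x^(-4ρ)⌉` (`K Y' ≤ L x^(4ρ)/A ≤ 1/2` because `A ≥ K ≥ x^κ`).
(3) `second_moment` for `g` (with `a0 : ℤ`), `sm_num`, and `link` (`Fm = 1 + R^2`), `sm_num2`.
(4) `cls_sum` (`f` vanishes beyond `x`, so `∑_{n ≤ N} f(n) uu = ∑_{n ≤ x} f(n) uu`), `(u+v)^2 ≤ 2u^2 + 2v^2`, and there are `Q A` pairs `(q, a)`.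
Total: `2 (link) + 2 Q A (J R^3)^2 ≤ 2 (2 Q A Fm^2 + 2 (second moment)) + 2 Q A (J R^3)^2 ≤ 4/8 + 2*2/8 <= 1` times `A x^2/Q x^(-ρ/2)`.
-/

set_option autoImplicit false

namespace Pool.Agent.H65.MS

open Finset
open Pool.Agent.H91.PK (ee)
open Pool.Agent.H92.EH (red)
open Pool.Agent.H80.KF (ram uu)
open Pool.Agent.H76.EHB

private theorem SMb_log (s : ℝ) (hs : 0 < s) :
    ∃ x0 : ℕ, ∀ x : ℕ, x0 ≤ x → 100 ≤ Real.log x ∧ 100 * Real.log x ≤ (x : ℝ) ^ s := by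
  obtain ⟨x0, h⟩ := log_pow_ev s 100 hs 1
  refine ⟨x0, fun x hx => ?_⟩
  obtain ⟨-, h1, h2⟩ := h x hx
  rw [pow_one] at h2
  exact ⟨h1, h2⟩

/-- the numbers `R`, `Y`, `J` -/
private theorem SMb_num1 (ρ : ℝ) (hρ : 0 < ρ) (hρ1 : ρ ≤ 1 / 200) :
    ∃ x0 : ℕ, ∀ x : ℕ, x0 ≤ x → ∀ R Y J : ℕ, R = ⌊(x : ℝ) ^ ρ⌋₊ → Y = ⌊(x : ℝ) ^ (1 - 80 * ρ)⌋₊ →
      J = x / Y + 1 →
      1 ≤ R ∧ 1 ≤ Y ∧ R ^ 4 ≤ Y ∧ x ≤ J * Y ∧ J * Y ≤ 2 * x ∧ (J : ℝ) ≤ 3 * (x : ℝ) ^ (80 * ρ) ∧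
      (x : ℝ) ^ ρ / 2 ≤ R ∧ (R : ℝ) ≤ (x : ℝ) ^ ρ ∧ 1 + (R : ℝ) ^ 2 ≤ 2 * (x : ℝ) ^ (2 * ρ) ∧
      (J : ℝ) * (R : ℝ) ^ 4 + Y * (1 + (R : ℝ) ^ 2) ≤ (x : ℝ) ^ (1 - 77 * ρ) := by
  obtain ⟨x1, h1⟩ := SMb_log ρ hρ
  refine ⟨max x1 2, fun x hx R Y J hR hY hJ => ?_⟩
  have hx2 : 2 ≤ x := le_trans (le_max_right _ _) hx
  obtain ⟨hl, hp⟩ := h1 x (le_trans (le_max_left _ _) hx)
  have hxr : (2 : ℝ) ≤ x := by exact_mod_cast hx2
  have hx1 : (1 : ℝ) ≤ x := by linarith only [hρ, hρ1, hxr]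
  have hx0 : (0 : ℝ) < x := by linarith only [hρ, hρ1, hxr]
  have hρbig : (10000 : ℝ) ≤ (x : ℝ) ^ ρ := by linarith only [hl, hp]
  have hmul : ∀ a b : ℝ, (x : ℝ) ^ a * (x : ℝ) ^ b = (x : ℝ) ^ (a + b) := fun a b =>
    (Real.rpow_add hx0 a b).symm
  have hmono : ∀ a b : ℝ, a ≤ b → (x : ℝ) ^ a ≤ (x : ℝ) ^ b := fun a b h =>
    Real.rpow_le_rpow_of_exponent_le hx1 h
  have hpos : ∀ a : ℝ, 0 < (x : ℝ) ^ a := fun a => Real.rpow_pos_of_pos hx0 a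
  -- R
  have hR1 : (R : ℝ) ≤ (x : ℝ) ^ ρ := by rw [hR]; exact Nat.floor_le (hpos _).le
  have hR2 : (x : ℝ) ^ ρ / 2 ≤ R := by
    have := Nat.sub_one_lt_floor ((x : ℝ) ^ ρ)
    rw [← hR] at this
    linarith only [hρ, hρ1, hl, hp, this]
  have hR0 : 1 ≤ R := by
    have : (1 : ℝ) ≤ R := by linarith only [hρ, hρ1, hl, hp, hR2]
    exact_mod_cast this
  have hR0r : (1 : ℝ) ≤ R := by exact_mod_cast hR0
  -- Y
  have hYbig : 2 * (x : ℝ) ^ (4 * ρ) ≤ (x : ℝ) ^ (1 - 80 * ρ) := by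
    have e1 : (x : ℝ) ^ (1 - 80 * ρ) = (x : ℝ) ^ (4 * ρ) * (x : ℝ) ^ (1 - 84 * ρ) := by
      rw [hmul]; congr 1; ring
    have e2 : (x : ℝ) ^ ρ ≤ (x : ℝ) ^ (1 - 84 * ρ) := hmono _ _ (by linarith only [hρ, hρ1])
    rw [e1]
    have := hpos (4 * ρ)
    nlinarith only [hρ, this, hρ1, hl, hp, e2]
  have h4 : (1 : ℝ) ≤ (x : ℝ) ^ (4 * ρ) := Real.one_le_rpow hx1 (by linarith only [hρ])
  have hY1 : (Y : ℝ) ≤ (x : ℝ) ^ (1 - 80 * ρ) := by rw [hY]; exact Nat.floor_le (hpos _).le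
  have hY2 : (x : ℝ) ^ (1 - 80 * ρ) / 2 ≤ Y := by
    have := Nat.sub_one_lt_floor ((x : ℝ) ^ (1 - 80 * ρ))
    rw [← hY] at this
    linarith only [hYbig, h4, this]
  have hY0 : 1 ≤ Y := by
    have : (1 : ℝ) ≤ Y := by linarith only [hYbig, h4, hY2]
    exact_mod_cast this
  have hR4 : R ^ 4 ≤ Y := by
    have e1 : (R : ℝ) ^ 4 ≤ (x : ℝ) ^ (4 * ρ) := by
      calc (R : ℝ) ^ 4 ≤ ((x : ℝ) ^ ρ) ^ 4 := pow_le_pow_left₀ (by positivity) hR1 4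
        _ = (x : ℝ) ^ (4 * ρ) := by
          rw [← Real.rpow_natCast, ← Real.rpow_mul hx0.le]
          congr 1
          push_cast
          ring
    have : (R : ℝ) ^ 4 ≤ Y := by linarith only [hYbig, hY2, e1]
    exact_mod_cast this
  have hYx : Y ≤ x := by
    have : (Y : ℝ) ≤ x := by
      refine hY1.trans ?_
      calc (x : ℝ) ^ (1 - 80 * ρ) ≤ (x : ℝ) ^ (1 : ℝ) := hmono _ _ (by linarith only [hρ])
        _ = x := Real.rpow_one _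
    exact_mod_cast this
  have hJ1 : x ≤ J * Y := by
    rw [hJ]
    have h := Nat.div_add_mod x Y
    have h' := Nat.mod_lt x (show 0 < Y by omega)
    have h'' : (x / Y + 1) * Y = Y * (x / Y) + Y := by ring
    rw [h'']
    omega
  have hJ2 : J * Y ≤ 2 * x := by
    rw [hJ]
    have h := Nat.div_mul_le_self x Y
    have h'' : (x / Y + 1) * Y = x / Y * Y + Y := by ring
    rw [h'']
    omega
  have hYr0 : (0 : ℝ) < Y := by
    have : 0 < Y := by omega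
    exact_mod_cast this
  have hJ3 : (J : ℝ) ≤ 3 * (x : ℝ) ^ (80 * ρ) := by
    have e1 : (J : ℝ) ≤ x / Y + 1 := by
      rw [hJ]
      push_cast
      have := @Nat.cast_div_le ℝ _ _ _ x Y
      linarith only [this]
    have e2 : (x : ℝ) / Y ≤ 2 * (x : ℝ) ^ (80 * ρ) := by
      rw [div_le_iff₀ hYr0]
      have e3 : (x : ℝ) = (x : ℝ) ^ (80 * ρ) * (x : ℝ) ^ (1 - 80 * ρ) := by
        rw [hmul]
        have : 80 * ρ + (1 - 80 * ρ) = 1 := by ring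
        rw [this, Real.rpow_one]
      have e4 := hpos (80 * ρ)
      calc (x : ℝ) = (x : ℝ) ^ (80 * ρ) * (x : ℝ) ^ (1 - 80 * ρ) := e3
        _ ≤ (x : ℝ) ^ (80 * ρ) * (2 * Y) := mul_le_mul_of_nonneg_left (by linarith only [hY2]) e4.le
        _ = 2 * (x : ℝ) ^ (80 * ρ) * Y := by ring
    have e5 : (1 : ℝ) ≤ (x : ℝ) ^ (80 * ρ) := Real.one_le_rpow hx1 (by linarith only [hρ])
    linarith only [e1, e2, e5]
  have hRR : (R : ℝ) ^ 2 ≤ (x : ℝ) ^ (2 * ρ) := by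
    calc (R : ℝ) ^ 2 ≤ ((x : ℝ) ^ ρ) ^ 2 := pow_le_pow_left₀ (by positivity) hR1 2
      _ = (x : ℝ) ^ (2 * ρ) := by
        rw [← Real.rpow_natCast, ← Real.rpow_mul hx0.le]
        congr 1
        push_cast
        ring
  have hRRR : (R : ℝ) ^ 4 ≤ (x : ℝ) ^ (4 * ρ) := by
    calc (R : ℝ) ^ 4 ≤ ((x : ℝ) ^ ρ) ^ 4 := pow_le_pow_left₀ (by positivity) hR1 4
      _ = (x : ℝ) ^ (4 * ρ) := by
        rw [← Real.rpow_natCast, ← Real.rpow_mul hx0.le]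
        congr 1
        push_cast
        ring
  have h2ρ : (1 : ℝ) ≤ (x : ℝ) ^ (2 * ρ) := Real.one_le_rpow hx1 (by linarith only [hρ])
  have hF : 1 + (R : ℝ) ^ 2 ≤ 2 * (x : ℝ) ^ (2 * ρ) := by linarith only [hRR, h2ρ]
  refine ⟨hR0, hY0, hR4, hJ1, hJ2, hJ3, hR2, hR1, hF, ?_⟩
  have t1 : (J : ℝ) * (R : ℝ) ^ 4 ≤ 3 * (x : ℝ) ^ (84 * ρ) := by
    calc (J : ℝ) * (R : ℝ) ^ 4 ≤ (3 * (x : ℝ) ^ (80 * ρ)) * (x : ℝ) ^ (4 * ρ) :=
          mul_le_mul hJ3 hRRR (by positivity) (by positivity)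
      _ = 3 * (x : ℝ) ^ (84 * ρ) := by
        rw [mul_assoc, hmul]
        congr 2
        ring
  have t2 : (Y : ℝ) * (1 + (R : ℝ) ^ 2) ≤ 2 * (x : ℝ) ^ (1 - 78 * ρ) := by
    calc (Y : ℝ) * (1 + (R : ℝ) ^ 2) ≤ (x : ℝ) ^ (1 - 80 * ρ) * (2 * (x : ℝ) ^ (2 * ρ)) :=
          mul_le_mul hY1 hF (by positivity) (by positivity)
      _ = 2 * ((x : ℝ) ^ (1 - 80 * ρ) * (x : ℝ) ^ (2 * ρ)) := by ring
      _ = 2 * (x : ℝ) ^ (1 - 78 * ρ) := by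
        rw [hmul]
        congr 2
        ring
  have t3 : 6 * (x : ℝ) ^ (84 * ρ) ≤ (x : ℝ) ^ (1 - 77 * ρ) := by
    have e1 : (x : ℝ) ^ (1 - 77 * ρ) = (x : ℝ) ^ (84 * ρ) * (x : ℝ) ^ (1 - 161 * ρ) := by
      rw [hmul]; congr 1; ring
    have e2 : (x : ℝ) ^ ρ ≤ (x : ℝ) ^ (1 - 161 * ρ) := hmono _ _ (by linarith only [hρ, hρ1])
    rw [e1]
    have := hpos (84 * ρ)
    nlinarith only [hρ, this, hρ1, hl, hp, e2]
  have t4 : 4 * (x : ℝ) ^ (1 - 78 * ρ) ≤ (x : ℝ) ^ (1 - 77 * ρ) := by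
    have e1 : (x : ℝ) ^ (1 - 77 * ρ) = (x : ℝ) ^ (1 - 78 * ρ) * (x : ℝ) ^ ρ := by
      rw [hmul]; congr 1; ring
    rw [e1]
    have := hpos (1 - 78 * ρ)
    nlinarith only [hρ1, hl, hp, hR2, t2, hYbig, h4, hY2, hρ, this]
  linarith only [t1, t2, t3, t4]

/-- the numbers `K`, `r0` -/
private theorem SMb_num2 (κ e ρ : ℝ) (hκ : 0 < κ) (he : 0 < e) (hρ : 0 < ρ) (hρκ : ρ ≤ κ / 200) :
    ∃ x0 : ℕ, ∀ x : ℕ, x0 ≤ x → ∀ Q A K r0 : ℕ, 1 ≤ Q → (Q : ℝ) ≤ (x : ℝ) ^ (1 - κ) →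
      (x : ℝ) ^ (1 + e) ≤ Q * A → A ≤ x → K = 2 * x / Q + 1 →
      r0 = ⌈(K : ℝ) * (x : ℝ) ^ (-(4 * ρ))⌉₊ →
      1 ≤ K ∧ K ≤ A ∧ 1 ≤ r0 ∧ (K : ℝ) * (Real.log x / (A * r0)) ≤ 1 / 2 ∧ 2 * x ≤ K * Q ∧
      (x : ℝ) ^ κ ≤ K ∧ (x : ℝ) / Q ≤ K ∧ (K : ℝ) ≤ 3 * x / Q ∧ K ≤ x ∧
      (K : ℝ) * (x : ℝ) ^ e ≤ 4 * A ∧ (r0 : ℝ) ≤ 2 * K * (x : ℝ) ^ (-(4 * ρ)) := by
  obtain ⟨x1, h1⟩ := SMb_log e he
  obtain ⟨x2, h2⟩ := SMb_log (κ - 4 * ρ) (by linarith only [hρ, hρκ])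
  refine ⟨max (max x1 x2) 2, fun x hx Q A K r0 hQ hQx hQA hAx hK hr0 => ?_⟩
  have hx2 : 2 ≤ x := le_trans (le_max_right _ _) hx
  obtain ⟨hl, hp⟩ := h1 x (le_trans (le_trans (le_max_left _ _) (le_max_left _ _)) hx)
  obtain ⟨-, hp2⟩ := h2 x (le_trans (le_trans (le_max_right _ _) (le_max_left _ _)) hx)
  have hxr : (2 : ℝ) ≤ x := by exact_mod_cast hx2
  have hx1 : (1 : ℝ) ≤ x := by linarith only [hxr]
  have hx0 : (0 : ℝ) < x := by linarith only [hxr]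
  have hmul : ∀ a b : ℝ, (x : ℝ) ^ a * (x : ℝ) ^ b = (x : ℝ) ^ (a + b) := fun a b =>
    (Real.rpow_add hx0 a b).symm
  have hpos : ∀ a : ℝ, 0 < (x : ℝ) ^ a := fun a => Real.rpow_pos_of_pos hx0 a
  have hebig : (10000 : ℝ) ≤ (x : ℝ) ^ e := by linarith only [hl, hp]
  have hQ0 : (0 : ℝ) < Q := by exact_mod_cast hQ
  have hAxr : (A : ℝ) ≤ x := by exact_mod_cast hAx
  have hxe : (x : ℝ) ^ (1 + e) = x * (x : ℝ) ^ e := by
    rw [Real.rpow_add hx0, Real.rpow_one]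
  have hQbig : (10000 : ℝ) ≤ Q := by
    have e1 : (x : ℝ) * (x : ℝ) ^ e ≤ x * Q := by
      rw [← hxe]
      calc (x : ℝ) ^ (1 + e) ≤ Q * A := hQA
        _ ≤ Q * x := mul_le_mul_of_nonneg_left hAxr hQ0.le
        _ = x * Q := mul_comm _ _
    exact hebig.trans (le_of_mul_le_mul_left e1 hx0)
  have hxQ : (x : ℝ) ^ κ ≤ x / Q := by
    rw [le_div_iff₀ hQ0]
    calc (x : ℝ) ^ κ * Q ≤ (x : ℝ) ^ κ * (x : ℝ) ^ (1 - κ) :=
          mul_le_mul_of_nonneg_left hQx (hpos _).le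
      _ = x := by
        rw [hmul]
        have : κ + (1 - κ) = 1 := by ring
        rw [this, Real.rpow_one]
  have hκ1 : (1 : ℝ) ≤ (x : ℝ) ^ κ := Real.one_le_rpow hx1 hκ.le
  have hK1 : 1 ≤ K := by rw [hK]; exact Nat.le_add_left 1 _
  have hKQ : 2 * x ≤ K * Q := by
    rw [hK]
    have h := Nat.div_add_mod (2 * x) Q
    have h' := Nat.mod_lt (2 * x) (show 0 < Q by omega)
    have h'' : (2 * x / Q + 1) * Q = Q * (2 * x / Q) + Q := by ring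
    rw [h'']
    omega
  have hKQr : 2 * (x : ℝ) ≤ K * Q := by exact_mod_cast hKQ
  have hKlow : (x : ℝ) / Q ≤ K := by
    rw [div_le_iff₀ hQ0]
    linarith only [hxr, hKQr]
  have hKup : (K : ℝ) ≤ 3 * x / Q := by
    have e1 : (K : ℝ) ≤ 2 * x / Q + 1 := by
      rw [hK]
      push_cast
      have := @Nat.cast_div_le ℝ _ _ _ (2 * x) Q
      push_cast at this
      linarith only [this]
    have e2 : (1 : ℝ) ≤ x / Q := by linarith only [hxQ, hκ1]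
    have e3 : 3 * (x : ℝ) / Q = 2 * x / Q + x / Q := by ring
    rw [e3]
    linarith only [hxQ, hκ1, e1]
  have hKx : K ≤ x := by
    have : (K : ℝ) ≤ x := by
      refine hKup.trans ?_
      rw [div_le_iff₀ hQ0]
      nlinarith only [hxr, hQbig]
    exact_mod_cast this
  have hKe : (K : ℝ) * (x : ℝ) ^ e ≤ 3 * A := by
    calc (K : ℝ) * (x : ℝ) ^ e ≤ 3 * x / Q * (x : ℝ) ^ e :=
          mul_le_mul_of_nonneg_right hKup (hpos _).le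
      _ = 3 * ((x : ℝ) ^ (1 + e) / Q) := by rw [hxe]; ring
      _ ≤ 3 * A := by
        apply mul_le_mul_of_nonneg_left _ (by norm_num)
        rw [div_le_iff₀ hQ0]
        linarith only [hQA]
  have hK0 : (0 : ℝ) < K := by exact_mod_cast hK1
  have hA0 : (0 : ℝ) ≤ A := Nat.cast_nonneg A
  have hKA : K ≤ A := by
    have : (K : ℝ) ≤ A := by nlinarith only [hxQ, hκ1, hKlow, hKe, hl, hp]
    exact_mod_cast this
  have hKAr : (K : ℝ) ≤ A := by exact_mod_cast hKA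
  have hr1 : (1 : ℝ) ≤ (K : ℝ) * (x : ℝ) ^ (-(4 * ρ)) := by
    have e1 : (x : ℝ) ^ (κ - 4 * ρ) = (x : ℝ) ^ κ * (x : ℝ) ^ (-(4 * ρ)) := by
      rw [hmul]; congr 1
    have e2 : (1 : ℝ) ≤ (x : ℝ) ^ (κ - 4 * ρ) := by linarith only [hl, hp2]
    calc (1 : ℝ) ≤ (x : ℝ) ^ κ * (x : ℝ) ^ (-(4 * ρ)) := by rw [← e1]; exact e2
      _ ≤ (K : ℝ) * (x : ℝ) ^ (-(4 * ρ)) :=
        mul_le_mul_of_nonneg_right (hxQ.trans hKlow) (hpos _).le
  have hr0a : (K : ℝ) * (x : ℝ) ^ (-(4 * ρ)) ≤ r0 := by rw [hr0]; exact Nat.le_ceil _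
  have hr0b : (r0 : ℝ) < (K : ℝ) * (x : ℝ) ^ (-(4 * ρ)) + 1 := by
    rw [hr0]; exact Nat.ceil_lt_add_one (by linarith only [hr1])
  have hr01 : 1 ≤ r0 := by
    have : (1 : ℝ) ≤ r0 := by linarith only [hr1, hr0a]
    exact_mod_cast this
  refine ⟨hK1, hKA, hr01, ?_, hKQ, hxQ.trans hKlow, hKlow, hKup, hKx, by linarith only [hxQ, hκ1, hKlow, hKe, hKAr], by linarith only [hr1, hr0b]⟩
  have hApos : (0 : ℝ) < A := by linarith only [hxQ, hκ1, hKlow, hKAr]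
  have hr0pos : (0 : ℝ) < r0 := by linarith only [hr1, hr0a]
  have e1 : (K : ℝ) * (Real.log x / (A * r0)) = (Real.log x * K) / (A * r0) := by ring
  rw [e1, div_le_iff₀ (by positivity)]
  have e2 : Real.log x * 100 ≤ A * (x : ℝ) ^ (-(4 * ρ)) := by
    have e3 : (x : ℝ) ^ (κ - 4 * ρ) = (x : ℝ) ^ κ * (x : ℝ) ^ (-(4 * ρ)) := by
      rw [hmul]; congr 1
    calc Real.log x * 100 ≤ (x : ℝ) ^ (κ - 4 * ρ) := by linarith only [hp2]
      _ = (x : ℝ) ^ κ * (x : ℝ) ^ (-(4 * ρ)) := e3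
      _ ≤ A * (x : ℝ) ^ (-(4 * ρ)) :=
        mul_le_mul_of_nonneg_right ((hxQ.trans hKlow).trans hKAr) (hpos _).le
  have e4 : Real.log x * 100 * K ≤ A * r0 := by
    calc Real.log x * 100 * K ≤ A * (x : ℝ) ^ (-(4 * ρ)) * K :=
          mul_le_mul_of_nonneg_right e2 hK0.le
      _ = A * (K * (x : ℝ) ^ (-(4 * ρ))) := by ring
      _ ≤ A * r0 := mul_le_mul_of_nonneg_left hr0a hA0
  have e5 : 0 ≤ Real.log x * K := by positivity
  linarith only [e4, e5]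

/-- from `gc` to `uu` -/
private theorem SMb_fin (f : ℕ → ℝ) (hf : ∀ n, |f n| ≤ 1) (R Y J Q A a0 : ℕ) (hY : 1 ≤ Y) (T : ℝ)
    (hT : ∑ q ∈ Ioc Q (2 * Q), ∑ a ∈ Ioc a0 (a0 + A),
      (∑ n ∈ (Icc 1 (J * Y)).filter (fun n => n ≡ a [MOD q]), gc R Y f n) ^ 2 ≤ T) :
    ∑ q ∈ Ioc Q (2 * Q), ∑ a ∈ Ioc a0 (a0 + A), (∑ n ∈ Icc 1 (J * Y), f n * uu R q a n) ^ 2
      ≤ 2 * T + 2 * (Q * A * (J * (R : ℝ) ^ 3) ^ 2) := by
  have h1 : ∀ q ∈ Ioc Q (2 * Q), ∀ a ∈ Ioc a0 (a0 + A),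
      (∑ n ∈ Icc 1 (J * Y), f n * uu R q a n) ^ 2 ≤
        2 * (∑ n ∈ (Icc 1 (J * Y)).filter (fun n => n ≡ a [MOD q]), gc R Y f n) ^ 2 +
          2 * (J * (R : ℝ) ^ 3) ^ 2 := by
    intro q hq a _
    have hq1 : 1 ≤ q := by
      rw [mem_Ioc] at hq
      omega
    have h2 := cls_sum R Y J q a hY hq1 f hf
    have h3 : (∑ n ∈ (Icc 1 (J * Y)).filter (fun n => n ≡ a [MOD q]), gc R Y f n -
        ∑ n ∈ Icc 1 (J * Y), f n * uu R q a n) ^ 2 ≤ (J * (R : ℝ) ^ 3) ^ 2 := by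
      rw [← sq_abs]
      exact pow_le_pow_left₀ (abs_nonneg _) h2 2
    have h4 : ∀ u v : ℝ, v ^ 2 ≤ 2 * u ^ 2 + 2 * (u - v) ^ 2 := by
      intro u v
      nlinarith only [sq_nonneg (2 * u - v)]
    have h5 := h4 (∑ n ∈ (Icc 1 (J * Y)).filter (fun n => n ≡ a [MOD q]), gc R Y f n)
      (∑ n ∈ Icc 1 (J * Y), f n * uu R q a n)
    linarith only [h3, h5]
  calc _ ≤ ∑ q ∈ Ioc Q (2 * Q), ∑ a ∈ Ioc a0 (a0 + A),
        (2 * (∑ n ∈ (Icc 1 (J * Y)).filter (fun n => n ≡ a [MOD q]), gc R Y f n) ^ 2 +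
          2 * (J * (R : ℝ) ^ 3) ^ 2) := sum_le_sum fun q hq => sum_le_sum fun a ha => h1 q hq a ha
    _ = 2 * (∑ q ∈ Ioc Q (2 * Q), ∑ a ∈ Ioc a0 (a0 + A),
        (∑ n ∈ (Icc 1 (J * Y)).filter (fun n => n ≡ a [MOD q]), gc R Y f n) ^ 2) +
          2 * (Q * A * (J * (R : ℝ) ^ 3) ^ 2) := by
        simp only [sum_add_distrib, sum_const, ← mul_sum, Nat.card_Ioc, nsmul_eq_mul]
        have e1 : 2 * Q - Q = Q := by omega
        have e2 : a0 + A - a0 = A := by omega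
        rw [e1, e2]
        ring
    _ ≤ _ := by linarith only [hT]

private theorem SMb_one (κ e : ℝ) (hκ : 0 < κ) (he : 0 < e) (hκ1 : κ ≤ 1) (he1 : e ≤ 1) :
    ∃ ρ0 : ℝ, 0 < ρ0 ∧ ∀ ρ : ℝ, 0 < ρ → ρ ≤ ρ0 →
    ∃ x0 : ℕ, ∀ x : ℕ, x0 ≤ x → ∀ f : ℕ → ℝ, (∀ n, |f n| ≤ 1) → (∀ n, x < n → f n = 0) →
      ∀ Q A a0 : ℕ, 1 ≤ Q → (Q : ℝ) ≤ (x : ℝ) ^ (1 - κ) → (x : ℝ) ^ (1 + e) ≤ Q * A → A ≤ x → a0 ≤ x →
      ∑ q ∈ Ioc Q (2 * Q), ∑ a ∈ Ioc a0 (a0 + A), (∑ n ∈ Icc 1 x, f n * uu ⌊(x : ℝ) ^ ρ⌋₊ q a n) ^ 2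
        ≤ A * (x : ℝ) ^ 2 / Q * (x : ℝ) ^ (-(ρ / 2)) := by
  obtain ⟨ρJ, hρJ, hJJ⟩ := JJ_pow κ hκ
  refine ⟨min ρJ (min (κ / 200) (e / 200)), by positivity, fun ρ hρ hρ0 => ?_⟩
  have hρa : ρ ≤ ρJ := hρ0.trans (min_le_left _ _)
  have hρb : ρ ≤ κ / 200 := hρ0.trans ((min_le_right _ _).trans (min_le_left _ _))
  have hρc : ρ ≤ e / 200 := hρ0.trans ((min_le_right _ _).trans (min_le_right _ _))
  obtain ⟨x1, h1⟩ := hJJ ρ hρ hρa
  obtain ⟨x2, h2⟩ := sm_num κ e hκ he hκ1 he1 ρ hρ (by linarith only [hρ, hρb]) (by linarith only [hρ, hρc])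
  obtain ⟨x3, h3⟩ := sm_num2 κ hκ hκ1 ρ hρ (by linarith only [hρ, hρb])
  obtain ⟨x4, h4⟩ := SMb_num1 ρ hρ (by linarith only [hκ1, hρb])
  obtain ⟨x5, h5⟩ := SMb_num2 κ e ρ hκ he hρ hρb
  obtain ⟨x6, h6⟩ := SMb_log ρ hρ
  refine ⟨max (max (max x1 x2) (max x3 x4)) (max (max x5 x6) 1), fun x hx f hf hf0 Q A a0 hQ hQx hQA
    hAx ha0 => ?_⟩
  simp only [max_le_iff] at hx
  obtain ⟨⟨⟨g1, g2⟩, g3, g4⟩, ⟨g5, g6⟩, g7⟩ := hx
  replace h1 := h1 x g1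
  replace h2 := h2 x g2
  replace h3 := h3 x g3
  obtain ⟨hR1, hY1, hR4, hJ1, hJ2, hJ3, hR2, hR3, hF, hE⟩ := h4 x g4 _ _ _ rfl rfl rfl
  obtain ⟨hK1, hKA, hr1, hKY, hKQ, hKκ, hKl, hKu, hKx, hKe, hr2⟩ := h5 x g5 Q A _ _ hQ hQx hQA hAx rfl rfl
  obtain ⟨hL, -⟩ := h6 x g6
  generalize hRd : ⌊(x : ℝ) ^ ρ⌋₊ = R at *
  generalize hYd : ⌊(x : ℝ) ^ (1 - 80 * ρ)⌋₊ = Y at *
  generalize hJd : x / Y + 1 = J at *
  generalize hKd : 2 * x / Q + 1 = K at *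
  generalize hrd : ⌈(K : ℝ) * (x : ℝ) ^ (-(4 * ρ))⌉₊ = r0 at *
  have hx1 : (1 : ℝ) ≤ x := by exact_mod_cast g7
  have hx0 : (0 : ℝ) < x := by linarith only [hκ1, hρ, hρb, hx1]
  have hQ0 : (0 : ℝ) < Q := by exact_mod_cast hQ
  have hA1 : 1 ≤ A := hK1.trans hKA
  have hA0 : (0 : ℝ) < A := by exact_mod_cast hA1
  have hK0 : (0 : ℝ) < K := by exact_mod_cast hK1
  have hr0 : (0 : ℝ) < r0 := by exact_mod_cast hr1
  have hpos : ∀ a : ℝ, 0 < (x : ℝ) ^ a := fun a => Real.rpow_pos_of_pos hx0 a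
  have hN1 : 1 ≤ J * Y := g7.trans hJ1
  have hNr : ((J * Y : ℕ) : ℝ) ≤ 2 * x := by exact_mod_cast hJ2
  -- the cut function
  have hS2 : S2 (gc R Y f) (J * Y) ≤ 40 * x := by
    have := S2_gc R Y J hR1 hR4 f hf
    have e : (J : ℝ) * Y ≤ 2 * x := by exact_mod_cast hJ2
    linarith only [this, e]
  have hS0 : 0 ≤ S2 (gc R Y f) (J * Y) := S2_nonneg _ _
  have hgc : ∀ n ∈ Icc 1 (J * Y), |gc R Y f n| ≤ 1 + (R : ℝ) ^ 2 := fun n _ =>
    abs_gc_le R Y hY1 f hf n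
  have hgc2 : ∀ n ∈ Icc 1 (J * Y), |gc R Y f n| ≤ 2 * (x : ℝ) ^ (2 * ρ) := fun n hn =>
    (hgc n hn).trans hF
  have hJJ2 : ∀ d ∈ Icc 1 R, ∀ c ∈ red d, ∀ l ∈ range d, ∀ v : ℝ,
      JJ (gc R Y f) (J * Y) K d l ((c : ℝ) / d) ((a0 : ℤ) + A * v) (Real.log x / (A * r0))
        ≤ 4 * K * (x : ℝ) ^ (1 - 5 * ρ) * (1 + |v|) ^ 2 := by
    intro d hd c hc l _ v
    have hd1 : 1 ≤ d := (mem_Icc.1 hd).1
    have e1 := h1 (gc R Y f) (J * Y) K d l ((c : ℝ) / d) ((a0 : ℤ) + A * v) (Real.log x / (A * r0))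
      hN1 hJ2 hKκ hKx hd1 (by positivity) (by linarith only [hκ1, hρ, hρb, hKY]) hgc2
      (fun u hu => (par_sum R Y J hY1 f hf d c hd hc u hu).trans hE) hS2
    refine e1.trans ?_
    have e2 : 1 + |((a0 : ℤ) : ℝ) + A * v| / x ≤ 2 * (1 + |v|) := by
      have e3 : |((a0 : ℤ) : ℝ) + A * v| ≤ x * (1 + |v|) := by
        refine (abs_add_le _ _).trans ?_
        have e4 : |((a0 : ℤ) : ℝ)| ≤ x := by
          rw [Int.cast_natCast, Nat.abs_cast]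
          exact_mod_cast ha0
        have e5 : |(A : ℝ) * v| ≤ x * |v| := by
          rw [abs_mul, Nat.abs_cast]
          exact mul_le_mul_of_nonneg_right (by exact_mod_cast hAx) (abs_nonneg _)
        linarith only [e4, e5]
      have e6 : |((a0 : ℤ) : ℝ) + A * v| / x ≤ 1 + |v| := by
        rw [div_le_iff₀ hx0]
        linarith only [e3]
      have := abs_nonneg v
      linarith only [e6, this]
    have e7 : 0 ≤ 1 + |((a0 : ℤ) : ℝ) + A * v| / x := by positivity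
    have e8 : (1 + |((a0 : ℤ) : ℝ) + A * v| / x) ^ 2 ≤ (2 * (1 + |v|)) ^ 2 :=
      pow_le_pow_left₀ e7 e2 2
    have e9 : 0 ≤ (K : ℝ) * (x : ℝ) ^ (1 - 5 * ρ) := by
      have := hpos (1 - 5 * ρ)
      positivity
    calc (K : ℝ) * (x : ℝ) ^ (1 - 5 * ρ) * (1 + |((a0 : ℤ) : ℝ) + A * v| / x) ^ 2
        ≤ (K : ℝ) * (x : ℝ) ^ (1 - 5 * ρ) * (2 * (1 + |v|)) ^ 2 := mul_le_mul_of_nonneg_left e8 e9
      _ = 4 * K * (x : ℝ) ^ (1 - 5 * ρ) * (1 + |v|) ^ 2 := by ring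
  have hU : 0 ≤ 4 * (K : ℝ) * (x : ℝ) ^ (1 - 5 * ρ) := by
    have := hpos (1 - 5 * ρ)
    positivity
  have hsm := second_moment (gc R Y f) (J * Y) K A Q R r0 (Real.log x) (a0 : ℤ) hK1 hKA hR1 hr1
    (by linarith only [hκ1, hρ, hρb, hL]) hKY (4 * (K : ℝ) * (x : ℝ) ^ (1 - 5 * ρ)) hU hJJ2
  have hnum := h2 Q A K R r0 ((J * Y : ℕ) : ℝ) (S2 (gc R Y f) (J * Y)) (by exact_mod_cast hQ) hKκ hKl hKu
    (by exact_mod_cast hKx) hKe hR2 hR3 hr0.le hr2 (Nat.cast_nonneg _) hNr hS0 hS2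
  have hsm2 := hsm.trans hnum
  have hNK : J * Y ≤ K * Q := hJ2.trans hKQ
  have haK : a0 + A ≤ K * Q := by omega
  have hlink := link (gc R Y f) (J * Y) K A Q a0 (1 + (R : ℝ) ^ 2) hgc (by positivity) hQ hNK haK
  have hnum2 := h3 Q A R J (by exact_mod_cast hQ) hQx hA0.le (Nat.cast_nonneg _) hR3
    (Nat.cast_nonneg _) hJ3
  have hfin := SMb_fin f hf R Y J Q A a0 hY1 _ hlink
  have hsum : ∀ q a : ℕ, ∑ n ∈ Icc 1 x, f n * uu R q a n = ∑ n ∈ Icc 1 (J * Y), f n * uu R q a n := by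
    intro q a
    refine sum_subset (Icc_subset_Icc_right hJ1) fun n hn hn2 => ?_
    rw [mem_Icc] at hn hn2
    rw [hf0 n (by omega), zero_mul]
  simp only [hsum]
  refine hfin.trans ?_
  set T : ℝ := A * (x : ℝ) ^ 2 / Q * (x : ℝ) ^ (-(ρ / 2)) with hT
  have hT0 : 0 ≤ T := by
    rw [hT]
    have := hpos (-(ρ / 2))
    positivity
  have e1 : 2 * (Q : ℝ) * A * (1 + (R : ℝ) ^ 2) ^ 2 + Q * A * (J * (R : ℝ) ^ 3) ^ 2 ≤ T / 8 := hnum2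
  linarith only [hsm, hnum, hnum2, hT0]

theorem sm_bound (κ e : ℝ) (hκ : 0 < κ) (he : 0 < e) : ∃ ρ0 : ℝ, 0 < ρ0 ∧ ∀ ρ : ℝ, 0 < ρ → ρ ≤ ρ0 →
    ∃ x0 : ℕ, ∀ x : ℕ, x0 ≤ x → ∀ f : ℕ → ℝ, (∀ n, |f n| ≤ 1) → (∀ n, x < n → f n = 0) →
      ∀ Q A a0 : ℕ, 1 ≤ Q → (Q : ℝ) ≤ (x : ℝ) ^ (1 - κ) → (x : ℝ) ^ (1 + e) ≤ Q * A → A ≤ x → a0 ≤ x →
      ∑ q ∈ Ioc Q (2 * Q), ∑ a ∈ Ioc a0 (a0 + A), (∑ n ∈ Icc 1 x, f n * uu ⌊(x : ℝ) ^ ρ⌋₊ q a n) ^ 2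
        ≤ A * (x : ℝ) ^ 2 / Q * (x : ℝ) ^ (-(ρ / 2)) := by
  obtain ⟨ρ0, hρ0, h⟩ := SMb_one (min κ 1) (min e 1) (by positivity) (by positivity) (min_le_right _ _)
    (min_le_right _ _)
  refine ⟨ρ0, hρ0, fun ρ hρ hρ1 => ?_⟩
  obtain ⟨x0, hx0⟩ := h ρ hρ hρ1
  refine ⟨max x0 1, fun x hx f hf hf0 Q A a0 hQ hQx hQA hAx ha0 => ?_⟩
  have hx1 : (1 : ℝ) ≤ x := by exact_mod_cast (le_trans (le_max_right _ _) hx)
  refine hx0 x (le_trans (le_max_left _ _) hx) f hf hf0 Q A a0 hQ (hQx.trans ?_) (le_trans ?_ hQA) hAx ha0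
  · exact Real.rpow_le_rpow_of_exponent_le hx1 (by linarith only [min_le_left κ 1])
  · exact Real.rpow_le_rpow_of_exponent_le hx1 (by linarith only [min_le_left e 1])

end Pool.Agent.H65.MS

end
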