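import Pool.Agent.H94.EH.H35.KM.BVs
import Pool.Agent.H94.EH.H65.MS.Rg1
import Pool.Agent.H94.EH.M54

/-! The parts of this file: H65.MS.UnfR, H65.MS.Rg2, H65.MS.Cmb. -/

section

/-!
# MS UnfR: the structured part is uniform in all residues, `R = x^ρ`

Same proof as `unf` in `Pool/Agent/H35/KM/Unf.lean` (copy it) with `R = ⌊x^ρ⌋ ≤ RR x = ⌊x^(1/50)⌋`: the sum over `d ≤ R` is at most the sum over
`d ≤ RR x` (nonnegative terms), bounded by `bvs`; `stg Q R`, `str_tail Q R` with this `R`; `unf_num` with the exponent `ρ` instead of `1/50`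
(`24 (log x)^c ≤ √R`).
-/

set_option autoImplicit false

namespace Pool.Agent.H65.MS

open Finset
open Pool.Agent.H91.EHA (err)
open Pool.Agent.H80.KF
open Pool.Agent.H35.KM

private theorem UnfR_num (ρ : ℝ) (hρ : 0 < ρ) (c : ℕ) : ∃ x0 : ℕ, ∀ x : ℕ, x0 ≤ x →
    1 ≤ ⌊(x : ℝ) ^ ρ⌋₊ ∧ 12 ≤ Real.log x ∧
      24 * Real.log x ^ c ≤ Real.sqrt (⌊(x : ℝ) ^ ρ⌋₊ : ℝ) := by
  have h1 : ∀ᶠ x : ℝ in Filter.atTop, ‖Real.log x ^ ((2 * c : ℕ) : ℝ)‖ ≤
      (1 / 1152 : ℝ) * ‖x ^ ρ‖ :=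
    (isLittleO_log_rpow_rpow_atTop ((2 * c : ℕ) : ℝ)
      hρ).def (by norm_num)
  have h2 : ∀ᶠ x : ℝ in Filter.atTop, (12 : ℝ) ≤ Real.log x :=
    Real.tendsto_log_atTop.eventually_ge_atTop 12
  have h3 : ∀ᶠ x : ℝ in Filter.atTop, (2 : ℝ) ≤ x ^ ρ :=
    (tendsto_rpow_atTop hρ).eventually_ge_atTop 2
  have h4 := tendsto_natCast_atTop_atTop (R := ℝ) |>.eventually (h1.and (h2.and h3))
  obtain ⟨x0, hx0⟩ := Filter.eventually_atTop.mp h4
  refine ⟨x0, fun x hx => ?_⟩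
  obtain ⟨g1, g2, g3⟩ := hx0 x hx
  set y : ℝ := (x : ℝ) ^ ρ with hy
  have hL : 0 ≤ Real.log (x : ℝ) := by linarith only [g2]
  have hfl : y / 2 ≤ (⌊y⌋₊ : ℝ) := by
    have := Nat.sub_one_lt_floor y
    linarith only [g3, this]
  refine ⟨?_, g2, ?_⟩
  · exact Nat.le_floor (by push_cast; linarith only [g3])
  · rw [Real.rpow_natCast, Real.norm_of_nonneg (pow_nonneg hL _),
      Real.norm_of_nonneg (by linarith only [g3])] at g1
    apply Real.le_sqrt_of_sq_le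
    calc (24 * Real.log (x : ℝ) ^ c) ^ 2 = 576 * Real.log (x : ℝ) ^ (2 * c) := by
          rw [mul_pow, ← pow_mul, mul_comm c 2]
          norm_num
      _ ≤ 576 * (1 / 1152 * y) := by gcongr
      _ ≤ y / 2 := by linarith only
      _ ≤ _ := hfl

/-- a reduced class with the largest error -/
private theorem UnfR_max (y : ℕ) : ∃ b : (d : ℕ) → ZMod d, (∀ d, IsUnit (b d)) ∧
    ∀ d, 1 ≤ d → ∀ a : ZMod d, IsUnit a → |err y d a| ≤ |err y d (b d)| := by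
  classical
  have h : ∀ d : ℕ, ∃ b : ZMod d, IsUnit b ∧
      (1 ≤ d → ∀ a : ZMod d, IsUnit a → |err y d a| ≤ |err y d b|) := by
    intro d
    rcases Nat.eq_zero_or_pos d with h0 | h0
    · exact ⟨1, isUnit_one, fun h => by omega⟩
    · have : NeZero d := ⟨by omega⟩
      have hne : ((Finset.univ : Finset (ZMod d)).filter (fun a => IsUnit a)).Nonempty :=
        ⟨1, Finset.mem_filter.2 ⟨Finset.mem_univ _, isUnit_one⟩⟩
      obtain ⟨b, hb, hmax⟩ := Finset.exists_max_image _ (fun a => |err y d a|) hne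
      exact ⟨b, (Finset.mem_filter.1 hb).2, fun _ a ha =>
        hmax a (Finset.mem_filter.2 ⟨Finset.mem_univ _, ha⟩)⟩
  choose b hb using h
  exact ⟨b, fun d => (hb d).1, fun d => (hb d).2⟩

theorem unfR (ρ : ℝ) (hρ : 0 < ρ) (hρ1 : ρ ≤ 1 / 50) (c : ℕ) : ∃ x0 : ℕ, ∀ x Q : ℕ, x0 ≤ x →
    1 ≤ Q → ∀ y : ℕ, y ≤ x → ∀ s : ℕ → ℤ, (∀ q, IsCoprime (s q) (q : ℤ)) →
    ∑ q ∈ Ioc Q (2 * Q),
      |err y q (s q : ZMod q) - ∑ p ∈ PX y, uu ⌊(x : ℝ) ^ ρ⌋₊ q (s q) p| ≤ x / Real.log x ^ c := by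
  obtain ⟨x1, h1⟩ := bvs (c + 2)
  obtain ⟨x2, h2⟩ := UnfR_num ρ hρ c
  refine ⟨max 1 (max x1 x2), fun x Q hx hQ y hyx s hs => ?_⟩
  have hx1 : x1 ≤ x := le_trans (le_trans (le_max_left _ _) (le_max_right _ _)) hx
  have hx2 : x2 ≤ x := le_trans (le_trans (le_max_right _ _) (le_max_right _ _)) hx
  have hx3 : 1 ≤ x := le_trans (le_max_left _ _) hx
  obtain ⟨hR, hL, hsq⟩ := h2 x hx2
  obtain ⟨b, hbu, hbm⟩ := UnfR_max y
  have he1 := h1 x hx1 y hyx b hbu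
  have hxr : (1 : ℝ) ≤ (x : ℝ) := by exact_mod_cast hx3
  have hRR : ⌊(x : ℝ) ^ ρ⌋₊ ≤ RR x := by
    unfold RR
    apply Nat.floor_le_floor
    exact Real.rpow_le_rpow_of_exponent_le hxr hρ1
  set R : ℕ := ⌊(x : ℝ) ^ ρ⌋₊ with hRdef
  have he : ∑ d ∈ Icc 1 R, |err y d (b d)| ≤ x / Real.log x ^ (c + 2) := by
    refine le_trans (Finset.sum_le_sum_of_subset_of_nonneg (Finset.Icc_subset_Icc_right hRR)
      (fun _ _ _ => abs_nonneg _)) he1
  set L : ℝ := Real.log (x : ℝ) with hLdef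
  have hL0 : 0 < L := by linarith only [hρ, hρ1, hL]
  have hmu : ∀ n : ℕ, |(ArithmeticFunction.moebius n : ℝ)| ≤ 1 := by
    intro n
    have h := ArithmeticFunction.abs_moebius_le_one (n := n)
    exact_mod_cast h
  -- one modulus
  have hone : ∀ q ∈ Ioc Q (2 * Q),
      |err y q (s q : ZMod q) - ∑ p ∈ PX y, uu R q (s q) p| ≤
        (1 / (q : ℝ)) * ∑ r ∈ q.divisors.filter (fun r => r ≤ R), ∑ d ∈ r.divisors,
          (d : ℝ) * |err y d (b d)| +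
        (x : ℝ) * ((1 / (q : ℝ)) * ∑ r ∈ q.divisors.filter (fun r => R < r),
            (ArithmeticFunction.moebius r : ℝ) ^ 2 / (Nat.totient r : ℝ)) := by
    intro q hq
    have hq1 : 1 ≤ q := by
      have := (mem_Ioc.mp hq).1
      omega
    rw [str_id y R q hq1 (s q)]
    refine (abs_sub _ _).trans ?_
    have hT : 0 ≤ ∑ r ∈ q.divisors.filter (fun r => R < r),
        (ArithmeticFunction.moebius r : ℝ) ^ 2 / (Nat.totient r : ℝ) :=
      sum_nonneg fun r _ => by positivity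
    have hpi : (Nat.primeCounting y : ℝ) ≤ x := by
      have : Nat.primeCounting y ≤ y := by
        rw [Nat.primeCounting, Nat.primeCounting', Nat.count_eq_card_filter_range]
        refine (card_le_card (t := Icc 1 y) ?_).trans (by rw [Nat.card_Icc]; omega)
        intro p hp
        rw [mem_filter, mem_range] at hp
        rw [mem_Icc]
        exact ⟨hp.2.one_lt.le, by omega⟩
      exact_mod_cast this.trans hyx
    apply add_le_add
    · rw [abs_mul, abs_of_nonneg (by positivity : (0 : ℝ) ≤ 1 / (q : ℝ))]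
      apply mul_le_mul_of_nonneg_left _ (by positivity)
      refine (abs_sum_le_sum_abs _ _).trans (sum_le_sum fun r hr => ?_)
      refine (abs_sum_le_sum_abs _ _).trans (sum_le_sum fun d hd => ?_)
      have hrq : r ∣ q := Nat.dvd_of_mem_divisors (mem_filter.1 hr).1
      have hdr : d ∣ r := Nat.dvd_of_mem_divisors hd
      have hdq : d ∣ q := hdr.trans hrq
      have hd1 : 1 ≤ d := Nat.pos_of_dvd_of_pos hdq (by omega)
      have hunit : IsUnit ((s q : ℤ) : ZMod d) := by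
        rw [ZMod.coe_int_isUnit_iff_isCoprime]
        exact ((hs q).of_isCoprime_of_dvd_right (by exact_mod_cast hdq)).symm
      rw [abs_mul, abs_mul, Nat.abs_cast]
      apply mul_le_mul _ (hbm d hd1 _ hunit) (abs_nonneg _) (by positivity)
      calc (d : ℝ) * |(ArithmeticFunction.moebius (r / d) : ℝ)| ≤ d * 1 := by
            apply mul_le_mul_of_nonneg_left (hmu _) (by positivity)
        _ = d := mul_one _
    · rw [abs_of_nonneg (by positivity)]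
      calc (Nat.primeCounting y : ℝ) / (q : ℝ) * _ ≤ (x : ℝ) / (q : ℝ) * _ :=
            mul_le_mul_of_nonneg_right (by gcongr) hT
        _ = _ := by ring
  refine (sum_le_sum hone).trans ?_
  rw [sum_add_distrib, ← mul_sum]
  have hA := stg Q R hQ hR (fun d => |err y d (b d)|) (fun d => abs_nonneg _)
  have hB : ∑ q ∈ Ioc Q (2 * Q),
      (1 / (q : ℝ)) * ∑ r ∈ q.divisors.filter (fun r => R < r),
        (ArithmeticFunction.moebius r : ℝ) ^ 2 / (Nat.totient r : ℝ) ≤ 12 / Real.sqrt R :=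
    str_tail Q R hQ hR
  have hRx : Real.log (R : ℝ) ≤ L := by
    apply Real.log_le_log (by exact_mod_cast hR)
    calc (R : ℝ) ≤ (x : ℝ) ^ ρ := Nat.floor_le (by positivity)
      _ ≤ (x : ℝ) ^ (1 : ℝ) := Real.rpow_le_rpow_of_exponent_le hxr (by linarith only [hρ, hρ1])
      _ = x := Real.rpow_one _
  have hR0 : 0 ≤ Real.log (R : ℝ) := Real.log_nonneg (by exact_mod_cast hR)
  have hE0 : 0 ≤ ∑ d ∈ Icc 1 R, |err y d (b d)| := sum_nonneg fun _ _ => abs_nonneg _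
  have hLc : 0 < L ^ c := by positivity
  have hA2 : 3 * (1 + Real.log R) * ∑ d ∈ Icc 1 R, |err y d (b d)| ≤
      (x : ℝ) / L ^ c / 2 := by
    calc 3 * (1 + Real.log R) * ∑ d ∈ Icc 1 R, |err y d (b d)| ≤
        3 * (2 * L) * (x / L ^ (c + 2)) := by
          apply mul_le_mul _ he hE0 (by positivity)
          linarith only [hρ, hρ1, hL, hRx]
      _ = (x / L ^ c) * (6 / L) := by
          rw [pow_add]
          field_simp
          norm_num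
      _ ≤ (x / L ^ c) * (1 / 2) := by
          apply mul_le_mul_of_nonneg_left _ (by positivity)
          rw [div_le_div_iff₀ hL0 (by norm_num)]
          linarith only [hL]
      _ = _ := by ring
  have hB2 : 12 / Real.sqrt (R : ℝ) ≤ 1 / (2 * L ^ c) := by
    have hs : 0 < Real.sqrt (R : ℝ) := lt_of_lt_of_le (by positivity) hsq
    rw [div_le_div_iff₀ hs (by positivity)]
    linarith only [hsq]
  calc _ ≤ (x : ℝ) / L ^ c / 2 + (x : ℝ) * (12 / Real.sqrt R) :=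
        add_le_add (hA.trans hA2) (mul_le_mul_of_nonneg_left hB (by positivity))
    _ ≤ (x : ℝ) / L ^ c / 2 + (x : ℝ) * (1 / (2 * L ^ c)) := by
        gcongr
    _ = (x : ℝ) / L ^ c := by
        field_simp
        ring

end Pool.Agent.H65.MS

end

section

/-!
# MS Rg2: selections of residues, range `Q H ≥ x^(1+e)`

Take `ρ1 = min (ρ0 of sm_bound κ e) (1/50)`, `R = ⌊x^ρ1⌋` and return `ρ = ρ1/4`.
For `y ≤ x` let `f n = 1` if `n` is a prime `≤ y`, else `0`; `∑_{n ≤ x} f(n) uu R q a n = ∑_{p ∈ PX y} uu R q a p`.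
`|err y q a| ≤ |err y q a - ∑_p uu R q a p| + |∑_p uu R q a p|`.
First term: for every `q` let `s q` be an element of `(S q).filter (Coprime · q)` where `|err - ∑ uu|` is largest (`s q = 1` if there is none);
`∑_{a ∈ S q, (a,q)=1} |..| ≤ nb |..|_{a = s q}`, so by `unfR ρ1` (with `C`) the first terms contribute at most `nb x/(log x)^C`.
Second term: Cauchy-Schwarz over the at most `nb Q` pairs `(q, a)`, `a ∈ S q ⊆ Ioc a0 (a0+H)`, and `sm_bound` with `A = H`: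
`≤ (nb Q)^(1/2) (H x^2/Q x^(-ρ1/2))^(1/2) = x (nb H)^(1/2) x^(-ρ1/4)`.
-/

set_option autoImplicit false

namespace Pool.Agent.H65.MS

open Finset
open Pool.Agent.H91.EHA (err)
open Pool.Agent.H80.KF (uu PX)

/-- an element of the filtered set with the largest value -/
private theorem Rg2_sel (F : ℕ → ℤ → ℝ) (S : ℕ → Finset ℕ) (nb : ℕ) (hF : ∀ q a, 0 ≤ F q a)
    (hc : ∀ q, (S q).card ≤ nb) :
    ∃ s : ℕ → ℤ, (∀ q, IsCoprime (s q) (q : ℤ)) ∧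
      ∀ q, ∑ a ∈ (S q).filter (fun a => Nat.Coprime a q), F q (a : ℤ) ≤ nb * F q (s q) := by
  have h : ∀ q : ℕ, ∃ t : ℤ, IsCoprime t (q : ℤ) ∧
      ∑ a ∈ (S q).filter (fun a => Nat.Coprime a q), F q (a : ℤ) ≤ nb * F q t := by
    intro q
    rcases ((S q).filter (fun a => Nat.Coprime a q)).eq_empty_or_nonempty with h0 | h1
    · refine ⟨1, isCoprime_one_left, ?_⟩
      rw [h0, Finset.sum_empty]
      exact mul_nonneg (Nat.cast_nonneg _) (hF _ _)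
    · obtain ⟨a, ha, hmax⟩ := Finset.exists_max_image _ (fun a : ℕ => F q (a : ℤ)) h1
      refine ⟨(a : ℤ), ?_, ?_⟩
      · rw [Finset.mem_filter] at ha
        exact Nat.isCoprime_iff_coprime.mpr ha.2
      · calc ∑ b ∈ (S q).filter (fun a => Nat.Coprime a q), F q (b : ℤ)
            ≤ ∑ b ∈ (S q).filter (fun a => Nat.Coprime a q), F q (a : ℤ) :=
              Finset.sum_le_sum (fun b hb => hmax b hb)
          _ = (((S q).filter (fun a => Nat.Coprime a q)).card : ℝ) * F q (a : ℤ) := by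
              rw [Finset.sum_const, nsmul_eq_mul]
          _ ≤ nb * F q (a : ℤ) := by
              apply mul_le_mul_of_nonneg_right _ (hF _ _)
              exact_mod_cast (Finset.card_filter_le _ _).trans (hc q)
  choose s hs using h
  exact ⟨s, fun q => (hs q).1, fun q => (hs q).2⟩

/-- Cauchy-Schwarz over the pairs -/
private theorem Rg2_cs (G : ℕ → ℤ → ℝ) (S : ℕ → Finset ℕ) (nb Q H a0 : ℕ)
    (hS : ∀ q, S q ⊆ Ioc a0 (a0 + H)) (hc : ∀ q, (S q).card ≤ nb) :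
    (∑ q ∈ Ioc Q (2 * Q), ∑ a ∈ (S q).filter (fun a => Nat.Coprime a q), |G q (a : ℤ)|) ^ 2
      ≤ (nb * Q : ℝ) * ∑ q ∈ Ioc Q (2 * Q), ∑ a ∈ Ioc a0 (a0 + H), (G q (a : ℤ)) ^ 2 := by
  have h1 : ∑ q ∈ Ioc Q (2 * Q), ∑ a ∈ (S q).filter (fun a => Nat.Coprime a q), |G q (a : ℤ)|
      = ∑ p ∈ (Ioc Q (2 * Q)).sigma (fun q => (S q).filter (fun a => Nat.Coprime a q)),
          |G p.1 (p.2 : ℤ)| := by
    rw [Finset.sum_sigma]
  rw [h1]
  refine (sq_sum_le_card_mul_sum_sq).trans ?_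
  have h2 : ((((Ioc Q (2 * Q)).sigma (fun q => (S q).filter (fun a => Nat.Coprime a q))).card : ℕ) : ℝ)
      ≤ nb * Q := by
    have : ((Ioc Q (2 * Q)).sigma (fun q => (S q).filter (fun a => Nat.Coprime a q))).card
        ≤ nb * Q := by
      rw [Finset.card_sigma]
      calc ∑ q ∈ Ioc Q (2 * Q), ((S q).filter (fun a => Nat.Coprime a q)).card
          ≤ ∑ q ∈ Ioc Q (2 * Q), nb :=
            Finset.sum_le_sum (fun q _ => (Finset.card_filter_le _ _).trans (hc q))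
        _ = nb * Q := by
            rw [Finset.sum_const, Nat.card_Ioc, smul_eq_mul]
            have : 2 * Q - Q = Q := by omega
            rw [this, mul_comm]
    exact_mod_cast this
  have h3 : ∑ p ∈ (Ioc Q (2 * Q)).sigma (fun q => (S q).filter (fun a => Nat.Coprime a q)),
      |G p.1 (p.2 : ℤ)| ^ 2
      ≤ ∑ q ∈ Ioc Q (2 * Q), ∑ a ∈ Ioc a0 (a0 + H), (G q (a : ℤ)) ^ 2 := by
    rw [Finset.sum_sigma]
    apply Finset.sum_le_sum
    intro q _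
    simp only [sq_abs]
    apply Finset.sum_le_sum_of_subset_of_nonneg
    · exact (Finset.filter_subset _ _).trans (hS q)
    · intro i _ _
      positivity
  exact mul_le_mul h2 h3 (Finset.sum_nonneg fun i _ => by positivity) (by positivity)

theorem rg2 (κ e : ℝ) (hκ : 0 < κ) (he : 0 < e) : ∃ ρ : ℝ, 0 < ρ ∧ ∀ C : ℕ, ∃ x0 : ℕ, ∀ x : ℕ,
    x0 ≤ x → ∀ y Q H a0 nb : ℕ, y ≤ x → 1 ≤ Q → (Q : ℝ) ≤ (x : ℝ) ^ (1 - κ) →
      (x : ℝ) ^ (1 + e) ≤ Q * H → H ≤ x → a0 ≤ x →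
      ∀ S : ℕ → Finset ℕ, (∀ q, S q ⊆ Ioc a0 (a0 + H)) → (∀ q, (S q).card ≤ nb) →
      ∑ q ∈ Ioc Q (2 * Q), ∑ a ∈ (S q).filter (fun a => Nat.Coprime a q), |err y q (a : ZMod q)|
        ≤ nb * x / Real.log x ^ C + x * Real.sqrt (nb * H) * (x : ℝ) ^ (-ρ) := by
  obtain ⟨ρ0, hρ0, hsm⟩ := sm_bound κ e hκ he
  set ρ1 : ℝ := min ρ0 (1 / 50) with hρ1
  have hρ1pos : 0 < ρ1 := lt_min hρ0 (by norm_num)
  refine ⟨ρ1 / 4, by positivity, ?_⟩
  intro C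
  obtain ⟨x1, hx1⟩ := hsm ρ1 hρ1pos (min_le_left _ _)
  obtain ⟨x2, hx2⟩ := unfR ρ1 hρ1pos (min_le_right _ _) C
  refine ⟨max x1 (max x2 1), ?_⟩
  intro x hx y Q H a0 nb hy hQ hQx hQH hH ha0 S hS hc
  have hxx1 : x1 ≤ x := (le_max_left _ _).trans hx
  have hxx2 : x2 ≤ x := ((le_max_left _ _).trans (le_max_right _ _)).trans hx
  have hx1' : 1 ≤ x := ((le_max_right _ _).trans (le_max_right _ _)).trans hx
  set R : ℕ := ⌊(x : ℝ) ^ ρ1⌋₊ with hR
  set G : ℕ → ℤ → ℝ := fun q a => ∑ p ∈ PX y, uu R q a p with hG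
  set F : ℕ → ℤ → ℝ := fun q a => |err y q (a : ZMod q) - G q a| with hF
  obtain ⟨s, hs1, hs2⟩ := Rg2_sel F S nb (fun q a => abs_nonneg _) hc
  have hsel := hx2 x Q hxx2 hQ y hy s hs1
  -- first terms
  have hT1 : ∑ q ∈ Ioc Q (2 * Q), ∑ a ∈ (S q).filter (fun a => Nat.Coprime a q), F q (a : ℤ)
      ≤ nb * x / Real.log x ^ C := by
    calc ∑ q ∈ Ioc Q (2 * Q), ∑ a ∈ (S q).filter (fun a => Nat.Coprime a q), F q (a : ℤ)
        ≤ ∑ q ∈ Ioc Q (2 * Q), nb * F q (s q) := Finset.sum_le_sum (fun q _ => hs2 q)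
      _ = nb * ∑ q ∈ Ioc Q (2 * Q), F q (s q) := by rw [Finset.mul_sum]
      _ ≤ nb * (x / Real.log x ^ C) := mul_le_mul_of_nonneg_left hsel (Nat.cast_nonneg _)
      _ = nb * x / Real.log x ^ C := by ring
  -- second terms
  set f : ℕ → ℝ := fun n => if n ∈ PX y then 1 else 0 with hf
  have hPX : PX y ⊆ Icc 1 x := by
    intro p hp
    rw [PX, Finset.mem_filter, Finset.mem_Icc] at hp
    rw [Finset.mem_Icc]
    exact ⟨hp.1.1, hp.1.2.trans hy⟩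
  have hGf : ∀ (q : ℕ) (a : ℤ), ∑ n ∈ Icc 1 x, f n * uu R q a n = G q a := by
    intro q a
    simp only [hf, hG, ite_mul, one_mul, zero_mul]
    rw [← Finset.sum_filter]
    congr 1
    ext n
    rw [Finset.mem_filter]
    exact ⟨fun h => h.2, fun h => ⟨hPX h, h⟩⟩
  have hsm2 := hx1 x hxx1 f (fun n => by
      simp only [hf]; split_ifs <;> simp) (fun n hn => by
      simp only [hf]
      rw [if_neg]
      intro h
      have := Finset.mem_Icc.mp (hPX h)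
      omega) Q H a0 hQ hQx hQH hH ha0
  have hsm3 : ∑ q ∈ Ioc Q (2 * Q), ∑ a ∈ Ioc a0 (a0 + H), (G q (a : ℤ)) ^ 2
      ≤ H * (x : ℝ) ^ 2 / Q * (x : ℝ) ^ (-(ρ1 / 2)) := by
    refine le_trans (le_of_eq ?_) hsm2
    apply Finset.sum_congr rfl
    intro q _
    apply Finset.sum_congr rfl
    intro a _
    rw [← hGf q (a : ℤ)]
  have hcs := Rg2_cs G S nb Q H a0 hS hc
  have hxpos : (0 : ℝ) < x := by exact_mod_cast hx1'
  have hQpos : (0 : ℝ) < Q := by exact_mod_cast hQ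
  have hT2 : ∑ q ∈ Ioc Q (2 * Q), ∑ a ∈ (S q).filter (fun a => Nat.Coprime a q), |G q (a : ℤ)|
      ≤ x * Real.sqrt (nb * H) * (x : ℝ) ^ (-(ρ1 / 4)) := by
    refine (le_abs_self _).trans (abs_le_of_sq_le_sq ?_ (by positivity))
    refine hcs.trans ?_
    refine (mul_le_mul_of_nonneg_left hsm3 (by positivity)).trans (le_of_eq ?_)
    have h4 : (x : ℝ) ^ (-(ρ1 / 2)) = ((x : ℝ) ^ (-(ρ1 / 4))) ^ 2 := by
      rw [← Real.rpow_natCast, ← Real.rpow_mul hxpos.le]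
      congr 1
      push_cast
      ring
    rw [mul_pow, mul_pow, Real.sq_sqrt (by positivity), h4]
    field_simp
  calc ∑ q ∈ Ioc Q (2 * Q), ∑ a ∈ (S q).filter (fun a => Nat.Coprime a q), |err y q (a : ZMod q)|
      ≤ ∑ q ∈ Ioc Q (2 * Q), ∑ a ∈ (S q).filter (fun a => Nat.Coprime a q),
          (F q (a : ℤ) + |G q (a : ℤ)|) := by
        apply Finset.sum_le_sum
        intro q _
        apply Finset.sum_le_sum
        intro a _
        simp only [hF, Int.cast_natCast]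
        have := abs_add_le (err y q (a : ZMod q) - G q (a : ℤ)) (G q (a : ℤ))
        simpa using this
    _ = ∑ q ∈ Ioc Q (2 * Q), ∑ a ∈ (S q).filter (fun a => Nat.Coprime a q), F q (a : ℤ)
        + ∑ q ∈ Ioc Q (2 * Q), ∑ a ∈ (S q).filter (fun a => Nat.Coprime a q), |G q (a : ℤ)| := by
        rw [← Finset.sum_add_distrib]
        apply Finset.sum_congr rfl
        intro q _
        rw [Finset.sum_add_distrib]
    _ ≤ nb * x / Real.log x ^ C + x * Real.sqrt (nb * H) * (x : ℝ) ^ (-(ρ1 / 4)) :=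
        add_le_add hT1 hT2

end Pool.Agent.H65.MS

end

section

/-!
# MS Cmb: selections of residues, all moduli

`MM θ ε x H`: the moduli `q ≤ x^θ` with `q^2 ≤ H x^(1-ε)` or `x^(1+ε) ≤ q H`.
`sel_all`: `ε1 = min ε (min (1/2) (1-θ))`; `MM θ ε ⊆ MM θ ε1`.  Let `ρ` be from `rg2 (κ = 1-θ) (e = ε1/2)`, `c = min ρ (ε1/100)`.
* the `q` with `q^2 ≤ H x^(1-ε1)`: `rg1 θ ε1` with `C+1` (`H ≤ nb x^c`);
* the `q ≤ x^θ` with `x^(1+ε1) ≤ q H` lie in the blocks `(2^i, 2^(i+1)]`, `i ≤ log_2 x` (`q = 1` is impossible because `H ≤ x`); for a block which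
  contains such a `q`: `Q = 2^i < q ≤ x^θ = x^(1-κ)` and `Q H ≥ q H/2 ≥ x^(1+ε1)/2 ≥ x^(1+ε1/2)`: `rg2` with `C + 2`.  Number of blocks `≤ 2 log x + 1`.
  `x (nb H)^(1/2) x^(-ρ) ≤ nb x^(1 + c/2 - ρ) ≤ nb x^(1-ρ/2)`, since `H ≤ nb x^c`.
`MM_all`: for `H ≥ x^(1/3+ε)` every `q ≤ x^θ` belongs to `MM θ ε x H`: otherwise `q^2 > H x^(1-ε)` and `q < x^(1+ε)/H`, so
`x^(2+2ε)/H^2 > H x^(1-ε)`, `H^3 < x^(1+3ε)`.
-/

set_option autoImplicit false

namespace Pool.Agent.H65.MS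

open Finset
open Pool.Agent.H91.EHA (err)

/-- the moduli `q ≤ x^θ` with `q^2 ≤ H x^(1-ε)` or `x^(1+ε) ≤ q H` -/
noncomputable def MM (θ ε : ℝ) (x H : ℕ) : Finset ℕ :=
  (Icc 1 ⌊(x : ℝ) ^ θ⌋₊).filter
    (fun q : ℕ => (q : ℝ) ^ 2 ≤ H * (x : ℝ) ^ (1 - ε) ∨ (x : ℝ) ^ (1 + ε) ≤ q * H)

private theorem Cmb_cube (ε x H : ℝ) (hx : 1 ≤ x) (hH : x ^ (1 / 3 + ε) ≤ H) (q : ℝ) (hq : 0 ≤ q)
    (h1 : H * x ^ (1 - ε) < q ^ 2) (h2 : q * H < x ^ (1 + ε)) : False := by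
  have hx0 : 0 < x := by linarith
  have hp : 0 < x ^ (1 / 3 + ε) := Real.rpow_pos_of_pos hx0 _
  have hH0 : 0 < H := hp.trans_le hH
  have e1 : (q * H) ^ 2 < (x ^ (1 + ε)) ^ 2 :=
    pow_lt_pow_left₀ h2 (by positivity) (by norm_num)
  have e2 : H ^ 2 * (H * x ^ (1 - ε)) < (q * H) ^ 2 := by
    calc H ^ 2 * (H * x ^ (1 - ε)) < H ^ 2 * q ^ 2 := mul_lt_mul_of_pos_left h1 (by positivity)
      _ = (q * H) ^ 2 := by ring
  have e3 : (x ^ (1 / 3 + ε)) ^ 3 ≤ H ^ 3 := pow_le_pow_left₀ hp.le hH 3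
  have e4 : (x ^ (1 / 3 + ε)) ^ 3 * x ^ (1 - ε) = (x ^ (1 + ε)) ^ 2 := by
    rw [← Real.rpow_natCast, ← Real.rpow_natCast, ← Real.rpow_mul hx0.le, ← Real.rpow_mul hx0.le,
      ← Real.rpow_add hx0]
    congr 1
    push_cast
    ring
  have hp2 : 0 < x ^ (1 - ε) := Real.rpow_pos_of_pos hx0 _
  have e5 : (x ^ (1 / 3 + ε)) ^ 3 * x ^ (1 - ε) ≤ H ^ 3 * x ^ (1 - ε) :=
    mul_le_mul_of_nonneg_right e3 hp2.le
  have e6 : H ^ 3 * x ^ (1 - ε) = H ^ 2 * (H * x ^ (1 - ε)) := by ring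
  linarith

theorem MM_all (θ ε : ℝ) (hε : 0 < ε) (x H : ℕ) (hx : 1 ≤ x) (hH : (x : ℝ) ^ (1 / 3 + ε) ≤ H) :
    MM θ ε x H = Icc 1 ⌊(x : ℝ) ^ θ⌋₊ := by
  unfold MM
  refine filter_true_of_mem fun q hq => ?_
  by_contra hcon
  push Not at hcon
  exact Cmb_cube ε x H (by exact_mod_cast hx) hH q (Nat.cast_nonneg _) hcon.1 hcon.2

private theorem Cmb_num (C : ℕ) (ρ ε1 : ℝ) (hρ : 0 < ρ) (hε1 : 0 < ε1) : ∃ x0 : ℕ, ∀ x : ℕ,
    x0 ≤ x → 3 ≤ x ∧ 5 ≤ Real.log x ∧ 3 * Real.log x ^ (C + 2) ≤ (x : ℝ) ^ (ρ / 2) ∧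
      (2 : ℝ) ≤ (x : ℝ) ^ (ε1 / 2) := by
  have h1 : ∀ᶠ x : ℝ in Filter.atTop, 3 * Real.log x ^ (C + 2) ≤ x ^ (ρ / 2) := by
    have := (isLittleO_log_rpow_rpow_atTop ((C + 2 : ℕ) : ℝ) (show 0 < ρ / 2 by linarith)).def
      (show (0 : ℝ) < 1 / 3 by norm_num)
    filter_upwards [this, Filter.eventually_ge_atTop 1] with x hx hx1
    rw [Real.norm_of_nonneg (Real.rpow_nonneg (Real.log_nonneg hx1) _),
      Real.norm_of_nonneg (Real.rpow_nonneg (by linarith) _), Real.rpow_natCast] at hx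
    linarith
  have h2 : ∀ᶠ x : ℝ in Filter.atTop, 5 ≤ Real.log x :=
    Real.tendsto_log_atTop.eventually_ge_atTop 5
  have h3 : ∀ᶠ x : ℝ in Filter.atTop, (3 : ℝ) ≤ x := Filter.eventually_ge_atTop 3
  have h4 : ∀ᶠ x : ℝ in Filter.atTop, 2 ≤ x ^ (ε1 / 2) :=
    (tendsto_rpow_atTop (show 0 < ε1 / 2 by linarith)).eventually_ge_atTop 2
  obtain ⟨x0, hx0⟩ := Filter.eventually_atTop.1
    ((tendsto_natCast_atTop_atTop (R := ℝ)).eventually (h1.and (h2.and (h3.and h4))))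
  refine ⟨x0, fun x hx => ?_⟩
  obtain ⟨a1, a2, a3, a4⟩ := hx0 x hx
  exact ⟨by exact_mod_cast a3, a2, a1, a4⟩

private theorem Cmb_sqrt (x nb H c ρ : ℝ) (hx : 1 ≤ x) (hnb : 1 ≤ nb) (hH : H ≤ nb * x ^ c)
    (hc : c ≤ ρ) : x * Real.sqrt (nb * H) * x ^ (-ρ) ≤ nb * x * x ^ (-(ρ / 2)) := by
  have hx0 : 0 < x := by linarith
  have e1 : Real.sqrt (nb * H) ≤ nb * x ^ (c / 2) := by
    rw [show nb * x ^ (c / 2) = Real.sqrt ((nb * x ^ (c / 2)) ^ 2) from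
      (Real.sqrt_sq (by positivity)).symm]
    refine Real.sqrt_le_sqrt ?_
    have : (nb * x ^ (c / 2)) ^ 2 = nb * (nb * x ^ c) := by
      rw [mul_pow, ← Real.rpow_natCast (x ^ (c / 2)), ← Real.rpow_mul hx0.le]
      have : c / 2 * ((2 : ℕ) : ℝ) = c := by push_cast; ring
      rw [this]
      ring
    rw [this]
    exact mul_le_mul_of_nonneg_left hH (by linarith)
  have e2 : x ^ (c / 2) * x ^ (-ρ) ≤ x ^ (-(ρ / 2)) := by
    rw [← Real.rpow_add hx0]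
    exact Real.rpow_le_rpow_of_exponent_le hx (by linarith)
  calc x * Real.sqrt (nb * H) * x ^ (-ρ) ≤ x * (nb * x ^ (c / 2)) * x ^ (-ρ) := by gcongr
    _ = nb * x * (x ^ (c / 2) * x ^ (-ρ)) := by ring
    _ ≤ nb * x * x ^ (-(ρ / 2)) := by gcongr

private theorem Cmb_fin (C : ℕ) (x nb L ρ N : ℝ) (hx : 3 ≤ x) (hnb : 1 ≤ nb) (hL : 5 ≤ L)
    (hLx : 3 * L ^ (C + 2) ≤ x ^ (ρ / 2)) (_hN0 : 0 ≤ N) (hN : N ≤ 2 * L + 1) :
    nb * x / L ^ (C + 1) + N * (nb * x / L ^ (C + 2) + nb * x * x ^ (-(ρ / 2))) ≤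
      nb * x / L ^ C := by
  have hx0 : 0 < x := by linarith
  have hL0 : 0 < L := by linarith
  have hN3 : N ≤ 3 * L := by linarith
  have e1 : x ^ (-(ρ / 2)) ≤ 1 / (3 * L ^ (C + 2)) := by
    rw [Real.rpow_neg hx0.le, ← one_div]
    exact one_div_le_one_div_of_le (by positivity) hLx
  have e2 : nb * x / L ^ (C + 2) + nb * x * x ^ (-(ρ / 2)) ≤ (4 / 3) * (nb * x / L ^ (C + 2)) := by
    have : nb * x * x ^ (-(ρ / 2)) ≤ nb * x * (1 / (3 * L ^ (C + 2))) := by gcongr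
    have e3 : nb * x * (1 / (3 * L ^ (C + 2))) = (1 / 3) * (nb * x / L ^ (C + 2)) := by
      field_simp
    rw [e3] at this
    linarith
  have e4 : N * (nb * x / L ^ (C + 2) + nb * x * x ^ (-(ρ / 2))) ≤
      (3 * L) * ((4 / 3) * (nb * x / L ^ (C + 2))) := by
    have : 0 ≤ nb * x / L ^ (C + 2) + nb * x * x ^ (-(ρ / 2)) := by positivity
    exact mul_le_mul hN3 e2 this (by positivity)
  have e5 : (3 * L) * ((4 / 3) * (nb * x / L ^ (C + 2))) = 4 * (nb * x / L ^ (C + 1)) := by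
    have : L ^ (C + 2) = L ^ (C + 1) * L := by rw [pow_succ]
    rw [this]
    field_simp
  have e6 : nb * x / L ^ C = L * (nb * x / L ^ (C + 1)) := by
    rw [pow_succ]
    field_simp
  rw [e6]
  have e7 : 0 ≤ nb * x / L ^ (C + 1) := by positivity
  have e8 : 5 * (nb * x / L ^ (C + 1)) ≤ L * (nb * x / L ^ (C + 1)) :=
    mul_le_mul_of_nonneg_right hL e7
  linarith

private theorem Cmb_log (x : ℕ) (hx : 3 ≤ x) : ((Nat.log 2 x + 1 : ℕ) : ℝ) ≤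
    2 * Real.log x + 1 := by
  have hx0 : (0 : ℝ) < x := by positivity
  have h1 : (2 : ℝ) ^ Nat.log 2 x ≤ x := by exact_mod_cast Nat.pow_log_le_self 2 (by omega)
  have h2 := Real.log_le_log (by positivity) h1
  rw [Real.log_pow] at h2
  have h3 : (1 / 2 : ℝ) ≤ Real.log 2 := by linarith [Real.log_two_gt_d9]
  have h4 : (Nat.log 2 x : ℝ) * (1 / 2) ≤ (Nat.log 2 x : ℝ) * Real.log 2 :=
    mul_le_mul_of_nonneg_left h3 (Nat.cast_nonneg _)
  push_cast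
  linarith

/-- a sum over large moduli as a sum over dyadic blocks -/
private theorem Cmb_dyadic (x : ℕ) (T : Finset ℕ) (hT : ∀ q ∈ T, 2 ≤ q ∧ q ≤ x) (f : ℕ → ℝ)
    (hf : ∀ q, 0 ≤ f q) (Z : ℝ) (hZ0 : 0 ≤ Z)
    (hZ : ∀ i : ℕ, (∃ q ∈ T, 2 ^ i < q ∧ q ≤ 2 * 2 ^ i) →
      ∑ q ∈ Ioc (2 ^ i) (2 * 2 ^ i), f q ≤ Z) :
    ∑ q ∈ T, f q ≤ ((Nat.log 2 x + 1 : ℕ) : ℝ) * Z := by
  classical
  set g : ℕ → ℕ := fun q => Nat.log 2 (q - 1) with hg
  have hgr : ∀ q ∈ T, g q ∈ range (Nat.log 2 x + 1) := by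
    intro q hq
    rw [mem_range]
    have := Nat.log_mono_right (b := 2) (show q - 1 ≤ x by have := (hT q hq).2; omega)
    rw [hg]
    show Nat.log 2 (q - 1) < Nat.log 2 x + 1
    omega
  have hgb : ∀ q ∈ T, 2 ^ g q < q ∧ q ≤ 2 * 2 ^ g q := by
    intro q hq
    have h2 := (hT q hq).1
    have h3 := Nat.pow_log_le_self 2 (show q - 1 ≠ 0 by omega)
    have h4 := Nat.lt_pow_succ_log_self (b := 2) (by norm_num) (q - 1)
    rw [pow_succ] at h4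
    constructor
    · show 2 ^ Nat.log 2 (q - 1) < q
      omega
    · show q ≤ 2 * 2 ^ Nat.log 2 (q - 1)
      omega
  rw [← sum_fiberwise_of_maps_to hgr]
  calc ∑ i ∈ range (Nat.log 2 x + 1), ∑ q ∈ T with g q = i, f q
      ≤ ∑ i ∈ range (Nat.log 2 x + 1), Z := by
        refine sum_le_sum fun i _ => ?_
        by_cases hi : ∃ q ∈ T, 2 ^ i < q ∧ q ≤ 2 * 2 ^ i
        · refine le_trans (sum_le_sum_of_subset_of_nonneg ?_ fun q _ _ => hf q) (hZ i hi)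
          intro q hq
          obtain ⟨h1, h2⟩ := mem_filter.1 hq
          have := hgb q h1
          rw [h2] at this
          exact mem_Ioc.2 this
        · have : T.filter (fun q => g q = i) = ∅ := by
            refine filter_eq_empty_iff.2 fun q hq h2 => hi ⟨q, hq, ?_⟩
            have := hgb q hq
            rwa [h2] at this
          rw [this, sum_empty]
          exact hZ0
    _ = ((Nat.log 2 x + 1 : ℕ) : ℝ) * Z := by rw [sum_const, card_range, nsmul_eq_mul]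

private theorem Cmb_block (x ε1 κ q Q H : ℝ) (hx : 1 ≤ x) (hq : Q < q) (hq2 : q ≤ 2 * Q)
    (hqθ : q ≤ x ^ (1 - κ)) (hqH : x ^ (1 + ε1) ≤ q * H) (hH : 0 ≤ H)
    (h2 : 2 ≤ x ^ (ε1 / 2)) : Q ≤ x ^ (1 - κ) ∧ x ^ (1 + ε1 / 2) ≤ Q * H := by
  refine ⟨by linarith, ?_⟩
  have hx0 : 0 < x := by linarith
  have e1 : x ^ (1 + ε1) = x ^ (1 + ε1 / 2) * x ^ (ε1 / 2) := by
    rw [← Real.rpow_add hx0]
    congr 1
    ring
  have e2 : q * H ≤ 2 * (Q * H) := by nlinarith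
  have e3 : x ^ (1 + ε1 / 2) * 2 ≤ x ^ (1 + ε1 / 2) * x ^ (ε1 / 2) :=
    mul_le_mul_of_nonneg_left h2 (Real.rpow_nonneg hx0.le _)
  linarith

private theorem Cmb_one (x ε1 q H : ℝ) (hx : 1 < x) (hε1 : 0 < ε1) (hH : H ≤ x)
    (hqH : x ^ (1 + ε1) ≤ q * H) (hq : q ≤ 1) (hH0 : 0 ≤ H) : False := by
  have e1 : x ^ (1 : ℝ) < x ^ (1 + ε1) := Real.rpow_lt_rpow_of_exponent_lt hx (by linarith)
  rw [Real.rpow_one] at e1
  have e2 : q * H ≤ 1 * H := mul_le_mul_of_nonneg_right hq hH0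
  linarith

theorem sel_all (θ ε : ℝ) (hθ : θ < 1) (hε : 0 < ε) : ∃ c : ℝ, 0 < c ∧ ∀ C : ℕ, ∃ x0 : ℕ,
    ∀ x : ℕ, x0 ≤ x → ∀ y H a0 nb : ℕ, y ≤ x → a0 ≤ x → H ≤ x → 1 ≤ nb →
      (H : ℝ) ≤ nb * (x : ℝ) ^ c →
      ∀ S : ℕ → Finset ℕ, (∀ q, S q ⊆ Ioc a0 (a0 + H)) → (∀ q, (S q).card ≤ nb) →
      ∑ q ∈ MM θ ε x H, ∑ a ∈ (S q).filter (fun a => Nat.Coprime a q), |err y q (a : ZMod q)|
          ≤ nb * x / Real.log x ^ C := by
  classical
  set ε1 : ℝ := min ε (min (1 / 2) (1 - θ)) with hε1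
  have h10 : 0 < ε1 := lt_min hε (lt_min (by norm_num) (by linarith))
  have h11 : ε1 ≤ ε := min_le_left _ _
  have h12 : ε1 ≤ 1 / 2 := (min_le_right _ _).trans (min_le_left _ _)
  have h13 : ε1 ≤ 1 - θ := (min_le_right _ _).trans (min_le_right _ _)
  obtain ⟨ρ, hρ, hrg2⟩ := rg2 (1 - θ) (ε1 / 2) (by linarith) (by linarith)
  refine ⟨min ρ (ε1 / 100), lt_min hρ (by linarith), fun C => ?_⟩
  obtain ⟨x1, hx1⟩ := rg1 θ ε1 hθ h10 h12 h13 (C + 1)
  obtain ⟨x2, hx2⟩ := hrg2 (C + 2)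
  obtain ⟨x3, hx3⟩ := Cmb_num C ρ ε1 hρ h10
  refine ⟨max x1 (max x2 x3), fun x hx y H a0 nb hy ha0 hHx hnb hH S hS1 hS2 => ?_⟩
  have hx1' : x1 ≤ x := (le_max_left _ _).trans hx
  have hx2' : x2 ≤ x := ((le_max_left _ _).trans (le_max_right _ _)).trans hx
  have hx3' : x3 ≤ x := ((le_max_right _ _).trans (le_max_right _ _)).trans hx
  obtain ⟨b1, b2, b3, b4⟩ := hx3 x hx3'
  have hxr : (3 : ℝ) ≤ x := by exact_mod_cast b1
  have hx1r : (1 : ℝ) ≤ x := by linarith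
  have hnbr : (1 : ℝ) ≤ nb := by exact_mod_cast hnb
  set f : ℕ → ℝ := fun q => ∑ a ∈ (S q).filter (fun a => Nat.Coprime a q),
    |err y q (a : ZMod q)| with hf
  have hf0 : ∀ q, 0 ≤ f q := fun q => sum_nonneg fun a _ => abs_nonneg _
  set M1 := (Icc 1 ⌊(x : ℝ) ^ θ⌋₊).filter (fun q : ℕ => (q : ℝ) ^ 2 ≤ H * (x : ℝ) ^ (1 - ε1))
    with hM1
  set M2 := (Icc 1 ⌊(x : ℝ) ^ θ⌋₊).filter (fun q : ℕ => (x : ℝ) ^ (1 + ε1) ≤ q * H) with hM2
  have hsub : MM θ ε x H ⊆ M1 ∪ M2 := by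
    intro q hq
    obtain ⟨hq1, hq2⟩ := mem_filter.1 hq
    rw [mem_union]
    rcases hq2 with hq2 | hq2
    · left
      refine mem_filter.2 ⟨hq1, hq2.trans ?_⟩
      have := Real.rpow_le_rpow_of_exponent_le hx1r (show 1 - ε ≤ 1 - ε1 by linarith)
      exact mul_le_mul_of_nonneg_left this (Nat.cast_nonneg _)
    · right
      refine mem_filter.2 ⟨hq1, le_trans ?_ hq2⟩
      exact Real.rpow_le_rpow_of_exponent_le hx1r (by linarith)
  have hqx : ∀ q ∈ Icc 1 ⌊(x : ℝ) ^ θ⌋₊, (q : ℝ) ≤ (x : ℝ) ^ θ := by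
    intro q hq
    exact (Nat.le_floor_iff (Real.rpow_nonneg (by linarith) _)).1 (mem_Icc.1 hq).2
  have hsum1 : ∑ q ∈ M1, f q ≤ nb * x / Real.log x ^ (C + 1) := by
    refine hx1 x hx1' y H a0 nb hy hnb (hH.trans ?_) S hS1 hS2
    have := Real.rpow_le_rpow_of_exponent_le hx1r (min_le_right ρ (ε1 / 100))
    exact mul_le_mul_of_nonneg_left this (Nat.cast_nonneg _)
  have hsum2 : ∑ q ∈ M2, f q ≤ ((Nat.log 2 x + 1 : ℕ) : ℝ) *
      (nb * x / Real.log x ^ (C + 2) + nb * x * (x : ℝ) ^ (-(ρ / 2))) := by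
    refine Cmb_dyadic x M2 ?_ f hf0 _ (by positivity) ?_
    · intro q hq
      obtain ⟨hq1, hq2⟩ := mem_filter.1 hq
      constructor
      · by_contra hcon
        push Not at hcon
        have hq3 : (q : ℝ) ≤ 1 := by exact_mod_cast (by omega : q ≤ 1)
        exact Cmb_one x ε1 q H (by linarith) h10 (by exact_mod_cast hHx) hq2 hq3
          (Nat.cast_nonneg _)
      · have h5 := hqx q hq1
        have h6 : (x : ℝ) ^ θ ≤ (x : ℝ) ^ (1 : ℝ) :=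
          Real.rpow_le_rpow_of_exponent_le hx1r hθ.le
        rw [Real.rpow_one] at h6
        exact_mod_cast h5.trans h6
    · rintro i ⟨q, hq, hqi1, hqi2⟩
      obtain ⟨hq1, hq2⟩ := mem_filter.1 hq
      have hqi1' : (((2 ^ i : ℕ)) : ℝ) < q := by exact_mod_cast hqi1
      have hqi2' : (q : ℝ) ≤ 2 * ((2 ^ i : ℕ) : ℝ) := by exact_mod_cast hqi2
      obtain ⟨h5, h6⟩ := Cmb_block x ε1 (1 - θ) q ((2 ^ i : ℕ) : ℝ) H hx1r hqi1' hqi2'
        (by rw [sub_sub_cancel]; exact hqx q hq1) hq2 (Nat.cast_nonneg _) b4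
      have h7 := hx2 x hx2' y (2 ^ i) H a0 nb hy Nat.one_le_two_pow h5 h6 hHx ha0 S hS1 hS2
      refine h7.trans (add_le_add le_rfl ?_)
      exact Cmb_sqrt x nb H _ ρ hx1r hnbr hH (min_le_left _ _)
  have hlog := Cmb_log x b1
  have hfin := Cmb_fin C x nb (Real.log x) ρ ((Nat.log 2 x + 1 : ℕ) : ℝ) hxr hnbr b2 b3
    (Nat.cast_nonneg _) hlog
  calc ∑ q ∈ MM θ ε x H, f q ≤ ∑ q ∈ M1 ∪ M2, f q :=
        sum_le_sum_of_subset_of_nonneg hsub fun q _ _ => hf0 q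
    _ ≤ ∑ q ∈ M1, f q + ∑ q ∈ M2, f q := by
        rw [← sum_union_inter]
        exact le_add_of_nonneg_right (sum_nonneg fun q _ => hf0 q)
    _ ≤ _ := (add_le_add hsum1 hsum2).trans hfin

end Pool.Agent.H65.MS

end
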