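import Pool.Agent.H94.EH.M20
import Pool.Agent.H94.EH.M40
import Pool.Agent.H94.EH.M41

/-! The parts of this file: H91.L1.PiS, H91.L1.PsiS, H88.PSI.Dy, H88.PSI.Kap, H88.PSI.Conv, H88.PSI.Pars, H88.PSI.HB, H97.VK.PropB, H76.VKT.PropB, H97.VK.SmTwo. -/

section

/-!
# L1 PiS: from `ψ` to `π`, `y` depending on `(q,a)`, selections of residues (adapted from `PiY` by helper87)

As in `Pool/Agent/H91/EHA/FinA.lean` (`err_of_psi`; make its private lemmas available by copying them).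
`T(t;q,a) = ∑_{p ≤ t, p ≡ a (q)} log p - (1/φ(q)) ∑_{p ≤ t} log p`; Abel summation: for every `y ≤ x`
`err y q a = T(y)/log y + ∑_{t=2}^{y-1} T(t)(1/log t - 1/log(t+1))` (`y ≥ 2`; `err = 0` for `y ≤ 1`), hence `|err y q a| ≤ (2/log 2) |T(t*;q,a)|` where
`t* = t*(q,a) ≤ x` maximizes `|T(t;q,a)|`, `t ≤ x` (the coefficients are `≥ 0` with sum `1/log 2`).
`|T(t;q,a)| ≤ |psiA t q a - t/φ(q)| + |ψ(t) - t|/φ(q) + PP(q,a) + PP/φ(q)`, `PP(q,a)` the sum of `Λ(n)` over the prime powers `n = p^j ≤ x`, `j ≥ 2`,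
`n ≡ a (q)`, `PP` the same without congruence, `PP ≤ √x L²`; the hypothesis `h1` is applied with `y := t*`.
`∑_{q,a} PP(q,a)`: for each prime power `n` the number of `(q,a)` with `q | n - a`: for `a ≠ n` at most `τ(|n-a|) ≤ C x^(1/4)`, for `a = n` (one `a`) at most `Q`:
total `≤ √x L² C x^(1/4) H + Q H L` (prime powers in `(a0, a0+H]`: at most `H`, weight `≤ L`).  `Q ≤ x/L^(c+5)`.
-/

set_option autoImplicit false

namespace Pool.Agent.H91.L1

open Finset
open Pool.Agent.H91.EHA (Lam lamR hR psiA err)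

/-! ### Abel summation -/

private theorem piS_abel (g : ℕ → ℝ) (h1 : g 1 = 0) (x : ℕ) (hx : 2 ≤ x) :
    ∑ n ∈ Icc 1 x, g n = (∑ n ∈ Icc 1 x, g n * Real.log n) / Real.log x +
      ∑ t ∈ Ico 2 x, (∑ n ∈ Icc 1 t, g n * Real.log n) *
        (1 / Real.log t - 1 / Real.log ((t + 1 : ℕ) : ℝ)) := by
  induction x, hx using Nat.le_induction with
  | base =>
    have hl : Real.log ((2 : ℕ) : ℝ) ≠ 0 := (Real.log_pos (by norm_num)).ne'
    have e1 : Icc 1 2 = ({1, 2} : Finset ℕ) := by decide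
    rw [Ico_self, sum_empty, add_zero, e1, sum_pair (by norm_num), sum_pair (by norm_num), h1,
      zero_mul, zero_add, zero_add, mul_div_assoc, div_self hl, mul_one]
  | succ x hx ih =>
    have hl : Real.log (((x + 1 : ℕ)) : ℝ) ≠ 0 := by
      apply (Real.log_pos _).ne'
      exact_mod_cast (by omega : 1 < x + 1)
    have hl' : Real.log (x : ℝ) ≠ 0 := by
      apply (Real.log_pos _).ne'
      exact_mod_cast (by omega : 1 < x)
    rw [sum_Icc_succ_top (by omega), sum_Icc_succ_top (by omega), sum_Ico_succ_top hx, ih]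
    field_simp
    ring

private theorem piS_tele (x : ℕ) (hx : 2 ≤ x) :
    1 / Real.log x + ∑ t ∈ Ico 2 x, (1 / Real.log t - 1 / Real.log ((t + 1 : ℕ) : ℝ)) =
      1 / Real.log 2 := by
  induction x, hx using Nat.le_induction with
  | base => simp
  | succ x hx ih =>
    rw [sum_Ico_succ_top hx]
    linarith only [ih]

/-! ### The functions -/

/-- the weight -/
private noncomputable def piS_g (q a n : ℕ) : ℝ :=
  (if n.Prime ∧ n ≡ a [MOD q] then 1 else 0) - (if n.Prime then 1 else 0) / (q.totient : ℝ)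

/-- `Lam` on the numbers which are not prime -/
private noncomputable def piS_L (n : ℕ) : ℝ := if n.Prime then 0 else Lam n

/-- prime powers in the class -/
private noncomputable def piS_pa (t q a : ℕ) : ℝ :=
  ∑ n ∈ Icc 1 t, piS_L n * if n ≡ a [MOD q] then 1 else 0

/-- prime powers -/
private noncomputable def piS_pp (t : ℕ) : ℝ := ∑ n ∈ Icc 1 t, piS_L n

private theorem piS_Lam_nonneg (n : ℕ) : 0 ≤ Lam n := ArithmeticFunction.vonMangoldt_nonneg

private theorem piS_L_nonneg (n : ℕ) : 0 ≤ piS_L n := by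
  unfold piS_L
  split_ifs
  · exact le_rfl
  · exact piS_Lam_nonneg n

private theorem piS_L_le (n : ℕ) (hn : 1 ≤ n) : piS_L n ≤ Real.log n := by
  unfold piS_L
  split_ifs
  · exact Real.log_nonneg (by exact_mod_cast hn)
  · exact ArithmeticFunction.vonMangoldt_le_log

private theorem piS_err (x q a : ℕ) :
    err x q (a : ZMod q) = ∑ n ∈ Icc 1 x, piS_g q a n := by
  unfold err piS_g
  rw [sum_sub_distrib, ← sum_div]
  congr 1
  · rw [card_filter, Nat.cast_sum]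
    refine sum_congr rfl fun n _ => ?_
    by_cases h : n.Prime ∧ n ≡ a [MOD q]
    · rw [if_pos h, if_pos ⟨h.1, (ZMod.natCast_eq_natCast_iff n a q).2 h.2⟩, Nat.cast_one]
    · rw [if_neg h, if_neg, Nat.cast_zero]
      rintro ⟨h1, h2⟩
      exact h ⟨h1, (ZMod.natCast_eq_natCast_iff n a q).1 h2⟩
  · congr 1
    have h1 : Nat.primeCounting x = ((Icc 1 x).filter Nat.Prime).card := by
      rw [Nat.primeCounting, Nat.primeCounting', Nat.count_eq_card_filter_range]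
      congr 1
      ext p
      simp only [mem_filter, mem_Icc, mem_range]
      constructor
      · rintro ⟨h, hp⟩
        exact ⟨⟨hp.one_lt.le, by omega⟩, hp⟩
      · rintro ⟨⟨_, h⟩, hp⟩
        exact ⟨by omega, hp⟩
    rw [h1, card_filter, Nat.cast_sum]
    refine sum_congr rfl fun n _ => ?_
    split_ifs <;> simp

private theorem piS_T (t q a : ℕ) :
    ∑ n ∈ Icc 1 t, piS_g q a n * Real.log n =
      (psiA t q a - t / (q.totient : ℝ)) - piS_pa t q a +
        (t - ∑ n ∈ Icc 1 t, Lam n) / (q.totient : ℝ) + piS_pp t / (q.totient : ℝ) := by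
  have h1 : ∑ n ∈ Icc 1 t, piS_g q a n * Real.log n =
      ∑ n ∈ Icc 1 t, ((if n ≡ a [MOD q] then Lam n else 0) -
        (piS_L n * if n ≡ a [MOD q] then 1 else 0) - Lam n / (q.totient : ℝ) +
        piS_L n / (q.totient : ℝ)) := by
    refine sum_congr rfl fun n _ => ?_
    unfold piS_g piS_L
    by_cases hp : n.Prime
    · have hL : Lam n = Real.log n := ArithmeticFunction.vonMangoldt_apply_prime hp
      rw [hL]
      by_cases ha : n ≡ a [MOD q]
      · simp [hp, ha]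
        ring
      · simp [hp, ha]
        ring
    · by_cases ha : n ≡ a [MOD q]
      · simp [hp, ha]
      · simp [hp, ha]
  rw [h1, sum_add_distrib, sum_sub_distrib, sum_sub_distrib, ← sum_div, ← sum_div]
  unfold psiA piS_pa piS_pp
  rw [sum_filter]
  ring

private theorem piS_abs (t q a : ℕ) :
    |∑ n ∈ Icc 1 t, piS_g q a n * Real.log n| ≤
      |psiA t q a - t / (q.totient : ℝ)| + piS_pa t q a +
        (|(∑ n ∈ Icc 1 t, Lam n) - t| + piS_pp t) * (1 / (q.totient : ℝ)) := by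
  have hpa : 0 ≤ piS_pa t q a := sum_nonneg fun n _ =>
    mul_nonneg (piS_L_nonneg n) (by split_ifs <;> norm_num)
  have hpp : 0 ≤ piS_pp t := sum_nonneg fun n _ => piS_L_nonneg n
  have hq : 0 ≤ 1 / (q.totient : ℝ) := by positivity
  rw [piS_T]
  have h1 : (t - ∑ n ∈ Icc 1 t, Lam n) / (q.totient : ℝ) =
      (t - ∑ n ∈ Icc 1 t, Lam n) * (1 / (q.totient : ℝ)) := by ring
  have h2 : piS_pp t / (q.totient : ℝ) = piS_pp t * (1 / (q.totient : ℝ)) := by ring
  rw [h1, h2]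
  have h3 : |(t - ∑ n ∈ Icc 1 t, Lam n) * (1 / (q.totient : ℝ))| =
      |(∑ n ∈ Icc 1 t, Lam n) - t| * (1 / (q.totient : ℝ)) := by
    rw [abs_mul, abs_of_nonneg hq, abs_sub_comm]
  have h4 : 0 ≤ piS_pp t * (1 / (q.totient : ℝ)) := mul_nonneg hpp hq
  have h5 := neg_abs_le (psiA t q a - t / (q.totient : ℝ))
  have h6 := le_abs_self (psiA t q a - t / (q.totient : ℝ))
  have h7 := neg_abs_le ((t - ∑ n ∈ Icc 1 t, Lam n) * (1 / (q.totient : ℝ)))
  have h8 := le_abs_self ((t - ∑ n ∈ Icc 1 t, Lam n) * (1 / (q.totient : ℝ)))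
  rw [h3] at h7 h8
  rw [abs_le]
  constructor <;> nlinarith only [h4, h5, h7, hpa, h6, h8]

/-! ### The prime powers -/

private theorem piS_pp_le (t x : ℕ) (htx : t ≤ x) (hx : 1 ≤ x) :
    piS_pp t ≤ 2 * Real.sqrt x * Real.log x := by
  have h1 : piS_pp t ≤ piS_pp x :=
    sum_le_sum_of_subset_of_nonneg (Icc_subset_Icc_right htx) fun n _ _ => piS_L_nonneg n
  refine h1.trans ?_
  have h2 := Chebyshev.psi_sub_theta_le (x := (x : ℝ)) (by exact_mod_cast hx)
  rw [Chebyshev.psi_sub_theta_eq_sum_not_prime, Nat.floor_natCast] at h2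
  refine le_trans (le_of_eq ?_) h2
  unfold piS_pp piS_L Lam
  rw [sum_filter]
  simp only [ite_not]
  rfl

private theorem piS_count (C : ℝ) (hC : 1 ≤ C)
    (hdiv : ∀ n : ℕ, 1 ≤ n → (n.divisors.card : ℝ) ≤ C * (n : ℝ) ^ (1 / 4 : ℝ))
    (x a0 Q H n : ℕ) (ha0 : a0 ≤ x) (hH : H ≤ x) (hn : n ≤ x) :
    (∑ q ∈ Ioc Q (2 * Q), ∑ a ∈ (Ioc a0 (a0 + H)).filter (fun a => Nat.Coprime a q),
      if n ≡ a [MOD q] then (1 : ℝ) else 0) ≤
        H * (C * (2 * x : ℝ) ^ (1 / 4 : ℝ)) + (if n ∈ Ioc a0 (a0 + H) then (Q : ℝ) else 0) := by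
  have h1 : (∑ q ∈ Ioc Q (2 * Q), ∑ a ∈ (Ioc a0 (a0 + H)).filter (fun a => Nat.Coprime a q),
      if n ≡ a [MOD q] then (1 : ℝ) else 0) ≤
      ∑ q ∈ Ioc Q (2 * Q), ∑ a ∈ Ioc a0 (a0 + H), if n ≡ a [MOD q] then (1 : ℝ) else 0 := by
    refine sum_le_sum fun q _ => ?_
    refine sum_le_sum_of_subset_of_nonneg (filter_subset _ _) fun a _ _ => ?_
    split_ifs <;> norm_num
  refine h1.trans ?_
  rw [sum_comm]
  have h2 : ∀ a ∈ Ioc a0 (a0 + H), (∑ q ∈ Ioc Q (2 * Q), if n ≡ a [MOD q] then (1 : ℝ) else 0) ≤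
      C * (2 * x : ℝ) ^ (1 / 4 : ℝ) + if a = n then (Q : ℝ) else 0 := by
    intro a ha
    rw [mem_Ioc] at ha
    have hnn : 0 ≤ C * (2 * x : ℝ) ^ (1 / 4 : ℝ) := by positivity
    by_cases han : a = n
    · rw [if_pos han]
      have h3 : (∑ q ∈ Ioc Q (2 * Q), if n ≡ a [MOD q] then (1 : ℝ) else 0) ≤
          ∑ q ∈ Ioc Q (2 * Q), (1 : ℝ) := sum_le_sum fun q _ => by split_ifs <;> norm_num
      have h4 : ∑ q ∈ Ioc Q (2 * Q), (1 : ℝ) = Q := by
        rw [sum_const, Nat.card_Ioc, nsmul_eq_mul, mul_one]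
        congr 1
        omega
      linarith only [hnn, h3, h4]
    · rw [if_neg han, add_zero]
      have hz : ((a : ℤ) - n).natAbs ≠ 0 := by omega
      have h3 : (∑ q ∈ Ioc Q (2 * Q), if n ≡ a [MOD q] then (1 : ℝ) else 0) =
          (((Ioc Q (2 * Q)).filter fun q => n ≡ a [MOD q]).card : ℝ) := by
        rw [card_filter, Nat.cast_sum]
        refine sum_congr rfl fun q _ => ?_
        split_ifs <;> simp
      have h4 : ((Ioc Q (2 * Q)).filter fun q => n ≡ a [MOD q]).card ≤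
          ((a : ℤ) - n).natAbs.divisors.card := by
        refine card_le_card fun q hq => ?_
        rw [mem_filter] at hq
        rw [Nat.mem_divisors]
        refine ⟨?_, hz⟩
        have h5 := (Nat.modEq_iff_dvd).1 hq.2
        exact Int.natCast_dvd.1 h5
      have h5 := hdiv _ (Nat.one_le_iff_ne_zero.2 hz)
      have h6 : ((((a : ℤ) - n).natAbs : ℕ) : ℝ) ≤ 2 * x := by
        have : ((a : ℤ) - n).natAbs ≤ 2 * x := by omega
        exact_mod_cast this
      have h7 : ((((a : ℤ) - n).natAbs : ℕ) : ℝ) ^ (1 / 4 : ℝ) ≤ (2 * x : ℝ) ^ (1 / 4 : ℝ) :=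
        Real.rpow_le_rpow (Nat.cast_nonneg _) h6 (by norm_num)
      rw [h3]
      calc (((Ioc Q (2 * Q)).filter fun q => n ≡ a [MOD q]).card : ℝ)
          ≤ (((a : ℤ) - n).natAbs.divisors.card : ℝ) := by exact_mod_cast h4
        _ ≤ _ := h5
        _ ≤ _ := mul_le_mul_of_nonneg_left h7 (by linarith only [hC])
  refine (sum_le_sum h2).trans ?_
  rw [sum_add_distrib, sum_const, Nat.card_Ioc, sum_ite_eq', nsmul_eq_mul]
  have h8 : a0 + H - a0 = H := by omega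
  rw [h8]

private theorem piS_pa_le (C : ℝ) (hC : 1 ≤ C)
    (hdiv : ∀ n : ℕ, 1 ≤ n → (n.divisors.card : ℝ) ≤ C * (n : ℝ) ^ (1 / 4 : ℝ))
    (x a0 Q H t : ℕ) (hx : 1 ≤ x) (ha0 : a0 ≤ x) (hH : H ≤ x) (ht : t ≤ x) :
    (∑ q ∈ Ioc Q (2 * Q), ∑ a ∈ (Ioc a0 (a0 + H)).filter (fun a => Nat.Coprime a q),
      piS_pa t q a) ≤
        2 * Real.sqrt x * Real.log x * (H * (C * (2 * x : ℝ) ^ (1 / 4 : ℝ))) +
          Q * (H * Real.log x) := by
  have hK : 0 ≤ H * (C * (2 * x : ℝ) ^ (1 / 4 : ℝ)) := by positivity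
  have hx' : (1 : ℝ) ≤ x := by exact_mod_cast hx
  have hlog : 0 ≤ Real.log x := Real.log_nonneg hx'
  have h1 : (∑ q ∈ Ioc Q (2 * Q), ∑ a ∈ (Ioc a0 (a0 + H)).filter (fun a => Nat.Coprime a q),
      piS_pa t q a) =
      ∑ n ∈ Icc 1 t, piS_L n *
        ∑ q ∈ Ioc Q (2 * Q), ∑ a ∈ (Ioc a0 (a0 + H)).filter (fun a => Nat.Coprime a q),
          (if n ≡ a [MOD q] then (1 : ℝ) else 0) := by
    unfold piS_pa
    simp only [mul_sum]
    have e1 : ∀ q ∈ Ioc Q (2 * Q), (∑ a ∈ (Ioc a0 (a0 + H)).filter (fun a => Nat.Coprime a q),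
        ∑ n ∈ Icc 1 t, piS_L n * (if n ≡ a [MOD q] then (1 : ℝ) else 0)) =
        ∑ n ∈ Icc 1 t, ∑ a ∈ (Ioc a0 (a0 + H)).filter (fun a => Nat.Coprime a q),
          piS_L n * (if n ≡ a [MOD q] then (1 : ℝ) else 0) := fun q _ => sum_comm
    rw [sum_congr rfl e1, sum_comm]
  rw [h1]
  have h2 : ∀ n ∈ Icc 1 t, piS_L n *
        (∑ q ∈ Ioc Q (2 * Q), ∑ a ∈ (Ioc a0 (a0 + H)).filter (fun a => Nat.Coprime a q),
          (if n ≡ a [MOD q] then (1 : ℝ) else 0)) ≤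
        piS_L n * (H * (C * (2 * x : ℝ) ^ (1 / 4 : ℝ))) +
          (if n ∈ Ioc a0 (a0 + H) then Q * Real.log x else 0) := by
    intro n hn
    rw [mem_Icc] at hn
    have h3 := piS_count C hC hdiv x a0 Q H n ha0 hH (hn.2.trans ht)
    have h5 : piS_L n ≤ Real.log x := by
      refine (piS_L_le n hn.1).trans ?_
      exact Real.log_le_log (by exact_mod_cast hn.1) (by exact_mod_cast hn.2.trans ht)
    refine (mul_le_mul_of_nonneg_left h3 (piS_L_nonneg n)).trans ?_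
    rw [mul_add]
    refine add_le_add le_rfl ?_
    split_ifs
    · rw [mul_comm]
      exact mul_le_mul_of_nonneg_left h5 (Nat.cast_nonneg _)
    · simp
  refine (sum_le_sum h2).trans ?_
  rw [sum_add_distrib, ← sum_mul]
  refine add_le_add (mul_le_mul_of_nonneg_right (piS_pp_le t x ht hx) hK) ?_
  have h6 : (∑ n ∈ Icc 1 t, if n ∈ Ioc a0 (a0 + H) then (Q : ℝ) * Real.log x else 0) ≤
      ∑ n ∈ Ioc a0 (a0 + H), (Q : ℝ) * Real.log x := by
    rw [← sum_filter]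
    refine sum_le_sum_of_subset_of_nonneg ?_ fun _ _ _ => by positivity
    intro n hn
    exact (mem_filter.1 hn).2
  refine h6.trans (le_of_eq ?_)
  rw [sum_const, Nat.card_Ioc, nsmul_eq_mul]
  have h8 : a0 + H - a0 = H := by omega
  rw [h8]
  ring

private theorem piS_phi (x Q H : ℕ) (S : ℕ → Finset ℕ) (hS : ∀ q, (S q).card ≤ H)
    (hL : 1 ≤ Real.log x) (hQ : 1 ≤ Q) (hQx : Q ≤ x) :
    (∑ q ∈ Ioc Q (2 * Q), ∑ _a ∈ (S q).filter (fun a => Nat.Coprime a q),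
      (1 / (q.totient : ℝ))) ≤ H * (4 * Real.log x) := by
  have hQ' : (0 : ℝ) < Q := by exact_mod_cast hQ
  have h1 : ∀ q ∈ Ioc Q (2 * Q), (∑ _a ∈ (S q).filter (fun a => Nat.Coprime a q),
      (1 / (q.totient : ℝ))) ≤ H * (4 * Real.log x) / Q := by
    intro q hq
    rw [mem_Ioc] at hq
    have hq0 : 0 < q := by omega
    have hphi : (0 : ℝ) < q.totient := by exact_mod_cast Nat.totient_pos.2 hq0
    have hcard : (((S q).filter (fun a => Nat.Coprime a q)).card : ℝ) ≤ H := by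
      have : ((S q).filter (fun a => Nat.Coprime a q)).card ≤ H :=
        (card_filter_le _ _).trans (hS q)
      exact_mod_cast this
    have h2 : (q : ℝ) ≤ q.totient * (4 * Real.log x) := by
      refine (Pool.Agent.H92.EH.le_totient_mul q).trans ?_
      refine mul_le_mul_of_nonneg_left ?_ hphi.le
      have h3 : (q.primeFactors.card : ℝ) ≤ Nat.log 2 q := by
        exact_mod_cast Pool.Agent.H92.EH.card_primeFactors_le q
      have h4 : ((Nat.log 2 q : ℕ) : ℝ) ≤ Real.logb 2 q := by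
        have := Real.natLog_le_logb q 2
        exact_mod_cast this
      have h5 : Real.log q ≤ Real.log 2 + Real.log x := by
        rw [← Real.log_mul (by norm_num) (by
          have : 0 < x := by omega
          positivity)]
        refine Real.log_le_log (by exact_mod_cast hq0) ?_
        have : q ≤ 2 * x := by omega
        exact_mod_cast this
      have hl2 : 0.6931 < Real.log 2 := by
        have := Real.log_two_gt_d9
        linarith only [this]
      have h6 : Real.logb 2 q ≤ 1 + 1.5 * Real.log x := by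
        rw [Real.logb, div_le_iff₀ (by linarith only [hl2])]
        nlinarith only [hL, h5, hl2]
      linarith only [hL, h3, h4, h6]
    rw [sum_const, nsmul_eq_mul, mul_one_div, div_le_div_iff₀ hphi hQ']
    have h7 : (Q : ℝ) ≤ q.totient * (4 * Real.log x) := by
      refine le_trans ?_ h2
      exact_mod_cast hq.1.le
    calc (((S q).filter (fun a => Nat.Coprime a q)).card : ℝ) * Q
        ≤ H * (q.totient * (4 * Real.log x)) :=
          mul_le_mul hcard h7 hQ'.le (Nat.cast_nonneg _)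
      _ = H * (4 * Real.log x) * q.totient := by ring
  refine (sum_le_sum h1).trans (le_of_eq ?_)
  rw [sum_const, Nat.card_Ioc, nsmul_eq_mul]
  have h8 : 2 * Q - Q = Q := by omega
  rw [h8]
  field_simp

private theorem piS_ev (K δ : ℝ) (hδ : 0 < δ) (k : ℕ) :
    ∀ᶠ x : ℕ in Filter.atTop, K * Real.log x ^ k ≤ (x : ℝ) ^ δ := by
  have hK : 0 < |K| + 1 := by positivity
  have h1 := (isLittleO_log_rpow_rpow_atTop (k : ℝ) hδ).def (c := 1 / (|K| + 1)) (by positivity)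
  have h2 := tendsto_natCast_atTop_atTop (R := ℝ) |>.eventually h1
  filter_upwards [h2] with x hx
  rw [Real.rpow_natCast, Real.norm_eq_abs, Real.norm_eq_abs,
    abs_of_nonneg (Real.rpow_nonneg (Nat.cast_nonneg x) δ), one_div, ← div_eq_inv_mul,
    le_div_iff₀ hK] at hx
  have h3 : K * Real.log x ^ k ≤ |K| * |Real.log x ^ k| := by
    rw [← abs_mul]
    exact le_abs_self _
  have h4 : 0 ≤ |Real.log (x : ℝ) ^ k| := abs_nonneg _
  linarith only [hx, h3, h4]

private theorem piS_pa_mono (t x q a : ℕ) (h : t ≤ x) : piS_pa t q a ≤ piS_pa x q a := by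
  unfold piS_pa
  refine sum_le_sum_of_subset_of_nonneg (Icc_subset_Icc_right h) fun n _ _ => ?_
  exact mul_nonneg (piS_L_nonneg n) (by split_ifs <;> norm_num)

private theorem piS_S (Q x : ℕ) (S : ℕ → Finset ℕ) (K : ℝ) (tt : ℕ → ℕ → ℕ)
    (htt : ∀ q a, tt q a ≤ x)
    (hK : ∀ t : ℕ, t ≤ x → |(∑ n ∈ Icc 1 t, Lam n) - t| + piS_pp t ≤ K) :
    (∑ q ∈ Ioc Q (2 * Q), ∑ a ∈ (S q).filter (fun a => Nat.Coprime a q),
      |∑ n ∈ Icc 1 (tt q a), piS_g q a n * Real.log n|) ≤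
    (∑ q ∈ Ioc Q (2 * Q), ∑ a ∈ (S q).filter (fun a => Nat.Coprime a q),
      |psiA (tt q a) q a - (tt q a : ℝ) / (q.totient : ℝ)|) +
    (∑ q ∈ Ioc Q (2 * Q), ∑ a ∈ (S q).filter (fun a => Nat.Coprime a q),
      piS_pa x q a) +
    K *
      ∑ q ∈ Ioc Q (2 * Q), ∑ _a ∈ (S q).filter (fun a => Nat.Coprime a q),
        (1 / (q.totient : ℝ)) := by
  rw [mul_sum, ← sum_add_distrib, ← sum_add_distrib]
  refine sum_le_sum fun q _ => ?_
  rw [mul_sum, ← sum_add_distrib, ← sum_add_distrib]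
  refine sum_le_sum fun a _ => ?_
  have h1 := piS_abs (tt q a) q a
  have h2 := piS_pa_mono (tt q a) x q a (htt q a)
  have h3 : (|(∑ n ∈ Icc 1 (tt q a), Lam n) - (tt q a : ℝ)| + piS_pp (tt q a)) *
      (1 / (q.totient : ℝ)) ≤ K * (1 / (q.totient : ℝ)) :=
    mul_le_mul_of_nonneg_right (hK _ (htt q a)) (by positivity)
  linarith only [h1, h2, h3]

private theorem piS_err_le (x y q a : ℕ) (hy : y ≤ x) (M : ℝ)
    (hM : ∀ t : ℕ, t ≤ x → |∑ n ∈ Icc 1 t, piS_g q a n * Real.log n| ≤ M) :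
    |err y q (a : ZMod q)| ≤ M * (1 / Real.log 2) := by
  have hM0 : 0 ≤ M := (abs_nonneg _).trans (hM 0 (Nat.zero_le _))
  have hl2 : 0 < Real.log 2 := Real.log_pos (by norm_num)
  rcases Nat.lt_or_ge y 2 with h | h
  · have h0 : err y q (a : ZMod q) = 0 := by
      rw [piS_err]
      interval_cases y
      · simp
      · simp [piS_g, Nat.not_prime_one]
    rw [h0, abs_zero]
    positivity
  · have hly : 0 < Real.log y := Real.log_pos (by exact_mod_cast (by omega : 1 < y))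
    have hw : ∀ t ∈ Ico 2 y, 0 ≤ 1 / Real.log t - 1 / Real.log ((t + 1 : ℕ) : ℝ) := by
      intro t ht
      rw [mem_Ico] at ht
      have h1 : 0 < Real.log t := Real.log_pos (by exact_mod_cast (by omega : 1 < t))
      have h2 : Real.log t ≤ Real.log ((t + 1 : ℕ) : ℝ) :=
        Real.log_le_log (by exact_mod_cast (by omega : 0 < t)) (by exact_mod_cast Nat.le_succ t)
      rw [sub_nonneg]
      exact one_div_le_one_div_of_le h1 h2
    rw [piS_err, piS_abel (piS_g q a) (by simp [piS_g, Nat.not_prime_one]) y h,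
      ← piS_tele y h, mul_add, mul_sum]
    refine (abs_add_le _ _).trans (add_le_add ?_ ?_)
    · rw [abs_div, abs_of_pos hly, ← mul_one_div]
      exact mul_le_mul_of_nonneg_right (hM y hy) (by positivity)
    · refine (abs_sum_le_sum_abs _ _).trans (sum_le_sum fun t ht => ?_)
      rw [abs_mul, abs_of_nonneg (hw t ht)]
      refine mul_le_mul_of_nonneg_right (hM t ?_) (hw t ht)
      rw [mem_Ico] at ht
      omega

theorem piS (c c' : ℕ) : ∃ x0 : ℕ, ∀ x : ℕ, x0 ≤ x → ∀ a0 Q H nb : ℕ, ∀ S : ℕ → Finset ℕ,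
      (∀ q, S q ⊆ Ioc a0 (a0 + H)) → (∀ q, (S q).card ≤ nb) → (H : ℝ) ≤ nb * Real.log x ^ c' →
      a0 ≤ x → H ≤ x → 1 ≤ Q → (Q : ℝ) * Real.log x ^ (c + c' + 5) ≤ x →
      (∀ t : ℕ, t ≤ x → |(∑ n ∈ Icc 1 t, Lam n) - t| ≤ x / Real.log x ^ (c + 5)) →
      (∀ y : ℕ → ℕ → ℕ, (∀ q a, y q a ≤ x) → ∑ q ∈ Ioc Q (2 * Q),
        ∑ a ∈ (S q).filter (fun a => Nat.Coprime a q),
          |psiA (y q a) q a - (y q a : ℝ) / (q.totient : ℝ)| ≤ nb * x / Real.log x ^ (c + 2)) →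
      ∀ y : ℕ → ℕ → ℕ, (∀ q a, y q a ≤ x) →
      ∑ q ∈ Ioc Q (2 * Q), ∑ a ∈ (S q).filter (fun a => Nat.Coprime a q),
        |err (y q a) q (a : ZMod q)| ≤ nb * x / Real.log x ^ c := by
  obtain ⟨C, hC, hdiv⟩ := Pool.Agent.H92.EH.div_bound (1 / 4) (by norm_num)
  have e1 := piS_ev (4 * C) (1 / 4) (by norm_num) (c + c' + 2)
  have e3 := piS_ev 8 (1 / 2) (by norm_num) (c + 3)
  have e4 : ∀ᶠ x : ℕ in Filter.atTop, 10 ≤ Real.log x :=
    (Real.tendsto_log_atTop.comp tendsto_natCast_atTop_atTop).eventually_ge_atTop 10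
  obtain ⟨x0, hx0⟩ := Filter.eventually_atTop.1 (e1.and (e3.and e4))
  refine ⟨max x0 2, ?_⟩
  intro x hx a0 Q H nb S hS hSc hnb ha0 hHx hQ1 hQx h0 h1 y hy
  obtain ⟨f1, f3, hL⟩ := hx0 x ((le_max_left _ _).trans hx)
  have hx2 : 2 ≤ x := (le_max_right _ _).trans hx
  have hxp : (0 : ℝ) < x := by exact_mod_cast (by omega : 0 < x)
  have hx1 : (1 : ℝ) ≤ x := by exact_mod_cast (by omega : 1 ≤ x)
  set L := Real.log (x : ℝ) with hLdef
  have hLp : 0 < L := by linarith only [hL]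
  have hHp : (0 : ℝ) ≤ H := Nat.cast_nonneg H
  have hnp : (0 : ℝ) ≤ nb := Nat.cast_nonneg nb
  have hL1 : (1 : ℝ) ≤ L := by linarith only [hL]
  have hQx' : Q ≤ x := by
    have h2 : (Q : ℝ) * 1 ≤ Q * L ^ (c + c' + 5) :=
      mul_le_mul_of_nonneg_left (one_le_pow₀ hL1) (Nat.cast_nonneg _)
    have h3 : (Q : ℝ) ≤ x := by linarith only [hQx, h2]
    exact_mod_cast h3
  have hD : 0 < L ^ (c + 1) := by positivity
  -- the four estimates
  have hD' : 0 < L ^ (c + c' + 1) := by positivity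
  have g1 : 2 * Real.sqrt x * L * (C * (2 * x : ℝ) ^ (1 / 4 : ℝ)) ≤ x / L ^ (c + c' + 1) := by
    rw [le_div_iff₀ hD']
    have h2 : (2 * x : ℝ) ^ (1 / 4 : ℝ) ≤ 2 * (x : ℝ) ^ (1 / 4 : ℝ) := by
      rw [Real.mul_rpow (by norm_num) hxp.le]
      refine mul_le_mul_of_nonneg_right ?_ (by positivity)
      calc (2 : ℝ) ^ (1 / 4 : ℝ) ≤ (2 : ℝ) ^ (1 : ℝ) :=
            Real.rpow_le_rpow_of_exponent_le (by norm_num) (by norm_num)
        _ = 2 := Real.rpow_one 2
    have h3 : Real.sqrt x * (x : ℝ) ^ (1 / 4 : ℝ) * (x : ℝ) ^ (1 / 4 : ℝ) = x := by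
      rw [Real.sqrt_eq_rpow, ← Real.rpow_add hxp, ← Real.rpow_add hxp]
      norm_num
    calc 2 * Real.sqrt x * L * (C * (2 * x : ℝ) ^ (1 / 4 : ℝ)) * L ^ (c + c' + 1)
        ≤ 2 * Real.sqrt x * L * (C * (2 * (x : ℝ) ^ (1 / 4 : ℝ))) * L ^ (c + c' + 1) := by
          gcongr
      _ = Real.sqrt x * (x : ℝ) ^ (1 / 4 : ℝ) * (4 * C * L ^ (c + c' + 2)) := by ring
      _ ≤ Real.sqrt x * (x : ℝ) ^ (1 / 4 : ℝ) * (x : ℝ) ^ (1 / 4 : ℝ) :=
          mul_le_mul_of_nonneg_left f1 (by positivity)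
      _ = x := h3
  have g2 : Q * L ≤ x / L ^ (c + c' + 1) := by
    rw [le_div_iff₀ hD']
    calc (Q : ℝ) * L * L ^ (c + c' + 1) = Q * L ^ (c + c' + 2) := by ring
      _ ≤ Q * L ^ (c + c' + 5) :=
          mul_le_mul_of_nonneg_left (pow_le_pow_right₀ hL1 (by omega)) (Nat.cast_nonneg _)
      _ ≤ x := hQx
  have g3 : x / L ^ (c + 5) * (4 * L) ≤ x / L ^ (c + 1) := by
    have h2 : (4 : ℝ) ≤ L ^ 3 := by
      calc (4 : ℝ) ≤ 10 ^ 3 := by norm_num
        _ ≤ L ^ 3 := pow_le_pow_left₀ (by norm_num) hL 3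
    rw [div_mul_eq_mul_div, div_le_div_iff₀ (by positivity) hD]
    calc x * (4 * L) * L ^ (c + 1) = x * L ^ (c + 2) * 4 := by ring
      _ ≤ x * L ^ (c + 2) * L ^ 3 := mul_le_mul_of_nonneg_left h2 (by positivity)
      _ = x * L ^ (c + 5) := by ring
  have g4 : 2 * Real.sqrt x * L * (4 * L) ≤ x / L ^ (c + 1) := by
    rw [le_div_iff₀ hD]
    have h3 : Real.sqrt x * (x : ℝ) ^ (1 / 2 : ℝ) = x := by
      rw [← Real.sqrt_eq_rpow]
      exact Real.mul_self_sqrt hxp.le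
    calc 2 * Real.sqrt x * L * (4 * L) * L ^ (c + 1) = Real.sqrt x * (8 * L ^ (c + 3)) := by ring
      _ ≤ Real.sqrt x * (x : ℝ) ^ (1 / 2 : ℝ) := mul_le_mul_of_nonneg_left f3 (by positivity)
      _ = x := h3
  -- the maximizing `t`
  have hmax : ∀ q a : ℕ, ∃ t : ℕ, t ≤ x ∧ ∀ t' : ℕ, t' ≤ x →
      |∑ n ∈ Icc 1 t', piS_g q a n * Real.log n| ≤ |∑ n ∈ Icc 1 t, piS_g q a n * Real.log n| := by
    intro q a
    obtain ⟨t, ht, hmx⟩ := exists_max_image (Finset.range (x + 1))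
      (fun t => |∑ n ∈ Icc 1 t, piS_g q a n * Real.log n|) ⟨0, by simp⟩
    refine ⟨t, ?_, fun t' ht' => hmx t' ?_⟩
    · rw [mem_range] at ht
      omega
    · rw [mem_range]
      omega
  choose tt htt hmx using hmax
  have hB : (∑ q ∈ Ioc Q (2 * Q), ∑ a ∈ (S q).filter (fun a => Nat.Coprime a q),
        |∑ n ∈ Icc 1 (tt q a), piS_g q a n * Real.log n|) ≤ 5 * (nb * (x / L ^ (c + 1))) := by
    have k45 : ∀ t : ℕ, t ≤ x → |(∑ n ∈ Icc 1 t, Lam n) - t| + piS_pp t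
        ≤ x / L ^ (c + 5) + 2 * Real.sqrt x * L := fun t ht =>
      add_le_add (h0 t ht) (piS_pp_le t x ht (by omega))
    refine (piS_S Q x S _ tt htt k45).trans ?_
    have k1 := h1 tt htt
    have k2' := piS_pa_le C hC hdiv x a0 Q H x (by omega) ha0 hHx le_rfl
    have k2 : (∑ q ∈ Ioc Q (2 * Q), ∑ a ∈ (S q).filter (fun a => Nat.Coprime a q),
        piS_pa x q a) ≤ 2 * Real.sqrt x * Real.log x * (H * (C * (2 * x : ℝ) ^ (1 / 4 : ℝ))) +
          Q * (H * Real.log x) := by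
      refine le_trans ?_ k2'
      refine sum_le_sum fun q _ => ?_
      refine sum_le_sum_of_subset_of_nonneg (filter_subset_filter _ (hS q)) fun a _ _ => ?_
      exact sum_nonneg fun n _ => mul_nonneg (piS_L_nonneg n) (by split_ifs <;> norm_num)
    have k3 := piS_phi x Q nb S hSc (by linarith only [hL]) hQ1 hQx'
    have k6 : (x / L ^ (c + 5) + 2 * Real.sqrt x * L) *
        (∑ q ∈ Ioc Q (2 * Q), ∑ _a ∈ (S q).filter (fun a => Nat.Coprime a q),
          (1 / (q.totient : ℝ))) ≤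
        (x / L ^ (c + 5) + 2 * Real.sqrt x * L) * (nb * (4 * L)) :=
      mul_le_mul_of_nonneg_left k3 (by positivity)
    have k7 : (x / L ^ (c + 5) + 2 * Real.sqrt x * L) * (nb * (4 * L)) =
        nb * (x / L ^ (c + 5) * (4 * L)) + nb * (2 * Real.sqrt x * L * (4 * L)) := by ring
    have k8 : nb * (x / L ^ (c + 5) * (4 * L)) ≤ nb * (x / L ^ (c + 1)) :=
      mul_le_mul_of_nonneg_left g3 hnp
    have k9 : nb * (2 * Real.sqrt x * L * (4 * L)) ≤ nb * (x / L ^ (c + 1)) :=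
      mul_le_mul_of_nonneg_left g4 hnp
    have kH : H * (x / L ^ (c + c' + 1)) ≤ nb * (x / L ^ (c + 1)) := by
      refine (mul_le_mul_of_nonneg_right hnb (by positivity)).trans (le_of_eq ?_)
      rw [show c + c' + 1 = (c + 1) + c' by ring, pow_add L (c + 1) c']
      field_simp
    have k10 : 2 * Real.sqrt x * L * (H * (C * (2 * x : ℝ) ^ (1 / 4 : ℝ))) ≤
        H * (x / L ^ (c + c' + 1)) := by
      calc 2 * Real.sqrt x * L * (H * (C * (2 * x : ℝ) ^ (1 / 4 : ℝ)))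
          = H * (2 * Real.sqrt x * L * (C * (2 * x : ℝ) ^ (1 / 4 : ℝ))) := by ring
        _ ≤ _ := mul_le_mul_of_nonneg_left g1 hHp
    have k11 : Q * (H * L) ≤ H * (x / L ^ (c + c' + 1)) := by
      calc (Q : ℝ) * (H * L) = H * (Q * L) := by ring
        _ ≤ _ := mul_le_mul_of_nonneg_left g2 hHp
    have k12 : nb * x / L ^ (c + 2) ≤ nb * (x / L ^ (c + 1)) := by
      rw [mul_div_assoc]
      refine mul_le_mul_of_nonneg_left ?_ hnp
      exact div_le_div_of_nonneg_left hxp.le hD (pow_le_pow_right₀ hL1 (by omega))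
    linarith only [k1, k2, k6, k8, k9, kH, k10, k11, k12]
  have hl2 : 0.6931 < Real.log 2 := by
    have := Real.log_two_gt_d9
    linarith only [this]
  have hl2' : 0 < Real.log 2 := by linarith only [hl2]
  have hE : (∑ q ∈ Ioc Q (2 * Q), ∑ a ∈ (S q).filter (fun a => Nat.Coprime a q),
        |err (y q a) q (a : ZMod q)|) ≤ 5 * (nb * (x / L ^ (c + 1))) * (1 / Real.log 2) := by
    refine le_trans ?_ (mul_le_mul_of_nonneg_right hB (by positivity))
    rw [sum_mul]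
    refine sum_le_sum fun q _ => ?_
    rw [sum_mul]
    exact sum_le_sum fun a _ => piS_err_le x (y q a) q a (hy q a) _ (hmx q a)
  refine hE.trans ?_
  rw [mul_one_div, div_le_div_iff₀ hl2' (by positivity)]
  have m1 : 5 * (nb * (x / L ^ (c + 1))) * L ^ c = 5 * (nb * x) / L := by
    rw [pow_succ]
    field_simp
  rw [m1, div_le_iff₀ hLp]
  have m2 : (5 : ℝ) ≤ Real.log 2 * L := by nlinarith only [hL, hl2, hl2']
  have m3 : 0 ≤ (nb : ℝ) * x := by positivity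
  nlinarith only [m2, m3]

end Pool.Agent.H91.L1

end

section

/-!
# L1 PsiS: from `hR` to `ψ(y;q,a) - y/φ(q)`, selections of residues (adapted from `Psi` by helper31)

Copy of the second half of `T1fin` (`Pool/Agent/H91/EHA/T1fin.lean`), with `y` depending on `(q,a)` and `Q L^(3B+c+1) ≤ x` instead of `Q ≤ x^θ`:
`psiA = ∑ hR + ∑ lamR`, `lamR_ap`, `lamR_avg`: the second part is `≤ Q H R³ + H x C(1+log Q)²/R`.
-/

set_option autoImplicit false

namespace Pool.Agent.H91.L1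

open Finset
open Pool.Agent.H91.EHA (Lam lamR hR psiA err)

theorem psiS_of_hR (B c : ℕ) (hB : c + 4 ≤ B) : ∃ x0 : ℕ, ∀ x : ℕ, x0 ≤ x →
    ∀ Q H : ℕ, ∀ y : ℕ → ℕ → ℕ, ∀ S : ℕ → Finset ℕ, (∀ q, (S q).card ≤ H) →
      (∀ q a, y q a ≤ x) → 1 ≤ Q →
      (Q : ℝ) * Real.log x ^ (3 * B + c + 1) ≤ x →
      ∑ q ∈ Ioc Q (2 * Q), ∑ a ∈ S q,
        |∑ n ∈ (Icc 1 (y q a)).filter (fun n => n ≡ a [MOD q]), hR ⌊Real.log x ^ B⌋₊ n|
          ≤ H * x / Real.log x ^ (c + 2) →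
      ∑ q ∈ Ioc Q (2 * Q), ∑ a ∈ (S q).filter (fun a => Nat.Coprime a q),
        |psiA (y q a) q a - (y q a : ℝ) / (q.totient : ℝ)| ≤ H * x / Real.log x ^ c := by
  obtain ⟨C, hC, hCav⟩ := Pool.Agent.H91.EHA.lamR_avg
  obtain ⟨x3, hx3⟩ := Pool.Agent.H91.EHA.log_ge (max 8 (8 * C))
  refine ⟨max x3 3, fun x hx Q H y S hS hy hQ1 hQ h1 => ?_⟩
  have hxx3 : x3 ≤ x := le_trans (le_max_left _ _) hx
  have hxx4 : 3 ≤ x := le_trans (le_max_right _ _) hx
  have hlog := hx3 x hxx3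
  have hlog8 : 8 ≤ Real.log x := (le_max_left _ _).trans hlog
  have hlogC : 8 * C ≤ Real.log x := (le_max_right _ _).trans hlog
  set L : ℝ := Real.log x with hL
  have hLpos : 0 < L := by linarith
  have hL1 : 1 ≤ L := by linarith
  set R : ℕ := ⌊L ^ B⌋₊ with hR'
  have hxpos : (0 : ℝ) < x := by
    have : (3 : ℝ) ≤ x := by exact_mod_cast hxx4
    linarith
  have hQpos : (0 : ℝ) < Q := by exact_mod_cast hQ1
  have hHnn : (0 : ℝ) ≤ H := Nat.cast_nonneg H
  have hLB : 1 ≤ L ^ B := one_le_pow₀ hL1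
  have hR1 : 1 ≤ R := by
    rw [hR']
    exact Nat.le_floor (by simpa using hLB)
  have hRpos : (0 : ℝ) < R := by exact_mod_cast hR1
  have hRle : (R : ℝ) ≤ L ^ B := Nat.floor_le (by positivity)
  have hRge : L ^ B / 2 ≤ R := by
    have h1 : L ^ B < R + 1 := Nat.lt_floor_add_one _
    have h2 : (1 : ℝ) ≤ R := by exact_mod_cast hR1
    linarith
  -- the second part
  have h2 : ∑ q ∈ Ioc Q (2 * Q), ∑ a ∈ (S q).filter (fun a => Nat.Coprime a q),
      |(∑ n ∈ (Icc 1 (y q a)).filter (fun n => n ≡ a [MOD q]), lamR R n)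
        - (y q a : ℝ) / (q.totient : ℝ)|
        ≤ Q * H * (R : ℝ) ^ 3 + H * x * (C * (1 + Real.log Q) ^ 2 / R) := by
    have h3 : ∀ q ∈ Ioc Q (2 * Q),
        ∑ a ∈ (S q).filter (fun a => Nat.Coprime a q),
      |(∑ n ∈ (Icc 1 (y q a)).filter (fun n => n ≡ a [MOD q]), lamR R n)
        - (y q a : ℝ) / (q.totient : ℝ)|
        ≤ H * (R : ℝ) ^ 3 + H * x * |1 / (q : ℝ) * (∑ c ∈ q.divisors.filter (fun c => c ≤ R),
        (ArithmeticFunction.moebius c : ℝ) ^ 2 / (c.totient : ℝ)) - 1 / (q.totient : ℝ)| := by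
      intro q hq
      have hq1 : 1 ≤ q := by
        have := (mem_Ioc.1 hq).1
        omega
      have h4 : ∀ a ∈ (S q).filter (fun a => Nat.Coprime a q),
          |(∑ n ∈ (Icc 1 (y q a)).filter (fun n => n ≡ a [MOD q]), lamR R n)
            - (y q a : ℝ) / (q.totient : ℝ)|
          ≤ (R : ℝ) ^ 3 + x * |1 / (q : ℝ) * (∑ c ∈ q.divisors.filter (fun c => c ≤ R),
        (ArithmeticFunction.moebius c : ℝ) ^ 2 / (c.totient : ℝ)) - 1 / (q.totient : ℝ)| := by
        intro a ha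
        have hcop : Nat.Coprime a q := (mem_filter.1 ha).2
        have h5 := Pool.Agent.H91.EHA.lamR_ap R (y q a) q a hq1 hcop
        set T : ℝ := ∑ c ∈ q.divisors.filter (fun c => c ≤ R),
          (ArithmeticFunction.moebius c : ℝ) ^ 2 / (c.totient : ℝ) with hT'
        set U : ℝ := ∑ n ∈ (Icc 1 (y q a)).filter (fun n => n ≡ a [MOD q]), lamR R n with hU
        have h6 : U - (y q a : ℝ) / (q.totient : ℝ)
            = (U - (y q a : ℝ) / q * T) + (y q a : ℝ) * (1 / (q : ℝ) * T - 1 / (q.totient : ℝ)) := by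
          ring
        rw [h6]
        refine (abs_add_le _ _).trans ?_
        apply add_le_add h5
        rw [abs_mul, abs_of_nonneg (by positivity : (0 : ℝ) ≤ (y q a : ℝ))]
        apply mul_le_mul_of_nonneg_right _ (abs_nonneg _)
        exact_mod_cast hy q a
      refine (Finset.sum_le_sum h4).trans ?_
      rw [Finset.sum_const, nsmul_eq_mul]
      have h7 : (((S q).filter (fun a => Nat.Coprime a q)).card : ℝ) ≤ H := by
        have := (Finset.card_filter_le (S q) (fun a => Nat.Coprime a q)).trans (hS q)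
        exact_mod_cast this
      have h9 := mul_le_mul_of_nonneg_right h7
        (show 0 ≤ (R : ℝ) ^ 3 + x * |1 / (q : ℝ) * (∑ c ∈ q.divisors.filter (fun c => c ≤ R),
        (ArithmeticFunction.moebius c : ℝ) ^ 2 / (c.totient : ℝ)) - 1 / (q.totient : ℝ)|
          by positivity)
      refine h9.trans (le_of_eq ?_)
      ring
    refine (Finset.sum_le_sum h3).trans ?_
    rw [Finset.sum_add_distrib, Finset.sum_const, Nat.card_Ioc, ← Finset.mul_sum, nsmul_eq_mul]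
    have h8 : 2 * Q - Q = Q := by omega
    rw [h8]
    have h10 := hCav R Q hR1 hQ1
    have h11 := mul_le_mul_of_nonneg_left h10 (show (0 : ℝ) ≤ H * x by positivity)
    have h12 : (Q : ℝ) * (H * (R : ℝ) ^ 3) = Q * H * (R : ℝ) ^ 3 := by ring
    rw [h12]
    exact add_le_add le_rfl h11
  -- numerical bounds
  have h3 : (Q : ℝ) * H * (R : ℝ) ^ 3 ≤ H * x / L ^ (c + 1) := by
    rw [le_div_iff₀ (by positivity)]
    have h4 : (R : ℝ) ^ 3 ≤ L ^ (3 * B) := by
      calc (R : ℝ) ^ 3 ≤ (L ^ B) ^ 3 := pow_le_pow_left₀ (by positivity) hRle 3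
        _ = L ^ (3 * B) := by rw [← pow_mul]; ring_nf
    have h5 : L ^ (3 * B) * L ^ (c + 1) = L ^ (3 * B + c + 1) := by ring
    calc (Q : ℝ) * H * (R : ℝ) ^ 3 * L ^ (c + 1)
        = H * (Q * ((R : ℝ) ^ 3 * L ^ (c + 1))) := by ring
      _ ≤ H * (Q * L ^ (3 * B + c + 1)) := by
          apply mul_le_mul_of_nonneg_left _ hHnn
          apply mul_le_mul_of_nonneg_left _ hQpos.le
          calc (R : ℝ) ^ 3 * L ^ (c + 1) ≤ L ^ (3 * B) * L ^ (c + 1) := by
                apply mul_le_mul_of_nonneg_right h4 (by positivity)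
            _ = L ^ (3 * B + c + 1) := h5
      _ ≤ H * x := mul_le_mul_of_nonneg_left hQ hHnn
  have h4 : (H : ℝ) * x * (C * (1 + Real.log Q) ^ 2 / R) ≤ H * x / L ^ (c + 1) := by
    have hQx : (Q : ℝ) ≤ x := by
      have h5 : (Q : ℝ) * 1 ≤ Q * L ^ (3 * B + c + 1) :=
        mul_le_mul_of_nonneg_left (one_le_pow₀ hL1) hQpos.le
      linarith
    have hlogQ : Real.log Q ≤ L := Real.log_le_log hQpos hQx
    have hlogQ0 : 0 ≤ Real.log Q := Real.log_nonneg (by exact_mod_cast hQ1)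
    have h5 : (1 + Real.log Q) ^ 2 ≤ 4 * L ^ 2 := by
      calc (1 + Real.log Q) ^ 2 ≤ (2 * L) ^ 2 := by
            apply pow_le_pow_left₀ (by positivity)
            linarith
        _ = 4 * L ^ 2 := by ring
    have h6 : C * (1 + Real.log Q) ^ 2 / R ≤ 1 / L ^ (c + 1) := by
      rw [div_le_div_iff₀ hRpos (by positivity), one_mul]
      have h7 : L ^ (c + 4) ≤ L ^ B := pow_le_pow_right₀ hL1 hB
      calc C * (1 + Real.log Q) ^ 2 * L ^ (c + 1)
          ≤ C * (4 * L ^ 2) * L ^ (c + 1) := by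
            apply mul_le_mul_of_nonneg_right _ (by positivity)
            apply mul_le_mul_of_nonneg_left h5 hC.le
        _ = (8 * C) * L ^ (c + 3) / 2 := by ring
        _ ≤ L * L ^ (c + 3) / 2 := by
            apply div_le_div_of_nonneg_right _ (by norm_num)
            apply mul_le_mul_of_nonneg_right hlogC (by positivity)
        _ = L ^ (c + 4) / 2 := by ring
        _ ≤ L ^ B / 2 := by linarith
        _ ≤ R := hRge
    calc (H : ℝ) * x * (C * (1 + Real.log Q) ^ 2 / R) ≤ H * x * (1 / L ^ (c + 1)) :=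
          mul_le_mul_of_nonneg_left h6 (by positivity)
      _ = H * x / L ^ (c + 1) := by ring
  -- conclusion
  have h5 : ∑ q ∈ Ioc Q (2 * Q), ∑ a ∈ (S q).filter (fun a => Nat.Coprime a q),
      |psiA (y q a) q a - (y q a : ℝ) / (q.totient : ℝ)|
      ≤ (∑ q ∈ Ioc Q (2 * Q), ∑ a ∈ S q,
          |∑ n ∈ (Icc 1 (y q a)).filter (fun n => n ≡ a [MOD q]), hR R n|)
        + ∑ q ∈ Ioc Q (2 * Q), ∑ a ∈ (S q).filter (fun a => Nat.Coprime a q),
          |(∑ n ∈ (Icc 1 (y q a)).filter (fun n => n ≡ a [MOD q]), lamR R n)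
            - (y q a : ℝ) / (q.totient : ℝ)| := by
    rw [← Finset.sum_add_distrib]
    apply Finset.sum_le_sum
    intro q _
    have h6 : ∑ a ∈ (S q).filter (fun a => Nat.Coprime a q),
        |∑ n ∈ (Icc 1 (y q a)).filter (fun n => n ≡ a [MOD q]), hR R n|
        ≤ ∑ a ∈ S q,
          |∑ n ∈ (Icc 1 (y q a)).filter (fun n => n ≡ a [MOD q]), hR R n| := by
      apply Finset.sum_le_sum_of_subset_of_nonneg (Finset.filter_subset _ _)
      intro a _ _
      exact abs_nonneg _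
    refine le_trans ?_ (add_le_add h6 le_rfl)
    rw [← Finset.sum_add_distrib]
    apply Finset.sum_le_sum
    intro a _
    have h7 : psiA (y q a) q a = (∑ n ∈ (Icc 1 (y q a)).filter (fun n => n ≡ a [MOD q]), hR R n)
        + ∑ n ∈ (Icc 1 (y q a)).filter (fun n => n ≡ a [MOD q]), lamR R n := by
      rw [← Finset.sum_add_distrib]
      apply Finset.sum_congr rfl
      intro n _
      unfold hR
      ring
    rw [h7, add_sub_assoc]
    exact abs_add_le _ _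
  refine h5.trans ?_
  have h8 : 0 ≤ (H : ℝ) * x := by positivity
  have h7 : (H : ℝ) * x / L ^ (c + 1) ≤ H * x / L ^ c / 8 := by
    rw [div_div]
    apply div_le_div_of_nonneg_left h8 (by positivity)
    calc L ^ c * 8 ≤ L ^ c * L := by
          apply mul_le_mul_of_nonneg_left hlog8 (by positivity)
      _ = L ^ (c + 1) := by ring
  have h6 : (H : ℝ) * x / L ^ (c + 2) ≤ H * x / L ^ c / 8 := by
    refine le_trans ?_ h7
    apply div_le_div_of_nonneg_left h8 (by positivity)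
    exact pow_le_pow_right₀ hL1 (by omega)
  have h9 : 0 ≤ (H : ℝ) * x / L ^ c := by positivity
  linarith [h1, h2, h3, h4]

end Pool.Agent.H91.L1

end

section

/-!
# PSI Dy: dyadic decomposition of the truncated products

`lot k y w = ∑_{j < top k y w} pc k j` (every `1 ≤ n < 2^b` lies in exactly one `[2^j, 2^(j+1))`), then
`Finset.prod_univ_sum`.
-/

set_option autoImplicit false

namespace Pool.Agent.H88.PSI

open Finset

private theorem Dy_seg (k : Fin 3) (b : ℕ) :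
    seg k 1 (2 ^ b) = ∑ j ∈ range b, pc k j := by
  induction b with
  | zero =>
    ext n
    rw [Finset.range_zero, Finset.sum_empty, ArithmeticFunction.zero_apply]
    show (if n ≠ 0 ∧ 1 ≤ n ∧ n < 2 ^ 0 then kf k n else 0) = 0
    rw [if_neg]
    rw [pow_zero]
    omega
  | succ b ih =>
    rw [Finset.sum_range_succ, ← ih]
    ext n
    rw [ArithmeticFunction.add_apply]
    show (if n ≠ 0 ∧ 1 ≤ n ∧ n < 2 ^ (b + 1) then kf k n else 0) =
      (if n ≠ 0 ∧ 1 ≤ n ∧ n < 2 ^ b then kf k n else 0) +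
      (if n ≠ 0 ∧ 2 ^ b ≤ n ∧ n < 2 ^ (b + 1) then kf k n else 0)
    have h0 : 0 < 2 ^ b := by positivity
    have h1 : 2 ^ (b + 1) = 2 * 2 ^ b := by ring
    by_cases h : n < 2 ^ b
    · rw [if_neg (show ¬ (n ≠ 0 ∧ 2 ^ b ≤ n ∧ n < 2 ^ (b + 1)) by omega), add_zero]
      by_cases hn : n = 0
      · rw [if_neg (by omega), if_neg (by omega)]
      · rw [if_pos (by omega), if_pos (by omega)]
    · rw [if_neg (show ¬ (n ≠ 0 ∧ 1 ≤ n ∧ n < 2 ^ b) by omega), zero_add]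
      by_cases hn : n < 2 ^ (b + 1)
      · rw [if_pos (by omega), if_pos (by omega)]
      · rw [if_neg (by omega), if_neg (by omega)]

theorem tp_dy {r : ℕ} (κ : Fin r → Fin 3) (y w : ℕ) :
    Tp κ y w = ∑ j ∈ Fintype.piFinset (fun i => range (top (κ i) y w)), Pp κ j := by
  unfold Tp Pp lot
  simp only [Dy_seg]
  exact Finset.prod_univ_sum _ _

end Pool.Agent.H88.PSI

end

section

/-!
# PSI Kap: the kernel of the logarithmic windows

`kp h t = ∫_{-h}^{0} ee(-t v) dv`; `|kp| ≤ h`, `|kp| ≤ 1/(π|t|)`, `|kp - h| ≤ π |t| h^2`.  The Fourier transform of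
`u ↦ [u < c ≤ u + h]` is `ee(-t c) kp h t`... (`u = c + v`, `-h ≤ v < 0`).
-/

set_option autoImplicit false

namespace Pool.Agent.H88.PSI

open Finset MeasureTheory
open Pool.Agent.H91.PK (ee)

private theorem kap_cont (t : ℝ) : Continuous fun v : ℝ => ee (-(v * t)) := by
  unfold ee
  fun_prop

/-- `∫_{-h}^{0} ee(-(v t)) dv` -/
noncomputable def kp (h t : ℝ) : ℂ := ∫ v in (-h)..0, ee (-(v * t))

theorem kp_le (h t : ℝ) (hh : 0 ≤ h) : ‖kp h t‖ ≤ h := by
  unfold kp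
  have h1 : ‖∫ v in (-h)..0, ee (-(v * t))‖ ≤ 1 * |0 - (-h)| :=
    intervalIntegral.norm_integral_le_of_norm_le_const fun x _ =>
      (Pool.Agent.H91.PK.LSa_norm_ee _).le
  rwa [one_mul, zero_sub, neg_neg, abs_of_nonneg hh] at h1

theorem kp_inv (h t : ℝ) (ht : t ≠ 0) : ‖kp h t‖ ≤ 1 / (2 * |t|) := by
  have hc : (-(2 * Real.pi * t * Complex.I) : ℂ) ≠ 0 := by
    refine neg_ne_zero.2 (mul_ne_zero (mul_ne_zero (mul_ne_zero two_ne_zero ?_) ?_)
      Complex.I_ne_zero)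
    · exact_mod_cast Real.pi_ne_zero
    · exact_mod_cast ht
  have hd : ∀ v : ℝ, HasDerivAt (fun v : ℝ => ee (-(v * t)) / (-(2 * Real.pi * t * Complex.I)))
      (ee (-(v * t))) v := by
    intro v
    have h1 : HasDerivAt (fun v : ℝ => (-(2 * Real.pi * t * Complex.I) : ℂ) * ((v : ℝ) : ℂ))
        (-(2 * Real.pi * t * Complex.I)) v := by
      have h2 := (Complex.ofRealCLM.hasDerivAt (x := v)).const_mul
        (-(2 * Real.pi * t * Complex.I) : ℂ)
      simpa using h2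
    have h3 := h1.cexp.div_const (-(2 * Real.pi * t * Complex.I))
    have h4 : (fun v : ℝ => ee (-(v * t)) / (-(2 * Real.pi * t * Complex.I))) =
        fun v : ℝ => Complex.exp (-(2 * Real.pi * t * Complex.I) * (v : ℂ)) /
          (-(2 * Real.pi * t * Complex.I)) := by
      funext v
      unfold ee
      congr 2
      push_cast
      ring
    rw [h4]
    have h5 : ee (-(v * t)) = Complex.exp (-(2 * Real.pi * t * Complex.I) * (v : ℂ)) *
        (-(2 * Real.pi * t * Complex.I)) / (-(2 * Real.pi * t * Complex.I)) := by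
      rw [mul_div_cancel_right₀ _ hc]
      unfold ee
      congr 1
      push_cast
      ring
    rw [h5]
    exact h3
  have h6 : kp h t = ee (-(0 * t)) / (-(2 * Real.pi * t * Complex.I)) -
      ee (-(-h * t)) / (-(2 * Real.pi * t * Complex.I)) := by
    unfold kp
    exact intervalIntegral.integral_eq_sub_of_hasDerivAt (fun v _ => hd v)
      ((kap_cont t).intervalIntegrable _ _)
  rw [h6, ← sub_div, norm_div]
  have h7 : ‖(-(2 * Real.pi * t * Complex.I) : ℂ)‖ = 2 * Real.pi * |t| := by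
    rw [norm_neg, norm_mul, norm_mul, norm_mul, Complex.norm_I, Complex.norm_real,
      Complex.norm_real, Real.norm_eq_abs, Real.norm_eq_abs, abs_of_pos Real.pi_pos]
    simp
  have h8 : ‖ee (-(0 * t)) - ee (-(-h * t))‖ ≤ 2 := by
    refine (norm_sub_le _ _).trans ?_
    rw [Pool.Agent.H91.PK.LSa_norm_ee, Pool.Agent.H91.PK.LSa_norm_ee]
    norm_num
  have ht' : 0 < |t| := abs_pos.2 ht
  rw [h7]
  refine (div_le_div_of_nonneg_right h8 (by positivity)).trans ?_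
  rw [div_le_div_iff₀ (by positivity) (by positivity)]
  nlinarith [Real.pi_gt_three]

private theorem kap_sub_one (s : ℝ) : ‖ee s - 1‖ ≤ 2 * Real.pi * |s| := by
  have h1 := Real.norm_exp_I_mul_ofReal_sub_one_le (x := 2 * Real.pi * s)
  have h2 : ee s = Complex.exp (Complex.I * ((2 * Real.pi * s : ℝ) : ℂ)) := by
    unfold ee
    congr 1
    push_cast
    ring
  rw [h2]
  refine h1.trans ?_
  rw [Real.norm_eq_abs, abs_mul, abs_of_pos (by positivity : (0 : ℝ) < 2 * Real.pi)]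

theorem kp_sub (h t : ℝ) (hh : 0 ≤ h) : ‖kp h t - h‖ ≤ 4 * |t| * h ^ 2 := by
  have h1 : kp h t - h = ∫ v in (-h)..0, (ee (-(v * t)) - 1) := by
    rw [intervalIntegral.integral_sub ((kap_cont t).intervalIntegrable _ _)
      (continuous_const.intervalIntegrable _ _), intervalIntegral.integral_const]
    unfold kp
    simp
  rw [h1]
  have h2 : ‖∫ v in (-h)..0, (ee (-(v * t)) - 1)‖ ≤
      ∫ v in (-h)..0, (2 * Real.pi * |t|) * (-v) := by
    refine intervalIntegral.norm_integral_le_of_norm_le (by linarith) ?_ ?_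
    · filter_upwards with v hv
      refine (kap_sub_one _).trans (le_of_eq ?_)
      rw [abs_neg, abs_mul, abs_of_nonpos hv.2]
      ring
    · exact (continuous_const.mul continuous_neg).intervalIntegrable _ _
  refine h2.trans ?_
  rw [intervalIntegral.integral_const_mul, intervalIntegral.integral_neg, integral_id]
  have h3 : 0 ≤ |t| * h ^ 2 := by positivity
  nlinarith [Real.pi_lt_four]

private theorem kap_ind (c h u : ℝ) (a : ℂ) :
    (if u < c ∧ c ≤ u + h then a else 0) = (Set.Ico (c - h) c).indicator (fun _ => a) u := by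
  by_cases h1 : u < c ∧ c ≤ u + h
  · rw [if_pos h1, Set.indicator_of_mem]
    exact ⟨by linarith [h1.2], h1.1⟩
  · rw [if_neg h1, Set.indicator_of_notMem]
    intro h2
    exact h1 ⟨h2.2, by linarith [h2.1]⟩

private theorem kap_gw (f : ℕ → ℂ) (N : ℕ) (hs hl H H1 u : ℝ) :
    Gw f N hs hl H H1 u = ∑ n ∈ Icc 1 N,
      ((Set.Ico (Real.log n - hs) (Real.log n)).indicator (fun _ => f n * (1 / H : ℝ)) u -
        (Set.Ico (Real.log n - hl) (Real.log n)).indicator (fun _ => f n * (1 / H1 : ℝ)) u) := by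
  unfold Gw
  refine sum_congr rfl fun n _ => ?_
  rw [← kap_ind, ← kap_ind]
  push_cast
  split_ifs <;> simp [mul_sub]

private theorem kap_mem (f : ℕ → ℂ) (N : ℕ) (hs hl H H1 : ℝ) (p : ENNReal) :
    MemLp (Gw f N hs hl H H1) p := by
  have h1 : Gw f N hs hl H H1 = fun u => ∑ n ∈ Icc 1 N,
      ((Set.Ico (Real.log n - hs) (Real.log n)).indicator (fun _ => f n * (1 / H : ℝ)) u -
        (Set.Ico (Real.log n - hl) (Real.log n)).indicator (fun _ => f n * (1 / H1 : ℝ)) u) :=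
    funext fun u => kap_gw f N hs hl H H1 u
  rw [h1]
  refine memLp_finsetSum _ fun n _ => ?_
  refine MemLp.sub ?_ ?_
  · exact memLp_indicator_const p measurableSet_Ico _ (Or.inr (by simp))
  · exact memLp_indicator_const p measurableSet_Ico _ (Or.inr (by simp))

/-- `Gw` is bounded with compact support -/
theorem gw_L1 (f : ℕ → ℂ) (N : ℕ) (hs hl H H1 : ℝ) (h1 : 0 ≤ hs) (h2 : 0 ≤ hl) :
    Integrable (Gw f N hs hl H H1) ∧ MemLp (Gw f N hs hl H H1) 2 := by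
  have _ := h1
  have _ := h2
  exact ⟨memLp_one_iff_integrable.1 (kap_mem f N hs hl H H1 1), kap_mem f N hs hl H H1 2⟩

private theorem kap_int (c h t : ℝ) (a : ℂ) (hh : 0 ≤ h) :
    ∫ u, (Set.Ico (c - h) c).indicator (fun _ => a) u * ee (-(u * t)) =
      a * (ee (-(c * t)) * kp h t) := by
  have h1 : (fun u => (Set.Ico (c - h) c).indicator (fun _ => a) u * ee (-(u * t))) =
      (Set.Ico (c - h) c).indicator fun u => a * ee (-(u * t)) := by
    funext u
    by_cases hu : u ∈ Set.Ico (c - h) c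
    · rw [Set.indicator_of_mem hu, Set.indicator_of_mem hu]
    · rw [Set.indicator_of_notMem hu, Set.indicator_of_notMem hu, zero_mul]
  rw [h1, integral_indicator measurableSet_Ico, integral_Ico_eq_integral_Ioo,
    ← integral_Ioc_eq_integral_Ioo, ← intervalIntegral.integral_of_le (by linarith),
    intervalIntegral.integral_const_mul]
  congr 1
  unfold kp
  have h2 : ∫ u in (c - h)..c, ee (-(u * t)) = ∫ v in (-h)..0, ee (-((v + c) * t)) := by
    rw [intervalIntegral.integral_comp_add_right (fun x => ee (-(x * t))) c]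
    congr 1 <;> ring
  rw [h2, ← intervalIntegral.integral_const_mul]
  refine intervalIntegral.integral_congr fun v _ => ?_
  show ee (-((v + c) * t)) = ee (-(c * t)) * ee (-(v * t))
  rw [← Pool.Agent.H91.PK.LSa_ee_add]
  congr 1
  ring

private theorem kap_integrable (c h t : ℝ) (a : ℂ) :
    Integrable fun u => (Set.Ico (c - h) c).indicator (fun _ => a) u * ee (-(u * t)) := by
  have h1 : Integrable fun u => (Set.Ico (c - h) c).indicator (fun _ => a) u :=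
    memLp_one_iff_integrable.1 (memLp_indicator_const 1 measurableSet_Ico _ (Or.inr (by simp)))
  refine h1.mul_bdd (c := 1) (kap_cont t).aestronglyMeasurable ?_
  filter_upwards with u
  exact (Pool.Agent.H91.PK.LSa_norm_ee _).le

/-- the Fourier transform of `Gw` -/
theorem gw_four (f : ℕ → ℂ) (N : ℕ) (hs hl H H1 t : ℝ) (h1 : 0 ≤ hs) (h2 : 0 ≤ hl) :
    ∫ u, Gw f N hs hl H H1 u * ee (-(u * t)) = DP f N (-t) * (kp hs t / H - kp hl t / H1) := by
  have h3 : (fun u => Gw f N hs hl H H1 u * ee (-(u * t))) = fun u => ∑ n ∈ Icc 1 N,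
      ((Set.Ico (Real.log n - hs) (Real.log n)).indicator (fun _ => f n * (1 / H : ℝ)) u *
          ee (-(u * t)) -
        (Set.Ico (Real.log n - hl) (Real.log n)).indicator (fun _ => f n * (1 / H1 : ℝ)) u *
          ee (-(u * t))) := by
    funext u
    rw [kap_gw, sum_mul]
    exact sum_congr rfl fun n _ => sub_mul _ _ _
  rw [h3]
  have h5 : ∀ n ∈ Icc 1 N, Integrable fun u : ℝ =>
      ((Set.Ico (Real.log n - hs) (Real.log n)).indicator (fun _ => f n * (1 / H : ℝ)) u *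
          ee (-(u * t)) -
        (Set.Ico (Real.log n - hl) (Real.log n)).indicator (fun _ => f n * (1 / H1 : ℝ)) u *
          ee (-(u * t))) := fun n _ => (kap_integrable _ _ _ _).sub (kap_integrable _ _ _ _)
  rw [integral_finsetSum _ h5]
  unfold DP
  rw [sum_mul]
  refine sum_congr rfl fun n _ => ?_
  rw [integral_sub (kap_integrable _ _ _ _) (kap_integrable _ _ _ _), kap_int _ _ _ _ h1,
    kap_int _ _ _ _ h2]
  have h4 : -(Real.log n * t) = -t * Real.log n := by ring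
  rw [h4]
  push_cast
  ring

end Pool.Agent.H88.PSI

end

section

/-!
# PSI Conv: from windows of fixed length to logarithmic windows

`∑_{x ∈ [X, 2X)} |D(x)|^2 = ∫_X^{2X} |D(⌊x⌋)|^2 dx`; for real `x` and natural `H`: `n ∈ (⌊x⌋, ⌊x⌋ + H]` iff `x < n ≤ x + H`.  For
`X_i = X (1 + i/K) ≤ x < X_{i+1}` the window `(x, x + H]` is compared with `(x, x + H x/X_i] = (x, x e^{h_i}]`, `h_i = log(1 + H/X_i)` (`x < n ≤ x e^h` iff
`log x < log n ≤ log x + h`): the difference is a sum over `(x + H, x + H x/X_i]`, of length `≤ H/K`, with `≤ H/K + 1 ≤ 2 H/K` integers; by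
Cauchy-Schwarz and Fubini its mean square is `≤ (2H/K)(H/K) SS f N` (every `n` lies in the windows for `x` in a set of measure
`≤ 2 H/K`).  The same for `H1`.  Main part: substitution `u = log x`, `dx = e^u du ≤ 2 X du`.
-/

set_option autoImplicit false

namespace Pool.Agent.H88.PSI

open Finset MeasureTheory

/-- the sum over a real window -/
private noncomputable def convW (f : ℕ → ℂ) (N : ℕ) (s e : ℝ) : ℂ :=
  ∑ n ∈ Icc 1 N, if s < (n : ℝ) ∧ (n : ℝ) ≤ e then f n else 0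

private noncomputable def convP (f : ℕ → ℂ) (N : ℕ) (a b y : ℝ) : ℝ :=
  ∑ n ∈ Icc 1 N, (Set.Ico ((n : ℝ) - a - b) ((n : ℝ) - a)).indicator (fun _ => ‖f n‖ ^ 2) y

private theorem convP_nonneg (f : ℕ → ℂ) (N : ℕ) (a b y : ℝ) : 0 ≤ convP f N a b y :=
  sum_nonneg fun n _ => Set.indicator_nonneg (fun _ _ => by positivity) _

private theorem conv_card (N : ℕ) (a b : ℝ) (ha : 0 ≤ a) (hab : a ≤ b) :
    (((Icc 1 N).filter fun n : ℕ => a < (n : ℝ) ∧ (n : ℝ) ≤ b).card : ℝ) ≤ b - a + 1 := by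
  have h1 : ((Icc 1 N).filter fun n : ℕ => a < (n : ℝ) ∧ (n : ℝ) ≤ b) ⊆ Ioc ⌊a⌋₊ ⌊b⌋₊ := by
    intro n hn
    rw [mem_filter] at hn
    rw [mem_Ioc]
    exact ⟨(Nat.floor_lt ha).2 hn.2.1, Nat.le_floor hn.2.2⟩
  have h2 := card_le_card h1
  rw [Nat.card_Ioc] at h2
  have h3 : ⌊a⌋₊ ≤ ⌊b⌋₊ := Nat.floor_le_floor hab
  have h4 : ((⌊b⌋₊ - ⌊a⌋₊ : ℕ) : ℝ) = (⌊b⌋₊ : ℝ) - ⌊a⌋₊ := Nat.cast_sub h3
  have h5 : (⌊b⌋₊ : ℝ) ≤ b := Nat.floor_le (ha.trans hab)
  have h6 : a < ⌊a⌋₊ + 1 := Nat.lt_floor_add_one a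
  have h7 : (((Icc 1 N).filter fun n : ℕ => a < (n : ℝ) ∧ (n : ℝ) ≤ b).card : ℝ) ≤
      ((⌊b⌋₊ - ⌊a⌋₊ : ℕ) : ℝ) := by exact_mod_cast h2
  linarith only [h4, h5, h6, h7]

private theorem conv_diff (f : ℕ → ℂ) (N : ℕ) (K H c y : ℝ) (hK : 1 ≤ K) (hH : 0 ≤ H) (hc : 0 < c)
    (hy : c ≤ y) (hy2 : y ≤ c * (1 + 1 / K)) :
    ‖convW f N y (y + H * y / c) - convW f N y (y + H)‖ ^ 2 ≤
      (H / K + 1) * convP f N H (H / K) y := by
  have hy0 : 0 < y := by linarith only [hc, hy]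
  have hK0 : 0 < K := by linarith only [hK]
  have hle : y + H ≤ y + H * y / c := by
    have : H ≤ H * y / c := by
      rw [le_div_iff₀ hc]
      exact mul_le_mul_of_nonneg_left hy hH
    linarith only [this]
  have hle2 : H * y / c ≤ H + H / K := by
    rw [div_le_iff₀ hc]
    have h1 : H * y ≤ H * (c * (1 + 1 / K)) := mul_le_mul_of_nonneg_left hy2 hH
    have h2 : H * (c * (1 + 1 / K)) = (H + H / K) * c := by ring
    linarith only [h1, h2]
  set S := (Icc 1 N).filter fun n : ℕ => y + H < (n : ℝ) ∧ (n : ℝ) ≤ y + H * y / c with hS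
  have h1 : convW f N y (y + H * y / c) - convW f N y (y + H) = ∑ n ∈ S, f n := by
    unfold convW
    rw [← sum_sub_distrib, hS, sum_filter]
    refine sum_congr rfl fun n _ => ?_
    by_cases a1 : (n : ℝ) ≤ y
    · rw [if_neg (fun h => absurd h.1 (not_lt.2 a1)), if_neg (fun h => absurd h.1 (not_lt.2 a1)),
        if_neg (fun h => absurd h.1 (not_lt.2 (by linarith only [hH, a1, h]))), sub_zero]
    · have a2 : y < (n : ℝ) := not_le.1 a1
      by_cases a3 : (n : ℝ) ≤ y + H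
      · rw [if_pos ⟨a2, a3.trans hle⟩, if_pos ⟨a2, a3⟩, if_neg (fun h => absurd h.1 (not_lt.2 a3)),
          sub_self]
      · by_cases a4 : (n : ℝ) ≤ y + H * y / c
        · rw [if_pos ⟨a2, a4⟩, if_neg (fun h => a3 h.2), if_pos ⟨not_le.1 a3, a4⟩, sub_zero]
        · rw [if_neg (fun h => a4 h.2), if_neg (fun h => a3 h.2), if_neg (fun h => a4 h.2),
            sub_zero]
  have h2 : ‖∑ n ∈ S, f n‖ ^ 2 ≤ (S.card : ℝ) * ∑ n ∈ S, ‖f n‖ ^ 2 :=
    (pow_le_pow_left₀ (norm_nonneg _) (norm_sum_le _ _) 2).trans sq_sum_le_card_mul_sum_sq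
  have h3 : (S.card : ℝ) ≤ H / K + 1 := by
    refine (conv_card N (y + H) (y + H * y / c) (by linarith only [hH, hc, hy]) hle).trans ?_
    linarith only [hle2]
  have h4 : ∑ n ∈ S, ‖f n‖ ^ 2 ≤ convP f N H (H / K) y := by
    unfold convP
    rw [hS, sum_filter]
    refine sum_le_sum fun n _ => ?_
    split_ifs with a1
    · rw [Set.indicator_of_mem]
      exact ⟨by linarith only [hle2, a1, a1.2], by linarith only [a1, a1.1]⟩
    · exact Set.indicator_nonneg (fun _ _ => by positivity) _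
  rw [h1]
  refine h2.trans (mul_le_mul h3 h4 (sum_nonneg fun _ _ => by positivity) ?_)
  positivity

private theorem conv_W (f : ℕ → ℂ) (N H x : ℕ) (y : ℝ) (hy : (x : ℝ) ≤ y) (hy2 : y < x + 1)
    (hN : x + H ≤ N) : W f H x = convW f N y (y + H) := by
  unfold W convW
  rw [← sum_filter]
  refine sum_congr ?_ fun _ _ => rfl
  ext n
  rw [mem_Ioc, mem_filter, mem_Icc]
  constructor
  · rintro ⟨h1, h2⟩
    have h1' : (x : ℝ) + 1 ≤ n := by exact_mod_cast h1
    have h2' : (n : ℝ) ≤ x + H := by exact_mod_cast h2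
    exact ⟨⟨by omega, by omega⟩, by linarith only [hy2, h1'], by linarith only [hy, h2']⟩
  · rintro ⟨⟨h1, h2⟩, h3, h4⟩
    constructor
    · by_contra h5
      have h6 : (n : ℝ) ≤ x := by exact_mod_cast not_lt.1 h5
      linarith only [hy, h3, h6]
    · by_contra h5
      have h6 : (x : ℝ) + H + 1 ≤ n := by exact_mod_cast not_le.1 h5
      linarith only [hy2, h4, h6]

private theorem conv_G (f : ℕ → ℂ) (N : ℕ) (H H1 c y : ℝ) (hH : 0 ≤ H) (hH1 : 0 ≤ H1) (hc : 0 < c)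
    (hy : 0 < y) : Gw f N (Real.log (1 + H / c)) (Real.log (1 + H1 / c)) H H1 (Real.log y) =
      convW f N y (y + H * y / c) / H - convW f N y (y + H1 * y / c) / H1 := by
  have key : ∀ (h : ℝ), 0 ≤ h → ∀ n ∈ Icc 1 N, (Real.log y < Real.log (n : ℝ) ∧
      Real.log (n : ℝ) ≤ Real.log y + Real.log (1 + h / c)) ↔
      (y < (n : ℝ) ∧ (n : ℝ) ≤ y + h * y / c) := by
    intro h hh n hn
    have hn0 : (0 : ℝ) < n := by
      rw [mem_Icc] at hn
      exact_mod_cast hn.1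
    have hp : 0 < 1 + h / c := by positivity
    rw [Real.log_lt_log_iff hy hn0, ← Real.log_mul hy.ne' hp.ne',
      Real.log_le_log_iff hn0 (by positivity)]
    have e : y * (1 + h / c) = y + h * y / c := by ring
    rw [e]
  unfold Gw convW
  rw [sum_div, sum_div, ← sum_sub_distrib]
  refine sum_congr rfl fun n hn => ?_
  have k1 := key H hH n hn
  have k2 := key H1 hH1 n hn
  by_cases a1 : y < (n : ℝ) ∧ (n : ℝ) ≤ y + H * y / c
  · by_cases a2 : y < (n : ℝ) ∧ (n : ℝ) ≤ y + H1 * y / c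
    · rw [if_pos (k1.2 a1), if_pos (k2.2 a2), if_pos a1, if_pos a2]
      push_cast
      ring
    · rw [if_pos (k1.2 a1), if_neg (fun h => a2 (k2.1 h)), if_pos a1, if_neg a2]
      push_cast
      ring
  · by_cases a2 : y < (n : ℝ) ∧ (n : ℝ) ≤ y + H1 * y / c
    · rw [if_neg (fun h => a1 (k1.1 h)), if_pos (k2.2 a2), if_neg a1, if_pos a2]
      push_cast
      ring
    · rw [if_neg (fun h => a1 (k1.1 h)), if_neg (fun h => a2 (k2.1 h)), if_neg a1, if_neg a2]
      push_cast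
      ring

private theorem conv_sq (a b : ℂ) : ‖a + b‖ ^ 2 ≤ 2 * ‖a‖ ^ 2 + 2 * ‖b‖ ^ 2 := by
  have h1 := pow_le_pow_left₀ (norm_nonneg _) (norm_add_le a b) 2
  nlinarith only [h1, sq_nonneg (‖a‖ - ‖b‖)]

private theorem conv_scale {K H : ℝ} {d : ℂ} {P : ℝ} (hK : 1 ≤ K) (hH : K ≤ H) (hP : 0 ≤ P)
    (h : ‖d‖ ^ 2 ≤ (H / K + 1) * P) : ‖d / (H : ℂ)‖ ^ 2 ≤ 2 / (H * K) * P := by
  have pK : 0 < K := by linarith only [hK]
  have pH : 0 < H := by linarith
  rw [norm_div, Complex.norm_real, Real.norm_eq_abs, abs_of_pos pH, div_pow,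
    div_le_iff₀ (by positivity)]
  have h1 : 1 ≤ H / K := by rwa [le_div_iff₀ pK, one_mul]
  have h2 : (H / K + 1) * P ≤ (2 * (H / K)) * P := mul_le_mul_of_nonneg_right (by linarith only [h1]) hP
  have h3 : 2 / (H * K) * P * H ^ 2 = 2 * (H / K) * P := by field_simp
  rw [h3]
  exact h.trans h2

private theorem conv_point (f : ℕ → ℂ) (N X H H1 x : ℕ) (K c y : ℝ) (hK : 1 ≤ K) (hH : K ≤ H)
    (hH1 : H ≤ H1) (hH2 : H1 ≤ X) (hN : 4 * X ≤ N) (hx : x < 2 * X) (h1 : (x : ℝ) ≤ y)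
    (h2 : y < x + 1) (hc : 0 < c) (hy : c ≤ y) (hy2 : y ≤ c * (1 + 1 / K)) :
    ‖D f H H1 x‖ ^ 2 ≤
      2 * ‖Gw f N (Real.log (1 + H / c)) (Real.log (1 + H1 / c)) H H1 (Real.log y)‖ ^ 2 +
        (8 / (H * K) * convP f N H (H / K) y + 8 / (H1 * K) * convP f N H1 (H1 / K) y) := by
  have pH : (0 : ℝ) ≤ H := Nat.cast_nonneg H
  have pH1 : (0 : ℝ) ≤ H1 := Nat.cast_nonneg H1
  have hHH : (H : ℝ) ≤ H1 := by exact_mod_cast hH1
  have hy0 : 0 < y := by linarith only [hc, hy]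
  have e1 := conv_G f N H H1 c y pH pH1 hc hy0
  have e2 := conv_W f N H x y h1 h2 (by omega)
  have e3 := conv_W f N H1 x y h1 h2 (by omega)
  have d1 := conv_scale hK hH (convP_nonneg _ _ _ _ _) (conv_diff f N K H c y hK pH hc hy hy2)
  have d2 := conv_scale hK (hH.trans hHH) (convP_nonneg _ _ _ _ _)
    (conv_diff f N K H1 c y hK pH1 hc hy hy2)
  have e4 : D f H H1 x = Gw f N (Real.log (1 + H / c)) (Real.log (1 + H1 / c)) H H1 (Real.log y) +
      (-((convW f N y (y + H * y / c) - convW f N y (y + H)) / ((H : ℝ) : ℂ)) +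
        (convW f N y (y + H1 * y / c) - convW f N y (y + H1)) / ((H1 : ℝ) : ℂ)) := by
    rw [e1]
    unfold D
    rw [e2, e3]
    push_cast
    ring
  rw [e4]
  refine (conv_sq _ _).trans ?_
  have s1 := conv_sq (-((convW f N y (y + H * y / c) - convW f N y (y + H)) / ((H : ℝ) : ℂ)))
    ((convW f N y (y + H1 * y / c) - convW f N y (y + H1)) / ((H1 : ℝ) : ℂ))
  rw [norm_neg] at s1
  have s2 : 8 / ((H : ℝ) * K) * convP f N H (H / K) y = 4 * (2 / (H * K) * convP f N H (H / K) y) :=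
    by ring
  have s3 : 8 / ((H1 : ℝ) * K) * convP f N H1 (H1 / K) y =
    4 * (2 / (H1 * K) * convP f N H1 (H1 / K) y) := by ring
  rw [s2, s3]
  linarith only [d1, d2, s1]

private theorem convP_int (f : ℕ → ℂ) (N : ℕ) (a b : ℝ) (hb : 0 ≤ b) :
    Integrable (convP f N a b) ∧ ∫ y, convP f N a b y = b * SS f N := by
  have h1 : ∀ n ∈ Icc 1 N, Integrable fun y : ℝ =>
      (Set.Ico ((n : ℝ) - a - b) ((n : ℝ) - a)).indicator (fun _ => ‖f n‖ ^ 2) y := fun n _ =>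
    memLp_one_iff_integrable.1 (memLp_indicator_const 1 measurableSet_Ico _ (Or.inr (by simp)))
  refine ⟨integrable_finsetSum _ h1, ?_⟩
  unfold convP SS
  rw [integral_finsetSum _ h1, mul_sum]
  refine sum_congr rfl fun n _ => ?_
  rw [integral_indicator_const _ measurableSet_Ico, smul_eq_mul]
  congr 1
  rw [Real.volume_real_Ico_of_le (by linarith)]
  ring

/-- the substitution -/
private theorem conv_subst (g : ℝ → ℝ) (hg : Integrable g) (hg0 : ∀ u, 0 ≤ g u) (a b : ℝ)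
    (ha : 0 < a) (hab : a ≤ b) :
    IntegrableOn (fun y => g (Real.log y)) (Set.Ico a b) ∧
      ∫ y in Set.Ico a b, g (Real.log y) ≤ b * ∫ u, g u := by
  have hb : 0 < b := by linarith
  have him : Real.exp '' Set.Ico (Real.log a) (Real.log b) = Set.Ico a b := by
    ext y
    constructor
    · rintro ⟨u, ⟨h1, h2⟩, rfl⟩
      exact ⟨(Real.log_le_iff_le_exp ha).1 h1, (Real.lt_log_iff_exp_lt hb).1 h2⟩
    · rintro ⟨h1, h2⟩
      have hy : 0 < y := by linarith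
      exact ⟨Real.log y, ⟨Real.log_le_log ha h1, Real.log_lt_log hy h2⟩, Real.exp_log hy⟩
  have hd : ∀ x ∈ Set.Ico (Real.log a) (Real.log b),
      HasDerivWithinAt Real.exp (Real.exp x) (Set.Ico (Real.log a) (Real.log b)) x :=
    fun x _ => (Real.hasDerivAt_exp x).hasDerivWithinAt
  have hinj : Set.InjOn Real.exp (Set.Ico (Real.log a) (Real.log b)) :=
    Real.exp_injective.injOn
  have hi : IntegrableOn (fun u => |Real.exp u| • g (Real.log (Real.exp u)))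
      (Set.Ico (Real.log a) (Real.log b)) := by
    have h1 : Integrable (fun u => g u) (volume.restrict (Set.Ico (Real.log a) (Real.log b))) :=
      hg.integrableOn
    have h2 := h1.bdd_mul (c := b) (f := fun u => |Real.exp u|)
      (Real.continuous_exp.abs.aestronglyMeasurable) (by
        filter_upwards [ae_restrict_mem measurableSet_Ico] with u hu
        rw [Real.norm_eq_abs, abs_abs, abs_of_pos (Real.exp_pos u)]
        exact ((Real.lt_log_iff_exp_lt hb).1 hu.2).le)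
    refine h2.congr ?_
    filter_upwards with u
    rw [Real.log_exp, smul_eq_mul]
  constructor
  · rw [← him, integrableOn_image_iff_integrableOn_abs_deriv_smul measurableSet_Ico hd hinj]
    exact hi
  · rw [← him, integral_image_eq_integral_abs_deriv_smul measurableSet_Ico hd hinj,
      ← integral_const_mul]
    refine (setIntegral_mono_on hi (hg.const_mul b).integrableOn measurableSet_Ico
      fun u hu => ?_).trans ?_
    · rw [Real.log_exp, smul_eq_mul, abs_of_pos (Real.exp_pos u)]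
      exact mul_le_mul_of_nonneg_right ((Real.lt_log_iff_exp_lt hb).1 hu.2).le (hg0 u)
    · refine setIntegral_le_integral (hg.const_mul b) ?_
      filter_upwards with u
      exact mul_nonneg hb.le (hg0 u)

theorem conv (f : ℕ → ℂ) (N X H H1 K : ℕ) (hX : 1 ≤ X) (hK : 1 ≤ K) (hH : K ≤ H) (hH1 : H ≤ H1)
    (hH2 : H1 ≤ X) (hN : 4 * X ≤ N) :
    ∑ x ∈ Ico X (2 * X), ‖D f H H1 x‖ ^ 2
      ≤ 100 * SS f N / (K : ℝ) ^ 2 + 8 * X * ∑ i ∈ range K,
        ∫ u, ‖Gw f N (Real.log (1 + H / (X * (1 + (i : ℝ) / K))))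
          (Real.log (1 + H1 / (X * (1 + (i : ℝ) / K)))) H H1 u‖ ^ 2 := by
  have pX : (0 : ℝ) < X := by exact_mod_cast hX
  have pK : (0 : ℝ) < K := by exact_mod_cast hK
  have hK1 : (1 : ℝ) ≤ K := by exact_mod_cast hK
  have hKH : (K : ℝ) ≤ H := by exact_mod_cast hH
  have hHH : (H : ℝ) ≤ H1 := by exact_mod_cast hH1
  have pH : (0 : ℝ) < H := by linarith only [pK, hKH]
  have pH1 : (0 : ℝ) < H1 := by linarith only [pK, hKH, hHH]
  set c : ℕ → ℝ := fun i => X * (1 + (i : ℝ) / K) with hcdef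
  have cX : ∀ i, (X : ℝ) ≤ c i := by
    intro i
    have : (0 : ℝ) ≤ (i : ℝ) / K := by positivity
    show (X : ℝ) ≤ X * (1 + (i : ℝ) / K)
    nlinarith only [this]
  have cpos : ∀ i, 0 < c i := fun i => lt_of_lt_of_le pX (cX i)
  have cstep : ∀ i, c (i + 1) = c i + X / K := by
    intro i
    simp only [hcdef]
    push_cast
    ring
  have cle : ∀ i ∈ range K, c (i + 1) ≤ 2 * X := by
    intro i hi
    rw [mem_range] at hi
    have h1 : ((i + 1 : ℕ) : ℝ) ≤ K := by exact_mod_cast hi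
    have h2 : ((i + 1 : ℕ) : ℝ) / K ≤ 1 := by rwa [div_le_one pK]
    show (X : ℝ) * (1 + ((i + 1 : ℕ) : ℝ) / K) ≤ 2 * X
    nlinarith only [h2]
  set g : ℕ → ℝ → ℝ := fun i u => ‖Gw f N (Real.log (1 + H / c i))
          (Real.log (1 + H1 / c i)) H H1 u‖ ^ 2 with hgdef
  have hlog : ∀ (h : ℝ) (i : ℕ), 0 ≤ h → 0 ≤ Real.log (1 + h / c i) := by
    intro h i hh
    refine Real.log_nonneg ?_
    have : 0 ≤ h / c i := div_nonneg hh (cpos i).le
    linarith only [this]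
  have hgi : ∀ i, Integrable (g i) := by
    intro i
    have h1 := (gw_L1 f N (Real.log (1 + H / c i)) (Real.log (1 + H1 / c i)) H H1
      (hlog _ _ pH.le) (hlog _ _ pH1.le)).2
    exact (memLp_two_iff_integrable_sq_norm h1.1).1 h1
  have hg0 : ∀ i u, 0 ≤ g i u := fun i u => by
    simp only [hgdef]
    positivity
  set Q : ℝ → ℝ := fun y => (∑ i ∈ range K,
      (Set.Ico (c i) (c (i + 1))).indicator (fun y => 2 * g i (Real.log y)) y) +
      (8 / ((H : ℝ) * K) * convP f N H (H / K) y + 8 / ((H1 : ℝ) * K) * convP f N H1 (H1 / K) y)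
    with hQ
  have hs : ∀ i, IntegrableOn (fun y => g i (Real.log y)) (Set.Ico (c i) (c (i + 1))) ∧
      ∫ y in Set.Ico (c i) (c (i + 1)), g i (Real.log y) ≤ c (i + 1) * ∫ u, g i u := fun i =>
    conv_subst (g i) (hgi i) (hg0 i) _ _ (cpos i) (by
      rw [cstep]
      have : (0 : ℝ) ≤ X / K := by positivity
      linarith only [this])
  have hi1 : ∀ i ∈ range K, Integrable fun y =>
      (Set.Ico (c i) (c (i + 1))).indicator (fun y => 2 * g i (Real.log y)) y := by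
    intro i _
    rw [integrable_indicator_iff measurableSet_Ico]
    exact (hs i).1.const_mul 2
  have hP1 := convP_int f N H ((H : ℝ) / K) (by positivity)
  have hP2 := convP_int f N H1 ((H1 : ℝ) / K) (by positivity)
  have hi2 : Integrable fun y => 8 / ((H : ℝ) * K) * convP f N H (H / K) y := hP1.1.const_mul _
  have hi3 : Integrable fun y => 8 / ((H1 : ℝ) * K) * convP f N H1 (H1 / K) y := hP2.1.const_mul _
  have hQi : Integrable Q := (integrable_finsetSum _ hi1).add (hi2.add hi3)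
  have hQ0 : ∀ y, 0 ≤ Q y := by
    intro y
    simp only [hQ]
    have := convP_nonneg f N H ((H : ℝ) / K) y
    have := convP_nonneg f N H1 ((H1 : ℝ) / K) y
    have : 0 ≤ ∑ i ∈ range K,
      (Set.Ico (c i) (c (i + 1))).indicator (fun y => 2 * g i (Real.log y)) y :=
      sum_nonneg fun i _ => Set.indicator_nonneg (fun y _ => mul_nonneg zero_le_two (hg0 i _)) _
    positivity
  -- the pointwise bound
  have hpt : ∀ x ∈ Ico X (2 * X), ∀ y ∈ Set.Ico (x : ℝ) (x + 1), ‖D f H H1 x‖ ^ 2 ≤ Q y := by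
    intro x hx y hy
    rw [mem_Ico] at hx
    have hXx : (X : ℝ) ≤ x := by exact_mod_cast hx.1
    have hx2 : (x : ℝ) + 1 ≤ 2 * X := by exact_mod_cast hx.2
    have hz0 : 0 ≤ (y / X - 1) * K := by
      refine mul_nonneg ?_ pK.le
      have : 1 ≤ y / X := by
        rw [le_div_iff₀ pX]
        linarith only [hXx, hy, hy.1]
      linarith only [this]
    set i := ⌊(y / X - 1) * K⌋₊ with hi
    have hi1 : (i : ℝ) ≤ (y / X - 1) * K := Nat.floor_le hz0
    have hi2 : (y / X - 1) * K < i + 1 := Nat.lt_floor_add_one _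
    have hci : c i ≤ y := by
      have h1 : (i : ℝ) / K ≤ y / X - 1 := by rwa [div_le_iff₀ pK]
      have h2 : (X : ℝ) * (1 + (i : ℝ) / K) ≤ X * (y / X) :=
        mul_le_mul_of_nonneg_left (by linarith only [h1]) pX.le
      rwa [mul_div_cancel₀ _ pX.ne'] at h2
    have hci2 : y < c (i + 1) := by
      have h1 : y / X - 1 < ((i + 1 : ℕ) : ℝ) / K := by
        rw [lt_div_iff₀ pK]
        push_cast
        exact hi2
      have h2 : (X : ℝ) * (y / X) < X * (1 + ((i + 1 : ℕ) : ℝ) / K) :=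
        mul_lt_mul_of_pos_left (by linarith only [h1]) pX
      rwa [mul_div_cancel₀ _ pX.ne'] at h2
    have hiK : i < K := by
      have h1 : (y / X - 1) * K < K := by
        have : y / X < 2 := by
          rw [div_lt_iff₀ pX]
          linarith only [hx2, hy, hy.2]
        nlinarith only [pK, this]
      have h2 : (i : ℝ) < K := lt_of_le_of_lt hi1 h1
      exact_mod_cast h2
    have hy2 : y ≤ c i * (1 + 1 / (K : ℝ)) := by
      have h1 : y < c i + X / K := by rw [← cstep]; exact hci2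
      have h2 : (X : ℝ) / K ≤ c i / K := div_le_div_of_nonneg_right (cX i) pK.le
      have h3 : c i * (1 + 1 / (K : ℝ)) = c i + c i / K := by ring
      rw [h3]
      linarith only [h1, h2]
    have h5 := conv_point f N X H H1 x (K : ℝ) (c i) y hK1 hKH hH1 hH2 hN hx.2 hy.1 hy.2 (cpos i)
      hci hy2
    refine h5.trans ?_
    simp only [hQ]
    refine add_le_add ?_ le_rfl
    have h6 : 2 * ‖Gw f N (Real.log (1 + H / c i)) (Real.log (1 + H1 / c i)) H H1
        (Real.log y)‖ ^ 2 = (Set.Ico (c i) (c (i + 1))).indicator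
          (fun y => 2 * g i (Real.log y)) y := by
      rw [Set.indicator_of_mem (show y ∈ Set.Ico (c i) (c (i + 1)) from ⟨hci, hci2⟩)]
    rw [h6]
    exact single_le_sum (f := fun i => (Set.Ico (c i) (c (i + 1))).indicator
      (fun y => 2 * g i (Real.log y)) y) (fun j _ => Set.indicator_nonneg
        (fun y _ => mul_nonneg zero_le_two (hg0 j _)) _) (mem_range.2 hiK)
  -- integration
  have hx1 : ∀ x ∈ Ico X (2 * X), ‖D f H H1 x‖ ^ 2 ≤ ∫ y in Set.Ico (x : ℝ) (x + 1), Q y := by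
    intro x hx
    have h1 : ∫ y in Set.Ico (x : ℝ) (x + 1), ‖D f H H1 x‖ ^ 2 = ‖D f H H1 x‖ ^ 2 := by
      rw [setIntegral_const, smul_eq_mul, Real.volume_real_Ico_of_le (by linarith only)]
      ring
    rw [← h1]
    refine setIntegral_mono_on (integrableOn_const (by simp)) hQi.integrableOn measurableSet_Ico ?_
    exact hpt x hx
  have hsum : ∑ x ∈ Ico X (2 * X), ‖D f H H1 x‖ ^ 2 ≤ ∫ y, Q y := by
    refine (sum_le_sum hx1).trans ?_
    rw [← integral_biUnion_finset _ (fun _ _ => measurableSet_Ico) ?_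
      (fun _ _ => hQi.integrableOn)]
    · refine setIntegral_le_integral hQi ?_
      filter_upwards with y
      exact hQ0 y
    · intro a _ b _ hab
      rw [Function.onFun, Set.disjoint_left]
      intro y h1 h2
      rcases lt_or_gt_of_ne hab with h | h
      · have h3 : (a : ℝ) + 1 ≤ b := by exact_mod_cast h
        linarith only [h3, h1, h2, h1.2, h2.1]
      · have h3 : (b : ℝ) + 1 ≤ a := by exact_mod_cast h
        linarith only [h3, h1, h2, h1.1, h2.2]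
  refine hsum.trans ?_
  have hQint : ∫ y, Q y = (∑ i ∈ range K,
      ∫ y in Set.Ico (c i) (c (i + 1)), 2 * g i (Real.log y)) +
      (8 / ((H : ℝ) * K) * ((H : ℝ) / K * SS f N) +
        8 / ((H1 : ℝ) * K) * ((H1 : ℝ) / K * SS f N)) := by
    have e0 : ∫ y, Q y = (∫ y, ∑ i ∈ range K,
        (Set.Ico (c i) (c (i + 1))).indicator (fun y => 2 * g i (Real.log y)) y) +
        ∫ y, (8 / ((H : ℝ) * K) * convP f N H (H / K) y +
          8 / ((H1 : ℝ) * K) * convP f N H1 (H1 / K) y) :=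
      integral_add (integrable_finsetSum _ hi1) (hi2.add hi3)
    rw [e0, integral_finsetSum _ hi1, integral_add hi2 hi3, integral_const_mul, integral_const_mul,
      hP1.2, hP2.2]
    congr 1
    exact sum_congr rfl fun i _ => integral_indicator measurableSet_Ico
  rw [hQint]
  have hS : 0 ≤ SS f N := sum_nonneg fun _ _ => by positivity
  have h7 : ∑ i ∈ range K, ∫ y in Set.Ico (c i) (c (i + 1)), 2 * g i (Real.log y) ≤
      8 * X * ∑ i ∈ range K, ∫ u, g i u := by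
    rw [mul_sum]
    refine sum_le_sum fun i hi => ?_
    rw [integral_const_mul]
    have h8 := (hs i).2
    have h9 : 0 ≤ ∫ u, g i u := integral_nonneg (hg0 i)
    have h10 := mul_le_mul_of_nonneg_right (cle i hi) h9
    nlinarith only [h8, h10, pX, h9, mul_nonneg pX.le h9]
  have h8 : 8 / ((H : ℝ) * K) * ((H : ℝ) / K * SS f N) +
        8 / ((H1 : ℝ) * K) * ((H1 : ℝ) / K * SS f N) = 16 * (SS f N / (K : ℝ) ^ 2) := by
    field_simp
    ring
  have h9 : 0 ≤ SS f N / (K : ℝ) ^ 2 := by positivity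
  have h10 : 100 * SS f N / (K : ℝ) ^ 2 = 100 * (SS f N / (K : ℝ) ^ 2) := by ring
  rw [h8, h10]
  have h11 : ∑ i ∈ range K, ∫ u, g i u = ∑ i ∈ range K,
        ∫ u, ‖Gw f N (Real.log (1 + H / (X * (1 + (i : ℝ) / K))))
          (Real.log (1 + H1 / (X * (1 + (i : ℝ) / K)))) H H1 u‖ ^ 2 := rfl
  rw [← h11]
  linarith only [h7, h9]

end Pool.Agent.H88.PSI

end

section

/-!
# PSI Pars: Plancherel for the logarithmic windows

`Pool.Agent.H76.EHB.planch` (`Pool/Agent/H76/EHB/Planch.lean`) with `gw_four`, `gw_L1`; `t ↦ -t`.  The weight `w(t) = |kp hs t/H - kp hl t/H1|^2` is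
* `≤ ((1 + 8|t|) H1/X^2)^2` (`kp_sub`, `hd`, `hs^2/H ≤ H/X^2`, `hl^2/H1 ≤ H1/X^2`) for `|t| ≤ T0`, where also `|DP|^2 ≤ N SS`;
* `≤ (2/X)^2` always (`kp_le`);
* `≤ (1/(|t| H))^2` for `t ≠ 0` (`kp_inv`, `H ≤ H1`), used with `tail_int` for `|t| > T`.
-/

set_option autoImplicit false

namespace Pool.Agent.H88.PSI

open Finset MeasureTheory
open Pool.Agent.H91.PK (ee)

private theorem pars_dp (f : ℕ → ℂ) (N : ℕ) (t : ℝ) : ‖DP f N t‖ ^ 2 ≤ N * SS f N := by
  have h1 := dp_norm_le f N t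
  have h2 : (∑ n ∈ Icc 1 N, ‖f n‖) ^ 2 ≤ ((Icc 1 N).card : ℝ) * ∑ n ∈ Icc 1 N, ‖f n‖ ^ 2 :=
    sq_sum_le_card_mul_sum_sq
  rw [Nat.card_Icc, Nat.add_sub_cancel] at h2
  exact (pow_le_pow_left₀ (norm_nonneg _) h1 2).trans h2

private theorem pars_SS (f : ℕ → ℂ) (N : ℕ) : 0 ≤ SS f N :=
  sum_nonneg fun _ _ => by positivity

/-- the weight near zero -/
private theorem pars_w0 {X H H1 hs hl t : ℝ} (hX : 1 ≤ X) (hH : 1 ≤ H)
    (hH1 : H ≤ H1) (h1 : 0 ≤ hs) (h2 : hs ≤ H / X) (h3 : 0 ≤ hl) (h4 : hl ≤ H1 / X)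
    (hd : |hs / H - hl / H1| ≤ H1 / X ^ 2) :
    ‖kp hs t / (H : ℂ) - kp hl t / (H1 : ℂ)‖ ≤ (1 + 8 * |t|) * (H1 / X ^ 2) := by
  have pH : 0 < H := by linarith only [hH]
  have pH1 : 0 < H1 := by linarith only [hH, hH1]
  have pX : 0 < X := by linarith only [hX]
  have e1 : kp hs t / (H : ℂ) - kp hl t / (H1 : ℂ) =
      (kp hs t - hs) / (H : ℂ) - (kp hl t - hl) / (H1 : ℂ) + ((hs / H - hl / H1 : ℝ) : ℂ) := by
    push_cast
    ring
  have n1 : ‖(kp hs t - hs) / (H : ℂ)‖ ≤ 4 * |t| * (H / X ^ 2) := by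
    rw [norm_div, Complex.norm_real, Real.norm_eq_abs, abs_of_pos pH, div_le_iff₀ pH]
    refine (kp_sub hs t h1).trans ?_
    have e2 : hs ^ 2 ≤ (H / X) ^ 2 := pow_le_pow_left₀ h1 h2 2
    have e3 : 4 * |t| * (H / X ^ 2) * H = 4 * |t| * (H / X) ^ 2 := by
      field_simp
    rw [e3]
    exact mul_le_mul_of_nonneg_left e2 (by positivity)
  have n2 : ‖(kp hl t - hl) / (H1 : ℂ)‖ ≤ 4 * |t| * (H1 / X ^ 2) := by
    rw [norm_div, Complex.norm_real, Real.norm_eq_abs, abs_of_pos pH1, div_le_iff₀ pH1]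
    refine (kp_sub hl t h3).trans ?_
    have e2 : hl ^ 2 ≤ (H1 / X) ^ 2 := pow_le_pow_left₀ h3 h4 2
    have e3 : 4 * |t| * (H1 / X ^ 2) * H1 = 4 * |t| * (H1 / X) ^ 2 := by
      field_simp
    rw [e3]
    exact mul_le_mul_of_nonneg_left e2 (by positivity)
  have n3 : ‖((hs / H - hl / H1 : ℝ) : ℂ)‖ ≤ H1 / X ^ 2 := by
    rw [Complex.norm_real, Real.norm_eq_abs]
    exact hd
  have n4 : 4 * |t| * (H / X ^ 2) ≤ 4 * |t| * (H1 / X ^ 2) := by
    refine mul_le_mul_of_nonneg_left ?_ (by positivity)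
    exact div_le_div_of_nonneg_right hH1 (by positivity)
  rw [e1]
  refine (norm_add_le _ _).trans ?_
  have n5 := norm_sub_le ((kp hs t - hs) / (H : ℂ)) ((kp hl t - hl) / (H1 : ℂ))
  nlinarith only [n1, n2, n3, n4, n5]

/-- the weight everywhere -/
private theorem pars_w1 {X H H1 hs hl t : ℝ} (hX : 1 ≤ X) (hH : 1 ≤ H)
    (hH1 : H ≤ H1) (h1 : 0 ≤ hs) (h2 : hs ≤ H / X) (h3 : 0 ≤ hl) (h4 : hl ≤ H1 / X) :
    ‖kp hs t / (H : ℂ) - kp hl t / (H1 : ℂ)‖ ≤ 2 / X := by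
  have pH : 0 < H := by linarith only [hH]
  have pH1 : 0 < H1 := by linarith only [hH, hH1]
  have pX : 0 < X := by linarith
  have n1 : ‖kp hs t / (H : ℂ)‖ ≤ 1 / X := by
    rw [norm_div, Complex.norm_real, Real.norm_eq_abs, abs_of_pos pH, div_le_iff₀ pH]
    refine (kp_le hs t h1).trans (h2.trans (le_of_eq ?_))
    ring
  have n2 : ‖kp hl t / (H1 : ℂ)‖ ≤ 1 / X := by
    rw [norm_div, Complex.norm_real, Real.norm_eq_abs, abs_of_pos pH1, div_le_iff₀ pH1]
    refine (kp_le hl t h3).trans (h4.trans (le_of_eq ?_))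
    ring
  refine (norm_sub_le _ _).trans ?_
  have e : 2 / X = 1 / X + 1 / X := by ring
  rw [e]
  exact add_le_add n1 n2

/-- the weight far from zero -/
private theorem pars_w2 {H H1 hs hl t : ℝ} (hH : 1 ≤ H) (hH1 : H ≤ H1) (ht : t ≠ 0) :
    ‖kp hs t / (H : ℂ) - kp hl t / (H1 : ℂ)‖ ≤ 1 / (|t| * H) := by
  have pH : 0 < H := by linarith
  have pH1 : 0 < H1 := by linarith
  have pt : 0 < |t| := abs_pos.2 ht
  have n1 : ‖kp hs t / (H : ℂ)‖ ≤ 1 / (2 * |t| * H) := by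
    rw [norm_div, Complex.norm_real, Real.norm_eq_abs, abs_of_pos pH, div_le_iff₀ pH]
    refine (kp_inv hs t ht).trans (le_of_eq ?_)
    field_simp
  have n2 : ‖kp hl t / (H1 : ℂ)‖ ≤ 1 / (2 * |t| * H) := by
    rw [norm_div, Complex.norm_real, Real.norm_eq_abs, abs_of_pos pH1]
    have e1 := kp_inv hl t ht
    refine (div_le_div_of_nonneg_right e1 pH1.le).trans ?_
    rw [div_div]
    refine one_div_le_one_div_of_le (by positivity) ?_
    exact mul_le_mul_of_nonneg_left hH1 (by positivity)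
  refine (norm_sub_le _ _).trans ?_
  have e : 1 / (|t| * H) = 1 / (2 * |t| * H) + 1 / (2 * |t| * H) := by
    field_simp
    norm_num
  rw [e]
  exact add_le_add n1 n2

theorem pars (f : ℕ → ℂ) (N : ℕ) (X H H1 hs hl T0 T : ℝ) (hN : 1 ≤ N) (hX : 1 ≤ X) (hH : 1 ≤ H)
    (hH1 : H ≤ H1) (hH2 : H1 ≤ X) (h1 : 0 ≤ hs) (h2 : hs ≤ H / X) (h3 : 0 ≤ hl) (h4 : hl ≤ H1 / X)
    (hd : |hs / H - hl / H1| ≤ H1 / X ^ 2) (hT0 : 1 ≤ T0) (hT : T0 ≤ T) :
    ∫ u, ‖Gw f N hs hl H H1 u‖ ^ 2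
      ≤ 1000 * (T0 ^ 3 * H1 ^ 2 * N / X ^ 4
          + 1 / H ^ 2 * (1 / T + N * (1 + Real.log N) / T ^ 2)) * SS f N
        + 4 / X ^ 2 * ∫ t in {t : ℝ | T0 ≤ |t| ∧ |t| ≤ T}, ‖DP f N t‖ ^ 2 := by
  have _ := hH2
  have pX : 0 < X := by linarith only [hX]
  have pH : 0 < H := by linarith only [hH]
  have pH1 : 0 < H1 := by linarith only [hH, hH1]
  have pT : 1 ≤ T := by linarith only [hT0, hT]
  obtain ⟨i1, i2⟩ := gw_L1 f N hs hl H H1 h1 h3
  obtain ⟨p1, p2⟩ := Pool.Agent.H76.EHB.planch (Gw f N hs hl H H1) i1 i2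
  set Φ : ℝ → ℝ := fun t => ‖DP f N t * (kp hs (-t) / (H : ℂ) - kp hl (-t) / (H1 : ℂ))‖ ^ 2
    with hΦ
  have e1 : (fun ξ : ℝ => ‖∫ u, Gw f N hs hl H H1 u * ee (-(u * ξ))‖ ^ 2) =
      fun ξ => Φ (-ξ) := by
    funext ξ
    rw [gw_four f N hs hl H H1 ξ h1 h3, hΦ]
    simp only [neg_neg]
  rw [e1] at p1
  have e1' : ∫ ξ : ℝ, ‖∫ u, Gw f N hs hl H H1 u * ee (-(u * ξ))‖ ^ 2 = ∫ ξ, Φ (-ξ) := by
    rw [e1]
  rw [e1', integral_neg_eq_self Φ volume] at p2
  have p3 : Integrable Φ := by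
    have := p1.comp_neg
    simpa using this
  rw [← p2]
  -- the three sets
  set A : Set ℝ := {t | |t| < T0} with hA
  set B : Set ℝ := {t | T0 ≤ |t| ∧ |t| ≤ T} with hB
  set C : Set ℝ := {t | T < |t|} with hC
  have mA : MeasurableSet A := measurableSet_lt continuous_abs.measurable measurable_const
  have mC : MeasurableSet C := measurableSet_lt measurable_const continuous_abs.measurable
  have mB : MeasurableSet B :=
    (measurableSet_le measurable_const continuous_abs.measurable).inter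
      (measurableSet_le continuous_abs.measurable measurable_const)
  have hU : A ∪ (B ∪ C) = Set.univ := by
    ext t
    simp only [hA, hB, hC, Set.mem_union, Set.mem_ofPred_eq, Set.mem_univ, iff_true]
    rcases lt_or_ge |t| T0 with h | h
    · exact Or.inl h
    · rcases le_or_gt |t| T with h' | h'
      · exact Or.inr (Or.inl ⟨h, h'⟩)
      · exact Or.inr (Or.inr h')
  have dBC : Disjoint B C := by
    rw [Set.disjoint_left]
    intro t ht ht'
    exact absurd ht.2 (not_le.2 ht')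
  have dA : Disjoint A (B ∪ C) := by
    rw [Set.disjoint_left]
    rintro t ht (ht' | ht')
    · exact absurd ht'.1 (not_le.2 ht)
    · have a1 : |t| < T0 := ht
      have a2 : T < |t| := ht'
      linarith only [hT, a1, a2]
  have hsplit : ∫ t, Φ t = (∫ t in A, Φ t) + ((∫ t in B, Φ t) + ∫ t in C, Φ t) := by
    rw [← setIntegral_univ, ← hU, setIntegral_union dA (mB.union mC) p3.integrableOn
      p3.integrableOn, setIntegral_union dBC mC p3.integrableOn p3.integrableOn]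
  rw [hsplit]
  have hS := pars_SS f N
  have hNN : (0 : ℝ) ≤ N := Nat.cast_nonneg N
  have hlog : 0 ≤ Real.log N := Real.log_natCast_nonneg N
  -- near zero
  have bA : ∫ t in A, Φ t ≤ 1000 * (T0 ^ 3 * H1 ^ 2 * N / X ^ 4) * SS f N := by
    have hsub : A ⊆ Set.Icc (-T0) T0 := by
      intro t ht
      have a1 : |t| < T0 := ht
      exact abs_le.1 a1.le
    have hvol : volume (Set.Icc (-T0) T0) = ENNReal.ofReal (2 * T0) := by
      rw [Real.volume_Icc]
      congr 1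
      ring
    have hfin : volume A ≤ ENNReal.ofReal (2 * T0) := hvol ▸ measure_mono hsub
    have hc : ∀ t ∈ A, Φ t ≤ N * SS f N * ((9 * T0) * (H1 / X ^ 2)) ^ 2 := by
      intro t ht
      have a1 : |t| < T0 := ht
      have a2 := pars_w0 (t := -t) hX hH hH1 h1 h2 h3 h4 hd
      rw [abs_neg] at a2
      have a3 : (1 + 8 * |t|) * (H1 / X ^ 2) ≤ (9 * T0) * (H1 / X ^ 2) := by
        refine mul_le_mul_of_nonneg_right ?_ (by positivity)
        linarith only [hT0, a1]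
      rw [hΦ]
      simp only [norm_mul, mul_pow (‖DP f N t‖)]
      refine mul_le_mul (pars_dp f N t) (pow_le_pow_left₀ (norm_nonneg _) (a2.trans a3) 2)
        (by positivity) (by positivity)
    have hlt : volume A < ⊤ := lt_of_le_of_lt hfin ENNReal.ofReal_lt_top
    refine (setIntegral_mono_on p3.integrableOn (integrableOn_const hlt.ne) mA hc).trans ?_
    rw [setIntegral_const, smul_eq_mul]
    have hreal : volume.real A ≤ 2 * T0 := by
      unfold Measure.real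
      refine ENNReal.toReal_le_of_le_ofReal (by positivity) hfin
    refine (mul_le_mul_of_nonneg_right hreal (by positivity)).trans ?_
    have e2 : 2 * T0 * (N * SS f N * ((9 * T0) * (H1 / X ^ 2)) ^ 2) =
        162 * ((T0 ^ 3 * H1 ^ 2 * N / X ^ 4) * SS f N) := by
      field_simp
      ring
    rw [e2, mul_assoc (1000 : ℝ)]
    refine mul_le_mul_of_nonneg_right (by norm_num) (by positivity)
  -- the middle part
  have hcont : Continuous fun t => ‖DP f N t‖ ^ 2 := (dp_cont f N).norm.pow 2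
  have iB : IntegrableOn (fun t => ‖DP f N t‖ ^ 2) B := by
    refine (hcont.continuousOn.integrableOn_compact (isCompact_Icc (a := -T) (b := T))).mono_set ?_
    intro t ht
    exact abs_le.1 ht.2
  have bB : ∫ t in B, Φ t ≤ 4 / X ^ 2 * ∫ t in B, ‖DP f N t‖ ^ 2 := by
    rw [← integral_const_mul]
    refine setIntegral_mono_on p3.integrableOn (iB.const_mul _) mB fun t _ => ?_
    have a2 := pars_w1 (t := -t) hX hH hH1 h1 h2 h3 h4
    rw [hΦ]
    simp only [norm_mul, mul_pow (‖DP f N t‖)]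
    rw [mul_comm]
    refine mul_le_mul_of_nonneg_right ?_ (by positivity)
    refine (pow_le_pow_left₀ (norm_nonneg _) a2 2).trans (le_of_eq ?_)
    ring
  -- the tail
  obtain ⟨iC, bC0⟩ := tail_int f N T hN pT
  have bC : ∫ t in C, Φ t ≤ 1000 * (1 / H ^ 2 * (1 / T + N * (1 + Real.log N) / T ^ 2)) *
      SS f N := by
    have hc : ∀ t ∈ C, Φ t ≤ 1 / H ^ 2 * (‖DP f N t‖ ^ 2 / t ^ 2) := by
      intro t ht
      have a1 : T < |t| := ht
      have a0 : t ≠ 0 := by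
        rintro rfl
        rw [abs_zero] at a1
        linarith only [hT0, hT, a1]
      have a2 := pars_w2 (t := -t) (hs := hs) (hl := hl) hH hH1 (neg_ne_zero.2 a0)
      rw [abs_neg] at a2
      rw [hΦ]
      simp only [norm_mul, mul_pow (‖DP f N t‖)]
      have a3 : (1 / (|t| * H)) ^ 2 = 1 / H ^ 2 * (1 / t ^ 2) := by
        rw [div_pow, mul_pow, sq_abs]
        field_simp
      have a4 := pow_le_pow_left₀ (norm_nonneg _) a2 2
      rw [a3] at a4
      refine (mul_le_mul_of_nonneg_left a4 (by positivity)).trans (le_of_eq ?_)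
      ring
    refine (setIntegral_mono_on p3.integrableOn (iC.const_mul _) mC hc).trans ?_
    rw [integral_const_mul]
    refine (mul_le_mul_of_nonneg_left bC0 (by positivity)).trans ?_
    have e2 : 1 / H ^ 2 * (100 * (1 / T + N * (1 + Real.log N) / T ^ 2) * SS f N) =
        100 * ((1 / H ^ 2 * (1 / T + N * (1 + Real.log N) / T ^ 2)) * SS f N) := by ring
    rw [e2, mul_assoc (1000 : ℝ)]
    refine mul_le_mul_of_nonneg_right (by norm_num) (by positivity)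
  have e3 : 1000 * (T0 ^ 3 * H1 ^ 2 * N / X ^ 4
          + 1 / H ^ 2 * (1 / T + N * (1 + Real.log N) / T ^ 2)) * SS f N =
      1000 * (T0 ^ 3 * H1 ^ 2 * N / X ^ 4) * SS f N +
        1000 * (1 / H ^ 2 * (1 / T + N * (1 + Real.log N) / T ^ 2)) * SS f N := by ring
  rw [e3]
  linarith only [bA, bB, bC]

end Pool.Agent.H88.PSI

end

section

/-!
# PSI HB: the Heath-Brown identity (k = 3)

`M = seg 2 1 (2^w)` (`μ` on `[1, 2^w)`), `Z = hi 0 1` (`1` on `n ≥ 1`), `G = hi 1 1` (`log`).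
`(1 - Z M)(n) = 0` for `n < 2^w`, so `La (1 - Z M)^3` vanishes at `n < (2^w)^3`; `La Z = G`; so
`La = 3 G M - 3 G Z M^2 + G Z^2 M^3` there.  Split `G = hi 1 Y + seg 1 1 Y`, `Z = hi 0 Y + seg 0 1 Y`, `Y = 2^y`, in the
part with `seg 1 1 Y`; `seg 1 1 Y * M` vanishes at `n ≥ 2^y 2^w`.
-/

set_option autoImplicit false

namespace Pool.Agent.H88.PSI

open ArithmeticFunction in
private theorem HB_vanish {f g : ArithmeticFunction ℝ} {a b n : ℕ} (hf : ∀ m < a, f m = 0)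
    (hg : ∀ m < b, g m = 0) (hn : n < a * b) : (f * g) n = 0 := by
  rw [ArithmeticFunction.mul_apply]
  refine Finset.sum_eq_zero fun x hx => ?_
  have h1 : x.1 * x.2 = n := (Nat.mem_divisorsAntidiagonal.1 hx).1
  rcases lt_or_ge x.1 a with h2 | h2
  · rw [hf _ h2, zero_mul]
  · rcases lt_or_ge x.2 b with h3 | h3
    · rw [hg _ h3, mul_zero]
    · exact absurd (Nat.mul_le_mul h2 h3) (by omega)

private theorem HB_vanish' {f g : ArithmeticFunction ℝ} {a b n : ℕ} (hf : ∀ m, a ≤ m → f m = 0)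
    (hg : ∀ m, b ≤ m → g m = 0) (hn : a * b ≤ n) (hn0 : n ≠ 0) : (f * g) n = 0 := by
  rw [ArithmeticFunction.mul_apply]
  refine Finset.sum_eq_zero fun x hx => ?_
  have h1 : x.1 * x.2 = n := (Nat.mem_divisorsAntidiagonal.1 hx).1
  rcases lt_or_ge x.1 a with h2 | h2
  · rcases lt_or_ge x.2 b with h3 | h3
    · exfalso
      have h4 : x.1 * x.2 ≤ x.1 * b := Nat.mul_le_mul_left _ h3.le
      have h5 : x.1 * b ≤ a * b := Nat.mul_le_mul_right _ h2.le
      have h6 : 0 < x.1 := by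
        rcases Nat.eq_zero_or_pos x.1 with h | h
        · rw [h, zero_mul] at h1
          exact absurd h1.symm hn0
        · exact h
      have h7 : x.1 * x.2 < x.1 * b := Nat.mul_lt_mul_of_pos_left h3 h6
      omega
    · rw [hg _ h3, mul_zero]
  · rw [hf _ h2, zero_mul]

private theorem HB_three (f : ArithmeticFunction ℝ) : (3 : ℝ) • f = 3 * f := by
  have h : (3 : ArithmeticFunction ℝ) * f = f + f + f := by ring
  rw [h]
  ext n
  simp only [ArithmeticFunction.add_apply]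
  rw [show ((3 : ℝ) • f) n = 3 * f n from rfl]
  ring

private theorem HB_Z : hi 0 1 = ((ArithmeticFunction.zeta : ArithmeticFunction ℕ) :
    ArithmeticFunction ℝ) := by
  ext n
  rw [ArithmeticFunction.natCoe_apply, ArithmeticFunction.zeta_apply]
  show (if n ≠ 0 ∧ 1 ≤ n then kf 0 n else 0) = _
  by_cases hn : n = 0
  · simp [hn]
  · have : 1 ≤ n := Nat.one_le_iff_ne_zero.2 hn
    simp [hn, this, kf]

private theorem HB_G : La * hi 0 1 = hi 1 1 := by
  rw [HB_Z]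
  unfold La
  rw [ArithmeticFunction.vonMangoldt_mul_zeta]
  ext n
  rw [ArithmeticFunction.log_apply]
  show _ = (if n ≠ 0 ∧ 1 ≤ n then kf 1 n else 0)
  by_cases hn : n = 0
  · simp [hn]
  · have : 1 ≤ n := Nat.one_le_iff_ne_zero.2 hn
    simp [hn, this, kf]

private theorem HB_ZM (w n : ℕ) (hn : n < 2 ^ w) : (1 - hi 0 1 * seg 2 1 (2 ^ w)) n = 0 := by
  have h1 : (hi 0 1 * ((ArithmeticFunction.moebius : ArithmeticFunction ℤ) :
      ArithmeticFunction ℝ)) = 1 := by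
    rw [HB_Z]
    exact ArithmeticFunction.coe_zeta_mul_coe_moebius
  have h2 : (hi 0 1 * seg 2 1 (2 ^ w)) n = (1 : ArithmeticFunction ℝ) n := by
    rw [← h1, ArithmeticFunction.mul_apply, ArithmeticFunction.mul_apply]
    refine Finset.sum_congr rfl fun x hx => ?_
    obtain ⟨h3, h4⟩ := Nat.mem_divisorsAntidiagonal.1 hx
    congr 1
    have h5 : x.2 ≠ 0 := by
      intro h
      rw [h, mul_zero] at h3
      exact h4 h3.symm
    have h6 : x.2 ∣ n := ⟨x.1, by rw [← h3, mul_comm]⟩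
    have h7 : x.2 ≤ n := Nat.le_of_dvd (Nat.pos_of_ne_zero h4) h6
    rw [ArithmeticFunction.intCoe_apply]
    show (if x.2 ≠ 0 ∧ 1 ≤ x.2 ∧ x.2 < 2 ^ w then kf 2 x.2 else 0) = _
    rw [if_pos ⟨h5, Nat.one_le_iff_ne_zero.2 h5, lt_of_le_of_lt h7 hn⟩]
    simp [kf]
  have h3 : (1 - hi 0 1 * seg 2 1 (2 ^ w)) n =
      (1 : ArithmeticFunction ℝ) n - (hi 0 1 * seg 2 1 (2 ^ w)) n := rfl
  rw [h3, h2, sub_self]

private theorem HB_split (k : Fin 3) (Y : ℕ) : hi k 1 = hi k Y + seg k 1 Y := by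
  ext n
  rw [ArithmeticFunction.add_apply]
  show (if n ≠ 0 ∧ 1 ≤ n then kf k n else 0) =
    (if n ≠ 0 ∧ Y ≤ n then kf k n else 0) + (if n ≠ 0 ∧ 1 ≤ n ∧ n < Y then kf k n else 0)
  by_cases hn : n = 0
  · simp [hn]
  · have h1 : 1 ≤ n := Nat.one_le_iff_ne_zero.2 hn
    rcases lt_or_ge n Y with h2 | h2
    · simp [hn, h1, h2, not_le.2 h2]
    · simp [hn, h1, h2, not_lt.2 h2]

private theorem HB_T4 (y w : ℕ) : Tp k4 y w =
    seg 1 1 (2 ^ y) * seg 0 1 (2 ^ y) * seg 2 1 (2 ^ w) * seg 2 1 (2 ^ w) := by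
  unfold Tp
  rw [Fin.prod_univ_four]
  rfl

private theorem HB_T6 (y w : ℕ) : Tp k6 y w =
    seg 1 1 (2 ^ y) * seg 0 1 (2 ^ y) * seg 0 1 (2 ^ y) * seg 2 1 (2 ^ w) * seg 2 1 (2 ^ w) *
      seg 2 1 (2 ^ w) := by
  unfold Tp
  rw [Fin.prod_univ_six]
  rfl

theorem hb (y w n : ℕ) (h1 : n < (2 ^ w) ^ 3) (h2 : 2 ^ y * 2 ^ w ≤ n) :
    La n = (hi 1 (2 ^ y) * cA w) n + (hi 0 (2 ^ y) * cB y w) n
      - 3 * (Tp k4 y w) n + (Tp k6 y w) n := by
  set M := seg 2 1 (2 ^ w) with hM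
  set Z := hi 0 1 with hZ
  set Zh := hi 0 (2 ^ y) with hZh
  set Zl := seg 0 1 (2 ^ y) with hZl
  set g := seg 1 1 (2 ^ y) with hg
  set Gh := hi 1 (2 ^ y) with hGh
  have eZ : Z = Zh + Zl := HB_split 0 (2 ^ y)
  have eG : La * Z = Gh + g := by
    rw [hZ, HB_G]
    exact HB_split 1 (2 ^ y)
  have v1 : ∀ m < 2 ^ w, (1 - Z * M) m = 0 := fun m hm => HB_ZM w m hm
  have v2 : ∀ m < 2 ^ w * 2 ^ w, ((1 - Z * M) * (1 - Z * M)) m = 0 :=
    fun m hm => HB_vanish v1 v1 hm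
  have v3 : ∀ m < 2 ^ w * 2 ^ w * 2 ^ w, ((1 - Z * M) * (1 - Z * M) * (1 - Z * M)) m = 0 :=
    fun m hm => HB_vanish v2 v1 hm
  have v4 : (La * ((1 - Z * M) * (1 - Z * M) * (1 - Z * M))) n = 0 := by
    refine HB_vanish (a := 1) (b := 2 ^ w * 2 ^ w * 2 ^ w) ?_ v3 ?_
    · intro m hm
      have : m = 0 := by omega
      rw [this]
      exact ArithmeticFunction.map_zero
    · calc n < (2 ^ w) ^ 3 := h1
        _ = 1 * (2 ^ w * 2 ^ w * 2 ^ w) := by ring
  have hn0 : n ≠ 0 := by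
    have : 0 < 2 ^ y * 2 ^ w := by positivity
    omega
  have v5 : (g * M) n = 0 := by
    refine HB_vanish' (a := 2 ^ y) (b := 2 ^ w) ?_ ?_ h2 hn0
    · intro m hm
      show (if m ≠ 0 ∧ 1 ≤ m ∧ m < 2 ^ y then kf 1 m else 0) = 0
      rw [if_neg]
      rintro ⟨_, _, h⟩
      omega
    · intro m hm
      show (if m ≠ 0 ∧ 1 ≤ m ∧ m < 2 ^ w then kf 2 m else 0) = 0
      rw [if_neg]
      rintro ⟨_, _, h⟩
      omega
  have key : La = Gh * cA w + Zh * cB y w - 3 * Tp k4 y w + Tp k6 y w + 3 * (g * M) +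
      La * ((1 - Z * M) * (1 - Z * M) * (1 - Z * M)) := by
    have e1 : La * ((1 - Z * M) * (1 - Z * M) * (1 - Z * M)) =
        La - (La * Z) * (3 * M - 3 * (Z * M ^ 2) + Z ^ 2 * M ^ 3) := by ring
    have e2 : cA w = 3 * M - 3 * (Z * M ^ 2) + Z ^ 2 * M ^ 3 := by
      unfold cA
      rw [HB_three, HB_three]
    have e3 : cB y w = g * (Z + Zl) * M ^ 3 - 3 * (g * M ^ 2) := by
      unfold cB
      rw [HB_three]
    rw [e1, eG, HB_T4, HB_T6, e2, e3, eZ]
    ring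
  have e4 : ∀ f : ArithmeticFunction ℝ, (3 * f) n = 3 * f n := by
    intro f
    rw [← HB_three]
    rfl
  calc La n = (Gh * cA w + Zh * cB y w - 3 * Tp k4 y w + Tp k6 y w + 3 * (g * M) +
      La * ((1 - Z * M) * (1 - Z * M) * (1 - Z * M))) n := by rw [← key]
    _ = (Gh * cA w) n + (Zh * cB y w) n - (3 * Tp k4 y w) n + (Tp k6 y w) n + (3 * (g * M)) n +
      (La * ((1 - Z * M) * (1 - Z * M) * (1 - Z * M))) n := rfl
    _ = _ := by
      rw [e4, e4, v4, v5]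
      ring

end Pool.Agent.H88.PSI

end

section

set_option autoImplicit false

namespace Pool.Agent.H97.VK

open Finset
open Pool.Agent.H91.EHA
open Pool.Agent.H91.PK (ee)

/-- the statement of `psum` -/
def psum_P : Prop := ∀ (A B : ℕ),
    ∃ K' x0 : ℕ, ∀ x : ℕ, x0 ≤ x → ∀ (d : ℕ) (χ : DirichletCharacter ℂ d) (t : ℝ) (v : ℕ),
    1 ≤ d → (d : ℝ) ≤ Real.log x ^ B → Real.log x ^ K' ≤ |t| → |t| ≤ (x : ℝ) ^ (3 : ℕ) → Yx x + 1 ≤ v →
    ‖∑ n ∈ Icc 1 v, χ (n : ZMod d) * ee (t * Real.log n)‖ ≤ v / Real.log x ^ A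

/-- the statement of `lk_up` -/
def lk_up_P : Prop := ∀ (k B : ℕ),
    ∃ C : ℝ, 1 ≤ C ∧ ∃ K' x0 : ℕ, ∀ x : ℕ, x0 ≤ x → ∀ (d : ℕ) (χ : DirichletCharacter ℂ d) (s : ℂ),
    1 ≤ d → (d : ℝ) ≤ Real.log x ^ B → 1 + 1 / (4 * Real.log x) ≤ s.re → s.re ≤ 2 →
    Real.log x ^ K' ≤ |s.im| → |s.im| ≤ 6 * (x : ℝ) ^ (3 : ℕ) →
    ‖Lk (qm x d) (ch x χ) k s‖ ≤ C * L9 x ^ k * LL x ^ (k + 1)

/-- the statement of `sm_sharp_w` -/
def sm_sharp_w_P : Prop := ∀ (k κ B : ℕ) (hκ : 1 ≤ κ),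
    ∃ C : ℝ, 1 ≤ C ∧ ∃ K' x0 : ℕ, ∀ x : ℕ, x0 ≤ x →
    ∀ (d : ℕ) (χ : DirichletCharacter ℂ d) (t : ℝ) (v z : ℕ), 1 ≤ d → (d : ℝ) ≤ Real.log x ^ B →
    Real.exp (Real.log x ^ (19 / 20 : ℝ)) ≤ z → z ≤ x ^ 2 → v ≤ z → Real.log x ^ K' ≤ |t| → |t| ≤ (x : ℝ) ^ (2 : ℕ) →
    ‖∑ n ∈ Icc 1 v, ((Lam n * Real.log n ^ k : ℝ) : ℂ) * ch x χ (n : ZMod (qm x d)) * ee (t * Real.log n)‖ ≤
      C * z * (L9 x ^ (k + 1) * LL x ^ (20 * (k + 1)) * Real.log x ^ (3 * κ) +
        Real.log (2 * z) ^ (k + 1) / Real.log x ^ κ)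

/-- the statement of `vk_chi_w` -/
def vk_chi_w_P : Prop := ∀ (K B : ℕ),
    ∃ K' x0 : ℕ, ∀ x : ℕ, x0 ≤ x →
    ∀ (d : ℕ) (χ : DirichletCharacter ℂ d) (t : ℝ) (z : ℕ), 1 ≤ d → (d : ℝ) ≤ Real.log x ^ B →
    Real.exp (Real.log x ^ (19 / 20 : ℝ)) ≤ z → z ≤ x ^ 2 → Real.log x ^ K' ≤ |t| → |t| ≤ (x : ℝ) ^ (2 : ℕ) →
    ‖∑ n ∈ Icc 1 z, ((Lam n : ℝ) : ℂ) * χ (n : ZMod d) * ee (t * Real.log n)‖ ≤ z / Real.log x ^ K

end Pool.Agent.H97.VK

end

section

set_option autoImplicit false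

namespace Pool.Agent.H76.VKT

open Finset
open Pool.Agent.H91.EHA
open Pool.Agent.H91.PK (ee)

/-- the statement of `vk_exp` -/
def vk_exp_P [T0] : Prop := ∀ (A : ℕ),
    ∃ x0 : ℕ, ∀ x : ℕ, x0 ≤ x → ∀ (K a b : ℕ) (β t : ℝ),
    Real.exp (Real.log x ^ T0.t) ≤ K → K ≤ x → b ≤ K → 0 ≤ β → β ≤ 1 →
    1 ≤ |t| → |t| ≤ (x : ℝ) ^ (3 : ℕ) →
    ‖∑ n ∈ Ioc a b, ee (t * Real.log (n + β))‖ ≤ K * (100 / |t| + 1 / Real.log x ^ A)

/-- the statement of `psum` -/
def psum_P [T0] : Prop := ∀ (A B : ℕ),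
    ∃ K' x0 : ℕ, ∀ x : ℕ, x0 ≤ x → ∀ (d : ℕ) (χ : DirichletCharacter ℂ d) (t : ℝ) (v : ℕ),
    1 ≤ d → (d : ℝ) ≤ Real.log x ^ B → Real.log x ^ K' ≤ |t| → |t| ≤ (x : ℝ) ^ (3 : ℕ) → Yx x + 1 ≤ v →
    ‖∑ n ∈ Icc 1 v, χ (n : ZMod d) * ee (t * Real.log n)‖ ≤ v / Real.log x ^ A

/-- the statement of `rtw` -/
def rtw_P [T0] : Prop := ∀ (A B : ℕ),
    ∃ K' D x0 : ℕ, ∀ x : ℕ, x0 ≤ x → ∀ (d : ℕ) (χ : DirichletCharacter ℂ d) (t : ℝ) (u : ℕ),
    1 ≤ d → (d : ℝ) ≤ Real.log x ^ B → Real.log x ^ K' ≤ |t| → |t| ≤ (x : ℝ) ^ (3 : ℕ) → D * (LL x * L9 x) ≤ Real.log u →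
    ‖∑ n ∈ Icc 1 u, ch x χ (n : ZMod (qm x d)) * ee (t * Real.log n)‖ ≤ u / Real.log x ^ A

/-- the statement of `lk_up` -/
def lk_up_P [T0] : Prop := ∀ (k B : ℕ),
    ∃ C : ℝ, 1 ≤ C ∧ ∃ K' x0 : ℕ, ∀ x : ℕ, x0 ≤ x → ∀ (d : ℕ) (χ : DirichletCharacter ℂ d) (s : ℂ),
    1 ≤ d → (d : ℝ) ≤ Real.log x ^ B → 1 + 1 / (4 * Real.log x) ≤ s.re → s.re ≤ 2 →
    Real.log x ^ K' ≤ |s.im| → |s.im| ≤ 6 * (x : ℝ) ^ (3 : ℕ) →
    ‖Lk (qm x d) (ch x χ) k s‖ ≤ C * L9 x ^ k * LL x ^ (k + 1)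

/-- the statement of `zy_up` -/
def zy_up_P [T0] : Prop :=
    ∃ C : ℝ, 1 ≤ C ∧ ∃ x0 : ℕ, ∀ x : ℕ, x0 ≤ x → ∀ (d : ℕ) (s : ℂ), 1 ≤ d → 1 < s.re → s.re ≤ 2 →
    ‖Lk (qm x d) 1 0 s‖ ≤ C * (1 + 1 / ((s.re - 1) * L9 x))

/-- the statement of `lk_low` -/
def lk_low_P [T0] : Prop := ∀ (B : ℕ),
    ∃ c : ℝ, 0 < c ∧ c ≤ 1 ∧ ∃ K' x0 : ℕ, ∀ x : ℕ, x0 ≤ x → ∀ (d : ℕ) (χ : DirichletCharacter ℂ d) (s : ℂ),
    1 ≤ d → (d : ℝ) ≤ Real.log x ^ B → 1 + 1 / (4 * Real.log x) ≤ s.re → s.re ≤ 2 →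
    Real.log x ^ K' ≤ |s.im| → |s.im| ≤ 3 * (x : ℝ) ^ (3 : ℕ) →
    c / LL x ^ 7 ≤ ‖Lk (qm x d) (ch x χ) 0 s‖

/-- the statement of `fk_up` -/
def fk_up_P [T0] : Prop := ∀ (k B : ℕ),
    ∃ C : ℝ, 1 ≤ C ∧ ∃ K' x0 : ℕ, ∀ x : ℕ, x0 ≤ x → ∀ (d : ℕ) (χ : DirichletCharacter ℂ d) (s : ℂ),
    1 ≤ d → (d : ℝ) ≤ Real.log x ^ B → 1 + 1 / (4 * Real.log x) ≤ s.re → s.re ≤ 2 →
    Real.log x ^ K' ≤ |s.im| → |s.im| ≤ 3 * (x : ℝ) ^ (3 : ℕ) →
    ‖Fk (qm x d) (ch x χ) k s‖ ≤ C * L9 x ^ (k + 1) * LL x ^ (20 * (k + 1))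

/-- the statement of `sm_sharp_w` -/
def sm_sharp_w_P [T0] : Prop := ∀ (t1 : ℝ) (ht1' : T0.t < t1) (k κ B : ℕ) (hκ : 1 ≤ κ),
    ∃ C : ℝ, 1 ≤ C ∧ ∃ K' x0 : ℕ, ∀ x : ℕ, x0 ≤ x →
    ∀ (d : ℕ) (χ : DirichletCharacter ℂ d) (t : ℝ) (v z : ℕ), 1 ≤ d → (d : ℝ) ≤ Real.log x ^ B →
    Real.exp (Real.log x ^ t1) ≤ z → z ≤ x ^ 2 → v ≤ z → Real.log x ^ K' ≤ |t| → |t| ≤ (x : ℝ) ^ (2 : ℕ) →
    ‖∑ n ∈ Icc 1 v, ((Lam n * Real.log n ^ k : ℝ) : ℂ) * ch x χ (n : ZMod (qm x d)) * ee (t * Real.log n)‖ ≤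
      C * z * (L9 x ^ (k + 1) * LL x ^ (20 * (k + 1)) * Real.log x ^ (3 * κ) +
        Real.log (2 * z) ^ (k + 1) / Real.log x ^ κ)

end Pool.Agent.H76.VKT

end

section

/-!
# VK SmTwo: smooth sums from a bound on one vertical line

Proof (as in `EHA/SwG.lean`, `smooth_gen`).  `om(n/N) = (1/2π) ∫ KK β τ (N/n)^{β+iτ} dτ` (`om_fourier'` in `PK/Om.lean`), interchange the (absolutely
convergent) sum and integral: `∑_{n≤N} a_n om(n/N) = (1/2π) ∫ KK β τ N^{β+iτ} LSeries a (β+iτ) dτ`.  `‖KK β τ‖ ≤ 0.4386/(1+τ^2)` (`norm_KK_le`) on `|τ| ≤ T`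
and `‖KK β τ‖ ≤ 2/|τ|^3` (`norm_KK_le'`) on `|τ| > T`: `∫_{|τ|>T} 2/|τ|^3 = 2/T^2`.
-/

set_option autoImplicit false

namespace Pool.Agent.H97.VK

open Finset
open Pool.Agent.H91.PK
open MeasureTheory

/-- the summand -/
private noncomputable def smTwo_F (a : ℕ → ℂ) (β : ℝ) (N n : ℕ) (t : ℝ) : ℂ :=
  KK β t * ((N : ℂ) ^ (t * Complex.I) * LSeries.term a ((β : ℂ) + t * Complex.I) n)

private theorem smTwo_F_eq (a : ℕ → ℂ) (β : ℝ) (N n : ℕ) (hn : 1 ≤ n) (t : ℝ) :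
    smTwo_F a β N n t = (a n / (n : ℂ) ^ (β : ℂ)) *
      (KK β t * ((N : ℂ) ^ (t * Complex.I) * (n : ℂ) ^ (-(t * Complex.I)))) := by
  unfold smTwo_F
  have hn0 : (n : ℂ) ≠ 0 := by exact_mod_cast (by omega : n ≠ 0)
  rw [LSeries.term_of_ne_zero (by omega), Complex.cpow_add _ _ hn0, Complex.cpow_neg]
  have h1 : (n : ℂ) ^ (β : ℂ) ≠ 0 := by
    rw [Complex.cpow_def_of_ne_zero hn0]; exact Complex.exp_ne_zero _
  have h2 : (n : ℂ) ^ ((t : ℂ) * Complex.I) ≠ 0 := by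
    rw [Complex.cpow_def_of_ne_zero hn0]; exact Complex.exp_ne_zero _
  field_simp

private theorem smTwo_norm_F (a : ℕ → ℂ) (β : ℝ) (N n : ℕ) (hN : 1 ≤ N) (t : ℝ) :
    ‖smTwo_F a β N n t‖ = ‖LSeries.term a (β : ℂ) n‖ * ‖KK β t‖ := by
  unfold smTwo_F
  rw [norm_mul, norm_mul, Complex.norm_natCast_cpow_of_pos (by omega)]
  have h1 : ((t : ℂ) * Complex.I).re = 0 := by simp
  have h2 : ‖LSeries.term a ((β : ℂ) + t * Complex.I) n‖ = ‖LSeries.term a (β : ℂ) n‖ := by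
    rw [LSeries.norm_term_eq, LSeries.norm_term_eq]
    simp
  rw [h1, Real.rpow_zero, one_mul, h2, mul_comm]

private theorem smTwo_F_cont (a : ℕ → ℂ) (β : ℝ) (hβ : 0 ≤ β) (N n : ℕ) (hN : 1 ≤ N) :
    Continuous (smTwo_F a β N n) := by
  rcases Nat.eq_zero_or_pos n with rfl | hn
  · have : smTwo_F a β N 0 = fun _ => 0 := by
      funext t; unfold smTwo_F; rw [LSeries.term_zero, mul_zero, mul_zero]
    rw [this]; exact continuous_const
  · have : smTwo_F a β N n = fun t : ℝ => (a n / (n : ℂ) ^ (β : ℂ)) *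
      (KK β t * ((N : ℂ) ^ (t * Complex.I) * (n : ℂ) ^ (-(t * Complex.I)))) := by
      funext t; exact smTwo_F_eq a β N n hn t
    rw [this]
    have hn0 : (n : ℂ) ≠ 0 := by exact_mod_cast (by omega : n ≠ 0)
    have hN0 : (N : ℂ) ≠ 0 := by exact_mod_cast (by omega : N ≠ 0)
    refine continuous_const.mul ((KK_continuous β hβ).mul (Continuous.mul ?_ ?_))
    · exact Continuous.const_cpow (by fun_prop) (Or.inl hN0)
    · exact Continuous.const_cpow (by fun_prop) (Or.inl hn0)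

private theorem smTwo_F_int (a : ℕ → ℂ) (β : ℝ) (hβ : 0 ≤ β) (N n : ℕ) (hN : 1 ≤ N) :
    Integrable (smTwo_F a β N n) := by
  refine Integrable.mono' ((KK_integrable β hβ).norm.const_mul ‖LSeries.term a (β : ℂ) n‖)
    (smTwo_F_cont a β hβ N n hN).aestronglyMeasurable (Filter.Eventually.of_forall fun t => ?_)
  rw [smTwo_norm_F a β N n hN t]

private theorem smTwo_identity (a : ℕ → ℂ) (β : ℝ) (hβ : 0 ≤ β) (N : ℕ) (hN : 1 ≤ N)
    (hs : LSeriesSummable a (β : ℂ)) :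
    ∑ n ∈ Icc 1 N, a n * ((om ((n : ℝ) / N) : ℝ) : ℂ) =
      (((N : ℝ) ^ β : ℝ) : ℂ) * (1 / (2 * Real.pi)) *
        ∫ t : ℝ, KK β t * ((N : ℂ) ^ (t * Complex.I) * LSeries a ((β : ℂ) + t * Complex.I)) := by
  have hN0 : (0 : ℝ) < N := by exact_mod_cast hN
  have h1 : HasSum (fun n => ∫ t, smTwo_F a β N n t) (∫ t, ∑' n, smTwo_F a β N n t) := by
    apply hasSum_integral_of_summable_integral_norm (smTwo_F_int a β hβ N · hN)
    have h2 : (fun n => ∫ t, ‖smTwo_F a β N n t‖) =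
        fun n => ‖LSeries.term a (β : ℂ) n‖ * ∫ t, ‖KK β t‖ := by
      funext n
      simp only [smTwo_norm_F a β N n hN]
      rw [integral_const_mul]
    rw [h2]
    exact (Summable.norm hs).mul_right _
  have h3 : ∀ t : ℝ, ∑' n, smTwo_F a β N n t =
      KK β t * ((N : ℂ) ^ (t * Complex.I) * LSeries a ((β : ℂ) + t * Complex.I)) := by
    intro t
    unfold smTwo_F LSeries
    rw [tsum_mul_left, tsum_mul_left]
  simp only [h3] at h1
  have h4 := h1.mul_left ((((N : ℝ) ^ β : ℝ) : ℂ) * (1 / (2 * Real.pi)))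
  have hval : ∀ n : ℕ, 1 ≤ n → (((N : ℝ) ^ β : ℝ) : ℂ) * (1 / (2 * Real.pi)) *
      (∫ t, smTwo_F a β N n t) = a n * ((om ((n : ℝ) / N) : ℝ) : ℂ) := by
    intro n hn
    have hn0 : (0 : ℝ) < n := by exact_mod_cast hn
    have e1 : ∫ t, smTwo_F a β N n t = (a n / (n : ℂ) ^ (β : ℂ)) *
        ∫ t : ℝ, KK β t * ((N : ℂ) ^ (t * Complex.I) * (n : ℂ) ^ (-(t * Complex.I))) := by
      simp only [smTwo_F_eq a β N n hn]
      rw [integral_const_mul]
    rw [e1, om_fourier' β hβ hN hn, Real.div_rpow hN0.le hn0.le]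
    have e2 : (n : ℂ) ^ (β : ℂ) = (((n : ℝ) ^ β : ℝ) : ℂ) := by
      rw [Complex.ofReal_cpow hn0.le]; simp
    rw [e2]
    push_cast
    ring
  have h5 : HasSum (fun n => (((N : ℝ) ^ β : ℝ) : ℂ) * (1 / (2 * Real.pi)) *
      (∫ t, smTwo_F a β N n t)) (∑ n ∈ Icc 1 N, (((N : ℝ) ^ β : ℝ) : ℂ) * (1 / (2 * Real.pi)) *
      (∫ t, smTwo_F a β N n t)) := by
    apply hasSum_sum_of_ne_finset_zero
    intro n hn
    rcases Nat.eq_zero_or_pos n with rfl | hn1
    · have : ∀ t, smTwo_F a β N 0 t = 0 := by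
        intro t; unfold smTwo_F; rw [LSeries.term_zero, mul_zero, mul_zero]
      simp only [this, integral_zero, mul_zero]
    · rw [hval n hn1]
      have hnN : N < n := by
        by_contra h
        exact hn (Finset.mem_Icc.2 ⟨hn1, not_lt.1 h⟩)
      rw [om_eq_zero, Complex.ofReal_zero, mul_zero]
      rw [le_div_iff₀ hN0, one_mul]
      exact_mod_cast hnN.le
  rw [← h5.unique h4]
  apply Finset.sum_congr rfl
  intro n hn
  rw [hval n (Finset.mem_Icc.1 hn).1]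

private theorem smTwo_tail {T t : ℝ} (hT : 1 ≤ T) (ht : T < |t|) :
    2 / |t| ^ 3 ≤ 16 * (1 / T ^ 3 * (1 + ‖t / T‖) ^ (-(3 : ℝ))) := by
  have hT0 : 0 < T := by linarith
  have ht0 : 0 < |t| := by linarith
  have h1 : (1 + ‖t / T‖) ^ (-(3 : ℝ)) = 1 / (1 + |t| / T) ^ 3 := by
    rw [Real.norm_eq_abs, abs_div, abs_of_pos hT0, Real.rpow_neg (by positivity), one_div]
    congr 1
    exact_mod_cast Real.rpow_natCast (1 + |t| / T) 3
  have h2 : 1 / T ^ 3 * (1 / (1 + |t| / T) ^ 3) = 1 / (T + |t|) ^ 3 := by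
    have h3 : T + |t| = T * (1 + |t| / T) := by field_simp
    rw [h3, mul_pow]
    have h4 : (1 + |t| / T) ≠ 0 := by positivity
    field_simp
  rw [h1, h2, mul_one_div, div_le_div_iff₀ (by positivity) (by positivity)]
  have h5 : (T + |t|) ^ 3 ≤ (2 * |t|) ^ 3 := pow_le_pow_left₀ (by positivity) (by linarith) 3
  calc 2 * (T + |t|) ^ 3 ≤ 2 * (2 * |t|) ^ 3 := by linarith
    _ = 16 * |t| ^ 3 := by ring

theorem smooth_two : ∃ C : ℝ, 1 ≤ C ∧ ∀ (a : ℕ → ℂ) (β B1 B2 T : ℝ), 1 < β → β ≤ 2 → LSeriesSummable a (β : ℂ) →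
    0 ≤ B1 → 0 ≤ B2 → 1 ≤ T → (∀ τ : ℝ, |τ| ≤ T → ‖LSeries a (β + τ * Complex.I)‖ ≤ B1) →
    (∀ τ : ℝ, ‖LSeries a (β + τ * Complex.I)‖ ≤ B2) → ∀ N : ℕ, 1 ≤ N →
    ‖∑ n ∈ Icc 1 N, a n * ((om ((n : ℝ) / N) : ℝ) : ℂ)‖ ≤ C * (N : ℝ) ^ β * (B1 + B2 / T ^ 2) := by
  obtain ⟨I3, hI3⟩ : ∃ I3 : ℝ, I3 = ∫ t : ℝ, (1 + ‖t‖) ^ (-(3 : ℝ)) := ⟨_, rfl⟩
  have hI3nn : 0 ≤ I3 := by
    rw [hI3]; exact integral_nonneg (fun t => by positivity)
  have hint3 : Integrable (fun t : ℝ => (1 + ‖t‖) ^ (-(3 : ℝ))) :=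
    integrable_one_add_norm (by simp)
  refine ⟨0.4386 * Real.pi + 16 * I3 + 1, ?_, ?_⟩
  · have := Real.pi_pos
    have h1 : 0 ≤ 0.4386 * Real.pi := by positivity
    linarith
  intro a β B1 B2 T hβ1 hβ2 hs hB1 hB2 hT hb1 hb2 N hN
  have hT0 : 0 < T := by linarith
  have hN0 : (0 : ℝ) < N := by exact_mod_cast (by omega : 0 < N)
  rw [smTwo_identity a β (by linarith) N hN hs]
  have hintT : Integrable (fun t : ℝ => (1 + ‖t / T‖) ^ (-(3 : ℝ))) :=
    hint3.comp_div hT0.ne'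
  have hintval : ∫ t : ℝ, (1 + ‖t / T‖) ^ (-(3 : ℝ)) = T * I3 := by
    have := MeasureTheory.Measure.integral_comp_div (fun t : ℝ => (1 + ‖t‖) ^ (-(3 : ℝ))) T
    rw [this, abs_of_pos hT0, smul_eq_mul, hI3]
  have hbound : ‖∫ t : ℝ, KK β t * ((N : ℂ) ^ (t * Complex.I) *
      LSeries a ((β : ℂ) + t * Complex.I))‖ ≤ ∫ t : ℝ, (B1 * (0.4386 * (1 + t ^ 2)⁻¹) +
        B2 * (16 * (1 / T ^ 3 * (1 + ‖t / T‖) ^ (-(3 : ℝ))))) := by
    apply norm_integral_le_of_norm_le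
      (((integrable_inv_one_add_sq.const_mul 0.4386).const_mul B1).add
        (((hintT.const_mul (1 / T ^ 3)).const_mul 16).const_mul B2))
    refine Filter.Eventually.of_forall fun t => ?_
    rw [norm_mul, norm_mul, Complex.norm_natCast_cpow_of_pos (by omega)]
    have h1 : ((t : ℂ) * Complex.I).re = 0 := by simp
    rw [h1, Real.rpow_zero, one_mul]
    have hnn1 : 0 ≤ B1 * (0.4386 * (1 + t ^ 2)⁻¹) := by positivity
    have hnn2 : 0 ≤ B2 * (16 * (1 / T ^ 3 * (1 + ‖t / T‖) ^ (-(3 : ℝ)))) := by positivity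
    rcases le_or_gt |t| T with ht | ht
    · have h2 : ‖KK β t‖ ≤ 0.4386 * (1 + t ^ 2)⁻¹ := by
        have := norm_KK_le β t (by linarith)
        rwa [div_eq_mul_inv] at this
      have h3 := hb1 t ht
      calc ‖KK β t‖ * ‖LSeries a ((β : ℂ) + t * Complex.I)‖
          ≤ 0.4386 * (1 + t ^ 2)⁻¹ * B1 := by gcongr
        _ = B1 * (0.4386 * (1 + t ^ 2)⁻¹) := by ring
        _ ≤ _ := le_add_of_nonneg_right hnn2
    · have ht0 : t ≠ 0 := by
        intro h
        rw [h, abs_zero] at ht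
        linarith
      have h2 := (norm_KK_le' β t (by linarith) ht0).trans (smTwo_tail hT ht)
      have h3 := hb2 t
      calc ‖KK β t‖ * ‖LSeries a ((β : ℂ) + t * Complex.I)‖
          ≤ 16 * (1 / T ^ 3 * (1 + ‖t / T‖) ^ (-(3 : ℝ))) * B2 := by gcongr
        _ = B2 * (16 * (1 / T ^ 3 * (1 + ‖t / T‖) ^ (-(3 : ℝ)))) := by ring
        _ ≤ _ := le_add_of_nonneg_left hnn1
  rw [integral_add ((integrable_inv_one_add_sq.const_mul 0.4386).const_mul B1)
        (((hintT.const_mul (1 / T ^ 3)).const_mul 16).const_mul B2),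
    integral_const_mul, integral_const_mul, integral_univ_inv_one_add_sq,
    integral_const_mul, integral_const_mul, integral_const_mul, hintval] at hbound
  have hval : B1 * (0.4386 * Real.pi) + B2 * (16 * (1 / T ^ 3 * (T * I3))) ≤
      (0.4386 * Real.pi + 16 * I3 + 1) * (B1 + B2 / T ^ 2) := by
    have h1 : B2 * (16 * (1 / T ^ 3 * (T * I3))) = 16 * I3 * (B2 / T ^ 2) := by
      field_simp
    rw [h1]
    have h2 : 0 ≤ B2 / T ^ 2 := by positivity
    have h3 : 0 ≤ 0.4386 * Real.pi := by positivity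
    have h4 : 0 ≤ 16 * I3 * B1 := by positivity
    have h5 : 0 ≤ 0.4386 * Real.pi * (B2 / T ^ 2) := by positivity
    linarith
  rw [norm_mul, norm_mul]
  have e1 : ‖(((N : ℝ) ^ β : ℝ) : ℂ)‖ = (N : ℝ) ^ β := by
    rw [Complex.norm_real, Real.norm_of_nonneg (by positivity)]
  have e2 : ‖(1 / (2 * Real.pi) : ℂ)‖ = 1 / (2 * Real.pi) := by
    have : (1 / (2 * Real.pi) : ℂ) = ((1 / (2 * Real.pi) : ℝ) : ℂ) := by push_cast; rfl
    rw [this, Complex.norm_real, Real.norm_of_nonneg (by positivity)]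
  rw [e1, e2]
  have hpi0 : 0 < 1 / (2 * Real.pi) := by positivity
  have hpi1 : 1 / (2 * Real.pi) ≤ 1 := by
    rw [div_le_one (by positivity)]
    have := Real.pi_gt_three
    linarith
  have hC0 : 0 ≤ (0.4386 * Real.pi + 16 * I3 + 1) * (B1 + B2 / T ^ 2) := by positivity
  calc (N : ℝ) ^ β * (1 / (2 * Real.pi)) * ‖∫ t : ℝ, KK β t * ((N : ℂ) ^ (t * Complex.I) *
        LSeries a ((β : ℂ) + t * Complex.I))‖
      ≤ (N : ℝ) ^ β * 1 * ((0.4386 * Real.pi + 16 * I3 + 1) * (B1 + B2 / T ^ 2)) := by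
        gcongr
        exact hbound.trans hval
    _ = (0.4386 * Real.pi + 16 * I3 + 1) * (N : ℝ) ^ β * (B1 + B2 / T ^ 2) := by ring

end Pool.Agent.H97.VK

end
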