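import Pool.Agent.H94.EH.H91.EHA.Defs
import Pool.Agent.H94.EH.M18
import Pool.Agent.H94.EH.M19

/-! The parts of this file: H76.EHB.HRe, H76.EHB.Fold, H76.EHB.IpB, H76.EHB.SmallA, H76.EHB.Expand, H76.EHB.SmallD, H91.EHA.Lam1. -/

section

/-!
# EHB HRe: `lamR` as an exponential sum

`lamR_eq`: `ramS c n = ∑_{b ∈ red c} e(n b/c)` (`Pool.Agent.H92.EH.ram`, `ram_eq`; `EH.e t = ee t`), for `c ≥ 1`.
`hR_abs`: `|Lam n| ≤ log n` (`ArithmeticFunction.vonMangoldt_le_log`), `|lamR R n| ≤ ∑_{c ≤ R} φ(c)/φ(c) ≤ R`.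
-/

set_option autoImplicit false

namespace Pool.Agent.H76.EHB

open Finset
open Pool.Agent.H91.PK (ee)
open Pool.Agent.H92.EH (red)
open Pool.Agent.H91.EHA (Lam lamR hR ramS)

private theorem hre_ram (c n : ℕ) (hc : 1 ≤ c) (hn : 1 ≤ n) :
    ((ramS c n : ℝ) : ℂ) = ∑ b ∈ red c, ee (n * ((b : ℝ) / c)) := by
  have h1 : ∑ b ∈ red c, ee (n * ((b : ℝ) / c)) = Pool.Agent.H92.EH.ram c (n : ℤ) := by
    unfold Pool.Agent.H92.EH.ram
    refine sum_congr rfl fun b _ => ?_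
    unfold Pool.Agent.H91.PK.ee Pool.Agent.H92.EH.e
    congr 1
    push_cast
    ring
  rw [h1, Pool.Agent.H92.EH.ram_eq c hc (n : ℤ),
    Nat.sum_divisorsAntidiagonal' (f := fun a b : ℕ =>
      ((ArithmeticFunction.moebius a : ℤ) : ℂ) * (if ((b : ℕ) : ℤ) ∣ (n : ℤ) then (b : ℂ) else 0))]
  have h2 : (Nat.gcd c n).divisors = c.divisors.filter (fun d => d ∣ n) := by
    ext d
    simp only [Nat.mem_divisors, mem_filter, Nat.dvd_gcd_iff]
    constructor
    · rintro ⟨⟨a, b⟩, _⟩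
      exact ⟨⟨a, by omega⟩, b⟩
    · rintro ⟨⟨a, _⟩, b⟩
      exact ⟨⟨a, b⟩, (Nat.gcd_pos_of_pos_left n hc).ne'⟩
  unfold ramS
  rw [h2, sum_filter]
  push_cast
  refine sum_congr rfl fun d _ => ?_
  by_cases hd : d ∣ n
  · rw [if_pos hd, if_pos (by exact_mod_cast hd)]
    push_cast
    ring
  · rw [if_neg hd, if_neg (by exact_mod_cast hd)]
    simp

theorem lamR_eq (R n : ℕ) (hn : 1 ≤ n) :
    ((lamR R n : ℝ) : ℂ) = ∑ c ∈ Icc 1 R, ((((ArithmeticFunction.moebius c : ℤ) : ℝ) / (c.totient : ℝ) : ℝ) : ℂ)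
      * ∑ b ∈ red c, ee (n * ((b : ℝ) / c)) := by
  unfold lamR
  rw [Complex.ofReal_sum]
  refine sum_congr rfl fun c hc => ?_
  rw [mem_Icc] at hc
  rw [Complex.ofReal_mul, hre_ram c n hc.1 hn]

theorem hR_abs (R n x : ℕ) (hn : 1 ≤ n) (hx : n ≤ x) : |hR R n| ≤ Real.log x + R := by
  have h1 : |Lam n| ≤ Real.log x := by
    unfold Lam
    rw [abs_of_nonneg ArithmeticFunction.vonMangoldt_nonneg]
    refine ArithmeticFunction.vonMangoldt_le_log.trans ?_
    exact Real.log_le_log (by exact_mod_cast hn) (by exact_mod_cast hx)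
  have h2 : |lamR R n| ≤ R := by
    have h3 : |lamR R n| = ‖((lamR R n : ℝ) : ℂ)‖ := by
      rw [Complex.norm_real]; rfl
    rw [h3, lamR_eq R n hn]
    calc ‖∑ c ∈ Icc 1 R, ((((ArithmeticFunction.moebius c : ℤ) : ℝ) / (c.totient : ℝ) : ℝ) : ℂ)
          * ∑ b ∈ red c, ee (n * ((b : ℝ) / c))‖
        ≤ ∑ c ∈ Icc 1 R, ‖((((ArithmeticFunction.moebius c : ℤ) : ℝ) / (c.totient : ℝ) : ℝ) : ℂ)
          * ∑ b ∈ red c, ee (n * ((b : ℝ) / c))‖ := norm_sum_le _ _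
      _ ≤ ∑ _c ∈ Icc 1 R, (1 : ℝ) := by
          refine sum_le_sum fun c hc => ?_
          rw [mem_Icc] at hc
          have hφ : (0 : ℝ) < c.totient := by
            exact_mod_cast Nat.totient_pos.mpr hc.1
          have h4 : ‖∑ b ∈ red c, ee (n * ((b : ℝ) / c))‖ ≤ c.totient := by
            refine (norm_sum_le _ _).trans ?_
            simp only [Pool.Agent.H91.PK.LSa_norm_ee, sum_const, nsmul_eq_mul, mul_one]
            rw [Pool.Agent.H92.EH.card_red]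
          have h5 : ‖((((ArithmeticFunction.moebius c : ℤ) : ℝ) / (c.totient : ℝ) : ℝ) : ℂ)‖
              ≤ 1 / c.totient := by
            rw [Complex.norm_real, norm_div, Real.norm_eq_abs, Real.norm_of_nonneg hφ.le]
            apply div_le_div_of_nonneg_right _ hφ.le
            exact_mod_cast ArithmeticFunction.abs_moebius_le_one
          rw [norm_mul]
          calc _ ≤ 1 / (c.totient : ℝ) * c.totient :=
                mul_le_mul h5 h4 (norm_nonneg _) (by positivity)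
            _ = 1 := by field_simp
      _ = R := by simp
  unfold hR
  calc |Lam n - lamR R n| ≤ |Lam n| + |lamR R n| := abs_sub _ _
    _ ≤ Real.log x + R := add_le_add h1 h2

end Pool.Agent.H76.EHB

end

section

/-!
# EHB Fold: integrals of `W |FF|^2` over the real line

`fold_le`: if `W ≥ 0` is continuous and integrable and `∑_{j ∈ J} W(θ + j) ≤ C` for every real `θ` and every finite
set `J` of integers, then `∫ W |FF|^2 ≤ C * S2`.
Proof.  `∫_{-M}^{M} W |F|^2 = ∑_{j=-M}^{M-1} ∫_0^1 W(θ+j) |F(θ)|^2 dθ ≤ C ∫_0^1 |F|^2 = C S2` (periodicity `FF_add_int`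
and `FF_parseval`), and let `M → ∞` (`intervalIntegral_tendsto_integral`, the integrand is integrable because
`|FF|^2` is bounded and continuous).
`gfold`: `W(θ) = exp(-π (λ (θ - α))^2)`, `C = 4` by `gauss_spaced` with `δ = 1` and `λ ≥ 1`; then translate.
-/

set_option autoImplicit false

namespace Pool.Agent.H76.EHB

open Finset MeasureTheory

theorem fold_integrable (f : ℕ → ℝ) (N : ℕ) (W : ℝ → ℝ) (hWi : Integrable W) :
    Integrable (fun θ => W θ * ‖FF f N θ‖ ^ 2) := by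
  apply hWi.mul_bdd (c := (N : ℝ) * S2 f N)
  · exact ((FF_continuous f N).norm.pow 2).aestronglyMeasurable
  · refine Filter.Eventually.of_forall fun θ => ?_
    rw [Real.norm_eq_abs, abs_of_nonneg (by positivity)]
    exact norm_FF_sq_le f N θ

private theorem fold_fin (f : ℕ → ℝ) (N : ℕ) (W : ℝ → ℝ) (hW : Continuous W)
    (C : ℝ) (hC : ∀ (θ : ℝ) (J : Finset ℤ), ∑ j ∈ J, W (θ + j) ≤ C) (M : ℕ) :
    ∫ θ in (-(M : ℝ))..(M : ℝ), W θ * ‖FF f N θ‖ ^ 2 ≤ C * S2 f N := by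
  have hcont : Continuous (fun θ => W θ * ‖FF f N θ‖ ^ 2) :=
    hW.mul ((FF_continuous f N).norm.pow 2)
  have h1 : ∫ θ in (-(M : ℝ))..(M : ℝ), W θ * ‖FF f N θ‖ ^ 2
      = ∑ k ∈ range (2 * M), ∫ θ in (-(M : ℝ) + (k : ℝ))..(-(M : ℝ) + ((k + 1 : ℕ) : ℝ)),
          W θ * ‖FF f N θ‖ ^ 2 := by
    have h := intervalIntegral.sum_integral_adjacent_intervals (μ := volume)
      (f := fun θ => W θ * ‖FF f N θ‖ ^ 2) (a := fun k : ℕ => -(M : ℝ) + (k : ℝ)) (n := 2 * M)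
      (fun k _ => hcont.intervalIntegrable _ _)
    rw [h]
    congr 1
    · simp
    · push_cast
      ring
  have h2 : ∀ k ∈ range (2 * M),
      ∫ θ in (-(M : ℝ) + (k : ℝ))..(-(M : ℝ) + ((k + 1 : ℕ) : ℝ)), W θ * ‖FF f N θ‖ ^ 2
      = ∫ θ in (0 : ℝ)..1, W (θ + ((-(M : ℤ) + (k : ℤ) : ℤ) : ℝ)) * ‖FF f N θ‖ ^ 2 := by
    intro k _
    have h := intervalIntegral.integral_comp_add_right (a := (0 : ℝ)) (b := 1)
      (fun θ => W θ * ‖FF f N θ‖ ^ 2) ((-(M : ℤ) + (k : ℤ) : ℤ) : ℝ)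
    have e1 : (0 : ℝ) + ((-(M : ℤ) + (k : ℤ) : ℤ) : ℝ) = -(M : ℝ) + (k : ℝ) := by
      push_cast
      ring
    have e2 : (1 : ℝ) + ((-(M : ℤ) + (k : ℤ) : ℤ) : ℝ) = -(M : ℝ) + ((k + 1 : ℕ) : ℝ) := by
      push_cast
      ring
    rw [e1, e2] at h
    rw [← h]
    apply intervalIntegral.integral_congr
    intro θ _
    simp only
    rw [FF_add_int]
  rw [h1, sum_congr rfl h2, ← intervalIntegral.integral_finsetSum]
  · have h3 : ∀ θ : ℝ, ∑ k ∈ range (2 * M),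
        W (θ + ((-(M : ℤ) + (k : ℤ) : ℤ) : ℝ)) * ‖FF f N θ‖ ^ 2 ≤ C * ‖FF f N θ‖ ^ 2 := by
      intro θ
      rw [← sum_mul]
      apply mul_le_mul_of_nonneg_right _ (by positivity)
      have h4 := hC θ ((range (2 * M)).image (fun k : ℕ => -(M : ℤ) + (k : ℤ)))
      rw [sum_image] at h4
      · exact h4
      · intro a _ b _ hab
        simpa using hab
    have h5 : ∫ θ in (0 : ℝ)..1, C * ‖FF f N θ‖ ^ 2 = C * S2 f N := by
      rw [intervalIntegral.integral_const_mul]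
      congr 1
      have := FF_parseval f N 0
      rwa [zero_add] at this
    rw [← h5]
    apply intervalIntegral.integral_mono_on (by norm_num)
    · apply Continuous.intervalIntegrable
      apply continuous_finsetSum
      intro k _
      exact (hW.comp (continuous_id.add continuous_const)).mul ((FF_continuous f N).norm.pow 2)
    · exact (continuous_const.mul ((FF_continuous f N).norm.pow 2)).intervalIntegrable _ _
    · intro θ _
      exact h3 θ
  · intro k _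
    apply Continuous.intervalIntegrable
    exact (hW.comp (continuous_id.add continuous_const)).mul ((FF_continuous f N).norm.pow 2)

theorem fold_le (f : ℕ → ℝ) (N : ℕ) (W : ℝ → ℝ) (hW : Continuous W) (hW0 : ∀ θ, 0 ≤ W θ)
    (hWi : Integrable W) (C : ℝ) (hC : ∀ (θ : ℝ) (J : Finset ℤ), ∑ j ∈ J, W (θ + j) ≤ C) :
    ∫ θ, W θ * ‖FF f N θ‖ ^ 2 ≤ C * S2 f N := by
  have h := intervalIntegral_tendsto_integral (μ := volume) (l := Filter.atTop)
    (a := fun M : ℕ => -(M : ℝ)) (b := fun M : ℕ => (M : ℝ)) (fold_integrable f N W hWi)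
    (Filter.tendsto_neg_atTop_atBot.comp tendsto_natCast_atTop_atTop)
    tendsto_natCast_atTop_atTop
  exact le_of_tendsto' h (fun M => fold_fin f N W hW C hC M)

theorem gfold (f : ℕ → ℝ) (N : ℕ) (α lam : ℝ) (hlam : 1 ≤ lam) :
    ∫ θ, Real.exp (-Real.pi * (lam * θ) ^ 2) * ‖FF f N (α + θ)‖ ^ 2 ≤ 4 * S2 f N := by
  have hlam0 : 0 < lam := by linarith
  have hi : Integrable (fun x : ℝ => Real.exp (-Real.pi * (lam * x) ^ 2)) := by
    have h := integrable_exp_neg_mul_sq (b := Real.pi * lam ^ 2) (by positivity)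
    refine h.congr (Filter.Eventually.of_forall fun x => ?_)
    simp only
    congr 1
    ring
  have h1 : ∫ θ, Real.exp (-Real.pi * (lam * θ) ^ 2) * ‖FF f N (α + θ)‖ ^ 2
      = ∫ θ, Real.exp (-Real.pi * (lam * (θ - α)) ^ 2) * ‖FF f N θ‖ ^ 2 := by
    rw [← integral_add_right_eq_self
      (fun θ => Real.exp (-Real.pi * (lam * (θ - α)) ^ 2) * ‖FF f N θ‖ ^ 2) α]
    congr 1
    funext θ
    rw [add_sub_cancel_right, add_comm α θ]
  rw [h1]
  apply fold_le f N (fun θ => Real.exp (-Real.pi * (lam * (θ - α)) ^ 2))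
  · fun_prop
  · intro θ
    exact (Real.exp_pos _).le
  · exact hi.comp_sub_right α
  · intro θ J
    have h := gauss_spaced J (fun j : ℤ => (j : ℝ)) 1 lam (α - θ) (by norm_num) hlam0 (by
      intro i _ j _ hij
      have : (1 : ℤ) ≤ |i - j| := Int.one_le_abs (sub_ne_zero.mpr hij)
      have h2 : ((1 : ℤ) : ℝ) ≤ ((|i - j| : ℤ) : ℝ) := by exact_mod_cast this
      push_cast at h2
      exact h2)
    have h3 : 2 / (lam * 1) ≤ 2 := by
      rw [div_le_iff₀ (by positivity)]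
      linarith
    calc ∑ j ∈ J, Real.exp (-Real.pi * (lam * (θ + j - α)) ^ 2)
        = ∑ j ∈ J, Real.exp (-Real.pi * (lam * ((j : ℝ) - (α - θ))) ^ 2) := by
          apply sum_congr rfl
          intro j _
          congr 3
          ring
      _ ≤ 2 + 2 / (lam * 1) := h
      _ ≤ 4 := by linarith

end Pool.Agent.H76.EHB

end

section

/-!
# EHB IpB: Cauchy's inequality for the pair integrals

`|FF FF'| ≤ (|FF|^2 + |FF'|^2)/2` and `|ee| = 1`; integrability by `gauss_integrable` and boundedness.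
`Wk_scale`: substitution `θ = k y`.  `Wk_le`: `gfold` with `λ = A |r| / |k| ≥ 1` (and `Wk` over `S` is `≤` `Wk` over `univ`).
-/

set_option autoImplicit false

namespace Pool.Agent.H76.EHB

open Finset MeasureTheory

private theorem ipB_continuous (f : ℕ → ℝ) (N : ℕ) (α k : ℝ) :
    Continuous (fun y : ℝ => ‖FF f N (α + k * y)‖) :=
  ((FF_continuous f N).comp (continuous_const.add (continuous_const.mul continuous_id))).norm

private theorem ipB_exp_continuous (b : ℝ) :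
    Continuous (fun y : ℝ => Real.exp (-Real.pi * (b * y) ^ 2)) := by
  fun_prop

private theorem ipB_integrable (f : ℕ → ℝ) (N : ℕ) (A α k r : ℝ) (hA : 0 < A) (hr : r ≠ 0) :
    Integrable (fun y : ℝ => A * Real.exp (-Real.pi * (A * r * y) ^ 2) * ‖FF f N (α + k * y)‖ ^ 2) := by
  have hb : A * r ≠ 0 := mul_ne_zero hA.ne' hr
  have h1 := (gauss_integrable (A * r) hb).const_mul (A * (∑ n ∈ Icc 1 N, |f n|) ^ 2)
  apply h1.mono'
  · exact ((continuous_const.mul (ipB_exp_continuous (A * r))).mul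
      ((ipB_continuous f N α k).pow 2)).aestronglyMeasurable
  · filter_upwards with y
    have e0 : 0 ≤ Real.exp (-Real.pi * (A * r * y) ^ 2) := (Real.exp_pos _).le
    have h2 : ‖FF f N (α + k * y)‖ ^ 2 ≤ (∑ n ∈ Icc 1 N, |f n|) ^ 2 :=
      pow_le_pow_left₀ (norm_nonneg _) (norm_FF_le f N _) 2
    rw [Real.norm_eq_abs, abs_of_nonneg (by positivity)]
    calc A * Real.exp (-Real.pi * (A * r * y) ^ 2) * ‖FF f N (α + k * y)‖ ^ 2
        ≤ A * Real.exp (-Real.pi * (A * r * y) ^ 2) * (∑ n ∈ Icc 1 N, |f n|) ^ 2 :=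
          mul_le_mul_of_nonneg_left h2 (by positivity)
      _ = _ := by ring

theorem Wk_nonneg (f : ℕ → ℝ) (N : ℕ) (A α k r : ℝ) (hA : 0 ≤ A) (S : Set ℝ) :
    0 ≤ Wk f N A α k r S := by
  unfold Wk
  apply integral_nonneg
  intro y
  show 0 ≤ A * Real.exp (-Real.pi * (A * r * y) ^ 2) * ‖FF f N (α + k * y)‖ ^ 2
  positivity

private theorem ipB_norm_ee (t : ℝ) : ‖Pool.Agent.H91.PK.ee t‖ = 1 := by
  unfold Pool.Agent.H91.PK.ee
  rw [Complex.norm_exp]
  have : (2 * (Real.pi : ℂ) * (t : ℂ) * Complex.I).re = 0 := by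
    rw [show (2 * (Real.pi : ℂ) * (t : ℂ) * Complex.I) = ((2 * Real.pi * t : ℝ) : ℂ) * Complex.I by
      push_cast; ring]
    rw [Complex.re_ofReal_mul, Complex.I_re, mul_zero]
  rw [this, Real.exp_zero]

theorem IpS_le (f : ℕ → ℝ) (N : ℕ) (A α : ℝ) (hA : 0 < A) (a0 k1 k2 : ℤ) (hk : k1 ≠ k2) (S : Set ℝ)
    (hS : MeasurableSet S) :
    ‖IpS f N A a0 α k1 k2 S‖
      ≤ (Wk f N A α k1 ((k2 - k1 : ℤ) : ℝ) S + Wk f N A α k2 ((k2 - k1 : ℤ) : ℝ) S) / 2 := by
  have hr : ((k2 - k1 : ℤ) : ℝ) ≠ 0 := by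
    rw [Ne, Int.cast_eq_zero, sub_eq_zero]
    exact fun h => hk h.symm
  have i1 := (ipB_integrable f N A α k1 _ hA hr).integrableOn (s := S)
  have i2 := (ipB_integrable f N A α k2 _ hA hr).integrableOn (s := S)
  unfold IpS Wk
  rw [← integral_add i1 i2, ← integral_div]
  refine le_trans (norm_integral_le_integral_norm _) ?_
  apply integral_mono_of_nonneg
  · filter_upwards with y
    exact norm_nonneg _
  · exact (i1.add i2).div_const 2
  · filter_upwards with y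
    have e0 : 0 ≤ Real.exp (-Real.pi * (A * ((k2 - k1 : ℤ) : ℝ) * y) ^ 2) := (Real.exp_pos _).le
    rw [norm_mul, norm_mul, norm_mul, ipB_norm_ee, Complex.norm_real, Real.norm_eq_abs,
      abs_of_nonneg (by positivity), RCLike.norm_conj, mul_one]
    have h1 := two_mul_le_add_sq ‖FF f N (α + k1 * y)‖ ‖FF f N (α + k2 * y)‖
    have h2 : ‖FF f N (α + k2 * y)‖ * ‖FF f N (α + k1 * y)‖
        ≤ (‖FF f N (α + k1 * y)‖ ^ 2 + ‖FF f N (α + k2 * y)‖ ^ 2) / 2 := by linarith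
    calc A * Real.exp (-Real.pi * (A * ((k2 - k1 : ℤ) : ℝ) * y) ^ 2)
          * (‖FF f N (α + k2 * y)‖ * ‖FF f N (α + k1 * y)‖)
        ≤ A * Real.exp (-Real.pi * (A * ((k2 - k1 : ℤ) : ℝ) * y) ^ 2)
          * ((‖FF f N (α + k1 * y)‖ ^ 2 + ‖FF f N (α + k2 * y)‖ ^ 2) / 2) :=
          mul_le_mul_of_nonneg_left h2 (by positivity)
      _ = _ := by ring

theorem Wk_mono (f : ℕ → ℝ) (N : ℕ) (A α k r : ℝ) (hA : 0 < A) (hr : r ≠ 0) (S : Set ℝ)
    (hS : MeasurableSet S) : Wk f N A α k r S ≤ Wk f N A α k r Set.univ := by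
  unfold Wk
  rw [setIntegral_univ]
  apply setIntegral_le_integral (ipB_integrable f N A α k r hA hr)
  filter_upwards with y
  show 0 ≤ A * Real.exp (-Real.pi * (A * r * y) ^ 2) * ‖FF f N (α + k * y)‖ ^ 2
  positivity

theorem Wk_scale (f : ℕ → ℝ) (N : ℕ) (A α k r : ℝ) (hk : k ≠ 0) :
    Wk f N A α k r Set.univ
      = A / |k| * ∫ θ, Real.exp (-Real.pi * (A * r / k * θ) ^ 2) * ‖FF f N (α + θ)‖ ^ 2 := by
  unfold Wk
  rw [setIntegral_univ]
  have h1 := Measure.integral_comp_mul_left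
    (fun θ : ℝ => A * (Real.exp (-Real.pi * (A * r / k * θ) ^ 2) * ‖FF f N (α + θ)‖ ^ 2)) k
  have h2 : (fun y : ℝ => A * Real.exp (-Real.pi * (A * r * y) ^ 2) * ‖FF f N (α + k * y)‖ ^ 2)
      = fun y : ℝ => A * (Real.exp (-Real.pi * (A * r / k * (k * y)) ^ 2)
        * ‖FF f N (α + k * y)‖ ^ 2) := by
    funext y
    have : A * r / k * (k * y) = A * r * y := by field_simp
    rw [this]
    ring
  rw [h2, h1, integral_const_mul, abs_inv, smul_eq_mul]
  field_simp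

theorem Wk_le (f : ℕ → ℝ) (N : ℕ) (A α k r : ℝ) (hA : 0 < A) (hk : k ≠ 0) (hr : |k| ≤ A * |r|)
    (S : Set ℝ) (hS : MeasurableSet S) : Wk f N A α k r S ≤ 4 * (A / |k|) * S2 f N := by
  have hk0 : 0 < |k| := abs_pos.2 hk
  have hr0 : r ≠ 0 := by
    rintro rfl
    rw [abs_zero, mul_zero] at hr
    linarith
  refine le_trans (Wk_mono f N A α k r hA hr0 S hS) ?_
  rw [Wk_scale f N A α k r hk]
  have hlam : 1 ≤ A * |r| / |k| := by rw [le_div_iff₀ hk0]; linarith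
  have h1 := gfold f N α (A * |r| / |k|) hlam
  have h2 : (fun θ : ℝ => Real.exp (-Real.pi * (A * r / k * θ) ^ 2) * ‖FF f N (α + θ)‖ ^ 2)
      = fun θ : ℝ => Real.exp (-Real.pi * (A * |r| / |k| * θ) ^ 2) * ‖FF f N (α + θ)‖ ^ 2 := by
    funext θ
    have : (A * r / k * θ) ^ 2 = (A * |r| / |k| * θ) ^ 2 := by
      rw [mul_pow, mul_pow, div_pow, div_pow, mul_pow, mul_pow, sq_abs, sq_abs]
    rw [this]
  rw [h2]
  calc A / |k| * ∫ θ, Real.exp (-Real.pi * (A * |r| / |k| * θ) ^ 2) * ‖FF f N (α + θ)‖ ^ 2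
      ≤ A / |k| * (4 * S2 f N) := mul_le_mul_of_nonneg_left h1 (by positivity)
    _ = _ := by ring

end Pool.Agent.H76.EHB

end

section

/-!
# EHB SmallA: pairs with small difference; tails

Fix a real `α` and `d ≥ 1`.
`near_pairs`: pairs `k1, k2 ∈ ks K`, `0 < |k2 - k1| < r0`, `d ∣ k2 - k1`, any measurable `S`:
 each `‖IpS‖ ≤ (Wk + Wk)/2 ≤ 2 A (1/|k1| + 1/|k2|) S2` (`IpS_le`, `Wk_le`; `|k| ≤ K ≤ A ≤ A |r|`), for given `k` there are at most
 `2 r0/d` integers `k'` with `d ∣ k' - k`, `0 < |k' - k| < r0`; so the sum is `≤ 4 A S2 (2 r0/d) ∑_k 1/|k| ≤ 16 A (1 + log K) (r0/d) S2`.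
`equal_pairs`: pairs `k1 = k2 = k`, `S = Icc (-Y) Y`, `K Y ≤ 1/2`: `IpS` is `∫_{|y| ≤ Y} A |FF(α + k y)|^2 dy = (A/|k|) ∫_{|θ| ≤ |k| Y} |FF(α+θ)|^2`
 `≤ (A/|k|) S2` (an interval of length ≤ 1, `FF_parseval`).
-/

set_option autoImplicit false

namespace Pool.Agent.H76.EHB

open Finset MeasureTheory

theorem SmallA_card (K d r0 : ℕ) (hd : 1 ≤ d) (k1 : ℤ) :
    (((ks K).filter (fun k2 => k2 ≠ k1 ∧ (d : ℤ) ∣ k2 - k1 ∧ |k2 - k1| < r0)).card : ℝ)
      ≤ 2 * ((r0 : ℝ) / d) := by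
  have hd0 : (0 : ℤ) < d := by exact_mod_cast hd
  have h1 : ((ks K).filter (fun k2 => k2 ≠ k1 ∧ (d : ℤ) ∣ k2 - k1 ∧ |k2 - k1| < r0)).card ≤
      (ks (r0 / d)).card := by
    apply Finset.card_le_card_of_injOn (fun k2 => (k2 - k1) / (d : ℤ))
    · intro k2 hk2
      obtain ⟨_, h2, ⟨j, hj⟩, h4⟩ := Finset.mem_filter.mp (Finset.mem_coe.mp hk2)
      rw [Finset.mem_coe, mem_ks]
      show (k2 - k1) / (d : ℤ) ≠ 0 ∧ |(k2 - k1) / (d : ℤ)| ≤ ((r0 / d : ℕ) : ℤ)
      rw [hj, Int.mul_ediv_cancel_left _ hd0.ne']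
      refine ⟨?_, ?_⟩
      · rintro rfl
        apply h2
        rw [mul_zero] at hj
        omega
      · rw [hj, abs_mul, abs_of_pos hd0] at h4
        push_cast
        rw [Int.le_ediv_iff_mul_le hd0, mul_comm]
        exact h4.le
    · intro a ha b hb hab
      obtain ⟨_, _, ⟨j, hj⟩, _⟩ := Finset.mem_filter.mp (Finset.mem_coe.mp ha)
      obtain ⟨_, _, ⟨i, hi⟩, _⟩ := Finset.mem_filter.mp (Finset.mem_coe.mp hb)
      have hab' : (a - k1) / (d : ℤ) = (b - k1) / (d : ℤ) := hab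
      rw [hj, hi, Int.mul_ediv_cancel_left _ hd0.ne', Int.mul_ediv_cancel_left _ hd0.ne'] at hab'
      rw [hab'] at hj
      omega
  rw [card_ks] at h1
  calc (((ks K).filter (fun k2 => k2 ≠ k1 ∧ (d : ℤ) ∣ k2 - k1 ∧ |k2 - k1| < r0)).card : ℝ)
      ≤ ((2 * (r0 / d) : ℕ) : ℝ) := by exact_mod_cast h1
    _ = 2 * ((r0 / d : ℕ) : ℝ) := by push_cast; ring
    _ ≤ 2 * ((r0 : ℝ) / d) := by
        have := @Nat.cast_div_le ℝ _ _ _ r0 d
        linarith

theorem near_pairs (f : ℕ → ℝ) (N K d r0 : ℕ) (A α : ℝ) (a0 : ℤ) (hK : 1 ≤ K) (hKA : (K : ℝ) ≤ A)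
    (hd : 1 ≤ d) (S : Set ℝ) (hS : MeasurableSet S) :
    ∑ k1 ∈ ks K, ∑ k2 ∈ (ks K).filter (fun k2 => k2 ≠ k1 ∧ (d : ℤ) ∣ k2 - k1 ∧ |k2 - k1| < r0),
      ‖IpS f N A a0 α k1 k2 S‖ ≤ 16 * A * (1 + Real.log K) * ((r0 : ℝ) / d) * S2 f N := by
  have hK1 : (1 : ℝ) ≤ K := by exact_mod_cast hK
  have hA : 0 < A := by linarith
  have hS2 := S2_nonneg f N
  set T : ℤ → Finset ℤ := fun k1 =>
    (ks K).filter (fun k2 => k2 ≠ k1 ∧ (d : ℤ) ∣ k2 - k1 ∧ |k2 - k1| < r0) with hT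
  have hb : ∀ k1 ∈ ks K, ∀ k2 ∈ T k1, ‖IpS f N A a0 α k1 k2 S‖ ≤
      (2 * A * S2 f N) * (1 / |(k1 : ℝ)|) + (2 * A * S2 f N) * (1 / |(k2 : ℝ)|) := by
    intro k1 hk1 k2 hk2
    obtain ⟨hk2', hne, _, _⟩ := Finset.mem_filter.mp hk2
    have h1 := IpS_le f N A α hA a0 k1 k2 (Ne.symm hne) S hS
    have hr : (1 : ℝ) ≤ |((k2 - k1 : ℤ) : ℝ)| := by
      have h2 : (1 : ℤ) ≤ |k2 - k1| := Int.one_le_abs (sub_ne_zero.mpr hne)
      exact_mod_cast h2
    have hW : ∀ k ∈ ks K, Wk f N A α k ((k2 - k1 : ℤ) : ℝ) S ≤ 4 * (A / |(k : ℝ)|) * S2 f N := by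
      intro k hk
      obtain ⟨hk0, hkK⟩ := mem_ks.mp hk
      apply Wk_le f N A α k _ hA (by exact_mod_cast hk0) _ S hS
      have h3 : |(k : ℝ)| ≤ K := by exact_mod_cast hkK
      nlinarith
    have h4 := hW k1 hk1
    have h5 := hW k2 hk2'
    have e1 : 4 * (A / |(k1 : ℝ)|) * S2 f N = 2 * ((2 * A * S2 f N) * (1 / |(k1 : ℝ)|)) := by ring
    have e2 : 4 * (A / |(k2 : ℝ)|) * S2 f N = 2 * ((2 * A * S2 f N) * (1 / |(k2 : ℝ)|)) := by ring
    linarith
  have h1 : ∑ k1 ∈ ks K, ∑ k2 ∈ T k1, ‖IpS f N A a0 α k1 k2 S‖ ≤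
      ∑ k1 ∈ ks K, ∑ k2 ∈ T k1,
        ((2 * A * S2 f N) * (1 / |(k1 : ℝ)|) + (2 * A * S2 f N) * (1 / |(k2 : ℝ)|)) :=
    Finset.sum_le_sum fun k1 hk1 => Finset.sum_le_sum fun k2 hk2 => hb k1 hk1 k2 hk2
  have h2 : ∑ k1 ∈ ks K, ∑ k2 ∈ T k1, (2 * A * S2 f N) * (1 / |(k2 : ℝ)|) =
      ∑ k2 ∈ ks K, ∑ k1 ∈ T k2, (2 * A * S2 f N) * (1 / |(k2 : ℝ)|) := by
    apply Finset.sum_comm'
    intro x y
    simp only [hT, Finset.mem_filter]
    constructor
    · rintro ⟨hx, hy, h3, h4, h5⟩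
      refine ⟨⟨hx, fun h => h3 h.symm, ?_, ?_⟩, hy⟩
      · rw [← neg_sub]; exact (dvd_neg).mpr h4
      · rw [abs_sub_comm]; exact h5
    · rintro ⟨⟨hx, h3, h4, h5⟩, hy⟩
      refine ⟨hx, hy, fun h => h3 h.symm, ?_, ?_⟩
      · rw [← neg_sub]; exact (dvd_neg).mpr h4
      · rw [abs_sub_comm]; exact h5
  have h3 : ∑ k1 ∈ ks K, ∑ k2 ∈ T k1,
        ((2 * A * S2 f N) * (1 / |(k1 : ℝ)|) + (2 * A * S2 f N) * (1 / |(k2 : ℝ)|)) =
      2 * ∑ k1 ∈ ks K, ((T k1).card : ℝ) * ((2 * A * S2 f N) * (1 / |(k1 : ℝ)|)) := by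
    simp_rw [Finset.sum_add_distrib]
    rw [h2]
    simp_rw [Finset.sum_const, nsmul_eq_mul]
    ring
  have h4 : ∑ k1 ∈ ks K, ((T k1).card : ℝ) * ((2 * A * S2 f N) * (1 / |(k1 : ℝ)|)) ≤
      ∑ k1 ∈ ks K, (2 * ((r0 : ℝ) / d)) * ((2 * A * S2 f N) * (1 / |(k1 : ℝ)|)) := by
    apply Finset.sum_le_sum
    intro k1 _
    apply mul_le_mul_of_nonneg_right (SmallA_card K d r0 hd k1)
    positivity
  have h5 : ∑ k1 ∈ ks K, (2 * ((r0 : ℝ) / d)) * ((2 * A * S2 f N) * (1 / |(k1 : ℝ)|)) =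
      (4 * A * S2 f N * ((r0 : ℝ) / d)) * ∑ k1 ∈ ks K, 1 / |(k1 : ℝ)| := by
    rw [Finset.mul_sum]
    refine Finset.sum_congr rfl fun k1 _ => ?_
    ring
  have h6 : (4 * A * S2 f N * ((r0 : ℝ) / d)) * ∑ k1 ∈ ks K, 1 / |(k1 : ℝ)| ≤
      (4 * A * S2 f N * ((r0 : ℝ) / d)) * (2 * (1 + Real.log K)) := by
    apply mul_le_mul_of_nonneg_left (sum_inv_ks K hK)
    positivity
  calc ∑ k1 ∈ ks K, ∑ k2 ∈ T k1, ‖IpS f N A a0 α k1 k2 S‖
      ≤ 2 * ((4 * A * S2 f N * ((r0 : ℝ) / d)) * (2 * (1 + Real.log K))) := by linarith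
    _ = 16 * A * (1 + Real.log K) * ((r0 : ℝ) / d) * S2 f N := by ring

theorem SmallA_window (f : ℕ → ℝ) (N : ℕ) (u v : ℝ) (huv : u ≤ v) (hv : v ≤ u + 1) :
    ∫ t in u..v, ‖FF f N t‖ ^ 2 ≤ S2 f N := by
  rw [← FF_parseval f N u]
  apply intervalIntegral.integral_mono_interval le_rfl huv hv
  · exact Filter.Eventually.of_forall fun t => by positivity
  · exact (((FF_continuous f N).norm).pow 2).intervalIntegrable _ _

theorem SmallA_scale (f : ℕ → ℝ) (N : ℕ) (α c Y : ℝ) (hc : c ≠ 0) (hY : 0 ≤ Y)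
    (hcY : |c| * Y ≤ 1 / 2) :
    ∫ y in (-Y)..Y, ‖FF f N (α + c * y)‖ ^ 2 ≤ (1 / |c|) * S2 f N := by
  have h1 := intervalIntegral.integral_comp_add_mul (a := -Y) (b := Y)
    (fun t => ‖FF f N t‖ ^ 2) hc α
  rw [h1, smul_eq_mul]
  rcases lt_or_gt_of_ne hc with h | h
  · rw [abs_of_neg h] at hcY ⊢
    rw [intervalIntegral.integral_symm]
    have h2 := SmallA_window f N (α + c * Y) (α + c * -Y) (by nlinarith) (by nlinarith)
    have h3 : (0 : ℝ) < 1 / -c := one_div_pos.mpr (by linarith)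
    have e : c⁻¹ * -(∫ t in (α + c * Y)..(α + c * -Y), ‖FF f N t‖ ^ 2) =
        (1 / -c) * ∫ t in (α + c * Y)..(α + c * -Y), ‖FF f N t‖ ^ 2 := by
      rw [one_div, inv_neg]; ring
    rw [e]
    exact mul_le_mul_of_nonneg_left h2 h3.le
  · rw [abs_of_pos h] at hcY ⊢
    have h2 := SmallA_window f N (α + c * -Y) (α + c * Y) (by nlinarith) (by nlinarith)
    rw [one_div]
    exact mul_le_mul_of_nonneg_left h2 (inv_nonneg.mpr h.le)

theorem equal_pairs (f : ℕ → ℝ) (N K : ℕ) (A α Y : ℝ) (a0 : ℤ) (hK : 1 ≤ K) (hA : 0 < A)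
    (hY : 0 ≤ Y) (hKY : K * Y ≤ 1 / 2) :
    ∑ k ∈ ks K, ‖IpS f N A a0 α k k (Set.Icc (-Y) Y)‖ ≤ 2 * A * (1 + Real.log K) * S2 f N := by
  have hS2 := S2_nonneg f N
  have h1 : ∀ k ∈ ks K, ‖IpS f N A a0 α k k (Set.Icc (-Y) Y)‖ ≤ (A * S2 f N) * (1 / |(k : ℝ)|) := by
    intro k hk
    obtain ⟨hk0, hkK⟩ := mem_ks.mp hk
    have hk0' : (k : ℝ) ≠ 0 := by exact_mod_cast hk0
    have hkK' : |(k : ℝ)| ≤ K := by exact_mod_cast hkK
    unfold IpS
    refine (norm_integral_le_integral_norm _).trans ?_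
    have h2 : ∀ y : ℝ, ‖((A * Real.exp (-Real.pi * (A * ((k - k : ℤ) : ℝ) * y) ^ 2) : ℝ) : ℂ)
        * Pool.Agent.H91.PK.ee (-((a0 : ℝ) * ((k - k : ℤ) : ℝ) * y))
        * (FF f N (α + k * y) * (starRingEnd ℂ) (FF f N (α + k * y)))‖ =
        A * ‖FF f N (α + k * y)‖ ^ 2 := by
      intro y
      rw [norm_mul, norm_mul, norm_mul, Pool.Agent.H91.PK.LSa_norm_ee, Complex.norm_real,
        RCLike.norm_conj, sub_self]
      simp [abs_of_pos hA, pow_two]
    simp_rw [h2]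
    rw [MeasureTheory.integral_Icc_eq_integral_Ioc, ← intervalIntegral.integral_of_le (by linarith),
      intervalIntegral.integral_const_mul]
    have h3 := SmallA_scale f N α k Y hk0' hY (by nlinarith)
    calc A * ∫ y in (-Y)..Y, ‖FF f N (α + k * y)‖ ^ 2 ≤ A * ((1 / |(k : ℝ)|) * S2 f N) :=
          mul_le_mul_of_nonneg_left h3 hA.le
      _ = (A * S2 f N) * (1 / |(k : ℝ)|) := by ring
  refine (Finset.sum_le_sum h1).trans ?_
  rw [← Finset.mul_sum]
  calc (A * S2 f N) * ∑ k ∈ ks K, 1 / |(k : ℝ)| ≤ (A * S2 f N) * (2 * (1 + Real.log K)) :=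
        mul_le_mul_of_nonneg_left (sum_inv_ks K hK) (by positivity)
    _ = 2 * A * (1 + Real.log K) * S2 f N := by ring

end Pool.Agent.H76.EHB

end

section

/-!
# EHB Expand: opening the square

Let `Z` be the integer `(K+1) (N + |a0| + A + 2 Q) + N` (any large enough box).  On `(a0, a0+A]` the weight
`wt A (a - a0)` is `≥ exp(-π)`.  So the left side is at most
`exp(π) ∑_{|a| ≤ Z} ∑_{|q| ≤ Z} wt A (a - a0) (∑_{k ∈ ks K} ft (a + k q))^2`.
Open the square.  For `k1 ≠ k2`, `r = k2 - k1`, the map `(a, q) ↦ (n1, n2) = (a + k1 q, a + k2 q)` is a bijection of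
the pairs in the box with `n1, n2 ∈ [1, N]` onto the pairs `(n1, n2) ∈ [1,N]^2` with `r ∣ n1 - n2`
(inverse `q = (n2 - n1)/r`, `a = n1 - k1 q`, `|q| ≤ N`, `|a| ≤ N + K N ≤ Z`), and `a = (k2 n1 - k1 n2)/r`.  So the pair
`k1 ≠ k2` gives `Soff f N A a0 k1 k2`.  The pair `k1 = k2 = k` gives
`∑_{n ≤ N} f(n)^2 ∑_{|a| ≤ Z, k ∣ n - a, |(n-a)/k| ≤ Z} wt A (a - a0)`, which is at most the sum over all `|a| ≤ Z` with `k ∣ n - a`
(the weights are nonnegative): this is `DD`.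
-/

set_option autoImplicit false

namespace Pool.Agent.H76.EHB

open Finset MeasureTheory

/-- diagonal term with box `[-Z, Z]` -/
noncomputable def DD (f : ℕ → ℝ) (N : ℕ) (A : ℝ) (a0 : ℤ) (Z : ℕ) (k : ℤ) : ℝ :=
  ∑ n ∈ Icc 1 N, f n ^ 2 * ∑ a ∈ (Icc (-(Z : ℤ)) Z).filter (fun a => k ∣ (n : ℤ) - a), wt A ((a : ℝ) - a0)

private lemma exp_off (f : ℕ → ℝ) (N K Z : ℕ) (A : ℝ) (a0 k1 k2 : ℤ) (h1 : |k1| ≤ K)
    (hne : k1 ≠ k2) (hZ : N + K * N ≤ Z) :
    ∑ p ∈ Icc (-(Z : ℤ)) Z ×ˢ Icc (-(Z : ℤ)) Z,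
      wt A ((p.2 : ℝ) - a0) * (ft f N (p.2 + k1 * p.1) * ft f N (p.2 + k2 * p.1))
      = Soff f N A a0 k1 k2 := by
  classical
  have hr : k2 - k1 ≠ 0 := sub_ne_zero.2 (Ne.symm hne)
  have hR : ((k2 - k1 : ℤ) : ℝ) ≠ 0 := by exact_mod_cast hr
  unfold Soff
  rw [← Finset.sum_product', ← Finset.sum_filter]
  rw [← Finset.sum_filter_add_sum_filter_not (Icc (-(Z : ℤ)) Z ×ˢ Icc (-(Z : ℤ)) Z)
    (fun p => (1 ≤ p.2 + k1 * p.1 ∧ p.2 + k1 * p.1 ≤ N) ∧ (1 ≤ p.2 + k2 * p.1 ∧ p.2 + k2 * p.1 ≤ N))]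
  have hz : ∑ p ∈ (Icc (-(Z : ℤ)) Z ×ˢ Icc (-(Z : ℤ)) Z).filter
      (fun p => ¬ ((1 ≤ p.2 + k1 * p.1 ∧ p.2 + k1 * p.1 ≤ N) ∧ (1 ≤ p.2 + k2 * p.1 ∧ p.2 + k2 * p.1 ≤ N))),
      wt A ((p.2 : ℝ) - a0) * (ft f N (p.2 + k1 * p.1) * ft f N (p.2 + k2 * p.1)) = 0 := by
    apply Finset.sum_eq_zero
    intro p hp
    have hp' := (Finset.mem_filter.1 hp).2
    rw [not_and_or] at hp'
    rcases hp' with h | h
    · have : ft f N (p.2 + k1 * p.1) = 0 := by unfold ft; rw [if_neg h]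
      rw [this]; ring
    · have : ft f N (p.2 + k2 * p.1) = 0 := by unfold ft; rw [if_neg h]
      rw [this]; ring
  rw [hz, add_zero]
  refine Finset.sum_bij' (fun p _ => ((p.2 + k1 * p.1).toNat, (p.2 + k2 * p.1).toNat))
    (fun n _ => (((n.2 : ℤ) - n.1) / (k2 - k1), (n.1 : ℤ) - k1 * (((n.2 : ℤ) - n.1) / (k2 - k1)))) ?_ ?_ ?_ ?_ ?_
  · intro p hp
    have hp' := (Finset.mem_filter.1 hp).2
    obtain ⟨⟨b1, b2⟩, c1, c2⟩ := hp'
    rw [Finset.mem_filter, Finset.mem_product, Finset.mem_Icc, Finset.mem_Icc]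
    refine ⟨⟨⟨by omega, by omega⟩, by omega, by omega⟩, ?_⟩
    have e1 : ((p.2 + k1 * p.1).toNat : ℤ) = p.2 + k1 * p.1 := Int.toNat_of_nonneg (by omega)
    have e2 : ((p.2 + k2 * p.1).toNat : ℤ) = p.2 + k2 * p.1 := Int.toNat_of_nonneg (by omega)
    simp only [e1, e2]
    exact ⟨-p.1, by ring⟩
  · intro n hn
    rw [Finset.mem_filter, Finset.mem_product, Finset.mem_Icc, Finset.mem_Icc] at hn
    obtain ⟨⟨⟨b1, b2⟩, c1, c2⟩, hd⟩ := hn
    obtain ⟨m, hm⟩ := hd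
    have hq : ((n.2 : ℤ) - n.1) / (k2 - k1) = -m := by
      have : (n.2 : ℤ) - n.1 = (k2 - k1) * (-m) := by linarith
      rw [this, Int.mul_ediv_cancel_left _ hr]
    rw [Finset.mem_filter, Finset.mem_product, Finset.mem_Icc, Finset.mem_Icc]
    simp only [hq]
    have hmN : |m| ≤ N := by
      have h2 : |(n.1 : ℤ) - n.2| ≤ N := by rw [abs_le]; constructor <;> omega
      rw [hm, abs_mul] at h2
      have h3 : 1 ≤ |k2 - k1| := Int.one_le_abs hr
      nlinarith [abs_nonneg m]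
    have hkm : |k1 * (-m)| ≤ K * N := by
      rw [abs_mul, abs_neg]
      exact mul_le_mul h1 hmN (abs_nonneg _) (by positivity)
    rw [abs_le] at hmN hkm
    have hZ' : (N : ℤ) + K * N ≤ Z := by exact_mod_cast hZ
    have hKN : (0 : ℤ) ≤ K * N := by positivity
    have e1 : (n.1 : ℤ) - k1 * -m + k1 * -m = n.1 := by ring
    have e2 : (n.1 : ℤ) - k1 * -m + k2 * -m = n.2 := by linarith
    rw [e1, e2]
    refine ⟨⟨⟨by omega, by omega⟩, by omega, by omega⟩, ⟨by omega, by omega⟩, by omega, by omega⟩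
  · intro p hp
    have hp' := (Finset.mem_filter.1 hp).2
    obtain ⟨⟨b1, b2⟩, c1, c2⟩ := hp'
    have e1 : ((p.2 + k1 * p.1).toNat : ℤ) = p.2 + k1 * p.1 := Int.toNat_of_nonneg (by omega)
    have e2 : ((p.2 + k2 * p.1).toNat : ℤ) = p.2 + k2 * p.1 := Int.toNat_of_nonneg (by omega)
    simp only [e1, e2]
    have e3 : p.2 + k2 * p.1 - (p.2 + k1 * p.1) = (k2 - k1) * p.1 := by ring
    rw [e3, Int.mul_ediv_cancel_left _ hr]
    exact Prod.ext rfl (by simp only; ring)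
  · intro n hn
    rw [Finset.mem_filter, Finset.mem_product, Finset.mem_Icc, Finset.mem_Icc] at hn
    obtain ⟨⟨⟨b1, b2⟩, c1, c2⟩, hd⟩ := hn
    obtain ⟨m, hm⟩ := hd
    have hq : ((n.2 : ℤ) - n.1) / (k2 - k1) = -m := by
      have : (n.2 : ℤ) - n.1 = (k2 - k1) * (-m) := by linarith
      rw [this, Int.mul_ediv_cancel_left _ hr]
    simp only [hq]
    have e1 : (n.1 : ℤ) - k1 * -m + k1 * -m = n.1 := by ring
    have e2 : (n.1 : ℤ) - k1 * -m + k2 * -m = n.2 := by linarith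
    rw [e1, e2, Int.toNat_natCast, Int.toNat_natCast]
  · intro p hp
    have hp' := (Finset.mem_filter.1 hp).2
    obtain ⟨⟨b1, b2⟩, c1, c2⟩ := hp'
    have e1 : ((p.2 + k1 * p.1).toNat : ℤ) = p.2 + k1 * p.1 := Int.toNat_of_nonneg (by omega)
    have e2 : ((p.2 + k2 * p.1).toNat : ℤ) = p.2 + k2 * p.1 := Int.toNat_of_nonneg (by omega)
    simp only [e1, e2]
    have hft1 : ft f N (p.2 + k1 * p.1) = f (p.2 + k1 * p.1).toNat := by
      unfold ft; rw [if_pos ⟨b1, b2⟩]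
    have hft2 : ft f N (p.2 + k2 * p.1) = f (p.2 + k2 * p.1).toNat := by
      unfold ft; rw [if_pos ⟨c1, c2⟩]
    rw [hft1, hft2]
    have e4 : k2 * (p.2 + k1 * p.1) - k1 * (p.2 + k2 * p.1) = p.2 * (k2 - k1) := by ring
    rw [e4, Int.cast_mul, mul_div_assoc, div_self hR, mul_one]
    ring

private lemma exp_diag (f : ℕ → ℝ) (N Z : ℕ) (A : ℝ) (a0 k : ℤ) (hk : k ≠ 0) :
    ∑ p ∈ Icc (-(Z : ℤ)) Z ×ˢ Icc (-(Z : ℤ)) Z,
      wt A ((p.2 : ℝ) - a0) * (ft f N (p.2 + k * p.1) * ft f N (p.2 + k * p.1))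
      ≤ DD f N A a0 Z k := by
  classical
  rw [← Finset.sum_filter_add_sum_filter_not (Icc (-(Z : ℤ)) Z ×ˢ Icc (-(Z : ℤ)) Z)
    (fun p => 1 ≤ p.2 + k * p.1 ∧ p.2 + k * p.1 ≤ N)]
  have hz : ∑ p ∈ (Icc (-(Z : ℤ)) Z ×ˢ Icc (-(Z : ℤ)) Z).filter
      (fun p => ¬ (1 ≤ p.2 + k * p.1 ∧ p.2 + k * p.1 ≤ N)),
      wt A ((p.2 : ℝ) - a0) * (ft f N (p.2 + k * p.1) * ft f N (p.2 + k * p.1)) = 0 := by
    apply Finset.sum_eq_zero
    intro p hp
    have hp' := (Finset.mem_filter.1 hp).2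
    have : ft f N (p.2 + k * p.1) = 0 := by unfold ft; rw [if_neg hp']
    rw [this]; ring
  rw [hz, add_zero]
  unfold DD
  have h1 : ∑ n ∈ Icc 1 N, f n ^ 2 * ∑ a ∈ (Icc (-(Z : ℤ)) Z).filter (fun a => k ∣ (n : ℤ) - a), wt A ((a : ℝ) - a0)
      = ∑ u ∈ (Icc 1 N ×ˢ Icc (-(Z : ℤ)) Z).filter (fun u => k ∣ (u.1 : ℤ) - u.2),
          f u.1 ^ 2 * wt A ((u.2 : ℝ) - a0) := by
    rw [Finset.sum_filter, Finset.sum_product]
    refine Finset.sum_congr rfl fun n _ => ?_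
    rw [Finset.mul_sum, Finset.sum_filter]
  rw [h1]
  set S := (Icc (-(Z : ℤ)) Z ×ˢ Icc (-(Z : ℤ)) Z).filter
      (fun p => 1 ≤ p.2 + k * p.1 ∧ p.2 + k * p.1 ≤ N) with hS
  set g : ℤ × ℤ → ℕ × ℤ := fun p => ((p.2 + k * p.1).toNat, p.2) with hg
  have hinj : Set.InjOn g S := by
    intro p hp p' hp' hpp
    have b := (Finset.mem_filter.1 hp).2
    have b' := (Finset.mem_filter.1 hp').2
    simp only [hg, Prod.mk.injEq] at hpp
    obtain ⟨e1, e2⟩ := hpp
    have e3 : p.2 + k * p.1 = p'.2 + k * p'.1 := by omega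
    rw [e2] at e3
    have e4 : k * p.1 = k * p'.1 := by linarith
    exact Prod.ext (mul_left_cancel₀ hk e4) e2
  have h2 : ∑ p ∈ S, wt A ((p.2 : ℝ) - a0) * (ft f N (p.2 + k * p.1) * ft f N (p.2 + k * p.1))
      = ∑ u ∈ S.image g, f u.1 ^ 2 * wt A ((u.2 : ℝ) - a0) := by
    rw [Finset.sum_image hinj]
    refine Finset.sum_congr rfl fun p hp => ?_
    have b := (Finset.mem_filter.1 hp).2
    have hft : ft f N (p.2 + k * p.1) = f (p.2 + k * p.1).toNat := by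
      unfold ft; rw [if_pos b]
    rw [hft]
    simp only [hg]
    ring
  rw [h2]
  refine Finset.sum_le_sum_of_subset_of_nonneg ?_ fun u _ _ => ?_
  · intro u hu
    rw [Finset.mem_image] at hu
    obtain ⟨p, hp, rfl⟩ := hu
    rw [hS, Finset.mem_filter, Finset.mem_product] at hp
    obtain ⟨⟨p1, p2⟩, b1, b2⟩ := hp
    rw [Finset.mem_filter, Finset.mem_product, Finset.mem_Icc]
    simp only [hg]
    refine ⟨⟨⟨by omega, by omega⟩, p2⟩, ?_⟩
    rw [Int.toNat_of_nonneg (by omega)]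
    exact ⟨p.1, by ring⟩
  · exact mul_nonneg (sq_nonneg _) (Real.exp_pos _).le

theorem expand (f : ℕ → ℝ) (N K A Q : ℕ) (a0 : ℤ) (hA : 1 ≤ A) :
    ∃ Z : ℕ, ∑ q ∈ Ioc Q (2 * Q), ∑ a ∈ Ioc a0 (a0 + A), (∑ k ∈ ks K, ft f N (a + k * q)) ^ 2
      ≤ Real.exp Real.pi * (∑ k ∈ ks K, DD f N A a0 Z k
          + ∑ k1 ∈ ks K, ∑ k2 ∈ (ks K).erase k1, Soff f N A a0 k1 k2) := by
  classical
  set Z : ℕ := N + K * N + a0.natAbs + A + 2 * Q with hZ
  refine ⟨Z, ?_⟩
  set Bx := Icc (-(Z : ℤ)) Z with hBx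
  have hA0 : (0 : ℝ) < A := by exact_mod_cast hA
  set T : ℤ → ℤ → ℝ := fun q a => (∑ k ∈ ks K, ft f N (a + k * q)) ^ 2 with hT
  have hT0 : ∀ q a, 0 ≤ T q a := fun q a => sq_nonneg _
  -- step 1
  have s1 : ∑ q ∈ Ioc Q (2 * Q), ∑ a ∈ Ioc a0 (a0 + A), (∑ k ∈ ks K, ft f N (a + k * q)) ^ 2
      ≤ ∑ q ∈ Bx, ∑ a ∈ Bx, Real.exp Real.pi * (wt A ((a : ℝ) - a0) * T q a) := by
    have s2 : ∑ q ∈ Ioc Q (2 * Q), ∑ a ∈ Ioc a0 (a0 + A), (∑ k ∈ ks K, ft f N (a + k * q)) ^ 2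
        = ∑ q ∈ (Ioc Q (2 * Q)).image (fun n : ℕ => (n : ℤ)), ∑ a ∈ Ioc a0 (a0 + A), T q a := by
      rw [Finset.sum_image (fun x _ y _ h => by simpa using h)]
    rw [s2]
    have s3 : ∀ q : ℤ, ∑ a ∈ Ioc a0 (a0 + A), T q a
        ≤ ∑ a ∈ Bx, Real.exp Real.pi * (wt A ((a : ℝ) - a0) * T q a) := by
      intro q
      refine le_trans (Finset.sum_le_sum (g := fun a : ℤ => Real.exp Real.pi * (wt A ((a : ℝ) - a0) * T q a)) ?_)
        (Finset.sum_le_sum_of_subset_of_nonneg ?_ ?_)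
      · intro a ha
        rw [Finset.mem_Ioc] at ha
        have hw : Real.exp (-Real.pi) ≤ wt A ((a : ℝ) - a0) := by
          unfold wt
          apply Real.exp_le_exp.mpr
          have h1 : (0 : ℝ) < (a : ℝ) - a0 := by
            have : (a0 : ℝ) < a := by exact_mod_cast ha.1
            linarith
          have h2 : (a : ℝ) - a0 ≤ A := by
            have : (a : ℝ) ≤ a0 + A := by exact_mod_cast ha.2
            linarith
          have h3 : ((a : ℝ) - a0) / A ≤ 1 := by rw [div_le_one hA0]; exact h2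
          have h4 : 0 ≤ ((a : ℝ) - a0) / A := div_nonneg h1.le hA0.le
          have h5 : (((a : ℝ) - a0) / A) ^ 2 ≤ 1 := by nlinarith
          nlinarith [Real.pi_pos]
        have h6 : 1 ≤ Real.exp Real.pi * wt A ((a : ℝ) - a0) := by
          have := mul_le_mul_of_nonneg_left hw (Real.exp_pos Real.pi).le
          rwa [← Real.exp_add, add_neg_cancel, Real.exp_zero] at this
        calc T q a = 1 * T q a := (one_mul _).symm
          _ ≤ (Real.exp Real.pi * wt A ((a : ℝ) - a0)) * T q a :=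
              mul_le_mul_of_nonneg_right h6 (hT0 q a)
          _ = _ := by ring
      · intro a ha
        rw [Finset.mem_Ioc] at ha
        rw [hBx, Finset.mem_Icc]
        omega
      · intro a _ _
        exact mul_nonneg (Real.exp_pos _).le (mul_nonneg (Real.exp_pos _).le (hT0 q a))
    refine (Finset.sum_le_sum fun q _ => s3 q).trans ?_
    refine Finset.sum_le_sum_of_subset_of_nonneg ?_ ?_
    · intro q hq
      rw [Finset.mem_image] at hq
      obtain ⟨n, hn, rfl⟩ := hq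
      rw [Finset.mem_Ioc] at hn
      rw [hBx, Finset.mem_Icc]
      omega
    · intro q _ _
      exact Finset.sum_nonneg fun a _ => mul_nonneg (Real.exp_pos _).le (mul_nonneg (Real.exp_pos _).le (hT0 q a))
  refine s1.trans ?_
  have s4 : ∑ q ∈ Bx, ∑ a ∈ Bx, Real.exp Real.pi * (wt A ((a : ℝ) - a0) * T q a)
      = Real.exp Real.pi * ∑ k1 ∈ ks K, ∑ k2 ∈ ks K, ∑ p ∈ Bx ×ˢ Bx,
          wt A ((p.2 : ℝ) - a0) * (ft f N (p.2 + k1 * p.1) * ft f N (p.2 + k2 * p.1)) := by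
    rw [← Finset.sum_product' (f := fun q a : ℤ => Real.exp Real.pi * (wt A ((a : ℝ) - a0) * T q a)),
      ← Finset.mul_sum]
    congr 1
    have s5 : ∀ p : ℤ × ℤ, wt A ((p.2 : ℝ) - a0) * T p.1 p.2
        = ∑ k1 ∈ ks K, ∑ k2 ∈ ks K,
          wt A ((p.2 : ℝ) - a0) * (ft f N (p.2 + k1 * p.1) * ft f N (p.2 + k2 * p.1)) := by
      intro p
      simp only [hT]
      rw [sq, Finset.sum_mul_sum, Finset.mul_sum]
      refine Finset.sum_congr rfl fun k1 _ => ?_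
      rw [Finset.mul_sum]
    rw [Finset.sum_congr rfl fun p _ => s5 p, Finset.sum_comm]
    refine Finset.sum_congr rfl fun k1 _ => ?_
    rw [Finset.sum_comm]
  rw [s4]
  refine mul_le_mul_of_nonneg_left ?_ (Real.exp_pos _).le
  have s6 : ∀ k1 ∈ ks K, ∑ k2 ∈ ks K, ∑ p ∈ Bx ×ˢ Bx,
          wt A ((p.2 : ℝ) - a0) * (ft f N (p.2 + k1 * p.1) * ft f N (p.2 + k2 * p.1))
      ≤ DD f N A a0 Z k1 + ∑ k2 ∈ (ks K).erase k1, Soff f N A a0 k1 k2 := by
    intro k1 hk1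
    rw [← Finset.add_sum_erase _ _ hk1]
    rw [mem_ks] at hk1
    refine add_le_add (exp_diag f N Z A a0 k1 hk1.1) (le_of_eq ?_)
    refine Finset.sum_congr rfl fun k2 hk2 => ?_
    exact exp_off f N K Z A a0 k1 k2 hk1.2 (Ne.symm (Finset.ne_of_mem_erase hk2)) (by omega)
  refine (Finset.sum_le_sum s6).trans ?_
  rw [Finset.sum_add_distrib]

end Pool.Agent.H76.EHB

end

section

/-!
# EHB SmallD: tails

`far_pairs`: `r = k2 - k1`, `|r| ≥ r0`, `Y = L/(A r0)`: the difference of the integrals is the integral over `|y| > Y`; there `(A r y)^2 ≥ L^2` and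
 `exp(-π (A r y)^2) ≤ exp(-(π/2) L^2) exp(-(π/2) (A r y)^2)`, `‖FF FF'‖ ≤ N S2` (`norm_FF_sq_le`), and
 `∫ A exp(-(π/2) (A r y)^2) dy = √2/|r| ≤ √2`; number of pairs `≤ (2K)^2`; and `exp(-(π/2) L^2) ≤ exp(-L^2)`; `4 √2 ≤ 8`.
-/

set_option autoImplicit false

namespace Pool.Agent.H76.EHB

open Finset MeasureTheory
open Pool.Agent.H91.PK (ee)

private theorem smallD_norm_prod (f : ℕ → ℝ) (N : ℕ) (s t : ℝ) :
    ‖FF f N s * (starRingEnd ℂ) (FF f N t)‖ ≤ N * S2 f N := by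
  rw [norm_mul, RCLike.norm_conj]
  have h1 := norm_FF_sq_le f N s
  have h2 := norm_FF_sq_le f N t
  nlinarith [sq_nonneg (‖FF f N s‖ - ‖FF f N t‖)]

/-- the integrand of `IpS` -/
private noncomputable def smallDg (f : ℕ → ℝ) (N : ℕ) (A : ℝ) (a0 : ℤ) (α : ℝ) (k1 k2 : ℤ) (y : ℝ) :
    ℂ :=
  ((A * Real.exp (-Real.pi * (A * ((k2 - k1 : ℤ) : ℝ) * y) ^ 2) : ℝ) : ℂ)
    * ee (-((a0 : ℝ) * ((k2 - k1 : ℤ) : ℝ) * y))
    * (FF f N (α + k2 * y) * (starRingEnd ℂ) (FF f N (α + k1 * y)))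

private theorem smallDg_norm (f : ℕ → ℝ) (N : ℕ) (A : ℝ) (hA : 0 < A) (a0 : ℤ) (α : ℝ)
    (k1 k2 : ℤ) (y : ℝ) :
    ‖smallDg f N A a0 α k1 k2 y‖ ≤
      (A * Real.exp (-Real.pi * (A * ((k2 - k1 : ℤ) : ℝ) * y) ^ 2)) * (N * S2 f N) := by
  unfold smallDg
  rw [norm_mul, norm_mul, Complex.norm_real, Real.norm_eq_abs,
    abs_of_pos (mul_pos hA (Real.exp_pos _)), Pool.Agent.H91.PK.LSa_norm_ee, mul_one]
  exact mul_le_mul_of_nonneg_left (smallD_norm_prod f N _ _) (mul_pos hA (Real.exp_pos _)).le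

private theorem smallDg_continuous (f : ℕ → ℝ) (N : ℕ) (A : ℝ) (a0 : ℤ) (α : ℝ)
    (k1 k2 : ℤ) : Continuous (smallDg f N A a0 α k1 k2) := by
  unfold smallDg
  have h1 := continuous_ee
  have h2 := FF_continuous f N
  refine Continuous.mul (Continuous.mul ?_ ?_) (Continuous.mul ?_ ?_)
  · exact Complex.continuous_ofReal.comp (by fun_prop)
  · exact h1.comp (by fun_prop)
  · exact h2.comp (by fun_prop)
  · exact Complex.continuous_conj.comp (h2.comp (by fun_prop))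

private theorem smallDg_integrable (f : ℕ → ℝ) (N : ℕ) (A : ℝ) (hA : 0 < A) (a0 : ℤ) (α : ℝ)
    (k1 k2 : ℤ) (hk : k2 - k1 ≠ 0) : Integrable (smallDg f N A a0 α k1 k2) := by
  have hb : A * ((k2 - k1 : ℤ) : ℝ) ≠ 0 := mul_ne_zero hA.ne' (Int.cast_ne_zero.2 hk)
  refine Integrable.mono' (((gauss_integrable _ hb).const_mul A).mul_const (N * S2 f N))
    (smallDg_continuous f N A a0 α k1 k2).aestronglyMeasurable ?_
  exact Filter.Eventually.of_forall fun y => smallDg_norm f N A hA a0 α k1 k2 y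

private theorem smallD_pair (f : ℕ → ℝ) (N r0 : ℕ) (A α L : ℝ) (a0 : ℤ) (hA : 1 ≤ A)
    (hr0 : 1 ≤ r0) (hL : 1 ≤ L) (k1 k2 : ℤ) (hk : (r0 : ℤ) ≤ |k2 - k1|) :
    ‖IpS f N A a0 α k1 k2 Set.univ -
      IpS f N A a0 α k1 k2 (Set.Icc (-(L / (A * r0))) (L / (A * r0)))‖
      ≤ 2 * (N * S2 f N) * Real.exp (-L ^ 2) := by
  have hA0 : 0 < A := by linarith
  have hr0' : (1 : ℝ) ≤ r0 := by exact_mod_cast hr0
  have hr : (r0 : ℝ) ≤ |((k2 - k1 : ℤ) : ℝ)| := by
    rw [← Int.cast_abs]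
    exact_mod_cast hk
  set r : ℝ := ((k2 - k1 : ℤ) : ℝ) with hrdef
  have hr1 : 1 ≤ |r| := hr0'.trans hr
  have hk0 : k2 - k1 ≠ 0 := by
    intro h
    rw [h, abs_zero] at hk
    omega
  have hrne : r ≠ 0 := by
    intro h
    rw [h, abs_zero] at hr1
    linarith
  set Y : ℝ := L / (A * r0) with hY
  have hYpos : 0 < A * r0 := by positivity
  have hint := smallDg_integrable f N A hA0 a0 α k1 k2 hk0
  have hsplit : IpS f N A a0 α k1 k2 Set.univ - IpS f N A a0 α k1 k2 (Set.Icc (-Y) Y) =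
      ∫ y in (Set.Icc (-Y) Y)ᶜ, smallDg f N A a0 α k1 k2 y := by
    have h1 : IpS f N A a0 α k1 k2 Set.univ = ∫ y, smallDg f N A a0 α k1 k2 y := by
      rw [← setIntegral_univ]
      rfl
    have h2 : IpS f N A a0 α k1 k2 (Set.Icc (-Y) Y) =
        ∫ y in Set.Icc (-Y) Y, smallDg f N A a0 α k1 k2 y := rfl
    rw [h1, h2, ← integral_add_compl (measurableSet_Icc (a := -Y) (b := Y)) hint]
    ring
  have hb : A * r / 2 ≠ 0 := div_ne_zero (mul_ne_zero hA0.ne' hrne) two_ne_zero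
  have hN0 : 0 ≤ (N : ℝ) * S2 f N := mul_nonneg (Nat.cast_nonneg _) (S2_nonneg f N)
  have hgi : Integrable (fun y : ℝ => Real.exp (-L ^ 2) * (N * S2 f N) * A *
      Real.exp (-Real.pi * (A * r / 2 * y) ^ 2)) := (gauss_integrable _ hb).const_mul _
  rw [hsplit]
  calc ‖∫ y in (Set.Icc (-Y) Y)ᶜ, smallDg f N A a0 α k1 k2 y‖
      ≤ ∫ y in (Set.Icc (-Y) Y)ᶜ, Real.exp (-L ^ 2) * (N * S2 f N) * A *
          Real.exp (-Real.pi * (A * r / 2 * y) ^ 2) := by
        refine norm_integral_le_of_norm_le hgi.integrableOn ?_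
        rw [ae_restrict_iff' (measurableSet_Icc.compl)]
        refine Filter.Eventually.of_forall fun y hy => ?_
        refine (smallDg_norm f N A hA0 a0 α k1 k2 y).trans ?_
        have hy1 : Y ≤ |y| := by
          by_contra hlt
          push Not at hlt
          exact hy ⟨(abs_lt.1 hlt).1.le, (abs_lt.1 hlt).2.le⟩
        have hy2 : L ≤ |A * r * y| := by
          rw [abs_mul, abs_mul, abs_of_pos hA0]
          have h3 : L = A * r0 * Y := by
            rw [hY]; field_simp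
          rw [h3]
          have hY0 : 0 ≤ Y := by rw [hY]; positivity
          gcongr
        have hy3 : L ^ 2 ≤ (A * r * y) ^ 2 := by
          rw [← sq_abs (A * r * y)]
          exact pow_le_pow_left₀ (by linarith) hy2 2
        have hexp : Real.exp (-Real.pi * (A * r * y) ^ 2) ≤
            Real.exp (-L ^ 2) * Real.exp (-Real.pi * (A * r / 2 * y) ^ 2) := by
          rw [← Real.exp_add]
          refine Real.exp_le_exp.2 ?_
          have hpi := Real.pi_gt_three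
          have e1 : (A * r / 2 * y) ^ 2 = (A * r * y) ^ 2 / 4 := by ring
          rw [e1]
          nlinarith [sq_nonneg (A * r * y)]
        calc (A * Real.exp (-Real.pi * (A * ((k2 - k1 : ℤ) : ℝ) * y) ^ 2)) * (N * S2 f N)
            ≤ (A * (Real.exp (-L ^ 2) * Real.exp (-Real.pi * (A * r / 2 * y) ^ 2))) *
              (N * S2 f N) := by
              refine mul_le_mul_of_nonneg_right ?_ hN0
              exact mul_le_mul_of_nonneg_left hexp hA0.le
          _ = _ := by ring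
    _ ≤ ∫ y, Real.exp (-L ^ 2) * (N * S2 f N) * A *
          Real.exp (-Real.pi * (A * r / 2 * y) ^ 2) := by
        refine setIntegral_le_integral hgi (Filter.Eventually.of_forall fun y => ?_)
        have := Real.exp_pos (-L ^ 2)
        have := Real.exp_pos (-Real.pi * (A * r / 2 * y) ^ 2)
        simp only [Pi.zero_apply]
        positivity
    _ = Real.exp (-L ^ 2) * (N * S2 f N) * A * (1 / |A * r / 2|) := by
        rw [integral_const_mul, gauss_integral _ hb]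
    _ ≤ 2 * (N * S2 f N) * Real.exp (-L ^ 2) := by
        have e1 : A * (1 / |A * r / 2|) = 2 / |r| := by
          rw [abs_div, abs_mul, abs_of_pos hA0, abs_two]
          have : |r| ≠ 0 := by positivity
          field_simp
        have e2 : (2 : ℝ) / |r| ≤ 2 := by
          rw [div_le_iff₀ (by linarith)]
          linarith
        calc Real.exp (-L ^ 2) * (N * S2 f N) * A * (1 / |A * r / 2|)
            = Real.exp (-L ^ 2) * (N * S2 f N) * (A * (1 / |A * r / 2|)) := by ring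
          _ ≤ Real.exp (-L ^ 2) * (N * S2 f N) * 2 := by
              rw [e1]
              exact mul_le_mul_of_nonneg_left e2 (mul_nonneg (Real.exp_pos _).le hN0)
          _ = _ := by ring

theorem far_pairs (f : ℕ → ℝ) (N K d r0 : ℕ) (A α L : ℝ) (a0 : ℤ) (hA : 1 ≤ A) (hr0 : 1 ≤ r0)
    (hL : 1 ≤ L) :
    ∑ k1 ∈ ks K, ∑ k2 ∈ (ks K).filter (fun k2 => (d : ℤ) ∣ k2 - k1 ∧ (r0 : ℤ) ≤ |k2 - k1|),
      ‖IpS f N A a0 α k1 k2 Set.univ - IpS f N A a0 α k1 k2 (Set.Icc (-(L / (A * r0))) (L / (A * r0)))‖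
      ≤ 8 * K ^ 2 * N * S2 f N * Real.exp (-L ^ 2) := by
  set B : ℝ := 2 * (N * S2 f N) * Real.exp (-L ^ 2) with hB
  have hB0 : 0 ≤ B :=
    mul_nonneg (mul_nonneg zero_le_two (mul_nonneg (Nat.cast_nonneg _) (S2_nonneg f N)))
      (Real.exp_pos _).le
  have h1 : ∀ k1 ∈ ks K,
      ∑ k2 ∈ (ks K).filter (fun k2 => (d : ℤ) ∣ k2 - k1 ∧ (r0 : ℤ) ≤ |k2 - k1|),
      ‖IpS f N A a0 α k1 k2 Set.univ -
        IpS f N A a0 α k1 k2 (Set.Icc (-(L / (A * r0))) (L / (A * r0)))‖ ≤ (2 * K : ℕ) * B := by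
    intro k1 _
    refine (Finset.sum_le_card_nsmul _ _ B fun k2 h2 => ?_).trans ?_
    · exact smallD_pair f N r0 A α L a0 hA hr0 hL k1 k2 (Finset.mem_filter.1 h2).2.2
    · rw [nsmul_eq_mul]
      refine mul_le_mul_of_nonneg_right ?_ hB0
      rw [← card_ks K]
      exact_mod_cast Finset.card_le_card (Finset.filter_subset _ _)
  refine (Finset.sum_le_card_nsmul _ _ _ h1).trans ?_
  rw [nsmul_eq_mul, card_ks, hB]
  push_cast
  apply le_of_eq
  ring

end Pool.Agent.H76.EHB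

end

section

/-!
# `lamR` in arithmetic progressions

For `(a,q)=1`: `#{n ≤ y : n ≡ a (q), d | n}` is `0` if `(d,q) > 1` and `y/(qd) + O(1)` (error at most 1) if `(d,q)=1`.
`∑_{d | c, (d,q)=1} μ(c/d) = μ(c)` if `c | q` and `0` otherwise, for squarefree `c` (and only squarefree `c` occur,
because of the factor `μ(c)`).  Error: `∑_{c≤R} (1/φ(c)) ∑_{d|c} d ≤ ∑_{c ≤ R} c² ≤ R³`.
-/

set_option autoImplicit false

namespace Pool.Agent.H91.EHA

open Finset
open Pool.Agent.H91.PK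

/-- Number of `n ≤ y` in a residue class. -/
private theorem lam1_count (y m b : ℕ) (hm : 0 < m) :
    |(((Icc 1 y).filter (fun n => n ≡ b [MOD m])).card : ℝ) - (y : ℝ) / m| ≤ 1 := by
  have h0 : Icc 1 y = Ioc 0 y := by
    ext n
    simp only [mem_Icc, mem_Ioc]
    omega
  have h1 := Nat.Ioc_filter_modEq_card 0 y hm b
  rw [h0]
  have hmq : (0 : ℚ) < (m : ℚ) := by exact_mod_cast hm
  set A : ℚ := ((y : ℚ) - b) / m with hA
  set B : ℚ := (((0 : ℕ) : ℚ) - b) / m with hB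
  have hAB : A = B + (y : ℚ) / m := by
    rw [hA, hB]
    push_cast
    ring
  have hy : (0 : ℚ) ≤ (y : ℚ) / m := by positivity
  have hle : ⌊B⌋ ≤ ⌊A⌋ := Int.floor_le_floor (by rw [hAB]; linarith)
  rw [max_eq_left (by linarith)] at h1
  have h2 : ((((Ioc 0 y).filter (fun n => n ≡ b [MOD m])).card : ℤ) : ℚ) = (⌊A⌋ : ℚ) - (⌊B⌋ : ℚ) := by
    rw [h1]
    push_cast
    ring
  have a1 := Int.floor_le A
  have a2 := Int.lt_floor_add_one A
  have b1 := Int.floor_le B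
  have b2 := Int.lt_floor_add_one B
  have h3 : |((((Ioc 0 y).filter (fun n => n ≡ b [MOD m])).card : ℤ) : ℚ) - (y : ℚ) / m| ≤ 1 := by
    rw [h2, abs_le]
    constructor <;> linarith
  have h4 : ((|((((Ioc 0 y).filter (fun n => n ≡ b [MOD m])).card : ℤ) : ℚ) - (y : ℚ) / m| : ℚ) : ℝ)
      ≤ ((1 : ℚ) : ℝ) := by
    exact_mod_cast h3
  push_cast at h4
  simpa using h4

/-- Number of `n ≤ y`, `n ≡ a mod q`, divisible by `d`. -/
private noncomputable def lam1N (y q a d : ℕ) : ℕ :=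
  (((Icc 1 y).filter (fun n => n ≡ a [MOD q])).filter (fun n => d ∣ n)).card

private theorem lam1_N_zero {y q a d : ℕ} (ha : Nat.Coprime a q) (hd : ¬ Nat.Coprime d q) :
    lam1N y q a d = 0 := by
  unfold lam1N
  rw [card_eq_zero, filter_eq_empty_iff]
  intro n hn hdn
  rw [mem_filter] at hn
  apply hd
  have h1 : Nat.gcd d q ∣ n := (Nat.gcd_dvd_left d q).trans hdn
  have h2 : Nat.gcd d q ∣ q := Nat.gcd_dvd_right d q
  have h3 : Nat.gcd d q ∣ a := by
    have := (hn.2.of_dvd h2)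
    exact (this.dvd_iff dvd_rfl).1 h1
  have h4 : Nat.gcd d q ∣ Nat.gcd a q := Nat.dvd_gcd h3 h2
  rw [ha] at h4
  exact Nat.dvd_one.1 h4

private theorem lam1_N_coprime {y q a d : ℕ} (hq : 1 ≤ q) (hd1 : 1 ≤ d) (hd : Nat.Coprime d q) :
    |(lam1N y q a d : ℝ) - (y : ℝ) / (q * d)| ≤ 1 := by
  obtain ⟨b, hb1, hb2⟩ := Nat.chineseRemainder hd.symm a 0
  have h1 : ((Icc 1 y).filter (fun n => n ≡ a [MOD q])).filter (fun n => d ∣ n)
      = (Icc 1 y).filter (fun n => n ≡ b [MOD (q * d)]) := by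
    rw [filter_filter]
    apply filter_congr
    intro n _
    rw [← Nat.modEq_and_modEq_iff_modEq_mul hd.symm]
    constructor
    · rintro ⟨h, h'⟩
      exact ⟨h.trans hb1.symm, ((Nat.modEq_zero_iff_dvd).2 h').trans hb2.symm⟩
    · rintro ⟨h, h'⟩
      exact ⟨h.trans hb1, (Nat.modEq_zero_iff_dvd).1 (h'.trans hb2)⟩
  unfold lam1N
  rw [h1]
  have := lam1_count y (q * d) b (Nat.mul_pos hq hd1)
  push_cast at this
  exact this

/-- `∑_{d | c, (d,q)=1} μ(c/d) = μ(c)` if `c | q` and `0` otherwise. -/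
private theorem lam1_moeb {c q : ℕ} (hc : Squarefree c) (_hq : 1 ≤ q) :
    ∑ d ∈ c.divisors.filter (fun d => Nat.Coprime d q), ArithmeticFunction.moebius (c / d)
      = if c ∣ q then ArithmeticFunction.moebius c else 0 := by
  have hc0 : c ≠ 0 := hc.ne_zero
  set g := Nat.gcd c q with hg
  have hgc : g ∣ c := Nat.gcd_dvd_left c q
  obtain ⟨e, he⟩ := hgc
  have hg0 : 0 < g := Nat.gcd_pos_of_pos_left q (Nat.pos_of_ne_zero hc0)
  have he0 : 0 < e := Nat.pos_of_ne_zero (by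
    rintro rfl
    exact hc0 (by rw [he, mul_zero]))
  have hcop : Nat.Coprime g e := by
    rw [he] at hc
    exact Nat.coprime_of_squarefree_mul hc
  have heq : Nat.Coprime e q := by
    -- a prime dividing `e` and `q` divides `g`
    rw [Nat.coprime_iff_gcd_eq_one]
    by_contra hne
    obtain ⟨p, hp, hpd⟩ := Nat.exists_prime_and_dvd hne
    have hpe : p ∣ e := hpd.trans (Nat.gcd_dvd_left e q)
    have hpq : p ∣ q := hpd.trans (Nat.gcd_dvd_right e q)
    have hpc : p ∣ c := by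
      rw [he]
      exact hpe.mul_left g
    have hpg : p ∣ g := Nat.dvd_gcd hpc hpq
    have := Nat.dvd_gcd hpg hpe
    rw [hcop] at this
    exact hp.one_lt.ne' (Nat.dvd_one.1 this)
  have hset : c.divisors.filter (fun d => Nat.Coprime d q) = e.divisors := by
    ext d
    simp only [mem_filter, Nat.mem_divisors]
    constructor
    · rintro ⟨⟨hd, _⟩, hdq⟩
      refine ⟨?_, he0.ne'⟩
      have hdg : Nat.Coprime d g := Nat.Coprime.coprime_dvd_right (Nat.gcd_dvd_right c q) hdq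
      rw [he] at hd
      exact hdg.dvd_of_dvd_mul_left hd
    · rintro ⟨hd, _⟩
      refine ⟨⟨?_, hc0⟩, Nat.Coprime.coprime_dvd_left hd heq⟩
      rw [he]
      exact hd.mul_left g
  rw [hset]
  have hterm : ∀ d ∈ e.divisors, ArithmeticFunction.moebius (c / d)
      = ArithmeticFunction.moebius g * ArithmeticFunction.moebius (e / d) := by
    intro d hd
    have hde : d ∣ e := (Nat.mem_divisors.1 hd).1
    have h1 : c / d = g * (e / d) := by
      rw [he, Nat.mul_div_assoc g hde]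
    rw [h1]
    apply ArithmeticFunction.isMultiplicative_moebius.map_mul_of_coprime
    exact Nat.Coprime.coprime_dvd_right (Nat.div_dvd_of_dvd hde) hcop
  rw [sum_congr rfl hterm, ← mul_sum]
  rw [Nat.sum_div_divisors e (fun d => ArithmeticFunction.moebius d)]
  have hs : ∑ d ∈ e.divisors, ArithmeticFunction.moebius d = if e = 1 then 1 else 0 := by
    rw [← ArithmeticFunction.coe_mul_zeta_apply, ArithmeticFunction.moebius_mul_coe_zeta]
    rw [ArithmeticFunction.one_apply]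
  rw [hs]
  by_cases h1 : e = 1
  · have hcg : c = g := by rw [he, h1, mul_one]
    have hcq : c ∣ q := by
      rw [hcg]
      exact Nat.gcd_dvd_right c q
    rw [if_pos h1, if_pos hcq, mul_one, ← hcg]
  · have hcq : ¬ c ∣ q := by
      intro h
      apply h1
      have hgc : g = c := Nat.gcd_eq_left h
      have h3 : c * e = c * 1 := by
        rw [mul_one]
        conv_rhs => rw [he]
        rw [hgc]
      exact Nat.eq_of_mul_eq_mul_left (Nat.pos_of_ne_zero hc0) h3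
    rw [if_neg h1, if_neg hcq, mul_zero]

private theorem lam1_swap (y q a c : ℕ) (hc : c ≠ 0) :
    ∑ n ∈ (Icc 1 y).filter (fun n => n ≡ a [MOD q]), ramS c n
      = ∑ d ∈ c.divisors, (d : ℝ) * (ArithmeticFunction.moebius (c / d) : ℝ) * (lam1N y q a d : ℝ) := by
  have h1 : ∀ n ∈ (Icc 1 y).filter (fun n => n ≡ a [MOD q]), ramS c n
      = ∑ d ∈ c.divisors, if d ∣ n then (d : ℝ) * (ArithmeticFunction.moebius (c / d) : ℝ) else 0 := by
    intro n hn
    have hn1 : 1 ≤ n := (mem_Icc.1 (mem_filter.1 hn).1).1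
    rw [← sum_filter]
    unfold ramS
    apply sum_congr _ (fun _ _ => rfl)
    ext d
    simp only [mem_filter, Nat.mem_divisors, Nat.dvd_gcd_iff, ne_eq, Nat.gcd_eq_zero_iff]
    constructor
    · rintro ⟨⟨h, h'⟩, _⟩
      exact ⟨⟨h, hc⟩, h'⟩
    · rintro ⟨⟨h, _⟩, h'⟩
      exact ⟨⟨h, h'⟩, fun h => hc h.1⟩
  rw [sum_congr rfl h1, sum_comm]
  apply sum_congr rfl
  intro d _
  rw [← sum_filter, sum_const, nsmul_eq_mul]
  unfold lam1N
  ring

/-- One `c`. -/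
private theorem lam1_term (R y q a c : ℕ) (hq : 1 ≤ q) (ha : Nat.Coprime a q) (hc : c ∈ Icc 1 R) :
    |(ArithmeticFunction.moebius c : ℝ) / (c.totient : ℝ) *
        ∑ n ∈ (Icc 1 y).filter (fun n => n ≡ a [MOD q]), ramS c n
      - (y : ℝ) / q * (if c ∣ q then (ArithmeticFunction.moebius c : ℝ) ^ 2 / (c.totient : ℝ) else 0)|
      ≤ (R : ℝ) ^ 2 := by
  have hc1 : 1 ≤ c := (mem_Icc.1 hc).1
  have hcR : c ≤ R := (mem_Icc.1 hc).2
  have hc0 : c ≠ 0 := by omega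
  by_cases hsq : Squarefree c
  · have hmain : (y : ℝ) / q * (if c ∣ q then (ArithmeticFunction.moebius c : ℝ) ^ 2 / (c.totient : ℝ) else 0)
        = (ArithmeticFunction.moebius c : ℝ) / (c.totient : ℝ) *
          ∑ d ∈ c.divisors, (d : ℝ) * (ArithmeticFunction.moebius (c / d) : ℝ) *
            (if Nat.Coprime d q then (y : ℝ) / (q * d) else 0) := by
      have h1 : ∑ d ∈ c.divisors, (d : ℝ) * (ArithmeticFunction.moebius (c / d) : ℝ) *
            (if Nat.Coprime d q then (y : ℝ) / (q * d) else 0)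
          = (y : ℝ) / q * ((if c ∣ q then ArithmeticFunction.moebius c else 0 : ℤ) : ℝ) := by
        rw [← lam1_moeb hsq hq]
        push_cast
        rw [sum_filter, mul_sum]
        apply sum_congr rfl
        intro d hd
        have hd0 : (d : ℝ) ≠ 0 := by
          have := Nat.pos_of_mem_divisors hd
          positivity
        have hq0 : (q : ℝ) ≠ 0 := by positivity
        split_ifs
        · field_simp
        · simp
      rw [h1]
      split_ifs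
      · ring
      · simp
    rw [hmain, lam1_swap y q a c hc0, ← mul_sub, ← sum_sub_distrib, abs_mul]
    have hφ : (1 : ℝ) ≤ (c.totient : ℝ) := by
      exact_mod_cast Nat.totient_pos.2 hc1
    have hμ : |(ArithmeticFunction.moebius c : ℝ) / (c.totient : ℝ)| ≤ 1 := by
      rw [abs_div, abs_of_nonneg (by positivity : (0 : ℝ) ≤ (c.totient : ℝ))]
      rw [div_le_one (by positivity)]
      have : |(ArithmeticFunction.moebius c : ℝ)| ≤ 1 := by
        exact_mod_cast ArithmeticFunction.abs_moebius_le_one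
      linarith
    have hsum : |∑ d ∈ c.divisors, ((d : ℝ) * (ArithmeticFunction.moebius (c / d) : ℝ) * (lam1N y q a d : ℝ)
        - (d : ℝ) * (ArithmeticFunction.moebius (c / d) : ℝ) *
            (if Nat.Coprime d q then (y : ℝ) / (q * d) else 0))| ≤ (R : ℝ) ^ 2 := by
      refine (abs_sum_le_sum_abs _ _).trans ?_
      have hb : ∀ d ∈ c.divisors, |(d : ℝ) * (ArithmeticFunction.moebius (c / d) : ℝ) * (lam1N y q a d : ℝ)
        - (d : ℝ) * (ArithmeticFunction.moebius (c / d) : ℝ) *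
            (if Nat.Coprime d q then (y : ℝ) / (q * d) else 0)| ≤ (R : ℝ) := by
        intro d hd
        have hd1 : 1 ≤ d := Nat.pos_of_mem_divisors hd
        have hdc : d ≤ c := Nat.divisor_le hd
        rw [← mul_sub, abs_mul, abs_mul]
        have hμd : |(ArithmeticFunction.moebius (c / d) : ℝ)| ≤ 1 := by
          exact_mod_cast ArithmeticFunction.abs_moebius_le_one
        have hN : |(lam1N y q a d : ℝ) - (if Nat.Coprime d q then (y : ℝ) / (q * d) else 0)| ≤ 1 := by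
          split_ifs with h
          · exact lam1_N_coprime hq hd1 h
          · rw [lam1_N_zero ha h]
            simp
        have hdR : |(d : ℝ)| ≤ (R : ℝ) := by
          rw [abs_of_nonneg (by positivity)]
          exact_mod_cast hdc.trans hcR
        calc |(d : ℝ)| * |(ArithmeticFunction.moebius (c / d) : ℝ)| * _
            ≤ (R : ℝ) * 1 * 1 := by
              apply mul_le_mul _ hN (abs_nonneg _) (by positivity)
              exact mul_le_mul hdR hμd (abs_nonneg _) (by positivity)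
          _ = (R : ℝ) := by ring
      refine (sum_le_card_nsmul _ _ _ hb).trans ?_
      rw [nsmul_eq_mul, pow_two]
      apply mul_le_mul_of_nonneg_right _ (by positivity)
      have : c.divisors.card ≤ c := Nat.card_divisors_le_self c
      exact_mod_cast this.trans hcR
    calc _ ≤ 1 * (R : ℝ) ^ 2 := mul_le_mul hμ hsum (abs_nonneg _) zero_le_one
      _ = _ := one_mul _
  · have hμ0 : ArithmeticFunction.moebius c = 0 :=
      ArithmeticFunction.moebius_eq_zero_of_not_squarefree hsq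
    rw [hμ0]
    simp only [Int.cast_zero, zero_div, zero_mul, ne_eq, OfNat.ofNat_ne_zero, not_false_eq_true,
      zero_pow, ite_self, mul_zero, sub_zero, abs_zero]
    positivity

theorem lamR_ap (R y q a : ℕ) (hq : 1 ≤ q) (ha : Nat.Coprime a q) :
    |(∑ n ∈ (Icc 1 y).filter (fun n => n ≡ a [MOD q]), lamR R n)
      - (y : ℝ) / q * ∑ c ∈ q.divisors.filter (fun c => c ≤ R),
          (ArithmeticFunction.moebius c : ℝ) ^ 2 / (c.totient : ℝ)| ≤ (R : ℝ) ^ 3 := by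
  have h1 : (∑ n ∈ (Icc 1 y).filter (fun n => n ≡ a [MOD q]), lamR R n)
      = ∑ c ∈ Icc 1 R, (ArithmeticFunction.moebius c : ℝ) / (c.totient : ℝ) *
        ∑ n ∈ (Icc 1 y).filter (fun n => n ≡ a [MOD q]), ramS c n := by
    unfold lamR
    rw [sum_comm]
    apply sum_congr rfl
    intro c _
    rw [mul_sum]
  have h2 : ∑ c ∈ q.divisors.filter (fun c => c ≤ R),
          (ArithmeticFunction.moebius c : ℝ) ^ 2 / (c.totient : ℝ)
      = ∑ c ∈ Icc 1 R, if c ∣ q then (ArithmeticFunction.moebius c : ℝ) ^ 2 / (c.totient : ℝ) else 0 := by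
    rw [← sum_filter]
    apply sum_congr _ (fun _ _ => rfl)
    ext c
    simp only [mem_filter, Nat.mem_divisors, mem_Icc]
    constructor
    · rintro ⟨⟨h, h'⟩, h3⟩
      exact ⟨⟨Nat.pos_of_dvd_of_pos h hq, h3⟩, h⟩
    · rintro ⟨⟨_, h3⟩, h⟩
      exact ⟨⟨h, by omega⟩, h3⟩
  rw [h1, h2, mul_sum, ← sum_sub_distrib]
  refine (abs_sum_le_sum_abs _ _).trans ?_
  refine (sum_le_card_nsmul _ _ _ (fun c hc => lam1_term R y q a c hq ha hc)).trans ?_
  rw [nsmul_eq_mul, Nat.card_Icc]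
  apply le_of_eq
  simp only [Nat.add_sub_cancel]
  ring

end Pool.Agent.H91.EHA

end
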