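import Pool.Agent.H94.EH.M02
import Pool.Agent.H94.EH.M20
import Pool.Agent.H94.EH.M40
import Pool.Agent.H94.EH.M41

/-! The parts of this file: H91.L1.HSq, H91.L1.Var. -/

section

/-!
# L1 HSq: size of `hR`, pointwise and in mean square over short windows

`hR_bd`: `|hR R n| ≤ log n + R` (`Pool.Agent.H76.EHB.hR_abs` in `Pool/Agent/H76/EHB/HRe.lean`); `log(9x) + L^B ≤ L^(B+1)` for
`B ≥ 1` and large `x` (`n = 0`: `Lam 0 = 0`, `|lamR R 0| ≤ R` as well; `ramS c 0 = ∑_{d | c} d μ(c/d) = φ(c)`; treat it separately).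
`hsq`: `hR² ≤ 2 Lam² + 2 lamR²`, `Lam n ≤ log(9x)`.  `|lamR R n| ≤ ∑_{c ≤ R} (1/φ(c)) ∑_{e | (c,n)} e
≤ ∑_{e | n, e ≤ R} (e/φ(e)) ∑_{m ≤ R} 1/φ(m)` (`c = e m`, `φ(em) ≥ φ(e) φ(m)`), and `e/φ(e) ≤ 1 + log₂ e`, `1/φ(m) ≤ τ(m)/m`
(`chB_inv_totient_le`, `chB_sum_inv_totient` in `EHA/ChB.lean`; `H92/EH/Totient.lean`), so
`|lamR R n| ≤ C (1 + log R)^3 #{e ≤ R : e | n}`, and `log R ≤ B log log x`, so the factor is at most any power of `L`.
`∑_{n in the window} #{e ≤ R : e|n}² = ∑_{e1,e2 ≤ R} #{n : lcm(e1,e2) | n} ≤ ∑ (H/lcm(e1,e2) + 1) ≤ H (1+log R)^3 + R²`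
(`1/lcm(e1,e2) = gcd/(e1 e2) ≤ ∑_{g | e1, g | e2} g/(e1 e2)`).
-/

set_option autoImplicit false

namespace Pool.Agent.H91.L1

open Finset
open Pool.Agent.H91.EHA (Lam lamR hR psiA err)

private theorem HSq_div_totient (R e : ℕ) (he : 1 ≤ e) (heR : e ≤ R) :
    (e : ℝ) / (e.totient : ℝ) ≤ 2 * (1 + Real.log R) := by
  have hφ : (0 : ℝ) < e.totient := by exact_mod_cast Nat.totient_pos.mpr he
  have h1 := Pool.Agent.H92.EH.le_totient_mul e
  have h2 : (e.primeFactors.card : ℝ) ≤ (Nat.log 2 e : ℝ) := by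
    exact_mod_cast Pool.Agent.H92.EH.card_primeFactors_le e
  have he0 : (0 : ℝ) < e := by exact_mod_cast he
  have h3 : (Nat.log 2 e : ℝ) * Real.log 2 ≤ Real.log e := by
    have h4 : ((2 : ℝ)) ^ (Nat.log 2 e) ≤ e := by
      exact_mod_cast Nat.pow_log_le_self 2 (by omega)
    have h5 := Real.log_le_log (by positivity) h4
    rwa [Real.log_pow] at h5
  have h4 : Real.log e ≤ Real.log R := Real.log_le_log he0 (by exact_mod_cast heR)
  have h5 : (0.6931471803 : ℝ) < Real.log 2 := Real.log_two_gt_d9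
  have h6 : (0 : ℝ) ≤ (Nat.log 2 e : ℝ) := by positivity
  have h7 : (Nat.log 2 e : ℝ) ≤ 2 * Real.log R := by nlinarith only [h3, h4, h5]
  rw [div_le_iff₀ hφ]
  calc (e : ℝ) ≤ e.totient * (e.primeFactors.card + 1) := h1
    _ ≤ e.totient * (2 * (1 + Real.log R)) := by
        refine mul_le_mul_of_nonneg_left ?_ hφ.le
        linarith only [h2, h7]
    _ = 2 * (1 + Real.log R) * e.totient := by ring

private theorem HSq_ramS (c n : ℕ) :
    |Pool.Agent.H91.EHA.ramS c n| ≤ ∑ e ∈ (Nat.gcd c n).divisors, (e : ℝ) := by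
  unfold Pool.Agent.H91.EHA.ramS
  refine (abs_sum_le_sum_abs _ _).trans (sum_le_sum fun e _ => ?_)
  rw [abs_mul, Nat.abs_cast]
  have h : |((ArithmeticFunction.moebius (c / e) : ℤ) : ℝ)| ≤ 1 := by
    exact_mod_cast ArithmeticFunction.abs_moebius_le_one
  have he : (0 : ℝ) ≤ e := by positivity
  calc (e : ℝ) * |((ArithmeticFunction.moebius (c / e) : ℤ) : ℝ)| ≤ (e : ℝ) * 1 :=
        mul_le_mul_of_nonneg_left h he
    _ = e := mul_one _

private theorem HSq_lamR (R n : ℕ) :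
    |lamR R n| ≤ 2 * (1 + Real.log R) ^ 3 * (((Icc 1 R).filter (fun e => e ∣ n)).card : ℝ) := by
  have hP : 0 ≤ 1 + Real.log (R : ℝ) := by
    have := Real.log_natCast_nonneg R
    linarith only [this]
  calc |lamR R n| ≤ ∑ c ∈ Icc 1 R, (1 / (c.totient : ℝ)) * ∑ e ∈ (Nat.gcd c n).divisors, (e : ℝ) := by
        unfold Pool.Agent.H91.EHA.lamR
        refine (abs_sum_le_sum_abs _ _).trans (sum_le_sum fun c hc => ?_)
        rw [abs_mul]
        refine mul_le_mul ?_ (HSq_ramS c n) (abs_nonneg _) (by positivity)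
        rw [abs_div, Nat.abs_cast]
        apply div_le_div_of_nonneg_right _ (by positivity)
        exact_mod_cast ArithmeticFunction.abs_moebius_le_one
    _ = ∑ c ∈ Icc 1 R, ∑ e ∈ (Icc 1 R).filter (fun e => e ∣ n),
          (if e ∣ c then (e : ℝ) * (1 / (c.totient : ℝ)) else 0) := by
        refine sum_congr rfl fun c hc => ?_
        rw [mem_Icc] at hc
        have hset : (Nat.gcd c n).divisors = ((Icc 1 R).filter (fun e => e ∣ n)).filter (fun e => e ∣ c) := by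
          ext e
          rw [Nat.mem_divisors, mem_filter, mem_filter, mem_Icc, Nat.dvd_gcd_iff]
          constructor
          · rintro ⟨⟨h1, h2⟩, h3⟩
            exact ⟨⟨⟨Nat.pos_of_dvd_of_pos h1 hc.1, (Nat.le_of_dvd hc.1 h1).trans hc.2⟩, h2⟩, h1⟩
          · rintro ⟨⟨_, h2⟩, h3⟩
            exact ⟨⟨h3, h2⟩, (Nat.gcd_pos_of_pos_left n hc.1).ne'⟩
        rw [hset, sum_filter, mul_sum]
        refine sum_congr rfl fun e _ => ?_
        split_ifs
        · ring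
        · ring
    _ = ∑ e ∈ (Icc 1 R).filter (fun e => e ∣ n), (e : ℝ) *
          ∑ c ∈ (Icc 1 R).filter (fun c => e ∣ c), 1 / (c.totient : ℝ) := by
        rw [sum_comm]
        refine sum_congr rfl fun e _ => ?_
        rw [mul_sum, sum_filter]
    _ ≤ ∑ e ∈ (Icc 1 R).filter (fun e => e ∣ n), 2 * (1 + Real.log R) ^ 3 := by
        refine sum_le_sum fun e he => ?_
        rw [mem_filter, mem_Icc] at he
        have hφe : (0 : ℝ) < e.totient := by exact_mod_cast Nat.totient_pos.mpr he.1.1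
        have h1 : ∑ c ∈ (Icc 1 R).filter (fun c => e ∣ c), 1 / (c.totient : ℝ)
            ≤ (1 / (e.totient : ℝ)) * ∑ c ∈ (Icc 1 R).filter (fun c => e ∣ c), 1 / ((c / e).totient : ℝ) := by
          rw [mul_sum]
          refine sum_le_sum fun c hc => ?_
          rw [mem_filter, mem_Icc] at hc
          obtain ⟨⟨hc1, hc2⟩, m, rfl⟩ := hc
          have hm : 1 ≤ m := by
            rcases Nat.eq_zero_or_pos m with h | h
            · subst h
              simp at hc1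
            · exact h
          rw [Nat.mul_div_cancel_left m (by omega)]
          have hφm : (0 : ℝ) < m.totient := by exact_mod_cast Nat.totient_pos.mpr hm
          have h2 : (e.totient : ℝ) * m.totient ≤ (e * m).totient := by
            exact_mod_cast Nat.totient_super_multiplicative e m
          calc 1 / ((e * m).totient : ℝ) ≤ 1 / ((e.totient : ℝ) * m.totient) :=
                one_div_le_one_div_of_le (by positivity) h2
            _ = 1 / (e.totient : ℝ) * (1 / (m.totient : ℝ)) := by field_simp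
        have h3 : ∑ c ∈ (Icc 1 R).filter (fun c => e ∣ c), 1 / ((c / e).totient : ℝ) ≤ (1 + Real.log R) ^ 2 :=
          (Pool.Agent.H91.EHA.chB_sum_multiples R e he.1.1 (fun m => 1 / (m.totient : ℝ))
            (fun m => by positivity)).trans (Pool.Agent.H91.EHA.chB_sum_inv_totient R)
        have h4 := HSq_div_totient R e he.1.1 he.1.2
        calc (e : ℝ) * ∑ c ∈ (Icc 1 R).filter (fun c => e ∣ c), 1 / (c.totient : ℝ)
            ≤ (e : ℝ) * ((1 / (e.totient : ℝ)) * (1 + Real.log R) ^ 2) := by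
              refine mul_le_mul_of_nonneg_left (h1.trans ?_) (by positivity)
              exact mul_le_mul_of_nonneg_left h3 (by positivity)
          _ = ((e : ℝ) / e.totient) * (1 + Real.log R) ^ 2 := by ring
          _ ≤ (2 * (1 + Real.log R)) * (1 + Real.log R) ^ 2 :=
              mul_le_mul_of_nonneg_right h4 (by positivity)
          _ = 2 * (1 + Real.log R) ^ 3 := by ring
    _ = 2 * (1 + Real.log R) ^ 3 * (((Icc 1 R).filter (fun e => e ∣ n)).card : ℝ) := by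
        rw [sum_const, nsmul_eq_mul, mul_comm]

private theorem HSq_card_mult (u H l : ℕ) (hl : 1 ≤ l) :
    (((Ioc u (u + H)).filter (fun n => l ∣ n)).card : ℝ) ≤ (H : ℝ) / l + 1 := by
  have h1 : ((Ioc u (u + H)).filter (fun n => l ∣ n)).card ≤ (Ioc (u / l) ((u + H) / l)).card := by
    refine card_le_card_of_injOn (fun n => n / l) ?_ ?_
    · intro n hn
      rw [mem_coe, mem_filter, mem_Ioc] at hn
      obtain ⟨⟨h1, h2⟩, m, rfl⟩ := hn
      rw [mem_coe, mem_Ioc]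
      simp only
      rw [Nat.mul_div_cancel_left m (by omega)]
      constructor
      · rw [Nat.div_lt_iff_lt_mul (by omega)]
        rw [mul_comm]; exact h1
      · rw [Nat.le_div_iff_mul_le (by omega)]
        rw [mul_comm]; exact h2
    · intro a ha b hb hab
      rw [mem_coe, mem_filter] at ha hb
      obtain ⟨_, m, rfl⟩ := ha
      obtain ⟨_, k, rfl⟩ := hb
      simp only at hab
      rw [Nat.mul_div_cancel_left m (by omega), Nat.mul_div_cancel_left k (by omega)] at hab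
      rw [hab]
  rw [Nat.card_Ioc] at h1
  have hl0 : (0 : ℝ) < l := by exact_mod_cast hl
  have h2 : ((u + H) / l : ℕ) ≤ u / l + H / l + 1 := by
    rw [Nat.add_div (by omega)]
    split_ifs <;> omega
  have h3 : ((Ioc u (u + H)).filter (fun n => l ∣ n)).card ≤ H / l + 1 := by
    refine h1.trans ?_
    rw [Nat.sub_le_iff_le_add]
    calc (u + H) / l ≤ u / l + H / l + 1 := h2
      _ = H / l + 1 + u / l := by ring
  calc (((Ioc u (u + H)).filter (fun n => l ∣ n)).card : ℝ) ≤ ((H / l + 1 : ℕ) : ℝ) := by exact_mod_cast h3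
    _ = ((H / l : ℕ) : ℝ) + 1 := by push_cast; ring
    _ ≤ (H : ℝ) / l + 1 := by
        have := @Nat.cast_div_le ℝ _ _ _ H l
        linarith only [this]

private theorem HSq_sum_inv_mult (R g : ℕ) (hg : 1 ≤ g) :
    ∑ e ∈ (Icc 1 R).filter (fun e => g ∣ e), 1 / (e : ℝ) ≤ (1 / (g : ℝ)) * (1 + Real.log R) := by
  have hg0 : (0 : ℝ) < g := by exact_mod_cast hg
  calc ∑ e ∈ (Icc 1 R).filter (fun e => g ∣ e), 1 / (e : ℝ)
      = (1 / (g : ℝ)) * ∑ e ∈ (Icc 1 R).filter (fun e => g ∣ e), 1 / ((e / g : ℕ) : ℝ) := by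
        rw [mul_sum]
        refine sum_congr rfl fun e he => ?_
        rw [mem_filter, mem_Icc] at he
        obtain ⟨⟨h1, h2⟩, m, rfl⟩ := he
        have hm : 1 ≤ m := by
          rcases Nat.eq_zero_or_pos m with h | h
          · subst h
            simp at h1
          · exact h
        have hm0 : (0 : ℝ) < m := by exact_mod_cast hm
        rw [Nat.mul_div_cancel_left m (by omega)]
        push_cast
        field_simp
    _ ≤ (1 / (g : ℝ)) * ∑ m ∈ Icc 1 R, 1 / (m : ℝ) := by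
        refine mul_le_mul_of_nonneg_left ?_ (by positivity)
        exact Pool.Agent.H91.EHA.chB_sum_multiples R g hg (fun m => 1 / (m : ℝ)) (fun m => by positivity)
    _ ≤ (1 / (g : ℝ)) * (1 + Real.log R) :=
        mul_le_mul_of_nonneg_left (Pool.Agent.H91.EHA.chB_harm R) (by positivity)

private theorem HSq_sum_inv_lcm (R : ℕ) :
    ∑ a ∈ Icc 1 R, ∑ b ∈ Icc 1 R, 1 / ((Nat.lcm a b : ℕ) : ℝ) ≤ (1 + Real.log R) ^ 3 := by
  have hP : 0 ≤ 1 + Real.log (R : ℝ) := by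
    have := Real.log_natCast_nonneg R
    linarith only [this]
  calc ∑ a ∈ Icc 1 R, ∑ b ∈ Icc 1 R, 1 / ((Nat.lcm a b : ℕ) : ℝ)
      ≤ ∑ a ∈ Icc 1 R, ∑ b ∈ Icc 1 R, ∑ g ∈ Icc 1 R,
          (g : ℝ) * ((if g ∣ a then 1 / (a : ℝ) else 0) * (if g ∣ b then 1 / (b : ℝ) else 0)) := by
        refine sum_le_sum fun a ha => sum_le_sum fun b hb => ?_
        rw [mem_Icc] at ha hb
        have ha0 : (0 : ℝ) < a := by exact_mod_cast ha.1
        have hb0 : (0 : ℝ) < b := by exact_mod_cast hb.1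
        have hga : Nat.gcd a b ∣ a := Nat.gcd_dvd_left a b
        have hgb : Nat.gcd a b ∣ b := Nat.gcd_dvd_right a b
        have hg1 : 1 ≤ Nat.gcd a b := Nat.gcd_pos_of_pos_left b ha.1
        have hgR : Nat.gcd a b ≤ R := (Nat.le_of_dvd ha.1 hga).trans ha.2
        have h1 := single_le_sum (s := Icc 1 R) (f := fun g : ℕ =>
          (g : ℝ) * ((if g ∣ a then 1 / (a : ℝ) else 0) * (if g ∣ b then 1 / (b : ℝ) else 0)))
          (fun g _ => by positivity) (mem_Icc.mpr ⟨hg1, hgR⟩)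
        refine le_trans (le_of_eq ?_) h1
        simp only [if_pos hga, if_pos hgb]
        have h2 : (Nat.gcd a b : ℝ) * (Nat.lcm a b : ℝ) = (a : ℝ) * b := by
          exact_mod_cast Nat.gcd_mul_lcm a b
        have hl : (0 : ℝ) < (Nat.lcm a b : ℝ) := by
          exact_mod_cast Nat.lcm_pos ha.1 hb.1
        rw [one_div_mul_one_div, ← mul_div_assoc, mul_one, div_eq_div_iff hl.ne' (by positivity), one_mul]
        linarith only [h2]
    _ = ∑ g ∈ Icc 1 R, (g : ℝ) * (∑ a ∈ (Icc 1 R).filter (fun e => g ∣ e), 1 / (a : ℝ)) ^ 2 := by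
        have hstep : ∀ a ∈ Icc 1 R, ∑ b ∈ Icc 1 R, ∑ g ∈ Icc 1 R,
            (g : ℝ) * ((if g ∣ a then 1 / (a : ℝ) else 0) * (if g ∣ b then 1 / (b : ℝ) else 0))
            = ∑ g ∈ Icc 1 R, ∑ b ∈ Icc 1 R,
            (g : ℝ) * ((if g ∣ a then 1 / (a : ℝ) else 0) * (if g ∣ b then 1 / (b : ℝ) else 0)) :=
          fun a _ => sum_comm
        rw [sum_congr rfl hstep, sum_comm]
        refine sum_congr rfl fun g _ => ?_
        rw [sum_filter, sq, sum_mul_sum, mul_sum]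
        refine sum_congr rfl fun a _ => ?_
        rw [mul_sum]
    _ ≤ ∑ g ∈ Icc 1 R, (1 / (g : ℝ)) * (1 + Real.log R) ^ 2 := by
        refine sum_le_sum fun g hg => ?_
        rw [mem_Icc] at hg
        have hg0 : (0 : ℝ) < g := by exact_mod_cast hg.1
        have h0 : 0 ≤ ∑ a ∈ (Icc 1 R).filter (fun e => g ∣ e), 1 / (a : ℝ) :=
          sum_nonneg fun a _ => by positivity
        calc (g : ℝ) * (∑ a ∈ (Icc 1 R).filter (fun e => g ∣ e), 1 / (a : ℝ)) ^ 2
            ≤ (g : ℝ) * ((1 / (g : ℝ)) * (1 + Real.log R)) ^ 2 := by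
              refine mul_le_mul_of_nonneg_left ?_ hg0.le
              exact pow_le_pow_left₀ h0 (HSq_sum_inv_mult R g hg.1) 2
          _ = (1 / (g : ℝ)) * (1 + Real.log R) ^ 2 := by field_simp
    _ = (∑ g ∈ Icc 1 R, 1 / (g : ℝ)) * (1 + Real.log R) ^ 2 := by rw [sum_mul]
    _ ≤ (1 + Real.log R) * (1 + Real.log R) ^ 2 :=
        mul_le_mul_of_nonneg_right (Pool.Agent.H91.EHA.chB_harm R) (by positivity)
    _ = (1 + Real.log R) ^ 3 := by ring

private theorem HSq_sum_card_sq (R u H : ℕ) :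
    ∑ n ∈ Ioc u (u + H), (((Icc 1 R).filter (fun e => e ∣ n)).card : ℝ) ^ 2
      ≤ H * (1 + Real.log R) ^ 3 + (R : ℝ) ^ 2 := by
  calc ∑ n ∈ Ioc u (u + H), (((Icc 1 R).filter (fun e => e ∣ n)).card : ℝ) ^ 2
      = ∑ n ∈ Ioc u (u + H), ∑ a ∈ Icc 1 R, ∑ b ∈ Icc 1 R,
          (if Nat.lcm a b ∣ n then (1 : ℝ) else 0) := by
        refine sum_congr rfl fun n _ => ?_
        have h1 : (((Icc 1 R).filter (fun e => e ∣ n)).card : ℝ) = ∑ a ∈ Icc 1 R, (if a ∣ n then (1 : ℝ) else 0) := by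
          rw [card_filter]
          push_cast
          rfl
        rw [h1, sq, sum_mul_sum]
        refine sum_congr rfl fun a _ => sum_congr rfl fun b _ => ?_
        by_cases ha : a ∣ n
        · by_cases hb : b ∣ n
          · rw [if_pos ha, if_pos hb, if_pos (Nat.lcm_dvd ha hb), mul_one]
          · rw [if_neg hb, if_neg (fun h => hb ((Nat.dvd_lcm_right a b).trans h)), mul_zero]
        · rw [if_neg ha, if_neg (fun h => ha ((Nat.dvd_lcm_left a b).trans h)), zero_mul]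
    _ = ∑ a ∈ Icc 1 R, ∑ b ∈ Icc 1 R, ∑ n ∈ Ioc u (u + H), (if Nat.lcm a b ∣ n then (1 : ℝ) else 0) := by
        rw [sum_comm]
        refine sum_congr rfl fun a _ => ?_
        rw [sum_comm]
    _ ≤ ∑ a ∈ Icc 1 R, ∑ b ∈ Icc 1 R, ((H : ℝ) * (1 / ((Nat.lcm a b : ℕ) : ℝ)) + 1) := by
        refine sum_le_sum fun a ha => sum_le_sum fun b hb => ?_
        rw [mem_Icc] at ha hb
        have h1 := HSq_card_mult u H (Nat.lcm a b) (Nat.lcm_pos ha.1 hb.1)
        rw [card_filter] at h1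
        push_cast at h1
        rw [mul_one_div]
        exact h1
    _ = H * (∑ a ∈ Icc 1 R, ∑ b ∈ Icc 1 R, 1 / ((Nat.lcm a b : ℕ) : ℝ)) + (R : ℝ) ^ 2 := by
        simp only [sum_add_distrib, ← mul_sum, sum_const, Nat.card_Icc, nsmul_eq_mul, mul_one,
          Nat.add_sub_cancel]
        ring
    _ ≤ H * (1 + Real.log R) ^ 3 + (R : ℝ) ^ 2 := by
        have := mul_le_mul_of_nonneg_left (HSq_sum_inv_lcm R) (Nat.cast_nonneg (α := ℝ) H)
        linarith only [this]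

/-- the asymptotics -/
private theorem HSq_asym (B : ℕ) : ∃ x0 : ℕ, ∀ x : ℕ, x0 ≤ x →
    4 ≤ Real.log x ∧ 1 ≤ x ∧ 16 * (1 + Real.log (⌊Real.log x ^ B⌋₊ : ℕ)) ^ 9 ≤ Real.log x := by
  have hlog : Filter.Tendsto (fun x : ℕ => Real.log (x : ℝ)) Filter.atTop Filter.atTop :=
    Real.tendsto_log_atTop.comp tendsto_natCast_atTop_atTop
  have h1 : ∀ᶠ L : ℝ in Filter.atTop, Real.log L ^ 9 ≤ (1 / (16 * (1 + B) ^ 9)) * L := by
    have h := (Real.isLittleO_pow_log_id_atTop (n := 9)).bound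
      (c := 1 / (16 * (1 + (B : ℝ)) ^ 9)) (by positivity)
    filter_upwards [h, Filter.eventually_ge_atTop (1 : ℝ)] with L hL hL1
    have h2 : ‖Real.log L ^ 9‖ = Real.log L ^ 9 := by
      rw [Real.norm_of_nonneg (pow_nonneg (Real.log_nonneg hL1) 9)]
    have h3 : ‖id L‖ = L := by
      rw [id, Real.norm_of_nonneg (by linarith only [hL1])]
    rw [h2, h3] at hL
    exact hL
  have h2 : ∀ᶠ L : ℝ in Filter.atTop, 4 ≤ L ∧ 1 ≤ Real.log L ∧ Real.log L ^ 9 ≤ (1 / (16 * (1 + B) ^ 9)) * L := by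
    filter_upwards [h1, Filter.eventually_ge_atTop (4 : ℝ),
      Real.tendsto_log_atTop.eventually_ge_atTop 1] with L a b c
    exact ⟨b, c, a⟩
  obtain ⟨x0, hx0⟩ := Filter.eventually_atTop.mp ((hlog.eventually h2).and (Filter.eventually_ge_atTop 1))
  refine ⟨x0, fun x hx => ?_⟩
  obtain ⟨⟨hL4, hl1, hL9⟩, hx1⟩ := hx0 x hx
  refine ⟨hL4, hx1, ?_⟩
  set L := Real.log (x : ℝ) with hLdef
  have hL0 : 0 < L := by linarith only [hL4]
  have hpos : (1 : ℝ) ≤ L ^ B := one_le_pow₀ (by linarith only [hL4])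
  have hR1 : 1 ≤ ⌊L ^ B⌋₊ := by
    rw [Nat.one_le_floor_iff]
    exact hpos
  have hRle : ((⌊L ^ B⌋₊ : ℕ) : ℝ) ≤ L ^ B := Nat.floor_le (by positivity)
  have hlogR : Real.log (⌊L ^ B⌋₊ : ℕ) ≤ B * Real.log L := by
    have := Real.log_le_log (by exact_mod_cast hR1) hRle
    rwa [Real.log_pow] at this
  have hlogR0 : 0 ≤ Real.log (⌊L ^ B⌋₊ : ℕ) := Real.log_natCast_nonneg _
  have hB : (0 : ℝ) ≤ B := Nat.cast_nonneg B
  calc 16 * (1 + Real.log (⌊L ^ B⌋₊ : ℕ)) ^ 9 ≤ 16 * ((1 + B) * Real.log L) ^ 9 := by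
        refine mul_le_mul_of_nonneg_left ?_ (by norm_num)
        refine pow_le_pow_left₀ (by linarith only [hlogR0]) ?_ 9
        nlinarith only [hl1, hlogR]
    _ = 16 * (1 + B) ^ 9 * Real.log L ^ 9 := by ring
    _ ≤ 16 * (1 + B) ^ 9 * ((1 / (16 * (1 + B) ^ 9)) * L) :=
        mul_le_mul_of_nonneg_left hL9 (by positivity)
    _ = L := by field_simp

private theorem HSq_Lam (n x : ℕ) (hx1 : 1 ≤ x) (hL : 4 ≤ Real.log x) (hx : n ≤ 9 * x) :
    0 ≤ Lam n ∧ Lam n ≤ 2 * Real.log x := by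
  unfold Pool.Agent.H91.EHA.Lam
  refine ⟨ArithmeticFunction.vonMangoldt_nonneg, ?_⟩
  rcases Nat.eq_zero_or_pos n with h | h
  · subst h
    simp only [ArithmeticFunction.map_zero]
    linarith only [hL]
  · refine ArithmeticFunction.vonMangoldt_le_log.trans ?_
    have hx0 : (0 : ℝ) < x := by exact_mod_cast hx1
    have h1 : Real.log n ≤ Real.log (9 * x) :=
      Real.log_le_log (by exact_mod_cast h) (by exact_mod_cast hx)
    rw [Real.log_mul (by norm_num) hx0.ne'] at h1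
    have h9 : Real.log 9 ≤ 4 := by
      have h10 : Real.log 9 ≤ Real.log (2 ^ 4) := Real.log_le_log (by norm_num) (by norm_num)
      rw [Real.log_pow] at h10
      have := Real.log_two_lt_d9
      push_cast at h10
      linarith only [h10, this]
    linarith only [hL, h1, h9]

theorem hR_bd (B : ℕ) (hB : 1 ≤ B) : ∃ x0 : ℕ, ∀ x : ℕ, x0 ≤ x → ∀ n : ℕ, n ≤ 9 * x →
    |hR ⌊Real.log x ^ B⌋₊ n| ≤ Real.log x ^ (B + 1) := by
  obtain ⟨x0, hx0⟩ := HSq_asym B
  refine ⟨x0, fun x hx n hn => ?_⟩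
  obtain ⟨hL4, hx1, h9⟩ := hx0 x hx
  set L := Real.log (x : ℝ) with hLdef
  have hL0 : 0 < L := by linarith only [hL4]
  have hRle : ((⌊L ^ B⌋₊ : ℕ) : ℝ) ≤ L ^ B := Nat.floor_le (by positivity)
  have hLB : L ≤ L ^ B := le_self_pow₀ (by linarith only [hL4]) (by omega)
  have hpow : L ^ (B + 1) = L * L ^ B := by rw [pow_succ]; ring
  rcases Nat.eq_zero_or_pos n with h | h
  · subst h
    have h1 := HSq_lamR ⌊L ^ B⌋₊ 0
    have h2 : (((Icc 1 ⌊L ^ B⌋₊).filter (fun e => e ∣ 0)).card : ℝ) ≤ L ^ B := by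
      refine le_trans ?_ hRle
      have := card_filter_le (Icc 1 ⌊L ^ B⌋₊) (fun e => e ∣ 0)
      rw [Nat.card_Icc, Nat.add_sub_cancel] at this
      exact_mod_cast this
    have hP : 1 ≤ 1 + Real.log (⌊L ^ B⌋₊ : ℕ) := by
      have := Real.log_natCast_nonneg ⌊L ^ B⌋₊
      linarith only [this]
    have h3 : 2 * (1 + Real.log (⌊L ^ B⌋₊ : ℕ)) ^ 3 ≤ L := by
      have h4 : (1 + Real.log (⌊L ^ B⌋₊ : ℕ)) ^ 3 ≤ (1 + Real.log (⌊L ^ B⌋₊ : ℕ)) ^ 9 :=
        pow_le_pow_right₀ hP (by norm_num)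
      have h5 : 0 ≤ (1 + Real.log (⌊L ^ B⌋₊ : ℕ)) ^ 3 := by positivity
      linarith only [hL4, h9, h4]
    have h4 : Lam 0 = 0 := by
      unfold Pool.Agent.H91.EHA.Lam
      simp
    unfold Pool.Agent.H91.EHA.hR
    rw [h4, zero_sub, abs_neg, hpow]
    exact h1.trans (mul_le_mul h3 h2 (by positivity) hL0.le)
  · have h1 := Pool.Agent.H76.EHB.hR_abs ⌊L ^ B⌋₊ n (9 * x) h hn
    have hx0 : (0 : ℝ) < x := by exact_mod_cast hx1
    have h2 : Real.log ((9 * x : ℕ) : ℝ) ≤ 2 * L := by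
      push_cast
      rw [Real.log_mul (by norm_num) hx0.ne']
      have h9 : Real.log 9 ≤ 4 := by
        have h10 : Real.log 9 ≤ Real.log (2 ^ 4) := Real.log_le_log (by norm_num) (by norm_num)
        rw [Real.log_pow] at h10
        have := Real.log_two_lt_d9
        push_cast at h10
        linarith only [h10, this]
      linarith only [hL4, h9]
    rw [hpow]
    calc |hR ⌊L ^ B⌋₊ n| ≤ Real.log ((9 * x : ℕ) : ℝ) + (⌊L ^ B⌋₊ : ℕ) := h1
      _ ≤ 2 * L + L ^ B := add_le_add h2 hRle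
      _ ≤ 4 * L ^ B := by linarith only [hL4, hLB]
      _ ≤ L * L ^ B := mul_le_mul_of_nonneg_right hL4 (by positivity)

theorem hsq (B : ℕ) (hB : 1 ≤ B) : ∃ x0 : ℕ, ∀ x : ℕ, x0 ≤ x → ∀ u H : ℕ, u + H ≤ 9 * x →
    ∑ n ∈ Ioc u (u + H), hR ⌊Real.log x ^ B⌋₊ n ^ 2
      ≤ (H + Real.log x ^ (2 * B)) * Real.log x ^ 4 := by
  obtain ⟨x0, hx0⟩ := HSq_asym B
  refine ⟨x0, fun x hx u H huH => ?_⟩
  obtain ⟨hL4, hx1, h9⟩ := hx0 x hx
  set L := Real.log (x : ℝ) with hLdef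
  have hL0 : 0 < L := by linarith only [hL4]
  have hRle : ((⌊L ^ B⌋₊ : ℕ) : ℝ) ≤ L ^ B := Nat.floor_le (by positivity)
  set R := ⌊L ^ B⌋₊ with hRdef
  have hP : 1 ≤ 1 + Real.log (R : ℝ) := by
    have := Real.log_natCast_nonneg R
    linarith only [this]
  set P := 1 + Real.log (R : ℝ) with hPdef
  have hP0 : 0 ≤ P := by linarith only [hP]
  have hH0 : (0 : ℝ) ≤ H := Nat.cast_nonneg H
  have h1 : ∀ n ∈ Ioc u (u + H), hR R n ^ 2
      ≤ 8 * L ^ 2 + 8 * P ^ 6 * (((Icc 1 R).filter (fun e => e ∣ n)).card : ℝ) ^ 2 := by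
    intro n hn
    rw [mem_Ioc] at hn
    obtain ⟨hΛ0, hΛ⟩ := HSq_Lam n x hx1 hL4 (by omega)
    have h2 := HSq_lamR R n
    have h3 : lamR R n ^ 2 ≤ (2 * P ^ 3 * (((Icc 1 R).filter (fun e => e ∣ n)).card : ℝ)) ^ 2 := by
      rw [← sq_abs (lamR R n)]
      exact pow_le_pow_left₀ (abs_nonneg _) h2 2
    have h4 : Lam n ^ 2 ≤ (2 * L) ^ 2 := pow_le_pow_left₀ hΛ0 hΛ 2
    unfold Pool.Agent.H91.EHA.hR
    have h5 : (Lam n - lamR R n) ^ 2 ≤ 2 * Lam n ^ 2 + 2 * lamR R n ^ 2 := by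
      nlinarith only [sq_nonneg (Lam n + lamR R n)]
    calc (Lam n - lamR R n) ^ 2 ≤ 2 * Lam n ^ 2 + 2 * lamR R n ^ 2 := h5
      _ ≤ 2 * (2 * L) ^ 2 + 2 * (2 * P ^ 3 * (((Icc 1 R).filter (fun e => e ∣ n)).card : ℝ)) ^ 2 := by
          linarith only [h3, h4]
      _ = 8 * L ^ 2 + 8 * P ^ 6 * (((Icc 1 R).filter (fun e => e ∣ n)).card : ℝ) ^ 2 := by ring
  have hP9 : P ^ 9 ≤ L / 16 := by linarith only [h9]
  have hP6 : P ^ 6 ≤ L / 16 := (pow_le_pow_right₀ hP (by norm_num : 6 ≤ 9)).trans hP9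
  have hL2 : (16 : ℝ) ≤ L ^ 2 := by nlinarith only [hL4]
  have hL4' : L ^ 4 = L ^ 2 * L ^ 2 := by ring
  have hLL4 : L ≤ L ^ 4 := le_self_pow₀ (by linarith only [hL4]) (by norm_num)
  have hR2 : (R : ℝ) ^ 2 ≤ L ^ (2 * B) := by
    calc (R : ℝ) ^ 2 ≤ (L ^ B) ^ 2 := pow_le_pow_left₀ (Nat.cast_nonneg R) hRle 2
      _ = L ^ (2 * B) := by rw [← pow_mul, mul_comm]
  have hLB0 : 0 ≤ L ^ (2 * B) := by positivity
  calc ∑ n ∈ Ioc u (u + H), hR R n ^ 2
      ≤ ∑ n ∈ Ioc u (u + H), (8 * L ^ 2 + 8 * P ^ 6 * (((Icc 1 R).filter (fun e => e ∣ n)).card : ℝ) ^ 2) :=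
        sum_le_sum h1
    _ = H * (8 * L ^ 2) + 8 * P ^ 6 * ∑ n ∈ Ioc u (u + H), (((Icc 1 R).filter (fun e => e ∣ n)).card : ℝ) ^ 2 := by
        rw [sum_add_distrib, sum_const, Nat.card_Ioc, ← mul_sum, nsmul_eq_mul, Nat.add_sub_cancel_left]
    _ ≤ H * (8 * L ^ 2) + 8 * P ^ 6 * (H * P ^ 3 + (R : ℝ) ^ 2) := by
        have := mul_le_mul_of_nonneg_left (HSq_sum_card_sq R u H) (by positivity : 0 ≤ 8 * P ^ 6)
        linarith only [this]
    _ = H * (8 * L ^ 2) + 8 * P ^ 9 * H + 8 * P ^ 6 * (R : ℝ) ^ 2 := by ring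
    _ ≤ H * (L ^ 4 / 2) + (L ^ 4 / 2) * H + (L ^ 4 / 2) * L ^ (2 * B) := by
        have e1 : 8 * L ^ 2 ≤ L ^ 4 / 2 := by
          rw [hL4']
          nlinarith only [hL2]
        have e2 : 8 * P ^ 9 ≤ L ^ 4 / 2 := by linarith only [h9, hLL4]
        have e3 : 8 * P ^ 6 ≤ L ^ 4 / 2 := by linarith only [hP6, hLL4]
        have e4 := mul_le_mul_of_nonneg_left e1 hH0
        have e5 := mul_le_mul_of_nonneg_right e2 hH0
        have e6 : 8 * P ^ 6 * (R : ℝ) ^ 2 ≤ (L ^ 4 / 2) * L ^ (2 * B) :=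
          mul_le_mul e3 hR2 (by positivity) (by positivity)
        linarith only [e4, e5, e6]
    _ ≤ (H + L ^ (2 * B)) * L ^ 4 := by
        have : 0 ≤ L ^ 4 * L ^ (2 * B) := by positivity
        nlinarith only [this]

end Pool.Agent.H91.L1

end

section

/-!
# L1 Var: `hR` in almost all short windows, in classes

`L = log x`, `R = ⌊L^B⌋`, so `d ≤ R`.  Windows with `w < x/L^D`, `D = A + 2B + 4`: `|Wd| ≤ H L^(B+1)` (`hR_bd`,
`w + H ≤ 9x`... use `x ≤ 9x` generously: `w + H ≤ 2x` here), total `≤ (x/L^D + 1) H² L^(2B+2)`.  The other `w` lie in the `[X, 2X)`,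
`X = ⌈x/L^D⌉ 2^i`, `i < L` (at most `L` blocks: `2^i ≤ 9 L^D`).  There `Wd h d H w` is the sum over the class `u = w mod d`, so
`∑_w Wd² ≤ ∑_{u < d} ∑_w (∑_{n ∈ (w, w+H], n ≡ u (d)} hR)²`.
`(u,d) = 1`: `hR = (Lam - main) - (lamR - main)`, `HuxProp` with `e/2`, `A' = A + 3B + 10`, `B + 1` (`log X ≥ L/2`,
`d ≤ L^B ≤ (log X)^(B+1)`, `X^(1/6+e/2) ≤ (9x)^(1/6+e/2) ≤ x^(1/6+e) ≤ H ≤ x^(1/4) ≤ X^(1/3)`) and `lamC_win` (`2R³ ≤ 2L^(3B)`).
`(u,d) > 1`: `Lam n ≠ 0`, `n ≡ u (d)` only for powers of primes dividing `d`: at most `(log₂(19x)) (log₂ d)` values of `n ≤ 19x`, each `≤ 2L`;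
`lamC_win`.  So each such sum is at most `L^(3B+4)` in absolute value, negligible against `H ≥ x^(1/6)`.
-/

set_option autoImplicit false

namespace Pool.Agent.H91.L1

open Finset
open Pool.Agent.H91.EHA (Lam lamR hR psiA err)

private theorem Var_log (K : ℕ) {δ : ℝ} (hδ : 0 < δ) :
    ∀ᶠ x : ℕ in Filter.atTop, Real.log x ^ K ≤ (x : ℝ) ^ δ := by
  have h := (isLittleO_log_rpow_rpow_atTop (K : ℝ) hδ).bound zero_lt_one
  have h2 := tendsto_natCast_atTop_atTop.eventually h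
  filter_upwards [h2] with x hx
  rw [Real.rpow_natCast, one_mul] at hx
  have h3 : 0 ≤ (x : ℝ) ^ δ := Real.rpow_nonneg (Nat.cast_nonneg x) δ
  rw [Real.norm_eq_abs, Real.norm_eq_abs, abs_of_nonneg h3] at hx
  exact (le_abs_self _).trans hx

private theorem Var_L (C : ℝ) : ∀ᶠ x : ℕ in Filter.atTop, C ≤ Real.log x :=
  (Real.tendsto_log_atTop.comp tendsto_natCast_atTop_atTop).eventually_ge_atTop C

private theorem Var_pow (C : ℝ) {δ : ℝ} (hδ : 0 < δ) :
    ∀ᶠ x : ℕ in Filter.atTop, C ≤ (x : ℝ) ^ δ :=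
  ((tendsto_rpow_atTop hδ).comp tendsto_natCast_atTop_atTop).eventually_ge_atTop C

/-- the sum over the window in the class `u` -/
private noncomputable def Var_S (h : ℕ → ℝ) (d H u w : ℕ) : ℝ :=
  ∑ n ∈ (Ioc w (w + H)).filter (fun n => n ≡ u [MOD d]), h n

private theorem Var_Wd_le (h : ℕ → ℝ) {d : ℕ} (hd : 1 ≤ d) (H w : ℕ) :
    Wd h d H w ^ 2 ≤ ∑ u ∈ range d, Var_S h d H u w ^ 2 := by
  have h1 : Wd h d H w = Var_S h d H (w % d) w := by
    unfold Wd Var_S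
    refine Finset.sum_congr (Finset.filter_congr fun n _ => ?_) fun _ _ => rfl
    exact ⟨fun h => h.trans (Nat.mod_modEq w d).symm, fun h => h.trans (Nat.mod_modEq w d)⟩
  rw [h1]
  exact Finset.single_le_sum (f := fun u => Var_S h d H u w ^ 2) (fun _ _ => sq_nonneg _)
    (Finset.mem_range.2 (Nat.mod_lt w (by omega)))

private theorem Var_S_hR (R d H u w : ℕ) :
    Var_S (hR R) d H u w = Var_S Lam d H u w - Var_S (lamR R) d H u w := by
  unfold Var_S
  rw [← Finset.sum_sub_distrib]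
  rfl

private theorem Var_noncop {d N u w H : ℕ} (hd : 1 ≤ d) (hcop : ¬ Nat.Coprime u d)
    (hN : w + H ≤ N) :
    |Var_S Lam d H u w| ≤ d * (2 * Real.log N) * Real.log N := by
  classical
  have hlogN : 0 ≤ Real.log N := Real.log_natCast_nonneg N
  unfold Var_S
  set S := (Ioc w (w + H)).filter (fun n => n ≡ u [MOD d]) with hS
  have h0 : ∀ n, 0 ≤ Lam n := fun n => ArithmeticFunction.vonMangoldt_nonneg
  rw [abs_of_nonneg (Finset.sum_nonneg fun n _ => h0 n)]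
  have h1 : ∑ n ∈ S, Lam n = ∑ n ∈ S.filter (fun n => Lam n ≠ 0), Lam n := by
    exact (Finset.sum_filter_ne_zero S).symm
  have h2 : S.filter (fun n => Lam n ≠ 0) ⊆
      (d.primeFactors ×ˢ Icc 1 (Nat.log 2 N)).image (fun t => t.1 ^ t.2) := by
    intro n hn
    rw [Finset.mem_filter, hS, Finset.mem_filter, Finset.mem_Ioc] at hn
    obtain ⟨⟨⟨h3, h4⟩, h5⟩, h6⟩ := hn
    have h7 : IsPrimePow n := ArithmeticFunction.vonMangoldt_ne_zero_iff.1 h6
    obtain ⟨p, k, hp, hk, rfl⟩ := (isPrimePow_nat_iff n).1 h7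
    rw [Finset.mem_image]
    refine ⟨(p, k), Finset.mem_product.2 ⟨?_, ?_⟩, rfl⟩
    · rw [Nat.mem_primeFactors]
      refine ⟨hp, ?_, by omega⟩
      by_contra hpd
      have h8 : Nat.Coprime (p ^ k) d := Nat.Coprime.pow_left k ((Nat.Prime.coprime_iff_not_dvd hp).2 hpd)
      apply hcop
      have h9 := h5.gcd_eq
      unfold Nat.Coprime at h8 ⊢
      rw [← h9]
      exact h8
    · rw [Finset.mem_Icc]
      refine ⟨hk, Nat.le_log_of_pow_le (by norm_num) ?_⟩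
      exact (Nat.pow_le_pow_left hp.two_le k).trans (h4.trans hN)
  have h3 : ((S.filter (fun n => Lam n ≠ 0)).card : ℝ) ≤ d * (2 * Real.log N) := by
    have h4 : (S.filter (fun n => Lam n ≠ 0)).card ≤ d * Nat.log 2 N := by
      refine (Finset.card_le_card h2).trans (Finset.card_image_le.trans ?_)
      rw [Finset.card_product, Nat.card_Icc, Nat.add_sub_cancel]
      refine Nat.mul_le_mul_right _ ?_
      have h5 : d.primeFactors ⊆ Icc 1 d := by
        intro p hp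
        rw [Nat.mem_primeFactors] at hp
        exact Finset.mem_Icc.2 ⟨hp.1.pos, Nat.le_of_dvd (by omega) hp.2.1⟩
      have h6 := Finset.card_le_card h5
      rwa [Nat.card_Icc, Nat.add_sub_cancel] at h6
    have h5 : (Nat.log 2 N : ℝ) ≤ 2 * Real.log N := by
      refine (Real.natLog_le_logb N 2).trans ?_
      rw [Real.logb, Nat.cast_ofNat, div_le_iff₀ (Real.log_pos (by norm_num))]
      have h6 : (1 / 2 : ℝ) ≤ Real.log 2 := by
        have := Real.log_two_gt_d9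
        linarith only [this]
      nlinarith only [hlogN, h6]
    have h6 : ((S.filter (fun n => Lam n ≠ 0)).card : ℝ) ≤ d * (Nat.log 2 N : ℝ) := by
      exact_mod_cast h4
    exact h6.trans (mul_le_mul_of_nonneg_left h5 (Nat.cast_nonneg d))
  rw [h1]
  calc ∑ n ∈ S.filter (fun n => Lam n ≠ 0), Lam n
      ≤ ∑ _n ∈ S.filter (fun n => Lam n ≠ 0), Real.log N := by
        refine Finset.sum_le_sum fun n hn => ?_
        rw [Finset.mem_filter, hS, Finset.mem_filter, Finset.mem_Ioc] at hn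
        refine (ArithmeticFunction.vonMangoldt_le_log).trans ?_
        refine Real.log_le_log ?_ ?_
        · have : 0 < n := by omega
          exact_mod_cast this
        · have : n ≤ N := by omega
          exact_mod_cast this
    _ = ((S.filter (fun n => Lam n ≠ 0)).card : ℝ) * Real.log N := by
        rw [Finset.sum_const, nsmul_eq_mul]
    _ ≤ _ := mul_le_mul_of_nonneg_right h3 hlogN

/-- one class in one block -/
private theorem Var_class {R X d u H : ℕ} {Q T : ℝ} (hd : 1 ≤ d) (hdR : d ≤ R)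
    (hcop : Nat.Coprime u d → ∑ w ∈ Ico X (2 * X),
      (Var_S Lam d H u w - (H : ℝ) / (d.totient : ℝ)) ^ 2 ≤ X * T / 4)
    (hncop : ¬ Nat.Coprime u d → ∀ w ∈ Ico X (2 * X), |Var_S Lam d H u w| ≤ Q)
    (hR6 : 8 * (R : ℝ) ^ 6 ≤ T / 2) (hQ : (Q + 2 * (R : ℝ) ^ 3) ^ 2 ≤ T) :
    ∑ w ∈ Ico X (2 * X), Var_S (hR R) d H u w ^ 2 ≤ X * T := by
  have hcard : ((Ico X (2 * X)).card : ℝ) = X := by
    rw [Nat.card_Ico]
    congr 1
    omega
  have hlam : ∀ w, |Var_S (lamR R) d H u w -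
      (if Nat.Coprime u d then (H : ℝ) / (d.totient : ℝ) else 0)| ≤ 2 * (R : ℝ) ^ 3 :=
    fun w => lamC_win R d u w H hd hdR
  by_cases hc : Nat.Coprime u d
  · simp only [if_pos hc] at hlam
    have h1 : ∀ w ∈ Ico X (2 * X), Var_S (hR R) d H u w ^ 2 ≤
        2 * (Var_S Lam d H u w - (H : ℝ) / (d.totient : ℝ)) ^ 2 + T / 2 := by
      intro w _
      have h2 := hlam w
      have h3 : (Var_S (lamR R) d H u w - (H : ℝ) / (d.totient : ℝ)) ^ 2 ≤ (2 * (R : ℝ) ^ 3) ^ 2 := by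
        rw [← sq_abs]
        exact pow_le_pow_left₀ (abs_nonneg _) h2 2
      have h4 : (2 * (R : ℝ) ^ 3) ^ 2 = 4 * (R : ℝ) ^ 6 := by ring
      rw [h4] at h3
      have h5 : Var_S (hR R) d H u w = (Var_S Lam d H u w - (H : ℝ) / (d.totient : ℝ)) -
          (Var_S (lamR R) d H u w - (H : ℝ) / (d.totient : ℝ)) := by
        rw [Var_S_hR]
        ring
      rw [h5]
      generalize Var_S Lam d H u w - (H : ℝ) / (d.totient : ℝ) = a
      generalize Var_S (lamR R) d H u w - (H : ℝ) / (d.totient : ℝ) = b at h3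
      nlinarith only [hR6, h3, sq_nonneg (a + b)]
    calc ∑ w ∈ Ico X (2 * X), Var_S (hR R) d H u w ^ 2
        ≤ ∑ w ∈ Ico X (2 * X), (2 * (Var_S Lam d H u w - (H : ℝ) / (d.totient : ℝ)) ^ 2 + T / 2) :=
          Finset.sum_le_sum h1
      _ = 2 * ∑ w ∈ Ico X (2 * X), (Var_S Lam d H u w - (H : ℝ) / (d.totient : ℝ)) ^ 2 +
          X * (T / 2) := by
          rw [Finset.sum_add_distrib, ← Finset.mul_sum, Finset.sum_const, nsmul_eq_mul, hcard]
      _ ≤ X * T := by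
          have := hcop hc
          linarith only [this]
  · simp only [if_neg hc, sub_zero] at hlam
    have h1 : ∀ w ∈ Ico X (2 * X), Var_S (hR R) d H u w ^ 2 ≤ T := by
      intro w hw
      refine le_trans ?_ hQ
      rw [← sq_abs, Var_S_hR]
      refine pow_le_pow_left₀ (abs_nonneg _) ?_ 2
      exact (abs_sub _ _).trans (add_le_add (hncop hc w hw) (hlam w))
    calc ∑ w ∈ Ico X (2 * X), Var_S (hR R) d H u w ^ 2 ≤ ∑ _w ∈ Ico X (2 * X), T :=
          Finset.sum_le_sum h1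
      _ = X * T := by rw [Finset.sum_const, nsmul_eq_mul, hcard]

/-- dyadic blocks -/
private theorem Var_blocks {F : ℕ → ℝ} (hF : ∀ w, 0 ≤ F w) {M N : ℕ} {c : ℝ} (hc : 0 ≤ c)
    (h : ∀ X, M ≤ X → X < N → ∑ w ∈ Ico X (2 * X), F w ≤ c) (I : ℕ) :
    ∑ w ∈ range (min N (M * 2 ^ I)), F w ≤ ∑ w ∈ range M, F w + I * c := by
  induction I with
  | zero =>
    rw [pow_zero, mul_one, Nat.cast_zero, zero_mul, add_zero]
    exact Finset.sum_le_sum_of_subset_of_nonneg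
      (Finset.range_subset_range.2 (min_le_right _ _)) fun w _ _ => hF w
  | succ I ih =>
    push_cast
    rcases Nat.lt_or_ge (M * 2 ^ I) N with h1 | h1
    · rw [min_eq_right h1.le] at ih
      have h2 := h (M * 2 ^ I) (Nat.le_mul_of_pos_right M (by positivity)) h1
      have h3 : ∑ w ∈ range (min N (M * 2 ^ (I + 1))), F w ≤
          ∑ w ∈ range (M * 2 ^ I), F w + ∑ w ∈ Ico (M * 2 ^ I) (2 * (M * 2 ^ I)), F w := by
        rw [Finset.sum_range_add_sum_Ico _ (by omega)]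
        refine Finset.sum_le_sum_of_subset_of_nonneg
          (Finset.range_subset_range.2 ?_) fun w _ _ => hF w
        refine (min_le_right _ _).trans (le_of_eq ?_)
        ring
      linarith only [ih, h2, h3]
    · have h2 : N ≤ M * 2 ^ (I + 1) := by
        refine h1.trans ?_
        rw [pow_succ]
        nlinarith only [h1, Nat.zero_le (M * 2 ^ I)]
      rw [min_eq_left h1] at ih
      rw [min_eq_left h2]
      linarith only [hc, ih]

/-- the size conditions for one block -/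
private theorem Var_num {e : ℝ} (he : 0 < e) {x X d H : ℕ} {A B E D K : ℕ} {L : ℝ}
    (hL : Real.log x = L) (hE : E = A + B + 2) (hD : D = A + 2 * B + 4)
    (hK : K = 10 * A + 10 * B + 40) (f1 : 2 ^ (E + B + 10) ≤ L) (f2 : L ^ K ≤ (x : ℝ) ^ (1 / 8 : ℝ))
    (f3 : (9 : ℝ) ^ (1 / 6 + e / 2) ≤ (x : ℝ) ^ (e / 2)) (hx : 19 ≤ x)
    (hdL : (d : ℝ) ≤ L ^ B) (hH1 : (x : ℝ) ^ (1 / 6 + e) ≤ H)
    (hH2 : (H : ℝ) ≤ (x : ℝ) ^ (1 / 4 : ℝ)) (hX1 : (x : ℝ) / L ^ D ≤ X) (hX2 : X < 9 * x) :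
    (x : ℝ) ^ (3 / 4 : ℝ) ≤ X ∧ L / 2 ≤ Real.log X ∧ (d : ℝ) ≤ Real.log X ^ (B + 1) ∧
    (X : ℝ) ^ (1 / 6 + e / 2) ≤ H ∧ (H : ℝ) ≤ (X : ℝ) ^ (1 / 3 : ℝ) := by
  have hx19 : (19 : ℝ) ≤ x := by exact_mod_cast hx
  have hx0 : (0 : ℝ) < x := by linarith only [hx19]
  have hx1 : (1 : ℝ) ≤ x := by linarith only [hx19]
  have hL1 : (1 : ℝ) ≤ L := by
    refine le_trans ?_ f1
    exact one_le_pow₀ (by norm_num)
  have hL0 : 0 < L := by linarith only [hL1]
  have g1 : L ^ D ≤ (x : ℝ) ^ (1 / 4 : ℝ) := by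
    calc L ^ D ≤ L ^ K := pow_le_pow_right₀ hL1 (by omega)
      _ ≤ (x : ℝ) ^ (1 / 8 : ℝ) := f2
      _ ≤ (x : ℝ) ^ (1 / 4 : ℝ) := Real.rpow_le_rpow_of_exponent_le hx1 (by norm_num)
  have g2 : (x : ℝ) ^ (3 / 4 : ℝ) ≤ X := by
    refine le_trans ?_ hX1
    rw [le_div_iff₀ (by positivity)]
    calc (x : ℝ) ^ (3 / 4 : ℝ) * L ^ D ≤ (x : ℝ) ^ (3 / 4 : ℝ) * (x : ℝ) ^ (1 / 4 : ℝ) :=
          mul_le_mul_of_nonneg_left g1 (by positivity)
      _ = x := by
          rw [← Real.rpow_add hx0]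
          norm_num
  have g3 : (0 : ℝ) < (x : ℝ) ^ (3 / 4 : ℝ) := by positivity
  have hX0 : (0 : ℝ) < X := by linarith only [g2, g3]
  have g4 : L / 2 ≤ Real.log X := by
    have h1 : Real.log ((x : ℝ) ^ (3 / 4 : ℝ)) ≤ Real.log X := Real.log_le_log g3 g2
    rw [Real.log_rpow hx0, hL] at h1
    linarith only [hL1, h1]
  refine ⟨g2, g4, ?_, ?_, ?_⟩
  · refine hdL.trans ?_
    calc L ^ B ≤ (L / 2) ^ (B + 1) := by
          rw [div_pow, le_div_iff₀ (by positivity), pow_succ L B]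
          refine mul_le_mul_of_nonneg_left ?_ (by positivity)
          refine le_trans ?_ f1
          exact pow_le_pow_right₀ (by norm_num) (by omega)
      _ ≤ _ := pow_le_pow_left₀ (by positivity) g4 _
  · have h1 : (X : ℝ) ≤ 9 * x := by exact_mod_cast hX2.le
    calc (X : ℝ) ^ (1 / 6 + e / 2) ≤ (9 * x) ^ (1 / 6 + e / 2) :=
          Real.rpow_le_rpow hX0.le h1 (by positivity)
      _ = (9 : ℝ) ^ (1 / 6 + e / 2) * (x : ℝ) ^ (1 / 6 + e / 2) :=
          Real.mul_rpow (by norm_num) hx0.le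
      _ ≤ (x : ℝ) ^ (e / 2) * (x : ℝ) ^ (1 / 6 + e / 2) :=
          mul_le_mul_of_nonneg_right f3 (by positivity)
      _ = (x : ℝ) ^ (1 / 6 + e) := by
          rw [← Real.rpow_add hx0]
          congr 1
          ring
      _ ≤ H := hH1
  · refine hH2.trans ?_
    calc (x : ℝ) ^ (1 / 4 : ℝ) = ((x : ℝ) ^ (3 / 4 : ℝ)) ^ (1 / 3 : ℝ) := by
          rw [← Real.rpow_mul hx0.le]
          norm_num
      _ ≤ (X : ℝ) ^ (1 / 3 : ℝ) := Real.rpow_le_rpow g3.le g2 (by norm_num)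

private theorem Var_t1 {A B D K : ℕ} {x L M : ℝ} {H : ℕ} (hL : 1024 ≤ L) (hx1' : 1 ≤ x)
    (hD : D = A + 2 * B + 4) (hK : K = 10 * A + 10 * B + 40) (f2 : L ^ K ≤ x ^ (1 / 8 : ℝ))
    (hMx : M ≤ x / L ^ D + 1) :
    M * (H * L ^ (B + 1)) ^ 2 ≤ (1 / 2) * (x * (H : ℝ) ^ 2 / L ^ A) := by
  have hL1 : 1 ≤ L := by linarith only [hL]
  have hL0 : 0 < L := by linarith only [hL]
  have hx0 : 0 < x := by linarith only [hx1']
  have h1 : M * L ^ (2 * B + 2) ≤ 2 * (x / L ^ (A + 2)) := by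
    have h2 : x / L ^ D * L ^ (2 * B + 2) = x / L ^ (A + 2) := by
      rw [hD, show A + 2 * B + 4 = (A + 2) + (2 * B + 2) by ring, pow_add L (A + 2) (2 * B + 2)]
      field_simp
    have h3 : L ^ (2 * B + 2) ≤ x / L ^ (A + 2) := by
      rw [le_div_iff₀ (by positivity), ← pow_add]
      calc L ^ (2 * B + 2 + (A + 2)) ≤ L ^ K := pow_le_pow_right₀ hL1 (by omega)
        _ ≤ x ^ (1 / 8 : ℝ) := f2
        _ ≤ x ^ (1 : ℝ) := Real.rpow_le_rpow_of_exponent_le hx1' (by norm_num)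
        _ = x := Real.rpow_one _
    calc M * L ^ (2 * B + 2) ≤ (x / L ^ D + 1) * L ^ (2 * B + 2) :=
          mul_le_mul_of_nonneg_right hMx (by positivity)
      _ = x / L ^ D * L ^ (2 * B + 2) + L ^ (2 * B + 2) := by ring
      _ ≤ _ := by rw [h2]; linarith only [h3]
  have h4 : x / L ^ (A + 2) ≤ (1 / 4) * (x / L ^ A) := by
    have h5 : x / L ^ (A + 2) = x / L ^ A * (1 / L ^ 2) := by
      rw [pow_add]
      field_simp
    rw [h5, mul_comm]
    refine mul_le_mul_of_nonneg_right ?_ (by positivity)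
    refine div_le_div_of_nonneg_left (by norm_num) (by norm_num) ?_
    nlinarith only [hL]
  calc M * (H * L ^ (B + 1)) ^ 2 = (M * L ^ (2 * B + 2)) * (H : ℝ) ^ 2 := by ring
    _ ≤ (2 * ((1 / 4) * (x / L ^ A))) * (H : ℝ) ^ 2 := by
        refine mul_le_mul_of_nonneg_right ?_ (by positivity)
        linarith only [h1, h4]
    _ = _ := by ring

private theorem Var_t2 {A B E : ℕ} {x L I : ℝ} {H : ℕ} (hL : 1024 ≤ L) (hx0 : 0 < x)
    (hE : E = A + B + 2) (hI : I ≤ L) :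
    I * (L ^ B * (9 * x * ((H : ℝ) ^ 2 / L ^ E))) ≤ (1 / 2) * (x * (H : ℝ) ^ 2 / L ^ A) := by
  have hL0 : 0 < L := by linarith only [hL]
  have h1 : I * (L ^ B * (9 * x * ((H : ℝ) ^ 2 / L ^ E))) ≤
      L * (L ^ B * (9 * x * ((H : ℝ) ^ 2 / L ^ E))) :=
    mul_le_mul_of_nonneg_right hI (by positivity)
  refine h1.trans ?_
  have h2 : L * (L ^ B * (9 * x * ((H : ℝ) ^ 2 / L ^ E))) =
      9 * (x * (H : ℝ) ^ 2 / L ^ A) * (1 / L) := by
    rw [hE, show A + B + 2 = A + B + 1 + 1 by ring, pow_add L (A + B + 1) 1,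
      pow_add L (A + B) 1, pow_add L A B]
    field_simp
  rw [h2]
  have h3 : 1 / L ≤ 1 / 18 := div_le_div_of_nonneg_left (by norm_num) (by norm_num) (by linarith only [hL])
  have h4 : 0 ≤ 9 * (x * (H : ℝ) ^ 2 / L ^ A) := by positivity
  nlinarith only [h3, h4]

/-- the number of dyadic blocks -/
private theorem Var_two {x : ℕ} {L : ℝ} (hL : Real.log x = L) (hL1 : 1 ≤ L) (hx : 1 ≤ x) :
    (x : ℝ) ^ (1 / 2 : ℝ) / 2 ≤ (2 : ℝ) ^ ⌊L⌋₊ := by
  have hx0 : (0 : ℝ) < x := by exact_mod_cast hx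
  have h1 : L - 1 ≤ ⌊L⌋₊ := (Nat.sub_one_lt_floor L).le
  have h2 : (2 : ℝ) ^ (L - 1) ≤ (2 : ℝ) ^ ((⌊L⌋₊ : ℕ) : ℝ) :=
    Real.rpow_le_rpow_of_exponent_le (by norm_num) h1
  rw [Real.rpow_natCast] at h2
  refine le_trans ?_ h2
  rw [Real.rpow_sub (by norm_num), Real.rpow_one]
  refine div_le_div_of_nonneg_right ?_ (by norm_num)
  rw [Real.rpow_def_of_pos hx0, Real.rpow_def_of_pos (by norm_num : (0 : ℝ) < 2), hL]
  refine Real.exp_le_exp.2 ?_
  have h6 : (1 / 2 : ℝ) ≤ Real.log 2 := by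
    have := Real.log_two_gt_d9
    linarith only [this]
  nlinarith only [h6, hL1]

theorem var (hH : HuxProp) (e : ℝ) (he : 0 < e) (B : ℕ) (hB : 1 ≤ B) (A : ℕ) : ∃ x0 : ℕ,
    ∀ x : ℕ, x0 ≤ x → ∀ d H : ℕ, 1 ≤ d → (d : ℝ) ≤ Real.log x ^ B →
      (x : ℝ) ^ (1 / 6 + e) ≤ H → (H : ℝ) ≤ (x : ℝ) ^ (1 / 4 : ℝ) →
      ∑ w ∈ range (9 * x), Wd (hR ⌊Real.log x ^ B⌋₊) d H w ^ 2
        ≤ x * (H : ℝ) ^ 2 / Real.log x ^ A := by
  set E := A + B + 2 with hE
  set D := A + 2 * B + 4 with hD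
  set K := 10 * A + 10 * B + 40 with hK
  obtain ⟨X0, hX0⟩ := hH (e / 2) (by positivity) (E + 1) (B + 1)
  obtain ⟨x1, hx1⟩ := hR_bd B hB
  have hev : ∀ᶠ x : ℕ in Filter.atTop, 2 ^ (E + B + 10) ≤ Real.log x ∧
      Real.log x ^ K ≤ (x : ℝ) ^ (1 / 8 : ℝ) ∧
      (9 : ℝ) ^ (1 / 6 + e / 2) ≤ (x : ℝ) ^ (e / 2) ∧ (X0 : ℝ) ≤ (x : ℝ) ^ (3 / 4 : ℝ) ∧
      19 ≤ x ∧ x1 ≤ x := by
    filter_upwards [Var_L (2 ^ (E + B + 10)), Var_log K (show (0 : ℝ) < 1 / 8 by norm_num),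
      Var_pow ((9 : ℝ) ^ (1 / 6 + e / 2)) (show (0 : ℝ) < e / 2 by positivity),
      Var_pow (X0 : ℝ) (show (0 : ℝ) < 3 / 4 by norm_num), Filter.eventually_ge_atTop 19,
      Filter.eventually_ge_atTop x1] with x a1 a2 a3 a4 a5 a6
    exact ⟨a1, a2, a3, a4, a5, a6⟩
  obtain ⟨x0, hx0⟩ := Filter.eventually_atTop.1 hev
  refine ⟨x0, fun x hx d H hd hdL hH1 hH2 => ?_⟩
  obtain ⟨f1, f2, f3, f4, f5, f6⟩ := hx0 x hx
  have hbd := hx1 x f6
  obtain ⟨L, hL⟩ : ∃ L, Real.log x = L := ⟨_, rfl⟩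
  rw [hL] at f1 f2 hdL hbd ⊢
  set R := ⌊L ^ B⌋₊ with hRdef
  have hx19 : (19 : ℝ) ≤ x := by exact_mod_cast f5
  have hxpos : (0 : ℝ) < x := by linarith only [hx19]
  have hx1' : (1 : ℝ) ≤ x := by linarith only [hx19]
  have hL1024 : (1024 : ℝ) ≤ L := by
    refine le_trans ?_ f1
    calc (1024 : ℝ) = 2 ^ 10 := by norm_num
      _ ≤ 2 ^ (E + B + 10) := pow_le_pow_right₀ (by norm_num) (by omega)
  have hL1 : 1 ≤ L := by linarith only [hL1024]
  have hL0 : 0 < L := by linarith only [hL1024]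
  have hdR : d ≤ R := Nat.le_floor hdL
  have hRL : (R : ℝ) ≤ L ^ B := Nat.floor_le (by positivity)
  have hHx : (H : ℝ) ≤ x := by
    refine hH2.trans ?_
    calc (x : ℝ) ^ (1 / 4 : ℝ) ≤ (x : ℝ) ^ (1 : ℝ) :=
          Real.rpow_le_rpow_of_exponent_le hx1' (by norm_num)
      _ = x := Real.rpow_one _
  have hHx' : H ≤ x := by exact_mod_cast hHx
  -- `H ^ 2` is large
  have hHK : L ^ K ≤ (H : ℝ) ^ 2 := by
    calc L ^ K ≤ (x : ℝ) ^ (1 / 8 : ℝ) := f2
      _ ≤ (x : ℝ) ^ (1 / 3 + 2 * e) :=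
          Real.rpow_le_rpow_of_exponent_le hx1' (by linarith only [he])
      _ = ((x : ℝ) ^ (1 / 6 + e)) ^ 2 := by
          rw [← Real.rpow_natCast, ← Real.rpow_mul hxpos.le]
          congr 1
          push_cast
          ring
      _ ≤ (H : ℝ) ^ 2 := pow_le_pow_left₀ (by positivity) hH1 2
  set T : ℝ := (H : ℝ) ^ 2 / L ^ E with hT
  have hT0 : 0 ≤ T := by positivity
  have hTK : L ^ (6 * B + 5) ≤ T := by
    rw [hT, le_div_iff₀ (by positivity), ← pow_add]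
    refine le_trans ?_ hHK
    exact pow_le_pow_right₀ hL1 (by omega)
  have hL6 : (R : ℝ) ^ 6 ≤ L ^ (6 * B) := by
    calc (R : ℝ) ^ 6 ≤ (L ^ B) ^ 6 := pow_le_pow_left₀ (Nat.cast_nonneg R) hRL 6
      _ = L ^ (6 * B) := by rw [← pow_mul, mul_comm]
  have hR6 : 8 * (R : ℝ) ^ 6 ≤ T / 2 := by
    have h1 : 16 * L ^ (6 * B) ≤ L ^ (6 * B + 5) := by
      rw [pow_add]
      have h2 : (16 : ℝ) ≤ L ^ 5 := by
        calc (16 : ℝ) ≤ L ^ 1 := by rw [pow_one]; linarith only [hL1024]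
          _ ≤ L ^ 5 := pow_le_pow_right₀ hL1 (by norm_num)
      have h3 : 0 ≤ L ^ (6 * B) := by positivity
      nlinarith only [h2, h3]
    linarith only [hTK, hL6, h1]
  set Q : ℝ := d * (2 * Real.log (19 * x : ℕ)) * Real.log (19 * x : ℕ) with hQdef
  have hlog19 : Real.log (19 * x : ℕ) ≤ 2 * L := by
    push_cast
    rw [Real.log_mul (by norm_num) (by positivity), hL]
    have : Real.log 19 ≤ Real.log x := Real.log_le_log (by norm_num) hx19
    linarith only [hL, this]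
  have hlog19' : 0 ≤ Real.log (19 * x : ℕ) := Real.log_natCast_nonneg _
  have hQ : (Q + 2 * (R : ℝ) ^ 3) ^ 2 ≤ T := by
    have h1 : Q ≤ 8 * L ^ (B + 2) := by
      rw [hQdef]
      calc (d : ℝ) * (2 * Real.log (19 * x : ℕ)) * Real.log (19 * x : ℕ)
          ≤ L ^ B * (2 * (2 * L)) * (2 * L) := by
            refine mul_le_mul (mul_le_mul hdL (by linarith only [hlog19]) (by positivity) (by positivity))
              hlog19 hlog19' (by positivity)
        _ = 8 * L ^ (B + 2) := by ring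
    have h2 : (R : ℝ) ^ 3 ≤ L ^ (3 * B) := by
      calc (R : ℝ) ^ 3 ≤ (L ^ B) ^ 3 := pow_le_pow_left₀ (Nat.cast_nonneg R) hRL 3
        _ = L ^ (3 * B) := by rw [← pow_mul, mul_comm]
    have h3 : L ^ (B + 2) ≤ L ^ (3 * B + 2) := pow_le_pow_right₀ hL1 (by omega)
    have h4 : L ^ (3 * B) ≤ L ^ (3 * B + 2) := pow_le_pow_right₀ hL1 (by omega)
    have h5 : Q + 2 * (R : ℝ) ^ 3 ≤ 10 * L ^ (3 * B + 2) := by linarith only [h1, h2, h3, h4]
    have h6 : 0 ≤ Q + 2 * (R : ℝ) ^ 3 := by positivity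
    refine le_trans (pow_le_pow_left₀ h6 h5 2) (le_trans ?_ hTK)
    have h7 : (10 * L ^ (3 * B + 2)) ^ 2 = 100 * L ^ (6 * B + 4) := by ring
    have h8 : L ^ (6 * B + 5) = L * L ^ (6 * B + 4) := by ring
    rw [h7, h8]
    exact mul_le_mul_of_nonneg_right (by linarith only [hL1024]) (by positivity)
  -- one block
  set M := ⌈(x : ℝ) / L ^ D⌉₊ with hM
  have hMle : (x : ℝ) / L ^ D ≤ M := Nat.le_ceil _
  have hblock : ∀ X, M ≤ X → X < 9 * x →
      ∑ w ∈ Ico X (2 * X), Wd (hR R) d H w ^ 2 ≤ L ^ B * (9 * x * T) := by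
    intro X hX1 hX2
    have hX1' : (x : ℝ) / L ^ D ≤ X := hMle.trans (by exact_mod_cast hX1)
    obtain ⟨g1, g2, g3, g4, g5⟩ := Var_num he hL hE hD hK f1 f2 f3 f5 hdL hH1 hH2 hX1' hX2
    have hX0X : X0 ≤ X := by exact_mod_cast f4.trans g1
    have hcls : ∀ u ∈ range d, ∑ w ∈ Ico X (2 * X), Var_S (hR R) d H u w ^ 2 ≤ X * T := by
      intro u _
      refine Var_class (Q := Q) hd hdR (fun hc => ?_) (fun hc w hw => ?_) hR6 hQ
      · have h1 := hX0 X hX0X d u H hd g3 hc g4 g5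
        refine (show _ ≤ _ from h1).trans ?_
        have h2 : 4 * L ^ E ≤ Real.log X ^ (E + 1) := by
          calc 4 * L ^ E ≤ (L / 2) ^ (E + 1) := by
                rw [div_pow, le_div_iff₀ (by positivity), pow_succ L E]
                have h3 : (4 : ℝ) * 2 ^ (E + 1) ≤ L := by
                  refine le_trans ?_ f1
                  calc (4 : ℝ) * 2 ^ (E + 1) = 2 ^ (E + 3) := by ring
                    _ ≤ 2 ^ (E + B + 10) := pow_le_pow_right₀ (by norm_num) (by omega)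
                have h4 : 0 ≤ L ^ E := by positivity
                nlinarith only [h3, h4]
            _ ≤ _ := pow_le_pow_left₀ (by positivity) g2 _
        have h3 : (X : ℝ) * (H : ℝ) ^ 2 / Real.log X ^ (E + 1) ≤
            (X : ℝ) * (H : ℝ) ^ 2 / (4 * L ^ E) :=
          div_le_div_of_nonneg_left (by positivity) (by positivity) h2
        refine h3.trans (le_of_eq ?_)
        rw [hT]
        field_simp
      · rw [hQdef]
        refine Var_noncop hd hc ?_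
        rw [Finset.mem_Ico] at hw
        omega
    calc ∑ w ∈ Ico X (2 * X), Wd (hR R) d H w ^ 2
        ≤ ∑ w ∈ Ico X (2 * X), ∑ u ∈ range d, Var_S (hR R) d H u w ^ 2 :=
          Finset.sum_le_sum fun w _ => Var_Wd_le _ hd H w
      _ = ∑ u ∈ range d, ∑ w ∈ Ico X (2 * X), Var_S (hR R) d H u w ^ 2 := Finset.sum_comm
      _ ≤ ∑ _u ∈ range d, (X : ℝ) * T := Finset.sum_le_sum hcls
      _ = d * (X * T) := by rw [Finset.sum_const, nsmul_eq_mul, Finset.card_range]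
      _ ≤ L ^ B * (9 * x * T) := by
          refine mul_le_mul hdL ?_ (by positivity) (by positivity)
          refine mul_le_mul_of_nonneg_right ?_ hT0
          exact_mod_cast hX2.le
  have hfin := Var_blocks (F := fun w => Wd (hR R) d H w ^ 2) (fun w => sq_nonneg _)
    (show 0 ≤ L ^ B * (9 * x * T) by positivity) hblock ⌊L⌋₊
  have hcover : 9 * x ≤ M * 2 ^ ⌊L⌋₊ := by
    have h1 := Var_two hL hL1 (by omega)
    have h2 : (18 : ℝ) * L ^ D ≤ (x : ℝ) ^ (1 / 2 : ℝ) := by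
      calc (18 : ℝ) * L ^ D ≤ L * L ^ D := mul_le_mul_of_nonneg_right (by linarith only [hL1024]) (by positivity)
        _ = L ^ (D + 1) := by ring
        _ ≤ L ^ K := pow_le_pow_right₀ hL1 (by omega)
        _ ≤ (x : ℝ) ^ (1 / 8 : ℝ) := f2
        _ ≤ (x : ℝ) ^ (1 / 2 : ℝ) := Real.rpow_le_rpow_of_exponent_le hx1' (by norm_num)
    have h3 : (9 : ℝ) * x ≤ M * 2 ^ ⌊L⌋₊ := by
      calc (9 : ℝ) * x = (x : ℝ) / L ^ D * (9 * L ^ D) := by field_simp
        _ ≤ M * 2 ^ ⌊L⌋₊ := by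
            refine mul_le_mul hMle ?_ (by positivity) (Nat.cast_nonneg M)
            linarith only [h1, h2]
    exact_mod_cast h3
  rw [min_eq_left hcover] at hfin
  refine hfin.trans ?_
  -- the small windows
  have hMx : (M : ℝ) ≤ x / L ^ D + 1 := (Nat.ceil_lt_add_one (by positivity)).le
  have hMx2 : (M : ℝ) ≤ 2 * x := by
    have : (x : ℝ) / L ^ D ≤ x := div_le_self hxpos.le (one_le_pow₀ hL1)
    linarith only [hx19, hMx, this]
  have hMx3 : M ≤ 2 * x := by exact_mod_cast hMx2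
  have hsmall : ∑ w ∈ range M, Wd (hR R) d H w ^ 2 ≤ M * (H * L ^ (B + 1)) ^ 2 := by
    calc ∑ w ∈ range M, Wd (hR R) d H w ^ 2 ≤ ∑ _w ∈ range M, (H * L ^ (B + 1)) ^ 2 := by
          refine Finset.sum_le_sum fun w hw => ?_
          rw [Finset.mem_range] at hw
          rw [← sq_abs]
          refine pow_le_pow_left₀ (abs_nonneg _) ?_ 2
          unfold Wd
          calc |∑ n ∈ (Ioc w (w + H)).filter (fun n => n ≡ w [MOD d]), hR R n|
              ≤ ∑ n ∈ (Ioc w (w + H)).filter (fun n => n ≡ w [MOD d]), |hR R n| :=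
                Finset.abs_sum_le_sum_abs _ _
            _ ≤ ∑ _n ∈ (Ioc w (w + H)).filter (fun n => n ≡ w [MOD d]), L ^ (B + 1) := by
                refine Finset.sum_le_sum fun n hn => ?_
                rw [Finset.mem_filter, Finset.mem_Ioc] at hn
                exact hbd n (by omega)
            _ = (((Ioc w (w + H)).filter (fun n => n ≡ w [MOD d])).card : ℝ) * L ^ (B + 1) := by
                rw [Finset.sum_const, nsmul_eq_mul]
            _ ≤ H * L ^ (B + 1) := by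
                refine mul_le_mul_of_nonneg_right ?_ (by positivity)
                have h1 := Finset.card_filter_le (Ioc w (w + H)) (fun n => n ≡ w [MOD d])
                rw [Nat.card_Ioc, Nat.add_sub_cancel_left] at h1
                exact_mod_cast h1
      _ = M * (H * L ^ (B + 1)) ^ 2 := by
          rw [Finset.sum_const, nsmul_eq_mul, Finset.card_range]
  have hLfl : (⌊L⌋₊ : ℝ) ≤ L := Nat.floor_le hL0.le
  have t1 := Var_t1 (H := H) hL1024 hx1' hD hK f2 hMx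
  have t2 := Var_t2 (H := H) hL1024 hxpos hE hLfl
  rw [← hT] at t2
  linarith only [hsmall, t1, t2]

end Pool.Agent.H91.L1

end
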