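import Pool.Agent.H94.EH.M10
import Pool.Agent.H94.EH.M42
import Pool.Agent.H94.EH.M44
import Pool.Agent.H94.EH.M49
import Pool.Agent.H94.EH.M56

/-! The parts of this file: H91.L1.Pair, H91.L1.MomS, H91.L1.SumS, H91.L1.SelN. -/

section

/-!
# L1 Pair: the pair sums

`TT_eq`: `fz(a + q k) ≠ 0` only if `n = a + q k ≥ 1`; then `n ≤ N`, `a = n - q k`, and `a + q (k + d) = n + q d ≥ 1`.
`pair`: Cauchy, `TT² ≤ (∑_{n ≤ N} hR²)(∑_{n ≤ N} GG²)`, `N = 4x`.  First factor `≤ (4x + L^(2B)) L^4 ≤ 5 x L^4` (`hsq`).  Second factor: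
`pairG` with `M = L^(B+1)` (`hR_bd`; `N + 2Qd ≤ 7x` since `2d ≤ |k|`, `2Q|k| ≤ 3x`), windows of length
`H'' = ⌊H/κ⌋ d ∈ [x^(1/6+e/2), x^(1/4)]` (`⌊H/κ⌋ ≥ x^(1/6+e) - 1`), `var` with `e/2` and `A' = 2A + 2B + 10`:
`≤ 6 x (H d/κ)² / L^(A') + 8 x L^(2B+2) + 8 H (H/κ)² L^(2B+2)`, and `d ≤ L^B`, `H/κ ≥ x^(1/6)`, `H ≤ x^(1/2)`.
-/

set_option autoImplicit false

namespace Pool.Agent.H91.L1

open Finset
open Pool.Agent.H91.EHA (Lam lamR hR psiA err)

private lemma pair_ev (p : ℕ) (δ C : ℝ) (hδ : 0 < δ) (hC : 0 < C) : ∃ x0 : ℕ, ∀ x : ℕ, x0 ≤ x →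
    C * Real.log x ^ p ≤ (x : ℝ) ^ δ := by
  have h := isLittleO_log_rpow_rpow_atTop (p : ℝ) hδ
  have h1 := h.bound (show (0 : ℝ) < 1 / C by positivity)
  have h2 : ∀ᶠ n : ℕ in Filter.atTop, ‖Real.log (n : ℝ) ^ (p : ℝ)‖ ≤ 1 / C * ‖((n : ℝ)) ^ δ‖ :=
    tendsto_natCast_atTop_atTop.eventually h1
  obtain ⟨x0, hx0⟩ := Filter.eventually_atTop.mp h2
  refine ⟨x0, fun x hx => ?_⟩
  have h3 := hx0 x hx
  rw [Real.rpow_natCast] at h3
  have h4 : Real.log (x : ℝ) ^ p ≤ 1 / C * (x : ℝ) ^ δ := by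
    calc Real.log (x : ℝ) ^ p ≤ ‖Real.log (x : ℝ) ^ p‖ := le_abs_self _
      _ ≤ 1 / C * ‖(x : ℝ) ^ δ‖ := h3
      _ = 1 / C * (x : ℝ) ^ δ := by
        rw [Real.norm_of_nonneg (Real.rpow_nonneg (Nat.cast_nonneg x) δ)]
  calc C * Real.log x ^ p ≤ C * (1 / C * (x : ℝ) ^ δ) := mul_le_mul_of_nonneg_left h4 hC.le
    _ = (x : ℝ) ^ δ := by field_simp

private lemma pair_log (c : ℝ) : ∃ x0 : ℕ, ∀ x : ℕ, x0 ≤ x → c ≤ Real.log x := by
  have h : Filter.Tendsto (fun n : ℕ => Real.log (n : ℝ)) Filter.atTop Filter.atTop :=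
    Real.tendsto_log_atTop.comp tendsto_natCast_atTop_atTop
  obtain ⟨x0, hx0⟩ := Filter.eventually_atTop.mp (h.eventually_ge_atTop c)
  exact ⟨x0, hx0⟩

theorem TT_eq (R a0 H Q N d : ℕ) (k : ℤ)
    (hN : ∀ q ∈ Ioc Q (2 * Q), ∀ a ∈ Ioc a0 (a0 + H), (a : ℤ) + q * k ≤ N) :
    TT R a0 H Q k (k + d) = ∑ n ∈ Icc 1 N, hR R n * GG (hR R) a0 H Q d k n := by
  unfold GG TT
  have e1 : ∑ n ∈ Icc 1 N, hR R n * ∑ q ∈ (Ioc Q (2 * Q)).filter
      (fun q : ℕ => (a0 : ℤ) < (n : ℤ) - q * k ∧ (n : ℤ) - q * k ≤ a0 + H), hR R (n + q * d)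
      = ∑ q ∈ Ioc Q (2 * Q), ∑ n ∈ (Icc 1 N).filter
        (fun n : ℕ => (a0 : ℤ) < (n : ℤ) - q * k ∧ (n : ℤ) - q * k ≤ a0 + H),
          hR R n * hR R (n + q * d) := by
    simp_rw [Finset.mul_sum, Finset.sum_filter]
    rw [Finset.sum_comm]
  rw [e1]
  apply Finset.sum_congr rfl
  intro q hq
  have e2 : ∑ a ∈ Ioc a0 (a0 + H), fz R ((a : ℤ) + q * k) * fz R ((a : ℤ) + q * (k + d))
      = ∑ a ∈ (Ioc a0 (a0 + H)).filter (fun a : ℕ => 1 ≤ (a : ℤ) + q * k),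
        fz R ((a : ℤ) + q * k) * fz R ((a : ℤ) + q * (k + d)) := by
    symm
    apply Finset.sum_filter_of_ne
    intro a _ ha
    by_contra hc
    apply ha
    unfold fz
    rw [if_neg hc, zero_mul]
  rw [e2]
  apply Finset.sum_nbij' (fun a : ℕ => ((a : ℤ) + q * k).toNat)
    (fun n : ℕ => ((n : ℤ) - q * k).toNat)
  · intro a ha
    rw [mem_filter] at ha
    obtain ⟨h1, h2⟩ := ha
    have h3 := hN q hq a h1
    rw [mem_Ioc] at h1
    have h5 : ((((a : ℤ) + q * k).toNat : ℕ) : ℤ) = (a : ℤ) + q * k :=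
      Int.toNat_of_nonneg (by linarith only [h2])
    rw [mem_filter, mem_Icc, h5]
    omega
  · intro n hn
    rw [mem_filter, mem_Icc] at hn
    have h0 : (0 : ℤ) ≤ a0 := Int.natCast_nonneg a0
    have h5 : ((((n : ℤ) - q * k).toNat : ℕ) : ℤ) = (n : ℤ) - q * k :=
      Int.toNat_of_nonneg (by linarith [hn.2.1])
    rw [mem_filter, mem_Ioc, h5]
    omega
  · intro a ha
    rw [mem_filter] at ha
    obtain ⟨h1, h2⟩ := ha
    have h5 : ((((a : ℤ) + q * k).toNat : ℕ) : ℤ) = (a : ℤ) + q * k :=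
      Int.toNat_of_nonneg (by linarith)
    show (((((a : ℤ) + q * k).toNat : ℕ) : ℤ) - q * k).toNat = a
    rw [h5]
    have : (a : ℤ) + q * k - q * k = a := by ring
    rw [this, Int.toNat_natCast]
  · intro n hn
    rw [mem_filter, mem_Icc] at hn
    have h0 : (0 : ℤ) ≤ a0 := Int.natCast_nonneg a0
    have h5 : ((((n : ℤ) - q * k).toNat : ℕ) : ℤ) = (n : ℤ) - q * k :=
      Int.toNat_of_nonneg (by linarith only [hn, hn.2.1])
    show (((((n : ℤ) - q * k).toNat : ℕ) : ℤ) + q * k).toNat = n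
    rw [h5]
    have : (n : ℤ) - q * k + q * k = n := by ring
    rw [this, Int.toNat_natCast]
  · intro a ha
    rw [mem_filter] at ha
    obtain ⟨h1, h2⟩ := ha
    have h5 : ((((a : ℤ) + q * k).toNat : ℕ) : ℤ) = (a : ℤ) + q * k :=
      Int.toNat_of_nonneg (by linarith)
    have h6 : (a : ℤ) + q * (k + d) = ((((a : ℤ) + q * k).toNat + q * d : ℕ) : ℤ) := by
      push_cast
      rw [h5]
      ring
    have h7 : (1 : ℤ) ≤ ((((a : ℤ) + q * k).toNat + q * d : ℕ) : ℤ) := by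
      push_cast
      rw [h5]
      have : (0 : ℤ) ≤ (q : ℤ) * d := by positivity
      linarith
    rw [h6]
    unfold fz
    rw [if_pos h2, if_pos h7, Int.toNat_natCast]

theorem pair (hH : HuxProp) (e : ℝ) (he : 0 < e) (B : ℕ) (hB : 1 ≤ B) (A : ℕ) : ∃ x0 : ℕ,
    ∀ x : ℕ, x0 ≤ x → ∀ a0 H Q d : ℕ, ∀ k : ℤ, a0 + H ≤ x → 1 ≤ d → (d : ℝ) ≤ Real.log x ^ B →
      2 * (d : ℤ) ≤ |k| → (2 * Q : ℤ) * |k| ≤ 3 * x → (H : ℝ) ≤ (x : ℝ) ^ (1 / 2 : ℝ) →
      (k.natAbs : ℝ) * (x : ℝ) ^ (1 / 6 + e) ≤ H →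
      (H : ℝ) * Real.log x ^ B ≤ (k.natAbs : ℝ) * (x : ℝ) ^ (1 / 4 : ℝ) →
      |TT ⌊Real.log x ^ B⌋₊ a0 H Q k (k + d)| ≤ x * ((H : ℝ) / k.natAbs) / Real.log x ^ A := by
  obtain ⟨x1, h1⟩ := hR_bd B hB
  obtain ⟨x2, h2⟩ := hsq B hB
  obtain ⟨x3, h3⟩ := var hH (e / 2) (by linarith only [he]) B hB (2 * A + 2 * B + 10)
  obtain ⟨x4, h4⟩ := pair_log 100
  obtain ⟨x5, h5⟩ := pair_ev (2 * A + 2 * B + 6) (1 / 3) 120 (by norm_num) (by norm_num)
  obtain ⟨x6, h6⟩ := pair_ev (2 * B) 1 1 (by norm_num) (by norm_num)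
  obtain ⟨x7, h7⟩ := pair_ev 1 (e / 2) 1 (by linarith only [he]) (by norm_num)
  refine ⟨max (max (max x1 x2) (max x3 x4)) (max (max x5 x6) (max x7 1)), ?_⟩
  intro x hx a0 H Q d k haH hd hdL hdk hQk hHx hHlo hHhi
  simp only [max_le_iff] at hx
  obtain ⟨⟨⟨hx1, hx2⟩, hx3, hx4⟩, ⟨hx5, hx6⟩, hx7, hx8⟩ := hx
  set L := Real.log x with hL
  set R := ⌊L ^ B⌋₊ with hR'
  have hL100 : 100 ≤ L := h4 x hx4
  have hL0 : 0 < L := by linarith only [hL100]
  have hx0 : (0 : ℝ) < x := by exact_mod_cast hx8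
  have hx1R : (1 : ℝ) ≤ x := by exact_mod_cast hx8
  have hdZ : (1 : ℤ) ≤ d := by exact_mod_cast hd
  have hkpos : 0 < |k| := by linarith only [hd, hdk]
  have hkN : ((k.natAbs : ℕ) : ℤ) = |k| := (Int.abs_eq_natAbs k).symm
  have hkNpos : 0 < k.natAbs := by omega
  have hkR : (0 : ℝ) < k.natAbs := by exact_mod_cast hkNpos
  set K := k.natAbs with hKdef
  set Y : ℝ := (H : ℝ) / K with hY
  have hYlo : (x : ℝ) ^ (1 / 6 + e) ≤ Y := by
    rw [hY, le_div_iff₀ hkR, mul_comm]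
    exact hHlo
  have hYhi : Y * L ^ B ≤ (x : ℝ) ^ (1 / 4 : ℝ) := by
    rw [hY, div_mul_eq_mul_div, div_le_iff₀ hkR, mul_comm ((x : ℝ) ^ (1 / 4 : ℝ))]
    exact hHhi
  have hY6 : (x : ℝ) ^ (1 / 6 : ℝ) ≤ Y :=
    (Real.rpow_le_rpow_of_exponent_le hx1R (by linarith only [he])).trans hYlo
  have hY1 : 1 ≤ Y := (Real.one_le_rpow hx1R (by norm_num)).trans hY6
  have hY0 : 0 < Y := by linarith only [hY1]
  -- N
  have hN : ∀ q ∈ Ioc Q (2 * Q), ∀ a ∈ Ioc a0 (a0 + H), (a : ℤ) + q * k ≤ (4 * x : ℕ) := by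
    intro q hq a ha
    rw [mem_Ioc] at hq ha
    have ha' : (a : ℤ) ≤ x := by exact_mod_cast ha.2.trans haH
    have hq' : (q : ℤ) ≤ 2 * Q := by exact_mod_cast hq.2
    have hq0 : (0 : ℤ) ≤ q := Int.natCast_nonneg q
    have c1 : (q : ℤ) * k ≤ q * |k| := mul_le_mul_of_nonneg_left (le_abs_self k) hq0
    have c2 : (q : ℤ) * |k| ≤ 2 * Q * |k| := mul_le_mul_of_nonneg_right hq' hkpos.le
    push_cast
    linarith only [haH, hQk, ha, c1, c2]
  have hNQ : 4 * x + 2 * Q * d + 1 ≤ 9 * x := by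
    have c1 : (2 * (d : ℤ)) * Q ≤ |k| * Q := mul_le_mul_of_nonneg_right hdk (Int.natCast_nonneg Q)
    have c3 : ((2 * Q * d : ℕ) : ℤ) = (2 * (d : ℤ)) * Q := by push_cast; ring
    have c2 : (2 : ℤ) * ((2 * Q * d : ℕ) : ℤ) ≤ 3 * x := by
      rw [c3]; nlinarith only [hQk, c1]
    omega
  rw [TT_eq R a0 H Q (4 * x) d k hN]
  -- Cauchy
  have hCS := Finset.sum_mul_sq_le_sq_mul_sq (Icc 1 (4 * x)) (fun n => hR R n)
    (fun n => GG (hR R) a0 H Q d k n)
  have hF1 : ∑ n ∈ Icc 1 (4 * x), hR R n ^ 2 ≤ 5 * x * L ^ 4 := by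
    have c1 := h2 x hx2 0 (4 * x) (by omega)
    have c2 : Ioc 0 (0 + 4 * x) = Icc 1 (4 * x) := by
      ext n
      rw [mem_Ioc, mem_Icc]
      omega
    rw [c2] at c1
    refine c1.trans ?_
    have c3 := h6 x hx6
    rw [Real.rpow_one, one_mul] at c3
    push_cast
    apply mul_le_mul_of_nonneg_right _ (by positivity)
    linarith only [c3]
  -- second factor
  set m := H / K with hm
  have hmY : (m : ℝ) ≤ Y := Nat.cast_div_le
  have hmY2 : Y < m + 1 := by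
    rw [hY, hm, div_lt_iff₀ hkR]
    have c1 := Nat.div_add_mod H K
    have c2 := Nat.mod_lt H hkNpos
    have c3 : H < (H / K + 1) * K := by
      rw [add_mul, one_mul, mul_comm]
      omega
    exact_mod_cast c3
  have hM : ∀ n : ℕ, n ≤ 4 * x + 2 * Q * d → |hR R n| ≤ L ^ (B + 1) := by
    intro n hn
    exact h1 x hx1 n (by omega)
  have hF2 := pairG (hR R) (L ^ (B + 1)) (4 * x) a0 H Q d k hd hdk (by positivity) hM
  have hdR : (1 : ℝ) ≤ d := by exact_mod_cast hd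
  have hvar : ∑ w ∈ range (4 * x + 2 * Q * d + 1), Wd (hR R) d (m * d) w ^ 2
      ≤ x * (Y * L ^ B) ^ 2 / L ^ (2 * A + 2 * B + 10) := by
    have c1 : ∑ w ∈ range (4 * x + 2 * Q * d + 1), Wd (hR R) d (m * d) w ^ 2
        ≤ ∑ w ∈ range (9 * x), Wd (hR R) d (m * d) w ^ 2 := by
      apply Finset.sum_le_sum_of_subset_of_nonneg
      · exact Finset.range_subset_range.mpr hNQ
      · intro _ _ _
        positivity
    have hmd : ((m * d : ℕ) : ℝ) ≤ Y * L ^ B := by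
      push_cast
      exact mul_le_mul hmY hdL (by linarith only [hdR]) hY0.le
    have hmd2 : (x : ℝ) ^ (1 / 6 + e / 2) ≤ ((m * d : ℕ) : ℝ) := by
      have c2 : (x : ℝ) ^ (1 / 6 + e / 2) + 1 ≤ (x : ℝ) ^ (1 / 6 + e) := by
        have c3 : (x : ℝ) ^ (1 / 6 + e) = (x : ℝ) ^ (1 / 6 + e / 2) * (x : ℝ) ^ (e / 2) := by
          rw [← Real.rpow_add hx0]
          congr 1
          ring
        have c4 : L ≤ (x : ℝ) ^ (e / 2) := by
          have := h7 x hx7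
          rw [pow_one, one_mul] at this
          exact this
        have c5 : (1 : ℝ) ≤ (x : ℝ) ^ (1 / 6 + e / 2) := Real.one_le_rpow hx1R (by linarith only [he])
        rw [c3]
        nlinarith only [hL100, c4, c5]
      push_cast
      have c6 : (x : ℝ) ^ (1 / 6 + e / 2) ≤ m := by linarith only [hYlo, hmY2, c2]
      have c7 : (0 : ℝ) ≤ m := Nat.cast_nonneg m
      nlinarith only [hYlo, hmY2, c2, hdR]
    refine c1.trans ((h3 x hx3 d (m * d) hd hdL hmd2 (hmd.trans hYhi)).trans ?_)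
    apply div_le_div_of_nonneg_right _ (by positivity)
    apply mul_le_mul_of_nonneg_left _ hx0.le
    exact pow_le_pow_left₀ (Nat.cast_nonneg _) hmd 2
  have hF2' : ∑ n ∈ Icc 1 (4 * x), GG (hR R) a0 H Q d k n ^ 2
      ≤ 6 * (x * (Y * L ^ B) ^ 2 / L ^ (2 * A + 2 * B + 10)) + 8 * x * (L ^ (B + 1)) ^ 2
        + 8 * (x : ℝ) ^ (1 / 2 : ℝ) * Y ^ 2 * (L ^ (B + 1)) ^ 2 := by
    refine hF2.trans ?_
    have c1 : 2 * (H : ℝ) * ((m : ℝ) + 1) ^ 2 * (L ^ (B + 1)) ^ 2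
        ≤ 8 * (x : ℝ) ^ (1 / 2 : ℝ) * Y ^ 2 * (L ^ (B + 1)) ^ 2 := by
      apply mul_le_mul_of_nonneg_right _ (by positivity)
      have c2 : ((m : ℝ) + 1) ^ 2 ≤ 4 * Y ^ 2 := by
        have : (m : ℝ) + 1 ≤ 2 * Y := by linarith only [hY1, hmY]
        calc ((m : ℝ) + 1) ^ 2 ≤ (2 * Y) ^ 2 := pow_le_pow_left₀ (by positivity) this 2
          _ = 4 * Y ^ 2 := by ring
      calc 2 * (H : ℝ) * ((m : ℝ) + 1) ^ 2 ≤ 2 * (x : ℝ) ^ (1 / 2 : ℝ) * (4 * Y ^ 2) := by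
            apply mul_le_mul _ c2 (by positivity) (by positivity)
            linarith only [hHx]
        _ = 8 * (x : ℝ) ^ (1 / 2 : ℝ) * Y ^ 2 := by ring
    have c3 : 2 * ((4 * x : ℕ) : ℝ) * (L ^ (B + 1)) ^ 2 = 8 * x * (L ^ (B + 1)) ^ 2 := by
      push_cast; ring
    rw [c3]
    linarith only [hvar, c1]
  -- final inequality
  have hfin : (∑ n ∈ Icc 1 (4 * x), hR R n * GG (hR R) a0 H Q d k n) ^ 2
      ≤ (x * Y / L ^ A) ^ 2 := by
    refine hCS.trans ?_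
    have hG0 : 0 ≤ ∑ n ∈ Icc 1 (4 * x), GG (hR R) a0 H Q d k n ^ 2 :=
      Finset.sum_nonneg (fun _ _ => sq_nonneg _)
    refine (mul_le_mul hF1 hF2' hG0 (by positivity)).trans ?_
    -- the three terms
    have t1 : 5 * (x : ℝ) * L ^ 4 * (6 * (x * (Y * L ^ B) ^ 2 / L ^ (2 * A + 2 * B + 10)))
        ≤ (x * Y / L ^ A) ^ 2 / 3 := by
      have c1 : L ^ (2 * A + 2 * B + 10) = (L ^ A) ^ 2 * (L ^ B) ^ 2 * L ^ 4 * L ^ 6 := by ring
      rw [c1]
      have hLA : 0 < L ^ A := by positivity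
      have hLB : 0 < L ^ B := by positivity
      have c2 : 5 * (x : ℝ) * L ^ 4 * (6 * (x * (Y * L ^ B) ^ 2
          / ((L ^ A) ^ 2 * (L ^ B) ^ 2 * L ^ 4 * L ^ 6))) = (x * Y / L ^ A) ^ 2 * (30 / L ^ 6) := by
        field_simp
        ring
      rw [c2]
      have c3 : 30 / L ^ 6 ≤ 1 / 3 := by
        rw [div_le_div_iff₀ (by positivity) (by norm_num)]
        have : L ≤ L ^ 6 := le_self_pow₀ (by linarith only [hL100]) (by norm_num)
        linarith only [hL100, this]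
      have c4 := mul_le_mul_of_nonneg_left c3 (sq_nonneg (x * Y / L ^ A))
      linarith only [c4]
    have hP := h5 x hx5
    have hP' : 120 * (L ^ A) ^ 2 * (L ^ (B + 1)) ^ 2 * L ^ 4 ≤ (x : ℝ) ^ (1 / 3 : ℝ) := by
      refine le_trans (le_of_eq ?_) hP
      ring
    have t2 : 5 * (x : ℝ) * L ^ 4 * (8 * x * (L ^ (B + 1)) ^ 2)
        ≤ (x * Y / L ^ A) ^ 2 / 3 := by
      have hLA : 0 < L ^ A := by positivity
      have c1 : (x * Y / L ^ A) ^ 2 / 3 = x ^ 2 * Y ^ 2 / (3 * (L ^ A) ^ 2) := by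
        field_simp
      rw [c1, le_div_iff₀ (by positivity)]
      have c2 : (x : ℝ) ^ (1 / 3 : ℝ) ≤ Y ^ 2 := by
        have : (x : ℝ) ^ (1 / 3 : ℝ) = ((x : ℝ) ^ (1 / 6 : ℝ)) ^ 2 := by
          rw [← Real.rpow_natCast, ← Real.rpow_mul hx0.le]
          norm_num
        rw [this]
        exact pow_le_pow_left₀ (by positivity) hY6 2
      have c3 : 5 * (x : ℝ) * L ^ 4 * (8 * x * (L ^ (B + 1)) ^ 2) * (3 * (L ^ A) ^ 2)
          = x ^ 2 * (120 * (L ^ A) ^ 2 * (L ^ (B + 1)) ^ 2 * L ^ 4) := by ring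
      rw [c3]
      exact mul_le_mul_of_nonneg_left (hP'.trans c2) (by positivity)
    have t3 : 5 * (x : ℝ) * L ^ 4 * (8 * (x : ℝ) ^ (1 / 2 : ℝ) * Y ^ 2 * (L ^ (B + 1)) ^ 2)
        ≤ (x * Y / L ^ A) ^ 2 / 3 := by
      have hLA : 0 < L ^ A := by positivity
      have c1 : (x * Y / L ^ A) ^ 2 / 3 = x ^ 2 * Y ^ 2 / (3 * (L ^ A) ^ 2) := by
        field_simp
      rw [c1, le_div_iff₀ (by positivity)]
      have c2 : (x : ℝ) ^ (1 / 3 : ℝ) ≤ (x : ℝ) ^ (1 / 2 : ℝ) :=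
        Real.rpow_le_rpow_of_exponent_le hx1R (by norm_num)
      have c4 : (x : ℝ) ^ (1 / 2 : ℝ) * (x : ℝ) ^ (1 / 2 : ℝ) = x := by
        rw [← Real.rpow_add hx0]
        norm_num
      have c3 : 5 * (x : ℝ) * L ^ 4 * (8 * (x : ℝ) ^ (1 / 2 : ℝ) * Y ^ 2 * (L ^ (B + 1)) ^ 2)
          * (3 * (L ^ A) ^ 2)
          = x * Y ^ 2 * ((x : ℝ) ^ (1 / 2 : ℝ) * (120 * (L ^ A) ^ 2 * (L ^ (B + 1)) ^ 2 * L ^ 4)) := by
        ring
      rw [c3]
      have c5 : (x : ℝ) ^ (1 / 2 : ℝ) * (120 * (L ^ A) ^ 2 * (L ^ (B + 1)) ^ 2 * L ^ 4) ≤ x := by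
        calc (x : ℝ) ^ (1 / 2 : ℝ) * (120 * (L ^ A) ^ 2 * (L ^ (B + 1)) ^ 2 * L ^ 4)
            ≤ (x : ℝ) ^ (1 / 2 : ℝ) * (x : ℝ) ^ (1 / 2 : ℝ) :=
              mul_le_mul_of_nonneg_left (hP'.trans c2) (by positivity)
          _ = x := c4
      calc x * Y ^ 2 * ((x : ℝ) ^ (1 / 2 : ℝ) * (120 * (L ^ A) ^ 2 * (L ^ (B + 1)) ^ 2 * L ^ 4))
          ≤ x * Y ^ 2 * x := mul_le_mul_of_nonneg_left c5 (by positivity)
        _ = x ^ 2 * Y ^ 2 := by ring
    linarith only [t1, t2, t3]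
  have hnn : 0 ≤ x * Y / L ^ A := by positivity
  exact abs_le_of_sq_le_sq hfin hnn

end Pool.Agent.H91.L1

end

section

/-!
# L1 MomS: the second moment of one segment of `k`, all `H` with `Q H ≥ x^(7/6+3e)`
-/

set_option autoImplicit false

namespace Pool.Agent.H91.L1

open Finset
open Pool.Agent.H91.EHA (Lam lamR hR psiA err)

/-- large powers beat logarithms -/
theorem momS_large (κ : ℝ) (hκ : 0 < κ) (m : ℕ) (K : ℝ) : ∃ x0 : ℕ, ∀ x : ℕ, x0 ≤ x →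
    K * Real.log x ^ m ≤ (x : ℝ) ^ κ := by
  obtain ⟨x1, hx1⟩ := Pool.Agent.H91.EHA.log_pow_le_rpow (m + 1) κ hκ
  obtain ⟨x2, hx2⟩ := Pool.Agent.H91.EHA.log_ge (max K 1)
  refine ⟨max x1 x2, fun x hx => ?_⟩
  have h1 := hx1 x (le_trans (le_max_left _ _) hx)
  have h2 := hx2 x (le_trans (le_max_right _ _) hx)
  have h3 : K ≤ Real.log x := (le_max_left _ _).trans h2
  have h4 : (1 : ℝ) ≤ Real.log x := (le_max_right _ _).trans h2
  calc K * Real.log x ^ m ≤ Real.log x * Real.log x ^ m :=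
        mul_le_mul_of_nonneg_right h3 (by positivity)
    _ = Real.log x ^ (m + 1) := by ring
    _ ≤ _ := h1

/-- the positive values of `a + m` form a window -/
private theorem momS_win (R a0 H : ℕ) (m : ℤ) : ∃ u H' : ℕ, H' ≤ H ∧
    ((u + H' : ℕ) : ℤ) ≤ max 0 (a0 + H + m) ∧
    ∑ a ∈ Ioc a0 (a0 + H), fz R ((a : ℤ) + m) ^ 2 ≤ ∑ n ∈ Ioc u (u + H'), hR R n ^ 2 := by
  refine ⟨((a0 : ℤ) + m).toNat, ((a0 : ℤ) + H + m).toNat - ((a0 : ℤ) + m).toNat, by omega,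
    by omega, ?_⟩
  have h1 : ∑ a ∈ Ioc a0 (a0 + H), fz R ((a : ℤ) + m) ^ 2
      = ∑ a ∈ (Ioc a0 (a0 + H)).filter (fun a : ℕ => 1 ≤ (a : ℤ) + m),
        hR R ((a : ℤ) + m).toNat ^ 2 := by
    rw [sum_filter]
    refine sum_congr rfl fun a _ => ?_
    unfold fz
    split_ifs
    · rfl
    · ring
  rw [h1]
  have h2 : ∑ a ∈ (Ioc a0 (a0 + H)).filter (fun a : ℕ => 1 ≤ (a : ℤ) + m),
        hR R ((a : ℤ) + m).toNat ^ 2
      = ∑ n ∈ ((Ioc a0 (a0 + H)).filter (fun a : ℕ => 1 ≤ (a : ℤ) + m)).image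
          (fun a : ℕ => ((a : ℤ) + m).toNat), hR R n ^ 2 := by
    rw [sum_image]
    intro a ha b hb hab
    rw [mem_coe, mem_filter] at ha hb
    have := ha.2
    have := hb.2
    simp only at hab
    omega
  rw [h2]
  apply sum_le_sum_of_subset_of_nonneg _ (fun _ _ _ => sq_nonneg _)
  intro n hn
  rw [mem_image] at hn
  obtain ⟨a, ha, rfl⟩ := hn
  rw [mem_filter, mem_Ioc] at ha
  rw [mem_Ioc]
  omega

/-- short intervals of `a` -/
theorem momA (hH : HuxProp) (e : ℝ) (he : 0 < e) (he2 : e ≤ 1 / 100) (s C2 B : ℕ)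
    (hB : 1 ≤ B) : ∃ C x0 : ℕ, ∀ x : ℕ, x0 ≤ x → ∀ a0 H Q l : ℕ, ∀ j : ℤ,
      a0 + H ≤ x → (x : ℝ) ^ (3 / 4 : ℝ) ≤ Q → (Q : ℝ) * Real.log x ^ C ≤ x →
      (x : ℝ) / Q * (x : ℝ) ^ (1 / 6 + 2 * e) ≤ H →
      (H : ℝ) ≤ 4 * ((x : ℝ) / Q * (x : ℝ) ^ (1 / 6 + 2 * e)) →
      (l : ℝ) ≤ Real.log x ^ B → Real.log x ^ (s + 6) ≤ l →
      (∀ k ∈ Ico j (j + l), (x : ℝ) ≤ Q * Real.log x ^ C2 * k.natAbs ∧
        2 * (Q : ℝ) * k.natAbs ≤ 3 * x) →
      ∑ q ∈ Ioc Q (2 * Q), ∑ a ∈ Ioc a0 (a0 + H),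
        (∑ k ∈ Ico j (j + l), fz ⌊Real.log x ^ B⌋₊ ((a : ℤ) + q * k)) ^ 2
          ≤ Q * H * (l : ℝ) ^ 2 / Real.log x ^ (s + 1) := by
  obtain ⟨x2, hx2⟩ := hsq B (by omega)
  obtain ⟨x3, hx3⟩ := pair hH e he B (by omega) (C2 + (s + 2))
  obtain ⟨x4, hx4⟩ := Pool.Agent.H91.EHA.log_ge 100
  obtain ⟨x5, hx5⟩ := momS_large e he 0 (3 / 2)
  obtain ⟨x6, hx6⟩ := momS_large (1 / 20) (by norm_num) (B + C2) 4
  obtain ⟨x7, hx7⟩ := momS_large (1 / 20) (by norm_num) (2 * B) 1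
  refine ⟨C2 + B + 3,
    max (max x2 x3) (max (max x4 x5) (max x6 (max x7 2))),
    fun x hx a0 H Q l j haH hQ hQC hHl hHu hlB hls hk => ?_⟩
  have i2 : x2 ≤ x := le_trans (le_trans (le_max_left _ _) (le_max_left _ _)) hx
  have i3 : x3 ≤ x := le_trans (le_trans (le_max_right _ _) (le_max_left _ _)) hx
  have i4 : x4 ≤ x := le_trans (le_trans (le_trans (le_max_left _ _) (le_max_left _ _))
    (le_max_right _ _)) hx
  have i5 : x5 ≤ x := le_trans (le_trans (le_trans (le_max_right _ _) (le_max_left _ _))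
    (le_max_right _ _)) hx
  have i6 : x6 ≤ x := le_trans (le_trans (le_trans (le_max_left _ _) (le_max_right _ _))
    (le_max_right _ _)) hx
  have i7 : x7 ≤ x := le_trans (le_trans (le_trans (le_trans (le_max_left _ _)
    (le_max_right _ _)) (le_max_right _ _)) (le_max_right _ _)) hx
  have i8 : 2 ≤ x := le_trans (le_trans (le_trans (le_trans (le_max_right _ _)
    (le_max_right _ _)) (le_max_right _ _)) (le_max_right _ _)) hx
  have k2 := hx2 x i2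
  have k3 := hx3 x i3
  have k4 := hx4 x i4
  have k5 := hx5 x i5
  have k6 := hx6 x i6
  have k7 := hx7 x i7
  rw [pow_zero, mul_one] at k5
  rw [one_mul] at k7
  set R : ℕ := ⌊Real.log x ^ B⌋₊ with hR'
  set L : ℝ := Real.log x with hL
  have hL0 : (0 : ℝ) < L := by linarith only [he, he2, k4]
  have hL1 : (1 : ℝ) ≤ L := by linarith only [he, he2, k4]
  have hx2' : (2 : ℝ) ≤ x := by exact_mod_cast i8
  have hx0 : (0 : ℝ) < x := by linarith only [he, he2, hx2']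
  have hx1' : (1 : ℝ) ≤ x := by linarith only [he, he2, hx2']
  have hQ0 : (0 : ℝ) < Q := lt_of_lt_of_le (by positivity) hQ
  have hQ1 : 1 ≤ Q := by exact_mod_cast hQ0
  set V : ℝ := (x : ℝ) / Q with hV
  have hQV : (Q : ℝ) * V = x := by rw [hV]; field_simp
  have hV0 : 0 < V := by positivity
  have hVL : L ^ (C2 + B + 3) ≤ V := by
    rw [hV, le_div_iff₀ hQ0]
    linarith only [hQC]
  have hV4 : V ≤ (x : ℝ) ^ (1 / 4 : ℝ) := by
    rw [hV, div_le_iff₀ hQ0]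
    calc (x : ℝ) = (x : ℝ) ^ (1 / 4 : ℝ) * (x : ℝ) ^ (3 / 4 : ℝ) := by
          rw [← Real.rpow_add hx0]; norm_num
      _ ≤ _ := mul_le_mul_of_nonneg_left hQ (by positivity)
  have hV1 : 1 ≤ V := (one_le_pow₀ hL1).trans hVL
  have hLs : (1 : ℝ) ≤ L ^ (s + 6) := one_le_pow₀ hL1
  have hlr1 : (1 : ℝ) ≤ l := hLs.trans hls
  have hlr0 : (0 : ℝ) < l := by linarith only [he, he2, hls, hLs]
  have hl1 : 1 ≤ l := by exact_mod_cast hlr1
  -- bounds for `H`
  have hH1r : V * (x : ℝ) ^ (1 / 6 : ℝ) ≤ H := by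
    refine le_trans ?_ hHl
    apply mul_le_mul_of_nonneg_left _ hV0.le
    exact Real.rpow_le_rpow_of_exponent_le hx1' (by linarith only [he])
  have hxs : (1 : ℝ) ≤ (x : ℝ) ^ (1 / 6 : ℝ) := Real.one_le_rpow hx1' (by norm_num)
  have hx6 : (x : ℝ) ^ (1 / 20 : ℝ) ≤ (x : ℝ) ^ (1 / 6 : ℝ) :=
    Real.rpow_le_rpow_of_exponent_le hx1' (by norm_num)
  have hHx6 : (x : ℝ) ^ (1 / 6 : ℝ) ≤ H :=
    le_trans (le_mul_of_one_le_left (by positivity) hV1) hH1r
  have hH1 : (1 : ℝ) ≤ H := hxs.trans hHx6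
  have hH0 : (0 : ℝ) < H := by linarith only [he, he2, hxs, hHx6]
  have hH2B : L ^ (2 * B) ≤ H := k7.trans (hx6.trans hHx6)
  have hHhalf : (H : ℝ) ≤ (x : ℝ) ^ (1 / 2 : ℝ) := by
    refine hHu.trans ?_
    have h4 : (4 : ℝ) ≤ (x : ℝ) ^ (1 / 20 : ℝ) := by
      refine le_trans ?_ k6
      have : (1 : ℝ) ≤ L ^ (B + C2) := one_le_pow₀ hL1
      linarith only [this]
    calc 4 * (V * (x : ℝ) ^ (1 / 6 + 2 * e))
        ≤ (x : ℝ) ^ (1 / 20 : ℝ) * ((x : ℝ) ^ (1 / 4 : ℝ) * (x : ℝ) ^ (1 / 6 + 2 * e)) := by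
          apply mul_le_mul h4 _ (by positivity) (by positivity)
          exact mul_le_mul_of_nonneg_right hV4 (by positivity)
      _ = (x : ℝ) ^ (1 / 20 + (1 / 4 + (1 / 6 + 2 * e))) := by
          rw [← Real.rpow_add hx0, ← Real.rpow_add hx0]
      _ ≤ (x : ℝ) ^ (1 / 2 : ℝ) := Real.rpow_le_rpow_of_exponent_le hx1' (by linarith only [he, he2])
  -- `|k|`
  have hkk : ∀ k ∈ Ico j (j + l), V / L ^ C2 ≤ (k.natAbs : ℝ) ∧
      (k.natAbs : ℝ) ≤ 3 / 2 * V := by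
    intro k hk'
    obtain ⟨h1, h2⟩ := hk k hk'
    constructor
    · rw [div_le_iff₀ (by positivity), hV, div_le_iff₀ hQ0]
      linarith only [h1]
    · rw [← hQV] at h2
      have h3 : (Q : ℝ) * k.natAbs ≤ Q * (3 / 2 * V) := by linarith only [h2]
      exact le_of_mul_le_mul_left h3 hQ0
  have hseg := seg R a0 H Q l j (Q * (2 * H * L ^ 4)) (Q * H / L ^ (s + 2)) (by positivity)
    (by
      intro k hk'
      have h0 : ∀ q ∈ Ioc Q (2 * Q), ∑ a ∈ Ioc a0 (a0 + H), fz R ((a : ℤ) + q * k) ^ 2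
          ≤ 2 * H * L ^ 4 := by
        intro q hq
        rw [mem_Ioc] at hq
        obtain ⟨u, H', h1, h2, h3⟩ := momS_win R a0 H (q * k)
        have h4 : ((u + H' : ℕ) : ℤ) ≤ 9 * x := by
          refine h2.trans (max_le (by positivity) ?_)
          have h5 : (q : ℤ) * k ≤ 3 * x := by
            have h6 : ((q : ℤ) * k : ℝ) ≤ 3 * x := by
              have h7 : ((k : ℤ) : ℝ) ≤ k.natAbs := by
                rw [Nat.cast_natAbs]
                exact_mod_cast le_abs_self k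
              have h8 : (q : ℝ) ≤ 2 * Q := by exact_mod_cast hq.2
              have h9 := (hk k hk').2
              calc ((q : ℤ) * k : ℝ) ≤ (q : ℤ) * k.natAbs :=
                    mul_le_mul_of_nonneg_left h7 (by positivity)
                _ ≤ (2 * Q) * k.natAbs := by
                    apply mul_le_mul_of_nonneg_right _ (by positivity)
                    exact_mod_cast h8
                _ ≤ 3 * x := h9
            exact_mod_cast h6
          have h9 : ((a0 + H : ℕ) : ℤ) ≤ x := by exact_mod_cast haH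
          push_cast at h9
          linarith only [haH, i8, h5]
        refine h3.trans ((k2 u H' (by exact_mod_cast h4)).trans ?_)
        have h1' : (H' : ℝ) ≤ H := by exact_mod_cast h1
        calc ((H' : ℝ) + L ^ (2 * B)) * L ^ 4 ≤ (H + H) * L ^ 4 := by
              apply mul_le_mul_of_nonneg_right _ (by positivity)
              linarith only [k7, hx6, hHx6, h1']
          _ = 2 * H * L ^ 4 := by ring
      refine (sum_le_sum h0).trans (le_of_eq ?_)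
      rw [sum_const, Nat.card_Ioc, nsmul_eq_mul]
      have : 2 * Q - Q = Q := by omega
      rw [this])
    (by
      intro k d hjk hd hkd
      have hkm : k ∈ Ico j (j + l) := by
        rw [mem_Ico]
        have : (1 : ℤ) ≤ d := by exact_mod_cast hd
        omega
      have hdl : d < l := by omega
      obtain ⟨hκV, hκu⟩ := hkk k hkm
      have hdr : (d : ℝ) ≤ l := by exact_mod_cast hdl.le
      have hκ0 : (0 : ℝ) < k.natAbs := lt_of_lt_of_le (by positivity) hκV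
      have habs : |k| = (k.natAbs : ℤ) := (Int.natCast_natAbs k).symm
      have hTT := k3 a0 H Q d k haH hd (hdr.trans hlB)
        (by
          have h1 : (2 * d : ℝ) ≤ k.natAbs := by
            have h2 : 2 * (l : ℝ) ≤ V / L ^ C2 := by
              rw [le_div_iff₀ (by positivity)]
              calc 2 * (l : ℝ) * L ^ C2 ≤ L ^ 3 * L ^ B * L ^ C2 := by
                    apply mul_le_mul_of_nonneg_right _ (by positivity)
                    apply mul_le_mul _ hlB hlr0.le (by positivity)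
                    calc (2 : ℝ) ≤ L ^ 1 := by rw [pow_one]; linarith only [he, he2, k4]
                      _ ≤ L ^ 3 := pow_le_pow_right₀ hL1 (by norm_num)
                _ = L ^ (C2 + B + 3) := by ring
                _ ≤ V := hVL
            linarith only [hκV, hdr, h2]
          rw [habs]
          exact_mod_cast h1)
        (by
          have h1 := (hk k hkm).2
          rw [habs]
          exact_mod_cast h1)
        hHhalf
        (by
          refine le_trans ?_ hHl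
          calc (k.natAbs : ℝ) * (x : ℝ) ^ (1 / 6 + e)
              ≤ (3 / 2 * V) * (x : ℝ) ^ (1 / 6 + e) :=
                mul_le_mul_of_nonneg_right hκu (by positivity)
            _ = V * ((x : ℝ) ^ (1 / 6 + e) * (3 / 2)) := by ring
            _ ≤ V * ((x : ℝ) ^ (1 / 6 + e) * (x : ℝ) ^ e) := by
                apply mul_le_mul_of_nonneg_left _ hV0.le
                exact mul_le_mul_of_nonneg_left k5 (by positivity)
            _ = V * (x : ℝ) ^ (1 / 6 + 2 * e) := by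
                rw [← Real.rpow_add hx0]
                congr 2
                ring)
        (by
          calc (H : ℝ) * L ^ B ≤ 4 * (V * (x : ℝ) ^ (1 / 6 + 2 * e)) * L ^ B :=
                mul_le_mul_of_nonneg_right hHu (by positivity)
            _ = V / L ^ C2 * ((4 * L ^ (B + C2)) * (x : ℝ) ^ (1 / 6 + 2 * e)) := by
                rw [pow_add L B C2]
                field_simp
            _ ≤ V / L ^ C2 * ((x : ℝ) ^ (1 / 20 : ℝ) * (x : ℝ) ^ (1 / 6 + 2 * e)) := by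
                apply mul_le_mul_of_nonneg_left _ (by positivity)
                exact mul_le_mul_of_nonneg_right k6 (by positivity)
            _ ≤ V / L ^ C2 * (x : ℝ) ^ (1 / 4 : ℝ) := by
                apply mul_le_mul_of_nonneg_left _ (by positivity)
                rw [← Real.rpow_add hx0]
                exact Real.rpow_le_rpow_of_exponent_le hx1' (by linarith only [he, he2])
            _ ≤ k.natAbs * (x : ℝ) ^ (1 / 4 : ℝ) :=
                mul_le_mul_of_nonneg_right hκV (by positivity))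
      refine hTT.trans ?_
      have h1 : (x : ℝ) * ((H : ℝ) / k.natAbs) ≤ Q * H * L ^ C2 := by
        rw [← mul_div_assoc, div_le_iff₀ hκ0, ← hQV]
        have h2 := mul_le_mul_of_nonneg_left hκV
          (show (0 : ℝ) ≤ Q * H * L ^ C2 by positivity)
        refine le_trans (le_of_eq ?_) h2
        field_simp
      rw [pow_add L C2]
      calc (x : ℝ) * ((H : ℝ) / k.natAbs) / (L ^ C2 * L ^ (s + 2))
          ≤ Q * H * L ^ C2 / (L ^ C2 * L ^ (s + 2)) :=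
            div_le_div_of_nonneg_right h1 (by positivity)
        _ = Q * H / L ^ (s + 2) := by field_simp)
  refine hseg.trans ?_
  have h1 : (l : ℝ) * L ^ 4 ≤ (l : ℝ) ^ 2 / L ^ (s + 2) := by
    rw [le_div_iff₀ (by positivity)]
    calc (l : ℝ) * L ^ 4 * L ^ (s + 2) = l * L ^ (s + 6) := by ring
      _ ≤ l * l := mul_le_mul_of_nonneg_left hls hlr0.le
      _ = (l : ℝ) ^ 2 := by ring
  calc (l : ℝ) * (Q * (2 * H * L ^ 4)) + (l : ℝ) ^ 2 * (Q * H / L ^ (s + 2))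
      = Q * H * (2 * (l * L ^ 4) + (l : ℝ) ^ 2 / L ^ (s + 2)) := by ring
    _ ≤ Q * H * (2 * ((l : ℝ) ^ 2 / L ^ (s + 2)) + (l : ℝ) ^ 2 / L ^ (s + 2)) := by
        apply mul_le_mul_of_nonneg_left _ (by positivity)
        linarith only [h1]
    _ = Q * H * (l : ℝ) ^ 2 / L ^ (s + 1) * (3 / L) := by
        rw [show s + 2 = (s + 1) + 1 by ring, pow_succ L (s + 1)]
        field_simp
        ring
    _ ≤ Q * H * (l : ℝ) ^ 2 / L ^ (s + 1) * 1 := by
        apply mul_le_mul_of_nonneg_left _ (by positivity)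
        rw [div_le_one hL0]
        linarith only [he, he2, k4]
    _ = Q * H * (l : ℝ) ^ 2 / L ^ (s + 1) := mul_one _

private lemma momS_blocks (F : ℕ → ℝ) (a0 H1 : ℕ) (n : ℕ) :
    ∑ a ∈ Ioc a0 (a0 + n * H1), F a
      = ∑ i ∈ range n, ∑ a ∈ Ioc (a0 + i * H1) (a0 + i * H1 + H1), F a := by
  induction n with
  | zero => simp
  | succ n ih =>
    rw [sum_range_succ, ← ih]
    have h1 : a0 + (n + 1) * H1 = a0 + n * H1 + H1 := by ring
    rw [h1]
    exact (sum_Ioc_consecutive F (by omega) (by omega)).symm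

private lemma momS_cover (F : ℕ → ℝ) (hF : ∀ a, 0 ≤ F a) (a0 H H1 : ℕ) (h1 : 1 ≤ H1)
    (h2 : H1 ≤ H) :
    ∑ a ∈ Ioc a0 (a0 + H), F a
      ≤ ∑ i ∈ range (H / H1), ∑ a ∈ Ioc (a0 + i * H1) (a0 + i * H1 + H1), F a
        + ∑ a ∈ Ioc (a0 + (H - H1)) (a0 + (H - H1) + H1), F a := by
  have hle : H / H1 * H1 ≤ H := Nat.div_mul_le_self H H1
  have hlt : H < H / H1 * H1 + H1 := Nat.lt_div_mul_add (by omega)
  rw [← momS_blocks F a0 H1 (H / H1),
    ← sum_Ioc_consecutive F (show a0 ≤ a0 + H / H1 * H1 by omega)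
      (show a0 + H / H1 * H1 ≤ a0 + H by omega)]
  refine add_le_add le_rfl (sum_le_sum_of_subset_of_nonneg ?_ fun i _ _ => hF i)
  intro a ha
  rw [mem_Ioc] at ha ⊢
  omega

/-- all intervals of `a` -/
theorem momS (hH : HuxProp) (e : ℝ) (he : 0 < e) (he2 : e ≤ 1 / 100) (s C2 B : ℕ)
    (hB : 1 ≤ B) : ∃ C x0 : ℕ, ∀ x : ℕ, x0 ≤ x → ∀ a0 H Q l : ℕ, ∀ j : ℤ,
      a0 + H ≤ x → (x : ℝ) ^ (3 / 4 : ℝ) ≤ Q → (Q : ℝ) * Real.log x ^ C ≤ x →
      (x : ℝ) ^ (7 / 6 + 3 * e) ≤ Q * H →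
      (l : ℝ) ≤ Real.log x ^ B → Real.log x ^ (s + 6) ≤ l →
      (∀ k ∈ Ico j (j + l), (x : ℝ) ≤ Q * Real.log x ^ C2 * k.natAbs ∧
        2 * (Q : ℝ) * k.natAbs ≤ 3 * x) →
      ∑ q ∈ Ioc Q (2 * Q), ∑ a ∈ Ioc a0 (a0 + H),
        (∑ k ∈ Ico j (j + l), fz ⌊Real.log x ^ B⌋₊ ((a : ℤ) + q * k)) ^ 2
          ≤ Q * H * (l : ℝ) ^ 2 / Real.log x ^ s := by
  obtain ⟨C, x0, h⟩ := momA hH e he he2 s C2 B hB
  obtain ⟨x1, hx1⟩ := momS_large e he 0 2
  obtain ⟨x2, hx2⟩ := Pool.Agent.H91.EHA.log_ge 2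
  refine ⟨C, max (max x0 x1) (max x2 1), fun x hx a0 H Q l j haH hQ hQC hQH hlB hls hk => ?_⟩
  have hxx0 : x0 ≤ x := le_trans (le_trans (le_max_left _ _) (le_max_left _ _)) hx
  have hxx1 : x1 ≤ x := le_trans (le_trans (le_max_right _ _) (le_max_left _ _)) hx
  have hxx2 : x2 ≤ x := le_trans (le_trans (le_max_left _ _) (le_max_right _ _)) hx
  have hx1' : 1 ≤ x := le_trans (le_trans (le_max_right _ _) (le_max_right _ _)) hx
  have hxe := hx1 x hxx1
  rw [pow_zero, mul_one] at hxe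
  have hL := hx2 x hxx2
  have hx0R : (0 : ℝ) < x := by exact_mod_cast hx1'
  have hx1R : (1 : ℝ) ≤ x := by exact_mod_cast hx1'
  have hLpos : 0 < Real.log x := by linarith only [he, he2, hL]
  have hQpos : (0 : ℝ) < Q := lt_of_lt_of_le (Real.rpow_pos_of_pos hx0R _) hQ
  have hLC : (1 : ℝ) ≤ Real.log x ^ C := one_le_pow₀ (by linarith only [he, he2, hL])
  have hQx : (Q : ℝ) ≤ x := by
    refine le_trans ?_ hQC
    exact le_mul_of_one_le_right hQpos.le hLC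
  set W : ℝ := (x : ℝ) / Q * (x : ℝ) ^ (1 / 6 + 2 * e) with hW
  have hW1 : 1 ≤ W := by
    have a1 : 1 ≤ (x : ℝ) / Q := by rwa [one_le_div hQpos]
    have a2 : 1 ≤ (x : ℝ) ^ (1 / 6 + 2 * e) := Real.one_le_rpow hx1R (by linarith only [he, he2])
    calc (1 : ℝ) = 1 * 1 := by ring
      _ ≤ W := mul_le_mul a1 a2 zero_le_one (by positivity)
  have hWQ : (x : ℝ) ^ (7 / 6 + 3 * e) = Q * ((x : ℝ) ^ e * W) := by
    have b1 : (x : ℝ) ^ (7 / 6 + 3 * e) = (x : ℝ) ^ e * ((x : ℝ) ^ (1 : ℝ) *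
        (x : ℝ) ^ (1 / 6 + 2 * e)) := by
      rw [← Real.rpow_add hx0R, ← Real.rpow_add hx0R]
      congr 1
      ring
    rw [b1, Real.rpow_one, hW]
    field_simp
  have hHW : 2 * W ≤ H := by
    rw [hWQ] at hQH
    have c1 : (x : ℝ) ^ e * W ≤ H := le_of_mul_le_mul_left hQH hQpos
    have c2 : 2 * W ≤ (x : ℝ) ^ e * W := mul_le_mul_of_nonneg_right hxe (by linarith only [he, he2, hW1])
    linarith only [c1, c2]
  set H1 : ℕ := ⌈W⌉₊ with hH1
  have hH1a : W ≤ (H1 : ℝ) := Nat.le_ceil W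
  have hH1b : (H1 : ℝ) < W + 1 := Nat.ceil_lt_add_one (by linarith only [he, he2, hW1])
  have hH1c : 1 ≤ H1 := by
    have : (1 : ℝ) ≤ H1 := le_trans hW1 hH1a
    exact_mod_cast this
  have hH1d : H1 ≤ H := by
    have : (H1 : ℝ) ≤ H := by linarith only [hW1, hHW, hH1b]
    exact_mod_cast this
  have key : ∀ a1 : ℕ, a1 + H1 ≤ x →
      ∑ q ∈ Ioc Q (2 * Q), ∑ a ∈ Ioc a1 (a1 + H1),
        (∑ k ∈ Ico j (j + l), fz ⌊Real.log x ^ B⌋₊ ((a : ℤ) + q * k)) ^ 2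
          ≤ Q * H1 * (l : ℝ) ^ 2 / Real.log x ^ (s + 1) := by
    intro a1 ha1
    exact h x hxx0 a1 H1 Q l j ha1 hQ hQC hH1a (by linarith only [he, he2, hW1, hH1b]) hlB hls hk
  have hN : H / H1 * H1 ≤ H := Nat.div_mul_le_self H H1
  have step : ∑ q ∈ Ioc Q (2 * Q), ∑ a ∈ Ioc a0 (a0 + H),
        (∑ k ∈ Ico j (j + l), fz ⌊Real.log x ^ B⌋₊ ((a : ℤ) + q * k)) ^ 2
      ≤ ∑ i ∈ range (H / H1), ∑ q ∈ Ioc Q (2 * Q), ∑ a ∈ Ioc (a0 + i * H1) (a0 + i * H1 + H1),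
        (∑ k ∈ Ico j (j + l), fz ⌊Real.log x ^ B⌋₊ ((a : ℤ) + q * k)) ^ 2
        + ∑ q ∈ Ioc Q (2 * Q), ∑ a ∈ Ioc (a0 + (H - H1)) (a0 + (H - H1) + H1),
        (∑ k ∈ Ico j (j + l), fz ⌊Real.log x ^ B⌋₊ ((a : ℤ) + q * k)) ^ 2 := by
    rw [sum_comm (s := range (H / H1)) (t := Ioc Q (2 * Q)), ← sum_add_distrib]
    exact sum_le_sum fun q _ => momS_cover
      (fun a : ℕ => (∑ k ∈ Ico j (j + l), fz ⌊Real.log x ^ B⌋₊ ((a : ℤ) + q * k)) ^ 2)
      (fun a => sq_nonneg _) a0 H H1 hH1c hH1d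
  refine step.trans ?_
  have s1 : ∑ i ∈ range (H / H1), ∑ q ∈ Ioc Q (2 * Q),
      ∑ a ∈ Ioc (a0 + i * H1) (a0 + i * H1 + H1),
        (∑ k ∈ Ico j (j + l), fz ⌊Real.log x ^ B⌋₊ ((a : ℤ) + q * k)) ^ 2
      ≤ (H / H1 : ℕ) * (Q * H1 * (l : ℝ) ^ 2 / Real.log x ^ (s + 1)) := by
    calc _ ≤ ∑ i ∈ range (H / H1), (Q : ℝ) * H1 * (l : ℝ) ^ 2 / Real.log x ^ (s + 1) := by
          refine sum_le_sum fun i hi => key _ ?_
          rw [mem_range] at hi
          have : (i + 1) * H1 ≤ H / H1 * H1 := Nat.mul_le_mul_right _ hi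
          have e1 : (i + 1) * H1 = i * H1 + H1 := by ring
          omega
      _ = _ := by rw [sum_const, card_range, nsmul_eq_mul]
  have s2 := key (a0 + (H - H1)) (by omega)
  have hNr : ((H / H1 : ℕ) : ℝ) * H1 ≤ H := by exact_mod_cast hN
  have hH1H : (H1 : ℝ) ≤ H := by exact_mod_cast hH1d
  have hpow : 0 < Real.log x ^ s := by positivity
  calc _ ≤ ((H / H1 : ℕ) : ℝ) * (Q * H1 * (l : ℝ) ^ 2 / Real.log x ^ (s + 1))
          + Q * H1 * (l : ℝ) ^ 2 / Real.log x ^ (s + 1) := add_le_add s1 s2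
    _ = (((H / H1 : ℕ) : ℝ) * H1 + H1) * (Q * (l : ℝ) ^ 2 / Real.log x ^ (s + 1)) := by ring
    _ ≤ (2 * H) * (Q * (l : ℝ) ^ 2 / Real.log x ^ (s + 1)) :=
        mul_le_mul_of_nonneg_right (by linarith only [hW1, hHW, hH1b, hNr]) (by positivity)
    _ = (Q * H * (l : ℝ) ^ 2 / Real.log x ^ s) * (2 / Real.log x) := by
        rw [pow_succ (Real.log x) s]
        field_simp
    _ ≤ (Q * H * (l : ℝ) ^ 2 / Real.log x ^ s) * 1 := by
        refine mul_le_mul_of_nonneg_left ?_ (by positivity)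
        rw [div_le_one hLpos]
        exact hL
    _ = Q * H * (l : ℝ) ^ 2 / Real.log x ^ s := by ring

end Pool.Agent.H91.L1

end

section

/-!
# L1 SumS: selections of residues, moduli close to `x`
-/

set_option autoImplicit false

namespace Pool.Agent.H91.L1

open Finset
open Pool.Agent.H91.EHA (Lam lamR hR psiA err)

/-- the deterministic part, selections -/
private theorem sumS_abs (R a0 H Q x l J j0 nb : ℕ) (M S2 : ℝ) (y : ℕ → ℕ → ℕ)
    (S : ℕ → Finset ℕ) (hS : ∀ q, S q ⊆ Ioc a0 (a0 + H)) (hSc : ∀ q, (S q).card ≤ nb)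
    (hy : ∀ q a, y q a ≤ x) (hM0 : 0 ≤ M) (hM : ∀ n : ℕ, n ≤ 9 * x → |hR R n| ≤ M)
    (hl : 1 ≤ l) (hJ1 : 1 ≤ J) (hJ : x ≤ Q * (J * l)) (hj : j0 ≤ J) (haH : a0 + H ≤ x)
    (hJu : 2 * (Q * (J * l)) ≤ 3 * x)
    (hseg : ∀ j : ℤ, -(J : ℤ) ≤ j → j < J → (j < -(j0 : ℤ) ∨ (j0 : ℤ) ≤ j) →
      ∑ q ∈ Ioc Q (2 * Q), ∑ a ∈ Ioc a0 (a0 + H),
        (∑ k ∈ Ico (j * l) (j * l + l), fz R ((a : ℤ) + q * k)) ^ 2 ≤ S2) :
    ∑ q ∈ Ioc Q (2 * Q), ∑ a ∈ S q,
        |∑ n ∈ (Icc 1 (y q a)).filter (fun n => n ≡ a [MOD q]), hR R n|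
      ≤ Q * nb * (l * M) + Q * nb * ((2 * j0 * l) * M)
        + 2 * J * Real.sqrt (Q * nb * S2) := by
  have hcQ : ((Ioc Q (2 * Q)).card : ℝ) = Q := by
    rw [Nat.card_Ioc]
    have : 2 * Q - Q = Q := by omega
    rw [this]
  have hl0 : (0 : ℤ) < l := by exact_mod_cast hl
  have hjl : ((j0 : ℤ) * l) ≤ (J : ℤ) * l := by
    have : (j0 : ℤ) ≤ J := by exact_mod_cast hj
    exact mul_le_mul_of_nonneg_right this (by positivity)
  -- pointwise bound
  have hfz : ∀ q ∈ Ioc Q (2 * Q), ∀ a ∈ Ioc a0 (a0 + H), ∀ k ∈ Ico (-(j0 * l : ℤ)) (j0 * l),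
      |fz R ((a : ℤ) + q * k)| ≤ M := by
    intro q hq a ha k hk
    rw [mem_Ioc] at hq ha
    rw [mem_Ico] at hk
    unfold fz
    split_ifs with h
    · apply hM
      have h1 : (q : ℤ) * k ≤ 3 * x := by
        rcases le_or_gt k 0 with h0 | h0
        · have : (q : ℤ) * k ≤ 0 := mul_nonpos_of_nonneg_of_nonpos (by positivity) h0
          have : (0 : ℤ) ≤ x := by positivity
          linarith
        · have h2 : k ≤ (J : ℤ) * l := by linarith only [hjl, hk]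
          have h3 : (q : ℤ) ≤ 2 * Q := by exact_mod_cast hq.2
          calc (q : ℤ) * k ≤ (2 * Q) * (J * l) := by
                apply mul_le_mul h3 h2 h0.le (by positivity)
            _ = 2 * (Q * (J * l)) := by ring
            _ ≤ 3 * x := by exact_mod_cast hJu
      have h4 : ((a : ℕ) : ℤ) ≤ x := by
        have : a ≤ x := by omega
        exact_mod_cast this
      omega
    · rw [abs_zero]
      exact hM0
  -- cut
  have h1 : ∀ q ∈ Ioc Q (2 * Q), ∀ a ∈ S q,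
      |∑ n ∈ (Icc 1 (y q a)).filter (fun n => n ≡ a [MOD q]), hR R n|
      ≤ l * M + (2 * j0 * l) * M
        + ∑ j ∈ (Ico (-(J : ℤ)) J).filter (fun j => j < -(j0 : ℤ) ∨ (j0 : ℤ) ≤ j),
            |∑ k ∈ Ico (j * l) (j * l + l), fz R ((a : ℤ) + q * k)| := by
    intro q hq a ha'
    have ha := hS q ha'
    have hq' := hq
    have hafz := hfz q hq a ha
    rw [mem_Ioc] at hq ha
    have hJl : 1 ≤ J * l := Nat.one_le_iff_ne_zero.2 (by positivity)
    have hc := cut R q a x (y q a) l J j0 M hM0 (fun n hn => hM n (by omega)) (by omega) hl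
      (by omega) (hy q a)
      (by
        calc x ≤ Q * (J * l) := hJ
          _ < q * (J * l) := Nat.mul_lt_mul_of_pos_right hq.1 (by omega)) hj
    have h2 : ∑ k ∈ Ico (-(j0 * l : ℤ)) (j0 * l), |fz R ((a : ℤ) + q * k)|
        ≤ (2 * j0 * l) * M := by
      refine (sum_le_sum hafz).trans (le_of_eq ?_)
      rw [sum_const, nsmul_eq_mul, Int.card_Ico]
      congr 1
      have : ((j0 : ℤ) * l - -((j0 : ℤ) * l)).toNat = 2 * j0 * l := by
        have : ((j0 : ℤ) * l - -((j0 : ℤ) * l)) = ((2 * j0 * l : ℕ) : ℤ) := by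
          push_cast
          ring
        rw [this, Int.toNat_natCast]
      rw [this]
      push_cast
      ring
    linarith only [hc, h2]
  have h2 : ∑ q ∈ Ioc Q (2 * Q), ∑ a ∈ S q,
        |∑ n ∈ (Icc 1 (y q a)).filter (fun n => n ≡ a [MOD q]), hR R n|
      ≤ ∑ q ∈ Ioc Q (2 * Q), ∑ a ∈ S q,
        (l * M + (2 * j0 * l) * M
        + ∑ j ∈ (Ico (-(J : ℤ)) J).filter (fun j => j < -(j0 : ℤ) ∨ (j0 : ℤ) ≤ j),
            |∑ k ∈ Ico (j * l) (j * l + l), fz R ((a : ℤ) + q * k)|) :=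
    sum_le_sum fun q hq => sum_le_sum fun a ha => h1 q hq a ha
  refine h2.trans ?_
  have e1 : ∑ q ∈ Ioc Q (2 * Q), ∑ a ∈ S q,
        (l * M + (2 * j0 * l) * M
        + ∑ j ∈ (Ico (-(J : ℤ)) J).filter (fun j => j < -(j0 : ℤ) ∨ (j0 : ℤ) ≤ j),
            |∑ k ∈ Ico (j * l) (j * l + l), fz R ((a : ℤ) + q * k)|)
      = (∑ q ∈ Ioc Q (2 * Q), ∑ _a ∈ S q, (l * M + (2 * j0 * l) * M : ℝ))
        + ∑ j ∈ (Ico (-(J : ℤ)) J).filter (fun j => j < -(j0 : ℤ) ∨ (j0 : ℤ) ≤ j),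
            ∑ q ∈ Ioc Q (2 * Q), ∑ a ∈ S q,
            |∑ k ∈ Ico (j * l) (j * l + l), fz R ((a : ℤ) + q * k)| := by
    have f3 : ∑ j ∈ (Ico (-(J : ℤ)) J).filter (fun j => j < -(j0 : ℤ) ∨ (j0 : ℤ) ≤ j),
            ∑ q ∈ Ioc Q (2 * Q), ∑ a ∈ S q,
            |∑ k ∈ Ico (j * l) (j * l + l), fz R ((a : ℤ) + q * k)|
        = ∑ q ∈ Ioc Q (2 * Q), ∑ a ∈ S q,
          ∑ j ∈ (Ico (-(J : ℤ)) J).filter (fun j => j < -(j0 : ℤ) ∨ (j0 : ℤ) ≤ j),
            |∑ k ∈ Ico (j * l) (j * l + l), fz R ((a : ℤ) + q * k)| := by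
      rw [sum_comm]
      exact sum_congr rfl fun q _ => sum_comm
    rw [f3, ← sum_add_distrib]
    refine sum_congr rfl fun q _ => ?_
    rw [← sum_add_distrib]
  rw [e1]
  have h3 : ∑ q ∈ Ioc Q (2 * Q), ∑ _a ∈ S q, (l * M + (2 * j0 * l) * M : ℝ)
      ≤ Q * nb * (l * M) + Q * nb * ((2 * j0 * l) * M) := by
    have g1 : ∀ q ∈ Ioc Q (2 * Q), ∑ _a ∈ S q, (l * M + (2 * j0 * l) * M : ℝ)
        ≤ nb * (l * M + (2 * j0 * l) * M) := by
      intro q _
      rw [sum_const, nsmul_eq_mul]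
      apply mul_le_mul_of_nonneg_right _ (by positivity)
      exact_mod_cast hSc q
    refine (sum_le_sum g1).trans (le_of_eq ?_)
    rw [sum_const, nsmul_eq_mul, hcQ]
    ring
  -- outer segments
  have h4 : ∑ j ∈ (Ico (-(J : ℤ)) J).filter (fun j => j < -(j0 : ℤ) ∨ (j0 : ℤ) ≤ j),
            ∑ q ∈ Ioc Q (2 * Q), ∑ a ∈ S q,
            |∑ k ∈ Ico (j * l) (j * l + l), fz R ((a : ℤ) + q * k)|
      ≤ 2 * J * Real.sqrt (Q * nb * S2) := by
    have g1 : ∀ j ∈ (Ico (-(J : ℤ)) J).filter (fun j => j < -(j0 : ℤ) ∨ (j0 : ℤ) ≤ j),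
        ∑ q ∈ Ioc Q (2 * Q), ∑ a ∈ S q,
            |∑ k ∈ Ico (j * l) (j * l + l), fz R ((a : ℤ) + q * k)|
        ≤ Real.sqrt (Q * nb * S2) := by
      intro j hj'
      rw [mem_filter, mem_Ico] at hj'
      have g2 := hseg j hj'.1.1 hj'.1.2 hj'.2
      set G : ℕ → ℕ → ℝ := fun q a => ∑ k ∈ Ico (j * l) (j * l + l), fz R ((a : ℤ) + q * k)
        with hG
      have g3 : (∑ q ∈ Ioc Q (2 * Q), ∑ a ∈ S q, |G q a|) ^ 2 ≤ Q * nb * S2 := by
        rw [sum_sigma']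
        have c1 := sq_sum_le_card_mul_sum_sq (s := (Ioc Q (2 * Q)).sigma S)
          (f := fun p : (_ : ℕ) × ℕ => |G p.1 p.2|)
        refine c1.trans ?_
        have c2 : ((((Ioc Q (2 * Q)).sigma S).card : ℕ) : ℝ) ≤ Q * nb := by
          rw [card_sigma]
          push_cast
          calc ∑ q ∈ Ioc Q (2 * Q), ((S q).card : ℝ) ≤ ∑ q ∈ Ioc Q (2 * Q), (nb : ℝ) :=
                sum_le_sum fun q _ => by exact_mod_cast hSc q
            _ = Q * nb := by rw [sum_const, nsmul_eq_mul, hcQ]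
        have c3 : ∑ p ∈ (Ioc Q (2 * Q)).sigma S, |G p.1 p.2| ^ 2 ≤ S2 := by
          rw [sum_sigma]
          refine le_trans ?_ g2
          refine sum_le_sum fun q _ => ?_
          calc ∑ a ∈ S q, |G q a| ^ 2 ≤ ∑ a ∈ Ioc a0 (a0 + H), |G q a| ^ 2 :=
                sum_le_sum_of_subset_of_nonneg (hS q) fun _ _ _ => sq_nonneg _
            _ = ∑ a ∈ Ioc a0 (a0 + H), G q a ^ 2 := sum_congr rfl fun a _ => sq_abs _
        exact mul_le_mul c2 c3 (sum_nonneg fun _ _ => sq_nonneg _) (by positivity)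
      have g4 : 0 ≤ ∑ q ∈ Ioc Q (2 * Q), ∑ a ∈ S q, |G q a| :=
        sum_nonneg fun q _ => sum_nonneg fun a _ => abs_nonneg _
      rw [← Real.sqrt_sq g4]
      exact Real.sqrt_le_sqrt g3
    refine (sum_le_sum g1).trans ?_
    rw [sum_const, nsmul_eq_mul]
    apply mul_le_mul_of_nonneg_right _ (Real.sqrt_nonneg _)
    have g5 : ((Ico (-(J : ℤ)) J).filter (fun j => j < -(j0 : ℤ) ∨ (j0 : ℤ) ≤ j)).card ≤ 2 * J := by
      refine (card_filter_le _ _).trans ?_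
      rw [Int.card_Ico]
      omega
    exact_mod_cast g5
  linarith only [h3, h4]

theorem sumS (hH : HuxProp) (e : ℝ) (he : 0 < e) (he2 : e ≤ 1 / 100) (c c' : ℕ) : ∃ B0 : ℕ,
    ∀ B : ℕ, B0 ≤ B → ∃ C x0 : ℕ, ∀ x : ℕ, x0 ≤ x → ∀ a0 H Q nb : ℕ, ∀ y : ℕ → ℕ → ℕ,
      ∀ S : ℕ → Finset ℕ, (∀ q a, y q a ≤ x) →
      a0 + H ≤ x → (x : ℝ) ^ (3 / 4 : ℝ) ≤ Q → (Q : ℝ) * Real.log x ^ C ≤ x →
      (x : ℝ) ^ (7 / 6 + 3 * e) ≤ Q * H →
      (∀ q, S q ⊆ Ioc a0 (a0 + H)) → (∀ q, (S q).card ≤ nb) →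
      (H : ℝ) ≤ nb * Real.log x ^ c' →
      ∑ q ∈ Ioc Q (2 * Q), ∑ a ∈ S q,
        |∑ n ∈ (Icc 1 (y q a)).filter (fun n => n ≡ a [MOD q]), hR ⌊Real.log x ^ B⌋₊ n|
          ≤ nb * x / Real.log x ^ c := by
  refine ⟨2 * c + c' + 12, fun B hB => ?_⟩
  set s : ℕ := 2 * c + c' + 4 with hs
  set C2 : ℕ := B + c + 4 with hC2
  obtain ⟨C0, x0, hmom⟩ := momS hH e he he2 s C2 B (by omega)
  obtain ⟨x1, hx1⟩ := hR_bd B (by omega)
  obtain ⟨x4, hx4⟩ := Pool.Agent.H91.EHA.log_ge 100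
  refine ⟨max C0 ((s + 7) + B + C2 + c + 20), max (max x0 x1) (max x4 2),
    fun x hx a0 H Q nb y S hy haH hQ hQC hQH hS hSc hnb => ?_⟩
  have i0 : x0 ≤ x := le_trans (le_trans (le_max_left _ _) (le_max_left _ _)) hx
  have i1 : x1 ≤ x := le_trans (le_trans (le_max_right _ _) (le_max_left _ _)) hx
  have i4 : x4 ≤ x := le_trans (le_trans (le_max_left _ _) (le_max_right _ _)) hx
  have i8 : 2 ≤ x := le_trans (le_trans (le_max_right _ _) (le_max_right _ _)) hx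
  have k0 := hmom x i0
  have k1 := hx1 x i1
  have k4 := hx4 x i4
  set R : ℕ := ⌊Real.log x ^ B⌋₊ with hR'
  set L : ℝ := Real.log x with hL
  have hL0 : (0 : ℝ) < L := by linarith only [he, he2, k4]
  have hL1 : (1 : ℝ) ≤ L := by linarith only [he, he2, k4]
  have hx2' : (2 : ℝ) ≤ x := by exact_mod_cast i8
  have hx0 : (0 : ℝ) < x := by linarith only [he, he2, hx2']
  have hx1' : (1 : ℝ) ≤ x := by linarith only [he, he2, hx2']
  have hQ0 : (0 : ℝ) < Q := lt_of_lt_of_le (by positivity) hQ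
  set V : ℝ := (x : ℝ) / Q with hV
  have hQV : (Q : ℝ) * V = x := by rw [hV]; field_simp
  have hV0 : 0 < V := by positivity
  have hQC0 : (Q : ℝ) * L ^ C0 ≤ x := by
    refine le_trans ?_ hQC
    exact mul_le_mul_of_nonneg_left (pow_le_pow_right₀ hL1 (le_max_left _ _)) hQ0.le
  have hVL : L ^ ((s + 7) + B + C2 + c + 20) ≤ V := by
    rw [hV, le_div_iff₀ hQ0, mul_comm]
    refine le_trans ?_ hQC
    exact mul_le_mul_of_nonneg_left (pow_le_pow_right₀ hL1 (le_max_right _ _)) hQ0.le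
  -- the segment length
  set l : ℕ := ⌊L ^ (s + 7)⌋₊ with hl
  have hLC : (1 : ℝ) ≤ L ^ (s + 7) := one_le_pow₀ hL1
  have hl1 : 1 ≤ l := Nat.le_floor (by simpa using hLC)
  have hlr1 : (1 : ℝ) ≤ l := by exact_mod_cast hl1
  have hlr0 : (0 : ℝ) < l := by linarith only [he, he2, hlr1]
  have hlu : (l : ℝ) ≤ L ^ (s + 7) := Nat.floor_le (by positivity)
  have hlB : (l : ℝ) ≤ L ^ B := hlu.trans (pow_le_pow_right₀ hL1 (by omega))
  have hll : L ^ (s + 7) ≤ 2 * l := by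
    have h1 : L ^ (s + 7) < l + 1 := Nat.lt_floor_add_one _
    linarith only [hlr1, h1]
  have hls : L ^ (s + 6) ≤ l := by
    have h1 : 2 * L ^ (s + 6) ≤ L ^ (s + 7) := by
      rw [pow_succ L (s + 6), mul_comm (2 : ℝ)]
      exact mul_le_mul_of_nonneg_left (by linarith only [he, he2, k4]) (by positivity)
    linarith only [hll, h1]
  -- comparison of powers
  have hpow : ∀ m : ℕ, m ≤ (s + 7) + B + C2 + c + 18 → 100 * L ^ m ≤ V := by
    intro m hm
    refine le_trans ?_ hVL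
    calc 100 * L ^ m ≤ L * L ^ m := mul_le_mul_of_nonneg_right k4 (by positivity)
      _ = L ^ (m + 1) := by ring
      _ ≤ _ := pow_le_pow_right₀ hL1 (by omega)
  -- `j0`
  set j0 : ℕ := ⌈V / (L ^ C2 * l)⌉₊ + 2 with hj0
  have hj0l : V / L ^ C2 + 2 * l ≤ j0 * l := by
    have h1 : V / (L ^ C2 * l) ≤ ⌈V / (L ^ C2 * l)⌉₊ := Nat.le_ceil _
    have h2 : V / L ^ C2 = V / (L ^ C2 * l) * l := by field_simp
    rw [h2, hj0]
    push_cast
    have := mul_le_mul_of_nonneg_right h1 hlr0.le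
    linarith only [this]
  have hj0u : (j0 * l : ℝ) ≤ V / L ^ C2 + 3 * l := by
    have h1 : (⌈V / (L ^ C2 * l)⌉₊ : ℝ) < V / (L ^ C2 * l) + 1 :=
      Nat.ceil_lt_add_one (by positivity)
    have h2 : V / L ^ C2 = V / (L ^ C2 * l) * l := by field_simp
    rw [h2, hj0]
    push_cast
    have := mul_le_mul_of_nonneg_right h1.le hlr0.le
    linarith only [this]
  have h3l : 3 * (l : ℝ) ≤ V / L ^ C2 := by
    rw [le_div_iff₀ (by positivity)]
    have h1 := hpow ((s + 7) + C2) (by omega)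
    calc 3 * (l : ℝ) * L ^ C2 ≤ 3 * L ^ (s + 7) * L ^ C2 := by
          apply mul_le_mul_of_nonneg_right _ (by positivity)
          linarith only [hlu]
      _ = 3 * L ^ ((s + 7) + C2) := by rw [pow_add L (s + 7) C2]; ring
      _ ≤ 100 * L ^ ((s + 7) + C2) := by
          apply mul_le_mul_of_nonneg_right (by norm_num) (by positivity)
      _ ≤ V := h1
  have hVL7 : V / L ^ C2 ≤ V / 100 := by
    apply div_le_div_of_nonneg_left hV0.le (by norm_num)
    calc (100 : ℝ) ≤ L := k4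
      _ = L ^ 1 := (pow_one _).symm
      _ ≤ L ^ C2 := pow_le_pow_right₀ hL1 (by omega)
  -- `J`
  set J : ℕ := ⌊V / l⌋₊ + 1 with hJ
  have hJl : V ≤ J * l := by
    have h1 : V / l < ⌊V / l⌋₊ + 1 := Nat.lt_floor_add_one _
    have h2 := (div_lt_iff₀ hlr0).1 h1
    rw [hJ]
    push_cast
    exact h2.le
  have hJu : (J : ℝ) ≤ V / l + 1 := by
    have h1 : (⌊V / l⌋₊ : ℝ) ≤ V / l := Nat.floor_le (by positivity)
    rw [hJ]
    push_cast
    linarith only [h1]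
  have hlV : (l : ℝ) ≤ V / 100 := by linarith only [he, he2, hlr1, h3l, hVL7]
  have hJlu : (J * l : ℝ) ≤ 3 / 2 * V := by
    have h1 := mul_le_mul_of_nonneg_right hJu hlr0.le
    have h2 : (V / l + 1) * l = V + l := by field_simp
    rw [h2] at h1
    linarith only [he, he2, hlr1, h3l, hVL7, h1]
  have hjJ : j0 ≤ J := by
    have h1 : (j0 * l : ℝ) ≤ J * l := by linarith only [he, he2, hlr1, hj0u, h3l, hVL7, hJl]
    have h2 : (j0 : ℝ) ≤ J := le_of_mul_le_mul_right h1 hlr0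
    exact_mod_cast h2
  have hxJ : x ≤ Q * (J * l) := by
    have h1 : (x : ℝ) ≤ Q * (J * l) := by
      rw [← hQV]
      exact mul_le_mul_of_nonneg_left hJl hQ0.le
    exact_mod_cast h1
  have hxJu : 2 * (Q * (J * l)) ≤ 3 * x := by
    have h1 : 2 * ((Q : ℝ) * (J * l)) ≤ 3 * x := by
      have h2 := mul_le_mul_of_nonneg_left hJlu hQ0.le
      rw [← hQV]
      linarith only [h2]
    exact_mod_cast h1
  have hl0 : (0 : ℤ) < l := by exact_mod_cast hl1
  -- the deterministic bound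
  have hdet := sumS_abs R a0 H Q x l J j0 nb (L ^ (B + 1)) (Q * H * (l : ℝ) ^ 2 / L ^ s) y S hS
    hSc hy (by positivity) k1 hl1 (by omega) hxJ hjJ haH hxJu
    (by
      intro j hj1 hj2 hj3
      refine k0 a0 H Q l (j * l) haH hQ hQC0 hQH hlB hls ?_
      intro k hk
      rw [mem_Ico] at hk
      have b1 : -((J : ℤ) * l) ≤ j * l := by
        have := mul_le_mul_of_nonneg_right hj1 hl0.le
        linarith only [this]
      have b2 : j * l + l ≤ (J : ℤ) * l := by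
        have h : j + 1 ≤ (J : ℤ) := by omega
        have := mul_le_mul_of_nonneg_right h hl0.le
        linarith only [this]
      have hκl : (j0 * l : ℝ) ≤ k.natAbs := by
        have hh : (((j0 * l : ℕ) : ℤ)) ≤ |k| := by
          push_cast
          rcases hj3 with h | h
          · have h' : j + 1 ≤ -(j0 : ℤ) := by omega
            have h2 := mul_le_mul_of_nonneg_right h' hl0.le
            have h3 := neg_abs_le k
            linarith only [hk, h2, h3]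
          · have h2 := mul_le_mul_of_nonneg_right h hl0.le
            have h3 := le_abs_self k
            linarith only [hk, h2, h3]
        rw [← Int.natCast_natAbs] at hh
        exact_mod_cast hh
      have hκu : (k.natAbs : ℝ) ≤ 3 / 2 * V := by
        refine le_trans ?_ hJlu
        have hh : |k| ≤ ((J * l : ℕ) : ℤ) := by
          push_cast
          rw [abs_le]
          constructor <;> linarith only [hk, b1, b2]
        rw [← Int.natCast_natAbs] at hh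
        exact_mod_cast hh
      constructor
      · have h1 : V / L ^ C2 ≤ k.natAbs := by linarith only [he, he2, hlr1, hj0l, hκl]
        rw [div_le_iff₀ (by positivity)] at h1
        rw [← hQV]
        calc (Q : ℝ) * V ≤ Q * (k.natAbs * L ^ C2) := mul_le_mul_of_nonneg_left h1 hQ0.le
          _ = Q * L ^ C2 * k.natAbs := by ring
      · rw [← hQV]
        have h1 := mul_le_mul_of_nonneg_left hκu hQ0.le
        linarith only [h1])
  refine hdet.trans ?_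
  -- the three terms
  have hxnV : (nb : ℝ) * x / L ^ c = Q * nb * (V / L ^ c) := by
    rw [← hQV]
    ring
  rw [hxnV]
  have t1 : (Q : ℝ) * nb * (l * L ^ (B + 1)) ≤ Q * nb * (V / L ^ c) / 4 := by
    rw [mul_div_assoc]
    apply mul_le_mul_of_nonneg_left _ (by positivity)
    rw [div_div, le_div_iff₀ (by positivity)]
    have h1 := hpow ((s + 7) + (B + 1) + c) (by omega)
    calc (l : ℝ) * L ^ (B + 1) * (L ^ c * 4) ≤ L ^ (s + 7) * L ^ (B + 1) * (L ^ c * 4) := by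
          apply mul_le_mul_of_nonneg_right _ (by positivity)
          exact mul_le_mul_of_nonneg_right hlu (by positivity)
      _ = 4 * L ^ ((s + 7) + (B + 1) + c) := by
          rw [pow_add L ((s + 7) + (B + 1)) c, pow_add L (s + 7) (B + 1)]; ring
      _ ≤ 100 * L ^ ((s + 7) + (B + 1) + c) :=
          mul_le_mul_of_nonneg_right (by norm_num) (by positivity)
      _ ≤ V := h1
  have hL5 : (100 : ℝ) * L ^ c ≤ L ^ (c + 1) := by
    rw [pow_succ, mul_comm (100 : ℝ)]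
    exact mul_le_mul_of_nonneg_left k4 (by positivity)
  have t2 : (Q : ℝ) * nb * ((2 * j0 * l) * L ^ (B + 1)) ≤ Q * nb * (V / L ^ c) / 4 := by
    rw [mul_div_assoc]
    apply mul_le_mul_of_nonneg_left _ (by positivity)
    have s2 : (2 * j0 * l : ℝ) ≤ 4 * (V / L ^ C2) := by linarith only [hj0u, h3l]
    calc (2 * j0 * l : ℝ) * L ^ (B + 1) ≤ 4 * (V / L ^ C2) * L ^ (B + 1) :=
          mul_le_mul_of_nonneg_right s2 (by positivity)
      _ = V * (4 / L ^ (c + 3)) := by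
          rw [hC2, show B + c + 4 = (c + 3) + (B + 1) by ring, pow_add L (c + 3) (B + 1)]
          field_simp
      _ ≤ V * (1 / (4 * L ^ c)) := by
          apply mul_le_mul_of_nonneg_left _ (by positivity)
          rw [div_le_div_iff₀ (by positivity) (by positivity)]
          have h2 : L ^ (c + 1) ≤ L ^ (c + 3) := pow_le_pow_right₀ hL1 (by omega)
          have h3 : (0 : ℝ) < L ^ c := by positivity
          linarith only [hL5, h2, h3]
      _ = V / L ^ c / 4 := by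
          field_simp
  have t3 : 2 * (J : ℝ) * Real.sqrt (Q * nb * (Q * H * (l : ℝ) ^ 2 / L ^ s))
      ≤ Q * nb * (V / L ^ c) / 4 := by
    have s1 : Real.sqrt (Q * nb * (Q * H * (l : ℝ) ^ 2 / L ^ s)) ≤ Q * nb * l / L ^ (c + 2) := by
      rw [Real.sqrt_le_left (by positivity)]
      calc (Q : ℝ) * nb * (Q * H * (l : ℝ) ^ 2 / L ^ s)
          ≤ Q * nb * (Q * (nb * L ^ c') * (l : ℝ) ^ 2 / L ^ s) := by
            apply mul_le_mul_of_nonneg_left _ (by positivity)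
            apply div_le_div_of_nonneg_right _ (by positivity)
            apply mul_le_mul_of_nonneg_right _ (by positivity)
            exact mul_le_mul_of_nonneg_left hnb hQ0.le
        _ = (Q * nb * l / L ^ (c + 2)) ^ 2 := by
            rw [div_pow, ← pow_mul, hs, show 2 * c + c' + 4 = (c + 2) * 2 + c' by ring,
              pow_add L ((c + 2) * 2) c']
            field_simp
    have s3 : 2 * (J : ℝ) ≤ 4 * (V / l) := by
      have : 1 ≤ V / l := by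
        rw [le_div_iff₀ hlr0]
        linarith only [he, he2, hlr1, h3l, hVL7]
      linarith only [hJu, this]
    calc 2 * (J : ℝ) * Real.sqrt (Q * nb * (Q * H * (l : ℝ) ^ 2 / L ^ s))
        ≤ 4 * (V / l) * (Q * nb * l / L ^ (c + 2)) :=
          mul_le_mul s3 s1 (Real.sqrt_nonneg _) (by positivity)
      _ = Q * nb * V * (4 / L ^ (c + 2)) := by
          field_simp
      _ ≤ Q * nb * V * (1 / (4 * L ^ c)) := by
          apply mul_le_mul_of_nonneg_left _ (by positivity)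
          rw [div_le_div_iff₀ (by positivity) (by positivity)]
          have h2 : L ^ (c + 1) ≤ L ^ (c + 2) := pow_le_pow_right₀ hL1 (by omega)
          have h3 : (0 : ℝ) < L ^ c := by positivity
          linarith only [hL5, h2, h3]
      _ = Q * nb * (V / L ^ c) / 4 := by
          field_simp
  have t4 : 0 ≤ (Q : ℝ) * nb * (V / L ^ c) := by positivity
  linarith only [t1, t2, t3, t4]

end Pool.Agent.H91.L1

end

section

/-!
# L1 SelN: one dyadic interval of moduli close to `x`, selections of residues, `y` depending on `(q,a)`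
-/

set_option autoImplicit false

namespace Pool.Agent.H91.L1

open Finset
open Pool.Agent.H91.EHA (Lam lamR hR psiA err)

theorem selN (hH : HuxProp) (e : ℝ) (he : 0 < e) (he2 : e ≤ 1 / 100) (c c' : ℕ) : ∃ C x0 : ℕ,
    ∀ x : ℕ, x0 ≤ x → ∀ a0 Q H nb : ℕ, ∀ y : ℕ → ℕ → ℕ, ∀ S : ℕ → Finset ℕ,
      (∀ q a, y q a ≤ x) →
      a0 + H ≤ x → (x : ℝ) ^ (3 / 4 : ℝ) ≤ Q → (Q : ℝ) * Real.log x ^ C ≤ x →
      (x : ℝ) ^ (7 / 6 + 3 * e) ≤ Q * H →
      (∀ q, S q ⊆ Ioc a0 (a0 + H)) → (∀ q, (S q).card ≤ nb) →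
      (H : ℝ) ≤ nb * Real.log x ^ c' →
      ∑ q ∈ Ioc Q (2 * Q), ∑ a ∈ (S q).filter (fun a => Nat.Coprime a q),
        |err (y q a) q (a : ZMod q)| ≤ nb * x / Real.log x ^ c := by
  obtain ⟨B0, hB0⟩ := sumS hH e he he2 (c + 4) c'
  set B : ℕ := max B0 (c + 6) with hB
  obtain ⟨C1, x1, hx1⟩ := hB0 B (le_max_left _ _)
  obtain ⟨x2, hx2⟩ := psiS_of_hR B (c + 2) (le_max_right _ _)
  obtain ⟨x3, hx3⟩ := piS c c'
  obtain ⟨x4, hx4⟩ := Pool.Agent.H91.EHA.pnt' (c + 5)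
  obtain ⟨x5, hx5⟩ := Pool.Agent.H91.EHA.log_ge 1
  refine ⟨max C1 (max (3 * B + (c + 2) + 1) (c + c' + 5)),
    max (max (max x1 x2) (max x3 x4)) (max x5 2),
    fun x hx a0 Q H nb y S hy haH hQ hQC hQH hS hSc hnb => ?_⟩
  have i1 : x1 ≤ x := le_trans (le_trans (le_trans (le_max_left _ _) (le_max_left _ _))
    (le_max_left _ _)) hx
  have i2 : x2 ≤ x := le_trans (le_trans (le_trans (le_max_right _ _) (le_max_left _ _))
    (le_max_left _ _)) hx
  have i3 : x3 ≤ x := le_trans (le_trans (le_trans (le_max_left _ _) (le_max_right _ _))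
    (le_max_left _ _)) hx
  have i4 : x4 ≤ x := le_trans (le_trans (le_trans (le_max_right _ _) (le_max_right _ _))
    (le_max_left _ _)) hx
  have i5 : x5 ≤ x := le_trans (le_trans (le_max_left _ _) (le_max_right _ _)) hx
  have i6 : 2 ≤ x := le_trans (le_trans (le_max_right _ _) (le_max_right _ _)) hx
  have hL1 := hx5 x i5
  have hx2' : (2 : ℝ) ≤ x := by exact_mod_cast i6
  have hx0 : (0 : ℝ) < x := by linarith
  have hQ0 : (0 : ℝ) < Q := lt_of_lt_of_le (by positivity) hQ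
  have hQ1 : 1 ≤ Q := by exact_mod_cast hQ0
  have hQp : ∀ m : ℕ, m ≤ max C1 (max (3 * B + (c + 2) + 1) (c + c' + 5)) →
      (Q : ℝ) * Real.log x ^ m ≤ x := by
    intro m hm
    refine le_trans ?_ hQC
    exact mul_le_mul_of_nonneg_left (pow_le_pow_right₀ hL1 hm) hQ0.le
  refine hx3 x i3 a0 Q H nb S hS hSc hnb (by omega) (by omega) hQ1
    (hQp (c + c' + 5) (le_trans (le_max_right _ _) (le_max_right _ _)))
    (fun t ht => hx4 x i4 t ht) ?_ y hy
  intro y' hy'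
  refine hx2 x i2 Q nb y' S hSc hy' hQ1
    (hQp (3 * B + (c + 2) + 1) (le_trans (le_max_left _ _) (le_max_right _ _))) ?_
  exact hx1 x i1 a0 H Q nb y' S hy' haH hQ (hQp C1 (le_max_left _ _)) hQH hS hSc hnb

end Pool.Agent.H91.L1

end
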