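import Pool.Agent.H94.EH.H91.EHA.Defs
import Pool.Agent.H94.EH.M01

/-! The parts of this file: H91.EHA.SwH, H91.EHA.SwJ2, H91.EHA.SwG, H91.PK.DiA, H91.EHA.ChB, H91.EHA.ChA. -/

section

/-!
# From smooth sums to sharp cut-offs

`om(t) = t(1-t)²` on `[0,1]`.  Choose `ρ : ℝ → ℝ`, `ρ = 3` on `(0,1]`, `ρ(u) = P(u)` on `(1,1+δ]`, `0` beyond, where
`P` is a combination of (for instance) three step functions on thirds of `(1,1+δ]` (or a polynomial) with
`∫ P u^{-2} = 3`, `∫ P u^{-3} = 3/2`, `∫ P u^{-4} = 1`, `|P| ≤ C₀ δ^{-3}`.  Then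
`w(t) := ∫_0^∞ om(t/u) ρ(u) du/u` satisfies `w(t) = 1` for `0 < t ≤ 1`, `w(t) = 0` for `t ≥ 1+δ`,
`|w| ≤ C₀` (for `t ≤ 1`: `3∫_t^1 (1-v)² dv = (1-t)³`, and the moments give `3t - 3t² + t³`).
Linear system: with `u = 1 + δ z` the three conditions are a `3×3` system whose determinant is `≍ δ³` (Vandermonde).
(If you prefer: any other explicit `w`.)
Then `∑_{n ≤ y} a_n = ∑_n a_n w(n/y) - ∑_{y < n ≤ (1+δ)y} a_n w(n/y)`, and
`∑ a_n w(n/y) = ∫ ρ(u) S(uy) du/u`, `S(v) = ∑_{n ≤ v} a_n om(n/v)` for real `v`, `S(v) = 0` for `v < 1`,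
`‖S(v) - S(⌊v⌋)‖ ≤ (1/⌊v⌋) ∑_{n ≤ v} ‖a_n‖ ≤ 2 H (1 + P/v)` by `om_lip`.
-/

set_option autoImplicit false

namespace Pool.Agent.H91.EHA

open Finset
open Pool.Agent.H91.PK

/-- The average over `K` consecutive values. -/
noncomputable def swhA (K : ℕ) (f : ℕ → ℝ) (N : ℕ) : ℝ := (∑ i ∈ range K, f (N + i)) / K

theorem swhA_diff (K : ℕ) (f : ℕ → ℝ) (N : ℕ) :
    swhA K f (N + 1) - swhA K f N = (f (N + K) - f N) / K := by
  unfold swhA
  rw [← sub_div]
  congr 1
  have h1 := Finset.sum_range_succ (fun i => f (N + i)) K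
  have h2 := Finset.sum_range_succ' (fun i => f (N + i)) K
  rw [h1] at h2
  have h3 : ∑ i ∈ range K, f (N + 1 + i) = ∑ i ∈ range K, f (N + (i + 1)) := by
    refine Finset.sum_congr rfl fun i _ => ?_
    congr 1
    ring
  rw [h3]
  simp only [add_zero] at h2
  linarith only [h2]

theorem swhA_nonneg (K : ℕ) (f : ℕ → ℝ) (hf : ∀ N, 0 ≤ f N) (N : ℕ) : 0 ≤ swhA K f N := by
  unfold swhA
  exact div_nonneg (Finset.sum_nonneg fun i _ => hf _) (Nat.cast_nonneg _)

theorem swhA_le_one (K : ℕ) (hK : 0 < K) (f : ℕ → ℝ) (hf : ∀ N, f N ≤ 1) (N : ℕ) :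
    swhA K f N ≤ 1 := by
  unfold swhA
  rw [div_le_one (Nat.cast_pos.2 hK)]
  calc ∑ i ∈ range K, f (N + i) ≤ ∑ _i ∈ range K, (1 : ℝ) := Finset.sum_le_sum fun i _ => hf _
    _ = K := by simp

theorem swhA_eq_one (K : ℕ) (hK : 0 < K) (f : ℕ → ℝ) (T : ℕ) (hf : ∀ N, N ≤ T → f N = 1) (N : ℕ)
    (hN : N + K ≤ T) : swhA K f N = 1 := by
  unfold swhA
  rw [Finset.sum_congr rfl (fun i hi => hf (N + i) (by
    have := Finset.mem_range.1 hi
    omega))]
  simp only [Finset.sum_const, Finset.card_range, nsmul_eq_mul, mul_one]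
  exact div_self (Nat.cast_pos.2 hK).ne'

theorem swhA_eq_zero (K : ℕ) (f : ℕ → ℝ) (T : ℕ) (hf : ∀ N, T < N → f N = 0) (N : ℕ)
    (hN : T < N) : swhA K f N = 0 := by
  unfold swhA
  rw [Finset.sum_eq_zero (fun i _ => hf (N + i) (by omega)), zero_div]

/-- The sharp cut-off. -/
noncomputable def swhC (M N : ℕ) : ℝ := if N ≤ M then 1 else 0

theorem swhC_nonneg (M N : ℕ) : 0 ≤ swhC M N := by
  unfold swhC
  split_ifs <;> norm_num

theorem swhC_le_one (M N : ℕ) : swhC M N ≤ 1 := by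
  unfold swhC
  split_ifs <;> norm_num

/-- The smoothed cut-off. -/
noncomputable def swhP (K M : ℕ) : ℕ → ℝ := swhA K (swhA K (swhA K (swhC M)))

theorem swhP_nonneg (K M N : ℕ) : 0 ≤ swhP K M N :=
  swhA_nonneg K _ (swhA_nonneg K _ (swhA_nonneg K _ (swhC_nonneg M))) N

theorem swhP_le_one (K M : ℕ) (hK : 0 < K) (N : ℕ) : swhP K M N ≤ 1 :=
  swhA_le_one K hK _ (swhA_le_one K hK _ (swhA_le_one K hK _ (swhC_le_one M))) N

theorem swhP_eq_one (K M : ℕ) (hK : 0 < K) (N : ℕ) (hN : N + 3 * K ≤ M) : swhP K M N = 1 := by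
  have h0 : ∀ N, N ≤ M → swhC M N = 1 := fun N h => if_pos h
  have h1 : ∀ N, N ≤ M - K → swhA K (swhC M) N = 1 := fun N h =>
    swhA_eq_one K hK _ M h0 N (by omega)
  have h2 : ∀ N, N ≤ M - 2 * K → swhA K (swhA K (swhC M)) N = 1 := fun N h =>
    swhA_eq_one K hK _ (M - K) h1 N (by omega)
  exact swhA_eq_one K hK _ (M - 2 * K) h2 N (by omega)

theorem swhP_eq_zero (K M N : ℕ) (hN : M < N) : swhP K M N = 0 := by
  have h0 : ∀ N, M < N → swhC M N = 0 := fun N h => if_neg (by omega)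
  have h1 : ∀ N, M < N → swhA K (swhC M) N = 0 := fun N h => swhA_eq_zero K _ M h0 N h
  have h2 : ∀ N, M < N → swhA K (swhA K (swhC M)) N = 0 := fun N h => swhA_eq_zero K _ M h1 N h
  exact swhA_eq_zero K _ M h2 N hN

theorem swhP_d1 (K M : ℕ) (hK : 0 < K) (N : ℕ) : |swhP K M (N + 1) - swhP K M N| ≤ 1 / K := by
  have hK' : (0 : ℝ) < K := Nat.cast_pos.2 hK
  unfold swhP
  rw [swhA_diff, abs_div, abs_of_pos hK']
  refine div_le_div_of_nonneg_right ?_ hK'.le
  have a1 := swhA_nonneg K _ (swhA_nonneg K _ (swhC_nonneg M)) (N + K)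
  have a2 := swhA_nonneg K _ (swhA_nonneg K _ (swhC_nonneg M)) N
  have a3 := swhA_le_one K hK _ (swhA_le_one K hK _ (swhC_le_one M)) (N + K)
  have a4 := swhA_le_one K hK _ (swhA_le_one K hK _ (swhC_le_one M)) N
  rw [abs_le]
  constructor <;> linarith

theorem swhP_d2_eq (K M : ℕ) (hK : 0 < K) (N : ℕ) :
    swhP K M (N + 2) - 2 * swhP K M (N + 1) + swhP K M N =
      (swhA K (swhC M) (N + 2 * K) - 2 * swhA K (swhC M) (N + K) + swhA K (swhC M) N) / K ^ 2 := by
  have hK' : (0 : ℝ) < K := Nat.cast_pos.2 hK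
  have h1 : swhP K M (N + 2) - swhP K M (N + 1) =
      (swhA K (swhA K (swhC M)) (N + 1 + K) - swhA K (swhA K (swhC M)) (N + 1)) / K :=
    swhA_diff K _ (N + 1)
  have h2 : swhP K M (N + 1) - swhP K M N =
      (swhA K (swhA K (swhC M)) (N + K) - swhA K (swhA K (swhC M)) N) / K :=
    swhA_diff K _ N
  have h3 := swhA_diff K (swhA K (swhC M)) (N + K)
  have h4 := swhA_diff K (swhA K (swhC M)) N
  rw [show N + 1 + K = N + K + 1 by ring] at h1
  rw [show N + K + K = N + 2 * K by ring] at h3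
  have h5 : swhP K M (N + 2) - 2 * swhP K M (N + 1) + swhP K M N =
      ((swhA K (swhA K (swhC M)) (N + K + 1) - swhA K (swhA K (swhC M)) (N + K)) -
        (swhA K (swhA K (swhC M)) (N + 1) - swhA K (swhA K (swhC M)) N)) / K := by
    have : swhP K M (N + 2) - 2 * swhP K M (N + 1) + swhP K M N =
      (swhP K M (N + 2) - swhP K M (N + 1)) - (swhP K M (N + 1) - swhP K M N) := by ring
    rw [this, h1, h2]
    ring
  rw [h5, h3, h4]
  field_simp
  ring

theorem swhP_d2 (K M : ℕ) (hK : 0 < K) (N : ℕ) :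
    |swhP K M (N + 2) - 2 * swhP K M (N + 1) + swhP K M N| ≤ 2 / K ^ 2 := by
  have hK' : (0 : ℝ) < K := Nat.cast_pos.2 hK
  rw [swhP_d2_eq K M hK N, abs_div, abs_of_pos (by positivity : (0 : ℝ) < (K : ℝ) ^ 2)]
  refine div_le_div_of_nonneg_right ?_ (by positivity)
  have a1 := swhA_nonneg K _ (swhC_nonneg M) (N + 2 * K)
  have a2 := swhA_nonneg K _ (swhC_nonneg M) (N + K)
  have a3 := swhA_nonneg K _ (swhC_nonneg M) N
  have a4 := swhA_le_one K hK _ (swhC_le_one M) (N + 2 * K)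
  have a5 := swhA_le_one K hK _ (swhC_le_one M) (N + K)
  have a6 := swhA_le_one K hK _ (swhC_le_one M) N
  rw [abs_le]
  constructor <;> linarith only [a1, a3, a5, a2, a4, a6]

theorem swhP_d3 (K M : ℕ) (hK : 0 < K) (N : ℕ) :
    |swhP K M (N + 3) - 3 * swhP K M (N + 2) + 3 * swhP K M (N + 1) - swhP K M N|
      ≤ 4 / K ^ 3 := by
  have hK' : (0 : ℝ) < K := Nat.cast_pos.2 hK
  have h1 := swhP_d2_eq K M hK (N + 1)
  have h2 := swhP_d2_eq K M hK N
  have h3 := swhA_diff K (swhC M) (N + 2 * K)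
  have h4 := swhA_diff K (swhC M) (N + K)
  have h5 := swhA_diff K (swhC M) N
  rw [show N + 1 + 2 * K = N + 2 * K + 1 by ring, show N + 1 + K = N + K + 1 by ring] at h1
  have e : swhP K M (N + 3) - 3 * swhP K M (N + 2) + 3 * swhP K M (N + 1) - swhP K M N =
      (swhC M (N + 2 * K + K) - swhC M (N + 2 * K) - 2 * (swhC M (N + K + K) - swhC M (N + K)) +
        (swhC M (N + K) - swhC M N)) / K ^ 3 := by
    have e1 : swhP K M (N + 3) - 3 * swhP K M (N + 2) + 3 * swhP K M (N + 1) - swhP K M N =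
      (swhP K M (N + 1 + 2) - 2 * swhP K M (N + 1 + 1) + swhP K M (N + 1)) -
      (swhP K M (N + 2) - 2 * swhP K M (N + 1) + swhP K M N) := by
      rw [show N + 1 + 2 = N + 3 by ring, show N + 1 + 1 = N + 2 by ring]
      ring
    rw [e1, h1, h2]
    have e2 : (swhA K (swhC M) (N + 2 * K + 1) - 2 * swhA K (swhC M) (N + K + 1) +
        swhA K (swhC M) (N + 1)) / (K : ℝ) ^ 2 -
        (swhA K (swhC M) (N + 2 * K) - 2 * swhA K (swhC M) (N + K) +
          swhA K (swhC M) N) / (K : ℝ) ^ 2 =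
        ((swhA K (swhC M) (N + 2 * K + 1) - swhA K (swhC M) (N + 2 * K)) -
          2 * (swhA K (swhC M) (N + K + 1) - swhA K (swhC M) (N + K)) +
          (swhA K (swhC M) (N + 1) - swhA K (swhC M) N)) / (K : ℝ) ^ 2 := by ring
    rw [e2, h3, h4, h5]
    field_simp
  rw [e, abs_div, abs_of_pos (by positivity : (0 : ℝ) < (K : ℝ) ^ 3)]
  refine div_le_div_of_nonneg_right ?_ (by positivity)
  have b1 : N + 2 * K + K = N + 3 * K := by ring
  have b2 : N + K + K = N + 2 * K := by ring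
  rw [b1, b2]
  have a1 := swhC_nonneg M (N + 3 * K)
  have a2 := swhC_nonneg M (N + 2 * K)
  have a3 := swhC_nonneg M (N + K)
  have a4 := swhC_nonneg M N
  have a5 := swhC_le_one M (N + 3 * K)
  have a6 := swhC_le_one M (N + 2 * K)
  have a7 := swhC_le_one M (N + K)
  have a8 := swhC_le_one M N
  rw [abs_le]
  constructor <;> linarith only [a1, a3, a6, a8, a2, a4, a5, a7]

/-- The weight. -/
noncomputable def swhW (K M : ℕ) (N : ℕ) : ℝ := swhP K M N * (1 / (2 * (N : ℝ)))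

/-- Its third difference. -/
noncomputable def swhD (K M : ℕ) (N : ℕ) : ℝ :=
  swhW K M (N + 3) - 3 * swhW K M (N + 2) + 3 * swhW K M (N + 1) - swhW K M N

theorem swh_psi3 (x : ℝ) (hx : 1 ≤ x) :
    |1 / (2 * (x + 3)) - 3 * (1 / (2 * (x + 2))) + 3 * (1 / (2 * (x + 1))) - 1 / (2 * x)|
      ≤ 3 / x ^ 4 := by
  have e : 1 / (2 * (x + 3)) - 3 * (1 / (2 * (x + 2))) + 3 * (1 / (2 * (x + 1))) - 1 / (2 * x)
      = -(3 / (x * (x + 1) * (x + 2) * (x + 3))) := by
    field_simp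
    ring
  rw [e, abs_neg, abs_of_pos (by positivity)]
  refine div_le_div_of_nonneg_left (by norm_num) (by positivity) ?_
  have h : x ^ 4 = x * x * x * x := by ring
  rw [h]
  gcongr <;> linarith

theorem swh_psi2 (x : ℝ) (hx : 1 ≤ x) :
    |1 / (2 * (x + 2)) - 2 * (1 / (2 * (x + 1))) + 1 / (2 * x)| ≤ 1 / x ^ 3 := by
  have e : 1 / (2 * (x + 2)) - 2 * (1 / (2 * (x + 1))) + 1 / (2 * x)
      = 1 / (x * (x + 1) * (x + 2)) := by
    field_simp
    ring
  rw [e, abs_of_pos (by positivity)]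
  refine div_le_div_of_nonneg_left (by norm_num) (by positivity) ?_
  have h : x ^ 3 = x * x * x := by ring
  rw [h]
  gcongr <;> linarith only

theorem swh_psi1 (x : ℝ) (hx : 1 ≤ x) :
    |1 / (2 * (x + 1)) - 1 / (2 * x)| ≤ 1 / (2 * x ^ 2) := by
  have e : 1 / (2 * (x + 1)) - 1 / (2 * x) = -(1 / (2 * (x * (x + 1)))) := by
    field_simp
    ring
  rw [e, abs_neg, abs_of_pos (by positivity)]
  refine div_le_div_of_nonneg_left (by norm_num) (by positivity) ?_
  have h : x ^ 2 = x * x := by ring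
  rw [h]
  gcongr
  linarith

theorem swhD_bound (K y : ℕ) (hK : 0 < K) (hKy : K ≤ y) (N : ℕ) (hN : 1 ≤ N) :
    (N : ℝ) ^ 3 * |swhD K (y + 2 + 3 * K) N| ≤
      3 / N + (if y ≤ N then 8 * (N : ℝ) ^ 2 / K ^ 3 else 0) := by
  have hx : (1 : ℝ) ≤ N := by exact_mod_cast hN
  have hx0 : (0 : ℝ) < N := by linarith only [hx]
  have hK' : (0 : ℝ) < K := Nat.cast_pos.2 hK
  set M := y + 2 + 3 * K with hM
  have c1 : ((N + 1 : ℕ) : ℝ) = (N : ℝ) + 1 := by push_cast; ring
  have c2 : ((N + 2 : ℕ) : ℝ) = (N : ℝ) + 2 := by push_cast; ring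
  have c3 : ((N + 3 : ℕ) : ℝ) = (N : ℝ) + 3 := by push_cast; ring
  have p3 := swh_psi3 N hx
  have p2 := swh_psi2 N hx
  have p1 := swh_psi1 N hx
  by_cases hy : y ≤ N
  · rw [if_pos hy]
    have hKN : (K : ℝ) ≤ N := by exact_mod_cast hKy.trans hy
    have q0 := swhP_nonneg K M (N + 3)
    have q0' := swhP_le_one K M hK (N + 3)
    have q1 := swhP_d1 K M hK (N + 2)
    have q2 := swhP_d2 K M hK (N + 1)
    have q3 := swhP_d3 K M hK N
    rw [show N + 2 + 1 = N + 3 by ring] at q1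
    rw [show N + 1 + 2 = N + 3 by ring, show N + 1 + 1 = N + 2 by ring] at q2
    have e : swhD K M N =
        swhP K M (N + 3) * (1 / (2 * ((N : ℝ) + 3)) - 3 * (1 / (2 * ((N : ℝ) + 2))) +
          3 * (1 / (2 * ((N : ℝ) + 1))) - 1 / (2 * (N : ℝ))) +
        3 * (swhP K M (N + 3) - swhP K M (N + 2)) *
          (1 / (2 * ((N : ℝ) + 2)) - 2 * (1 / (2 * ((N : ℝ) + 1))) + 1 / (2 * (N : ℝ))) +
        3 * (swhP K M (N + 3) - 2 * swhP K M (N + 2) + swhP K M (N + 1)) *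
          (1 / (2 * ((N : ℝ) + 1)) - 1 / (2 * (N : ℝ))) +
        (swhP K M (N + 3) - 3 * swhP K M (N + 2) + 3 * swhP K M (N + 1) - swhP K M N) *
          (1 / (2 * (N : ℝ))) := by
      unfold swhD swhW
      rw [c1, c2, c3]
      ring
    have hb : |swhD K M N| ≤ 1 * (3 / (N : ℝ) ^ 4) + 3 * (1 / (K : ℝ)) * (1 / (N : ℝ) ^ 3) +
        3 * (2 / (K : ℝ) ^ 2) * (1 / (2 * (N : ℝ) ^ 2)) +
        (4 / (K : ℝ) ^ 3) * (1 / (2 * (N : ℝ))) := by
      rw [e]
      refine (abs_add_le _ _).trans (add_le_add ((abs_add_le _ _).trans (add_le_add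
        ((abs_add_le _ _).trans (add_le_add ?_ ?_)) ?_)) ?_)
      · rw [abs_mul, abs_of_nonneg q0]
        exact mul_le_mul q0' p3 (abs_nonneg _) (by norm_num)
      · rw [abs_mul, abs_mul, abs_of_pos (by norm_num : (0 : ℝ) < 3)]
        exact mul_le_mul (mul_le_mul_of_nonneg_left q1 (by norm_num)) p2 (abs_nonneg _)
          (by positivity)
      · rw [abs_mul, abs_mul, abs_of_pos (by norm_num : (0 : ℝ) < 3)]
        exact mul_le_mul (mul_le_mul_of_nonneg_left q2 (by norm_num)) p1 (abs_nonneg _)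
          (by positivity)
      · rw [abs_mul, abs_of_pos (by positivity : (0 : ℝ) < 1 / (2 * (N : ℝ)))]
        exact mul_le_mul_of_nonneg_right q3 (by positivity)
    have h1 : (N : ℝ) ^ 3 * |swhD K M N| ≤
        3 / N + 3 * (1 / K) + 3 * (N / K ^ 2) + 2 * (N ^ 2 / K ^ 3) := by
      calc (N : ℝ) ^ 3 * |swhD K M N| ≤ (N : ℝ) ^ 3 * (1 * (3 / (N : ℝ) ^ 4) +
          3 * (1 / (K : ℝ)) * (1 / (N : ℝ) ^ 3) + 3 * (2 / (K : ℝ) ^ 2) * (1 / (2 * (N : ℝ) ^ 2)) +
          (4 / (K : ℝ) ^ 3) * (1 / (2 * (N : ℝ)))) :=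
            mul_le_mul_of_nonneg_left hb (by positivity)
        _ = _ := by
            field_simp
            ring
    have h2 : (1 : ℝ) / K ≤ N ^ 2 / K ^ 3 := by
      rw [div_le_div_iff₀ hK' (by positivity)]
      have : (K : ℝ) ^ 2 ≤ N ^ 2 := pow_le_pow_left₀ hK'.le hKN 2
      nlinarith only [this]
    have h3 : (N : ℝ) / K ^ 2 ≤ N ^ 2 / K ^ 3 := by
      rw [div_le_div_iff₀ (by positivity) (by positivity)]
      have e1 : (N : ℝ) * K ^ 3 = (N * K ^ 2) * K := by ring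
      have e2 : (N : ℝ) ^ 2 * K ^ 2 = (N * K ^ 2) * N := by ring
      rw [e1, e2]
      exact mul_le_mul_of_nonneg_left hKN (by positivity)
    have h4 : 8 * (N : ℝ) ^ 2 / K ^ 3 = 8 * (N ^ 2 / K ^ 3) := by ring
    rw [h4]
    linarith only [h1, h2, h3]
  · rw [if_neg hy, add_zero]
    have o0 : swhP K M N = 1 := swhP_eq_one K M hK N (by omega)
    have o1 : swhP K M (N + 1) = 1 := swhP_eq_one K M hK (N + 1) (by omega)
    have o2 : swhP K M (N + 2) = 1 := swhP_eq_one K M hK (N + 2) (by omega)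
    have o3 : swhP K M (N + 3) = 1 := swhP_eq_one K M hK (N + 3) (by omega)
    have e : swhD K M N = 1 / (2 * ((N : ℝ) + 3)) - 3 * (1 / (2 * ((N : ℝ) + 2))) +
          3 * (1 / (2 * ((N : ℝ) + 1))) - 1 / (2 * (N : ℝ)) := by
      unfold swhD swhW
      rw [c1, c2, c3, o0, o1, o2, o3]
      ring
    rw [e]
    calc (N : ℝ) ^ 3 * _ ≤ (N : ℝ) ^ 3 * (3 / (N : ℝ) ^ 4) :=
          mul_le_mul_of_nonneg_left p3 (by positivity)
      _ = 3 / N := by field_simp

theorem swh_tel (w : ℕ → ℝ) (n L : ℕ) :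
    ∑ m ∈ range L, (m : ℝ) ^ 2 * (w (n + m + 3) - 3 * w (n + m + 2) + 3 * w (n + m + 1) -
      w (n + m)) = -w (n + 1) - w (n + 2) + ((L : ℝ) - 1) ^ 2 * w (n + L + 2) +
      (((L : ℝ) - 2) ^ 2 - 3 * ((L : ℝ) - 1) ^ 2) * w (n + L + 1) + (L : ℝ) ^ 2 * w (n + L) := by
  induction L with
  | zero =>
    simp
    ring
  | succ L ih =>
    rw [Finset.sum_range_succ, ih]
    have e1 : n + (L + 1) + 2 = n + L + 3 := by ring
    have e2 : n + (L + 1) + 1 = n + L + 2 := by ring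
    have e3 : n + (L + 1) = n + L + 1 := by ring
    rw [e1, e2, e3]
    push_cast
    ring

theorem swh_inner (K M n : ℕ) (hn : n ≤ M) :
    ∑ N ∈ Icc n M, ((N : ℝ) - n) ^ 2 * (-swhD K M N) = swhW K M (n + 1) + swhW K M (n + 2) := by
  have h0 : ∀ N, M < N → swhW K M N = 0 := by
    intro N hN
    unfold swhW
    rw [swhP_eq_zero K M N hN, zero_mul]
  have h1 := swh_tel (swhW K M) n (M + 1 - n)
  rw [show n + (M + 1 - n) = M + 1 by omega, h0 (M + 1) (by omega), h0 (M + 1 + 1) (by omega),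
    h0 (M + 1 + 2) (by omega)] at h1
  have h2 : Icc n M = Ico n (M + 1) := by
    ext x
    simp only [mem_Icc, mem_Ico]
    omega
  rw [h2, Finset.sum_Ico_eq_sum_range]
  have h3 : ∑ k ∈ range (M + 1 - n), (((n + k : ℕ) : ℝ) - n) ^ 2 * (-swhD K M (n + k)) =
      -∑ m ∈ range (M + 1 - n), (m : ℝ) ^ 2 * (swhW K M (n + m + 3) - 3 * swhW K M (n + m + 2) +
        3 * swhW K M (n + m + 1) - swhW K M (n + m)) := by
    rw [← Finset.sum_neg_distrib]
    refine Finset.sum_congr rfl fun m _ => ?_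
    unfold swhD
    push_cast
    ring
  rw [h3, h1]
  ring

theorem swh_ident (K M : ℕ) (a : ℕ → ℂ) :
    ∑ n ∈ Icc 1 M, (((n : ℝ) * (swhW K M (n + 1) + swhW K M (n + 2)) : ℝ) : ℂ) * a n =
      ∑ N ∈ Icc 1 M, ((-swhD K M N : ℝ) : ℂ) *
        ∑ n ∈ Icc 1 N, (((n : ℝ) * ((N : ℝ) - n) ^ 2 : ℝ) : ℂ) * a n := by
  have h1 : ∑ N ∈ Icc 1 M, ((-swhD K M N : ℝ) : ℂ) *
        ∑ n ∈ Icc 1 N, (((n : ℝ) * ((N : ℝ) - n) ^ 2 : ℝ) : ℂ) * a n =
      ∑ N ∈ Icc 1 M, ∑ n ∈ Icc 1 N,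
        ((((N : ℝ) - n) ^ 2 * (-swhD K M N) : ℝ) : ℂ) * (((n : ℝ) : ℂ) * a n) := by
    refine Finset.sum_congr rfl fun N _ => ?_
    rw [Finset.mul_sum]
    refine Finset.sum_congr rfl fun n _ => ?_
    push_cast
    ring
  rw [h1, Finset.sum_comm' (t' := Icc 1 M) (s' := fun n => Icc n M) (by
    intro x y
    simp only [mem_Icc]
    omega)]
  refine Finset.sum_congr rfl fun n hn => ?_
  rw [← Finset.sum_mul, ← Complex.ofReal_sum, swh_inner K M n (mem_Icc.1 hn).2]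
  push_cast
  ring

theorem swh_S (a : ℕ → ℂ) (N : ℕ) (hN : 1 ≤ N) :
    ∑ n ∈ Icc 1 N, (((n : ℝ) * ((N : ℝ) - n) ^ 2 : ℝ) : ℂ) * a n =
      (((N : ℝ) ^ 3 : ℝ) : ℂ) * ∑ n ∈ Icc 1 N, a n * ((om ((n : ℝ) / N) : ℝ) : ℂ) := by
  have hN0 : (0 : ℝ) < N := Nat.cast_pos.2 hN
  rw [Finset.mul_sum]
  refine Finset.sum_congr rfl fun n hn => ?_
  obtain ⟨h1, h2⟩ := mem_Icc.1 hn
  have h3 : om ((n : ℝ) / N) = (n : ℝ) / N * (1 - (n : ℝ) / N) ^ 2 := by
    unfold om
    rw [if_pos]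
    refine ⟨by positivity, ?_⟩
    rw [div_le_one hN0]
    exact_mod_cast h2
  have h4 : (N : ℝ) ^ 3 * om ((n : ℝ) / N) = (n : ℝ) * ((N : ℝ) - n) ^ 2 := by
    rw [h3]
    field_simp
  rw [← h4]
  push_cast
  ring

theorem swh_abel (b : ℕ → ℝ) (Y : ℕ) :
    ∑ n ∈ Icc 1 Y, b n / n = (∑ n ∈ Icc 1 Y, b n) / (Y + 1) +
      ∑ k ∈ Icc 1 Y, (∑ n ∈ Icc 1 k, b n) / ((k : ℝ) * (k + 1)) := by
  induction Y with
  | zero => simp
  | succ Y ih =>
    rw [Finset.sum_Icc_succ_top (by omega), Finset.sum_Icc_succ_top (by omega) (f := fun k =>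
      (∑ n ∈ Icc 1 k, b n) / ((k : ℝ) * (k + 1))), ih, Finset.sum_Icc_succ_top (by omega) (f := b)]
    push_cast
    have h1 : (0 : ℝ) < (Y : ℝ) + 1 := by positivity
    field_simp
    ring

theorem swh_harm (M : ℕ) : ∑ N ∈ Icc 1 M, (1 : ℝ) / N ≤ 1 + Real.log M := by
  have h := harmonic_le_one_add_log M
  rw [harmonic_eq_sum_Icc] at h
  push_cast at h
  simpa using h

theorem swh_tele (Y : ℕ) : ∑ k ∈ Icc 1 Y, (1 : ℝ) / ((k : ℝ) * (k + 1)) = 1 - 1 / (Y + 1) := by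
  induction Y with
  | zero => simp
  | succ Y ih =>
    rw [Finset.sum_Icc_succ_top (by omega), ih]
    push_cast
    field_simp
    ring

theorem swh_logsum (b : ℕ → ℝ) (H P : ℝ) (hH : 0 ≤ H) (hP : 1 ≤ P) (Y : ℕ)
    (hb : ∀ k, k ≤ Y → ∑ n ∈ Icc 1 k, b n ≤ H * (k + P)) :
    ∑ n ∈ Icc 1 Y, b n / n ≤ H * (4 * P + Real.log Y) := by
  rw [swh_abel]
  have hY : (0 : ℝ) ≤ Y := Nat.cast_nonneg _
  have h1 : (∑ n ∈ Icc 1 Y, b n) / ((Y : ℝ) + 1) ≤ H * (1 + P) := by
    rw [div_le_iff₀ (by positivity)]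
    refine (hb Y le_rfl).trans ?_
    rw [mul_assoc]
    refine mul_le_mul_of_nonneg_left ?_ hH
    nlinarith
  have h2 : ∑ k ∈ Icc 1 Y, (∑ n ∈ Icc 1 k, b n) / ((k : ℝ) * (k + 1)) ≤
      H * (1 + Real.log Y + P) := by
    calc ∑ k ∈ Icc 1 Y, (∑ n ∈ Icc 1 k, b n) / ((k : ℝ) * (k + 1))
        ≤ ∑ k ∈ Icc 1 Y, (H * (1 / (k : ℝ)) + H * P * (1 / ((k : ℝ) * (k + 1)))) := by
          refine Finset.sum_le_sum fun k hk => ?_
          obtain ⟨hk1, hk2⟩ := mem_Icc.1 hk
          have hk0 : (1 : ℝ) ≤ k := by exact_mod_cast hk1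
          have hk0' : (0 : ℝ) < k := by linarith only [hk0]
          have e : H * (1 / (k : ℝ)) + H * P * (1 / ((k : ℝ) * (k + 1))) =
              H * ((k : ℝ) + 1 + P) / ((k : ℝ) * (k + 1)) := by
            field_simp
          rw [e]
          refine div_le_div_of_nonneg_right ?_ (by positivity)
          refine (hb k hk2).trans (mul_le_mul_of_nonneg_left (by linarith only) hH)
      _ = H * (∑ k ∈ Icc 1 Y, 1 / (k : ℝ)) + H * P * ∑ k ∈ Icc 1 Y, 1 / ((k : ℝ) * (k + 1)) := by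
          rw [Finset.sum_add_distrib, Finset.mul_sum, Finset.mul_sum]
      _ ≤ H * (1 + Real.log Y) + H * P * 1 := by
          refine add_le_add (mul_le_mul_of_nonneg_left (swh_harm Y) hH)
            (mul_le_mul_of_nonneg_left ?_ (by positivity))
          rw [swh_tele]
          have : (0 : ℝ) ≤ 1 / ((Y : ℝ) + 1) := by positivity
          linarith
      _ = _ := by ring
  have h3 : H * (1 + P) + H * (1 + Real.log Y + P) ≤ H * (4 * P + Real.log Y) := by
    nlinarith only [hH, hP]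
  linarith only [h1, h2, h3]

theorem swh_c_bounds (K M : ℕ) (hK : 0 < K) (n : ℕ) :
    0 ≤ (n : ℝ) * (swhW K M (n + 1) + swhW K M (n + 2)) ∧
      (n : ℝ) * (swhW K M (n + 1) + swhW K M (n + 2)) ≤ 1 := by
  have hn : (0 : ℝ) ≤ n := Nat.cast_nonneg _
  have a1 := swhP_nonneg K M (n + 1)
  have a2 := swhP_nonneg K M (n + 2)
  have a3 := swhP_le_one K M hK (n + 1)
  have a4 := swhP_le_one K M hK (n + 2)
  have c1 : ((n + 1 : ℕ) : ℝ) = (n : ℝ) + 1 := by push_cast; ring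
  have c2 : ((n + 2 : ℕ) : ℝ) = (n : ℝ) + 2 := by push_cast; ring
  have w1 : swhW K M (n + 1) ≤ 1 / (2 * ((n : ℝ) + 1)) := by
    unfold swhW
    rw [c1]
    calc _ ≤ 1 * (1 / (2 * ((n : ℝ) + 1))) := mul_le_mul_of_nonneg_right a3 (by positivity)
      _ = _ := one_mul _
  have w2 : swhW K M (n + 2) ≤ 1 / (2 * ((n : ℝ) + 2)) := by
    unfold swhW
    rw [c2]
    calc _ ≤ 1 * (1 / (2 * ((n : ℝ) + 2))) := mul_le_mul_of_nonneg_right a4 (by positivity)
      _ = _ := one_mul _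
  have w1' : 0 ≤ swhW K M (n + 1) := by
    unfold swhW
    positivity
  have w2' : 0 ≤ swhW K M (n + 2) := by
    unfold swhW
    positivity
  refine ⟨by positivity, ?_⟩
  calc (n : ℝ) * (swhW K M (n + 1) + swhW K M (n + 2))
      ≤ (n : ℝ) * (1 / (2 * ((n : ℝ) + 1)) + 1 / (2 * ((n : ℝ) + 2))) :=
        mul_le_mul_of_nonneg_left (add_le_add w1 w2) hn
    _ ≤ 1 := by
        have e : (n : ℝ) * (1 / (2 * ((n : ℝ) + 1)) + 1 / (2 * ((n : ℝ) + 2))) =
          (n : ℝ) * (2 * n + 3) / (2 * ((n : ℝ) + 1) * ((n : ℝ) + 2)) := by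
            field_simp
            ring
        rw [e, div_le_one (by positivity)]
        nlinarith only

theorem swh_c_low (K y : ℕ) (hK : 0 < K) (n : ℕ) (hn : 1 ≤ n) (hny : n ≤ y) :
    1 - (n : ℝ) * (swhW K (y + 2 + 3 * K) (n + 1) + swhW K (y + 2 + 3 * K) (n + 2)) ≤
      2 / (n : ℝ) := by
  have hn0 : (1 : ℝ) ≤ n := by exact_mod_cast hn
  have c1 : ((n + 1 : ℕ) : ℝ) = (n : ℝ) + 1 := by push_cast; ring
  have c2 : ((n + 2 : ℕ) : ℝ) = (n : ℝ) + 2 := by push_cast; ring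
  unfold swhW
  rw [swhP_eq_one K _ hK (n + 1) (by omega), swhP_eq_one K _ hK (n + 2) (by omega), c1, c2]
  have e : 1 - (n : ℝ) * (1 * (1 / (2 * ((n : ℝ) + 1))) + 1 * (1 / (2 * ((n : ℝ) + 2)))) =
      (3 * (n : ℝ) + 4) / (2 * ((n : ℝ) + 1) * ((n : ℝ) + 2)) := by
    field_simp
    ring
  rw [e, div_le_div_iff₀ (by positivity) (by positivity)]
  nlinarith only [hn0]

theorem smooth_to_sharp : ∃ C : ℝ, 0 < C ∧ ∀ (a : ℕ → ℂ) (B H P : ℝ) (y : ℕ) (δ : ℝ),
    0 ≤ B → 0 ≤ H → 1 ≤ P → 2 ≤ y → 0 < δ → δ ≤ 1 / 2 →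
    (∀ N : ℕ, 1 ≤ N → N ≤ 2 * y → ‖∑ n ∈ Icc 1 N, a n * ((om ((n : ℝ) / N) : ℝ) : ℂ)‖ ≤ B) →
    (∀ u v : ℕ, u ≤ v → v ≤ 2 * y → ∑ n ∈ Ioc u v, ‖a n‖ ≤ H * ((v : ℝ) - u + P)) →
    ‖∑ n ∈ Icc 1 y, a n‖
      ≤ C * (B * (1 / δ ^ 3 + Real.log y) + H * (δ * y + Real.log y + P / δ ^ 3)) := by
  refine ⟨30000, by norm_num, fun a B H P y δ hB hH hP hy hδ hδ2 hS hA => ?_⟩
  have hy0 : (2 : ℝ) ≤ y := by exact_mod_cast hy
  have hlog0 : 0 ≤ Real.log y := Real.log_nonneg (by linarith only [hδ, hδ2, hy0])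
  have hlog2 : Real.log 2 ≤ Real.log y := Real.log_le_log (by norm_num) hy0
  have hδ3 : 0 < δ ^ 3 := by positivity
  have hd1 : 1 / δ ≤ 1 / δ ^ 3 := by
    refine one_div_le_one_div_of_le hδ3 ?_
    nlinarith only [hδ, hδ2, sq_nonneg δ, mul_pos hδ hδ]
  have hd2 : 1 / δ ^ 2 ≤ 1 / δ ^ 3 := by
    refine one_div_le_one_div_of_le hδ3 ?_
    nlinarith only [hδ, hδ2, sq_nonneg δ, mul_pos hδ hδ]
  have hd0 : 1 ≤ 1 / δ ^ 3 := by
    rw [le_div_iff₀ hδ3]
    nlinarith only [hδ, hδ2, sq_nonneg δ, mul_pos hδ hδ]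
  have hP3 : P ≤ P / δ ^ 3 := by
    rw [div_eq_mul_one_div]
    nlinarith only [hd0, hP]
  have hIcc : ∀ N : ℕ, Icc 1 N = Ioc 0 N := by
    intro N
    ext x
    simp only [mem_Icc, mem_Ioc]
    omega
  have hA0 : ∀ k : ℕ, k ≤ 2 * y → ∑ n ∈ Icc 1 k, ‖a n‖ ≤ H * ((k : ℝ) + P) := by
    intro k hk
    rw [hIcc]
    have := hA 0 k (Nat.zero_le _) hk
    simpa using this
  rcases lt_or_ge (δ * y) 6 with hsmall | hbig
  · -- trivial bound
    have h1 : ‖∑ n ∈ Icc 1 y, a n‖ ≤ H * ((y : ℝ) + P) :=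
      (norm_sum_le _ _).trans (hA0 y (by omega))
    have h2 : (y : ℝ) ≤ 6 * (1 / δ) := by
      rw [mul_one_div, le_div_iff₀ hδ]
      linarith
    have h3 : (y : ℝ) + P ≤ 7 * (P / δ ^ 3) := by
      have e1 : 6 * (1 / δ) ≤ 6 * (P / δ ^ 3) := by
        have : 1 / δ ^ 3 ≤ P / δ ^ 3 := div_le_div_of_nonneg_right hP hδ3.le
        linarith only [hd1, this]
      linarith
    have h4 : H * ((y : ℝ) + P) ≤ 7 * (H * (P / δ ^ 3)) := by
      calc H * ((y : ℝ) + P) ≤ H * (7 * (P / δ ^ 3)) := mul_le_mul_of_nonneg_left h3 hH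
        _ = _ := by ring
    have h5 : 0 ≤ B * (1 / δ ^ 3 + Real.log y) := by positivity
    have h6 : 0 ≤ H * (δ * y + Real.log y) := by positivity
    have h7 : 0 ≤ H * (P / δ ^ 3) := by positivity
    have h8 : H * (δ * y + Real.log y + P / δ ^ 3) = H * (δ * y + Real.log y) + H * (P / δ ^ 3) := by
      ring
    rw [h8]
    linarith only [h1, h4, h5, h6, h7]
  · set K := ⌊δ * y / 6⌋₊ with hKdef
    have hKr : (K : ℝ) ≤ δ * y / 6 := Nat.floor_le (by positivity)
    have hKr2 : δ * y / 6 < K + 1 := Nat.lt_floor_add_one _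
    have hK : 0 < K := by
      rw [hKdef, Nat.floor_pos]
      linarith only [hbig]
    have hK1 : (1 : ℝ) ≤ K := by exact_mod_cast hK
    have hK' : (0 : ℝ) < K := by linarith only [hδ, hδ2, hK1]
    have hK12 : δ * y / 12 ≤ K := by linarith only [hKr2, hK1]
    have hy12 : (12 : ℝ) ≤ y := by nlinarith only [hbig, hδ2]
    have hKy' : (K : ℝ) ≤ y / 12 := by nlinarith
    have hKy : K ≤ y := by
      have : (K : ℝ) ≤ y := by linarith only [hδ, hδ2, hy12, hKy']
      exact_mod_cast this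
    set M := y + 2 + 3 * K with hM
    have hMr : (M : ℝ) = y + 2 + 3 * K := by rw [hM]; push_cast; ring
    have hM2r : (M : ℝ) ≤ 2 * y := by rw [hMr]; linarith only [hδ, hδ2, hy12, hKy']
    have hM2 : M ≤ 2 * y := by exact_mod_cast hM2r
    have hM0 : (0 : ℝ) < M := by rw [hMr]; positivity
    set c : ℕ → ℝ := fun n => (n : ℝ) * (swhW K M (n + 1) + swhW K M (n + 2)) with hc
    -- the smooth part
    have hI : ‖∑ n ∈ Icc 1 M, ((c n : ℝ) : ℂ) * a n‖ ≤
        B * (3 * (1 + Real.log M) + 27648 * (1 / δ ^ 2)) := by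
      rw [hc]
      simp only []
      rw [swh_ident K M a]
      calc ‖∑ N ∈ Icc 1 M, ((-swhD K M N : ℝ) : ℂ) *
            ∑ n ∈ Icc 1 N, (((n : ℝ) * ((N : ℝ) - n) ^ 2 : ℝ) : ℂ) * a n‖
          ≤ ∑ N ∈ Icc 1 M, B * (3 / (N : ℝ) + (if y ≤ N then 8 * (N : ℝ) ^ 2 / K ^ 3 else 0)) := by
            refine (norm_sum_le _ _).trans (Finset.sum_le_sum fun N hN => ?_)
            obtain ⟨hN1, hN2⟩ := mem_Icc.1 hN
            rw [swh_S a N hN1, norm_mul, norm_mul, Complex.norm_real, Complex.norm_real,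
              Real.norm_eq_abs, Real.norm_eq_abs, abs_neg,
              abs_of_nonneg (by positivity : (0 : ℝ) ≤ (N : ℝ) ^ 3)]
            have h1 := hS N hN1 (hN2.trans hM2)
            have h2 := swhD_bound K y hK hKy N hN1
            calc |swhD K M N| * ((N : ℝ) ^ 3 *
                  ‖∑ n ∈ Icc 1 N, a n * ((om ((n : ℝ) / N) : ℝ) : ℂ)‖)
                ≤ |swhD K M N| * ((N : ℝ) ^ 3 * B) := by
                  refine mul_le_mul_of_nonneg_left ?_ (abs_nonneg _)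
                  exact mul_le_mul_of_nonneg_left h1 (by positivity)
              _ = B * ((N : ℝ) ^ 3 * |swhD K M N|) := by ring
              _ ≤ _ := mul_le_mul_of_nonneg_left h2 hB
        _ = B * (3 * (∑ N ∈ Icc 1 M, 1 / (N : ℝ)) +
            ∑ N ∈ Icc 1 M, (if y ≤ N then 8 * (N : ℝ) ^ 2 / K ^ 3 else 0)) := by
            rw [← Finset.mul_sum, Finset.sum_add_distrib]
            congr 2
            rw [Finset.mul_sum]
            exact Finset.sum_congr rfl fun N _ => by ring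
        _ ≤ B * (3 * (1 + Real.log M) + 27648 * (1 / δ ^ 2)) := by
            refine mul_le_mul_of_nonneg_left (add_le_add
              (mul_le_mul_of_nonneg_left (swh_harm M) (by norm_num)) ?_) hB
            rw [← Finset.sum_filter]
            have hcard : ((Icc 1 M).filter (fun N => y ≤ N)).card ≤ 3 * K + 3 := by
              calc ((Icc 1 M).filter (fun N => y ≤ N)).card ≤ (Icc y M).card := by
                    refine Finset.card_le_card fun x hx => ?_
                    rw [Finset.mem_filter, mem_Icc] at hx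
                    exact mem_Icc.2 ⟨hx.2, hx.1.2⟩
                _ = 3 * K + 3 := by
                    rw [Nat.card_Icc]
                    omega
            have hb : ∀ N ∈ (Icc 1 M).filter (fun N => y ≤ N),
                8 * (N : ℝ) ^ 2 / K ^ 3 ≤ 8 * (M : ℝ) ^ 2 / K ^ 3 := by
              intro N hN
              rw [Finset.mem_filter, mem_Icc] at hN
              have : (N : ℝ) ≤ M := by exact_mod_cast hN.1.2
              gcongr
            have h3 := Finset.sum_le_card_nsmul _ _ _ hb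
            rw [nsmul_eq_mul] at h3
            refine h3.trans ?_
            have h4 : ((((Icc 1 M).filter (fun N => y ≤ N)).card : ℕ) : ℝ) ≤ 6 * K := by
              have : ((((Icc 1 M).filter (fun N => y ≤ N)).card : ℕ) : ℝ) ≤ 3 * K + 3 := by
                exact_mod_cast hcard
              linarith only [hK1, this]
            calc _ ≤ (6 * K) * (8 * (M : ℝ) ^ 2 / K ^ 3) :=
                  mul_le_mul_of_nonneg_right h4 (by positivity)
              _ = 48 * ((M : ℝ) / K) ^ 2 := by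
                  field_simp
                  ring
              _ ≤ 48 * (24 / δ) ^ 2 := by
                  have h5 : (M : ℝ) / K ≤ 24 / δ := by
                    rw [div_le_div_iff₀ hK' hδ]
                    nlinarith only [hδ, hδ2, hK1, hMr, hKy', hKr2]
                  have h6 : 0 ≤ (M : ℝ) / K := by positivity
                  have h7 := pow_le_pow_left₀ h6 h5 2
                  linarith only [h7]
              _ = 27648 * (1 / δ ^ 2) := by
                  field_simp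
                  ring
    -- decomposition
    have hdec : ∑ n ∈ Icc 1 y, a n = ∑ n ∈ Icc 1 M, ((c n : ℝ) : ℂ) * a n +
        ∑ n ∈ Icc 1 y, ((1 - c n : ℝ) : ℂ) * a n - ∑ n ∈ Ioc y M, ((c n : ℝ) : ℂ) * a n := by
      have h1 : ∑ n ∈ Icc 1 M, ((c n : ℝ) : ℂ) * a n = ∑ n ∈ Icc 1 y, ((c n : ℝ) : ℂ) * a n +
          ∑ n ∈ Ioc y M, ((c n : ℝ) : ℂ) * a n := by
        rw [hIcc, hIcc]
        exact (Finset.sum_Ioc_consecutive _ (Nat.zero_le y) (by omega)).symm
      have h2 : ∑ n ∈ Icc 1 y, a n = ∑ n ∈ Icc 1 y, ((c n : ℝ) : ℂ) * a n +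
          ∑ n ∈ Icc 1 y, ((1 - c n : ℝ) : ℂ) * a n := by
        rw [← Finset.sum_add_distrib]
        refine Finset.sum_congr rfl fun n _ => ?_
        push_cast
        ring
      rw [h1, h2]
      ring
    have hII : ‖∑ n ∈ Icc 1 y, ((1 - c n : ℝ) : ℂ) * a n‖ ≤ 2 * (H * (4 * P + Real.log y)) := by
      calc ‖∑ n ∈ Icc 1 y, ((1 - c n : ℝ) : ℂ) * a n‖
          ≤ ∑ n ∈ Icc 1 y, 2 * (‖a n‖ / n) := by
            refine (norm_sum_le _ _).trans (Finset.sum_le_sum fun n hn => ?_)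
            obtain ⟨h1, h2⟩ := mem_Icc.1 hn
            rw [norm_mul, Complex.norm_real, Real.norm_eq_abs]
            have h3 := swh_c_low K y hK n h1 h2
            have h4 := (swh_c_bounds K M hK n).2
            have h5 : 0 ≤ 1 - c n := by
              rw [hc]
              simp only []
              linarith only [h4]
            rw [abs_of_nonneg h5]
            calc (1 - c n) * ‖a n‖ ≤ (2 / (n : ℝ)) * ‖a n‖ :=
                  mul_le_mul_of_nonneg_right h3 (norm_nonneg _)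
              _ = 2 * (‖a n‖ / n) := by ring
        _ = 2 * ∑ n ∈ Icc 1 y, ‖a n‖ / n := by rw [Finset.mul_sum]
        _ ≤ 2 * (H * (4 * P + Real.log y)) :=
            mul_le_mul_of_nonneg_left (swh_logsum (fun n => ‖a n‖) H P hH hP y
              (fun k hk => hA0 k (by omega))) (by norm_num)
    have hIII : ‖∑ n ∈ Ioc y M, ((c n : ℝ) : ℂ) * a n‖ ≤ H * (δ * y + 3 * P) := by
      calc ‖∑ n ∈ Ioc y M, ((c n : ℝ) : ℂ) * a n‖ ≤ ∑ n ∈ Ioc y M, ‖a n‖ := by
            refine (norm_sum_le _ _).trans (Finset.sum_le_sum fun n _ => ?_)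
            rw [norm_mul, Complex.norm_real, Real.norm_eq_abs]
            obtain ⟨h3, h4⟩ := swh_c_bounds K M hK n
            rw [hc]
            simp only []
            rw [abs_of_nonneg h3]
            calc _ ≤ 1 * ‖a n‖ := mul_le_mul_of_nonneg_right h4 (norm_nonneg _)
              _ = _ := one_mul _
        _ ≤ H * ((M : ℝ) - y + P) := hA y M (by omega) hM2
        _ ≤ H * (δ * y + 3 * P) := by
            refine mul_le_mul_of_nonneg_left ?_ hH
            rw [hMr]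
            linarith only [hP, hδ, hδ2, hbig, hKr]
    have hlogM : Real.log M ≤ 2 * Real.log y := by
      calc Real.log M ≤ Real.log (2 * y) := Real.log_le_log hM0 hM2r
        _ = Real.log 2 + Real.log y := Real.log_mul (by norm_num) (by positivity)
        _ ≤ 2 * Real.log y := by linarith only [hlog2]
    have htot : ‖∑ n ∈ Icc 1 y, a n‖ ≤ B * (3 * (1 + Real.log M) + 27648 * (1 / δ ^ 2)) +
        2 * (H * (4 * P + Real.log y)) + H * (δ * y + 3 * P) := by
      rw [hdec]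
      refine (norm_sub_le _ _).trans (add_le_add ((norm_add_le _ _).trans (add_le_add hI hII)) hIII)
    have f1 : B * (3 * (1 + Real.log M) + 27648 * (1 / δ ^ 2)) ≤
        30000 * (B * (1 / δ ^ 3 + Real.log y)) := by
      have : 3 * (1 + Real.log M) + 27648 * (1 / δ ^ 2) ≤ 30000 * (1 / δ ^ 3 + Real.log y) := by
        linarith only [hδ, hδ2, hlog0, hd2, hd0, hlogM]
      calc _ ≤ B * (30000 * (1 / δ ^ 3 + Real.log y)) := mul_le_mul_of_nonneg_left this hB
        _ = _ := by ring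
    have f2 : 2 * (H * (4 * P + Real.log y)) + H * (δ * y + 3 * P) ≤
        30000 * (H * (δ * y + Real.log y + P / δ ^ 3)) := by
      have h1 : 0 ≤ δ * y := by positivity
      have h2 : 2 * (4 * P + Real.log y) + (δ * y + 3 * P) ≤
          30000 * (δ * y + Real.log y + P / δ ^ 3) := by
        have h3 : 0 ≤ P / δ ^ 3 := by positivity
        linarith only [hP, hδ, hδ2, hlog0, hP3, hbig]
      calc 2 * (H * (4 * P + Real.log y)) + H * (δ * y + 3 * P)
          = H * (2 * (4 * P + Real.log y) + (δ * y + 3 * P)) := by ring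
        _ ≤ H * (30000 * (δ * y + Real.log y + P / δ ^ 3)) := mul_le_mul_of_nonneg_left h2 hH
        _ = _ := by ring
    linarith only [htot, f1, f2]

end Pool.Agent.H91.EHA

end

section

/-!
# The series of `(Λ(n) - 1)(log n)^k` for `|Im s| ≤ 1`

The series is `(-1)^k G^{(k)}(s)`, `G = -ζ'/ζ - ζ`, and `G` extends to a function analytic in a neighbourhood of
`{1 ≤ Re s ≤ 2, |Im s| ≤ 1}`: `ζ(s) = h(s)/(s-1)` with `h` entire (removable singularity), `h(1) = 1`,
`h ≠ 0` on `Re s ≥ 1` (`riemannZeta_ne_zero_of_one_le_re`), so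
`-ζ'/ζ - ζ = -h'/h + 1/(s-1) - h/(s-1) = -h'/h - (h(s)-h(1))/(s-1)`.
A continuous function on a compact set is bounded.
-/

set_option autoImplicit false

namespace Pool.Agent.H91.EHA

open Finset
open Pool.Agent.H91.PK

/-- The function `Λ - 1` with complex values. -/
private noncomputable def swj2F (n : ℕ) : ℂ := ((Lam n : ℝ) : ℂ) - 1

/-- The analytic continuation of `-ζ'/ζ - ζ`. -/
private noncomputable def swj2G (s : ℂ) : ℂ :=
  -(deriv riemannZeta₁ s / riemannZeta₁ s) - riemannZeta₀ s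

private theorem swj2_ne (s : ℂ) (hs : 1 ≤ s.re) : riemannZeta₁ s ≠ 0 := by
  by_cases h1 : s = 1
  · rw [h1, riemannZeta₁_one]
    exact one_ne_zero
  · intro h0
    have h2 := riemannZeta_ne_zero_of_one_le_re hs
    apply h2
    rw [riemannZeta_eq_inv_sub_mul h1, h0, mul_zero]

private theorem swj2_analytic (s : ℂ) (hs : 1 ≤ s.re) : AnalyticAt ℂ swj2G s := by
  have h1 : AnalyticAt ℂ riemannZeta₁ s := differentiable_riemannZeta₁.analyticAt s
  have h0 : AnalyticAt ℂ riemannZeta₀ s := differentiable_riemannZeta₀.analyticAt s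
  exact ((h1.deriv.div h1 (swj2_ne s hs)).neg).sub h0

private theorem swj2_summable (s : ℂ) (hs : 1 < s.re) : LSeriesSummable swj2F s := by
  have h1 : LSeriesSummable (fun n : ℕ => ((ArithmeticFunction.vonMangoldt n : ℝ) : ℂ)) s :=
    ArithmeticFunction.LSeriesSummable_vonMangoldt hs
  have h2 : LSeriesSummable (1 : ℕ → ℂ) s := LSeriesSummable_one_iff.mpr hs
  exact h1.sub h2

private theorem swj2_eq (s : ℂ) (hs : 1 < s.re) : LSeries swj2F s = swj2G s := by
  have h1 : LSeriesSummable (fun n : ℕ => ((ArithmeticFunction.vonMangoldt n : ℝ) : ℂ)) s :=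
    ArithmeticFunction.LSeriesSummable_vonMangoldt hs
  have h2 : LSeriesSummable (1 : ℕ → ℂ) s := LSeriesSummable_one_iff.mpr hs
  have h3 : LSeries swj2F s = LSeries (fun n : ℕ => ((ArithmeticFunction.vonMangoldt n : ℝ) : ℂ)) s -
      LSeries 1 s := LSeries_sub h1 h2
  have hne : s ≠ 1 := by
    intro h
    rw [h, Complex.one_re] at hs
    exact lt_irrefl _ hs
  have hz1 := swj2_ne s hs.le
  have hs1 : s - 1 ≠ 0 := sub_ne_zero.mpr hne
  rw [h3, ArithmeticFunction.LSeries_vonMangoldt_eq_deriv_riemannZeta_div hs,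
    LSeries_one_eq_riemannZeta hs, deriv_riemannZeta_eq_neg_inv_sub_sq_mul_add hne]
  have h4 : riemannZeta s = (s - 1)⁻¹ * riemannZeta₁ s := riemannZeta_eq_inv_sub_mul hne
  have h5 : riemannZeta s = (s - 1)⁻¹ + riemannZeta₀ s := riemannZeta_eq_inv_sub_add hne
  have h6 : riemannZeta₀ s = (s - 1)⁻¹ * riemannZeta₁ s - (s - 1)⁻¹ := by
    rw [← h4, h5]; ring
  unfold swj2G
  rw [h4, h6]
  field_simp
  ring

private theorem swj2_logMul (k n : ℕ) :
    (LSeries.logMul^[k] swj2F) n = Complex.log n ^ k * swj2F n := by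
  induction k generalizing n with
  | zero => simp
  | succ k ih =>
    rw [Function.iterate_succ_apply', LSeries.logMul, ih, pow_succ]
    ring

theorem zetaF_low (k : ℕ) : ∃ C : ℝ, 0 < C ∧ ∀ s : ℂ, 1 < s.re → s.re ≤ 2 → |s.im| ≤ 1 →
    ‖LSeries (fun n => (((Lam n - 1) * Real.log n ^ k : ℝ) : ℂ)) s‖ ≤ C := by
  have hK : IsCompact ((Set.Icc (1 : ℝ) 2) ×ℂ (Set.Icc (-1 : ℝ) 1)) :=
    isCompact_Icc.reProdIm isCompact_Icc
  have hc : ContinuousOn (iteratedDeriv k swj2G) ((Set.Icc (1 : ℝ) 2) ×ℂ (Set.Icc (-1 : ℝ) 1)) := by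
    intro s hs
    rw [iteratedDeriv_eq_iterate]
    exact ((swj2_analytic s hs.1.1).iterated_deriv k).continuousAt.continuousWithinAt
  obtain ⟨B, hB⟩ := hK.exists_bound_of_continuousOn hc
  refine ⟨|B| + 1, by positivity, fun s h1 h2 h3 => ?_⟩
  have hab : LSeries.abscissaOfAbsConv swj2F ≤ ((1 : ℝ) : EReal) := by
    refine LSeries.abscissaOfAbsConv_le_of_forall_lt_LSeriesSummable fun y hy => ?_
    exact swj2_summable y (by simpa using hy)
  have hab2 : LSeries.abscissaOfAbsConv swj2F < (s.re : EReal) :=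
    lt_of_le_of_lt hab (by exact_mod_cast h1)
  have h4 := LSeries_iteratedDeriv (f := swj2F) k hab2
  have h5 : LSeries swj2F =ᶠ[nhds s] swj2G := by
    have ho : IsOpen {z : ℂ | 1 < z.re} := isOpen_lt continuous_const Complex.continuous_re
    filter_upwards [ho.mem_nhds h1] with z hz
    exact swj2_eq z hz
  rw [h5.iteratedDeriv_eq k] at h4
  have h6 : LSeries (fun n => (((Lam n - 1) * Real.log n ^ k : ℝ) : ℂ)) s =
      LSeries (LSeries.logMul^[k] swj2F) s := by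
    refine LSeries_congr (fun {n} _ => ?_) s
    rw [swj2_logMul, Complex.ofReal_mul, Complex.ofReal_pow, Complex.ofReal_log (Nat.cast_nonneg n),
      Complex.ofReal_natCast]
    unfold swj2F
    push_cast
    ring
  have h7 : ‖LSeries (LSeries.logMul^[k] swj2F) s‖ = ‖iteratedDeriv k swj2G s‖ := by
    rw [h4, norm_mul, norm_pow, norm_neg, norm_one, one_pow, one_mul]
  rw [h6, h7]
  have hs : s ∈ (Set.Icc (1 : ℝ) 2) ×ℂ (Set.Icc (-1 : ℝ) 1) :=
    ⟨⟨h1.le, h2⟩, abs_le.mp h3⟩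
  have h8 := hB s hs
  have h9 := le_abs_self B
  linarith

end Pool.Agent.H91.EHA

end

section

/-!
# Smooth sums from Dirichlet series bounds

`om(n/N) = (1/2π) ∫ KK β t (N/n)^{β+it} dt` (`om_fourier'` in `PK/Om.lean`; holds for all `n ≥ 1`, both sides are `0`
for `n > N`).  Take `β = 1 + 1/log N` for `N ≥ 3`, `β = 2` for `N = 2`; interchange sum and integral
(absolutely convergent): `∑ a_n om(n/N) = (1/2π) ∫ KK β t N^{β+it} LSeries a (β+it) dt`;
`N^β ≤ 4 N`, `‖KK β t‖ ≤ 2/(1+t²)^{3/2}`-type decay against `log(|t|+3)^K`.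
-/

set_option autoImplicit false

namespace Pool.Agent.H91.EHA

open Finset
open Pool.Agent.H91.PK
open MeasureTheory

/-- decay of the kernel against a power of the logarithm -/
private theorem swG_kernel (K : ℕ) (β t : ℝ) (hβ : 0 ≤ β) :
    ‖KK β t‖ * Real.log (|t| + 3) ^ K ≤
      1.7544 / (1 / (2 * ((K : ℝ) + 1))) ^ K * (1 + ‖t‖) ^ (-(3 / 2 : ℝ)) := by
  set ε : ℝ := 1 / (2 * ((K : ℝ) + 1)) with hε
  have hK : (0 : ℝ) ≤ K := Nat.cast_nonneg K
  have hε0 : 0 < ε := by positivity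
  have hεK : ε * K ≤ 1 / 2 := by
    rw [hε, div_mul_eq_mul_div, one_mul, div_le_div_iff₀ (by positivity) (by norm_num)]
    nlinarith
  have ht : 0 ≤ |t| := abs_nonneg t
  rw [Real.norm_eq_abs]
  have hx1 : (0 : ℝ) < 1 + |t| := by positivity
  have h1 : ‖KK β t‖ ≤ 0.8772 / (1 + |t|) ^ 2 := by
    refine (norm_KK_le β t hβ).trans ?_
    rw [div_le_div_iff₀ (by positivity) (by positivity)]
    have : t ^ 2 = |t| ^ 2 := (sq_abs t).symm
    rw [this]
    nlinarith [sq_nonneg (1 - |t|)]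
  have h2 : Real.log (|t| + 3) ^ K ≤ 2 / ε ^ K * (1 + |t|) ^ (1 / 2 : ℝ) := by
    have h3 : Real.log (|t| + 3) ≤ (|t| + 3) ^ ε / ε :=
      Real.log_le_rpow_div (by positivity) hε0
    have h4 : 0 ≤ Real.log (|t| + 3) := Real.log_nonneg (by linarith)
    have h5 : Real.log (|t| + 3) ^ K ≤ ((|t| + 3) ^ ε / ε) ^ K := pow_le_pow_left₀ h4 h3 K
    have h6 : ((|t| + 3) ^ ε / ε) ^ K = (|t| + 3) ^ (ε * K) / ε ^ K := by
      rw [div_pow, ← Real.rpow_natCast ((|t| + 3) ^ ε) K, ← Real.rpow_mul (by positivity)]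
    have h7 : (|t| + 3) ^ (ε * K) ≤ (|t| + 3) ^ (1 / 2 : ℝ) :=
      Real.rpow_le_rpow_of_exponent_le (by linarith) hεK
    have h8 : (|t| + 3) ^ (1 / 2 : ℝ) ≤ 2 * (1 + |t|) ^ (1 / 2 : ℝ) := by
      have h9 : (2 : ℝ) * (1 + |t|) ^ (1 / 2 : ℝ) = (4 * (1 + |t|)) ^ (1 / 2 : ℝ) := by
        rw [Real.mul_rpow (by norm_num) (by positivity)]
        congr 1
        rw [← Real.sqrt_eq_rpow, show (4 : ℝ) = 2 ^ 2 by norm_num, Real.sqrt_sq (by norm_num)]
      rw [h9]
      exact Real.rpow_le_rpow (by positivity) (by linarith) (by norm_num)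
    calc Real.log (|t| + 3) ^ K ≤ (|t| + 3) ^ (ε * K) / ε ^ K := by rw [← h6]; exact h5
      _ ≤ (2 * (1 + |t|) ^ (1 / 2 : ℝ)) / ε ^ K := by
          gcongr
          exact h7.trans h8
      _ = 2 / ε ^ K * (1 + |t|) ^ (1 / 2 : ℝ) := by ring
  have h10 : (1 + |t|) ^ (-(3 / 2 : ℝ)) = (1 + |t|) ^ (1 / 2 : ℝ) / (1 + |t|) ^ 2 := by
    rw [← Real.rpow_natCast (1 + |t|) 2, ← Real.rpow_sub hx1]
    norm_num
  calc ‖KK β t‖ * Real.log (|t| + 3) ^ K
      ≤ (0.8772 / (1 + |t|) ^ 2) * (2 / ε ^ K * (1 + |t|) ^ (1 / 2 : ℝ)) := by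
        apply mul_le_mul h1 h2 _ (by positivity)
        exact pow_nonneg (Real.log_nonneg (by linarith)) K
    _ = 1.7544 / ε ^ K * (1 + |t|) ^ (-(3 / 2 : ℝ)) := by
        rw [h10]; ring

/-- the summand -/
private noncomputable def swG_F (a : ℕ → ℂ) (β : ℝ) (N n : ℕ) (t : ℝ) : ℂ :=
  KK β t * ((N : ℂ) ^ (t * Complex.I) * LSeries.term a ((β : ℂ) + t * Complex.I) n)

private theorem swG_F_eq (a : ℕ → ℂ) (β : ℝ) (N n : ℕ) (hn : 1 ≤ n) (t : ℝ) :
    swG_F a β N n t = (a n / (n : ℂ) ^ (β : ℂ)) *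
      (KK β t * ((N : ℂ) ^ (t * Complex.I) * (n : ℂ) ^ (-(t * Complex.I)))) := by
  unfold swG_F
  have hn0 : (n : ℂ) ≠ 0 := by exact_mod_cast (by omega : n ≠ 0)
  rw [LSeries.term_of_ne_zero (by omega), Complex.cpow_add _ _ hn0, Complex.cpow_neg]
  have h1 : (n : ℂ) ^ (β : ℂ) ≠ 0 := by
    rw [Complex.cpow_def_of_ne_zero hn0]; exact Complex.exp_ne_zero _
  have h2 : (n : ℂ) ^ ((t : ℂ) * Complex.I) ≠ 0 := by
    rw [Complex.cpow_def_of_ne_zero hn0]; exact Complex.exp_ne_zero _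
  field_simp

private theorem swG_norm_F (a : ℕ → ℂ) (β : ℝ) (N n : ℕ) (hN : 1 ≤ N) (t : ℝ) :
    ‖swG_F a β N n t‖ = ‖LSeries.term a (β : ℂ) n‖ * ‖KK β t‖ := by
  unfold swG_F
  rw [norm_mul, norm_mul, Complex.norm_natCast_cpow_of_pos (by omega)]
  have h1 : ((t : ℂ) * Complex.I).re = 0 := by simp
  have h2 : ‖LSeries.term a ((β : ℂ) + t * Complex.I) n‖ = ‖LSeries.term a (β : ℂ) n‖ := by
    rw [LSeries.norm_term_eq, LSeries.norm_term_eq]
    simp
  rw [h1, Real.rpow_zero, one_mul, h2, mul_comm]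

private theorem swG_F_cont (a : ℕ → ℂ) (β : ℝ) (hβ : 0 ≤ β) (N n : ℕ) (hN : 1 ≤ N) :
    Continuous (swG_F a β N n) := by
  rcases Nat.eq_zero_or_pos n with rfl | hn
  · have : swG_F a β N 0 = fun _ => 0 := by
      funext t; unfold swG_F; rw [LSeries.term_zero, mul_zero, mul_zero]
    rw [this]; exact continuous_const
  · have : swG_F a β N n = fun t : ℝ => (a n / (n : ℂ) ^ (β : ℂ)) *
      (KK β t * ((N : ℂ) ^ (t * Complex.I) * (n : ℂ) ^ (-(t * Complex.I)))) := by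
      funext t; exact swG_F_eq a β N n hn t
    rw [this]
    have hn0 : (n : ℂ) ≠ 0 := by exact_mod_cast (by omega : n ≠ 0)
    have hN0 : (N : ℂ) ≠ 0 := by exact_mod_cast (by omega : N ≠ 0)
    refine continuous_const.mul ((KK_continuous β hβ).mul (Continuous.mul ?_ ?_))
    · exact Continuous.const_cpow (by fun_prop) (Or.inl hN0)
    · exact Continuous.const_cpow (by fun_prop) (Or.inl hn0)

private theorem swG_F_int (a : ℕ → ℂ) (β : ℝ) (hβ : 0 ≤ β) (N n : ℕ) (hN : 1 ≤ N) :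
    Integrable (swG_F a β N n) := by
  refine Integrable.mono' ((KK_integrable β hβ).norm.const_mul ‖LSeries.term a (β : ℂ) n‖)
    (swG_F_cont a β hβ N n hN).aestronglyMeasurable (Filter.Eventually.of_forall fun t => ?_)
  rw [swG_norm_F a β N n hN t]

private theorem swG_identity (a : ℕ → ℂ) (β : ℝ) (hβ : 0 ≤ β) (N : ℕ) (hN : 1 ≤ N)
    (hs : LSeriesSummable a (β : ℂ)) :
    ∑ n ∈ Icc 1 N, a n * ((om ((n : ℝ) / N) : ℝ) : ℂ) =
      (((N : ℝ) ^ β : ℝ) : ℂ) * (1 / (2 * Real.pi)) *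
        ∫ t : ℝ, KK β t * ((N : ℂ) ^ (t * Complex.I) * LSeries a ((β : ℂ) + t * Complex.I)) := by
  have hN0 : (0 : ℝ) < N := by exact_mod_cast hN
  have h1 : HasSum (fun n => ∫ t, swG_F a β N n t) (∫ t, ∑' n, swG_F a β N n t) := by
    apply hasSum_integral_of_summable_integral_norm (swG_F_int a β hβ N · hN)
    have h2 : (fun n => ∫ t, ‖swG_F a β N n t‖) =
        fun n => ‖LSeries.term a (β : ℂ) n‖ * ∫ t, ‖KK β t‖ := by
      funext n
      simp only [swG_norm_F a β N n hN]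
      rw [integral_const_mul]
    rw [h2]
    exact (Summable.norm hs).mul_right _
  have h3 : ∀ t : ℝ, ∑' n, swG_F a β N n t =
      KK β t * ((N : ℂ) ^ (t * Complex.I) * LSeries a ((β : ℂ) + t * Complex.I)) := by
    intro t
    unfold swG_F LSeries
    rw [tsum_mul_left, tsum_mul_left]
  simp only [h3] at h1
  have h4 := h1.mul_left ((((N : ℝ) ^ β : ℝ) : ℂ) * (1 / (2 * Real.pi)))
  have hval : ∀ n : ℕ, 1 ≤ n → (((N : ℝ) ^ β : ℝ) : ℂ) * (1 / (2 * Real.pi)) *
      (∫ t, swG_F a β N n t) = a n * ((om ((n : ℝ) / N) : ℝ) : ℂ) := by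
    intro n hn
    have hn0 : (0 : ℝ) < n := by exact_mod_cast hn
    have e1 : ∫ t, swG_F a β N n t = (a n / (n : ℂ) ^ (β : ℂ)) *
        ∫ t : ℝ, KK β t * ((N : ℂ) ^ (t * Complex.I) * (n : ℂ) ^ (-(t * Complex.I))) := by
      simp only [swG_F_eq a β N n hn]
      rw [integral_const_mul]
    rw [e1, om_fourier' β hβ hN hn, Real.div_rpow hN0.le hn0.le]
    have e2 : (n : ℂ) ^ (β : ℂ) = (((n : ℝ) ^ β : ℝ) : ℂ) := by
      rw [Complex.ofReal_cpow hn0.le]; simp
    rw [e2]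
    push_cast
    ring
  have h5 : HasSum (fun n => (((N : ℝ) ^ β : ℝ) : ℂ) * (1 / (2 * Real.pi)) *
      (∫ t, swG_F a β N n t)) (∑ n ∈ Icc 1 N, (((N : ℝ) ^ β : ℝ) : ℂ) * (1 / (2 * Real.pi)) *
      (∫ t, swG_F a β N n t)) := by
    apply hasSum_sum_of_ne_finset_zero
    intro n hn
    rcases Nat.eq_zero_or_pos n with rfl | hn1
    · have : ∀ t, swG_F a β N 0 t = 0 := by
        intro t; unfold swG_F; rw [LSeries.term_zero, mul_zero, mul_zero]
      simp only [this, integral_zero, mul_zero]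
    · rw [hval n hn1]
      have hnN : N < n := by
        by_contra h
        exact hn (Finset.mem_Icc.2 ⟨hn1, not_lt.1 h⟩)
      rw [om_eq_zero, Complex.ofReal_zero, mul_zero]
      rw [le_div_iff₀ hN0, one_mul]
      exact_mod_cast hnN.le
  rw [← h5.unique h4]
  apply Finset.sum_congr rfl
  intro n hn
  rw [hval n (Finset.mem_Icc.1 hn).1]

theorem smooth_gen (K : ℕ) : ∃ C : ℝ, 0 < C ∧ ∀ (a : ℕ → ℂ) (B : ℝ), 0 ≤ B →
    (∀ s : ℂ, 1 < s.re → s.re ≤ 2 → LSeriesSummable a s ∧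
      ‖LSeries a s‖ ≤ B * Real.log (|s.im| + 3) ^ K) →
    ∀ N : ℕ, 2 ≤ N → ‖∑ n ∈ Icc 1 N, a n * ((om ((n : ℝ) / N) : ℝ) : ℂ)‖ ≤ C * B * N := by
  set C0 : ℝ := 1.7544 / (1 / (2 * ((K : ℝ) + 1))) ^ K with hC0
  have hC0pos : 0 < C0 := by positivity
  set I0 : ℝ := ∫ t : ℝ, (1 + ‖t‖) ^ (-(3 / 2 : ℝ)) with hI0
  have hI0nn : 0 ≤ I0 := integral_nonneg (fun t => by positivity)
  have hint : Integrable (fun t : ℝ => (1 + ‖t‖) ^ (-(3 / 2 : ℝ))) :=
    integrable_one_add_norm (by simp; norm_num)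
  refine ⟨C0 * I0 + 1, by positivity, ?_⟩
  intro a B hB h N hN
  have hN0 : (0 : ℝ) < N := by exact_mod_cast (by omega : 0 < N)
  have hlog : 0 < Real.log N := Real.log_pos (by exact_mod_cast (by omega : 1 < N))
  set β : ℝ := 1 + 1 / (1 + Real.log N) with hβ
  have hβ1 : 1 < β := by rw [hβ]; have : 0 < 1 / (1 + Real.log N) := by positivity
                         linarith
  have hβ2 : β ≤ 2 := by
    have : 1 / (1 + Real.log N) ≤ 1 := by
      rw [div_le_one (by positivity)]; linarith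
    linarith
  have hs : LSeriesSummable a (β : ℂ) := (h (β : ℂ) (by simpa using hβ1) (by simpa using hβ2)).1
  rw [swG_identity a β (by linarith) N (by omega) hs]
  have hpow : (N : ℝ) ^ β ≤ Real.exp 1 * N := by
    rw [hβ, Real.rpow_add hN0, Real.rpow_one, mul_comm]
    gcongr
    rw [Real.rpow_def_of_pos hN0, Real.exp_le_exp, mul_one_div, div_le_one (by positivity)]
    linarith
  have hbound : ‖∫ t : ℝ, KK β t * ((N : ℂ) ^ (t * Complex.I) *
      LSeries a ((β : ℂ) + t * Complex.I))‖ ≤ ∫ t : ℝ, B * (C0 * (1 + ‖t‖) ^ (-(3 / 2 : ℝ))) := by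
    apply norm_integral_le_of_norm_le ((hint.const_mul C0).const_mul B)
    refine Filter.Eventually.of_forall fun t => ?_
    rw [norm_mul, norm_mul, Complex.norm_natCast_cpow_of_pos (by omega)]
    have h1 : ((t : ℂ) * Complex.I).re = 0 := by simp
    have h2 := (h ((β : ℂ) + t * Complex.I) (by simpa using hβ1) (by simpa using hβ2)).2
    have h3 : ((β : ℂ) + t * Complex.I).im = t := by simp
    rw [h3] at h2
    rw [h1, Real.rpow_zero, one_mul]
    have h4 := swG_kernel K β t (by linarith)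
    calc ‖KK β t‖ * ‖LSeries a ((β : ℂ) + t * Complex.I)‖
        ≤ ‖KK β t‖ * (B * Real.log (|t| + 3) ^ K) := by gcongr
      _ = B * (‖KK β t‖ * Real.log (|t| + 3) ^ K) := by ring
      _ ≤ B * (C0 * (1 + ‖t‖) ^ (-(3 / 2 : ℝ))) := by
          apply mul_le_mul_of_nonneg_left h4 hB
  rw [integral_const_mul, integral_const_mul, ← hI0] at hbound
  have hpi : Real.exp 1 * (1 / (2 * Real.pi)) ≤ 1 := by
    have h1 := Real.exp_one_lt_d9
    have h2 := Real.pi_gt_three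
    rw [mul_one_div, div_le_one (by positivity)]
    linarith
  rw [norm_mul, norm_mul]
  have e1 : ‖(((N : ℝ) ^ β : ℝ) : ℂ)‖ = (N : ℝ) ^ β := by
    rw [Complex.norm_real, Real.norm_of_nonneg (by positivity)]
  have e2 : ‖(1 / (2 * Real.pi) : ℂ)‖ = 1 / (2 * Real.pi) := by
    have : (1 / (2 * Real.pi) : ℂ) = ((1 / (2 * Real.pi) : ℝ) : ℂ) := by push_cast; rfl
    rw [this, Complex.norm_real, Real.norm_of_nonneg (by positivity)]
  rw [e1, e2]
  have hpi0 : 0 < 1 / (2 * Real.pi) := by positivity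
  calc (N : ℝ) ^ β * (1 / (2 * Real.pi)) * ‖∫ t : ℝ, KK β t * ((N : ℂ) ^ (t * Complex.I) *
        LSeries a ((β : ℂ) + t * Complex.I))‖
      ≤ (Real.exp 1 * N) * (1 / (2 * Real.pi)) * (B * (C0 * I0)) := by gcongr
    _ = (Real.exp 1 * (1 / (2 * Real.pi))) * (C0 * I0 * B * N) := by ring
    _ ≤ 1 * (C0 * I0 * B * N) := by
        apply mul_le_mul_of_nonneg_right hpi (by positivity)
    _ ≤ (C0 * I0 + 1) * B * N := by
        have : 0 ≤ B * N := by positivity
        nlinarith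

end Pool.Agent.H91.EHA

end

section

/-!
PK DiA: Λ in one residue class through primitive characters.

Let L = log N, N ≥ 3, 1 ≤ d ≤ N, (N,d) = 1,
  A(d) = ∑_{n ≤ N, d | N - n} Λ(n) W(n),   MW = ∑_{n ≤ N} Λ(n) W(n).
Then |A(d) - MW/φ(d)| ≤ L² + (1/φ(d)) ∑_{χ mod d, χ ≠ 1} |TT N k χ*|, χ* = the primitive character inducing χ.

Proof.  d | N-n with (N,d)=1 forces (n,d)=1 and n ≡ N; by `DirichletCharacter.sum_char_inv_mul_char_eq`
  A(d) = (1/φ(d)) ∑_χ χ(N)⁻¹ TT N k χ  (|χ(N)⁻¹| ≤ 1).  For χ = 1: TT N k 1 = MW - ∑_{(n,d)>1} Λ(n)W(n).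
For every χ: TT N k χ = TT N k χ* - ∑_{(n,d)>1} Λ(n) χ*(n) W(n) (χ(n) = χ*(n) for (n,d)=1:
`DirichletCharacter.primitiveCharacter_apply_of_isCoprime`, and χ(n) = 0 otherwise).
Error: ∑_{n ≤ N, (n,d)>1} Λ(n) W(n) ≤ (4/27) ∑_{q | d} ∑_{j : q^j ≤ N} log q ≤ (4/27) ω(d) L ≤ (4/27)(1.45) L²  ≤ 0.22 L²
 (0 ≤ W ≤ 4/27 as log n/log N ≤ 1; 2^ω(d) ≤ d ≤ N).  Two such errors.
-/

set_option autoImplicit false

namespace Pool.Agent.H91.PK

open Finset

theorem W_nonneg (N k n : ℕ) : 0 ≤ W N k n := by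
  unfold W
  refine mul_nonneg (om_nonneg _) (pow_nonneg (div_nonneg ?_ ?_) _)
  · exact Real.log_natCast_nonneg n
  · exact Real.log_natCast_nonneg N

theorem W_le {N k n : ℕ} (hn : n ≤ N) : W N k n ≤ 4 / 27 := by
  unfold W
  have h1 : (Real.log n / Real.log N) ^ k ≤ 1 := by
    refine pow_le_one₀ (div_nonneg (Real.log_natCast_nonneg n) (Real.log_natCast_nonneg N)) ?_
    refine div_le_one_of_le₀ ?_ (Real.log_natCast_nonneg N)
    rcases Nat.eq_zero_or_pos n with h | h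
    · subst h; simpa using Real.log_natCast_nonneg N
    · exact Real.log_le_log (by exact_mod_cast h) (by exact_mod_cast hn)
  have h0 : 0 ≤ (Real.log n / Real.log N) ^ k :=
    pow_nonneg (div_nonneg (Real.log_natCast_nonneg n) (Real.log_natCast_nonneg N)) _
  calc om ((n : ℝ) / N) * (Real.log n / Real.log N) ^ k
      ≤ (4 / 27) * 1 := mul_le_mul (om_le _) h1 h0 (by norm_num)
    _ = 4 / 27 := by norm_num

/-- The mass of the `n` not coprime to `d`. -/
noncomputable def DiA_E (N k d : ℕ) : ℝ :=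
  ∑ n ∈ (Icc 1 N).filter (fun n => ¬ Nat.Coprime n d), ArithmeticFunction.vonMangoldt n * W N k n

theorem DiA_E_nonneg (N k d : ℕ) : 0 ≤ DiA_E N k d :=
  sum_nonneg fun _ _ => mul_nonneg ArithmeticFunction.vonMangoldt_nonneg (W_nonneg _ _ _)

theorem DiA_omega_le {d : ℕ} (hd : 1 ≤ d) : (d.primeFactors.card : ℝ) * Real.log 2 ≤ Real.log d := by
  have h1 : 2 ^ d.primeFactors.card ≤ d := by
    calc 2 ^ d.primeFactors.card ≤ ∏ p ∈ d.primeFactors, p :=
          Finset.pow_card_le_prod _ _ _ (fun p hp => (Nat.prime_of_mem_primeFactors hp).two_le)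
      _ ≤ d := Nat.le_of_dvd hd (Nat.prod_primeFactors_dvd d)
  have h2 : ((2 : ℝ) ^ d.primeFactors.card) ≤ d := by exact_mod_cast h1
  have h3 := Real.log_le_log (by positivity) h2
  rwa [Real.log_pow] at h3

theorem DiA_psi_noncoprime {N d : ℕ} (hN : 1 ≤ N) (hd : 1 ≤ d) :
    ∑ n ∈ (Icc 1 N).filter (fun n => ¬ Nat.Coprime n d), ArithmeticFunction.vonMangoldt n
      ≤ (d.primeFactors.card : ℝ) * Real.log N := by
  classical
  have key : ∀ n ∈ (Icc 1 N).filter (fun n => ¬ Nat.Coprime n d),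
      ArithmeticFunction.vonMangoldt n ≤ ∑ q ∈ d.primeFactors,
        (if n ∈ (Icc 1 (Nat.log q N)).image (fun j => q ^ j) then
          ArithmeticFunction.vonMangoldt n else 0) := by
    intro n hn
    rw [mem_filter, mem_Icc] at hn
    have hnn : ∀ q ∈ d.primeFactors,
        0 ≤ (if n ∈ (Icc 1 (Nat.log q N)).image (fun j => q ^ j) then
          ArithmeticFunction.vonMangoldt n else 0) := by
      intro q _
      split_ifs
      · exact ArithmeticFunction.vonMangoldt_nonneg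
      · exact le_rfl
    by_cases hp : IsPrimePow n
    · obtain ⟨p, j, hp1, hj, rfl⟩ := hp
      have hpp : p.Prime := Nat.prime_iff.mpr hp1
      have hpd : p ∣ d := by
        by_contra hcon
        exact hn.2 (Nat.Coprime.pow_left _ ((Nat.Prime.coprime_iff_not_dvd hpp).mpr hcon))
      have hmem : p ∈ d.primeFactors := Nat.mem_primeFactors.mpr ⟨hpp, hpd, by omega⟩
      refine le_trans ?_ (single_le_sum hnn hmem)
      rw [if_pos]
      refine mem_image.mpr ⟨j, ?_, rfl⟩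
      rw [mem_Icc]
      exact ⟨hj, (Nat.le_log_iff_pow_le hpp.one_lt (by omega)).mpr hn.1.2⟩
    · rw [ArithmeticFunction.vonMangoldt_eq_zero_iff.mpr hp]
      simp
  calc ∑ n ∈ (Icc 1 N).filter (fun n => ¬ Nat.Coprime n d), ArithmeticFunction.vonMangoldt n
      ≤ ∑ n ∈ (Icc 1 N).filter (fun n => ¬ Nat.Coprime n d), ∑ q ∈ d.primeFactors,
        (if n ∈ (Icc 1 (Nat.log q N)).image (fun j => q ^ j) then
          ArithmeticFunction.vonMangoldt n else 0) := sum_le_sum key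
    _ = ∑ q ∈ d.primeFactors, ∑ n ∈ (Icc 1 N).filter (fun n => ¬ Nat.Coprime n d),
        (if n ∈ (Icc 1 (Nat.log q N)).image (fun j => q ^ j) then
          ArithmeticFunction.vonMangoldt n else 0) := sum_comm
    _ ≤ ∑ q ∈ d.primeFactors, Real.log N := by
        refine sum_le_sum fun q hq => ?_
        have hqp := Nat.prime_of_mem_primeFactors hq
        rw [← sum_filter]
        calc ∑ n ∈ ((Icc 1 N).filter (fun n => ¬ Nat.Coprime n d)).filter
              (fun n => n ∈ (Icc 1 (Nat.log q N)).image (fun j => q ^ j)),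
              ArithmeticFunction.vonMangoldt n
            ≤ ∑ n ∈ (Icc 1 (Nat.log q N)).image (fun j => q ^ j),
              ArithmeticFunction.vonMangoldt n := by
              refine sum_le_sum_of_subset_of_nonneg ?_
                (fun _ _ _ => ArithmeticFunction.vonMangoldt_nonneg)
              intro n hn
              exact (mem_filter.mp hn).2
          _ = ∑ j ∈ Icc 1 (Nat.log q N), ArithmeticFunction.vonMangoldt (q ^ j) := by
              refine sum_image ?_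
              intro a _ b _ hab
              exact Nat.pow_right_injective hqp.two_le hab
          _ = ∑ j ∈ Icc 1 (Nat.log q N), Real.log q := by
              refine sum_congr rfl fun j hj => ?_
              rw [mem_Icc] at hj
              rw [ArithmeticFunction.vonMangoldt_apply_pow (by omega),
                ArithmeticFunction.vonMangoldt_apply_prime hqp]
          _ = (Nat.log q N : ℝ) * Real.log q := by
              rw [sum_const, Nat.card_Icc, nsmul_eq_mul]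
              norm_num
          _ ≤ Real.log N := by
              rw [← Real.log_pow]
              refine Real.log_le_log ?_ ?_
              · have : (0 : ℝ) < q := by exact_mod_cast hqp.pos
                positivity
              · exact_mod_cast Nat.pow_log_le_self q (by omega)
    _ = (d.primeFactors.card : ℝ) * Real.log N := by
        rw [sum_const, nsmul_eq_mul]

theorem DiA_norm_char_le {m : ℕ} (χ : DirichletCharacter ℂ m) (a : ZMod m) : ‖χ a‖ ≤ 1 :=
  χ.norm_le_one a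

/-- values of the primitive character -/
theorem DiA_prim_eq {d n : ℕ} (χ : DirichletCharacter ℂ d) (h : Nat.Coprime n d) :
    χ.primitiveCharacter (n : ZMod χ.conductor) = χ (n : ZMod d) := by
  have h1 : IsCoprime (n : ℤ) (d : ℤ) := Nat.isCoprime_iff_coprime.mpr h
  have h2 := DirichletCharacter.primitiveCharacter_apply_of_isCoprime χ h1
  simpa using h2

theorem DiA_char_zero {d n : ℕ} (χ : DirichletCharacter ℂ d) (h : ¬ Nat.Coprime n d) :
    χ (n : ZMod d) = 0 := by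
  refine χ.map_nonunit ?_
  intro hu
  exact h ((ZMod.isUnit_iff_coprime n d).mp hu)

theorem DiA_TT_sub {N k d : ℕ} (χ : DirichletCharacter ℂ d) :
    ‖TT N k (fun n => χ (n : ZMod d))‖
      ≤ ‖TT N k (fun n => χ.primitiveCharacter (n : ZMod χ.conductor))‖ + DiA_E N k d := by
  have h1 : TT N k (fun n => χ.primitiveCharacter (n : ZMod χ.conductor))
      - TT N k (fun n => χ (n : ZMod d))
      = ∑ n ∈ (Icc 1 N).filter (fun n => ¬ Nat.Coprime n d),
        ((ArithmeticFunction.vonMangoldt n : ℝ) : ℂ) *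
          (χ.primitiveCharacter (n : ZMod χ.conductor) * ((W N k n : ℝ) : ℂ)) := by
    unfold TT
    rw [← sum_sub_distrib, sum_filter]
    refine sum_congr rfl fun n _ => ?_
    by_cases h : Nat.Coprime n d
    · rw [if_neg (not_not.mpr h)]
      simp only [DiA_prim_eq χ h, sub_self]
    · rw [if_pos h]
      simp only [DiA_char_zero χ h, zero_mul, mul_zero, sub_zero]
  have h2 : ‖TT N k (fun n => χ.primitiveCharacter (n : ZMod χ.conductor))
      - TT N k (fun n => χ (n : ZMod d))‖ ≤ DiA_E N k d := by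
    rw [h1]
    refine (norm_sum_le _ _).trans ?_
    refine sum_le_sum fun n _ => ?_
    rw [norm_mul, norm_mul, Complex.norm_real, Complex.norm_real, Real.norm_of_nonneg
      ArithmeticFunction.vonMangoldt_nonneg, Real.norm_of_nonneg (W_nonneg _ _ _)]
    refine mul_le_mul_of_nonneg_left ?_ ArithmeticFunction.vonMangoldt_nonneg
    calc ‖χ.primitiveCharacter (n : ZMod χ.conductor)‖ * W N k n ≤ 1 * W N k n :=
          mul_le_mul_of_nonneg_right (DiA_norm_char_le _ _) (W_nonneg _ _ _)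
      _ = W N k n := one_mul _
  calc ‖TT N k (fun n => χ (n : ZMod d))‖
      = ‖TT N k (fun n => χ.primitiveCharacter (n : ZMod χ.conductor))
        - (TT N k (fun n => χ.primitiveCharacter (n : ZMod χ.conductor))
          - TT N k (fun n => χ (n : ZMod d)))‖ := by congr 1; ring
    _ ≤ _ := (norm_sub_le _ _).trans (by linarith)

end Pool.Agent.H91.PK

end

section

/-!
# Passing to primitive characters and summing over the moduli

For `χ` mod `q` induced by the primitive `χ* = χ.primitiveCharacter` mod `χ.conductor`, `TT N 0 χ` and `TT N 0 χ*`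
differ by at most `∑_{n ≤ N, (n,q)>1} Λ(n) ≤ log N · log₂ q` (`DiA_TT_sub`, `DiA_psi_noncoprime`; a bound
`C (1+log N)(1+log Q)` is enough).
`∑_{q ∈ (Q,2Q], c | q} 1/φ(q) ≤ (1/φ(c)) ∑_{m ≤ 2Q/c} 1/φ(m) ≤ (1/φ(c)) (1+log(2Q))²` since
`φ(cm) ≥ φ(c)φ(m)`, `1/φ(m) ≤ τ(m)/m`.  For fixed `q` the characters `χ ≠ 1` mod `q` correspond injectively to pairs
(conductor `c | q`, `c > 1`, primitive character mod `c`) (`DiB_level` in `PK/DiB.lean`).
The correction terms: `∑_q (1/φ(q)) φ(q) C(1+log N)(1+log Q)`.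
-/

set_option autoImplicit false

namespace Pool.Agent.H91.EHA

open Finset
open Pool.Agent.H91.PK

/-- `1/φ(m) ≤ τ(m)/m` -/
theorem chB_inv_totient_le {m : ℕ} (hm : 1 ≤ m) :
    1 / (m.totient : ℝ) ≤ ∑ d ∈ m.divisors, 1 / (m : ℝ) := by
  have h1 : m ≤ m.divisors.card * m.totient := by
    calc m = ∑ d ∈ m.divisors, d.totient := (Nat.sum_totient m).symm
      _ ≤ ∑ d ∈ m.divisors, m.totient := by
          refine sum_le_sum fun d hd => ?_
          exact Nat.le_of_dvd (Nat.totient_pos.mpr hm)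
            (Nat.totient_dvd_of_dvd (Nat.dvd_of_mem_divisors hd))
      _ = m.divisors.card * m.totient := by rw [sum_const, smul_eq_mul]
  have h2 : (m : ℝ) ≤ (m.divisors.card : ℝ) * (m.totient : ℝ) := by exact_mod_cast h1
  have hφ : (0 : ℝ) < m.totient := by exact_mod_cast Nat.totient_pos.mpr hm
  have hm0 : (0 : ℝ) < m := by exact_mod_cast hm
  rw [sum_const, nsmul_eq_mul, mul_one_div, div_le_div_iff₀ hφ hm0, one_mul]
  exact h2

/-- sum over multiples -/
theorem chB_sum_multiples (M c : ℕ) (hc : 1 ≤ c) (f : ℕ → ℝ) (hf : ∀ m, 0 ≤ f m) :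
    ∑ q ∈ (Icc 1 M).filter (fun q => c ∣ q), f (q / c) ≤ ∑ m ∈ Icc 1 M, f m := by
  have hinj : Set.InjOn (fun q : ℕ => q / c)
      ((Icc 1 M).filter (fun q => c ∣ q) : Finset ℕ) := by
    intro a ha b hb hab
    have ha' := (mem_filter.mp (mem_coe.mp ha)).2
    have hb' := (mem_filter.mp (mem_coe.mp hb)).2
    have hab' : a / c = b / c := hab
    rw [← Nat.div_mul_cancel ha', ← Nat.div_mul_cancel hb', hab']
  rw [← sum_image (s := (Icc 1 M).filter (fun q => c ∣ q)) (g := fun q : ℕ => q / c)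
    (f := f) hinj]
  refine sum_le_sum_of_subset_of_nonneg ?_ (fun m _ _ => hf m)
  intro m hm
  rw [mem_image] at hm
  obtain ⟨q, hq, rfl⟩ := hm
  rw [mem_filter, mem_Icc] at hq
  rw [mem_Icc]
  refine ⟨Nat.div_pos (Nat.le_of_dvd (by omega) hq.2) hc, ?_⟩
  exact (Nat.div_le_self q c).trans hq.1.2

theorem chB_harm (M : ℕ) : ∑ d ∈ Icc 1 M, 1 / (d : ℝ) ≤ 1 + Real.log M := by
  have h := harmonic_le_one_add_log M
  rw [harmonic_eq_sum_Icc] at h
  push_cast at h
  simpa only [one_div] using h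

/-- `∑_{m ≤ M} 1/φ(m) ≤ (1+log M)²` -/
theorem chB_sum_inv_totient (M : ℕ) :
    ∑ m ∈ Icc 1 M, 1 / (m.totient : ℝ) ≤ (1 + Real.log M) ^ 2 := by
  have h0 : 0 ≤ ∑ d ∈ Icc 1 M, 1 / (d : ℝ) := sum_nonneg fun d _ => by positivity
  calc ∑ m ∈ Icc 1 M, 1 / (m.totient : ℝ)
      ≤ ∑ m ∈ Icc 1 M, ∑ d ∈ m.divisors, 1 / (m : ℝ) := by
        refine sum_le_sum fun m hm => chB_inv_totient_le (mem_Icc.mp hm).1
    _ ≤ ∑ m ∈ Icc 1 M, ∑ d ∈ (Icc 1 M).filter (fun d => d ∣ m),
          (1 / (d : ℝ)) * (1 / ((m / d : ℕ) : ℝ)) := by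
        refine sum_le_sum fun m hm => ?_
        have hm' := mem_Icc.mp hm
        have hset : m.divisors = (Icc 1 M).filter (fun d => d ∣ m) := by
          ext d
          rw [Nat.mem_divisors, mem_filter, mem_Icc]
          constructor
          · rintro ⟨h1, h2⟩
            exact ⟨⟨Nat.pos_of_dvd_of_pos h1 hm'.1, (Nat.le_of_dvd hm'.1 h1).trans hm'.2⟩, h1⟩
          · rintro ⟨_, h2⟩
            exact ⟨h2, by omega⟩
        rw [← hset]
        refine sum_le_sum fun d hd => ?_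
        have hdm := Nat.dvd_of_mem_divisors hd
        have hd0 : (0 : ℝ) < d := by exact_mod_cast Nat.pos_of_dvd_of_pos hdm hm'.1
        rw [Nat.cast_div hdm hd0.ne']
        have hm0 : (0 : ℝ) < m := by exact_mod_cast hm'.1
        apply le_of_eq
        field_simp
    _ = ∑ d ∈ Icc 1 M, (1 / (d : ℝ)) *
          ∑ m ∈ (Icc 1 M).filter (fun m => d ∣ m), 1 / ((m / d : ℕ) : ℝ) := by
        simp only [sum_filter]
        rw [sum_comm]
        refine sum_congr rfl fun d _ => ?_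
        rw [mul_sum]
        refine sum_congr rfl fun m _ => ?_
        split_ifs
        · rfl
        · rw [mul_zero]
    _ ≤ ∑ d ∈ Icc 1 M, (1 / (d : ℝ)) * ∑ m ∈ Icc 1 M, 1 / (m : ℝ) := by
        refine sum_le_sum fun d hd => ?_
        refine mul_le_mul_of_nonneg_left ?_ (by positivity)
        exact chB_sum_multiples M d (mem_Icc.mp hd).1 (fun m => 1 / (m : ℝ))
          (fun m => by positivity)
    _ = (∑ d ∈ Icc 1 M, 1 / (d : ℝ)) ^ 2 := by rw [← sum_mul, sq]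
    _ ≤ (1 + Real.log M) ^ 2 := pow_le_pow_left₀ h0 (chB_harm M) 2

theorem chB_log_two_mul {Q : ℕ} (hQ : 1 ≤ Q) : 1 + Real.log (2 * Q : ℕ) ≤ 2 * (1 + Real.log Q) := by
  have hQ0 : (0 : ℝ) < Q := by exact_mod_cast hQ
  have h1 : (0 : ℝ) ≤ Real.log Q := Real.log_natCast_nonneg Q
  have h2 : Real.log (2 * Q : ℕ) = Real.log 2 + Real.log Q := by
    push_cast
    exact Real.log_mul (by norm_num) hQ0.ne'
  have h3 : Real.log 2 ≤ 1 := by
    have := Real.log_two_lt_d9
    linarith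
  rw [h2]
  linarith

/-- sum over the moduli which are multiples of `r` -/
theorem chB_moduli (Q r : ℕ) (hr : 1 ≤ r) :
    ∑ q ∈ (Ioc Q (2 * Q)).filter (fun q => r ∣ q), 1 / (q.totient : ℝ) ≤
      (1 / (r.totient : ℝ)) * ∑ m ∈ Icc 1 (2 * Q), 1 / (m.totient : ℝ) := by
  have hφr : (0 : ℝ) < r.totient := by exact_mod_cast Nat.totient_pos.mpr hr
  calc ∑ q ∈ (Ioc Q (2 * Q)).filter (fun q => r ∣ q), 1 / (q.totient : ℝ)
      ≤ ∑ q ∈ (Icc 1 (2 * Q)).filter (fun q => r ∣ q), 1 / (q.totient : ℝ) := by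
        refine sum_le_sum_of_subset_of_nonneg ?_ (fun q _ _ => by positivity)
        intro q hq
        rw [mem_filter, mem_Ioc] at hq
        rw [mem_filter, mem_Icc]
        exact ⟨⟨by omega, hq.1.2⟩, hq.2⟩
    _ ≤ ∑ q ∈ (Icc 1 (2 * Q)).filter (fun q => r ∣ q),
          (1 / (r.totient : ℝ)) * (1 / ((q / r).totient : ℝ)) := by
        refine sum_le_sum fun q hq => ?_
        rw [mem_filter, mem_Icc] at hq
        have hqr : 0 < q / r := Nat.div_pos (Nat.le_of_dvd (by omega) hq.2) hr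
        have h1 : (0 : ℝ) < (q / r).totient := by exact_mod_cast Nat.totient_pos.mpr hqr
        have h2 : r.totient * (q / r).totient ≤ q.totient := by
          have := Nat.totient_super_multiplicative r (q / r)
          rwa [Nat.mul_div_cancel' hq.2] at this
        have h3 : (r.totient : ℝ) * ((q / r).totient : ℝ) ≤ q.totient := by exact_mod_cast h2
        rw [one_div_mul_one_div]
        exact one_div_le_one_div_of_le (by positivity) h3
    _ = (1 / (r.totient : ℝ)) *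
          ∑ q ∈ (Icc 1 (2 * Q)).filter (fun q => r ∣ q), 1 / ((q / r).totient : ℝ) := by
        rw [mul_sum]
    _ ≤ _ := by
        refine mul_le_mul_of_nonneg_left ?_ (by positivity)
        exact chB_sum_multiples (2 * Q) r hr (fun m => 1 / (m.totient : ℝ))
          (fun m => by positivity)

/-- reorganising the sum over the moduli by conductor -/
theorem chB_reorg (Q : ℕ) (hQ : 1 ≤ Q)
    (F : (r : ℕ) → DirichletCharacter ℂ r → ℝ) (hF : ∀ r χ, 0 ≤ F r χ) :
    ∑ q ∈ Ioc Q (2 * Q), (1 / (q.totient : ℝ)) * ∑ χ ∈ Nch q, F χ.conductor χ.primitiveCharacter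
      ≤ 4 * (1 + Real.log Q) ^ 2 *
        ∑ r ∈ Ioc 1 (2 * Q), (1 / (r.totient : ℝ)) * ∑ χ ∈ Pch r, F r χ := by
  obtain ⟨S, hS⟩ : ∃ S : ℕ → ℝ, ∀ r, S r = ∑ χ ∈ Pch r, F r χ := ⟨_, fun _ => rfl⟩
  have hS0 : ∀ r, 0 ≤ S r := fun r => by
    rw [hS]
    exact sum_nonneg fun χ _ => hF r χ
  obtain ⟨G, hG⟩ : ∃ G : ℝ, G = ∑ m ∈ Icc 1 (2 * Q), 1 / (m.totient : ℝ) := ⟨_, rfl⟩
  have hG4 : G ≤ 4 * (1 + Real.log Q) ^ 2 := by
    rw [hG]
    refine (chB_sum_inv_totient (2 * Q)).trans ?_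
    have h1 := chB_log_two_mul hQ
    have h2 : (0 : ℝ) ≤ 1 + Real.log (2 * Q : ℕ) := by
      have := Real.log_natCast_nonneg (2 * Q)
      linarith
    calc (1 + Real.log (2 * Q : ℕ)) ^ 2 ≤ (2 * (1 + Real.log Q)) ^ 2 := pow_le_pow_left₀ h2 h1 2
      _ = 4 * (1 + Real.log Q) ^ 2 := by ring
  calc ∑ q ∈ Ioc Q (2 * Q), (1 / (q.totient : ℝ)) * ∑ χ ∈ Nch q, F χ.conductor χ.primitiveCharacter
      ≤ ∑ q ∈ Ioc Q (2 * Q), (1 / (q.totient : ℝ)) *
          ∑ r ∈ (Ioc 1 (2 * Q)).filter (fun r => r ∣ q), S r := by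
        refine sum_le_sum fun q hq => ?_
        rw [mem_Ioc] at hq
        refine mul_le_mul_of_nonneg_left ?_ (by positivity)
        have h1 := DiB_level q (by omega) F hF
        have hset : q.divisors.filter (fun r => 1 < r) =
            (Ioc 1 (2 * Q)).filter (fun r => r ∣ q) := by
          ext r
          rw [mem_filter, Nat.mem_divisors, mem_filter, mem_Ioc]
          constructor
          · rintro ⟨⟨h1, h2⟩, h3⟩
            exact ⟨⟨h3, (Nat.le_of_dvd (by omega) h1).trans hq.2⟩, h1⟩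
          · rintro ⟨⟨h1, h2⟩, h3⟩
            exact ⟨⟨h3, by omega⟩, h1⟩
        rw [hset] at h1
        refine h1.trans (le_of_eq (sum_congr rfl fun r _ => (hS r).symm))
    _ = ∑ r ∈ Ioc 1 (2 * Q), S r *
          ∑ q ∈ (Ioc Q (2 * Q)).filter (fun q => r ∣ q), 1 / (q.totient : ℝ) := by
        simp only [sum_filter, mul_sum]
        rw [sum_comm]
        refine sum_congr rfl fun r _ => sum_congr rfl fun q _ => ?_
        split_ifs
        · rw [mul_comm]
        · rw [mul_zero, mul_zero]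
    _ ≤ ∑ r ∈ Ioc 1 (2 * Q), S r * ((1 / (r.totient : ℝ)) * G) := by
        refine sum_le_sum fun r hr => ?_
        rw [mem_Ioc] at hr
        refine mul_le_mul_of_nonneg_left ?_ (hS0 r)
        rw [hG]
        exact chB_moduli Q r (by omega)
    _ = G * ∑ r ∈ Ioc 1 (2 * Q), (1 / (r.totient : ℝ)) * ∑ χ ∈ Pch r, F r χ := by
        rw [mul_sum]
        refine sum_congr rfl fun r _ => ?_
        rw [← hS]
        ring
    _ ≤ _ := by
        refine mul_le_mul_of_nonneg_right hG4 (sum_nonneg fun r _ => ?_)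
        rw [← hS]
        exact mul_nonneg (by positivity) (hS0 r)

/-- the error in passing to the primitive character -/
theorem chB_E_le {N Q q : ℕ} (hN : 1 ≤ N) (hQ : 1 ≤ Q) (hq1 : 1 ≤ q) (hq : q ≤ 2 * Q) :
    DiA_E N 0 q ≤ 2 * (1 + Real.log N) * (1 + Real.log Q) := by
  have hLN : 0 ≤ Real.log N := Real.log_natCast_nonneg N
  have hLQ : 0 ≤ Real.log Q := Real.log_natCast_nonneg Q
  have h1 : DiA_E N 0 q ≤ (4 / 27) * ((q.primeFactors.card : ℝ) * Real.log N) := by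
    calc DiA_E N 0 q ≤ ∑ n ∈ (Icc 1 N).filter (fun n => ¬ Nat.Coprime n q),
          (4 / 27) * ArithmeticFunction.vonMangoldt n := by
          refine sum_le_sum fun n hn => ?_
          rw [mem_filter, mem_Icc] at hn
          rw [mul_comm]
          exact mul_le_mul_of_nonneg_right (W_le hn.1.2) ArithmeticFunction.vonMangoldt_nonneg
      _ = (4 / 27) * ∑ n ∈ (Icc 1 N).filter (fun n => ¬ Nat.Coprime n q),
          ArithmeticFunction.vonMangoldt n := by rw [mul_sum]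
      _ ≤ _ := mul_le_mul_of_nonneg_left (DiA_psi_noncoprime hN hq1) (by norm_num)
  have h2 := DiA_omega_le hq1
  have h3 : Real.log q ≤ Real.log (2 * Q : ℕ) :=
    Real.log_le_log (by exact_mod_cast hq1) (by exact_mod_cast hq)
  have h4 : (0.6931471803 : ℝ) < Real.log 2 := Real.log_two_gt_d9
  have h5 : (0 : ℝ) ≤ q.primeFactors.card := Nat.cast_nonneg _
  have h6 := chB_log_two_mul hQ
  have h7 : (q.primeFactors.card : ℝ) * (1 / 2) ≤ 2 * (1 + Real.log Q) := by
    have h8 : (q.primeFactors.card : ℝ) * (1 / 2) ≤ (q.primeFactors.card : ℝ) * Real.log 2 :=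
      mul_le_mul_of_nonneg_left (by linarith) h5
    linarith
  have h8 : (q.primeFactors.card : ℝ) ≤ 4 * (1 + Real.log Q) := by linarith
  have h9 : (q.primeFactors.card : ℝ) * Real.log N ≤ 4 * (1 + Real.log Q) * (1 + Real.log N) :=
    mul_le_mul h8 (by linarith) hLN (by positivity)
  have h10 : 0 ≤ (1 + Real.log Q) * (1 + Real.log N) := by positivity
  calc DiA_E N 0 q ≤ (4 / 27) * ((q.primeFactors.card : ℝ) * Real.log N) := h1
    _ ≤ (4 / 27) * (4 * (1 + Real.log Q) * (1 + Real.log N)) :=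
        mul_le_mul_of_nonneg_left h9 (by norm_num)
    _ = (16 / 27) * ((1 + Real.log Q) * (1 + Real.log N)) := by ring
    _ ≤ 2 * ((1 + Real.log Q) * (1 + Real.log N)) := mul_le_mul_of_nonneg_right (by norm_num) h10
    _ = 2 * (1 + Real.log N) * (1 + Real.log Q) := by ring

theorem chB_card {q : ℕ} (hq : 1 ≤ q) : ((Nch q).card : ℝ) ≤ q.totient := by
  classical
  have : NeZero q := ⟨by omega⟩
  have h1 : (Nch q).card ≤ Fintype.card (DirichletCharacter ℂ q) := card_le_univ _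
  rw [← Nat.card_eq_fintype_card,
      DirichletCharacter.card_eq_totient_of_hasEnoughRootsOfUnity ℂ q] at h1
  exact_mod_cast h1

/-- the total contribution of the correction terms -/
theorem chB_err (Q : ℕ) (e : ℕ → ℝ) (B : ℝ) (hB : 0 ≤ B)
    (he : ∀ q ∈ Ioc Q (2 * Q), e q ≤ B)
    (X : (q : ℕ) → Finset (DirichletCharacter ℂ q)) (hX : ∀ q, X q ⊆ Nch q) :
    ∑ q ∈ Ioc Q (2 * Q), (1 / (q.totient : ℝ)) * ∑ _χ ∈ X q, e q ≤ Q * B := by
  calc ∑ q ∈ Ioc Q (2 * Q), (1 / (q.totient : ℝ)) * ∑ _χ ∈ X q, e q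
      ≤ ∑ q ∈ Ioc Q (2 * Q), B := by
        refine sum_le_sum fun q hq => ?_
        have hq1 : 1 ≤ q := by rw [mem_Ioc] at hq; omega
        have hφ : (0 : ℝ) < q.totient := by exact_mod_cast Nat.totient_pos.mpr hq1
        have h1 : ∑ _χ ∈ X q, e q ≤ (q.totient : ℝ) * B := by
          rw [sum_const, nsmul_eq_mul]
          calc ((X q).card : ℝ) * e q ≤ ((X q).card : ℝ) * B :=
                mul_le_mul_of_nonneg_left (he q hq) (Nat.cast_nonneg _)
            _ ≤ (q.totient : ℝ) * B := by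
                refine mul_le_mul_of_nonneg_right ?_ hB
                refine le_trans ?_ (chB_card hq1)
                exact_mod_cast card_le_card (hX q)
        calc (1 / (q.totient : ℝ)) * ∑ _χ ∈ X q, e q
            ≤ (1 / (q.totient : ℝ)) * ((q.totient : ℝ) * B) :=
              mul_le_mul_of_nonneg_left h1 (by positivity)
          _ = B := by field_simp
    _ = Q * B := by
        rw [sum_const, Nat.card_Ioc, nsmul_eq_mul]
        congr 2
        omega

theorem sum_small_cond : ∃ C : ℝ, 0 < C ∧ ∀ N Q D : ℕ, 1 ≤ N → 1 ≤ Q → 1 ≤ D →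
    ∑ q ∈ Ioc Q (2 * Q), (1 / (q.totient : ℝ)) *
        ∑ χ ∈ (Nch q).filter (fun χ => χ.conductor ≤ D), ‖TT N 0 (fun n => χ (n : ZMod q))‖
      ≤ C * (1 + Real.log Q) ^ 2 * (∑ c ∈ Ioc 1 D, (1 / (c.totient : ℝ)) *
            ∑ ψ ∈ Pch c, ‖TT N 0 (fun n => ψ (n : ZMod c))‖)
        + C * Q * (1 + Real.log N) * (1 + Real.log Q) := by
  refine ⟨4, by norm_num, ?_⟩
  intro N Q D hN hQ hD
  have hLN : 0 ≤ Real.log N := Real.log_natCast_nonneg N
  have hLQ : 0 ≤ Real.log Q := Real.log_natCast_nonneg Q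
  obtain ⟨F, hFd⟩ : ∃ F : (r : ℕ) → DirichletCharacter ℂ r → ℝ, ∀ r χ, F r χ =
      if r ≤ D then ‖TT N 0 (fun n => χ (n : ZMod r))‖ else 0 := ⟨_, fun _ _ => rfl⟩
  have hF : ∀ r χ, 0 ≤ F r χ := by
    intro r χ
    rw [hFd]
    split_ifs
    · exact norm_nonneg _
    · exact le_rfl
  have hB : 0 ≤ 2 * (1 + Real.log N) * (1 + Real.log Q) := by positivity
  have hmain := chB_reorg Q hQ F hF
  have herr := chB_err Q (fun q => DiA_E N 0 q) (2 * (1 + Real.log N) * (1 + Real.log Q)) hB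
    (fun q hq => chB_E_le hN hQ (by rw [mem_Ioc] at hq; omega) (by rw [mem_Ioc] at hq; omega))
    (fun q => (Nch q).filter (fun χ => χ.conductor ≤ D)) (fun q => filter_subset _ _)
  have hsum : ∑ r ∈ Ioc 1 (2 * Q), (1 / (r.totient : ℝ)) * ∑ χ ∈ Pch r, F r χ ≤
      ∑ c ∈ Ioc 1 D, (1 / (c.totient : ℝ)) *
            ∑ ψ ∈ Pch c, ‖TT N 0 (fun n => ψ (n : ZMod c))‖ := by
    calc ∑ r ∈ Ioc 1 (2 * Q), (1 / (r.totient : ℝ)) * ∑ χ ∈ Pch r, F r χ
        = ∑ r ∈ (Ioc 1 (2 * Q)).filter (fun r => r ≤ D), (1 / (r.totient : ℝ)) *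
            ∑ ψ ∈ Pch r, ‖TT N 0 (fun n => ψ (n : ZMod r))‖ := by
          rw [sum_filter]
          refine sum_congr rfl fun r _ => ?_
          simp only [hFd]
          split_ifs
          · rfl
          · rw [sum_const_zero, mul_zero]
      _ ≤ _ := by
          refine sum_le_sum_of_subset_of_nonneg ?_ (fun r _ _ =>
            mul_nonneg (by positivity) (sum_nonneg fun ψ _ => norm_nonneg _))
          intro r hr
          rw [mem_filter, mem_Ioc] at hr
          rw [mem_Ioc]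
          exact ⟨hr.1.1, hr.2⟩
  calc ∑ q ∈ Ioc Q (2 * Q), (1 / (q.totient : ℝ)) *
        ∑ χ ∈ (Nch q).filter (fun χ => χ.conductor ≤ D), ‖TT N 0 (fun n => χ (n : ZMod q))‖
      ≤ ∑ q ∈ Ioc Q (2 * Q), ((1 / (q.totient : ℝ)) *
          ∑ χ ∈ Nch q, F χ.conductor χ.primitiveCharacter + (1 / (q.totient : ℝ)) *
          ∑ _χ ∈ (Nch q).filter (fun χ => χ.conductor ≤ D), DiA_E N 0 q) := by
        refine sum_le_sum fun q _ => ?_
        rw [← mul_add]
        refine mul_le_mul_of_nonneg_left ?_ (by positivity)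
        calc ∑ χ ∈ (Nch q).filter (fun χ => χ.conductor ≤ D), ‖TT N 0 (fun n => χ (n : ZMod q))‖
            ≤ ∑ χ ∈ (Nch q).filter (fun χ => χ.conductor ≤ D),
                (F χ.conductor χ.primitiveCharacter + DiA_E N 0 q) := by
              refine sum_le_sum fun χ hχ => ?_
              rw [mem_filter] at hχ
              rw [hFd, if_pos hχ.2]
              exact DiA_TT_sub χ
          _ = ∑ χ ∈ (Nch q).filter (fun χ => χ.conductor ≤ D), F χ.conductor χ.primitiveCharacter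
                + ∑ _χ ∈ (Nch q).filter (fun χ => χ.conductor ≤ D), DiA_E N 0 q := by
              rw [sum_add_distrib]
          _ ≤ _ := by
              refine add_le_add ?_ le_rfl
              exact sum_le_sum_of_subset_of_nonneg (filter_subset _ _) (fun χ _ _ => hF _ _)
    _ = (∑ q ∈ Ioc Q (2 * Q), (1 / (q.totient : ℝ)) *
          ∑ χ ∈ Nch q, F χ.conductor χ.primitiveCharacter) +
        ∑ q ∈ Ioc Q (2 * Q), (1 / (q.totient : ℝ)) *
          ∑ _χ ∈ (Nch q).filter (fun χ => χ.conductor ≤ D), DiA_E N 0 q := by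
        rw [sum_add_distrib]
    _ ≤ 4 * (1 + Real.log Q) ^ 2 *
          (∑ r ∈ Ioc 1 (2 * Q), (1 / (r.totient : ℝ)) * ∑ χ ∈ Pch r, F r χ) +
        Q * (2 * (1 + Real.log N) * (1 + Real.log Q)) := add_le_add hmain herr
    _ ≤ 4 * (1 + Real.log Q) ^ 2 * (∑ c ∈ Ioc 1 D, (1 / (c.totient : ℝ)) *
            ∑ ψ ∈ Pch c, ‖TT N 0 (fun n => ψ (n : ZMod c))‖)
        + 4 * Q * (1 + Real.log N) * (1 + Real.log Q) := by
        refine add_le_add (mul_le_mul_of_nonneg_left hsum (by positivity)) ?_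
        have h1 : 0 ≤ (Q : ℝ) * ((1 + Real.log N) * (1 + Real.log Q)) := by positivity
        calc (Q : ℝ) * (2 * (1 + Real.log N) * (1 + Real.log Q))
            = 2 * ((Q : ℝ) * ((1 + Real.log N) * (1 + Real.log Q))) := by ring
          _ ≤ 4 * ((Q : ℝ) * ((1 + Real.log N) * (1 + Real.log Q))) :=
              mul_le_mul_of_nonneg_right (by norm_num) h1
          _ = 4 * Q * (1 + Real.log N) * (1 + Real.log Q) := by ring

theorem sum_large_cond : ∃ C : ℝ, 0 < C ∧ ∀ N Q D : ℕ, 1 ≤ N → 1 ≤ Q → 1 ≤ D →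
    ∑ q ∈ Ioc Q (2 * Q), (1 / (q.totient : ℝ)) *
        ∑ χ ∈ (Nch q).filter (fun χ => D < χ.conductor), ‖TT N 0 (fun n => χ (n : ZMod q))‖ ^ 2
      ≤ C * (1 + Real.log Q) ^ 2 * (∑ c ∈ Ioc D (2 * Q), (1 / (c.totient : ℝ)) *
            ∑ ψ ∈ Pch c, ‖TT N 0 (fun n => ψ (n : ZMod c))‖ ^ 2)
        + C * Q * (1 + Real.log N) ^ 2 * (1 + Real.log Q) ^ 2 := by
  refine ⟨8, by norm_num, ?_⟩
  intro N Q D hN hQ hD
  have hLN : 0 ≤ Real.log N := Real.log_natCast_nonneg N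
  have hLQ : 0 ≤ Real.log Q := Real.log_natCast_nonneg Q
  obtain ⟨F, hFd⟩ : ∃ F : (r : ℕ) → DirichletCharacter ℂ r → ℝ, ∀ r χ, F r χ =
      if D < r then 2 * ‖TT N 0 (fun n => χ (n : ZMod r))‖ ^ 2 else 0 := ⟨_, fun _ _ => rfl⟩
  have hF : ∀ r χ, 0 ≤ F r χ := by
    intro r χ
    rw [hFd]
    split_ifs
    · positivity
    · exact le_rfl
  have hB : 0 ≤ 2 * (2 * (1 + Real.log N) * (1 + Real.log Q)) ^ 2 := by positivity
  have hmain := chB_reorg Q hQ F hF
  have herr := chB_err Q (fun q => 2 * (DiA_E N 0 q) ^ 2)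
    (2 * (2 * (1 + Real.log N) * (1 + Real.log Q)) ^ 2) hB
    (fun q hq => by
      rw [mem_Ioc] at hq
      exact mul_le_mul_of_nonneg_left (pow_le_pow_left₀ (DiA_E_nonneg _ _ _)
        (chB_E_le hN hQ (by omega) (by omega)) 2) (by norm_num))
    (fun q => (Nch q).filter (fun χ => D < χ.conductor)) (fun q => filter_subset _ _)
  have hsum : ∑ r ∈ Ioc 1 (2 * Q), (1 / (r.totient : ℝ)) * ∑ χ ∈ Pch r, F r χ ≤
      2 * ∑ c ∈ Ioc D (2 * Q), (1 / (c.totient : ℝ)) *
            ∑ ψ ∈ Pch c, ‖TT N 0 (fun n => ψ (n : ZMod c))‖ ^ 2 := by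
    calc ∑ r ∈ Ioc 1 (2 * Q), (1 / (r.totient : ℝ)) * ∑ χ ∈ Pch r, F r χ
        = ∑ r ∈ (Ioc 1 (2 * Q)).filter (fun r => D < r), 2 * ((1 / (r.totient : ℝ)) *
            ∑ ψ ∈ Pch r, ‖TT N 0 (fun n => ψ (n : ZMod r))‖ ^ 2) := by
          rw [sum_filter]
          refine sum_congr rfl fun r _ => ?_
          simp only [hFd]
          split_ifs
          · rw [← mul_sum]
            ring
          · rw [sum_const_zero, mul_zero]
      _ ≤ ∑ c ∈ Ioc D (2 * Q), 2 * ((1 / (c.totient : ℝ)) *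
            ∑ ψ ∈ Pch c, ‖TT N 0 (fun n => ψ (n : ZMod c))‖ ^ 2) := by
          refine sum_le_sum_of_subset_of_nonneg ?_ (fun r _ _ =>
            mul_nonneg (by norm_num) (mul_nonneg (by positivity)
              (sum_nonneg fun ψ _ => by positivity)))
          intro r hr
          rw [mem_filter, mem_Ioc] at hr
          rw [mem_Ioc]
          exact ⟨hr.2, hr.1.2⟩
      _ = _ := by rw [mul_sum]
  calc ∑ q ∈ Ioc Q (2 * Q), (1 / (q.totient : ℝ)) *
        ∑ χ ∈ (Nch q).filter (fun χ => D < χ.conductor), ‖TT N 0 (fun n => χ (n : ZMod q))‖ ^ 2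
      ≤ ∑ q ∈ Ioc Q (2 * Q), ((1 / (q.totient : ℝ)) *
          ∑ χ ∈ Nch q, F χ.conductor χ.primitiveCharacter + (1 / (q.totient : ℝ)) *
          ∑ _χ ∈ (Nch q).filter (fun χ => D < χ.conductor), 2 * (DiA_E N 0 q) ^ 2) := by
        refine sum_le_sum fun q _ => ?_
        rw [← mul_add]
        refine mul_le_mul_of_nonneg_left ?_ (by positivity)
        calc ∑ χ ∈ (Nch q).filter (fun χ => D < χ.conductor),
              ‖TT N 0 (fun n => χ (n : ZMod q))‖ ^ 2
            ≤ ∑ χ ∈ (Nch q).filter (fun χ => D < χ.conductor),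
                (F χ.conductor χ.primitiveCharacter + 2 * (DiA_E N 0 q) ^ 2) := by
              refine sum_le_sum fun χ hχ => ?_
              rw [mem_filter] at hχ
              rw [hFd, if_pos hχ.2]
              have h1 := DiA_TT_sub (N := N) (k := 0) χ
              have h2 := pow_le_pow_left₀ (norm_nonneg _) h1 2
              refine h2.trans ?_
              have h3 : ∀ x y : ℝ, (x + y) ^ 2 ≤ 2 * x ^ 2 + 2 * y ^ 2 := by
                intro x y
                have := sq_nonneg (x - y)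
                linarith [sq_nonneg (x - y), (by ring : (x - y) ^ 2 = x ^ 2 - 2 * x * y + y ^ 2),
                  (by ring : (x + y) ^ 2 = x ^ 2 + 2 * x * y + y ^ 2)]
              exact h3 _ _
          _ = ∑ χ ∈ (Nch q).filter (fun χ => D < χ.conductor), F χ.conductor χ.primitiveCharacter
                + ∑ _χ ∈ (Nch q).filter (fun χ => D < χ.conductor), 2 * (DiA_E N 0 q) ^ 2 := by
              rw [sum_add_distrib]
          _ ≤ _ := by
              refine add_le_add ?_ le_rfl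
              exact sum_le_sum_of_subset_of_nonneg (filter_subset _ _) (fun χ _ _ => hF _ _)
    _ = (∑ q ∈ Ioc Q (2 * Q), (1 / (q.totient : ℝ)) *
          ∑ χ ∈ Nch q, F χ.conductor χ.primitiveCharacter) +
        ∑ q ∈ Ioc Q (2 * Q), (1 / (q.totient : ℝ)) *
          ∑ _χ ∈ (Nch q).filter (fun χ => D < χ.conductor), 2 * (DiA_E N 0 q) ^ 2 := by
        rw [sum_add_distrib]
    _ ≤ 4 * (1 + Real.log Q) ^ 2 *
          (∑ r ∈ Ioc 1 (2 * Q), (1 / (r.totient : ℝ)) * ∑ χ ∈ Pch r, F r χ) +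
        Q * (2 * (2 * (1 + Real.log N) * (1 + Real.log Q)) ^ 2) := add_le_add hmain herr
    _ ≤ 4 * (1 + Real.log Q) ^ 2 *
          (2 * ∑ c ∈ Ioc D (2 * Q), (1 / (c.totient : ℝ)) *
            ∑ ψ ∈ Pch c, ‖TT N 0 (fun n => ψ (n : ZMod c))‖ ^ 2) +
        Q * (2 * (2 * (1 + Real.log N) * (1 + Real.log Q)) ^ 2) :=
        add_le_add (mul_le_mul_of_nonneg_left hsum (by positivity)) le_rfl
    _ = 8 * (1 + Real.log Q) ^ 2 * (∑ c ∈ Ioc D (2 * Q), (1 / (c.totient : ℝ)) *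
            ∑ ψ ∈ Pch c, ‖TT N 0 (fun n => ψ (n : ZMod c))‖ ^ 2)
        + 8 * Q * (1 + Real.log N) ^ 2 * (1 + Real.log Q) ^ 2 := by ring

end Pool.Agent.H91.EHA

end

section

/-!
# Character expansion of `Eom`

Orthogonality (see `DiA_orth`, `DiA_TT_one` in `PK/DiA.lean` for the case `a = N`); `W N 0 n = om(n/N)`.
-/

set_option autoImplicit false

namespace Pool.Agent.H91.EHA

open Finset
open Pool.Agent.H91.PK

theorem cha_inv_apply {q : ℕ} (χ : DirichletCharacter ℂ q) {x : ZMod q} (hx : IsUnit x) :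
    χ⁻¹ x = χ x⁻¹ := by
  obtain ⟨u, rfl⟩ := hx
  rw [MulChar.inv_apply, Ring.inverse_unit, ZMod.inv_coe_unit]

theorem cha_zero {q n : ℕ} (χ : DirichletCharacter ℂ q) (h : ¬ Nat.Coprime n q) :
    χ (n : ZMod q) = 0 := by
  refine χ.map_nonunit ?_
  intro hu
  exact h ((ZMod.isUnit_iff_coprime n q).mp hu)

theorem cha_one {q n : ℕ} (h : Nat.Coprime n q) :
    (1 : DirichletCharacter ℂ q) (n : ZMod q) = 1 :=
  MulChar.one_apply ((ZMod.isUnit_iff_coprime n q).mpr h)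

theorem cha_TT (N : ℕ) (f : ℕ → ℂ) :
    TT N 0 f = ∑ n ∈ Icc 1 N, f n * ((Lam n * om ((n : ℝ) / N) : ℝ) : ℂ) := by
  unfold TT
  refine sum_congr rfl fun n _ => ?_
  unfold W Lam
  rw [pow_zero, mul_one]
  push_cast
  ring

theorem Eom_eq (N q a : ℕ) (hq : 1 ≤ q) (ha : Nat.Coprime a q) :
    ((Eom N q a : ℝ) : ℂ) = (1 / (q.totient : ℂ)) * ∑ χ ∈ Nch q,
      χ⁻¹ (a : ZMod q) * TT N 0 (fun n => χ (n : ZMod q)) := by
  classical
  have : NeZero q := ⟨by omega⟩
  have hu : IsUnit (a : ZMod q) := (ZMod.isUnit_iff_coprime a q).mpr ha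
  have hphi : (q.totient : ℂ) ≠ 0 := by
    have := Nat.totient_pos.2 (show 0 < q by omega)
    exact_mod_cast this.ne'
  have hall : ∑ χ : DirichletCharacter ℂ q,
      χ⁻¹ (a : ZMod q) * TT N 0 (fun n => χ (n : ZMod q)) =
      (q.totient : ℂ) * ((∑ n ∈ (Icc 1 N).filter (fun n => n ≡ a [MOD q]),
        Lam n * om ((n : ℝ) / N) : ℝ) : ℂ) := by
    simp only [cha_TT, mul_sum]
    rw [sum_comm, Complex.ofReal_sum, mul_sum, sum_filter]
    refine sum_congr rfl fun n _ => ?_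
    have h1 : ∀ χ : DirichletCharacter ℂ q,
        χ⁻¹ (a : ZMod q) * (χ (n : ZMod q) * ((Lam n * om ((n : ℝ) / N) : ℝ) : ℂ)) =
        (χ ((a : ZMod q)⁻¹) * χ (n : ZMod q)) * ((Lam n * om ((n : ℝ) / N) : ℝ) : ℂ) := by
      intro χ
      rw [cha_inv_apply χ hu]
      ring
    simp only [h1]
    rw [← sum_mul, DirichletCharacter.sum_char_inv_mul_char_eq ℂ hu]
    have hiff : ((a : ZMod q) = (n : ZMod q)) ↔ n ≡ a [MOD q] := by
      rw [eq_comm, ZMod.natCast_eq_natCast_iff]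
    by_cases h : n ≡ a [MOD q]
    · rw [if_pos h, if_pos (hiff.mpr h)]
    · rw [if_neg h, if_neg (fun h' => h (hiff.mp h'))]
      simp
  have hone : TT N 0 (fun n => (1 : DirichletCharacter ℂ q) (n : ZMod q)) =
      ((∑ n ∈ (Icc 1 N).filter (fun n => Nat.Coprime n q), Lam n * om ((n : ℝ) / N) : ℝ) : ℂ) := by
    rw [cha_TT, Complex.ofReal_sum, sum_filter]
    refine sum_congr rfl fun n _ => ?_
    by_cases h : Nat.Coprime n q
    · rw [if_pos h, cha_one h, one_mul]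
    · rw [if_neg h, cha_zero _ h, zero_mul]
  have hNch : Nch q = univ.erase 1 := by
    ext χ
    rw [mem_Nch]
    simp
  have h1a : (1 : DirichletCharacter ℂ q)⁻¹ (a : ZMod q) = 1 := by
    rw [inv_one]
    exact cha_one ha
  rw [← Finset.add_sum_erase univ _ (mem_univ (1 : DirichletCharacter ℂ q)), ← hNch, h1a,
    one_mul, hone] at hall
  unfold Eom
  rw [Complex.ofReal_sub, Complex.ofReal_mul]
  have h2 := eq_sub_of_add_eq' hall
  rw [h2]
  push_cast
  field_simp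

theorem cha_sum_range {q : ℕ} [NeZero q] (F : ZMod q → ℂ)
    (hF : ∀ a : ℕ, ¬ Nat.Coprime a q → F (a : ZMod q) = 0) :
    ∑ a ∈ (range q).filter (fun a => Nat.Coprime a q), F (a : ZMod q) = ∑ x : ZMod q, F x := by
  rw [sum_filter]
  have h1 : ∑ a ∈ range q, (if Nat.Coprime a q then F (a : ZMod q) else 0) =
      ∑ a ∈ range q, F (a : ZMod q) := by
    refine sum_congr rfl fun a _ => ?_
    split_ifs with h
    · rfl
    · exact (hF a h).symm
  rw [h1]
  refine Finset.sum_bij' (fun a _ => (a : ZMod q)) (fun x _ => x.val) (fun _ _ => mem_univ _)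
    (fun x _ => mem_range.2 (ZMod.val_lt x)) (fun a ha => ZMod.val_cast_of_lt (mem_range.1 ha))
    (fun x _ => ZMod.natCast_zmod_val x) (fun _ _ => rfl)

open Classical in
theorem cha_orth {q : ℕ} (hq : 1 ≤ q) (χ ψ : DirichletCharacter ℂ q) :
    ∑ a ∈ (range q).filter (fun a => Nat.Coprime a q),
      χ⁻¹ (a : ZMod q) * (starRingEnd ℂ) (ψ⁻¹ (a : ZMod q)) =
      if χ = ψ then (q.totient : ℂ) else 0 := by
  have : NeZero q := ⟨by omega⟩
  have hs : ∀ x : ZMod q, (starRingEnd ℂ) (ψ⁻¹ x) = ψ x := by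
    intro x
    have h1 : star (ψ⁻¹) = (ψ⁻¹)⁻¹ := MulChar.star_eq_inv ψ⁻¹
    rw [inv_inv] at h1
    have h2 : (star (ψ⁻¹)) x = star (ψ⁻¹ x) := rfl
    rw [h1] at h2
    exact h2.symm
  have h3 : ∀ a : ℕ, χ⁻¹ (a : ZMod q) * (starRingEnd ℂ) (ψ⁻¹ (a : ZMod q)) =
      (fun x : ZMod q => (χ⁻¹ * ψ) x) (a : ZMod q) := by
    intro a
    rw [hs]
    rfl
  simp only [h3]
  rw [cha_sum_range (fun x : ZMod q => (χ⁻¹ * ψ) x) (fun a ha => cha_zero _ ha)]
  split_ifs with h
  · subst h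
    rw [inv_mul_cancel, MulChar.sum_one_eq_card_units, ZMod.card_units_eq_totient]
  · refine MulChar.sum_eq_zero_of_ne_one ?_
    intro h'
    exact h (inv_mul_eq_one.1 h')

/-- orthogonality in mean square, for any set of characters -/
theorem char_msq (q : ℕ) (hq : 1 ≤ q) (X : Finset (DirichletCharacter ℂ q))
    (T : DirichletCharacter ℂ q → ℂ) :
    ∑ a ∈ (range q).filter (fun a => Nat.Coprime a q),
        ‖(1 / (q.totient : ℂ)) * ∑ χ ∈ X, χ⁻¹ (a : ZMod q) * T χ‖ ^ 2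
      = (1 / (q.totient : ℝ)) * ∑ χ ∈ X, ‖T χ‖ ^ 2 := by
  classical
  have hphi : (q.totient : ℂ) ≠ 0 := by
    have := Nat.totient_pos.2 (show 0 < q by omega)
    exact_mod_cast this.ne'
  have hsq : ∀ z : ℂ, ((‖z‖ ^ 2 : ℝ) : ℂ) = z * (starRingEnd ℂ) z := by
    intro z
    rw [Complex.mul_conj, Complex.normSq_eq_norm_sq]
  apply Complex.ofReal_injective
  push_cast
  have e1 : ∀ a : ℕ, ((‖(1 / (q.totient : ℂ)) * ∑ χ ∈ X, χ⁻¹ (a : ZMod q) * T χ‖ : ℝ) : ℂ) ^ 2 =
      (1 / (q.totient : ℂ)) ^ 2 * ∑ χ ∈ X, ∑ ψ ∈ X, (T χ * (starRingEnd ℂ) (T ψ)) *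
        (χ⁻¹ (a : ZMod q) * (starRingEnd ℂ) (ψ⁻¹ (a : ZMod q))) := by
    intro a
    have h1 := hsq ((1 / (q.totient : ℂ)) * ∑ χ ∈ X, χ⁻¹ (a : ZMod q) * T χ)
    rw [Complex.ofReal_pow] at h1
    rw [h1, map_mul, map_sum]
    have h2 : (starRingEnd ℂ) (1 / (q.totient : ℂ)) = 1 / (q.totient : ℂ) := by
      rw [map_div₀, map_one, map_natCast]
    rw [h2]
    have h3 : (∑ χ ∈ X, χ⁻¹ (a : ZMod q) * T χ) *
        (∑ ψ ∈ X, (starRingEnd ℂ) (ψ⁻¹ (a : ZMod q) * T ψ)) =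
        ∑ χ ∈ X, ∑ ψ ∈ X, (T χ * (starRingEnd ℂ) (T ψ)) *
          (χ⁻¹ (a : ZMod q) * (starRingEnd ℂ) (ψ⁻¹ (a : ZMod q))) := by
      rw [sum_mul_sum]
      refine sum_congr rfl fun χ _ => sum_congr rfl fun ψ _ => ?_
      rw [map_mul]
      ring
    rw [← h3]
    ring
  simp only [e1]
  rw [← mul_sum, sum_comm]
  have e2 : ∀ χ ∈ X, ∑ a ∈ (range q).filter (fun a => Nat.Coprime a q), ∑ ψ ∈ X,
      (T χ * (starRingEnd ℂ) (T ψ)) * (χ⁻¹ (a : ZMod q) * (starRingEnd ℂ) (ψ⁻¹ (a : ZMod q))) =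
      (q.totient : ℂ) * ((‖T χ‖ : ℝ) : ℂ) ^ 2 := by
    intro χ hχ
    rw [sum_comm]
    simp only [← mul_sum, cha_orth hq]
    simp only [mul_ite, mul_zero]
    rw [Finset.sum_ite_eq, if_pos hχ]
    have h1 := hsq (T χ)
    rw [Complex.ofReal_pow] at h1
    rw [h1]
    ring
  rw [sum_congr rfl e2, ← mul_sum]
  field_simp

end Pool.Agent.H91.EHA

end
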