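import Pool.Agent.H94.EH.H91.PK.Defs

/-! The parts of this file: H91.GoldMertens, H91.GoldMertens2, H91.PK.Msq. -/

section

/-!
Explicit weak forms of the theorem of Mertens for `∑ 1/p`.
-/

namespace Pool.Agent.H91.Gold

open Finset Real
open scoped ArithmeticFunction.vonMangoldt

/-- Discrete partial summation. -/
theorem abel_le {w z : ℕ} (hwz : w ≤ z) {c : ℝ} (hc : 0 ≤ c) {a b f : ℕ → ℝ}
    (hf0 : ∀ k, w < k → k ≤ z → 0 ≤ f k) (hf1 : 0 ≤ f (w + 1)) (hf : ∀ k, w < k → k < z → f (k + 1) ≤ f k)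
    (hA : ∀ m, w ≤ m → m ≤ z → ∑ k ∈ Ioc w m, a k ≤ ∑ k ∈ Ioc w m, b k + c) :
    ∑ k ∈ Ioc w z, a k * f k ≤ ∑ k ∈ Ioc w z, b k * f k + c * f (w + 1) := by
  have key : ∀ m, w ≤ m → m < z →
      (∑ k ∈ Ioc w (m + 1), b k + c - ∑ k ∈ Ioc w (m + 1), a k) * f (m + 1)
        ≤ ∑ k ∈ Ioc w (m + 1), b k * f k + c * f (w + 1) - ∑ k ∈ Ioc w (m + 1), a k * f k := by
    intro m hm
    induction m, hm using Nat.le_induction with
    | base =>
      intro _
      have : Ioc w (w + 1) = {w + 1} := by ext x; simp only [mem_Ioc, mem_singleton]; omega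
      rw [this]
      simp
      linarith
    | succ m hm ih =>
      intro hmz
      have ih' := ih (by omega)
      have e : ∀ h : ℕ → ℝ, ∑ k ∈ Ioc w (m + 1 + 1), h k = ∑ k ∈ Ioc w (m + 1), h k + h (m + 1 + 1) := by
        intro h
        rw [sum_Ioc_succ_top (by omega)]
      rw [e, e, e, e]
      have h1 := hA (m + 1) (by omega) (by omega)
      have h2 := hf (m + 1) (by omega) hmz
      have h3 : (∑ k ∈ Ioc w (m + 1), b k + c - ∑ k ∈ Ioc w (m + 1), a k) * f (m + 1 + 1)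
          ≤ (∑ k ∈ Ioc w (m + 1), b k + c - ∑ k ∈ Ioc w (m + 1), a k) * f (m + 1) :=
        mul_le_mul_of_nonneg_left h2 (by linarith)
      nlinarith
  rcases eq_or_lt_of_le hwz with h | h
  · subst h
    simp
    positivity
  · obtain ⟨m, rfl⟩ : ∃ m, z = m + 1 := ⟨z - 1, by omega⟩
    have h1 := key m (by omega) (by omega)
    have h2 := hA (m + 1) (by omega) le_rfl
    have h3 := hf0 (m + 1) (by omega) le_rfl
    have h4 : 0 ≤ (∑ k ∈ Ioc w (m + 1), b k + c - ∑ k ∈ Ioc w (m + 1), a k) * f (m + 1) :=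
      mul_nonneg (by linarith) h3
    linarith

/-- The sum of `Λ d / d` for `d ≤ n`. -/
noncomputable def Mt (n : ℕ) : ℝ := ∑ d ∈ Ioc 0 n, Λ d / d

theorem log_fact_eq (n : ℕ) : ∑ k ∈ Ioc 0 n, Real.log k = ∑ d ∈ Ioc 0 n, Λ d * ((n / d : ℕ) : ℝ) := by
  rw [← ArithmeticFunction.sum_Ioc_mul_zeta_eq_sum, ArithmeticFunction.vonMangoldt_mul_zeta]
  rfl

theorem log_fact_ge (n : ℕ) (hn : 1 ≤ n) : n * Real.log n - n ≤ ∑ k ∈ Ioc 0 n, Real.log k := by
  induction n, hn using Nat.le_induction with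
  | base => simp
  | succ n hn ih =>
    rw [sum_Ioc_succ_top (by omega)]
    have hn0 : (0 : ℝ) < n := by exact_mod_cast hn
    have h1 : Real.log ((n + 1 : ℕ) : ℝ) - Real.log n ≤ 1 / n := by
      rw [← Real.log_div (by positivity) hn0.ne']
      have := Real.log_le_sub_one_of_pos (x := ((n + 1 : ℕ) : ℝ) / n) (by positivity)
      have e : ((n + 1 : ℕ) : ℝ) / n - 1 = 1 / n := by push_cast; field_simp; ring
      linarith
    have h2 : (n : ℝ) * (Real.log ((n + 1 : ℕ) : ℝ) - Real.log n) ≤ 1 := by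
      calc (n : ℝ) * (Real.log ((n + 1 : ℕ) : ℝ) - Real.log n) ≤ n * (1 / n) :=
            mul_le_mul_of_nonneg_left h1 hn0.le
        _ = 1 := by field_simp
    push_cast at *
    nlinarith

theorem log_fact_le (n : ℕ) (hn : 1 ≤ n) :
    ∑ k ∈ Ioc 0 n, Real.log k ≤ n * Real.log n - n + 1 + Real.log n := by
  induction n, hn using Nat.le_induction with
  | base => simp
  | succ n hn ih =>
    rw [sum_Ioc_succ_top (by omega)]
    have hn0 : (0 : ℝ) < n := by exact_mod_cast hn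
    have h1 : 1 / ((n + 1 : ℕ) : ℝ) ≤ Real.log ((n + 1 : ℕ) : ℝ) - Real.log n := by
      have h := Real.log_le_sub_one_of_pos (x := (n : ℝ) / ((n + 1 : ℕ) : ℝ)) (by positivity)
      rw [Real.log_div hn0.ne' (by positivity)] at h
      have e : (n : ℝ) / ((n + 1 : ℕ) : ℝ) - 1 = - (1 / ((n + 1 : ℕ) : ℝ)) := by
        push_cast; field_simp; ring
      linarith
    have h2 : 1 ≤ ((n + 1 : ℕ) : ℝ) * (Real.log ((n + 1 : ℕ) : ℝ) - Real.log n) := by
      calc (1 : ℝ) = ((n + 1 : ℕ) : ℝ) * (1 / ((n + 1 : ℕ) : ℝ)) := by field_simp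
        _ ≤ _ := mul_le_mul_of_nonneg_left h1 (by positivity)
    push_cast at *
    nlinarith

end Pool.Agent.H91.Gold

end

section

/-!
A sharper explicit form of the theorem of Mertens for `∑ log p / p` and `∑ 1/p`, by linear
combinations of `log n!`.
-/

namespace Pool.Agent.H91.Gold

open Finset Real
open scoped ArithmeticFunction.vonMangoldt

/-- `log n!` -/
noncomputable def Tf (n : ℕ) : ℝ := ∑ k ∈ Ioc 0 n, Real.log k

theorem psi_eq (n : ℕ) : Chebyshev.psi n = ∑ d ∈ Ioc 0 n, Λ d := by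
  rw [Chebyshev.psi]; simp

theorem Tf_div (m n i : ℕ) (hmi : m / i ≤ n) :
    Tf (m / i) = ∑ d ∈ Ioc 0 n, Λ d * (((m / d) / i : ℕ) : ℝ) := by
  unfold Tf
  rw [log_fact_eq]
  have h1 : ∑ d ∈ Ioc 0 (m / i), Λ d * ((m / i / d : ℕ) : ℝ)
      = ∑ d ∈ Ioc 0 (m / i), Λ d * (((m / d) / i : ℕ) : ℝ) := by
    apply sum_congr rfl
    intro d _
    rw [Nat.div_div_eq_div_mul, Nat.div_div_eq_div_mul, mul_comm i d]
  rw [h1]
  apply sum_subset
  · intro d hd
    rw [mem_Ioc] at hd ⊢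
    omega
  · intro d hd hd'
    rw [mem_Ioc] at hd hd'
    have h2 : m / i < d := by omega
    have h3 : m / d / i = 0 := by
      rw [Nat.div_div_eq_div_mul, mul_comm d i, ← Nat.div_div_eq_div_mul]
      exact Nat.div_eq_of_lt h2
    rw [h3]; simp

theorem Tf_ge {m i : ℕ} (hi : 1 ≤ i) (him : i ≤ m) :
    (m : ℝ) / i * Real.log ((m : ℝ) / i) - (m : ℝ) / i - Real.log ((m : ℝ) / i) ≤ Tf (m / i) := by
  have hi0 : (0 : ℝ) < i := by exact_mod_cast hi
  have hm0 : (0 : ℝ) < m := by exact_mod_cast (by omega : 0 < m)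
  have h1 : 1 ≤ m / i := (Nat.one_le_div_iff hi).2 him
  have h2 := log_fact_ge (m / i) h1
  set k := m / i with hk
  set x : ℝ := (m : ℝ) / i with hx
  have hx0 : 0 < x := by positivity
  have hk0 : (0 : ℝ) < k := by exact_mod_cast h1
  have hkx : (k : ℝ) ≤ x := Nat.cast_div_le
  have hxk : x ≤ k + 1 := by
    rw [hx, div_le_iff₀ hi0]
    have h3 := Nat.div_add_mod m i
    have h4 := Nat.mod_lt m (show 0 < i by omega)
    have h5 : m ≤ (k + 1) * i := by rw [hk]; nlinarith only [h3, h4]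
    exact_mod_cast h5
  have hx1 : 1 ≤ x := by
    have : (1 : ℝ) ≤ k := by exact_mod_cast h1
    linarith only [hkx, this]
  have h3 := Real.log_le_sub_one_of_pos (x := x / k) (by positivity)
  rw [Real.log_div hx0.ne' hk0.ne'] at h3
  have h4 : (k : ℝ) * (Real.log x - Real.log k) ≤ x - k := by
    calc (k : ℝ) * (Real.log x - Real.log k) ≤ k * (x / k - 1) :=
          mul_le_mul_of_nonneg_left h3 hk0.le
      _ = x - k := by field_simp
  have h5 : 0 ≤ Real.log x := Real.log_nonneg hx1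
  have h6 : (x - k) * Real.log x ≤ 1 * Real.log x :=
    mul_le_mul_of_nonneg_right (by linarith only [hxk]) h5
  unfold Tf
  nlinarith only [h2, h4, h6]

theorem Tf_le {m i : ℕ} (hi : 1 ≤ i) (him : i ≤ m) :
    Tf (m / i) ≤ (m : ℝ) / i * Real.log ((m : ℝ) / i) - (m : ℝ) / i + 1 + Real.log ((m : ℝ) / i) := by
  have hi0 : (0 : ℝ) < i := by exact_mod_cast hi
  have hm0 : (0 : ℝ) < m := by exact_mod_cast (by omega : 0 < m)
  have h1 : 1 ≤ m / i := (Nat.one_le_div_iff hi).2 him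
  have h2 := log_fact_le (m / i) h1
  set k := m / i with hk
  set x : ℝ := (m : ℝ) / i with hx
  have hx0 : 0 < x := by positivity
  have hk0 : (0 : ℝ) < k := by exact_mod_cast h1
  have hk1 : (1 : ℝ) ≤ k := by exact_mod_cast h1
  have hkx : (k : ℝ) ≤ x := Nat.cast_div_le
  have h3 := Real.log_le_sub_one_of_pos (x := k / x) (by positivity)
  rw [Real.log_div hk0.ne' hx0.ne'] at h3
  have h4 : x - k ≤ x * (Real.log x - Real.log k) := by
    calc x - k = x * (-(k / x - 1)) := by field_simp; ring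
      _ ≤ x * (Real.log x - Real.log k) := mul_le_mul_of_nonneg_left (by linarith only [h3]) hx0.le
  have h5 : 0 ≤ Real.log k := Real.log_nonneg hk1
  have h6 : Real.log k ≤ Real.log x := Real.log_le_log hk0 hkx
  have h7 : 0 ≤ (x - k) * Real.log k := mul_nonneg (by linarith only [hkx]) h5
  unfold Tf
  nlinarith only [h2, h4, h6, h7]

/-! ### The theorem of Hanson: `ψ(n) ≤ n log 3` -/

def lcmChk : ℕ → ℕ → ℕ → ℕ → Bool
  | 0, _, _, _ => true
  | f + 1, n, L, T => Nat.ble L T && lcmChk f (n + 1) (Nat.lcm L (n + 1)) (3 * T)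

theorem lcmUpto_succ (n : ℕ) : Nat.lcmUpto (n + 1) = Nat.lcm (Nat.lcmUpto n) (n + 1) := by
  have h1 : Icc 1 (n + 1) = insert (n + 1) (Icc 1 n) := by
    ext x; simp only [mem_Icc, mem_insert]; omega
  unfold Nat.lcmUpto
  rw [h1, Finset.lcm_insert]
  simp only [id_eq]
  rw [← lcm_comm]
  rfl

theorem lcmChk_spec (f n : ℕ) (h : lcmChk f n (Nat.lcmUpto n) (3 ^ n) = true) :
    ∀ m, n ≤ m → m < n + f → Nat.lcmUpto m ≤ 3 ^ m := by
  induction f generalizing n with
  | zero => intro m h1 h2; omega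
  | succ f ih =>
    intro m h1 h2
    simp only [lcmChk, Bool.and_eq_true, Nat.ble_eq] at h
    rcases eq_or_lt_of_le h1 with h3 | h3
    · subst h3; exact h.1
    · apply ih (n + 1) _ m (by omega) (by omega)
      rw [lcmUpto_succ, pow_succ, mul_comm (3 ^ n) 3]
      exact h.2

theorem lcmChk_run : lcmChk 3001 0 1 1 = true := by decide +kernel

theorem psi_small {n : ℕ} (hn : n ≤ 3000) : Chebyshev.psi n ≤ Real.log 3 * n := by
  have h0 : Nat.lcmUpto 0 = 1 := by unfold Nat.lcmUpto; simp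
  have h1 := lcmChk_spec 3001 0 (by rw [h0, pow_zero]; exact lcmChk_run) n (by omega) (by omega)
  rw [Chebyshev.psi_eq_log_lcmUpto]
  have h2 : (0 : ℝ) < Nat.lcmUpto n := by exact_mod_cast Nat.lcmUpto_pos n
  calc Real.log (Nat.lcmUpto n) ≤ Real.log ((3 : ℝ) ^ n) := by
        apply Real.log_le_log h2
        exact_mod_cast h1
    _ = Real.log 3 * n := by rw [Real.log_pow]; ring

theorem psi_step (n : ℕ) : Chebyshev.psi n ≤ Chebyshev.psi ((n / 1806 : ℕ) : ℝ)
    + (Tf n - Tf (n / 2) - Tf (n / 3) - Tf (n / 7) - Tf (n / 43) - Tf (n / 1806)) := by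
  have e : ∀ i : ℕ, 1 ≤ i → Tf (n / i) = ∑ d ∈ Ioc 0 n, Λ d * (((n / d) / i : ℕ) : ℝ) := by
    intro i hi
    exact Tf_div _ _ _ (Nat.div_le_self _ _)
  have e1 := e 1 le_rfl
  rw [Nat.div_one] at e1
  rw [e1, e 2 (by norm_num), e 3 (by norm_num), e 7 (by norm_num), e 43 (by norm_num),
    e 1806 (by norm_num), psi_eq, psi_eq]
  have h1 : ∑ d ∈ Ioc 0 (n / 1806), Λ d = ∑ d ∈ Ioc 0 n, (if 1806 ≤ n / d then Λ d else 0) := by
    rw [← sum_filter]
    apply sum_congr _ (fun _ _ => rfl)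
    ext d
    simp only [mem_Ioc, mem_filter]
    constructor
    · rintro ⟨h1, h2⟩
      have h3 : d * 1806 ≤ n := (Nat.le_div_iff_mul_le (by norm_num)).1 h2
      refine ⟨⟨h1, by omega⟩, (Nat.le_div_iff_mul_le h1).2 (by linarith only [h3])⟩
    · rintro ⟨⟨h1, h2⟩, h3⟩
      refine ⟨h1, (Nat.le_div_iff_mul_le (by norm_num)).2 ?_⟩
      have := (Nat.le_div_iff_mul_le h1).1 h3
      linarith only [this]
  rw [h1]
  simp only [← sum_sub_distrib, ← sum_add_distrib]
  apply sum_le_sum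
  intro d hd
  rw [mem_Ioc] at hd
  have hL := ArithmeticFunction.vonMangoldt_nonneg (n := d)
  have ht : 1 ≤ n / d := (Nat.one_le_div_iff hd.1).2 hd.2
  set t := n / d with htd
  have key : 1 + (t / 2 + t / 3 + t / 7 + t / 43 + t / 1806) ≤ (if 1806 ≤ t then 1 else 0) + t := by
    split_ifs with h <;> omega
  have key2 : (1 : ℝ) + ((t / 2 : ℕ) + (t / 3 : ℕ) + (t / 7 : ℕ) + (t / 43 : ℕ) + (t / 1806 : ℕ))
      ≤ (if 1806 ≤ t then (1 : ℝ) else 0) + t := by
    have := (Nat.cast_le (α := ℝ)).2 key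
    push_cast at this
    exact this
  rw [Nat.div_one]
  have := mul_le_mul_of_nonneg_left key2 hL
  have h5 : Λ d * (if 1806 ≤ t then (1 : ℝ) else 0) = if 1806 ≤ t then Λ d else 0 := by
    split_ifs <;> simp
  simp only [mul_add, h5] at this
  linarith only [this]

theorem log_three_bounds : (84 : ℝ) / 53 * Real.log 2 ≤ Real.log 3 ∧ Real.log 3 ≤ 485 / 306 * Real.log 2 := by
  constructor
  · have h : Real.log ((2 : ℝ) ^ 84) ≤ Real.log ((3 : ℝ) ^ 53) :=
      Real.log_le_log (by norm_num) (by norm_num)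
    rw [Real.log_pow, Real.log_pow] at h
    push_cast at h
    linarith only [h]
  · have h : Real.log ((9 : ℝ) ^ 153) ≤ Real.log ((32 : ℝ) ^ 97) :=
      Real.log_le_log (by norm_num) (by norm_num)
    rw [Real.log_pow, Real.log_pow, show (9 : ℝ) = 3 ^ 2 by norm_num,
      show (32 : ℝ) = 2 ^ 5 by norm_num, Real.log_pow, Real.log_pow] at h
    push_cast at h
    linarith only [h]

theorem log_seven_le : Real.log 7 ≤ 73 / 26 * Real.log 2 := by
  have h : Real.log ((7 : ℝ) ^ 26) ≤ Real.log ((2 : ℝ) ^ 73) :=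
    Real.log_le_log (by norm_num) (by norm_num)
  rw [Real.log_pow, Real.log_pow] at h
  push_cast at h
  linarith only [h]

theorem log_43_le : Real.log 43 ≤ 38 / 7 * Real.log 2 := by
  have h : Real.log ((43 : ℝ) ^ 7) ≤ Real.log ((2 : ℝ) ^ 38) :=
    Real.log_le_log (by norm_num) (by norm_num)
  rw [Real.log_pow, Real.log_pow] at h
  push_cast at h
  linarith only [h]

/-- The theorem of Hanson: `lcm(1,...,n) ≤ 3 ^ n`. -/
theorem psi_le_log_three (n : ℕ) : Chebyshev.psi n ≤ Real.log 3 * n := by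
  induction n using Nat.strong_induction_on with
  | _ n ih =>
    by_cases hn : n ≤ 3000
    · exact psi_small hn
    push Not at hn
    have h0 := ih (n / 1806) (by omega)
    have h1 := psi_step n
    have hn0 : (3000 : ℝ) < n := by exact_mod_cast hn
    have hnp : (0 : ℝ) < n := by linarith only [hn0]
    have hd : ((n / 1806 : ℕ) : ℝ) ≤ (n : ℝ) / 1806 := by
      have := @Nat.cast_div_le ℝ _ _ _ n 1806
      exact_mod_cast this
    have t1 := Tf_le (m := n) (i := 1) le_rfl (by omega)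
    have t2 := Tf_ge (m := n) (i := 2) (by norm_num) (by omega)
    have t3 := Tf_ge (m := n) (i := 3) (by norm_num) (by omega)
    have t7 := Tf_ge (m := n) (i := 7) (by norm_num) (by omega)
    have t43 := Tf_ge (m := n) (i := 43) (by norm_num) (by omega)
    have t1806 := Tf_ge (m := n) (i := 1806) (by norm_num) (by omega)
    rw [Nat.div_one] at t1
    push_cast at t1 t2 t3 t7 t43 t1806
    rw [div_one] at t1
    rw [Real.log_div hnp.ne' (by norm_num)] at t2 t3 t7 t43 t1806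
    have l3 := log_three_bounds
    have l7 := log_seven_le
    have l43 := log_43_le
    have l2 := Real.log_two_lt_d9
    have l2' := Real.log_two_gt_d9
    have e1806 : Real.log 1806 = Real.log 2 + Real.log 3 + Real.log 7 + Real.log 43 := by
      rw [← Real.log_mul (by norm_num) (by norm_num), ← Real.log_mul (by norm_num) (by norm_num),
        ← Real.log_mul (by norm_num) (by norm_num)]
      norm_num
    have p7 : 0 < Real.log 7 := Real.log_pos (by norm_num)
    have p43 : (3.5 : ℝ) ≤ Real.log 43 := by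
      have h : Real.log ((2 : ℝ) ^ 5) ≤ Real.log 43 := Real.log_le_log (by norm_num) (by norm_num)
      rw [Real.log_pow] at h
      have h' : (3.4657 : ℝ) ≤ Real.log 43 := by push_cast at h; linarith only [l2', h]
      have h2 : Real.log ((2 : ℝ) ^ 27) ≤ Real.log ((43 : ℝ) ^ 5) := Real.log_le_log (by norm_num) (by norm_num)
      rw [Real.log_pow, Real.log_pow] at h2
      push_cast at h2
      linarith only [l2', h2]
    have p7' : (1.9 : ℝ) ≤ Real.log 7 := by
      have h2 : Real.log ((2 : ℝ) ^ 14) ≤ Real.log ((7 : ℝ) ^ 5) := Real.log_le_log (by norm_num) (by norm_num)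
      rw [Real.log_pow, Real.log_pow] at h2
      push_cast at h2
      linarith only [l2', h2]
    -- `log n ≤ n / 4096 - 1 + log 4096`
    have hlog : Real.log n ≤ n / 4096 - 1 + 12 * Real.log 2 := by
      have h := Real.log_le_sub_one_of_pos (x := (n : ℝ) / 4096) (by positivity)
      rw [Real.log_div hnp.ne' (by norm_num)] at h
      have e : Real.log (4096 : ℝ) = 12 * Real.log 2 := by
        rw [show (4096 : ℝ) = 2 ^ 12 by norm_num, Real.log_pow]; norm_num
      rw [e] at h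
      linarith only [h]
    rw [e1806] at t1806
    have main : Chebyshev.psi n ≤ Real.log 3 * (n / 1806)
        + n * (Real.log 2 / 2 + Real.log 3 / 3 + Real.log 7 / 7 + Real.log 43 / 43
            + (Real.log 2 + Real.log 3 + Real.log 7 + Real.log 43) / 1806)
        + 1 + 6 * Real.log n - 2 * (Real.log 2 + Real.log 3 + Real.log 7 + Real.log 43) := by
      have l3pos : 0 ≤ Real.log 3 := by linarith only [l2', l3.1]
      have := mul_le_mul_of_nonneg_left hd l3pos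
      nlinarith only [h0, h1, t2, t3, t7, t43, t1806, t1, this]
    have e5 : n * (Real.log 2 / 2 + Real.log 3 / 3 + Real.log 7 / 7 + Real.log 43 / 43
            + (Real.log 2 + Real.log 3 + Real.log 7 + Real.log 43) / 1806) + Real.log 3 * (n / 1806) + 6 * (n / 4096)
            + 32
          ≤ Real.log 3 * n := by
      have q1 : Real.log 2 / 2 + Real.log 3 / 3 + Real.log 7 / 7 + Real.log 43 / 43
            + (Real.log 2 + Real.log 3 + Real.log 7 + Real.log 43) / 1806 + Real.log 3 / 1806 + 6 / 4096 + 0.011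
            ≤ Real.log 3 := by linarith only [l7, l43, l2', l3.1]
      have q2 := mul_le_mul_of_nonneg_left q1 hnp.le
      nlinarith only [hn0, q2]
    linarith only [l2, p43, p7', hlog, main, e5, l3.1]

/-! ### Linear combinations of `log n!` -/

/-- `∑ a ⌊k / i⌋` -/
def evl : List (ℕ × ℕ) → ℕ → ℕ
  | [], _ => 0
  | x :: l, k => x.2 * (k / x.1) + evl l k

/-- `∑ a` -/
def sml : List (ℕ × ℕ) → ℕ
  | [] => 0
  | x :: l => x.2 + sml l

/-- `∑ J [s ≤ k]` -/
def stp : List (ℕ × ℕ) → ℕ → ℕ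
  | [], _ => 0
  | x :: l, k => (if x.1 ≤ k then x.2 else 0) + stp l k

/-- `∑ a / i` -/
def rsq : List (ℕ × ℕ) → ℚ
  | [] => 0
  | x :: l => (x.2 : ℚ) / x.1 + rsq l

/-- `∑ a T(q n / i)` -/
noncomputable def Tl (q : ℕ) : List (ℕ × ℕ) → ℕ → ℝ
  | [], _ => 0
  | x :: l, n => x.2 * Tf (q * n / x.1) + Tl q l n

/-- `∑ a (q / i) log (q / i)` -/
noncomputable def c0l (q : ℕ) : List (ℕ × ℕ) → ℝ
  | [] => 0
  | x :: l => x.2 * ((q : ℝ) / x.1 * Real.log ((q : ℝ) / x.1)) + c0l q l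

theorem Tl_eq {q : ℕ} (l : List (ℕ × ℕ)) (n : ℕ) (hl : ∀ x ∈ l, q ≤ x.1) :
    Tl q l n = ∑ d ∈ Ioc 0 n, Λ d * (evl l (q * n / d) : ℝ) := by
  induction l with
  | nil => simp [Tl, evl]
  | cons x l ih =>
    have hx := hl x (by simp)
    simp only [Tl, evl]
    rw [ih (fun y hy => hl y (by simp [hy])), Tf_div (q * n) n x.1, mul_sum, ← sum_add_distrib]
    · apply sum_congr rfl
      intro d _
      push_cast
      ring
    · apply Nat.div_le_of_le_mul
      nlinarith only [hx]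

theorem stp_sum {q : ℕ} (l : List (ℕ × ℕ)) (n : ℕ) (hl : ∀ x ∈ l, 1 ≤ x.1) :
    ∑ d ∈ Ioc 0 n, Λ d * (stp l (q * n / d) : ℝ) ≤ Real.log 3 * (q * n) * (rsq l : ℝ) := by
  induction l with
  | nil => simp [stp, rsq]
  | cons x l ih =>
    have ih' := ih (fun y hy => hl y (by simp [hy]))
    have hx := hl x (by simp)
    have hx0 : (0 : ℝ) < x.1 := by exact_mod_cast hx
    simp only [stp, rsq]
    have h1 : ∑ d ∈ Ioc 0 n, Λ d * (((if x.1 ≤ q * n / d then x.2 else 0) + stp l (q * n / d) : ℕ) : ℝ)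
        = x.2 * ∑ d ∈ Ioc 0 n, (if x.1 ≤ q * n / d then Λ d else 0)
          + ∑ d ∈ Ioc 0 n, Λ d * (stp l (q * n / d) : ℝ) := by
      rw [mul_sum, ← sum_add_distrib]
      apply sum_congr rfl
      intro d _
      split_ifs
      · push_cast; ring
      · push_cast; ring
    have h2 : ∑ d ∈ Ioc 0 n, (if x.1 ≤ q * n / d then Λ d else 0)
        ≤ Chebyshev.psi ((q * n / x.1 : ℕ) : ℝ) := by
      rw [← sum_filter, psi_eq]
      apply sum_le_sum_of_subset_of_nonneg
      · intro d hd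
        rw [mem_filter, mem_Ioc] at hd
        rw [mem_Ioc]
        refine ⟨hd.1.1, (Nat.le_div_iff_mul_le hx).2 ?_⟩
        have := (Nat.le_div_iff_mul_le hd.1.1).1 hd.2
        linarith only [this]
      · intro d _ _
        exact ArithmeticFunction.vonMangoldt_nonneg
    have h3 := psi_le_log_three (q * n / x.1)
    have h4 : ((q * n / x.1 : ℕ) : ℝ) ≤ (q * n : ℝ) / x.1 := by
      have := @Nat.cast_div_le ℝ _ _ _ (q * n) x.1
      push_cast at this
      exact this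
    have h5 : 0 ≤ Real.log 3 := Real.log_nonneg (by norm_num)
    have h6 : ∑ d ∈ Ioc 0 n, (if x.1 ≤ q * n / d then Λ d else 0) ≤ Real.log 3 * ((q * n : ℝ) / x.1) :=
      (h2.trans h3).trans (mul_le_mul_of_nonneg_left h4 h5)
    have h7 := mul_le_mul_of_nonneg_left h6 (Nat.cast_nonneg x.2 : (0 : ℝ) ≤ x.2)
    rw [h1]
    push_cast
    have h8 : (x.2 : ℝ) * (Real.log 3 * ((q * n : ℝ) / x.1)) = Real.log 3 * (q * n) * ((x.2 : ℝ) / x.1) := by
      field_simp
    rw [mul_add, ← h8]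
    linarith only [ih', h7]

/-- Main terms of `Tl`. -/
noncomputable def mainT (q : ℕ) (l : List (ℕ × ℕ)) (n : ℕ) : ℝ :=
  n * (Real.log n - 1) * (q * (rsq l : ℝ)) + n * c0l q l

theorem Tl_bounds {q : ℕ} (l : List (ℕ × ℕ)) (n : ℕ) (hq : 1 ≤ q) (hn : 1 ≤ n)
    (hl : ∀ x ∈ l, q ≤ x.1 ∧ x.1 ≤ n) :
    mainT q l n - sml l * (Real.log n + 1) ≤ Tl q l n
      ∧ Tl q l n ≤ mainT q l n + sml l * (Real.log n + 1) := by
  induction l with
  | nil => simp [Tl, sml, mainT, rsq, c0l]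
  | cons x l ih =>
    obtain ⟨ih1, ih2⟩ := ih (fun y hy => hl y (by simp [hy]))
    obtain ⟨hx1, hx2⟩ := hl x (by simp)
    have hx0 : (0 : ℝ) < x.1 := by exact_mod_cast (by omega : 0 < x.1)
    have hq0 : (0 : ℝ) < q := by exact_mod_cast hq
    have hn0 : (0 : ℝ) < n := by exact_mod_cast hn
    have hle : x.1 ≤ q * n := by nlinarith only [hq, hx2]
    have g1 := Tf_ge (m := q * n) (i := x.1) (by omega) hle
    have g2 := Tf_le (m := q * n) (i := x.1) (by omega) hle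
    have e1 : ((q * n : ℕ) : ℝ) / x.1 = n * ((q : ℝ) / x.1) := by push_cast; ring
    have e2 : Real.log ((n : ℝ) * ((q : ℝ) / x.1)) = Real.log n + Real.log ((q : ℝ) / x.1) :=
      Real.log_mul hn0.ne' (by positivity)
    have e3 : Real.log ((q : ℝ) / x.1) ≤ 0 := by
      apply Real.log_nonpos (by positivity)
      rw [div_le_one hx0]
      exact_mod_cast hx1
    rw [e1, e2] at g1 g2
    have hlog : 0 ≤ Real.log n + 1 := by
      have := Real.log_natCast_nonneg n
      linarith only [this]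
    have a0 : (0 : ℝ) ≤ x.2 := Nat.cast_nonneg _
    simp only [Tl, sml, mainT, rsq, c0l] at *
    push_cast
    set r : ℝ := (q : ℝ) / x.1 with hr
    have e4 : (q : ℝ) * ((x.2 : ℝ) / x.1) = x.2 * r := by rw [hr]; ring
    have m1 := mul_le_mul_of_nonneg_left g1 a0
    have m2 := mul_le_mul_of_nonneg_left g2 a0
    have m3 : (x.2 : ℝ) * (Real.log r) ≤ 0 := mul_nonpos_of_nonneg_of_nonpos a0 e3
    have e5 : (n : ℝ) * (Real.log n - 1) * (q * ((x.2 : ℝ) / x.1 + (rsq l : ℝ)))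
        = n * (Real.log n - 1) * (q * (rsq l : ℝ)) + x.2 * (n * r * Real.log n - n * r) := by
      rw [mul_add (q : ℝ), e4]; ring
    rw [e5]
    constructor
    · linarith only [ih1, m1, m3]
    · linarith only [ih2, m2, m3]

/-- The parameters of a linear combination, with all conditions checked by computation. -/
structure Cmb where
  q : ℕ
  L : ℕ
  K : ℕ
  M : ℕ
  P : List (ℕ × ℕ)
  N : List (ℕ × ℕ)
  SU : List (ℕ × ℕ)
  SL : List (ℕ × ℕ)
  w : ℕ

def Cmb.chkU (c : Cmb) (k : ℕ) : Bool :=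
  Nat.ble ((2 * (k + 1) + evl c.N k) * c.M) (evl c.P k * c.M + c.w * (k / c.L) + stp c.SU k)

def Cmb.chkL (c : Cmb) (k : ℕ) : Bool :=
  Nat.ble (evl c.P k * c.M + (c.w + 1) * (k / c.L)) ((2 * k + evl c.N k) * c.M + stp c.SL k)

/-- Fast checking loop for the kernel: `f m` for all `lo ≤ m < hi`. -/
def allD (f : ℕ → Bool) (lo hi : ℕ) : Bool :=
  Nat.rec (motive := fun _ => Bool) true
    (fun m ih => cond (Nat.ble lo m) (cond (f m) ih false) true) hi

theorem allD_spec {f : ℕ → Bool} {lo hi : ℕ} (h : allD f lo hi = true) :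
    ∀ k, lo ≤ k → k < hi → f k = true := by
  induction hi with
  | zero => intro k h1 h2; omega
  | succ n ih =>
    intro k h1 h2
    have h3 : cond (Nat.ble lo n) (cond (f n) (allD f lo n) false) true = true := h
    have h4 : lo ≤ n := by omega
    have h5 : Nat.ble lo n = true := by rw [Nat.ble_eq]; exact h4
    rw [h5] at h3
    simp only [cond_true] at h3
    cases h6 : f n with
    | false => rw [h6] at h3; simp at h3
    | true =>
      rw [h6] at h3
      simp only [cond_true] at h3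
      rcases Nat.lt_or_ge k n with h7 | h7
      · exact ih h3 k h1 h7
      · have : k = n := by omega
        rw [this]; exact h6

def stpB : List (ℕ × ℕ) → ℕ → ℕ
  | [], _ => 0
  | x :: l, k => cond (Nat.ble x.1 k) x.2 0 + stpB l k

theorem stp_eq (l : List (ℕ × ℕ)) (k : ℕ) : stp l k = stpB l k := by
  induction l with
  | nil => rfl
  | cons x l ih =>
    simp only [stp, stpB, ih]
    congr 1
    by_cases h : x.1 ≤ k
    · have h5 : Nat.ble x.1 k = true := by rw [Nat.ble_eq]; exact h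
      rw [if_pos h, h5]; rfl
    · have h5 : Nat.ble x.1 k = false := by
        rw [← Bool.not_eq_true, Nat.ble_eq]; exact h
      rw [if_neg h, h5]; rfl

/-- Validity of the parameters. -/
structure Cmb.Valid (c : Cmb) : Prop where
  hq : 1 ≤ c.q
  hM : 1 ≤ c.M
  hL : c.q ≤ c.L
  hP : ∀ x ∈ c.P, c.q ≤ x.1 ∧ x.1 ≤ c.L
  hN : ∀ x ∈ c.N, c.q ≤ x.1 ∧ x.1 ≤ c.L
  hSU : ∀ x ∈ c.SU, 1 ≤ x.1 ∧ x.1 ≤ c.K
  hSL : ∀ x ∈ c.SL, 1 ≤ x.1 ∧ x.1 ≤ c.K
  w1 : (c.w : ℚ) ≤ (2 - rsq c.P + rsq c.N) * c.L * c.M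
  w2 : (2 - rsq c.P + rsq c.N) * c.L * c.M ≤ (c.w : ℚ) + 1
  tU : sml c.P * c.M + c.w + 1 ≤ sml c.SU
  tL : sml c.N * c.M ≤ sml c.SL
  U : ∀ k, c.q ≤ k → k < c.K → c.chkU k = true
  D : ∀ k, c.q ≤ k → k < c.K → c.chkL k = true

theorem stp_top (l : List (ℕ × ℕ)) (k : ℕ) (h : ∀ x ∈ l, x.1 ≤ k) : stp l k = sml l := by
  induction l with
  | nil => rfl
  | cons x l ih =>
    simp only [stp, sml]
    rw [ih (fun y hy => h y (by simp [hy])), if_pos (h x (by simp))]

theorem evl_bounds (l : List (ℕ × ℕ)) (k : ℕ) (h : ∀ x ∈ l, 1 ≤ x.1) :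
    (evl l k : ℝ) ≤ (rsq l : ℝ) * k ∧ (rsq l : ℝ) * (k + 1) ≤ evl l k + sml l
      ∧ (0 : ℝ) ≤ (rsq l : ℝ) := by
  induction l with
  | nil => simp [evl, sml, rsq]
  | cons x l ih =>
    obtain ⟨ih1, ih2, ih3⟩ := ih (fun y hy => h y (by simp [hy]))
    have hx := h x (by simp)
    have hx0 : (0 : ℝ) < x.1 := by exact_mod_cast hx
    have a0 : (0 : ℝ) ≤ x.2 := Nat.cast_nonneg _
    have h1 : ((k / x.1 : ℕ) : ℝ) ≤ (k : ℝ) / x.1 := Nat.cast_div_le
    have h2 : ((k : ℝ) + 1) / x.1 ≤ ((k / x.1 : ℕ) : ℝ) + 1 := by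
      rw [div_le_iff₀ hx0]
      have h3 := Nat.div_add_mod k x.1
      have h4 := Nat.mod_lt k (show 0 < x.1 by omega)
      have h5 : k + 1 ≤ (k / x.1 + 1) * x.1 := by nlinarith only [h3, h4]
      exact_mod_cast h5
    simp only [evl, sml, rsq]
    push_cast
    have m1 := mul_le_mul_of_nonneg_left h1 a0
    have m2 := mul_le_mul_of_nonneg_left h2 a0
    refine ⟨?_, ?_, ?_⟩
    · have : (x.2 : ℝ) * (k / x.1) = x.2 / x.1 * k := by ring
      nlinarith only [ih1, m1, this]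
    · have : (x.2 : ℝ) * ((k + 1) / x.1) = x.2 / x.1 * (k + 1) := by ring
      nlinarith only [ih2, m2, this]
    · positivity

/-- The real weight of the last term. -/
noncomputable def Cmb.wr (c : Cmb) : ℝ := (2 - (rsq c.P : ℝ) + (rsq c.N : ℝ)) * c.L

noncomputable def Cmb.G (c : Cmb) (k : ℕ) : ℝ :=
  (evl c.P k : ℝ) - evl c.N k + c.wr * ((k / c.L : ℕ) : ℝ)

theorem Cmb.wr_bounds {c : Cmb} (h : c.Valid) :
    (c.w : ℝ) ≤ c.wr * c.M ∧ c.wr * c.M ≤ c.w + 1 := by
  have h1 : ((c.w : ℚ) : ℝ) ≤ (((2 - rsq c.P + rsq c.N) * c.L * c.M : ℚ) : ℝ) := by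
    exact_mod_cast h.w1
  have h2 : (((2 - rsq c.P + rsq c.N) * c.L * c.M : ℚ) : ℝ) ≤ (((c.w : ℚ) + 1 : ℚ) : ℝ) := by
    exact_mod_cast h.w2
  push_cast at h1 h2
  unfold Cmb.wr
  exact ⟨h1, h2⟩

theorem Cmb.wr_nonneg {c : Cmb} (h : c.Valid) : 0 ≤ c.wr := by
  have h1 := (c.wr_bounds h).1
  have h2 : (1 : ℝ) ≤ c.M := by exact_mod_cast h.hM
  have h3 : (0 : ℝ) ≤ c.w := Nat.cast_nonneg _
  by_contra h4
  push Not at h4
  nlinarith only [h1, h4, h2]

theorem Cmb.upper {c : Cmb} (h : c.Valid) {k : ℕ} (hk : c.q ≤ k) :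
    (2 * (k + 1) - c.G k) * c.M ≤ stp c.SU k := by
  have hM : (1 : ℝ) ≤ c.M := by exact_mod_cast h.hM
  have hwr := c.wr_bounds h
  have hw0 := c.wr_nonneg h
  rcases Nat.lt_or_ge k c.K with hK | hK
  · have h1 := h.U k hk hK
    unfold Cmb.chkU at h1
    rw [Nat.ble_eq] at h1
    have h2 : (((2 * (k + 1) + evl c.N k) * c.M : ℕ) : ℝ)
        ≤ ((evl c.P k * c.M + c.w * (k / c.L) + stp c.SU k : ℕ) : ℝ) := Nat.cast_le.2 h1
    rw [Nat.cast_add, Nat.cast_add, Nat.cast_mul, Nat.cast_mul, Nat.cast_mul, Nat.cast_add] at h2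
    push_cast at h2
    unfold Cmb.G
    have h3 : (0 : ℝ) ≤ ((k / c.L : ℕ) : ℝ) := Nat.cast_nonneg _
    have h4 := mul_le_mul_of_nonneg_right hwr.1 h3
    nlinarith only [h2, h4]
  · have h1 := stp_top c.SU k (fun x hx => ((h.hSU x hx).2).trans hK)
    rw [h1]
    have hq := h.hq
    have b1 := evl_bounds c.P k (fun x hx => by have := (h.hP x hx).1; omega)
    have b2 := evl_bounds c.N k (fun x hx => by have := (h.hN x hx).1; omega)
    have hL0 : (0 : ℝ) < c.L := by exact_mod_cast (by have := h.hL; omega : 0 < c.L)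
    have h2 : ((k : ℝ) + 1) / c.L ≤ ((k / c.L : ℕ) : ℝ) + 1 := by
      rw [div_le_iff₀ hL0]
      have h3 := Nat.div_add_mod k c.L
      have h4 := Nat.mod_lt k (show 0 < c.L by have := h.hL; omega)
      have h5 : k + 1 ≤ (k / c.L + 1) * c.L := by nlinarith only [h3, h4]
      exact_mod_cast h5
    have h3 : 2 * ((k : ℝ) + 1) = (rsq c.P : ℝ) * (k + 1) - (rsq c.N : ℝ) * (k + 1)
        + c.wr * ((k + 1) / c.L) := by
      unfold Cmb.wr; field_simp; ring
    have h4 : 2 * ((k : ℝ) + 1) - c.G k ≤ sml c.P + c.wr := by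
      unfold Cmb.G
      have := mul_le_mul_of_nonneg_left h2 hw0
      nlinarith only [b1, b2, h3, this, b1.2.1, b2.1, b2.2.2]
    have h5 : ((sml c.P * c.M + c.w + 1 : ℕ) : ℝ) ≤ sml c.SU := Nat.cast_le.2 h.tU
    push_cast at h5
    have h6 := mul_le_mul_of_nonneg_right h4 (by linarith only [hM] : (0 : ℝ) ≤ c.M)
    nlinarith only [h5, h6, hwr.2]

theorem Cmb.lower {c : Cmb} (h : c.Valid) {k : ℕ} (hk : c.q ≤ k) :
    (c.G k - 2 * k) * c.M ≤ stp c.SL k := by
  have hM : (1 : ℝ) ≤ c.M := by exact_mod_cast h.hM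
  have hwr := c.wr_bounds h
  have hw0 := c.wr_nonneg h
  rcases Nat.lt_or_ge k c.K with hK | hK
  · have h1 := h.D k hk hK
    unfold Cmb.chkL at h1
    rw [Nat.ble_eq] at h1
    have h2 : ((evl c.P k * c.M + (c.w + 1) * (k / c.L) : ℕ) : ℝ)
        ≤ (((2 * k + evl c.N k) * c.M + stp c.SL k : ℕ) : ℝ) := Nat.cast_le.2 h1
    rw [Nat.cast_add, Nat.cast_add, Nat.cast_mul, Nat.cast_mul, Nat.cast_mul, Nat.cast_add] at h2
    push_cast at h2
    unfold Cmb.G
    have h3 : (0 : ℝ) ≤ ((k / c.L : ℕ) : ℝ) := Nat.cast_nonneg _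
    have h4 := mul_le_mul_of_nonneg_right hwr.2 h3
    nlinarith only [h2, h4]
  · have h1 := stp_top c.SL k (fun x hx => ((h.hSL x hx).2).trans hK)
    rw [h1]
    have hq := h.hq
    have b1 := evl_bounds c.P k (fun x hx => by have := (h.hP x hx).1; omega)
    have b2 := evl_bounds c.N k (fun x hx => by have := (h.hN x hx).1; omega)
    have hL0 : (0 : ℝ) < c.L := by exact_mod_cast (by have := h.hL; omega : 0 < c.L)
    have h2 : ((k / c.L : ℕ) : ℝ) ≤ (k : ℝ) / c.L := Nat.cast_div_le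
    have h3 : 2 * (k : ℝ) = (rsq c.P : ℝ) * k - (rsq c.N : ℝ) * k
        + c.wr * (k / c.L) := by
      unfold Cmb.wr; field_simp; ring
    have h4 : c.G k - 2 * k ≤ sml c.N := by
      unfold Cmb.G
      have := mul_le_mul_of_nonneg_left h2 hw0
      nlinarith only [b1, b2, h3, this, b1.1, b2.2.1, b2.2.2]
    have h5 : ((sml c.N * c.M : ℕ) : ℝ) ≤ sml c.SL := Nat.cast_le.2 h.tL
    push_cast at h5
    have h6 := mul_le_mul_of_nonneg_right h4 (by linarith only [hM] : (0 : ℝ) ≤ c.M)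
    nlinarith only [h5, h6]

/-- The constant of the main term. -/
noncomputable def Cmb.C (c : Cmb) : ℝ := c0l c.q c.P - c0l c.q c.N + c.wr * c0l c.q [(c.L, 1)]

/-- Total weight. -/
noncomputable def Cmb.W (c : Cmb) : ℝ := sml c.P + sml c.N + c.wr

theorem Cmb.sum_G {c : Cmb} (h : c.Valid) (n : ℕ) :
    ∑ d ∈ Ioc 0 n, Λ d * c.G (c.q * n / d)
      = Tl c.q c.P n - Tl c.q c.N n + c.wr * Tl c.q [(c.L, 1)] n := by
  rw [Tl_eq c.P n (fun x hx => (h.hP x hx).1), Tl_eq c.N n (fun x hx => (h.hN x hx).1),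
    Tl_eq [(c.L, 1)] n (fun x hx => by
      simp only [List.mem_singleton] at hx; rw [hx]; exact h.hL), mul_sum, ← sum_sub_distrib,
    ← sum_add_distrib]
  apply sum_congr rfl
  intro d _
  unfold Cmb.G
  simp only [evl]
  push_cast
  ring

theorem Cmb.sum_G_bounds {c : Cmb} (h : c.Valid) {n : ℕ} (hn : c.L ≤ n) :
    |∑ d ∈ Ioc 0 n, Λ d * c.G (c.q * n / d) - (2 * c.q * (n * (Real.log n - 1)) + n * c.C)|
      ≤ c.W * (Real.log n + 1) := by
  have hq := h.hq
  have hL := h.hL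
  rw [c.sum_G h n]
  have b1 := Tl_bounds c.P n hq (by omega) (fun x hx => ⟨(h.hP x hx).1, (h.hP x hx).2.trans hn⟩)
  have b2 := Tl_bounds c.N n hq (by omega) (fun x hx => ⟨(h.hN x hx).1, (h.hN x hx).2.trans hn⟩)
  have b3 := Tl_bounds [(c.L, 1)] n hq (by omega) (fun x hx => by
      simp only [List.mem_singleton] at hx; rw [hx]; exact ⟨hL, hn⟩)
  have hw := c.wr_nonneg h
  have hL0 : (0 : ℝ) < c.L := by exact_mod_cast (by omega : 0 < c.L)
  have e : mainT c.q c.P n - mainT c.q c.N n + c.wr * mainT c.q [(c.L, 1)] n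
      = 2 * c.q * (n * (Real.log n - 1)) + n * c.C := by
    unfold mainT Cmb.C
    simp only [rsq]
    push_cast
    have e2 : c.wr * (1 / c.L + 0 : ℝ) = 2 - (rsq c.P : ℝ) + (rsq c.N : ℝ) := by
      unfold Cmb.wr; field_simp; ring
    have e3 : c.wr * (n * (Real.log n - 1) * (c.q * (1 / c.L + 0 : ℝ)) + n * c0l c.q [(c.L, 1)])
        = n * (Real.log n - 1) * c.q * (c.wr * (1 / c.L + 0 : ℝ)) + n * (c.wr * c0l c.q [(c.L, 1)]) := by
      ring
    rw [e3, e2]
    ring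
  have m1 := mul_le_mul_of_nonneg_left b3.1 hw
  have m2 := mul_le_mul_of_nonneg_left b3.2 hw
  simp only [sml] at m1 m2
  push_cast at m1 m2
  rw [← e, abs_le]
  unfold Cmb.W
  constructor
  · nlinarith only [m1, b1.1, b2.2]
  · nlinarith only [m2, b1.2, b2.1]

theorem Cmb.bounds {c : Cmb} (h : c.Valid) {n : ℕ} (hn : c.L ≤ n) :
    |Mt n - (Real.log n - 1 + c.C / (2 * c.q)) - Real.log 3 / (4 * c.M) * ((rsq c.SU : ℝ) - rsq c.SL)|
      ≤ c.W * (Real.log n + 1) / (2 * c.q * n) + Real.log 3 / (4 * c.M) * ((rsq c.SU : ℝ) + rsq c.SL) := by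
  have hq := h.hq
  have hL := h.hL
  have hq0 : (0 : ℝ) < c.q := by exact_mod_cast hq
  have hn0 : (0 : ℝ) < n := by exact_mod_cast (by omega : 0 < n)
  have hM0 : (0 : ℝ) < c.M := by exact_mod_cast h.hM
  have hG := abs_le.1 (c.sum_G_bounds h hn)
  have s1 := stp_sum (q := c.q) c.SU n (fun x hx => (h.hSU x hx).1)
  have s2 := stp_sum (q := c.q) c.SL n (fun x hx => (h.hSL x hx).1)
  have hk : ∀ d ∈ Ioc 0 n, c.q ≤ c.q * n / d ∧ ((c.q * n / d : ℕ) : ℝ) ≤ (c.q * n : ℝ) / d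
      ∧ (c.q * n : ℝ) / d ≤ ((c.q * n / d : ℕ) : ℝ) + 1 := by
    intro d hd
    rw [mem_Ioc] at hd
    have hd0 : (0 : ℝ) < d := by exact_mod_cast hd.1
    refine ⟨(Nat.le_div_iff_mul_le hd.1).2 (Nat.mul_le_mul_left _ hd.2), ?_, ?_⟩
    · have := @Nat.cast_div_le ℝ _ _ _ (c.q * n) d
      push_cast at this
      exact this
    · rw [div_le_iff₀ hd0]
      have h3 := Nat.div_add_mod (c.q * n) d
      have h4 := Nat.mod_lt (c.q * n) (show 0 < d by omega)
      have h5 : c.q * n ≤ (c.q * n / d + 1) * d := by nlinarith only [h3, h4]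
      exact_mod_cast h5
  have eM : ∑ d ∈ Ioc 0 n, Λ d * (2 * ((c.q * n : ℝ) / d)) = 2 * c.q * n * Mt n := by
    unfold Mt
    rw [mul_sum]
    apply sum_congr rfl
    intro d _
    ring
  have up : 2 * c.q * n * Mt n ≤ ∑ d ∈ Ioc 0 n, Λ d * c.G (c.q * n / d)
      + (∑ d ∈ Ioc 0 n, Λ d * (stp c.SU (c.q * n / d) : ℝ)) / c.M := by
    rw [← eM, sum_div, ← sum_add_distrib]
    apply sum_le_sum
    intro d hd
    obtain ⟨k1, k2, k3⟩ := hk d hd
    have hu := c.upper h k1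
    have hL0 := ArithmeticFunction.vonMangoldt_nonneg (n := d)
    have h1 : 2 * ((c.q * n : ℝ) / d) ≤ c.G (c.q * n / d) + (stp c.SU (c.q * n / d) : ℝ) / c.M := by
      have h2 : 2 * (((c.q * n / d : ℕ) : ℝ) + 1) - c.G (c.q * n / d)
          ≤ (stp c.SU (c.q * n / d) : ℝ) / c.M := by
        rw [le_div_iff₀ hM0]; exact hu
      linarith only [k3, h2]
    have h3 := mul_le_mul_of_nonneg_left h1 hL0
    calc Λ d * (2 * ((c.q * n : ℝ) / d)) ≤ _ := h3
      _ = _ := by ring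
  have lo : ∑ d ∈ Ioc 0 n, Λ d * c.G (c.q * n / d)
      - (∑ d ∈ Ioc 0 n, Λ d * (stp c.SL (c.q * n / d) : ℝ)) / c.M ≤ 2 * c.q * n * Mt n := by
    rw [← eM, sum_div, ← sum_sub_distrib]
    apply sum_le_sum
    intro d hd
    obtain ⟨k1, k2, k3⟩ := hk d hd
    have hu := c.lower h k1
    have hL0 := ArithmeticFunction.vonMangoldt_nonneg (n := d)
    have h1 : c.G (c.q * n / d) - (stp c.SL (c.q * n / d) : ℝ) / c.M ≤ 2 * ((c.q * n : ℝ) / d) := by
      have h2 : c.G (c.q * n / d) - 2 * ((c.q * n / d : ℕ) : ℝ)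
          ≤ (stp c.SL (c.q * n / d) : ℝ) / c.M := by
        rw [le_div_iff₀ hM0]; exact hu
      linarith only [k2, h2]
    have h3 := mul_le_mul_of_nonneg_left h1 hL0
    calc _ = Λ d * (c.G (c.q * n / d) - (stp c.SL (c.q * n / d) : ℝ) / c.M) := by ring
      _ ≤ _ := h3
  have s1' := div_le_div_of_nonneg_right s1 hM0.le
  have s2' := div_le_div_of_nonneg_right s2 hM0.le
  have hqn : (0 : ℝ) < 2 * c.q * n := by positivity
  have f1 : 2 * c.q * n * (Mt n - (Real.log n - 1 + c.C / (2 * c.q)))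
      = 2 * c.q * n * Mt n - (2 * c.q * (n * (Real.log n - 1)) + n * c.C) := by
    field_simp
  have f2 : 2 * c.q * n * (c.W * (Real.log n + 1) / (2 * c.q * n)) = c.W * (Real.log n + 1) := by
    field_simp
  have f3 : 2 * c.q * n * (Real.log 3 / (2 * c.M) * (rsq c.SU : ℝ))
      = Real.log 3 * (c.q * n) * (rsq c.SU : ℝ) / c.M := by
    field_simp
  have f4 : 2 * c.q * n * (Real.log 3 / (2 * c.M) * (rsq c.SL : ℝ))
      = Real.log 3 * (c.q * n) * (rsq c.SL : ℝ) / c.M := by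
    field_simp
  have g1 : Mt n - (Real.log n - 1 + c.C / (2 * c.q))
      ≤ c.W * (Real.log n + 1) / (2 * c.q * n) + Real.log 3 / (2 * c.M) * (rsq c.SU : ℝ) := by
    apply le_of_mul_le_mul_left _ hqn
    rw [f1, mul_add, f2, f3]
    linarith only [up, s1', hG.2]
  have g2 : -(c.W * (Real.log n + 1) / (2 * c.q * n) + Real.log 3 / (2 * c.M) * (rsq c.SL : ℝ))
      ≤ Mt n - (Real.log n - 1 + c.C / (2 * c.q)) := by
    apply le_of_mul_le_mul_left _ hqn
    rw [f1, mul_neg, mul_add, f2, f4]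
    linarith only [lo, s2', hG.1]
  have e4 : Real.log 3 / (2 * c.M) = 2 * (Real.log 3 / (4 * c.M)) := by
    field_simp; ring
  rw [e4] at g1 g2
  rw [abs_le]
  constructor
  · linarith only [g2]
  · linarith only [g1]

theorem Cmb.osc {c : Cmb} (h : c.Valid) {n m : ℕ} (hn : c.L ≤ n) (hm : c.L ≤ m) :
    Mt m - Mt n ≤ Real.log m - Real.log n
      + Real.log 3 / (2 * c.M) * ((rsq c.SU : ℝ) + rsq c.SL)
      + c.W / (2 * c.q) * ((Real.log m + 1) / m + (Real.log n + 1) / n) := by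
  have h1 := abs_le.1 (c.bounds h hn)
  have h2 := abs_le.1 (c.bounds h hm)
  have e4 : Real.log 3 / (2 * c.M) = 2 * (Real.log 3 / (4 * c.M)) := by
    have hM0 : (0 : ℝ) < c.M := by exact_mod_cast h.hM
    field_simp; ring
  have e5 : c.W * (Real.log m + 1) / (2 * c.q * m) = c.W / (2 * c.q) * ((Real.log m + 1) / m) := by
    rw [mul_div_mul_comm]
  have e6 : c.W * (Real.log n + 1) / (2 * c.q * n) = c.W / (2 * c.q) * ((Real.log n + 1) / n) := by
    rw [mul_div_mul_comm]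
  rw [e6] at h1
  rw [e5] at h2
  rw [e4]
  linarith only [h1.1, h2.2]

end Pool.Agent.H91.Gold

end

section

/-!
PK Msq: mean squares of the type II coefficients.

* `sum_moebius_coprime`: for y ≥ 1, g ≥ 1: |∑_{e ≤ y, (e,g)=1} μ(e)/e| ≤ 1.
  Proof: y ∑ μ(e)/e = ∑ μ(e) floor(y/e) + ∑ μ(e) frac(y/e), and ∑_{e ≤ y,(e,g)=1} μ(e) floor(y/e)
   = ∑_{n ≤ y} ∑_{e | n, (e,g)=1} μ(e) = κ := #{n ≤ y : every prime factor of n divides g} ≥ 1 (n = 1).
  The fractional parts are in [0,1) and 0 for e = 1; the e > 1 coprime to g are not counted in κ, so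
   κ + #{2 ≤ e ≤ y, (e,g)=1} ≤ y, hence |y ∑ μ(e)/e| ≤ y.
* `cV_sq_large`: for n ≥ 2, cV V n = - ∑_{d | n, d ≤ V} μ(d).  ∑_{n ≤ Y} (∑_{d|n,d≤V} μ(d))²
   = ∑_{d1,d2 ≤ V} μ(d1)μ(d2) floor(Y/[d1,d2]) ≤ Y ∑ μ(d1)μ(d2)/[d1,d2] + V², and
   ∑_{d1,d2≤V} μμ/[d1,d2] = ∑_{g ≤ V} φ(g) (∑_{d ≤ V, g | d} μ(d)/d)²   ((d1,d2) = ∑_{g | d1, g | d2} φ(g)), and for
   squarefree g, ∑_{d≤V, g|d} μ(d)/d = (μ(g)/g) ∑_{e ≤ V/g, (e,g)=1} μ(e)/e (0 if g is not squarefree), so the sum is
   ≤ ∑_{g≤V} φ(g)/g² ≤ ∑_{g ≤ V} 1/g ≤ log V + 1.   With V² ≤ Y: total ≤ Y (log V + 2).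
* `cV_sq_all`: |cV V n| ≤ τ(n), and ∑_{n≤Y} τ(n)² ≤ Y (log Y + 1)³:
   ∑_{n≤Y} τ(n)² = ∑_{n} ∑_{d m = n} τ(dm) ≤ ∑_{d≤Y} τ(d) ∑_{m ≤ Y/d} τ(m) ≤ ∑_d τ(d) (Y/d)(1+log Y)
   ≤ Y (1+log Y) (∑_{a≤Y} 1/a)².
* `Lam_sq`: ∑_{M<m≤2M} Λ(m)² ≤ log(2M) ψ(2M) ≤ log(2M) (log 3) 2M  (`Pool.Agent.H91.Gold.psi_le_log_three`),
   log 3 ≤ 1.0987 (`Pool.Agent.H91.Gold.log_three_bounds`).
-/

set_option autoImplicit false

namespace Pool.Agent.H91.PK

open Finset ArithmeticFunction

theorem Msq_sum_moebius (n : ℕ) :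
    ∑ d ∈ n.divisors, (moebius d : ℤ) = if n = 1 then 1 else 0 := by
  rw [← coe_mul_zeta_apply, moebius_mul_coe_zeta, one_apply]

theorem Msq_moebius_prime_mul {p e : ℕ} (hp : p.Prime) (he : ¬ p ∣ e) :
    moebius (p * e) = - moebius e := by
  rw [isMultiplicative_moebius.map_mul_of_coprime ((Nat.Prime.coprime_iff_not_dvd hp).2 he),
    moebius_apply_prime hp]
  ring

theorem Msq_moebius_sq_dvd {p e : ℕ} (hp : p.Prime) (he : p ^ 2 ∣ e) : moebius e = 0 := by
  apply moebius_eq_zero_of_not_squarefree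
  intro h
  rw [pow_two] at he
  have := h p he
  exact hp.one_lt.ne' (Nat.isUnit_iff.1 this)

/-- if some prime factor of `n` does not divide `g` the coprime part of the sum vanishes -/
theorem Msq_s_zero {n g p : ℕ} (hn : n ≠ 0) (hp : p.Prime) (hpn : p ∣ n) (hpg : ¬ p ∣ g) :
    ∑ e ∈ n.divisors.filter (fun e => Nat.Coprime e g), (moebius e : ℤ) = 0 := by
  classical
  have hcp : Nat.Coprime p g := (Nat.Prime.coprime_iff_not_dvd hp).2 hpg
  refine Finset.sum_involution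
    (fun e _ => if p ∣ e then (if p ^ 2 ∣ e then e else e / p) else p * e) ?_ ?_ ?_ ?_
  · intro e _
    by_cases h1 : p ∣ e
    · by_cases h2 : p ^ 2 ∣ e
      · simp [h1, h2, Msq_moebius_sq_dvd hp h2]
      · simp only [h1, h2, if_true, if_false]
        obtain ⟨f, rfl⟩ := h1
        have hf : ¬ p ∣ f := by
          intro h
          apply h2
          rw [pow_two]
          exact Nat.mul_dvd_mul_left p h
        rw [Nat.mul_div_cancel_left f hp.pos, Msq_moebius_prime_mul hp hf]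
        ring
    · simp only [h1, if_false]
      rw [Msq_moebius_prime_mul hp h1]
      ring
  · intro e he hne
    have he0 : 0 < e := Nat.pos_of_mem_divisors (mem_filter.1 he).1
    by_cases h1 : p ∣ e
    · by_cases h2 : p ^ 2 ∣ e
      · exact absurd (Msq_moebius_sq_dvd hp h2) hne
      · simp only [h1, h2, if_true, if_false]
        exact (Nat.div_lt_self he0 hp.one_lt).ne
    · simp only [h1, if_false]
      have := hp.one_lt
      intro h
      have : 1 * e < p * e := Nat.mul_lt_mul_of_pos_right this he0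
      omega
  · intro e he
    rw [mem_filter, Nat.mem_divisors] at he ⊢
    obtain ⟨⟨hen, _⟩, hc⟩ := he
    by_cases h1 : p ∣ e
    · by_cases h2 : p ^ 2 ∣ e
      · simp only [h1, h2, if_true]
        exact ⟨⟨hen, hn⟩, hc⟩
      · simp only [h1, h2, if_true, if_false]
        exact ⟨⟨(Nat.div_dvd_of_dvd h1).trans hen, hn⟩,
          Nat.Coprime.coprime_dvd_left (Nat.div_dvd_of_dvd h1) hc⟩
    · simp only [h1, if_false]
      refine ⟨⟨?_, hn⟩, Nat.Coprime.mul_left hcp hc⟩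
      exact Nat.Coprime.mul_dvd_of_dvd_of_dvd ((Nat.Prime.coprime_iff_not_dvd hp).2 h1) hpn hen
  · intro e he
    by_cases h1 : p ∣ e
    · by_cases h2 : p ^ 2 ∣ e
      · simp [h1, h2]
      · simp only [h1, h2, if_true, if_false]
        obtain ⟨f, rfl⟩ := h1
        have hf : ¬ p ∣ f := by
          intro h
          apply h2
          rw [pow_two]
          exact Nat.mul_dvd_mul_left p h
        simp [Nat.mul_div_cancel_left f hp.pos, hf]
    · simp only [h1, if_false]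
      have h3 : ¬ p ^ 2 ∣ p * e := by
        intro h
        apply h1
        rw [pow_two] at h
        exact (Nat.mul_dvd_mul_iff_left hp.pos).1 h
      simp [h3, Nat.mul_div_cancel_left e hp.pos]

theorem Msq_s_one {n g : ℕ} (hn : n ≠ 0) (h : ∀ p, p.Prime → p ∣ n → p ∣ g) :
    ∑ e ∈ n.divisors.filter (fun e => Nat.Coprime e g), (moebius e : ℤ) = 1 := by
  have : n.divisors.filter (fun e => Nat.Coprime e g) = {1} := by
    ext e
    rw [mem_filter, Nat.mem_divisors, mem_singleton]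
    constructor
    · rintro ⟨⟨hen, -⟩, hc⟩
      by_contra he
      obtain ⟨p, hp, hpe⟩ := Nat.exists_prime_and_dvd he
      exact Nat.not_coprime_of_dvd_of_dvd hp.one_lt hpe (h p hp (hpe.trans hen)) hc
    · rintro rfl
      exact ⟨⟨one_dvd _, hn⟩, Nat.coprime_one_left g⟩
  rw [this, sum_singleton]
  simp

/-- the local inequality used in `sum_moebius_coprime` -/
theorem Msq_s_bound {n g : ℕ} (hn : n ≠ 0) :
    0 ≤ ∑ e ∈ n.divisors.filter (fun e => Nat.Coprime e g), (moebius e : ℤ) ∧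
    ∑ e ∈ n.divisors.filter (fun e => Nat.Coprime e g), (moebius e : ℤ) +
      (if n ≠ 1 ∧ Nat.Coprime n g then 1 else 0) ≤ 1 := by
  by_cases h : ∀ p, p.Prime → p ∣ n → p ∣ g
  · rw [Msq_s_one hn h]
    refine ⟨by norm_num, ?_⟩
    rw [if_neg]
    · norm_num
    · rintro ⟨h1, h2⟩
      obtain ⟨p, hp, hpe⟩ := Nat.exists_prime_and_dvd h1
      exact Nat.not_coprime_of_dvd_of_dvd hp.one_lt hpe (h p hp hpe) h2
  · push Not at h
    obtain ⟨p, hp, hpn, hpg⟩ := h
    rw [Msq_s_zero hn hp hpn hpg]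
    refine ⟨le_rfl, ?_⟩
    split_ifs <;> norm_num

theorem Msq_Icc_dvd_card (n d : ℕ) : ((Icc 1 n).filter (fun x => d ∣ x)).card = n / d := by
  rw [← Nat.Ioc_filter_dvd_card_eq_div]
  congr 1

theorem Msq_abs_moebius (e : ℕ) : |(moebius e : ℝ)| ≤ 1 := by
  have := @abs_moebius_le_one e
  have h2 : ((|moebius e| : ℤ) : ℝ) ≤ ((1 : ℤ) : ℝ) := by exact_mod_cast this
  simpa using h2

theorem sum_moebius_coprime (g y : ℕ) (hg : 1 ≤ g) (hy : 1 ≤ y) :
    |∑ e ∈ (Icc 1 y).filter (fun e => Nat.Coprime e g), (ArithmeticFunction.moebius e : ℝ) / e| ≤ 1 := by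
  classical
  set F := (Icc 1 y).filter (fun e => Nat.Coprime e g) with hF
  have hy0 : (0 : ℝ) < y := by exact_mod_cast hy
  -- kappa
  have hk : ∑ e ∈ F, (moebius e : ℤ) * ((y / e : ℕ) : ℤ) =
      ∑ n ∈ Icc 1 y, ∑ e ∈ n.divisors.filter (fun e => Nat.Coprime e g), (moebius e : ℤ) := by
    have h1 : ∀ e ∈ F, (moebius e : ℤ) * ((y / e : ℕ) : ℤ) =
        ∑ n ∈ (Icc 1 y).filter (fun n => e ∣ n), (moebius e : ℤ) := by
      intro e _
      rw [sum_const, Msq_Icc_dvd_card]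
      simp [mul_comm]
    rw [sum_congr rfl h1]
    refine Finset.sum_comm' ?_
    intro e n
    simp only [hF, mem_filter, mem_Icc, Nat.mem_divisors]
    constructor
    · rintro ⟨⟨⟨h1, h2⟩, h3⟩, ⟨h4, h5⟩, h6⟩
      exact ⟨⟨⟨h6, by omega⟩, h3⟩, h4, h5⟩
    · rintro ⟨⟨⟨h1, h2⟩, h3⟩, h4, h5⟩
      exact ⟨⟨⟨Nat.pos_of_dvd_of_pos h1 (by omega), (Nat.le_of_dvd (by omega) h1).trans h5⟩, h3⟩,
        ⟨h4, h5⟩, h1⟩
  set κ : ℤ := ∑ n ∈ Icc 1 y, ∑ e ∈ n.divisors.filter (fun e => Nat.Coprime e g), (moebius e : ℤ)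
    with hκ
  set C : ℤ := ∑ e ∈ F, (if e ≠ 1 then 1 else 0) with hC
  have hκ0 : 0 ≤ κ := by
    apply sum_nonneg
    intro n hn
    have : n ≠ 0 := by
      rw [mem_Icc] at hn
      omega
    exact (Msq_s_bound this).1
  have hκC : κ + C ≤ y := by
    have e1 : C = ∑ n ∈ Icc 1 y, (if n ≠ 1 ∧ Nat.Coprime n g then 1 else 0) := by
      rw [hC, hF, sum_filter]
      apply sum_congr rfl
      intro n _
      by_cases h1 : Nat.Coprime n g <;> by_cases h2 : n = 1 <;> simp [h1, h2]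
    rw [e1, hκ, ← sum_add_distrib]
    calc ∑ n ∈ Icc 1 y, (∑ e ∈ n.divisors.filter (fun e => Nat.Coprime e g), (moebius e : ℤ) +
          (if n ≠ 1 ∧ Nat.Coprime n g then 1 else 0)) ≤ ∑ n ∈ Icc 1 y, (1 : ℤ) := by
          apply sum_le_sum
          intro n hn
          have : n ≠ 0 := by
            rw [mem_Icc] at hn
            omega
          exact (Msq_s_bound this).2
      _ = y := by simp
  have hkR : ∑ e ∈ F, (moebius e : ℝ) * ((y / e : ℕ) : ℝ) = κ := by
    rw [← hk]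
    push_cast
    rfl
  have hsplit : (y : ℝ) * ∑ e ∈ F, (moebius e : ℝ) / e =
      ∑ e ∈ F, (moebius e : ℝ) * ((y / e : ℕ) : ℝ) +
      ∑ e ∈ F, (moebius e : ℝ) * ((y : ℝ) / e - ((y / e : ℕ) : ℝ)) := by
    rw [mul_sum, ← sum_add_distrib]
    apply sum_congr rfl
    intro e _
    ring
  have hT : |∑ e ∈ F, (moebius e : ℝ) * ((y : ℝ) / e - ((y / e : ℕ) : ℝ))| ≤ C := by
    rw [hC]
    push_cast
    refine (abs_sum_le_sum_abs _ _).trans (sum_le_sum ?_)
    intro e he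
    rw [hF, mem_filter, mem_Icc] at he
    have he0 : (0 : ℝ) < e := by exact_mod_cast he.1.1
    by_cases h1 : e = 1
    · subst h1
      simp
    · rw [if_pos h1, abs_mul]
      have h2 : ((y / e : ℕ) : ℝ) ≤ (y : ℝ) / e := Nat.cast_div_le
      have h3 : (y : ℝ) / e < ((y / e : ℕ) : ℝ) + 1 := by
        rw [div_lt_iff₀ he0]
        have := Nat.lt_div_mul_add (a := y) (b := e) (by omega)
        have h4 : y < (y / e + 1) * e := by
          rw [add_mul, one_mul]
          exact this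
        exact_mod_cast h4
      have h5 : |(y : ℝ) / e - ((y / e : ℕ) : ℝ)| ≤ 1 := by
        rw [abs_le]
        constructor <;> linarith
      calc |(moebius e : ℝ)| * |(y : ℝ) / e - ((y / e : ℕ) : ℝ)| ≤ 1 * 1 :=
            mul_le_mul (Msq_abs_moebius e) h5 (abs_nonneg _) zero_le_one
        _ = 1 := by norm_num
  have hfin : |(y : ℝ) * ∑ e ∈ F, (moebius e : ℝ) / e| ≤ y := by
    rw [hsplit, hkR]
    have h1 : (κ : ℝ) + C ≤ y := by exact_mod_cast hκC
    have h2 : (0 : ℝ) ≤ κ := by exact_mod_cast hκ0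
    calc |(κ : ℝ) + ∑ e ∈ F, (moebius e : ℝ) * ((y : ℝ) / e - ((y / e : ℕ) : ℝ))|
        ≤ |(κ : ℝ)| + |∑ e ∈ F, (moebius e : ℝ) * ((y : ℝ) / e - ((y / e : ℕ) : ℝ))| :=
          abs_add_le _ _
      _ ≤ κ + C := by
          rw [abs_of_nonneg h2]
          linarith
      _ ≤ y := h1
  rw [abs_mul, abs_of_pos hy0] at hfin
  have : (y : ℝ) * |∑ e ∈ F, (moebius e : ℝ) / e| ≤ y * 1 := by linarith
  exact le_of_mul_le_mul_left this hy0

theorem Msq_harmonic (n : ℕ) : ∑ g ∈ Icc 1 n, (1 : ℝ) / g ≤ 1 + Real.log n := by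
  have h := harmonic_le_one_add_log n
  rw [harmonic_eq_sum_Icc] at h
  push_cast at h
  simpa [one_div] using h

theorem Msq_cV_eq {V n : ℕ} (hn : 2 ≤ n) :
    cV V n = - ∑ d ∈ (Icc 1 V).filter (fun d => d ∣ n), (moebius d : ℝ) := by
  have h1 : ∑ d ∈ n.divisors, (moebius d : ℝ) = 0 := by
    have h := Msq_sum_moebius n
    rw [if_neg (by omega)] at h
    have h2 : ((∑ d ∈ n.divisors, (moebius d : ℤ) : ℤ) : ℝ) = 0 := by rw [h]; simp
    rw [← h2]
    push_cast
    rfl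
  have h2 := sum_filter_add_sum_filter_not n.divisors (fun d => V < d) (fun d => (moebius d : ℝ))
  have h3 : n.divisors.filter (fun d => ¬ V < d) = (Icc 1 V).filter (fun d => d ∣ n) := by
    ext d
    simp only [mem_filter, Nat.mem_divisors, mem_Icc, not_lt]
    constructor
    · rintro ⟨⟨h4, h5⟩, h6⟩
      exact ⟨⟨Nat.pos_of_dvd_of_pos h4 (by omega), h6⟩, h4⟩
    · rintro ⟨⟨h4, h5⟩, h6⟩
      exact ⟨⟨h6, by omega⟩, h5⟩
  rw [h3, h1] at h2
  unfold cV
  linarith

theorem Msq_moebius_mul (g e : ℕ) :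
    (moebius (g * e) : ℝ) = if Nat.Coprime e g then (moebius g : ℝ) * moebius e else 0 := by
  split_ifs with h
  · rw [isMultiplicative_moebius.map_mul_of_coprime h.symm]
    push_cast
    rfl
  · have : ¬ Squarefree (g * e) := fun hs => h (Nat.squarefree_mul_iff.1 hs).1.symm
    rw [moebius_eq_zero_of_not_squarefree this]
    simp

theorem Msq_inner {V g : ℕ} (hg : 1 ≤ g) (hgV : g ≤ V) :
    |∑ d ∈ (Icc 1 V).filter (fun d => g ∣ d), (moebius d : ℝ) / d| ≤ 1 / g := by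
  have hg0 : (0 : ℝ) < g := by exact_mod_cast hg
  have h1 : ∑ d ∈ (Icc 1 V).filter (fun d => g ∣ d), (moebius d : ℝ) / d =
      ∑ e ∈ Icc 1 (V / g), (moebius (g * e) : ℝ) / ((g * e : ℕ) : ℝ) := by
    symm
    refine Finset.sum_nbij' (fun e => g * e) (fun d => d / g) ?_ ?_ ?_ ?_ ?_
    · intro e he
      rw [mem_Icc] at he
      rw [mem_filter, mem_Icc]
      refine ⟨⟨Nat.mul_pos hg he.1, ?_⟩, dvd_mul_right _ _⟩
      calc g * e ≤ g * (V / g) := Nat.mul_le_mul_left _ he.2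
        _ ≤ V := Nat.mul_div_le _ _
    · intro d hd
      rw [mem_filter, mem_Icc] at hd
      rw [mem_Icc]
      exact ⟨Nat.div_pos (Nat.le_of_dvd hd.1.1 hd.2) hg, Nat.div_le_div_right hd.1.2⟩
    · intro e _
      exact Nat.mul_div_cancel_left e hg
    · intro d hd
      rw [mem_filter] at hd
      exact Nat.mul_div_cancel' hd.2
    · intro e _
      rfl
  have h2 : ∑ e ∈ Icc 1 (V / g), (moebius (g * e) : ℝ) / ((g * e : ℕ) : ℝ) =
      ((moebius g : ℝ) / g) * ∑ e ∈ (Icc 1 (V / g)).filter (fun e => Nat.Coprime e g),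
        (moebius e : ℝ) / e := by
    rw [mul_sum, sum_filter]
    apply sum_congr rfl
    intro e _
    rw [Msq_moebius_mul]
    split_ifs
    · push_cast
      rw [div_mul_div_comm]
    · simp
  rw [h1, h2, abs_mul, abs_div, abs_of_pos hg0]
  have h3 := sum_moebius_coprime g (V / g) hg (Nat.div_pos hgV hg)
  have h4 := Msq_abs_moebius g
  calc |(moebius g : ℝ)| / g * |∑ e ∈ (Icc 1 (V / g)).filter (fun e => Nat.Coprime e g),
        (moebius e : ℝ) / e| ≤ 1 / g * 1 := by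
        apply mul_le_mul _ h3 (abs_nonneg _) (by positivity)
        exact div_le_div_of_nonneg_right h4 hg0.le
    _ = 1 / g := by ring

theorem Msq_quad (V : ℕ) (hV : 1 ≤ V) :
    ∑ a ∈ Icc 1 V, ∑ b ∈ Icc 1 V, (moebius a : ℝ) * moebius b / (Nat.lcm a b : ℝ) ≤
      1 + Real.log V := by
  have h1 : ∀ a ∈ Icc 1 V, ∀ b ∈ Icc 1 V, (moebius a : ℝ) * moebius b / (Nat.lcm a b : ℝ) =
      ∑ g ∈ Icc 1 V, (Nat.totient g : ℝ) * ((if g ∣ a then (moebius a : ℝ) / a else 0) *
        (if g ∣ b then (moebius b : ℝ) / b else 0)) := by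
    intro a ha b hb
    rw [mem_Icc] at ha hb
    have ha0 : (0 : ℝ) < a := by exact_mod_cast ha.1
    have hb0 : (0 : ℝ) < b := by exact_mod_cast hb.1
    have hgcd : ((Nat.gcd a b : ℕ) : ℝ) = ∑ g ∈ (Icc 1 V).filter (fun g => g ∣ a ∧ g ∣ b),
        (Nat.totient g : ℝ) := by
      have h := Nat.sum_totient (Nat.gcd a b)
      have h2 : (Nat.gcd a b).divisors = (Icc 1 V).filter (fun g => g ∣ a ∧ g ∣ b) := by
        ext g
        simp only [mem_filter, Nat.mem_divisors, mem_Icc, Nat.dvd_gcd_iff]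
        constructor
        · rintro ⟨⟨h3, h4⟩, -⟩
          exact ⟨⟨Nat.pos_of_dvd_of_pos h3 ha.1, (Nat.le_of_dvd ha.1 h3).trans ha.2⟩, h3, h4⟩
        · rintro ⟨-, h3, h4⟩
          exact ⟨⟨h3, h4⟩, (Nat.gcd_pos_of_pos_left b ha.1).ne'⟩
      rw [← h2]
      exact_mod_cast h.symm
    have hl0 : (0 : ℝ) < (Nat.lcm a b : ℝ) := by exact_mod_cast Nat.lcm_pos ha.1 hb.1
    have hgl : ((Nat.gcd a b : ℕ) : ℝ) * (Nat.lcm a b : ℝ) = a * b := by
      exact_mod_cast Nat.gcd_mul_lcm a b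
    have h3 : (moebius a : ℝ) * moebius b / (Nat.lcm a b : ℝ) =
        ((Nat.gcd a b : ℕ) : ℝ) * ((moebius a : ℝ) / a * ((moebius b : ℝ) / b)) := by
      rw [div_eq_iff hl0.ne']
      have h4 : ((Nat.gcd a b : ℕ) : ℝ) * ((moebius a : ℝ) / a * ((moebius b : ℝ) / b)) *
          (Nat.lcm a b : ℝ) = (((Nat.gcd a b : ℕ) : ℝ) * (Nat.lcm a b : ℝ)) *
            ((moebius a : ℝ) / a * ((moebius b : ℝ) / b)) := by ring
      rw [h4, hgl]
      field_simp
    rw [h3, hgcd, sum_mul, sum_filter]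
    apply sum_congr rfl
    intro g _
    by_cases h4 : g ∣ a <;> by_cases h5 : g ∣ b <;> simp [h4, h5]
  rw [sum_congr rfl (fun a ha => sum_congr rfl (h1 a ha))]
  have h2 : ∑ a ∈ Icc 1 V, ∑ b ∈ Icc 1 V, ∑ g ∈ Icc 1 V, (Nat.totient g : ℝ) *
      ((if g ∣ a then (moebius a : ℝ) / a else 0) * (if g ∣ b then (moebius b : ℝ) / b else 0)) =
      ∑ g ∈ Icc 1 V, (Nat.totient g : ℝ) *
        (∑ d ∈ (Icc 1 V).filter (fun d => g ∣ d), (moebius d : ℝ) / d) ^ 2 := by
    rw [sum_congr rfl (fun a _ => sum_comm), sum_comm]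
    apply sum_congr rfl
    intro g _
    rw [sum_filter, pow_two, sum_mul_sum, mul_sum]
    apply sum_congr rfl
    intro a _
    rw [mul_sum]
  rw [h2]
  calc ∑ g ∈ Icc 1 V, (Nat.totient g : ℝ) *
        (∑ d ∈ (Icc 1 V).filter (fun d => g ∣ d), (moebius d : ℝ) / d) ^ 2
      ≤ ∑ g ∈ Icc 1 V, (1 : ℝ) / g := by
        apply sum_le_sum
        intro g hg
        rw [mem_Icc] at hg
        have hg0 : (0 : ℝ) < g := by exact_mod_cast hg.1
        have h3 := Msq_inner hg.1 hg.2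
        have h4 : (∑ d ∈ (Icc 1 V).filter (fun d => g ∣ d), (moebius d : ℝ) / d) ^ 2 ≤
            (1 / (g : ℝ)) ^ 2 := by
          rw [← sq_abs]
          exact pow_le_pow_left₀ (abs_nonneg _) h3 2
        have h5 : (Nat.totient g : ℝ) ≤ g := by exact_mod_cast Nat.totient_le g
        calc (Nat.totient g : ℝ) *
            (∑ d ∈ (Icc 1 V).filter (fun d => g ∣ d), (moebius d : ℝ) / d) ^ 2
            ≤ g * (1 / (g : ℝ)) ^ 2 := mul_le_mul h5 h4 (sq_nonneg _) hg0.le
          _ = 1 / g := by field_simp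
    _ ≤ 1 + Real.log V := Msq_harmonic V

theorem cV_sq_large (V Y : ℕ) (hV : 1 ≤ V) (hY : V ^ 2 ≤ Y) :
    ∑ n ∈ Ioc V Y, (cV V n) ^ 2 ≤ Y * (Real.log V + 2) := by
  have hY0 : (0 : ℝ) ≤ Y := Nat.cast_nonneg _
  calc ∑ n ∈ Ioc V Y, (cV V n) ^ 2
      = ∑ n ∈ Ioc V Y, (∑ d ∈ (Icc 1 V).filter (fun d => d ∣ n), (moebius d : ℝ)) ^ 2 := by
        apply sum_congr rfl
        intro n hn
        rw [mem_Ioc] at hn
        rw [Msq_cV_eq (by omega), neg_sq]
    _ ≤ ∑ n ∈ Icc 1 Y, (∑ d ∈ (Icc 1 V).filter (fun d => d ∣ n), (moebius d : ℝ)) ^ 2 := by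
        apply sum_le_sum_of_subset_of_nonneg
        · intro n hn
          rw [mem_Ioc] at hn
          rw [mem_Icc]
          omega
        · intro n _ _
          positivity
    _ = ∑ a ∈ Icc 1 V, ∑ b ∈ Icc 1 V, (moebius a : ℝ) * moebius b * ((Y / Nat.lcm a b : ℕ) : ℝ) := by
        have h1 : ∀ n ∈ Icc 1 Y, (∑ d ∈ (Icc 1 V).filter (fun d => d ∣ n), (moebius d : ℝ)) ^ 2 =
            ∑ a ∈ Icc 1 V, ∑ b ∈ Icc 1 V, (if Nat.lcm a b ∣ n then (moebius a : ℝ) * moebius b else 0) := by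
          intro n _
          rw [sum_filter, pow_two, sum_mul_sum]
          apply sum_congr rfl
          intro a _
          apply sum_congr rfl
          intro b _
          by_cases h2 : a ∣ n <;> by_cases h3 : b ∣ n <;> simp [h2, h3, Nat.lcm_dvd_iff]
        rw [sum_congr rfl h1, sum_comm]
        apply sum_congr rfl
        intro a _
        rw [sum_comm]
        apply sum_congr rfl
        intro b _
        rw [← sum_filter, sum_const, Msq_Icc_dvd_card, nsmul_eq_mul, mul_comm]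
    _ ≤ ∑ a ∈ Icc 1 V, ∑ b ∈ Icc 1 V,
          (Y * ((moebius a : ℝ) * moebius b / (Nat.lcm a b : ℝ)) + 1) := by
        apply sum_le_sum
        intro a ha
        apply sum_le_sum
        intro b hb
        rw [mem_Icc] at ha hb
        have hl : 0 < Nat.lcm a b := Nat.lcm_pos ha.1 hb.1
        have hl0 : (0 : ℝ) < (Nat.lcm a b : ℝ) := by exact_mod_cast hl
        have h2 : ((Y / Nat.lcm a b : ℕ) : ℝ) ≤ (Y : ℝ) / Nat.lcm a b := Nat.cast_div_le
        have h3 : (Y : ℝ) / Nat.lcm a b < ((Y / Nat.lcm a b : ℕ) : ℝ) + 1 := by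
          rw [div_lt_iff₀ hl0]
          have := Nat.lt_div_mul_add (a := Y) (b := Nat.lcm a b) hl
          have h4 : Y < (Y / Nat.lcm a b + 1) * Nat.lcm a b := by
            rw [add_mul, one_mul]
            exact this
          exact_mod_cast h4
        have h5 : |(moebius a : ℝ) * moebius b| ≤ 1 := by
          rw [abs_mul]
          calc |(moebius a : ℝ)| * |(moebius b : ℝ)| ≤ 1 * 1 :=
                mul_le_mul (Msq_abs_moebius a) (Msq_abs_moebius b) (abs_nonneg _) zero_le_one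
            _ = 1 := by norm_num
        have h6 : |(moebius a : ℝ) * moebius b * (((Y / Nat.lcm a b : ℕ) : ℝ) - (Y : ℝ) / Nat.lcm a b)| ≤ 1 := by
          rw [abs_mul]
          have h7 : |((Y / Nat.lcm a b : ℕ) : ℝ) - (Y : ℝ) / Nat.lcm a b| ≤ 1 := by
            rw [abs_le]
            constructor <;> linarith
          calc |(moebius a : ℝ) * moebius b| * |((Y / Nat.lcm a b : ℕ) : ℝ) - (Y : ℝ) / Nat.lcm a b|
              ≤ 1 * 1 := mul_le_mul h5 h7 (abs_nonneg _) zero_le_one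
            _ = 1 := by norm_num
        have h8 := (abs_le.1 h6).2
        have h9 : (Y : ℝ) * ((moebius a : ℝ) * moebius b / (Nat.lcm a b : ℝ)) =
            (moebius a : ℝ) * moebius b * ((Y : ℝ) / Nat.lcm a b) := by ring
        rw [h9]
        linarith
    _ = Y * ∑ a ∈ Icc 1 V, ∑ b ∈ Icc 1 V, (moebius a : ℝ) * moebius b / (Nat.lcm a b : ℝ) +
          (V : ℝ) ^ 2 := by
        simp only [sum_add_distrib, mul_sum, sum_const, Nat.card_Icc, nsmul_eq_mul, mul_one]
        push_cast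
        simp
        ring
    _ ≤ Y * (1 + Real.log V) + Y := by
        have h1 := Msq_quad V hV
        have h2 : (V : ℝ) ^ 2 ≤ Y := by exact_mod_cast hY
        have := mul_le_mul_of_nonneg_left h1 hY0
        linarith
    _ = Y * (Real.log V + 2) := by ring

/-- reorganising a double sum -/
theorem Msq_sum_divisors (Y : ℕ) (f : ℕ → ℕ → ℝ) :
    ∑ n ∈ Icc 1 Y, ∑ d ∈ n.divisors, f d (n / d) =
      ∑ d ∈ Icc 1 Y, ∑ m ∈ Icc 1 (Y / d), f d m := by
  rw [Finset.sum_sigma', Finset.sum_sigma']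
  refine Finset.sum_nbij' (fun x => ⟨x.2, x.1 / x.2⟩) (fun x => ⟨x.1 * x.2, x.1⟩) ?_ ?_ ?_ ?_ ?_
  · rintro ⟨n, d⟩ hx
    simp only [mem_sigma, mem_Icc, Nat.mem_divisors] at hx ⊢
    obtain ⟨⟨h1, h2⟩, h3, -⟩ := hx
    have hd : 0 < d := Nat.pos_of_dvd_of_pos h3 h1
    exact ⟨⟨hd, (Nat.le_of_dvd h1 h3).trans h2⟩, Nat.div_pos (Nat.le_of_dvd h1 h3) hd,
      Nat.div_le_div_right h2⟩
  · rintro ⟨d, m⟩ hx
    simp only [mem_sigma, mem_Icc, Nat.mem_divisors] at hx ⊢
    obtain ⟨⟨h1, h2⟩, h3, h4⟩ := hx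
    have h5 : d * m ≤ Y := by
      calc d * m ≤ d * (Y / d) := Nat.mul_le_mul_left _ h4
        _ ≤ Y := Nat.mul_div_le _ _
    have h6 : 0 < d * m := Nat.mul_pos h1 h3
    exact ⟨⟨h6, h5⟩, dvd_mul_right _ _, h6.ne'⟩
  · rintro ⟨n, d⟩ hx
    simp only [mem_sigma, mem_Icc, Nat.mem_divisors] at hx ⊢
    rw [Nat.mul_div_cancel' hx.2.1]
  · rintro ⟨d, m⟩ hx
    simp only [mem_sigma, mem_Icc] at hx ⊢
    rw [Nat.mul_div_cancel_left m hx.1.1]
  · rintro ⟨n, d⟩ _
    rfl

theorem Msq_tau_sum (x : ℕ) :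
    ∑ m ∈ Icc 1 x, (m.divisors.card : ℝ) ≤ x * (1 + Real.log x) := by
  have h1 : ∑ m ∈ Icc 1 x, (m.divisors.card : ℝ) = ∑ d ∈ Icc 1 x, ((x / d : ℕ) : ℝ) := by
    have := Msq_sum_divisors x (fun _ _ => (1 : ℝ))
    simpa using this
  rw [h1]
  calc ∑ d ∈ Icc 1 x, ((x / d : ℕ) : ℝ) ≤ ∑ d ∈ Icc 1 x, (x : ℝ) * (1 / d) := by
        apply sum_le_sum
        intro d _
        have : ((x / d : ℕ) : ℝ) ≤ (x : ℝ) / d := Nat.cast_div_le
        rwa [mul_one_div]
    _ = x * ∑ d ∈ Icc 1 x, (1 : ℝ) / d := by rw [mul_sum]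
    _ ≤ x * (1 + Real.log x) :=
        mul_le_mul_of_nonneg_left (Msq_harmonic x) (Nat.cast_nonneg _)

theorem Msq_tau_sq (Y : ℕ) (hY : 1 ≤ Y) :
    ∑ n ∈ Icc 1 Y, (n.divisors.card : ℝ) ^ 2 ≤ Y * (Real.log Y + 1) ^ 3 := by
  have hlog : 0 ≤ Real.log Y := Real.log_natCast_nonneg Y
  have hY0 : (0 : ℝ) < Y := by exact_mod_cast hY
  calc ∑ n ∈ Icc 1 Y, (n.divisors.card : ℝ) ^ 2
      ≤ ∑ n ∈ Icc 1 Y, ∑ d ∈ n.divisors, (d.divisors.card : ℝ) * ((n / d).divisors.card : ℝ) := by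
        apply sum_le_sum
        intro n hn
        have h1 : (n.divisors.card : ℝ) ^ 2 = ∑ d ∈ n.divisors, (n.divisors.card : ℝ) := by
          rw [sum_const, nsmul_eq_mul, pow_two]
        rw [h1]
        apply sum_le_sum
        intro d hd
        rw [Nat.mem_divisors] at hd
        have h2 : n.divisors.card ≤ d.divisors.card * (n / d).divisors.card := by
          conv_lhs => rw [← Nat.mul_div_cancel' hd.1]
          rw [Nat.divisors_mul]
          exact card_mul_le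
        exact_mod_cast h2
    _ = ∑ d ∈ Icc 1 Y, ∑ m ∈ Icc 1 (Y / d), (d.divisors.card : ℝ) * (m.divisors.card : ℝ) :=
        Msq_sum_divisors Y (fun d m => (d.divisors.card : ℝ) * (m.divisors.card : ℝ))
    _ ≤ ∑ d ∈ Icc 1 Y, (d.divisors.card : ℝ) * ((Y : ℝ) / d * (1 + Real.log Y)) := by
        apply sum_le_sum
        intro d hd
        rw [mem_Icc] at hd
        rw [← mul_sum]
        apply mul_le_mul_of_nonneg_left _ (Nat.cast_nonneg _)
        have hd0 : (0 : ℝ) < d := by exact_mod_cast hd.1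
        have h1 := Msq_tau_sum (Y / d)
        have h2 : ((Y / d : ℕ) : ℝ) ≤ (Y : ℝ) / d := Nat.cast_div_le
        have h3 : 1 ≤ Y / d := Nat.div_pos hd.2 hd.1
        have h4 : Real.log ((Y / d : ℕ) : ℝ) ≤ Real.log Y := by
          apply Real.log_le_log
          · exact_mod_cast h3
          · exact_mod_cast Nat.div_le_self Y d
        refine h1.trans ?_
        apply mul_le_mul h2 (by linarith) _ (by positivity)
        have : 0 ≤ Real.log ((Y / d : ℕ) : ℝ) := Real.log_natCast_nonneg _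
        linarith
    _ = Y * (1 + Real.log Y) * ∑ d ∈ Icc 1 Y, (d.divisors.card : ℝ) * (1 / d) := by
        rw [mul_sum]
        apply sum_congr rfl
        intro d _
        ring
    _ ≤ Y * (1 + Real.log Y) * (1 + Real.log Y) ^ 2 := by
        apply mul_le_mul_of_nonneg_left _ (by positivity)
        have h1 : ∑ d ∈ Icc 1 Y, (d.divisors.card : ℝ) * (1 / d) =
            ∑ a ∈ Icc 1 Y, ∑ b ∈ Icc 1 (Y / a), (1 : ℝ) / a * (1 / b) := by
          rw [← Msq_sum_divisors Y (fun a b => (1 : ℝ) / a * (1 / b))]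
          apply sum_congr rfl
          intro n hn
          rw [mem_Icc] at hn
          rw [← nsmul_eq_mul, ← sum_const]
          apply sum_congr rfl
          intro d hd
          rw [Nat.mem_divisors] at hd
          have hd0 : d ≠ 0 := fun h => by
            rw [h] at hd
            exact hd.2 (Nat.eq_zero_of_zero_dvd hd.1)
          have h5 : (d : ℝ) * ((n / d : ℕ) : ℝ) = n := by
            exact_mod_cast Nat.mul_div_cancel' hd.1
          rw [div_mul_div_comm, one_mul, h5]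
        rw [h1]
        calc ∑ a ∈ Icc 1 Y, ∑ b ∈ Icc 1 (Y / a), (1 : ℝ) / a * (1 / b)
            ≤ ∑ a ∈ Icc 1 Y, ∑ b ∈ Icc 1 Y, (1 : ℝ) / a * (1 / b) := by
              apply sum_le_sum
              intro a _
              apply sum_le_sum_of_subset_of_nonneg
              · exact Icc_subset_Icc_right (Nat.div_le_self _ _)
              · intro b _ _
                positivity
          _ = (∑ a ∈ Icc 1 Y, (1 : ℝ) / a) ^ 2 := by
              rw [pow_two, sum_mul_sum]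
          _ ≤ (1 + Real.log Y) ^ 2 := by
              apply pow_le_pow_left₀ _ (Msq_harmonic Y)
              apply sum_nonneg
              intro a _
              positivity
    _ = Y * (Real.log Y + 1) ^ 3 := by ring

theorem cV_sq_all (V Y : ℕ) (hV : 1 ≤ V) (hY : 1 ≤ Y) :
    ∑ n ∈ Ioc V Y, (cV V n) ^ 2 ≤ Y * (Real.log Y + 1) ^ 3 := by
  refine le_trans ?_ (Msq_tau_sq Y hY)
  calc ∑ n ∈ Ioc V Y, (cV V n) ^ 2 ≤ ∑ n ∈ Ioc V Y, (n.divisors.card : ℝ) ^ 2 := by
        apply sum_le_sum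
        intro n _
        rw [← sq_abs]
        apply pow_le_pow_left₀ (abs_nonneg _)
        unfold cV
        refine (abs_sum_le_sum_abs _ _).trans ?_
        calc ∑ d ∈ n.divisors.filter (fun d => V < d), |(moebius d : ℝ)|
            ≤ ∑ d ∈ n.divisors.filter (fun d => V < d), (1 : ℝ) :=
              sum_le_sum fun d _ => Msq_abs_moebius d
          _ ≤ n.divisors.card := by
              rw [sum_const, nsmul_eq_mul, mul_one]
              exact_mod_cast card_filter_le _ _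
    _ ≤ ∑ n ∈ Icc 1 Y, (n.divisors.card : ℝ) ^ 2 := by
        apply sum_le_sum_of_subset_of_nonneg
        · intro n hn
          rw [mem_Ioc] at hn
          rw [mem_Icc]
          omega
        · intro n _ _
          positivity

theorem Lam_sq (M : ℕ) (hM : 1 ≤ M) :
    ∑ m ∈ Ioc M (2 * M), (ArithmeticFunction.vonMangoldt m) ^ 2 ≤ 2.2 * M * Real.log (2 * M) := by
  have hM0 : (0 : ℝ) < M := by exact_mod_cast hM
  have hlog : 0 ≤ Real.log (2 * M) := Real.log_nonneg (by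
    have : (1 : ℝ) ≤ M := by exact_mod_cast hM
    linarith)
  have hpsi : ∑ m ∈ Ioc M (2 * M), ArithmeticFunction.vonMangoldt m ≤ Real.log 3 * (2 * M) := by
    have h1 := Pool.Agent.H91.Gold.psi_le_log_three (2 * M)
    rw [Chebyshev.psi] at h1
    rw [Nat.floor_natCast] at h1
    push_cast at h1
    refine le_trans ?_ h1
    apply sum_le_sum_of_subset_of_nonneg
    · intro m hm
      rw [mem_Ioc] at hm ⊢
      omega
    · intro m _ _
      exact ArithmeticFunction.vonMangoldt_nonneg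
  have hl3 : Real.log 3 ≤ 1.1 := by
    have h := Pool.Agent.H91.Gold.log_three_bounds.2
    have := Real.log_two_lt_d9
    linarith
  calc ∑ m ∈ Ioc M (2 * M), (ArithmeticFunction.vonMangoldt m) ^ 2
      ≤ ∑ m ∈ Ioc M (2 * M), Real.log (2 * M) * ArithmeticFunction.vonMangoldt m := by
        apply sum_le_sum
        intro m hm
        rw [mem_Ioc] at hm
        rw [pow_two]
        apply mul_le_mul_of_nonneg_right _ ArithmeticFunction.vonMangoldt_nonneg
        refine ArithmeticFunction.vonMangoldt_le_log.trans ?_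
        apply Real.log_le_log
        · have : 0 < m := by omega
          exact_mod_cast this
        · exact_mod_cast hm.2
    _ = Real.log (2 * M) * ∑ m ∈ Ioc M (2 * M), ArithmeticFunction.vonMangoldt m := by
        rw [mul_sum]
    _ ≤ Real.log (2 * M) * (Real.log 3 * (2 * M)) := mul_le_mul_of_nonneg_left hpsi hlog
    _ ≤ 2.2 * M * Real.log (2 * M) := by
        have h2 : Real.log 3 * (2 * M) ≤ 1.1 * (2 * M) :=
          mul_le_mul_of_nonneg_right hl3 (by positivity)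
        have := mul_le_mul_of_nonneg_left h2 hlog
        linarith

end Pool.Agent.H91.PK

end
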