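import Pool.Agent.H94.EH.M01
import Pool.Agent.H94.EH.M03
import Pool.Agent.H94.EH.M04

/-! The parts of this file: H91.PK.TyB, H91.PK.TyC. -/

section

/-!
PK TyB: type II sum for one dyadic block of m, averaged over primitive characters of conductor in (Q, D].

Let Y = N / M.  Dyadic decomposition of r: R_l = 2^l Q, l < nl; the blocks (R_l, 2R_l] cover (Q, D] as D ≤ 2^nl Q.
For one block apply `bilinear_sep` with I = {(r,χ) : R_l < r ≤ 2R_l, χ primitive mod r} (a sigma finset),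
 w = 1/φ(r), χ_i(n) = χ(n : ZMod r) (multiplicative via Nat.cast_mul, map_mul),
 A² = (4R² + πM)/R, B² = (4R² + πY)/R (R = R_l ≥ 1):   (h1), (h2) follow from
 1/φ(r) ≤ (1/R)(r/φ(r)) and `mult_ls` with R := 2R_l, (K0,K) = (M, M) resp. (V, Y - V) (if Y < V the sums are empty; K ≤ Y).
 A B ≤ (1/R)(2R + √(πM))(2R + √(πY)) = 4R + 2√π(√M + √Y) + π √(M Y)/R,   M Y ≤ N.
 ∑_l 4R_l ≤ 4·2^nl Q ≤ 8D,  ∑_l 1/R_l ≤ 2/Q.
-/

set_option autoImplicit false

namespace Pool.Agent.H91.PK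

open Finset

private theorem TyB_ls (R K0 K : ℕ) (hR : 1 ≤ R) (a : ℕ → ℂ) :
    ∑ i ∈ (Ioc R (2 * R)).sigma (fun r => Pch r), (1 / (i.1.totient : ℝ)) *
      ‖∑ n ∈ Ioc K0 (K0 + K), a n * i.2 (n : ZMod i.1)‖ ^ 2
      ≤ ((4 * (R : ℝ) ^ 2 + Real.pi * K) / R) * ∑ n ∈ Ioc K0 (K0 + K), ‖a n‖ ^ 2 := by
  rw [Finset.sum_sigma]
  have hR0 : (0 : ℝ) < R := by exact_mod_cast hR
  have h1 := mult_ls (2 * R) K0 K a
  have h2 : ∑ r ∈ Ioc R (2 * R), ∑ χ ∈ Pch r, (1 / (r.totient : ℝ)) *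
      ‖∑ n ∈ Ioc K0 (K0 + K), a n * χ (n : ZMod r)‖ ^ 2 ≤
      (1 / (R : ℝ)) * ∑ r ∈ Icc 1 (2 * R), ((r : ℝ) / r.totient) * ∑ χ ∈ Pch r,
      ‖∑ n ∈ Ioc K0 (K0 + K), a n * χ (n : ZMod r)‖ ^ 2 := by
    rw [Finset.mul_sum]
    calc ∑ r ∈ Ioc R (2 * R), ∑ χ ∈ Pch r, (1 / (r.totient : ℝ)) *
          ‖∑ n ∈ Ioc K0 (K0 + K), a n * χ (n : ZMod r)‖ ^ 2
        ≤ ∑ r ∈ Ioc R (2 * R), (1 / (R : ℝ)) * (((r : ℝ) / r.totient) * ∑ χ ∈ Pch r,
          ‖∑ n ∈ Ioc K0 (K0 + K), a n * χ (n : ZMod r)‖ ^ 2) := by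
          apply Finset.sum_le_sum
          intro r hr
          rw [Finset.mem_Ioc] at hr
          rw [← Finset.mul_sum, ← mul_assoc]
          have hr0 : 0 < r := by omega
          have hφ : (0 : ℝ) < r.totient := by exact_mod_cast Nat.totient_pos.2 hr0
          apply mul_le_mul_of_nonneg_right _ (Finset.sum_nonneg (fun _ _ => by positivity))
          rw [div_mul_div_comm, one_mul, div_le_div_iff₀ hφ (mul_pos hR0 hφ)]
          have : (R : ℝ) ≤ r := by exact_mod_cast hr.1.le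
          nlinarith
      _ ≤ _ := by
          apply Finset.sum_le_sum_of_subset_of_nonneg
          · intro r hr
            rw [Finset.mem_Ioc] at hr
            rw [Finset.mem_Icc]
            omega
          · intro r _ _
            positivity
  refine h2.trans ?_
  have h3 : ((4 * (R : ℝ) ^ 2 + Real.pi * K) / R) * ∑ n ∈ Ioc K0 (K0 + K), ‖a n‖ ^ 2 =
      (1 / (R : ℝ)) * ((((2 * R : ℕ) : ℝ) ^ 2 + Real.pi * K) * ∑ n ∈ Ioc K0 (K0 + K), ‖a n‖ ^ 2) := by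
    push_cast
    ring
  rw [h3]
  exact mul_le_mul_of_nonneg_left h1 (by positivity)

private theorem TyB_AB (R M Y N : ℝ) (hR : 0 < R) (hM : 0 ≤ M) (hY : 0 ≤ Y) (hMY : M * Y ≤ N) :
    Real.sqrt ((4 * R ^ 2 + Real.pi * M) / R) * Real.sqrt ((4 * R ^ 2 + Real.pi * Y) / R) ≤
      4 * R + 2 * Real.sqrt Real.pi * (Real.sqrt M + Real.sqrt Y) + Real.pi * Real.sqrt N / R := by
  have hpi := Real.pi_pos
  have hA : Real.sqrt (4 * R ^ 2 + Real.pi * M) ≤ 2 * R + Real.sqrt Real.pi * Real.sqrt M := by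
    rw [Real.sqrt_le_left (by positivity)]
    have e1 := Real.sq_sqrt hpi.le
    have e2 := Real.sq_sqrt hM
    have e3 : 0 ≤ R * (Real.sqrt Real.pi * Real.sqrt M) := by positivity
    nlinarith [e1, e2, e3]
  have hB : Real.sqrt (4 * R ^ 2 + Real.pi * Y) ≤ 2 * R + Real.sqrt Real.pi * Real.sqrt Y := by
    rw [Real.sqrt_le_left (by positivity)]
    have e1 := Real.sq_sqrt hpi.le
    have e2 := Real.sq_sqrt hY
    have e3 : 0 ≤ R * (Real.sqrt Real.pi * Real.sqrt Y) := by positivity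
    nlinarith [e1, e2, e3]
  rw [Real.sqrt_div (by positivity), Real.sqrt_div (by positivity), div_mul_div_comm,
    Real.mul_self_sqrt hR.le]
  have h1 := mul_le_mul hA hB (Real.sqrt_nonneg _) (by positivity)
  have h2 : Real.sqrt M * Real.sqrt Y ≤ Real.sqrt N := by
    rw [← Real.sqrt_mul hM]
    exact Real.sqrt_le_sqrt hMY
  have h3 : (2 * R + Real.sqrt Real.pi * Real.sqrt M) * (2 * R + Real.sqrt Real.pi * Real.sqrt Y) ≤
      4 * R ^ 2 + 2 * R * Real.sqrt Real.pi * (Real.sqrt M + Real.sqrt Y) +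
        Real.pi * Real.sqrt N := by
    have e1 := Real.mul_self_sqrt hpi.le
    have e2 := mul_le_mul_of_nonneg_left h2 hpi.le
    have e3 : (2 * R + Real.sqrt Real.pi * Real.sqrt M) * (2 * R + Real.sqrt Real.pi * Real.sqrt Y) =
      4 * R ^ 2 + 2 * R * Real.sqrt Real.pi * (Real.sqrt M + Real.sqrt Y) +
        (Real.sqrt Real.pi * Real.sqrt Real.pi) * (Real.sqrt M * Real.sqrt Y) := by ring
    rw [e3, e1]
    linarith
  rw [div_le_iff₀ hR]
  have h4 : (4 * R + 2 * Real.sqrt Real.pi * (Real.sqrt M + Real.sqrt Y) +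
      Real.pi * Real.sqrt N / R) * R = 4 * R ^ 2 + 2 * R * Real.sqrt Real.pi *
      (Real.sqrt M + Real.sqrt Y) + Real.pi * Real.sqrt N := by
    field_simp
  rw [h4]
  exact h1.trans h3

private theorem TyB_one (N k M V R : ℕ) (hN : 2 ≤ N) (hM : 1 ≤ M) (hR : 1 ≤ R) (a b : ℕ → ℝ) :
    ∑ r ∈ Ioc R (2 * R), (1 / (r.totient : ℝ)) * ∑ χ ∈ Pch r,
      ‖∑ m ∈ Ioc M (2 * M), ((a m : ℝ) : ℂ) * ∑ n ∈ Ioc V (N / m), ((b n : ℝ) : ℂ) *
        (χ ((m * n : ℕ) : ZMod r) * ((W N k (m * n) : ℝ) : ℂ))‖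
      ≤ 0.2193 * (1 + Real.log 2 / Real.log N) ^ k *
        (4 * R + 2 * Real.sqrt Real.pi * (Real.sqrt M + Real.sqrt ((N / M : ℕ) : ℝ)) +
          Real.pi * Real.sqrt N / R) *
        (Real.sqrt (∑ m ∈ Ioc M (2 * M), a m ^ 2) * Real.sqrt (∑ n ∈ Ioc V (N / M), b n ^ 2)) := by
  have hR0 : (0 : ℝ) < R := by exact_mod_cast hR
  have hpi := Real.pi_pos
  have hL : 0 ≤ Real.log N := Real.log_nonneg (by exact_mod_cast (by omega : 1 ≤ N))
  have hA0 : 0 ≤ (4 * (R : ℝ) ^ 2 + Real.pi * M) / R := by positivity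
  have hB0 : 0 ≤ (4 * (R : ℝ) ^ 2 + Real.pi * ((N / M : ℕ) : ℝ)) / R := by positivity
  have key := bilinear_sep ((Ioc R (2 * R)).sigma (fun r => Pch r))
    (fun i => 1 / (i.1.totient : ℝ)) (fun i _ => by positivity)
    (fun i n => i.2 (n : ZMod i.1))
    (fun i _ m n => by
      show i.2 ((m * n : ℕ) : ZMod i.1) = i.2 (m : ZMod i.1) * i.2 (n : ZMod i.1)
      rw [Nat.cast_mul, map_mul]) N k M V hN hM a b
    (Real.sqrt ((4 * (R : ℝ) ^ 2 + Real.pi * M) / R))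
    (Real.sqrt ((4 * (R : ℝ) ^ 2 + Real.pi * ((N / M : ℕ) : ℝ)) / R))
    (Real.sqrt_nonneg _) (Real.sqrt_nonneg _)
    (by
      intro α
      rw [Real.sq_sqrt hA0]
      have := TyB_ls R M M hR α
      rwa [← two_mul] at this)
    (by
      intro β
      rw [Real.sq_sqrt hB0]
      rcases Nat.lt_or_ge (N / M) V with h | h
      · have : Ioc V (N / M) = ∅ := Finset.Ioc_eq_empty (by omega)
        rw [this]
        simp
      · have h1 := TyB_ls R V (N / M - V) hR β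
        rw [show V + (N / M - V) = N / M by omega] at h1
        refine h1.trans ?_
        apply mul_le_mul_of_nonneg_right _ (Finset.sum_nonneg (fun _ _ => by positivity))
        apply div_le_div_of_nonneg_right _ hR0.le
        have : ((N / M - V : ℕ) : ℝ) ≤ ((N / M : ℕ) : ℝ) := by exact_mod_cast Nat.sub_le _ _
        nlinarith)
  rw [Finset.sum_sigma] at key
  have e0 : ∑ r ∈ Ioc R (2 * R), (1 / (r.totient : ℝ)) * ∑ χ ∈ Pch r,
      ‖∑ m ∈ Ioc M (2 * M), ((a m : ℝ) : ℂ) * ∑ n ∈ Ioc V (N / m), ((b n : ℝ) : ℂ) *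
        (χ ((m * n : ℕ) : ZMod r) * ((W N k (m * n) : ℝ) : ℂ))‖ =
      ∑ r ∈ Ioc R (2 * R), ∑ χ ∈ Pch r, (1 / (r.totient : ℝ)) *
      ‖∑ m ∈ Ioc M (2 * M), ((a m : ℝ) : ℂ) * ∑ n ∈ Ioc V (N / m), ((b n : ℝ) : ℂ) *
        (χ ((m * n : ℕ) : ZMod r) * ((W N k (m * n) : ℝ) : ℂ))‖ :=
    Finset.sum_congr rfl (fun r _ => Finset.mul_sum _ _ _)
  rw [e0]
  refine key.trans ?_
  apply mul_le_mul_of_nonneg_right _ (by positivity)
  apply mul_le_mul_of_nonneg_left _ (by positivity)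
  apply TyB_AB _ _ _ _ hR0 (by positivity) (by positivity)
  have : M * (N / M) ≤ N := Nat.mul_div_le N M
  exact_mod_cast this

private theorem TyB_dyadic (f : ℕ → ℝ) (Q : ℕ) (nl : ℕ) :
    ∑ r ∈ Ioc Q (2 ^ nl * Q), f r = ∑ l ∈ range nl, ∑ r ∈ Ioc (2 ^ l * Q) (2 * (2 ^ l * Q)), f r := by
  induction nl with
  | zero => simp
  | succ n ih =>
    rw [Finset.sum_range_succ, ← ih]
    have h1 : Q ≤ 2 ^ n * Q := Nat.le_mul_of_pos_left _ (by positivity)
    have h2 : 2 ^ (n + 1) * Q = 2 * (2 ^ n * Q) := by ring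
    rw [h2]
    exact (Finset.sum_Ioc_consecutive f h1 (by omega)).symm

theorem type2_block (N k M V Q D nl : ℕ) (hN : 2 ≤ N) (hM : 1 ≤ M) (hQ : 1 ≤ Q)
    (h1 : D ≤ 2 ^ nl * Q) (h2 : 2 ^ nl * Q ≤ 2 * D) (a b : ℕ → ℝ) :
    ∑ r ∈ Ioc Q D, (1 / (r.totient : ℝ)) * ∑ χ ∈ Pch r,
      ‖∑ m ∈ Ioc M (2 * M), ((a m : ℝ) : ℂ) * ∑ n ∈ Ioc V (N / m), ((b n : ℝ) : ℂ) *
        (χ ((m * n : ℕ) : ZMod r) * ((W N k (m * n) : ℝ) : ℂ))‖
      ≤ 0.2193 * (1 + Real.log 2 / Real.log N) ^ k *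
        (2 * Real.pi * Real.sqrt N / Q + 2 * Real.sqrt Real.pi * nl * (Real.sqrt M + Real.sqrt ((N / M : ℕ) : ℝ))
          + 8 * D) *
        (Real.sqrt (∑ m ∈ Ioc M (2 * M), a m ^ 2) * Real.sqrt (∑ n ∈ Ioc V (N / M), b n ^ 2)) := by
  have hQ0 : (0 : ℝ) < Q := by exact_mod_cast hQ
  have hpi := Real.pi_pos
  have hL : 0 ≤ Real.log N := Real.log_nonneg (by exact_mod_cast (by omega : 1 ≤ N))
  set f : ℕ → ℝ := fun r => (1 / (r.totient : ℝ)) * ∑ χ ∈ Pch r,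
      ‖∑ m ∈ Ioc M (2 * M), ((a m : ℝ) : ℂ) * ∑ n ∈ Ioc V (N / m), ((b n : ℝ) : ℂ) *
        (χ ((m * n : ℕ) : ZMod r) * ((W N k (m * n) : ℝ) : ℂ))‖ with hf
  have hf0 : ∀ r, 0 ≤ f r := fun r => by
    simp only [hf]
    positivity
  set E : ℝ := Real.sqrt (∑ m ∈ Ioc M (2 * M), a m ^ 2) * Real.sqrt (∑ n ∈ Ioc V (N / M), b n ^ 2)
    with hE
  have hE0 : 0 ≤ E := by positivity
  set c : ℝ := 0.2193 * (1 + Real.log 2 / Real.log N) ^ k with hc
  have hc0 : 0 ≤ c := by positivity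
  set s : ℝ := 2 * Real.sqrt Real.pi * (Real.sqrt M + Real.sqrt ((N / M : ℕ) : ℝ)) with hs
  have hs0 : 0 ≤ s := by positivity
  have step1 : ∑ r ∈ Ioc Q D, f r ≤ ∑ r ∈ Ioc Q (2 ^ nl * Q), f r :=
    Finset.sum_le_sum_of_subset_of_nonneg (Finset.Ioc_subset_Ioc_right h1) (fun r _ _ => hf0 r)
  have step2 : ∑ r ∈ Ioc Q (2 ^ nl * Q), f r ≤ ∑ l ∈ range nl,
      c * (4 * ((2 : ℝ) ^ l * Q) + s + Real.pi * Real.sqrt N / ((2 : ℝ) ^ l * Q)) * E := by
    rw [TyB_dyadic]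
    apply Finset.sum_le_sum
    intro l _
    have hRl : 1 ≤ 2 ^ l * Q := Nat.mul_pos (by positivity) hQ
    have := TyB_one N k M V (2 ^ l * Q) hN hM hRl a b
    have hcast : ((2 ^ l * Q : ℕ) : ℝ) = (2 : ℝ) ^ l * Q := by push_cast; ring
    rw [hcast] at this
    exact this
  have g1 : ∀ n : ℕ, ∑ l ∈ range n, (2 : ℝ) ^ l = 2 ^ n - 1 := by
    intro n
    induction n with
    | zero => simp
    | succ n ih => rw [Finset.sum_range_succ, ih]; ring
  have g2 : ∀ n : ℕ, ∑ l ∈ range n, 1 / (2 : ℝ) ^ l ≤ 2 := by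
    intro n
    have : ∑ l ∈ range n, 1 / (2 : ℝ) ^ l = 2 - 2 / 2 ^ n := by
      induction n with
      | zero => norm_num
      | succ n ih =>
        rw [Finset.sum_range_succ, ih]
        field_simp
        ring
    rw [this]
    have : (0 : ℝ) < 2 / 2 ^ n := by positivity
    linarith
  have step3 : ∑ l ∈ range nl,
      c * (4 * ((2 : ℝ) ^ l * Q) + s + Real.pi * Real.sqrt N / ((2 : ℝ) ^ l * Q)) * E =
      c * (4 * Q * ∑ l ∈ range nl, (2 : ℝ) ^ l + nl * s +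
        Real.pi * Real.sqrt N / Q * ∑ l ∈ range nl, 1 / (2 : ℝ) ^ l) * E := by
    rw [← Finset.sum_mul, ← Finset.mul_sum, Finset.sum_add_distrib, Finset.sum_add_distrib,
      Finset.mul_sum, Finset.mul_sum, Finset.sum_const, Finset.card_range, nsmul_eq_mul]
    congr 3
    · congr 1
      exact Finset.sum_congr rfl (fun l _ => by ring)
    · refine Finset.sum_congr rfl (fun l _ => ?_)
      field_simp
  refine (step1.trans step2).trans ?_
  rw [step3]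
  apply mul_le_mul_of_nonneg_right _ hE0
  apply mul_le_mul_of_nonneg_left _ hc0
  rw [g1]
  have k1 : 4 * (Q : ℝ) * (2 ^ nl - 1) ≤ 8 * D := by
    have : ((2 ^ nl * Q : ℕ) : ℝ) ≤ ((2 * D : ℕ) : ℝ) := by exact_mod_cast h2
    push_cast at this
    nlinarith
  have k2 : Real.pi * Real.sqrt N / Q * ∑ l ∈ range nl, 1 / (2 : ℝ) ^ l ≤
      2 * Real.pi * Real.sqrt N / Q := by
    have := mul_le_mul_of_nonneg_left (g2 nl) (by positivity : 0 ≤ Real.pi * Real.sqrt N / Q)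
    refine this.trans (le_of_eq ?_)
    ring
  have k3 : (nl : ℝ) * s = 2 * Real.sqrt Real.pi * nl *
      (Real.sqrt M + Real.sqrt ((N / M : ℕ) : ℝ)) := by
    rw [hs]; ring
  linarith

end Pool.Agent.H91.PK

end

section

/-!
PK TyC: the complete type II sum (U = V), averaged over primitive characters of conductor in (Q, D].

Let v = log V, L = log N.  Blocks M_i = 2^i V, i < I, where I is the least natural with N ≤ 2^I V · V (so for
m > 2^I V: N/m ≤ V and the inner sum is empty).  With Y_i = N / M_i (floor) and a = Λ, b = cV V :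
 ∑_{M_i<m≤2M_i} Λ² ≤ 2.2 M_i log(2M_i) ≤ 2.2 M_i L   (if 2M_i ≤ N; for i < I we have 2^i V·V < N, so 2M_i ≤ V M_i < N)
 ∑_{V<n≤Y_i} cV² ≤ Y_i β_i,  β_i = v + 2 if V² ≤ Y_i, and β_i = (2v+1)³ if Y_i < V² (log Y_i + 1 ≤ 2v + 1).
 M_i Y_i ≤ N, so the product of the two square roots is ≤ √(2.2 L N) √β_i, and 0.2193·√2.2 ≤ 0.3253.
Number of blocks: I ≤ L/log 2 (2^(I-1) V² < N and V ≥ 2);   blocks with Y_i < V²: N/(2^i V) < V² i.e. 2^i > N/V³, and
 2^i < N/V², so there are at most v/log 2 + 1 of them.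
∑_i √β_i ≤ (L/log 2) √(v+2) + (v/log 2 + 1)(2v+1)^{3/2} =: S1.
∑_i √β_i (√M_i + √Y_i) ≤ (2v+1)^{3/2} ∑ (√M_i + √Y_i) ≤ (2v+1)^{3/2}·2·3.42·√(N/V)   (geometric sums:
 M_i ≤ N/V·… precisely M_i < N/V, ratio √2: ∑ √M_i ≤ √(N/V)/(1-1/√2) ≤ 3.42 √(N/V);  Y_i ≤ N/(2^i V)).
 2 √π · 2 · 3.42 ≤ 24.3.
We write (2v+1)^{3/2} as (2v+1) * √(2v+1).
-/

set_option autoImplicit false

namespace Pool.Agent.H91.PK

open Finset

theorem TyC_geom (n : ℕ) : ∑ j ∈ range n, Real.sqrt ((1 / 2 : ℝ) ^ j) ≤ 3.42 := by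
  have hq0 : 0 ≤ Real.sqrt (1 / 2) := Real.sqrt_nonneg _
  have hq1 : Real.sqrt (1 / 2) ≤ 0.7072 := by
    rw [Real.sqrt_le_left (by norm_num)]
    norm_num
  have h1 : ∀ j : ℕ, Real.sqrt ((1 / 2 : ℝ) ^ j) = Real.sqrt (1 / 2) ^ j := by
    intro j
    induction j with
    | zero => simp
    | succ j ih => rw [pow_succ, pow_succ, Real.sqrt_mul (by positivity), ih]
  simp only [h1]
  set q := Real.sqrt (1 / 2) with hq
  have h2 := mul_neg_geom_sum q n
  have h3 : 0 ≤ q ^ n := by positivity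
  have h4 : 0 ≤ ∑ j ∈ range n, q ^ j := Finset.sum_nonneg fun j _ => by positivity
  have h5 : 0.2928 * ∑ j ∈ range n, q ^ j ≤ (1 - q) * ∑ j ∈ range n, q ^ j := by
    apply mul_le_mul_of_nonneg_right _ h4
    linarith only [hq1]
  linarith only [h2, h3, h5]

theorem TyC_blocks {β : Type*} [AddCommMonoid β] (V I : ℕ) (f : ℕ → β) :
    ∑ m ∈ Ioc V (2 ^ I * V), f m = ∑ i ∈ range I, ∑ m ∈ Ioc (2 ^ i * V) (2 * (2 ^ i * V)), f m := by
  induction I with
  | zero => simp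
  | succ I ih =>
    rw [Finset.sum_range_succ, ← ih, show 2 ^ (I + 1) * V = 2 * (2 ^ I * V) by ring,
      Finset.sum_Ioc_consecutive]
    · exact Nat.le_mul_of_pos_left _ (by positivity)
    · omega

theorem TyC_split {β : Type*} [AddCommMonoid β] (N V I : ℕ) (f : ℕ → β)
    (h1 : ∀ m, N < m → f m = 0) (h2 : ∀ m, 2 ^ I * V < m → f m = 0) :
    ∑ m ∈ Ioc V N, f m = ∑ i ∈ range I, ∑ m ∈ Ioc (2 ^ i * V) (2 * (2 ^ i * V)), f m := by
  rw [← TyC_blocks]
  set K := max N (2 ^ I * V) with hK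
  have e1 : ∑ m ∈ Ioc V N, f m = ∑ m ∈ Ioc V K, f m := by
    apply Finset.sum_subset
    · intro m hm
      rw [mem_Ioc] at hm ⊢
      exact ⟨hm.1, hm.2.trans (le_max_left _ _)⟩
    · intro m hm hm'
      rw [mem_Ioc] at hm hm'
      exact h1 m (by omega)
  have e2 : ∑ m ∈ Ioc V (2 ^ I * V), f m = ∑ m ∈ Ioc V K, f m := by
    apply Finset.sum_subset
    · intro m hm
      rw [mem_Ioc] at hm ⊢
      exact ⟨hm.1, hm.2.trans (le_max_right _ _)⟩
    · intro m hm hm'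
      rw [mem_Ioc] at hm hm'
      exact h2 m (by omega)
  rw [e1, e2]

/-- The mean square constant of a block. -/
noncomputable def TyC_be (V Y : ℕ) : ℝ :=
  if V ^ 2 ≤ Y then Real.log V + 2 else (2 * Real.log V + 1) ^ 3

theorem TyC_cV (V Y : ℕ) (hV : 1 ≤ V) (hY : 1 ≤ Y) :
    ∑ n ∈ Ioc V Y, (cV V n) ^ 2 ≤ Y * TyC_be V Y := by
  unfold TyC_be
  split_ifs with h
  · exact cV_sq_large V Y hV h
  · push Not at h
    refine (cV_sq_all V Y hV hY).trans ?_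
    have hVr : (1 : ℝ) ≤ V := by exact_mod_cast hV
    have hYr : (1 : ℝ) ≤ Y := by exact_mod_cast hY
    have h1 : Real.log Y ≤ 2 * Real.log V := by
      have h2 : (Y : ℝ) ≤ (V : ℝ) ^ 2 := by exact_mod_cast h.le
      have h3 := Real.log_le_log (by linarith only [hYr]) h2
      rw [Real.log_pow] at h3
      exact_mod_cast h3
    have h2 : 0 ≤ Real.log Y := Real.log_nonneg hYr
    gcongr

theorem TyC_be_le {V Y : ℕ} (hV : 8 ≤ V) : TyC_be V Y ≤ (2 * Real.log V + 1) ^ 3 := by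
  unfold TyC_be
  split_ifs with h
  · have hv : 0 ≤ Real.log V := Real.log_nonneg (by exact_mod_cast (by omega : 1 ≤ V))
    have hv2 : 2 ≤ Real.log V := by
      have h3 : Real.log 8 ≤ Real.log V := Real.log_le_log (by norm_num) (by exact_mod_cast hV)
      have h4 : Real.log 8 = 3 * Real.log 2 := by
        rw [show (8 : ℝ) = 2 ^ 3 by norm_num, Real.log_pow]; norm_num
      have := Real.log_two_gt_d9
      linarith only [h3, h4, this]
    nlinarith only [hv2, hv, sq_nonneg (Real.log V), mul_nonneg hv hv, mul_nonneg (mul_nonneg hv hv) hv]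
  · exact le_rfl

theorem TyC_sqrt_cube {x : ℝ} (hx : 0 ≤ x) : Real.sqrt (x ^ 3) = x * Real.sqrt x := by
  rw [show x ^ 3 = x ^ 2 * x by ring, Real.sqrt_mul (by positivity), Real.sqrt_sq hx]

theorem TyC_Ile {N V I : ℕ} (hV : 8 ≤ V) (hI : ∀ i < I, 2 ^ i * V * V < N) :
    (I : ℝ) ≤ Real.log N / Real.log 2 := by
  rcases Nat.eq_zero_or_pos I with rfl | hpos
  · have : 0 ≤ Real.log N / Real.log 2 := by
      apply div_nonneg (Real.log_natCast_nonneg N) (Real.log_nonneg (by norm_num))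
    simpa using this
  · have h1 := hI (I - 1) (by omega)
    have h2 : 2 ^ I ≤ N := by
      have h3 : 2 ^ I = 2 ^ (I - 1) * 2 := by
        rw [← pow_succ]; congr 1; omega
      have h4 : 2 ^ (I - 1) * 2 ≤ 2 ^ (I - 1) * V * V := by
        rw [mul_assoc]
        apply Nat.mul_le_mul_left
        nlinarith only [hV]
      omega
    have h3 : ((2 : ℝ) ^ I) ≤ N := by exact_mod_cast h2
    have h4 := Real.log_le_log (by positivity) h3
    rw [Real.log_pow] at h4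
    rwa [le_div_iff₀ (Real.log_pos (by norm_num))]

theorem TyC_bad {N V I : ℕ} (hV : 8 ≤ V) (hI : ∀ i < I, 2 ^ i * V * V < N) :
    (((range I).filter (fun i => ¬ V ^ 2 ≤ N / (2 ^ i * V))).card : ℝ) ≤ Real.log V / Real.log 2 + 1 := by
  set B := (range I).filter (fun i => ¬ V ^ 2 ≤ N / (2 ^ i * V)) with hB
  have hl2 : 0 < Real.log 2 := Real.log_pos (by norm_num)
  have hVr : (8 : ℝ) ≤ V := by exact_mod_cast hV
  rcases B.eq_empty_or_nonempty with h | h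
  · rw [h]
    have : 0 ≤ Real.log V / Real.log 2 := div_nonneg (Real.log_natCast_nonneg V) hl2.le
    simp
    linarith only [this]
  · set i0 := B.min' h with hi0
    set i1 := B.max' h with hi1
    have m0 : i0 ∈ B := B.min'_mem h
    have m1 : i1 ∈ B := B.max'_mem h
    have hle : i0 ≤ i1 := B.min'_le _ m1
    have hsub : B ⊆ Icc i0 i1 := by
      intro i hi
      rw [mem_Icc]
      exact ⟨B.min'_le _ hi, B.le_max' _ hi⟩
    have hcard : B.card ≤ i1 + 1 - i0 := by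
      have := Finset.card_le_card hsub
      rwa [Nat.card_Icc] at this
    rw [hB, mem_filter, mem_range] at m0 m1
    have a0 : N < 2 ^ i0 * V * V ^ 2 := by
      have h3 := m0.2
      push Not at h3
      rw [Nat.div_lt_iff_lt_mul (by positivity)] at h3
      linarith only [h3, mul_comm (V ^ 2) (2 ^ i0 * V)]
    have a1 := hI i1 m1.1
    have a2 : 2 ^ i1 * V * V < 2 ^ i0 * V * V ^ 2 := a1.trans a0
    have a3 : 2 ^ (i1 - i0) < V := by
      have h4 : 2 ^ i1 = 2 ^ i0 * 2 ^ (i1 - i0) := by rw [← pow_add]; congr 1; omega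
      rw [h4] at a2
      have h5 : (2 ^ i0 * V * V) * 2 ^ (i1 - i0) < (2 ^ i0 * V * V) * V := by
        calc (2 ^ i0 * V * V) * 2 ^ (i1 - i0) = 2 ^ i0 * 2 ^ (i1 - i0) * V * V := by ring
          _ < 2 ^ i0 * V * V ^ 2 := a2
          _ = (2 ^ i0 * V * V) * V := by ring
      exact Nat.lt_of_mul_lt_mul_left h5
    have a4 : ((2 : ℝ) ^ (i1 - i0)) ≤ V := by exact_mod_cast a3.le
    have a5 := Real.log_le_log (by positivity) a4
    rw [Real.log_pow] at a5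
    have a6 : ((i1 - i0 : ℕ) : ℝ) ≤ Real.log V / Real.log 2 := by rwa [le_div_iff₀ hl2]
    have a7 : (B.card : ℝ) ≤ ((i1 - i0 : ℕ) : ℝ) + 1 := by
      have : B.card ≤ (i1 - i0) + 1 := by omega
      exact_mod_cast this
    linarith only [a6, a7]

theorem TyC_sum1 {N V I : ℕ} (hV : 8 ≤ V) (hI : ∀ i < I, 2 ^ i * V * V < N) :
    ∑ i ∈ range I, Real.sqrt (TyC_be V (N / (2 ^ i * V))) ≤
      Real.log N / Real.log 2 * Real.sqrt (Real.log V + 2)
            + (Real.log V / Real.log 2 + 1) * ((2 * Real.log V + 1) * Real.sqrt (2 * Real.log V + 1)) := by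
  have hv : 0 ≤ Real.log V := Real.log_natCast_nonneg V
  have h1 : ∀ i ∈ range I, Real.sqrt (TyC_be V (N / (2 ^ i * V))) ≤ Real.sqrt (Real.log V + 2) +
      (if ¬ V ^ 2 ≤ N / (2 ^ i * V) then ((2 * Real.log V + 1) * Real.sqrt (2 * Real.log V + 1))
        else 0) := by
    intro i _
    unfold TyC_be
    by_cases h : V ^ 2 ≤ N / (2 ^ i * V)
    · simp [h]
    · rw [if_neg h, if_pos h, TyC_sqrt_cube (by positivity)]
      have := Real.sqrt_nonneg (Real.log V + 2)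
      linarith only [this]
  refine (Finset.sum_le_sum h1).trans ?_
  rw [Finset.sum_add_distrib, Finset.sum_const, card_range, nsmul_eq_mul, ← Finset.sum_filter,
    Finset.sum_const, nsmul_eq_mul]
  have h2 := TyC_Ile hV hI
  have h3 := TyC_bad hV hI
  gcongr

theorem TyC_sum2 {N V I : ℕ} (hV : 8 ≤ V) (hI : ∀ i < I, 2 ^ i * V * V < N) :
    ∑ i ∈ range I, Real.sqrt (TyC_be V (N / (2 ^ i * V))) *
      (Real.sqrt ((2 ^ i * V : ℕ) : ℝ) + Real.sqrt ((N / (2 ^ i * V) : ℕ) : ℝ)) ≤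
      ((2 * Real.log V + 1) * Real.sqrt (2 * Real.log V + 1)) * (6.84 * Real.sqrt (N / V)) := by
  have hv : 0 ≤ Real.log V := Real.log_natCast_nonneg V
  have hVr : (8 : ℝ) ≤ V := by exact_mod_cast hV
  have hNV : (0 : ℝ) ≤ N / V := by positivity
  have h1 : ∀ i ∈ range I, Real.sqrt (TyC_be V (N / (2 ^ i * V))) *
      (Real.sqrt ((2 ^ i * V : ℕ) : ℝ) + Real.sqrt ((N / (2 ^ i * V) : ℕ) : ℝ)) ≤
      ((2 * Real.log V + 1) * Real.sqrt (2 * Real.log V + 1)) *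
        (Real.sqrt (N / V) * Real.sqrt ((1 / 2 : ℝ) ^ (I - 1 - i)) +
          Real.sqrt (N / V) * Real.sqrt ((1 / 2 : ℝ) ^ i)) := by
    intro i hi
    rw [mem_range] at hi
    rw [← TyC_sqrt_cube (by positivity), ← Real.sqrt_mul hNV, ← Real.sqrt_mul hNV]
    have e1 := TyC_be_le (V := V) (Y := N / (2 ^ i * V)) hV
    have e2 : ((2 ^ i * V : ℕ) : ℝ) ≤ N / V * (1 / 2) ^ (I - 1 - i) := by
      have h3 := hI (I - 1) (by omega)
      have h4 : 2 ^ (I - 1) = 2 ^ i * 2 ^ (I - 1 - i) := by rw [← pow_add]; congr 1; omega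
      rw [h4] at h3
      have h5 : ((2 : ℝ) ^ i * 2 ^ (I - 1 - i) * V * V) ≤ N := by exact_mod_cast h3.le
      rw [one_div, inv_pow, ← div_eq_mul_inv, div_div, le_div_iff₀ (by positivity)]
      push_cast
      calc (2 : ℝ) ^ i * V * (V * 2 ^ (I - 1 - i)) = (2 : ℝ) ^ i * 2 ^ (I - 1 - i) * V * V := by ring
        _ ≤ N := h5
    have e3 : ((N / (2 ^ i * V) : ℕ) : ℝ) ≤ N / V * (1 / 2) ^ i := by
      refine (Nat.cast_div_le).trans ?_
      rw [one_div, inv_pow, ← div_eq_mul_inv, div_div]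
      push_cast
      rw [mul_comm]
    gcongr
  refine (Finset.sum_le_sum h1).trans ?_
  rw [← Finset.mul_sum, Finset.sum_add_distrib, ← Finset.mul_sum, ← Finset.mul_sum,
    Finset.sum_range_reflect (fun j => Real.sqrt ((1 / 2 : ℝ) ^ j)) I]
  have h2 := TyC_geom I
  have h3 := Real.sqrt_nonneg ((N : ℝ) / V)
  gcongr
  nlinarith only [h2, h3]

theorem type2_total (N k V Q D nl : ℕ) (hV : 8 ≤ V) (hVN : V ^ 2 < N) (hQ : 1 ≤ Q)
    (h1 : D ≤ 2 ^ nl * Q) (h2 : 2 ^ nl * Q ≤ 2 * D) :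
    ∑ r ∈ Ioc Q D, (1 / (r.totient : ℝ)) * ∑ χ ∈ Pch r,
      ‖∑ m ∈ Ioc V N, ((ArithmeticFunction.vonMangoldt m : ℝ) : ℂ) *
        ∑ n ∈ Ioc V (N / m), ((cV V n : ℝ) : ℂ) *
        (χ ((m * n : ℕ) : ZMod r) * ((W N k (m * n) : ℝ) : ℂ))‖
      ≤ 0.3253 * (1 + Real.log 2 / Real.log N) ^ k * Real.sqrt (Real.log N * N) *
        ((2 * Real.pi * Real.sqrt N / Q + 8 * D) *
          (Real.log N / Real.log 2 * Real.sqrt (Real.log V + 2)
            + (Real.log V / Real.log 2 + 1) * ((2 * Real.log V + 1) * Real.sqrt (2 * Real.log V + 1)))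
        + 24.3 * nl * ((2 * Real.log V + 1) * Real.sqrt (2 * Real.log V + 1)) * Real.sqrt (N / V)) := by
  have hN2 : 2 ≤ N := by nlinarith only [hV, hVN]
  have hN1r : (1 : ℝ) ≤ N := by exact_mod_cast (by omega : 1 ≤ N)
  have hL0 : 0 ≤ Real.log N := Real.log_natCast_nonneg N
  have hv : 0 ≤ Real.log V := Real.log_natCast_nonneg V
  -- the number of blocks
  have hex : ∃ I : ℕ, N ≤ 2 ^ I * V * V := by
    refine ⟨N, ?_⟩
    have h3 : N ≤ 2 ^ N := Nat.lt_two_pow_self.le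
    have h4 : 2 ^ N * 1 ≤ 2 ^ N * (V * V) := Nat.mul_le_mul_left _ (by nlinarith only [hV])
    rw [mul_assoc]
    omega
  classical
  obtain ⟨I, hI1, hI⟩ : ∃ I : ℕ, N ≤ 2 ^ I * V * V ∧ ∀ i < I, 2 ^ i * V * V < N :=
    ⟨Nat.find hex, Nat.find_spec hex, fun i hi => by
      have := Nat.find_min hex hi
      push Not at this
      exact this⟩
  -- the block decomposition
  have hdec : ∀ r, ∀ χ : DirichletCharacter ℂ r,
      ‖∑ m ∈ Ioc V N, ((ArithmeticFunction.vonMangoldt m : ℝ) : ℂ) *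
        ∑ n ∈ Ioc V (N / m), ((cV V n : ℝ) : ℂ) *
        (χ ((m * n : ℕ) : ZMod r) * ((W N k (m * n) : ℝ) : ℂ))‖ ≤
      ∑ i ∈ range I, ‖∑ m ∈ Ioc (2 ^ i * V) (2 * (2 ^ i * V)),
        ((ArithmeticFunction.vonMangoldt m : ℝ) : ℂ) *
        ∑ n ∈ Ioc V (N / m), ((cV V n : ℝ) : ℂ) *
        (χ ((m * n : ℕ) : ZMod r) * ((W N k (m * n) : ℝ) : ℂ))‖ := by
    intro r χ
    rw [TyC_split N V I (fun m => ((ArithmeticFunction.vonMangoldt m : ℝ) : ℂ) *
        ∑ n ∈ Ioc V (N / m), ((cV V n : ℝ) : ℂ) *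
        (χ ((m * n : ℕ) : ZMod r) * ((W N k (m * n) : ℝ) : ℂ)))]
    · exact norm_sum_le _ _
    · intro m hm
      rw [Nat.div_eq_of_lt hm]
      simp
    · intro m hm
      have h3 : N / m ≤ V := by
        rw [Nat.div_le_iff_le_mul_add_pred (by omega)]
        have : 2 ^ I * V * V ≤ m * V := Nat.mul_le_mul_right _ hm.le
        omega
      rw [Finset.Ioc_eq_empty (by omega)]
      simp
  have hstep1 : ∑ r ∈ Ioc Q D, (1 / (r.totient : ℝ)) * ∑ χ ∈ Pch r,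
      ‖∑ m ∈ Ioc V N, ((ArithmeticFunction.vonMangoldt m : ℝ) : ℂ) *
        ∑ n ∈ Ioc V (N / m), ((cV V n : ℝ) : ℂ) *
        (χ ((m * n : ℕ) : ZMod r) * ((W N k (m * n) : ℝ) : ℂ))‖ ≤
      ∑ i ∈ range I, ∑ r ∈ Ioc Q D, (1 / (r.totient : ℝ)) * ∑ χ ∈ Pch r,
        ‖∑ m ∈ Ioc (2 ^ i * V) (2 * (2 ^ i * V)), ((ArithmeticFunction.vonMangoldt m : ℝ) : ℂ) *
        ∑ n ∈ Ioc V (N / m), ((cV V n : ℝ) : ℂ) *
        (χ ((m * n : ℕ) : ZMod r) * ((W N k (m * n) : ℝ) : ℂ))‖ := by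
    rw [Finset.sum_comm]
    apply Finset.sum_le_sum
    intro r _
    rw [← Finset.mul_sum, Finset.sum_comm]
    apply mul_le_mul_of_nonneg_left _ (by positivity)
    apply Finset.sum_le_sum
    intro χ _
    exact hdec r χ
  refine hstep1.trans ?_
  set c : ℝ := (1 + Real.log 2 / Real.log N) ^ k with hc
  have hc0 : 0 ≤ c := by
    have : 0 ≤ Real.log 2 / Real.log N := div_nonneg (Real.log_nonneg (by norm_num)) hL0
    positivity
  set E : ℝ := 2 * Real.pi * Real.sqrt N / Q + 8 * D with hE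
  have hE0 : 0 ≤ E := by positivity
  set G : ℝ := Real.sqrt (Real.log N * N) with hG
  have hG0 : 0 ≤ G := Real.sqrt_nonneg _
  -- one block
  have hblock : ∀ i ∈ range I, ∑ r ∈ Ioc Q D, (1 / (r.totient : ℝ)) * ∑ χ ∈ Pch r,
        ‖∑ m ∈ Ioc (2 ^ i * V) (2 * (2 ^ i * V)), ((ArithmeticFunction.vonMangoldt m : ℝ) : ℂ) *
        ∑ n ∈ Ioc V (N / m), ((cV V n : ℝ) : ℂ) *
        (χ ((m * n : ℕ) : ZMod r) * ((W N k (m * n) : ℝ) : ℂ))‖ ≤
      0.3253 * c * G * (E * Real.sqrt (TyC_be V (N / (2 ^ i * V))) +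
        2 * Real.sqrt Real.pi * nl * (Real.sqrt (TyC_be V (N / (2 ^ i * V))) *
          (Real.sqrt ((2 ^ i * V : ℕ) : ℝ) + Real.sqrt ((N / (2 ^ i * V) : ℕ) : ℝ)))) := by
    intro i hi
    rw [mem_range] at hi
    have hiN := hI i hi
    set M := 2 ^ i * V with hM
    set Y := N / M with hY
    have hM1 : 1 ≤ M := by
      have : 1 ≤ 2 ^ i := Nat.one_le_two_pow
      nlinarith only [hV, hM, this]
    have hY1 : 1 ≤ Y := by
      rw [hY, Nat.one_le_div_iff (by omega)]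
      have : M * 1 ≤ M * V := Nat.mul_le_mul_left _ (by omega)
      omega
    have h2M : 2 * M ≤ N := by
      have : M * 2 ≤ M * V := Nat.mul_le_mul_left _ (by omega)
      omega
    have hMY : M * Y ≤ N := Nat.mul_div_le N M
    refine (type2_block N k M V Q D nl hN2 hM1 hQ h1 h2
      (fun m => ArithmeticFunction.vonMangoldt m) (fun n => cV V n)).trans ?_
    have hA : ∑ m ∈ Ioc M (2 * M), (ArithmeticFunction.vonMangoldt m) ^ 2 ≤ 2.2 * M * Real.log N := by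
      refine (Lam_sq M hM1).trans ?_
      have hM1r : (1 : ℝ) ≤ M := by exact_mod_cast hM1
      have : Real.log (2 * M) ≤ Real.log N :=
        Real.log_le_log (by positivity) (by exact_mod_cast h2M)
      gcongr
    have hB := TyC_cV V Y (by omega) hY1
    have hbe0 : 0 ≤ TyC_be V Y := by
      unfold TyC_be
      split_ifs <;> positivity
    have hprod : Real.sqrt (∑ m ∈ Ioc M (2 * M), (ArithmeticFunction.vonMangoldt m) ^ 2) *
        Real.sqrt (∑ n ∈ Ioc V Y, (cV V n) ^ 2) ≤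
        Real.sqrt 2.2 * (G * Real.sqrt (TyC_be V Y)) := by
      calc Real.sqrt (∑ m ∈ Ioc M (2 * M), (ArithmeticFunction.vonMangoldt m) ^ 2) *
            Real.sqrt (∑ n ∈ Ioc V Y, (cV V n) ^ 2)
          ≤ Real.sqrt (2.2 * M * Real.log N) * Real.sqrt (Y * TyC_be V Y) := by
            gcongr
        _ = Real.sqrt (2.2 * ((Real.log N * (M * Y)) * TyC_be V Y)) := by
            rw [← Real.sqrt_mul (by positivity)]
            congr 1
            ring
        _ ≤ Real.sqrt (2.2 * ((Real.log N * N) * TyC_be V Y)) := by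
            have : ((M : ℝ) * Y) ≤ N := by exact_mod_cast hMY
            gcongr
        _ = Real.sqrt 2.2 * (G * Real.sqrt (TyC_be V Y)) := by
            rw [Real.sqrt_mul (by norm_num), Real.sqrt_mul (by positivity)]
    have h22 : 0.2193 * Real.sqrt 2.2 ≤ 0.3253 := by
      have : Real.sqrt 2.2 ≤ 1.48325 := by
        rw [Real.sqrt_le_left (by norm_num)]
        norm_num
      linarith only [this]
    have hT0 : 0 ≤ 2 * Real.pi * Real.sqrt N / Q + 2 * Real.sqrt Real.pi * nl *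
        (Real.sqrt M + Real.sqrt (Y : ℝ)) + 8 * D := by positivity
    calc 0.2193 * c * (2 * Real.pi * Real.sqrt N / Q + 2 * Real.sqrt Real.pi * nl *
          (Real.sqrt M + Real.sqrt (Y : ℝ)) + 8 * D) *
          (Real.sqrt (∑ m ∈ Ioc M (2 * M), (ArithmeticFunction.vonMangoldt m) ^ 2) *
            Real.sqrt (∑ n ∈ Ioc V Y, (cV V n) ^ 2))
        ≤ 0.2193 * c * (2 * Real.pi * Real.sqrt N / Q + 2 * Real.sqrt Real.pi * nl *
          (Real.sqrt M + Real.sqrt (Y : ℝ)) + 8 * D) *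
          (Real.sqrt 2.2 * (G * Real.sqrt (TyC_be V Y))) := by gcongr
      _ = (0.2193 * Real.sqrt 2.2) * (c * G * (E * Real.sqrt (TyC_be V Y) +
          2 * Real.sqrt Real.pi * nl * (Real.sqrt (TyC_be V Y) *
          (Real.sqrt M + Real.sqrt (Y : ℝ))))) := by rw [hE]; ring
      _ ≤ 0.3253 * (c * G * (E * Real.sqrt (TyC_be V Y) +
          2 * Real.sqrt Real.pi * nl * (Real.sqrt (TyC_be V Y) *
          (Real.sqrt M + Real.sqrt (Y : ℝ))))) := by gcongr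
      _ = _ := by ring
  refine (Finset.sum_le_sum hblock).trans ?_
  rw [← Finset.mul_sum, Finset.sum_add_distrib, ← Finset.mul_sum, ← Finset.mul_sum]
  have hs1 := TyC_sum1 hV hI
  have hs2 := TyC_sum2 hV hI
  have hpi : Real.sqrt Real.pi ≤ 1.7725 := by
    rw [Real.sqrt_le_left (by norm_num)]
    have := Real.pi_lt_d4
    norm_num
    linarith only [this]
  have hfin : 2 * Real.sqrt Real.pi * nl * (((2 * Real.log V + 1) * Real.sqrt (2 * Real.log V + 1)) *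
      (6.84 * Real.sqrt (N / V))) ≤ 24.3 * nl * ((2 * Real.log V + 1) *
        Real.sqrt (2 * Real.log V + 1)) * Real.sqrt (N / V) := by
    have h5 : 0 ≤ nl * ((2 * Real.log V + 1) * Real.sqrt (2 * Real.log V + 1)) * Real.sqrt (N / V) := by
      positivity
    nlinarith only [h5, hpi]
  have h6 : 0 ≤ 2 * Real.sqrt Real.pi * nl := by positivity
  have h7 : 0 ≤ 0.3253 * c * G := by positivity
  calc 0.3253 * c * G * (E * ∑ i ∈ range I, Real.sqrt (TyC_be V (N / (2 ^ i * V))) +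
        2 * Real.sqrt Real.pi * nl * ∑ i ∈ range I, Real.sqrt (TyC_be V (N / (2 ^ i * V))) *
          (Real.sqrt ((2 ^ i * V : ℕ) : ℝ) + Real.sqrt ((N / (2 ^ i * V) : ℕ) : ℝ)))
      ≤ 0.3253 * c * G * (E * (Real.log N / Real.log 2 * Real.sqrt (Real.log V + 2)
            + (Real.log V / Real.log 2 + 1) * ((2 * Real.log V + 1) * Real.sqrt (2 * Real.log V + 1))) +
        2 * Real.sqrt Real.pi * nl * (((2 * Real.log V + 1) * Real.sqrt (2 * Real.log V + 1)) *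
          (6.84 * Real.sqrt (N / V)))) := by gcongr
    _ ≤ _ := by gcongr

end Pool.Agent.H91.PK

end
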