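import Pool.Agent.H94.EH.M05

/-! The parts of this file: H91.EHA.ChC, H91.PK.TyA, H91.PK.LC, H91.EHA.ChE. -/

section

/-!
# Large conductors in mean square

`mult_ls` (PK/LSm.lean) on dyadic ranges `c ∈ (2^i D, 2^{i+1} D]`: `1/φ(c) ≤ (1/(2^i D)) c/φ(c)`,
`∑_{n≤N} (Λ(n) om(n/N))² ≤ N (log N)²`.  Sum over `i` with `2^i D ≤ 2Q`:
`∑_i (1/(2^i D))((2^{i+1}D)² + πN) ≤ 16 Q·... + 2πN/D`.
-/

set_option autoImplicit false

namespace Pool.Agent.H91.EHA

open Finset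
open Pool.Agent.H91.PK

private theorem chC_om (t : ℝ) : 0 ≤ om t ∧ om t ≤ 1 := by
  unfold om
  split_ifs with h
  · obtain ⟨h0, h1⟩ := h
    have h2 : (1 - t) ^ 2 ≤ 1 := by nlinarith
    refine ⟨by positivity, ?_⟩
    calc t * (1 - t) ^ 2 ≤ 1 * 1 := mul_le_mul h1 h2 (by positivity) (by norm_num)
      _ = 1 := by norm_num
  · exact ⟨le_refl 0, by norm_num⟩

/-- Partial summation. -/
private theorem chC_abel (u : ℕ → ℝ) (B P : ℝ) (hB : 0 ≤ B) (hP : 0 ≤ P) (D : ℕ)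
    (hu : ∀ M, D ≤ M → ∑ c ∈ Ioc D M, u c ≤ ((M : ℝ) ^ 2 + P) * B) (M : ℕ) (hM : D ≤ M) :
    ∑ c ∈ Ioc D M, u c / c ≤ (∑ c ∈ Ioc D M, u c) / (M + 1) + B * (M - D) +
      P * B * (1 / (D + 1) - 1 / (M + 1)) := by
  induction M, hM using Nat.le_induction with
  | base => simp
  | succ M hM ih =>
    rw [Finset.sum_Ioc_succ_top (by omega), Finset.sum_Ioc_succ_top (by omega)]
    have h1 := hu (M + 1) (by omega)
    rw [Finset.sum_Ioc_succ_top (by omega)] at h1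
    set G := ∑ c ∈ Ioc D M, u c with hG
    push_cast at h1 ⊢
    have hM1 : (0 : ℝ) < (M : ℝ) + 1 := by positivity
    have hM2 : (0 : ℝ) < (M : ℝ) + 1 + 1 := by positivity
    have e1 : G / (M + 1) + u (M + 1) / (M + 1) =
        (G + u (M + 1)) / (M + 1 + 1) + (G + u (M + 1)) / ((M + 1) * (M + 1 + 1)) := by
      field_simp
    have e2 : (G + u (M + 1)) / (((M : ℝ) + 1) * (M + 1 + 1)) ≤
        B + P * B * (1 / (M + 1) - 1 / (M + 1 + 1)) := by
      rw [div_le_iff₀ (by positivity)]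
      have e3 : (B + P * B * (1 / ((M : ℝ) + 1) - 1 / (M + 1 + 1))) *
          ((M + 1) * (M + 1 + 1)) = B * ((M + 1) * (M + 1 + 1)) + P * B := by
        field_simp
        ring
      rw [e3]
      have e4 : B * ((M : ℝ) + 1) ^ 2 ≤ B * ((M + 1) * (M + 1 + 1)) := by
        apply mul_le_mul_of_nonneg_left _ hB
        nlinarith only []
      nlinarith only [h1, e4]
    have e5 : P * B * (1 / ((D : ℝ) + 1) - 1 / (M + 1 + 1)) =
        P * B * (1 / (D + 1) - 1 / (M + 1)) + P * B * (1 / (M + 1) - 1 / (M + 1 + 1)) := by ring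
    rw [e5]
    linarith

theorem large_msq : ∃ C : ℝ, 0 < C ∧ ∀ N Q D : ℕ, 1 ≤ N → 1 ≤ Q → 1 ≤ D →
    ∑ c ∈ Ioc D (2 * Q), (1 / (c.totient : ℝ)) * ∑ ψ ∈ Pch c,
        ‖TT N 0 (fun n => ψ (n : ZMod c))‖ ^ 2
      ≤ C * ((N : ℝ) / D + Q) * N * (1 + Real.log N) ^ 2 := by
  refine ⟨8, by norm_num, ?_⟩
  intro N Q D hN hQ hD
  have hN' : (1 : ℝ) ≤ N := by exact_mod_cast hN
  have hD' : (1 : ℝ) ≤ D := by exact_mod_cast hD
  have hlog : 0 ≤ Real.log N := Real.log_nonneg hN'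
  set a : ℕ → ℂ := fun n =>
    (((ArithmeticFunction.vonMangoldt n * om ((n : ℝ) / N) : ℝ)) : ℂ) with ha
  have hT : ∀ c : ℕ, ∀ ψ : DirichletCharacter ℂ c, TT N 0 (fun n => ψ (n : ZMod c)) =
      ∑ n ∈ Ioc 0 (0 + N), a n * ψ (n : ZMod c) := by
    intro c ψ
    unfold TT
    have hI : Icc 1 N = Ioc 0 (0 + N) := by
      ext n
      simp only [Finset.mem_Icc, Finset.mem_Ioc]
      omega
    rw [hI]
    refine Finset.sum_congr rfl fun n _ => ?_
    simp only [W, ha, pow_zero, mul_one]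
    push_cast
    ring
  set B : ℝ := ∑ n ∈ Ioc 0 (0 + N), ‖a n‖ ^ 2 with hBd
  have hB0 : 0 ≤ B := Finset.sum_nonneg fun n _ => by positivity
  have hB1 : B ≤ N * (1 + Real.log N) ^ 2 := by
    have h1 : ∀ n ∈ Ioc 0 (0 + N), ‖a n‖ ^ 2 ≤ (1 + Real.log N) ^ 2 := by
      intro n hn
      rw [Finset.mem_Ioc] at hn
      have hn1 : (1 : ℝ) ≤ n := by exact_mod_cast hn.1
      have hn2 : (n : ℝ) ≤ N := by
        have : n ≤ N := by omega
        exact_mod_cast this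
      have h2 : ArithmeticFunction.vonMangoldt n ≤ Real.log N :=
        ArithmeticFunction.vonMangoldt_le_log.trans (Real.log_le_log (by linarith) hn2)
      have h3 : 0 ≤ ArithmeticFunction.vonMangoldt n := ArithmeticFunction.vonMangoldt_nonneg
      have h4 := chC_om ((n : ℝ) / N)
      have h5 : ‖a n‖ = ArithmeticFunction.vonMangoldt n * om ((n : ℝ) / N) := by
        simp only [ha]
        rw [Complex.norm_real, Real.norm_of_nonneg (mul_nonneg h3 h4.1)]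
      have h6 : ‖a n‖ ≤ 1 + Real.log N := by
        rw [h5]
        calc ArithmeticFunction.vonMangoldt n * om ((n : ℝ) / N)
            ≤ Real.log N * 1 := mul_le_mul h2 h4.2 h4.1 hlog
          _ ≤ 1 + Real.log N := by linarith
      exact pow_le_pow_left₀ (norm_nonneg _) h6 2
    calc B ≤ ∑ n ∈ Ioc 0 (0 + N), (1 + Real.log N) ^ 2 := Finset.sum_le_sum h1
      _ = N * (1 + Real.log N) ^ 2 := by
        rw [Finset.sum_const, nsmul_eq_mul, Nat.card_Ioc]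
        simp
  set g : ℕ → ℝ := fun c => ∑ ψ ∈ Pch c, ‖TT N 0 (fun n => ψ (n : ZMod c))‖ ^ 2 with hg
  have hg0 : ∀ c, 0 ≤ g c := fun c => Finset.sum_nonneg fun ψ _ => by positivity
  set u : ℕ → ℝ := fun c => ((c : ℝ) / c.totient) * g c with hu
  have hu0 : ∀ c, 0 ≤ u c := fun c => mul_nonneg (by positivity) (hg0 c)
  have hS : ∀ M, ∑ c ∈ Icc 1 M, u c ≤ ((M : ℝ) ^ 2 + Real.pi * N) * B := by
    intro M
    have h1 := mult_ls M 0 N a
    simp only [hu, hg, hT]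
    exact h1
  have hS' : ∀ M, D ≤ M → ∑ c ∈ Ioc D M, u c ≤ ((M : ℝ) ^ 2 + Real.pi * N) * B := by
    intro M _
    refine (Finset.sum_le_sum_of_subset_of_nonneg ?_ fun c _ _ => hu0 c).trans (hS M)
    intro c hc
    rw [Finset.mem_Ioc] at hc
    rw [Finset.mem_Icc]
    omega
  have hterm : ∀ c ∈ Ioc D (2 * Q), (1 / (c.totient : ℝ)) * g c = u c / c := by
    intro c hc
    rw [Finset.mem_Ioc] at hc
    have hc0 : (c : ℝ) ≠ 0 := by
      have : c ≠ 0 := by omega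
      exact_mod_cast this
    have hφ : (c.totient : ℝ) ≠ 0 := by
      have : 0 < c.totient := Nat.totient_pos.2 (by omega)
      positivity
    simp only [hu]
    field_simp
  rw [Finset.sum_congr rfl hterm]
  have hpi := Real.pi_pos
  have hpi4 := Real.pi_le_four
  have hR0 : 0 ≤ 8 * ((N : ℝ) / D + Q) * N * (1 + Real.log N) ^ 2 := by positivity
  by_cases hDQ : D ≤ 2 * Q
  · have h1 := chC_abel u B (Real.pi * N) hB0 (by positivity) D hS' (2 * Q) hDQ
    have h2 := hS' (2 * Q) hDQ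
    push_cast at h1 h2
    have hM1 : (0 : ℝ) < 2 * (Q : ℝ) + 1 := by positivity
    have hDQ' : (D : ℝ) ≤ 2 * Q := by exact_mod_cast hDQ
    have h3 : (∑ c ∈ Ioc D (2 * Q), u c) / (2 * (Q : ℝ) + 1) ≤
        2 * Q * B + Real.pi * (N / D) * B := by
      rw [div_le_iff₀ hM1]
      have h4 : (N : ℝ) ≤ N / D * (2 * Q + 1) := by
        rw [div_mul_eq_mul_div, le_div_iff₀ (by linarith)]
        nlinarith only [hDQ']
      have h5 : Real.pi * N * B ≤ Real.pi * (N / D * (2 * Q + 1)) * B := by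
        gcongr
      have h6 : (2 * (Q : ℝ)) ^ 2 * B ≤ 2 * Q * B * (2 * Q + 1) := by
        have : 0 ≤ 2 * (Q : ℝ) * B := by positivity
        nlinarith only [this]
      nlinarith only [h2, h5, h6]
    have h7 : B * (2 * (Q : ℝ) - D) ≤ 2 * Q * B := by nlinarith only [hB0]
    have h8 : Real.pi * N * B * (1 / ((D : ℝ) + 1) - 1 / (2 * Q + 1)) ≤
        Real.pi * (N / D) * B := by
      have h9 : 1 / ((D : ℝ) + 1) - 1 / (2 * Q + 1) ≤ 1 / D := by
        have h10 : 1 / ((D : ℝ) + 1) ≤ 1 / D := one_div_le_one_div_of_le (by linarith) (by linarith)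
        have h11 : 0 ≤ 1 / (2 * (Q : ℝ) + 1) := by positivity
        linarith
      calc Real.pi * N * B * (1 / ((D : ℝ) + 1) - 1 / (2 * Q + 1))
          ≤ Real.pi * N * B * (1 / D) := mul_le_mul_of_nonneg_left h9 (by positivity)
        _ = Real.pi * (N / D) * B := by ring
    have h12 : Real.pi * ((N : ℝ) / D) * B ≤ 4 * (N / D) * B := by
      gcongr
    have h13 : ∑ c ∈ Ioc D (2 * Q), u c / c ≤ 8 * ((N : ℝ) / D + Q) * B := by
      have h14 : 8 * ((N : ℝ) / D + Q) * B = 8 * (N / D) * B + 8 * (Q * B) := by ring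
      have h15 : 0 ≤ (Q : ℝ) * B := by positivity
      rw [h14]
      linarith
    refine h13.trans ?_
    have h16 : 0 ≤ 8 * ((N : ℝ) / D + Q) := by positivity
    calc 8 * ((N : ℝ) / D + Q) * B ≤ 8 * ((N : ℝ) / D + Q) * (N * (1 + Real.log N) ^ 2) :=
          mul_le_mul_of_nonneg_left hB1 h16
      _ = 8 * ((N : ℝ) / D + Q) * N * (1 + Real.log N) ^ 2 := by ring
  · rw [Finset.Ioc_eq_empty (by omega), Finset.sum_empty]
    exact hR0

end Pool.Agent.H91.EHA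

end

section

/-!
PK TyA: type I sums (trivial bound for character sums + summation by parts).

* `char_partial`: for χ ≠ 1 mod r the sum over a full period vanishes (`MulChar.sum_eq_zero_of_ne_one`), so a partial
  sum over [1,B] equals a sum of fewer than r terms of modulus ≤ 1.
* `type1_inner`: let B = N/a (floor), A(b) = om(ab/N), C(b) = (log b)^ε (log(ab)/log N)^k, h = A C, F(b) = ∑_{j ≤ b} f j.
  ∑_{b≤B} f(b)h(b) = F(B)h(B) + ∑_{b<B} F(b)(h(b)-h(b+1)), so the modulus is ≤ ρ (|h(B)| + ∑_{b<B} |h(b)-h(b+1)|).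
  C is nonnegative, nondecreasing on 1..B and ≤ (log N)^ε (as ab ≤ N).
  |h(b)-h(b+1)| ≤ |A(b)-A(b+1)| C(b) + A(b+1)(C(b+1)-C(b)) ≤ (a/N)(log N)^ε + (4/27)(C(b+1)-C(b)),
  |h(B)| = A(B) C(B) and A(B) = |om(aB/N) - om(1)| ≤ 1 - aB/N.
  Sum ≤ (log N)^ε ((B-1) a/N + 1 - aB/N + 4/27) ≤ 1.15 (log N)^ε.   (If B = 0 the sum is empty.)
* `type1_total`: g(n) = χ(n) W(n), χ(ab) = χ(a)χ(b), |χ(a)| ≤ 1, |μ(a)| ≤ 1, |nuV(a)| ≤ log a ≤ log N for a ≤ N
  (for a > N the inner sum is empty).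
* `type0`: |∑_{n ≤ min U N} Λ(n) χ(n) W(n)| ≤ ∑_{n≤U} Λ(n) n/N ≤ (U/N) ψ(U) ≤ 1.1 U²/N
  (om t ≤ t; ψ(U) ≤ log 3 · U: `Pool.Agent.H91.Gold.psi_le_log_three` or Mathlib's `Chebyshev.psi_le_const_mul_self`;
   the constant 2 is enough here, so Mathlib's bound with log 4 + 4·… may be too weak: use the H91 one
   (import Pool.Agent.H91.GoldMertens2) if you like).
-/

set_option autoImplicit false

namespace Pool.Agent.H91.PK

open Finset

/-! ### Character sums over a full period -/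

theorem tyA_period {r : ℕ} (hr : 0 < r) (χ : DirichletCharacter ℂ r) (hχ : χ ≠ 1) (B : ℕ) :
    ∑ b ∈ Ico B (B + r), χ (b : ZMod r) = 0 := by
  have : NeZero r := ⟨hr.ne'⟩
  induction B with
  | zero =>
    obtain ⟨n, rfl⟩ : ∃ n, r = n + 1 := ⟨r - 1, by omega⟩
    have h1 : ∑ x : ZMod (n + 1), χ x = 0 := MulChar.sum_eq_zero_of_ne_one hχ
    have h2 : ∑ b ∈ range (n + 1), χ ((b : ℕ) : ZMod (n + 1)) = ∑ x : Fin (n + 1), χ (((x : ℕ) : ZMod (n + 1))) :=
      Finset.sum_range (fun b : ℕ => χ (b : ZMod (n + 1)))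
    have h3 : ∑ x : Fin (n + 1), χ (((x : ℕ) : ZMod (n + 1))) = ∑ x : ZMod (n + 1), χ x := by
      apply Finset.sum_congr rfl
      intro x _
      congr 1
      exact Fin.cast_val_eq_self x
    have h4 : Ico 0 (0 + (n + 1)) = range (n + 1) := by
      rw [zero_add, Finset.range_eq_Ico]
    rw [h4, h2, h3, h1]
  | succ B ih =>
    have h1 : ∑ b ∈ Ico B (B + r + 1), χ (b : ZMod r)
        = ∑ b ∈ Ico B (B + r), χ (b : ZMod r) + χ ((B + r : ℕ) : ZMod r) :=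
      Finset.sum_Ico_succ_top (by omega) _
    have h2 : ∑ b ∈ Ico B (B + r + 1), χ (b : ZMod r)
        = χ (B : ZMod r) + ∑ b ∈ Ico (B + 1) (B + r + 1), χ (b : ZMod r) :=
      Finset.sum_eq_sum_Ico_succ_bot (by omega) _
    have h3 : ((B + r : ℕ) : ZMod r) = (B : ZMod r) := by
      push_cast
      simp
    rw [h3, ih] at h1
    rw [h1] at h2
    have h4 : B + 1 + r = B + r + 1 := by omega
    rw [h4]
    have h5 : (0 : ℂ) + χ (B : ZMod r) = χ (B : ZMod r) + 0 := by ring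
    rw [h5] at h2
    exact (add_left_cancel h2).symm

theorem tyA_norm_le {r : ℕ} (χ : DirichletCharacter ℂ r) (b : ℕ) : ‖χ (b : ZMod r)‖ ≤ 1 :=
  DirichletCharacter.norm_le_one χ _

theorem char_partial {r : ℕ} (hr : 0 < r) (χ : DirichletCharacter ℂ r) (hχ : χ ≠ 1) (B : ℕ) :
    ‖∑ b ∈ Icc 1 B, χ (b : ZMod r)‖ ≤ r := by
  induction B using Nat.strong_induction_on with
  | _ B ih =>
    by_cases hB : B < r
    · calc ‖∑ b ∈ Icc 1 B, χ (b : ZMod r)‖ ≤ ∑ b ∈ Icc 1 B, ‖χ (b : ZMod r)‖ := norm_sum_le _ _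
        _ ≤ ∑ b ∈ Icc 1 B, (1 : ℝ) := Finset.sum_le_sum fun b _ => tyA_norm_le χ b
        _ = B := by simp
        _ ≤ r := by exact_mod_cast hB.le
    · push Not at hB
      have h1 := ih (B - r) (by omega)
      have h2 : ∑ b ∈ Icc 1 B, χ (b : ZMod r) = ∑ b ∈ Icc 1 (B - r), χ (b : ZMod r)
          + ∑ b ∈ Ico (B - r + 1) (B - r + 1 + r), χ (b : ZMod r) := by
        have e1 : Icc 1 B = Ico 1 (B + 1) := by ext x; rw [mem_Icc, mem_Ico]; omega
        have e2 : Icc 1 (B - r) = Ico 1 (B - r + 1) := by ext x; rw [mem_Icc, mem_Ico]; omega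
        have e3 : B - r + 1 + r = B + 1 := by omega
        rw [e1, e2, e3]
        exact (Finset.sum_Ico_consecutive _ (by omega) (by omega)).symm
      rw [h2, tyA_period hr χ hχ, add_zero]
      exact h1

/-! ### Summation by parts -/

theorem tyA_abel_eq (B : ℕ) (f : ℕ → ℂ) (h : ℕ → ℝ) :
    ∑ b ∈ Icc 1 B, f b * ((h b : ℝ) : ℂ)
      = (∑ b ∈ Icc 1 B, f b) * ((h B : ℝ) : ℂ)
        + ∑ b ∈ Ico 1 B, (∑ j ∈ Icc 1 b, f j) * ((h b - h (b + 1) : ℝ) : ℂ) := by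
  induction B with
  | zero => simp
  | succ B ih =>
    rw [Finset.sum_Icc_succ_top (by omega), Finset.sum_Icc_succ_top (by omega), ih]
    rcases Nat.eq_zero_or_pos B with hB | hB
    · subst hB
      simp
    · rw [Finset.sum_Ico_succ_top hB]
      push_cast
      ring

theorem tyA_abel (B : ℕ) (f : ℕ → ℂ) (ρ : ℝ) (hf : ∀ B : ℕ, ‖∑ b ∈ Icc 1 B, f b‖ ≤ ρ) (h : ℕ → ℝ) :
    ‖∑ b ∈ Icc 1 B, f b * ((h b : ℝ) : ℂ)‖ ≤ ρ * (|h B| + ∑ b ∈ Ico 1 B, |h b - h (b + 1)|) := by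
  rw [tyA_abel_eq]
  have h1 : ‖(∑ b ∈ Icc 1 B, f b) * ((h B : ℝ) : ℂ)‖ ≤ ρ * |h B| := by
    rw [norm_mul, Complex.norm_real, Real.norm_eq_abs]
    exact mul_le_mul_of_nonneg_right (hf B) (abs_nonneg _)
  have h2 : ‖∑ b ∈ Ico 1 B, (∑ j ∈ Icc 1 b, f j) * ((h b - h (b + 1) : ℝ) : ℂ)‖
      ≤ ∑ b ∈ Ico 1 B, ρ * |h b - h (b + 1)| := by
    refine (norm_sum_le _ _).trans (Finset.sum_le_sum fun b _ => ?_)
    rw [norm_mul, Complex.norm_real, Real.norm_eq_abs]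
    exact mul_le_mul_of_nonneg_right (hf b) (abs_nonneg _)
  calc _ ≤ _ := norm_add_le _ _
    _ ≤ ρ * |h B| + ∑ b ∈ Ico 1 B, ρ * |h b - h (b + 1)| := add_le_add h1 h2
    _ = _ := by rw [← Finset.mul_sum]; ring

/-- Abstract form of the type I bound. -/
theorem tyA_core (B : ℕ) (f : ℕ → ℂ) (ρ K δ : ℝ) (hf : ∀ B : ℕ, ‖∑ b ∈ Icc 1 B, f b‖ ≤ ρ)
    (A C : ℕ → ℝ) (hA0 : ∀ b, 0 ≤ A b) (hA1 : ∀ b, A b ≤ 4 / 27) (hδ : 0 ≤ δ)
    (hA2 : ∀ b, |A b - A (b + 1)| ≤ δ) (hA3 : A B ≤ 1 - B * δ)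
    (hC0 : ∀ b, 1 ≤ b → 0 ≤ C b) (hC1 : ∀ b, 1 ≤ b → b < B → C b ≤ C (b + 1))
    (hC2 : ∀ b, 1 ≤ b → b ≤ B → C b ≤ K) (hK : 0 ≤ K) :
    ‖∑ b ∈ Icc 1 B, f b * ((A b * C b : ℝ) : ℂ)‖ ≤ 1.15 * ρ * K := by
  have hρ : 0 ≤ ρ := le_trans (norm_nonneg _) (hf 0)
  rcases Nat.eq_zero_or_pos B with hB | hB
  · subst hB
    simp only [Nat.lt_one_iff, pos_of_gt, Finset.Icc_eq_empty_of_lt, Finset.sum_empty, norm_zero]
    positivity
  refine (tyA_abel B f ρ hf (fun b => A b * C b)).trans ?_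
  have h1 : |A B * C B| ≤ (1 - B * δ) * K := by
    rw [abs_of_nonneg (mul_nonneg (hA0 B) (hC0 B hB))]
    exact mul_le_mul hA3 (hC2 B hB le_rfl) (hC0 B hB) (le_trans (hA0 B) hA3)
  have h2 : ∀ b ∈ Ico 1 B, |A b * C b - A (b + 1) * C (b + 1)| ≤ δ * K + 4 / 27 * (C (b + 1) - C b) := by
    intro b hb
    rw [Finset.mem_Ico] at hb
    have e1 : A b * C b - A (b + 1) * C (b + 1) = (A b - A (b + 1)) * C b - A (b + 1) * (C (b + 1) - C b) := by ring
    rw [e1]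
    have e2 : |(A b - A (b + 1)) * C b| ≤ δ * K := by
      rw [abs_mul, abs_of_nonneg (hC0 b hb.1)]
      exact mul_le_mul (hA2 b) (hC2 b hb.1 hb.2.le) (hC0 b hb.1) hδ
    have e3 : |A (b + 1) * (C (b + 1) - C b)| ≤ 4 / 27 * (C (b + 1) - C b) := by
      have h3 : 0 ≤ C (b + 1) - C b := by linarith [hC1 b hb.1 hb.2]
      rw [abs_mul, abs_of_nonneg (hA0 _), abs_of_nonneg h3]
      exact mul_le_mul_of_nonneg_right (hA1 _) h3
    calc _ ≤ _ := abs_sub _ _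
      _ ≤ _ := add_le_add e2 e3
  have h3 : ∑ b ∈ Ico 1 B, |A b * C b - A (b + 1) * C (b + 1)| ≤ (B - 1) * (δ * K) + 4 / 27 * (C B - C 1) := by
    refine (Finset.sum_le_sum h2).trans ?_
    have e1 : ∑ b ∈ Ico 1 B, (C (b + 1) - C b) = C B - C 1 := Finset.sum_Ico_sub C hB
    rw [Finset.sum_add_distrib, ← Finset.mul_sum (Ico 1 B) (fun b => C (b + 1) - C b), e1]
    have e2 : ∑ _b ∈ Ico 1 B, δ * K = (B - 1) * (δ * K) := by
      rw [Finset.sum_const, Nat.card_Ico, nsmul_eq_mul, Nat.cast_sub hB]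
      simp
    rw [e2]
  have h4 : |A B * C B| + ∑ b ∈ Ico 1 B, |A b * C b - A (b + 1) * C (b + 1)| ≤ 1.15 * K := by
    have h5 : C B ≤ K := hC2 B hB le_rfl
    have h6 : 0 ≤ C 1 := hC0 1 le_rfl
    have h7 : 0 ≤ δ * K := mul_nonneg hδ hK
    calc _ ≤ (1 - B * δ) * K + ((B - 1) * (δ * K) + 4 / 27 * (C B - C 1)) := add_le_add h1 h3
      _ = K - δ * K + 4 / 27 * (C B - C 1) := by ring
      _ ≤ K + 4 / 27 * K := by linarith
      _ ≤ 1.15 * K := by linarith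
  calc _ ≤ ρ * (1.15 * K) := mul_le_mul_of_nonneg_left h4 hρ
    _ = _ := by ring

/-! ### Estimates for the weight -/

theorem tyA_facts {N a : ℕ} (hN : 2 ≤ N) (ha : 1 ≤ a) :
    (∀ b : ℕ, |om (((a * b : ℕ) : ℝ) / N) - om (((a * (b + 1) : ℕ) : ℝ) / N)| ≤ (a : ℝ) / N) ∧
    om (((a * (N / a) : ℕ) : ℝ) / N) ≤ 1 - ((N / a : ℕ) : ℝ) * ((a : ℝ) / N) := by
  have hN0 : (0 : ℝ) < N := by exact_mod_cast (by omega : 0 < N)
  constructor
  · intro b
    refine (om_lip _ _).trans ?_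
    have e1 : (((a * b : ℕ) : ℝ) / N) - (((a * (b + 1) : ℕ) : ℝ) / N) = -((a : ℝ) / N) := by
      push_cast
      field_simp
      ring
    rw [e1, abs_neg, abs_of_nonneg (by positivity)]
  · have h1 := om_lip (((a * (N / a) : ℕ) : ℝ) / N) 1
    rw [om_eq_zero (le_refl (1 : ℝ)), sub_zero, abs_of_nonneg (om_nonneg _)] at h1
    have h2 : (((a * (N / a) : ℕ) : ℝ) / N) ≤ 1 := by
      rw [div_le_one hN0]
      exact_mod_cast Nat.mul_div_le N a
    rw [abs_of_nonpos (by linarith)] at h1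
    have h3 : (((a * (N / a) : ℕ) : ℝ) / N) = ((N / a : ℕ) : ℝ) * ((a : ℝ) / N) := by
      push_cast
      ring
    rw [h3] at h1 ⊢
    linarith

theorem tyA_log_ratio {N a b : ℕ} (hN : 2 ≤ N) (ha : 1 ≤ a) (hb : 1 ≤ b) :
    0 ≤ Real.log ((a * b : ℕ) : ℝ) / Real.log N ∧
      (b ≤ N / a → Real.log ((a * b : ℕ) : ℝ) / Real.log N ≤ 1) ∧
      Real.log ((a * b : ℕ) : ℝ) / Real.log N ≤ Real.log ((a * (b + 1) : ℕ) : ℝ) / Real.log N := by
  have hL : 0 < Real.log N := Real.log_pos (by exact_mod_cast (by omega : 1 < N))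
  have hab : 1 ≤ a * b := Nat.mul_pos ha hb
  have h1 : (1 : ℝ) ≤ ((a * b : ℕ) : ℝ) := by exact_mod_cast hab
  refine ⟨div_nonneg (Real.log_nonneg h1) hL.le, ?_, ?_⟩
  · intro h
    rw [div_le_one hL]
    apply Real.log_le_log (by linarith)
    have : a * b ≤ N := (Nat.mul_le_mul_left a h).trans (Nat.mul_div_le N a)
    exact_mod_cast this
  · apply div_le_div_of_nonneg_right _ hL.le
    apply Real.log_le_log (by linarith)
    exact_mod_cast Nat.mul_le_mul_left a (Nat.le_succ b)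

theorem type1_inner {N k a : ℕ} {ρ : ℝ} (hN : 2 ≤ N) (ha : 1 ≤ a) (f : ℕ → ℂ)
    (hf : ∀ B : ℕ, ‖∑ b ∈ Icc 1 B, f b‖ ≤ ρ) :
    ‖∑ b ∈ Icc 1 (N / a), f b * ((W N k (a * b) : ℝ) : ℂ)‖ ≤ 1.15 * ρ := by
  obtain ⟨h1, h2⟩ := tyA_facts hN ha
  have h3 := tyA_core (N / a) f ρ 1 ((a : ℝ) / N) hf (fun b => om (((a * b : ℕ) : ℝ) / N))
    (fun b => (Real.log ((a * b : ℕ) : ℝ) / Real.log N) ^ k) (fun b => om_nonneg _) (fun b => om_le _)
    (by positivity) h1 h2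
    (fun b hb => pow_nonneg (tyA_log_ratio hN ha hb).1 k)
    (fun b hb _ => pow_le_pow_left₀ (tyA_log_ratio hN ha hb).1 (tyA_log_ratio hN ha hb).2.2 k)
    (fun b hb hb' => pow_le_one₀ (tyA_log_ratio hN ha hb).1 ((tyA_log_ratio hN ha hb).2.1 hb'))
    zero_le_one
  rw [mul_one] at h3
  exact h3

theorem type1_inner_log {N k a : ℕ} {ρ : ℝ} (hN : 2 ≤ N) (ha : 1 ≤ a) (f : ℕ → ℂ)
    (hf : ∀ B : ℕ, ‖∑ b ∈ Icc 1 B, f b‖ ≤ ρ) :
    ‖∑ b ∈ Icc 1 (N / a), ((Real.log b : ℝ) : ℂ) * (f b * ((W N k (a * b) : ℝ) : ℂ))‖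
      ≤ 1.15 * ρ * Real.log N := by
  obtain ⟨h1, h2⟩ := tyA_facts hN ha
  have hL : 0 ≤ Real.log N := Real.log_nonneg (by exact_mod_cast (by omega : 1 ≤ N))
  have hlog : ∀ b : ℕ, 1 ≤ b → 0 ≤ Real.log b := fun b hb => Real.log_nonneg (by exact_mod_cast hb)
  have h3 := tyA_core (N / a) f ρ (Real.log N) ((a : ℝ) / N) hf (fun b => om (((a * b : ℕ) : ℝ) / N))
    (fun b => Real.log b * (Real.log ((a * b : ℕ) : ℝ) / Real.log N) ^ k) (fun b => om_nonneg _)
    (fun b => om_le _)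
    (by positivity) h1 h2
    (fun b hb => mul_nonneg (hlog b hb) (pow_nonneg (tyA_log_ratio hN ha hb).1 k))
    (fun b hb _ => ?_) (fun b hb hb' => ?_) hL
  · have e1 : ∑ b ∈ Icc 1 (N / a), ((Real.log b : ℝ) : ℂ) * (f b * ((W N k (a * b) : ℝ) : ℂ))
        = ∑ b ∈ Icc 1 (N / a), f b * ((om (((a * b : ℕ) : ℝ) / N) *
            (Real.log b * (Real.log ((a * b : ℕ) : ℝ) / Real.log N) ^ k) : ℝ) : ℂ) := by
      apply Finset.sum_congr rfl
      intro b _
      unfold W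
      push_cast
      ring
    rw [e1]
    exact h3
  · apply mul_le_mul _ (pow_le_pow_left₀ (tyA_log_ratio hN ha hb).1 (tyA_log_ratio hN ha hb).2.2 k)
      (pow_nonneg (tyA_log_ratio hN ha hb).1 k) (hlog _ (by omega))
    apply Real.log_le_log (by exact_mod_cast hb)
    exact_mod_cast Nat.le_succ b
  · have e1 : Real.log b ≤ Real.log N := by
      apply Real.log_le_log (by exact_mod_cast hb)
      exact_mod_cast hb'.trans (Nat.div_le_self N a)
    calc _ ≤ Real.log N * 1 := mul_le_mul e1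
          (pow_le_one₀ (tyA_log_ratio hN ha hb).1 ((tyA_log_ratio hN ha hb).2.1 hb'))
          (pow_nonneg (tyA_log_ratio hN ha hb).1 k) hL
      _ = _ := mul_one _

theorem type1_total {N k U V r : ℕ} (hN : 2 ≤ N) (hr : 0 < r) (χ : DirichletCharacter ℂ r) (hχ : χ ≠ 1) :
    ‖∑ a ∈ Icc 1 V, ((ArithmeticFunction.moebius a : ℝ) : ℂ) *
        ∑ b ∈ Icc 1 (N / a), ((Real.log b : ℝ) : ℂ) * (χ ((a * b : ℕ) : ZMod r) * ((W N k (a * b) : ℝ) : ℂ))‖
    + ‖∑ a ∈ Icc 1 (U * V), ((nuV U V a : ℝ) : ℂ) *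
        ∑ b ∈ Icc 1 (N / a), χ ((a * b : ℕ) : ZMod r) * ((W N k (a * b) : ℝ) : ℂ)‖
    ≤ 1.15 * r * Real.log N * (V + U * V) := by
  have hL : 0 ≤ Real.log N := Real.log_nonneg (by exact_mod_cast (by omega : 1 ≤ N))
  have hr0 : (0 : ℝ) ≤ r := Nat.cast_nonneg r
  have hχm : ∀ a b : ℕ, χ ((a * b : ℕ) : ZMod r) = χ (a : ZMod r) * χ (b : ZMod r) := by
    intro a b
    push_cast
    exact map_mul χ _ _
  have hf := char_partial hr χ hχ
  have h1 : ‖∑ a ∈ Icc 1 V, ((ArithmeticFunction.moebius a : ℝ) : ℂ) *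
        ∑ b ∈ Icc 1 (N / a), ((Real.log b : ℝ) : ℂ) * (χ ((a * b : ℕ) : ZMod r) * ((W N k (a * b) : ℝ) : ℂ))‖
      ≤ ∑ a ∈ Icc 1 V, 1.15 * r * Real.log N := by
    refine (norm_sum_le _ _).trans (Finset.sum_le_sum fun a ha => ?_)
    rw [Finset.mem_Icc] at ha
    have e1 : ∑ b ∈ Icc 1 (N / a), ((Real.log b : ℝ) : ℂ) * (χ ((a * b : ℕ) : ZMod r) * ((W N k (a * b) : ℝ) : ℂ))
        = χ (a : ZMod r) * ∑ b ∈ Icc 1 (N / a), ((Real.log b : ℝ) : ℂ) *
            (χ (b : ZMod r) * ((W N k (a * b) : ℝ) : ℂ)) := by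
      rw [Finset.mul_sum]
      apply Finset.sum_congr rfl
      intro b _
      rw [hχm]
      ring
    rw [e1, norm_mul, norm_mul]
    have e2 := type1_inner_log (k := k) hN ha.1 (fun b => χ (b : ZMod r)) hf
    have e3 : ‖((ArithmeticFunction.moebius a : ℝ) : ℂ)‖ ≤ 1 := by
      rw [Complex.norm_real, Real.norm_eq_abs]
      have := ArithmeticFunction.abs_moebius_le_one (n := a)
      exact_mod_cast this
    calc _ ≤ 1 * (1 * (1.15 * r * Real.log N)) :=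
          mul_le_mul e3 (mul_le_mul (tyA_norm_le χ a) e2 (norm_nonneg _) zero_le_one)
            (mul_nonneg (norm_nonneg _) (norm_nonneg _)) zero_le_one
      _ = _ := by ring
  have h2 : ‖∑ a ∈ Icc 1 (U * V), ((nuV U V a : ℝ) : ℂ) *
        ∑ b ∈ Icc 1 (N / a), χ ((a * b : ℕ) : ZMod r) * ((W N k (a * b) : ℝ) : ℂ)‖
      ≤ ∑ a ∈ Icc 1 (U * V), 1.15 * r * Real.log N := by
    refine (norm_sum_le _ _).trans (Finset.sum_le_sum fun a ha => ?_)
    rw [Finset.mem_Icc] at ha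
    by_cases haN : N < a
    · rw [Nat.div_eq_of_lt haN]
      simp only [Nat.lt_one_iff, pos_of_gt, Finset.Icc_eq_empty_of_lt, Finset.sum_empty, mul_zero,
        norm_zero]
      positivity
    push Not at haN
    have e1 : ∑ b ∈ Icc 1 (N / a), χ ((a * b : ℕ) : ZMod r) * ((W N k (a * b) : ℝ) : ℂ)
        = χ (a : ZMod r) * ∑ b ∈ Icc 1 (N / a), χ (b : ZMod r) * ((W N k (a * b) : ℝ) : ℂ) := by
      rw [Finset.mul_sum]
      apply Finset.sum_congr rfl
      intro b _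
      rw [hχm]
      ring
    rw [e1, norm_mul, norm_mul]
    have e2 := type1_inner (k := k) hN ha.1 (fun b => χ (b : ZMod r)) hf
    have e3 : ‖((nuV U V a : ℝ) : ℂ)‖ ≤ Real.log N := by
      rw [Complex.norm_real, Real.norm_eq_abs]
      refine (abs_nuV_le U V a ha.1).trans ?_
      apply Real.log_le_log (by exact_mod_cast ha.1)
      exact_mod_cast haN
    calc _ ≤ Real.log N * (1 * (1.15 * r)) :=
          mul_le_mul e3 (mul_le_mul (tyA_norm_le χ a) e2 (norm_nonneg _) zero_le_one)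
            (mul_nonneg (norm_nonneg _) (norm_nonneg _)) hL
      _ = _ := by ring
  rw [Finset.sum_const, Nat.card_Icc, nsmul_eq_mul, Nat.add_sub_cancel] at h1 h2
  calc _ ≤ (V : ℝ) * (1.15 * r * Real.log N) + ((U * V : ℕ) : ℝ) * (1.15 * r * Real.log N) := add_le_add h1 h2
    _ = _ := by push_cast; ring

theorem type0 {N k U r : ℕ} (hN : 2 ≤ N) (χ : DirichletCharacter ℂ r) :
    ‖∑ n ∈ Icc 1 (min U N), ((ArithmeticFunction.vonMangoldt n : ℝ) : ℂ) *
        (χ (n : ZMod r) * ((W N k n : ℝ) : ℂ))‖ ≤ 2 * U ^ 2 / N := by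
  have hN0 : (0 : ℝ) < N := by exact_mod_cast (by omega : 0 < N)
  have hom : ∀ t : ℝ, 0 ≤ t → om t ≤ t := by
    intro t ht
    have := om_lip t 0
    rw [om_zero, sub_zero, sub_zero, abs_of_nonneg (om_nonneg _), abs_of_nonneg ht] at this
    exact this
  have h1 : ‖∑ n ∈ Icc 1 (min U N), ((ArithmeticFunction.vonMangoldt n : ℝ) : ℂ) *
        (χ (n : ZMod r) * ((W N k n : ℝ) : ℂ))‖
      ≤ ∑ n ∈ Icc 1 (min U N), ArithmeticFunction.vonMangoldt n * ((U : ℝ) / N) := by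
    refine (norm_sum_le _ _).trans (Finset.sum_le_sum fun n hn => ?_)
    rw [Finset.mem_Icc] at hn
    have hnN : n ≤ N := hn.2.trans (min_le_right _ _)
    have hnU : n ≤ U := hn.2.trans (min_le_left _ _)
    rw [norm_mul, norm_mul, Complex.norm_real, Complex.norm_real, Real.norm_eq_abs, Real.norm_eq_abs,
      abs_of_nonneg ArithmeticFunction.vonMangoldt_nonneg]
    apply mul_le_mul_of_nonneg_left _ ArithmeticFunction.vonMangoldt_nonneg
    have e1 := tyA_log_ratio (N := N) (a := 1) (b := n) hN le_rfl hn.1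
    rw [one_mul, Nat.div_one] at e1
    have e2 : 0 ≤ (Real.log n / Real.log N) ^ k := pow_nonneg e1.1 k
    have e3 : (Real.log n / Real.log N) ^ k ≤ 1 := pow_le_one₀ e1.1 (e1.2.1 hnN)
    have e4 : |W N k n| ≤ (U : ℝ) / N := by
      unfold W
      rw [abs_of_nonneg (mul_nonneg (om_nonneg _) e2)]
      calc om ((n : ℝ) / N) * (Real.log n / Real.log N) ^ k ≤ ((n : ℝ) / N) * 1 :=
            mul_le_mul (hom _ (by positivity)) e3 e2 (by positivity)
        _ = (n : ℝ) / N := mul_one _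
        _ ≤ (U : ℝ) / N := div_le_div_of_nonneg_right (by exact_mod_cast hnU) hN0.le
    calc ‖χ (n : ZMod r)‖ * |W N k n| ≤ 1 * ((U : ℝ) / N) :=
          mul_le_mul (tyA_norm_le χ n) e4 (abs_nonneg _) zero_le_one
      _ = _ := one_mul _
  have h2 : ∑ n ∈ Icc 1 (min U N), ArithmeticFunction.vonMangoldt n ≤ Chebyshev.psi U := by
    unfold Chebyshev.psi
    rw [Nat.floor_natCast]
    apply Finset.sum_le_sum_of_subset_of_nonneg
    · intro n hn
      rw [Finset.mem_Icc] at hn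
      rw [Finset.mem_Ioc]
      exact ⟨by omega, hn.2.trans (min_le_left _ _)⟩
    · intro n _ _
      exact ArithmeticFunction.vonMangoldt_nonneg
  have h3 := Pool.Agent.H91.Gold.psi_le_log_three U
  have h4 : Real.log 3 ≤ 2 := by
    have := Real.log_le_sub_one_of_pos (show (0 : ℝ) < 3 by norm_num)
    linarith
  rw [← Finset.sum_mul] at h1
  have hU : (0 : ℝ) ≤ U := Nat.cast_nonneg U
  calc _ ≤ _ := h1
    _ ≤ (2 * U) * ((U : ℝ) / N) := by
        apply mul_le_mul_of_nonneg_right _ (by positivity)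
        calc _ ≤ _ := h2
          _ ≤ _ := h3
          _ ≤ 2 * U := mul_le_mul_of_nonneg_right h4 hU
    _ = _ := by ring

end Pool.Agent.H91.PK

end

section

/-!
PK LC: large conductors.  For all N, k, Q < D, V:

 ∑_{Q<r≤D} (1/φ(r)) ∑*_{χ mod r} |TT N k χ| ≤ 3 L V² D² + (type II bound).

Proof. Vaughan's identity (`vaughan` with U = V, g(n) = χ(n) W N k n), triangle inequality, `type0`, `type1_total`
(r ≥ 2 primitive implies χ ≠ 1: conductor of 1 is 1; r > Q ≥ 1) and `type2_total`.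
Type 0 and I contribute per character ≤ 1.15 r L (V + V²) + 2V²/N ≤ 2 r L V²  (V ≥ 8, L ≥ 1...), there are at most φ(r)
characters, and ∑_{r ≤ D} r ≤ D².   (We claim 3 L V² D²; need L = log N ≥ log 65 ≥ 4, as N > V² ≥ 64.)
(number of characters mod r is φ(r): `DirichletCharacter.card_eq_totient_of_hasEnoughRootsOfUnity`.)
-/

set_option autoImplicit false

namespace Pool.Agent.H91.PK

open Finset

theorem LC_card_le (r : ℕ) (hr : r ≠ 0) : ((Pch r).card : ℝ) ≤ r.totient := by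
  have : NeZero r := ⟨hr⟩
  have h1 : (Pch r).card ≤ Fintype.card (DirichletCharacter ℂ r) := by
    unfold Pch
    exact Finset.card_le_univ _
  have h2 : Fintype.card (DirichletCharacter ℂ r) = r.totient := by
    rw [← Nat.card_eq_fintype_card]
    exact DirichletCharacter.card_eq_totient_of_hasEnoughRootsOfUnity ℂ r
  exact_mod_cast h1.trans_eq h2

theorem LC_ne_one {r : ℕ} (hr : 2 ≤ r) {χ : DirichletCharacter ℂ r} (hχ : χ ∈ Pch r) : χ ≠ 1 := by
  have : NeZero r := ⟨by omega⟩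
  rintro rfl
  rw [mem_Pch, DirichletCharacter.isPrimitive_def, DirichletCharacter.conductor_one] at hχ
  omega

theorem LC_char {N k V r : ℕ} (hN : 2 ≤ N) (hr : 0 < r) (χ : DirichletCharacter ℂ r) (hχ : χ ≠ 1) :
    ‖TT N k (fun n => χ (n : ZMod r))‖ ≤ 2 * V ^ 2 / N + 1.15 * r * Real.log N * (V + V * V)
      + ‖∑ m ∈ Ioc V N, ((ArithmeticFunction.vonMangoldt m : ℝ) : ℂ) *
        ∑ n ∈ Ioc V (N / m), ((cV V n : ℝ) : ℂ) *
        (χ ((m * n : ℕ) : ZMod r) * ((W N k (m * n) : ℝ) : ℂ))‖ := by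
  have h := vaughan N V V (fun n => χ ((n : ℕ) : ZMod r) * ((W N k n : ℝ) : ℂ))
  have h0 := type0 (U := V) (k := k) hN χ
  have h1 := type1_total (U := V) (V := V) (k := k) hN hr χ hχ
  unfold TT

  rw [h]
  set A := ∑ n ∈ Icc 1 (min V N), ((ArithmeticFunction.vonMangoldt n : ℝ) : ℂ) *
        (χ (n : ZMod r) * ((W N k n : ℝ) : ℂ))
  set B := ∑ a ∈ Icc 1 V, ((ArithmeticFunction.moebius a : ℝ) : ℂ) *
        ∑ b ∈ Icc 1 (N / a), ((Real.log b : ℝ) : ℂ) * (χ ((a * b : ℕ) : ZMod r) * ((W N k (a * b) : ℝ) : ℂ))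
  set C := ∑ a ∈ Icc 1 (V * V), ((nuV V V a : ℝ) : ℂ) *
        ∑ b ∈ Icc 1 (N / a), χ ((a * b : ℕ) : ZMod r) * ((W N k (a * b) : ℝ) : ℂ)
  set D := ∑ m ∈ Ioc V N, ((ArithmeticFunction.vonMangoldt m : ℝ) : ℂ) *
        ∑ n ∈ Ioc V (N / m), ((cV V n : ℝ) : ℂ) *
        (χ ((m * n : ℕ) : ZMod r) * ((W N k (m * n) : ℝ) : ℂ))
  calc ‖A + B - C + D‖ ≤ ‖A + B - C‖ + ‖D‖ := norm_add_le _ _
    _ ≤ (‖A + B‖ + ‖C‖) + ‖D‖ := by gcongr; exact norm_sub_le _ _
    _ ≤ ((‖A‖ + ‖B‖) + ‖C‖) + ‖D‖ := by gcongr; exact norm_add_le _ _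
    _ = ‖A‖ + (‖B‖ + ‖C‖) + ‖D‖ := by ring
    _ ≤ _ := by gcongr

theorem large_cond (N k V Q D nl : ℕ) (hV : 8 ≤ V) (hVN : V ^ 2 < N) (hQ : 1 ≤ Q)
    (h1 : D ≤ 2 ^ nl * Q) (h2 : 2 ^ nl * Q ≤ 2 * D) :
    ∑ r ∈ Ioc Q D, (1 / (r.totient : ℝ)) * ∑ χ ∈ Pch r, ‖TT N k (fun n => χ (n : ZMod r))‖
      ≤ 3 * Real.log N * V ^ 2 * D ^ 2
      + 0.3253 * (1 + Real.log 2 / Real.log N) ^ k * Real.sqrt (Real.log N * N) *
        ((2 * Real.pi * Real.sqrt N / Q + 8 * D) *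
          (Real.log N / Real.log 2 * Real.sqrt (Real.log V + 2)
            + (Real.log V / Real.log 2 + 1) * ((2 * Real.log V + 1) * Real.sqrt (2 * Real.log V + 1)))
        + 24.3 * nl * ((2 * Real.log V + 1) * Real.sqrt (2 * Real.log V + 1)) * Real.sqrt (N / V)) := by
  have hN64 : 65 ≤ N := by nlinarith only [hV, hVN]
  have hN2 : 2 ≤ N := by omega
  have hNr : (65 : ℝ) ≤ N := by exact_mod_cast hN64
  have hVr : (8 : ℝ) ≤ V := by exact_mod_cast hV
  have hVNr : (V : ℝ) ^ 2 < N := by exact_mod_cast hVN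
  have hL : 4 ≤ Real.log N := by
    have h3 : Real.log 64 ≤ Real.log N := Real.log_le_log (by norm_num) (by linarith only [hNr])
    have h4 : Real.log 64 = 6 * Real.log 2 := by
      rw [show (64 : ℝ) = 2 ^ 6 by norm_num, Real.log_pow]; norm_num
    have := Real.log_two_gt_d9
    linarith only [h3, h4, this]
  refine le_trans ?_ (add_le_add_right (type2_total N k V Q D nl hV hVN hQ h1 h2) _)
  have hstep : ∀ r ∈ Ioc Q D, (1 / (r.totient : ℝ)) * ∑ χ ∈ Pch r, ‖TT N k (fun n => χ (n : ZMod r))‖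
      ≤ 2 * r * Real.log N * V ^ 2 + (1 / (r.totient : ℝ)) * ∑ χ ∈ Pch r,
      ‖∑ m ∈ Ioc V N, ((ArithmeticFunction.vonMangoldt m : ℝ) : ℂ) *
        ∑ n ∈ Ioc V (N / m), ((cV V n : ℝ) : ℂ) *
        (χ ((m * n : ℕ) : ZMod r) * ((W N k (m * n) : ℝ) : ℂ))‖ := by
    intro r hr
    rw [mem_Ioc] at hr
    have hr2 : 2 ≤ r := by omega
    have hr0 : 0 < r := by omega
    have hrr : (2 : ℝ) ≤ r := by exact_mod_cast hr2
    have htot : (0 : ℝ) < r.totient := by exact_mod_cast Nat.totient_pos.2 hr0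
    have hcard := LC_card_le r (by omega)
    have hb : 2 * (V : ℝ) ^ 2 / N + 1.15 * r * Real.log N * (V + V * V)
        ≤ 2 * r * Real.log N * V ^ 2 := by
      have e1 : 2 * (V : ℝ) ^ 2 / N ≤ 2 := by
        rw [div_le_iff₀ (by linarith only [hNr])]
        linarith
      have e2 : (V : ℝ) + V * V ≤ 1.125 * V ^ 2 := by nlinarith only [hVr]
      have e3 : (1.15 : ℝ) * r * Real.log N * (V + V * V) ≤ 1.15 * r * Real.log N * (1.125 * V ^ 2) := by
        gcongr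
      have e4 : (2 : ℝ) * 4 ≤ r * Real.log N := by gcongr
      have e5 : (64 : ℝ) ≤ V ^ 2 := by nlinarith only [hVr, e2]
      have e6 : (8 : ℝ) * 64 ≤ (r * Real.log N) * V ^ 2 := by nlinarith only [hVr, e2, e4]
      nlinarith only [e1, e3, e6]
    have hsum : ∑ χ ∈ Pch r, ‖TT N k (fun n => χ (n : ZMod r))‖ ≤ ∑ χ ∈ Pch r,
        (2 * r * Real.log N * V ^ 2 + ‖∑ m ∈ Ioc V N, ((ArithmeticFunction.vonMangoldt m : ℝ) : ℂ) *
        ∑ n ∈ Ioc V (N / m), ((cV V n : ℝ) : ℂ) *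
        (χ ((m * n : ℕ) : ZMod r) * ((W N k (m * n) : ℝ) : ℂ))‖) := by
      apply Finset.sum_le_sum
      intro χ hχ
      refine (LC_char (V := V) hN2 hr0 χ (LC_ne_one hr2 hχ)).trans ?_
      gcongr
    rw [Finset.sum_add_distrib, Finset.sum_const, nsmul_eq_mul] at hsum
    have hnn : (0 : ℝ) ≤ 2 * r * Real.log N * V ^ 2 := by positivity
    calc (1 / (r.totient : ℝ)) * ∑ χ ∈ Pch r, ‖TT N k (fun n => χ (n : ZMod r))‖
        ≤ (1 / (r.totient : ℝ)) * (((Pch r).card : ℝ) * (2 * r * Real.log N * V ^ 2) + ∑ χ ∈ Pch r,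
          ‖∑ m ∈ Ioc V N, ((ArithmeticFunction.vonMangoldt m : ℝ) : ℂ) *
        ∑ n ∈ Ioc V (N / m), ((cV V n : ℝ) : ℂ) *
        (χ ((m * n : ℕ) : ZMod r) * ((W N k (m * n) : ℝ) : ℂ))‖) := by gcongr
      _ = (((Pch r).card : ℝ) / r.totient) * (2 * r * Real.log N * V ^ 2)
          + (1 / (r.totient : ℝ)) * ∑ χ ∈ Pch r,
          ‖∑ m ∈ Ioc V N, ((ArithmeticFunction.vonMangoldt m : ℝ) : ℂ) *
        ∑ n ∈ Ioc V (N / m), ((cV V n : ℝ) : ℂ) *
        (χ ((m * n : ℕ) : ZMod r) * ((W N k (m * n) : ℝ) : ℂ))‖ := by ring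
      _ ≤ 1 * (2 * r * Real.log N * V ^ 2) + _ := by
          gcongr
          rw [div_le_one htot]
          exact hcard
      _ = _ := by ring
  refine (Finset.sum_le_sum hstep).trans ?_
  rw [Finset.sum_add_distrib]
  gcongr
  have h3 : ∑ r ∈ Ioc Q D, (2 * (r : ℝ) * Real.log N * V ^ 2)
      = (2 * Real.log N * V ^ 2) * ∑ r ∈ Ioc Q D, (r : ℝ) := by
    rw [Finset.mul_sum]
    apply Finset.sum_congr rfl
    intro r _
    ring
  rw [h3]
  have h4 : ∑ r ∈ Ioc Q D, (r : ℝ) ≤ (D : ℝ) ^ 2 := by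
    calc ∑ r ∈ Ioc Q D, (r : ℝ) ≤ ∑ r ∈ Ioc Q D, (D : ℝ) := by
          apply Finset.sum_le_sum
          intro r hr
          exact_mod_cast (mem_Ioc.1 hr).2
      _ = ((D - Q : ℕ) : ℝ) * D := by rw [Finset.sum_const, Nat.card_Ioc, nsmul_eq_mul]
      _ ≤ (D : ℝ) * D := by
          gcongr
          exact_mod_cast Nat.sub_le D Q
      _ = (D : ℝ) ^ 2 := by ring
  calc (2 * Real.log N * V ^ 2) * ∑ r ∈ Ioc Q D, (r : ℝ) ≤ (2 * Real.log N * V ^ 2) * (D : ℝ) ^ 2 := by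
        gcongr
    _ ≤ 3 * Real.log N * V ^ 2 * D ^ 2 := by
        have : (0 : ℝ) ≤ Real.log N * V ^ 2 * D ^ 2 := by positivity
        linarith only [this]

end Pool.Agent.H91.PK

end

section

/-!
# Medium conductors

For `N ≥ x/(log x)^{k+3}`: `large_cond` (PK/LC.lean) with `k = 0`, `V = ⌊(log x)^{B'}⌋`, `Q := ⌊(log x)^B⌋`, `D`, and `nl` with
`D ≤ 2^nl Q ≤ 2D` (if `D ≤ Q` the sum is empty); `D² ≤ x^{1-2δ}`.
For `N < x/(log x)^{k+3}`: Cauchy and `mult_ls`, without a dyadic decomposition: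
`∑_{c ≤ D} (1/φ(c)) ∑_ψ ‖TT‖ ≤ ∑_{c ≤ D} c^{-1/2} ((c/φ(c)) ∑_ψ ‖TT‖²)^{1/2}
≤ (1 + log D)^{1/2} ((D²+πN) N (log N)²)^{1/2}`.
-/

set_option autoImplicit false

namespace Pool.Agent.H91.EHA

open Finset
open Pool.Agent.H91.PK

private theorem chE_W (N n : ℕ) : |W N 0 n| ≤ 1 := by
  unfold W om
  rw [pow_zero, mul_one]
  split_ifs with h
  · obtain ⟨h0, h1⟩ := h
    rw [abs_of_nonneg (by positivity)]
    have : (1 - (n : ℝ) / N) ^ 2 ≤ 1 := by nlinarith only [h0, h1]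
    nlinarith only [this, h1, sq_nonneg (1 - (n : ℝ) / N)]
  · simp

private theorem chE_TT (N c : ℕ) (ψ : DirichletCharacter ℂ c) :
    TT N 0 (fun n => ψ (n : ZMod c)) =
      ∑ n ∈ Ioc 0 (0 + N), (((ArithmeticFunction.vonMangoldt n * W N 0 n : ℝ)) : ℂ) * ψ (n : ZMod c) := by
  unfold TT
  rw [zero_add]
  have : Icc 1 N = Ioc 0 N := by
    ext n
    simp only [mem_Icc, mem_Ioc]
    omega
  rw [this]
  refine Finset.sum_congr rfl fun n _ => ?_
  push_cast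
  ring

private theorem chE_sq (N : ℕ) :
    ∑ n ∈ Ioc 0 (0 + N), ‖(((ArithmeticFunction.vonMangoldt n * W N 0 n : ℝ)) : ℂ)‖ ^ 2
      ≤ N * Real.log N ^ 2 := by
  have h : ∀ n ∈ Ioc 0 (0 + N), ‖(((ArithmeticFunction.vonMangoldt n * W N 0 n : ℝ)) : ℂ)‖ ^ 2
      ≤ Real.log N ^ 2 := by
    intro n hn
    rw [mem_Ioc, zero_add] at hn
    have hn1 : (1 : ℝ) ≤ n := by exact_mod_cast hn.1
    have hnN : (n : ℝ) ≤ N := by exact_mod_cast hn.2
    rw [Complex.norm_real, Real.norm_eq_abs, abs_mul]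
    have h1 : |ArithmeticFunction.vonMangoldt n| ≤ Real.log N := by
      rw [abs_of_nonneg ArithmeticFunction.vonMangoldt_nonneg]
      exact ArithmeticFunction.vonMangoldt_le_log.trans (Real.log_le_log (by linarith only [hn1]) hnN)
    have h2 := chE_W N n
    have h3 : |ArithmeticFunction.vonMangoldt n| * |W N 0 n| ≤ Real.log N := by
      calc |ArithmeticFunction.vonMangoldt n| * |W N 0 n|
          ≤ |ArithmeticFunction.vonMangoldt n| * 1 := by gcongr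
        _ ≤ Real.log N := by rw [mul_one]; exact h1
    gcongr
  calc ∑ n ∈ Ioc 0 (0 + N), ‖(((ArithmeticFunction.vonMangoldt n * W N 0 n : ℝ)) : ℂ)‖ ^ 2
      ≤ ∑ n ∈ Ioc 0 (0 + N), Real.log N ^ 2 := Finset.sum_le_sum h
    _ = N * Real.log N ^ 2 := by
        rw [Finset.sum_const, Nat.card_Ioc, nsmul_eq_mul]
        simp

/-- The second moment bound. -/
private theorem chE_moment (N D Q : ℕ) :
    ∑ c ∈ Ioc Q D, (1 / (c.totient : ℝ)) *
        ∑ ψ ∈ Pch c, ‖TT N 0 (fun n => ψ (n : ZMod c))‖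
      ≤ √(1 + Real.log D) * √(((D : ℝ) ^ 2 + Real.pi * N) * (N * Real.log N ^ 2)) := by
  have hsub : Ioc Q D ⊆ Icc 1 D := by
    intro c hc
    rw [mem_Ioc] at hc
    rw [mem_Icc]
    omega
  have hterm : ∀ c ∈ Icc 1 D, (1 / (c.totient : ℝ)) *
        ∑ ψ ∈ Pch c, ‖TT N 0 (fun n => ψ (n : ZMod c))‖ ≤
      √(1 / (c : ℝ)) * √(((c : ℝ) / c.totient) *
        ∑ ψ ∈ Pch c, ‖TT N 0 (fun n => ψ (n : ZMod c))‖ ^ 2) := by
    intro c hc
    rw [mem_Icc] at hc
    have hc0 : (0 : ℝ) < c := by exact_mod_cast hc.1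
    have hphi : (0 : ℝ) < c.totient := by exact_mod_cast Nat.totient_pos.2 hc.1
    have hcard := LC_card_le c (by omega)
    rw [← Real.sqrt_mul (by positivity)]
    apply Real.le_sqrt_of_sq_le
    have hcs := sq_sum_le_card_mul_sum_sq (s := Pch c)
      (f := fun ψ => ‖TT N 0 (fun n => ψ (n : ZMod c))‖)
    have hM : 0 ≤ ∑ ψ ∈ Pch c, ‖TT N 0 (fun n => ψ (n : ZMod c))‖ ^ 2 := by positivity
    calc ((1 / (c.totient : ℝ)) * ∑ ψ ∈ Pch c, ‖TT N 0 (fun n => ψ (n : ZMod c))‖) ^ 2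
        = (1 / (c.totient : ℝ)) ^ 2 * (∑ ψ ∈ Pch c, ‖TT N 0 (fun n => ψ (n : ZMod c))‖) ^ 2 := by ring
      _ ≤ (1 / (c.totient : ℝ)) ^ 2 * (((Pch c).card : ℝ) *
            ∑ ψ ∈ Pch c, ‖TT N 0 (fun n => ψ (n : ZMod c))‖ ^ 2) := by gcongr
      _ ≤ (1 / (c.totient : ℝ)) ^ 2 * ((c.totient : ℝ) *
            ∑ ψ ∈ Pch c, ‖TT N 0 (fun n => ψ (n : ZMod c))‖ ^ 2) := by gcongr
      _ = 1 / (c : ℝ) * (((c : ℝ) / c.totient) *
            ∑ ψ ∈ Pch c, ‖TT N 0 (fun n => ψ (n : ZMod c))‖ ^ 2) := by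
          field_simp
  calc ∑ c ∈ Ioc Q D, (1 / (c.totient : ℝ)) *
        ∑ ψ ∈ Pch c, ‖TT N 0 (fun n => ψ (n : ZMod c))‖
      ≤ ∑ c ∈ Icc 1 D, (1 / (c.totient : ℝ)) *
        ∑ ψ ∈ Pch c, ‖TT N 0 (fun n => ψ (n : ZMod c))‖ :=
        Finset.sum_le_sum_of_subset_of_nonneg hsub fun c _ _ => by positivity
    _ ≤ ∑ c ∈ Icc 1 D, √(1 / (c : ℝ)) * √(((c : ℝ) / c.totient) *
        ∑ ψ ∈ Pch c, ‖TT N 0 (fun n => ψ (n : ZMod c))‖ ^ 2) := Finset.sum_le_sum hterm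
    _ ≤ √(∑ c ∈ Icc 1 D, 1 / (c : ℝ)) * √(∑ c ∈ Icc 1 D, ((c : ℝ) / c.totient) *
        ∑ ψ ∈ Pch c, ‖TT N 0 (fun n => ψ (n : ZMod c))‖ ^ 2) :=
        Real.sum_sqrt_mul_sqrt_le _ (fun c => by positivity) (fun c => by positivity)
    _ ≤ √(1 + Real.log D) * √(((D : ℝ) ^ 2 + Real.pi * N) * (N * Real.log N ^ 2)) := by
        gcongr
        · have h := harmonic_le_one_add_log D
          rw [harmonic_eq_sum_Icc] at h
          push_cast at h
          simpa [one_div] using h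
        · have h := mult_ls D 0 N (fun n => (((ArithmeticFunction.vonMangoldt n * W N 0 n : ℝ)) : ℂ))
          simp only [← chE_TT] at h
          refine h.trans ?_
          gcongr
          exact chE_sq N

private theorem chE_nl (Q D : ℕ) (hQ : 1 ≤ Q) (hQD : Q < D) :
    ∃ nl : ℕ, D ≤ 2 ^ nl * Q ∧ 2 ^ nl * Q ≤ 2 * D := by
  classical
  have hex : ∃ n : ℕ, D ≤ 2 ^ n * Q := by
    refine ⟨D, ?_⟩
    have h1 : D < 2 ^ D := Nat.lt_two_pow_self
    calc D ≤ 2 ^ D := h1.le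
      _ = 2 ^ D * 1 := by ring
      _ ≤ 2 ^ D * Q := by gcongr
  refine ⟨Nat.find hex, Nat.find_spec hex, ?_⟩
  rcases hn : Nat.find hex with _ | m
  · rw [pow_zero, one_mul]
    omega
  · have h2 : ¬ D ≤ 2 ^ m * Q := Nat.find_min hex (by omega)
    rw [pow_succ]
    have : 2 ^ m * 2 * Q = 2 * (2 ^ m * Q) := by ring
    omega

/-- Small `N`. -/
private theorem chE_small (k : ℕ) (X L : ℝ) (hL : 2000 ≤ L) (hlog : Real.log X = L) (hX1 : 1 ≤ X)
    (N D Q : ℕ) (hN1 : 1 ≤ N) (hN : (N : ℝ) ≤ X / L ^ (k + 2))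
    (hD : (D : ℝ) ≤ √X / L ^ (5 * k + 30)) :
    ∑ c ∈ Ioc Q D, (1 / (c.totient : ℝ)) *
        ∑ ψ ∈ Pch c, ‖TT N 0 (fun n => ψ (n : ZMod c))‖ ≤ X / L ^ k := by
  refine (chE_moment N D Q).trans ?_
  have hL0 : (0 : ℝ) < L := by linarith only [hL]
  have hL1 : (1 : ℝ) ≤ L := by linarith only [hL]
  have hX0 : (0 : ℝ) < X := by linarith only [hX1]
  have hNr : (1 : ℝ) ≤ N := by exact_mod_cast hN1
  have hD2 : (D : ℝ) ^ 2 ≤ X / L ^ (k + 2) := by
    calc (D : ℝ) ^ 2 ≤ (√X / L ^ (5 * k + 30)) ^ 2 := by gcongr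
      _ = X / (L ^ (5 * k + 30)) ^ 2 := by rw [div_pow, Real.sq_sqrt hX0.le]
      _ ≤ X / L ^ (k + 2) := by
          rw [← pow_mul]
          have : L ^ (k + 2) ≤ L ^ ((5 * k + 30) * 2) := pow_le_pow_right₀ hL1 (by omega)
          gcongr
  have hDX : (D : ℝ) ≤ X := by
    calc (D : ℝ) ≤ √X / L ^ (5 * k + 30) := hD
      _ ≤ √X / 1 := by gcongr; exact one_le_pow₀ hL1
      _ = √X := div_one _
      _ ≤ X := by
        rw [Real.sqrt_le_left hX0.le]
        nlinarith only [hX1]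
  have hlD : Real.log D ≤ L := by
    rcases Nat.eq_zero_or_pos D with h0 | h0
    · rw [h0, Nat.cast_zero, Real.log_zero]
      exact hL0.le
    · rw [← hlog]
      exact Real.log_le_log (by exact_mod_cast h0) hDX
  have hNX : (N : ℝ) ≤ X := by
    refine hN.trans ?_
    calc X / L ^ (k + 2) ≤ X / 1 := by gcongr; exact one_le_pow₀ hL1
      _ = X := div_one _
  have hlN : Real.log N ≤ L := by
    rw [← hlog]
    exact Real.log_le_log (by linarith only [hNr]) hNX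
  have hlN0 : 0 ≤ Real.log N := Real.log_nonneg hNr
  have hlD0 : 0 ≤ Real.log D := Real.log_natCast_nonneg D
  have hpi := Real.pi_lt_four
  rw [← Real.sqrt_mul (by linarith)]
  apply Real.sqrt_le_iff.2
  refine ⟨by positivity, ?_⟩
  calc (1 + Real.log D) * (((D : ℝ) ^ 2 + Real.pi * N) * (N * Real.log N ^ 2))
      ≤ (2 * L) * ((X / L ^ (k + 2) + 4 * (X / L ^ (k + 2))) * ((X / L ^ (k + 2)) * L ^ 2)) := by
        gcongr
        linarith only [hL, hlD]
    _ = (10 / L) * (X / L ^ k) ^ 2 := by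
        field_simp
        ring
    _ ≤ 1 * (X / L ^ k) ^ 2 := by
        gcongr
        rw [div_le_one hL0]
        linarith only [hL]
    _ = (X / L ^ k) ^ 2 := one_mul _

/-- Large `N`. -/
private theorem chE_large (k : ℕ) (X L : ℝ) (hL : 2000 ≤ L) (hlog : Real.log X = L)
    (hX1 : L ^ (5 * k + 30) ≤ X)
    (N D : ℕ) (hN : X / L ^ (k + 2) ≤ N) (hN2 : (N : ℝ) ≤ 2 * X)
    (hD : (D : ℝ) ≤ √X / L ^ (5 * k + 30)) :
    ∑ c ∈ Ioc ⌊L ^ (k + 5)⌋₊ D, (1 / (c.totient : ℝ)) *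
        ∑ ψ ∈ Pch c, ‖TT N 0 (fun n => ψ (n : ZMod c))‖ ≤ X / L ^ k := by
  have hL0 : (0 : ℝ) < L := by linarith only [hL]
  have hL1 : (1 : ℝ) ≤ L := by linarith only [hL]
  have hX0 : (0 : ℝ) < X := lt_of_lt_of_le (by positivity) hX1
  have hX1' : (1 : ℝ) ≤ X := le_trans (one_le_pow₀ hL1) hX1
  set Q : ℕ := ⌊L ^ (k + 5)⌋₊ with hQdef
  set V : ℕ := ⌊L ^ (2 * (k + 5))⌋₊ with hVdef
  rcases Nat.lt_or_ge Q D with hQD | hQD
  swap
  · rw [Finset.Ioc_eq_empty (by omega), Finset.sum_empty]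
    positivity
  have hLpow : ∀ m : ℕ, 1 ≤ m → 2000 ≤ L ^ m := by
    intro m hm
    calc (2000 : ℝ) ≤ L := hL
      _ = L ^ 1 := (pow_one L).symm
      _ ≤ L ^ m := pow_le_pow_right₀ hL1 hm
  have hQ2 : L ^ (k + 5) / 2 ≤ Q := by
    have h1 := Nat.lt_floor_add_one (L ^ (k + 5))
    have h2 := hLpow (k + 5) (by omega)
    rw [← hQdef] at h1
    linarith only [h1, h2]
  have hV2 : L ^ (2 * (k + 5)) / 2 ≤ V := by
    have h1 := Nat.lt_floor_add_one (L ^ (2 * (k + 5)))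
    have h2 := hLpow (2 * (k + 5)) (by omega)
    rw [← hVdef] at h1
    linarith only [h1, h2]
  have hVle : (V : ℝ) ≤ L ^ (2 * (k + 5)) := Nat.floor_le (by positivity)
  have hQr : (1000 : ℝ) ≤ Q := by
    have h2 := hLpow (k + 5) (by omega)
    linarith only [hQ2, h2]
  have hVr : (1000 : ℝ) ≤ V := by
    have h2 := hLpow (2 * (k + 5)) (by omega)
    linarith only [hV2, h2]
  have hQ1 : 1 ≤ Q := by
    have : (1 : ℝ) ≤ Q := by linarith only [hQr]
    exact_mod_cast this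
  have hV8 : 8 ≤ V := by
    have : (8 : ℝ) ≤ V := by linarith only [hVr]
    exact_mod_cast this
  have hVN : V ^ 2 < N := by
    have : (V : ℝ) ^ 2 < N := by
      calc (V : ℝ) ^ 2 ≤ (L ^ (2 * (k + 5))) ^ 2 := by gcongr
        _ = L ^ (4 * k + 20) := by rw [← pow_mul]; ring_nf
        _ < L ^ (4 * k + 28) := pow_lt_pow_right₀ (by linarith only [hL]) (by omega)
        _ = L ^ (5 * k + 30) / L ^ (k + 2) := by
            rw [eq_div_iff (by positivity), ← pow_add]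
            ring_nf
        _ ≤ X / L ^ (k + 2) := by gcongr
        _ ≤ N := hN
    exact_mod_cast this
  obtain ⟨nl, hnl1, hnl2⟩ := chE_nl Q D hQ1 hQD
  refine (large_cond N 0 V Q D nl hV8 hVN hQ1 hnl1 hnl2).trans ?_
  have hNr : (1 : ℝ) ≤ N := by
    have h1 : V ^ 2 < N := hVN
    have h2 : 1 ≤ N := by omega
    exact_mod_cast h2
  have hlog2 : (0.69 : ℝ) < Real.log 2 := by
    have := Real.log_two_gt_d9
    linarith only [this]
  have hlog2' : Real.log 2 < 1 := by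
    have := Real.log_two_lt_d9
    linarith only [hlog2, this]
  have hDX : (D : ℝ) ≤ X := by
    calc (D : ℝ) ≤ √X / L ^ (5 * k + 30) := hD
      _ ≤ √X / 1 := by gcongr; exact one_le_pow₀ hL1
      _ = √X := div_one _
      _ ≤ X := by
        rw [Real.sqrt_le_left hX0.le]
        nlinarith only [hX1']
  have hlN : Real.log N ≤ 2 * L := by
    have h1 : Real.log N ≤ Real.log (2 * X) := Real.log_le_log (by linarith only [hNr, hlog2, hlog2']) hN2
    rw [Real.log_mul (by norm_num) hX0.ne', hlog] at h1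
    linarith only [hL, hlog2, hlog2', h1]
  have hlN0 : 0 ≤ Real.log N := Real.log_nonneg hNr
  have hlV : Real.log V ≤ L := by
    rw [← hlog]
    refine Real.log_le_log (by linarith only [hVr, hlog2, hlog2']) (hVle.trans (le_trans ?_ hX1))
    exact pow_le_pow_right₀ hL1 (by omega)
  have hlV0 : 0 ≤ Real.log V := Real.log_nonneg (by linarith only [hVr, hlog2, hlog2'])
  have hnl : (nl : ℝ) ≤ 3 * L := by
    have h1 : ((2 : ℝ)) ^ nl ≤ 2 * X := by
      have h2 : (2 : ℝ) ^ nl * Q ≤ 2 * D := by exact_mod_cast hnl2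
      calc ((2 : ℝ)) ^ nl = 2 ^ nl * 1 := by ring
        _ ≤ 2 ^ nl * Q := by gcongr; linarith only [hQr, hlog2, hlog2']
        _ ≤ 2 * D := h2
        _ ≤ 2 * X := by linarith only [hDX]
    have h3 := Real.log_le_log (by positivity) h1
    rw [Real.log_pow, Real.log_mul (by norm_num) hX0.ne', hlog] at h3
    have h4 : (nl : ℝ) * 0.69 ≤ nl * Real.log 2 := by gcongr
    nlinarith only [hL, h3, h4]
  have hsX : √X * √X = X := Real.mul_self_sqrt hX0.le
  have hsX0 : 0 ≤ √X := Real.sqrt_nonneg X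
  -- the pieces
  have e1 : √(Real.log N * N) ≤ 2 * L * √X := by
    apply Real.sqrt_le_iff.2
    refine ⟨by positivity, ?_⟩
    calc Real.log N * N ≤ (2 * L) * (2 * X) := by gcongr
      _ = 4 * L * X := by ring
      _ ≤ 4 * L ^ 2 * X := by
          gcongr
          nlinarith only [hL]
      _ = (2 * L * √X) ^ 2 := by
          rw [mul_pow, Real.sq_sqrt hX0.le]
          ring
  have e2 : 2 * Real.pi * √N / Q ≤ 24 * √X / L ^ (k + 5) := by
    have h1 : √(N : ℝ) ≤ 1.5 * √X := by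
      apply Real.sqrt_le_iff.2
      refine ⟨by positivity, ?_⟩
      rw [mul_pow, Real.sq_sqrt hX0.le]
      linarith only [hN2, hX1', hlog2, hlog2']
    have h2 := Real.pi_lt_four
    calc 2 * Real.pi * √N / Q ≤ 2 * 4 * (1.5 * √X) / (L ^ (k + 5) / 2) := by gcongr
      _ = 24 * √X / L ^ (k + 5) := by
          field_simp
          ring
  have e3 : 8 * (D : ℝ) ≤ 8 * √X / L ^ (k + 5) := by
    calc 8 * (D : ℝ) ≤ 8 * (√X / L ^ (5 * k + 30)) := by gcongr
      _ = 8 * √X / L ^ (5 * k + 30) := by ring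
      _ ≤ 8 * √X / L ^ (k + 5) := by
          have : L ^ (k + 5) ≤ L ^ (5 * k + 30) := pow_le_pow_right₀ hL1 (by omega)
          gcongr
  have e4 : (2 * Real.log V + 1) * √(2 * Real.log V + 1) ≤ 9 * L ^ 2 := by
    have h1 : √(2 * Real.log V + 1) ≤ 3 * L := by
      apply Real.sqrt_le_iff.2
      refine ⟨by positivity, ?_⟩
      nlinarith only [hL, hlV]
    calc (2 * Real.log V + 1) * √(2 * Real.log V + 1) ≤ (3 * L) * (3 * L) := by
          gcongr
          linarith only [hL, hlog2, hlog2', hlV]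
      _ = 9 * L ^ 2 := by ring
  have e5 : Real.log N / Real.log 2 * √(Real.log V + 2)
            + (Real.log V / Real.log 2 + 1) * ((2 * Real.log V + 1) * √(2 * Real.log V + 1))
            ≤ 36 * L ^ 3 := by
    have h1 : √(Real.log V + 2) ≤ L := by
      apply Real.sqrt_le_iff.2
      refine ⟨by positivity, ?_⟩
      nlinarith only [hL, hlV]
    have h2 : Real.log N / Real.log 2 ≤ 3 * L := by
      rw [div_le_iff₀ (by linarith only [hlog2, hlog2'])]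
      nlinarith only [hL, hlog2, hlN]
    have h3 : Real.log V / Real.log 2 + 1 ≤ 3 * L := by
      have : Real.log V / Real.log 2 ≤ 2 * L := by
        rw [div_le_iff₀ (by linarith only [hlog2, hlog2'])]
        nlinarith only [hL, hlog2, hlV]
      linarith only [hL, hlog2, hlog2', this]
    calc Real.log N / Real.log 2 * √(Real.log V + 2)
            + (Real.log V / Real.log 2 + 1) * ((2 * Real.log V + 1) * √(2 * Real.log V + 1))
        ≤ (3 * L) * L + (3 * L) * (9 * L ^ 2) := by gcongr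
      _ = 3 * L ^ 2 + 27 * L ^ 3 := by ring
      _ ≤ 36 * L ^ 3 := by
          have : L ^ 2 ≤ L ^ 3 := pow_le_pow_right₀ hL1 (by norm_num)
          nlinarith only [this]
  have e6 : √((N : ℝ) / V) ≤ 2 * √X / L ^ (k + 5) := by
    apply Real.sqrt_le_iff.2
    refine ⟨by positivity, ?_⟩
    calc (N : ℝ) / V ≤ 2 * X / (L ^ (2 * (k + 5)) / 2) := by gcongr
      _ = (2 * √X / L ^ (k + 5)) ^ 2 := by
          rw [div_pow, mul_pow, Real.sq_sqrt hX0.le, ← pow_mul]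
          field_simp
          ring
  have e7 : 3 * Real.log N * V ^ 2 * D ^ 2 ≤ X / L ^ (k + 1) := by
    calc 3 * Real.log N * (V : ℝ) ^ 2 * D ^ 2
        ≤ 3 * (2 * L) * (L ^ (2 * (k + 5))) ^ 2 * (√X / L ^ (5 * k + 30)) ^ 2 := by gcongr
      _ = 6 * (L ^ (4 * k + 21) / L ^ (10 * k + 60)) * X := by
          rw [div_pow, Real.sq_sqrt hX0.le, ← pow_mul, ← pow_mul]
          ring
      _ = 6 * X / L ^ (6 * k + 39) := by
          have : L ^ (10 * k + 60) = L ^ (4 * k + 21) * L ^ (6 * k + 39) := by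
            rw [← pow_add]
            ring_nf
          rw [this]
          field_simp
      _ = (6 / L ^ (5 * k + 38)) * (X / L ^ (k + 1)) := by
          have : L ^ (6 * k + 39) = L ^ (5 * k + 38) * L ^ (k + 1) := by
            rw [← pow_add]
            ring_nf
          rw [this]
          field_simp
      _ ≤ 1 * (X / L ^ (k + 1)) := by
          gcongr
          rw [div_le_one (by positivity)]
          have := hLpow (5 * k + 38) (by omega)
          linarith only [this]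
      _ = X / L ^ (k + 1) := one_mul _
  have e8 : 0.3253 * (1 + Real.log 2 / Real.log N) ^ 0 * √(Real.log N * N) *
        ((2 * Real.pi * √N / Q + 8 * D) *
          (Real.log N / Real.log 2 * √(Real.log V + 2)
            + (Real.log V / Real.log 2 + 1) * ((2 * Real.log V + 1) * √(2 * Real.log V + 1)))
        + 24.3 * nl * ((2 * Real.log V + 1) * √(2 * Real.log V + 1)) * √(N / V))
        ≤ 1800 * (X / L ^ (k + 1)) := by
    calc 0.3253 * (1 + Real.log 2 / Real.log N) ^ 0 * √(Real.log N * N) *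
        ((2 * Real.pi * √N / Q + 8 * D) *
          (Real.log N / Real.log 2 * √(Real.log V + 2)
            + (Real.log V / Real.log 2 + 1) * ((2 * Real.log V + 1) * √(2 * Real.log V + 1)))
        + 24.3 * nl * ((2 * Real.log V + 1) * √(2 * Real.log V + 1)) * √(N / V))
        ≤ 0.3253 * (1 + Real.log 2 / Real.log N) ^ 0 * (2 * L * √X) *
        ((24 * √X / L ^ (k + 5) + 8 * √X / L ^ (k + 5)) * (36 * L ^ 3)
        + 24.3 * (3 * L) * (9 * L ^ 2) * (2 * √X / L ^ (k + 5))) := by gcongr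
      _ = (0.6506 * (32 * 36 + 24.3 * 54)) * (√X * √X) * L ^ 4 / L ^ (k + 5) := by
          rw [pow_zero]
          ring
      _ = (0.6506 * (32 * 36 + 24.3 * 54)) * (X / L ^ (k + 1)) := by
          rw [hsX]
          have : L ^ (k + 5) = L ^ 4 * L ^ (k + 1) := by
            rw [← pow_add]
            ring_nf
          rw [this]
          field_simp
      _ ≤ 1800 * (X / L ^ (k + 1)) := by
          have : 0 ≤ X / L ^ (k + 1) := by positivity
          nlinarith only [this]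
  calc _ ≤ X / L ^ (k + 1) + 1800 * (X / L ^ (k + 1)) := add_le_add e7 e8
    _ = (1801 / L) * (X / L ^ k) := by
        rw [pow_succ]
        field_simp
        ring
    _ ≤ 1 * (X / L ^ k) := by
        gcongr
        rw [div_le_one hL0]
        linarith only [hL]
    _ = X / L ^ k := one_mul _

theorem medium (δ : ℝ) (hδ : 0 < δ) (k : ℕ) : ∃ B : ℕ, ∃ x0 : ℕ, ∀ x : ℕ, x0 ≤ x →
    ∀ N D : ℕ, 1 ≤ N → N ≤ 2 * x → (D : ℝ) ≤ (x : ℝ) ^ (1 / 2 - δ) →
    ∑ c ∈ Ioc ⌊Real.log x ^ B⌋₊ D, (1 / (c.totient : ℝ)) *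
        ∑ ψ ∈ Pch c, ‖TT N 0 (fun n => ψ (n : ZMod c))‖ ≤ x / Real.log x ^ k := by
  refine ⟨k + 5, ?_⟩
  have hcast : Filter.Tendsto (fun x : ℕ => (x : ℝ)) Filter.atTop Filter.atTop :=
    tendsto_natCast_atTop_atTop
  have hlogt : Filter.Tendsto (fun x : ℕ => Real.log (x : ℝ)) Filter.atTop Filter.atTop :=
    Real.tendsto_log_atTop.comp hcast
  have hev1 : ∀ᶠ x : ℕ in Filter.atTop, 2000 ≤ Real.log (x : ℝ) :=
    hlogt.eventually_ge_atTop 2000
  have hev2 : ∀ r : ℝ, 0 < r → ∀ᶠ x : ℕ in Filter.atTop,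
      Real.log (x : ℝ) ^ (5 * k + 30) ≤ (x : ℝ) ^ r := by
    intro r hr
    have h := (isLittleO_log_rpow_rpow_atTop ((5 * k + 30 : ℕ) : ℝ) hr).bound
      (show (0 : ℝ) < 1 by norm_num)
    have h2 := hcast.eventually h
    filter_upwards [h2, hev1] with x hx hx1
    rw [Real.rpow_natCast, one_mul, Real.norm_eq_abs, Real.norm_eq_abs,
      abs_of_nonneg (by positivity), abs_of_nonneg (by positivity)] at hx
    exact hx
  obtain ⟨x0, hx0⟩ := Filter.eventually_atTop.1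
    ((hev1.and (hev2 δ hδ)).and ((hev2 1 one_pos).and (Filter.eventually_ge_atTop 1)))
  refine ⟨x0, fun x hx N D hN1 hN hD => ?_⟩
  obtain ⟨⟨h1, h2⟩, h3, h4⟩ := hx0 x hx
  rw [Real.rpow_one] at h3
  have hx1 : (1 : ℝ) ≤ x := by exact_mod_cast h4
  have hx00 : (0 : ℝ) < x := by linarith only [hx1]
  have hL0 : (0 : ℝ) < Real.log x := by linarith only [h1]
  have hD' : (D : ℝ) ≤ √(x : ℝ) / Real.log x ^ (5 * k + 30) := by
    refine hD.trans ?_
    rw [Real.rpow_sub hx00, ← Real.sqrt_eq_rpow]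
    gcongr
  have hN' : (N : ℝ) ≤ 2 * x := by exact_mod_cast hN
  rcases le_total ((N : ℝ)) (x / Real.log x ^ (k + 2)) with h | h
  · exact chE_small k x (Real.log x) h1 rfl hx1 N D _ hN1 h hD'
  · exact chE_large k x (Real.log x) h1 rfl h3 N D h hN' hD'

end Pool.Agent.H91.EHA

end
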