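import Pool.Agent.H94.EH.H91.EHA.SwI
import Pool.Agent.H94.EH.M06

/-! The parts of this file: H91.EHA.ChF, H91.EHA.GTwoA. -/

section

/-!
# Small conductors

`TT N 0 ψ = ∑_{n≤N} Λ(n)ψ(n) om(n/N)`; Abel summation (`om` is Lipschitz, total variation `≤ 8/27`) and
`siegel_walfisz (B) (k')` for the partial sums up to `m ≥ √x` (`log m ≥ (log x)/2`, so `c ≤ (log x)^B ≤ (log m)^{B+1}`),
trivial bound `m log m` for `m < √x`.  `(1/φ(c)) #Pch c ≤ 1`, at most `(log x)^B` values of `c`.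
-/

set_option autoImplicit false

namespace Pool.Agent.H91.EHA

open Finset
open Pool.Agent.H91.PK

private theorem chF_card {r : ℕ} (hr : 1 ≤ r) : ((Pch r).card : ℝ) ≤ r.totient := by
  have : NeZero r := ⟨by omega⟩
  have h1 : (Pch r).card ≤ Fintype.card (DirichletCharacter ℂ r) := card_le_univ _
  have h2 : Fintype.card (DirichletCharacter ℂ r) = r.totient := by
    rw [← Nat.card_eq_fintype_card]
    exact DirichletCharacter.card_eq_totient_of_hasEnoughRootsOfUnity ℂ r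
  rw [h2] at h1
  exact_mod_cast h1

private theorem chF_parts (a g : ℕ → ℂ) (M : ℕ) :
    ∑ n ∈ Icc 1 M, a n * g n = (∑ n ∈ Icc 1 M, a n) * g M
      + ∑ m ∈ range M, (∑ n ∈ Icc 1 m, a n) * (g m - g (m + 1)) := by
  induction M with
  | zero => simp
  | succ M ih =>
    rw [Finset.sum_Icc_succ_top (by omega), Finset.sum_Icc_succ_top (by omega), ih,
      Finset.sum_range_succ]
    ring

private theorem chF_abel (N : ℕ) (hN : 1 ≤ N) (a : ℕ → ℂ) (K : ℝ)
    (hK : ∀ m : ℕ, m ≤ N → ‖∑ n ∈ Icc 1 m, a n‖ ≤ K) :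
    ‖∑ n ∈ Icc 1 N, a n * ((om ((n : ℝ) / N) : ℝ) : ℂ)‖ ≤ K := by
  have hN0 : (0 : ℝ) < N := by exact_mod_cast hN
  have hK0 : 0 ≤ K := le_trans (norm_nonneg _) (hK N le_rfl)
  rw [chF_parts a (fun n => ((om ((n : ℝ) / N) : ℝ) : ℂ)) N]
  have h1 : om ((N : ℝ) / N) = 0 := by
    rw [div_self hN0.ne']; exact om_eq_zero le_rfl
  simp only [h1]
  rw [Complex.ofReal_zero, mul_zero, zero_add]
  have h2 : ∀ m ∈ range N, ‖(∑ n ∈ Icc 1 m, a n) *
      (((om ((m : ℝ) / N) : ℝ) : ℂ) - ((om (((m + 1 : ℕ) : ℝ) / N) : ℝ) : ℂ))‖ ≤ K * (1 / N) := by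
    intro m hm
    rw [mem_range] at hm
    rw [norm_mul, ← Complex.ofReal_sub, Complex.norm_real, Real.norm_eq_abs]
    refine mul_le_mul (hK m hm.le) ?_ (abs_nonneg _) hK0
    refine (om_lip _ _).trans ?_
    rw [← sub_div, abs_div, abs_of_pos hN0]
    gcongr
    push_cast
    rw [show (m : ℝ) - (m + 1) = -1 by ring]
    simp
  calc _ ≤ ∑ m ∈ range N, ‖(∑ n ∈ Icc 1 m, a n) *
      (((om ((m : ℝ) / N) : ℝ) : ℂ) - ((om (((m + 1 : ℕ) : ℝ) / N) : ℝ) : ℂ))‖ := norm_sum_le _ _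
    _ ≤ ∑ m ∈ range N, K * (1 / N) := sum_le_sum h2
    _ = K := by
      rw [sum_const, card_range, nsmul_eq_mul]
      field_simp

private theorem chF_triv (c : ℕ) (ψ : DirichletCharacter ℂ c) (m : ℕ) :
    ‖∑ n ∈ Icc 1 m, ((Lam n : ℝ) : ℂ) * ψ (n : ZMod c)‖ ≤ m * Real.log m := by
  have h : ∀ n ∈ Icc 1 m, ‖((Lam n : ℝ) : ℂ) * ψ (n : ZMod c)‖ ≤ Real.log m := by
    intro n hn
    rw [mem_Icc] at hn
    rw [norm_mul, Complex.norm_real, Real.norm_eq_abs]
    have h0 : 0 ≤ Lam n := ArithmeticFunction.vonMangoldt_nonneg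
    rw [abs_of_nonneg h0]
    have h1 : Lam n ≤ Real.log n := ArithmeticFunction.vonMangoldt_le_log
    have h2 : Real.log n ≤ Real.log m :=
      Real.log_le_log (by exact_mod_cast hn.1) (by exact_mod_cast hn.2)
    have h3 : ‖ψ (n : ZMod c)‖ ≤ 1 := ψ.norm_le_one _
    calc Lam n * ‖ψ (n : ZMod c)‖ ≤ Lam n * 1 := mul_le_mul_of_nonneg_left h3 h0
      _ ≤ Real.log m := by linarith
  calc _ ≤ ∑ n ∈ Icc 1 m, ‖((Lam n : ℝ) : ℂ) * ψ (n : ZMod c)‖ := norm_sum_le _ _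
    _ ≤ ∑ n ∈ Icc 1 m, Real.log m := sum_le_sum h
    _ = m * Real.log m := by
      rw [sum_const, Nat.card_Icc, nsmul_eq_mul]; simp

theorem small_cond' (B k : ℕ) : ∃ x0 : ℕ, ∀ x : ℕ, x0 ≤ x → ∀ N : ℕ, 1 ≤ N → N ≤ 2 * x →
    ∑ c ∈ Ioc 1 ⌊Real.log x ^ B⌋₊, (1 / (c.totient : ℝ)) *
        ∑ ψ ∈ Pch c, ‖TT N 0 (fun n => ψ (n : ZMod c))‖ ≤ x / Real.log x ^ k := by
  obtain ⟨C, hC, hSW⟩ := siegel_walfisz (B + 1) (k + B + 1)
  have hlog : Filter.Tendsto (fun x : ℕ => Real.log (x : ℝ)) Filter.atTop Filter.atTop :=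
    Real.tendsto_log_atTop.comp tendsto_natCast_atTop_atTop
  have e1 : ∀ᶠ x : ℕ in Filter.atTop,
      max (max 2 (2 ^ (B + 1))) (C * 2 ^ (k + B + 2)) ≤ Real.log (x : ℝ) :=
    hlog.eventually_ge_atTop _
  have e2 : ∀ᶠ x : ℕ in Filter.atTop, Real.log (x : ℝ) ^ (2 * (k + B + 1)) ≤ (x : ℝ) := by
    have h := (Real.isLittleO_pow_log_id_atTop (n := 2 * (k + B + 1))).bound (c := 1) one_pos
    have h' := tendsto_natCast_atTop_atTop (R := ℝ) |>.eventually h
    filter_upwards [h'] with x hx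
    simp only [id_eq, one_mul] at hx
    rw [Real.norm_eq_abs, Real.norm_eq_abs, Nat.abs_cast] at hx
    exact (le_abs_self _).trans hx
  obtain ⟨x0, hx0⟩ := Filter.eventually_atTop.mp (e1.and e2)
  refine ⟨x0, ?_⟩
  intro x hx N hN hN2
  obtain ⟨hL, hxL⟩ := hx0 x hx
  set L : ℝ := Real.log x with hLdef
  have hL2 : 2 ≤ L := le_trans (le_trans (le_max_left _ _) (le_max_left _ _)) hL
  have hLB : (2 : ℝ) ^ (B + 1) ≤ L := le_trans (le_trans (le_max_right _ _) (le_max_left _ _)) hL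
  have hLC : C * 2 ^ (k + B + 2) ≤ L := le_trans (le_max_right _ _) hL
  have hL0 : 0 < L := by linarith
  have hxpos : (0 : ℝ) < x := lt_of_lt_of_le (by positivity) hxL
  have hx1 : 1 ≤ x := by
    have : (0 : ℝ) < x := hxpos
    exact_mod_cast this
  set K : ℝ := x / L ^ (k + B) with hKdef
  have hK0 : 0 ≤ K := by positivity
  -- the partial sums
  have hpart : ∀ c ∈ Ioc 1 ⌊L ^ B⌋₊, ∀ ψ ∈ Pch c, ∀ m : ℕ, m ≤ N →
      ‖∑ n ∈ Icc 1 m, ((Lam n : ℝ) : ℂ) * ψ (n : ZMod c)‖ ≤ K := by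
    intro c hc ψ hψ m hm
    rw [mem_Ioc] at hc
    rw [mem_Pch] at hψ
    have hcB : (c : ℝ) ≤ L ^ B := by
      refine le_trans (by exact_mod_cast hc.2) (Nat.floor_le (by positivity))
    by_cases hmx : m ^ 2 ≤ x
    · refine (chF_triv c ψ m).trans ?_
      rcases Nat.eq_zero_or_pos m with hm0 | hm0
      · subst hm0; simpa using hK0
      have hmR : (0 : ℝ) < m := by exact_mod_cast hm0
      have hmx' : (m : ℝ) ^ 2 ≤ x := by exact_mod_cast hmx
      have hm1 : (1 : ℝ) ≤ m := by exact_mod_cast hm0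
      have hlm : Real.log m ≤ L := by
        apply Real.log_le_log hmR
        nlinarith
      have hlm0 : 0 ≤ Real.log m := Real.log_nonneg hm1
      rw [hKdef, le_div_iff₀ (by positivity)]
      have h1 : m * Real.log m * L ^ (k + B) ≤ m * L ^ (k + B + 1) := by
        rw [pow_succ, mul_assoc]
        have : Real.log m * L ^ (k + B) ≤ L * L ^ (k + B) :=
          mul_le_mul_of_nonneg_right hlm (by positivity)
        nlinarith
      refine h1.trans ?_
      have h2 : (L ^ (k + B + 1)) ^ 2 ≤ x := by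
        rw [← pow_mul, mul_comm (k + B + 1) 2]; exact hxL
      have h3 : 0 ≤ L ^ (k + B + 1) := by positivity
      nlinarith [sq_nonneg ((m : ℝ) - L ^ (k + B + 1))]
    · rw [not_le] at hmx
      have hmx' : (x : ℝ) < (m : ℝ) ^ 2 := by exact_mod_cast hmx
      have hm0 : 0 < m := by
        rcases Nat.eq_zero_or_pos m with h | h
        · subst h; simp at hmx
        · exact h
      have hmR : (0 : ℝ) < m := by exact_mod_cast hm0
      have hlm : L / 2 ≤ Real.log m := by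
        have h1 : L ≤ Real.log ((m : ℝ) ^ 2) := Real.log_le_log hxpos hmx'.le
        rw [Real.log_pow] at h1
        push_cast at h1
        linarith
      have hlm0 : 0 < Real.log m := by linarith
      have hm2 : 2 ≤ m := by
        by_contra h
        have h1 : m = 1 := by omega
        rw [h1] at hlm0
        simp at hlm0
      have hcm : (c : ℝ) ≤ Real.log m ^ (B + 1) := by
        refine hcB.trans ?_
        have h1 : L ≤ 2 * Real.log m := by linarith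
        calc L ^ B ≤ (2 * Real.log m) ^ B := pow_le_pow_left₀ hL0.le h1 B
          _ = 2 ^ B * Real.log m ^ B := by rw [mul_pow]
          _ ≤ Real.log m * Real.log m ^ B := by
            refine mul_le_mul_of_nonneg_right ?_ (by positivity)
            have : (2 : ℝ) ^ (B + 1) = 2 * 2 ^ B := by rw [pow_succ]; ring
            linarith
          _ = Real.log m ^ (B + 1) := by rw [pow_succ]; ring
      refine (hSW c (by omega) ψ hψ m hm2 hcm).trans ?_
      have hm2x : (m : ℝ) ≤ 2 * x := by exact_mod_cast hm.trans hN2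
      have hd : (L / 2) ^ (k + B + 1) ≤ Real.log m ^ (k + B + 1) :=
        pow_le_pow_left₀ (by positivity) hlm _
      calc C * m / Real.log m ^ (k + B + 1) ≤ C * (2 * x) / (L / 2) ^ (k + B + 1) := by
            gcongr
        _ = (C * 2 ^ (k + B + 2)) * x / (L ^ (k + B) * L) := by
            rw [div_pow, ← pow_succ]
            field_simp
            ring
        _ ≤ L * x / (L ^ (k + B) * L) := by gcongr
        _ = K := by rw [hKdef]; field_simp
  have hTT : ∀ c ∈ Ioc 1 ⌊L ^ B⌋₊, ∀ ψ ∈ Pch c, ‖TT N 0 (fun n => ψ (n : ZMod c))‖ ≤ K := by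
    intro c hc ψ hψ
    have h := chF_abel N hN (fun n => ((Lam n : ℝ) : ℂ) * ψ (n : ZMod c)) K (hpart c hc ψ hψ)
    have he : TT N 0 (fun n => ψ (n : ZMod c)) = ∑ n ∈ Icc 1 N,
        (((Lam n : ℝ) : ℂ) * ψ (n : ZMod c)) * ((om ((n : ℝ) / N) : ℝ) : ℂ) := by
      unfold TT W Lam
      refine sum_congr rfl fun n _ => ?_
      rw [pow_zero, mul_one, mul_assoc]
    rw [he]
    exact h
  have hc1 : ∀ c ∈ Ioc 1 ⌊L ^ B⌋₊, (1 / (c.totient : ℝ)) *
      ∑ ψ ∈ Pch c, ‖TT N 0 (fun n => ψ (n : ZMod c))‖ ≤ K := by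
    intro c hc
    have hcc := mem_Ioc.mp hc
    have hφ : (0 : ℝ) < c.totient := by
      exact_mod_cast Nat.totient_pos.mpr (by omega)
    have h1 : ∑ ψ ∈ Pch c, ‖TT N 0 (fun n => ψ (n : ZMod c))‖ ≤ c.totient * K := by
      calc _ ≤ (Pch c).card • K := sum_le_card_nsmul _ _ _ (hTT c hc)
        _ = (Pch c).card * K := nsmul_eq_mul _ _
        _ ≤ _ := mul_le_mul_of_nonneg_right (chF_card (by omega)) hK0
    calc _ ≤ (1 / (c.totient : ℝ)) * (c.totient * K) :=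
          mul_le_mul_of_nonneg_left h1 (by positivity)
      _ = K := by field_simp
  calc _ ≤ ∑ c ∈ Ioc 1 ⌊L ^ B⌋₊, K := sum_le_sum hc1
    _ = ((⌊L ^ B⌋₊ - 1 : ℕ) : ℝ) * K := by rw [sum_const, Nat.card_Ioc, nsmul_eq_mul]
    _ ≤ L ^ B * K := by
      refine mul_le_mul_of_nonneg_right ?_ hK0
      refine le_trans ?_ (Nat.floor_le (by positivity : (0:ℝ) ≤ L ^ B))
      exact_mod_cast Nat.sub_le _ _
    _ = x / L ^ k := by
      rw [hKdef, pow_add]
      field_simp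

end Pool.Agent.H91.EHA

end

section

/-!
# The smoothed statement, range `Q² ≤ H x^{1-ε}`, for arbitrary sets of residue classes

Adapted from `TwoA` (by helper45).
-/

set_option autoImplicit false

namespace Pool.Agent.H91.EHA

open Finset
open Pool.Agent.H91.PK

/-- A family of residues: at most `H` for each modulus, small multiplicities on average. -/
def Fam (x Q : ℕ) (ε H : ℝ) (S : ℕ → Finset ℕ) : Prop :=
  (∀ q ∈ Ioc Q (2 * Q), ((S q).card : ℝ) ≤ H) ∧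
    ∑ q ∈ Ioc Q (2 * Q), ((((S q) ×ˢ (S q)).filter (fun p => p.1 ≡ p.2 [MOD q])).card : ℝ)
      ≤ (Q * H + H ^ 2) * (x : ℝ) ^ (ε / 8)

private theorem gtwoA_ev (K s : ℝ) (n : ℕ) (hs : 0 < s) :
    ∀ᶠ x : ℕ in Filter.atTop, K * Real.log x ^ n ≤ (x : ℝ) ^ s := by
  have h1 : (fun x : ℝ => Real.log x ^ (n : ℝ)) =o[Filter.atTop] fun x => x ^ s :=
    isLittleO_log_rpow_rpow_atTop _ hs
  have h2 := h1.comp_tendsto tendsto_natCast_atTop_atTop
  have h3 := h2.bound (show (0 : ℝ) < 1 / (|K| + 1) by positivity)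
  filter_upwards [h3, Filter.eventually_ge_atTop 1] with x hx hx1
  have hx1' : (1 : ℝ) ≤ x := by exact_mod_cast hx1
  have hlog : 0 ≤ Real.log x := Real.log_nonneg hx1'
  simp only [Function.comp_apply, Real.rpow_natCast, Real.norm_eq_abs] at hx
  rw [abs_of_nonneg (pow_nonneg hlog n), abs_of_nonneg (Real.rpow_nonneg (by linarith only [hx1']) s)] at hx
  have h4 : 0 ≤ Real.log x ^ n := pow_nonneg hlog n
  calc K * Real.log x ^ n ≤ (|K| + 1) * Real.log x ^ n :=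
        mul_le_mul_of_nonneg_right (by linarith only [le_abs_self K]) h4
    _ ≤ (|K| + 1) * (1 / (|K| + 1) * (x : ℝ) ^ s) :=
        mul_le_mul_of_nonneg_left hx (by positivity)
    _ = (x : ℝ) ^ s := by
        rw [← mul_assoc, mul_one_div_cancel (by positivity), one_mul]

/-- The part of the character expansion with the characters in `X`. -/
private noncomputable def gtwoA_E (N q : ℕ) (X : Finset (DirichletCharacter ℂ q)) (a : ℕ) : ℝ :=
  ‖(1 / (q.totient : ℂ)) * ∑ χ ∈ X, χ⁻¹ (a : ZMod q) * TT N 0 (fun n => χ (n : ZMod q))‖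

private theorem gtwoA_split (N q a D : ℕ) (hq : 1 ≤ q) (ha : Nat.Coprime a q) :
    |Eom N q a| ≤ gtwoA_E N q ((Nch q).filter (fun χ => χ.conductor ≤ D)) a +
      gtwoA_E N q ((Nch q).filter (fun χ => D < χ.conductor)) a := by
  have h1 : |Eom N q a| = ‖((Eom N q a : ℝ) : ℂ)‖ := by
    rw [Complex.norm_real, Real.norm_eq_abs]
  have h2 : (Nch q).filter (fun χ => D < χ.conductor) =
      (Nch q).filter (fun χ => ¬ χ.conductor ≤ D) := by
    apply Finset.filter_congr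
    intro χ _
    rw [not_le]
  rw [h1, Eom_eq N q a hq ha, h2, ← Finset.sum_filter_add_sum_filter_not (Nch q)
    (fun χ => χ.conductor ≤ D), mul_add]
  exact norm_add_le _ _

private theorem gtwoA_E_nonneg (N q : ℕ) (X : Finset (DirichletCharacter ℂ q)) (a : ℕ) :
    0 ≤ gtwoA_E N q X a := norm_nonneg _

private theorem gtwoA_E_le (N q : ℕ) (X : Finset (DirichletCharacter ℂ q)) (a : ℕ) :
    gtwoA_E N q X a ≤
      (1 / (q.totient : ℝ)) * ∑ χ ∈ X, ‖TT N 0 (fun n => χ (n : ZMod q))‖ := by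
  unfold gtwoA_E
  rw [norm_mul]
  have h1 : ‖(1 / (q.totient : ℂ))‖ = 1 / (q.totient : ℝ) := by
    rw [norm_div, norm_one, Complex.norm_natCast]
  rw [h1]
  refine mul_le_mul_of_nonneg_left ?_ (by positivity)
  refine (norm_sum_le _ _).trans (Finset.sum_le_sum fun χ _ => ?_)
  rw [norm_mul]
  calc ‖χ⁻¹ (a : ZMod q)‖ * ‖TT N 0 (fun n => χ (n : ZMod q))‖
      ≤ 1 * ‖TT N 0 (fun n => χ (n : ZMod q))‖ :=
        mul_le_mul_of_nonneg_right (DirichletCharacter.norm_le_one _ _) (norm_nonneg _)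
    _ = _ := one_mul _

private theorem gtwoA_small (N Q D : ℕ) (H : ℝ) (S : ℕ → Finset ℕ)
    (hS : ∀ q ∈ Ioc Q (2 * Q), ((S q).card : ℝ) ≤ H) :
    ∑ q ∈ Ioc Q (2 * Q), ∑ a ∈ (S q).filter (fun a => Nat.Coprime a q),
        gtwoA_E N q ((Nch q).filter (fun χ => χ.conductor ≤ D)) a ≤
      H * ∑ q ∈ Ioc Q (2 * Q), (1 / (q.totient : ℝ)) *
        ∑ χ ∈ (Nch q).filter (fun χ => χ.conductor ≤ D), ‖TT N 0 (fun n => χ (n : ZMod q))‖ := by
  rw [Finset.mul_sum]
  refine Finset.sum_le_sum fun q hq => ?_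
  have h1 : (((S q).filter (fun a => Nat.Coprime a q)).card : ℝ) ≤ H := by
    refine le_trans ?_ (hS q hq)
    exact_mod_cast Finset.card_filter_le _ _
  refine (Finset.sum_le_card_nsmul _ _ _ fun a _ => gtwoA_E_le N q _ a).trans ?_
  rw [nsmul_eq_mul]
  exact mul_le_mul_of_nonneg_right h1 (by positivity)

/-- Cauchy-Schwarz with multiplicities. -/
private theorem gtwoA_msq (N Q D : ℕ) (hQ : 1 ≤ Q) (S : ℕ → Finset ℕ) :
    (∑ q ∈ Ioc Q (2 * Q), ∑ a ∈ (S q).filter (fun a => Nat.Coprime a q),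
        gtwoA_E N q ((Nch q).filter (fun χ => D < χ.conductor)) a) ^ 2 ≤
      (∑ q ∈ Ioc Q (2 * Q),
        ((((S q) ×ˢ (S q)).filter (fun p => p.1 ≡ p.2 [MOD q])).card : ℝ)) *
      ∑ q ∈ Ioc Q (2 * Q), (1 / (q.totient : ℝ)) *
        ∑ χ ∈ (Nch q).filter (fun χ => D < χ.conductor),
          ‖TT N 0 (fun n => χ (n : ZMod q))‖ ^ 2 := by
  set E : ℕ → ℕ → ℝ := fun q a => gtwoA_E N q ((Nch q).filter (fun χ => D < χ.conductor)) a
    with hE
  set m : ℕ → ℕ → ℝ := fun q r =>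
    ((((S q).filter (fun a => Nat.Coprime a q)).filter (fun a => a % q = r)).card : ℝ) with hm
  have h0 : ∀ q ∈ Ioc Q (2 * Q), ∑ a ∈ (S q).filter (fun a => Nat.Coprime a q), E q a =
      ∑ r ∈ (range q).filter (fun a => Nat.Coprime a q), m q r * E q r := by
    intro q hq
    have hq1 : 1 ≤ q := by
      rw [Finset.mem_Ioc] at hq
      omega
    have h1 : ∀ a, E q a = E q (a % q) := by
      intro a
      simp only [hE]
      unfold gtwoA_E
      rw [ZMod.natCast_mod]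
    have hmaps : ∀ a ∈ (S q).filter (fun a => Nat.Coprime a q),
        a % q ∈ (range q).filter (fun a => Nat.Coprime a q) := by
      intro a ha
      rw [Finset.mem_filter] at ha ⊢
      refine ⟨Finset.mem_range.2 (Nat.mod_lt _ hq1), ?_⟩
      show Nat.gcd (a % q) q = 1
      rw [← Nat.gcd_rec q a, Nat.gcd_comm]
      exact ha.2
    rw [Finset.sum_congr rfl fun a _ => h1 a,
      ← Finset.sum_fiberwise_of_maps_to hmaps (fun a => E q (a % q))]
    refine Finset.sum_congr rfl fun r _ => ?_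
    have h3 : ∀ a ∈ ((S q).filter (fun a => Nat.Coprime a q)).filter
        (fun a => a % q = r), E q (a % q) = E q r := by
      intro a ha
      rw [(Finset.mem_filter.1 ha).2]
    rw [Finset.sum_congr rfl h3, Finset.sum_const, nsmul_eq_mul]
  rw [Finset.sum_congr rfl h0]
  -- Cauchy-Schwarz
  have h4 : (∑ q ∈ Ioc Q (2 * Q), ∑ r ∈ (range q).filter (fun a => Nat.Coprime a q),
      m q r * E q r) ^ 2 ≤
      (∑ q ∈ Ioc Q (2 * Q), ∑ r ∈ (range q).filter (fun a => Nat.Coprime a q), m q r ^ 2) *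
      ∑ q ∈ Ioc Q (2 * Q), ∑ r ∈ (range q).filter (fun a => Nat.Coprime a q), E q r ^ 2 := by
    rw [Finset.sum_sigma', Finset.sum_sigma', Finset.sum_sigma']
    exact Finset.sum_mul_sq_le_sq_mul_sq _ _ _
  refine h4.trans ?_
  have h5 : ∑ q ∈ Ioc Q (2 * Q), ∑ r ∈ (range q).filter (fun a => Nat.Coprime a q),
      E q r ^ 2 = ∑ q ∈ Ioc Q (2 * Q), (1 / (q.totient : ℝ)) *
        ∑ χ ∈ (Nch q).filter (fun χ => D < χ.conductor),
          ‖TT N 0 (fun n => χ (n : ZMod q))‖ ^ 2 := by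
    refine Finset.sum_congr rfl fun q hq => ?_
    have hq1 : 1 ≤ q := by
      rw [Finset.mem_Ioc] at hq
      omega
    exact char_msq q hq1 _ (fun χ => TT N 0 (fun n => χ (n : ZMod q)))
  rw [h5]
  refine mul_le_mul_of_nonneg_right ?_ (Finset.sum_nonneg fun q _ => by positivity)
  refine Finset.sum_le_sum fun q hq => ?_
  -- `∑_r m(r)² ≤` number of congruent pairs
  have h6 : ∀ r ∈ (range q).filter (fun a => Nat.Coprime a q), m q r ^ 2 ≤
      (((((S q) ×ˢ (S q)).filter (fun p => p.1 ≡ p.2 [MOD q])).filter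
        (fun p => p.1 % q = r)).card : ℝ) := by
    intro r _
    have h7 : (((S q).filter (fun a => Nat.Coprime a q)).filter (fun a => a % q = r)) ×ˢ
        (((S q).filter (fun a => Nat.Coprime a q)).filter (fun a => a % q = r)) ⊆
        (((S q) ×ˢ (S q)).filter (fun p => p.1 ≡ p.2 [MOD q])).filter
        (fun p => p.1 % q = r) := by
      intro p hp
      rw [Finset.mem_product, Finset.mem_filter, Finset.mem_filter, Finset.mem_filter,
        Finset.mem_filter] at hp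
      rw [Finset.mem_filter, Finset.mem_filter, Finset.mem_product]
      exact ⟨⟨⟨hp.1.1.1, hp.2.1.1⟩, hp.1.2.trans hp.2.2.symm⟩, hp.1.2⟩
    have h8 := Finset.card_le_card h7
    rw [Finset.card_product] at h8
    simp only [hm]
    calc ((((S q).filter (fun a => Nat.Coprime a q)).filter (fun a => a % q = r)).card : ℝ) ^ 2
        = (((((S q).filter (fun a => Nat.Coprime a q)).filter (fun a => a % q = r)).card *
          (((S q).filter (fun a => Nat.Coprime a q)).filter (fun a => a % q = r)).card : ℕ) : ℝ) := by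
            push_cast; ring
      _ ≤ _ := by exact_mod_cast h8
  refine (Finset.sum_le_sum h6).trans ?_
  have h9 : ∑ r ∈ (range q).filter (fun a => Nat.Coprime a q),
      ((((S q) ×ˢ (S q)).filter (fun p => p.1 ≡ p.2 [MOD q])).filter
        (fun p => p.1 % q = r)).card ≤
      (((S q) ×ˢ (S q)).filter (fun p => p.1 ≡ p.2 [MOD q])).card := by
    rw [← Finset.card_biUnion]
    · refine Finset.card_le_card ?_
      intro p hp
      rw [Finset.mem_biUnion] at hp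
      obtain ⟨r, _, hr⟩ := hp
      exact (Finset.mem_filter.1 hr).1
    · intro r _ r' _ hrr'
      rw [Function.onFun, Finset.disjoint_left]
      intro p hp hp'
      exact hrr' ((Finset.mem_filter.1 hp).2.symm.trans (Finset.mem_filter.1 hp').2)
  exact_mod_cast h9

private theorem gtwoA_S (f : ℕ → ℝ) (hf : ∀ c, 0 ≤ f c) (M D : ℕ) :
    ∑ c ∈ Ioc 1 D, f c ≤ ∑ c ∈ Ioc 1 M, f c + ∑ c ∈ Ioc M D, f c := by
  rw [← Finset.sum_filter_add_sum_filter_not (Ioc 1 D) (fun c => c ≤ M)]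
  refine add_le_add (Finset.sum_le_sum_of_subset_of_nonneg ?_ fun i _ _ => hf i)
    (Finset.sum_le_sum_of_subset_of_nonneg ?_ fun i _ _ => hf i)
  · intro c hc
    rw [Finset.mem_filter, Finset.mem_Ioc] at hc
    exact Finset.mem_Ioc.2 ⟨hc.1.1, hc.2⟩
  · intro c hc
    rw [Finset.mem_filter, Finset.mem_Ioc] at hc
    exact Finset.mem_Ioc.2 ⟨not_le.1 hc.2, hc.1.2⟩

/-- The numerical inequality behind the large conductors. -/
private theorem gtwoA_num (X H Q θ ε : ℝ) (hX : 1 ≤ X) (hQ0 : 0 ≤ Q) (hQ : Q ≤ X ^ θ)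
    (hH : 1 ≤ H) (hQH : Q ^ 2 ≤ H * X ^ (1 - ε)) (hε : 0 < ε) (hε2 : ε ≤ 1 / 2)
    (hεθ : ε ≤ 1 - θ) :
    (H + Q) * (X ^ (1 / 2 + ε / 4) + Q) * X ^ (ε / 8) ≤ 4 * (H * X ^ (1 - ε / 8)) := by
  have hX0 : 0 < X := by linarith only [hX, hε, hε2]
  have hH0 : 0 ≤ H := by linarith only [hH, hε, hε2]
  have hmul : ∀ a b : ℝ, X ^ a * X ^ b = X ^ (a + b) := fun a b => (Real.rpow_add hX0 a b).symm
  have hmono : ∀ a b : ℝ, a ≤ b → X ^ a ≤ X ^ b := fun a b h =>
    Real.rpow_le_rpow_of_exponent_le hX h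
  have h1 : H * X ^ (1 / 2 + ε / 4) * X ^ (ε / 8) ≤ H * X ^ (1 - ε / 8) := by
    rw [mul_assoc, hmul]
    exact mul_le_mul_of_nonneg_left (hmono _ _ (by linarith only [hε, hε2])) hH0
  have h2 : H * Q * X ^ (ε / 8) ≤ H * X ^ (1 - ε / 8) := by
    rw [mul_assoc]
    refine mul_le_mul_of_nonneg_left ?_ hH0
    calc Q * X ^ (ε / 8) ≤ X ^ θ * X ^ (ε / 8) :=
          mul_le_mul_of_nonneg_right hQ (Real.rpow_nonneg hX0.le _)
      _ = X ^ (θ + ε / 8) := hmul _ _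
      _ ≤ X ^ (1 - ε / 8) := hmono _ _ (by linarith only [hε, hεθ])
  have h3 : Q ^ 2 * X ^ (ε / 8) ≤ H * X ^ (1 - ε / 8) := by
    calc Q ^ 2 * X ^ (ε / 8) ≤ H * X ^ (1 - ε) * X ^ (ε / 8) :=
          mul_le_mul_of_nonneg_right hQH (Real.rpow_nonneg hX0.le _)
      _ = H * X ^ (1 - ε + ε / 8) := by rw [mul_assoc, hmul]
      _ ≤ H * X ^ (1 - ε / 8) := mul_le_mul_of_nonneg_left (hmono _ _ (by linarith only [hε])) hH0
  have hQ' : Q ≤ H * X ^ ((1 - ε) / 2) := by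
    have h5 : Q ^ 2 ≤ (H * X ^ ((1 - ε) / 2)) ^ 2 := by
      calc Q ^ 2 ≤ H * X ^ (1 - ε) := hQH
        _ ≤ H ^ 2 * X ^ (1 - ε) := by
            refine mul_le_mul_of_nonneg_right ?_ (Real.rpow_nonneg hX0.le _)
            nlinarith only [hH]
        _ = (H * X ^ ((1 - ε) / 2)) ^ 2 := by
            rw [mul_pow, ← Real.rpow_natCast (X ^ ((1 - ε) / 2)), ← Real.rpow_mul hX0.le]
            congr 2
            push_cast
            ring
    exact (pow_le_pow_iff_left₀ hQ0 (mul_nonneg hH0 (Real.rpow_nonneg hX0.le _))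
      (by norm_num : (2 : ℕ) ≠ 0)).1 h5
  have h4 : Q * X ^ (1 / 2 + ε / 4) * X ^ (ε / 8) ≤ H * X ^ (1 - ε / 8) := by
    rw [mul_assoc, hmul]
    calc Q * X ^ (1 / 2 + ε / 4 + ε / 8)
        ≤ H * X ^ ((1 - ε) / 2) * X ^ (1 / 2 + ε / 4 + ε / 8) :=
          mul_le_mul_of_nonneg_right hQ' (Real.rpow_nonneg hX0.le _)
      _ = H * X ^ ((1 - ε) / 2 + (1 / 2 + ε / 4 + ε / 8)) := by rw [mul_assoc, hmul]
      _ ≤ H * X ^ (1 - ε / 8) := mul_le_mul_of_nonneg_left (hmono _ _ (by linarith only)) hH0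
  calc (H + Q) * (X ^ (1 / 2 + ε / 4) + Q) * X ^ (ε / 8)
      = H * X ^ (1 / 2 + ε / 4) * X ^ (ε / 8) + H * Q * X ^ (ε / 8) +
        Q * X ^ (1 / 2 + ε / 4) * X ^ (ε / 8) + Q ^ 2 * X ^ (ε / 8) := by ring
    _ ≤ _ := by linarith only [h1, h2, h3, h4]

theorem gtwo_om (θ ε : ℝ) (hθ : θ < 1) (hε : 0 < ε) (hε2 : ε ≤ 1 / 2) (hεθ : ε ≤ 1 - θ) (c : ℕ) :
    ∃ x0 : ℕ, ∀ x : ℕ, x0 ≤ x →
    ∀ N Q : ℕ, ∀ H : ℝ, ∀ S : ℕ → Finset ℕ, 1 ≤ N → N ≤ 2 * x → 1 ≤ Q →
      (Q : ℝ) ≤ (x : ℝ) ^ θ → 1 ≤ H → Fam x Q ε H S →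
      (Q : ℝ) ^ 2 ≤ H * (x : ℝ) ^ (1 - ε) →
      ∑ q ∈ Ioc Q (2 * Q), ∑ a ∈ (S q).filter (fun a => Nat.Coprime a q),
        |Eom N q a| ≤ H * x / Real.log x ^ c := by
  obtain ⟨e, he⟩ : ∃ e : ℝ, e = ε := ⟨_, rfl⟩
  have he0 : 0 < e := by rw [he]; exact hε
  have he1 : e ≤ 1 / 2 := by rw [he]; exact hε2
  obtain ⟨η, hη⟩ : ∃ η : ℝ, η = ε / 8 := ⟨_, rfl⟩
  have hη0 : 0 < η := by rw [hη]; linarith only [hε]
  obtain ⟨B, x1, hmed⟩ := medium (e / 4) (by linarith only [hε, he]) (c + 3)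
  obtain ⟨x2, hsm⟩ := small_cond' B (c + 3)
  obtain ⟨C1, hC1, hA⟩ := sum_small_cond
  obtain ⟨C2, hC2, hB⟩ := sum_large_cond
  obtain ⟨C3, hC3, hC⟩ := large_msq
  have hlogt : Filter.Tendsto (fun x : ℕ => Real.log (x : ℝ)) Filter.atTop Filter.atTop :=
    Real.tendsto_log_atTop.comp tendsto_natCast_atTop_atTop
  have hev : ∀ᶠ x : ℕ in Filter.atTop, x1 ≤ x ∧ x2 ≤ x ∧ 1 ≤ x ∧ 1 ≤ Real.log x ∧
      32 * C1 ≤ Real.log x ∧ 24 * C1 * Real.log x ^ (c + 2) ≤ (x : ℝ) ^ (1 - θ) ∧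
      (576 * C2 * (8 * C3 + 1)) * Real.log x ^ (2 * c + 4) ≤ (x : ℝ) ^ η := by
    filter_upwards [Filter.eventually_ge_atTop x1, Filter.eventually_ge_atTop x2,
      Filter.eventually_ge_atTop 1, hlogt.eventually_ge_atTop 1,
      hlogt.eventually_ge_atTop (32 * C1), gtwoA_ev (24 * C1) (1 - θ) (c + 2) (by linarith only [hθ]),
      gtwoA_ev (576 * C2 * (8 * C3 + 1)) η (2 * c + 4) hη0] with x a1 a2 a3 a4 a5 a6 a7
    exact ⟨a1, a2, a3, a4, a5, a6, a7⟩
  obtain ⟨x0, hx0⟩ := Filter.eventually_atTop.1 hev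
  refine ⟨x0, fun x hx N Q H S hN hN2 hQ hQx hH1 hFam hQH => ?_⟩
  obtain ⟨hx1, hx2, hx3, hL1, hL2, hL3, hL4⟩ := hx0 x hx
  have hX1 : (1 : ℝ) ≤ x := by exact_mod_cast hx3
  have hX0 : (0 : ℝ) < x := by linarith only [hX1]
  have hQ1 : (1 : ℝ) ≤ Q := by exact_mod_cast hQ
  have hN1 : (1 : ℝ) ≤ N := by exact_mod_cast hN
  have hN2' : (N : ℝ) ≤ 2 * x := by exact_mod_cast hN2
  have hH0 : (0 : ℝ) ≤ H := by linarith only [hH1]
  obtain ⟨L, hL⟩ : ∃ L : ℝ, L = Real.log x := ⟨_, rfl⟩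
  rw [← hL] at hL1 hL2 hL3 hL4 ⊢
  have hL0 : 0 < L := by linarith only [hC1, hL2]
  have hlQ0 : 0 ≤ Real.log Q := Real.log_nonneg hQ1
  have hlN0 : 0 ≤ Real.log N := Real.log_nonneg hN1
  have hQX : (Q : ℝ) ≤ x := hQx.trans (by
    calc (x : ℝ) ^ θ ≤ (x : ℝ) ^ (1 : ℝ) := Real.rpow_le_rpow_of_exponent_le hX1 hθ.le
      _ = x := Real.rpow_one _)
  have hlQ : 1 + Real.log Q ≤ 2 * L := by
    have := Real.log_le_log (by linarith only [hQ1]) hQX
    rw [← hL] at this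
    linarith only [hL1, this]
  have hlN : 1 + Real.log N ≤ 3 * L := by
    have h1 := Real.log_le_log (by linarith only [hN1]) hN2'
    rw [Real.log_mul (by norm_num) hX0.ne', ← hL] at h1
    have h2 : Real.log 2 ≤ 1 := by
      have := Real.log_two_lt_d9
      linarith only [hε2, hη, hη0, this]
    linarith only [hL1, h1, h2]
  -- the level
  obtain ⟨Y0, hY0⟩ : ∃ Y0 : ℝ, Y0 = (x : ℝ) ^ (1 / 2 - e / 4) := ⟨_, rfl⟩
  have hY1 : 1 ≤ Y0 := by
    rw [hY0]
    exact Real.one_le_rpow hX1 (by linarith only [hε2, he])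
  obtain ⟨D, hD⟩ : ∃ D : ℕ, D = ⌊Y0⌋₊ := ⟨_, rfl⟩
  have hD1 : 1 ≤ D := by
    rw [hD]
    exact Nat.le_floor (by exact_mod_cast hY1)
  have hDle : (D : ℝ) ≤ Y0 := by
    rw [hD]
    exact Nat.floor_le (by linarith only [hY1])
  have hDge : Y0 / 2 ≤ D := by
    have h1 : Y0 < D + 1 := by rw [hD]; exact Nat.lt_floor_add_one Y0
    have h2 : (1 : ℝ) ≤ D := by exact_mod_cast hD1
    linarith only [h1, h2]
  have hDpos : (0 : ℝ) < D := by
    have : (1 : ℝ) ≤ D := by exact_mod_cast hD1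
    linarith only [hε2, hη, hη0, this]
  -- splitting
  have hsplit : ∑ q ∈ Ioc Q (2 * Q), ∑ a ∈ (S q).filter (fun a => Nat.Coprime a q),
      |Eom N q a| ≤
      ∑ q ∈ Ioc Q (2 * Q), ∑ a ∈ (S q).filter (fun a => Nat.Coprime a q),
        gtwoA_E N q ((Nch q).filter (fun χ => χ.conductor ≤ D)) a +
      ∑ q ∈ Ioc Q (2 * Q), ∑ a ∈ (S q).filter (fun a => Nat.Coprime a q),
        gtwoA_E N q ((Nch q).filter (fun χ => D < χ.conductor)) a := by
    rw [← Finset.sum_add_distrib]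
    refine Finset.sum_le_sum fun q hq => ?_
    rw [← Finset.sum_add_distrib]
    refine Finset.sum_le_sum fun a ha => ?_
    rw [Finset.mem_Ioc] at hq
    exact gtwoA_split N q a D (by omega) (Finset.mem_filter.1 ha).2
  -- small conductors
  have hS : ∑ c' ∈ Ioc 1 D, (1 / (c'.totient : ℝ)) *
      ∑ ψ ∈ Pch c', ‖TT N 0 (fun n => ψ (n : ZMod c'))‖ ≤ 2 * (x / L ^ (c + 3)) := by
    refine (gtwoA_S _ (fun c' => by positivity) ⌊L ^ B⌋₊ D).trans ?_
    have h1 := hsm x hx2 N hN hN2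
    have h2 := hmed x hx1 N D hN hN2 (by rw [← hY0]; exact hDle)
    rw [← hL] at h1 h2
    linarith only [h1, h2]
  have hsmall : ∑ q ∈ Ioc Q (2 * Q), ∑ a ∈ (S q).filter (fun a => Nat.Coprime a q),
        gtwoA_E N q ((Nch q).filter (fun χ => χ.conductor ≤ D)) a ≤ H * x / L ^ c / 2 := by
    refine (gtwoA_small N Q D H S hFam.1).trans ?_
    have h1 := hA N Q D hN hQ hD1
    have h2 : C1 * (1 + Real.log Q) ^ 2 * (∑ c' ∈ Ioc 1 D, (1 / (c'.totient : ℝ)) *
        ∑ ψ ∈ Pch c', ‖TT N 0 (fun n => ψ (n : ZMod c'))‖) ≤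
        C1 * (2 * L) ^ 2 * (2 * (x / L ^ (c + 3))) := by
      refine mul_le_mul ?_ hS (Finset.sum_nonneg fun c' _ => by positivity) (by positivity)
      exact mul_le_mul_of_nonneg_left (pow_le_pow_left₀ (by linarith only [hlQ0]) hlQ 2) hC1.le
    have h3 : C1 * (2 * L) ^ 2 * (2 * (x / L ^ (c + 3))) ≤ x / L ^ c / 4 := by
      have h4 : C1 * (2 * L) ^ 2 * (2 * (x / L ^ (c + 3))) = (8 * C1 / L) * (x / L ^ c) := by
        have hL' := hL0.ne'
        field_simp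
        ring
      rw [h4]
      have h5 : 8 * C1 / L ≤ 1 / 4 := by
        rw [div_le_iff₀ hL0]
        linarith only [hL2]
      calc (8 * C1 / L) * (x / L ^ c) ≤ (1 / 4) * (x / L ^ c) :=
            mul_le_mul_of_nonneg_right h5 (by positivity)
        _ = x / L ^ c / 4 := by ring
    have h6 : C1 * Q * (1 + Real.log N) * (1 + Real.log Q) ≤ x / L ^ c / 4 := by
      have h7 : C1 * Q * (1 + Real.log N) * (1 + Real.log Q) ≤
          C1 * (x : ℝ) ^ θ * (3 * L) * (2 * L) := by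
        gcongr
      have h8 : C1 * (x : ℝ) ^ θ * (3 * L) * (2 * L) ≤ x / L ^ c / 4 := by
        rw [div_div, le_div_iff₀ (by positivity)]
        calc C1 * (x : ℝ) ^ θ * (3 * L) * (2 * L) * (L ^ c * 4) =
              (x : ℝ) ^ θ * (24 * C1 * L ^ (c + 2)) := by ring
          _ ≤ (x : ℝ) ^ θ * (x : ℝ) ^ (1 - θ) :=
              mul_le_mul_of_nonneg_left hL3 (Real.rpow_nonneg hX0.le _)
          _ = x := by
              rw [← Real.rpow_add hX0, show θ + (1 - θ) = 1 by ring, Real.rpow_one]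
      exact h7.trans h8
    calc (H : ℝ) * _ ≤ H * (x / L ^ c / 4 + x / L ^ c / 4) :=
          mul_le_mul_of_nonneg_left (by linarith only [h1, h2, h3, h6]) hH0
      _ = H * x / L ^ c / 2 := by ring
  -- large conductors
  have hlarge : ∑ q ∈ Ioc Q (2 * Q), ∑ a ∈ (S q).filter (fun a => Nat.Coprime a q),
        gtwoA_E N q ((Nch q).filter (fun χ => D < χ.conductor)) a ≤ H * x / L ^ c / 2 := by
    have h1 := gtwoA_msq N Q D hQ S
    have h2 := hB N Q D hN hQ hD1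
    have h3 := hC N Q D hN hQ hD1
    obtain ⟨Y, hY⟩ : ∃ Y : ℝ, Y = (x : ℝ) ^ (1 / 2 + e / 4) := ⟨_, rfl⟩
    have hYpos : 0 < Y := by rw [hY]; exact Real.rpow_pos_of_pos hX0 _
    have hND : (N : ℝ) / D ≤ 4 * Y := by
      rw [div_le_iff₀ hDpos]
      have h4 : Y * Y0 = x := by
        rw [hY, hY0, ← Real.rpow_add hX0, show (1 / 2 + e / 4) + (1 / 2 - e / 4) = (1 : ℝ) by ring,
          Real.rpow_one]
      have h5 : 4 * Y * (Y0 / 2) ≤ 4 * Y * D := mul_le_mul_of_nonneg_left hDge (by positivity)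
      have h6 : 4 * Y * (Y0 / 2) = 2 * x := by rw [← h4]; ring
      linarith only [hN2', h4, h5]
    have hlN9 : (1 + Real.log N) ^ 2 ≤ 9 * L ^ 2 := by
      calc (1 + Real.log N) ^ 2 ≤ (3 * L) ^ 2 := pow_le_pow_left₀ (by linarith only [hlN0]) hlN 2
        _ = 9 * L ^ 2 := by ring
    have hlQ4 : (1 + Real.log Q) ^ 2 ≤ 4 * L ^ 2 := by
      calc (1 + Real.log Q) ^ 2 ≤ (2 * L) ^ 2 := pow_le_pow_left₀ (by linarith only [hlQ0]) hlQ 2
        _ = 4 * L ^ 2 := by ring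
    have h4 : C3 * ((N : ℝ) / D + Q) * N * (1 + Real.log N) ^ 2 ≤
        C3 * (4 * Y + Q) * (2 * x) * (9 * L ^ 2) := by
      gcongr
    have hG : ∑ q ∈ Ioc Q (2 * Q), (1 / (q.totient : ℝ)) *
        ∑ χ ∈ (Nch q).filter (fun χ => D < χ.conductor),
          ‖TT N 0 (fun n => χ (n : ZMod q))‖ ^ 2 ≤
        36 * C2 * (8 * C3 + 1) * L ^ 4 * (Y + Q) * x := by
      refine h2.trans ?_
      have h5 : C2 * (1 + Real.log Q) ^ 2 * (∑ c ∈ Ioc D (2 * Q), (1 / (c.totient : ℝ)) *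
            ∑ ψ ∈ Pch c, ‖TT N 0 (fun n => ψ (n : ZMod c))‖ ^ 2) ≤
          C2 * (4 * L ^ 2) * (C3 * (4 * Y + Q) * (2 * x) * (9 * L ^ 2)) := by
        refine mul_le_mul ?_ (h3.trans h4) (Finset.sum_nonneg fun c' _ => by positivity)
          (by positivity)
        exact mul_le_mul_of_nonneg_left hlQ4 hC2.le
      have h6 : C2 * Q * (1 + Real.log N) ^ 2 * (1 + Real.log Q) ^ 2 ≤
          C2 * Q * (9 * L ^ 2) * (4 * L ^ 2) := by gcongr
      have h7 : C2 * (4 * L ^ 2) * (C3 * (4 * Y + Q) * (2 * x) * (9 * L ^ 2)) +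
          C2 * Q * (9 * L ^ 2) * (4 * L ^ 2) =
          36 * C2 * L ^ 4 * (C3 * (8 * Y + 2 * Q) * x + Q) := by ring
      have h8 : C3 * (8 * Y + 2 * Q) * x + Q ≤ (8 * C3 + 1) * ((Y + Q) * x) := by
        have h9 : C3 * (8 * Y + 2 * Q) * x ≤ 8 * C3 * ((Y + Q) * x) := by
          have : C3 * (8 * Y + 2 * Q) * x ≤ C3 * (8 * Y + 8 * Q) * x := by
            gcongr
            norm_num
          linarith only [this]
        have h10 : (Q : ℝ) ≤ (Y + Q) * x := by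
          nlinarith only [hQ1, hQX, hYpos]
        linarith only [h9, h10]
      calc _ ≤ 36 * C2 * L ^ 4 * (C3 * (8 * Y + 2 * Q) * x + Q) := by
            rw [← h7]; exact add_le_add h5 h6
        _ ≤ 36 * C2 * L ^ 4 * ((8 * C3 + 1) * ((Y + Q) * x)) :=
            mul_le_mul_of_nonneg_left h8 (by positivity)
        _ = _ := by ring
    have hnum := gtwoA_num x H Q θ ε hX1 (by linarith only []) hQx hH1 hQH hε hε2 hεθ
    rw [← he, ← hY, he, ← hη] at hnum
    have h5 : (∑ q ∈ Ioc Q (2 * Q), ∑ a ∈ (S q).filter (fun a => Nat.Coprime a q),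
        gtwoA_E N q ((Nch q).filter (fun χ => D < χ.conductor)) a) ^ 2 ≤
        (H * x / L ^ c / 2) ^ 2 := by
      refine h1.trans ?_
      have hE := hFam.2
      rw [← hη] at hE
      calc _ ≤ ((Q * H + H ^ 2) * (x : ℝ) ^ η) *
            (36 * C2 * (8 * C3 + 1) * L ^ 4 * (Y + Q) * x) :=
            mul_le_mul hE hG (Finset.sum_nonneg fun q _ => by positivity) (by positivity)
        _ = (H : ℝ) * (36 * C2 * (8 * C3 + 1) * L ^ 4 * x) * ((H + Q) * (Y + Q) * (x : ℝ) ^ η) := by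
            ring
        _ ≤ (H : ℝ) * (36 * C2 * (8 * C3 + 1) * L ^ 4 * x) * (4 * (H * (x : ℝ) ^ (1 - η))) :=
            mul_le_mul_of_nonneg_left hnum (by positivity)
        _ = (H ^ 2 * x / (4 * L ^ (2 * c))) * ((576 * C2 * (8 * C3 + 1) * L ^ (2 * c + 4)) *
              (x : ℝ) ^ (1 - η)) := by
            have hL' := hL0.ne'
            field_simp
            ring
        _ ≤ (H ^ 2 * x / (4 * L ^ (2 * c))) * ((x : ℝ) ^ η * (x : ℝ) ^ (1 - η)) := by
            refine mul_le_mul_of_nonneg_left ?_ (by positivity)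
            exact mul_le_mul_of_nonneg_right hL4 (Real.rpow_nonneg hX0.le _)
        _ = (H * x / L ^ c / 2) ^ 2 := by
            rw [← Real.rpow_add hX0, show η + (1 - η) = 1 by ring, Real.rpow_one]
            have hL' := hL0.ne'
            field_simp
            ring
    exact (pow_le_pow_iff_left₀ (Finset.sum_nonneg fun q _ => Finset.sum_nonneg
      fun a _ => gtwoA_E_nonneg _ _ _ _) (by positivity) (by norm_num : (2 : ℕ) ≠ 0)).1 h5
  calc _ ≤ H * x / L ^ c / 2 + H * x / L ^ c / 2 := hsplit.trans (add_le_add hsmall hlarge)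
    _ = H * x / L ^ c := by ring

end Pool.Agent.H91.EHA

end
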