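import Pool.Agent.H94.EH.H80.KF.Defs

/-! The parts of this file: H80.KF.Bas, H80.KF.Cau, H80.KF.Amp, H80.KF.Split, H80.KF.PPc, H80.KF.FejB, H80.KF.FejA. -/

section

/-!
# Basic facts on `ee` and `kf`

`iv q m` is the representative in `[0, q)` of the inverse of `m` mod `q` (`ZMod.mul_inv_eq_gcd`,
`ZMod.coe_mul_inv_eq_one`).  `kf_eq`: if `m y ≡ 1 (q)` then `iv q m ≡ y (q)`.
Reciprocity: `u ū_v + v v̄_u ≡ 1 (mod u v)`, so `ū_v / v + v̄_u / u - 1/(uv)` is an integer.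
`kf_crt`: `e(a m̄ /(cd)) = e(a (m d)^{-1}_c / c) e(a (m c)^{-1}_d / d)`, because
`d (md)^{-1}_c + c (mc)^{-1}_d ≡ m̄ (mod cd)`.
-/

set_option autoImplicit false

namespace Pool.Agent.H80.KF

open Finset

theorem ee_add (s t : ℝ) : ee (s + t) = ee s * ee t := by
  unfold ee
  rw [← Complex.exp_add]
  congr 1
  push_cast
  ring

theorem ee_zero : ee 0 = 1 := by
  unfold ee
  simp

theorem ee_int (k : ℤ) : ee (k : ℝ) = 1 := by
  unfold ee
  rw [← Complex.exp_int_mul_two_pi_mul_I k]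
  congr 1
  push_cast
  ring

theorem norm_ee (t : ℝ) : ‖ee t‖ = 1 := by
  unfold ee
  have : (2 * Real.pi * t * Complex.I : ℂ) = ((2 * Real.pi * t : ℝ) : ℂ) * Complex.I := by
    push_cast; ring
  rw [this, Complex.norm_exp_ofReal_mul_I]

theorem conj_ee (t : ℝ) : (starRingEnd ℂ) (ee t) = ee (-t) := by
  unfold ee
  rw [← Complex.exp_conj]
  congr 1
  simp only [map_mul, Complex.conj_I, Complex.conj_ofReal, map_ofNat]
  push_cast
  ring

theorem ee_lip (s t : ℝ) : ‖ee s - ee t‖ ≤ 2 * Real.pi * |s - t| := by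
  have h1 : ee s - ee t = ee t * (ee (s - t) - 1) := by
    rw [mul_sub, mul_one, ← ee_add, add_sub_cancel]
  have h2 : ee (s - t) = Complex.exp (Complex.I * ((2 * Real.pi * (s - t) : ℝ) : ℂ)) := by
    unfold ee
    congr 1
    push_cast
    ring
  rw [h1, norm_mul, norm_ee, one_mul, h2]
  refine (Real.norm_exp_I_mul_ofReal_sub_one_le (x := 2 * Real.pi * (s - t))).trans ?_
  rw [Real.norm_eq_abs, abs_mul, abs_of_pos (by positivity)]

theorem ee_eq_of_int {s t : ℝ} (k : ℤ) (h : s - t = k) : ee s = ee t := by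
  have h1 : s = t + (k : ℝ) := by linarith
  rw [h1, ee_add, ee_int, mul_one]

theorem norm_kf (q : ℕ) (a : ℤ) (m : ℕ) : ‖kf q a m‖ = 1 := norm_ee _

theorem iv_spec {q m : ℕ} (hq : 1 ≤ q) (h : Nat.Coprime m q) : (q : ℤ) ∣ m * (iv q m : ℤ) - 1 := by
  have : NeZero q := ⟨by omega⟩
  rw [← ZMod.intCast_zmod_eq_zero_iff_dvd]
  push_cast
  have h1 : ((iv q m : ℕ) : ZMod q) = (m : ZMod q)⁻¹ := by
    unfold iv
    exact ZMod.natCast_zmod_val _
  rw [h1, ZMod.coe_mul_inv_eq_one m h, sub_self]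

private theorem Bas_coprime {q m : ℕ} {y : ℤ} (h : (q : ℤ) ∣ m * y - 1) : Nat.Coprime m q := by
  rw [← Nat.isCoprime_iff_coprime]
  obtain ⟨k, hk⟩ := h
  exact ⟨y, -k, by linear_combination hk⟩

private theorem Bas_unique {q m : ℕ} {y z : ℤ} (hy : (q : ℤ) ∣ m * y - 1)
    (hz : (q : ℤ) ∣ m * z - 1) : (q : ℤ) ∣ y - z := by
  have hco : IsCoprime (q : ℤ) (m : ℤ) := (Nat.isCoprime_iff_coprime.2 (Bas_coprime hy)).symm
  have h1 : (q : ℤ) ∣ m * (y - z) := by
    have := dvd_sub hy hz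
    have e : (m : ℤ) * y - 1 - (m * z - 1) = m * (y - z) := by ring
    rwa [e] at this
  exact hco.dvd_of_dvd_mul_left h1

/-- any integer inverse may be used -/
theorem kf_eq {q m : ℕ} (hq : 1 ≤ q) (a y : ℤ) (h : (q : ℤ) ∣ m * y - 1) :
    kf q a m = ee ((a : ℝ) * y / q) := by
  obtain ⟨k, hk⟩ := Bas_unique (iv_spec hq (Bas_coprime h)) h
  have hq0 : (q : ℝ) ≠ 0 := by
    have : (1 : ℝ) ≤ q := by exact_mod_cast hq
    linarith
  apply ee_eq_of_int (a * k)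
  have hk' : (iv q m : ℝ) - (y : ℝ) = q * k := by exact_mod_cast hk
  rw [← sub_div, ← mul_sub, hk']
  push_cast
  field_simp

theorem kf_add (q : ℕ) (a b : ℤ) (m : ℕ) : kf q (a + b) m = kf q a m * kf q b m := by
  unfold kf
  rw [← ee_add]
  congr 1
  push_cast
  ring

theorem kf_neg (q : ℕ) (a : ℤ) (m : ℕ) : kf q (-a) m = (starRingEnd ℂ) (kf q a m) := by
  unfold kf
  rw [conj_ee]
  congr 1
  push_cast
  ring

theorem kf_congr {q m m' : ℕ} (hq : 1 ≤ q) {a a' : ℤ} (ha : (q : ℤ) ∣ a - a')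
    (hm : m ≡ m' [MOD q]) : kf q a m = kf q a' m' := by
  have h1 : (m : ZMod q) = (m' : ZMod q) := (ZMod.natCast_eq_natCast_iff m m' q).2 hm
  have h2 : iv q m = iv q m' := by
    unfold iv
    rw [h1]
  have hq0 : (q : ℝ) ≠ 0 := by
    have : (1 : ℝ) ≤ q := by exact_mod_cast hq
    linarith
  obtain ⟨k, hk⟩ := ha
  unfold kf
  rw [h2]
  apply ee_eq_of_int (k * iv q m')
  have hk' : (a : ℝ) - (a' : ℝ) = q * k := by exact_mod_cast hk
  rw [← sub_div, ← sub_mul, hk']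
  push_cast
  field_simp

theorem kf_mul_left {q c m : ℕ} (hq : 1 ≤ q) (a : ℤ) (hc : Nat.Coprime c q)
    (hm : Nat.Coprime m q) : kf q (a * c) (c * m) = kf q a m := by
  have h1 := iv_spec hq (Nat.Coprime.mul_left hc hm)
  have h2 : (q : ℤ) ∣ m * ((c : ℤ) * (iv q (c * m) : ℤ)) - 1 := by
    have e : (m : ℤ) * ((c : ℤ) * (iv q (c * m) : ℤ)) - 1 = ((c * m : ℕ) : ℤ) * (iv q (c * m) : ℤ) - 1 := by
      push_cast; ring
    rw [e]; exact h1
  rw [kf_eq hq a _ h2]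
  unfold kf
  congr 1
  push_cast
  ring

/-- reciprocity -/
theorem kf_recip {u v : ℕ} (hu : 1 ≤ u) (hv : 1 ≤ v) (h : Nat.Coprime u v) (a : ℤ) :
    kf v a u = kf u (-a) v * ee ((a : ℝ) / (u * v)) := by
  have h1 := iv_spec hv h
  have h2 := iv_spec hu h.symm
  have h3 : (u : ℤ) * v ∣ u * (iv v u : ℤ) + v * (iv u v : ℤ) - 1 := by
    apply IsCoprime.mul_dvd (Nat.isCoprime_iff_coprime.2 h)
    · have e : (u : ℤ) * (iv v u : ℤ) + v * (iv u v : ℤ) - 1 =
        u * (iv v u : ℤ) + (v * (iv u v : ℤ) - 1) := by ring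
      rw [e]
      exact dvd_add (dvd_mul_right _ _) h2
    · have e : (u : ℤ) * (iv v u : ℤ) + v * (iv u v : ℤ) - 1 =
        (u * (iv v u : ℤ) - 1) + v * (iv u v : ℤ) := by ring
      rw [e]
      exact dvd_add h1 (dvd_mul_right _ _)
  obtain ⟨k, hk⟩ := h3
  have hu0 : (u : ℝ) ≠ 0 := by
    have : (1 : ℝ) ≤ u := by exact_mod_cast hu
    linarith
  have hv0 : (v : ℝ) ≠ 0 := by
    have : (1 : ℝ) ≤ v := by exact_mod_cast hv
    linarith
  have hk' : (u : ℝ) * (iv v u : ℝ) + v * (iv u v : ℝ) - 1 = u * v * k := by exact_mod_cast hk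
  unfold kf
  rw [← ee_add]
  apply ee_eq_of_int (a * k)
  push_cast
  field_simp
  linear_combination (a : ℝ) * hk'

theorem kf_crt {c d m : ℕ} (hc : 1 ≤ c) (hd : 1 ≤ d) (hcd : Nat.Coprime c d)
    (hm : Nat.Coprime m (c * d)) (a : ℤ) :
    kf (c * d) a m = kf c a (m * d) * kf d a (m * c) := by
  have hmc : Nat.Coprime m c := Nat.Coprime.coprime_mul_right_right hm
  have hmd : Nat.Coprime m d := Nat.Coprime.coprime_mul_left_right hm
  have h1 := iv_spec hc (Nat.Coprime.mul_left hmc hcd.symm)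
  have h2 := iv_spec hd (Nat.Coprime.mul_left hmd hcd)
  have hc0 : (c : ℝ) ≠ 0 := by
    have : (1 : ℝ) ≤ c := by exact_mod_cast hc
    linarith
  have hd0 : (d : ℝ) ≠ 0 := by
    have : (1 : ℝ) ≤ d := by exact_mod_cast hd
    linarith
  set A := iv c (m * d) with hA
  set B := iv d (m * c) with hB
  have h3 : ((c * d : ℕ) : ℤ) ∣ m * ((d : ℤ) * A + c * B) - 1 := by
    push_cast
    apply IsCoprime.mul_dvd (Nat.isCoprime_iff_coprime.2 hcd)
    · have e : (m : ℤ) * ((d : ℤ) * A + c * B) - 1 = (((m * d : ℕ) : ℤ) * A - 1) + c * (m * B) := by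
        push_cast; ring
      rw [e]
      exact dvd_add h1 (dvd_mul_right _ _)
    · have e : (m : ℤ) * ((d : ℤ) * A + c * B) - 1 = (((m * c : ℕ) : ℤ) * B - 1) + d * (m * A) := by
        push_cast; ring
      rw [e]
      exact dvd_add h2 (dvd_mul_right _ _)
  rw [kf_eq (Nat.mul_pos hc hd) a _ h3]
  unfold kf
  rw [← ee_add]
  congr 1
  push_cast
  field_simp
  rw [← hA, ← hB]

end Pool.Agent.H80.KF

end

section

/-!
# The second Cauchy step

`|UU|² ≤ (N+1)² ∑_{m₁,m₂} |∑_τ g_τ|²` (`|α| ≤ 1`, `#II N = N+1 ≤ 2N`), expand the square over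
`(τ, τ')`.  The pairs with `Diag τ τ'` contribute at most `2 ∑_τ ∑_{m₁,m₂} |g_τ|²` (use
`|g g'| ≤ (|g|² + |g'|²)/2`; `τ ↦ (p₂, p₁, -r)` is an involution of `TT P`), and
`∑_τ ∑_{m₁,m₂} |g_τ|² ≤ #{(τ,m₁,m₂) : Adm} ≤ (2N)² #PP²`: for fixed `p₁, p₂, m₂` and
`n ∈ II N` there is at most one `m₁ ∈ II N` with `n ∣ p₁m₁ - p₂m₂` (`p₁` is invertible mod `n` and
`II N` has `N + 1 ≤ n` elements), and `r` is determined by `n`.
-/

set_option autoImplicit false

namespace Pool.Agent.H80.KF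

open Finset

private theorem Cau_cardII (N : ℕ) : (II N).card = N + 1 := by
  unfold II
  rw [Nat.card_Ioc]
  omega

open Classical in
private theorem Cau_inner (N : ℕ) (p1 p2 : ℕ) (R : Finset ℤ) (m2 : ℕ) :
    ((R ×ˢ II N).filter (fun t => Adm N p1 p2 t.1 t.2 m2)).card ≤ N + 1 := by
  rw [← Cau_cardII N]
  apply Finset.card_le_card_of_injOn (fun t => nn p1 p2 t.1 t.2 m2)
  · intro t ht
    exact (mem_filter.1 ht).2.2.2.2.2.2.1
  · intro t ht t' ht' h
    obtain ⟨hm, -, -, -, -, h1, h2, h3⟩ := mem_filter.1 ht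
    obtain ⟨hm', -, -, -, -, h1', -, -⟩ := mem_filter.1 ht'
    have hI := (mem_product.1 hm).2
    have hI' := (mem_product.1 hm').2
    simp only at h
    rw [← h] at h1'
    set n := nn p1 p2 t.1 t.2 m2 with hn
    unfold II at h2 hI hI'
    rw [mem_Ioc] at h2 hI hI'
    have h4 : (t.1 - t'.1) * (n : ℤ) = (p1 : ℤ) * ((t.2 : ℤ) - t'.2) := by
      linear_combination h1 - h1'
    have hc : IsCoprime (n : ℤ) (p1 : ℤ) := by
      rw [Nat.isCoprime_iff_coprime]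
      exact Nat.Coprime.coprime_mul_right_right h3
    have h5 : (n : ℤ) ∣ (t.2 : ℤ) - t'.2 := by
      apply hc.dvd_of_dvd_mul_left
      rw [← h4]
      exact Dvd.intro_left _ rfl
    have h6 : (t.2 : ℤ) - t'.2 = 0 := by
      apply Int.eq_zero_of_abs_lt_dvd h5
      rw [abs_lt]
      constructor <;> omega
    have h7 : t.1 - t'.1 = 0 := by
      rw [h6, mul_zero] at h4
      rcases mul_eq_zero.1 h4 with h8 | h8
      · exact h8
      · exfalso; omega
    exact Prod.ext (by omega) (by omega)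

open Classical in
private theorem Cau_gg_le (F : ℝ → ℂ) (hF : ∀ y, ‖F y‖ ≤ 1) (η : ℤ) (N : ℕ) (τ : ℕ × ℕ × ℤ)
    (m1 m2 : ℕ) :
    ‖gg F η N τ m1 m2‖ ^ 2 ≤ if Adm N τ.1 τ.2.1 τ.2.2 m1 m2 then (1 : ℝ) else 0 := by
  unfold gg
  split_ifs with h
  · rw [norm_mul, norm_mul, RCLike.norm_conj, norm_kf, mul_one]
    have h1 := hF ((m1 : ℝ) * (nn τ.1 τ.2.1 τ.2.2 m1 m2 : ℝ))
    have h2 := hF ((m2 : ℝ) * (nn τ.1 τ.2.1 τ.2.2 m1 m2 : ℝ))
    have h3 : ‖F ((m1 : ℝ) * (nn τ.1 τ.2.1 τ.2.2 m1 m2 : ℝ))‖ *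
        ‖F ((m2 : ℝ) * (nn τ.1 τ.2.1 τ.2.2 m1 m2 : ℝ))‖ ≤ 1 :=
      mul_le_one₀ h1 (norm_nonneg _) h2
    exact pow_le_one₀ (by positivity) h3
  · simp

theorem adm_count (N P : ℕ) (hN : 1 ≤ N) (F : ℝ → ℂ) (hF : ∀ y, ‖F y‖ ≤ 1) (η : ℤ) :
    ∑ τ ∈ TT P, ∑ m1 ∈ II N, ∑ m2 ∈ II N, ‖gg F η N τ m1 m2‖ ^ 2 ≤
      (2 * N) ^ 2 * ((PP P).card : ℝ) ^ 2 := by
  classical
  calc ∑ τ ∈ TT P, ∑ m1 ∈ II N, ∑ m2 ∈ II N, ‖gg F η N τ m1 m2‖ ^ 2
      ≤ ∑ τ ∈ TT P, ∑ m1 ∈ II N, ∑ m2 ∈ II N,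
          (if Adm N τ.1 τ.2.1 τ.2.2 m1 m2 then (1 : ℝ) else 0) :=
        sum_le_sum fun τ _ => sum_le_sum fun m1 _ => sum_le_sum fun m2 _ =>
          Cau_gg_le F hF η N τ m1 m2
    _ = ∑ p1 ∈ PP P, ∑ p2 ∈ PP P, ∑ m2 ∈ II N,
          (((Icc (-(8 * P : ℤ)) (8 * P) ×ˢ II N).filter
            (fun t => Adm N p1 p2 t.1 t.2 m2)).card : ℝ) := by
        unfold TT
        rw [sum_product]
        refine sum_congr rfl fun p1 _ => ?_
        rw [sum_product]
        refine sum_congr rfl fun p2 _ => ?_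
        have h1 : ∀ r ∈ Icc (-(8 * P : ℤ)) (8 * P), ∑ m1 ∈ II N, ∑ m2 ∈ II N,
            (if Adm N p1 p2 r m1 m2 then (1 : ℝ) else 0) = ∑ m2 ∈ II N, ∑ m1 ∈ II N,
            (if Adm N p1 p2 r m1 m2 then (1 : ℝ) else 0) := fun r _ => sum_comm
        rw [sum_congr rfl h1, sum_comm]
        refine sum_congr rfl fun m2 _ => ?_
        rw [← sum_product', sum_boole]
    _ ≤ ∑ p1 ∈ PP P, ∑ p2 ∈ PP P, ∑ m2 ∈ II N, ((N + 1 : ℕ) : ℝ) :=
        sum_le_sum fun p1 _ => sum_le_sum fun p2 _ => sum_le_sum fun m2 _ =>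
          Nat.cast_le.2 (Cau_inner N p1 p2 _ m2)
    _ = ((N : ℝ) + 1) ^ 2 * ((PP P).card : ℝ) ^ 2 := by
        simp only [sum_const, nsmul_eq_mul, Cau_cardII]
        push_cast
        ring
    _ ≤ (2 * N) ^ 2 * ((PP P).card : ℝ) ^ 2 := by
        have hN' : (1 : ℝ) ≤ N := by exact_mod_cast hN
        apply mul_le_mul_of_nonneg_right _ (by positivity)
        apply pow_le_pow_left₀ (by positivity)
        linarith

private theorem Cau_first (N P : ℕ) (hN : 1 ≤ N) (η : ℤ) (α : ℕ → ℂ) (hα : ∀ m, ‖α m‖ ≤ 1)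
    (F : ℝ → ℂ) :
    ‖UU F η N P α‖ ^ 2 ≤
      (2 * N) ^ 2 * ∑ m1 ∈ II N, ∑ m2 ∈ II N, ‖∑ τ ∈ TT P, gg F η N τ m1 m2‖ ^ 2 := by
  have h1 : ‖UU F η N P α‖ ≤ ∑ t ∈ II N ×ˢ II N, ‖∑ τ ∈ TT P, gg F η N τ t.1 t.2‖ := by
    unfold UU
    rw [sum_product]
    refine (norm_sum_le _ _).trans (sum_le_sum fun m1 _ => ?_)
    refine (norm_sum_le _ _).trans (sum_le_sum fun m2 _ => ?_)
    rw [norm_mul, norm_mul, RCLike.norm_conj]
    have h2 : ‖α m1‖ * ‖α m2‖ ≤ 1 := mul_le_one₀ (hα m1) (norm_nonneg _) (hα m2)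
    calc ‖α m1‖ * ‖α m2‖ * ‖∑ τ ∈ TT P, gg F η N τ m1 m2‖
        ≤ 1 * ‖∑ τ ∈ TT P, gg F η N τ m1 m2‖ :=
          mul_le_mul_of_nonneg_right h2 (norm_nonneg _)
      _ = _ := one_mul _
  have h3 := sq_sum_le_card_mul_sum_sq (s := II N ×ˢ II N)
    (f := fun t => ‖∑ τ ∈ TT P, gg F η N τ t.1 t.2‖)
  rw [card_product, Cau_cardII] at h3
  have h4 : ∑ m1 ∈ II N, ∑ m2 ∈ II N, ‖∑ τ ∈ TT P, gg F η N τ m1 m2‖ ^ 2 =
      ∑ t ∈ II N ×ˢ II N, ‖∑ τ ∈ TT P, gg F η N τ t.1 t.2‖ ^ 2 := by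
    rw [sum_product]
  rw [h4]
  have hN' : (1 : ℝ) ≤ N := by exact_mod_cast hN
  calc ‖UU F η N P α‖ ^ 2 ≤ (∑ t ∈ II N ×ˢ II N, ‖∑ τ ∈ TT P, gg F η N τ t.1 t.2‖) ^ 2 :=
        pow_le_pow_left₀ (norm_nonneg _) h1 2
    _ ≤ (((N + 1) * (N + 1) : ℕ) : ℝ) *
          ∑ t ∈ II N ×ˢ II N, ‖∑ τ ∈ TT P, gg F η N τ t.1 t.2‖ ^ 2 := h3
    _ ≤ (2 * N) ^ 2 * ∑ t ∈ II N ×ˢ II N, ‖∑ τ ∈ TT P, gg F η N τ t.1 t.2‖ ^ 2 := by
        apply mul_le_mul_of_nonneg_right _ (sum_nonneg fun _ _ => by positivity)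
        push_cast
        nlinarith

/-- the square of a sum is the double sum, split into the diagonal and the rest -/
private theorem Cau_second (N P : ℕ) (η : ℤ) (F : ℝ → ℂ) :
    ∑ m1 ∈ II N, ∑ m2 ∈ II N, ‖∑ τ ∈ TT P, gg F η N τ m1 m2‖ ^ 2 ≤
      (∑ t ∈ (TT P ×ˢ TT P).filter (fun t => Diag t.1 t.2), ∑ m1 ∈ II N, ∑ m2 ∈ II N,
        ‖gg F η N t.1 m1 m2‖ * ‖gg F η N t.2 m1 m2‖) + OO F η N P := by
  have h1 : ∀ m1 m2 : ℕ, ((‖∑ τ ∈ TT P, gg F η N τ m1 m2‖ ^ 2 : ℝ) : ℂ) =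
      ∑ t ∈ TT P ×ˢ TT P, gg F η N t.1 m1 m2 * (starRingEnd ℂ) (gg F η N t.2 m1 m2) := by
    intro m1 m2
    rw [sum_product]
    rw [← Complex.normSq_eq_norm_sq, Complex.normSq_eq_conj_mul_self, mul_comm, map_sum,
      sum_mul_sum]
  have h2 : ((∑ m1 ∈ II N, ∑ m2 ∈ II N, ‖∑ τ ∈ TT P, gg F η N τ m1 m2‖ ^ 2 : ℝ) : ℂ) =
      ∑ t ∈ TT P ×ˢ TT P, ∑ m1 ∈ II N, ∑ m2 ∈ II N,
        gg F η N t.1 m1 m2 * (starRingEnd ℂ) (gg F η N t.2 m1 m2) := by
    push_cast
    have h3 : ∀ m1 m2 : ℕ, ((‖∑ τ ∈ TT P, gg F η N τ m1 m2‖ : ℝ) : ℂ) ^ 2 =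
        ∑ t ∈ TT P ×ˢ TT P, gg F η N t.1 m1 m2 * (starRingEnd ℂ) (gg F η N t.2 m1 m2) := by
      intro m1 m2
      rw [← h1]
      push_cast
      rfl
    simp only [h3]
    calc ∑ m1 ∈ II N, ∑ m2 ∈ II N, ∑ t ∈ TT P ×ˢ TT P,
          gg F η N t.1 m1 m2 * (starRingEnd ℂ) (gg F η N t.2 m1 m2)
        = ∑ m1 ∈ II N, ∑ t ∈ TT P ×ˢ TT P, ∑ m2 ∈ II N,
          gg F η N t.1 m1 m2 * (starRingEnd ℂ) (gg F η N t.2 m1 m2) :=
          sum_congr rfl fun m1 _ => sum_comm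
      _ = _ := sum_comm
  have h5 : ∑ m1 ∈ II N, ∑ m2 ∈ II N, ‖∑ τ ∈ TT P, gg F η N τ m1 m2‖ ^ 2 =
      ‖∑ t ∈ TT P ×ˢ TT P, ∑ m1 ∈ II N, ∑ m2 ∈ II N,
        gg F η N t.1 m1 m2 * (starRingEnd ℂ) (gg F η N t.2 m1 m2)‖ := by
    rw [← h2, Complex.norm_real, Real.norm_of_nonneg]
    exact sum_nonneg fun _ _ => sum_nonneg fun _ _ => by positivity
  rw [h5, ← sum_filter_add_sum_filter_not (TT P ×ˢ TT P) (fun t => Diag t.1 t.2)]
  refine (norm_add_le _ _).trans (add_le_add ?_ ?_)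
  · refine (norm_sum_le _ _).trans (sum_le_sum fun t _ => ?_)
    refine (norm_sum_le _ _).trans (sum_le_sum fun m1 _ => ?_)
    refine (norm_sum_le _ _).trans (sum_le_sum fun m2 _ => ?_)
    rw [norm_mul, RCLike.norm_conj]
  · unfold OO
    refine (norm_sum_le _ _).trans (sum_le_sum fun t _ => ?_)
    exact norm_sum_le _ _

private theorem Cau_diag (T : Finset (ℕ × ℕ × ℤ)) (w : (ℕ × ℕ × ℤ) → ℝ) (hw : ∀ τ, 0 ≤ w τ) :
    ∑ t ∈ (T ×ˢ T).filter (fun t => Diag t.1 t.2), w t.1 ≤ 2 * ∑ τ ∈ T, w τ := by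
  rw [sum_filter, sum_product, mul_sum]
  refine sum_le_sum fun τ _ => ?_
  rw [← sum_filter]
  simp only [sum_const, nsmul_eq_mul]
  apply mul_le_mul_of_nonneg_right _ (hw τ)
  have h : (T.filter (fun x => Diag τ x)) ⊆ {τ, (τ.2.1, τ.1, -τ.2.2)} := by
    intro x hx
    have := (mem_filter.1 hx).2
    unfold Diag at this
    simpa using this
  calc (((T.filter (fun x => Diag τ x)).card : ℕ) : ℝ)
      ≤ ((({τ, (τ.2.1, τ.1, -τ.2.2)} : Finset (ℕ × ℕ × ℤ)).card : ℕ) : ℝ) := by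
        exact_mod_cast card_le_card h
    _ ≤ 2 := by exact_mod_cast card_le_two

private theorem Cau_diag' (T : Finset (ℕ × ℕ × ℤ)) (w : (ℕ × ℕ × ℤ) → ℝ) (hw : ∀ τ, 0 ≤ w τ) :
    ∑ t ∈ (T ×ˢ T).filter (fun t => Diag t.1 t.2), w t.2 ≤ 2 * ∑ τ ∈ T, w τ := by
  rw [sum_filter, sum_product_right, mul_sum]
  refine sum_le_sum fun τ _ => ?_
  rw [← sum_filter]
  simp only [sum_const, nsmul_eq_mul]
  apply mul_le_mul_of_nonneg_right _ (hw τ)
  have h : (T.filter (fun x => Diag x τ)) ⊆ {τ, (τ.2.1, τ.1, -τ.2.2)} := by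
    intro x hx
    have h1 := (mem_filter.1 hx).2
    unfold Diag at h1
    rw [mem_insert, mem_singleton]
    rcases h1 with h1 | h1
    · exact Or.inl h1.symm
    · right
      rw [h1]
      simp
  calc (((T.filter (fun x => Diag x τ)).card : ℕ) : ℝ)
      ≤ ((({τ, (τ.2.1, τ.1, -τ.2.2)} : Finset (ℕ × ℕ × ℤ)).card : ℕ) : ℝ) := by
        exact_mod_cast card_le_card h
    _ ≤ 2 := by exact_mod_cast card_le_two

theorem cau (N P : ℕ) (hN : 1 ≤ N) (η : ℤ) (α : ℕ → ℂ) (hα : ∀ m, ‖α m‖ ≤ 1)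
    (F : ℝ → ℂ) (hF : ∀ y, ‖F y‖ ≤ 1) :
    ‖UU F η N P α‖ ^ 2 ≤
      (2 * N) ^ 2 * (2 * ((2 * N) ^ 2 * ((PP P).card : ℝ) ^ 2) + OO F η N P) := by
  refine (Cau_first N P hN η α hα F).trans ?_
  apply mul_le_mul_of_nonneg_left _ (by positivity)
  refine (Cau_second N P η F).trans ?_
  apply add_le_add _ le_rfl
  set w : (ℕ × ℕ × ℤ) → ℝ := fun τ => ∑ m1 ∈ II N, ∑ m2 ∈ II N, ‖gg F η N τ m1 m2‖ ^ 2 with hw
  have hw0 : ∀ τ, 0 ≤ w τ := fun τ => sum_nonneg fun _ _ => sum_nonneg fun _ _ => by positivity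
  have hc : ∑ τ ∈ TT P, w τ ≤ (2 * N) ^ 2 * ((PP P).card : ℝ) ^ 2 := adm_count N P hN F hF η
  have h1 : ∑ t ∈ (TT P ×ˢ TT P).filter (fun t => Diag t.1 t.2), ∑ m1 ∈ II N, ∑ m2 ∈ II N,
      ‖gg F η N t.1 m1 m2‖ * ‖gg F η N t.2 m1 m2‖ ≤
      ∑ t ∈ (TT P ×ˢ TT P).filter (fun t => Diag t.1 t.2), (w t.1 / 2 + w t.2 / 2) := by
    refine sum_le_sum fun t _ => ?_
    rw [hw]
    simp only
    rw [sum_div, sum_div, ← sum_add_distrib]
    refine sum_le_sum fun m1 _ => ?_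
    rw [sum_div, sum_div, ← sum_add_distrib]
    refine sum_le_sum fun m2 _ => ?_
    nlinarith [sq_nonneg (‖gg F η N t.1 m1 m2‖ - ‖gg F η N t.2 m1 m2‖)]
  refine h1.trans ?_
  rw [sum_add_distrib, ← sum_div, ← sum_div]
  have h2 := Cau_diag (TT P) w hw0
  have h3 := Cau_diag' (TT P) w hw0
  linarith

end Pool.Agent.H80.KF

end

section

/-!
# Amplification

For `p` coprime to `n`: `e(η m̄/n) = e(η p (pm)^{-1}/n)`.  So
`#𝒫 ∑_m f(m) e(η m̄/n) = ∑_{u mod n} ∑_{p,m: pm ≡ u} f(m) e(η p ū/n)`; Cauchy in `u` gives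
`#𝒫² |∑|² ≤ n ∑_u |∑_{p m ≡ u} f(m) e(η p ū / n)|²`, and expanding the square
`p₁ m₁ ≡ p₂ m₂ ≡ u`, phase `e(η (p₁ - p₂) ū/n)`, `u ≡ p₁ m₁`.
-/

set_option autoImplicit false

namespace Pool.Agent.H80.KF

open Finset

/-- Cauchy over residue classes, for a general family -/
private theorem amp_cauchy {X : Type} (n : ℕ) (hn : 1 ≤ n) (P : Finset X) (r : X → ℕ) (c : X → ℂ) :
    ‖∑ x ∈ P, c x‖ ^ 2 ≤
      n * (∑ x ∈ P, ∑ y ∈ P.filter (fun y => r x ≡ r y [MOD n]), c x * (starRingEnd ℂ) (c y)).re := by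
  classical
  set G : ℕ → ℂ := fun u => ∑ x ∈ P.filter (fun x => r x % n = u), c x with hG
  have h1 : ∑ x ∈ P, c x = ∑ u ∈ range n, G u := by
    refine (Finset.sum_fiberwise_of_maps_to (fun x _ => ?_) c).symm
    exact mem_range.2 (Nat.mod_lt _ (by omega))
  have h2 : ‖∑ u ∈ range n, G u‖ ^ 2 ≤ n * ∑ u ∈ range n, ‖G u‖ ^ 2 := by
    calc ‖∑ u ∈ range n, G u‖ ^ 2 ≤ (∑ u ∈ range n, ‖G u‖) ^ 2 := by
          gcongr
          exact norm_sum_le _ _
      _ ≤ ((range n).card : ℝ) * ∑ u ∈ range n, ‖G u‖ ^ 2 := sq_sum_le_card_mul_sum_sq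
      _ = n * ∑ u ∈ range n, ‖G u‖ ^ 2 := by rw [card_range]
  have h3 : ∑ u ∈ range n, ‖G u‖ ^ 2
      = (∑ x ∈ P, ∑ y ∈ P.filter (fun y => r x ≡ r y [MOD n]), c x * (starRingEnd ℂ) (c y)).re := by
    have h4 : ∀ u, ‖G u‖ ^ 2 = (∑ x ∈ P.filter (fun x => r x % n = u),
        ∑ y ∈ P.filter (fun y => r x ≡ r y [MOD n]), c x * (starRingEnd ℂ) (c y)).re := by
      intro u
      have h5 : ((‖G u‖ ^ 2 : ℝ) : ℂ) = G u * (starRingEnd ℂ) (G u) := by
        rw [Complex.mul_conj, Complex.normSq_eq_norm_sq]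
      have h6 : G u * (starRingEnd ℂ) (G u) = ∑ x ∈ P.filter (fun x => r x % n = u),
          ∑ y ∈ P.filter (fun y => r x ≡ r y [MOD n]), c x * (starRingEnd ℂ) (c y) := by
        rw [hG]
        simp only
        rw [map_sum, Finset.sum_mul]
        refine Finset.sum_congr rfl fun x hx => ?_
        rw [Finset.mul_sum]
        refine Finset.sum_congr ?_ fun y _ => rfl
        have hx' := (mem_filter.1 hx).2
        ext y
        simp only [mem_filter]
        refine and_congr_right fun _ => ?_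
        rw [← hx']
        exact ⟨fun h => h.symm, fun h => h.symm⟩
      have h7 := h5.trans h6
      rw [← h7, Complex.ofReal_re]
    rw [Finset.sum_congr rfl fun u _ => h4 u, ← Complex.re_sum]
    congr 1
    exact Finset.sum_fiberwise_of_maps_to (fun x _ => mem_range.2 (Nat.mod_lt _ (by omega))) _
  rw [h1, ← h3]
  exact h2

theorem amp (n : ℕ) (hn : 1 ≤ n) (η : ℤ) (M Ps : Finset ℕ) (hM : ∀ m ∈ M, Nat.Coprime m n)
    (hP : ∀ p ∈ Ps, Nat.Coprime p n) (f : ℕ → ℂ) :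
    (Ps.card : ℝ) ^ 2 * ‖∑ m ∈ M, f m * kf n η m‖ ^ 2 ≤
      n * (∑ p1 ∈ Ps, ∑ p2 ∈ Ps, ∑ m1 ∈ M, ∑ m2 ∈ M.filter (fun m2 => p1 * m1 ≡ p2 * m2 [MOD n]),
        f m1 * (starRingEnd ℂ) (f m2) * kf n (η * ((p1 : ℤ) - p2)) (p1 * m1)).re := by
  classical
  have key := amp_cauchy n hn (Ps ×ˢ M) (fun x => x.1 * x.2)
    (fun x => f x.2 * kf n (η * (x.1 : ℤ)) (x.1 * x.2))
  have h1 : ∑ x ∈ Ps ×ˢ M, f x.2 * kf n (η * (x.1 : ℤ)) (x.1 * x.2)
      = (Ps.card : ℂ) * ∑ m ∈ M, f m * kf n η m := by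
    rw [Finset.sum_product]
    have : ∀ p ∈ Ps, ∑ m ∈ M, f m * kf n (η * (p : ℤ)) (p * m) = ∑ m ∈ M, f m * kf n η m := by
      intro p hp
      refine Finset.sum_congr rfl fun m hm => ?_
      rw [kf_mul_left hn η (hP p hp) (hM m hm)]
    rw [Finset.sum_congr rfl this, Finset.sum_const, nsmul_eq_mul]
  rw [h1] at key
  have h2 : ‖(Ps.card : ℂ) * ∑ m ∈ M, f m * kf n η m‖ ^ 2
      = (Ps.card : ℝ) ^ 2 * ‖∑ m ∈ M, f m * kf n η m‖ ^ 2 := by
    rw [norm_mul, mul_pow, Complex.norm_natCast]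
  rw [h2] at key
  refine le_trans key (le_of_eq ?_)
  congr 2
  rw [Finset.sum_product]
  refine Finset.sum_congr rfl fun p1 _ => ?_
  rw [Finset.sum_comm]
  refine Finset.sum_congr rfl fun m1 _ => ?_
  simp only
  rw [Finset.sum_filter, Finset.sum_product]
  refine Finset.sum_congr rfl fun p2 _ => ?_
  rw [Finset.sum_filter]
  refine Finset.sum_congr rfl fun m2 _ => ?_
  simp only
  split_ifs with h
  · have e1 : (starRingEnd ℂ) (f m2 * kf n (η * (p2 : ℤ)) (p2 * m2))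
        = (starRingEnd ℂ) (f m2) * kf n (-(η * (p2 : ℤ))) (p1 * m1) := by
      rw [map_mul, ← kf_neg]
      congr 1
      exact kf_congr hn (by simp) h.symm
    rw [e1]
    have e2 : η * ((p1 : ℤ) - p2) = η * (p1 : ℤ) + -(η * (p2 : ℤ)) := by ring
    rw [e2, kf_add]
    ring
  · rfl

end Pool.Agent.H80.KF

end

section

/-!
# Diagonal, degenerate and main terms of the amplified sum

Apply `amp` for every `n ∈ (N, 2N+1]` with `M = {m ∈ II N : (m,n)=1}`, `Ps = {p ∈ PP P : p ∤ n}`,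
`f m = α m F(mn)`.  The right side of `amp` is nonnegative, `#Ps ≥ #PP/2`, `n ≤ 3N`, so
`∑_n |T_n|² ≤ (12 N/#PP²) Re ∑_n (...)`.  Terms:
(i) `p₁ = p₂`: then `m₁ ≡ m₂ (n)`, so `m₁ = m₂` (`|m₁ - m₂| < n`), `kf n 0 = 1`: at most
`#PP (2N)²`;
(ii) `p₁ ≠ p₂` and (`p₁ ∣ m₂` or `p₂ ∣ m₁`): for fixed `n, p₁, p₂, m₂` there is at most one `m₁`
(resp. for fixed `m₁` one `m₂`), and at most `2N/P + 1` of the `m₂ ∈ II N` are divisible by `p₁`:
at most `2 · 2N #PP² (2N/P + 1)` terms, each of modulus `≤ 1`;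
(iii) the rest: `p₁ m₁ ≠ p₂ m₂`, `r = (p₁m₁ - p₂m₂)/n` is a nonzero integer with `|r| ≤ 8P`, and
`n = nn p₁ p₂ r m₁ m₂`; conversely `Adm` with `τ ∈ TT P` gives such an `n`
(`(n, p₁m₁) = 1` and `r n = p₁m₁ - p₂m₂` imply `(n, p₂m₂) = 1`).  These terms are `UU`.
-/

set_option autoImplicit false

namespace Pool.Agent.H80.KF

open Finset

private theorem mem_II {N m : ℕ} : m ∈ II N ↔ N < m ∧ m ≤ 2 * N + 1 := by
  unfold II; exact mem_Ioc

private theorem card_II (N : ℕ) : (II N).card = N + 1 := by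
  unfold II; rw [Nat.card_Ioc]; omega

private theorem uniq {N n a b : ℕ} (hn : n ∈ II N) (ha : a ∈ II N) (hb : b ∈ II N)
    (h : a ≡ b [MOD n]) : a = b := by
  rw [mem_II] at hn ha hb
  have h1 := (Nat.modEq_iff_dvd.mp h)
  have h2 : (b : ℤ) - a = 0 := by
    apply Int.eq_zero_of_abs_lt_dvd h1
    rw [abs_lt]
    constructor <;> omega
  omega

private theorem card_uniq (N n p c : ℕ) (hn : n ∈ II N) (hp : Nat.Coprime p n) :
    ((II N).filter (fun m => p * m ≡ c [MOD n])).card ≤ 1 := by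
  rw [card_le_one]
  intro a ha b hb
  rw [mem_filter] at ha hb
  have h : p * a ≡ p * b [MOD n] := ha.2.trans hb.2.symm
  exact uniq hn ha.1 hb.1 (Nat.ModEq.cancel_left_of_coprime (by rw [Nat.gcd_comm]; exact hp) h)

private theorem card_uniq' (N n p c : ℕ) (hn : n ∈ II N) (hp : Nat.Coprime p n) :
    ((II N).filter (fun m => c ≡ p * m [MOD n])).card ≤ 1 := by
  refine le_trans (card_le_card ?_) (card_uniq N n p c hn hp)
  intro m hm
  rw [mem_filter] at hm ⊢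
  exact ⟨hm.1, hm.2.symm⟩

private theorem card_mult (N P p : ℕ) (hN : 1 ≤ N) (hP : 1 ≤ P) (hp : P < p) :
    (((II N).filter (fun m => p ∣ m)).card : ℝ) ≤ 2 * N / P + 1 := by
  have hp0 : 0 < p := by omega
  have h1 : ((II N).filter (fun m => p ∣ m)).card ≤ (Ioc (N / p) ((2 * N + 1) / p)).card := by
    apply card_le_card_of_injOn (fun m => m / p)
    · intro m hm
      rw [mem_coe, mem_filter, mem_II] at hm
      obtain ⟨⟨h2, h3⟩, k, rfl⟩ := hm
      rw [mem_coe, mem_Ioc]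
      change N / p < p * k / p ∧ p * k / p ≤ (2 * N + 1) / p
      rw [Nat.mul_div_cancel_left _ hp0]
      constructor
      · rw [Nat.div_lt_iff_lt_mul hp0, mul_comm]; exact h2
      · rw [Nat.le_div_iff_mul_le hp0, mul_comm]; exact h3
    · intro a ha b hb hab
      rw [mem_coe, mem_filter] at ha hb
      obtain ⟨k, rfl⟩ := ha.2
      obtain ⟨l, rfl⟩ := hb.2
      simp only [Nat.mul_div_cancel_left _ hp0] at hab
      rw [hab]
  rw [Nat.card_Ioc] at h1
  have h2 : (((2 * N + 1) / p - N / p : ℕ) : ℝ) ≤ ((N : ℝ) + 1) / p + 1 := by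
    have h3 : (((2 * N + 1) / p : ℕ) : ℝ) ≤ ((2 * N + 1 : ℕ) : ℝ) / p := Nat.cast_div_le
    have h4 : ((N : ℝ)) / p < ((N / p : ℕ) : ℝ) + 1 := by
      have := Nat.lt_floor_add_one ((N : ℝ) / p)
      rwa [Nat.floor_div_eq_div] at this
    rcases Nat.lt_or_ge ((2 * N + 1) / p) (N / p) with h5 | h5
    · rw [Nat.sub_eq_zero_of_le h5.le]
      simp only [Nat.cast_zero]
      positivity
    · rw [Nat.cast_sub h5]
      have h6 : ((2 * N + 1 : ℕ) : ℝ) / p = (N : ℝ) / p + ((N : ℝ) + 1) / p := by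
        push_cast; ring
      rw [h6] at h3
      linarith only [h3, h4]
  have hP0 : (0 : ℝ) < P := by exact_mod_cast hP
  have h3 : ((N : ℝ) + 1) / p ≤ 2 * N / P := by
    have hN1 : (1 : ℝ) ≤ N := by exact_mod_cast hN
    have hpP : (P : ℝ) ≤ p := by exact_mod_cast hp.le
    apply div_le_div₀ (by positivity) (by linarith only [hN1]) hP0 hpP
  have h4 : (((II N).filter (fun m => p ∣ m)).card : ℝ) ≤
      (((2 * N + 1) / p - N / p : ℕ) : ℝ) := by exact_mod_cast h1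
  linarith only [h2, h3, h4]

/-- the condition for a term of the amplified sum -/
private def CC (n p1 p2 m1 m2 : ℕ) : Prop :=
  ¬ p1 ∣ n ∧ ¬ p2 ∣ n ∧ Nat.Coprime m1 n ∧ Nat.Coprime m2 n ∧ p1 * m1 ≡ p2 * m2 [MOD n]

/-- the term -/
private noncomputable def tt (η : ℤ) (α : ℕ → ℂ) (F : ℝ → ℂ) (n p1 p2 m1 m2 : ℕ) : ℂ :=
  (α m1 * F ((m1 : ℝ) * n)) * (starRingEnd ℂ) (α m2 * F ((m2 : ℝ) * n)) *
    kf n (η * ((p1 : ℤ) - p2)) (p1 * m1)

private theorem norm_tt (η : ℤ) (α : ℕ → ℂ) (F : ℝ → ℂ) (hα : ∀ m, ‖α m‖ ≤ 1)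
    (hF : ∀ y, ‖F y‖ ≤ 1) (n p1 p2 m1 m2 : ℕ) : ‖tt η α F n p1 p2 m1 m2‖ ≤ 1 := by
  unfold tt
  rw [norm_mul, norm_kf, mul_one, norm_mul, RCLike.norm_conj, norm_mul, norm_mul]
  have h1 := mul_le_one₀ (hα m1) (norm_nonneg _) (hF ((m1 : ℝ) * n))
  have h2 := mul_le_one₀ (hα m2) (norm_nonneg _) (hF ((m2 : ℝ) * n))
  exact mul_le_one₀ h1 (by positivity) h2

open Classical in
/-- the third part is `UU` -/
private theorem third (N P : ℕ) (hN : 1 ≤ N) (η : ℤ) (α : ℕ → ℂ) (F : ℝ → ℂ) :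
    ∑ n ∈ II N, ∑ p1 ∈ PP P, ∑ p2 ∈ PP P, ∑ m1 ∈ II N, ∑ m2 ∈ II N,
      (if CC n p1 p2 m1 m2 ∧ p1 ≠ p2 ∧ ¬ (p1 ∣ m2 ∨ p2 ∣ m1) then tt η α F n p1 p2 m1 m2 else 0) =
    UU F η N P α := by
  have key : ∀ m1 ∈ II N, ∀ m2 ∈ II N, ∀ p1 ∈ PP P, ∀ p2 ∈ PP P,
      ∑ n ∈ II N, (if CC n p1 p2 m1 m2 ∧ p1 ≠ p2 ∧ ¬ (p1 ∣ m2 ∨ p2 ∣ m1) then
        tt η α F n p1 p2 m1 m2 else 0) =
      ∑ r ∈ Icc (-(8 * P : ℤ)) (8 * P),
        α m1 * (starRingEnd ℂ) (α m2) * gg F η N (p1, p2, r) m1 m2 := by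
    intro m1 hm1 m2 hm2 p1 hp1 p2 hp2
    have hp1' := (mem_filter.mp hp1)
    have hp2' := (mem_filter.mp hp2)
    have hP1 := mem_Ioc.mp hp1'.1
    have hP2 := mem_Ioc.mp hp2'.1
    rw [mem_II] at hm1 hm2
    simp only [gg, mul_ite, mul_zero]
    rw [← sum_filter, ← sum_filter]
    symm
    refine sum_nbij' (fun r => nn p1 p2 r m1 m2)
      (fun n => ((p1 : ℤ) * m1 - (p2 : ℤ) * m2) / n) ?_ ?_ ?_ ?_ ?_
    · intro r hr
      rw [mem_filter] at hr ⊢
      obtain ⟨_, h1, h2, h3, h4, h5, h6, h7⟩ := hr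
      refine ⟨h6, ⟨?_, ?_, ?_, ?_, ?_⟩, h1, ?_⟩
      · intro hd
        have := Nat.Coprime.coprime_dvd_left hd h7
        have h8 := Nat.Coprime.eq_one_of_dvd this (dvd_mul_right p1 m1)
        exact hp1'.2.one_lt.ne' h8
      · intro hd
        have h9 : (p2 : ℤ) ∣ (p1 : ℤ) * m1 := by
          have : (p1 : ℤ) * m1 = r * (nn p1 p2 r m1 m2 : ℤ) + p2 * m2 := by rw [h5]; ring
          rw [this]
          exact dvd_add (Dvd.dvd.mul_left (by exact_mod_cast hd) _) (dvd_mul_right _ _)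
        have h10 : p2 ∣ p1 * m1 := by exact_mod_cast h9
        have h11 := Nat.Coprime.coprime_dvd_left hd h7
        exact hp2'.2.one_lt.ne' (Nat.Coprime.eq_one_of_dvd h11 h10)
      · exact (Nat.Coprime.coprime_dvd_right (dvd_mul_left m1 p1) h7).symm
      · have h8 : Nat.Coprime (nn p1 p2 r m1 m2) (p2 * m2) := by
          have hg : ((Nat.gcd (nn p1 p2 r m1 m2) (p2 * m2) : ℕ) : ℤ) ∣ (p1 : ℤ) * m1 := by
            have h12 : (p1 : ℤ) * m1 = r * (nn p1 p2 r m1 m2 : ℤ) + p2 * m2 := by rw [h5]; ring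
            rw [h12]
            refine dvd_add (Dvd.dvd.mul_left ?_ _) ?_
            · exact_mod_cast Nat.gcd_dvd_left _ _
            · exact_mod_cast Nat.gcd_dvd_right (nn p1 p2 r m1 m2) (p2 * m2)
          have hg' : Nat.gcd (nn p1 p2 r m1 m2) (p2 * m2) ∣ p1 * m1 := by exact_mod_cast hg
          have h13 := Nat.dvd_gcd (Nat.gcd_dvd_left (nn p1 p2 r m1 m2) (p2 * m2)) hg'
          rw [Nat.Coprime] at h7
          rw [h7] at h13
          exact Nat.dvd_one.mp h13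
        exact (Nat.Coprime.coprime_dvd_right (dvd_mul_left m2 p2) h8).symm
      · apply Nat.ModEq.symm
        rw [Nat.modEq_iff_dvd]
        push_cast
        rw [← h5]
        exact dvd_mul_left _ _
      · rintro (h | h)
        · exact h2 h
        · exact h3 h
    · intro n hn
      rw [mem_filter] at hn ⊢
      obtain ⟨hn1, ⟨h1, h2, h3, h4, h5⟩, h6, h7⟩ := hn
      rw [mem_II] at hn1
      have hd := Nat.modEq_iff_dvd.mp h5.symm
      push_cast at hd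
      have hn0 : (n : ℤ) ≠ 0 := by omega
      have hr := Int.ediv_mul_cancel hd
      set r := ((p1 : ℤ) * m1 - (p2 : ℤ) * m2) / n with hrdef
      have hne : (p1 : ℤ) * m1 - (p2 : ℤ) * m2 ≠ 0 := by
        intro h0
        have h8 : p1 * m1 = p2 * m2 := by
          have : (p1 : ℤ) * m1 = p2 * m2 := by linarith only [h0]
          exact_mod_cast this
        have h9 : p1 ∣ p2 * m2 := h8 ▸ dvd_mul_right p1 m1
        rcases (Nat.Prime.dvd_mul hp1'.2).mp h9 with h10 | h10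
        · exact h6 ((Nat.prime_dvd_prime_iff_eq hp1'.2 hp2'.2).mp h10)
        · exact h7 (Or.inl h10)
      have hr0 : r ≠ 0 := by
        intro h0
        rw [h0, zero_mul] at hr
        exact hne hr.symm
      have hnn : nn p1 p2 r m1 m2 = n := by
        unfold nn
        rw [← hr, Int.mul_ediv_cancel_left _ hr0, Int.toNat_natCast]
      refine ⟨?_, h6, fun h => h7 (Or.inl h), fun h => h7 (Or.inr h), hr0, ?_, ?_, ?_⟩
      · rw [mem_Icc]
        have e1 : (p1 : ℤ) * m1 ≤ 4 * P * (2 * N + 1) := by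
          have a1 : (p1 : ℤ) ≤ 4 * P := by exact_mod_cast hP1.2
          have a2 : (m1 : ℤ) ≤ 2 * N + 1 := by exact_mod_cast hm1.2
          exact mul_le_mul a1 a2 (by positivity) (by positivity)
        have e2 : (p2 : ℤ) * m2 ≤ 4 * P * (2 * N + 1) := by
          have a1 : (p2 : ℤ) ≤ 4 * P := by exact_mod_cast hP2.2
          have a2 : (m2 : ℤ) ≤ 2 * N + 1 := by exact_mod_cast hm2.2
          exact mul_le_mul a1 a2 (by positivity) (by positivity)
        have e3 : (0 : ℤ) ≤ (p1 : ℤ) * m1 := by positivity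
        have e4 : (0 : ℤ) ≤ (p2 : ℤ) * m2 := by positivity
        have hnN : (N : ℤ) + 1 ≤ n := by omega
        have hP0 : (0 : ℤ) ≤ P := by positivity
        have e5 : 4 * (P : ℤ) * (2 * N + 1) ≤ 8 * P * n := by nlinarith only [hP1, hn1]
        have hnpos : (0 : ℤ) < n := by omega
        constructor
        · by_contra hc
          push Not at hc
          have : r * n ≤ (-(8 * (P : ℤ)) - 1) * n :=
            mul_le_mul_of_nonneg_right (by omega) hnpos.le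
          rw [hr] at this
          nlinarith only [hN, hn1, e2, e3, e5, this]
        · by_contra hc
          push Not at hc
          have : (8 * (P : ℤ) + 1) * n ≤ r * n :=
            mul_le_mul_of_nonneg_right (by omega) hnpos.le
          rw [hr] at this
          nlinarith only [hN, hn1, e1, e4, e5, this]
      · rw [hnn]; exact hr
      · rw [hnn, mem_II]; exact hn1
      · rw [hnn]
        apply Nat.Coprime.mul_right
        · exact ((Nat.Prime.coprime_iff_not_dvd hp1'.2).mpr h1).symm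
        · exact h3.symm
    · intro r hr
      rw [mem_filter] at hr
      obtain ⟨_, h1, h2, h3, h4, h5, h6, h7⟩ := hr
      rw [mem_II] at h6
      rw [← h5]
      apply Int.mul_ediv_cancel
      have : 0 < nn p1 p2 r m1 m2 := by omega
      exact_mod_cast this.ne'
    · intro n hn
      rw [mem_filter] at hn
      obtain ⟨hn1, ⟨h1, h2, h3, h4, h5⟩, h6, h7⟩ := hn
      rw [mem_II] at hn1
      have hd := Nat.modEq_iff_dvd.mp h5.symm
      push_cast at hd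
      have hr := Int.ediv_mul_cancel hd
      have hne : (p1 : ℤ) * m1 - (p2 : ℤ) * m2 ≠ 0 := by
        intro h0
        have h8 : p1 * m1 = p2 * m2 := by
          have : (p1 : ℤ) * m1 = p2 * m2 := by linarith only [h0]
          exact_mod_cast this
        have h9 : p1 ∣ p2 * m2 := h8 ▸ dvd_mul_right p1 m1
        rcases (Nat.Prime.dvd_mul hp1'.2).mp h9 with h10 | h10
        · exact h6 ((Nat.prime_dvd_prime_iff_eq hp1'.2 hp2'.2).mp h10)
        · exact h7 (Or.inl h10)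
      have hr0 : ((p1 : ℤ) * m1 - (p2 : ℤ) * m2) / n ≠ 0 := by
        intro h0
        rw [h0, zero_mul] at hr
        exact hne hr.symm
      simp only [nn]
      conv_lhs => rw [show ((p1 : ℤ) * m1 - (p2 : ℤ) * m2) =
        ((p1 : ℤ) * m1 - (p2 : ℤ) * m2) / n * n from hr.symm]
      rw [Int.mul_ediv_cancel _ (by omega : (n : ℤ) ≠ 0), Int.mul_ediv_cancel_left _ hr0,
        Int.toNat_natCast]
    · intro r hr
      simp only [tt, map_mul]
      ring
  calc _ = ∑ m1 ∈ II N, ∑ m2 ∈ II N, ∑ p1 ∈ PP P, ∑ p2 ∈ PP P, ∑ n ∈ II N,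
      (if CC n p1 p2 m1 m2 ∧ p1 ≠ p2 ∧ ¬ (p1 ∣ m2 ∨ p2 ∣ m1) then
        tt η α F n p1 p2 m1 m2 else 0) := by
        rw [sum_comm]
        rw [sum_congr rfl fun p1 _ => sum_comm]
        rw [sum_congr rfl fun p1 _ => sum_congr rfl fun p2 _ => sum_comm]
        rw [sum_congr rfl fun p1 _ => sum_congr rfl fun p2 _ => sum_congr rfl fun m1 _ => sum_comm]
        rw [sum_congr rfl fun p1 _ => sum_comm]
        rw [sum_comm]
        refine sum_congr rfl fun m1 _ => ?_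
        rw [sum_congr rfl fun p1 _ => sum_comm]
        rw [sum_comm]
    _ = UU F η N P α := by
        unfold UU
        refine sum_congr rfl fun m1 hm1 => sum_congr rfl fun m2 hm2 => ?_
        rw [TT, sum_product, mul_sum]
        refine sum_congr rfl fun p1 hp1 => ?_
        rw [sum_product, mul_sum]
        refine sum_congr rfl fun p2 hp2 => ?_
        rw [key m1 hm1 m2 hm2 p1 hp1 p2 hp2, mul_sum]

open Classical in
private theorem first (N P : ℕ) (hN : 1 ≤ N) (η : ℤ) (α : ℕ → ℂ) (hα : ∀ m, ‖α m‖ ≤ 1)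
    (F : ℝ → ℂ) (hF : ∀ y, ‖F y‖ ≤ 1) :
    ‖∑ n ∈ II N, ∑ p1 ∈ PP P, ∑ p2 ∈ PP P, ∑ m1 ∈ II N, ∑ m2 ∈ II N,
      (if CC n p1 p2 m1 m2 ∧ p1 = p2 then tt η α F n p1 p2 m1 m2 else 0)‖ ≤
    (PP P).card * (2 * N) ^ 2 := by
  have hN1 : (1 : ℝ) ≤ N := by exact_mod_cast hN
  have hII : ((II N).card : ℝ) ≤ 2 * N := by
    rw [card_II]; push_cast; linarith only [hN1]
  have h1 : ∀ n ∈ II N, ∀ p1 ∈ PP P, ∀ m1 ∈ II N,
      ‖∑ m2 ∈ II N, (if CC n p1 p1 m1 m2 then tt η α F n p1 p1 m1 m2 else 0)‖ ≤ 1 := by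
    intro n hn p1 hp1 m1 hm1
    by_cases hd : p1 ∣ n
    · rw [sum_eq_zero]
      · simp
      · intro m2 _
        rw [if_neg]
        intro h
        exact h.1 hd
    · have hco : Nat.Coprime p1 n := (Nat.Prime.coprime_iff_not_dvd (mem_filter.mp hp1).2).mpr hd
      calc ‖∑ m2 ∈ II N, (if CC n p1 p1 m1 m2 then tt η α F n p1 p1 m1 m2 else 0)‖
          ≤ ∑ m2 ∈ II N, ‖(if CC n p1 p1 m1 m2 then tt η α F n p1 p1 m1 m2 else 0)‖ :=
            norm_sum_le _ _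
        _ ≤ ∑ m2 ∈ II N, (if p1 * m1 ≡ p1 * m2 [MOD n] then (1 : ℝ) else 0) := by
            refine sum_le_sum fun m2 _ => ?_
            split_ifs with h h' h'
            · exact norm_tt η α F hα hF _ _ _ _ _
            · exact absurd h.2.2.2.2 h'
            · simp
            · simp
        _ = (((II N).filter (fun m2 => p1 * m1 ≡ p1 * m2 [MOD n])).card : ℝ) := by
            rw [← sum_filter, sum_const, nsmul_eq_mul, mul_one]
        _ ≤ 1 := by exact_mod_cast card_uniq' N n p1 (p1 * m1) hn hco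
  have h2 : ∀ n ∈ II N, ∀ p1 ∈ PP P,
      ‖∑ p2 ∈ PP P, ∑ m1 ∈ II N, ∑ m2 ∈ II N,
        (if CC n p1 p2 m1 m2 ∧ p1 = p2 then tt η α F n p1 p2 m1 m2 else 0)‖ ≤ 2 * N := by
    intro n hn p1 hp1
    rw [sum_eq_single p1]
    · simp only [and_true]
      calc _ ≤ ∑ m1 ∈ II N, ‖∑ m2 ∈ II N,
            (if CC n p1 p1 m1 m2 then tt η α F n p1 p1 m1 m2 else 0)‖ := norm_sum_le _ _
        _ ≤ ∑ m1 ∈ II N, (1 : ℝ) := sum_le_sum fun m1 hm1 => h1 n hn p1 hp1 m1 hm1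
        _ = ((II N).card : ℝ) := by rw [sum_const, nsmul_eq_mul, mul_one]
        _ ≤ 2 * N := hII
    · intro p2 _ hne
      refine sum_eq_zero fun m1 _ => sum_eq_zero fun m2 _ => ?_
      rw [if_neg]
      intro h
      exact hne h.2.symm
    · intro h
      exact absurd hp1 h
  calc _ ≤ ∑ n ∈ II N, ∑ p1 ∈ PP P, (2 * N : ℝ) := by
        refine (norm_sum_le _ _).trans (sum_le_sum fun n hn => ?_)
        exact (norm_sum_le _ _).trans (sum_le_sum fun p1 hp1 => h2 n hn p1 hp1)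
    _ = ((II N).card : ℝ) * ((PP P).card * (2 * N)) := by
        rw [sum_const, sum_const, nsmul_eq_mul, nsmul_eq_mul]
    _ ≤ (2 * N) * ((PP P).card * (2 * N)) := by
        apply mul_le_mul_of_nonneg_right hII; positivity
    _ = _ := by ring

open Classical in
private theorem second (N P : ℕ) (hN : 1 ≤ N) (hP : 1 ≤ P) (η : ℤ) (α : ℕ → ℂ)
    (hα : ∀ m, ‖α m‖ ≤ 1) (F : ℝ → ℂ) (hF : ∀ y, ‖F y‖ ≤ 1) :
    ‖∑ n ∈ II N, ∑ p1 ∈ PP P, ∑ p2 ∈ PP P, ∑ m1 ∈ II N, ∑ m2 ∈ II N,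
      (if CC n p1 p2 m1 m2 ∧ p1 ≠ p2 ∧ (p1 ∣ m2 ∨ p2 ∣ m1) then
        tt η α F n p1 p2 m1 m2 else 0)‖ ≤
    2 * (2 * N) * ((PP P).card : ℝ) ^ 2 * (2 * N / P + 1) := by
  have hN1 : (1 : ℝ) ≤ N := by exact_mod_cast hN
  have hII : ((II N).card : ℝ) ≤ 2 * N := by
    rw [card_II]; push_cast; linarith only [hN1]
  have h1 : ∀ n ∈ II N, ∀ p1 ∈ PP P, ∀ p2 ∈ PP P,
      ‖∑ m1 ∈ II N, ∑ m2 ∈ II N,
        (if CC n p1 p2 m1 m2 ∧ p1 ≠ p2 ∧ (p1 ∣ m2 ∨ p2 ∣ m1) then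
          tt η α F n p1 p2 m1 m2 else 0)‖ ≤ 2 * (2 * N / P + 1) := by
    intro n hn p1 hp1 p2 hp2
    have hb : ∀ p ∈ PP P, (((II N).filter (fun m => p ∣ m)).card : ℝ) ≤ 2 * N / P + 1 :=
      fun p hp => card_mult N P p hN hP (mem_Ioc.mp (mem_filter.mp hp).1).1
    by_cases hd : p1 ∣ n ∨ p2 ∣ n
    · rw [sum_eq_zero]
      · rw [norm_zero]; positivity
      · intro m1 _
        refine sum_eq_zero fun m2 _ => ?_
        rw [if_neg]
        rintro ⟨⟨a1, a2, _⟩, _⟩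
        rcases hd with h | h
        · exact a1 h
        · exact a2 h
    · push Not at hd
      have hc1 : Nat.Coprime p1 n := (Nat.Prime.coprime_iff_not_dvd (mem_filter.mp hp1).2).mpr hd.1
      have hc2 : Nat.Coprime p2 n := (Nat.Prime.coprime_iff_not_dvd (mem_filter.mp hp2).2).mpr hd.2
      have hle : ∀ m1 m2 : ℕ, ‖(if CC n p1 p2 m1 m2 ∧ p1 ≠ p2 ∧ (p1 ∣ m2 ∨ p2 ∣ m1) then
          tt η α F n p1 p2 m1 m2 else 0)‖ ≤
          (if p1 ∣ m2 then (if p1 * m1 ≡ p2 * m2 [MOD n] then (1 : ℝ) else 0) else 0) +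
          (if p2 ∣ m1 then (if p1 * m1 ≡ p2 * m2 [MOD n] then (1 : ℝ) else 0) else 0) := by
        intro m1 m2
        by_cases h : CC n p1 p2 m1 m2 ∧ p1 ≠ p2 ∧ (p1 ∣ m2 ∨ p2 ∣ m1)
        · rw [if_pos h, if_pos h.1.2.2.2.2]
          have h3 := norm_tt η α F hα hF n p1 p2 m1 m2
          rcases h.2.2 with h4 | h4
          · rw [if_pos h4]
            have : (0 : ℝ) ≤ if p2 ∣ m1 then (1 : ℝ) else 0 := by split_ifs <;> norm_num
            linarith only [h3, this]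
          · rw [if_pos h4]
            have : (0 : ℝ) ≤ if p1 ∣ m2 then (1 : ℝ) else 0 := by split_ifs <;> norm_num
            linarith only [h3, this]
        · rw [if_neg h, norm_zero]
          positivity
      calc _ ≤ ∑ m1 ∈ II N, ∑ m2 ∈ II N,
            ((if p1 ∣ m2 then (if p1 * m1 ≡ p2 * m2 [MOD n] then (1 : ℝ) else 0) else 0) +
            (if p2 ∣ m1 then (if p1 * m1 ≡ p2 * m2 [MOD n] then (1 : ℝ) else 0) else 0)) := by
            refine (norm_sum_le _ _).trans (sum_le_sum fun m1 _ => ?_)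
            exact (norm_sum_le _ _).trans (sum_le_sum fun m2 _ => hle m1 m2)
        _ = (∑ m2 ∈ II N, ∑ m1 ∈ II N,
              (if p1 ∣ m2 then (if p1 * m1 ≡ p2 * m2 [MOD n] then (1 : ℝ) else 0) else 0)) +
            (∑ m1 ∈ II N, ∑ m2 ∈ II N,
              (if p2 ∣ m1 then (if p1 * m1 ≡ p2 * m2 [MOD n] then (1 : ℝ) else 0) else 0)) := by
            simp only [sum_add_distrib]
            rw [sum_comm]
        _ ≤ (∑ m2 ∈ II N, (if p1 ∣ m2 then (1 : ℝ) else 0)) +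
            (∑ m1 ∈ II N, (if p2 ∣ m1 then (1 : ℝ) else 0)) := by
            apply add_le_add
            · refine sum_le_sum fun m2 _ => ?_
              split_ifs with h
              · rw [← sum_filter, sum_const, nsmul_eq_mul, mul_one]
                exact_mod_cast card_uniq N n p1 (p2 * m2) hn hc1
              · simp
            · refine sum_le_sum fun m1 _ => ?_
              split_ifs with h
              · rw [← sum_filter, sum_const, nsmul_eq_mul, mul_one]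
                exact_mod_cast card_uniq' N n p2 (p1 * m1) hn hc2
              · simp
        _ = (((II N).filter (fun m => p1 ∣ m)).card : ℝ) +
            (((II N).filter (fun m => p2 ∣ m)).card : ℝ) := by
            rw [← sum_filter, ← sum_filter, sum_const, sum_const, nsmul_eq_mul, nsmul_eq_mul,
              mul_one, mul_one]
        _ ≤ 2 * (2 * N / P + 1) := by
            have := hb p1 hp1
            have := hb p2 hp2
            linarith
  calc _ ≤ ∑ n ∈ II N, ∑ p1 ∈ PP P, ∑ p2 ∈ PP P, (2 * (2 * N / P + 1) : ℝ) := by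
        refine (norm_sum_le _ _).trans (sum_le_sum fun n hn => ?_)
        refine (norm_sum_le _ _).trans (sum_le_sum fun p1 hp1 => ?_)
        exact (norm_sum_le _ _).trans (sum_le_sum fun p2 hp2 => h1 n hn p1 hp1 p2 hp2)
    _ = ((II N).card : ℝ) * ((PP P).card * ((PP P).card * (2 * (2 * N / P + 1)))) := by
        rw [sum_const, sum_const, sum_const, nsmul_eq_mul, nsmul_eq_mul, nsmul_eq_mul]
    _ ≤ (2 * N) * ((PP P).card * ((PP P).card * (2 * (2 * N / P + 1)))) := by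
        apply mul_le_mul_of_nonneg_right hII; positivity
    _ = _ := by ring

theorem split (N P : ℕ) (hN : 1 ≤ N) (hP : 1 ≤ P) (η : ℤ) (α : ℕ → ℂ) (hα : ∀ m, ‖α m‖ ≤ 1)
    (F : ℝ → ℂ) (hF : ∀ y, ‖F y‖ ≤ 1) (h0 : 0 < (PP P).card)
    (hPP : ∀ n ∈ II N, (PP P).card ≤ 2 * ((PP P).filter (fun p => ¬ p ∣ n)).card) :
    ∑ n ∈ II N, ‖∑ m ∈ (II N).filter (fun m => Nat.Coprime m n),
        α m * F ((m : ℝ) * n) * kf n η m‖ ^ 2 ≤
      12 * N / ((PP P).card : ℝ) ^ 2 *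
        ((PP P).card * (2 * N) ^ 2 + 2 * (2 * N) * ((PP P).card : ℝ) ^ 2 * (2 * N / P + 1)
          + ‖UU F η N P α‖) := by
  classical
  have hN1 : (1 : ℝ) ≤ N := by exact_mod_cast hN
  have hc : (0 : ℝ) < (PP P).card := by exact_mod_cast h0
  set A : ℕ → ℂ := fun n => ∑ p1 ∈ PP P, ∑ p2 ∈ PP P, ∑ m1 ∈ II N, ∑ m2 ∈ II N,
    (if CC n p1 p2 m1 m2 then tt η α F n p1 p2 m1 m2 else 0) with hA
  have h1 : ∀ n ∈ II N, ‖∑ m ∈ (II N).filter (fun m => Nat.Coprime m n),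
        α m * F ((m : ℝ) * n) * kf n η m‖ ^ 2 ≤ 12 * N / ((PP P).card : ℝ) ^ 2 * (A n).re := by
    intro n hn
    have hn' := mem_II.mp hn
    have hn1 : 1 ≤ n := by omega
    have h2 := amp n hn1 η ((II N).filter (fun m => Nat.Coprime m n))
      ((PP P).filter (fun p => ¬ p ∣ n)) (fun m hm => (mem_filter.mp hm).2)
      (fun p hp => (Nat.Prime.coprime_iff_not_dvd (mem_filter.mp (mem_filter.mp hp).1).2).mpr
        (mem_filter.mp hp).2) (fun m => α m * F ((m : ℝ) * n))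
    have h3 : (∑ p1 ∈ (PP P).filter (fun p => ¬ p ∣ n), ∑ p2 ∈ (PP P).filter (fun p => ¬ p ∣ n),
        ∑ m1 ∈ (II N).filter (fun m => Nat.Coprime m n),
        ∑ m2 ∈ ((II N).filter (fun m => Nat.Coprime m n)).filter
          (fun m2 => p1 * m1 ≡ p2 * m2 [MOD n]),
        (fun m => α m * F ((m : ℝ) * n)) m1 *
          (starRingEnd ℂ) ((fun m => α m * F ((m : ℝ) * n)) m2) *
          kf n (η * ((p1 : ℤ) - p2)) (p1 * m1)) = A n := by
      rw [hA]
      simp only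
      rw [sum_filter]
      refine sum_congr rfl fun p1 _ => ?_
      by_cases e1 : p1 ∣ n
      · rw [if_neg (not_not.mpr e1)]
        symm
        refine sum_eq_zero fun p2 _ => sum_eq_zero fun m1 _ => sum_eq_zero fun m2 _ => ?_
        rw [if_neg]
        intro h
        exact h.1 e1
      · rw [if_pos e1, sum_filter]
        refine sum_congr rfl fun p2 _ => ?_
        by_cases e2 : p2 ∣ n
        · rw [if_neg (not_not.mpr e2)]
          symm
          refine sum_eq_zero fun m1 _ => sum_eq_zero fun m2 _ => ?_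
          rw [if_neg]
          intro h
          exact h.2.1 e2
        · rw [if_pos e2, sum_filter]
          refine sum_congr rfl fun m1 _ => ?_
          by_cases e3 : Nat.Coprime m1 n
          · rw [if_pos e3, filter_filter, sum_filter]
            refine sum_congr rfl fun m2 _ => ?_
            by_cases e4 : Nat.Coprime m2 n ∧ p1 * m1 ≡ p2 * m2 [MOD n]
            · rw [if_pos e4, if_pos ⟨e1, e2, e3, e4.1, e4.2⟩, tt]
            · rw [if_neg e4, if_neg]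
              intro h
              exact e4 ⟨h.2.2.2.1, h.2.2.2.2⟩
          · rw [if_neg e3]
            symm
            refine sum_eq_zero fun m2 _ => ?_
            rw [if_neg]
            intro h
            exact e3 h.2.2.1
    rw [h3] at h2
    set T := ‖∑ m ∈ (II N).filter (fun m => Nat.Coprime m n),
        α m * F ((m : ℝ) * n) * kf n η m‖ with hT
    have hT0 : 0 ≤ T := norm_nonneg _
    have h4 : ((PP P).card : ℝ) ≤ 2 * (((PP P).filter (fun p => ¬ p ∣ n)).card : ℝ) := by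
      exact_mod_cast hPP n hn
    have h5 : ((PP P).card : ℝ) ^ 2 * T ^ 2 ≤
        4 * ((((PP P).filter (fun p => ¬ p ∣ n)).card : ℝ) ^ 2 * T ^ 2) := by
      have : ((PP P).card : ℝ) ^ 2 ≤
          (2 * (((PP P).filter (fun p => ¬ p ∣ n)).card : ℝ)) ^ 2 :=
        pow_le_pow_left₀ hc.le h4 2
      nlinarith only [this, sq_nonneg T]
    have hn0 : (0 : ℝ) < n := by exact_mod_cast hn1
    have h6 : 0 ≤ (A n).re := by
      have h7 : 0 ≤ (n : ℝ) * (A n).re := le_trans (by positivity) h2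
      exact nonneg_of_mul_nonneg_right h7 hn0
    have h7 : (n : ℝ) * (A n).re ≤ 3 * N * (A n).re := by
      apply mul_le_mul_of_nonneg_right _ h6
      have : (n : ℝ) ≤ 2 * N + 1 := by exact_mod_cast hn'.2
      linarith only [hN1, this]
    rw [div_mul_eq_mul_div, le_div_iff₀ (by positivity)]
    calc T ^ 2 * ((PP P).card : ℝ) ^ 2 = ((PP P).card : ℝ) ^ 2 * T ^ 2 := by ring
      _ ≤ 4 * ((((PP P).filter (fun p => ¬ p ∣ n)).card : ℝ) ^ 2 * T ^ 2) := h5
      _ ≤ 4 * (n * (A n).re) := by linarith only [h2]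
      _ ≤ 4 * (3 * N * (A n).re) := by linarith only [h7]
      _ = 12 * N * (A n).re := by ring
  have h2 : (∑ n ∈ II N, (A n).re) ≤ (PP P).card * (2 * N) ^ 2 +
      2 * (2 * N) * ((PP P).card : ℝ) ^ 2 * (2 * N / P + 1) + ‖UU F η N P α‖ := by
    rw [← Complex.re_sum]
    have h3 : ∑ n ∈ II N, A n =
        (∑ n ∈ II N, ∑ p1 ∈ PP P, ∑ p2 ∈ PP P, ∑ m1 ∈ II N, ∑ m2 ∈ II N,
          (if CC n p1 p2 m1 m2 ∧ p1 = p2 then tt η α F n p1 p2 m1 m2 else 0)) +
        (∑ n ∈ II N, ∑ p1 ∈ PP P, ∑ p2 ∈ PP P, ∑ m1 ∈ II N, ∑ m2 ∈ II N,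
          (if CC n p1 p2 m1 m2 ∧ p1 ≠ p2 ∧ (p1 ∣ m2 ∨ p2 ∣ m1) then
            tt η α F n p1 p2 m1 m2 else 0)) +
        (∑ n ∈ II N, ∑ p1 ∈ PP P, ∑ p2 ∈ PP P, ∑ m1 ∈ II N, ∑ m2 ∈ II N,
          (if CC n p1 p2 m1 m2 ∧ p1 ≠ p2 ∧ ¬ (p1 ∣ m2 ∨ p2 ∣ m1) then
            tt η α F n p1 p2 m1 m2 else 0)) := by
      rw [hA]
      simp only [← sum_add_distrib]
      refine sum_congr rfl fun n _ => sum_congr rfl fun p1 _ => sum_congr rfl fun p2 _ =>
        sum_congr rfl fun m1 _ => sum_congr rfl fun m2 _ => ?_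
      by_cases e1 : CC n p1 p2 m1 m2
      · by_cases e2 : p1 = p2
        · simp [e1, e2]
        · by_cases e3 : p1 ∣ m2 ∨ p2 ∣ m1
          · simp [e1, e2, e3]
          · simp [e1, e2, e3]
      · simp [e1]
    rw [h3, third N P hN η α F]
    refine (Complex.re_le_norm _).trans ?_
    refine (norm_add_le _ _).trans ?_
    refine add_le_add ((norm_add_le _ _).trans (add_le_add ?_ ?_)) le_rfl
    · exact first N P hN η α hα F hF
    · exact second N P hN hP η α hα F hF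
  calc _ ≤ ∑ n ∈ II N, 12 * N / ((PP P).card : ℝ) ^ 2 * (A n).re := sum_le_sum h1
    _ = 12 * N / ((PP P).card : ℝ) ^ 2 * ∑ n ∈ II N, (A n).re := by rw [mul_sum]
    _ ≤ _ := by
        apply mul_le_mul_of_nonneg_left h2
        positivity

end Pool.Agent.H80.KF

end

section

/-!
# The number of primes in `(P, 4P]`

Mathlib `Chebyshev.theta_ge`, `Chebyshev.theta_le_log4_mul_x`:
`θ(4P) - θ(P) ≥ 4P log 2 - P log 4 - o(P) = 2 P log 2 - o(P)`, so there are at least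
`(1.38 P - o(P))/log(4P) ≥ P/log P` primes in `(P, 4P]`.
`pp_half`: at most `log(3N)/log P ≤ 30` of them divide a given `n ≤ 3N`.
-/

set_option autoImplicit false

namespace Pool.Agent.H80.KF

open Finset

theorem pp_card_le (P : ℕ) : ((PP P).card : ℝ) ≤ 3 * P := by
  have h : (PP P).card ≤ (Ioc P (4 * P)).card := Finset.card_filter_le _ _
  rw [Nat.card_Ioc] at h
  have h2 : (PP P).card ≤ 3 * P := by omega
  exact_mod_cast h2

private theorem ppc_theta (P : ℕ) :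
    Chebyshev.theta ((4 * P : ℕ) : ℝ) - Chebyshev.theta (P : ℝ) ≤
      ((PP P).card : ℝ) * Real.log (4 * P) := by
  rcases Nat.eq_zero_or_pos P with rfl | hP
  · simp
  have h1 : Chebyshev.theta ((4 * P : ℕ) : ℝ) = ∑ p ∈ (Ioc 0 (4 * P)).filter Nat.Prime, Real.log p := by
    rw [Chebyshev.theta, Nat.floor_natCast]
  have h2 : Chebyshev.theta (P : ℝ) = ∑ p ∈ (Ioc 0 P).filter Nat.Prime, Real.log p := by
    rw [Chebyshev.theta, Nat.floor_natCast]
  have h3 : (Ioc 0 (4 * P)).filter Nat.Prime = (Ioc 0 P).filter Nat.Prime ∪ PP P := by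
    ext p
    simp only [PP, Finset.mem_filter, Finset.mem_union, Finset.mem_Ioc]
    constructor
    · rintro ⟨⟨a, b⟩, c⟩
      by_cases h : p ≤ P
      · exact Or.inl ⟨⟨a, h⟩, c⟩
      · exact Or.inr ⟨⟨by omega, b⟩, c⟩
    · rintro (⟨⟨a, b⟩, c⟩ | ⟨⟨a, b⟩, c⟩)
      · exact ⟨⟨a, by omega⟩, c⟩
      · exact ⟨⟨by omega, b⟩, c⟩
  have h4 : Disjoint ((Ioc 0 P).filter Nat.Prime) (PP P) := by
    rw [Finset.disjoint_left]
    intro p hp hq
    simp only [PP, Finset.mem_filter, Finset.mem_Ioc] at hp hq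
    omega
  rw [h1, h2, h3, Finset.sum_union h4, add_sub_cancel_left]
  calc ∑ p ∈ PP P, Real.log p ≤ ∑ p ∈ PP P, Real.log (4 * P) := by
        apply Finset.sum_le_sum
        intro p hp
        simp only [PP, Finset.mem_filter, Finset.mem_Ioc] at hp
        apply Real.log_le_log
        · exact_mod_cast (by omega : 0 < p)
        · exact_mod_cast hp.1.2
    _ = ((PP P).card : ℝ) * Real.log (4 * P) := by
        rw [Finset.sum_const, nsmul_eq_mul]

private theorem ppc_exp {L : ℝ} (hL : 400 ≤ L) : 40 * (L + 2) ≤ Real.exp (L / 2) := by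
  have h1 := Real.quadratic_le_exp_of_nonneg (x := L / 2) (by linarith)
  have h2 : 40 * (L + 2) ≤ 1 + L / 2 + (L / 2) ^ 2 / 2 := by nlinarith
  linarith

private theorem ppc_log_bounds {P : ℕ} (hP : Real.exp 400 ≤ (P : ℝ)) :
    0 < (P : ℝ) ∧ 400 ≤ Real.log P ∧ Real.log (4 * P) ≤ Real.log P + 1.4 ∧
      Real.log (4 * P + 1) ≤ Real.log P + 2 ∧ 40 * (Real.log P + 2) ≤ Real.sqrt P ∧
      1 ≤ Real.sqrt P := by
  have hpos : 0 < (P : ℝ) := lt_of_lt_of_le (Real.exp_pos _) hP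
  have hL : 400 ≤ Real.log P := by
    rw [Real.le_log_iff_exp_le hpos]
    exact hP
  have hl2 := Real.log_two_lt_d9
  have h4 : Real.log 4 = 2 * Real.log 2 := by
    rw [show (4 : ℝ) = 2 ^ 2 by norm_num, Real.log_pow]
    norm_num
  have h8 : Real.log 8 = 3 * Real.log 2 := by
    rw [show (8 : ℝ) = 2 ^ 3 by norm_num, Real.log_pow]
    norm_num
  have hs : Real.sqrt P = Real.exp (Real.log P / 2) := by
    rw [Real.sqrt_eq_rpow, Real.rpow_def_of_pos hpos]
    congr 1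
    ring
  have h5 : 1 ≤ (P : ℝ) := by
    have := Real.add_one_le_exp (400 : ℝ)
    linarith
  have hexp5 : (5 : ℝ) ≤ Real.exp 2 := by
    have := Real.quadratic_le_exp_of_nonneg (x := 2) (by norm_num)
    linarith
  refine ⟨hpos, hL, ?_, ?_, ?_, ?_⟩
  · rw [Real.log_mul (by norm_num) hpos.ne', h4]
    linarith
  · have h6 : Real.log (4 * P + 1) ≤ Real.log (5 * P) :=
      Real.log_le_log (by linarith) (by linarith)
    rw [Real.log_mul (by norm_num) hpos.ne'] at h6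
    have h7 : Real.log 5 ≤ 2 := by
      rw [Real.log_le_iff_le_exp (by norm_num)]
      exact hexp5
    linarith
  · rw [hs]
    exact ppc_exp hL
  · rw [hs]
    have := ppc_exp hL
    linarith

private theorem ppc_ge {P : ℕ} (hP : Real.exp 400 ≤ (P : ℝ)) :
    (P : ℝ) / Real.log P ≤ ((PP P).card : ℝ) := by
  obtain ⟨hpos, hL, h1, h2, h3, h3'⟩ := ppc_log_bounds hP
  have hθ := ppc_theta P
  have hg := Chebyshev.theta_ge (4 * P)
  have hu := Chebyshev.theta_le_log4_mul_x (x := (P : ℝ)) hpos.le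
  have h4 : Real.log 4 = 2 * Real.log 2 := by
    rw [show (4 : ℝ) = 2 ^ 2 by norm_num, Real.log_pow]
    norm_num
  rw [h4] at hu
  push_cast at hg hθ
  have hsq : Real.sqrt (4 * P) = 2 * Real.sqrt P := by
    rw [Real.sqrt_mul (by norm_num)]
    congr 1
    rw [show (4 : ℝ) = 2 ^ 2 by norm_num]
    exact Real.sqrt_sq (by norm_num)
  rw [hsq] at hg
  have hss : Real.sqrt P * Real.sqrt P = P := Real.mul_self_sqrt hpos.le
  have hl2 := Real.log_two_gt_d9
  have hLpos : 0 < Real.log P := by linarith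
  have h5 : 4 * Real.sqrt P * Real.log (4 * P) ≤ (1 / 10) * P := by
    have h6 : Real.log (4 * P) ≤ Real.sqrt P / 40 := by linarith
    have h7 : 4 * Real.sqrt P * Real.log (4 * P) ≤ 4 * Real.sqrt P * (Real.sqrt P / 40) :=
      mul_le_mul_of_nonneg_left h6 (by positivity)
    nlinarith
  have h8 : Real.log (4 * P + 1) ≤ (1 / 10) * P := by
    have h9 : Real.sqrt P ≤ P := by nlinarith
    linarith
  have h10 : (1.18 : ℝ) * P ≤ ((PP P).card : ℝ) * Real.log (4 * P) := by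
    have h11 : 4 * (P : ℝ) * Real.log 2 - Real.log (4 * P + 1) - 2 * (2 * Real.sqrt P) * Real.log (4 * P)
        - 2 * Real.log 2 * P ≤ ((PP P).card : ℝ) * Real.log (4 * P) := by linarith
    nlinarith
  have hc0 : (0 : ℝ) ≤ ((PP P).card : ℝ) := Nat.cast_nonneg _
  have h12 : ((PP P).card : ℝ) * Real.log (4 * P) ≤ ((PP P).card : ℝ) * (1.0035 * Real.log P) := by
    apply mul_le_mul_of_nonneg_left _ hc0
    linarith
  rw [div_le_iff₀ hLpos]
  nlinarith [mul_nonneg hc0 hLpos.le]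

theorem pp_card_ge : ∃ P0 : ℕ, ∀ P : ℕ, P0 ≤ P → (P : ℝ) / Real.log P ≤ ((PP P).card : ℝ) := by
  refine ⟨⌈Real.exp 400⌉₊, fun P hP => ppc_ge ?_⟩
  exact le_trans (Nat.le_ceil _) (by exact_mod_cast hP)

private theorem ppc_60 {P : ℕ} (hP : Real.exp 400 ≤ (P : ℝ)) : 60 ≤ (PP P).card := by
  obtain ⟨hpos, hL, -, -, h3, h3'⟩ := ppc_log_bounds hP
  have h := ppc_ge hP
  have hss : Real.sqrt P * Real.sqrt P = P := Real.mul_self_sqrt hpos.le
  have h1 : (60 : ℝ) ≤ P / Real.log P := by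
    rw [le_div_iff₀ (by linarith)]
    nlinarith
  have h2 : (60 : ℝ) ≤ ((PP P).card : ℝ) := le_trans h1 h
  exact_mod_cast h2

theorem pp_half : ∃ N0 : ℕ, ∀ N P : ℕ, N0 ≤ N → (N : ℝ) ^ ((1 : ℝ) / 25) ≤ P → ∀ n ∈ II N,
    (PP P).card ≤ 2 * ((PP P).filter (fun p => ¬ p ∣ n)).card := by
  refine ⟨max 243 ⌈Real.exp 400 ^ (25 : ℕ)⌉₊, fun N P hN hNP n hn => ?_⟩
  have hN1 : 243 ≤ N := le_trans (le_max_left _ _) hN
  have hN2 : Real.exp 400 ^ (25 : ℕ) ≤ (N : ℝ) :=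
    le_trans (Nat.le_ceil _) (by exact_mod_cast le_trans (le_max_right _ _) hN)
  have hNpos : (0 : ℝ) < N := by exact_mod_cast (by omega : 0 < N)
  have hP : Real.exp 400 ≤ (P : ℝ) := by
    refine le_trans ?_ hNP
    have h1 : Real.exp 400 = (Real.exp 400 ^ (25 : ℕ)) ^ ((1 : ℝ) / 25) := by
      rw [← Real.rpow_natCast, ← Real.rpow_mul (Real.exp_pos _).le]
      norm_num
    rw [h1]
    exact Real.rpow_le_rpow (by positivity) hN2 (by norm_num)
  have h60 := ppc_60 hP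
  have hPpos : (0 : ℝ) < P := lt_of_lt_of_le (Real.exp_pos _) hP
  have hsplit : ((PP P).filter (fun p => p ∣ n)).card + ((PP P).filter (fun p => ¬ p ∣ n)).card
      = (PP P).card := Finset.card_filter_add_card_filter_not _
  have hn' : 0 < n ∧ n ≤ 3 * N := by
    unfold II at hn
    rw [Finset.mem_Ioc] at hn
    constructor
    · omega
    · omega
  suffices hk : ((PP P).filter (fun p => p ∣ n)).card ≤ 30 by omega
  by_contra hcon
  push Not at hcon
  have hprod : ∏ p ∈ (PP P).filter (fun p => p ∣ n), p ∣ n := by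
    apply Finset.prod_primes_dvd
    · intro p hp
      simp only [PP, Finset.mem_filter] at hp
      exact hp.1.2.prime
    · intro p hp
      simp only [Finset.mem_filter] at hp
      exact hp.2
  have hle := Nat.le_of_dvd hn'.1 hprod
  have hpow : P ^ ((PP P).filter (fun p => p ∣ n)).card ≤ ∏ p ∈ (PP P).filter (fun p => p ∣ n), p := by
    apply Finset.pow_card_le_prod
    intro p hp
    simp only [PP, Finset.mem_filter, Finset.mem_Ioc] at hp
    omega
  have hP1 : 1 ≤ P := by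
    have : (0 : ℝ) < P := hPpos
    exact_mod_cast this
  have h31 : P ^ 31 ≤ P ^ ((PP P).filter (fun p => p ∣ n)).card :=
    Nat.pow_le_pow_right hP1 (by omega)
  have hfin : (P : ℝ) ^ (31 : ℕ) ≤ 3 * N := by
    have : P ^ 31 ≤ 3 * N := le_trans h31 (le_trans hpow (le_trans hle hn'.2))
    exact_mod_cast this
  have h5 : ((N : ℝ) ^ ((1 : ℝ) / 25)) ^ (31 : ℕ) ≤ (P : ℝ) ^ (31 : ℕ) :=
    pow_le_pow_left₀ (by positivity) hNP 31
  have h6 : ((N : ℝ) ^ ((1 : ℝ) / 25)) ^ (31 : ℕ) = N * (N : ℝ) ^ ((6 : ℝ) / 25) := by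
    rw [← Real.rpow_natCast, ← Real.rpow_mul hNpos.le]
    nth_rewrite 2 [← Real.rpow_one (N : ℝ)]
    rw [← Real.rpow_add hNpos]
    norm_num
  have h7 : (3 : ℝ) < (N : ℝ) ^ ((6 : ℝ) / 25) := by
    have h8 : (243 : ℝ) ^ ((6 : ℝ) / 25) ≤ (N : ℝ) ^ ((6 : ℝ) / 25) :=
      Real.rpow_le_rpow (by norm_num) (by exact_mod_cast hN1) (by norm_num)
    have h9 : (243 : ℝ) ^ ((6 : ℝ) / 25) = 3 ^ ((6 : ℝ) / 5) := by
      rw [show (243 : ℝ) = 3 ^ (5 : ℝ) by norm_num, ← Real.rpow_mul (by norm_num)]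
      norm_num
    have h10 : (3 : ℝ) ^ (1 : ℝ) < 3 ^ ((6 : ℝ) / 5) :=
      Real.rpow_lt_rpow_of_exponent_lt (by norm_num) (by norm_num)
    rw [Real.rpow_one] at h10
    linarith
  nlinarith

end Pool.Agent.H80.KF

end

section

/-!
# The Fejér weight: exact sums over residue classes

`W = 2xJ`, `m ∣ W`, `RW` is a complete system of residues mod `W`.
`∑_{n ∈ RW, n ≡ c (m)} |∑_j e(jn/W)|² = ∑_{j,j' < J} ∑_{n ≡ c (m)} e((j-j')n/W)`; with `n = c + mk`,
`k` mod `W/m`, the inner sum is `(W/m) e((j-j')c/W)` if `(W/m) ∣ j - j'` and `0` otherwise.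
`j - j' = (W/m) l` has `(J - (W/m)|l|)⁺` solutions and `W/J = 2x`; so the total is
`(W/m) J ∑_l (1 - 2x|l|/m)⁺ e(lc/m)`, and `(π²/4)/J² · (W/m) J = π² x/(2m)`.
For `m ≤ 2x` only `l = 0` remains.
-/

set_option autoImplicit false

namespace Pool.Agent.H80.KF

open Finset

private theorem fejB_ee_mul (k : ℕ) (t : ℝ) : ee (t * k) = ee t ^ k := by
  induction k with
  | zero => rw [Nat.cast_zero, mul_zero, ee_zero, pow_zero]
  | succ k ih => rw [Nat.cast_succ, mul_add, mul_one, ee_add, ih, pow_succ]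

private theorem fejB_ee_one {M : ℕ} (hM : 1 ≤ M) {h : ℤ} (h1 : ee ((h : ℝ) / M) = 1) :
    (M : ℤ) ∣ h := by
  unfold ee at h1
  rw [Complex.exp_eq_one_iff] at h1
  obtain ⟨n, hn⟩ := h1
  have hpi : (2 * Real.pi * Complex.I : ℂ) ≠ 0 := by
    simp [Real.pi_ne_zero, Complex.I_ne_zero]
  have h2 : (((h : ℝ) / M : ℝ) : ℂ) = n := by
    apply mul_right_cancel₀ hpi
    rw [← hn]
    ring
  have hM0 : (M : ℝ) ≠ 0 := by
    have : (0 : ℝ) < M := by exact_mod_cast hM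
    exact this.ne'
  have h3 : ((h : ℝ) / M : ℝ) = (n : ℝ) := by exact_mod_cast h2
  rw [div_eq_iff hM0] at h3
  exact ⟨n, by rw [mul_comm]; exact_mod_cast h3⟩

private theorem fejB_geom {M : ℕ} (hM : 1 ≤ M) (h : ℤ) :
    ∑ k ∈ range M, ee ((h : ℝ) / M * k) = if (M : ℤ) ∣ h then (M : ℂ) else 0 := by
  have hM0 : (M : ℝ) ≠ 0 := by
    have : (0 : ℝ) < M := by exact_mod_cast hM
    exact this.ne'
  split_ifs with hd
  · obtain ⟨l, rfl⟩ := hd
    have h1 : ∀ k ∈ range M, ee ((((M : ℤ) * l : ℤ) : ℝ) / M * k) = 1 := by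
      intro k _
      have : (((M : ℤ) * l : ℤ) : ℝ) / M * k = ((l * k : ℤ) : ℝ) := by
        push_cast
        field_simp
      rw [this, ee_int]
    rw [Finset.sum_congr rfl h1]
    simp
  · simp only [fejB_ee_mul]
    have hne : ee ((h : ℝ) / M) ≠ 1 := fun h1 => hd (fejB_ee_one hM h1)
    have hpow : ee ((h : ℝ) / M) ^ M = 1 := by
      rw [← fejB_ee_mul, div_mul_cancel₀ _ hM0, ee_int]
    have h2 := mul_geom_sum (ee ((h : ℝ) / M)) M
    rw [hpow, sub_self] at h2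
    exact (mul_eq_zero.1 h2).resolve_left (sub_ne_zero.2 hne)

/-- Sums of a periodic function over a period. -/
private theorem fejB_shift {W : ℕ} (F : ℤ → ℂ) (hF : ∀ n, F (n + W) = F n) (a b : ℤ) :
    ∑ t ∈ range W, F (a + t) = ∑ t ∈ range W, F (b + t) := by
  have step : ∀ a : ℤ, ∑ t ∈ range W, F (a + 1 + t) = ∑ t ∈ range W, F (a + t) := by
    intro a
    have h1 := Finset.sum_range_succ (fun t : ℕ => F (a + t)) W
    have h2 := Finset.sum_range_succ' (fun t : ℕ => F (a + t)) W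
    rw [h1] at h2
    simp only [Nat.cast_zero, add_zero] at h2
    rw [hF] at h2
    have h3 := add_right_cancel h2
    rw [h3]
    refine Finset.sum_congr rfl fun t _ => ?_
    congr 1
    push_cast
    ring
  have key : ∀ k : ℕ, ∀ a : ℤ, ∑ t ∈ range W, F (a + k + t) = ∑ t ∈ range W, F (a + t) := by
    intro k
    induction k with
    | zero => intro a; simp
    | succ k ih =>
      intro a
      rw [← ih a, ← step (a + k)]
      refine Finset.sum_congr rfl fun t _ => ?_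
      congr 1
      push_cast
      ring
  rcases le_total a b with h | h
  · obtain ⟨k, hk⟩ := Int.eq_ofNat_of_zero_le (sub_nonneg.2 h)
    have : b = a + k := by omega
    rw [this, key]
  · obtain ⟨k, hk⟩ := Int.eq_ofNat_of_zero_le (sub_nonneg.2 h)
    have : a = b + k := by omega
    rw [this, key]

private theorem fejB_Ico (x J : ℕ) (F : ℤ → ℂ) :
    ∑ n ∈ RW x J, F n = ∑ t ∈ range (2 * x * J), F (-(x * J : ℤ) + t) := by
  unfold RW
  refine Finset.sum_nbij' (fun n => (n + x * J).toNat) (fun t => -(x * J : ℤ) + t) ?_ ?_ ?_ ?_ ?_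
  · intro n hn
    rw [Finset.mem_Ico] at hn
    rw [Finset.mem_range]
    have h0 : ((2 * x * J : ℕ) : ℤ) = (x * J : ℤ) + (x * J : ℤ) := by push_cast; ring
    generalize (x * J : ℤ) = y at *
    omega
  · intro t ht
    rw [Finset.mem_range] at ht
    rw [Finset.mem_Ico]
    have h0 : ((2 * x * J : ℕ) : ℤ) = (x * J : ℤ) + (x * J : ℤ) := by push_cast; ring
    generalize (x * J : ℤ) = y at *
    omega
  · intro n hn
    rw [Finset.mem_Ico] at hn
    generalize (x * J : ℤ) = y at *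
    omega
  · intro t _
    generalize (x * J : ℤ) = y at *
    omega
  · intro n hn
    rw [Finset.mem_Ico] at hn
    congr 1
    generalize (x * J : ℤ) = y at *
    omega

/-- The sum of a character over a residue class. -/
private theorem fejB_class (x J m : ℕ) (hx : 1 ≤ x) (hJ : 1 ≤ J) (hm : 1 ≤ m) {M : ℕ}
    (hW : 2 * x * J = M * m) (c h : ℤ) :
    ∑ n ∈ (RW x J).filter (fun n => (m : ℤ) ∣ n - c), ee ((h : ℝ) * n / (2 * x * J)) =
      if (M : ℤ) ∣ h then (M : ℂ) * ee ((h : ℝ) * c / (2 * x * J)) else 0 := by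
  have hWpos : 0 < 2 * x * J := by positivity
  have hM : 1 ≤ M := by
    rcases Nat.eq_zero_or_pos M with h0 | h0
    · rw [h0, zero_mul] at hW; omega
    · exact h0
  have hWr : (2 * x * J : ℝ) = M * m := by exact_mod_cast hW
  have hW0 : (2 * x * J : ℝ) ≠ 0 := by
    have : (0 : ℝ) < ((2 * x * J : ℕ) : ℝ) := by exact_mod_cast hWpos
    push_cast at this
    exact this.ne'
  have hm0 : (m : ℝ) ≠ 0 := by
    have : (0 : ℝ) < m := by exact_mod_cast hm
    exact this.ne'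
  have hM0 : (M : ℝ) ≠ 0 := by
    have : (0 : ℝ) < M := by exact_mod_cast hM
    exact this.ne'
  let F : ℤ → ℂ := fun n => if (m : ℤ) ∣ n - c then ee ((h : ℝ) * n / (2 * x * J)) else 0
  have hF : ∀ n, F (n + (2 * x * J : ℕ)) = F n := by
    intro n
    have h1 : (m : ℤ) ∣ n + (2 * x * J : ℕ) - c ↔ (m : ℤ) ∣ n - c := by
      have h2 : (m : ℤ) ∣ ((2 * x * J : ℕ) : ℤ) := by
        rw [hW]; push_cast; exact Dvd.intro_left _ rfl
      rw [show n + (2 * x * J : ℕ) - c = (n - c) + (2 * x * J : ℕ) by ring]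
      exact dvd_add_left h2
    have h2 : ee ((h : ℝ) * ((n + (2 * x * J : ℕ) : ℤ) : ℝ) / (2 * x * J)) =
        ee ((h : ℝ) * n / (2 * x * J)) := by
      apply ee_eq_of_int h
      push_cast
      field_simp
      ring
    simp only [F, h1, h2]
  rw [Finset.sum_filter]
  change ∑ n ∈ RW x J, F n = _
  rw [fejB_Ico, fejB_shift F hF _ c, hW]
  have h1 : ∀ t : ℕ, F (c + t) = if m ∣ t then ee ((h : ℝ) * c / (2 * x * J)) *
      ee ((h : ℝ) * t / (2 * x * J)) else 0 := by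
    intro t
    have h2 : (m : ℤ) ∣ c + t - c ↔ m ∣ t := by
      rw [add_sub_cancel_left]
      exact Int.natCast_dvd_natCast
    have h3 : ee ((h : ℝ) * ((c + t : ℤ) : ℝ) / (2 * x * J)) = ee ((h : ℝ) * c / (2 * x * J)) *
      ee ((h : ℝ) * t / (2 * x * J)) := by
      rw [← ee_add]
      congr 1
      push_cast
      ring
    simp only [F, h2, h3]
  simp only [h1]
  rw [← Finset.sum_filter]
  have himg : (range (M * m)).filter (fun t => m ∣ t) = (range M).image (fun k => m * k) := by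
    ext t
    simp only [Finset.mem_filter, Finset.mem_range, Finset.mem_image]
    constructor
    · rintro ⟨h2, k, rfl⟩
      refine ⟨k, ?_, rfl⟩
      rw [mul_comm M m] at h2
      exact Nat.lt_of_mul_lt_mul_left h2
    · rintro ⟨k, hk, rfl⟩
      refine ⟨?_, Dvd.intro _ rfl⟩
      rw [mul_comm M m]
      exact Nat.mul_lt_mul_of_pos_left hk hm
  rw [himg, Finset.sum_image (fun a _ b _ hab => Nat.eq_of_mul_eq_mul_left hm hab),
    ← Finset.mul_sum]
  have h4 : ∀ k ∈ range M, ee ((h : ℝ) * ((m * k : ℕ) : ℝ) / (2 * x * J)) =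
      ee ((h : ℝ) / M * k) := by
    intro k _
    congr 1
    rw [hWr]
    push_cast
    field_simp
  rw [Finset.sum_congr rfl h4, fejB_geom hM]
  split_ifs <;> ring

/-- The number of pairs with a given difference. -/
private theorem fejB_count (J : ℕ) (h : ℤ) :
    ((range J ×ˢ range J).filter (fun p => (p.1 : ℤ) - p.2 = h)).card = J - h.natAbs := by
  rcases le_total 0 h with h0 | h0
  · have : (range J ×ˢ range J).filter (fun p => (p.1 : ℤ) - p.2 = h) =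
        (range (J - h.natAbs)).image (fun j => (j + h.natAbs, j)) := by
      ext ⟨a, b⟩
      simp only [Finset.mem_filter, Finset.mem_product, Finset.mem_range, Finset.mem_image,
        Prod.mk.injEq]
      constructor
      · rintro ⟨⟨h1, h2⟩, h3⟩
        exact ⟨b, by omega, by omega, rfl⟩
      · rintro ⟨j, hj, h1, h2⟩
        omega
    rw [this, Finset.card_image_of_injective, Finset.card_range]
    intro a b hab
    exact congrArg Prod.snd hab
  · have : (range J ×ˢ range J).filter (fun p => (p.1 : ℤ) - p.2 = h) =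
        (range (J - h.natAbs)).image (fun j => (j, j + h.natAbs)) := by
      ext ⟨a, b⟩
      simp only [Finset.mem_filter, Finset.mem_product, Finset.mem_range, Finset.mem_image,
        Prod.mk.injEq]
      constructor
      · rintro ⟨⟨h1, h2⟩, h3⟩
        exact ⟨a, by omega, rfl, by omega⟩
      · rintro ⟨j, hj, h1, h2⟩
        omega
    rw [this, Finset.card_image_of_injective, Finset.card_range]
    intro a b hab
    exact congrArg Prod.fst hab

private theorem fejB_pairs (J W : ℕ) (hJW : J ≤ W) (G : ℤ → ℂ) :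
    ∑ p ∈ range J ×ˢ range J, G ((p.1 : ℤ) - p.2) =
      ∑ h ∈ Icc (-(W : ℤ)) W, ((J - h.natAbs : ℕ) : ℂ) * G h := by
  rw [← Finset.sum_fiberwise_of_maps_to (t := Icc (-(W : ℤ)) W)
    (g := fun p : ℕ × ℕ => (p.1 : ℤ) - p.2)]
  · refine Finset.sum_congr rfl fun h _ => ?_
    rw [← fejB_count, ← nsmul_eq_mul, ← Finset.sum_const]
    refine Finset.sum_congr rfl fun p hp => ?_
    rw [(Finset.mem_filter.1 hp).2]
  · intro p hp
    rw [Finset.mem_product, Finset.mem_range, Finset.mem_range] at hp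
    rw [Finset.mem_Icc]
    omega

private theorem fejB_mult (M m : ℕ) (hM : 1 ≤ M) (G : ℤ → ℂ) :
    ∑ h ∈ Icc (-((M * m : ℕ) : ℤ)) (M * m : ℕ), (if (M : ℤ) ∣ h then G h else 0) =
      ∑ l ∈ Icc (-(m : ℤ)) m, G (M * l) := by
  have hM' : (0 : ℤ) < M := by exact_mod_cast hM
  rw [← Finset.sum_filter]
  have himg : (Icc (-((M * m : ℕ) : ℤ)) (M * m : ℕ)).filter (fun h => (M : ℤ) ∣ h) =
      (Icc (-(m : ℤ)) m).image (fun l => (M : ℤ) * l) := by
    ext h
    simp only [Finset.mem_filter, Finset.mem_Icc, Finset.mem_image]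
    constructor
    · rintro ⟨⟨h1, h2⟩, l, rfl⟩
      refine ⟨l, ⟨?_, ?_⟩, rfl⟩
      · push_cast at h1
        nlinarith only [hM, h1]
      · push_cast at h2
        nlinarith only [hM, h2]
    · rintro ⟨l, ⟨h1, h2⟩, rfl⟩
      refine ⟨⟨?_, ?_⟩, Dvd.intro _ rfl⟩
      · push_cast
        nlinarith only [h1]
      · push_cast
        nlinarith only [h2]
  rw [himg, Finset.sum_image (fun a _ b _ hab => mul_left_cancel₀ hM'.ne' hab)]

theorem ww_class (x J m : ℕ) (hx : 1 ≤ x) (hJ : 1 ≤ J) (hm : 1 ≤ m) (hdiv : m ∣ 2 * x * J)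
    (c : ℤ) :
    ((∑ n ∈ (RW x J).filter (fun n => (m : ℤ) ∣ n - c), ww x J n : ℝ) : ℂ) =
      ((Real.pi ^ 2 * x / (2 * m) : ℝ) : ℂ) * fej x m c := by
  obtain ⟨M, hM⟩ := hdiv
  rw [mul_comm m M] at hM
  have hWpos : 0 < 2 * x * J := by positivity
  have hM1 : 1 ≤ M := by
    rcases Nat.eq_zero_or_pos M with h0 | h0
    · rw [h0, zero_mul] at hM; omega
    · exact h0
  have hWr : (2 * x * J : ℝ) = M * m := by exact_mod_cast hM
  have hx0 : (0 : ℝ) < x := by exact_mod_cast hx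
  have hJ0 : (0 : ℝ) < J := by exact_mod_cast hJ
  have hm0 : (0 : ℝ) < m := by exact_mod_cast hm
  have hM0 : (0 : ℝ) < M := by exact_mod_cast hM1
  have hww : ∀ n : ℤ, ((ww x J n : ℝ) : ℂ) = ((Real.pi ^ 2 / 4 / (J : ℝ) ^ 2 : ℝ) : ℂ) *
      ∑ p ∈ range J ×ˢ range J, ee ((((p.1 : ℤ) - p.2 : ℤ) : ℝ) * n / (2 * x * J)) := by
    intro n
    unfold ww
    rw [Complex.ofReal_mul]
    congr 1
    rw [Complex.ofReal_pow, ← Complex.mul_conj', map_sum, Finset.sum_mul_sum,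
      Finset.sum_product]
    refine Finset.sum_congr rfl fun i _ => Finset.sum_congr rfl fun j _ => ?_
    rw [conj_ee, ← ee_add]
    congr 1
    push_cast
    ring
  rw [Complex.ofReal_sum, Finset.sum_congr rfl fun n _ => hww n, ← Finset.mul_sum,
    Finset.sum_comm]
  rw [Finset.sum_congr rfl fun p _ => fejB_class x J m hx hJ hm hM c ((p.1 : ℤ) - p.2)]
  have hJW : J ≤ M * m := by
    rw [← hM]
    calc J = 1 * J := (one_mul J).symm
      _ ≤ 2 * x * J := Nat.mul_le_mul_right _ (by omega)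
  rw [fejB_pairs J (M * m) hJW (fun h => if (M : ℤ) ∣ h then (M : ℂ) *
    ee ((h : ℝ) * c / (2 * x * J)) else 0)]
  have h1 : ∀ h : ℤ, ((J - h.natAbs : ℕ) : ℂ) * (if (M : ℤ) ∣ h then (M : ℂ) *
      ee ((h : ℝ) * c / (2 * x * J)) else 0) = if (M : ℤ) ∣ h then ((J - h.natAbs : ℕ) : ℂ) *
        ((M : ℂ) * ee ((h : ℝ) * c / (2 * x * J))) else 0 := by
    intro h
    split_ifs
    · rfl
    · rw [mul_zero]
  rw [Finset.sum_congr rfl fun h _ => h1 h, fejB_mult M m hM1 (fun h =>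
    ((J - h.natAbs : ℕ) : ℂ) * ((M : ℂ) * ee ((h : ℝ) * c / (2 * x * J)))), fej,
    Finset.mul_sum, Finset.mul_sum]
  refine Finset.sum_congr rfl fun l _ => ?_
  have h2 : ee ((((M : ℤ) * l : ℤ) : ℝ) * c / (2 * x * J)) = ee ((l : ℝ) * c / m) := by
    congr 1
    rw [hWr]
    push_cast
    field_simp
  have h3 : ((J - ((M : ℤ) * l).natAbs : ℕ) : ℝ) = J * max 0 (1 - 2 * x * |(l : ℝ)| / m) := by
    have h4 : ((((M : ℤ) * l).natAbs : ℕ) : ℝ) = M * |(l : ℝ)| := by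
      rw [Nat.cast_natAbs, abs_mul]
      push_cast
      rw [Nat.abs_cast]
    have h5 : (M : ℝ) * |(l : ℝ)| = J * (2 * x * |(l : ℝ)| / m) := by
      field_simp
      linear_combination (-(|(l : ℝ)|)) * hWr
    rcases le_total ((M : ℤ) * l).natAbs J with h6 | h6
    · have h7 : (0 : ℝ) ≤ 1 - 2 * x * |(l : ℝ)| / m := by
        have h8 : ((((M : ℤ) * l).natAbs : ℕ) : ℝ) ≤ J := by exact_mod_cast h6
        rw [h4, h5] at h8
        have h9 : J * (2 * x * |(l : ℝ)| / m) ≤ J * 1 := by rw [mul_one]; exact h8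
        have := le_of_mul_le_mul_left h9 hJ0
        linarith only [this]
      rw [Nat.cast_sub h6, h4, max_eq_right h7, h5]
      ring
    · have h7 : 1 - 2 * x * |(l : ℝ)| / m ≤ 0 := by
        have h8 : (J : ℝ) ≤ ((((M : ℤ) * l).natAbs : ℕ) : ℝ) := by exact_mod_cast h6
        rw [h4, h5] at h8
        have h9 : (J : ℝ) * 1 ≤ J * (2 * x * |(l : ℝ)| / m) := by rw [mul_one]; exact h8
        have := le_of_mul_le_mul_left h9 hJ0
        linarith only [this]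
      rw [Nat.sub_eq_zero_of_le h6, max_eq_left h7]
      simp
  have h4 : (((J - ((M : ℤ) * l).natAbs : ℕ) : ℝ) : ℂ) =
      ((J * max 0 (1 - 2 * x * |(l : ℝ)| / m) : ℝ) : ℂ) := by rw [h3]
  rw [h2]
  rw [Complex.ofReal_natCast] at h4
  rw [h4]
  have h5 : (Real.pi ^ 2 / 4 / (J : ℝ) ^ 2) * (J * M) = Real.pi ^ 2 * x / (2 * m) := by
    field_simp
    linear_combination (-2) * hWr
  rw [← h5]
  push_cast
  ring

theorem fej_small (x m : ℕ) (hm : 1 ≤ m) (h : m ≤ 2 * x) (c : ℤ) : fej x m c = 1 := by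
  have hm0 : (0 : ℝ) < m := by exact_mod_cast hm
  unfold fej
  rw [Finset.sum_eq_single 0]
  · simp [ee_zero]
  · intro l _ hl
    have h1 : (1 : ℝ) ≤ |(l : ℝ)| := by
      have := Int.one_le_abs hl
      exact_mod_cast this
    have h2 : 1 - 2 * x * |(l : ℝ)| / m ≤ 0 := by
      rw [sub_nonpos, one_le_div hm0]
      have h3 : (m : ℝ) ≤ 2 * x := by exact_mod_cast h
      have h4 : (0 : ℝ) ≤ 2 * x := hm0.le.trans h3
      nlinarith only [h3, h1]
    rw [max_eq_left h2]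
    simp
  · intro h0
    exfalso
    apply h0
    rw [Finset.mem_Icc]
    constructor <;> omega

theorem ww_class_small (x J m : ℕ) (hx : 1 ≤ x) (hJ : 1 ≤ J) (hm : 1 ≤ m)
    (hdiv : m ∣ 2 * x * J) (h : m ≤ 2 * x) (c : ℤ) :
    ∑ n ∈ (RW x J).filter (fun n => (m : ℤ) ∣ n - c), ww x J n = Real.pi ^ 2 * x / (2 * m) := by
  have h1 := ww_class x J m hx hJ hm hdiv c
  rw [fej_small x m hm h c, mul_one] at h1
  exact_mod_cast h1

end Pool.Agent.H80.KF

end

section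

/-!
# The Fejér weight: size

`W = 2xJ`, `|∑_{j<J} e(jn/W)| = |sin(πJn/W)/sin(πn/W)|` for `W ∤ n`.  `|n| ≤ x`, `n ≠ 0`:
`|Jn/W| = |n|/(2x) ≤ 1/2`, so `|sin(πJn/W)| ≥ 2|n|/(2x)`, `|sin(πn/W)| ≤ π|n|/W`: the quotient is
`≥ 2J/π`.  Trivial bound `J`, `π²/4 ≤ 3`.  `0 < |n| ≤ xJ = W/2`: `|sin(πn/W)| ≥ 2|n|/W`, so the
sum is at most `W/(2|n|) = xJ/|n|`.
-/

set_option autoImplicit false

namespace Pool.Agent.H80.KF

open Finset

private theorem fejA_norm (s : ℝ) : ‖ee s - 1‖ = 2 * |Real.sin (Real.pi * s)| := by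
  have h := Complex.norm_exp_I_mul_ofReal_sub_one (2 * Real.pi * s)
  have h1 : ee s = Complex.exp (Complex.I * ((2 * Real.pi * s : ℝ) : ℂ)) := by
    unfold ee
    congr 1
    push_cast
    ring
  rw [h1, h, norm_mul, Real.norm_eq_abs, Real.norm_eq_abs, abs_of_pos (by norm_num : (0 : ℝ) < 2)]
  congr 3
  ring

private theorem fejA_geom (J : ℕ) (t : ℝ) :
    (∑ j ∈ range J, ee ((j : ℝ) * t)) * (ee t - 1) = ee ((J : ℝ) * t) - 1 := by
  induction J with
  | zero => simp [ee_zero]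
  | succ J ih =>
    rw [Finset.sum_range_succ, add_mul, ih]
    have h : ee (((J + 1 : ℕ) : ℝ) * t) = ee ((J : ℝ) * t) * ee t := by
      rw [← ee_add]
      congr 1
      push_cast
      ring
    rw [h]
    ring

private theorem fejA_sin (J : ℕ) (t : ℝ) :
    ‖∑ j ∈ range J, ee ((j : ℝ) * t)‖ * |Real.sin (Real.pi * t)| =
      |Real.sin (Real.pi * (J * t))| := by
  have h := congrArg (fun z : ℂ => ‖z‖) (fejA_geom J t)
  simp only [norm_mul, fejA_norm] at h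
  linarith

private theorem fejA_sum (x J : ℕ) (n : ℤ) :
    ∑ j ∈ range J, ee ((j : ℝ) * n / (2 * x * J)) =
      ∑ j ∈ range J, ee ((j : ℝ) * ((n : ℝ) / (2 * x * J))) :=
  Finset.sum_congr rfl fun j _ => by rw [mul_div_assoc]

private theorem fejA_pi_sq : Real.pi ^ 2 / 4 ≤ 3 := by
  have h := Real.pi_lt_d2
  have h0 := Real.pi_pos
  nlinarith

theorem ww_nonneg (x J : ℕ) (n : ℤ) : 0 ≤ ww x J n := by
  unfold ww
  positivity

theorem ww_ge_one (x J : ℕ) (hx : 1 ≤ x) (hJ : 1 ≤ J) (n : ℤ) (hn : |n| ≤ x) : 1 ≤ ww x J n := by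
  have hx' : (0 : ℝ) < x := by exact_mod_cast hx
  have hJ' : (0 : ℝ) < J := by exact_mod_cast hJ
  have hpi := Real.pi_pos
  have hn' : |(n : ℝ)| ≤ x := by exact_mod_cast hn
  have key : 2 * J / Real.pi ≤ ‖∑ j ∈ range J, ee ((j : ℝ) * n / (2 * x * J))‖ := by
    rw [fejA_sum]
    rcases eq_or_ne n 0 with h0 | h0
    · subst h0
      simp only [Int.cast_zero, zero_div, mul_zero, ee_zero, Finset.sum_const, Finset.card_range,
        nsmul_eq_mul, mul_one, Complex.norm_natCast]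
      rw [div_le_iff₀ hpi]
      have := Real.two_le_pi
      nlinarith
    · have hn0 : 0 < |(n : ℝ)| := abs_pos.2 (by exact_mod_cast h0)
      have h1 := fejA_sin J ((n : ℝ) / (2 * x * J))
      have h2 : Real.pi * (J * ((n : ℝ) / (2 * x * J))) = Real.pi / 2 * (n / x) := by
        field_simp
      have h3 : |Real.pi / 2 * ((n : ℝ) / x)| = Real.pi / 2 * (|(n : ℝ)| / x) := by
        rw [abs_mul, abs_of_pos (by positivity : 0 < Real.pi / 2), abs_div, abs_of_pos hx']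
      have h4 : |(n : ℝ)| / x ≤ |Real.sin (Real.pi / 2 * ((n : ℝ) / x))| := by
        have h5 := Real.mul_abs_le_abs_sin (x := Real.pi / 2 * ((n : ℝ) / x)) (by
          rw [h3]
          have : |(n : ℝ)| / x ≤ 1 := (div_le_one hx').2 hn'
          nlinarith)
        rw [h3] at h5
        refine le_trans (le_of_eq ?_) h5
        field_simp
      have h6 : |Real.sin (Real.pi * ((n : ℝ) / (2 * x * J)))| ≤
          Real.pi * (|(n : ℝ)| / (2 * x * J)) := by
        refine (Real.abs_sin_le_abs).trans (le_of_eq ?_)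
        rw [abs_mul, abs_div, abs_of_pos hpi, abs_of_pos (by positivity : (0 : ℝ) < 2 * x * J)]
      rw [h2] at h1
      rw [← h1] at h4
      have h7 := h4.trans (mul_le_mul_of_nonneg_left h6 (norm_nonneg _))
      rw [div_le_iff₀ hpi]
      have h8 : |(n : ℝ)| / x = (2 * J) * (|(n : ℝ)| / (2 * x * J)) := by
        field_simp
      rw [h8] at h7
      have h9 : 0 < |(n : ℝ)| / (2 * x * J) := by positivity
      rw [← mul_assoc] at h7
      exact le_of_mul_le_mul_right h7 h9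
  unfold ww
  have h1 : (2 * J / Real.pi) ^ 2 ≤ ‖∑ j ∈ range J, ee ((j : ℝ) * n / (2 * x * J))‖ ^ 2 :=
    pow_le_pow_left₀ (by positivity) key 2
  calc (1 : ℝ) = Real.pi ^ 2 / 4 / (J : ℝ) ^ 2 * (2 * J / Real.pi) ^ 2 := by
        field_simp
        norm_num
    _ ≤ _ := mul_le_mul_of_nonneg_left h1 (by positivity)

theorem ww_le (x J : ℕ) (hx : 1 ≤ x) (hJ : 1 ≤ J) (n : ℤ) : ww x J n ≤ 3 := by
  have hJ' : (0 : ℝ) < J := by exact_mod_cast hJ
  have h1 : ‖∑ j ∈ range J, ee ((j : ℝ) * n / (2 * x * J))‖ ≤ J := by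
    refine (norm_sum_le _ _).trans ?_
    simp only [norm_ee, Finset.sum_const, Finset.card_range, nsmul_eq_mul, mul_one, le_refl]
  have h2 := pow_le_pow_left₀ (norm_nonneg _) h1 2
  unfold ww
  calc Real.pi ^ 2 / 4 / (J : ℝ) ^ 2 * ‖∑ j ∈ range J, ee ((j : ℝ) * n / (2 * x * J))‖ ^ 2
      ≤ Real.pi ^ 2 / 4 / (J : ℝ) ^ 2 * (J : ℝ) ^ 2 := mul_le_mul_of_nonneg_left h2 (by positivity)
    _ = Real.pi ^ 2 / 4 := by field_simp
    _ ≤ 3 := fejA_pi_sq

theorem ww_decay (x J : ℕ) (hx : 1 ≤ x) (hJ : 1 ≤ J) (n : ℤ) (hn : |n| ≤ x * J) :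
    ww x J n * (n : ℝ) ^ 2 ≤ 3 * (x : ℝ) ^ 2 := by
  have hx' : (0 : ℝ) < x := by exact_mod_cast hx
  have hJ' : (0 : ℝ) < J := by exact_mod_cast hJ
  have hpi := Real.pi_pos
  have hn' : |(n : ℝ)| ≤ x * J := by exact_mod_cast hn
  have key : ‖∑ j ∈ range J, ee ((j : ℝ) * n / (2 * x * J))‖ * |(n : ℝ)| ≤ x * J := by
    rw [fejA_sum]
    have h1 := fejA_sin J ((n : ℝ) / (2 * x * J))
    have h3 : |Real.pi * ((n : ℝ) / (2 * x * J))| = Real.pi * (|(n : ℝ)| / (2 * x * J)) := by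
      rw [abs_mul, abs_div, abs_of_pos hpi, abs_of_pos (by positivity : (0 : ℝ) < 2 * x * J)]
    have h4 : |(n : ℝ)| / (x * J) ≤ |Real.sin (Real.pi * ((n : ℝ) / (2 * x * J)))| := by
      have h5 := Real.mul_abs_le_abs_sin (x := Real.pi * ((n : ℝ) / (2 * x * J))) (by
        rw [h3]
        have : |(n : ℝ)| / (2 * x * J) ≤ 1 / 2 := by
          rw [div_le_div_iff₀ (by positivity) (by norm_num)]
          nlinarith
        nlinarith)
      rw [h3] at h5
      refine le_trans (le_of_eq ?_) h5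
      field_simp
    have h5 : ‖∑ j ∈ range J, ee ((j : ℝ) * ((n : ℝ) / (2 * x * J)))‖ * (|(n : ℝ)| / (x * J)) ≤
        1 := by
      refine (mul_le_mul_of_nonneg_left h4 (norm_nonneg _)).trans ?_
      rw [h1]
      exact Real.abs_sin_le_one _
    rw [← mul_div_assoc, div_le_one (by positivity)] at h5
    exact h5
  have h2 := pow_le_pow_left₀ (by positivity) key 2
  unfold ww
  calc Real.pi ^ 2 / 4 / (J : ℝ) ^ 2 * ‖∑ j ∈ range J, ee ((j : ℝ) * n / (2 * x * J))‖ ^ 2 *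
        (n : ℝ) ^ 2
      = Real.pi ^ 2 / 4 / (J : ℝ) ^ 2 *
        (‖∑ j ∈ range J, ee ((j : ℝ) * n / (2 * x * J))‖ * |(n : ℝ)|) ^ 2 := by
        rw [mul_pow, sq_abs]
        ring
    _ ≤ Real.pi ^ 2 / 4 / (J : ℝ) ^ 2 * ((x : ℝ) * J) ^ 2 :=
        mul_le_mul_of_nonneg_left h2 (by positivity)
    _ = Real.pi ^ 2 / 4 * (x : ℝ) ^ 2 := by field_simp
    _ ≤ 3 * (x : ℝ) ^ 2 := mul_le_mul_of_nonneg_right fejA_pi_sq (by positivity)

end Pool.Agent.H80.KF

end
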