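import Pool.Agent.H94.EH.M11

/-! The parts of this file: H80.BE.Defs, H80.BE.Num, H80.BE.Ex1, H80.BE.Ex2, H91.PT.Sel, H80.BE.Sw. -/

section

/-!
# Project BE: a Bessel inequality beyond `x^{1/2}` for prime moduli

See `h80_BE_README.txt`.
-/

set_option autoImplicit false

namespace Pool.Agent.H80.BE

open Finset

/-- sieve weights `ρ` of level `D`, supported on odd numbers -/
def SW (D : ℕ) (ρ : ℕ → ℝ) : Prop :=
  ρ 1 = 1 ∧ (∀ d, |ρ d| ≤ 1) ∧ ∀ d, ρ d ≠ 0 → 1 ≤ d ∧ d ≤ D ∧ Odd d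

/-- the sieve majorant `(∑_{d ∣ n} ρ_d)²` -/
noncomputable def lam (D : ℕ) (ρ : ℕ → ℝ) (n : ℤ) : ℝ :=
  (∑ d ∈ (Icc 1 D).filter (fun d : ℕ => (d : ℤ) ∣ n), ρ d) ^ 2

/-- `∑ ρ_d ρ_e / lcm(d,e)` -/
noncomputable def GG (D : ℕ) (ρ : ℕ → ℝ) : ℝ :=
  ∑ d ∈ Icc 1 D, ∑ e ∈ Icc 1 D, ρ d * ρ e / ((Nat.lcm d e : ℕ) : ℝ)

/-- the linear form of one residue `a` -/
noncomputable def TT (P : Finset ℕ) (c : ℕ → ℝ) (a n : ℤ) : ℝ :=
  ∑ q ∈ P, c q * ((if (q : ℤ) ∣ n - a then (1 : ℝ) else 0) - 1 / ((q : ℝ) - 1))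

/-- `#{p ≤ x prime : p ≡ a mod q} - π(x)/(q-1)` -/
noncomputable def EE (x q : ℕ) (a : ℤ) : ℝ :=
  (((Icc 1 x).filter (fun p : ℕ => p.Prime ∧ (q : ℤ) ∣ (p : ℤ) - a)).card : ℝ) -
    (Nat.primeCounting x : ℝ) / ((q : ℝ) - 1)

/-- a set of primes in `(Y, Z]` -/
def PS (Y Z : ℕ) (P : Finset ℕ) : Prop := ∀ q ∈ P, q.Prime ∧ Y < q ∧ q ≤ Z

open Classical in
/-- a solution of `n ≡ 0 (d)`, `n ≡ a (q)`, `n ≡ a' (q')` -/
noncomputable def nz (d q q' : ℕ) (a a' : ℤ) : ℤ :=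
  if h : ∃ n : ℤ, (d : ℤ) ∣ n ∧ (q : ℤ) ∣ n - a ∧ (q' : ℤ) ∣ n - a' then h.choose else 0

end Pool.Agent.H80.BE

end

section

/-!
# BE Num: the parameters

`ν = (50 - 99 θ - 100 κ)/1000` (so `0 < ν ≤ 1/2000`), `D = ⌊x^ν⌋`, `Y = ⌊x^{1/3}⌋`, `Z = ⌊x^θ⌋`, `s ≤ x^κ`.  Exponents:
`2κ + 10ν + θ(2 - 1/50) = (100κ + 99θ + 500ν)/50 < 1`; `2κ + 1 + 2ν - 1/3 < 1` (`κ < 1/200`);
`3κ + 2ν + θ < 1`; `2ν + θ < 1`.  (`θ < 50/99`.)  Powers of `log x` are `≤ x^ε` eventually.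
-/

set_option autoImplicit false

namespace Pool.Agent.H80.BE

private theorem Num_ev (ν : ℝ) (hν : 0 < ν) : ∃ x0 : ℕ, ∀ x : ℕ, x0 ≤ x →
    2 ≤ (x : ℝ) ^ (ν / 2) ∧ 4 ≤ (x : ℝ) ^ ((1 : ℝ) / 3) ∧ 1 ≤ Real.log x ∧ 1 ≤ (x : ℝ) ∧
      420 * Real.log x ^ 3 ≤ (x : ℝ) ^ (10 * ν) := by
  have e1 : ∀ᶠ x : ℝ in Filter.atTop, 2 ≤ x ^ (ν / 2) :=
    (tendsto_rpow_atTop (half_pos hν)).eventually_ge_atTop 2
  have e2 : ∀ᶠ x : ℝ in Filter.atTop, 4 ≤ x ^ ((1 : ℝ) / 3) :=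
    (tendsto_rpow_atTop (by norm_num)).eventually_ge_atTop 4
  have e3 : ∀ᶠ x : ℝ in Filter.atTop, 1 ≤ Real.log x :=
    Real.tendsto_log_atTop.eventually_ge_atTop 1
  have e4 : ∀ᶠ x : ℝ in Filter.atTop, 1 ≤ x := Filter.eventually_ge_atTop 1
  have e5 : ∀ᶠ x : ℝ in Filter.atTop, 420 * Real.log x ^ 3 ≤ x ^ (10 * ν) := by
    have h := isLittleO_log_rpow_rpow_atTop (3 : ℝ) (show (0 : ℝ) < 10 * ν by linarith)
    have h2 := h.bound (show (0 : ℝ) < 1 / 420 by norm_num)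
    filter_upwards [h2, e3, e4] with x hx h3 h4
    rw [Real.norm_of_nonneg (Real.rpow_nonneg (by linarith only [h3]) _),
      Real.norm_of_nonneg (Real.rpow_nonneg (by linarith) _)] at hx
    have h5 : Real.log x ^ (3 : ℝ) = Real.log x ^ 3 := by
      rw [← Real.rpow_natCast]
      norm_num
    rw [h5] at hx
    linarith only [hx]
  have h := tendsto_natCast_atTop_atTop (R := ℝ) |>.eventually
    (e1.and (e2.and (e3.and (e4.and e5))))
  obtain ⟨x0, hx0⟩ := Filter.eventually_atTop.1 h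
  exact ⟨x0, fun x hx => hx0 x hx⟩

theorem num (θ κ : ℝ) (hθ : 1 / 2 ≤ θ) (hκ : 0 ≤ κ) (h : 99 * θ + 100 * κ < 50) :
    ∃ ν : ℝ, 0 < ν ∧ ∃ x0 : ℕ, ∀ x : ℕ, x0 ≤ x → ∀ D Y Z : ℕ, D = ⌊(x : ℝ) ^ ν⌋₊ →
      Y = ⌊(x : ℝ) ^ ((1 : ℝ) / 3)⌋₊ → Z = ⌊(x : ℝ) ^ θ⌋₊ →
      2 ≤ D ∧ D ≤ Y ∧ 2 ≤ Y ∧ Y ≤ Z ∧ 4 ≤ Z ∧ Z ≤ x ∧ x ≤ (Y + 1) ^ 3 ∧ D ^ 2 * Z ≤ x ∧
      ν / 2 * Real.log x ≤ Real.log D ∧ 1 ≤ Real.log x ∧
      ∀ s : ℝ, 0 ≤ s → s ≤ (x : ℝ) ^ κ →
        s ^ 2 * (200 * (D : ℝ) ^ 10 * Real.log x ^ 2 * (Z : ℝ) ^ ((2 : ℝ) - 1 / 50) +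
          60 * x * (D : ℝ) ^ 2 * Real.log x / Y) + 100 * s ^ 3 * (D : ℝ) ^ 2 * Z ≤
            x / Real.log x ∧
        (s + D) * s * (2 * Z) ≤ x / Real.log x := by
  obtain ⟨ν, hν⟩ : ∃ ν : ℝ, 1000 * ν = 50 - 99 * θ - 100 * κ :=
    ⟨(50 - 99 * θ - 100 * κ) / 1000, by ring⟩
  have hν0 : 0 < ν := by linarith only [h, hν]
  refine ⟨ν, hν0, ?_⟩
  obtain ⟨x0, hx0⟩ := Num_ev ν hν0
  refine ⟨x0, fun x hx D Y Z hD hY hZ => ?_⟩
  obtain ⟨g1, g2, g3, g4, g5⟩ := hx0 x hx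
  have hxp : (0 : ℝ) < x := by linarith only [g4]
  have hx0' : (0 : ℝ) ≤ x := hxp.le
  have mono : ∀ a b : ℝ, a ≤ b → (x : ℝ) ^ a ≤ (x : ℝ) ^ b := fun a b hab =>
    Real.rpow_le_rpow_of_exponent_le g4 hab
  have hpow : ∀ (a : ℝ) (n : ℕ), ((x : ℝ) ^ a) ^ n = (x : ℝ) ^ (a * n) := fun a n => by
    rw [Real.rpow_mul hx0', Real.rpow_natCast]
  have hadd : ∀ a b : ℝ, (x : ℝ) ^ a * (x : ℝ) ^ b = (x : ℝ) ^ (a + b) := fun a b =>
    (Real.rpow_add hxp a b).symm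
  have hpos : ∀ a : ℝ, (0 : ℝ) < (x : ℝ) ^ a := fun a => Real.rpow_pos_of_pos hxp a
  -- floors
  have hD1 : (D : ℝ) ≤ (x : ℝ) ^ ν := by
    rw [hD]
    exact Nat.floor_le (hpos ν).le
  have hY1 : (Y : ℝ) ≤ (x : ℝ) ^ ((1 : ℝ) / 3) := by
    rw [hY]
    exact Nat.floor_le (hpos _).le
  have hZ1 : (Z : ℝ) ≤ (x : ℝ) ^ θ := by
    rw [hZ]
    exact Nat.floor_le (hpos _).le
  have hD2 : (x : ℝ) ^ ν < D + 1 := by
    rw [hD]
    exact Nat.lt_floor_add_one _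
  have hY2 : (x : ℝ) ^ ((1 : ℝ) / 3) < Y + 1 := by
    rw [hY]
    exact Nat.lt_floor_add_one _
  have hνν : (x : ℝ) ^ ν = (x : ℝ) ^ (ν / 2) * (x : ℝ) ^ (ν / 2) := by
    rw [hadd]
    congr 1
    ring
  have hx4 : 4 ≤ (x : ℝ) ^ ν := by
    rw [hνν]
    nlinarith only [g1]
  have c1 : 2 ≤ D := by
    rw [hD]
    exact Nat.le_floor (by push_cast; linarith only [hx4])
  have c2 : D ≤ Y := by
    rw [hD, hY]
    exact Nat.floor_le_floor (mono _ _ (by linarith only [hθ, hκ, hν, hν0]))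
  have c3 : 2 ≤ Y := c1.trans c2
  have c4 : Y ≤ Z := by
    rw [hY, hZ]
    exact Nat.floor_le_floor (mono _ _ (by linarith only [hθ]))
  have c5 : 4 ≤ Z := by
    rw [hZ]
    refine Nat.le_floor ?_
    push_cast
    exact g2.trans (mono _ _ (by linarith only [hθ]))
  have c6 : Z ≤ x := by
    have : (Z : ℝ) ≤ x := by
      calc (Z : ℝ) ≤ (x : ℝ) ^ θ := hZ1
        _ ≤ (x : ℝ) ^ (1 : ℝ) := mono _ _ (by linarith only [hκ, h])
        _ = x := Real.rpow_one _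
    exact_mod_cast this
  have c7 : x ≤ (Y + 1) ^ 3 := by
    have : (x : ℝ) ≤ ((Y : ℝ) + 1) ^ 3 := by
      calc (x : ℝ) = ((x : ℝ) ^ ((1 : ℝ) / 3)) ^ 3 := by
            rw [hpow]
            norm_num
        _ ≤ ((Y : ℝ) + 1) ^ 3 := pow_le_pow_left₀ (hpos _).le hY2.le 3
    exact_mod_cast this
  have hDsq : (D : ℝ) ^ 2 ≤ (x : ℝ) ^ (ν * 2) := by
    calc (D : ℝ) ^ 2 ≤ ((x : ℝ) ^ ν) ^ 2 := pow_le_pow_left₀ (Nat.cast_nonneg D) hD1 2
      _ = (x : ℝ) ^ (ν * 2) := by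
        rw [hpow]
        norm_num
  have hD10 : (D : ℝ) ^ 10 ≤ (x : ℝ) ^ (ν * 10) := by
    calc (D : ℝ) ^ 10 ≤ ((x : ℝ) ^ ν) ^ 10 := pow_le_pow_left₀ (Nat.cast_nonneg D) hD1 10
      _ = (x : ℝ) ^ (ν * 10) := by
        rw [hpow]
        norm_num
  have hZr : (Z : ℝ) ^ ((2 : ℝ) - 1 / 50) ≤ (x : ℝ) ^ (θ * ((2 : ℝ) - 1 / 50)) := by
    rw [Real.rpow_mul hx0']
    exact Real.rpow_le_rpow (Nat.cast_nonneg Z) hZ1 (by norm_num)
  have c8 : D ^ 2 * Z ≤ x := by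
    have : (D : ℝ) ^ 2 * Z ≤ x := by
      calc (D : ℝ) ^ 2 * Z ≤ (x : ℝ) ^ (ν * 2) * (x : ℝ) ^ θ :=
            mul_le_mul hDsq hZ1 (Nat.cast_nonneg Z) (hpos _).le
        _ = (x : ℝ) ^ (ν * 2 + θ) := hadd _ _
        _ ≤ (x : ℝ) ^ (1 : ℝ) := mono _ _ (by linarith only [hθ, hκ, hν, hν0])
        _ = x := Real.rpow_one _
    exact_mod_cast this
  have c9 : ν / 2 * Real.log x ≤ Real.log D := by
    have h1 : (x : ℝ) ^ (ν / 2) ≤ D := by
      have h2 : (x : ℝ) ^ (ν / 2) + 1 ≤ (x : ℝ) ^ ν := by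
        rw [hνν]
        nlinarith only [g1]
      linarith only [hD2, h2]
    have h3 := Real.log_le_log (hpos _) h1
    rwa [Real.log_rpow hxp] at h3
  refine ⟨c1, c2, c3, c4, c5, c6, c7, c8, c9, g3, fun s hs0 hs => ?_⟩
  have hL : 0 < Real.log x := by linarith only [g3]
  -- the final comparison
  have hfin : 420 * Real.log x ^ 2 * (x : ℝ) ^ (1 - 10 * ν) ≤ x / Real.log x := by
    rw [le_div_iff₀ hL]
    have h1 : (x : ℝ) ^ (1 - 10 * ν) * (x : ℝ) ^ (10 * ν) = x := by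
      rw [hadd]
      have : 1 - 10 * ν + 10 * ν = 1 := by ring
      rw [this, Real.rpow_one]
    calc 420 * Real.log x ^ 2 * (x : ℝ) ^ (1 - 10 * ν) * Real.log x
        = (x : ℝ) ^ (1 - 10 * ν) * (420 * Real.log x ^ 3) := by ring
      _ ≤ (x : ℝ) ^ (1 - 10 * ν) * (x : ℝ) ^ (10 * ν) :=
        mul_le_mul_of_nonneg_left g5 (hpos _).le
      _ = x := h1
  have hs2 : s ^ 2 ≤ (x : ℝ) ^ (κ * 2) := by
    calc s ^ 2 ≤ ((x : ℝ) ^ κ) ^ 2 := pow_le_pow_left₀ hs0 hs 2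
      _ = (x : ℝ) ^ (κ * 2) := by
        rw [hpow]
        norm_num
  have hs3 : s ^ 3 ≤ (x : ℝ) ^ (κ * 3) := by
    calc s ^ 3 ≤ ((x : ℝ) ^ κ) ^ 3 := pow_le_pow_left₀ hs0 hs 3
      _ = (x : ℝ) ^ (κ * 3) := by
        rw [hpow]
        norm_num
  set L := Real.log x with hLdef
  set W := (x : ℝ) ^ (1 - 10 * ν) with hW
  have hWp : 0 < W := hpos _
  have hZ0 : (0 : ℝ) ≤ (Z : ℝ) ^ ((2 : ℝ) - 1 / 50) := Real.rpow_nonneg (Nat.cast_nonneg Z) _
  -- first term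
  have t1 : s ^ 2 * ((D : ℝ) ^ 10 * (Z : ℝ) ^ ((2 : ℝ) - 1 / 50)) ≤ W := by
    calc s ^ 2 * ((D : ℝ) ^ 10 * (Z : ℝ) ^ ((2 : ℝ) - 1 / 50))
        ≤ (x : ℝ) ^ (κ * 2) * ((x : ℝ) ^ (ν * 10) * (x : ℝ) ^ (θ * ((2 : ℝ) - 1 / 50))) := by
          refine mul_le_mul hs2 (mul_le_mul hD10 hZr hZ0 (hpos _).le)
            (mul_nonneg (by positivity) hZ0) (hpos _).le
      _ = (x : ℝ) ^ (κ * 2 + (ν * 10 + θ * ((2 : ℝ) - 1 / 50))) := by
          rw [hadd, hadd]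
      _ ≤ W := mono _ _ (by linarith only [hν])
  -- second term
  have hY3 : (x : ℝ) ^ ((1 : ℝ) / 3) / 2 ≤ Y := by linarith only [g2, hY2]
  have hYp : (0 : ℝ) < Y := by
    have : (0 : ℕ) < Y := by omega
    exact_mod_cast this
  have t2 : s ^ 2 * (x * (D : ℝ) ^ 2 / Y) ≤ 2 * W := by
    have h1 : (x : ℝ) * (D : ℝ) ^ 2 / Y ≤ 2 * ((x : ℝ) ^ ((2 : ℝ) / 3) * (x : ℝ) ^ (ν * 2)) := by
      rw [div_le_iff₀ hYp]
      have h2 : (x : ℝ) ^ ((2 : ℝ) / 3) * (x : ℝ) ^ ((1 : ℝ) / 3) = x := by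
        rw [hadd]
        norm_num
      calc (x : ℝ) * (D : ℝ) ^ 2 ≤ x * (x : ℝ) ^ (ν * 2) :=
            mul_le_mul_of_nonneg_left hDsq hx0'
        _ = 2 * ((x : ℝ) ^ ((2 : ℝ) / 3) * (x : ℝ) ^ (ν * 2)) *
            ((x : ℝ) ^ ((1 : ℝ) / 3) / 2) := by
          nth_rewrite 1 [← h2]
          ring
        _ ≤ 2 * ((x : ℝ) ^ ((2 : ℝ) / 3) * (x : ℝ) ^ (ν * 2)) * Y :=
          mul_le_mul_of_nonneg_left hY3 (by positivity)
    calc s ^ 2 * (x * (D : ℝ) ^ 2 / Y)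
        ≤ (x : ℝ) ^ (κ * 2) * (2 * ((x : ℝ) ^ ((2 : ℝ) / 3) * (x : ℝ) ^ (ν * 2))) :=
          mul_le_mul hs2 h1 (by positivity) (hpos _).le
      _ = 2 * (x : ℝ) ^ (κ * 2 + (2 / 3 + ν * 2)) := by
          rw [← hadd, ← hadd]
          ring
      _ ≤ 2 * W := by
          refine mul_le_mul_of_nonneg_left (mono _ _ (by linarith only [hθ, hκ, hν, hν0])) (by norm_num)
  -- third term
  have t3 : s ^ 3 * (D : ℝ) ^ 2 * Z ≤ W := by
    calc s ^ 3 * (D : ℝ) ^ 2 * Z ≤ (x : ℝ) ^ (κ * 3) * (x : ℝ) ^ (ν * 2) * (x : ℝ) ^ θ := by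
          refine mul_le_mul (mul_le_mul hs3 hDsq (by positivity) (hpos _).le) hZ1
            (Nat.cast_nonneg Z) (by positivity)
      _ = (x : ℝ) ^ (κ * 3 + ν * 2 + θ) := by
          rw [hadd, hadd]
      _ ≤ W := mono _ _ (by linarith only [hθ, hκ, hν, hν0])
  constructor
  · refine le_trans ?_ hfin
    have hL2 : L ≤ L ^ 2 := by nlinarith only [g3]
    have hL1 : 1 ≤ L ^ 2 := by nlinarith only [hL2, g3]
    calc s ^ 2 * (200 * (D : ℝ) ^ 10 * L ^ 2 * (Z : ℝ) ^ ((2 : ℝ) - 1 / 50) +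
          60 * x * (D : ℝ) ^ 2 * L / Y) + 100 * s ^ 3 * (D : ℝ) ^ 2 * Z
        = 200 * L ^ 2 * (s ^ 2 * ((D : ℝ) ^ 10 * (Z : ℝ) ^ ((2 : ℝ) - 1 / 50))) +
          60 * L * (s ^ 2 * (x * (D : ℝ) ^ 2 / Y)) + 100 * (s ^ 3 * (D : ℝ) ^ 2 * Z) := by
          ring
      _ ≤ 200 * L ^ 2 * W + 60 * L * (2 * W) + 100 * W := by
          refine add_le_add (add_le_add (mul_le_mul_of_nonneg_left t1 (by positivity))
            (mul_le_mul_of_nonneg_left t2 (by positivity)))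
            (mul_le_mul_of_nonneg_left t3 (by norm_num))
      _ ≤ 420 * L ^ 2 * W := by
          have a1 : L * W ≤ L ^ 2 * W := mul_le_mul_of_nonneg_right hL2 hWp.le
          have a2 : 1 * W ≤ L ^ 2 * W := mul_le_mul_of_nonneg_right hL1 hWp.le
          nlinarith only [a1, a2]
  · refine le_trans ?_ hfin
    have hsD : (s + D) * s ≤ 2 * (x : ℝ) ^ (κ * 2 + ν) := by
      have b1 : s * s ≤ (x : ℝ) ^ (κ * 2 + ν) := by
        calc s * s = s ^ 2 := by ring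
          _ ≤ (x : ℝ) ^ (κ * 2) := hs2
          _ ≤ (x : ℝ) ^ (κ * 2 + ν) := mono _ _ (by linarith only [hν0])
      have b2 : (D : ℝ) * s ≤ (x : ℝ) ^ (κ * 2 + ν) := by
        calc (D : ℝ) * s ≤ (x : ℝ) ^ ν * (x : ℝ) ^ κ := mul_le_mul hD1 hs hs0 (hpos _).le
          _ = (x : ℝ) ^ (ν + κ) := hadd _ _
          _ ≤ (x : ℝ) ^ (κ * 2 + ν) := mono _ _ (by linarith only [hκ])
      linarith only [b1, b2, add_mul s (D : ℝ) s]
    calc (s + D) * s * (2 * Z) ≤ 2 * (x : ℝ) ^ (κ * 2 + ν) * (2 * (x : ℝ) ^ θ) :=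
          mul_le_mul hsD (by linarith only [hZ1]) (by positivity) (by positivity)
      _ = 4 * (x : ℝ) ^ (κ * 2 + ν + θ) := by
          rw [← hadd (κ * 2 + ν) θ]
          ring
      _ ≤ 4 * W := mul_le_mul_of_nonneg_left (mono _ _ (by linarith only [hθ, hκ, hν, hν0])) (by norm_num)
      _ ≤ 420 * L ^ 2 * W := by
          have hL1 : 1 ≤ L ^ 2 := by nlinarith only [g3]
          refine mul_le_mul_of_nonneg_right ?_ hWp.le
          linarith only [hL1]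

end Pool.Agent.H80.BE

end

section

/-!
# BE Ex1: the sieved weight in one class

`lam n = ∑_{d,e ≤ D} ρ_d ρ_e 1_{lcm(d,e) ∣ n}` (`lam_expand`).  `ex_one`: for each `d, e` the conditions
`lcm(d,e) ∣ n`, `m ∣ n - c` are one class modulo `m lcm(d,e)` (coprime; Chinese remainder), `m lcm(d,e) ≤ m D² ≤ 2x`,
and `KF.ww_class_small` gives `π² x/(2 m lcm(d,e))`.
-/

set_option autoImplicit false

namespace Pool.Agent.H80.BE

open Finset
open Pool.Agent.H80.KF (ee kf ww RW fej)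

private theorem Ex1_lcm (d e : ℕ) (n : ℤ) :
    ((Nat.lcm d e : ℕ) : ℤ) ∣ n ↔ ((d : ℤ) ∣ n ∧ (e : ℤ) ∣ n) := by
  rw [Int.natCast_dvd, Int.natCast_dvd, Int.natCast_dvd, Nat.lcm_dvd_iff]

theorem lam_expand (D : ℕ) (ρ : ℕ → ℝ) (n : ℤ) :
    lam D ρ n = ∑ d ∈ Icc 1 D, ∑ e ∈ Icc 1 D,
      ρ d * ρ e * (if ((Nat.lcm d e : ℕ) : ℤ) ∣ n then (1 : ℝ) else 0) := by
  unfold lam
  rw [Finset.sum_filter, sq, Finset.sum_mul_sum]
  refine Finset.sum_congr rfl fun d _ => Finset.sum_congr rfl fun e _ => ?_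
  by_cases h1 : (d : ℤ) ∣ n
  · by_cases h2 : (e : ℤ) ∣ n
    · rw [if_pos h1, if_pos h2, if_pos ((Ex1_lcm d e n).2 ⟨h1, h2⟩), mul_one]
    · rw [if_neg h2, if_neg (fun h => h2 ((Ex1_lcm d e n).1 h).2), mul_zero, mul_zero]
  · rw [if_neg h1, if_neg (fun h => h1 ((Ex1_lcm d e n).1 h).1), mul_zero, zero_mul]

/-- two coprime conditions are one class -/
private theorem Ex1_crt (l m : ℕ) (h : Nat.Coprime l m) (c : ℤ) :
    ∃ c' : ℤ, ∀ n : ℤ, ((l : ℤ) ∣ n ∧ (m : ℤ) ∣ n - c) ↔ ((m * l : ℕ) : ℤ) ∣ n - c' := by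
  have hc : IsCoprime (l : ℤ) (m : ℤ) := Nat.isCoprime_iff_coprime.2 h
  obtain ⟨u, v, huv⟩ := hc
  refine ⟨u * l * c, fun n => ?_⟩
  have hc' : IsCoprime (m : ℤ) (l : ℤ) := (Nat.isCoprime_iff_coprime.2 h).symm
  constructor
  · rintro ⟨⟨a, ha⟩, ⟨b, hb⟩⟩
    push_cast
    refine hc'.mul_dvd ?_ ?_
    · refine ⟨b + v * c, ?_⟩
      have : n = c + m * b := by linarith
      rw [this]
      have h2 : u * l = 1 - v * m := by linarith
      rw [h2]
      ring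
    · refine ⟨a - u * c, ?_⟩
      rw [ha]
      ring
  · rintro ⟨k, hk⟩
    push_cast at hk
    constructor
    · refine ⟨u * c + m * k, ?_⟩
      have : n = u * l * c + m * l * k := by linarith
      rw [this]
      ring
    · refine ⟨l * k - v * c, ?_⟩
      have : n = u * l * c + m * l * k := by linarith
      rw [this]
      have h2 : u * l = 1 - v * m := by linarith
      rw [h2]
      ring

private theorem Ex1_pair (x J D m : ℕ) (hx : 1 ≤ x) (hJ : 1 ≤ J) (hm : 1 ≤ m)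
    (hdiv : ∀ k : ℕ, 1 ≤ k → k ≤ m * D ^ 2 → k ∣ 2 * x * J) (h : m * D ^ 2 ≤ 2 * x)
    (hcop : ∀ d : ℕ, 1 ≤ d → d ≤ D → Nat.Coprime d m) (c : ℤ) (d e : ℕ)
    (hd : d ∈ Icc 1 D) (he : e ∈ Icc 1 D) :
    ∑ n ∈ RW x J, ww x J n * ((if ((Nat.lcm d e : ℕ) : ℤ) ∣ n then (1 : ℝ) else 0) *
      (if (m : ℤ) ∣ n - c then (1 : ℝ) else 0)) =
      Real.pi ^ 2 * x / (2 * m) * (1 / ((Nat.lcm d e : ℕ) : ℝ)) := by
  rw [Finset.mem_Icc] at hd he
  set l := Nat.lcm d e with hl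
  have hl1 : 1 ≤ l := Nat.lcm_pos hd.1 he.1
  have hlD : l ≤ D ^ 2 := by
    calc l ≤ d * e := Nat.le_of_dvd (Nat.mul_pos hd.1 he.1) (Nat.lcm_dvd_mul d e)
      _ ≤ D * D := Nat.mul_le_mul hd.2 he.2
      _ = D ^ 2 := by ring
  have hlm : Nat.Coprime l m :=
    Nat.Coprime.coprime_dvd_left (Nat.lcm_dvd_mul d e)
      (Nat.Coprime.mul_left (hcop d hd.1 hd.2) (hcop e he.1 he.2))
  obtain ⟨c', hc'⟩ := Ex1_crt l m hlm c
  have hml : m * l ≤ m * D ^ 2 := Nat.mul_le_mul_left m hlD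
  have key := KF.ww_class_small x J (m * l) hx hJ (Nat.mul_pos hm hl1)
    (hdiv (m * l) (Nat.mul_pos hm hl1) hml) (hml.trans h) c'
  rw [Finset.sum_filter] at key
  have hmR : (m : ℝ) ≠ 0 := by
    have : (0 : ℝ) < m := by exact_mod_cast hm
    exact this.ne'
  have hlR : (l : ℝ) ≠ 0 := by
    have : (0 : ℝ) < l := by exact_mod_cast hl1
    exact this.ne'
  calc ∑ n ∈ RW x J, ww x J n * ((if ((l : ℕ) : ℤ) ∣ n then (1 : ℝ) else 0) *
      (if (m : ℤ) ∣ n - c then (1 : ℝ) else 0))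
      = ∑ n ∈ RW x J, (if ((m * l : ℕ) : ℤ) ∣ n - c' then ww x J n else 0) := by
        refine Finset.sum_congr rfl fun n _ => ?_
        by_cases h1 : ((l : ℕ) : ℤ) ∣ n
        · by_cases h2 : (m : ℤ) ∣ n - c
          · rw [if_pos h1, if_pos h2, if_pos ((hc' n).1 ⟨h1, h2⟩), mul_one, mul_one]
          · rw [if_neg h2, if_neg (fun h => h2 ((hc' n).2 h).2), mul_zero, mul_zero]
        · rw [if_neg h1, if_neg (fun h => h1 ((hc' n).2 h).1), zero_mul, mul_zero]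
    _ = Real.pi ^ 2 * x / (2 * ((m * l : ℕ) : ℝ)) := key
    _ = Real.pi ^ 2 * x / (2 * m) * (1 / (l : ℝ)) := by
        push_cast
        field_simp

theorem ex_one (x J D m : ℕ) (ρ : ℕ → ℝ) (hx : 1 ≤ x) (hJ : 1 ≤ J) (hm : 1 ≤ m) (hD : 1 ≤ D)
    (hdiv : ∀ k : ℕ, 1 ≤ k → k ≤ m * D ^ 2 → k ∣ 2 * x * J) (h : m * D ^ 2 ≤ 2 * x)
    (hcop : ∀ d : ℕ, 1 ≤ d → d ≤ D → Nat.Coprime d m) (c : ℤ) :
    ∑ n ∈ RW x J, ww x J n * lam D ρ n * (if (m : ℤ) ∣ n - c then (1 : ℝ) else 0) =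
      Real.pi ^ 2 * x / (2 * m) * GG D ρ := by
  calc ∑ n ∈ RW x J, ww x J n * lam D ρ n * (if (m : ℤ) ∣ n - c then (1 : ℝ) else 0)
      = ∑ n ∈ RW x J, ∑ d ∈ Icc 1 D, ∑ e ∈ Icc 1 D, ρ d * ρ e * (ww x J n *
          ((if ((Nat.lcm d e : ℕ) : ℤ) ∣ n then (1 : ℝ) else 0) *
            (if (m : ℤ) ∣ n - c then (1 : ℝ) else 0))) := by
        refine Finset.sum_congr rfl fun n _ => ?_
        rw [lam_expand, Finset.mul_sum, Finset.sum_mul]
        refine Finset.sum_congr rfl fun d _ => ?_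
        rw [Finset.mul_sum, Finset.sum_mul]
        refine Finset.sum_congr rfl fun e _ => ?_
        ring
    _ = ∑ d ∈ Icc 1 D, ∑ e ∈ Icc 1 D, ρ d * ρ e * ∑ n ∈ RW x J, (ww x J n *
          ((if ((Nat.lcm d e : ℕ) : ℤ) ∣ n then (1 : ℝ) else 0) *
            (if (m : ℤ) ∣ n - c then (1 : ℝ) else 0))) := by
        rw [Finset.sum_comm]
        refine Finset.sum_congr rfl fun d _ => ?_
        rw [Finset.sum_comm]
        refine Finset.sum_congr rfl fun e _ => ?_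
        rw [Finset.mul_sum]
    _ = ∑ d ∈ Icc 1 D, ∑ e ∈ Icc 1 D, ρ d * ρ e *
          (Real.pi ^ 2 * x / (2 * m) * (1 / ((Nat.lcm d e : ℕ) : ℝ))) := by
        refine Finset.sum_congr rfl fun d hd => Finset.sum_congr rfl fun e he => ?_
        rw [Ex1_pair x J D m hx hJ hm hdiv h hcop c d e hd he]
    _ = Real.pi ^ 2 * x / (2 * m) * GG D ρ := by
        unfold GG
        rw [Finset.mul_sum]
        refine Finset.sum_congr rfl fun d _ => ?_
        rw [Finset.mul_sum]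
        refine Finset.sum_congr rfl fun e _ => ?_
        ring

/-- no class -/
theorem ex_zero (x J D : ℕ) (ρ : ℕ → ℝ) (hx : 1 ≤ x) (hJ : 1 ≤ J) (hD : 1 ≤ D)
    (hdiv : ∀ k : ℕ, 1 ≤ k → k ≤ D ^ 2 → k ∣ 2 * x * J) (h : D ^ 2 ≤ 2 * x) :
    ∑ n ∈ RW x J, ww x J n * lam D ρ n = Real.pi ^ 2 * x / 2 * GG D ρ := by
  have h1 := ex_one x J D 1 ρ hx hJ le_rfl hD
    (fun k hk1 hk2 => hdiv k hk1 (by rwa [one_mul] at hk2)) (by rwa [one_mul])
    (fun d _ _ => Nat.coprime_one_right d) 0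
  have h2 : ∀ n ∈ RW x J, ww x J n * lam D ρ n * (if ((1 : ℕ) : ℤ) ∣ n - 0 then (1 : ℝ) else 0) =
      ww x J n * lam D ρ n := fun n _ => by
    rw [if_pos (by rw [Nat.cast_one]; exact one_dvd _), mul_one]
  rw [Finset.sum_congr rfl h2, Nat.cast_one, mul_one] at h1
  exact h1

end Pool.Agent.H80.BE

end

section

/-!
# BE Ex2: the sieved weight in two classes

* `nz_spec`: Chinese remainder theorem for the pairwise coprime moduli `d, q, q'`.
* `fej_congr`: `ee (l c/m)` depends only on `c mod m`.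
* `fej_ext`: for `M ≥ m` the additional `l` have `|l| > m`, so `2x|l|/m ≥ 1` and the factor `max 0 _` is zero.
* `ex_two`: `lam_expand`, and `KF.ww_class` for the modulus `lcm(d,e) q q'` and the class of `nz`.
-/

set_option autoImplicit false

namespace Pool.Agent.H80.BE

open Finset
open Pool.Agent.H80.KF (ee kf ww RW fej)

theorem nz_spec (d q q' : ℕ) (h1 : Nat.Coprime d q) (h2 : Nat.Coprime d q')
    (h3 : Nat.Coprime q q') (a a' : ℤ) :
    (d : ℤ) ∣ nz d q q' a a' ∧ (q : ℤ) ∣ nz d q q' a a' - a ∧ (q' : ℤ) ∣ nz d q q' a a' - a' := by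
  have hex : ∃ n : ℤ, (d : ℤ) ∣ n ∧ (q : ℤ) ∣ n - a ∧ (q' : ℤ) ∣ n - a' := by
    obtain ⟨u, v, huv⟩ := Nat.isCoprime_iff_coprime.2 h1
    obtain ⟨s, t, hst⟩ := Nat.isCoprime_iff_coprime.2 (Nat.Coprime.mul_left h2 h3)
    rw [Nat.cast_mul] at hst
    refine ⟨a * u * d + (a' - a * u * d) * (s * (d * q)), ?_, ?_, ?_⟩
    · exact ⟨a * u + (a' - a * u * d) * (s * q), by ring⟩
    · exact ⟨-(a * v) + (a' - a * u * d) * (s * d), by linear_combination a * huv⟩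
    · exact ⟨-((a' - a * u * d) * t), by linear_combination (a' - a * u * d) * hst⟩
  unfold nz
  rw [dif_pos hex]
  exact hex.choose_spec

theorem fej_ext (x m M : ℕ) (hx : 1 ≤ x) (hm : 1 ≤ m) (hM : m ≤ M) (c : ℤ) :
    fej x m c - 1 = ∑ l ∈ (Icc (-(M : ℤ)) M).filter (fun l => l ≠ 0),
      ((max 0 (1 - 2 * x * |(l : ℝ)| / m) : ℝ) : ℂ) * ee ((l : ℝ) * c / m) := by
  have hm0 : (0 : ℝ) < m := by exact_mod_cast hm
  have hx0 : (1 : ℝ) ≤ x := by exact_mod_cast hx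
  have h1 : fej x m c = ∑ l ∈ Icc (-(M : ℤ)) M,
      ((max 0 (1 - 2 * x * |(l : ℝ)| / m) : ℝ) : ℂ) * ee ((l : ℝ) * c / m) := by
    unfold fej
    refine Finset.sum_subset ?_ ?_
    · intro l hl
      rw [Finset.mem_Icc] at hl ⊢
      have : (m : ℤ) ≤ M := by exact_mod_cast hM
      omega
    · intro l _ hl
      rw [Finset.mem_Icc] at hl
      have h2 : (m : ℤ) ≤ |l| := by
        rcases le_total 0 l with h0 | h0
        · rw [abs_of_nonneg h0]; omega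
        · rw [abs_of_nonpos h0]; omega
      have h3 : (m : ℝ) ≤ |(l : ℝ)| := by exact_mod_cast h2
      have h4 : max 0 (1 - 2 * x * |(l : ℝ)| / m) = 0 := by
        refine max_eq_left ?_
        rw [sub_nonpos, le_div_iff₀ hm0]
        nlinarith
      rw [h4, Complex.ofReal_zero, zero_mul]
  have h2 : (0 : ℤ) ∈ Icc (-(M : ℤ)) M := by
    rw [Finset.mem_Icc]
    constructor <;> omega
  rw [h1, Finset.filter_ne', ← Finset.add_sum_erase _ _ h2]
  have h3 : ((max 0 (1 - 2 * x * |((0 : ℤ) : ℝ)| / m) : ℝ) : ℂ) * ee (((0 : ℤ) : ℝ) * c / m) = 1 := by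
    rw [Int.cast_zero, abs_zero, mul_zero, zero_div, sub_zero, zero_mul, zero_div, KF.ee_zero]
    rw [max_eq_right zero_le_one, Complex.ofReal_one, mul_one]
  rw [h3]
  ring

private theorem Ex2_iff {L q q' : ℕ} (h1 : Nat.Coprime L q) (h2 : Nat.Coprime L q')
    (h3 : Nat.Coprime q q') (a a' n : ℤ) :
    ((L : ℤ) ∣ n ∧ (q : ℤ) ∣ n - a ∧ (q' : ℤ) ∣ n - a') ↔
      ((L * q * q' : ℕ) : ℤ) ∣ n - nz L q q' a a' := by
  obtain ⟨k1, k2, k3⟩ := nz_spec L q q' h1 h2 h3 a a'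
  constructor
  · rintro ⟨m1, m2, m3⟩
    have c1 : (L : ℤ) ∣ n - nz L q q' a a' := dvd_sub m1 k1
    have c2 : (q : ℤ) ∣ n - nz L q q' a a' := by
      have := dvd_sub m2 k2
      rwa [sub_sub_sub_cancel_right] at this
    have c3 : (q' : ℤ) ∣ n - nz L q q' a a' := by
      have := dvd_sub m3 k3
      rwa [sub_sub_sub_cancel_right] at this
    rw [Nat.cast_mul, Nat.cast_mul]
    have d1 : IsCoprime (L : ℤ) (q : ℤ) := Nat.isCoprime_iff_coprime.2 h1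
    have d2 : IsCoprime ((L : ℤ) * q) (q' : ℤ) :=
      IsCoprime.mul_left (Nat.isCoprime_iff_coprime.2 h2) (Nat.isCoprime_iff_coprime.2 h3)
    exact d2.mul_dvd (d1.mul_dvd c1 c2) c3
  · intro hd
    rw [Nat.cast_mul, Nat.cast_mul] at hd
    have e1 : (L : ℤ) ∣ n - nz L q q' a a' := (Dvd.intro ((q : ℤ) * q') (by ring)).trans hd
    have e2 : (q : ℤ) ∣ n - nz L q q' a a' :=
      (Dvd.intro ((L : ℤ) * q') (by ring)).trans hd
    have e3 : (q' : ℤ) ∣ n - nz L q q' a a' := (Dvd.intro_left _ rfl).trans hd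
    refine ⟨?_, ?_, ?_⟩
    · have := dvd_add e1 k1
      rwa [sub_add_cancel] at this
    · have := dvd_add e2 k2
      rwa [sub_add_sub_cancel] at this
    · have := dvd_add e3 k3
      rwa [sub_add_sub_cancel] at this

private theorem Ex2_coprime {D q d e : ℕ} (hq : q.Prime) (hqD : D < q) (hd : 1 ≤ d) (hdD : d ≤ D)
    (he : 1 ≤ e) (heD : e ≤ D) : Nat.Coprime (Nat.lcm d e) q := by
  rw [Nat.coprime_comm, hq.coprime_iff_not_dvd]
  intro h
  have h1 : q ∣ d * e := h.trans (Nat.lcm_dvd_mul d e)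
  rcases (hq.dvd_mul).1 h1 with h2 | h2
  · have := Nat.le_of_dvd (by omega) h2
    omega
  · have := Nat.le_of_dvd (by omega) h2
    omega

theorem ex_two (x J D q q' : ℕ) (ρ : ℕ → ℝ) (hx : 1 ≤ x) (hJ : 1 ≤ J) (hD : 1 ≤ D)
    (hq : q.Prime) (hq' : q'.Prime) (hne : q ≠ q') (hqD : D < q) (hqD' : D < q')
    (hdiv : ∀ k : ℕ, 1 ≤ k → k ≤ q * q' * D ^ 2 → k ∣ 2 * x * J) (a a' : ℤ) :
    ((∑ n ∈ RW x J, ww x J n * lam D ρ n *
        ((if (q : ℤ) ∣ n - a then (1 : ℝ) else 0) * (if (q' : ℤ) ∣ n - a' then (1 : ℝ) else 0)) : ℝ) : ℂ) =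
      ∑ d ∈ Icc 1 D, ∑ e ∈ Icc 1 D,
        ((ρ d * ρ e * (Real.pi ^ 2 * x / (2 * (((Nat.lcm d e : ℕ) : ℝ) * q * q'))) : ℝ) : ℂ) *
          fej x (Nat.lcm d e * q * q') (nz (Nat.lcm d e) q q' a a') := by
  have hqq : Nat.Coprime q q' := (Nat.coprime_primes hq hq').2 hne
  have h1 : ∑ n ∈ RW x J, ww x J n * lam D ρ n *
        ((if (q : ℤ) ∣ n - a then (1 : ℝ) else 0) * (if (q' : ℤ) ∣ n - a' then (1 : ℝ) else 0)) =
      ∑ d ∈ Icc 1 D, ∑ e ∈ Icc 1 D, ρ d * ρ e *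
        ∑ n ∈ (RW x J).filter (fun n => ((Nat.lcm d e * q * q' : ℕ) : ℤ) ∣
          n - nz (Nat.lcm d e) q q' a a'), ww x J n := by
    have h2 : ∀ n ∈ RW x J, ww x J n * lam D ρ n *
        ((if (q : ℤ) ∣ n - a then (1 : ℝ) else 0) * (if (q' : ℤ) ∣ n - a' then (1 : ℝ) else 0)) =
        ∑ d ∈ Icc 1 D, ∑ e ∈ Icc 1 D, ρ d * ρ e *
          (if ((Nat.lcm d e * q * q' : ℕ) : ℤ) ∣ n - nz (Nat.lcm d e) q q' a a' then ww x J n
            else 0) := by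
      intro n _
      rw [lam_expand, Finset.mul_sum, Finset.sum_mul]
      refine Finset.sum_congr rfl fun d hd => ?_
      rw [Finset.mul_sum, Finset.sum_mul]
      refine Finset.sum_congr rfl fun e he => ?_
      rw [Finset.mem_Icc] at hd he
      have hi := Ex2_iff (Ex2_coprime hq hqD hd.1 hd.2 he.1 he.2)
        (Ex2_coprime hq' hqD' hd.1 hd.2 he.1 he.2) hqq a a' n
      by_cases g : ((Nat.lcm d e * q * q' : ℕ) : ℤ) ∣ n - nz (Nat.lcm d e) q q' a a'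
      · obtain ⟨g1, g2, g3⟩ := hi.2 g
        rw [if_pos g1, if_pos g2, if_pos g3, if_pos g]
        ring
      · rw [if_neg g]
        by_cases g1 : ((Nat.lcm d e : ℕ) : ℤ) ∣ n
        · by_cases g2 : (q : ℤ) ∣ n - a
          · by_cases g3 : (q' : ℤ) ∣ n - a'
            · exact absurd (hi.1 ⟨g1, g2, g3⟩) g
            · rw [if_neg g3]; ring
          · rw [if_neg g2]; ring
        · rw [if_neg g1]; ring
    rw [Finset.sum_congr rfl h2, Finset.sum_comm]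
    refine Finset.sum_congr rfl fun d _ => ?_
    rw [Finset.sum_comm]
    refine Finset.sum_congr rfl fun e _ => ?_
    rw [Finset.sum_filter, Finset.mul_sum]
  rw [h1]
  push_cast
  refine Finset.sum_congr rfl fun d hd => ?_
  refine Finset.sum_congr rfl fun e he => ?_
  rw [Finset.mem_Icc] at hd he
  have hL1 : 1 ≤ Nat.lcm d e := Nat.lcm_pos hd.1 he.1
  have hL2 : Nat.lcm d e ≤ D ^ 2 := by
    refine (Nat.le_of_dvd (Nat.mul_pos hd.1 he.1) (Nat.lcm_dvd_mul d e)).trans ?_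
    rw [sq]
    exact Nat.mul_le_mul hd.2 he.2
  have hm1 : 1 ≤ Nat.lcm d e * q * q' := Nat.mul_pos (Nat.mul_pos hL1 hq.pos) hq'.pos
  have hm2 : Nat.lcm d e * q * q' ≤ q * q' * D ^ 2 := by
    calc Nat.lcm d e * q * q' = q * q' * Nat.lcm d e := by ring
      _ ≤ q * q' * D ^ 2 := Nat.mul_le_mul_left _ hL2
  have h3 := KF.ww_class x J (Nat.lcm d e * q * q') hx hJ hm1 (hdiv _ hm1 hm2)
    (nz (Nat.lcm d e) q q' a a')
  push_cast at h3
  rw [h3]
  ring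

end Pool.Agent.H80.BE

end

section

/-!
PT Sel: Selberg's weights.

M ≥ 1, z > 1: there are real weights lam r, lam 1 = 1, |lam r| ≤ 1, supported on squarefree r ≤ z coprime to M, with
   0 ≤ ∑_{r,s ≤ z} lam r lam s / lcm(r,s) ≤ (M/φ(M)) / log z.
Proof.  G = ∑_{r ≤ z, (r,M)=1} μ²(r)/φ(r) and, for squarefree r ≤ z coprime to M,
   lam r = μ(r) (r/φ(r)) (1/G) G_r,   G_r = ∑_{s ≤ z/r, (s, rM)=1} μ²(s)/φ(s).
 * lam 1 = 1.
 * G ≥ ∑_{k | r} ∑_{s ≤ z/r, (s,rM)=1} μ²(ks)/φ(ks) = (∑_{k|r} 1/φ(k)) G_r = (r/φ(r)) G_r, so |lam r| ≤ 1.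
 * lcm: 1/lcm(r,s) = gcd(r,s)/(rs), gcd(r,s) = ∑_{d | r, d | s} φ(d), so the quadratic form is ∑_d φ(d) y_d² ≥ 0,
   y_d = ∑_{d | r} lam r/r, and y_d = μ(d)/(φ(d) G) for squarefree d ≤ z coprime to M (0 otherwise)
   (∑_{r : d | r} μ(r)/φ(r) G_r: put t = r s; = ∑_{t : d | t, t ≤ z, (t,M)=1} μ²(t)/φ(t) ∑_{r | t, d | r} μ(r) = μ(d)·[t = d]...),
   hence the form is (1/G²) ∑ μ²(d)/φ(d) = 1/G.
 * G · (M/φ(M)) ≥ ∑_{n ≤ z} 1/n ≥ log z: every n ≤ z is n = a b with b composed of primes dividing M and (a,M)=1;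
   ∑_{a ≤ z, (a,M)=1} 1/a ≤ ∑_{r ≤ z, (r,M)=1} μ²(r)/φ(r)  (group a by its radical: 1/φ(r) = ∑_{rad(a) = r} 1/a), and
   ∑_b 1/b = M/φ(M) over b composed of primes dividing M (finite partial sums are ≤).
-/

set_option autoImplicit false

namespace Pool.Agent.H91.PT

open Finset

/-! ### The sum over the numbers with a given radical -/

/-- the product of the primes dividing `n` but not `M` -/
def selRad (M n : ℕ) : ℕ := ∏ p ∈ n.primeFactors.filter (fun p => ¬ p ∣ M), p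

theorem selRad_dvd (M n : ℕ) : selRad M n ∣ n :=
  (prod_dvd_prod_of_subset _ _ _ (filter_subset _ _)).trans (Nat.prod_primeFactors_dvd n)

theorem sel_sq (T : Finset ℕ) (hT : ∀ p ∈ T, p.Prime) : Squarefree (∏ p ∈ T, p) := by
  classical
  induction T using Finset.induction_on with
  | empty => simp
  | insert a T ha ih =>
    have ha' : a.Prime := hT a (mem_insert_self a T)
    have hT' : ∀ p ∈ T, p.Prime := fun p hp => hT p (mem_insert_of_mem hp)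
    have hcop : Nat.Coprime a (∏ p ∈ T, p) := by
      refine Nat.Coprime.prod_right ?_
      intro p hp
      rw [Nat.coprime_primes ha' (hT' p hp)]
      rintro rfl
      exact ha hp
    rw [prod_insert ha, Nat.squarefree_mul hcop]
    exact ⟨ha'.squarefree, ih hT'⟩

theorem selRad_sq (M n : ℕ) : Squarefree (selRad M n) :=
  sel_sq _ fun _ hp => Nat.prime_of_mem_primeFactors (mem_filter.1 hp).1

theorem selRad_coprime (M n : ℕ) : Nat.Coprime (selRad M n) M := by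
  refine Nat.Coprime.prod_left ?_
  intro p hp
  rw [mem_filter] at hp
  exact (Nat.Prime.coprime_iff_not_dvd (Nat.prime_of_mem_primeFactors hp.1)).2 hp.2

/-- the completely multiplicative function `1/n` -/
noncomputable def selInv : ℕ →* ℝ where
  toFun n := (n : ℝ)⁻¹
  map_one' := by simp
  map_mul' m n := by
    rw [Nat.cast_mul, mul_inv]

theorem selInv_apply (n : ℕ) : selInv n = (n : ℝ)⁻¹ := rfl

theorem sel_tot (K : ℕ) (hK : K ≠ 0) :
    ∏ p ∈ K.primeFactors with p.Prime, (1 - selInv p)⁻¹ = (K : ℝ) / K.totient := by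
  have h1 : (K.primeFactors.filter fun p => p.Prime) = K.primeFactors :=
    filter_true_of_mem fun p hp => Nat.prime_of_mem_primeFactors hp
  rw [h1]
  have h2 : (K.totient : ℝ) = K * ∏ p ∈ K.primeFactors, (1 - (p : ℝ)⁻¹) := by
    have h := congrArg (fun q : ℚ => (q : ℝ)) (Nat.totient_eq_mul_prod_factors K)
    push_cast at h
    exact h
  have hφ : (K.totient : ℝ) ≠ 0 := by
    have := Nat.totient_pos.2 (Nat.pos_of_ne_zero hK)
    positivity
  have hK' : (K : ℝ) ≠ 0 := by exact_mod_cast hK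
  rw [eq_div_iff hφ, h2, prod_inv_distrib]
  have h3 : ∏ p ∈ K.primeFactors, (1 - (p : ℝ)⁻¹) ≠ 0 := by
    intro h
    rw [h2, h, mul_zero] at hφ
    exact hφ rfl
  simp only [selInv_apply]
  generalize ∏ p ∈ K.primeFactors, (1 - (p : ℝ)⁻¹) = Q at h3
  field_simp

theorem sel_sum (K : ℕ) (hK : K ≠ 0) (T : Finset ℕ)
    (hT : ∀ m ∈ T, m ∈ Nat.factoredNumbers K.primeFactors) :
    ∑ m ∈ T, (m : ℝ)⁻¹ ≤ (K : ℝ) / K.totient := by
  classical
  obtain ⟨h1, h2⟩ := EulerProduct.summable_and_hasSum_factoredNumbers_prod_filter_prime_geometric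
    (f := selInv) (fun {p} hp => by
      rw [selInv_apply, norm_inv, Real.norm_natCast]
      exact inv_lt_one_of_one_lt₀ (by exact_mod_cast hp.one_lt)) K.primeFactors
  rw [sel_tot K hK] at h2
  rw [← h2.tsum_eq]
  have h3 : ∑ m ∈ T, (m : ℝ)⁻¹ = ∑ m ∈ T.attach.image (fun m => (⟨m.1, hT m.1 m.2⟩ :
      Nat.factoredNumbers K.primeFactors)), selInv m := by
    rw [sum_image]
    · rw [← sum_attach]
      rfl
    · intro x _ y _ h
      exact Subtype.ext (congrArg (fun z : Nat.factoredNumbers K.primeFactors => (z : ℕ)) h)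
  rw [h3]
  refine h2.summable.sum_le_tsum _ fun i _ => ?_
  rw [selInv_apply]
  positivity

theorem sel_fiber (M : ℕ) (hM : 1 ≤ M) (N r : ℕ) (hr : r ≠ 0) (hrM : Nat.Coprime r M) :
    ∑ n ∈ (Icc 1 N).filter (fun n => selRad M n = r), (n : ℝ)⁻¹ ≤
      (1 / (r.totient : ℝ)) * ((M : ℝ) / M.totient) := by
  classical
  have hM0 : M ≠ 0 := by omega
  have hK : r * M ≠ 0 := mul_ne_zero hr hM0
  have h1 : ∀ n ∈ (Icc 1 N).filter (fun n => selRad M n = r), r ∣ n := by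
    intro n hn
    rw [mem_filter] at hn
    rw [← hn.2]
    exact selRad_dvd M n
  have h2 := sel_sum (r * M) hK (((Icc 1 N).filter (fun n => selRad M n = r)).image (fun n => n / r))
    (by
      intro m hm
      rw [mem_image] at hm
      obtain ⟨n, hn, rfl⟩ := hm
      have hrn := h1 n hn
      rw [mem_filter, mem_Icc] at hn
      have hn0 : n ≠ 0 := by omega
      rw [Nat.mem_factoredNumbers]
      refine ⟨?_, ?_⟩
      · exact (Nat.div_pos (Nat.le_of_dvd (by omega) hrn) (Nat.pos_of_ne_zero hr)).ne'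
      · intro p hp
        have hpp := Nat.prime_of_mem_primeFactorsList hp
        have hpn : p ∣ n := (Nat.dvd_of_mem_primeFactorsList hp).trans (Nat.div_dvd_of_dvd hrn)
        rw [Nat.mem_primeFactors]
        refine ⟨hpp, ?_, hK⟩
        by_cases hpM : p ∣ M
        · exact hpM.mul_left r
        · refine Dvd.dvd.mul_right ?_ M
          rw [← hn.2]
          refine dvd_prod_of_mem _ ?_
          rw [mem_filter, Nat.mem_primeFactors]
          exact ⟨⟨hpp, hpn, hn0⟩, hpM⟩)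
  rw [sum_image] at h2
  · have h3 : ∑ n ∈ (Icc 1 N).filter (fun n => selRad M n = r), (n : ℝ)⁻¹ =
        (r : ℝ)⁻¹ * ∑ n ∈ (Icc 1 N).filter (fun n => selRad M n = r), ((n / r : ℕ) : ℝ)⁻¹ := by
      rw [mul_sum]
      refine sum_congr rfl fun n hn => ?_
      rw [← mul_inv]
      congr 1
      rw [← Nat.cast_mul, Nat.mul_div_cancel' (h1 n hn)]
    rw [h3]
    refine (mul_le_mul_of_nonneg_left h2 (by positivity)).trans (le_of_eq ?_)
    rw [Nat.totient_mul hrM, Nat.cast_mul, Nat.cast_mul]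
    have hr' : (r : ℝ) ≠ 0 := by exact_mod_cast hr
    field_simp
  · intro x hx y hy hxy
    have e1 := Nat.mul_div_cancel' (h1 x hx)
    have e2 := Nat.mul_div_cancel' (h1 y hy)
    have hxy' : x / r = y / r := hxy
    rw [← e1, ← e2, hxy']

/-- the set of moduli -/
def selS (M N : ℕ) : Finset ℕ := (Icc 1 N).filter (fun r => Squarefree r ∧ Nat.Coprime r M)

theorem mem_selS {M N r : ℕ} :
    r ∈ selS M N ↔ (1 ≤ r ∧ r ≤ N) ∧ Squarefree r ∧ Nat.Coprime r M := by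
  unfold selS
  rw [mem_filter, mem_Icc]

theorem selS_dvd {M N r t : ℕ} (ht : t ∈ selS M N) (h : r ∣ t) : r ∈ selS M N := by
  rw [mem_selS] at ht ⊢
  have ht0 : 0 < t := by omega
  refine ⟨⟨Nat.pos_of_dvd_of_pos h ht0, (Nat.le_of_dvd ht0 h).trans ht.1.2⟩,
    ht.2.1.squarefree_of_dvd h, Nat.Coprime.coprime_dvd_left h ht.2.2⟩

/-- the main sum -/
noncomputable def selG (M N : ℕ) : ℝ := ∑ r ∈ selS M N, 1 / (r.totient : ℝ)

theorem selG_ge (M : ℕ) (hM : 1 ≤ M) (N : ℕ) :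
    ∑ n ∈ Icc 1 N, (n : ℝ)⁻¹ ≤ selG M N * ((M : ℝ) / M.totient) := by
  classical
  have hmaps : ∀ n ∈ Icc 1 N, selRad M n ∈ selS M N := by
    intro n hn
    rw [mem_Icc] at hn
    rw [mem_selS]
    have h0 : 0 < n := by omega
    exact ⟨⟨Nat.pos_of_dvd_of_pos (selRad_dvd M n) h0, (Nat.le_of_dvd h0 (selRad_dvd M n)).trans hn.2⟩,
      selRad_sq M n, selRad_coprime M n⟩
  rw [← sum_fiberwise_of_maps_to hmaps]
  unfold selG
  rw [sum_mul]
  refine sum_le_sum fun r hr => ?_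
  rw [mem_selS] at hr
  exact sel_fiber M hM N r (by omega) hr.2.2

/-! ### The weights -/

/-- the inner sum -/
noncomputable def selH (M N r : ℕ) : ℝ := ∑ t ∈ (selS M N).filter (fun t => r ∣ t), 1 / (t.totient : ℝ)

/-- Selberg's weights -/
noncomputable def selLam (M N r : ℕ) : ℝ :=
  (ArithmeticFunction.moebius r : ℝ) * (r : ℝ) / selG M N * selH M N r

theorem selH_one (M N : ℕ) : selH M N 1 = selG M N := by
  unfold selH selG
  rw [filter_true_of_mem]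
  intro t _
  exact one_dvd t

theorem selH_zero {M N r : ℕ} (h : r ∉ selS M N) : selH M N r = 0 := by
  unfold selH
  rw [filter_false_of_mem, sum_empty]
  intro t ht hrt
  exact h (selS_dvd ht hrt)

theorem selH_nonneg (M N r : ℕ) : 0 ≤ selH M N r :=
  sum_nonneg fun t _ => by positivity

theorem selG_pos {M N : ℕ} (hN : 1 ≤ N) : 0 < selG M N := by
  have h1 : (1 : ℕ) ∈ selS M N := by
    rw [mem_selS]
    exact ⟨⟨le_rfl, hN⟩, squarefree_one, Nat.coprime_one_left M⟩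
  refine sum_pos' (fun t _ => by positivity) ⟨1, h1, ?_⟩
  simp

theorem selH_le {M N r : ℕ} (hr : r ∈ selS M N) : (r : ℝ) * selH M N r ≤ selG M N := by
  classical
  have hr' := mem_selS.1 hr
  have hr0 : r ≠ 0 := by omega
  have hmaps : ∀ t ∈ selS M N, Nat.gcd t r ∈ r.divisors := by
    intro t _
    rw [Nat.mem_divisors]
    exact ⟨Nat.gcd_dvd_right t r, hr0⟩
  have h1 : ∀ k ∈ r.divisors, ((r / k).totient : ℝ) * selH M N r ≤
      ∑ t ∈ (selS M N).filter (fun t => Nat.gcd t r = k), 1 / (t.totient : ℝ) := by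
    intro k hk
    rw [Nat.mem_divisors] at hk
    have hk0 : k ≠ 0 := fun h => hr0 (Nat.eq_zero_of_zero_dvd (h ▸ hk.1))
    obtain ⟨l, hl⟩ := hk.1
    have hsqr : Squarefree (k * l) := hl ▸ hr'.2.1
    have hkl : Nat.Coprime k l := Nat.coprime_of_squarefree_mul hsqr
    have hrk : r / k = l := by
      rw [hl]
      exact Nat.mul_div_cancel_left l (Nat.pos_of_ne_zero hk0)
    have hl0 : l ≠ 0 := by
      rintro rfl
      rw [mul_zero] at hl
      exact hr0 hl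
    -- the injection
    have h2 : ∀ u ∈ (selS M N).filter (fun t => r ∣ t), ∃ s, u = r * s ∧ Nat.Coprime r s ∧ s ≠ 0 := by
      intro u hu
      rw [mem_filter] at hu
      obtain ⟨s, hs⟩ := hu.2
      have hu' := mem_selS.1 hu.1
      refine ⟨s, hs, Nat.coprime_of_squarefree_mul (hs ▸ hu'.2.1), ?_⟩
      rintro rfl
      rw [mul_zero] at hs
      omega
    have h3 : ((r / k).totient : ℝ) * selH M N r =
        ∑ u ∈ (selS M N).filter (fun t => r ∣ t), 1 / ((k * (u / r)).totient : ℝ) := by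
      unfold selH
      rw [mul_sum]
      refine sum_congr rfl fun u hu => ?_
      obtain ⟨s, hs, hcop, hs0⟩ := h2 u hu
      have e1 : u / r = s := by
        rw [hs]
        exact Nat.mul_div_cancel_left s (Nat.pos_of_ne_zero hr0)
      have hks : Nat.Coprime k s := Nat.Coprime.coprime_dvd_left hk.1 hcop
      rw [e1, hrk, hs, Nat.totient_mul hcop, Nat.totient_mul hks, hl, Nat.totient_mul hkl]
      have a1 : (k.totient : ℝ) ≠ 0 := by
        have := Nat.totient_pos.2 (Nat.pos_of_ne_zero hk0)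
        positivity
      have a2 : (l.totient : ℝ) ≠ 0 := by
        have := Nat.totient_pos.2 (Nat.pos_of_ne_zero hl0)
        positivity
      have a3 : (s.totient : ℝ) ≠ 0 := by
        have := Nat.totient_pos.2 (Nat.pos_of_ne_zero hs0)
        positivity
      push_cast
      field_simp
    rw [h3, ← sum_image (s := (selS M N).filter (fun t => r ∣ t)) (g := fun u => k * (u / r))
      (f := fun t : ℕ => 1 / (t.totient : ℝ))]
    · refine sum_le_sum_of_subset_of_nonneg ?_ (fun t _ _ => by positivity)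
      intro t ht
      rw [mem_image] at ht
      obtain ⟨u, hu, rfl⟩ := ht
      obtain ⟨s, hs, hcop, hs0⟩ := h2 u hu
      have e1 : u / r = s := by
        rw [hs]
        exact Nat.mul_div_cancel_left s (Nat.pos_of_ne_zero hr0)
      rw [e1, mem_filter]
      rw [mem_filter] at hu
      refine ⟨selS_dvd hu.1 ?_, ?_⟩
      · rw [hs]
        exact mul_dvd_mul_right hk.1 s
      · have hsl : Nat.Coprime s l := (Nat.Coprime.coprime_dvd_left ⟨k, by rw [hl]; ring⟩ hcop).symm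
        rw [hl, Nat.gcd_mul_left, hsl.gcd_eq_one, mul_one]
    · intro u hu v hv huv
      obtain ⟨s, hs, -, -⟩ := h2 u hu
      obtain ⟨s', hs', -, -⟩ := h2 v hv
      have huv' : k * (u / r) = k * (v / r) := huv
      rw [hs, hs', Nat.mul_div_cancel_left s (Nat.pos_of_ne_zero hr0),
        Nat.mul_div_cancel_left s' (Nat.pos_of_ne_zero hr0)] at huv'
      rw [hs, hs', Nat.eq_of_mul_eq_mul_left (Nat.pos_of_ne_zero hk0) huv']
  have h4 : selG M N = ∑ k ∈ r.divisors,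
      ∑ t ∈ (selS M N).filter (fun t => Nat.gcd t r = k), 1 / (t.totient : ℝ) := by
    rw [sum_fiberwise_of_maps_to hmaps]
    rfl
  rw [h4]
  refine le_trans (le_of_eq ?_) (sum_le_sum h1)
  rw [← sum_mul]
  congr 1
  rw [Nat.sum_div_divisors r (fun m => ((m.totient : ℕ) : ℝ))]
  have := Nat.sum_totient r
  exact_mod_cast this.symm

/-! ### The quadratic form -/

theorem sel_mu (d t : ℕ) (ht : Squarefree t) (N : ℕ) (htN : t ≤ N) (hdt : d ∣ t) :
    ∑ r ∈ (Icc 1 N).filter (fun r => d ∣ r ∧ r ∣ t), (ArithmeticFunction.moebius r : ℝ) =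
      if t = d then (ArithmeticFunction.moebius d : ℝ) else 0 := by
  classical
  have ht0 : t ≠ 0 := ht.ne_zero
  obtain ⟨l, hl⟩ := hdt
  have hd0 : d ≠ 0 := by
    rintro rfl
    rw [zero_mul] at hl
    exact ht0 hl
  have hl0 : l ≠ 0 := by
    rintro rfl
    rw [mul_zero] at hl
    exact ht0 hl
  have hdl : Nat.Coprime d l := Nat.coprime_of_squarefree_mul (hl ▸ ht)
  have h1 : (Icc 1 N).filter (fun r => d ∣ r ∧ r ∣ t) = l.divisors.image (fun k => d * k) := by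
    ext r
    rw [mem_filter, mem_Icc, mem_image]
    constructor
    · rintro ⟨⟨h1, h2⟩, ⟨k, hk⟩, h4⟩
      refine ⟨k, ?_, hk.symm⟩
      rw [Nat.mem_divisors]
      refine ⟨?_, hl0⟩
      rw [hk, hl] at h4
      exact (Nat.mul_dvd_mul_iff_left (Nat.pos_of_ne_zero hd0)).1 h4
    · rintro ⟨k, hk, rfl⟩
      rw [Nat.mem_divisors] at hk
      have h5 : d * k ∣ t := by
        rw [hl]
        exact mul_dvd_mul_left d hk.1
      have h6 : d * k ≠ 0 := fun h => ht0 (Nat.eq_zero_of_zero_dvd (h ▸ h5))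
      exact ⟨⟨Nat.pos_of_ne_zero h6, (Nat.le_of_dvd (Nat.pos_of_ne_zero ht0) h5).trans htN⟩,
        ⟨k, rfl⟩, h5⟩
  rw [h1, sum_image (by
    intro x _ y _ hxy
    exact Nat.eq_of_mul_eq_mul_left (Nat.pos_of_ne_zero hd0) hxy)]
  have h2 : ∀ k ∈ l.divisors, (ArithmeticFunction.moebius (d * k) : ℝ) =
      (ArithmeticFunction.moebius d : ℝ) * (ArithmeticFunction.moebius k : ℝ) := by
    intro k hk
    rw [Nat.mem_divisors] at hk
    have : Nat.Coprime d k := Nat.Coprime.coprime_dvd_right hk.1 hdl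
    rw [ArithmeticFunction.isMultiplicative_moebius.map_mul_of_coprime this]
    push_cast
    ring
  rw [sum_congr rfl h2, ← mul_sum]
  have h3 : ∑ k ∈ l.divisors, (ArithmeticFunction.moebius k : ℝ) = if l = 1 then 1 else 0 := by
    have h := congrArg (fun f : ArithmeticFunction ℤ => f l)
      ArithmeticFunction.coe_zeta_mul_moebius
    simp only [ArithmeticFunction.coe_zeta_mul_apply, ArithmeticFunction.one_apply] at h
    have h' := congrArg (fun q : ℤ => (q : ℝ)) h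
    push_cast at h'
    exact h'
  rw [h3]
  by_cases hl1 : l = 1
  · rw [if_pos hl1, if_pos (by rw [hl, hl1, mul_one]), mul_one]
  · rw [if_neg hl1, if_neg, mul_zero]
    intro h
    apply hl1
    rw [hl] at h
    exact Nat.eq_of_mul_eq_mul_left (Nat.pos_of_ne_zero hd0) (h.trans (mul_one d).symm)

/-- the diagonal variables -/
noncomputable def selY (M N d : ℕ) : ℝ :=
  ∑ r ∈ Icc 1 N, if d ∣ r then selLam M N r / (r : ℝ) else 0

theorem selY_eq {M N : ℕ} (hN : 1 ≤ N) (d : ℕ) :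
    selY M N d = if d ∈ selS M N then
      (ArithmeticFunction.moebius d : ℝ) / (selG M N * (d.totient : ℝ)) else 0 := by
  classical
  have hG : selG M N ≠ 0 := (selG_pos hN).ne'
  have h1 : ∀ r ∈ Icc 1 N, (if d ∣ r then selLam M N r / (r : ℝ) else 0) =
      ∑ t ∈ selS M N, (if d ∣ r ∧ r ∣ t then
        (ArithmeticFunction.moebius r : ℝ) * (1 / (selG M N * (t.totient : ℝ))) else 0) := by
    intro r hr
    rw [mem_Icc] at hr
    have hr0 : (r : ℝ) ≠ 0 := by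
      have : r ≠ 0 := by omega
      exact_mod_cast this
    by_cases hdr : d ∣ r
    · rw [if_pos hdr]
      unfold selLam selH
      rw [mul_sum, sum_filter, sum_div]
      refine sum_congr rfl fun t ht => ?_
      by_cases hrt : r ∣ t
      · have ht0 : (t.totient : ℝ) ≠ 0 := by
          have h2 := mem_selS.1 ht
          have := Nat.totient_pos.2 (show 0 < t by omega)
          positivity
        rw [if_pos hrt, if_pos ⟨hdr, hrt⟩]
        field_simp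
      · rw [if_neg hrt, if_neg (fun h => hrt h.2)]
        simp
    · rw [if_neg hdr]
      symm
      refine sum_eq_zero fun t _ => ?_
      rw [if_neg (fun h => hdr h.1)]
  unfold selY
  rw [sum_congr rfl h1, sum_comm]
  have h2 : ∀ t ∈ selS M N, ∑ r ∈ Icc 1 N, (if d ∣ r ∧ r ∣ t then
        (ArithmeticFunction.moebius r : ℝ) * (1 / (selG M N * (t.totient : ℝ))) else 0) =
      if t = d then (ArithmeticFunction.moebius d : ℝ) / (selG M N * (d.totient : ℝ)) else 0 := by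
    intro t ht
    have ht' := mem_selS.1 ht
    rw [← sum_filter, ← sum_mul]
    by_cases hdt : d ∣ t
    · rw [sel_mu d t ht'.2.1 N ht'.1.2 hdt]
      by_cases htd : t = d
      · rw [if_pos htd, if_pos htd, htd, mul_one_div]
      · rw [if_neg htd, if_neg htd, zero_mul]
    · have h3 : (Icc 1 N).filter (fun r => d ∣ r ∧ r ∣ t) = ∅ := by
        rw [filter_eq_empty_iff]
        intro r _ h
        exact hdt (h.1.trans h.2)
      rw [h3, sum_empty, zero_mul, if_neg]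
      rintro rfl
      exact hdt dvd_rfl
  rw [sum_congr rfl h2, sum_ite_eq' (selS M N) d]

theorem selQ_eq (M N : ℕ) :
    ∑ r ∈ Icc 1 N, ∑ s ∈ Icc 1 N, selLam M N r * selLam M N s / (Nat.lcm r s : ℝ) =
      ∑ d ∈ Icc 1 N, (d.totient : ℝ) * selY M N d ^ 2 := by
  classical
  have h1 : ∀ r ∈ Icc 1 N, ∀ s ∈ Icc 1 N,
      selLam M N r * selLam M N s / (Nat.lcm r s : ℝ) =
        ∑ d ∈ Icc 1 N, (d.totient : ℝ) * ((if d ∣ r then selLam M N r / (r : ℝ) else 0) *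
          (if d ∣ s then selLam M N s / (s : ℝ) else 0)) := by
    intro r hr s hs
    rw [mem_Icc] at hr hs
    have hr0 : (r : ℝ) ≠ 0 := by
      have : r ≠ 0 := by omega
      exact_mod_cast this
    have hs0 : (s : ℝ) ≠ 0 := by
      have : s ≠ 0 := by omega
      exact_mod_cast this
    have hl0 : (Nat.lcm r s : ℝ) ≠ 0 := by
      have : Nat.lcm r s ≠ 0 := Nat.lcm_ne_zero (by omega) (by omega)
      exact_mod_cast this
    have e1 : (Nat.gcd r s : ℝ) * (Nat.lcm r s : ℝ) = r * s := by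
      exact_mod_cast Nat.gcd_mul_lcm r s
    have e2 : (Nat.gcd r s : ℝ) = ∑ d ∈ Icc 1 N, if d ∣ r ∧ d ∣ s then (d.totient : ℝ) else 0 := by
      have e3 : ((Nat.gcd r s).divisors : Finset ℕ) = (Icc 1 N).filter (fun d => d ∣ r ∧ d ∣ s) := by
        ext d
        rw [Nat.mem_divisors, mem_filter, mem_Icc, Nat.dvd_gcd_iff]
        constructor
        · rintro ⟨⟨h1, h2⟩, -⟩
          exact ⟨⟨Nat.pos_of_dvd_of_pos h1 (by omega), (Nat.le_of_dvd (by omega) h1).trans hr.2⟩, h1, h2⟩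
        · rintro ⟨-, h1, h2⟩
          exact ⟨⟨h1, h2⟩, (Nat.gcd_pos_of_pos_left s (by omega)).ne'⟩
      rw [← sum_filter, ← e3]
      exact_mod_cast (Nat.sum_totient (Nat.gcd r s)).symm
    have e4 : selLam M N r * selLam M N s / (Nat.lcm r s : ℝ) =
        (selLam M N r / r) * (selLam M N s / s) * (Nat.gcd r s : ℝ) := by
      rw [div_eq_iff hl0]
      have : selLam M N r / r * (selLam M N s / s) * (Nat.gcd r s : ℝ) * (Nat.lcm r s : ℝ) =
          selLam M N r / r * (selLam M N s / s) * ((Nat.gcd r s : ℝ) * (Nat.lcm r s : ℝ)) := by ring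
      rw [this, e1]
      field_simp
    rw [e4, e2, mul_sum]
    refine sum_congr rfl fun d _ => ?_
    by_cases h1 : d ∣ r
    · by_cases h2 : d ∣ s
      · rw [if_pos ⟨h1, h2⟩, if_pos h1, if_pos h2]
        ring
      · rw [if_neg (fun h => h2 h.2), if_neg h2]
        ring
    · rw [if_neg (fun h => h1 h.1), if_neg h1]
      ring
  rw [sum_congr rfl fun r hr => sum_congr rfl fun s hs => h1 r hr s hs]
  rw [sum_congr rfl fun r _ => sum_comm, sum_comm]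
  refine sum_congr rfl fun d _ => ?_
  unfold selY
  rw [sq, sum_mul_sum, mul_sum]
  refine sum_congr rfl fun r _ => ?_
  rw [mul_sum]

theorem selQ_val {M N : ℕ} (hN : 1 ≤ N) :
    ∑ r ∈ Icc 1 N, ∑ s ∈ Icc 1 N, selLam M N r * selLam M N s / (Nat.lcm r s : ℝ) =
      1 / selG M N := by
  classical
  have hG : selG M N ≠ 0 := (selG_pos hN).ne'
  rw [selQ_eq]
  have h1 : ∀ d ∈ Icc 1 N, (d.totient : ℝ) * selY M N d ^ 2 =
      if Squarefree d ∧ Nat.Coprime d M then 1 / (d.totient : ℝ) * (1 / selG M N ^ 2) else 0 := by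
    intro d hd
    rw [mem_Icc] at hd
    rw [selY_eq hN d]
    by_cases h : Squarefree d ∧ Nat.Coprime d M
    · rw [if_pos h, if_pos (mem_selS.2 ⟨hd, h⟩)]
      have hd0 : (d.totient : ℝ) ≠ 0 := by
        have := Nat.totient_pos.2 (show 0 < d by omega)
        positivity
      have hmu : (ArithmeticFunction.moebius d : ℝ) ^ 2 = 1 := by
        have := ArithmeticFunction.moebius_sq_eq_one_of_squarefree h.1
        exact_mod_cast this
      rw [div_pow, hmu]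
      field_simp
    · rw [if_neg h, if_neg (fun h' => h (mem_selS.1 h').2)]
      simp
  rw [sum_congr rfl h1, ← sum_filter, ← sum_mul]
  have h2 : ∑ r ∈ (Icc 1 N).filter (fun r => Squarefree r ∧ Nat.Coprime r M),
      1 / (r.totient : ℝ) = selG M N := rfl
  rw [h2]
  field_simp

theorem selberg_weights (M : ℕ) (hM : 1 ≤ M) {z : ℝ} (hz : 1 < z) :
    ∃ lam : ℕ → ℝ, lam 1 = 1 ∧ (∀ r, |lam r| ≤ 1) ∧
      (∀ r, lam r ≠ 0 → 1 ≤ r ∧ (r : ℝ) ≤ z ∧ Nat.Coprime r M ∧ Squarefree r) ∧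
      0 ≤ ∑ r ∈ Icc 1 ⌊z⌋₊, ∑ s ∈ Icc 1 ⌊z⌋₊, lam r * lam s / (Nat.lcm r s : ℝ) ∧
      ∑ r ∈ Icc 1 ⌊z⌋₊, ∑ s ∈ Icc 1 ⌊z⌋₊, lam r * lam s / (Nat.lcm r s : ℝ)
        ≤ (M : ℝ) / M.totient / Real.log z := by
  classical
  have hN : 1 ≤ ⌊z⌋₊ := Nat.le_floor (by push_cast; exact hz.le)
  have hG := selG_pos (M := M) hN
  have hsupp : ∀ r, selLam M ⌊z⌋₊ r ≠ 0 → r ∈ selS M ⌊z⌋₊ := by
    intro r hr
    by_contra h
    apply hr
    unfold selLam
    rw [selH_zero h, mul_zero]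
  refine ⟨selLam M ⌊z⌋₊, ?_, ?_, ?_, ?_, ?_⟩
  · unfold selLam
    rw [selH_one, ArithmeticFunction.moebius_apply_one]
    field_simp
    simp
  · intro r
    by_cases h : r ∈ selS M ⌊z⌋₊
    · unfold selLam
      have h1 : |(ArithmeticFunction.moebius r : ℝ)| ≤ 1 := by
        have := ArithmeticFunction.abs_moebius_le_one (n := r)
        exact_mod_cast this
      have h2 := selH_le h
      have h3 := selH_nonneg M ⌊z⌋₊ r
      have h4 : (ArithmeticFunction.moebius r : ℝ) * (r : ℝ) / selG M ⌊z⌋₊ * selH M ⌊z⌋₊ r =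
          (ArithmeticFunction.moebius r : ℝ) * ((r : ℝ) * selH M ⌊z⌋₊ r / selG M ⌊z⌋₊) := by ring
      rw [h4, abs_mul]
      have h5 : 0 ≤ (r : ℝ) * selH M ⌊z⌋₊ r / selG M ⌊z⌋₊ := by positivity
      rw [abs_of_nonneg h5]
      have h6 : (r : ℝ) * selH M ⌊z⌋₊ r / selG M ⌊z⌋₊ ≤ 1 := (div_le_one hG).2 h2
      exact mul_le_one₀ h1 h5 h6
    · have : selLam M ⌊z⌋₊ r = 0 := by
        by_contra h'
        exact h (hsupp r h')
      rw [this, abs_zero]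
      exact zero_le_one
  · intro r hr
    have h := mem_selS.1 (hsupp r hr)
    exact ⟨h.1.1, (Nat.le_floor_iff (by linarith)).1 h.1.2, h.2.2, h.2.1⟩
  · rw [selQ_val hN]
    positivity
  · rw [selQ_val hN]
    have h1 : Real.log z ≤ selG M ⌊z⌋₊ * ((M : ℝ) / M.totient) := by
      have h2 : Real.log z ≤ Real.log ((⌊z⌋₊ + 1 : ℕ) : ℝ) := by
        refine Real.log_le_log (by linarith) ?_
        push_cast
        exact (Nat.lt_floor_add_one z).le
      have h3 := log_add_one_le_harmonic ⌊z⌋₊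
      have h4 : ((harmonic ⌊z⌋₊ : ℚ) : ℝ) = ∑ n ∈ Icc 1 ⌊z⌋₊, (n : ℝ)⁻¹ := by
        rw [harmonic_eq_sum_Icc]
        push_cast
        rfl
      have h5 := selG_ge M hM ⌊z⌋₊
      rw [h4] at h3
      exact h2.trans (h3.trans h5)
    have h2 : 0 < Real.log z := Real.log_pos hz
    rw [div_le_div_iff₀ hG h2, one_mul]
    rw [mul_comm] at h1
    exact h1

end Pool.Agent.H91.PT

end

section

/-!
# BE Sw: the sieve weights

* `sw_exists`: `Pool.Agent.H91.PT.selberg_weights` with `M = 2`, `z = D` (`⌊(D:ℝ)⌋₊ = D`, `2/φ(2) = 2`,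
  coprime to `2` means odd).
* `lam_nonneg`: a square.  `lam_le`: at most `D` terms of absolute value `≤ 1`.
* `lam_prime`: if `1 ≤ d ≤ D < p` and `d ∣ p`, `p` prime, then `d = 1`; `ρ 1 = 1` (and `1 ≤ D` by `SW`).
* `gg_le`: `|GG| ≤ ∑_{d,e ≤ D} 1` because `lcm(d,e) ≥ 1`.
-/

set_option autoImplicit false

namespace Pool.Agent.H80.BE

open Finset

theorem sw_exists (D : ℕ) (hD : 2 ≤ D) :
    ∃ ρ : ℕ → ℝ, SW D ρ ∧ 0 ≤ GG D ρ ∧ GG D ρ ≤ 2 / Real.log D := by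
  have hD1 : (1 : ℝ) < (D : ℝ) := by
    have : 1 < D := by omega
    exact_mod_cast this
  obtain ⟨ρ, h1, h2, h3, h4, h5⟩ := Pool.Agent.H91.PT.selberg_weights 2 (by norm_num) hD1
  rw [Nat.floor_natCast] at h4 h5
  refine ⟨ρ, ⟨h1, h2, ?_⟩, h4, ?_⟩
  · intro d hd
    obtain ⟨a1, a2, a3, a4⟩ := h3 d hd
    exact ⟨a1, by exact_mod_cast a2, Nat.coprime_two_right.1 a3⟩
  · refine h5.trans (le_of_eq ?_)
    rw [Nat.totient_two]
    norm_num

theorem sw_one_le {D : ℕ} {ρ : ℕ → ℝ} (h : SW D ρ) : 1 ≤ D := by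
  exact (h.2.2 1 (by rw [h.1]; exact one_ne_zero)).2.1

theorem lam_nonneg (D : ℕ) (ρ : ℕ → ℝ) (n : ℤ) : 0 ≤ lam D ρ n := by
  exact sq_nonneg _

theorem lam_le {D : ℕ} {ρ : ℕ → ℝ} (h : SW D ρ) (n : ℤ) : lam D ρ n ≤ (D : ℝ) ^ 2 := by
  have h1 : |∑ d ∈ (Icc 1 D).filter (fun d : ℕ => (d : ℤ) ∣ n), ρ d| ≤ (D : ℝ) := by
    refine (Finset.abs_sum_le_sum_abs _ _).trans ?_
    refine (Finset.sum_le_sum (fun d _ => h.2.1 d)).trans ?_
    rw [Finset.sum_const, nsmul_eq_mul, mul_one]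
    have h2 := Finset.card_filter_le (Icc 1 D) (fun d : ℕ => (d : ℤ) ∣ n)
    rw [Nat.card_Icc, Nat.add_sub_cancel] at h2
    exact_mod_cast h2
  unfold lam
  rw [← sq_abs]
  exact pow_le_pow_left₀ (abs_nonneg _) h1 2

theorem lam_prime {D : ℕ} {ρ : ℕ → ℝ} (h : SW D ρ) {p : ℕ} (hp : p.Prime) (hpD : D < p) :
    lam D ρ (p : ℤ) = 1 := by
  have h1 : (Icc 1 D).filter (fun d : ℕ => (d : ℤ) ∣ (p : ℤ)) = {1} := by
    ext d
    rw [Finset.mem_filter, Finset.mem_Icc, Finset.mem_singleton]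
    constructor
    · rintro ⟨⟨_, h2⟩, h3⟩
      have h4 : d ∣ p := Int.natCast_dvd_natCast.1 h3
      rcases (Nat.dvd_prime hp).1 h4 with h5 | h5
      · exact h5
      · omega
    · rintro rfl
      refine ⟨⟨le_rfl, sw_one_le h⟩, ?_⟩
      exact Int.natCast_dvd_natCast.2 (one_dvd p)
  unfold lam
  rw [h1, Finset.sum_singleton, h.1, one_pow]

theorem gg_le {D : ℕ} {ρ : ℕ → ℝ} (h : SW D ρ) : |GG D ρ| ≤ (D : ℝ) ^ 2 := by
  unfold GG
  refine (Finset.abs_sum_le_sum_abs _ _).trans ?_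
  have h1 : ∀ d ∈ Icc 1 D, |∑ e ∈ Icc 1 D, ρ d * ρ e / ((Nat.lcm d e : ℕ) : ℝ)| ≤ (D : ℝ) := by
    intro d hd
    rw [Finset.mem_Icc] at hd
    refine (Finset.abs_sum_le_sum_abs _ _).trans ?_
    have h2 : ∀ e ∈ Icc 1 D, |ρ d * ρ e / ((Nat.lcm d e : ℕ) : ℝ)| ≤ 1 := by
      intro e he
      rw [Finset.mem_Icc] at he
      have h3 : 1 ≤ Nat.lcm d e := Nat.lcm_pos (by omega) (by omega)
      have h4 : (1 : ℝ) ≤ ((Nat.lcm d e : ℕ) : ℝ) := by exact_mod_cast h3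
      rw [abs_div, abs_mul, abs_of_pos (by linarith : (0 : ℝ) < ((Nat.lcm d e : ℕ) : ℝ))]
      rw [div_le_one (by linarith)]
      have h5 := mul_le_mul (h.2.1 d) (h.2.1 e) (abs_nonneg _) zero_le_one
      linarith
    refine (Finset.sum_le_sum h2).trans ?_
    rw [Finset.sum_const, Nat.card_Icc, Nat.add_sub_cancel, nsmul_eq_mul, mul_one]
  refine (Finset.sum_le_sum h1).trans ?_
  rw [Finset.sum_const, Nat.card_Icc, Nat.add_sub_cancel, nsmul_eq_mul, sq]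

end Pool.Agent.H80.BE

end
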