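import Pool.Agent.H94.EH.M11

/-! The parts of this file: H80.KF.Kne, H80.KF.ClsD, H80.KF.ClsC, H80.KF.Pt, H80.KF.KlA, H80.KF.KlB, H80.KF.KlC, H80.KF.Abel, H80.KF.Tv, H80.KF.Phase, H80.KF.ClsA. -/

section

/-!
# Off the diagonal the numerator does not vanish

If `Adm N p₁ p₂ r m₁ m₂` with `p₁ ≠ p₂` primes then `p₁ ∤ r` and `p₂ ∤ r` (`p₁ ∣ r` would give
`p₁ ∣ p₂ m₂`, hence `p₁ ∣ m₂`).  If `K₀ = 0` then
`(p₁ - p₂) r p₃ p₄ = (p₃ - p₄) r' p₁ p₂`; as `p₁ ∤ (p₁ - p₂)`, `p₁ ∤ r`, `p₁ ∈ {p₃, p₄}`, in the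
same way `p₂ ∈ {p₃,p₄}`; so `(p₃,p₄) = (p₁,p₂)`, `r' = r` or `(p₃,p₄) = (p₂,p₁)`, `r' = -r`.
-/

set_option autoImplicit false

namespace Pool.Agent.H80.KF

open Finset

theorem adm_r {N p1 p2 : ℕ} {r : ℤ} {m1 m2 : ℕ} (h1 : p1.Prime) (h2 : p2.Prime)
    (h : Adm N p1 p2 r m1 m2) : IsCoprime r (p1 : ℤ) ∧ IsCoprime r (p2 : ℤ) := by
  obtain ⟨hne, hm2, hm1, -, heq, -, -⟩ := h
  have q1 : Prime (p1 : ℤ) := Nat.prime_iff_prime_int.1 h1
  have q2 : Prime (p2 : ℤ) := Nat.prime_iff_prime_int.1 h2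
  constructor
  · rw [isCoprime_comm, q1.irreducible.coprime_iff_not_dvd]
    intro hd
    have h3 : (p1 : ℤ) ∣ (p2 : ℤ) * m2 := by
      have h4 : (p1 : ℤ) ∣ (p1 : ℤ) * m1 - (p2 : ℤ) * m2 := by
        rw [← heq]
        exact Dvd.dvd.mul_right hd _
      have h5 : (p1 : ℤ) ∣ (p1 : ℤ) * m1 := dvd_mul_right _ _
      have h6 := dvd_sub h5 h4
      simpa using h6
    rcases q1.dvd_or_dvd h3 with h5 | h5
    · have h6 : p1 ∣ p2 := by exact_mod_cast h5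
      exact hne ((Nat.prime_dvd_prime_iff_eq h1 h2).1 h6)
    · exact hm2 (by exact_mod_cast h5)
  · rw [isCoprime_comm, q2.irreducible.coprime_iff_not_dvd]
    intro hd
    have h3 : (p2 : ℤ) ∣ (p1 : ℤ) * m1 := by
      have h4 : (p2 : ℤ) ∣ (p1 : ℤ) * m1 - (p2 : ℤ) * m2 := by
        rw [← heq]
        exact Dvd.dvd.mul_right hd _
      have h5 : (p2 : ℤ) ∣ (p2 : ℤ) * m2 := dvd_mul_right _ _
      have h6 := dvd_add h4 h5
      simpa using h6
    rcases q2.dvd_or_dvd h3 with h5 | h5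
    · have h6 : p2 ∣ p1 := by exact_mod_cast h5
      exact hne ((Nat.prime_dvd_prime_iff_eq h2 h1).1 h6).symm
    · exact hm1 (by exact_mod_cast h5)

private theorem kne_aux {p1 p2 p3 p4 : ℕ} {r r' : ℤ} (h1 : p1.Prime) (h2 : p2.Prime)
    (h3 : p3.Prime) (h4 : p4.Prime) (hne : p1 ≠ p2) (hr : IsCoprime r (p1 : ℤ))
    (h : ((p1 : ℤ) - p2) * r * p3 * p4 = ((p3 : ℤ) - p4) * r' * p1 * p2) :
    p1 = p3 ∨ p1 = p4 := by
  have q1 : Prime (p1 : ℤ) := Nat.prime_iff_prime_int.1 h1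
  have hd : (p1 : ℤ) ∣ ((p1 : ℤ) - p2) * r * p3 * p4 := by
    rw [h]
    exact Dvd.intro_left (((p3 : ℤ) - p4) * r' * p2) (by ring)
  rcases q1.dvd_or_dvd hd with hd | hd
  · rcases q1.dvd_or_dvd hd with hd | hd
    · rcases q1.dvd_or_dvd hd with hd | hd
      · exfalso
        have h6 : (p1 : ℤ) ∣ (p2 : ℤ) := by
          have h5 : (p1 : ℤ) ∣ (p1 : ℤ) := dvd_rfl
          have h7 := dvd_sub h5 hd
          simpa using h7
        have h8 : p1 ∣ p2 := by exact_mod_cast h6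
        exact hne ((Nat.prime_dvd_prime_iff_eq h1 h2).1 h8)
      · exfalso
        rw [isCoprime_comm, q1.irreducible.coprime_iff_not_dvd] at hr
        exact hr hd
    · left
      have h8 : p1 ∣ p3 := by exact_mod_cast hd
      exact (Nat.prime_dvd_prime_iff_eq h1 h3).1 h8
  · right
    have h8 : p1 ∣ p4 := by exact_mod_cast hd
    exact (Nat.prime_dvd_prime_iff_eq h1 h4).1 h8

private theorem kne_TT {P : ℕ} {τ : ℕ × ℕ × ℤ} (h : τ ∈ TT P) : τ.1.Prime ∧ τ.2.1.Prime := by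
  unfold TT PP at h
  simp only [Finset.mem_product, Finset.mem_filter] at h
  exact ⟨h.1.2, h.2.1.2⟩

theorem k0_ne (N P : ℕ) (η : ℤ) (hη : η ≠ 0) (τ τ' : ℕ × ℕ × ℤ) (hτ : τ ∈ TT P)
    (hτ' : τ' ∈ TT P) (hd : ¬ Diag τ τ') (m1 m2 m1' m2' : ℕ)
    (h : Adm N τ.1 τ.2.1 τ.2.2 m1 m2) (h' : Adm N τ'.1 τ'.2.1 τ'.2.2 m1' m2') :
    K0 η τ τ' ≠ 0 := by
  obtain ⟨h1, h2⟩ := kne_TT hτ
  obtain ⟨h3, h4⟩ := kne_TT hτ'
  obtain ⟨p1, p2, r⟩ := τ
  obtain ⟨p3, p4, r'⟩ := τ'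
  simp only at h1 h2 h3 h4 h h'
  intro hK
  apply hd
  unfold K0 at hK
  simp only at hK
  have hK' : ((p1 : ℤ) - p2) * r * p3 * p4 = ((p3 : ℤ) - p4) * r' * p1 * p2 := by
    rcases mul_eq_zero.1 hK with h5 | h5
    · exact absurd h5 hη
    · linarith
  obtain ⟨hr1, hr2⟩ := adm_r h1 h2 h
  have hne := h.1
  have hne' := h'.1
  have a1 := kne_aux (r' := r') h1 h2 h3 h4 hne hr1 hK'
  have a2 := kne_aux (r' := -r') h2 h1 h3 h4 hne.symm hr2 (by linear_combination -hK')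
  have z1 : (p1 : ℤ) ≠ 0 := by exact_mod_cast h1.ne_zero
  have z2 : (p2 : ℤ) ≠ 0 := by exact_mod_cast h2.ne_zero
  have z3 : (p1 : ℤ) - p2 ≠ 0 := by
    intro h5
    apply hne
    have h6 : (p1 : ℤ) = p2 := by linarith
    exact_mod_cast h6
  have z4 : ((p1 : ℤ) - p2) * p1 * p2 ≠ 0 := mul_ne_zero (mul_ne_zero z3 z1) z2
  unfold Diag
  rcases a1 with a1 | a1
  · have b2 : p2 = p4 := by
      rcases a2 with a2 | a2
      · exact absurd (a1.trans a2.symm) hne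
      · exact a2
    left
    subst a1 b2
    have h7 : r = r' := by
      apply mul_left_cancel₀ z4
      linear_combination hK'
    rw [h7]
  · have b2 : p2 = p3 := by
      rcases a2 with a2 | a2
      · exact a2
      · exact absurd (a1.trans a2.symm) hne
    right
    subst a1 b2
    have h7 : r' = -r := by
      apply mul_left_cancel₀ z4
      linear_combination hK'
    simp only
    rw [h7]

end Pool.Agent.H80.KF

end

section

/-!
# Definitions for the residue classes of `m₂`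
-/

set_option autoImplicit false

namespace Pool.Agent.H80.KF

open Finset

/-- the smooth weight -/
noncomputable def GG (F : ℝ → ℂ) (A c1 c2 : ℝ) (m n n' : ℝ) : ℂ :=
  F (A * n) * (starRingEnd ℂ) (F (m * n)) * ((starRingEnd ℂ) (F (A * n')) * F (m * n')) *
    (ee (c1 / n) * (starRingEnd ℂ) (ee (c2 / n')))

/-- the modulus of the classes -/
def M0 (τ τ' : ℕ × ℕ × ℤ) (s : ℕ) : ℕ :=
  Nat.lcm τ.2.2.natAbs τ'.2.2.natAbs * (s * (τ.1 * τ'.1))

/-- the sum over the class `ρ mod M₀` -/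
noncomputable def CS (F : ℝ → ℂ) (η : ℤ) (N : ℕ) (τ τ' : ℕ × ℕ × ℤ) (m1 s ρ : ℕ) : ℂ :=
  ∑ t ∈ (range (2 * N + 2)).filter (fun t => ρ + M0 τ τ' s * t ∈ II N),
    gg F η N τ m1 (ρ + M0 τ τ' s * t) * (starRingEnd ℂ) (gg F η N τ' m1 (ρ + M0 τ τ' s * t))

/-- `ξ/(p₁ m₁)` with `ξ = η (p₁ - p₂)` -/
noncomputable def cc (η : ℤ) (τ : ℕ × ℕ × ℤ) (m1 : ℕ) : ℝ :=
  ((η * ((τ.1 : ℤ) - τ.2.1) : ℤ) : ℝ) / ((τ.1 : ℝ) * m1)

/-- the product `s p₁ p₂ p₃ p₄` -/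
def sp (τ τ' : ℕ × ℕ × ℤ) (s : ℕ) : ℕ := s * (τ.1 * τ.2.1 * (τ'.1 * τ'.2.1))

end Pool.Agent.H80.KF

end

section

/-!
# The number of residue classes of `m₂`

A class with a nonzero sum has a `t` with `Adm` for both triples, so `p₂ρ ≡ p₁m₁ (mod r)`,
`p₄ρ ≡ p₃m₁ (mod r')` (`r, r' ∣ M₀`); `p₂` is coprime to `r`, `p₄` to `r'` (`adm_r`), so
`ρ mod lcm(|r|,|r'|)` is the same for all such classes: at most `M₀/lcm = s p₁ p₃` classes.
-/

set_option autoImplicit false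

namespace Pool.Agent.H80.KF

open Finset

private lemma clsC_prime {P : ℕ} {τ : ℕ × ℕ × ℤ} (h : τ ∈ TT P) : τ.1.Prime ∧ τ.2.1.Prime := by
  unfold TT PP at h
  rw [mem_product, mem_product, mem_filter, mem_filter] at h
  exact ⟨h.1.2, h.2.1.2⟩

private lemma clsC_gg {F : ℝ → ℂ} {η : ℤ} {N : ℕ} {τ : ℕ × ℕ × ℤ} {m1 m2 : ℕ}
    (h : gg F η N τ m1 m2 ≠ 0) : Adm N τ.1 τ.2.1 τ.2.2 m1 m2 := by
  unfold gg at h
  by_contra hn
  rw [if_neg hn] at h
  exact h rfl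

/-- the numbers `m₂` for two admissible pairs are congruent modulo `r` -/
private lemma clsC_dvd {N p1 p2 : ℕ} {r : ℤ} {m1 m2 m2' : ℕ} (h1 : p1.Prime) (h2 : p2.Prime)
    (h : Adm N p1 p2 r m1 m2) (h' : Adm N p1 p2 r m1 m2') : r ∣ (m2 : ℤ) - m2' := by
  have hc := (adm_r h1 h2 h).2
  have e1 : r ∣ (p1 : ℤ) * m1 - (p2 : ℤ) * m2 := ⟨_, h.2.2.2.2.1.symm⟩
  have e2 : r ∣ (p1 : ℤ) * m1 - (p2 : ℤ) * m2' := ⟨_, h'.2.2.2.2.1.symm⟩
  have e3 : r ∣ (p2 : ℤ) * ((m2 : ℤ) - m2') := by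
    have e4 := dvd_sub e2 e1
    have e5 : (p1 : ℤ) * m1 - (p2 : ℤ) * m2' - ((p1 : ℤ) * m1 - (p2 : ℤ) * m2) =
        (p2 : ℤ) * ((m2 : ℤ) - m2') := by ring
    rwa [e5] at e4
  exact hc.dvd_of_dvd_mul_left e3

private lemma clsC_class {N P : ℕ} {η : ℤ} {F : ℝ → ℂ} {τ τ' : ℕ × ℕ × ℤ} (hτ : τ ∈ TT P)
    (hτ' : τ' ∈ TT P) {m1 s ρ ρ' : ℕ} (h : CS F η N τ τ' m1 s ρ ≠ 0)
    (h' : CS F η N τ τ' m1 s ρ' ≠ 0) :
    (Nat.lcm τ.2.2.natAbs τ'.2.2.natAbs : ℤ) ∣ (ρ : ℤ) - ρ' := by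
  obtain ⟨t, -, ht⟩ := exists_ne_zero_of_sum_ne_zero h
  obtain ⟨t', -, ht'⟩ := exists_ne_zero_of_sum_ne_zero h'
  have a1 := clsC_gg (left_ne_zero_of_mul ht)
  have a2 := clsC_gg (left_ne_zero_of_mul ht')
  have b1 := clsC_gg (fun h0 => right_ne_zero_of_mul ht (by rw [h0, map_zero]))
  have b2 := clsC_gg (fun h0 => right_ne_zero_of_mul ht' (by rw [h0, map_zero]))
  have c1 := clsC_dvd (clsC_prime hτ).1 (clsC_prime hτ).2 a1 a2
  have c2 := clsC_dvd (clsC_prime hτ').1 (clsC_prime hτ').2 b1 b2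
  set L := Nat.lcm τ.2.2.natAbs τ'.2.2.natAbs with hL
  have hLM : (L : ℤ) ∣ (M0 τ τ' s : ℤ) := by
    rw [Int.natCast_dvd_natCast]
    exact ⟨s * (τ.1 * τ'.1), rfl⟩
  have d1 : (L : ℤ) ∣ ((ρ + M0 τ τ' s * t : ℕ) : ℤ) - ((ρ' + M0 τ τ' s * t' : ℕ) : ℤ) := by
    have e1 : τ.2.2.natAbs ∣ (((ρ + M0 τ τ' s * t : ℕ) : ℤ) -
        ((ρ' + M0 τ τ' s * t' : ℕ) : ℤ)).natAbs := Int.natAbs_dvd_natAbs.2 c1
    have e2 : τ'.2.2.natAbs ∣ (((ρ + M0 τ τ' s * t : ℕ) : ℤ) -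
        ((ρ' + M0 τ τ' s * t' : ℕ) : ℤ)).natAbs := Int.natAbs_dvd_natAbs.2 c2
    exact Int.natCast_dvd.2 (Nat.lcm_dvd e1 e2)
  have d2 : (L : ℤ) ∣ (M0 τ τ' s : ℤ) * t' - (M0 τ τ' s : ℤ) * t :=
    dvd_sub (hLM.mul_right _) (hLM.mul_right _)
  have d3 := dvd_add d1 d2
  have e5 : ((ρ + M0 τ τ' s * t : ℕ) : ℤ) - ((ρ' + M0 τ τ' s * t' : ℕ) : ℤ) +
      ((M0 τ τ' s : ℤ) * t' - (M0 τ τ' s : ℤ) * t) = (ρ : ℤ) - ρ' := by
    push_cast
    ring
  rwa [e5] at d3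

theorem cls_card (N P : ℕ) (η : ℤ) (F : ℝ → ℂ) (τ τ' : ℕ × ℕ × ℤ) (hτ : τ ∈ TT P)
    (hτ' : τ' ∈ TT P) (m1 s : ℕ) (hs : 1 ≤ s) (hr : τ.2.2 ≠ 0) (hr' : τ'.2.2 ≠ 0) :
    (((range (M0 τ τ' s)).filter (fun ρ => CS F η N τ τ' m1 s ρ ≠ 0)).card : ℕ) ≤
      s * (τ.1 * τ'.1) := by
  classical
  set L := Nat.lcm τ.2.2.natAbs τ'.2.2.natAbs with hL
  have hL0 : 0 < L := Nat.lcm_pos (Int.natAbs_pos.2 hr) (Int.natAbs_pos.2 hr')
  have hM : M0 τ τ' s = L * (s * (τ.1 * τ'.1)) := rfl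
  have hcard : (range (s * (τ.1 * τ'.1))).card = s * (τ.1 * τ'.1) := card_range _
  rw [← hcard]
  refine card_le_card_of_injOn (fun ρ => ρ / L) ?_ ?_
  · intro ρ hρ
    rw [mem_coe, mem_filter, mem_range, hM] at hρ
    rw [mem_coe, mem_range]
    exact Nat.div_lt_of_lt_mul hρ.1
  · intro ρ hρ ρ' hρ' he
    rw [mem_coe, mem_filter] at hρ hρ'
    simp only at he
    have h1 := clsC_class hτ hτ' hρ.2 hρ'.2
    rw [← hL] at h1
    have h2 : ρ' % L = ρ % L := (Nat.modEq_iff_dvd.2 h1)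
    rw [← Nat.div_add_mod ρ L, ← Nat.div_add_mod ρ' L, he, h2]

end Pool.Agent.H80.KF

end

section

/-!
# The part of `m` composed of the primes dividing `B`

`pt_sum`: `pt B m` is a divisor `d` of `m` all of whose prime factors divide `B`, so
`∑_{m ≤ 3N} (pt B m)^{1/4} ≤ ∑_d d^{1/4} (3N/d) ≤ 3N ∏_{p ∣ B} (1 - p^{-3/4})^{-1}
≤ 3N · 4^{ω(B)} ≤ 3N τ(B)²` (`d` over the numbers composed of primes dividing `B`; Euler product
over a finite set of primes, `Nat.factoredNumbers`).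
-/

set_option autoImplicit false

namespace Pool.Agent.H80.KF

open Finset

/-- the complementary part -/
private def pt_qt (B m : ℕ) : ℕ :=
  ∏ p ∈ m.primeFactors.filter (fun p => ¬ p ∣ B), p ^ m.factorization p

private theorem pt_mul_qt (B m : ℕ) (hm : m ≠ 0) : pt B m * pt_qt B m = m := by
  unfold pt pt_qt
  rw [Finset.prod_filter_mul_prod_filter_not]
  exact Nat.prod_factorization_pow_eq_self hm

theorem pt_dvd (B m : ℕ) (hm : m ≠ 0) : pt B m ∣ m :=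
  ⟨pt_qt B m, (pt_mul_qt B m hm).symm⟩

theorem pt_pos (B m : ℕ) : 1 ≤ pt B m := by
  unfold pt
  refine Nat.succ_le_of_lt (Finset.prod_pos fun p hp => ?_)
  have h1 := (Finset.mem_filter.1 hp).1
  exact pow_pos (Nat.prime_of_mem_primeFactors h1).pos _

private theorem pt_qt_coprime (B m : ℕ) : Nat.Coprime (pt_qt B m) B := by
  unfold pt_qt
  refine Nat.Coprime.prod_left fun p hp => ?_
  have h1 := Finset.mem_filter.1 hp
  exact Nat.Coprime.pow_left _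
    ((Nat.Prime.coprime_iff_not_dvd (Nat.prime_of_mem_primeFactors h1.1)).2 h1.2)

private theorem pt_prime_dvd {B m p : ℕ} (hp : p.Prime) (h : p ∣ pt B m) : p ∣ B := by
  unfold pt at h
  obtain ⟨q, hq, hpq⟩ := (Prime.dvd_finsetProd_iff hp.prime _).1 h
  have h1 := Finset.mem_filter.1 hq
  have h2 := (Nat.prime_dvd_prime_iff_eq hp (Nat.prime_of_mem_primeFactors h1.1)).1
    (hp.dvd_of_dvd_pow hpq)
  rw [h2]
  exact h1.2

theorem pt_coprime (B m : ℕ) (hB : B ≠ 0) (hm : m ≠ 0) :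
    Nat.Coprime (m / pt B m) B ∧ Nat.Coprime (m / pt B m) (pt B m) := by
  have h1 : m / pt B m = pt_qt B m :=
    Nat.div_eq_of_eq_mul_right (pt_pos B m) (pt_mul_qt B m hm).symm
  rw [h1]
  refine ⟨pt_qt_coprime B m, ?_⟩
  refine Nat.Coprime.symm (Nat.coprime_of_dvd fun p hp h2 h3 => ?_)
  exact Nat.Prime.not_coprime_iff_dvd.2 ⟨p, hp, h3, pt_prime_dvd hp h2⟩ (pt_qt_coprime B m)

/-- the largest divisor composed of primes dividing `B` -/
theorem dvd_pt (B m d : ℕ) (hm : m ≠ 0) (hd : d ∣ m) (h : ∀ p, p.Prime → p ∣ d → p ∣ B) :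
    d ∣ pt B m := by
  have h1 : Nat.Coprime d (pt_qt B m) := by
    refine Nat.coprime_of_dvd fun p hp h2 h3 => ?_
    exact Nat.Prime.not_coprime_iff_dvd.2 ⟨p, hp, h3, h p hp h2⟩ (pt_qt_coprime B m)
  refine h1.dvd_of_dvd_mul_right ?_
  rw [pt_mul_qt B m hm]
  exact hd

/-- `n ↦ n^{-3/4}` -/
private noncomputable def pt_f : ℕ →* ℝ where
  toFun n := (n : ℝ) ^ (-(3 : ℝ) / 4)
  map_one' := by simp
  map_mul' a b := by
    push_cast
    exact Real.mul_rpow (Nat.cast_nonneg a) (Nat.cast_nonneg b)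

private theorem pt_f_apply (n : ℕ) : pt_f n = (n : ℝ) ^ (-(3 : ℝ) / 4) := rfl

private theorem pt_f_nonneg (n : ℕ) : 0 ≤ pt_f n := Real.rpow_nonneg (Nat.cast_nonneg n) _

private theorem pt_f_prime {p : ℕ} (hp : p.Prime) : pt_f p ≤ 3 / 4 := by
  rw [pt_f_apply]
  have h1 : (2 : ℝ) ≤ p := by exact_mod_cast hp.two_le
  have h2 : (p : ℝ) ^ (-(3 : ℝ) / 4) ≤ (2 : ℝ) ^ (-(3 : ℝ) / 4) :=
    Real.rpow_le_rpow_of_nonpos (by norm_num) h1 (by norm_num)
  refine h2.trans ?_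
  have h3 : ((2 : ℝ) ^ (-(3 : ℝ) / 4)) ^ (4 : ℕ) = 1 / 8 := by
    rw [← Real.rpow_natCast, ← Real.rpow_mul (by norm_num)]
    have : (-(3 : ℝ) / 4) * ((4 : ℕ) : ℝ) = ((-3 : ℤ) : ℝ) := by norm_num
    rw [this, Real.rpow_intCast]
    norm_num
  by_contra hlt
  push Not at hlt
  have h4 : ((3 : ℝ) / 4) ^ (4 : ℕ) < ((2 : ℝ) ^ (-(3 : ℝ) / 4)) ^ (4 : ℕ) :=
    pow_lt_pow_left₀ hlt (by norm_num) (by norm_num)
  rw [h3] at h4
  norm_num at h4

private theorem pt_count (M d : ℕ) (hd : 1 ≤ d) :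
    (((Ioc 0 M).filter (fun m => d ∣ m)).card : ℝ) ≤ M / d := by
  have h1 : ((Ioc 0 M).filter (fun m => d ∣ m)).card = M / d := Nat.Ioc_filter_dvd_card_eq_div M d
  rw [h1]
  exact Nat.cast_div_le

private theorem pt_two_pow (B : ℕ) (hB : B ≠ 0) : 2 ^ B.primeFactors.card ≤ tau B := by
  unfold tau
  rw [← Finset.card_powerset]
  refine Finset.card_le_card_of_injOn (fun s => ∏ p ∈ s, p) ?_ ?_
  · intro s hs
    have hs' : s ⊆ B.primeFactors := Finset.mem_powerset.1 hs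
    show ∏ p ∈ s, p ∈ (B.divisors : Set ℕ)
    rw [Finset.mem_coe, Nat.mem_divisors]
    exact ⟨(Finset.prod_dvd_prod_of_subset _ _ _ hs').trans (Nat.prod_primeFactors_dvd B), hB⟩
  · intro s hs t ht hst
    have hs' : s ⊆ B.primeFactors := Finset.mem_powerset.1 hs
    have ht' : t ⊆ B.primeFactors := Finset.mem_powerset.1 ht
    have h1 : ∀ u : Finset ℕ, u ⊆ B.primeFactors → (∏ p ∈ u, p).primeFactors = u := by
      intro u hu
      exact Nat.primeFactors_prod fun p hp => Nat.prime_of_mem_primeFactors (hu hp)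
    rw [← h1 s hs', ← h1 t ht']
    exact congrArg Nat.primeFactors hst

private theorem pt_term (B m : ℕ) (S : Finset ℕ) (hmS : pt B m ∈ S) (hm : m ≠ 0) :
    ((pt B m : ℕ) : ℝ) ^ ((1 : ℝ) / 4) ≤
      ∑ d ∈ S, if d ∣ m then (d : ℝ) ^ ((1 : ℝ) / 4) else 0 := by
  have h1 : (if pt B m ∣ m then ((pt B m : ℕ) : ℝ) ^ ((1 : ℝ) / 4) else 0) =
      ((pt B m : ℕ) : ℝ) ^ ((1 : ℝ) / 4) := if_pos (pt_dvd B m hm)
  rw [← h1]
  refine Finset.single_le_sum (f := fun d : ℕ => if d ∣ m then (d : ℝ) ^ ((1 : ℝ) / 4) else 0)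
    (fun d _ => ?_) hmS
  split_ifs
  · exact Real.rpow_nonneg (Nat.cast_nonneg d) _
  · exact le_rfl

theorem pt_sum (N B : ℕ) (hN : 1 ≤ N) (hB : 1 ≤ B) :
    ∑ m ∈ II N, ((pt B m : ℕ) : ℝ) ^ ((1 : ℝ) / 4) ≤ 3 * N * (tau B : ℝ) ^ 2 := by
  classical
  set S : Finset ℕ := (II N).image (pt B) with hS
  have hII : II N ⊆ Ioc 0 (3 * N) := by
    intro m hm
    have := Finset.mem_Ioc.1 hm
    exact Finset.mem_Ioc.2 ⟨by omega, by omega⟩
  have hS1 : ∀ d ∈ S, 1 ≤ d := by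
    intro d hd
    obtain ⟨m, _, rfl⟩ := Finset.mem_image.1 hd
    exact pt_pos B m
  have hS2 : ∀ d ∈ S, d ∈ Nat.factoredNumbers B.primeFactors := by
    intro d hd
    obtain ⟨m, _, rfl⟩ := Finset.mem_image.1 hd
    rw [Nat.mem_factoredNumbers']
    intro p hp hpd
    exact Nat.mem_primeFactors.2 ⟨hp, pt_prime_dvd hp hpd, by omega⟩
  -- step 1
  have h1 : ∑ m ∈ II N, ((pt B m : ℕ) : ℝ) ^ ((1 : ℝ) / 4) ≤
      ∑ d ∈ S, (d : ℝ) ^ ((1 : ℝ) / 4) * ((3 * N : ℕ) / d : ℝ) := by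
    calc ∑ m ∈ II N, ((pt B m : ℕ) : ℝ) ^ ((1 : ℝ) / 4)
        ≤ ∑ m ∈ II N, ∑ d ∈ S, if d ∣ m then (d : ℝ) ^ ((1 : ℝ) / 4) else 0 := by
          refine Finset.sum_le_sum fun m hm => ?_
          have hm0 : m ≠ 0 := by
            have := Finset.mem_Ioc.1 hm
            omega
          exact pt_term B m S (Finset.mem_image_of_mem _ hm) hm0
      _ = ∑ d ∈ S, ∑ m ∈ II N, if d ∣ m then (d : ℝ) ^ ((1 : ℝ) / 4) else 0 := Finset.sum_comm
      _ ≤ ∑ d ∈ S, (d : ℝ) ^ ((1 : ℝ) / 4) * ((3 * N : ℕ) / d : ℝ) := by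
          refine Finset.sum_le_sum fun d hd => ?_
          rw [← Finset.sum_filter, Finset.sum_const, nsmul_eq_mul, mul_comm]
          refine mul_le_mul_of_nonneg_left ?_ (Real.rpow_nonneg (Nat.cast_nonneg d) _)
          refine le_trans ?_ (pt_count (3 * N) d (hS1 d hd))
          exact_mod_cast Finset.card_le_card (Finset.filter_subset_filter _ hII)
  -- step 2
  have h2 : ∑ d ∈ S, (d : ℝ) ^ ((1 : ℝ) / 4) * ((3 * N : ℕ) / d : ℝ) =
      3 * N * ∑ d ∈ S, pt_f d := by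
    rw [Finset.mul_sum]
    refine Finset.sum_congr rfl fun d hd => ?_
    have hd0 : (0 : ℝ) < d := by exact_mod_cast hS1 d hd
    have h3 : (d : ℝ) ^ ((1 : ℝ) / 4) = pt_f d * d := by
      rw [pt_f_apply]
      nth_rw 3 [← Real.rpow_one (d : ℝ)]
      rw [← Real.rpow_add hd0]
      norm_num
    rw [h3]
    push_cast
    field_simp
  -- step 3
  have hnorm : ∀ {p : ℕ}, p.Prime → ‖pt_f p‖ < 1 := by
    intro p hp
    rw [Real.norm_of_nonneg (pt_f_nonneg p)]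
    have := pt_f_prime hp
    linarith
  have h4 := EulerProduct.summable_and_hasSum_factoredNumbers_prod_filter_prime_geometric
    (f := pt_f) hnorm B.primeFactors
  have h5 : ∑ d ∈ S, pt_f d ≤ ∏ p ∈ B.primeFactors with p.Prime, (1 - pt_f p)⁻¹ := by
    have h6 : ∑ d ∈ S.attach, pt_f d.1 = ∑ d ∈ S, pt_f d := Finset.sum_attach S (fun d => pt_f d)
    rw [← h6]
    let e : {d // d ∈ S} → Nat.factoredNumbers B.primeFactors := fun d => ⟨d.1, hS2 d.1 d.2⟩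
    have he : Function.Injective e := by
      intro a b hab
      apply Subtype.ext
      exact congrArg (fun x => x.1) hab
    have h7 : ∑ d ∈ S.attach, pt_f d.1 =
        ∑ m ∈ S.attach.image e, pt_f (m : ℕ) := by
      rw [Finset.sum_image fun a _ b _ h => he h]
    rw [h7]
    exact sum_le_hasSum _ (fun m _ => pt_f_nonneg _) h4.2
  have h6 : ∏ p ∈ B.primeFactors with p.Prime, (1 - pt_f p)⁻¹ ≤ (4 : ℝ) ^ B.primeFactors.card := by
    have h7 : B.primeFactors.filter (fun p => p.Prime) = B.primeFactors :=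
      Finset.filter_true_of_mem fun p hp => Nat.prime_of_mem_primeFactors hp
    rw [h7, ← Finset.prod_const]
    refine Finset.prod_le_prod (fun p hp => ?_) fun p hp => ?_
    · have := pt_f_prime (Nat.prime_of_mem_primeFactors hp)
      exact inv_nonneg.2 (by linarith)
    · have := pt_f_prime (Nat.prime_of_mem_primeFactors hp)
      rw [inv_le_comm₀ (by linarith) (by norm_num)]
      linarith
  have h7 : (4 : ℝ) ^ B.primeFactors.card ≤ (tau B : ℝ) ^ 2 := by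
    have h8 : ((2 : ℝ) ^ B.primeFactors.card) ≤ tau B := by
      exact_mod_cast pt_two_pow B (by omega)
    calc (4 : ℝ) ^ B.primeFactors.card = ((2 : ℝ) ^ B.primeFactors.card) ^ 2 := by
          rw [← pow_mul, mul_comm, pow_mul]
          norm_num
      _ ≤ (tau B : ℝ) ^ 2 := pow_le_pow_left₀ (by positivity) h8 2
  rw [h2] at h1
  refine h1.trans ?_
  exact mul_le_mul_of_nonneg_left (h5.trans (h6.trans h7)) (by positivity)

end Pool.Agent.H80.KF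

end

section

/-!
# The counting behind the fourth moment of Kloosterman sums

Count of `x₁ + x₂ = x₃ + x₄`, `x₁⁻¹ + x₂⁻¹ = x₃⁻¹ + x₄⁻¹` in the units of `ZMod q`.
Put `s = x₁ + x₂`; multiplying the second equation by `x₁x₂x₃x₄` gives `s (x₃x₄ - x₁x₂) = 0`, and
`x₃x₄ - x₁x₂ = x₃(s - x₃) - x₁x₂ = -(x₃ - x₁)(x₃ - x₂)`.  So `A B C = 0` with `A = x₁ + x₂`,
`B = x₃ - x₁`, `C = x₃ - x₂` in `ZMod q`; `x₄ = x₁ + x₂ - x₃` is determined, and
`(x₁,x₂,x₃) ↦ (A,B,C)` is at most 2-to-1 (two preimages differ by `δ(1,1,1)`, `2δ = 0`).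
Finally `#{(A,B,C) mod q : ABC = 0} ≤ ∑_{d₁d₂d₃ = q} (q/d₁)(q/d₂)(q/d₃) = q² #{(d₁,d₂,d₃)} ≤ q² τ(q)²`:
if `q ∣ A B C` take `d₁ = (A,q)`, `d₂ = (B, q/d₁)`, `d₃ = q/(d₁d₂)`; then `d₃ ∣ C`.
-/

set_option autoImplicit false

namespace Pool.Agent.H80.KF

open Finset

private theorem kla_dvd {n x y : ℕ} (hn : 0 < n) (h : n ∣ x * y) : n / Nat.gcd x n ∣ y := by
  have hg : 0 < Nat.gcd x n := Nat.gcd_pos_of_pos_right _ hn
  have hc := Nat.coprime_div_gcd_div_gcd hg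
  obtain ⟨a, ha⟩ := Nat.gcd_dvd_left x n
  obtain ⟨b, hb⟩ := Nat.gcd_dvd_right x n
  set g := Nat.gcd x n with hgdef
  have hxa : x / g = a := Nat.div_eq_of_eq_mul_right hg ha
  have hnb : n / g = b := Nat.div_eq_of_eq_mul_right hg hb
  rw [hxa, hnb] at hc
  rw [hnb]
  rw [ha, hb, mul_assoc] at h
  have h2 : b ∣ a * y := Nat.dvd_of_mul_dvd_mul_left hg h
  exact hc.symm.dvd_of_dvd_mul_left h2

private theorem kla_mult (q : ℕ) [NeZero q] (d : ℕ) (hd : d ∣ q) :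
    (univ.filter (fun A : ZMod q => d ∣ A.val)).card ≤ q / d := by
  have hq : 0 < q := Nat.pos_of_ne_zero (NeZero.ne q)
  have hd0 : 0 < d := Nat.pos_of_dvd_of_pos hd hq
  rw [← card_range (q / d)]
  apply Finset.card_le_card_of_injOn (fun A => A.val / d)
  · intro A hA
    rw [Finset.mem_coe, mem_filter] at hA
    rw [Finset.mem_coe, mem_range]
    obtain ⟨k, hk⟩ := hA.2
    obtain ⟨l, hl⟩ := hd
    have h1 : A.val < q := ZMod.val_lt A
    show A.val / d < q / d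
    rw [hk, Nat.mul_div_cancel_left _ hd0]
    have h2 : q / d = l := Nat.div_eq_of_eq_mul_right hd0 hl
    rw [h2]
    rw [hk, hl] at h1
    exact lt_of_mul_lt_mul_left h1 (Nat.zero_le _)
  · intro A hA B hB h
    rw [Finset.mem_coe, mem_filter] at hA hB
    have h' : A.val / d = B.val / d := h
    apply ZMod.val_injective q
    rw [← Nat.div_mul_cancel hA.2, ← Nat.div_mul_cancel hB.2, h']

theorem abc_count (q : ℕ) [NeZero q] :
    ((univ.filter (fun x : ZMod q × ZMod q × ZMod q => x.1 * x.2.1 * x.2.2 = 0)).card : ℕ)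
      ≤ q ^ 2 * tau q ^ 2 := by
  classical
  have hq : 0 < q := Nat.pos_of_ne_zero (NeZero.ne q)
  set F : ℕ → Finset (ZMod q) := fun d => univ.filter (fun A : ZMod q => d ∣ A.val) with hF
  set D : Finset (ℕ × ℕ) := (q.divisors ×ˢ q.divisors).filter (fun d => d.1 * d.2 ∣ q) with hD
  have hsub : (univ.filter (fun x : ZMod q × ZMod q × ZMod q => x.1 * x.2.1 * x.2.2 = 0)) ⊆
      D.biUnion (fun d => F d.1 ×ˢ (F d.2 ×ˢ F (q / (d.1 * d.2)))) := by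
    intro x hx
    rw [mem_filter] at hx
    have h1 : q ∣ x.1.val * x.2.1.val * x.2.2.val := by
      rw [← ZMod.natCast_eq_zero_iff]
      push_cast
      rw [ZMod.natCast_zmod_val, ZMod.natCast_zmod_val, ZMod.natCast_zmod_val]
      exact hx.2
    rw [mul_assoc] at h1
    have h2 := kla_dvd hq h1
    set d1 := Nat.gcd x.1.val q with hd1
    have hd1q : d1 ∣ q := Nat.gcd_dvd_right _ _
    have hd10 : 0 < d1 := Nat.gcd_pos_of_pos_right _ hq
    have hn1 : 0 < q / d1 := Nat.div_pos (Nat.le_of_dvd hq hd1q) hd10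
    have h3 := kla_dvd hn1 h2
    set d2 := Nat.gcd x.2.1.val (q / d1) with hd2
    have hd2q : d2 ∣ q / d1 := Nat.gcd_dvd_right _ _
    have hmul : d1 * d2 ∣ q := by
      obtain ⟨k, hk⟩ := hd2q
      refine ⟨k, ?_⟩
      rw [mul_assoc, ← hk, Nat.mul_div_cancel' hd1q]
    rw [mem_biUnion]
    refine ⟨(d1, d2), ?_, ?_⟩
    · rw [hD, mem_filter, mem_product]
      refine ⟨⟨Nat.mem_divisors.2 ⟨hd1q, hq.ne'⟩, Nat.mem_divisors.2 ⟨?_, hq.ne'⟩⟩, hmul⟩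
      exact hd2q.trans (Nat.div_dvd_of_dvd hd1q)
    · rw [mem_product, mem_product]
      refine ⟨?_, ?_, ?_⟩
      · rw [hF, mem_filter]
        exact ⟨mem_univ _, Nat.gcd_dvd_left _ _⟩
      · rw [hF, mem_filter]
        exact ⟨mem_univ _, Nat.gcd_dvd_left _ _⟩
      · rw [hF, mem_filter]
        refine ⟨mem_univ _, ?_⟩
        show q / (d1 * d2) ∣ x.2.2.val
        rw [← Nat.div_div_eq_div_mul]
        exact h3
  refine (Finset.card_le_card hsub).trans ?_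
  refine Finset.card_biUnion_le.trans ?_
  have hterm : ∀ d ∈ D, (F d.1 ×ˢ (F d.2 ×ˢ F (q / (d.1 * d.2)))).card ≤ q ^ 2 := by
    intro d hd
    rw [hD, mem_filter, mem_product] at hd
    obtain ⟨⟨h1, h2⟩, h3⟩ := hd
    have h1' := Nat.dvd_of_mem_divisors h1
    have h2' := Nat.dvd_of_mem_divisors h2
    have h3' : q / (d.1 * d.2) ∣ q := Nat.div_dvd_of_dvd h3
    rw [card_product, card_product]
    have e3 : q / (q / (d.1 * d.2)) = d.1 * d.2 := Nat.div_div_self h3 hq.ne'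
    calc (F d.1).card * ((F d.2).card * (F (q / (d.1 * d.2))).card)
        ≤ (q / d.1) * ((q / d.2) * (q / (q / (d.1 * d.2)))) :=
          Nat.mul_le_mul (kla_mult q _ h1') (Nat.mul_le_mul (kla_mult q _ h2') (kla_mult q _ h3'))
      _ = ((q / d.1) * d.1) * ((q / d.2) * d.2) := by rw [e3]; ring
      _ = q ^ 2 := by rw [Nat.div_mul_cancel h1', Nat.div_mul_cancel h2']; ring
  calc ∑ d ∈ D, (F d.1 ×ˢ (F d.2 ×ˢ F (q / (d.1 * d.2)))).card ≤ ∑ d ∈ D, q ^ 2 :=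
        Finset.sum_le_sum hterm
    _ = D.card * q ^ 2 := by rw [sum_const, smul_eq_mul]
    _ ≤ (tau q * tau q) * q ^ 2 := by
        apply Nat.mul_le_mul_right
        rw [hD]
        refine (Finset.card_filter_le _ _).trans ?_
        rw [card_product]
        exact le_rfl
    _ = q ^ 2 * tau q ^ 2 := by ring

private theorem kla_two (q : ℕ) [NeZero q] (c : ZMod q) (y : ZMod q) (hy : y + y = c) :
    y = ((c.val / 2 : ℕ) : ZMod q) ∨ y = (((c.val + q) / 2 : ℕ) : ZMod q) := by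
  have hq : 0 < q := Nat.pos_of_ne_zero (NeZero.ne q)
  have h1 : (y.val + y.val) % q = c.val := by
    rw [← hy, ZMod.val_add]
  have h2 : y.val < q := ZMod.val_lt y
  have h3 : ((y.val : ℕ) : ZMod q) = y := ZMod.natCast_zmod_val y
  by_cases h : y.val + y.val < q
  · left
    rw [Nat.mod_eq_of_lt h] at h1
    rw [← h3]
    congr 1
    omega
  · right
    have h4 : (y.val + y.val) % q = y.val + y.val - q := by
      rw [Nat.mod_eq_sub_mod (by omega), Nat.mod_eq_of_lt (by omega)]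
    rw [h4] at h1
    rw [← h3]
    congr 1
    omega

theorem kl_count (q : ℕ) [NeZero q] :
    (univ.filter (fun x : (ZMod q)ˣ × (ZMod q)ˣ × (ZMod q)ˣ × (ZMod q)ˣ =>
      ((x.1 : ZMod q) + x.2.1 = x.2.2.1 + x.2.2.2) ∧
      (((x.1⁻¹ : (ZMod q)ˣ) : ZMod q) + ((x.2.1⁻¹ : (ZMod q)ˣ) : ZMod q) =
        ((x.2.2.1⁻¹ : (ZMod q)ˣ) : ZMod q) + ((x.2.2.2⁻¹ : (ZMod q)ˣ) : ZMod q)))).card
      ≤ 2 * q ^ 2 * tau q ^ 2 := by
  classical
  set S := (univ.filter (fun x : (ZMod q)ˣ × (ZMod q)ˣ × (ZMod q)ˣ × (ZMod q)ˣ =>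
      ((x.1 : ZMod q) + x.2.1 = x.2.2.1 + x.2.2.2) ∧
      (((x.1⁻¹ : (ZMod q)ˣ) : ZMod q) + ((x.2.1⁻¹ : (ZMod q)ˣ) : ZMod q) =
        ((x.2.2.1⁻¹ : (ZMod q)ˣ) : ZMod q) + ((x.2.2.2⁻¹ : (ZMod q)ˣ) : ZMod q)))) with hS
  set f : (ZMod q)ˣ × (ZMod q)ˣ × (ZMod q)ˣ × (ZMod q)ˣ → ZMod q × ZMod q × ZMod q := fun x =>
    ((x.1 : ZMod q) + x.2.1, (x.2.2.1 : ZMod q) - x.1, (x.2.2.1 : ZMod q) - x.2.1) with hf
  have himg : S.image f ⊆ univ.filter (fun x : ZMod q × ZMod q × ZMod q => x.1 * x.2.1 * x.2.2 = 0) := by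
    intro z hz
    rw [mem_image] at hz
    obtain ⟨x, hx, rfl⟩ := hz
    rw [hS, mem_filter] at hx
    obtain ⟨_, h1, h2⟩ := hx
    rw [mem_filter]
    refine ⟨mem_univ _, ?_⟩
    simp only [hf]
    set a : ZMod q := (x.1 : ZMod q) with ha
    set b : ZMod q := (x.2.1 : ZMod q) with hb
    set c : ZMod q := (x.2.2.1 : ZMod q) with hc
    set d : ZMod q := (x.2.2.2 : ZMod q) with hd
    set a' : ZMod q := ((x.1⁻¹ : (ZMod q)ˣ) : ZMod q) with ha'
    set b' : ZMod q := ((x.2.1⁻¹ : (ZMod q)ˣ) : ZMod q) with hb'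
    set c' : ZMod q := ((x.2.2.1⁻¹ : (ZMod q)ˣ) : ZMod q) with hc'
    set d' : ZMod q := ((x.2.2.2⁻¹ : (ZMod q)ˣ) : ZMod q) with hd'
    have haa : a * a' = 1 := Units.mul_inv _
    have hbb : b * b' = 1 := Units.mul_inv _
    have hcc : c * c' = 1 := Units.mul_inv _
    have hdd : d * d' = 1 := Units.mul_inv _
    have e1 : a * b * c * d * (a' + b') = (a + b) * (c * d) := by
      calc a * b * c * d * (a' + b') = (a * a') * (b * c * d) + (b * b') * (a * c * d) := by ring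
        _ = (a + b) * (c * d) := by rw [haa, hbb]; ring
    have e2 : a * b * c * d * (c' + d') = (c + d) * (a * b) := by
      calc a * b * c * d * (c' + d') = (c * c') * (a * b * d) + (d * d') * (a * b * c) := by ring
        _ = (c + d) * (a * b) := by rw [hcc, hdd]; ring
    have e3 : (a + b) * (c * d) = (c + d) * (a * b) := by rw [← e1, ← e2, h2]
    have e4 : d = a + b - c := by rw [h1]; ring
    rw [← h1, e4] at e3
    linear_combination -e3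
  have hfib : ∀ z ∈ S.image f, (S.filter (fun x => f x = z)).card ≤ 2 := by
    intro z _
    -- the fibre is determined by the third coordinate
    set c := z.1 + z.2.1 + z.2.2 with hc
    have hsub : ((S.filter (fun x => f x = z)).image (fun x => (x.2.2.1 : ZMod q))) ⊆
        {((c.val / 2 : ℕ) : ZMod q), (((c.val + q) / 2 : ℕ) : ZMod q)} := by
      intro y hy
      rw [mem_image] at hy
      obtain ⟨x, hx, rfl⟩ := hy
      rw [mem_filter] at hx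
      obtain ⟨_, hx⟩ := hx
      rw [mem_insert, mem_singleton]
      apply kla_two
      rw [hc, ← hx]
      simp only [hf]
      ring
    have hinj : Set.InjOn (fun x : (ZMod q)ˣ × (ZMod q)ˣ × (ZMod q)ˣ × (ZMod q)ˣ =>
        (x.2.2.1 : ZMod q)) (S.filter (fun x => f x = z)) := by
      intro x hx y hy hxy
      rw [Finset.mem_coe, mem_filter] at hx hy
      have hxy' : (x.2.2.1 : ZMod q) = y.2.2.1 := hxy
      have hz : f x = f y := hx.2.trans hy.2.symm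
      simp only [hf, Prod.mk.injEq] at hz
      obtain ⟨z1, z2, z3⟩ := hz
      rw [hxy'] at z2 z3
      have g1 : (x.1 : ZMod q) = y.1 := by linear_combination -z2
      have g2 : (x.2.1 : ZMod q) = y.2.1 := by linear_combination -z3
      have hx1 := hx.1
      have hy1 := hy.1
      rw [hS, mem_filter] at hx1 hy1
      have g4 : (x.2.2.2 : ZMod q) = y.2.2.2 := by
        have k1 := hx1.2.1
        have k2 := hy1.2.1
        rw [g1, g2, hxy'] at k1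
        linear_combination k2 - k1
      refine Prod.ext (Units.ext g1) (Prod.ext (Units.ext g2) (Prod.ext (Units.ext hxy') (Units.ext g4)))
    calc (S.filter (fun x => f x = z)).card
        = ((S.filter (fun x => f x = z)).image (fun x => (x.2.2.1 : ZMod q))).card :=
          (Finset.card_image_of_injOn hinj).symm
      _ ≤ _ := Finset.card_le_card hsub
      _ ≤ 2 := Finset.card_le_two
  have h1 := Finset.card_le_mul_card_image S 2 hfib
  have h2 := Finset.card_le_card himg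
  have h3 := abc_count q
  calc S.card ≤ 2 * (S.image f).card := h1
    _ ≤ 2 * (q ^ 2 * tau q ^ 2) := Nat.mul_le_mul_left _ (h2.trans h3)
    _ = 2 * q ^ 2 * tau q ^ 2 := by ring

end Pool.Agent.H80.KF

end

section

/-!
# Kloosterman's bound (fourth moment), for every modulus

`∑_{a,b mod q} |S(a,b)|⁴ = q² N₄`, `N₄` the number counted in `kl_count` (expand, orthogonality in
`a` and `b`).  For a unit `u`: `S(a, b) = S(a ū, b u)` (substitute `x → u x`; here `a` multiplies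
the inverse).  The pairs `(a ū, b u)` take at least `φ(q)/(a,q)` different values mod `q`: already
`a ū` does, since `a ū = a v̄` iff `ū ≡ v̄ mod q/(a,q)` and a class mod `q/(a,q)` contains
`(a,q)` residues mod `q`.  Hence `|S(a,b)|⁴ φ(q) ≤ (a,q) q² N₄ ≤ 2 (a,q) q⁴ τ(q)²`, and
`q ≤ φ(q) τ(q)` (`q/φ(q) = ∏ p/(p-1) ≤ 2^{ω(q)} ≤ τ(q)`).
-/

set_option autoImplicit false

namespace Pool.Agent.H80.KF

open Finset

/-- the Kloosterman sum over the units of `ZMod q` -/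
private noncomputable def klB_T (q : ℕ) [NeZero q] (A B : ZMod q) : ℂ :=
  ∑ u : (ZMod q)ˣ, ZMod.stdAddChar (A * ((u⁻¹ : (ZMod q)ˣ) : ZMod q) + B * (u : ZMod q))

private theorem klB_char (q : ℕ) [NeZero q] (j : ℤ) :
    ZMod.stdAddChar (j : ZMod q) = ee ((j : ℝ) / q) := by
  rw [ZMod.stdAddChar_coe, ee]
  congr 1
  push_cast
  ring

private theorem klB_T_eq (q : ℕ) [NeZero q] (a b : ℤ) :
    klS q a b = klB_T q (a : ZMod q) (b : ZMod q) := by
  unfold klS klB_T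
  refine Finset.sum_bij' (fun x hx => ZMod.unitOfCoprime x (mem_filter.mp hx).2)
    (fun u _ => (u : ZMod q).val) (fun _ _ => mem_univ _) ?_ ?_ ?_ ?_
  · intro u _
    rw [mem_filter, mem_range]
    exact ⟨ZMod.val_lt _, ZMod.val_coe_unit_coprime u⟩
  · intro x hx
    rw [mem_filter, mem_range] at hx
    simp only [ZMod.coe_unitOfCoprime]
    exact ZMod.val_cast_of_lt hx.1
  · intro u _
    apply Units.ext
    simp only [ZMod.coe_unitOfCoprime]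
    exact ZMod.natCast_zmod_val _
  · intro x hx
    simp only [ZMod.coe_unitOfCoprime, ← ZMod.inv_coe_unit]
    have h1 : (a : ZMod q) * ((x : ℕ) : ZMod q)⁻¹ + (b : ZMod q) * (x : ZMod q) =
        ((a * (iv q x : ℤ) + b * (x : ℤ) : ℤ) : ZMod q) := by
      unfold iv
      push_cast
      rw [ZMod.natCast_zmod_val]
    rw [h1, klB_char, kf, ← ee_add]
    congr 1
    push_cast
    ring

private theorem klB_T_inv (q : ℕ) [NeZero q] (A B : ZMod q) (v : (ZMod q)ˣ) :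
    klB_T q (A * ((v⁻¹ : (ZMod q)ˣ) : ZMod q)) (B * (v : ZMod q)) = klB_T q A B := by
  unfold klB_T
  rw [← Equiv.sum_comp (Equiv.mulLeft v)
    (fun u : (ZMod q)ˣ => ZMod.stdAddChar (A * ((u⁻¹ : (ZMod q)ˣ) : ZMod q) + B * (u : ZMod q)))]
  refine Finset.sum_congr rfl fun u _ => ?_
  simp only [Equiv.coe_mulLeft, mul_inv_rev, Units.val_mul]
  congr 1
  ring

private theorem klB_four {ι : Type*} [Fintype ι] (f g : ι → ℂ) :
    (∑ i, f i) * ((∑ i, f i) * ((∑ i, g i) * (∑ i, g i))) =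
      ∑ x : ι × ι × ι × ι, f x.1 * (f x.2.1 * (g x.2.2.1 * g x.2.2.2)) := by
  simp_rw [Fintype.sum_prod_type, ← Finset.mul_sum, ← Finset.sum_mul]

private theorem klB_norm (q : ℕ) [NeZero q] (A B : ZMod q) :
    ((‖klB_T q A B‖ ^ 4 : ℝ) : ℂ) =
      ∑ x : (ZMod q)ˣ × (ZMod q)ˣ × (ZMod q)ˣ × (ZMod q)ˣ,
        ZMod.stdAddChar (A * ((((x.1⁻¹ : (ZMod q)ˣ) : ZMod q) + ((x.2.1⁻¹ : (ZMod q)ˣ) : ZMod q)) -
          (((x.2.2.1⁻¹ : (ZMod q)ˣ) : ZMod q) + ((x.2.2.2⁻¹ : (ZMod q)ˣ) : ZMod q)))) *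
        ZMod.stdAddChar (B * (((x.1 : ZMod q) + (x.2.1 : ZMod q)) -
          ((x.2.2.1 : ZMod q) + (x.2.2.2 : ZMod q)))) := by
  have h1 : ((‖klB_T q A B‖ ^ 4 : ℝ) : ℂ) = klB_T q A B * (klB_T q A B *
      ((starRingEnd ℂ) (klB_T q A B) * (starRingEnd ℂ) (klB_T q A B))) := by
    have h2 := Complex.mul_conj' (klB_T q A B)
    have h3 : klB_T q A B * (klB_T q A B *
      ((starRingEnd ℂ) (klB_T q A B) * (starRingEnd ℂ) (klB_T q A B))) =
      (klB_T q A B * (starRingEnd ℂ) (klB_T q A B)) ^ 2 := by ring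
    rw [h3, h2]
    push_cast
    ring
  have h4 : (starRingEnd ℂ) (klB_T q A B) = ∑ u : (ZMod q)ˣ,
      ZMod.stdAddChar (-(A * ((u⁻¹ : (ZMod q)ˣ) : ZMod q) + B * (u : ZMod q))) := by
    unfold klB_T
    rw [map_sum]
    refine Finset.sum_congr rfl fun u _ => ?_
    rw [AddChar.map_neg_eq_conj]
  rw [h1, h4]
  unfold klB_T
  rw [klB_four]
  refine Finset.sum_congr rfl fun x _ => ?_
  rw [← AddChar.map_add_eq_mul, ← AddChar.map_add_eq_mul, ← AddChar.map_add_eq_mul,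
    ← AddChar.map_add_eq_mul]
  congr 1
  ring

private theorem klB_moment (q : ℕ) [NeZero q] :
    ∑ x : ZMod q × ZMod q, ‖klB_T q x.1 x.2‖ ^ 4 ≤ 2 * (q : ℝ) ^ 4 * (tau q : ℝ) ^ 2 := by
  classical
  have hc : ((∑ x : ZMod q × ZMod q, ‖klB_T q x.1 x.2‖ ^ 4 : ℝ) : ℂ) =
      (((q : ℝ) ^ 2 * ((univ.filter (fun x : (ZMod q)ˣ × (ZMod q)ˣ × (ZMod q)ˣ × (ZMod q)ˣ =>
      ((x.1 : ZMod q) + x.2.1 = x.2.2.1 + x.2.2.2) ∧
      (((x.1⁻¹ : (ZMod q)ˣ) : ZMod q) + ((x.2.1⁻¹ : (ZMod q)ˣ) : ZMod q) =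
        ((x.2.2.1⁻¹ : (ZMod q)ˣ) : ZMod q) + ((x.2.2.2⁻¹ : (ZMod q)ˣ) : ZMod q)))).card : ℝ) : ℝ) :
        ℂ) := by
    rw [Complex.ofReal_sum]
    simp_rw [klB_norm]
    rw [Finset.sum_comm]
    have hs : ∀ x : (ZMod q)ˣ × (ZMod q)ˣ × (ZMod q)ˣ × (ZMod q)ˣ,
        ∑ y : ZMod q × ZMod q, ZMod.stdAddChar (y.1 *
          ((((x.1⁻¹ : (ZMod q)ˣ) : ZMod q) + ((x.2.1⁻¹ : (ZMod q)ˣ) : ZMod q)) -
          (((x.2.2.1⁻¹ : (ZMod q)ˣ) : ZMod q) + ((x.2.2.2⁻¹ : (ZMod q)ˣ) : ZMod q)))) *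
        ZMod.stdAddChar (y.2 * (((x.1 : ZMod q) + (x.2.1 : ZMod q)) -
          ((x.2.2.1 : ZMod q) + (x.2.2.2 : ZMod q)))) =
        if ((x.1 : ZMod q) + x.2.1 = x.2.2.1 + x.2.2.2) ∧
      (((x.1⁻¹ : (ZMod q)ˣ) : ZMod q) + ((x.2.1⁻¹ : (ZMod q)ˣ) : ZMod q) =
        ((x.2.2.1⁻¹ : (ZMod q)ˣ) : ZMod q) + ((x.2.2.2⁻¹ : (ZMod q)ˣ) : ZMod q)) then
          (q : ℂ) ^ 2 else 0 := by
      intro x
      rw [Fintype.sum_prod_type]
      simp_rw [← Finset.mul_sum, ← Finset.sum_mul]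
      rw [AddChar.sum_mulShift _ (ZMod.isPrimitive_stdAddChar q),
        AddChar.sum_mulShift _ (ZMod.isPrimitive_stdAddChar q), ZMod.card]
      by_cases h1 : ((x.1⁻¹ : (ZMod q)ˣ) : ZMod q) + ((x.2.1⁻¹ : (ZMod q)ˣ) : ZMod q) =
        ((x.2.2.1⁻¹ : (ZMod q)ˣ) : ZMod q) + ((x.2.2.2⁻¹ : (ZMod q)ˣ) : ZMod q)
      · by_cases h2 : (x.1 : ZMod q) + x.2.1 = x.2.2.1 + x.2.2.2
        · rw [if_pos (sub_eq_zero.mpr h1), if_pos (sub_eq_zero.mpr h2), if_pos ⟨h2, h1⟩]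
          ring
        · simp [sub_eq_zero, h1, h2]
      · simp [sub_eq_zero, h1]
    rw [Finset.sum_congr rfl fun x _ => hs x, ← Finset.sum_filter, Finset.sum_const, nsmul_eq_mul]
    push_cast
    ring
  have hr := Complex.ofReal_injective hc
  rw [hr]
  have hcount : (((univ.filter (fun x : (ZMod q)ˣ × (ZMod q)ˣ × (ZMod q)ˣ × (ZMod q)ˣ =>
      ((x.1 : ZMod q) + x.2.1 = x.2.2.1 + x.2.2.2) ∧
      (((x.1⁻¹ : (ZMod q)ˣ) : ZMod q) + ((x.2.1⁻¹ : (ZMod q)ˣ) : ZMod q) =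
        ((x.2.2.1⁻¹ : (ZMod q)ˣ) : ZMod q) + ((x.2.2.2⁻¹ : (ZMod q)ˣ) : ZMod q)))).card : ℕ) : ℝ) ≤
        2 * (q : ℝ) ^ 2 * (tau q : ℝ) ^ 2 := by
    have h1 := kl_count q
    have h2 : ∀ m : ℕ, m ≤ 2 * q ^ 2 * tau q ^ 2 → (m : ℝ) ≤ 2 * (q : ℝ) ^ 2 * (tau q : ℝ) ^ 2 := by
      intro m hm
      exact_mod_cast hm
    apply h2
    convert h1 using 2
  have hq0 : (0 : ℝ) ≤ (q : ℝ) ^ 2 := by positivity
  calc _ ≤ (q : ℝ) ^ 2 * (2 * (q : ℝ) ^ 2 * (tau q : ℝ) ^ 2) := mul_le_mul_of_nonneg_left hcount hq0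
    _ = _ := by ring

/-- the number of solutions of `a z = 0` modulo `q` -/
private theorem klB_ker (q : ℕ) [NeZero q] (a : ℤ) :
    (univ.filter (fun z : ZMod q => (a : ZMod q) * z = 0)).card ≤ Int.gcd a q := by
  have hq : 0 < q := Nat.pos_of_ne_zero (NeZero.ne q)
  obtain ⟨m', q', hco, hm, hq'⟩ := Nat.exists_coprime a.natAbs q
  have hg : Int.gcd a q = Nat.gcd a.natAbs q := by
    rw [Int.gcd_eq_natAbs, Int.natAbs_natCast]
  rw [hg]
  set g := Nat.gcd a.natAbs q with hgdef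
  have hg0 : 0 < g := Nat.gcd_pos_of_pos_right _ hq
  have hq'0 : 0 < q' := by
    rcases Nat.eq_zero_or_pos q' with h | h
    · rw [h, zero_mul] at hq'; omega
    · exact h
  have hdvd : ∀ z : ZMod q, (a : ZMod q) * z = 0 → q' ∣ z.val := by
    intro z hz
    have h1 : ((a * (z.val : ℤ) : ℤ) : ZMod q) = 0 := by
      push_cast
      rw [ZMod.natCast_zmod_val]
      exact hz
    rw [ZMod.intCast_zmod_eq_zero_iff_dvd] at h1
    have h2 : q ∣ a.natAbs * z.val := by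
      have h3 := Int.natAbs_dvd_natAbs.mpr h1
      rwa [Int.natAbs_mul, Int.natAbs_natCast, Int.natAbs_natCast] at h3
    have h4 : q' * g ∣ (m' * z.val) * g := by
      have e1 : a.natAbs * z.val = m' * z.val * g := by
        rw [hm]; ring
      rw [e1] at h2
      rw [← hq']
      exact h2
    have h5 : q' ∣ m' * z.val := Nat.dvd_of_mul_dvd_mul_right hg0 h4
    exact hco.symm.dvd_of_dvd_mul_left h5
  calc (univ.filter (fun z : ZMod q => (a : ZMod q) * z = 0)).card ≤ (range g).card := by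
        apply Finset.card_le_card_of_injOn (fun z : ZMod q => z.val / q')
        · intro z hz
          rw [Finset.mem_coe, mem_filter] at hz
          rw [Finset.mem_coe, mem_range]
          apply Nat.div_lt_of_lt_mul
          have := ZMod.val_lt z
          omega
        · intro z hz w hw hzw
          rw [Finset.mem_coe, mem_filter] at hz hw
          have h1 := hdvd z hz.2
          have h2 := hdvd w hw.2
          have h3 : z.val / q' = w.val / q' := hzw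
          have h4 : z.val = w.val := by
            rw [← Nat.div_mul_cancel h1, ← Nat.div_mul_cancel h2, h3]
          exact ZMod.val_injective q h4
    _ = g := card_range g

/-- `n ≤ φ(n) τ(n)` -/
private theorem klB_phi (n : ℕ) : n ≤ Nat.totient n * tau n := by
  induction n using Nat.recOnPosPrimePosCoprime with
  | prime_pow p n hp hn =>
    obtain ⟨k, rfl⟩ : ∃ k, n = k + 1 := ⟨n - 1, by omega⟩
    rw [Nat.totient_prime_pow_succ hp, tau, Nat.divisors_prime_pow hp, card_map, card_range,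
      pow_succ]
    have h2 := hp.two_le
    have h3 : p ≤ (p - 1) * (k + 1 + 1) := by
      obtain ⟨r, rfl⟩ : ∃ r, p = r + 2 := ⟨p - 2, by omega⟩
      have e1 : r + 2 - 1 = r + 1 := by omega
      rw [e1]
      nlinarith
    calc p ^ k * p ≤ p ^ k * ((p - 1) * (k + 1 + 1)) := Nat.mul_le_mul_left _ h3
      _ = _ := by ring
  | zero => simp
  | one => simp [tau]
  | coprime a b _ _ hab ha hb =>
    rw [Nat.totient_mul hab, tau, Nat.Coprime.card_divisors_mul hab]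
    unfold tau at ha hb
    calc a * b ≤ (Nat.totient a * a.divisors.card) * (Nat.totient b * b.divisors.card) :=
          Nat.mul_le_mul ha hb
      _ = _ := by ring

theorem klS_le (q : ℕ) (hq : 1 ≤ q) (a b : ℤ) :
    ‖klS q a b‖ ^ 4 ≤ 2 * (Int.gcd a q : ℝ) * (q : ℝ) ^ 3 * (tau q : ℝ) ^ 3 := by
  classical
  have : NeZero q := ⟨by omega⟩
  rw [klB_T_eq]
  have hq0 : (0 : ℝ) < q := by exact_mod_cast hq
  -- the orbit
  set h : (ZMod q)ˣ → ZMod q × ZMod q := fun u =>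
    ((a : ZMod q) * ((u⁻¹ : (ZMod q)ˣ) : ZMod q), (b : ZMod q) * (u : ZMod q)) with hh
  have hinv : ∀ u : (ZMod q)ˣ, ‖klB_T q (h u).1 (h u).2‖ ^ 4 =
      ‖klB_T q (a : ZMod q) (b : ZMod q)‖ ^ 4 := by
    intro u
    rw [hh]
    simp only
    rw [klB_T_inv]
  have hfib : ∀ x : ZMod q × ZMod q, ((univ.filter (fun u : (ZMod q)ˣ => h u = x)).card : ℝ) ≤
      (Int.gcd a q : ℝ) := by
    intro x
    have hnat : (univ.filter (fun u : (ZMod q)ˣ => h u = x)).card ≤ Int.gcd a q := by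
      rcases (univ.filter (fun u : (ZMod q)ˣ => h u = x)).eq_empty_or_nonempty with he | ⟨u0, hu0⟩
      · rw [he, card_empty]
        exact Nat.zero_le _
      · refine le_trans ?_ (klB_ker q a)
        apply Finset.card_le_card_of_injOn
          (fun u : (ZMod q)ˣ => ((u⁻¹ : (ZMod q)ˣ) : ZMod q) - ((u0⁻¹ : (ZMod q)ˣ) : ZMod q))
        · intro u hu
          rw [Finset.mem_coe, mem_filter] at hu
          rw [mem_filter] at hu0
          rw [Finset.mem_coe, mem_filter]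
          refine ⟨mem_univ _, ?_⟩
          have e1 : (a : ZMod q) * ((u⁻¹ : (ZMod q)ˣ) : ZMod q) =
              (a : ZMod q) * ((u0⁻¹ : (ZMod q)ˣ) : ZMod q) :=
            congrArg Prod.fst (hu.2.trans hu0.2.symm)
          rw [mul_sub, e1, sub_self]
        · intro u _ v _ huv
          have e1 : ((u⁻¹ : (ZMod q)ˣ) : ZMod q) = ((v⁻¹ : (ZMod q)ˣ) : ZMod q) :=
            sub_left_injective huv
          have e2 := Units.ext e1
          exact inv_injective e2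
    exact_mod_cast hnat
  have hsum : (Nat.totient q : ℝ) * ‖klB_T q (a : ZMod q) (b : ZMod q)‖ ^ 4 ≤
      (Int.gcd a q : ℝ) * (2 * (q : ℝ) ^ 4 * (tau q : ℝ) ^ 2) := by
    have e1 : (Nat.totient q : ℝ) * ‖klB_T q (a : ZMod q) (b : ZMod q)‖ ^ 4 =
        ∑ u : (ZMod q)ˣ, ‖klB_T q (h u).1 (h u).2‖ ^ 4 := by
      rw [Finset.sum_congr rfl fun u _ => hinv u, Finset.sum_const, Finset.card_univ,
        ZMod.card_units_eq_totient, nsmul_eq_mul]
    rw [e1, ← Finset.sum_fiberwise univ h]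
    calc _ ≤ ∑ x : ZMod q × ZMod q, (Int.gcd a q : ℝ) * ‖klB_T q x.1 x.2‖ ^ 4 := by
          refine Finset.sum_le_sum fun x _ => ?_
          have e2 : ∑ u ∈ univ.filter (fun u : (ZMod q)ˣ => h u = x),
              ‖klB_T q (h u).1 (h u).2‖ ^ 4 =
              ((univ.filter (fun u : (ZMod q)ˣ => h u = x)).card : ℝ) *
                ‖klB_T q x.1 x.2‖ ^ 4 := by
            rw [← nsmul_eq_mul, ← Finset.sum_const]
            refine Finset.sum_congr rfl fun u hu => ?_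
            rw [mem_filter] at hu
            rw [hu.2]
          rw [e2]
          exact mul_le_mul_of_nonneg_right (hfib x) (by positivity)
      _ = (Int.gcd a q : ℝ) * ∑ x : ZMod q × ZMod q, ‖klB_T q x.1 x.2‖ ^ 4 := by
          rw [Finset.mul_sum]
      _ ≤ _ := mul_le_mul_of_nonneg_left (klB_moment q) (by positivity)
  have hphi : (q : ℝ) ≤ (Nat.totient q : ℝ) * (tau q : ℝ) := by
    exact_mod_cast klB_phi q
  have hT0 : 0 ≤ ‖klB_T q (a : ZMod q) (b : ZMod q)‖ ^ 4 := by positivity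
  have htau : (0 : ℝ) ≤ (tau q : ℝ) := by positivity
  have h1 : (q : ℝ) * ‖klB_T q (a : ZMod q) (b : ZMod q)‖ ^ 4 ≤
      (q : ℝ) * (2 * (Int.gcd a q : ℝ) * (q : ℝ) ^ 3 * (tau q : ℝ) ^ 3) := by
    calc (q : ℝ) * ‖klB_T q (a : ZMod q) (b : ZMod q)‖ ^ 4 ≤
        ((Nat.totient q : ℝ) * (tau q : ℝ)) * ‖klB_T q (a : ZMod q) (b : ZMod q)‖ ^ 4 :=
          mul_le_mul_of_nonneg_right hphi hT0
      _ = (tau q : ℝ) * ((Nat.totient q : ℝ) * ‖klB_T q (a : ZMod q) (b : ZMod q)‖ ^ 4) := by ring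
      _ ≤ (tau q : ℝ) * ((Int.gcd a q : ℝ) * (2 * (q : ℝ) ^ 4 * (tau q : ℝ) ^ 2)) :=
          mul_le_mul_of_nonneg_left hsum htau
      _ = _ := by ring
  exact le_of_mul_le_mul_left h1 hq0

end Pool.Agent.H80.KF

end

section

/-!
# Incomplete Kloosterman sums along a progression

Let `B = (2 (a,q) q³ τ(q)³)^{1/4}`, so `|S(a,b;q)| ≤ B` for all `b`.  The values `ρ + M t`,
`t < T`, `(M,q) = 1`: cut `[0,T)` into `⌊T/q⌋` complete periods, each giving `S(a,0;q)`, and a rest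
of length `T' < q`.  With `f(y) = 1_{(y,q)=1} e(a ȳ/q)` and
`f(y) = (1/q) ∑_{b mod q} S(a,-b;q) e(b y/q)` the rest is at most
`B (1/q) ∑_{b mod q} |∑_{t < T'} e(b M t/q)| ≤ B (1/q)(T' + ∑_{b=1}^{q-1} 1/(2‖b/q‖))`
`≤ B (2 + log q)` (`b M` runs over all classes; geometric sums, `|sin π t| ≥ 2‖t‖`).
-/

set_option autoImplicit false

namespace Pool.Agent.H80.KF

open Finset

private theorem klc_ee_nat_mul (n : ℕ) (t : ℝ) : ee ((n : ℝ) * t) = ee t ^ n := by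
  unfold ee
  rw [← Complex.exp_nat_mul]
  congr 1
  push_cast
  ring

private theorem klc_ee_eq_one {t : ℝ} (h : ee t = 1) : ∃ n : ℤ, t = n := by
  unfold ee at h
  obtain ⟨n, hn⟩ := Complex.exp_eq_one_iff.1 h
  refine ⟨n, ?_⟩
  have h2 : (2 * (Real.pi : ℂ) * Complex.I) ≠ 0 := by
    simp [Real.pi_ne_zero, Complex.I_ne_zero]
  have h3 : (2 * (Real.pi : ℂ) * Complex.I) * ((t : ℂ) - n) = 0 := by
    linear_combination hn
  have h4 : (t : ℂ) - n = 0 := (mul_eq_zero.1 h3).resolve_left h2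
  have h5 : (t : ℂ) = ((n : ℝ) : ℂ) := by
    rw [sub_eq_zero.1 h4]
    push_cast
    rfl
  exact_mod_cast h5

private theorem klc_orth (q : ℕ) (hq : 1 ≤ q) (k : ℤ) :
    ∑ b ∈ range q, ee ((b : ℝ) * k / q) = if (q : ℤ) ∣ k then (q : ℂ) else 0 := by
  have hq0 : (q : ℝ) ≠ 0 := by positivity
  have h1 : ∀ b ∈ range q, ee ((b : ℝ) * k / q) = ee ((k : ℝ) / q) ^ b := by
    intro b _
    rw [← klc_ee_nat_mul]
    congr 1
    ring
  rw [Finset.sum_congr rfl h1]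
  split_ifs with hk
  · obtain ⟨m, rfl⟩ := hk
    have : ee ((((q : ℤ) * m : ℤ) : ℝ) / q) = 1 := by
      have h2 : ((((q : ℤ) * m : ℤ) : ℝ) / q) = (m : ℝ) := by
        push_cast
        field_simp
      rw [h2, ee_int]
    rw [this]
    simp
  · have hne : ee ((k : ℝ) / q) ≠ 1 := by
      intro h
      obtain ⟨n, hn⟩ := klc_ee_eq_one h
      apply hk
      refine ⟨n, ?_⟩
      rw [div_eq_iff hq0] at hn
      have : (k : ℝ) = ((q * n : ℤ) : ℝ) := by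
        push_cast
        rw [hn]
        ring
      exact_mod_cast this
    have hpow : ee ((k : ℝ) / q) ^ q = 1 := by
      rw [← klc_ee_nat_mul]
      have : (q : ℝ) * ((k : ℝ) / q) = (k : ℝ) := by field_simp
      rw [this, ee_int]
    rw [geom_sum_eq hne, hpow]
    simp

/-- the function with period `q` to be summed -/
private noncomputable def klg (q : ℕ) (a : ℤ) (y : ℕ) : ℂ :=
  if Nat.Coprime y q then kf q a y else 0

private theorem klg_congr {q : ℕ} (hq : 1 ≤ q) (a : ℤ) {y y' : ℕ} (h : y ≡ y' [MOD q]) :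
    klg q a y = klg q a y' := by
  unfold klg
  have h1 : Nat.Coprime y q ↔ Nat.Coprime y' q := by
    unfold Nat.Coprime
    rw [h.gcd_eq]
  by_cases hc : Nat.Coprime y q
  · rw [if_pos hc, if_pos (h1.1 hc)]
    exact kf_congr hq (by simp) h
  · rw [if_neg hc, if_neg (fun h' => hc (h1.2 h'))]

private theorem klS_eq (q : ℕ) (a b : ℤ) :
    klS q a b = ∑ x ∈ range q, ee ((b : ℝ) * x / q) * klg q a x := by
  unfold klS klg
  rw [Finset.sum_filter]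
  apply Finset.sum_congr rfl
  intro x _
  split_ifs <;> simp

private theorem klg_fourier {q : ℕ} (hq : 1 ≤ q) (a : ℤ) (y : ℕ) :
    ∑ b ∈ range q, klS q a (-(b : ℤ)) * ee ((b : ℝ) * y / q) = (q : ℂ) * klg q a y := by
  have hq0 : (q : ℝ) ≠ 0 := by positivity
  have h1 : ∀ b ∈ range q, klS q a (-(b : ℤ)) * ee ((b : ℝ) * y / q) =
      ∑ x ∈ range q, klg q a x * ee ((b : ℝ) * (((y : ℤ) - x : ℤ) : ℝ) / q) := by
    intro b _
    rw [klS_eq, Finset.sum_mul]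
    apply Finset.sum_congr rfl
    intro x _
    have : ee ((b : ℝ) * (((y : ℤ) - x : ℤ) : ℝ) / q) =
        ee (((-(b : ℤ) : ℤ) : ℝ) * x / q) * ee ((b : ℝ) * y / q) := by
      rw [← ee_add]
      congr 1
      push_cast
      ring
    rw [this]
    ring
  rw [Finset.sum_congr rfl h1, Finset.sum_comm]
  have h2 : ∀ x ∈ range q, ∑ b ∈ range q,
      klg q a x * ee ((b : ℝ) * (((y : ℤ) - x : ℤ) : ℝ) / q) =
      klg q a x * (if (q : ℤ) ∣ ((y : ℤ) - x) then (q : ℂ) else 0) := by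
    intro x _
    rw [← Finset.mul_sum, klc_orth q hq]
  rw [Finset.sum_congr rfl h2, Finset.sum_eq_single (y % q)]
  · have hd : (q : ℤ) ∣ ((y : ℤ) - ((y % q : ℕ) : ℤ)) := by
      rw [Int.natCast_mod]
      exact Int.dvd_self_sub_emod
    rw [if_pos hd, klg_congr hq a (Nat.mod_modEq y q), mul_comm]
  · intro x hx hne
    rw [if_neg, mul_zero]
    intro hd
    apply hne
    have h3 : x ≡ y [MOD q] := by
      rw [Nat.modEq_iff_dvd]
      exact hd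
    have h4 : x % q = y % q := h3
    rw [Nat.mod_eq_of_lt (Finset.mem_range.1 hx)] at h4
    exact h4
  · intro hx
    exact absurd (Finset.mem_range.2 (Nat.mod_lt _ (by omega))) hx

private theorem klc_sin {x : ℝ} (h0 : 0 < x) (h1 : x < 1) :
    1 / Real.sin (Real.pi * x) ≤ (1 / 2) * (1 / x + 1 / (1 - x)) := by
  have hpi := Real.pi_pos
  have h1x : 0 < 1 - x := by linarith
  by_cases hx : x ≤ 1 / 2
  · have hs : 2 * x ≤ Real.sin (Real.pi * x) := by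
      have := Real.mul_le_sin (x := Real.pi * x) (by positivity) (by nlinarith)
      calc 2 * x = 2 / Real.pi * (Real.pi * x) := by field_simp
        _ ≤ _ := this
    calc 1 / Real.sin (Real.pi * x) ≤ 1 / (2 * x) :=
          one_div_le_one_div_of_le (by positivity) hs
      _ = (1 / 2) * (1 / x) := by field_simp
      _ ≤ _ := by
          have : 0 < 1 / (1 - x) := by positivity
          linarith
  · push Not at hx
    have hs : 2 * (1 - x) ≤ Real.sin (Real.pi * x) := by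
      have := Real.mul_le_sin (x := Real.pi * (1 - x)) (by positivity) (by nlinarith)
      have h3 : Real.sin (Real.pi * (1 - x)) = Real.sin (Real.pi * x) := by
        rw [← Real.sin_pi_sub]
        congr 1
        ring
      calc 2 * (1 - x) = 2 / Real.pi * (Real.pi * (1 - x)) := by field_simp
        _ ≤ _ := this
        _ = _ := h3
    calc 1 / Real.sin (Real.pi * x) ≤ 1 / (2 * (1 - x)) :=
          one_div_le_one_div_of_le (by positivity) hs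
      _ = (1 / 2) * (1 / (1 - x)) := by field_simp
      _ ≤ _ := by
          have : 0 < 1 / x := by positivity
          linarith

private theorem klc_geom {x : ℝ} (h0 : 0 < x) (h1 : x < 1) (T : ℕ) :
    ‖∑ t ∈ range T, ee x ^ t‖ ≤ (1 / 2) * (1 / x + 1 / (1 - x)) := by
  have hpi := Real.pi_pos
  have hsin : 0 < Real.sin (Real.pi * x) := by
    apply Real.sin_pos_of_pos_of_lt_pi (by positivity)
    nlinarith
  have hnorm : ‖ee x - 1‖ = 2 * Real.sin (Real.pi * x) := by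
    have h2 : ee x = Complex.exp (Complex.I * ((2 * Real.pi * x : ℝ) : ℂ)) := by
      unfold ee
      congr 1
      push_cast
      ring
    rw [h2, Complex.norm_exp_I_mul_ofReal_sub_one, Real.norm_eq_abs]
    have h3 : 2 * Real.pi * x / 2 = Real.pi * x := by ring
    rw [h3, abs_of_pos (by positivity)]
  have hne : ee x ≠ 1 := by
    intro h
    rw [h] at hnorm
    simp at hnorm
    exact hsin.ne' hnorm
  rw [geom_sum_eq hne, norm_div, hnorm]
  have hn2 : ‖ee x ^ T - 1‖ ≤ 2 := by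
    calc ‖ee x ^ T - 1‖ ≤ ‖ee x ^ T‖ + ‖(1 : ℂ)‖ := norm_sub_le _ _
      _ = 2 := by
          rw [norm_pow, norm_ee]
          norm_num
  calc ‖ee x ^ T - 1‖ / (2 * Real.sin (Real.pi * x)) ≤ 2 / (2 * Real.sin (Real.pi * x)) := by
        gcongr
    _ = 1 / Real.sin (Real.pi * x) := by
        field_simp
    _ ≤ _ := klc_sin h0 h1

private theorem klc_perm {q M : ℕ} (hM : Nat.Coprime M q) (h : ℕ → ℝ) :
    ∑ b ∈ Ico 1 q, h (b * M % q) = ∑ b ∈ Ico 1 q, h b := by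
  have hinj : Set.InjOn (fun b => b * M % q) (Ico 1 q : Finset ℕ) := by
    intro b hb b' hb' hbb
    have hb1 := Finset.mem_Ico.1 (Finset.mem_coe.1 hb)
    have hb2 := Finset.mem_Ico.1 (Finset.mem_coe.1 hb')
    have h1 : b * M ≡ b' * M [MOD q] := hbb
    have h2 : b ≡ b' [MOD q] := Nat.ModEq.cancel_right_of_coprime hM.symm h1
    exact Nat.ModEq.eq_of_lt_of_lt h2 hb1.2 hb2.2
  have himg : (Ico 1 q).image (fun b => b * M % q) = Ico 1 q := by
    apply Finset.eq_of_subset_of_card_le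
    · intro y hy
      obtain ⟨b, hb, rfl⟩ := Finset.mem_image.1 hy
      have hb1 := Finset.mem_Ico.1 hb
      refine Finset.mem_Ico.2 ⟨?_, Nat.mod_lt _ (by omega)⟩
      rw [Nat.one_le_iff_ne_zero]
      intro h0
      have hd : q ∣ b * M := Nat.dvd_of_mod_eq_zero h0
      have hd2 : q ∣ b := Nat.Coprime.dvd_of_dvd_mul_right hM.symm hd
      exact absurd (Nat.le_of_dvd (by omega) hd2) (by omega)
    · rw [Finset.card_image_of_injOn hinj]
  conv_rhs => rw [← himg]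
  rw [Finset.sum_image hinj]

private theorem klc_harm (q : ℕ) (hq : 1 ≤ q) :
    ∑ b ∈ Ico 1 q, (1 : ℝ) / b ≤ 1 + Real.log q := by
  have h1 : ∑ b ∈ Ico 1 q, (1 : ℝ) / b = ((harmonic (q - 1) : ℚ) : ℝ) := by
    rw [Finset.sum_Ico_eq_sum_range]
    unfold harmonic
    push_cast
    apply Finset.sum_congr rfl
    intro i _
    rw [one_div, add_comm]
  rw [h1]
  by_cases h : q = 1
  · subst h
    simp
  · calc ((harmonic (q - 1) : ℚ) : ℝ) ≤ 1 + Real.log ((q - 1 : ℕ) : ℝ) :=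
          harmonic_le_one_add_log _
      _ ≤ 1 + Real.log q := by
          have : Real.log ((q - 1 : ℕ) : ℝ) ≤ Real.log q := by
            apply Real.log_le_log
            · have : 0 < q - 1 := by omega
              exact_mod_cast this
            · exact_mod_cast Nat.sub_le q 1
          linarith

private theorem klc_sum {q : ℕ} (hq : 1 ≤ q) :
    ∑ b ∈ Ico 1 q, (1 / 2 : ℝ) * (1 / ((b : ℝ) / q) + 1 / (1 - (b : ℝ) / q)) ≤
      q * (1 + Real.log q) := by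
  have hq0 : (q : ℝ) ≠ 0 := by positivity
  have h1 : ∀ b ∈ Ico 1 q, (1 / 2 : ℝ) * (1 / ((b : ℝ) / q) + 1 / (1 - (b : ℝ) / q)) =
      (q / 2 : ℝ) * (1 / (b : ℝ)) + (q / 2 : ℝ) * (1 / ((q - b : ℕ) : ℝ)) := by
    intro b hb
    have hb1 := Finset.mem_Ico.1 hb
    have hb0 : (b : ℝ) ≠ 0 := by
      have : b ≠ 0 := by omega
      exact_mod_cast this
    have hqb : (q : ℝ) - b ≠ 0 := by
      have : (b : ℝ) < q := by exact_mod_cast hb1.2
      linarith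
    rw [Nat.cast_sub hb1.2.le]
    have h3 : 1 - (b : ℝ) / q = ((q : ℝ) - b) / q := by field_simp
    rw [h3]
    field_simp
  rw [Finset.sum_congr rfl h1, Finset.sum_add_distrib, ← Finset.mul_sum, ← Finset.mul_sum]
  have h2 : ∑ b ∈ Ico 1 q, (1 : ℝ) / ((q - b : ℕ) : ℝ) = ∑ b ∈ Ico 1 q, (1 : ℝ) / (b : ℝ) := by
    apply Finset.sum_nbij' (fun b => q - b) (fun b => q - b)
    · intro b hb
      have := Finset.mem_Ico.1 hb
      exact Finset.mem_Ico.2 ⟨by omega, by omega⟩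
    · intro b hb
      have := Finset.mem_Ico.1 hb
      exact Finset.mem_Ico.2 ⟨by omega, by omega⟩
    · intro b hb
      have := Finset.mem_Ico.1 hb
      show q - (q - b) = b
      omega
    · intro b hb
      have := Finset.mem_Ico.1 hb
      show q - (q - b) = b
      omega
    · intro b hb
      rfl
  rw [h2]
  have h3 := klc_harm q hq
  have hq1 : (0 : ℝ) ≤ q := by positivity
  nlinarith [mul_le_mul_of_nonneg_left h3 hq1]

theorem kl_incomplete (q : ℕ) (hq : 1 ≤ q) (a : ℤ) (M ρ T : ℕ) (hM : Nat.Coprime M q) :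
    ‖∑ t ∈ (range T).filter (fun t => Nat.Coprime (ρ + M * t) q), kf q a (ρ + M * t)‖ ≤
      ((T : ℝ) / q + 3 + Real.log q) *
        (2 * (Int.gcd a q : ℝ) * (q : ℝ) ^ 3 * (tau q : ℝ) ^ 3) ^ ((1 : ℝ) / 4) := by
  set B : ℝ := (2 * (Int.gcd a q : ℝ) * (q : ℝ) ^ 3 * (tau q : ℝ) ^ 3) ^ ((1 : ℝ) / 4) with hB
  have hB0 : 0 ≤ B := by positivity
  have hq0 : (0 : ℝ) < q := by positivity
  have hkl : ∀ b : ℤ, ‖klS q a b‖ ≤ B := by
    intro b
    have h1 := klS_le q hq a b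
    have h2 : ‖klS q a b‖ = (‖klS q a b‖ ^ 4) ^ ((1 : ℝ) / 4) := by
      rw [← Real.rpow_natCast, ← Real.rpow_mul (norm_nonneg _)]
      norm_num
    rw [h2]
    exact Real.rpow_le_rpow (by positivity) h1 (by norm_num)
  -- the Fourier expansion
  have hexp : (q : ℂ) * ∑ t ∈ (range T).filter (fun t => Nat.Coprime (ρ + M * t) q),
      kf q a (ρ + M * t) = ∑ b ∈ range q, klS q a (-(b : ℤ)) *
        (ee ((b : ℝ) * ρ / q) * ∑ t ∈ range T, ee ((b : ℝ) * M / q) ^ t) := by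
    rw [Finset.sum_filter, Finset.mul_sum]
    have h1 : ∀ t ∈ range T, (q : ℂ) * (if Nat.Coprime (ρ + M * t) q then kf q a (ρ + M * t) else 0)
        = ∑ b ∈ range q, klS q a (-(b : ℤ)) *
          (ee ((b : ℝ) * ρ / q) * ee ((b : ℝ) * M / q) ^ t) := by
      intro t _
      have h2 := klg_fourier hq a (ρ + M * t)
      unfold klg at h2
      rw [← h2]
      apply Finset.sum_congr rfl
      intro b _
      congr 1
      rw [← klc_ee_nat_mul, ← ee_add]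
      congr 1
      push_cast
      ring
    rw [Finset.sum_congr rfl h1, Finset.sum_comm]
    apply Finset.sum_congr rfl
    intro b _
    rw [Finset.mul_sum, Finset.mul_sum]
  have hnq : (q : ℝ) * ‖∑ t ∈ (range T).filter (fun t => Nat.Coprime (ρ + M * t) q),
      kf q a (ρ + M * t)‖ ≤ B * (T + q * (1 + Real.log q)) := by
    have h0 : (q : ℝ) = ‖(q : ℂ)‖ := by simp
    rw [h0, ← norm_mul, hexp, ← h0]
    have hterm : ∀ b ∈ range q, ‖klS q a (-(b : ℤ)) *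
        (ee ((b : ℝ) * ρ / q) * ∑ t ∈ range T, ee ((b : ℝ) * M / q) ^ t)‖ ≤
        B * ‖∑ t ∈ range T, ee ((b : ℝ) * M / q) ^ t‖ := by
      intro b _
      rw [norm_mul, norm_mul, norm_ee, one_mul]
      exact mul_le_mul_of_nonneg_right (hkl _) (norm_nonneg _)
    refine (norm_sum_le _ _).trans ((Finset.sum_le_sum hterm).trans ?_)
    rw [← Finset.mul_sum]
    apply mul_le_mul_of_nonneg_left _ hB0
    rw [Finset.range_eq_Ico, Finset.sum_eq_sum_Ico_succ_bot (by omega)]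
    have hz : ‖∑ t ∈ range T, ee (((0 : ℕ) : ℝ) * M / q) ^ t‖ = T := by
      have : (((0 : ℕ) : ℝ) * M / q) = 0 := by simp
      rw [this, ee_zero]
      simp
    rw [hz]
    have hrest : ∀ b ∈ Ico (0 + 1) q, ‖∑ t ∈ range T, ee ((b : ℝ) * M / q) ^ t‖ ≤
        (fun c : ℕ => (1 / 2 : ℝ) * (1 / ((c : ℝ) / q) + 1 / (1 - (c : ℝ) / q))) (b * M % q) := by
      intro b hb
      have hb1 := Finset.mem_Ico.1 hb
      have hc1 : 1 ≤ b * M % q := by
        rw [Nat.one_le_iff_ne_zero]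
        intro h0
        have hd : q ∣ b * M := Nat.dvd_of_mod_eq_zero h0
        have hd2 : q ∣ b := Nat.Coprime.dvd_of_dvd_mul_right hM.symm hd
        exact absurd (Nat.le_of_dvd (by omega) hd2) (by omega)
      have hc2 : b * M % q < q := Nat.mod_lt _ (by omega)
      have hee : ee ((b : ℝ) * M / q) = ee (((b * M % q : ℕ) : ℝ) / q) := by
        obtain ⟨w, hw⟩ : ∃ w : ℕ, w = b * M / q := ⟨_, rfl⟩
        apply ee_eq_of_int (w : ℤ)
        have h3 : (b : ℝ) * M = (q : ℝ) * w + ((b * M % q : ℕ) : ℝ) := by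
          have h4 : b * M = q * w + b * M % q := by
            rw [hw]
            exact (Nat.div_add_mod _ _).symm
          exact_mod_cast h4
        rw [h3, Int.cast_natCast]
        field_simp
        ring
      rw [hee]
      apply klc_geom
      · have : (0 : ℝ) < ((b * M % q : ℕ) : ℝ) := by exact_mod_cast hc1
        positivity
      · rw [div_lt_one hq0]
        exact_mod_cast hc2
    have h5 := Finset.sum_le_sum hrest
    have h6 := klc_perm hM (fun c : ℕ => (1 / 2 : ℝ) * (1 / ((c : ℝ) / q) + 1 / (1 - (c : ℝ) / q)))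
    have h7 := klc_sum hq
    rw [zero_add] at h5 ⊢
    linarith
  have hfin : ‖∑ t ∈ (range T).filter (fun t => Nat.Coprime (ρ + M * t) q),
      kf q a (ρ + M * t)‖ ≤ B * (T + q * (1 + Real.log q)) / q := by
    rw [le_div_iff₀ hq0, mul_comm]
    exact hnq
  refine hfin.trans ?_
  have h8 : B * (T + q * (1 + Real.log q)) / q = ((T : ℝ) / q + 1 + Real.log q) * B := by
    field_simp
    ring
  rw [h8]
  apply mul_le_mul_of_nonneg_right _ hB0
  linarith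

end Pool.Agent.H80.KF

end

section

/-!
# Partial summation with a weight of bounded variation

`∑_{t<T} G(t) f(t) = G(T-1) F_T - ∑_{t<T-1} (G(t+1) - G(t)) F_{t+1}`, `F_j = ∑_{t<j} f(t)`.
`bv_prod`: the increments of a product of functions bounded by one add up.
-/

set_option autoImplicit false

namespace Pool.Agent.H80.KF

open Finset

theorem abel_bv (f G : ℕ → ℂ) (T : ℕ) (B V : ℝ)
    (hB : ∀ j ≤ T, ‖∑ t ∈ range j, f t‖ ≤ B) (hG : ∀ t < T, ‖G t‖ ≤ 1)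
    (hV : ∑ t ∈ range (T - 1), ‖G (t + 1) - G t‖ ≤ V) :
    ‖∑ t ∈ range T, G t * f t‖ ≤ (1 + V) * B := by
  have hB0 : 0 ≤ B := (norm_nonneg _).trans (hB 0 (Nat.zero_le _))
  have hV0 : 0 ≤ V := (Finset.sum_nonneg fun _ _ => norm_nonneg _).trans hV
  rcases Nat.eq_zero_or_pos T with rfl | hT
  · simp only [range_zero, sum_empty, norm_zero]
    positivity
  have h := Finset.sum_range_by_parts G f T
  simp only [smul_eq_mul] at h
  rw [h]
  have h1 : ‖G (T - 1) * ∑ i ∈ range T, f i‖ ≤ 1 * B := by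
    rw [norm_mul]
    exact mul_le_mul (hG _ (by omega)) (hB T le_rfl) (norm_nonneg _) zero_le_one
  have h2 : ‖∑ i ∈ range (T - 1), (G (i + 1) - G i) * ∑ i ∈ range (i + 1), f i‖ ≤ V * B := by
    refine (norm_sum_le _ _).trans ?_
    calc ∑ i ∈ range (T - 1), ‖(G (i + 1) - G i) * ∑ i ∈ range (i + 1), f i‖
        ≤ ∑ i ∈ range (T - 1), ‖G (i + 1) - G i‖ * B := by
          refine Finset.sum_le_sum fun i hi => ?_
          rw [norm_mul]
          have := Finset.mem_range.1 hi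
          exact mul_le_mul_of_nonneg_left (hB (i + 1) (by omega)) (norm_nonneg _)
      _ = (∑ i ∈ range (T - 1), ‖G (i + 1) - G i‖) * B := by rw [Finset.sum_mul]
      _ ≤ V * B := mul_le_mul_of_nonneg_right hV hB0
  calc ‖G (T - 1) * ∑ i ∈ range T, f i -
        ∑ i ∈ range (T - 1), (G (i + 1) - G i) * ∑ i ∈ range (i + 1), f i‖
      ≤ ‖G (T - 1) * ∑ i ∈ range T, f i‖ +
        ‖∑ i ∈ range (T - 1), (G (i + 1) - G i) * ∑ i ∈ range (i + 1), f i‖ := norm_sub_le _ _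
    _ ≤ 1 * B + V * B := add_le_add h1 h2
    _ = (1 + V) * B := by ring

theorem bv_mul (G H : ℕ → ℂ) (T : ℕ) (hG : ∀ t < T, ‖G t‖ ≤ 1) (hH : ∀ t < T, ‖H t‖ ≤ 1) :
    ∑ t ∈ range (T - 1), ‖G (t + 1) * H (t + 1) - G t * H t‖ ≤
      ∑ t ∈ range (T - 1), ‖G (t + 1) - G t‖ + ∑ t ∈ range (T - 1), ‖H (t + 1) - H t‖ := by
  rw [← Finset.sum_add_distrib]
  refine Finset.sum_le_sum fun t ht => ?_
  have ht' := Finset.mem_range.1 ht
  have e : G (t + 1) * H (t + 1) - G t * H t =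
      (G (t + 1) - G t) * H (t + 1) + G t * (H (t + 1) - H t) := by ring
  rw [e]
  refine (norm_add_le _ _).trans ?_
  rw [norm_mul, norm_mul]
  have h1 : ‖G (t + 1) - G t‖ * ‖H (t + 1)‖ ≤ ‖G (t + 1) - G t‖ * 1 :=
    mul_le_mul_of_nonneg_left (hH _ (by omega)) (norm_nonneg _)
  have h2 : ‖G t‖ * ‖H (t + 1) - H t‖ ≤ 1 * ‖H (t + 1) - H t‖ :=
    mul_le_mul_of_nonneg_right (hG _ (by omega)) (norm_nonneg _)
  linarith

end Pool.Agent.H80.KF

end

section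

/-!
# Total variation of the smooth weight

`m, n, n'` are affine functions of `t` with values in `[N, 3N]` for `t < T`.  Increments:
`F(A n)`: `(40/N²) A ∑|Δn| ≤ 240` (an affine function is monotone, `∑|Δn| ≤ 2N`); `F(m n)`:
`(40/N²)(3N ∑|Δm| + 3N ∑|Δn|) ≤ 480`; `ee(c/n)`: `2π |c| ∑ |Δn|/N² ≤ 64π`.  The total is at most
`2·240 + 2·480 + 128π ≤ 3000`; products by `bv_mul`.
-/

set_option autoImplicit false

namespace Pool.Agent.H80.KF

open Finset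

private theorem Tv_aff (N T : ℕ) (n0 ν : ℝ)
    (hn : ∀ t : ℕ, t < T → (N : ℝ) ≤ n0 + ν * t ∧ n0 + ν * t ≤ 3 * N) :
    ∑ _t ∈ range (T - 1), |ν| ≤ 2 * N := by
  rcases Nat.eq_zero_or_pos T with h | h
  · subst h
    simp
  · have h1 := hn 0 h
    have h2 := hn (T - 1) (by omega)
    simp only [Nat.cast_zero, mul_zero, add_zero] at h1
    rw [sum_const, card_range, nsmul_eq_mul]
    have h3 : ((T - 1 : ℕ) : ℝ) * |ν| = |ν * ((T - 1 : ℕ) : ℝ)| := by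
      rw [abs_mul, Nat.abs_cast, mul_comm]
    rw [h3, abs_le]
    constructor
    · linarith [h1.1, h1.2, h2.1, h2.2]
    · linarith [h1.1, h1.2, h2.1, h2.2]

private theorem Tv_F (N : ℕ) (hN : 1 ≤ N) (F : ℝ → ℂ) (hF : Wt N F) (T : ℕ) (y : ℕ → ℝ)
    (hy : ∀ t < T, (N : ℝ) ^ 2 ≤ y t ∧ y t ≤ 9 * (N : ℝ) ^ 2) (K : ℝ)
    (hK : ∑ t ∈ range (T - 1), |y (t + 1) - y t| ≤ K * (N : ℝ) ^ 2) :
    ∑ t ∈ range (T - 1), ‖F (y (t + 1)) - F (y t)‖ ≤ 40 * K := by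
  have hN0 : (0 : ℝ) < N := by exact_mod_cast hN
  calc ∑ t ∈ range (T - 1), ‖F (y (t + 1)) - F (y t)‖
      ≤ ∑ t ∈ range (T - 1), 40 / (N : ℝ) ^ 2 * |y (t + 1) - y t| := by
        refine sum_le_sum fun t ht => ?_
        rw [mem_range] at ht
        have h1 := hy (t + 1) (by omega)
        have h2 := hy t (by omega)
        exact hF.2 _ _ h1.1 h1.2 h2.1 h2.2
    _ = 40 / (N : ℝ) ^ 2 * ∑ t ∈ range (T - 1), |y (t + 1) - y t| := by rw [mul_sum]
    _ ≤ 40 / (N : ℝ) ^ 2 * (K * (N : ℝ) ^ 2) :=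
        mul_le_mul_of_nonneg_left hK (by positivity)
    _ = 40 * K := by field_simp

private theorem Tv_one (N : ℕ) (hN : 1 ≤ N) (F : ℝ → ℂ) (hF : Wt N F) (A : ℝ) (hA : (N : ℝ) ≤ A)
    (hA' : A ≤ 3 * N) (T : ℕ) (n0 ν : ℝ)
    (hn : ∀ t : ℕ, t < T → (N : ℝ) ≤ n0 + ν * t ∧ n0 + ν * t ≤ 3 * N) :
    ∑ t ∈ range (T - 1), ‖F (A * (n0 + ν * ((t + 1 : ℕ) : ℝ))) - F (A * (n0 + ν * (t : ℝ)))‖
      ≤ 240 := by
  have hN0 : (0 : ℝ) < N := by exact_mod_cast hN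
  have h := Tv_F N hN F hF T (fun t => A * (n0 + ν * (t : ℝ))) ?_ 6 ?_
  · exact h.trans (by norm_num)
  · intro t ht
    have h1 := hn t ht
    constructor
    · show (N : ℝ) ^ 2 ≤ A * (n0 + ν * (t : ℝ))
      rw [pow_two]
      exact mul_le_mul hA h1.1 hN0.le (hN0.le.trans hA)
    · show A * (n0 + ν * (t : ℝ)) ≤ 9 * (N : ℝ) ^ 2
      calc A * (n0 + ν * (t : ℝ)) ≤ (3 * N) * (3 * N) :=
            mul_le_mul hA' h1.2 (hN0.le.trans h1.1) (by positivity)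
        _ = 9 * (N : ℝ) ^ 2 := by ring
  · have h2 := Tv_aff N T n0 ν hn
    have h3 : ∀ t : ℕ, |A * (n0 + ν * ((t + 1 : ℕ) : ℝ)) - A * (n0 + ν * (t : ℝ))| = A * |ν| := by
      intro t
      have h4 : A * (n0 + ν * ((t + 1 : ℕ) : ℝ)) - A * (n0 + ν * (t : ℝ)) = A * ν := by
        push_cast; ring
      rw [h4, abs_mul, abs_of_pos (hN0.trans_le hA)]
    simp only [h3]
    rw [← mul_sum]
    calc A * ∑ _t ∈ range (T - 1), |ν| ≤ (3 * N) * (2 * N) :=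
          mul_le_mul hA' h2 (sum_nonneg fun _ _ => abs_nonneg _) (by positivity)
      _ = 6 * (N : ℝ) ^ 2 := by ring

private theorem Tv_two (N : ℕ) (hN : 1 ≤ N) (F : ℝ → ℂ) (hF : Wt N F) (T : ℕ) (m0 μ n0 ν : ℝ)
    (hm : ∀ t : ℕ, t < T → (N : ℝ) ≤ m0 + μ * t ∧ m0 + μ * t ≤ 3 * N)
    (hn : ∀ t : ℕ, t < T → (N : ℝ) ≤ n0 + ν * t ∧ n0 + ν * t ≤ 3 * N) :
    ∑ t ∈ range (T - 1), ‖F ((m0 + μ * ((t + 1 : ℕ) : ℝ)) * (n0 + ν * ((t + 1 : ℕ) : ℝ))) -
      F ((m0 + μ * (t : ℝ)) * (n0 + ν * (t : ℝ)))‖ ≤ 480 := by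
  have hN0 : (0 : ℝ) < N := by exact_mod_cast hN
  have h := Tv_F N hN F hF T (fun t => (m0 + μ * (t : ℝ)) * (n0 + ν * (t : ℝ))) ?_ 12 ?_
  · exact h.trans (by norm_num)
  · intro t ht
    have h1 := hn t ht
    have h2 := hm t ht
    constructor
    · show (N : ℝ) ^ 2 ≤ (m0 + μ * (t : ℝ)) * (n0 + ν * (t : ℝ))
      rw [pow_two]
      exact mul_le_mul h2.1 h1.1 hN0.le (hN0.le.trans h2.1)
    · show (m0 + μ * (t : ℝ)) * (n0 + ν * (t : ℝ)) ≤ 9 * (N : ℝ) ^ 2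
      calc (m0 + μ * (t : ℝ)) * (n0 + ν * (t : ℝ)) ≤ (3 * N) * (3 * N) :=
            mul_le_mul h2.2 h1.2 (hN0.le.trans h1.1) (by positivity)
        _ = 9 * (N : ℝ) ^ 2 := by ring
  · have h2 := Tv_aff N T n0 ν hn
    have h3 := Tv_aff N T m0 μ hm
    calc ∑ t ∈ range (T - 1), |(m0 + μ * ((t + 1 : ℕ) : ℝ)) * (n0 + ν * ((t + 1 : ℕ) : ℝ)) -
          (m0 + μ * (t : ℝ)) * (n0 + ν * (t : ℝ))|
        ≤ ∑ t ∈ range (T - 1), (3 * N * |ν| + 3 * N * |μ|) := by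
          refine sum_le_sum fun t ht => ?_
          rw [mem_range] at ht
          have e1 := hm (t + 1) (by omega)
          have e2 := hn t (by omega)
          have e3 : (m0 + μ * ((t + 1 : ℕ) : ℝ)) * (n0 + ν * ((t + 1 : ℕ) : ℝ)) -
              (m0 + μ * (t : ℝ)) * (n0 + ν * (t : ℝ)) =
              (m0 + μ * ((t + 1 : ℕ) : ℝ)) * ν + (n0 + ν * (t : ℝ)) * μ := by
            push_cast; ring
          rw [e3]
          refine (abs_add_le _ _).trans (add_le_add ?_ ?_)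
          · rw [abs_mul, abs_of_nonneg (hN0.le.trans e1.1)]
            exact mul_le_mul_of_nonneg_right e1.2 (abs_nonneg _)
          · rw [abs_mul, abs_of_nonneg (hN0.le.trans e2.1)]
            exact mul_le_mul_of_nonneg_right e2.2 (abs_nonneg _)
      _ = 3 * N * ∑ _t ∈ range (T - 1), |ν| + 3 * N * ∑ _t ∈ range (T - 1), |μ| := by
          rw [sum_add_distrib, mul_sum, mul_sum]
      _ ≤ 3 * N * (2 * N) + 3 * N * (2 * N) := by
          gcongr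
      _ = 12 * (N : ℝ) ^ 2 := by ring

private theorem Tv_ee (N : ℕ) (hN : 1 ≤ N) (c : ℝ) (hc : |c| ≤ 16 * N) (T : ℕ) (n0 ν : ℝ)
    (hn : ∀ t : ℕ, t < T → (N : ℝ) ≤ n0 + ν * t ∧ n0 + ν * t ≤ 3 * N) :
    ∑ t ∈ range (T - 1), ‖ee (c / (n0 + ν * ((t + 1 : ℕ) : ℝ))) - ee (c / (n0 + ν * (t : ℝ)))‖
      ≤ 64 * Real.pi := by
  have hN0 : (0 : ℝ) < N := by exact_mod_cast hN
  have h2 := Tv_aff N T n0 ν hn
  calc ∑ t ∈ range (T - 1), ‖ee (c / (n0 + ν * ((t + 1 : ℕ) : ℝ))) - ee (c / (n0 + ν * (t : ℝ)))‖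
      ≤ ∑ t ∈ range (T - 1), 2 * Real.pi * (16 / N) * |ν| := by
        refine sum_le_sum fun t ht => ?_
        rw [mem_range] at ht
        have e1 := hn (t + 1) (by omega)
        have e2 := hn t (by omega)
        have p1 := hN0.trans_le e1.1
        have p2 := hN0.trans_le e2.1
        refine (ee_lip _ _).trans ?_
        rw [mul_assoc (2 * Real.pi)]
        refine mul_le_mul_of_nonneg_left ?_ (by positivity)
        have e3 : c / (n0 + ν * ((t + 1 : ℕ) : ℝ)) - c / (n0 + ν * (t : ℝ)) =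
            -(c * ν) / ((n0 + ν * ((t + 1 : ℕ) : ℝ)) * (n0 + ν * (t : ℝ))) := by
          rw [div_sub_div _ _ p1.ne' p2.ne']
          congr 1
          push_cast
          ring
        rw [e3, abs_div, abs_neg, abs_mul, abs_of_pos (mul_pos p1 p2), div_le_iff₀ (mul_pos p1 p2)]
        have e4 : (N : ℝ) * N ≤ (n0 + ν * ((t + 1 : ℕ) : ℝ)) * (n0 + ν * (t : ℝ)) :=
          mul_le_mul e1.1 e2.1 hN0.le p1.le
        calc |c| * |ν| ≤ 16 * N * |ν| := mul_le_mul_of_nonneg_right hc (abs_nonneg _)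
          _ = 16 / N * |ν| * (N * N) := by field_simp
          _ ≤ _ := mul_le_mul_of_nonneg_left e4 (by positivity)
    _ = 2 * Real.pi * (16 / N) * ∑ _t ∈ range (T - 1), |ν| := by rw [mul_sum]
    _ ≤ 2 * Real.pi * (16 / N) * (2 * N) := mul_le_mul_of_nonneg_left h2 (by positivity)
    _ = 64 * Real.pi := by field_simp; ring

private theorem Tv_conj (g : ℕ → ℂ) (T : ℕ) :
    ∑ t ∈ range (T - 1), ‖(starRingEnd ℂ) (g (t + 1)) - (starRingEnd ℂ) (g t)‖ =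
      ∑ t ∈ range (T - 1), ‖g (t + 1) - g t‖ := by
  refine sum_congr rfl fun t _ => ?_
  rw [← map_sub, RCLike.norm_conj]

private theorem Tv_le_one {a b : ℂ} (ha : ‖a‖ ≤ 1) (hb : ‖b‖ ≤ 1) : ‖a * b‖ ≤ 1 := by
  rw [norm_mul]
  exact mul_le_one₀ ha (norm_nonneg _) hb

theorem tv (N : ℕ) (hN : 1 ≤ N) (F : ℝ → ℂ) (hF : Wt N F) (A c1 c2 : ℝ) (hA : (N : ℝ) ≤ A)
    (hA' : A ≤ 3 * N) (hc1 : |c1| ≤ 16 * N) (hc2 : |c2| ≤ 16 * N) (T : ℕ)
    (m0 μ n0 ν n1 ν' : ℝ)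
    (hm : ∀ t : ℕ, t < T → (N : ℝ) ≤ m0 + μ * t ∧ m0 + μ * t ≤ 3 * N)
    (hn : ∀ t : ℕ, t < T → (N : ℝ) ≤ n0 + ν * t ∧ n0 + ν * t ≤ 3 * N)
    (hn' : ∀ t : ℕ, t < T → (N : ℝ) ≤ n1 + ν' * t ∧ n1 + ν' * t ≤ 3 * N) :
    (∀ t : ℕ, t < T → ‖GG F A c1 c2 (m0 + μ * t) (n0 + ν * t) (n1 + ν' * t)‖ ≤ 1) ∧
    ∑ t ∈ range (T - 1), ‖GG F A c1 c2 (m0 + μ * (t + 1 : ℕ)) (n0 + ν * (t + 1 : ℕ))
        (n1 + ν' * (t + 1 : ℕ)) - GG F A c1 c2 (m0 + μ * t) (n0 + ν * t) (n1 + ν' * t)‖ ≤ 3000 := by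
  let g1 : ℕ → ℂ := fun t => F (A * (n0 + ν * (t : ℝ)))
  let g2 : ℕ → ℂ := fun t => (starRingEnd ℂ) (F ((m0 + μ * (t : ℝ)) * (n0 + ν * (t : ℝ))))
  let g3 : ℕ → ℂ := fun t => (starRingEnd ℂ) (F (A * (n1 + ν' * (t : ℝ))))
  let g4 : ℕ → ℂ := fun t => F ((m0 + μ * (t : ℝ)) * (n1 + ν' * (t : ℝ)))
  let g5 : ℕ → ℂ := fun t => ee (c1 / (n0 + ν * (t : ℝ)))
  let g6 : ℕ → ℂ := fun t => (starRingEnd ℂ) (ee (c2 / (n1 + ν' * (t : ℝ))))
  have b1 : ∀ t, ‖g1 t‖ ≤ 1 := fun t => hF.1 _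
  have b2 : ∀ t, ‖g2 t‖ ≤ 1 := fun t => by
    show ‖(starRingEnd ℂ) _‖ ≤ 1
    rw [RCLike.norm_conj]; exact hF.1 _
  have b3 : ∀ t, ‖g3 t‖ ≤ 1 := fun t => by
    show ‖(starRingEnd ℂ) _‖ ≤ 1
    rw [RCLike.norm_conj]; exact hF.1 _
  have b4 : ∀ t, ‖g4 t‖ ≤ 1 := fun t => hF.1 _
  have b5 : ∀ t, ‖g5 t‖ ≤ 1 := fun t => (norm_ee _).le
  have b6 : ∀ t, ‖g6 t‖ ≤ 1 := fun t => by
    show ‖(starRingEnd ℂ) _‖ ≤ 1
    rw [RCLike.norm_conj]; exact (norm_ee _).le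
  have v1 : ∑ t ∈ range (T - 1), ‖g1 (t + 1) - g1 t‖ ≤ 240 :=
    Tv_one N hN F hF A hA hA' T n0 ν hn
  have v2 : ∑ t ∈ range (T - 1), ‖g2 (t + 1) - g2 t‖ ≤ 480 :=
    (Tv_conj (fun t => F ((m0 + μ * (t : ℝ)) * (n0 + ν * (t : ℝ)))) T).trans_le
      (Tv_two N hN F hF T m0 μ n0 ν hm hn)
  have v3 : ∑ t ∈ range (T - 1), ‖g3 (t + 1) - g3 t‖ ≤ 240 :=
    (Tv_conj (fun t => F (A * (n1 + ν' * (t : ℝ)))) T).trans_le
      (Tv_one N hN F hF A hA hA' T n1 ν' hn')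
  have v4 : ∑ t ∈ range (T - 1), ‖g4 (t + 1) - g4 t‖ ≤ 480 :=
    Tv_two N hN F hF T m0 μ n1 ν' hm hn'
  have v5 : ∑ t ∈ range (T - 1), ‖g5 (t + 1) - g5 t‖ ≤ 64 * Real.pi :=
    Tv_ee N hN c1 hc1 T n0 ν hn
  have v6 : ∑ t ∈ range (T - 1), ‖g6 (t + 1) - g6 t‖ ≤ 64 * Real.pi :=
    (Tv_conj (fun t => ee (c2 / (n1 + ν' * (t : ℝ)))) T).trans_le
      (Tv_ee N hN c2 hc2 T n1 ν' hn')
  have w12 := bv_mul g1 g2 T (fun t _ => b1 t) (fun t _ => b2 t)
  have w34 := bv_mul g3 g4 T (fun t _ => b3 t) (fun t _ => b4 t)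
  have w56 := bv_mul g5 g6 T (fun t _ => b5 t) (fun t _ => b6 t)
  have w14 := bv_mul (fun t => g1 t * g2 t) (fun t => g3 t * g4 t) T
    (fun t _ => Tv_le_one (b1 t) (b2 t)) (fun t _ => Tv_le_one (b3 t) (b4 t))
  have w := bv_mul (fun t => g1 t * g2 t * (g3 t * g4 t)) (fun t => g5 t * g6 t) T
    (fun t _ => Tv_le_one (Tv_le_one (b1 t) (b2 t)) (Tv_le_one (b3 t) (b4 t)))
    (fun t _ => Tv_le_one (b5 t) (b6 t))
  have hpi := Real.pi_lt_four
  constructor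
  · intro t _
    exact Tv_le_one (Tv_le_one (Tv_le_one (b1 t) (b2 t)) (Tv_le_one (b3 t) (b4 t)))
      (Tv_le_one (b5 t) (b6 t))
  · have hw : ∑ t ∈ range (T - 1), ‖g1 (t + 1) * g2 (t + 1) * (g3 (t + 1) * g4 (t + 1)) *
        (g5 (t + 1) * g6 (t + 1)) - g1 t * g2 t * (g3 t * g4 t) * (g5 t * g6 t)‖ ≤ 3000 := by
      linarith [w, w14, w12, w34, w56, v1, v2, v3, v4, v5, v6, hpi]
    exact hw

end Pool.Agent.H80.KF

end

section

/-!
# The phase after reciprocity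

`m₁ = s k`, `r n = p₁ m₁ - p₂ m₂`, `(n, p₁m₁) = 1`, `k` coprime to `p₁ p₂ s r`.
Reciprocity: `e(ξ (p₁m₁)^{-1}/n) = e(-ξ n̄/(p₁m₁)) e(ξ/(p₁m₁n))`; `p₁m₁ = (p₁s) k` with coprime
factors, so `kf_crt` splits the phase into one modulo `p₁ s` and `e(-ξ (n p₁ s)^{-1}/k)`; and
`p₁p₂ s m₂ ≡ -r n p₁ s (mod k)` (as `k ∣ m₁`), so the last factor is
`e(ξ r (p₁p₂ s m₂)^{-1}/k)`.
`phase2`: for two triples with the same `m₁ = s k`, `m₂` the product of the `k`-parts is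
`e(K₀ (s p₁p₂p₃p₄ m₂)^{-1}/k)` (use `kf_mul_left`, `kf_add`, `kf_neg`).
-/

set_option autoImplicit false

namespace Pool.Agent.H80.KF

open Finset

theorem phase {p1 p2 s k m2 n : ℕ} {r : ℤ} (hp1 : 1 ≤ p1) (hs : 1 ≤ s) (hk : 1 ≤ k) (hn : 1 ≤ n)
    (hrn : r * (n : ℤ) = (p1 : ℤ) * (s * k : ℕ) - (p2 : ℤ) * m2)
    (hcop : Nat.Coprime n (p1 * (s * k))) (h1 : Nat.Coprime k (p1 * s)) (h2 : Nat.Coprime k p2)
    (h3 : IsCoprime (k : ℤ) r) (ξ : ℤ) :
    Nat.Coprime m2 k ∧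
    kf n ξ (p1 * (s * k)) = ee ((ξ : ℝ) / ((p1 : ℝ) * (s * k : ℕ) * n)) *
      kf (p1 * s) (-ξ) (n * k) * kf k (ξ * r) (p1 * p2 * s * m2) := by
  have hnk : Nat.Coprime n k := by
    have h5 : k ∣ p1 * (s * k) := ⟨p1 * s, by ring⟩
    exact hcop.coprime_dvd_right h5
  have hkn : IsCoprime (k : ℤ) (n : ℤ) := Nat.isCoprime_iff_coprime.2 hnk.symm
  have hm2 : Nat.Coprime m2 k := by
    have h5 : IsCoprime (k : ℤ) (r * n) := h3.mul_right hkn
    rw [hrn] at h5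
    have h6 : (p1 : ℤ) * (s * k : ℕ) - (p2 : ℤ) * m2 = -((p2 : ℤ) * m2) + (k : ℤ) * (p1 * s) := by
      push_cast; ring
    rw [h6] at h5
    have h7 : IsCoprime (k : ℤ) (-((p2 : ℤ) * m2)) := by
      have := IsCoprime.add_mul_left_right_iff (x := (k : ℤ)) (y := -((p2 : ℤ) * m2)) (z := (p1 * s : ℤ))
      exact this.1 h5
    have h8 : IsCoprime (k : ℤ) ((p2 : ℤ) * m2) := by
      have := h7.neg_right
      rwa [neg_neg] at this
    have h9 := h8.of_mul_right_right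
    exact (Nat.isCoprime_iff_coprime.1 h9).symm
  refine ⟨hm2, ?_⟩
  have hu : 1 ≤ p1 * (s * k) := Nat.mul_pos hp1 (Nat.mul_pos hs hk)
  have hps : 1 ≤ p1 * s := Nat.mul_pos hp1 hs
  rw [kf_recip hu hn hcop.symm ξ]
  have e1 : p1 * (s * k) = (p1 * s) * k := by ring
  have e2 : kf (p1 * (s * k)) (-ξ) n = kf (p1 * s) (-ξ) (n * k) * kf k (-ξ) (n * (p1 * s)) := by
    rw [e1]
    exact kf_crt hps hk h1.symm (by rw [← e1]; exact hcop) _
  rw [e2]
  -- the factor modulo k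
  set c : ℕ := ((-r) % (k : ℤ)).toNat with hc
  have hk0 : (0 : ℤ) < k := by exact_mod_cast hk
  have hcz : (c : ℤ) = (-r) % (k : ℤ) := Int.toNat_of_nonneg (Int.emod_nonneg _ hk0.ne')
  have hcr : (k : ℤ) ∣ (c : ℤ) - (-r) := by
    rw [hcz]
    have := Int.emod_add_mul_ediv (-r) (k : ℤ)
    refine ⟨-((-r) / (k : ℤ)), ?_⟩
    linarith
  obtain ⟨t, ht⟩ := hcr
  have hcop2 : Nat.Coprime c k := by
    have h5 : IsCoprime (k : ℤ) (-r) := h3.neg_right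
    have h6 : (c : ℤ) = -r + (k : ℤ) * t := by linarith
    have h7 : IsCoprime (k : ℤ) (c : ℤ) := by
      rw [h6]
      exact (IsCoprime.add_mul_left_right_iff (x := (k : ℤ)) (y := -r) (z := t)).2 h5
    exact (Nat.isCoprime_iff_coprime.1 h7).symm
  have hcop3 : Nat.Coprime (n * (p1 * s)) k := Nat.Coprime.mul_left hnk h1.symm
  have e3 : kf k (-ξ) (n * (p1 * s)) = kf k (ξ * r) (p1 * p2 * s * m2) := by
    rw [← kf_mul_left hk (-ξ) hcop2 hcop3]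
    apply kf_congr hk
    · refine ⟨-ξ * t, ?_⟩
      have h6 : (c : ℤ) = -r + (k : ℤ) * t := by linarith
      rw [h6]; ring
    · apply (Nat.modEq_iff_dvd).2
      have h6 : (c : ℤ) = -r + (k : ℤ) * t := by linarith
      push_cast at hrn
      refine ⟨p1 * s * (p1 * s) - t * n * (p1 * s), ?_⟩
      push_cast
      rw [h6]
      linear_combination (p1 : ℤ) * s * hrn
  rw [e3]
  push_cast
  ring

theorem phase2 {k s m2 p1 p2 p3 p4 : ℕ} (hk : 1 ≤ k) (h : Nat.Coprime k (s * (p1 * p2 * (p3 * p4))))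
    (hm : Nat.Coprime m2 k) (η r r' : ℤ) :
    kf k (η * ((p1 : ℤ) - p2) * r) (p1 * p2 * s * m2) *
        (starRingEnd ℂ) (kf k (η * ((p3 : ℤ) - p4) * r') (p3 * p4 * s * m2)) =
      kf k (K0 η (p1, p2, r) (p3, p4, r')) (s * (p1 * p2 * (p3 * p4)) * m2) := by
  have hks : Nat.Coprime k s := h.coprime_dvd_right ⟨_, rfl⟩
  have hk12 : Nat.Coprime k (p1 * p2) := h.coprime_dvd_right ⟨s * (p3 * p4), by ring⟩
  have hk34 : Nat.Coprime k (p3 * p4) := h.coprime_dvd_right ⟨s * (p1 * p2), by ring⟩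
  have c1 : Nat.Coprime (p1 * p2 * s * m2) k :=
    Nat.Coprime.mul_left (Nat.Coprime.mul_left hk12.symm hks.symm) hm
  have c2 : Nat.Coprime (p3 * p4 * s * m2) k :=
    Nat.Coprime.mul_left (Nat.Coprime.mul_left hk34.symm hks.symm) hm
  rw [← kf_neg, ← kf_mul_left hk (η * ((p1 : ℤ) - p2) * r) hk34.symm c1,
    ← kf_mul_left hk (-(η * ((p3 : ℤ) - p4) * r')) hk12.symm c2]
  have e1 : p3 * p4 * (p1 * p2 * s * m2) = s * (p1 * p2 * (p3 * p4)) * m2 := by ring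
  have e2 : p1 * p2 * (p3 * p4 * s * m2) = s * (p1 * p2 * (p3 * p4)) * m2 := by ring
  rw [e1, e2, ← kf_add]
  congr 1
  unfold K0
  push_cast
  ring

end Pool.Agent.H80.KF

end

section

/-!
# The summand on a residue class of `m₂`

Let `τ = (p₁,p₂,r)`, `τ' = (p₃,p₄,r')`, `m₁ = s k`, `k` coprime to `r r' p₁p₂p₃p₄ s`,
`M₀ = lcm(|r|,|r'|) s p₁ p₃`, `m₂ = ρ + M₀ t`, and suppose that for one `t*` both `Adm` hold.  Then
`r ∣ p₁m₁ - p₂m₂`, `r' ∣ p₃m₁ - p₄m₂` for all `t` (`r, r' ∣ M₀`),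
`n(t) = (p₁m₁ - p₂m₂)/r = n₀ + ν t`, `ν = -p₂M₀/r` a multiple of `p₁ s`,
`n'(t) = n₁ + ν' t`, `ν' = -p₄M₀/r'` a multiple of `p₃ s`; `m₂ mod p₁`, `m₂ mod p₃` are constant.
Hence for `m₂ ∈ II N`: both `Adm` hold iff `n(t), n'(t) ∈ II N` and `(m₂, k) = 1`: the conditions
`p₁ ∤ m₂`, `(n(t), p₁ s) = 1` hold for all `t` because they hold for `t*`; `(n(t), k) = 1` iff
`(m₂, k) = 1` because `r n ≡ -p₂ m₂ (mod k)` and `r, p₂` are units mod `k`.  `nn = n(t)` since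
`n(t) > 0` and `r n(t) = p₁m₁ - p₂m₂`.  By `phase`, `phase2` the summand is
`c · GG F m₁ c₁ c₂ m₂ n n' · kf k K₀ (s p₁p₂p₃p₄ m₂)`,
`c = kf (p₁s) (-ξ) (n k) · conj (kf (p₃s) (-ξ') (n' k))` is independent of `t` (`kf_congr`).
-/

set_option autoImplicit false

namespace Pool.Agent.H80.KF

open Finset

private theorem clsa_adm {N p1 p2 s k M ρ tst : ℕ} {r q : ℤ} (hN : 1 ≤ N) (hp1 : 1 ≤ p1)
    (hs : 1 ≤ s) (hk : 1 ≤ k) (h1 : Nat.Coprime k (p1 * s)) (h2 : Nat.Coprime k p2)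
    (h3 : IsCoprime (k : ℤ) r) (hrM : r * q = (M : ℤ)) (hq : ((p1 * s : ℕ) : ℤ) ∣ q)
    (hpM : p1 ∣ M) (ha : Adm N p1 p2 r (s * k) (ρ + M * tst)) :
    ∃ n0 ν : ℤ, ∃ ns : ℕ, (∀ t : ℕ, Adm N p1 p2 r (s * k) (ρ + M * t) ↔
        ((N : ℤ) < n0 + ν * t ∧ n0 + ν * t ≤ 2 * N + 1) ∧ Nat.Coprime (ρ + M * t) k) ∧
      ∀ t : ℕ, Adm N p1 p2 r (s * k) (ρ + M * t) →
        (nn p1 p2 r (s * k) (ρ + M * t) : ℤ) = n0 + ν * t ∧
        nn p1 p2 r (s * k) (ρ + M * t) ≡ ns [MOD p1 * s] := by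
  obtain ⟨a1, a2, a3, a4, a5, a6, a7⟩ := ha
  set ns := nn p1 p2 r (s * k) (ρ + M * tst) with hns
  have hr : ∀ t : ℕ, r * ((ns : ℤ) - (-(p2 : ℤ) * q) * tst + (-(p2 : ℤ) * q) * t) =
      (p1 : ℤ) * (s * k : ℕ) - (p2 : ℤ) * (ρ + M * t : ℕ) := by
    intro t
    have e1 : r * ((ns : ℤ) - (-(p2 : ℤ) * q) * tst + (-(p2 : ℤ) * q) * t) =
        r * (ns : ℤ) + (p2 : ℤ) * (r * q) * tst - (p2 : ℤ) * (r * q) * t := by ring
    rw [e1, a5, hrM]
    push_cast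
    ring
  have hnn : ∀ t : ℕ, 0 ≤ (ns : ℤ) - (-(p2 : ℤ) * q) * tst + (-(p2 : ℤ) * q) * t →
      (nn p1 p2 r (s * k) (ρ + M * t) : ℤ) =
        (ns : ℤ) - (-(p2 : ℤ) * q) * tst + (-(p2 : ℤ) * q) * t := by
    intro t ht
    unfold nn
    rw [← hr t, Int.mul_ediv_cancel_left _ a4]
    exact Int.toNat_of_nonneg ht
  have hmod : ∀ t : ℕ, (nn p1 p2 r (s * k) (ρ + M * t) : ℤ) =
        (ns : ℤ) - (-(p2 : ℤ) * q) * tst + (-(p2 : ℤ) * q) * t →
      nn p1 p2 r (s * k) (ρ + M * t) ≡ ns [MOD p1 * s] := by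
    intro t ht
    apply (Nat.modEq_iff_dvd.2 _).symm
    rw [ht]
    have e : (ns : ℤ) - (-(p2 : ℤ) * q) * tst + (-(p2 : ℤ) * q) * t - (ns : ℤ) =
        q * ((p2 : ℤ) * tst - (p2 : ℤ) * t) := by ring
    rw [e]
    exact Dvd.dvd.mul_right hq _
  have hval : ∀ t : ℕ, Adm N p1 p2 r (s * k) (ρ + M * t) →
      (nn p1 p2 r (s * k) (ρ + M * t) : ℤ) =
        (ns : ℤ) - (-(p2 : ℤ) * q) * tst + (-(p2 : ℤ) * q) * t := by
    rintro t ⟨_, _, _, _, b5, _, _⟩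
    have e : r * (nn p1 p2 r (s * k) (ρ + M * t) : ℤ) =
        r * ((ns : ℤ) - (-(p2 : ℤ) * q) * tst + (-(p2 : ℤ) * q) * t) := by
      rw [b5, hr t]
    exact mul_left_cancel₀ a4 e
  refine ⟨(ns : ℤ) - (-(p2 : ℤ) * q) * tst, -(p2 : ℤ) * q, ns, fun t => ⟨fun hA => ?_, ?_⟩,
    fun t hA => ⟨hval t hA, hmod t (hval t hA)⟩⟩
  · have hv := hval t hA
    obtain ⟨b1, b2, b3, b4, b5, b6, b7⟩ := hA
    rw [II, Finset.mem_Ioc] at b6
    refine ⟨⟨by rw [← hv]; exact_mod_cast b6.1, by rw [← hv]; exact_mod_cast b6.2⟩, ?_⟩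
    exact (phase hp1 hs hk (by omega) b5 b7 h1 h2 h3 0).1
  · rintro ⟨⟨c1, c2⟩, c3⟩
    have hv := hnn t (by omega)
    have hm := hmod t hv
    have hv5 : r * (nn p1 p2 r (s * k) (ρ + M * t) : ℤ) =
        (p1 : ℤ) * (s * k : ℕ) - (p2 : ℤ) * (ρ + M * t : ℕ) := by
      rw [hv, hr t]
    refine ⟨a1, ?_, a3, a4, hv5, ?_, ?_⟩
    · intro hd
      apply a2
      have h4 : p1 ∣ M * t := Dvd.dvd.mul_right hpM t
      have h5 : p1 ∣ M * tst := Dvd.dvd.mul_right hpM tst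
      have h6 : p1 ∣ ρ := (Nat.dvd_add_left h4).1 hd
      exact dvd_add h6 h5
    · rw [II, Finset.mem_Ioc]
      rw [← hv] at c1 c2
      exact ⟨by exact_mod_cast c1, by exact_mod_cast c2⟩
    · have h4 : Nat.Coprime ns (p1 * s) := by
        have : p1 * (s * k) = (p1 * s) * k := by ring
        rw [this] at a7
        exact Nat.Coprime.coprime_mul_right_right a7
      have h5 : Nat.Coprime (nn p1 p2 r (s * k) (ρ + M * t)) (p1 * s) := by
        unfold Nat.Coprime at h4 ⊢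
        rw [← h4]
        exact Nat.ModEq.gcd_eq hm
      have h6 : Nat.Coprime (nn p1 p2 r (s * k) (ρ + M * t)) k := by
        by_contra hne
        obtain ⟨l, hl, hl1, hl2⟩ := Nat.Prime.not_coprime_iff_dvd.1 hne
        have h7 : (l : ℤ) ∣ (p2 : ℤ) * (ρ + M * t : ℕ) := by
          have e : (p2 : ℤ) * (ρ + M * t : ℕ) = (p1 : ℤ) * (s * k : ℕ) -
              r * (nn p1 p2 r (s * k) (ρ + M * t) : ℤ) := by
            rw [hv5]
            ring
          rw [e]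
          apply dvd_sub
          · apply Dvd.dvd.mul_left
            exact_mod_cast Dvd.dvd.mul_left hl2 s
          · apply Dvd.dvd.mul_left
            exact_mod_cast hl1
        have h8 : l ∣ p2 * (ρ + M * t) := by exact_mod_cast h7
        rcases (Nat.Prime.dvd_mul hl).1 h8 with h9 | h9
        · exact Nat.not_coprime_of_dvd_of_dvd hl.one_lt hl2 h9 h2
        · exact Nat.not_coprime_of_dvd_of_dvd hl.one_lt h9 hl2 c3
      have : p1 * (s * k) = (p1 * s) * k := by ring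
      rw [this]
      exact Nat.Coprime.mul_right h5 h6

private theorem clsa_gg {N p1 p2 s k M ρ t ns : ℕ} {r : ℤ} (hp1 : 1 ≤ p1)
    (hs : 1 ≤ s) (hk : 1 ≤ k) (h1 : Nat.Coprime k (p1 * s)) (h2 : Nat.Coprime k p2)
    (h3 : IsCoprime (k : ℤ) r) (η : ℤ) (F : ℝ → ℂ) {x : ℝ}
    (hA : Adm N p1 p2 r (s * k) (ρ + M * t))
    (hx : (nn p1 p2 r (s * k) (ρ + M * t) : ℝ) = x)
    (hm : nn p1 p2 r (s * k) (ρ + M * t) ≡ ns [MOD p1 * s]) :
    gg F η N (p1, p2, r) (s * k) (ρ + M * t) =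
      F (((s * k : ℕ) : ℝ) * x) * (starRingEnd ℂ) (F (((ρ + M * t : ℕ) : ℝ) * x)) *
        (ee (cc η (p1, p2, r) (s * k) / x) * kf (p1 * s) (-(η * ((p1 : ℤ) - p2))) (ns * k) *
          kf k (η * ((p1 : ℤ) - p2) * r) (p1 * p2 * s * (ρ + M * t))) := by
  have hA' := hA
  obtain ⟨b1, b2, b3, b4, b5, b6, b7⟩ := hA'
  rw [II, Finset.mem_Ioc] at b6
  have hph := (phase hp1 hs hk (by omega) b5 b7 h1 h2 h3 (η * ((p1 : ℤ) - p2))).2
  unfold gg
  rw [if_pos hA]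
  change F (((s * k : ℕ) : ℝ) * (nn p1 p2 r (s * k) (ρ + M * t) : ℝ)) *
    (starRingEnd ℂ) (F (((ρ + M * t : ℕ) : ℝ) * (nn p1 p2 r (s * k) (ρ + M * t) : ℝ))) *
    kf (nn p1 p2 r (s * k) (ρ + M * t)) (η * ((p1 : ℤ) - p2)) (p1 * (s * k)) = _
  rw [hph, hx]
  have hkf : kf (p1 * s) (-(η * ((p1 : ℤ) - p2))) (nn p1 p2 r (s * k) (ρ + M * t) * k) =
      kf (p1 * s) (-(η * ((p1 : ℤ) - p2))) (ns * k) :=
    kf_congr (Nat.mul_pos hp1 hs) (by simp) (Nat.ModEq.mul_right k hm)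
  rw [hkf]
  have hcc : ((η * ((p1 : ℤ) - p2) : ℤ) : ℝ) / ((p1 : ℝ) * (s * k : ℕ) * x) =
      cc η (p1, p2, r) (s * k) / x := by
    unfold cc
    rw [div_div]
  rw [hcc]

open Classical in
theorem cls_formula (N : ℕ) (hN : 1 ≤ N) (η : ℤ) (F : ℝ → ℂ) (τ τ' : ℕ × ℕ × ℤ)
    (h1 : τ.1.Prime) (h2 : τ.2.1.Prime) (h3 : τ'.1.Prime) (h4 : τ'.2.1.Prime)
    (s k : ℕ) (hs : 1 ≤ s) (hk : 1 ≤ k) (hm : s * k ∈ II N)
    (hcop : Nat.Coprime k (τ.2.2.natAbs * τ'.2.2.natAbs * (τ.1 * τ.2.1 * (τ'.1 * τ'.2.1)) * s))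
    (ρ tst : ℕ) (ha : Adm N τ.1 τ.2.1 τ.2.2 (s * k) (ρ + M0 τ τ' s * tst))
    (ha' : Adm N τ'.1 τ'.2.1 τ'.2.2 (s * k) (ρ + M0 τ τ' s * tst)) :
    ∃ c : ℂ, ‖c‖ = 1 ∧ ∃ n0 ν n1 ν' : ℤ, ∀ t : ℕ, ρ + M0 τ τ' s * t ∈ II N →
      gg F η N τ (s * k) (ρ + M0 τ τ' s * t) *
          (starRingEnd ℂ) (gg F η N τ' (s * k) (ρ + M0 τ τ' s * t)) =
        if ((N : ℤ) < n0 + ν * t ∧ n0 + ν * t ≤ 2 * N + 1) ∧
            ((N : ℤ) < n1 + ν' * t ∧ n1 + ν' * t ≤ 2 * N + 1) ∧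
            Nat.Coprime (ρ + M0 τ τ' s * t) k then
          c * GG F ((s * k : ℕ) : ℝ) (cc η τ (s * k)) (cc η τ' (s * k))
              ((ρ : ℝ) + (M0 τ τ' s : ℝ) * t) ((n0 : ℝ) + (ν : ℝ) * t) ((n1 : ℝ) + (ν' : ℝ) * t) *
            kf k (K0 η τ τ') (sp τ τ' s * (ρ + M0 τ τ' s * t))
        else 0 := by
  obtain ⟨p1, p2, r⟩ := τ
  obtain ⟨p3, p4, r'⟩ := τ'
  change Nat.Prime p1 at h1
  change Nat.Prime p2 at h2
  change Nat.Prime p3 at h3
  change Nat.Prime p4 at h4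
  change Nat.Coprime k (r.natAbs * r'.natAbs * (p1 * p2 * (p3 * p4)) * s) at hcop
  set M := M0 (p1, p2, r) (p3, p4, r') s with hM
  change Adm N p1 p2 r (s * k) (ρ + M * tst) at ha
  change Adm N p3 p4 r' (s * k) (ρ + M * tst) at ha'
  have hMdef : M = Nat.lcm r.natAbs r'.natAbs * (s * (p1 * p3)) := rfl
  have hks : Nat.Coprime k s := Nat.Coprime.coprime_mul_left_right hcop
  have hkA : Nat.Coprime k (r.natAbs * r'.natAbs * (p1 * p2 * (p3 * p4))) :=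
    Nat.Coprime.coprime_mul_right_right hcop
  have hkP : Nat.Coprime k (p1 * p2 * (p3 * p4)) := Nat.Coprime.coprime_mul_left_right hkA
  have hkR : Nat.Coprime k (r.natAbs * r'.natAbs) := Nat.Coprime.coprime_mul_right_right hkA
  have hk12 : Nat.Coprime k (p1 * p2) := Nat.Coprime.coprime_mul_right_right hkP
  have hk34 : Nat.Coprime k (p3 * p4) := Nat.Coprime.coprime_mul_left_right hkP
  have hk1 : Nat.Coprime k p1 := Nat.Coprime.coprime_mul_right_right hk12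
  have hk2 : Nat.Coprime k p2 := Nat.Coprime.coprime_mul_left_right hk12
  have hk3 : Nat.Coprime k p3 := Nat.Coprime.coprime_mul_right_right hk34
  have hk4 : Nat.Coprime k p4 := Nat.Coprime.coprime_mul_left_right hk34
  have hkr : IsCoprime (k : ℤ) r := by
    rw [Int.isCoprime_iff_gcd_eq_one]
    have h5 : Nat.Coprime k r.natAbs := Nat.Coprime.coprime_mul_right_right hkR
    exact h5
  have hkr' : IsCoprime (k : ℤ) r' := by
    rw [Int.isCoprime_iff_gcd_eq_one]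
    have h5 : Nat.Coprime k r'.natAbs := Nat.Coprime.coprime_mul_left_right hkR
    exact h5
  have hq : ∀ {a : ℤ} {p : ℕ}, a.natAbs ∣ Nat.lcm r.natAbs r'.natAbs → p ∣ p1 * p3 →
      ∃ q : ℤ, a * q = (M : ℤ) ∧ ((p * s : ℕ) : ℤ) ∣ q ∧ p ∣ M := by
    intro a p ha1 hp
    have h5 : a ∣ (Nat.lcm r.natAbs r'.natAbs : ℤ) := Int.natAbs_dvd_natAbs.1 (by simpa using ha1)
    obtain ⟨b, hb⟩ := h5
    obtain ⟨c, hc⟩ := hp
    refine ⟨b * (s * (p1 * p3) : ℕ), ?_, ?_, ?_⟩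
    · rw [← mul_assoc, ← hb, hMdef]
      push_cast
      ring
    · apply Dvd.dvd.mul_left
      rw [hc]
      exact_mod_cast (⟨c, by ring⟩ : p * s ∣ s * (p * c))
    · rw [hMdef, hc]
      exact ⟨Nat.lcm r.natAbs r'.natAbs * (s * c), by ring⟩
  obtain ⟨q, hq1, hq2, hq3⟩ := hq (a := r) (p := p1) (Nat.dvd_lcm_left _ _) (Dvd.intro _ rfl)
  obtain ⟨q', hq1', hq2', hq3'⟩ := hq (a := r') (p := p3) (Nat.dvd_lcm_right _ _)
    (Dvd.intro_left _ rfl)
  obtain ⟨n0, ν, ns, hadm, hval⟩ := clsa_adm hN h1.one_le hs hk (Nat.Coprime.mul_right hk1 hks)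
    hk2 hkr hq1 hq2 hq3 ha
  obtain ⟨n1, ν', ns', hadm', hval'⟩ := clsa_adm hN h3.one_le hs hk (Nat.Coprime.mul_right hk3 hks)
    hk4 hkr' hq1' hq2' hq3' ha'
  refine ⟨kf (p1 * s) (-(η * ((p1 : ℤ) - p2))) (ns * k) *
    (starRingEnd ℂ) (kf (p3 * s) (-(η * ((p3 : ℤ) - p4))) (ns' * k)), ?_, n0, ν, n1, ν', ?_⟩
  · rw [norm_mul, RCLike.norm_conj, norm_kf, norm_kf, one_mul]
  intro t _
  split_ifs with hif
  · obtain ⟨hi1, hi2, hi3⟩ := hif
    have hA := (hadm t).2 ⟨hi1, hi3⟩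
    have hA' := (hadm' t).2 ⟨hi2, hi3⟩
    obtain ⟨v1, v2⟩ := hval t hA
    obtain ⟨v1', v2'⟩ := hval' t hA'
    have hx : (nn p1 p2 r (s * k) (ρ + M * t) : ℝ) = (n0 : ℝ) + (ν : ℝ) * t := by
      exact_mod_cast v1
    have hx' : (nn p3 p4 r' (s * k) (ρ + M * t) : ℝ) = (n1 : ℝ) + (ν' : ℝ) * t := by
      exact_mod_cast v1'
    have g1 := clsa_gg h1.one_le hs hk (Nat.Coprime.mul_right hk1 hks) hk2 hkr η F hA hx v2
    have g2 := clsa_gg h3.one_le hs hk (Nat.Coprime.mul_right hk3 hks) hk4 hkr' η F hA' hx' v2'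
    have hph2 := phase2 (p1 := p1) (p2 := p2) (p3 := p3) (p4 := p4) hk
      (Nat.Coprime.mul_right hks hkP) hi3 η r r'
    rw [g1, g2]
    have hsp : sp (p1, p2, r) (p3, p4, r') s = s * (p1 * p2 * (p3 * p4)) := rfl
    rw [hsp, ← hph2]
    unfold GG
    simp only [map_mul, Complex.conj_conj]
    push_cast
    ring
  · by_cases hA : Adm N p1 p2 r (s * k) (ρ + M * t)
    · by_cases hA' : Adm N p3 p4 r' (s * k) (ρ + M * t)
      · exfalso
        exact hif ⟨((hadm t).1 hA).1, ((hadm' t).1 hA').1, ((hadm t).1 hA).2⟩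
      · have : gg F η N (p3, p4, r') (s * k) (ρ + M * t) = 0 := by
          unfold gg
          exact if_neg hA'
        rw [this, map_zero, mul_zero]
    · have : gg F η N (p1, p2, r) (s * k) (ρ + M * t) = 0 := by
        unfold gg
        exact if_neg hA
      rw [this, zero_mul]

end Pool.Agent.H80.KF

end
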