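import Pool.Agent.H94.EH.M01
import Pool.Agent.H94.EH.M13

/-! The parts of this file: H80.KF.ClsB, H80.KF.Inner, H80.KF.KNum. -/

section

/-!
# The sum over one residue class of `m₂`: bound

If no `t` in the range gives `Adm` for both triples, every term is zero (`gg = 0` unless `Adm`).
Otherwise use `cls_formula`.  The `t` with `m₂ = ρ + M₀ t ∈ II N`, `n₀ + ν t ∈ (N, 2N+1]`,
`n₁ + ν' t ∈ (N, 2N+1]` form an interval `[t₀, t₀ + T)` of natural numbers (each condition defines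
an interval), `T ≤ (N+1)/M₀ + 1`.  With `f(t) = 1_{(m₂,k)=1} kf k K₀ (sp m₂)`,
`sp m₂ = sp (ρ + M₀ t₀) + sp M₀ (t - t₀)`, `(sp m₂, k) = 1` iff `(m₂, k) = 1` (`sp` coprime to `k`),
`kl_incomplete` bounds the partial sums of `f` and `tv`, `abel_bv` give the factor `1 + 3000`.
`|cc η τ m₁| ≤ 4N²·3P/(P N) ≤ 16 N` since `P < p ≤ 4P`.
-/

set_option autoImplicit false

namespace Pool.Agent.H80.KF

open Finset

private theorem clsB_conv (J : Finset ℕ) (hne : J.Nonempty)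
    (hconv : ∀ a ∈ J, ∀ c ∈ J, ∀ b, a ≤ b → b ≤ c → b ∈ J) :
    ∃ t0 T, J = Ico t0 (t0 + (T + 1)) := by
  refine ⟨J.min' hne, J.max' hne - J.min' hne, ?_⟩
  have h1 : J.min' hne ≤ J.max' hne := J.min'_le _ (J.max'_mem hne)
  ext t
  rw [mem_Ico]
  constructor
  · intro ht
    have := J.min'_le t ht
    have := J.le_max' t ht
    omega
  · rintro ⟨h2, h3⟩
    exact hconv _ (J.min'_mem hne) _ (J.max'_mem hne) t h2 (by omega)

private theorem clsB_aff (n0 ν lo hi : ℤ) (a b c : ℕ) (hab : a ≤ b) (hbc : b ≤ c)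
    (ha : lo < n0 + ν * a ∧ n0 + ν * a ≤ hi) (hc : lo < n0 + ν * c ∧ n0 + ν * c ≤ hi) :
    lo < n0 + ν * b ∧ n0 + ν * b ≤ hi := by
  have h1 : (a : ℤ) ≤ b := by exact_mod_cast hab
  have h2 : (b : ℤ) ≤ c := by exact_mod_cast hbc
  rcases le_total 0 ν with h | h
  · have h3 := mul_le_mul_of_nonneg_left h1 h
    have h4 := mul_le_mul_of_nonneg_left h2 h
    constructor <;> linarith only [ha, h3, hc, h4, ha.1, ha.2, hc.1, hc.2]
  · have h3 := mul_le_mul_of_nonpos_left h1 h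
    have h4 := mul_le_mul_of_nonpos_left h2 h
    constructor <;> linarith [ha.1, ha.2, hc.1, hc.2]

private theorem clsB_cc (N P : ℕ) (hN : 1 ≤ N) (η : ℤ) (hη : |η| ≤ 4 * (N : ℤ) ^ 2)
    (τ : ℕ × ℕ × ℤ) (hτ : τ ∈ TT P) (m : ℕ) (hm : m ∈ II N) :
    |cc η τ m| ≤ 16 * N := by
  unfold TT at hτ
  rw [mem_product, mem_product] at hτ
  obtain ⟨h1, h2, -⟩ := hτ
  unfold PP at h1 h2
  rw [mem_filter, mem_Ioc] at h1 h2
  unfold II at hm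
  rw [mem_Ioc] at hm
  have hN0 : (0 : ℝ) < N := by exact_mod_cast hN
  have hp1 : (P : ℝ) + 1 ≤ τ.1 := by exact_mod_cast h1.1.1
  have hp1' : (τ.1 : ℝ) ≤ 4 * P := by exact_mod_cast h1.1.2
  have hp2 : (P : ℝ) + 1 ≤ τ.2.1 := by exact_mod_cast h2.1.1
  have hp2' : (τ.2.1 : ℝ) ≤ 4 * P := by exact_mod_cast h2.1.2
  have hP0 : (0 : ℝ) ≤ P := Nat.cast_nonneg _
  have hm1 : (N : ℝ) ≤ m := by exact_mod_cast hm.1.le
  have hη' : |(η : ℝ)| ≤ 4 * (N : ℝ) ^ 2 := by exact_mod_cast hη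
  have hd : |(τ.1 : ℝ) - τ.2.1| ≤ 3 * P := by
    rw [abs_le]
    constructor <;> linarith only [hp1, hp2', hp1', hp2]
  unfold cc
  push_cast
  rw [abs_div, abs_mul]
  have hden : (0 : ℝ) < (τ.1 : ℝ) * m := by
    apply mul_pos <;> linarith only [hp1, hp1', hN0, hm1]
  rw [abs_of_pos hden, div_le_iff₀ hden]
  calc |(η : ℝ)| * |(τ.1 : ℝ) - τ.2.1| ≤ (4 * (N : ℝ) ^ 2) * (3 * P) :=
        mul_le_mul hη' hd (abs_nonneg _) (by positivity)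
    _ ≤ 16 * N * (P * N) := by nlinarith only [hN0, hP0, mul_nonneg (mul_nonneg hN0.le hN0.le) hP0]
    _ ≤ 16 * N * ((τ.1 : ℝ) * m) := by
        refine mul_le_mul_of_nonneg_left ?_ (by positivity)
        exact mul_le_mul (by linarith only [hp1]) hm1 hN0.le (by linarith only [hp1, hp1'])

theorem cls_bound (N P : ℕ) (hN : 1 ≤ N) (hP : 1 ≤ P) (η : ℤ) (hη : |η| ≤ 4 * (N : ℤ) ^ 2)
    (F : ℝ → ℂ) (hF : Wt N F) (τ τ' : ℕ × ℕ × ℤ) (hτ : τ ∈ TT P) (hτ' : τ' ∈ TT P)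
    (s k : ℕ) (hs : 1 ≤ s) (hk : 1 ≤ k) (hm : s * k ∈ II N) (hr : τ.2.2 ≠ 0) (hr' : τ'.2.2 ≠ 0)
    (hcop : Nat.Coprime k (τ.2.2.natAbs * τ'.2.2.natAbs * (τ.1 * τ.2.1 * (τ'.1 * τ'.2.1)) * s))
    (ρ : ℕ) (hρ : ρ < M0 τ τ' s) :
    ‖CS F η N τ τ' (s * k) s ρ‖ ≤
      3001 * (((N + 1 : ℝ) / (M0 τ τ' s) + 1) / k + 3 + Real.log k) *
        (2 * (Int.gcd (K0 η τ τ') k : ℝ) * (k : ℝ) ^ 3 * (tau k : ℝ) ^ 3) ^ ((1 : ℝ) / 4) := by
  classical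
  have hτ1 := hτ
  have hτ1' := hτ'
  unfold TT at hτ1 hτ1'
  rw [mem_product, mem_product] at hτ1 hτ1'
  have hp1 : τ.1.Prime := (mem_filter.mp hτ1.1).2
  have hp2 : τ.2.1.Prime := (mem_filter.mp hτ1.2.1).2
  have hp3 : τ'.1.Prime := (mem_filter.mp hτ1'.1).2
  have hp4 : τ'.2.1.Prime := (mem_filter.mp hτ1'.2.1).2
  set R : ℝ := (2 * (Int.gcd (K0 η τ τ') k : ℝ) * (k : ℝ) ^ 3 * (tau k : ℝ) ^ 3) ^ ((1 : ℝ) / 4)
    with hR
  have hR0 : 0 ≤ R := by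
    rw [hR]
    positivity
  have hk0 : (0 : ℝ) < k := by exact_mod_cast hk
  have hlog : 0 ≤ Real.log k := Real.log_nonneg (by exact_mod_cast hk)
  have hM0 : 0 < M0 τ τ' s := by
    unfold M0
    have h1 : 0 < Nat.lcm τ.2.2.natAbs τ'.2.2.natAbs :=
      Nat.lcm_pos (Int.natAbs_pos.mpr hr) (Int.natAbs_pos.mpr hr')
    have h2 := hp1.pos
    have h3 := hp3.pos
    positivity
  have hM0r : (0 : ℝ) < M0 τ τ' s := by exact_mod_cast hM0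
  have hN0 : (0 : ℝ) < N := by exact_mod_cast hN
  have hRHS : 0 ≤ 3001 * (((N + 1 : ℝ) / (M0 τ τ' s) + 1) / k + 3 + Real.log k) * R := by
    positivity
  by_cases hex : ∃ t, Adm N τ.1 τ.2.1 τ.2.2 (s * k) (ρ + M0 τ τ' s * t) ∧
      Adm N τ'.1 τ'.2.1 τ'.2.2 (s * k) (ρ + M0 τ τ' s * t)
  swap
  · have h0 : CS F η N τ τ' (s * k) s ρ = 0 := by
      unfold CS
      refine sum_eq_zero fun t _ => ?_
      by_cases h1 : Adm N τ.1 τ.2.1 τ.2.2 (s * k) (ρ + M0 τ τ' s * t)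
      · have h2 : ¬ Adm N τ'.1 τ'.2.1 τ'.2.2 (s * k) (ρ + M0 τ τ' s * t) :=
          fun h2 => hex ⟨t, h1, h2⟩
        have h3 : gg F η N τ' (s * k) (ρ + M0 τ τ' s * t) = 0 := by
          unfold gg
          rw [if_neg h2]
        rw [h3, map_zero, mul_zero]
      · have h3 : gg F η N τ (s * k) (ρ + M0 τ τ' s * t) = 0 := by
          unfold gg
          rw [if_neg h1]
        rw [h3, zero_mul]
    rw [h0, norm_zero]
    exact hRHS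
  obtain ⟨tst, ha, ha'⟩ := hex
  obtain ⟨c, hc, n0, ν, n1, ν', hform⟩ := cls_formula N hN η F τ τ' hp1 hp2 hp3 hp4 s k hs hk hm
    hcop ρ tst ha ha'
  set M := M0 τ τ' s with hMdef
  have hspk : Nat.Coprime (sp τ τ' s) k := by
    refine Nat.Coprime.symm (hcop.coprime_dvd_right ?_)
    unfold sp
    exact ⟨τ.2.2.natAbs * τ'.2.2.natAbs, by ring⟩
  have hMk : Nat.Coprime M k := by
    refine Nat.Coprime.symm (hcop.coprime_dvd_right ?_)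
    rw [hMdef]
    unfold M0
    obtain ⟨u, hu⟩ := Nat.lcm_dvd_mul τ.2.2.natAbs τ'.2.2.natAbs
    refine ⟨u * (τ.2.1 * τ'.2.1), ?_⟩
    rw [hu]
    ring
  -- the index set
  set J := (range (2 * N + 2)).filter (fun t => ρ + M * t ∈ II N ∧
    (((N : ℤ) < n0 + ν * t ∧ n0 + ν * t ≤ 2 * N + 1) ∧
      ((N : ℤ) < n1 + ν' * t ∧ n1 + ν' * t ≤ 2 * N + 1))) with hJ
  have hCS : CS F η N τ τ' (s * k) s ρ = ∑ t ∈ J, if Nat.Coprime (ρ + M * t) k then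
      c * GG F ((s * k : ℕ) : ℝ) (cc η τ (s * k)) (cc η τ' (s * k))
        ((ρ : ℝ) + (M : ℝ) * t) ((n0 : ℝ) + (ν : ℝ) * t) ((n1 : ℝ) + (ν' : ℝ) * t) *
          kf k (K0 η τ τ') (sp τ τ' s * (ρ + M * t)) else 0 := by
    have h1 : J = ((range (2 * N + 2)).filter (fun t => ρ + M * t ∈ II N)).filter
        (fun t : ℕ => ((N : ℤ) < n0 + ν * t ∧ n0 + ν * t ≤ 2 * N + 1) ∧
          ((N : ℤ) < n1 + ν' * t ∧ n1 + ν' * t ≤ 2 * N + 1)) := by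
      rw [hJ, filter_filter]
    rw [h1, sum_filter]
    unfold CS
    rw [← hMdef]
    refine sum_congr rfl fun t ht => ?_
    rw [hform t (mem_filter.mp ht).2]
    by_cases h2 : ((N : ℤ) < n0 + ν * t ∧ n0 + ν * t ≤ 2 * N + 1) ∧
        ((N : ℤ) < n1 + ν' * t ∧ n1 + ν' * t ≤ 2 * N + 1)
    · rw [if_pos h2]
      by_cases h3 : Nat.Coprime (ρ + M * t) k
      · rw [if_pos h3, if_pos ⟨h2.1, h2.2, h3⟩]
      · rw [if_neg h3, if_neg (fun h => h3 h.2.2)]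
    · rw [if_neg h2, if_neg (fun h => h2 ⟨h.1, h.2.1⟩)]
  rw [hCS]
  rcases J.eq_empty_or_nonempty with hJe | hJne
  · rw [hJe, sum_empty, norm_zero]
    exact hRHS
  obtain ⟨t0, T, hJT⟩ := clsB_conv J hJne (by
    intro a ha c hc b hab hbc
    rw [hJ, mem_filter, mem_range] at ha hc ⊢
    refine ⟨by omega, ?_, clsB_aff _ _ _ _ a b c hab hbc ha.2.2.1 hc.2.2.1,
      clsB_aff _ _ _ _ a b c hab hbc ha.2.2.2 hc.2.2.2⟩
    have h1 := ha.2.1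
    have h2 := hc.2.1
    unfold II at h1 h2 ⊢
    rw [mem_Ioc] at h1 h2 ⊢
    have h3 : M * a ≤ M * b := Nat.mul_le_mul_left _ hab
    have h4 : M * b ≤ M * c := Nat.mul_le_mul_left _ hbc
    omega)
  have hmem : ∀ j, j < T + 1 → t0 + j ∈ J := by
    intro j hj
    rw [hJT, mem_Ico]
    omega
  have hprop : ∀ j, j < T + 1 → (N < ρ + M * (t0 + j) ∧ ρ + M * (t0 + j) ≤ 2 * N + 1) ∧
      (((N : ℤ) < n0 + ν * (t0 + j : ℕ) ∧ n0 + ν * (t0 + j : ℕ) ≤ 2 * N + 1) ∧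
      ((N : ℤ) < n1 + ν' * (t0 + j : ℕ) ∧ n1 + ν' * (t0 + j : ℕ) ≤ 2 * N + 1)) := by
    intro j hj
    have h1 := hmem j hj
    rw [hJ, mem_filter] at h1
    have h2 := h1.2.1
    unfold II at h2
    rw [mem_Ioc] at h2
    exact ⟨h2, h1.2.2⟩
  have hTb : ((T + 1 : ℕ) : ℝ) ≤ (N + 1 : ℝ) / M + 1 := by
    have h1 := (hprop 0 (by omega)).1.1
    have h2 := (hprop T (by omega)).1.2
    have h3 : M * T ≤ N := by
      have h4 : M * (t0 + T) = M * (t0 + 0) + M * T := by ring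
      omega
    have h5 : (M : ℝ) * T ≤ N := by exact_mod_cast h3
    have h6 : (T : ℝ) ≤ (N + 1 : ℝ) / M := by
      rw [le_div_iff₀ hM0r]
      linarith only [h5]
    push_cast
    linarith only [h6]
  rw [hJT, sum_Ico_eq_sum_range, Nat.add_sub_cancel_left]
  set G : ℕ → ℂ := fun j => GG F ((s * k : ℕ) : ℝ) (cc η τ (s * k)) (cc η τ' (s * k))
    (((ρ : ℝ) + (M : ℝ) * t0) + (M : ℝ) * j) (((n0 : ℝ) + (ν : ℝ) * t0) + (ν : ℝ) * j)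
    (((n1 : ℝ) + (ν' : ℝ) * t0) + (ν' : ℝ) * j) with hG
  set f : ℕ → ℂ := fun j => if Nat.Coprime (ρ + M * (t0 + j)) k then
    kf k (K0 η τ τ') (sp τ τ' s * (ρ + M * (t0 + j))) else 0 with hf
  have hsum : (∑ j ∈ range (T + 1), if Nat.Coprime (ρ + M * (t0 + j)) k then
      c * GG F ((s * k : ℕ) : ℝ) (cc η τ (s * k)) (cc η τ' (s * k))
        ((ρ : ℝ) + (M : ℝ) * (t0 + j : ℕ)) ((n0 : ℝ) + (ν : ℝ) * (t0 + j : ℕ))
        ((n1 : ℝ) + (ν' : ℝ) * (t0 + j : ℕ)) *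
          kf k (K0 η τ τ') (sp τ τ' s * (ρ + M * (t0 + j))) else 0) =
      c * ∑ j ∈ range (T + 1), G j * f j := by
    rw [mul_sum]
    refine sum_congr rfl fun j _ => ?_
    rw [hG, hf]
    by_cases h3 : Nat.Coprime (ρ + M * (t0 + j)) k
    · simp only [if_pos h3]
      have e1 : (ρ : ℝ) + (M : ℝ) * (t0 + j : ℕ) = ((ρ : ℝ) + (M : ℝ) * t0) + (M : ℝ) * j := by
        push_cast
        ring
      have e2 : (n0 : ℝ) + (ν : ℝ) * (t0 + j : ℕ) = ((n0 : ℝ) + (ν : ℝ) * t0) + (ν : ℝ) * j := by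
        push_cast
        ring
      have e3 : (n1 : ℝ) + (ν' : ℝ) * (t0 + j : ℕ) =
          ((n1 : ℝ) + (ν' : ℝ) * t0) + (ν' : ℝ) * j := by
        push_cast
        ring
      rw [e1, e2, e3]
      ring
    · simp only [if_neg h3, mul_zero]
  rw [hsum, norm_mul, hc, one_mul]
  have hm' := hm
  unfold II at hm'
  rw [mem_Ioc] at hm'
  have hNr : (1 : ℝ) ≤ N := by exact_mod_cast hN
  have hcast : ∀ x : ℝ, (N : ℝ) < x ∧ x ≤ 2 * N + 1 → (N : ℝ) ≤ x ∧ x ≤ 3 * N := by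
    intro x hx
    exact ⟨hx.1.le, by linarith only [hNr, hx, hx.2]⟩
  obtain ⟨hG1, hG2⟩ := tv N hN F hF ((s * k : ℕ) : ℝ) (cc η τ (s * k)) (cc η τ' (s * k))
    (by exact_mod_cast hm'.1.le)
    (by
      have h1 : ((s * k : ℕ) : ℝ) ≤ 2 * N + 1 := by exact_mod_cast hm'.2
      linarith only [hNr, h1])
    (clsB_cc N P hN η hη τ hτ _ hm) (clsB_cc N P hN η hη τ' hτ' _ hm) (T + 1)
    ((ρ : ℝ) + (M : ℝ) * t0) M ((n0 : ℝ) + (ν : ℝ) * t0) ν ((n1 : ℝ) + (ν' : ℝ) * t0) ν'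
    (by
      intro t ht
      apply hcast
      have h1 := (hprop t ht).1
      have h2 : (N : ℝ) < (ρ : ℝ) + (M : ℝ) * ((t0 : ℝ) + t) := by exact_mod_cast h1.1
      have h3 : (ρ : ℝ) + (M : ℝ) * ((t0 : ℝ) + t) ≤ 2 * N + 1 := by exact_mod_cast h1.2
      constructor <;> linarith only [h2, h3])
    (by
      intro t ht
      apply hcast
      have h1 := (hprop t ht).2.1
      push_cast at h1
      have h2 : (N : ℝ) < (n0 : ℝ) + (ν : ℝ) * ((t0 : ℝ) + t) := by exact_mod_cast h1.1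
      have h3 : (n0 : ℝ) + (ν : ℝ) * ((t0 : ℝ) + t) ≤ 2 * N + 1 := by exact_mod_cast h1.2
      constructor <;> linarith only [h2, h3])
    (by
      intro t ht
      apply hcast
      have h1 := (hprop t ht).2.2
      push_cast at h1
      have h2 : (N : ℝ) < (n1 : ℝ) + (ν' : ℝ) * ((t0 : ℝ) + t) := by exact_mod_cast h1.1
      have h3 : (n1 : ℝ) + (ν' : ℝ) * ((t0 : ℝ) + t) ≤ 2 * N + 1 := by exact_mod_cast h1.2
      constructor <;> linarith only [h2, h3])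
  have hB : ∀ j ≤ T + 1, ‖∑ t ∈ range j, f t‖ ≤
      (((N + 1 : ℝ) / M + 1) / k + 3 + Real.log k) * R := by
    intro j hj
    have h1 : ∑ t ∈ range j, f t = ∑ t ∈ (range j).filter (fun t => Nat.Coprime
        (sp τ τ' s * (ρ + M * t0) + sp τ τ' s * M * t) k),
        kf k (K0 η τ τ') (sp τ τ' s * (ρ + M * t0) + sp τ τ' s * M * t) := by
      rw [sum_filter]
      refine sum_congr rfl fun t _ => ?_
      have e1 : sp τ τ' s * (ρ + M * t0) + sp τ τ' s * M * t =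
          sp τ τ' s * (ρ + M * (t0 + t)) := by ring
      rw [hf, e1]
      by_cases h3 : Nat.Coprime (ρ + M * (t0 + t)) k
      · simp only [if_pos h3]
        rw [if_pos (Nat.Coprime.mul_left hspk h3)]
      · simp only [if_neg h3]
        rw [if_neg]
        intro h4
        exact h3 (Nat.Coprime.coprime_mul_left h4)
    rw [h1]
    refine (kl_incomplete k hk (K0 η τ τ') (sp τ τ' s * M) (sp τ τ' s * (ρ + M * t0)) j
      (Nat.Coprime.mul_left hspk hMk)).trans ?_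
    refine mul_le_mul_of_nonneg_right ?_ hR0
    have h2 : (j : ℝ) ≤ (N + 1 : ℝ) / M + 1 := by
      refine le_trans ?_ hTb
      exact_mod_cast hj
    have h3 : (j : ℝ) / k ≤ ((N + 1 : ℝ) / M + 1) / k := div_le_div_of_nonneg_right h2 hk0.le
    linarith only [h3]
  have hfin := abel_bv f G (T + 1) _ 3000 hB hG1 hG2
  refine hfin.trans (le_of_eq ?_)
  ring

end Pool.Agent.H80.KF

end

section

/-!
# The sum over `m₂`

If `r = 0` or `r' = 0` the sum is zero.  Let `m₁ = s k`, `s = pt (|r||r'|p₁p₂p₃p₄) m₁`,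
`k = m₁/s`.  Write `m₂ = ρ + M₀ t`.  By `cls_card` (`s p₁p₃ ≤ 16 P² s`) and `cls_bound`
the sum is at most `16P² s · 3001 (…) (2 (K₀,k) k³ τ(k)³)^{1/4}`; `M₀ ≥ s`, `k ≥ N/s`, so
`((N+1)/M₀ + 1)/k ≤ 5`; `k³ ≤ (3N/s)³`, `τ(k) ≤ τ(m₁)`, and `s (K₀,k)` divides `m₁` and
is composed of primes dividing `B₀`, so `s (K₀,k) ≤ pt B₀ m₁` (`dvd_pt`; `s` and `k` are coprime).
-/

set_option autoImplicit false

namespace Pool.Agent.H80.KF

open Finset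

/-- decomposition of the sum over `m₂` into residue classes -/
private theorem inner_classes (N M : ℕ) (hM : 1 ≤ M) (g : ℕ → ℂ) :
    ∑ m2 ∈ II N, g m2 =
      ∑ ρ ∈ range M, ∑ t ∈ (range (2 * N + 2)).filter (fun t => ρ + M * t ∈ II N), g (ρ + M * t) := by
  rw [Finset.sum_sigma']
  refine Finset.sum_bij' (fun m _ => (⟨m % M, m / M⟩ : (_ : ℕ) × ℕ)) (fun x _ => x.1 + M * x.2) ?_ ?_ ?_ ?_ ?_
  · intro m hm
    have h1 : m ≤ 2 * N + 1 := (mem_Ioc.1 hm).2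
    rw [mem_sigma]
    refine ⟨mem_range.2 (Nat.mod_lt _ hM), ?_⟩
    rw [mem_filter]
    refine ⟨mem_range.2 ?_, ?_⟩
    · exact lt_of_le_of_lt ((Nat.div_le_self m M).trans h1) (Nat.lt_succ_self _)
    · rw [Nat.mod_add_div]
      exact hm
  · intro x hx
    rw [mem_sigma, mem_filter] at hx
    exact hx.2.2
  · intro m _
    exact Nat.mod_add_div m M
  · intro x hx
    rw [mem_sigma] at hx
    have h1 : x.1 < M := mem_range.1 hx.1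
    have h2 : (x.1 + M * x.2) % M = x.1 := by
      rw [Nat.add_mul_mod_self_left, Nat.mod_eq_of_lt h1]
    have h3 : (x.1 + M * x.2) / M = x.2 := by
      rw [Nat.add_mul_div_left _ _ hM, Nat.div_eq_of_lt h1, Nat.zero_add]
    obtain ⟨x1, x2⟩ := x
    simp only at h2 h3
    simp only [h2, h3]
  · intro m _
    rw [Nat.mod_add_div]

private theorem inner_prime_pt {B m p : ℕ} (hp : p.Prime) (h : p ∣ pt B m) : p ∣ B := by
  unfold pt at h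
  obtain ⟨q, hq, hd⟩ := (Nat.Prime.prime hp).exists_mem_finset_dvd h
  rw [mem_filter] at hq
  have h1 : p ∣ q := hp.dvd_of_dvd_pow hd
  have h2 : q.Prime := Nat.prime_of_mem_primeFactors hq.1
  rw [(Nat.prime_dvd_prime_iff_eq hp h2).1 h1]
  exact hq.2

private theorem inner_mem_PP {P p : ℕ} (h : p ∈ PP P) : p.Prime ∧ p ≤ 4 * P := by
  unfold PP at h
  rw [mem_filter, mem_Ioc] at h
  exact ⟨h.2, h.1.2⟩

theorem inner (N P : ℕ) (hN : 1 ≤ N) (hP : 1 ≤ P) (η : ℤ) (hη : |η| ≤ 4 * (N : ℤ) ^ 2)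
    (F : ℝ → ℂ) (hF : Wt N F) (τ τ' : ℕ × ℕ × ℤ) (hτ : τ ∈ TT P) (hτ' : τ' ∈ TT P)
    (hK : K0 η τ τ' ≠ 0) (m1 : ℕ) (hm : m1 ∈ II N) :
    ‖∑ m2 ∈ II N, gg F η N τ m1 m2 * (starRingEnd ℂ) (gg F η N τ' m1 m2)‖ ≤
      10 ^ 7 * (P : ℝ) ^ 2 * (N : ℝ) ^ ((3 : ℝ) / 4) * (Real.log N + 1) *
        ((pt (B0 η τ τ') m1 : ℕ) : ℝ) ^ ((1 : ℝ) / 4) * (tau m1 : ℝ) ^ ((3 : ℝ) / 4) := by
  have hN1 : (1 : ℝ) ≤ N := by exact_mod_cast hN
  have hlogN : 0 ≤ Real.log N := Real.log_nonneg hN1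
  have hR0 : 0 ≤ 10 ^ 7 * (P : ℝ) ^ 2 * (N : ℝ) ^ ((3 : ℝ) / 4) * (Real.log N + 1) *
        ((pt (B0 η τ τ') m1 : ℕ) : ℝ) ^ ((1 : ℝ) / 4) * (tau m1 : ℝ) ^ ((3 : ℝ) / 4) := by
    positivity
  by_cases hr : τ.2.2 = 0
  · rw [Finset.sum_eq_zero, norm_zero]
    · exact hR0
    · intro m2 _
      have : gg F η N τ m1 m2 = 0 := by
        unfold gg
        rw [if_neg]
        intro h
        exact h.2.2.2.1 hr
      rw [this, zero_mul]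
  by_cases hr' : τ'.2.2 = 0
  · rw [Finset.sum_eq_zero, norm_zero]
    · exact hR0
    · intro m2 _
      have : gg F η N τ' m1 m2 = 0 := by
        unfold gg
        rw [if_neg]
        intro h
        exact h.2.2.2.1 hr'
      rw [this, map_zero, mul_zero]
  -- primes
  have hT := hτ
  have hT' := hτ'
  unfold TT at hT hT'
  rw [mem_product, mem_product] at hT hT'
  obtain ⟨hp1, hp1'⟩ := inner_mem_PP hT.1
  obtain ⟨hp2, hp2'⟩ := inner_mem_PP hT.2.1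
  obtain ⟨hp3, hp3'⟩ := inner_mem_PP hT'.1
  obtain ⟨hp4, hp4'⟩ := inner_mem_PP hT'.2.1
  -- m1
  have hm1 : N + 1 ≤ m1 := (mem_Ioc.1 hm).1
  have hm2 : m1 ≤ 2 * N + 1 := (mem_Ioc.1 hm).2
  have hm0 : m1 ≠ 0 := by omega
  set B : ℕ := τ.2.2.natAbs * τ'.2.2.natAbs * (τ.1 * τ.2.1 * (τ'.1 * τ'.2.1)) with hB
  have hrn : τ.2.2.natAbs ≠ 0 := Int.natAbs_ne_zero.2 hr
  have hrn' : τ'.2.2.natAbs ≠ 0 := Int.natAbs_ne_zero.2 hr'
  have hB0 : B ≠ 0 := by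
    rw [hB]
    exact mul_ne_zero (mul_ne_zero hrn hrn') (mul_ne_zero (mul_ne_zero hp1.ne_zero hp2.ne_zero)
      (mul_ne_zero hp3.ne_zero hp4.ne_zero))
  obtain ⟨k, hk⟩ := pt_dvd B m1 hm0
  set s : ℕ := pt B m1 with hs
  have hs1 : 1 ≤ s := pt_pos B m1
  have hk1 : 1 ≤ k := by
    rcases Nat.eq_zero_or_pos k with h | h
    · exfalso
      apply hm0
      rw [hk, h, mul_zero]
    · exact h
  have hdiv : m1 / s = k := by
    rw [hk]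
    exact Nat.mul_div_cancel_left k hs1
  have hcp := pt_coprime B m1 hB0 hm0
  rw [← hs, hdiv] at hcp
  have hcop : Nat.Coprime k (τ.2.2.natAbs * τ'.2.2.natAbs * (τ.1 * τ.2.1 * (τ'.1 * τ'.2.1)) * s) :=
    Nat.Coprime.mul_right hcp.1 hcp.2
  -- the modulus
  have hlcm : 1 ≤ Nat.lcm τ.2.2.natAbs τ'.2.2.natAbs :=
    Nat.lcm_pos (Nat.pos_of_ne_zero hrn) (Nat.pos_of_ne_zero hrn')
  have hpp : 1 ≤ τ.1 * τ'.1 := Nat.mul_pos hp1.pos hp3.pos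
  have hMs : s ≤ M0 τ τ' s := by
    unfold M0
    calc s = 1 * (s * 1) := by ring
      _ ≤ _ := Nat.mul_le_mul hlcm (Nat.mul_le_mul le_rfl hpp)
  have hM1 : 1 ≤ M0 τ τ' s := hs1.trans hMs
  have hmII : s * k ∈ II N := by rw [← hk]; exact hm
  -- decomposition
  rw [inner_classes N (M0 τ τ' s) hM1]
  have hCS : ∑ ρ ∈ range (M0 τ τ' s), ∑ t ∈ (range (2 * N + 2)).filter (fun t => ρ + M0 τ τ' s * t ∈ II N),
      gg F η N τ m1 (ρ + M0 τ τ' s * t) * (starRingEnd ℂ) (gg F η N τ' m1 (ρ + M0 τ τ' s * t)) =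
      ∑ ρ ∈ range (M0 τ τ' s), CS F η N τ τ' m1 s ρ := rfl
  rw [hCS]
  set X : ℝ := 3001 * (((N + 1 : ℝ) / (M0 τ τ' s) + 1) / k + 3 + Real.log k) *
        (2 * (Int.gcd (K0 η τ τ') k : ℝ) * (k : ℝ) ^ 3 * (tau k : ℝ) ^ 3) ^ ((1 : ℝ) / 4) with hX
  have hkR : (1 : ℝ) ≤ k := by exact_mod_cast hk1
  have hsR : (1 : ℝ) ≤ s := by exact_mod_cast hs1
  have hMR : (1 : ℝ) ≤ M0 τ τ' s := by exact_mod_cast hM1
  have hlogk : 0 ≤ Real.log k := Real.log_nonneg hkR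
  have hX0 : 0 ≤ X := by
    rw [hX]
    positivity
  have hsum : ‖∑ ρ ∈ range (M0 τ τ' s), CS F η N τ τ' m1 s ρ‖ ≤ ((s * (τ.1 * τ'.1) : ℕ) : ℝ) * X := by
    have h1 : ∑ ρ ∈ range (M0 τ τ' s), CS F η N τ τ' m1 s ρ =
        ∑ ρ ∈ (range (M0 τ τ' s)).filter (fun ρ => CS F η N τ τ' m1 s ρ ≠ 0), CS F η N τ τ' m1 s ρ :=
      (Finset.sum_filter_ne_zero _).symm
    rw [h1]
    refine (norm_sum_le _ _).trans ?_
    have h2 : ∑ ρ ∈ (range (M0 τ τ' s)).filter (fun ρ => CS F η N τ τ' m1 s ρ ≠ 0), ‖CS F η N τ τ' m1 s ρ‖ ≤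
        ∑ _ρ ∈ (range (M0 τ τ' s)).filter (fun ρ => CS F η N τ τ' m1 s ρ ≠ 0), X := by
      refine Finset.sum_le_sum fun ρ hρ => ?_
      have h3 := cls_bound N P hN hP η hη F hF τ τ' hτ hτ' s k hs1 hk1 hmII hr hr' hcop ρ
        (mem_range.1 (mem_filter.1 hρ).1)
      rw [← hk] at h3
      exact h3
    refine h2.trans ?_
    rw [Finset.sum_const, nsmul_eq_mul]
    refine mul_le_mul_of_nonneg_right ?_ hX0
    exact_mod_cast cls_card N P η F τ τ' hτ hτ' m1 s hs1 hr hr'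
  refine hsum.trans ?_
  -- the factor before the root
  have hfac : ((N + 1 : ℝ) / (M0 τ τ' s) + 1) / k + 3 + Real.log k ≤ 7 * (Real.log N + 1) := by
    have h1 : (N + 1 : ℝ) / (M0 τ τ' s) / k ≤ 1 := by
      rw [div_div, div_le_one (by positivity)]
      have h2 : (N + 1 : ℝ) ≤ s * k := by
        rw [hk] at hm1
        exact_mod_cast hm1
      refine h2.trans (mul_le_mul_of_nonneg_right ?_ (by positivity))
      exact_mod_cast hMs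
    have h2 : (1 : ℝ) / k ≤ 1 := by
      rw [div_le_one (by positivity)]
      exact hkR
    have h3 : Real.log k ≤ Real.log N + 2 := by
      have h4 : (k : ℝ) ≤ 3 * N := by
        have h5 : k ≤ 3 * N := by
          have : k ≤ m1 := by
            rw [hk]
            exact Nat.le_mul_of_pos_left k hs1
          omega
        exact_mod_cast h5
      have h6 : Real.log k ≤ Real.log (3 * N) := Real.log_le_log (by positivity) h4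
      rw [Real.log_mul (by norm_num) (by positivity)] at h6
      have h7 : Real.log 3 ≤ 2 := by
        have := Real.log_le_sub_one_of_pos (show (0 : ℝ) < 3 by norm_num)
        linarith only [this]
      linarith
    rw [add_div]
    linarith
  -- the root
  have hsg : s * Int.gcd (K0 η τ τ') k ≤ pt (B0 η τ τ') m1 := by
    refine Nat.le_of_dvd (pt_pos _ _) (dvd_pt _ _ _ hm0 ?_ ?_)
    · rw [hk]
      refine Nat.mul_dvd_mul_left s ?_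
      have := Int.gcd_dvd_right (K0 η τ τ') (k : ℤ)
      exact_mod_cast this
    · intro p hp hpd
      rcases (Nat.Prime.dvd_mul hp).1 hpd with h | h
      · have h1 : p ∣ B := inner_prime_pt hp h
        refine h1.trans ?_
        rw [hB]
        unfold B0
        exact ⟨(K0 η τ τ').natAbs, by ring⟩
      · have h1 : ((p : ℕ) : ℤ) ∣ K0 η τ τ' := by
          refine (Int.natCast_dvd_natCast.2 h).trans ?_
          exact Int.gcd_dvd_left (K0 η τ τ') (k : ℤ)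
        have h2 : p ∣ (K0 η τ τ').natAbs := Int.natCast_dvd.1 h1
        refine h2.trans ?_
        unfold B0
        rw [mul_assoc]
        exact Dvd.intro _ rfl
  have htau : tau k ≤ tau m1 := by
    unfold tau
    refine Finset.card_le_card (Nat.divisors_subset_of_dvd hm0 ?_)
    rw [hk]
    exact Nat.dvd_mul_left k s
  have hm3 : (m1 : ℝ) ≤ 3 * N := by
    have : m1 ≤ 3 * N := by omega
    exact_mod_cast this
  have hsgR : (s : ℝ) * (Int.gcd (K0 η τ τ') k : ℝ) ≤ ((pt (B0 η τ τ') m1 : ℕ) : ℝ) := by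
    exact_mod_cast hsg
  have htauR : (tau k : ℝ) ≤ tau m1 := by exact_mod_cast htau
  have hroot : (s : ℝ) * (2 * (Int.gcd (K0 η τ τ') k : ℝ) * (k : ℝ) ^ 3 * (tau k : ℝ) ^ 3) ^ ((1 : ℝ) / 4) ≤
      3 * ((N : ℝ) ^ ((3 : ℝ) / 4) * ((pt (B0 η τ τ') m1 : ℕ) : ℝ) ^ ((1 : ℝ) / 4) *
        (tau m1 : ℝ) ^ ((3 : ℝ) / 4)) := by
    have e1 : (s : ℝ) = ((s : ℝ) ^ 4) ^ ((1 : ℝ) / 4) := by
      rw [← Real.rpow_natCast, ← Real.rpow_mul (by positivity)]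
      norm_num
    have e2 : (s : ℝ) * (2 * (Int.gcd (K0 η τ τ') k : ℝ) * (k : ℝ) ^ 3 * (tau k : ℝ) ^ 3) ^ ((1 : ℝ) / 4) =
        (2 * ((s : ℝ) * (Int.gcd (K0 η τ τ') k : ℝ)) * (m1 : ℝ) ^ 3 * (tau k : ℝ) ^ 3) ^ ((1 : ℝ) / 4) := by
      conv_lhs => rw [e1]
      rw [← Real.mul_rpow (by positivity) (by positivity)]
      congr 1
      have : (m1 : ℝ) = s * k := by exact_mod_cast hk
      rw [this]
      ring
    have e3 : 3 * ((N : ℝ) ^ ((3 : ℝ) / 4) * ((pt (B0 η τ τ') m1 : ℕ) : ℝ) ^ ((1 : ℝ) / 4) *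
        (tau m1 : ℝ) ^ ((3 : ℝ) / 4)) =
        (81 * (N : ℝ) ^ 3 * ((pt (B0 η τ τ') m1 : ℕ) : ℝ) * (tau m1 : ℝ) ^ 3) ^ ((1 : ℝ) / 4) := by
      rw [Real.mul_rpow (by positivity) (by positivity), Real.mul_rpow (by positivity) (by positivity),
        Real.mul_rpow (by positivity) (by positivity)]
      have f1 : ((81 : ℝ)) ^ ((1 : ℝ) / 4) = 3 := by
        rw [show (81 : ℝ) = 3 ^ (4 : ℕ) by norm_num, ← Real.rpow_natCast, ← Real.rpow_mul (by norm_num)]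
        norm_num
      have f2 : ((N : ℝ) ^ 3) ^ ((1 : ℝ) / 4) = (N : ℝ) ^ ((3 : ℝ) / 4) := by
        rw [← Real.rpow_natCast, ← Real.rpow_mul (by positivity)]
        norm_num
      have f3 : ((tau m1 : ℝ) ^ 3) ^ ((1 : ℝ) / 4) = (tau m1 : ℝ) ^ ((3 : ℝ) / 4) := by
        rw [← Real.rpow_natCast, ← Real.rpow_mul (by positivity)]
        norm_num
      rw [f1, f2, f3]
      ring
    rw [e2, e3]
    refine Real.rpow_le_rpow (by positivity) ?_ (by norm_num)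
    calc 2 * ((s : ℝ) * (Int.gcd (K0 η τ τ') k : ℝ)) * (m1 : ℝ) ^ 3 * (tau k : ℝ) ^ 3
        ≤ 2 * ((pt (B0 η τ τ') m1 : ℕ) : ℝ) * (3 * N) ^ 3 * (tau m1 : ℝ) ^ 3 := by gcongr
      _ ≤ 81 * (N : ℝ) ^ 3 * ((pt (B0 η τ τ') m1 : ℕ) : ℝ) * (tau m1 : ℝ) ^ 3 := by
        have : 0 ≤ (N : ℝ) ^ 3 * ((pt (B0 η τ τ') m1 : ℕ) : ℝ) * (tau m1 : ℝ) ^ 3 := by positivity
        nlinarith only [this]
  have hp13 : ((τ.1 * τ'.1 : ℕ) : ℝ) ≤ 16 * (P : ℝ) ^ 2 := by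
    have : τ.1 * τ'.1 ≤ (4 * P) * (4 * P) := Nat.mul_le_mul hp1' hp3'
    calc ((τ.1 * τ'.1 : ℕ) : ℝ) ≤ (((4 * P) * (4 * P) : ℕ) : ℝ) := by exact_mod_cast this
      _ = 16 * (P : ℝ) ^ 2 := by push_cast; ring
  set Y : ℝ := (N : ℝ) ^ ((3 : ℝ) / 4) * ((pt (B0 η τ τ') m1 : ℕ) : ℝ) ^ ((1 : ℝ) / 4) *
        (tau m1 : ℝ) ^ ((3 : ℝ) / 4) with hY
  have hY0 : 0 ≤ Y := by rw [hY]; positivity
  have hfac0 : 0 ≤ ((N + 1 : ℝ) / (M0 τ τ' s) + 1) / k + 3 + Real.log k := by positivity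
  have hroot0 : 0 ≤ (s : ℝ) * (2 * (Int.gcd (K0 η τ τ') k : ℝ) * (k : ℝ) ^ 3 * (tau k : ℝ) ^ 3) ^ ((1 : ℝ) / 4) := by
    positivity
  calc ((s * (τ.1 * τ'.1) : ℕ) : ℝ) * X
      = 3001 * (((τ.1 * τ'.1 : ℕ) : ℝ)) * ((((N + 1 : ℝ) / (M0 τ τ' s) + 1) / k + 3 + Real.log k) *
        ((s : ℝ) * (2 * (Int.gcd (K0 η τ τ') k : ℝ) * (k : ℝ) ^ 3 * (tau k : ℝ) ^ 3) ^ ((1 : ℝ) / 4))) := by
        rw [hX]
        push_cast
        ring
    _ ≤ 3001 * (16 * (P : ℝ) ^ 2) * ((7 * (Real.log N + 1)) * (3 * Y)) := by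
        refine mul_le_mul ?_ (mul_le_mul hfac hroot hroot0 (by positivity)) (mul_nonneg hfac0 hroot0) (by positivity)
        exact mul_le_mul_of_nonneg_left hp13 (by norm_num)
    _ ≤ 10 ^ 7 * (P : ℝ) ^ 2 * (Real.log N + 1) * Y := by
        have : 0 ≤ (P : ℝ) ^ 2 * (Real.log N + 1) * Y := by positivity
        nlinarith only [hR0]
    _ = _ := by
        rw [hY]
        ring

end Pool.Agent.H80.KF

end

section

/-!
# The bilinear form with Kloosterman fractions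

`P = ⌊N^{1/24}⌋`.  `oo_bound`: if a term of `OO` is nonzero for some `m₁` then `K₀ ≠ 0` (`k0_ne`;
otherwise the inner sum vanishes), so by `inner`, `pt_sum`, the divisor bound
(`Pool.Agent.H92.EH.div_bound`; `1 ≤ B₀ ≤ N^{20}`, `m₁ ≤ 3N`) and `#TT ≤ 9P²(16P+1)`:
`OO ≤ C_ε P⁸ N^{7/4+ε}`.
`lemmaK`: Cauchy in `n`: `|S|² ≤ 2N ∑_n |T_n|²`, then `split`, `cau`, `pp_card_ge`, `pp_card_le`:
`∑_n |T_n|² ≤ C_ε (N³/P + P² N^{2+7/8}) N^ε ≤ C_ε N^{3 - 1/24 + 2ε}`, `|S| ≤ C N^{2-1/48+ε}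
≤ N^{2-1/50}` for large `N`.
-/

set_option autoImplicit false

namespace Pool.Agent.H80.KF

open Finset

private theorem knum_mem_PP {P p : ℕ} (h : p ∈ PP P) : 1 ≤ p ∧ p ≤ 4 * P := by
  unfold PP at h
  rw [mem_filter, mem_Ioc] at h
  exact ⟨h.2.one_lt.le, h.1.2⟩

private theorem knum_mem_TT {P : ℕ} {τ : ℕ × ℕ × ℤ} (h : τ ∈ TT P) :
    (1 ≤ τ.1 ∧ τ.1 ≤ 4 * P) ∧ (1 ≤ τ.2.1 ∧ τ.2.1 ≤ 4 * P) ∧ |τ.2.2| ≤ 8 * (P : ℤ) := by
  unfold TT at h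
  rw [mem_product, mem_product, mem_Icc] at h
  exact ⟨knum_mem_PP h.1, knum_mem_PP h.2.1, abs_le.2 h.2.2⟩

private theorem knum_K0_le {N P : ℕ} {η : ℤ} (hη : |η| ≤ 4 * (N : ℤ) ^ 2) {τ τ' : ℕ × ℕ × ℤ}
    (hτ : τ ∈ TT P) (hτ' : τ' ∈ TT P) : |K0 η τ τ'| ≤ 4096 * (N : ℤ) ^ 2 * (P : ℤ) ^ 4 := by
  obtain ⟨⟨a1, a2⟩, ⟨a3, a4⟩, a5⟩ := knum_mem_TT hτ
  obtain ⟨⟨b1, b2⟩, ⟨b3, b4⟩, b5⟩ := knum_mem_TT hτ'
  have hP : (0 : ℤ) ≤ P := Int.natCast_nonneg P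
  have key : ∀ (p q p' q' : ℕ) (r : ℤ), 1 ≤ p → p ≤ 4 * P → 1 ≤ q → q ≤ 4 * P → p' ≤ 4 * P →
      q' ≤ 4 * P → |r| ≤ 8 * (P : ℤ) →
      |((p : ℤ) - q) * r * p' * q'| ≤ 512 * (P : ℤ) ^ 4 := by
    intro p q p' q' r h1 h2 h3 h4 h5 h6 h7
    rw [abs_mul, abs_mul, abs_mul, Nat.abs_cast, Nat.abs_cast]
    have c1 : |((p : ℤ) - q)| ≤ 4 * P := by
      rw [abs_le]
      constructor <;> omega
    have c2 : (p' : ℤ) ≤ 4 * P := by exact_mod_cast h5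
    have c3 : (q' : ℤ) ≤ 4 * P := by exact_mod_cast h6
    calc |((p : ℤ) - q)| * |r| * p' * q' ≤ (4 * P) * (8 * P) * (4 * P) * (4 * P) := by
          apply mul_le_mul _ c3 (Int.natCast_nonneg _) (by positivity)
          apply mul_le_mul _ c2 (Int.natCast_nonneg _) (by positivity)
          exact mul_le_mul c1 h7 (abs_nonneg _) (by positivity)
      _ = 512 * (P : ℤ) ^ 4 := by ring
  have k1 := key τ.1 τ.2.1 τ'.1 τ'.2.1 τ.2.2 a1 a2 a3 a4 b2 b4 a5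
  have k2 := key τ'.1 τ'.2.1 τ.1 τ.2.1 τ'.2.2 b1 b2 b3 b4 a2 a4 b5
  unfold K0
  rw [abs_mul]
  calc |η| * |((τ.1 : ℤ) - τ.2.1) * τ.2.2 * τ'.1 * τ'.2.1 -
        ((τ'.1 : ℤ) - τ'.2.1) * τ'.2.2 * τ.1 * τ.2.1|
      ≤ (4 * (N : ℤ) ^ 2) * (512 * (P : ℤ) ^ 4 + 512 * (P : ℤ) ^ 4) := by
        apply mul_le_mul hη _ (abs_nonneg _) (by positivity)
        exact (abs_sub _ _).trans (add_le_add k1 k2)
    _ = 4096 * (N : ℤ) ^ 2 * (P : ℤ) ^ 4 := by ring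

private theorem knum_B0_le {N P : ℕ} (hPN : P ≤ N) {η : ℤ} (hη : |η| ≤ 4 * (N : ℤ) ^ 2)
    {τ τ' : ℕ × ℕ × ℤ} (hτ : τ ∈ TT P) (hτ' : τ' ∈ TT P) :
    B0 η τ τ' ≤ 2 ^ 26 * N ^ 12 := by
  obtain ⟨⟨a1, a2⟩, ⟨a3, a4⟩, a5⟩ := knum_mem_TT hτ
  obtain ⟨⟨b1, b2⟩, ⟨b3, b4⟩, b5⟩ := knum_mem_TT hτ'
  have k1 : (K0 η τ τ').natAbs ≤ 4096 * N ^ 2 * P ^ 4 := by
    have := knum_K0_le hη hτ hτ'
    rw [Int.abs_eq_natAbs] at this
    exact_mod_cast this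
  have k2 : τ.2.2.natAbs ≤ 8 * P := by
    rw [Int.abs_eq_natAbs] at a5
    exact_mod_cast a5
  have k3 : τ'.2.2.natAbs ≤ 8 * P := by
    rw [Int.abs_eq_natAbs] at b5
    exact_mod_cast b5
  unfold B0
  calc (K0 η τ τ').natAbs * (τ.2.2.natAbs * τ'.2.2.natAbs) * (τ.1 * τ.2.1 * (τ'.1 * τ'.2.1))
      ≤ (4096 * N ^ 2 * P ^ 4) * ((8 * P) * (8 * P)) * ((4 * P) * (4 * P) * ((4 * P) * (4 * P))) :=
        Nat.mul_le_mul (Nat.mul_le_mul k1 (Nat.mul_le_mul k2 k3))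
          (Nat.mul_le_mul (Nat.mul_le_mul a2 a4) (Nat.mul_le_mul b2 b4))
    _ = 2 ^ 26 * (N ^ 2 * P ^ 10) := by ring
    _ ≤ 2 ^ 26 * (N ^ 2 * N ^ 10) := by
        apply Nat.mul_le_mul_left
        apply Nat.mul_le_mul_left
        exact Nat.pow_le_pow_left hPN 10
    _ = 2 ^ 26 * N ^ 12 := by ring

private theorem knum_gg {F : ℝ → ℂ} {η : ℤ} {N : ℕ} {τ : ℕ × ℕ × ℤ} {m1 m2 : ℕ}
    (h : gg F η N τ m1 m2 ≠ 0) : Adm N τ.1 τ.2.1 τ.2.2 m1 m2 := by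
  by_contra hc
  apply h
  unfold gg
  rw [if_neg hc]

private theorem knum_II {N m : ℕ} (hN : 1 ≤ N) (h : m ∈ II N) : 1 ≤ m ∧ m ≤ 3 * N := by
  unfold II at h
  rw [mem_Ioc] at h
  omega

private theorem knum_TT_card {P : ℕ} (hP : 1 ≤ P) : ((TT P).card : ℝ) ≤ 153 * (P : ℝ) ^ 3 := by
  have hP' : (1 : ℝ) ≤ P := by exact_mod_cast hP
  unfold TT
  rw [card_product, card_product, Int.card_Icc]
  have e : ((8 * (P : ℤ) + 1 - -(8 * P : ℤ)).toNat) = 16 * P + 1 := by omega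
  rw [e]
  push_cast
  have h := pp_card_le P
  have h0 : (0 : ℝ) ≤ ((PP P).card : ℝ) := Nat.cast_nonneg _
  calc ((PP P).card : ℝ) * (((PP P).card : ℝ) * (16 * P + 1))
      ≤ (3 * P) * ((3 * P) * (17 * P)) := by
        apply mul_le_mul h _ (by positivity) (by positivity)
        apply mul_le_mul h _ (by positivity) (by positivity)
        linarith only [hP']
    _ = 153 * (P : ℝ) ^ 3 := by ring

private theorem knum_term {δ C1 : ℝ} (hδ : 0 < δ) (hC1 : 1 ≤ C1)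
    (hdiv : ∀ n : ℕ, 1 ≤ n → (n.divisors.card : ℝ) ≤ C1 * (n : ℝ) ^ δ)
    {N P : ℕ} (hN : 1 ≤ N) (hP : 1 ≤ P) (hPN : P ≤ N) {η : ℤ} (hη0 : η ≠ 0)
    (hη : |η| ≤ 4 * (N : ℤ) ^ 2) {F : ℝ → ℂ} (hF : Wt N F) {τ τ' : ℕ × ℕ × ℤ}
    (hτ : τ ∈ TT P) (hτ' : τ' ∈ TT P) (hd : ¬ Diag τ τ') :
    ∑ m1 ∈ II N, ‖∑ m2 ∈ II N, gg F η N τ m1 m2 * (starRingEnd ℂ) (gg F η N τ' m1 m2)‖ ≤
      10 ^ 7 * (P : ℝ) ^ 2 * (N : ℝ) ^ ((3 : ℝ) / 4) * (Real.log N + 1) * (C1 * (3 * (N : ℝ)) ^ δ) *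
        (3 * N * (C1 * (2 ^ 26 * (N : ℝ) ^ 12) ^ δ) ^ 2) := by
  have hN1 : (1 : ℝ) ≤ N := by exact_mod_cast hN
  have hlog : 0 ≤ Real.log N := Real.log_nonneg hN1
  have hC0 : 0 < C1 := by linarith only [hC1]
  by_cases hex : ∃ m1 ∈ II N, ∃ m2 ∈ II N, gg F η N τ m1 m2 ≠ 0 ∧ gg F η N τ' m1 m2 ≠ 0
  · obtain ⟨m1, _, m2, _, h1, h2⟩ := hex
    have ha := knum_gg h1
    have ha' := knum_gg h2
    have hK : K0 η τ τ' ≠ 0 := k0_ne N P η hη0 τ τ' hτ hτ' hd m1 m2 m1 m2 ha ha'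
    have hr : τ.2.2 ≠ 0 := ha.2.2.2.1
    have hr' : τ'.2.2 ≠ 0 := ha'.2.2.2.1
    obtain ⟨⟨a1, a2⟩, ⟨a3, a4⟩, a5⟩ := knum_mem_TT hτ
    obtain ⟨⟨b1, b2⟩, ⟨b3, b4⟩, b5⟩ := knum_mem_TT hτ'
    have hB1 : 1 ≤ B0 η τ τ' := by
      unfold B0
      have c1 : 0 < (K0 η τ τ').natAbs := Int.natAbs_pos.2 hK
      have c2 : 0 < τ.2.2.natAbs := Int.natAbs_pos.2 hr
      have c3 : 0 < τ'.2.2.natAbs := Int.natAbs_pos.2 hr'
      exact Nat.mul_pos (Nat.mul_pos c1 (Nat.mul_pos c2 c3))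
        (Nat.mul_pos (Nat.mul_pos a1 a3) (Nat.mul_pos b1 b3))
    have hB2 := knum_B0_le hPN hη hτ hτ'
    have htB : (tau (B0 η τ τ') : ℝ) ≤ C1 * (2 ^ 26 * (N : ℝ) ^ 12) ^ δ := by
      refine (hdiv _ hB1).trans ?_
      apply mul_le_mul_of_nonneg_left _ hC0.le
      apply Real.rpow_le_rpow (Nat.cast_nonneg _) _ hδ.le
      exact_mod_cast hB2
    have htm : ∀ m ∈ II N, (tau m : ℝ) ^ ((3 : ℝ) / 4) ≤ C1 * (3 * (N : ℝ)) ^ δ := by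
      intro m hm
      obtain ⟨d1, d2⟩ := knum_II hN hm
      have e1 : (tau m : ℝ) ≤ C1 * (3 * (N : ℝ)) ^ δ := by
        refine (hdiv _ d1).trans ?_
        apply mul_le_mul_of_nonneg_left _ hC0.le
        apply Real.rpow_le_rpow (Nat.cast_nonneg _) _ hδ.le
        exact_mod_cast d2
      have e2 : (1 : ℝ) ≤ (tau m : ℝ) := by
        have : 1 ≤ m.divisors.card := Finset.card_pos.2 ⟨1, Nat.one_mem_divisors.2 (by omega)⟩
        exact_mod_cast this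
      have e3 : (tau m : ℝ) ^ ((3 : ℝ) / 4) ≤ (tau m : ℝ) ^ (1 : ℝ) :=
        Real.rpow_le_rpow_of_exponent_le e2 (by norm_num)
      rw [Real.rpow_one] at e3
      exact e3.trans e1
    calc ∑ m1 ∈ II N, ‖∑ m2 ∈ II N, gg F η N τ m1 m2 * (starRingEnd ℂ) (gg F η N τ' m1 m2)‖
        ≤ ∑ m1 ∈ II N, 10 ^ 7 * (P : ℝ) ^ 2 * (N : ℝ) ^ ((3 : ℝ) / 4) * (Real.log N + 1) *
            (C1 * (3 * (N : ℝ)) ^ δ) * ((pt (B0 η τ τ') m1 : ℕ) : ℝ) ^ ((1 : ℝ) / 4) := by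
          apply Finset.sum_le_sum
          intro m hm
          refine (inner N P hN hP η hη F hF τ τ' hτ hτ' hK m hm).trans ?_
          have f1 : (0 : ℝ) ≤ ((pt (B0 η τ τ') m : ℕ) : ℝ) ^ ((1 : ℝ) / 4) :=
            Real.rpow_nonneg (Nat.cast_nonneg _) _
          calc 10 ^ 7 * (P : ℝ) ^ 2 * (N : ℝ) ^ ((3 : ℝ) / 4) * (Real.log N + 1) *
                ((pt (B0 η τ τ') m : ℕ) : ℝ) ^ ((1 : ℝ) / 4) * (tau m : ℝ) ^ ((3 : ℝ) / 4)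
              ≤ 10 ^ 7 * (P : ℝ) ^ 2 * (N : ℝ) ^ ((3 : ℝ) / 4) * (Real.log N + 1) *
                ((pt (B0 η τ τ') m : ℕ) : ℝ) ^ ((1 : ℝ) / 4) * (C1 * (3 * (N : ℝ)) ^ δ) :=
                mul_le_mul_of_nonneg_left (htm m hm) (by positivity)
            _ = _ := by ring
      _ = 10 ^ 7 * (P : ℝ) ^ 2 * (N : ℝ) ^ ((3 : ℝ) / 4) * (Real.log N + 1) *
            (C1 * (3 * (N : ℝ)) ^ δ) *
            ∑ m1 ∈ II N, ((pt (B0 η τ τ') m1 : ℕ) : ℝ) ^ ((1 : ℝ) / 4) := by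
          rw [Finset.mul_sum]
      _ ≤ _ := by
          apply mul_le_mul_of_nonneg_left _ (by positivity)
          refine (pt_sum N _ hN hB1).trans ?_
          apply mul_le_mul_of_nonneg_left _ (by positivity)
          exact pow_le_pow_left₀ (Nat.cast_nonneg _) htB 2
  · push Not at hex
    have hz : ∑ m1 ∈ II N, ‖∑ m2 ∈ II N,
        gg F η N τ m1 m2 * (starRingEnd ℂ) (gg F η N τ' m1 m2)‖ = 0 := by
      apply Finset.sum_eq_zero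
      intro m1 hm1
      rw [norm_eq_zero]
      apply Finset.sum_eq_zero
      intro m2 hm2
      by_cases h0 : gg F η N τ m1 m2 = 0
      · rw [h0, zero_mul]
      · rw [hex m1 hm1 m2 hm2 h0, map_zero, mul_zero]
    rw [hz]
    positivity

theorem oo_bound (ε : ℝ) (hε : 0 < ε) : ∃ C : ℝ, 0 < C ∧ ∀ N P : ℕ, 1 ≤ N → 1 ≤ P → P ≤ N →
    ∀ η : ℤ, η ≠ 0 → |η| ≤ 4 * (N : ℤ) ^ 2 → ∀ F : ℝ → ℂ, Wt N F →
    OO F η N P ≤ C * (P : ℝ) ^ 8 * (N : ℝ) ^ (7 / 4 + ε) := by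
  obtain ⟨δ, hδe⟩ : ∃ δ : ℝ, δ = ε / 26 := ⟨_, rfl⟩
  have hδ : 0 < δ := by rw [hδe]; positivity
  obtain ⟨C1, hC1, hdiv⟩ := Pool.Agent.H92.EH.div_bound δ hδ
  have hC0 : 0 < C1 := by linarith only [hC1]
  refine ⟨153 ^ 2 * (10 ^ 7 * (1 / δ + 1) * (C1 * 3 ^ δ) * (3 * (C1 * (2 ^ 26) ^ δ) ^ 2)),
    by positivity, ?_⟩
  intro N P hN hP hPN η hη0 hη F hF
  have hN1 : (1 : ℝ) ≤ N := by exact_mod_cast hN
  have hN0 : (0 : ℝ) < N := by linarith only [hN1]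
  have hP1 : (1 : ℝ) ≤ P := by exact_mod_cast hP
  have hlog : 0 ≤ Real.log N := Real.log_nonneg hN1
  obtain ⟨Bd, hBd⟩ : ∃ Bd : ℝ, Bd = 10 ^ 7 * (P : ℝ) ^ 2 * (N : ℝ) ^ ((3 : ℝ) / 4) *
      (Real.log N + 1) * (C1 * (3 * (N : ℝ)) ^ δ) *
        (3 * N * (C1 * (2 ^ 26 * (N : ℝ) ^ 12) ^ δ) ^ 2) := ⟨_, rfl⟩
  have hBd0 : 0 ≤ Bd := by rw [hBd]; positivity
  have h1 : OO F η N P ≤ (153 * (P : ℝ) ^ 3) ^ 2 * Bd := by
    unfold OO
    calc _ ≤ ∑ t ∈ (TT P ×ˢ TT P).filter (fun t => ¬ Diag t.1 t.2), Bd := by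
          apply Finset.sum_le_sum
          intro t ht
          rw [mem_filter, mem_product] at ht
          rw [hBd]
          exact knum_term hδ hC1 hdiv hN hP hPN hη0 hη hF ht.1.1 ht.1.2 ht.2
      _ = (((TT P ×ˢ TT P).filter (fun t => ¬ Diag t.1 t.2)).card : ℝ) * Bd := by
          rw [Finset.sum_const, nsmul_eq_mul]
      _ ≤ (153 * (P : ℝ) ^ 3) ^ 2 * Bd := by
          apply mul_le_mul_of_nonneg_right _ hBd0
          have c1 : (((TT P ×ˢ TT P).filter (fun t => ¬ Diag t.1 t.2)).card : ℝ) ≤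
              ((TT P ×ˢ TT P).card : ℝ) := by exact_mod_cast Finset.card_filter_le _ _
          refine c1.trans ?_
          rw [card_product]
          push_cast
          rw [pow_two]
          exact mul_le_mul (knum_TT_card hP) (knum_TT_card hP) (Nat.cast_nonneg _) (by positivity)
  refine h1.trans ?_
  have hNd : (1 : ℝ) ≤ (N : ℝ) ^ δ := Real.one_le_rpow hN1 hδ.le
  have e1 : Real.log N + 1 ≤ (1 / δ + 1) * (N : ℝ) ^ δ := by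
    have := Real.log_le_rpow_div hN0.le hδ
    have e : (1 / δ + 1) * (N : ℝ) ^ δ = (N : ℝ) ^ δ / δ + (N : ℝ) ^ δ := by ring
    rw [e]
    linarith only [hNd, this]
  have e2 : (3 * (N : ℝ)) ^ δ = 3 ^ δ * (N : ℝ) ^ δ := Real.mul_rpow (by norm_num) hN0.le
  have e3 : (2 ^ 26 * (N : ℝ) ^ 12) ^ δ = (2 ^ 26) ^ δ * (N : ℝ) ^ (12 * δ) := by
    rw [Real.mul_rpow (by norm_num) (by positivity), ← Real.rpow_natCast (N : ℝ) 12,
      ← Real.rpow_mul hN0.le]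
    norm_num
  have e4 : (N : ℝ) ^ (7 / 4 + ε) = (N : ℝ) ^ ((3 : ℝ) / 4) * (N : ℝ) ^ δ * (N : ℝ) ^ δ * N *
      ((N : ℝ) ^ (12 * δ)) ^ 2 := by
    rw [← Real.rpow_natCast ((N : ℝ) ^ (12 * δ)) 2, ← Real.rpow_mul hN0.le,
      ← Real.rpow_add hN0, ← Real.rpow_add hN0, ← Real.rpow_add_one hN0.ne',
      ← Real.rpow_add hN0]
    congr 1
    rw [hδe]
    push_cast
    ring
  rw [hBd, e2, e3, e4]
  calc (153 * (P : ℝ) ^ 3) ^ 2 * (10 ^ 7 * (P : ℝ) ^ 2 * (N : ℝ) ^ ((3 : ℝ) / 4) *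
        (Real.log N + 1) * (C1 * (3 ^ δ * (N : ℝ) ^ δ)) *
        (3 * N * (C1 * ((2 ^ 26) ^ δ * (N : ℝ) ^ (12 * δ))) ^ 2))
      ≤ (153 * (P : ℝ) ^ 3) ^ 2 * (10 ^ 7 * (P : ℝ) ^ 2 * (N : ℝ) ^ ((3 : ℝ) / 4) *
        ((1 / δ + 1) * (N : ℝ) ^ δ) * (C1 * (3 ^ δ * (N : ℝ) ^ δ)) *
        (3 * N * (C1 * ((2 ^ 26) ^ δ * (N : ℝ) ^ (12 * δ))) ^ 2)) := by
        apply mul_le_mul_of_nonneg_left _ (by positivity)
        apply mul_le_mul_of_nonneg_right _ (by positivity)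
        apply mul_le_mul_of_nonneg_right _ (by positivity)
        exact mul_le_mul_of_nonneg_left e1 (by positivity)
    _ = _ := by ring

private theorem knum_W {N P : ℕ} (hN : 1 ≤ N) (hP : 1 ≤ P) (hPN : P ≤ N) {c Λ U O C W e0 : ℝ}
    (hc : (P : ℝ) / Λ ≤ c) (hΛ : 1 ≤ Λ) (hU : 0 ≤ U) (hC : 0 ≤ C)
    (hUO : U ^ 2 ≤ (2 * N) ^ 2 * (2 * ((2 * N) ^ 2 * c ^ 2) + O))
    (hO : O ≤ C * (P : ℝ) ^ 8 * (N : ℝ) ^ (7 / 4 + e0))
    (hW : W ≤ 12 * N / c ^ 2 * (c * (2 * N) ^ 2 + 2 * (2 * N) * c ^ 2 * (2 * N / P + 1) + U)) :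
    W ≤ 120 * (N : ℝ) ^ 3 * Λ / P + 144 * (N : ℝ) ^ 3 / P +
      24 * Real.sqrt C * (N : ℝ) ^ (23 / 8 + e0 / 2) * (P : ℝ) ^ 2 * Λ ^ 2 := by
  have hN1 : (1 : ℝ) ≤ N := by exact_mod_cast hN
  have hN0 : (0 : ℝ) < N := by linarith only [hN1]
  have hP1 : (1 : ℝ) ≤ P := by exact_mod_cast hP
  have hP0 : (0 : ℝ) < P := by linarith only [hP1]
  have hΛ0 : 0 < Λ := by linarith only [hΛ]
  have hc0 : 0 < c := lt_of_lt_of_le (by positivity) hc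
  have hic : 1 / c ≤ Λ / P := by
    rw [div_le_div_iff₀ hc0 hP0]
    rw [div_le_iff₀ hΛ0] at hc
    linarith only [hc]
  obtain ⟨Q, hQ⟩ : ∃ Q : ℝ, Q = Real.sqrt C * (P : ℝ) ^ 4 * (N : ℝ) ^ (7 / 8 + e0 / 2) := ⟨_, rfl⟩
  have hQ0 : 0 ≤ Q := by rw [hQ]; positivity
  have hOQ : O ≤ Q ^ 2 := by
    refine hO.trans (le_of_eq ?_)
    rw [hQ, mul_pow, mul_pow, Real.sq_sqrt hC, ← pow_mul, ← Real.rpow_natCast ((N : ℝ) ^ _) 2,
      ← Real.rpow_mul hN0.le]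
    congr 2
    push_cast
    ring
  have hUle : U ≤ 6 * (N : ℝ) ^ 2 * c + 2 * N * Q := by
    apply (pow_le_pow_iff_left₀ hU (by positivity) two_ne_zero).1
    refine hUO.trans ?_
    have h1 : (2 * (N : ℝ)) ^ 2 * (2 * ((2 * N) ^ 2 * c ^ 2) + O) ≤
        (2 * (N : ℝ)) ^ 2 * (2 * ((2 * N) ^ 2 * c ^ 2) + Q ^ 2) :=
      mul_le_mul_of_nonneg_left (by linarith only [hOQ]) (by positivity)
    refine h1.trans ?_
    have h2 : (6 * (N : ℝ) ^ 2 * c + 2 * N * Q) ^ 2 =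
        (2 * (N : ℝ)) ^ 2 * (2 * ((2 * N) ^ 2 * c ^ 2) + Q ^ 2) +
          (4 * (N : ℝ) ^ 4 * c ^ 2 + 24 * (N : ℝ) ^ 3 * c * Q) := by ring
    rw [h2]
    have h3 : 0 ≤ 4 * (N : ℝ) ^ 4 * c ^ 2 + 24 * (N : ℝ) ^ 3 * c * Q := by positivity
    linarith only [h3]
  have hstep : W ≤ 12 * N / c ^ 2 * (c * (2 * N) ^ 2 + 2 * (2 * N) * c ^ 2 * (2 * N / P + 1) +
      (6 * (N : ℝ) ^ 2 * c + 2 * N * Q)) := by
    refine hW.trans ?_
    apply mul_le_mul_of_nonneg_left _ (by positivity)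
    linarith only [hUle]
  have heq : 12 * (N : ℝ) / c ^ 2 * (c * (2 * N) ^ 2 + 2 * (2 * N) * c ^ 2 * (2 * N / P + 1) +
      (6 * (N : ℝ) ^ 2 * c + 2 * N * Q)) =
      120 * (N : ℝ) ^ 3 * (1 / c) + 24 * (N : ℝ) ^ 2 * Q * (1 / c) ^ 2 +
        96 * (N : ℝ) ^ 3 / P + 48 * (N : ℝ) ^ 2 := by
    field_simp
    ring
  rw [heq] at hstep
  have h1c : 0 ≤ 1 / c := by positivity
  have t1 : 120 * (N : ℝ) ^ 3 * (1 / c) ≤ 120 * (N : ℝ) ^ 3 * (Λ / P) :=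
    mul_le_mul_of_nonneg_left hic (by positivity)
  have t2 : 24 * (N : ℝ) ^ 2 * Q * (1 / c) ^ 2 ≤ 24 * (N : ℝ) ^ 2 * Q * (Λ / P) ^ 2 :=
    mul_le_mul_of_nonneg_left (pow_le_pow_left₀ h1c hic 2) (by positivity)
  have t3 : (N : ℝ) ^ 2 ≤ (N : ℝ) ^ 3 / P := by
    rw [le_div_iff₀ hP0]
    have : (P : ℝ) ≤ N := by exact_mod_cast hPN
    have h5 : (N : ℝ) ^ 2 * P ≤ (N : ℝ) ^ 2 * N := mul_le_mul_of_nonneg_left this (by positivity)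
    calc (N : ℝ) ^ 2 * P ≤ (N : ℝ) ^ 2 * N := h5
      _ = (N : ℝ) ^ 3 := by ring
  have t4 : 24 * (N : ℝ) ^ 2 * Q * (Λ / P) ^ 2 =
      24 * Real.sqrt C * (N : ℝ) ^ (23 / 8 + e0 / 2) * (P : ℝ) ^ 2 * Λ ^ 2 := by
    have e : (N : ℝ) ^ (23 / 8 + e0 / 2) = (N : ℝ) ^ 2 * (N : ℝ) ^ (7 / 8 + e0 / 2) := by
      rw [← Real.rpow_natCast (N : ℝ) 2, ← Real.rpow_add hN0]
      congr 1
      push_cast
      ring
    rw [hQ, e]
    field_simp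
  calc W ≤ _ := hstep
    _ ≤ 120 * (N : ℝ) ^ 3 * (Λ / P) + 24 * (N : ℝ) ^ 2 * Q * (Λ / P) ^ 2 +
        96 * (N : ℝ) ^ 3 / P + 48 * ((N : ℝ) ^ 3 / P) := by linarith only [t1, t2, t3]
    _ = _ := by rw [t4]; ring

private theorem knum_cauchy {N : ℕ} (hN : 1 ≤ N) (β T : ℕ → ℂ) (hβ : ∀ n, ‖β n‖ ≤ 1) :
    ‖∑ n ∈ II N, β n * T n‖ ^ 2 ≤ 2 * N * ∑ n ∈ II N, ‖T n‖ ^ 2 := by
  have h1 : ‖∑ n ∈ II N, β n * T n‖ ≤ ∑ n ∈ II N, ‖T n‖ := by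
    refine (norm_sum_le _ _).trans (Finset.sum_le_sum fun n _ => ?_)
    rw [norm_mul]
    have := mul_le_mul_of_nonneg_right (hβ n) (norm_nonneg (T n))
    rw [one_mul] at this
    exact this
  have h2 : (∑ n ∈ II N, ‖T n‖) ^ 2 ≤ ((II N).card : ℝ) * ∑ n ∈ II N, ‖T n‖ ^ 2 :=
    sq_sum_le_card_mul_sum_sq
  have h3 : ((II N).card : ℝ) ≤ 2 * N := by
    have : (II N).card ≤ 2 * N := by
      unfold II
      rw [Nat.card_Ioc]
      omega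
    exact_mod_cast this
  calc ‖∑ n ∈ II N, β n * T n‖ ^ 2 ≤ (∑ n ∈ II N, ‖T n‖) ^ 2 :=
        pow_le_pow_left₀ (norm_nonneg _) h1 2
    _ ≤ _ := h2
    _ ≤ _ := mul_le_mul_of_nonneg_right h3 (Finset.sum_nonneg fun n _ => by positivity)

private theorem knum_final {N P : ℕ} (hN : 1 ≤ N) {C W Λ : ℝ} (hC : 0 ≤ C)
    (hΛ0 : 0 ≤ Λ) (hΛ : Λ ≤ 10000 * (N : ℝ) ^ ((1 : ℝ) / 10000))
    (hP1 : (P : ℝ) ≤ (N : ℝ) ^ ((1 : ℝ) / 24)) (hP2 : (N : ℝ) ^ ((1 : ℝ) / 24) ≤ 2 * P)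
    (hW : W ≤ 120 * (N : ℝ) ^ 3 * Λ / P + 144 * (N : ℝ) ^ 3 / P +
      24 * Real.sqrt C * (N : ℝ) ^ ((23 : ℝ) / 8 + (1 / 5000) / 2) * (P : ℝ) ^ 2 * Λ ^ 2) :
    W ≤ (2400288 + 2400000000 * Real.sqrt C) * (N : ℝ) ^ ((71 : ℝ) / 24 + 3 / 10000) := by
  have hN1 : (1 : ℝ) ≤ N := by exact_mod_cast hN
  have hN0 : (0 : ℝ) < N := by linarith only [hN1]
  have hx0 : 0 < (N : ℝ) ^ ((1 : ℝ) / 24) := Real.rpow_pos_of_pos hN0 _
  have hP0 : (0 : ℝ) < P := by linarith only [hP2, hx0]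
  obtain ⟨y, hy⟩ : ∃ y : ℝ, y = (N : ℝ) ^ ((1 : ℝ) / 10000) := ⟨_, rfl⟩
  have hy1 : 1 ≤ y := by rw [hy]; exact Real.one_le_rpow hN1 (by norm_num)
  rw [← hy] at hΛ
  have hinv : (N : ℝ) ^ 3 / P ≤ 2 * (N : ℝ) ^ ((71 : ℝ) / 24) := by
    rw [div_le_iff₀ hP0]
    have e : (N : ℝ) ^ 3 = (N : ℝ) ^ ((71 : ℝ) / 24) * (N : ℝ) ^ ((1 : ℝ) / 24) := by
      rw [← Real.rpow_natCast (N : ℝ) 3, ← Real.rpow_add hN0]
      congr 1
      push_cast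
      norm_num
    rw [e]
    calc (N : ℝ) ^ ((71 : ℝ) / 24) * (N : ℝ) ^ ((1 : ℝ) / 24) ≤
          (N : ℝ) ^ ((71 : ℝ) / 24) * (2 * P) := mul_le_mul_of_nonneg_left hP2 (by positivity)
      _ = _ := by ring
  have hE : (N : ℝ) ^ ((71 : ℝ) / 24 + 3 / 10000) = (N : ℝ) ^ ((71 : ℝ) / 24) * y ^ 3 := by
    rw [hy, ← Real.rpow_natCast ((N : ℝ) ^ _) 3, ← Real.rpow_mul hN0.le, ← Real.rpow_add hN0]
    congr 1
    push_cast
    norm_num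
  have hPsq : (N : ℝ) ^ ((23 : ℝ) / 8 + (1 / 5000) / 2) * (P : ℝ) ^ 2 ≤
      (N : ℝ) ^ ((71 : ℝ) / 24) * y := by
    have e : (N : ℝ) ^ ((71 : ℝ) / 24) * y =
        (N : ℝ) ^ ((23 : ℝ) / 8 + (1 / 5000) / 2) * ((N : ℝ) ^ ((1 : ℝ) / 24)) ^ 2 := by
      rw [hy, ← Real.rpow_natCast ((N : ℝ) ^ _) 2, ← Real.rpow_mul hN0.le, ← Real.rpow_add hN0,
        ← Real.rpow_add hN0]
      congr 1
      push_cast
      norm_num
    rw [e]
    exact mul_le_mul_of_nonneg_left (pow_le_pow_left₀ hP0.le hP1 2) (by positivity)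
  rw [hE]
  obtain ⟨G, hG⟩ : ∃ G : ℝ, G = (N : ℝ) ^ ((71 : ℝ) / 24) := ⟨_, rfl⟩
  have hG0 : 0 < G := by rw [hG]; positivity
  rw [← hG] at hinv hPsq ⊢
  have hs0 : 0 ≤ Real.sqrt C := Real.sqrt_nonneg C
  have hy2 : y ≤ y ^ 3 := by
    have : y * 1 ≤ y * (y * y) := mul_le_mul_of_nonneg_left (by nlinarith only [hy1, hΛ0, hΛ]) (by linarith only [hy1])
    calc y = y * 1 := by ring
      _ ≤ y * (y * y) := this
      _ = y ^ 3 := by ring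
  have hy3 : 1 ≤ y ^ 3 := one_le_pow₀ hy1
  have t1 : 120 * (N : ℝ) ^ 3 * Λ / P ≤ 2400000 * (G * y ^ 3) := by
    calc 120 * (N : ℝ) ^ 3 * Λ / P = 120 * Λ * ((N : ℝ) ^ 3 / P) := by ring
      _ ≤ 120 * Λ * (2 * G) := mul_le_mul_of_nonneg_left hinv (by positivity)
      _ ≤ 120 * (10000 * y) * (2 * G) := by
          apply mul_le_mul_of_nonneg_right _ (by positivity)
          exact mul_le_mul_of_nonneg_left hΛ (by norm_num)
      _ = 2400000 * G * y := by ring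
      _ ≤ 2400000 * G * y ^ 3 := mul_le_mul_of_nonneg_left hy2 (by positivity)
      _ = _ := by ring
  have t2 : 144 * (N : ℝ) ^ 3 / P ≤ 288 * (G * y ^ 3) := by
    calc 144 * (N : ℝ) ^ 3 / P = 144 * ((N : ℝ) ^ 3 / P) := by ring
      _ ≤ 144 * (2 * G) := mul_le_mul_of_nonneg_left hinv (by norm_num)
      _ = 288 * G * 1 := by ring
      _ ≤ 288 * G * y ^ 3 := mul_le_mul_of_nonneg_left hy3 (by positivity)
      _ = _ := by ring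
  have t3 : 24 * Real.sqrt C * (N : ℝ) ^ ((23 : ℝ) / 8 + (1 / 5000) / 2) * (P : ℝ) ^ 2 * Λ ^ 2 ≤
      2400000000 * Real.sqrt C * (G * y ^ 3) := by
    calc 24 * Real.sqrt C * (N : ℝ) ^ ((23 : ℝ) / 8 + (1 / 5000) / 2) * (P : ℝ) ^ 2 * Λ ^ 2
        = 24 * Real.sqrt C * Λ ^ 2 *
          ((N : ℝ) ^ ((23 : ℝ) / 8 + (1 / 5000) / 2) * (P : ℝ) ^ 2) := by ring
      _ ≤ 24 * Real.sqrt C * Λ ^ 2 * (G * y) := mul_le_mul_of_nonneg_left hPsq (by positivity)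
      _ ≤ 24 * Real.sqrt C * (10000 * y) ^ 2 * (G * y) := by
          apply mul_le_mul_of_nonneg_right _ (by positivity)
          exact mul_le_mul_of_nonneg_left (pow_le_pow_left₀ hΛ0 hΛ 2) (by positivity)
      _ = _ := by ring
  calc W ≤ _ := hW
    _ ≤ 2400000 * (G * y ^ 3) + 288 * (G * y ^ 3) + 2400000000 * Real.sqrt C * (G * y ^ 3) := by
        linarith only [t1, t2, t3]
    _ = _ := by ring

private theorem knum_large (κ B : ℝ) (hκ : 0 < κ) :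
    ∃ N0 : ℕ, ∀ N : ℕ, N0 ≤ N → B ≤ (N : ℝ) ^ κ := by
  have h := ((tendsto_rpow_atTop hκ).comp
    (tendsto_natCast_atTop_atTop (R := ℝ))).eventually_ge_atTop B
  obtain ⟨N0, h0⟩ := Filter.eventually_atTop.1 h
  exact ⟨N0, fun N hN => h0 N hN⟩

theorem lemmaK : ∃ N0 : ℕ, ∀ N : ℕ, N0 ≤ N → ∀ η : ℤ, η ≠ 0 → |η| ≤ 4 * (N : ℤ) ^ 2 →
    ∀ α β : ℕ → ℂ, (∀ m, ‖α m‖ ≤ 1) → (∀ n, ‖β n‖ ≤ 1) → ∀ F : ℝ → ℂ, Wt N F →
    ‖∑ n ∈ II N, ∑ m ∈ (II N).filter (fun m => Nat.Coprime m n),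
        α m * β n * F ((m : ℝ) * n) * kf n η m‖ ≤ (N : ℝ) ^ ((2 : ℝ) - 1 / 50) := by
  obtain ⟨C, hC, hOO⟩ := oo_bound (1 / 5000) (by norm_num)
  obtain ⟨P0, hP0⟩ := pp_card_ge
  obtain ⟨Nh, hNh⟩ := pp_half
  obtain ⟨N1, hN1⟩ := knum_large (1 / 24) (2 * max (P0 : ℝ) 2) (by norm_num)
  obtain ⟨N2, hN2⟩ := knum_large (1 / 600) 2 (by norm_num)
  obtain ⟨N3, hN3⟩ := knum_large (99 / 25 - 95 / 24 - 3 / 10000)
    (2 * (2400288 + 2400000000 * Real.sqrt C)) (by norm_num)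
  refine ⟨max (max (max Nh 3) N1) (max N2 N3), ?_⟩
  intro N hN η hη0 hη α β hα hβ F hF
  have l1 : Nh ≤ N := (le_max_left _ _).trans ((le_max_left _ _).trans ((le_max_left _ _).trans hN))
  have l2 : 3 ≤ N := (le_max_right _ _).trans ((le_max_left _ _).trans ((le_max_left _ _).trans hN))
  have l3 : N1 ≤ N := (le_max_right _ _).trans ((le_max_left _ _).trans hN)
  have l4 : N2 ≤ N := (le_max_left _ _).trans ((le_max_right _ _).trans hN)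
  have l5 : N3 ≤ N := (le_max_right _ _).trans ((le_max_right _ _).trans hN)
  have g1 := hN1 N l3
  have g2 := hN2 N l4
  have g3 := hN3 N l5
  have hNge : 1 ≤ N := by omega
  have hNr : (1 : ℝ) ≤ N := by exact_mod_cast hNge
  have hN0 : (0 : ℝ) < N := by linarith only [hNr]
  obtain ⟨P, hPdef⟩ : ∃ P : ℕ, P = ⌊(N : ℝ) ^ ((1 : ℝ) / 24)⌋₊ := ⟨_, rfl⟩
  have hx0 : 0 ≤ (N : ℝ) ^ ((1 : ℝ) / 24) := by positivity
  have hPle : (P : ℝ) ≤ (N : ℝ) ^ ((1 : ℝ) / 24) := by rw [hPdef]; exact Nat.floor_le hx0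
  have hPlt : (N : ℝ) ^ ((1 : ℝ) / 24) < P + 1 := by rw [hPdef]; exact Nat.lt_floor_add_one _
  have hx4 : 4 ≤ (N : ℝ) ^ ((1 : ℝ) / 24) := by
    have := le_max_right (P0 : ℝ) 2
    linarith only [g1, this]
  have hP1r : (1 : ℝ) ≤ P := by linarith only [hPlt, hx4]
  have hP1 : 1 ≤ P := by exact_mod_cast hP1r
  have hPge : (N : ℝ) ^ ((1 : ℝ) / 24) ≤ 2 * P := by linarith only [hPlt, hx4]
  have hPN : P ≤ N := by
    have h1 : (N : ℝ) ^ ((1 : ℝ) / 24) ≤ (N : ℝ) ^ (1 : ℝ) :=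
      Real.rpow_le_rpow_of_exponent_le hNr (by norm_num)
    rw [Real.rpow_one] at h1
    exact_mod_cast hPle.trans h1
  have hPP0 : P0 ≤ P := by
    have := le_max_left (P0 : ℝ) 2
    have h1 : (P0 : ℝ) ≤ P := by linarith only [g1, hPlt, hx4, this]
    exact_mod_cast h1
  have hP2 : (2 : ℝ) ≤ P := by
    have := le_max_right (P0 : ℝ) 2
    linarith only [hPlt, hx4]
  have hP25 : (N : ℝ) ^ ((1 : ℝ) / 25) ≤ P := by
    have e : (N : ℝ) ^ ((1 : ℝ) / 24) = (N : ℝ) ^ ((1 : ℝ) / 25) * (N : ℝ) ^ ((1 : ℝ) / 600) := by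
      rw [← Real.rpow_add hN0]
      norm_num
    have h1 : (N : ℝ) ^ ((1 : ℝ) / 25) * 2 ≤ (N : ℝ) ^ ((1 : ℝ) / 25) * (N : ℝ) ^ ((1 : ℝ) / 600) :=
      mul_le_mul_of_nonneg_left g2 (by positivity)
    rw [← e] at h1
    linarith only [hPlt, hx4, h1]
  have hhalf := hNh N P l1 hP25
  have hlogP : 0 < Real.log P := Real.log_pos (by linarith only [hPlt, hx4])
  have hlogPN : Real.log P ≤ Real.log N :=
    Real.log_le_log (by linarith only [hPlt, hx4]) (by exact_mod_cast hPN)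
  have hΛ1 : 1 ≤ Real.log N := by
    rw [Real.le_log_iff_exp_le hN0]
    have : Real.exp 1 ≤ 3 := Real.exp_one_lt_three.le
    have h3 : (3 : ℝ) ≤ N := by exact_mod_cast l2
    linarith only [this, h3]
  have hc : (P : ℝ) / Real.log N ≤ ((PP P).card : ℝ) := by
    refine le_trans ?_ (hP0 P hPP0)
    exact div_le_div_of_nonneg_left (by linarith only [hPlt, hx4]) hlogP hlogPN
  have hcpos : 0 < (PP P).card := by
    have h1 : (0 : ℝ) < ((PP P).card : ℝ) := lt_of_lt_of_le (by positivity) hc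
    exact_mod_cast h1
  have hsplit := split N P hNge hP1 η α hα F hF.1 hcpos hhalf
  have hcau := cau N P hNge η α hα F hF.1
  have hO := hOO N P hNge hP1 hPN η hη0 hη F hF
  have hW := knum_W (e0 := 1 / 5000) hNge hP1 hPN hc hΛ1 (norm_nonneg (UU F η N P α)) hC.le hcau hO
    hsplit
  have hΛle : Real.log N ≤ 10000 * (N : ℝ) ^ ((1 : ℝ) / 10000) := by
    have := Real.log_le_rpow_div hN0.le (by norm_num : (0 : ℝ) < 1 / 10000)
    rw [div_eq_mul_inv] at this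
    norm_num at this ⊢
    linarith only [this]
  have hfin := knum_final hNge hC.le (by linarith only [hlogP, hlogPN]) hΛle hPle hPge hW
  have hS : ∑ n ∈ II N, ∑ m ∈ (II N).filter (fun m => Nat.Coprime m n),
        α m * β n * F ((m : ℝ) * n) * kf n η m =
      ∑ n ∈ II N, β n * ∑ m ∈ (II N).filter (fun m => Nat.Coprime m n),
        α m * F ((m : ℝ) * n) * kf n η m := by
    apply Finset.sum_congr rfl
    intro n _
    rw [Finset.mul_sum]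
    apply Finset.sum_congr rfl
    intro m _
    ring
  rw [hS]
  apply (pow_le_pow_iff_left₀ (norm_nonneg _) (by positivity) two_ne_zero).1
  refine (knum_cauchy hNge β _ hβ).trans ?_
  have e1 : ((N : ℝ) ^ ((2 : ℝ) - 1 / 50)) ^ 2 =
      N * (N : ℝ) ^ ((71 : ℝ) / 24 + 3 / 10000) * (N : ℝ) ^ ((99 : ℝ) / 25 - 95 / 24 - 3 / 10000) := by
    rw [← Real.rpow_natCast ((N : ℝ) ^ _) 2, ← Real.rpow_mul hN0.le]
    nth_rewrite 2 [← Real.rpow_one (N : ℝ)]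
    rw [← Real.rpow_add hN0, ← Real.rpow_add hN0]
    congr 1
    push_cast
    norm_num
  rw [e1]
  calc 2 * (N : ℝ) * ∑ n ∈ II N, ‖∑ m ∈ (II N).filter (fun m => Nat.Coprime m n),
        α m * F ((m : ℝ) * n) * kf n η m‖ ^ 2
      ≤ 2 * N * ((2400288 + 2400000000 * Real.sqrt C) * (N : ℝ) ^ ((71 : ℝ) / 24 + 3 / 10000)) :=
        mul_le_mul_of_nonneg_left hfin (by positivity)
    _ = N * (N : ℝ) ^ ((71 : ℝ) / 24 + 3 / 10000) *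
        (2 * (2400288 + 2400000000 * Real.sqrt C)) := by ring
    _ ≤ _ := mul_le_mul_of_nonneg_left g3 (by positivity)

end Pool.Agent.H80.KF

end
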