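import Pool.Agent.H94.EH.M12
import Pool.Agent.H94.EH.M14
import Pool.Agent.H94.EH.M15

/-! The parts of this file: H80.BE.Mu, H80.BE.Ph, H80.BE.Blk1, H80.BE.BlkC, H80.BE.Blk2, H80.BE.DgA, H80.BE.Dg. -/

section

/-!
# BE Mu: Mertens and Chebyshev

* `mu_le`: `Pool.Agent.H91.Gold.mertens_wz` with `w = ⌊x^{1/3}⌋₊`, `z = x`: `log x ≤ 3 log(w+1)`, so
  `log z/log w → 3`, `log 3 < 1.1`; `1/(q-1) ≤ (1/q)(1 + 1/Y)` for `q > Y`.
* `pi_le`: `Chebyshev.pi_le_log4_mul_div` (Mathlib): `π(x) ≤ log 4 x/log √x + √x`, `log √x = (log x)/2`,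
  `log 4 ≤ 1.4`, `√x log x ≤ 2x`.  `pi_ge`: `Chebyshev.pi_ge` (Mathlib), `log 2 > 0.69`.
-/

set_option autoImplicit false

namespace Pool.Agent.H80.BE

open Finset

/-- the lower bound for `⌊x^{1/3}⌋` -/
private theorem Mu_w {x : ℕ} (hx : 2 ^ 64 ≤ x) :
    (x : ℝ) ^ ((1 : ℝ) / 4) ≤ ⌊(x : ℝ) ^ ((1 : ℝ) / 3)⌋₊ ∧ (65536 : ℝ) ≤ (x : ℝ) ^ ((1 : ℝ) / 4) := by
  have hx1 : ((2 : ℝ) ^ 64) ≤ x := by exact_mod_cast hx
  have hx0 : (0 : ℝ) < x := by
    have : (0 : ℝ) < 2 ^ 64 := by positivity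
    linarith
  have h4 : (65536 : ℝ) ≤ (x : ℝ) ^ ((1 : ℝ) / 4) := by
    have e : (65536 : ℝ) = ((2 : ℝ) ^ 64) ^ ((1 : ℝ) / 4) := by
      rw [← Real.rpow_natCast 2 64, ← Real.rpow_mul (by norm_num)]
      norm_num
    rw [e]
    exact Real.rpow_le_rpow (by positivity) hx1 (by norm_num)
  refine ⟨?_, h4⟩
  have h12 : (2 : ℝ) ≤ (x : ℝ) ^ ((1 : ℝ) / 12) := by
    have e : (2 : ℝ) = ((2 : ℝ) ^ 12) ^ ((1 : ℝ) / 12) := by
      rw [← Real.rpow_natCast 2 12, ← Real.rpow_mul (by norm_num)]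
      norm_num
    conv_lhs => rw [e]
    exact Real.rpow_le_rpow (by positivity) (le_trans (by norm_num) hx1) (by norm_num)
  have h3 : (x : ℝ) ^ ((1 : ℝ) / 3) = (x : ℝ) ^ ((1 : ℝ) / 4) * (x : ℝ) ^ ((1 : ℝ) / 12) := by
    rw [← Real.rpow_add hx0]
    norm_num
  have h5 : 2 * (x : ℝ) ^ ((1 : ℝ) / 4) ≤ (x : ℝ) ^ ((1 : ℝ) / 3) := by
    rw [h3]
    nlinarith
  have h6 := Nat.lt_floor_add_one ((x : ℝ) ^ ((1 : ℝ) / 3))
  linarith

theorem mu_le : ∃ x0 : ℕ, ∀ x : ℕ, x0 ≤ x → ∀ P : Finset ℕ, PS ⌊(x : ℝ) ^ ((1 : ℝ) / 3)⌋₊ x P →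
    ∑ q ∈ P, 1 / ((q : ℝ) - 1) ≤ 2 := by
  refine ⟨2 ^ 64, fun x hx P hP => ?_⟩
  obtain ⟨hw, h4⟩ := Mu_w hx
  set w := ⌊(x : ℝ) ^ ((1 : ℝ) / 3)⌋₊ with hwdef
  have hw1 : (65536 : ℝ) ≤ w := h4.trans hw
  have hw2 : 65536 ≤ w := by exact_mod_cast hw1
  have hx1 : ((2 : ℝ) ^ 64) ≤ x := by exact_mod_cast hx
  have hx0 : (0 : ℝ) < x := by
    have : (0 : ℝ) < 2 ^ 64 := by positivity
    linarith
  have hx1' : (1 : ℝ) ≤ x := le_trans (by norm_num) hx1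
  have hwx : w ≤ x := by
    have h1 : (x : ℝ) ^ ((1 : ℝ) / 3) ≤ x := by
      conv_rhs => rw [← Real.rpow_one (x : ℝ)]
      exact Real.rpow_le_rpow_of_exponent_le hx1' (by norm_num)
    exact Nat.floor_le_of_le h1
  have hlogw : Real.log x ≤ 4 * Real.log w := by
    have h1 : Real.log ((x : ℝ) ^ ((1 : ℝ) / 4)) ≤ Real.log w :=
      Real.log_le_log (by positivity) hw
    rw [Real.log_rpow hx0] at h1
    linarith
  have hlogw11 : 11 ≤ Real.log w := by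
    have h1 : Real.log (65536 : ℝ) ≤ Real.log w := Real.log_le_log (by norm_num) hw1
    have h2 : Real.log (65536 : ℝ) = 16 * Real.log 2 := by
      rw [show (65536 : ℝ) = 2 ^ 16 by norm_num, Real.log_pow]
      norm_num
    have h3 := Real.log_two_gt_d9
    linarith
  have hM := Pool.Agent.H91.Gold.mertens_wz hw2 hwx
  have hlogx : 0 < Real.log x := Real.log_pos (by
    have : (1 : ℝ) < 2 ^ 64 := by norm_num
    linarith)
  have h5 : Real.log (Real.log x / Real.log w) ≤ 1.4 := by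
    have h6 : Real.log x / Real.log w ≤ 4 := by
      rw [div_le_iff₀ (by linarith)]
      linarith
    have h7 : Real.log (Real.log x / Real.log w) ≤ Real.log 4 :=
      Real.log_le_log (by positivity) h6
    have h8 : Real.log 4 = 2 * Real.log 2 := by
      rw [show (4 : ℝ) = 2 ^ 2 by norm_num, Real.log_pow]
      norm_num
    have h9 := Real.log_two_lt_d9
    linarith
  have h6 : 0.2295 / Real.log w ≤ 0.03 := by
    rw [div_le_iff₀ (by linarith)]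
    linarith
  have hsub : P ⊆ Pool.Agent.H91.Gold.Pr w x := by
    intro q hq
    obtain ⟨h7, h8, h9⟩ := hP q hq
    exact Finset.mem_filter.2 ⟨Finset.mem_Ioc.2 ⟨h8, h9⟩, h7⟩
  have h7 : ∀ q ∈ P, 1 / ((q : ℝ) - 1) ≤ 1.1 * (1 / (q : ℝ)) := by
    intro q hq
    obtain ⟨-, h8, -⟩ := hP q hq
    have h9 : (w : ℝ) < q := by exact_mod_cast h8
    have h10 : (0 : ℝ) < (q : ℝ) - 1 := by linarith
    have h11 : (0 : ℝ) < q := by linarith
    rw [mul_one_div, div_le_div_iff₀ h10 h11]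
    nlinarith
  calc ∑ q ∈ P, 1 / ((q : ℝ) - 1) ≤ ∑ q ∈ P, 1.1 * (1 / (q : ℝ)) := Finset.sum_le_sum h7
    _ = 1.1 * ∑ q ∈ P, 1 / (q : ℝ) := by rw [Finset.mul_sum]
    _ ≤ 1.1 * ∑ q ∈ Pool.Agent.H91.Gold.Pr w x, 1 / (q : ℝ) := by
        refine mul_le_mul_of_nonneg_left ?_ (by norm_num)
        exact Finset.sum_le_sum_of_subset_of_nonneg hsub fun q _ _ => by positivity
    _ ≤ 2 := by linarith

theorem pi_le : ∃ x0 : ℕ, ∀ x : ℕ, x0 ≤ x → (Nat.primeCounting x : ℝ) ≤ 5 * x / Real.log x := by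
  refine ⟨2, fun x hx => ?_⟩
  have hx1 : (1 : ℝ) < x := by exact_mod_cast hx
  have hx0 : (0 : ℝ) < x := by linarith
  have hlog : 0 < Real.log x := Real.log_pos hx1
  have h := Chebyshev.pi_le_log4_mul_div hx1
  rw [Nat.floor_natCast, Real.log_sqrt hx0.le] at h
  have hs : 0 < Real.sqrt x := Real.sqrt_pos.2 hx0
  have h1 : Real.log x ≤ 2 * Real.sqrt x := by
    have h2 := Real.log_le_sub_one_of_pos hs
    rw [Real.log_sqrt hx0.le] at h2
    linarith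
  have h2 : Real.sqrt x ≤ 2 * x / Real.log x := by
    rw [le_div_iff₀ hlog]
    calc Real.sqrt x * Real.log x ≤ Real.sqrt x * (2 * Real.sqrt x) :=
          mul_le_mul_of_nonneg_left h1 hs.le
      _ = 2 * (Real.sqrt x * Real.sqrt x) := by ring
      _ = 2 * x := by rw [Real.mul_self_sqrt hx0.le]
  have h3 : Real.log 4 ≤ 1.4 := by
    have h8 : Real.log 4 = 2 * Real.log 2 := by
      rw [show (4 : ℝ) = 2 ^ 2 by norm_num, Real.log_pow]
      norm_num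
    have h9 := Real.log_two_lt_d9
    linarith
  have h4 : Real.log 4 * x / (Real.log x / 2) ≤ 3 * x / Real.log x := by
    rw [div_le_div_iff₀ (by positivity) hlog]
    nlinarith [mul_pos hx0 hlog, mul_le_mul_of_nonneg_right h3 (mul_pos hx0 hlog).le]
  calc (Nat.primeCounting x : ℝ) ≤ Real.log 4 * x / (Real.log x / 2) + Real.sqrt x := h
    _ ≤ 3 * x / Real.log x + 2 * x / Real.log x := add_le_add h4 h2
    _ = 5 * x / Real.log x := by ring

theorem pi_ge : ∃ x0 : ℕ, ∀ x : ℕ, x0 ≤ x → x / (2 * Real.log x) ≤ (Nat.primeCounting x : ℝ) := by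
  refine ⟨100, fun x hx => ?_⟩
  have hx1 : (100 : ℝ) ≤ x := by exact_mod_cast hx
  have hlog : 0 < Real.log x := Real.log_pos (by linarith)
  refine le_trans ?_ (Chebyshev.pi_ge x)
  have h1 : Real.log ((x : ℝ) + 1) ≤ ((x : ℝ) + 1) / 16 - 1 + 4 * Real.log 2 := by
    have h2 : Real.log (((x : ℝ) + 1) / 16) ≤ ((x : ℝ) + 1) / 16 - 1 :=
      Real.log_le_sub_one_of_pos (by positivity)
    rw [Real.log_div (by positivity) (by norm_num)] at h2
    have h3 : Real.log (16 : ℝ) = 4 * Real.log 2 := by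
      rw [show (16 : ℝ) = 2 ^ 4 by norm_num, Real.log_pow]
      norm_num
    linarith
  have h2 := Real.log_two_gt_d9
  have h3 := Real.log_two_lt_d9
  have h4 : (x : ℝ) / 2 ≤ x * Real.log 2 - Real.log ((x : ℝ) + 1) := by nlinarith
  have h5 : (x : ℝ) / (2 * Real.log x) = ((x : ℝ) / 2) / Real.log x := by
    field_simp
  rw [h5]
  exact div_le_div_of_nonneg_right h4 hlog.le

end Pool.Agent.H80.BE

end

section

/-!
# BE Ph: the phase

`phase`: multiply the exponents by `d q q'`; both sides are `e` of a rational number with denominator `d q q'`, and the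
numerators `l n₀` and `l a' - l(a'-a) q' iv(dq,q') - l a q q' iv(d,qq')` agree modulo `q'` (`n₀ ≡ a'`), modulo `q`
(`q' iv(dq,q') ≡ 1`, `l n₀ ≡ l a`) and modulo `d` (`q' iv(dq,q') ≡ 1`, `q q' iv(d,qq') ≡ 1`, `l n₀ ≡ 0`).
Use `KF.iv_spec`, `KF.ee_eq_of_int` (compare `KF.crt_phase`, `KF.kf_crt`).
`kf_scale`: `KF.kf_mul_left`.
-/

set_option autoImplicit false

namespace Pool.Agent.H80.BE

open Finset
open Pool.Agent.H80.KF (ee kf ww RW fej)

theorem phase (d q q' : ℕ) (hd : 1 ≤ d) (hq : 1 ≤ q) (hq' : 1 ≤ q') (h1 : Nat.Coprime d q)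
    (h2 : Nat.Coprime d q') (h3 : Nat.Coprime q q') (a a' n0 l : ℤ) (h0 : (d : ℤ) ∣ n0)
    (ha : (q : ℤ) ∣ n0 - a) (ha' : (q' : ℤ) ∣ n0 - a') :
    ee ((l : ℝ) * n0 / ((d : ℝ) * q * q')) =
      ee ((l : ℝ) * a' / ((d : ℝ) * q * q')) * kf (d * q) (-(l * (a' - a))) q' *
        kf d (-(l * a)) (q * q') := by
  have hd0 : (d : ℝ) ≠ 0 := by positivity
  have hq0 : (q : ℝ) ≠ 0 := by positivity
  have hq0' : (q' : ℝ) ≠ 0 := by positivity
  set v1 := Pool.Agent.H80.KF.iv (d * q) q' with hv1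
  set v2 := Pool.Agent.H80.KF.iv d (q * q') with hv2
  have i1 : ((d * q : ℕ) : ℤ) ∣ (q' : ℤ) * (v1 : ℤ) - 1 :=
    Pool.Agent.H80.KF.iv_spec (Nat.mul_pos hd hq) (Nat.Coprime.mul_right h2.symm h3.symm)
  have i2 : ((d : ℕ) : ℤ) ∣ ((q * q' : ℕ) : ℤ) * (v2 : ℤ) - 1 :=
    Pool.Agent.H80.KF.iv_spec hd (Nat.Coprime.mul_left h1.symm h2.symm)
  push_cast at i1 i2
  have i1d : (d : ℤ) ∣ (q' : ℤ) * (v1 : ℤ) - 1 := (Dvd.intro _ rfl).trans i1
  have i1q : (q : ℤ) ∣ (q' : ℤ) * (v1 : ℤ) - 1 := (Dvd.intro_left _ rfl).trans i1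
  have key : (d : ℤ) * q * q' ∣ l * n0 - l * a' + l * (a' - a) * (q' * v1) +
      l * a * (q * q' * v2) := by
    have c1 : IsCoprime (d : ℤ) (q : ℤ) := Nat.isCoprime_iff_coprime.2 h1
    have c2 : IsCoprime (d : ℤ) (q' : ℤ) := Nat.isCoprime_iff_coprime.2 h2
    have c3 : IsCoprime (q : ℤ) (q' : ℤ) := Nat.isCoprime_iff_coprime.2 h3
    refine IsCoprime.mul_dvd (IsCoprime.mul_left c2 c3) (IsCoprime.mul_dvd c1 ?_ ?_) ?_
    · have e : l * n0 - l * a' + l * (a' - a) * (q' * v1) + l * a * (q * q' * v2) =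
          l * n0 + l * (a' - a) * (q' * v1 - 1) + l * a * (q * q' * v2 - 1) := by ring
      rw [e]
      exact dvd_add (dvd_add (h0.mul_left _) (i1d.mul_left _)) (i2.mul_left _)
    · have e : l * n0 - l * a' + l * (a' - a) * (q' * v1) + l * a * (q * q' * v2) =
          l * (n0 - a) + l * (a' - a) * (q' * v1 - 1) + q * (l * a * (q' * v2)) := by ring
      rw [e]
      exact dvd_add (dvd_add (ha.mul_left _) (i1q.mul_left _)) (Dvd.intro _ rfl)
    · have e : l * n0 - l * a' + l * (a' - a) * (q' * v1) + l * a * (q * q' * v2) =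
          l * (n0 - a') + q' * (l * (a' - a) * v1 + l * a * (q * v2)) := by ring
      rw [e]
      exact dvd_add (ha'.mul_left _) (Dvd.intro _ rfl)
  obtain ⟨k, hk⟩ := key
  have hk' : (l : ℝ) * n0 - l * a' + l * (a' - a) * (q' * v1) + l * a * (q * q' * v2) =
      (d : ℝ) * q * q' * k := by exact_mod_cast hk
  unfold kf
  rw [← hv1, ← hv2, ← Pool.Agent.H80.KF.ee_add, ← Pool.Agent.H80.KF.ee_add]
  apply Pool.Agent.H80.KF.ee_eq_of_int k
  push_cast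
  field_simp
  linear_combination hk'

theorem kf_scale (n k m : ℕ) (hn : 1 ≤ n) (hodd : Odd n) (hm : Nat.Coprime m n) (ξ : ℤ) :
    kf n (ξ * ((2 ^ k : ℕ) : ℤ)) (2 ^ k * m) = kf n ξ m := by
  exact Pool.Agent.H80.KF.kf_mul_left hn ξ (Nat.Coprime.pow_left k
    ((Nat.coprime_two_left (n := n)).2 hodd)) hm

end Pool.Agent.H80.BE

end

section

/-!
# BE Blk1: one block, one frequency, one power of two

`N = d 2^i`, `n = d q ∈ (N, 2N]`, `m = 2^k q' ∈ (N, 2N]`.  If `2N² < x |l| 2^k`, every term is zero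
(`d q q' = mn/2^k ≤ 4N²/2^k < 2x|l|`).  Otherwise apply `KF.lemmaK` with `η = -(l (a'-a)) 2^k` (`η ≠ 0`,
`|η| ≤ |l| 2x 2^k ≤ 4N²`), the coefficients `m ↦ β (m/2^k)` for `2^k ∣ m`, `n ↦ α (n/d)` for `d ∣ n`, and
`F(y) = (N²/y) max 0 (1 - A/y) ee(B/y)` for `y ≥ N²`, `0` otherwise, `A = 2x|l|2^k ≤ 4N²`,
`B = l a' 2^k`, `|B| ≤ 2N²`: this is `Wt N F` by `KF.ckb_wt` (private in `KF/CKb.lean`: copy the proof, needs `N ≥ 10`).
`y = mn = 2^k d q q'`, so `term = (2^k/N²) α β F(mn) kf n η m` with `kf_scale` (`n = d q` odd).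
`(m,n) = 1` iff `q ≠ q'` (`d` odd, `2 < q`, `2 < q'`, `(d,q') = (d,q) = 1`).
The sum over `q' ∈ Icc 1 (2N)`, `q' ≠ q` is the sum over `m ∈ II N` coprime to `n` (support of `β`), the sum over
`q ∈ (2^i, 2^{i+1}]` is the sum over `n ∈ II N` (support).
-/

set_option autoImplicit false

namespace Pool.Agent.H80.BE

open Finset
open Pool.Agent.H80.KF (ee kf ww RW fej)

private theorem Blk1_ee_norm (t : ℝ) : ‖ee t‖ = 1 := by
  have h : (2 * Real.pi * t * Complex.I : ℂ) = ((2 * Real.pi * t : ℝ) : ℂ) * Complex.I := by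
    push_cast; ring
  rw [ee, h, Complex.norm_exp_ofReal_mul_I]

private theorem Blk1_ee_lip (s t : ℝ) : ‖ee s - ee t‖ ≤ 2 * Real.pi * |s - t| := by
  have h : ee s - ee t =
      ee t * (Complex.exp (Complex.I * ((2 * Real.pi * (s - t) : ℝ) : ℂ)) - 1) := by
    rw [ee, ee, mul_sub, mul_one, ← Complex.exp_add]
    congr 2
    push_cast
    ring
  rw [h, norm_mul, Blk1_ee_norm, one_mul]
  refine Real.norm_exp_I_mul_ofReal_sub_one_le.trans ?_
  rw [Real.norm_eq_abs, abs_mul, abs_of_nonneg (by positivity)]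

private theorem Blk1_wt {N : ℕ} (hN : 10 ≤ N) {A B : ℝ} (hA0 : 0 ≤ A)
    (hA : A ≤ 4 * ((N : ℝ) + 1) ^ 2) (hB : |B| ≤ 2 * ((N : ℝ) + 1) ^ 2) :
    Pool.Agent.H80.KF.Wt N (fun y => if (N : ℝ) ^ 2 ≤ y then
      (((N : ℝ) ^ 2 / y * max 0 (1 - A / y) : ℝ) : ℂ) * ee (B / y) else 0) := by
  have hNr : (10 : ℝ) ≤ N := by exact_mod_cast hN
  have hM : (0 : ℝ) < (N : ℝ) ^ 2 := by positivity
  have f1 : ∀ y : ℝ, (N : ℝ) ^ 2 ≤ y → 0 ≤ (N : ℝ) ^ 2 / y ∧ (N : ℝ) ^ 2 / y ≤ 1 := by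
    intro y hy
    have hy0 : 0 < y := lt_of_lt_of_le hM hy
    exact ⟨by positivity, (div_le_one hy0).2 hy⟩
  have f2 : ∀ y : ℝ, (N : ℝ) ^ 2 ≤ y → 0 ≤ max 0 (1 - A / y) ∧ max 0 (1 - A / y) ≤ 1 := by
    intro y hy
    have hy0 : 0 < y := lt_of_lt_of_le hM hy
    have : 0 ≤ A / y := by positivity
    exact ⟨le_max_left _ _, max_le (by norm_num) (by linarith only [this])⟩
  refine ⟨?_, ?_⟩
  · intro y
    by_cases hy : (N : ℝ) ^ 2 ≤ y
    · simp only [if_pos hy]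
      rw [norm_mul, Blk1_ee_norm, mul_one, Complex.norm_real, Real.norm_eq_abs,
        abs_of_nonneg (mul_nonneg (f1 y hy).1 (f2 y hy).1)]
      exact mul_le_one₀ (f1 y hy).2 (f2 y hy).1 (f2 y hy).2
    · simp only [if_neg hy, norm_zero]
      norm_num
  · intro y z hy _ hz _
    simp only [if_pos hy, if_pos hz]
    have hy0 : 0 < y := lt_of_lt_of_le hM hy
    have hz0 : 0 < z := lt_of_lt_of_le hM hz
    obtain ⟨D, hD⟩ : ∃ D : ℝ, D = |1 / y - 1 / z| := ⟨_, rfl⟩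
    have hD0 : 0 ≤ D := by rw [hD]; exact abs_nonneg _
    have hDle : D ≤ |y - z| / ((N : ℝ) ^ 2) ^ 2 := by
      have h1 : 1 / y - 1 / z = (z - y) / (y * z) := by field_simp
      rw [hD, h1, abs_div, abs_sub_comm z y, abs_of_pos (mul_pos hy0 hz0), sq ((N : ℝ) ^ 2)]
      exact div_le_div_of_nonneg_left (abs_nonneg _) (by positivity)
        (mul_le_mul hy hz hM.le hy0.le)
    have e1 : |(N : ℝ) ^ 2 / y - (N : ℝ) ^ 2 / z| = (N : ℝ) ^ 2 * D := by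
      rw [hD, ← abs_of_pos hM, ← abs_mul, abs_of_pos hM]
      congr 1
      ring
    have e2 : |max 0 (1 - A / y) - max 0 (1 - A / z)| ≤ A * D := by
      have h1 := abs_max_sub_max_le_abs (1 - A / y) (1 - A / z) 0
      rw [max_comm (1 - A / y) 0, max_comm (1 - A / z) 0] at h1
      refine h1.trans (le_of_eq ?_)
      have h2 : 1 - A / y - (1 - A / z) = A * -(1 / y - 1 / z) := by ring
      rw [h2, abs_mul, abs_of_nonneg hA0, abs_neg, hD]
    have e3 : ‖ee (B / y) - ee (B / z)‖ ≤ 2 * Real.pi * (|B| * D) := by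
      refine (Blk1_ee_lip _ _).trans (le_of_eq ?_)
      have h2 : B / y - B / z = B * (1 / y - 1 / z) := by ring
      rw [h2, abs_mul, hD]
    obtain ⟨p, hp⟩ : ∃ p : ℝ, p = (N : ℝ) ^ 2 / y := ⟨_, rfl⟩
    obtain ⟨p', hp'⟩ : ∃ p' : ℝ, p' = (N : ℝ) ^ 2 / z := ⟨_, rfl⟩
    obtain ⟨r, hr⟩ : ∃ r : ℝ, r = max 0 (1 - A / y) := ⟨_, rfl⟩
    obtain ⟨r', hr'⟩ : ∃ r' : ℝ, r' = max 0 (1 - A / z) := ⟨_, rfl⟩
    have a1 := f1 z hz
    have a2 := f2 y hy
    have a3 := f2 z hz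
    rw [← hp, ← hp'] at e1
    rw [← hr, ← hr'] at e2
    rw [← hp'] at a1
    rw [← hr] at a2
    rw [← hr'] at a3
    rw [← hp, ← hp', ← hr, ← hr']
    have key : ((p * r : ℝ) : ℂ) * ee (B / y) - ((p' * r' : ℝ) : ℂ) * ee (B / z) =
        (((p - p') * r : ℝ) : ℂ) * ee (B / y) + ((p' * (r - r') : ℝ) : ℂ) * ee (B / y) +
          ((p' * r' : ℝ) : ℂ) * (ee (B / y) - ee (B / z)) := by
      push_cast
      ring
    rw [key]
    have n1 : ‖(((p - p') * r : ℝ) : ℂ) * ee (B / y)‖ ≤ (N : ℝ) ^ 2 * D := by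
      rw [norm_mul, Blk1_ee_norm, mul_one, Complex.norm_real, Real.norm_eq_abs, abs_mul, e1,
        abs_of_nonneg a2.1]
      exact mul_le_of_le_one_right (by positivity) a2.2
    have n2 : ‖((p' * (r - r') : ℝ) : ℂ) * ee (B / y)‖ ≤ A * D := by
      rw [norm_mul, Blk1_ee_norm, mul_one, Complex.norm_real, Real.norm_eq_abs, abs_mul,
        abs_of_nonneg a1.1]
      exact (mul_le_of_le_one_left (abs_nonneg _) a1.2).trans e2
    have n3 : ‖((p' * r' : ℝ) : ℂ) * (ee (B / y) - ee (B / z))‖ ≤ 2 * Real.pi * (|B| * D) := by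
      rw [norm_mul, Complex.norm_real, Real.norm_eq_abs, abs_mul, abs_of_nonneg a1.1,
        abs_of_nonneg a3.1]
      refine (mul_le_of_le_one_left (norm_nonneg _) ?_).trans e3
      exact mul_le_one₀ a1.2 a3.1 a3.2
    refine (norm_add₃_le).trans ?_
    have hpi : Real.pi ≤ 4 := Real.pi_le_four
    have hpi0 : 0 < Real.pi := Real.pi_pos
    have b1 : 2 * Real.pi * (|B| * D) ≤ 8 * (2 * ((N : ℝ) + 1) ^ 2 * D) := by
      have h1 : |B| * D ≤ 2 * ((N : ℝ) + 1) ^ 2 * D := mul_le_mul_of_nonneg_right hB hD0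
      have h2 : 2 * Real.pi ≤ 8 := by linarith only [hpi]
      exact mul_le_mul h2 h1 (mul_nonneg (abs_nonneg _) hD0) (by norm_num)
    have b2 : A * D ≤ 4 * ((N : ℝ) + 1) ^ 2 * D := mul_le_mul_of_nonneg_right hA hD0
    have b3 : ((N : ℝ) + 1) ^ 2 ≤ 39 / 20 * (N : ℝ) ^ 2 := by nlinarith only [hNr]
    have b4 : ((N : ℝ) + 1) ^ 2 * D ≤ 39 / 20 * (N : ℝ) ^ 2 * D :=
      mul_le_mul_of_nonneg_right b3 hD0
    have b5 : (N : ℝ) ^ 2 * D ≤ 1 / (N : ℝ) ^ 2 * |y - z| := by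
      have h1 := mul_le_mul_of_nonneg_left hDle hM.le
      refine h1.trans (le_of_eq ?_)
      field_simp
    have b6 : 40 / (N : ℝ) ^ 2 * |y - z| = 40 * (1 / (N : ℝ) ^ 2 * |y - z|) := by ring
    rw [b6]
    nlinarith only [n1, n2, n3, b1, b2, b4, b5]

/-- the sum over `n = d q` -/
private theorem Blk1_outer (d i N : ℕ) (hd : 1 ≤ d) (hN : N = d * 2 ^ i) (f : ℕ → ℂ)
    (hf : ∀ n, ¬ (d ∣ n ∧ n / d ∈ Ioc (2 ^ i) (2 ^ (i + 1))) → f n = 0) :
    ∑ n ∈ Pool.Agent.H80.KF.II N, f n = ∑ q ∈ Ioc (2 ^ i) (2 ^ (i + 1)), f (d * q) := by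
  classical
  have hinj : ∀ x ∈ Ioc (2 ^ i) (2 ^ (i + 1)), ∀ y ∈ Ioc (2 ^ i) (2 ^ (i + 1)),
      d * x = d * y → x = y := fun x _ y _ hxy => Nat.eq_of_mul_eq_mul_left (by omega) hxy
  rw [← Finset.sum_image hinj]
  symm
  apply Finset.sum_subset
  · intro n hn
    obtain ⟨q, hq, rfl⟩ := mem_image.1 hn
    rw [mem_Ioc] at hq
    unfold Pool.Agent.H80.KF.II
    rw [mem_Ioc, hN]
    constructor
    · exact Nat.mul_lt_mul_of_pos_left hq.1 (by omega)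
    · have h1 : d * q ≤ d * 2 ^ (i + 1) := Nat.mul_le_mul_left _ hq.2
      have h2 : d * 2 ^ (i + 1) = 2 * (d * 2 ^ i) := by rw [pow_succ]; ring
      omega
  · intro n _ hn
    apply hf
    rintro ⟨⟨q, rfl⟩, h2⟩
    apply hn
    rw [Nat.mul_div_cancel_left q (by omega)] at h2
    exact mem_image.2 ⟨q, h2, rfl⟩

/-- the sum over `m = 2^k q'` -/
private theorem Blk1_inner (k N n : ℕ) (β : ℕ → ℝ) (f : ℕ → ℂ)
    (hβ : ∀ q, β q ≠ 0 → N < 2 ^ k * q ∧ 2 ^ k * q ≤ 2 * N)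
    (hf : ∀ m, ¬ (2 ^ k ∣ m ∧ β (m / 2 ^ k) ≠ 0) → f m = 0) :
    ∑ m ∈ (Pool.Agent.H80.KF.II N).filter (fun m => Nat.Coprime m n), f m =
      ∑ q ∈ (Icc 1 (2 * N)).filter (fun q => β q ≠ 0 ∧ Nat.Coprime (2 ^ k * q) n),
        f (2 ^ k * q) := by
  classical
  have hk : 0 < 2 ^ k := by positivity
  have hinj : ∀ x ∈ (Icc 1 (2 * N)).filter (fun q => β q ≠ 0 ∧ Nat.Coprime (2 ^ k * q) n),
      ∀ y ∈ (Icc 1 (2 * N)).filter (fun q => β q ≠ 0 ∧ Nat.Coprime (2 ^ k * q) n),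
      2 ^ k * x = 2 ^ k * y → x = y := fun x _ y _ hxy => Nat.eq_of_mul_eq_mul_left hk hxy
  rw [← Finset.sum_image hinj]
  symm
  apply Finset.sum_subset
  · intro m hm
    obtain ⟨q, hq, rfl⟩ := mem_image.1 hm
    rw [mem_filter, mem_Icc] at hq
    obtain ⟨h1, h2⟩ := hβ q hq.2.1
    unfold Pool.Agent.H80.KF.II
    rw [mem_filter, mem_Ioc]
    exact ⟨⟨h1, by omega⟩, hq.2.2⟩
  · intro m hm hn
    rw [mem_filter] at hm
    apply hf
    rintro ⟨⟨q, rfl⟩, h2⟩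
    apply hn
    rw [Nat.mul_div_cancel_left q hk] at h2
    refine mem_image.2 ⟨q, ?_, rfl⟩
    rw [mem_filter, mem_Icc]
    obtain ⟨h3, h4⟩ := hβ q h2
    refine ⟨⟨?_, ?_⟩, h2, hm.2⟩
    · rcases Nat.eq_zero_or_pos q with h5 | h5
      · subst h5; simp at h3
      · exact h5
    · calc q = 1 * q := (one_mul q).symm
        _ ≤ 2 ^ k * q := Nat.mul_le_mul_right _ hk
        _ ≤ 2 * N := h4

theorem blk_one : ∃ N0 : ℕ, ∀ x d i k N : ℕ, 1 ≤ x → 1 ≤ d → Odd d → N = d * 2 ^ i → N0 ≤ N →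
    ∀ l a a' : ℤ, l ≠ 0 → a ≠ a' → |a| ≤ x → |a'| ≤ x → ∀ α β : ℕ → ℝ, (∀ q, |α q| ≤ 1) →
    (∀ q, |β q| ≤ 1) → (∀ q, α q ≠ 0 → q.Prime ∧ Nat.Coprime d q ∧ 2 < q) →
    (∀ q, β q ≠ 0 → q.Prime ∧ Nat.Coprime d q ∧ 2 < q ∧ N < 2 ^ k * q ∧ 2 ^ k * q ≤ 2 * N) →
    ‖∑ q ∈ Ioc (2 ^ i) (2 ^ (i + 1)), ∑ q' ∈ (Icc 1 (2 * N)).filter (fun q' => q' ≠ q),
        ((α q * β q' / ((d : ℝ) * q * q') *
          max 0 (1 - 2 * x * |(l : ℝ)| / ((d : ℝ) * q * q')) : ℝ) : ℂ) *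
          (ee ((l : ℝ) * a' / ((d : ℝ) * q * q')) * kf (d * q) (-(l * (a' - a))) q')‖ ≤
      if (x : ℤ) * |l| * 2 ^ k ≤ 2 * (N : ℤ) ^ 2 then
        (2 : ℝ) ^ k / (N : ℝ) ^ 2 * (N : ℝ) ^ ((2 : ℝ) - 1 / 50) else 0 := by
  obtain ⟨N0, hK⟩ := Pool.Agent.H80.KF.lemmaK
  refine ⟨max N0 10, ?_⟩
  intro x d i k N hx hd hodd hN hNN l a a' hl haa ha ha' α β hα hβ hαs hβs
  have hN0 : N0 ≤ N := (le_max_left _ _).trans hNN
  have hN10 : 10 ≤ N := (le_max_right _ _).trans hNN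
  have hNr : (10 : ℝ) ≤ N := by exact_mod_cast hN10
  have hNpos : (0 : ℝ) < N := by linarith only [hNr]
  have hdr : (1 : ℝ) ≤ d := by exact_mod_cast hd
  have hd0 : (0 : ℝ) < d := by linarith only [hdr]
  have hxr : (1 : ℝ) ≤ x := by exact_mod_cast hx
  have hx0 : (0 : ℝ) < x := by linarith only [hxr]
  have h2k : (1 : ℝ) ≤ 2 ^ k := one_le_pow₀ (by norm_num)
  have h2k0 : (0 : ℝ) < 2 ^ k := by positivity
  have hlr : (1 : ℝ) ≤ |(l : ℝ)| := by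
    have : 1 ≤ |l| := Int.one_le_abs hl
    exact_mod_cast this
  have hblk : ∀ q ∈ Ioc (2 ^ i) (2 ^ (i + 1)), N < d * q ∧ d * q ≤ 2 * N := by
    intro q hq
    rw [mem_Ioc] at hq
    rw [hN]
    constructor
    · exact Nat.mul_lt_mul_of_pos_left hq.1 (by omega)
    · have h1 : d * q ≤ d * 2 ^ (i + 1) := Nat.mul_le_mul_left _ hq.2
      have h2 : d * 2 ^ (i + 1) = 2 * (d * 2 ^ i) := by rw [pow_succ]; ring
      omega
  by_cases hcase : (x : ℤ) * |l| * 2 ^ k ≤ 2 * (N : ℤ) ^ 2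
  · rw [if_pos hcase]
    have hcr : (x : ℝ) * |(l : ℝ)| * 2 ^ k ≤ 2 * (N : ℝ) ^ 2 := by exact_mod_cast hcase
    have har : |(a : ℝ)| ≤ x := by exact_mod_cast ha
    have har' : |(a' : ℝ)| ≤ x := by exact_mod_cast ha'
    -- the frequency
    obtain ⟨η, hη⟩ : ∃ η : ℤ, η = -(l * (a' - a)) * ((2 ^ k : ℕ) : ℤ) := ⟨_, rfl⟩
    have hη0 : η ≠ 0 := by
      rw [hη]
      refine mul_ne_zero (neg_ne_zero.2 (mul_ne_zero hl (sub_ne_zero.2 haa.symm))) ?_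
      exact_mod_cast (by positivity : (2 : ℕ) ^ k ≠ 0)
    have hηle : |η| ≤ 4 * (N : ℤ) ^ 2 := by
      have h1 : |(η : ℝ)| ≤ 4 * (N : ℝ) ^ 2 := by
        rw [hη]
        push_cast
        rw [abs_mul, abs_neg, abs_mul, abs_of_pos h2k0]
        have h2 : |(a' : ℝ) - a| ≤ 2 * x := (abs_sub _ _).trans (by linarith only [har, har'])
        calc |(l : ℝ)| * |(a' : ℝ) - a| * 2 ^ k ≤ |(l : ℝ)| * (2 * x) * 2 ^ k :=
              mul_le_mul_of_nonneg_right (mul_le_mul_of_nonneg_left h2 (abs_nonneg _)) h2k0.le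
          _ = 2 * (x * |(l : ℝ)| * 2 ^ k) := by ring
          _ ≤ 2 * (2 * (N : ℝ) ^ 2) := by linarith only [hcr]
          _ = 4 * (N : ℝ) ^ 2 := by ring
      exact_mod_cast h1
    obtain ⟨A, hA⟩ : ∃ A : ℝ, A = 2 * x * |(l : ℝ)| * 2 ^ k := ⟨_, rfl⟩
    obtain ⟨B, hB⟩ : ∃ B : ℝ, B = (l : ℝ) * a' * 2 ^ k := ⟨_, rfl⟩
    have hNN1 : (N : ℝ) ^ 2 ≤ ((N : ℝ) + 1) ^ 2 := by nlinarith only [hNr]
    have hA0 : 0 ≤ A := by rw [hA]; positivity
    have hA1 : A ≤ 4 * ((N : ℝ) + 1) ^ 2 := by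
      have h1 : A = 2 * (x * |(l : ℝ)| * 2 ^ k) := by rw [hA]; ring
      rw [h1]; linarith only [hNr, hcr]
    have hB1 : |B| ≤ 2 * ((N : ℝ) + 1) ^ 2 := by
      rw [hB, abs_mul, abs_mul, abs_of_pos h2k0]
      have h1 : |(l : ℝ)| * |(a' : ℝ)| * 2 ^ k ≤ |(l : ℝ)| * x * 2 ^ k :=
        mul_le_mul_of_nonneg_right (mul_le_mul_of_nonneg_left har' (abs_nonneg _)) h2k0.le
      have h2 : |(l : ℝ)| * x * 2 ^ k = x * |(l : ℝ)| * 2 ^ k := by ring
      linarith only [hNr, hcr, h1]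
    have hW := Blk1_wt hN10 hA0 hA1 hB1
    obtain ⟨F, hF⟩ : ∃ F : ℝ → ℂ, F = (fun y : ℝ => if (N : ℝ) ^ 2 ≤ y then
      (((N : ℝ) ^ 2 / y * max 0 (1 - A / y) : ℝ) : ℂ) * ee (B / y) else 0) := ⟨_, rfl⟩
    rw [← hF] at hW
    obtain ⟨A', hA'⟩ : ∃ A' : ℕ → ℂ, A' = (fun m => if 2 ^ k ∣ m then ((β (m / 2 ^ k) : ℝ) : ℂ)
      else 0) := ⟨_, rfl⟩
    obtain ⟨B', hB'⟩ : ∃ B' : ℕ → ℂ, B' = (fun n => if d ∣ n ∧ n / d ∈ Ioc (2 ^ i) (2 ^ (i + 1))
      then ((α (n / d) : ℝ) : ℂ) else 0) := ⟨_, rfl⟩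
    have hmain := hK N hN0 η hη0 hηle A' B'
      (by
        intro m
        rw [hA']
        dsimp only
        split_ifs
        · rw [Complex.norm_real]; exact hβ _
        · rw [norm_zero]; norm_num)
      (by
        intro m
        rw [hB']
        dsimp only
        split_ifs
        · rw [Complex.norm_real]; exact hα _
        · rw [norm_zero]; norm_num) F hW
    have hsum : (∑ q ∈ Ioc (2 ^ i) (2 ^ (i + 1)), ∑ q' ∈ (Icc 1 (2 * N)).filter (fun q' => q' ≠ q),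
        ((α q * β q' / ((d : ℝ) * q * q') *
          max 0 (1 - 2 * x * |(l : ℝ)| / ((d : ℝ) * q * q')) : ℝ) : ℂ) *
          (ee ((l : ℝ) * a' / ((d : ℝ) * q * q')) * kf (d * q) (-(l * (a' - a))) q')) =
        (((2 : ℝ) ^ k / (N : ℝ) ^ 2 : ℝ) : ℂ) *
        ∑ n ∈ Pool.Agent.H80.KF.II N, ∑ m ∈ (Pool.Agent.H80.KF.II N).filter
          (fun m => Nat.Coprime m n), A' m * B' n * F ((m : ℝ) * n) * kf n η m := by
      rw [Blk1_outer d i N hd hN (fun n => ∑ m ∈ (Pool.Agent.H80.KF.II N).filter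
          (fun m => Nat.Coprime m n), A' m * B' n * F ((m : ℝ) * n) * kf n η m)
        (by
          intro n hn
          refine sum_eq_zero fun m _ => ?_
          rw [hB']
          dsimp only
          rw [if_neg hn, mul_zero, zero_mul, zero_mul]), mul_sum]
      refine sum_congr rfl fun q hq => ?_
      obtain ⟨hq1, hq2⟩ := hblk q hq
      have hBq : B' (d * q) = ((α q : ℝ) : ℂ) := by
        rw [hB']
        dsimp only
        rw [Nat.mul_div_cancel_left q (by omega), if_pos ⟨dvd_mul_right d q, hq⟩]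
      rw [hBq]
      by_cases hαq : α q = 0
      · rw [hαq]
        simp
      · obtain ⟨hqp, hdq, hq3⟩ := hαs q hαq
        rw [Blk1_inner k N (d * q) β (fun m => A' m * ((α q : ℝ) : ℂ) *
            F ((m : ℝ) * ((d * q : ℕ) : ℝ)) * kf (d * q) η m)
          (fun q hq => ⟨(hβs q hq).2.2.2.1, (hβs q hq).2.2.2.2⟩)
          (by
            intro m hm
            have h0 : A' m = 0 := by
              rw [hA']
              dsimp only
              split_ifs with h1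
              · have h2 : β (m / 2 ^ k) = 0 := by
                  by_contra h3
                  exact hm ⟨h1, h3⟩
                rw [h2, Complex.ofReal_zero]
              · rfl
            rw [h0, zero_mul, zero_mul, zero_mul]), mul_sum]
        have hodq : Odd (d * q) := by
          refine hodd.mul ?_
          exact hqp.odd_of_ne_two (by omega)
        -- the index sets
        have hfil : (Icc 1 (2 * N)).filter (fun q' => β q' ≠ 0 ∧ Nat.Coprime (2 ^ k * q') (d * q)) =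
            ((Icc 1 (2 * N)).filter (fun q' => q' ≠ q)).filter (fun q' => β q' ≠ 0) := by
          ext q'
          rw [mem_filter, mem_filter, mem_filter]
          constructor
          · rintro ⟨h1, h2, h3⟩
            refine ⟨⟨h1, ?_⟩, h2⟩
            rintro rfl
            have h4 : q' ∣ Nat.gcd (2 ^ k * q') (d * q') :=
              Nat.dvd_gcd (dvd_mul_left _ _) (dvd_mul_left _ _)
            rw [h3] at h4
            have := Nat.le_of_dvd (by norm_num) h4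
            omega
          · rintro ⟨⟨h1, h2⟩, h3⟩
            refine ⟨h1, h3, ?_⟩
            obtain ⟨hp', hdq', hq3', -, -⟩ := hβs q' h3
            refine Nat.Coprime.mul_left ?_ ?_
            · exact Nat.Coprime.pow_left k (Nat.coprime_two_left.2 hodq)
            · refine Nat.Coprime.mul_right hdq'.symm ?_
              exact (Nat.coprime_primes hp' hqp).2 h2
        rw [hfil, Finset.sum_filter (s := (Icc 1 (2 * N)).filter (fun q' => q' ≠ q))]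
        refine sum_congr rfl fun q' hq' => ?_
        rw [mem_filter] at hq'
        by_cases hβq : β q' = 0
        · rw [if_neg (fun h => h hβq), hβq]
          simp
        · rw [if_pos hβq]
          obtain ⟨hp', hdq', hq3', hq4', hq5'⟩ := hβs q' hβq
          have hA'q : A' (2 ^ k * q') = ((β q' : ℝ) : ℂ) := by
            rw [hA']
            dsimp only
            rw [Nat.mul_div_cancel_left q' (by positivity), if_pos (dvd_mul_right _ q')]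
          have hcop' : Nat.Coprime q' (d * q) :=
            Nat.Coprime.mul_right hdq'.symm ((Nat.coprime_primes hp' hqp).2 hq'.2)
          have hdq1 : 1 ≤ d * q := by omega
          rw [hA'q, hη, kf_scale (d * q) k q' hdq1 hodq hcop']
          have hq0 : (0 : ℝ) < q := by
            have : 0 < q := by omega
            exact_mod_cast this
          have hq0' : (0 : ℝ) < q' := by
            have : 0 < q' := by omega
            exact_mod_cast this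
          obtain ⟨y, hy⟩ : ∃ y : ℝ, y = ((2 ^ k * q' : ℕ) : ℝ) * ((d * q : ℕ) : ℝ) := ⟨_, rfl⟩
          have hyN : (N : ℝ) ^ 2 ≤ y := by
            have g1 : (N : ℝ) ≤ ((2 ^ k * q' : ℕ) : ℝ) := by exact_mod_cast hq4'.le
            have g2 : (N : ℝ) ≤ ((d * q : ℕ) : ℝ) := by exact_mod_cast hq1.le
            rw [hy, sq]
            exact mul_le_mul g1 g2 hNpos.le (hNpos.le.trans g1)
          have hyv : y = 2 ^ k * ((d : ℝ) * q * q') := by
            rw [hy]; push_cast; ring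
          rw [← hy, hF]
          dsimp only
          rw [if_pos hyN]
          have hmpos : (0 : ℝ) < (d : ℝ) * q * q' := by positivity
          have e1 : A / y = 2 * x * |(l : ℝ)| / ((d : ℝ) * q * q') := by
            rw [hA, hyv]
            field_simp
          have e2 : B / y = (l : ℝ) * a' / ((d : ℝ) * q * q') := by
            rw [hB, hyv]
            field_simp
          rw [e1, e2]
          obtain ⟨M, hM⟩ : ∃ M : ℝ, M = max 0 (1 - 2 * x * |(l : ℝ)| / ((d : ℝ) * q * q')) := ⟨_, rfl⟩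
          rw [← hM]
          have hreal : α q * β q' / ((d : ℝ) * q * q') * M =
              2 ^ k / (N : ℝ) ^ 2 * (β q' * α q * ((N : ℝ) ^ 2 / y * M)) := by
            rw [hyv]
            field_simp
          rw [hreal]
          push_cast
          ring
    rw [hsum, norm_mul, Complex.norm_real, Real.norm_eq_abs, abs_of_pos (by positivity)]
    exact mul_le_mul_of_nonneg_left hmain (by positivity)
  · rw [if_neg hcase]
    have hcr : 2 * (N : ℝ) ^ 2 < (x : ℝ) * |(l : ℝ)| * 2 ^ k := by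
      have := not_le.1 hcase
      exact_mod_cast this
    refine le_of_eq ?_
    rw [norm_eq_zero]
    refine sum_eq_zero fun q hq => sum_eq_zero fun q' _ => ?_
    obtain ⟨hq1, hq2⟩ := hblk q hq
    by_cases hβq : β q' = 0
    · rw [hβq]
      simp
    · obtain ⟨hp', hdq', hq3', hq4', hq5'⟩ := hβs q' hβq
      have hqpos : 0 < q := by
        rcases Nat.eq_zero_or_pos q with h | h
        · subst h; omega
        · exact h
      have hq0 : (0 : ℝ) < q := by exact_mod_cast hqpos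
      have hq0' : (0 : ℝ) < q' := by
        have : 0 < q' := by omega
        exact_mod_cast this
      have hmpos : (0 : ℝ) < (d : ℝ) * q * q' := by positivity
      have g1 : ((2 ^ k * q' : ℕ) : ℝ) ≤ 2 * N := by exact_mod_cast hq5'
      have g2 : ((d * q : ℕ) : ℝ) ≤ 2 * N := by exact_mod_cast hq2
      have g3 : ((2 ^ k * q' : ℕ) : ℝ) * ((d * q : ℕ) : ℝ) ≤ (2 * N) * (2 * N) :=
        mul_le_mul g1 g2 (Nat.cast_nonneg _) (by positivity)
      have g4 : ((2 ^ k * q' : ℕ) : ℝ) * ((d * q : ℕ) : ℝ) = 2 ^ k * ((d : ℝ) * q * q') := by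
        push_cast; ring
      have g5 : (d : ℝ) * q * q' ≤ 2 * x * |(l : ℝ)| := by
        have : 2 ^ k * ((d : ℝ) * q * q') ≤ 2 ^ k * (2 * x * |(l : ℝ)|) := by
          calc 2 ^ k * ((d : ℝ) * q * q') ≤ (2 * N) * (2 * N) := by rw [← g4]; exact g3
            _ = 2 * (2 * (N : ℝ) ^ 2) := by ring
            _ ≤ 2 * ((x : ℝ) * |(l : ℝ)| * 2 ^ k) := by linarith only [hcr]
            _ = 2 ^ k * (2 * x * |(l : ℝ)|) := by ring
        exact le_of_mul_le_mul_left this h2k0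
      have g6 : max 0 (1 - 2 * x * |(l : ℝ)| / ((d : ℝ) * q * q')) = 0 := by
        apply max_eq_left
        have : 1 ≤ 2 * x * |(l : ℝ)| / ((d : ℝ) * q * q') := by
          rw [le_div_iff₀ hmpos, one_mul]; exact g5
        linarith only [this]
      rw [g6]
      simp

end Pool.Agent.H80.BE

end

section

/-!
# BE BlkC: one block, one frequency, classes modulo `d`, powers of two

`N = d 2^i`.  `phase` (for `α q, β q' ≠ 0`, `q ≠ q'`).  Split `q, q'` into classes `u, v` modulo `d`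
(`kf d (-(l a)) (q q')` depends only on them, `KF.kf_congr`, norm one) and split `q'` according to the unique `k` with
`N < 2^k q' ≤ 2N` (exists because `1 ≤ q' ≤ 2^{i+1} ≤ 2N`; `2^k ≤ 2N`, so `k ≤ Nat.log 2 (2N)`).  Then `blk_one`
with `α` restricted to `q ≡ u`, `β` to `q' ≡ v`, `q' ≤ 2^{i+1}`, `N < 2^k q' ≤ 2N`, for each `u, v < d` and `k`.
-/

set_option autoImplicit false

namespace Pool.Agent.H80.BE

open Finset
open Pool.Agent.H80.KF (ee kf ww RW fej)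

/-- one term without the phase modulo `d` -/
private noncomputable def BlkC_G (x d : ℕ) (l a a' : ℤ) (s t : ℝ) (q q' : ℕ) : ℂ :=
  ((s * t / ((d : ℝ) * q * q') *
          max 0 (1 - 2 * x * |(l : ℝ)| / ((d : ℝ) * q * q')) : ℝ) : ℂ) *
          (ee ((l : ℝ) * a' / ((d : ℝ) * q * q')) * kf (d * q) (-(l * (a' - a))) q')

private theorem BlkC_G_zero_left (x d : ℕ) (l a a' : ℤ) (t : ℝ) (q q' : ℕ) :
    BlkC_G x d l a a' 0 t q q' = 0 := by
  unfold BlkC_G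
  simp

private theorem BlkC_G_zero_right (x d : ℕ) (l a a' : ℤ) (s : ℝ) (q q' : ℕ) :
    BlkC_G x d l a a' s 0 q q' = 0 := by
  unfold BlkC_G
  simp

private theorem BlkC_exists_k (N q : ℕ) (h1 : 1 ≤ q) (h2 : q ≤ 2 * N) :
    ∃ k ∈ range (Nat.log 2 (2 * N) + 1), N < 2 ^ k * q ∧ 2 ^ k * q ≤ 2 * N := by
  have h3 : 2 * N / q ≠ 0 := by
    have : 0 < 2 * N / q := Nat.div_pos h2 h1
    omega
  refine ⟨Nat.log 2 (2 * N / q), ?_, ?_, ?_⟩
  · rw [Finset.mem_range]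
    have : Nat.log 2 (2 * N / q) ≤ Nat.log 2 (2 * N) := Nat.log_mono_right (Nat.div_le_self _ _)
    omega
  · have h4 : 2 * N / q < 2 ^ (Nat.log 2 (2 * N / q) + 1) :=
      Nat.lt_pow_succ_log_self (by norm_num) _
    rw [Nat.div_lt_iff_lt_mul (by omega)] at h4
    have h5 : 2 ^ (Nat.log 2 (2 * N / q) + 1) * q = 2 * (2 ^ (Nat.log 2 (2 * N / q)) * q) := by
      rw [pow_succ]; ring
    omega
  · have h4 : 2 ^ (Nat.log 2 (2 * N / q)) ≤ 2 * N / q := Nat.pow_log_le_self 2 h3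
    exact le_trans (Nat.mul_le_mul_right q h4) (Nat.div_mul_le_self _ _)

private theorem BlkC_unique_k (N q k k' : ℕ) (h1 : N < 2 ^ k * q) (h2 : 2 ^ k' * q ≤ 2 * N) :
    k' ≤ k := by
  by_contra hcon
  push Not at hcon
  have h3 : 2 ^ (k + 1) ≤ 2 ^ k' := Nat.pow_le_pow_right (by norm_num) hcon
  have h4 : 2 ^ (k + 1) * q ≤ 2 ^ k' * q := Nat.mul_le_mul_right q h3
  have h5 : 2 ^ (k + 1) * q = 2 * (2 ^ k * q) := by rw [pow_succ]; ring
  omega

private theorem BlkC_phase (x d : ℕ) (hd : 1 ≤ d) (l a a' : ℤ) (α β : ℕ → ℝ)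
    (hα : ∀ q, α q ≠ 0 → q.Prime ∧ Nat.Coprime d q ∧ 2 < q)
    (hβ : ∀ q, β q ≠ 0 → q.Prime ∧ Nat.Coprime d q ∧ 2 < q) (n0 : ℕ → ℕ → ℤ)
    (hn : ∀ q q' : ℕ, q.Prime → q'.Prime → q ≠ q' → Nat.Coprime d q → Nat.Coprime d q' →
      (d : ℤ) ∣ n0 q q' ∧ (q : ℤ) ∣ n0 q q' - a ∧ (q' : ℤ) ∣ n0 q q' - a') (q q' : ℕ)
    (hne : q' ≠ q) :
    ((α q * β q' / ((d : ℝ) * q * q') *
          max 0 (1 - 2 * x * |(l : ℝ)| / ((d : ℝ) * q * q')) : ℝ) : ℂ) *
          ee ((l : ℝ) * n0 q q' / ((d : ℝ) * q * q')) =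
      kf d (-(l * a)) ((q % d) * (q' % d)) * BlkC_G x d l a a' (α q) (β q') q q' := by
  by_cases h1 : α q = 0
  · rw [h1, BlkC_G_zero_left]
    simp
  by_cases h2 : β q' = 0
  · rw [h2, BlkC_G_zero_right]
    simp
  obtain ⟨p1, c1, g1⟩ := hα q h1
  obtain ⟨p2, c2, g2⟩ := hβ q' h2
  obtain ⟨e0, e1, e2⟩ := hn q q' p1 p2 (Ne.symm hne) c1 c2
  have hc : Nat.Coprime q q' := (Nat.coprime_primes p1 p2).2 (Ne.symm hne)
  have hph := phase d q q' hd (by omega) (by omega) c1 c2 hc a a' (n0 q q') l e0 e1 e2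
  have hk : kf d (-(l * a)) (q * q') = kf d (-(l * a)) ((q % d) * (q' % d)) := by
    apply Pool.Agent.H80.KF.kf_congr hd
    · simp
    · exact Nat.ModEq.mul (Nat.mod_modEq q d).symm (Nat.mod_modEq q' d).symm
  rw [hph, hk]
  unfold BlkC_G
  ring

theorem blk_cls : ∃ N0 : ℕ, ∀ x d i N : ℕ, 1 ≤ x → 1 ≤ d → Odd d → N = d * 2 ^ i → N0 ≤ N →
    ∀ l a a' : ℤ, l ≠ 0 → a ≠ a' → |a| ≤ x → |a'| ≤ x → ∀ α β : ℕ → ℝ, (∀ q, |α q| ≤ 1) →
    (∀ q, |β q| ≤ 1) → (∀ q, α q ≠ 0 → q.Prime ∧ Nat.Coprime d q ∧ 2 < q) →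
    (∀ q, β q ≠ 0 → q.Prime ∧ Nat.Coprime d q ∧ 2 < q) → ∀ n0 : ℕ → ℕ → ℤ,
    (∀ q q' : ℕ, q.Prime → q'.Prime → q ≠ q' → Nat.Coprime d q → Nat.Coprime d q' →
      (d : ℤ) ∣ n0 q q' ∧ (q : ℤ) ∣ n0 q q' - a ∧ (q' : ℤ) ∣ n0 q q' - a') →
    ‖∑ q ∈ Ioc (2 ^ i) (2 ^ (i + 1)), ∑ q' ∈ (Icc 1 (2 ^ (i + 1))).filter (fun q' => q' ≠ q),
        ((α q * β q' / ((d : ℝ) * q * q') *
          max 0 (1 - 2 * x * |(l : ℝ)| / ((d : ℝ) * q * q')) : ℝ) : ℂ) *
          ee ((l : ℝ) * n0 q q' / ((d : ℝ) * q * q'))‖ ≤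
      (d : ℝ) ^ 2 * ∑ k ∈ range (Nat.log 2 (2 * N) + 1),
        (if (x : ℤ) * |l| * 2 ^ k ≤ 2 * (N : ℤ) ^ 2 then
          (2 : ℝ) ^ k / (N : ℝ) ^ 2 * (N : ℝ) ^ ((2 : ℝ) - 1 / 50) else 0) := by
  classical
  obtain ⟨N0, hN0⟩ := blk_one
  refine ⟨N0, ?_⟩
  intro x d i N hx hd hodd hN hNN l a a' hl haa ha ha' α β hα1 hβ1 hα hβ n0 hn
  have h2N : 2 ^ (i + 1) ≤ 2 * N := by
    rw [hN, pow_succ]
    have : 2 ^ i ≤ d * 2 ^ i := Nat.le_mul_of_pos_left _ (by omega)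
    omega
  let T : Finset (ℕ × ℕ × ℕ) := range d ×ˢ (range d ×ˢ range (Nat.log 2 (2 * N) + 1))
  let A : ℕ → ℕ → ℝ := fun u q => if q % d = u then α q else 0
  let B : ℕ → ℕ → ℕ → ℝ := fun v k q' =>
    if q' % d = v ∧ q' ≤ 2 ^ (i + 1) ∧ N < 2 ^ k * q' ∧ 2 ^ k * q' ≤ 2 * N then β q' else 0
  let S : ℕ × ℕ × ℕ → ℂ := fun t => ∑ q ∈ Ioc (2 ^ i) (2 ^ (i + 1)),
    ∑ q' ∈ (Icc 1 (2 * N)).filter (fun q' => q' ≠ q),
      BlkC_G x d l a a' (A t.1 q) (B t.2.1 t.2.2 q') q q'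
  -- the identity
  have hid : (∑ q ∈ Ioc (2 ^ i) (2 ^ (i + 1)),
      ∑ q' ∈ (Icc 1 (2 ^ (i + 1))).filter (fun q' => q' ≠ q),
        ((α q * β q' / ((d : ℝ) * q * q') *
          max 0 (1 - 2 * x * |(l : ℝ)| / ((d : ℝ) * q * q')) : ℝ) : ℂ) *
          ee ((l : ℝ) * n0 q q' / ((d : ℝ) * q * q'))) =
      ∑ t ∈ T, kf d (-(l * a)) (t.1 * t.2.1) * S t := by
    have e1 : ∑ t ∈ T, kf d (-(l * a)) (t.1 * t.2.1) * S t =
        ∑ q ∈ Ioc (2 ^ i) (2 ^ (i + 1)), ∑ q' ∈ (Icc 1 (2 * N)).filter (fun q' => q' ≠ q),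
          ∑ t ∈ T, kf d (-(l * a)) (t.1 * t.2.1) *
            BlkC_G x d l a a' (A t.1 q) (B t.2.1 t.2.2 q') q q' := by
      simp only [S, Finset.mul_sum]
      rw [Finset.sum_comm]
      refine Finset.sum_congr rfl fun q _ => ?_
      rw [Finset.sum_comm]
    rw [e1]
    refine Finset.sum_congr rfl fun q hq => ?_
    have hsub : (Icc 1 (2 ^ (i + 1))).filter (fun q' => q' ≠ q) ⊆
        (Icc 1 (2 * N)).filter (fun q' => q' ≠ q) := by
      intro q' hq'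
      rw [Finset.mem_filter, Finset.mem_Icc] at hq' ⊢
      exact ⟨⟨hq'.1.1, le_trans hq'.1.2 h2N⟩, hq'.2⟩
    rw [← Finset.sum_subset hsub]
    · refine Finset.sum_congr rfl fun q' hq' => ?_
      rw [Finset.mem_filter, Finset.mem_Icc] at hq'
      obtain ⟨⟨h1, h2⟩, h3⟩ := hq'
      obtain ⟨k0, hk0, hk1, hk2⟩ := BlkC_exists_k N q' h1 (le_trans h2 h2N)
      rw [BlkC_phase x d hd l a a' α β hα hβ n0 hn q q' h3]
      rw [Finset.sum_eq_single (q % d, q' % d, k0)]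
      · simp only [A, B, if_true]
        rw [if_pos ⟨trivial, h2, hk1, hk2⟩]
      · rintro ⟨u, v, k⟩ _ hne
        by_cases hu : q % d = u
        · have hB : B v k q' = 0 := by
            simp only [B]
            rw [if_neg]
            rintro ⟨hv, -, g1, g2⟩
            apply hne
            have g3 := BlkC_unique_k N q' k0 k hk1 g2
            have g4 := BlkC_unique_k N q' k k0 g1 hk2
            rw [hu, hv, le_antisymm g3 g4]
          simp only [hB]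
          rw [BlkC_G_zero_right, mul_zero]
        · have hA : A u q = 0 := by
            simp only [A]
            rw [if_neg hu]
          simp only [hA]
          rw [BlkC_G_zero_left, mul_zero]
      · intro hnot
        exfalso
        apply hnot
        simp only [T, Finset.mem_product]
        exact ⟨Finset.mem_range.2 (Nat.mod_lt _ (by omega)),
          Finset.mem_range.2 (Nat.mod_lt _ (by omega)), hk0⟩
    · intro q' hq' hnot
      rw [Finset.mem_filter, Finset.mem_Icc] at hq' hnot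
      have hbig : ¬ q' ≤ 2 ^ (i + 1) := fun h => hnot ⟨⟨hq'.1.1, h⟩, hq'.2⟩
      refine Finset.sum_eq_zero fun t _ => ?_
      have hB : B t.2.1 t.2.2 q' = 0 := by
        simp only [B]
        rw [if_neg]
        rintro ⟨-, g, -⟩
        exact hbig g
      rw [hB, BlkC_G_zero_right, mul_zero]
  have hS : ∀ t : ℕ × ℕ × ℕ, ‖S t‖ ≤ (if (x : ℤ) * |l| * 2 ^ t.2.2 ≤ 2 * (N : ℤ) ^ 2 then
      (2 : ℝ) ^ t.2.2 / (N : ℝ) ^ 2 * (N : ℝ) ^ ((2 : ℝ) - 1 / 50) else 0) := by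
    rintro ⟨u, v, k⟩
    have := hN0 x d i k N hx hd hodd hN hNN l a a' hl haa ha ha' (A u) (B v k)
      (fun q => by
        simp only [A]
        split_ifs
        · exact hα1 q
        · simp)
      (fun q => by
        simp only [B]
        split_ifs
        · exact hβ1 q
        · simp)
      (fun q hq => by
        apply hα
        intro h0
        apply hq
        simp only [A]
        rw [h0]
        simp)
      (fun q hq => by
        by_cases hc : q % d = v ∧ q ≤ 2 ^ (i + 1) ∧ N < 2 ^ k * q ∧ 2 ^ k * q ≤ 2 * N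
        · have h1 : β q ≠ 0 := by
            intro h0
            apply hq
            simp only [B]
            rw [h0]
            simp
          exact ⟨(hβ q h1).1, (hβ q h1).2.1, (hβ q h1).2.2, hc.2.2.1, hc.2.2.2⟩
        · exfalso
          apply hq
          simp only [B]
          rw [if_neg hc])
    exact this
  rw [hid]
  calc ‖∑ t ∈ T, kf d (-(l * a)) (t.1 * t.2.1) * S t‖
      ≤ ∑ t ∈ T, ‖kf d (-(l * a)) (t.1 * t.2.1) * S t‖ := norm_sum_le _ _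
    _ ≤ ∑ t ∈ T, (if (x : ℤ) * |l| * 2 ^ t.2.2 ≤ 2 * (N : ℤ) ^ 2 then
      (2 : ℝ) ^ t.2.2 / (N : ℝ) ^ 2 * (N : ℝ) ^ ((2 : ℝ) - 1 / 50) else 0) := by
        refine Finset.sum_le_sum fun t _ => ?_
        rw [norm_mul, Pool.Agent.H80.KF.norm_kf, one_mul]
        exact hS t
    _ = (d : ℝ) ^ 2 * ∑ k ∈ range (Nat.log 2 (2 * N) + 1),
        (if (x : ℤ) * |l| * 2 ^ k ≤ 2 * (N : ℤ) ^ 2 then
          (2 : ℝ) ^ k / (N : ℝ) ^ 2 * (N : ℝ) ^ ((2 : ℝ) - 1 / 50) else 0) := by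
        simp only [T]
        rw [Finset.sum_product]
        simp only [Finset.sum_product, Finset.sum_const, Finset.card_range, nsmul_eq_mul]
        ring

end Pool.Agent.H80.BE

end

section

/-!
# BE Blk2: one block, all frequencies

`N = d 2^i`.  `fej_ext` with `M = 4 N²` (`m = d q q' ≤ 4 N²`), exchange the sums, `blk_cls` for every `l ≠ 0`; for each
`k ≤ log₂(2N) ≤ log₂(2x)` (at most `2 log x` values for large `x`) the number of `l ≠ 0` with `x |l| 2^k ≤ 2N²` is at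
most `4N²/(x 2^k)`.  Total `d² · 2 log x · 4 N^{2-1/50}/x`.
If `N < N0` then `4N² ≤ 2x` (for `x ≥ 2 N0²`) and `fej = 1` (`KF.fej_small`, `d q q' ≤ 4N²`).
-/

set_option autoImplicit false

namespace Pool.Agent.H80.BE

open Finset
open Pool.Agent.H80.KF (ee kf ww RW fej)

private theorem Blk2_count (x k N M : ℕ) (hx : 1 ≤ x) :
    ((((Icc (-(M : ℤ)) M).filter (fun l => l ≠ 0)).filter
      (fun l => (x : ℤ) * |l| * 2 ^ k ≤ 2 * (N : ℤ) ^ 2)).card : ℝ) ≤ 4 * (N : ℝ) ^ 2 / (x * 2 ^ k) := by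
  obtain ⟨Y, hY⟩ : ∃ Y : ℕ, Y = (2 * N ^ 2) / (x * 2 ^ k) := ⟨_, rfl⟩
  have hpos : 0 < x * 2 ^ k := Nat.mul_pos hx (by positivity)
  have hsub : ((Icc (-(M : ℤ)) M).filter (fun l => l ≠ 0)).filter
      (fun l => (x : ℤ) * |l| * 2 ^ k ≤ 2 * (N : ℤ) ^ 2) ⊆ (Icc (-(Y : ℤ)) Y).erase 0 := by
    intro l hl
    rw [mem_filter, mem_filter] at hl
    rw [mem_erase, mem_Icc]
    refine ⟨hl.1.2, ?_⟩
    have h1 := hl.2
    rw [← Int.natCast_natAbs] at h1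
    have h2 : x * l.natAbs * 2 ^ k ≤ 2 * N ^ 2 := by exact_mod_cast h1
    have h3 : l.natAbs ≤ Y := by
      rw [hY, Nat.le_div_iff_mul_le hpos]
      calc l.natAbs * (x * 2 ^ k) = x * l.natAbs * 2 ^ k := by ring
        _ ≤ _ := h2
    omega
  have hcard : ((Icc (-(Y : ℤ)) Y).erase 0).card = 2 * Y := by
    rw [Finset.card_erase_of_mem (by rw [mem_Icc]; omega), Int.card_Icc]
    omega
  have h4 := Finset.card_le_card hsub
  rw [hcard] at h4
  have h5 : (Y : ℝ) ≤ (2 * (N : ℝ) ^ 2) / (x * 2 ^ k) := by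
    rw [hY]
    have h6 := @Nat.cast_div_le ℝ _ _ _ (2 * N ^ 2) (x * 2 ^ k)
    refine h6.trans (le_of_eq ?_)
    push_cast
    rfl
  calc ((((Icc (-(M : ℤ)) M).filter (fun l => l ≠ 0)).filter
      (fun l => (x : ℤ) * |l| * 2 ^ k ≤ 2 * (N : ℤ) ^ 2)).card : ℝ) ≤ ((2 * Y : ℕ) : ℝ) := by
        exact_mod_cast h4
    _ = 2 * (Y : ℝ) := by push_cast; ring
    _ ≤ 2 * ((2 * (N : ℝ) ^ 2) / (x * 2 ^ k)) := by linarith
    _ = _ := by ring

private theorem Blk2_log {x N : ℕ} (hN : 1 ≤ N) (hNx : N ≤ x) (hL : 4 ≤ Real.log x) :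
    ((Nat.log 2 (2 * N) + 1 : ℕ) : ℝ) ≤ 2 * Real.log x := by
  have h1 : 2 ^ Nat.log 2 (2 * N) ≤ 2 * N := Nat.pow_log_le_self 2 (by omega)
  have h2 : (2 : ℝ) ^ Nat.log 2 (2 * N) ≤ 2 * x := by
    have h3 : 2 ^ Nat.log 2 (2 * N) ≤ 2 * x := h1.trans (by omega)
    exact_mod_cast h3
  have hx0 : (0 : ℝ) < x := by
    have : 1 ≤ x := hN.trans hNx
    exact_mod_cast this
  have h4 := Real.log_le_log (by positivity) h2
  rw [Real.log_pow, Real.log_mul (by norm_num) hx0.ne'] at h4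
  have l1 := Real.log_two_gt_d9
  have l2 := Real.log_two_lt_d9
  have h5 : ((Nat.log 2 (2 * N) : ℕ) : ℝ) * 0.6931 ≤ ((Nat.log 2 (2 * N) : ℕ) : ℝ) * Real.log 2 :=
    mul_le_mul_of_nonneg_left (by linarith) (Nat.cast_nonneg _)
  push_cast
  linarith

theorem blk_sum : ∃ x0 : ℕ, ∀ x d i N : ℕ, x0 ≤ x → 1 ≤ d → Odd d → N = d * 2 ^ i → N ≤ x →
    ∀ a a' : ℤ, a ≠ a' → |a| ≤ x → |a'| ≤ x → ∀ α β : ℕ → ℝ, (∀ q, |α q| ≤ 1) →
    (∀ q, |β q| ≤ 1) → (∀ q, α q ≠ 0 → q.Prime ∧ Nat.Coprime d q ∧ 2 < q) →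
    (∀ q, β q ≠ 0 → q.Prime ∧ Nat.Coprime d q ∧ 2 < q) → ∀ n0 : ℕ → ℕ → ℤ,
    (∀ q q' : ℕ, q.Prime → q'.Prime → q ≠ q' → Nat.Coprime d q → Nat.Coprime d q' →
      (d : ℤ) ∣ n0 q q' ∧ (q : ℤ) ∣ n0 q q' - a ∧ (q' : ℤ) ∣ n0 q q' - a') →
    ‖∑ q ∈ Ioc (2 ^ i) (2 ^ (i + 1)), ∑ q' ∈ (Icc 1 (2 ^ (i + 1))).filter (fun q' => q' ≠ q),
        ((α q * β q' / ((d : ℝ) * q * q') : ℝ) : ℂ) * (fej x (d * q * q') (n0 q q') - 1)‖ ≤
      8 * (d : ℝ) ^ 2 * Real.log x * (N : ℝ) ^ ((2 : ℝ) - 1 / 50) / x := by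
  obtain ⟨N0, hN0⟩ := blk_cls
  have hlog : ∀ᶠ x : ℕ in Filter.atTop, (4 : ℝ) ≤ Real.log x :=
    (Real.tendsto_log_atTop.comp (tendsto_natCast_atTop_atTop (R := ℝ))).eventually
      (Filter.eventually_ge_atTop 4)
  obtain ⟨x1, hx1⟩ := Filter.eventually_atTop.mp hlog
  refine ⟨max x1 (2 * N0 ^ 2 + 1), ?_⟩
  intro x d i N hxx hd hodd hNd hNx a a' haa ha ha' α β hα hβ hαp hβp n0 hn0
  have hL := hx1 x ((le_max_left _ _).trans hxx)
  have hxN : 2 * N0 ^ 2 + 1 ≤ x := (le_max_right _ _).trans hxx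
  have hx : 1 ≤ x := by omega
  have hx0 : (0 : ℝ) < x := by exact_mod_cast hx
  have hN1 : 1 ≤ N := by
    rw [hNd]
    exact Nat.mul_pos hd (by positivity)
  have hNr : (0 : ℝ) < N := by exact_mod_cast hN1
  -- the moduli
  have hm : ∀ q ∈ Ioc (2 ^ i) (2 ^ (i + 1)), ∀ q' ∈ (Icc 1 (2 ^ (i + 1))).filter (fun q' => q' ≠ q),
      1 ≤ d * q * q' ∧ d * q * q' ≤ 4 * N ^ 2 := by
    intro q hq q' hq'
    rw [mem_Ioc] at hq
    rw [mem_filter, mem_Icc] at hq'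
    constructor
    · exact Nat.mul_pos (Nat.mul_pos hd (by omega)) hq'.1.1
    · calc d * q * q' ≤ d * 2 ^ (i + 1) * 2 ^ (i + 1) :=
            Nat.mul_le_mul (Nat.mul_le_mul_left _ hq.2) hq'.1.2
        _ ≤ d * d * 2 ^ (i + 1) * 2 ^ (i + 1) := by
            have h1 : d ≤ d * d := Nat.le_mul_of_pos_left d hd
            exact Nat.mul_le_mul_right _ (Nat.mul_le_mul_right _ h1)
        _ = 4 * N ^ 2 := by
            rw [hNd, pow_succ]
            ring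
  have hR : 0 ≤ 8 * (d : ℝ) ^ 2 * Real.log x * (N : ℝ) ^ ((2 : ℝ) - 1 / 50) / x := by
    have h1 : 0 ≤ Real.log x := by linarith
    have h2 : 0 ≤ (N : ℝ) ^ ((2 : ℝ) - 1 / 50) := Real.rpow_nonneg hNr.le _
    positivity
  rcases lt_or_ge N N0 with hlt | hge
  · -- the small case
    have h0 : ∑ q ∈ Ioc (2 ^ i) (2 ^ (i + 1)), ∑ q' ∈ (Icc 1 (2 ^ (i + 1))).filter (fun q' => q' ≠ q),
        ((α q * β q' / ((d : ℝ) * q * q') : ℝ) : ℂ) * (fej x (d * q * q') (n0 q q') - 1) = 0 := by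
      refine Finset.sum_eq_zero fun q hq => Finset.sum_eq_zero fun q' hq' => ?_
      obtain ⟨m1, m2⟩ := hm q hq q' hq'
      have h1 : N ^ 2 ≤ N0 ^ 2 := Nat.pow_le_pow_left hlt.le 2
      rw [Pool.Agent.H80.KF.fej_small x (d * q * q') m1 (by omega), sub_self, mul_zero]
    rw [h0, norm_zero]
    exact hR
  · -- the main case
    obtain ⟨M, hM⟩ : ∃ M : ℕ, M = 4 * N ^ 2 := ⟨_, rfl⟩
    obtain ⟨Ls, hLs⟩ : ∃ Ls : Finset ℤ, Ls = (Icc (-(M : ℤ)) M).filter (fun l => l ≠ 0) := ⟨_, rfl⟩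
    have h1 : ∑ q ∈ Ioc (2 ^ i) (2 ^ (i + 1)), ∑ q' ∈ (Icc 1 (2 ^ (i + 1))).filter (fun q' => q' ≠ q),
        ((α q * β q' / ((d : ℝ) * q * q') : ℝ) : ℂ) * (fej x (d * q * q') (n0 q q') - 1) =
        ∑ l ∈ Ls, ∑ q ∈ Ioc (2 ^ i) (2 ^ (i + 1)),
          ∑ q' ∈ (Icc 1 (2 ^ (i + 1))).filter (fun q' => q' ≠ q),
          ((α q * β q' / ((d : ℝ) * q * q') *
            max 0 (1 - 2 * x * |(l : ℝ)| / ((d : ℝ) * q * q')) : ℝ) : ℂ) *
            ee ((l : ℝ) * n0 q q' / ((d : ℝ) * q * q')) := by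
      have h2 : ∀ q ∈ Ioc (2 ^ i) (2 ^ (i + 1)),
          ∑ q' ∈ (Icc 1 (2 ^ (i + 1))).filter (fun q' => q' ≠ q),
            ((α q * β q' / ((d : ℝ) * q * q') : ℝ) : ℂ) * (fej x (d * q * q') (n0 q q') - 1) =
          ∑ l ∈ Ls, ∑ q' ∈ (Icc 1 (2 ^ (i + 1))).filter (fun q' => q' ≠ q),
            ((α q * β q' / ((d : ℝ) * q * q') *
              max 0 (1 - 2 * x * |(l : ℝ)| / ((d : ℝ) * q * q')) : ℝ) : ℂ) *
              ee ((l : ℝ) * n0 q q' / ((d : ℝ) * q * q')) := by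
        intro q hq
        rw [Finset.sum_comm]
        refine Finset.sum_congr rfl fun q' hq' => ?_
        obtain ⟨m1, m2⟩ := hm q hq q' hq'
        rw [fej_ext x (d * q * q') M hx m1 (by rw [hM]; exact m2) (n0 q q'), ← hLs, Finset.mul_sum]
        refine Finset.sum_congr rfl fun l _ => ?_
        push_cast
        ring
      rw [Finset.sum_congr rfl h2, Finset.sum_comm]
    rw [h1]
    refine (norm_sum_le _ _).trans ?_
    have h3 : ∀ l ∈ Ls, ‖∑ q ∈ Ioc (2 ^ i) (2 ^ (i + 1)),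
          ∑ q' ∈ (Icc 1 (2 ^ (i + 1))).filter (fun q' => q' ≠ q),
          ((α q * β q' / ((d : ℝ) * q * q') *
            max 0 (1 - 2 * x * |(l : ℝ)| / ((d : ℝ) * q * q')) : ℝ) : ℂ) *
            ee ((l : ℝ) * n0 q q' / ((d : ℝ) * q * q'))‖ ≤
        (d : ℝ) ^ 2 * ∑ k ∈ range (Nat.log 2 (2 * N) + 1),
          (if (x : ℤ) * |l| * 2 ^ k ≤ 2 * (N : ℤ) ^ 2 then
            (2 : ℝ) ^ k / (N : ℝ) ^ 2 * (N : ℝ) ^ ((2 : ℝ) - 1 / 50) else 0) := by
      intro l hl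
      rw [hLs, mem_filter] at hl
      exact hN0 x d i N hx hd hodd hNd hge l a a' hl.2 haa ha ha' α β hα hβ hαp hβp n0 hn0
    refine (Finset.sum_le_sum h3).trans ?_
    rw [← Finset.mul_sum, Finset.sum_comm]
    have h4 : ∀ k ∈ range (Nat.log 2 (2 * N) + 1), ∑ l ∈ Ls,
        (if (x : ℤ) * |l| * 2 ^ k ≤ 2 * (N : ℤ) ^ 2 then
            (2 : ℝ) ^ k / (N : ℝ) ^ 2 * (N : ℝ) ^ ((2 : ℝ) - 1 / 50) else 0) ≤
        4 * (N : ℝ) ^ ((2 : ℝ) - 1 / 50) / x := by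
      intro k _
      rw [← Finset.sum_filter, Finset.sum_const, nsmul_eq_mul, hLs]
      have h5 := Blk2_count x k N M hx
      have h6 : 0 ≤ (2 : ℝ) ^ k / (N : ℝ) ^ 2 * (N : ℝ) ^ ((2 : ℝ) - 1 / 50) := by
        have := Real.rpow_nonneg hNr.le ((2 : ℝ) - 1 / 50)
        positivity
      refine (mul_le_mul_of_nonneg_right h5 h6).trans (le_of_eq ?_)
      have hk0 : (2 : ℝ) ^ k ≠ 0 := by positivity
      field_simp
    have h7 := Finset.sum_le_sum h4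
    rw [Finset.sum_const, card_range, nsmul_eq_mul] at h7
    have h8 := Blk2_log hN1 hNx hL
    have h9 : 0 ≤ 4 * (N : ℝ) ^ ((2 : ℝ) - 1 / 50) / x := by
      have := Real.rpow_nonneg hNr.le ((2 : ℝ) - 1 / 50)
      positivity
    have h10 := h7.trans (mul_le_mul_of_nonneg_right h8 h9)
    refine (mul_le_mul_of_nonneg_left h10 (sq_nonneg (d : ℝ))).trans (le_of_eq ?_)
    ring

end Pool.Agent.H80.BE

end

section

/-!
# BE DgA: number of large prime divisors; one shell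

* `omega_le`: the product of the `w` primes of `P` dividing `h ≠ 0` divides `h` and is `≥ (Y+1)^w`;
  `(Y+1)^w ≤ |h| ≤ 2^{j+2} (Y+1)³` and `Y + 1 ≥ 2` give `w ≤ j + 5`.
* `shell`: `X = 2^{j+1} x`; `∑_{|n| ≤ X} lam 1_{q ∣ n-a} ≤ ∑_{n ∈ RW X (2J)} ww X (2J) n lam 1_{q ∣ n-a} = (π² X/(2q)) GG`
  (`KF.ww_ge_one`, `KF.ww_nonneg`, `lam_nonneg`, `ex_one` for `X`, `2J`, `m = q`; `X < X · 2J`).
-/

set_option autoImplicit false

namespace Pool.Agent.H80.BE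

open Finset
open Pool.Agent.H80.KF (ee kf ww RW fej)

/-- few large primes divide a number -/
theorem omega_le (x Y Z j : ℕ) (hY : 2 ≤ Y) (hxY : x ≤ (Y + 1) ^ 3) (P : Finset ℕ) (hP : PS Y Z P)
    (h : ℤ) (h0 : h ≠ 0) (hh : |h| ≤ 2 ^ (j + 2) * (x : ℤ)) :
    (P.filter (fun q : ℕ => (q : ℤ) ∣ h)).card ≤ j + 5 := by
  classical
  set T := P.filter (fun q : ℕ => (q : ℤ) ∣ h) with hT
  by_contra hcon
  have hw : j + 6 ≤ T.card := by omega
  have hprod : ∏ q ∈ T, q ∣ h.natAbs := by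
    apply Finset.prod_primes_dvd
    · intro q hq
      exact (hP q (mem_filter.1 hq).1).1.prime
    · intro q hq
      exact Int.natCast_dvd.1 (mem_filter.1 hq).2
  have hlow : (Y + 1) ^ T.card ≤ ∏ q ∈ T, q := by
    rw [← Finset.prod_const]
    exact Finset.prod_le_prod (fun _ _ => Nat.zero_le _)
      (fun q hq => (hP q (mem_filter.1 hq).1).2.1)
  have hpos : 0 < h.natAbs := Int.natAbs_pos.2 h0
  have h1 : (Y + 1) ^ T.card ≤ h.natAbs := hlow.trans (Nat.le_of_dvd hpos hprod)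
  have h2 : h.natAbs ≤ 2 ^ (j + 2) * x := by
    have : ((h.natAbs : ℕ) : ℤ) ≤ 2 ^ (j + 2) * (x : ℤ) := by
      rw [Int.natCast_natAbs]; exact hh
    exact_mod_cast this
  have h3 : 2 ^ (j + 2) * x ≤ 2 ^ (j + 2) * (Y + 1) ^ 3 := Nat.mul_le_mul_left _ hxY
  have h4 : (Y + 1) ^ (j + 6) ≤ (Y + 1) ^ T.card := Nat.pow_le_pow_right (by omega) hw
  have h5 : 2 ^ (j + 3) * (Y + 1) ^ 3 ≤ (Y + 1) ^ (j + 6) := by
    have : (Y + 1) ^ (j + 6) = (Y + 1) ^ (j + 3) * (Y + 1) ^ 3 := by rw [← pow_add]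
    rw [this]
    exact Nat.mul_le_mul_right _ (Nat.pow_le_pow_left (by omega) _)
  have h6 : 2 ^ (j + 3) * (Y + 1) ^ 3 = 2 * (2 ^ (j + 2) * (Y + 1) ^ 3) := by
    rw [show j + 3 = (j + 2) + 1 by omega, pow_succ]; ring
  have h7 : 0 < 2 ^ (j + 2) * (Y + 1) ^ 3 := by positivity
  omega

theorem shell (x J D q j : ℕ) (ρ : ℕ → ℝ) (hx : 1 ≤ x) (hJ : 1 ≤ J) (hD : 1 ≤ D) (hq : q.Prime)
    (hqD : D < q) (hdiv : ∀ k : ℕ, 1 ≤ k → k ≤ q * D ^ 2 → k ∣ 2 * x * J) (h : q * D ^ 2 ≤ 2 * x)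
    (a : ℤ) :
    ∑ n ∈ Icc (-((2 ^ (j + 1) * x : ℕ) : ℤ)) ((2 ^ (j + 1) * x : ℕ) : ℤ),
        lam D ρ n * (if (q : ℤ) ∣ n - a then (1 : ℝ) else 0) ≤
      Real.pi ^ 2 * (2 ^ (j + 1) * x) / (2 * q) * GG D ρ := by
  have hX : 1 ≤ 2 ^ (j + 1) * x := Nat.one_le_iff_ne_zero.2 (by positivity)
  set X : ℕ := 2 ^ (j + 1) * x with hXdef
  have hxX : x ≤ X := by
    rw [hXdef]
    calc x = 1 * x := (one_mul x).symm
      _ ≤ 2 ^ (j + 1) * x := Nat.mul_le_mul_right _ Nat.one_le_two_pow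
  have hJ2 : 1 ≤ 2 * J := by omega
  have hdiv' : ∀ k : ℕ, 1 ≤ k → k ≤ q * D ^ 2 → k ∣ 2 * X * (2 * J) := by
    intro k hk1 hk2
    obtain ⟨w, hw⟩ := hdiv k hk1 hk2
    refine ⟨w * (2 ^ (j + 1) * 2), ?_⟩
    have : 2 * X * (2 * J) = (2 * x * J) * (2 ^ (j + 1) * 2) := by rw [hXdef]; ring
    rw [this, hw]; ring
  have h' : q * D ^ 2 ≤ 2 * X := h.trans (by omega)
  have hcop : ∀ d : ℕ, 1 ≤ d → d ≤ D → Nat.Coprime d q := by
    intro d hd1 hd2
    refine Nat.Coprime.symm ((Nat.Prime.coprime_iff_not_dvd hq).2 (fun hdvd => ?_))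
    have := Nat.le_of_dvd hd1 hdvd
    omega
  have hex := ex_one X (2 * J) D q ρ hX hJ2 hq.one_lt.le hD hdiv' h' hcop a
  have hval : Real.pi ^ 2 * (2 ^ (j + 1) * x) / (2 * q) * GG D ρ =
      Real.pi ^ 2 * (X : ℝ) / (2 * q) * GG D ρ := by
    rw [hXdef]; push_cast; ring
  rw [hval, ← hex]
  have hsub : Icc (-(X : ℤ)) (X : ℤ) ⊆ RW X (2 * J) := by
    intro n hn
    rw [mem_Icc] at hn
    unfold RW
    rw [mem_Ico]
    have h1 : (X : ℤ) < (X : ℤ) * ((2 * J : ℕ) : ℤ) := by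
      have h2 : X < X * (2 * J) := by nlinarith
      exact_mod_cast h2
    constructor <;> linarith [hn.1, hn.2]
  have hnn : ∀ n : ℤ, 0 ≤ lam D ρ n * (if (q : ℤ) ∣ n - a then (1 : ℝ) else 0) := by
    intro n
    refine mul_nonneg (lam_nonneg D ρ n) ?_
    split_ifs <;> norm_num
  calc ∑ n ∈ Icc (-(X : ℤ)) (X : ℤ), lam D ρ n * (if (q : ℤ) ∣ n - a then (1 : ℝ) else 0)
      ≤ ∑ n ∈ Icc (-(X : ℤ)) (X : ℤ),
          ww X (2 * J) n * lam D ρ n * (if (q : ℤ) ∣ n - a then (1 : ℝ) else 0) := by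
        refine sum_le_sum fun n hn => ?_
        rw [mem_Icc] at hn
        have h1 := Pool.Agent.H80.KF.ww_ge_one X (2 * J) hX hJ2 n (abs_le.2 hn)
        rw [mul_assoc]
        exact le_mul_of_one_le_left (hnn n) h1
    _ ≤ ∑ n ∈ RW X (2 * J),
          ww X (2 * J) n * lam D ρ n * (if (q : ℤ) ∣ n - a then (1 : ℝ) else 0) := by
        refine sum_le_sum_of_subset_of_nonneg hsub fun n _ _ => ?_
        rw [mul_assoc]
        exact mul_nonneg (Pool.Agent.H80.KF.ww_nonneg _ _ _) (hnn n)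

end Pool.Agent.H80.BE

end

section

/-!
# BE Dg: one residue

`S = ∑_{q ∈ P} |c q|/q`, `μ = ∑_{q ∈ P} 1/(q-1) ≤ 2`.
`TT² ≤ 2 (∑_{q ∣ n-a} |c q|)² + 2 (∑ |c q|/(q-1))²`.
* second part: `(∑ |c q|/(q-1))² ≤ 2 ∑ |c q|/(q-1) ≤ 4 S` (`1/(q-1) ≤ 2/q`), `ex_zero`, `π²/2 ≤ 5`: total `≤ 40 x GG S`.
* first part: for `n ≠ a`, `|n| ≤ 2^{j+1} x` the number of `q ∈ P` dividing `n - a`, `|n - a| ≤ 2^{j+2} x ≤ 2^{j+2} (Y+1)³`, is
  at most `j + 5` (`omega_le`; the product of `w` of them divides `n - a` and is `≥ (Y+1)^w`, `Y + 1 ≥ 2`), so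
  `(∑_{q ∣ n-a} |c q|)² ≤ (j+5) ∑_{q ∣ n-a} |c q|`.  Shells: `|n| ≤ 2x`: `ww ≤ 3` (`KF.ww_le`);
  `2^j x < |n| ≤ 2^{j+1} x`: `ww ≤ 3x²/n² ≤ 3 · 4^{-j}` (`KF.ww_decay`).  `shell`: with `X = 2^{j+1} x`,
  `∑_{|n| ≤ X} lam 1_{q ∣ n-a} ≤ ∑_{n ∈ RW X (2J)} ww X (2J) n lam 1_{q ∣ n-a} = (π² X/(2q)) GG` (`KF.ww_ge_one`,
  `KF.ww_nonneg`, `ex_one`).  Sum over `j`: `2 ∑_j 3 · 4^{-j} (j+5) π² 2^j x GG S ≤ 72 π² x GG S ≤ 720 x GG S`
  (`∑_j (j+5) 2^{-j} ≤ 12`, finitely many `j`: `2^j x ≤ x J`).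
-/

set_option autoImplicit false

namespace Pool.Agent.H80.BE

open Finset
open Pool.Agent.H80.KF (ee kf ww RW fej)

private lemma Dg_level (x J : ℕ) (hx : 1 ≤ x) (hJ : 1 ≤ J) (n : ℤ) (hn : |n| ≤ (x : ℤ) * J) :
    ∃ j ∈ range J, |n| ≤ 2 ^ (j + 1) * (x : ℤ) ∧ ww x J n ≤ 3 / 4 ^ j := by
  classical
  have hx0 : (0 : ℤ) < x := by exact_mod_cast hx
  have h1 : |n| ≤ 2 ^ ((J - 1) + 1) * (x : ℤ) := by
    have h2 : (J : ℤ) ≤ 2 ^ ((J - 1) + 1) := by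
      have h3 : J < 2 ^ J := Nat.lt_two_pow_self
      have h4 : (J - 1) + 1 = J := by omega
      rw [h4]
      exact_mod_cast h3.le
    calc |n| ≤ (x : ℤ) * J := hn
      _ ≤ (x : ℤ) * 2 ^ ((J - 1) + 1) := mul_le_mul_of_nonneg_left h2 hx0.le
      _ = 2 ^ ((J - 1) + 1) * (x : ℤ) := mul_comm _ _
  have hex : ∃ j : ℕ, |n| ≤ 2 ^ (j + 1) * (x : ℤ) := ⟨_, h1⟩
  have hlt : Nat.find hex < J := by
    have := Nat.find_min' hex h1
    omega
  refine ⟨Nat.find hex, mem_range.2 hlt, Nat.find_spec hex, ?_⟩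
  rcases hk : Nat.find hex with _ | k
  · simpa using Pool.Agent.H80.KF.ww_le x J hx hJ n
  · have h2 : ¬ |n| ≤ 2 ^ (k + 1) * (x : ℤ) := Nat.find_min hex (by omega)
    have h3 : (2 : ℝ) ^ (k + 1) * (x : ℝ) < |(n : ℝ)| := by
      have : (2 : ℤ) ^ (k + 1) * (x : ℤ) < |n| := not_le.1 h2
      exact_mod_cast this
    have hxR : (0 : ℝ) < x := by exact_mod_cast hx
    have h4 : (4 : ℝ) ^ (k + 1) * (x : ℝ) ^ 2 ≤ (n : ℝ) ^ 2 := by
      have h5 := pow_le_pow_left₀ (by positivity) h3.le 2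
      rw [sq_abs, mul_pow, ← pow_mul, mul_comm (k + 1) 2, pow_mul] at h5
      norm_num at h5 ⊢
      exact h5
    have h5 := Pool.Agent.H80.KF.ww_decay x J hx hJ n hn
    have h6 := mul_le_mul_of_nonneg_left h4 (Pool.Agent.H80.KF.ww_nonneg x J n)
    rw [le_div_iff₀ (by positivity)]
    have h7 : ww x J n * 4 ^ (k + 1) * (x : ℝ) ^ 2 ≤ 3 * (x : ℝ) ^ 2 := by linarith only [h5, h6]
    exact le_of_mul_le_mul_right h7 (by positivity)

private lemma Dg_series (J : ℕ) : ∑ j ∈ range J, ((j : ℝ) + 5) / 2 ^ j ≤ 12 := by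
  have h : ∑ j ∈ range J, ((j : ℝ) + 5) / 2 ^ j = 12 - (2 * (J : ℝ) + 12) / 2 ^ J := by
    induction J with
    | zero => simp
    | succ J ih =>
      rw [sum_range_succ, ih, pow_succ]
      push_cast
      field_simp
      ring
  rw [h]
  have : 0 ≤ (2 * (J : ℝ) + 12) / 2 ^ J := by positivity
  linarith only [this]

private lemma Dg_pi : Real.pi ^ 2 ≤ 10 := by
  have h := Real.pi_lt_d2
  have h0 := Real.pi_pos
  nlinarith only [h, h0]

private lemma Dg_tt (Y Z : ℕ) (hY : 2 ≤ Y) (P : Finset ℕ) (hP : PS Y Z P) (c : ℕ → ℝ) (a n : ℤ) :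
    TT P c a n ^ 2 ≤ 2 * (∑ q ∈ P, |c q| * (if (q : ℤ) ∣ n - a then (1 : ℝ) else 0)) ^ 2 +
      2 * (∑ q ∈ P, |c q| * (1 / ((q : ℝ) - 1))) ^ 2 := by
  have h1 : |TT P c a n| ≤ (∑ q ∈ P, |c q| * (if (q : ℤ) ∣ n - a then (1 : ℝ) else 0)) +
      ∑ q ∈ P, |c q| * (1 / ((q : ℝ) - 1)) := by
    rw [← sum_add_distrib]
    unfold TT
    refine (abs_sum_le_sum_abs _ _).trans (sum_le_sum fun q hq => ?_)
    have hq1 := (hP q hq).2.1
    have hq2 : (1 : ℝ) < q := by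
      have : 1 < q := by omega
      exact_mod_cast this
    rw [abs_mul, ← mul_add]
    apply mul_le_mul_of_nonneg_left _ (abs_nonneg _)
    have h2 : (0 : ℝ) ≤ 1 / ((q : ℝ) - 1) := by
      apply div_nonneg zero_le_one
      linarith only [hq2]
    refine (abs_sub _ _).trans ?_
    rw [abs_of_nonneg h2]
    apply add_le_add _ le_rfl
    split_ifs
    · rw [abs_one]
    · rw [abs_zero]
  have h2 := pow_le_pow_left₀ (abs_nonneg _) h1 2
  rw [sq_abs] at h2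
  have h3 := sq_nonneg ((∑ q ∈ P, |c q| * (if (q : ℤ) ∣ n - a then (1 : ℝ) else 0)) -
      ∑ q ∈ P, |c q| * (1 / ((q : ℝ) - 1)))
  nlinarith

private lemma Dg_A (Y Z x j : ℕ) (hY : 2 ≤ Y) (hxY : x ≤ (Y + 1) ^ 3) (P : Finset ℕ) (hP : PS Y Z P)
    (c : ℕ → ℝ) (hc : ∀ q, |c q| ≤ 1) (a n : ℤ) (ha : |a| ≤ x) (hna : n ≠ a)
    (hn : |n| ≤ 2 ^ (j + 1) * (x : ℤ)) :
    (∑ q ∈ P, |c q| * (if (q : ℤ) ∣ n - a then (1 : ℝ) else 0)) ^ 2 ≤
      ((j : ℝ) + 5) * ∑ q ∈ P, |c q| * (if (q : ℤ) ∣ n - a then (1 : ℝ) else 0) := by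
  have h0 : n - a ≠ 0 := sub_ne_zero.2 hna
  have hx0 : (0 : ℤ) ≤ x := Int.natCast_nonneg x
  have h1 : |n - a| ≤ 2 ^ (j + 2) * (x : ℤ) := by
    have h2 : |n - a| ≤ |n| + |a| := abs_sub n a
    have h3 : (x : ℤ) ≤ 2 ^ (j + 1) * x := by
      have : (1 : ℤ) ≤ 2 ^ (j + 1) := one_le_pow₀ (by norm_num)
      nlinarith only [this]
    have h4 : (2 : ℤ) ^ (j + 2) * x = 2 ^ (j + 1) * x + 2 ^ (j + 1) * x := by ring
    rw [h4]
    linarith only [ha, hn, h2, h3]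
  have h2 := omega_le x Y Z j hY hxY P hP (n - a) h0 h1
  have h3 : (∑ q ∈ P, |c q| * (if (q : ℤ) ∣ n - a then (1 : ℝ) else 0)) ≤ (j : ℝ) + 5 := by
    calc (∑ q ∈ P, |c q| * (if (q : ℤ) ∣ n - a then (1 : ℝ) else 0))
        ≤ ∑ q ∈ P, (if (q : ℤ) ∣ n - a then (1 : ℝ) else 0) := by
          apply sum_le_sum
          intro q _
          split_ifs
          · rw [mul_one]
            exact hc q
          · rw [mul_zero]
      _ = ((P.filter (fun q : ℕ => (q : ℤ) ∣ n - a)).card : ℝ) := by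
          rw [← sum_filter, sum_const, nsmul_eq_mul, mul_one]
      _ ≤ ((j + 5 : ℕ) : ℝ) := by exact_mod_cast h2
      _ = (j : ℝ) + 5 := by push_cast; ring
  have h4 : 0 ≤ ∑ q ∈ P, |c q| * (if (q : ℤ) ∣ n - a then (1 : ℝ) else 0) := by
    apply sum_nonneg
    intro q _
    apply mul_nonneg (abs_nonneg _)
    split_ifs
    · exact zero_le_one
    · exact le_rfl
  rw [sq]
  exact mul_le_mul_of_nonneg_right h3 h4

theorem diag (x J D Y Z : ℕ) (ρ : ℕ → ℝ) (hx : 2 ≤ x) (hJ : 1 ≤ J) (hD : 1 ≤ D) (hDY : D ≤ Y)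
    (hY : 2 ≤ Y) (hxY : x ≤ (Y + 1) ^ 3) (hYZ : Y ≤ Z) (hZ : Z * D ^ 2 ≤ 2 * x)
    (hdiv : ∀ k : ℕ, 1 ≤ k → k ≤ Z * D ^ 2 → k ∣ 2 * x * J) (hρ : SW D ρ) (hG : 0 ≤ GG D ρ)
    (P : Finset ℕ) (hP : PS Y Z P) (hμ : ∑ q ∈ P, 1 / ((q : ℝ) - 1) ≤ 2) (a : ℤ) (ha : |a| ≤ x)
    (c : ℕ → ℝ) (hc : ∀ q, |c q| ≤ 1) :
    ∑ n ∈ (RW x J).filter (fun n => n ≠ a), ww x J n * lam D ρ n * TT P c a n ^ 2 ≤
      1000 * x * GG D ρ * ∑ q ∈ P, |c q| / q := by
  classical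
  have hx1 : 1 ≤ x := by omega
  have hxR : (0 : ℝ) < x := by exact_mod_cast hx1
  have hpi := Dg_pi
  set S : ℝ := ∑ q ∈ P, |c q| / q with hS
  have hS0 : 0 ≤ S := sum_nonneg fun q _ => div_nonneg (abs_nonneg _) (Nat.cast_nonneg _)
  set A : ℤ → ℝ := fun n => ∑ q ∈ P, |c q| * (if (q : ℤ) ∣ n - a then (1 : ℝ) else 0) with hA
  set B : ℝ := ∑ q ∈ P, |c q| * (1 / ((q : ℝ) - 1)) with hB
  have hw : ∀ n, 0 ≤ ww x J n := fun n => Pool.Agent.H80.KF.ww_nonneg x J n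
  have hl : ∀ n, 0 ≤ lam D ρ n := fun n => lam_nonneg D ρ n
  have hA0 : ∀ n, 0 ≤ A n := by
    intro n
    apply sum_nonneg
    intro q _
    apply mul_nonneg (abs_nonneg _)
    split_ifs
    · exact zero_le_one
    · exact le_rfl
  have hq2 : ∀ q ∈ P, (2 : ℝ) < q := by
    intro q hq
    have := (hP q hq).2.1
    have h2 : 2 < q := by omega
    exact_mod_cast h2
  have hB0 : 0 ≤ B := by
    apply sum_nonneg
    intro q hq
    have := hq2 q hq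
    exact mul_nonneg (abs_nonneg _) (div_nonneg zero_le_one (by linarith only [this]))
  -- the second part
  have hBS : B ≤ 2 * S := by
    rw [hB, hS, mul_sum]
    apply sum_le_sum
    intro q hq
    have h1 := hq2 q hq
    have h2 : 1 / ((q : ℝ) - 1) ≤ 2 / q := by
      rw [div_le_div_iff₀ (by linarith only [h1]) (by linarith only [h1])]
      linarith only [h1]
    calc |c q| * (1 / ((q : ℝ) - 1)) ≤ |c q| * (2 / q) := mul_le_mul_of_nonneg_left h2 (abs_nonneg _)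
      _ = 2 * (|c q| / q) := by ring
  have hB2 : B ≤ 2 := by
    refine le_trans ?_ hμ
    apply sum_le_sum
    intro q hq
    have h1 := hq2 q hq
    have h2 : (0 : ℝ) ≤ 1 / ((q : ℝ) - 1) := div_nonneg zero_le_one (by linarith only [h1])
    calc |c q| * (1 / ((q : ℝ) - 1)) ≤ 1 * (1 / ((q : ℝ) - 1)) := mul_le_mul_of_nonneg_right (hc q) h2
      _ = 1 / ((q : ℝ) - 1) := one_mul _
  have hBsq : B ^ 2 ≤ 4 * S := by nlinarith only [hS0, hB2, hB0, hBS]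
  have hD2 : D ^ 2 ≤ Z * D ^ 2 := Nat.le_mul_of_pos_left _ (by omega)
  have hz := ex_zero x J D ρ hx1 hJ hD (fun k h1 h2 => hdiv k h1 (h2.trans hD2)) (hD2.trans hZ)
  have hpart2 : ∑ n ∈ (RW x J).filter (fun n => n ≠ a), ww x J n * lam D ρ n * (2 * B ^ 2) ≤
      40 * x * GG D ρ * S := by
    rw [← sum_mul]
    have h1 : ∑ n ∈ (RW x J).filter (fun n => n ≠ a), ww x J n * lam D ρ n ≤
        ∑ n ∈ RW x J, ww x J n * lam D ρ n :=
      sum_le_sum_of_subset_of_nonneg (filter_subset _ _) fun n _ _ => mul_nonneg (hw n) (hl n)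
    rw [hz] at h1
    have h2 : Real.pi ^ 2 * x / 2 * GG D ρ ≤ 5 * x * GG D ρ := by
      apply mul_le_mul_of_nonneg_right _ hG
      nlinarith only [hpi]
    calc (∑ n ∈ (RW x J).filter (fun n => n ≠ a), ww x J n * lam D ρ n) * (2 * B ^ 2)
        ≤ (5 * x * GG D ρ) * (2 * (4 * S)) := by
          apply mul_le_mul (h1.trans h2) (by linarith only [hBsq]) (by positivity) (by positivity)
      _ = 40 * x * GG D ρ * S := by ring
  -- the first part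
  have hpt : ∀ n ∈ (RW x J).filter (fun n => n ≠ a), ww x J n * lam D ρ n * A n ^ 2 ≤
      ∑ j ∈ range J, (if |n| ≤ 2 ^ (j + 1) * (x : ℤ) then
        3 / 4 ^ j * ((j : ℝ) + 5) * (lam D ρ n * A n) else 0) := by
    intro n hn
    rw [mem_filter] at hn
    obtain ⟨hn1, hna⟩ := hn
    have hn2 : |n| ≤ (x : ℤ) * J := by
      rw [RW, mem_Ico] at hn1
      rw [abs_le]
      exact ⟨hn1.1, hn1.2.le⟩
    obtain ⟨j, hj, h1, h2⟩ := Dg_level x J hx1 hJ n hn2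
    have h3 := Dg_A Y Z x j hY hxY P hP c hc a n ha hna h1
    have h4 : ww x J n * lam D ρ n * A n ^ 2 ≤ 3 / 4 ^ j * ((j : ℝ) + 5) * (lam D ρ n * A n) := by
      calc ww x J n * lam D ρ n * A n ^ 2 ≤ ww x J n * lam D ρ n * (((j : ℝ) + 5) * A n) :=
            mul_le_mul_of_nonneg_left h3 (mul_nonneg (hw n) (hl n))
        _ = ww x J n * (((j : ℝ) + 5) * (lam D ρ n * A n)) := by ring
        _ ≤ 3 / 4 ^ j * (((j : ℝ) + 5) * (lam D ρ n * A n)) := by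
            apply mul_le_mul_of_nonneg_right h2
            exact mul_nonneg (by positivity) (mul_nonneg (hl n) (hA0 n))
        _ = 3 / 4 ^ j * ((j : ℝ) + 5) * (lam D ρ n * A n) := by ring
    refine h4.trans ?_
    have h5 := single_le_sum (f := fun j : ℕ => if |n| ≤ 2 ^ (j + 1) * (x : ℤ) then
        3 / 4 ^ j * ((j : ℝ) + 5) * (lam D ρ n * A n) else 0) (s := range J) (fun i _ => by
          split_ifs
          · exact mul_nonneg (by positivity) (mul_nonneg (hl n) (hA0 n))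
          · exact le_rfl) hj
    rwa [if_pos h1] at h5
  have hsh : ∀ j : ℕ, ∑ n ∈ (RW x J).filter (fun n => n ≠ a), (if |n| ≤ 2 ^ (j + 1) * (x : ℤ) then
        3 / 4 ^ j * ((j : ℝ) + 5) * (lam D ρ n * A n) else 0) ≤
      30 * x * GG D ρ * S * (((j : ℝ) + 5) / 2 ^ j) := by
    intro j
    have h1 : ∑ n ∈ (RW x J).filter (fun n => n ≠ a), (if |n| ≤ 2 ^ (j + 1) * (x : ℤ) then
        3 / 4 ^ j * ((j : ℝ) + 5) * (lam D ρ n * A n) else 0) ≤
        ∑ n ∈ Icc (-((2 ^ (j + 1) * x : ℕ) : ℤ)) ((2 ^ (j + 1) * x : ℕ) : ℤ),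
          3 / 4 ^ j * ((j : ℝ) + 5) * (lam D ρ n * A n) := by
      rw [← sum_filter]
      apply sum_le_sum_of_subset_of_nonneg
      · intro n hn
        rw [mem_filter] at hn
        rw [mem_Icc]
        have h2 := abs_le.1 hn.2
        push_cast
        exact h2
      · intro n _ _
        exact mul_nonneg (by positivity) (mul_nonneg (hl n) (hA0 n))
    refine h1.trans ?_
    rw [← mul_sum]
    have h2 : ∑ n ∈ Icc (-((2 ^ (j + 1) * x : ℕ) : ℤ)) ((2 ^ (j + 1) * x : ℕ) : ℤ), lam D ρ n * A n =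
        ∑ q ∈ P, |c q| * ∑ n ∈ Icc (-((2 ^ (j + 1) * x : ℕ) : ℤ)) ((2 ^ (j + 1) * x : ℕ) : ℤ),
          lam D ρ n * (if (q : ℤ) ∣ n - a then (1 : ℝ) else 0) := by
      simp only [hA, mul_sum]
      rw [sum_comm]
      apply sum_congr rfl
      intro q _
      apply sum_congr rfl
      intro n _
      ring
    have h3 : ∑ n ∈ Icc (-((2 ^ (j + 1) * x : ℕ) : ℤ)) ((2 ^ (j + 1) * x : ℕ) : ℤ), lam D ρ n * A n ≤
        10 * 2 ^ j * x * GG D ρ * S := by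
      rw [h2, hS, mul_sum]
      apply sum_le_sum
      intro q hq
      obtain ⟨hqp, hqY, hqZ⟩ := hP q hq
      have hqD2 : q * D ^ 2 ≤ Z * D ^ 2 := Nat.mul_le_mul_right _ hqZ
      have h4 := shell x J D q j ρ hx1 hJ hD hqp (by omega) (fun k h5 h6 => hdiv k h5 (h6.trans hqD2))
        (hqD2.trans hZ) a
      have hq0 : (0 : ℝ) < q := by
        have := hq2 q hq
        linarith only [this]
      have h5 : Real.pi ^ 2 * (2 ^ (j + 1) * x) / (2 * q) * GG D ρ ≤ 10 * 2 ^ j * x / q * GG D ρ := by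
        apply mul_le_mul_of_nonneg_right _ hG
        rw [div_le_div_iff₀ (by positivity) hq0]
        have h6 : Real.pi ^ 2 * (2 ^ (j + 1) * x) * q ≤ 10 * (2 ^ (j + 1) * x) * q := by
          apply mul_le_mul_of_nonneg_right _ hq0.le
          exact mul_le_mul_of_nonneg_right hpi (by positivity)
        refine h6.trans (le_of_eq ?_)
        ring
      calc |c q| * ∑ n ∈ Icc (-((2 ^ (j + 1) * x : ℕ) : ℤ)) ((2 ^ (j + 1) * x : ℕ) : ℤ),
            lam D ρ n * (if (q : ℤ) ∣ n - a then (1 : ℝ) else 0)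
          ≤ |c q| * (10 * 2 ^ j * x / q * GG D ρ) :=
            mul_le_mul_of_nonneg_left (h4.trans h5) (abs_nonneg _)
        _ = 10 * 2 ^ j * x * GG D ρ * (|c q| / q) := by ring
    calc 3 / 4 ^ j * ((j : ℝ) + 5) *
          ∑ n ∈ Icc (-((2 ^ (j + 1) * x : ℕ) : ℤ)) ((2 ^ (j + 1) * x : ℕ) : ℤ), lam D ρ n * A n
        ≤ 3 / 4 ^ j * ((j : ℝ) + 5) * (10 * 2 ^ j * x * GG D ρ * S) :=
          mul_le_mul_of_nonneg_left h3 (by positivity)
      _ = 30 * x * GG D ρ * S * (((j : ℝ) + 5) / 2 ^ j) := by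
          have h4 : (4 : ℝ) ^ j = 2 ^ j * 2 ^ j := by
            rw [← mul_pow]
            norm_num
          rw [h4]
          field_simp
          ring
  have hpart1 : ∑ n ∈ (RW x J).filter (fun n => n ≠ a), ww x J n * lam D ρ n * (2 * A n ^ 2) ≤
      720 * x * GG D ρ * S := by
    have h1 : ∑ n ∈ (RW x J).filter (fun n => n ≠ a), ww x J n * lam D ρ n * A n ^ 2 ≤
        360 * x * GG D ρ * S := by
      refine (sum_le_sum hpt).trans ?_
      rw [sum_comm]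
      refine (sum_le_sum fun j _ => hsh j).trans ?_
      rw [← mul_sum]
      have h2 := mul_le_mul_of_nonneg_left (Dg_series J)
        (by positivity : (0 : ℝ) ≤ 30 * x * GG D ρ * S)
      refine h2.trans (le_of_eq ?_)
      ring
    have h2 : ∑ n ∈ (RW x J).filter (fun n => n ≠ a), ww x J n * lam D ρ n * (2 * A n ^ 2) =
        2 * ∑ n ∈ (RW x J).filter (fun n => n ≠ a), ww x J n * lam D ρ n * A n ^ 2 := by
      rw [mul_sum]
      apply sum_congr rfl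
      intro n _
      ring
    rw [h2]
    linarith only [h1]
  calc ∑ n ∈ (RW x J).filter (fun n => n ≠ a), ww x J n * lam D ρ n * TT P c a n ^ 2
      ≤ ∑ n ∈ (RW x J).filter (fun n => n ≠ a), (ww x J n * lam D ρ n * (2 * A n ^ 2) +
          ww x J n * lam D ρ n * (2 * B ^ 2)) := by
        apply sum_le_sum
        intro n _
        rw [← mul_add]
        exact mul_le_mul_of_nonneg_left (Dg_tt Y Z hY P hP c a n) (mul_nonneg (hw n) (hl n))
    _ ≤ 720 * x * GG D ρ * S + 40 * x * GG D ρ * S := by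
        rw [sum_add_distrib]
        exact add_le_add hpart1 hpart2
    _ ≤ 1000 * x * GG D ρ * S := by
        have : 0 ≤ (x : ℝ) * GG D ρ * S := by positivity
        nlinarith only [this]

end Pool.Agent.H80.BE

end
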