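import Pool.Agent.H94.EH.H91.EHA.GMain
import Pool.Agent.H94.EH.M16

/-! The parts of this file: H80.BE.Small, H80.BE.Pr, H80.BE.Off, H80.BE.Tot, H80.BE.Dual, H80.BE.Fin, H80.BE.FinB, H80.BE.FinC. -/

section

/-!
# BE Small: the primes `q ≤ x^{1/3}` (Bombieri-Vinogradov)

For each prime `q` let `b q ∈ B q`, `q ∤ b q`, maximize `|EE x q a|` (if there is such an `a`); the inner sum is
`≤ K |EE x q (b q)|`, and `EE x q a = Pool.Agent.H91.EHA.err x q (a : ZMod q)` (`(q:ℤ) ∣ p - a` iff `(p : ZMod q) = a`,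
`φ(q) = q - 1`).  `Pool.Agent.H91.EHA.classes_sum` with `θ = 1/3`, `ε = 1/4`, `H = 1`, `T q = {b q}` (`∅` if there is
no such `a` or `q` is not prime); `q² ≤ x^{2/3} ≤ x^{3/4}`.
-/

set_option autoImplicit false

namespace Pool.Agent.H80.BE

open Finset

private theorem Small_err (x q : ℕ) (hq : q.Prime) (a : ℤ) :
    EE x q a = Pool.Agent.H91.EHA.err x q (a : ZMod q) := by
  unfold EE Pool.Agent.H91.EHA.err
  have h1 : ((Nat.totient q : ℕ) : ℝ) = (q : ℝ) - 1 := by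
    rw [Nat.totient_prime hq, Nat.cast_pred hq.pos]
  rw [h1]
  congr 2
  refine congrArg card (filter_congr fun p _ => ?_)
  refine and_congr_right fun _ => ?_
  rw [← ZMod.intCast_zmod_eq_zero_iff_dvd]
  push_cast
  exact sub_eq_zero

private theorem Small_unit {q : ℕ} (hq : q.Prime) {a : ℤ} (ha : ¬ (q : ℤ) ∣ a) :
    IsUnit ((a : ZMod q)) := by
  have : Fact q.Prime := ⟨hq⟩
  rw [isUnit_iff_ne_zero]
  intro h
  exact ha ((ZMod.intCast_zmod_eq_zero_iff_dvd a q).1 h)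

/-- the maximal class -/
private theorem Small_max (x q K : ℕ) (B : Finset ℤ) (hB : B.card ≤ K) :
    ∃ T : Finset (ZMod q), (T.card : ℝ) ≤ 1 ∧ (∀ a ∈ T, IsUnit a) ∧
      (q.Prime → ∑ a ∈ B.filter (fun a => ¬ (q : ℤ) ∣ a), |EE x q a| ≤
        K * ∑ a ∈ T, |Pool.Agent.H91.EHA.err x q a|) := by
  by_cases hq : q.Prime
  swap
  · exact ⟨∅, by simp, by simp, fun h => absurd h hq⟩
  rcases (B.filter (fun a => ¬ (q : ℤ) ∣ a)).eq_empty_or_nonempty with he | hne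
  · refine ⟨∅, by simp, by simp, fun _ => ?_⟩
    rw [he]
    simp
  · obtain ⟨b, hb, hmax⟩ := exists_max_image _ (fun a => |EE x q a|) hne
    refine ⟨{(b : ZMod q)}, by simp, ?_, fun _ => ?_⟩
    · intro a ha
      rw [mem_singleton] at ha
      rw [ha]
      exact Small_unit hq (mem_filter.1 hb).2
    · rw [sum_singleton, ← Small_err x q hq b]
      refine (sum_le_card_nsmul _ _ _ hmax).trans ?_
      rw [nsmul_eq_mul]
      refine mul_le_mul_of_nonneg_right ?_ (abs_nonneg _)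
      exact_mod_cast (card_filter_le _ _).trans hB

theorem small (A : ℕ) : ∃ x0 : ℕ, ∀ x : ℕ, x0 ≤ x → ∀ (K : ℕ) (B : ℕ → Finset ℤ),
    (∀ q, (B q).card ≤ K) →
    ∑ q ∈ (Icc 1 ⌊(x : ℝ) ^ ((1 : ℝ) / 3)⌋₊).filter Nat.Prime,
      ∑ a ∈ (B q).filter (fun a => ¬ (q : ℤ) ∣ a), |EE x q a| ≤ K * x / Real.log x ^ A := by
  obtain ⟨x1, hx1⟩ := Pool.Agent.H91.EHA.classes_sum (1 / 3) (1 / 4) (by norm_num) (by norm_num) A
  refine ⟨max x1 1, fun x hx K B hB => ?_⟩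
  have hxx : x1 ≤ x := (le_max_left _ _).trans hx
  have hx2 : 1 ≤ x := (le_max_right _ _).trans hx
  have hxr : (1 : ℝ) ≤ x := by exact_mod_cast hx2
  have hx0 : (0 : ℝ) < x := by linarith
  choose T hT1 hT2 hT3 using fun q => Small_max x q K (B q) (hB q)
  have h := hx1 x hxx 1 T le_rfl hT1 hT2
  have hnn : ∀ q, 0 ≤ ∑ a ∈ T q, |Pool.Agent.H91.EHA.err x q a| := fun q =>
    sum_nonneg fun _ _ => abs_nonneg _
  calc ∑ q ∈ (Icc 1 ⌊(x : ℝ) ^ ((1 : ℝ) / 3)⌋₊).filter Nat.Prime,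
        ∑ a ∈ (B q).filter (fun a => ¬ (q : ℤ) ∣ a), |EE x q a| ≤
      ∑ q ∈ (Icc 1 ⌊(x : ℝ) ^ ((1 : ℝ) / 3)⌋₊).filter Nat.Prime,
        (K : ℝ) * ∑ a ∈ T q, |Pool.Agent.H91.EHA.err x q a| :=
        sum_le_sum fun q hq => hT3 q (mem_filter.1 hq).2
    _ = (K : ℝ) * ∑ q ∈ (Icc 1 ⌊(x : ℝ) ^ ((1 : ℝ) / 3)⌋₊).filter Nat.Prime,
        ∑ a ∈ T q, |Pool.Agent.H91.EHA.err x q a| := by rw [mul_sum]
    _ ≤ (K : ℝ) * (1 * x / Real.log x ^ A) := by
        refine mul_le_mul_of_nonneg_left (le_trans ?_ h) (Nat.cast_nonneg _)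
        refine sum_le_sum_of_subset_of_nonneg ?_ fun q _ _ => hnn q
        intro q hq
        rw [mem_filter] at hq ⊢
        refine ⟨hq.1, ?_⟩
        have hq1 : (q : ℝ) ≤ (x : ℝ) ^ ((1 : ℝ) / 3) := by
          have h1 := (mem_Icc.1 hq.1).2
          exact (Nat.le_floor_iff (by positivity)).1 h1
        calc (q : ℝ) ^ 2 ≤ ((x : ℝ) ^ ((1 : ℝ) / 3)) ^ 2 :=
              pow_le_pow_left₀ (Nat.cast_nonneg _) hq1 2
          _ = (x : ℝ) ^ ((2 : ℝ) / 3) := by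
              rw [← Real.rpow_natCast, ← Real.rpow_mul hx0.le]
              norm_num
          _ ≤ (x : ℝ) ^ (1 - 1 / 4 : ℝ) := Real.rpow_le_rpow_of_exponent_le hxr (by norm_num)
          _ = 1 * (x : ℝ) ^ (1 - 1 / 4 : ℝ) := (one_mul _).symm
    _ = K * x / Real.log x ^ A := by ring

end Pool.Agent.H80.BE

end

section

/-!
# BE Pr: all pairs of primes

Every `q ∈ P` lies in exactly one block `(2^i, 2^{i+1}]`, `2^i < q ≤ Z`, so `i ≤ log₂ Z ≤ log₂ x`: at most `2 log x` values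
(`x` large).  The pairs `(q,q')` with `q` in block `i` and `q' ≤ 2^{i+1}`: `blk_sum`, `N = d 2^i ≤ d Z ≤ x`.
The other pairs: `q'` in block `j` and `q ≤ 2^j` (`q'` in block `j > i` means `2^{i+1} ≤ 2^j`): `blk_sum` with
the roles exchanged, `α = c'` on block `j`, `β q = c q` for `q ≤ 2^j`, `a'` and `a` exchanged, `n0 q' q`; the pairs
with `2^j < q ≤ 2^{j+1}`, `q'` in block `j`, are not included because `β` is supported on `q ≤ 2^j`
(`d * q * q' = d * q' * q`).  Total `2 · 2 log x · 8 d² log x (dZ)^{2-1/50}/x`.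
-/

set_option autoImplicit false

namespace Pool.Agent.H80.BE

open Finset
open Pool.Agent.H80.KF (ee kf ww RW fej)

/-- the index of the dyadic block of `q` -/
private def bl (q : ℕ) : ℕ := Nat.log 2 (q - 1)

private theorem bl_lt {q : ℕ} (hq : 2 < q) : 2 ^ bl q < q := by
  have h : 2 ^ bl q ≤ q - 1 := Nat.pow_log_le_self 2 (by omega)
  omega

private theorem bl_le {q : ℕ} (_hq : 2 < q) : q ≤ 2 ^ (bl q + 1) := by
  have h : q - 1 < 2 ^ (bl q + 1) := Nat.lt_pow_succ_log_self (by norm_num) (q - 1)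
  omega

private theorem bl_eq {q i : ℕ} (hq : 2 < q) (h1 : 2 ^ i < q) (h2 : q ≤ 2 ^ (i + 1)) : bl q = i := by
  unfold bl
  refine Nat.log_eq_of_pow_le_of_lt_pow (by omega) (by omega)

private theorem bl_split {q q' : ℕ} (hq : 2 < q) (hq' : 2 < q') :
    q ≤ 2 ^ bl q' ↔ ¬ q' ≤ 2 ^ (bl q + 1) := by
  constructor
  · intro h h'
    have h1 := bl_lt hq
    have h2 := bl_lt hq'
    have h3 : bl q < bl q' := (Nat.pow_lt_pow_iff_right (by norm_num : 1 < 2)).mp (h1.trans_le h)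
    have h4 : 2 ^ (bl q + 1) ≤ 2 ^ bl q' := Nat.pow_le_pow_right (by norm_num) h3
    omega
  · intro h
    have h1 := bl_le hq
    have h2 := bl_le hq'
    have h3 : bl q + 1 < bl q' + 1 :=
      (Nat.pow_lt_pow_iff_right (by norm_num : 1 < 2)).mp ((not_le.mp h).trans_le h2)
    have h4 : 2 ^ (bl q + 1) ≤ 2 ^ bl q' := Nat.pow_le_pow_right (by norm_num) (by omega)
    omega

/-- regrouping one block -/
private theorem Pr_block (P : Finset ℕ) (hP : ∀ q ∈ P, 2 < q) (i : ℕ) (T : ℕ → ℕ → ℂ)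
    (g : ℕ → ℕ → ℂ) (R : ℕ → Prop) [DecidablePred R]
    (hg : ∀ q q', g q q' = if q ∈ P ∧ q' ∈ P ∧ R q' then T q q' else 0) :
    ∑ q ∈ Ioc (2 ^ i) (2 ^ (i + 1)), ∑ q' ∈ (Icc 1 (2 ^ (i + 1))).filter (fun q' => q' ≠ q),
        g q q' =
      ∑ q ∈ P.filter (fun q => bl q = i), ∑ q' ∈ P,
        (if q' ≠ q ∧ q' ≤ 2 ^ (i + 1) ∧ R q' then T q q' else 0) := by
  have e1 : P.filter (fun q => bl q = i) = (Ioc (2 ^ i) (2 ^ (i + 1))).filter (fun q => q ∈ P) := by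
    ext q
    simp only [mem_filter, mem_Ioc]
    constructor
    · rintro ⟨h1, h2⟩
      have h3 := bl_lt (hP q h1)
      have h4 := bl_le (hP q h1)
      rw [h2] at h3 h4
      exact ⟨⟨h3, h4⟩, h1⟩
    · rintro ⟨⟨h1, h2⟩, h3⟩
      exact ⟨h3, bl_eq (hP q h3) h1 h2⟩
  rw [e1, sum_filter]
  refine sum_congr rfl fun q _ => ?_
  by_cases hq : q ∈ P
  · rw [if_pos hq, ← sum_filter, ← sum_filter_add_sum_filter_not
      ((Icc 1 (2 ^ (i + 1))).filter (fun q' => q' ≠ q)) (fun q' => q' ∈ P ∧ R q')]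
    have z : ∑ q' ∈ ((Icc 1 (2 ^ (i + 1))).filter (fun q' => q' ≠ q)).filter
        (fun q' => ¬ (q' ∈ P ∧ R q')), g q q' = 0 := by
      refine sum_eq_zero fun q' hq' => ?_
      rw [mem_filter] at hq'
      rw [hg, if_neg]
      rintro ⟨_, h2⟩
      exact hq'.2 h2
    rw [z, add_zero]
    have e2 : ((Icc 1 (2 ^ (i + 1))).filter (fun q' => q' ≠ q)).filter (fun q' => q' ∈ P ∧ R q') =
        P.filter (fun q' => q' ≠ q ∧ q' ≤ 2 ^ (i + 1) ∧ R q') := by
      ext q'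
      simp only [mem_filter, mem_Icc]
      constructor
      · rintro ⟨⟨⟨_, h2⟩, h3⟩, h4, h5⟩
        exact ⟨h4, h3, h2, h5⟩
      · rintro ⟨h1, h2, h3, h4⟩
        have := hP q' h1
        exact ⟨⟨⟨by omega, h3⟩, h2⟩, h1, h4⟩
    rw [e2]
    refine sum_congr rfl fun q' hq' => ?_
    rw [mem_filter] at hq'
    rw [hg, if_pos ⟨hq, hq'.1, hq'.2.2.2⟩]
  · rw [if_neg hq]
    refine sum_eq_zero fun q' _ => ?_
    rw [hg, if_neg]
    rintro ⟨h, _⟩
    exact hq h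

theorem pair_sum : ∃ x0 : ℕ, ∀ x d Z : ℕ, x0 ≤ x → 1 ≤ d → Odd d → d * Z ≤ x →
    ∀ P : Finset ℕ, (∀ q ∈ P, q.Prime ∧ Nat.Coprime d q ∧ 2 < q ∧ q ≤ Z) →
    ∀ a a' : ℤ, a ≠ a' → |a| ≤ x → |a'| ≤ x → ∀ c c' : ℕ → ℝ, (∀ q, |c q| ≤ 1) →
    (∀ q, |c' q| ≤ 1) → ∀ n0 : ℕ → ℕ → ℤ,
    (∀ q q' : ℕ, q.Prime → q'.Prime → q ≠ q' → Nat.Coprime d q → Nat.Coprime d q' →
      (d : ℤ) ∣ n0 q q' ∧ (q : ℤ) ∣ n0 q q' - a ∧ (q' : ℤ) ∣ n0 q q' - a') →
    ‖∑ q ∈ P, ∑ q' ∈ P.filter (fun q' => q' ≠ q),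
        ((c q * c' q' / ((d : ℝ) * q * q') : ℝ) : ℂ) * (fej x (d * q * q') (n0 q q') - 1)‖ ≤
      32 * (d : ℝ) ^ 2 * Real.log x ^ 2 * ((d : ℝ) * Z) ^ ((2 : ℝ) - 1 / 50) / x := by
  classical
  obtain ⟨x1, hx1⟩ := blk_sum
  refine ⟨max x1 8, ?_⟩
  intro x d Z hx hd hodd hdZ P hP a a' haa ha ha' c c' hc hc' n0 hn0
  have hxx1 : x1 ≤ x := le_trans (le_max_left _ _) hx
  have hx8 : 8 ≤ x := le_trans (le_max_right _ _) hx
  have hx8R : (8 : ℝ) ≤ x := by exact_mod_cast hx8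
  have hxpos : (0 : ℝ) < x := by linarith
  have hlog2 : (2 : ℝ) ≤ Real.log x := by
    have h1 : Real.log 8 ≤ Real.log x := Real.log_le_log (by norm_num) hx8R
    have h2 : Real.log 8 = 3 * Real.log 2 := by
      rw [show (8 : ℝ) = 2 ^ 3 by norm_num, Real.log_pow]; norm_num
    have h3 := Real.log_two_gt_d9
    linarith
  -- the terms
  set T : ℕ → ℕ → ℂ := fun q q' =>
    ((c q * c' q' / ((d : ℝ) * q * q') : ℝ) : ℂ) * (fej x (d * q * q') (n0 q q') - 1) with hT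
  set W : ℝ := 8 * (d : ℝ) ^ 2 * Real.log x * ((d : ℝ) * Z) ^ ((2 : ℝ) - 1 / 50) / x with hW
  have hWnn : 0 ≤ W := by
    rw [hW]
    have : 0 ≤ ((d : ℝ) * Z) ^ ((2 : ℝ) - 1 / 50) := Real.rpow_nonneg (by positivity) _
    have h2 : 0 ≤ Real.log x := by linarith
    positivity
  have hP2 : ∀ q ∈ P, 2 < q := fun q hq => (hP q hq).2.2.1
  set L : ℕ := Nat.log 2 Z + 1 with hL
  have hblL : ∀ q ∈ P, bl q ∈ range L := by
    intro q hq
    rw [mem_range, hL]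
    have h1 : bl q ≤ Nat.log 2 Z := by
      unfold bl
      refine Nat.log_mono_right ?_
      have := (hP q hq).2.2.2
      omega
    omega
  -- first family
  have hS1 : ‖∑ q ∈ P, ∑ q' ∈ P, (if q' ≠ q ∧ q' ≤ 2 ^ (bl q + 1) ∧ True then T q q' else 0)‖ ≤
      L * W := by
    rw [← sum_fiberwise_of_maps_to hblL]
    refine (norm_sum_le _ _).trans ?_
    have hb : ∀ i ∈ range L, ‖∑ q ∈ P.filter (fun q => bl q = i), ∑ q' ∈ P,
        (if q' ≠ q ∧ q' ≤ 2 ^ (bl q + 1) ∧ True then T q q' else 0)‖ ≤ W := by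
      intro i hi
      have hZ0 : Z = 0 ∨ 1 ≤ Z := by omega
      rcases hZ0 with hZ0 | hZ1
      · have hPe : P = ∅ := by
          rw [eq_empty_iff_forall_notMem]
          intro q hq
          have := hP q hq
          omega
        rw [hPe]
        simpa using hWnn
      have hiZ : 2 ^ i ≤ Z := by
        rw [mem_range, hL] at hi
        exact (Nat.pow_le_pow_right (by norm_num) (by omega : i ≤ Nat.log 2 Z)).trans
          (Nat.pow_log_le_self 2 (by omega))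
      have hNx : d * 2 ^ i ≤ x := (Nat.mul_le_mul_left d hiZ).trans hdZ
      have h := hx1 x d i (d * 2 ^ i) hxx1 hd hodd rfl hNx a a' haa ha ha'
        (fun q => if q ∈ P then c q else 0) (fun q => if q ∈ P then c' q else 0)
        (fun q => by split_ifs <;> simp [hc]) (fun q => by split_ifs <;> simp [hc'])
        (fun q hq => by
          have : q ∈ P := by
            by_contra hc; simp [hc] at hq
          exact ⟨(hP q this).1, (hP q this).2.1, (hP q this).2.2.1⟩)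
        (fun q hq => by
          have : q ∈ P := by
            by_contra hc; simp [hc] at hq
          exact ⟨(hP q this).1, (hP q this).2.1, (hP q this).2.2.1⟩) n0 hn0
      rw [Pr_block P hP2 i T _ (fun _ => True) (fun q q' => by
        by_cases h1 : q ∈ P <;> by_cases h2 : q' ∈ P <;> simp [h1, h2, hT])] at h
      have e : ∑ q ∈ P.filter (fun q => bl q = i), ∑ q' ∈ P,
          (if q' ≠ q ∧ q' ≤ 2 ^ (bl q + 1) ∧ True then T q q' else 0) =
          ∑ q ∈ P.filter (fun q => bl q = i), ∑ q' ∈ P,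
          (if q' ≠ q ∧ q' ≤ 2 ^ (i + 1) ∧ True then T q q' else 0) := by
        refine sum_congr rfl fun q hq => ?_
        rw [mem_filter] at hq
        rw [hq.2]
      rw [e]
      refine h.trans ?_
      rw [hW]
      have hm : (((d * 2 ^ i : ℕ) : ℝ)) ^ ((2 : ℝ) - 1 / 50) ≤
          ((d : ℝ) * Z) ^ ((2 : ℝ) - 1 / 50) := by
        refine Real.rpow_le_rpow (by positivity) ?_ (by norm_num)
        have : d * 2 ^ i ≤ d * Z := Nat.mul_le_mul_left d hiZ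
        exact_mod_cast this
      gcongr
    refine (sum_le_sum hb).trans ?_
    rw [sum_const, card_range, nsmul_eq_mul]
  -- second family
  have hS2 : ‖∑ q' ∈ P, ∑ q ∈ P, (if q ≤ 2 ^ bl q' then T q q' else 0)‖ ≤ L * W := by
    rw [← sum_fiberwise_of_maps_to hblL]
    refine (norm_sum_le _ _).trans ?_
    have hb : ∀ i ∈ range L, ‖∑ q' ∈ P.filter (fun q' => bl q' = i), ∑ q ∈ P,
        (if q ≤ 2 ^ bl q' then T q q' else 0)‖ ≤ W := by
      intro i hi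
      have hZ0 : Z = 0 ∨ 1 ≤ Z := by omega
      rcases hZ0 with hZ0 | hZ1
      · have hPe : P = ∅ := by
          rw [eq_empty_iff_forall_notMem]
          intro q hq
          have := hP q hq
          omega
        rw [hPe]
        simpa using hWnn
      have hiZ : 2 ^ i ≤ Z := by
        rw [mem_range, hL] at hi
        exact (Nat.pow_le_pow_right (by norm_num) (by omega : i ≤ Nat.log 2 Z)).trans
          (Nat.pow_log_le_self 2 (by omega))
      have hNx : d * 2 ^ i ≤ x := (Nat.mul_le_mul_left d hiZ).trans hdZ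
      have h := hx1 x d i (d * 2 ^ i) hxx1 hd hodd rfl hNx a' a haa.symm ha' ha
        (fun q => if q ∈ P then c' q else 0) (fun q => if q ∈ P ∧ q ≤ 2 ^ i then c q else 0)
        (fun q => by split_ifs <;> simp [hc']) (fun q => by split_ifs <;> simp [hc])
        (fun q hq => by
          have : q ∈ P := by
            by_contra hc; simp [hc] at hq
          exact ⟨(hP q this).1, (hP q this).2.1, (hP q this).2.2.1⟩)
        (fun q hq => by
          have : q ∈ P := by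
            by_contra hc; simp [hc] at hq
          exact ⟨(hP q this).1, (hP q this).2.1, (hP q this).2.2.1⟩) (fun q q' => n0 q' q)
        (fun q q' h1 h2 h3 h4 h5 => by
          obtain ⟨g1, g2, g3⟩ := hn0 q' q h2 h1 h3.symm h5 h4
          exact ⟨g1, g3, g2⟩)
      rw [Pr_block P hP2 i (fun q q' => T q' q) _ (fun q => q ≤ 2 ^ i) (fun q q' => by
        have em : d * q * q' = d * q' * q := by ring
        have er : (d : ℝ) * q * q' = (d : ℝ) * q' * q := by ring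
        have ec : c' q * c q' = c q' * c' q := by ring
        by_cases h1 : q ∈ P <;> by_cases h2 : q' ∈ P <;> by_cases h3 : q' ≤ 2 ^ i <;>
          simp [h1, h2, h3, hT, em, er, ec])] at h
      have e : ∑ q' ∈ P.filter (fun q' => bl q' = i), ∑ q ∈ P,
          (if q ≤ 2 ^ bl q' then T q q' else 0) =
          ∑ q' ∈ P.filter (fun q' => bl q' = i), ∑ q ∈ P,
          (if q ≠ q' ∧ q ≤ 2 ^ (i + 1) ∧ q ≤ 2 ^ i then T q q' else 0) := by
        refine sum_congr rfl fun q' hq' => ?_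
        rw [mem_filter] at hq'
        rw [hq'.2]
        refine sum_congr rfl fun q _ => ?_
        have h1 := bl_lt (hP2 q' hq'.1)
        rw [hq'.2] at h1
        have h2 : 2 ^ (i + 1) = 2 * 2 ^ i := by ring
        by_cases h3 : q ≤ 2 ^ i
        · rw [if_pos h3, if_pos ⟨by omega, by omega, h3⟩]
        · rw [if_neg h3, if_neg (fun h => h3 h.2.2)]
      rw [e]
      refine h.trans ?_
      rw [hW]
      have hm : (((d * 2 ^ i : ℕ) : ℝ)) ^ ((2 : ℝ) - 1 / 50) ≤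
          ((d : ℝ) * Z) ^ ((2 : ℝ) - 1 / 50) := by
        refine Real.rpow_le_rpow (by positivity) ?_ (by norm_num)
        have : d * 2 ^ i ≤ d * Z := Nat.mul_le_mul_left d hiZ
        exact_mod_cast this
      gcongr
    refine (sum_le_sum hb).trans ?_
    rw [sum_const, card_range, nsmul_eq_mul]
  have hsplit : ∑ q ∈ P, ∑ q' ∈ P.filter (fun q' => q' ≠ q), T q q' =
      ∑ q ∈ P, ∑ q' ∈ P, (if q' ≠ q ∧ q' ≤ 2 ^ (bl q + 1) ∧ True then T q q' else 0) +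
      ∑ q' ∈ P, ∑ q ∈ P, (if q ≤ 2 ^ bl q' then T q q' else 0) := by
    rw [sum_comm (s := P) (t := P) (f := fun q' q => if q ≤ 2 ^ bl q' then T q q' else 0),
      ← sum_add_distrib]
    refine sum_congr rfl fun q hq => ?_
    rw [← sum_add_distrib, sum_filter]
    refine sum_congr rfl fun q' hq' => ?_
    have key := bl_split (hP2 q hq) (hP2 q' hq')
    by_cases h1 : q' = q
    · subst h1
      have : ¬ q' ≤ 2 ^ bl q' := not_le.mpr (bl_lt (hP2 q' hq'))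
      simp [this]
    · by_cases h2 : q' ≤ 2 ^ (bl q + 1)
      · have h3 : ¬ q ≤ 2 ^ bl q' := fun h => (key.mp h) h2
        rw [if_pos h1, if_pos ⟨h1, h2, trivial⟩, if_neg h3, add_zero]
      · have h3 : q ≤ 2 ^ bl q' := key.mpr h2
        rw [if_pos h1, if_neg (fun h => h2 h.2.1), if_pos h3, zero_add]
  show ‖∑ q ∈ P, ∑ q' ∈ P.filter (fun q' => q' ≠ q), T q q'‖ ≤ _
  rw [hsplit]
  refine (norm_add_le _ _).trans ?_
  refine (add_le_add hS1 hS2).trans ?_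
  -- number of blocks
  rcases Nat.eq_zero_or_pos Z with hZ0 | hZ1
  · have hL1 : L = 1 := by rw [hL, hZ0]; simp
    rw [hL1, hW]
    have hr : 0 ≤ ((d : ℝ) * Z) ^ ((2 : ℝ) - 1 / 50) := Real.rpow_nonneg (by positivity) _
    have h0 : 0 ≤ (d : ℝ) ^ 2 * ((d : ℝ) * Z) ^ ((2 : ℝ) - 1 / 50) / x := by positivity
    have e1 : ((1 : ℕ) : ℝ) * (8 * (d : ℝ) ^ 2 * Real.log x * ((d : ℝ) * Z) ^ ((2 : ℝ) - 1 / 50) / x) +
        ((1 : ℕ) : ℝ) * (8 * (d : ℝ) ^ 2 * Real.log x * ((d : ℝ) * Z) ^ ((2 : ℝ) - 1 / 50) / x) =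
        (16 * Real.log x) * ((d : ℝ) ^ 2 * ((d : ℝ) * Z) ^ ((2 : ℝ) - 1 / 50) / x) := by
      push_cast; ring
    have e2 : 32 * (d : ℝ) ^ 2 * Real.log x ^ 2 * ((d : ℝ) * Z) ^ ((2 : ℝ) - 1 / 50) / x =
        (32 * Real.log x ^ 2) * ((d : ℝ) ^ 2 * ((d : ℝ) * Z) ^ ((2 : ℝ) - 1 / 50) / x) := by ring
    rw [e1, e2]
    refine mul_le_mul_of_nonneg_right ?_ h0
    nlinarith
  · have hLle : (L : ℝ) ≤ 2 * Real.log x := by
      have hZx : Z ≤ x := (Nat.le_mul_of_pos_left Z hd).trans hdZ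
      have hZR : (1 : ℝ) ≤ Z := by exact_mod_cast hZ1
      have h1 : ((Nat.log 2 Z : ℕ) : ℝ) * Real.log 2 ≤ Real.log x := by
        have h2 : (2 : ℝ) ^ Nat.log 2 Z ≤ Z := by
          exact_mod_cast Nat.pow_log_le_self 2 (by omega : Z ≠ 0)
        have h3 : (Z : ℝ) ≤ x := by exact_mod_cast hZx
        have h4 := Real.log_le_log (by positivity) (h2.trans h3)
        rwa [Real.log_pow] at h4
      have h5 := Real.log_two_gt_d9
      have h6 : (0 : ℝ) ≤ ((Nat.log 2 Z : ℕ) : ℝ) := by positivity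
      rw [hL]
      push_cast
      nlinarith
    have hr : 0 ≤ ((d : ℝ) * Z) ^ ((2 : ℝ) - 1 / 50) := Real.rpow_nonneg (by positivity) _
    calc (L : ℝ) * W + L * W = (2 * L) * W := by ring
      _ ≤ (2 * (2 * Real.log x)) * W := by gcongr
      _ = 32 * (d : ℝ) ^ 2 * Real.log x ^ 2 * ((d : ℝ) * Z) ^ ((2 : ℝ) - 1 / 50) / x := by
          rw [hW]; ring

end Pool.Agent.H80.BE

end

section

/-!
# BE Off: two different residues

`L = log x`.  Expand `TT P c a n * TT P c' a' n`, sum over `n` first.  `A₀ = (π²x/2) GG` (`ex_zero`),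
`A_q = (π²x/(2q)) GG` (`ex_one`, `m = q`, `q D² ≤ Z D² ≤ x`; `(d,q) = 1` for `d ≤ D ≤ Y < q`).
* `q ≠ q'`: `ex_two` (`q q' D² ≤ Z² D²`), `fej = 1 + (fej - 1)`: the sum is
  `(π²x/2) GG (1/q - 1/(q-1)) (1/q' - 1/(q'-1)) + (π²x/2) ∑_{d,e} ρ_d ρ_e (fej - 1)/(lcm(d,e) q q')`.
  First part: `|1/q - 1/(q-1)| = 1/(q(q-1))`, `∑_{q > Y} 1/(q(q-1)) ≤ 1/Y`, `|GG| ≤ D²` (`gg_le`): `≤ 5 x D²/Y`
  (`π²/2 ≤ 5`).  Second part: for every `d, e` with `ρ_d ρ_e ≠ 0` the number `l = lcm(d,e) ≤ D²` is odd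
  and coprime to all `q ∈ P`; `pair_sum` with `d := l`, `n0 := nz l · · a a'` (`nz_spec`), `l Z ≤ D² Z ≤ x`:
  `≤ D² · (π²x/2) · 32 D⁴ L² (D² Z)^{2-1/50}/x ≤ 160 D^{10} L² Z^{2-1/50}`.
* `q = q'`: the number of `q ∈ P` with `q ∣ a - a' ≠ 0`, `|a - a'| ≤ 2x`, is at most `log₂(2x) ≤ 2L`; each gives
  `≤ (π²x/(2q)) |GG| ≤ 5 x D²/Y`; for the others the product of the two indicators is `0`; the remaining terms
  `≤ 3 (π²x/2) |GG| /(q-1)²`, `∑_{q > Y} 1/(q-1)² ≤ 2/Y`.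
-/

set_option autoImplicit false

namespace Pool.Agent.H80.BE

open Finset
open Pool.Agent.H80.KF (ee kf ww RW fej)

/-- indicator of a residue class -/
private noncomputable def Off_I (q : ℕ) (a n : ℤ) : ℝ := if (q : ℤ) ∣ n - a then (1 : ℝ) else 0

private theorem Off_exp (R : Finset ℤ) (w : ℤ → ℝ) (P : Finset ℕ) (c c' : ℕ → ℝ) (a a' : ℤ) :
    ∑ n ∈ R, w n * (TT P c a n * TT P c' a' n) = ∑ q ∈ P, ∑ q' ∈ P, c q * c' q' *
      (∑ n ∈ R, w n * (Off_I q a n * Off_I q' a' n) -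
        1 / ((q' : ℝ) - 1) * ∑ n ∈ R, w n * Off_I q a n -
        1 / ((q : ℝ) - 1) * ∑ n ∈ R, w n * Off_I q' a' n +
        1 / ((q : ℝ) - 1) * (1 / ((q' : ℝ) - 1)) * ∑ n ∈ R, w n) := by
  have h1 : ∀ n ∈ R, w n * (TT P c a n * TT P c' a' n) = ∑ q ∈ P, ∑ q' ∈ P,
      c q * c' q' * (w n * (Off_I q a n * Off_I q' a' n) -
        1 / ((q' : ℝ) - 1) * (w n * Off_I q a n) -
        1 / ((q : ℝ) - 1) * (w n * Off_I q' a' n) +
        1 / ((q : ℝ) - 1) * (1 / ((q' : ℝ) - 1)) * w n) := by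
    intro n _
    unfold TT
    rw [sum_mul_sum, mul_sum]
    apply sum_congr rfl
    intro q _
    rw [mul_sum]
    apply sum_congr rfl
    intro q' _
    unfold Off_I
    ring
  rw [sum_congr rfl h1, sum_comm]
  apply sum_congr rfl
  intro q _
  rw [sum_comm]
  apply sum_congr rfl
  intro q' _
  rw [← mul_sum, sum_add_distrib, sum_sub_distrib, sum_sub_distrib, mul_sum, mul_sum, mul_sum]

private theorem Off_tel {Y Z : ℕ} (hY : 1 ≤ Y) {P : Finset ℕ} (hP : PS Y Z P) :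
    ∑ q ∈ P, 1 / ((q : ℝ) * ((q : ℝ) - 1)) ≤ 1 / Y := by
  have hsub : P ⊆ Ioc Y (max Y Z) := by
    intro q hq
    obtain ⟨_, h1, h2⟩ := hP q hq
    exact mem_Ioc.2 ⟨h1, h2.trans (le_max_right _ _)⟩
  have htel : ∀ M, Y ≤ M → ∑ q ∈ Ioc Y M, 1 / ((q : ℝ) * ((q : ℝ) - 1)) = 1 / Y - 1 / M := by
    intro M hM
    induction M, hM using Nat.le_induction with
    | base => simp
    | succ m hm ih =>
      rw [← insert_Ioc_right_eq_Ioc_add_one hm, sum_insert (by simp), ih]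
      have h1 : (0 : ℝ) < m := by exact_mod_cast (lt_of_lt_of_le hY hm)
      have h3 : (1 : ℝ) / ((((m + 1 : ℕ) : ℝ)) * (((m + 1 : ℕ) : ℝ) - 1)) =
          1 / (m : ℝ) - 1 / ((m + 1 : ℕ) : ℝ) := by
        push_cast
        rw [add_sub_cancel_right, div_sub_div _ _ h1.ne' (by positivity)]
        congr 1 <;> ring
      rw [h3]
      ring
  calc ∑ q ∈ P, 1 / ((q : ℝ) * ((q : ℝ) - 1))
      ≤ ∑ q ∈ Ioc Y (max Y Z), 1 / ((q : ℝ) * ((q : ℝ) - 1)) := by
        apply sum_le_sum_of_subset_of_nonneg hsub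
        intro q hq _
        have : (1 : ℝ) ≤ q := by
          have := (mem_Ioc.1 hq).1
          exact_mod_cast (by omega : 1 ≤ q)
        have h2 : (0 : ℝ) ≤ (q : ℝ) - 1 := by linarith
        positivity
    _ = 1 / Y - 1 / (max Y Z : ℕ) := htel _ (le_max_left _ _)
    _ ≤ 1 / Y := by
        have : (0 : ℝ) ≤ 1 / ((max Y Z : ℕ) : ℝ) := by positivity
        linarith only [this]

private theorem Off_card {x : ℕ} (hx : 4 ≤ Real.log x) {Y Z : ℕ} {P : Finset ℕ} (hP : PS Y Z P)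
    {a a' : ℤ} (hne : a ≠ a') (ha : |a| ≤ x) (ha' : |a'| ≤ x) :
    ((P.filter (fun q : ℕ => (q : ℤ) ∣ a - a')).card : ℝ) ≤ 2 * Real.log x := by
  set S := P.filter (fun q : ℕ => (q : ℤ) ∣ a - a') with hS
  have hx0 : (0 : ℝ) < x := by
    rcases Nat.eq_zero_or_pos x with h | h
    · rw [h] at hx
      simp at hx
      linarith
    · exact_mod_cast h
  have hdvd : ∏ q ∈ S, q ∣ (a - a').natAbs := by
    apply Finset.prod_primes_dvd
    · intro q hq
      exact ((hP q (mem_filter.1 hq).1).1).prime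
    · intro q hq
      exact Int.natCast_dvd.1 (mem_filter.1 hq).2
  have hpos : 0 < (a - a').natAbs := Int.natAbs_pos.2 (sub_ne_zero.2 hne)
  have h1 : 2 ^ S.card ≤ (a - a').natAbs := by
    calc 2 ^ S.card = ∏ _q ∈ S, 2 := by rw [prod_const]
      _ ≤ ∏ q ∈ S, q := prod_le_prod' fun q hq => (hP q (mem_filter.1 hq).1).1.two_le
      _ ≤ _ := Nat.le_of_dvd hpos hdvd
  have h2 : ((a - a').natAbs : ℝ) ≤ 2 * x := by
    have h3 : ((a - a').natAbs : ℤ) ≤ 2 * x := by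
      rw [Int.natCast_natAbs]
      calc |a - a'| ≤ |a| + |a'| := abs_sub _ _
        _ ≤ 2 * x := by linarith only [ha, ha']
    exact_mod_cast h3
  have h4 : (2 : ℝ) ^ S.card ≤ 2 * x := by
    refine le_trans ?_ h2
    exact_mod_cast h1
  have h5 : (S.card : ℝ) * Real.log 2 ≤ Real.log 2 + Real.log x := by
    rw [← Real.log_pow, ← Real.log_mul (by norm_num) hx0.ne']
    exact Real.log_le_log (by positivity) h4
  have h6 : 0.69 < Real.log 2 := by
    have := Real.log_two_gt_d9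
    linarith only [this]
  have h7 : Real.log 2 < 0.7 := by
    have := Real.log_two_lt_d9
    linarith only [h6, this]
  have h8 : (0 : ℝ) ≤ S.card := by positivity
  by_contra hcon
  push Not at hcon
  nlinarith only [hx, h5, h6, h7, hcon]

private theorem Off_pi : Real.pi ^ 2 / 2 ≤ 5 := by
  have h1 := Real.pi_lt_d2
  have h2 := Real.pi_pos
  nlinarith only [h1, h2]

theorem off : ∃ x0 : ℕ, ∀ x J D Y Z : ℕ, x0 ≤ x → 1 ≤ J → 1 ≤ D → D ≤ Y → 2 ≤ Y → Y ≤ Z →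
    D ^ 2 * Z ≤ x → (∀ k : ℕ, 1 ≤ k → k ≤ Z ^ 2 * D ^ 2 → k ∣ 2 * x * J) →
    ∀ ρ : ℕ → ℝ, SW D ρ → ∀ P : Finset ℕ, PS Y Z P → ∀ a a' : ℤ, a ≠ a' → |a| ≤ x → |a'| ≤ x →
    ∀ c c' : ℕ → ℝ, (∀ q, |c q| ≤ 1) → (∀ q, |c' q| ≤ 1) →
    |∑ n ∈ RW x J, ww x J n * lam D ρ n * (TT P c a n * TT P c' a' n)| ≤
      200 * (D : ℝ) ^ 10 * Real.log x ^ 2 * (Z : ℝ) ^ ((2 : ℝ) - 1 / 50) +
        60 * x * (D : ℝ) ^ 2 * Real.log x / Y := by
  obtain ⟨x1, hps⟩ := pair_sum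
  refine ⟨max x1 ⌈Real.exp 4⌉₊, ?_⟩
  intro x J D Y Z hx0 hJ hD hDY hY2 hYZ hDZ hdiv ρ hρ P hP a a' hne ha ha' c c' hc hc'
  have hx1 : x1 ≤ x := (le_max_left _ _).trans hx0
  have hxe : Real.exp 4 ≤ x := (Nat.le_ceil _).trans (by exact_mod_cast (le_max_right _ _).trans hx0)
  have hxpos : (0 : ℝ) < x := (Real.exp_pos 4).trans_le hxe
  have hx1' : 1 ≤ x := by exact_mod_cast (show 0 < x by exact_mod_cast hxpos)
  have hL : 4 ≤ Real.log x := by rwa [Real.le_log_iff_exp_le hxpos]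
  set L := Real.log x with hLdef
  set w : ℤ → ℝ := fun n => ww x J n * lam D ρ n with hw
  set C0 : ℝ := Real.pi ^ 2 * x / 2 with hC0
  have hC0pos : 0 ≤ C0 := by positivity
  have hC0le : C0 ≤ 5 * x := by
    have := mul_le_mul_of_nonneg_right Off_pi hxpos.le
    rw [hC0]
    linarith only [this]
  have hGG : |GG D ρ| ≤ (D : ℝ) ^ 2 := gg_le hρ
  have hYpos : (0 : ℝ) < Y := by exact_mod_cast (show 0 < Y by omega)
  have hDpos : (1 : ℝ) ≤ D := by exact_mod_cast hD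
  have hZ1 : 1 ≤ Z := by omega
  have hq1 : ∀ q ∈ P, (1 : ℝ) < q ∧ (Y : ℝ) < q := by
    intro q hq
    obtain ⟨_, h2, _⟩ := hP q hq
    constructor
    · exact_mod_cast (by omega : 1 < q)
    · exact_mod_cast h2
  have hcop : ∀ q ∈ P, ∀ d, 1 ≤ d → d ≤ D → Nat.Coprime d q := by
    intro q hq d h1 h2
    obtain ⟨h3, h4, _⟩ := hP q hq
    rw [Nat.coprime_comm, Nat.Prime.coprime_iff_not_dvd h3]
    intro h5
    have := Nat.le_of_dvd (by omega) h5
    omega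
  -- one class
  have hA : ∀ q ∈ P, ∀ b : ℤ, ∑ n ∈ RW x J, w n * Off_I q b n = C0 / q * GG D ρ := by
    intro q hq b
    obtain ⟨h3, h4, h5⟩ := hP q hq
    have hqZ : q * D ^ 2 ≤ Z ^ 2 * D ^ 2 := by
      apply Nat.mul_le_mul_right
      calc q ≤ Z := h5
        _ = Z ^ 1 := (pow_one Z).symm
        _ ≤ Z ^ 2 := Nat.pow_le_pow_right hZ1 (by norm_num)
    have hqx : q * D ^ 2 ≤ 2 * x := by
      calc q * D ^ 2 ≤ Z * D ^ 2 := Nat.mul_le_mul_right _ h5
        _ = D ^ 2 * Z := mul_comm _ _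
        _ ≤ x := hDZ
        _ ≤ 2 * x := by omega
    have := ex_one x J D q ρ hx1' hJ (by omega) hD
      (fun k hk1 hk2 => hdiv k hk1 (hk2.trans hqZ)) hqx (hcop q hq) b
    unfold Off_I
    rw [hw]
    rw [this, hC0]
    have : (q : ℝ) ≠ 0 := by
      have := (hq1 q hq).1
      positivity
    field_simp
  have hA0 : ∑ n ∈ RW x J, w n = C0 * GG D ρ := by
    have hDx : D ^ 2 ≤ 2 * x := by
      calc D ^ 2 = D ^ 2 * 1 := (mul_one _).symm
        _ ≤ D ^ 2 * Z := Nat.mul_le_mul_left _ hZ1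
        _ ≤ x := hDZ
        _ ≤ 2 * x := by omega
    have hDZ' : D ^ 2 ≤ Z ^ 2 * D ^ 2 := by
      calc D ^ 2 = 1 * D ^ 2 := (one_mul _).symm
        _ ≤ Z ^ 2 * D ^ 2 := Nat.mul_le_mul_right _ (Nat.one_le_pow _ _ (by omega))
    have := ex_zero x J D ρ hx1' hJ hD (fun k hk1 hk2 => hdiv k hk1 (hk2.trans hDZ')) hDx
    rw [hw, this]
  -- the error terms
  set T : ℕ → ℕ → ℂ := fun q q' => ∑ d ∈ Icc 1 D, ∑ e ∈ Icc 1 D,
    ((ρ d * ρ e * (Real.pi ^ 2 * x / (2 * (((Nat.lcm d e : ℕ) : ℝ) * q * q'))) : ℝ) : ℂ) *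
      (fej x (Nat.lcm d e * q * q') (nz (Nat.lcm d e) q q' a a') - 1) with hT
  set u : ℕ → ℝ := fun q => 1 / (q : ℝ) - 1 / ((q : ℝ) - 1) with hu
  set S : ℕ → ℕ → ℝ := fun q q' => ∑ n ∈ RW x J, w n * (Off_I q a n * Off_I q' a' n) -
        1 / ((q' : ℝ) - 1) * ∑ n ∈ RW x J, w n * Off_I q a n -
        1 / ((q : ℝ) - 1) * ∑ n ∈ RW x J, w n * Off_I q' a' n +
        1 / ((q : ℝ) - 1) * (1 / ((q' : ℝ) - 1)) * ∑ n ∈ RW x J, w n with hS
  have hSoff : ∀ q ∈ P, ∀ q' ∈ P, q' ≠ q →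
      ((S q q' : ℝ) : ℂ) = ((C0 * GG D ρ * u q * u q' : ℝ) : ℂ) + T q q' := by
    intro q hq q' hq' hqq
    obtain ⟨h3, h4, h5⟩ := hP q hq
    obtain ⟨h3', h4', h5'⟩ := hP q' hq'
    have hqZ : q * q' * D ^ 2 ≤ Z ^ 2 * D ^ 2 := by
      apply Nat.mul_le_mul_right
      calc q * q' ≤ Z * Z := Nat.mul_le_mul h5 h5'
        _ = Z ^ 2 := (sq Z).symm
    have h11 := ex_two x J D q q' ρ hx1' hJ hD h3 h3' (Ne.symm hqq) (by omega) (by omega)
      (fun k hk1 hk2 => hdiv k hk1 (hk2.trans hqZ)) a a'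
    have hq0 : (q : ℝ) ≠ 0 := by have := (hq1 q hq).1; positivity
    have hq0' : (q' : ℝ) ≠ 0 := by have := (hq1 q' hq').1; positivity
    have h12 : ((∑ n ∈ RW x J, w n * (Off_I q a n * Off_I q' a' n) : ℝ) : ℂ) =
        ((C0 / (q * q') * GG D ρ : ℝ) : ℂ) + T q q' := by
      rw [hT]
      unfold Off_I
      rw [hw]
      rw [h11]
      have h13 : ((C0 / (q * q') * GG D ρ : ℝ) : ℂ) = ∑ d ∈ Icc 1 D, ∑ e ∈ Icc 1 D,
          ((ρ d * ρ e * (Real.pi ^ 2 * x / (2 * (((Nat.lcm d e : ℕ) : ℝ) * q * q'))) : ℝ) : ℂ) := by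
        unfold GG
        rw [mul_sum]
        push_cast
        apply sum_congr rfl
        intro d hd
        rw [mul_sum]
        apply sum_congr rfl
        intro e he
        have hd1 := (mem_Icc.1 hd).1
        have he1 := (mem_Icc.1 he).1
        have hl0 : ((Nat.lcm d e : ℕ) : ℂ) ≠ 0 := by
          have := Nat.lcm_pos (show 0 < d by omega) (show 0 < e by omega)
          exact_mod_cast this.ne'
        have hq0c : (q : ℂ) ≠ 0 := by exact_mod_cast hq0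
        have hq0c' : (q' : ℂ) ≠ 0 := by exact_mod_cast hq0'
        rw [hC0]
        push_cast
        field_simp
      rw [h13, ← sum_add_distrib]
      apply sum_congr rfl
      intro d _
      rw [← sum_add_distrib]
      apply sum_congr rfl
      intro e _
      ring
    rw [hS]
    simp only
    rw [hA q hq a, hA q' hq' a', hA0]
    have h14 : ((∑ n ∈ RW x J, w n * (Off_I q a n * Off_I q' a' n) -
        1 / ((q' : ℝ) - 1) * (C0 / q * GG D ρ) - 1 / ((q : ℝ) - 1) * (C0 / q' * GG D ρ) +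
        1 / ((q : ℝ) - 1) * (1 / ((q' : ℝ) - 1)) * (C0 * GG D ρ) : ℝ) : ℂ) =
      ((∑ n ∈ RW x J, w n * (Off_I q a n * Off_I q' a' n) : ℝ) : ℂ) +
        ((- (1 / ((q' : ℝ) - 1) * (C0 / q * GG D ρ)) - 1 / ((q : ℝ) - 1) * (C0 / q' * GG D ρ) +
        1 / ((q : ℝ) - 1) * (1 / ((q' : ℝ) - 1)) * (C0 * GG D ρ) : ℝ) : ℂ) := by
      push_cast
      ring
    rw [h14, h12, add_right_comm, ← Complex.ofReal_add]
    congr 2
    rw [hu]
    simp only
    have e1 : C0 / ((q : ℝ) * q') = C0 * (1 / q) * (1 / q') := by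
      field_simp
    have e2 : C0 / (q : ℝ) = C0 * (1 / q) := by ring
    have e3 : C0 / (q' : ℝ) = C0 * (1 / q') := by ring
    rw [e1, e2, e3]
    ring
  -- split the sum
  have hexp := Off_exp (RW x J) w P c c' a a'
  have hsplit : ∑ q ∈ P, ∑ q' ∈ P, c q * c' q' * S q q' =
      ∑ q ∈ P, ∑ q' ∈ P.filter (fun q' => q' ≠ q), c q * c' q' * S q q' +
        ∑ q ∈ P, c q * c' q * S q q := by
    rw [← sum_add_distrib]
    apply sum_congr rfl
    intro q hq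
    rw [filter_ne', ← add_comm]
    exact (add_sum_erase P (fun q' => c q * c' q' * S q q') hq).symm
  have hmain : ∑ n ∈ RW x J, ww x J n * lam D ρ n * (TT P c a n * TT P c' a' n) =
      ∑ q ∈ P, ∑ q' ∈ P.filter (fun q' => q' ≠ q), c q * c' q' * S q q' +
        ∑ q ∈ P, c q * c' q * S q q := by
    rw [← hsplit]
    exact hexp
  rw [hmain]
  -- off-diagonal part
  have hupos : ∀ q ∈ P, |u q| = 1 / ((q : ℝ) * ((q : ℝ) - 1)) := by
    intro q hq
    have h1 := (hq1 q hq).1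
    have h2 : (0 : ℝ) < (q : ℝ) - 1 := by linarith only [h1]
    have h3 : (0 : ℝ) < q := by linarith only [h1]
    rw [hu]
    simp only
    have : 1 / (q : ℝ) - 1 / ((q : ℝ) - 1) = - (1 / ((q : ℝ) * ((q : ℝ) - 1))) := by
      field_simp
      ring
    rw [this, abs_neg, abs_of_pos (by positivity)]
  have htel := Off_tel (by omega : 1 ≤ Y) hP
  have hsumu : ∑ q ∈ P, |u q| ≤ 1 / Y := by
    rw [sum_congr rfl hupos]
    exact htel
  have hone : (1 : ℝ) ≤ Y := by exact_mod_cast (show 1 ≤ Y by omega)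
  -- part one
  have hP1 : ‖∑ q ∈ P, ∑ q' ∈ P.filter (fun q' => q' ≠ q),
      ((c q * c' q' * (C0 * GG D ρ * u q * u q') : ℝ) : ℂ)‖ ≤ 5 * x * (D : ℝ) ^ 2 / Y := by
    calc _ ≤ ∑ q ∈ P, ∑ q' ∈ P.filter (fun q' => q' ≠ q),
        ‖((c q * c' q' * (C0 * GG D ρ * u q * u q') : ℝ) : ℂ)‖ :=
          (norm_sum_le _ _).trans (sum_le_sum fun q _ => norm_sum_le _ _)
      _ ≤ ∑ q ∈ P, ∑ q' ∈ P, (C0 * (D : ℝ) ^ 2) * (|u q| * |u q'|) := by
          apply sum_le_sum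
          intro q _
          refine (sum_le_sum fun q' _ => ?_).trans (sum_le_sum_of_subset_of_nonneg
            (filter_subset _ P) fun q' _ _ => by positivity)
          rw [Complex.norm_real, Real.norm_eq_abs]
          simp only [abs_mul]
          rw [abs_of_nonneg hC0pos]
          have h1 : |c q| * |c' q'| ≤ 1 := mul_le_one₀ (hc q) (abs_nonneg _) (hc' q')
          calc |c q| * |c' q'| * (C0 * |GG D ρ| * |u q| * |u q'|)
              ≤ 1 * (C0 * (D : ℝ) ^ 2 * |u q| * |u q'|) := by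
                apply mul_le_mul h1 _ (by positivity) (by norm_num)
                apply mul_le_mul_of_nonneg_right _ (abs_nonneg _)
                apply mul_le_mul_of_nonneg_right _ (abs_nonneg _)
                exact mul_le_mul_of_nonneg_left hGG hC0pos
            _ = _ := by ring
      _ = (C0 * (D : ℝ) ^ 2) * ((∑ q ∈ P, |u q|) * (∑ q ∈ P, |u q|)) := by
          rw [sum_mul_sum, mul_sum]
          apply sum_congr rfl
          intro q _
          rw [mul_sum]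
      _ ≤ (5 * x * (D : ℝ) ^ 2) * (1 / Y * 1) := by
          have h0 : 0 ≤ ∑ q ∈ P, |u q| := sum_nonneg fun q _ => abs_nonneg _
          have h2 : ∑ q ∈ P, |u q| ≤ 1 := hsumu.trans (by rw [div_le_one hYpos]; exact hone)
          apply mul_le_mul _ (mul_le_mul hsumu h2 h0 (by positivity)) (by positivity)
            (by positivity)
          exact mul_le_mul_of_nonneg_right hC0le (by positivity)
      _ = _ := by ring
  -- part two
  have hP2 : ‖∑ q ∈ P, ∑ q' ∈ P.filter (fun q' => q' ≠ q), ((c q * c' q' : ℝ) : ℂ) * T q q'‖ ≤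
      160 * (D : ℝ) ^ 10 * L ^ 2 * (Z : ℝ) ^ ((2 : ℝ) - 1 / 50) := by
    have hre : ∑ q ∈ P, ∑ q' ∈ P.filter (fun q' => q' ≠ q), ((c q * c' q' : ℝ) : ℂ) * T q q' =
        ∑ d ∈ Icc 1 D, ∑ e ∈ Icc 1 D, ((ρ d * ρ e * C0 : ℝ) : ℂ) *
          ∑ q ∈ P, ∑ q' ∈ P.filter (fun q' => q' ≠ q),
            ((c q * c' q' / (((Nat.lcm d e : ℕ) : ℝ) * q * q') : ℝ) : ℂ) *
              (fej x (Nat.lcm d e * q * q') (nz (Nat.lcm d e) q q' a a') - 1) := by
      rw [hT]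
      simp only [mul_sum]
      have hL1 : ∀ q ∈ P, ∑ q' ∈ P.filter (fun q' => q' ≠ q), ∑ d ∈ Icc 1 D, ∑ e ∈ Icc 1 D,
          ((c q * c' q' : ℝ) : ℂ) * (((ρ d * ρ e * (Real.pi ^ 2 * x /
            (2 * (((Nat.lcm d e : ℕ) : ℝ) * q * q'))) : ℝ) : ℂ) *
            (fej x (Nat.lcm d e * q * q') (nz (Nat.lcm d e) q q' a a') - 1)) =
          ∑ d ∈ Icc 1 D, ∑ e ∈ Icc 1 D, ∑ q' ∈ P.filter (fun q' => q' ≠ q),
          ((ρ d * ρ e * C0 : ℝ) : ℂ) *
            (((c q * c' q' / (((Nat.lcm d e : ℕ) : ℝ) * q * q') : ℝ) : ℂ) *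
              (fej x (Nat.lcm d e * q * q') (nz (Nat.lcm d e) q q' a a') - 1)) := by
        intro q _
        rw [sum_comm]
        apply sum_congr rfl
        intro d _
        rw [sum_comm]
        apply sum_congr rfl
        intro e _
        apply sum_congr rfl
        intro q' _
        have hr : (c q * c' q') * (ρ d * ρ e * (Real.pi ^ 2 * x /
            (2 * (((Nat.lcm d e : ℕ) : ℝ) * q * q')))) =
            (ρ d * ρ e * C0) * (c q * c' q' / (((Nat.lcm d e : ℕ) : ℝ) * q * q')) := by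
          rw [hC0, ← div_div (Real.pi ^ 2 * (x : ℝ))]
          ring
        rw [← mul_assoc ((c q * c' q' : ℝ) : ℂ), ← Complex.ofReal_mul, hr, Complex.ofReal_mul,
          mul_assoc]
      rw [sum_congr rfl hL1, sum_comm]
      apply sum_congr rfl
      intro d _
      rw [sum_comm]
    rw [hre]
    have hone' : ∀ d ∈ Icc 1 D, ∀ e ∈ Icc 1 D, ‖((ρ d * ρ e * C0 : ℝ) : ℂ) *
          ∑ q ∈ P, ∑ q' ∈ P.filter (fun q' => q' ≠ q),
            ((c q * c' q' / (((Nat.lcm d e : ℕ) : ℝ) * q * q') : ℝ) : ℂ) *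
              (fej x (Nat.lcm d e * q * q') (nz (Nat.lcm d e) q q' a a') - 1)‖ ≤
        160 * (D : ℝ) ^ 8 * L ^ 2 * (Z : ℝ) ^ ((2 : ℝ) - 1 / 50) := by
      intro d hd e he
      by_cases hz : ρ d * ρ e = 0
      · rw [hz]
        simp only [zero_mul, Complex.ofReal_zero, norm_zero]
        positivity
      · have hd0 : ρ d ≠ 0 := left_ne_zero_of_mul hz
        have he0 : ρ e ≠ 0 := right_ne_zero_of_mul hz
        obtain ⟨hd1, hd2, hd3⟩ := hρ.2.2 d hd0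
        obtain ⟨he1, he2, he3⟩ := hρ.2.2 e he0
        set l := Nat.lcm d e with hl
        have hl1 : 1 ≤ l := Nat.lcm_pos (by omega) (by omega)
        have hlD : l ≤ D ^ 2 := by
          calc l ≤ d * e := Nat.le_of_dvd (by positivity) (Nat.lcm_dvd_mul d e)
            _ ≤ D * D := Nat.mul_le_mul hd2 he2
            _ = D ^ 2 := (sq D).symm
        have hlodd : Odd l := by
          have h1 : l ∣ d * e := Nat.lcm_dvd_mul d e
          exact Odd.of_dvd_nat (hd3.mul he3) h1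
        have hlcop : ∀ q ∈ P, Nat.Coprime l q := by
          intro q hq
          exact Nat.Coprime.of_dvd_left (Nat.lcm_dvd_mul d e)
            (Nat.Coprime.mul_left (hcop q hq d hd1 hd2) (hcop q hq e he1 he2))
        have hlZ : l * Z ≤ x := (Nat.mul_le_mul_right Z hlD).trans hDZ
        have hpair := hps x l Z hx1 hl1 hlodd hlZ P (fun q hq => by
          obtain ⟨h3, h4, h5⟩ := hP q hq
          exact ⟨h3, hlcop q hq, by omega, h5⟩) a a' hne ha ha' c c' hc hc'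
          (fun q q' => nz l q q' a a') (by
            intro q q' hq hq' hqq h1 h2
            exact nz_spec l q q' h1 h2 ((Nat.coprime_primes hq hq').2 hqq) a a')
        rw [norm_mul]
        have h1 : ‖((ρ d * ρ e * C0 : ℝ) : ℂ)‖ ≤ 5 * x := by
          rw [Complex.norm_real, Real.norm_eq_abs, abs_mul, abs_mul, abs_of_nonneg hC0pos]
          have : |ρ d| * |ρ e| ≤ 1 := mul_le_one₀ (hρ.2.1 d) (abs_nonneg _) (hρ.2.1 e)
          calc |ρ d| * |ρ e| * C0 ≤ 1 * (5 * x) :=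
                mul_le_mul this hC0le hC0pos (by norm_num)
            _ = _ := by ring
        have hlr : (1 : ℝ) ≤ l := by exact_mod_cast hl1
        have hlDr : (l : ℝ) ≤ (D : ℝ) ^ 2 := by exact_mod_cast hlD
        have hZr : (1 : ℝ) ≤ Z := by exact_mod_cast hZ1
        have h2 : 32 * (l : ℝ) ^ 2 * L ^ 2 * ((l : ℝ) * Z) ^ ((2 : ℝ) - 1 / 50) / x ≤
            32 * (D : ℝ) ^ 8 * L ^ 2 * (Z : ℝ) ^ ((2 : ℝ) - 1 / 50) / x := by
          apply div_le_div_of_nonneg_right _ hxpos.le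
          rw [Real.mul_rpow (by positivity) (by positivity)]
          have h3 : (l : ℝ) ^ ((2 : ℝ) - 1 / 50) ≤ (D : ℝ) ^ 4 := by
            calc (l : ℝ) ^ ((2 : ℝ) - 1 / 50) ≤ (l : ℝ) ^ (2 : ℝ) :=
                  Real.rpow_le_rpow_of_exponent_le hlr (by norm_num)
              _ = (l : ℝ) ^ (2 : ℕ) := by rw [← Real.rpow_natCast]; norm_num
              _ ≤ ((D : ℝ) ^ 2) ^ 2 := pow_le_pow_left₀ (by positivity) hlDr 2
              _ = (D : ℝ) ^ 4 := by ring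
          have h4 : (l : ℝ) ^ 2 ≤ (D : ℝ) ^ 4 := by
            calc (l : ℝ) ^ 2 ≤ ((D : ℝ) ^ 2) ^ 2 := pow_le_pow_left₀ (by positivity) hlDr 2
              _ = (D : ℝ) ^ 4 := by ring
          calc 32 * (l : ℝ) ^ 2 * L ^ 2 * ((l : ℝ) ^ ((2 : ℝ) - 1 / 50) * (Z : ℝ) ^ ((2 : ℝ) - 1 / 50))
              = ((l : ℝ) ^ 2 * (l : ℝ) ^ ((2 : ℝ) - 1 / 50)) *
                (32 * L ^ 2 * (Z : ℝ) ^ ((2 : ℝ) - 1 / 50)) := by ring
            _ ≤ ((D : ℝ) ^ 4 * (D : ℝ) ^ 4) * (32 * L ^ 2 * (Z : ℝ) ^ ((2 : ℝ) - 1 / 50)) := by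
                apply mul_le_mul_of_nonneg_right _ (by positivity)
                exact mul_le_mul h4 h3 (by positivity) (by positivity)
            _ = _ := by ring
        calc ‖((ρ d * ρ e * C0 : ℝ) : ℂ)‖ * _ ≤ (5 * x) *
              (32 * (D : ℝ) ^ 8 * L ^ 2 * (Z : ℝ) ^ ((2 : ℝ) - 1 / 50) / x) :=
              mul_le_mul h1 (hpair.trans h2) (norm_nonneg _) (by positivity)
          _ = _ := by
              field_simp
              ring
    calc _ ≤ ∑ d ∈ Icc 1 D, ∑ e ∈ Icc 1 D,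
          160 * (D : ℝ) ^ 8 * L ^ 2 * (Z : ℝ) ^ ((2 : ℝ) - 1 / 50) :=
          (norm_sum_le _ _).trans (sum_le_sum fun d hd =>
            (norm_sum_le _ _).trans (sum_le_sum fun e he => hone' d hd e he))
      _ = _ := by
          simp only [sum_const, Nat.card_Icc, Nat.add_sub_cancel, nsmul_eq_mul]
          ring
  -- diagonal part
  have hP3 : |∑ q ∈ P, c q * c' q * S q q| ≤
      10 * x * (D : ℝ) ^ 2 * L / Y + 30 * x * (D : ℝ) ^ 2 / Y := by
    have hterm : ∀ q ∈ P, |c q * c' q * S q q| ≤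
        (if (q : ℤ) ∣ a - a' then 5 * x * (D : ℝ) ^ 2 / Y else 0) +
          15 * x * (D : ℝ) ^ 2 * (2 * (1 / ((q : ℝ) * ((q : ℝ) - 1)))) := by
      intro q hq
      have h1 := (hq1 q hq).1
      have hYq := (hq1 q hq).2
      have hqm : (0 : ℝ) < (q : ℝ) - 1 := by linarith only [h1]
      have hq0 : (0 : ℝ) < q := by linarith only [h1]
      have hq2 : (2 : ℝ) ≤ q := by
        have := (hP q hq).1.two_le
        exact_mod_cast this
      have hcc : |c q * c' q| ≤ 1 := by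
        rw [abs_mul]
        exact mul_le_one₀ (hc q) (abs_nonneg _) (hc' q)
      rw [abs_mul]
      have hSq : |S q q| ≤ (if (q : ℤ) ∣ a - a' then 5 * x * (D : ℝ) ^ 2 / Y else 0) +
          15 * x * (D : ℝ) ^ 2 * (2 * (1 / ((q : ℝ) * ((q : ℝ) - 1)))) := by
        rw [hS]
        simp only
        rw [hA q hq a, hA q hq a', hA0]
        have hprod : |∑ n ∈ RW x J, w n * (Off_I q a n * Off_I q a' n)| ≤
            (if (q : ℤ) ∣ a - a' then 5 * x * (D : ℝ) ^ 2 / Y else 0) := by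
          split_ifs with hdv
          · have : ∑ n ∈ RW x J, w n * (Off_I q a n * Off_I q a' n) =
                ∑ n ∈ RW x J, w n * Off_I q a n := by
              apply sum_congr rfl
              intro n _
              congr 1
              unfold Off_I
              by_cases hn : (q : ℤ) ∣ n - a
              · have hn' : (q : ℤ) ∣ n - a' := by
                  have : n - a' = (n - a) + (a - a') := by ring
                  rw [this]
                  exact dvd_add hn hdv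
                simp [hn, hn']
              · simp [hn]
            rw [this, hA q hq a, abs_mul, abs_div, abs_of_nonneg hC0pos, abs_of_pos hq0]
            calc C0 / q * |GG D ρ| ≤ (5 * x) / Y * (D : ℝ) ^ 2 := by
                  apply mul_le_mul _ hGG (abs_nonneg _) (by positivity)
                  exact div_le_div₀ (by positivity) hC0le hYpos hYq.le
              _ = _ := by ring
          · have : ∑ n ∈ RW x J, w n * (Off_I q a n * Off_I q a' n) = 0 := by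
              apply sum_eq_zero
              intro n _
              unfold Off_I
              by_cases hn : (q : ℤ) ∣ n - a
              · by_cases hn' : (q : ℤ) ∣ n - a'
                · exfalso
                  apply hdv
                  have : a - a' = (n - a') - (n - a) := by ring
                  rw [this]
                  exact dvd_sub hn' hn
                · simp [hn']
              · simp [hn]
            rw [this, abs_zero]
        have hr : |1 / ((q : ℝ) - 1) * (C0 / q * GG D ρ)| ≤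
            5 * x * (D : ℝ) ^ 2 * (1 / ((q : ℝ) * ((q : ℝ) - 1))) := by
          rw [abs_mul, abs_mul, abs_of_pos (by positivity), abs_div, abs_of_nonneg hC0pos,
            abs_of_pos hq0]
          calc 1 / ((q : ℝ) - 1) * (C0 / q * |GG D ρ|) =
                (C0 * |GG D ρ|) * (1 / ((q : ℝ) * ((q : ℝ) - 1))) := by
                field_simp
            _ ≤ (5 * x * (D : ℝ) ^ 2) * (1 / ((q : ℝ) * ((q : ℝ) - 1))) := by
                apply mul_le_mul_of_nonneg_right _ (by positivity)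
                exact mul_le_mul hC0le hGG (abs_nonneg _) (by positivity)
        have hr2 : |1 / ((q : ℝ) - 1) * (1 / ((q : ℝ) - 1)) * (C0 * GG D ρ)| ≤
            5 * x * (D : ℝ) ^ 2 * (2 * (1 / ((q : ℝ) * ((q : ℝ) - 1)))) := by
          rw [abs_mul, abs_mul C0, abs_of_pos (by positivity), abs_of_nonneg hC0pos]
          have h5 : 1 / ((q : ℝ) - 1) * (1 / ((q : ℝ) - 1)) ≤
              2 * (1 / ((q : ℝ) * ((q : ℝ) - 1))) := by
            rw [← sub_nonneg]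
            have : 2 * (1 / ((q : ℝ) * ((q : ℝ) - 1))) - 1 / ((q : ℝ) - 1) * (1 / ((q : ℝ) - 1)) =
                ((q : ℝ) - 2) / ((q : ℝ) * ((q : ℝ) - 1) ^ 2) := by
              field_simp
              ring
            rw [this]
            apply div_nonneg (by linarith only [hq2]) (by positivity)
          calc 1 / ((q : ℝ) - 1) * (1 / ((q : ℝ) - 1)) * (C0 * |GG D ρ|) ≤
                (2 * (1 / ((q : ℝ) * ((q : ℝ) - 1)))) * (5 * x * (D : ℝ) ^ 2) := by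
                apply mul_le_mul h5 _ (by positivity) (by positivity)
                exact mul_le_mul hC0le hGG (abs_nonneg _) (by positivity)
            _ = _ := by ring
        have hpos1 : 0 ≤ 5 * x * (D : ℝ) ^ 2 * (1 / ((q : ℝ) * ((q : ℝ) - 1))) := by positivity
        calc |∑ n ∈ RW x J, w n * (Off_I q a n * Off_I q a' n) -
              1 / ((q : ℝ) - 1) * (C0 / q * GG D ρ) - 1 / ((q : ℝ) - 1) * (C0 / q * GG D ρ) +
              1 / ((q : ℝ) - 1) * (1 / ((q : ℝ) - 1)) * (C0 * GG D ρ)|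
            ≤ |∑ n ∈ RW x J, w n * (Off_I q a n * Off_I q a' n)| +
              |1 / ((q : ℝ) - 1) * (C0 / q * GG D ρ)| + |1 / ((q : ℝ) - 1) * (C0 / q * GG D ρ)| +
              |1 / ((q : ℝ) - 1) * (1 / ((q : ℝ) - 1)) * (C0 * GG D ρ)| := by
              refine (abs_add_le _ _).trans ?_
              refine add_le_add_left ?_ _
              refine (abs_sub _ _).trans ?_
              refine add_le_add_left ?_ _
              exact abs_sub _ _
          _ ≤ _ := by linarith only [hprod, hr, hr2, hpos1]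
      calc |c q * c' q| * |S q q| ≤ 1 * |S q q| :=
            mul_le_mul_of_nonneg_right hcc (abs_nonneg _)
        _ ≤ _ := by rw [one_mul]; exact hSq
    calc |∑ q ∈ P, c q * c' q * S q q| ≤ ∑ q ∈ P, |c q * c' q * S q q| := abs_sum_le_sum_abs _ _
      _ ≤ ∑ q ∈ P, ((if (q : ℤ) ∣ a - a' then 5 * x * (D : ℝ) ^ 2 / Y else 0) +
          15 * x * (D : ℝ) ^ 2 * (2 * (1 / ((q : ℝ) * ((q : ℝ) - 1))))) := sum_le_sum hterm
      _ = ((P.filter (fun q : ℕ => (q : ℤ) ∣ a - a')).card : ℝ) * (5 * x * (D : ℝ) ^ 2 / Y) +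
          30 * x * (D : ℝ) ^ 2 * ∑ q ∈ P, 1 / ((q : ℝ) * ((q : ℝ) - 1)) := by
          rw [sum_add_distrib, ← sum_filter, sum_const, nsmul_eq_mul, mul_sum]
          congr 1
          apply sum_congr rfl
          intro q _
          ring
      _ ≤ (2 * L) * (5 * x * (D : ℝ) ^ 2 / Y) + 30 * x * (D : ℝ) ^ 2 * (1 / Y) := by
          apply add_le_add
          · exact mul_le_mul_of_nonneg_right (Off_card hL hP hne ha ha') (by positivity)
          · exact mul_le_mul_of_nonneg_left htel (by positivity)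
      _ = _ := by ring
  -- assembly
  have hoffc : ((∑ q ∈ P, ∑ q' ∈ P.filter (fun q' => q' ≠ q), c q * c' q' * S q q' : ℝ) : ℂ) =
      ∑ q ∈ P, ∑ q' ∈ P.filter (fun q' => q' ≠ q),
        ((c q * c' q' * (C0 * GG D ρ * u q * u q') : ℝ) : ℂ) +
      ∑ q ∈ P, ∑ q' ∈ P.filter (fun q' => q' ≠ q), ((c q * c' q' : ℝ) : ℂ) * T q q' := by
    rw [← sum_add_distrib]
    rw [Complex.ofReal_sum]
    apply sum_congr rfl
    intro q hq
    rw [← sum_add_distrib, Complex.ofReal_sum]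
    apply sum_congr rfl
    intro q' hq'
    obtain ⟨h1, h2⟩ := mem_filter.1 hq'
    rw [Complex.ofReal_mul, hSoff q hq q' h1 h2]
    push_cast
    ring
  have hoff : |∑ q ∈ P, ∑ q' ∈ P.filter (fun q' => q' ≠ q), c q * c' q' * S q q'| ≤
      5 * x * (D : ℝ) ^ 2 / Y + 160 * (D : ℝ) ^ 10 * L ^ 2 * (Z : ℝ) ^ ((2 : ℝ) - 1 / 50) := by
    rw [← Real.norm_eq_abs, ← Complex.norm_real, hoffc]
    exact (norm_add_le _ _).trans (add_le_add hP1 hP2)
  have hfin1 : 0 ≤ x * (D : ℝ) ^ 2 / Y := by positivity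
  have hfin2 : 0 ≤ (D : ℝ) ^ 10 * L ^ 2 * (Z : ℝ) ^ ((2 : ℝ) - 1 / 50) := by positivity
  refine (abs_add_le _ _).trans ((add_le_add hoff hP3).trans ?_)
  have e1 : 5 * x * (D : ℝ) ^ 2 / Y = 5 * (x * (D : ℝ) ^ 2 / Y) := by ring
  have e2 : 10 * x * (D : ℝ) ^ 2 * L / Y = 10 * L * (x * (D : ℝ) ^ 2 / Y) := by ring
  have e3 : 30 * x * (D : ℝ) ^ 2 / Y = 30 * (x * (D : ℝ) ^ 2 / Y) := by ring
  have e4 : 60 * x * (D : ℝ) ^ 2 * L / Y = 60 * L * (x * (D : ℝ) ^ 2 / Y) := by ring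
  have e5 : 160 * (D : ℝ) ^ 10 * L ^ 2 * (Z : ℝ) ^ ((2 : ℝ) - 1 / 50) =
    160 * ((D : ℝ) ^ 10 * L ^ 2 * (Z : ℝ) ^ ((2 : ℝ) - 1 / 50)) := by ring
  have e6 : 200 * (D : ℝ) ^ 10 * L ^ 2 * (Z : ℝ) ^ ((2 : ℝ) - 1 / 50) =
    200 * ((D : ℝ) ^ 10 * L ^ 2 * (Z : ℝ) ^ ((2 : ℝ) - 1 / 50)) := by ring
  rw [e1, e2, e3, e4, e5, e6]
  nlinarith only [hfin1, hfin2, hL]

end Pool.Agent.H80.BE

end

section

/-!
# BE Tot: the quadratic form

`(∑_{a ∈ S} TT_a)² = ∑_{a,a' ∈ S} TT_a TT_a'`.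
* `a = a'`: `∑_{n ∉ S} ≤ ∑_{n ≠ a}` (nonnegative terms), `diag` (`Z D² ≤ Z² D²`, `Z D² ≤ x`).
* `a ≠ a'`: `∑_{n ∉ S} = ∑_{n ∈ RW} - ∑_{n ∈ RW, n ∈ S}`; the first sum is `off`; in the second `|n| ≤ x`, so
  for `n ≠ b ∈ S`: `|TT P c b n| ≤ #{q ∈ P : q ∣ n - b} + ∑ 1/(q-1) ≤ 5 + 2` (`omega_le`, `j = 0`), and
  `|TT P c n n| ≤ |P| + 2 ≤ Z + 2`; at most one of `a, a'` equals `n`; `ww ≤ 3`, `lam ≤ D²`:
  `≤ 3 D² · 7 (Z + 2) ≤ 42 D² Z` for each `n ∈ S` (also `49 ≤ 14 Z` if `Z ≥ 4`).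
-/

set_option autoImplicit false

namespace Pool.Agent.H80.BE

open Finset
open Pool.Agent.H80.KF (ee kf ww RW fej)

private theorem Tot_abs (Y Z : ℕ) (hY : 2 ≤ Y) (P : Finset ℕ) (hP : PS Y Z P)
    (hμ : ∑ q ∈ P, 1 / ((q : ℝ) - 1) ≤ 2) (c : ℕ → ℝ) (hc : ∀ q, |c q| ≤ 1) (a n : ℤ) :
    |TT P c a n| ≤ ((P.filter (fun q : ℕ => (q : ℤ) ∣ n - a)).card : ℝ) + 2 := by
  have h1 : ∀ q ∈ P, (0 : ℝ) < (q : ℝ) - 1 := by
    intro q hq
    have h2 : 2 < q := lt_of_le_of_lt hY (hP q hq).2.1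
    have h3 : (2 : ℝ) < q := by exact_mod_cast h2
    linarith
  calc |TT P c a n| ≤ ∑ q ∈ P,
        |c q * ((if (q : ℤ) ∣ n - a then (1 : ℝ) else 0) - 1 / ((q : ℝ) - 1))| := by
        unfold TT
        exact Finset.abs_sum_le_sum_abs _ _
    _ ≤ ∑ q ∈ P, ((if (q : ℤ) ∣ n - a then (1 : ℝ) else 0) + 1 / ((q : ℝ) - 1)) := by
        refine Finset.sum_le_sum fun q hq => ?_
        rw [abs_mul]
        have h4 : |(if (q : ℤ) ∣ n - a then (1 : ℝ) else 0) - 1 / ((q : ℝ) - 1)| ≤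
            (if (q : ℤ) ∣ n - a then (1 : ℝ) else 0) + 1 / ((q : ℝ) - 1) := by
          have h5 : 0 ≤ 1 / ((q : ℝ) - 1) := (one_div_pos.mpr (h1 q hq)).le
          have h6 : (0 : ℝ) ≤ (if (q : ℤ) ∣ n - a then (1 : ℝ) else 0) := by
            split_ifs <;> norm_num
          rw [abs_le]
          constructor <;> linarith
        calc _ ≤ 1 * |(if (q : ℤ) ∣ n - a then (1 : ℝ) else 0) - 1 / ((q : ℝ) - 1)| :=
              mul_le_mul_of_nonneg_right (hc q) (abs_nonneg _)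
          _ ≤ _ := by rw [one_mul]; exact h4
    _ = ((P.filter (fun q : ℕ => (q : ℤ) ∣ n - a)).card : ℝ) +
          ∑ q ∈ P, 1 / ((q : ℝ) - 1) := by
        rw [Finset.sum_add_distrib, Finset.sum_boole]
    _ ≤ _ := by linarith

private theorem Tot_prod (x Y Z : ℕ) (hY : 2 ≤ Y) (hxY : x ≤ (Y + 1) ^ 3) (hZ : 4 ≤ Z)
    (P : Finset ℕ) (hP : PS Y Z P) (hμ : ∑ q ∈ P, 1 / ((q : ℝ) - 1) ≤ 2)
    (c : ℤ → ℕ → ℝ) (hc : ∀ a q, |c a q| ≤ 1) (a b n : ℤ) (hab : a ≠ b) (ha : |a| ≤ x)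
    (hb : |b| ≤ x) (hn : |n| ≤ x) :
    |TT P (c a) a n| * |TT P (c b) b n| ≤ 14 * Z := by
  have hZr : (4 : ℝ) ≤ Z := by exact_mod_cast hZ
  have hsmall : ∀ b : ℤ, |b| ≤ x → n ≠ b → |TT P (c b) b n| ≤ 7 := by
    intro b hb hnb
    have h1 := Tot_abs Y Z hY P hP hμ (c b) (hc b) b n
    have h2 : (P.filter (fun q : ℕ => (q : ℤ) ∣ n - b)).card ≤ 0 + 5 := by
      refine omega_le x Y Z 0 hY hxY P hP (n - b) (sub_ne_zero.mpr hnb) ?_
      have h3 := abs_sub n b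
      have h4 : (0 : ℤ) ≤ x := Int.natCast_nonneg _
      norm_num
      linarith
    have h3 : ((P.filter (fun q : ℕ => (q : ℤ) ∣ n - b)).card : ℝ) ≤ 5 := by
      exact_mod_cast h2
    linarith
  have hbig : ∀ b : ℤ, |TT P (c b) b n| ≤ Z + 2 := by
    intro b
    have h1 := Tot_abs Y Z hY P hP hμ (c b) (hc b) b n
    have h2 : (P.filter (fun q : ℕ => (q : ℤ) ∣ n - b)).card ≤ Z := by
      calc _ ≤ P.card := Finset.card_filter_le _ _
        _ ≤ (Icc 1 Z).card := by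
            refine Finset.card_le_card fun q hq => ?_
            have h3 := hP q hq
            rw [mem_Icc]
            exact ⟨h3.1.one_lt.le, h3.2.2⟩
        _ = Z := by rw [Nat.card_Icc, Nat.add_sub_cancel]
    have h3 : ((P.filter (fun q : ℕ => (q : ℤ) ∣ n - b)).card : ℝ) ≤ Z := by
      exact_mod_cast h2
    linarith
  by_cases hna : n = a
  · have h1 := hbig a
    have h2 := hsmall b hb (by rw [hna]; exact hab)
    calc |TT P (c a) a n| * |TT P (c b) b n| ≤ (Z + 2) * 7 :=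
          mul_le_mul h1 h2 (abs_nonneg _) (by linarith)
      _ ≤ 14 * Z := by linarith
  · have h1 := hsmall a ha hna
    by_cases hnb : n = b
    · have h2 := hbig b
      calc |TT P (c a) a n| * |TT P (c b) b n| ≤ 7 * (Z + 2) :=
            mul_le_mul h1 h2 (abs_nonneg _) (by norm_num)
        _ ≤ 14 * Z := by linarith
    · have h2 := hsmall b hb hnb
      calc |TT P (c a) a n| * |TT P (c b) b n| ≤ 7 * 7 :=
            mul_le_mul h1 h2 (abs_nonneg _) (by norm_num)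
        _ ≤ 14 * Z := by linarith

theorem tot : ∃ x0 : ℕ, ∀ x J D Y Z : ℕ, x0 ≤ x → 1 ≤ J → 1 ≤ D → D ≤ Y → 2 ≤ Y → Y ≤ Z →
    4 ≤ Z → x ≤ (Y + 1) ^ 3 → D ^ 2 * Z ≤ x →
    (∀ k : ℕ, 1 ≤ k → k ≤ Z ^ 2 * D ^ 2 → k ∣ 2 * x * J) →
    ∀ ρ : ℕ → ℝ, SW D ρ → 0 ≤ GG D ρ → ∀ P : Finset ℕ, PS Y Z P →
    ∑ q ∈ P, 1 / ((q : ℝ) - 1) ≤ 2 → ∀ S : Finset ℤ, (∀ a ∈ S, |a| ≤ x) →
    ∀ c : ℤ → ℕ → ℝ, (∀ a q, |c a q| ≤ 1) →
    ∑ n ∈ (RW x J).filter (fun n => n ∉ S),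
        ww x J n * lam D ρ n * (∑ a ∈ S, TT P (c a) a n) ^ 2 ≤
      1000 * x * GG D ρ * (∑ a ∈ S, ∑ q ∈ P, |c a q| / q) +
        (S.card : ℝ) ^ 2 * (200 * (D : ℝ) ^ 10 * Real.log x ^ 2 * (Z : ℝ) ^ ((2 : ℝ) - 1 / 50) +
          60 * x * (D : ℝ) ^ 2 * Real.log x / Y) +
        100 * (S.card : ℝ) ^ 3 * (D : ℝ) ^ 2 * Z := by
  obtain ⟨x1, hoff⟩ := off
  refine ⟨max x1 2, fun x J D Y Z hx hJ hD hDY hY hYZ hZ hxY hDZ hdiv ρ hρ hG P hP hμ S hS c hc =>
    ?_⟩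
  have hx1 : x1 ≤ x := le_trans (le_max_left _ _) hx
  have hx2 : 2 ≤ x := le_trans (le_max_right _ _) hx
  have hw0 : ∀ n, 0 ≤ ww x J n * lam D ρ n := fun n =>
    mul_nonneg (Pool.Agent.H80.KF.ww_nonneg x J n) (lam_nonneg D ρ n)
  have hw1 : ∀ n, ww x J n * lam D ρ n ≤ 3 * (D : ℝ) ^ 2 := fun n =>
    mul_le_mul (Pool.Agent.H80.KF.ww_le x J (by omega) hJ n) (lam_le hρ n) (lam_nonneg D ρ n)
      (by norm_num)
  set OFF : ℝ := 200 * (D : ℝ) ^ 10 * Real.log x ^ 2 * (Z : ℝ) ^ ((2 : ℝ) - 1 / 50) +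
    60 * x * (D : ℝ) ^ 2 * Real.log x / Y with hOFF
  have hlog : 0 ≤ Real.log x := Real.log_nonneg (by exact_mod_cast (by omega : 1 ≤ x))
  have hOFF0 : 0 ≤ OFF := by
    have : 0 ≤ (Z : ℝ) ^ ((2 : ℝ) - 1 / 50) := Real.rpow_nonneg (Nat.cast_nonneg _) _
    positivity
  set R : Finset ℤ := RW x J with hR
  set N : Finset ℤ := R.filter (fun n => n ∉ S) with hN
  set w : ℤ → ℝ := fun n => ww x J n * lam D ρ n with hw
  -- one diagonal term
  have hdiagt : ∀ a ∈ S, ∑ n ∈ N, w n * (TT P (c a) a n * TT P (c a) a n) ≤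
      1000 * x * GG D ρ * ∑ q ∈ P, |c a q| / q := by
    intro a ha
    refine le_trans ?_ (diag x J D Y Z ρ hx2 hJ hD hDY hY hxY hYZ ?_ ?_ hρ hG P hP hμ a (hS a ha)
      (c a) (hc a))
    · have h1 : N ⊆ (RW x J).filter (fun n => n ≠ a) := by
        intro n hn
        rw [hN, mem_filter] at hn
        rw [mem_filter]
        exact ⟨hn.1, fun h => hn.2 (h ▸ ha)⟩
      calc ∑ n ∈ N, w n * (TT P (c a) a n * TT P (c a) a n)
          = ∑ n ∈ N, ww x J n * lam D ρ n * TT P (c a) a n ^ 2 := by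
            refine Finset.sum_congr rfl fun n _ => ?_
            rw [hw, sq]
        _ ≤ _ := Finset.sum_le_sum_of_subset_of_nonneg h1 fun n _ _ =>
            mul_nonneg (hw0 n) (sq_nonneg _)
    · calc Z * D ^ 2 = D ^ 2 * Z := mul_comm _ _
        _ ≤ x := hDZ
        _ ≤ 2 * x := by omega
    · intro k hk1 hk2
      refine hdiv k hk1 (hk2.trans ?_)
      exact Nat.mul_le_mul_right _ (by nlinarith)
  -- one off-diagonal term
  have hofft : ∀ a ∈ S, ∀ b ∈ S, a ≠ b → ∑ n ∈ N, w n * (TT P (c a) a n * TT P (c b) b n) ≤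
      OFF + 42 * (S.card : ℝ) * (D : ℝ) ^ 2 * Z := by
    intro a ha b hb hab
    have h1 : ∑ n ∈ N, w n * (TT P (c a) a n * TT P (c b) b n) =
        ∑ n ∈ R, w n * (TT P (c a) a n * TT P (c b) b n) -
        ∑ n ∈ R.filter (fun n => n ∈ S), w n * (TT P (c a) a n * TT P (c b) b n) := by
      rw [hN, ← Finset.sum_filter_add_sum_filter_not R (fun n => n ∈ S)]
      ring
    have h2 := hoff x J D Y Z hx1 hJ hD hDY hY hYZ hDZ hdiv ρ hρ P hP a b hab (hS a ha) (hS b hb)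
      (c a) (c b) (hc a) (hc b)
    have h3 : ∑ n ∈ R, w n * (TT P (c a) a n * TT P (c b) b n) ≤ OFF := (le_abs_self _).trans h2
    have h4 : |∑ n ∈ R.filter (fun n => n ∈ S), w n * (TT P (c a) a n * TT P (c b) b n)| ≤
        42 * (S.card : ℝ) * (D : ℝ) ^ 2 * Z := by
      refine (Finset.abs_sum_le_sum_abs _ _).trans ?_
      have h5 : ∀ n ∈ R.filter (fun n => n ∈ S),
          |w n * (TT P (c a) a n * TT P (c b) b n)| ≤ 42 * (D : ℝ) ^ 2 * Z := by
        intro n hn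
        rw [mem_filter] at hn
        rw [abs_mul, abs_mul (TT P (c a) a n),
          abs_of_nonneg (show 0 ≤ w n from hw0 n)]
        have h6 := Tot_prod x Y Z hY hxY hZ P hP hμ c hc a b n hab (hS a ha) (hS b hb) (hS n hn.2)
        calc _ ≤ 3 * (D : ℝ) ^ 2 * (14 * Z) :=
              mul_le_mul (hw1 n) h6 (by positivity) (by positivity)
          _ = _ := by ring
      refine (Finset.sum_le_card_nsmul _ _ _ h5).trans ?_
      rw [nsmul_eq_mul]
      have h7 : (R.filter (fun n => n ∈ S)).card ≤ S.card :=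
        Finset.card_le_card fun n hn => (mem_filter.mp hn).2
      have h8 : ((R.filter (fun n => n ∈ S)).card : ℝ) ≤ S.card := by exact_mod_cast h7
      calc _ ≤ (S.card : ℝ) * (42 * (D : ℝ) ^ 2 * Z) := by gcongr
        _ = _ := by ring
    rw [h1]
    have h9 := neg_abs_le (∑ n ∈ R.filter (fun n => n ∈ S),
      w n * (TT P (c a) a n * TT P (c b) b n))
    linarith
  -- expand the square
  have hexp : ∑ n ∈ N, ww x J n * lam D ρ n * (∑ a ∈ S, TT P (c a) a n) ^ 2 =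
      ∑ a ∈ S, ∑ b ∈ S, ∑ n ∈ N, w n * (TT P (c a) a n * TT P (c b) b n) := by
    calc ∑ n ∈ N, ww x J n * lam D ρ n * (∑ a ∈ S, TT P (c a) a n) ^ 2
        = ∑ n ∈ N, ∑ a ∈ S, ∑ b ∈ S, w n * (TT P (c a) a n * TT P (c b) b n) := by
          refine Finset.sum_congr rfl fun n _ => ?_
          rw [sq, Finset.sum_mul_sum, Finset.mul_sum]
          refine Finset.sum_congr rfl fun a _ => ?_
          rw [Finset.mul_sum]
      _ = ∑ a ∈ S, ∑ n ∈ N, ∑ b ∈ S, w n * (TT P (c a) a n * TT P (c b) b n) :=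
          Finset.sum_comm
      _ = _ := Finset.sum_congr rfl fun a _ => Finset.sum_comm
  rw [hexp]
  have hrow : ∀ a ∈ S, ∑ b ∈ S, ∑ n ∈ N, w n * (TT P (c a) a n * TT P (c b) b n) ≤
      1000 * x * GG D ρ * ∑ q ∈ P, |c a q| / q +
        (S.card : ℝ) * (OFF + 42 * (S.card : ℝ) * (D : ℝ) ^ 2 * Z) := by
    intro a ha
    rw [← Finset.add_sum_erase S _ ha]
    refine add_le_add (hdiagt a ha) ?_
    refine (Finset.sum_le_card_nsmul _ _ (OFF + 42 * (S.card : ℝ) * (D : ℝ) ^ 2 * Z)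
      fun b hb => ?_).trans ?_
    · rw [mem_erase] at hb
      exact hofft a ha b hb.2 (Ne.symm hb.1)
    · rw [nsmul_eq_mul]
      have h7 : ((S.erase a).card : ℝ) ≤ S.card := by
        exact_mod_cast Finset.card_le_card (Finset.erase_subset a S)
      gcongr
  refine (Finset.sum_le_sum hrow).trans ?_
  rw [Finset.sum_add_distrib, ← Finset.mul_sum, Finset.sum_const, nsmul_eq_mul]
  have hlast : (0 : ℝ) ≤ (S.card : ℝ) ^ 3 * (D : ℝ) ^ 2 * Z := by positivity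
  nlinarith [hlast]

end Pool.Agent.H80.BE

end

section

/-!
# BE Dual: the primes `q > x^{1/3}`

`ν, D, Y, Z` of `num`, `J = 2 (Z² D²)!`, `ρ` of `sw_exists`, `P` = primes in `(Y, Z]`,
`c a q = sign (EE x q a)` if `a ∈ B q` and `q ∤ a`, `0` otherwise.  The left side is
`∑_{a ∈ S} ∑_{q ∈ P} c a q EE x q a = ∑_{p ≤ x prime} ∑_{a ∈ S} TT P (c a) a p` (`tt_sum`: sum of `TT` over the primes).
The primes `p ≤ D` or `p ∈ S`: at most `|S| + D`, each `≤ |S| (|P| + 2) ≤ |S| 2Z`; total `≤ x/log x` (`num`).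
The others: Cauchy, `≤ (π(x) V)^{1/2}`, `V = ∑_{n ∈ RW, n ∉ S} ww lam (∑_a TT)²` (`ww ≥ 1` on `[-x,x]`: `KF.ww_ge_one`,
`lam = 1`: `lam_prime`).  `tot` with `∑_a ∑_q |c a q|/q ≤ ∑_q K/q ≤ 2K` (`mu_le`), `GG ≤ 2/log D ≤ 4/(ν log x)`:
`V ≤ (8000/ν + 1) K x/log x`, `π(x) ≤ 5x/log x`.  For `K = 0` all `B q` are empty.
-/

set_option autoImplicit false

namespace Pool.Agent.H80.BE

open Finset
open Pool.Agent.H80.KF (ee kf ww RW fej)

private theorem Dual_pi (x : ℕ) : ((Icc 1 x).filter Nat.Prime).card = Nat.primeCounting x := by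
  rw [Nat.primeCounting, Nat.primeCounting', Nat.count_eq_card_filter_range]
  congr 1
  ext p
  simp only [mem_filter, mem_Icc, mem_range]
  constructor
  · rintro ⟨⟨_, h1⟩, h2⟩
    exact ⟨by omega, h2⟩
  · rintro ⟨h1, h2⟩
    exact ⟨⟨h2.pos, by omega⟩, h2⟩

theorem tt_sum (x : ℕ) (P : Finset ℕ) (c : ℕ → ℝ) (a : ℤ) :
    ∑ p ∈ (Icc 1 x).filter Nat.Prime, TT P c a (p : ℤ) = ∑ q ∈ P, c q * EE x q a := by
  unfold TT EE
  rw [Finset.sum_comm]
  refine Finset.sum_congr rfl fun q _ => ?_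
  rw [← Finset.mul_sum, Finset.sum_sub_distrib, Finset.sum_const, Dual_pi, nsmul_eq_mul]
  congr 2
  · rw [← Finset.sum_filter, Finset.sum_const, nsmul_eq_mul, mul_one, Finset.filter_filter]
  · rw [mul_one_div]

/-- the signs -/
private noncomputable def Dual_c (x : ℕ) (B : ℕ → Finset ℤ) (a : ℤ) (q : ℕ) : ℝ :=
  if a ∈ B q ∧ ¬ (q : ℤ) ∣ a then (if 0 ≤ EE x q a then 1 else -1) else 0

private theorem Dual_c_le (x : ℕ) (B : ℕ → Finset ℤ) (a : ℤ) (q : ℕ) : |Dual_c x B a q| ≤ 1 := by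
  unfold Dual_c
  split_ifs <;> norm_num

private theorem Dual_c_sum {x : ℕ} {S : Finset ℤ} {B : ℕ → Finset ℤ} {q : ℕ} (hB : B q ⊆ S) :
    ∑ a ∈ (B q).filter (fun a => ¬ (q : ℤ) ∣ a), |EE x q a| =
      ∑ a ∈ S, Dual_c x B a q * EE x q a := by
  have h1 : ∀ a ∈ S, Dual_c x B a q * EE x q a =
      if a ∈ B q ∧ ¬ (q : ℤ) ∣ a then |EE x q a| else 0 := by
    intro a _
    unfold Dual_c
    by_cases h : a ∈ B q ∧ ¬ (q : ℤ) ∣ a
    · rw [if_pos h, if_pos h]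
      by_cases h0 : 0 ≤ EE x q a
      · rw [if_pos h0, one_mul, abs_of_nonneg h0]
      · rw [if_neg h0, abs_of_neg (not_le.1 h0)]
        ring
    · rw [if_neg h, if_neg h, zero_mul]
  rw [Finset.sum_congr rfl h1, ← Finset.sum_filter]
  refine Finset.sum_congr ?_ fun _ _ => rfl
  ext a
  simp only [mem_filter]
  exact ⟨fun h => ⟨hB h.1, h⟩, fun h => h.2⟩

private theorem Dual_c_count {x K : ℕ} {S : Finset ℤ} {B : ℕ → Finset ℤ} {q : ℕ}
    (hK : (B q).card ≤ K) : ∑ a ∈ S, |Dual_c x B a q| ≤ K := by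
  have h1 : ∀ a ∈ S, |Dual_c x B a q| ≤ if a ∈ B q then (1 : ℝ) else 0 := by
    intro a _
    by_cases h : a ∈ B q
    · rw [if_pos h]
      exact Dual_c_le x B a q
    · rw [if_neg h]
      unfold Dual_c
      rw [if_neg (fun hc => h hc.1), abs_zero]
  refine (Finset.sum_le_sum h1).trans ?_
  rw [← Finset.sum_filter, Finset.sum_const, nsmul_eq_mul, mul_one]
  have h2 : (S.filter (fun a => a ∈ B q)).card ≤ (B q).card := by
    refine Finset.card_le_card fun a ha => ?_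
    exact (mem_filter.1 ha).2
  exact_mod_cast h2.trans hK

private theorem Dual_TT_le {Y Z : ℕ} {P : Finset ℕ} (hP : PS Y Z P) {c : ℕ → ℝ}
    (hc : ∀ q, |c q| ≤ 1) (hZ : P.card ≤ Z) (a n : ℤ) : |TT P c a n| ≤ Z := by
  unfold TT
  have h1 : ∀ q ∈ P, |c q * ((if (q : ℤ) ∣ n - a then (1 : ℝ) else 0) - 1 / ((q : ℝ) - 1))| ≤ 1 := by
    intro q hq
    have h2 : (2 : ℝ) ≤ q := by exact_mod_cast (hP q hq).1.two_le
    have h3 : 0 ≤ 1 / ((q : ℝ) - 1) := by
      apply div_nonneg <;> linarith only [h2]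
    have h4 : 1 / ((q : ℝ) - 1) ≤ 1 := by
      rw [div_le_one (by linarith only [h2])]
      linarith only [h2]
    rw [abs_mul]
    have h5 : |(if (q : ℤ) ∣ n - a then (1 : ℝ) else 0) - 1 / ((q : ℝ) - 1)| ≤ 1 := by
      rw [abs_le]
      split_ifs <;> constructor <;> linarith only [h4, h3]
    calc |c q| * |(if (q : ℤ) ∣ n - a then (1 : ℝ) else 0) - 1 / ((q : ℝ) - 1)| ≤ 1 * 1 :=
          mul_le_mul (hc q) h5 (abs_nonneg _) (by norm_num)
      _ = 1 := one_mul 1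
  calc _ ≤ ∑ q ∈ P, |c q * ((if (q : ℤ) ∣ n - a then (1 : ℝ) else 0) - 1 / ((q : ℝ) - 1))| :=
        Finset.abs_sum_le_sum_abs _ _
    _ ≤ ∑ _q ∈ P, (1 : ℝ) := Finset.sum_le_sum h1
    _ = P.card := by rw [Finset.sum_const, nsmul_eq_mul, mul_one]
    _ ≤ Z := by exact_mod_cast hZ

/-- the sum over the bad primes -/
private theorem Dual_bad {x D Z : ℕ} {S : Finset ℤ} {f : ℤ → ℝ}
    (hf : ∀ n, |f n| ≤ S.card * Z) :
    |∑ p ∈ ((Icc 1 x).filter Nat.Prime).filter (fun p : ℕ => p ≤ D ∨ (p : ℤ) ∈ S), f (p : ℤ)| ≤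
      ((S.card : ℝ) + D) * S.card * (2 * Z) := by
  have h1 : (((Icc 1 x).filter Nat.Prime).filter (fun p : ℕ => p ≤ D ∨ (p : ℤ) ∈ S)).card ≤
      S.card + D := by
    rw [Finset.filter_or]
    refine (Finset.card_union_le _ _).trans ?_
    rw [add_comm]
    refine Nat.add_le_add ?_ ?_
    · refine Finset.card_le_card_of_injOn (fun p : ℕ => (p : ℤ)) ?_ ?_
      · intro p hp
        exact (mem_filter.1 (Finset.mem_coe.1 hp)).2
      · intro p _ p' _ h
        exact Int.ofNat_inj.1 h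
    · calc _ ≤ (Icc 1 D).card := by
            refine Finset.card_le_card fun p hp => ?_
            simp only [mem_filter, mem_Icc] at hp ⊢
            exact ⟨hp.1.1.1, hp.2⟩
        _ = D := by rw [Nat.card_Icc, Nat.add_sub_cancel]
  have h2 : ((((Icc 1 x).filter Nat.Prime).filter
      (fun p : ℕ => p ≤ D ∨ (p : ℤ) ∈ S)).card : ℝ) ≤ (S.card : ℝ) + D := by exact_mod_cast h1
  have hZ0 : (0 : ℝ) ≤ Z := Nat.cast_nonneg Z
  have hS0 : (0 : ℝ) ≤ S.card := Nat.cast_nonneg _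
  have hD0 : (0 : ℝ) ≤ D := Nat.cast_nonneg D
  calc _ ≤ ∑ p ∈ ((Icc 1 x).filter Nat.Prime).filter (fun p : ℕ => p ≤ D ∨ (p : ℤ) ∈ S),
          |f (p : ℤ)| := Finset.abs_sum_le_sum_abs _ _
    _ ≤ ∑ _p ∈ ((Icc 1 x).filter Nat.Prime).filter (fun p : ℕ => p ≤ D ∨ (p : ℤ) ∈ S),
          ((S.card : ℝ) * Z) := Finset.sum_le_sum fun p _ => hf _
    _ ≤ ((S.card : ℝ) + D) * (S.card * Z) := by
        rw [Finset.sum_const, nsmul_eq_mul]
        exact mul_le_mul_of_nonneg_right h2 (by positivity)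
    _ ≤ ((S.card : ℝ) + D) * S.card * (2 * Z) := by
        have : 0 ≤ ((S.card : ℝ) + D) * S.card * Z := by positivity
        linarith only [this]

/-- the sum over the good primes -/
private theorem Dual_good {x J D : ℕ} {ρ : ℕ → ℝ} {S : Finset ℤ} {f : ℤ → ℝ} {V : ℝ}
    (hx : 1 ≤ x) (hJ : 2 ≤ J) (hρ : SW D ρ)
    (hV : ∑ n ∈ (RW x J).filter (fun n => n ∉ S), ww x J n * lam D ρ n * f n ^ 2 ≤ V) :
    |∑ p ∈ ((Icc 1 x).filter Nat.Prime).filter (fun p : ℕ => ¬ (p ≤ D ∨ (p : ℤ) ∈ S)), f (p : ℤ)| ≤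
      Real.sqrt (Nat.primeCounting x * V) := by
  set G := ((Icc 1 x).filter Nat.Prime).filter (fun p : ℕ => ¬ (p ≤ D ∨ (p : ℤ) ∈ S)) with hG
  have h1 : (∑ p ∈ G, f (p : ℤ)) ^ 2 ≤ G.card * ∑ p ∈ G, f (p : ℤ) ^ 2 :=
    sq_sum_le_card_mul_sum_sq
  have h2 : (G.card : ℝ) ≤ Nat.primeCounting x := by
    have : G.card ≤ ((Icc 1 x).filter Nat.Prime).card := Finset.card_filter_le _ _
    rw [Dual_pi] at this
    exact_mod_cast this
  have h3 : ∑ p ∈ G, f (p : ℤ) ^ 2 ≤ V := by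
    refine le_trans ?_ hV
    have h4 : ∑ p ∈ G, f (p : ℤ) ^ 2 ≤ ∑ p ∈ G, ww x J (p : ℤ) * lam D ρ (p : ℤ) * f (p : ℤ) ^ 2 := by
      refine Finset.sum_le_sum fun p hp => ?_
      rw [hG] at hp
      simp only [mem_filter, mem_Icc, not_or, not_le] at hp
      obtain ⟨⟨⟨p1, p2⟩, p3⟩, p4, p5⟩ := hp
      rw [lam_prime hρ p3 p4, mul_one]
      have hw := Pool.Agent.H80.KF.ww_ge_one x J hx (by omega) (p : ℤ) (by
        rw [abs_of_nonneg (Int.natCast_nonneg p)]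
        exact_mod_cast p2)
      have : 0 ≤ f (p : ℤ) ^ 2 := sq_nonneg _
      nlinarith only [hw]
    refine h4.trans ?_
    rw [← Finset.sum_image (f := fun n : ℤ => ww x J n * lam D ρ n * f n ^ 2)
      (g := fun p : ℕ => (p : ℤ)) (s := G) (fun p _ p' _ h => Int.ofNat_inj.1 h)]
    refine Finset.sum_le_sum_of_subset_of_nonneg ?_ ?_
    · intro n hn
      obtain ⟨p, hp, rfl⟩ := mem_image.1 hn
      rw [hG] at hp
      simp only [mem_filter, mem_Icc, not_or, not_le] at hp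
      obtain ⟨⟨⟨p1, p2⟩, p3⟩, p4, p5⟩ := hp
      rw [mem_filter]
      refine ⟨?_, p5⟩
      unfold RW
      rw [Finset.mem_Ico]
      have h5 : p < x * J := by
        calc p ≤ x := p2
          _ < x * 2 := by omega
          _ ≤ x * J := Nat.mul_le_mul_left x hJ
      have h6 : (p : ℤ) < x * J := by exact_mod_cast h5
      refine ⟨?_, h6⟩
      have : (0 : ℤ) ≤ x * J := by positivity
      have : (0 : ℤ) ≤ p := Int.natCast_nonneg p
      linarith only [p1, h5]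
    · intro n _ _
      have h5 : 0 ≤ ww x J n := by
        unfold ww
        positivity
      have h6 := lam_nonneg D ρ n
      have : 0 ≤ f n ^ 2 := sq_nonneg _
      positivity
  apply Real.abs_le_sqrt
  refine h1.trans (mul_le_mul h2 h3 (Finset.sum_nonneg fun _ _ => sq_nonneg _) (Nat.cast_nonneg _))

theorem dual (θ κ : ℝ) (hθ : 1 / 2 ≤ θ) (hκ : 0 ≤ κ) (h : 99 * θ + 100 * κ < 50) :
    ∃ C : ℝ, 0 < C ∧ ∃ x0 : ℕ, ∀ x : ℕ, x0 ≤ x → ∀ S : Finset ℤ, (∀ a ∈ S, |a| ≤ (x : ℤ)) →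
      (S.card : ℝ) ≤ (x : ℝ) ^ κ → ∀ (K : ℕ) (B : ℕ → Finset ℤ),
      (∀ q, B q ⊆ S ∧ (B q).card ≤ K) →
      ∑ q ∈ (Icc 1 ⌊(x : ℝ) ^ θ⌋₊).filter (fun q => q.Prime ∧ ⌊(x : ℝ) ^ ((1 : ℝ) / 3)⌋₊ < q),
        ∑ a ∈ (B q).filter (fun a => ¬ (q : ℤ) ∣ a), |EE x q a| ≤
      C * Real.sqrt K * x / Real.log x := by
  obtain ⟨ν, hν, x1, hnum⟩ := num θ κ hθ hκ h
  obtain ⟨x2, htot⟩ := tot
  obtain ⟨x3, hmu⟩ := mu_le
  obtain ⟨x4, hpi⟩ := pi_le
  refine ⟨1 + Real.sqrt (5 * (8000 / ν + 1)), by positivity, max (max x1 x2) (max x3 (max x4 1)),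
    fun x hx S hS hSc K B hB => ?_⟩
  have hx1 : x1 ≤ x := ((le_max_left _ _).trans (le_max_left _ _)).trans hx
  have hx2 : x2 ≤ x := ((le_max_right _ _).trans (le_max_left _ _)).trans hx
  have hx3 : x3 ≤ x := ((le_max_left _ _).trans (le_max_right _ _)).trans hx
  have hx4 : x4 ≤ x :=
    (((le_max_left _ _).trans (le_max_right _ _)).trans (le_max_right _ _)).trans hx
  have hx5 : 1 ≤ x :=
    (((le_max_right _ _).trans (le_max_right _ _)).trans (le_max_right _ _)).trans hx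
  obtain ⟨n1, n2, n3, n4, n5, n6, n7, n8, n9, n10, n11⟩ :=
    hnum x hx1 ⌊(x : ℝ) ^ ν⌋₊ ⌊(x : ℝ) ^ ((1 : ℝ) / 3)⌋₊ ⌊(x : ℝ) ^ θ⌋₊ rfl rfl rfl
  have hmux := hmu x hx3
  generalize ⌊(x : ℝ) ^ ν⌋₊ = D at *
  generalize ⌊(x : ℝ) ^ ((1 : ℝ) / 3)⌋₊ = Y at *
  generalize ⌊(x : ℝ) ^ θ⌋₊ = Z at *
  have hx0 : (0 : ℝ) < x := by exact_mod_cast hx5
  have hlog : 0 < Real.log x := by linarith only [hθ, hκ, h, n10]
  -- the case `K = 0`
  rcases Nat.eq_zero_or_pos K with hK | hK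
  · subst hK
    have h0 : ∀ q, B q = ∅ := fun q => Finset.card_eq_zero.1 (Nat.le_zero.1 (hB q).2)
    simp only [h0, Finset.filter_empty, Finset.sum_empty, Finset.sum_const_zero]
    positivity
  have hK1 : (1 : ℝ) ≤ K := by exact_mod_cast hK
  have hsK : 1 ≤ Real.sqrt K := by
    rw [Real.one_le_sqrt]
    exact hK1
  set P := (Ioc Y Z).filter Nat.Prime with hP
  have hPS : PS Y Z P := by
    intro q hq
    rw [hP, mem_filter, Finset.mem_Ioc] at hq
    exact ⟨hq.2, hq.1⟩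
  have hPZ : P.card ≤ Z := by
    refine (Finset.card_filter_le _ _).trans ?_
    rw [Nat.card_Ioc]
    omega
  have hidx : (Icc 1 Z).filter (fun q => q.Prime ∧ Y < q) = P := by
    ext q
    simp only [hP, mem_filter, mem_Icc, mem_Ioc]
    constructor
    · rintro ⟨⟨a1, a2⟩, a3, a4⟩
      exact ⟨⟨a4, a2⟩, a3⟩
    · rintro ⟨⟨a4, a2⟩, a3⟩
      exact ⟨⟨a3.pos, a2⟩, a3, a4⟩
  have hmuP : ∑ q ∈ P, 1 / ((q : ℝ) - 1) ≤ 2 :=
    hmux P fun q hq => ⟨(hPS q hq).1, (hPS q hq).2.1, (hPS q hq).2.2.trans n6⟩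
  set c := Dual_c x B with hc
  set f : ℤ → ℝ := fun n => ∑ a ∈ S, TT P (c a) a n with hf
  -- the left side
  have hleft : ∑ q ∈ (Icc 1 Z).filter (fun q => q.Prime ∧ Y < q),
        ∑ a ∈ (B q).filter (fun a => ¬ (q : ℤ) ∣ a), |EE x q a| =
      ∑ p ∈ (Icc 1 x).filter Nat.Prime, f (p : ℤ) := by
    rw [hidx]
    simp only [hf]
    rw [Finset.sum_comm]
    simp only [tt_sum]
    rw [Finset.sum_comm]
    exact Finset.sum_congr rfl fun q _ => Dual_c_sum (hB q).1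
  rw [hleft, ← Finset.sum_filter_add_sum_filter_not ((Icc 1 x).filter Nat.Prime)
    (fun p : ℕ => p ≤ D ∨ (p : ℤ) ∈ S)]
  -- bad primes
  have hfb : ∀ n, |f n| ≤ S.card * Z := by
    intro n
    simp only [hf]
    calc _ ≤ ∑ a ∈ S, |TT P (c a) a n| := Finset.abs_sum_le_sum_abs _ _
      _ ≤ ∑ _a ∈ S, (Z : ℝ) := Finset.sum_le_sum fun a _ =>
          Dual_TT_le hPS (fun q => Dual_c_le x B a q) hPZ a n
      _ = _ := by rw [Finset.sum_const, nsmul_eq_mul]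
  obtain ⟨m1, m2⟩ := n11 S.card (Nat.cast_nonneg _) hSc
  have hb := (Dual_bad (x := x) (D := D) hfb).trans m2
  -- good primes
  obtain ⟨ρ, r1, r2, r3⟩ := sw_exists D n1
  have hJ : 2 ≤ (Z ^ 2 * D ^ 2).factorial := by
    have h1 : 4 ≤ Z ^ 2 * D ^ 2 := by
      have h2 : 4 ^ 2 ≤ Z ^ 2 := Nat.pow_le_pow_left n5 2
      have h3 : 1 ≤ D ^ 2 := Nat.one_le_pow _ _ (by omega)
      nlinarith only [h2, h3]
    exact (by omega : 2 ≤ Z ^ 2 * D ^ 2).trans (Nat.self_le_factorial _)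
  have htx := htot x (Z ^ 2 * D ^ 2).factorial D Y Z hx2 (by omega) (by omega) n2 n3 n4 n5 n7 n8
    (fun k k1 k2 => (Nat.dvd_factorial k1 k2).mul_left _) ρ r1 r2 P hPS hmuP S hS c
    (fun a q => Dual_c_le x B a q)
  have hcnt : ∑ a ∈ S, ∑ q ∈ P, |c a q| / q ≤ 2 * K := by
    rw [Finset.sum_comm]
    calc ∑ q ∈ P, ∑ a ∈ S, |c a q| / q ≤ ∑ q ∈ P, (K : ℝ) * (1 / ((q : ℝ) - 1)) := by
          refine Finset.sum_le_sum fun q hq => ?_
          rw [← Finset.sum_div]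
          have h2 : (2 : ℝ) ≤ q := by exact_mod_cast (hPS q hq).1.two_le
          have h3 := Dual_c_count (x := x) (S := S) (B := B) (q := q) (hB q).2
          rw [mul_one_div]
          exact div_le_div₀ (by linarith only [hθ, hκ, h, hK1]) h3 (by linarith only [hθ, hκ, h, h2]) (by linarith only [hθ, hκ, h])
      _ = K * ∑ q ∈ P, 1 / ((q : ℝ) - 1) := by rw [Finset.mul_sum]
      _ ≤ K * 2 := mul_le_mul_of_nonneg_left hmuP (by linarith only [hθ, hκ, h, hK1])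
      _ = 2 * K := by ring
  have hGG : GG D ρ ≤ 4 / (ν * Real.log x) := by
    refine r3.trans ?_
    have h1 : 0 < ν / 2 * Real.log x := by positivity
    calc 2 / Real.log D ≤ 2 / (ν / 2 * Real.log x) :=
          div_le_div_of_nonneg_left (by norm_num) h1 n9
      _ = 4 / (ν * Real.log x) := by
          field_simp
          ring
  have hV : ∑ n ∈ (RW x (Z ^ 2 * D ^ 2).factorial).filter (fun n => n ∉ S),
      ww x (Z ^ 2 * D ^ 2).factorial n * lam D ρ n * f n ^ 2 ≤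
        (8000 / ν + 1) * K * (x / Real.log x) := by
    have h1 : 1000 * x * GG D ρ * (∑ a ∈ S, ∑ q ∈ P, |c a q| / q) ≤
        1000 * x * (4 / (ν * Real.log x)) * (2 * K) := by
      refine mul_le_mul ?_ hcnt ?_ (by positivity)
      · exact mul_le_mul_of_nonneg_left hGG (by positivity)
      · exact Finset.sum_nonneg fun a _ => Finset.sum_nonneg fun q _ => by positivity
    have h2 : 1000 * x * (4 / (ν * Real.log x)) * (2 * K) = 8000 / ν * K * (x / Real.log x) := by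
      field_simp
      ring
    have h3 : x / Real.log x ≤ K * (x / Real.log x) :=
      le_mul_of_one_le_left (by positivity) hK1
    calc _ ≤ _ := htx
      _ ≤ 8000 / ν * K * (x / Real.log x) + x / Real.log x := by linarith only [m1, h1, h2]
      _ ≤ 8000 / ν * K * (x / Real.log x) + K * (x / Real.log x) := by linarith only [h3]
      _ = _ := by ring
  have hg := Dual_good (f := f) hx5 hJ r1 hV
  have hgs : Real.sqrt (Nat.primeCounting x * ((8000 / ν + 1) * K * (x / Real.log x))) ≤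
      Real.sqrt (5 * (8000 / ν + 1)) * Real.sqrt K * (x / Real.log x) := by
    have h1 : (Nat.primeCounting x : ℝ) * ((8000 / ν + 1) * K * (x / Real.log x)) ≤
        (5 * (8000 / ν + 1)) * K * (x / Real.log x) ^ 2 := by
      have h2 := mul_le_mul_of_nonneg_right (hpi x hx4)
        (show 0 ≤ (8000 / ν + 1) * K * (x / Real.log x) by positivity)
      refine h2.trans (le_of_eq ?_)
      ring
    refine (Real.sqrt_le_sqrt h1).trans (le_of_eq ?_)
    rw [Real.sqrt_mul (by positivity), Real.sqrt_mul (by positivity), Real.sqrt_sq (by positivity)]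
  have hfin : x / Real.log x ≤ Real.sqrt K * (x / Real.log x) :=
    le_mul_of_one_le_left (by positivity) hsK
  calc _ ≤ x / Real.log x + Real.sqrt (5 * (8000 / ν + 1)) * Real.sqrt K * (x / Real.log x) :=
        add_le_add ((le_abs_self _).trans hb) ((le_abs_self _).trans (hg.trans hgs))
    _ ≤ Real.sqrt K * (x / Real.log x) +
        Real.sqrt (5 * (8000 / ν + 1)) * Real.sqrt K * (x / Real.log x) := by linarith only [hfin]
    _ = _ := by ring

end Pool.Agent.H80.BE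

end

section

/-!
# BE Fin: the three forms of the theorem

* `fin_A`: `dual` and `small`; for `x ≥ 1`, `θ ≥ 1/3` the primes `q ≤ ⌊x^θ⌋` are those `≤ ⌊x^{1/3}⌋` and the others.
* `fin_B` (bounded number of exceptional residues): `κ = (50 - 99θ)/200`.  If more than `C'/η²` integers `a ∈ [-x,x]`
  have `∑_q |EE x q a| > η π(x)`, take a set `S` of `K = ⌊C'/η²⌋ + 1` of them (`K ≤ x^κ` for large `x`), `B q = S`; by
  `fin_A` with `A = 2` and `π(x) ≥ x/(2 log x)` (`pi_ge`): `K η x/(2 log x) ≤ C √K x/log x + K x/(log x)²`, and for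
  `log x ≥ 4/η`: `K η/4 ≤ C √K`, `K ≤ 16 C²/η²`; choose `C' = 16 C²`.
* `fin_C` (maximum inside the sum): `K = ⌊C'/η²⌋`; `B q` = the `K` elements of `{a ∈ S : q ∤ a}` with the largest
  `|EE x q a|` (all of them if there are at most `K`); for `r q ∈ S \ B q`, `q ∤ r q`:
  `|EE x q (r q)| ≤ (1/K) ∑_{a ∈ B q} |EE x q a|`; `fin_A` with `A = 2`: `∑_q |EE x q (r q)| ≤ C x/(√K log x) + x/(log x)²
  ≤ η π(x)` for large `x`, if `K ≥ 16 C²/η²`, so `C' = 16 C² + 1` (`η ≤ 1`, so `⌊C'/η²⌋ ≥ 16C²/η²`).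
-/

set_option autoImplicit false

namespace Pool.Agent.H80.BE

open Finset

theorem fin_A (θ κ : ℝ) (hθ : 1 / 2 ≤ θ) (hκ : 0 ≤ κ) (h : 99 * θ + 100 * κ < 50) :
    ∃ C : ℝ, 0 < C ∧ ∀ A : ℕ, ∃ x0 : ℕ, ∀ x : ℕ, x0 ≤ x → ∀ S : Finset ℤ,
      (∀ a ∈ S, |a| ≤ (x : ℤ)) → (S.card : ℝ) ≤ (x : ℝ) ^ κ → ∀ (K : ℕ) (B : ℕ → Finset ℤ),
      (∀ q, B q ⊆ S ∧ (B q).card ≤ K) →
      ∑ q ∈ (Icc 1 ⌊(x : ℝ) ^ θ⌋₊).filter Nat.Prime,
        ∑ a ∈ (B q).filter (fun a => ¬ (q : ℤ) ∣ a), |EE x q a| ≤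
      C * Real.sqrt K * x / Real.log x + K * x / Real.log x ^ A := by
  obtain ⟨C, hC, x1, h1⟩ := dual θ κ hθ hκ h
  refine ⟨C, hC, fun A => ?_⟩
  obtain ⟨x2, h2⟩ := small A
  refine ⟨max 1 (max x1 x2), fun x hx S hS hSc K B hB => ?_⟩
  have hx0 : 1 ≤ x := (le_max_left _ _).trans hx
  have hx1 : x1 ≤ x := ((le_max_left _ _).trans (le_max_right _ _)).trans hx
  have hx2 : x2 ≤ x := ((le_max_right _ _).trans (le_max_right _ _)).trans hx
  have e1 := h1 x hx1 S hS hSc K B hB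
  have e2 := h2 x hx2 K B (fun q => (hB q).2)
  have hxr : (1 : ℝ) ≤ x := by exact_mod_cast hx0
  have hYZ : ⌊(x : ℝ) ^ ((1 : ℝ) / 3)⌋₊ ≤ ⌊(x : ℝ) ^ θ⌋₊ := by
    apply Nat.floor_le_floor
    apply Real.rpow_le_rpow_of_exponent_le hxr
    linarith
  have hsplit : (Icc 1 ⌊(x : ℝ) ^ θ⌋₊).filter Nat.Prime =
      (Icc 1 ⌊(x : ℝ) ^ ((1 : ℝ) / 3)⌋₊).filter Nat.Prime ∪
      (Icc 1 ⌊(x : ℝ) ^ θ⌋₊).filter (fun q => q.Prime ∧ ⌊(x : ℝ) ^ ((1 : ℝ) / 3)⌋₊ < q) := by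
    ext q
    rw [Finset.mem_union, Finset.mem_filter, Finset.mem_filter, Finset.mem_filter, Finset.mem_Icc,
      Finset.mem_Icc]
    constructor
    · rintro ⟨⟨a1, a2⟩, a3⟩
      rcases Nat.lt_or_ge ⌊(x : ℝ) ^ ((1 : ℝ) / 3)⌋₊ q with h3 | h3
      · exact Or.inr ⟨⟨a1, a2⟩, a3, h3⟩
      · exact Or.inl ⟨⟨a1, h3⟩, a3⟩
    · rintro (⟨⟨a1, a2⟩, a3⟩ | ⟨⟨a1, a2⟩, a3, a4⟩)
      · exact ⟨⟨a1, a2.trans hYZ⟩, a3⟩
      · exact ⟨⟨a1, a2⟩, a3⟩
  have hdisj : Disjoint ((Icc 1 ⌊(x : ℝ) ^ ((1 : ℝ) / 3)⌋₊).filter Nat.Prime)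
      ((Icc 1 ⌊(x : ℝ) ^ θ⌋₊).filter
        (fun q => q.Prime ∧ ⌊(x : ℝ) ^ ((1 : ℝ) / 3)⌋₊ < q)) := by
    rw [Finset.disjoint_left]
    intro q hq hq'
    rw [Finset.mem_filter, Finset.mem_Icc] at hq hq'
    omega
  rw [hsplit, Finset.sum_union hdisj]
  linarith

end Pool.Agent.H80.BE

end

section

/-!
# BE FinB: bounded number of exceptional residues (plan in `Fin.lean`)
-/

set_option autoImplicit false

namespace Pool.Agent.H80.BE

open Finset

theorem fin_B (θ : ℝ) (hθ : 1 / 2 ≤ θ) (h : θ < 50 / 99) :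
    ∃ C : ℝ, 0 < C ∧ ∀ η : ℝ, 0 < η → ∃ x0 : ℕ, ∀ x : ℕ, x0 ≤ x →
      (((Icc (-(x : ℤ)) x).filter (fun a : ℤ => η * (Nat.primeCounting x : ℝ) <
        ∑ q ∈ (Icc 1 ⌊(x : ℝ) ^ θ⌋₊).filter (fun q : ℕ => q.Prime ∧ ¬ (q : ℤ) ∣ a),
          |EE x q a|)).card : ℝ) ≤ C / η ^ 2 := by
  have hκ0 : 0 < (50 - 99 * θ) / 200 := by
    have : 99 * θ < 50 := by linarith only [h]
    linarith only [h]
  obtain ⟨C0, hC0, hA⟩ := fin_A θ ((50 - 99 * θ) / 200) hθ hκ0.le (by linarith only [h])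
  refine ⟨16 * C0 ^ 2, by positivity, fun η hη => ?_⟩
  obtain ⟨x1, hx1⟩ := hA 2
  obtain ⟨x2, hx2⟩ := pi_ge
  set K : ℕ := ⌊16 * C0 ^ 2 / η ^ 2⌋₊ + 1 with hK
  have e1 : ∀ᶠ x : ℕ in Filter.atTop, (K : ℝ) ≤ (x : ℝ) ^ ((50 - 99 * θ) / 200) :=
    ((tendsto_rpow_atTop hκ0).comp tendsto_natCast_atTop_atTop).eventually_ge_atTop _
  have e2 : ∀ᶠ x : ℕ in Filter.atTop, 4 / η ≤ Real.log x :=
    (Real.tendsto_log_atTop.comp tendsto_natCast_atTop_atTop).eventually_ge_atTop _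
  obtain ⟨x3, hx3⟩ := Filter.eventually_atTop.1 (e1.and e2)
  refine ⟨max (max x1 x2) (max x3 2), fun x hx => ?_⟩
  have hxa : x1 ≤ x := le_trans (le_trans (le_max_left _ _) (le_max_left _ _)) hx
  have hxb : x2 ≤ x := le_trans (le_trans (le_max_right _ _) (le_max_left _ _)) hx
  have hxc : x3 ≤ x := le_trans (le_trans (le_max_left _ _) (le_max_right _ _)) hx
  have hxd : 2 ≤ x := le_trans (le_trans (le_max_right _ _) (le_max_right _ _)) hx
  obtain ⟨hx4, hx5⟩ := hx3 x hxc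
  have hx0 : (0 : ℝ) < x := by
    have : 0 < x := by omega
    exact_mod_cast this
  have hlog : 0 < Real.log x := lt_of_lt_of_le (by positivity) hx5
  by_contra hcon
  rw [not_le] at hcon
  have hcard : K ≤ ((Icc (-(x : ℤ)) x).filter (fun a : ℤ => η * (Nat.primeCounting x : ℝ) <
        ∑ q ∈ (Icc 1 ⌊(x : ℝ) ^ θ⌋₊).filter (fun q : ℕ => q.Prime ∧ ¬ (q : ℤ) ∣ a),
          |EE x q a|)).card := by
    have h1 := (Nat.floor_le (show 0 ≤ 16 * C0 ^ 2 / η ^ 2 by positivity)).trans_lt hcon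
    have h2 := Nat.cast_lt.1 h1
    omega
  obtain ⟨S, hSE, hSK⟩ := Finset.exists_subset_card_eq hcard
  have hSmem : ∀ a ∈ S, |a| ≤ (x : ℤ) ∧ η * (Nat.primeCounting x : ℝ) <
        ∑ q ∈ (Icc 1 ⌊(x : ℝ) ^ θ⌋₊).filter (fun q : ℕ => q.Prime ∧ ¬ (q : ℤ) ∣ a),
          |EE x q a| := by
    intro a ha
    have h1 := Finset.mem_filter.1 (hSE ha)
    refine ⟨abs_le.2 ?_, h1.2⟩
    have h2 := Finset.mem_Icc.1 h1.1
    exact h2
  have hmain := hx1 x hxa S (fun a ha => (hSmem a ha).1) (by rw [hSK]; exact hx4) K (fun _ => S)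
    (fun q => ⟨Finset.Subset.refl _, hSK.le⟩)
  have hswap : ∑ q ∈ (Icc 1 ⌊(x : ℝ) ^ θ⌋₊).filter Nat.Prime,
      ∑ a ∈ S.filter (fun a => ¬ (q : ℤ) ∣ a), |EE x q a| =
      ∑ a ∈ S, ∑ q ∈ (Icc 1 ⌊(x : ℝ) ^ θ⌋₊).filter (fun q : ℕ => q.Prime ∧ ¬ (q : ℤ) ∣ a),
        |EE x q a| := by
    have h1 : ∀ q ∈ (Icc 1 ⌊(x : ℝ) ^ θ⌋₊).filter Nat.Prime,
        ∑ a ∈ S.filter (fun a => ¬ (q : ℤ) ∣ a), |EE x q a| =
        ∑ a ∈ S, if ¬ (q : ℤ) ∣ a then |EE x q a| else 0 := fun q _ => Finset.sum_filter _ _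
    rw [Finset.sum_congr rfl h1, Finset.sum_comm]
    refine Finset.sum_congr rfl fun a _ => ?_
    rw [← Finset.sum_filter, Finset.filter_filter]
  have hlow : (K : ℝ) * (η * (x / (2 * Real.log x))) ≤
      ∑ a ∈ S, ∑ q ∈ (Icc 1 ⌊(x : ℝ) ^ θ⌋₊).filter (fun q : ℕ => q.Prime ∧ ¬ (q : ℤ) ∣ a),
        |EE x q a| := by
    rw [← hSK, ← nsmul_eq_mul]
    refine Finset.card_nsmul_le_sum _ _ _ fun a ha => ?_
    exact (mul_le_mul_of_nonneg_left (hx2 x hxb) hη.le).trans (hSmem a ha).2.le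
  have hfin : (K : ℝ) * (η * (x / (2 * Real.log x))) ≤
      C0 * Real.sqrt K * x / Real.log x + K * x / Real.log x ^ 2 := by
    refine hlow.trans ?_
    rw [← hswap]
    exact hmain
  -- divide by `x / log x`
  have h1 : (K : ℝ) * η / 2 ≤ C0 * Real.sqrt K + K / Real.log x := by
    have h2 : (K : ℝ) * (η * (x / (2 * Real.log x))) = (K * η / 2) * (x / Real.log x) := by
      field_simp
    have h3 : C0 * Real.sqrt K * x / Real.log x + K * x / Real.log x ^ 2 =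
        (C0 * Real.sqrt K + K / Real.log x) * (x / Real.log x) := by
      field_simp
    rw [h2, h3] at hfin
    exact le_of_mul_le_mul_right hfin (by positivity)
  have hK1 : (1 : ℝ) ≤ K := by
    rw [hK]
    push_cast
    have : (0 : ℝ) ≤ (⌊16 * C0 ^ 2 / η ^ 2⌋₊ : ℝ) := Nat.cast_nonneg _
    linarith only
  have h4 : (K : ℝ) / Real.log x ≤ K * η / 4 := by
    rw [div_le_iff₀ hlog]
    have : 4 ≤ Real.log x * η := by
      rwa [div_le_iff₀ hη] at hx5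
    nlinarith only [this]
  have h5 : (K : ℝ) * η / 4 ≤ C0 * Real.sqrt K := by linarith only [h1, h4]
  have hs : 0 < Real.sqrt K := Real.sqrt_pos.2 (by linarith only [hθ, h, hK1])
  have hss : Real.sqrt K * Real.sqrt K = K := Real.mul_self_sqrt (by linarith only [hθ, h, hK1])
  have h6 : Real.sqrt K * η ≤ 4 * C0 := by
    have : Real.sqrt K * (Real.sqrt K * η) ≤ Real.sqrt K * (4 * C0) := by
      calc Real.sqrt K * (Real.sqrt K * η) = (K : ℝ) * η := by rw [← mul_assoc, hss]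
        _ ≤ Real.sqrt K * (4 * C0) := by linarith only [h1, h4]
    exact le_of_mul_le_mul_left this hs
  have h7 : (K : ℝ) * η ^ 2 ≤ 16 * C0 ^ 2 := by
    have h8 : (Real.sqrt K * η) ^ 2 ≤ (4 * C0) ^ 2 := pow_le_pow_left₀ (by positivity) h6 2
    calc (K : ℝ) * η ^ 2 = (Real.sqrt K * η) ^ 2 := by rw [mul_pow, Real.sq_sqrt (by linarith only [hθ, h, hK1])]
      _ ≤ (4 * C0) ^ 2 := h8
      _ = 16 * C0 ^ 2 := by ring
  have h9 : (K : ℝ) ≤ 16 * C0 ^ 2 / η ^ 2 := by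
    rw [le_div_iff₀ (by positivity)]
    exact h7
  have h10 := Nat.lt_floor_add_one (16 * C0 ^ 2 / η ^ 2)
  rw [hK] at h9
  push_cast at h9
  linarith only [h10, h9]

end Pool.Agent.H80.BE

end

section

/-!
# BE FinC: the maximum inside the sum (plan in `Fin.lean`)
-/

set_option autoImplicit false

namespace Pool.Agent.H80.BE

open Finset

/-- the `K` elements with the largest values -/
private theorem FinC_top (T : Finset ℤ) (f : ℤ → ℝ) (K : ℕ) (hK : K ≤ T.card) :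
    ∃ B ⊆ T, B.card = K ∧ ∀ a ∈ T, a ∉ B → ∀ b ∈ B, f a ≤ f b := by
  classical
  induction K with
  | zero => exact ⟨∅, empty_subset _, card_empty, fun _ _ _ b hb => absurd hb (notMem_empty b)⟩
  | succ K ih =>
    obtain ⟨B, hBT, hBc, hB⟩ := ih (by omega)
    have hne : (T \ B).Nonempty := by
      rw [← card_pos, card_sdiff_of_subset hBT]
      omega
    obtain ⟨m, hm, hmax⟩ := exists_max_image (T \ B) f hne
    rw [mem_sdiff] at hm
    refine ⟨insert m B, ?_, ?_, ?_⟩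
    · intro y hy
      rcases mem_insert.1 hy with rfl | h
      · exact hm.1
      · exact hBT h
    · rw [card_insert_of_notMem hm.2, hBc]
    · intro a ha haB b hb
      rw [mem_insert, not_or] at haB
      rcases mem_insert.1 hb with rfl | h
      · exact hmax a (mem_sdiff.2 ⟨ha, haB.2⟩)
      · exact hB a ha haB.2 b h

private theorem FinC_sel (T : Finset ℤ) (f : ℤ → ℝ) (K : ℕ) :
    ∃ B ⊆ T, B.card ≤ K ∧ ∀ a ∈ T, a ∉ B → (K : ℝ) * f a ≤ ∑ b ∈ B, f b := by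
  by_cases hK : K ≤ T.card
  · obtain ⟨B, h1, h2, h3⟩ := FinC_top T f K hK
    refine ⟨B, h1, h2.le, fun a ha haB => ?_⟩
    rw [← h2, ← nsmul_eq_mul]
    exact card_nsmul_le_sum B f (f a) (h3 a ha haB)
  · exact ⟨T, Subset.refl T, by omega, fun a ha haB => absurd ha haB⟩

theorem fin_C (θ κ : ℝ) (hθ : 1 / 2 ≤ θ) (hκ : 0 ≤ κ) (h : 99 * θ + 100 * κ < 50) :
    ∃ C : ℝ, 0 < C ∧ ∀ η : ℝ, 0 < η → η ≤ 1 → ∃ x0 : ℕ, ∀ x : ℕ, x0 ≤ x → ∀ S : Finset ℤ,
      (∀ a ∈ S, |a| ≤ (x : ℤ)) → (S.card : ℝ) ≤ (x : ℝ) ^ κ →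
      ∃ B : ℕ → Finset ℤ, (∀ q, ((B q).card : ℝ) ≤ C / η ^ 2) ∧ ∀ r : ℕ → ℤ,
        ∑ q ∈ (Icc 1 ⌊(x : ℝ) ^ θ⌋₊).filter
            (fun q : ℕ => q.Prime ∧ r q ∈ S ∧ r q ∉ B q ∧ ¬ (q : ℤ) ∣ r q),
          |EE x q (r q)| ≤ η * (Nat.primeCounting x : ℝ) := by
  obtain ⟨C0, hC0, hA⟩ := fin_A θ κ hθ hκ h
  obtain ⟨x1, hx1⟩ := hA 2
  obtain ⟨x2, hx2⟩ := pi_ge
  refine ⟨16 * C0 ^ 2 + 1, by positivity, fun η hη hη1 => ?_⟩
  have hev : ∀ᶠ x : ℕ in Filter.atTop, 4 / η ≤ Real.log x :=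
    (Real.tendsto_log_atTop.comp tendsto_natCast_atTop_atTop).eventually_ge_atTop _
  obtain ⟨x3, hx3⟩ := Filter.eventually_atTop.1 hev
  refine ⟨max (max x1 x2) (max x3 1), fun x hx S hS hcard => ?_⟩
  have g1 : x1 ≤ x := (le_max_left _ _).trans ((le_max_left _ _).trans hx)
  have g2 : x2 ≤ x := (le_max_right _ _).trans ((le_max_left _ _).trans hx)
  have g3 : x3 ≤ x := (le_max_left _ _).trans ((le_max_right _ _).trans hx)
  have g4 : 1 ≤ x := (le_max_right _ _).trans ((le_max_right _ _).trans hx)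
  have hx0 : (0 : ℝ) < x := by exact_mod_cast g4
  have hlog := hx3 x g3
  have hη2 : η ^ 2 ≤ 1 := pow_le_one₀ hη.le hη1
  have hη20 : 0 < η ^ 2 := by positivity
  set L := Real.log x with hL
  have hL0 : 0 < L := lt_of_lt_of_le (by positivity) hlog
  set K : ℕ := ⌊(16 * C0 ^ 2 + 1) / η ^ 2⌋₊ with hK
  have hKle : (K : ℝ) ≤ (16 * C0 ^ 2 + 1) / η ^ 2 := Nat.floor_le (by positivity)
  have hKge : 16 * C0 ^ 2 / η ^ 2 ≤ K := by
    have h1 := Nat.lt_floor_add_one ((16 * C0 ^ 2 + 1) / η ^ 2)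
    rw [← hK] at h1
    have h2 : 1 ≤ 1 / η ^ 2 := by rw [le_div_iff₀ hη20]; linarith
    have h3 : (16 * C0 ^ 2 + 1) / η ^ 2 = 16 * C0 ^ 2 / η ^ 2 + 1 / η ^ 2 := by ring
    linarith
  have hKpos : (0 : ℝ) < K := lt_of_lt_of_le (by positivity) hKge
  choose B hBT hBc hBtop using fun q : ℕ =>
    FinC_sel (S.filter (fun a => ¬ (q : ℤ) ∣ a)) (fun a => |EE x q a|) K
  refine ⟨B, fun q => ?_, fun r => ?_⟩
  · have : ((B q).card : ℝ) ≤ K := by exact_mod_cast hBc q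
    exact this.trans hKle
  · have hmain := hx1 x g1 S hS hcard K B
      (fun q => ⟨(hBT q).trans (filter_subset _ _), hBc q⟩)
    have hfil : ∀ q, (B q).filter (fun a => ¬ (q : ℤ) ∣ a) = B q := by
      intro q
      rw [filter_eq_self]
      intro a ha
      exact (mem_filter.1 (hBT q ha)).2
    have hterm : ∑ q ∈ (Icc 1 ⌊(x : ℝ) ^ θ⌋₊).filter
            (fun q : ℕ => q.Prime ∧ r q ∈ S ∧ r q ∉ B q ∧ ¬ (q : ℤ) ∣ r q), (K : ℝ) * |EE x q (r q)| ≤
        ∑ q ∈ (Icc 1 ⌊(x : ℝ) ^ θ⌋₊).filter Nat.Prime,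
          ∑ a ∈ (B q).filter (fun a => ¬ (q : ℤ) ∣ a), |EE x q a| := by
      calc ∑ q ∈ (Icc 1 ⌊(x : ℝ) ^ θ⌋₊).filter
            (fun q : ℕ => q.Prime ∧ r q ∈ S ∧ r q ∉ B q ∧ ¬ (q : ℤ) ∣ r q), (K : ℝ) * |EE x q (r q)|
          ≤ ∑ q ∈ (Icc 1 ⌊(x : ℝ) ^ θ⌋₊).filter
            (fun q : ℕ => q.Prime ∧ r q ∈ S ∧ r q ∉ B q ∧ ¬ (q : ℤ) ∣ r q),
            ∑ a ∈ (B q).filter (fun a => ¬ (q : ℤ) ∣ a), |EE x q a| := by
            refine sum_le_sum fun q hq => ?_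
            rw [mem_filter] at hq
            obtain ⟨_, _, hrS, hrB, hrq⟩ := hq
            rw [hfil q]
            exact hBtop q (r q) (mem_filter.2 ⟨hrS, hrq⟩) hrB
        _ ≤ _ := by
            refine sum_le_sum_of_subset_of_nonneg ?_ (fun q _ _ => sum_nonneg fun a _ => abs_nonneg _)
            intro q hq
            rw [mem_filter] at hq ⊢
            exact ⟨hq.1, hq.2.1⟩
    rw [← mul_sum] at hterm
    have hπ := hx2 x g2
    have hs : Real.sqrt K ^ 2 = K := Real.sq_sqrt hKpos.le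
    have hs0 : 0 < Real.sqrt K := Real.sqrt_pos.2 hKpos
    have hs1 : 4 * C0 / η ≤ Real.sqrt K := by
      apply Real.le_sqrt_of_sq_le
      have e1 : (4 * C0 / η) ^ 2 = 16 * C0 ^ 2 / η ^ 2 := by ring
      rw [e1]
      exact hKge
    have hs2 : 4 * C0 ≤ η * Real.sqrt K := by
      rw [div_le_iff₀ hη] at hs1
      linarith
    have hl2 : 4 ≤ η * L := by
      rw [div_le_iff₀ hη] at hlog
      linarith
    have hxL : 0 < x / L := by positivity
    have b1 : C0 * Real.sqrt K * x / L ≤ K * (η / 4 * (x / L)) := by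
      have e1 : C0 * Real.sqrt K * x / L = (C0 * Real.sqrt K) * (x / L) := by ring
      have e2 : K * (η / 4 * (x / L)) = (K * (η / 4)) * (x / L) := by ring
      rw [e1, e2]
      refine mul_le_mul_of_nonneg_right ?_ hxL.le
      have : C0 * Real.sqrt K ≤ (η * Real.sqrt K / 4) * Real.sqrt K :=
        mul_le_mul_of_nonneg_right (by linarith) hs0.le
      calc C0 * Real.sqrt K ≤ (η * Real.sqrt K / 4) * Real.sqrt K := this
        _ = Real.sqrt K ^ 2 * (η / 4) := by ring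
        _ = K * (η / 4) := by rw [hs]
    have b2 : K * x / L ^ 2 ≤ K * (η / 4 * (x / L)) := by
      have e1 : K * x / L ^ 2 = (K * (x / L)) * (1 / L) := by
        field_simp
      have e2 : K * (η / 4 * (x / L)) = (K * (x / L)) * (η / 4) := by ring
      rw [e1, e2]
      refine mul_le_mul_of_nonneg_left ?_ (by positivity)
      rw [div_le_iff₀ hL0]
      linarith
    have b3 : K * (η / 4 * (x / L)) + K * (η / 4 * (x / L)) ≤
        K * (η * (Nat.primeCounting x : ℝ)) := by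
      have e1 : K * (η / 4 * (x / L)) + K * (η / 4 * (x / L)) = K * (η * (x / (2 * L))) := by
        field_simp
        ring
      rw [e1]
      exact mul_le_mul_of_nonneg_left (mul_le_mul_of_nonneg_left hπ hη.le) hKpos.le
    have hfin := hterm.trans (hmain.trans ((add_le_add b1 b2).trans b3))
    exact le_of_mul_le_mul_left hfin hKpos

end Pool.Agent.H80.BE

end
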