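import Pool.Agent.H94.EH.M15
import Pool.Agent.H94.EH.M20

/-! The parts of this file: H76.EHB.Large1, H76.EHB.DiagB, H76.EHB.FareyG, H76.EHB.Large2, H76.EHB.SoffInt, H76.EHB.Den, H91.PK.MB. -/

section

/-!
# EHB Large1: reduction for large denominators

By `IpS_le` (S = univ) each `‖IpS‖` is at most half the sum of `Wk f N A (c/d) k1 r` and `Wk f N A (c/d) k2 r`, `r = k2 - k1`; `Wk` depends only on `|r|`
(the square).  By symmetry (swap `k1, k2`) the left side is at most `∑_{k ∈ ks K} ∑_{k' ∈ ks K, k' ≠ k} ∑_{d ∣ k'-k, d > R} ∑_c Wk(c/d, k, |k'-k|)`, and for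
given `k` and `m ≥ 1` there are at most two `k'` with `|k' - k| = m`, `m ≤ 2K`.  (`Wk_nonneg`.)
-/

set_option autoImplicit false

namespace Pool.Agent.H76.EHB

open Finset MeasureTheory
open Pool.Agent.H92.EH (red)

private theorem large1_Wk_congr (f : ℕ → ℝ) (N : ℕ) (A α k : ℝ) (r : ℤ) (S : Set ℝ) :
    Wk f N A α k (r : ℝ) S = Wk f N A α k ((r.natAbs : ℕ) : ℝ) S := by
  unfold Wk
  have h : ((r.natAbs : ℕ) : ℝ) ^ 2 = (r : ℝ) ^ 2 := by
    have : ((r.natAbs : ℕ) : ℝ) = |(r : ℝ)| := by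
      rw [← Int.cast_abs, Int.abs_eq_natAbs]; simp
    rw [this, sq_abs]
  congr 1
  funext y
  have h2 : (A * ((r.natAbs : ℕ) : ℝ) * y) ^ 2 = (A * (r : ℝ) * y) ^ 2 := by
    rw [mul_pow, mul_pow, mul_pow, mul_pow, h]
  rw [h2]

/-- the inner double sum -/
private noncomputable def large1G (f : ℕ → ℝ) (N R : ℕ) (A : ℝ) (k : ℤ) (m : ℕ) : ℝ :=
  ∑ d ∈ m.divisors.filter (fun d => R < d), ∑ c ∈ red d, Wk f N A ((c : ℝ) / d) k m Set.univ

private theorem large1G_nonneg (f : ℕ → ℝ) (N R : ℕ) (A : ℝ) (hA : 0 < A) (k : ℤ) (m : ℕ) :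
    0 ≤ large1G f N R A k m :=
  Finset.sum_nonneg fun _ _ => Finset.sum_nonneg fun _ _ => Wk_nonneg f N A _ _ _ hA.le _

private theorem large1_pair (f : ℕ → ℝ) (N R : ℕ) (A : ℝ) (a0 : ℤ) (hA : 0 < A) (k1 k2 : ℤ)
    (hk : k1 ≠ k2) :
    ∑ d ∈ (k2 - k1).natAbs.divisors.filter (fun d => R < d),
      ∑ c ∈ red d, ‖IpS f N A a0 ((c : ℝ) / d) k1 k2 Set.univ‖
      ≤ (large1G f N R A k1 (k2 - k1).natAbs + large1G f N R A k2 (k2 - k1).natAbs) / 2 := by
  have h1 : ∀ d ∈ (k2 - k1).natAbs.divisors.filter (fun d => R < d),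
      ∑ c ∈ red d, ‖IpS f N A a0 ((c : ℝ) / d) k1 k2 Set.univ‖ ≤
      (∑ c ∈ red d, Wk f N A ((c : ℝ) / d) k1 ((k2 - k1).natAbs : ℕ) Set.univ +
        ∑ c ∈ red d, Wk f N A ((c : ℝ) / d) k2 ((k2 - k1).natAbs : ℕ) Set.univ) / 2 := by
    intro d _
    rw [← Finset.sum_add_distrib, Finset.sum_div]
    refine Finset.sum_le_sum fun c _ => ?_
    rw [← large1_Wk_congr, ← large1_Wk_congr]
    exact IpS_le f N A _ hA a0 k1 k2 hk Set.univ MeasurableSet.univ
  refine (Finset.sum_le_sum h1).trans ?_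
  rw [← Finset.sum_div, Finset.sum_add_distrib]
  exact le_rfl

private theorem large1_fiber (G : ℕ → ℝ) (hG : ∀ m, 0 ≤ G m) (K : ℕ) (k : ℤ) (hk : k ∈ ks K) :
    ∑ k2 ∈ (ks K).erase k, G (k2 - k).natAbs ≤ 2 * ∑ m ∈ Icc 1 (2 * K), G m := by
  have hmaps : ∀ k2 ∈ (ks K).erase k, (k2 - k).natAbs ∈ Icc 1 (2 * K) := by
    intro k2 h2
    rw [Finset.mem_erase, mem_ks] at h2
    rw [mem_ks] at hk
    rw [Finset.mem_Icc]
    have h3 := abs_le.1 h2.2.2
    have h4 := abs_le.1 hk.2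
    have h5 := h2.1
    omega
  rw [← Finset.sum_fiberwise_of_maps_to hmaps, Finset.mul_sum]
  refine Finset.sum_le_sum fun m _ => ?_
  have h1 : ∑ k2 ∈ ((ks K).erase k).filter (fun k2 => (k2 - k).natAbs = m), G (k2 - k).natAbs =
      (((ks K).erase k).filter (fun k2 => (k2 - k).natAbs = m)).card * G m := by
    rw [Finset.sum_congr rfl (g := fun _ => G m)]
    · rw [Finset.sum_const, nsmul_eq_mul]
    · intro k2 h2
      rw [(Finset.mem_filter.1 h2).2]
  rw [h1]
  refine mul_le_mul_of_nonneg_right ?_ (hG m)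
  have h2 : ((ks K).erase k).filter (fun k2 => (k2 - k).natAbs = m) ⊆ {k + m, k - m} := by
    intro k2 h2
    have h3 := (Finset.mem_filter.1 h2).2
    rw [Finset.mem_insert, Finset.mem_singleton]
    omega
  have h3 := (Finset.card_le_card h2).trans Finset.card_le_two
  exact_mod_cast h3

theorem large1 (f : ℕ → ℝ) (N K R : ℕ) (A : ℝ) (a0 : ℤ) (hA : 0 < A) :
    ∑ k1 ∈ ks K, ∑ k2 ∈ (ks K).erase k1, ∑ d ∈ (k2 - k1).natAbs.divisors.filter (fun d => R < d),
      ∑ c ∈ red d, ‖IpS f N A a0 ((c : ℝ) / d) k1 k2 Set.univ‖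
      ≤ 2 * ∑ k ∈ ks K, ∑ m ∈ Icc 1 (2 * K), ∑ d ∈ m.divisors.filter (fun d => R < d),
          ∑ c ∈ red d, Wk f N A ((c : ℝ) / d) k m Set.univ := by
  have hs : ∑ k1 ∈ ks K, ∑ k2 ∈ (ks K).erase k1, large1G f N R A k2 (k2 - k1).natAbs =
      ∑ k1 ∈ ks K, ∑ k2 ∈ (ks K).erase k1, large1G f N R A k1 (k2 - k1).natAbs := by
    rw [Finset.sum_comm' (t' := ks K) (s' := fun y => (ks K).erase y)]
    · refine Finset.sum_congr rfl fun k1 _ => Finset.sum_congr rfl fun k2 _ => ?_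
      rw [show (k1 - k2).natAbs = (k2 - k1).natAbs by omega]
    · intro x y
      simp only [Finset.mem_erase]
      tauto
  calc ∑ k1 ∈ ks K, ∑ k2 ∈ (ks K).erase k1, ∑ d ∈ (k2 - k1).natAbs.divisors.filter (fun d => R < d),
      ∑ c ∈ red d, ‖IpS f N A a0 ((c : ℝ) / d) k1 k2 Set.univ‖
      ≤ ∑ k1 ∈ ks K, ∑ k2 ∈ (ks K).erase k1,
        (large1G f N R A k1 (k2 - k1).natAbs + large1G f N R A k2 (k2 - k1).natAbs) / 2 := by
        refine Finset.sum_le_sum fun k1 _ => Finset.sum_le_sum fun k2 h2 => ?_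
        exact large1_pair f N R A a0 hA k1 k2 (Finset.ne_of_mem_erase h2).symm
    _ = ∑ k1 ∈ ks K, ∑ k2 ∈ (ks K).erase k1, large1G f N R A k1 (k2 - k1).natAbs := by
        simp only [← Finset.sum_div, Finset.sum_add_distrib]
        rw [hs]
        ring
    _ ≤ ∑ k ∈ ks K, 2 * ∑ m ∈ Icc 1 (2 * K), large1G f N R A k m :=
        Finset.sum_le_sum fun k hk => large1_fiber _ (large1G_nonneg f N R A hA k) K k hk
    _ = 2 * ∑ k ∈ ks K, ∑ m ∈ Icc 1 (2 * K), ∑ d ∈ m.divisors.filter (fun d => R < d),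
          ∑ c ∈ red d, Wk f N A ((c : ℝ) / d) k m Set.univ := by
        rw [Finset.mul_sum]
        rfl

end Pool.Agent.H76.EHB

end

section

/-!
# EHB DiagB: the diagonal

For fixed `n` and `k ≠ 0` the `a` with `k ∣ n - a` are spaced by `|k| ≥ 1`, so `gauss_spaced` (`λ = 1/A`, `δ = |k|`) gives
`∑_a wt A (a - a0) ≤ 2 + 2A/|k|`.  Sum over `n` and over `k ∈ ks K` (`card_ks`, `sum_inv_ks`).
-/

set_option autoImplicit false

namespace Pool.Agent.H76.EHB

open Finset MeasureTheory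

theorem diag_bound (f : ℕ → ℝ) (N K A Z : ℕ) (a0 : ℤ) (hA : 1 ≤ A) (hK : 1 ≤ K) :
    ∑ k ∈ ks K, DD f N A a0 Z k ≤ 4 * S2 f N * (K + A * (1 + Real.log K)) := by
  have hAr : (0 : ℝ) < (A : ℝ) := by exact_mod_cast hA
  have hS := S2_nonneg f N
  have key : ∀ k ∈ ks K, DD f N A a0 Z k ≤ S2 f N * 2 + S2 f N * (2 * A) * (1 / |(k : ℝ)|) := by
    intro k hk
    have hk0 : k ≠ 0 := (mem_ks.mp hk).1
    have hkr : (0 : ℝ) < |(k : ℝ)| := abs_pos.mpr (by exact_mod_cast hk0)
    have inner : ∀ n : ℕ, ∑ a ∈ (Icc (-(Z : ℤ)) Z).filter (fun a => k ∣ (n : ℤ) - a),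
        wt A ((a : ℝ) - a0) ≤ 2 + 2 * A * (1 / |(k : ℝ)|) := by
      intro n
      have h := gauss_spaced ((Icc (-(Z : ℤ)) Z).filter (fun a => k ∣ (n : ℤ) - a))
        (fun a : ℤ => (a : ℝ)) |(k : ℝ)| (1 / (A : ℝ)) (a0 : ℝ) hkr (by positivity) (by
          intro i hi j hj hij
          have hi' := (Finset.mem_filter.mp hi).2
          have hj' := (Finset.mem_filter.mp hj).2
          have hd : k ∣ i - j := by
            have h3 := dvd_sub hj' hi'
            have e : (n : ℤ) - j - (n - i) = i - j := by ring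
            rwa [e] at h3
          have hne : i - j ≠ 0 := sub_ne_zero.mpr hij
          have h4 : |k| ≤ |i - j| := Int.le_of_dvd (abs_pos.mpr hne) ((abs_dvd_abs k (i - j)).mpr hd)
          have h5 : ((|k| : ℤ) : ℝ) ≤ ((|i - j| : ℤ) : ℝ) := by exact_mod_cast h4
          push_cast at h5
          exact h5)
      have e1 : ∑ a ∈ (Icc (-(Z : ℤ)) Z).filter (fun a => k ∣ (n : ℤ) - a), wt A ((a : ℝ) - a0)
          = ∑ i ∈ (Icc (-(Z : ℤ)) Z).filter (fun a => k ∣ (n : ℤ) - a),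
            Real.exp (-Real.pi * (1 / (A : ℝ) * ((i : ℝ) - a0)) ^ 2) := by
        refine Finset.sum_congr rfl fun a _ => ?_
        unfold wt
        congr 3
        ring
      rw [e1]
      refine h.trans (le_of_eq ?_)
      field_simp
    calc DD f N A a0 Z k ≤ ∑ n ∈ Icc 1 N, f n ^ 2 * (2 + 2 * A * (1 / |(k : ℝ)|)) := by
          unfold DD
          exact Finset.sum_le_sum fun n _ => mul_le_mul_of_nonneg_left (inner n) (sq_nonneg _)
      _ = S2 f N * 2 + S2 f N * (2 * A) * (1 / |(k : ℝ)|) := by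
          rw [← Finset.sum_mul]
          unfold S2
          ring
  calc ∑ k ∈ ks K, DD f N A a0 Z k
      ≤ ∑ k ∈ ks K, (S2 f N * 2 + S2 f N * (2 * A) * (1 / |(k : ℝ)|)) := Finset.sum_le_sum key
    _ = (2 * K) * (S2 f N * 2) + S2 f N * (2 * A) * ∑ k ∈ ks K, 1 / |(k : ℝ)| := by
        rw [Finset.sum_add_distrib, Finset.sum_const, card_ks, ← Finset.mul_sum, nsmul_eq_mul]
        push_cast
        ring
    _ ≤ (2 * K) * (S2 f N * 2) + S2 f N * (2 * A) * (2 * (1 + Real.log K)) := by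
        gcongr
        exact sum_inv_ks K hK
    _ = 4 * S2 f N * (K + A * (1 + Real.log K)) := by ring

end Pool.Agent.H76.EHB

end

section

/-!
# EHB FareyG: Gaussian large sieve for the fractions with denominators in `(R, 2R]`

With `λ = A g R / k`: for `r ∈ (R, 2R]` we have `(A g r / k)^2 ≥ λ^2`, so after the translation `θ → θ - c/r` the
left side is at most `∫ W |FF|^2` with `W(θ) = ∑_{r ∈ (R,2R]} ∑_{c ∈ red r} exp(-π (λ (θ - c/r))^2)`.
For a finite set `J` of integers `∑_{j ∈ J} W(θ + j)` is a sum of `exp(-π (λ (c/r - j - θ))^2)` over the points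
`c/r - j`; two different ones (for different triples `(r, c, j)`) have distance `≥ 1/(4R^2)`
(`farey_spacing` for `(r,c) ≠ (r',c')`: `≥ 1/(r r')`; equal `(r,c)`: `≥ 1`).  By `gauss_spaced` the sum is
`≤ 2 + 2 * 4 R^2/λ = 2 + 8 R k/(A g)`.  Apply `fold_le`.
-/

set_option autoImplicit false

namespace Pool.Agent.H76.EHB

open Finset MeasureTheory
open Pool.Agent.H92.EH (red)

theorem fg_gauss_int (lam c : ℝ) (hlam : 0 < lam) :
    Integrable (fun θ : ℝ => Real.exp (-Real.pi * (lam * (θ - c)) ^ 2)) := by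
  have h1 : Integrable (fun θ : ℝ => Real.exp (-(Real.pi * lam ^ 2) * θ ^ 2)) :=
    integrable_exp_neg_mul_sq (by positivity)
  have h2 := h1.comp_sub_right c
  refine h2.congr (Filter.Eventually.of_forall fun θ => ?_)
  simp only
  congr 1
  ring

theorem fg_one (f : ℕ → ℝ) (N : ℕ) (lam mu c : ℝ) (hlam : 0 < lam) (hmu : lam ≤ mu) :
    ∫ θ, Real.exp (-Real.pi * (mu * θ) ^ 2) * ‖FF f N (c + θ)‖ ^ 2 ≤
      ∫ θ, Real.exp (-Real.pi * (lam * (θ - c)) ^ 2) * ‖FF f N θ‖ ^ 2 := by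
  have key : ∀ l : ℝ, ∫ θ, Real.exp (-Real.pi * (l * (θ - c)) ^ 2) * ‖FF f N θ‖ ^ 2 =
      ∫ θ, Real.exp (-Real.pi * (l * θ) ^ 2) * ‖FF f N (c + θ)‖ ^ 2 := by
    intro l
    rw [← integral_sub_right_eq_self
      (fun θ => Real.exp (-Real.pi * (l * θ) ^ 2) * ‖FF f N (c + θ)‖ ^ 2) c]
    congr 1
    ext θ
    rw [show c + (θ - c) = θ by ring]
  have hmu0 : 0 < mu := lt_of_lt_of_le hlam hmu
  rw [← key mu]
  apply integral_mono
  · exact fold_integrable f N _ (fg_gauss_int mu c hmu0)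
  · exact fold_integrable f N _ (fg_gauss_int lam c hlam)
  · intro θ
    simp only
    apply mul_le_mul_of_nonneg_right _ (by positivity)
    apply Real.exp_le_exp.mpr
    have h1 : (lam * (θ - c)) ^ 2 ≤ (mu * (θ - c)) ^ 2 := by
      rw [mul_pow, mul_pow]
      apply mul_le_mul_of_nonneg_right _ (by positivity)
      exact pow_le_pow_left₀ hlam.le hmu 2
    nlinarith [Real.pi_pos]

theorem fg_sep (R : ℕ) (hR : 1 ≤ R) (a b : Σ _ : ℕ, Σ _ : ℕ, ℤ)
    (ha1 : a.1 ∈ Ioc R (2 * R)) (ha2 : a.2.1 ∈ red a.1)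
    (hb1 : b.1 ∈ Ioc R (2 * R)) (hb2 : b.2.1 ∈ red b.1) (hab : a ≠ b) :
    1 / (4 * (R : ℝ) ^ 2) ≤
      |((a.2.1 : ℝ) / a.1 - a.2.2) - ((b.2.1 : ℝ) / b.1 - b.2.2)| := by
  obtain ⟨r, c, j⟩ := a
  obtain ⟨r', c', j'⟩ := b
  simp only at ha1 ha2 hb1 hb2 ⊢
  rw [mem_Ioc] at ha1 hb1
  have hR0 : (1 : ℝ) ≤ R := by exact_mod_cast hR
  have hr2 : (r : ℝ) ≤ 2 * R := by exact_mod_cast ha1.2
  have hr2' : (r' : ℝ) ≤ 2 * R := by exact_mod_cast hb1.2
  have hr0 : (0 : ℝ) < r := by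
    have : 0 < r := by omega
    exact_mod_cast this
  have hr0' : (0 : ℝ) < r' := by
    have : 0 < r' := by omega
    exact_mod_cast this
  by_cases h : r = r' ∧ c = c'
  · obtain ⟨h1, h2⟩ := h
    subst h1 h2
    have hj : j ≠ j' := by
      intro h
      apply hab
      rw [h]
    have h3 : (1 : ℝ) ≤ |(j' : ℝ) - j| := by
      have : (1 : ℤ) ≤ |j' - j| := Int.one_le_abs (sub_ne_zero.mpr (Ne.symm hj))
      exact_mod_cast this
    have h4 : ((c : ℝ) / r - j) - ((c : ℝ) / r - j') = j' - j := by ring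
    rw [h4]
    refine le_trans ?_ h3
    rw [div_le_one (by positivity)]
    nlinarith
  · have h1 := Pool.Agent.H92.EH.farey_spacing (r := r) (r' := r') (b := c) (b' := c')
      (by omega) (by omega) ha2 hb2 h (j - j')
    have h2 : (c : ℝ) / r - (c' : ℝ) / r' - ((j - j' : ℤ) : ℝ) =
        ((c : ℝ) / r - j) - ((c' : ℝ) / r' - j') := by
      push_cast
      ring
    rw [h2] at h1
    refine le_trans ?_ h1
    apply one_div_le_one_div_of_le (by positivity)
    nlinarith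

theorem fg_bound (R : ℕ) (hR : 1 ≤ R) (lam : ℝ) (hlam : 0 < lam) (θ : ℝ) (J : Finset ℤ) :
    ∑ j ∈ J, ∑ r ∈ Ioc R (2 * R), ∑ c ∈ red r,
      Real.exp (-Real.pi * (lam * ((θ + j) - (c : ℝ) / r)) ^ 2) ≤
      2 + 2 / (lam * (1 / (4 * (R : ℝ) ^ 2))) := by
  have hR0 : (1 : ℝ) ≤ R := by exact_mod_cast hR
  set T : Finset (Σ _ : ℕ, Σ _ : ℕ, ℤ) :=
    (Ioc R (2 * R)).sigma fun r => (red r).sigma fun _ => J with hT
  have h1 := gauss_spaced T (fun a => (a.2.1 : ℝ) / a.1 - a.2.2) (1 / (4 * (R : ℝ) ^ 2)) lam θ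
    (by positivity) hlam (by
      intro a ha b hb hab
      rw [hT, mem_sigma, mem_sigma] at ha hb
      exact fg_sep R hR a b ha.1 ha.2.1 hb.1 hb.2.1 hab)
  refine le_trans (le_of_eq ?_) h1
  rw [hT, Finset.sum_sigma, Finset.sum_comm]
  apply Finset.sum_congr rfl
  intro r _
  rw [Finset.sum_sigma, Finset.sum_comm]
  apply Finset.sum_congr rfl
  intro c _
  apply Finset.sum_congr rfl
  intro j _
  simp only
  congr 1
  ring

theorem farey_gauss (f : ℕ → ℝ) (N : ℕ) (A k : ℝ) (g R : ℕ) (hA : 0 < A) (hk : 0 < k) (hg : 1 ≤ g)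
    (hR : 1 ≤ R) :
    ∑ r ∈ Ioc R (2 * R), ∑ c ∈ red r,
      ∫ θ, Real.exp (-Real.pi * (A * g * r / k * θ) ^ 2) * ‖FF f N ((c : ℝ) / r + θ)‖ ^ 2
      ≤ (2 + 8 * R * k / (A * g)) * S2 f N := by
  have hR0 : (1 : ℝ) ≤ R := by exact_mod_cast hR
  have hg0 : (1 : ℝ) ≤ g := by exact_mod_cast hg
  set lam : ℝ := A * g * R / k with hlam
  have hlam0 : 0 < lam := by positivity
  have hC : 2 + 8 * R * k / (A * g) = 2 + 2 / (lam * (1 / (4 * (R : ℝ) ^ 2))) := by
    rw [hlam]
    field_simp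
    ring
  have hint : ∀ (c r : ℕ), Integrable (fun θ : ℝ =>
      Real.exp (-Real.pi * (lam * (θ - (c : ℝ) / r)) ^ 2)) := fun c r => fg_gauss_int _ _ hlam0
  have step1 : ∑ r ∈ Ioc R (2 * R), ∑ c ∈ red r,
      ∫ θ, Real.exp (-Real.pi * (A * g * r / k * θ) ^ 2) * ‖FF f N ((c : ℝ) / r + θ)‖ ^ 2 ≤
      ∑ r ∈ Ioc R (2 * R), ∑ c ∈ red r,
      ∫ θ, Real.exp (-Real.pi * (lam * (θ - (c : ℝ) / r)) ^ 2) * ‖FF f N θ‖ ^ 2 := by
    apply Finset.sum_le_sum
    intro r hr
    rw [mem_Ioc] at hr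
    apply Finset.sum_le_sum
    intro c _
    apply fg_one f N lam _ _ hlam0
    have : (R : ℝ) ≤ r := by exact_mod_cast hr.1.le
    rw [hlam]
    gcongr
  refine le_trans step1 ?_
  have step2 : ∑ r ∈ Ioc R (2 * R), ∑ c ∈ red r,
      ∫ θ, Real.exp (-Real.pi * (lam * (θ - (c : ℝ) / r)) ^ 2) * ‖FF f N θ‖ ^ 2 =
      ∫ θ, (∑ r ∈ Ioc R (2 * R), ∑ c ∈ red r,
        Real.exp (-Real.pi * (lam * (θ - (c : ℝ) / r)) ^ 2)) * ‖FF f N θ‖ ^ 2 := by
    have e1 : (fun θ : ℝ => (∑ r ∈ Ioc R (2 * R), ∑ c ∈ red r,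
        Real.exp (-Real.pi * (lam * (θ - (c : ℝ) / r)) ^ 2)) * ‖FF f N θ‖ ^ 2) =
        fun θ : ℝ => ∑ r ∈ Ioc R (2 * R), ∑ c ∈ red r,
          (Real.exp (-Real.pi * (lam * (θ - (c : ℝ) / r)) ^ 2) * ‖FF f N θ‖ ^ 2) := by
      ext θ
      rw [Finset.sum_mul]
      apply Finset.sum_congr rfl
      intro r _
      rw [Finset.sum_mul]
    rw [e1, integral_finsetSum]
    · apply Finset.sum_congr rfl
      intro r _
      rw [integral_finsetSum]
      intro c _
      exact fold_integrable f N _ (hint c r)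
    · intro r _
      apply integrable_finsetSum
      intro c _
      exact fold_integrable f N _ (hint c r)
  rw [step2, hC]
  apply fold_le f N
  · fun_prop
  · intro θ
    exact Finset.sum_nonneg fun r _ => Finset.sum_nonneg fun c _ => (Real.exp_pos _).le
  · exact integrable_finsetSum _ fun r _ => integrable_finsetSum _ fun c _ => hint c r
  · intro θ J
    exact fg_bound R hR lam hlam0 θ J

end Pool.Agent.H76.EHB

end

section

/-!
# EHB Large2: the bound for large denominators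

Write `m = g d`, `1 ≤ g ≤ 2K/d`, and put `d > R` into the dyadic block `(R 2^j, R 2^{j+1}]`, `j ≥ 0`, `R 2^j < 2K`, so `g ≤ 2K/(R 2^j)`.  `Wk_scale` and `farey_gauss`
(with `|k|`, `R 2^j` in place of `k`, `R`; `(A m/k)^2 = (A g d/|k|)^2`): for fixed `k, j, g` the sum over `d` in the block and `c ∈ red d` is at most
`(A/|k|) (2 + 8 R 2^j |k|/(A g)) S2`.  Sums: `2 A ∑_k 1/|k| ∑_j ∑_g 1 ≤ 2 A * 2(1+log K) * 4K/R` (`∑_{j ≥ 0} 2K/(R 2^j) ≤ 4K/R`, `sum_inv_ks`) and
`8 ∑_k ∑_j R 2^j ∑_g 1/g ≤ 8 * 2K * 4K * (1 + log(2K))`  (`∑_{j: R 2^j < 2K} R 2^j ≤ 4K`).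
Total `≤ S2 (16 A K (1+log K)/R + 64 K^2 (1+log 2K))`.
-/

set_option autoImplicit false

namespace Pool.Agent.H76.EHB

open Finset MeasureTheory
open Pool.Agent.H92.EH (red)

/-- swap of the divisor sum -/
private theorem l2_divsum (M R : ℕ) (F : ℕ → ℕ → ℝ) :
    ∑ m ∈ Icc 1 M, ∑ d ∈ m.divisors.filter (fun d => R < d), F m d
      = ∑ d ∈ Ioc R M, ∑ g ∈ Icc 1 (M / d), F (g * d) d := by
  have h1 : ∀ m ∈ Icc 1 M, ∑ d ∈ m.divisors.filter (fun d => R < d), F m d
      = ∑ d ∈ Ioc R M, if d ∣ m then F m d else 0 := by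
    intro m hm
    rw [mem_Icc] at hm
    rw [← Finset.sum_filter]
    apply Finset.sum_congr _ (fun _ _ => rfl)
    ext d
    simp only [mem_filter, Nat.mem_divisors, mem_Ioc]
    constructor
    · rintro ⟨⟨h, h0⟩, h2⟩
      exact ⟨⟨h2, (Nat.le_of_dvd (by omega) h).trans hm.2⟩, h⟩
    · rintro ⟨⟨h2, h3⟩, h⟩
      exact ⟨⟨h, by omega⟩, h2⟩
  rw [Finset.sum_congr rfl h1, Finset.sum_comm]
  apply Finset.sum_congr rfl
  intro d hd
  rw [mem_Ioc] at hd
  have hd0 : 0 < d := by omega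
  rw [← Finset.sum_filter]
  symm
  apply Finset.sum_bij (fun g _ => g * d)
  · intro g hg
    rw [mem_Icc] at hg
    rw [mem_filter, mem_Icc]
    refine ⟨⟨Nat.mul_pos (by omega) hd0, ?_⟩, Dvd.intro_left g rfl⟩
    exact (Nat.le_div_iff_mul_le hd0).1 hg.2
  · intro a _ b _ h
    exact Nat.eq_of_mul_eq_mul_right hd0 h
  · intro m hm
    rw [mem_filter, mem_Icc] at hm
    obtain ⟨⟨h1, h2⟩, h3⟩ := hm
    obtain ⟨g, rfl⟩ := h3
    refine ⟨g, ?_, by ring⟩
    rw [mem_Icc]
    constructor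
    · rcases Nat.eq_zero_or_pos g with h | h
      · subst h; simp at h1
      · exact h
    · rw [Nat.le_div_iff_mul_le hd0]; rwa [mul_comm]
  · intro g _
    rfl

/-- decomposition into dyadic blocks -/
private theorem l2_blocks (R J : ℕ) (h : ℕ → ℝ) :
    ∑ d ∈ Ioc R (R * 2 ^ J), h d
      = ∑ j ∈ range J, ∑ d ∈ Ioc (R * 2 ^ j) (2 * (R * 2 ^ j)), h d := by
  induction J with
  | zero => simp
  | succ J ih =>
    rw [Finset.sum_range_succ, ← ih]
    have e : 2 * (R * 2 ^ J) = R * 2 ^ (J + 1) := by rw [pow_succ]; ring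
    rw [e]
    symm
    apply Finset.sum_Ioc_consecutive
    · exact Nat.le_mul_of_pos_right R (by positivity)
    · exact Nat.mul_le_mul_left R (Nat.pow_le_pow_right (by norm_num) (by omega))

private theorem l2_geo (M R J : ℕ) (hR : 1 ≤ R) :
    ∑ j ∈ range J, ((M / (R * 2 ^ j) : ℕ) : ℝ) ≤ 2 * M / R := by
  have hR' : (0 : ℝ) < R := by exact_mod_cast hR
  have h1 : ∀ j ∈ range J, ((M / (R * 2 ^ j) : ℕ) : ℝ) ≤ (M / R : ℝ) * (1 / 2) ^ j := by
    intro j _
    have := @Nat.cast_div_le ℝ _ _ _ M (R * 2 ^ j)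
    refine this.trans (le_of_eq ?_)
    push_cast
    rw [div_pow, one_pow]
    field_simp
  refine (Finset.sum_le_sum h1).trans ?_
  rw [← Finset.mul_sum]
  have h2 : ∑ j ∈ range J, ((1 : ℝ) / 2) ^ j ≤ 2 := by
    have h3 : ∑ j ∈ range J, ((1 : ℝ) / 2) ^ j = 2 - 2 * (1 / 2) ^ J := by
      induction J with
      | zero => simp
      | succ J ih =>
        rw [Finset.sum_range_succ, ih (fun j hj => h1 j (mem_range.2 (lt_trans (mem_range.1 hj) (Nat.lt_succ_self J))))]
        rw [pow_succ]; ring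
    rw [h3]
    have : (0 : ℝ) ≤ (1 / 2) ^ J := by positivity
    linarith
  calc (M / R : ℝ) * ∑ j ∈ range J, ((1 : ℝ) / 2) ^ j ≤ (M / R : ℝ) * 2 := by
        apply mul_le_mul_of_nonneg_left h2; positivity
    _ = 2 * M / R := by ring

private theorem l2_geo2 (M R J : ℕ) :
    (∑ j ∈ range J, (if R * 2 ^ j ≤ M then (R * 2 ^ j) else 0) ≤ 2 * M) ∧
      (∑ j ∈ range J, (if R * 2 ^ j ≤ M then (R * 2 ^ j) else 0) ≤ R * 2 ^ J) := by
  induction J with
  | zero => simp
  | succ J ih =>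
    rw [Finset.sum_range_succ]
    have e : R * 2 ^ (J + 1) = 2 * (R * 2 ^ J) := by rw [pow_succ]; ring
    rw [e]
    split_ifs with h
    · constructor <;> omega
    · constructor <;> omega

private theorem l2_harm (M n : ℕ) (hn : n ≤ M) :
    ∑ g ∈ Icc 1 n, (1 : ℝ) / g ≤ 1 + Real.log M := by
  have h0 : 0 ≤ Real.log M := Real.log_natCast_nonneg M
  rcases Nat.eq_zero_or_pos n with h | h
  · subst h; simp; linarith
  · have h1 : ∑ g ∈ Icc 1 n, (1 : ℝ) / g = ((harmonic n : ℚ) : ℝ) := by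
      rw [harmonic_eq_sum_Icc]
      push_cast
      apply Finset.sum_congr rfl
      intro i _
      rw [one_div]
    rw [h1]
    refine (harmonic_le_one_add_log n).trans ?_
    have : Real.log n ≤ Real.log M := by
      apply Real.log_le_log
      · exact_mod_cast h
      · exact_mod_cast hn
    linarith

theorem large2 (f : ℕ → ℝ) (N K R : ℕ) (A : ℝ) (hA : 0 < A) (hK : 1 ≤ K) (hR : 1 ≤ R) :
    ∑ k ∈ ks K, ∑ m ∈ Icc 1 (2 * K), ∑ d ∈ m.divisors.filter (fun d => R < d),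
          ∑ c ∈ red d, Wk f N A ((c : ℝ) / d) k m Set.univ
      ≤ 64 * S2 f N * (1 + Real.log (2 * K)) * (A * K / R + K ^ 2) := by
  have hS := S2_nonneg f N
  have hR' : (0 : ℝ) < R := by exact_mod_cast hR
  have hK' : (1 : ℝ) ≤ K := by exact_mod_cast hK
  set M : ℕ := 2 * K with hMdef
  have hM1 : 1 ≤ M := by omega
  have hMr : (M : ℝ) = 2 * K := by rw [hMdef]; push_cast; ring
  have hlogM : 0 ≤ Real.log M := Real.log_natCast_nonneg M
  -- the inner sums
  have hk : ∀ k ∈ ks K, ∑ m ∈ Icc 1 M, ∑ d ∈ m.divisors.filter (fun d => R < d),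
          ∑ c ∈ red d, Wk f N A ((c : ℝ) / d) k m Set.univ
      ≤ (4 * A * M / R * S2 f N) * (1 / |(k : ℝ)|) + 16 * M * (1 + Real.log M) * S2 f N := by
    intro k hk
    rw [mem_ks] at hk
    have hk0 : (k : ℝ) ≠ 0 := by exact_mod_cast hk.1
    have hka : 0 < |(k : ℝ)| := abs_pos.2 hk0
    set E : ℕ → ℕ → ℝ := fun g d => ∑ c ∈ red d,
      ∫ θ, Real.exp (-Real.pi * (A * g * d / |(k : ℝ)| * θ) ^ 2) * ‖FF f N ((c : ℝ) / d + θ)‖ ^ 2
      with hE
    have hEnn : ∀ g d, 0 ≤ E g d := by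
      intro g d
      apply Finset.sum_nonneg
      intro c _
      apply integral_nonneg
      intro θ
      positivity
    have hscale : ∀ g d : ℕ, ∑ c ∈ red d, Wk f N A ((c : ℝ) / d) k ((g * d : ℕ) : ℝ) Set.univ
        = A / |(k : ℝ)| * E g d := by
      intro g d
      rw [hE]
      simp only
      rw [Finset.mul_sum]
      apply Finset.sum_congr rfl
      intro c _
      rw [Wk_scale f N A _ _ _ hk0]
      congr 1
      apply integral_congr_ae
      filter_upwards with θ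
      have : (A * ((g * d : ℕ) : ℝ) / (k : ℝ) * θ) ^ 2 = (A * g * d / |(k : ℝ)| * θ) ^ 2 := by
        rw [mul_pow, mul_pow, div_pow, div_pow, sq_abs]
        push_cast
        ring
      rw [this]
    rw [l2_divsum M R (fun m d => ∑ c ∈ red d, Wk f N A ((c : ℝ) / d) k m Set.univ)]
    simp only [hscale]
    -- pull out the constant
    have hpull : ∑ d ∈ Ioc R M, ∑ g ∈ Icc 1 (M / d), A / |(k : ℝ)| * E g d
        = A / |(k : ℝ)| * ∑ d ∈ Ioc R M, ∑ g ∈ Icc 1 (M / d), E g d := by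
      rw [Finset.mul_sum]
      apply Finset.sum_congr rfl
      intro d _
      rw [Finset.mul_sum]
    rw [hpull]
    -- blocks
    have hb1 : ∑ d ∈ Ioc R M, ∑ g ∈ Icc 1 (M / d), E g d
        ≤ ∑ d ∈ Ioc R (R * 2 ^ M), ∑ g ∈ Icc 1 (M / d), E g d := by
      apply Finset.sum_le_sum_of_subset_of_nonneg
      · apply Finset.Ioc_subset_Ioc_right
        have h1 : M < 2 ^ M := Nat.lt_two_pow_self
        calc M ≤ 1 * 2 ^ M := by omega
          _ ≤ R * 2 ^ M := Nat.mul_le_mul_right _ hR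
      · intro d _ _
        apply Finset.sum_nonneg
        intro g _
        exact hEnn g d
    rw [l2_blocks] at hb1
    have hb2 : ∑ j ∈ range M, ∑ d ∈ Ioc (R * 2 ^ j) (2 * (R * 2 ^ j)), ∑ g ∈ Icc 1 (M / d), E g d
        ≤ ∑ j ∈ range M, ∑ g ∈ Icc 1 (M / (R * 2 ^ j)), (2 + 8 * ((R * 2 ^ j : ℕ) : ℝ) * |(k : ℝ)| / (A * g)) * S2 f N := by
      apply Finset.sum_le_sum
      intro j _
      have h1 : ∑ d ∈ Ioc (R * 2 ^ j) (2 * (R * 2 ^ j)), ∑ g ∈ Icc 1 (M / d), E g d
          ≤ ∑ d ∈ Ioc (R * 2 ^ j) (2 * (R * 2 ^ j)), ∑ g ∈ Icc 1 (M / (R * 2 ^ j)), E g d := by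
        apply Finset.sum_le_sum
        intro d hd
        rw [mem_Ioc] at hd
        apply Finset.sum_le_sum_of_subset_of_nonneg
        · apply Finset.Icc_subset_Icc_right
          apply Nat.div_le_div_left (by omega)
          positivity
        · intro g _ _
          exact hEnn g d
      refine h1.trans ?_
      rw [Finset.sum_comm]
      apply Finset.sum_le_sum
      intro g hg
      rw [mem_Icc] at hg
      exact farey_gauss f N A |(k : ℝ)| g (R * 2 ^ j) hA hka hg.1 (Nat.mul_pos hR (by positivity))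
    have hb3 : ∑ j ∈ range M, ∑ g ∈ Icc 1 (M / (R * 2 ^ j)), (2 + 8 * ((R * 2 ^ j : ℕ) : ℝ) * |(k : ℝ)| / (A * g)) * S2 f N
        ≤ (2 * (2 * M / R) + 8 * |(k : ℝ)| / A * ((2 * M) * (1 + Real.log M))) * S2 f N := by
      have h1 : ∀ j ∈ range M, ∑ g ∈ Icc 1 (M / (R * 2 ^ j)), (2 + 8 * ((R * 2 ^ j : ℕ) : ℝ) * |(k : ℝ)| / (A * g)) * S2 f N
          ≤ (2 * ((M / (R * 2 ^ j) : ℕ) : ℝ) + 8 * |(k : ℝ)| / A * (((if R * 2 ^ j ≤ M then R * 2 ^ j else 0 : ℕ) : ℝ) * (1 + Real.log M))) * S2 f N := by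
        intro j _
        rw [← Finset.sum_mul]
        apply mul_le_mul_of_nonneg_right _ hS
        rw [Finset.sum_add_distrib]
        have e1 : ∑ g ∈ Icc 1 (M / (R * 2 ^ j)), (2 : ℝ) = 2 * ((M / (R * 2 ^ j) : ℕ) : ℝ) := by
          rw [Finset.sum_const, Nat.card_Icc]
          simp
          ring
        rw [e1]
        have e2 : ∑ g ∈ Icc 1 (M / (R * 2 ^ j)), 8 * ((R * 2 ^ j : ℕ) : ℝ) * |(k : ℝ)| / (A * g)
            = 8 * |(k : ℝ)| / A * (((R * 2 ^ j : ℕ) : ℝ) * ∑ g ∈ Icc 1 (M / (R * 2 ^ j)), (1 : ℝ) / g) := by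
          rw [Finset.mul_sum, Finset.mul_sum]
          apply Finset.sum_congr rfl
          intro g hg
          rw [mem_Icc] at hg
          have : (0 : ℝ) < g := by exact_mod_cast hg.1
          field_simp
        rw [e2]
        gcongr ?_ + 8 * |(k : ℝ)| / A * ?_
        · exact le_refl _
        · split_ifs with h
          · apply mul_le_mul_of_nonneg_left _ (Nat.cast_nonneg _)
            exact l2_harm M _ (Nat.div_le_self _ _)
          · rw [Nat.div_eq_of_lt (by omega)]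
            simp
      refine (Finset.sum_le_sum h1).trans ?_
      rw [← Finset.sum_mul]
      apply mul_le_mul_of_nonneg_right _ hS
      rw [Finset.sum_add_distrib, ← Finset.mul_sum, ← Finset.mul_sum, ← Finset.sum_mul]
      have g1 := l2_geo M R M hR
      have g2 := (l2_geo2 M R M).1
      have g3 : ∑ j ∈ range M, ((if R * 2 ^ j ≤ M then R * 2 ^ j else 0 : ℕ) : ℝ) ≤ 2 * M := by
        exact_mod_cast g2
      gcongr
    calc A / |(k : ℝ)| * ∑ d ∈ Ioc R M, ∑ g ∈ Icc 1 (M / d), E g d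
        ≤ A / |(k : ℝ)| * ((2 * (2 * M / R) + 8 * |(k : ℝ)| / A * ((2 * M) * (1 + Real.log M))) * S2 f N) := by
          apply mul_le_mul_of_nonneg_left _ (by positivity)
          exact hb1.trans (hb2.trans hb3)
      _ = (4 * A * M / R * S2 f N) * (1 / |(k : ℝ)|) + 16 * M * (1 + Real.log M) * S2 f N := by
          field_simp
          ring
  refine (Finset.sum_le_sum hk).trans ?_
  rw [Finset.sum_add_distrib, ← Finset.mul_sum, Finset.sum_const, card_ks, nsmul_eq_mul]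
  have hs := sum_inv_ks K hK
  have hlogK : Real.log K ≤ Real.log (2 * K) := by
    apply Real.log_le_log <;> linarith
  have h1 : (4 * A * M / R * S2 f N) * ∑ k ∈ ks K, 1 / |(k : ℝ)|
      ≤ (4 * A * M / R * S2 f N) * (2 * (1 + Real.log (2 * K))) := by
    apply mul_le_mul_of_nonneg_left _ (by positivity)
    linarith
  have hL : 0 ≤ 1 + Real.log (2 * K) := by
    have : 0 ≤ Real.log (2 * (K : ℝ)) := Real.log_nonneg (by linarith)
    linarith
  rw [hMr] at h1 ⊢
  have e1 : 4 * A * (2 * (K : ℝ)) / R * S2 f N * (2 * (1 + Real.log (2 * K)))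
      = 16 * S2 f N * (1 + Real.log (2 * K)) * (A * K / R) := by
    field_simp
    ring
  rw [e1] at h1
  have e2 : 0 ≤ S2 f N * (1 + Real.log (2 * K)) * (A * K / R) := by positivity
  nlinarith [h1, e2]

end Pool.Agent.H76.EHB

end

section

/-!
# EHB SoffInt: the off-diagonal sum as an integral

Let `r = k2 - k1 ≠ 0`, `m = |r|`.  By `gft1` (with `u = (k2 n1 - k1 n2)/r - a0`, so `u r y = (k2 n1 - k1 n2) y - a0 r y`)
`Soff = ∫ A |r| exp(-π (A r y)^2) e(-a0 r y) ∑_{n1,n2: r ∣ n1 - n2} f f e((k2 n1 - k1 n2) y) dy`, and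
`|r| 1_{r ∣ n1 - n2} = ∑_{c < m} e(c (n1 - n2)/m)` (`Pool.Agent.H92.EH.sum_complete`, for the other exponential `e` with
the same values: `EH.e t = ee t`), so that `|r| ∑_{r ∣ n1 - n2} f f e(..) = ∑_{c<m} FF(c/m + k2 y) * conj FF(c/m + k1 y)`
[`FF(c/m + k2 y)` has `n1`: `e(n1 (c/m + k2 y))`, and `conj FF(c/m + k1 y) = ∑_{n2} f(n2) e(-n2 (c/m + k1 y))`].
Exchange of the finite sums and the integral (integrable by `gauss_integrable` and boundedness).
-/

set_option autoImplicit false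

namespace Pool.Agent.H76.EHB

open Finset MeasureTheory
open Pool.Agent.H91.PK (ee)

private theorem soffint_e (t : ℝ) : Pool.Agent.H92.EH.e t = ee t := by
  unfold Pool.Agent.H92.EH.e ee
  congr 1
  push_cast
  ring

private theorem soffint_norm (t : ℝ) : ‖ee t‖ = 1 := by
  unfold ee
  rw [show (2 * Real.pi * t * Complex.I : ℂ) = ((2 * Real.pi * t : ℝ) : ℂ) * Complex.I by
    push_cast; ring, Complex.norm_exp_ofReal_mul_I]

private theorem soffint_add (s t : ℝ) : ee (s + t) = ee s * ee t := by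
  unfold ee
  rw [← Complex.exp_add]
  congr 1
  push_cast
  ring

private theorem soffint_conj (t : ℝ) : (starRingEnd ℂ) (ee t) = ee (-t) := by
  unfold ee
  rw [← Complex.exp_conj]
  congr 1
  simp only [map_mul, Complex.conj_ofReal, Complex.conj_I, map_ofNat]
  push_cast
  ring

private theorem soffint_integrable (A b w : ℝ) (hb : b ≠ 0) :
    Integrable (fun y : ℝ => ((A * Real.exp (-Real.pi * (b * y) ^ 2) : ℝ) : ℂ) * ee (w * y)) := by
  have h1 : Integrable (fun y : ℝ => |A| * Real.exp (-Real.pi * (b * y) ^ 2)) :=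
    (gauss_integrable b hb).const_mul _
  refine h1.mono' ?_ ?_
  · refine Continuous.aestronglyMeasurable ?_
    have := continuous_ee
    fun_prop
  · refine Filter.Eventually.of_forall fun y => ?_
    rw [norm_mul, soffint_norm, mul_one, Complex.norm_real, Real.norm_eq_abs, abs_mul, Real.abs_exp]

private theorem soffint_one (A r u : ℝ) (hA : 0 < A) (hr : r ≠ 0) :
    ∫ y : ℝ, ((A * Real.exp (-Real.pi * (A * r * y) ^ 2) : ℝ) : ℂ) * ee (u * r * y) =
      ((wt A u / |r| : ℝ) : ℂ) := by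
  have h := gft1 A r u hA hr
  have hr' : ((|r| : ℝ) : ℂ) ≠ 0 := by
    exact_mod_cast (abs_pos.2 hr).ne'
  have h2 : ∀ y : ℝ, ((A * |r| * Real.exp (-Real.pi * (A * r * y) ^ 2) : ℝ) : ℂ) * ee (u * r * y) =
      ((|r| : ℝ) : ℂ) * (((A * Real.exp (-Real.pi * (A * r * y) ^ 2) : ℝ) : ℂ) *
        ee (u * r * y)) := by
    intro y
    push_cast
    ring
  simp_rw [h2] at h
  rw [integral_const_mul] at h
  rw [Complex.ofReal_div, h, mul_div_cancel_left₀ _ hr']

theorem Soff_eq (f : ℕ → ℝ) (N : ℕ) (A : ℝ) (hA : 0 < A) (a0 k1 k2 : ℤ) (hk : k1 ≠ k2) :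
    ((Soff f N A a0 k1 k2 : ℝ) : ℂ)
      = ∑ c ∈ range (k2 - k1).natAbs, IpS f N A a0 ((c : ℝ) / (k2 - k1).natAbs) k1 k2 Set.univ := by
  have hr0 : k2 - k1 ≠ 0 := sub_ne_zero.2 (Ne.symm hk)
  set r : ℤ := k2 - k1 with hr
  set m : ℕ := r.natAbs with hm
  have hm0 : 0 < m := Int.natAbs_pos.2 hr0
  have hrR : (r : ℝ) ≠ 0 := by exact_mod_cast hr0
  have hmr : |(r : ℝ)| = (m : ℝ) := by
    rw [hm, Nat.cast_natAbs, Int.cast_abs]
  have hmR : (m : ℝ) ≠ 0 := by exact_mod_cast hm0.ne'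
  have hbR : A * (r : ℝ) ≠ 0 := mul_ne_zero hA.ne' hrR
  have key : ∀ c : ℕ, IpS f N A a0 ((c : ℝ) / m) k1 k2 Set.univ =
      ∑ n1 ∈ Icc 1 N, ∑ n2 ∈ Icc 1 N, ((f n1 : ℂ) * f n2) *
        (ee (((n1 : ℤ) - n2 : ℤ) * ((c : ℝ) / m)) *
          ((wt A (((k2 * n1 - k1 * n2 : ℤ) : ℝ) / (r : ℝ) - a0) / |(r : ℝ)| : ℝ) : ℂ)) := by
    intro c
    unfold IpS
    rw [Measure.restrict_univ]
    have h1 : ∀ y : ℝ, ((A * Real.exp (-Real.pi * (A * ((k2 - k1 : ℤ) : ℝ) * y) ^ 2) : ℝ) : ℂ)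
        * ee (-((a0 : ℝ) * ((k2 - k1 : ℤ) : ℝ) * y))
        * (FF f N ((c : ℝ) / m + k2 * y) * (starRingEnd ℂ) (FF f N ((c : ℝ) / m + k1 * y))) =
        ∑ n1 ∈ Icc 1 N, ∑ n2 ∈ Icc 1 N, ((f n1 : ℂ) * f n2) *
          (ee (((n1 : ℤ) - n2 : ℤ) * ((c : ℝ) / m)) *
          (((A * Real.exp (-Real.pi * (A * (r : ℝ) * y) ^ 2) : ℝ) : ℂ) *
            ee ((((k2 * n1 - k1 * n2 : ℤ) : ℝ) / (r : ℝ) - a0) * (r : ℝ) * y))) := by
      intro y
      unfold FF
      rw [map_sum, Finset.sum_mul_sum, Finset.mul_sum]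
      refine Finset.sum_congr rfl fun n1 _ => ?_
      rw [Finset.mul_sum]
      refine Finset.sum_congr rfl fun n2 _ => ?_
      rw [map_mul, Complex.conj_ofReal, soffint_conj]
      have h2 : ee (-((a0 : ℝ) * ((k2 - k1 : ℤ) : ℝ) * y)) * (ee (n1 * ((c : ℝ) / m + k2 * y)) *
          ee (-(n2 * ((c : ℝ) / m + k1 * y)))) = ee (((n1 : ℤ) - n2 : ℤ) * ((c : ℝ) / m)) *
            ee ((((k2 * n1 - k1 * n2 : ℤ) : ℝ) / (r : ℝ) - a0) * (r : ℝ) * y) := by
        rw [← soffint_add, ← soffint_add, ← soffint_add]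
        congr 1
        rw [sub_mul (((k2 * n1 - k1 * n2 : ℤ) : ℝ) / (r : ℝ)), div_mul_cancel₀ _ hrR, hr]
        push_cast
        ring
      have h3 : ∀ g x1 x2 x3 a b s t : ℂ, x1 * (x2 * x3) = s * t →
          g * x1 * (a * x2 * (b * x3)) = a * b * (s * (g * t)) := by
        intro g x1 x2 x3 a b s t h
        calc g * x1 * (a * x2 * (b * x3)) = g * a * b * (x1 * (x2 * x3)) := by ring
          _ = a * b * (s * (g * t)) := by rw [h]; ring
      exact h3 _ _ _ _ _ _ _ _ h2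
    simp_rw [h1]
    rw [integral_finsetSum]
    · refine Finset.sum_congr rfl fun n1 _ => ?_
      rw [integral_finsetSum]
      · refine Finset.sum_congr rfl fun n2 _ => ?_
        rw [integral_const_mul, integral_const_mul, soffint_one A r _ hA hrR]
      · intro n2 _
        exact ((soffint_integrable A (A * r) _ hbR).const_mul _).const_mul _
    · intro n1 _
      refine integrable_finsetSum _ fun n2 _ => ?_
      exact ((soffint_integrable A (A * r) _ hbR).const_mul _).const_mul _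
  simp_rw [key]
  rw [Finset.sum_comm]
  unfold Soff
  rw [Complex.ofReal_sum]
  refine Finset.sum_congr rfl fun n1 _ => ?_
  rw [Finset.sum_comm, Complex.ofReal_sum]
  refine Finset.sum_congr rfl fun n2 _ => ?_
  rw [← Finset.mul_sum, ← Finset.sum_mul]
  have hsc := Pool.Agent.H92.EH.sum_complete m hm0 ((n1 : ℤ) - n2)
  simp_rw [soffint_e] at hsc
  rw [hsc]
  have hdvd : (m : ℤ) ∣ ((n1 : ℤ) - n2) ↔ r ∣ ((n1 : ℤ) - n2) := by
    rw [hm, Int.natAbs_dvd]
  have hmC : (m : ℂ) ≠ 0 := by exact_mod_cast hm0.ne'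
  by_cases h : r ∣ ((n1 : ℤ) - n2)
  · rw [if_pos (hdvd.2 h), if_pos h, hmr, Complex.ofReal_mul, Complex.ofReal_mul,
      Complex.ofReal_div, Complex.ofReal_natCast, mul_div_cancel₀ _ hmC]
  · rw [if_neg (fun h' => h (hdvd.1 h')), if_neg h, Complex.ofReal_zero, zero_mul, mul_zero]

end Pool.Agent.H76.EHB

end

section

/-!
# EHB Den: ordering by denominators

`sum_den`: every `c < n` has `c/n = c'/d` in lowest terms, `d ∣ n`, `c' ∈ red d`; a bijection
(see the proof of `sum_ram_divisors` in `Pool/Agent/H92/EH/Ramanujan.lean`).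
-/

set_option autoImplicit false

namespace Pool.Agent.H76.EHB

open Finset MeasureTheory
open Pool.Agent.H92.EH (red)

theorem sum_den {M : Type*} [AddCommMonoid M] (n : ℕ) (hn : 0 < n) (Φ : ℝ → M) :
    ∑ c ∈ range n, Φ ((c : ℝ) / n) = ∑ d ∈ n.divisors, ∑ c ∈ red d, Φ ((c : ℝ) / d) := by
  have h1 : ∑ b ∈ range n, Φ ((b : ℝ) / n)
      = ∑ d ∈ n.divisors, ∑ b ∈ (range n).filter (fun b => n / Nat.gcd b n = d),
          Φ ((b : ℝ) / n) := by
    rw [sum_fiberwise_of_maps_to]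
    intro b _
    rw [Nat.mem_divisors]
    exact ⟨Nat.div_dvd_of_dvd (Nat.gcd_dvd_right b n), hn.ne'⟩
  rw [h1]
  refine sum_congr rfl fun d hd => ?_
  rw [Nat.mem_divisors] at hd
  obtain ⟨k, hk⟩ := hd.1
  have hdpos : 0 < d := Nat.pos_of_ne_zero (by rintro rfl; omega)
  have hkpos : 0 < k := Nat.pos_of_ne_zero (by rintro rfl; omega)
  symm
  refine sum_bij (fun b _ => b * k) ?_ ?_ ?_ ?_
  · intro b hb
    rw [Pool.Agent.H92.EH.mem_red] at hb
    rw [mem_filter, mem_range]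
    have hg : Nat.gcd (b * k) n = k := by
      rw [hk, Nat.gcd_mul_right]
      have : Nat.gcd b d = 1 := hb.2
      rw [this, one_mul]
    refine ⟨?_, ?_⟩
    · rw [hk]
      exact Nat.mul_lt_mul_of_pos_right hb.1 hkpos
    · rw [hg, hk]
      exact Nat.mul_div_cancel _ hkpos
  · intro b _ b' _ h
    exact Nat.eq_of_mul_eq_mul_right hkpos h
  · intro c hc
    rw [mem_filter, mem_range] at hc
    obtain ⟨hc1, hc2⟩ := hc
    have hgpos : 0 < Nat.gcd c n := Nat.gcd_pos_of_pos_right _ hn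
    have hgk : Nat.gcd c n = k := by
      have h2 : Nat.gcd c n ∣ n := Nat.gcd_dvd_right c n
      have h3 : n / Nat.gcd c n * Nat.gcd c n = n := Nat.div_mul_cancel h2
      rw [hc2] at h3
      exact Nat.eq_of_mul_eq_mul_left hdpos (h3.trans hk)
    have hkc : k ∣ c := by rw [← hgk]; exact Nat.gcd_dvd_left c n
    obtain ⟨b, hb⟩ := hkc
    refine ⟨b, ?_, by rw [hb]; ring⟩
    rw [Pool.Agent.H92.EH.mem_red]
    constructor
    · have : k * b < k * d := by rw [← hb, mul_comm k d, ← hk]; exact hc1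
      exact lt_of_mul_lt_mul_left this (Nat.zero_le _)
    · have h2 : Nat.gcd (k * b) (k * d) = k := by
        rw [← hb, mul_comm k d, ← hk]
        exact hgk
      rw [Nat.gcd_mul_left] at h2
      have h3 : k * Nat.gcd b d = k * 1 := by rw [h2, mul_one]
      exact Nat.eq_of_mul_eq_mul_left hkpos h3
  · intro b _
    congr 1
    have hd0 : (d : ℝ) ≠ 0 := by exact_mod_cast hdpos.ne'
    have hk0 : (k : ℝ) ≠ 0 := by exact_mod_cast hkpos.ne'
    rw [hk]
    push_cast
    field_simp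

theorem Soff_den (f : ℕ → ℝ) (N : ℕ) (A : ℝ) (hA : 0 < A) (a0 k1 k2 : ℤ) (hk : k1 ≠ k2) :
    ((Soff f N A a0 k1 k2 : ℝ) : ℂ)
      = ∑ d ∈ (k2 - k1).natAbs.divisors, ∑ c ∈ red d, IpS f N A a0 ((c : ℝ) / d) k1 k2 Set.univ := by
  rw [Soff_eq f N A hA a0 k1 k2 hk]
  refine sum_den (k2 - k1).natAbs ?_ (fun α => IpS f N A a0 α k1 k2 Set.univ)
  rw [Int.natAbs_pos]
  exact sub_ne_zero.mpr (Ne.symm hk)

end Pool.Agent.H76.EHB

end

section

/-!
PK MB: the Mertens product.

`mertens_lower`: naturals 65536 ≤ w ≤ z: ∑_{w<p≤z} 1/p ≥ log(log z/log w) - 0.25/log w.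
 (`Gold.Mt_osc` with the roles of n, m exchanged gives Mt z - Mt w ≥ log z - log w - 0.2295 (Mt n = ∑_{d≤n} Λ(d)/d);
  Abel summation against 1/log as in `Gold.mertens_gen`.  The prime powers with exponent at least two are handled by the
  bound ψ(m) - θ(m) ≤ 2 ψ(√m) ≤ 2 log 3 √m and another Abel summation: their total is ≤ 4 log 3/(√w log w).)
`prod_65536`: ∏_{p ≤ 65536} (1 - 1/p) ≤ 0.05065   (kernel computation).
`prod_z`: for natural al ≥ 16: ∏_{p ≤ 2^al} (1 - 1/p) ≤ 0.575/(al log 2).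
-/

set_option autoImplicit false

namespace Pool.Agent.H91.PK

open Finset Gold
open scoped ArithmeticFunction.vonMangoldt

/-! ### The prime powers -/

theorem MB_psi_sub_theta (m : ℕ) :
    Chebyshev.psi m - Chebyshev.theta m ≤ 2 * Real.log 3 * Real.sqrt m := by
  have h0 : Chebyshev.psi m - Chebyshev.theta m
      = ∑ p ∈ Nat.primesLE m.sqrt, ((Nat.log p m : ℝ) * Real.log p - Real.log p) := by
    rw [Chebyshev.psi_eq_sum_mul_log_prime, Chebyshev.theta_eq_sum_primesLE_log, ← sum_sub_distrib]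
    have hsub : Nat.primesLE m.sqrt ⊆ Nat.primesLE m := by
      intro p hp
      rw [Nat.mem_primesLE] at hp ⊢
      exact ⟨hp.1.trans (Nat.sqrt_le_self m), hp.2⟩
    symm
    apply sum_subset hsub
    intro p hp hnp
    rw [Nat.mem_primesLE] at hp hnp
    have hlt : m.sqrt < p := by
      by_contra h
      push Not at h
      exact hnp ⟨h, hp.2⟩
    have h1 : m < p * p := Nat.sqrt_lt.1 hlt
    have h2 : Nat.log p m = 1 := by
      rw [Nat.log_eq_iff]
      · refine ⟨by simp; exact hp.1, by rw [sq]; exact h1⟩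
      · left; norm_num
    rw [h2]; simp
  rw [h0]
  have h1 : ∀ p ∈ Nat.primesLE m.sqrt, ((Nat.log p m : ℝ) * Real.log p - Real.log p)
      ≤ 2 * ((Nat.log p m.sqrt : ℝ) * Real.log p) := by
    intro p hp
    rw [Nat.mem_primesLE] at hp
    have hp1 := hp.2.one_lt
    have h2 : m < p ^ (2 * Nat.log p m.sqrt + 2) := by
      have h3 := Nat.lt_pow_succ_log_self hp1 m.sqrt
      have h4 := Nat.sqrt_lt.1 h3
      calc m < _ := h4
        _ = p ^ (2 * Nat.log p m.sqrt + 2) := by rw [← pow_add]; congr 1; omega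
    have h5 : Nat.log p m ≤ 2 * Nat.log p m.sqrt + 1 := by
      have := Nat.log_lt_of_lt_pow' (by omega) h2
      omega
    have h6 : (Nat.log p m : ℝ) ≤ 2 * (Nat.log p m.sqrt : ℝ) + 1 := by exact_mod_cast h5
    have h7 : 0 ≤ Real.log p := Real.log_natCast_nonneg p
    nlinarith only [h6, h7]
  refine (sum_le_sum h1).trans ?_
  rw [← mul_sum]
  have h2 := Chebyshev.psi_eq_sum_mul_log_prime (m.sqrt)
  have h3 := psi_le_log_three m.sqrt
  have h4 : (m.sqrt : ℝ) ≤ Real.sqrt m := Real.nat_sqrt_le_real_sqrt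
  have h5 : 0 ≤ Real.log 3 := Real.log_nonneg (by norm_num)
  rw [h2] at h3
  nlinarith only [h3, h4, h5]

theorem MB_nonprime (w m : ℕ) :
    ∑ k ∈ Ioc w m, (if k.Prime then 0 else Λ k) ≤ 2 * Real.log 3 * Real.sqrt m := by
  have h1 : ∑ k ∈ Ioc w m, (if k.Prime then 0 else Λ k) ≤ ∑ k ∈ Ioc 0 m, (if k.Prime then 0 else Λ k) := by
    apply sum_le_sum_of_subset_of_nonneg
    · intro k hk
      rw [mem_Ioc] at hk ⊢
      exact ⟨by omega, hk.2⟩
    · intro k _ _
      split_ifs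
      · exact le_rfl
      · exact ArithmeticFunction.vonMangoldt_nonneg
  refine h1.trans (le_trans (le_of_eq ?_) (MB_psi_sub_theta m))
  rw [Chebyshev.psi, Chebyshev.theta, sum_filter]
  simp only [Nat.floor_natCast]
  rw [← sum_sub_distrib]
  apply sum_congr rfl
  intro k _
  split_ifs with h
  · rw [ArithmeticFunction.vonMangoldt_apply_prime h]; ring
  · ring

theorem MB_log_pos {w : ℕ} (hw : 2 ≤ w) {k : ℕ} (hk : w ≤ k) : 0 < Real.log k := by
  apply Real.log_pos
  exact_mod_cast (by omega : 1 < k)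

theorem MB_powers {w z : ℕ} (hw : 2 ≤ w) (hwz : w ≤ z) :
    ∑ k ∈ Ioc w z, (if k.Prime then 0 else Λ k) * (1 / (k * Real.log k))
      ≤ 4 * Real.log 3 / (Real.sqrt w * Real.log w) := by
  have hw0 : (0 : ℝ) < w := by exact_mod_cast (by omega : 0 < w)
  have hsw : 0 < Real.sqrt w := Real.sqrt_pos.2 hw0
  have hlw := MB_log_pos hw le_rfl
  have l3 : 0 ≤ Real.log 3 := Real.log_nonneg (by norm_num)
  set C : ℝ := 2 * Real.log 3 with hC
  have hC0 : 0 ≤ C := by positivity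
  have h1 : ∑ k ∈ Ioc w z, (if k.Prime then 0 else Λ k) * (1 / (k * Real.log k))
      ≤ ∑ k ∈ Ioc w z, (C * (Real.sqrt k - Real.sqrt (k - 1 : ℕ))) * (1 / (k * Real.log k))
        + (C * Real.sqrt w) * (1 / (((w + 1 : ℕ) : ℝ) * Real.log ((w + 1 : ℕ) : ℝ))) := by
    apply abel_le (f := fun k : ℕ => 1 / ((k : ℝ) * Real.log k)) hwz (by positivity)
    · intro k hk1 _
      have := MB_log_pos hw hk1.le
      positivity
    · have := MB_log_pos hw (Nat.le_succ w)
      positivity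
    · intro k hk1 _
      have h2 := MB_log_pos hw hk1.le
      have h3 : (0 : ℝ) < k := by exact_mod_cast (by omega : 0 < k)
      apply one_div_le_one_div_of_le (by positivity)
      apply mul_le_mul
      · push_cast; linarith only
      · apply Real.log_le_log h3
        push_cast; linarith only
      · exact h2.le
      · positivity
    · intro m hm1 _
      have e1 : ∑ k ∈ Ioc w m, (C * (Real.sqrt k - Real.sqrt (k - 1 : ℕ)))
          = C * (Real.sqrt m - Real.sqrt w) := by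
        rw [← mul_sum]
        congr 1
        induction m, hm1 using Nat.le_induction with
        | base => simp
        | succ m hm ih =>
          rw [sum_Ioc_succ_top (by omega), ih (by omega)]
          simp
      rw [e1]
      have := MB_nonprime w m
      linarith only [this]
  have h2 : ∀ m, w ≤ m → ∑ k ∈ Ioc w m, (C * (Real.sqrt k - Real.sqrt (k - 1 : ℕ))) * (1 / (k * Real.log k))
      ≤ C / Real.log w * (1 / Real.sqrt w - 1 / Real.sqrt m) := by
    intro m hm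
    induction m, hm using Nat.le_induction with
    | base => simp
    | succ m hm ih =>
      rw [sum_Ioc_succ_top (by omega)]
      have hm0 : (0 : ℝ) < m := by exact_mod_cast (by omega : 0 < m)
      have hs0 : 0 < Real.sqrt m := Real.sqrt_pos.2 hm0
      have hs1 : Real.sqrt m ≤ Real.sqrt ((m + 1 : ℕ) : ℝ) := by
        apply Real.sqrt_le_sqrt; push_cast; linarith only
      have hs2 : 0 < Real.sqrt ((m + 1 : ℕ) : ℝ) := by linarith only [hs0, hs1]
      have hl := MB_log_pos hw (show w ≤ m + 1 by omega)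
      have hl2 : Real.log w ≤ Real.log ((m + 1 : ℕ) : ℝ) := by
        apply Real.log_le_log hw0
        exact_mod_cast (by omega : w ≤ m + 1)
      have hss : ((m + 1 : ℕ) : ℝ) = Real.sqrt ((m + 1 : ℕ) : ℝ) * Real.sqrt ((m + 1 : ℕ) : ℝ) :=
        (Real.mul_self_sqrt (by positivity)).symm
      have key : (C * (Real.sqrt ((m + 1 : ℕ) : ℝ) - Real.sqrt (m + 1 - 1 : ℕ)))
            * (1 / (((m + 1 : ℕ) : ℝ) * Real.log ((m + 1 : ℕ) : ℝ)))
          ≤ C / Real.log w * (1 / Real.sqrt m - 1 / Real.sqrt ((m + 1 : ℕ) : ℝ)) := by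
        rw [Nat.add_sub_cancel]
        have a1 : 1 / (((m + 1 : ℕ) : ℝ) * Real.log ((m + 1 : ℕ) : ℝ))
            ≤ 1 / (Real.sqrt m * Real.sqrt ((m + 1 : ℕ) : ℝ) * Real.log w) := by
          apply one_div_le_one_div_of_le (by positivity)
          apply mul_le_mul _ hl2 hlw.le (by positivity)
          exact (mul_le_mul_of_nonneg_right hs1 hs2.le).trans hss.ge
        have a2 : 0 ≤ C * (Real.sqrt ((m + 1 : ℕ) : ℝ) - Real.sqrt m) :=
          mul_nonneg hC0 (by linarith only [hs1])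
        refine (mul_le_mul_of_nonneg_left a1 a2).trans (le_of_eq ?_)
        field_simp
      have e : C / Real.log w * (1 / Real.sqrt w - 1 / Real.sqrt ((m + 1 : ℕ) : ℝ))
          = C / Real.log w * (1 / Real.sqrt w - 1 / Real.sqrt m)
            + C / Real.log w * (1 / Real.sqrt m - 1 / Real.sqrt ((m + 1 : ℕ) : ℝ)) := by ring
      rw [e]
      linarith only [ih, key]
  have h3 := h2 z hwz
  have h4 : C / Real.log w * (1 / Real.sqrt w - 1 / Real.sqrt z) ≤ C / (Real.sqrt w * Real.log w) := by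
    have hz0 : (0 : ℝ) < z := by exact_mod_cast (by omega : 0 < z)
    have : 0 ≤ 1 / Real.sqrt z := by positivity
    calc C / Real.log w * (1 / Real.sqrt w - 1 / Real.sqrt z) ≤ C / Real.log w * (1 / Real.sqrt w) :=
          mul_le_mul_of_nonneg_left (by linarith only [this]) (by positivity)
      _ = C / (Real.sqrt w * Real.log w) := by field_simp
  have h5 : (C * Real.sqrt w) * (1 / (((w + 1 : ℕ) : ℝ) * Real.log ((w + 1 : ℕ) : ℝ)))
      ≤ C / (Real.sqrt w * Real.log w) := by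
    have a1 : 1 / (((w + 1 : ℕ) : ℝ) * Real.log ((w + 1 : ℕ) : ℝ)) ≤ 1 / (w * Real.log w) := by
      apply one_div_le_one_div_of_le (by positivity)
      apply mul_le_mul
      · push_cast; linarith only
      · apply Real.log_le_log hw0
        push_cast; linarith only
      · exact hlw.le
      · positivity
    refine (mul_le_mul_of_nonneg_left a1 (by positivity)).trans (le_of_eq ?_)
    have hss : (w : ℝ) = Real.sqrt w * Real.sqrt w := (Real.mul_self_sqrt (by positivity)).symm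
    rw [mul_one_div, div_eq_div_iff (by positivity) (by positivity)]
    calc C * Real.sqrt w * (Real.sqrt w * Real.log w) = C * (Real.sqrt w * Real.sqrt w * Real.log w) := by ring
      _ = C * (w * Real.log w) := by rw [← hss]
  have e : 4 * Real.log 3 / (Real.sqrt w * Real.log w) = C / (Real.sqrt w * Real.log w) + C / (Real.sqrt w * Real.log w) := by
    rw [hC]; ring
  rw [e]
  linarith only [h1, h3, h4, h5]

/-! ### The lower bound -/

theorem MB_loglog {w z : ℕ} (hw : 2 ≤ w) (hwz : w ≤ z) :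
    Real.log (Real.log z) - Real.log (Real.log w) - 1 / (w * Real.log w)
      ≤ ∑ k ∈ Ioc w z, (Real.log k - Real.log (k - 1 : ℕ)) * (1 / Real.log k) := by
  have hw0 : (0 : ℝ) < w := by exact_mod_cast (by omega : 0 < w)
  have h1 : ∀ m, w ≤ m → Real.log (Real.log m) - Real.log (Real.log w)
        - 1 / w * (1 / Real.log w - 1 / Real.log m)
      ≤ ∑ k ∈ Ioc w m, (Real.log k - Real.log (k - 1 : ℕ)) * (1 / Real.log k) := by
    intro m hm
    induction m, hm using Nat.le_induction with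
    | base => simp
    | succ m hm ih =>
      rw [sum_Ioc_succ_top (by omega), Nat.add_sub_cancel]
      have hm0 : (0 : ℝ) < m := by exact_mod_cast (by omega : 0 < m)
      have a1 := MB_log_pos hw hm
      have a2 := MB_log_pos hw (show w ≤ m + 1 by omega)
      have a3 : Real.log m ≤ Real.log ((m + 1 : ℕ) : ℝ) := by
        apply Real.log_le_log hm0; push_cast; linarith only
      have b1 := Real.log_le_sub_one_of_pos (x := Real.log ((m + 1 : ℕ) : ℝ) / Real.log m) (by positivity)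
      rw [Real.log_div a2.ne' a1.ne'] at b1
      have b2 : Real.log ((m + 1 : ℕ) : ℝ) / Real.log m - 1
          = (Real.log ((m + 1 : ℕ) : ℝ) - Real.log m) * (1 / Real.log ((m + 1 : ℕ) : ℝ))
            + (Real.log ((m + 1 : ℕ) : ℝ) - Real.log m) * (1 / Real.log m - 1 / Real.log ((m + 1 : ℕ) : ℝ)) := by
        field_simp
        ring
      have b3 : Real.log ((m + 1 : ℕ) : ℝ) - Real.log m ≤ 1 / w := by
        have h := Real.log_le_sub_one_of_pos (x := ((m + 1 : ℕ) : ℝ) / m) (by positivity)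
        rw [Real.log_div (by positivity) hm0.ne'] at h
        have e : ((m + 1 : ℕ) : ℝ) / m - 1 = 1 / m := by push_cast; field_simp; ring
        have h2 : 1 / (m : ℝ) ≤ 1 / w := one_div_le_one_div_of_le hw0 (by exact_mod_cast hm)
        linarith only [h, e, h2]
      have b4 : 0 ≤ 1 / Real.log m - 1 / Real.log ((m + 1 : ℕ) : ℝ) := by
        have := one_div_le_one_div_of_le a1 a3
        linarith only [this]
      have b5 := mul_le_mul_of_nonneg_right b3 b4
      have e2 : 1 / (w : ℝ) * (1 / Real.log w - 1 / Real.log ((m + 1 : ℕ) : ℝ))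
          = 1 / (w : ℝ) * (1 / Real.log w - 1 / Real.log m)
            + 1 / (w : ℝ) * (1 / Real.log m - 1 / Real.log ((m + 1 : ℕ) : ℝ)) := by ring
      rw [e2]
      linarith only [ih, b1, b2, b5]
  have h2 := h1 z hwz
  have h3 := MB_log_pos hw hwz
  have h4 := MB_log_pos hw le_rfl
  have h5 : 1 / (w : ℝ) * (1 / Real.log w - 1 / Real.log z) ≤ 1 / (w * Real.log w) := by
    have : 0 ≤ 1 / Real.log z := by positivity
    calc 1 / (w : ℝ) * (1 / Real.log w - 1 / Real.log z) ≤ 1 / (w : ℝ) * (1 / Real.log w) :=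
          mul_le_mul_of_nonneg_left (by linarith only [this]) (by positivity)
      _ = 1 / (w * Real.log w) := by field_simp
  linarith only [h2, h5]

theorem mertens_lower {w z : ℕ} (hw : 65536 ≤ w) (hwz : w ≤ z) :
    Real.log (Real.log z / Real.log w) - 0.25 / Real.log w ≤ ∑ p ∈ Pr w z, (1 : ℝ) / p := by
  have hw2 : 2 ≤ w := by omega
  have hw0 : (65536 : ℝ) ≤ w := by exact_mod_cast hw
  have hwp : (0 : ℝ) < w := by linarith only [hw0]
  have hlw := MB_log_pos hw2 le_rfl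
  have hlz := MB_log_pos hw2 hwz
  -- Abel summation
  have h1 : ∑ k ∈ Ioc w z, (Real.log k - Real.log (k - 1 : ℕ)) * (1 / Real.log k)
      ≤ ∑ k ∈ Ioc w z, (Λ k / k) * (1 / Real.log k) + 0.2295 * (1 / Real.log ((w + 1 : ℕ) : ℝ)) := by
    apply abel_le (f := fun k : ℕ => 1 / Real.log k) hwz (by norm_num)
    · intro k hk1 _
      have := MB_log_pos hw2 hk1.le
      positivity
    · have := MB_log_pos hw2 (Nat.le_succ w)
      positivity
    · intro k hk1 _
      have h2 := MB_log_pos hw2 hk1.le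
      apply one_div_le_one_div_of_le h2
      apply Real.log_le_log
      · exact_mod_cast (by omega : 0 < k)
      · push_cast; linarith only
    · intro m hm1 _
      have e1 : ∑ k ∈ Ioc w m, (Real.log k - Real.log (k - 1 : ℕ)) = Real.log m - Real.log w := by
        induction m, hm1 using Nat.le_induction with
        | base => simp
        | succ m hm ih =>
          rw [sum_Ioc_succ_top (by omega), ih (by omega)]
          simp
      have e3 : Mt m - Mt w = ∑ k ∈ Ioc w m, Λ k / k := by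
        unfold Mt
        rw [← sum_Ioc_consecutive _ (Nat.zero_le w) hm1]
        ring
      have h2 := Mt_osc (n := m) (m := w) (by omega) hw
      rw [e1, ← e3]
      linarith only [h2]
  -- splitting off the primes
  have h2 : ∑ k ∈ Ioc w z, (Λ k / k) * (1 / Real.log k)
      = ∑ p ∈ Pr w z, (1 : ℝ) / p + ∑ k ∈ Ioc w z, (if k.Prime then 0 else Λ k) * (1 / (k * Real.log k)) := by
    unfold Pr
    rw [sum_filter, ← sum_add_distrib]
    apply sum_congr rfl
    intro k hk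
    rw [mem_Ioc] at hk
    have hk0 : (0 : ℝ) < k := by exact_mod_cast (by omega : 0 < k)
    have hl := MB_log_pos hw2 hk.1.le
    split_ifs with hp
    · rw [ArithmeticFunction.vonMangoldt_apply_prime hp]
      field_simp
      ring
    · field_simp
      ring
  have h3 := MB_powers hw2 hwz
  have h4 := MB_loglog hw2 hwz
  have h5 : 0.2295 * (1 / Real.log ((w + 1 : ℕ) : ℝ)) ≤ 0.2295 / Real.log w := by
    rw [mul_one_div]
    apply div_le_div_of_nonneg_left (by norm_num) hlw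
    apply Real.log_le_log hwp
    push_cast; linarith only
  have l3 : Real.log 3 ≤ 1.098617 := by
    have := log_three_bounds.2
    have l2 := Real.log_two_lt_d9
    linarith only [this, l2]
  have hs : (256 : ℝ) ≤ Real.sqrt w := by
    rw [show (256 : ℝ) = Real.sqrt 65536 by
      rw [show (65536 : ℝ) = 256 ^ 2 by norm_num, Real.sqrt_sq (by norm_num)]]
    exact Real.sqrt_le_sqrt hw0
  have h6 : 4 * Real.log 3 / (Real.sqrt w * Real.log w) ≤ 0.0172 / Real.log w := by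
    rw [div_le_div_iff₀ (by positivity) hlw]
    have : 4 * Real.log 3 ≤ 0.0172 * Real.sqrt w := by linarith only [l3, hs]
    nlinarith only [hlw, l3, hs]
  have h7 : 1 / (w * Real.log w) ≤ 0.0001 / Real.log w := by
    rw [div_le_div_iff₀ (by positivity) hlw]
    have : 1 ≤ 0.0001 * (w : ℝ) := by linarith only [hw0]
    nlinarith only [hlw, hw0]
  have h8 : 0.25 / Real.log w = 0.2295 / Real.log w + 0.0172 / Real.log w + 0.0001 / Real.log w
      + 0.0032 / Real.log w := by ring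
  have h9 : 0 ≤ 0.0032 / Real.log w := by positivity
  rw [Real.log_div hlz.ne' hlw.ne']
  rw [h2] at h1
  linarith only [h1, h3, h4, h5, h6, h7, h8, h9]

/-! ### The product up to 65536 -/

end Pool.Agent.H91.PK

end
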