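import Pool.Agent.H94.EH.H91.EHA.Defs
import Pool.Agent.H94.EH.M18
import Pool.Agent.H94.EH.M19

/-! The parts of this file: H35.W.Ramare, H87.WL.Defs, H35.U.Defs, H35.W.SqIdS, H35.U.Bonf, H87.WL.MuL, H91.EHA.SwK2, H87.WL.Sel1, H87.WL.Sel2, H87.WL.Sel3, H87.WL.Gl. -/

section

/-!
# W Ramare: the identity of Ramare

Let `𝒫 = ⋃_{i<J} pb (P 2^i)` (disjoint blocks, primes in `(P, P 2^J]`), `ω(k) = #{p ∈ 𝒫 : p ∣ k}`.
For `k` with `ω(k) ≥ 1`: `1 = ∑_{p ∈ 𝒫, p ∣ k} 1/ω(k)`.  With `k = p k'`: `ω(p k') = ω(k') + 1` if `p ∤ k'`,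
`ω(p k') = ω(k')` if `p ∣ k'`.  So
`∑_{k ≤ K, ω(k) ≥ 1} F(k) = ∑_{p ∈ 𝒫} ∑_{k' ≤ K} F(p k') / (ω(k')+1) + ∑_{p ∈ 𝒫} ∑_{k' ≤ K, p ∣ k'} F(p k') (1/ω(k') - 1/(ω(k')+1))`
(`F(p k') = 0` if `p k' > K`).  First part: `≤ ∑_{i<J} ∑_{k' ≤ K} |∑_{p ∈ pb (P 2^i)} F(p k')|` as `1/(ω(k')+1) ≤ 1`.
Second part: coefficient in `[0, 1]`, and every `k ≤ K` is hit `#{p ∈ 𝒫 : p^2 ∣ k} ≤ Nat.log 2 K` times, only if
`p^2 ∣ k` for some prime `p > P`.
-/

set_option autoImplicit false

namespace Pool.Agent.H35.W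

open Finset

/-- the primes of all blocks -/
private def rmS (P J : ℕ) : Finset ℕ := (range J).biUnion fun i => pb (P * 2 ^ i)

private theorem rm_mem {P J p : ℕ} : p ∈ rmS P J ↔ ∃ i, i < J ∧ p ∈ pb (P * 2 ^ i) := by
  unfold rmS
  simp [Finset.mem_biUnion]

private theorem rm_prime {P J p : ℕ} (h : p ∈ rmS P J) : p.Prime := by
  obtain ⟨i, _, hi⟩ := rm_mem.1 h
  exact (Finset.mem_filter.1 hi).2

private theorem rm_gt {P J p : ℕ} (h : p ∈ rmS P J) : P < p := by
  obtain ⟨i, _, hi⟩ := rm_mem.1 h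
  have := (Finset.mem_Ioc.1 (Finset.mem_filter.1 hi).1).1
  have h1 : P * 1 ≤ P * 2 ^ i := Nat.mul_le_mul_left _ Nat.one_le_two_pow
  omega

private theorem rm_disj (P J : ℕ) :
    Set.PairwiseDisjoint (↑(range J) : Set ℕ) (fun i => pb (P * 2 ^ i)) := by
  have key : ∀ i j : ℕ, i < j → Disjoint (pb (P * 2 ^ i)) (pb (P * 2 ^ j)) := by
    intro i j hij
    rw [Finset.disjoint_left]
    intro p h1 h2
    have a1 := (Finset.mem_Ioc.1 (Finset.mem_filter.1 h1).1).2
    have a2 := (Finset.mem_Ioc.1 (Finset.mem_filter.1 h2).1).1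
    have h3 : P * 2 ^ (i + 1) ≤ P * 2 ^ j :=
      Nat.mul_le_mul_left _ (Nat.pow_le_pow_right (by norm_num) hij)
    have h4 : 2 * (P * 2 ^ i) = P * 2 ^ (i + 1) := by ring
    omega
  intro i _ j _ hij
  rcases lt_or_gt_of_ne hij with h | h
  · exact key i j h
  · exact (key j i h).symm

private def rmO (P J k : ℕ) : ℕ := ((rmS P J).filter (fun p => p ∣ k)).card

private theorem rm_Rk {P J k : ℕ} : Rk P J k ↔ rmO P J k = 0 := by
  unfold rmO Rk
  rw [Finset.card_eq_zero, Finset.filter_eq_empty_iff]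
  constructor
  · intro h p hp
    obtain ⟨i, hi, hpi⟩ := rm_mem.1 hp
    exact h i hi p hpi
  · intro h i hi p hp
    exact h (rm_mem.2 ⟨i, hi, hp⟩)

/-- multiplication by `p` -/
private theorem rm_mul {p K : ℕ} (hp : 0 < p) (G : ℕ → ℝ) (hG : ∀ k, K < k → G k = 0) :
    ∑ k ∈ Icc 1 K, (if p ∣ k then G k else 0) = ∑ k ∈ Icc 1 K, G (p * k) := by
  rw [← Finset.sum_filter]
  have h1 : ∑ k ∈ Icc 1 K, G (p * k) = ∑ k ∈ (Icc 1 K).filter (fun k => p * k ≤ K), G (p * k) := by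
    rw [Finset.sum_filter]
    refine Finset.sum_congr rfl fun k _ => ?_
    split_ifs with h
    · rfl
    · exact hG _ (by omega)
  rw [h1]
  symm
  refine Finset.sum_bij (fun k _ => p * k) ?_ ?_ ?_ ?_
  · intro k hk
    have hk' := Finset.mem_filter.1 hk
    have := Finset.mem_Icc.1 hk'.1
    refine Finset.mem_filter.2 ⟨Finset.mem_Icc.2 ⟨?_, hk'.2⟩, dvd_mul_right _ _⟩
    exact Nat.mul_pos hp this.1
  · intro a _ b _ hab
    exact Nat.eq_of_mul_eq_mul_left hp hab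
  · intro k hk
    have hk' := Finset.mem_filter.1 hk
    have hk2 := Finset.mem_Icc.1 hk'.1
    obtain ⟨j, rfl⟩ := hk'.2
    refine ⟨j, Finset.mem_filter.2 ⟨Finset.mem_Icc.2 ⟨?_, ?_⟩, hk2.2⟩, rfl⟩
    · rcases Nat.eq_zero_or_pos j with h | h
      · subst h; simp at hk2
      · exact h
    · exact (Nat.le_mul_of_pos_left j hp).trans hk2.2
  · intro k _
    rfl

private theorem rm_om_not {P J p k : ℕ} (hp : p ∈ rmS P J) (h : ¬ p ∣ k) :
    rmO P J (p * k) = rmO P J k + 1 := by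
  unfold rmO
  have e : (rmS P J).filter (fun q => q ∣ p * k) = insert p ((rmS P J).filter (fun q => q ∣ k)) := by
    ext q
    simp only [Finset.mem_filter, Finset.mem_insert]
    constructor
    · rintro ⟨h1, h2⟩
      rcases ((rm_prime h1).dvd_mul).1 h2 with h3 | h3
      · left
        exact (Nat.prime_dvd_prime_iff_eq (rm_prime h1) (rm_prime hp)).1 h3
      · right
        exact ⟨h1, h3⟩
    · rintro (h1 | h1)
      · subst h1
        exact ⟨hp, dvd_mul_right _ _⟩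
      · exact ⟨h1.1, h1.2.mul_left _⟩
  rw [e, Finset.card_insert_of_notMem]
  intro h1
  exact h (Finset.mem_filter.1 h1).2

private theorem rm_om_dvd {P J p k : ℕ} (hp : p ∈ rmS P J) (h : p ∣ k) :
    rmO P J (p * k) = rmO P J k := by
  unfold rmO
  congr 1
  ext q
  simp only [Finset.mem_filter]
  constructor
  · rintro ⟨h1, h2⟩
    refine ⟨h1, ?_⟩
    rcases ((rm_prime h1).dvd_mul).1 h2 with h3 | h3
    · have := (Nat.prime_dvd_prime_iff_eq (rm_prime h1) (rm_prime hp)).1 h3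
      rw [this]; exact h
    · exact h3
  · rintro ⟨h1, h2⟩
    exact ⟨h1, h2.mul_left _⟩

private theorem rm_card {P J k K : ℕ} (hk : k ∈ Icc 1 K) :
    ((rmS P J).filter (fun p => p ^ 2 ∣ k)).card ≤ Nat.log 2 K := by
  have hk' := Finset.mem_Icc.1 hk
  have h1 : (rmS P J).filter (fun p => p ^ 2 ∣ k) ⊆ k.primeFactors := by
    intro p hp
    have hp' := Finset.mem_filter.1 hp
    rw [Nat.mem_primeFactors]
    exact ⟨rm_prime hp'.1, (dvd_pow_self p two_ne_zero).trans hp'.2, by omega⟩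
  refine (Finset.card_le_card h1).trans ?_
  refine Nat.le_log_of_pow_le (by norm_num) ?_
  calc 2 ^ k.primeFactors.card ≤ ∏ p ∈ k.primeFactors, p := by
        rw [← Finset.prod_const]
        exact Finset.prod_le_prod' fun p hp => (Nat.prime_of_mem_primeFactors hp).two_le
    _ ≤ k := Nat.le_of_dvd (by omega) (Nat.prod_primeFactors_dvd k)
    _ ≤ K := hk'.2

theorem ramare (P J K : ℕ) (hP : 1 ≤ P) (F : ℕ → ℝ) (hF : ∀ k, K < k → F k = 0) :
    |∑ k ∈ fcs P J K, F k|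
      ≤ ∑ i ∈ range J, ∑ k ∈ Icc 1 K, |∑ p ∈ pb (P * 2 ^ i), F (p * k)|
        + Nat.log 2 K * ∑ k ∈ sqs P K, |F k| := by
  classical
  -- the identity
  have h1 : ∑ k ∈ fcs P J K, F k
      = ∑ k ∈ Icc 1 K, ∑ p ∈ rmS P J, (if p ∣ k then F k / rmO P J k else 0) := by
    unfold fcs
    rw [Finset.sum_filter]
    refine Finset.sum_congr rfl fun k _ => ?_
    rw [← Finset.sum_filter, Finset.sum_const, nsmul_eq_mul]
    change _ = ((rmO P J k : ℕ) : ℝ) * _
    by_cases h : Rk P J k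
    · rw [if_neg (not_not.2 h), rm_Rk.1 h]
      simp
    · rw [if_pos h]
      have : (rmO P J k : ℝ) ≠ 0 := by
        intro h0
        exact h (rm_Rk.2 (by exact_mod_cast h0))
      field_simp
  have h2 : ∑ k ∈ fcs P J K, F k
      = ∑ p ∈ rmS P J, ∑ k ∈ Icc 1 K, F (p * k) / rmO P J (p * k) := by
    rw [h1, Finset.sum_comm]
    refine Finset.sum_congr rfl fun p hp => ?_
    exact rm_mul (rm_prime hp).pos (fun k => F k / rmO P J k)
      (fun k hk => by rw [hF k hk, zero_div])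
  have h3 : ∀ p ∈ rmS P J, ∀ k ∈ Icc 1 K, |F (p * k) / rmO P J (p * k) - F (p * k) / (rmO P J k + 1)|
      ≤ if p ∣ k then |F (p * k)| else 0 := by
    intro p hp k hk
    split_ifs with h
    · rw [rm_om_dvd hp h]
      have hpos : (1 : ℝ) ≤ rmO P J k := by
        have : 0 < rmO P J k := Finset.card_pos.2 ⟨p, Finset.mem_filter.2 ⟨hp, h⟩⟩
        exact_mod_cast this
      have e : F (p * k) / (rmO P J k : ℝ) - F (p * k) / ((rmO P J k : ℝ) + 1)
          = F (p * k) * (1 / ((rmO P J k : ℝ) * ((rmO P J k : ℝ) + 1))) := by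
        have h0 : (rmO P J k : ℝ) ≠ 0 := by linarith
        have h0' : (rmO P J k : ℝ) + 1 ≠ 0 := by linarith
        field_simp
        ring
      rw [e, abs_mul]
      refine mul_le_of_le_one_right (abs_nonneg _) ?_
      rw [abs_of_nonneg (by positivity), div_le_one (by positivity)]
      nlinarith
    · rw [rm_om_not hp h]
      push_cast
      rw [sub_self, abs_zero]
  -- first part
  have hA : |∑ p ∈ rmS P J, ∑ k ∈ Icc 1 K, F (p * k) / ((rmO P J k : ℝ) + 1)|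
      ≤ ∑ i ∈ range J, ∑ k ∈ Icc 1 K, |∑ p ∈ pb (P * 2 ^ i), F (p * k)| := by
    unfold rmS
    rw [Finset.sum_biUnion (rm_disj P J)]
    refine (Finset.abs_sum_le_sum_abs _ _).trans (Finset.sum_le_sum fun i _ => ?_)
    rw [Finset.sum_comm]
    refine (Finset.abs_sum_le_sum_abs _ _).trans (Finset.sum_le_sum fun k _ => ?_)
    rw [← Finset.sum_div, abs_div]
    refine div_le_self (abs_nonneg _) ?_
    rw [abs_of_nonneg (by positivity)]
    have : (0 : ℝ) ≤ rmO P J k := Nat.cast_nonneg _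
    linarith
  -- second part
  have hB : ∑ p ∈ rmS P J, ∑ k ∈ Icc 1 K, (if p ∣ k then |F (p * k)| else 0)
      ≤ Nat.log 2 K * ∑ k ∈ sqs P K, |F k| := by
    have e1 : ∀ p ∈ rmS P J, ∑ k ∈ Icc 1 K, (if p ∣ k then |F (p * k)| else 0)
        = ∑ k ∈ Icc 1 K, (if p ^ 2 ∣ k then |F k| else 0) := by
      intro p hp
      have hpos := (rm_prime hp).pos
      have e2 := rm_mul (K := K) hpos (fun k => if p ^ 2 ∣ k then |F k| else 0)
        (fun k hk => by
          rw [hF k hk]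
          simp)
      have e3 : ∑ k ∈ Icc 1 K, (if p ∣ k then |F (p * k)| else 0)
          = ∑ k ∈ Icc 1 K, (if p ^ 2 ∣ p * k then |F (p * k)| else 0) := by
        refine Finset.sum_congr rfl fun k _ => ?_
        have : p ^ 2 ∣ p * k ↔ p ∣ k := by
          rw [sq]
          exact Nat.mul_dvd_mul_iff_left hpos
        by_cases h : p ∣ k
        · rw [if_pos h, if_pos (this.2 h)]
        · rw [if_neg h, if_neg (fun h' => h (this.1 h'))]
      rw [e3, ← e2]
      refine Finset.sum_congr rfl fun k _ => ?_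
      by_cases h : p ^ 2 ∣ k
      · rw [if_pos h, if_pos ((dvd_pow_self p two_ne_zero).trans h)]
      · simp [h]
    rw [Finset.sum_congr rfl e1, Finset.sum_comm]
    unfold sqs
    rw [Finset.sum_filter, Finset.mul_sum]
    refine Finset.sum_le_sum fun k hk => ?_
    rw [← Finset.sum_filter, Finset.sum_const, nsmul_eq_mul]
    by_cases h : ∃ p, P < p ∧ p.Prime ∧ p ^ 2 ∣ k
    · rw [if_pos h]
      refine mul_le_mul_of_nonneg_right ?_ (abs_nonneg _)
      exact_mod_cast rm_card (P := P) (J := J) hk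
    · rw [if_neg h]
      have : (rmS P J).filter (fun p => p ^ 2 ∣ k) = ∅ := by
        rw [Finset.filter_eq_empty_iff]
        intro p hp hd
        exact h ⟨p, rm_gt hp, rm_prime hp, hd⟩
      rw [this]
      simp
  have hD : |∑ k ∈ fcs P J K, F k
      - ∑ p ∈ rmS P J, ∑ k ∈ Icc 1 K, F (p * k) / ((rmO P J k : ℝ) + 1)|
      ≤ ∑ p ∈ rmS P J, ∑ k ∈ Icc 1 K, (if p ∣ k then |F (p * k)| else 0) := by
    rw [h2, ← Finset.sum_sub_distrib]
    refine (Finset.abs_sum_le_sum_abs _ _).trans (Finset.sum_le_sum fun p hp => ?_)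
    rw [← Finset.sum_sub_distrib]
    exact (Finset.abs_sum_le_sum_abs _ _).trans (Finset.sum_le_sum fun k hk => h3 p hp k hk)
  have hT : |∑ k ∈ fcs P J K, F k| ≤
      |∑ k ∈ fcs P J K, F k - ∑ p ∈ rmS P J, ∑ k ∈ Icc 1 K, F (p * k) / ((rmO P J k : ℝ) + 1)|
      + |∑ p ∈ rmS P J, ∑ k ∈ Icc 1 K, F (p * k) / ((rmO P J k : ℝ) + 1)| := by
    have := abs_add_le (∑ k ∈ fcs P J K, F k
      - ∑ p ∈ rmS P J, ∑ k ∈ Icc 1 K, F (p * k) / ((rmO P J k : ℝ) + 1))
      (∑ p ∈ rmS P J, ∑ k ∈ Icc 1 K, F (p * k) / ((rmO P J k : ℝ) + 1))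
    rwa [sub_add_cancel] at this
  linarith

end Pool.Agent.H35.W

end

section

/-!
# Project WL (MP_a78e8f_nt): definitions

Elliott-Halberstam for almost all residues in intervals of length `(log x)^C`, all levels `θ < 1`,
with exceptional sets of density `(log x)^{-c}`.  `Lam`, `lamR`, `hR`, `ramS`, `psiA`, `err` are those of
`Pool.Agent.H91.EHA.Defs`.
-/

set_option autoImplicit false

namespace Pool.Agent.H87.WL

open Finset
open Pool.Agent.H91.EHA (Lam lamR hR ramS psiA err)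

/-- the primes in `(P, P']` -/
def PP (P P' : ℕ) : Finset ℕ := (Ioc P P').filter Nat.Prime

/-- the primes in `(P, P']` which do not divide `m` -/
def PPc (P P' m : ℕ) : Finset ℕ := (PP P P').filter (fun p => ¬ p ∣ m)

/-- `∑_{p ∈ S} 1/p` -/
noncomputable def Mu (S : Finset ℕ) : ℝ := ∑ p ∈ S, 1 / (p : ℝ)

/-- the number of `p ∈ S` dividing `k` -/
def Om (S : Finset ℕ) (k : ℕ) : ℕ := (S.filter (fun p => p ∣ k)).card

/-- the Möbius function with real values -/
noncomputable def mo (n : ℕ) : ℝ := (ArithmeticFunction.moebius n : ℝ)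

/-- `∑_{c | q, c ≤ R} μ(c)²/φ(c)` -/
noncomputable def gR (R q : ℕ) : ℝ :=
  ∑ c ∈ q.divisors.filter (fun c => c ≤ R),
    (ArithmeticFunction.moebius c : ℝ) ^ 2 / (c.totient : ℝ)

/-! ### Selberg's function -/

/-- Selberg's function `Ψ(n) = ∑_{h ≤ D, (h,q) = 1} μ(h)/φ(h) c_h(n)` -/
noncomputable def Ps (D q n : ℕ) : ℝ :=
  ∑ h ∈ (Icc 1 D).filter (fun h => Nat.Coprime h q), mo h / (h.totient : ℝ) * ramS h n

/-- `G = ∑_{h ≤ D, (h,q) = 1} μ(h)²/φ(h)` -/
noncomputable def Gs (D q : ℕ) : ℝ :=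
  ∑ h ∈ (Icc 1 D).filter (fun h => Nat.Coprime h q), mo h ^ 2 / (h.totient : ℝ)

/-- Selberg's weights: `Ψ(n) = ∑_{s | n} λ_s` -/
noncomputable def ls (D q s : ℕ) : ℝ :=
  (s : ℝ) * ∑ l ∈ (Icc 1 D).filter (fun l => Nat.Coprime l q ∧ s ∣ l),
    mo (l / s) * mo l / (l.totient : ℝ)

/-- `∑_{e | d, e ≤ y} μ(e)²/φ(e)` -/
noncomputable def Ad (d y : ℕ) : ℝ :=
  ∑ e ∈ d.divisors.filter (fun e => e ≤ y), mo e ^ 2 / (e.totient : ℝ)

/-- the main term of `∑_{k ≤ K, d | k} Ψ(a + q k)²` is `(K/d) Sd D q d` -/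
noncomputable def Sd (D q d : ℕ) : ℝ :=
  ∑ l ∈ (Icc 1 D).filter (fun l => Nat.Coprime l (q * d)),
    mo l ^ 2 / (l.totient : ℝ) * Ad d (D / l) ^ 2

/-- the quadratic form of Selberg's weights coprime to `m` -/
noncomputable def Qf (D q m : ℕ) : ℝ :=
  ∑ s ∈ (Icc 1 D).filter (fun s => Nat.Coprime s (q * m)),
    ∑ t ∈ (Icc 1 D).filter (fun t => Nat.Coprime t (q * m)),
      ls D q s * ls D q t / (Nat.lcm s t : ℝ)

/-- `∑_{k ≤ K, d | k} Ψ(a + q k)²` -/
noncomputable def Td (D q a d K : ℕ) : ℝ :=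
  ∑ k ∈ (Icc 1 K).filter (fun k => d ∣ k), Ps D q (a + q * k) ^ 2

/-! ### The statements delivered by other projects -/

/-- the prime number theorem with a power of the logarithm (`Pool.Agent.H91.EHA.pnt'`) -/
def PntProp : Prop := ∀ c : ℕ, ∃ x0 : ℕ, ∀ x : ℕ, x0 ≤ x → ∀ t : ℕ, t ≤ x →
  |(∑ n ∈ Icc 1 t, Lam n) - t| ≤ x / Real.log x ^ c

/-- Bombieri-Vinogradov, one class for each modulus (`Pool.Agent.H91.EHA.classes_sum` with `H = 1`) -/
def BVProp : Prop := ∀ c : ℕ, ∃ x0 : ℕ, ∀ x : ℕ, x0 ≤ x → ∀ T : (q : ℕ) → Finset (ZMod q),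
  (∀ q, ((T q).card : ℝ) ≤ 1) → (∀ q, ∀ a ∈ T q, IsUnit a) →
    ∑ q ∈ (Icc 1 ⌊(x : ℝ) ^ ((1 : ℝ) / 3)⌋₊).filter
        (fun q : ℕ => (q : ℝ) ^ 2 ≤ 1 * (x : ℝ) ^ (1 - (1 : ℝ) / 10)),
      ∑ a ∈ T q, |err x q a| ≤ 1 * x / Real.log x ^ c

/-- the exceptional moduli in `(Q, 2Q]` for the residue `a` -/
noncomputable def bad (x a Q : ℕ) (η : ℝ) : Finset ℕ :=
  (Ioc Q (2 * Q)).filter (fun q => Nat.Coprime a q ∧
    η * ((Nat.primeCounting x : ℝ) / (q.totient : ℝ)) < |err x q (a : ZMod q)|)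

lemma Mu_mono {S T : Finset ℕ} (h : S ⊆ T) : Mu S ≤ Mu T :=
  sum_le_sum_of_subset_of_nonneg h fun _ _ _ => by positivity

end Pool.Agent.H87.WL

end

section

/-!
# Project U (MP_a78e8f_nt): definitions

Theorem U: equidistribution for almost all residues `a` in intervals of length `H ≥ (log x)^C`, all
levels `θ < 1`, with relative error `O(loglog x/log H + (loglog x)^2/log x)` and exceptional sets of
density `(log x)^(-c)`.

New compared with W and WL: the integers `k` without prime factor in `(P, P']` (rough) are treated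
by the pure sieve (`m = 2r`, `r` about `C loglog x`), exactly for the explicit parts of `Λ`.
-/

set_option autoImplicit false

namespace Pool.Agent.H35.U

open Finset
open Pool.Agent.H91.EHA (Lam lamR hR psiA err)
open Pool.Agent.H87.WL (PP PPc Mu Om gR Ps Gs Sd Td)

/-- the subsets of `S` with at most `m` elements -/
def sb (S : Finset ℕ) (m : ℕ) : Finset (Finset ℕ) := S.powerset.filter (fun T => T.card ≤ m)

/-- the product of the elements -/
def pr (T : Finset ℕ) : ℕ := ∏ p ∈ T, p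

/-- the `k ≤ K` without divisor in `S` -/
def rS (S : Finset ℕ) (K : ℕ) : Finset ℕ := (Icc 1 K).filter (fun k => ∀ p ∈ S, ¬ p ∣ k)

/-- the weight of the tail of the pure sieve -/
noncomputable def tw (S : Finset ℕ) (m k : ℕ) : ℝ := if m < Om S k then 2 ^ Om S k else 0

/-- the factor of the pure sieve -/
noncomputable def eb (S : Finset ℕ) (m : ℕ) : ℝ :=
  Real.exp (-Mu S) + Real.exp (8 * Mu S) / 8 ^ m

/-- `Λ_R` on `(M, N]` -/
noncomputable def vR (R M N n : ℕ) : ℝ := if n ∈ Ioc M N then lamR R n else 0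

/-- the relative error `loglog x/log H + (loglog x)^2/log x` -/
noncomputable def rho (x H : ℕ) : ℝ :=
  Real.log (Real.log x) / Real.log H + Real.log (Real.log x) ^ 2 / Real.log x

open Classical in
/-- indicator of `p^2 ∣ k` for some prime `p > P` -/
noncomputable def sqi (P k : ℕ) : ℝ := if ∃ p, P < p ∧ p.Prime ∧ p ^ 2 ∣ k then 1 else 0

lemma tw_nonneg (S : Finset ℕ) (m k : ℕ) : 0 ≤ tw S m k := by
  unfold tw; split_ifs <;> positivity

lemma eb_nonneg (S : Finset ℕ) (m : ℕ) : 0 ≤ eb S m := by unfold eb; positivity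

lemma mem_sb {S T : Finset ℕ} {m : ℕ} : T ∈ sb S m ↔ T ⊆ S ∧ T.card ≤ m := by
  unfold sb; simp [Finset.mem_powerset]

end Pool.Agent.H35.U

end

section

/-!
# W SqIdS: the square identity, subset version

Same proof as `EHB.square_identity` (file `H76/EHB/SmallB.lean`: copy it) with `ks K` replaced by the finite set `S` and
`JJ f N K d l α a Y` by `JJT f N (S.filter (d ∣ k - l)) α a Y`.
-/

set_option autoImplicit false

namespace Pool.Agent.H35.W

open Finset MeasureTheory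
open Pool.Agent.H76.EHB
open Pool.Agent.H91.PK (ee)

/-- the integrand of the pair `k1, k2` -/
private noncomputable def sqIdS_H (f : ℕ → ℝ) (N : ℕ) (A α : ℝ) (a0 k1 k2 : ℤ) (y v : ℝ) : ℂ :=
  (((A * Real.exp (-Real.pi * v ^ 2) : ℝ) : ℂ))
    * (ee (-((a0 + A * v) * ((k2 - k1 : ℤ) : ℝ) * y))
      * (FF f N (α + k2 * y) * (starRingEnd ℂ) (FF f N (α + k1 * y))))

private theorem sqIdS_norm_ee (t : ℝ) : ‖ee t‖ = 1 := Pool.Agent.H91.PK.LSa_norm_ee t

private theorem sqIdS_gauss_int : Integrable (fun v : ℝ => Real.exp (-Real.pi * v ^ 2)) := by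
  have h := gauss_integrable 1 one_ne_zero
  simpa using h

private theorem sqIdS_continuous_H (f : ℕ → ℝ) (N : ℕ) (A α : ℝ) (a0 k1 k2 : ℤ) :
    Continuous (fun p : ℝ × ℝ => ee (-((a0 + A * p.2) * ((k2 - k1 : ℤ) : ℝ) * p.1))
      * (FF f N (α + k2 * p.1) * (starRingEnd ℂ) (FF f N (α + k1 * p.1)))) := by
  have h1 := continuous_ee
  have h2 := FF_continuous f N
  have h3 : Continuous (fun p : ℝ × ℝ => FF f N (α + k1 * p.1)) := h2.comp (by fun_prop)
  have h4 : Continuous (fun p : ℝ × ℝ => FF f N (α + k2 * p.1)) := h2.comp (by fun_prop)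
  have h5 : Continuous (fun p : ℝ × ℝ => ee (-((a0 + A * p.2) * ((k2 - k1 : ℤ) : ℝ) * p.1))) :=
    h1.comp (by fun_prop)
  exact h5.mul (h4.mul (Complex.continuous_conj.comp h3))

private theorem sqIdS_continuous_y (f : ℕ → ℝ) (N : ℕ) (A α : ℝ) (a0 k1 k2 : ℤ) (v : ℝ) :
    Continuous (fun y : ℝ => sqIdS_H f N A α a0 k1 k2 y v) := by
  have h1 := continuous_ee
  have h2 := FF_continuous f N
  have h3 : Continuous (fun y : ℝ => FF f N (α + k1 * y)) := h2.comp (by fun_prop)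
  have h4 : Continuous (fun y : ℝ => FF f N (α + k2 * y)) := h2.comp (by fun_prop)
  have h5 : Continuous (fun y : ℝ => ee (-((a0 + A * v) * ((k2 - k1 : ℤ) : ℝ) * y))) :=
    h1.comp (by fun_prop)
  unfold sqIdS_H
  exact continuous_const.mul (h5.mul (h4.mul (Complex.continuous_conj.comp h3)))

private theorem sqIdS_bound (f : ℕ → ℝ) (N : ℕ) (A α : ℝ) (a0 k1 k2 : ℤ) (p : ℝ × ℝ) :
    ‖ee (-((a0 + A * p.2) * ((k2 - k1 : ℤ) : ℝ) * p.1))
      * (FF f N (α + k2 * p.1) * (starRingEnd ℂ) (FF f N (α + k1 * p.1)))‖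
      ≤ (∑ n ∈ Icc 1 N, |f n|) * (∑ n ∈ Icc 1 N, |f n|) := by
  rw [norm_mul, sqIdS_norm_ee, one_mul, norm_mul, RCLike.norm_conj]
  exact mul_le_mul (norm_FF_le f N _) (norm_FF_le f N _) (norm_nonneg _)
    (Finset.sum_nonneg fun _ _ => abs_nonneg _)

private theorem sqIdS_integrable (f : ℕ → ℝ) (N : ℕ) (A α Y : ℝ) (a0 k1 k2 : ℤ) :
    Integrable (fun p : ℝ × ℝ => sqIdS_H f N A α a0 k1 k2 p.1 p.2)
      ((volume.restrict (Set.Icc (-Y) Y)).prod volume) := by
  have h1 : Integrable (fun p : ℝ × ℝ => ((A * Real.exp (-Real.pi * p.2 ^ 2) : ℝ) : ℂ))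
      ((volume.restrict (Set.Icc (-Y) Y)).prod volume) := by
    have h := (sqIdS_gauss_int.const_mul A).ofReal (𝕜 := ℂ)
    exact h.comp_snd (volume.restrict (Set.Icc (-Y) Y))
  unfold sqIdS_H
  exact h1.mul_bdd (sqIdS_continuous_H f N A α a0 k1 k2).aestronglyMeasurable
    (Filter.Eventually.of_forall fun p => sqIdS_bound f N A α a0 k1 k2 p)

private theorem sqIdS_pair (f : ℕ → ℝ) (N : ℕ) (A α Y : ℝ) (a0 k1 k2 : ℤ) :
    IpS f N A a0 α k1 k2 (Set.Icc (-Y) Y)
      = ∫ v : ℝ, ∫ y in Set.Icc (-Y) Y, sqIdS_H f N A α a0 k1 k2 y v := by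
  rw [← integral_integral_swap (f := fun y v => sqIdS_H f N A α a0 k1 k2 y v)
    (sqIdS_integrable f N A α Y a0 k1 k2)]
  unfold IpS
  refine integral_congr_ae (Filter.Eventually.of_forall fun y => ?_)
  show _ = ∫ v : ℝ, sqIdS_H f N A α a0 k1 k2 y v
  have hg := gft2 (A * ((k2 - k1 : ℤ) : ℝ) * y)
  have e1 : ∀ v : ℝ, sqIdS_H f N A α a0 k1 k2 y v
      = ((A : ℂ) * ee (-((a0 : ℝ) * ((k2 - k1 : ℤ) : ℝ) * y))
        * (FF f N (α + k2 * y) * (starRingEnd ℂ) (FF f N (α + k1 * y))))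
        * (((Real.exp (-Real.pi * v ^ 2) : ℝ) : ℂ) * ee (-(A * ((k2 - k1 : ℤ) : ℝ) * y * v))) := by
    intro v
    unfold sqIdS_H
    have e2 : -((a0 + A * v) * ((k2 - k1 : ℤ) : ℝ) * y)
        = -((a0 : ℝ) * ((k2 - k1 : ℤ) : ℝ) * y) + -(A * ((k2 - k1 : ℤ) : ℝ) * y * v) := by ring
    rw [e2, Pool.Agent.H91.PK.LSa_ee_add]
    push_cast
    ring
  simp_rw [e1]
  rw [integral_const_mul, ← hg]
  push_cast
  ring

private theorem sqIdS_class (f : ℕ → ℝ) (N d : ℕ) (S : Finset ℤ) (A α Y : ℝ) (a0 l : ℤ) :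
    ((∫ v : ℝ, A * Real.exp (-Real.pi * v ^ 2) * JJT f N (S.filter (fun k => (d : ℤ) ∣ k - l)) α (a0 + A * v) Y : ℝ) : ℂ)
      = ∑ k1 ∈ S.filter (fun k => (d : ℤ) ∣ k - l),
          ∑ k2 ∈ S.filter (fun k => (d : ℤ) ∣ k - l),
            ∫ v : ℝ, ∫ y in Set.Icc (-Y) Y, sqIdS_H f N A α a0 k1 k2 y v := by
  set F := S.filter (fun k => (d : ℤ) ∣ k - l) with hF
  have hv : ∀ k1 k2 : ℤ, Integrable (fun v : ℝ => ∫ y in Set.Icc (-Y) Y, sqIdS_H f N A α a0 k1 k2 y v) := by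
    intro k1 k2
    exact (sqIdS_integrable f N A α Y a0 k1 k2).integral_prod_right
  have hy : ∀ (k1 k2 : ℤ) (v : ℝ), Integrable (fun y : ℝ => sqIdS_H f N A α a0 k1 k2 y v)
      (volume.restrict (Set.Icc (-Y) Y)) := by
    intro k1 k2 v
    exact (sqIdS_continuous_y f N A α a0 k1 k2 v).continuousOn.integrableOn_compact isCompact_Icc
  rw [← integral_complex_ofReal]
  have h1 : ∀ k1 ∈ F, ∑ k2 ∈ F, ∫ v : ℝ, ∫ y in Set.Icc (-Y) Y, sqIdS_H f N A α a0 k1 k2 y v
      = ∫ v : ℝ, ∑ k2 ∈ F, ∫ y in Set.Icc (-Y) Y, sqIdS_H f N A α a0 k1 k2 y v := by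
    intro k1 _
    rw [integral_finsetSum _ (fun k2 _ => hv k1 k2)]
  rw [Finset.sum_congr rfl h1]
  rw [← integral_finsetSum _ (fun k1 _ => integrable_finsetSum _ (fun k2 _ => hv k1 k2))]
  refine integral_congr_ae (Filter.Eventually.of_forall fun v => ?_)
  have h2 : ∀ k1 ∈ F, ∑ k2 ∈ F, ∫ y in Set.Icc (-Y) Y, sqIdS_H f N A α a0 k1 k2 y v
      = ∫ y in Set.Icc (-Y) Y, ∑ k2 ∈ F, sqIdS_H f N A α a0 k1 k2 y v := by
    intro k1 _
    rw [integral_finsetSum _ (fun k2 _ => hy k1 k2 v)]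
  show ((A * Real.exp (-Real.pi * v ^ 2) * JJT f N (S.filter (fun k => (d : ℤ) ∣ k - l)) α (a0 + A * v) Y : ℝ) : ℂ)
    = ∑ k1 ∈ F, ∑ k2 ∈ F, ∫ y in Set.Icc (-Y) Y, sqIdS_H f N A α a0 k1 k2 y v
  rw [Finset.sum_congr rfl h2,
    ← integral_finsetSum _ (fun k1 _ => integrable_finsetSum _ (fun k2 _ => hy k1 k2 v))]
  unfold JJT
  rw [← integral_const_mul, ← integral_complex_ofReal]
  refine integral_congr_ae (Filter.Eventually.of_forall fun y => ?_)
  show ((A * Real.exp (-Real.pi * v ^ 2)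
    * ‖∑ k ∈ F, FF f N (α + k * y) * ee (-((a0 + A * v) * k * y))‖ ^ 2 : ℝ) : ℂ)
    = ∑ k1 ∈ F, ∑ k2 ∈ F, sqIdS_H f N A α a0 k1 k2 y v
  have h3 : ((‖∑ k ∈ F, FF f N (α + k * y) * ee (-((a0 + A * v) * k * y))‖ ^ 2 : ℝ) : ℂ)
      = ∑ k1 ∈ F, ∑ k2 ∈ F, (FF f N (α + k2 * y) * ee (-((a0 + A * v) * k2 * y)))
        * (starRingEnd ℂ) (FF f N (α + k1 * y) * ee (-((a0 + A * v) * k1 * y))) := by
    push_cast
    rw [← Complex.mul_conj', map_sum, Finset.sum_mul_sum, Finset.sum_comm]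
  rw [Complex.ofReal_mul, h3, Finset.mul_sum]
  refine Finset.sum_congr rfl fun k1 _ => ?_
  rw [Finset.mul_sum]
  refine Finset.sum_congr rfl fun k2 _ => ?_
  unfold sqIdS_H
  have e3 : (-((a0 + A * v) * ((k2 - k1 : ℤ) : ℝ) * y))
      = -((a0 + A * v) * k2 * y) + -(-((a0 + A * v) * k1 * y)) := by
    push_cast; ring
  rw [e3, Pool.Agent.H91.PK.LSa_ee_add, map_mul, Pool.Agent.H91.PK.LSa_conj_ee]
  ring

theorem square_identityS (f : ℕ → ℝ) (N d : ℕ) (S : Finset ℤ) (A α Y : ℝ) (a0 : ℤ) (hd : 1 ≤ d)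
    (hA : 0 < A) (hY : 0 ≤ Y) :
    ∑ k1 ∈ S, ∑ k2 ∈ S.filter (fun k2 => (d : ℤ) ∣ k2 - k1),
      IpS f N A a0 α k1 k2 (Set.Icc (-Y) Y)
      = ((∑ l ∈ range d, ∫ v : ℝ, A * Real.exp (-Real.pi * v ^ 2)
          * JJT f N (S.filter (fun k => (d : ℤ) ∣ k - l)) α (a0 + A * v) Y : ℝ) : ℂ) := by
  have hd0 : (0 : ℤ) < d := by exact_mod_cast hd
  rw [Complex.ofReal_sum]
  have h1 : ∀ l ∈ range d,
      ((∫ v : ℝ, A * Real.exp (-Real.pi * v ^ 2) * JJT f N (S.filter (fun k => (d : ℤ) ∣ k - l)) α (a0 + A * v) Y : ℝ) : ℂ)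
      = ∑ k1 ∈ S, if (d : ℤ) ∣ k1 - (l : ℤ) then
          ∑ k2 ∈ S.filter (fun k => (d : ℤ) ∣ k - k1),
            IpS f N A a0 α k1 k2 (Set.Icc (-Y) Y) else 0 := by
    intro l _
    rw [sqIdS_class f N d S A α Y a0 l, ← Finset.sum_filter]
    refine Finset.sum_congr rfl fun k1 hk1 => ?_
    have hk : (d : ℤ) ∣ k1 - l := (Finset.mem_filter.mp hk1).2
    have hfe : S.filter (fun k => (d : ℤ) ∣ k - l) = S.filter (fun k => (d : ℤ) ∣ k - k1) := by
      refine Finset.filter_congr fun k _ => ?_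
      constructor
      · intro h
        have := dvd_sub h hk
        have e : k - (l : ℤ) - (k1 - l) = k - k1 := by ring
        rwa [e] at this
      · intro h
        have := dvd_add h hk
        have e : k - k1 + (k1 - (l : ℤ)) = k - l := by ring
        rwa [e] at this
    rw [hfe]
    exact Finset.sum_congr rfl fun k2 _ => (sqIdS_pair f N A α Y a0 k1 k2).symm
  rw [Finset.sum_congr rfl h1, Finset.sum_comm]
  refine Finset.sum_congr rfl fun k1 _ => ?_
  have hmem : (k1 % (d : ℤ)).toNat ∈ range d := by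
    rw [Finset.mem_range]
    have h2 := Int.emod_lt_of_pos k1 hd0
    have h3 := Int.emod_nonneg k1 hd0.ne'
    omega
  rw [Finset.sum_eq_single_of_mem _ hmem]
  · rw [if_pos]
    have h3 := Int.emod_nonneg k1 hd0.ne'
    rw [Int.toNat_of_nonneg h3]
    exact Int.dvd_self_sub_emod
  · intro l hl hne
    rw [if_neg]
    intro hdv
    apply hne
    have hl' : (l : ℤ) < d := by exact_mod_cast Finset.mem_range.mp hl
    have h4 : k1 % (d : ℤ) = (l : ℤ) := by
      have h6 : k1 % (d : ℤ) = (l : ℤ) % d := Int.ModEq.symm ((Int.modEq_iff_dvd).mpr hdv)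
      rw [h6, Int.emod_eq_of_lt (by positivity) hl']
    rw [h4]
    simp

end Pool.Agent.H35.W

end

section

/-!
# U Bonf: the pure sieve

For a set `S` of primes and `k`, `S_k = {p ∈ S : p ∣ k}`, `ω = |S_k| = Om S k`.  For `T ⊆ S`:
`pr T ∣ k ↔ T ⊆ S_k` (distinct primes).  So `∑_{T ∈ sb S m} (-1)^|T| [pr T ∣ k] = ∑_{j ≤ m} (-1)^j C(ω, j)`.

* `bonf_abs`: if `ω ≤ m` the sum is `0^ω` (`Finset.sum_powerset_neg_one_pow_card` or
  `Int.alternating_sum_range_choose`), equal to the indicator of `ω = 0`; if `ω > m` the indicator is `0`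
  and the sum is at most `2^ω` in absolute value (at most `2^ω` subsets of `S_k`).
* `bonf_upper`: `ω = 0`: the sum is `1`.  `ω ≥ 1`: `∑_{j ≤ 2r} (-1)^j C(ω,j) = C(ω-1, 2r) ≥ 0`
  (induction on the upper limit: `∑_{j ≤ n} (-1)^j C(ω,j) = (-1)^n C(ω-1,n)`).
* `bonf_mu`: `∑_{T ⊆ S} (-1)^|T|/pr T = ∏ (1-1/p) ≤ exp(-Mu S)` (`Finset.prod_one_sub...`,
  `Finset.prod_add` / `Finset.prod_one_add`), and the subsets with more than `m` elements contribute at
  most `∑_T 8^(|T|-m)/pr T ≤ 8^(-m) ∏ (1 + 8/p) ≤ exp(8 Mu S)/8^m`.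
* `sb_inv`: `∑_{T ⊆ S} 1/pr T = ∏ (1 + 1/p) ≤ exp(Mu S)`.
* `sb_card`: `∑_{T ∈ sb S m} 1 ≤ (|S|+1)^m`: e.g. the map from functions `Fin m → Option S` (image without
  `none`) onto `sb S m` is surjective; or `∑_{j ≤ m} C(|S|,j) ≤ (|S|+1)^m` by induction on `m`
  (`C(n,j) ≤ n^j/j!`, binomial theorem).
* `pr_pos`, `pr_le`: positivity, `pr T ≤ X^m` if all elements are `≤ X`, `X ≥ 1`.
-/

set_option autoImplicit false

namespace Pool.Agent.H35.U

open Finset
open Pool.Agent.H87.WL (PP PPc Mu Om)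

theorem pr_pos (S : Finset ℕ) (hS : ∀ p ∈ S, p.Prime) (T : Finset ℕ) (hT : T ⊆ S) : 1 ≤ pr T :=
  Nat.one_le_iff_ne_zero.2 (prod_ne_zero_iff.2 fun p hp => (hS p (hT hp)).ne_zero)

theorem pr_le (T : Finset ℕ) (X m : ℕ) (hX : 1 ≤ X) (hT : ∀ p ∈ T, p ≤ X) (hm : T.card ≤ m) :
    pr T ≤ X ^ m := by
  have h1 : pr T ≤ X ^ T.card := prod_le_pow_card T (fun p => p) X hT
  exact h1.trans (Nat.pow_le_pow_right hX hm)

theorem pr_dvd (S : Finset ℕ) (hS : ∀ p ∈ S, p.Prime) (T : Finset ℕ) (hT : T ⊆ S) (k : ℕ) :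
    pr T ∣ k ↔ ∀ p ∈ T, p ∣ k := by
  constructor
  · intro h p hp
    exact (dvd_prod_of_mem (fun p => p) hp).trans h
  · intro h
    exact prod_primes_dvd k (fun p hp => (hS p (hT hp)).prime) h

private theorem Bonf_restrict (S : Finset ℕ) (hS : ∀ p ∈ S, p.Prime) (m k : ℕ) :
    ∑ T ∈ sb S m, (-1 : ℝ) ^ T.card * (if pr T ∣ k then 1 else 0) =
      ∑ T ∈ sb (S.filter (fun p => p ∣ k)) m, (-1 : ℝ) ^ T.card := by
  have h1 : sb (S.filter (fun p => p ∣ k)) m = (sb S m).filter (fun T => pr T ∣ k) := by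
    ext T
    rw [mem_filter, mem_sb, mem_sb]
    constructor
    · rintro ⟨h, hc⟩
      have hTS : T ⊆ S := h.trans (filter_subset _ _)
      exact ⟨⟨hTS, hc⟩, (pr_dvd S hS T hTS k).2 fun p hp => (mem_filter.1 (h hp)).2⟩
    · rintro ⟨⟨hTS, hc⟩, h⟩
      exact ⟨fun p hp => mem_filter.2 ⟨hTS hp, (pr_dvd S hS T hTS k).1 h p hp⟩, hc⟩
  rw [h1, sum_filter]
  refine sum_congr rfl fun T _ => ?_
  split_ifs <;> ring

private theorem Bonf_full (A : Finset ℕ) :
    ∑ T ∈ A.powerset, (-1 : ℝ) ^ T.card = if A = ∅ then 1 else 0 := by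
  have h := sum_powerset_neg_one_pow_card (x := A)
  have h2 := congrArg (fun z : ℤ => (z : ℝ)) h
  push_cast at h2
  rw [h2]

private theorem Bonf_trunc (A : Finset ℕ) (n m : ℕ) (hA : A.card = n + 1) :
    ∑ T ∈ sb A m, (-1 : ℝ) ^ T.card = (-1) ^ m * (n.choose m : ℝ) := by
  have h1 : ∑ T ∈ sb A m, (-1 : ℝ) ^ T.card =
      ∑ T ∈ A.powerset, (fun j : ℕ => if j ≤ m then (-1 : ℝ) ^ j else 0) T.card := by
    unfold sb
    rw [sum_filter]
  rw [h1, sum_powerset_apply_card (fun j : ℕ => if j ≤ m then (-1 : ℝ) ^ j else 0), hA]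
  have h2 : ∑ j ∈ range (n + 1 + 1), (n + 1).choose j • (if j ≤ m then (-1 : ℝ) ^ j else 0) =
      ∑ j ∈ range (max (n + 2) (m + 1)),
        (n + 1).choose j • (if j ≤ m then (-1 : ℝ) ^ j else 0) := by
    apply sum_subset
    · intro j hj
      rw [mem_range] at hj ⊢
      exact lt_of_lt_of_le hj (le_max_left _ _)
    · intro j _ hj
      rw [mem_range, not_lt] at hj
      rw [Nat.choose_eq_zero_of_lt (by omega), zero_nsmul]
  have h3 : ∑ j ∈ range (m + 1), (-1 : ℝ) ^ j * ((n + 1).choose j : ℝ) =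
      ∑ j ∈ range (max (n + 2) (m + 1)),
        (n + 1).choose j • (if j ≤ m then (-1 : ℝ) ^ j else 0) := by
    have h4 : ∑ j ∈ range (m + 1), (-1 : ℝ) ^ j * ((n + 1).choose j : ℝ) =
        ∑ j ∈ range (m + 1), (n + 1).choose j • (if j ≤ m then (-1 : ℝ) ^ j else 0) := by
      refine sum_congr rfl fun j hj => ?_
      rw [mem_range] at hj
      rw [if_pos (by omega), nsmul_eq_mul, mul_comm]
    rw [h4]
    apply sum_subset
    · intro j hj
      rw [mem_range] at hj ⊢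
      exact lt_of_lt_of_le hj (le_max_right _ _)
    · intro j _ hj
      rw [mem_range, not_lt] at hj
      rw [if_neg (by omega), smul_zero]
  rw [h2, ← h3]
  have h5 := Int.alternating_sum_range_choose_eq_choose (n := n) (m := m)
  have h6 := congrArg (fun z : ℤ => (z : ℝ)) h5
  push_cast at h6
  exact h6

private theorem Bonf_ind (S : Finset ℕ) (k : ℕ) :
    (if ∀ p ∈ S, ¬ p ∣ k then (1 : ℝ) else 0) =
      if S.filter (fun p => p ∣ k) = ∅ then 1 else 0 := by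
  have h : (∀ p ∈ S, ¬ p ∣ k) ↔ S.filter (fun p => p ∣ k) = ∅ := filter_eq_empty_iff.symm
  simp only [h]

private theorem Bonf_empty (m : ℕ) : ∑ T ∈ sb (∅ : Finset ℕ) m, (-1 : ℝ) ^ T.card = 1 := by
  have h : sb (∅ : Finset ℕ) m = {∅} := by
    ext T
    rw [mem_sb, mem_singleton, subset_empty]
    constructor
    · exact fun h => h.1
    · rintro rfl
      exact ⟨rfl, by simp⟩
  rw [h, sum_singleton]
  simp

theorem bonf_upper (S : Finset ℕ) (hS : ∀ p ∈ S, p.Prime) (r k : ℕ) :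
    (if ∀ p ∈ S, ¬ p ∣ k then (1 : ℝ) else 0) ≤
      ∑ T ∈ sb S (2 * r), (-1 : ℝ) ^ T.card * (if pr T ∣ k then 1 else 0) := by
  rw [Bonf_restrict S hS, Bonf_ind]
  split_ifs with h
  · rw [h, Bonf_empty]
  · obtain ⟨n, hn⟩ : ∃ n, (S.filter (fun p => p ∣ k)).card = n + 1 :=
      Nat.exists_eq_succ_of_ne_zero (fun h0 => h (card_eq_zero.1 h0))
    rw [Bonf_trunc _ n _ hn, pow_mul]
    norm_num

theorem bonf_abs (S : Finset ℕ) (hS : ∀ p ∈ S, p.Prime) (m k : ℕ) :
    |∑ T ∈ sb S m, (-1 : ℝ) ^ T.card * (if pr T ∣ k then 1 else 0) -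
      (if ∀ p ∈ S, ¬ p ∣ k then (1 : ℝ) else 0)| ≤ tw S m k := by
  rw [Bonf_restrict S hS, Bonf_ind]
  unfold tw Om
  split_ifs with h1 h2 h2
  · rw [h1, card_empty] at h2
    omega
  · rw [h1, Bonf_empty]
    simp
  · rw [sub_zero]
    refine (abs_sum_le_sum_abs _ _).trans ?_
    have h3 : ∀ T ∈ sb (S.filter (fun p => p ∣ k)) m, |(-1 : ℝ) ^ T.card| = 1 := fun T _ => by
      rw [abs_pow, abs_neg, abs_one, one_pow]
    rw [sum_congr rfl h3, sum_const, nsmul_eq_mul, mul_one]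
    have h4 : (sb (S.filter (fun p => p ∣ k)) m).card ≤ 2 ^ (S.filter (fun p => p ∣ k)).card := by
      rw [← card_powerset]
      exact card_le_card (filter_subset _ _)
    exact_mod_cast h4
  · have h3 : sb (S.filter (fun p => p ∣ k)) m = (S.filter (fun p => p ∣ k)).powerset := by
      unfold sb
      rw [filter_true_of_mem]
      intro T hT
      exact (card_le_card (mem_powerset.1 hT)).trans (not_lt.1 h2)
    rw [h3, Bonf_full, if_neg h1]
    simp

private theorem Bonf_prod (S : Finset ℕ) (c : ℝ) :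
    ∑ T ∈ S.powerset, c ^ T.card / (pr T : ℝ) = ∏ p ∈ S, (1 + c / (p : ℝ)) := by
  rw [prod_one_add]
  refine sum_congr rfl fun T _ => ?_
  unfold pr
  rw [prod_div_distrib, prod_const]
  push_cast
  rfl

private theorem Bonf_exp (S : Finset ℕ) (c : ℝ) (hc : ∀ p ∈ S, 0 ≤ 1 + c / (p : ℝ)) :
    ∏ p ∈ S, (1 + c / (p : ℝ)) ≤ Real.exp (c * Mu S) := by
  unfold Mu
  rw [mul_sum, Real.exp_sum]
  refine prod_le_prod hc fun p _ => ?_
  have h := Real.add_one_le_exp (c * (1 / (p : ℝ)))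
  rw [mul_one_div] at h ⊢
  linarith

theorem bonf_mu (S : Finset ℕ) (hS : ∀ p ∈ S, p.Prime) (m : ℕ) :
    |∑ T ∈ sb S m, (-1 : ℝ) ^ T.card / (pr T : ℝ)| ≤ eb S m := by
  have hsplit : ∑ T ∈ S.powerset, (-1 : ℝ) ^ T.card / (pr T : ℝ) =
      ∑ T ∈ sb S m, (-1 : ℝ) ^ T.card / (pr T : ℝ) +
        ∑ T ∈ S.powerset.filter (fun T => ¬ T.card ≤ m), (-1 : ℝ) ^ T.card / (pr T : ℝ) :=
    (sum_filter_add_sum_filter_not _ _ _).symm
  have hfull : ∑ T ∈ S.powerset, (-1 : ℝ) ^ T.card / (pr T : ℝ) =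
      ∏ p ∈ S, (1 + (-1) / (p : ℝ)) := Bonf_prod S (-1)
  have hp1 : ∀ p ∈ S, 0 ≤ 1 + (-1) / (p : ℝ) := by
    intro p hp
    have h2 : (2 : ℝ) ≤ p := by exact_mod_cast (hS p hp).two_le
    have h3 : 1 / (p : ℝ) ≤ 1 := by
      rw [div_le_one (by linarith)]
      linarith
    rw [neg_div]
    linarith
  have h1 : |∏ p ∈ S, (1 + (-1) / (p : ℝ))| ≤ Real.exp (-Mu S) := by
    rw [abs_of_nonneg (prod_nonneg hp1)]
    have := Bonf_exp S (-1) hp1
    rwa [neg_one_mul] at this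
  have h2 : |∑ T ∈ S.powerset.filter (fun T => ¬ T.card ≤ m), (-1 : ℝ) ^ T.card / (pr T : ℝ)| ≤
      Real.exp (8 * Mu S) / 8 ^ m := by
    refine (abs_sum_le_sum_abs _ _).trans ?_
    have h3 : ∑ T ∈ S.powerset.filter (fun T => ¬ T.card ≤ m), |(-1 : ℝ) ^ T.card / (pr T : ℝ)| ≤
        ∑ T ∈ S.powerset.filter (fun T => ¬ T.card ≤ m), (8 : ℝ) ^ T.card / (pr T : ℝ) / 8 ^ m := by
      refine sum_le_sum fun T hT => ?_
      rw [mem_filter, not_le] at hT
      rw [abs_div, abs_pow, abs_neg, abs_one, one_pow, Nat.abs_cast, div_right_comm]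
      refine div_le_div_of_nonneg_right ?_ (Nat.cast_nonneg _)
      rw [le_div_iff₀ (by positivity), one_mul]
      exact pow_le_pow_right₀ (by norm_num) hT.2.le
    refine h3.trans ?_
    have h4 : ∑ T ∈ S.powerset.filter (fun T => ¬ T.card ≤ m),
        (8 : ℝ) ^ T.card / (pr T : ℝ) / 8 ^ m ≤
        ∑ T ∈ S.powerset, (8 : ℝ) ^ T.card / (pr T : ℝ) / 8 ^ m :=
      sum_le_sum_of_subset_of_nonneg (filter_subset _ _) fun T _ _ => by positivity
    refine h4.trans ?_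
    rw [← sum_div, Bonf_prod S 8]
    exact div_le_div_of_nonneg_right (Bonf_exp S 8 fun p _ => by positivity) (by positivity)
  have h3 : ∑ T ∈ sb S m, (-1 : ℝ) ^ T.card / (pr T : ℝ) =
      ∏ p ∈ S, (1 + (-1) / (p : ℝ)) -
        ∑ T ∈ S.powerset.filter (fun T => ¬ T.card ≤ m), (-1 : ℝ) ^ T.card / (pr T : ℝ) := by
    rw [← hfull, hsplit]
    ring
  rw [h3]
  unfold eb
  exact (abs_sub _ _).trans (add_le_add h1 h2)

theorem sb_inv (S : Finset ℕ) (hS : ∀ p ∈ S, p.Prime) (m : ℕ) :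
    ∑ T ∈ sb S m, 1 / (pr T : ℝ) ≤ Real.exp (Mu S) := by
  have h1 : ∑ T ∈ sb S m, 1 / (pr T : ℝ) ≤ ∑ T ∈ S.powerset, (1 : ℝ) ^ T.card / (pr T : ℝ) := by
    have h2 : ∑ T ∈ sb S m, 1 / (pr T : ℝ) = ∑ T ∈ sb S m, (1 : ℝ) ^ T.card / (pr T : ℝ) :=
      sum_congr rfl fun T _ => by rw [one_pow]
    rw [h2]
    exact sum_le_sum_of_subset_of_nonneg (filter_subset _ _) fun T _ _ => by positivity
  refine h1.trans ?_
  rw [Bonf_prod S 1]
  have h3 := Bonf_exp S 1 fun p _ => by positivity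
  rwa [one_mul] at h3

theorem sb_card (S : Finset ℕ) (m : ℕ) : ((sb S m).card : ℝ) ≤ ((S.card : ℝ) + 1) ^ m := by
  have h : (sb S m).card ≤ (S.card + 1) ^ m := by
    induction m with
    | zero =>
      have h0 : sb S 0 = {∅} := by
        ext T
        rw [mem_sb, mem_singleton]
        constructor
        · intro h; exact card_eq_zero.1 (Nat.le_zero.1 h.2)
        · rintro rfl; exact ⟨empty_subset _, by simp⟩
      rw [h0]
      simp
    | succ m ih =>
      have h1 : sb S (m + 1) ⊆ sb S m ∪ ((sb S m) ×ˢ S).image (fun q => insert q.2 q.1) := by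
        intro T hT
        rw [mem_sb] at hT
        rw [mem_union]
        by_cases hc : T.card ≤ m
        · exact Or.inl (mem_sb.2 ⟨hT.1, hc⟩)
        · right
          have hne : T.Nonempty := by
            rw [← card_pos]
            omega
          obtain ⟨x, hx⟩ := hne
          rw [mem_image]
          refine ⟨(T.erase x, x), ?_, insert_erase hx⟩
          rw [mem_product, mem_sb]
          refine ⟨⟨(erase_subset _ _).trans hT.1, ?_⟩, hT.1 hx⟩
          show (T.erase x).card ≤ m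
          rw [card_erase_of_mem hx]
          omega
      calc (sb S (m + 1)).card ≤ _ := card_le_card h1
        _ ≤ (sb S m).card + (((sb S m) ×ˢ S).image (fun q => insert q.2 q.1)).card :=
            card_union_le _ _
        _ ≤ (sb S m).card + (sb S m).card * S.card := by
            refine Nat.add_le_add_left (card_image_le.trans (le_of_eq (card_product _ _))) _
        _ = (sb S m).card * (S.card + 1) := by ring
        _ ≤ (S.card + 1) ^ m * (S.card + 1) := Nat.mul_le_mul_right _ ih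
        _ = (S.card + 1) ^ (m + 1) := (pow_succ _ _).symm
  exact_mod_cast h

end Pool.Agent.H35.U

end

section

/-!
# WL MuL: the sum of the reciprocals of the primes in `(P, P']`

* `mu_large`: Mertens (`Pool.Agent.H3.LC`: `mertensM_ge`, `mertensM_le`, `mertensM n = ∑_{d ∈ Ioc 0 n} Λ(d)/d`
  `= log n + O(1)`; the prime powers contribute `O(1)`) gives `∑_{y < p ≤ z} (log p)/p ≥ log z - log y - C`, so
  `∑_{y < p ≤ z} 1/p ≥ (log z - log y - C)/log z`. With `y = ⌊L^b⌋`, `z = ⌊L^(2b)⌋`, `L = log x` large, this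
  is at least `1/4` (also with `z` replaced by any number between `z/2` and `z`, needed for the last block:
  `p2_ge`). Take `B' = 2^j B` with `j ≥ 4 M`.
* `p2_le`, `p2_ge`: `Nat.pow_log_le_self`, `Nat.lt_pow_succ_log_self`, `Nat.div_mul_le_self`.
* `mu_le`: `∑_{p ≤ P'} 1/p ≤ ∑_{n ≤ P'} 1/n ≤ 1 + log P'`.
* `card_dvd`: the product of the different primes `p | m` divides `m`, and is at least `2^card`.
* `mu_ppc`: at most `Nat.log 2 m` primes are left out, each at least `P`.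
-/

set_option autoImplicit false

namespace Pool.Agent.H87.WL

open Finset
open Pool.Agent.H91.EHA (Lam lamR hR ramS psiA err)

theorem card_dvd (P P' m : ℕ) (hm : 1 ≤ m) :
    ((PP P P').filter (fun p => p ∣ m)).card ≤ Nat.log 2 m := by
  set S := (PP P P').filter (fun p => p ∣ m) with hS
  have h1 : ∏ p ∈ S, p ∣ m := by
    apply Finset.prod_primes_dvd
    · intro p hp
      simp only [hS, PP, mem_filter, mem_Ioc] at hp
      exact hp.1.2.prime
    · intro p hp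
      exact (mem_filter.1 hp).2
  have h2 : 2 ^ S.card ≤ ∏ p ∈ S, p := by
    apply Finset.pow_card_le_prod
    intro p hp
    simp only [hS, PP, mem_filter, mem_Ioc] at hp
    exact hp.1.2.two_le
  have h3 : ∏ p ∈ S, p ≤ m := Nat.le_of_dvd (by omega) h1
  exact Nat.le_log_of_pow_le (by norm_num) (h2.trans h3)

theorem mu_ppc (P P' m : ℕ) (hm : 1 ≤ m) (hP : 1 ≤ P) :
    Mu (PP P P') - (Nat.log 2 m : ℝ) / P ≤ Mu (PPc P P' m) := by
  have h1 : Mu (PP P P') = Mu ((PP P P').filter (fun p => p ∣ m)) + Mu (PPc P P' m) := by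
    unfold Mu PPc
    exact (Finset.sum_filter_add_sum_filter_not _ _ _).symm
  have hP0 : (0 : ℝ) < P := by exact_mod_cast hP
  have h2 : Mu ((PP P P').filter (fun p => p ∣ m)) ≤ (Nat.log 2 m : ℝ) / P := by
    calc Mu ((PP P P').filter (fun p => p ∣ m))
        ≤ ∑ _p ∈ (PP P P').filter (fun p => p ∣ m), 1 / (P : ℝ) := by
          unfold Mu
          refine sum_le_sum fun p hp => ?_
          simp only [PP, mem_filter, mem_Ioc] at hp
          have : (P : ℝ) ≤ p := by exact_mod_cast hp.1.1.1.le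
          exact one_div_le_one_div_of_le hP0 this
      _ = (((PP P P').filter (fun p => p ∣ m)).card : ℝ) / P := by
          rw [sum_const, nsmul_eq_mul]; ring
      _ ≤ (Nat.log 2 m : ℝ) / P := by
          have : (((PP P P').filter (fun p => p ∣ m)).card : ℝ) ≤ (Nat.log 2 m : ℝ) := by
            exact_mod_cast card_dvd P P' m hm
          gcongr
  linarith

end Pool.Agent.H87.WL

end

section

/-!
# Ramanujan sums

`ramS_eq`: `c_c(n) = ∑_{b mod c, (b,c)=1} e(nb/c) = ∑_{d | (c,n)} d μ(c/d)` (see also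
`Pool/Agent/H92/EH/Ramanujan.lean`, `ram_eq`).
`lamR_exp`: for `c ≤ R`, `(b,c)=1`, `∑_{n≤y} lamR R n e(nb/c) = (μ(c)/φ(c)) y + O(R^4)`:
write `lamR R n = ∑_{d≤R} μ(d)/φ(d) ∑_{b'} e(n b'/d)`; the pair `(d,b')` with `b'/d + b/c ∈ ℤ` is only
`d = c`, `b' ≡ -b`; for the others `‖b'/d + b/c‖ ≥ 1/(cd) ≥ 1/R²`, the geometric sum is `≤ R²`, and
`∑_{d≤R} (1/φ(d)) φ(d) R² ≤ R³`.
-/

set_option autoImplicit false

namespace Pool.Agent.H91.EHA

open Finset
open Pool.Agent.H91.PK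

private theorem swk2_ee (t : ℝ) : ee t = Pool.Agent.H92.EH.e t := by
  unfold ee Pool.Agent.H92.EH.e
  congr 1
  push_cast
  ring

private theorem swk2_red (c : ℕ) (hc : 1 ≤ c) (f : ℕ → ℂ) (hf : f c = f 0) :
    ∑ b ∈ (Icc 1 c).filter (fun b => Nat.Coprime b c), f b
      = ∑ b ∈ Pool.Agent.H92.EH.red c, f b := by
  rcases Nat.eq_or_lt_of_le hc with h1 | h1
  · subst h1
    have e1 : (Icc 1 1).filter (fun b => Nat.Coprime b 1) = {1} := by decide
    have e2 : Pool.Agent.H92.EH.red 1 = {0} := by decide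
    rw [e1, e2, sum_singleton, sum_singleton, hf]
  · apply sum_congr _ (fun _ _ => rfl)
    ext b
    rw [mem_filter, mem_Icc, Pool.Agent.H92.EH.mem_red]
    constructor
    · rintro ⟨⟨h2, h3⟩, h4⟩
      refine ⟨lt_of_le_of_ne h3 ?_, h4⟩
      rintro rfl
      rw [Nat.coprime_self] at h4
      omega
    · rintro ⟨h2, h4⟩
      refine ⟨⟨Nat.one_le_iff_ne_zero.mpr ?_, h2.le⟩, h4⟩
      rintro rfl
      rw [Nat.coprime_zero_left] at h4
      omega

private theorem swk2_ram (c n : ℕ) (hc : 1 ≤ c) :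
    ((ramS c n : ℝ) : ℂ) = Pool.Agent.H92.EH.ram c (n : ℤ) := by
  rw [Pool.Agent.H92.EH.ram_eq c hc]
  rw [Nat.sum_divisorsAntidiagonal' (f := fun a b : ℕ =>
    ((ArithmeticFunction.moebius a : ℤ) : ℂ) * (if ((b : ℕ) : ℤ) ∣ (n : ℤ) then (b : ℂ) else 0))]
  unfold ramS
  have hg : (Nat.gcd c n).divisors = c.divisors.filter (fun d => d ∣ n) := by
    ext d
    rw [Nat.mem_divisors, mem_filter, Nat.mem_divisors]
    constructor
    · rintro ⟨h1, h2⟩
      exact ⟨⟨h1.trans (Nat.gcd_dvd_left c n), by omega⟩, h1.trans (Nat.gcd_dvd_right c n)⟩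
    · rintro ⟨⟨h1, h2⟩, h3⟩
      refine ⟨Nat.dvd_gcd h1 h3, ?_⟩
      intro h4
      rw [Nat.gcd_eq_zero_iff] at h4
      omega
  rw [hg, sum_filter]
  push_cast
  apply sum_congr rfl
  intro d _
  by_cases h : d ∣ n
  · have h' : (d : ℤ) ∣ (n : ℤ) := by exact_mod_cast h
    rw [if_pos h, if_pos h']
    push_cast
    ring
  · have h' : ¬ (d : ℤ) ∣ (n : ℤ) := by
      intro h2
      exact h (by exact_mod_cast h2)
    rw [if_neg h, if_neg h']
    simp

theorem ramS_eq (c n : ℕ) (hc : 1 ≤ c) :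
    ((ramS c n : ℝ) : ℂ) = ∑ b ∈ (Icc 1 c).filter (fun b => Nat.Coprime b c),
      ee ((n : ℝ) * b / c) := by
  have hc0 : (c : ℝ) ≠ 0 := by exact_mod_cast (by omega : c ≠ 0)
  rw [swk2_red c hc (fun b => ee ((n : ℝ) * b / c)), swk2_ram c n hc]
  · unfold Pool.Agent.H92.EH.ram
    apply sum_congr rfl
    intro b _
    rw [swk2_ee]
    congr 1
    push_cast
    ring
  · rw [swk2_ee, swk2_ee]
    have h1 : (n : ℝ) * (c : ℝ) / c = (n : ℝ) := by field_simp
    have h2 : (n : ℝ) * ((0 : ℕ) : ℝ) / c = ((0 : ℕ) : ℝ) := by simp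
    rw [h1, h2, Pool.Agent.H92.EH.e_nat, Pool.Agent.H92.EH.e_nat]

private theorem swk2_geom (y : ℕ) (t δ : ℝ) (hδ : 0 < δ) (h : ∀ m : ℤ, δ ≤ |t - m|) :
    ‖∑ n ∈ Icc 1 y, Pool.Agent.H92.EH.e (n * t)‖ ≤ 1 / (2 * δ) := by
  have h3 := Pool.Agent.H92.EH.le_norm_e_sub_one h
  have h1 : ∑ n ∈ Icc 1 y, Pool.Agent.H92.EH.e (n * t)
      = Pool.Agent.H92.EH.e t * ∑ n ∈ range y, Pool.Agent.H92.EH.e t ^ n := by
    clear h3
    induction y with
    | zero => simp
    | succ y ih =>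
      rw [Finset.sum_Icc_succ_top (by omega), ih, sum_range_succ, mul_add]
      congr 1
      rw [Pool.Agent.H92.EH.e_nat_mul, pow_succ]
      ring
  have h2 : (∑ n ∈ range y, Pool.Agent.H92.EH.e t ^ n) * (Pool.Agent.H92.EH.e t - 1)
      = Pool.Agent.H92.EH.e t ^ y - 1 := geom_sum_mul _ _
  have h4 : ‖(∑ n ∈ range y, Pool.Agent.H92.EH.e t ^ n)‖ * ‖Pool.Agent.H92.EH.e t - 1‖ ≤ 2 := by
    rw [← norm_mul, h2]
    refine (norm_sub_le _ _).trans ?_
    rw [norm_pow, Pool.Agent.H92.EH.norm_e, one_pow, norm_one]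
    norm_num
  rw [h1, norm_mul, Pool.Agent.H92.EH.norm_e, one_mul, le_div_iff₀ (by positivity)]
  have h5 : ‖(∑ n ∈ range y, Pool.Agent.H92.EH.e t ^ n)‖ * (4 * δ) ≤ 2 :=
    (mul_le_mul_of_nonneg_left h3 (norm_nonneg _)).trans h4
  linarith

private theorem swk2_lamR (R n : ℕ) :
    ((lamR R n : ℝ) : ℂ) = ∑ d ∈ Icc 1 R,
      (((ArithmeticFunction.moebius d : ℝ) / (d.totient : ℝ) : ℝ) : ℂ)
        * ∑ b' ∈ Pool.Agent.H92.EH.red d, Pool.Agent.H92.EH.e (n * ((b' : ℝ) / d)) := by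
  unfold lamR
  push_cast
  apply sum_congr rfl
  intro d hd
  rw [mem_Icc] at hd
  have h := swk2_ram d n hd.1
  unfold Pool.Agent.H92.EH.ram at h
  rw [show ((ramS d n : ℝ) : ℂ) = _ from h]
  push_cast
  rfl

theorem lamR_exp (R y c b : ℕ) (hc : 1 ≤ c) (hcR : c ≤ R) (hb : Nat.Coprime b c) :
    ‖(∑ n ∈ Icc 1 y, ((lamR R n : ℝ) : ℂ) * ee ((n : ℝ) * b / c))
      - (((ArithmeticFunction.moebius c : ℝ) / (c.totient : ℝ) * y : ℝ) : ℂ)‖ ≤ (R : ℝ) ^ 4 := by
  have hc0 : (c : ℝ) ≠ 0 := by exact_mod_cast (by omega : c ≠ 0)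
  have hcpos : (0 : ℝ) < c := by exact_mod_cast (by omega : 0 < c)
  -- the residue `bs ≡ -b`
  obtain ⟨bs, hbs, k, hk⟩ : ∃ bs ∈ Pool.Agent.H92.EH.red c, ∃ k : ℤ,
      (b : ℤ) = k * c - bs := by
    refine ⟨(c - b % c) % c, ?_, ?_⟩
    · rw [Pool.Agent.H92.EH.mem_red]
      refine ⟨Nat.mod_lt _ (by omega), ?_⟩
      have h1 : Nat.Coprime (b % c) c := by
        rw [Nat.Coprime, ← Nat.gcd_rec]
        rwa [Nat.coprime_comm] at hb
      have h2 : Nat.Coprime (c - b % c) c := by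
        have h3 : b % c ≤ c := (Nat.mod_lt _ (by omega)).le
        rw [Nat.coprime_self_sub_left h3]
        exact h1
      rw [Nat.Coprime, ← Nat.gcd_rec]
      rwa [Nat.coprime_comm] at h2
    · have h3 : b % c ≤ c := (Nat.mod_lt _ (by omega)).le
      have h4 : ((c : ℤ)) ∣ (b : ℤ) + (((c - b % c) % c : ℕ) : ℤ) := by
        have h5 : (b + (c - b % c) % c) % c = 0 := by
          rw [Nat.add_mod, Nat.mod_mod, ← Nat.add_mod]
          have h6 : b + (c - b % c) = c * (b / c + 1) := by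
            have := Nat.div_add_mod b c
            rw [mul_add, mul_one]
            omega
          rw [h6, Nat.mul_mod_right]
        have h7 : c ∣ b + (c - b % c) % c := Nat.dvd_of_mod_eq_zero h5
        exact_mod_cast h7
      obtain ⟨k, hk⟩ := h4
      refine ⟨k, ?_⟩
      rw [mul_comm] at hk
      linarith
  have hbR : (b : ℝ) = k * c - bs := by exact_mod_cast hk
  have hee : ∀ n : ℕ, ee ((n : ℝ) * b / c) = Pool.Agent.H92.EH.e (n * (-((bs : ℝ) / c))) := by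
    intro n
    rw [swk2_ee]
    have h1 : (n : ℝ) * b / c = n * (-((bs : ℝ) / c)) + ((n * k : ℤ) : ℝ) := by
      rw [hbR]
      push_cast
      field_simp
      ring
    rw [h1, Pool.Agent.H92.EH.e_add_int]
  -- expand
  set m : ℕ → ℂ := fun d => (((ArithmeticFunction.moebius d : ℝ) / (d.totient : ℝ) : ℝ) : ℂ)
    with hm
  have hexp : (∑ n ∈ Icc 1 y, ((lamR R n : ℝ) : ℂ) * ee ((n : ℝ) * b / c))
      = ∑ d ∈ Icc 1 R, m d * ∑ b' ∈ Pool.Agent.H92.EH.red d,
          ∑ n ∈ Icc 1 y, Pool.Agent.H92.EH.e (n * ((b' : ℝ) / d - (bs : ℝ) / c)) := by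
    calc (∑ n ∈ Icc 1 y, ((lamR R n : ℝ) : ℂ) * ee ((n : ℝ) * b / c))
        = ∑ n ∈ Icc 1 y, ∑ d ∈ Icc 1 R, m d * ∑ b' ∈ Pool.Agent.H92.EH.red d,
            Pool.Agent.H92.EH.e (n * ((b' : ℝ) / d - (bs : ℝ) / c)) := by
          apply sum_congr rfl
          intro n _
          rw [swk2_lamR, hee, sum_mul]
          apply sum_congr rfl
          intro d _
          rw [mul_assoc, sum_mul]
          congr 1
          apply sum_congr rfl
          intro b' _
          rw [← Pool.Agent.H92.EH.e_add]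
          congr 1
          ring
      _ = ∑ d ∈ Icc 1 R, m d * ∑ n ∈ Icc 1 y, ∑ b' ∈ Pool.Agent.H92.EH.red d,
            Pool.Agent.H92.EH.e (n * ((b' : ℝ) / d - (bs : ℝ) / c)) := by
          rw [sum_comm]
          apply sum_congr rfl
          intro d _
          rw [mul_sum]
      _ = _ := by
          apply sum_congr rfl
          intro d _
          rw [sum_comm]
  have hR1 : (1 : ℝ) ≤ R := by exact_mod_cast hc.trans hcR
  have hcR' : (c : ℝ) ≤ R := by exact_mod_cast hcR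
  -- difference as a sum
  have hdiff : (∑ n ∈ Icc 1 y, ((lamR R n : ℝ) : ℂ) * ee ((n : ℝ) * b / c))
      - (((ArithmeticFunction.moebius c : ℝ) / (c.totient : ℝ) * y : ℝ) : ℂ)
      = ∑ d ∈ Icc 1 R, m d * ∑ b' ∈ Pool.Agent.H92.EH.red d,
          (if d = c ∧ b' = bs then 0 else
            ∑ n ∈ Icc 1 y, Pool.Agent.H92.EH.e (n * ((b' : ℝ) / d - (bs : ℝ) / c))) := by
    rw [hexp, sub_eq_iff_eq_add]
    have hmain : (((ArithmeticFunction.moebius c : ℝ) / (c.totient : ℝ) * y : ℝ) : ℂ)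
        = ∑ d ∈ Icc 1 R, m d * ∑ b' ∈ Pool.Agent.H92.EH.red d,
          (if d = c ∧ b' = bs then (y : ℂ) else 0) := by
      rw [sum_eq_single_of_mem c (mem_Icc.mpr ⟨hc, hcR⟩)]
      · rw [sum_eq_single_of_mem bs hbs]
        · rw [if_pos ⟨rfl, rfl⟩, hm]
          push_cast
          ring
        · intro b' _ hne
          rw [if_neg]
          rintro ⟨_, h⟩
          exact hne h
      · intro d _ hne
        rw [sum_eq_zero, mul_zero]
        intro b' _
        rw [if_neg]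
        rintro ⟨h, _⟩
        exact hne h
    rw [hmain, ← sum_add_distrib]
    apply sum_congr rfl
    intro d _
    rw [← mul_add, ← sum_add_distrib]
    congr 1
    apply sum_congr rfl
    intro b' _
    by_cases h : d = c ∧ b' = bs
    · rw [if_pos h, if_pos h, h.1, h.2, zero_add]
      simp [Pool.Agent.H92.EH.e_zero]
    · rw [if_neg h, if_neg h, add_zero]
  rw [hdiff]
  have hterm : ∀ d ∈ Icc 1 R, ‖m d * ∑ b' ∈ Pool.Agent.H92.EH.red d,
          (if d = c ∧ b' = bs then 0 else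
            ∑ n ∈ Icc 1 y, Pool.Agent.H92.EH.e (n * ((b' : ℝ) / d - (bs : ℝ) / c)))‖
      ≤ (R : ℝ) ^ 2 := by
    intro d hd
    rw [mem_Icc] at hd
    have hdpos : (0 : ℝ) < d := by exact_mod_cast hd.1
    have hdR : (d : ℝ) ≤ R := by exact_mod_cast hd.2
    have htot : (0 : ℝ) < (d.totient : ℝ) := by
      exact_mod_cast Nat.totient_pos.mpr hd.1
    have hmd : ‖m d‖ ≤ 1 / (d.totient : ℝ) := by
      rw [hm]
      simp only
      rw [Complex.norm_real, Real.norm_eq_abs, abs_div, abs_of_pos htot]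
      apply div_le_div_of_nonneg_right _ htot.le
      exact_mod_cast ArithmeticFunction.abs_moebius_le_one
    have hin : ‖∑ b' ∈ Pool.Agent.H92.EH.red d,
          (if d = c ∧ b' = bs then (0 : ℂ) else
            ∑ n ∈ Icc 1 y, Pool.Agent.H92.EH.e (n * ((b' : ℝ) / d - (bs : ℝ) / c)))‖
        ≤ (d.totient : ℝ) * (R : ℝ) ^ 2 := by
      refine (norm_sum_le _ _).trans ?_
      have : ∀ b' ∈ Pool.Agent.H92.EH.red d, ‖(if d = c ∧ b' = bs then (0 : ℂ) else
            ∑ n ∈ Icc 1 y, Pool.Agent.H92.EH.e (n * ((b' : ℝ) / d - (bs : ℝ) / c)))‖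
            ≤ (R : ℝ) ^ 2 := by
        intro b' hb'
        split_ifs with h
        · rw [norm_zero]; positivity
        · have hsp := Pool.Agent.H92.EH.farey_spacing (by omega : 0 < d) (by omega : 0 < c)
            hb' hbs h
          have hg := swk2_geom y ((b' : ℝ) / d - (bs : ℝ) / c) (1 / ((d : ℝ) * c))
            (by positivity) hsp
          refine hg.trans ?_
          have : 1 / (2 * (1 / ((d : ℝ) * c))) = (d : ℝ) * c / 2 := by
            field_simp
          rw [this]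
          nlinarith
      refine (sum_le_sum this).trans ?_
      rw [sum_const, nsmul_eq_mul, Pool.Agent.H92.EH.card_red]
    rw [norm_mul]
    calc ‖m d‖ * _ ≤ (1 / (d.totient : ℝ)) * ((d.totient : ℝ) * (R : ℝ) ^ 2) :=
          mul_le_mul hmd hin (norm_nonneg _) (by positivity)
      _ = (R : ℝ) ^ 2 := by field_simp
  refine (norm_sum_le _ _).trans ((sum_le_sum hterm).trans ?_)
  rw [sum_const, nsmul_eq_mul, Nat.card_Icc, Nat.add_sub_cancel]
  nlinarith [pow_le_pow_right₀ hR1 (show 3 ≤ 4 by norm_num)]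

end Pool.Agent.H91.EHA

end

section

/-!
# WL Sel1: Selberg's function

* `ps_eq`: `ramS h n = ∑_{s | (h,n)} s μ(h/s)`; interchange the sums (`s | h` and `(h,q) = 1` imply
  `(s,q) = 1`, `s ≤ h ≤ D`).
* `ls_le`: `|μ| ≤ 1`, `φ ≥ 1`, and at most `D/s` multiples `l ≤ D` of `s`.
* `ps_pp`: if `Λ(n) ≠ 0` then `n` is a power of the prime `n.minFac > D`, so `(h, n) = 1` for all `h ≤ D`
  and `ramS h n = μ(h)`.
* `gs_one_le`: the term `h = 1`.
-/

set_option autoImplicit false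

namespace Pool.Agent.H87.WL

open Finset
open Pool.Agent.H91.EHA (Lam lamR hR ramS psiA err)

theorem ps_eq (D q n : ℕ) :
    Ps D q n = ∑ s ∈ (Icc 1 D).filter (fun s => Nat.Coprime s q ∧ s ∣ n), ls D q s := by
  unfold Ps ls ramS
  simp only [Finset.mul_sum]
  rw [Finset.sum_comm' (s := (Icc 1 D).filter (fun h => Nat.Coprime h q))
    (t := fun h => (Nat.gcd h n).divisors)
    (t' := (Icc 1 D).filter (fun s => Nat.Coprime s q ∧ s ∣ n))
    (s' := fun s => (Icc 1 D).filter (fun l => Nat.Coprime l q ∧ s ∣ l))]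
  · refine sum_congr rfl fun s hs => sum_congr rfl fun l hl => ?_
    unfold mo
    ring
  · intro h s
    simp only [mem_filter, mem_Icc, Nat.mem_divisors]
    constructor
    · rintro ⟨⟨⟨h1, h2⟩, h3⟩, h4, h5⟩
      have h6 : s ∣ h := h4.trans (Nat.gcd_dvd_left h n)
      have h7 : s ∣ n := h4.trans (Nat.gcd_dvd_right h n)
      have h8 : 0 < s := Nat.pos_of_dvd_of_pos h6 h1
      have h9 : s ≤ h := Nat.le_of_dvd h1 h6
      exact ⟨⟨⟨h1, h2⟩, h3, h6⟩, ⟨h8, h9.trans h2⟩, Nat.Coprime.coprime_dvd_left h6 h3, h7⟩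
    · rintro ⟨⟨⟨h1, h2⟩, h3, h6⟩, ⟨h8, h9⟩, h10, h7⟩
      refine ⟨⟨⟨h1, h2⟩, h3⟩, Nat.dvd_gcd h6 h7, ?_⟩
      intro h0
      have := Nat.eq_zero_of_gcd_eq_zero_left h0
      omega

private theorem sel1_mo_le (n : ℕ) : |mo n| ≤ 1 := by
  unfold mo
  have h := ArithmeticFunction.abs_moebius_le_one (n := n)
  have h2 : ((|ArithmeticFunction.moebius n| : ℤ) : ℝ) ≤ ((1 : ℤ) : ℝ) := by exact_mod_cast h
  rw [Int.cast_abs, Int.cast_one] at h2
  exact h2

theorem ls_le (D q s : ℕ) (hs : 1 ≤ s) : |ls D q s| ≤ D := by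
  have hs' : (0 : ℝ) < (s : ℝ) := by exact_mod_cast hs
  unfold ls
  rw [abs_mul, abs_of_pos hs']
  have hcard : ((Icc 1 D).filter (fun l => Nat.Coprime l q ∧ s ∣ l)).card ≤ D / s := by
    rw [← Nat.Ioc_filter_dvd_card_eq_div]
    apply card_le_card
    intro l hl
    rw [mem_filter, mem_Icc] at hl
    rw [mem_filter, mem_Ioc]
    exact ⟨⟨by omega, hl.1.2⟩, hl.2.2⟩
  have h1 : |∑ l ∈ (Icc 1 D).filter (fun l => Nat.Coprime l q ∧ s ∣ l),
      mo (l / s) * mo l / (l.totient : ℝ)| ≤ ((D / s : ℕ) : ℝ) := by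
    refine (abs_sum_le_sum_abs _ _).trans ?_
    refine (sum_le_card_nsmul _ _ 1 ?_).trans ?_
    · intro l hl
      rw [mem_filter, mem_Icc] at hl
      rw [abs_div, abs_mul]
      have h2 := sel1_mo_le (l / s)
      have h3 := sel1_mo_le l
      have h4 : (1 : ℝ) ≤ (l.totient : ℝ) := by
        exact_mod_cast Nat.totient_pos.2 hl.1.1
      rw [Nat.abs_cast, div_le_one (by linarith)]
      have h5 : |mo (l / s)| * |mo l| ≤ 1 * 1 :=
        mul_le_mul h2 h3 (abs_nonneg _) (by norm_num)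
      linarith
    · rw [nsmul_eq_mul, mul_one]
      exact_mod_cast hcard
  calc (s : ℝ) * |∑ l ∈ (Icc 1 D).filter (fun l => Nat.Coprime l q ∧ s ∣ l),
      mo (l / s) * mo l / (l.totient : ℝ)| ≤ (s : ℝ) * ((D / s : ℕ) : ℝ) :=
        mul_le_mul_of_nonneg_left h1 hs'.le
    _ ≤ (D : ℝ) := by exact_mod_cast Nat.mul_div_le D s

theorem ps_pp (D q n : ℕ) (hn : Lam n ≠ 0) (hD : D < n.minFac) : Ps D q n = Gs D q := by
  unfold Ps Gs
  refine sum_congr rfl fun h hh => ?_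
  rw [mem_filter, mem_Icc] at hh
  have hco : Nat.gcd h n = 1 := by
    by_contra hne
    obtain ⟨r, hr, hrd⟩ := Nat.exists_prime_and_dvd hne
    have h1 : r ∣ h := hrd.trans (Nat.gcd_dvd_left h n)
    have h2 : r ∣ n := hrd.trans (Nat.gcd_dvd_right h n)
    have h3 : n.minFac ≤ r := Nat.minFac_le_of_dvd hr.two_le h2
    have h4 : r ≤ h := Nat.le_of_dvd hh.1.1 h1
    omega
  unfold ramS
  rw [hco, Nat.divisors_one, sum_singleton, Nat.div_one, Nat.cast_one, one_mul]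
  unfold mo
  ring

theorem gs_one_le (D q : ℕ) (hD : 1 ≤ D) : 1 ≤ Gs D q := by
  unfold Gs
  have h1 : (1 : ℕ) ∈ (Icc 1 D).filter (fun h => Nat.Coprime h q) := by
    rw [mem_filter, mem_Icc]
    exact ⟨⟨le_rfl, hD⟩, Nat.coprime_one_left q⟩
  have h2 : ∀ h ∈ (Icc 1 D).filter (fun h => Nat.Coprime h q), 0 ≤ mo h ^ 2 / (h.totient : ℝ) :=
    fun h _ => by positivity
  have h3 := single_le_sum h2 h1
  have h4 : mo 1 ^ 2 / ((1 : ℕ).totient : ℝ) = 1 := by
    unfold mo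
    simp
  rw [h4] at h3
  exact h3

end Pool.Agent.H87.WL

end

section

/-!
# WL Sel2: second moment of Selberg's function in a progression

`k = d k'`, `k' ≤ K/d` (integer part). By `ps_eq`
`∑_{k'} Ψ(a+qdk')² = ∑_{s,t ≤ D, (st,q)=1} λ_s λ_t #{k' ≤ K/d : lcm(s,t) | a + q d k'}`.
Since `(a, qd) = 1`, the count is `0` if `(st, qd) > 1` (a common prime of `s` (or `t`) and `qd` would
divide `a`), and otherwise it is within `1` of `⌊K/d⌋/lcm(s,t)`, hence within `2` of `(K/d)/lcm(s,t)`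
(one class modulo `lcm(s,t)`, because `qd` is invertible modulo `lcm(s,t)`). `|λ_s| ≤ D` gives the
error `2 D^4`.
-/

set_option autoImplicit false

namespace Pool.Agent.H87.WL

open Finset
open Pool.Agent.H91.EHA (Lam lamR hR ramS psiA err)

/-- one residue class -/
private theorem sel2_count (M L v : ℕ) (hL : 1 ≤ L) :
    |((((Icc 1 M).filter (fun k => k ≡ v [MOD L])).card : ℕ) : ℝ) - (M : ℝ) / L| ≤ 1 := by
  have hI : Icc 1 M = Ioc 0 M := by ext k; simp [mem_Icc, mem_Ioc, Nat.lt_iff_add_one_le]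
  have hL0 : (0 : ℚ) < L := by exact_mod_cast hL
  have h1 := Nat.Ioc_filter_modEq_card 0 M (r := L) hL v
  rw [hI]
  set N : ℕ := ((Ioc 0 M).filter (fun k => k ≡ v [MOD L])).card with hN
  have h2 := Int.floor_le (((M : ℚ) - v) / L)
  have h3 := Int.lt_floor_add_one (((M : ℚ) - v) / L)
  have h4 := Int.floor_le ((((0 : ℕ) : ℚ) - v) / L)
  have h5 := Int.lt_floor_add_one ((((0 : ℕ) : ℚ) - v) / L)
  have h6 : ((M : ℚ) - v) / L = M / L + (((0 : ℕ) : ℚ) - v) / L := by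
    push_cast
    field_simp
    ring
  have hM0 : (0 : ℚ) ≤ (M : ℚ) / L := by positivity
  have key : |((N : ℚ)) - (M : ℚ) / L| ≤ 1 := by
    have h7 : ((N : ℤ) : ℚ) = max ((⌊((M : ℚ) - v) / L⌋ : ℚ) - (⌊(((0 : ℕ) : ℚ) - v) / L⌋ : ℚ)) 0 := by
      rw [h1]; push_cast; rfl
    have h8 : ((N : ℤ) : ℚ) = (N : ℚ) := by push_cast; rfl
    rw [← h8, h7, abs_le]
    rcases le_total ((⌊((M : ℚ) - v) / L⌋ : ℚ) - (⌊(((0 : ℕ) : ℚ) - v) / L⌋ : ℚ)) 0 with h9 | h9
    · rw [max_eq_right h9]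
      constructor <;> linarith only [h3, h4, h6, h9, hM0]
    · rw [max_eq_left h9]
      constructor <;> linarith only [h3, h4, h6, h2, h5]
  have h10 : ((|((N : ℚ)) - (M : ℚ) / L| : ℚ) : ℝ) ≤ ((1 : ℚ) : ℝ) := by exact_mod_cast key
  push_cast at h10
  exact h10

/-- the number of `k ≤ K`, `d ∣ k`, with `s, t ∣ a + q k` -/
private def sel2N (q a d K s t : ℕ) : ℕ :=
  ((Icc 1 K).filter (fun k => d ∣ k ∧ s ∣ a + q * k ∧ t ∣ a + q * k)).card

private theorem sel2_cop (q a d K s t : ℕ) (hd : 1 ≤ d) (hs : 1 ≤ s) (ht : 1 ≤ t)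
    (hs' : Nat.Coprime s (q * d)) (ht' : Nat.Coprime t (q * d)) :
    |(sel2N q a d K s t : ℝ) - (K : ℝ) / d / (Nat.lcm s t : ℝ)| ≤ 2 := by
  set L := Nat.lcm s t with hLdef
  have hL : 1 ≤ L := Nat.pos_of_ne_zero (Nat.lcm_ne_zero (by omega) (by omega))
  have : NeZero L := ⟨by omega⟩
  have hLc : Nat.Coprime (q * d) L := by
    have h1 : L ∣ s * t := Nat.lcm_dvd_mul s t
    exact (Nat.Coprime.coprime_dvd_left h1 (Nat.Coprime.mul_left hs' ht')).symm
  obtain ⟨w, hw⟩ := (ZMod.isUnit_iff_coprime (q * d) L).2 hLc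
  set v : ℕ := ((-(a : ZMod L)) * ((w⁻¹ : (ZMod L)ˣ) : ZMod L)).val with hv
  have hvc : (v : ZMod L) = (-(a : ZMod L)) * ((w⁻¹ : (ZMod L)ˣ) : ZMod L) := by
    rw [hv, ZMod.natCast_zmod_val]
  have hiff : ∀ k' : ℕ, L ∣ a + q * (d * k') ↔ k' ≡ v [MOD L] := by
    intro k'
    rw [← ZMod.natCast_eq_zero_iff, ← ZMod.natCast_eq_natCast_iff]
    have h1 : ((a + q * (d * k') : ℕ) : ZMod L) = (a : ZMod L) + (w : ZMod L) * (k' : ZMod L) := by
      rw [hw]; push_cast; ring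
    rw [h1, hvc]
    constructor
    · intro h
      have h2 : (w : ZMod L) * (k' : ZMod L) = -(a : ZMod L) := by
        linear_combination h
      calc (k' : ZMod L) = ((w⁻¹ : (ZMod L)ˣ) : ZMod L) * ((w : ZMod L) * (k' : ZMod L)) := by
            rw [← mul_assoc, Units.inv_mul, one_mul]
        _ = -(a : ZMod L) * ((w⁻¹ : (ZMod L)ˣ) : ZMod L) := by rw [h2]; ring
    · intro h
      rw [h]
      have h2 : (w : ZMod L) * ((w⁻¹ : (ZMod L)ˣ) : ZMod L) = 1 := Units.mul_inv w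
      linear_combination (-(a : ZMod L)) * h2
  have hcard : sel2N q a d K s t = ((Icc 1 (K / d)).filter (fun k' => k' ≡ v [MOD L])).card := by
    unfold sel2N
    have himg : (Icc 1 K).filter (fun k => d ∣ k ∧ s ∣ a + q * k ∧ t ∣ a + q * k)
        = ((Icc 1 (K / d)).filter (fun k' => k' ≡ v [MOD L])).image (fun k' => d * k') := by
      ext k
      simp only [mem_filter, mem_Icc, mem_image]
      constructor
      · rintro ⟨⟨h1, h2⟩, ⟨k', rfl⟩, h4, h5⟩
        refine ⟨k', ⟨⟨Nat.pos_of_ne_zero ?_, ?_⟩, ?_⟩, rfl⟩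
        · rintro rfl
          simp at h1
        · rw [Nat.le_div_iff_mul_le (by omega), mul_comm]
          exact h2
        · exact (hiff k').1 (Nat.lcm_dvd h4 h5)
      · rintro ⟨k', ⟨⟨h1, h2⟩, h3⟩, rfl⟩
        have h4 := (hiff k').2 h3
        refine ⟨⟨Nat.mul_pos (by omega) h1, ?_⟩, Dvd.intro _ rfl, (Nat.dvd_lcm_left s t).trans h4,
          (Nat.dvd_lcm_right s t).trans h4⟩
        rw [Nat.le_div_iff_mul_le (by omega), mul_comm] at h2
        exact h2
    rw [himg, card_image_of_injective]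
    intro x y hxy
    exact Nat.eq_of_mul_eq_mul_left (by omega) hxy
  have h1 := sel2_count (K / d) L v hL
  rw [← hcard] at h1
  have hd0 : (0 : ℝ) < d := by exact_mod_cast hd
  have hL0 : (1 : ℝ) ≤ L := by exact_mod_cast hL
  have h2 : ((K / d : ℕ) : ℝ) ≤ (K : ℝ) / d := Nat.cast_div_le
  have h3 : (K : ℝ) / d ≤ ((K / d : ℕ) : ℝ) + 1 := by
    rw [div_le_iff₀ hd0]
    have h4 : K ≤ (K / d + 1) * d := by
      have := Nat.div_add_mod K d
      have := Nat.mod_lt K (show 0 < d by omega)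
      nlinarith
    exact_mod_cast h4
  have h5 : ((K / d : ℕ) : ℝ) / L ≤ (K : ℝ) / d / L := by gcongr
  have h6 : (K : ℝ) / d / L ≤ ((K / d : ℕ) : ℝ) / L + 1 := by
    calc (K : ℝ) / d / L ≤ (((K / d : ℕ) : ℝ) + 1) / L := by gcongr
      _ = ((K / d : ℕ) : ℝ) / L + 1 / L := by ring
      _ ≤ ((K / d : ℕ) : ℝ) / L + 1 := by
        have : 1 / (L : ℝ) ≤ 1 := by rw [div_le_one (by linarith only [hL0])]; exact hL0
        linarith only [this]
  rw [abs_le] at h1 ⊢
  constructor <;> linarith only [h1, h6, h5, h1.1, h1.2]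

private theorem sel2_zero (q a d K s t : ℕ) (ha : Nat.Coprime a (q * d))
    (h : ¬ (Nat.Coprime s (q * d) ∧ Nat.Coprime t (q * d))) : sel2N q a d K s t = 0 := by
  unfold sel2N
  rw [card_eq_zero, filter_eq_empty_iff]
  rintro k - ⟨hdk, hs, ht⟩
  have key : ∀ r : ℕ, r ∣ a + q * k → Nat.Coprime r (q * d) := by
    intro r hr
    by_contra hcon
    obtain ⟨p, hp, hpr, hpqd⟩ := Nat.Prime.not_coprime_iff_dvd.1 hcon
    have h1 : p ∣ a + q * k := hpr.trans hr
    have h2 : p ∣ q * k := hpqd.trans (Nat.mul_dvd_mul_left q hdk)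
    have h3 : p ∣ a := (Nat.dvd_add_iff_left h2).2 h1
    exact Nat.Prime.not_coprime_iff_dvd.2 ⟨p, hp, h3, hpqd⟩ ha
  exact h ⟨key s hs, key t ht⟩

theorem td_qf (D q a d K : ℕ) (hq : 1 ≤ q) (hd : 1 ≤ d) (ha : Nat.Coprime a (q * d)) :
    |Td D q a d K - (K : ℝ) / d * Qf D q d| ≤ 2 * (D : ℝ) ^ 4 := by
  classical
  -- expand `Td`
  have hT : Td D q a d K = ∑ s ∈ Icc 1 D, ∑ t ∈ Icc 1 D,
      if Nat.Coprime s q ∧ Nat.Coprime t q then
        ls D q s * ls D q t * (sel2N q a d K s t : ℝ) else 0 := by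
    unfold Td
    have h1 : ∀ n : ℕ, Ps D q n ^ 2 = ∑ s ∈ Icc 1 D, ∑ t ∈ Icc 1 D,
        (if Nat.Coprime s q ∧ s ∣ n then ls D q s else 0) *
          (if Nat.Coprime t q ∧ t ∣ n then ls D q t else 0) := by
      intro n
      rw [ps_eq, sum_filter, sq, sum_mul_sum]
    simp_rw [h1]
    rw [sum_comm]
    refine sum_congr rfl fun s _ => ?_
    rw [sum_comm]
    refine sum_congr rfl fun t _ => ?_
    split_ifs with hst
    · have h2 : ∀ k ∈ (Icc 1 K).filter (fun k => d ∣ k),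
          (if Nat.Coprime s q ∧ s ∣ a + q * k then ls D q s else 0) *
            (if Nat.Coprime t q ∧ t ∣ a + q * k then ls D q t else 0)
          = if s ∣ a + q * k ∧ t ∣ a + q * k then ls D q s * ls D q t else 0 := by
        intro k _
        have e1 : (Nat.Coprime s q ∧ s ∣ a + q * k) ↔ s ∣ a + q * k := and_iff_right hst.1
        have e2 : (Nat.Coprime t q ∧ t ∣ a + q * k) ↔ t ∣ a + q * k := and_iff_right hst.2
        rw [if_congr e1 rfl rfl, if_congr e2 rfl rfl]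
        by_cases h3 : s ∣ a + q * k
        · by_cases h4 : t ∣ a + q * k
          · simp only [h3, h4, and_self, if_true]
          · simp only [h3, h4, and_false, if_true, if_false, mul_zero]
        · simp only [h3, false_and, if_false, zero_mul]
      rw [sum_congr rfl h2, ← sum_filter, sum_const, nsmul_eq_mul, filter_filter, mul_comm]
      rfl
    · refine sum_eq_zero fun k _ => ?_
      rcases not_and_or.1 hst with h3 | h3
      · simp [h3]
      · simp [h3]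
  have hQ : (K : ℝ) / d * Qf D q d = ∑ s ∈ Icc 1 D, ∑ t ∈ Icc 1 D,
      if Nat.Coprime s (q * d) ∧ Nat.Coprime t (q * d) then
        ls D q s * ls D q t * ((K : ℝ) / d / (Nat.lcm s t : ℝ)) else 0 := by
    unfold Qf
    rw [sum_filter, mul_sum]
    refine sum_congr rfl fun s _ => ?_
    by_cases h3 : Nat.Coprime s (q * d)
    · rw [if_pos h3, sum_filter, mul_sum]
      refine sum_congr rfl fun t _ => ?_
      by_cases h4 : Nat.Coprime t (q * d)
      · rw [if_pos h4, if_pos ⟨h3, h4⟩]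
        ring
      · rw [if_neg h4, if_neg (fun h => h4 h.2), mul_zero]
    · rw [if_neg h3, mul_zero]
      symm
      exact sum_eq_zero fun t _ => if_neg (fun h => h3 h.1)
  rw [hT, hQ, ← sum_sub_distrib]
  simp_rw [← sum_sub_distrib]
  have hterm : ∀ s ∈ Icc 1 D, ∀ t ∈ Icc 1 D,
      |(if Nat.Coprime s q ∧ Nat.Coprime t q then
        ls D q s * ls D q t * (sel2N q a d K s t : ℝ) else 0)
        - (if Nat.Coprime s (q * d) ∧ Nat.Coprime t (q * d) then
        ls D q s * ls D q t * ((K : ℝ) / d / (Nat.lcm s t : ℝ)) else 0)| ≤ 2 * (D : ℝ) ^ 2 := by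
    intro s hs t ht
    rw [mem_Icc] at hs ht
    have hls := ls_le D q s hs.1
    have hlt := ls_le D q t ht.1
    have hD0 : (0 : ℝ) ≤ D := Nat.cast_nonneg D
    have hprod : |ls D q s * ls D q t| ≤ (D : ℝ) ^ 2 := by
      rw [abs_mul, sq]
      exact mul_le_mul hls hlt (abs_nonneg _) hD0
    by_cases h1 : Nat.Coprime s (q * d) ∧ Nat.Coprime t (q * d)
    · have h2 : Nat.Coprime s q ∧ Nat.Coprime t q :=
        ⟨Nat.Coprime.coprime_mul_right_right h1.1, Nat.Coprime.coprime_mul_right_right h1.2⟩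
      rw [if_pos h1, if_pos h2, ← mul_sub, abs_mul]
      have h3 := sel2_cop q a d K s t hd hs.1 ht.1 h1.1 h1.2
      calc |ls D q s * ls D q t| * |(sel2N q a d K s t : ℝ) - (K : ℝ) / d / (Nat.lcm s t : ℝ)|
          ≤ (D : ℝ) ^ 2 * 2 := mul_le_mul hprod h3 (abs_nonneg _) (by positivity)
        _ = 2 * (D : ℝ) ^ 2 := by ring
    · rw [if_neg h1, sel2_zero q a d K s t ha h1]
      simp only [Nat.cast_zero, mul_zero, ite_self, sub_zero, abs_zero]
      positivity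
  calc |∑ s ∈ Icc 1 D, ∑ t ∈ Icc 1 D, _| ≤ ∑ s ∈ Icc 1 D, ∑ t ∈ Icc 1 D, 2 * (D : ℝ) ^ 2 := by
        refine (abs_sum_le_sum_abs _ _).trans (sum_le_sum fun s hs => ?_)
        exact (abs_sum_le_sum_abs _ _).trans (sum_le_sum fun t ht => hterm s hs t ht)
    _ = 2 * (D : ℝ) ^ 4 := by
        simp only [sum_const, Nat.card_Icc, nsmul_eq_mul, Nat.add_sub_cancel]
        ring

end Pool.Agent.H87.WL

end

section

/-!
# WL Sel3: diagonalization of the quadratic form

For `(st, qd) = 1`: `1/lcm(s,t) = gcd(s,t)/(st) = ∑_{l | s, l | t} φ(l)/(st)` (`Nat.sum_totient`), so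
`Qf D q d = ∑_{l ≤ D, (l,qd)=1} φ(l) (∑_{s ≤ D, (s,qd)=1, l | s} λ_s/s)²`.
With `λ_s/s = ∑_{m ≤ D, (m,q)=1, s | m} μ(m/s) μ(m)/φ(m)` the inner sum is
`∑_{m ≤ D, (m,q)=1} μ(m)/φ(m) ∑_{s : l | s | m, (s,d)=1} μ(m/s)`. Only squarefree `m` with `l | m` count. Write
`m = l m₁ e` with `e = (m, d)` (`(l,d)=1`), `s = l s₁`, `s₁ | m₁`: `∑_{s₁ | m₁} μ(m₁ e/s₁) = μ(e) [m₁ = 1]`.
So the inner sum is `∑_{e | d, l e ≤ D} μ(l e) μ(e)/φ(l e) = μ(l)/φ(l) Ad d (D/l)`
(`d` squarefree is not needed: `μ(e)²` takes care of it; `(e, q) = 1` holds because `(d,q) = 1`;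
`l e ≤ D` iff `e ≤ D/l` (integer part)).
-/

set_option autoImplicit false

namespace Pool.Agent.H87.WL

open Finset
open Pool.Agent.H91.EHA (Lam lamR hR ramS psiA err)

private lemma sel3_sum_mu (n : ℕ) :
    ∑ i ∈ n.divisors, ArithmeticFunction.moebius i = if n = 1 then 1 else 0 := by
  rw [← ArithmeticFunction.coe_mul_zeta_apply, ArithmeticFunction.moebius_mul_coe_zeta,
    ArithmeticFunction.one_apply]

private lemma sel3_convZ (d n : ℕ) (hd : d ≠ 0) :
    ∑ s ∈ n.divisors, ArithmeticFunction.moebius (n / s) * (if Nat.Coprime s d then 1 else 0) =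
      if n ∣ d then ArithmeticFunction.moebius n else 0 := by
  classical
  let g : ArithmeticFunction ℤ := ⟨fun k => if k ∣ d then ArithmeticFunction.moebius k else 0, by simp⟩
  have hg : ∀ k, g k = if k ∣ d then ArithmeticFunction.moebius k else 0 := fun k => rfl
  have hz : ∀ s, s ≠ 0 → (g * (ArithmeticFunction.zeta : ArithmeticFunction ℤ)) s =
      if Nat.Coprime s d then 1 else 0 := by
    intro s hs
    rw [ArithmeticFunction.coe_mul_zeta_apply]
    simp only [hg]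
    rw [← Finset.sum_filter]
    have h1 : s.divisors.filter (fun i => i ∣ d) = (Nat.gcd s d).divisors := by
      ext i
      simp only [Finset.mem_filter, Nat.mem_divisors, Nat.dvd_gcd_iff]
      constructor
      · rintro ⟨⟨h1, _⟩, h2⟩
        exact ⟨⟨h1, h2⟩, Nat.gcd_ne_zero_left hs⟩
      · rintro ⟨⟨h1, h2⟩, _⟩
        exact ⟨⟨h1, hs⟩, h2⟩
    rw [h1, sel3_sum_mu _]
  have h2 : (ArithmeticFunction.moebius * (g * (ArithmeticFunction.zeta : ArithmeticFunction ℤ))) = g := by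
    rw [mul_left_comm, ArithmeticFunction.moebius_mul_coe_zeta, mul_one]
  have h3 : (ArithmeticFunction.moebius * (g * (ArithmeticFunction.zeta : ArithmeticFunction ℤ))) n = g n := by
    rw [h2]
  rw [ArithmeticFunction.mul_apply, hg] at h3
  rw [← h3]
  rw [Nat.sum_divisorsAntidiagonal' (f := fun i j => ArithmeticFunction.moebius i *
    (g * (ArithmeticFunction.zeta : ArithmeticFunction ℤ)) j)]
  refine Finset.sum_congr rfl fun s hs => ?_
  have hs0 : s ≠ 0 := by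
    rintro rfl
    exact (Nat.mem_divisors.1 hs).2 (Nat.eq_zero_of_zero_dvd (Nat.mem_divisors.1 hs).1)
  rw [hz s hs0]

private lemma sel3_conv (d n : ℕ) (hd : d ≠ 0) :
    ∑ s ∈ n.divisors.filter (fun s => Nat.Coprime s d), mo (n / s) =
      if n ∣ d then mo n else 0 := by
  have h := congrArg (fun z : ℤ => (z : ℝ)) (sel3_convZ d n hd)
  simp only [Int.cast_sum, Int.cast_mul] at h
  rw [Finset.sum_filter]
  have h1 : ((if n ∣ d then ArithmeticFunction.moebius n else 0 : ℤ) : ℝ) = if n ∣ d then mo n else 0 := by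
    split_ifs
    · rfl
    · simp
  rw [h1] at h
  rw [← h]
  refine Finset.sum_congr rfl fun s _ => ?_
  split_ifs
  · simp [mo]
  · simp

/-- the sum over `s` with `l | s | m` -/
private lemma sel3_inner (D q d l m : ℕ) (hd : d ≠ 0) (hl : Nat.Coprime l (q * d)) (hl0 : l ≠ 0)
    (hm1 : 1 ≤ m) (hmD : m ≤ D) (hmq : Nat.Coprime m q) :
    ∑ s ∈ (Icc 1 D).filter (fun s => Nat.Coprime s (q * d)),
      (if l ∣ s ∧ s ∣ m then mo (m / s) else 0) =
      if l ∣ m ∧ m / l ∣ d then mo (m / l) else 0 := by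
  have hld : Nat.Coprime l d := Nat.Coprime.coprime_mul_left_right hl
  by_cases hlm : l ∣ m
  · obtain ⟨n, rfl⟩ := hlm
    have hn0 : n ≠ 0 := by
      rintro rfl
      simp at hm1
    have hdiv : l * n / l = n := Nat.mul_div_cancel_left n (Nat.pos_of_ne_zero hl0)
    rw [hdiv]
    have h1 : (if l ∣ l * n ∧ n ∣ d then mo n else 0) = if n ∣ d then mo n else 0 := by
      simp
    rw [h1, ← sel3_conv d n hd, ← Finset.sum_filter]
    symm
    refine Finset.sum_bij (fun s1 _ => l * s1) ?_ ?_ ?_ ?_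
    · intro s1 hs1
      rw [Finset.mem_filter, Nat.mem_divisors] at hs1
      obtain ⟨⟨h2, _⟩, h3⟩ := hs1
      have h4 : l * s1 ∣ l * n := Nat.mul_dvd_mul_left l h2
      rw [Finset.mem_filter, Finset.mem_filter, Finset.mem_Icc]
      refine ⟨⟨⟨?_, ?_⟩, ?_⟩, Nat.dvd_mul_right l s1, h4⟩
      · exact Nat.pos_of_dvd_of_pos h4 hm1
      · exact (Nat.le_of_dvd hm1 h4).trans hmD
      · refine Nat.Coprime.mul_right ?_ ?_
        · exact Nat.Coprime.coprime_dvd_left h4 hmq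
        · exact Nat.Coprime.mul_left hld h3
    · intro a _ b _ hab
      exact Nat.eq_of_mul_eq_mul_left (Nat.pos_of_ne_zero hl0) hab
    · intro s hs
      rw [Finset.mem_filter, Finset.mem_filter, Finset.mem_Icc] at hs
      obtain ⟨⟨⟨h2, h3⟩, h4⟩, ⟨s1, rfl⟩, h6⟩ := hs
      refine ⟨s1, ?_, rfl⟩
      rw [Finset.mem_filter, Nat.mem_divisors]
      refine ⟨⟨Nat.dvd_of_mul_dvd_mul_left (Nat.pos_of_ne_zero hl0) h6, hn0⟩, ?_⟩
      exact Nat.Coprime.coprime_mul_left (Nat.Coprime.coprime_mul_left_right h4)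
    · intro s1 hs1
      rw [Nat.mul_div_mul_left _ _ (Nat.pos_of_ne_zero hl0)]
  · rw [if_neg (fun h => hlm h.1)]
    refine Finset.sum_eq_zero fun s _ => ?_
    rw [if_neg]
    rintro ⟨h1, h2⟩
    exact hlm (h1.trans h2)

private lemma sel3_I (D q d l : ℕ) (hd : d ≠ 0) (hdq : Nat.Coprime d q)
    (hl : Nat.Coprime l (q * d)) (hl0 : l ≠ 0) :
    ∑ s ∈ (Icc 1 D).filter (fun s => Nat.Coprime s (q * d)),
      (if l ∣ s then ls D q s / (s : ℝ) else 0) = mo l / (l.totient : ℝ) * Ad d (D / l) := by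
  have hlq : Nat.Coprime l q := Nat.Coprime.coprime_mul_right_right hl
  have hld : Nat.Coprime l d := Nat.Coprime.coprime_mul_left_right hl
  have hlpos : 0 < l := Nat.pos_of_ne_zero hl0
  have h1 : ∀ s ∈ (Icc 1 D).filter (fun s => Nat.Coprime s (q * d)),
      (if l ∣ s then ls D q s / (s : ℝ) else 0) =
      ∑ m ∈ (Icc 1 D).filter (fun m => Nat.Coprime m q),
        mo m / (m.totient : ℝ) * (if l ∣ s ∧ s ∣ m then mo (m / s) else 0) := by
    intro s hs
    rw [Finset.mem_filter, Finset.mem_Icc] at hs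
    have hs0 : (s : ℝ) ≠ 0 := by
      have : s ≠ 0 := by omega
      exact_mod_cast this
    split_ifs with h
    · unfold ls
      rw [mul_div_assoc, mul_comm, div_mul_cancel₀ _ hs0]
      have e : (Icc 1 D).filter (fun l => Nat.Coprime l q ∧ s ∣ l) =
          ((Icc 1 D).filter (fun m => Nat.Coprime m q)).filter (fun m => s ∣ m) := by
        rw [Finset.filter_filter]
      rw [e, Finset.sum_filter]
      refine Finset.sum_congr rfl fun m _ => ?_
      by_cases hm : s ∣ m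
      · rw [if_pos hm, if_pos ⟨h, hm⟩]
        ring
      · rw [if_neg hm, if_neg (fun h' => hm h'.2), mul_zero]
    · symm
      refine Finset.sum_eq_zero fun m _ => ?_
      rw [if_neg (fun h' => h h'.1), mul_zero]
  rw [Finset.sum_congr rfl h1, Finset.sum_comm]
  simp only [← Finset.mul_sum]
  have h2 : ∀ m ∈ (Icc 1 D).filter (fun m => Nat.Coprime m q),
      mo m / (m.totient : ℝ) * ∑ s ∈ (Icc 1 D).filter (fun s => Nat.Coprime s (q * d)),
        (if l ∣ s ∧ s ∣ m then mo (m / s) else 0) =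
      if l ∣ m ∧ m / l ∣ d then mo m / (m.totient : ℝ) * mo (m / l) else 0 := by
    intro m hm
    rw [Finset.mem_filter, Finset.mem_Icc] at hm
    rw [sel3_inner D q d l m hd hl hl0 hm.1.1 hm.1.2 hm.2]
    split_ifs
    · rfl
    · rw [mul_zero]
  rw [Finset.sum_congr rfl h2, ← Finset.sum_filter]
  unfold Ad
  rw [Finset.mul_sum]
  symm
  refine Finset.sum_bij (fun e _ => l * e) ?_ ?_ ?_ ?_
  · intro e he
    rw [Finset.mem_filter, Nat.mem_divisors] at he
    obtain ⟨⟨h3, _⟩, h4⟩ := he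
    have he0 : 0 < e := Nat.pos_of_dvd_of_pos h3 (Nat.pos_of_ne_zero hd)
    rw [Finset.mem_filter, Finset.mem_filter, Finset.mem_Icc]
    refine ⟨⟨⟨Nat.mul_pos hlpos he0, ?_⟩, ?_⟩, Nat.dvd_mul_right l e, ?_⟩
    · rw [mul_comm]
      exact (Nat.le_div_iff_mul_le hlpos).1 h4
    · exact Nat.Coprime.mul_left hlq (Nat.Coprime.coprime_dvd_left h3 hdq)
    · rw [Nat.mul_div_cancel_left e hlpos]
      exact h3
  · intro a _ b _ hab
    exact Nat.eq_of_mul_eq_mul_left hlpos hab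
  · intro m hm
    rw [Finset.mem_filter, Finset.mem_filter, Finset.mem_Icc] at hm
    obtain ⟨⟨⟨h3, h4⟩, h5⟩, ⟨e, rfl⟩, h7⟩ := hm
    rw [Nat.mul_div_cancel_left e hlpos] at h7
    refine ⟨e, ?_, rfl⟩
    rw [Finset.mem_filter, Nat.mem_divisors]
    refine ⟨⟨h7, hd⟩, ?_⟩
    rw [Nat.le_div_iff_mul_le hlpos, mul_comm]
    exact h4
  · intro e he
    rw [Finset.mem_filter, Nat.mem_divisors] at he
    obtain ⟨⟨h3, _⟩, h4⟩ := he
    have hle : Nat.Coprime l e := Nat.Coprime.coprime_dvd_right h3 hld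
    rw [Nat.mul_div_cancel_left e hlpos, Nat.totient_mul hle]
    have hmo : mo (l * e) = mo l * mo e := by
      unfold mo
      rw [ArithmeticFunction.isMultiplicative_moebius.map_mul_of_coprime hle]
      push_cast
      ring
    rw [hmo]
    push_cast
    have he0 : 0 < e := Nat.pos_of_dvd_of_pos h3 (Nat.pos_of_ne_zero hd)
    have t1 : (l.totient : ℝ) ≠ 0 := by
      have := (Nat.totient_pos.2 hlpos).ne'
      exact_mod_cast this
    have t2 : (e.totient : ℝ) ≠ 0 := by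
      have := (Nat.totient_pos.2 he0).ne'
      exact_mod_cast this
    field_simp

private lemma sel3_lcm (D m s t : ℕ) (hs1 : 1 ≤ s) (hsD : s ≤ D) (hs : Nat.Coprime s m)
    (ht1 : 1 ≤ t) :
    (1 : ℝ) / (Nat.lcm s t : ℝ) = ∑ l ∈ (Icc 1 D).filter (fun l => Nat.Coprime l m),
      (if l ∣ s ∧ l ∣ t then (l.totient : ℝ) else 0) / ((s : ℝ) * (t : ℝ)) := by
  have hg : (Nat.gcd s t : ℝ) * (Nat.lcm s t : ℝ) = (s : ℝ) * (t : ℝ) := by
    have := Nat.gcd_mul_lcm s t
    exact_mod_cast this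
  have h0 : Nat.gcd s t ≠ 0 := Nat.gcd_ne_zero_left (by omega)
  have hs0 : (s : ℝ) ≠ 0 := by
    have : s ≠ 0 := by omega
    exact_mod_cast this
  have ht0 : (t : ℝ) ≠ 0 := by
    have : t ≠ 0 := by omega
    exact_mod_cast this
  have hl0 : (Nat.lcm s t : ℝ) ≠ 0 := by
    have : Nat.lcm s t ≠ 0 := Nat.lcm_ne_zero (by omega) (by omega)
    exact_mod_cast this
  rw [← Finset.sum_div]
  have h1 : ∑ l ∈ (Icc 1 D).filter (fun l => Nat.Coprime l m),
      (if l ∣ s ∧ l ∣ t then (l.totient : ℝ) else 0) = (Nat.gcd s t : ℝ) := by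
    rw [← Finset.sum_filter]
    have h2 : ((Icc 1 D).filter (fun l => Nat.Coprime l m)).filter (fun l => l ∣ s ∧ l ∣ t) =
        (Nat.gcd s t).divisors := by
      ext l
      rw [Finset.mem_filter, Finset.mem_filter, Finset.mem_Icc, Nat.mem_divisors, Nat.dvd_gcd_iff]
      constructor
      · rintro ⟨_, h3⟩
        exact ⟨h3, h0⟩
      · rintro ⟨h3, _⟩
        refine ⟨⟨⟨Nat.pos_of_dvd_of_pos h3.1 hs1, (Nat.le_of_dvd hs1 h3.1).trans hsD⟩, ?_⟩, h3⟩
        exact Nat.Coprime.coprime_dvd_left h3.1 hs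
    rw [h2, ← Nat.cast_sum, Nat.sum_totient]
  rw [h1, ← hg]
  have hgr : (Nat.gcd s t : ℝ) ≠ 0 := by exact_mod_cast h0
  field_simp

theorem qf_eq (D q d : ℕ) (hq : 1 ≤ q) (hd : 1 ≤ d) (hdq : Nat.Coprime d q) :
    Qf D q d = Sd D q d := by
  have hd0 : d ≠ 0 := by omega
  unfold Qf Sd
  have h1 : ∀ s ∈ (Icc 1 D).filter (fun s => Nat.Coprime s (q * d)),
      ∀ t ∈ (Icc 1 D).filter (fun t => Nat.Coprime t (q * d)),
      ls D q s * ls D q t / (Nat.lcm s t : ℝ) =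
      ∑ l ∈ (Icc 1 D).filter (fun l => Nat.Coprime l (q * d)), (l.totient : ℝ) *
        ((if l ∣ s then ls D q s / (s : ℝ) else 0) * (if l ∣ t then ls D q t / (t : ℝ) else 0)) := by
    intro s hs t ht
    rw [Finset.mem_filter, Finset.mem_Icc] at hs ht
    rw [div_eq_mul_one_div, sel3_lcm D (q * d) s t hs.1.1 hs.1.2 hs.2 ht.1.1, Finset.mul_sum]
    refine Finset.sum_congr rfl fun l _ => ?_
    by_cases a : l ∣ s
    · by_cases b : l ∣ t
      · rw [if_pos ⟨a, b⟩, if_pos a, if_pos b]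
        ring
      · rw [if_neg (fun h => b h.2), if_neg b]
        simp
    · rw [if_neg (fun h => a h.1), if_neg a]
      simp
  rw [Finset.sum_congr rfl fun s hs => Finset.sum_congr rfl fun t ht => h1 s hs t ht]
  have h2 : ∀ s ∈ (Icc 1 D).filter (fun s => Nat.Coprime s (q * d)),
      ∑ t ∈ (Icc 1 D).filter (fun t => Nat.Coprime t (q * d)),
      ∑ l ∈ (Icc 1 D).filter (fun l => Nat.Coprime l (q * d)), (l.totient : ℝ) *
        ((if l ∣ s then ls D q s / (s : ℝ) else 0) * (if l ∣ t then ls D q t / (t : ℝ) else 0)) =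
      ∑ l ∈ (Icc 1 D).filter (fun l => Nat.Coprime l (q * d)),
        ∑ t ∈ (Icc 1 D).filter (fun t => Nat.Coprime t (q * d)), (l.totient : ℝ) *
        ((if l ∣ s then ls D q s / (s : ℝ) else 0) * (if l ∣ t then ls D q t / (t : ℝ) else 0)) :=
    fun s _ => Finset.sum_comm
  rw [Finset.sum_congr rfl h2, Finset.sum_comm]
  refine Finset.sum_congr rfl fun l hl => ?_
  rw [Finset.mem_filter, Finset.mem_Icc] at hl
  have hl0 : l ≠ 0 := by omega
  have hI := sel3_I D q d l hd0 hdq hl.2 hl0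
  simp only [← Finset.mul_sum]
  rw [← Finset.sum_mul, hI]
  have t1 : (l.totient : ℝ) ≠ 0 := by
    have := (Nat.totient_pos.2 (Nat.pos_of_ne_zero hl0)).ne'
    exact_mod_cast this
  field_simp

end Pool.Agent.H87.WL

end

section

/-!
# WL Gl: the lower bound for `G`

`(q/φ(q)) ∑_{h ≤ D, (h,q)=1} μ(h)²/φ(h) ≥ ∑_{h ≤ D} μ(h)²/φ(h) ≥ ∑_{n ≤ D} 1/n ≥ log (D+1)`.
First inequality: `q/φ(q) = ∑_{e | q} μ(e)²/φ(e)`; the products `e h` are different (`e = (eh, q)`) and run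
through all squarefree numbers `≤ D` (among others). Second: `1/φ(h) = (1/h) ∏_{p | h} (1-1/p)^{-1}` is the
sum of `1/n` over all `n` with squarefree kernel `h`. (Compare, if useful, landed proofs for the large
sieve: grep for `totient` and `log` in Pool/Agent/H91/PK, Pool/Agent/H92/EH, Pool/Agent/H35/V1.)
-/

set_option autoImplicit false

namespace Pool.Agent.H87.WL

open Finset
open Pool.Agent.H91.EHA (Lam lamR hR ramS psiA err)

/-! ### The sum over the numbers with a given radical -/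

/-- the product of the primes dividing `n` but not `M` -/
def gl_rad (M n : ℕ) : ℕ := ∏ p ∈ n.primeFactors.filter (fun p => ¬ p ∣ M), p

theorem gl_rad_dvd (M n : ℕ) : gl_rad M n ∣ n :=
  (prod_dvd_prod_of_subset _ _ _ (filter_subset _ _)).trans (Nat.prod_primeFactors_dvd n)

theorem gl_sq (T : Finset ℕ) (hT : ∀ p ∈ T, p.Prime) : Squarefree (∏ p ∈ T, p) := by
  classical
  induction T using Finset.induction_on with
  | empty => simp
  | insert a T ha ih =>
    have ha' : a.Prime := hT a (mem_insert_self a T)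
    have hT' : ∀ p ∈ T, p.Prime := fun p hp => hT p (mem_insert_of_mem hp)
    have hcop : Nat.Coprime a (∏ p ∈ T, p) := by
      refine Nat.Coprime.prod_right ?_
      intro p hp
      rw [Nat.coprime_primes ha' (hT' p hp)]
      rintro rfl
      exact ha hp
    rw [prod_insert ha, Nat.squarefree_mul hcop]
    exact ⟨ha'.squarefree, ih hT'⟩

theorem gl_rad_sq (M n : ℕ) : Squarefree (gl_rad M n) :=
  gl_sq _ fun _ hp => Nat.prime_of_mem_primeFactors (mem_filter.1 hp).1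

theorem gl_rad_coprime (M n : ℕ) : Nat.Coprime (gl_rad M n) M := by
  refine Nat.Coprime.prod_left ?_
  intro p hp
  rw [mem_filter] at hp
  exact (Nat.Prime.coprime_iff_not_dvd (Nat.prime_of_mem_primeFactors hp.1)).2 hp.2

/-- the completely multiplicative function `1/n` -/
noncomputable def gl_inv : ℕ →* ℝ where
  toFun n := (n : ℝ)⁻¹
  map_one' := by simp
  map_mul' m n := by
    rw [Nat.cast_mul, mul_inv]

theorem gl_inv_apply (n : ℕ) : gl_inv n = (n : ℝ)⁻¹ := rfl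

theorem gl_tot (K : ℕ) (hK : K ≠ 0) :
    ∏ p ∈ K.primeFactors with p.Prime, (1 - gl_inv p)⁻¹ = (K : ℝ) / K.totient := by
  have h1 : (K.primeFactors.filter fun p => p.Prime) = K.primeFactors :=
    filter_true_of_mem fun p hp => Nat.prime_of_mem_primeFactors hp
  rw [h1]
  have h2 : (K.totient : ℝ) = K * ∏ p ∈ K.primeFactors, (1 - (p : ℝ)⁻¹) := by
    have h := congrArg (fun q : ℚ => (q : ℝ)) (Nat.totient_eq_mul_prod_factors K)
    push_cast at h
    exact h
  have hφ : (K.totient : ℝ) ≠ 0 := by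
    have := Nat.totient_pos.2 (Nat.pos_of_ne_zero hK)
    positivity
  have hK' : (K : ℝ) ≠ 0 := by exact_mod_cast hK
  rw [eq_div_iff hφ, h2, prod_inv_distrib]
  have h3 : ∏ p ∈ K.primeFactors, (1 - (p : ℝ)⁻¹) ≠ 0 := by
    intro h
    rw [h2, h, mul_zero] at hφ
    exact hφ rfl
  simp only [gl_inv_apply]
  generalize ∏ p ∈ K.primeFactors, (1 - (p : ℝ)⁻¹) = Q at h3
  field_simp

theorem gl_sum (K : ℕ) (hK : K ≠ 0) (T : Finset ℕ)
    (hT : ∀ m ∈ T, m ∈ Nat.factoredNumbers K.primeFactors) :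
    ∑ m ∈ T, (m : ℝ)⁻¹ ≤ (K : ℝ) / K.totient := by
  classical
  obtain ⟨h1, h2⟩ := EulerProduct.summable_and_hasSum_factoredNumbers_prod_filter_prime_geometric
    (f := gl_inv) (fun {p} hp => by
      rw [gl_inv_apply, norm_inv, Real.norm_natCast]
      exact inv_lt_one_of_one_lt₀ (by exact_mod_cast hp.one_lt)) K.primeFactors
  rw [gl_tot K hK] at h2
  rw [← h2.tsum_eq]
  have h3 : ∑ m ∈ T, (m : ℝ)⁻¹ = ∑ m ∈ T.attach.image (fun m => (⟨m.1, hT m.1 m.2⟩ :
      Nat.factoredNumbers K.primeFactors)), gl_inv m := by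
    rw [sum_image]
    · rw [← sum_attach]
      rfl
    · intro x _ y _ h
      exact Subtype.ext (congrArg (fun z : Nat.factoredNumbers K.primeFactors => (z : ℕ)) h)
  rw [h3]
  refine h2.summable.sum_le_tsum _ fun i _ => ?_
  rw [gl_inv_apply]
  positivity

theorem gl_fiber (M : ℕ) (hM : 1 ≤ M) (N r : ℕ) (hr : r ≠ 0) (hrM : Nat.Coprime r M) :
    ∑ n ∈ (Icc 1 N).filter (fun n => gl_rad M n = r), (n : ℝ)⁻¹ ≤
      (1 / (r.totient : ℝ)) * ((M : ℝ) / M.totient) := by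
  classical
  have hM0 : M ≠ 0 := by omega
  have hK : r * M ≠ 0 := mul_ne_zero hr hM0
  have h1 : ∀ n ∈ (Icc 1 N).filter (fun n => gl_rad M n = r), r ∣ n := by
    intro n hn
    rw [mem_filter] at hn
    rw [← hn.2]
    exact gl_rad_dvd M n
  have h2 := gl_sum (r * M) hK (((Icc 1 N).filter (fun n => gl_rad M n = r)).image (fun n => n / r))
    (by
      intro m hm
      rw [mem_image] at hm
      obtain ⟨n, hn, rfl⟩ := hm
      have hrn := h1 n hn
      rw [mem_filter, mem_Icc] at hn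
      have hn0 : n ≠ 0 := by omega
      rw [Nat.mem_factoredNumbers]
      refine ⟨?_, ?_⟩
      · exact (Nat.div_pos (Nat.le_of_dvd (by omega) hrn) (Nat.pos_of_ne_zero hr)).ne'
      · intro p hp
        have hpp := Nat.prime_of_mem_primeFactorsList hp
        have hpn : p ∣ n := (Nat.dvd_of_mem_primeFactorsList hp).trans (Nat.div_dvd_of_dvd hrn)
        rw [Nat.mem_primeFactors]
        refine ⟨hpp, ?_, hK⟩
        by_cases hpM : p ∣ M
        · exact hpM.mul_left r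
        · refine Dvd.dvd.mul_right ?_ M
          rw [← hn.2]
          refine dvd_prod_of_mem _ ?_
          rw [mem_filter, Nat.mem_primeFactors]
          exact ⟨⟨hpp, hpn, hn0⟩, hpM⟩)
  rw [sum_image] at h2
  · have h3 : ∑ n ∈ (Icc 1 N).filter (fun n => gl_rad M n = r), (n : ℝ)⁻¹ =
        (r : ℝ)⁻¹ * ∑ n ∈ (Icc 1 N).filter (fun n => gl_rad M n = r), ((n / r : ℕ) : ℝ)⁻¹ := by
      rw [mul_sum]
      refine sum_congr rfl fun n hn => ?_
      rw [← mul_inv]
      congr 1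
      rw [← Nat.cast_mul, Nat.mul_div_cancel' (h1 n hn)]
    rw [h3]
    refine (mul_le_mul_of_nonneg_left h2 (by positivity)).trans (le_of_eq ?_)
    rw [Nat.totient_mul hrM, Nat.cast_mul, Nat.cast_mul]
    have hr' : (r : ℝ) ≠ 0 := by exact_mod_cast hr
    field_simp
  · intro x hx y hy hxy
    have e1 := Nat.mul_div_cancel' (h1 x hx)
    have e2 := Nat.mul_div_cancel' (h1 y hy)
    have hxy' : x / r = y / r := hxy
    rw [← e1, ← e2, hxy']

/-- the set of moduli -/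
def gl_S (M N : ℕ) : Finset ℕ := (Icc 1 N).filter (fun r => Squarefree r ∧ Nat.Coprime r M)

theorem gl_mem_S {M N r : ℕ} :
    r ∈ gl_S M N ↔ (1 ≤ r ∧ r ≤ N) ∧ Squarefree r ∧ Nat.Coprime r M := by
  unfold gl_S
  rw [mem_filter, mem_Icc]

/-- the main sum -/
noncomputable def gl_G (M N : ℕ) : ℝ := ∑ r ∈ gl_S M N, 1 / (r.totient : ℝ)

theorem gl_G_ge (M : ℕ) (hM : 1 ≤ M) (N : ℕ) :
    ∑ n ∈ Icc 1 N, (n : ℝ)⁻¹ ≤ gl_G M N * ((M : ℝ) / M.totient) := by
  classical
  have hmaps : ∀ n ∈ Icc 1 N, gl_rad M n ∈ gl_S M N := by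
    intro n hn
    rw [mem_Icc] at hn
    rw [gl_mem_S]
    have h0 : 0 < n := by omega
    exact ⟨⟨Nat.pos_of_dvd_of_pos (gl_rad_dvd M n) h0, (Nat.le_of_dvd h0 (gl_rad_dvd M n)).trans hn.2⟩,
      gl_rad_sq M n, gl_rad_coprime M n⟩
  rw [← sum_fiberwise_of_maps_to hmaps]
  unfold gl_G
  rw [sum_mul]
  refine sum_le_sum fun r hr => ?_
  rw [gl_mem_S] at hr
  exact gl_fiber M hM N r (by omega) hr.2.2

theorem gs_ge (D q : ℕ) (hq : 1 ≤ q) :
    (q.totient : ℝ) / q * Real.log (D + 1) ≤ Gs D q := by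
  have hq0 : (0 : ℝ) < q := by exact_mod_cast hq
  have hφ : (0 : ℝ) < q.totient := by exact_mod_cast Nat.totient_pos.2 hq
  have h1 : Gs D q = gl_G q D := by
    unfold Gs gl_G gl_S
    rw [← filter_filter, sum_filter (s := Icc 1 D), sum_filter (s := (Icc 1 D).filter Squarefree),
      sum_filter (s := Icc 1 D)]
    refine sum_congr rfl fun h _ => ?_
    by_cases hs : Squarefree h
    · have h2 : mo h ^ 2 = 1 := by
        unfold mo
        exact_mod_cast ArithmeticFunction.moebius_sq_eq_one_of_squarefree hs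
      rw [if_pos hs, h2]
    · have h2 : mo h = 0 := by
        unfold mo
        rw [ArithmeticFunction.moebius_eq_zero_of_not_squarefree hs, Int.cast_zero]
      rw [if_neg hs, h2]
      simp
  have h2 := gl_G_ge q hq D
  have h3 : Real.log (D + 1) ≤ ∑ n ∈ Icc 1 D, (n : ℝ)⁻¹ := by
    have h4 := log_add_one_le_harmonic D
    rw [harmonic_eq_sum_Icc] at h4
    push_cast at h4
    exact h4
  rw [h1]
  have h5 : Real.log (D + 1) ≤ gl_G q D * ((q : ℝ) / q.totient) := h3.trans h2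
  calc (q.totient : ℝ) / q * Real.log (D + 1)
      ≤ (q.totient : ℝ) / q * (gl_G q D * ((q : ℝ) / q.totient)) :=
        mul_le_mul_of_nonneg_left h5 (by positivity)
    _ = gl_G q D := by field_simp

end Pool.Agent.H87.WL

end
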