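import Pool.Agent.H94.EH.M15
import Pool.Agent.H94.EH.M22

/-! The parts of this file: H87.WL.Sel4, H35.U.SelD, H35.U.SelR, H35.U.RghL, H91.GoldNum, H91.GoldData16. -/

section

/-!
# WL Sel4: bounds for the diagonal form

* `sd_one`: `Ad 1 y = 1` for `y ≥ 1`.
* `gs_cop`: `Gs D q = ∑_{p ∤ l} + ∑_{p | l}`; in the second sum `l = p l'` with `p ∤ l'` (squarefree),
  `μ(l)²/φ(l) = μ(l')²/((p-1) φ(l'))`; so `Gs D q ≤ (1 + 1/(p-1)) Gs D (q p)`.
* `sd_ge`: `Ad ≥ 1` (term `e = 1`, `D/l ≥ 1`), so `Sd D q p ≥ Gs D (q p) ≥ (1-1/p) Gs D q`.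
* `sd_le`: `Ad d y ≤ ∑_{e | d} μ(e)²/φ(e) = d/φ(d)` and `Gs D (q d) ≤ Gs D q`. It is enough to do `d` with
  `d/φ(d)` written as such (product formula, or for `d = p` and `d = p p'` directly:
  `1 + 1/(p-1) = p/(p-1)`).
-/

set_option autoImplicit false

namespace Pool.Agent.H87.WL

open Finset
open Pool.Agent.H91.EHA (Lam lamR hR ramS psiA err)

private lemma sel4_nn (e : ℕ) : 0 ≤ mo e ^ 2 / (e.totient : ℝ) := by positivity

private lemma sel4_one_add {p : ℕ} (hp : p.Prime) : (1 : ℝ) + 1 / ((p : ℝ) - 1) = (p : ℝ) / (p - 1) := by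
  have h2 : (1 : ℝ) < p := by exact_mod_cast hp.one_lt
  have h3 : (p : ℝ) - 1 ≠ 0 := by linarith
  field_simp
  ring

private lemma sel4_tot {p : ℕ} (hp : p.Prime) : ((p.totient : ℕ) : ℝ) = (p : ℝ) - 1 := by
  rw [Nat.totient_prime hp, Nat.cast_sub hp.one_lt.le, Nat.cast_one]

/-- terms divisible by `p` -/
private lemma sel4_term {p l : ℕ} (hp : p.Prime) :
    mo (p * l) ^ 2 / ((p * l).totient : ℝ) ≤
      if Nat.Coprime l p then 1 / ((p : ℝ) - 1) * (mo l ^ 2 / (l.totient : ℝ)) else 0 := by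
  split_ifs with h
  · have hc : Nat.Coprime p l := h.symm
    have h1 : mo (p * l) = - mo l := by
      unfold mo
      rw [ArithmeticFunction.isMultiplicative_moebius.map_mul_of_coprime hc,
        ArithmeticFunction.moebius_apply_prime hp]
      push_cast
      ring
    rw [h1, Nat.totient_mul hc, Nat.cast_mul, sel4_tot hp, neg_sq]
    refine le_of_eq ?_
    rw [one_div, div_eq_mul_inv, mul_inv, div_eq_mul_inv]
    ring
  · have hd : p ∣ l := by
      by_contra hh
      exact h ((Nat.Prime.coprime_iff_not_dvd hp).2 hh).symm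
    have hsq : ¬ Squarefree (p * l) := by
      intro hs
      obtain ⟨m, rfl⟩ := hd
      have := hs p ⟨m, by ring⟩
      exact hp.not_isUnit this
    have h1 : mo (p * l) = 0 := by
      unfold mo
      rw [ArithmeticFunction.moebius_eq_zero_of_not_squarefree hsq]
      norm_num
    rw [h1]
    simp

theorem gs_cop (D q p : ℕ) (hp : p.Prime) (hpq : ¬ p ∣ q) :
    (1 - 1 / (p : ℝ)) * Gs D q ≤ Gs D (q * p) := by
  have hp1 : (1 : ℝ) < p := by exact_mod_cast hp.one_lt
  have hpp : (0 : ℝ) < (p : ℝ) - 1 := by linarith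
  set f : ℕ → ℝ := fun e => mo e ^ 2 / (e.totient : ℝ) with hf
  -- the terms which are divisible by p
  have h1 : ∑ l ∈ ((Icc 1 D).filter (fun l => Nat.Coprime l q)).filter (fun l => p ∣ l), f l ≤
      1 / ((p : ℝ) - 1) * Gs D (q * p) := by
    have hsub : ((Icc 1 D).filter (fun l => Nat.Coprime l q)).filter (fun l => p ∣ l) ⊆
        ((Icc 1 D).filter (fun l => Nat.Coprime l q)).image (fun l => p * l) := by
      intro l hl
      rw [mem_filter, mem_filter, mem_Icc] at hl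
      obtain ⟨⟨⟨ha, hb⟩, hc⟩, m, rfl⟩ := hl
      rw [mem_image]
      refine ⟨m, ?_, rfl⟩
      rw [mem_filter, mem_Icc]
      have hm : m ≠ 0 := by
        rintro rfl
        simp at ha
      refine ⟨⟨Nat.one_le_iff_ne_zero.2 hm, ?_⟩, Nat.Coprime.coprime_mul_left hc⟩
      exact (Nat.le_mul_of_pos_left m hp.pos).trans hb
    calc ∑ l ∈ ((Icc 1 D).filter (fun l => Nat.Coprime l q)).filter (fun l => p ∣ l), f l
        ≤ ∑ l ∈ ((Icc 1 D).filter (fun l => Nat.Coprime l q)).image (fun l => p * l), f l :=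
          sum_le_sum_of_subset_of_nonneg hsub fun e _ _ => sel4_nn e
      _ = ∑ l ∈ (Icc 1 D).filter (fun l => Nat.Coprime l q), f (p * l) :=
          sum_image fun a _ b _ hab => Nat.eq_of_mul_eq_mul_left hp.pos hab
      _ ≤ ∑ l ∈ (Icc 1 D).filter (fun l => Nat.Coprime l q),
            (if Nat.Coprime l p then 1 / ((p : ℝ) - 1) * (mo l ^ 2 / (l.totient : ℝ)) else 0) :=
          sum_le_sum fun l _ => sel4_term hp
      _ = ∑ l ∈ (Icc 1 D).filter (fun l => Nat.Coprime l (q * p)),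
            1 / ((p : ℝ) - 1) * (mo l ^ 2 / (l.totient : ℝ)) := by
          rw [← sum_filter, filter_filter]
          refine sum_congr ?_ fun _ _ => rfl
          ext l
          rw [mem_filter, mem_filter, Nat.coprime_mul_iff_right]
      _ = 1 / ((p : ℝ) - 1) * Gs D (q * p) := by
          unfold Gs
          rw [mul_sum]
  -- the other terms
  have h2 : ∑ l ∈ ((Icc 1 D).filter (fun l => Nat.Coprime l q)).filter (fun l => ¬ p ∣ l), f l = Gs D (q * p) := by
    unfold Gs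
    rw [filter_filter]
    refine sum_congr ?_ fun _ _ => rfl
    ext l
    rw [mem_filter, mem_filter, Nat.coprime_mul_iff_right, ← Nat.Prime.coprime_iff_not_dvd hp,
      Nat.coprime_comm (m := p)]
  have h3 : Gs D q ≤ (1 / ((p : ℝ) - 1) + 1) * Gs D (q * p) := by
    have h4 : Gs D q = ∑ l ∈ ((Icc 1 D).filter (fun l => Nat.Coprime l q)).filter (fun l => p ∣ l), f l +
        ∑ l ∈ ((Icc 1 D).filter (fun l => Nat.Coprime l q)).filter (fun l => ¬ p ∣ l), f l :=
      (sum_filter_add_sum_filter_not _ _ _).symm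
    rw [h4, h2, add_mul, one_mul]
    linarith
  have h5 : (1 : ℝ) - 1 / p = ((p : ℝ) - 1) / p := by
    field_simp
  have h6 : 1 / ((p : ℝ) - 1) + 1 = (p : ℝ) / ((p : ℝ) - 1) := by
    rw [add_comm]
    exact sel4_one_add hp
  rw [h6] at h3
  rw [h5]
  have h7 : 0 ≤ ((p : ℝ) - 1) / p := by positivity
  calc ((p : ℝ) - 1) / p * Gs D q ≤ ((p : ℝ) - 1) / p * ((p : ℝ) / ((p : ℝ) - 1) * Gs D (q * p)) :=
        mul_le_mul_of_nonneg_left h3 h7
    _ = Gs D (q * p) := by
        have h8 : (p : ℝ) ≠ 0 := by linarith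
        field_simp

end Pool.Agent.H87.WL

end

section

/-!
# U SelD: the diagonal form `Sd D q d` for `d` a product of large primes

Let `d = pr T`, all `p ∈ T` prime, `p > P`, `p ∤ q`, `t = |T|`, `2t ≤ P`.
* Lower bound: `Ad d y ≥ 1` for `y ≥ 1` (term `e = 1`), so `Sd D q d ≥ Gs D (q d)`; iterating
  `gs_cop` (`(1-1/p) Gs D q ≤ Gs D (q p)`, `p ∤ q`) over the elements of `T`:
  `Gs D (q d) ≥ ∏ (1-1/p) Gs D q ≥ (1 - t/P) Gs D q`.
* Upper bound: `Ad d y ≤ ∑_{e ∣ d} μ²(e)/φ(e) = ∏ p/(p-1) ≤ (1+1/P)^t` (or induction on `T`: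
  `Ad (d p) y ≤ (1 + 1/(p-1)) Ad'`, see the private lemmas `sel4_ad_prime`, `sel4_ad_two`, `sel4_sd_le` of
  `WL.Sel4`), so `Sd D q d ≤ (1+1/P)^(2t) Gs D q ≤ exp(2t/P) Gs ≤ (1+4t/P) Gs` as `2t/P ≤ 1`.
-/

set_option autoImplicit false

namespace Pool.Agent.H35.U

open Finset
open Pool.Agent.H87.WL (PP PPc Mu Om gR Ps Gs Sd Td Ad mo)

private lemma selD_nn (e : ℕ) : 0 ≤ mo e ^ 2 / (e.totient : ℝ) := by positivity

private lemma selD_gs_nn (D q : ℕ) : 0 ≤ Gs D q := sum_nonneg fun e _ => selD_nn e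

private lemma selD_ad_nn (d y : ℕ) : 0 ≤ Ad d y := sum_nonneg fun e _ => selD_nn e

private lemma selD_val_one : mo 1 ^ 2 / ((1 : ℕ).totient : ℝ) = 1 := by simp [mo]

private lemma selD_ad_ge {d y : ℕ} (hd : d ≠ 0) (hy : 1 ≤ y) : 1 ≤ Ad d y := by
  have h1 : (1 : ℕ) ∈ d.divisors.filter (fun e => e ≤ y) := by
    rw [mem_filter]
    exact ⟨Nat.one_mem_divisors.2 hd, hy⟩
  have h2 : mo 1 ^ 2 / ((1 : ℕ).totient : ℝ) ≤ Ad d y :=
    single_le_sum (f := fun e : ℕ => mo e ^ 2 / (e.totient : ℝ)) (fun e _ => selD_nn e) h1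
  rwa [selD_val_one] at h2

private lemma selD_mono (D q m : ℕ) : Gs D (q * m) ≤ Gs D q := by
  unfold Gs
  refine sum_le_sum_of_subset_of_nonneg ?_ fun e _ _ => selD_nn e
  intro l hl
  rw [mem_filter] at hl ⊢
  exact ⟨hl.1, Nat.Coprime.coprime_mul_right_right hl.2⟩

private lemma selD_sd_le (D q d : ℕ) (c : ℝ) (h : ∀ y, Ad d y ≤ c) : Sd D q d ≤ c ^ 2 * Gs D q := by
  have h1 : Sd D q d ≤ c ^ 2 * Gs D (q * d) := by
    unfold Sd Gs
    rw [mul_sum]
    refine sum_le_sum fun l _ => ?_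
    have h2 : Ad d (D / l) ^ 2 ≤ c ^ 2 := pow_le_pow_left₀ (selD_ad_nn _ _) (h _) 2
    calc mo l ^ 2 / (l.totient : ℝ) * Ad d (D / l) ^ 2 ≤ mo l ^ 2 / (l.totient : ℝ) * c ^ 2 :=
          mul_le_mul_of_nonneg_left h2 (selD_nn l)
      _ = c ^ 2 * (mo l ^ 2 / (l.totient : ℝ)) := mul_comm _ _
  exact h1.trans (mul_le_mul_of_nonneg_left (selD_mono D q d) (sq_nonneg c))

private lemma selD_gs_le_sd (D q d : ℕ) (hd : d ≠ 0) : Gs D (q * d) ≤ Sd D q d := by
  unfold Gs Sd
  refine sum_le_sum fun l hl => ?_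
  rw [mem_filter, mem_Icc] at hl
  have h1 : 1 ≤ Ad d (D / l) := selD_ad_ge hd (Nat.div_pos hl.1.2 hl.1.1)
  have h2 : 1 ≤ Ad d (D / l) ^ 2 := one_le_pow₀ h1
  calc mo l ^ 2 / (l.totient : ℝ) = mo l ^ 2 / (l.totient : ℝ) * 1 := (mul_one _).symm
    _ ≤ mo l ^ 2 / (l.totient : ℝ) * Ad d (D / l) ^ 2 := mul_le_mul_of_nonneg_left h2 (selD_nn l)

private lemma selD_not_dvd {p : ℕ} (hp : p.Prime) (T : Finset ℕ) (hT : ∀ r ∈ T, r.Prime) (hpT : p ∉ T) :
    ¬ p ∣ pr T := by
  intro h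
  unfold pr at h
  obtain ⟨r, hr, hpr⟩ := (hp.prime.dvd_finset_prod_iff _).1 h
  have := (Nat.prime_dvd_prime_iff_eq hp (hT r hr)).1 hpr
  exact hpT (this ▸ hr)

private lemma selD_pr_ne {T : Finset ℕ} (hT : ∀ r ∈ T, r.Prime) : pr T ≠ 0 := by
  unfold pr
  exact prod_ne_zero_iff.2 fun r hr => (hT r hr).ne_zero

private lemma selD_low (D q P : ℕ) (hP : 1 ≤ P) (T : Finset ℕ) :
    (∀ p ∈ T, p.Prime ∧ P < p ∧ ¬ p ∣ q) →
      (1 - (T.card : ℝ) / P) * Gs D q ≤ Gs D (q * pr T) := by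
  classical
  induction T using Finset.induction_on with
  | empty => intro _; simp [pr]
  | insert p T hp ih =>
    intro hT
    have hTT : ∀ r ∈ T, r.Prime ∧ P < r ∧ ¬ r ∣ q := fun r hr => hT r (mem_insert_of_mem hr)
    obtain ⟨hpp, hPp, hpq⟩ := hT p (mem_insert_self _ _)
    have ih' := ih hTT
    have hnd : ¬ p ∣ q * pr T := by
      intro h
      rcases (hpp.dvd_mul).1 h with h | h
      · exact hpq h
      · exact selD_not_dvd hpp T (fun r hr => (hTT r hr).1) hp h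
    have h1 := Pool.Agent.H87.WL.gs_cop D (q * pr T) p hpp hnd
    have h2 : q * pr (insert p T) = q * pr T * p := by
      unfold pr
      rw [prod_insert hp]
      ring
    rw [h2, card_insert_of_notMem hp]
    refine le_trans ?_ h1
    have hP0 : (0 : ℝ) < P := by exact_mod_cast hP
    have hp0 : (P : ℝ) < p := by exact_mod_cast hPp
    have hp1 : 1 / (p : ℝ) ≤ 1 / P := one_div_le_one_div_of_le hP0 hp0.le
    have hp2 : (1 : ℝ) / P ≤ 1 := by
      rw [div_le_one hP0]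
      exact_mod_cast hP
    have hp3 : (0 : ℝ) ≤ 1 / (p : ℝ) := by positivity
    have hG := selD_gs_nn D q
    have h3 : (1 - 1 / (p : ℝ)) * ((1 - (T.card : ℝ) / P) * Gs D q) ≤
        (1 - 1 / (p : ℝ)) * Gs D (q * pr T) :=
      mul_le_mul_of_nonneg_left ih' (by linarith)
    refine le_trans ?_ h3
    rw [← mul_assoc]
    refine mul_le_mul_of_nonneg_right ?_ hG
    have h4 : (0 : ℝ) ≤ 1 / (p : ℝ) * ((T.card : ℝ) / P) := by positivity
    have h5 : (((T.card + 1 : ℕ) : ℝ)) / P = (T.card : ℝ) / P + 1 / P := by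
      push_cast
      ring
    rw [h5]
    nlinarith

private lemma selD_sum (T : Finset ℕ) (P : ℕ) (hP : 1 ≤ P) :
    (∀ p ∈ T, p.Prime ∧ P < p) →
      ∑ e ∈ (pr T).divisors, mo e ^ 2 / (e.totient : ℝ) ≤ (1 + 1 / (P : ℝ)) ^ T.card := by
  classical
  induction T using Finset.induction_on with
  | empty =>
    intro _
    simp [pr, mo]
  | insert p T hp ih =>
    intro hT
    have hTT : ∀ r ∈ T, r.Prime ∧ P < r := fun r hr => hT r (mem_insert_of_mem hr)
    obtain ⟨hpp, hPp⟩ := hT p (mem_insert_self _ _)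
    have ih' := ih hTT
    have hnd : ¬ p ∣ pr T := selD_not_dvd hpp T (fun r hr => (hTT r hr).1) hp
    have hne : pr T ≠ 0 := selD_pr_ne fun r hr => (hTT r hr).1
    have h2 : pr (insert p T) = p * pr T := by
      unfold pr
      rw [prod_insert hp]
    set f : ℕ → ℝ := fun e => mo e ^ 2 / (e.totient : ℝ) with hf
    have hfn : ∀ e, 0 ≤ f e := fun e => selD_nn e
    have hP0 : (0 : ℝ) < P := by exact_mod_cast hP
    have hp0 : (P : ℝ) + 1 ≤ p := by exact_mod_cast hPp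
    have htp : ((p.totient : ℕ) : ℝ) = (p : ℝ) - 1 := by
      rw [Nat.totient_prime hpp, Nat.cast_sub hpp.one_lt.le, Nat.cast_one]
    have h3 : ∀ e ∈ (pr T).divisors, f (p * e) ≤ 1 / (P : ℝ) * f e := by
      intro e he
      have hpe : Nat.Coprime p e := by
        rw [Nat.Prime.coprime_iff_not_dvd hpp]
        intro h
        exact hnd (h.trans (Nat.dvd_of_mem_divisors he))
      have h4 : mo (p * e) = - mo e := by
        unfold mo
        rw [ArithmeticFunction.isMultiplicative_moebius.map_mul_of_coprime hpe,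
          ArithmeticFunction.moebius_apply_prime hpp]
        push_cast
        ring
      have h5 : f (p * e) = 1 / ((p : ℝ) - 1) * f e := by
        simp only [hf]
        rw [h4, Nat.totient_mul hpe, Nat.cast_mul, htp, neg_sq, one_div, div_eq_mul_inv, mul_inv,
          div_eq_mul_inv]
        ring
      rw [h5]
      refine mul_le_mul_of_nonneg_right ?_ (hfn e)
      exact one_div_le_one_div_of_le hP0 (by linarith)
    have hsub : (pr (insert p T)).divisors ⊆ (pr T).divisors ∪ ((pr T).divisors).image (fun e => p * e) := by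
      intro e he
      rw [h2, Nat.mem_divisors] at he
      rw [mem_union, mem_image]
      by_cases hpe : p ∣ e
      · right
        obtain ⟨m, rfl⟩ := hpe
        exact ⟨m, Nat.mem_divisors.2 ⟨Nat.dvd_of_mul_dvd_mul_left hpp.pos he.1, hne⟩, rfl⟩
      · left
        refine Nat.mem_divisors.2 ⟨?_, hne⟩
        exact Nat.Coprime.dvd_of_dvd_mul_left ((Nat.Prime.coprime_iff_not_dvd hpp).2 hpe).symm he.1
    calc ∑ e ∈ (pr (insert p T)).divisors, f e
        ≤ ∑ e ∈ (pr T).divisors ∪ ((pr T).divisors).image (fun e => p * e), f e :=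
          sum_le_sum_of_subset_of_nonneg hsub fun e _ _ => hfn e
      _ ≤ ∑ e ∈ (pr T).divisors, f e + ∑ e ∈ ((pr T).divisors).image (fun e => p * e), f e := by
          rw [← sum_union_inter]
          have : 0 ≤ ∑ e ∈ (pr T).divisors ∩ ((pr T).divisors).image (fun e => p * e), f e :=
            sum_nonneg fun e _ => hfn e
          linarith
      _ = ∑ e ∈ (pr T).divisors, f e + ∑ e ∈ (pr T).divisors, f (p * e) := by
          rw [sum_image fun a _ b _ hab => Nat.eq_of_mul_eq_mul_left hpp.pos hab]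
      _ ≤ ∑ e ∈ (pr T).divisors, f e + ∑ e ∈ (pr T).divisors, 1 / (P : ℝ) * f e :=
          add_le_add le_rfl (sum_le_sum h3)
      _ = (1 + 1 / (P : ℝ)) * ∑ e ∈ (pr T).divisors, f e := by
          rw [← mul_sum]
          ring
      _ ≤ (1 + 1 / (P : ℝ)) * (1 + 1 / (P : ℝ)) ^ T.card :=
          mul_le_mul_of_nonneg_left ih' (by positivity)
      _ = (1 + 1 / (P : ℝ)) ^ (insert p T).card := by
          rw [card_insert_of_notMem hp, pow_succ]
          ring

theorem sd_near (D q P : ℕ) (T : Finset ℕ) (hP : 1 ≤ P)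
    (hT : ∀ p ∈ T, p.Prime ∧ P < p ∧ ¬ p ∣ q) (hc : 2 * T.card ≤ P) :
    |Sd D q (pr T) - Gs D q| ≤ 4 * T.card / P * Gs D q := by
  have hP0 : (0 : ℝ) < P := by exact_mod_cast hP
  have hG := selD_gs_nn D q
  have ht0 : (0 : ℝ) ≤ (T.card : ℝ) / P := by positivity
  have hlow : (1 - (T.card : ℝ) / P) * Gs D q ≤ Sd D q (pr T) :=
    (selD_low D q P hP T hT).trans (selD_gs_le_sd D q (pr T) (selD_pr_ne fun r hr => (hT r hr).1))
  have hup : Sd D q (pr T) ≤ ((1 + 1 / (P : ℝ)) ^ T.card) ^ 2 * Gs D q := by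
    refine selD_sd_le D q (pr T) _ fun y => ?_
    refine le_trans ?_ (selD_sum T P hP fun p hp => ⟨(hT p hp).1, (hT p hp).2.1⟩)
    unfold Ad
    exact sum_le_sum_of_subset_of_nonneg (filter_subset _ _) fun e _ _ => selD_nn e
  have hx1 : 2 * ((T.card : ℝ) / P) ≤ 1 := by
    rw [← mul_div_assoc, div_le_one hP0]
    exact_mod_cast hc
  have hexp : ((1 + 1 / (P : ℝ)) ^ T.card) ^ 2 ≤ 1 + 4 * ((T.card : ℝ) / P) := by
    set x : ℝ := 2 * ((T.card : ℝ) / P) with hx
    have hx0 : 0 ≤ x := by positivity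
    have h1 : ((1 + 1 / (P : ℝ)) ^ T.card) ^ 2 ≤ Real.exp x := by
      have h2 : (1 + 1 / (P : ℝ)) ≤ Real.exp (1 / (P : ℝ)) := by
        have := Real.add_one_le_exp (1 / (P : ℝ))
        linarith
      calc ((1 + 1 / (P : ℝ)) ^ T.card) ^ 2 = (1 + 1 / (P : ℝ)) ^ (T.card * 2) := by rw [pow_mul]
        _ ≤ Real.exp (1 / (P : ℝ)) ^ (T.card * 2) := pow_le_pow_left₀ (by positivity) h2 _
        _ = Real.exp x := by
            rw [← Real.exp_nat_mul]
            congr 1
            rw [hx]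
            push_cast
            ring
    have h3 : Real.exp x ≤ 1 + 2 * x := by
      have h4 := Real.abs_exp_sub_one_sub_id_le (x := x) (by rw [abs_of_nonneg hx0]; exact hx1)
      have h5 := (abs_le.1 h4).2
      nlinarith
    calc ((1 + 1 / (P : ℝ)) ^ T.card) ^ 2 ≤ Real.exp x := h1
      _ ≤ 1 + 2 * x := h3
      _ = 1 + 4 * ((T.card : ℝ) / P) := by rw [hx]; ring
  have hup2 : Sd D q (pr T) ≤ (1 + 4 * ((T.card : ℝ) / P)) * Gs D q :=
    hup.trans (mul_le_mul_of_nonneg_right hexp hG)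
  have he : 4 * (T.card : ℝ) / P * Gs D q = 4 * ((T.card : ℝ) / P) * Gs D q := by ring
  rw [he, abs_le]
  constructor
  · nlinarith [mul_nonneg ht0 hG]
  · nlinarith

end Pool.Agent.H35.U

end

section

/-!
# U SelR: Selberg's weight on the rough integers `k`

`∑_{k ≤ K, no p ∈ S divides k} Ps² ≤ ∑_{T ∈ sb S (2r)} (-1)^|T| Td D q a (pr T) K` (`bonf_upper`, `Ps² ≥ 0`;
`Td D q a d K = ∑_{k ≤ K, d ∣ k} Ps²`).  `td_qf` and `qf_eq`: `|Td - (K/d) Sd D q d| ≤ 2 D⁴`
(`d = pr T` is coprime to `a q` because no `p ∈ S` divides `a q`).  So the right side is at most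
`K ∑_T (-1)^|T| Gs/pr T + K ∑_T |Sd - Gs|/pr T + 2 D⁴ #(sb S (2r))`, use `bonf_mu`, `sd_near`
(`|T| ≤ 2r`, `2|T| ≤ 4r ≤ P`, so `|Sd - Gs| ≤ 8r/P Gs`), `sb_inv`, `sb_card`.
-/

set_option autoImplicit false

namespace Pool.Agent.H35.U

open Finset
open Pool.Agent.H87.WL (PP PPc Mu Om gR Ps Gs Sd Td Qf)

private theorem SelR_gs_nonneg (D q : ℕ) : 0 ≤ Gs D q := by
  unfold Gs
  exact sum_nonneg fun h _ => by positivity

private theorem SelR_one (S : Finset ℕ) (hSp : ∀ p ∈ S, p.Prime) (D q a K r : ℕ) :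
    ∑ k ∈ rS S K, Ps D q (a + q * k) ^ 2 ≤
      ∑ T ∈ sb S (2 * r), (-1 : ℝ) ^ T.card * Td D q a (pr T) K := by
  have e1 : ∑ k ∈ rS S K, Ps D q (a + q * k) ^ 2 =
      ∑ k ∈ Icc 1 K, (if ∀ p ∈ S, ¬ p ∣ k then (1 : ℝ) else 0) * Ps D q (a + q * k) ^ 2 := by
    unfold rS
    rw [sum_filter]
    refine sum_congr rfl fun k _ => ?_
    split_ifs <;> simp
  have e2 : ∑ T ∈ sb S (2 * r), (-1 : ℝ) ^ T.card * Td D q a (pr T) K =
      ∑ k ∈ Icc 1 K, (∑ T ∈ sb S (2 * r), (-1 : ℝ) ^ T.card * (if pr T ∣ k then 1 else 0)) *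
        Ps D q (a + q * k) ^ 2 := by
    simp_rw [sum_mul]
    rw [sum_comm]
    refine sum_congr rfl fun T _ => ?_
    unfold Td
    rw [sum_filter, mul_sum]
    refine sum_congr rfl fun k _ => ?_
    split_ifs <;> ring
  rw [e1, e2]
  exact sum_le_sum fun k _ =>
    mul_le_mul_of_nonneg_right (bonf_upper S hSp r k) (sq_nonneg (Ps D q (a + q * k)))

theorem sel_rough (D q a K P r : ℕ) (S : Finset ℕ) (hq : 1 ≤ q) (haq : Nat.Coprime a q)
    (hP : 1 ≤ P) (hS : ∀ p ∈ S, p.Prime ∧ P < p ∧ ¬ p ∣ a * q) (hr : 4 * r ≤ P) :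
    ∑ k ∈ rS S K, Ps D q (a + q * k) ^ 2 ≤
      K * Gs D q * (eb S (2 * r) + 8 * r / P * Real.exp (Mu S)) +
        2 * (D : ℝ) ^ 4 * ((S.card : ℝ) + 1) ^ (2 * r) := by
  have hSp : ∀ p ∈ S, p.Prime := fun p hp => (hS p hp).1
  have hG := SelR_gs_nonneg D q
  have hP0 : (0 : ℝ) < P := by exact_mod_cast hP
  have hK0 : (0 : ℝ) ≤ K := Nat.cast_nonneg K
  have h2 : ∀ T ∈ sb S (2 * r), (-1 : ℝ) ^ T.card * Td D q a (pr T) K ≤
      (K : ℝ) * Gs D q * ((-1 : ℝ) ^ T.card / (pr T : ℝ)) +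
        (K : ℝ) * Gs D q * (8 * r / P) * (1 / (pr T : ℝ)) + 2 * (D : ℝ) ^ 4 := by
    intro T hT
    rw [mem_sb] at hT
    obtain ⟨hTS, hTc⟩ := hT
    have hd := pr_pos S hSp T hTS
    have hcopq : Nat.Coprime (pr T) (a * q) := by
      unfold pr
      exact Nat.Coprime.prod_left fun p hp =>
        (Nat.Prime.coprime_iff_not_dvd (hS p (hTS hp)).1).2 (hS p (hTS hp)).2.2
    have hca : Nat.Coprime (pr T) a := Nat.Coprime.coprime_mul_right_right hcopq
    have hcq : Nat.Coprime (pr T) q := Nat.Coprime.coprime_mul_left_right hcopq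
    have h3 := Pool.Agent.H87.WL.td_qf D q a (pr T) K hq hd
      (Nat.Coprime.mul_right haq hca.symm)
    rw [Pool.Agent.H87.WL.qf_eq D q (pr T) hq hd hcq] at h3
    have h4 := sd_near D q P T hP (fun p hp => ⟨(hS p (hTS hp)).1, (hS p (hTS hp)).2.1,
      fun h => (hS p (hTS hp)).2.2 (h.mul_left a)⟩) (by omega)
    have hd0 : (0 : ℝ) < (pr T : ℝ) := by exact_mod_cast hd
    have hTr : (T.card : ℝ) ≤ 2 * r := by exact_mod_cast hTc
    have h5 : |Sd D q (pr T) - Gs D q| ≤ 8 * r / P * Gs D q := by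
      refine h4.trans ?_
      refine mul_le_mul_of_nonneg_right ?_ hG
      rw [div_le_div_iff_of_pos_right hP0]
      linarith
    have hs : |(-1 : ℝ) ^ T.card| = 1 := by
      rw [abs_pow, abs_neg, abs_one, one_pow]
    have h6 : (-1 : ℝ) ^ T.card * (Td D q a (pr T) K - (K : ℝ) / (pr T : ℝ) * Sd D q (pr T)) ≤
        2 * (D : ℝ) ^ 4 := by
      refine (le_abs_self _).trans ?_
      rw [abs_mul, hs, one_mul]
      exact h3
    have h7 : (-1 : ℝ) ^ T.card * ((K : ℝ) / (pr T : ℝ) * (Sd D q (pr T) - Gs D q)) ≤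
        (K : ℝ) / (pr T : ℝ) * (8 * r / P * Gs D q) := by
      refine (le_abs_self _).trans ?_
      rw [abs_mul, hs, one_mul, abs_mul, abs_of_nonneg (div_nonneg hK0 hd0.le)]
      exact mul_le_mul_of_nonneg_left h5 (div_nonneg hK0 hd0.le)
    have e : (-1 : ℝ) ^ T.card * Td D q a (pr T) K =
        (-1 : ℝ) ^ T.card * (Td D q a (pr T) K - (K : ℝ) / (pr T : ℝ) * Sd D q (pr T)) +
        (-1 : ℝ) ^ T.card * ((K : ℝ) / (pr T : ℝ) * (Sd D q (pr T) - Gs D q)) +
        (K : ℝ) * Gs D q * ((-1 : ℝ) ^ T.card / (pr T : ℝ)) := by ring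
    have e' : (K : ℝ) / (pr T : ℝ) * (8 * r / P * Gs D q) =
        (K : ℝ) * Gs D q * (8 * r / P) * (1 / (pr T : ℝ)) := by ring
    rw [e]
    linarith
  have h8 := (le_abs_self _).trans (bonf_mu S hSp (2 * r))
  have h9 := sb_inv S hSp (2 * r)
  have h10 := sb_card S (2 * r)
  have hKG : 0 ≤ (K : ℝ) * Gs D q := mul_nonneg hK0 hG
  have hc : 0 ≤ (K : ℝ) * Gs D q * (8 * r / P) := mul_nonneg hKG (by positivity)
  calc ∑ k ∈ rS S K, Ps D q (a + q * k) ^ 2
      ≤ ∑ T ∈ sb S (2 * r), (-1 : ℝ) ^ T.card * Td D q a (pr T) K :=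
        SelR_one S hSp D q a K r
    _ ≤ ∑ T ∈ sb S (2 * r), ((K : ℝ) * Gs D q * ((-1 : ℝ) ^ T.card / (pr T : ℝ)) +
        (K : ℝ) * Gs D q * (8 * r / P) * (1 / (pr T : ℝ)) + 2 * (D : ℝ) ^ 4) := sum_le_sum h2
    _ = (K : ℝ) * Gs D q * ∑ T ∈ sb S (2 * r), (-1 : ℝ) ^ T.card / (pr T : ℝ) +
        (K : ℝ) * Gs D q * (8 * r / P) * ∑ T ∈ sb S (2 * r), 1 / (pr T : ℝ) +
        2 * (D : ℝ) ^ 4 * ((sb S (2 * r)).card : ℝ) := by
          rw [sum_add_distrib, sum_add_distrib, ← mul_sum, ← mul_sum, sum_const, nsmul_eq_mul]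
          ring
    _ ≤ (K : ℝ) * Gs D q * eb S (2 * r) +
        (K : ℝ) * Gs D q * (8 * r / P) * Real.exp (Mu S) +
        2 * (D : ℝ) ^ 4 * ((S.card : ℝ) + 1) ^ (2 * r) := by
          have i1 := mul_le_mul_of_nonneg_left h8 hKG
          have i2 := mul_le_mul_of_nonneg_left h9 hc
          have i3 := mul_le_mul_of_nonneg_left h10 (show (0 : ℝ) ≤ 2 * (D : ℝ) ^ 4 by positivity)
          linarith
    _ = K * Gs D q * (eb S (2 * r) + 8 * r / P * Real.exp (Mu S)) +
        2 * (D : ℝ) ^ 4 * ((S.card : ℝ) + 1) ^ (2 * r) := by ring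

end Pool.Agent.H35.U

end

section

/-!
# U RghL: prime powers `a + q k` with `k` rough, pointwise in `a` and `q`

Copy the structure of `WL.TKL` (`tkl`).  `X = log(a + qK)`, `D = ⌊K^(1/20)⌋₊`.  For `k` with
`Lam (a+qk) ≠ 0` and `D < (a+qk).minFac`: `Ps D q (a+qk) = Gs D q` (`ps_pp`), so
`Lam (a+qk) ≤ X Ps²/Gs²`; the other `k` are at most `2 D X` (`tkl_count` in `WL.TKL`, private: copy it), each
term `≤ X`.  `sel_rough`; `Gs ≥ 1` (`gs_one_le`), `Gs ≥ (φ(q)/q) log(D+1) ≥ (φ(q)/q) (log K)/20` (`gs_ge`).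
Total `≤ 2X² K^(1/20) + 20 X K (q/φ(q))/log K · E + 2 X K^(1/5) K^(1/10)`, `X ≤ K^(1/10)`.
-/

set_option autoImplicit false

namespace Pool.Agent.H35.U

open Finset
open Pool.Agent.H91.EHA (Lam)
open Pool.Agent.H87.WL (PP PPc Mu Om gR Ps Gs Sd Td)

private lemma RghL_count (a q K D : ℕ) (X : ℝ) (hq : 1 ≤ q) (hX0 : 0 ≤ X)
    (hX : ∀ k ∈ Icc 1 K, Real.log ((a + q * k : ℕ) : ℝ) ≤ X) :
    (((Icc 1 K).filter (fun k => Lam (a + q * k) ≠ 0 ∧ (a + q * k).minFac ≤ D)).card : ℝ) ≤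
      D * (2 * X) := by
  set A := (Icc 1 K).filter (fun k => Lam (a + q * k) ≠ 0 ∧ (a + q * k).minFac ≤ D) with hA
  have hpp : ∀ k ∈ A, IsPrimePow (a + q * k) := by
    intro k hk
    rw [hA, mem_filter] at hk
    exact ArithmeticFunction.vonMangoldt_ne_zero_iff.1 hk.2.1
  have h1 : A.card ≤ (Icc 1 D ×ˢ Icc 1 ⌊2 * X⌋₊).card := by
    apply card_le_card_of_injOn
      (fun k => ((a + q * k).minFac, (a + q * k).factorization (a + q * k).minFac))
    · intro k hk
      have hk' : k ∈ A := hk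
      have h2 := hpp k hk'
      have h3 := h2.minFac_pow_factorization_eq
      rw [hA, mem_filter] at hk'
      have hn0 : a + q * k ≠ 0 := h2.ne_zero
      have hprime : (a + q * k).minFac.Prime := Nat.minFac_prime h2.ne_one
      rw [mem_coe, mem_product, mem_Icc, mem_Icc]
      refine ⟨⟨hprime.one_le, hk'.2.2⟩, ?_, ?_⟩
      · show 1 ≤ (a + q * k).factorization (a + q * k).minFac
        exact hprime.factorization_pos_of_dvd hn0 (Nat.minFac_dvd _)
      · show (a + q * k).factorization (a + q * k).minFac ≤ ⌊2 * X⌋₊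
        apply Nat.le_floor
        set j := (a + q * k).factorization (a + q * k).minFac with hj
        have h4 : 2 ^ j ≤ a + q * k := by
          calc 2 ^ j ≤ (a + q * k).minFac ^ j := Nat.pow_le_pow_left hprime.two_le j
            _ = a + q * k := h3
        have h5 : (j : ℝ) * Real.log 2 ≤ X := by
          refine le_trans ?_ (hX k hk'.1)
          rw [← Real.log_pow]
          apply Real.log_le_log (by positivity)
          exact_mod_cast h4
        have h6 : (1:ℝ) / 2 ≤ Real.log 2 := by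
          have := Real.log_two_gt_d9
          linarith only [this]
        have h7 : (0:ℝ) ≤ j := Nat.cast_nonneg _
        nlinarith only [h5, h6]
    · intro k hk k' hk' h
      have h2 := (hpp k hk).minFac_pow_factorization_eq
      have h3 := (hpp k' hk').minFac_pow_factorization_eq
      simp only [Prod.mk.injEq] at h
      rw [← h.2, ← h.1] at h3
      rw [h2] at h3
      have h4 : q * k = q * k' := by omega
      exact Nat.eq_of_mul_eq_mul_left (by omega) h4
  rw [card_product, Nat.card_Icc, Nat.card_Icc, Nat.add_sub_cancel, Nat.add_sub_cancel] at h1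
  calc (A.card : ℝ) ≤ ((D * ⌊2 * X⌋₊ : ℕ) : ℝ) := by exact_mod_cast h1
    _ = D * (⌊2 * X⌋₊ : ℝ) := by push_cast; ring
    _ ≤ D * (2 * X) := mul_le_mul_of_nonneg_left (Nat.floor_le (by linarith)) (Nat.cast_nonneg _)

theorem rgh_lam : ∃ C : ℝ, 0 < C ∧ ∃ K0 : ℕ, ∀ K : ℕ, K0 ≤ K → ∀ (a q P r : ℕ) (S : Finset ℕ),
    1 ≤ q → Nat.Coprime a q → 1 ≤ P → 4 * r ≤ P →
    (∀ p ∈ S, p.Prime ∧ P < p ∧ ¬ p ∣ a * q) →
    ((S.card : ℝ) + 1) ^ (2 * r) ≤ (K : ℝ) ^ ((1 : ℝ) / 10) →
    Real.log ((a : ℝ) + q * K) ≤ (K : ℝ) ^ ((1 : ℝ) / 10) →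
    ∑ k ∈ rS S K, Lam (a + q * k) ≤
      C * (Real.log ((a : ℝ) + q * K) / Real.log K) * (K * ((q : ℝ) / q.totient)) *
        (eb S (2 * r) + 8 * r / P * Real.exp (Mu S)) + (K : ℝ) ^ ((4 : ℝ) / 5) := by
  refine ⟨20, by norm_num, 32, ?_⟩
  intro K hK a q P r S hq haq hP hr hS hSr hX
  have hK3 : (32:ℝ) ≤ K := by exact_mod_cast hK
  have hK0 : (0:ℝ) < K := by linarith only [hK3]
  set X := Real.log ((a : ℝ) + q * K) with hXdef
  set T : ℝ := (K : ℝ) ^ ((1 : ℝ) / 20) with hT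
  set D := ⌊T⌋₊ with hD
  set G := Gs D q with hG
  set E := eb S (2 * r) + 8 * r / P * Real.exp (Mu S) with hE
  have hE0 : 0 ≤ E := by
    have h1 := eb_nonneg S (2 * r)
    have h2 : 0 ≤ 8 * (r:ℝ) / P * Real.exp (Mu S) := by positivity
    rw [hE]
    linarith only [h1, h2]
  have hqR : (1:ℝ) ≤ q := by exact_mod_cast hq
  -- facts on T and D
  have hT1 : 1 ≤ T := Real.one_le_rpow (by linarith only [hK3]) (by norm_num)
  have hT0 : 0 < T := by linarith only [hT1]
  have hT20 : T ^ 20 = K := by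
    rw [hT, ← Real.rpow_natCast, ← Real.rpow_mul hK0.le]
    norm_num
  have hT2 : (K : ℝ) ^ ((1 : ℝ) / 10) = T ^ 2 := by
    rw [hT, ← Real.rpow_natCast, ← Real.rpow_mul hK0.le]
    norm_num
  have hT16 : (K : ℝ) ^ ((4 : ℝ) / 5) = T ^ 16 := by
    rw [hT, ← Real.rpow_natCast, ← Real.rpow_mul hK0.le]
    norm_num
  rw [hT2] at hX hSr
  rw [hT16]
  have hT4 : 2 ≤ T ^ 4 := by
    by_contra hlt
    have h1 : T ^ 4 < 2 := not_le.1 hlt
    have h2 : (T ^ 4) ^ 5 < 2 ^ 5 := pow_lt_pow_left₀ h1 (by positivity) (by norm_num)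
    have h3 : (T ^ 4) ^ 5 = T ^ 20 := by ring
    rw [h3, hT20] at h2
    norm_num at h2
    linarith only [hK, h2]
  have hT8 : 4 ≤ T ^ 8 := by
    have h1 : T ^ 8 = T ^ 4 * T ^ 4 := by ring
    rw [h1]
    nlinarith only [hT4]
  have hDT : (D : ℝ) ≤ T := Nat.floor_le hT0.le
  have hTD : T < (D : ℝ) + 1 := Nat.lt_floor_add_one T
  have hD1 : 1 ≤ D := by
    rw [hD, Nat.one_le_floor_iff]
    exact hT1
  -- log K
  have hlogK : 0 < Real.log K := Real.log_pos (by linarith only [hK3])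
  have hXK : Real.log K ≤ X := by
    apply Real.log_le_log hK0
    have h1 : (0:ℝ) ≤ a := Nat.cast_nonneg _
    nlinarith only [hqR]
  have hX0 : 0 < X := by linarith only [hlogK, hXK]
  have hlogT : Real.log T = Real.log K / 20 := by
    rw [hT, Real.log_rpow hK0]
    ring
  have hG1 : 1 ≤ G := Pool.Agent.H87.WL.gs_one_le D q hD1
  have hG0 : 0 < G := by linarith only [hG1]
  have hlogn : ∀ k ∈ Icc 1 K, Real.log ((a + q * k : ℕ) : ℝ) ≤ X := by
    intro k hk
    rw [mem_Icc] at hk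
    have h1 : 0 < a + q * k := by
      have : 0 < q * k := Nat.mul_pos (by omega) (by omega)
      omega
    apply Real.log_le_log (by exact_mod_cast h1)
    push_cast
    have h2 : (k:ℝ) ≤ K := by exact_mod_cast hk.2
    nlinarith only [h2]
  have hLam : ∀ k ∈ Icc 1 K, Lam (a + q * k) ≤ X := fun k hk =>
    (ArithmeticFunction.vonMangoldt_le_log).trans (hlogn k hk)
  have hsub : rS S K ⊆ Icc 1 K := by
    unfold rS
    exact filter_subset _ _
  -- the termwise bound
  have hterm : ∀ k ∈ rS S K, Lam (a + q * k) ≤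
      (if Lam (a + q * k) ≠ 0 ∧ (a + q * k).minFac ≤ D then X else 0) +
      X / G ^ 2 * Ps D q (a + q * k) ^ 2 := by
    intro k hk
    have hk1 := hsub hk
    have hg : 0 ≤ X / G ^ 2 * Ps D q (a + q * k) ^ 2 := by positivity
    split_ifs with hc
    · have h1 := hLam k hk1
      linarith only [hg, h1]
    · by_cases h0 : Lam (a + q * k) = 0
      · rw [h0, zero_add]
        exact hg
      · have h1 : D < (a + q * k).minFac := by
          by_contra h2
          exact hc ⟨h0, by omega⟩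
        have h2 := Pool.Agent.H87.WL.ps_pp D q (a + q * k) h0 h1
        rw [h2, zero_add, ← hG]
        have h3 : X / G ^ 2 * G ^ 2 = X := by
          field_simp
        rw [h3]
        exact hLam k hk1
  have hsum := sum_le_sum hterm
  rw [sum_add_distrib, ← mul_sum] at hsum
  -- part 1
  have hpart1 : ∑ k ∈ rS S K, (if Lam (a + q * k) ≠ 0 ∧ (a + q * k).minFac ≤ D
      then X else 0) ≤ 2 * T ^ 8 := by
    have h0 : ∑ k ∈ rS S K, (if Lam (a + q * k) ≠ 0 ∧ (a + q * k).minFac ≤ D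
      then X else 0) ≤ ∑ k ∈ Icc 1 K, (if Lam (a + q * k) ≠ 0 ∧ (a + q * k).minFac ≤ D
      then X else 0) := by
      apply sum_le_sum_of_subset_of_nonneg hsub
      intro k _ _
      split_ifs
      · exact hX0.le
      · exact le_rfl
    refine h0.trans ?_
    rw [← sum_filter, sum_const, nsmul_eq_mul]
    have h1 := RghL_count a q K D X hq hX0.le hlogn
    calc _ ≤ (D * (2 * X)) * X := mul_le_mul_of_nonneg_right h1 hX0.le
      _ = 2 * ((D:ℝ) * (X * X)) := by ring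
      _ ≤ 2 * (T * (T ^ 2 * T ^ 2)) := by
          apply mul_le_mul_of_nonneg_left _ (by norm_num)
          exact mul_le_mul hDT (mul_le_mul hX hX hX0.le (by positivity)) (by positivity) hT0.le
      _ = 2 * T ^ 5 := by ring
      _ ≤ 2 * T ^ 8 := by
          apply mul_le_mul_of_nonneg_left _ (by norm_num)
          exact pow_le_pow_right₀ hT1 (by norm_num)
  -- part 2
  have hsel := sel_rough D q a K P r S hq haq hP hS hr
  rw [← hG, ← hE] at hsel
  have hpart2 := mul_le_mul_of_nonneg_left hsel (show 0 ≤ X / G ^ 2 by positivity)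
  have hphi : (0:ℝ) < q.totient := by exact_mod_cast Nat.totient_pos.2 hq
  have hq0 : (0:ℝ) < q := by linarith only [hqR]
  have hGge : (q.totient : ℝ) / q * (Real.log K / 20) ≤ G := by
    refine le_trans ?_ (Pool.Agent.H87.WL.gs_ge D q hq)
    apply mul_le_mul_of_nonneg_left _ (by positivity)
    rw [← hlogT]
    exact Real.log_le_log hT0 hTD.le
  have hinv : 1 / G ≤ 20 * ((q:ℝ) / q.totient) / Real.log K := by
    rw [div_le_iff₀ hG0]
    have h1 : 20 * ((q:ℝ) / q.totient) / Real.log K * ((q.totient : ℝ) / q * (Real.log K / 20))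
        = 1 := by
      field_simp
    calc (1:ℝ) = 20 * ((q:ℝ) / q.totient) / Real.log K *
          ((q.totient : ℝ) / q * (Real.log K / 20)) := h1.symm
      _ ≤ 20 * ((q:ℝ) / q.totient) / Real.log K * G :=
          mul_le_mul_of_nonneg_left hGge (by positivity)
  have hA : X / G ^ 2 * (K * G * E) ≤
      20 * (X / Real.log K) * (K * ((q : ℝ) / q.totient)) * E := by
    have h1 : X / G ^ 2 * (K * G * E) = (X * K * E) * (1 / G) := by
      field_simp
    rw [h1]
    calc (X * K * E) * (1 / G) ≤ (X * K * E) * (20 * ((q:ℝ) / q.totient) / Real.log K) :=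
          mul_le_mul_of_nonneg_left hinv (by positivity)
      _ = 20 * (X / Real.log K) * (K * ((q : ℝ) / q.totient)) * E := by ring
  have hB : X / G ^ 2 * (2 * (D : ℝ) ^ 4 * ((S.card : ℝ) + 1) ^ (2 * r)) ≤ 2 * T ^ 8 := by
    have h1 : X / G ^ 2 ≤ X := by
      apply div_le_self hX0.le
      exact one_le_pow₀ hG1
    have h2 : (D:ℝ) ^ 4 ≤ T ^ 4 := pow_le_pow_left₀ (by positivity) hDT 4
    calc X / G ^ 2 * (2 * (D : ℝ) ^ 4 * ((S.card : ℝ) + 1) ^ (2 * r))
        ≤ T ^ 2 * (2 * T ^ 4 * T ^ 2) := by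
          apply mul_le_mul (h1.trans hX) _ (by positivity) (by positivity)
          exact mul_le_mul (mul_le_mul_of_nonneg_left h2 (by norm_num)) hSr (by positivity)
            (by positivity)
      _ = 2 * T ^ 8 := by ring
  have hsplit : X / G ^ 2 * (K * G * E + 2 * (D : ℝ) ^ 4 * ((S.card : ℝ) + 1) ^ (2 * r)) =
      X / G ^ 2 * (K * G * E) + X / G ^ 2 * (2 * (D : ℝ) ^ 4 * ((S.card : ℝ) + 1) ^ (2 * r)) := by
    ring
  rw [hsplit] at hpart2
  have hT16' : 4 * T ^ 8 ≤ T ^ 16 := by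
    have h1 : T ^ 16 = T ^ 8 * T ^ 8 := by ring
    rw [h1]
    exact mul_le_mul_of_nonneg_right hT8 (by positivity)
  linarith only [hsum, hpart1, hpart2, hA, hB, hT16']

end Pool.Agent.H35.U

end

section

/-!
Rigorous numerical bounds (natural numbers scaled by `SC`) for the quantities of the sieve.
-/

namespace Pool.Agent.H91.Gold

open Finset

/-- Scaling factor. -/
def SC : ℕ := 100000000

theorem SC_pos : (0 : ℝ) < (SC : ℝ) := by unfold SC; norm_num

theorem div_up (a b : ℕ) (hb : 0 < b) : (a : ℝ) / b ≤ ((a / b + 1 : ℕ) : ℝ) := by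
  have hb' : (0 : ℝ) < b := by exact_mod_cast hb
  rw [div_le_iff₀ hb']
  have h1 := Nat.div_add_mod a b
  have h2 := Nat.mod_lt a hb
  have h3 : a ≤ (a / b + 1) * b := by nlinarith
  exact_mod_cast h3

theorem sum_Pr_split (f : ℕ → ℝ) {x y z : ℕ} (h1 : x ≤ y) (h2 : y ≤ z) :
    ∑ p ∈ Pr x z, f p = ∑ p ∈ Pr x y, f p + ∑ p ∈ Pr y z, f p := by
  rw [← Pr_union h1 h2, sum_union (Pr_disjoint le_rfl).symm]

end Pool.Agent.H91.Gold

end

section

/-!
Exact data on the primes up to `65536` in half octaves, by kernel computation.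
-/

namespace Pool.Agent.H91.Gold

open Finset

/-- Ends of the half octaves. -/
def zc (h : ℕ) : ℕ := Nat.sqrt (2 ^ h)

/-- Table of the values of `zc`. -/
def zcL (h : ℕ) : ℕ := [1, 1, 2, 2, 4, 5, 8, 11, 16, 22, 32, 45, 64, 90, 128, 181, 256, 362, 512, 724, 1024,
  1448, 2048, 2896, 4096, 5792, 8192, 11585, 16384, 23170, 32768, 46340, 65536].getD h 0

theorem zcL_check : ∀ h ∈ List.range 33, zcL h * zcL h ≤ 2 ^ h ∧
    2 ^ h < (zcL h + 1) * (zcL h + 1) := by decide +kernel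

theorem zc_eq {h : ℕ} (hh : h < 33) : zc h = zcL h := by
  have := zcL_check h (List.mem_range.2 hh)
  exact (Nat.eq_sqrt.2 this).symm

theorem zc_mono {h h' : ℕ} (hh : h ≤ h') : zc h ≤ zc h' :=
  Nat.sqrt_le_sqrt (Nat.pow_le_pow_right (by norm_num) hh)

/-- Sum of `f` over `[a, a + n)` by binary splitting, valid for `n ≤ 2 ^ k`. -/
noncomputable def rsum (f : ℕ → ℕ) (k : ℕ) : ℕ → ℕ → ℕ :=
  Nat.rec (motive := fun _ => ℕ → ℕ → ℕ) (fun a n => bif Nat.beq n 0 then 0 else f a)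
    (fun _ ih a n => bif Nat.ble n 1 then (bif Nat.beq n 0 then 0 else f a)
      else ih a (n / 2) + ih (a + n / 2) (n - n / 2)) k

theorem rsum_eq (f : ℕ → ℕ) (k : ℕ) : ∀ a n, n ≤ 2 ^ k →
    rsum f k a n = ∑ i ∈ Ico a (a + n), f i := by
  have base : ∀ a n, n ≤ 1 → (bif Nat.beq n 0 then 0 else f a) = ∑ i ∈ Ico a (a + n), f i := by
    intro a n hn
    have : n = 0 ∨ n = 1 := by omega
    rcases this with rfl | rfl
    · simp
    · show f a = _
      simp
  induction k with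
  | zero => intro a n hn; exact base a n (by simpa using hn)
  | succ k ih =>
    intro a n hn
    show (bif Nat.ble n 1 then (bif Nat.beq n 0 then 0 else f a)
      else rsum f k a (n / 2) + rsum f k (a + n / 2) (n - n / 2)) = _
    rw [pow_succ] at hn
    by_cases h : n ≤ 1
    · rw [Nat.ble_eq_true_of_le h, cond_true, base a n h]
    · have h' : Nat.ble n 1 = false := by
        rw [← Bool.not_eq_true, Nat.ble_eq]; exact h
      rw [h', cond_false, ih a _ (by omega), ih _ _ (by omega)]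
      rw [show a + n = (a + n / 2) + (n - n / 2) by omega,
        sum_Ico_consecutive _ (by omega) (by omega)]

/-- The product of the primes up to `251`. -/
def PP : ℕ :=
  64266330917908644872330635228106713310880186591609208114244758680898150367880703152525200743234420230

theorem PP_eq : PP = ((List.range 252).filter isP).prod := by decide +kernel

/-- Superset of the primes (up to `65536` it is the set of the primes). -/
def cop (n : ℕ) : Bool := bif Nat.ble n 256 then isP n else Nat.beq (Nat.gcd n PP) 1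

theorem cop_of_prime {n : ℕ} (hn : n.Prime) : cop n = true := by
  unfold cop
  by_cases h : n ≤ 256
  · rw [Nat.ble_eq_true_of_le h, cond_true]
    exact (isP_iff (by omega)).2 hn
  · have h' : Nat.ble n 256 = false := by
      rw [← Bool.not_eq_true, Nat.ble_eq]; exact h
    rw [h', cond_false, Nat.beq_eq]
    have : Nat.Coprime n PP := by
      rw [Nat.Prime.coprime_iff_not_dvd hn, PP_eq]
      intro hd
      rw [Prime.dvd_prod_iff hn.prime] at hd
      obtain ⟨a, ha, hda⟩ := hd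
      rw [List.mem_filter, List.mem_range] at ha
      have ha2 := (isP_iff (by omega)).1 ha.2
      have := Nat.le_of_dvd ha2.pos hda
      omega
    exact this

/-- Tables for the half octaves, scaled by `SC`: sums of `1/p`, of `1/p^2`, number of primes,
inverse of the product of `1 - g p`. -/
def sH (h : ℕ) : ℕ := [0, 50000001, 0, 33333334, 20000001, 14285715, 9090910, 7692308, 11145511, 11021909,
  7467309, 7348712, 7865089, 6516269, 7084525, 5512335, 5939249, 5763057, 5046916,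
  5088775, 4683596, 4656232, 4455266, 4207704, 4002322, 3881452, 3742488, 3666287,
  3494681, 3349725, 3275497, 3165239].getD h 0

/-- Internal scaling factor. -/
def KK : ℕ := 100000000

/-- Sum of the weight `w` over the half octave `h`. -/
noncomputable def wsum (w : ℕ → ℕ) (h : ℕ) : ℕ :=
  rsum (fun n => bif cop n then w n else 0) 15 (zcL h + 1) (zcL (h + 1) - zcL h)

theorem check_s : ∀ h ∈ List.range 32, wsum (fun n => KK * SC / n + 1) h ≤ KK * sH h := by
  decide +kernel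

theorem zcL_small : ∀ h ∈ List.range 32, zcL h ≤ zcL (h + 1) ∧ zcL (h + 1) - zcL h ≤ 2 ^ 15 ∧
    (2 ≤ h → 2 ≤ zcL h) := by
  decide +kernel

theorem Pr_subset (x y : ℕ) : Pr x y ⊆ (Ico (x + 1) (y + 1)).filter (fun n => cop n = true) := by
  intro p hp
  rw [mem_Pr] at hp
  rw [mem_filter, mem_Ico]
  exact ⟨⟨by omega, by omega⟩, cop_of_prime hp.2⟩

/-- Sums over primes are bounded by the computed sums. -/
theorem sum_le_wsum {h : ℕ} (hh : h < 32) {F : ℕ → ℝ} {w : ℕ → ℕ} {D : ℝ}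
    (hF0 : ∀ n, 0 ≤ F n) (hF : ∀ n, 1 ≤ n → F n * D ≤ w n) (hD : 0 < D) :
    (∑ p ∈ Pr (zc h) (zc (h + 1)), F p) * D ≤ (wsum w h : ℕ) := by
  have h1 := zcL_small h (List.mem_range.2 hh)
  rw [zc_eq (by omega), zc_eq (by omega)]
  unfold wsum
  rw [rsum_eq _ _ _ _ h1.2.1, show zcL h + 1 + (zcL (h + 1) - zcL h) = zcL (h + 1) + 1 by omega]
  have h2 : (∑ p ∈ Pr (zcL h) (zcL (h + 1)), F p)
      ≤ ∑ p ∈ (Ico (zcL h + 1) (zcL (h + 1) + 1)).filter (fun n => cop n = true), F p :=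
    sum_le_sum_of_subset_of_nonneg (Pr_subset _ _) (fun n _ _ => hF0 n)
  refine (mul_le_mul_of_nonneg_right h2 hD.le).trans ?_
  rw [sum_mul, sum_filter, Nat.cast_sum]
  apply sum_le_sum
  intro n hn
  rw [mem_Ico] at hn
  by_cases hc : cop n = true
  · rw [if_pos hc, hc, cond_true]
    exact hF n (by omega)
  · rw [if_neg hc]
    positivity

theorem KS_pos : (0 : ℝ) < (KK * SC : ℕ) := by
  unfold KK SC; norm_num

theorem KK_pos : (0 : ℝ) < (KK : ℕ) := by
  unfold KK; norm_num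

theorem half_s {h : ℕ} (hh : h < 32) :
    ∑ p ∈ Pr (zc h) (zc (h + 1)), (1 : ℝ) / p ≤ (sH h : ℝ) / SC := by
  have h1 := sum_le_wsum hh (F := fun n => (1 : ℝ) / n) (w := fun n => KK * SC / n + 1)
    (D := (KK * SC : ℕ)) (fun n => by positivity) (fun n hn => by
      have := div_up (KK * SC) n (by omega)
      have e : (1 : ℝ) / n * (KK * SC : ℕ) = ((KK * SC : ℕ) : ℝ) / n := by ring
      rw [e]; exact this) KS_pos
  have h2 : ((wsum (fun n => KK * SC / n + 1) h : ℕ) : ℝ) ≤ (KK * sH h : ℕ) := by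
    exact_mod_cast check_s h (List.mem_range.2 hh)
  have h3 := h1.trans h2
  rw [le_div_iff₀ SC_pos]
  push_cast at h3
  have hK := KK_pos
  have h4 : (∑ p ∈ Pr (zc h) (zc (h + 1)), (1 : ℝ) / p) * SC * KK ≤ (sH h : ℝ) * KK := by linarith only [h3]
  exact le_of_mul_le_mul_right h4 hK

/-! ### The number of primes up to a power of two -/

end Pool.Agent.H91.Gold

end
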