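import Pool.Agent.H94.EH.M21
import Pool.Agent.H94.EH.M23

/-! The parts of this file: H91.PK.MR, H35.U.MuU, H35.U.BlkP. -/

section

/-!
PK MR: Rankin bound for the reciprocals of large smooth numbers.

S a finite set of odd d > y ≥ 1, all prime factors ≤ Q, Q ≥ e^24, λ = log Q:
   ∑_{d∈S} 1/d ≤ λ exp(11.5 - 2.5 log y/λ).
Proof. η = 2.5/λ ≤ 0.1042; 1/d ≤ (d/y)^η/d; ∑_{d∈S} d^{η-1} ≤ ∏_{3≤q≤Q} (1-q^{η-1})^{-1}  (Euler product).
 log of the product ≤ ∑ (u + u²/(2(1-u))), u = q^{η-1} ≤ q^{-3/4}: second part ≤ 0.5012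
  (q=3: 0.17144, q=5: 0.06382, rest ≤ 0.6514 ∑_{odd n≥7} n^{-3/2} ≤ 0.6514/√6).
 ∑ q^{η-1} ≤ ∑ 1/q + ∑ (q^η-1)/q, q^η - 1 ≤ (e^{2.5}-1) log q/λ (convexity of exp on [0, 2.5]), and
  ∑_{3≤q≤Q} (log q)/q ≤ Mt ⌊Q⌋ - (log 2)/2 ≤ log Q (`Gold.Mt_le`), e^{2.5}-1 ≤ 11.1826.
 ∑_{3≤q≤Q} 1/q ≤ log λ - 0.211 (tables up to 65536, then `Gold.mertens_wz`).
 Total: log λ - 0.211 + 11.1826 + 0.5012 ≤ log λ + 11.5.
-/

set_option autoImplicit false

namespace Pool.Agent.H91.PK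

open Finset Pool.Agent.H91.Gold

/-! ### Sums over primes -/

theorem MR_small : ∑ p ∈ Pr 2 65536, (1 : ℝ) / p ≤ 2.16783 := by
  have key : ∀ d : ℕ, d ≤ 30 → ∑ p ∈ Pr 2 (zc (2 + d)), (1 : ℝ) / p ≤
      ((∑ i ∈ range d, sH (2 + i) : ℕ) : ℝ) / SC := by
    intro d
    induction d with
    | zero =>
      intro _
      have h : zc (2 + 0) = 2 := by rw [zc_eq (by norm_num)]; rfl
      rw [h]
      have : Pr 2 2 = ∅ := by unfold Pr; simp
      rw [this]; simp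
    | succ d ih =>
      intro hd
      have h2 : 2 ≤ zc (2 + d) := by
        have h := zc_mono (show 2 ≤ 2 + d by omega)
        have h' : zc 2 = 2 := by rw [zc_eq (by norm_num)]; rfl
        omega
      rw [sum_Pr_split _ h2 (zc_mono (show 2 + d ≤ 2 + (d + 1) by omega))]
      have h3 := ih (by omega)
      have h4 := half_s (h := 2 + d) (by omega)
      rw [show 2 + d + 1 = 2 + (d + 1) by ring] at h4
      rw [sum_range_succ]
      push_cast at h3 ⊢
      rw [add_div]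
      linarith
  have h := key 30 le_rfl
  have h65 : zc (2 + 30) = 65536 := by rw [zc_eq (by norm_num)]; decide
  rw [h65] at h
  have hsum : ∑ i ∈ range 30, sH (2 + i) = 216782413 := by decide +kernel
  rw [hsum] at h
  refine h.trans ?_
  unfold SC
  norm_num

theorem MR_log65536 : (2.4 : ℝ) ≤ Real.log (Real.log 65536) := by
  have h1 : (11.09 : ℝ) ≤ Real.log 65536 := by
    have : (65536 : ℝ) = 2 ^ 16 := by norm_num
    rw [this, Real.log_pow]
    have := Real.log_two_gt_d9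
    push_cast
    linarith
  rw [Real.le_log_iff_exp_le (by linarith)]
  refine le_trans ?_ h1
  have h3 : (Real.exp 2.4) ^ 5 ≤ (11.09 : ℝ) ^ 5 := by
    have h4 : (Real.exp 2.4) ^ 5 = (Real.exp 1) ^ 12 := by
      rw [← Real.exp_nat_mul, ← Real.exp_nat_mul]; norm_num
    rw [h4]
    calc (Real.exp 1) ^ 12 ≤ (2.7182818286 : ℝ) ^ 12 := by
          have := Real.exp_one_lt_d9
          gcongr
      _ ≤ (11.09 : ℝ) ^ 5 := by norm_num
  exact le_of_pow_le_pow_left₀ (by norm_num) (by norm_num) h3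

/-- `∑ 1/q` over the odd primes up to `n`. -/
theorem MR_sum_inv {n : ℕ} (hn : 65536 ≤ n) {l : ℝ} (hl : Real.log n ≤ l) :
    ∑ q ∈ Pr 2 n, (1 : ℝ) / q ≤ Real.log l - 0.211 := by
  have hnr : (65536 : ℝ) ≤ n := by exact_mod_cast hn
  have hlog : (11.09 : ℝ) ≤ Real.log 65536 := by
    have : (65536 : ℝ) = 2 ^ 16 := by norm_num
    rw [this, Real.log_pow]
    have := Real.log_two_gt_d9
    push_cast
    linarith
  have hlogn : Real.log 65536 ≤ Real.log n := Real.log_le_log (by norm_num) hnr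
  rw [sum_Pr_split _ (show 2 ≤ 65536 by norm_num) hn]
  have h1 := MR_small
  have h2 := mertens_wz (w := 65536) (z := n) le_rfl hn
  have h3 : Real.log (Real.log n / Real.log ((65536 : ℕ) : ℝ)) =
      Real.log (Real.log n) - Real.log (Real.log 65536) := by
    rw [Real.log_div (by linarith) (by push_cast; linarith)]
    norm_num
  rw [h3] at h2
  have h4 : (0.2295 : ℝ) / Real.log ((65536 : ℕ) : ℝ) ≤ 0.0207 := by
    push_cast
    rw [div_le_iff₀ (by linarith)]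
    nlinarith
  have h5 := MR_log65536
  have h6 : Real.log (Real.log n) ≤ Real.log l := Real.log_le_log (by linarith) hl
  linarith

/-! ### The Euler factors -/

/-! ### The Euler product -/

end Pool.Agent.H91.PK

end

section

/-!
# U MuU: Mertens' estimates for `Mu (PP P P')`

From `Pool.Agent.H3.LC.Mertens` as in `W.Rough` (private lemmas there: `∑_{p ≤ y} 1/p ≤ loglog y + C` and
`log(log Z/log P) - 4 ≤ ∑_{P<p≤Z} 1/p`): copy these proofs.
`mu_exp`: if `log P' < ...` is small everything is trivial with a large constant: `exp(-Mu) ≤ 1`.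
-/

set_option autoImplicit false

namespace Pool.Agent.H35.U

open Finset
open Pool.Agent.H87.WL (PP PPc Mu Om)

open Pool.Agent.H91.Gold (Pr) in
private theorem muU_upper : ∃ C : ℝ, 0 < C ∧ ∀ y : ℕ, 2 ≤ y →
    ∑ p ∈ (Icc 1 y).filter Nat.Prime, (1 : ℝ) / p ≤ Real.log (Real.log y) + C := by
  have hll : (0 : ℝ) < Real.log 65536 := Real.log_pos (by norm_num)
  have hl2 : (0 : ℝ) < Real.log 2 := Real.log_pos (by norm_num)
  have key : ∀ y : ℕ, 65536 ≤ y →
      ∑ p ∈ (Icc 1 y).filter Nat.Prime, (1 : ℝ) / p ≤ Real.log (Real.log y) + 1 := by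
    intro y hy
    have h1 := Pool.Agent.H91.PK.MR_sum_inv hy (le_refl (Real.log y))
    have hsub : (Icc 1 y).filter Nat.Prime ⊆ insert 2 (Pr 2 y) := by
      intro p hp
      rw [mem_filter, mem_Icc] at hp
      rw [mem_insert]
      rcases Nat.lt_or_ge 2 p with h | h
      · right
        unfold Pr
        rw [mem_filter, mem_Ioc]
        exact ⟨⟨h, hp.1.2⟩, hp.2⟩
      · left
        have := hp.2.two_le
        omega
    have h2 : ∑ p ∈ (Icc 1 y).filter Nat.Prime, (1 : ℝ) / p ≤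
        ∑ p ∈ insert 2 (Pr 2 y), (1 : ℝ) / p :=
      Finset.sum_le_sum_of_subset_of_nonneg hsub (fun _ _ _ => by positivity)
    have h3 : (2 : ℕ) ∉ Pr 2 y := by
      unfold Pr
      rw [mem_filter, mem_Ioc]
      omega
    rw [Finset.sum_insert h3] at h2
    push_cast at h2
    linarith only [h1, h2]
  refine ⟨1 + |Real.log (Real.log 65536)| + |Real.log (Real.log 2)|, by positivity, ?_⟩
  intro y hy
  rcases Nat.lt_or_ge y 65536 with h | h
  · have h1 := key 65536 le_rfl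
    have h2 : ∑ p ∈ (Icc 1 y).filter Nat.Prime, (1 : ℝ) / p ≤
        ∑ p ∈ (Icc 1 65536).filter Nat.Prime, (1 : ℝ) / p := by
      apply Finset.sum_le_sum_of_subset_of_nonneg
      · apply Finset.filter_subset_filter
        apply Finset.Icc_subset_Icc le_rfl h.le
      · intro _ _ _; positivity
    have h3 : Real.log (Real.log 2) ≤ Real.log (Real.log y) := by
      apply Real.log_le_log hl2
      apply Real.log_le_log (by norm_num)
      exact_mod_cast hy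
    have h4 := neg_abs_le (Real.log (Real.log 2))
    have h5 := le_abs_self (Real.log (Real.log 65536))
    push_cast at h1
    linarith only [h1, h2, h3, h4, h5]
  · have h1 := key y h
    have h4 := abs_nonneg (Real.log (Real.log 2))
    have h5 := abs_nonneg (Real.log (Real.log 65536))
    linarith only [h1, h4, h5]

open Pool.Agent.H91.Gold (Pr) in
private theorem muU_Pr_mono (P w Z : ℕ) (h : P ≤ w) :
    ∑ p ∈ Pr w Z, (1 : ℝ) / p ≤ ∑ p ∈ (Ioc P Z).filter Nat.Prime, (1 : ℝ) / p := by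
  apply Finset.sum_le_sum_of_subset_of_nonneg
  · intro p hp
    unfold Pr at hp
    rw [mem_filter, mem_Ioc] at hp ⊢
    exact ⟨⟨lt_of_le_of_lt h hp.1.1, hp.1.2⟩, hp.2⟩
  · intro _ _ _; positivity

open Pool.Agent.H91.Gold (Pr) in
private theorem muU_lower (P Z : ℕ) (hP : 2 ≤ P) (hPZ : P ≤ Z) :
    Real.log (Real.log Z / Real.log P) - 4 ≤ ∑ p ∈ (Ioc P Z).filter Nat.Prime, (1 : ℝ) / p := by
  have hlP : (0 : ℝ) < Real.log P := Real.log_pos (by exact_mod_cast hP)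
  have hlZ : (0 : ℝ) < Real.log Z := Real.log_pos (by exact_mod_cast (by omega : 1 < Z))
  have hZ0 : (0 : ℝ) < Z := by
    have : 0 < Z := by omega
    exact_mod_cast this
  have hl2 : (0 : ℝ) < Real.log 2 := Real.log_pos (by norm_num)
  have hl6 : Real.log 65536 = 16 * Real.log 2 := by
    rw [show (65536 : ℝ) = 2 ^ 16 by norm_num, Real.log_pow]; norm_num
  have hl6' : (11 : ℝ) ≤ Real.log 65536 := by
    rw [hl6]; have := Real.log_two_gt_d9; linarith only [hl2, this]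
  have hl16 : Real.log 16 ≤ 3 := by
    rw [show (16 : ℝ) = 2 ^ 4 by norm_num, Real.log_pow]
    have := Real.log_two_lt_d9; push_cast; linarith only [hl2, this]
  rcases Nat.lt_or_ge P 65536 with h | h
  · have hP2 : Real.log 2 ≤ Real.log P := Real.log_le_log (by norm_num) (by exact_mod_cast hP)
    rcases Nat.lt_or_ge Z 65536 with hz | hz
    · have h1 : Real.log Z ≤ Real.log 65536 := Real.log_le_log (by positivity) (by exact_mod_cast hz.le)
      have h2 : Real.log Z / Real.log P ≤ 16 := by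
        rw [div_le_iff₀ hlP]; rw [hl6] at h1; nlinarith only [hP2, h1]
      have h3 : Real.log (Real.log Z / Real.log P) ≤ Real.log 16 :=
        Real.log_le_log (by positivity) h2
      have h4 : (0 : ℝ) ≤ ∑ p ∈ (Ioc P Z).filter Nat.Prime, (1 : ℝ) / p :=
        Finset.sum_nonneg (fun _ _ => by positivity)
      linarith only [hl16, h3, h4]
    · have h1 := Pool.Agent.H91.PK.mertens_lower (le_refl 65536) hz
      have h2 : ∑ p ∈ Pr 65536 Z, (1 : ℝ) / p ≤ ∑ p ∈ (Ioc P Z).filter Nat.Prime, (1 : ℝ) / p :=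
        muU_Pr_mono P 65536 Z h.le
      have h3 : (0.25 : ℝ) / Real.log ((65536 : ℕ) : ℝ) ≤ 1 := by
        push_cast
        rw [div_le_one (by linarith only [hl2, hl6])]; linarith only [hl2, hl6, hl6']
      have h4 : Real.log (Real.log Z / Real.log P) - Real.log 16 ≤
          Real.log (Real.log Z / Real.log ((65536 : ℕ) : ℝ)) := by
        push_cast
        rw [← Real.log_div (by positivity) (by norm_num)]
        apply Real.log_le_log (by positivity)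
        rw [div_div]
        apply div_le_div_of_nonneg_left hlZ.le (by linarith only [hl2, hl6])
        rw [hl6]; nlinarith only [hP2]
      linarith only [hl16, h1, h2, h3, h4]
  · have h1 := Pool.Agent.H91.PK.mertens_lower h hPZ
    have h3 : (0.25 : ℝ) / Real.log P ≤ 1 := by
      have : Real.log 65536 ≤ Real.log P := Real.log_le_log (by norm_num) (by exact_mod_cast h)
      rw [div_le_one hlP]; linarith only [hl2, hl6, hl6', this]
    have h2 : ∑ p ∈ Pr P Z, (1 : ℝ) / p = ∑ p ∈ (Ioc P Z).filter Nat.Prime, (1 : ℝ) / p := rfl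
    linarith only [h1, h3, h2]

theorem mu_exp : ∃ C : ℝ, 0 < C ∧ ∀ P P' : ℕ, 2 ≤ P → P ≤ P' →
    Real.exp (-Mu (PP P P')) ≤ C * (Real.log P / Real.log P') := by
  refine ⟨Real.exp 4, Real.exp_pos _, fun P P' hP hPP => ?_⟩
  have hlP : (0 : ℝ) < Real.log P := Real.log_pos (by exact_mod_cast hP)
  have hlZ : (0 : ℝ) < Real.log P' := Real.log_pos (by exact_mod_cast (by omega : 1 < P'))
  have h1 : Real.log (Real.log P' / Real.log P) - 4 ≤ Mu (PP P P') := muU_lower P P' hP hPP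
  have h2 : -Mu (PP P P') ≤ 4 + Real.log (Real.log P / Real.log P') := by
    have e : Real.log (Real.log P / Real.log P') = -Real.log (Real.log P' / Real.log P) := by
      rw [← Real.log_inv, inv_div]
    rw [e]
    linarith only [h1]
  calc Real.exp (-Mu (PP P P')) ≤ Real.exp (4 + Real.log (Real.log P / Real.log P')) :=
        Real.exp_le_exp.2 h2
    _ = Real.exp 4 * (Real.log P / Real.log P') := by
        rw [Real.exp_add, Real.exp_log (by positivity)]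

theorem mu_loglog : ∃ C : ℝ, 0 < C ∧ ∀ P P' : ℕ, 3 ≤ P' →
    Mu (PP P P') ≤ Real.log (Real.log P') + C := by
  obtain ⟨C, hC, h⟩ := muU_upper
  refine ⟨C, hC, fun P P' hP => (?_ : _ ≤ _).trans (h P' (by omega))⟩
  unfold Mu PP
  apply Finset.sum_le_sum_of_subset_of_nonneg
  · intro p hp
    rw [mem_filter, mem_Ioc] at hp
    rw [mem_filter, mem_Icc]
    exact ⟨⟨hp.2.one_lt.le, hp.1.2⟩, hp.2⟩
  · intro _ _ _
    positivity

end Pool.Agent.H35.U

end

section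

/-!
# U BlkP: the pointwise part, numerically

Everything on the left of the conclusion is at most `C rho x H · x/φ(q)`.  `L = log x`, `l = log L`, `R = ⌊L^B⌋₊`,
`P' = P 2^J`, `b ≥ 3B + 10`, `C2 ≥ 10`.  Facts: `rho x H ≥ l²/L ≥ 1/L` (large `x`; `log H ≥ 0`);
`gR R q ≤ q/φ(q)` (sum over all divisors, private `lam2_sum` in `EHA.Lam2`: `∑_{c ∣ q} μ²(c)/φ(c) = q/φ(q)`);
`q/φ(q) ≥ 1`; `Mu (PP P P') ≤ log(log P') + C ≤ l + C` (`mu_loglog`, `P' ≤ x`), so `exp(Mu) ≤ e^C L`;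
`mu_ppc`: `Mu (PPc P P' n) ≥ Mu (PP P P') - (Nat.log 2 n)/P ≥ Mu (PP P P') - 1` for `n = a`, `n = a q`
(`Nat.log 2 n ≤ 3L ≤ P`), so
`eb (PPc ..) (2r) ≤ e exp(-Mu (PP P P')) + e^(8C) L^8/L^40 ≤ C' (log P/log P') + L^(-30) ≤ C'' rho x H` (`mu_exp`).
1. `rgh_lam` with `K = (x-a)/q` (`≥ x^((1-θ)/2)` and `q K ≤ x`; `log(a+qK) ≤ L`, `log K ≥ (1-θ)L/4`;
   `((S.card)+1)^(2r) ≤ (P'+1)^(2r) ≤ x^((1-θ)/100) ≤ K^(1/10)` as `K ≥ x^((1-θ)/2)`;
   `L ≤ K^(1/10)`), `S = PPc P P' (a q)`: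
   `≤ C (4/(1-θ)) (x/φ(q)) (eb + L^(-2) e^C L) + (x/q)^(4/5)`.
2. `(x/q) gR eb ≤ (x/φ(q)) C'' rho`.
3. `(x/q) L^(-40) (1 + e^C L)`; 4. `(M/q)(L + gR) ≤ 2 L^(-3) (x/q)(L + ..)`; `M ≤ 2x/L^3`;
   `L + 2R³(1+(P'+1)^(2r)) ≤ L^(3B+1) x^((1-θ)/50) ≤ (x/q)/L`;
   `(Nat.log 2 a)(K/P) R³ ≤ 3L (x/Q) (2/L^b) L^(3B)`, `x/Q ≤ 2x/q` (`q ≤ 2Q`).
-/

set_option autoImplicit false

namespace Pool.Agent.H35.U

open Finset
open Pool.Agent.H91.EHA (Lam lamR hR psiA)
open Pool.Agent.H87.WL (PP PPc Mu Om gR)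

private noncomputable def blkpF : ArithmeticFunction ℝ :=
  ⟨fun n => (ArithmeticFunction.moebius n : ℝ) ^ 2 / (n.totient : ℝ), by simp⟩

private noncomputable def blkpG : ArithmeticFunction ℝ :=
  ⟨fun n => (n : ℝ) / (n.totient : ℝ), by simp⟩

private theorem blkpF_apply (n : ℕ) :
    blkpF n = (ArithmeticFunction.moebius n : ℝ) ^ 2 / (n.totient : ℝ) := rfl

private theorem blkpG_apply (n : ℕ) : blkpG n = (n : ℝ) / (n.totient : ℝ) := rfl

private theorem blkpF_mult : blkpF.IsMultiplicative := by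
  refine ⟨by simp [blkpF_apply], fun {m n} h => ?_⟩
  rw [blkpF_apply, blkpF_apply, blkpF_apply, Nat.totient_mul h,
    ArithmeticFunction.isMultiplicative_moebius.map_mul_of_coprime h]
  push_cast
  rw [mul_pow, mul_div_mul_comm]

private theorem blkpG_mult : blkpG.IsMultiplicative := by
  refine ⟨by simp [blkpG_apply], fun {m n} h => ?_⟩
  rw [blkpG_apply, blkpG_apply, blkpG_apply, Nat.totient_mul h]
  push_cast
  rw [mul_div_mul_comm]

private theorem blkp_conv : blkpF * (ArithmeticFunction.zeta : ArithmeticFunction ℝ) = blkpG := by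
  have h1 : (blkpF * (ArithmeticFunction.zeta : ArithmeticFunction ℝ)).IsMultiplicative :=
    blkpF_mult.mul ArithmeticFunction.isMultiplicative_zeta.natCast
  rw [h1.eq_iff_eq_on_prime_powers _ _ blkpG_mult]
  intro p i hp
  rw [ArithmeticFunction.coe_mul_zeta_apply]
  rcases i with _ | k
  · simp [blkpF_apply, blkpG_apply]
  · rw [Nat.sum_divisors_prime_pow hp, sum_range_succ', sum_range_succ', sum_eq_zero]
    · have hp1 : (1 : ℝ) < p := by exact_mod_cast hp.one_lt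
      have hpne : (p : ℝ) ≠ 0 := by positivity
      have hp1ne : (p : ℝ) - 1 ≠ 0 := by linarith
      rw [blkpF_apply, blkpF_apply, blkpG_apply, zero_add, zero_add, pow_one, pow_zero,
        ArithmeticFunction.moebius_apply_prime hp, Nat.totient_prime hp,
        Nat.totient_prime_pow_succ hp, ArithmeticFunction.moebius_apply_one, Nat.totient_one]
      have h2 : ((p - 1 : ℕ) : ℝ) = (p : ℝ) - 1 := by
        rw [Nat.cast_sub hp.one_lt.le, Nat.cast_one]
      push_cast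
      rw [h2, pow_succ]
      field_simp
      ring
    · intro j _
      rw [blkpF_apply, ArithmeticFunction.moebius_apply_prime_pow hp (by omega), if_neg (by omega)]
      simp

private theorem blkp_sum (q : ℕ) :
    ∑ c ∈ q.divisors, (ArithmeticFunction.moebius c : ℝ) ^ 2 / (c.totient : ℝ) =
      (q : ℝ) / (q.totient : ℝ) := by
  have h := congrArg (fun f : ArithmeticFunction ℝ => f q) blkp_conv
  simp only [ArithmeticFunction.coe_mul_zeta_apply] at h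
  exact h

private theorem blkp_gR (R q : ℕ) : gR R q ≤ (q : ℝ) / q.totient := by
  rw [← blkp_sum q]
  unfold gR
  exact sum_le_sum_of_subset_of_nonneg (filter_subset _ _) fun _ _ _ => by positivity

private theorem blkp_big (n : ℕ) (A c : ℝ) (hc : 0 < c) : ∃ x0 : ℕ, ∀ x : ℕ, x0 ≤ x →
    A * Real.log x ^ n ≤ (x : ℝ) ^ c := by
  have h1 := isLittleO_log_rpow_rpow_atTop (n : ℝ) hc
  have h2 := h1.def (show (0 : ℝ) < 1 / (|A| + 1) by positivity)
  have h3 := h2.and (Filter.eventually_ge_atTop (1 : ℝ))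
  obtain ⟨x0, hx0⟩ := Filter.eventually_atTop.1 h3
  refine ⟨⌈x0⌉₊, fun x hx => ?_⟩
  obtain ⟨h4, h5⟩ := hx0 x ((Nat.le_ceil _).trans (by exact_mod_cast hx))
  have hL : 0 ≤ Real.log x := Real.log_nonneg h5
  rw [Real.rpow_natCast, Real.norm_of_nonneg (by positivity), Real.norm_of_nonneg (by positivity)] at h4
  have h6 : A * Real.log x ^ n ≤ (|A| + 1) * Real.log x ^ n := by
    gcongr
    linarith only [le_abs_self A]
  have h7 : (|A| + 1) * Real.log x ^ n ≤ (|A| + 1) * (1 / (|A| + 1) * (x : ℝ) ^ c) := by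
    gcongr
  have h8 : (|A| + 1) * (1 / (|A| + 1) * (x : ℝ) ^ c) = (x : ℝ) ^ c := by
    have : |A| + 1 ≠ 0 := by positivity
    field_simp
  linarith only [h6, h7, h8]

private theorem blkp_log (A : ℝ) : ∃ x0 : ℕ, ∀ x : ℕ, x0 ≤ x → A ≤ Real.log x := by
  refine ⟨⌈Real.exp A⌉₊, fun x hx => ?_⟩
  have h1 : Real.exp A ≤ x := (Nat.le_ceil _).trans (by exact_mod_cast hx)
  have := Real.log_le_log (Real.exp_pos _) h1
  rwa [Real.log_exp] at this

private theorem blkp_eb {C2 C3 C0 ρ L : ℝ} {P P' n r : ℕ}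
    (hexp : Real.exp (-Mu (PP P P')) ≤ C2 * (Real.log P / Real.log P')) (hC2 : 0 ≤ C2)
    (hlog : Mu (PP P P') ≤ Real.log L + C3) (hL : 1 ≤ L) (hn : 1 ≤ n) (hP : 1 ≤ P)
    (hnP : (Nat.log 2 n : ℝ) ≤ P) (hr : Real.log P / Real.log P' ≤ C0 * ρ)
    (h8 : L ^ 40 ≤ (8 : ℝ) ^ (2 * r)) (hρ : 1 / L ≤ ρ) :
    eb (PPc P P' n) (2 * r) ≤ (Real.exp 1 * C2 * C0 + Real.exp (8 * C3)) * ρ := by
  have hL0 : 0 < L := by linarith only [hL]
  have hP0 : (0 : ℝ) < P := by exact_mod_cast hP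
  have h1 := Pool.Agent.H87.WL.mu_ppc P P' n hn hP
  have h2 : (Nat.log 2 n : ℝ) / P ≤ 1 := by
    rw [div_le_one hP0]; exact hnP
  have h3 : Mu (PPc P P' n) ≤ Mu (PP P P') := Pool.Agent.H87.WL.Mu_mono (filter_subset _ _)
  have h4 : Real.exp (-Mu (PPc P P' n)) ≤ Real.exp 1 * C2 * C0 * ρ := by
    calc Real.exp (-Mu (PPc P P' n)) ≤ Real.exp (1 + -Mu (PP P P')) :=
          Real.exp_le_exp.2 (by linarith only [h1, h2])
      _ = Real.exp 1 * Real.exp (-Mu (PP P P')) := Real.exp_add _ _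
      _ ≤ Real.exp 1 * (C2 * (C0 * ρ)) := by
          apply mul_le_mul_of_nonneg_left _ (Real.exp_pos _).le
          exact hexp.trans (mul_le_mul_of_nonneg_left hr hC2)
      _ = _ := by ring
  have h5 : Real.exp (8 * Mu (PPc P P' n)) ≤ Real.exp (8 * C3) * L ^ 8 := by
    calc Real.exp (8 * Mu (PPc P P' n)) ≤ Real.exp (8 * C3 + (8 : ℕ) * Real.log L) :=
          Real.exp_le_exp.2 (by push_cast; linarith only [hlog, h3])
      _ = Real.exp (8 * C3) * Real.exp ((8 : ℕ) * Real.log L) := Real.exp_add _ _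
      _ = Real.exp (8 * C3) * L ^ 8 := by
          rw [Real.exp_nat_mul, Real.exp_log hL0]
  have h6 : Real.exp (8 * Mu (PPc P P' n)) / 8 ^ (2 * r) ≤ Real.exp (8 * C3) * ρ := by
    rw [div_le_iff₀ (by positivity)]
    have hρ0 : 0 ≤ ρ := le_trans (by positivity) hρ
    calc Real.exp (8 * Mu (PPc P P' n)) ≤ Real.exp (8 * C3) * L ^ 8 := h5
      _ ≤ Real.exp (8 * C3) * (1 / L * L ^ 40) := by
          apply mul_le_mul_of_nonneg_left _ (Real.exp_pos _).le
          have : 1 / L * L ^ 40 = L ^ 39 := by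
            field_simp
          rw [this]
          exact pow_le_pow_right₀ hL (by norm_num)
      _ ≤ Real.exp (8 * C3) * (ρ * 8 ^ (2 * r)) := by
          apply mul_le_mul_of_nonneg_left _ (Real.exp_pos _).le
          exact mul_le_mul hρ h8 (by positivity) hρ0
      _ = _ := by ring
  unfold eb
  linarith only [h4, h6]

private theorem blkp_natlog (n : ℕ) (hn : 1 ≤ n) : (Nat.log 2 n : ℝ) * Real.log 2 ≤ Real.log n := by
  have h1 : 2 ^ Nat.log 2 n ≤ n := Nat.pow_log_le_self 2 (by omega)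
  have h2 : ((2 : ℝ)) ^ Nat.log 2 n ≤ n := by exact_mod_cast h1
  have h3 := Real.log_le_log (by positivity) h2
  rwa [Real.log_pow] at h3

private theorem blkp_K (x a q : ℕ) (u : ℝ) (hu8 : 8 ≤ u) (hq1 : 1 ≤ q)
    (hqu : (q : ℝ) * u ^ 20 ≤ 2 * (x : ℝ)) (hau : (a : ℝ) * u ^ 20 ≤ 2 * (x : ℝ)) :
    u ^ 2 ≤ u ^ 20 / 8 ∧ a ≤ x ∧ (q : ℝ) ≤ x ∧ u ^ 20 / 2 ≤ (x : ℝ) / q ∧
    (a : ℝ) + q * (((x - a) / q : ℕ) : ℝ) ≤ x ∧ (((x - a) / q : ℕ) : ℝ) ≤ (x : ℝ) / q ∧
    u ^ 10 ≤ (((x - a) / q : ℕ) : ℝ) := by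
  have hu0 : 0 < u := by linarith only [hu8]
  have hu1 : 1 ≤ u := by linarith only [hu8]
  have hq0 : (0 : ℝ) < q := by exact_mod_cast hq1
  have hu2 : u ^ 2 ≤ u ^ 20 / 8 := by
    have h1 : u ^ 3 ≤ u ^ 20 := pow_le_pow_right₀ hu1 (by norm_num)
    have h2 : u ^ 2 * 8 ≤ u ^ 3 := by
      have : u ^ 3 = u ^ 2 * u := by ring
      rw [this]
      gcongr
    linarith only [h1, h2]
  have hu64 : 64 ≤ u ^ 2 := by nlinarith only [hu8]
  have ha2 : (a : ℝ) ≤ x / 2 := by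
    have h1 : (a : ℝ) * 4 ≤ a * u ^ 20 := by
      apply mul_le_mul_of_nonneg_left _ (Nat.cast_nonneg a)
      linarith only [hu2, hu64]
    linarith only [hau, h1]
  have hx0 : (0 : ℝ) ≤ x := Nat.cast_nonneg x
  have hax : a ≤ x := by
    have : (a : ℝ) ≤ x := by linarith
    exact_mod_cast this
  have hqle : (q : ℝ) ≤ x := by
    have h1 : (q : ℝ) * 4 ≤ q * u ^ 20 := by
      apply mul_le_mul_of_nonneg_left _ hq0.le
      linarith only [hu2, hu64]
    linarith only [hqu, hq0, h1]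
  obtain ⟨K, hK⟩ : ∃ K : ℕ, K = (x - a) / q := ⟨_, rfl⟩
  rw [← hK]
  have hKq : q * K ≤ x - a := by rw [hK]; exact Nat.mul_div_le _ _
  have hKq' : x - a < q * (K + 1) := by rw [hK]; exact Nat.lt_mul_div_succ _ hq1
  have haKx : (a : ℝ) + q * K ≤ x := by
    have : a + q * K ≤ x := by omega
    exact_mod_cast this
  have hxK : (x : ℝ) ≤ a + q * (K + 1) := by
    have : x ≤ a + q * (K + 1) := by omega
    exact_mod_cast this
  obtain ⟨Y, hY⟩ : ∃ Y : ℝ, Y = (x : ℝ) / q := ⟨_, rfl⟩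
  have hYq : Y * q = x := by rw [hY]; field_simp
  have hYu : u ^ 20 / 2 ≤ Y := by
    rw [hY, le_div_iff₀ hq0]
    linarith only [hqu]
  have hKY : (K : ℝ) ≤ Y := by
    rw [hY, le_div_iff₀ hq0]
    have : (0 : ℝ) ≤ a := Nat.cast_nonneg a
    linarith only [haKx]
  refine ⟨hu2, hax, hqle, hY ▸ hYu, haKx, hY ▸ hKY, ?_⟩
  have h1 : (x : ℝ) / 2 ≤ q * (K + 1) := by linarith only [ha2, hxK]
  have h2 : Y / 2 ≤ K + 1 := by
    have h3 : Y / 2 * q ≤ (K + 1) * q := by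
      have : Y / 2 * q = x / 2 := by rw [← hYq]; ring
      rw [this]
      linarith only [ha2, hxK]
    exact le_of_mul_le_mul_right h3 hq0
  have h4 : u ^ 20 = u ^ 10 * u ^ 10 := by ring
  have h5 : 64 ≤ u ^ 10 := hu64.trans (pow_le_pow_right₀ hu1 (by norm_num))
  rw [h4] at hYu
  obtain ⟨w, hw⟩ : ∃ w : ℝ, w = u ^ 10 := ⟨_, rfl⟩
  rw [← hw] at hYu h5 ⊢
  clear * - hYu h5 h2
  nlinarith only [h2, h5, hYu]

private theorem blkp_K' (K : ℕ) (u L Y : ℝ) (hu1 : 1 ≤ u) (hK1 : (1 : ℝ) ≤ K) (hKu : u ^ 10 ≤ K)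
    (hLu : L ≤ u) (hKY : (K : ℝ) ≤ Y) :
    u ≤ (K : ℝ) ^ ((1 : ℝ) / 10) ∧ (K : ℝ) ^ ((4 : ℝ) / 5) * L ≤ Y := by
  have hu0 : 0 < u := by linarith only [hu1]
  have hK0' : (0 : ℝ) < K := by linarith only [hK1]
  have hKpow10 : u ≤ (K : ℝ) ^ ((1 : ℝ) / 10) := by
    have h1 : u = (u ^ 10) ^ ((1 : ℝ) / 10) := by
      rw [← Real.rpow_natCast, ← Real.rpow_mul hu0.le]
      norm_num
    rw [h1]
    exact Real.rpow_le_rpow (by positivity) hKu (by norm_num)
  have hKpow5 : L ≤ (K : ℝ) ^ ((1 : ℝ) / 5) := by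
    have h1 : u ^ 2 = (u ^ 10) ^ ((1 : ℝ) / 5) := by
      rw [← Real.rpow_natCast (u) 10, ← Real.rpow_natCast u 2, ← Real.rpow_mul hu0.le]
      norm_num
    have h2 : u ^ 2 ≤ (K : ℝ) ^ ((1 : ℝ) / 5) := by
      rw [h1]
      exact Real.rpow_le_rpow (by positivity) hKu (by norm_num)
    exact hLu.trans ((le_self_pow₀ hu1 (by norm_num)).trans h2)
  refine ⟨hKpow10, ?_⟩
  calc (K : ℝ) ^ ((4 : ℝ) / 5) * L ≤ (K : ℝ) ^ ((4 : ℝ) / 5) * (K : ℝ) ^ ((1 : ℝ) / 5) := by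
        gcongr
    _ = K := by
        rw [← Real.rpow_add hK0']
        norm_num
    _ ≤ Y := hKY

/-- the numbers -/
private theorem blkp_rho (x H : ℕ) (hL : 10 ≤ Real.log x) (hH : 2 ≤ H) :
    1 / Real.log x ≤ rho x H := by
  have h1 : (1 : ℝ) ≤ Real.log (Real.log x) := by
    have h2 : Real.exp 1 ≤ Real.log x := by
      have := Real.exp_one_lt_d9
      linarith only [hL, this]
    have := Real.log_le_log (Real.exp_pos 1) h2
    rwa [Real.log_exp] at this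
  have h3 : 0 ≤ Real.log H := Real.log_nonneg (by exact_mod_cast (show 1 ≤ H by omega))
  unfold rho
  have h4 : 1 / Real.log x ≤ Real.log (Real.log x) ^ 2 / Real.log x := by
    apply div_le_div_of_nonneg_right _ (by linarith only [hL])
    nlinarith only [h1]
  have h5 : 0 ≤ Real.log (Real.log x) / Real.log H := by positivity
  linarith only [h4, h5]

theorem blk_pt (θ : ℝ) (hθ : θ < 1) (B b C2 : ℕ) (hb : 3 * B + 10 ≤ b) (hC2 : 10 ≤ C2) (C0 : ℝ)
    (hC0 : 0 < C0) : ∃ C : ℝ, 0 < C ∧ ∃ x0 : ℕ, ∀ x : ℕ, x0 ≤ x → ∀ a q Q M H P J r : ℕ,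
      1 ≤ a → (a : ℝ) ≤ 2 * (x : ℝ) ^ θ → 1 ≤ Q → q ∈ Ioc Q (2 * Q) → (Q : ℝ) ≤ (x : ℝ) ^ θ →
      Nat.Coprime a q → (M : ℝ) ≤ 2 * x / Real.log x ^ 3 → 2 ≤ H → (H : ℝ) ^ 2 ≤ x →
      Real.log x ^ b / 2 ≤ P → (P : ℝ) ≤ Real.log x ^ b → ((P * 2 ^ J : ℕ) : ℝ) ≤ H →
      (((P * 2 ^ J : ℕ) : ℝ) + 1) ^ (2 * r) ≤ (x : ℝ) ^ ((1 - θ) / 100) →
      Real.log P / Real.log ((P * 2 ^ J : ℕ) : ℝ) ≤ C0 * rho x H →
      4 * r ≤ P → 8 * (r : ℝ) / P ≤ 1 / Real.log x ^ 2 →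
      Real.log x ^ (4 * C2) ≤ (8 : ℝ) ^ (2 * r) →
      ∑ k ∈ rS (PPc P (P * 2 ^ J) (a * q)) ((x - a) / q), Lam (a + q * k)
      + ((x : ℝ) / q * gR ⌊Real.log x ^ B⌋₊ q * eb (PPc P (P * 2 ^ J) a) (2 * r)
        + (x : ℝ) / q * (1 / Real.log x ^ 40) * (1 + Real.exp (Mu (PP P (P * 2 ^ J))))
        + ((M : ℝ) / q * (Real.log x + gR ⌊Real.log x ^ B⌋₊ q) + Real.log x
          + 2 * (⌊Real.log x ^ B⌋₊ : ℝ) ^ 3 * (1 + (((P * 2 ^ J : ℕ) : ℝ) + 1) ^ (2 * r))
          + (Nat.log 2 a : ℝ) * (((x / Q : ℕ) : ℝ) / P) * (⌊Real.log x ^ B⌋₊ : ℝ) ^ 3))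
      ≤ C * rho x H * ((x : ℝ) / q.totient) := by
  obtain ⟨C1, hC1, K0, hR⟩ := rgh_lam
  obtain ⟨C2', hC2', hmuexp⟩ := mu_exp
  obtain ⟨C3, hC3, hmull⟩ := mu_loglog
  obtain ⟨κ, hκdef⟩ : ∃ κ : ℝ, κ = 1 - θ := ⟨_, rfl⟩
  have hκ : 0 < κ := by rw [hκdef]; linarith only [hθ]
  obtain ⟨x1, hx1⟩ := blkp_big (3 * B + 1) 8 (κ / 20) (by positivity)
  obtain ⟨x2, hx2⟩ := blkp_big 0 (K0 + 8) (κ / 20) (by positivity)
  obtain ⟨x3, hx3⟩ := blkp_big 1 1 (κ / 20) (by positivity)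
  obtain ⟨x4, hx4⟩ := blkp_log 10
  obtain ⟨E, hE⟩ : ∃ E : ℝ, E = Real.exp 1 * C2' * C0 + Real.exp (8 * C3) := ⟨_, rfl⟩
  have hE0 : 0 < E := by rw [hE]; positivity
  refine ⟨C1 * (2 / κ) * (E + Real.exp C3) + 1 + E + (1 + Real.exp C3) + 20, by positivity,
    max (max x1 x2) (max x3 (max x4 1)), ?_⟩
  intro x hx a q Q M H P J r ha1 ha hQ1 hq hQ haq hM hH2 hHx hPge hPle hPJH hPr hlogr h4r h8r h8L
  have hx1' := hx1 x (by omega)
  have hx2' := hx2 x (by omega)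
  have hx3' := hx3 x (by omega)
  have hL10 := hx4 x (by omega)
  have hx0 : (0 : ℝ) < x := by exact_mod_cast (show 0 < x by omega)
  have hx1le : (1 : ℝ) ≤ x := by exact_mod_cast (show 1 ≤ x by omega)
  obtain ⟨P', hP'⟩ : ∃ P' : ℕ, P' = P * 2 ^ J := ⟨_, rfl⟩
  rw [← hP'] at hPJH hPr hlogr ⊢
  obtain ⟨L, hL⟩ : ∃ L : ℝ, L = Real.log x := ⟨_, rfl⟩
  have hρ := blkp_rho x H hL10 hH2
  obtain ⟨ρ, hρdef⟩ : ∃ ρ : ℝ, ρ = rho x H := ⟨_, rfl⟩
  rw [← hρdef] at hρ hlogr ⊢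
  rw [← hL] at hx1' hx3' hL10 hM hPge hPle h8r h8L hρ ⊢
  obtain ⟨u, hu⟩ : ∃ u : ℝ, u = (x : ℝ) ^ (κ / 20) := ⟨_, rfl⟩
  rw [← hu] at hx1' hx2' hx3'
  rw [pow_zero, mul_one] at hx2'
  rw [pow_one, one_mul] at hx3'
  have hu8 : 8 ≤ u := by
    have : (0 : ℝ) ≤ K0 := Nat.cast_nonneg _
    linarith only [hL10, hx3']
  have huK0 : (K0 : ℝ) ≤ u := by linarith only [hx2']
  have hu0 : 0 < u := by linarith only [hL10, hx3']
  have hu1 : 1 ≤ u := by linarith only [hL10, hx3']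
  have hL0 : 0 < L := by linarith only [hL10]
  have hL1 : 1 ≤ L := by linarith only [hL10]
  have hρ0 : 0 < ρ := lt_of_lt_of_le (by positivity) hρ
  -- powers
  have hu20 : u ^ 20 = (x : ℝ) ^ κ := by
    rw [hu, ← Real.rpow_natCast, ← Real.rpow_mul hx0.le]
    congr 1
    push_cast
    ring
  have hxθκ : (x : ℝ) ^ θ * u ^ 20 = x := by
    rw [hu20, ← Real.rpow_add hx0, hκdef]
    have : θ + (1 - θ) = 1 := by ring
    rw [this, Real.rpow_one]
  have hx100 : (x : ℝ) ^ ((1 - θ) / 100) ≤ u := by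
    rw [hu]
    apply Real.rpow_le_rpow_of_exponent_le hx1le
    rw [← hκdef]
    linarith only [hθ, hκdef]
  have hlogu : Real.log u = κ / 20 * L := by
    rw [hu, Real.log_rpow hx0, hL]
  have hq' := mem_Ioc.1 hq
  have hq1 : 1 ≤ q := by omega
  have hq0 : (0 : ℝ) < q := by exact_mod_cast hq1
  have hQ0 : (0 : ℝ) < Q := by exact_mod_cast hQ1
  have hq2Q : (q : ℝ) ≤ 2 * Q := by exact_mod_cast hq'.2
  have hqx : (q : ℝ) ≤ 2 * (x : ℝ) ^ θ := by linarith only [hQ, hq2Q]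
  have hu20p : 0 < u ^ 20 := by positivity
  have hqu : (q : ℝ) * u ^ 20 ≤ 2 * (x : ℝ) := by
    calc (q : ℝ) * u ^ 20 ≤ 2 * (x : ℝ) ^ θ * u ^ 20 := mul_le_mul_of_nonneg_right hqx hu20p.le
      _ = 2 * (x : ℝ) := by rw [mul_assoc, hxθκ]
  have hau : (a : ℝ) * u ^ 20 ≤ 2 * (x : ℝ) := by
    calc (a : ℝ) * u ^ 20 ≤ 2 * (x : ℝ) ^ θ * u ^ 20 := mul_le_mul_of_nonneg_right ha hu20p.le
      _ = 2 * (x : ℝ) := by rw [mul_assoc, hxθκ]
  obtain ⟨hu2, hax, hqle, hYu', haKx', hKY', hKu'⟩ := blkp_K x a q u hu8 hq1 hqu hau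
  -- K
  obtain ⟨K, hK⟩ : ∃ K : ℕ, K = (x - a) / q := ⟨_, rfl⟩
  rw [← hK] at haKx' hKY' hKu' ⊢
  have haKx : (a : ℝ) + q * K ≤ x := haKx'
  obtain ⟨Y, hY⟩ : ∃ Y : ℝ, Y = (x : ℝ) / q := ⟨_, rfl⟩
  have hYq : Y * q = x := by rw [hY]; field_simp
  have hYu : u ^ 20 / 2 ≤ Y := by rw [hY]; exact hYu'
  have hY0 : 0 < Y := lt_of_lt_of_le (by positivity) hYu
  have hKY : (K : ℝ) ≤ Y := by rw [hY]; exact hKY'
  have hKu : u ^ 10 ≤ K := hKu'
  have hK1 : (1 : ℝ) ≤ K := (one_le_pow₀ hu1).trans hKu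
  have hK0' : (0 : ℝ) < K := lt_of_lt_of_le one_pos hK1
  have hKK0 : K0 ≤ K := by
    have : (K0 : ℝ) ≤ K := huK0.trans ((le_self_pow₀ hu1 (by norm_num)).trans hKu)
    exact_mod_cast this
  obtain ⟨hKpow10, hK45⟩ := blkp_K' K u L Y hu1 hK1 hKu hx3' hKY
  have hlogK : κ / 2 * L ≤ Real.log K := by
    have h1 := Real.log_le_log (by positivity) hKu
    rw [Real.log_pow, hlogu] at h1
    refine le_trans (le_of_eq ?_) h1
    push_cast
    ring
  have hlogK0 : 0 < Real.log K := lt_of_lt_of_le (by positivity) hlogK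
  -- totient
  have hφ : (0 : ℝ) < q.totient := by exact_mod_cast Nat.totient_pos.2 hq1
  have hφq : (q.totient : ℝ) ≤ q := by exact_mod_cast Nat.totient_le q
  obtain ⟨X, hX⟩ : ∃ X : ℝ, X = (x : ℝ) / q.totient := ⟨_, rfl⟩
  have hYX : Y ≤ X := by
    rw [hY, hX]
    gcongr
  have hX0 : 0 < X := by linarith only [hY0, hYX]
  have hYqφ : Y * ((q : ℝ) / q.totient) = X := by
    rw [hX, ← hYq]; ring
  rw [← hX]
  have hgR := blkp_gR ⌊L ^ B⌋₊ q
  have hgR0 : 0 ≤ gR ⌊L ^ B⌋₊ q := by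
    unfold gR
    exact sum_nonneg fun _ _ => by positivity
  have hsmall : ∀ t : ℝ, t * L ≤ Y → t ≤ ρ * X := by
    intro t ht
    have h1 : t ≤ Y / L := by rwa [le_div_iff₀ hL0]
    calc t ≤ Y / L := h1
      _ ≤ X / L := by gcongr
      _ = 1 / L * X := by ring
      _ ≤ ρ * X := by gcongr
  -- P, P'
  have hbL : L ^ 10 ≤ L ^ b := pow_le_pow_right₀ hL1 (by omega)
  have hL2 : 10 * L ≤ L ^ 2 := by
    rw [sq]
    exact mul_le_mul_of_nonneg_right hL10 hL0.le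
  have hL10' : L ^ 2 ≤ L ^ 10 := pow_le_pow_right₀ hL1 (by norm_num)
  have hP3L : 3 * L ≤ P := by linarith only [hPge, hL10, hbL, hL2, hL10']
  have hP30 : (30 : ℝ) ≤ P := by linarith only [hPge, hL10, hbL, hL2, hL10']
  have hP0 : (0 : ℝ) < P := by linarith only [hPge, hL10, hbL, hL2, hL10']
  have hP1 : 30 ≤ P := by exact_mod_cast hP30
  have hPP' : P ≤ P' := by
    rw [hP']; exact Nat.le_mul_of_pos_right P (by positivity)
  have hP'x : (P' : ℝ) ≤ x := by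
    have h1 : (1 : ℝ) ≤ H := by exact_mod_cast (show 1 ≤ H by omega)
    exact hPJH.trans ((le_self_pow₀ h1 (by norm_num)).trans hHx)
  have hP'1 : (1 : ℝ) < P' := by
    have : (P : ℝ) ≤ P' := by exact_mod_cast hPP'
    linarith only [hPge, hL10, hbL, hL2, hL10', this]
  have hlogP' : Real.log (Real.log P') ≤ Real.log L := by
    apply Real.log_le_log (Real.log_pos hP'1)
    rw [hL]
    exact Real.log_le_log (by linarith only [hP'1]) hP'x
  have hMu : Mu (PP P P') ≤ Real.log L + C3 := (hmull P P' (by omega)).trans (by linarith only [hlogP'])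
  have hexpMu : Real.exp (Mu (PP P P')) ≤ Real.exp C3 * L := by
    calc Real.exp (Mu (PP P P')) ≤ Real.exp (C3 + Real.log L) := Real.exp_le_exp.2 (by linarith only [hMu])
      _ = Real.exp C3 * L := by rw [Real.exp_add, Real.exp_log hL0]
  have hmue := hmuexp P P' (by omega) hPP'
  have h8L' : L ^ 40 ≤ (8 : ℝ) ^ (2 * r) :=
    (pow_le_pow_right₀ hL1 (by omega)).trans h8L
  -- Nat.log
  have hlog2 : (0.69 : ℝ) < Real.log 2 := by
    have := Real.log_two_gt_d9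
    linarith only [this]
  have hnl : ∀ n : ℕ, 1 ≤ n → (n : ℝ) ≤ (x : ℝ) ^ 2 → (Nat.log 2 n : ℝ) ≤ 3 * L := by
    intro n hn hnx
    have h1 := blkp_natlog n hn
    have h2 : Real.log n ≤ 2 * L := by
      have h3 := Real.log_le_log (by exact_mod_cast hn) hnx
      rw [Real.log_pow, ← hL] at h3
      exact_mod_cast h3
    have h4 : (0 : ℝ) ≤ (Nat.log 2 n : ℝ) := Nat.cast_nonneg _
    have h5 : (Nat.log 2 n : ℝ) * 0.69 ≤ (Nat.log 2 n : ℝ) * Real.log 2 :=
      mul_le_mul_of_nonneg_left hlog2.le h4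
    have h6 : (Nat.log 2 n : ℝ) * 0.69 ≤ 2 * L := h5.trans (h1.trans h2)
    clear * - h6 hL0
    linarith only [hL0, h6]
  have hnla : (Nat.log 2 a : ℝ) ≤ 3 * L := by
    apply hnl a ha1
    have : (a : ℝ) ≤ x := by exact_mod_cast hax
    exact this.trans (le_self_pow₀ hx1le (by norm_num))
  have hnlaq : (Nat.log 2 (a * q) : ℝ) ≤ 3 * L := by
    apply hnl (a * q) (Nat.mul_pos ha1 hq1)
    have : (a : ℝ) ≤ x := by exact_mod_cast hax
    rw [Nat.cast_mul, sq]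
    gcongr
  have heba : eb (PPc P P' a) (2 * r) ≤ E * ρ := by
    rw [hE]
    exact blkp_eb hmue hC2'.le hMu hL1 ha1 (by omega) (by linarith only [hPge, hL10, hbL, hL2, hL10', hnla]) hlogr h8L' hρ
  have hebaq : eb (PPc P P' (a * q)) (2 * r) ≤ E * ρ := by
    rw [hE]
    exact blkp_eb hmue hC2'.le hMu hL1 (Nat.mul_pos ha1 hq1) (by omega) (by linarith only [hPge, hL10, hbL, hL2, hL10', hnlaq]) hlogr h8L' hρ
  -- part 1
  have hpart1 : ∑ k ∈ rS (PPc P P' (a * q)) K, Lam (a + q * k) ≤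
      (C1 * (2 / κ) * (E + Real.exp C3) + 1) * (ρ * X) := by
    have h1 := hR K hKK0 a q P r (PPc P P' (a * q)) hq1 haq (by omega) h4r (by
      intro p hp
      simp only [PPc, PP, mem_filter, mem_Ioc] at hp
      exact ⟨hp.1.2, hp.1.1.1, hp.2⟩) (by
      have hcard : (PPc P P' (a * q)).card ≤ P' := by
        calc (PPc P P' (a * q)).card ≤ (PP P P').card := card_filter_le _ _
          _ ≤ (Ioc P P').card := card_filter_le _ _
          _ = P' - P := Nat.card_Ioc _ _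
          _ ≤ P' := Nat.sub_le _ _
      have hcard' : ((PPc P P' (a * q)).card : ℝ) ≤ P' := by exact_mod_cast hcard
      calc (((PPc P P' (a * q)).card : ℝ) + 1) ^ (2 * r) ≤ ((P' : ℝ) + 1) ^ (2 * r) := by
            gcongr
        _ ≤ u := hPr.trans hx100
        _ ≤ _ := hKpow10) (by
      have h2 : Real.log ((a : ℝ) + q * K) ≤ L := by
        rw [hL]
        apply Real.log_le_log _ haKx
        have : (0 : ℝ) ≤ a := Nat.cast_nonneg a
        positivity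
      exact h2.trans (hx3'.trans hKpow10))
    have h2 : Real.log ((a : ℝ) + q * K) ≤ L := by
      rw [hL]
      apply Real.log_le_log _ haKx
      have : (0 : ℝ) ≤ a := Nat.cast_nonneg a
      positivity
    have h3 : Real.log ((a : ℝ) + q * K) / Real.log K ≤ 2 / κ := by
      rw [div_le_div_iff₀ hlogK0 hκ]
      calc Real.log ((a : ℝ) + q * K) * κ ≤ L * κ := mul_le_mul_of_nonneg_right h2 hκ.le
        _ = 2 * (κ / 2 * L) := by ring
        _ ≤ 2 * Real.log K := mul_le_mul_of_nonneg_left hlogK (by norm_num)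
    have h30 : 0 ≤ Real.log ((a : ℝ) + q * K) := by
      apply Real.log_nonneg
      have h31 : (1 : ℝ) ≤ a := by exact_mod_cast ha1
      have h32 : (0 : ℝ) ≤ q * K := by positivity
      linarith only [h31, h32]
    have h4 : (K : ℝ) * ((q : ℝ) / q.totient) ≤ X := by
      rw [← hYqφ]
      gcongr
    have h5 : 8 * (r : ℝ) / P * Real.exp (Mu (PPc P P' (a * q))) ≤ Real.exp C3 * ρ := by
      have h51 : Real.exp (Mu (PPc P P' (a * q))) ≤ Real.exp C3 * L :=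
        (Real.exp_le_exp.2 (Pool.Agent.H87.WL.Mu_mono (filter_subset _ _))).trans hexpMu
      calc 8 * (r : ℝ) / P * Real.exp (Mu (PPc P P' (a * q)))
          ≤ 1 / L ^ 2 * (Real.exp C3 * L) := by
            apply mul_le_mul h8r h51 (Real.exp_pos _).le (by positivity)
        _ = Real.exp C3 * (1 / L) := by field_simp
        _ ≤ Real.exp C3 * ρ := by gcongr
    have h6 : eb (PPc P P' (a * q)) (2 * r) + 8 * r / P * Real.exp (Mu (PPc P P' (a * q))) ≤
        (E + Real.exp C3) * ρ := by linarith only [hebaq, h5]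
    have h60 : 0 ≤ eb (PPc P P' (a * q)) (2 * r) + 8 * r / P * Real.exp (Mu (PPc P P' (a * q))) :=
      add_nonneg (eb_nonneg _ _) (by positivity)
    have h7 : (K : ℝ) ^ ((4 : ℝ) / 5) ≤ ρ * X := hsmall _ hK45
    calc ∑ k ∈ rS (PPc P P' (a * q)) K, Lam (a + q * k) ≤ _ := h1
      _ ≤ C1 * (2 / κ) * X * ((E + Real.exp C3) * ρ) + ρ * X := by
          apply add_le_add _ h7
          apply mul_le_mul _ h6 h60 (by positivity)
          apply mul_le_mul _ h4 (by positivity) (by positivity)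
          gcongr
      _ = _ := by ring
  -- part 2
  have hpart2 : (x : ℝ) / q * gR ⌊L ^ B⌋₊ q * eb (PPc P P' a) (2 * r) ≤ E * (ρ * X) := by
    rw [← hY]
    calc Y * gR ⌊L ^ B⌋₊ q * eb (PPc P P' a) (2 * r)
        ≤ X * (E * ρ) := by
          apply mul_le_mul _ heba (eb_nonneg _ _) hX0.le
          rw [← hYqφ]
          gcongr
      _ = _ := by ring
  -- part 3
  have hpart3 : (x : ℝ) / q * (1 / L ^ 40) * (1 + Real.exp (Mu (PP P P'))) ≤
      (1 + Real.exp C3) * (ρ * X) := by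
    rw [← hY]
    have h1 : 1 + Real.exp (Mu (PP P P')) ≤ (1 + Real.exp C3) * L := by
      have : (1 + Real.exp C3) * L = L + Real.exp C3 * L := by ring
      linarith only [hL10, hexpMu]
    have h2 : Y * (1 / L ^ 40) * L ≤ ρ * X := by
      apply hsmall
      have h3 : Y * (1 / L ^ 40) * L * L = Y * (L ^ 2 / L ^ 40) := by ring
      rw [h3]
      have h4 : L ^ 2 / L ^ 40 ≤ 1 := by
        rw [div_le_one (by positivity)]
        exact pow_le_pow_right₀ hL1 (by norm_num)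
      exact mul_le_of_le_one_right hY0.le h4
    calc Y * (1 / L ^ 40) * (1 + Real.exp (Mu (PP P P')))
        ≤ Y * (1 / L ^ 40) * ((1 + Real.exp C3) * L) := by gcongr
      _ = (1 + Real.exp C3) * (Y * (1 / L ^ 40) * L) := by ring
      _ ≤ _ := by gcongr
  -- part 4
  have hpart4 : (M : ℝ) / q * (L + gR ⌊L ^ B⌋₊ q) ≤ 4 * (ρ * X) := by
    have h1 : (M : ℝ) / q ≤ 2 * Y / L ^ 3 := by
      rw [div_le_iff₀ hq0]
      calc (M : ℝ) ≤ 2 * x / L ^ 3 := hM
        _ = 2 * Y / L ^ 3 * q := by rw [← hYq]; ring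
    have h2 : (M : ℝ) / q * (L + gR ⌊L ^ B⌋₊ q) ≤ 2 * Y / L ^ 3 * (L + (q : ℝ) / q.totient) := by
      gcongr
    have h3 : 2 * Y / L ^ 3 * (L + (q : ℝ) / q.totient) = 2 * (Y / L ^ 2) + 2 * (X / L ^ 3) := by
      rw [← hYqφ]
      field_simp
    have h4 : Y / L ^ 2 ≤ ρ * X := by
      apply hsmall
      rw [div_mul_eq_mul_div, div_le_iff₀ (by positivity)]
      exact mul_le_mul_of_nonneg_left (le_self_pow₀ hL1 (by norm_num)) hY0.le
    have h5 : X / L ^ 3 ≤ ρ * X := by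
      calc X / L ^ 3 = 1 / L ^ 3 * X := by ring
        _ ≤ 1 / L * X := by
            gcongr
            exact le_self_pow₀ hL1 (by norm_num)
        _ ≤ ρ * X := by gcongr
    linarith only [h2, h3, h4, h5]
  have hpart5 : L ≤ ρ * X := by
    apply hsmall
    have h1 : L * L ≤ u * u := mul_le_mul hx3' hx3' hL0.le hu0.le
    rw [← sq u] at h1
    clear * - h1 hu2 hYu hu20p
    linarith
  have hRL : ((⌊L ^ B⌋₊ : ℕ) : ℝ) ≤ L ^ B := Nat.floor_le (by positivity)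
  have hR3 : ((⌊L ^ B⌋₊ : ℕ) : ℝ) ^ 3 ≤ L ^ (3 * B) := by
    calc ((⌊L ^ B⌋₊ : ℕ) : ℝ) ^ 3 ≤ (L ^ B) ^ 3 := by gcongr
      _ = L ^ (3 * B) := by rw [← pow_mul, mul_comm]
  have hpart6 : 2 * (⌊L ^ B⌋₊ : ℝ) ^ 3 * (1 + ((P' : ℝ) + 1) ^ (2 * r)) ≤ ρ * X := by
    apply hsmall
    have h1 : ((P' : ℝ) + 1) ^ (2 * r) ≤ u := hPr.trans hx100
    calc 2 * (⌊L ^ B⌋₊ : ℝ) ^ 3 * (1 + ((P' : ℝ) + 1) ^ (2 * r)) * L
        ≤ 2 * L ^ (3 * B) * (u + u) * L := by gcongr
      _ = (8 * L ^ (3 * B + 1)) * u / 2 := by rw [pow_succ]; ring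
      _ ≤ u * u / 2 := by gcongr
      _ ≤ Y := by
          rw [← sq u]
          clear * - hu2 hYu hu20p
          linarith
  have hpart7 : (Nat.log 2 a : ℝ) * (((x / Q : ℕ) : ℝ) / P) * (⌊L ^ B⌋₊ : ℝ) ^ 3 ≤
      12 * (ρ * X) := by
    have h1 : ((x / Q : ℕ) : ℝ) ≤ 2 * Y := by
      have h11 : ((x / Q : ℕ) : ℝ) ≤ (x : ℝ) / Q := Nat.cast_div_le
      refine h11.trans ?_
      rw [div_le_iff₀ hQ0]
      calc (x : ℝ) = Y * q := hYq.symm
        _ ≤ Y * (2 * Q) := by gcongr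
        _ = 2 * Y * Q := by ring
    have h2 : ((x / Q : ℕ) : ℝ) / P ≤ 2 * Y / (L ^ b / 2) := by
      gcongr
    have h3 : (Nat.log 2 a : ℝ) * (((x / Q : ℕ) : ℝ) / P) * (⌊L ^ B⌋₊ : ℝ) ^ 3 ≤
        (3 * L) * (2 * Y / (L ^ b / 2)) * L ^ (3 * B) := by
      gcongr
    refine h3.trans ?_
    have h4 : (3 * L) * (2 * Y / (L ^ b / 2)) * L ^ (3 * B) =
        12 * (Y * (L ^ (3 * B + 1) / L ^ b)) := by
      rw [pow_succ]
      field_simp
      ring
    rw [h4]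
    apply mul_le_mul_of_nonneg_left _ (by norm_num)
    apply hsmall
    have h5 : L ^ (3 * B + 1) / L ^ b * L ≤ 1 := by
      rw [div_mul_eq_mul_div, div_le_one (by positivity), ← pow_succ]
      exact pow_le_pow_right₀ hL1 (by omega)
    calc Y * (L ^ (3 * B + 1) / L ^ b) * L = Y * (L ^ (3 * B + 1) / L ^ b * L) := by ring
      _ ≤ Y * 1 := by gcongr
      _ = Y := mul_one Y
  have hfin : (C1 * (2 / κ) * (E + Real.exp C3) + 1 + E + (1 + Real.exp C3) + 20) * ρ * X =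
      (C1 * (2 / κ) * (E + Real.exp C3) + 1) * (ρ * X) + (E * (ρ * X) + (1 + Real.exp C3) * (ρ * X) +
      (4 * (ρ * X) + ρ * X + ρ * X + 12 * (ρ * X))) + 2 * (ρ * X) := by ring
  rw [hfin]
  have hρX : 0 < ρ * X := by positivity
  linarith only [hL10, hpart1, hpart2, hpart3, hpart4, hpart5, hpart6, hpart7]

end Pool.Agent.H35.U

end
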