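import Pool.Agent.H94.EH.M01
import Pool.Agent.H94.EH.M20

/-! The parts of this file: H92.EH.Dual, H76.EHB.HRm, H35.W.HRq, H35.W.TB1, H35.W.Greedy, H35.W.Chain. -/

section

/-!
The dual form of the additive large sieve inequality for well spaced points.
-/

set_option autoImplicit false

namespace Pool.Agent.H92.EH

open Finset

/-- The Dirichlet kernel. -/
noncomputable def D (M : ℕ) (t : ℝ) : ℂ := ∑ m ∈ range M, e (m * t)

theorem norm_D_le_nat (M : ℕ) (t : ℝ) : ‖D M t‖ ≤ M := by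
  unfold D
  refine (norm_sum_le _ _).trans ?_
  simp [norm_e]

theorem norm_D_neg (M : ℕ) (t : ℝ) : ‖D M (-t)‖ = ‖D M t‖ := by
  have : D M (-t) = (starRingEnd ℂ) (D M t) := by
    unfold D
    rw [map_sum]
    refine sum_congr rfl fun m _ => ?_
    rw [← e_neg]
    congr 1
    ring
  rw [this]
  simp

theorem norm_D_le (M : ℕ) {t δ : ℝ} (hδ : 0 < δ) (h : ∀ m : ℤ, δ ≤ |t - m|) :
    ‖D M t‖ ≤ 1 / (2 * δ) := by
  have h1 : D M t * (e t - 1) = e t ^ M - 1 := by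
    unfold D
    rw [← geom_sum_mul]
    congr 1
    refine sum_congr rfl fun m _ => ?_
    rw [e_nat_mul]
  have h2 : ‖e t ^ M - 1‖ ≤ 2 := by
    refine (norm_sub_le _ _).trans ?_
    rw [norm_pow, norm_e, one_pow, norm_one]
    norm_num
  have h3 := le_norm_e_sub_one h
  have h4 : ‖D M t‖ * ‖e t - 1‖ ≤ 2 := by rw [← norm_mul, h1]; exact h2
  rw [le_div_iff₀ (by positivity)]
  have h5 : ‖D M t‖ * (4 * δ) ≤ 2 := (mul_le_mul_of_nonneg_left h3 (norm_nonneg _)).trans h4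
  linarith only [h5]

/-- Sum of inverse squares over distinct positive integers. -/
theorem sum_inv_sq_le {ι : Type*} (S : Finset ι) (m : ι → ℕ) (hm : ∀ j ∈ S, 1 ≤ m j)
    (hinj : Set.InjOn m S) : ∑ j ∈ S, ((m j : ℝ) ^ 2)⁻¹ ≤ 2 := by
  classical
  rw [← sum_image (f := fun k : ℕ => ((k : ℝ) ^ 2)⁻¹) (g := m) hinj]
  have hsub : S.image m ⊆ Ioo 0 ((S.image m).sup id + 1) := by
    intro k hk
    rw [mem_Ioo]
    refine ⟨?_, Nat.lt_succ_of_le (le_sup (f := id) hk)⟩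
    obtain ⟨j, hj, rfl⟩ := mem_image.mp hk
    exact hm j hj
  refine (sum_le_sum_of_subset_of_nonneg hsub ?_).trans ?_
  · intro i _ _
    positivity
  · have := sum_Ioo_inv_sq_le (α := ℝ) 0 ((S.image m).sup id + 1)
    simpa using this

/-- One sided estimate used for the row sums. -/
theorem row_aux {ι : Type*} (S : Finset ι) (β : ι → ℝ) (M : ℕ) (hM : 0 < M)
    (h0 : ∀ j ∈ S, ∀ m : ℤ, (1 : ℝ) / M ≤ |β j - m|)
    (hsp : ∀ i ∈ S, ∀ j ∈ S, i ≠ j → ∀ m : ℤ, (1 : ℝ) / M ≤ |β i - β j - m|)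
    (hhalf : ∀ j ∈ S, Int.fract (β j) ≤ 1 / 2) (K : ℕ) :
    ∑ j ∈ S, ‖D K (β j)‖ ^ 2 ≤ (M : ℝ) ^ 2 / 2 := by
  have hM' : (0 : ℝ) < M := by exact_mod_cast hM
  set m : ι → ℕ := fun j => ⌊(M : ℝ) * Int.fract (β j)⌋₊ with hmdef
  have hfr : ∀ j ∈ S, (1 : ℝ) / M ≤ Int.fract (β j) := by
    intro j hj
    have := h0 j hj ⌊β j⌋
    rwa [show β j - (⌊β j⌋ : ℤ) = Int.fract (β j) from rfl, abs_of_nonneg (Int.fract_nonneg _)]
      at this
  have hm1 : ∀ j ∈ S, 1 ≤ m j := by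
    intro j hj
    rw [hmdef]
    apply Nat.le_floor
    have := hfr j hj
    rw [div_le_iff₀ hM'] at this
    push_cast
    linarith only [this]
  have hmle : ∀ j ∈ S, (m j : ℝ) ≤ M * Int.fract (β j) := by
    intro j _
    exact Nat.floor_le (by have := Int.fract_nonneg (β j); positivity)
  have hmlt : ∀ j ∈ S, (M : ℝ) * Int.fract (β j) < m j + 1 := by
    intro j _
    exact Nat.lt_floor_add_one _
  have hinj : Set.InjOn m S := by
    intro i hi j hj hij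
    by_contra hne
    have h1 := hmle i hi
    have h2 := hmlt i hi
    have h3 := hmle j hj
    have h4 := hmlt j hj
    have h5 : (m i : ℝ) = m j := by exact_mod_cast hij
    have h6 := hsp i hi j hj hne (⌊β i⌋ - ⌊β j⌋)
    have h7 : β i - β j - ((⌊β i⌋ - ⌊β j⌋ : ℤ) : ℝ) = Int.fract (β i) - Int.fract (β j) := by
      simp only [Int.fract]
      push_cast
      ring
    rw [h7, div_le_iff₀ hM'] at h6
    have h8 : |Int.fract (β i) - Int.fract (β j)| * M < 1 := by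
      rw [← abs_of_pos hM', ← abs_mul, abs_lt]
      constructor <;> nlinarith only [h1, h4, h5, h2, h3]
    linarith only [h6, h8]
  have hbound : ∀ j ∈ S, ‖D K (β j)‖ ^ 2 ≤ (M : ℝ) ^ 2 / 4 * ((m j : ℝ) ^ 2)⁻¹ := by
    intro j hj
    have hmpos : (0 : ℝ) < m j := by exact_mod_cast hm1 j hj
    have hdist : ∀ k : ℤ, (m j : ℝ) / M ≤ |β j - k| := by
      intro k
      have h1 : Int.fract (β j) ≤ |β j - k| := by
        have hf := hhalf j hj
        have hf0 := Int.fract_nonneg (β j)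
        have hβ : β j = ⌊β j⌋ + Int.fract (β j) := (Int.floor_add_fract _).symm
        rcases le_or_gt k ⌊β j⌋ with hk | hk
        · have hk' : (k : ℝ) ≤ ⌊β j⌋ := by exact_mod_cast hk
          rw [le_abs]
          left
          linarith only [hβ, hk']
        · have hk' : (⌊β j⌋ : ℝ) + 1 ≤ k := by exact_mod_cast hk
          rw [le_abs]
          right
          linarith only [hf, hβ, hk']
      refine le_trans ?_ h1
      rw [div_le_iff₀ hM']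
      have := hmle j hj
      linarith
    have h1 := norm_D_le K (t := β j) (δ := (m j : ℝ) / M) (by positivity) hdist
    have h2 : (1 : ℝ) / (2 * ((m j : ℝ) / M)) = M / (2 * m j) := by
      field_simp
    rw [h2] at h1
    calc ‖D K (β j)‖ ^ 2 ≤ (M / (2 * m j)) ^ 2 := pow_le_pow_left₀ (norm_nonneg _) h1 2
      _ = (M : ℝ) ^ 2 / 4 * ((m j : ℝ) ^ 2)⁻¹ := by
        field_simp
        ring
  calc ∑ j ∈ S, ‖D K (β j)‖ ^ 2 ≤ ∑ j ∈ S, (M : ℝ) ^ 2 / 4 * ((m j : ℝ) ^ 2)⁻¹ :=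
        sum_le_sum hbound
    _ = (M : ℝ) ^ 2 / 4 * ∑ j ∈ S, ((m j : ℝ) ^ 2)⁻¹ := by rw [mul_sum]
    _ ≤ (M : ℝ) ^ 2 / 4 * 2 := by
        apply mul_le_mul_of_nonneg_left (sum_inv_sq_le S m hm1 hinj)
        positivity
    _ = (M : ℝ) ^ 2 / 2 := by ring

/-- Row sums of the kernel. -/
theorem row_sum_le {ι : Type*} [DecidableEq ι] (J : Finset ι) (α : ι → ℝ) (M : ℕ) (hM : 0 < M)
    (hsp : ∀ i ∈ J, ∀ j ∈ J, i ≠ j → ∀ m : ℤ, (1 : ℝ) / M ≤ |α i - α j - m|)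
    (i : ι) (hi : i ∈ J) :
    ∑ j ∈ J, ‖D (2 * M) (α i - α j)‖ ^ 2 ≤ 5 * (M : ℝ) ^ 2 := by
  have hM' : (0 : ℝ) < M := by exact_mod_cast hM
  rw [← add_sum_erase J _ hi]
  have h1 : ‖D (2 * M) (α i - α i)‖ ^ 2 ≤ 4 * (M : ℝ) ^ 2 := by
    have := norm_D_le_nat (2 * M) (α i - α i)
    push_cast at this
    calc ‖D (2 * M) (α i - α i)‖ ^ 2 ≤ (2 * (M : ℝ)) ^ 2 :=
          pow_le_pow_left₀ (norm_nonneg _) this 2
      _ = 4 * (M : ℝ) ^ 2 := by ring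
  set S := J.erase i with hS
  have hSJ : ∀ j ∈ S, j ∈ J ∧ j ≠ i := by
    intro j hj
    rw [hS, mem_erase] at hj
    exact ⟨hj.2, hj.1⟩
  set S1 := S.filter (fun j => Int.fract (α i - α j) ≤ 1 / 2) with hS1
  set S2 := S.filter (fun j => ¬ Int.fract (α i - α j) ≤ 1 / 2) with hS2
  have hsplit : ∑ j ∈ S, ‖D (2 * M) (α i - α j)‖ ^ 2
      = ∑ j ∈ S1, ‖D (2 * M) (α i - α j)‖ ^ 2 + ∑ j ∈ S2, ‖D (2 * M) (α i - α j)‖ ^ 2 :=
    (sum_filter_add_sum_filter_not S _ _).symm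
  have hA : ∑ j ∈ S1, ‖D (2 * M) (α i - α j)‖ ^ 2 ≤ (M : ℝ) ^ 2 / 2 := by
    apply row_aux S1 (fun j => α i - α j) M hM
    · intro j hj m
      rw [hS1, mem_filter] at hj
      obtain ⟨hjJ, hne⟩ := hSJ j hj.1
      exact hsp i hi j hjJ (Ne.symm hne) m
    · intro j hj k hk hne m
      rw [hS1, mem_filter] at hj hk
      have := hsp k (hSJ k hk.1).1 j (hSJ j hj.1).1 (Ne.symm hne) m
      have heq : α i - α j - (α i - α k) - (m : ℝ) = α k - α j - m := by ring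
      show (1 : ℝ) / M ≤ |α i - α j - (α i - α k) - (m : ℝ)|
      rw [heq]
      exact this
    · intro j hj
      rw [hS1, mem_filter] at hj
      exact hj.2
  have hB : ∑ j ∈ S2, ‖D (2 * M) (α i - α j)‖ ^ 2 ≤ (M : ℝ) ^ 2 / 2 := by
    have : ∑ j ∈ S2, ‖D (2 * M) (α i - α j)‖ ^ 2 = ∑ j ∈ S2, ‖D (2 * M) (α j - α i)‖ ^ 2 := by
      refine sum_congr rfl fun j _ => ?_
      rw [← norm_D_neg, neg_sub]
    rw [this]
    apply row_aux S2 (fun j => α j - α i) M hM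
    · intro j hj m
      rw [hS2, mem_filter] at hj
      obtain ⟨hjJ, hne⟩ := hSJ j hj.1
      exact hsp j hjJ i hi hne m
    · intro j hj k hk hne m
      rw [hS2, mem_filter] at hj hk
      have := hsp j (hSJ j hj.1).1 k (hSJ k hk.1).1 hne m
      have heq : α j - α i - (α k - α i) - (m : ℝ) = α j - α k - m := by ring
      show (1 : ℝ) / M ≤ |α j - α i - (α k - α i) - (m : ℝ)|
      rw [heq]
      exact this
    · intro j hj
      rw [hS2, mem_filter] at hj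
      have h2 := hj.2
      push Not at h2
      have h3 : Int.fract (α j - α i) = 1 - Int.fract (α i - α j) := by
        rw [← neg_sub (α i) (α j)]
        apply Int.fract_neg
        intro h
        rw [h] at h2
        norm_num at h2
      show Int.fract (α j - α i) ≤ 1 / 2
      rw [h3]
      linarith only [hj]
  rw [hsplit]
  linarith only [h1, hA, hB]

/-- Dual form of the large sieve inequality. -/
theorem dual_large_sieve {ι : Type*} [DecidableEq ι] (J : Finset ι) (α : ι → ℝ) (c : ι → ℂ)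
    (M N : ℕ) (hN : N ≤ M) (hM : 0 < M)
    (hsp : ∀ i ∈ J, ∀ j ∈ J, i ≠ j → ∀ m : ℤ, (1 : ℝ) / M ≤ |α i - α j - m|) :
    ∑ n ∈ Icc 1 N, ‖∑ j ∈ J, c j * e (n * α j)‖ ^ 2 ≤ 5 * M * ∑ j ∈ J, ‖c j‖ ^ 2 := by
  have hM' : (0 : ℝ) < M := by exact_mod_cast hM
  set f : ℤ → ℂ := fun n => ∑ j ∈ J, c j * e (n * α j) with hf
  -- expansion of the double sum
  have hexp : ∑ m ∈ range (2 * M), ∑ m' ∈ range (2 * M), ‖f ((m : ℤ) - m')‖ ^ 2
      ≤ ∑ i ∈ J, ∑ j ∈ J, ‖c i‖ * ‖c j‖ * ‖D (2 * M) (α i - α j)‖ ^ 2 := by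
    have h1 : ∀ m m' : ℕ, ((‖f ((m : ℤ) - m')‖ ^ 2 : ℝ) : ℂ)
        = ∑ i ∈ J, ∑ j ∈ J, c i * (starRingEnd ℂ) (c j) *
          (e (m * (α i - α j)) * (starRingEnd ℂ) (e (m' * (α i - α j)))) := by
      intro m m'
      push_cast
      rw [← Complex.mul_conj', hf]
      simp only
      rw [map_sum, sum_mul_sum]
      refine sum_congr rfl fun i _ => sum_congr rfl fun j _ => ?_
      rw [map_mul]
      have : e (((m : ℤ) - (m' : ℤ) : ℤ) * α i) * (starRingEnd ℂ) (e (((m : ℤ) - (m' : ℤ) : ℤ) * α j))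
          = e (m * (α i - α j)) * (starRingEnd ℂ) (e (m' * (α i - α j))) := by
        rw [e_mul_conj, e_mul_conj]
        congr 1
        push_cast
        ring
      rw [← this]
      ring
    have h2 : ((∑ m ∈ range (2 * M), ∑ m' ∈ range (2 * M), ‖f ((m : ℤ) - m')‖ ^ 2 : ℝ) : ℂ)
        = ∑ i ∈ J, ∑ j ∈ J, c i * (starRingEnd ℂ) (c j) *
          ((‖D (2 * M) (α i - α j)‖ ^ 2 : ℝ) : ℂ) := by
      rw [Complex.ofReal_sum]
      simp_rw [Complex.ofReal_sum, h1]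
      have h3 : ∀ i j : ι, ((‖D (2 * M) (α i - α j)‖ ^ 2 : ℝ) : ℂ)
          = ∑ m ∈ range (2 * M), ∑ m' ∈ range (2 * M),
            (e (m * (α i - α j)) * (starRingEnd ℂ) (e (m' * (α i - α j)))) := by
        intro i j
        push_cast
        rw [← Complex.mul_conj']
        unfold D
        rw [map_sum, sum_mul_sum]
      simp_rw [h3, mul_sum]
      -- reorder sums
      have e1 : ∀ m : ℕ, ∑ m' ∈ range (2 * M), ∑ i ∈ J, ∑ j ∈ J,
            c i * (starRingEnd ℂ) (c j) *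
              (e (m * (α i - α j)) * (starRingEnd ℂ) (e (m' * (α i - α j))))
          = ∑ i ∈ J, ∑ j ∈ J, ∑ m' ∈ range (2 * M),
            c i * (starRingEnd ℂ) (c j) *
              (e (m * (α i - α j)) * (starRingEnd ℂ) (e (m' * (α i - α j)))) := by
        intro m
        rw [sum_comm]
        refine sum_congr rfl fun i _ => ?_
        rw [sum_comm]
      simp_rw [e1]
      rw [sum_comm]
      refine sum_congr rfl fun i _ => ?_
      rw [sum_comm]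
    have h4 : (∑ m ∈ range (2 * M), ∑ m' ∈ range (2 * M), ‖f ((m : ℤ) - m')‖ ^ 2 : ℝ)
        = ‖((∑ m ∈ range (2 * M), ∑ m' ∈ range (2 * M), ‖f ((m : ℤ) - m')‖ ^ 2 : ℝ) : ℂ)‖ := by
      rw [Complex.norm_real, Real.norm_of_nonneg]
      exact sum_nonneg fun _ _ => sum_nonneg fun _ _ => by positivity
    rw [h4, h2]
    refine (norm_sum_le _ _).trans (sum_le_sum fun i _ => ?_)
    refine (norm_sum_le _ _).trans (sum_le_sum fun j _ => ?_)
    rw [norm_mul, norm_mul, RCLike.norm_conj, Complex.norm_real, Real.norm_of_nonneg (by positivity)]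
  -- lower bound of the double sum
  have hlow : (M : ℝ) * ∑ n ∈ Icc 1 N, ‖∑ j ∈ J, c j * e (n * α j)‖ ^ 2
      ≤ ∑ m ∈ range (2 * M), ∑ m' ∈ range (2 * M), ‖f ((m : ℤ) - m')‖ ^ 2 := by
    have h1 : (M : ℝ) * ∑ n ∈ Icc 1 N, ‖∑ j ∈ J, c j * e (n * α j)‖ ^ 2
        = ∑ p ∈ (Icc 1 N) ×ˢ (range M), ‖f (p.1 : ℤ)‖ ^ 2 := by
      rw [sum_product, mul_sum]
      refine sum_congr rfl fun n _ => ?_
      have h0 : ∑ y ∈ range M, ‖f (((n, y) : ℕ × ℕ).1 : ℤ)‖ ^ 2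
          = ∑ _y ∈ range M, ‖f (n : ℤ)‖ ^ 2 := rfl
      rw [h0, sum_const, card_range, nsmul_eq_mul, hf]
      simp
    rw [h1, ← sum_product']
    have h2 : ∑ p ∈ (Icc 1 N) ×ˢ (range M), ‖f (p.1 : ℤ)‖ ^ 2
        = ∑ p ∈ ((Icc 1 N) ×ˢ (range M)).image (fun p : ℕ × ℕ => (p.1 + p.2, p.2)),
          ‖f ((p.1 : ℤ) - p.2)‖ ^ 2 := by
      rw [sum_image]
      · refine sum_congr rfl fun p _ => ?_
        congr 3
        push_cast
        ring
      · rintro ⟨a, b⟩ _ ⟨a', b'⟩ _ h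
        simp only [Prod.mk.injEq] at h ⊢
        omega
    rw [h2]
    apply sum_le_sum_of_subset_of_nonneg
    · intro p hp
      obtain ⟨⟨a, b⟩, hq, rfl⟩ := mem_image.mp hp
      rw [mem_product, mem_Icc, mem_range] at hq
      rw [mem_product, mem_range, mem_range]
      simp only at hq ⊢
      omega
    · intro _ _ _
      positivity
  -- Schur test
  have hschur : ∑ i ∈ J, ∑ j ∈ J, ‖c i‖ * ‖c j‖ * ‖D (2 * M) (α i - α j)‖ ^ 2
      ≤ 5 * (M : ℝ) ^ 2 * ∑ j ∈ J, ‖c j‖ ^ 2 := by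
    have h1 : ∑ i ∈ J, ∑ j ∈ J, ‖c i‖ * ‖c j‖ * ‖D (2 * M) (α i - α j)‖ ^ 2
        ≤ ∑ i ∈ J, ∑ j ∈ J, (‖c i‖ ^ 2 / 2 * ‖D (2 * M) (α i - α j)‖ ^ 2
          + ‖c j‖ ^ 2 / 2 * ‖D (2 * M) (α i - α j)‖ ^ 2) := by
      refine sum_le_sum fun i _ => sum_le_sum fun j _ => ?_
      rw [← add_mul]
      apply mul_le_mul_of_nonneg_right _ (by positivity)
      nlinarith only [sq_nonneg (‖c i‖ - ‖c j‖)]
    refine h1.trans ?_
    simp_rw [sum_add_distrib]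
    have h2 : ∑ i ∈ J, ∑ j ∈ J, ‖c i‖ ^ 2 / 2 * ‖D (2 * M) (α i - α j)‖ ^ 2
        ≤ 5 * (M : ℝ) ^ 2 / 2 * ∑ j ∈ J, ‖c j‖ ^ 2 := by
      rw [mul_sum]
      refine sum_le_sum fun i hi => ?_
      rw [← mul_sum]
      have := row_sum_le J α M hM hsp i hi
      nlinarith only [this, sq_nonneg ‖c i‖]
    have h3 : ∑ i ∈ J, ∑ j ∈ J, ‖c j‖ ^ 2 / 2 * ‖D (2 * M) (α i - α j)‖ ^ 2
        = ∑ i ∈ J, ∑ j ∈ J, ‖c i‖ ^ 2 / 2 * ‖D (2 * M) (α i - α j)‖ ^ 2 := by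
      rw [sum_comm]
      refine sum_congr rfl fun i _ => sum_congr rfl fun j _ => ?_
      rw [← norm_D_neg, neg_sub]
    rw [h3]
    linarith only [h2]
  have hfinal := hlow.trans (hexp.trans hschur)
  have : (M : ℝ) * ∑ n ∈ Icc 1 N, ‖∑ j ∈ J, c j * e (n * α j)‖ ^ 2
      ≤ M * (5 * M * ∑ j ∈ J, ‖c j‖ ^ 2) := by
    refine hfinal.trans (le_of_eq ?_)
    ring
  exact le_of_mul_le_mul_left this hM'

end Pool.Agent.H92.EH

end

section

/-!
# EHB HRm: mean square of `hR`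

`lamR_sq`: dual large sieve: put `lam(c,b) = μ(c)/φ(c)`, `g(n) = lamR R n`.  `∑_n |g|^2 = ∑_{c,b} lam(c,b) ∑_n g(n) e(n b/c)`
`≤ (∑ |lam|^2)^{1/2} (∑_{c,b} |∑_n g(n) e(nb/c)|^2)^{1/2} ≤ (∑_{c ≤ R} 1/φ(c))^{1/2} (5 M ∑ g^2)^{1/2}` (`Pool.Agent.H92.EH2.farey_ls`, `M = max N (R^2)`), so
`∑ g^2 ≤ 5 M ∑_{c≤R} 1/φ(c)`.
`hR_sq`: `hR^2 ≤ 2 Lam^2 + 2 lamR^2`, `∑ Lam^2 ≤ log x * ψ(x) ≤ 6 x log x` (`Chebyshev.psi_le_const_mul_self`),
`1/φ(c) ≤ (Nat.log 2 c + 1)/c` (`le_totient_mul`, `card_primeFactors_le` in `H92/EH/Totient.lean`), `∑_{c ≤ R} 1/φ(c) ≤ (2 log R + 2)(1 + log R) ≤ C log^2 x`.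
-/

set_option autoImplicit false

namespace Pool.Agent.H76.EHB

open Finset
open Pool.Agent.H91.PK (ee)
open Pool.Agent.H92.EH (red)
open Pool.Agent.H91.EHA (Lam lamR hR ramS)

theorem HRm_e (t : ℝ) : Pool.Agent.H92.EH.e t = ee t := by
  unfold Pool.Agent.H92.EH.e ee
  congr 1
  push_cast
  ring

theorem lamR_sq (R N M : ℕ) (hM : 0 < M) (hR : R ^ 2 ≤ M) (hN : N ≤ M) :
    ∑ n ∈ Icc 1 N, lamR R n ^ 2 ≤ 5 * M * ∑ c ∈ Icc 1 R, 1 / (c.totient : ℝ) := by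
  classical
  set J : Finset (Σ _ : ℕ, ℕ) := (Icc 1 R).sigma (fun r => red r) with hJ
  have hsp : ∀ i ∈ J, ∀ j ∈ J, i ≠ j → ∀ k : ℤ,
      (1 : ℝ) / M ≤ |(i.2 : ℝ) / i.1 - (j.2 : ℝ) / j.1 - k| := by
    rintro ⟨r, b⟩ hi ⟨r', b'⟩ hj hne k
    rw [hJ, mem_sigma, mem_Icc] at hi hj
    simp only at hi hj
    refine le_trans ?_ (Pool.Agent.H92.EH.farey_spacing (by omega) (by omega) hi.2 hj.2 ?_ k)
    · apply one_div_le_one_div_of_le
      · have h1 : (0 : ℝ) < r := by exact_mod_cast hi.1.1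
        have h2 : (0 : ℝ) < r' := by exact_mod_cast hj.1.1
        positivity
      · have : r * r' ≤ M := by
          calc r * r' ≤ R * R := Nat.mul_le_mul hi.1.2 hj.1.2
            _ = R ^ 2 := by ring
            _ ≤ M := hR
        exact_mod_cast this
    · rintro ⟨rfl, rfl⟩
      exact hne rfl
  set m : ℕ → ℝ := fun c => ((ArithmeticFunction.moebius c : ℤ) : ℝ) / (c.totient : ℝ) with hm
  have h := Pool.Agent.H92.EH.dual_large_sieve J (fun j => (j.2 : ℝ) / j.1)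
    (fun j => ((m j.1 : ℝ) : ℂ)) M N hN hM hsp
  have h1 : ∀ n ∈ Icc 1 N, lamR R n ^ 2 =
      ‖∑ j ∈ J, ((m j.1 : ℝ) : ℂ) * Pool.Agent.H92.EH.e (n * ((j.2 : ℝ) / j.1))‖ ^ 2 := by
    intro n hn
    have h2 := lamR_eq R n (mem_Icc.mp hn).1
    have h3 : ∑ j ∈ J, ((m j.1 : ℝ) : ℂ) * Pool.Agent.H92.EH.e (n * ((j.2 : ℝ) / j.1)) =
        ((lamR R n : ℝ) : ℂ) := by
      rw [h2, hJ, sum_sigma]
      refine sum_congr rfl fun c _ => ?_
      rw [mul_sum]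
      refine sum_congr rfl fun b _ => ?_
      rw [HRm_e]
    rw [h3, Complex.norm_real, Real.norm_eq_abs, sq_abs]
  rw [sum_congr rfl h1]
  refine h.trans (mul_le_mul_of_nonneg_left ?_ (by positivity))
  rw [hJ, sum_sigma]
  refine sum_le_sum fun c hc => ?_
  simp only
  rw [sum_const, Pool.Agent.H92.EH.card_red, nsmul_eq_mul, Complex.norm_real, Real.norm_eq_abs,
    sq_abs]
  have hc1 : 0 < c := (mem_Icc.mp hc).1
  have ht : (0 : ℝ) < c.totient := by exact_mod_cast Nat.totient_pos.mpr hc1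
  have hmu : (((ArithmeticFunction.moebius c : ℤ) : ℝ)) ^ 2 ≤ 1 := by
    have h5 := ArithmeticFunction.abs_moebius_le_one (n := c)
    have h6 : |((ArithmeticFunction.moebius c : ℤ) : ℝ)| ≤ 1 := by exact_mod_cast h5
    rw [← sq_abs]
    exact pow_le_one₀ (abs_nonneg _) h6
  rw [hm]
  simp only
  rw [div_pow, mul_div_assoc', div_le_div_iff₀ (by positivity) ht]
  nlinarith [mul_pos ht ht]

/-- `∑_{n ≤ N} Λ(n)^2 ≤ 6 x log x` -/
theorem HRm_Lam (x N : ℕ) (hx : 1 ≤ x) (hN : N ≤ x) :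
    ∑ n ∈ Icc 1 N, Lam n ^ 2 ≤ 6 * x * Real.log x := by
  have hL : 0 ≤ Real.log x := Real.log_natCast_nonneg x
  have h1 : ∀ n ∈ Icc 1 N, Lam n ^ 2 ≤ Real.log x * Lam n := by
    intro n hn
    rw [mem_Icc] at hn
    have h2 : (0 : ℝ) ≤ Lam n := ArithmeticFunction.vonMangoldt_nonneg
    have h3 : Lam n ≤ Real.log n := ArithmeticFunction.vonMangoldt_le_log
    have h4 : Real.log n ≤ Real.log x :=
      Real.log_le_log (by exact_mod_cast hn.1) (by exact_mod_cast hn.2.trans hN)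
    rw [sq]
    exact mul_le_mul_of_nonneg_right (h3.trans h4) h2
  refine (sum_le_sum h1).trans ?_
  rw [← mul_sum]
  have h5 : ∑ n ∈ Icc 1 N, Lam n ≤ Chebyshev.psi x := by
    rw [Chebyshev.psi, Nat.floor_natCast]
    refine sum_le_sum_of_subset_of_nonneg ?_ fun n _ _ => ArithmeticFunction.vonMangoldt_nonneg
    intro n hn
    rw [mem_Icc] at hn
    rw [mem_Ioc]
    omega
  have h6 : Chebyshev.psi x ≤ (Real.log 4 + 4) * x :=
    Chebyshev.psi_le_const_mul_self (by positivity)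
  have h7 : Real.log 4 ≤ 2 := by
    have : Real.log 4 = 2 * Real.log 2 := by
      rw [show (4 : ℝ) = 2 ^ 2 by norm_num, Real.log_pow]
      norm_num
    rw [this]
    have := Real.log_two_lt_d9
    linarith
  have h8 : (Real.log 4 + 4) * (x : ℝ) ≤ 6 * x :=
    mul_le_mul_of_nonneg_right (by linarith) (by positivity)
  calc Real.log x * ∑ n ∈ Icc 1 N, Lam n ≤ Real.log x * (6 * x) :=
        mul_le_mul_of_nonneg_left (h5.trans (h6.trans h8)) hL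
    _ = 6 * x * Real.log x := by ring

/-- `∑_{c ≤ R} 1/φ(c)` -/
theorem HRm_tot (x R : ℕ) (hR : 1 ≤ R) (hRx : R ^ 2 ≤ x) :
    ∑ c ∈ Icc 1 R, 1 / (c.totient : ℝ) ≤ (Real.log x + 1) * (1 + Real.log x) := by
  have hR' : (1 : ℝ) ≤ R := by exact_mod_cast hR
  have hRlog : 2 * Real.log R ≤ Real.log x := by
    have h1 : Real.log ((R : ℝ) ^ 2) ≤ Real.log x :=
      Real.log_le_log (by positivity) (by exact_mod_cast hRx)
    rw [Real.log_pow] at h1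
    push_cast at h1
    exact h1
  have hR0 : 0 ≤ Real.log R := Real.log_natCast_nonneg R
  have hlog2 : (Nat.log 2 R : ℝ) ≤ Real.log x := by
    have h1 : (2 : ℝ) ^ Nat.log 2 R ≤ R := by
      exact_mod_cast Nat.pow_log_le_self 2 (by omega)
    have h2 : (Nat.log 2 R : ℝ) * Real.log 2 ≤ Real.log R := by
      rw [← Real.log_pow]
      exact Real.log_le_log (by positivity) h1
    have h3 := Real.log_two_gt_d9
    have h4 : (Nat.log 2 R : ℝ) * (1 / 2) ≤ (Nat.log 2 R : ℝ) * Real.log 2 :=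
      mul_le_mul_of_nonneg_left (by linarith) (by positivity)
    linarith
  have h1 : ∀ c ∈ Icc 1 R, 1 / (c.totient : ℝ) ≤ (Real.log x + 1) * ((c : ℝ)⁻¹) := by
    intro c hc
    rw [mem_Icc] at hc
    have hc0 : (0 : ℝ) < c := by exact_mod_cast hc.1
    have ht : (0 : ℝ) < c.totient := by exact_mod_cast Nat.totient_pos.mpr hc.1
    have h2 := Pool.Agent.H92.EH.le_totient_mul c
    have h3 : (c.primeFactors.card : ℝ) ≤ Real.log x := by
      refine le_trans ?_ hlog2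
      exact_mod_cast (Pool.Agent.H92.EH.card_primeFactors_le c).trans (Nat.log_mono_right hc.2)
    rw [← div_eq_mul_inv, div_le_div_iff₀ ht hc0, one_mul]
    calc (c : ℝ) ≤ c.totient * (c.primeFactors.card + 1) := h2
      _ ≤ c.totient * (Real.log x + 1) := mul_le_mul_of_nonneg_left (by linarith) ht.le
      _ = (Real.log x + 1) * c.totient := by ring
  refine (sum_le_sum h1).trans ?_
  rw [← mul_sum]
  refine mul_le_mul_of_nonneg_left ?_ (by linarith [Real.log_natCast_nonneg x])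
  have h5 := harmonic_le_one_add_log R
  have h6 : ((harmonic R : ℚ) : ℝ) = ∑ c ∈ Icc 1 R, (c : ℝ)⁻¹ := by
    rw [harmonic_eq_sum_Icc]
    push_cast
    rfl
  rw [← h6]
  linarith

end Pool.Agent.H76.EHB

end

section

/-!
# W HRq: the second moment of `hR` is `O(x log x)`

Proof.  `hR^2 ≤ 2 Lam^2 + 2 lamR^2`; `∑ Lam^2 ≤ 6 x log x` (`HRm_Lam`); `∑ lamR^2 ≤ 5 x ∑_{c ≤ R} 1/φ(c)` (`lamR_sq` with
`M = x`) and `∑_{c ≤ R} 1/φ(c) ≤ (log(R^2) + 1)(1 + log(R^2))` (`HRm_tot` with `x := R^2`), `log(R^2) ≤ 2 B log log x`, so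
`10 x (..) ≤ x log x` for large `x`.  Total `≤ 13 x log x`.
-/

set_option autoImplicit false

namespace Pool.Agent.H35.W

open Finset
open Pool.Agent.H91.EHA (hR)
open Pool.Agent.H76.EHB

private theorem HRq_ev (B : ℕ) : ∀ᶠ x : ℕ in Filter.atTop, 1 ≤ x ∧ 1 ≤ Real.log x ∧
    0 ≤ Real.log (Real.log x) ∧ Real.log x ^ (2 * B) ≤ x ∧
    (2 * B * Real.log (Real.log x) + 1) ^ 2 ≤ 3 / 10 * Real.log x := by
  have hl : Filter.Tendsto (fun x : ℕ => Real.log (x : ℝ)) Filter.atTop Filter.atTop :=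
    Real.tendsto_log_atTop.comp tendsto_natCast_atTop_atTop
  set c : ℝ := 3 / 10 / (2 * B + 1) ^ 2 with hc
  have hc0 : 0 < c := by positivity
  have h1 : ∀ᶠ y : ℝ in Filter.atTop, ‖Real.log y ^ 2‖ ≤ c * ‖y‖ :=
    (Real.isLittleO_pow_log_id_atTop (n := 2)).bound hc0
  have h2 : ∀ᶠ y : ℝ in Filter.atTop, ‖Real.log y ^ (2 * B)‖ ≤ 1 * ‖y‖ :=
    (Real.isLittleO_pow_log_id_atTop (n := 2 * B)).bound one_pos
  filter_upwards [Filter.eventually_ge_atTop 1, hl.eventually_ge_atTop (Real.exp 1),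
    hl.eventually h1, tendsto_natCast_atTop_atTop.eventually h2] with x hx e1 e2 e3
  have hx0 : (0 : ℝ) ≤ x := Nat.cast_nonneg x
  have hE : (1 : ℝ) ≤ Real.exp 1 := by
    have := Real.add_one_le_exp (1 : ℝ)
    linarith only [this]
  have hL : 1 ≤ Real.log x := hE.trans e1
  have hLL : 1 ≤ Real.log (Real.log x) := by
    rw [Real.le_log_iff_exp_le (by linarith only [e1, hE])]
    exact e1
  refine ⟨hx, hL, by linarith only [hLL], ?_, ?_⟩
  · rw [Real.norm_eq_abs, Real.norm_eq_abs, one_mul, abs_of_nonneg hx0] at e3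
    exact (le_abs_self _).trans e3
  · rw [Real.norm_eq_abs, Real.norm_eq_abs, abs_of_nonneg (by linarith only [e1, hE] : 0 ≤ Real.log x)] at e2
    have e4 := (le_abs_self _).trans e2
    have hB : (0 : ℝ) ≤ B := Nat.cast_nonneg B
    calc (2 * (B : ℝ) * Real.log (Real.log x) + 1) ^ 2
        ≤ ((2 * B + 1) * Real.log (Real.log x)) ^ 2 :=
          pow_le_pow_left₀ (by positivity) (by nlinarith only [hLL]) 2
      _ = (2 * B + 1) ^ 2 * Real.log (Real.log x) ^ 2 := by ring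
      _ ≤ (2 * B + 1) ^ 2 * (c * Real.log x) :=
          mul_le_mul_of_nonneg_left e4 (by positivity)
      _ = 3 / 10 * Real.log x := by
          rw [hc]
          field_simp

theorem hr_sq (B : ℕ) : ∃ x0 : ℕ, ∀ x : ℕ, x0 ≤ x → ∀ N : ℕ, N ≤ x →
    S2 (hR ⌊Real.log x ^ B⌋₊) N ≤ 15 * x * Real.log x := by
  obtain ⟨x0, h⟩ := Filter.eventually_atTop.1 (HRq_ev B)
  refine ⟨x0, fun x hx N hN => ?_⟩
  obtain ⟨hx1, hL, hLL, h2, h3⟩ := h x hx
  set R := ⌊Real.log x ^ B⌋₊ with hR'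
  have hp1 : 1 ≤ Real.log x ^ B := one_le_pow₀ hL
  have hR1 : 1 ≤ R := by
    rw [hR']
    exact Nat.le_floor (by simpa using hp1)
  have hRle : (R : ℝ) ≤ Real.log x ^ B := Nat.floor_le (by linarith only [hp1])
  have hR0 : (0 : ℝ) < R := by exact_mod_cast hR1
  have hRx : R ^ 2 ≤ x := by
    have : ((R : ℝ)) ^ 2 ≤ x := by
      calc (R : ℝ) ^ 2 ≤ (Real.log x ^ B) ^ 2 := pow_le_pow_left₀ hR0.le hRle 2
        _ = Real.log x ^ (2 * B) := by rw [← pow_mul]; ring_nf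
        _ ≤ x := h2
    exact_mod_cast this
  have hx0 : (0 : ℝ) < x := by exact_mod_cast hx1
  have e1 := lamR_sq R N x hx1 hRx hN
  have e2 := HRm_Lam x N hx1 hN
  have e3 := HRm_tot (R ^ 2) R hR1 le_rfl
  have e4 : Real.log ((R ^ 2 : ℕ) : ℝ) ≤ 2 * B * Real.log (Real.log x) := by
    push_cast
    rw [Real.log_pow]
    have : Real.log R ≤ B * Real.log (Real.log x) := by
      rw [← Real.log_pow]
      exact Real.log_le_log hR0 hRle
    push_cast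
    linarith only [this]
  have e5 : 0 ≤ Real.log ((R ^ 2 : ℕ) : ℝ) := Real.log_natCast_nonneg _
  have e6 : ∑ c ∈ Icc 1 R, 1 / (c.totient : ℝ) ≤ 3 / 10 * Real.log x := by
    refine e3.trans (le_trans ?_ h3)
    have e7 : (2 * (B : ℝ) * Real.log (Real.log x) + 1) ^ 2 =
        (2 * B * Real.log (Real.log x) + 1) * (1 + 2 * B * Real.log (Real.log x)) := by ring
    rw [e7]
    exact mul_le_mul (by linarith only [e4]) (by linarith only [e4]) (by linarith only [e5]) (by linarith only [e4, e5])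
  have h4 : S2 (hR R) N ≤ 2 * ∑ n ∈ Icc 1 N, Pool.Agent.H91.EHA.Lam n ^ 2 +
      2 * ∑ n ∈ Icc 1 N, Pool.Agent.H91.EHA.lamR R n ^ 2 := by
    unfold S2
    rw [mul_sum, mul_sum, ← sum_add_distrib]
    refine sum_le_sum fun n _ => ?_
    show (Pool.Agent.H91.EHA.Lam n - Pool.Agent.H91.EHA.lamR R n) ^ 2 ≤ _
    nlinarith only [sq_nonneg (Pool.Agent.H91.EHA.Lam n + Pool.Agent.H91.EHA.lamR R n)]
  have h5 : 5 * (x : ℝ) * ∑ c ∈ Icc 1 R, 1 / (c.totient : ℝ) ≤ 5 * x * (3 / 10 * Real.log x) :=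
    mul_le_mul_of_nonneg_left e6 (by positivity)
  linarith only [e1, e2, h4, h5]

end Pool.Agent.H35.W

end

section

/-!
# W TB1: structural steps for TBlk
-/

set_option autoImplicit false

namespace Pool.Agent.H35.W

open Finset

/-- parametrisation `n = a + k q` -/
theorem TB_ksum (g : ℕ → ℝ) (M N a q K : ℕ) (hg : ∀ n, n ∉ Ioc M N → g n = 0) (ha : a ≤ M)
    (hq : 0 < q) (hK : N < (K + 1) * q) :
    ∑ n ∈ (Ioc M N).filter (fun n => n ≡ a [MOD q]), g n = ∑ k ∈ Icc 1 K, g (a + k * q) := by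
  refine Finset.sum_bij_ne_zero (fun n _ _ => (n - a) / q) ?_ ?_ ?_ ?_
  · intro n hn _
    rw [mem_filter, mem_Ioc] at hn
    obtain ⟨⟨h1, h2⟩, h3⟩ := hn
    have han : a ≤ n := by omega
    have hdvd : q ∣ n - a := (Nat.modEq_iff_dvd' han).mp h3.symm
    obtain ⟨k, hk⟩ := hdvd
    rw [mem_Icc, hk, Nat.mul_div_cancel_left k hq]
    constructor
    · rcases Nat.eq_zero_or_pos k with h0 | h0
      · rw [h0, mul_zero] at hk; omega
      · exact h0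
    · by_contra hlt
      push Not at hlt
      have : (K + 1) * q ≤ q * k := by rw [mul_comm]; exact Nat.mul_le_mul_left q hlt
      omega
  · intro n1 hn1 _ n2 hn2 _ h
    rw [mem_filter, mem_Ioc] at hn1 hn2
    have h1 : q ∣ n1 - a := (Nat.modEq_iff_dvd' (by omega)).mp hn1.2.symm
    have h2 : q ∣ n2 - a := (Nat.modEq_iff_dvd' (by omega)).mp hn2.2.symm
    obtain ⟨k1, hk1⟩ := h1
    obtain ⟨k2, hk2⟩ := h2
    simp only [hk1, hk2, Nat.mul_div_cancel_left _ hq] at h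
    subst h
    omega
  · intro k hk hne
    rw [mem_Icc] at hk
    have hmem : a + k * q ∈ Ioc M N := by
      by_contra hc
      exact hne (hg _ hc)
    refine ⟨a + k * q, ?_, hne, ?_⟩
    · rw [mem_filter]
      exact ⟨hmem, by simp [Nat.ModEq]⟩
    · simp only [Nat.add_sub_cancel_left, Nat.mul_div_cancel _ hq]
  · intro n hn _
    rw [mem_filter, mem_Ioc] at hn
    obtain ⟨⟨h1, h2⟩, h3⟩ := hn
    have han : a ≤ n := by omega
    have hdvd : q ∣ n - a := (Nat.modEq_iff_dvd' han).mp h3.symm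
    rw [Nat.div_mul_cancel hdvd]
    congr 1
    omega

end Pool.Agent.H35.W

end

section

/-!
# W Greedy: greedy removal of correlations

Proof.  `f_0 = f`; if some `i` has `|<f_j, v_i>| > lam i`, put `e j = i`, `c j = <f_j, v_i> / ‖v_i‖^2`
(`‖v_i‖ ≠ 0` as `<f_j, v_i> ≠ 0`), `f_{j+1} = f_j - c_j v_i`; otherwise stop, `J = j`.
`‖f_{j+1}‖^2 = ‖f_j‖^2 - |<f_j, v_i>|^2/‖v_i‖^2` and
`|<f_j,v_i>|^2/‖v_i‖^2 = |c_j| |<f_j,v_i>| ≥ |c_j| lam i`, also `≥ (lam i)^2 / X ≥ l0^2 / X`.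
The energy `‖f_j‖^2 ≥ 0` decreases by `≥ l0^2/X` in each step, so the procedure stops.
(Formally: strong induction / well-foundedness on `⌊‖f_j‖^2 X / l0^2⌋`, for instance the statement
(for all `n : ℕ` and all `f` with `‖f‖^2 X ≤ n l0^2` the conclusion holds) by induction on `n`; prepend `e 0, c 0`.)
Sums: `∑_j |c_j| lam(e_j) ≤ ∑_j (‖f_j‖^2 - ‖f_{j+1}‖^2) ≤ ‖f‖^2`, `∑_j lam(e_j)^2 ≤ X ‖f‖^2`.
Note that `X ≥ ‖v‖^2 > 0` as soon as one step is made (if `X = 0` no step is possible).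
-/

set_option autoImplicit false

namespace Pool.Agent.H35.W

open Finset

private theorem Greedy_energy (s : Finset ℕ) (f v : ℕ → ℂ) (c : ℂ) :
    ∑ n ∈ s, ‖f n - c * v n‖ ^ 2 = ∑ n ∈ s, ‖f n‖ ^ 2 -
      2 * ((starRingEnd ℂ) c * ∑ n ∈ s, f n * (starRingEnd ℂ) (v n)).re +
      ‖c‖ ^ 2 * ∑ n ∈ s, ‖v n‖ ^ 2 := by
  have h1 : ∀ n ∈ s, ‖f n - c * v n‖ ^ 2 = ‖f n‖ ^ 2 -
      2 * ((starRingEnd ℂ) c * (f n * (starRingEnd ℂ) (v n))).re + ‖c‖ ^ 2 * ‖v n‖ ^ 2 := by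
    intro n _
    rw [← Complex.normSq_eq_norm_sq, Complex.normSq_sub, Complex.normSq_mul,
      ← Complex.normSq_eq_norm_sq, ← Complex.normSq_eq_norm_sq, ← Complex.normSq_eq_norm_sq]
    have : f n * (starRingEnd ℂ) (c * v n) = (starRingEnd ℂ) c * (f n * (starRingEnd ℂ) (v n)) := by
      rw [map_mul]; ring
    rw [this]
    ring
  rw [sum_congr rfl h1, sum_add_distrib, sum_sub_distrib, ← mul_sum, ← mul_sum, ← Complex.re_sum,
    ← mul_sum]

/-- Cauchy-Schwarz -/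
private theorem Greedy_cs (s : Finset ℕ) (f v : ℕ → ℂ) :
    ‖∑ n ∈ s, f n * (starRingEnd ℂ) (v n)‖ ^ 2 ≤ (∑ n ∈ s, ‖f n‖ ^ 2) * ∑ n ∈ s, ‖v n‖ ^ 2 := by
  have h1 : ‖∑ n ∈ s, f n * (starRingEnd ℂ) (v n)‖ ≤ ∑ n ∈ s, ‖f n‖ * ‖v n‖ := by
    refine (norm_sum_le _ _).trans (sum_le_sum fun n _ => ?_)
    rw [norm_mul, RCLike.norm_conj]
  calc ‖∑ n ∈ s, f n * (starRingEnd ℂ) (v n)‖ ^ 2 ≤ (∑ n ∈ s, ‖f n‖ * ‖v n‖) ^ 2 :=
        pow_le_pow_left₀ (norm_nonneg _) h1 2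
    _ ≤ (∑ n ∈ s, ‖f n‖ ^ 2) * ∑ n ∈ s, ‖v n‖ ^ 2 := sum_mul_sq_le_sq_mul_sq _ _ _

/-- one step -/
private theorem Greedy_step (s : Finset ℕ) (f v : ℕ → ℂ) (V l : ℝ) (hV : ∑ n ∈ s, ‖v n‖ ^ 2 = V)
    (hl : 0 < l) (ha : l < ‖∑ n ∈ s, f n * (starRingEnd ℂ) (v n)‖) :
    0 < V ∧ ∃ c : ℂ, ‖c‖ * l + ∑ n ∈ s, ‖f n - c * v n‖ ^ 2 ≤ ∑ n ∈ s, ‖f n‖ ^ 2 ∧
      l ^ 2 + V * ∑ n ∈ s, ‖f n - c * v n‖ ^ 2 ≤ V * ∑ n ∈ s, ‖f n‖ ^ 2 := by
  set a := ∑ n ∈ s, f n * (starRingEnd ℂ) (v n) with hadef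
  have ha0 : 0 < ‖a‖ := hl.trans ha
  have hcs := Greedy_cs s f v
  rw [hV] at hcs
  have hV0 : 0 ≤ V := by rw [← hV]; exact sum_nonneg fun _ _ => by positivity
  have hVpos : 0 < V := by
    rcases hV0.eq_or_lt with h | h
    · rw [← h, mul_zero] at hcs
      have : 0 < ‖a‖ ^ 2 := by positivity
      linarith
    · exact h
  refine ⟨hVpos, a / (V : ℂ), ?_⟩
  have hE := Greedy_energy s f v (a / (V : ℂ))
  rw [← hadef, hV] at hE
  have hn : ‖a / (V : ℂ)‖ = ‖a‖ / V := by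
    rw [norm_div, Complex.norm_real, Real.norm_of_nonneg hV0]
  have hre : ((starRingEnd ℂ) (a / (V : ℂ)) * a).re = ‖a‖ ^ 2 / V := by
    rw [map_div₀, Complex.conj_ofReal]
    have : (starRingEnd ℂ) a / (V : ℂ) * a = ((starRingEnd ℂ) a * a) / (V : ℂ) := by ring
    rw [this, ← Complex.normSq_eq_conj_mul_self, ← Complex.ofReal_div, Complex.ofReal_re,
      Complex.normSq_eq_norm_sq]
  rw [hn, hre] at hE
  have hE2 : ∑ n ∈ s, ‖f n - a / (V : ℂ) * v n‖ ^ 2 = ∑ n ∈ s, ‖f n‖ ^ 2 - ‖a‖ ^ 2 / V := by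
    rw [hE]
    field_simp
    ring
  rw [hE2, hn]
  have h1 : ‖a‖ / V * l ≤ ‖a‖ ^ 2 / V := by
    rw [div_mul_eq_mul_div, pow_two]
    gcongr
  have h2 : V * (∑ n ∈ s, ‖f n‖ ^ 2 - ‖a‖ ^ 2 / V) = V * ∑ n ∈ s, ‖f n‖ ^ 2 - ‖a‖ ^ 2 := by
    field_simp
  constructor
  · linarith
  · rw [h2]
    have : l ^ 2 ≤ ‖a‖ ^ 2 := pow_le_pow_left₀ hl.le ha.le 2
    linarith

private theorem Greedy_ind {ι : Type*} [Nonempty ι] (s : Finset ℕ) (v : ι → ℕ → ℂ) (lam : ι → ℝ)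
    (X l0 : ℝ) (hX : ∀ i, ∑ n ∈ s, ‖v i n‖ ^ 2 ≤ X) (hl0 : 0 < l0) (hl : ∀ i, l0 ≤ lam i) (N : ℕ) :
    ∀ f : ℕ → ℂ, X * ∑ n ∈ s, ‖f n‖ ^ 2 ≤ N * l0 ^ 2 →
    ∃ (J : ℕ) (e : ℕ → ι) (c : ℕ → ℂ),
      (∀ j, j < J → lam (e j) <
        ‖∑ n ∈ s, (f n - ∑ i ∈ range j, c i * v (e i) n) * (starRingEnd ℂ) (v (e j) n)‖) ∧
      (∀ k : ι, ‖∑ n ∈ s, (f n - ∑ i ∈ range J, c i * v (e i) n) * (starRingEnd ℂ) (v k n)‖
        ≤ lam k) ∧
      ∑ j ∈ range J, ‖c j‖ * lam (e j) ≤ ∑ n ∈ s, ‖f n‖ ^ 2 ∧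
      ∑ n ∈ s, ‖f n - ∑ i ∈ range J, c i * v (e i) n‖ ^ 2 ≤ ∑ n ∈ s, ‖f n‖ ^ 2 ∧
      ∑ j ∈ range J, lam (e j) ^ 2 ≤ X * ∑ n ∈ s, ‖f n‖ ^ 2 := by
  have hX0 : 0 ≤ X := (sum_nonneg fun _ _ => by positivity).trans (hX (Classical.arbitrary ι))
  have hstop : ∀ f : ℕ → ℂ, (∀ k : ι, ‖∑ n ∈ s, f n * (starRingEnd ℂ) (v k n)‖ ≤ lam k) →
    ∃ (J : ℕ) (e : ℕ → ι) (c : ℕ → ℂ),
      (∀ j, j < J → lam (e j) <
        ‖∑ n ∈ s, (f n - ∑ i ∈ range j, c i * v (e i) n) * (starRingEnd ℂ) (v (e j) n)‖) ∧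
      (∀ k : ι, ‖∑ n ∈ s, (f n - ∑ i ∈ range J, c i * v (e i) n) * (starRingEnd ℂ) (v k n)‖
        ≤ lam k) ∧
      ∑ j ∈ range J, ‖c j‖ * lam (e j) ≤ ∑ n ∈ s, ‖f n‖ ^ 2 ∧
      ∑ n ∈ s, ‖f n - ∑ i ∈ range J, c i * v (e i) n‖ ^ 2 ≤ ∑ n ∈ s, ‖f n‖ ^ 2 ∧
      ∑ j ∈ range J, lam (e j) ^ 2 ≤ X * ∑ n ∈ s, ‖f n‖ ^ 2 := by
    intro f hk
    have hE0 : 0 ≤ ∑ n ∈ s, ‖f n‖ ^ 2 := sum_nonneg fun _ _ => by positivity
    refine ⟨0, fun _ => Classical.arbitrary ι, fun _ => 0, ?_, ?_, ?_, ?_, ?_⟩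
    · intro j hj
      omega
    · simpa using hk
    · simpa using hE0
    · simp
    · simpa using mul_nonneg hX0 hE0
  induction N with
  | zero =>
    intro f hf
    apply hstop f
    intro k
    have h1 := Greedy_cs s f (v k)
    have hE0 : 0 ≤ ∑ n ∈ s, ‖f n‖ ^ 2 := sum_nonneg fun _ _ => by positivity
    have h2 : (∑ n ∈ s, ‖f n‖ ^ 2) * ∑ n ∈ s, ‖v k n‖ ^ 2 ≤ (∑ n ∈ s, ‖f n‖ ^ 2) * X :=
      mul_le_mul_of_nonneg_left (hX k) hE0
    have h3 : ‖∑ n ∈ s, f n * (starRingEnd ℂ) (v k n)‖ ^ 2 ≤ 0 := by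
      refine h1.trans (h2.trans ?_)
      rw [mul_comm]
      simpa using hf
    have h4 : ‖∑ n ∈ s, f n * (starRingEnd ℂ) (v k n)‖ = 0 := by
      have := le_antisymm h3 (by positivity)
      exact pow_eq_zero_iff (two_ne_zero) |>.1 this
    rw [h4]
    exact hl0.le.trans (hl k)
  | succ N ih =>
    intro f hf
    by_cases hall : ∀ k : ι, ‖∑ n ∈ s, f n * (starRingEnd ℂ) (v k n)‖ ≤ lam k
    · exact hstop f hall
    · push Not at hall
      obtain ⟨i, hi⟩ := hall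
      have hli : 0 < lam i := hl0.trans_le (hl i)
      obtain ⟨hV, c, hc1, hc2⟩ := Greedy_step s f (v i) (∑ n ∈ s, ‖v i n‖ ^ 2) (lam i) rfl hli hi
      set f1 : ℕ → ℂ := fun n => f n - c * v i n with hf1
      have hE1 : 0 ≤ ∑ n ∈ s, ‖f1 n‖ ^ 2 := sum_nonneg fun _ _ => by positivity
      have hle : ∑ n ∈ s, ‖f1 n‖ ^ 2 ≤ ∑ n ∈ s, ‖f n‖ ^ 2 := by
        have : 0 ≤ ‖c‖ * lam i := by positivity
        have h := hc1
        simp only [hf1]
        linarith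
      have hdec : lam i ^ 2 + X * ∑ n ∈ s, ‖f1 n‖ ^ 2 ≤ X * ∑ n ∈ s, ‖f n‖ ^ 2 := by
        have h1 := mul_le_mul_of_nonneg_right (hX i) (sub_nonneg.2 hle)
        have h2 : lam i ^ 2 + (∑ n ∈ s, ‖v i n‖ ^ 2) * ∑ n ∈ s, ‖f1 n‖ ^ 2 ≤
          (∑ n ∈ s, ‖v i n‖ ^ 2) * ∑ n ∈ s, ‖f n‖ ^ 2 := hc2
        linarith
      have hN : X * ∑ n ∈ s, ‖f1 n‖ ^ 2 ≤ N * l0 ^ 2 := by
        have h1 : l0 ^ 2 ≤ lam i ^ 2 := pow_le_pow_left₀ hl0.le (hl i) 2
        push_cast at hf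
        linarith
      obtain ⟨J, e, d, h1, h2, h3, h4, h5⟩ := ih f1 hN
      obtain ⟨E, hE0, hEs⟩ : ∃ E : ℕ → ι, E 0 = i ∧ ∀ k, E (k + 1) = e k :=
        ⟨fun j => Nat.casesOn j i e, rfl, fun _ => rfl⟩
      obtain ⟨C, hC0, hCs⟩ : ∃ C : ℕ → ℂ, C 0 = c ∧ ∀ k, C (k + 1) = d k :=
        ⟨fun j => Nat.casesOn j c d, rfl, fun _ => rfl⟩
      have heq : ∀ (j n : ℕ), f n - ∑ k ∈ range (j + 1), C k * v (E k) n =
          f1 n - ∑ k ∈ range j, d k * v (e k) n := by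
        intro j n
        rw [sum_range_succ', hC0, hE0, hf1]
        simp only [hCs, hEs]
        ring
      refine ⟨J + 1, E, C, ?_, ?_, ?_, ?_, ?_⟩
      · intro j hj
        cases j with
        | zero => simpa [hE0] using hi
        | succ j =>
          have h := h1 j (by omega)
          simp only [heq, hEs]
          exact h
      · intro k
        simp only [heq]
        exact h2 k
      · rw [sum_range_succ', hC0, hE0]
        simp only [hCs, hEs]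
        have h : ‖c‖ * lam i + ∑ n ∈ s, ‖f1 n‖ ^ 2 ≤ ∑ n ∈ s, ‖f n‖ ^ 2 := hc1
        linarith
      · simp only [heq]
        exact h4.trans hle
      · rw [sum_range_succ', hE0]
        simp only [hEs]
        linarith

theorem greedy {ι : Type*} [Nonempty ι] (s : Finset ℕ) (v : ι → ℕ → ℂ) (lam : ι → ℝ) (X l0 : ℝ)
    (hX : ∀ i, ∑ n ∈ s, ‖v i n‖ ^ 2 ≤ X) (hl0 : 0 < l0) (hl : ∀ i, l0 ≤ lam i) (f : ℕ → ℂ) :
    ∃ (J : ℕ) (e : ℕ → ι) (c : ℕ → ℂ),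
      (∀ j, j < J → lam (e j) <
        ‖∑ n ∈ s, (f n - ∑ i ∈ range j, c i * v (e i) n) * (starRingEnd ℂ) (v (e j) n)‖) ∧
      (∀ k : ι, ‖∑ n ∈ s, (f n - ∑ i ∈ range J, c i * v (e i) n) * (starRingEnd ℂ) (v k n)‖
        ≤ lam k) ∧
      ∑ j ∈ range J, ‖c j‖ * lam (e j) ≤ ∑ n ∈ s, ‖f n‖ ^ 2 ∧
      ∑ n ∈ s, ‖f n - ∑ i ∈ range J, c i * v (e i) n‖ ^ 2 ≤ ∑ n ∈ s, ‖f n‖ ^ 2 ∧
      ∑ j ∈ range J, lam (e j) ^ 2 ≤ X * ∑ n ∈ s, ‖f n‖ ^ 2 := by
  obtain ⟨N, hN⟩ := exists_nat_ge ((X * ∑ n ∈ s, ‖f n‖ ^ 2) / l0 ^ 2)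
  refine Greedy_ind s v lam X l0 hX hl0 hl N f ?_
  rw [div_le_iff₀ (by positivity)] at hN
  exact hN

end Pool.Agent.H35.W

end

section

/-!
# W Chain: no small frequencies

Proof.  Let `c(j) = #{i ≤ j : u i ≤ T}`.  Claim `u j ≥ T - Δ c(j)` for `j < J`, by strong induction: clear if
`u j > T`; otherwise there is `i < j` with `|u i - u j| ≤ Δ`, `u j ≥ u i - Δ ≥ T - Δ (c(i) + 1)` and
`c(j) ≥ c(i) + 1` (`j` itself is counted).  And `Δ c(j) ≤ Δ #{i < J : u i ≤ T} ≤ T/2`.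
-/

set_option autoImplicit false

namespace Pool.Agent.H35.W

open Finset

private theorem Chain_aux (J : ℕ) (u : ℕ → ℝ) (T Δ : ℝ) (hΔ : 0 ≤ Δ)
    (h : ∀ j, j < J → u j ≤ T → ∃ i, i < j ∧ |u i - u j| ≤ Δ) (j : ℕ) :
    j < J → T - Δ * (((range (j + 1)).filter (fun i => u i ≤ T)).card : ℝ) ≤ u j := by
  induction j using Nat.strong_induction_on with
  | _ j ih =>
    intro hj
    rcases le_or_gt (u j) T with hT | hT
    · obtain ⟨i, hij, hi⟩ := h j hj hT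
      have h1 := ih i hij (hij.trans hj)
      have h2 := (abs_le.1 hi).2
      have h3 : ((range (i + 1)).filter (fun i => u i ≤ T)).card + 1 ≤
          ((range (j + 1)).filter (fun i => u i ≤ T)).card := by
        apply Finset.card_lt_card
        rw [Finset.ssubset_iff_of_subset]
        · refine ⟨j, ?_, ?_⟩
          · rw [mem_filter, mem_range]
            exact ⟨by omega, hT⟩
          · rw [mem_filter, mem_range]
            intro h4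
            omega
        · intro x hx
          rw [mem_filter, mem_range] at hx ⊢
          exact ⟨by omega, hx.2⟩
      have h4 : ((((range (i + 1)).filter (fun i => u i ≤ T)).card : ℝ)) + 1 ≤
          (((range (j + 1)).filter (fun i => u i ≤ T)).card : ℝ) := by exact_mod_cast h3
      have h5 := mul_le_mul_of_nonneg_left h4 hΔ
      linarith
    · have h1 : 0 ≤ Δ * (((range (j + 1)).filter (fun i => u i ≤ T)).card : ℝ) := by positivity
      linarith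

theorem chain (J : ℕ) (u : ℕ → ℝ) (T Δ : ℝ) (hΔ : 0 ≤ Δ)
    (h : ∀ j, j < J → u j ≤ T → ∃ i, i < j ∧ |u i - u j| ≤ Δ)
    (hN : Δ * (((range J).filter (fun j => u j ≤ T)).card : ℝ) ≤ T / 2) :
    ∀ j, j < J → T / 2 ≤ u j := by
  intro j hj
  have h1 := Chain_aux J u T Δ hΔ h j hj
  have h2 : ((range (j + 1)).filter (fun i => u i ≤ T)).card ≤
      ((range J).filter (fun j => u j ≤ T)).card := by
    apply Finset.card_le_card
    intro x hx
    rw [mem_filter, mem_range] at hx ⊢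
    exact ⟨by omega, hx.2⟩
  have h3 : (((range (j + 1)).filter (fun i => u i ≤ T)).card : ℝ) ≤
      (((range J).filter (fun j => u j ≤ T)).card : ℝ) := by exact_mod_cast h2
  have h4 := mul_le_mul_of_nonneg_left h3 hΔ
  linarith

end Pool.Agent.H35.W

end
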