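import Pool.Agent.H94.EH.M22
import Pool.Agent.H94.EH.M25

/-! The parts of this file: H35.U.Par, H35.U.RGen, H35.U.PtB, H87.WL.PiPsi, H35.U.PiP, H87.WL.Bsm, H35.U.Sm. -/

section

/-!
# U Par: choice of the parameters

`L = log x`, `l = log L`.  `P = ⌊L^b⌋₊`, `r = ⌈C2 l⌉₊`, `C1 = ⌈400 (C2+1)/(1-θ)⌉₊ + 1`,
`Pm = min ⌊H/L^b⌋₊ ⌊exp(L/(C1 l))⌋₊`, `J = Nat.log 2 (Pm/P)`, so `P 2^J ≤ Pm < 2 P 2^J` (`P ≤ Pm` for large `x`:
`H/L^b ≥ L^(b+2)`, `exp(L/(C1 l)) ≥ 2 L^b`).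
* `P 2^J L^b ≤ Pm L^b ≤ H`.
* `(P 2^J + 1)^(2r) ≤ (2 exp(L/(C1 l)))^(2 C2 l + 2) = 2^(2 C2 l+2) exp(L (2 C2 l + 2)/(C1 l))
  ≤ exp((1-θ) L/100)` for large `x`: `(2 C2 l + 2)/(C1 l) ≤ (2 C2+2)/C1 ≤ (1-θ)/200` and
  `2^(2 C2 l + 2) ≤ exp((1-θ)L/200)`.
* `log(P 2^J) ≥ log(Pm/2) ≥ min(log H/2, L/(2 C1 l))` (`H/L^b - 1 ≥ 2 H^(1/2)` as `H ≥ L^(2b+2)`), `log P ≤ b l`, so
  `log P/log(P 2^J) ≤ b l max(2/log H, 2 C1 l/L) ≤ 2 b (C1+1) rho x H`.
* `4 r ≤ P`, `8 r/P ≤ 1/L^2` for large `x` (`b ≥ 4`); `4^(2r) ≥ exp(2r) ≥ exp(2 C2 l) = L^(2 C2)`, and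
  `8^(2r) ≥ exp(4 r) ≥ L^(4 C2)` (`8 ≥ e²`).
* `(J : ℝ) ≤ 2 L`: `2^J ≤ H ≤ x`.
-/

set_option autoImplicit false

namespace Pool.Agent.H35.U

open Finset

private theorem Par_ev (K : ℝ) : ∃ x0 : ℕ, ∀ x : ℕ, x0 ≤ x → 3 ≤ Real.log x ∧
    1 ≤ Real.log (Real.log x) ∧ K * Real.log (Real.log x) ^ 2 ≤ Real.log x := by
  have h1 : ∀ᶠ L : ℝ in Filter.atTop, 3 ≤ L ∧ 1 ≤ Real.log L ∧ K * Real.log L ^ 2 ≤ L := by
    have ho := (Real.isLittleO_pow_log_id_atTop (n := 2)).def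
      (c := 1 / (|K| + 1)) (by positivity)
    filter_upwards [Filter.eventually_ge_atTop (3 : ℝ),
      Real.tendsto_log_atTop.eventually_ge_atTop 1, ho] with L h3 h1 hL
    refine ⟨h3, h1, ?_⟩
    have hL0 : 0 < L := by linarith only [h3]
    rw [Real.norm_of_nonneg (by positivity), id, Real.norm_of_nonneg hL0.le] at hL
    have hK : 0 < |K| + 1 := by positivity
    have h4 : (|K| + 1) * Real.log L ^ 2 ≤ L := by
      have := mul_le_mul_of_nonneg_left hL hK.le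
      calc (|K| + 1) * Real.log L ^ 2 ≤ (|K| + 1) * (1 / (|K| + 1) * L) := this
        _ = L := by field_simp
    have h5 : K ≤ |K| + 1 := (le_abs_self K).trans (by linarith)
    calc K * Real.log L ^ 2 ≤ (|K| + 1) * Real.log L ^ 2 :=
          mul_le_mul_of_nonneg_right h5 (by positivity)
      _ ≤ L := h4
  have h2 := (Real.tendsto_log_atTop.comp tendsto_natCast_atTop_atTop).eventually h1
  obtain ⟨x0, hx0⟩ := Filter.eventually_atTop.1 h2
  exact ⟨x0, fun x hx => hx0 x hx⟩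

private theorem Par_exp : (3 : ℝ) ≤ Real.exp (3 / 2) := by
  have h3 := Real.exp_one_gt_d9
  have h4 : Real.exp (3 / 2) = Real.exp 1 * Real.exp (1 / 2) := by
    rw [← Real.exp_add]
    norm_num
  have h5 : (1 : ℝ) / 2 + 1 ≤ Real.exp (1 / 2) := Real.add_one_le_exp _
  rw [h4]
  nlinarith only [h3, h5]

theorem par (θ : ℝ) (hθ : θ < 1) (b C2 : ℕ) (hb : 4 ≤ b) : ∃ C : ℝ, 0 < C ∧ ∃ x0 : ℕ,
    ∀ x : ℕ, x0 ≤ x → ∀ H : ℕ, Real.log x ^ (2 * b + 2) ≤ H → (H : ℝ) ^ 2 ≤ x →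
    ∃ P J r : ℕ, Real.log x ^ b / 2 ≤ P ∧ (P : ℝ) ≤ Real.log x ^ b ∧
      ((P * 2 ^ J : ℕ) : ℝ) * Real.log x ^ b ≤ H ∧
      (((P * 2 ^ J : ℕ) : ℝ) + 1) ^ (2 * r) ≤ (x : ℝ) ^ ((1 - θ) / 100) ∧
      Real.log P / Real.log ((P * 2 ^ J : ℕ) : ℝ) ≤ C * rho x H ∧
      4 * r ≤ P ∧ 8 * (r : ℝ) / P ≤ 1 / Real.log x ^ 2 ∧
      Real.log x ^ (2 * C2) ≤ (4 : ℝ) ^ (2 * r) ∧ Real.log x ^ (4 * C2) ≤ (8 : ℝ) ^ (2 * r) ∧
      (J : ℝ) ≤ 2 * Real.log x := by
  have hθ' : 0 < 1 - θ := by linarith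
  set c1 : ℝ := 400 * (C2 + 1) / (1 - θ) + 1 with hc1
  have hc1' : 1 ≤ c1 := by
    have : 0 ≤ 400 * ((C2 : ℝ) + 1) / (1 - θ) := by positivity
    linarith only [this]
  have hc10 : 0 < c1 := by linarith
  have hb0 : (0 : ℝ) ≤ b := Nat.cast_nonneg b
  have hC20 : (0 : ℝ) ≤ C2 := Nat.cast_nonneg C2
  obtain ⟨x0, hx0⟩ := Par_ev ((b + 3) * c1 + 16 * (C2 + 1))
  refine ⟨2 * b * c1, by have : (4 : ℝ) ≤ b := by exact_mod_cast hb
                         positivity, x0, ?_⟩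
  intro x hx H hH1 hH2
  obtain ⟨hL3, hl1, hKL⟩ := hx0 x hx
  unfold rho
  set L := Real.log x with hLdef
  set l := Real.log L with hldef
  have hL0 : 0 < L := by linarith
  have hL1 : 1 ≤ L := by linarith
  have hl0 : 0 < l := by linarith
  have hxpos : (0 : ℝ) < x := by
    rcases Nat.eq_zero_or_pos x with h | h
    · rw [h, Nat.cast_zero, Real.log_zero] at hLdef
      linarith
    · exact_mod_cast h
  have hexpL : Real.exp L = x := Real.exp_log hxpos
  have hexpl : Real.exp l = L := Real.exp_log hL0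
  have hll : l ≤ l ^ 2 := le_self_pow₀ hl1 (by norm_num)
  have hbc : 0 ≤ (b : ℝ) * c1 := by positivity
  -- consequences of the largeness condition
  have hK1 : c1 * l ≤ L := by
    have h1 : c1 * l ≤ c1 * l ^ 2 := mul_le_mul_of_nonneg_left hll hc10.le
    have h2 : c1 * l ^ 2 ≤ ((b + 3) * c1 + 16 * (C2 + 1)) * l ^ 2 := by
      refine mul_le_mul_of_nonneg_right ?_ (by positivity)
      linarith
    linarith
  have hK3 : 3 * c1 * l ≤ L := by
    have h1 : 3 * c1 * l ≤ 3 * c1 * l ^ 2 := mul_le_mul_of_nonneg_left hll (by positivity)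
    have h2 : 3 * c1 * l ^ 2 ≤ ((b + 3) * c1 + 16 * (C2 + 1)) * l ^ 2 := by
      refine mul_le_mul_of_nonneg_right ?_ (by positivity)
      linarith
    linarith
  have hKb : b * c1 * l ^ 2 ≤ L := by
    have h2 : b * c1 * l ^ 2 ≤ ((b + 3) * c1 + 16 * (C2 + 1)) * l ^ 2 := by
      refine mul_le_mul_of_nonneg_right ?_ (by positivity)
      linarith
    linarith
  have hK16 : 16 * (C2 + 1) * l ≤ L := by
    have h1 : 16 * ((C2 : ℝ) + 1) * l ≤ 16 * (C2 + 1) * l ^ 2 :=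
      mul_le_mul_of_nonneg_left hll (by positivity)
    have h2 : 16 * ((C2 : ℝ) + 1) * l ^ 2 ≤ ((b + 3) * c1 + 16 * (C2 + 1)) * l ^ 2 := by
      refine mul_le_mul_of_nonneg_right ?_ (by positivity)
      linarith
    linarith
  have hLb81 : 81 ≤ L ^ b := by
    calc (81 : ℝ) = 3 ^ 4 := by norm_num
      _ ≤ L ^ 4 := pow_le_pow_left₀ (by norm_num) hL3 4
      _ ≤ L ^ b := pow_le_pow_right₀ hL1 hb
  have hLb0 : 0 < L ^ b := by positivity
  -- `P`
  set P := ⌊L ^ b⌋₊ with hPdef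
  have hP1 : (P : ℝ) ≤ L ^ b := Nat.floor_le hLb0.le
  have hP2 : L ^ b < P + 1 := Nat.lt_floor_add_one _
  have hP3 : L ^ b / 2 ≤ P := by linarith only [hLb81, hP2]
  have hPpos : (0 : ℝ) < P := by linarith
  have hPpos' : 0 < P := by exact_mod_cast hPpos
  -- `T`, `Pm`
  set T := Real.exp (L / (c1 * l)) with hTdef
  have hT1 : 1 ≤ T := Real.one_le_exp (by positivity)
  set Pm := min ⌊(H : ℝ) / L ^ b⌋₊ ⌊T⌋₊ with hPmdef
  have hH0 : (0 : ℝ) ≤ H := Nat.cast_nonneg H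
  have hHpos : (0 : ℝ) < H := lt_of_lt_of_le (by positivity) hH1
  have hLbT : L ^ b ≤ T := by
    have h1 : L ^ b = Real.exp (b * l) := by
      rw [mul_comm, Real.exp_mul, hexpl, Real.rpow_natCast]
    rw [h1]
    refine Real.exp_le_exp.2 ?_
    rw [le_div_iff₀ (by positivity)]
    calc b * l * (c1 * l) = b * c1 * l ^ 2 := by ring
      _ ≤ L := hKb
  have hLbH : L ^ b ≤ (H : ℝ) / L ^ b := by
    rw [le_div_iff₀ hLb0]
    calc L ^ b * L ^ b = L ^ (2 * b) := by ring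
      _ ≤ L ^ (2 * b + 2) := pow_le_pow_right₀ hL1 (by omega)
      _ ≤ H := hH1
  have hPPm : P ≤ Pm := le_min (Nat.floor_le_floor hLbH) (Nat.floor_le_floor hLbT)
  have hPmH : (Pm : ℝ) ≤ (H : ℝ) / L ^ b := by
    have h1 : (Pm : ℝ) ≤ (⌊(H : ℝ) / L ^ b⌋₊ : ℝ) := by exact_mod_cast min_le_left _ _
    exact h1.trans (Nat.floor_le (by positivity))
  have hPmT : (Pm : ℝ) ≤ T := by
    have h1 : (Pm : ℝ) ≤ (⌊T⌋₊ : ℝ) := by exact_mod_cast min_le_right _ _
    exact h1.trans (Nat.floor_le (by positivity))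
  -- `J`
  set J := Nat.log 2 (Pm / P) with hJdef
  have hq : Pm / P ≠ 0 := by
    have := Nat.div_pos hPPm hPpos'
    omega
  have hJ1 : 2 ^ J ≤ Pm / P := Nat.pow_log_le_self 2 hq
  have hJ2 : Pm / P < 2 ^ (J + 1) := Nat.lt_pow_succ_log_self (by norm_num) _
  have hJ3 : P * 2 ^ J ≤ Pm := (Nat.mul_le_mul_left P hJ1).trans (Nat.mul_div_le Pm P)
  have hJ4 : Pm < 2 * (P * 2 ^ J) := by
    rw [Nat.div_lt_iff_lt_mul hPpos'] at hJ2
    calc Pm < 2 ^ (J + 1) * P := hJ2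
      _ = 2 * (P * 2 ^ J) := by ring
  have hJ3' : ((P * 2 ^ J : ℕ) : ℝ) ≤ Pm := by exact_mod_cast hJ3
  have hJ4' : (Pm : ℝ) < 2 * ((P * 2 ^ J : ℕ) : ℝ) := by exact_mod_cast hJ4
  -- `r`
  set r := ⌈(C2 : ℝ) * l⌉₊ with hrdef
  have hr1 : (C2 : ℝ) * l ≤ r := Nat.le_ceil _
  have hr2 : (r : ℝ) < C2 * l + 1 := Nat.ceil_lt_add_one (by positivity)
  have hr3 : (r : ℝ) ≤ (C2 + 1) * l := by linarith only [hl1, hr2]
  have hr0 : (0 : ℝ) ≤ r := Nat.cast_nonneg r
  have h16r : 16 * (r : ℝ) ≤ L := by linarith only [hl1, hK16, hr2]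
  have h8r : 8 * (r : ℝ) * L ^ 2 ≤ P := by
    calc 8 * (r : ℝ) * L ^ 2 = (16 * r) * (L ^ 2 / 2) := by ring
      _ ≤ L * (L ^ 2 / 2) := mul_le_mul_of_nonneg_right h16r (by positivity)
      _ = L ^ 3 / 2 := by ring
      _ ≤ L ^ b / 2 := by
          have := pow_le_pow_right₀ hL1 (show 3 ≤ b by omega)
          linarith only [this]
      _ ≤ P := hP3
  refine ⟨P, J, r, hP3, hP1, ?_, ?_, ?_, ?_, ?_, ?_, ?_, ?_⟩
  · -- (3)
    have h1 : ((P * 2 ^ J : ℕ) : ℝ) ≤ (H : ℝ) / L ^ b := hJ3'.trans hPmH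
    rwa [le_div_iff₀ hLb0] at h1
  · -- (4)
    have h1 : ((P * 2 ^ J : ℕ) : ℝ) + 1 ≤ 2 * T := by linarith only [hLb81, hLbT, hPmT, hJ3']
    have h2 : 2 * T = Real.exp (Real.log 2 + L / (c1 * l)) := by
      rw [Real.exp_add, Real.exp_log (by norm_num)]
    have h3 : (((P * 2 ^ J : ℕ) : ℝ) + 1) ^ (2 * r) ≤ (2 * T) ^ (2 * r) :=
      pow_le_pow_left₀ (by positivity) h1 _
    refine h3.trans ?_
    rw [h2, ← Real.exp_nat_mul, Real.rpow_def_of_pos hxpos]
    refine Real.exp_le_exp.2 ?_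
    have hlog2 : Real.log 2 ≤ 1 := by
      have := Real.log_two_lt_d9
      linarith only [this]
    have hlog2' : 0 ≤ Real.log 2 := Real.log_nonneg (by norm_num)
    have hy : 0 ≤ Real.log 2 + L / (c1 * l) := by positivity
    have h4 : ((2 * r : ℕ) : ℝ) ≤ 2 * ((C2 + 1) * l) := by
      push_cast
      linarith only [hl1, hr2]
    have h5 : 400 * ((C2 : ℝ) + 1) ≤ (1 - θ) * c1 := by
      rw [hc1]
      have : (1 - θ) * (400 * ((C2 : ℝ) + 1) / (1 - θ) + 1) =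
        400 * ((C2 : ℝ) + 1) + (1 - θ) := by field_simp
      rw [this]
      linarith only [hθ]
    have h6 : 400 * ((C2 : ℝ) + 1) * l ≤ (1 - θ) * L := by
      calc 400 * ((C2 : ℝ) + 1) * l ≤ (1 - θ) * c1 * l :=
            mul_le_mul_of_nonneg_right h5 hl0.le
        _ = (1 - θ) * (c1 * l) := by ring
        _ ≤ (1 - θ) * L := mul_le_mul_of_nonneg_left hK1 hθ'.le
    calc ((2 * r : ℕ) : ℝ) * (Real.log 2 + L / (c1 * l))
        ≤ 2 * ((C2 + 1) * l) * (Real.log 2 + L / (c1 * l)) :=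
          mul_le_mul_of_nonneg_right h4 hy
      _ = 2 * (C2 + 1) * l * Real.log 2 + 2 * (C2 + 1) * L / c1 := by
          field_simp
      _ ≤ (1 - θ) * L / 200 + (1 - θ) * L / 200 := by
          refine add_le_add ?_ ?_
          · have h7 : 2 * ((C2 : ℝ) + 1) * l * Real.log 2 ≤ 2 * (C2 + 1) * l * 1 :=
              mul_le_mul_of_nonneg_left hlog2 (by positivity)
            linarith only [h6, h7]
          · rw [div_le_iff₀ hc10]
            have h8 := mul_le_mul_of_nonneg_right h5 hL0.le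
            linarith only [h8]
      _ = L * ((1 - θ) / 100) := by ring
  · -- (5)
    have hPm1 : 2 * min ((H : ℝ) ^ (1 / 2 : ℝ)) (T ^ (1 / 2 : ℝ)) ≤ Pm := by
      have hmin : (Pm : ℝ) = min (⌊(H : ℝ) / L ^ b⌋₊ : ℝ) (⌊T⌋₊ : ℝ) := by
        rw [hPmdef, Nat.cast_min]
      rw [hmin]
      have hs1 : (1 : ℝ) ≤ (H : ℝ) ^ (1 / 2 : ℝ) := by
        refine Real.one_le_rpow ?_ (by norm_num)
        exact (one_le_pow₀ hL1).trans hH1
      have hs2 : (H : ℝ) ^ (1 / 2 : ℝ) * (H : ℝ) ^ (1 / 2 : ℝ) = H := by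
        rw [← Real.rpow_add hHpos]
        norm_num
      have ht2 : T ^ (1 / 2 : ℝ) * T ^ (1 / 2 : ℝ) = T := by
        rw [← Real.rpow_add (by positivity)]
        norm_num
      have ht1 : (3 : ℝ) ≤ T ^ (1 / 2 : ℝ) := by
        rw [hTdef, ← Real.exp_mul]
        have h1 : (3 : ℝ) / 2 ≤ L / (c1 * l) * (1 / 2) := by
          rw [div_mul_eq_mul_div, le_div_iff₀ (by positivity)]
          linarith only [hK3]
        exact Par_exp.trans (Real.exp_le_exp.2 h1)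
      refine le_min ?_ ?_
      · have h1 : (H : ℝ) / L ^ b < (⌊(H : ℝ) / L ^ b⌋₊ : ℝ) + 1 := Nat.lt_floor_add_one _
        have h2 : L * (H : ℝ) ^ (1 / 2 : ℝ) ≤ (H : ℝ) / L ^ b := by
          rw [le_div_iff₀ hLb0]
          have h3 : L ^ (b + 1) ≤ (H : ℝ) ^ (1 / 2 : ℝ) := by
            have h4 : (L ^ (2 * b + 2) : ℝ) ^ (1 / 2 : ℝ) ≤ (H : ℝ) ^ (1 / 2 : ℝ) :=
              Real.rpow_le_rpow (by positivity) hH1 (by norm_num)
            have h5 : (L ^ (2 * b + 2) : ℝ) ^ (1 / 2 : ℝ) = L ^ (b + 1) := by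
              rw [← Real.rpow_natCast, ← Real.rpow_mul hL0.le, ← Real.rpow_natCast]
              congr 1
              push_cast
              ring
            rwa [h5] at h4
          calc L * (H : ℝ) ^ (1 / 2 : ℝ) * L ^ b
              = (H : ℝ) ^ (1 / 2 : ℝ) * L ^ (b + 1) := by ring
            _ ≤ (H : ℝ) ^ (1 / 2 : ℝ) * (H : ℝ) ^ (1 / 2 : ℝ) :=
                mul_le_mul_of_nonneg_left h3 (by positivity)
            _ = H := hs2
        have h6 : 3 * (H : ℝ) ^ (1 / 2 : ℝ) ≤ L * (H : ℝ) ^ (1 / 2 : ℝ) :=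
          mul_le_mul_of_nonneg_right hL3 (by positivity)
        have h7 := min_le_left ((H : ℝ) ^ (1 / 2 : ℝ)) (T ^ (1 / 2 : ℝ))
        linarith only [hLb81, hLbH, h1, h2, h6, h7]
      · have h1 : T < (⌊T⌋₊ : ℝ) + 1 := Nat.lt_floor_add_one _
        have h7 := min_le_right ((H : ℝ) ^ (1 / 2 : ℝ)) (T ^ (1 / 2 : ℝ))
        have h8 : 3 * T ^ (1 / 2 : ℝ) ≤ T ^ (1 / 2 : ℝ) * T ^ (1 / 2 : ℝ) :=
          mul_le_mul_of_nonneg_right ht1 (by positivity)
        linarith only [hLb81, hLbT, ht2, h1, h7, h8]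
    have hlogmin : min (Real.log H / 2) (L / (2 * (c1 * l))) ≤
        Real.log ((P * 2 ^ J : ℕ) : ℝ) := by
      have h1 : min ((H : ℝ) ^ (1 / 2 : ℝ)) (T ^ (1 / 2 : ℝ)) ≤ ((P * 2 ^ J : ℕ) : ℝ) := by
        linarith only [hJ4', hPm1]
      rcases le_total ((H : ℝ) ^ (1 / 2 : ℝ)) (T ^ (1 / 2 : ℝ)) with h2 | h2
      · rw [min_eq_left h2] at h1
        refine (min_le_left _ _).trans ?_
        have h3 := Real.log_le_log (by positivity) h1
        rw [Real.log_rpow hHpos] at h3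
        linarith only [h3]
      · rw [min_eq_right h2] at h1
        refine (min_le_right _ _).trans ?_
        have h3 := Real.log_le_log (by positivity) h1
        rw [Real.log_rpow (by positivity), hTdef, Real.log_exp] at h3
        calc L / (2 * (c1 * l)) = 1 / 2 * (L / (c1 * l)) := by field_simp
          _ ≤ _ := h3
    have hlogP : Real.log P ≤ b * l := by
      have h1 := Real.log_le_log hPpos hP1
      rwa [Real.log_pow] at h1
    have hlogH : 0 < Real.log H := by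
      have h1 : (1 : ℝ) < H := by
        have h2 : L ^ 1 ≤ L ^ (2 * b + 2) := pow_le_pow_right₀ hL1 (by omega)
        rw [pow_one] at h2
        linarith only [hH1, hL3, hl1, hK16, hr2, h2]
      exact Real.log_pos h1
    have hminpos : 0 < min (Real.log H / 2) (L / (2 * (c1 * l))) :=
      lt_min (by positivity) (by positivity)
    have hden : 0 < Real.log ((P * 2 ^ J : ℕ) : ℝ) := lt_of_lt_of_le hminpos hlogmin
    have hbl : 0 ≤ (b : ℝ) * l := by positivity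
    calc Real.log P / Real.log ((P * 2 ^ J : ℕ) : ℝ)
        ≤ b * l / Real.log ((P * 2 ^ J : ℕ) : ℝ) := by
          exact div_le_div_of_nonneg_right hlogP hden.le
      _ ≤ b * l / min (Real.log H / 2) (L / (2 * (c1 * l))) :=
          div_le_div_of_nonneg_left hbl hminpos hlogmin
      _ ≤ b * l / (Real.log H / 2) + b * l / (L / (2 * (c1 * l))) := by
          rcases le_total (Real.log H / 2) (L / (2 * (c1 * l))) with h2 | h2
          · rw [min_eq_left h2]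
            have : 0 ≤ b * l / (L / (2 * (c1 * l))) := by positivity
            linarith only [this]
          · rw [min_eq_right h2]
            have : 0 ≤ b * l / (Real.log H / 2) := by positivity
            linarith only [this]
      _ = 2 * b * (l / Real.log H) + 2 * b * c1 * (l ^ 2 / L) := by
          field_simp
      _ ≤ 2 * b * c1 * (l / Real.log H) + 2 * b * c1 * (l ^ 2 / L) := by
          have h3 : 0 ≤ 2 * b * (l / Real.log H) := by positivity
          have h4 : 2 * b * (l / Real.log H) * 1 ≤ 2 * b * (l / Real.log H) * c1 :=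
            mul_le_mul_of_nonneg_left hc1' h3
          linarith only [h4]
      _ = 2 * b * c1 * (l / Real.log H + l ^ 2 / L) := by ring
  · -- (6)
    have h1 : 4 * (r : ℝ) ≤ P := by
      have h2 : (1 : ℝ) ≤ L ^ 2 := one_le_pow₀ hL1
      have h3 : 8 * (r : ℝ) * 1 ≤ 8 * (r : ℝ) * L ^ 2 :=
        mul_le_mul_of_nonneg_left h2 (by positivity)
      linarith only [hLb81, hP2, h8r, h3]
    exact_mod_cast h1
  · -- (7)
    rw [div_le_div_iff₀ hPpos (by positivity)]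
    linarith only [h8r]
  · -- (8)
    have h1 : L ^ (2 * C2) = Real.exp (2 * (C2 * l)) := by
      rw [← Real.rpow_natCast, Real.rpow_def_of_pos hL0]
      congr 1
      push_cast
      ring
    have h2 : (4 : ℝ) ^ (2 * r) = Real.exp (Real.log 4 * (2 * r)) := by
      rw [← Real.rpow_natCast, Real.rpow_def_of_pos (by norm_num)]
      push_cast
      rfl
    rw [h1, h2]
    refine Real.exp_le_exp.2 ?_
    have h3 : 1 ≤ Real.log 4 := by
      have h4 : Real.log 4 = 2 * Real.log 2 := by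
        rw [show (4 : ℝ) = 2 ^ 2 by norm_num, Real.log_pow]
        norm_num
      have := Real.log_two_gt_d9
      linarith only [h4, this]
    have h5 : 1 * (2 * (r : ℝ)) ≤ Real.log 4 * (2 * r) :=
      mul_le_mul_of_nonneg_right h3 (by positivity)
    linarith only [hr1, h5]
  · -- (9)
    have h1 : L ^ (4 * C2) = Real.exp (4 * (C2 * l)) := by
      rw [← Real.rpow_natCast, Real.rpow_def_of_pos hL0]
      congr 1
      push_cast
      ring
    have h2 : (8 : ℝ) ^ (2 * r) = Real.exp (Real.log 8 * (2 * r)) := by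
      rw [← Real.rpow_natCast, Real.rpow_def_of_pos (by norm_num)]
      push_cast
      rfl
    rw [h1, h2]
    refine Real.exp_le_exp.2 ?_
    have h3 : 2 ≤ Real.log 8 := by
      have h4 : Real.log 8 = 3 * Real.log 2 := by
        rw [show (8 : ℝ) = 2 ^ 3 by norm_num, Real.log_pow]
        norm_num
      have := Real.log_two_gt_d9
      linarith only [h4, this]
    have h5 : 2 * (2 * (r : ℝ)) ≤ Real.log 8 * (2 * r) :=
      mul_le_mul_of_nonneg_right h3 (by positivity)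
    linarith only [hr1, h5]
  · -- (10)
    have h1 : (2 : ℝ) ^ J ≤ x := by
      have h2 : (2 : ℝ) ^ J ≤ ((P * 2 ^ J : ℕ) : ℝ) := by
        push_cast
        have hP1' : (1 : ℝ) ≤ P := by exact_mod_cast hPpos'
        exact le_mul_of_one_le_left (by positivity) hP1'
      have h3 : (H : ℝ) / L ^ b ≤ H := div_le_self hH0 (by linarith only [hLb81])
      have h4 : (H : ℝ) ≤ (H : ℝ) ^ 2 :=
        le_self_pow₀ ((one_le_pow₀ hL1).trans hH1) (by norm_num)
      linarith only [hH2, hPmH, hJ3', h2, h3, h4]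
    have h5 := Real.log_le_log (by positivity) h1
    rw [Real.log_pow] at h5
    have h6 := Real.log_two_gt_d9
    have hJ0 : (0 : ℝ) ≤ J := Nat.cast_nonneg J
    have h7 : (J : ℝ) * (1 / 2) ≤ J * Real.log 2 :=
      mul_le_mul_of_nonneg_left (by linarith only [h6]) hJ0
    linarith only [h5, h7]

end Pool.Agent.H35.U

end

section

/-!
# U RGen: sums over rough `k` by the pure sieve; `Λ_R` on rough `k`

* `rgh_eq`: `Rk P J k` says that no prime of `⋃_{i<J} (P 2^i, P 2^(i+1)] = (P, P 2^J]` divides `k`.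
* `r_gen`: `bonf_abs` for each `k`, times `v (a+kq)`; `∑_{k ≤ K, pr T ∣ k} v(a+kq)` is the sum over
  `n ≡ a mod q·pr T`, `n ∈ (M,N]` (bijection `n = a + k q`; `k ≥ 1` as `n > M ≥ a`; see `TB_ksum` in `W.TB1` for
  the case `T = ∅`, it can be used with the modulus `q·pr T`: `k = pr T · k'`, `k' ≤ K`).
* `lamR_rgh`: `S' = PPc P P' a ⊆ S = PP P P'`.  `rS S K ⊆ rS S' K` and `k` in the difference is divisible by some
  `p ∈ S`, `p ∣ a`: at most `(Nat.log 2 a) K/P` such `k` (`WL.card_dvd`: at most `Nat.log 2 a` primes `p ∣ a`; each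
  `p > P` divides at most `K/p` of them), `|lamR R n| ≤ R³` (`|ramS c n| ≤ c²`, see `idn_lamR` in `WL.Idn`).
  For `rS S' K` use `r_gen` with `S'`, `tw S' m k ≤ tw S m k` (`Om` is monotone in `S`; `tw` is monotone in `Om`),
  `lamR_ap` for `y = N` and `y = M` with the modulus `q·pr T` (coprime to `a`):
  `∑_{n ∈ (M,N], n ≡ a} lamR = ((N-M)/(q pr T)) gR R (q pr T) + O(2R³)` and `gR R (q pr T) = gR R q` (a divisor
  `c ≤ R ≤ P` of `q·pr T` is coprime to `pr T`, whose prime factors are `> P`).  Then `bonf_mu`, `sb_card`,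
  `#S' ≤ P'`, `0 ≤ gR`.
-/

set_option autoImplicit false

namespace Pool.Agent.H35.U

open Finset
open Pool.Agent.H91.EHA (Lam lamR hR psiA)
open Pool.Agent.H87.WL (PP PPc Mu Om gR)
open Pool.Agent.H35.W (Rk rgh fcs)

theorem rgh_eq (P J K : ℕ) : rgh P J K = rS (PP P (P * 2 ^ J)) K := by
  classical
  have h : ∀ k, Rk P J k ↔ ∀ p ∈ PP P (P * 2 ^ J), ¬ p ∣ k := by
    intro k
    unfold Rk Pool.Agent.H35.W.pb PP
    simp only [mem_filter, mem_Ioc, and_imp]
    constructor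
    · intro H p hp1 hp2 hp3
      have key : ∀ J', p ≤ P * 2 ^ J' → ∃ i, i < J' ∧ P * 2 ^ i < p ∧ p ≤ 2 * (P * 2 ^ i) := by
        intro J'
        induction J' with
        | zero => intro h; simp at h; omega
        | succ j ih =>
          intro h
          by_cases h2 : p ≤ P * 2 ^ j
          · obtain ⟨i, h3, h4⟩ := ih h2
            exact ⟨i, by omega, h4⟩
          · refine ⟨j, by omega, by omega, ?_⟩
            rw [pow_succ] at h
            calc p ≤ P * (2 ^ j * 2) := h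
              _ = 2 * (P * 2 ^ j) := by ring
      obtain ⟨i, h1, h2, h3⟩ := key J hp2
      exact H i h1 p h2 h3 hp3
    · intro H i hi p h1 h2 h3
      have e1 : P ≤ P * 2 ^ i := Nat.le_mul_of_pos_right P (by positivity)
      have e2 : 2 * (P * 2 ^ i) ≤ P * 2 ^ J := by
        calc 2 * (P * 2 ^ i) = P * 2 ^ (i + 1) := by rw [pow_succ]; ring
          _ ≤ P * 2 ^ J := Nat.mul_le_mul_left _ (Nat.pow_le_pow_right (by norm_num) (by omega))
      exact H p (by omega) (by omega) h3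
  ext k
  unfold rgh rS
  simp only [mem_filter, h]

private theorem RGen_inner (v : ℕ → ℝ) (M N a q K D : ℕ)
    (hv : ∀ n, n ∉ Ioc M N → v n = 0) (ha : a ≤ M) (hq : 0 < q) (hK : N < (K + 1) * q) :
    ∑ n ∈ (Ioc M N).filter (fun n => n ≡ a [MOD q * D]), v n =
      ∑ k ∈ Icc 1 K, (if D ∣ k then (1 : ℝ) else 0) * v (a + k * q) := by
  have h := Pool.Agent.H35.W.TB_ksum (fun n => if n ≡ a [MOD q * D] then v n else 0) M N a q K
    (fun n hn => by simp only [hv n hn, ite_self]) ha hq hK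
  have h1 : ∑ n ∈ (Ioc M N).filter (fun n => n ≡ a [MOD q]),
      (if n ≡ a [MOD q * D] then v n else 0) =
      ∑ n ∈ (Ioc M N).filter (fun n => n ≡ a [MOD q * D]), v n := by
    rw [← sum_filter, filter_filter]
    apply sum_congr _ (fun _ _ => rfl)
    apply filter_congr
    intro n _
    constructor
    · rintro ⟨_, h⟩
      exact h
    · intro h
      exact ⟨Nat.ModEq.of_mul_right D h, h⟩
  rw [← h1, h]
  apply sum_congr rfl
  intro k _
  have h2 : (a + k * q ≡ a [MOD q * D]) ↔ D ∣ k := by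
    constructor
    · intro h3
      have h4 : q * D ∣ (a + k * q) - a := (Nat.modEq_iff_dvd' (Nat.le_add_right _ _)).mp h3.symm
      rw [Nat.add_sub_cancel_left, mul_comm k q] at h4
      exact Nat.dvd_of_mul_dvd_mul_left hq h4
    · rintro ⟨c, rfl⟩
      have : a + D * c * q = a + q * D * c := by ring
      rw [this]
      unfold Nat.ModEq
      rw [Nat.add_mul_mod_self_left]
  by_cases h3 : D ∣ k
  · simp only [h2.2 h3, h3, if_true, one_mul]
  · have h4 : ¬ (a + k * q ≡ a [MOD q * D]) := fun h5 => h3 (h2.1 h5)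
    simp only [h4, h3, if_false, zero_mul]

theorem r_gen (v : ℕ → ℝ) (S : Finset ℕ) (hS : ∀ p ∈ S, p.Prime) (m M N a q K : ℕ)
    (hv : ∀ n, n ∉ Ioc M N → v n = 0) (ha : a ≤ M) (hq : 0 < q) (hK : N < (K + 1) * q) :
    |∑ k ∈ rS S K, v (a + k * q) - ∑ T ∈ sb S m, (-1 : ℝ) ^ T.card *
        ∑ n ∈ (Ioc M N).filter (fun n => n ≡ a [MOD q * pr T]), v n|
      ≤ ∑ k ∈ Icc 1 K, tw S m k * |v (a + k * q)| := by
  have h1 : ∑ k ∈ rS S K, v (a + k * q) =
      ∑ k ∈ Icc 1 K, (if ∀ p ∈ S, ¬ p ∣ k then (1 : ℝ) else 0) * v (a + k * q) := by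
    unfold rS
    rw [sum_filter]
    apply sum_congr rfl
    intro k _
    split_ifs <;> simp
  have h2 : ∑ T ∈ sb S m, (-1 : ℝ) ^ T.card *
        ∑ n ∈ (Ioc M N).filter (fun n => n ≡ a [MOD q * pr T]), v n =
      ∑ k ∈ Icc 1 K, (∑ T ∈ sb S m, (-1 : ℝ) ^ T.card * (if pr T ∣ k then 1 else 0)) *
        v (a + k * q) := by
    have h3 : ∀ T ∈ sb S m, (-1 : ℝ) ^ T.card *
        ∑ n ∈ (Ioc M N).filter (fun n => n ≡ a [MOD q * pr T]), v n =
        ∑ k ∈ Icc 1 K, (-1 : ℝ) ^ T.card * (if pr T ∣ k then 1 else 0) * v (a + k * q) := by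
      intro T _
      rw [RGen_inner v M N a q K (pr T) hv ha hq hK, mul_sum]
      apply sum_congr rfl
      intro k _
      ring
    rw [sum_congr rfl h3, sum_comm]
    apply sum_congr rfl
    intro k _
    rw [sum_mul]
  rw [h1, h2, ← sum_sub_distrib]
  refine (abs_sum_le_sum_abs _ _).trans (sum_le_sum fun k _ => ?_)
  rw [← sub_mul, abs_mul, abs_sub_comm]
  exact mul_le_mul_of_nonneg_right (bonf_abs S hS m k) (abs_nonneg _)

private theorem RGen_ramS (c n : ℕ) (hc : 1 ≤ c) :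
    |Pool.Agent.H91.EHA.ramS c n| ≤ (c : ℝ) ^ 2 := by
  unfold Pool.Agent.H91.EHA.ramS
  have hg : Nat.gcd c n ≤ c := Nat.gcd_le_left _ hc
  calc |∑ d ∈ (Nat.gcd c n).divisors, (d : ℝ) * (ArithmeticFunction.moebius (c / d) : ℝ)|
      ≤ ∑ d ∈ (Nat.gcd c n).divisors, |(d : ℝ) * (ArithmeticFunction.moebius (c / d) : ℝ)| :=
        abs_sum_le_sum_abs _ _
    _ ≤ ∑ _d ∈ (Nat.gcd c n).divisors, (c : ℝ) := by
        apply sum_le_sum
        intro d hd
        rw [abs_mul, abs_of_nonneg (Nat.cast_nonneg d : (0 : ℝ) ≤ d)]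
        have h1 : d ≤ c := (Nat.divisor_le hd).trans hg
        have h2 : |((ArithmeticFunction.moebius (c / d) : ℤ) : ℝ)| ≤ 1 := by
          have := ArithmeticFunction.abs_moebius_le_one (n := c / d)
          exact_mod_cast this
        calc (d : ℝ) * |((ArithmeticFunction.moebius (c / d) : ℤ) : ℝ)| ≤ (c : ℝ) * 1 := by
              apply mul_le_mul (by exact_mod_cast h1) h2 (abs_nonneg _) (Nat.cast_nonneg _)
          _ = c := mul_one _
    _ = ((Nat.gcd c n).divisors.card : ℝ) * c := by rw [sum_const, nsmul_eq_mul]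
    _ ≤ (c : ℝ) * c := by
        apply mul_le_mul_of_nonneg_right _ (Nat.cast_nonneg _)
        have h1 : (Nat.gcd c n).divisors.card ≤ Nat.gcd c n := Nat.card_divisors_le_self _
        exact_mod_cast h1.trans hg
    _ = (c : ℝ) ^ 2 := by ring

private theorem RGen_lamR (R n : ℕ) : |lamR R n| ≤ (R : ℝ) ^ 3 := by
  unfold Pool.Agent.H91.EHA.lamR
  calc |∑ c ∈ Icc 1 R, (ArithmeticFunction.moebius c : ℝ) / (c.totient : ℝ) *
        Pool.Agent.H91.EHA.ramS c n|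
      ≤ ∑ c ∈ Icc 1 R, |(ArithmeticFunction.moebius c : ℝ) / (c.totient : ℝ) *
        Pool.Agent.H91.EHA.ramS c n| := abs_sum_le_sum_abs _ _
    _ ≤ ∑ _c ∈ Icc 1 R, (R : ℝ) ^ 2 := by
        apply sum_le_sum
        intro c hc
        rw [mem_Icc] at hc
        rw [abs_mul, abs_div]
        have h2 : |((ArithmeticFunction.moebius c : ℤ) : ℝ)| ≤ 1 := by
          have := ArithmeticFunction.abs_moebius_le_one (n := c)
          exact_mod_cast this
        have h3 : (1 : ℝ) ≤ |(c.totient : ℝ)| := by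
          rw [abs_of_nonneg (Nat.cast_nonneg _)]
          exact_mod_cast Nat.totient_pos.2 (by omega)
        have h4 : |((ArithmeticFunction.moebius c : ℤ) : ℝ)| / |(c.totient : ℝ)| ≤ 1 := by
          rw [div_le_one (by linarith only [h3])]
          linarith only [h2, h3]
        have h5 := RGen_ramS c n hc.1
        have h6 : (c : ℝ) ^ 2 ≤ (R : ℝ) ^ 2 := by
          have : (c : ℝ) ≤ R := by exact_mod_cast hc.2
          gcongr
        calc _ ≤ 1 * (R : ℝ) ^ 2 :=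
              mul_le_mul h4 (h5.trans h6) (abs_nonneg _) (by norm_num)
          _ = _ := one_mul _
    _ = (R : ℝ) ^ 3 := by
        rw [sum_const, nsmul_eq_mul, Nat.card_Icc]
        simp only [Nat.add_sub_cancel]
        ring

private theorem RGen_gR (R q D : ℕ) (hq : 1 ≤ q) (hD : 1 ≤ D)
    (h : ∀ c, 1 ≤ c → c ≤ R → Nat.Coprime c D) : gR R (q * D) = gR R q := by
  unfold Pool.Agent.H87.WL.gR
  apply sum_congr _ (fun _ _ => rfl)
  ext c
  simp only [mem_filter, Nat.mem_divisors]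
  constructor
  · rintro ⟨⟨h1, h2⟩, h3⟩
    have hc : 1 ≤ c := Nat.pos_of_dvd_of_pos h1 (Nat.pos_of_ne_zero h2)
    exact ⟨⟨(h c hc h3).dvd_of_dvd_mul_right h1, by omega⟩, h3⟩
  · rintro ⟨⟨h1, h2⟩, h3⟩
    refine ⟨⟨h1.mul_right D, ?_⟩, h3⟩
    positivity

private theorem RGen_gR_nonneg (R q : ℕ) : 0 ≤ gR R q := by
  unfold Pool.Agent.H87.WL.gR
  apply sum_nonneg
  intro c _
  positivity

private theorem RGen_ap (R M N q a : ℕ) (hMN : M ≤ N) (hq : 1 ≤ q) (haq : Nat.Coprime a q) :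
    |∑ n ∈ (Ioc M N).filter (fun n => n ≡ a [MOD q]), vR R M N n -
      ((N : ℝ) - M) / q * gR R q| ≤ 2 * (R : ℝ) ^ 3 := by
  have h1 := Pool.Agent.H91.EHA.lamR_ap R N q a hq haq
  have h2 := Pool.Agent.H91.EHA.lamR_ap R M q a hq haq
  have h3 : ∑ n ∈ (Ioc M N).filter (fun n => n ≡ a [MOD q]), vR R M N n =
      ∑ n ∈ (Icc 1 N).filter (fun n => n ≡ a [MOD q]), lamR R n -
      ∑ n ∈ (Icc 1 M).filter (fun n => n ≡ a [MOD q]), lamR R n := by
    rw [eq_sub_iff_add_eq]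
    have e1 : ∑ n ∈ (Ioc M N).filter (fun n => n ≡ a [MOD q]), vR R M N n =
        ∑ n ∈ (Ioc M N).filter (fun n => n ≡ a [MOD q]), lamR R n := by
      apply sum_congr rfl
      intro n hn
      rw [mem_filter] at hn
      unfold vR
      rw [if_pos hn.1]
    rw [e1, ← sum_union]
    · apply sum_congr _ (fun _ _ => rfl)
      ext n
      simp only [mem_union, mem_filter, mem_Ioc, mem_Icc]
      constructor
      · rintro (⟨⟨h3, h4⟩, h5⟩ | ⟨⟨h3, h4⟩, h5⟩)
        · exact ⟨⟨by omega, h4⟩, h5⟩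
        · exact ⟨⟨h3, by omega⟩, h5⟩
      · rintro ⟨⟨h3, h4⟩, h5⟩
        by_cases h6 : n ≤ M
        · exact Or.inr ⟨⟨h3, h6⟩, h5⟩
        · exact Or.inl ⟨⟨by omega, h4⟩, h5⟩
    · rw [Finset.disjoint_left]
      intro n h3 h4
      rw [mem_filter, mem_Ioc] at h3
      rw [mem_filter, mem_Icc] at h4
      omega
  have h4 : ∑ c ∈ q.divisors.filter (fun c => c ≤ R),
          (ArithmeticFunction.moebius c : ℝ) ^ 2 / (c.totient : ℝ) = gR R q := rfl
  rw [h4] at h1 h2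
  rw [h3]
  rw [abs_le] at h1 h2 ⊢
  have h5 : ((N : ℝ) - M) / q * gR R q = (N : ℝ) / q * gR R q - (M : ℝ) / q * gR R q := by ring
  rw [h5]
  constructor <;> linarith only [h1, h2, h1.1, h1.2, h2.1, h2.2]

private theorem RGen_tw_mono {S' S : Finset ℕ} (h : S' ⊆ S) (m k : ℕ) : tw S' m k ≤ tw S m k := by
  have h1 : Om S' k ≤ Om S k := by
    unfold Pool.Agent.H87.WL.Om
    exact card_le_card (filter_subset_filter _ h)
  unfold tw
  split_ifs with h2 h3
  · exact pow_le_pow_right₀ (by norm_num) h1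
  · omega
  · positivity
  · exact le_refl _

private theorem RGen_main (R P P' M N a q m : ℕ) (hRP : R ≤ P) (hq : 1 ≤ q)
    (hMN : M ≤ N) (haq : Nat.Coprime a q) :
    |∑ T ∈ sb (PPc P P' a) m, (-1 : ℝ) ^ T.card *
        ∑ n ∈ (Ioc M N).filter (fun n => n ≡ a [MOD q * pr T]), vR R M N n| ≤
      (N : ℝ) / q * gR R q * eb (PPc P P' a) m + 2 * (R : ℝ) ^ 3 * ((P' : ℝ) + 1) ^ m := by
  set S := PPc P P' a with hSdef
  have hS : ∀ p ∈ S, p.Prime := by
    intro p hp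
    rw [hSdef] at hp
    unfold PPc PP at hp
    rw [mem_filter, mem_filter] at hp
    exact hp.1.2
  have hSP : ∀ p ∈ S, P < p ∧ p ≤ P' ∧ ¬ p ∣ a := by
    intro p hp
    rw [hSdef] at hp
    unfold PPc PP at hp
    rw [mem_filter, mem_filter, mem_Ioc] at hp
    exact ⟨hp.1.1.1, hp.1.1.2, hp.2⟩
  have hq0 : (0 : ℝ) < q := by exact_mod_cast hq
  have hT : ∀ T ∈ sb S m, |∑ n ∈ (Ioc M N).filter (fun n => n ≡ a [MOD q * pr T]), vR R M N n -
      ((N : ℝ) - M) / q * gR R q / (pr T : ℝ)| ≤ 2 * (R : ℝ) ^ 3 := by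
    intro T hT
    rw [mem_sb] at hT
    have hp1 : 1 ≤ pr T := pr_pos S hS T hT.1
    have hp0 : (0 : ℝ) < pr T := by exact_mod_cast hp1
    have hcop : Nat.Coprime a (pr T) := by
      unfold pr
      apply Nat.Coprime.prod_right
      intro p hp
      exact ((hS p (hT.1 hp)).coprime_iff_not_dvd.2 (hSP p (hT.1 hp)).2.2).symm
    have h1 := RGen_ap R M N (q * pr T) a hMN (Nat.mul_pos hq hp1) (Nat.Coprime.mul_right haq hcop)
    have h2 : gR R (q * pr T) = gR R q := by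
      apply RGen_gR R q (pr T) hq hp1
      intro c hc hcR
      unfold pr
      apply Nat.Coprime.prod_right
      intro p hp
      have hpP := (hSP p (hT.1 hp)).1
      refine ((hS p (hT.1 hp)).coprime_iff_not_dvd.2 fun hd => ?_).symm
      have := Nat.le_of_dvd (by omega) hd
      omega
    rw [h2] at h1
    have h3 : ((N : ℝ) - M) / q * gR R q / (pr T : ℝ) =
        ((N : ℝ) - M) / ((q * pr T : ℕ) : ℝ) * gR R q := by
      push_cast
      field_simp
    rw [h3]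
    exact h1
  have h4 : ∑ T ∈ sb S m, (-1 : ℝ) ^ T.card *
        ∑ n ∈ (Ioc M N).filter (fun n => n ≡ a [MOD q * pr T]), vR R M N n =
      ((N : ℝ) - M) / q * gR R q * ∑ T ∈ sb S m, (-1 : ℝ) ^ T.card / (pr T : ℝ) +
      ∑ T ∈ sb S m, (-1 : ℝ) ^ T.card *
        (∑ n ∈ (Ioc M N).filter (fun n => n ≡ a [MOD q * pr T]), vR R M N n -
      ((N : ℝ) - M) / q * gR R q / (pr T : ℝ)) := by
    rw [mul_sum, ← sum_add_distrib]
    apply sum_congr rfl
    intro T _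
    ring
  rw [h4]
  have hMN' : (M : ℝ) ≤ N := by exact_mod_cast hMN
  have hg := RGen_gR_nonneg R q
  refine (abs_add_le _ _).trans (add_le_add ?_ ?_)
  · rw [abs_mul, abs_of_nonneg (by
      have : 0 ≤ ((N : ℝ) - M) := by linarith only [hMN']
      positivity)]
    apply mul_le_mul _ (bonf_mu S hS m) (abs_nonneg _) (by positivity)
    apply mul_le_mul_of_nonneg_right _ hg
    apply div_le_div_of_nonneg_right _ hq0.le
    have : (0 : ℝ) ≤ M := Nat.cast_nonneg _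
    linarith only
  · calc |∑ T ∈ sb S m, (-1 : ℝ) ^ T.card *
        (∑ n ∈ (Ioc M N).filter (fun n => n ≡ a [MOD q * pr T]), vR R M N n -
      ((N : ℝ) - M) / q * gR R q / (pr T : ℝ))|
        ≤ ∑ T ∈ sb S m, |(-1 : ℝ) ^ T.card *
        (∑ n ∈ (Ioc M N).filter (fun n => n ≡ a [MOD q * pr T]), vR R M N n -
      ((N : ℝ) - M) / q * gR R q / (pr T : ℝ))| := abs_sum_le_sum_abs _ _
      _ ≤ ∑ _T ∈ sb S m, 2 * (R : ℝ) ^ 3 := by
          apply sum_le_sum
          intro T hT'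
          rw [abs_mul, abs_pow, abs_neg, abs_one, one_pow, one_mul]
          exact hT T hT'
      _ = ((sb S m).card : ℝ) * (2 * (R : ℝ) ^ 3) := by rw [sum_const, nsmul_eq_mul]
      _ ≤ ((P' : ℝ) + 1) ^ m * (2 * (R : ℝ) ^ 3) := by
          apply mul_le_mul_of_nonneg_right _ (by positivity)
          refine (sb_card S m).trans ?_
          have h5 : S.card ≤ P' := by
            have h6 : S ⊆ Ioc P P' := by
              intro p hp
              rw [mem_Ioc]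
              exact ⟨(hSP p hp).1, (hSP p hp).2.1⟩
            calc S.card ≤ (Ioc P P').card := card_le_card h6
              _ ≤ P' := by rw [Nat.card_Ioc]; omega
          have h7 : (S.card : ℝ) ≤ P' := by exact_mod_cast h5
          gcongr
      _ = 2 * (R : ℝ) ^ 3 * ((P' : ℝ) + 1) ^ m := by ring

private theorem RGen_dvd_card (K p : ℕ) :
    (((Icc 1 K).filter (fun k => p ∣ k)).card : ℝ) ≤ (K : ℝ) / p := by
  have h1 : ((Icc 1 K).filter (fun k => p ∣ k)).card = K / p := by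
    have h := Nat.Ioc_filter_dvd_card_eq_div K p
    have h0 : Icc 1 K = Ioc 0 K := by
      ext n
      simp only [mem_Icc, mem_Ioc]
      omega
    rw [h0]
    exact h
  rw [h1]
  exact Nat.cast_div_le

private theorem RGen_diff (P P' a K : ℕ) (hP : 1 ≤ P) (ha : 1 ≤ a) :
    ((rS (PPc P P' a) K \ rS (PP P P') K).card : ℝ) ≤
      (Nat.log 2 a : ℝ) * ((K : ℝ) / P) := by
  have hP0 : (0 : ℝ) < P := by exact_mod_cast hP
  have h1 : rS (PPc P P' a) K \ rS (PP P P') K ⊆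
      ((PP P P').filter (fun p => p ∣ a)).biUnion (fun p => (Icc 1 K).filter (fun k => p ∣ k)) := by
    intro k hk
    rw [mem_sdiff] at hk
    unfold rS at hk
    rw [mem_filter, mem_filter] at hk
    obtain ⟨⟨h2, h3⟩, h4⟩ := hk
    rw [mem_biUnion]
    have h5 : ∃ p ∈ PP P P', p ∣ k := by
      by_contra hc
      push Not at hc
      exact h4 ⟨h2, hc⟩
    obtain ⟨p, hp, hpk⟩ := h5
    refine ⟨p, ?_, ?_⟩
    · rw [mem_filter]
      refine ⟨hp, ?_⟩
      by_contra hpa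
      exact h3 p (by unfold PPc; rw [mem_filter]; exact ⟨hp, hpa⟩) hpk
    · rw [mem_filter]
      exact ⟨h2, hpk⟩
  calc ((rS (PPc P P' a) K \ rS (PP P P') K).card : ℝ)
      ≤ ((((PP P P').filter (fun p => p ∣ a)).biUnion
          (fun p => (Icc 1 K).filter (fun k => p ∣ k))).card : ℝ) := by
        exact_mod_cast card_le_card h1
    _ ≤ ∑ p ∈ (PP P P').filter (fun p => p ∣ a), (((Icc 1 K).filter (fun k => p ∣ k)).card : ℝ) := by
        exact_mod_cast card_biUnion_le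
    _ ≤ ∑ _p ∈ (PP P P').filter (fun p => p ∣ a), (K : ℝ) / P := by
        apply sum_le_sum
        intro p hp
        unfold PP at hp
        rw [mem_filter, mem_filter, mem_Ioc] at hp
        have hpP : (P : ℝ) ≤ p := by exact_mod_cast hp.1.1.1.le
        refine (RGen_dvd_card K p).trans ?_
        gcongr
    _ = (((PP P P').filter (fun p => p ∣ a)).card : ℝ) * ((K : ℝ) / P) := by
        rw [sum_const, nsmul_eq_mul]
    _ ≤ (Nat.log 2 a : ℝ) * ((K : ℝ) / P) := by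
        apply mul_le_mul_of_nonneg_right _ (by positivity)
        exact_mod_cast Pool.Agent.H87.WL.card_dvd P P' a ha

theorem lamR_rgh (R P P' M N a q K m : ℕ) (hRP : R ≤ P) (hP : 1 ≤ P) (hq : 1 ≤ q) (ha : 1 ≤ a)
    (haM : a ≤ M) (hMN : M ≤ N) (haq : Nat.Coprime a q) (hK : N < (K + 1) * q) :
    |∑ k ∈ rS (PP P P') K, vR R M N (a + k * q)| ≤
      (N : ℝ) / q * gR R q * eb (PPc P P' a) m + 2 * (R : ℝ) ^ 3 * ((P' : ℝ) + 1) ^ m
        + ∑ k ∈ Icc 1 K, tw (PP P P') m k * |vR R M N (a + k * q)|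
        + (Nat.log 2 a : ℝ) * ((K : ℝ) / P) * (R : ℝ) ^ 3 := by
  have hsub : PPc P P' a ⊆ PP P P' := by
    unfold PPc
    exact filter_subset _ _
  have hS : ∀ p ∈ PPc P P' a, p.Prime := by
    intro p hp
    unfold PPc PP at hp
    rw [mem_filter, mem_filter] at hp
    exact hp.1.2
  have hrs : rS (PP P P') K ⊆ rS (PPc P P' a) K := by
    intro k hk
    unfold rS at hk ⊢
    rw [mem_filter] at hk ⊢
    exact ⟨hk.1, fun p hp => hk.2 p (hsub hp)⟩
  have hvb : ∀ n, |vR R M N n| ≤ (R : ℝ) ^ 3 := by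
    intro n
    unfold vR
    split_ifs
    · exact RGen_lamR R n
    · rw [abs_zero]
      positivity
  have h1 : ∑ k ∈ rS (PP P P') K, vR R M N (a + k * q) =
      ∑ k ∈ rS (PPc P P' a) K, vR R M N (a + k * q) -
      ∑ k ∈ rS (PPc P P' a) K \ rS (PP P P') K, vR R M N (a + k * q) := by
    rw [eq_sub_iff_add_eq, add_comm]
    exact sum_sdiff hrs
  have h2 : |∑ k ∈ rS (PPc P P' a) K \ rS (PP P P') K, vR R M N (a + k * q)| ≤
      (Nat.log 2 a : ℝ) * ((K : ℝ) / P) * (R : ℝ) ^ 3 := by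
    calc _ ≤ ∑ k ∈ rS (PPc P P' a) K \ rS (PP P P') K, |vR R M N (a + k * q)| :=
          abs_sum_le_sum_abs _ _
      _ ≤ ∑ _k ∈ rS (PPc P P' a) K \ rS (PP P P') K, (R : ℝ) ^ 3 :=
          sum_le_sum fun k _ => hvb _
      _ = ((rS (PPc P P' a) K \ rS (PP P P') K).card : ℝ) * (R : ℝ) ^ 3 := by
          rw [sum_const, nsmul_eq_mul]
      _ ≤ _ := mul_le_mul_of_nonneg_right (RGen_diff P P' a K hP ha) (by positivity)
  have h3 := r_gen (vR R M N) (PPc P P' a) hS m M N a q K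
    (fun n hn => by unfold vR; rw [if_neg hn]) haM hq hK
  have h4 := RGen_main R P P' M N a q m hRP hq hMN haq
  have h5 : ∑ k ∈ Icc 1 K, tw (PPc P P' a) m k * |vR R M N (a + k * q)| ≤
      ∑ k ∈ Icc 1 K, tw (PP P P') m k * |vR R M N (a + k * q)| :=
    sum_le_sum fun k _ => mul_le_mul_of_nonneg_right (RGen_tw_mono hsub m k) (abs_nonneg _)
  rw [h1]
  rw [abs_le] at h2 h3 h4 ⊢
  constructor <;> linarith only [h2, h3, h4, h5, h2.1, h2.2, h3.1, h3.2, h4.1, h4.2]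

end Pool.Agent.H35.U

end

section

/-!
# U PtB: the pointwise decomposition

`S = PP P P'`, `P' = P 2^J`; `f = fb + g = hR` on `(M, x]`, `0` elsewhere; `hR = Lam - lamR`.
1. `psiA x q a = ∑_{n ≤ M} Lam + ∑_{(M,x]} lamR + ∑_{(M,x]} fb + ∑_{(M,x]} g` (all over `n ≡ a mod q`).
2. `∑_{n ≤ M, n ≡ a} Lam n ≤ (M/q + 1) log x` (`Lam n ≤ log x`, count of a residue class).
3. `lamR_ap` for `x` and `M`: `∑_{(M,x]} lamR = ((x-M)/q) gR R q + O(2R³)`.
4. `|∑_{(M,x]} fb| ≤ x/q δb`: `hfb` for `T = ∅`.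
5. `∑_{(M,x], n ≡ a} g = ∑_{k ≤ K} g(a+kq)` (`TB_ksum`) `= ∑_{fcs} + ∑_{rgh}` (`fcs`, `rgh` partition
   `Icc 1 K`).
6. On `rgh P J K = rS S K` (`rgh_eq`): `g = 1_{(M,x]} Lam - vR R M x - fb`.
   * `∑_{rgh} 1_{(M,x]}(a+kq) Lam (a+kq) ≤ ∑_{k ∈ rS (PPc P P' (a q)) ((x-a)/q)} Lam (a+qk)` (`PPc ⊆ PP`, and
     `a + kq ≤ x` gives `k ≤ (x-a)/q`; `Lam ≥ 0`);
   * `lamR_rgh` with `N = x`;
   * `r_gen` with `v = fb` (`fb n = 0` outside `(M,x]` by `hf`, `hg`), `hfb` and `sb_inv`.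
-/

set_option autoImplicit false

namespace Pool.Agent.H35.U

open Finset
open Pool.Agent.H91.EHA (Lam lamR hR psiA)
open Pool.Agent.H87.WL (PP PPc Mu Om gR)
open Pool.Agent.H35.W (Rk rgh fcs)

private theorem PtB_count (y m b : ℕ) (hm : 0 < m) :
    (((Icc 1 y).filter (fun n => n ≡ b [MOD m])).card : ℝ) ≤ (y : ℝ) / m + 1 := by
  have h0 : Icc 1 y = Ioc 0 y := by
    ext n
    simp only [mem_Icc, mem_Ioc]
    omega
  have h1 := Nat.Ioc_filter_modEq_card 0 y hm b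
  rw [h0]
  have hmq : (0 : ℚ) < (m : ℚ) := by exact_mod_cast hm
  set A : ℚ := ((y : ℚ) - b) / m with hA
  set B : ℚ := (((0 : ℕ) : ℚ) - b) / m with hB
  have hAB : A = B + (y : ℚ) / m := by
    rw [hA, hB]
    push_cast
    ring
  have hy : (0 : ℚ) ≤ (y : ℚ) / m := by positivity
  have hle : ⌊B⌋ ≤ ⌊A⌋ := Int.floor_le_floor (by rw [hAB]; linarith only [hy])
  rw [max_eq_left (by linarith only [hle])] at h1
  have h2 : ((((Ioc 0 y).filter (fun n => n ≡ b [MOD m])).card : ℤ) : ℚ) = (⌊A⌋ : ℚ) - (⌊B⌋ : ℚ) := by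
    rw [h1]
    push_cast
    ring
  have a1 := Int.floor_le A
  have b2 := Int.lt_floor_add_one B
  have h3 : ((((Ioc 0 y).filter (fun n => n ≡ b [MOD m])).card : ℤ) : ℚ) ≤ (y : ℚ) / m + 1 := by
    rw [h2]
    linarith only [hAB, a1, b2]
  have h4 : (((((Ioc 0 y).filter (fun n => n ≡ b [MOD m])).card : ℤ) : ℚ) : ℝ)
      ≤ (((y : ℚ) / m + 1 : ℚ) : ℝ) := by
    exact_mod_cast h3
  push_cast at h4
  simpa using h4

private theorem PtB_Lam_nonneg (n : ℕ) : 0 ≤ Lam n := ArithmeticFunction.vonMangoldt_nonneg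

private theorem PtB_Lam_le {x n : ℕ} (hn : n ≤ x) (hx : 1 ≤ x) : Lam n ≤ Real.log x := by
  rcases Nat.eq_zero_or_pos n with h | h
  · subst h
    have : Lam 0 = 0 := by unfold Lam; simp
    rw [this]
    exact Real.log_natCast_nonneg x
  · refine (ArithmeticFunction.vonMangoldt_le_log).trans ?_
    exact Real.log_le_log (by exact_mod_cast h) (by exact_mod_cast hn)

/-- splitting a sum over a residue class at `M` -/
private theorem PtB_split (M x : ℕ) (hMx : M ≤ x) (p : ℕ → Prop) [DecidablePred p] (F : ℕ → ℝ) :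
    ∑ n ∈ (Icc 1 x).filter p, F n =
      ∑ n ∈ (Icc 1 M).filter p, F n + ∑ n ∈ (Ioc M x).filter p, F n := by
  rw [← sum_union]
  · congr 1
    ext n
    simp only [mem_filter, mem_Icc, mem_union, mem_Ioc]
    constructor
    · rintro ⟨⟨h1, h2⟩, h3⟩
      rcases Nat.lt_or_ge M n with h | h
      · exact Or.inr ⟨⟨h, h2⟩, h3⟩
      · exact Or.inl ⟨⟨h1, h⟩, h3⟩
    · rintro (⟨⟨h1, h2⟩, h3⟩ | ⟨⟨h1, h2⟩, h3⟩)
      · exact ⟨⟨h1, h2.trans hMx⟩, h3⟩
      · exact ⟨⟨by omega, h2⟩, h3⟩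
  · rw [disjoint_left]
    intro n h1 h2
    simp only [mem_filter, mem_Icc, mem_Ioc] at h1 h2
    omega

private theorem PtB_pr_empty : pr ∅ = 1 := by simp [pr]

private theorem PtB_empty_mem (S : Finset ℕ) (m : ℕ) : (∅ : Finset ℕ) ∈ sb S m := by
  rw [mem_sb]
  simp

private theorem PtB_gR_nonneg (R q : ℕ) : 0 ≤ gR R q := by
  unfold gR
  exact sum_nonneg fun c _ => by positivity

/-- the von Mangoldt function on rough numbers -/
private theorem PtB_lam (x M a q K : ℕ) (S S' : Finset ℕ) (hSS : S' ⊆ S) (hq : 1 ≤ q) :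
    ∑ k ∈ rS S K, (if a + k * q ∈ Ioc M x then Lam (a + k * q) else 0) ≤
      ∑ k ∈ rS S' ((x - a) / q), Lam (a + q * k) := by
  rw [← sum_filter]
  have h1 : ∀ k, Lam (a + k * q) = Lam (a + q * k) := fun k => by rw [mul_comm k q]
  rw [sum_congr rfl fun k _ => h1 k]
  refine sum_le_sum_of_subset_of_nonneg ?_ fun k _ _ => PtB_Lam_nonneg _
  intro k hk
  rw [mem_filter, mem_Ioc] at hk
  obtain ⟨hk1, hk2, hk3⟩ := hk
  unfold rS at hk1 ⊢
  rw [mem_filter, mem_Icc] at hk1 ⊢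
  refine ⟨⟨hk1.1.1, ?_⟩, fun p hp => hk1.2 p (hSS hp)⟩
  rw [Nat.le_div_iff_mul_le (by omega)]
  omega

theorem pt_blk (x M a q K P J m R : ℕ) (fb g : ℕ → ℝ) (δb : ℝ) (hx : 2 ≤ x) (hq : 1 ≤ q)
    (ha : 1 ≤ a) (haq : Nat.Coprime a q) (haM : a ≤ M) (hMx : M ≤ x) (hK : x < (K + 1) * q)
    (hRP : R ≤ P) (hP : 1 ≤ P) (hδ : 0 ≤ δb)
    (hf : ∀ n, fb n + g n = if n ∈ Ioc M x then hR R n else 0)
    (hg : ∀ n, n ∉ Ioc M x → g n = 0)
    (hfb : ∀ T ∈ sb (PP P (P * 2 ^ J)) m,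
      |∑ n ∈ (Ioc M x).filter (fun n => n ≡ a [MOD q * pr T]), fb n|
        ≤ (x : ℝ) / ((q : ℝ) * pr T) * δb) :
    |psiA x q a - (x : ℝ) / q * gR R q| ≤
      |∑ k ∈ fcs P J K, g (a + k * q)|
      + ∑ k ∈ Icc 1 K, tw (PP P (P * 2 ^ J)) m k * |fb (a + k * q)|
      + ∑ k ∈ Icc 1 K, tw (PP P (P * 2 ^ J)) m k * |vR R M x (a + k * q)|
      + ∑ k ∈ rS (PPc P (P * 2 ^ J) (a * q)) ((x - a) / q), Lam (a + q * k)
      + ((x : ℝ) / q * gR R q * eb (PPc P (P * 2 ^ J) a) m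
        + (x : ℝ) / q * δb * (1 + Real.exp (Mu (PP P (P * 2 ^ J))))
        + ((M : ℝ) / q * (Real.log x + gR R q) + Real.log x
          + 2 * (R : ℝ) ^ 3 * (1 + (((P * 2 ^ J : ℕ) : ℝ) + 1) ^ m)
          + (Nat.log 2 a : ℝ) * ((K : ℝ) / P) * (R : ℝ) ^ 3)) := by
  set S := PP P (P * 2 ^ J) with hSdef
  have hSp : ∀ p ∈ S, p.Prime := by
    intro p hp
    rw [hSdef] at hp
    unfold PP at hp
    exact (mem_filter.1 hp).2
  have hx1 : 1 ≤ x := by omega
  have hq0 : 0 < q := by omega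
  have hxr : (0 : ℝ) ≤ x := Nat.cast_nonneg x
  have hqr : (0 : ℝ) < q := by exact_mod_cast hq0
  have hL0 : 0 ≤ Real.log x := Real.log_natCast_nonneg x
  have hgR0 : 0 ≤ gR R q := PtB_gR_nonneg R q
  have hfb0 : ∀ n, n ∉ Ioc M x → fb n = 0 := by
    intro n hn
    have h1 := hf n
    rw [if_neg hn, hg n hn, add_zero] at h1
    exact h1
  -- the four parts
  have e1 : psiA x q a = ∑ n ∈ (Icc 1 M).filter (fun n => n ≡ a [MOD q]), Lam n
      + (∑ n ∈ (Icc 1 x).filter (fun n => n ≡ a [MOD q]), lamR R n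
        - ∑ n ∈ (Icc 1 M).filter (fun n => n ≡ a [MOD q]), lamR R n)
      + ∑ n ∈ (Ioc M x).filter (fun n => n ≡ a [MOD q]), fb n
      + ∑ n ∈ (Ioc M x).filter (fun n => n ≡ a [MOD q]), g n := by
    unfold psiA
    rw [PtB_split M x hMx (fun n => n ≡ a [MOD q]) Lam,
      PtB_split M x hMx (fun n => n ≡ a [MOD q]) (lamR R)]
    have h1 : ∑ n ∈ (Ioc M x).filter (fun n => n ≡ a [MOD q]), Lam n =
        ∑ n ∈ (Ioc M x).filter (fun n => n ≡ a [MOD q]), lamR R n +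
        ∑ n ∈ (Ioc M x).filter (fun n => n ≡ a [MOD q]), fb n +
        ∑ n ∈ (Ioc M x).filter (fun n => n ≡ a [MOD q]), g n := by
      rw [← sum_add_distrib, ← sum_add_distrib]
      refine sum_congr rfl fun n hn => ?_
      have hn1 := (mem_filter.1 hn).1
      have h2 := hf n
      rw [if_pos hn1] at h2
      unfold hR at h2
      linarith only [h2]
    rw [h1]
    ring
  -- part 1
  have b1 : ∑ n ∈ (Icc 1 M).filter (fun n => n ≡ a [MOD q]), Lam n ≤
      (M : ℝ) / q * Real.log x + Real.log x := by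
    calc ∑ n ∈ (Icc 1 M).filter (fun n => n ≡ a [MOD q]), Lam n
        ≤ ∑ _n ∈ (Icc 1 M).filter (fun n => n ≡ a [MOD q]), Real.log x := by
          refine sum_le_sum fun n hn => ?_
          have hn1 := mem_Icc.1 (mem_filter.1 hn).1
          exact PtB_Lam_le (by omega) hx1
      _ = (((Icc 1 M).filter (fun n => n ≡ a [MOD q])).card : ℝ) * Real.log x := by
          rw [sum_const, nsmul_eq_mul]
      _ ≤ ((M : ℝ) / q + 1) * Real.log x :=
          mul_le_mul_of_nonneg_right (PtB_count M q a hq0) hL0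
      _ = _ := by ring
  have b1' : 0 ≤ ∑ n ∈ (Icc 1 M).filter (fun n => n ≡ a [MOD q]), Lam n :=
    sum_nonneg fun n _ => PtB_Lam_nonneg n
  -- part 2
  have b2 : |(∑ n ∈ (Icc 1 x).filter (fun n => n ≡ a [MOD q]), lamR R n) - (x : ℝ) / q * gR R q| ≤
      (R : ℝ) ^ 3 := Pool.Agent.H91.EHA.lamR_ap R x q a hq haq
  have b2' : |(∑ n ∈ (Icc 1 M).filter (fun n => n ≡ a [MOD q]), lamR R n) - (M : ℝ) / q * gR R q| ≤
      (R : ℝ) ^ 3 := Pool.Agent.H91.EHA.lamR_ap R M q a hq haq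
  -- part 3
  have b3 : |∑ n ∈ (Ioc M x).filter (fun n => n ≡ a [MOD q]), fb n| ≤ (x : ℝ) / q * δb := by
    have h := hfb ∅ (PtB_empty_mem _ _)
    rw [PtB_pr_empty, mul_one, Nat.cast_one, mul_one] at h
    exact h
  -- part 4
  have e4 : ∑ n ∈ (Ioc M x).filter (fun n => n ≡ a [MOD q]), g n =
      ∑ k ∈ fcs P J K, g (a + k * q) + ∑ k ∈ rS S K, g (a + k * q) := by
    rw [Pool.Agent.H35.W.TB_ksum g M x a q K hg haM hq0 hK, ← rgh_eq]
    unfold rgh fcs
    rw [add_comm, sum_filter_add_sum_filter_not]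
  have e5 : ∑ k ∈ rS S K, g (a + k * q) =
      ∑ k ∈ rS S K, (if a + k * q ∈ Ioc M x then Lam (a + k * q) else 0)
      - ∑ k ∈ rS S K, vR R M x (a + k * q) - ∑ k ∈ rS S K, fb (a + k * q) := by
    rw [← sum_sub_distrib, ← sum_sub_distrib]
    refine sum_congr rfl fun k _ => ?_
    have h2 := hf (a + k * q)
    unfold vR
    by_cases hk : a + k * q ∈ Ioc M x
    · rw [if_pos hk] at h2 ⊢
      rw [if_pos hk]
      unfold hR at h2
      linarith only [h2]
    · rw [if_neg hk] at h2 ⊢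
      rw [if_neg hk]
      linarith only [h2]
  have hSS : PPc P (P * 2 ^ J) (a * q) ⊆ S := by
    unfold PPc
    exact filter_subset _ _
  have b5 := PtB_lam x M a q K S (PPc P (P * 2 ^ J) (a * q)) hSS hq
  have b5' : 0 ≤ ∑ k ∈ rS S K, (if a + k * q ∈ Ioc M x then Lam (a + k * q) else 0) := by
    refine sum_nonneg fun k _ => ?_
    split_ifs
    · exact PtB_Lam_nonneg _
    · exact le_rfl
  have b6 := lamR_rgh R P (P * 2 ^ J) M x a q K m hRP hP hq ha haM hMx haq hK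
  rw [← hSdef] at b6
  have b7 := r_gen fb S hSp m M x a q K hfb0 haM hq0 hK
  have b8 : |∑ T ∈ sb S m, (-1 : ℝ) ^ T.card *
        ∑ n ∈ (Ioc M x).filter (fun n => n ≡ a [MOD q * pr T]), fb n| ≤
      (x : ℝ) / q * δb * Real.exp (Mu S) := by
    calc |∑ T ∈ sb S m, (-1 : ℝ) ^ T.card *
        ∑ n ∈ (Ioc M x).filter (fun n => n ≡ a [MOD q * pr T]), fb n|
        ≤ ∑ T ∈ sb S m, |(-1 : ℝ) ^ T.card *
        ∑ n ∈ (Ioc M x).filter (fun n => n ≡ a [MOD q * pr T]), fb n| := abs_sum_le_sum_abs _ _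
      _ ≤ ∑ T ∈ sb S m, (x : ℝ) / q * δb * (1 / (pr T : ℝ)) := by
          refine sum_le_sum fun T hT => ?_
          rw [abs_mul, abs_pow, abs_neg, abs_one, one_pow, one_mul]
          refine (hfb T hT).trans (le_of_eq ?_)
          have hpT : (1 : ℝ) ≤ pr T := by
            exact_mod_cast pr_pos S hSp T (mem_sb.1 hT).1
          have hpT0 : (pr T : ℝ) ≠ 0 := by positivity
          field_simp
      _ = (x : ℝ) / q * δb * ∑ T ∈ sb S m, 1 / (pr T : ℝ) := by rw [mul_sum]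
      _ ≤ _ := by
          refine mul_le_mul_of_nonneg_left (sb_inv S hSp m) ?_
          positivity
  have hMq : 0 ≤ (M : ℝ) / q * gR R q := by positivity
  rw [e1, e4, e5]
  have b9 := abs_le.1 b2
  have b10 := abs_le.1 b2'
  have b11 := abs_le.1 b3
  have b12 := abs_le.1 b6
  have b13 := abs_le.1 b7
  have b14 := abs_le.1 b8
  have b15 := le_abs_self (∑ k ∈ fcs P J K, g (a + k * q))
  have b16 := neg_abs_le (∑ k ∈ fcs P J K, g (a + k * q))
  have b17 : (M : ℝ) / q * (Real.log x + gR R q) = (M : ℝ) / q * Real.log x + (M : ℝ) / q * gR R q := by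
    ring
  have b18 : (x : ℝ) / q * δb * (1 + Real.exp (Mu S)) =
      (x : ℝ) / q * δb + (x : ℝ) / q * δb * Real.exp (Mu S) := by ring
  have b19 : 2 * (R : ℝ) ^ 3 * (1 + (((P * 2 ^ J : ℕ) : ℝ) + 1) ^ m) =
      2 * (R : ℝ) ^ 3 + 2 * (R : ℝ) ^ 3 * (((P * 2 ^ J : ℕ) : ℝ) + 1) ^ m := by ring
  have b20 : 0 ≤ (M : ℝ) / q * Real.log x := by positivity
  rw [b17, b18, b19]
  rw [abs_le]
  constructor
  · linarith only [b1, b5, b9, b10, b11, b12, b13, b14, b9.1, b10.2, b11.1, b12.2, b13.2, b14.2, b16, b1', b5']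
  · linarith only [hMq, b9, b10, b11, b12, b13, b14, b9.2, b10.1, b11.2, b12.1, b13.1, b14.1, b15, b1, b5]

end Pool.Agent.H35.U

end

section

/-!
# WL PiPsi: primes and prime powers

* `pin_le`: the primes `n ≤ x^{1-δ}` in the class are at most `x^{1-δ}/q + 1`; for the others
  `Λ(n) = log n ≥ (1-δ) log x`.
* `psi_le`: `Λ(p) = log p ≤ log x`.
* `pps_avg`: `pps` runs over the proper prime powers `n = p^j ≤ x`, `j ≥ 2`: `Λ(n) ≤ log x`, and there are at
  most `2 √x log x` of them (for each `j ≤ 2 log x` at most `√x`). For `n ≠ a` the number of `q` with `q | n - a` is at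
  most `τ(|n-a|) ≤ C x^{1/10}` (divisor bound: see how `hdiv` is obtained in the proof of
  `Pool.Agent.H91.EHA.err_of_psi`, file FinA.lean); for `n = a` all `q` count: at most `Q` of them for every `a`.
  Total `H · 2 √x log x · C x^{1/10} · log x + H Q log x ≤ H x^{4/5} + H Q log x`.
-/

set_option autoImplicit false

namespace Pool.Agent.H87.WL

open Finset
open Pool.Agent.H91.EHA (Lam lamR hR ramS psiA err)

/-- the primes `p ≤ x` in the class of `a` modulo `q`, as counted in `err` -/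
noncomputable def pin (x q a : ℕ) : ℕ :=
  ((Icc 1 x).filter (fun p : ℕ => Nat.Prime p ∧ ((p : ZMod q) = (a : ZMod q)))).card

/-- the contribution of the numbers which are not primes to `psiA x q a` -/
noncomputable def pps (x q a : ℕ) : ℝ :=
  ∑ n ∈ (Icc 1 x).filter (fun n => n ≡ a [MOD q] ∧ ¬ n.Prime), Lam n

private theorem pipsi_Lam_nonneg (n : ℕ) : 0 ≤ Lam n := ArithmeticFunction.vonMangoldt_nonneg

private theorem pipsi_Lam_le (n : ℕ) : Lam n ≤ Real.log n := ArithmeticFunction.vonMangoldt_le_log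

private theorem pipsi_pin (x q a : ℕ) : pin x q a =
    ((Icc 1 x).filter (fun n : ℕ => n ≡ a [MOD q] ∧ n.Prime)).card := by
  unfold pin
  congr 1
  refine filter_congr fun n _ => ?_
  rw [ZMod.natCast_eq_natCast_iff n a q]
  tauto

theorem pin_eq (x q a : ℕ) :
    (pin x q a : ℝ) = err x q (a : ZMod q) + (Nat.primeCounting x : ℝ) / (q.totient : ℝ) := by
  unfold pin err
  ring

private theorem pipsi_count (q a : ℕ) (hq : 1 ≤ q) (y : ℝ) (hy : 0 ≤ y) :
    (((Ioc 0 ⌊y⌋₊).filter (fun n : ℕ => n ≡ a [MOD q])).card : ℝ) ≤ y / q + 1 := by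
  have h1 := Nat.Ioc_filter_modEq_card 0 ⌊y⌋₊ (show 0 < q by omega) a
  have hq' : (0 : ℝ) < q := by exact_mod_cast (show 0 < q by omega)
  have hy1 : ((⌊y⌋₊ : ℕ) : ℝ) ≤ y := Nat.floor_le hy
  have h2 : ((((Ioc 0 ⌊y⌋₊).filter (fun n : ℕ => n ≡ a [MOD q])).card : ℤ) : ℝ) ≤ y / q + 1 := by
    rw [h1]
    push_cast
    rw [max_le_iff]
    constructor
    · have h3 : ((⌊(((⌊y⌋₊ : ℕ) : ℚ) - (a : ℚ)) / (q : ℚ)⌋ : ℤ) : ℝ) ≤
          (((⌊y⌋₊ : ℕ) : ℝ) - (a : ℝ)) / (q : ℝ) := by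
        have := Int.floor_le ((((⌊y⌋₊ : ℕ) : ℚ) - (a : ℚ)) / (q : ℚ))
        have h4 : (((⌊(((⌊y⌋₊ : ℕ) : ℚ) - (a : ℚ)) / (q : ℚ)⌋ : ℤ) : ℚ) : ℝ) ≤
            (((((⌊y⌋₊ : ℕ) : ℚ) - (a : ℚ)) / (q : ℚ) : ℚ) : ℝ) := by exact_mod_cast this
        push_cast at h4
        exact h4
      have h3' : ((0 : ℝ) - (a : ℝ)) / (q : ℝ) - 1 ≤
          ((⌊((0 : ℚ) - (a : ℚ)) / (q : ℚ)⌋ : ℤ) : ℝ) := by
        have := (Int.sub_one_lt_floor (((0 : ℚ) - (a : ℚ)) / (q : ℚ))).le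
        have h4 : ((((((0 : ℚ) - (a : ℚ)) / (q : ℚ)) - 1 : ℚ)) : ℝ) ≤
            (((⌊((0 : ℚ) - (a : ℚ)) / (q : ℚ)⌋ : ℤ) : ℚ) : ℝ) := by exact_mod_cast this
        push_cast at h4
        exact h4
      have h5 : (((⌊y⌋₊ : ℕ) : ℝ) - (a : ℝ)) / (q : ℝ) - (((0 : ℝ) - (a : ℝ)) / (q : ℝ) - 1) =
          ((⌊y⌋₊ : ℕ) : ℝ) / q + 1 := by
        field_simp
        ring
      have h6 : ((⌊y⌋₊ : ℕ) : ℝ) / q ≤ y / q := div_le_div_of_nonneg_right hy1 hq'.le
      linarith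
    · positivity
  exact_mod_cast h2

theorem pin_le (x q a : ℕ) (δ : ℝ) (hx : 2 ≤ x) (hq : 1 ≤ q) (h0 : 0 < δ) (h1 : δ < 1) :
    (pin x q a : ℝ) * ((1 - δ) * Real.log x) ≤
      psiA x q a + ((x : ℝ) ^ (1 - δ) / q + 1) * Real.log x := by
  have hx1 : (1 : ℝ) ≤ x := by exact_mod_cast (by omega : 1 ≤ x)
  have hxp : (0 : ℝ) < x := by linarith
  have hlog : 0 ≤ Real.log x := Real.log_nonneg hx1
  have hy : (0 : ℝ) ≤ (x : ℝ) ^ (1 - δ) := by positivity
  rw [pipsi_pin]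
  have hterm : ∀ n ∈ (Icc 1 x).filter (fun n : ℕ => n ≡ a [MOD q] ∧ n.Prime),
      (1 - δ) * Real.log x ≤ Lam n +
        (if (n : ℝ) ≤ (x : ℝ) ^ (1 - δ) then Real.log x else 0) := by
    intro n hn
    rw [mem_filter] at hn
    have hp : n.Prime := hn.2.2
    split_ifs with h2
    · have := pipsi_Lam_nonneg n
      nlinarith
    · rw [not_le] at h2
      have h3 : Lam n = Real.log n := ArithmeticFunction.vonMangoldt_apply_prime hp
      have h4 := Real.log_le_log (by positivity) h2.le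
      rw [Real.log_rpow hxp] at h4
      rw [h3]
      linarith
  calc ((((Icc 1 x).filter (fun n : ℕ => n ≡ a [MOD q] ∧ n.Prime)).card : ℕ) : ℝ) *
        ((1 - δ) * Real.log x)
      = ∑ n ∈ (Icc 1 x).filter (fun n : ℕ => n ≡ a [MOD q] ∧ n.Prime), (1 - δ) * Real.log x := by
        rw [sum_const, nsmul_eq_mul]
    _ ≤ ∑ n ∈ (Icc 1 x).filter (fun n : ℕ => n ≡ a [MOD q] ∧ n.Prime), (Lam n +
        (if (n : ℝ) ≤ (x : ℝ) ^ (1 - δ) then Real.log x else 0)) := sum_le_sum hterm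
    _ = (∑ n ∈ (Icc 1 x).filter (fun n : ℕ => n ≡ a [MOD q] ∧ n.Prime), Lam n) +
        ∑ n ∈ (Icc 1 x).filter (fun n : ℕ => n ≡ a [MOD q] ∧ n.Prime),
          (if (n : ℝ) ≤ (x : ℝ) ^ (1 - δ) then Real.log x else 0) := sum_add_distrib
    _ ≤ psiA x q a + ((x : ℝ) ^ (1 - δ) / q + 1) * Real.log x := by
        refine add_le_add ?_ ?_
        · unfold psiA
          refine sum_le_sum_of_subset_of_nonneg ?_ fun n _ _ => pipsi_Lam_nonneg n
          intro n hn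
          rw [mem_filter] at hn ⊢
          exact ⟨hn.1, hn.2.1⟩
        · rw [← sum_filter, sum_const, nsmul_eq_mul]
          refine mul_le_mul_of_nonneg_right ?_ hlog
          refine le_trans ?_ (pipsi_count q a hq _ hy)
          have hsub : (((Icc 1 x).filter (fun n : ℕ => n ≡ a [MOD q] ∧ n.Prime)).filter
              (fun n : ℕ => (n : ℝ) ≤ (x : ℝ) ^ (1 - δ))) ⊆
              (Ioc 0 ⌊(x : ℝ) ^ (1 - δ)⌋₊).filter (fun n : ℕ => n ≡ a [MOD q]) := by
            intro n hn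
            rw [mem_filter, mem_filter, mem_Icc] at hn
            rw [mem_filter, mem_Ioc]
            exact ⟨⟨by omega, Nat.le_floor hn.2⟩, hn.1.2.1⟩
          exact_mod_cast card_le_card hsub

theorem psi_le (x q a : ℕ) (hq : 1 ≤ q) :
    psiA x q a ≤ (pin x q a : ℝ) * Real.log x + pps x q a := by
  rw [pipsi_pin]
  have h1 : psiA x q a = ∑ n ∈ (Icc 1 x).filter (fun n : ℕ => n ≡ a [MOD q] ∧ n.Prime), Lam n +
      pps x q a := by
    unfold psiA pps
    rw [← filter_filter, ← filter_filter]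
    exact (sum_filter_add_sum_filter_not _ _ _).symm
  rw [h1]
  refine add_le_add ?_ le_rfl
  rw [← nsmul_eq_mul]
  refine sum_le_card_nsmul _ _ _ fun n hn => ?_
  rw [mem_filter, mem_Icc] at hn
  refine (pipsi_Lam_le n).trans ?_
  refine Real.log_le_log ?_ ?_
  · exact_mod_cast (show 0 < n by omega)
  · exact_mod_cast hn.1.2

theorem pps_nonneg (x q a : ℕ) : 0 ≤ pps x q a :=
  sum_nonneg fun n _ => pipsi_Lam_nonneg n

/-- `Lam` on the numbers which are not prime -/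
private noncomputable def pipsi_L (n : ℕ) : ℝ := if n.Prime then 0 else Lam n

private theorem pipsi_L_nonneg (n : ℕ) : 0 ≤ pipsi_L n := by
  unfold pipsi_L
  split_ifs
  · exact le_rfl
  · exact pipsi_Lam_nonneg n

private theorem pipsi_L_le (n : ℕ) (hn : 1 ≤ n) : pipsi_L n ≤ Real.log n := by
  unfold pipsi_L
  split_ifs
  · exact Real.log_nonneg (by exact_mod_cast hn)
  · exact pipsi_Lam_le n

private theorem pipsi_pps (x q a : ℕ) :
    pps x q a = ∑ n ∈ Icc 1 x, pipsi_L n * (if n ≡ a [MOD q] then (1 : ℝ) else 0) := by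
  unfold pps pipsi_L
  rw [sum_filter]
  refine sum_congr rfl fun n _ => ?_
  by_cases h1 : n ≡ a [MOD q] <;> by_cases h2 : n.Prime <;> simp [h1, h2]

private theorem pipsi_pp_le (x : ℕ) (hx : 1 ≤ x) :
    ∑ n ∈ Icc 1 x, pipsi_L n ≤ 2 * Real.sqrt x * Real.log x := by
  have h2 := Chebyshev.psi_sub_theta_le (x := (x : ℝ)) (by exact_mod_cast hx)
  rw [Chebyshev.psi_sub_theta_eq_sum_not_prime, Nat.floor_natCast] at h2
  refine le_trans (le_of_eq ?_) h2
  unfold pipsi_L Lam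
  rw [sum_filter]
  simp only [ite_not]
  rfl

private theorem pipsi_cnt (C : ℝ) (hC : 1 ≤ C)
    (hdiv : ∀ n : ℕ, 1 ≤ n → (n.divisors.card : ℝ) ≤ C * (n : ℝ) ^ (1 / 4 : ℝ))
    (x a0 Q H n : ℕ) (ha0 : a0 + H ≤ x) (hn : n ≤ x) :
    (∑ a ∈ Ioc a0 (a0 + H), ∑ q ∈ Ioc Q (2 * Q), if n ≡ a [MOD q] then (1 : ℝ) else 0) ≤
        H * (C * (2 * x : ℝ) ^ (1 / 4 : ℝ)) + (if n ∈ Ioc a0 (a0 + H) then (Q : ℝ) else 0) := by
  have h2 : ∀ a ∈ Ioc a0 (a0 + H), (∑ q ∈ Ioc Q (2 * Q), if n ≡ a [MOD q] then (1 : ℝ) else 0) ≤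
      C * (2 * x : ℝ) ^ (1 / 4 : ℝ) + if a = n then (Q : ℝ) else 0 := by
    intro a ha
    rw [mem_Ioc] at ha
    have hnn : 0 ≤ C * (2 * x : ℝ) ^ (1 / 4 : ℝ) := by positivity
    by_cases han : a = n
    · rw [if_pos han]
      have h3 : (∑ q ∈ Ioc Q (2 * Q), if n ≡ a [MOD q] then (1 : ℝ) else 0) ≤
          ∑ q ∈ Ioc Q (2 * Q), (1 : ℝ) := sum_le_sum fun q _ => by split_ifs <;> norm_num
      have h4 : ∑ q ∈ Ioc Q (2 * Q), (1 : ℝ) = Q := by
        rw [sum_const, Nat.card_Ioc, nsmul_eq_mul, mul_one]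
        congr 1
        omega
      linarith
    · rw [if_neg han, add_zero]
      have hz : ((a : ℤ) - n).natAbs ≠ 0 := by omega
      have h3 : (∑ q ∈ Ioc Q (2 * Q), if n ≡ a [MOD q] then (1 : ℝ) else 0) =
          (((Ioc Q (2 * Q)).filter fun q => n ≡ a [MOD q]).card : ℝ) := by
        rw [card_filter, Nat.cast_sum]
        refine sum_congr rfl fun q _ => ?_
        split_ifs <;> simp
      have h4 : ((Ioc Q (2 * Q)).filter fun q => n ≡ a [MOD q]).card ≤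
          ((a : ℤ) - n).natAbs.divisors.card := by
        refine card_le_card fun q hq => ?_
        rw [mem_filter] at hq
        rw [Nat.mem_divisors]
        refine ⟨?_, hz⟩
        have h5 := (Nat.modEq_iff_dvd).1 hq.2
        exact Int.natCast_dvd.1 h5
      have h5 := hdiv _ (Nat.one_le_iff_ne_zero.2 hz)
      have h6 : ((((a : ℤ) - n).natAbs : ℕ) : ℝ) ≤ 2 * x := by
        have : ((a : ℤ) - n).natAbs ≤ 2 * x := by omega
        exact_mod_cast this
      have h7 : ((((a : ℤ) - n).natAbs : ℕ) : ℝ) ^ (1 / 4 : ℝ) ≤ (2 * x : ℝ) ^ (1 / 4 : ℝ) :=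
        Real.rpow_le_rpow (Nat.cast_nonneg _) h6 (by norm_num)
      rw [h3]
      calc (((Ioc Q (2 * Q)).filter fun q => n ≡ a [MOD q]).card : ℝ)
          ≤ (((a : ℤ) - n).natAbs.divisors.card : ℝ) := by exact_mod_cast h4
        _ ≤ _ := h5
        _ ≤ _ := mul_le_mul_of_nonneg_left h7 (by linarith)
  refine (sum_le_sum h2).trans ?_
  rw [sum_add_distrib, sum_const, Nat.card_Ioc, sum_ite_eq', nsmul_eq_mul]
  have h8 : a0 + H - a0 = H := by omega
  rw [h8]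

private theorem pipsi_sum (C : ℝ) (hC : 1 ≤ C)
    (hdiv : ∀ n : ℕ, 1 ≤ n → (n.divisors.card : ℝ) ≤ C * (n : ℝ) ^ (1 / 4 : ℝ))
    (x a0 Q H : ℕ) (hx : 1 ≤ x) (ha0 : a0 + H ≤ x) :
    (∑ a ∈ Ioc a0 (a0 + H), ∑ q ∈ Ioc Q (2 * Q), pps x q a) ≤
        2 * Real.sqrt x * Real.log x * (H * (C * (2 * x : ℝ) ^ (1 / 4 : ℝ))) +
          H * Q * Real.log x := by
  have hK : 0 ≤ H * (C * (2 * x : ℝ) ^ (1 / 4 : ℝ)) := by positivity
  have hx' : (1 : ℝ) ≤ x := by exact_mod_cast hx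
  have hlog : 0 ≤ Real.log x := Real.log_nonneg hx'
  have h1 : (∑ a ∈ Ioc a0 (a0 + H), ∑ q ∈ Ioc Q (2 * Q), pps x q a) =
      ∑ n ∈ Icc 1 x, pipsi_L n *
        ∑ a ∈ Ioc a0 (a0 + H), ∑ q ∈ Ioc Q (2 * Q), (if n ≡ a [MOD q] then (1 : ℝ) else 0) := by
    simp only [pipsi_pps, mul_sum]
    have e1 : ∀ a ∈ Ioc a0 (a0 + H), (∑ q ∈ Ioc Q (2 * Q),
        ∑ n ∈ Icc 1 x, pipsi_L n * (if n ≡ a [MOD q] then (1 : ℝ) else 0)) =
        ∑ n ∈ Icc 1 x, ∑ q ∈ Ioc Q (2 * Q),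
          pipsi_L n * (if n ≡ a [MOD q] then (1 : ℝ) else 0) := fun q _ => sum_comm
    rw [sum_congr rfl e1, sum_comm]
  rw [h1]
  have h2 : ∀ n ∈ Icc 1 x, pipsi_L n *
        (∑ a ∈ Ioc a0 (a0 + H), ∑ q ∈ Ioc Q (2 * Q),
          (if n ≡ a [MOD q] then (1 : ℝ) else 0)) ≤
        pipsi_L n * (H * (C * (2 * x : ℝ) ^ (1 / 4 : ℝ))) +
          (if n ∈ Ioc a0 (a0 + H) then Q * Real.log x else 0) := by
    intro n hn
    rw [mem_Icc] at hn
    have h3 := pipsi_cnt C hC hdiv x a0 Q H n ha0 hn.2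
    have h5 : pipsi_L n ≤ Real.log x := by
      refine (pipsi_L_le n hn.1).trans ?_
      exact Real.log_le_log (by exact_mod_cast hn.1) (by exact_mod_cast hn.2)
    refine (mul_le_mul_of_nonneg_left h3 (pipsi_L_nonneg n)).trans ?_
    rw [mul_add]
    refine add_le_add le_rfl ?_
    split_ifs
    · rw [mul_comm]
      exact mul_le_mul_of_nonneg_left h5 (Nat.cast_nonneg _)
    · simp
  refine (sum_le_sum h2).trans ?_
  rw [sum_add_distrib, ← sum_mul]
  refine add_le_add (mul_le_mul_of_nonneg_right (pipsi_pp_le x hx) hK) ?_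
  have h6 : (∑ n ∈ Icc 1 x, if n ∈ Ioc a0 (a0 + H) then (Q : ℝ) * Real.log x else 0) ≤
      ∑ n ∈ Ioc a0 (a0 + H), (Q : ℝ) * Real.log x := by
    rw [← sum_filter]
    refine sum_le_sum_of_subset_of_nonneg ?_ fun _ _ _ => by positivity
    intro n hn
    exact (mem_filter.1 hn).2
  refine h6.trans (le_of_eq ?_)
  rw [sum_const, Nat.card_Ioc, nsmul_eq_mul]
  have h8 : a0 + H - a0 = H := by omega
  rw [h8]
  ring

theorem pps_avg : ∃ x0 : ℕ, ∀ x : ℕ, x0 ≤ x → ∀ a0 Q H : ℕ, a0 + H ≤ x → 1 ≤ Q → Q ≤ x →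
    ∑ a ∈ Ioc a0 (a0 + H), ∑ q ∈ Ioc Q (2 * Q), pps x q a ≤
      H * (x : ℝ) ^ ((4 : ℝ) / 5) + H * Q * Real.log x := by
  obtain ⟨C, hC, hdiv⟩ := Pool.Agent.H92.EH.div_bound (1 / 4) (by norm_num)
  have hlit : (fun x : ℝ => Real.log x) =o[Filter.atTop] fun x : ℝ => x ^ ((1 : ℝ) / 20) :=
    isLittleO_log_rpow_atTop (by norm_num)
  have hc : (0 : ℝ) < 1 / (4 * C) := by positivity
  have hev := (hlit.bound hc).and (Filter.eventually_ge_atTop (1 : ℝ))
  obtain ⟨x1, hx1⟩ := Filter.eventually_atTop.1 (tendsto_natCast_atTop_atTop.eventually hev)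
  refine ⟨max x1 1, fun x hx a0 Q H ha0 _ _ => ?_⟩
  obtain ⟨h1, h2⟩ := hx1 x ((le_max_left _ _).trans hx)
  have hx1' : 1 ≤ x := (le_max_right _ _).trans hx
  have hxp : (0 : ℝ) < x := by linarith
  have hlog : 0 ≤ Real.log x := Real.log_nonneg h2
  refine (pipsi_sum C hC hdiv x a0 Q H hx1' ha0).trans (add_le_add ?_ le_rfl)
  rw [Real.norm_of_nonneg hlog, Real.norm_of_nonneg (by positivity)] at h1
  have h3 : (2 * x : ℝ) ^ (1 / 4 : ℝ) ≤ 2 * (x : ℝ) ^ (1 / 4 : ℝ) := by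
    rw [Real.mul_rpow (by norm_num) hxp.le]
    refine mul_le_mul_of_nonneg_right ?_ (by positivity)
    calc (2 : ℝ) ^ (1 / 4 : ℝ) ≤ (2 : ℝ) ^ (1 : ℝ) :=
          Real.rpow_le_rpow_of_exponent_le (by norm_num) (by norm_num)
      _ = 2 := Real.rpow_one 2
  have h4 : Real.sqrt x * (x : ℝ) ^ (1 / 4 : ℝ) * (x : ℝ) ^ ((1 : ℝ) / 20) =
      (x : ℝ) ^ ((4 : ℝ) / 5) := by
    rw [Real.sqrt_eq_rpow, ← Real.rpow_add hxp, ← Real.rpow_add hxp]
    norm_num
  have hs : 0 ≤ Real.sqrt x := Real.sqrt_nonneg _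
  have hr : 0 ≤ (x : ℝ) ^ (1 / 4 : ℝ) := by positivity
  calc 2 * Real.sqrt x * Real.log x * (H * (C * (2 * x : ℝ) ^ (1 / 4 : ℝ)))
      ≤ 2 * Real.sqrt x * Real.log x * (H * (C * (2 * (x : ℝ) ^ (1 / 4 : ℝ)))) := by
        refine mul_le_mul_of_nonneg_left ?_ (by positivity)
        refine mul_le_mul_of_nonneg_left ?_ (Nat.cast_nonneg _)
        exact mul_le_mul_of_nonneg_left h3 (by linarith)
    _ = (4 * C * (H * (Real.sqrt x * (x : ℝ) ^ (1 / 4 : ℝ)))) * Real.log x := by ring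
    _ ≤ (4 * C * (H * (Real.sqrt x * (x : ℝ) ^ (1 / 4 : ℝ)))) *
        (1 / (4 * C) * (x : ℝ) ^ ((1 : ℝ) / 20)) :=
        mul_le_mul_of_nonneg_left h1 (by positivity)
    _ = H * (Real.sqrt x * (x : ℝ) ^ (1 / 4 : ℝ) * (x : ℝ) ^ ((1 : ℝ) / 20)) := by
        field_simp
    _ = H * (x : ℝ) ^ ((4 : ℝ) / 5) := by rw [h4]

end Pool.Agent.H87.WL

end

section

/-!
# U PiP: from `ψ` to `π`, pointwise, with error `loglog x/log x`

`L = log x`, `l = log L`, `δ = 2 l/L` (`< 1` for large `x`), `x^(1-δ) = x/L²`.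
* `pin_le`: `pin (1-δ) L ≤ psiA + (x/(L² q) + 1) L ≤ psiA + 2 (x/q)/L` (as `q ≤ 2 x^θ`, `L ≤ (x/q)/L`).
* `psi_le`: `psiA ≤ pin L + pps`.
* The same for `q = 1`, `a = 0` (`pin x 1 0 = π(x)`, `psiA x 1 0 = ∑ Lam`, see `pt_pin_one`, `pt_psi_one` in `WL.Pt`) and
  `PntProp` with exponent `1`: `|π(x) L - x| ≤ 10 x l/L` (for the lower bound `∑ Lam ≤ π(x) L`, `pt_psi_le_pi`).
So with `F = x/φ(q)`, `psiA = F (1+e)`, `|e| ≤ E`:
upper: `pin L ≤ (F(1+E) + 2F/L)/(1-δ) ≤ F (1 + 2E + 10 l/L)`; lower: `pin L ≥ F(1-E) - pps`; and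
`π(x) L/φ(q) = F (1 + O(10 l/L))`, `π(x) L ≥ x/2`.  `err = pin - π/φ(q)` (`pin_eq`).
-/

set_option autoImplicit false

namespace Pool.Agent.H35.U

open Finset
open Pool.Agent.H91.EHA (Lam psiA err)
open Pool.Agent.H87.WL (PntProp pin pps)

private lemma pip_pin_one (x : ℕ) : pin x 1 0 = Nat.primeCounting x := by
  unfold pin
  rw [Nat.primeCounting, Nat.primeCounting', Nat.count_eq_card_filter_range]
  congr 1
  ext p
  simp only [mem_filter, mem_Icc, mem_range]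
  constructor
  · rintro ⟨⟨h1, h2⟩, h3, _⟩
    exact ⟨by omega, h3⟩
  · rintro ⟨h1, h2⟩
    exact ⟨⟨h2.one_lt.le, by omega⟩, h2, Subsingleton.elim _ _⟩

private lemma pip_psi_one (x : ℕ) : psiA x 1 0 = ∑ n ∈ Icc 1 x, Lam n := by
  unfold Pool.Agent.H91.EHA.psiA
  apply sum_congr _ fun _ _ => rfl
  apply filter_true_of_mem
  intro n _
  exact Nat.modEq_one

private lemma pip_psi_le_pi (x : ℕ) :
    ∑ n ∈ Icc 1 x, Lam n ≤ (Nat.primeCounting x : ℝ) * Real.log x := by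
  have h := Chebyshev.psi_le_primeCounting_mul_log x
  rw [Chebyshev.psi_eq_sum_Icc] at h
  rw [Nat.floor_natCast] at h
  refine le_trans (le_of_eq ?_) h
  have h0 : Icc 0 x = insert 0 (Icc 1 x) := by
    ext n
    simp only [mem_Icc, mem_insert]
    omega
  rw [h0, sum_insert (by simp)]
  simp [Pool.Agent.H91.EHA.Lam]

/-- the upper bound for `pin` -/
private lemma pip_up (x q a : ℕ) (E L l : ℝ) (hx : 2 ≤ x) (hq : 1 ≤ q) (hL : L = Real.log x)
    (hl : l = Real.log L) (hl2 : 2 ≤ l) (h8 : 8 * l ≤ L) (hq2 : L ^ 2 ≤ (x : ℝ) / q) (hE : 0 ≤ E)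
    (hpsi : psiA x q a ≤ (1 + E) * ((x : ℝ) / q.totient)) :
    (pin x q a : ℝ) * L ≤ (1 + 2 * E + 7 * (l / L)) * ((x : ℝ) / q.totient) := by
  have hx0 : (0 : ℝ) < x := by exact_mod_cast (show 0 < x by omega)
  have hLpos : 0 < L := by linarith only [hl2, h8]
  have hu1 : l / L ≤ 1 / 8 := by
    rw [div_le_iff₀ hLpos]
    linarith only [h8]
  have hu0 : 0 < l / L := by positivity
  set u : ℝ := l / L with hu
  have hδ : 2 * u * L = 2 * l := by
    rw [hu]
    field_simp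
  have hq0 : (0 : ℝ) < q := by exact_mod_cast (show 0 < q by omega)
  have hphi0 : (0 : ℝ) < q.totient := by
    exact_mod_cast Nat.totient_pos.2 (show 0 < q by omega)
  have hphi : (q.totient : ℝ) ≤ q := by exact_mod_cast Nat.totient_le q
  have hF : (x : ℝ) / q ≤ (x : ℝ) / q.totient := div_le_div_of_nonneg_left hx0.le hphi0 hphi
  have hxd : (x : ℝ) ^ (1 - 2 * u) = x / L ^ 2 := by
    rw [Real.rpow_sub hx0, Real.rpow_one]
    congr 1
    rw [Real.rpow_def_of_pos hx0, ← hL, mul_comm L, hδ]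
    have h1 : Real.exp (2 * l) = Real.exp l ^ 2 := by
      rw [← Real.exp_nat_mul]
      norm_num
    rw [h1, hl, Real.exp_log hLpos]
  have h1 := Pool.Agent.H87.WL.pin_le x q a (2 * u) hx hq (by positivity) (by linarith only [hu1, hu0])
  rw [← hL, hxd] at h1
  set F : ℝ := (x : ℝ) / q.totient with hFd
  have hF0 : 0 ≤ F := by positivity
  have h2 : (x / L ^ 2 / (q : ℝ) + 1) * L ≤ 2 * (1 / L * F) := by
    have e1 : (x / L ^ 2 / (q : ℝ) + 1) * L = 1 / L * ((x : ℝ) / q) + L := by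
      field_simp
    have e2 : L ≤ 1 / L * ((x : ℝ) / q) := by
      rw [one_div, inv_mul_eq_div, le_div_iff₀ hLpos]
      nlinarith only [hq2]
    have e3 : 1 / L * ((x : ℝ) / q) ≤ 1 / L * F := mul_le_mul_of_nonneg_left hF (by positivity)
    rw [e1]
    linarith only [e2, e3]
  have h3 : 1 / L ≤ u / 2 := by
    rw [hu, div_div, div_le_div_iff₀ hLpos (by positivity)]
    nlinarith only [hl2, h8]
  have h4 : 1 / L * F ≤ u / 2 * F := mul_le_mul_of_nonneg_right h3 hF0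
  have h5 : (1 - 2 * u) * ((pin x q a : ℝ) * L) ≤ (1 + E + u) * F := by nlinarith only [h1, hpsi, h2, h4]
  have h6 : (1 + E + u) * F ≤ (1 - 2 * u) * ((1 + 2 * E + 7 * u) * F) := by
    rw [← mul_assoc]
    refine mul_le_mul_of_nonneg_right ?_ hF0
    nlinarith [mul_nonneg hE (show 0 ≤ 1 - 4 * u by linarith only [hu1, hu0]),
      mul_nonneg hu0.le (show 0 ≤ 4 - 14 * u by linarith)]
  exact le_of_mul_le_mul_left (h5.trans h6) (by linarith only [hu1, hu0])

private lemma pip_ev : ∀ᶠ x : ℕ in Filter.atTop, 2 ≤ x ∧ 2 ≤ Real.log (Real.log (x : ℝ)) ∧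
    8 * Real.log (Real.log (x : ℝ)) ≤ Real.log (x : ℝ) := by
  have hLt : Filter.Tendsto (fun x : ℕ => Real.log (x : ℝ)) Filter.atTop Filter.atTop :=
    Real.tendsto_log_atTop.comp tendsto_natCast_atTop_atTop
  have h1 : ∀ᶠ x : ℕ in Filter.atTop, 2 ≤ Real.log (Real.log (x : ℝ)) :=
    (Real.tendsto_log_atTop.comp hLt).eventually_ge_atTop 2
  have h2 := (Real.isLittleO_log_id_atTop.comp_tendsto hLt).def (show (0 : ℝ) < 1 / 8 by norm_num)
  filter_upwards [Filter.eventually_ge_atTop 2, h1, h2] with x hx hx1 hx2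
  refine ⟨hx, hx1, ?_⟩
  simp only [Function.comp, id] at hx2
  have hx' : (1 : ℝ) ≤ x := by exact_mod_cast (show 1 ≤ x by omega)
  rw [Real.norm_of_nonneg (by linarith only [hx1]), Real.norm_of_nonneg (Real.log_nonneg hx')] at hx2
  linarith only [hx2]

private lemma pip_pow (θ : ℝ) (hθ : θ < 1) : ∀ᶠ x : ℕ in Filter.atTop,
    Real.log (x : ℝ) ^ 2 ≤ (x : ℝ) ^ (1 - θ) / 2 := by
  have h1 := isLittleO_log_rpow_rpow_atTop (2 : ℝ) (show 0 < 1 - θ by linarith)
  have h2 := (h1.comp_tendsto (tendsto_natCast_atTop_atTop (R := ℝ))).def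
    (show (0 : ℝ) < 1 / 2 by norm_num)
  filter_upwards [h2, Filter.eventually_ge_atTop 1] with x hx hx1
  have hx1' : (1 : ℝ) ≤ x := by exact_mod_cast hx1
  have hL : 0 ≤ Real.log (x : ℝ) := Real.log_nonneg hx1'
  simp only [Function.comp] at hx
  rw [show (2 : ℝ) = ((2 : ℕ) : ℝ) by norm_num, Real.rpow_natCast] at hx
  rw [Real.norm_of_nonneg (pow_nonneg hL _),
    Real.norm_of_nonneg (Real.rpow_nonneg (by linarith only [hx1']) _)] at hx
  push_cast at hx
  linarith only [hx]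

/-- `π(x) log x = x (1 + O(loglog x/log x))` -/
private lemma pip_pi (hpnt : PntProp) : ∀ᶠ x : ℕ in Filter.atTop,
    (1 - Real.log (Real.log (x : ℝ)) / Real.log (x : ℝ)) * x ≤
        (Nat.primeCounting x : ℝ) * Real.log x ∧
      (Nat.primeCounting x : ℝ) * Real.log x ≤
        (1 + 8 * (Real.log (Real.log (x : ℝ)) / Real.log (x : ℝ))) * x := by
  obtain ⟨N, hN⟩ := hpnt 1
  filter_upwards [pip_ev, pip_pow 0 (by norm_num), Filter.eventually_ge_atTop N] with x hx hx2 hx3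
  obtain ⟨hx, hl2, h8⟩ := hx
  have h := hN x hx3 x le_rfl
  rw [pow_one] at h
  set L : ℝ := Real.log (x : ℝ) with hL
  set l : ℝ := Real.log L with hl
  have hx0 : (0 : ℝ) < x := by exact_mod_cast (show 0 < x by omega)
  have hLpos : 0 < L := by linarith only [hl2, h8]
  have hu3 : 1 / L ≤ l / L / 2 := by
    rw [div_div, div_le_div_iff₀ hLpos (by positivity)]
    nlinarith only [hl2, h8]
  have hu0 : 0 < l / L := by positivity
  have hxL : (x : ℝ) / L = 1 / L * x := by ring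
  rw [hxL, abs_le] at h
  have hxL2 : 1 / L * x ≤ l / L / 2 * x := mul_le_mul_of_nonneg_right hu3 hx0.le
  have hux : 0 ≤ l / L * x := by positivity
  constructor
  · have h1 := pip_psi_le_pi x
    rw [← hL] at h1
    linarith only [h, hxL2, h1]
  · have h2 := pip_up x 1 0 (1 / L) L l hx le_rfl hL hl hl2 h8 (by
      rw [sub_zero, Real.rpow_one] at hx2
      push_cast
      linarith only [hx2, hx0]) (by positivity) (by
      rw [pip_psi_one, Nat.totient_one]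
      push_cast
      linarith only [h])
    rw [pip_pin_one, Nat.totient_one] at h2
    push_cast at h2
    linarith only [hxL2, h2]

theorem pi_low (hpnt : PntProp) : ∃ x0 : ℕ, ∀ x : ℕ, x0 ≤ x →
    (x : ℝ) / (2 * Real.log x) ≤ Nat.primeCounting x ∧
      (Nat.primeCounting x : ℝ) ≤ 2 * x / Real.log x := by
  have hev := pip_ev.and (pip_pi hpnt)
  obtain ⟨x0, hx0⟩ := Filter.eventually_atTop.1 hev
  refine ⟨x0, fun x hx => ?_⟩
  obtain ⟨⟨hx2, hl2, h8⟩, h1, h2⟩ := hx0 x hx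
  set L : ℝ := Real.log (x : ℝ) with hL
  set l : ℝ := Real.log L with hl
  have hx0 : (0 : ℝ) < x := by exact_mod_cast (show 0 < x by omega)
  have hLpos : 0 < L := by linarith only [hl2, h8]
  have hu1 : l / L ≤ 1 / 8 := by
    rw [div_le_iff₀ hLpos]
    linarith only [h8]
  have hux : l / L * x ≤ 1 / 8 * x := mul_le_mul_of_nonneg_right hu1 hx0.le
  constructor
  · rw [div_le_iff₀ (by positivity)]
    linarith only [h1, hx0, hux]
  · rw [le_div_iff₀ hLpos]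
    linarith only [h2, hux]

theorem pi_pt (hpnt : PntProp) (θ : ℝ) (hθ : θ < 1) : ∃ C : ℝ, 0 < C ∧ ∃ x0 : ℕ, ∀ x : ℕ,
    x0 ≤ x → ∀ a q : ℕ, 1 ≤ q → (q : ℝ) ≤ 2 * (x : ℝ) ^ θ → ∀ E : ℝ, 0 ≤ E →
      |psiA x q a - (x : ℝ) / q.totient| ≤ E * ((x : ℝ) / q.totient) →
      |err x q (a : ZMod q)| ≤
        C * (E + Real.log (Real.log x) / Real.log x) *
          ((Nat.primeCounting x : ℝ) / q.totient) + 2 * pps x q a / Real.log x := by
  have hev := (pip_ev.and (pip_pi hpnt)).and ((pip_pow ((θ + 1) / 2) (by linarith)).and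
    (((tendsto_rpow_atTop (show 0 < (1 - θ) / 2 by linarith only [hθ])).comp
      (tendsto_natCast_atTop_atTop (R := ℝ))).eventually_ge_atTop 2))
  obtain ⟨x0, hx0⟩ := Filter.eventually_atTop.1 hev
  refine ⟨16, by norm_num, x0, fun x hx a q hq hqx E hE hpsi => ?_⟩
  obtain ⟨⟨⟨hx2, hl2, h8⟩, h1, h2⟩, h3, h4⟩ := hx0 x hx
  simp only [Function.comp] at h4
  set L : ℝ := Real.log (x : ℝ) with hL
  set l : ℝ := Real.log L with hl
  have hx0 : (0 : ℝ) < x := by exact_mod_cast (show 0 < x by omega)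
  have hLpos : 0 < L := by linarith only [hl2, h8]
  have hq0 : (0 : ℝ) < q := by exact_mod_cast (show 0 < q by omega)
  have hphi0 : (0 : ℝ) < q.totient := by
    exact_mod_cast Nat.totient_pos.2 (show 0 < q by omega)
  have hq2 : L ^ 2 ≤ (x : ℝ) / q := by
    rw [le_div_iff₀ hq0]
    have e1 : (x : ℝ) ^ (1 - (θ + 1) / 2) * 2 * (x : ℝ) ^ θ ≤ x := by
      have e2 : (x : ℝ) ^ (1 - (θ + 1) / 2) * (x : ℝ) ^ ((1 - θ) / 2) * (x : ℝ) ^ θ = x := by
        rw [← Real.rpow_add hx0, ← Real.rpow_add hx0]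
        have : 1 - (θ + 1) / 2 + (1 - θ) / 2 + θ = 1 := by ring
        rw [this, Real.rpow_one]
      calc (x : ℝ) ^ (1 - (θ + 1) / 2) * 2 * (x : ℝ) ^ θ ≤
          (x : ℝ) ^ (1 - (θ + 1) / 2) * (x : ℝ) ^ ((1 - θ) / 2) * (x : ℝ) ^ θ := by
            gcongr
        _ = x := e2
    have e3 : 0 ≤ (x : ℝ) ^ (1 - (θ + 1) / 2) := by positivity
    have e4 : 0 ≤ (x : ℝ) ^ θ := by positivity
    calc L ^ 2 * q ≤ ((x : ℝ) ^ (1 - (θ + 1) / 2) / 2) * (2 * (x : ℝ) ^ θ) :=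
          mul_le_mul h3 hqx hq0.le (by positivity)
      _ = ((x : ℝ) ^ (1 - (θ + 1) / 2) * (x : ℝ) ^ θ) := by ring
      _ ≤ (x : ℝ) ^ (1 - (θ + 1) / 2) * 2 * (x : ℝ) ^ θ := by nlinarith only [e3, e4, mul_nonneg e3 e4]
      _ ≤ x := e1
  rw [abs_le] at hpsi
  have hup := pip_up x q a E L l hx2 hq hL hl hl2 h8 hq2 hE (by linarith only [hpsi])
  have hlo := Pool.Agent.H87.WL.psi_le x q a hq
  rw [← hL] at hlo
  have hpp := Pool.Agent.H87.WL.pps_nonneg x q a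
  have hpin := Pool.Agent.H87.WL.pin_eq x q a
  set F : ℝ := (x : ℝ) / q.totient with hF
  have hF0 : 0 ≤ F := by positivity
  have hu1 : l / L ≤ 1 / 8 := by
    rw [div_le_iff₀ hLpos]
    linarith only [h8]
  have hu0 : 0 < l / L := by positivity
  set u : ℝ := l / L with hu
  set e : ℝ := err x q (a : ZMod q) with he
  set G : ℝ := (Nat.primeCounting x : ℝ) / q.totient with hG
  have hG0 : 0 ≤ G := by positivity
  have hGL : G * L = (Nat.primeCounting x : ℝ) * L / q.totient := by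
    rw [hG]
    ring
  have hG1 : (1 - u) * F ≤ G * L := by
    rw [hGL, hF, ← mul_div_assoc]
    exact div_le_div_of_nonneg_right h1 hphi0.le
  have hG2 : G * L ≤ (1 + 8 * u) * F := by
    rw [hGL, hF, ← mul_div_assoc]
    exact div_le_div_of_nonneg_right h2 hphi0.le
  have hFG : F ≤ 2 * (G * L) := by nlinarith only [hG0, hG1, hl2, h8, hF0, hu1]
  rw [hpin] at hup hlo
  have hEu : 0 ≤ (E + u) := by linarith only [hE, hu0]
  have hEF : 0 ≤ E * F := mul_nonneg hE hF0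
  have huF : 0 ≤ u * F := mul_nonneg hu0.le hF0
  have hmain : |e| * L ≤ 8 * (E + u) * F + pps x q a := by
    have : |e| * L = |e * L| := by rw [abs_mul, abs_of_pos hLpos]
    rw [this, abs_le]
    constructor <;> nlinarith only [hpsi, hlo, hG2, hpp, hup, hG1]
  have hmain2 : |e| * L ≤ (16 * (E + u) * G + 2 * pps x q a / L) * L := by
    have e1 : (16 * (E + u) * G + 2 * pps x q a / L) * L =
        8 * (E + u) * (2 * (G * L)) + 2 * pps x q a := by
      field_simp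
      ring
    rw [e1]
    have e2 : 8 * (E + u) * F ≤ 8 * (E + u) * (2 * (G * L)) :=
      mul_le_mul_of_nonneg_left hFG (by positivity)
    linarith only [hpp, hmain, e2]
  exact le_of_mul_le_mul_right hmain2 hLpos

end Pool.Agent.H35.U

end

section

/-!
# WL Bsm: small moduli (Bombieri-Vinogradov)

`BVProp` with `T q = {a}` if `a` is a unit modulo `q`, `∅` otherwise, and the exponent `c + 3`: `∑_{q ≤ x^{1/3}, q² ≤ x^{9/10}, (a,q)=1} |err x q a| ≤ x/L^{c+3}`.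
For `Q ≤ x^{1/4}` all `q ≤ 2Q` are admissible. A bad `q` has `|err| > η π(x)/φ(q) ≥ η x/(4 Q L)`
(`π(x) ≥ x/(2 log x)`: hypothesis `PntProp`: `x/2 ≤ ψ(x) ≤ π(x) log x`, see `Chebyshev.psi`, or use
another lemma of Mathlib), so their number is at most
`4 Q L^{1-c-3}/η ≤ Q/L^c` for large `x`.
-/

set_option autoImplicit false

namespace Pool.Agent.H87.WL

open Finset
open Pool.Agent.H91.EHA (Lam lamR hR ramS psiA err)

theorem bsm_pi (x : ℕ) (hx : 4096 ≤ x) : (x : ℝ) / 2 ≤ (Nat.primeCounting x : ℝ) * Real.log x := by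
  have h1 := Chebyshev.psi_ge x
  have h2 := Chebyshev.psi_le_primeCounting_mul_log x
  have hx' : (4096 : ℝ) ≤ x := by exact_mod_cast hx
  have h3 : Real.log ((x : ℝ) + 1) ≤ ((x : ℝ) + 1) / 20 + 18 := by
    have h4 : Real.log ((x : ℝ) + 1) = Real.log (((x : ℝ) + 1) / 20) + Real.log 20 := by
      rw [← Real.log_mul (by positivity) (by norm_num)]
      congr 1
      ring
    have h5 := Real.log_le_sub_one_of_pos (show 0 < ((x : ℝ) + 1) / 20 by positivity)
    have h6 := Real.log_le_sub_one_of_pos (show (0 : ℝ) < 20 by norm_num)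
    linarith
  have h7 := Real.log_two_gt_d9
  have h8 : (x : ℝ) * 0.69 ≤ x * Real.log 2 := by
    refine mul_le_mul_of_nonneg_left ?_ (by linarith)
    norm_num at h7 ⊢
    linarith
  linarith

end Pool.Agent.H87.WL

end

section

/-!
# U Sm: small moduli, relative error `1/log x`

As `bad_small` in `WL.Bsm` with `η = 1/log x`: use `BVProp` with the exponent `c + 4`; a bad `q` has
`|err x q a| > (1/L) π(x)/φ(q) ≥ (1/L) (x/(2L))/(2Q)` (`bsm_pi`), so
`#bad ≤ (4 L² Q/x) · x/L^(c+4) ≤ Q/L^c`.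
-/

set_option autoImplicit false

namespace Pool.Agent.H35.U

open Finset
open Pool.Agent.H91.EHA (Lam lamR hR ramS psiA err)
open Pool.Agent.H87.WL (PntProp BVProp bad bsm_pi)

theorem sm (hBV : BVProp) (hpnt : PntProp) (c : ℕ) : ∃ x0 : ℕ, ∀ x : ℕ, x0 ≤ x → ∀ a Q : ℕ,
    1 ≤ Q → (Q : ℝ) ≤ (x : ℝ) ^ ((1 : ℝ) / 4) →
      ((bad x a Q (1 / Real.log x)).card : ℝ) ≤ Q / Real.log x ^ c := by
  obtain ⟨x1, hx1⟩ := hBV (c + 4)
  obtain ⟨x2, hx2⟩ := exists_nat_ge (Real.exp 4)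
  refine ⟨max (max x1 x2) 4096, fun x hx a Q hQ hQx => ?_⟩
  have hxx1 : x1 ≤ x := (le_max_left _ _).trans ((le_max_left _ _).trans hx)
  have hxx2 : x2 ≤ x := (le_max_right _ _).trans ((le_max_left _ _).trans hx)
  have hx4 : 4096 ≤ x := (le_max_right _ _).trans hx
  have hxr : (4096 : ℝ) ≤ x := by exact_mod_cast hx4
  have hx0 : (0 : ℝ) < x := by linarith only [hxr]
  have hL : 4 ≤ Real.log x := by
    rw [Real.le_log_iff_exp_le hx0]
    exact hx2.trans (by exact_mod_cast hxx2)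
  have hL1 : 1 ≤ Real.log x := by
    rw [Real.le_log_iff_exp_le hx0]
    have := Real.exp_one_lt_d9
    norm_num at this
    linarith only [hxr, this]
  have hL0 : 0 < Real.log x := by linarith
  set η : ℝ := 1 / Real.log x with hηd
  have hη : 0 < η := by positivity
  have hQr : (1 : ℝ) ≤ Q := by exact_mod_cast hQ
  -- powers of x
  have e1 : 2 * (x : ℝ) ^ ((1 : ℝ) / 4) ≤ (x : ℝ) ^ ((1 : ℝ) / 3) := by
    have h1 : (x : ℝ) ^ ((1 : ℝ) / 3) = (x : ℝ) ^ ((1 : ℝ) / 12) * (x : ℝ) ^ ((1 : ℝ) / 4) := by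
      rw [← Real.rpow_add hx0]
      norm_num
    have h2 : (2 : ℝ) ≤ (x : ℝ) ^ ((1 : ℝ) / 12) := by
      have h3 : (4096 : ℝ) ^ ((1 : ℝ) / 12) = 2 := by
        have h4 : (4096 : ℝ) = 2 ^ (12 : ℝ) := by norm_num
        rw [h4, ← Real.rpow_mul (by norm_num)]
        norm_num
      rw [← h3]
      exact Real.rpow_le_rpow (by norm_num) hxr (by norm_num)
    rw [h1]
    exact mul_le_mul_of_nonneg_right h2 (Real.rpow_nonneg hx0.le _)
  have e2 : 4 * (x : ℝ) ^ ((1 : ℝ) / 2) ≤ (x : ℝ) ^ (1 - (1 : ℝ) / 10) := by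
    have h1 : (x : ℝ) ^ (1 - (1 : ℝ) / 10) = (x : ℝ) ^ ((2 : ℝ) / 5) * (x : ℝ) ^ ((1 : ℝ) / 2) := by
      rw [← Real.rpow_add hx0]
      norm_num
    have h2 : (4 : ℝ) ≤ (x : ℝ) ^ ((2 : ℝ) / 5) := by
      have h3 : (32 : ℝ) ^ ((2 : ℝ) / 5) = 4 := by
        have h4 : (32 : ℝ) = 2 ^ (5 : ℝ) := by norm_num
        rw [h4, ← Real.rpow_mul (by norm_num)]
        norm_num
      rw [← h3]
      exact Real.rpow_le_rpow (by norm_num) (by linarith only [hxr]) (by norm_num)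
    rw [h1]
    exact mul_le_mul_of_nonneg_right h2 (Real.rpow_nonneg hx0.le _)
  have e3 : ((x : ℝ) ^ ((1 : ℝ) / 4)) ^ 2 = (x : ℝ) ^ ((1 : ℝ) / 2) := by
    rw [← Real.rpow_natCast, ← Real.rpow_mul hx0.le]
    norm_num
  -- Bombieri-Vinogradov
  classical
  let T : (q : ℕ) → Finset (ZMod q) := fun q => if IsUnit (a : ZMod q) then {(a : ZMod q)} else ∅
  have hT1 : ∀ q, ((T q).card : ℝ) ≤ 1 := by
    intro q
    show (((if IsUnit (a : ZMod q) then {(a : ZMod q)} else ∅ : Finset (ZMod q))).card : ℝ) ≤ 1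
    split_ifs
    · rw [card_singleton, Nat.cast_one]
    · rw [card_empty, Nat.cast_zero]
      exact zero_le_one
  have hT2 : ∀ q, ∀ b ∈ T q, IsUnit b := by
    intro q b hb
    have hb' : b ∈ (if IsUnit (a : ZMod q) then {(a : ZMod q)} else ∅ : Finset (ZMod q)) := hb
    split_ifs at hb' with hu
    · rw [mem_singleton] at hb'
      rw [hb']
      exact hu
    · exact absurd hb' (notMem_empty _)
  have hbv := hx1 x hxx1 T hT1 hT2
  have hsub : bad x a Q η ⊆ (Icc 1 ⌊(x : ℝ) ^ ((1 : ℝ) / 3)⌋₊).filter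
      (fun q : ℕ => (q : ℝ) ^ 2 ≤ 1 * (x : ℝ) ^ (1 - (1 : ℝ) / 10)) := by
    intro q hq
    rw [bad, mem_filter, mem_Ioc] at hq
    obtain ⟨⟨hq1, hq2⟩, -, -⟩ := hq
    have hq2' : (q : ℝ) ≤ 2 * Q := by exact_mod_cast hq2
    have hq3 : (q : ℝ) ≤ 2 * (x : ℝ) ^ ((1 : ℝ) / 4) := by linarith only [hQx, hq2']
    rw [mem_filter, mem_Icc]
    refine ⟨⟨by omega, Nat.le_floor (hq3.trans e1)⟩, ?_⟩
    rw [one_mul]
    have hq0 : (0 : ℝ) ≤ q := Nat.cast_nonneg q
    calc (q : ℝ) ^ 2 ≤ (2 * (x : ℝ) ^ ((1 : ℝ) / 4)) ^ 2 := pow_le_pow_left₀ hq0 hq3 2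
      _ = 4 * (x : ℝ) ^ ((1 : ℝ) / 2) := by rw [mul_pow, e3]; norm_num
      _ ≤ _ := e2
  have hpi := bsm_pi x hx4
  have hpi0 : (0 : ℝ) < Nat.primeCounting x := by
    by_contra hcon
    rw [not_lt] at hcon
    have := mul_nonpos_of_nonpos_of_nonneg hcon hL0.le
    linarith only [hxr, hpi, this]
  have hlow : ∀ q ∈ bad x a Q η, η * ((Nat.primeCounting x : ℝ) / (2 * Q)) ≤ ∑ b ∈ T q, |err x q b| := by
    intro q hq
    rw [bad, mem_filter, mem_Ioc] at hq
    obtain ⟨⟨hq1, hq2⟩, hcop, hlt⟩ := hq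
    have hu : IsUnit (a : ZMod q) := (ZMod.isUnit_iff_coprime a q).2 hcop
    have hTq : T q = {(a : ZMod q)} := by
      show (if IsUnit (a : ZMod q) then {(a : ZMod q)} else ∅ : Finset (ZMod q)) = _
      rw [if_pos hu]
    rw [hTq, sum_singleton]
    refine le_trans ?_ hlt.le
    refine mul_le_mul_of_nonneg_left ?_ hη.le
    have hphi0 : (0 : ℝ) < q.totient := by
      exact_mod_cast Nat.totient_pos.2 (by omega)
    have hphi : (q.totient : ℝ) ≤ 2 * Q := by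
      have h1 : q.totient ≤ 2 * Q := (Nat.totient_le q).trans hq2
      exact_mod_cast h1
    exact div_le_div_of_nonneg_left hpi0.le hphi0 hphi
  have hsum : ((bad x a Q η).card : ℝ) * (η * ((Nat.primeCounting x : ℝ) / (2 * Q))) ≤
      1 * x / Real.log x ^ (c + 4) := by
    refine le_trans ?_ hbv
    refine le_trans ?_ (sum_le_sum_of_subset_of_nonneg hsub
      (fun q _ _ => sum_nonneg fun b _ => abs_nonneg _))
    rw [← nsmul_eq_mul]
    exact card_nsmul_le_sum _ _ _ hlow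
  -- the count
  have hLc : 0 < Real.log x ^ c := pow_pos hL0 c
  have hkey : ((bad x a Q η).card : ℝ) * (η * (x : ℝ)) * Real.log x ^ (c + 3) ≤ 4 * Q * x := by
    have h1 : ((bad x a Q η).card : ℝ) * (η * ((Nat.primeCounting x : ℝ) / (2 * Q))) *
        Real.log x ^ (c + 4) ≤ x := by
      rw [one_mul, le_div_iff₀ (pow_pos hL0 _)] at hsum
      exact hsum
    have h2 : ((bad x a Q η).card : ℝ) * (η * ((x : ℝ) / 2)) * Real.log x ^ (c + 3) ≤
        ((bad x a Q η).card : ℝ) * (η * ((Nat.primeCounting x : ℝ) * Real.log x)) *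
          Real.log x ^ (c + 3) := by
      gcongr
    have h3 : ((bad x a Q η).card : ℝ) * (η * ((Nat.primeCounting x : ℝ) * Real.log x)) *
          Real.log x ^ (c + 3) = (((bad x a Q η).card : ℝ) *
            (η * ((Nat.primeCounting x : ℝ) / (2 * Q))) * Real.log x ^ (c + 4)) * (2 * Q) := by
      rw [pow_succ _ (c + 3)]
      field_simp
    have h4 : (((bad x a Q η).card : ℝ) *
            (η * ((Nat.primeCounting x : ℝ) / (2 * Q))) * Real.log x ^ (c + 4)) * (2 * Q) ≤ x * (2 * Q) :=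
      mul_le_mul_of_nonneg_right h1 (by positivity)
    nlinarith only [h2, h3, h4]
  have hkey2 : ((bad x a Q η).card : ℝ) * Real.log x ^ (c + 2) ≤ 4 * Q := by
    have h1 : ((bad x a Q η).card : ℝ) * Real.log x ^ (c + 2) * x ≤ 4 * Q * x := by
      calc _ = ((bad x a Q η).card : ℝ) * (η * (x : ℝ)) * Real.log x ^ (c + 3) := by
            rw [hηd, pow_succ _ (c + 2)]
            field_simp
        _ ≤ _ := hkey
    exact le_of_mul_le_mul_right h1 hx0
  rw [le_div_iff₀ hLc]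
  have h5 : ((bad x a Q η).card : ℝ) * Real.log x ^ c * Real.log x ^ 2 ≤ Q * Real.log x ^ 2 := by
    calc ((bad x a Q η).card : ℝ) * Real.log x ^ c * Real.log x ^ 2 =
          ((bad x a Q η).card : ℝ) * Real.log x ^ (c + 2) := by rw [pow_add]; ring
      _ ≤ 4 * Q := hkey2
      _ ≤ Real.log x ^ 2 * Q := by
          gcongr
          nlinarith only [hL]
      _ = _ := by ring
  exact le_of_mul_le_mul_right h5 (by positivity)

end Pool.Agent.H35.U

end
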