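import Pool.Agent.H94.EH.M03
import Pool.Agent.H94.EH.M22
import Pool.Agent.H94.EH.M27

/-! The parts of this file: H35.W.FacSum, H35.W.SqCount, H35.U.TauM, H35.U.Dual, H35.U.FacR, H35.W.KSap, H35.W.KV, H35.W.Gram. -/

section

/-!
# W FacSum: the factorable part, Cauchy-Schwarz

Proof.  Collect `m = k q ≥ 1`: for fixed `a` and `m` there are at most `d(m)` pairs `(q, k)`; if `m > x / P` (natural
division) then `p m > x` for all `p > P` and the inner sum is 0 (`g` vanishes beyond `x`).  So the left side is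
`≤ ∑_a ∑_{m ≤ x/P} d(m) |∑_p g(a + p m)| ≤ (∑_a ∑_{m ≤ x/P} d(m)^2)^{1/2} V^{1/2}` and
`∑_{m ≤ X} d(m)^2 ≤ X (log X + 1)^3` (`Msq_tau_sq`), `X = x/P ≤ x`.
-/

set_option autoImplicit false

namespace Pool.Agent.H35.W

open Finset

private lemma FacSum_le_of_zero {s t : Finset ℕ} {f : ℕ → ℝ} (hf : ∀ i, 0 ≤ f i)
    (h : ∀ i ∈ s, f i ≠ 0 → i ∈ t) : ∑ i ∈ s, f i ≤ ∑ i ∈ t, f i := by
  classical
  rw [← Finset.sum_filter_ne_zero s]
  refine Finset.sum_le_sum_of_subset_of_nonneg ?_ fun i _ _ => hf i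
  intro i hi
  rw [Finset.mem_filter] at hi
  exact h i hi.1 hi.2

private lemma FacSum_div (h : ℕ → ℝ) (h0 : ∀ m, 0 ≤ h m) (X Q K : ℕ) (hX : ∀ m, X < m → h m = 0) :
    ∑ q ∈ Ioc Q (2 * Q), ∑ k ∈ Icc 1 K, h (k * q) ≤ ∑ n ∈ Icc 1 X, (n.divisors.card : ℝ) * h n := by
  have e1 : ∑ n ∈ Icc 1 X, (n.divisors.card : ℝ) * h n =
      ∑ d ∈ Icc 1 X, ∑ m ∈ Icc 1 (X / d), h (d * m) := by
    rw [← Pool.Agent.H91.PK.Msq_sum_divisors X (fun d m => h (d * m))]
    refine Finset.sum_congr rfl fun n _ => ?_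
    have : ∑ d ∈ n.divisors, h (d * (n / d)) = ∑ _d ∈ n.divisors, h n := by
      refine Finset.sum_congr rfl fun d hd => ?_
      rw [Nat.mul_div_cancel' (Nat.dvd_of_mem_divisors hd)]
    rw [this, Finset.sum_const, nsmul_eq_mul]
  rw [e1]
  have e2 : ∀ q, 1 ≤ q → ∑ k ∈ Icc 1 K, h (k * q) ≤ ∑ m ∈ Icc 1 (X / q), h (q * m) := by
    intro q hq
    have : ∑ k ∈ Icc 1 K, h (k * q) = ∑ k ∈ Icc 1 K, h (q * k) :=
      Finset.sum_congr rfl fun k _ => by rw [mul_comm]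
    rw [this]
    refine FacSum_le_of_zero (fun i => h0 _) ?_
    intro k hk hne
    rw [Finset.mem_Icc] at hk ⊢
    refine ⟨hk.1, ?_⟩
    by_contra hcon
    apply hne
    apply hX
    rw [not_le] at hcon
    have := (Nat.div_lt_iff_lt_mul hq).1 hcon
    rwa [mul_comm] at this
  calc ∑ q ∈ Ioc Q (2 * Q), ∑ k ∈ Icc 1 K, h (k * q)
      ≤ ∑ q ∈ Ioc Q (2 * Q), ∑ m ∈ Icc 1 (X / q), h (q * m) := by
        refine Finset.sum_le_sum fun q hq => ?_
        rw [Finset.mem_Ioc] at hq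
        exact e2 q (by omega)
    _ ≤ ∑ q ∈ Icc 1 X, ∑ m ∈ Icc 1 (X / q), h (q * m) := by
        refine FacSum_le_of_zero (f := fun q => ∑ m ∈ Icc 1 (X / q), h (q * m))
          (fun q => Finset.sum_nonneg fun m _ => h0 _) ?_
        intro q hq hne
        rw [Finset.mem_Ioc] at hq
        rw [Finset.mem_Icc]
        refine ⟨by omega, ?_⟩
        by_contra hcon
        apply hne
        have : X / q = 0 := Nat.div_eq_of_lt (by omega)
        simp [this]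

theorem fac_sum (g : ℕ → ℝ) (x P a0 H Q K : ℕ) (hP : 1 ≤ P) (hg : ∀ n, x < n → g n = 0) (V : ℝ)
    (hV : ∑ m ∈ Icc 1 (x / P), ∑ a ∈ Ioc a0 (a0 + H), (∑ p ∈ pb P, g (a + p * m)) ^ 2 ≤ V) :
    ∑ q ∈ Ioc Q (2 * Q), ∑ a ∈ Ioc a0 (a0 + H), ∑ k ∈ Icc 1 K, |∑ p ∈ pb P, g (a + (p * k) * q)|
      ≤ Real.sqrt (H * ((x : ℝ) / P * (Real.log x + 1) ^ 3) * V) := by
  classical
  set X := x / P with hXdef
  set S : ℕ → ℕ → ℝ := fun m a => ∑ p ∈ pb P, g (a + p * m) with hS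
  set h : ℕ → ℝ := fun m => ∑ a ∈ Ioc a0 (a0 + H), |S m a| with hh
  have h0 : ∀ m, 0 ≤ h m := fun m => Finset.sum_nonneg fun a _ => abs_nonneg _
  have hX : ∀ m, X < m → h m = 0 := by
    intro m hm
    apply Finset.sum_eq_zero
    intro a _
    have : S m a = 0 := by
      apply Finset.sum_eq_zero
      intro p hp
      apply hg
      have h1 : P < p := by
        unfold pb at hp
        rw [Finset.mem_filter, Finset.mem_Ioc] at hp
        exact hp.1.1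
      have h2 : x < m * P := (Nat.div_lt_iff_lt_mul hP).1 hm
      have h3 : m * P ≤ p * m := by
        rw [mul_comm p m]
        exact Nat.mul_le_mul_left m h1.le
      omega
    rw [this, abs_zero]
  have s1 : ∑ q ∈ Ioc Q (2 * Q), ∑ a ∈ Ioc a0 (a0 + H), ∑ k ∈ Icc 1 K,
      |∑ p ∈ pb P, g (a + (p * k) * q)| = ∑ q ∈ Ioc Q (2 * Q), ∑ k ∈ Icc 1 K, h (k * q) := by
    refine Finset.sum_congr rfl fun q _ => ?_
    rw [Finset.sum_comm]
    refine Finset.sum_congr rfl fun k _ => ?_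
    refine Finset.sum_congr rfl fun a _ => ?_
    simp only [hS, mul_assoc]
  rw [s1]
  refine (FacSum_div h h0 X Q K hX).trans ?_
  rcases Nat.eq_zero_or_pos X with hX0 | hX1
  · rw [hX0]
    simp only [Finset.Icc_eq_empty (by norm_num : ¬ (1 ≤ 0)), Finset.sum_empty]
    exact Real.sqrt_nonneg _
  -- Cauchy-Schwarz
  have s2 : ∑ n ∈ Icc 1 X, (n.divisors.card : ℝ) * h n =
      ∑ u ∈ Icc 1 X ×ˢ Ioc a0 (a0 + H), (u.1.divisors.card : ℝ) * |S u.1 u.2| := by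
    rw [Finset.sum_product]
    refine Finset.sum_congr rfl fun n _ => ?_
    rw [hh, Finset.mul_sum]
  rw [s2]
  refine (Real.sum_mul_le_sqrt_mul_sqrt _ _ _).trans ?_
  rw [← Real.sqrt_mul (Finset.sum_nonneg fun u _ => sq_nonneg _)]
  apply Real.sqrt_le_sqrt
  have s3 : ∑ u ∈ Icc 1 X ×ˢ Ioc a0 (a0 + H), |S u.1 u.2| ^ 2 ≤ V := by
    rw [Finset.sum_product]
    refine le_trans (le_of_eq ?_) hV
    refine Finset.sum_congr rfl fun n _ => ?_
    refine Finset.sum_congr rfl fun a _ => ?_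
    rw [sq_abs]
  have s4 : ∑ u ∈ Icc 1 X ×ˢ Ioc a0 (a0 + H), (u.1.divisors.card : ℝ) ^ 2 ≤
      H * ((x : ℝ) / P * (Real.log x + 1) ^ 3) := by
    rw [Finset.sum_product]
    have e1 : ∑ n ∈ Icc 1 X, ∑ _a ∈ Ioc a0 (a0 + H), (n.divisors.card : ℝ) ^ 2 =
        H * ∑ n ∈ Icc 1 X, (n.divisors.card : ℝ) ^ 2 := by
      rw [Finset.mul_sum]
      refine Finset.sum_congr rfl fun n _ => ?_
      rw [Finset.sum_const, Nat.card_Ioc, nsmul_eq_mul]
      congr 2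
      omega
    rw [e1]
    apply mul_le_mul_of_nonneg_left _ (Nat.cast_nonneg _)
    refine (Pool.Agent.H91.PK.Msq_tau_sq X hX1).trans ?_
    have e2 : (X : ℝ) ≤ (x : ℝ) / P := by rw [hXdef]; exact Nat.cast_div_le
    have e3 : Real.log X ≤ Real.log x := by
      apply Real.log_le_log
      · exact_mod_cast hX1
      · exact_mod_cast Nat.div_le_self x P
    have e4 : 0 ≤ Real.log X := Real.log_natCast_nonneg X
    apply mul_le_mul e2 _ (by positivity) (by positivity)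
    apply pow_le_pow_left₀ (by linarith)
    linarith
  have s5 : 0 ≤ ∑ u ∈ Icc 1 X ×ˢ Ioc a0 (a0 + H), |S u.1 u.2| ^ 2 :=
    Finset.sum_nonneg fun u _ => sq_nonneg _
  have s6 : (0 : ℝ) ≤ H * ((x : ℝ) / P * (Real.log x + 1) ^ 3) := by
    have : 0 ≤ Real.log x := Real.log_natCast_nonneg x
    positivity
  exact mul_le_mul s4 s3 s5 s6

end Pool.Agent.H35.W

end

section

/-!
# W SqCount: the number of `k` divisible by the square of a prime `> P`

`#{k ≤ y : p^2 ∣ k for some p > P} ≤ ∑_{p > P} y/p^2 ≤ y ∑_{n > P} 1/(n (n-1)) = y/P`.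
-/

set_option autoImplicit false

namespace Pool.Agent.H35.W

open Finset

private theorem SqCount_sum (P : ℕ) (hP : 1 ≤ P) (d : ℕ) :
    ∑ n ∈ Ioc P (P + d), (1 : ℝ) / (n : ℝ) ^ 2 ≤ 1 / P - 1 / ((P + d : ℕ) : ℝ) := by
  have hP' : (0:ℝ) < P := by exact_mod_cast hP
  induction d with
  | zero => simp
  | succ d ih =>
    rw [← add_assoc, Finset.sum_Ioc_succ_top (by omega)]
    have h1 : (1:ℝ) / ((P + d + 1 : ℕ) : ℝ) ^ 2 ≤
        1 / ((P + d : ℕ) : ℝ) - 1 / ((P + d + 1 : ℕ) : ℝ) := by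
      push_cast
      have h2 : (0:ℝ) < P + d := by positivity
      have h3 : (0:ℝ) < P + d + 1 := by positivity
      rw [div_sub_div _ _ h2.ne' h3.ne', div_le_div_iff₀ (by positivity) (by positivity)]
      nlinarith
    linarith

theorem sq_count (P y : ℕ) (hP : 1 ≤ P) :
    ((sqs P y).card : ℝ) ≤ y / P := by
  classical
  have hP' : (0:ℝ) < P := by exact_mod_cast hP
  have hsub : sqs P y ⊆ (Ioc P y).biUnion (fun p => (Ioc 0 y).filter (fun k => p ^ 2 ∣ k)) := by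
    intro k hk
    unfold sqs at hk
    rw [mem_filter, mem_Icc] at hk
    obtain ⟨⟨h1, h2⟩, p, hp, _, hd⟩ := hk
    rw [mem_biUnion]
    have h3 : p ^ 2 ≤ k := Nat.le_of_dvd (by omega) hd
    have h4 : p ≤ p ^ 2 := Nat.le_self_pow (by norm_num) p
    exact ⟨p, mem_Ioc.2 ⟨hp, by omega⟩, mem_filter.2 ⟨mem_Ioc.2 ⟨by omega, h2⟩, hd⟩⟩
  have h1 : (sqs P y).card ≤ ∑ p ∈ Ioc P y, (y / p ^ 2) := by
    refine (card_le_card hsub).trans (card_biUnion_le.trans (sum_le_sum fun p _ => ?_))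
    rw [Nat.Ioc_filter_dvd_card_eq_div]
  have h2 : ((sqs P y).card : ℝ) ≤ ∑ p ∈ Ioc P y, (y : ℝ) * (1 / (p : ℝ) ^ 2) := by
    calc ((sqs P y).card : ℝ) ≤ ((∑ p ∈ Ioc P y, (y / p ^ 2) : ℕ) : ℝ) := by exact_mod_cast h1
      _ = ∑ p ∈ Ioc P y, ((y / p ^ 2 : ℕ) : ℝ) := by push_cast; rfl
      _ ≤ ∑ p ∈ Ioc P y, (y : ℝ) * (1 / (p : ℝ) ^ 2) := by
          refine sum_le_sum fun p _ => ?_
          have h := @Nat.cast_div_le ℝ _ _ _ y (p ^ 2)
          push_cast at h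
          calc ((y / p ^ 2 : ℕ) : ℝ) ≤ (y : ℝ) / (p : ℝ) ^ 2 := h
            _ = (y : ℝ) * (1 / (p : ℝ) ^ 2) := by ring
  rw [← mul_sum] at h2
  refine h2.trans ?_
  rcases le_or_gt y P with hy | hy
  · rw [Ioc_eq_empty_of_le hy, sum_empty, mul_zero]
    positivity
  · obtain ⟨d, rfl⟩ := Nat.exists_eq_add_of_lt hy
    have h3 := SqCount_sum P hP (d + 1)
    rw [← add_assoc] at h3
    have h4 : ∑ n ∈ Ioc P (P + d + 1), (1 : ℝ) / (n : ℝ) ^ 2 ≤ 1 / P := by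
      refine h3.trans ?_
      have : (0:ℝ) ≤ 1 / ((P + d + 1 : ℕ) : ℝ) := by positivity
      linarith
    calc ((P + d + 1 : ℕ) : ℝ) * ∑ n ∈ Ioc P (P + d + 1), (1 : ℝ) / (n : ℝ) ^ 2
        ≤ ((P + d + 1 : ℕ) : ℝ) * (1 / P) := mul_le_mul_of_nonneg_left h4 (by positivity)
      _ = ((P + d + 1 : ℕ) : ℝ) / P := by ring

end Pool.Agent.H35.W

end

section

/-!
# U TauM: moments of the divisor function

* `tau_pow`: `∑_{m ≤ n} τ(m)^j ≤ n F_j(n)`, `F_j(n) = ∑_{m ≤ n} τ(m)^j/m`.  `F_0(n) ≤ 1 + log n`;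
  `F_{j+1}(n) ≤ F_j(n)^2` because `τ(m)^{j+1} = ∑_{ab=m} τ(ab)^j ≤ ∑_{ab=m} τ(a)^j τ(b)^j`
  (submultiplicativity of `τ`).  See `Pool/Agent/H70/EHC/Tau.lean` (private lemmas `tau_S`) for the same proof.
* `tw_sum`: `tw S m k ≤ 4^(Om S k)/2^m` (if `m < ω` then `2^ω = 4^ω/2^ω ≤ 4^ω/2^m`), `2^(Om S k) ≤ τ(k)`
  (`Om S k ≤ k.primeFactors.card`, `2^ω(k) ≤ τ(k)`), so for `k ∣ l`: `tw S m k ≤ τ(l)^2/2^m`, the inner sum is
  `≤ τ(l)^3/2^m`, its square `≤ τ(l)^6/4^m`; `tau_pow` with `j = 6`, `2^6 = 64`.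
* `sqs_sum`: the inner sum is `≤ τ(l)` if `l ∈ sqs P n` and `0` otherwise (`p^2 ∣ k ∣ l`), so by Cauchy-Schwarz
  the sum is `≤ (#(sqs P n) · ∑ τ^4)^(1/2) ≤ (n/P · n (1+log n)^16)^(1/2)`; `#(sqs P n) ≤ n/P` is
  `Pool.Agent.H35.W.sq_count`.
-/

set_option autoImplicit false

namespace Pool.Agent.H35.U

open Finset
open Pool.Agent.H87.WL (PP PPc Mu Om)
open Pool.Agent.H35.W (sqs)

open scoped Pointwise in
private theorem TauM_mul_le (d e : ℕ) :
    (d * e).divisors.card ≤ d.divisors.card * e.divisors.card := by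
  rw [Nat.divisors_mul]
  exact card_mul_le

private noncomputable def TauM_S (k n : ℕ) : ℝ := ∑ m ∈ Icc 1 n, (m.divisors.card : ℝ) ^ k / m

private theorem TauM_S_nonneg (k n : ℕ) : 0 ≤ TauM_S k n :=
  sum_nonneg fun _ _ => by positivity

private theorem TauM_S_succ (k n : ℕ) : TauM_S (k + 1) n ≤ TauM_S k n ^ 2 := by
  obtain ⟨f, hf⟩ : ∃ f : ℕ × ℕ → ℝ, f = fun p => ((p.1.divisors.card : ℝ) ^ k / p.1) *
      ((p.2.divisors.card : ℝ) ^ k / p.2) := ⟨_, rfl⟩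
  have hf0 : ∀ p, 0 ≤ f p := fun p => by rw [hf]; positivity
  have h1 : TauM_S k n ^ 2 = ∑ p ∈ Icc 1 n ×ˢ Icc 1 n, f p := by
    unfold TauM_S
    rw [sq, sum_mul_sum, sum_product, hf]
  have h2 : ∀ m ∈ Icc 1 n, (m.divisors.card : ℝ) ^ (k + 1) / m ≤
      ∑ p ∈ ((Icc 1 n ×ˢ Icc 1 n).filter (fun p => p.1 * p.2 ∈ Icc 1 n)).filter
        (fun p => p.1 * p.2 = m), f p := by
    intro m hm
    have hm' := mem_Icc.1 hm
    have e1 : ((Icc 1 n ×ˢ Icc 1 n).filter (fun p => p.1 * p.2 ∈ Icc 1 n)).filter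
        (fun p => p.1 * p.2 = m) = m.divisorsAntidiagonal := by
      ext p
      rw [mem_filter, mem_filter, mem_product, mem_Icc, mem_Icc, Nat.mem_divisorsAntidiagonal]
      constructor
      · rintro ⟨_, h⟩
        exact ⟨h, by omega⟩
      · rintro ⟨h, _⟩
        have hp1 : 1 ≤ p.1 := Nat.one_le_iff_ne_zero.2 (by rintro h0; rw [h0, zero_mul] at h; omega)
        have hp2 : 1 ≤ p.2 := Nat.one_le_iff_ne_zero.2 (by rintro h0; rw [h0, mul_zero] at h; omega)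
        have h3 : p.1 ≤ m := h ▸ Nat.le_mul_of_pos_right _ hp2
        have h4 : p.2 ≤ m := h ▸ Nat.le_mul_of_pos_left _ hp1
        exact ⟨⟨⟨⟨hp1, by omega⟩, ⟨hp2, by omega⟩⟩, h ▸ hm⟩, h⟩
    rw [e1]
    have e2 : (m.divisors.card : ℝ) = ∑ _p ∈ m.divisorsAntidiagonal, (1:ℝ) := by
      rw [Nat.sum_divisorsAntidiagonal (fun _ _ => (1:ℝ))]
      simp
    have e3 : (m.divisors.card : ℝ) ^ (k + 1) / m =
        ∑ _p ∈ m.divisorsAntidiagonal, (m.divisors.card : ℝ) ^ k / m := by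
      rw [← mul_one ((m.divisors.card : ℝ) ^ k / m), ← mul_sum, ← e2, pow_succ]
      ring
    rw [e3]
    refine sum_le_sum fun p hp => ?_
    rw [Nat.mem_divisorsAntidiagonal] at hp
    rw [hf]
    have h5 := TauM_mul_le p.1 p.2
    rw [hp.1] at h5
    have h6 : (m.divisors.card : ℝ) ≤ (p.1.divisors.card : ℝ) * (p.2.divisors.card : ℝ) := by
      exact_mod_cast h5
    have h7 : (m : ℝ) = (p.1 : ℝ) * p.2 := by rw [← hp.1]; push_cast; rfl
    show (m.divisors.card : ℝ) ^ k / m ≤ ((p.1.divisors.card : ℝ) ^ k / p.1) *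
      ((p.2.divisors.card : ℝ) ^ k / p.2)
    rw [div_mul_div_comm, ← mul_pow, ← h7]
    exact div_le_div_of_nonneg_right (pow_le_pow_left₀ (by positivity) h6 k) (by positivity)
  rw [h1]
  unfold TauM_S
  calc ∑ m ∈ Icc 1 n, (m.divisors.card : ℝ) ^ (k + 1) / m
      ≤ ∑ m ∈ Icc 1 n, ∑ p ∈ ((Icc 1 n ×ˢ Icc 1 n).filter (fun p => p.1 * p.2 ∈ Icc 1 n)).filter
        (fun p => p.1 * p.2 = m), f p := sum_le_sum h2
    _ = ∑ p ∈ (Icc 1 n ×ˢ Icc 1 n).filter (fun p => p.1 * p.2 ∈ Icc 1 n), f p :=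
        sum_fiberwise_of_maps_to (fun p hp => (mem_filter.1 hp).2) f
    _ ≤ ∑ p ∈ Icc 1 n ×ˢ Icc 1 n, f p :=
        sum_le_sum_of_subset_of_nonneg (filter_subset _ _) (fun p _ _ => hf0 p)

private theorem TauM_S_zero (n : ℕ) : TauM_S 0 n ≤ 1 + Real.log n := by
  have h := harmonic_le_one_add_log n
  refine le_trans (le_of_eq ?_) h
  unfold TauM_S
  rw [harmonic_eq_sum_Icc]
  push_cast
  refine sum_congr rfl fun m _ => ?_
  rw [pow_zero, one_div]

private theorem TauM_S_pow (n k : ℕ) : TauM_S k n ≤ (1 + Real.log n) ^ (2 ^ k) := by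
  induction k with
  | zero => simpa using TauM_S_zero n
  | succ k ih =>
    refine (TauM_S_succ k n).trans ?_
    rw [pow_succ 2 k, pow_mul]
    exact pow_le_pow_left₀ (TauM_S_nonneg k n) ih 2

/-- `2^ω(k) ≤ τ(k)`, for the primes of `S` only -/
private theorem TauM_two_pow_Om (S : Finset ℕ) (hS : ∀ p ∈ S, p.Prime) (k : ℕ) (hk : k ≠ 0) :
    2 ^ Om S k ≤ k.divisors.card := by
  have h1 : Om S k ≤ k.primeFactors.card := by
    unfold Om
    refine card_le_card fun p hp => ?_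
    rw [mem_filter] at hp
    exact Nat.mem_primeFactors.2 ⟨hS p hp.1, hp.2, hk⟩
  have h2 : 2 ^ k.primeFactors.card ≤ k.divisors.card := by
    rw [Nat.card_divisors hk, ← prod_const]
    refine prod_le_prod' fun p hp => ?_
    have h3 : 1 ≤ k.factorization p :=
      (Nat.prime_of_mem_primeFactors hp).factorization_pos_of_dvd hk
        (Nat.dvd_of_mem_primeFactors hp)
    omega
  exact (Nat.pow_le_pow_right (by norm_num) h1).trans h2

private theorem TauM_tw (S : Finset ℕ) (hS : ∀ p ∈ S, p.Prime) (m k l : ℕ) (hl : l ≠ 0)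
    (hk : k ∣ l) : tw S m k ≤ (l.divisors.card : ℝ) ^ 2 / 2 ^ m := by
  unfold tw
  split_ifs with h
  · have hk0 : k ≠ 0 := by rintro rfl; exact hl (Nat.eq_zero_of_zero_dvd hk)
    have h1 : (2:ℝ) ^ Om S k ≤ (l.divisors.card : ℝ) := by
      have h2 := (TauM_two_pow_Om S hS k hk0).trans
        (card_le_card (Nat.divisors_subset_of_dvd hl hk))
      exact_mod_cast h2
    have h3 : (2:ℝ) ^ m ≤ 2 ^ Om S k := pow_le_pow_right₀ (by norm_num) h.le
    rw [le_div_iff₀ (by positivity), sq]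
    exact mul_le_mul h1 (h3.trans h1) (by positivity) (by positivity)
  · positivity

private theorem TauM_sqi_le (P k : ℕ) : sqi P k ≤ 1 := by
  unfold sqi; split_ifs <;> norm_num

private theorem TauM_sqi_nonneg (P k : ℕ) : 0 ≤ sqi P k := by
  unfold sqi; split_ifs <;> norm_num

theorem tau_pow (j n : ℕ) :
    ∑ m ∈ Icc 1 n, (m.divisors.card : ℝ) ^ j ≤ n * (1 + Real.log n) ^ (2 ^ j) := by
  have h1 : ∑ m ∈ Icc 1 n, (m.divisors.card : ℝ) ^ j ≤ n * TauM_S j n := by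
    unfold TauM_S
    rw [mul_sum]
    refine sum_le_sum fun m hm => ?_
    have hm' := mem_Icc.1 hm
    have hm0 : (0:ℝ) < m := by exact_mod_cast hm'.1
    have hmn : (m:ℝ) ≤ n := by exact_mod_cast hm'.2
    rw [← mul_div_assoc, le_div_iff₀ hm0, mul_comm]
    exact mul_le_mul_of_nonneg_right hmn (by positivity)
  exact h1.trans (mul_le_mul_of_nonneg_left (TauM_S_pow n j) (by positivity))

theorem tw_sum (S : Finset ℕ) (hS : ∀ p ∈ S, p.Prime) (m n : ℕ) :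
    ∑ l ∈ Icc 1 n, (∑ k ∈ l.divisors, tw S m k) ^ 2 ≤ n * (1 + Real.log n) ^ 64 / 4 ^ m := by
  have h1 : ∀ l ∈ Icc 1 n, (∑ k ∈ l.divisors, tw S m k) ^ 2 ≤
      (l.divisors.card : ℝ) ^ 6 * (1 / 4 ^ m) := by
    intro l hl
    have hl0 : l ≠ 0 := by have := (mem_Icc.1 hl).1; omega
    have h2 : ∑ k ∈ l.divisors, tw S m k ≤ (l.divisors.card : ℝ) ^ 3 / 2 ^ m := by
      calc ∑ k ∈ l.divisors, tw S m k ≤ ∑ _k ∈ l.divisors, (l.divisors.card : ℝ) ^ 2 / 2 ^ m :=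
            sum_le_sum fun k hk => TauM_tw S hS m k l hl0 (Nat.dvd_of_mem_divisors hk)
        _ = (l.divisors.card : ℝ) ^ 3 / 2 ^ m := by
            rw [sum_const, nsmul_eq_mul]; ring
    calc (∑ k ∈ l.divisors, tw S m k) ^ 2 ≤ ((l.divisors.card : ℝ) ^ 3 / 2 ^ m) ^ 2 :=
          pow_le_pow_left₀ (sum_nonneg fun k _ => tw_nonneg S m k) h2 2
      _ = (l.divisors.card : ℝ) ^ 6 * (1 / 4 ^ m) := by
          rw [div_pow, ← pow_mul, ← pow_mul, show (4:ℝ) = 2 ^ 2 by norm_num, ← pow_mul,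
            mul_comm m 2]
          ring
  refine (sum_le_sum h1).trans ?_
  rw [← sum_mul]
  have h3 := tau_pow 6 n
  calc (∑ l ∈ Icc 1 n, (l.divisors.card : ℝ) ^ 6) * (1 / 4 ^ m)
      ≤ (n * (1 + Real.log n) ^ (2 ^ 6)) * (1 / 4 ^ m) :=
        mul_le_mul_of_nonneg_right h3 (by positivity)
    _ = n * (1 + Real.log n) ^ 64 / 4 ^ m := by
        rw [show (2:ℕ) ^ 6 = 64 by norm_num]; ring

theorem sqs_sum (P n : ℕ) (hP : 1 ≤ P) :
    ∑ l ∈ Icc 1 n, (∑ k ∈ l.divisors, sqi P k) ^ 2 ≤ n * (1 + Real.log n) ^ 8 / Real.sqrt P := by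
  classical
  have hP' : (0:ℝ) < P := by exact_mod_cast hP
  have hlog : 0 ≤ Real.log n := Real.log_natCast_nonneg n
  have h1 : ∀ l ∈ Icc 1 n, (∑ k ∈ l.divisors, sqi P k) ^ 2 ≤
      if l ∈ sqs P n then (l.divisors.card : ℝ) ^ 2 else 0 := by
    intro l hl
    have hl0 : l ≠ 0 := by have := (mem_Icc.1 hl).1; omega
    split_ifs with h
    · refine pow_le_pow_left₀ (sum_nonneg fun k _ => TauM_sqi_nonneg P k) ?_ 2
      calc ∑ k ∈ l.divisors, sqi P k ≤ ∑ _k ∈ l.divisors, (1:ℝ) :=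
            sum_le_sum fun k _ => TauM_sqi_le P k
        _ = (l.divisors.card : ℝ) := by rw [sum_const, nsmul_eq_mul, mul_one]
    · have h2 : ∑ k ∈ l.divisors, sqi P k = 0 := by
        refine sum_eq_zero fun k hk => ?_
        unfold sqi
        rw [if_neg]
        rintro ⟨p, hp1, hp2, hp3⟩
        refine h ?_
        unfold sqs
        exact mem_filter.2 ⟨hl, p, hp1, hp2, hp3.trans (Nat.dvd_of_mem_divisors hk)⟩
      rw [h2]; norm_num
  refine (sum_le_sum h1).trans ?_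
  have hsub : sqs P n ⊆ Icc 1 n := by
    intro l hl
    unfold sqs at hl
    exact (mem_filter.1 hl).1
  have h3 : ∑ l ∈ Icc 1 n, (if l ∈ sqs P n then (l.divisors.card : ℝ) ^ 2 else 0) =
      ∑ l ∈ sqs P n, (l.divisors.card : ℝ) ^ 2 := by
    rw [← sum_filter]
    congr 1
    ext l
    rw [mem_filter]
    exact ⟨fun h => h.2, fun h => ⟨hsub h, h⟩⟩
  rw [h3]
  have h4 : (∑ l ∈ sqs P n, (l.divisors.card : ℝ) ^ 2) ^ 2 ≤
      ((sqs P n).card : ℝ) * ∑ l ∈ sqs P n, (l.divisors.card : ℝ) ^ 4 := by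
    have h := sq_sum_le_card_mul_sum_sq (s := sqs P n) (f := fun l => (l.divisors.card : ℝ) ^ 2)
    refine h.trans (le_of_eq ?_)
    congr 1
    refine sum_congr rfl fun l _ => ?_
    ring
  have h5 : ∑ l ∈ sqs P n, (l.divisors.card : ℝ) ^ 4 ≤ n * (1 + Real.log n) ^ 16 := by
    refine (sum_le_sum_of_subset_of_nonneg hsub fun l _ _ => by positivity).trans ?_
    have h := tau_pow 4 n
    rw [show (2:ℕ) ^ 4 = 16 by norm_num] at h
    exact h
  have h6 : (∑ l ∈ sqs P n, (l.divisors.card : ℝ) ^ 2) ^ 2 ≤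
      (n * (1 + Real.log n) ^ 8 / Real.sqrt P) ^ 2 := by
    refine h4.trans ?_
    calc ((sqs P n).card : ℝ) * ∑ l ∈ sqs P n, (l.divisors.card : ℝ) ^ 4
        ≤ ((n:ℝ) / P) * (n * (1 + Real.log n) ^ 16) :=
          mul_le_mul (Pool.Agent.H35.W.sq_count P n hP) h5
            (sum_nonneg fun _ _ => by positivity) (by positivity)
      _ = (n * (1 + Real.log n) ^ 8 / Real.sqrt P) ^ 2 := by
          rw [div_pow, Real.sq_sqrt hP'.le]
          ring
  exact le_of_sq_le_sq h6 (by positivity)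

end Pool.Agent.H35.U

end

section

/-!
# U Dual: average over the moduli of a weighted sum over `k`, one residue

`∑_{q ∈ (Q,2Q]} ∑_{k ≤ K} t(k) |g(a+kq)| ≤ ∑_{l ≤ N} |g(a+l)| ∑_{k ∣ l} t(k)` (put `l = k q`; `g(a+l) = 0`
unless `a + l ≤ N`, so `l ≤ N`; for given `l` and `k ∣ l` there is one `q`), then Cauchy-Schwarz and
`∑_{l ≤ N} g(a+l)^2 ≤ S2 g N`.  `tail_avg` = `dual` with `t = tw S m` and `tw_sum`.
`sqs_avg` = `dual` with `t` = indicator of `∃ p > P, p prime, p^2 ∣ k` and `sqs_sum`.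
-/

set_option autoImplicit false

namespace Pool.Agent.H35.U

open Finset
open Pool.Agent.H87.WL (PP PPc Mu Om)
open Pool.Agent.H76.EHB (S2)
open Pool.Agent.H35.W (sqs)

/-- one modulus class: the multiples of `k` -/
private lemma dual_one (g : ℕ → ℝ) (N a Q k : ℕ) (hk : 1 ≤ k) (hg : ∀ n, n ∉ Icc 1 N → g n = 0) :
    ∑ q ∈ Ioc Q (2 * Q), |g (a + k * q)| ≤ ∑ l ∈ (Icc 1 N).filter (fun l => k ∣ l), |g (a + l)| := by
  have h1 : ∑ q ∈ Ioc Q (2 * Q), |g (a + k * q)| =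
      ∑ q ∈ (Ioc Q (2 * Q)).filter (fun q => k * q ≤ N), |g (a + k * q)| := by
    refine (Finset.sum_filter_of_ne ?_).symm
    intro q _ hq
    by_contra hc
    refine hq ?_
    rw [hg (a + k * q) ?_, abs_zero]
    rw [mem_Icc]
    omega
  rw [h1, ← Finset.sum_image (f := fun l => |g (a + l)|) (g := fun q => k * q)]
  · refine Finset.sum_le_sum_of_subset_of_nonneg ?_ (fun _ _ _ => abs_nonneg _)
    intro l hl
    obtain ⟨q, hq, rfl⟩ := Finset.mem_image.1 hl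
    rw [mem_filter, mem_Ioc] at hq
    rw [mem_filter, mem_Icc]
    have : 1 ≤ k * q := Nat.one_le_iff_ne_zero.2 (Nat.mul_ne_zero (by omega) (by omega))
    exact ⟨⟨this, hq.2⟩, dvd_mul_right _ _⟩
  · intro q _ q' _ h
    exact Nat.eq_of_mul_eq_mul_left (by omega : 0 < k) h

/-- the shifted square sum -/
private lemma dual_shift (g : ℕ → ℝ) (N a : ℕ) (hg : ∀ n, n ∉ Icc 1 N → g n = 0) :
    ∑ l ∈ Icc 1 N, |g (a + l)| ^ 2 ≤ S2 g N := by
  have h1 : ∑ l ∈ Icc 1 N, |g (a + l)| ^ 2 =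
      ∑ l ∈ (Icc 1 N).filter (fun l => a + l ≤ N), |g (a + l)| ^ 2 := by
    refine (Finset.sum_filter_of_ne ?_).symm
    intro l _ hl
    by_contra hc
    refine hl ?_
    rw [hg (a + l) ?_]
    · simp
    · rw [mem_Icc]
      omega
  rw [h1, ← Finset.sum_image (f := fun n => |g n| ^ 2) (g := fun l => a + l)]
  · unfold S2
    simp only [sq_abs]
    refine Finset.sum_le_sum_of_subset_of_nonneg ?_ (fun _ _ _ => sq_nonneg _)
    intro n hn
    obtain ⟨l, hl, rfl⟩ := Finset.mem_image.1 hn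
    rw [mem_filter, mem_Icc] at hl
    rw [mem_Icc]
    omega
  · intro q _ q' _ h
    have : a + q = a + q' := h
    omega

theorem dual (g t : ℕ → ℝ) (ht : ∀ k, 0 ≤ t k) (N a Q K : ℕ) (hg : ∀ n, n ∉ Icc 1 N → g n = 0) :
    ∑ q ∈ Ioc Q (2 * Q), ∑ k ∈ Icc 1 K, t k * |g (a + k * q)| ≤
      Real.sqrt (S2 g N * ∑ l ∈ Icc 1 N, (∑ k ∈ l.divisors, t k) ^ 2) := by
  have h1 : ∑ q ∈ Ioc Q (2 * Q), ∑ k ∈ Icc 1 K, t k * |g (a + k * q)| ≤
      ∑ l ∈ Icc 1 N, |g (a + l)| * ∑ k ∈ l.divisors, t k := by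
    rw [Finset.sum_comm]
    calc ∑ k ∈ Icc 1 K, ∑ q ∈ Ioc Q (2 * Q), t k * |g (a + k * q)|
        = ∑ k ∈ Icc 1 K, t k * ∑ q ∈ Ioc Q (2 * Q), |g (a + k * q)| := by
          refine Finset.sum_congr rfl fun k _ => ?_
          rw [Finset.mul_sum]
      _ ≤ ∑ k ∈ Icc 1 K, t k * ∑ l ∈ (Icc 1 N).filter (fun l => k ∣ l), |g (a + l)| := by
          refine Finset.sum_le_sum fun k hk => ?_
          exact mul_le_mul_of_nonneg_left (dual_one g N a Q k (mem_Icc.1 hk).1 hg) (ht k)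
      _ = ∑ l ∈ Icc 1 N, |g (a + l)| * ∑ k ∈ (Icc 1 K).filter (fun k => k ∣ l), t k := by
          simp only [Finset.mul_sum, Finset.sum_filter]
          rw [Finset.sum_comm]
          refine Finset.sum_congr rfl fun l _ => Finset.sum_congr rfl fun k _ => ?_
          split_ifs with h
          · ring
          · simp
      _ ≤ ∑ l ∈ Icc 1 N, |g (a + l)| * ∑ k ∈ l.divisors, t k := by
          refine Finset.sum_le_sum fun l hl => ?_
          refine mul_le_mul_of_nonneg_left ?_ (abs_nonneg _)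
          refine Finset.sum_le_sum_of_subset_of_nonneg ?_ (fun k _ _ => ht k)
          intro k hk
          rw [mem_filter] at hk
          rw [Nat.mem_divisors]
          have := (mem_Icc.1 hl).1
          exact ⟨hk.2, by omega⟩
  refine h1.trans ?_
  refine Real.le_sqrt_of_sq_le ?_
  refine (Finset.sum_mul_sq_le_sq_mul_sq _ _ _).trans ?_
  refine mul_le_mul_of_nonneg_right (dual_shift g N a hg) ?_
  exact Finset.sum_nonneg fun _ _ => sq_nonneg _

private lemma S2_nn (g : ℕ → ℝ) (N : ℕ) : 0 ≤ S2 g N := by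
  unfold S2
  exact Finset.sum_nonneg fun _ _ => sq_nonneg _

theorem tail_avg (S : Finset ℕ) (hS : ∀ p ∈ S, p.Prime) (m : ℕ) (g : ℕ → ℝ) (N a Q K : ℕ)
    (hg : ∀ n, n ∉ Icc 1 N → g n = 0) :
    ∑ q ∈ Ioc Q (2 * Q), ∑ k ∈ Icc 1 K, tw S m k * |g (a + k * q)| ≤
      Real.sqrt (S2 g N * (N * (1 + Real.log N) ^ 64 / 4 ^ m)) := by
  refine (dual g (tw S m) (tw_nonneg S m) N a Q K hg).trans ?_
  exact Real.sqrt_le_sqrt (mul_le_mul_of_nonneg_left (tw_sum S hS m N) (S2_nn g N))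

theorem sqs_avg (P : ℕ) (hP : 1 ≤ P) (g : ℕ → ℝ) (N a Q K : ℕ)
    (hg : ∀ n, n ∉ Icc 1 N → g n = 0) :
    ∑ q ∈ Ioc Q (2 * Q), ∑ k ∈ sqs P K, |g (a + k * q)| ≤
      Real.sqrt (S2 g N * (N * (1 + Real.log N) ^ 8 / Real.sqrt P)) := by
  have h0 : ∀ k, 0 ≤ sqi P k := by
    intro k
    unfold sqi
    split_ifs <;> norm_num
  have h1 : ∀ q, ∑ k ∈ sqs P K, |g (a + k * q)| = ∑ k ∈ Icc 1 K, sqi P k * |g (a + k * q)| := by
    intro q
    unfold sqs sqi
    rw [Finset.sum_filter]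
    refine Finset.sum_congr rfl fun k _ => ?_
    split_ifs <;> simp
  simp only [h1]
  refine (dual g (sqi P) h0 N a Q K hg).trans ?_
  exact Real.sqrt_le_sqrt (mul_le_mul_of_nonneg_left (sqs_sum P N hP) (S2_nn g N))

end Pool.Agent.H35.U

end

section

/-!
# U FacR: the factorable `k`

As `TB_fac` in `W.TB1` with a general power of `L`.  For each `a`, `q`: `ramare` with `F k = g (a + k q)`
(`F k = 0` for `k > K`: `a + k q ≥ (K+1)(Q+1) > x ≥ N`).  First part: `fac_sum` for `P 2^i`: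
`sqrt(H (x/P0) (L+1)³ · H x P0/L^(2c+5)) ≤ H x sqrt(8 L³/L^(2c+5)) ≤ 3 H x/L^(c+1)`, `J` values of `i`.
Second part: `sqs_avg` for each `a`, summed over the `H` values of `a`.
-/

set_option autoImplicit false

namespace Pool.Agent.H35.U

open Finset
open Pool.Agent.H76.EHB (S2)
open Pool.Agent.H35.W (pb Rk rgh fcs sqs)

theorem fac_blk (g : ℕ → ℝ) (x N a0 H Q K P J c : ℕ) (L : ℝ) (hL : L = Real.log x) (hL1 : 1 ≤ L)
    (hP : 1 ≤ P) (hKx : x < (K + 1) * (Q + 1)) (hNx : N ≤ x) (hg : ∀ n, n ∉ Icc 1 N → g n = 0)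
    (hV : ∀ i, i < J → ∑ m ∈ Icc 1 (x / (P * 2 ^ i)), ∑ a ∈ Ioc a0 (a0 + H),
      (∑ p ∈ pb (P * 2 ^ i), g (a + p * m)) ^ 2 ≤ H * x * ((P * 2 ^ i : ℕ) : ℝ) / L ^ (2 * c + 5)) :
    ∑ q ∈ Ioc Q (2 * Q), ∑ a ∈ Ioc a0 (a0 + H), |∑ k ∈ fcs P J K, g (a + k * q)|
      ≤ J * (3 * H * x / L ^ (c + 1)) + H * (Nat.log 2 K *
        Real.sqrt (S2 g N * (N * (1 + Real.log N) ^ 8 / Real.sqrt P))) := by
  have hg' : ∀ n, x < n → g n = 0 := fun n hn => hg n (by rw [mem_Icc]; omega)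
  have hR : ∀ q ∈ Ioc Q (2 * Q), ∀ a ∈ Ioc a0 (a0 + H), |∑ k ∈ fcs P J K, g (a + k * q)| ≤
      ∑ i ∈ range J, ∑ k ∈ Icc 1 K, |∑ p ∈ pb (P * 2 ^ i), g (a + (p * k) * q)|
        + Nat.log 2 K * ∑ k ∈ sqs P K, |g (a + k * q)| := by
    intro q hq a _
    rw [mem_Ioc] at hq
    refine Pool.Agent.H35.W.ramare P J K hP (fun k => g (a + k * q)) ?_
    intro k hk
    refine hg' _ ?_
    have h1 : (K + 1) * (Q + 1) ≤ k * q := Nat.mul_le_mul hk hq.1
    omega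
  have h1 : ∑ q ∈ Ioc Q (2 * Q), ∑ a ∈ Ioc a0 (a0 + H), |∑ k ∈ fcs P J K, g (a + k * q)| ≤
      ∑ i ∈ range J, (∑ q ∈ Ioc Q (2 * Q), ∑ a ∈ Ioc a0 (a0 + H), ∑ k ∈ Icc 1 K,
        |∑ p ∈ pb (P * 2 ^ i), g (a + (p * k) * q)|)
      + Nat.log 2 K * (∑ q ∈ Ioc Q (2 * Q), ∑ a ∈ Ioc a0 (a0 + H), ∑ k ∈ sqs P K,
        |g (a + k * q)|) := by
    refine (sum_le_sum fun q hq => sum_le_sum fun a ha => hR q hq a ha).trans (le_of_eq ?_)
    simp only [sum_add_distrib, ← mul_sum]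
    congr 1
    rw [sum_comm' (s := Ioc Q (2 * Q)) (t := fun _ => Ioc a0 (a0 + H))
      (t' := Ioc a0 (a0 + H)) (s' := fun _ => Ioc Q (2 * Q)) (by intro q a; tauto)]
    simp only [sum_comm (t := range J)]
    refine sum_congr rfl fun i _ => ?_
    rw [sum_comm]
  refine h1.trans (add_le_add ?_ ?_)
  · have h2 : ∀ i ∈ range J, (∑ q ∈ Ioc Q (2 * Q), ∑ a ∈ Ioc a0 (a0 + H), ∑ k ∈ Icc 1 K,
        |∑ p ∈ pb (P * 2 ^ i), g (a + (p * k) * q)|) ≤ 3 * H * x / L ^ (c + 1) := by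
      intro i hi
      rw [mem_range] at hi
      have hPi : 1 ≤ P * 2 ^ i := Nat.one_le_iff_ne_zero.mpr (by positivity)
      have hPi0 : (0 : ℝ) < ((P * 2 ^ i : ℕ) : ℝ) := by exact_mod_cast hPi
      refine (Pool.Agent.H35.W.fac_sum g x (P * 2 ^ i) a0 H Q K hPi hg' _ (hV i hi)).trans ?_
      rw [← hL]
      have e : (H : ℝ) * ((x : ℝ) / ((P * 2 ^ i : ℕ) : ℝ) * (L + 1) ^ 3) *
          (H * x * ((P * 2 ^ i : ℕ) : ℝ) / L ^ (2 * c + 5)) =
            (H * x) ^ 2 * ((L + 1) ^ 3 / L ^ (2 * c + 5)) := by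
        field_simp
      rw [e]
      refine Real.sqrt_le_iff.mpr ⟨by positivity, ?_⟩
      have e2 : (3 * (H : ℝ) * x / L ^ (c + 1)) ^ 2 = (H * x) ^ 2 * (9 / L ^ (2 * c + 2)) := by
        rw [div_pow, ← pow_mul, show (c + 1) * 2 = 2 * c + 2 by ring]
        ring
      rw [e2]
      refine mul_le_mul_of_nonneg_left ?_ (by positivity)
      have hL0 : 0 < L := by linarith
      rw [div_le_div_iff₀ (by positivity) (by positivity)]
      have h3 : (L + 1) ^ 3 ≤ (2 * L) ^ 3 := by gcongr; linarith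
      have h4 : (L + 1) ^ 3 * L ^ (2 * c + 2) ≤ (2 * L) ^ 3 * L ^ (2 * c + 2) := by gcongr
      have h5 : (2 * L) ^ 3 * L ^ (2 * c + 2) = 8 * L ^ (2 * c + 5) := by ring
      have h6 : 0 ≤ L ^ (2 * c + 5) := by positivity
      linarith
    refine (sum_le_sum h2).trans (le_of_eq ?_)
    rw [sum_const, card_range, nsmul_eq_mul]
  · rw [sum_comm]
    have h3 : ∑ a ∈ Ioc a0 (a0 + H), ∑ q ∈ Ioc Q (2 * Q), ∑ k ∈ sqs P K, |g (a + k * q)| ≤
        H * Real.sqrt (S2 g N * (N * (1 + Real.log N) ^ 8 / Real.sqrt P)) := by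
      refine (sum_le_sum fun a _ => sqs_avg P hP g N a Q K hg).trans (le_of_eq ?_)
      rw [sum_const, Nat.card_Ioc, nsmul_eq_mul, Nat.add_sub_cancel_left]
    calc (Nat.log 2 K : ℝ) * ∑ a ∈ Ioc a0 (a0 + H), ∑ q ∈ Ioc Q (2 * Q), ∑ k ∈ sqs P K,
          |g (a + k * q)|
        ≤ Nat.log 2 K * (H * Real.sqrt (S2 g N * (N * (1 + Real.log N) ^ 8 / Real.sqrt P))) :=
          mul_le_mul_of_nonneg_left h3 (Nat.cast_nonneg _)
      _ = _ := by ring

end Pool.Agent.H35.U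

end

section

/-!
# W KSap: sums of `(n + β)^{it}` twisted by a periodic function

Proof.  Let `δ1, C` be the constants of `ks1 (kap / 2)`.  Split the sum over `n ∈ (a, b]` into the classes
`n = l + d n'`, `0 ≤ l < d`; `ψ(n) = ψ(l)` (periodicity), `log(n + β) = log d + log(n' + (l+β)/d)` for `n ≥ 1`,
so the class contributes at most `|∑_{a' < n' ≤ b'} ee(t log(n' + (l+β)/d))|` with `(l+β)/d ∈ [0,1]`,
`b' ≤ K/d`.  (For `n' = 0`, `l > 0` treat the term `n = l` separately: one term of size `≤ 1`, or let the interval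
in `ks1` start at `a' + 1` and add the term.)  Apply `ks1` with `K' = K / d + 1` (natural division), `K' ≥ x^{kap/2}`
as `d^4 ≤ K`.  The sum over `l` is `≤ d (2 + C K' (1/|t| + x^{-δ1})) ≤ 4 C K (1/|t| + x^{-δ})` with
`δ = min δ1 (kap/4)`-like (`d ≤ K^{1/4}`, so `d ≤ K · K^{-3/4}`).  For large `x`: `4 C ≤ log x`.
-/

set_option autoImplicit false

namespace Pool.Agent.H35.W

open Finset
open Pool.Agent.H91.PK (ee)

private lemma ksap_ee_norm (r : ℝ) : ‖ee r‖ = 1 := by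
  have : (2 * Real.pi * r * Complex.I : ℂ) = ((2 * Real.pi * r : ℝ) : ℂ) * Complex.I := by
    push_cast; ring
  rw [ee, this, Complex.norm_exp_ofReal_mul_I]

private lemma ksap_ee_add (r s : ℝ) : ee (r + s) = ee r * ee s := by
  rw [ee, ee, ee, ← Complex.exp_add]
  congr 1
  push_cast
  ring

private lemma ksap_per (ψ : ℕ → ℂ) (d : ℕ) (h : ∀ n, ψ (n + d) = ψ n) (l k : ℕ) :
    ψ (l + d * k) = ψ l := by
  induction k with
  | zero => simp
  | succ k ih => rw [mul_add, mul_one, ← add_assoc, h, ih]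

/-- one residue class -/
private lemma ksap_class (f : ℕ → ℂ) (hf : ∀ n, ‖f n‖ ≤ 1) (B : ℝ) (K' a b d l : ℕ) (hd : 1 ≤ d)
    (hb : b / d ≤ K') (hB : ∀ a' b' : ℕ, b' ≤ K' → ‖∑ n ∈ Ioc a' b', f n‖ ≤ B) :
    ‖∑ k ∈ (range (b + 1)).filter (fun k => a < l + d * k ∧ l + d * k ≤ b), f k‖ ≤ 1 + B := by
  set T := (range (b + 1)).filter (fun k => a < l + d * k ∧ l + d * k ≤ b) with hT
  have e : T.erase 0 = Ioc ((a - l) / d) ((b - l) / d) := by
    ext k
    simp only [hT, mem_erase, mem_filter, mem_range, mem_Ioc]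
    rw [Nat.div_lt_iff_lt_mul (by omega), Nat.le_div_iff_mul_le (by omega)]
    constructor
    · rintro ⟨h0, h1, h2, h3⟩
      rw [mul_comm d k] at h2 h3
      have : 1 ≤ k * d := Nat.mul_pos (by omega) (by omega)
      omega
    · rintro ⟨h1, h2⟩
      have hk : k ≠ 0 := by rintro rfl; simp at h1
      have h3 : k ≤ k * d := Nat.le_mul_of_pos_right k (by omega)
      have : 1 ≤ k * d := Nat.mul_pos (by omega) (by omega)
      rw [mul_comm d k]
      omega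
  have h1 : ‖∑ k ∈ T.erase 0, f k‖ ≤ B := by
    rw [e]
    exact hB _ _ ((Nat.div_le_div_right (Nat.sub_le _ _)).trans hb)
  by_cases h0 : 0 ∈ T
  · rw [← add_sum_erase _ _ h0]
    exact (norm_add_le _ _).trans (add_le_add (hf 0) h1)
  · rw [erase_eq_of_notMem h0] at h1
    linarith only [h1]

private lemma ksap_real (K d : ℕ) (y : ℝ) (hy : 4 ≤ y) (hK : y ^ 2 ≤ K) (hd : 1 ≤ d)
    (hdK : d ^ 4 ≤ K) : y ≤ ((K / d : ℕ) : ℝ) := by
  by_contra hlt
  push Not at hlt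
  have hd0 : (1 : ℝ) ≤ d := by exact_mod_cast hd
  have h1 : (K : ℝ) < d * (y + 1) := by
    have h2 : K < d * (K / d + 1) := Nat.lt_mul_div_succ K (by omega)
    have h3 : (K : ℝ) < (d : ℝ) * (((K / d : ℕ) : ℝ) + 1) := by exact_mod_cast h2
    refine h3.trans_le ?_
    gcongr
  have hKp : (16 : ℝ) ≤ K := by nlinarith only [hy, hK]
  have h4 : ((d : ℝ)) ^ 4 ≤ K := by exact_mod_cast hdK
  have h5 : (K : ℝ) ^ 4 < (d * (y + 1)) ^ 4 := pow_lt_pow_left₀ h1 (by linarith only [hKp]) (by norm_num)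
  have h6 : ((d : ℝ) * (y + 1)) ^ 4 ≤ K * (y + 1) ^ 4 := by
    rw [mul_pow]; gcongr
  have h7 : (y + 1) ^ 4 ≤ (2 * y) ^ 4 := pow_le_pow_left₀ (by linarith only [hy]) (by linarith) 4
  have h8 : (2 * y) ^ 4 ≤ 16 * (K : ℝ) ^ 2 := by
    have : y ^ 4 ≤ (K : ℝ) ^ 2 := by
      calc y ^ 4 = (y ^ 2) ^ 2 := by ring
        _ ≤ (K : ℝ) ^ 2 := pow_le_pow_left₀ (by positivity) hK 2
    calc (2 * y) ^ 4 = 16 * y ^ 4 := by ring
      _ ≤ 16 * (K : ℝ) ^ 2 := by linarith only [this]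
  have h9 : (K : ℝ) ^ 4 < K * (16 * (K : ℝ) ^ 2) :=
    h5.trans_le (h6.trans (mul_le_mul_of_nonneg_left (h7.trans h8) (by linarith only [hKp])))
  have h10 : (K : ℝ) * (16 * (K : ℝ) ^ 2) ≤ (K : ℝ) ^ 4 := by
    have : (K : ℝ) ^ 4 = K * (K * (K : ℝ) ^ 2) := by ring
    rw [this]
    gcongr
  linarith only [h9, h10]

theorem ksap (kap : ℝ) (hkap : 0 < kap) : ∃ δ : ℝ, 0 < δ ∧ δ ≤ 1 ∧ ∃ x0 : ℕ,
    ∀ x : ℕ, x0 ≤ x → ∀ (K d a b : ℕ) (ψ : ℕ → ℂ) (β t : ℝ), (x : ℝ) ^ kap ≤ K → K ≤ x → 1 ≤ d →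
      d ^ 4 ≤ K → (∀ n, ψ (n + d) = ψ n) → (∀ n, ‖ψ n‖ ≤ 1) → b ≤ K → 0 ≤ β → β ≤ 1 →
      1 ≤ |t| → |t| ≤ (x : ℝ) ^ (3 : ℕ) →
      ‖∑ n ∈ Ioc a b, ψ n * ee (t * Real.log (n + β))‖
        ≤ K * Real.log x * (1 / |t| + (x : ℝ) ^ (-δ)) := by
  obtain ⟨δ1, C, hδ1, hδ1', hC, x1, hx1⟩ := ks1 (kap / 2) (by linarith)
  have ev1 : ∀ᶠ x : ℕ in Filter.atTop, (4 : ℝ) ≤ (x : ℝ) ^ (kap / 2) :=
    ((tendsto_rpow_atTop (by linarith : 0 < kap / 2)).comp
      tendsto_natCast_atTop_atTop).eventually_ge_atTop 4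
  have ev2 : ∀ᶠ x : ℕ in Filter.atTop, C + 1 ≤ Real.log x :=
    (Real.tendsto_log_atTop.comp tendsto_natCast_atTop_atTop).eventually_ge_atTop (C + 1)
  obtain ⟨x2, hx2⟩ := Filter.eventually_atTop.1 ev1
  obtain ⟨x3, hx3⟩ := Filter.eventually_atTop.1 ev2
  refine ⟨min δ1 (kap / 2), lt_min hδ1 (by linarith), (min_le_left _ _).trans hδ1',
    max (max x1 x2) (max x3 1), ?_⟩
  intro x hx K d a b ψ β t hK hKx hd hdK hper hψ hb hβ0 hβ1 ht1 ht2
  have hxa : x1 ≤ x := (le_max_left _ _).trans ((le_max_left _ _).trans hx)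
  have hxb : x2 ≤ x := (le_max_right _ _).trans ((le_max_left _ _).trans hx)
  have hxc : x3 ≤ x := (le_max_left _ _).trans ((le_max_right _ _).trans hx)
  have hxd : 1 ≤ x := (le_max_right _ _).trans ((le_max_right _ _).trans hx)
  have hxr : (1 : ℝ) ≤ x := by exact_mod_cast hxd
  have hdr : (1 : ℝ) ≤ d := by exact_mod_cast hd
  have hd0 : (d : ℝ) ≠ 0 := by positivity
  have hlog := hx3 x hxc
  have hy := hx2 x hxb
  set y : ℝ := (x : ℝ) ^ (kap / 2) with hydef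
  have hyK : y ^ 2 ≤ K := by
    refine le_trans (le_of_eq ?_) hK
    rw [hydef, ← Real.rpow_natCast, ← Real.rpow_mul (by linarith only [hxr])]
    congr 1
    push_cast
    ring
  have hK' : y ≤ ((K / d : ℕ) : ℝ) := ksap_real K d y hy hyK hd hdK
  have hdKK : (d : ℝ) * ((K / d : ℕ) : ℝ) ≤ K := by exact_mod_cast Nat.mul_div_le K d
  have hK'x : K / d ≤ x := (Nat.div_le_self K d).trans hKx
  set B : ℝ := C * ((K / d : ℕ) : ℝ) * (1 / |t| + (x : ℝ) ^ (-δ1)) with hBdef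
  -- the sum over a class
  have hcl : ∀ l ∈ range d, ‖∑ n ∈ (Ioc a b).filter (fun n => n % d = l),
      ψ n * ee (t * Real.log (n + β))‖ ≤ 1 + B := by
    intro l hl
    have hl1 := mem_range.1 hl
    have e1 : (Ioc a b).filter (fun n => n % d = l)
        = ((range (b + 1)).filter (fun k => a < l + d * k ∧ l + d * k ≤ b)).image
          (fun k => l + d * k) := by
      ext n
      simp only [mem_filter, mem_Ioc, mem_image, mem_range]
      constructor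
      · rintro ⟨⟨h1, h2⟩, h3⟩
        have h4 : n % d + d * (n / d) = n := Nat.mod_add_div n d
        have h5 : n / d ≤ n := Nat.div_le_self n d
        refine ⟨n / d, ⟨by omega, ?_, ?_⟩, ?_⟩ <;> rw [← h3, h4] <;> assumption
      · rintro ⟨k, ⟨h1, h2, h3⟩, rfl⟩
        exact ⟨⟨h2, h3⟩, by rw [Nat.add_mul_mod_self_left, Nat.mod_eq_of_lt hl1]⟩
    have hinj : Set.InjOn (fun k => l + d * k)
        ((range (b + 1)).filter (fun k => a < l + d * k ∧ l + d * k ≤ b) : Finset ℕ) := by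
      intro u _ v _ huv
      have : d * u = d * v := by simpa using huv
      exact Nat.eq_of_mul_eq_mul_left (by omega) this
    rw [e1, sum_image hinj]
    have hβl0 : 0 ≤ ((l : ℝ) + β) / d := by positivity
    have hβl1 : ((l : ℝ) + β) / d ≤ 1 := by
      rw [div_le_one (by linarith only [hdr])]
      have : ((l + 1 : ℕ) : ℝ) ≤ d := by exact_mod_cast hl1
      push_cast at this
      linarith only [hβ1, this]
    have e2 : ∑ k ∈ (range (b + 1)).filter (fun k => a < l + d * k ∧ l + d * k ≤ b),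
        ψ (l + d * k) * ee (t * Real.log (((l + d * k : ℕ) : ℝ) + β))
        = (ψ l * ee (t * Real.log d)) *
          ∑ k ∈ (range (b + 1)).filter (fun k => a < l + d * k ∧ l + d * k ≤ b),
            ee (t * Real.log ((k : ℝ) + ((l : ℝ) + β) / d)) := by
      rw [mul_sum]
      apply sum_congr rfl
      intro k hk
      have hk1 := (mem_filter.1 hk).2.1
      have hpos : (0 : ℝ) < l + d * k := by
        have : 0 < l + d * k := by omega
        exact_mod_cast this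
      have h1 : (((l + d * k : ℕ) : ℝ) + β) = d * ((k : ℝ) + ((l : ℝ) + β) / d) := by
        push_cast
        field_simp
        ring
      have h2 : 0 < (k : ℝ) + ((l : ℝ) + β) / d := by
        have h3 : (k : ℝ) + ((l : ℝ) + β) / d = (l + d * k + β) / d := by
          field_simp
          ring
        rw [h3]
        apply div_pos _ (by linarith only [hdr])
        linarith only [hβ0, hpos]
      rw [ksap_per ψ d hper, h1, Real.log_mul hd0 h2.ne', mul_add, ksap_ee_add]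
      ring
    rw [e2, norm_mul, norm_mul, ksap_ee_norm, mul_one]
    have h3 := ksap_class (fun k => ee (t * Real.log ((k : ℝ) + ((l : ℝ) + β) / d)))
      (fun n => (ksap_ee_norm _).le) B (K / d) a b d l hd (Nat.div_le_div_right hb)
      (fun a' b' hb' => hx1 x hxa (K / d) a' b' (((l : ℝ) + β) / d) t hK' hK'x hb' hβl0 hβl1
        ht1 ht2)
    calc ‖ψ l‖ * _ ≤ 1 * (1 + B) := mul_le_mul (hψ l) h3 (norm_nonneg _) zero_le_one
      _ = 1 + B := one_mul _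
  have e3 : ∑ n ∈ Ioc a b, ψ n * ee (t * Real.log (n + β))
      = ∑ l ∈ range d, ∑ n ∈ (Ioc a b).filter (fun n => n % d = l),
        ψ n * ee (t * Real.log (n + β)) := by
    rw [sum_fiberwise_of_maps_to]
    intro n _
    exact mem_range.2 (Nat.mod_lt n (by omega))
  rw [e3]
  refine (norm_sum_le _ _).trans ((sum_le_sum hcl).trans ?_)
  rw [sum_const, card_range, nsmul_eq_mul]
  have htp : 0 < |t| := by linarith only [ht1]
  have hmin1 : (x : ℝ) ^ (-δ1) ≤ (x : ℝ) ^ (-(min δ1 (kap / 2))) :=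
    Real.rpow_le_rpow_of_exponent_le hxr (neg_le_neg (min_le_left _ _))
  have hmin2 : (x : ℝ) ^ (-(kap / 2)) ≤ (x : ℝ) ^ (-(min δ1 (kap / 2))) :=
    Real.rpow_le_rpow_of_exponent_le hxr (neg_le_neg (min_le_right _ _))
  set Z : ℝ := (x : ℝ) ^ (-(min δ1 (kap / 2))) with hZ
  have hZ0 : 0 ≤ Z := by positivity
  have hdZ : (d : ℝ) ≤ K * Z := by
    have h1 : (d : ℝ) * y ≤ K := (mul_le_mul_of_nonneg_left hK' (by linarith only [hdr])).trans hdKK
    have h2 : (x : ℝ) ^ (-(kap / 2)) * y = 1 := by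
      rw [hydef, ← Real.rpow_add (by linarith only [hxr])]; simp
    calc (d : ℝ) = (d * y) * (x : ℝ) ^ (-(kap / 2)) := by
          rw [mul_assoc, mul_comm y, h2, mul_one]
      _ ≤ K * Z := by
          apply mul_le_mul h1 hmin2 (by positivity) (Nat.cast_nonneg _)
  have hB2 : (d : ℝ) * B ≤ C * K * (1 / |t| + Z) := by
    calc (d : ℝ) * B = C * (d * ((K / d : ℕ) : ℝ)) * (1 / |t| + (x : ℝ) ^ (-δ1)) := by
          rw [hBdef]; ring
      _ ≤ C * K * (1 / |t| + Z) := by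
          gcongr
  have hKn : (0 : ℝ) ≤ K := Nat.cast_nonneg _
  have htn : 0 ≤ 1 / |t| := by positivity
  calc (d : ℝ) * (1 + B) = d + d * B := by ring
    _ ≤ K * Z + C * K * (1 / |t| + Z) := add_le_add hdZ hB2
    _ ≤ (C + 1) * (K * (1 / |t| + Z)) := by nlinarith only [hKn, htn, mul_nonneg hKn htn]
    _ ≤ Real.log x * (K * (1 / |t| + Z)) := by
        apply mul_le_mul_of_nonneg_right hlog (by positivity)
    _ = K * Real.log x * (1 / |t| + Z) := by ring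

end Pool.Agent.H35.W

end

section

/-!
# W KV: the test functions are small on progressions modulo `q`

Proof.  Write `n = a + k q`; `n > M ≥ a0 + H ≥ a` gives `k ≥ 1`, and `k ≤ (y - a)/q ≤ x/q`.  With
`β = (a - a0)/q ∈ [0, 1]` (`a - a0 ≤ H ≤ q`) one has `n - a0 = q (k + β)`,
`ee(n b/d + t log(n-a0)) = (factor of modulus 1) · ψ(k) ee(t log(k + β))`, `ψ(k) = ee(k q b/d)` of period `d`.
The `k` run over an interval `(k1, k2]`, `k2 ≤ K := x / q` (natural division).  Use `ksap (kap/2)`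
(`K ≥ x^kap - 1 ≥ x^{kap/2}`, `d^4 ≤ K` for large `x`).  (VERSION 2: for a single modulus `q`, no dyadic block.)
-/

set_option autoImplicit false

namespace Pool.Agent.H35.W

open Finset
open Pool.Agent.H91.PK (ee)

private theorem KV_large (kap : ℝ) (hkap : 0 < kap) (B : ℕ) : ∃ x2 : ℕ, ∀ x : ℕ, x2 ≤ x →
    (x : ℝ) ^ (kap / 2) ≤ (x : ℝ) ^ kap - 1 ∧ Real.log x ^ (4 * B) ≤ (x : ℝ) ^ (kap / 2) := by
  have h0 : Filter.Tendsto (fun x : ℕ => (x : ℝ) ^ (kap / 2)) Filter.atTop Filter.atTop :=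
    (tendsto_rpow_atTop (by linarith)).comp tendsto_natCast_atTop_atTop
  have h1 : ∀ᶠ x : ℕ in Filter.atTop, (x : ℝ) ^ (kap / 2) ≤ (x : ℝ) ^ kap - 1 := by
    filter_upwards [h0.eventually_ge_atTop 2] with x hx
    have h2 : (x : ℝ) ^ kap = (x : ℝ) ^ (kap / 2) * (x : ℝ) ^ (kap / 2) := by
      rcases Nat.eq_zero_or_pos x with h3 | h3
      · rw [h3] at hx
        rw [Nat.cast_zero, Real.zero_rpow (by linarith)] at hx
        linarith
      · rw [← Real.rpow_add (by exact_mod_cast h3)]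
        congr 1
        ring
    rw [h2]
    nlinarith
  have h2 : ∀ᶠ x : ℕ in Filter.atTop, Real.log x ^ (4 * B) ≤ (x : ℝ) ^ (kap / 2) := by
    have h3 := (isLittleO_log_rpow_rpow_atTop ((4 * B : ℕ) : ℝ)
      (show (0 : ℝ) < kap / 2 by linarith)).bound (show (0 : ℝ) < 1 by norm_num)
    have h4 := tendsto_natCast_atTop_atTop.eventually h3
    filter_upwards [h4] with x hx
    rw [one_mul, Real.rpow_natCast] at hx
    rw [Real.norm_of_nonneg (Real.rpow_nonneg (Nat.cast_nonneg x) _)] at hx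
    exact (le_abs_self _).trans hx
  obtain ⟨x2, hx2⟩ := Filter.eventually_atTop.1 (h1.and h2)
  exact ⟨x2, hx2⟩

private theorem KV_sum (M y a q : ℕ) (F : ℕ → ℂ) (hq : 1 ≤ q) (ha : a ≤ M) :
    ∑ n ∈ (Ioc M y).filter (fun n => n ≡ a [MOD q]), F n =
      ∑ k ∈ Ioc ((M - a) / q) ((y - a) / q), F (a + k * q) := by
  refine Finset.sum_nbij' (fun n => (n - a) / q) (fun k => a + k * q) ?_ ?_ ?_ ?_ ?_
  · intro n hn
    rw [mem_filter, mem_Ioc] at hn
    obtain ⟨⟨h1, h2⟩, h3⟩ := hn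
    obtain ⟨k, hk⟩ := (Nat.modEq_iff_dvd' (show a ≤ n by omega)).1 h3.symm
    rw [hk, Nat.mul_div_cancel_left k hq, mem_Ioc, Nat.div_lt_iff_lt_mul hq,
      Nat.le_div_iff_mul_le hq, mul_comm k q]
    omega
  · intro k hk
    rw [mem_Ioc, Nat.div_lt_iff_lt_mul hq, Nat.le_div_iff_mul_le hq] at hk
    rw [mem_filter, mem_Ioc]
    refine ⟨by omega, ?_⟩
    unfold Nat.ModEq
    rw [Nat.add_mul_mod_self_right]
  · intro n hn
    rw [mem_filter, mem_Ioc] at hn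
    obtain ⟨⟨h1, h2⟩, h3⟩ := hn
    obtain ⟨k, hk⟩ := (Nat.modEq_iff_dvd' (show a ≤ n by omega)).1 h3.symm
    rw [hk, Nat.mul_div_cancel_left k hq, mul_comm k q]
    omega
  · intro k _
    rw [Nat.add_sub_cancel_left, Nat.mul_div_cancel k hq]
  · intro n hn
    rw [mem_filter, mem_Ioc] at hn
    obtain ⟨⟨h1, h2⟩, h3⟩ := hn
    obtain ⟨k, hk⟩ := (Nat.modEq_iff_dvd' (show a ≤ n by omega)).1 h3.symm
    congr 1
    rw [hk, Nat.mul_div_cancel_left k hq, mul_comm k q]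
    omega

theorem kv (kap : ℝ) (hkap : 0 < kap) (B : ℕ) : ∃ δ : ℝ, 0 < δ ∧ δ ≤ 1 ∧ ∃ x0 : ℕ,
    ∀ x : ℕ, x0 ≤ x → ∀ (a0 M y a q H d : ℕ) (b : ℤ) (t : ℝ), 1 ≤ q → a ∈ Ioc a0 (a0 + H) →
      H ≤ q → a0 + H ≤ M → y ≤ x → (q : ℝ) ≤ (x : ℝ) ^ (1 - kap) → 1 ≤ d →
      (d : ℝ) ≤ Real.log x ^ B → 1 ≤ |t| → |t| ≤ (x : ℝ) ^ (3 : ℕ) →
      ‖∑ n ∈ (Ioc M y).filter (fun n => n ≡ a [MOD q]),
          ee (n * ((b : ℝ) / d) + t * Real.log ((n : ℝ) - a0))‖
        ≤ x / q * Real.log x * (1 / |t| + (x : ℝ) ^ (-δ)) := by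
  obtain ⟨δ, hδ, hδ1, x1, hk⟩ := ksap (kap / 2) (by linarith)
  obtain ⟨x2, hx2⟩ := KV_large kap hkap B
  refine ⟨δ, hδ, hδ1, max 3 (max x1 x2), ?_⟩
  intro x hx a0 M y a q H d b t hq ha hHq hM hy hqx hd hdB ht1 ht2
  have hx3 : 3 ≤ x := le_trans (le_max_left _ _) hx
  have hxx1 : x1 ≤ x := le_trans (le_trans (le_max_left _ _) (le_max_right _ _)) hx
  have hxx2 : x2 ≤ x := le_trans (le_trans (le_max_right _ _) (le_max_right _ _)) hx
  obtain ⟨hL1, hL2⟩ := hx2 x hxx2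
  rw [mem_Ioc] at ha
  have hxR : (0 : ℝ) < x := by
    have : 0 < x := by omega
    exact_mod_cast this
  have hqR : (0 : ℝ) < q := by
    have : 0 < q := by omega
    exact_mod_cast this
  have hdR : (0 : ℝ) < d := by
    have : 0 < d := by omega
    exact_mod_cast this
  have hlog : 0 ≤ Real.log x := Real.log_natCast_nonneg x
  -- the bound for `K`
  have hKge : (x : ℝ) ^ (kap / 2) ≤ ((x / q : ℕ) : ℝ) := by
    have h1 : (x : ℝ) / q < ((x / q : ℕ) : ℝ) + 1 := by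
      rw [div_lt_iff₀ hqR]
      have := Nat.lt_div_mul_add (a := x) (b := q) (by omega)
      have h2 : (x : ℝ) < ((x / q : ℕ) : ℝ) * q + q := by exact_mod_cast this
      linarith
    have h2 : (x : ℝ) ^ kap ≤ (x : ℝ) / q := by
      rw [le_div_iff₀ hqR]
      calc (x : ℝ) ^ kap * q ≤ (x : ℝ) ^ kap * (x : ℝ) ^ (1 - kap) :=
            mul_le_mul_of_nonneg_left hqx (Real.rpow_nonneg hxR.le _)
        _ = x := by
            rw [← Real.rpow_add hxR, show kap + (1 - kap) = 1 by ring, Real.rpow_one]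
    linarith
  have hd4 : d ^ 4 ≤ x / q := by
    have h1 : (d : ℝ) ^ 4 ≤ ((x / q : ℕ) : ℝ) := by
      refine le_trans ?_ (hL2.trans hKge)
      rw [mul_comm 4 B, pow_mul]
      exact pow_le_pow_left₀ hdR.le hdB 4
    exact_mod_cast h1
  set β : ℝ := ((a : ℝ) - a0) / q with hβ
  have haR : (a0 : ℝ) < a := by exact_mod_cast ha.1
  have hβ0 : 0 ≤ β := div_nonneg (by linarith) hqR.le
  have hβ1 : β ≤ 1 := by
    rw [hβ, div_le_one hqR]
    have h1 : (a : ℝ) ≤ a0 + H := by exact_mod_cast ha.2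
    have h2 : (H : ℝ) ≤ q := by exact_mod_cast hHq
    linarith
  have hk2 : (y - a) / q ≤ x / q := Nat.div_le_div_right (by omega)
  have hψ1 : ∀ n : ℕ, ee ((((n + d : ℕ) : ℝ)) * (q * ((b : ℝ) / d))) =
      ee ((n : ℝ) * (q * ((b : ℝ) / d))) := by
    intro n
    have h1 : (((n + d : ℕ) : ℝ)) * (q * ((b : ℝ) / d)) =
        (n : ℝ) * (q * ((b : ℝ) / d)) + (((q : ℤ) * b : ℤ) : ℝ) := by
      push_cast
      field_simp
    rw [h1, Pool.Agent.H76.EHB.ee_add_int]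
  have hmain := hk x hxx1 (x / q) d ((M - a) / q) ((y - a) / q)
    (fun k => ee ((k : ℝ) * (q * ((b : ℝ) / d)))) β t hKge (Nat.div_le_self x q) hd hd4 hψ1
    (fun n => by rw [Pool.Agent.H91.PK.LSa_norm_ee]) hk2 hβ0 hβ1 ht1 ht2
  have hsum : ∑ n ∈ (Ioc M y).filter (fun n => n ≡ a [MOD q]),
          ee (n * ((b : ℝ) / d) + t * Real.log ((n : ℝ) - a0)) =
      ee (a * ((b : ℝ) / d) + t * Real.log q) * ∑ k ∈ Ioc ((M - a) / q) ((y - a) / q),
        ee ((k : ℝ) * (q * ((b : ℝ) / d))) * ee (t * Real.log (k + β)) := by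
    rw [KV_sum M y a q _ (by omega) (by omega), mul_sum]
    refine sum_congr rfl fun k hk' => ?_
    rw [mem_Ioc] at hk'
    have hk1 : (0 : ℝ) < k := by
      have : 0 < k := lt_of_le_of_lt (Nat.zero_le _) hk'.1
      exact_mod_cast this
    rw [← Pool.Agent.H91.PK.LSa_ee_add, ← Pool.Agent.H91.PK.LSa_ee_add]
    congr 1
    have h1 : (((a + k * q : ℕ) : ℝ)) - a0 = q * (k + β) := by
      rw [hβ]
      push_cast
      field_simp
      ring
    rw [h1, Real.log_mul hqR.ne' (by linarith)]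
    push_cast
    ring
  rw [hsum, norm_mul, Pool.Agent.H91.PK.LSa_norm_ee, one_mul]
  refine hmain.trans ?_
  have hK : ((x / q : ℕ) : ℝ) ≤ x / q := Nat.cast_div_le
  have h5 : 0 ≤ 1 / |t| + (x : ℝ) ^ (-δ) :=
    add_nonneg (by positivity) (Real.rpow_nonneg hxR.le _)
  exact mul_le_mul_of_nonneg_right (mul_le_mul_of_nonneg_right hK hlog) h5

end Pool.Agent.H35.W

end

section

/-!
# W Gram: the scalar products of the test functions

Proof.  Substitute `n = a0 + m`, `m ∈ (M - a0, y - a0]`, `m ≥ 1`.  Up to a factor of modulus 1 the sum is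
`∑ ψ(m) ee(t log m)` with `ψ(m) = ee(m (b/d - b'/d'))`, of period `d d'` (`ee_int`).  For `|t| ≥ 1` use `ksap 1`
(or `ksap (1/2)`) with `K = x`, `β = 0`, period `d d' ≤ L^{2B}`, `(d d')^4 ≤ x` for large `x`; `1/|t| ≤ 2/(1+|t|)`.
For `|t| < 1` the trivial bound `x ≤ 2 x/(1+|t|)`.  (`2 log x ≤ log x ^ 2` for large `x`.)
If `y ≤ M` the sum is empty.
-/

set_option autoImplicit false

namespace Pool.Agent.H35.W

open Finset
open Pool.Agent.H91.PK (ee)

private theorem Gram_ee_add (s t : ℝ) : ee (s + t) = ee s * ee t :=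
  Pool.Agent.H91.PK.LSa_ee_add s t

private theorem Gram_norm_ee (t : ℝ) : ‖ee t‖ = 1 := Pool.Agent.H91.PK.LSa_norm_ee t

/-- the substitution `n = a0 + m` -/
private theorem Gram_subst (a0 M y : ℕ) (h : a0 ≤ M) (γ t : ℝ) :
    ‖∑ n ∈ Ioc M y, ee (n * γ + t * Real.log ((n : ℝ) - a0))‖ =
      ‖∑ m ∈ Ioc (M - a0) (y - a0), ee (m * γ) * ee (t * Real.log ((m : ℝ) + 0))‖ := by
  have h1 : ∑ n ∈ Ioc M y, ee (n * γ + t * Real.log ((n : ℝ) - a0)) =
      ee (a0 * γ) * ∑ m ∈ Ioc (M - a0) (y - a0), ee (m * γ) * ee (t * Real.log ((m : ℝ) + 0)) := by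
    rw [Finset.mul_sum]
    refine Finset.sum_nbij' (fun n => n - a0) (fun m => m + a0) ?_ ?_ ?_ ?_ ?_
    · intro n hn
      rw [Finset.mem_Ioc] at hn ⊢
      omega
    · intro m hm
      rw [Finset.mem_Ioc] at hm ⊢
      omega
    · intro n hn
      rw [Finset.mem_Ioc] at hn
      omega
    · intro m _
      omega
    · intro n hn
      rw [Finset.mem_Ioc] at hn
      have h2 : ((n - a0 : ℕ) : ℝ) = (n : ℝ) - a0 := by
        rw [Nat.cast_sub (by omega)]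
      rw [h2, add_zero, ← Gram_ee_add, ← Gram_ee_add]
      congr 1
      ring
  rw [h1, norm_mul, Gram_norm_ee, one_mul]

private theorem Gram_large (B : ℕ) : ∃ x0 : ℕ, ∀ x : ℕ, x0 ≤ x →
    1 ≤ x ∧ (2 : ℝ) ≤ Real.log x ∧ Real.log x ^ (8 * B) ≤ x := by
  have h1 : ∀ᶠ y : ℝ in Filter.atTop, (2 : ℝ) ≤ Real.log y :=
    Real.tendsto_log_atTop.eventually_ge_atTop 2
  have h2 : ∀ᶠ y : ℝ in Filter.atTop, ‖Real.log y ^ (8 * B)‖ ≤ 1 * ‖(id y : ℝ)‖ :=
    (Real.isLittleO_pow_log_id_atTop (n := 8 * B)).def one_pos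
  have h3 : ∀ᶠ y : ℝ in Filter.atTop, (1 : ℝ) ≤ y := Filter.eventually_ge_atTop 1
  obtain ⟨y0, hy0⟩ := Filter.eventually_atTop.1 ((h1.and h2).and h3)
  refine ⟨⌈y0⌉₊, fun x hx => ?_⟩
  have hx' : y0 ≤ (x : ℝ) := (Nat.le_ceil y0).trans (by exact_mod_cast hx)
  obtain ⟨⟨h4, h5⟩, h6⟩ := hy0 x hx'
  refine ⟨by exact_mod_cast h6, h4, ?_⟩
  have h7 : (0 : ℝ) ≤ Real.log x ^ (8 * B) := pow_nonneg (by linarith) _
  rw [id, one_mul, Real.norm_of_nonneg h7, Real.norm_of_nonneg (by linarith)] at h5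
  exact h5

theorem gram (B : ℕ) : ∃ δ : ℝ, 0 < δ ∧ δ ≤ 1 ∧ ∃ x0 : ℕ, ∀ x : ℕ, x0 ≤ x →
    ∀ (a0 M y d d' : ℕ) (b b' : ℤ) (t : ℝ), a0 ≤ M → y ≤ x → 1 ≤ d → 1 ≤ d' →
      (d : ℝ) ≤ Real.log x ^ B → (d' : ℝ) ≤ Real.log x ^ B → |t| ≤ (x : ℝ) ^ (3 : ℕ) →
      ‖∑ n ∈ Ioc M y, ee (n * ((b : ℝ) / d - (b' : ℝ) / d') + t * Real.log ((n : ℝ) - a0))‖
        ≤ x * Real.log x ^ 2 * (1 / (1 + |t|) + (x : ℝ) ^ (-δ)) := by
  obtain ⟨δ, hδ, hδ1, x1, h1⟩ := ksap 1 one_pos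
  obtain ⟨x2, h2⟩ := Gram_large B
  refine ⟨δ, hδ, hδ1, max x1 x2, fun x hx a0 M y d d' b b' t ha0 hy hd hd' hdB hdB' ht => ?_⟩
  obtain ⟨hx1, hL2, hLx⟩ := h2 x ((le_max_right _ _).trans hx)
  have hxr : (1 : ℝ) ≤ x := by exact_mod_cast hx1
  have hpow : (0 : ℝ) ≤ (x : ℝ) ^ (-δ) := Real.rpow_nonneg (by linarith) _
  have ht0 := abs_nonneg t
  rw [Gram_subst a0 M y ha0]
  by_cases ht1 : 1 ≤ |t|
  · -- large `t`
    have hd0 : (0 : ℝ) < d := by exact_mod_cast hd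
    have hd0' : (0 : ℝ) < d' := by exact_mod_cast hd'
    have hdd : (d * d') ^ 4 ≤ x := by
      have h3 : ((d : ℝ) * d') ^ 4 ≤ Real.log x ^ (8 * B) := by
        have h4 : (d : ℝ) * d' ≤ Real.log x ^ B * Real.log x ^ B :=
          mul_le_mul hdB hdB' hd0'.le (pow_nonneg (by linarith) _)
        calc ((d : ℝ) * d') ^ 4 ≤ (Real.log x ^ B * Real.log x ^ B) ^ 4 :=
              pow_le_pow_left₀ (by positivity) h4 4
          _ = Real.log x ^ (8 * B) := by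
              rw [← pow_add, ← pow_mul]
              congr 1
              ring
      have h5 := h3.trans hLx
      exact_mod_cast h5
    have hper : ∀ n : ℕ, ee (((n + d * d' : ℕ) : ℝ) * ((b : ℝ) / d - (b' : ℝ) / d')) =
        ee ((n : ℝ) * ((b : ℝ) / d - (b' : ℝ) / d')) := by
      intro n
      have h6 : ((n + d * d' : ℕ) : ℝ) * ((b : ℝ) / d - (b' : ℝ) / d') =
          (n : ℝ) * ((b : ℝ) / d - (b' : ℝ) / d') + ((b * d' - b' * d : ℤ) : ℝ) := by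
        push_cast
        field_simp
      rw [h6, Gram_ee_add, Pool.Agent.H76.EHB.ee_int, mul_one]
    have h7 := h1 x ((le_max_left _ _).trans hx) x (d * d') (M - a0) (y - a0)
      (fun m => ee ((m : ℝ) * ((b : ℝ) / d - (b' : ℝ) / d'))) 0 t (by rw [Real.rpow_one]) le_rfl
      (Nat.mul_pos hd hd') hdd hper (fun m => (Gram_norm_ee _).le) (by omega) le_rfl zero_le_one
      ht1 ht
    refine h7.trans ?_
    have h8 : 1 / |t| ≤ 2 * (1 / (1 + |t|)) := by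
      rw [mul_one_div, div_le_div_iff₀ (by linarith) (by linarith)]
      linarith
    have h9 : (0 : ℝ) ≤ 1 / (1 + |t|) := by positivity
    have h10 : 1 / |t| + (x : ℝ) ^ (-δ) ≤ 2 * (1 / (1 + |t|) + (x : ℝ) ^ (-δ)) := by linarith
    calc (x : ℝ) * Real.log x * (1 / |t| + (x : ℝ) ^ (-δ))
        ≤ (x : ℝ) * Real.log x * (2 * (1 / (1 + |t|) + (x : ℝ) ^ (-δ))) :=
          mul_le_mul_of_nonneg_left h10 (mul_nonneg (by linarith) (by linarith))
      _ = (x : ℝ) * (Real.log x * 2) * (1 / (1 + |t|) + (x : ℝ) ^ (-δ)) := by ring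
      _ ≤ (x : ℝ) * Real.log x ^ 2 * (1 / (1 + |t|) + (x : ℝ) ^ (-δ)) := by
          refine mul_le_mul_of_nonneg_right ?_ (by linarith)
          refine mul_le_mul_of_nonneg_left ?_ (by linarith)
          nlinarith
  · -- small `t`
    rw [not_le] at ht1
    have h3 : ‖∑ m ∈ Ioc (M - a0) (y - a0), ee ((m : ℝ) * ((b : ℝ) / d - (b' : ℝ) / d')) *
        ee (t * Real.log ((m : ℝ) + 0))‖ ≤ x := by
      refine (norm_sum_le _ _).trans ?_
      have h4 : ∀ m ∈ Ioc (M - a0) (y - a0), ‖ee ((m : ℝ) * ((b : ℝ) / d - (b' : ℝ) / d')) *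
          ee (t * Real.log ((m : ℝ) + 0))‖ ≤ 1 := fun m _ => by
        rw [norm_mul, Gram_norm_ee, Gram_norm_ee, one_mul]
      refine (Finset.sum_le_sum h4).trans ?_
      rw [Finset.sum_const, Nat.card_Ioc, nsmul_eq_mul, mul_one]
      have h5 : y - a0 - (M - a0) ≤ x := by omega
      exact_mod_cast h5
    refine h3.trans ?_
    have h5 : (1 : ℝ) / 2 ≤ 1 / (1 + |t|) := by
      apply one_div_le_one_div_of_le (by linarith)
      linarith
    have h6 : (4 : ℝ) ≤ Real.log x ^ 2 := by nlinarith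
    have h7 : (1 : ℝ) ≤ Real.log x ^ 2 * (1 / (1 + |t|) + (x : ℝ) ^ (-δ)) := by nlinarith
    calc (x : ℝ) = x * 1 := (mul_one _).symm
      _ ≤ x * (Real.log x ^ 2 * (1 / (1 + |t|) + (x : ℝ) ^ (-δ))) :=
          mul_le_mul_of_nonneg_left h7 (by linarith)
      _ = x * Real.log x ^ 2 * (1 / (1 + |t|) + (x : ℝ) ^ (-δ)) := by ring

end Pool.Agent.H35.W

end
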