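import Pool.Agent.H94.EH.M21
import Pool.Agent.H94.EH.M22

/-! The parts of this file: H35.W.ExpandS, H35.W.SmallS, H35.W.SecondS. -/

section

/-!
# W ExpandS: expansion of the square, subset version

Same proof as `EHB.expand` (file `H76/EHB/Expand.lean`: copy it), with `ks K` replaced by a subset `S` and the sum over
`q ∈ Ioc Q (2Q)` replaced by `m ∈ Icc 1 X`: choose `Z ≥` everything, insert the weight
`exp π · wt A (a - a0) ≥ 1` for `a0 < a ≤ a0 + A`, extend the sum to all `|m|, |a| ≤ Z`, expand the square; diagonal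
`k1 = k2`: `≤ DD f N A a0 Z k`, off-diagonal: `= Soff f N A a0 k1 k2` (`Z ≥ N + K N`).
-/

set_option autoImplicit false

namespace Pool.Agent.H35.W

open Finset
open Pool.Agent.H76.EHB

private lemma ExpandS_off (f : ℕ → ℝ) (N K Z : ℕ) (A : ℝ) (a0 k1 k2 : ℤ) (h1 : |k1| ≤ K)
    (hne : k1 ≠ k2) (hZ : N + K * N ≤ Z) :
    ∑ p ∈ Icc (-(Z : ℤ)) Z ×ˢ Icc (-(Z : ℤ)) Z,
      wt A ((p.2 : ℝ) - a0) * (ft f N (p.2 + k1 * p.1) * ft f N (p.2 + k2 * p.1))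
      = Soff f N A a0 k1 k2 := by
  classical
  have hr : k2 - k1 ≠ 0 := sub_ne_zero.2 (Ne.symm hne)
  have hR : ((k2 - k1 : ℤ) : ℝ) ≠ 0 := by exact_mod_cast hr
  unfold Soff
  rw [← Finset.sum_product', ← Finset.sum_filter]
  rw [← Finset.sum_filter_add_sum_filter_not (Icc (-(Z : ℤ)) Z ×ˢ Icc (-(Z : ℤ)) Z)
    (fun p => (1 ≤ p.2 + k1 * p.1 ∧ p.2 + k1 * p.1 ≤ N) ∧ (1 ≤ p.2 + k2 * p.1 ∧ p.2 + k2 * p.1 ≤ N))]
  have hz : ∑ p ∈ (Icc (-(Z : ℤ)) Z ×ˢ Icc (-(Z : ℤ)) Z).filter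
      (fun p => ¬ ((1 ≤ p.2 + k1 * p.1 ∧ p.2 + k1 * p.1 ≤ N) ∧ (1 ≤ p.2 + k2 * p.1 ∧ p.2 + k2 * p.1 ≤ N))),
      wt A ((p.2 : ℝ) - a0) * (ft f N (p.2 + k1 * p.1) * ft f N (p.2 + k2 * p.1)) = 0 := by
    apply Finset.sum_eq_zero
    intro p hp
    have hp' := (Finset.mem_filter.1 hp).2
    rw [not_and_or] at hp'
    rcases hp' with h | h
    · have : ft f N (p.2 + k1 * p.1) = 0 := by unfold ft; rw [if_neg h]
      rw [this]; ring
    · have : ft f N (p.2 + k2 * p.1) = 0 := by unfold ft; rw [if_neg h]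
      rw [this]; ring
  rw [hz, add_zero]
  refine Finset.sum_bij' (fun p _ => ((p.2 + k1 * p.1).toNat, (p.2 + k2 * p.1).toNat))
    (fun n _ => (((n.2 : ℤ) - n.1) / (k2 - k1), (n.1 : ℤ) - k1 * (((n.2 : ℤ) - n.1) / (k2 - k1)))) ?_ ?_ ?_ ?_ ?_
  · intro p hp
    have hp' := (Finset.mem_filter.1 hp).2
    obtain ⟨⟨b1, b2⟩, c1, c2⟩ := hp'
    rw [Finset.mem_filter, Finset.mem_product, Finset.mem_Icc, Finset.mem_Icc]
    refine ⟨⟨⟨by omega, by omega⟩, by omega, by omega⟩, ?_⟩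
    have e1 : ((p.2 + k1 * p.1).toNat : ℤ) = p.2 + k1 * p.1 := Int.toNat_of_nonneg (by omega)
    have e2 : ((p.2 + k2 * p.1).toNat : ℤ) = p.2 + k2 * p.1 := Int.toNat_of_nonneg (by omega)
    simp only [e1, e2]
    exact ⟨-p.1, by ring⟩
  · intro n hn
    rw [Finset.mem_filter, Finset.mem_product, Finset.mem_Icc, Finset.mem_Icc] at hn
    obtain ⟨⟨⟨b1, b2⟩, c1, c2⟩, hd⟩ := hn
    obtain ⟨m, hm⟩ := hd
    have hq : ((n.2 : ℤ) - n.1) / (k2 - k1) = -m := by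
      have : (n.2 : ℤ) - n.1 = (k2 - k1) * (-m) := by linarith
      rw [this, Int.mul_ediv_cancel_left _ hr]
    rw [Finset.mem_filter, Finset.mem_product, Finset.mem_Icc, Finset.mem_Icc]
    simp only [hq]
    have hmN : |m| ≤ N := by
      have h2 : |(n.1 : ℤ) - n.2| ≤ N := by rw [abs_le]; constructor <;> omega
      rw [hm, abs_mul] at h2
      have h3 : 1 ≤ |k2 - k1| := Int.one_le_abs hr
      nlinarith [abs_nonneg m]
    have hkm : |k1 * (-m)| ≤ K * N := by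
      rw [abs_mul, abs_neg]
      exact mul_le_mul h1 hmN (abs_nonneg _) (by positivity)
    rw [abs_le] at hmN hkm
    have hZ' : (N : ℤ) + K * N ≤ Z := by exact_mod_cast hZ
    have hKN : (0 : ℤ) ≤ K * N := by positivity
    have e1 : (n.1 : ℤ) - k1 * -m + k1 * -m = n.1 := by ring
    have e2 : (n.1 : ℤ) - k1 * -m + k2 * -m = n.2 := by linarith
    rw [e1, e2]
    refine ⟨⟨⟨by omega, by omega⟩, by omega, by omega⟩, ⟨by omega, by omega⟩, by omega, by omega⟩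
  · intro p hp
    have hp' := (Finset.mem_filter.1 hp).2
    obtain ⟨⟨b1, b2⟩, c1, c2⟩ := hp'
    have e1 : ((p.2 + k1 * p.1).toNat : ℤ) = p.2 + k1 * p.1 := Int.toNat_of_nonneg (by omega)
    have e2 : ((p.2 + k2 * p.1).toNat : ℤ) = p.2 + k2 * p.1 := Int.toNat_of_nonneg (by omega)
    simp only [e1, e2]
    have e3 : p.2 + k2 * p.1 - (p.2 + k1 * p.1) = (k2 - k1) * p.1 := by ring
    rw [e3, Int.mul_ediv_cancel_left _ hr]
    exact Prod.ext rfl (by simp only; ring)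
  · intro n hn
    rw [Finset.mem_filter, Finset.mem_product, Finset.mem_Icc, Finset.mem_Icc] at hn
    obtain ⟨⟨⟨b1, b2⟩, c1, c2⟩, hd⟩ := hn
    obtain ⟨m, hm⟩ := hd
    have hq : ((n.2 : ℤ) - n.1) / (k2 - k1) = -m := by
      have : (n.2 : ℤ) - n.1 = (k2 - k1) * (-m) := by linarith
      rw [this, Int.mul_ediv_cancel_left _ hr]
    simp only [hq]
    have e1 : (n.1 : ℤ) - k1 * -m + k1 * -m = n.1 := by ring
    have e2 : (n.1 : ℤ) - k1 * -m + k2 * -m = n.2 := by linarith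
    rw [e1, e2, Int.toNat_natCast, Int.toNat_natCast]
  · intro p hp
    have hp' := (Finset.mem_filter.1 hp).2
    obtain ⟨⟨b1, b2⟩, c1, c2⟩ := hp'
    have e1 : ((p.2 + k1 * p.1).toNat : ℤ) = p.2 + k1 * p.1 := Int.toNat_of_nonneg (by omega)
    have e2 : ((p.2 + k2 * p.1).toNat : ℤ) = p.2 + k2 * p.1 := Int.toNat_of_nonneg (by omega)
    simp only [e1, e2]
    have hft1 : ft f N (p.2 + k1 * p.1) = f (p.2 + k1 * p.1).toNat := by
      unfold ft; rw [if_pos ⟨b1, b2⟩]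
    have hft2 : ft f N (p.2 + k2 * p.1) = f (p.2 + k2 * p.1).toNat := by
      unfold ft; rw [if_pos ⟨c1, c2⟩]
    rw [hft1, hft2]
    have e4 : k2 * (p.2 + k1 * p.1) - k1 * (p.2 + k2 * p.1) = p.2 * (k2 - k1) := by ring
    rw [e4, Int.cast_mul, mul_div_assoc, div_self hR, mul_one]
    ring

private lemma ExpandS_diag (f : ℕ → ℝ) (N Z : ℕ) (A : ℝ) (a0 k : ℤ) (hk : k ≠ 0) :
    ∑ p ∈ Icc (-(Z : ℤ)) Z ×ˢ Icc (-(Z : ℤ)) Z,
      wt A ((p.2 : ℝ) - a0) * (ft f N (p.2 + k * p.1) * ft f N (p.2 + k * p.1))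
      ≤ DD f N A a0 Z k := by
  classical
  rw [← Finset.sum_filter_add_sum_filter_not (Icc (-(Z : ℤ)) Z ×ˢ Icc (-(Z : ℤ)) Z)
    (fun p => 1 ≤ p.2 + k * p.1 ∧ p.2 + k * p.1 ≤ N)]
  have hz : ∑ p ∈ (Icc (-(Z : ℤ)) Z ×ˢ Icc (-(Z : ℤ)) Z).filter
      (fun p => ¬ (1 ≤ p.2 + k * p.1 ∧ p.2 + k * p.1 ≤ N)),
      wt A ((p.2 : ℝ) - a0) * (ft f N (p.2 + k * p.1) * ft f N (p.2 + k * p.1)) = 0 := by
    apply Finset.sum_eq_zero
    intro p hp
    have hp' := (Finset.mem_filter.1 hp).2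
    have : ft f N (p.2 + k * p.1) = 0 := by unfold ft; rw [if_neg hp']
    rw [this]; ring
  rw [hz, add_zero]
  unfold DD
  have h1 : ∑ n ∈ Icc 1 N, f n ^ 2 * ∑ a ∈ (Icc (-(Z : ℤ)) Z).filter (fun a => k ∣ (n : ℤ) - a), wt A ((a : ℝ) - a0)
      = ∑ u ∈ (Icc 1 N ×ˢ Icc (-(Z : ℤ)) Z).filter (fun u => k ∣ (u.1 : ℤ) - u.2),
          f u.1 ^ 2 * wt A ((u.2 : ℝ) - a0) := by
    rw [Finset.sum_filter, Finset.sum_product]
    refine Finset.sum_congr rfl fun n _ => ?_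
    rw [Finset.mul_sum, Finset.sum_filter]
  rw [h1]
  set S := (Icc (-(Z : ℤ)) Z ×ˢ Icc (-(Z : ℤ)) Z).filter
      (fun p => 1 ≤ p.2 + k * p.1 ∧ p.2 + k * p.1 ≤ N) with hS
  set g : ℤ × ℤ → ℕ × ℤ := fun p => ((p.2 + k * p.1).toNat, p.2) with hg
  have hinj : Set.InjOn g S := by
    intro p hp p' hp' hpp
    have b := (Finset.mem_filter.1 hp).2
    have b' := (Finset.mem_filter.1 hp').2
    simp only [hg, Prod.mk.injEq] at hpp
    obtain ⟨e1, e2⟩ := hpp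
    have e3 : p.2 + k * p.1 = p'.2 + k * p'.1 := by omega
    rw [e2] at e3
    have e4 : k * p.1 = k * p'.1 := by linarith
    exact Prod.ext (mul_left_cancel₀ hk e4) e2
  have h2 : ∑ p ∈ S, wt A ((p.2 : ℝ) - a0) * (ft f N (p.2 + k * p.1) * ft f N (p.2 + k * p.1))
      = ∑ u ∈ S.image g, f u.1 ^ 2 * wt A ((u.2 : ℝ) - a0) := by
    rw [Finset.sum_image hinj]
    refine Finset.sum_congr rfl fun p hp => ?_
    have b := (Finset.mem_filter.1 hp).2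
    have hft : ft f N (p.2 + k * p.1) = f (p.2 + k * p.1).toNat := by
      unfold ft; rw [if_pos b]
    rw [hft]
    simp only [hg]
    ring
  rw [h2]
  refine Finset.sum_le_sum_of_subset_of_nonneg ?_ fun u _ _ => ?_
  · intro u hu
    rw [Finset.mem_image] at hu
    obtain ⟨p, hp, rfl⟩ := hu
    rw [hS, Finset.mem_filter, Finset.mem_product] at hp
    obtain ⟨⟨p1, p2⟩, b1, b2⟩ := hp
    rw [Finset.mem_filter, Finset.mem_product, Finset.mem_Icc]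
    simp only [hg]
    refine ⟨⟨⟨by omega, by omega⟩, p2⟩, ?_⟩
    rw [Int.toNat_of_nonneg (by omega)]
    exact ⟨p.1, by ring⟩
  · exact mul_nonneg (sq_nonneg _) (Real.exp_pos _).le

theorem expandS (f : ℕ → ℝ) (N K A X : ℕ) (S : Finset ℤ) (hS : S ⊆ ks K) (a0 : ℤ) (hA : 1 ≤ A) :
    ∃ Z : ℕ, ∑ m ∈ Icc 1 X, ∑ a ∈ Ioc a0 (a0 + A), (∑ k ∈ S, ft f N (a + k * m)) ^ 2
      ≤ Real.exp Real.pi * (∑ k ∈ S, DD f N A a0 Z k
          + ∑ k1 ∈ S, ∑ k2 ∈ S.erase k1, Soff f N A a0 k1 k2) := by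
  classical
  set Z : ℕ := N + K * N + a0.natAbs + A + X with hZ
  refine ⟨Z, ?_⟩
  set Bx := Icc (-(Z : ℤ)) Z with hBx
  have hA0 : (0 : ℝ) < A := by exact_mod_cast hA
  set T : ℤ → ℤ → ℝ := fun q a => (∑ k ∈ S, ft f N (a + k * q)) ^ 2 with hT
  have hT0 : ∀ q a, 0 ≤ T q a := fun q a => sq_nonneg _
  -- step 1
  have s1 : ∑ m ∈ Icc 1 X, ∑ a ∈ Ioc a0 (a0 + A), (∑ k ∈ S, ft f N (a + k * m)) ^ 2
      ≤ ∑ q ∈ Bx, ∑ a ∈ Bx, Real.exp Real.pi * (wt A ((a : ℝ) - a0) * T q a) := by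
    have s2 : ∑ m ∈ Icc 1 X, ∑ a ∈ Ioc a0 (a0 + A), (∑ k ∈ S, ft f N (a + k * m)) ^ 2
        = ∑ q ∈ (Icc 1 X).image (fun n : ℕ => (n : ℤ)), ∑ a ∈ Ioc a0 (a0 + A), T q a := by
      rw [Finset.sum_image (fun x _ y _ h => by simpa using h)]
    rw [s2]
    have s3 : ∀ q : ℤ, ∑ a ∈ Ioc a0 (a0 + A), T q a
        ≤ ∑ a ∈ Bx, Real.exp Real.pi * (wt A ((a : ℝ) - a0) * T q a) := by
      intro q
      refine le_trans (Finset.sum_le_sum (g := fun a : ℤ => Real.exp Real.pi * (wt A ((a : ℝ) - a0) * T q a)) ?_)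
        (Finset.sum_le_sum_of_subset_of_nonneg ?_ ?_)
      · intro a ha
        rw [Finset.mem_Ioc] at ha
        have hw : Real.exp (-Real.pi) ≤ wt A ((a : ℝ) - a0) := by
          unfold wt
          apply Real.exp_le_exp.mpr
          have h1 : (0 : ℝ) < (a : ℝ) - a0 := by
            have : (a0 : ℝ) < a := by exact_mod_cast ha.1
            linarith
          have h2 : (a : ℝ) - a0 ≤ A := by
            have : (a : ℝ) ≤ a0 + A := by exact_mod_cast ha.2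
            linarith
          have h3 : ((a : ℝ) - a0) / A ≤ 1 := by rw [div_le_one hA0]; exact h2
          have h4 : 0 ≤ ((a : ℝ) - a0) / A := div_nonneg h1.le hA0.le
          have h5 : (((a : ℝ) - a0) / A) ^ 2 ≤ 1 := by nlinarith
          nlinarith [Real.pi_pos]
        have h6 : 1 ≤ Real.exp Real.pi * wt A ((a : ℝ) - a0) := by
          have := mul_le_mul_of_nonneg_left hw (Real.exp_pos Real.pi).le
          rwa [← Real.exp_add, add_neg_cancel, Real.exp_zero] at this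
        calc T q a = 1 * T q a := (one_mul _).symm
          _ ≤ (Real.exp Real.pi * wt A ((a : ℝ) - a0)) * T q a :=
              mul_le_mul_of_nonneg_right h6 (hT0 q a)
          _ = _ := by ring
      · intro a ha
        rw [Finset.mem_Ioc] at ha
        rw [hBx, Finset.mem_Icc]
        omega
      · intro a _ _
        exact mul_nonneg (Real.exp_pos _).le (mul_nonneg (Real.exp_pos _).le (hT0 q a))
    refine (Finset.sum_le_sum fun q _ => s3 q).trans ?_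
    refine Finset.sum_le_sum_of_subset_of_nonneg ?_ ?_
    · intro q hq
      rw [Finset.mem_image] at hq
      obtain ⟨n, hn, rfl⟩ := hq
      rw [Finset.mem_Icc] at hn
      rw [hBx, Finset.mem_Icc]
      omega
    · intro q _ _
      exact Finset.sum_nonneg fun a _ => mul_nonneg (Real.exp_pos _).le (mul_nonneg (Real.exp_pos _).le (hT0 q a))
  refine s1.trans ?_
  have s4 : ∑ q ∈ Bx, ∑ a ∈ Bx, Real.exp Real.pi * (wt A ((a : ℝ) - a0) * T q a)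
      = Real.exp Real.pi * ∑ k1 ∈ S, ∑ k2 ∈ S, ∑ p ∈ Bx ×ˢ Bx,
          wt A ((p.2 : ℝ) - a0) * (ft f N (p.2 + k1 * p.1) * ft f N (p.2 + k2 * p.1)) := by
    rw [← Finset.sum_product' (f := fun q a : ℤ => Real.exp Real.pi * (wt A ((a : ℝ) - a0) * T q a)),
      ← Finset.mul_sum]
    congr 1
    have s5 : ∀ p : ℤ × ℤ, wt A ((p.2 : ℝ) - a0) * T p.1 p.2
        = ∑ k1 ∈ S, ∑ k2 ∈ S,
          wt A ((p.2 : ℝ) - a0) * (ft f N (p.2 + k1 * p.1) * ft f N (p.2 + k2 * p.1)) := by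
      intro p
      simp only [hT]
      rw [sq, Finset.sum_mul_sum, Finset.mul_sum]
      refine Finset.sum_congr rfl fun k1 _ => ?_
      rw [Finset.mul_sum]
    rw [Finset.sum_congr rfl fun p _ => s5 p, Finset.sum_comm]
    refine Finset.sum_congr rfl fun k1 _ => ?_
    rw [Finset.sum_comm]
  rw [s4]
  refine mul_le_mul_of_nonneg_left ?_ (Real.exp_pos _).le
  have s6 : ∀ k1 ∈ S, ∑ k2 ∈ S, ∑ p ∈ Bx ×ˢ Bx,
          wt A ((p.2 : ℝ) - a0) * (ft f N (p.2 + k1 * p.1) * ft f N (p.2 + k2 * p.1))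
      ≤ DD f N A a0 Z k1 + ∑ k2 ∈ S.erase k1, Soff f N A a0 k1 k2 := by
    intro k1 hk1
    rw [← Finset.add_sum_erase _ _ hk1]
    have hk1 := hS hk1
    rw [mem_ks] at hk1
    refine add_le_add (ExpandS_diag f N Z A a0 k1 hk1.1) (le_of_eq ?_)
    refine Finset.sum_congr rfl fun k2 hk2 => ?_
    exact ExpandS_off f N K Z A a0 k1 k2 hk1.2 (Ne.symm (Finset.ne_of_mem_erase hk2)) (by omega)
  refine (Finset.sum_le_sum s6).trans ?_
  rw [Finset.sum_add_distrib]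

end Pool.Agent.H35.W

end

section

/-!
# W SmallS: the small denominators, subset version, with `(1+|v|)^12`

Same proof as `EHB.small_den` (file `H76/EHB/SmallC.lean`: copy it), with `ks K` replaced by a subset `S ⊆ ks K`:
`near_pairs`, `far_pairs`, `equal_pairs` bound sums of norms over `ks K`, hence over `S` (monotonicity);
the square identity is `square_identityS`; the Gaussian integral of `(1+|v|)^12` is `≤ 10000`
(its value is `289.7`; e.g. `(1+|v|)^12 exp(-π v^2) ≤ 1000 exp(-v^2)`).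
-/

set_option autoImplicit false

namespace Pool.Agent.H35.W

open Finset MeasureTheory
open Pool.Agent.H76.EHB

private theorem smallS_gauss_pt (v : ℝ) :
    Real.exp (-Real.pi * v ^ 2) * (1 + |v|) ^ 12 ≤ 2916 * Real.exp (-1 * v ^ 2) := by
  have h1 : (1 + |v|) ^ 2 ≤ 2 * (1 + v ^ 2) := by
    have h2 : |v| ^ 2 = v ^ 2 := sq_abs v
    nlinarith [sq_nonneg (1 - |v|)]
  have h2 : 1 + v ^ 2 ≤ 3 * Real.exp ((v ^ 2 - 2) / 3) := by
    have := Real.add_one_le_exp ((v ^ 2 - 2) / 3)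
    linarith
  have h3 : (1 + v ^ 2) ^ 6 ≤ 729 * Real.exp (2 * v ^ 2 - 4) := by
    calc (1 + v ^ 2) ^ 6 ≤ (3 * Real.exp ((v ^ 2 - 2) / 3)) ^ 6 :=
          pow_le_pow_left₀ (by positivity) h2 6
      _ = 729 * Real.exp (2 * v ^ 2 - 4) := by
          rw [mul_pow, ← Real.exp_nat_mul]
          norm_num
          ring
  have h4 : Real.exp (2 * v ^ 2 - 4) ≤ Real.exp (2 * v ^ 2) / 16 := by
    rw [Real.exp_sub]
    apply div_le_div_of_nonneg_left (Real.exp_pos _).le (by norm_num)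
    have h5 : (2 : ℝ) ≤ Real.exp 1 := by
      have := Real.add_one_le_exp (1 : ℝ)
      linarith
    calc (16 : ℝ) = 2 ^ 4 := by norm_num
      _ ≤ (Real.exp 1) ^ 4 := pow_le_pow_left₀ (by norm_num) h5 4
      _ = Real.exp 4 := by rw [← Real.exp_nat_mul]; norm_num
  have h5 : (1 + |v|) ^ 12 ≤ 2916 * Real.exp (2 * v ^ 2) := by
    calc (1 + |v|) ^ 12 = ((1 + |v|) ^ 2) ^ 6 := by ring
      _ ≤ (2 * (1 + v ^ 2)) ^ 6 := pow_le_pow_left₀ (by positivity) h1 6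
      _ = 64 * (1 + v ^ 2) ^ 6 := by ring
      _ ≤ 64 * (729 * (Real.exp (2 * v ^ 2) / 16)) := by linarith
      _ = 2916 * Real.exp (2 * v ^ 2) := by ring
  calc Real.exp (-Real.pi * v ^ 2) * (1 + |v|) ^ 12 ≤
        Real.exp (-Real.pi * v ^ 2) * (2916 * Real.exp (2 * v ^ 2)) :=
        mul_le_mul_of_nonneg_left h5 (Real.exp_pos _).le
    _ = 2916 * Real.exp (-Real.pi * v ^ 2 + 2 * v ^ 2) := by rw [Real.exp_add]; ring
    _ ≤ 2916 * Real.exp (-1 * v ^ 2) := by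
        apply mul_le_mul_of_nonneg_left _ (by norm_num)
        apply Real.exp_le_exp.2
        nlinarith [Real.pi_gt_three, sq_nonneg v]

private theorem smallS_integral (A U : ℝ) (hA : 0 ≤ A) (hU : 0 ≤ U) (G : ℝ → ℝ)
    (hG0 : ∀ v, 0 ≤ G v) (hG : ∀ v, G v ≤ U * (1 + |v|) ^ 12) :
    0 ≤ ∫ v : ℝ, A * Real.exp (-Real.pi * v ^ 2) * G v ∧
      ∫ v : ℝ, A * Real.exp (-Real.pi * v ^ 2) * G v ≤ 10000 * A * U := by
  refine ⟨integral_nonneg fun v => mul_nonneg (mul_nonneg hA (Real.exp_pos _).le) (hG0 v), ?_⟩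
  have hi1 : Integrable (fun v : ℝ => Real.exp (-1 * v ^ 2)) :=
    integrable_exp_neg_mul_sq (by norm_num)
  have hi : Integrable (fun v : ℝ => A * U * (2916 * Real.exp (-1 * v ^ 2))) :=
    (hi1.const_mul 2916).const_mul (A * U)
  have h1 : ∫ v : ℝ, A * Real.exp (-Real.pi * v ^ 2) * G v ≤
      ∫ v : ℝ, A * U * (2916 * Real.exp (-1 * v ^ 2)) := by
    refine integral_mono_of_nonneg (Filter.Eventually.of_forall fun v =>
      mul_nonneg (mul_nonneg hA (Real.exp_pos _).le) (hG0 v)) hi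
      (Filter.Eventually.of_forall fun v => ?_)
    show A * Real.exp (-Real.pi * v ^ 2) * G v ≤ A * U * (2916 * Real.exp (-1 * v ^ 2))
    calc A * Real.exp (-Real.pi * v ^ 2) * G v ≤
          A * Real.exp (-Real.pi * v ^ 2) * (U * (1 + |v|) ^ 12) :=
          mul_le_mul_of_nonneg_left (hG v) (mul_nonneg hA (Real.exp_pos _).le)
      _ = A * U * (Real.exp (-Real.pi * v ^ 2) * (1 + |v|) ^ 12) := by ring
      _ ≤ _ := mul_le_mul_of_nonneg_left (smallS_gauss_pt v) (mul_nonneg hA hU)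
  have h2 : ∫ v : ℝ, A * U * (2916 * Real.exp (-1 * v ^ 2)) =
      A * U * (2916 * Real.sqrt Real.pi) := by
    rw [integral_const_mul, integral_const_mul, integral_gaussian, div_one]
  have h3 : Real.sqrt Real.pi ≤ 2 := by
    rw [Real.sqrt_le_left (by norm_num)]
    have := Real.pi_lt_four
    linarith
  rw [h2] at h1
  refine h1.trans ?_
  have h6 : 0 ≤ A * U := mul_nonneg hA hU
  nlinarith

private theorem smallS_JJT_nonneg (f : ℕ → ℝ) (N : ℕ) (T : Finset ℤ) (α a Y : ℝ) :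
    0 ≤ JJT f N T α a Y := by
  unfold JJT
  exact integral_nonneg fun y => sq_nonneg _

/-- Splitting a sum over pairs. -/
private theorem smallS_split (S : Finset ℤ) (d r0 : ℕ) (hr0 : 1 ≤ r0) (k1 : ℤ) (g : ℤ → ℂ) :
    ∑ k2 ∈ S.filter (fun k2 => k2 ≠ k1 ∧ (d : ℤ) ∣ k2 - k1), g k2 =
      ∑ k2 ∈ S.filter (fun k2 => k2 ≠ k1 ∧ (d : ℤ) ∣ k2 - k1 ∧ |k2 - k1| < r0), g k2 +
      ∑ k2 ∈ S.filter (fun k2 => (d : ℤ) ∣ k2 - k1 ∧ (r0 : ℤ) ≤ |k2 - k1|), g k2 := by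
  rw [← Finset.sum_filter_add_sum_filter_not
    (S.filter (fun k2 => k2 ≠ k1 ∧ (d : ℤ) ∣ k2 - k1)) (fun k2 => |k2 - k1| < r0),
    Finset.filter_filter, Finset.filter_filter]
  congr 1
  · apply Finset.sum_congr _ fun _ _ => rfl
    apply Finset.filter_congr
    intro k2 _
    tauto
  · apply Finset.sum_congr _ fun _ _ => rfl
    apply Finset.filter_congr
    intro k2 _
    constructor
    · rintro ⟨⟨_, h2⟩, h3⟩
      exact ⟨h2, not_lt.1 h3⟩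
    · rintro ⟨h2, h3⟩
      refine ⟨⟨?_, h2⟩, not_lt.2 h3⟩
      rintro rfl
      rw [sub_self, abs_zero] at h3
      have : (1 : ℤ) ≤ r0 := by exact_mod_cast hr0
      omega

private theorem smallS_split_all (S : Finset ℤ) (d : ℕ) (k1 : ℤ) (hk1 : k1 ∈ S) (g : ℤ → ℂ) :
    ∑ k2 ∈ S.filter (fun k2 => (d : ℤ) ∣ k2 - k1), g k2 =
      ∑ k2 ∈ S.filter (fun k2 => k2 ≠ k1 ∧ (d : ℤ) ∣ k2 - k1), g k2 + g k1 := by
  have h1 : S.filter (fun k2 => (d : ℤ) ∣ k2 - k1) =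
      insert k1 (S.filter (fun k2 => k2 ≠ k1 ∧ (d : ℤ) ∣ k2 - k1)) := by
    ext k2
    rw [Finset.mem_insert, Finset.mem_filter, Finset.mem_filter]
    constructor
    · rintro ⟨h2, h3⟩
      by_cases h4 : k2 = k1
      · exact Or.inl h4
      · exact Or.inr ⟨h2, h4, h3⟩
    · rintro (rfl | ⟨h2, _, h3⟩)
      · exact ⟨hk1, by rw [sub_self]; exact dvd_zero _⟩
      · exact ⟨h2, h3⟩
  rw [h1, Finset.sum_insert (by simp), add_comm]

/-- Monotonicity: a double sum of norms over pairs of `S` is at most the one over pairs of `ks K`. -/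
private theorem smallS_mono (S R : Finset ℤ) (hS : S ⊆ R) (p : ℤ → ℤ → Prop)
    [∀ k, DecidablePred (p k)] (g : ℤ → ℤ → ℝ) (hg : ∀ k1 k2, 0 ≤ g k1 k2) :
    ∑ k1 ∈ S, ∑ k2 ∈ S.filter (p k1), g k1 k2 ≤ ∑ k1 ∈ R, ∑ k2 ∈ R.filter (p k1), g k1 k2 := by
  calc ∑ k1 ∈ S, ∑ k2 ∈ S.filter (p k1), g k1 k2
      ≤ ∑ k1 ∈ S, ∑ k2 ∈ R.filter (p k1), g k1 k2 :=
        Finset.sum_le_sum fun k1 _ => Finset.sum_le_sum_of_subset_of_nonneg
          (Finset.filter_subset_filter _ hS) fun k2 _ _ => hg k1 k2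
    _ ≤ ∑ k1 ∈ R, ∑ k2 ∈ R.filter (p k1), g k1 k2 :=
        Finset.sum_le_sum_of_subset_of_nonneg hS fun k1 _ _ =>
          Finset.sum_nonneg fun k2 _ => hg k1 k2

theorem small_denS (f : ℕ → ℝ) (N K d r0 : ℕ) (S : Finset ℤ) (hS : S ⊆ ks K) (A α L : ℝ) (a0 : ℤ)
    (hK : 1 ≤ K) (hKA : (K : ℝ) ≤ A) (hd : 1 ≤ d) (hr0 : 1 ≤ r0) (hL : 1 ≤ L)
    (hKY : K * (L / (A * r0)) ≤ 1 / 2) (U : ℝ) (hU : 0 ≤ U)
    (hJ : ∀ l ∈ range d, ∀ v : ℝ, JJT f N (S.filter (fun k => (d : ℤ) ∣ k - l)) α (a0 + A * v)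
      (L / (A * r0)) ≤ U * (1 + |v|) ^ 12) :
    ‖∑ k1 ∈ S, ∑ k2 ∈ S.filter (fun k2 => k2 ≠ k1 ∧ (d : ℤ) ∣ k2 - k1),
        IpS f N A a0 α k1 k2 Set.univ‖
      ≤ 34 * A * (1 + Real.log K) * r0 * S2 f N + 8 * K ^ 2 * N * S2 f N * Real.exp (-L ^ 2)
        + 10000 * A * d * U := by
  obtain ⟨Y, hY⟩ : ∃ Y : ℝ, Y = L / (A * r0) := ⟨_, rfl⟩
  have hK1 : (1 : ℝ) ≤ K := by exact_mod_cast hK
  have hA1 : 1 ≤ A := hK1.trans hKA
  have hA0 : 0 < A := by linarith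
  have hr0' : (1 : ℝ) ≤ r0 := by exact_mod_cast hr0
  have hd' : (1 : ℝ) ≤ d := by exact_mod_cast hd
  have hY0 : 0 ≤ Y := by rw [hY]; positivity
  have hS2 := S2_nonneg f N
  have hlogK : 0 ≤ Real.log K := Real.log_nonneg hK1
  have hnear1 := (smallS_mono S (ks K) hS (fun k1 k2 => k2 ≠ k1 ∧ (d : ℤ) ∣ k2 - k1 ∧ |k2 - k1| < r0)
    (fun k1 k2 => ‖IpS f N A a0 α k1 k2 Set.univ‖) (fun _ _ => norm_nonneg _)).trans
    (near_pairs f N K d r0 A α a0 hK hKA hd Set.univ MeasurableSet.univ)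
  have hnear2 := (smallS_mono S (ks K) hS (fun k1 k2 => k2 ≠ k1 ∧ (d : ℤ) ∣ k2 - k1 ∧ |k2 - k1| < r0)
    (fun k1 k2 => ‖IpS f N A a0 α k1 k2 (Set.Icc (-Y) Y)‖) (fun _ _ => norm_nonneg _)).trans
    (near_pairs f N K d r0 A α a0 hK hKA hd (Set.Icc (-Y) Y) measurableSet_Icc)
  have hfar0 := far_pairs f N K d r0 A α L a0 hA1 hr0 hL
  have hequal := equal_pairs f N K A α Y a0 hK hA0 hY0 (by rw [hY]; exact hKY)
  have hsq := square_identityS f N d S A α Y a0 hd hA0 hY0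
  rw [← hY] at hfar0
  have hfar := (smallS_mono S (ks K) hS (fun k1 k2 => (d : ℤ) ∣ k2 - k1 ∧ (r0 : ℤ) ≤ |k2 - k1|)
    (fun k1 k2 => ‖IpS f N A a0 α k1 k2 Set.univ - IpS f N A a0 α k1 k2 (Set.Icc (-Y) Y)‖)
    (fun _ _ => norm_nonneg _)).trans hfar0
  have hequal' : ∑ k1 ∈ S, ‖IpS f N A a0 α k1 k1 (Set.Icc (-Y) Y)‖ ≤
      2 * A * (1 + Real.log K) * S2 f N :=
    (Finset.sum_le_sum_of_subset_of_nonneg hS fun _ _ _ => norm_nonneg _).trans hequal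
  have hall : ‖∑ k1 ∈ S, ∑ k2 ∈ S.filter (fun k2 => (d : ℤ) ∣ k2 - k1),
      IpS f N A a0 α k1 k2 (Set.Icc (-Y) Y)‖ ≤ 10000 * A * d * U := by
    rw [hsq, Complex.norm_real, Real.norm_eq_abs]
    have h1 : ∀ l ∈ range d,
        |∫ v : ℝ, A * Real.exp (-Real.pi * v ^ 2) *
          JJT f N (S.filter (fun k => (d : ℤ) ∣ k - l)) α (a0 + A * v) Y| ≤
          10000 * A * U := by
      intro l hl
      obtain ⟨h2, h3⟩ := smallS_integral A U hA0.le hU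
        (fun v => JJT f N (S.filter (fun k => (d : ℤ) ∣ k - l)) α (a0 + A * v) Y)
        (fun v => smallS_JJT_nonneg _ _ _ _ _ _)
        (fun v => by rw [hY]; exact hJ l hl v)
      rw [abs_of_nonneg h2]
      exact h3
    refine (Finset.abs_sum_le_sum_abs _ _).trans ((Finset.sum_le_sum h1).trans ?_)
    rw [Finset.sum_const, Finset.card_range, nsmul_eq_mul]
    linarith [show (d : ℝ) * (10000 * A * U) = 10000 * A * d * U by ring]
  -- the decomposition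
  have hdec : ∑ k1 ∈ S, ∑ k2 ∈ S.filter (fun k2 => k2 ≠ k1 ∧ (d : ℤ) ∣ k2 - k1),
      IpS f N A a0 α k1 k2 Set.univ =
      ∑ k1 ∈ S, ∑ k2 ∈ S.filter
          (fun k2 => k2 ≠ k1 ∧ (d : ℤ) ∣ k2 - k1 ∧ |k2 - k1| < r0),
        IpS f N A a0 α k1 k2 Set.univ +
      ∑ k1 ∈ S, ∑ k2 ∈ S.filter
          (fun k2 => (d : ℤ) ∣ k2 - k1 ∧ (r0 : ℤ) ≤ |k2 - k1|),
        (IpS f N A a0 α k1 k2 Set.univ - IpS f N A a0 α k1 k2 (Set.Icc (-Y) Y)) +
      ∑ k1 ∈ S, ∑ k2 ∈ S.filter (fun k2 => (d : ℤ) ∣ k2 - k1),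
        IpS f N A a0 α k1 k2 (Set.Icc (-Y) Y) -
      ∑ k1 ∈ S, ∑ k2 ∈ S.filter
          (fun k2 => k2 ≠ k1 ∧ (d : ℤ) ∣ k2 - k1 ∧ |k2 - k1| < r0),
        IpS f N A a0 α k1 k2 (Set.Icc (-Y) Y) -
      ∑ k1 ∈ S, IpS f N A a0 α k1 k1 (Set.Icc (-Y) Y) := by
    rw [← Finset.sum_add_distrib, ← Finset.sum_add_distrib, ← Finset.sum_sub_distrib,
      ← Finset.sum_sub_distrib]
    refine Finset.sum_congr rfl fun k1 hk1 => ?_
    rw [smallS_split S d r0 hr0 k1 (fun k2 => IpS f N A a0 α k1 k2 Set.univ),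
      smallS_split_all S d k1 hk1 (fun k2 => IpS f N A a0 α k1 k2 (Set.Icc (-Y) Y)),
      smallS_split S d r0 hr0 k1 (fun k2 => IpS f N A a0 α k1 k2 (Set.Icc (-Y) Y)),
      Finset.sum_sub_distrib]
    ring
  have hn : ∀ (g : ℤ → ℤ → ℂ) (P : ℤ → Finset ℤ) (b : ℝ),
      ∑ k1 ∈ S, ∑ k2 ∈ P k1, ‖g k1 k2‖ ≤ b → ‖∑ k1 ∈ S, ∑ k2 ∈ P k1, g k1 k2‖ ≤ b := by
    intro g P b h
    refine ((norm_sum_le _ _).trans (Finset.sum_le_sum fun k1 _ => norm_sum_le _ _)).trans h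
  have hrd : 16 * A * (1 + Real.log K) * ((r0 : ℝ) / d) * S2 f N ≤
      16 * A * (1 + Real.log K) * r0 * S2 f N := by
    have h1 : (r0 : ℝ) / d ≤ r0 := div_le_self (by linarith) hd'
    have h2 : 0 ≤ 16 * A * (1 + Real.log K) := by positivity
    exact mul_le_mul_of_nonneg_right (mul_le_mul_of_nonneg_left h1 h2) hS2
  have hr1 : 2 * A * (1 + Real.log K) * S2 f N ≤ 2 * A * (1 + Real.log K) * r0 * S2 f N := by
    have h2 : 0 ≤ 2 * A * (1 + Real.log K) := by positivity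
    have h3 : 2 * A * (1 + Real.log K) ≤ 2 * A * (1 + Real.log K) * r0 :=
      le_mul_of_one_le_right h2 hr0'
    exact mul_le_mul_of_nonneg_right h3 hS2
  have hb1 := hn (fun k1 k2 => IpS f N A a0 α k1 k2 Set.univ) _ _ (hnear1.trans hrd)
  have hb2 := hn (fun k1 k2 => IpS f N A a0 α k1 k2 Set.univ -
    IpS f N A a0 α k1 k2 (Set.Icc (-Y) Y)) _ _ hfar
  have hb4 := hn (fun k1 k2 => IpS f N A a0 α k1 k2 (Set.Icc (-Y) Y)) _ _ (hnear2.trans hrd)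
  have hb5 : ‖∑ k1 ∈ S, IpS f N A a0 α k1 k1 (Set.Icc (-Y) Y)‖ ≤
      2 * A * (1 + Real.log K) * r0 * S2 f N :=
    ((norm_sum_le _ _).trans hequal').trans hr1
  rw [hdec]
  refine (norm_sub_le _ _).trans ?_
  refine (add_le_add ((norm_sub_le _ _).trans (add_le_add ((norm_add_le _ _).trans
    (add_le_add ((norm_add_le _ _).trans (add_le_add hb1 hb2)) hall)) hb4)) hb5).trans
    (le_of_eq ?_)
  ring

end Pool.Agent.H35.W

end

section

/-!
# W SecondS: the second moment, subset version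

Same proof as `EHB.second_moment` (file `H76/EHB/Second.lean`: copy it), with `ks K` replaced by a subset `S ⊆ ks K`,
using `expandS`, `small_denS`; `diag_bound`, `large1`, `large2` by monotonicity (`DD ≥ 0`, sums of norms `≥ 0`).
-/

set_option autoImplicit false

namespace Pool.Agent.H35.W

open Finset MeasureTheory
open Pool.Agent.H92.EH (red)
open Pool.Agent.H76.EHB

/-- the small denominators: exchange of the sums -/
private theorem SecondS_swap (S : Finset ℤ) (R : ℕ) (Φ : ℤ → ℤ → ℝ → ℂ) :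
    ∑ k1 ∈ S, ∑ k2 ∈ S.erase k1, ∑ d ∈ (k2 - k1).natAbs.divisors.filter (fun d => ¬ R < d),
      ∑ c ∈ red d, Φ k1 k2 ((c : ℝ) / d)
      = ∑ d ∈ Icc 1 R, ∑ c ∈ red d, ∑ k1 ∈ S,
          ∑ k2 ∈ S.filter (fun k2 => k2 ≠ k1 ∧ (d : ℤ) ∣ k2 - k1), Φ k1 k2 ((c : ℝ) / d) := by
  have h1 : ∀ k1 ∈ S, ∀ k2 ∈ S.erase k1,
      ∑ d ∈ (k2 - k1).natAbs.divisors.filter (fun d => ¬ R < d), ∑ c ∈ red d, Φ k1 k2 ((c : ℝ) / d)
      = ∑ d ∈ Icc 1 R, if (d : ℤ) ∣ k2 - k1 then ∑ c ∈ red d, Φ k1 k2 ((c : ℝ) / d) else 0 := by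
    intro k1 _ k2 hk2
    rw [← sum_filter]
    refine sum_congr ?_ fun _ _ => rfl
    ext d
    rw [mem_filter, mem_filter, Nat.mem_divisors, mem_Icc, Int.natCast_dvd]
    have hne : (k2 - k1).natAbs ≠ 0 := by
      rw [mem_erase] at hk2
      rw [Int.natAbs_ne_zero]
      exact sub_ne_zero.mpr hk2.1
    constructor
    · rintro ⟨⟨h2, -⟩, h3⟩
      exact ⟨⟨Nat.pos_of_ne_zero (fun h => hne (by rw [h, zero_dvd_iff] at h2; exact h2)),
        not_lt.mp h3⟩, h2⟩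
    · rintro ⟨⟨h2, h3⟩, h4⟩
      exact ⟨⟨h4, hne⟩, not_lt.mpr h3⟩
  calc _ = ∑ k1 ∈ S, ∑ k2 ∈ S.erase k1, ∑ d ∈ Icc 1 R,
        if (d : ℤ) ∣ k2 - k1 then ∑ c ∈ red d, Φ k1 k2 ((c : ℝ) / d) else 0 :=
        sum_congr rfl fun k1 hk1 => sum_congr rfl fun k2 hk2 => h1 k1 hk1 k2 hk2
    _ = ∑ k1 ∈ S, ∑ d ∈ Icc 1 R, ∑ k2 ∈ S.erase k1,
        if (d : ℤ) ∣ k2 - k1 then ∑ c ∈ red d, Φ k1 k2 ((c : ℝ) / d) else 0 :=
        sum_congr rfl fun k1 _ => sum_comm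
    _ = ∑ d ∈ Icc 1 R, ∑ k1 ∈ S, ∑ k2 ∈ S.erase k1,
        if (d : ℤ) ∣ k2 - k1 then ∑ c ∈ red d, Φ k1 k2 ((c : ℝ) / d) else 0 := sum_comm
    _ = _ := by
        refine sum_congr rfl fun d _ => ?_
        have h2 : ∀ k1 ∈ S, ∑ k2 ∈ S.erase k1,
            (if (d : ℤ) ∣ k2 - k1 then ∑ c ∈ red d, Φ k1 k2 ((c : ℝ) / d) else 0)
            = ∑ c ∈ red d, ∑ k2 ∈ S.filter (fun k2 => k2 ≠ k1 ∧ (d : ℤ) ∣ k2 - k1),
              Φ k1 k2 ((c : ℝ) / d) := by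
          intro k1 _
          rw [← sum_filter, sum_comm]
          refine sum_congr rfl fun c _ => sum_congr ?_ fun _ _ => rfl
          ext k2
          rw [mem_filter, mem_erase, mem_filter]
          tauto
        rw [sum_congr rfl h2, sum_comm]

private theorem SecondS_DD_nonneg (f : ℕ → ℝ) (N : ℕ) (A : ℝ) (a0 : ℤ) (Z : ℕ) (k : ℤ) :
    0 ≤ DD f N A a0 Z k := by
  unfold DD
  exact sum_nonneg fun n _ => mul_nonneg (sq_nonneg _) (sum_nonneg fun a _ => (Real.exp_pos _).le)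

theorem second_momentS (f : ℕ → ℝ) (N K A X R r0 : ℕ) (S : Finset ℤ) (hS : S ⊆ ks K) (L : ℝ)
    (a0 : ℤ) (hK : 1 ≤ K) (hKA : K ≤ A) (hR : 1 ≤ R) (hr0 : 1 ≤ r0) (hL : 1 ≤ L)
    (hKY : K * (L / (A * r0)) ≤ 1 / 2) (U : ℝ) (hU : 0 ≤ U)
    (hJ : ∀ d ∈ Icc 1 R, ∀ c ∈ red d, ∀ l ∈ range d, ∀ v : ℝ,
      JJT f N (S.filter (fun k => (d : ℤ) ∣ k - l)) ((c : ℝ) / d) (a0 + A * v) (L / (A * r0))
        ≤ U * (1 + |v|) ^ 12) :
    ∑ m ∈ Icc 1 X, ∑ a ∈ Ioc a0 (a0 + A), (∑ k ∈ S, ft f N (a + k * m)) ^ 2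
      ≤ Real.exp Real.pi * (4 * S2 f N * (K + A * (1 + Real.log K))
          + 128 * S2 f N * (1 + Real.log (2 * K)) * (A * K / R + K ^ 2)
          + R ^ 2 * (34 * A * (1 + Real.log K) * r0 * S2 f N + 8 * K ^ 2 * N * S2 f N * Real.exp (-L ^ 2)
            + 10000 * A * R * U)) := by
  have hA : 1 ≤ A := hK.trans hKA
  have hA0 : (0 : ℝ) < A := by exact_mod_cast hA
  have hS2 := S2_nonneg f N
  have hlogK : 0 ≤ Real.log K := Real.log_natCast_nonneg K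
  obtain ⟨Z, hZ⟩ := expandS f N K A X S hS a0 hA
  refine hZ.trans (mul_le_mul_of_nonneg_left ?_ (Real.exp_pos _).le)
  have hdiag : ∑ k ∈ S, DD f N A a0 Z k ≤ 4 * S2 f N * (K + A * (1 + Real.log K)) :=
    (sum_le_sum_of_subset_of_nonneg hS fun k _ _ => SecondS_DD_nonneg f N A a0 Z k).trans
      (diag_bound f N K A Z a0 hA hK)
  -- the off-diagonal sum
  have hoff : ((∑ k1 ∈ S, ∑ k2 ∈ S.erase k1, Soff f N A a0 k1 k2 : ℝ) : ℂ)
      = ∑ k1 ∈ S, ∑ k2 ∈ S.erase k1, ∑ d ∈ (k2 - k1).natAbs.divisors.filter (fun d => R < d),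
          ∑ c ∈ red d, IpS f N A a0 ((c : ℝ) / d) k1 k2 Set.univ
        + ∑ k1 ∈ S, ∑ k2 ∈ S.erase k1,
          ∑ d ∈ (k2 - k1).natAbs.divisors.filter (fun d => ¬ R < d),
          ∑ c ∈ red d, IpS f N A a0 ((c : ℝ) / d) k1 k2 Set.univ := by
    rw [← sum_add_distrib, Complex.ofReal_sum]
    refine sum_congr rfl fun k1 _ => ?_
    rw [← sum_add_distrib, Complex.ofReal_sum]
    refine sum_congr rfl fun k2 hk2 => ?_
    rw [mem_erase] at hk2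
    rw [Soff_den f N A hA0 a0 k1 k2 (Ne.symm hk2.1), sum_filter_add_sum_filter_not]
  have hlarge : ‖∑ k1 ∈ S, ∑ k2 ∈ S.erase k1,
      ∑ d ∈ (k2 - k1).natAbs.divisors.filter (fun d => R < d),
        ∑ c ∈ red d, IpS f N A a0 ((c : ℝ) / d) k1 k2 Set.univ‖
      ≤ 128 * S2 f N * (1 + Real.log (2 * K)) * (A * K / R + K ^ 2) := by
    refine le_trans ?_ ((large1 f N K R A a0 hA0).trans ((mul_le_mul_of_nonneg_left
      (large2 f N K R A hA0 hK hR) (by norm_num)).trans (le_of_eq (by ring))))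
    have hin : ∀ k1 k2 : ℤ, 0 ≤ ∑ d ∈ (k2 - k1).natAbs.divisors.filter (fun d => R < d),
        ∑ c ∈ red d, ‖IpS f N A a0 ((c : ℝ) / d) k1 k2 Set.univ‖ :=
      fun k1 k2 => sum_nonneg fun d _ => sum_nonneg fun c _ => norm_nonneg _
    refine (norm_sum_le _ _).trans ?_
    refine le_trans (sum_le_sum fun k1 _ => ?_)
      (sum_le_sum_of_subset_of_nonneg hS fun k1 _ _ => sum_nonneg fun k2 _ => hin k1 k2)
    refine (norm_sum_le _ _).trans ?_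
    refine le_trans (sum_le_sum fun k2 _ => ?_)
      (sum_le_sum_of_subset_of_nonneg (erase_subset_erase k1 hS) fun k2 _ _ => hin k1 k2)
    refine (norm_sum_le _ _).trans (sum_le_sum fun d _ => ?_)
    exact norm_sum_le _ _
  set B : ℝ := 34 * A * (1 + Real.log K) * r0 * S2 f N
    + 8 * K ^ 2 * N * S2 f N * Real.exp (-L ^ 2) + 10000 * A * R * U with hB
  have hB0 : 0 ≤ B := by
    rw [hB]
    have e1 : 0 ≤ 34 * (A : ℝ) * (1 + Real.log K) * r0 * S2 f N := by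
      have : 0 ≤ 1 + Real.log K := by linarith
      positivity
    have e2 : 0 ≤ 8 * (K : ℝ) ^ 2 * N * S2 f N * Real.exp (-L ^ 2) := by positivity
    have e3 : 0 ≤ 10000 * (A : ℝ) * R * U := by positivity
    linarith
  have hsmall : ‖∑ k1 ∈ S, ∑ k2 ∈ S.erase k1,
      ∑ d ∈ (k2 - k1).natAbs.divisors.filter (fun d => ¬ R < d),
        ∑ c ∈ red d, IpS f N A a0 ((c : ℝ) / d) k1 k2 Set.univ‖ ≤ R ^ 2 * B := by
    rw [SecondS_swap S R (fun k1 k2 α => IpS f N A a0 α k1 k2 Set.univ)]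
    refine (norm_sum_le _ _).trans ?_
    have h1 : ∀ d ∈ Icc 1 R, ‖∑ c ∈ red d, ∑ k1 ∈ S,
        ∑ k2 ∈ S.filter (fun k2 => k2 ≠ k1 ∧ (d : ℤ) ∣ k2 - k1),
          IpS f N A a0 ((c : ℝ) / d) k1 k2 Set.univ‖ ≤ R * B := by
      intro d hd
      have hd' := mem_Icc.mp hd
      refine (norm_sum_le _ _).trans ?_
      have h2 : ∀ c ∈ red d, ‖∑ k1 ∈ S,
          ∑ k2 ∈ S.filter (fun k2 => k2 ≠ k1 ∧ (d : ℤ) ∣ k2 - k1),
          IpS f N A a0 ((c : ℝ) / d) k1 k2 Set.univ‖ ≤ B := by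
        intro c hc
        refine (small_denS f N K d r0 S hS A ((c : ℝ) / d) L a0 hK (by exact_mod_cast hKA) hd'.1 hr0 hL
          hKY U hU (fun l hl v => hJ d hd c hc l hl v)).trans ?_
        rw [hB]
        have e3 : 10000 * (A : ℝ) * d * U ≤ 10000 * A * R * U := by
          have hdR : (d : ℝ) ≤ R := by exact_mod_cast hd'.2
          gcongr
        linarith
      refine (sum_le_sum h2).trans ?_
      rw [sum_const, Pool.Agent.H92.EH.card_red, nsmul_eq_mul]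
      refine mul_le_mul_of_nonneg_right ?_ hB0
      exact_mod_cast (Nat.totient_le d).trans hd'.2
    refine (sum_le_sum h1).trans (le_of_eq ?_)
    rw [sum_const, Nat.card_Icc, nsmul_eq_mul, Nat.add_sub_cancel]
    ring
  have hfin : ∑ k1 ∈ S, ∑ k2 ∈ S.erase k1, Soff f N A a0 k1 k2
      ≤ 128 * S2 f N * (1 + Real.log (2 * K)) * (A * K / R + K ^ 2) + R ^ 2 * B := by
    refine (le_abs_self _).trans ?_
    rw [← Real.norm_eq_abs, ← Complex.norm_real, hoff]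
    exact (norm_add_le _ _).trans (add_le_add hlarge hsmall)
  linarith

end Pool.Agent.H35.W

end
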