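import Pool.Agent.H94.EH.M01
import Pool.Agent.H94.EH.M31

/-! The parts of this file: H35.W.MelG, H35.W.MelCor, H35.W.MelTl, H35.W.IIE, H35.W.JJE. -/

section

/-!
# W MelG: the Mellin transform of the damped exponential sum, and the size of the Gamma factor

`ge f N α a Θ s θ = ∑_n f(n) ee(nα) exp(-w_n θ)`, `w_n = 1/Θ - 2πi s (n - a)`, `Re w_n > 0`, so
`Mel (ge ..) t = Γ(1/2 - it) ∑_n f(n) ee(nα) w_n^{-(1/2 - it)}` (`Complex.integral_cpow_mul_exp_neg_mul_Ioi`;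
`mellin g z = ∫_{(0,∞)} θ^{z-1} g(θ) dθ`, `Mel g t = mellin g (1/2 - it)`).
`|Γ(1/2 - it)|^2 = Γ(1/2-it) Γ(1/2+it) = π / sin(π/2 - iπt) = π / cosh(πt) ≤ 2π e^{-π|t|}` (`Complex.Gamma_mul_Gamma_one_sub`,
`Complex.Gamma_conj`), so `|Γ(1/2 - it)| ≤ 3 e^{-π|t|/2}` (and `≤ 2.51 e^{-π|t|/2}`).
-/

set_option autoImplicit false

namespace Pool.Agent.H35.W

open Finset MeasureTheory
open Pool.Agent.H91.PK (ee)
open Pool.Agent.H76.EHB

/-- the integrand is continuous on the half line -/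
private theorem MelG_cont (z w : ℂ) :
    ContinuousOn (fun θ : ℝ => (θ : ℂ) ^ (z - 1) * Complex.exp (-(w * θ))) (Set.Ioi 0) := by
  apply ContinuousOn.mul
  · intro θ hθ
    apply ContinuousAt.continuousWithinAt
    exact Complex.continuousAt_ofReal_cpow_const θ (z - 1) (Or.inr (ne_of_gt hθ))
  · fun_prop

private theorem MelG_norm (z w : ℂ) {θ : ℝ} (hθ : 0 < θ) :
    ‖(θ : ℂ) ^ (z - 1) * Complex.exp (-(w * θ))‖ = θ ^ (z.re - 1) * Real.exp (-(w.re) * θ) := by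
  rw [norm_mul, Complex.norm_cpow_eq_rpow_re_of_pos hθ, Complex.norm_exp]
  simp

private theorem MelG_int {z w : ℂ} (hz : 0 < z.re) (hw : 0 < w.re) :
    IntegrableOn (fun θ : ℝ => (θ : ℂ) ^ (z - 1) * Complex.exp (-(w * θ))) (Set.Ioi 0) := by
  have h1 : IntegrableOn (fun θ : ℝ => θ ^ (z.re - 1) * Real.exp (-(w.re) * θ ^ (1 : ℝ)))
      (Set.Ioi 0) := integrableOn_rpow_mul_exp_neg_mul_rpow (by linarith) one_pos hw
  refine Integrable.mono' h1 ((MelG_cont z w).aestronglyMeasurable measurableSet_Ioi) ?_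
  rw [ae_restrict_iff' measurableSet_Ioi]
  refine Filter.Eventually.of_forall fun θ hθ => ?_
  rw [MelG_norm z w hθ, Real.rpow_one]

private theorem MelG_diff {z w : ℂ} (hz : 0 < z.re) (hw : 0 < w.re) :
    DifferentiableAt ℂ (fun w : ℂ => ∫ θ in Set.Ioi (0 : ℝ),
      (θ : ℂ) ^ (z - 1) * Complex.exp (-(w * θ))) w := by
  have hε : 0 < w.re / 2 := by linarith
  have hI : IntegrableOn (fun θ : ℝ => θ ^ z.re * Real.exp (-(w.re / 2) * θ ^ (1 : ℝ)))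
      (Set.Ioi 0) := integrableOn_rpow_mul_exp_neg_mul_rpow (by linarith) one_pos hε
  have h := hasDerivAt_integral_of_dominated_loc_of_deriv_le
    (μ := volume.restrict (Set.Ioi (0 : ℝ))) (x₀ := w)
    (F := fun (w : ℂ) (θ : ℝ) => (θ : ℂ) ^ (z - 1) * Complex.exp (-(w * θ)))
    (F' := fun (w : ℂ) (θ : ℝ) => (θ : ℂ) ^ (z - 1) * (Complex.exp (-(w * θ)) * (-θ)))
    (bound := fun θ : ℝ => θ ^ z.re * Real.exp (-(w.re / 2) * θ ^ (1 : ℝ)))
    (s := Metric.ball w (w.re / 2))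
    (Metric.ball_mem_nhds w hε)
    (Filter.Eventually.of_forall fun w' =>
      (MelG_cont z w').aestronglyMeasurable measurableSet_Ioi)
    (MelG_int hz hw)
    (ContinuousOn.aestronglyMeasurable (by
      have h1 := (MelG_cont z w).mul
        (by fun_prop : ContinuousOn (fun θ : ℝ => (-θ : ℂ)) (Set.Ioi 0))
      refine h1.congr fun θ _ => ?_
      rw [Pi.mul_apply]
      ring) measurableSet_Ioi)
    (by
      rw [ae_restrict_iff' measurableSet_Ioi]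
      refine Filter.Eventually.of_forall fun θ hθ w' hw' => ?_
      have hθ0 : (0 : ℝ) < θ := hθ
      have hre : w.re / 2 ≤ w'.re := by
        have h1 := Complex.abs_re_le_norm (w' - w)
        rw [Metric.mem_ball, dist_eq_norm] at hw'
        rw [Complex.sub_re] at h1
        have h2 := (abs_le.1 (h1.trans hw'.le)).1
        linarith
      have e1 : (θ : ℂ) ^ (z - 1) * (Complex.exp (-(w' * θ)) * (-θ)) =
          ((θ : ℂ) ^ (z - 1) * Complex.exp (-(w' * θ))) * (-θ) := by ring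
      rw [e1, norm_mul, MelG_norm z w' hθ0, norm_neg, Complex.norm_real, Real.norm_eq_abs,
        abs_of_pos hθ0, Real.rpow_one]
      have e2 : θ ^ (z.re - 1) * Real.exp (-(w'.re) * θ) * θ =
          θ ^ z.re * Real.exp (-(w'.re) * θ) := by
        rw [Real.rpow_sub_one hθ0.ne']
        field_simp
      rw [e2]
      apply mul_le_mul_of_nonneg_left _ (by positivity)
      apply Real.exp_le_exp.2
      nlinarith)
    hI
    (by
      refine Filter.Eventually.of_forall fun θ w' _ => ?_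
      have h1 : HasDerivAt (fun w : ℂ => -(w * θ)) (-(1 * (θ : ℂ))) w' :=
        ((hasDerivAt_id w').mul_const (θ : ℂ)).neg
      have h2 := (h1.cexp).const_mul ((θ : ℂ) ^ (z - 1))
      have e3 : (θ : ℂ) ^ (z - 1) * (Complex.exp (-(w' * θ)) * -(1 * (θ : ℂ))) =
          (θ : ℂ) ^ (z - 1) * (Complex.exp (-(w' * θ)) * (-θ)) := by rw [one_mul]
      rw [e3] at h2
      exact h2)
  exact h.2.differentiableAt

/-- the Gamma integral with a complex scale -/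
private theorem MelG_gamma {z w : ℂ} (hz : 0 < z.re) (hw : 0 < w.re) :
    ∫ θ in Set.Ioi (0 : ℝ), (θ : ℂ) ^ (z - 1) * Complex.exp (-(w * θ)) =
      Complex.Gamma z * w ^ (-z) := by
  have hopen : IsOpen {w : ℂ | 0 < w.re} := isOpen_lt continuous_const Complex.continuous_re
  have hconn : IsPreconnected {w : ℂ | 0 < w.re} :=
    (convex_halfSpace_re_gt 0).isPreconnected
  have hF : AnalyticOnNhd ℂ (fun w : ℂ => ∫ θ in Set.Ioi (0 : ℝ),
      (θ : ℂ) ^ (z - 1) * Complex.exp (-(w * θ))) {w : ℂ | 0 < w.re} :=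
    DifferentiableOn.analyticOnNhd
      (fun w hw => (MelG_diff hz hw).differentiableWithinAt) hopen
  have hG : AnalyticOnNhd ℂ (fun w : ℂ => Complex.Gamma z * w ^ (-z)) {w : ℂ | 0 < w.re} := by
    refine DifferentiableOn.analyticOnNhd (fun w hw => ?_) hopen
    refine DifferentiableAt.differentiableWithinAt ?_
    exact (differentiableAt_id.cpow_const (Or.inl hw)).const_mul _
  have h1 : (1 : ℂ) ∈ {w : ℂ | 0 < w.re} := by simp
  have hreal : ∀ r : ℝ, 0 < r → (∫ θ in Set.Ioi (0 : ℝ),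
      (θ : ℂ) ^ (z - 1) * Complex.exp (-((r : ℂ) * θ))) = Complex.Gamma z * (r : ℂ) ^ (-z) := by
    intro r hr
    rw [Complex.integral_cpow_mul_exp_neg_mul_Ioi hz hr, mul_comm]
    congr 1
    rw [one_div, Complex.cpow_neg, Complex.inv_cpow]
    rw [Complex.arg_ofReal_of_nonneg hr.le]
    exact Real.pi_ne_zero.symm
  have hfreq : ∃ᶠ w in nhdsWithin (1 : ℂ) {1}ᶜ, (∫ θ in Set.Ioi (0 : ℝ),
      (θ : ℂ) ^ (z - 1) * Complex.exp (-(w * θ))) = Complex.Gamma z * w ^ (-z) := by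
    have ht : Filter.Tendsto (fun r : ℝ => (r : ℂ)) (nhdsWithin (1 : ℝ) {1}ᶜ)
        (nhdsWithin (1 : ℂ) {1}ᶜ) := by
      apply tendsto_nhdsWithin_of_tendsto_nhds_of_eventually_within
      · have := (Complex.continuous_ofReal.tendsto (1 : ℝ)).mono_left
          (nhdsWithin_le_nhds (s := {1}ᶜ))
        simpa using this
      · refine eventually_nhdsWithin_of_forall fun r hr => ?_
        simpa using hr
    refine ht.frequently ?_
    apply Filter.Eventually.frequently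
    have h2 : ∀ᶠ r : ℝ in nhds 1, 0 < r := lt_mem_nhds one_pos
    have h3 : ∀ᶠ r : ℝ in nhdsWithin 1 {1}ᶜ, 0 < r := nhdsWithin_le_nhds h2
    exact h3.mono fun r hr => hreal r hr
  exact hF.eqOn_of_preconnected_of_frequently_eq hG hconn h1 hfreq hw

theorem mel_ge (f : ℕ → ℝ) (N : ℕ) (α a Θ s t : ℝ) (hΘ : 0 < Θ) :
    Mel (ge f N α a Θ s) t = Complex.Gamma (1 / 2 - t * Complex.I)
      * ∑ n ∈ Icc 1 N, (f n : ℂ) * ee (n * α)
        * (((1 / Θ : ℝ) : ℂ) - ((2 * Real.pi * s * ((n : ℝ) - a) : ℝ) : ℂ) * Complex.I)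
            ^ (-(1 / 2 - t * Complex.I) : ℂ) := by
  obtain ⟨z, hz⟩ : ∃ z : ℂ, z = 1 / 2 - t * Complex.I := ⟨_, rfl⟩
  have hzre : 0 < z.re := by rw [hz]; simp
  let w : ℕ → ℂ := fun n =>
    ((1 / Θ : ℝ) : ℂ) - ((2 * Real.pi * s * ((n : ℝ) - a) : ℝ) : ℂ) * Complex.I
  have hw : ∀ n, 0 < (w n).re := by
    intro n
    have : (w n).re = 1 / Θ := by
      simp only [w, Complex.sub_re, Complex.ofReal_re, Complex.re_ofReal_mul, Complex.I_re,
        mul_zero, sub_zero]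
    rw [this]
    positivity
  rw [Mel, ← hz, mellin]
  have h1 : ∀ θ ∈ Set.Ioi (0 : ℝ), (θ : ℂ) ^ (z - 1) • ge f N α a Θ s θ =
      ∑ n ∈ Icc 1 N, ((f n : ℂ) * ee (n * α)) *
        ((θ : ℂ) ^ (z - 1) * Complex.exp (-(w n * θ))) := by
    intro θ hθ
    rw [ge, if_pos (show 0 < θ from hθ), FF, smul_eq_mul, Finset.sum_mul, Finset.sum_mul, Finset.mul_sum]
    refine Finset.sum_congr rfl fun n _ => ?_
    have h2 : ee (n * (α + s * θ)) * ee (-(a * s * θ)) * ((Real.exp (-(θ / Θ)) : ℝ) : ℂ) =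
        ee (n * α) * Complex.exp (-(w n * θ)) := by
      simp only [ee, w]
      rw [Complex.ofReal_exp, ← Complex.exp_add, ← Complex.exp_add, ← Complex.exp_add]
      congr 1
      push_cast
      ring
    calc (θ : ℂ) ^ (z - 1) * ((f n : ℂ) * ee (n * (α + s * θ)) * ee (-(a * s * θ)) *
          ((Real.exp (-(θ / Θ)) : ℝ) : ℂ))
        = (θ : ℂ) ^ (z - 1) * (f n : ℂ) * (ee (n * (α + s * θ)) * ee (-(a * s * θ)) *
          ((Real.exp (-(θ / Θ)) : ℝ) : ℂ)) := by ring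
      _ = _ := by rw [h2]; ring
  rw [setIntegral_congr_fun measurableSet_Ioi h1, integral_finsetSum]
  · rw [Finset.mul_sum]
    refine Finset.sum_congr rfl fun n _ => ?_
    rw [integral_const_mul, MelG_gamma hzre (hw n)]
    simp only [w]
    ring
  · intro n _
    exact (MelG_int hzre (hw n)).const_mul _

theorem gamma_half (t : ℝ) :
    ‖Complex.Gamma (1 / 2 - t * Complex.I)‖ ≤ 3 * Real.exp (-(Real.pi * |t| / 2)) := by
  obtain ⟨z, hz⟩ : ∃ z : ℂ, z = 1 / 2 - t * Complex.I := ⟨_, rfl⟩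
  rw [← hz]
  have h1 : (1 : ℂ) - z = (starRingEnd ℂ) z := by
    rw [hz]
    apply Complex.ext
    · simp; norm_num
    · simp
  have h2 : Complex.Gamma z * (starRingEnd ℂ) (Complex.Gamma z) =
      Real.pi / Complex.sin (Real.pi * z) := by
    rw [← Complex.Gamma_conj, ← h1]
    exact Complex.Gamma_mul_Gamma_one_sub z
  have h3 : Complex.sin (Real.pi * z) = ((Real.cosh (Real.pi * t) : ℝ) : ℂ) := by
    have e : (Real.pi : ℂ) * z = Real.pi / 2 - (Real.pi * t : ℝ) * Complex.I := by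
      rw [hz]; push_cast; ring
    rw [e, Complex.sin_pi_div_two_sub, Complex.cos_mul_I, Complex.ofReal_cosh]
  have h4 : ‖Complex.Gamma z‖ ^ 2 = Real.pi / Real.cosh (Real.pi * t) := by
    have h5 := congrArg norm h2
    rw [h3, norm_mul, Complex.norm_conj, norm_div, Complex.norm_real, Complex.norm_real,
      Real.norm_eq_abs, Real.norm_eq_abs, abs_of_pos Real.pi_pos,
      abs_of_pos (Real.cosh_pos _)] at h5
    rw [pow_two]
    exact h5
  have h5 : Real.exp (Real.pi * |t|) / 2 ≤ Real.cosh (Real.pi * t) := by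
    rw [← Real.cosh_abs, abs_mul, abs_of_pos Real.pi_pos, Real.cosh_eq]
    have := Real.exp_pos (-(Real.pi * |t|))
    linarith
  have h6 : ‖Complex.Gamma z‖ ^ 2 ≤ (3 * Real.exp (-(Real.pi * |t| / 2))) ^ 2 := by
    rw [h4, mul_pow, ← Real.exp_nat_mul]
    have e1 : ((2 : ℕ) : ℝ) * (-(Real.pi * |t| / 2)) = -(Real.pi * |t|) := by push_cast; ring
    rw [e1, Real.exp_neg]
    have hE := Real.exp_pos (Real.pi * |t|)
    calc Real.pi / Real.cosh (Real.pi * t) ≤ Real.pi / (Real.exp (Real.pi * |t|) / 2) :=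
          div_le_div_of_nonneg_left Real.pi_pos.le (by positivity) h5
      _ = (2 * Real.pi) * (Real.exp (Real.pi * |t|))⁻¹ := by field_simp
      _ ≤ 3 ^ 2 * (Real.exp (Real.pi * |t|))⁻¹ := by
          apply mul_le_mul_of_nonneg_right _ (by positivity)
          have := Real.pi_lt_four
          linarith
  exact le_of_sq_le_sq h6 (by positivity)

end Pool.Agent.H35.W

end

section

/-!
# W MelCor: the Mellin transform is bounded by the correlations with `(n - a0)^{it}`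

Notation: `w_u = 1/Θ - 2πi s (u - a)`, `h(u) = w_u^{-1/2+it} (u - a0)^{-it}` for real `u ≥ M ≥ a0 + S0`
(`(u-a0)^{-it} = exp(-it log(u - a0)) = ee(-(t/2π) log(u-a0))`).  As `|a - a0| ≤ S0/2`: `u - a ≥ (u - a0)/2 > 0`, `|w_u| ≥ 2π (u-a) ≥ π (u - a0)`.
`|h(u)| = |w_u|^{-1/2} exp(-t arg w_u) ≤ (π S0)^{-1/2} e^{π|t|/2}` (`|arg w_u| < π/2`).
`h'/h = (-1/2 + it) w'/w - it/(u - a0)`, `w'/w = 1/((u - a) + i s/(2πΘ))`, so
`|h'/h| ≤ 1/(u - a0) + |t| (|a - a0| + 1/(2πΘ)) · 2/(u - a0)^2`, and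
`∫_M^N |h'| ≤ sup|h| (log N + 2 |t| (|a-a0| + 1/Θ)/S0)`.
Partial summation (`g` supported on `(M, N]`, partial sums of `g(n) ee(nα) (n-a0)^{it}` are `cor g a0 M α (t/(2π)) y`,
bounded by `Cb`): `|∑_n g(n) ee(nα) w_n^{-1/2+it}| ≤ Cb (sup|h| + ∑_{n} |h(n+1) - h(n)|)`.  Multiply with
`|Γ(1/2 - it)| ≤ 3 e^{-π|t|/2}` (`gamma_half`), use `mel_ge`.  (If `N ≤ M` then `g = 0` and the left side is 0.)
`g` real valued, cast to `ℂ`.
-/

set_option autoImplicit false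

namespace Pool.Agent.H35.W

open Finset MeasureTheory
open Pool.Agent.H91.PK (ee)
open Pool.Agent.H76.EHB

/-- the base of the power -/
private noncomputable def wM (Θ s a : ℝ) (u : ℂ) : ℂ :=
  ((1 / Θ : ℝ) : ℂ) - (2 * Real.pi * s * (u - a)) * Complex.I

private noncomputable def hMf (Θ s a t : ℝ) (a0 : ℕ) (u : ℂ) : ℂ :=
  wM Θ s a u ^ (-(1 / 2 - t * Complex.I) : ℂ) * Complex.exp (-(t * Complex.I) * Complex.log (u - a0))

private lemma wM_re (Θ s a u : ℝ) : (wM Θ s a (u : ℂ)).re = 1 / Θ := by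
  simp [wM]

private lemma wM_im (Θ s a u : ℝ) : (wM Θ s a (u : ℂ)).im = -(2 * Real.pi * s * (u - a)) := by
  simp [wM]

private lemma wM_slit (Θ s a u : ℝ) (hΘ : 0 < Θ) : wM Θ s a (u : ℂ) ∈ Complex.slitPlane := by
  left
  rw [wM_re]; positivity

private lemma wM_ne (Θ s a u : ℝ) (hΘ : 0 < Θ) : wM Θ s a (u : ℂ) ≠ 0 :=
  Complex.slitPlane_ne_zero (wM_slit Θ s a u hΘ)

private lemma wM_norm (Θ s a u : ℝ) (hs : s = 1 ∨ s = -1) :
    2 * Real.pi * |u - a| ≤ ‖wM Θ s a (u : ℂ)‖ := by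
  refine le_trans ?_ (Complex.abs_im_le_norm _)
  rw [wM_im, abs_neg, abs_mul, abs_mul]
  have : |s| = 1 := by rcases hs with rfl | rfl <;> simp
  rw [this, abs_of_pos Real.two_pi_pos, mul_one]

private lemma pow_norm (w : ℂ) (t : ℝ) (hw : 0 < w.re) (b : ℝ) (hb : 0 < b) (hwb : b ≤ ‖w‖) :
    ‖w ^ (-(1 / 2 - t * Complex.I) : ℂ)‖ ≤ (Real.sqrt b)⁻¹ * Real.exp (Real.pi * |t| / 2) := by
  have hw0 : w ≠ 0 := by rintro rfl; simp at hw
  have hn : 0 < ‖w‖ := norm_pos_iff.2 hw0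
  rw [Complex.norm_cpow_of_ne_zero hw0]
  have hre : (-(1 / 2 - t * Complex.I) : ℂ).re = -(1 / 2) := by simp
  have him : (-(1 / 2 - t * Complex.I) : ℂ).im = t := by simp
  rw [hre, him, div_eq_mul_inv, ← Real.exp_neg, Real.rpow_neg hn.le, ← Real.sqrt_eq_rpow]
  apply mul_le_mul
  · exact inv_anti₀ (Real.sqrt_pos.2 hb) (Real.sqrt_le_sqrt hwb)
  · apply Real.exp_le_exp.2
    have h1 : |Complex.arg w| ≤ Real.pi / 2 := by
      rw [Complex.abs_arg_le_pi_div_two_iff]; exact hw.le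
    calc -(Complex.arg w * t) ≤ |Complex.arg w * t| := neg_le_abs _
      _ = |Complex.arg w| * |t| := abs_mul _ _
      _ ≤ Real.pi / 2 * |t| := by gcongr
      _ = Real.pi * |t| / 2 := by ring
  · positivity
  · positivity

private lemma hM_norm (Θ s a t S0 : ℝ) (a0 : ℕ) (hs : s = 1 ∨ s = -1) (hΘ : 0 < Θ)
    (hS0 : 1 ≤ S0) (ha : |a - a0| ≤ S0 / 2) (u : ℝ) (hu : (a0 : ℝ) + S0 ≤ u) :
    ‖hMf Θ s a t a0 (u : ℂ)‖ ≤ (Real.sqrt (Real.pi * S0))⁻¹ * Real.exp (Real.pi * |t| / 2) := by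
  have ha1 := abs_le.1 ha
  have hpi := Real.pi_pos
  rw [hMf, norm_mul]
  have h1 : ‖Complex.exp (-(t * Complex.I) * Complex.log ((u : ℂ) - a0))‖ = 1 := by
    have e : (-(t * Complex.I) * Complex.log ((u : ℂ) - a0))
        = ((-(t * Real.log (u - a0)) : ℝ) : ℂ) * Complex.I := by
      have h2 : ((u : ℂ) - a0) = ((u - a0 : ℝ) : ℂ) := by push_cast; ring
      rw [h2, ← Complex.ofReal_log (by linarith only [hS0, hu])]
      push_cast
      ring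
    rw [e, Complex.norm_exp_ofReal_mul_I]
  rw [h1, mul_one]
  apply pow_norm _ _ (by rw [wM_re]; positivity) _ (by positivity)
  refine le_trans ?_ (wM_norm Θ s a u hs)
  have h3 : S0 / 2 ≤ |u - a| := by
    rw [abs_of_nonneg (by linarith only [hS0, hu, ha1])]; linarith only [hu, ha1]
  nlinarith only [hpi, h3]

private lemma hM_deriv (Θ s a t : ℝ) (a0 : ℕ) (hΘ : 0 < Θ) (u : ℝ) (hu : (a0 : ℝ) < u) :
    HasDerivAt (fun v : ℝ => hMf Θ s a t a0 (v : ℂ))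
      (hMf Θ s a t a0 (u : ℂ) * ((-(1 / 2 - t * Complex.I)) * (-(2 * Real.pi * s * Complex.I))
        / wM Θ s a (u : ℂ) - t * Complex.I / ((u : ℂ) - a0))) u := by
  have hua : ((u : ℂ) - a0) = ((u - a0 : ℝ) : ℂ) := by push_cast; ring
  have hsl : ((u : ℂ) - a0) ∈ Complex.slitPlane := by
    rw [hua]; exact Complex.ofReal_mem_slitPlane.2 (by linarith only [hu])
  have hne : ((u : ℂ) - a0) ≠ 0 := Complex.slitPlane_ne_zero hsl
  have hw := wM_slit Θ s a u hΘ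
  have hwn := wM_ne Θ s a u hΘ
  have d1 : HasDerivAt (fun v : ℂ => wM Θ s a v) (-(2 * Real.pi * s * Complex.I)) (u : ℂ) := by
    unfold wM
    have := (((hasDerivAt_id (u : ℂ)).sub_const (a : ℂ)).const_mul (2 * Real.pi * s : ℂ)).mul_const
      Complex.I |>.const_sub (((1 / Θ : ℝ) : ℂ))
    simpa using this
  have d2 : HasDerivAt (fun v : ℂ => wM Θ s a v ^ (-(1 / 2 - t * Complex.I) : ℂ))
      ((-(1 / 2 - t * Complex.I)) * wM Θ s a (u : ℂ) ^ ((-(1 / 2 - t * Complex.I)) - 1 : ℂ)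
        * (-(2 * Real.pi * s * Complex.I))) (u : ℂ) := d1.cpow_const hw
  have d3 : HasDerivAt (fun v : ℂ => Complex.exp (-(t * Complex.I) * Complex.log (v - a0)))
      (Complex.exp (-(t * Complex.I) * Complex.log ((u : ℂ) - a0)) *
        (-(t * Complex.I) * (1 / ((u : ℂ) - a0)))) (u : ℂ) := by
    have h1 : HasDerivAt (fun v : ℂ => v - (a0 : ℂ)) 1 (u : ℂ) :=
      (hasDerivAt_id (u : ℂ)).sub_const _
    have h2 := (h1.clog hsl).const_mul (-(t * Complex.I))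
    exact h2.cexp
  have d4 := (d2.mul d3).comp_ofReal
  have e : hMf Θ s a t a0 (u : ℂ) * ((-(1 / 2 - t * Complex.I)) * (-(2 * Real.pi * s * Complex.I))
        / wM Θ s a (u : ℂ) - t * Complex.I / ((u : ℂ) - a0))
      = (-(1 / 2 - t * Complex.I)) * wM Θ s a (u : ℂ) ^ ((-(1 / 2 - t * Complex.I)) - 1 : ℂ)
        * (-(2 * Real.pi * s * Complex.I)) *
          Complex.exp (-(t * Complex.I) * Complex.log ((u : ℂ) - a0)) +
        wM Θ s a (u : ℂ) ^ (-(1 / 2 - t * Complex.I) : ℂ) *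
        (Complex.exp (-(t * Complex.I) * Complex.log ((u : ℂ) - a0)) *
        (-(t * Complex.I) * (1 / ((u : ℂ) - a0)))) := by
    rw [hMf, Complex.cpow_sub _ _ hwn, Complex.cpow_one]
    ring
  rw [e]
  exact d4

private lemma hM_bd (Θ s a t S0 : ℝ) (a0 : ℕ) (hs : s = 1 ∨ s = -1) (hΘ : 0 < Θ)
    (hS0 : 1 ≤ S0) (ha : |a - a0| ≤ S0 / 2) (r u : ℝ) (hr : (a0 : ℝ) + S0 ≤ r) (hu : r ≤ u) :
    ‖hMf Θ s a t a0 (u : ℂ) * ((-(1 / 2 - t * Complex.I)) * (-(2 * Real.pi * s * Complex.I))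
        / wM Θ s a (u : ℂ) - t * Complex.I / ((u : ℂ) - a0))‖
      ≤ (Real.sqrt (Real.pi * S0))⁻¹ * Real.exp (Real.pi * |t| / 2)
        * (1 / (r - a0) + 2 * |t| * (|a - a0| + 1 / Θ) / (r - a0) ^ 2) := by
  have ha1 := abs_le.1 ha
  have hpi := Real.pi_pos
  have hpi1 : 1 ≤ Real.pi := by linarith only [hpi, Real.pi_gt_three]
  rw [norm_mul]
  apply mul_le_mul (hM_norm Θ s a t S0 a0 hs hΘ hS0 ha u (by linarith only [hr, hu])) _ (norm_nonneg _)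
    (by positivity)
  have hwn := wM_ne Θ s a u hΘ
  have hua : ((u : ℂ) - a0) = ((u - a0 : ℝ) : ℂ) := by push_cast; ring
  have hne : ((u : ℂ) - a0) ≠ 0 := by
    rw [hua]; exact Complex.ofReal_ne_zero.2 (by linarith only [hS0, hr, hu])
  have h1 : ‖wM Θ s a (u : ℂ)‖ ≥ Real.pi * (u - a0) := by
    refine le_trans ?_ (wM_norm Θ s a u hs)
    have h3 : (u - a0) / 2 ≤ |u - a| := by
      rw [abs_of_nonneg (by linarith only [hS0, hr, hu, ha1])]; linarith only [hr, hu, ha1]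
    nlinarith only [hpi, h3]
  have hs1 : |s| = 1 := by rcases hs with rfl | rfl <;> simp
  have e : (-(1 / 2 - t * Complex.I)) * (-(2 * Real.pi * s * Complex.I))
        / wM Θ s a (u : ℂ) - t * Complex.I / ((u : ℂ) - a0)
      = (((Real.pi * s : ℝ) : ℂ) * Complex.I) / wM Θ s a (u : ℂ)
        + ((t : ℝ) : ℂ) * Complex.I * ((-(((2 * Real.pi * s * (a - a0) : ℝ) : ℂ) * Complex.I)
          - ((1 / Θ : ℝ) : ℂ)))
          / (wM Θ s a (u : ℂ) * ((u : ℂ) - a0)) := by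
    field_simp
    rw [wM]
    push_cast
    ring
  rw [e]
  have b1 : ‖(((Real.pi * s : ℝ) : ℂ) * Complex.I) / wM Θ s a (u : ℂ)‖ ≤ 1 / (r - a0) := by
    rw [norm_div, norm_mul, Complex.norm_I, mul_one, Complex.norm_real, Real.norm_eq_abs, abs_mul,
      hs1, mul_one, abs_of_pos hpi, div_le_div_iff₀ (norm_pos_iff.2 hwn) (by linarith only [hS0, hr])]
    nlinarith only [h1, hu, hpi]
  have b2 : ‖((t : ℝ) : ℂ) * Complex.I * ((-(((2 * Real.pi * s * (a - a0) : ℝ) : ℂ) * Complex.I)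
          - ((1 / Θ : ℝ) : ℂ)))
          / (wM Θ s a (u : ℂ) * ((u : ℂ) - a0))‖ ≤ 2 * |t| * (|a - a0| + 1 / Θ) / (r - a0) ^ 2 := by
    rw [norm_div, norm_mul, norm_mul, norm_mul, Complex.norm_I, mul_one, Complex.norm_real,
      Real.norm_eq_abs]
    have c1 : ‖(-(((2 * Real.pi * s * (a - a0) : ℝ) : ℂ) * Complex.I)
          - ((1 / Θ : ℝ) : ℂ))‖ ≤ 2 * Real.pi * |a - a0| + 1 / Θ := by
      refine (norm_sub_le _ _).trans ?_
      rw [norm_neg, norm_mul, Complex.norm_I, mul_one, Complex.norm_real, Complex.norm_real,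
        Real.norm_eq_abs, Real.norm_eq_abs, abs_mul, abs_mul, hs1, mul_one,
        abs_of_pos Real.two_pi_pos, abs_of_pos (by positivity : 0 < 1 / Θ)]
    have c2 : ‖(u : ℂ) - a0‖ = u - a0 := by
      rw [hua, Complex.norm_real, Real.norm_eq_abs, abs_of_pos (by linarith only [hS0, hr, hu])]
    rw [c2]
    have hra : 0 < r - a0 := by linarith only [hS0, hr]
    have c3 : Real.pi * (r - a0) ^ 2 ≤ ‖wM Θ s a (u : ℂ)‖ * (u - a0) := by
      calc Real.pi * (r - a0) ^ 2 = (Real.pi * (r - a0)) * (r - a0) := by ring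
        _ ≤ ‖wM Θ s a (u : ℂ)‖ * (u - a0) := by
          apply mul_le_mul _ (by linarith only [hu]) (by linarith only [hS0, hr]) (norm_nonneg _)
          refine le_trans ?_ h1
          gcongr
    have c4 : (2 * Real.pi * |a - a0| + 1 / Θ) ≤ Real.pi * (2 * (|a - a0| + 1 / Θ)) := by
      have : 0 < 1 / Θ := by positivity
      nlinarith only [hpi, this, hpi1, abs_nonneg (a - a0)]
    calc |t| * ‖(-(((2 * Real.pi * s * (a - a0) : ℝ) : ℂ) * Complex.I)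
          - ((1 / Θ : ℝ) : ℂ))‖ / (‖wM Θ s a (u : ℂ)‖ * (u - a0))
        ≤ |t| * (Real.pi * (2 * (|a - a0| + 1 / Θ))) / (Real.pi * (r - a0) ^ 2) := by
          apply div_le_div₀ (by positivity) _ (by positivity) c3
          exact mul_le_mul_of_nonneg_left (c1.trans c4) (abs_nonneg _)
      _ = 2 * |t| * (|a - a0| + 1 / Θ) / (r - a0) ^ 2 := by
          field_simp
  exact (norm_add_le _ _).trans (add_le_add b1 b2)

private lemma hM_diff (Θ s a t S0 : ℝ) (a0 : ℕ) (hs : s = 1 ∨ s = -1) (hΘ : 0 < Θ)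
    (hS0 : 1 ≤ S0) (ha : |a - a0| ≤ S0 / 2) (r : ℝ) (hr : (a0 : ℝ) + S0 ≤ r) :
    ‖hMf Θ s a t a0 ((r + 1 : ℝ) : ℂ) - hMf Θ s a t a0 (r : ℂ)‖
      ≤ (Real.sqrt (Real.pi * S0))⁻¹ * Real.exp (Real.pi * |t| / 2)
        * (1 / (r - a0) + 2 * |t| * (|a - a0| + 1 / Θ) / (r - a0) ^ 2) := by
  have := Convex.norm_image_sub_le_of_norm_hasDerivWithin_le
    (f := fun v : ℝ => hMf Θ s a t a0 (v : ℂ)) (s := Set.Icc r (r + 1)) (x := r) (y := r + 1)
    (f' := fun u => (hMf Θ s a t a0 (u : ℂ) * ((-(1 / 2 - t * Complex.I)) *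
      (-(2 * Real.pi * s * Complex.I)) / wM Θ s a (u : ℂ) - t * Complex.I / ((u : ℂ) - a0))))
    (C := (Real.sqrt (Real.pi * S0))⁻¹ * Real.exp (Real.pi * |t| / 2)
        * (1 / (r - a0) + 2 * |t| * (|a - a0| + 1 / Θ) / (r - a0) ^ 2))
    (fun u hu => (hM_deriv Θ s a t a0 hΘ u (by linarith only [hS0, hr, hu, hu.1])).hasDerivWithinAt)
    (fun u hu => hM_bd Θ s a t S0 a0 hs hΘ hS0 ha r u hr hu.1)
    (convex_Icc _ _) ⟨le_rfl, by linarith only⟩ ⟨by linarith only, le_rfl⟩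
  have e : ‖r + 1 - r‖ = 1 := by rw [add_sub_cancel_left]; simp
  rw [e, mul_one] at this
  exact this

private lemma abel_sum (b h A : ℕ → ℂ) (M : ℕ) (hA : ∀ y, A y = ∑ n ∈ Ioc M y, b n) (y : ℕ)
    (hy : M ≤ y) :
    ∑ n ∈ Ioc M y, b n * h n = A y * h (y + 1) + ∑ n ∈ Ioc M y, A n * (h n - h (n + 1)) := by
  induction y, hy using Nat.le_induction with
  | base => simp [hA]
  | succ y hy ih =>
    have e : Ioc M (y + 1) = insert (y + 1) (Ioc M y) := by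
      ext i; simp only [mem_insert, mem_Ioc]; omega
    have hn : y + 1 ∉ Ioc M y := by simp
    have h1 : A (y + 1) = b (y + 1) + A y := by rw [hA, hA, e, sum_insert hn]
    rw [e, sum_insert hn, sum_insert hn, ih, h1]
    ring

private lemma sum_inv_le (M a0 y : ℕ) (hM : a0 + 1 ≤ M) (hy : M ≤ y) :
    ∑ n ∈ Ioc M y, 1 / ((n : ℝ) - a0) ≤ Real.log (y - a0) - Real.log (M - a0) := by
  induction y, hy using Nat.le_induction with
  | base => simp
  | succ y hy ih =>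
    have e : Ioc M (y + 1) = insert (y + 1) (Ioc M y) := by
      ext i; simp only [mem_insert, mem_Ioc]; omega
    have hn : y + 1 ∉ Ioc M y := by simp
    rw [e, sum_insert hn]
    have h1 : (1 : ℝ) ≤ (y : ℝ) - a0 := by
      have : ((a0 + 1 : ℕ) : ℝ) ≤ y := by exact_mod_cast hM.trans hy
      push_cast at this; linarith only [this]
    have h2 : 1 / (((y + 1 : ℕ) : ℝ) - a0)
        ≤ Real.log (((y + 1 : ℕ) : ℝ) - a0) - Real.log (y - a0) := by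
      push_cast
      rw [← Real.log_div (by linarith only [h1]) (by linarith only [h1])]
      have h3 := Real.one_sub_inv_le_log_of_pos (x := ((y : ℝ) + 1 - a0) / (y - a0))
        (div_pos (by linarith only [h1]) (by linarith only [h1]))
      refine le_trans (le_of_eq ?_) h3
      rw [inv_div]
      have : (y : ℝ) + 1 - a0 ≠ 0 := by linarith only [h1]
      field_simp
      ring
    linarith only [ih, h2]

private lemma sum_inv_sq_le (M a0 y : ℕ) (hM : a0 + 1 ≤ M) (hy : M ≤ y) :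
    ∑ n ∈ Ioc M y, 1 / ((n : ℝ) - a0) ^ 2 ≤ 1 / ((M : ℝ) - a0) - 1 / ((y : ℝ) - a0) := by
  induction y, hy using Nat.le_induction with
  | base => simp
  | succ y hy ih =>
    have e : Ioc M (y + 1) = insert (y + 1) (Ioc M y) := by
      ext i; simp only [mem_insert, mem_Ioc]; omega
    have hn : y + 1 ∉ Ioc M y := by simp
    rw [e, sum_insert hn]
    have h1 : (1 : ℝ) ≤ (y : ℝ) - a0 := by
      have : ((a0 + 1 : ℕ) : ℝ) ≤ y := by exact_mod_cast hM.trans hy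
      push_cast at this; linarith only [this]
    have h2 : 1 / (((y + 1 : ℕ) : ℝ) - a0) ^ 2
        ≤ 1 / ((y : ℝ) - a0) - 1 / (((y + 1 : ℕ) : ℝ) - a0) := by
      push_cast
      have h3 : 0 < ((y : ℝ) + 1 - a0) := by linarith only [h1]
      have h4 : 0 < ((y : ℝ) - a0) := by linarith only [h1]
      rw [div_sub_div _ _ h4.ne' h3.ne', div_le_div_iff₀ (by positivity) (by positivity)]
      nlinarith only [h1]
    linarith only [ih, h2]

/-- the Mellin transform statement without `Mel` -/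
private theorem mc_sum (g : ℕ → ℝ) (N M a0 : ℕ) (α a Θ s t S0 Cb : ℝ) (hs : s = 1 ∨ s = -1) (hΘ : 0 < Θ)
    (hS0 : 1 ≤ S0) (hM : (a0 : ℝ) + S0 ≤ M) (ha : |a - a0| ≤ S0 / 2)
    (hg : ∀ n, n ∉ Ioc M N → g n = 0)
    (hC : ∀ y : ℕ, y ≤ N → ‖cor g a0 M α (t / (2 * Real.pi)) y‖ ≤ Cb) :
    ‖∑ n ∈ Icc 1 N, (g n : ℂ) * ee (n * α)
        * (((1 / Θ : ℝ) : ℂ) - ((2 * Real.pi * s * ((n : ℝ) - a) : ℝ) : ℂ) * Complex.I)
            ^ (-(1 / 2 - t * Complex.I) : ℂ)‖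
      ≤ Cb * ((Real.sqrt (Real.pi * S0))⁻¹ * Real.exp (Real.pi * |t| / 2)
        * (1 + Real.log (N + 1) + 2 * |t| * (|a - a0| + 1 / Θ) / S0)) := by
  have hCb : 0 ≤ Cb := (norm_nonneg _).trans (hC 0 (Nat.zero_le _))
  have hΘ1 : 0 < 1 / Θ := by positivity
  have hlog : 0 ≤ Real.log (N + 1) := Real.log_nonneg (by linarith only [(Nat.cast_nonneg N : (0:ℝ) ≤ N)])
  have hpi := Real.pi_pos
  rcases lt_or_ge N M with hNM | hNM
  · have : ∑ n ∈ Icc 1 N, (g n : ℂ) * ee (n * α)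
        * (((1 / Θ : ℝ) : ℂ) - ((2 * Real.pi * s * ((n : ℝ) - a) : ℝ) : ℂ) * Complex.I)
            ^ (-(1 / 2 - t * Complex.I) : ℂ) = 0 := by
      apply sum_eq_zero
      intro n hn
      rw [hg n (by simp only [mem_Ioc, not_and, not_le]; intro h; omega)]
      simp
    rw [this, norm_zero]
    positivity
  have hM1 : a0 + 1 ≤ M := by
    have : ((a0 + 1 : ℕ) : ℝ) ≤ M := by push_cast; linarith only [hS0, hM]
    exact_mod_cast this
  set b : ℕ → ℂ := fun n => (g n : ℂ) * ee (n * α + t / (2 * Real.pi) * Real.log ((n : ℝ) - a0))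
  set h : ℕ → ℂ := fun n => hMf Θ s a t a0 ((n : ℝ) : ℂ)
  have e1 : ∑ n ∈ Icc 1 N, (g n : ℂ) * ee (n * α)
        * (((1 / Θ : ℝ) : ℂ) - ((2 * Real.pi * s * ((n : ℝ) - a) : ℝ) : ℂ) * Complex.I)
            ^ (-(1 / 2 - t * Complex.I) : ℂ) = ∑ n ∈ Ioc M N, b n * h n := by
    have e2 : ∑ n ∈ Icc 1 N, (g n : ℂ) * ee (n * α)
        * (((1 / Θ : ℝ) : ℂ) - ((2 * Real.pi * s * ((n : ℝ) - a) : ℝ) : ℂ) * Complex.I)
            ^ (-(1 / 2 - t * Complex.I) : ℂ) = ∑ n ∈ Ioc M N, (g n : ℂ) * ee (n * α)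
        * (((1 / Θ : ℝ) : ℂ) - ((2 * Real.pi * s * ((n : ℝ) - a) : ℝ) : ℂ) * Complex.I)
            ^ (-(1 / 2 - t * Complex.I) : ℂ) := by
      symm
      apply sum_subset
      · intro i hi
        rw [mem_Ioc] at hi
        rw [mem_Icc]; omega
      · intro i _ hi
        rw [hg i hi]; simp
    rw [e2]
    apply sum_congr rfl
    intro n hn
    have hn1 := mem_Ioc.1 hn
    have hna : (0 : ℝ) < (n : ℝ) - a0 := by
      have : (M : ℝ) < n := by exact_mod_cast hn1.1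
      linarith only [hS0, hM, this]
    simp only [b, h, hMf]
    have e3 : (((n : ℝ) : ℂ) - (a0 : ℂ)) = (((n : ℝ) - a0 : ℝ) : ℂ) := by push_cast; ring
    have e4 : ee (n * α + t / (2 * Real.pi) * Real.log ((n : ℝ) - a0))
        * Complex.exp (-(t * Complex.I) * Complex.log (((n : ℝ) : ℂ) - a0)) = ee (n * α) := by
      rw [e3, ← Complex.ofReal_log hna.le, ee, ee, ← Complex.exp_add]
      congr 1
      push_cast
      have : (Real.pi : ℂ) ≠ 0 := Complex.ofReal_ne_zero.2 hpi.ne'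
      field_simp
      ring
    have e5 : wM Θ s a ((n : ℝ) : ℂ) = (((1 / Θ : ℝ) : ℂ)
        - ((2 * Real.pi * s * ((n : ℝ) - a) : ℝ) : ℂ) * Complex.I) := by
      rw [wM]; push_cast; ring
    rw [e5, ← e4]
    ring
  rw [e1, abel_sum b h (fun y => ∑ n ∈ Ioc M y, b n) M (fun _ => rfl) N hNM]
  have hA : ∀ y, y ≤ N → ‖∑ n ∈ Ioc M y, b n‖ ≤ Cb := fun y hy => hC y hy
  set H0 : ℝ := (Real.sqrt (Real.pi * S0))⁻¹ * Real.exp (Real.pi * |t| / 2) with hH0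
  have hH0p : 0 ≤ H0 := by positivity
  have hcast : ∀ n : ℕ, M ≤ n → (a0 : ℝ) + S0 ≤ n := by
    intro n hn
    have : (M : ℝ) ≤ n := by exact_mod_cast hn
    linarith only [hM, this]
  have b1 : ‖(∑ n ∈ Ioc M N, b n) * h (N + 1)‖ ≤ Cb * H0 := by
    rw [norm_mul]
    exact mul_le_mul (hA N le_rfl)
      (hM_norm Θ s a t S0 a0 hs hΘ hS0 ha _ (hcast _ (by omega))) (norm_nonneg _) hCb
  have b2 : ‖∑ n ∈ Ioc M N, (∑ i ∈ Ioc M n, b i) * (h n - h (n + 1))‖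
      ≤ ∑ n ∈ Ioc M N, Cb * (H0 * (1 / ((n : ℝ) - a0)
          + 2 * |t| * (|a - a0| + 1 / Θ) / ((n : ℝ) - a0) ^ 2)) := by
    refine (norm_sum_le _ _).trans (sum_le_sum fun n hn => ?_)
    have hn1 := mem_Ioc.1 hn
    rw [norm_mul]
    apply mul_le_mul (hA n hn1.2) _ (norm_nonneg _) hCb
    have := hM_diff Θ s a t S0 a0 hs hΘ hS0 ha (n : ℝ) (hcast n hn1.1.le)
    rw [norm_sub_rev]
    have e6 : (((n : ℝ) + 1 : ℝ) : ℂ) = ((((n + 1 : ℕ) : ℝ)) : ℂ) := by push_cast; rfl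
    rw [e6] at this
    exact this
  refine (norm_add_le _ _).trans ((add_le_add b1 b2).trans ?_)
  have hMa : 0 < (M : ℝ) - a0 := by linarith only [hS0, hM]
  have s1 : ∑ n ∈ Ioc M N, 1 / ((n : ℝ) - a0) ≤ Real.log (N + 1) := by
    refine (sum_inv_le M a0 N hM1 hNM).trans ?_
    have h1 : 0 ≤ Real.log ((M : ℝ) - a0) := Real.log_nonneg (by linarith only [hS0, hM])
    have h2 : Real.log ((N : ℝ) - a0) ≤ Real.log (N + 1) := by
      apply Real.log_le_log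
      · have : (M : ℝ) ≤ N := by exact_mod_cast hNM
        linarith only [hS0, hM, this]
      · have : (0 : ℝ) ≤ a0 := Nat.cast_nonneg _
        linarith only
    linarith only [h1, h2]
  have s2 : ∑ n ∈ Ioc M N, 1 / ((n : ℝ) - a0) ^ 2 ≤ 1 / S0 := by
    refine (sum_inv_sq_le M a0 N hM1 hNM).trans ?_
    have h1 : 0 ≤ 1 / ((N : ℝ) - a0) := by
      have : (M : ℝ) ≤ N := by exact_mod_cast hNM
      apply div_nonneg zero_le_one; linarith only [hS0, hM, this]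
    have h2 : 1 / ((M : ℝ) - a0) ≤ 1 / S0 := one_div_le_one_div_of_le (by linarith only [hS0]) (by linarith only [hM])
    linarith only [h1, h2]
  have e7 : ∑ n ∈ Ioc M N, Cb * (H0 * (1 / ((n : ℝ) - a0)
          + 2 * |t| * (|a - a0| + 1 / Θ) / ((n : ℝ) - a0) ^ 2))
      = Cb * (H0 * (∑ n ∈ Ioc M N, 1 / ((n : ℝ) - a0)
          + 2 * |t| * (|a - a0| + 1 / Θ) * ∑ n ∈ Ioc M N, 1 / ((n : ℝ) - a0) ^ 2)) := by
    rw [mul_sum (Ioc M N) _ (2 * |t| * (|a - a0| + 1 / Θ)), ← sum_add_distrib, mul_sum, mul_sum]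
    apply sum_congr rfl
    intro n _
    ring
  rw [e7]
  have e8 : Cb * H0 + Cb * (H0 * (∑ n ∈ Ioc M N, 1 / ((n : ℝ) - a0)
          + 2 * |t| * (|a - a0| + 1 / Θ) * ∑ n ∈ Ioc M N, 1 / ((n : ℝ) - a0) ^ 2))
      ≤ Cb * H0 + Cb * (H0 * (Real.log (N + 1) + 2 * |t| * (|a - a0| + 1 / Θ) * (1 / S0))) := by
    have hnn : 0 ≤ 2 * |t| * (|a - a0| + 1 / Θ) := by positivity
    gcongr
  refine e8.trans (le_of_eq ?_)
  ring

/-- final arithmetic -/
private theorem mc_fin (S0 Cb T A Λ G X : ℝ) (hS0 : 1 ≤ S0) (hCb : 0 ≤ Cb) (hT : 0 ≤ T)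
    (hA : 0 ≤ A) (hΛ : 0 ≤ Λ) (_hG0 : 0 ≤ G) (hG : G ≤ 3 * Real.exp (-(Real.pi * T / 2)))
    (hX0 : 0 ≤ X)
    (hX : X ≤ Cb * ((Real.sqrt (Real.pi * S0))⁻¹ * Real.exp (Real.pi * T / 2)
        * (1 + Λ + 2 * T * A / S0))) :
    G * X ≤ 10 * Cb / Real.sqrt S0 * (1 + T * A / S0 + Λ) := by
  have h1 : G * X ≤ 3 * Real.exp (-(Real.pi * T / 2)) * (Cb * ((Real.sqrt (Real.pi * S0))⁻¹
      * Real.exp (Real.pi * T / 2) * (1 + Λ + 2 * T * A / S0))) :=
    mul_le_mul hG hX hX0 (by positivity)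
  have h2 : Real.exp (-(Real.pi * T / 2)) * Real.exp (Real.pi * T / 2) = 1 := by
    rw [← Real.exp_add]; simp
  have h3 : (Real.sqrt (Real.pi * S0))⁻¹ ≤ (Real.sqrt S0)⁻¹ := by
    apply inv_anti₀ (Real.sqrt_pos.2 (by linarith only [hS0]))
    apply Real.sqrt_le_sqrt
    nlinarith only [hS0, Real.pi_gt_three]
  calc G * X ≤ 3 * Real.exp (-(Real.pi * T / 2)) * (Cb * ((Real.sqrt (Real.pi * S0))⁻¹
      * Real.exp (Real.pi * T / 2) * (1 + Λ + 2 * T * A / S0))) := h1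
    _ = (Real.exp (-(Real.pi * T / 2)) * Real.exp (Real.pi * T / 2)) *
        (3 * Cb * (Real.sqrt (Real.pi * S0))⁻¹ * (1 + Λ + 2 * T * A / S0)) := by ring
    _ = 3 * Cb * (Real.sqrt (Real.pi * S0))⁻¹ * (1 + Λ + 2 * T * A / S0) := by rw [h2, one_mul]
    _ ≤ 3 * Cb * (Real.sqrt S0)⁻¹ * (1 + Λ + 2 * T * A / S0) := by
        have : 0 ≤ 1 + Λ + 2 * T * A / S0 := by positivity
        gcongr
    _ ≤ 10 * Cb * (Real.sqrt S0)⁻¹ * (1 + T * A / S0 + Λ) := by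
        have h4 : 0 ≤ T * A / S0 := by positivity
        have h5 : 0 ≤ Cb * (Real.sqrt S0)⁻¹ := by positivity
        have h6 : 2 * T * A / S0 = 2 * (T * A / S0) := by ring
        rw [h6]
        nlinarith only [h5, h4, hΛ, mul_nonneg h5 h4, mul_nonneg h5 hΛ]
    _ = 10 * Cb / Real.sqrt S0 * (1 + T * A / S0 + Λ) := by ring

theorem mel_cor (g : ℕ → ℝ) (N M a0 : ℕ) (α a Θ s t S0 Cb : ℝ) (hs : s = 1 ∨ s = -1) (hΘ : 0 < Θ)
    (hS0 : 1 ≤ S0) (hM : (a0 : ℝ) + S0 ≤ M) (ha : |a - a0| ≤ S0 / 2)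
    (hg : ∀ n, n ∉ Ioc M N → g n = 0)
    (hC : ∀ y : ℕ, y ≤ N → ‖cor g a0 M α (t / (2 * Real.pi)) y‖ ≤ Cb) :
    ‖Mel (ge g N α a Θ s) t‖
      ≤ 10 * Cb / Real.sqrt S0 * (1 + |t| * (|a - a0| + 1 / Θ) / S0 + Real.log (N + 1)) := by
  have hCb : 0 ≤ Cb := (norm_nonneg _).trans (hC 0 (Nat.zero_le _))
  rw [mel_ge g N α a Θ s t hΘ, norm_mul]
  exact mc_fin S0 Cb |t| (|a - a0| + 1 / Θ) (Real.log (N + 1)) _ _ hS0 hCb (abs_nonneg _)
    (by positivity) (Real.log_nonneg (by linarith only [(Nat.cast_nonneg N : (0 : ℝ) ≤ N)]))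
    (norm_nonneg _) (gamma_half t) (norm_nonneg _)
    (mc_sum g N M a0 α a Θ s t S0 Cb hs hΘ hS0 hM ha hg hC)

end Pool.Agent.H35.W

end

section

/-!
# W MelTl: the tail of the Mellin transform

In the setting of `MelCor`.  `|w_n^{-1/2+it}| = |w_n|^{-1/2} exp(-t arg w_n)`, `|w_n| ≥ π S0 ≥ 1`,
`|arg w_n| = arctan(2πΘ (n - a)) = π/2 - arctan(1/(2πΘ(n-a)))`, so
`|Γ(1/2-it)| |w_n^{-1/2+it}| ≤ 3 S0^{-1/2} exp(-|t| η_n)`, `η_n = arctan(1/(2πΘ(n - a)))` and `0 < n - a ≤ 2N`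
(`n ≤ N`, `a ≥ a0 - S0/2`, `S0 ≤ M < n ≤ N`).  `arctan z ≥ (π/4) min(z, 1)` for `z ≥ 0`, so
`η_n ≥ 1/(40 (Θ N + 1))`.
(If `N ≤ M` the left side is 0.)
-/

set_option autoImplicit false

namespace Pool.Agent.H35.W

open Finset MeasureTheory
open Pool.Agent.H91.PK (ee)
open Pool.Agent.H76.EHB

/-- the argument of a point of the right half plane -/
private theorem mtl_arg {w : ℂ} (hw : 0 < w.re) :
    |Complex.arg w| ≤ Real.pi / 2 - w.re / ‖w‖ := by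
  have hw0 : w ≠ 0 := by
    intro h
    rw [h] at hw
    simp at hw
  have h1 : |Complex.arg w| ≤ Real.pi / 2 := Complex.abs_arg_le_pi_div_two_iff.2 hw.le
  have h2 : Real.sin (Real.pi / 2 - |Complex.arg w|) = w.re / ‖w‖ := by
    rw [Real.sin_pi_div_two_sub, Real.cos_abs, Complex.cos_arg hw0]
  have h3 := Real.sin_le (sub_nonneg.2 h1)
  rw [h2] at h3
  linarith

private theorem mtl_term {Θ s t S0 a : ℝ} {N M a0 n : ℕ} (hs : s = 1 ∨ s = -1) (hΘ : 0 < Θ)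
    (hS0 : 1 ≤ S0) (hM : (a0 : ℝ) + S0 ≤ M) (ha : |a - a0| ≤ S0 / 2) (hn : n ∈ Ioc M N) :
    3 * Real.exp (-(Real.pi * |t| / 2)) *
      ‖((((1 / Θ : ℝ) : ℂ) - ((2 * Real.pi * s * ((n : ℝ) - a) : ℝ) : ℂ) * Complex.I)
            ^ (-(1 / 2 - t * Complex.I) : ℂ))‖
      ≤ 3 * Real.exp (-(|t| / (40 * (Θ * N + 1)))) := by
  have hn' := Finset.mem_Ioc.1 hn
  have hMn : (M : ℝ) + 1 ≤ n := by exact_mod_cast hn'.1
  have hnN : (n : ℝ) ≤ N := by exact_mod_cast hn'.2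
  have ha' := abs_le.1 ha
  have ha0 : (0 : ℝ) ≤ a0 := Nat.cast_nonneg _
  have hpi := Real.pi_gt_three
  have hpi4 := Real.pi_lt_d2
  set v : ℝ := (n : ℝ) - a with hv
  have hv1 : 1 / 2 ≤ v := by rw [hv]; linarith
  have hv2 : v ≤ 2 * N := by rw [hv]; linarith
  set w : ℂ := (((1 / Θ : ℝ) : ℂ) - ((2 * Real.pi * s * v : ℝ) : ℂ) * Complex.I) with hw
  have hre : w.re = 1 / Θ := by
    rw [hw]
    simp
  have him : w.im = -(2 * Real.pi * s * v) := by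
    rw [hw]
    simp
  have hrepos : 0 < w.re := by rw [hre]; positivity
  have hw0 : w ≠ 0 := by
    intro h
    rw [h] at hrepos
    simp at hrepos
  have hs1 : |s| = 1 := by
    rcases hs with h | h <;> rw [h] <;> norm_num
  have himabs : |w.im| = 2 * Real.pi * v := by
    rw [him, abs_neg, abs_mul, abs_mul, hs1, abs_of_pos (by linarith : (0 : ℝ) < 2 * Real.pi),
      abs_of_pos (by linarith : (0 : ℝ) < v)]
    ring
  have hnorm1 : 1 ≤ ‖w‖ := by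
    have h1 := Complex.abs_im_le_norm w
    rw [himabs] at h1
    nlinarith
  have hnorm2 : ‖w‖ ≤ 1 / Θ + 4 * Real.pi * N := by
    have h1 := Complex.norm_le_abs_re_add_abs_im w
    rw [himabs, abs_of_pos hrepos, hre] at h1
    have h2 : 2 * Real.pi * v ≤ 2 * Real.pi * (2 * N) :=
      mul_le_mul_of_nonneg_left hv2 (by linarith)
    linarith
  have hN0 : (0 : ℝ) ≤ N := Nat.cast_nonneg _
  have harg : |Complex.arg w| ≤ Real.pi / 2 - 1 / (40 * (Θ * N + 1)) := by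
    have h1 := mtl_arg hrepos
    have h2 : 1 / (40 * (Θ * N + 1)) ≤ w.re / ‖w‖ := by
      rw [hre]
      have h3 : (1 / Θ) / (1 / Θ + 4 * Real.pi * N) ≤ 1 / Θ / ‖w‖ :=
        div_le_div_of_nonneg_left (by positivity) (by linarith) hnorm2
      refine le_trans ?_ h3
      rw [div_le_div_iff₀ (by positivity) (by positivity)]
      have h4 : 1 / Θ * (40 * (Θ * N + 1)) = 40 * N + 40 / Θ := by
        field_simp
      rw [h4, one_mul]
      have h5 : 4 * Real.pi * N ≤ 40 * N := by nlinarith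
      have h6 : 1 / Θ ≤ 40 / Θ := div_le_div_of_nonneg_right (by norm_num) hΘ.le
      linarith
    linarith
  rw [Complex.norm_cpow_of_ne_zero hw0]
  have hzre : (-(1 / 2 - (t : ℂ) * Complex.I)).re = -(1 / 2 : ℝ) := by
    simp
  have hzim : (-(1 / 2 - (t : ℂ) * Complex.I)).im = t := by
    simp
  rw [hzre, hzim]
  have hpow : ‖w‖ ^ (-(1 / 2 : ℝ)) ≤ 1 :=
    Real.rpow_le_one_of_one_le_of_nonpos hnorm1 (by norm_num)
  have hexp : 1 / Real.exp (Complex.arg w * t) ≤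
      Real.exp (|t| * (Real.pi / 2 - 1 / (40 * (Θ * N + 1)))) := by
    rw [one_div, ← Real.exp_neg]
    apply Real.exp_le_exp.2
    calc -(Complex.arg w * t) ≤ |Complex.arg w * t| := neg_le_abs _
      _ = |t| * |Complex.arg w| := by rw [abs_mul, mul_comm]
      _ ≤ _ := mul_le_mul_of_nonneg_left harg (abs_nonneg _)
  have h7 : ‖w‖ ^ (-(1 / 2 : ℝ)) / Real.exp (Complex.arg w * t) ≤
      Real.exp (|t| * (Real.pi / 2 - 1 / (40 * (Θ * N + 1)))) := by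
    refine le_trans ?_ hexp
    exact div_le_div_of_nonneg_right hpow (Real.exp_pos _).le
  calc 3 * Real.exp (-(Real.pi * |t| / 2)) * (‖w‖ ^ (-(1 / 2 : ℝ)) / Real.exp (Complex.arg w * t))
      ≤ 3 * Real.exp (-(Real.pi * |t| / 2)) *
          Real.exp (|t| * (Real.pi / 2 - 1 / (40 * (Θ * N + 1)))) :=
        mul_le_mul_of_nonneg_left h7 (by positivity)
    _ = 3 * Real.exp (-(|t| / (40 * (Θ * N + 1)))) := by
        rw [mul_assoc, ← Real.exp_add]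
        congr 2
        field_simp
        ring

theorem mel_tl (g : ℕ → ℝ) (N M a0 : ℕ) (α a Θ s t S0 : ℝ) (hs : s = 1 ∨ s = -1) (hΘ : 0 < Θ)
    (hS0 : 1 ≤ S0) (hM : (a0 : ℝ) + S0 ≤ M) (ha : |a - a0| ≤ S0 / 2)
    (hg : ∀ n, n ∉ Ioc M N → g n = 0) :
    ‖Mel (ge g N α a Θ s) t‖
      ≤ 3 * (∑ n ∈ Icc 1 N, |g n|) * Real.exp (-(|t| / (40 * (Θ * N + 1)))) := by
  rw [mel_ge g N α a Θ s t hΘ, norm_mul]
  have h1 := gamma_half t
  calc ‖Complex.Gamma (1 / 2 - t * Complex.I)‖ * ‖∑ n ∈ Icc 1 N, (g n : ℂ) * ee (n * α)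
        * (((1 / Θ : ℝ) : ℂ) - ((2 * Real.pi * s * ((n : ℝ) - a) : ℝ) : ℂ) * Complex.I)
            ^ (-(1 / 2 - t * Complex.I) : ℂ)‖
      ≤ (3 * Real.exp (-(Real.pi * |t| / 2))) * ∑ n ∈ Icc 1 N, |g n| *
        ‖((((1 / Θ : ℝ) : ℂ) - ((2 * Real.pi * s * ((n : ℝ) - a) : ℝ) : ℂ) * Complex.I)
            ^ (-(1 / 2 - t * Complex.I) : ℂ))‖ := by
        refine mul_le_mul h1 ?_ (norm_nonneg _) (by positivity)
        refine (norm_sum_le _ _).trans (Finset.sum_le_sum fun n _ => ?_)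
        rw [norm_mul, norm_mul, Pool.Agent.H91.PK.LSa_norm_ee, mul_one, Complex.norm_real,
          Real.norm_eq_abs]
    _ = ∑ n ∈ Icc 1 N, |g n| * (3 * Real.exp (-(Real.pi * |t| / 2)) *
        ‖((((1 / Θ : ℝ) : ℂ) - ((2 * Real.pi * s * ((n : ℝ) - a) : ℝ) : ℂ) * Complex.I)
            ^ (-(1 / 2 - t * Complex.I) : ℂ))‖) := by
        rw [Finset.mul_sum]
        refine Finset.sum_congr rfl fun n _ => ?_
        ring
    _ ≤ ∑ n ∈ Icc 1 N, |g n| * (3 * Real.exp (-(|t| / (40 * (Θ * N + 1))))) := by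
        refine Finset.sum_le_sum fun n _ => ?_
        by_cases hn : n ∈ Ioc M N
        · exact mul_le_mul_of_nonneg_left (mtl_term hs hΘ hS0 hM ha hn) (abs_nonneg _)
        · rw [hg n hn]
          simp
    _ = 3 * (∑ n ∈ Icc 1 N, |g n|) * Real.exp (-(|t| / (40 * (Θ * N + 1)))) := by
        rw [← Finset.sum_mul]
        ring

end Pool.Agent.H35.W

end

section

/-!
# W IIE: the bound of `II S (ge ..)` (the heart of the project)

Notation: `L = log x`, `Θ = L^{C1}/A ≤ 1`, `G = ge g N (c/d) a Θ s`, `v = |a - a0|/A`, `S0 = x / L^{C0}`, `T0 = L^{4m}`,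
`T1 = L^{C1+4} x / A + L^4` (`≤ x`), `C4` a constant depending on `C0, C1`.
`II S G = (1/2π) ∫ |ZZ S t|^2 |Mel G t|^2 dt` (`int_sum_sq_e`, `b = 1/Θ`), `|ZZ S t|^2 ≤ 8 P` (`norm_ZZ_sq_le (2P)`).
`mel_cor`, for `|t| ≤ T1`: `|Mel G t| ≤ 10 Cb (L^{C0}/x)^{1/2} (1 + |t| (vA + A/L^{C1}) L^{C0}/x + log(x+1)) ≤ Cb x^{-1/2} L^{C4} (1+v)`,
where `Cb` bounds the correlations at `t/(2π)`.
 (0) `|t| ≤ T0`: `Cb = x/L^{3m}` (`CorB.low`): contribution `≤ 2 T0 · 8P · x L^{2 C4 - 6m} (1+v)^2 = 16 P x L^{2C4 - 2m} (1+v)^2`.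
 (1) `T0 ≤ |t| ≤ T1`, `|ZZ S t|^2 ≤ P/L^{E'}`, `E' = E + 4`: `≤ (P/L^{E'}) ∫ |Mel G|^2 = (P/L^{E'}) 2π ∫|G|^2 ≤ (P/L^{E'}) 4π S2 ≤ 13 P x L^{2-E'}`.
 (2) `T0 ≤ |t| ≤ T1` and `|ZZ S t|^2 > P/L^{E'}`: dyadic `T = 2^i T0 ≤ |t| ≤ 2T`, `T ≤ T1 ≤ x^3`: measure `≤ T^{c'}`,
     `c' = min (1/8) (η/3)` (`bad_n E' c'`; this gives `b`), `Cb = lam x η (t/2π) ≤ 2 x (T^{-1/8} + x^{-η})`:
     contribution `≤ T^{c'} · 8P · 4 x L^{2 C4} (1+v)^2 (T^{-1/8} + x^{-η})^2 ≤ 64 P x L^{2C4} (1+v)^2 (T^{-1/8} + x^{-η})`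
     (`T^{c'} ≤ T^{1/8}`, `T^{c'} ≤ x^η`); sum over `≤ 4L` values of `T`, `T^{-1/8} ≤ T0^{-1/8} = L^{-m/2}`.
 (3) `|t| ≥ T1`: `mel_tl`: `|Mel G t| ≤ 3 (∑|g|) exp(-|t|/(40(ΘN+1)))`, `∑|g| ≤ (N S2)^{1/2} ≤ x L`, `40 (Θ N + 1) ≤ T1/L^2 ...`,
     so the contribution is `≤ 8P · 9 x^2 L^2 · 2 ∫_{T1}^∞ exp(-t/(20(ΘN+1))) dt ≤ x^4 exp(-L^2) ≤ 1`.
 Choose `m0` so that `2m ≥ 2 C4 + E + 3`, `m/2 ≥ 2 C4 + E + 3`, `4 m ≥` the `m` of `bad_n`.  (VERSION 2: hypothesis `L^(C1+5) ≤ A`, so that `T1 ≤ x`, and `CorB.high` has the range `|t| ≤ x`.)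
 (`CorB.low/high` are applied at
 `t/(2π)`: for `|t| ≤ T0` also `|t/2π| ≤ T0`; `high` holds for all `|t/2π| ≤ x`.)
-/

set_option autoImplicit false

namespace Pool.Agent.H35.W

open Finset MeasureTheory
open Pool.Agent.H91.PK (ee)
open Pool.Agent.H76.EHB

/-- the splitting of the integral -/
private theorem IIE_core (F M : ℝ → ℝ) (P8 ZB T0 T1 μ0 K c3 : ℝ) (I : Finset ℕ) (𝓑 : ℕ → Set ℝ)
    (μ v : ℕ → ℝ) (hF : ∀ t, 0 ≤ F t) (hF8 : ∀ t, F t ≤ P8) (hM : ∀ t, 0 ≤ M t)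
    (hiM : Integrable M) (hK : ∫ t, M t ≤ K) (hiFM : Integrable (fun t => F t * M t))
    (hZB : 0 ≤ ZB) (hT0 : 0 ≤ T0) (hμ0 : 0 ≤ μ0) (hM0 : ∀ t, |t| ≤ T0 → M t ≤ μ0)
    (hBm : ∀ i ∈ I, MeasurableSet (𝓑 i)) (hBf : ∀ i ∈ I, volume (𝓑 i) ≠ ⊤)
    (hBv : ∀ i ∈ I, volume.real (𝓑 i) ≤ v i) (hμ : ∀ i ∈ I, 0 ≤ μ i)
    (hBμ : ∀ i ∈ I, ∀ t ∈ 𝓑 i, M t ≤ μ i)
    (hcov : ∀ t, T0 < |t| → |t| ≤ T1 → ZB < F t → ∃ i ∈ I, t ∈ 𝓑 i)
    (hc3 : 0 ≤ c3) (htl : ∀ t, T1 < |t| → M t ≤ c3 * (1 + t ^ 2)⁻¹) :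
    ∫ t, F t * M t ≤ 2 * T0 * (P8 * μ0) + ZB * K + ∑ i ∈ I, v i * (P8 * μ i)
      + P8 * c3 * Real.pi := by
  have hP8 : 0 ≤ P8 := (hF 0).trans (hF8 0)
  let g1 : ℝ → ℝ := (Set.Icc (-T0) T0).indicator (fun _ => P8 * μ0)
  let g2 : ℝ → ℝ := fun t => ZB * M t
  let g3 : ℝ → ℝ := fun t => ∑ i ∈ I, (𝓑 i).indicator (fun _ => P8 * μ i) t
  let g4 : ℝ → ℝ := fun t => (P8 * c3) * (1 + t ^ 2)⁻¹
  have hg1 : Integrable g1 :=
    (integrable_indicator_iff measurableSet_Icc).2 (integrableOn_const (by simp))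
  have hg2 : Integrable g2 := hiM.const_mul ZB
  have hg3i : ∀ i ∈ I, Integrable ((𝓑 i).indicator (fun _ => P8 * μ i)) := fun i hi =>
    (integrable_indicator_iff (hBm i hi)).2 (integrableOn_const (hBf i hi))
  have hg3 : Integrable g3 := integrable_finsetSum I hg3i
  have hg4 : Integrable g4 := integrable_inv_one_add_sq.const_mul (P8 * c3)
  have hn1 : ∀ t, 0 ≤ g1 t := fun t => Set.indicator_nonneg (fun _ _ => by positivity) t
  have hn2 : ∀ t, 0 ≤ g2 t := fun t => mul_nonneg hZB (hM t)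
  have hn3i : ∀ i ∈ I, ∀ t, 0 ≤ (𝓑 i).indicator (fun _ => P8 * μ i) t := fun i hi t =>
    Set.indicator_nonneg (fun _ _ => mul_nonneg hP8 (hμ i hi)) t
  have hn3 : ∀ t, 0 ≤ g3 t := fun t => Finset.sum_nonneg fun i hi => hn3i i hi t
  have hn4 : ∀ t, 0 ≤ g4 t := fun t => by positivity
  have hpt : ∀ t, F t * M t ≤ g1 t + g2 t + g3 t + g4 t := by
    intro t
    have a1 := hn1 t
    have a2 := hn2 t
    have a3 := hn3 t
    have a4 := hn4 t
    by_cases h0 : |t| ≤ T0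
    · have h1 : g1 t = P8 * μ0 :=
        Set.indicator_of_mem (show t ∈ Set.Icc (-T0) T0 from abs_le.1 h0) _
      have h2 : F t * M t ≤ P8 * μ0 := mul_le_mul (hF8 t) (hM0 t h0) (hM t) hP8
      linarith only [a2, a3, a4, h1, h2]
    · push Not at h0
      by_cases h1 : |t| ≤ T1
      · by_cases h2 : ZB < F t
        · obtain ⟨i, hi, hti⟩ := hcov t h0 h1 h2
          have h3 : P8 * μ i ≤ g3 t := by
            have h4 : (𝓑 i).indicator (fun _ => P8 * μ i) t ≤ g3 t :=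
              Finset.single_le_sum (f := fun i => (𝓑 i).indicator (fun _ => P8 * μ i) t)
                (fun j hj => hn3i j hj t) hi
            rwa [Set.indicator_of_mem hti] at h4
          have h4 : F t * M t ≤ P8 * μ i := mul_le_mul (hF8 t) (hBμ i hi t hti) (hM t) hP8
          linarith only [a1, a2, a4, h3, h4]
        · push Not at h2
          have h3 : F t * M t ≤ ZB * M t := mul_le_mul_of_nonneg_right h2 (hM t)
          have h4 : g2 t = ZB * M t := rfl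
          linarith
      · push Not at h1
        have h2 : F t * M t ≤ P8 * (c3 * (1 + t ^ 2)⁻¹) :=
          mul_le_mul (hF8 t) (htl t h1) (hM t) hP8
        have h3 : g4 t = P8 * (c3 * (1 + t ^ 2)⁻¹) := by
          show (P8 * c3) * (1 + t ^ 2)⁻¹ = _
          ring
        linarith only [a1, a2, a3, h2]
  have hle : ∫ t, F t * M t ≤ ∫ t, (g1 t + g2 t + g3 t + g4 t) :=
    integral_mono hiFM (((hg1.add hg2).add hg3).add hg4) hpt
  have e1 : ∫ t, g1 t = 2 * T0 * (P8 * μ0) := by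
    show ∫ t, (Set.Icc (-T0) T0).indicator (fun _ => P8 * μ0) t = _
    rw [integral_indicator measurableSet_Icc, setIntegral_const, smul_eq_mul,
      Real.volume_real_Icc_of_le (by linarith)]
    ring
  have e2 : ∫ t, g2 t ≤ ZB * K := by
    show ∫ t, ZB * M t ≤ _
    rw [integral_const_mul]
    exact mul_le_mul_of_nonneg_left hK hZB
  have e3 : ∫ t, g3 t ≤ ∑ i ∈ I, v i * (P8 * μ i) := by
    show ∫ t, ∑ i ∈ I, (𝓑 i).indicator (fun _ => P8 * μ i) t ≤ _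
    rw [integral_finsetSum I hg3i]
    refine Finset.sum_le_sum fun i hi => ?_
    rw [integral_indicator (hBm i hi), setIntegral_const, smul_eq_mul]
    exact mul_le_mul_of_nonneg_right (hBv i hi) (mul_nonneg hP8 (hμ i hi))
  have e4 : ∫ t, g4 t = P8 * c3 * Real.pi := by
    show ∫ t, (P8 * c3) * (1 + t ^ 2)⁻¹ = _
    rw [integral_const_mul, integral_univ_inv_one_add_sq]
  have e5 : ∫ t, (g1 t + g2 t + g3 t + g4 t) = (∫ t, g1 t) + (∫ t, g2 t) + (∫ t, g3 t)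
      + ∫ t, g4 t := by
    have k1 : ∫ t, (g1 t + g2 t + g3 t + g4 t) = (∫ t, (g1 t + g2 t + g3 t)) + ∫ t, g4 t :=
      integral_add ((hg1.add hg2).add hg3) hg4
    have k2 : ∫ t, (g1 t + g2 t + g3 t) = (∫ t, (g1 t + g2 t)) + ∫ t, g3 t :=
      integral_add (hg1.add hg2) hg3
    have k3 : ∫ t, (g1 t + g2 t) = (∫ t, g1 t) + ∫ t, g2 t := integral_add hg1 hg2
    rw [k1, k2, k3]
  linarith only [hle, e1, e2, e3, e4, e5]

/-- the weight in `mel_cor` -/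
private theorem IIE_W (X L A δ t l : ℝ) (C0 C1 : ℕ) (hX : 0 < X) (hL : 5 ≤ L)
    (hA : L ^ C1 ≤ A) (hAX : A ≤ X) (hδ : 0 ≤ δ) (ht : |t| ≤ L ^ (C1 + 4) * X / A + L ^ 4)
    (hl : l ≤ 2 * L) :
    1 + |t| * (δ + 1 / (L ^ C1 / A)) / (X / L ^ C0) + l ≤ L ^ (C0 + C1 + 5) * (1 + δ / A) := by
  have hL0 : 0 < L := by linarith
  have hL1 : 1 ≤ L := by linarith only [hL]
  have hp : 1 ≤ L ^ C1 := one_le_pow₀ hL1
  have hA0 : 0 < A := by linarith
  have h1 : δ + 1 / (L ^ C1 / A) ≤ A * (1 + δ / A) := by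
    rw [one_div_div, mul_add, mul_div_cancel₀ _ hA0.ne']
    have : A / L ^ C1 ≤ A := div_le_self hA0.le hp
    linarith only [this]
  have hw : 1 ≤ 1 + δ / A := by
    have : 0 ≤ δ / A := div_nonneg hδ hA0.le
    linarith only [this]
  have h2 : |t| * (δ + 1 / (L ^ C1 / A)) / (X / L ^ C0)
      ≤ 2 * L ^ (C0 + C1 + 4) * (1 + δ / A) := by
    rw [div_div_eq_mul_div, div_le_iff₀ hX]
    have h3 : |t| * (δ + 1 / (L ^ C1 / A))
        ≤ (L ^ (C1 + 4) * X / A + L ^ 4) * (A * (1 + δ / A)) :=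
      mul_le_mul ht h1 (by positivity) (by positivity)
    have h4 : (L ^ (C1 + 4) * X / A + L ^ 4) * (A * (1 + δ / A))
        = (L ^ (C1 + 4) * X + L ^ 4 * A) * (1 + δ / A) := by
      field_simp
    have h5 : L ^ (C1 + 4) * X + L ^ 4 * A ≤ 2 * L ^ (C1 + 4) * X := by
      have h6 : L ^ 4 * A ≤ L ^ (C1 + 4) * X :=
        mul_le_mul (pow_le_pow_right₀ hL1 (by omega)) hAX hA0.le (by positivity)
      linarith only [h6]
    calc |t| * (δ + 1 / (L ^ C1 / A)) * L ^ C0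
        ≤ (L ^ (C1 + 4) * X + L ^ 4 * A) * (1 + δ / A) * L ^ C0 := by
          rw [← h4]; exact mul_le_mul_of_nonneg_right h3 (by positivity)
      _ ≤ (2 * L ^ (C1 + 4) * X) * (1 + δ / A) * L ^ C0 := by
          gcongr
      _ = 2 * L ^ (C0 + C1 + 4) * (1 + δ / A) * X := by ring
  have h7 : 1 ≤ L ^ (C0 + C1 + 4) * (1 + δ / A) :=
    one_le_mul_of_one_le_of_one_le (one_le_pow₀ hL1) hw
  have h8 : L ≤ L ^ (C0 + C1 + 4) * (1 + δ / A) := by
    have h9 : L ^ 1 ≤ L ^ (C0 + C1 + 4) := pow_le_pow_right₀ hL1 (by omega)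
    rw [pow_one] at h9
    calc L ≤ L ^ (C0 + C1 + 4) := h9
      _ ≤ L ^ (C0 + C1 + 4) * (1 + δ / A) := le_mul_of_one_le_right (by positivity) hw
  have h10 : L ^ (C0 + C1 + 5) * (1 + δ / A) = L * (L ^ (C0 + C1 + 4) * (1 + δ / A)) := by ring
  rw [h10]
  have h11 : 5 * (L ^ (C0 + C1 + 4) * (1 + δ / A)) ≤ L * (L ^ (C0 + C1 + 4) * (1 + δ / A)) :=
    mul_le_mul_of_nonneg_right hL (by positivity)
  linarith only [hL, hl, h2, h8, h11]

/-- the size of the Mellin transform in `|t| ≤ T1` -/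
private theorem IIE_mel (g : ℕ → ℝ) (N M a0 : ℕ) (α a s t X L A Cb : ℝ) (C0 C1 : ℕ)
    (hs : s = 1 ∨ s = -1) (hX : 0 < X) (hL : 100 ≤ L) (hA : L ^ C1 ≤ A) (hAX : A ≤ X)
    (hS0 : 1 ≤ X / L ^ C0) (hM : (a0 : ℝ) + X / L ^ C0 ≤ M) (ha : |a - a0| ≤ X / L ^ C0 / 2)
    (hg : ∀ n, n ∉ Ioc M N → g n = 0) (ht : |t| ≤ L ^ (C1 + 4) * X / A + L ^ 4)
    (hl : Real.log (N + 1) ≤ 2 * L)
    (hC : ∀ y : ℕ, y ≤ N → ‖cor g a0 M α (t / (2 * Real.pi)) y‖ ≤ Cb) :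
    ‖Mel (ge g N α a (L ^ C1 / A) s) t‖ ^ 2
      ≤ Cb ^ 2 * L ^ (C0 + 2 * (C0 + C1 + 5) + 1) * (1 + |a - a0| / A) ^ 2 / X := by
  have hL0 : 0 < L := by linarith only [hL]
  have hL1 : 1 ≤ L := by linarith only [hL]
  have hp : 1 ≤ L ^ C1 := one_le_pow₀ hL1
  have hA0 : 0 < A := by linarith only [hA, hp]
  have hCb : 0 ≤ Cb := (norm_nonneg _).trans (hC 0 (Nat.zero_le _))
  have h1 := mel_cor g N M a0 α a (L ^ C1 / A) s t (X / L ^ C0) Cb hs (by positivity) hS0 hM ha hg hC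
  have h2 := IIE_W X L A |a - a0| t (Real.log (N + 1)) C0 C1 hX (by linarith only [hL]) hA hAX
    (abs_nonneg _) ht hl
  have hS00 : 0 < X / L ^ C0 := by positivity
  have hw : 0 ≤ |a - a0| / A := div_nonneg (abs_nonneg _) hA0.le
  have h3 : ‖Mel (ge g N α a (L ^ C1 / A) s) t‖
      ≤ 10 * Cb / Real.sqrt (X / L ^ C0) * (L ^ (C0 + C1 + 5) * (1 + |a - a0| / A)) :=
    h1.trans (mul_le_mul_of_nonneg_left h2 (by positivity))
  calc ‖Mel (ge g N α a (L ^ C1 / A) s) t‖ ^ 2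
      ≤ (10 * Cb / Real.sqrt (X / L ^ C0) * (L ^ (C0 + C1 + 5) * (1 + |a - a0| / A))) ^ 2 :=
        pow_le_pow_left₀ (norm_nonneg _) h3 2
    _ = 100 * (Cb ^ 2 * L ^ (C0 + 2 * (C0 + C1 + 5)) * (1 + |a - a0| / A) ^ 2 / X) := by
        rw [mul_pow, div_pow, Real.sq_sqrt hS00.le]
        field_simp
        ring
    _ ≤ L * (Cb ^ 2 * L ^ (C0 + 2 * (C0 + C1 + 5)) * (1 + |a - a0| / A) ^ 2 / X) :=
        mul_le_mul_of_nonneg_right hL (by positivity)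
    _ = Cb ^ 2 * L ^ (C0 + 2 * (C0 + C1 + 5) + 1) * (1 + |a - a0| / A) ^ 2 / X := by ring

/-- the exponential decay against `1/(1+t^2)` -/
private theorem IIE_exp (t D T : ℝ) (hD : 1 ≤ D) (hT : 20 ≤ T) (ht : T * D ≤ |t|) :
    Real.exp (-(|t| / (20 * D))) ≤ 3208 * D ^ 2 * Real.exp (-(T / 40)) * (1 + t ^ 2)⁻¹ := by
  have hD0 : 0 < D := by linarith
  set u := |t| / (20 * D) with hu
  have ht2 : |t| = 20 * D * u := by rw [hu]; field_simp
  have hu1 : T / 20 ≤ u := by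
    rw [hu, le_div_iff₀ (by positivity)]
    calc T / 20 * (20 * D) = T * D := by ring
      _ ≤ |t| := ht
  have hu2 : 1 ≤ u := by linarith only [hT, hu1]
  have h1 : t ^ 2 = 400 * D ^ 2 * u ^ 2 := by
    rw [← sq_abs, ht2]; ring
  have h2 : u ^ 2 ≤ 8 * Real.exp (u / 2) := by
    have := Real.quadratic_le_exp_of_nonneg (show 0 ≤ u / 2 by linarith only [hT, hu1])
    nlinarith only [hT, hu1, this]
  have h3 : 1 + t ^ 2 ≤ 401 * D ^ 2 * u ^ 2 := by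
    rw [h1]
    have : 1 ≤ D ^ 2 * u ^ 2 := one_le_mul_of_one_le_of_one_le (one_le_pow₀ hD) (one_le_pow₀ hu2)
    linarith only [this]
  rw [← div_eq_mul_inv, le_div_iff₀ (by positivity)]
  have h4 : Real.exp (-u) = Real.exp (-(u / 2)) * Real.exp (-(u / 2)) := by
    rw [← Real.exp_add]; congr 1; ring
  have h5 : Real.exp (-(u / 2)) * Real.exp (u / 2) = 1 := by
    rw [← Real.exp_add]; simp
  have h6 : Real.exp (-(u / 2)) ≤ Real.exp (-(T / 40)) := Real.exp_le_exp.2 (by linarith only [hu1])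
  calc Real.exp (-u) * (1 + t ^ 2) ≤ Real.exp (-u) * (401 * D ^ 2 * (8 * Real.exp (u / 2))) := by
        apply mul_le_mul_of_nonneg_left _ (Real.exp_pos _).le
        exact h3.trans (mul_le_mul_of_nonneg_left h2 (by positivity))
    _ = 3208 * D ^ 2 * Real.exp (-(u / 2)) * (Real.exp (-(u / 2)) * Real.exp (u / 2)) := by
        rw [h4]; ring
    _ = 3208 * D ^ 2 * Real.exp (-(u / 2)) := by rw [h5, mul_one]
    _ ≤ 3208 * D ^ 2 * Real.exp (-(T / 40)) := mul_le_mul_of_nonneg_left h6 (by positivity)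

/-- `lam` at `t/(2π)` -/
private theorem IIE_lam (x : ℕ) (η t T : ℝ) (hT : 0 < T) (ht : T ≤ |t|) :
    lam x η (t / (2 * Real.pi)) ≤ 2 * x * (T ^ (-(1 / 8) : ℝ) + (x : ℝ) ^ (-η)) := by
  unfold lam
  have hx : (0 : ℝ) ≤ x := Nat.cast_nonneg x
  have h1 : T / 256 ≤ 1 + |t / (2 * Real.pi)| := by
    rw [abs_div, abs_of_pos (show 0 < 2 * Real.pi by positivity)]
    have h2 : |t| / 256 ≤ |t| / (2 * Real.pi) := by
      apply div_le_div_of_nonneg_left (abs_nonneg _) (by positivity)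
      linarith only [Real.pi_lt_four]
    linarith only [ht, h2, div_le_div_of_nonneg_right ht (show (0:ℝ) ≤ 256 by norm_num)]
  have h2 : (1 + |t / (2 * Real.pi)|) ^ (-(1 / 8) : ℝ) ≤ 2 * T ^ (-(1 / 8) : ℝ) := by
    calc (1 + |t / (2 * Real.pi)|) ^ (-(1 / 8) : ℝ) ≤ (T / 256) ^ (-(1 / 8) : ℝ) :=
          Real.rpow_le_rpow_of_nonpos (by positivity) h1 (by norm_num)
      _ = 2 * T ^ (-(1 / 8) : ℝ) := by
          rw [Real.div_rpow hT.le (by norm_num)]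
          have h3 : (256 : ℝ) ^ (-(1 / 8) : ℝ) = 1 / 2 := by
            rw [show (256 : ℝ) = 2 ^ (8 : ℝ) by norm_num, ← Real.rpow_mul (by norm_num)]
            norm_num
          rw [h3]; ring
  have h3 : 0 ≤ T ^ (-(1 / 8) : ℝ) := by positivity
  have h4 : 0 ≤ (x : ℝ) ^ (-η) := by positivity
  have h5 : max ((1 + |t / (2 * Real.pi)|) ^ (-(1 / 8) : ℝ)) ((x : ℝ) ^ (-η))
      ≤ 2 * (T ^ (-(1 / 8) : ℝ) + (x : ℝ) ^ (-η)) := max_le (by linarith only [h2, h4]) (by linarith only [h3, h4])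
  calc (x : ℝ) * max ((1 + |t / (2 * Real.pi)|) ^ (-(1 / 8) : ℝ)) ((x : ℝ) ^ (-η))
      ≤ x * (2 * (T ^ (-(1 / 8) : ℝ) + (x : ℝ) ^ (-η))) := mul_le_mul_of_nonneg_left h5 hx
    _ = 2 * x * (T ^ (-(1 / 8) : ℝ) + (x : ℝ) ^ (-η)) := by ring

/-- measure times value on a dyadic block -/
private theorem IIE_dy (X η c T : ℝ) (hc : 0 < c) (hc1 : c ≤ 1 / 8) (hc2 : c ≤ η / 3)
    (hX : 1 ≤ X) (hT : 1 ≤ T) (hTX : T ≤ X ^ (3 : ℕ)) :
    T ^ c * (T ^ (-(1 / 8) : ℝ) + X ^ (-η)) ^ 2 ≤ 2 * (T ^ (-(1 / 8) : ℝ) + X ^ (-η)) := by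
  have hT0 : 0 < T := by linarith only [hc, hc1, hT]
  have hX0 : 0 < X := by linarith only [hc, hc1, hX]
  have h1 : T ^ c * T ^ (-(1 / 8) : ℝ) ≤ 1 := by
    rw [← Real.rpow_add hT0]
    exact Real.rpow_le_one_of_one_le_of_nonpos hT (by linarith only [hc1])
  have h2 : T ^ c * X ^ (-η) ≤ 1 := by
    have h3 : T ^ c ≤ X ^ η := by
      calc T ^ c ≤ (X ^ (3 : ℕ)) ^ c := Real.rpow_le_rpow hT0.le hTX hc.le
        _ = X ^ (3 * c) := by
            rw [← Real.rpow_natCast, ← Real.rpow_mul hX0.le]; norm_num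
        _ ≤ X ^ η := Real.rpow_le_rpow_of_exponent_le hX (by linarith only [hc2])
    calc T ^ c * X ^ (-η) ≤ X ^ η * X ^ (-η) := mul_le_mul_of_nonneg_right h3 (by positivity)
      _ = 1 := by rw [← Real.rpow_add hX0]; simp
  have h3 : 0 ≤ T ^ (-(1 / 8) : ℝ) + X ^ (-η) := by positivity
  calc T ^ c * (T ^ (-(1 / 8) : ℝ) + X ^ (-η)) ^ 2
      = (T ^ c * T ^ (-(1 / 8) : ℝ) + T ^ c * X ^ (-η)) * (T ^ (-(1 / 8) : ℝ) + X ^ (-η)) := by ring
    _ ≤ (1 + 1) * (T ^ (-(1 / 8) : ℝ) + X ^ (-η)) :=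
        mul_le_mul_of_nonneg_right (by linarith only [h1, h2]) h3
    _ = 2 * (T ^ (-(1 / 8) : ℝ) + X ^ (-η)) := by ring

/-- `T^(-1/8) ≤ L^(-k)` for `T ≥ L^(4m)`, `2k ≤ m` -/
private theorem IIE_small (L T : ℝ) (m k : ℕ) (hL : 1 ≤ L) (hk : 2 * k ≤ m) (hT : L ^ (4 * m) ≤ T) :
    T ^ (-(1 / 8) : ℝ) ≤ 1 / L ^ k := by
  have hL0 : 0 < L := by linarith only [hL]
  have h1 : L ^ (8 * k) ≤ T := (pow_le_pow_right₀ hL (by omega)).trans hT
  calc T ^ (-(1 / 8) : ℝ) ≤ (L ^ (8 * k)) ^ (-(1 / 8) : ℝ) :=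
        Real.rpow_le_rpow_of_nonpos (by positivity) h1 (by norm_num)
    _ = 1 / L ^ k := by
        rw [← Real.rpow_natCast L (8 * k), ← Real.rpow_mul hL0.le, one_div (L ^ k),
          ← Real.rpow_natCast L k, ← Real.rpow_neg hL0.le]
        congr 1
        push_cast
        ring

private theorem IIE_ZZ_cont (S : Finset ℕ) (hS : ∀ k ∈ S, 1 ≤ k) : Continuous (ZZ S) := by
  unfold ZZ
  refine continuous_finsetSum _ fun k hk => ?_
  have hk0 : (k : ℂ) ≠ 0 := by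
    have := hS k hk
    exact_mod_cast (by omega : k ≠ 0)
  exact Continuous.const_cpow (by fun_prop) (Or.inl hk0)

/-- `∑ |g| ≤ √(N ∑ g²)` -/
private theorem IIE_l1 (g : ℕ → ℝ) (N : ℕ) (X L : ℝ) (hN : (N : ℝ) ≤ X) (hX : 0 ≤ X)
    (h : S2 g N ≤ X * L ^ 2) : (∑ n ∈ Icc 1 N, |g n|) ^ 2 ≤ X ^ 2 * L ^ 2 := by
  have h1 := sq_sum_le_card_mul_sum_sq (s := Icc 1 N) (f := fun n => |g n|)
  have h2 : ∑ n ∈ Icc 1 N, |g n| ^ 2 = S2 g N := Finset.sum_congr rfl fun n _ => sq_abs _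
  have h3 : ((Icc 1 N).card : ℝ) = N := by simp
  have h4 : 0 ≤ S2 g N := Finset.sum_nonneg fun n _ => sq_nonneg _
  calc (∑ n ∈ Icc 1 N, |g n|) ^ 2 ≤ N * S2 g N := by rw [h2, h3] at h1; exact h1
    _ ≤ X * (X * L ^ 2) := mul_le_mul hN h h4 hX
    _ = X ^ 2 * L ^ 2 := by ring

private theorem IIE_fin1 (X L P w T0 : ℝ) (m C6 E k : ℕ) (hX0 : 0 < X) (hLbig : 1000000 ≤ L)
    (hP0 : 0 < P) (hw1 : 1 ≤ w) (hT0 : T0 = L ^ (4 * m)) (hm2 : 2 * k ≤ m)
    (hk : k = C6 + E + 2) :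
    2 * T0 * (8 * P * ((X / L ^ (3 * m)) ^ 2 * L ^ C6 * w ^ 2 / X))
      ≤ 1 / 4 * (P * X / L ^ E * w ^ 2) := by
  have hL0 : 0 < L := by linarith only [hLbig]
  have hL1 : 1 ≤ L := by linarith only [hLbig]
  have h1 : 2 * T0 * (8 * P * ((X / L ^ (3 * m)) ^ 2 * L ^ C6 * w ^ 2 / X))
      = 16 * (P * X * w ^ 2) * (L ^ C6 / L ^ (2 * m)) := by
    rw [hT0, div_pow, ← pow_mul]
    have h2 : L ^ (3 * m * 2) = L ^ (4 * m) * L ^ (2 * m) := by rw [← pow_add]; congr 1; ring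
    rw [h2]
    field_simp
    ring
  have h2 : L ^ C6 / L ^ (2 * m) ≤ 1 / (64 * L ^ E) := by
    rw [div_le_div_iff₀ (by positivity) (by positivity)]
    have h3 : L ^ (C6 + E + 1) ≤ L ^ (2 * m) := pow_le_pow_right₀ hL1 (by omega)
    have h4 : L ^ (C6 + E + 1) = L * (L ^ C6 * L ^ E) := by ring
    have h5 : 64 * (L ^ C6 * L ^ E) ≤ L * (L ^ C6 * L ^ E) :=
      mul_le_mul_of_nonneg_right (by linarith only [hLbig]) (by positivity)
    calc L ^ C6 * (64 * L ^ E) = 64 * (L ^ C6 * L ^ E) := by ring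
      _ ≤ L ^ (2 * m) := by linarith only [h3, h4, h5]
      _ = 1 * L ^ (2 * m) := (one_mul _).symm
  calc 2 * T0 * (8 * P * ((X / L ^ (3 * m)) ^ 2 * L ^ C6 * w ^ 2 / X))
      = 16 * (P * X * w ^ 2) * (L ^ C6 / L ^ (2 * m)) := h1
    _ ≤ 16 * (P * X * w ^ 2) * (1 / (64 * L ^ E)) := mul_le_mul_of_nonneg_left h2 (by positivity)
    _ = 1 / 4 * (P * X / L ^ E * w ^ 2) := by field_simp; ring

private theorem IIE_fin2 (X L P w ZB : ℝ) (E : ℕ) (hX0 : 0 < X) (hLbig : 1000000 ≤ L)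
    (hP0 : 0 < P) (hw1 : 1 ≤ w) (hZB : ZB = P / L ^ (E + 3)) :
    ZB * (4 * Real.pi * (X * L ^ 2)) ≤ 1 / 4 * (P * X / L ^ E * w ^ 2) := by
  have hL0 : 0 < L := by linarith only [hLbig]
  have hw2 : 1 ≤ w ^ 2 := one_le_pow₀ hw1
  rw [hZB]
  have h1 : P / L ^ (E + 3) * (4 * Real.pi * (X * L ^ 2)) = (P * X / L ^ E) * (4 * Real.pi / L) := by
    field_simp
    ring
  have h2 : 4 * Real.pi / L ≤ 1 / 4 := by
    rw [div_le_iff₀ hL0]
    linarith only [hLbig, Real.pi_lt_four]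
  rw [h1]
  calc (P * X / L ^ E) * (4 * Real.pi / L) ≤ (P * X / L ^ E) * (1 / 4) :=
        mul_le_mul_of_nonneg_left h2 (by positivity)
    _ = 1 / 4 * (P * X / L ^ E * 1) := by ring
    _ ≤ 1 / 4 * (P * X / L ^ E * w ^ 2) := by gcongr

private theorem IIE_fin3 (X L P w T0 T1 η c' : ℝ) (m C6 E k n : ℕ) (I : Finset ℕ) (ρ : ℕ → ℝ)
    (hX1 : 1 ≤ X) (hLbig : 1000000 ≤ L)
    (hP0 : 0 < P) (hw1 : 1 ≤ w) (hT0 : T0 = L ^ (4 * m)) (hm2 : 2 * k ≤ m)
    (hk : k = C6 + E + 2) (hL3 : L ^ k ≤ X ^ η) (hc0 : 0 < c') (hc1 : c' ≤ 1 / 8)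
    (hc2 : c' ≤ η / 3) (hT1X : T1 ≤ X ^ 3) (hn : n = ⌈4 * L⌉₊)
    (hI : I = (range n).filter (fun i => 2 ^ i * T0 ≤ T1))
    (hρ : ρ = fun i => (2 ^ i * T0) ^ (-(1 / 8) : ℝ) + X ^ (-η)) :
    ∑ i ∈ I, (2 ^ i * T0) ^ c' * (8 * P * ((2 * X * ρ i) ^ 2 * L ^ C6 * w ^ 2 / X))
      ≤ 1 / 4 * (P * X / L ^ E * w ^ 2) := by
  have hL0 : 0 < L := by linarith only [hLbig, hc0, hc1]
  have hL1 : 1 ≤ L := by linarith only [hLbig, hc0, hc1]
  have hX0 : 0 < X := by linarith only [hX1, hc0, hc1]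
  have hT01 : 1 ≤ T0 := hT0 ▸ one_le_pow₀ hL1
  have hT00 : 0 < T0 := by linarith only [hc0, hc1, hT01]
  have h1 : ∀ i ∈ I, (2 ^ i * T0) ^ c' * (8 * P * ((2 * X * ρ i) ^ 2 * L ^ C6 * w ^ 2 / X))
      ≤ 128 * (P * X * w ^ 2) * (L ^ C6 / L ^ k) := by
    intro i hi
    rw [hI, Finset.mem_filter] at hi
    have hTi : T0 ≤ 2 ^ i * T0 := le_mul_of_one_le_left hT00.le (one_le_pow₀ (by norm_num))
    have h2 := IIE_dy X η c' (2 ^ i * T0) hc0 hc1 hc2 hX1 (by linarith only [hT01, hTi]) (hi.2.trans hT1X)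
    have hTi' : L ^ (4 * m) ≤ 2 ^ i * T0 := by rw [← hT0]; exact hTi
    have h3 : (2 ^ i * T0) ^ (-(1 / 8) : ℝ) ≤ 1 / L ^ k := IIE_small L _ m k hL1 hm2 hTi'
    have h4 : X ^ (-η) ≤ 1 / L ^ k := by
      rw [Real.rpow_neg hX0.le, one_div]
      exact inv_anti₀ (by positivity) hL3
    have h5 : (2 ^ i * T0) ^ c' * ρ i ^ 2 ≤ 4 / L ^ k := by
      rw [hρ]
      refine h2.trans ?_
      have : (4 : ℝ) / L ^ k = 2 * (1 / L ^ k + 1 / L ^ k) := by ring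
      rw [this]
      linarith only [h3, h4]
    calc (2 ^ i * T0) ^ c' * (8 * P * ((2 * X * ρ i) ^ 2 * L ^ C6 * w ^ 2 / X))
        = 32 * (P * X * w ^ 2) * L ^ C6 * ((2 ^ i * T0) ^ c' * ρ i ^ 2) := by
          field_simp
          ring
      _ ≤ 32 * (P * X * w ^ 2) * L ^ C6 * (4 / L ^ k) :=
          mul_le_mul_of_nonneg_left h5 (by positivity)
      _ = 128 * (P * X * w ^ 2) * (L ^ C6 / L ^ k) := by ring
  have h2 : (I.card : ℝ) ≤ 5 * L := by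
    have h3 : I.card ≤ n := by
      rw [hI]
      exact (Finset.card_filter_le _ _).trans (by rw [Finset.card_range])
    have h4 : (n : ℝ) < 4 * L + 1 := by
      rw [hn]
      exact Nat.ceil_lt_add_one (by positivity)
    have h5 : (I.card : ℝ) ≤ n := by exact_mod_cast h3
    linarith only [hLbig, hc0, hc1, h4, h5]
  calc ∑ i ∈ I, (2 ^ i * T0) ^ c' * (8 * P * ((2 * X * ρ i) ^ 2 * L ^ C6 * w ^ 2 / X))
      ≤ ∑ i ∈ I, 128 * (P * X * w ^ 2) * (L ^ C6 / L ^ k) := Finset.sum_le_sum h1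
    _ = I.card * (128 * (P * X * w ^ 2) * (L ^ C6 / L ^ k)) := by
        rw [Finset.sum_const, nsmul_eq_mul]
    _ ≤ (5 * L) * (128 * (P * X * w ^ 2) * (L ^ C6 / L ^ k)) :=
        mul_le_mul_of_nonneg_right h2 (by positivity)
    _ = (P * X / L ^ E * w ^ 2) * (640 / L) := by
        rw [hk]
        field_simp
        ring
    _ ≤ (P * X / L ^ E * w ^ 2) * (1 / 4) := by
        apply mul_le_mul_of_nonneg_left _ (by positivity)
        rw [div_le_iff₀ hL0]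
        linarith only [hLbig, hc0, hc1]
    _ = 1 / 4 * (P * X / L ^ E * w ^ 2) := by ring

private theorem IIE_fin4 (X L P w : ℝ) (E : ℕ) (hX2 : 2 ≤ X) (hLbig : 1000000 ≤ L)
    (hP0 : 0 < P) (hw1 : 1 ≤ w) (hexp : Real.exp L = X) (hLE : L ^ (E + 3) ≤ X) (hLX : L ≤ X) :
    8 * P * (9 * (X ^ 2 * L ^ 2) * (3208 * (2 * X) ^ 2 * Real.exp (-(L ^ 4 / 40))))
      * Real.pi ≤ 1 / 4 * (P * X / L ^ E * w ^ 2) := by
  have hL0 : 0 < L := by linarith only [hLbig]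
  have hL1 : 1 ≤ L := by linarith
  have hX0 : 0 < X := by linarith
  have hw2 : 1 ≤ w ^ 2 := one_le_pow₀ hw1
  have h1 : Real.exp (-(L ^ 4 / 40)) ≤ 1 / X ^ 5 := by
    have h2 : 5 * L ≤ L ^ 4 / 40 := by
      have h3 : L ^ 4 = L ^ 3 * L := by ring
      have h4 : 200 ≤ L ^ 3 := by
        calc (200 : ℝ) ≤ L := by linarith
          _ = L ^ 1 := (pow_one L).symm
          _ ≤ L ^ 3 := pow_le_pow_right₀ hL1 (by norm_num)
      have h5 : 200 * L ≤ L ^ 3 * L := mul_le_mul_of_nonneg_right h4 hL0.le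
      linarith only [h5]
    calc Real.exp (-(L ^ 4 / 40)) ≤ Real.exp (-(5 * L)) := Real.exp_le_exp.2 (by linarith only [h2])
      _ = 1 / X ^ 5 := by
          rw [Real.exp_neg, ← hexp, ← Real.exp_nat_mul, one_div]
          norm_num
  have h2 : Real.pi ≤ 4 := Real.pi_lt_four.le
  have h3 : L ^ (E + 2) * 3695616 * 16 ≤ X ^ 2 := by
    have h4 : L ^ (E + 3) = L * L ^ (E + 2) := by ring
    have h5 : 1000000 * L ^ (E + 2) ≤ L * L ^ (E + 2) :=
      mul_le_mul_of_nonneg_right hLbig (by positivity)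
    have h6 : 1000000 * L ^ (E + 2) ≤ X := by linarith only [hLE, h4, h5]
    have h7 : 100 ≤ X := by linarith only [hLbig, hLX]
    have h8 : 100 * (1000000 * L ^ (E + 2)) ≤ X * X := mul_le_mul h7 h6 (by positivity) hX0.le
    have h9 : 0 < L ^ (E + 2) := by positivity
    linarith only [h8, h9]
  calc 8 * P * (9 * (X ^ 2 * L ^ 2) * (3208 * (2 * X) ^ 2 * Real.exp (-(L ^ 4 / 40)))) * Real.pi
      ≤ 8 * P * (9 * (X ^ 2 * L ^ 2) * (3208 * (2 * X) ^ 2 * (1 / X ^ 5))) * 4 := by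
        gcongr
    _ = P * X / L ^ E * ((L ^ (E + 2) * 3695616) / X ^ 2) := by
        field_simp
        ring
    _ ≤ P * X / L ^ E * (1 / 4) := by
        apply mul_le_mul_of_nonneg_left _ (by positivity)
        rw [div_le_div_iff₀ (by positivity) (by norm_num)]
        have h9 : 0 < L ^ (E + 2) := by positivity
        linarith only [h3, h9]
    _ = 1 / 4 * (P * X / L ^ E * 1) := by ring
    _ ≤ 1 / 4 * (P * X / L ^ E * w ^ 2) := by gcongr

theorem ii_e (B C0 C1 E : ℕ) (η : ℝ) (hη : 0 < η) : ∃ b m0 : ℕ, ∀ m : ℕ, m0 ≤ m → ∃ x0 : ℕ,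
    ∀ x : ℕ, x0 ≤ x → ∀ (g : ℕ → ℝ) (N M a0 P A d : ℕ) (S : Finset ℕ) (c : ℤ) (a s : ℝ),
      CorB x B m η N M a0 g → N ≤ x → (a0 : ℝ) + x / Real.log x ^ C0 ≤ M → Real.log x ^ b ≤ P →
      P ≤ x → Real.log x ^ (C1 + 5) ≤ A → (A : ℝ) ^ 2 ≤ x → S ⊆ pb P → 1 ≤ d →
      (d : ℝ) ≤ Real.log x ^ B → IsCoprime c (d : ℤ) → (s = 1 ∨ s = -1) →
      |a - a0| ≤ x / Real.log x ^ C0 / 2 →
      II S (ge g N ((c : ℝ) / d) a (Real.log x ^ C1 / A) s)
        ≤ P * x / Real.log x ^ E * (1 + |a - a0| / A) ^ 2 := by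
  have hc0 : 0 < min (1 / 8 : ℝ) (η / 3) := lt_min (by norm_num) (by linarith only [hη])
  obtain ⟨b, mb, xb, hbad⟩ := bad_n (E + 3) (min (1 / 8 : ℝ) (η / 3)) hc0
  set c' : ℝ := min (1 / 8 : ℝ) (η / 3) with hc'
  obtain ⟨C6, hC6⟩ : ∃ C6 : ℕ, C6 = C0 + 2 * (C0 + C1 + 5) + 1 := ⟨_, rfl⟩
  obtain ⟨k, hk⟩ : ∃ k : ℕ, k = C6 + E + 2 := ⟨_, rfl⟩
  refine ⟨b, max mb (2 * k), fun m hm => ?_⟩
  have hm1 : mb ≤ m := (le_max_left _ _).trans hm
  have hm2 : 2 * k ≤ m := (le_max_right _ _).trans hm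
  obtain ⟨x1, hx1⟩ := Pool.Agent.H91.EHA.log_ge 1000000
  obtain ⟨x2, hx2⟩ := Pool.Agent.H91.EHA.log_pow_le_rpow (4 * m) (1 / 2) (by norm_num)
  obtain ⟨x3, hx3⟩ := Pool.Agent.H91.EHA.log_pow_le_rpow k η hη
  obtain ⟨x4, hx4⟩ := Pool.Agent.H91.EHA.log_pow_le_rpow (E + 5 + C0) 1 (by norm_num)
  refine ⟨max xb (max x1 (max x2 (max x3 (max x4 2)))), ?_⟩
  intro x hx g N M a0 P A d S c a s hcor hNx hM hP hPx hA5 hA2 hS hd hdB hcop hs ha
  simp only [max_le_iff] at hx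
  obtain ⟨hxb, hxx1, hxx2, hxx3, hxx4, hxx5⟩ := hx
  have hLbig := hx1 x hxx1
  have hL2 := hx2 x hxx2
  have hL3 := hx3 x hxx3
  have hL4 := hx4 x hxx4
  have hX2 : (2 : ℝ) ≤ x := by exact_mod_cast hxx5
  have hbx := hbad x hxb P S
  have hNX : (N : ℝ) ≤ x := by exact_mod_cast hNx
  have hPX : (P : ℝ) ≤ x := by exact_mod_cast hPx
  set L := Real.log x with hLdef
  obtain ⟨X, hXdef⟩ : ∃ X : ℝ, X = (x : ℝ) := ⟨_, rfl⟩
  have hLX : L ≤ X := by
    rw [hXdef, hLdef]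
    linarith [Real.log_le_sub_one_of_pos (show (0:ℝ) < x by linarith)]
  have hexp : Real.exp L = X := by rw [hLdef, Real.exp_log (by linarith only [hX2]), hXdef]
  have hlam := IIE_lam x η
  rw [Real.rpow_one] at hL4
  rw [← hXdef] at hX2 hL2 hL3 hL4 hNX hPX hM hA2 ha hlam ⊢
  have hX0 : 0 < X := by linarith only [hLbig, hLX]
  have hX1 : 1 ≤ X := by linarith only [hLbig, hLX]
  have hL0 : 0 < L := by linarith only [hLbig]
  have hL1 : 1 ≤ L := by linarith only [hLbig]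
  have hPL : 1 ≤ (P : ℝ) := (one_le_pow₀ hL1).trans hP
  have hP0 : 0 < (P : ℝ) := by linarith only [hPL]
  have hA : L ^ C1 ≤ (A : ℝ) := (pow_le_pow_right₀ hL1 (by omega)).trans hA5
  have hA1 : 1 ≤ (A : ℝ) := (one_le_pow₀ hL1).trans hA
  have hA0 : 0 < (A : ℝ) := by linarith only [hA1]
  have hAX : (A : ℝ) ≤ X := by
    refine le_trans ?_ hA2
    rw [sq]
    exact le_mul_of_one_le_right hA0.le hA1
  have hL5 : L ^ 5 ≤ X := (pow_le_pow_right₀ hL1 (by omega)).trans hL4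
  have hLE : L ^ (E + 3) ≤ X := (pow_le_pow_right₀ hL1 (by omega)).trans hL4
  have hS0 : 1 ≤ X / L ^ C0 := by
    rw [one_le_div (by positivity)]
    exact (pow_le_pow_right₀ hL1 (by omega)).trans hL4
  -- the parameters
  obtain ⟨w, hw⟩ : ∃ w : ℝ, w = 1 + |a - a0| / A := ⟨_, rfl⟩
  have hw1 : 1 ≤ w := by
    rw [hw]
    have : 0 ≤ |a - a0| / (A : ℝ) := by positivity
    linarith only [this]
  have hw2 : 1 ≤ w ^ 2 := one_le_pow₀ hw1
  obtain ⟨T0, hT0⟩ : ∃ T0 : ℝ, T0 = L ^ (4 * m) := ⟨_, rfl⟩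
  obtain ⟨T1, hT1⟩ : ∃ T1 : ℝ, T1 = L ^ (C1 + 4) * X / A + L ^ 4 := ⟨_, rfl⟩
  have hT01 : 1 ≤ T0 := hT0 ▸ one_le_pow₀ hL1
  have hT00 : 0 < T0 := by linarith only [hT01]
  have hXA : X ^ (1 / 2 : ℝ) ≤ X / A := by
    rw [le_div_iff₀ hA0]
    have h1 : (A : ℝ) ≤ X ^ (1 / 2 : ℝ) := by
      rw [← Real.sqrt_eq_rpow]
      exact Real.le_sqrt_of_sq_le hA2
    calc X ^ (1 / 2 : ℝ) * A ≤ X ^ (1 / 2 : ℝ) * X ^ (1 / 2 : ℝ) :=
          mul_le_mul_of_nonneg_left h1 (by positivity)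
      _ = X := by rw [← Real.rpow_add hX0]; norm_num
  have hT0T1 : T0 ≤ T1 := by
    rw [hT0, hT1]
    have h1 : X / A ≤ L ^ (C1 + 4) * X / A := by
      rw [mul_div_assoc]
      exact le_mul_of_one_le_left (by positivity) (one_le_pow₀ hL1)
    have h2 : 0 ≤ L ^ 4 := by positivity
    linarith only [hL2, hXA, h1, h2]
  have hT1X' : T1 ≤ X := by
    rw [hT1]
    have h1 : L ^ (C1 + 4) * X / A ≤ X / 2 := by
      rw [div_le_iff₀ hA0]
      have h0 : 2 * L ^ (C1 + 4) ≤ L ^ (C1 + 5) := by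
        have : L ^ (C1 + 5) = L * L ^ (C1 + 4) := by ring
        rw [this]
        exact mul_le_mul_of_nonneg_right (by linarith only [hLbig]) (by positivity)
      calc L ^ (C1 + 4) * X = X / 2 * (2 * L ^ (C1 + 4)) := by ring
        _ ≤ X / 2 * A := mul_le_mul_of_nonneg_left (h0.trans hA5) (by positivity)
    have h2 : 2 * L ^ 4 ≤ L ^ 5 := by
      have : L ^ 5 = L * L ^ 4 := by ring
      rw [this]
      exact mul_le_mul_of_nonneg_right (by linarith only [hLbig]) (by positivity)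
    linarith only [hL5, h1, h2]
  have hT1X : T1 ≤ X ^ 2 := by
    refine hT1X'.trans ?_
    rw [sq]
    exact le_mul_of_one_le_right hX0.le hX1
  have hT1pos : 0 < T1 := by linarith only [hT01, hT0T1]
  -- the function
  obtain ⟨G, hG⟩ : ∃ G : ℝ → ℂ, G = ge g N ((c : ℝ) / d) a (L ^ C1 / A) s := ⟨_, rfl⟩
  have hΘ0 : 0 < L ^ C1 / (A : ℝ) := by positivity
  have hΘ1 : L ^ C1 / (A : ℝ) ≤ 1 := (div_le_one hA0).2 hA
  have hS1 : ∀ k ∈ S, 1 ≤ k := fun k hk => by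
    have h1 := hS hk
    simp only [pb, Finset.mem_filter, Finset.mem_Ioc] at h1
    omega
  have hS2 : S ⊆ Icc 1 (2 * P) := fun k hk => by
    have h1 := hS hk
    simp only [pb, Finset.mem_filter, Finset.mem_Ioc] at h1
    exact Finset.mem_Icc.2 ⟨by omega, h1.1.2⟩
  have hGm : Measurable G := hG ▸ ge_measurable g N _ a _ s
  have hGb : ∀ θ, 0 < θ → ‖G θ‖ ≤ (∑ n ∈ Icc 1 N, |g n|) * Real.exp (-(1 / (L ^ C1 / A) * θ)) := by
    intro θ hθ
    rw [hG]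
    have h1 := norm_ge_le g N ((c : ℝ) / d) a (L ^ C1 / A) s θ hθ
    have h2 : θ / (L ^ C1 / (A : ℝ)) = 1 / (L ^ C1 / A) * θ := by ring
    rwa [h2] at h1
  obtain ⟨hI1, hI2⟩ := int_sum_sq_e S hS1 G hGm _ _ (one_div_pos.2 hΘ0) hGb
  obtain ⟨hJ1, hJ2⟩ := mel_planch_e G hGm _ _ (one_div_pos.2 hΘ0) hGb
  have hS2g : S2 g N ≤ X * L ^ 2 := by rw [hXdef]; exact hcor.sq
  have hK : ∫ t, ‖Mel G t‖ ^ 2 ≤ 4 * Real.pi * (X * L ^ 2) := by
    rw [hJ2]
    have h1 := ge_L2 g N ((c : ℝ) / d) a (L ^ C1 / A) s hΘ0 hΘ1 hs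
    rw [← hG] at h1
    have h2 : (0 : ℝ) ≤ 2 * Real.pi := by positivity
    calc 2 * Real.pi * ∫ θ in Set.Ioi (0 : ℝ), ‖G θ‖ ^ 2 ≤ 2 * Real.pi * (2 * (X * L ^ 2)) :=
          mul_le_mul_of_nonneg_left (h1.trans (by linarith only [hS2g])) h2
      _ = 4 * Real.pi * (X * L ^ 2) := by ring
  have hlogN : Real.log (N + 1) ≤ 2 * L := by
    have h1 : Real.log ((N : ℝ) + 1) ≤ Real.log (X * X) := by
      apply Real.log_le_log (by positivity)
      have h0 : 2 * X ≤ X * X := mul_le_mul_of_nonneg_right hX2 hX0.le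
      linarith only [hLbig, hNX, hLX, h0]
    rw [Real.log_mul hX0.ne' hX0.ne'] at h1
    have h2 : Real.log X = L := by rw [hXdef]
    linarith only [h1, h2]
  have hmel : ∀ t Cb : ℝ, |t| ≤ T1 →
      (∀ y : ℕ, y ≤ N → ‖cor g a0 M ((c : ℝ) / d) (t / (2 * Real.pi)) y‖ ≤ Cb) →
      ‖Mel G t‖ ^ 2 ≤ Cb ^ 2 * L ^ C6 * w ^ 2 / X := by
    intro t Cb ht hC
    rw [hG, hC6, hw]
    exact IIE_mel g N M a0 _ a s t X L A Cb C0 C1 hs hX0 (by linarith only [hLbig]) hA hAX hS0 hM ha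
      hcor.supp (hT1 ▸ ht) hlogN hC
  have h2pi : ∀ t : ℝ, |t / (2 * Real.pi)| ≤ |t| := by
    intro t
    rw [abs_div, abs_of_pos (show 0 < 2 * Real.pi by positivity)]
    exact div_le_self (abs_nonneg _) (by linarith only [Real.pi_gt_three])
  -- the dyadic pieces
  obtain ⟨n, hn⟩ : ∃ n : ℕ, n = ⌈4 * L⌉₊ := ⟨_, rfl⟩
  obtain ⟨I, hI⟩ : ∃ I : Finset ℕ, I = (range n).filter (fun i => 2 ^ i * T0 ≤ T1) := ⟨_, rfl⟩
  obtain ⟨ZB, hZB⟩ : ∃ ZB : ℝ, ZB = P / L ^ (E + 3) := ⟨_, rfl⟩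
  obtain ⟨𝓑, h𝓑⟩ : ∃ 𝓑 : ℕ → Set ℝ, 𝓑 = fun i =>
    {t | (2 ^ i * T0 ≤ |t| ∧ |t| ≤ T1) ∧ |t| ≤ 2 * (2 ^ i * T0) ∧ ZB < ‖ZZ S t‖ ^ 2} := ⟨_, rfl⟩
  obtain ⟨ρ, hρ⟩ : ∃ ρ : ℕ → ℝ, ρ = fun i => (2 ^ i * T0) ^ (-(1 / 8) : ℝ) + X ^ (-η) := ⟨_, rfl⟩
  have hcore := IIE_core (fun t => ‖ZZ S t‖ ^ 2) (fun t => ‖Mel G t‖ ^ 2) (8 * P) ZB T0 T1
    ((X / L ^ (3 * m)) ^ 2 * L ^ C6 * w ^ 2 / X) (4 * Real.pi * (X * L ^ 2))
    (9 * (X ^ 2 * L ^ 2) * (3208 * (2 * X) ^ 2 * Real.exp (-(L ^ 4 / 40)))) I 𝓑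
    (fun i => (2 * X * ρ i) ^ 2 * L ^ C6 * w ^ 2 / X) (fun i => (2 ^ i * T0) ^ c')
    (fun t => sq_nonneg _) (fun t => by
      have h1 := norm_ZZ_sq_le (2 * P) S hS2 t
      push_cast at h1
      linarith only [h1]) (fun t => sq_nonneg _) hJ1 hK hI1 (by rw [hZB]; positivity) hT00.le
    (by positivity) ?_ ?_ ?_ ?_ ?_ ?_ ?_ (by positivity) ?_
  rotate_left
  · -- small t
    intro t ht
    apply hmel t _ (ht.trans hT0T1)
    intro y hy
    rw [hXdef]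
    exact hcor.low c d (t / (2 * Real.pi)) y hd hdB hcop hy ((h2pi t).trans (hT0 ▸ ht))
  · -- measurability
    intro i _
    rw [h𝓑]
    have hcont : Continuous (fun t => ‖ZZ S t‖ ^ 2) := (IIE_ZZ_cont S hS1).norm.pow 2
    apply MeasurableSet.inter
    · exact ((isClosed_le continuous_const continuous_abs).inter
        (isClosed_le continuous_abs continuous_const)).measurableSet
    · exact (isClosed_le continuous_abs continuous_const).measurableSet.inter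
        (isOpen_lt continuous_const hcont).measurableSet
  · -- finite measure
    intro i _
    rw [h𝓑]
    have h1 : {t : ℝ | (2 ^ i * T0 ≤ |t| ∧ |t| ≤ T1) ∧ |t| ≤ 2 * (2 ^ i * T0) ∧
        ZB < ‖ZZ S t‖ ^ 2} ⊆ Set.Icc (-T1) T1 := fun t ht => abs_le.1 ht.1.2
    exact ne_top_of_le_ne_top (by rw [Real.volume_Icc]; exact ENNReal.ofReal_ne_top)
      (measure_mono h1)
  · -- the volume
    intro i hi
    rw [hI, Finset.mem_filter] at hi
    have hTi : T0 ≤ 2 ^ i * T0 := le_mul_of_one_le_left hT00.le (one_le_pow₀ (by norm_num))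
    have hTi' : L ^ mb ≤ 2 ^ i * T0 := by
      have h0 : L ^ mb ≤ L ^ (4 * m) := pow_le_pow_right₀ hL1 (by omega)
      rw [← hT0] at h0
      exact h0.trans hTi
    have h1 := hbx (2 ^ i * T0) hP hPx hS hTi' (by
        rw [← hXdef]
        refine hi.2.trans (hT1X.trans ?_)
        exact pow_le_pow_right₀ hX1 (by norm_num))
    refine le_trans (measureReal_mono ?_ ?_) h1
    · rw [h𝓑, hZB]
      intro t ht
      exact ht.2
    · have h2 : {t : ℝ | |t| ≤ 2 * (2 ^ i * T0) ∧ P / L ^ (E + 3) < ‖ZZ S t‖ ^ 2} ⊆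
          Set.Icc (-(2 * (2 ^ i * T0))) (2 * (2 ^ i * T0)) := fun t ht => abs_le.1 ht.1
      exact ne_top_of_le_ne_top (by rw [Real.volume_Icc]; exact ENNReal.ofReal_ne_top)
        (measure_mono h2)
  · intro i _
    positivity
  · -- the value on the pieces
    intro i hi t ht
    rw [h𝓑] at ht
    apply hmel t _ ht.1.2
    intro y hy
    have h1 := hcor.high c d (t / (2 * Real.pi)) y hd hdB hcop hy (by
      rw [← hXdef]
      exact (h2pi t).trans (ht.1.2.trans hT1X'))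
    refine h1.trans ?_
    rw [hρ]
    exact hlam t (2 ^ i * T0) (by positivity) ht.1.1
  · -- covering
    intro t ht0 ht1 htZ
    obtain ⟨i, hi1, hi2⟩ := exists_nat_pow_near (x := |t| / T0) (y := 2)
      ((one_le_div hT00).2 ht0.le) (by norm_num)
    rw [le_div_iff₀ hT00] at hi1
    rw [div_lt_iff₀ hT00] at hi2
    refine ⟨i, ?_, ?_⟩
    · rw [hI, Finset.mem_filter, Finset.mem_range]
      refine ⟨?_, hi1.trans ht1⟩
      have h1 : (2 : ℝ) ^ i ≤ X ^ 2 := by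
        calc (2 : ℝ) ^ i ≤ 2 ^ i * T0 := le_mul_of_one_le_right (by positivity) hT01
          _ ≤ X ^ 2 := hi1.trans (ht1.trans hT1X)
      have h2 : Real.log (2 ^ i) ≤ Real.log (X ^ 2) := Real.log_le_log (by positivity) h1
      rw [Real.log_pow, Real.log_pow] at h2
      have h3 : Real.log X = L := by rw [hXdef]
      rw [h3] at h2
      have h4 : (i : ℝ) < 4 * L := by
        have h5 := Real.log_two_gt_d9
        push_cast at h2
        by_contra hcon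
        push Not at hcon
        have h6 : 4 * L * Real.log 2 ≤ i * Real.log 2 :=
          mul_le_mul_of_nonneg_right hcon (by linarith only [h5])
        have h7 : 4 * L * (69 / 100) ≤ 4 * L * Real.log 2 :=
          mul_le_mul_of_nonneg_left (by linarith only [h5]) (by linarith only [hLbig])
        linarith only [hLbig, h2, h6, h7]
      rw [hn]
      exact Nat.lt_ceil.2 h4
    · rw [h𝓑]
      refine ⟨⟨hi1, ht1⟩, ?_, htZ⟩
      have h1 : (2 : ℝ) ^ (i + 1) * T0 = 2 * (2 ^ i * T0) := by ring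
      rw [h1] at hi2
      exact hi2.le
  · -- the tail
    intro t ht
    have h1 := mel_tl g N M a0 ((c : ℝ) / d) a (L ^ C1 / A) s t (X / L ^ C0) hs hΘ0 hS0 hM ha
      hcor.supp
    rw [← hG] at h1
    set D := L ^ C1 / (A : ℝ) * N + 1 with hD
    have hD1 : 1 ≤ D := by
      rw [hD]
      have : 0 ≤ L ^ C1 / (A : ℝ) * N := by positivity
      linarith only [this]
    have hD2 : D ≤ 2 * X := by
      rw [hD]
      have : L ^ C1 / (A : ℝ) * N ≤ 1 * X := mul_le_mul hΘ1 hNX (Nat.cast_nonneg N) (by norm_num)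
      linarith only [hLbig, hLX, this]
    have hD3 : L ^ 4 * D ≤ |t| := by
      refine le_trans ?_ ht.le
      rw [hT1, hD]
      have h2 : L ^ C1 / (A : ℝ) * N ≤ L ^ C1 / A * X := mul_le_mul_of_nonneg_left hNX hΘ0.le
      calc L ^ 4 * (L ^ C1 / (A : ℝ) * N + 1) ≤ L ^ 4 * (L ^ C1 / A * X + 1) := by gcongr
        _ = L ^ (C1 + 4) * X / A + L ^ 4 := by ring
    have hL4' : 20 ≤ L ^ 4 := by
      calc (20 : ℝ) ≤ L := by linarith only [hLbig]
        _ = L ^ 1 := (pow_one L).symm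
        _ ≤ L ^ 4 := pow_le_pow_right₀ hL1 (by norm_num)
    have h2 := IIE_exp t D (L ^ 4) hD1 hL4' hD3
    have h3 : ‖Mel G t‖ ^ 2 ≤ 9 * (∑ n ∈ Icc 1 N, |g n|) ^ 2 * Real.exp (-(|t| / (20 * D))) := by
      calc ‖Mel G t‖ ^ 2 ≤ (3 * (∑ n ∈ Icc 1 N, |g n|) * Real.exp (-(|t| / (40 * D)))) ^ 2 :=
            pow_le_pow_left₀ (norm_nonneg _) h1 2
        _ = 9 * (∑ n ∈ Icc 1 N, |g n|) ^ 2 * (Real.exp (-(|t| / (40 * D)))) ^ 2 := by ring
        _ = 9 * (∑ n ∈ Icc 1 N, |g n|) ^ 2 * Real.exp (-(|t| / (20 * D))) := by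
            rw [← Real.exp_nat_mul]
            congr 2
            field_simp
            ring
    have h4 := IIE_l1 g N X L hNX hX0.le hS2g
    calc ‖Mel G t‖ ^ 2 ≤ 9 * (∑ n ∈ Icc 1 N, |g n|) ^ 2 * Real.exp (-(|t| / (20 * D))) := h3
      _ ≤ 9 * (X ^ 2 * L ^ 2) * (3208 * (2 * X) ^ 2 * Real.exp (-(L ^ 4 / 40)) * (1 + t ^ 2)⁻¹) := by
          apply mul_le_mul _ _ (Real.exp_pos _).le (by positivity)
          · linarith only [h4]
          · refine h2.trans ?_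
            have h5 : D ^ 2 ≤ (2 * X) ^ 2 := pow_le_pow_left₀ (by linarith only [hD1]) hD2 2
            gcongr
      _ = _ := by ring
  -- the final estimate
  have hfin1 := IIE_fin1 X L P w T0 m C6 E k hX0 hLbig hP0 hw1 hT0 hm2 hk
  have hfin2 := IIE_fin2 X L P w ZB E hX0 hLbig hP0 hw1 hZB
  have hfin3 := IIE_fin3 X L P w T0 T1 η c' m C6 E k n I ρ hX1 hLbig hP0 hw1 hT0 hm2 hk hL3 hc0
    (min_le_left _ _) (min_le_right _ _) (hT1X.trans (pow_le_pow_right₀ hX1 (by norm_num)))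
    hn hI hρ
  have hfin4 := IIE_fin4 X L P w E hX2 hLbig hP0 hw1 hexp hLE hLX
  have hI0 : 0 ≤ ∫ t, ‖ZZ S t‖ ^ 2 * ‖Mel G t‖ ^ 2 := integral_nonneg fun t => by positivity
  rw [← hG, hI2, ← hw]
  have hpi1 : 1 / (2 * Real.pi) ≤ 1 := by
    rw [div_le_one (by positivity)]
    linarith only [Real.pi_gt_three]
  calc 1 / (2 * Real.pi) * ∫ t, ‖ZZ S t‖ ^ 2 * ‖Mel G t‖ ^ 2
      ≤ 1 * ∫ t, ‖ZZ S t‖ ^ 2 * ‖Mel G t‖ ^ 2 := mul_le_mul_of_nonneg_right hpi1 hI0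
    _ ≤ P * X / L ^ E * w ^ 2 := by
        rw [one_mul]
        linarith only [hcore, hfin1, hfin2, hfin3, hfin4]

end Pool.Agent.H35.W

end

section

/-!
# W JJE: the small denominator integral for primes

Proof.  `ii_e B C0 (C1 + E + 5) (E + 2) η` gives `b', m0`; `b = max b' ..`.  Let `Θ = L^{C1+E+5}/A ≤ 1` (VERSION 2: the hypothesis is `P L^b ≤ A`; take `b ≥ C1+E+10`, so `A ≥ L^(C1+E+10)`).
(1) `|v| A ≤ x/L^{C0}/2`: `jred_e` with `K = 2P` (`pbl P d l ⊆ pb P ⊆ Icc 1 (2P)`; `2 P Y ≤ 2 L^{C1}/A ≤ 1`):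
 `JJT ≤ 2 (II + II) + 4 P (2PY/Θ)^2 (P · (1/P)) S2 ≤ 4 P x/L^{E+2} (1+|v|)^2 + 16 P L^{-2E-10} x L^2 ≤ (P x/L^E) (1+|v|)^2`.
(2) `|v| A > x/L^{C0}/2`: trivially `JJT ≤ 2Y (P ∑|g|)^2 ≤ 2 P^2 N S2 ≤ x^3` (`Y ≤ 1`, `card (pb P) ≤ P`, `‖FF‖ ≤ ∑|g| ≤ (N S2)^{1/2}`), while
 `1 + |v| ≥ x/(2 A L^{C0}) ≥ x^{1/2}/(2 L^{C0}) ≥ x^{1/3}`, `(1+|v|)^12 ≥ x^4`, and `P x/L^E ≥ 1`.
-/

set_option autoImplicit false

namespace Pool.Agent.H35.W

open Finset MeasureTheory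
open Pool.Agent.H91.PK (ee)
open Pool.Agent.H76.EHB

private theorem jje_S1 (g : ℕ → ℝ) (N : ℕ) : (∑ n ∈ Icc 1 N, |g n|) ^ 2 ≤ N * S2 g N := by
  unfold S2
  have h := sq_sum_le_card_mul_sum_sq (s := Icc 1 N) (f := fun n => |g n|)
  simp only [sq_abs, Nat.card_Icc, Nat.add_sub_cancel] at h
  exact h

private theorem jje_FF (g : ℕ → ℝ) (N : ℕ) (θ : ℝ) : ‖FF g N θ‖ ≤ ∑ n ∈ Icc 1 N, |g n| := by
  unfold FF
  refine (norm_sum_le _ _).trans (Finset.sum_le_sum fun n _ => ?_)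
  rw [norm_mul, Pool.Agent.H91.PK.LSa_norm_ee, mul_one, Complex.norm_real, Real.norm_eq_abs]

private theorem jje_triv (g : ℕ → ℝ) (N : ℕ) (T : Finset ℤ) (α a Y : ℝ) (hY : 0 ≤ Y) :
    JJT g N T α a Y ≤ 2 * Y * ((T.card : ℝ) ^ 2 * (N * S2 g N)) := by
  have hb : ∀ y : ℝ, ‖∑ k ∈ T, FF g N (α + k * y) * ee (-(a * k * y))‖ ^ 2 ≤
      (T.card : ℝ) ^ 2 * (N * S2 g N) := by
    intro y
    have h1 : ‖∑ k ∈ T, FF g N (α + k * y) * ee (-(a * k * y))‖ ≤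
        T.card * ∑ n ∈ Icc 1 N, |g n| := by
      refine (norm_sum_le _ _).trans ?_
      rw [← nsmul_eq_mul]
      refine Finset.sum_le_card_nsmul _ _ _ fun k _ => ?_
      rw [norm_mul, Pool.Agent.H91.PK.LSa_norm_ee, mul_one]
      exact jje_FF g N _
    calc ‖∑ k ∈ T, FF g N (α + k * y) * ee (-(a * k * y))‖ ^ 2
        ≤ (T.card * ∑ n ∈ Icc 1 N, |g n|) ^ 2 := pow_le_pow_left₀ (norm_nonneg _) h1 2
      _ = (T.card : ℝ) ^ 2 * (∑ n ∈ Icc 1 N, |g n|) ^ 2 := by ring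
      _ ≤ _ := mul_le_mul_of_nonneg_left (jje_S1 g N) (by positivity)
  unfold JJT
  have h2 : ∫ y in Set.Icc (-Y) Y, ‖∑ k ∈ T, FF g N (α + k * y) * ee (-(a * k * y))‖ ^ 2 ≤
      ∫ _ in Set.Icc (-Y) Y, (T.card : ℝ) ^ 2 * (N * S2 g N) := by
    refine integral_mono_of_nonneg (Filter.Eventually.of_forall fun y => ?_) ?_
      (Filter.Eventually.of_forall hb)
    · exact sq_nonneg _
    · exact integrable_const _
  refine h2.trans (le_of_eq ?_)
  rw [setIntegral_const, Measure.real, Real.volume_Icc, ENNReal.toReal_ofReal (by linarith),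
    smul_eq_mul]
  ring

private theorem jje_ev (E C0 : ℕ) : ∃ x1 : ℕ, ∀ x : ℕ, x1 ≤ x →
    4 ≤ Real.log x ∧ 2 ^ 13 * Real.log x ^ (2 + E + 12 * C0) ≤ x := by
  have h1 : ∀ᶠ x : ℕ in Filter.atTop, (4 : ℝ) ≤ Real.log x :=
    (Real.tendsto_log_atTop.comp tendsto_natCast_atTop_atTop).eventually_ge_atTop 4
  have h2 : ∀ᶠ y : ℝ in Filter.atTop, 2 ^ 13 * Real.log y ^ (2 + E + 12 * C0) ≤ y := by
    have h3 := (Real.isLittleO_pow_log_id_atTop (n := 2 + E + 12 * C0)).bound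
      (show (0 : ℝ) < 1 / 2 ^ 13 by positivity)
    filter_upwards [h3, Filter.eventually_ge_atTop (1 : ℝ)] with y hy hy1
    rw [Real.norm_eq_abs, Real.norm_eq_abs, id, abs_of_nonneg (by linarith only [hy1] : (0 : ℝ) ≤ y)] at hy
    have h4 := le_abs_self (Real.log y ^ (2 + E + 12 * C0))
    linarith only [hy, h4]
  have h3 := tendsto_natCast_atTop_atTop (R := ℝ) |>.eventually h2
  obtain ⟨x1, hx1⟩ := Filter.eventually_atTop.1 (h1.and h3)
  exact ⟨x1, fun x hx => hx1 x hx⟩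

private theorem jje_card (P d : ℕ) (l : ℤ) : ((pbl P d l).card : ℝ) ≤ P := by
  have h1 : (pbl P d l).card ≤ (Ioc P (2 * P)).card :=
    Finset.card_le_card ((filter_subset _ _).trans (filter_subset _ _))
  rw [Nat.card_Ioc] at h1
  have h2 : (pbl P d l).card ≤ P := by omega
  exact_mod_cast h2

private theorem jje_inv (P d : ℕ) (l : ℤ) (hP : 1 ≤ P) : ∑ k ∈ pbl P d l, 1 / (k : ℝ) ≤ 1 := by
  have hP0 : (0 : ℝ) < P := by exact_mod_cast hP
  have h1 : ∑ k ∈ pbl P d l, 1 / (k : ℝ) ≤ (pbl P d l).card • (1 / (P : ℝ)) := by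
    refine Finset.sum_le_card_nsmul _ _ _ fun k hk => ?_
    have h2 : k ∈ Ioc P (2 * P) := ((filter_subset _ _).trans (filter_subset _ _)) hk
    rw [mem_Ioc] at h2
    have h3 : (P : ℝ) ≤ k := by exact_mod_cast h2.1.le
    exact one_div_le_one_div_of_le hP0 h3
  refine h1.trans ?_
  rw [nsmul_eq_mul, mul_one_div, div_le_one hP0]
  exact jje_card P d l

theorem jj_e (B C0 C1 E : ℕ) (η : ℝ) (hη : 0 < η) : ∃ b m0 : ℕ, ∀ m : ℕ, m0 ≤ m → ∃ x0 : ℕ,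
    ∀ x : ℕ, x0 ≤ x → ∀ (g : ℕ → ℝ) (N M a0 P A d : ℕ) (c l : ℤ) (Y v : ℝ),
      CorB x B m η N M a0 g → N ≤ x → (a0 : ℝ) + x / Real.log x ^ C0 ≤ M → Real.log x ^ b ≤ P →
      P * Real.log x ^ b ≤ A → (A : ℝ) ^ 2 ≤ x → 1 ≤ d → (d : ℝ) ≤ Real.log x ^ B →
      IsCoprime c (d : ℤ) → 0 ≤ Y → P * Y ≤ Real.log x ^ C1 / A →
      JJT g N (zs (pbl P d l)) ((c : ℝ) / d) (a0 + A * v) Y
        ≤ P * x / Real.log x ^ E * (1 + |v|) ^ 12 := by
  obtain ⟨b', m0, H⟩ := ii_e B C0 (C1 + E + 5) (E + 2) η hη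
  refine ⟨max b' (C1 + E + 10), m0, fun m hm => ?_⟩
  obtain ⟨x0, hx0⟩ := H m hm
  obtain ⟨x1, hx1⟩ := jje_ev E C0
  refine ⟨max x0 x1, fun x hx g N M a0 P A d c l Y v hg hN hM hP hPA hA hd1 hd hcd hY hPY => ?_⟩
  obtain ⟨hL4, hbig⟩ := hx1 x (le_of_max_le_right hx)
  have hxx0 : x0 ≤ x := le_of_max_le_left hx
  have hL1 : (1 : ℝ) ≤ Real.log x := by linarith only [hL4]
  have hL0 : (0 : ℝ) < Real.log x := by linarith only [hL4]
  have hPb : Real.log x ^ b' ≤ P := (pow_le_pow_right₀ hL1 (le_max_left _ _)).trans hP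
  have hp1 : (1 : ℝ) ≤ P := (one_le_pow₀ hL1).trans hPb
  have hPn : 1 ≤ P := by exact_mod_cast hp1
  have hLb : Real.log x ^ (max b' (C1 + E + 10)) ≤ A :=
    (le_mul_of_one_le_left (by positivity) hp1).trans hPA
  have hPA1 : (P : ℝ) ≤ A := (le_mul_of_one_le_right (by positivity) (one_le_pow₀ hL1)).trans hPA
  have hA1 : (1 : ℝ) ≤ A := hp1.trans hPA1
  have hA0 : (0 : ℝ) < A := by linarith only [hp1, hPA1]
  have hAx : (A : ℝ) ≤ x := (le_self_pow₀ hA1 (by norm_num)).trans hA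
  have hx1' : (1 : ℝ) ≤ x := hA1.trans hAx
  have hp2x : (P : ℝ) ^ 2 ≤ x := (pow_le_pow_left₀ (by positivity) hPA1 2).trans hA
  have hPx : P ≤ x := by exact_mod_cast hPA1.trans hAx
  have hCA : Real.log x ^ (C1 + E + 5 + 5) ≤ A :=
    (pow_le_pow_right₀ hL1 (le_max_right b' (C1 + E + 5 + 5))).trans hLb
  have hC1 : Real.log x ^ C1 * 4 ≤ A := by
    refine le_trans ?_ hCA
    rw [add_assoc, add_assoc, pow_add]
    refine mul_le_mul_of_nonneg_left ?_ (by positivity)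
    exact hL4.trans (le_self_pow₀ hL1 (by omega))
  have hY1 : P * Y ≤ 1 / 4 := by
    refine hPY.trans ?_
    rw [div_le_iff₀ hA0]
    linarith only [hC1]
  have hw1 : (1 : ℝ) ≤ 1 + |v| := by linarith only [abs_nonneg v]
  have hNx : (N : ℝ) ≤ x := by exact_mod_cast hN
  have hS0 : 0 ≤ S2 g N := Finset.sum_nonneg fun n _ => sq_nonneg _
  by_cases hv : A * |v| ≤ x / Real.log x ^ C0 / 2
  · have habs : |((a0 : ℝ) + A * v) - a0| = A * |v| := by
      rw [show ((a0 : ℝ) + A * v) - a0 = A * v by ring, abs_mul, abs_of_pos hA0]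
    have e0 : ∀ s : ℝ, (s = 1 ∨ s = -1) →
        II (pbl P d l) (ge g N ((c : ℝ) / d) (a0 + A * v) (Real.log x ^ (C1 + E + 5) / A) s) ≤
          P * x / Real.log x ^ (E + 2) * (1 + |v|) ^ 2 := by
      intro s hs
      have h1 := hx0 x hxx0 g N M a0 P A d (pbl P d l) c (a0 + A * v) s hg hN hM hPb hPx hCA hA
        (filter_subset _ _) hd1 hd hcd hs (by rw [habs]; exact hv)
      rw [habs, mul_div_cancel_left₀ _ hA0.ne'] at h1
      exact h1
    have hsub : pbl P d l ⊆ Icc 1 (2 * P) := by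
      intro k hk
      have h2 : k ∈ Ioc P (2 * P) := ((filter_subset _ _).trans (filter_subset _ _)) hk
      rw [mem_Ioc] at h2
      rw [mem_Icc]
      exact ⟨by omega, h2.2⟩
    have hΘ : 0 < Real.log x ^ (C1 + E + 5) / A := by positivity
    have e3 := jred_e g N (2 * P) (pbl P d l) hsub ((c : ℝ) / d) (a0 + A * v) Y
      (Real.log x ^ (C1 + E + 5) / A) hY (by push_cast; nlinarith only [hY1]) hΘ
    refine e3.trans ?_
    have e4 := e0 1 (Or.inl rfl)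
    have e5 := e0 (-1) (Or.inr rfl)
    have e6 : ((2 * P : ℕ) : ℝ) * Y / (Real.log x ^ (C1 + E + 5) / A) ≤
        2 / Real.log x ^ (E + 5) := by
      rw [div_le_iff₀ hΘ]
      have h1 : 2 / Real.log x ^ (E + 5) * (Real.log x ^ (C1 + E + 5) / A) =
          2 * (Real.log x ^ C1 / A) := by
        have h2 : Real.log x ^ (C1 + E + 5) = Real.log x ^ (E + 5) * Real.log x ^ C1 := by
          rw [← pow_add]
          congr 1
          ring
        have h3 : Real.log x ^ (E + 5) ≠ 0 := by positivity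
        rw [h2]
        field_simp
      rw [h1]
      push_cast
      linarith only [hPY]
    have e7 : (((2 * P : ℕ) : ℝ) * Y / (Real.log x ^ (C1 + E + 5) / A)) ^ 2 ≤
        (2 / Real.log x ^ (E + 5)) ^ 2 := pow_le_pow_left₀ (by positivity) e6 2
    have e8 : 4 * ((pbl P d l).card : ℝ) * (((2 * P : ℕ) : ℝ) * Y /
        (Real.log x ^ (C1 + E + 5) / A)) ^ 2 * (∑ k ∈ pbl P d l, 1 / (k : ℝ)) * S2 g N ≤
        4 * P * (2 / Real.log x ^ (E + 5)) ^ 2 * 1 * (x * Real.log x ^ 2) := by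
      have i1 : 4 * ((pbl P d l).card : ℝ) ≤ 4 * P := by linarith only [jje_card P d l]
      have i2 := mul_le_mul i1 e7 (sq_nonneg _) (by positivity)
      have i3 := mul_le_mul i2 (jje_inv P d l hPn)
        (Finset.sum_nonneg fun k _ => by positivity) (by positivity)
      exact mul_le_mul i3 hg.sq hS0 (by positivity)
    obtain ⟨D, hD⟩ : ∃ D : ℝ, D = P * x / Real.log x ^ E := ⟨_, rfl⟩
    have hD0 : 0 ≤ D := by rw [hD]; positivity
    have e9 : P * x / Real.log x ^ (E + 2) = D / Real.log x ^ 2 := by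
      rw [hD, pow_add, div_div]
    have e10 : 4 * P * (2 / Real.log x ^ (E + 5)) ^ 2 * 1 * (x * Real.log x ^ 2) =
        D * (16 / Real.log x ^ (E + 8)) := by
      rw [hD]
      field_simp
      ring
    have e11 : D / Real.log x ^ 2 ≤ D / 16 := by
      refine div_le_div_of_nonneg_left hD0 (by norm_num) ?_
      nlinarith only [hL4]
    have e12 : (16 : ℝ) / Real.log x ^ (E + 8) ≤ 1 / 4 := by
      rw [div_le_div_iff₀ (by positivity) (by norm_num)]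
      have h1 : Real.log x ^ 3 ≤ Real.log x ^ (E + 8) := pow_le_pow_right₀ hL1 (by omega)
      have h2 : (4 : ℝ) ^ 3 ≤ Real.log x ^ 3 := pow_le_pow_left₀ (by norm_num) hL4 3
      norm_num at h2
      linarith only [h1, h2]
    have e13 : D * (16 / Real.log x ^ (E + 8)) ≤ D * (1 / 4) :=
      mul_le_mul_of_nonneg_left e12 hD0
    have w2 : (1 + |v|) ^ 2 ≤ (1 + |v|) ^ 12 := pow_le_pow_right₀ hw1 (by norm_num)
    have w0 : 1 ≤ (1 + |v|) ^ 12 := one_le_pow₀ hw1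
    have e14 : D / Real.log x ^ 2 * (1 + |v|) ^ 2 ≤ D / 16 * (1 + |v|) ^ 12 :=
      mul_le_mul e11 w2 (by positivity) (by positivity)
    have e15 : D * (1 / 4) ≤ D * (1 / 4) * (1 + |v|) ^ 12 :=
      le_mul_of_one_le_right (by positivity) w0
    rw [e9] at e4 e5
    rw [e10] at e8
    rw [← hD]
    have e16 : 0 ≤ D * (1 + |v|) ^ 12 := by positivity
    linarith only [e8, e5, e4, hD0, e13, e14, e15]
  · push Not at hv
    have h1 := jje_triv g N (zs (pbl P d l)) ((c : ℝ) / d) (a0 + A * v) Y hY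
    refine h1.trans ?_
    have hc1 : ((zs (pbl P d l)).card : ℝ) ≤ P := by
      refine le_trans ?_ (jje_card P d l)
      exact_mod_cast Finset.card_image_le
    have hc2 : ((zs (pbl P d l)).card : ℝ) ^ 2 ≤ x :=
      (pow_le_pow_left₀ (Nat.cast_nonneg _) hc1 2).trans hp2x
    have hc3 : (N : ℝ) * S2 g N ≤ x * (x * Real.log x ^ 2) :=
      mul_le_mul hNx hg.sq hS0 (by positivity)
    have hc4 : ((zs (pbl P d l)).card : ℝ) ^ 2 * (N * S2 g N) ≤ x * (x * (x * Real.log x ^ 2)) :=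
      mul_le_mul hc2 hc3 (by positivity) (by positivity)
    have hY2 : 2 * Y ≤ 2 := by
      have : Y ≤ P * Y := le_mul_of_one_le_left hY hp1
      linarith only [hY1, this]
    have hc5 : 2 * Y * (((zs (pbl P d l)).card : ℝ) ^ 2 * (N * S2 g N)) ≤
        2 * (x * (x * (x * Real.log x ^ 2))) :=
      mul_le_mul hY2 hc4 (by positivity) (by norm_num)
    refine hc5.trans ?_
    have hv1 : x / (2 * Real.log x ^ C0 * A) ≤ 1 + |v| := by
      have h2 : x / (2 * Real.log x ^ C0 * A) = x / Real.log x ^ C0 / 2 / A := by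
        rw [div_div, div_div]
        ring_nf
      rw [h2, div_le_iff₀ hA0]
      nlinarith only [hv]
    have hv2 : (x / (2 * Real.log x ^ C0 * A)) ^ 12 ≤ (1 + |v|) ^ 12 :=
      pow_le_pow_left₀ (by positivity) hv1 12
    have hA12 : (A : ℝ) ^ 12 ≤ (x : ℝ) ^ 6 := by
      have h3 := pow_le_pow_left₀ (by positivity) hA 6
      rw [← pow_mul] at h3
      exact h3
    have hv3 : (x : ℝ) ^ 6 / (2 ^ 12 * Real.log x ^ (12 * C0)) ≤
        (x / (2 * Real.log x ^ C0 * A)) ^ 12 := by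
      rw [div_pow, mul_pow, mul_pow, ← pow_mul, mul_comm C0 12,
        div_le_div_iff₀ (by positivity) (by positivity)]
      have h4 : (x : ℝ) ^ 6 * (2 ^ 12 * Real.log x ^ (12 * C0) * (A : ℝ) ^ 12) ≤
          (x : ℝ) ^ 6 * (2 ^ 12 * Real.log x ^ (12 * C0) * (x : ℝ) ^ 6) := by
        refine mul_le_mul_of_nonneg_left ?_ (by positivity)
        exact mul_le_mul_of_nonneg_left hA12 (by positivity)
      refine h4.trans (le_of_eq ?_)
      ring
    have hv4 : (x : ℝ) / Real.log x ^ E * ((x : ℝ) ^ 6 / (2 ^ 12 * Real.log x ^ (12 * C0))) ≤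
        P * x / Real.log x ^ E * (1 + |v|) ^ 12 := by
      refine mul_le_mul ?_ (hv3.trans hv2) (by positivity) (by positivity)
      refine div_le_div_of_nonneg_right ?_ (by positivity)
      exact le_mul_of_one_le_left (by linarith only) hp1
    refine le_trans ?_ hv4
    rw [div_mul_div_comm, le_div_iff₀ (by positivity)]
    have hb2 : 2 ^ 13 * Real.log x ^ (2 + E + 12 * C0) ≤ (x : ℝ) ^ 4 :=
      hbig.trans (le_self_pow₀ hx1' (by norm_num))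
    have hb3 := mul_le_mul_of_nonneg_left hb2 (show (0 : ℝ) ≤ (x : ℝ) ^ 3 by positivity)
    calc 2 * ((x : ℝ) * (x * (x * Real.log x ^ 2))) *
          (Real.log x ^ E * (2 ^ 12 * Real.log x ^ (12 * C0)))
        = (x : ℝ) ^ 3 * (2 ^ 13 * Real.log x ^ (2 + E + 12 * C0)) := by
          rw [pow_add, pow_add]
          ring
      _ ≤ (x : ℝ) ^ 3 * (x : ℝ) ^ 4 := hb3
      _ = (x : ℝ) * (x : ℝ) ^ 6 := by ring

end Pool.Agent.H35.W

end
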