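import Pool.Agent.H94.EH.M25
import Pool.Agent.H94.EH.M28
import Pool.Agent.H94.EH.M29
import Pool.Agent.H94.EH.M32

/-! The parts of this file: H35.W.VB, H35.U.BlkA. -/

section

/-!
# W VB: the second moment over primes `p ~ P`

`v_bound`: saving `(log x)^c` for every `c`, `P (log x)^b ≤ A`.

Proof.  `second_momentS` with `f = g`, `K = 2P`, `S = zs (pb P) ⊆ ks (2P)`, `R = ⌊L^B⌋₊`, `L = log x`,
`r0 = ⌊P/L^r⌋₊ + 1`, `r = 2B + c + 8`, `U = P x/L^(3B+c+8)`; `hJ` from `jj_e`: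
`S.filter (d ∣ k - l) = zs (pbl P d l)`, `P · L/(A r0) ≤ L^(r+1)/A`; `c ∈ red d` is coprime to `d`.
-/

set_option autoImplicit false

namespace Pool.Agent.H35.W

open Finset MeasureTheory
open Pool.Agent.H92.EH (red)
open Pool.Agent.H76.EHB

theorem vb_num (c B : ℕ) (hB : c + 6 ≤ B) (x A P s R r0 L l1 l2 e U : ℝ) (hL : 1000 ≤ L)
    (hx : 1 ≤ x) (hP : L ^ (2 * B + c + 8) ≤ P) (hPA : P * L ^ (2 * B + c + 10) ≤ A) (hs0 : 0 ≤ s)
    (hs : s ≤ x * L ^ 2) (hR1 : L ^ B / 2 ≤ R) (hR : R ≤ L ^ B)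
    (hr1 : 0 ≤ r0) (hr0 : r0 ≤ 2 * (P / L ^ (2 * B + c + 8))) (hl1 : l1 ≤ 2 * L) (hl10 : 0 ≤ l1)
    (hl2 : l2 ≤ 2 * L) (hl20 : 0 ≤ l2) (he : R ^ 2 * e ≤ 1)
    (hU0 : 0 ≤ U) (hU : U ≤ P * x / L ^ (3 * B + c + 8)) :
    Real.exp Real.pi * (4 * s * (2 * P + A * l1) + 128 * s * l2 * (A * (2 * P) / R + (2 * P) ^ 2)
      + R ^ 2 * (34 * A * l1 * r0 * s + e + 10000 * A * R * U)) ≤ A * x * P / L ^ c := by
  have hL0 : 0 < L := by linarith only [hL]
  have hL1 : 1 ≤ L := by linarith only [hL]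
  have hP1 : 1 ≤ P := le_trans (one_le_pow₀ hL1) hP
  have hP0 : 0 < P := by linarith only [hP1]
  have hPL : L ≤ P := le_trans (le_self_pow₀ hL1 (by omega)) hP
  have hA1 : 1 ≤ A := by
    calc (1 : ℝ) = 1 * 1 := by ring
      _ ≤ P * L ^ (2 * B + c + 10) := mul_le_mul hP1 (one_le_pow₀ hL1) (by norm_num) hP0.le
      _ ≤ A := hPA
  have hA0 : 0 < A := by linarith only [hA1]
  have hx0 : 0 < x := by linarith
  have hR0 : 0 < R := lt_of_lt_of_le (by positivity) hR1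
  have hc0 : 0 < L ^ c := by positivity
  set W : ℝ := A * x * P / L ^ c with hW
  have hW0 : 0 < W := by positivity
  -- exponential of pi
  have hexp : Real.exp Real.pi ≤ 27 := by
    have h1 : Real.exp Real.pi ≤ Real.exp (3.2) := Real.exp_le_exp.mpr (by
      linarith only [Real.pi_lt_d2])
    have h3 : Real.exp 1 ≤ 2.7182818286 := Real.exp_one_lt_d9.le
    have h4 : Real.exp 3.2 = Real.exp 1 ^ 3 * Real.exp 0.2 := by
      rw [← Real.exp_nat_mul, ← Real.exp_add]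
      norm_num
    have h5 : Real.exp 0.2 ≤ 1.25 := by
      have := Real.exp_bound_div_one_sub_of_interval (x := 0.2) (by norm_num) (by norm_num)
      linarith only [this, show (1 : ℝ) / (1 - 0.2) = 1.25 by norm_num]
    have h6 : Real.exp 1 ^ 3 ≤ 2.7182818286 ^ 3 := pow_le_pow_left₀ (Real.exp_pos _).le h3 3
    have h7 : Real.exp 1 ^ 3 * Real.exp 0.2 ≤ 2.7182818286 ^ 3 * 1.25 :=
      mul_le_mul h6 h5 (Real.exp_pos _).le (by positivity)
    rw [h4] at h1
    have h8 : (2.7182818286 : ℝ) ^ 3 * 1.25 ≤ 27 := by norm_num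
    exact h1.trans (h7.trans h8)
  -- powers
  have hpow : ∀ i j : ℕ, i ≤ j → L ^ i ≤ L ^ j := fun i j h => pow_le_pow_right₀ hL1 h
  -- P ≥ L^(c+4)
  have hPc : L ^ (c + 4) ≤ P := (hpow _ _ (by omega)).trans hP
  have hPc6 : L ^ (c + 6) ≤ P := (hpow _ _ (by omega)).trans hP
  -- T1
  have hAP : 2 * P ≤ A := by
    have h2 : (2 : ℝ) ≤ L ^ (2 * B + c + 10) := by
      calc (2 : ℝ) ≤ L := by linarith only [hL]
        _ ≤ L ^ (2 * B + c + 10) := le_self_pow₀ hL1 (by omega)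
    calc 2 * P ≤ L ^ (2 * B + c + 10) * P := mul_le_mul_of_nonneg_right h2 hP0.le
      _ = P * L ^ (2 * B + c + 10) := by ring
      _ ≤ A := hPA
  have hT1 : 4 * s * (2 * P + A * l1) ≤ 12 * W / L := by
    have h1 : 2 * P + A * l1 ≤ 3 * A * L := by
      have : A * l1 ≤ A * (2 * L) := mul_le_mul_of_nonneg_left hl1 hA0.le
      nlinarith only [hL, hA1, hAP, this]
    have h2 : 4 * s * (2 * P + A * l1) ≤ 4 * (x * L ^ 2) * (3 * A * L) :=
      mul_le_mul (by linarith only [hs]) h1 (by positivity) (by positivity)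
    have h3 : 4 * (x * L ^ 2) * (3 * A * L) * (L ^ (c + 1)) ≤ 12 * (A * x * P) := by
      have : 4 * (x * L ^ 2) * (3 * A * L) * (L ^ (c + 1)) = 12 * (A * x) * L ^ (c + 4) := by ring
      rw [this]
      have := mul_le_mul_of_nonneg_left hPc (show (0 : ℝ) ≤ 12 * (A * x) by positivity)
      linarith only [this]
    have h4 : 12 * W / L = 12 * (A * x * P) / L ^ (c + 1) := by
      rw [hW]
      field_simp
      ring
    rw [h4, le_div_iff₀ (by positivity)]
    exact le_trans (mul_le_mul_of_nonneg_right h2 (by positivity)) h3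
  -- T2
  have hT2 : 128 * s * l2 * (A * (2 * P) / R + (2 * P) ^ 2) ≤ 2048 * W / L ^ 3 := by
    have h1 : A * (2 * P) / R ≤ 4 * (A * P) / L ^ (c + 6) := by
      rw [div_le_div_iff₀ hR0 (by positivity)]
      have : L ^ (c + 6) ≤ 2 * R := by
        have := hpow _ _ hB
        linarith only [hR1, this]
      have h5 := mul_le_mul_of_nonneg_left this (show (0 : ℝ) ≤ A * (2 * P) by positivity)
      linarith only [h5]
    have h2 : (2 * P) ^ 2 ≤ 4 * (A * P) / L ^ (c + 6) := by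
      rw [le_div_iff₀ (by positivity)]
      have h5 : P ^ 2 * L ^ (c + 6) ≤ A * P := by
        calc P ^ 2 * L ^ (c + 6) ≤ P ^ 2 * L ^ (2 * B + c + 10) :=
              mul_le_mul_of_nonneg_left (hpow _ _ (by omega)) (by positivity)
          _ = (P * L ^ (2 * B + c + 10)) * P := by ring
          _ ≤ A * P := mul_le_mul_of_nonneg_right hPA hP0.le
      nlinarith only [h5]
    have h3 : 128 * s * l2 ≤ 128 * (x * L ^ 2) * (2 * L) :=
      mul_le_mul (by linarith only [hs]) hl2 hl20 (by positivity)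
    have h4 : A * (2 * P) / R + (2 * P) ^ 2 ≤ 8 * (A * P) / L ^ (c + 6) := by
      have : 8 * (A * P) / L ^ (c + 6) = 4 * (A * P) / L ^ (c + 6) + 4 * (A * P) / L ^ (c + 6) := by
        ring
      linarith only [h1, h2, this]
    calc _ ≤ 128 * (x * L ^ 2) * (2 * L) * (8 * (A * P) / L ^ (c + 6)) :=
          mul_le_mul h3 h4 (by positivity) (by positivity)
      _ = 2048 * W / L ^ 3 := by
          rw [hW]
          field_simp
          ring
  -- T3
  have hR2 : R ^ 2 ≤ L ^ (2 * B) := by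
    rw [mul_comm 2 B, pow_mul]
    exact pow_le_pow_left₀ hR0.le hR 2
  have hR3 : R ^ 3 ≤ L ^ (3 * B) := by
    rw [mul_comm 3 B, pow_mul]
    exact pow_le_pow_left₀ hR0.le hR 3
  have hT3 : R ^ 2 * (34 * A * l1 * r0 * s) ≤ 136 * W / L ^ 5 := by
    have h1 : 34 * A * l1 * r0 * s ≤ 34 * A * (2 * L) * (2 * (P / L ^ (2 * B + c + 8))) *
        (x * L ^ 2) := by
      apply mul_le_mul _ hs hs0 (by positivity)
      apply mul_le_mul _ hr0 hr1 (by positivity)
      exact mul_le_mul_of_nonneg_left hl1 (by positivity)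
    calc _ ≤ L ^ (2 * B) * (34 * A * (2 * L) * (2 * (P / L ^ (2 * B + c + 8))) *
        (x * L ^ 2)) := mul_le_mul hR2 h1 (by positivity) (by positivity)
      _ = 136 * W / L ^ 5 := by
          rw [hW, show 2 * B + c + 8 = 2 * B + (c + 8) by ring, pow_add L (2 * B) (c + 8)]
          field_simp
          ring
  -- T5
  have hT5 : R ^ 2 * (10000 * A * R * U) ≤ 10000 * W / L ^ 8 := by
    have h1 : R ^ 2 * (10000 * A * R * U) = 10000 * A * R ^ 3 * U := by ring
    rw [h1]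
    calc 10000 * A * R ^ 3 * U ≤ 10000 * A * L ^ (3 * B) * (P * x / L ^ (3 * B + c + 8)) := by
          apply mul_le_mul _ hU hU0 (by positivity)
          exact mul_le_mul_of_nonneg_left hR3 (by positivity)
      _ = 10000 * W / L ^ 8 := by
          rw [hW, show 3 * B + c + 8 = 3 * B + (c + 8) by ring, pow_add L (3 * B) (c + 8)]
          field_simp
          ring
  -- T4
  have hT4 : 1 ≤ W / L := by
    rw [hW, div_div, ← pow_succ, le_div_iff₀ (by positivity), one_mul]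
    calc L ^ (c + 1) ≤ L ^ (c + 4) := hpow _ _ (by omega)
      _ ≤ P := hPc
      _ = 1 * 1 * P := by ring
      _ ≤ A * x * P := by
          apply mul_le_mul_of_nonneg_right _ hP0.le
          exact mul_le_mul hA1 hx (by norm_num) (by positivity)
  -- sum
  have hsum : 4 * s * (2 * P + A * l1) + 128 * s * l2 * (A * (2 * P) / R + (2 * P) ^ 2)
      + R ^ 2 * (34 * A * l1 * r0 * s + e + 10000 * A * R * U) ≤
      12 * W / L + 2048 * W / L ^ 3 + 136 * W / L ^ 5 + W / L + 10000 * W / L ^ 8 := by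
    have : R ^ 2 * (34 * A * l1 * r0 * s + e + 10000 * A * R * U) =
      R ^ 2 * (34 * A * l1 * r0 * s) + R ^ 2 * e + R ^ 2 * (10000 * A * R * U) := by ring
    rw [this]
    linarith only [he, hT1, hT2, hT3, hT5, hT4]
  have hWL : ∀ k : ℕ, W / L ^ (k + 1) ≤ W / 1000 ^ (k + 1) := by
    intro k
    exact div_le_div_of_nonneg_left hW0.le (by positivity) (pow_le_pow_left₀ (by norm_num) hL _)
  have hfin : 12 * W / L + 2048 * W / L ^ 3 + 136 * W / L ^ 5 + W / L + 10000 * W / L ^ 8 ≤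
      W / 27 := by
    have e1 := hWL 0
    have e3 := hWL 2
    have e5 := hWL 4
    have e8 := hWL 7
    norm_num at e1 e3 e5 e8
    have r1 : 12 * W / L = 12 * (W / L) := by ring
    have r3 : 2048 * W / L ^ 3 = 2048 * (W / L ^ 3) := by ring
    have r5 : 136 * W / L ^ 5 = 136 * (W / L ^ 5) := by ring
    have r8 : 10000 * W / L ^ 8 = 10000 * (W / L ^ 8) := by ring
    rw [r1, r3, r5, r8]
    nlinarith only [hT4, e1, e3, e5, e8]
  have hnn : 0 ≤ W / 27 := by positivity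
  calc _ ≤ Real.exp Real.pi * (W / 27) :=
        mul_le_mul_of_nonneg_left (hsum.trans hfin) (Real.exp_pos _).le
    _ ≤ 27 * (W / 27) := mul_le_mul_of_nonneg_right hexp hnn
    _ = W := by ring

theorem zs_pb_sub (P : ℕ) : zs (pb P) ⊆ ks (2 * P) := by
  intro k hk
  unfold zs at hk
  rw [mem_image] at hk
  obtain ⟨p, hp, rfl⟩ := hk
  unfold pb at hp
  rw [mem_filter, mem_Ioc] at hp
  unfold ks
  rw [mem_erase, mem_Icc]
  refine ⟨?_, ?_, ?_⟩
  · exact_mod_cast hp.2.ne_zero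
  · have : (0 : ℤ) ≤ p := by positivity
    have h2 : (0 : ℤ) ≤ ((2 * P : ℕ) : ℤ) := by positivity
    linarith only [hp]
  · exact_mod_cast hp.1.2

theorem zs_filter (P d : ℕ) (l : ℤ) :
    (zs (pb P)).filter (fun k => (d : ℤ) ∣ k - l) = zs (pbl P d l) := by
  ext k
  unfold zs pbl
  simp only [mem_filter, mem_image]
  constructor
  · rintro ⟨⟨p, hp, rfl⟩, h⟩
    exact ⟨p, ⟨hp, h⟩, rfl⟩
  · rintro ⟨p, ⟨hp, h⟩, rfl⟩
    exact ⟨⟨p, hp, rfl⟩, h⟩

theorem vb_lhs (g : ℕ → ℝ) (N M a0 P A X : ℕ) (hg : ∀ n, n ∉ Ioc M N → g n = 0) :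
    ∑ m ∈ Icc 1 X, ∑ a ∈ Ioc a0 (a0 + A), (∑ p ∈ pb P, g (a + p * m)) ^ 2 =
    ∑ m ∈ Icc 1 X, ∑ a ∈ Ioc (a0 : ℤ) (a0 + A), (∑ k ∈ zs (pb P), ft g N (a + k * m)) ^ 2 := by
  refine sum_congr rfl fun m _ => ?_
  have himg : Ioc (a0 : ℤ) (a0 + A) = (Ioc a0 (a0 + A)).image (fun a : ℕ => (a : ℤ)) := by
    ext z
    simp only [mem_image, mem_Ioc]
    constructor
    · rintro ⟨h1, h2⟩
      refine ⟨z.toNat, ⟨by omega, by omega⟩, by omega⟩
    · rintro ⟨a, ⟨h1, h2⟩, rfl⟩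
      exact ⟨by omega, by omega⟩
  rw [himg, sum_image (fun a _ b _ h => by exact_mod_cast h)]
  refine sum_congr rfl fun a _ => ?_
  congr 1
  unfold zs
  rw [sum_image (fun a _ b _ h => by exact_mod_cast h)]
  refine sum_congr rfl fun p _ => ?_
  have hcast : (a : ℤ) + (p : ℤ) * m = ((a + p * m : ℕ) : ℤ) := by push_cast; ring
  rw [hcast]
  unfold ft
  split_ifs with h
  · rw [Int.toNat_natCast]
  · apply hg
    rw [mem_Ioc]
    intro h2
    apply h
    constructor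
    · have := h2.1
      omega
    · exact_mod_cast h2.2

theorem v_bound (c B C0 : ℕ) (hB : c + 6 ≤ B) (η : ℝ) (hη : 0 < η) : ∃ b m0 : ℕ, ∀ m : ℕ,
    m0 ≤ m → ∃ x0 : ℕ, ∀ x : ℕ, x0 ≤ x → ∀ (g : ℕ → ℝ) (N M a0 P A X : ℕ),
      CorB x B m η N M a0 g → N ≤ x → (a0 : ℝ) + x / Real.log x ^ C0 ≤ M →
      Real.log x ^ b ≤ P → P * Real.log x ^ b ≤ A → (A : ℝ) ^ 2 ≤ x →
      ∑ m ∈ Icc 1 X, ∑ a ∈ Ioc a0 (a0 + A), (∑ p ∈ pb P, g (a + p * m)) ^ 2
        ≤ A * x * P / Real.log x ^ c := by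
  obtain ⟨b1, m0, hj⟩ := jj_e B C0 (2 * B + c + 9) (3 * B + c + 8) η hη
  refine ⟨max b1 (2 * B + c + 10), m0, fun m hm => ?_⟩
  obtain ⟨x1, hx1⟩ := hj m hm
  have ev1 : ∀ᶠ x : ℕ in Filter.atTop, 1000 ≤ Real.log x :=
    (Real.tendsto_log_atTop.comp tendsto_natCast_atTop_atTop).eventually_ge_atTop 1000
  have ev2 : ∀ᶠ x : ℕ in Filter.atTop, Real.log x ^ (2 * B) ≤ x := by
    have h := (Real.isLittleO_pow_log_id_atTop (n := 2 * B)).bound one_pos
    have h2 := tendsto_natCast_atTop_atTop.eventually h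
    filter_upwards [h2, Filter.eventually_ge_atTop 1] with x hx hx1
    have hxr : (1 : ℝ) ≤ x := by exact_mod_cast hx1
    have hl : 0 ≤ Real.log x := Real.log_nonneg hxr
    simp only [id, Real.norm_eq_abs, one_mul] at hx
    rw [abs_of_nonneg (by positivity), abs_of_nonneg (by positivity)] at hx
    exact hx
  obtain ⟨x2, hx2⟩ := Filter.eventually_atTop.mp (ev1.and ev2)
  refine ⟨max x1 x2, fun x hx g N M a0 P A X hC hN hM hP hPA hAx => ?_⟩
  obtain ⟨hL, hxB⟩ := hx2 x (le_trans (le_max_right _ _) hx)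
  have hx1' : x1 ≤ x := le_trans (le_max_left _ _) hx
  set L : ℝ := Real.log x with hLdef
  have hL0 : 0 < L := by linarith only [hL]
  have hL1 : 1 ≤ L := by linarith only [hL]
  have hxpos : 0 < x := by
    rcases Nat.eq_zero_or_pos x with h | h
    · rw [h] at hLdef
      simp at hLdef
      linarith only [hL, hLdef]
    · exact h
  have hxr : (1 : ℝ) ≤ x := by exact_mod_cast hxpos
  have hxL : Real.exp L = x := Real.exp_log (by linarith only [hxr])
  have hLx : L ≤ x := by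
    have := Real.log_le_sub_one_of_pos (show (0 : ℝ) < x by linarith)
    linarith only [this]
  have hPb1 : L ^ b1 ≤ P := (pow_le_pow_right₀ hL1 (le_max_left _ _)).trans hP
  have hPr : L ^ (2 * B + c + 10) ≤ P := (pow_le_pow_right₀ hL1 (le_max_right _ _)).trans hP
  have hPr8 : L ^ (2 * B + c + 8) ≤ P := (pow_le_pow_right₀ hL1 (by omega)).trans hPr
  have hP1000 : (1000 : ℝ) ≤ P := le_trans hL ((le_self_pow₀ hL1 (by omega)).trans hPr)
  have hP0 : (0 : ℝ) < P := by linarith only [hP1000]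
  have hP1 : (1 : ℝ) ≤ P := by linarith only [hP1000]
  have hPnat : 1 ≤ P := by exact_mod_cast hP1
  have hPA1 : (P : ℝ) * L ^ b1 ≤ A :=
    (mul_le_mul_of_nonneg_left (pow_le_pow_right₀ hL1 (le_max_left _ _)) hP0.le).trans hPA
  have hPA2 : (P : ℝ) * L ^ (2 * B + c + 10) ≤ A :=
    (mul_le_mul_of_nonneg_left (pow_le_pow_right₀ hL1 (le_max_right _ _)) hP0.le).trans hPA
  have hPLA : (P : ℝ) * L ≤ A :=
    (mul_le_mul_of_nonneg_left (le_self_pow₀ hL1 (by omega)) hP0.le).trans hPA2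
  have hAr : (P : ℝ) ≤ A := by nlinarith only [hL, hPLA]
  have hA1 : (1 : ℝ) ≤ A := by linarith only [hP1000, hAr]
  have hA0 : (0 : ℝ) < A := by linarith only [hP1000, hAr]
  have hAle : (A : ℝ) ≤ x := le_trans (le_self_pow₀ hA1 (by norm_num)) hAx
  have h4P : (4 : ℝ) * P ≤ A := by nlinarith only [hL, hPLA]
  -- parameters
  set R : ℕ := ⌊L ^ B⌋₊ with hRdef
  set r0 : ℕ := ⌊(P : ℝ) / L ^ (2 * B + c + 8)⌋₊ + 1 with hr0def
  have hLB : 1 ≤ L ^ B := one_le_pow₀ hL1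
  have hRle : (R : ℝ) ≤ L ^ B := Nat.floor_le (by positivity)
  have hR1 : 1 ≤ R := Nat.one_le_floor_iff _ |>.mpr hLB
  have hRge : L ^ B / 2 ≤ R := by
    have h1 := Nat.lt_floor_add_one (L ^ B)
    have h2 : (1 : ℝ) ≤ R := by exact_mod_cast hR1
    rw [← hRdef] at h1
    linarith only [h1, h2]
  have hq1 : 1 ≤ (P : ℝ) / L ^ (2 * B + c + 8) := by
    rw [le_div_iff₀ (by positivity), one_mul]
    exact hPr8
  have hr0le : (r0 : ℝ) ≤ 2 * ((P : ℝ) / L ^ (2 * B + c + 8)) := by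
    rw [hr0def]
    push_cast
    have := Nat.floor_le (show (0 : ℝ) ≤ (P : ℝ) / L ^ (2 * B + c + 8) by positivity)
    linarith only [hq1, this]
  have hr0ge : (P : ℝ) / L ^ (2 * B + c + 8) ≤ r0 := by
    rw [hr0def]
    push_cast
    exact (Nat.lt_floor_add_one _).le
  have hr01 : 1 ≤ r0 := by
    rw [hr0def]
    omega
  have hr0pos : (0 : ℝ) < r0 := by exact_mod_cast hr01
  have hY : (P : ℝ) * (L / (A * r0)) ≤ L ^ (2 * B + c + 9) / A := by
    rw [← mul_div_assoc, div_le_div_iff₀ (by positivity) hA0]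
    have h1 : (P : ℝ) ≤ r0 * L ^ (2 * B + c + 8) := by
      rw [div_le_iff₀ (by positivity)] at hr0ge
      exact hr0ge
    have h2 : (P : ℝ) * L * A ≤ (r0 * L ^ (2 * B + c + 8)) * L * A := by
      apply mul_le_mul_of_nonneg_right _ hA0.le
      exact mul_le_mul_of_nonneg_right h1 hL0.le
    calc (P : ℝ) * L * A ≤ (r0 * L ^ (2 * B + c + 8)) * L * A := h2
      _ = L ^ (2 * B + c + 9) * (A * r0) := by ring
  have hKY : ((2 * P : ℕ) : ℝ) * (L / (A * r0)) ≤ 1 / 2 := by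
    push_cast
    have h1 : 2 * (P : ℝ) * (L / (A * r0)) ≤ 2 * (L ^ (2 * B + c + 9) / A) := by linarith only [hY]
    refine h1.trans ?_
    rw [← mul_div_assoc, div_le_iff₀ hA0]
    have h2 : 4 * L ^ (2 * B + c + 9) ≤ A := by
      calc 4 * L ^ (2 * B + c + 9) ≤ 4 * L ^ (2 * B + c + 10) := by
            have := pow_le_pow_right₀ hL1 (show 2 * B + c + 9 ≤ 2 * B + c + 10 by omega)
            linarith only [this]
        _ ≤ 4 * P := by linarith only [hPr]
        _ ≤ A := h4P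
    linarith only [h2]
  have hU0 : 0 ≤ P * x / L ^ (3 * B + c + 8) := by positivity
  have hJ : ∀ d ∈ Icc 1 R, ∀ c' ∈ red d, ∀ l ∈ range d, ∀ v : ℝ,
      JJT g N ((zs (pb P)).filter (fun k => (d : ℤ) ∣ k - l)) ((c' : ℝ) / d) ((a0 : ℤ) + A * v)
        (L / (A * r0)) ≤ P * x / L ^ (3 * B + c + 8) * (1 + |v|) ^ 12 := by
    intro d hd c' hc' l _ v
    rw [mem_Icc] at hd
    have hcop : IsCoprime (c' : ℤ) (d : ℤ) := by
      have := (Pool.Agent.H92.EH.mem_red.mp hc').2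
      exact Nat.isCoprime_iff_coprime.mpr this
    have hdR : (d : ℝ) ≤ L ^ B := le_trans (by exact_mod_cast hd.2) hRle
    have hY0 : 0 ≤ L / (A * r0) := by positivity
    have := hx1 x hx1' g N M a0 P A d c' l (L / (A * r0)) v hC hN hM hPb1 hPA1 hAx hd.1 hdR hcop
      hY0 hY
    rw [zs_filter]
    push_cast at this ⊢
    exact this
  have hmain := second_momentS g N (2 * P) A X R r0 (zs (pb P)) (zs_pb_sub P) L (a0 : ℤ)
    (by omega) (by have : (2 * P : ℝ) ≤ A := by linarith only [hP1000, h4P]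
                   exact_mod_cast this) hR1 hr01 hL1 hKY _ hU0 hJ
  rw [vb_lhs g N M a0 P A X hC.supp]
  refine hmain.trans ?_
  have hs0 : 0 ≤ S2 g N := by
    unfold S2
    exact sum_nonneg fun n _ => sq_nonneg _
  have hlog2 : Real.log ((2 * P : ℕ) : ℝ) ≤ L := by
    apply Real.log_le_log (by push_cast; linarith only [hP1000])
    push_cast
    linarith only [hAle, h4P]
  have hlog2' : 0 ≤ Real.log ((2 * P : ℕ) : ℝ) := Real.log_natCast_nonneg _
  have hlog4 : Real.log (2 * ((2 * P : ℕ) : ℝ)) ≤ L := by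
    apply Real.log_le_log (by push_cast; linarith only [hP1000])
    push_cast
    linarith only [hAle, h4P]
  have hlog4' : 0 ≤ Real.log (2 * ((2 * P : ℕ) : ℝ)) := by
    apply Real.log_nonneg
    push_cast
    linarith only [hP1000]
  have he : (R : ℝ) ^ 2 * (8 * ((2 * P : ℕ) : ℝ) ^ 2 * N * S2 g N * Real.exp (-L ^ 2)) ≤ 1 := by
    have hR2 : (R : ℝ) ^ 2 ≤ x := by
      calc (R : ℝ) ^ 2 ≤ (L ^ B) ^ 2 := pow_le_pow_left₀ (by positivity) hRle 2
        _ = L ^ (2 * B) := by rw [← pow_mul, mul_comm]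
        _ ≤ x := hxB
    have hNr : (N : ℝ) ≤ x := by exact_mod_cast hN
    have h2P : (((2 * P : ℕ) : ℝ)) ^ 2 ≤ x := by
      push_cast
      calc (2 * (P : ℝ)) ^ 2 ≤ A ^ 2 := pow_le_pow_left₀ (by positivity) (by linarith only [h4P]) 2
        _ ≤ x := hAx
    have hS2 : S2 g N ≤ (x : ℝ) ^ 3 := by
      calc S2 g N ≤ x * L ^ 2 := hC.sq
        _ ≤ x * (x : ℝ) ^ 2 := by
            apply mul_le_mul_of_nonneg_left _ (by positivity)
            exact pow_le_pow_left₀ hL0.le hLx 2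
        _ = (x : ℝ) ^ 3 := by ring
    have h8 : (8 : ℝ) ≤ x := by linarith only [hP1000, hAle, h4P]
    have hprod : (R : ℝ) ^ 2 * (8 * ((2 * P : ℕ) : ℝ) ^ 2 * N * S2 g N) ≤ (x : ℝ) ^ 7 := by
      calc (R : ℝ) ^ 2 * (8 * ((2 * P : ℕ) : ℝ) ^ 2 * N * S2 g N) ≤
          x * (x * x * x * (x : ℝ) ^ 3) := by
            apply mul_le_mul hR2 _ (by positivity) (by positivity)
            apply mul_le_mul _ hS2 hs0 (by positivity)
            apply mul_le_mul _ hNr (by positivity) (by positivity)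
            apply mul_le_mul h8 h2P (by positivity) (by positivity)
        _ = (x : ℝ) ^ 7 := by ring
    have hexp : (x : ℝ) ^ 7 * Real.exp (-L ^ 2) ≤ 1 := by
      rw [← hxL, ← Real.exp_nat_mul, ← Real.exp_add]
      rw [← Real.exp_zero]
      apply Real.exp_le_exp.mpr
      push_cast
      nlinarith only [hL]
    calc (R : ℝ) ^ 2 * (8 * ((2 * P : ℕ) : ℝ) ^ 2 * N * S2 g N * Real.exp (-L ^ 2))
        = (R : ℝ) ^ 2 * (8 * ((2 * P : ℕ) : ℝ) ^ 2 * N * S2 g N) * Real.exp (-L ^ 2) := by ring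
      _ ≤ (x : ℝ) ^ 7 * Real.exp (-L ^ 2) :=
          mul_le_mul_of_nonneg_right hprod (Real.exp_pos _).le
      _ ≤ 1 := hexp
  have hnum := vb_num c B hB x A P (S2 g N) R r0 L (1 + Real.log ((2 * P : ℕ) : ℝ))
    (1 + Real.log (2 * ((2 * P : ℕ) : ℝ)))
    (8 * ((2 * P : ℕ) : ℝ) ^ 2 * N * S2 g N * Real.exp (-L ^ 2)) (P * x / L ^ (3 * B + c + 8))
    hL hxr hPr8 hPA2 hs0 hC.sq hRge hRle hr0pos.le hr0le (by linarith only [hL, hlog2]) (by linarith only [hlog2'])
    (by linarith only [hL, hlog4]) (by linarith only [hlog4']) he hU0 le_rfl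
  refine le_trans (le_of_eq ?_) hnum
  push_cast
  ring

end Pool.Agent.H35.W

end

section

/-!
# U BlkA: the average of the error over a block

`g` satisfies `CorB` (from `W.dec`), `S2 g x ≤ S2 f x ≤ 15 x L`; `fb = f - g`, so
`S2 fb x ≤ 2 (S2 f x + S2 g x) ≤ 60 x L`; `S2 (vR R M x) x ≤ x R^6` (`|lamR R n| ≤ R³`, `R ≤ L^B`).
* `v_bound` with the exponent `2(c+2)+5 = 2c+9` (needs `2c+15 ≤ B`): `b1`, `m0`; for `i < J` apply it with
  `P 2^i` in place of `P`, `A = H`, `X = x/(P 2^i)`: `L^b1 ≤ P ≤ P 2^i`, `P 2^i L^b1 ≤ P 2^J L^b ≤ H`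
  (take `b ≥ b1 + 1`, `P ≥ L^b/2`).  `fac_blk` with `c+2` for `c`, `N = x`, `K = x/Q`
  (`x < (x/Q+1) Q ≤ (K+1)(Q+1)`): `≤ J · 3Hx/L^(c+3) + H·2L·sqrt(15 x L · x (1+L)^8/sqrt P)`, `J ≤ 2L`,
  `Nat.log 2 K ≤ 2 L`; `sqrt P ≥ L^(b/2)/2`, `b ≥ 4c + 80`.
* `tail_avg` for `fb` and `vR`, for every `a`, with `m = 2r`, `4^(2r) ≥ L^(2 C2)`, `C2 = c + 3B + 50`:
  `≤ H sqrt(60 x L · x (1+L)^64/L^(2C2)) + H sqrt(x L^(6B) · x (1+L)^64/L^(2 C2)) ≤ 2 H x/L^(c+2)`.
Sum `≤ H x/L^c` for `L ≥ 100`.  (In the tails `S = PP P (P 2^J)`: primes.)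
-/

set_option autoImplicit false

namespace Pool.Agent.H35.U

open Finset
open Pool.Agent.H91.EHA (Lam lamR hR psiA)
open Pool.Agent.H87.WL (PP PPc Mu Om gR)
open Pool.Agent.H76.EHB (S2)
open Pool.Agent.H35.W (Rk rgh fcs CorB)

private theorem BlkA_s1 (x L s P : ℝ) (c b : ℕ) (hL : 1000 ≤ L) (hx : 0 ≤ x) (hs : s ≤ 15 * x * L)
    (hb : 4 * c + 80 ≤ b) (hP : L ^ b / 2 ≤ P) :
    Real.sqrt (s * (x * (1 + L) ^ 8 / Real.sqrt P)) ≤ x / L ^ (c + 3) := by
  have hL0 : 0 < L := by linarith only [hL]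
  have hL1 : 1 ≤ L := by linarith only [hL]
  have h1 : L ^ (4 * c + 40) ≤ P := by
    have h2 : L ^ (4 * c + 40) * 2 ≤ L ^ b := by
      calc L ^ (4 * c + 40) * 2 ≤ L ^ (4 * c + 40) * L := by
            apply mul_le_mul_of_nonneg_left (by linarith only [hL]) (by positivity)
        _ = L ^ (4 * c + 41) := by ring
        _ ≤ L ^ b := pow_le_pow_right₀ hL1 (by omega)
    linarith only [hP, h2]
  have h2 : L ^ (2 * c + 20) ≤ Real.sqrt P := by
    apply Real.le_sqrt_of_sq_le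
    calc (L ^ (2 * c + 20)) ^ 2 = L ^ (4 * c + 40) := by rw [← pow_mul]; ring_nf
      _ ≤ P := h1
  have h3 : (1 + L) ^ 8 ≤ 256 * L ^ 8 := by
    calc (1 + L) ^ 8 ≤ (2 * L) ^ 8 := pow_le_pow_left₀ (by linarith only [hL]) (by linarith only [hL]) 8
      _ = 256 * L ^ 8 := by ring
  apply Real.sqrt_le_iff.2
  refine ⟨by positivity, ?_⟩
  have h4 : x * (1 + L) ^ 8 / Real.sqrt P ≤ x * (256 * L ^ 8) / L ^ (2 * c + 20) := by
    apply div_le_div₀ (by positivity) _ (by positivity) h2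
    exact mul_le_mul_of_nonneg_left h3 hx
  have h5 : 0 ≤ x * (1 + L) ^ 8 / Real.sqrt P := by positivity
  calc s * (x * (1 + L) ^ 8 / Real.sqrt P)
      ≤ (15 * x * L) * (x * (256 * L ^ 8) / L ^ (2 * c + 20)) := by
        apply mul_le_mul hs h4 h5 (by positivity)
    _ = (3840 * x ^ 2 * L ^ 9) / L ^ (2 * c + 20) := by ring
    _ ≤ (x ^ 2 * L ^ 14) / L ^ (2 * c + 20) := by
        apply div_le_div_of_nonneg_right _ (by positivity)
        have h6 : (3840 : ℝ) ≤ L ^ 5 := by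
          calc (3840 : ℝ) ≤ 1000 ^ 5 := by norm_num
            _ ≤ L ^ 5 := pow_le_pow_left₀ (by norm_num) hL 5
        calc 3840 * x ^ 2 * L ^ 9 = 3840 * (x ^ 2 * L ^ 9) := by ring
          _ ≤ L ^ 5 * (x ^ 2 * L ^ 9) := by
              apply mul_le_mul_of_nonneg_right h6 (by positivity)
          _ = x ^ 2 * L ^ 14 := by ring
    _ = (x / L ^ (c + 3)) ^ 2 := by
        rw [div_pow, div_eq_div_iff (by positivity) (by positivity)]
        ring

private theorem BlkA_s2 (x L s t : ℝ) (c B : ℕ) (hL : 1000 ≤ L) (hx : 0 ≤ x)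
    (hs : s ≤ x * L ^ (6 * B + 2)) (ht : L ^ (2 * (c + 3 * B + 50)) ≤ t) :
    Real.sqrt (s * (x * (1 + L) ^ 64 / t)) ≤ x / L ^ (c + 2) := by
  have hL0 : 0 < L := by linarith only [hL]
  have hL1 : 1 ≤ L := by linarith only [hL]
  have ht0 : 0 < t := lt_of_lt_of_le (by positivity) ht
  have h3 : (1 + L) ^ 64 ≤ L ^ 30 * L ^ 64 := by
    calc (1 + L) ^ 64 ≤ (2 * L) ^ 64 := pow_le_pow_left₀ (by linarith) (by linarith) 64
      _ = 2 ^ 64 * L ^ 64 := by rw [mul_pow]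
      _ ≤ L ^ 30 * L ^ 64 := by
          apply mul_le_mul_of_nonneg_right _ (by positivity)
          calc (2 : ℝ) ^ 64 ≤ 1000 ^ 30 := by norm_num
            _ ≤ L ^ 30 := pow_le_pow_left₀ (by norm_num) hL 30
  apply Real.sqrt_le_iff.2
  refine ⟨by positivity, ?_⟩
  have h4 : x * (1 + L) ^ 64 / t ≤ x * (L ^ 30 * L ^ 64) / L ^ (2 * (c + 3 * B + 50)) := by
    apply div_le_div₀ (by positivity) _ (by positivity) ht
    exact mul_le_mul_of_nonneg_left h3 hx
  have h5 : 0 ≤ x * (1 + L) ^ 64 / t := by positivity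
  calc s * (x * (1 + L) ^ 64 / t)
      ≤ (x * L ^ (6 * B + 2)) * (x * (L ^ 30 * L ^ 64) / L ^ (2 * (c + 3 * B + 50))) := by
        apply mul_le_mul hs h4 h5 (by positivity)
    _ = (x / L ^ (c + 2)) ^ 2 := by
        rw [div_pow, mul_div_assoc', div_eq_div_iff (by positivity) (by positivity)]
        ring

private theorem BlkA_log (x K : ℕ) (h : K ≤ x) : (Nat.log 2 K : ℝ) ≤ 2 * Real.log x := by
  rcases Nat.eq_zero_or_pos K with rfl | hK
  · simp only [Nat.log_zero_right, Nat.cast_zero]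
    have := Real.log_natCast_nonneg x
    positivity
  · have h1 : 2 ^ Nat.log 2 K ≤ x := (Nat.pow_log_le_self 2 hK.ne').trans h
    have h2 : ((2 : ℝ) ^ Nat.log 2 K) ≤ x := by exact_mod_cast h1
    have h3 := Real.log_le_log (by positivity) h2
    rw [Real.log_pow] at h3
    have h4 : (1 : ℝ) / 2 ≤ Real.log 2 := by
      have := Real.log_two_gt_d9
      linarith only [this]
    have h5 : (0 : ℝ) ≤ (Nat.log 2 K : ℝ) := Nat.cast_nonneg _
    nlinarith only [h3, h4]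

private theorem BlkA_S2v (x M B : ℕ) (hB : 1 ≤ B) (hL : 1000 ≤ Real.log x) :
    S2 (vR ⌊Real.log x ^ B⌋₊ M x) x ≤ x * Real.log x ^ (6 * B + 2) := by
  have hL1 : 1 ≤ Real.log x := by linarith only [hL]
  have hL0 : 0 < Real.log x := by linarith only [hL]
  set R := ⌊Real.log x ^ B⌋₊ with hRd
  have hRle : (R : ℝ) ≤ Real.log x ^ B := Nat.floor_le (by positivity)
  have h1 : ∀ n ∈ Icc 1 x, (vR R M x n) ^ 2 ≤ Real.log x ^ (6 * B + 2) := by
    intro n hn
    rw [mem_Icc] at hn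
    unfold vR
    split_ifs with h
    · have h2 : |lamR R n| ≤ 2 * Real.log x + R := by
        have h3 := Pool.Agent.H76.EHB.hR_abs R n x hn.1 hn.2
        have h4 : |Lam n| ≤ Real.log x := by
          unfold Lam
          rw [abs_of_nonneg ArithmeticFunction.vonMangoldt_nonneg]
          refine ArithmeticFunction.vonMangoldt_le_log.trans ?_
          exact Real.log_le_log (by exact_mod_cast hn.1) (by exact_mod_cast hn.2)
        have h5 : lamR R n = Lam n - hR R n := by unfold hR; ring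
        rw [h5]
        refine (abs_sub _ _).trans ?_
        linarith only [h3, h4]
      have h6 : |lamR R n| ≤ 3 * Real.log x ^ B := by
        have h7 : Real.log x ≤ Real.log x ^ B := le_self_pow₀ hL1 (by omega)
        linarith only [hRle, h2, h7]
      calc lamR R n ^ 2 = |lamR R n| ^ 2 := (sq_abs _).symm
        _ ≤ (3 * Real.log x ^ B) ^ 2 := pow_le_pow_left₀ (abs_nonneg _) h6 2
        _ = 9 * Real.log x ^ (2 * B) := by rw [mul_pow, ← pow_mul]; ring_nf
        _ ≤ Real.log x * Real.log x ^ (2 * B) := by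
            apply mul_le_mul_of_nonneg_right (by linarith) (by positivity)
        _ = Real.log x ^ (2 * B + 1) := by ring
        _ ≤ Real.log x ^ (6 * B + 2) := pow_le_pow_right₀ hL1 (by omega)
    · rw [zero_pow two_ne_zero]
      positivity
  unfold S2
  refine (sum_le_sum h1).trans ?_
  rw [sum_const, nsmul_eq_mul, Nat.card_Icc]
  simp

theorem blk_avg (c B : ℕ) (hB : 2 * c + 15 ≤ B) (η : ℝ) (hη : 0 < η) : ∃ b0 m0 : ℕ, ∀ b : ℕ,
    b0 ≤ b → ∀ m : ℕ, m0 ≤ m → ∃ x0 : ℕ, ∀ x : ℕ, x0 ≤ x →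
    ∀ (fb g : ℕ → ℝ) (M a0 Q H P J r : ℕ), CorB x B m η x M a0 g →
      (a0 : ℝ) + x / Real.log x ^ 3 ≤ M →
      (∀ n, fb n + g n = if n ∈ Ioc M x then hR ⌊Real.log x ^ B⌋₊ n else 0) →
      S2 g x ≤ 15 * x * Real.log x → 1 ≤ Q → (H : ℝ) ^ 2 ≤ x →
      Real.log x ^ b / 2 ≤ P → ((P * 2 ^ J : ℕ) : ℝ) * Real.log x ^ b ≤ H →
      Real.log x ^ (2 * (c + 3 * B + 50)) ≤ (4 : ℝ) ^ (2 * r) → (J : ℝ) ≤ 2 * Real.log x →
      ∑ a ∈ Ioc a0 (a0 + H), ∑ q ∈ Ioc Q (2 * Q),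
        (|∑ k ∈ fcs P J (x / Q), g (a + k * q)|
          + ∑ k ∈ Icc 1 (x / Q), tw (PP P (P * 2 ^ J)) (2 * r) k * |fb (a + k * q)|
          + ∑ k ∈ Icc 1 (x / Q), tw (PP P (P * 2 ^ J)) (2 * r) k *
              |vR ⌊Real.log x ^ B⌋₊ M x (a + k * q)|)
        ≤ H * x / Real.log x ^ c := by
  obtain ⟨b1, m0, hv⟩ := Pool.Agent.H35.W.v_bound (2 * c + 9) B 3 (by omega) η hη
  refine ⟨max (b1 + 1) (4 * c + 80), m0, fun b hb m hm => ?_⟩
  have hb1 : b1 + 1 ≤ b := (le_max_left _ _).trans hb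
  have hb2 : 4 * c + 80 ≤ b := (le_max_right _ _).trans hb
  obtain ⟨x1, hx1⟩ := hv m hm
  obtain ⟨x2, hx2⟩ := Pool.Agent.H35.W.hr_sq B
  obtain ⟨x3, hx3⟩ := Filter.eventually_atTop.1
    ((Real.tendsto_log_atTop.comp tendsto_natCast_atTop_atTop).eventually_ge_atTop (1000 : ℝ) :
      ∀ᶠ x : ℕ in Filter.atTop, (1000 : ℝ) ≤ (Real.log ∘ (Nat.cast : ℕ → ℝ)) x)
  refine ⟨max x1 (max x2 x3), fun x hx => ?_⟩
  intro fb g M a0 Q H P J r hC hM hfb hg2 hQ hHx hP hPJ hr hJ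
  have hxx1 : x1 ≤ x := (le_max_left _ _).trans hx
  have hxx2 : x2 ≤ x := ((le_max_left _ _).trans (le_max_right _ _)).trans hx
  have hxx3 : x3 ≤ x := ((le_max_right _ _).trans (le_max_right _ _)).trans hx
  have hL : 1000 ≤ Real.log x := hx3 x hxx3
  have hL0 : 0 < Real.log x := by linarith only [hL]
  have hL1 : 1 ≤ Real.log x := by linarith only [hL]
  have hx0 : (0 : ℝ) ≤ x := Nat.cast_nonneg x
  have hH0 : (0 : ℝ) ≤ H := Nat.cast_nonneg H
  have hgs : ∀ n, n ∉ Icc 1 x → g n = 0 := by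
    intro n hn
    apply hC.supp
    intro h
    apply hn
    rw [mem_Ioc] at h
    rw [mem_Icc]
    omega
  have hfs : ∀ n, n ∉ Icc 1 x → fb n = 0 := by
    intro n hn
    have h1 := hfb n
    rw [hgs n hn, if_neg, add_zero] at h1
    · exact h1
    · intro h
      apply hn
      rw [mem_Ioc] at h
      rw [mem_Icc]
      omega
  have hvs : ∀ n, n ∉ Icc 1 x → vR ⌊Real.log x ^ B⌋₊ M x n = 0 := by
    intro n hn
    unfold vR
    rw [if_neg]
    intro h
    apply hn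
    rw [mem_Ioc] at h
    rw [mem_Icc]
    omega
  -- powers
  have hPb1 : Real.log x ^ b1 ≤ P := by
    refine le_trans ?_ hP
    have h1 : Real.log x ^ b1 * 2 ≤ Real.log x ^ b := by
      calc Real.log x ^ b1 * 2 ≤ Real.log x ^ b1 * Real.log x := by
            apply mul_le_mul_of_nonneg_left (by linarith only [hL]) (by positivity)
        _ = Real.log x ^ (b1 + 1) := by ring
        _ ≤ Real.log x ^ b := pow_le_pow_right₀ hL1 hb1
    linarith only [h1]
  have hP1 : 1 ≤ P := by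
    have h1 : (1 : ℝ) ≤ P := le_trans (one_le_pow₀ hL1) hPb1
    exact_mod_cast h1
  -- the factorable part
  have hA1 : ∑ a ∈ Ioc a0 (a0 + H), ∑ q ∈ Ioc Q (2 * Q), |∑ k ∈ fcs P J (x / Q), g (a + k * q)|
      ≤ 8 * (H * x / Real.log x ^ (c + 2)) := by
    rw [sum_comm]
    refine (fac_blk g x x a0 H Q (x / Q) P J (c + 2) (Real.log x) rfl hL1 hP1 ?_ le_rfl hgs
      ?_).trans ?_
    · have h1 : x < Q * (x / Q + 1) := Nat.lt_mul_div_succ x hQ
      calc x < Q * (x / Q + 1) := h1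
        _ = (x / Q + 1) * Q := Nat.mul_comm _ _
        _ ≤ (x / Q + 1) * (Q + 1) := Nat.mul_le_mul_left _ (Nat.le_succ Q)
    · intro i hi
      have h1 : P * 2 ^ i ≤ P * 2 ^ J :=
        Nat.mul_le_mul_left _ (Nat.pow_le_pow_right (by norm_num) hi.le)
      have h2 : P ≤ P * 2 ^ i := Nat.le_mul_of_pos_right _ (by positivity)
      have h3 := hx1 x hxx1 g x M a0 (P * 2 ^ i) H (x / (P * 2 ^ i)) hC le_rfl hM
        (hPb1.trans (by exact_mod_cast h2)) (by
          refine le_trans ?_ hPJ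
          apply mul_le_mul (by exact_mod_cast h1) (pow_le_pow_right₀ hL1 (by omega)) (by positivity)
            (by positivity)) hHx
      have e1 : 2 * (c + 2) + 5 = 2 * c + 9 := by ring
      rw [e1]
      exact h3
    · have h1 := BlkA_s1 x (Real.log x) (S2 g x) P c b hL hx0 hg2 hb2 hP
      have h2 := BlkA_log x (x / Q) (Nat.div_le_self _ _)
      have h3 : (J : ℝ) * (3 * H * x / Real.log x ^ (c + 2 + 1)) ≤
          6 * (H * x / Real.log x ^ (c + 2)) := by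
        calc (J : ℝ) * (3 * H * x / Real.log x ^ (c + 2 + 1))
            ≤ (2 * Real.log x) * (3 * H * x / Real.log x ^ (c + 2 + 1)) := by
              apply mul_le_mul_of_nonneg_right hJ (by positivity)
          _ = 6 * (H * x / Real.log x ^ (c + 2)) := by
              rw [pow_succ]
              field_simp
              ring
      have h4 : (H : ℝ) * (Nat.log 2 (x / Q) *
          Real.sqrt (S2 g x * (x * (1 + Real.log x) ^ 8 / Real.sqrt P))) ≤
          2 * (H * x / Real.log x ^ (c + 2)) := by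
        calc (H : ℝ) * (Nat.log 2 (x / Q) *
            Real.sqrt (S2 g x * (x * (1 + Real.log x) ^ 8 / Real.sqrt P)))
            ≤ H * ((2 * Real.log x) * (x / Real.log x ^ (c + 3))) := by
              apply mul_le_mul_of_nonneg_left _ hH0
              apply mul_le_mul h2 h1 (Real.sqrt_nonneg _) (by positivity)
          _ = 2 * (H * x / Real.log x ^ (c + 2)) := by
              rw [show c + 3 = (c + 2) + 1 by ring, pow_succ]
              field_simp
      linarith only [h3, h4]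
  have hS : ∀ p ∈ PP P (P * 2 ^ J), p.Prime := by
    intro p hp
    unfold PP at hp
    exact (mem_filter.1 hp).2
  have htail : ∀ f : ℕ → ℝ, (∀ n, n ∉ Icc 1 x → f n = 0) →
      S2 f x ≤ x * Real.log x ^ (6 * B + 2) →
      ∑ a ∈ Ioc a0 (a0 + H), ∑ q ∈ Ioc Q (2 * Q), ∑ k ∈ Icc 1 (x / Q),
        tw (PP P (P * 2 ^ J)) (2 * r) k * |f (a + k * q)| ≤ H * x / Real.log x ^ (c + 2) := by
    intro f hf hf2
    have h1 : ∀ a ∈ Ioc a0 (a0 + H), ∑ q ∈ Ioc Q (2 * Q), ∑ k ∈ Icc 1 (x / Q),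
        tw (PP P (P * 2 ^ J)) (2 * r) k * |f (a + k * q)| ≤ x / Real.log x ^ (c + 2) := by
      intro a _
      refine (tail_avg _ hS (2 * r) f x a Q (x / Q) hf).trans ?_
      exact BlkA_s2 x (Real.log x) (S2 f x) _ c B hL hx0 hf2 hr
    refine (sum_le_sum h1).trans ?_
    rw [sum_const, nsmul_eq_mul, Nat.card_Ioc, Nat.add_sub_cancel_left, mul_div_assoc]
  have hfb2 : S2 fb x ≤ x * Real.log x ^ (6 * B + 2) := by
    have h1 := hx2 x hxx2 x le_rfl
    have h2 : S2 fb x ≤ 2 * S2 (hR ⌊Real.log x ^ B⌋₊) x + 2 * S2 g x := by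
      unfold S2
      rw [mul_sum, mul_sum, ← sum_add_distrib]
      refine sum_le_sum fun n _ => ?_
      have h3 : fb n = (if n ∈ Ioc M x then hR ⌊Real.log x ^ B⌋₊ n else 0) - g n := by
        rw [← hfb n]
        ring
      rw [h3]
      split_ifs with h4
      · nlinarith only [sq_nonneg (hR ⌊Real.log x ^ B⌋₊ n + g n)]
      · nlinarith only [sq_nonneg (hR ⌊Real.log x ^ B⌋₊ n), sq_nonneg (g n)]
    have h3 : 60 * (x : ℝ) * Real.log x ≤ x * Real.log x ^ (6 * B + 2) := by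
      calc 60 * (x : ℝ) * Real.log x ≤ Real.log x * (x * Real.log x) := by
            have : 0 ≤ (x : ℝ) * Real.log x := by positivity
            nlinarith only [this, hJ, hL]
        _ = x * Real.log x ^ 2 := by ring
        _ ≤ x * Real.log x ^ (6 * B + 2) := by
            apply mul_le_mul_of_nonneg_left _ hx0
            exact pow_le_pow_right₀ hL1 (by omega)
    linarith only [hg2, h1, h2, h3]
  have hA2 := htail fb hfs hfb2
  have hA3 := htail _ hvs (BlkA_S2v x M B (by omega) hL)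
  have hsum : ∑ a ∈ Ioc a0 (a0 + H), ∑ q ∈ Ioc Q (2 * Q),
        (|∑ k ∈ fcs P J (x / Q), g (a + k * q)|
          + ∑ k ∈ Icc 1 (x / Q), tw (PP P (P * 2 ^ J)) (2 * r) k * |fb (a + k * q)|
          + ∑ k ∈ Icc 1 (x / Q), tw (PP P (P * 2 ^ J)) (2 * r) k *
              |vR ⌊Real.log x ^ B⌋₊ M x (a + k * q)|)
      ≤ 10 * (H * x / Real.log x ^ (c + 2)) := by
    simp only [sum_add_distrib]
    linarith only [hA1, hA2, hA3]
  refine hsum.trans ?_
  have h1 : 10 ≤ Real.log x ^ 2 := by nlinarith only [hL, hJ]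
  calc 10 * (H * x / Real.log x ^ (c + 2))
      ≤ Real.log x ^ 2 * (H * x / Real.log x ^ (c + 2)) := by
        apply mul_le_mul_of_nonneg_right h1 (by positivity)
    _ = H * x / Real.log x ^ c := by
        rw [pow_add]
        field_simp

end Pool.Agent.H35.U

end
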