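import Pool.Agent.H94.EH.H91.EHA.SwK1
import Pool.Agent.H94.EH.M25
import Pool.Agent.H94.EH.M28
import Pool.Agent.H94.EH.M30

/-! The parts of this file: H91.EHA.SwK3, H35.W.SwT, H35.W.Dec1, H35.W.Dec. -/

section

/-!
# The function `hR` has small twisted sums

`∑_{n≤y} Λ(n)e(nb/c) = ∑_{a mod c,(a,c)=1} e(ab/c) psiA y c a + O(∑_{(n,c)>1}Λ(n))`, with `psi_ap (B) (k')`:
`= (c_c(b)/φ(c)) y + O(c x/(log x)^{k'})`, and `c_c(b) = μ(c)` for `(b,c)=1` (`ramS_eq`).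
Subtract `lamR_exp` with `R = ⌊(log x)^B⌋`.
-/

set_option autoImplicit false

namespace Pool.Agent.H91.EHA

open Finset
open Pool.Agent.H91.PK

private theorem SwK3_ee_add (s t : ℝ) : ee (s + t) = ee s * ee t := by
  unfold ee
  rw [← Complex.exp_add]
  congr 1
  push_cast
  ring

private theorem SwK3_ee_nat (n : ℕ) : ee (n : ℝ) = 1 := by
  unfold ee
  rw [Complex.exp_eq_one_iff]
  exact ⟨n, by push_cast; ring⟩

private theorem SwK3_norm_ee (t : ℝ) : ‖ee t‖ = 1 := by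
  unfold ee
  rw [show (2 * (Real.pi : ℂ) * (t : ℂ) * Complex.I) = ((2 * Real.pi * t : ℝ) : ℂ) * Complex.I by
    push_cast; ring]
  exact Complex.norm_exp_ofReal_mul_I _

private theorem SwK3_ee_le {n a b c : ℕ} (hc : 1 ≤ c) (han : a ≤ n) (h : n ≡ a [MOD c]) :
    ee ((n : ℝ) * b / c) = ee ((a : ℝ) * b / c) := by
  obtain ⟨t, ht⟩ := (Nat.modEq_iff_dvd' han).1 h.symm
  have hn : n = a + c * t := by omega
  have hc' : (c : ℝ) ≠ 0 := by
    have : (0 : ℝ) < c := by exact_mod_cast hc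
    exact this.ne'
  have e : (n : ℝ) * b / c = (a : ℝ) * b / c + ((t * b : ℕ) : ℝ) := by
    rw [hn]
    push_cast
    field_simp
  rw [e, SwK3_ee_add, SwK3_ee_nat, mul_one]

private theorem SwK3_ee_congr {n a b c : ℕ} (hc : 1 ≤ c) (h : n ≡ a [MOD c]) :
    ee ((n : ℝ) * b / c) = ee ((a : ℝ) * b / c) := by
  rcases le_total a n with h1 | h1
  · exact SwK3_ee_le hc h1 h
  · exact (SwK3_ee_le hc h1 h.symm).symm

/-- the representative in `1..c` -/
private def SwK3_rep (c n : ℕ) : ℕ := if n % c = 0 then c else n % c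

private theorem SwK3_rep_mem {c : ℕ} (hc : 1 ≤ c) (n : ℕ) : SwK3_rep c n ∈ Icc 1 c := by
  unfold SwK3_rep
  rw [mem_Icc]
  have := Nat.mod_lt n (show 0 < c by omega)
  split_ifs with h
  · omega
  · omega

private theorem SwK3_rep_modEq {c : ℕ} (n : ℕ) : n ≡ SwK3_rep c n [MOD c] := by
  unfold SwK3_rep Nat.ModEq
  split_ifs with h
  · rw [h, Nat.mod_self]
  · rw [Nat.mod_mod]

private theorem SwK3_rep_iff {c n a : ℕ} (hc : 1 ≤ c) (ha : a ∈ Icc 1 c) :
    SwK3_rep c n = a ↔ n ≡ a [MOD c] := by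
  constructor
  · rintro rfl
    exact SwK3_rep_modEq n
  · intro h
    have h1 := SwK3_rep_mem hc n
    rw [mem_Icc] at ha h1
    have h2 : SwK3_rep c n ≡ a [MOD c] := (SwK3_rep_modEq n).symm.trans h
    rcases Nat.lt_or_ge (SwK3_rep c n) c with h3 | h3
    · rcases Nat.lt_or_ge a c with h4 | h4
      · exact Nat.ModEq.eq_of_lt_of_lt h2 h3 h4
      · have h5 : a = c := by omega
        subst h5
        unfold Nat.ModEq at h2
        rw [Nat.mod_self, Nat.mod_eq_of_lt h3] at h2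
        omega
    · have h5 : SwK3_rep c n = c := by omega
      rw [h5] at h2 ⊢
      unfold Nat.ModEq at h2
      rw [Nat.mod_self] at h2
      rcases Nat.lt_or_ge a c with h4 | h4
      · rw [Nat.mod_eq_of_lt h4] at h2
        omega
      · omega

/-- splitting a sum over `n ≤ y` according to the class of `n` modulo `c` -/
private theorem SwK3_split {M : Type*} [AddCommMonoid M] (y c : ℕ) (hc : 1 ≤ c)
    (P : ℕ → Prop) [DecidablePred P] (hP : ∀ n a, n ≡ a [MOD c] → (P n ↔ P a)) (f : ℕ → M) :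
    ∑ n ∈ (Icc 1 y).filter P, f n = ∑ a ∈ (Icc 1 c).filter P,
      ∑ n ∈ (Icc 1 y).filter (fun n => n ≡ a [MOD c]), f n := by
  rw [← Finset.sum_fiberwise_of_maps_to (s := (Icc 1 y).filter P) (t := (Icc 1 c).filter P)
    (g := SwK3_rep c)]
  · refine Finset.sum_congr rfl fun a ha => ?_
    rw [mem_filter] at ha
    refine Finset.sum_congr ?_ fun _ _ => rfl
    ext n
    simp only [mem_filter]
    constructor
    · rintro ⟨⟨h1, _⟩, h3⟩
      exact ⟨h1, (SwK3_rep_iff hc ha.1).1 h3⟩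
    · rintro ⟨h1, h2⟩
      exact ⟨⟨h1, (hP n a h2).2 ha.2⟩, (SwK3_rep_iff hc ha.1).2 h2⟩
  · intro n hn
    rw [mem_filter] at hn ⊢
    exact ⟨SwK3_rep_mem hc n, (hP n _ (SwK3_rep_modEq n)).1 hn.2⟩

private theorem SwK3_lam (y c b : ℕ) (hc : 1 ≤ c) :
    ∑ n ∈ Icc 1 y, ((Lam n : ℝ) : ℂ) * ee ((n : ℝ) * b / c) =
      ∑ a ∈ Icc 1 c, ((psiA y c a : ℝ) : ℂ) * ee ((b : ℝ) * a / c) := by
  have h := SwK3_split y c hc (fun _ => True) (fun _ _ _ => Iff.rfl)
    (fun n => ((Lam n : ℝ) : ℂ) * ee ((n : ℝ) * b / c))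
  rw [Finset.filter_true, Finset.filter_true] at h
  rw [h]
  refine Finset.sum_congr rfl fun a _ => ?_
  unfold psiA
  rw [Complex.ofReal_sum, Finset.sum_mul]
  refine Finset.sum_congr rfl fun n hn => ?_
  rw [mem_filter] at hn
  rw [SwK3_ee_congr hc hn.2, mul_comm (a : ℝ) (b : ℝ)]

private theorem SwK3_noncop (y c : ℕ) (hc : 1 ≤ c) (hy : 1 ≤ y) :
    ∑ a ∈ (Icc 1 c).filter (fun a => ¬ Nat.Coprime a c), psiA y c a ≤ c * Real.log y := by
  have h := SwK3_split y c hc (fun n => ¬ Nat.Coprime n c)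
    (fun n a hna => by
      have e : Nat.gcd n c = Nat.gcd a c := Nat.ModEq.gcd_eq hna
      unfold Nat.Coprime
      rw [e]) (fun n => Lam n)
  have h2 : ∑ a ∈ (Icc 1 c).filter (fun a => ¬ Nat.Coprime a c), psiA y c a =
      ∑ n ∈ (Icc 1 y).filter (fun n => ¬ Nat.Coprime n c), Lam n := h.symm
  rw [h2]
  refine (DiA_psi_noncoprime hy hc).trans ?_
  refine mul_le_mul_of_nonneg_right ?_ (Real.log_natCast_nonneg y)
  have h3 : c.primeFactors.card ≤ c := by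
    calc c.primeFactors.card ≤ (Icc 1 c).card := by
          apply Finset.card_le_card
          intro p hp
          rw [mem_Icc]
          exact ⟨(Nat.prime_of_mem_primeFactors hp).one_le, Nat.le_of_mem_primeFactors hp⟩
      _ = c := by simp
  exact_mod_cast h3

private theorem SwK3_psi_nonneg (y c a : ℕ) : 0 ≤ psiA y c a :=
  Finset.sum_nonneg fun _ _ => ArithmeticFunction.vonMangoldt_nonneg

private theorem SwK3_ram (c b : ℕ) (hb : Nat.Coprime b c) :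
    ramS c b = (ArithmeticFunction.moebius c : ℝ) := by
  unfold ramS
  have h : Nat.gcd c b = 1 := hb.symm
  rw [h, Nat.divisors_one, Finset.sum_singleton, Nat.div_one]
  simp

private theorem SwK3_main (y c b : ℕ) (hc : 1 ≤ c) (hy : 1 ≤ y) (hb : Nat.Coprime b c) (E : ℝ)
    (hE : ∀ a : ℕ, Nat.Coprime a c → |psiA y c a - y / (c.totient : ℝ)| ≤ E) :
    ‖(∑ n ∈ Icc 1 y, ((Lam n : ℝ) : ℂ) * ee ((n : ℝ) * b / c))
      - (((ArithmeticFunction.moebius c : ℝ) / (c.totient : ℝ) * y : ℝ) : ℂ)‖ ≤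
      c * E + c * Real.log y := by
  have hE0 : 0 ≤ E := (abs_nonneg _).trans (hE 1 (Nat.coprime_one_left c))
  have hr := ramS_eq c b hc
  rw [SwK3_ram c b hb] at hr
  have hmain : (((ArithmeticFunction.moebius c : ℝ) / (c.totient : ℝ) * y : ℝ) : ℂ) =
      ∑ a ∈ (Icc 1 c).filter (fun a => Nat.Coprime a c),
        (((y : ℝ) / (c.totient : ℝ) : ℝ) : ℂ) * ee ((b : ℝ) * a / c) := by
    rw [← Finset.mul_sum, ← hr]
    push_cast
    ring
  have hsplit : ∑ a ∈ Icc 1 c, ((psiA y c a : ℝ) : ℂ) * ee ((b : ℝ) * a / c) =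
      ∑ a ∈ (Icc 1 c).filter (fun a => Nat.Coprime a c),
        ((psiA y c a : ℝ) : ℂ) * ee ((b : ℝ) * a / c) +
      ∑ a ∈ (Icc 1 c).filter (fun a => ¬ Nat.Coprime a c),
        ((psiA y c a : ℝ) : ℂ) * ee ((b : ℝ) * a / c) :=
    (Finset.sum_filter_add_sum_filter_not _ _ _).symm
  rw [SwK3_lam y c b hc, hsplit, hmain, add_sub_right_comm, ← Finset.sum_sub_distrib]
  refine (norm_add_le _ _).trans (add_le_add ?_ ?_)
  · refine (norm_sum_le _ _).trans ?_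
    calc ∑ a ∈ (Icc 1 c).filter (fun a => Nat.Coprime a c),
          ‖((psiA y c a : ℝ) : ℂ) * ee ((b : ℝ) * a / c) -
            (((y : ℝ) / (c.totient : ℝ) : ℝ) : ℂ) * ee ((b : ℝ) * a / c)‖
        ≤ ∑ a ∈ (Icc 1 c).filter (fun a => Nat.Coprime a c), E := by
          refine Finset.sum_le_sum fun a ha => ?_
          rw [mem_filter] at ha
          rw [← sub_mul, norm_mul, SwK3_norm_ee, mul_one, ← Complex.ofReal_sub,
            Complex.norm_real, Real.norm_eq_abs]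
          exact hE a ha.2
      _ ≤ c * E := by
          rw [Finset.sum_const, nsmul_eq_mul]
          refine mul_le_mul_of_nonneg_right ?_ hE0
          have h1 : ((Icc 1 c).filter (fun a => Nat.Coprime a c)).card ≤ c :=
            (Finset.card_filter_le _ _).trans (by simp)
          exact_mod_cast h1
  · refine (norm_sum_le _ _).trans (le_trans (le_of_eq ?_) (SwK3_noncop y c hc hy))
    refine Finset.sum_congr rfl fun a _ => ?_
    rw [norm_mul, SwK3_norm_ee, mul_one, Complex.norm_real, Real.norm_eq_abs,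
      abs_of_nonneg (SwK3_psi_nonneg y c a)]

private theorem SwK3_log_pow (n : ℕ) : ∀ᶠ x : ℕ in Filter.atTop,
    Real.log x ^ n ≤ 1 / 4 * (x : ℝ) := by
  have h := (Real.isLittleO_pow_log_id_atTop (n := n)).bound (c := 1 / 4) (by norm_num)
  have h2 := tendsto_natCast_atTop_atTop (R := ℝ) |>.eventually h
  filter_upwards [h2] with x hx
  have h3 := (le_abs_self _).trans hx
  simpa using h3

theorem sw_h (B k : ℕ) : ∃ x0 : ℕ, ∀ x : ℕ, x0 ≤ x → ∀ y : ℕ, y ≤ x → ∀ c b : ℕ, 1 ≤ c →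
    (c : ℝ) ≤ Real.log x ^ B → Nat.Coprime b c →
      ‖∑ n ∈ Icc 1 y, ((hR ⌊Real.log x ^ B⌋₊ n : ℝ) : ℂ) * ee ((n : ℝ) * b / c)‖
        ≤ x / Real.log x ^ k := by
  obtain ⟨x1, hx1⟩ := psi_ap B (k + B + 2)
  have hlog : ∀ᶠ x : ℕ in Filter.atTop, (4 : ℝ) ≤ Real.log x :=
    (Real.tendsto_log_atTop.comp (tendsto_natCast_atTop_atTop (R := ℝ))).eventually_ge_atTop 4
  have hall : ∀ᶠ x : ℕ in Filter.atTop, x1 ≤ x ∧ (4 : ℝ) ≤ Real.log x ∧
      Real.log x ^ (k + B + 1) ≤ 1 / 4 * (x : ℝ) ∧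
      Real.log x ^ (k + 4 * B) ≤ 1 / 4 * (x : ℝ) := by
    filter_upwards [Filter.eventually_ge_atTop x1, hlog, SwK3_log_pow (k + B + 1),
      SwK3_log_pow (k + 4 * B)] with x h1 h2 h3 h4
    exact ⟨h1, h2, h3, h4⟩
  obtain ⟨x0, hx0⟩ := Filter.eventually_atTop.1 hall
  refine ⟨x0, fun x hx y hy c b hc hcB hb => ?_⟩
  obtain ⟨h1, h2, h3, h4⟩ := hx0 x hx
  have hL : 0 < Real.log x := by linarith
  have hx' : (0 : ℝ) ≤ x := Nat.cast_nonneg x
  rcases Nat.eq_zero_or_pos y with hy0 | hy0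
  · subst hy0
    simp only [Finset.Icc_eq_empty_of_lt (show 0 < 1 by norm_num), Finset.sum_empty, norm_zero]
    positivity
  obtain ⟨L, hLdef⟩ : ∃ L : ℝ, L = Real.log x := ⟨_, rfl⟩
  rw [← hLdef] at h2 h3 h4 hL hcB ⊢
  obtain ⟨R, hR'⟩ : ∃ R : ℕ, R = ⌊L ^ B⌋₊ := ⟨_, rfl⟩
  rw [← hR']
  have hcR : c ≤ R := by
    rw [hR']
    exact Nat.le_floor hcB
  have hRB : (R : ℝ) ≤ L ^ B := by
    rw [hR']
    exact Nat.floor_le (by positivity)
  have hE : ∀ a : ℕ, Nat.Coprime a c →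
      |psiA y c a - y / (c.totient : ℝ)| ≤ x / L ^ (k + B + 2) := by
    intro a ha
    rw [hLdef]
    exact hx1 x h1 y hy c hc (by rw [← hLdef]; exact hcB) a ha
  have hA := SwK3_main y c b hc hy0 hb _ hE
  have hB := lamR_exp R y c b hc hcR hb
  have hsum : ∑ n ∈ Icc 1 y, ((hR R n : ℝ) : ℂ) * ee ((n : ℝ) * b / c) =
      ((∑ n ∈ Icc 1 y, ((Lam n : ℝ) : ℂ) * ee ((n : ℝ) * b / c))
      - (((ArithmeticFunction.moebius c : ℝ) / (c.totient : ℝ) * y : ℝ) : ℂ)) -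
      ((∑ n ∈ Icc 1 y, ((lamR R n : ℝ) : ℂ) * ee ((n : ℝ) * b / c))
      - (((ArithmeticFunction.moebius c : ℝ) / (c.totient : ℝ) * y : ℝ) : ℂ)) := by
    rw [sub_sub_sub_cancel_right, ← Finset.sum_sub_distrib]
    refine Finset.sum_congr rfl fun n _ => ?_
    unfold hR
    push_cast
    ring
  rw [hsum]
  refine (norm_sub_le _ _).trans ((add_le_add hA hB).trans ?_)
  have hc0 : (0 : ℝ) ≤ c := Nat.cast_nonneg c
  have hLk : 0 < L ^ k := by positivity
  -- the three error terms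
  have t1 : (c : ℝ) * (x / L ^ (k + B + 2)) ≤ 1 / 4 * (x / L ^ k) := by
    calc (c : ℝ) * (x / L ^ (k + B + 2)) ≤ L ^ B * (x / L ^ (k + B + 2)) :=
          mul_le_mul_of_nonneg_right hcB (by positivity)
      _ = x / L ^ k / L ^ 2 := by
          field_simp
          ring
      _ ≤ x / L ^ k / 4 := by
          apply div_le_div_of_nonneg_left (by positivity) (by norm_num)
          nlinarith
      _ = 1 / 4 * (x / L ^ k) := by ring
  have t2 : (c : ℝ) * Real.log y ≤ 1 / 4 * (x / L ^ k) := by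
    have hly : Real.log y ≤ L := by
      rw [hLdef]
      exact Real.log_le_log (by exact_mod_cast hy0) (by exact_mod_cast hy)
    calc (c : ℝ) * Real.log y ≤ L ^ B * L := by
          apply mul_le_mul hcB hly (Real.log_natCast_nonneg y) (by positivity)
      _ = L ^ (k + B + 1) / L ^ k := by
          field_simp
          ring
      _ ≤ (1 / 4 * (x : ℝ)) / L ^ k := by
          apply div_le_div_of_nonneg_right h3 hLk.le
      _ = 1 / 4 * (x / L ^ k) := by ring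
  have t3 : (R : ℝ) ^ 4 ≤ 1 / 4 * (x / L ^ k) := by
    calc (R : ℝ) ^ 4 ≤ (L ^ B) ^ 4 := pow_le_pow_left₀ (Nat.cast_nonneg R) hRB 4
      _ = L ^ (k + 4 * B) / L ^ k := by
          rw [pow_add, ← pow_mul, mul_comm B 4]
          field_simp
      _ ≤ (1 / 4 * (x : ℝ)) / L ^ k := by
          apply div_le_div_of_nonneg_right h4 hLk.le
      _ = 1 / 4 * (x / L ^ k) := by ring
  have t4 : 0 ≤ (x : ℝ) / L ^ k := by positivity
  linarith

end Pool.Agent.H91.EHA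

end

section

/-!
# W SwT: Siegel-Walfisz for `hR` twisted by `(n - a0)^{it}`, `|t| ≤ L^m`

Proof.  Partial summation.  `E := max over u ≤ y of |∑_{n ≤ u} hR(n) ee(n b/c)| ≤ x / L^{k+m+3}` by `sw_h` (with
`b` replaced by the natural number `b mod c`, coprime to `c`: `ee(n b/c)` does not change).  The total variation of
`n ↦ ee(t log(n - a0))` over `M < n ≤ y` is `≤ 7 |t| (log(y - a0) - log(M + 1 - a0)) ≤ 7 |t| log x`
(`‖ee s - ee s'‖ ≤ 2π |s - s'|`, see `H92.EH.norm_e_sub_le` and `EHB.melB_ee_sub`; `M + 1 - a0 ≥ 1`).  So the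
correlation is at most `2E (1 + 7 L^m log x) ≤ x / L^k` for large `x`.
-/

set_option autoImplicit false

namespace Pool.Agent.H35.W

open Finset
open Pool.Agent.H91.PK (ee)
open Pool.Agent.H91.EHA (hR)

private theorem SwT_ee_int (n : ℤ) : ee (n : ℝ) = 1 := by
  unfold Pool.Agent.H91.PK.ee
  rw [Complex.exp_eq_one_iff]
  exact ⟨n, by push_cast; ring⟩

private theorem SwT_ee_mod (c : ℕ) (hc : 1 ≤ c) (b : ℤ) (n : ℕ) :
    ee ((n : ℝ) * ((b : ℝ) / c)) = ee ((n : ℝ) * ((b % (c : ℤ)).toNat : ℕ) / c) := by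
  have hc' : (c : ℝ) ≠ 0 := by
    have : (0 : ℝ) < c := by exact_mod_cast hc
    exact this.ne'
  have h0 : 0 ≤ b % (c : ℤ) := Int.emod_nonneg _ (by omega)
  have h1 : (((b % (c : ℤ)).toNat : ℕ) : ℤ) = b % (c : ℤ) := Int.toNat_of_nonneg h0
  have h2 : (b : ℝ) = (((b % (c : ℤ)).toNat : ℕ) : ℝ) + (c : ℝ) * ((b / (c : ℤ) : ℤ) : ℝ) := by
    have h3 : b = (((b % (c : ℤ)).toNat : ℕ) : ℤ) + (c : ℤ) * (b / (c : ℤ)) := by
      rw [h1]; exact (Int.emod_add_mul_ediv b c).symm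
    exact_mod_cast h3
  have e : (n : ℝ) * ((b : ℝ) / c) = (n : ℝ) * ((b % (c : ℤ)).toNat : ℕ) / c +
      (((n : ℤ) * (b / (c : ℤ)) : ℤ) : ℝ) := by
    push_cast
    rw [h2]
    field_simp
  rw [e, Pool.Agent.H91.PK.LSa_ee_add, SwT_ee_int, mul_one]

private theorem SwT_cop (c : ℕ) (hc : 1 ≤ c) (b : ℤ) (h : IsCoprime b (c : ℤ)) :
    Nat.Coprime (b % (c : ℤ)).toNat c := by
  have h0 : 0 ≤ b % (c : ℤ) := Int.emod_nonneg _ (by omega)
  have h1 : (((b % (c : ℤ)).toNat : ℕ) : ℤ) = b % (c : ℤ) := Int.toNat_of_nonneg h0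
  rw [← Nat.isCoprime_iff_coprime, h1]
  have h2 : b = b % (c : ℤ) + (c : ℤ) * (b / (c : ℤ)) := (Int.emod_add_mul_ediv b c).symm
  rw [h2] at h
  exact (IsCoprime.add_mul_left_left_iff).1 h

private theorem SwT_abel (u : ℕ → ℂ) (a0 M : ℕ) (hM : a0 ≤ M) (t E : ℝ) (N : ℕ)
    (hE : ∀ v, v ≤ N → ‖∑ n ∈ Icc 1 v, u n‖ ≤ E) (j : ℕ) (hj : M + 1 + j ≤ N) :
    ‖(∑ n ∈ Ioc M (M + 1 + j), u n * ee (t * Real.log ((n : ℝ) - a0))) -
      ((∑ n ∈ Icc 1 (M + 1 + j), u n) - ∑ n ∈ Icc 1 M, u n) *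
        ee (t * Real.log (((M + 1 + j : ℕ) : ℝ) - a0))‖ ≤
      14 * E * |t| * (Real.log (((M + 1 + j : ℕ) : ℝ) - a0) - Real.log (((M + 1 : ℕ) : ℝ) - a0)) := by
  induction j with
  | zero =>
    have h1 : Ioc M (M + 1 + 0) = {M + 1} := by
      ext n; simp only [mem_Ioc, mem_singleton]; omega
    have h2 : ∑ n ∈ Icc 1 (M + 1 + 0), u n = ∑ n ∈ Icc 1 M, u n + u (M + 1) := by
      rw [add_zero, Finset.sum_Icc_succ_top (by omega)]
    rw [h1, h2, sum_singleton]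
    simp
  | succ j ih =>
    have ih' := ih (by omega)
    have h1 : ∑ n ∈ Ioc M (M + 1 + (j + 1)), u n * ee (t * Real.log ((n : ℝ) - a0)) =
        ∑ n ∈ Ioc M (M + 1 + j), u n * ee (t * Real.log ((n : ℝ) - a0)) +
          u (M + 1 + (j + 1)) * ee (t * Real.log (((M + 1 + (j + 1) : ℕ) : ℝ) - a0)) := by
      rw [show M + 1 + (j + 1) = (M + 1 + j) + 1 by ring, Finset.sum_Ioc_succ_top (by omega)]
    have h2 : ∑ n ∈ Icc 1 (M + 1 + (j + 1)), u n =
        ∑ n ∈ Icc 1 (M + 1 + j), u n + u (M + 1 + (j + 1)) := by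
      rw [show M + 1 + (j + 1) = (M + 1 + j) + 1 by ring, Finset.sum_Icc_succ_top (by omega)]
    set G := ∑ n ∈ Icc 1 (M + 1 + j), u n with hG
    set GM := ∑ n ∈ Icc 1 M, u n with hGM
    set S := ∑ n ∈ Ioc M (M + 1 + j), u n * ee (t * Real.log ((n : ℝ) - a0)) with hS
    set w := ee (t * Real.log (((M + 1 + j : ℕ) : ℝ) - a0)) with hw
    set w' := ee (t * Real.log (((M + 1 + (j + 1) : ℕ) : ℝ) - a0)) with hw'
    rw [h1, h2]
    have e : S + u (M + 1 + (j + 1)) * w' - (G + u (M + 1 + (j + 1)) - GM) * w' =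
        (S - (G - GM) * w) + (G - GM) * (w - w') := by ring
    rw [e]
    have hx1 : (1 : ℝ) ≤ ((M + 1 + j : ℕ) : ℝ) - a0 := by
      have : (a0 : ℝ) ≤ M := by exact_mod_cast hM
      push_cast
      have hj0 : (0 : ℝ) ≤ j := Nat.cast_nonneg j
      linarith only [this]
    have hx2 : ((M + 1 + j : ℕ) : ℝ) - a0 ≤ ((M + 1 + (j + 1) : ℕ) : ℝ) - a0 := by
      push_cast; linarith
    have hlog := Real.log_le_log (by linarith) hx2
    have h3 : ‖w - w'‖ ≤ 7 * (|t| * (Real.log (((M + 1 + (j + 1) : ℕ) : ℝ) - a0) -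
        Real.log (((M + 1 + j : ℕ) : ℝ) - a0))) := by
      have h4 := Pool.Agent.H76.EHB.melB_ee_sub (t * Real.log (((M + 1 + j : ℕ) : ℝ) - a0))
        (t * (Real.log (((M + 1 + (j + 1) : ℕ) : ℝ) - a0) -
        Real.log (((M + 1 + j : ℕ) : ℝ) - a0)))
      have h5 : t * Real.log (((M + 1 + j : ℕ) : ℝ) - a0) +
          t * (Real.log (((M + 1 + (j + 1) : ℕ) : ℝ) - a0) -
          Real.log (((M + 1 + j : ℕ) : ℝ) - a0)) =
          t * Real.log (((M + 1 + (j + 1) : ℕ) : ℝ) - a0) := by ring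
      rw [h5, ← hw, ← hw', norm_sub_rev, abs_mul,
        abs_of_nonneg (sub_nonneg.2 hlog)] at h4
      exact h4
    have h6 : ‖G - GM‖ ≤ 2 * E := by
      refine (norm_sub_le _ _).trans ?_
      have h7 := hE (M + 1 + j) (by omega)
      have h8 := hE M (by omega)
      linarith only [h7, h8]
    have hE0 : 0 ≤ E := (norm_nonneg _).trans (hE M (by omega))
    refine (norm_add_le _ _).trans ?_
    rw [norm_mul]
    have h9 : ‖G - GM‖ * ‖w - w'‖ ≤ (2 * E) * (7 * (|t| *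
        (Real.log (((M + 1 + (j + 1) : ℕ) : ℝ) - a0) -
        Real.log (((M + 1 + j : ℕ) : ℝ) - a0)))) :=
      mul_le_mul h6 h3 (norm_nonneg _) (by linarith only [hE0])
    linarith only [ih', h9]

theorem sw_t (B m k : ℕ) : ∃ x0 : ℕ, ∀ x : ℕ, x0 ≤ x → ∀ (a0 M y c : ℕ) (b : ℤ) (t : ℝ),
    a0 ≤ M → y ≤ x → 1 ≤ c → (c : ℝ) ≤ Real.log x ^ B → IsCoprime b (c : ℤ) →
      |t| ≤ Real.log x ^ m →
      ‖cor (hR ⌊Real.log x ^ B⌋₊) a0 M ((b : ℝ) / c) t y‖ ≤ x / Real.log x ^ k := by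
  obtain ⟨x1, hx1⟩ := Pool.Agent.H91.EHA.sw_h B (k + m + 3)
  have hlog : ∀ᶠ x : ℕ in Filter.atTop, (4 : ℝ) ≤ Real.log x :=
    (Real.tendsto_log_atTop.comp (tendsto_natCast_atTop_atTop (R := ℝ))).eventually_ge_atTop 4
  obtain ⟨x0, hx0⟩ := Filter.eventually_atTop.1 ((Filter.eventually_ge_atTop x1).and hlog)
  refine ⟨x0, fun x hx a0 M y c b t hM hy hc hcB hb ht => ?_⟩
  obtain ⟨h1, h4⟩ := hx0 x hx
  have hx' : (0 : ℝ) ≤ x := Nat.cast_nonneg x
  set L := Real.log x with hL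
  have hLpos : 0 < L := by linarith only [h4]
  rcases Nat.lt_or_ge M y with hMy | hMy
  swap
  · unfold cor
    rw [Ioc_eq_empty_of_le hMy, sum_empty, norm_zero]
    positivity
  obtain ⟨j, hj⟩ : ∃ j, y = M + 1 + j := ⟨y - (M + 1), by omega⟩
  set E : ℝ := x / L ^ (k + m + 3) with hE
  have hE0 : 0 ≤ E := by positivity
  set u : ℕ → ℂ := fun n => ((hR ⌊L ^ B⌋₊ n : ℝ) : ℂ) *
    ee ((n : ℝ) * ((b % (c : ℤ)).toNat : ℕ) / c) with hu
  have hG : ∀ v, v ≤ x → ‖∑ n ∈ Icc 1 v, u n‖ ≤ E := fun v hv =>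
    hx1 x h1 v hv c _ hc hcB (SwT_cop c hc b hb)
  have hcor : cor (hR ⌊L ^ B⌋₊) a0 M ((b : ℝ) / c) t y =
      ∑ n ∈ Ioc M y, u n * ee (t * Real.log ((n : ℝ) - a0)) := by
    unfold cor
    refine sum_congr rfl fun n _ => ?_
    rw [Pool.Agent.H91.PK.LSa_ee_add, SwT_ee_mod c hc b n, hu, mul_assoc]
  rw [hcor]
  have hA := SwT_abel u a0 M hM t E x hG j (by omega)
  rw [← hj] at hA
  have hlogy : Real.log ((y : ℝ) - a0) - Real.log (((M + 1 : ℕ) : ℝ) - a0) ≤ L := by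
    have hM' : (a0 : ℝ) ≤ M := by exact_mod_cast hM
    have hy' : (M : ℝ) + 1 ≤ y := by exact_mod_cast hMy
    have h5 : 0 ≤ Real.log (((M + 1 : ℕ) : ℝ) - a0) := by
      apply Real.log_nonneg; push_cast; linarith only [hM']
    have h6 : Real.log ((y : ℝ) - a0) ≤ L := by
      apply Real.log_le_log (by linarith only [hM', hy'])
      have : (y : ℝ) ≤ x := by exact_mod_cast hy
      have h0 : (0 : ℝ) ≤ a0 := Nat.cast_nonneg a0
      linarith only [this]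
    linarith only [h5, h6]
  have hB : ‖((∑ n ∈ Icc 1 y, u n) - ∑ n ∈ Icc 1 M, u n) *
      ee (t * Real.log ((y : ℝ) - a0))‖ ≤ 2 * E := by
    rw [norm_mul, Pool.Agent.H91.PK.LSa_norm_ee, mul_one]
    refine (norm_sub_le _ _).trans ?_
    have h7 := hG y hy
    have h8 := hG M (by omega)
    linarith only [h7, h8]
  have hC : ‖∑ n ∈ Ioc M y, u n * ee (t * Real.log ((n : ℝ) - a0))‖ ≤
      14 * E * |t| * L + 2 * E := by
    have h9 := norm_sub_norm_le (∑ n ∈ Ioc M y, u n * ee (t * Real.log ((n : ℝ) - a0)))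
      (((∑ n ∈ Icc 1 y, u n) - ∑ n ∈ Icc 1 M, u n) * ee (t * Real.log ((y : ℝ) - a0)))
    have h10 : 14 * E * |t| * (Real.log ((y : ℝ) - a0) - Real.log (((M + 1 : ℕ) : ℝ) - a0)) ≤
        14 * E * |t| * L := mul_le_mul_of_nonneg_left hlogy (by positivity)
    linarith only [hA, hB, h9, h10]
  refine hC.trans ?_
  have hLm : (1 : ℝ) ≤ L ^ m := one_le_pow₀ (by linarith only [h4])
  have h11 : 14 * E * |t| * L + 2 * E ≤ 16 * E * L ^ (m + 1) := by
    have h12 : 14 * E * |t| * L ≤ 14 * E * L ^ m * L := by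
      apply mul_le_mul_of_nonneg_right _ hLpos.le
      exact mul_le_mul_of_nonneg_left ht (by positivity)
    have h13 : 2 * E ≤ 2 * E * L ^ (m + 1) := by
      have : (1 : ℝ) ≤ L ^ (m + 1) := one_le_pow₀ (by linarith only [h4])
      nlinarith only [hE0, this]
    calc 14 * E * |t| * L + 2 * E ≤ 14 * E * L ^ m * L + 2 * E * L ^ (m + 1) := by linarith only [h12, h13]
      _ = 16 * E * L ^ (m + 1) := by ring
  refine h11.trans ?_
  rw [hE]
  have h14 : 16 * ((x : ℝ) / L ^ (k + m + 3)) * L ^ (m + 1) = (x / L ^ k) * (16 / L ^ 2) := by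
    rw [show k + m + 3 = k + 2 + (m + 1) by ring, pow_add, pow_add]
    field_simp
  rw [h14]
  have h15 : (16 : ℝ) / L ^ 2 ≤ 1 := by
    rw [div_le_one (by positivity)]
    nlinarith only [h4]
  calc (x : ℝ) / L ^ k * (16 / L ^ 2) ≤ x / L ^ k * 1 :=
        mul_le_mul_of_nonneg_left h15 (by positivity)
    _ = x / L ^ k := mul_one _

end Pool.Agent.H35.W

end

section

/-!
# W Dec1: the greedy decomposition of `hR` (complex version)

Let `η0 = δ/2`, `δ` from `gram B` (any `0 < η ≤ δ/2`).  Apply `greedy` with `ι = {p // p ∈ Vx x N B}`,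
`s = Ioc M N`, `v p = vv a0 M p`, `lam p = lam x η p.2.2.1`, `X = x`, `l0 = x^{1-η}` to `f` (cast to `ℂ`);
`∑ ‖f n‖^2 = S2 f N ≤ x L^2` (`f` vanishes outside `(M, N]`).  Write `t_j = (e j).2.2.1`.
`<v, v'>` for two test functions is a sum as in `gram` over `(M, min(y, y')]`, with the difference of the
fractions and of the `t`, so `|<v, v'>| ≤ x L^2 (1/(1+|t-t'|) + x^{-δ})`.
Put `T = 4 L^{4m}`, `Δ = L^{m+6}`.  CLAIM: if `j < J`, `|t_j| ≤ T`, then some `i < j` has `||t_i| - |t_j|| ≤ Δ`.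
 Otherwise, from `lam x η t_j < |<f_j, v_j>|`, `f_j = f - ∑_{i<j} c_i v_i`:
 (1) `|<f, v_j>| ≤ x / L^m` by `sw_t B (4m+1) m` (`ee` of the conjugate: parameters `-c, -t`);
 (2) the `i < j` with `|t_i| ≤ 2T`: `|t_i - t_j| ≥ Δ`; `lam x η t_i ≥ x (1+2T)^{-1/8}`, so
   `∑ |c_i| ≤ (1+2T)^{1/8} S2/x ≤ (1+2T)^{1/8} L^2`, contribution `≤ x L^4 (1+2T)^{1/8} (1/Δ + x^{-δ})`;
 (3) the `i` with `|t_i| > 2T`: `|t_i - t_j| ≥ |t_i|/2`, contribution `≤ ∑ |c_i| x L^2 (2/|t_i| + x^{-δ})`, and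
   `|c_i| = |c_i| lam_i / lam_i`, `x/lam_i ≤ (1+|t_i|)^{1/8}` and `≤ x^η`:
   `≤ L^2 · L^2 x (4 (2T)^{-7/8} + x^{η-δ})`.
 The sum of the three is `< x (1+T)^{-1/8} ≤ lam x η t_j` for large `L` (`(1+T)^{1/8} ≤ 2 L^{m/2}`, `m ≥ 20`,
 `η - δ < 0`): contradiction.
The number of `j < J` with `|t_j| ≤ T` is `≤ (1+T)^{1/4} x · S2 / x^2 ≤ 2 L^{m+2}` (last conclusion of `greedy`),
so `Δ · number ≤ 2 L^{2m+8} ≤ T/2` and `chain` gives `|t_j| ≥ T/2 = 2 L^{4m}` for all `j < J`.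
-/

set_option autoImplicit false

namespace Pool.Agent.H35.W

open Finset
open Pool.Agent.H91.PK (ee)
open Pool.Agent.H91.EHA (hR)
open Pool.Agent.H76.EHB

private lemma dec1_conj_ee (t : ℝ) : (starRingEnd ℂ) (ee t) = ee (-t) := by
  unfold ee
  rw [← Complex.exp_conj]
  congr 1
  simp only [map_mul, Complex.conj_ofReal, Complex.conj_I, map_ofNat]
  push_cast
  ring

private lemma dec1_norm_ee (t : ℝ) : ‖ee t‖ = 1 := Pool.Agent.H91.PK.LSa_norm_ee t

private lemma dec1_vv_le (a0 M : ℕ) (p : ℤ × ℕ × ℝ × ℕ) (n : ℕ) : ‖vv a0 M p n‖ ≤ 1 := by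
  unfold vv
  split_ifs
  · rw [dec1_norm_ee]
  · simp

/-- the scalar product of two test functions -/
private lemma dec1_ip (a0 M N : ℕ) (p p' : ℤ × ℕ × ℝ × ℕ) (hp : p.2.2.2 ≤ N) :
    ∑ n ∈ Ioc M N, vv a0 M p n * (starRingEnd ℂ) (vv a0 M p' n)
      = ∑ n ∈ Ioc M (min p.2.2.2 p'.2.2.2), ee (n * ((p.1 : ℝ) / p.2.1 - (p'.1 : ℝ) / p'.2.1)
          + (p.2.2.1 - p'.2.2.1) * Real.log ((n : ℝ) - a0)) := by
  have hsub : Ioc M (min p.2.2.2 p'.2.2.2) ⊆ Ioc M N := by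
    intro n hn
    rw [mem_Ioc] at hn ⊢
    exact ⟨hn.1, (hn.2.trans (min_le_left _ _)).trans hp⟩
  rw [← sum_subset hsub]
  · refine sum_congr rfl fun n hn => ?_
    rw [mem_Ioc] at hn
    have h1 : n ∈ Ioc M p.2.2.2 := mem_Ioc.2 ⟨hn.1, hn.2.trans (min_le_left _ _)⟩
    have h2 : n ∈ Ioc M p'.2.2.2 := mem_Ioc.2 ⟨hn.1, hn.2.trans (min_le_right _ _)⟩
    unfold vv
    rw [if_pos h1, if_pos h2, dec1_conj_ee, ← Pool.Agent.H91.PK.LSa_ee_add]
    congr 1
    ring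
  · intro n hn hn'
    rw [mem_Ioc] at hn
    have h1 : ¬ (n ∈ Ioc M p.2.2.2 ∧ n ∈ Ioc M p'.2.2.2) := by
      rintro ⟨h1, h2⟩
      rw [mem_Ioc] at h1 h2
      exact hn' (mem_Ioc.2 ⟨hn.1, le_min h1.2 h2.2⟩)
    unfold vv
    by_cases h2 : n ∈ Ioc M p.2.2.2
    · rw [if_neg (fun h => h1 ⟨h2, h⟩)]
      simp
    · rw [if_neg h2, zero_mul]

/-- the scalar product of `f` with a test function is a correlation of `hR` -/
private lemma dec1_cor (x B a0 M N : ℕ) (f : ℕ → ℝ)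
    (hf : ∀ n ∈ Ioc M N, f n = hR ⌊Real.log x ^ B⌋₊ n) (p : ℤ × ℕ × ℝ × ℕ) (hp : p.2.2.2 ≤ N) :
    ∑ n ∈ Ioc M N, (f n : ℂ) * (starRingEnd ℂ) (vv a0 M p n)
      = cor (hR ⌊Real.log x ^ B⌋₊) a0 M (((-p.1 : ℤ) : ℝ) / p.2.1) (-p.2.2.1) p.2.2.2 := by
  have hsub : Ioc M p.2.2.2 ⊆ Ioc M N := by
    intro n hn
    rw [mem_Ioc] at hn ⊢
    exact ⟨hn.1, hn.2.trans hp⟩
  unfold cor
  rw [← sum_subset hsub]
  · refine sum_congr rfl fun n hn => ?_
    rw [hf n (hsub hn)]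
    unfold vv
    rw [if_pos hn, dec1_conj_ee]
    congr 2
    push_cast
    ring
  · intro n hn hn'
    unfold vv
    rw [if_neg hn']
    simp

/-- `w^8 = 1 + |t|` -/
private lemma dec1_w (t : ℝ) : 1 ≤ (1 + |t|) ^ (1 / 8 : ℝ) ∧ ((1 + |t|) ^ (1 / 8 : ℝ)) ^ 8 = 1 + |t| ∧
    (1 + |t|) ^ (-(1 / 8) : ℝ) = 1 / (1 + |t|) ^ (1 / 8 : ℝ) := by
  have h0 : (1 : ℝ) ≤ 1 + |t| := by linarith [abs_nonneg t]
  refine ⟨Real.one_le_rpow h0 (by norm_num), ?_, ?_⟩
  · rw [← Real.rpow_natCast, ← Real.rpow_mul (by linarith)]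
    norm_num
  · rw [Real.rpow_neg (by linarith)]
    exact (one_div _).symm

/-- the numerical inequality behind the claim -/
private lemma dec1_ratio (L s t t' : ℝ) (hs : L ≤ s) (hL : 1 ≤ L)
    (ht' : |t'| ≤ 4 * s ^ 8) (hd : s ^ 2 * L ^ 6 < abs (abs t - abs t')) :
    (1 + |t|) ^ (1 / 8 : ℝ) / (1 + |t - t'|) ≤ 2 / (s * L ^ 6) := by
  obtain ⟨h1, h2, -⟩ := dec1_w t
  set w := (1 + |t|) ^ (1 / 8 : ℝ) with hw
  have hs1 : 1 ≤ s := hL.trans hs
  have hspos : 0 < s := by linarith only [hs, hL]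
  have hLpos : 0 < L := by linarith only [hL]
  have h3 : abs (abs t - abs t') ≤ |t - t'| := abs_abs_sub_abs_le_abs_sub t t'
  rw [div_le_div_iff₀ (by positivity) (by positivity)]
  by_cases hc : |t| ≤ 8 * s ^ 8
  · have h4 : w ≤ 2 * s := by
      by_contra hcon
      push Not at hcon
      have h5 : (2 * s) ^ 8 < w ^ 8 := pow_lt_pow_left₀ hcon (by positivity) (by norm_num)
      rw [h2, mul_pow] at h5
      have h6 : 1 ≤ s ^ 8 := one_le_pow₀ hs1
      linarith only [hc, h5, h6]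
    calc w * (s * L ^ 6) ≤ 2 * s * (s * L ^ 6) := mul_le_mul_of_nonneg_right h4 (by positivity)
      _ = 2 * (s ^ 2 * L ^ 6) := by ring
      _ ≤ 2 * (1 + |t - t'|) := by linarith only [hd, h3]
  · push Not at hc
    have h4 : |t| - |t'| ≤ |t - t'| := (le_abs_self _).trans h3
    have h5 : w ^ 8 / 2 ≤ 1 + |t - t'| := by
      rw [h2]
      linarith only [ht', hc, h4]
    have h6 : s ≤ w := by
      by_contra hcon
      push Not at hcon
      have h7 : w ^ 8 ≤ s ^ 8 := pow_le_pow_left₀ (by linarith only [h1]) hcon.le 8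
      rw [h2] at h7
      have h8 : 0 < s ^ 8 := by positivity
      linarith only [hc, h7, h8]
    have h7 : s * L ^ 6 ≤ w ^ 7 := by
      calc s * L ^ 6 ≤ w * w ^ 6 := by
            apply mul_le_mul h6 _ (by positivity) (by linarith only [h1])
            exact pow_le_pow_left₀ hLpos.le (hs.trans h6) 6
        _ = w ^ 7 := by ring
    calc w * (s * L ^ 6) ≤ w * w ^ 7 := mul_le_mul_of_nonneg_left h7 (by linarith only [h1])
      _ = 2 * (w ^ 8 / 2) := by ring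
      _ ≤ 2 * (1 + |t - t'|) := by linarith only [ht', h2, hc, h4]

private lemma dec1_large (δ : ℝ) (hδ : 0 < δ) (m : ℕ) : ∃ x0 : ℕ, ∀ x : ℕ, x0 ≤ x →
    2 ≤ x ∧ 8 ≤ Real.log x ∧ 8 * Real.log x ^ (m + 4) ≤ (x : ℝ) ^ (δ / 2) := by
  have h1 : ∀ᶠ y : ℝ in Filter.atTop, ‖Real.log y ^ (m + 4)‖ ≤ (1 / 8) * ‖y ^ (δ / 2)‖ := by
    have h2 := isLittleO_log_rpow_rpow_atTop ((m + 4 : ℕ) : ℝ) (half_pos hδ)
    have h3 : (fun y : ℝ => Real.log y ^ (m + 4)) = (fun y : ℝ => Real.log y ^ ((m + 4 : ℕ) : ℝ)) := by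
      ext y
      rw [Real.rpow_natCast]
    have h4 : (fun y : ℝ => Real.log y ^ (m + 4)) =o[Filter.atTop] fun y : ℝ => y ^ (δ / 2) := by
      rw [h3]
      exact h2
    exact h4.bound (by norm_num)
  have h3 : ∀ᶠ y : ℝ in Filter.atTop, 8 ≤ Real.log y :=
    Real.tendsto_log_atTop.eventually_ge_atTop 8
  have h4 : ∀ᶠ x : ℕ in Filter.atTop, 2 ≤ x ∧ 8 ≤ Real.log x ∧
      8 * Real.log x ^ (m + 4) ≤ (x : ℝ) ^ (δ / 2) := by
    filter_upwards [tendsto_natCast_atTop_atTop.eventually h1,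
      tendsto_natCast_atTop_atTop.eventually h3, Filter.eventually_ge_atTop 2] with x a1 a3 a4
    refine ⟨a4, a3, ?_⟩
    rw [Real.norm_of_nonneg (by positivity), Real.norm_of_nonneg (by positivity)] at a1
    linarith only [a1]
  exact Filter.eventually_atTop.1 h4

theorem dec1 (B : ℕ) : ∃ η0 : ℝ, 0 < η0 ∧ ∀ η : ℝ, 0 < η → η ≤ η0 → ∀ m : ℕ, 20 ≤ m →
    ∃ x0 : ℕ, ∀ x : ℕ, x0 ≤ x → ∀ (N M a0 : ℕ) (f : ℕ → ℝ), N ≤ x → a0 ≤ M →
      (∀ n ∈ Ioc M N, f n = hR ⌊Real.log x ^ B⌋₊ n) → (∀ n, n ∉ Ioc M N → f n = 0) →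
      S2 f N ≤ x * Real.log x ^ 2 →
      ∃ (J : ℕ) (e : ℕ → ℤ × ℕ × ℝ × ℕ) (c : ℕ → ℂ),
        (∀ j, j < J → e j ∈ Vx x N B ∧ 2 * Real.log x ^ (4 * m) ≤ |(e j).2.2.1|) ∧
        ∑ j ∈ range J, ‖c j‖ * lam x η (e j).2.2.1 ≤ S2 f N ∧
        ∑ n ∈ Ioc M N, ‖(f n : ℂ) - ∑ i ∈ range J, c i * vv a0 M (e i) n‖ ^ 2 ≤ S2 f N ∧
        (∀ p ∈ Vx x N B, ‖∑ n ∈ Ioc M N, ((f n : ℂ) - ∑ i ∈ range J, c i * vv a0 M (e i) n)
          * (starRingEnd ℂ) (vv a0 M p n)‖ ≤ lam x η p.2.2.1) := by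
  obtain ⟨δ, hδ, hδ1, x1, hg⟩ := gram B
  refine ⟨δ / 2, by linarith, fun η hη hηδ m hm => ?_⟩
  obtain ⟨x2, hsw⟩ := sw_t B (4 * m + 1) m
  obtain ⟨x3, hlg⟩ := dec1_large δ hδ m
  refine ⟨max x1 (max x2 x3), fun x hx N M a0 f hNx ha0M hf hf0 hS2 => ?_⟩
  have e1 : x1 ≤ x := le_trans (le_max_left _ _) hx
  have e2 : x2 ≤ x := le_trans (le_trans (le_max_left _ _) (le_max_right _ _)) hx
  have e3 : x3 ≤ x := le_trans (le_trans (le_max_right _ _) (le_max_right _ _)) hx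
  obtain ⟨b1, b2, b3⟩ := hlg x e3
  have hxr : (2 : ℝ) ≤ x := by exact_mod_cast b1
  have hxpos : (0 : ℝ) < x := by linarith only [hδ1, hη, hηδ, hxr]
  set L := Real.log x with hL
  have hL1 : 1 ≤ L := by linarith only [hδ1, hη, hηδ, b2]
  have hLpos : 0 < L := by linarith only [hδ1, hη, hηδ, b2]
  -- the greedy algorithm
  have hne : ((0 : ℤ), (1 : ℕ), (0 : ℝ), (0 : ℕ)) ∈ Vx x N B := by
    refine ⟨le_rfl, ?_, ?_, ?_, ?_⟩
    · show ((1 : ℕ) : ℝ) ≤ L ^ B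
      rw [Nat.cast_one]
      exact one_le_pow₀ hL1
    · show IsCoprime (0 : ℤ) ((1 : ℕ) : ℤ)
      rw [Nat.cast_one]
      exact isCoprime_one_right
    · show |(0 : ℝ)| ≤ (x : ℝ) ^ 2
      rw [abs_zero]
      positivity
    · exact Nat.zero_le N
  have : Nonempty {p // p ∈ Vx x N B} := ⟨⟨_, hne⟩⟩
  have hlamx : ∀ t : ℝ, (x : ℝ) * (x : ℝ) ^ (-η) ≤ lam x η t := fun t =>
    mul_le_mul_of_nonneg_left (le_max_right _ _) hxpos.le
  have hlamw : ∀ t : ℝ, (x : ℝ) / (1 + |t|) ^ (1 / 8 : ℝ) ≤ lam x η t := by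
    intro t
    unfold lam
    calc (x : ℝ) / (1 + |t|) ^ (1 / 8 : ℝ) = x * (1 + |t|) ^ (-(1 / 8) : ℝ) := by
          rw [(dec1_w t).2.2]
          ring
      _ ≤ _ := mul_le_mul_of_nonneg_left (le_max_left _ _) hxpos.le
  have hl0 : (0 : ℝ) < (x : ℝ) * (x : ℝ) ^ (-η) := by positivity
  have hlampos : ∀ t : ℝ, 0 < lam x η t := fun t => lt_of_lt_of_le hl0 (hlamx t)
  have hXv : ∀ p : {p // p ∈ Vx x N B}, ∑ n ∈ Ioc M N, ‖vv a0 M p.1 n‖ ^ 2 ≤ (x : ℝ) := by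
    intro p
    calc ∑ n ∈ Ioc M N, ‖vv a0 M p.1 n‖ ^ 2 ≤ ∑ n ∈ Ioc M N, (1 : ℝ) :=
          sum_le_sum fun n _ => pow_le_one₀ (norm_nonneg _) (dec1_vv_le a0 M p.1 n)
      _ = ((N - M : ℕ) : ℝ) := by simp
      _ ≤ x := by
          have : N - M ≤ x := (Nat.sub_le _ _).trans hNx
          exact_mod_cast this
  obtain ⟨J, e', c, g1, g2, g3, g4, g5⟩ := greedy (Ioc M N) (fun p : {p // p ∈ Vx x N B} => vv a0 M p.1)
    (fun p => lam x η p.1.2.2.1) (x : ℝ) ((x : ℝ) * (x : ℝ) ^ (-η)) hXv hl0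
    (fun p => hlamx _) (fun n => (f n : ℂ))
  have hE : ∑ n ∈ Ioc M N, ‖((f n : ℝ) : ℂ)‖ ^ 2 ≤ S2 f N := by
    unfold S2
    have h1 : ∀ n ∈ Ioc M N, ‖((f n : ℝ) : ℂ)‖ ^ 2 = f n ^ 2 := by
      intro n _
      rw [Complex.norm_real, Real.norm_eq_abs, sq_abs]
    rw [sum_congr rfl h1]
    refine sum_le_sum_of_subset_of_nonneg (fun n hn => ?_) (fun n _ _ => sq_nonneg _)
    rw [mem_Ioc] at hn
    rw [mem_Icc]
    omega
  -- the parameters
  set s := Real.sqrt (L ^ m) with hs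
  have hs2 : s ^ 2 = L ^ m := Real.sq_sqrt (by positivity)
  have hs8 : s ^ 8 = L ^ (4 * m) := by
    calc s ^ 8 = (s ^ 2) ^ 4 := by ring
      _ = (L ^ m) ^ 4 := by rw [hs2]
      _ = L ^ (4 * m) := by rw [← pow_mul, mul_comm]
  have hs0 : 0 ≤ s := Real.sqrt_nonneg _
  have hsL : L ≤ s := by
    apply Real.le_sqrt_of_sq_le
    exact pow_le_pow_right₀ hL1 (by omega)
  have hs8' : 8 ≤ s := b2.trans hsL
  have hspos : 0 < s := by linarith only [hδ1, hη, hηδ, b2, hsL]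
  have hsLm : s ≤ L ^ m := by
    rw [← hs2]
    nlinarith only [b2, hsL]
  set T := 4 * s ^ 8 with hT
  set Δ := s ^ 2 * L ^ 6 with hΔ
  have hΔpos : 0 < Δ := by positivity
  have hlamT : ∀ t : ℝ, |t| ≤ T → (x : ℝ) / (2 * s) ≤ lam x η t := by
    intro t ht
    refine le_trans ?_ (hlamw t)
    obtain ⟨h1, h2, -⟩ := dec1_w t
    apply div_le_div_of_nonneg_left hxpos.le (by linarith only [hδ1, hη, hηδ, h1])
    by_contra hcon
    push Not at hcon
    have h5 := pow_lt_pow_left₀ hcon (by positivity) (show (8 : ℕ) ≠ 0 by norm_num)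
    rw [h2, mul_pow] at h5
    have h6 : 1 ≤ s ^ 8 := one_le_pow₀ (by linarith only [hδ1, hη, hηδ, b2, hsL])
    rw [hT] at ht
    linarith only [hδ1, hη, hηδ, ht, h5, h6]
  -- the claim
  have hclaim : ∀ j, j < J → |(e' j).1.2.2.1| ≤ T →
      ∃ i, i < j ∧ abs (abs (e' i).1.2.2.1 - abs (e' j).1.2.2.1) ≤ Δ := by
    intro j hj htj
    by_contra hcon
    push Not at hcon
    set pj := (e' j).1 with hpj
    have hpjV : pj ∈ Vx x N B := (e' j).2
    have hpjN : pj.2.2.2 ≤ N := hpjV.2.2.2.2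
    have h1 := g1 j hj
    have h2 : ∑ n ∈ Ioc M N, ((f n : ℂ) - ∑ i ∈ range j, c i * vv a0 M (e' i).1 n)
          * (starRingEnd ℂ) (vv a0 M pj n)
        = ∑ n ∈ Ioc M N, (f n : ℂ) * (starRingEnd ℂ) (vv a0 M pj n)
          - ∑ i ∈ range j, c i * ∑ n ∈ Ioc M N, vv a0 M (e' i).1 n
            * (starRingEnd ℂ) (vv a0 M pj n) := by
      have h3 : ∀ i ∈ range j, c i * ∑ n ∈ Ioc M N, vv a0 M (e' i).1 n
            * (starRingEnd ℂ) (vv a0 M pj n)
          = ∑ n ∈ Ioc M N, c i * vv a0 M (e' i).1 n * (starRingEnd ℂ) (vv a0 M pj n) := by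
        intro i _
        rw [mul_sum]
        exact sum_congr rfl fun n _ => by ring
      rw [sum_congr rfl h3, sum_comm, ← sum_sub_distrib]
      refine sum_congr rfl fun n _ => ?_
      rw [sub_mul, sum_mul]
    have h3 : ‖∑ n ∈ Ioc M N, (f n : ℂ) * (starRingEnd ℂ) (vv a0 M pj n)‖ ≤ x / (8 * s) := by
      rw [dec1_cor x B a0 M N f hf pj hpjN]
      have h4 : |(-pj.2.2.1)| ≤ L ^ (4 * m + 1) := by
        rw [abs_neg]
        refine htj.trans ?_
        rw [hT, hs8, pow_succ]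
        have : 0 < L ^ (4 * m) := by positivity
        nlinarith only [b2, this]
      have h5 := hsw x e2 a0 M pj.2.2.2 pj.2.1 (-pj.1) (-pj.2.2.1) ha0M (hpjN.trans hNx) hpjV.1
        hpjV.2.1 hpjV.2.2.1.neg_left h4
      refine h5.trans ?_
      apply div_le_div_of_nonneg_left hxpos.le (by positivity)
      rw [← hs2]
      nlinarith only [b2, hsL]
    have h4 : ∀ i ∈ range j, ‖c i * ∑ n ∈ Ioc M N, vv a0 M (e' i).1 n
            * (starRingEnd ℂ) (vv a0 M pj n)‖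
        ≤ ‖c i‖ * lam x η (e' i).1.2.2.1 * (L ^ 2 * (2 / (s * L ^ 6) + (x : ℝ) ^ (-(δ / 2)))) := by
      intro i hi
      rw [mem_range] at hi
      set pi := (e' i).1 with hpi
      have hpiV : pi ∈ Vx x N B := (e' i).2
      rw [norm_mul, mul_assoc]
      refine mul_le_mul_of_nonneg_left ?_ (norm_nonneg _)
      rw [dec1_ip a0 M N pi pj hpiV.2.2.2.2]
      have h5 : |pi.2.2.1 - pj.2.2.1| ≤ (x : ℝ) ^ 3 := by
        have h6 := abs_sub pi.2.2.1 pj.2.2.1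
        have h7 := hpiV.2.2.2.1
        have h8 := hpjV.2.2.2.1
        calc |pi.2.2.1 - pj.2.2.1| ≤ |pi.2.2.1| + |pj.2.2.1| := h6
          _ ≤ (x : ℝ) ^ 2 + (x : ℝ) ^ 2 := add_le_add h7 h8
          _ = 2 * (x : ℝ) ^ 2 := by ring
          _ ≤ x * (x : ℝ) ^ 2 := mul_le_mul_of_nonneg_right hxr (by positivity)
          _ = (x : ℝ) ^ 3 := by ring
      have h6 := hg x e1 a0 M (min pi.2.2.2 pj.2.2.2) pi.2.1 pj.2.1 pi.1 pj.1
        (pi.2.2.1 - pj.2.2.1) ha0M ((min_le_left _ _).trans (hpiV.2.2.2.2.trans hNx)) hpiV.1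
        hpjV.1 hpiV.2.1 hpjV.2.1 h5
      refine h6.trans ?_
      have h7 := dec1_ratio L s pi.2.2.1 pj.2.2.1 hsL hL1 htj (hcon i hi)
      obtain ⟨w1, w2, -⟩ := dec1_w pi.2.2.1
      set w := (1 + |pi.2.2.1|) ^ (1 / 8 : ℝ) with hw
      have hwpos : 0 < w := by linarith only [hδ1, hη, hηδ, w1]
      have h8 := hlamw pi.2.2.1
      rw [← hw, div_le_iff₀ hwpos] at h8
      have h9 := hlamx pi.2.2.1
      set lm := lam x η pi.2.2.1 with hlm
      have hlmpos : 0 < lm := hlampos _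
      set D := 1 + |pi.2.2.1 - pj.2.2.1| with hD
      have hDpos : 0 < D := by
        rw [hD]
        positivity
      have k1 : x * (1 / D) ≤ lm * (2 / (s * L ^ 6)) := by
        calc x * (1 / D) ≤ (lm * w) * (1 / D) := mul_le_mul_of_nonneg_right h8 (by positivity)
          _ = lm * (w / D) := by ring
          _ ≤ lm * (2 / (s * L ^ 6)) := mul_le_mul_of_nonneg_left h7 hlmpos.le
      have k2 : x * (x : ℝ) ^ (-δ) ≤ lm * (x : ℝ) ^ (-(δ / 2)) := by
        have k3 : (x : ℝ) ^ (-δ) ≤ (x : ℝ) ^ (-η) * (x : ℝ) ^ (-(δ / 2)) := by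
          rw [← Real.rpow_add hxpos]
          apply Real.rpow_le_rpow_of_exponent_le (by linarith only [hδ1, hη, hηδ, hxr])
          linarith only [hηδ]
        calc x * (x : ℝ) ^ (-δ) ≤ x * ((x : ℝ) ^ (-η) * (x : ℝ) ^ (-(δ / 2))) :=
              mul_le_mul_of_nonneg_left k3 hxpos.le
          _ = (x * (x : ℝ) ^ (-η)) * (x : ℝ) ^ (-(δ / 2)) := by ring
          _ ≤ lm * (x : ℝ) ^ (-(δ / 2)) := mul_le_mul_of_nonneg_right h9 (by positivity)
      calc x * L ^ 2 * (1 / D + (x : ℝ) ^ (-δ)) = L ^ 2 * (x * (1 / D) + x * (x : ℝ) ^ (-δ)) := by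
            ring
        _ ≤ L ^ 2 * (lm * (2 / (s * L ^ 6)) + lm * (x : ℝ) ^ (-(δ / 2))) :=
            mul_le_mul_of_nonneg_left (add_le_add k1 k2) (by positivity)
        _ = lm * (L ^ 2 * (2 / (s * L ^ 6) + (x : ℝ) ^ (-(δ / 2)))) := by ring
    have h5 : ‖∑ i ∈ range j, c i * ∑ n ∈ Ioc M N, vv a0 M (e' i).1 n
            * (starRingEnd ℂ) (vv a0 M pj n)‖ ≤ 2 * (x / (8 * s)) := by
      refine (norm_sum_le _ _).trans ((sum_le_sum h4).trans ?_)
      rw [← sum_mul]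
      have h6 : ∑ i ∈ range j, ‖c i‖ * lam x η (e' i).1.2.2.1 ≤ x * L ^ 2 := by
        calc ∑ i ∈ range j, ‖c i‖ * lam x η (e' i).1.2.2.1
            ≤ ∑ i ∈ range J, ‖c i‖ * lam x η (e' i).1.2.2.1 := by
              refine sum_le_sum_of_subset_of_nonneg (fun i hi => ?_) (fun i _ _ => ?_)
              · rw [mem_range] at hi ⊢
                omega
              · exact mul_nonneg (norm_nonneg _) (hlampos _).le
          _ ≤ ∑ n ∈ Ioc M N, ‖((f n : ℝ) : ℂ)‖ ^ 2 := g3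
          _ ≤ S2 f N := hE
          _ ≤ x * L ^ 2 := hS2
      have h7 : (0 : ℝ) ≤ L ^ 2 * (2 / (s * L ^ 6) + (x : ℝ) ^ (-(δ / 2))) := by positivity
      refine (mul_le_mul_of_nonneg_right h6 h7).trans ?_
      have h8 : x * L ^ 2 * (L ^ 2 * (2 / (s * L ^ 6))) ≤ x / (8 * s) := by
        have h9 : x * L ^ 2 * (L ^ 2 * (2 / (s * L ^ 6))) = x / (s * (L ^ 2 / 2)) := by
          field_simp
        rw [h9]
        apply div_le_div_of_nonneg_left hxpos.le (by positivity)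
        have h10 : 8 ≤ L ^ 2 / 2 := by nlinarith only [b2]
        calc 8 * s = s * 8 := by ring
          _ ≤ s * (L ^ 2 / 2) := mul_le_mul_of_nonneg_left h10 hspos.le
      have h9 : x * L ^ 2 * (L ^ 2 * (x : ℝ) ^ (-(δ / 2))) ≤ x / (8 * s) := by
        rw [Real.rpow_neg hxpos.le, le_div_iff₀ (by positivity)]
        have h10 : 8 * s * L ^ 4 ≤ (x : ℝ) ^ (δ / 2) := by
          refine le_trans ?_ b3
          rw [pow_add]
          nlinarith only [hsLm, pow_pos hLpos 4]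
        have h11 : (0 : ℝ) < (x : ℝ) ^ (δ / 2) := by positivity
        have h12 : 8 * s * L ^ 4 * ((x : ℝ) ^ (δ / 2))⁻¹ ≤ 1 := by
          rw [← div_eq_mul_inv, div_le_one h11]
          exact h10
        calc (x : ℝ) * L ^ 2 * (L ^ 2 * ((x : ℝ) ^ (δ / 2))⁻¹) * (8 * s)
            = x * (8 * s * L ^ 4 * ((x : ℝ) ^ (δ / 2))⁻¹) := by ring
          _ ≤ (x : ℝ) * 1 := mul_le_mul_of_nonneg_left h12 hxpos.le
          _ = (x : ℝ) := mul_one _
      calc x * L ^ 2 * (L ^ 2 * (2 / (s * L ^ 6) + (x : ℝ) ^ (-(δ / 2))))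
          = x * L ^ 2 * (L ^ 2 * (2 / (s * L ^ 6))) + x * L ^ 2 * (L ^ 2 * (x : ℝ) ^ (-(δ / 2))) := by
            ring
        _ ≤ x / (8 * s) + x / (8 * s) := add_le_add h8 h9
        _ = 2 * (x / (8 * s)) := by ring
    have h6 : lam x η pj.2.2.1 < 3 * (x / (8 * s)) := by
      calc lam x η pj.2.2.1 < ‖∑ n ∈ Ioc M N, ((f n : ℂ) - ∑ i ∈ range j, c i * vv a0 M (e' i).1 n)
          * (starRingEnd ℂ) (vv a0 M pj n)‖ := h1
        _ ≤ ‖∑ n ∈ Ioc M N, (f n : ℂ) * (starRingEnd ℂ) (vv a0 M pj n)‖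
          + ‖∑ i ∈ range j, c i * ∑ n ∈ Ioc M N, vv a0 M (e' i).1 n
            * (starRingEnd ℂ) (vv a0 M pj n)‖ := by
            rw [h2]
            exact norm_sub_le _ _
        _ ≤ x / (8 * s) + 2 * (x / (8 * s)) := add_le_add h3 h5
        _ = 3 * (x / (8 * s)) := by ring
    have h7 := hlamT pj.2.2.1 htj
    have h8 : (x : ℝ) / (2 * s) = 4 * (x / (8 * s)) := by
      field_simp
      norm_num
    have h9 : (0 : ℝ) < x / (8 * s) := by positivity
    linarith only [h6, h7, h8, h9]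
  -- the number of small frequencies
  have hcard : Δ * (((range J).filter (fun j => |(e' j).1.2.2.1| ≤ T)).card : ℝ) ≤ T / 2 := by
    set S := (range J).filter (fun j => |(e' j).1.2.2.1| ≤ T) with hS
    have h1 : (S.card : ℝ) * (x / (2 * s)) ^ 2 ≤ x * (x * L ^ 2) := by
      calc (S.card : ℝ) * (x / (2 * s)) ^ 2 = ∑ j ∈ S, (x / (2 * s)) ^ 2 := by
            rw [sum_const, nsmul_eq_mul]
        _ ≤ ∑ j ∈ S, lam x η (e' j).1.2.2.1 ^ 2 := by
            refine sum_le_sum fun j hj => ?_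
            exact pow_le_pow_left₀ (by positivity) (hlamT _ (mem_filter.1 hj).2) 2
        _ ≤ ∑ j ∈ range J, lam x η (e' j).1.2.2.1 ^ 2 :=
            sum_le_sum_of_subset_of_nonneg (filter_subset _ _) fun _ _ _ => sq_nonneg _
        _ ≤ x * ∑ n ∈ Ioc M N, ‖((f n : ℝ) : ℂ)‖ ^ 2 := g5
        _ ≤ x * (x * L ^ 2) := mul_le_mul_of_nonneg_left (hE.trans hS2) hxpos.le
    have h2 : (S.card : ℝ) ≤ 4 * s ^ 2 * L ^ 2 := by
      rw [div_pow, mul_div_assoc', div_le_iff₀ (by positivity)] at h1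
      have h3 : (0 : ℝ) < (x : ℝ) ^ 2 := by positivity
      have h4 : (S.card : ℝ) * (x : ℝ) ^ 2 ≤ 4 * s ^ 2 * L ^ 2 * (x : ℝ) ^ 2 := by
        calc (S.card : ℝ) * (x : ℝ) ^ 2 ≤ x * (x * L ^ 2) * (2 * s) ^ 2 := h1
          _ = 4 * s ^ 2 * L ^ 2 * (x : ℝ) ^ 2 := by ring
      exact le_of_mul_le_mul_right h4 h3
    have h3 : L ^ 8 * 2 ≤ s ^ 4 := by
      have h4 : s ^ 4 = L ^ (2 * m) := by
        calc s ^ 4 = (s ^ 2) ^ 2 := by ring
          _ = L ^ (2 * m) := by rw [hs2, ← pow_mul, mul_comm]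
      rw [h4]
      calc L ^ 8 * 2 ≤ L ^ 8 * L := mul_le_mul_of_nonneg_left (by linarith only [hδ1, hη, hηδ, b2]) (by positivity)
        _ = L ^ 9 := by ring
        _ ≤ L ^ (2 * m) := pow_le_pow_right₀ hL1 (by omega)
    calc Δ * (S.card : ℝ) ≤ Δ * (4 * s ^ 2 * L ^ 2) := mul_le_mul_of_nonneg_left h2 hΔpos.le
      _ = 2 * s ^ 4 * (L ^ 8 * 2) := by
          rw [hΔ]
          ring
      _ ≤ 2 * s ^ 4 * s ^ 4 := mul_le_mul_of_nonneg_left h3 (by positivity)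
      _ = T / 2 := by
          rw [hT]
          ring
  have hch := chain J (fun j => |(e' j).1.2.2.1|) T Δ hΔpos.le hclaim hcard
  refine ⟨J, fun j => (e' j).1, c, fun j hj => ⟨(e' j).2, ?_⟩, g3.trans hE, g4.trans hE,
    fun p hp => g2 ⟨p, hp⟩⟩
  have h1 := hch j hj
  calc 2 * L ^ (4 * m) = T / 2 := by
        rw [hT, hs8]
        ring
    _ ≤ _ := h1

end Pool.Agent.H35.W

end

section

/-!
# W Dec: the decomposition `f = fb + g`

`η = min (η0 of dec1) (δ/2) ` with `δ` from `kv kap B`; let `e, c, J` be given by `dec1`, `t_j = (e j).2.2.1`,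
`F = f - ∑ c_j v_j` (complex), `g = Re F` on `(M, N]`, `0` outside (it is `0` there automatically, as
`f` and the `vv` (`y ≤ N`) vanish), `fb = f - g = Re ∑ c_j v_j`.
* `S2 g N ≤ ∑ ‖F‖^2 ≤ S2 f N`.
(VERSION 2: the bound for `fb` holds for every modulus `q ≤ x^{1-kap}`; `CorB.high` has the range `|t| ≤ x`.)
* `high`: `cor g a0 M α t y = (1/2) (∑ F(n) ee(..) + ∑ conj F(n) ee(..))`; the first sum is the scalar product of `F`
  with the test function of parameters `(-c, d, -t, y)`, the second one the conjugate of the scalar product with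
  `(c, d, t, y)`; both are `≤ lam x η t` (`lam` depends on `|t|` only) (`ee(-s) = conj ee(s)`).
* `low` (`|t| ≤ L^{4m}`): both scalar products are `≤ |<f, v>| + ∑ |c_j| |<v_j, v>|`,
  `|<f, v>| ≤ x / L^{3m+1}` (`sw_t B (4m) (3m+1)`), `|<v_j, v>| ≤ x L^2 (1/(1+|t_j - t|) + x^{-δ'})` (`gram`),
  `|t_j - t| ≥ |t_j|/2` as `|t_j| ≥ 2 L^{4m}`; `|c_j| = |c_j| lam_j/lam_j`, `x/lam_j ≤ (1+|t_j|)^{1/8}` and `≤ x^η`, so
  `∑ |c_j| x L^2 (2/|t_j| + x^{-δ'}) ≤ x L^4 (4 (2 L^{4m})^{-7/8} + x^{η-δ'}) ≤ x / L^{3m+1}` (`m ≥ 20`; one may add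
  `η ≤ δ'/2` to the choice of `η`, `δ'` from `gram B`).
* `fb`: `|∑_{n ≡ a (q)} fb(n)| ≤ ∑ |c_j| |∑_{n ≡ a (q), M < n ≤ y_j} ee(..)| ≤ ∑ |c_j| (x/q) L (1/|t_j| + x^{-δ})` (`kv`),
  estimated in the same way: `≤ (x/q) L^3 (2 (2L^{4m})^{-7/8} + x^{η-δ}) ≤ (x/q) / L^{2m}`.
-/

set_option autoImplicit false

namespace Pool.Agent.H35.W

open Finset Filter
open Pool.Agent.H91.PK (ee)
open Pool.Agent.H91.EHA (hR)
open Pool.Agent.H76.EHB

private theorem dec_conj (s : ℝ) : (starRingEnd ℂ) (ee s) = ee (-s) := by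
  unfold ee
  rw [← Complex.exp_conj]
  congr 1
  simp only [map_mul, Complex.conj_ofReal, Complex.conj_I, map_ofNat]
  push_cast
  ring

private theorem dec_mul (s t : ℝ) : ee s * ee t = ee (s + t) := by
  unfold ee
  rw [← Complex.exp_add]
  congr 1
  push_cast
  ring

private theorem dec_ev (n : ℕ) {s : ℝ} (hs : 0 < s) :
    ∀ᶠ x : ℕ in atTop, Real.log x ^ n ≤ (x : ℝ) ^ s := by
  have h := (isLittleO_log_rpow_rpow_atTop (n : ℝ) hs).bound one_pos
  have h2 := tendsto_natCast_atTop_atTop.eventually h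
  filter_upwards [h2] with x hx
  rw [one_mul, Real.norm_eq_abs, Real.norm_eq_abs, Real.rpow_natCast] at hx
  rw [abs_of_nonneg (Real.rpow_nonneg (Nat.cast_nonneg x) s)] at hx
  exact (le_abs_self _).trans hx

/-- the size of `(1 + |t|)^{1/8} / |t|` -/
private theorem dec_t {L u : ℝ} {m : ℕ} (hL : 1 ≤ L) (hm : 20 ≤ m) (hu : 2 * L ^ (4 * m) ≤ u) :
    (1 + u) ^ (1 / 8 : ℝ) * (1 / u) ≤ 2 / L ^ (3 * m + 10) := by
  have hL0 : 0 < L := by linarith only [hL]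
  have hp : 1 ≤ L ^ (4 * m) := one_le_pow₀ hL
  have hu1 : 1 ≤ u := by linarith only [hu, hp]
  have hu0 : 0 < u := by linarith only [hu, hp]
  have h1 : (1 + u) ^ (1 / 8 : ℝ) ≤ (2 * u) ^ (1 / 8 : ℝ) :=
    Real.rpow_le_rpow (by linarith only [hu, hp]) (by linarith only [hu, hp]) (by norm_num)
  have h2 : (2 * u) ^ (1 / 8 : ℝ) * (1 / u) = 2 * (2 * u) ^ (-(7 / 8) : ℝ) := by
    have h3 : (2 * u) ^ (-(7 / 8) : ℝ) = (2 * u) ^ (1 / 8 : ℝ) * (2 * u) ^ (-1 : ℝ) := by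
      rw [← Real.rpow_add (by linarith only [hu, hp])]
      norm_num
    rw [h3, Real.rpow_neg_one]
    field_simp
  have h4 : (2 * u) ^ (-(7 / 8) : ℝ) ≤ (L ^ (3 * m + 10))⁻¹ := by
    have h5 : (L ^ (4 * m) : ℝ) ^ (-(7 / 8) : ℝ) ≤ (L ^ (3 * m + 10))⁻¹ := by
      rw [Real.rpow_neg (by positivity)]
      apply inv_anti₀ (by positivity)
      rw [← Real.rpow_natCast L (3 * m + 10), ← Real.rpow_natCast L (4 * m),
        ← Real.rpow_mul hL0.le]
      apply Real.rpow_le_rpow_of_exponent_le hL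
      have : (20 : ℝ) ≤ m := by exact_mod_cast hm
      push_cast
      linarith only [this]
    refine le_trans ?_ h5
    apply Real.rpow_le_rpow_of_nonpos (by positivity) (by linarith only [hu, hp]) (by norm_num)
  calc (1 + u) ^ (1 / 8 : ℝ) * (1 / u) ≤ (2 * u) ^ (1 / 8 : ℝ) * (1 / u) := by
        apply mul_le_mul_of_nonneg_right h1 (by positivity)
    _ = 2 * (2 * u) ^ (-(7 / 8) : ℝ) := h2
    _ ≤ 2 * (L ^ (3 * m + 10))⁻¹ := by linarith only [h4]
    _ = _ := by ring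

/-- weights of the greedy coefficients -/
private theorem dec_wt {x m : ℕ} {η t : ℝ} (hx : 1 ≤ x) (hL : 1 ≤ Real.log x) (hm : 20 ≤ m)
    (ht : 2 * Real.log x ^ (4 * m) ≤ |t|) :
    x * (1 / |t|) ≤ lam x η t * (2 / Real.log x ^ (3 * m + 10)) ∧
    ∀ δ : ℝ, x * (x : ℝ) ^ (-δ) ≤ lam x η t * (x : ℝ) ^ (η - δ) := by
  have hx0 : (0 : ℝ) < x := by exact_mod_cast hx
  have hp : 1 ≤ Real.log x ^ (4 * m) := one_le_pow₀ hL
  have ht0 : 0 < |t| := by linarith only [ht, hp]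
  constructor
  · have h1 := dec_t hL hm ht
    have h2 : x * (1 + |t|) ^ (-(1 / 8) : ℝ) ≤ lam x η t := by
      unfold lam
      exact mul_le_mul_of_nonneg_left (le_max_left _ _) hx0.le
    have h3 : (1 + |t|) ^ (-(1 / 8) : ℝ) * (1 + |t|) ^ (1 / 8 : ℝ) = 1 := by
      rw [← Real.rpow_add (by positivity)]
      norm_num
    calc x * (1 / |t|) = (x * (1 + |t|) ^ (-(1 / 8) : ℝ)) * ((1 + |t|) ^ (1 / 8 : ℝ) * (1 / |t|)) := by
          rw [show (x * (1 + |t|) ^ (-(1 / 8) : ℝ)) * ((1 + |t|) ^ (1 / 8 : ℝ) * (1 / |t|)) =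
            x * (1 / |t|) * ((1 + |t|) ^ (-(1 / 8) : ℝ) * (1 + |t|) ^ (1 / 8 : ℝ)) by ring, h3,
            mul_one]
      _ ≤ lam x η t * (2 / Real.log x ^ (3 * m + 10)) :=
          mul_le_mul h2 h1 (by positivity) (le_trans (by positivity) h2)
  · intro δ
    have h2 : x * (x : ℝ) ^ (-η) ≤ lam x η t := by
      unfold lam
      exact mul_le_mul_of_nonneg_left (le_max_right _ _) hx0.le
    calc x * (x : ℝ) ^ (-δ) = (x * (x : ℝ) ^ (-η)) * (x : ℝ) ^ (η - δ) := by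
          rw [mul_assoc, ← Real.rpow_add hx0]
          congr 2
          ring
      _ ≤ lam x η t * (x : ℝ) ^ (η - δ) :=
          mul_le_mul_of_nonneg_right h2 (Real.rpow_nonneg hx0.le _)

/-- sums over the greedy coefficients -/
private theorem dec_sum {x m J : ℕ} {η δ S C : ℝ} {t : ℕ → ℝ} {c : ℕ → ℂ} (hx : 1 ≤ x)
    (hL : 1 ≤ Real.log x) (hm : 20 ≤ m) (hC : 0 ≤ C)
    (ht : ∀ j, j < J → 2 * Real.log x ^ (4 * m) ≤ |t j|)
    (hc : ∑ j ∈ range J, ‖c j‖ * lam x η (t j) ≤ S)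
    (hS : S ≤ x * Real.log x ^ 2) (hδ : Real.log x ^ (3 * m + 10) ≤ (x : ℝ) ^ (δ - η)) :
    ∑ j ∈ range J, ‖c j‖ * (C * (2 * (1 / |t j|) + (x : ℝ) ^ (-δ))) ≤
      C * (5 * Real.log x ^ 2 / Real.log x ^ (3 * m + 10)) := by
  have hx0 : (0 : ℝ) < x := by exact_mod_cast hx
  have hp : 0 < Real.log x ^ (3 * m + 10) := by positivity
  have hxd : (x : ℝ) ^ (η - δ) ≤ 1 / Real.log x ^ (3 * m + 10) := by
    rw [show η - δ = -(δ - η) by ring, Real.rpow_neg hx0.le, ← one_div]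
    exact one_div_le_one_div_of_le hp hδ
  have h1 : ∀ j ∈ range J, ‖c j‖ * (C * (2 * (1 / |t j|) + (x : ℝ) ^ (-δ))) ≤
      (C * (5 / Real.log x ^ (3 * m + 10)) / x) * (‖c j‖ * lam x η (t j)) := by
    intro j hj
    obtain ⟨h2, h3⟩ := dec_wt (η := η) hx hL hm (ht j (mem_range.1 hj))
    have h4 := h3 δ
    have hlam : 0 ≤ lam x η (t j) := by
      unfold lam
      exact mul_nonneg hx0.le (le_max_of_le_left (Real.rpow_nonneg (by positivity) _))
    have h5 : x * (2 * (1 / |t j|) + (x : ℝ) ^ (-δ)) ≤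
        lam x η (t j) * (5 / Real.log x ^ (3 * m + 10)) := by
      have h6 : lam x η (t j) * (x : ℝ) ^ (η - δ) ≤
          lam x η (t j) * (1 / Real.log x ^ (3 * m + 10)) :=
        mul_le_mul_of_nonneg_left hxd hlam
      have h7 : lam x η (t j) * (5 / Real.log x ^ (3 * m + 10)) =
          2 * (lam x η (t j) * (2 / Real.log x ^ (3 * m + 10))) +
          lam x η (t j) * (1 / Real.log x ^ (3 * m + 10)) := by ring
      rw [h7, mul_add]
      have h8 : x * (2 * (1 / |t j|)) = 2 * (x * (1 / |t j|)) := by ring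
      rw [h8]
      linarith only [h2, h4, h6]
    have h9 : (2 * (1 / |t j|) + (x : ℝ) ^ (-δ)) ≤
        lam x η (t j) * (5 / Real.log x ^ (3 * m + 10)) / x := by
      rw [le_div_iff₀ hx0]
      linarith only [h5]
    calc ‖c j‖ * (C * (2 * (1 / |t j|) + (x : ℝ) ^ (-δ)))
        ≤ ‖c j‖ * (C * (lam x η (t j) * (5 / Real.log x ^ (3 * m + 10)) / x)) := by gcongr
      _ = _ := by ring
  calc ∑ j ∈ range J, ‖c j‖ * (C * (2 * (1 / |t j|) + (x : ℝ) ^ (-δ)))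
      ≤ ∑ j ∈ range J, (C * (5 / Real.log x ^ (3 * m + 10)) / x) * (‖c j‖ * lam x η (t j)) :=
        sum_le_sum h1
    _ = (C * (5 / Real.log x ^ (3 * m + 10)) / x) * ∑ j ∈ range J, ‖c j‖ * lam x η (t j) := by
        rw [mul_sum]
    _ ≤ (C * (5 / Real.log x ^ (3 * m + 10)) / x) * (x * Real.log x ^ 2) :=
        mul_le_mul_of_nonneg_left (hc.trans hS) (by positivity)
    _ = _ := by field_simp

/-- the scalar product of two test functions -/
private theorem dec_vv (a0 M N : ℕ) (p p' : ℤ × ℕ × ℝ × ℕ) (hp : p.2.2.2 ≤ N) :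
    ∑ n ∈ Ioc M N, vv a0 M p n * (starRingEnd ℂ) (vv a0 M p' n) =
      ∑ n ∈ Ioc M (min p.2.2.2 p'.2.2.2),
        ee (n * ((p.1 : ℝ) / p.2.1 - (p'.1 : ℝ) / p'.2.1) +
          (p.2.2.1 - p'.2.2.1) * Real.log ((n : ℝ) - a0)) := by
  symm
  apply sum_subset_zero_on_sdiff
  · intro n hn
    rw [mem_Ioc] at hn ⊢
    have := min_le_left p.2.2.2 p'.2.2.2
    omega
  · intro n hn
    rw [Finset.mem_sdiff, mem_Ioc, mem_Ioc] at hn
    unfold vv
    by_cases h1 : n ∈ Ioc M p.2.2.2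
    · by_cases h2 : n ∈ Ioc M p'.2.2.2
      · exfalso
        apply hn.2
        rw [mem_Ioc] at h1 h2
        exact ⟨h1.1, le_min h1.2 h2.2⟩
      · rw [if_neg h2, map_zero, mul_zero]
    · rw [if_neg h1, zero_mul]
  · intro n hn
    rw [mem_Ioc] at hn
    unfold vv
    rw [if_pos (mem_Ioc.2 ⟨hn.1, hn.2.trans (min_le_left _ _)⟩),
      if_pos (mem_Ioc.2 ⟨hn.1, hn.2.trans (min_le_right _ _)⟩), dec_conj, dec_mul]
    congr 1
    ring

/-- the correlation of the real part -/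
private theorem dec_cor {F : ℕ → ℂ} {a0 M N : ℕ} {c : ℤ} {d : ℕ} {t : ℝ} {y : ℕ} (hy : y ≤ N) :
    cor (fun n => (F n).re) a0 M ((c : ℝ) / d) t y =
      (∑ n ∈ Ioc M N, F n * (starRingEnd ℂ) (vv a0 M (-c, d, -t, y) n) +
        (starRingEnd ℂ) (∑ n ∈ Ioc M N, F n * (starRingEnd ℂ) (vv a0 M (c, d, t, y) n))) / 2 := by
  have hsub : ∀ G : ℕ → ℂ, (∀ n, n ∉ Ioc M y → G n = 0) → ∑ n ∈ Ioc M N, G n = ∑ n ∈ Ioc M y, G n := by
    intro G hG
    symm
    apply sum_subset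
    · intro n hn
      rw [mem_Ioc] at hn ⊢
      omega
    · intro n _ hn
      exact hG n hn
  rw [hsub (fun n => F n * (starRingEnd ℂ) (vv a0 M (-c, d, -t, y) n)), map_sum,
    hsub (fun n => (starRingEnd ℂ) (F n * (starRingEnd ℂ) (vv a0 M (c, d, t, y) n)))]
  · rw [← sum_add_distrib, sum_div]
    unfold cor
    apply sum_congr rfl
    intro n hn
    have h1 : vv a0 M (-c, d, -t, y) n = ee (-(n * ((c : ℝ) / d) + t * Real.log ((n : ℝ) - a0))) := by
      unfold vv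
      rw [if_pos hn]
      congr 1
      push_cast
      ring
    have h2 : vv a0 M (c, d, t, y) n = ee (n * ((c : ℝ) / d) + t * Real.log ((n : ℝ) - a0)) := by
      unfold vv
      rw [if_pos hn]
    rw [h1, h2, dec_conj, neg_neg, map_mul, Complex.conj_conj, Complex.re_eq_add_conj]
    ring
  · intro n hn
    unfold vv
    rw [if_neg hn, map_zero, mul_zero, map_zero]
  · intro n hn
    unfold vv
    rw [if_neg hn, map_zero, mul_zero]

theorem dec (kap : ℝ) (hkap : 0 < kap) (B : ℕ) : ∃ η : ℝ, 0 < η ∧ ∀ m : ℕ, 20 ≤ m →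
    ∃ x0 : ℕ, ∀ x : ℕ, x0 ≤ x → ∀ (N M a0 H : ℕ) (f : ℕ → ℝ), N ≤ x → a0 + H ≤ M →
      (∀ n ∈ Ioc M N, f n = hR ⌊Real.log x ^ B⌋₊ n) → (∀ n, n ∉ Ioc M N → f n = 0) →
      S2 f N ≤ x * Real.log x ^ 2 →
      ∃ fb g : ℕ → ℝ, (∀ n, f n = fb n + g n) ∧ CorB x B m η N M a0 g ∧ S2 g N ≤ S2 f N ∧
        (∀ a ∈ Ioc a0 (a0 + H), ∀ q : ℕ, 1 ≤ q → H ≤ q → (q : ℝ) ≤ (x : ℝ) ^ (1 - kap) →
          |∑ n ∈ (Ioc M N).filter (fun n => n ≡ a [MOD q]), fb n|
            ≤ x / q / Real.log x ^ (2 * m)) := by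
  obtain ⟨η0, hη0, hdec⟩ := dec1 B
  obtain ⟨δg, hδg, -, xg, hgram⟩ := gram B
  obtain ⟨δk, hδk, -, xk, hkv⟩ := kv kap hkap B
  set η := min η0 (min (δg / 2) (δk / 2)) with hηdef
  have hη : 0 < η := lt_min hη0 (lt_min (by linarith only [hδg]) (by linarith only [hδk]))
  have hη1 : η ≤ η0 := min_le_left _ _
  have hη2 : η ≤ δg / 2 := (min_le_right _ _).trans (min_le_left _ _)
  have hη3 : η ≤ δk / 2 := (min_le_right _ _).trans (min_le_right _ _)
  refine ⟨η, hη, fun m hm => ?_⟩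
  obtain ⟨xd, hdec⟩ := hdec η hη hη1 m hm
  obtain ⟨xs, hsw⟩ := sw_t B (4 * m) (3 * m + 1)
  have hlogt : Tendsto (fun x : ℕ => Real.log (x : ℝ)) atTop atTop :=
    Real.tendsto_log_atTop.comp tendsto_natCast_atTop_atTop
  have hev : ∀ᶠ x : ℕ in atTop, xd ≤ x ∧ xs ≤ x ∧ xg ≤ x ∧ xk ≤ x ∧ 2 ≤ x ∧ 10 ≤ Real.log x ∧
      Real.log x ^ (3 * m + 10) ≤ (x : ℝ) ^ (δg / 2) ∧
      Real.log x ^ (3 * m + 10) ≤ (x : ℝ) ^ (δk / 2) ∧
      Real.log x ^ (4 * m) ≤ (x : ℝ) ^ (2 : ℝ) := by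
    filter_upwards [eventually_ge_atTop xd, eventually_ge_atTop xs, eventually_ge_atTop xg,
      eventually_ge_atTop xk, eventually_ge_atTop 2, hlogt.eventually_ge_atTop 10,
      dec_ev (3 * m + 10) (show 0 < δg / 2 by linarith only [hη, hη2]),
      dec_ev (3 * m + 10) (show 0 < δk / 2 by linarith only [hη, hη3]),
      dec_ev (4 * m) (show (0 : ℝ) < 2 by norm_num)] with x h1 h2 h3 h4 h5 h6 h7 h8 h9
    exact ⟨h1, h2, h3, h4, h5, h6, h7, h8, h9⟩
  obtain ⟨x0, hx0⟩ := eventually_atTop.1 hev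
  refine ⟨x0, fun x hx N M a0 H f hN hM hf hf0 hS => ?_⟩
  obtain ⟨hxd, hxs, hxg, hxk, hx2, hL10, hLg, hLk, hL2⟩ := hx0 x hx
  have hx1 : 1 ≤ x := by omega
  have hxpos : (0 : ℝ) < x := by exact_mod_cast hx1
  have hxR : (1 : ℝ) ≤ x := by exact_mod_cast hx1
  have hL1 : 1 ≤ Real.log x := by linarith only [hL10]
  have hL0 : 0 < Real.log x := by linarith only [hL10]
  have hxsq : (x : ℝ) ≤ (x : ℝ) ^ (2 : ℕ) := le_self_pow₀ hxR (by norm_num)
  have hxx : (x : ℝ) ^ (2 : ℝ) = (x : ℝ) ^ (2 : ℕ) := by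
    rw [← Real.rpow_natCast]; norm_num
  rw [hxx] at hL2
  have hdg : Real.log x ^ (3 * m + 10) ≤ (x : ℝ) ^ (δg - η) :=
    hLg.trans (Real.rpow_le_rpow_of_exponent_le hxR (by linarith only [hη2]))
  have hdk : Real.log x ^ (3 * m + 10) ≤ (x : ℝ) ^ (δk - η) :=
    hLk.trans (Real.rpow_le_rpow_of_exponent_le hxR (by linarith only [hη3]))
  obtain ⟨J, e, c, he, hc, hF2, hFv⟩ := hdec x hxd N M a0 f hN (by omega) hf hf0 hS
  set F : ℕ → ℂ := fun n => (f n : ℂ) - ∑ i ∈ range J, c i * vv a0 M (e i) n with hFdef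
  have hF0 : ∀ n, n ∉ Ioc M N → F n = 0 := by
    intro n hn
    rw [hFdef]
    simp only
    rw [hf0 n hn]
    have h1 : ∑ i ∈ range J, c i * vv a0 M (e i) n = 0 := by
      apply sum_eq_zero
      intro i hi
      unfold vv
      rw [if_neg, mul_zero]
      intro hc
      apply hn
      rw [mem_Ioc] at hc ⊢
      have := (he i (mem_range.1 hi)).1.2.2.2.2
      omega
    rw [h1]
    simp
  -- S2 g ≤ S2 f
  have hSg : S2 (fun n => (F n).re) N ≤ S2 f N := by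
    refine le_trans ?_ hF2
    unfold S2
    have h1 : ∑ n ∈ Icc 1 N, (F n).re ^ 2 = ∑ n ∈ Ioc M N, (F n).re ^ 2 := by
      symm
      apply sum_subset
      · intro n hn
        rw [mem_Ioc] at hn
        rw [mem_Icc]
        omega
      · intro n _ hn
        rw [hF0 n hn]
        simp
    rw [h1]
    apply sum_le_sum
    intro n _
    have h2 := Complex.abs_re_le_norm (F n)
    have h3 : (F n).re ^ 2 = |(F n).re| ^ 2 := (sq_abs _).symm
    rw [h3]
    exact pow_le_pow_left₀ (abs_nonneg _) h2 2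
  -- the low frequencies
  have hlow : ∀ p ∈ Vx x N B, |p.2.2.1| ≤ Real.log x ^ (4 * m) →
      ‖∑ n ∈ Ioc M N, F n * (starRingEnd ℂ) (vv a0 M p n)‖ ≤ x / Real.log x ^ (3 * m) := by
    intro p hp hpt
    obtain ⟨hp1, hp2, hp3, hp4, hp5⟩ := hp
    have h1 : ∑ n ∈ Ioc M N, F n * (starRingEnd ℂ) (vv a0 M p n) =
        cor (hR ⌊Real.log x ^ B⌋₊) a0 M (((-p.1 : ℤ) : ℝ) / p.2.1) (-p.2.2.1) p.2.2.2 -
        ∑ i ∈ range J, c i * ∑ n ∈ Ioc M N, vv a0 M (e i) n * (starRingEnd ℂ) (vv a0 M p n) := by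
      have h2 : ∑ n ∈ Ioc M N, F n * (starRingEnd ℂ) (vv a0 M p n) =
          ∑ n ∈ Ioc M N, (f n : ℂ) * (starRingEnd ℂ) (vv a0 M p n) -
          ∑ n ∈ Ioc M N, ∑ i ∈ range J, c i * (vv a0 M (e i) n * (starRingEnd ℂ) (vv a0 M p n)) := by
        rw [← sum_sub_distrib]
        apply sum_congr rfl
        intro n _
        rw [hFdef]
        simp only
        rw [sub_mul, sum_mul]
        congr 1
        apply sum_congr rfl
        intro i _
        ring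
      rw [h2, sum_comm]
      congr 1
      · unfold cor
        symm
        apply sum_subset_zero_on_sdiff
        · intro n hn
          rw [mem_Ioc] at hn ⊢
          omega
        · intro n hn
          rw [Finset.mem_sdiff] at hn
          unfold vv
          rw [if_neg hn.2, map_zero, mul_zero]
        · intro n hn
          have hn' : n ∈ Ioc M N := by
            rw [mem_Ioc] at hn ⊢
            omega
          rw [hf n hn']
          unfold vv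
          rw [if_pos hn, dec_conj]
          congr 2
          push_cast
          ring
      · apply sum_congr rfl
        intro i _
        rw [mul_sum]
    have h3 : ‖cor (hR ⌊Real.log x ^ B⌋₊) a0 M (((-p.1 : ℤ) : ℝ) / p.2.1) (-p.2.2.1) p.2.2.2‖ ≤
        x / Real.log x ^ (3 * m + 1) :=
      hsw x hxs a0 M p.2.2.2 p.2.1 (-p.1) (-p.2.2.1) (by omega) (hp5.trans hN) hp1 hp2
        hp3.neg_left (by rw [abs_neg]; exact hpt)
    have h4 : ∀ i ∈ range J, ‖c i * ∑ n ∈ Ioc M N, vv a0 M (e i) n * (starRingEnd ℂ) (vv a0 M p n)‖ ≤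
        ‖c i‖ * ((x * Real.log x ^ 2) * (2 * (1 / |(e i).2.2.1|) + (x : ℝ) ^ (-δg))) := by
      intro i hi
      obtain ⟨hei, hti⟩ := he i (mem_range.1 hi)
      obtain ⟨he1, he2, he3, he4, he5⟩ := hei
      rw [norm_mul]
      apply mul_le_mul_of_nonneg_left _ (norm_nonneg _)
      rw [dec_vv a0 M N (e i) p he5]
      have hpL : 1 ≤ Real.log x ^ (4 * m) := one_le_pow₀ hL1
      have hdiff : |(e i).2.2.1| / 2 ≤ |(e i).2.2.1 - p.2.2.1| := by
        have h6 := abs_sub_abs_le_abs_sub (e i).2.2.1 p.2.2.1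
        linarith only [hpt, hti, h6]
      have h5 := hgram x hxg a0 M (min (e i).2.2.2 p.2.2.2) (e i).2.1 p.2.1 (e i).1 p.1
        ((e i).2.2.1 - p.2.2.1) (by omega) ((min_le_left _ _).trans (he5.trans hN)) he1 hp1 he2 hp2
        (by
          have h6 := abs_sub (e i).2.2.1 p.2.2.1
          have h7 : (2 : ℝ) ≤ x := by exact_mod_cast hx2
          have h8 : 2 * (x : ℝ) ^ 2 ≤ (x : ℝ) ^ 3 := by nlinarith only [h7, sq_nonneg (x : ℝ)]
          linarith only [hpt, hti, he4, hpL, h6, h8])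
      refine h5.trans (mul_le_mul_of_nonneg_left ?_ (by positivity))
      have h9 : 1 / (1 + |(e i).2.2.1 - p.2.2.1|) ≤ 2 * (1 / |(e i).2.2.1|) := by
        have ht0 : 0 < |(e i).2.2.1| := by linarith only [hti, hpL]
        rw [mul_one_div, div_le_div_iff₀ (by positivity) ht0]
        linarith only [hdiff]
      linarith only [h9]
    have h10 := dec_sum (x := x) (m := m) (J := J) (η := η) (δ := δg) (C := x * Real.log x ^ 2)
      (t := fun i => (e i).2.2.1) (c := c) hx1 hL1 hm (by positivity)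
      (fun j hj => (he j hj).2) hc hS hdg
    have h11 : ‖∑ i ∈ range J, c i * ∑ n ∈ Ioc M N, vv a0 M (e i) n * (starRingEnd ℂ) (vv a0 M p n)‖ ≤
        (x * Real.log x ^ 2) * (5 * Real.log x ^ 2 / Real.log x ^ (3 * m + 10)) :=
      (norm_sum_le _ _).trans ((sum_le_sum h4).trans h10)
    have h12 : x / Real.log x ^ (3 * m + 1) + (x * Real.log x ^ 2) *
        (5 * Real.log x ^ 2 / Real.log x ^ (3 * m + 10)) ≤ x / Real.log x ^ (3 * m) := by
      have e1 : x / Real.log x ^ (3 * m + 1) = (x / Real.log x ^ (3 * m)) * (1 / Real.log x) := by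
        rw [pow_succ]; field_simp
      have e2 : (x * Real.log x ^ 2) * (5 * Real.log x ^ 2 / Real.log x ^ (3 * m + 10)) =
          (x / Real.log x ^ (3 * m)) * (5 / Real.log x ^ 6) := by
        rw [show 3 * m + 10 = 3 * m + 4 + 6 by ring, pow_add, pow_add]; field_simp
      rw [e1, e2, ← mul_add]
      apply mul_le_of_le_one_right (by positivity)
      have h13 : 1 / Real.log x ≤ 1 / 10 := one_div_le_one_div_of_le (by norm_num) hL10
      have h14 : 5 / Real.log x ^ 6 ≤ 5 / 10 := by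
        apply div_le_div_of_nonneg_left (by norm_num) (by norm_num)
        calc (10 : ℝ) ≤ Real.log x := hL10
          _ ≤ Real.log x ^ 6 := le_self_pow₀ hL1 (by norm_num)
      linarith only [h13, h14]
    rw [h1]
    exact (norm_sub_le _ _).trans ((add_le_add h3 h11).trans h12)
  refine ⟨fun n => f n - (F n).re, fun n => (F n).re, fun n => by ring, ?_, hSg, ?_⟩
  · constructor
    · intro n hn
      rw [hF0 n hn]
      simp
    · exact hSg.trans hS
    · intro c' d t y hd hdB hcop hy ht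
      rw [dec_cor hy]
      have hV1 : ((-c', d, -t, y) : ℤ × ℕ × ℝ × ℕ) ∈ Vx x N B :=
        ⟨hd, hdB, hcop.neg_left, by simp only [abs_neg]; linarith only [hL2, ht], hy⟩
      have hV2 : ((c', d, t, y) : ℤ × ℕ × ℝ × ℕ) ∈ Vx x N B :=
        ⟨hd, hdB, hcop, by simp only; linarith only [hL2, ht], hy⟩
      have h1 := hlow _ hV1 (by simp only [abs_neg]; exact ht)
      have h2 := hlow _ hV2 (by simp only; exact ht)
      rw [norm_div, Complex.norm_ofNat, div_le_iff₀ (by norm_num)]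
      refine (norm_add_le _ _).trans ?_
      rw [Complex.norm_conj]
      linarith only [h1, h2]
    · intro c' d t y hd hdB hcop hy ht
      rw [dec_cor hy]
      have hV1 : ((-c', d, -t, y) : ℤ × ℕ × ℝ × ℕ) ∈ Vx x N B :=
        ⟨hd, hdB, hcop.neg_left, by simp only [abs_neg]; exact ht.trans hxsq, hy⟩
      have hV2 : ((c', d, t, y) : ℤ × ℕ × ℝ × ℕ) ∈ Vx x N B :=
        ⟨hd, hdB, hcop, by simp only; exact ht.trans hxsq, hy⟩
      have h1 := hFv _ hV1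
      have h2 := hFv _ hV2
      have h3 : lam x η (-t) = lam x η t := by
        unfold lam
        rw [abs_neg]
      simp only at h1 h2
      rw [h3] at h1
      rw [norm_div, Complex.norm_ofNat, div_le_iff₀ (by norm_num)]
      refine (norm_add_le _ _).trans ?_
      rw [Complex.norm_conj]
      linarith only [h1, h2]
  · intro a ha q hq1 hHq hq
    have hQ0 : (0 : ℝ) < q := by exact_mod_cast hq1
    have h1 : ((∑ n ∈ (Ioc M N).filter (fun n => n ≡ a [MOD q]), (f n - (F n).re) : ℝ)) =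
        (∑ i ∈ range J, c i * ∑ n ∈ (Ioc M (e i).2.2.2).filter (fun n => n ≡ a [MOD q]),
          ee (n * (((e i).1 : ℝ) / (e i).2.1) + (e i).2.2.1 * Real.log ((n : ℝ) - a0))).re := by
      have h2 : ∀ n, f n - (F n).re = (∑ i ∈ range J, c i * vv a0 M (e i) n).re := by
        intro n
        rw [hFdef]
        simp only [Complex.sub_re, Complex.ofReal_re]
        ring
      simp only [h2]
      rw [← Complex.re_sum, sum_comm]
      congr 1
      apply sum_congr rfl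
      intro i hi
      rw [← mul_sum]
      congr 1
      symm
      apply sum_subset_zero_on_sdiff
      · intro n hn
        rw [mem_filter, mem_Ioc] at hn ⊢
        have := (he i (mem_range.1 hi)).1.2.2.2.2
        exact ⟨⟨hn.1.1, hn.1.2.trans this⟩, hn.2⟩
      · intro n hn
        rw [Finset.mem_sdiff, mem_filter, mem_filter] at hn
        unfold vv
        rw [if_neg]
        intro hc
        exact hn.2 ⟨hc, hn.1.2⟩
      · intro n hn
        rw [mem_filter] at hn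
        unfold vv
        rw [if_pos hn.1]
    have h3 : ∀ i ∈ range J, ‖c i * ∑ n ∈ (Ioc M (e i).2.2.2).filter (fun n => n ≡ a [MOD q]),
          ee (n * (((e i).1 : ℝ) / (e i).2.1) + (e i).2.2.1 * Real.log ((n : ℝ) - a0))‖ ≤
        ‖c i‖ * ((x / q * Real.log x) * (2 * (1 / |(e i).2.2.1|) + (x : ℝ) ^ (-δk))) := by
      intro i hi
      obtain ⟨hei, hti⟩ := he i (mem_range.1 hi)
      obtain ⟨he1, he2, he3, he4, he5⟩ := hei
      have hpL : 1 ≤ Real.log x ^ (4 * m) := one_le_pow₀ hL1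
      rw [norm_mul]
      apply mul_le_mul_of_nonneg_left _ (norm_nonneg _)
      have h4 := hkv x hxk a0 M (e i).2.2.2 a q H (e i).2.1 (e i).1 (e i).2.2.1 hq1 ha hHq hM
        (he5.trans hN) hq he1 he2 (by linarith only [hti, hpL]) (by
          have h8 : (x : ℝ) ^ 2 ≤ (x : ℝ) ^ 3 := pow_le_pow_right₀ hxR (by norm_num)
          exact he4.trans h8)
      refine h4.trans (mul_le_mul_of_nonneg_left ?_ (by positivity))
      have h5 : 0 ≤ 1 / |(e i).2.2.1| := by positivity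
      linarith only [h5]
    have h10 := dec_sum (x := x) (m := m) (J := J) (η := η) (δ := δk) (C := x / q * Real.log x)
      (t := fun i => (e i).2.2.1) (c := c) hx1 hL1 hm (by positivity)
      (fun j hj => (he j hj).2) hc hS hdk
    rw [h1]
    refine (Complex.abs_re_le_norm _).trans ((norm_sum_le _ _).trans ((sum_le_sum h3).trans
      (h10.trans ?_)))
    have e2 : (x / q * Real.log x) * (5 * Real.log x ^ 2 / Real.log x ^ (3 * m + 10)) =
        (x / q / Real.log x ^ (2 * m)) * (5 / Real.log x ^ (m + 7)) := by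
      rw [show 3 * m + 10 = 2 * m + (m + 7) + 3 by ring, pow_add, pow_add (Real.log x) (2 * m)]
      field_simp
    rw [e2]
    apply mul_le_of_le_one_right (by positivity)
    rw [div_le_one (by positivity)]
    calc (5 : ℝ) ≤ Real.log x := by linarith only [hL10]
      _ ≤ Real.log x ^ (m + 7) := le_self_pow₀ hL1 (by omega)

end Pool.Agent.H35.W

end
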