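import Pool.Agent.H94.EH.H91.EHA.GMain
import Pool.Agent.H94.EH.M24
import Pool.Agent.H94.EH.M26
import Pool.Agent.H94.EH.M33
import Pool.Agent.H94.EH.M34

/-! The parts of this file: H35.U.Blk, H35.U.Mid, H35.U.Fin, H35.U.FinY, H35.U.ExcY. -/

section

/-!
# U Blk: one block

Order of the choices: `kap = (1-θ)/2`; `W.dec kap B` gives `η`; `blk_avg c B η` gives `b0`, `m0`;
`b = max b0 (3B+10)`, `m = max m0 20`, `C2 = c + 3B + 50`; `par θ b C2` gives `C0`; `blk_pt` gives `C`.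
Result exponent `2b + 2`.  For given `x`, `a0`, `Q`, `H`: `P`, `J`, `r` from `par`; `M = a0 + H + ⌈x/L^3⌉₊`
(`≤ 2x/L^3`, `≤ x`), `f n = hR R n` on `(M,x]`, `0` elsewhere, `R = ⌊L^B⌋₊`; `S2 f x ≤ S2 (hR R) x ≤ 15 x L ≤ x L²`
(`hr_sq`); `dec` gives `fb`, `g`.  `X a q` = the summand of `blk_avg` (`K = x/Q`).  `pt_blk` with
`δb = 1/L^40` (`1/L^(2m) ≤ 1/L^40`): for `T ∈ sb S (2r)`, the modulus `q pr T` satisfies `H ≤ Q < q ≤ q pr T` and
`q pr T ≤ 2 x^θ (P 2^J)^(2r) ≤ 2 x^(θ + (1-θ)/100) ≤ x^(1 - kap)` (`pr_le`), `x < (x/Q+1) q` as `q > Q`; `R ≤ P`.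
-/

set_option autoImplicit false

namespace Pool.Agent.H35.U

open Finset Filter
open Pool.Agent.H91.EHA (Lam lamR hR psiA)
open Pool.Agent.H87.WL (PP PPc Mu Om gR)
open Pool.Agent.H76.EHB (S2)
open Pool.Agent.H35.W (Rk rgh fcs CorB)

private theorem blk_ev (n : ℕ) {s : ℝ} (hs : 0 < s) :
    ∀ᶠ x : ℕ in atTop, Real.log x ^ n ≤ (x : ℝ) ^ s := by
  have h := (isLittleO_log_rpow_rpow_atTop (n : ℝ) hs).bound one_pos
  have h2 := tendsto_natCast_atTop_atTop.eventually h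
  filter_upwards [h2] with x hx
  rw [one_mul, Real.norm_eq_abs, Real.norm_eq_abs, Real.rpow_natCast] at hx
  rw [abs_of_nonneg (Real.rpow_nonneg (Nat.cast_nonneg x) s)] at hx
  exact (le_abs_self _).trans hx

private theorem blk_S2 (f h : ℕ → ℝ) (M x : ℕ) (hf : ∀ n, f n = if n ∈ Ioc M x then h n else 0) :
    S2 f x ≤ S2 h x := by
  unfold S2
  refine sum_le_sum ?_
  intro n _
  rw [hf n]
  split_ifs
  · exact le_rfl
  · rw [zero_pow (by norm_num)]
    positivity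

private theorem blk_mod (θ : ℝ) (x Q H P J r q : ℕ) (T : Finset ℕ) (hx : (1 : ℝ) ≤ x)
    (h2 : (2 : ℝ) ≤ (x : ℝ) ^ ((1 - θ) / 4)) (hθ : θ < 1)
    (hP : 1 ≤ P) (hq1 : Q < q) (hq2 : q ≤ 2 * Q) (hHQ : H ≤ Q) (hQx : (Q : ℝ) ≤ (x : ℝ) ^ θ)
    (hr : (((P * 2 ^ J : ℕ) : ℝ) + 1) ^ (2 * r) ≤ (x : ℝ) ^ ((1 - θ) / 100))
    (hT : T ∈ sb (PP P (P * 2 ^ J)) (2 * r)) :
    1 ≤ q * pr T ∧ H ≤ q * pr T ∧ ((q * pr T : ℕ) : ℝ) ≤ (x : ℝ) ^ (1 - (1 - θ) / 2) := by
  rw [mem_sb] at hT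
  have hprime : ∀ p ∈ PP P (P * 2 ^ J), p.Prime := by
    intro p hp
    unfold PP at hp
    exact (mem_filter.1 hp).2
  have h1 : 1 ≤ pr T := pr_pos _ hprime T hT.1
  have hX1 : 1 ≤ P * 2 ^ J := Nat.mul_pos hP (Nat.pow_pos (by norm_num))
  have hle : pr T ≤ (P * 2 ^ J) ^ (2 * r) := by
    refine pr_le T _ _ hX1 ?_ hT.2
    intro p hp
    have := hT.1 hp
    unfold PP at this
    exact (mem_Ioc.1 (mem_filter.1 this).1).2
  have hqp : q ≤ q * pr T := Nat.le_mul_of_pos_right _ h1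
  refine ⟨by omega, by omega, ?_⟩
  have hx0 : (0 : ℝ) < x := by linarith only [hx]
  have hprR : (pr T : ℝ) ≤ (x : ℝ) ^ ((1 - θ) / 100) := by
    have h3 : (pr T : ℝ) ≤ (((P * 2 ^ J : ℕ) : ℝ)) ^ (2 * r) := by exact_mod_cast hle
    refine h3.trans (le_trans ?_ hr)
    gcongr
    linarith only
  have hqR : (q : ℝ) ≤ 2 * (x : ℝ) ^ θ := by
    have h3 : (q : ℝ) ≤ 2 * Q := by exact_mod_cast hq2
    linarith only [hQx, h3]
  push_cast
  calc (q : ℝ) * pr T ≤ (2 * (x : ℝ) ^ θ) * (x : ℝ) ^ ((1 - θ) / 100) := by gcongr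
    _ ≤ ((x : ℝ) ^ ((1 - θ) / 4) * (x : ℝ) ^ θ) * (x : ℝ) ^ ((1 - θ) / 100) := by gcongr
    _ = (x : ℝ) ^ ((1 - θ) / 4 + θ + (1 - θ) / 100) := by
        rw [Real.rpow_add hx0, Real.rpow_add hx0]
    _ ≤ (x : ℝ) ^ (1 - (1 - θ) / 2) := by
        refine Real.rpow_le_rpow_of_exponent_le hx ?_
        linarith only [hθ]

theorem blk (θ : ℝ) (hθ : θ < 1) (c B : ℕ) (hB : 2 * c + 15 ≤ B) : ∃ (b : ℕ) (C : ℝ), 0 < C ∧
    ∃ x0 : ℕ, ∀ x : ℕ, x0 ≤ x → ∀ a0 Q H : ℕ, Real.log x ^ b ≤ H → (H : ℝ) ^ 2 ≤ x → H ≤ Q →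
      (a0 : ℝ) ≤ (x : ℝ) ^ θ → (Q : ℝ) ≤ (x : ℝ) ^ θ →
      ∃ X : ℕ → ℕ → ℝ, (∀ a q, 0 ≤ X a q) ∧
        (∑ a ∈ Ioc a0 (a0 + H), ∑ q ∈ Ioc Q (2 * Q), X a q ≤ H * x / Real.log x ^ c) ∧
        ∀ a ∈ Ioc a0 (a0 + H), ∀ q ∈ Ioc Q (2 * Q), Nat.Coprime a q →
          |psiA x q a - (x : ℝ) / q * gR ⌊Real.log x ^ B⌋₊ q| ≤
            C * rho x H * ((x : ℝ) / q.totient) + X a q := by
  obtain ⟨η, hη, hdec⟩ := Pool.Agent.H35.W.dec ((1 - θ) / 2) (by linarith only [hθ]) B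
  obtain ⟨b0, m0, havg⟩ := blk_avg c B hB η hη
  obtain ⟨b, hb⟩ : ∃ b : ℕ, b = max b0 (3 * B + 10) := ⟨_, rfl⟩
  obtain ⟨m, hm⟩ : ∃ m : ℕ, m = max m0 20 := ⟨_, rfl⟩
  have hb0 : b0 ≤ b := hb ▸ le_max_left _ _
  have hb3 : 3 * B + 10 ≤ b := hb ▸ le_max_right _ _
  have hm0 : m0 ≤ m := hm ▸ le_max_left _ _
  have hm20 : 20 ≤ m := hm ▸ le_max_right _ _
  obtain ⟨x1, havg⟩ := havg b hb0 m hm0
  obtain ⟨x2, hdec⟩ := hdec m hm20
  obtain ⟨C0, hC0, x3, hpar⟩ := par θ hθ b (c + 3 * B + 50) (by omega)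
  obtain ⟨C, hC, x4, hpt⟩ := blk_pt θ hθ B b (c + 3 * B + 50) hb3 (by omega) C0 hC0
  obtain ⟨x5, hsq⟩ := Pool.Agent.H35.W.hr_sq B
  have hlogt : Tendsto (fun x : ℕ => Real.log (x : ℝ)) atTop atTop :=
    Real.tendsto_log_atTop.comp tendsto_natCast_atTop_atTop
  have hpowt : ∀ s : ℝ, 0 < s → ∀ᶠ x : ℕ in atTop, (12 : ℝ) ≤ (x : ℝ) ^ s := fun s hs =>
    ((tendsto_rpow_atTop hs).comp tendsto_natCast_atTop_atTop).eventually_ge_atTop 12
  have hev : ∀ᶠ x : ℕ in atTop, x1 ≤ x ∧ x2 ≤ x ∧ x3 ≤ x ∧ x4 ≤ x ∧ x5 ≤ x ∧ 2 ≤ x ∧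
      20 ≤ Real.log x ∧ (12 : ℝ) ≤ (x : ℝ) ^ ((1 - θ) / 4) ∧ (12 : ℝ) ≤ (x : ℝ) ^ (1 / 8 : ℝ) ∧
      Real.log x ^ 3 ≤ (x : ℝ) ^ ((1 - θ) / 4) ∧ Real.log x ^ 3 ≤ (x : ℝ) ^ (1 / 8 : ℝ) := by
    filter_upwards [eventually_ge_atTop x1, eventually_ge_atTop x2, eventually_ge_atTop x3,
      eventually_ge_atTop x4, eventually_ge_atTop x5, eventually_ge_atTop 2,
      hlogt.eventually_ge_atTop 20, hpowt _ (by linarith only [hθ] : (0 : ℝ) < (1 - θ) / 4),
      hpowt (1 / 8) (by norm_num), blk_ev 3 (by linarith only [hθ] : (0 : ℝ) < (1 - θ) / 4),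
      blk_ev 3 (by norm_num : (0 : ℝ) < 1 / 8)] with x h1 h2 h3 h4 h5 h6 h7 h8 h9 h10 h11
    exact ⟨h1, h2, h3, h4, h5, h6, h7, h8, h9, h10, h11⟩
  obtain ⟨x0, hev⟩ := eventually_atTop.1 hev
  refine ⟨2 * b + 2, C, hC, x0, ?_⟩
  intro x hx a0 Q H hH1 hH2 hHQ ha0 hQx
  obtain ⟨hx1, hx2, hx3, hx4, hx5, hxx, hL20, h12a, h12b, hL3a, hL3b⟩ := hev x hx
  obtain ⟨P, J, r, hP1, hP2, hPJ, hPr, hPlog, hrP, h8r, h4p, h8p, hJ⟩ := hpar x hx3 H hH1 hH2
  set L : ℝ := Real.log x with hL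
  have hL0 : 0 < L := by linarith only [hL20]
  have hL1 : 1 ≤ L := by linarith only [hL20]
  have hxR : (2 : ℝ) ≤ x := by exact_mod_cast hxx
  have hx0 : (0 : ℝ) < x := by linarith only [hxR]
  have hx1R : (1 : ℝ) ≤ x := by linarith only [hxR]
  set R : ℕ := ⌊L ^ B⌋₊ with hRdef
  -- sizes
  have hLb : L ≤ L ^ b := le_self_pow₀ hL1 (by omega)
  have hPR : (1 : ℝ) ≤ P := by linarith only [hL20, hP1, hLb]
  have hPn : 1 ≤ P := by exact_mod_cast hPR
  have hRle : (R : ℝ) ≤ L ^ B := Nat.floor_le (by positivity)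
  have hRP : R ≤ P := by
    have h1 : L ^ B * 2 ≤ L ^ b := by
      calc L ^ B * 2 ≤ L ^ B * L := by
            gcongr
            linarith only [hL20]
        _ = L ^ (B + 1) := (pow_succ _ _).symm
        _ ≤ L ^ b := pow_le_pow_right₀ hL1 (by omega)
    have h2 : (R : ℝ) ≤ P := by linarith only [hP1, hRle, h1]
    exact_mod_cast h2
  have hH0 : (2 : ℝ) ≤ H := by
    have h1 : L ≤ L ^ (2 * b + 2) := le_self_pow₀ hL1 (by omega)
    linarith only [hH1, hL20, h1]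
  have hHn : 2 ≤ H := by exact_mod_cast hH0
  have hQ1 : 1 ≤ Q := by omega
  have hPJH : ((P * 2 ^ J : ℕ) : ℝ) ≤ H := by
    have h1 : ((P * 2 ^ J : ℕ) : ℝ) * 1 ≤ ((P * 2 ^ J : ℕ) : ℝ) * L ^ b := by
      gcongr
      linarith only [hL20, hLb]
    linarith only [hPJ, h1]
  -- the parameter `M`
  obtain ⟨M, hM⟩ : ∃ M : ℕ, M = a0 + H + ⌈(x : ℝ) / L ^ 3⌉₊ := ⟨_, rfl⟩
  have hMR : (M : ℝ) = (a0 : ℝ) + H + (⌈(x : ℝ) / L ^ 3⌉₊ : ℝ) := by rw [hM]; push_cast; ring
  have hceil1 := Nat.le_ceil ((x : ℝ) / L ^ 3)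
  have hceil2 : (⌈(x : ℝ) / L ^ 3⌉₊ : ℝ) < (x : ℝ) / L ^ 3 + 1 :=
    Nat.ceil_lt_add_one (by positivity)
  have hsmall1 : 4 * (x : ℝ) ^ θ ≤ (x : ℝ) / L ^ 3 := by
    rw [le_div_iff₀ (by positivity)]
    calc 4 * (x : ℝ) ^ θ * L ^ 3 ≤ (x : ℝ) ^ ((1 - θ) / 4) * (x : ℝ) ^ θ *
          (x : ℝ) ^ ((1 - θ) / 4) := by
          gcongr
          linarith only [h12a]
      _ = (x : ℝ) ^ ((1 - θ) / 4 + θ + (1 - θ) / 4) := by
          rw [Real.rpow_add hx0, Real.rpow_add hx0]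
      _ ≤ (x : ℝ) ^ (1 : ℝ) := by
          refine Real.rpow_le_rpow_of_exponent_le hx1R ?_
          linarith only [hθ]
      _ = x := Real.rpow_one _
  have hHle : (H : ℝ) ≤ (x : ℝ) ^ (1 / 2 : ℝ) := by
    refine le_of_pow_le_pow_left₀ (n := 2) (by norm_num) (by positivity) ?_
    refine hH2.trans (le_of_eq ?_)
    rw [← Real.rpow_natCast, ← Real.rpow_mul hx0.le]
    norm_num
  have hsmall2 : 4 * (x : ℝ) ^ (1 / 2 : ℝ) ≤ (x : ℝ) / L ^ 3 := by
    rw [le_div_iff₀ (by positivity)]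
    calc 4 * (x : ℝ) ^ (1 / 2 : ℝ) * L ^ 3 ≤ (x : ℝ) ^ (1 / 8 : ℝ) * (x : ℝ) ^ (1 / 2 : ℝ) *
          (x : ℝ) ^ (1 / 8 : ℝ) := by
          gcongr
          linarith only [h12b]
      _ = (x : ℝ) ^ (1 / 8 + 1 / 2 + 1 / 8 : ℝ) := by
          rw [Real.rpow_add hx0, Real.rpow_add hx0]
      _ ≤ (x : ℝ) ^ (1 : ℝ) := by
          refine Real.rpow_le_rpow_of_exponent_le hx1R ?_
          norm_num
      _ = x := Real.rpow_one _
  have hM2 : (M : ℝ) ≤ 2 * x / L ^ 3 := by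
    have e1 : 2 * (x : ℝ) / L ^ 3 = (x : ℝ) / L ^ 3 + (x : ℝ) / L ^ 3 := by ring
    rw [hMR, e1]
    linarith only [ha0, hH0, hceil2, hsmall1, hHle, hsmall2]
  have hMx : M ≤ x := by
    have h1 : 2 * (x : ℝ) / L ^ 3 ≤ x := by
      rw [div_le_iff₀ (by positivity)]
      have h2 : L ≤ L ^ 3 := le_self_pow₀ hL1 (by norm_num)
      nlinarith only [hxR, hL20, h2]
    have h2 : (M : ℝ) ≤ x := hM2.trans h1
    exact_mod_cast h2
  have hM3 : (a0 : ℝ) + x / L ^ 3 ≤ M := by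
    rw [hMR]
    linarith only [hH0, hceil1]
  have haM : a0 + H ≤ M := by omega
  -- the decomposition
  obtain ⟨f, hf⟩ : ∃ f : ℕ → ℝ, ∀ n, f n = if n ∈ Ioc M x then hR R n else 0 := ⟨_, fun _ => rfl⟩
  have hS2f : S2 f x ≤ 15 * x * L := (blk_S2 f (hR R) M x hf).trans (hsq x hx5 x le_rfl)
  have hS2f' : S2 f x ≤ x * L ^ 2 := by
    refine hS2f.trans ?_
    have h1 : 15 * (x : ℝ) * L ≤ L * x * L := by
      gcongr
      linarith only [hL20]
    calc 15 * (x : ℝ) * L ≤ L * x * L := h1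
      _ = x * L ^ 2 := by ring
  obtain ⟨fb, g, hfg, hcor, hS2g, hfb⟩ := hdec x hx2 x M a0 H f le_rfl haM
    (fun n hn => by rw [hf n, if_pos hn]) (fun n hn => by rw [hf n, if_neg hn]) hS2f'
  have hfg' : ∀ n, fb n + g n = if n ∈ Ioc M x then hR R n else 0 := by
    intro n
    rw [← hfg n, hf n]
  refine ⟨fun a q => |∑ k ∈ fcs P J (x / Q), g (a + k * q)|
      + ∑ k ∈ Icc 1 (x / Q), tw (PP P (P * 2 ^ J)) (2 * r) k * |fb (a + k * q)|
      + ∑ k ∈ Icc 1 (x / Q), tw (PP P (P * 2 ^ J)) (2 * r) k * |vR R M x (a + k * q)|,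
    ?_, ?_, ?_⟩
  · intro a q
    have h1 : ∀ v : ℕ → ℝ, 0 ≤ ∑ k ∈ Icc 1 (x / Q),
        tw (PP P (P * 2 ^ J)) (2 * r) k * |v (a + k * q)| := fun v =>
      sum_nonneg (fun k _ => mul_nonneg (tw_nonneg _ _ _) (abs_nonneg _))
    have h2 := h1 fb
    have h3 := h1 (vR R M x)
    have h4 := abs_nonneg (∑ k ∈ fcs P J (x / Q), g (a + k * q))
    dsimp only
    linarith only [h2, h3, h4]
  · exact havg x hx1 fb g M a0 Q H P J r hcor hM3 hfg' (hS2g.trans hS2f) hQ1 hH2 hP1 hPJ h4p hJ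
  · intro a ha q hq haq
    dsimp only
    have ha' := mem_Ioc.1 ha
    have hq' := mem_Ioc.1 hq
    have ha1 : 1 ≤ a := by omega
    have hq1 : 1 ≤ q := by omega
    have haR : (a : ℝ) ≤ 2 * (x : ℝ) ^ θ := by
      have h1 : (a : ℝ) ≤ a0 + H := by exact_mod_cast ha'.2
      have h2 : (H : ℝ) ≤ Q := by exact_mod_cast hHQ
      linarith only [ha0, hQx, h1, h2]
    have hK : x < (x / Q + 1) * q := by
      have h1 : x < Q * (x / Q + 1) := Nat.lt_mul_div_succ x hQ1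
      calc x < Q * (x / Q + 1) := h1
        _ ≤ q * (x / Q + 1) := Nat.mul_le_mul_right _ hq'.1.le
        _ = (x / Q + 1) * q := mul_comm _ _
    have hpt' := pt_blk x M a q (x / Q) P J (2 * r) R fb g (1 / L ^ 40) hxx hq1 ha1 haq
      (by omega) hMx hK hRP hPn (by positivity) hfg' hcor.supp (by
        intro T hT
        obtain ⟨hT1, hT2, hT3⟩ := blk_mod θ x Q H P J r q T hx1R (by linarith only [h12a]) hθ hPn hq'.1 hq'.2
          hHQ hQx hPr hT
        refine (hfb a ha (q * pr T) hT1 hT2 hT3).trans ?_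
        have h1 : L ^ 40 ≤ L ^ (2 * m) := pow_le_pow_right₀ hL1 (by omega)
        push_cast
        rw [div_eq_mul_one_div ((x : ℝ) / ((q : ℝ) * pr T)) (L ^ (2 * m))]
        gcongr)
    have hblk := hpt x hx4 a q Q M H P J r ha1 haR hQ1 hq hQx haq hM2 hHn hH2 hP1 hP2 hPJH hPr
      hPlog hrP h8r h8p
    linarith only [hpt', hblk]

end Pool.Agent.H35.U

end

section

/-!
# U Mid: the number of bad moduli in the middle range, on average over a block

`L = log x`.  `blk θ (c+3) B` with `B = 2c + 30`: `b`, `Cb`; `pi_pt`: `Cp` (WLOG `≥ 1`).  `C = Cp (Cb + 1) + 1`.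
For `q` bad: with `E = Cb rho + X φ(q)/x + φ(q) |gR/q - 1/φ(q)|`,
`|psiA - x/φ(q)| ≤ |psiA - (x/q) gR| + x |gR/q - 1/φ(q)| ≤ E x/φ(q)`, so `pi_pt` and `l/L ≤ rho` give
`C rho π/φ(q) < |err| ≤ Cp (Cb+1) rho π/φ(q) + Cp π (X/x + |gR/q - 1/φ(q)|) + 2 pps/L`, hence
`rho π/φ(q) ≤ Cp π (X/x + |..|) + 2 pps/L`; `rho ≥ 1/L`, `π ≥ x/(2L)`, `φ(q) ≤ q ≤ 2Q`, `π ≤ 2x/L`:
`x/(4 L² Q) ≤ (2 Cp/L)(X + x |..|) + 2 pps/L`, i.e. `1 ≤ (8 L Q/x)(Cp X + Cp x |..| + pps)`.
Sum over bad `q` and over `a`: `(8 L Q/x)(Cp H x/L^(c+3) + Cp x H · C (1+log Q)²/R + pps_avg)`, `lamR_avg`,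
`R = ⌊L^B⌋₊ ≥ L^B/2`, `pps_avg ≤ H x^(4/5) + H Q L`, `Q ≤ x^θ`.  (`pps_avg` needs `a0 + H ≤ x`.)
-/

set_option autoImplicit false

namespace Pool.Agent.H35.U

open Finset
open Pool.Agent.H91.EHA (Lam psiA err)
open Pool.Agent.H87.WL (PntProp pin pps bad gR)

open Filter Topology in
private lemma mid_lim (k : ℕ) (s : ℝ) (hs : 0 < s) :
    Tendsto (fun x : ℝ => Real.log x ^ k * x ^ (-s)) atTop (𝓝 0) := by
  have h := (isLittleO_log_rpow_rpow_atTop (k : ℝ) hs).tendsto_div_nhds_zero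
  refine h.congr' ?_
  filter_upwards [eventually_gt_atTop 0] with x hx
  rw [Real.rpow_natCast, Real.rpow_neg hx.le, div_eq_mul_inv]

open Filter Topology in
/-- the conditions for large `x` -/
private lemma mid_large (θ K₁ K₂ : ℝ) (hθ : θ < 1) (c : ℕ) :
    ∃ x0 : ℕ, ∀ x : ℕ, x0 ≤ x → 3 ≤ x ∧ 1 ≤ Real.log (Real.log x) ∧
      2 * (x : ℝ) ^ θ ≤ x ∧
      K₁ / Real.log x ^ 2 + K₂ * (Real.log x ^ (c + 1) * (x : ℝ) ^ (-(1 / 5) : ℝ) +
        Real.log x ^ (c + 2) * (x : ℝ) ^ (-(1 - θ))) ≤ 1 := by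
  have hlog := Real.tendsto_log_atTop
  have e1 : ∀ᶠ x : ℝ in atTop, 3 ≤ x := eventually_ge_atTop 3
  have e2 : ∀ᶠ x : ℝ in atTop, 1 ≤ Real.log (Real.log x) :=
    (hlog.comp hlog).eventually_ge_atTop 1
  have e4 : ∀ᶠ x : ℝ in atTop, 2 ≤ x ^ (1 - θ) :=
    (tendsto_rpow_atTop (by linarith : 0 < 1 - θ)).eventually_ge_atTop 2
  have t5 : Tendsto (fun x : ℝ => K₁ / Real.log x ^ 2 + K₂ * (Real.log x ^ (c + 1) *
      x ^ (-(1 / 5) : ℝ) + Real.log x ^ (c + 2) * x ^ (-(1 - θ)))) atTop (𝓝 0) := by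
    have h1 : Tendsto (fun x : ℝ => K₁ / Real.log x ^ 2) atTop (𝓝 0) :=
      Tendsto.div_atTop tendsto_const_nhds ((tendsto_pow_atTop (by norm_num)).comp hlog)
    have h2 := (mid_lim (c + 1) (1 / 5) (by norm_num)).add (mid_lim (c + 2) (1 - θ) (by linarith))
    have h3 := h1.add (h2.const_mul K₂)
    simpa using h3
  have e5 := t5.eventually_le_const (show (0 : ℝ) < 1 by norm_num)
  have h := (e1.and (e2.and (e4.and e5)))
  have h' := tendsto_natCast_atTop_atTop.eventually (f := (Nat.cast : ℕ → ℝ)) h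
  rw [eventually_atTop] at h'
  obtain ⟨x0, hx0⟩ := h'
  refine ⟨x0, fun x hx => ?_⟩
  obtain ⟨g1, g2, g4, g5⟩ := hx0 x hx
  have hxpos : (0 : ℝ) < x := by linarith only [g1]
  refine ⟨by exact_mod_cast g1, g2, ?_, g5⟩
  calc 2 * (x : ℝ) ^ θ ≤ (x : ℝ) ^ (1 - θ) * (x : ℝ) ^ θ := by
        have := Real.rpow_nonneg hxpos.le θ
        gcongr
    _ = (x : ℝ) ^ (1 : ℝ) := by
        rw [← Real.rpow_add hxpos]
        congr 1
        ring
    _ = x := Real.rpow_one _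

theorem mid (hpnt : PntProp) (θ : ℝ) (hθ : θ < 1) (c : ℕ) : ∃ (b : ℕ) (C : ℝ), 0 < C ∧
    ∃ x0 : ℕ, ∀ x : ℕ, x0 ≤ x → ∀ a0 Q H : ℕ, Real.log x ^ b ≤ H → (H : ℝ) ^ 2 ≤ x → H ≤ Q →
      (a0 : ℝ) ≤ (x : ℝ) ^ θ → (Q : ℝ) ≤ (x : ℝ) ^ θ →
      ∑ a ∈ Ioc a0 (a0 + H), ((bad x a Q (C * rho x H)).card : ℝ) ≤ H * Q / Real.log x ^ c := by
  obtain ⟨b, Cb, hCb, x1, hblk⟩ := blk θ hθ (c + 3) (2 * c + 30) (by omega)
  obtain ⟨Cp0, hCp0, x2, hpt0⟩ := pi_pt hpnt θ hθ
  obtain ⟨x3, hlow⟩ := pi_low hpnt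
  obtain ⟨Cl, hCl, hlam⟩ := Pool.Agent.H91.EHA.lamR_avg
  obtain ⟨x4, hpps⟩ := Pool.Agent.H87.WL.pps_avg
  obtain ⟨Cp, hCp1, hCpp⟩ : ∃ Cp : ℝ, 1 ≤ Cp ∧ Cp0 ≤ Cp := ⟨max Cp0 1, le_max_right _ _, le_max_left _ _⟩
  have hCp : 0 < Cp := by linarith
  obtain ⟨x5, hx5⟩ := mid_large θ (8 * Cp + 64 * Cp * Cl) 8 hθ c
  refine ⟨b, Cp * (Cb + 1) + 1, by positivity, max (max x1 x2) (max (max x3 x4) x5),
    fun x hx a0 Q H hH hH2 hHQ ha0 hQ => ?_⟩
  have hxx1 : x1 ≤ x := le_trans (le_trans (le_max_left _ _) (le_max_left _ _)) hx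
  have hxx2 : x2 ≤ x := le_trans (le_trans (le_max_right _ _) (le_max_left _ _)) hx
  have hxx3 : x3 ≤ x :=
    le_trans (le_trans (le_trans (le_max_left _ _) (le_max_left _ _)) (le_max_right _ _)) hx
  have hxx4 : x4 ≤ x :=
    le_trans (le_trans (le_trans (le_max_right _ _) (le_max_left _ _)) (le_max_right _ _)) hx
  have hxx5 : x5 ≤ x := le_trans (le_trans (le_max_right _ _) (le_max_right _ _)) hx
  obtain ⟨hx3', hl1, h2θ, hfin⟩ := hx5 x hxx5
  have hxR : (3 : ℝ) ≤ x := by exact_mod_cast hx3'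
  have hxpos : (0 : ℝ) < x := by linarith only [hxR]
  have hx1' : (1 : ℝ) ≤ x := by linarith only [hxR]
  obtain ⟨hπ1, hπ2⟩ := hlow x hxx3
  set L := Real.log x with hL
  set l := Real.log L with hl
  have hL1 : 1 ≤ L := by
    by_contra hcon
    push Not at hcon
    have hL0 : 0 ≤ L := Real.log_nonneg hx1'
    have : l ≤ 0 := Real.log_nonpos hL0 hcon.le
    linarith only [hl1, this]
  have hL0 : 0 < L := by linarith only [hL1]
  have hxθ0 : (0 : ℝ) ≤ (x : ℝ) ^ θ := Real.rpow_nonneg hxpos.le θ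
  have hH1 : (1 : ℝ) ≤ H := (one_le_pow₀ hL1).trans hH
  have hHQ' : (H : ℝ) ≤ Q := by exact_mod_cast hHQ
  have hQ1' : (1 : ℝ) ≤ Q := hH1.trans hHQ'
  have hQ1 : 1 ≤ Q := by exact_mod_cast hQ1'
  have hQ0 : (0 : ℝ) < Q := by linarith only [hH1, hHQ']
  have hQx' : (Q : ℝ) ≤ x := by linarith only [hQ, h2θ, hxR]
  have hQx : Q ≤ x := by exact_mod_cast hQx'
  have haHx : a0 + H ≤ x := by
    have : ((a0 + H : ℕ) : ℝ) ≤ x := by
      push_cast
      linarith only [ha0, hQ, h2θ, hHQ']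
    exact_mod_cast this
  have hH0 : (0 : ℝ) ≤ H := Nat.cast_nonneg H
  -- rho
  set ρ := rho x H with hρ
  have hlogH : 0 ≤ Real.log H := Real.log_nonneg hH1
  have hρl : l / L ≤ ρ := by
    have e : ρ = l / Real.log H + l ^ 2 / L := rfl
    rw [e]
    have h1 : 0 ≤ l / Real.log H := div_nonneg (by linarith only [hl1]) hlogH
    have h2 : l / L ≤ l ^ 2 / L := div_le_div_of_nonneg_right (by nlinarith only [hl1]) hL0.le
    linarith only [h1, h2]
  have hρ1 : 1 / L ≤ ρ := (div_le_div_of_nonneg_right hl1 hL0.le).trans hρl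
  have hρ0 : 0 < ρ := lt_of_lt_of_le (by positivity) hρ1
  obtain ⟨X, hX0, hXs, hX⟩ := hblk x hxx1 a0 Q H hH hH2 hHQ ha0 hQ
  set R := ⌊L ^ (2 * c + 30)⌋₊ with hR
  have hR1 : 1 ≤ R := by
    rw [hR, Nat.one_le_floor_iff]
    exact one_le_pow₀ hL1
  have hRL : L ^ (2 * c + 30) ≤ 2 * (R : ℝ) := by
    have h1 : L ^ (2 * c + 30) < (R : ℝ) + 1 := Nat.lt_floor_add_one _
    have h3' : (1 : ℝ) ≤ (R : ℝ) := by exact_mod_cast hR1
    linarith only [h1, h3']
  have s2 := hlam R Q hR1 hQ1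
  have s3 := hpps x hxx4 a0 Q H haHx hQ1 hQx
  set V : ℕ → ℝ := fun q => |1 / (q : ℝ) * gR R q - 1 / (q.totient : ℝ)| with hVdef
  have s2' : ∑ q ∈ Ioc Q (2 * Q), V q ≤ Cl * (1 + Real.log Q) ^ 2 / (R : ℝ) := s2
  have key : ∀ a ∈ Ioc a0 (a0 + H), ∀ q ∈ bad x a Q ((Cp * (Cb + 1) + 1) * ρ),
      (1 : ℝ) ≤ 8 * L * Q / x * (Cp * X a q) + 8 * L * Q * (Cp * V q) +
        8 * L * Q / x * pps x q a := by
    intro a ha q hq
    rw [bad, mem_filter, mem_Ioc] at hq
    obtain ⟨⟨hq1, hq2⟩, hcop, hbad⟩ := hq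
    have hq2' : (q : ℝ) ≤ 2 * Q := by exact_mod_cast hq2
    have hqpos : 1 ≤ q := by omega
    have hq0 : (0 : ℝ) < q := by exact_mod_cast hqpos
    have hφ : (0 : ℝ) < q.totient := by exact_mod_cast Nat.totient_pos.2 hqpos
    have hφq : (q.totient : ℝ) ≤ 2 * Q := by
      have : (q.totient : ℝ) ≤ q := by exact_mod_cast Nat.totient_le q
      linarith only [hq2', this]
    have hXa := hX0 a q
    have hV0 : 0 ≤ V q := abs_nonneg _
    have hP0 : 0 ≤ pps x q a := Pool.Agent.H87.WL.pps_nonneg x q a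
    have h1 := hX a ha q (mem_Ioc.2 ⟨hq1, hq2⟩) hcop
    have hxV : |(x : ℝ) / q * gR R q - (x : ℝ) / q.totient| = x * V q := by
      rw [hVdef]
      simp only
      rw [← abs_of_pos hxpos, ← abs_mul]
      congr 1
      rw [abs_of_pos hxpos]
      ring
    set E : ℝ := Cb * ρ + (X a q + x * V q) * ((q.totient : ℝ) / x) with hE
    have hE0 : 0 ≤ E := by positivity
    have h2 : |psiA x q a - (x : ℝ) / q.totient| ≤ E * ((x : ℝ) / q.totient) := by
      have h3 : |psiA x q a - (x : ℝ) / q.totient| ≤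
          |psiA x q a - (x : ℝ) / q * gR R q| + |(x : ℝ) / q * gR R q - (x : ℝ) / q.totient| := by
        have := abs_add_le (psiA x q a - (x : ℝ) / q * gR R q)
          ((x : ℝ) / q * gR R q - (x : ℝ) / q.totient)
        rwa [sub_add_sub_cancel] at this
      rw [hxV] at h3
      have h4 : E * ((x : ℝ) / q.totient) = Cb * ρ * ((x : ℝ) / q.totient) + X a q + x * V q := by
        rw [hE]
        field_simp
        ring
      rw [h4]
      linarith only [h1, h3]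
    have h5 := hpt0 x hxx2 a q hqpos (by linarith only [hQ, hq2']) E hE0 h2
    have hπφ : (0 : ℝ) ≤ (Nat.primeCounting x : ℝ) / q.totient := by positivity
    have h6 : |err x q (a : ZMod q)| ≤ Cp * (E + l / L) *
        ((Nat.primeCounting x : ℝ) / q.totient) + 2 * pps x q a / L := by
      refine h5.trans ?_
      have hEl : 0 ≤ E + l / L := by positivity
      have h7 : Cp0 * (E + l / L) * ((Nat.primeCounting x : ℝ) / q.totient) ≤
          Cp * (E + l / L) * ((Nat.primeCounting x : ℝ) / q.totient) :=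
        mul_le_mul_of_nonneg_right (mul_le_mul_of_nonneg_right hCpp hEl) hπφ
      linarith only [h7]
    have h8 : Cp * (E + l / L) * ((Nat.primeCounting x : ℝ) / q.totient) ≤
        Cp * (Cb + 1) * ρ * ((Nat.primeCounting x : ℝ) / q.totient) +
          Cp * (X a q + x * V q) * ((Nat.primeCounting x : ℝ) / x) := by
      have e1 : Cp * (Cb + 1) * ρ * ((Nat.primeCounting x : ℝ) / q.totient) +
          Cp * (X a q + x * V q) * ((Nat.primeCounting x : ℝ) / x) =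
          Cp * (E + ρ) * ((Nat.primeCounting x : ℝ) / q.totient) := by
        rw [hE]
        field_simp
        ring
      rw [e1]
      exact mul_le_mul_of_nonneg_right (mul_le_mul_of_nonneg_left (by linarith only [hρl]) hCp.le) hπφ
    have h9 : ρ * ((Nat.primeCounting x : ℝ) / q.totient) ≤
        Cp * (X a q + x * V q) * ((Nat.primeCounting x : ℝ) / x) + 2 * pps x q a / L := by
      have h10 : ((Cp * (Cb + 1) + 1) * ρ) * ((Nat.primeCounting x : ℝ) / q.totient) =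
          Cp * (Cb + 1) * ρ * ((Nat.primeCounting x : ℝ) / q.totient) +
          ρ * ((Nat.primeCounting x : ℝ) / q.totient) := by ring
      rw [h10] at hbad
      linarith only [hbad, h6, h8]
    have h11 : (x : ℝ) / (4 * L ^ 2 * Q) ≤ ρ * ((Nat.primeCounting x : ℝ) / q.totient) := by
      have h12 : (x : ℝ) / (2 * L) / (2 * Q) ≤ (Nat.primeCounting x : ℝ) / q.totient :=
        div_le_div₀ (by positivity) hπ1 hφ hφq
      calc (x : ℝ) / (4 * L ^ 2 * Q) = 1 / L * ((x : ℝ) / (2 * L) / (2 * Q)) := by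
            field_simp
            norm_num
        _ ≤ ρ * ((Nat.primeCounting x : ℝ) / q.totient) :=
            mul_le_mul hρ1 h12 (by positivity) hρ0.le
    have h13 : Cp * (X a q + x * V q) * ((Nat.primeCounting x : ℝ) / x) ≤
        Cp * (X a q + x * V q) * (2 / L) := by
      refine mul_le_mul_of_nonneg_left ?_ (by positivity)
      rw [div_le_iff₀ hxpos]
      calc (Nat.primeCounting x : ℝ) ≤ 2 * x / L := hπ2
        _ = 2 / L * x := by ring
    have h14 : (x : ℝ) / (4 * L ^ 2 * Q) ≤ Cp * (X a q + x * V q) * (2 / L) + 2 * pps x q a / L := by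
      linarith only [hbad, h6, h8, h11, h13]
    have h15 : (1 : ℝ) = 4 * L ^ 2 * Q / x * ((x : ℝ) / (4 * L ^ 2 * Q)) := by
      field_simp
    rw [h15]
    calc 4 * L ^ 2 * Q / x * ((x : ℝ) / (4 * L ^ 2 * Q)) ≤
        4 * L ^ 2 * Q / x * (Cp * (X a q + x * V q) * (2 / L) + 2 * pps x q a / L) :=
          mul_le_mul_of_nonneg_left h14 (by positivity)
      _ = _ := by
          field_simp
          ring
  have hcard : ∑ a ∈ Ioc a0 (a0 + H), ((bad x a Q ((Cp * (Cb + 1) + 1) * ρ)).card : ℝ) ≤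
      ∑ a ∈ Ioc a0 (a0 + H), ∑ q ∈ Ioc Q (2 * Q),
        (8 * L * Q / x * (Cp * X a q) + 8 * L * Q * (Cp * V q) +
        8 * L * Q / x * pps x q a) := by
    refine sum_le_sum fun a ha => ?_
    rw [card_eq_sum_ones]
    push_cast
    calc ∑ q ∈ bad x a Q ((Cp * (Cb + 1) + 1) * ρ), (1 : ℝ) ≤
          ∑ q ∈ bad x a Q ((Cp * (Cb + 1) + 1) * ρ),
          (8 * L * Q / x * (Cp * X a q) + 8 * L * Q * (Cp * V q) +
          8 * L * Q / x * pps x q a) :=
          sum_le_sum (key a ha)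
      _ ≤ _ := by
          refine sum_le_sum_of_subset_of_nonneg (filter_subset _ _) fun q _ _ => ?_
          have hXa := hX0 a q
          have hV0 : 0 ≤ V q := abs_nonneg _
          have hP0 : 0 ≤ pps x q a := Pool.Agent.H87.WL.pps_nonneg x q a
          positivity
  have hsplit : ∑ a ∈ Ioc a0 (a0 + H), ∑ q ∈ Ioc Q (2 * Q),
        (8 * L * Q / x * (Cp * X a q) + 8 * L * Q * (Cp * V q) +
        8 * L * Q / x * pps x q a) =
      8 * L * Q / x * (Cp * (∑ a ∈ Ioc a0 (a0 + H), ∑ q ∈ Ioc Q (2 * Q), X a q)) +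
      8 * L * Q * (H * (Cp * ∑ q ∈ Ioc Q (2 * Q), V q)) +
      8 * L * Q / x * (∑ a ∈ Ioc a0 (a0 + H), ∑ q ∈ Ioc Q (2 * Q), pps x q a) := by
    simp only [sum_add_distrib, ← mul_sum, sum_const, Nat.card_Ioc, nsmul_eq_mul,
      Nat.add_sub_cancel_left]
    ring
  refine (hcard.trans_eq hsplit).trans ?_
  -- the final estimate
  have hlogQ : Real.log Q ≤ L := Real.log_le_log hQ0 hQx'
  have hlogQ0 : 0 ≤ Real.log Q := Real.log_nonneg hQ1'
  have b2 : ∑ q ∈ Ioc Q (2 * Q), V q ≤ 8 * Cl / L ^ (c + 3) := by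
    refine s2'.trans ?_
    have hR0 : (0 : ℝ) < R := by exact_mod_cast hR1
    rw [div_le_div_iff₀ hR0 (by positivity)]
    have h1 : (1 + Real.log Q) ^ 2 ≤ (2 * L) ^ 2 := by
      gcongr
      linarith only [hL1, hlogQ]
    have h2 : L ^ (c + 3) * L ^ 2 ≤ L ^ (2 * c + 30) := by
      rw [← pow_add]
      exact pow_le_pow_right₀ hL1 (by omega)
    calc Cl * (1 + Real.log Q) ^ 2 * L ^ (c + 3) ≤ Cl * (2 * L) ^ 2 * L ^ (c + 3) := by gcongr
      _ = 4 * Cl * (L ^ (c + 3) * L ^ 2) := by ring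
      _ ≤ 4 * Cl * L ^ (2 * c + 30) := by gcongr
      _ ≤ 4 * Cl * (2 * R) := by gcongr
      _ = 8 * Cl * R := by ring
  have x15 : (x : ℝ) ^ ((4 : ℝ) / 5) = x * (x : ℝ) ^ (-(1 / 5) : ℝ) := by
    rw [← Real.rpow_one_add' hxpos.le (by norm_num)]
    norm_num
  have xθ : (x : ℝ) ^ θ ≤ x * (x : ℝ) ^ (-(1 - θ)) := by
    refine le_of_eq ?_
    nth_rewrite 2 [← Real.rpow_one (x : ℝ)]
    rw [← Real.rpow_add hxpos]
    congr 1
    ring
  have hx1θ : 0 ≤ (x : ℝ) ^ (-(1 - θ)) := Real.rpow_nonneg hxpos.le _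
  have hx15 : 0 ≤ (x : ℝ) ^ (-(1 / 5) : ℝ) := Real.rpow_nonneg hxpos.le _
  calc 8 * L * Q / x * (Cp * (∑ a ∈ Ioc a0 (a0 + H), ∑ q ∈ Ioc Q (2 * Q), X a q)) +
      8 * L * Q * (H * (Cp * ∑ q ∈ Ioc Q (2 * Q), V q)) +
      8 * L * Q / x * (∑ a ∈ Ioc a0 (a0 + H), ∑ q ∈ Ioc Q (2 * Q), pps x q a)
      ≤ 8 * L * Q / x * (Cp * (H * x / L ^ (c + 3))) +
      8 * L * Q * (H * (Cp * (8 * Cl / L ^ (c + 3)))) +
      8 * L * Q / x * (H * (x * (x : ℝ) ^ (-(1 / 5) : ℝ)) +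
        H * (x * (x : ℝ) ^ (-(1 - θ))) * L) := by
        have h3 : ∑ a ∈ Ioc a0 (a0 + H), ∑ q ∈ Ioc Q (2 * Q), pps x q a ≤
            H * (x * (x : ℝ) ^ (-(1 / 5) : ℝ)) + H * (x * (x : ℝ) ^ (-(1 - θ))) * L := by
          refine s3.trans ?_
          rw [← x15]
          gcongr
          exact hQ.trans xθ
        gcongr
    _ = H * Q / L ^ c * ((8 * Cp + 64 * Cp * Cl) / L ^ 2 + 8 *
        (L ^ (c + 1) * (x : ℝ) ^ (-(1 / 5) : ℝ) + L ^ (c + 2) * (x : ℝ) ^ (-(1 - θ)))) := by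
        rw [show L ^ (c + 3) = L ^ c * L ^ 3 by rw [pow_add],
          show L ^ (c + 1) = L ^ c * L by rw [pow_succ],
          show L ^ (c + 2) = L ^ c * L ^ 2 by rw [pow_add]]
        field_simp
        ring
    _ ≤ H * Q / L ^ c * 1 := by
        gcongr
    _ = H * Q / L ^ c := by rw [mul_one]

end Pool.Agent.H35.U

end

section

/-!
# U Fin: the theorem for one `x`

Copy the structure of `WL.Fin` (`main`): `fin_markov`, `fin_cover`, `fin_block`, `fin_bad_subset`.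
`mid` with `2c+4` (or larger): `b`, `C`; the block length is `H1 = min H ⌊x^(1/10)⌋₊` (`L^b ≤ H1`, `H1² ≤ x`); the
dyadic `Q = 2^j ≤ x^θ` with `Q ≤ x^(1/4)` is done by `sm` (`bad` is antitone in `η`, `1/L ≤ C1 rho x H` for
`C1 ≥ 1`), the others (`Q > x^(1/4) ≥ H1`) by `mid` on each of the `H/H1 + 1` blocks, `fin_block`.
`rho x H1 ≤ 12 rho x H`: if `H1 = H` clear; otherwise `log H1 ≥ (log x)/11`, `l/log H1 ≤ 11 l/L ≤ 11 l²/L` and
`l²/L ≤ rho x H`.  So `12 C` in place of `C`.  General `Q`: `2^j ≤ Q < 2^(j+1)` and `fin_bad_subset`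
(`2^(j+1) ≤ 2Q ≤ 2x^θ ≤ x^θ'` with `θ' = (1+θ)/2`: use `mid` with `θ'`), as in `WL.Fin`.
-/

set_option autoImplicit false

namespace Pool.Agent.H35.U

open Finset
open Pool.Agent.H87.WL (PntProp BVProp bad)

/-- Markov -/
private theorem fin_markov (S : Finset ℕ) (f : ℕ → ℝ) (hf : ∀ a, 0 ≤ f a) (t : ℝ) (ht : 0 < t) :
    ((S.filter (fun a => t < f a)).card : ℝ) ≤ (∑ a ∈ S, f a) / t := by
  rw [le_div_iff₀ ht]
  calc ((S.filter (fun a => t < f a)).card : ℝ) * t = (S.filter (fun a => t < f a)).card • t := by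
        rw [nsmul_eq_mul]
    _ ≤ ∑ a ∈ S.filter (fun a => t < f a), f a :=
        Finset.card_nsmul_le_sum _ _ _ fun a ha => (Finset.mem_filter.1 ha).2.le
    _ ≤ ∑ a ∈ S, f a :=
        Finset.sum_le_sum_of_subset_of_nonneg (Finset.filter_subset _ _) fun a _ _ => hf a

/-- covering by short intervals -/
private theorem fin_cover (a0 H H1 : ℕ) (h1 : 1 ≤ H1) (p : ℕ → Prop) [DecidablePred p] :
    (Ioc a0 (a0 + H)).filter p ⊆
      (range (H / H1 + 1)).biUnion (fun i =>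
        (Ioc (a0 + i * H1) (a0 + i * H1 + H1)).filter p) := by
  intro a ha
  rw [mem_filter, mem_Ioc] at ha
  rw [mem_biUnion]
  refine ⟨(a - a0 - 1) / H1, ?_, ?_⟩
  · rw [mem_range]
    have : (a - a0 - 1) / H1 ≤ H / H1 := Nat.div_le_div_right (by omega)
    omega
  · rw [mem_filter, mem_Ioc]
    have e1 := Nat.div_mul_le_self (a - a0 - 1) H1
    have e2 := Nat.lt_div_mul_add (a := a - a0 - 1) (b := H1) (by omega)
    refine ⟨⟨by omega, by omega⟩, ha.2⟩

/-- one block of moduli -/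
private theorem fin_block (x : ℕ) (η L : ℝ) (hL : 3 ≤ L) (c a0 H H1 Q : ℕ) (h1 : 1 ≤ H1)
    (hHH : H1 ≤ H) (hQ : 1 ≤ Q)
    (hmid : ∀ i, i < H / H1 + 1 →
      ∑ a ∈ Ioc (a0 + i * H1) (a0 + i * H1 + H1), ((bad x a Q η).card : ℝ) ≤
        H1 * Q / L ^ (2 * c + 4)) :
    (((Ioc a0 (a0 + H)).filter (fun a => (Q : ℝ) / L ^ (c + 1) < (bad x a Q η).card)).card : ℝ) ≤
      2 * H / L ^ (c + 3) := by
  have hL0 : 0 < L := by linarith only [hL]
  have hQ0 : (0 : ℝ) < Q := by exact_mod_cast hQ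
  have ht : 0 < (Q : ℝ) / L ^ (c + 1) := by positivity
  have hc1 := Finset.card_le_card (fin_cover a0 H H1 h1
    (fun a => (Q : ℝ) / L ^ (c + 1) < (bad x a Q η).card))
  have hc2 := hc1.trans Finset.card_biUnion_le
  have hc3 : (((Ioc a0 (a0 + H)).filter
      (fun a => (Q : ℝ) / L ^ (c + 1) < (bad x a Q η).card)).card : ℝ) ≤
      ∑ i ∈ range (H / H1 + 1), (((Ioc (a0 + i * H1) (a0 + i * H1 + H1)).filter
        (fun a => (Q : ℝ) / L ^ (c + 1) < (bad x a Q η).card)).card : ℝ) := by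
    exact_mod_cast hc2
  refine hc3.trans ?_
  have hterm : ∀ i ∈ range (H / H1 + 1), (((Ioc (a0 + i * H1) (a0 + i * H1 + H1)).filter
      (fun a => (Q : ℝ) / L ^ (c + 1) < (bad x a Q η).card)).card : ℝ) ≤ H1 / L ^ (c + 3) := by
    intro i hi
    refine (fin_markov _ (fun a => ((bad x a Q η).card : ℝ)) (fun a => Nat.cast_nonneg _) _
      ht).trans ?_
    rw [div_le_iff₀ ht]
    refine (hmid i (mem_range.1 hi)).trans (le_of_eq ?_)
    have e : L ^ (2 * c + 4) = L ^ (c + 3) * L ^ (c + 1) := by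
      rw [← pow_add]
      congr 1
      omega
    rw [e]
    field_simp
  refine (Finset.sum_le_sum hterm).trans ?_
  rw [Finset.sum_const, card_range, nsmul_eq_mul, ← mul_div_assoc]
  refine div_le_div_of_nonneg_right ?_ (by positivity)
  have hm : (H / H1 + 1) * H1 ≤ 2 * H := by
    have := Nat.div_mul_le_self H H1
    rw [Nat.add_mul, one_mul]
    omega
  exact_mod_cast hm

private theorem fin_bad_subset (x a Q : ℕ) (η : ℝ) (j : ℕ) (h1 : 2 ^ j ≤ Q) (h2 : Q < 2 ^ (j + 1)) :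
    bad x a Q η ⊆ bad x a (2 ^ j) η ∪ bad x a (2 ^ (j + 1)) η := by
  intro q hq
  unfold bad at hq ⊢
  rw [mem_filter, mem_Ioc] at hq
  have e : 2 ^ (j + 1) = 2 * 2 ^ j := by rw [pow_succ]; ring
  rw [mem_union, mem_filter, mem_filter, mem_Ioc, mem_Ioc]
  by_cases h : q ≤ 2 * 2 ^ j
  · left
    exact ⟨⟨by omega, h⟩, hq.2⟩
  · right
    exact ⟨⟨by omega, by omega⟩, hq.2⟩

/-- `bad` is antitone in the threshold -/
private theorem fin_anti (x a Q : ℕ) (η η' : ℝ) (h : η ≤ η') : bad x a Q η' ⊆ bad x a Q η := by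
  intro q hq
  unfold bad at hq ⊢
  rw [mem_filter] at hq ⊢
  refine ⟨hq.1, hq.2.1, lt_of_le_of_lt ?_ hq.2.2⟩
  exact mul_le_mul_of_nonneg_right h (by positivity)

/-- `rho` for the shorter blocks -/
private theorem fin_rho (x H H1 : ℕ) (L l : ℝ) (hL : L = Real.log x) (hl : l = Real.log L)
    (hL0 : 0 < L) (hl1 : 1 ≤ l) (h : H1 = H ∨ L / 11 ≤ Real.log H1) :
    rho x H1 ≤ 12 * rho x H := by
  unfold rho
  rw [← hL, ← hl]
  have hH : 0 ≤ Real.log H := Real.log_natCast_nonneg H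
  have e1 : 0 ≤ l / Real.log H := div_nonneg (by linarith) hH
  have e2 : 0 ≤ l ^ 2 / L := by positivity
  rcases h with h | h
  · rw [h]
    linarith only [e1, e2]
  · have e3 : l / Real.log H1 ≤ l / (L / 11) :=
      div_le_div_of_nonneg_left (by linarith only [hl1]) (by positivity) h
    have e4 : l / (L / 11) = 11 * (l / L) := by field_simp
    have e5 : l / L ≤ l ^ 2 / L := by
      refine div_le_div_of_nonneg_right ?_ hL0.le
      nlinarith only [hl1]
    rw [e4] at e3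
    linarith only [e1, e3, e5]

theorem main1 (hpnt : PntProp) (hBV : BVProp) (θ : ℝ) (hθ : θ < 1) (c : ℕ) : ∃ C x0 : ℕ,
    ∀ x : ℕ, x0 ≤ x → ∀ a0 H : ℕ, Real.log x ^ C ≤ H → ((a0 + H : ℕ) : ℝ) ≤ (x : ℝ) ^ θ →
      ∃ E ⊆ Ioc a0 (a0 + H), (E.card : ℝ) ≤ H / Real.log x ^ c ∧
        ∀ a ∈ Ioc a0 (a0 + H), a ∉ E → ∀ Q : ℕ, (Q : ℝ) ≤ (x : ℝ) ^ θ →
          ((bad x a Q (C * rho x H)).card : ℝ) ≤ Q / Real.log x ^ c := by
  set θ' : ℝ := (1 + max θ (1 / 2)) / 2 with hθ'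
  have hm1 : θ ≤ max θ (1 / 2) := le_max_left _ _
  have hm2 : (1 / 2 : ℝ) ≤ max θ (1 / 2) := le_max_right _ _
  have hm3 : max θ (1 / 2) < 1 := max_lt hθ (by norm_num)
  have hθ'0 : 0 < θ' := by rw [hθ']; linarith only [hm2]
  have hθ'1 : θ' < 1 := by rw [hθ']; linarith only [hm3]
  have hθθ' : 0 < θ' - θ := by rw [hθ']; linarith only [hθ', hm1, hθ'1]
  obtain ⟨b, Cm, hCm, x1, hmid⟩ := mid hpnt θ' hθ'1 (2 * c + 4)
  obtain ⟨x2, hsmall⟩ := sm hBV hpnt (c + 1)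
  set C : ℕ := max b (⌈12 * Cm⌉₊ + 1) with hC
  have hCb : b ≤ C := le_max_left _ _
  have hC1 : (1 : ℝ) ≤ C := by
    have : 1 ≤ C := le_trans (by omega) (le_max_right b (⌈12 * Cm⌉₊ + 1))
    exact_mod_cast this
  have hC12 : 12 * Cm ≤ C := by
    have e1 : 12 * Cm ≤ (⌈12 * Cm⌉₊ : ℝ) := Nat.le_ceil _
    have e2 : ((⌈12 * Cm⌉₊ : ℕ) : ℝ) ≤ C := by
      have : ⌈12 * Cm⌉₊ ≤ C := le_trans (by omega) (le_max_right b (⌈12 * Cm⌉₊ + 1))
      exact_mod_cast this
    linarith only [e1, e2]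
  have tl : Filter.Tendsto (fun x : ℕ => Real.log (x : ℝ)) Filter.atTop Filter.atTop :=
    Real.tendsto_log_atTop.comp tendsto_natCast_atTop_atTop
  have ev1 : ∀ᶠ x : ℕ in Filter.atTop, (3 : ℝ) ≤ Real.log x := tl.eventually_ge_atTop 3
  have ev2 : ∀ᶠ x : ℕ in Filter.atTop, (2 : ℝ) ≤ (x : ℝ) ^ (θ' - θ) :=
    ((tendsto_rpow_atTop hθθ').comp tendsto_natCast_atTop_atTop).eventually_ge_atTop 2
  have ev3 : ∀ᶠ x : ℕ in Filter.atTop, (1 : ℝ) ≤ Real.log (Real.log x) :=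
    (Real.tendsto_log_atTop.comp tl).eventually_ge_atTop 1
  have ev4 : ∀ᶠ x : ℕ in Filter.atTop, Real.log (x : ℝ) ^ b ≤ (x : ℝ) ^ ((1 : ℝ) / 20) := by
    have h0 : (fun x : ℝ => Real.log x ^ b) =o[Filter.atTop] fun x : ℝ => x ^ ((1 : ℝ) / 20) := by
      have := isLittleO_log_rpow_rpow_atTop (b : ℝ) (s := (1 : ℝ) / 20) (by norm_num)
      simpa [Real.rpow_natCast] using this
    have h1 := (h0.bound (c := 1) (by norm_num))
    have h2 := tendsto_natCast_atTop_atTop (R := ℝ) |>.eventually (h1.and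
      (Filter.eventually_ge_atTop (1 : ℝ)))
    filter_upwards [h2] with x hx
    have e1 : 0 ≤ Real.log (x : ℝ) := Real.log_nonneg hx.2
    have e2 : 0 ≤ (x : ℝ) ^ ((1 : ℝ) / 20) := by positivity
    have := hx.1
    rw [Real.norm_of_nonneg (by positivity), Real.norm_of_nonneg e2, one_mul] at this
    exact this
  have ev5 : ∀ᶠ x : ℕ in Filter.atTop, (2 : ℝ) ≤ (x : ℝ) ^ ((1 : ℝ) / 110) :=
    ((tendsto_rpow_atTop (by norm_num)).comp tendsto_natCast_atTop_atTop).eventually_ge_atTop 2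
  obtain ⟨x3, hx3⟩ := Filter.eventually_atTop.1
    (ev1.and (ev2.and (ev3.and (ev4.and (ev5.and (Filter.eventually_ge_atTop 1))))))
  refine ⟨C, max (max x1 x2) x3, fun x hx a0 H hH haH => ?_⟩
  obtain ⟨hL, hx2, hl1, hLb, hx110, hx1n⟩ := hx3 x (le_trans (le_max_right _ _) hx)
  have hxx1 : x1 ≤ x := le_trans (le_trans (le_max_left _ _) (le_max_left _ _)) hx
  have hxx2 : x2 ≤ x := le_trans (le_trans (le_max_right _ _) (le_max_left _ _)) hx
  set L : ℝ := Real.log x with hLdef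
  have hL0 : 0 < L := by linarith only [hL]
  have hx1r : (1 : ℝ) ≤ x := by exact_mod_cast hx1n
  have hx0 : (0 : ℝ) < x := by linarith only [hx1r]
  have hxθ : 2 * (x : ℝ) ^ θ ≤ (x : ℝ) ^ θ' := by
    have e : (x : ℝ) ^ θ' = (x : ℝ) ^ (θ' - θ) * (x : ℝ) ^ θ := by
      rw [← Real.rpow_add hx0]
      congr 1
      ring
    rw [e]
    exact mul_le_mul_of_nonneg_right hx2 (by positivity)
  have hxθ0 : 0 < (x : ℝ) ^ θ := Real.rpow_pos_of_pos hx0 _
  have hxθ1 : (x : ℝ) ^ θ ≤ x := by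
    calc (x : ℝ) ^ θ ≤ (x : ℝ) ^ (1 : ℝ) := Real.rpow_le_rpow_of_exponent_le hx1r hθ.le
      _ = x := Real.rpow_one _
  -- the length of the blocks
  have hT : 2 * (x : ℝ) ^ ((1 : ℝ) / 11) ≤ (x : ℝ) ^ ((1 : ℝ) / 10) := by
    have e : (x : ℝ) ^ ((1 : ℝ) / 10) = (x : ℝ) ^ ((1 : ℝ) / 110) * (x : ℝ) ^ ((1 : ℝ) / 11) := by
      rw [← Real.rpow_add hx0]
      norm_num
    rw [e]
    exact mul_le_mul_of_nonneg_right hx110 (by positivity)
  have hx11 : 1 ≤ (x : ℝ) ^ ((1 : ℝ) / 11) := Real.one_le_rpow hx1r (by norm_num)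
  have hTf : (x : ℝ) ^ ((1 : ℝ) / 11) ≤ (⌊(x : ℝ) ^ ((1 : ℝ) / 10)⌋₊ : ℝ) := by
    have := Nat.lt_floor_add_one ((x : ℝ) ^ ((1 : ℝ) / 10))
    linarith only [hT, hx11, this]
  have hTf2 : (⌊(x : ℝ) ^ ((1 : ℝ) / 10)⌋₊ : ℝ) ≤ (x : ℝ) ^ ((1 : ℝ) / 10) :=
    Nat.floor_le (by positivity)
  set T : ℕ := ⌊(x : ℝ) ^ ((1 : ℝ) / 10)⌋₊ with hTdef
  set H1 : ℕ := min H T with hH1
  have hLC : 1 ≤ L ^ C := one_le_pow₀ (by linarith only [hL])
  have hHpos : 1 ≤ H := by
    have : (1 : ℝ) ≤ H := hLC.trans hH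
    exact_mod_cast this
  have hTpos : 1 ≤ T := by
    have : (1 : ℝ) ≤ T := hx11.trans hTf
    exact_mod_cast this
  have h1 : 1 ≤ H1 := le_min hHpos hTpos
  have hHH : H1 ≤ H := min_le_left _ _
  have hH1b : L ^ b ≤ H1 := by
    have e1 : L ^ b ≤ H := (pow_le_pow_right₀ (by linarith only [hL]) hCb).trans hH
    have e2 : L ^ b ≤ T := by
      refine hLb.trans (le_trans ?_ hTf)
      exact Real.rpow_le_rpow_of_exponent_le hx1r (by norm_num)
    have e3 : ((min H T : ℕ) : ℝ) = min (H : ℝ) (T : ℝ) := by push_cast; rfl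
    rw [hH1, e3]
    exact le_min e1 e2
  have hH1T : (H1 : ℝ) ≤ (x : ℝ) ^ ((1 : ℝ) / 10) := by
    have : (H1 : ℝ) ≤ T := by exact_mod_cast min_le_right H T
    linarith only [hTf2, this]
  have hH1sq : (H1 : ℝ) ^ 2 ≤ x := by
    have e0 : (0 : ℝ) ≤ H1 := Nat.cast_nonneg _
    calc (H1 : ℝ) ^ 2 ≤ ((x : ℝ) ^ ((1 : ℝ) / 10)) ^ 2 := pow_le_pow_left₀ e0 hH1T 2
      _ = (x : ℝ) ^ ((1 : ℝ) / 5) := by
          rw [← Real.rpow_natCast, ← Real.rpow_mul hx0.le]
          norm_num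
      _ ≤ (x : ℝ) ^ (1 : ℝ) := Real.rpow_le_rpow_of_exponent_le hx1r (by norm_num)
      _ = x := Real.rpow_one _
  have hH1q : (H1 : ℝ) ≤ (x : ℝ) ^ ((1 : ℝ) / 4) :=
    hH1T.trans (Real.rpow_le_rpow_of_exponent_le hx1r (by norm_num))
  -- the thresholds
  have hrho1 : rho x H1 ≤ 12 * rho x H := by
    refine fin_rho x H H1 L (Real.log L) hLdef rfl hL0 hl1 ?_
    rcases le_total H T with h | h
    · left
      exact min_eq_left h
    · right
      have e1 : H1 = T := min_eq_right h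
      rw [e1]
      have e2 : Real.log ((x : ℝ) ^ ((1 : ℝ) / 11)) ≤ Real.log (T : ℝ) :=
        Real.log_le_log (by positivity) hTf
      rw [Real.log_rpow hx0] at e2
      linarith only [e2]
  have hrhoL : 1 / L ≤ rho x H := by
    unfold rho
    rw [← hLdef]
    have e1 : 0 ≤ Real.log L / Real.log H :=
      div_nonneg (by linarith only [hl1]) (Real.log_natCast_nonneg H)
    have e2 : 1 / L ≤ Real.log L ^ 2 / L := div_le_div_of_nonneg_right (by nlinarith only [hl1]) hL0.le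
    linarith only [e1, e2]
  have hrho0 : 0 ≤ rho x H := le_trans (by positivity) hrhoL
  set η : ℝ := C * rho x H with hη
  have hη1 : Cm * rho x H1 ≤ η := by
    have e1 : Cm * rho x H1 ≤ Cm * (12 * rho x H) := mul_le_mul_of_nonneg_left hrho1 hCm.le
    have e2 : 12 * Cm * rho x H ≤ C * rho x H := mul_le_mul_of_nonneg_right hC12 hrho0
    rw [hη]
    linarith only [e1, e2]
  have hη2 : 1 / L ≤ η := by
    have e1 : 1 * rho x H ≤ C * rho x H := mul_le_mul_of_nonneg_right hC1 hrho0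
    rw [hη]
    linarith only [hrhoL, e1]
  have hsm : ∀ a Q : ℕ, 1 ≤ Q → (Q : ℝ) ≤ (x : ℝ) ^ ((1 : ℝ) / 4) →
      ((bad x a Q η).card : ℝ) ≤ Q / L ^ (c + 1) := by
    intro a Q hQ1 hQ2
    refine le_trans ?_ (hsmall x hxx2 a Q hQ1 hQ2)
    exact_mod_cast Finset.card_le_card (fin_anti x a Q _ _ hη2)
  -- the relevant exponents
  set J : Finset ℕ := (range (⌊2 * L⌋₊ + 1)).filter
    (fun j => (x : ℝ) ^ ((1 : ℝ) / 4) ≤ (2 : ℝ) ^ j ∧ (2 : ℝ) ^ j ≤ 2 * (x : ℝ) ^ θ) with hJ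
  have hJcard : (J.card : ℝ) ≤ 3 * L := by
    have e1 : J.card ≤ ⌊2 * L⌋₊ + 1 := by
      refine (Finset.card_filter_le _ _).trans ?_
      rw [card_range]
    have e2 : (J.card : ℝ) ≤ (⌊2 * L⌋₊ : ℝ) + 1 := by exact_mod_cast e1
    have e3 : (⌊2 * L⌋₊ : ℝ) ≤ 2 * L := Nat.floor_le (by linarith only [hL])
    linarith only [hL, e2, e3]
  have hJmem : ∀ j : ℕ, (x : ℝ) ^ ((1 : ℝ) / 4) ≤ (2 : ℝ) ^ j → (2 : ℝ) ^ j ≤ 2 * (x : ℝ) ^ θ →
      j ∈ J := by
    intro j e1 e2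
    rw [hJ, mem_filter, mem_range]
    refine ⟨?_, e1, e2⟩
    have e3 : (2 : ℝ) ^ j ≤ 2 * x := e2.trans (by linarith only [hxθ1])
    have e4 : (j : ℝ) * Real.log 2 ≤ Real.log 2 + L := by
      rw [← Real.log_pow, hLdef, ← Real.log_mul (by norm_num) hx0.ne']
      exact Real.log_le_log (by positivity) e3
    have e5 := Real.log_two_gt_d9
    have e6 := Real.log_two_lt_d9
    have e7 : (j : ℝ) ≤ 2 * L := by
      by_contra hcon
      push Not at hcon
      have e8 : 2 * L * (0.69 : ℝ) ≤ (j : ℝ) * Real.log 2 :=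
        mul_le_mul hcon.le (by linarith only [e5, e6]) (by norm_num) (by positivity)
      linarith only [hL, e4, e5, e6, e8]
    have := Nat.le_floor e7
    omega
  classical
  set E : Finset ℕ := (Ioc a0 (a0 + H)).filter (fun a => ∃ j ∈ J,
    ((2 ^ j : ℕ) : ℝ) / L ^ (c + 1) < (bad x a (2 ^ j) η).card) with hE
  refine ⟨E, Finset.filter_subset _ _, ?_, ?_⟩
  · have hsub : E ⊆ J.biUnion (fun j => (Ioc a0 (a0 + H)).filter
        (fun a => ((2 ^ j : ℕ) : ℝ) / L ^ (c + 1) < (bad x a (2 ^ j) η).card)) := by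
      intro a ha
      rw [hE, mem_filter] at ha
      obtain ⟨j, hj, hj2⟩ := ha.2
      rw [mem_biUnion]
      exact ⟨j, hj, mem_filter.2 ⟨ha.1, hj2⟩⟩
    have hc1 := (Finset.card_le_card hsub).trans Finset.card_biUnion_le
    have hc2 : (E.card : ℝ) ≤ ∑ j ∈ J, (((Ioc a0 (a0 + H)).filter
        (fun a => ((2 ^ j : ℕ) : ℝ) / L ^ (c + 1) < (bad x a (2 ^ j) η).card)).card : ℝ) := by
      exact_mod_cast hc1
    refine hc2.trans ?_
    have hterm : ∀ j ∈ J, (((Ioc a0 (a0 + H)).filter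
        (fun a => ((2 ^ j : ℕ) : ℝ) / L ^ (c + 1) < (bad x a (2 ^ j) η).card)).card : ℝ) ≤
        2 * H / L ^ (c + 3) := by
      intro j hj
      rw [hJ, mem_filter] at hj
      refine fin_block x η L hL c a0 H H1 (2 ^ j) h1 hHH (Nat.one_le_two_pow) fun i hi => ?_
      have hb : ((a0 + i * H1 : ℕ) : ℝ) ≤ (x : ℝ) ^ θ' := by
        have e1 : a0 + i * H1 ≤ a0 + H := by
          have e2 : i * H1 ≤ H / H1 * H1 := Nat.mul_le_mul_right _ (by omega)
          have e3 := Nat.div_mul_le_self H H1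
          omega
        have e2 : ((a0 + i * H1 : ℕ) : ℝ) ≤ ((a0 + H : ℕ) : ℝ) := by exact_mod_cast e1
        linarith only [haH, hxθ, hxθ0, e2]
      have hmm := hmid x hxx1 (a0 + i * H1) (2 ^ j) H1 hH1b hH1sq ?_ hb ?_
      · refine le_trans (Finset.sum_le_sum fun a _ => ?_) hmm
        exact_mod_cast Finset.card_le_card (fin_anti x a (2 ^ j) _ _ hη1)
      · have e5 : (H1 : ℝ) ≤ (2 : ℝ) ^ j := hH1q.trans hj.2.1
        exact_mod_cast e5
      · push_cast
        exact hj.2.2.trans hxθ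
    refine (Finset.sum_le_sum hterm).trans ?_
    rw [Finset.sum_const, nsmul_eq_mul]
    have hH0 : (0 : ℝ) ≤ H := Nat.cast_nonneg _
    have e1 : (J.card : ℝ) * (2 * H / L ^ (c + 3)) ≤ 3 * L * (2 * H / L ^ (c + 3)) :=
      mul_le_mul_of_nonneg_right hJcard (by positivity)
    refine e1.trans ?_
    have e2 : 3 * L * (2 * H / L ^ (c + 3)) = (6 / L ^ 2) * (H / L ^ c) := by
      rw [pow_add]
      field_simp
      ring
    rw [e2]
    have e3 : 6 / L ^ 2 ≤ 1 := by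
      rw [div_le_one (by positivity)]
      nlinarith only [hL]
    have e4 : 0 ≤ (H : ℝ) / L ^ c := by positivity
    nlinarith only [e3, e4]
  · intro a ha haE Q hQ
    rcases Nat.eq_zero_or_pos Q with hQ0 | hQ0
    · subst hQ0
      have : bad x a 0 η = ∅ := by
        unfold bad
        simp
      rw [this]
      simp
    · have key : ∀ j : ℕ, (2 : ℝ) ^ j ≤ 2 * (x : ℝ) ^ θ →
          ((bad x a (2 ^ j) η).card : ℝ) ≤ (2 : ℝ) ^ j / L ^ (c + 1) := by
        intro j hj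
        rcases le_or_gt ((2 : ℝ) ^ j) ((x : ℝ) ^ ((1 : ℝ) / 4)) with h4 | h4
        · have := hsm a (2 ^ j) Nat.one_le_two_pow (by push_cast; exact h4)
          push_cast at this
          exact this
        · by_contra hcon
          push Not at hcon
          apply haE
          rw [hE, mem_filter]
          refine ⟨ha, j, hJmem j h4.le hj, ?_⟩
          push_cast
          exact hcon
      set j := Nat.log 2 Q with hj
      have q1 : 2 ^ j ≤ Q := Nat.pow_log_le_self 2 (by omega)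
      have q2 : Q < 2 ^ (j + 1) := Nat.lt_pow_succ_log_self (by norm_num) Q
      have q1r : (2 : ℝ) ^ j ≤ Q := by exact_mod_cast q1
      have e : (2 : ℝ) ^ (j + 1) = 2 * 2 ^ j := by rw [pow_succ]; ring
      have k1 := key j (by linarith only [hxθ0, hQ, q1r])
      have k2 := key (j + 1) (by rw [e]; linarith only [hQ, q1r])
      have k3 : ((bad x a Q η).card : ℝ) ≤ (bad x a (2 ^ j) η).card +
          (bad x a (2 ^ (j + 1)) η).card := by
        exact_mod_cast (Finset.card_le_card (fin_bad_subset x a Q η j q1 q2)).trans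
          (Finset.card_union_le _ _)
      have hQr : (0 : ℝ) ≤ Q := Nat.cast_nonneg _
      calc ((bad x a Q η).card : ℝ) ≤ (2 : ℝ) ^ j / L ^ (c + 1) + (2 : ℝ) ^ (j + 1) / L ^ (c + 1) := by
            linarith only [k1, k2, k3]
        _ = 3 * (2 : ℝ) ^ j / L ^ (c + 1) := by rw [e]; ring
        _ ≤ 3 * Q / L ^ (c + 1) := div_le_div_of_nonneg_right (by linarith only [q1r]) (by positivity)
        _ = (3 / L) * (Q / L ^ c) := by
            rw [pow_succ]
            field_simp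
        _ ≤ 1 * (Q / L ^ c) := by
            refine mul_le_mul_of_nonneg_right ?_ (by positivity)
            rw [div_le_one hL0]
            exact hL
        _ = Q / L ^ c := one_mul _

end Pool.Agent.H35.U

end

section

/-!
# U FinY: the maximum over `y ≤ x`; hypotheses removed

`badY x a Q η`: moduli `q ∈ (Q,2Q]`, coprime to `a`, with `|err y q a| > η π(x)/φ(q)` for some `y ≤ x`.
`L = log x`, `N = ⌈L²⌉₊`, `y_j = ⌊j x/N⌋₊`, `1 ≤ j ≤ N` (so `y_N = x`, all `y_j ≥ x/L^3`).  `main1` with `(1+θ)/2` and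
`c + 4` at every `y_j` (`log y_j ≤ L ≤ 2 log y_j`, `x^θ ≤ y_j^((1+θ)/2)`, `rho y_j H ≤ 4 rho x H`,
`L^C' ≤ H` gives `(log y_j)^C ≤ H`): `E = ⋃ E_j`, `|E| ≤ N H/(log y_1)^(c+4) ≤ H/L^c`; for `a ∉ E` the union of the bad
sets of the `y_j` has at most `Q/L^c` elements.  Outside the union: for `y_j ≤ y ≤ y_{j+1}`
`π(y_j;q,a) ≤ π(y;q,a) ≤ π(y_{j+1};q,a)` and the same for `π`, so
`|err y q a| ≤ max_j |err y_j q a| + (π(y_{j+1}) - π(y_j))/φ(q)`, and
`π(y_{j+1}) - π(y_j) ≤ x/N + 1 ≤ 2x/L² ≤ (8/L) π(x) ≤ 8 rho π(x)`; for `y < y_1`: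
`|err y q a| ≤ max(π(y;q,a), π(y)/φ(q)) ≤ π(y_1;q,a) + π(y_1)/φ(q) ≤ |err y_1 q a| + 2 π(y_1)/φ(q)`, `π(y_1) ≤ y_1`.
`π(y_j) ≤ π(x)`.  `Q < 1`: `bad` is empty for `Q = 0`.
`PntProp` is `Pool.Agent.H91.EHA.pnt'`, `BVProp` is `Pool.Agent.H91.EHA.classes_sum` with `H = 1` (see
`Pool/Agent/H87/WL` or the final file of project WL for the derivation; `ε = 1/10`, `θ = 1/3`).
-/

set_option autoImplicit false

namespace Pool.Agent.H35.U

open Finset
open Pool.Agent.H91.EHA (err)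
open Pool.Agent.H87.WL (PntProp BVProp bad)

open Classical in
/-- the moduli `q ∈ (Q, 2Q]` coprime to `a` with `|π(y;q,a) - π(y)/φ(q)| > η π(x)/φ(q)` for some
`y ≤ x` -/
noncomputable def badY (x a Q : ℕ) (η : ℝ) : Finset ℕ :=
  (Ioc Q (2 * Q)).filter (fun q => Nat.Coprime a q ∧ ∃ y : ℕ, y ≤ x ∧
    η * ((Nat.primeCounting x : ℝ) / (q.totient : ℝ)) < |err y q (a : ZMod q)|)

theorem pnt_prop : PntProp := fun c => Pool.Agent.H91.EHA.pnt' c

theorem bv_prop : BVProp := by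
  intro c
  obtain ⟨x0, hx0⟩ := Pool.Agent.H91.EHA.classes_sum (1 / 3) (1 / 10) (by norm_num)
    (by norm_num) c
  exact ⟨x0, fun x hx T hT1 hT2 => hx0 x hx 1 T le_rfl hT1 hT2⟩

private lemma FinY_pc (u k : ℕ) : Nat.primeCounting (u + k) ≤ Nat.primeCounting u + k := by
  induction k with
  | zero => simp
  | succ k ih =>
    have h : Nat.primeCounting (u + (k + 1)) ≤ Nat.primeCounting (u + k) + 1 := by
      rw [← add_assoc]
      unfold Nat.primeCounting Nat.primeCounting'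
      rw [Nat.count_succ]
      split_ifs <;> omega
    omega

private lemma FinY_err (u y v q : ℕ) (a : ZMod q) (h1 : u ≤ y) (h2 : y ≤ v) :
    |err y q a| ≤ max |err u q a| |err v q a| + ((v : ℝ) - u) / (q.totient : ℝ) := by
  have hA : ∀ s t : ℕ, s ≤ t →
      (((Icc 1 s).filter (fun p : ℕ => Nat.Prime p ∧ ((p : ZMod q) = a))).card : ℝ) ≤
      (((Icc 1 t).filter (fun p : ℕ => Nat.Prime p ∧ ((p : ZMod q) = a))).card : ℝ) := by
    intro s t hst
    exact_mod_cast card_le_card (filter_subset_filter _ (Icc_subset_Icc_right hst))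
  have hP : ∀ s t : ℕ, s ≤ t → (Nat.primeCounting s : ℝ) / (q.totient : ℝ) ≤
      (Nat.primeCounting t : ℝ) / (q.totient : ℝ) := by
    intro s t hst
    apply div_le_div_of_nonneg_right _ (Nat.cast_nonneg _)
    exact_mod_cast Nat.monotone_primeCounting hst
  have hD : (Nat.primeCounting v : ℝ) / (q.totient : ℝ) - (Nat.primeCounting u : ℝ) / (q.totient : ℝ)
      ≤ ((v : ℝ) - u) / (q.totient : ℝ) := by
    rw [← sub_div]
    apply div_le_div_of_nonneg_right _ (Nat.cast_nonneg _)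
    obtain ⟨k, rfl⟩ := Nat.exists_eq_add_of_le (h1.trans h2)
    have h3 := FinY_pc u k
    have h4 : (Nat.primeCounting (u + k) : ℝ) ≤ Nat.primeCounting u + k := by exact_mod_cast h3
    push_cast
    linarith only [h4]
  have hu1 := neg_abs_le (err u q a)
  have hv1 := le_abs_self (err v q a)
  have hm1 := le_max_left |err u q a| |err v q a|
  have hm2 := le_max_right |err u q a| |err v q a|
  have e1 := hA _ _ h1
  have e2 := hA _ _ h2
  have e3 := hP _ _ h1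
  have e4 := hP _ _ h2
  rw [abs_le]
  unfold err at hu1 hv1 hm1 hm2 ⊢
  constructor <;> linarith only [hD, hu1, hm1, e1, e4, hv1, hm2, e2, e3]

private lemma FinY_grid (x N y : ℕ) (hN : 0 < N) (hy : y ≤ x) :
    ∃ j, j < N ∧ j * x / N ≤ y ∧ y ≤ (j + 1) * x / N := by
  have hex : ∃ j, y ≤ j * x / N := ⟨N, by rwa [Nat.mul_div_cancel_left x hN]⟩
  rcases hj : Nat.find hex with _ | k
  · have h := Nat.find_spec hex
    rw [hj] at h
    have hy0 : y = 0 := by simpa using h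
    exact ⟨0, hN, by simp, by simp [hy0]⟩
  · have h := Nat.find_spec hex
    rw [hj] at h
    have h2 : ¬ y ≤ k * x / N := Nat.find_min hex (by omega)
    have h3 : Nat.find hex ≤ N := Nat.find_min' hex (by rwa [Nat.mul_div_cancel_left x hN])
    exact ⟨k, by omega, by omega, h⟩

private lemma FinY_rho (x y H : ℕ) (h1 : Real.log x / 2 ≤ Real.log y) (h2 : Real.log y ≤ Real.log x)
    (h3 : 2 ≤ Real.log x) : rho y H ≤ 2 * rho x H := by
  have hly : 1 ≤ Real.log y := by linarith only [h1, h3]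
  have hl0 : 0 ≤ Real.log (Real.log y) := Real.log_nonneg hly
  have hl1 : Real.log (Real.log y) ≤ Real.log (Real.log x) := Real.log_le_log (by linarith only [h1, h3]) h2
  have hH : 0 ≤ Real.log (H : ℝ) := Real.log_natCast_nonneg H
  unfold rho
  have e1 : Real.log (Real.log y) / Real.log H ≤ Real.log (Real.log x) / Real.log H :=
    div_le_div_of_nonneg_right hl1 hH
  have e2 : 0 ≤ Real.log (Real.log x) / Real.log H := div_nonneg (hl0.trans hl1) hH
  have e3 : Real.log (Real.log y) ^ 2 / Real.log y ≤ 2 * (Real.log (Real.log x) ^ 2 / Real.log x) := by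
    have h4 : Real.log (Real.log y) ^ 2 ≤ Real.log (Real.log x) ^ 2 := by
      apply pow_le_pow_left₀ hl0 hl1
    calc Real.log (Real.log y) ^ 2 / Real.log y ≤ Real.log (Real.log x) ^ 2 / (Real.log x / 2) := by
          apply div_le_div₀ (sq_nonneg _) h4 (by linarith only [h3]) h1
      _ = 2 * (Real.log (Real.log x) ^ 2 / Real.log x) := by
          field_simp
  linarith only [e1, e2, e3]

private lemma FinY_ev (t : ℝ) (ht : t < 1) (ht0 : 0 < t) (x01 : ℕ) (K : ℝ) :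
    ∃ x0 : ℕ, ∀ x : ℕ, x0 ≤ x → 4 * (x : ℝ) ^ t * Real.log x ^ 2 ≤ x ∧ (x01 : ℝ) ≤ (x : ℝ) ^ t ∧
      K ≤ Real.log x ∧ 4096 ≤ x := by
  have h1 : ∀ᶠ y : ℝ in Filter.atTop, 4 * y ^ t * Real.log y ^ 2 ≤ y := by
    have h := (isLittleO_log_rpow_rpow_atTop (2 : ℝ) (show (0 : ℝ) < 1 - t by linarith)).bound
      (show (0 : ℝ) < 1 / 4 by norm_num)
    filter_upwards [h, Filter.eventually_gt_atTop (1 : ℝ)] with y hy hy1
    have hy0 : 0 < y := by linarith only [ht, ht0, hy1]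
    have hl : 0 < Real.log y := Real.log_pos hy1
    rw [Real.norm_of_nonneg (by positivity), Real.norm_of_nonneg (by positivity)] at hy
    have e1 : Real.log y ^ (2 : ℝ) = Real.log y ^ 2 := by
      rw [← Real.rpow_natCast]; norm_num
    rw [e1] at hy
    have e2 : y ^ t * y ^ (1 - t) = y := by
      rw [← Real.rpow_add hy0]; simp
    have e3 : 0 < y ^ t := Real.rpow_pos_of_pos hy0 t
    calc 4 * y ^ t * Real.log y ^ 2 ≤ 4 * y ^ t * (1 / 4 * y ^ (1 - t)) := by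
          apply mul_le_mul_of_nonneg_left hy (by positivity)
      _ = y ^ t * y ^ (1 - t) := by ring
      _ = y := e2
  have h2 : ∀ᶠ y : ℝ in Filter.atTop, (x01 : ℝ) ≤ y ^ t :=
    (tendsto_rpow_atTop ht0).eventually_ge_atTop _
  have h3 : ∀ᶠ y : ℝ in Filter.atTop, K ≤ Real.log y := Real.tendsto_log_atTop.eventually_ge_atTop _
  have h4 := (tendsto_natCast_atTop_atTop (R := ℝ)).eventually (h1.and (h2.and h3))
  rw [Filter.eventually_atTop] at h4
  obtain ⟨x0, hx0⟩ := h4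
  refine ⟨max x0 4096, fun x hx => ?_⟩
  obtain ⟨a, b, d⟩ := hx0 x (le_trans (le_max_left _ _) hx)
  exact ⟨a, b, d, le_trans (le_max_right _ _) hx⟩

private lemma FinY_lin (L N Y : ℝ) (c : ℕ) (V : ℝ) (hV : 0 ≤ V) (hL : (2 : ℝ) ^ (c + 5) ≤ L)
    (hN : N ≤ 2 * L ^ 2) (hY : L / 2 ≤ Y) : N * (V / Y ^ (c + 4)) ≤ V / L ^ c := by
  have hL1 : (1 : ℝ) ≤ L := (one_le_pow₀ (by norm_num)).trans hL
  have hL0 : 0 < L := by linarith only [hL1]
  have hY0 : 0 < Y := by linarith only [hY, hL1]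
  have h1 : (L / 2) ^ (c + 4) ≤ Y ^ (c + 4) := pow_le_pow_left₀ (by positivity) hY _
  have h2 : V / Y ^ (c + 4) ≤ V / (L / 2) ^ (c + 4) :=
    div_le_div_of_nonneg_left hV (by positivity) h1
  have h3 : 0 ≤ V / Y ^ (c + 4) := by positivity
  calc N * (V / Y ^ (c + 4)) ≤ 2 * L ^ 2 * (V / Y ^ (c + 4)) :=
        mul_le_mul_of_nonneg_right hN h3
    _ ≤ 2 * L ^ 2 * (V / (L / 2) ^ (c + 4)) := mul_le_mul_of_nonneg_left h2 (by positivity)
    _ = V / L ^ c * (2 ^ (c + 5) / L ^ 2) := by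
        rw [div_pow, pow_add L c 4, pow_succ (2 : ℝ) (c + 4)]
        field_simp
    _ ≤ V / L ^ c * 1 := by
        apply mul_le_mul_of_nonneg_left _ (by positivity)
        rw [div_le_one (by positivity)]
        nlinarith only [hL, hL1]
    _ = V / L ^ c := mul_one _

theorem main2 (θ : ℝ) (hθ : θ < 1) (c : ℕ) : ∃ C x0 : ℕ,
    ∀ x : ℕ, x0 ≤ x → ∀ a0 H : ℕ, Real.log x ^ C ≤ H → ((a0 + H : ℕ) : ℝ) ≤ (x : ℝ) ^ θ →
      ∃ E ⊆ Ioc a0 (a0 + H), (E.card : ℝ) ≤ H / Real.log x ^ c ∧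
        ∀ a ∈ Ioc a0 (a0 + H), a ∉ E → ∀ Q : ℕ, (Q : ℝ) ≤ (x : ℝ) ^ θ →
          ((badY x a Q (C * rho x H)).card : ℝ) ≤ Q / Real.log x ^ c := by
  have hm0 : 0 ≤ max θ 0 := le_max_right _ _
  have hm1 : max θ 0 < 1 := max_lt hθ one_pos
  obtain ⟨t, ht⟩ : ∃ t : ℝ, t = (1 + max θ 0) / 2 := ⟨_, rfl⟩
  have ht1 : t < 1 := by rw [ht]; linarith only [hm1]
  have ht2 : 1 / 2 ≤ t := by rw [ht]; linarith only [hm0]
  have ht3 : θ ≤ t * t := by
    have h := le_max_left θ 0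
    rw [ht]
    nlinarith only [h, sq_nonneg (1 - max θ 0)]
  obtain ⟨C1, x01, hmain⟩ := main1 pnt_prop bv_prop t ht1 (c + 4)
  obtain ⟨x0, hx0⟩ := FinY_ev t ht1 (by linarith) x01 (3 + 2 ^ (c + 5))
  refine ⟨2 * C1 + 4, x0, fun x hx a0 H hH haH => ?_⟩
  obtain ⟨hx1, hx2, hx3, hx4⟩ := hx0 x hx
  have hxpos : (4096 : ℝ) ≤ x := by exact_mod_cast hx4
  have hxone : (1 : ℝ) ≤ x := by linarith only [hm0, ht, ht1, hxpos]
  set L : ℝ := Real.log x with hLdef
  have hpow : (1 : ℝ) ≤ 2 ^ (c + 5) := one_le_pow₀ (by norm_num)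
  have hL3 : 3 ≤ L := by linarith only [hm0, ht, ht1, hx3, hpow]
  have hL2 : (2 : ℝ) ^ (c + 5) ≤ L := by linarith only [hm0, ht, ht1, hx3]
  have hlogL : 1 ≤ Real.log L := by
    rw [Real.le_log_iff_exp_le (by linarith only [hm0, ht, ht1, hx3, hpow])]
    have := Real.exp_one_lt_d9
    linarith only [hm0, ht, ht1, hx3, hpow, this]
  obtain ⟨N, hNdef⟩ : ∃ N : ℕ, N = ⌈L ^ 2⌉₊ := ⟨_, rfl⟩
  have hN1 : L ^ 2 ≤ N := by rw [hNdef]; exact Nat.le_ceil _
  have hN2 : (N : ℝ) ≤ 2 * L ^ 2 := by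
    have h := Nat.ceil_lt_add_one (show (0 : ℝ) ≤ L ^ 2 by positivity)
    rw [← hNdef] at h
    nlinarith only [hx3, hpow, h]
  have hNR : (0 : ℝ) < N := by
    have : (0 : ℝ) < L ^ 2 := by positivity
    linarith only [hN1, this]
  have hN0 : 0 < N := by exact_mod_cast hNR
  have hxt1 : (1 : ℝ) ≤ (x : ℝ) ^ t := Real.one_le_rpow hxone (by linarith only [hm0, ht, ht1])
  -- lower bound for the grid points
  have hdivlow : ∀ j : ℕ, (j : ℝ) * x / N - 1 ≤ ((j * x / N : ℕ) : ℝ) := by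
    intro j
    have h := Nat.lt_mul_div_succ (j * x) hN0
    have h' : ((j : ℝ) * x) < N * (((j * x / N : ℕ) : ℝ) + 1) := by exact_mod_cast h
    rw [sub_le_iff_le_add, div_le_iff₀ hNR]
    linarith only [h']
  have hdivup : ∀ j : ℕ, ((j * x / N : ℕ) : ℝ) ≤ (j : ℝ) * x / N := by
    intro j
    have h : ((j * x / N : ℕ) : ℝ) ≤ ((j * x : ℕ) : ℝ) / N := Nat.cast_div_le
    simpa using h
  have hxN : 2 * (x : ℝ) ^ t ≤ x / N := by
    rw [le_div_iff₀ hNR]
    calc 2 * (x : ℝ) ^ t * N ≤ 2 * (x : ℝ) ^ t * (2 * L ^ 2) :=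
          mul_le_mul_of_nonneg_left hN2 (by positivity)
      _ = 4 * (x : ℝ) ^ t * L ^ 2 := by ring
      _ ≤ x := hx1
  have hyt : ∀ j : ℕ, 1 ≤ j → (x : ℝ) ^ t ≤ ((j * x / N : ℕ) : ℝ) := by
    intro j hj
    have h1 := hdivlow j
    have hj' : (1 : ℝ) ≤ j := by exact_mod_cast hj
    have h2 : (x : ℝ) / N ≤ (j : ℝ) * x / N := by
      apply div_le_div_of_nonneg_right _ hNR.le
      nlinarith only [hj']
    linarith only [hxt1, hxN, h1, h2]
  have hyx : ∀ j : ℕ, j ≤ N → j * x / N ≤ x := by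
    intro j hj
    calc j * x / N ≤ N * x / N := Nat.div_le_div_right (Nat.mul_le_mul_right _ hj)
      _ = x := Nat.mul_div_cancel_left x hN0
  have hly1 : ∀ j : ℕ, 1 ≤ j → L / 2 ≤ Real.log ((j * x / N : ℕ) : ℝ) := by
    intro j hj
    have h1 := Real.log_le_log (by linarith only [hm0, ht, ht1, hxt1]) (hyt j hj)
    rw [Real.log_rpow (by linarith only [hm0, ht, ht1, hxpos])] at h1
    nlinarith only [hm0, ht, h1, hx3, hpow]
  have hly2 : ∀ j : ℕ, 1 ≤ j → j ≤ N → Real.log ((j * x / N : ℕ) : ℝ) ≤ L := by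
    intro j hj hjN
    apply Real.log_le_log
    · have := hyt j hj; linarith only [hm0, ht, ht1, hxt1, this]
    · exact_mod_cast hyx j hjN
  have hH1 : (1 : ℝ) ≤ H := le_trans (one_le_pow₀ (by linarith only [hm0, ht, ht1, hx3, hpow])) hH
  have hθx : (x : ℝ) ^ θ ≤ ((x : ℝ) ^ t) ^ t := by
    rw [← Real.rpow_mul (by linarith only [hm0, ht, ht1, hxpos])]
    exact Real.rpow_le_rpow_of_exponent_le hxone ht3
  have hyθ : ∀ j : ℕ, 1 ≤ j → (x : ℝ) ^ θ ≤ ((j * x / N : ℕ) : ℝ) ^ t := fun j hj =>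
    hθx.trans (Real.rpow_le_rpow (by linarith only [hm0, ht, ht1, hxt1]) (hyt j hj) (by linarith only [hm0, ht, ht1]))
  have hall : ∀ j : ℕ, ∃ E : Finset ℕ, E ⊆ Ioc a0 (a0 + H) ∧ (1 ≤ j → j ≤ N →
      (E.card : ℝ) ≤ H / Real.log ((j * x / N : ℕ) : ℝ) ^ (c + 4) ∧
        ∀ a ∈ Ioc a0 (a0 + H), a ∉ E → ∀ Q : ℕ, (Q : ℝ) ≤ ((j * x / N : ℕ) : ℝ) ^ t →
          ((bad (j * x / N) a Q (C1 * rho (j * x / N) H)).card : ℝ) ≤
            Q / Real.log ((j * x / N : ℕ) : ℝ) ^ (c + 4)) := by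
    intro j
    by_cases hj : 1 ≤ j ∧ j ≤ N
    · obtain ⟨hj1, hj2⟩ := hj
      have hb1 := hly1 j hj1
      have hb2 := hly2 j hj1 hj2
      obtain ⟨E, hE1, hE2, hE3⟩ := hmain (j * x / N)
        (by exact_mod_cast hx2.trans (hyt j hj1)) a0 H (by
          calc Real.log ((j * x / N : ℕ) : ℝ) ^ C1 ≤ L ^ C1 := pow_le_pow_left₀ (by linarith only [hm0, ht, ht1, hx3, hpow, hb1]) hb2 _
            _ ≤ L ^ (2 * C1 + 4) := pow_le_pow_right₀ (by linarith only [hm0, ht, ht1, hx3, hpow]) (by omega)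
            _ ≤ H := hH) (haH.trans (hyθ j hj1))
      exact ⟨E, hE1, fun _ _ => ⟨hE2, hE3⟩⟩
    · exact ⟨∅, empty_subset _, fun h1 h2 => absurd ⟨h1, h2⟩ hj⟩
  choose E hE1 hE2 using hall
  refine ⟨(Icc 1 N).biUnion E, ?_, ?_, ?_⟩
  · intro a ha
    rw [mem_biUnion] at ha
    obtain ⟨j, -, hj⟩ := ha
    exact hE1 j hj
  · calc (((Icc 1 N).biUnion E).card : ℝ) ≤ ((∑ j ∈ Icc 1 N, (E j).card : ℕ) : ℝ) := by
          exact_mod_cast card_biUnion_le
      _ = ∑ j ∈ Icc 1 N, ((E j).card : ℝ) := by push_cast; rfl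
      _ ≤ ∑ _j ∈ Icc 1 N, (H / (L / 2) ^ (c + 4) : ℝ) := by
          apply sum_le_sum
          intro j hj
          rw [mem_Icc] at hj
          refine (hE2 j hj.1 hj.2).1.trans ?_
          apply div_le_div_of_nonneg_left (by positivity) (by positivity)
          exact pow_le_pow_left₀ (by linarith only [hm0, ht, ht1, hx3, hpow]) (hly1 j hj.1) _
      _ = N * (H / (L / 2) ^ (c + 4)) := by simp
      _ ≤ H / L ^ c := FinY_lin L N (L / 2) c H (by positivity) hL2 hN2 le_rfl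
  · intro a ha haE Q hQ
    have hsub : badY x a Q ((2 * C1 + 4 : ℕ) * rho x H) ⊆
        (Icc 1 N).biUnion (fun j => bad (j * x / N) a Q (C1 * rho (j * x / N) H)) := by
      intro q hq
      unfold badY at hq
      rw [mem_filter] at hq
      obtain ⟨hq1, hq2, y, hyle, hy⟩ := hq
      by_contra hcon
      rw [mem_biUnion] at hcon
      push Not at hcon
      have hpi : (x : ℝ) / 2 ≤ (Nat.primeCounting x : ℝ) * L := Pool.Agent.H87.WL.bsm_pi x hx4
      have hrho : 1 / L ≤ rho x H := by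
        unfold rho
        have e1 : 0 ≤ Real.log (Real.log x) / Real.log (H : ℝ) := by
          apply div_nonneg _ (Real.log_natCast_nonneg H)
          rw [← hLdef]; linarith only [hm0, ht, ht1, hlogL]
        have e2 : 1 / L ≤ Real.log (Real.log x) ^ 2 / Real.log x := by
          rw [← hLdef]
          apply div_le_div_of_nonneg_right _ (by linarith only [hm0, ht, ht1, hx3, hpow])
          nlinarith only [hlogL]
        linarith only [e1, e2]
      have hrho0 : 0 ≤ rho x H := le_trans (by positivity) hrho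
      have hq0 : (0 : ℝ) ≤ (q.totient : ℝ) := Nat.cast_nonneg _
      have hpi0 : (0 : ℝ) ≤ (Nat.primeCounting x : ℝ) := Nat.cast_nonneg _
      -- the error at a grid point
      have hgrid : ∀ j : ℕ, j ≤ N → |err (j * x / N) q (a : ZMod q)| ≤
          2 * C1 * rho x H * ((Nat.primeCounting x : ℝ) / (q.totient : ℝ)) := by
        intro j hj
        have hnn : 0 ≤ 2 * C1 * rho x H * ((Nat.primeCounting x : ℝ) / (q.totient : ℝ)) := by
          positivity
        rcases Nat.eq_zero_or_pos j with rfl | hj1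
        · have h0 : err (0 * x / N) q (a : ZMod q) = 0 := by
            unfold err
            simp
          rw [h0, abs_zero]
          exact hnn
        · have h1 := hcon j (mem_Icc.2 ⟨hj1, hj⟩)
          unfold bad at h1
          rw [mem_filter] at h1
          push Not at h1
          have h2 := h1 hq1 hq2
          refine h2.trans ?_
          have h3 := FinY_rho x (j * x / N) H (hly1 j hj1) (hly2 j hj1 hj) (by linarith only [hm0, ht, ht1, hx3, hpow])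
          have h4 : (Nat.primeCounting (j * x / N) : ℝ) / (q.totient : ℝ) ≤
              (Nat.primeCounting x : ℝ) / (q.totient : ℝ) := by
            apply div_le_div_of_nonneg_right _ hq0
            exact_mod_cast Nat.monotone_primeCounting (hyx j hj)
          have h5 : (C1 : ℝ) * rho (j * x / N) H ≤ 2 * C1 * rho x H := by
            have h6 : (0 : ℝ) ≤ C1 := Nat.cast_nonneg _
            nlinarith only [h3]
          have h7 : (0 : ℝ) ≤ (Nat.primeCounting (j * x / N) : ℝ) / (q.totient : ℝ) := by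
            positivity
          exact mul_le_mul h5 h4 h7 (by positivity)
      obtain ⟨j, hj1, hj2, hj3⟩ := FinY_grid x N y hN0 hyle
      have h1 := FinY_err _ _ _ q (a : ZMod q) hj2 hj3
      have h2 := max_le (hgrid j hj1.le) (hgrid (j + 1) hj1)
      have h3 : (((j + 1) * x / N : ℕ) : ℝ) - ((j * x / N : ℕ) : ℝ) ≤
          4 * rho x H * Nat.primeCounting x := by
        have e1 := hdivup (j + 1)
        have e2 := hdivlow j
        have e3 : ((j + 1 : ℕ) : ℝ) * x / N = (j : ℝ) * x / N + x / N := by push_cast; ring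
        rw [e3] at e1
        have e4 : (x : ℝ) / N ≤ x / L ^ 2 :=
          div_le_div_of_nonneg_left (by linarith only [hm0, ht, ht1, hxpos]) (by positivity) hN1
        have e5 : (1 : ℝ) ≤ x / L ^ 2 := by
          have e6 : (1 : ℝ) ≤ x / N := by linarith only [hm0, ht, ht1, hxt1, hxN]
          linarith only [hm0, ht, ht1, hxt1, hxN, e4]
        have e7 : (x : ℝ) / L ^ 2 ≤ 2 * (1 / L) * Nat.primeCounting x := by
          rw [div_le_iff₀ (by positivity)]
          have e8 : 2 * (1 / L) * (Nat.primeCounting x : ℝ) * L ^ 2 =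
              2 * ((Nat.primeCounting x : ℝ) * L) := by
            field_simp
          rw [e8]
          linarith only [hpi]
        have e9 : 2 * (1 / L) * (Nat.primeCounting x : ℝ) ≤ 2 * rho x H * Nat.primeCounting x := by
          apply mul_le_mul_of_nonneg_right _ hpi0
          linarith only [hrho]
        linarith only [hm0, ht, ht1, hxt1, hxN, e1, e2, e4, e7, e9]
      have h4 : ((((j + 1) * x / N : ℕ) : ℝ) - ((j * x / N : ℕ) : ℝ)) / (q.totient : ℝ) ≤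
          4 * rho x H * ((Nat.primeCounting x : ℝ) / (q.totient : ℝ)) := by
        rw [← mul_div_assoc]
        exact div_le_div_of_nonneg_right h3 hq0
      have h5 : |err y q (a : ZMod q)| ≤
          ((2 * C1 + 4 : ℕ) : ℝ) * rho x H * ((Nat.primeCounting x : ℝ) / (q.totient : ℝ)) := by
        push_cast
        have e1 : (2 * (C1 : ℝ) + 4) * rho x H * ((Nat.primeCounting x : ℝ) / (q.totient : ℝ)) =
          2 * C1 * rho x H * ((Nat.primeCounting x : ℝ) / (q.totient : ℝ)) +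
          4 * rho x H * ((Nat.primeCounting x : ℝ) / (q.totient : ℝ)) := by ring
        rw [e1]
        linarith only [h1, h2, h4]
      linarith only [hy, h5]
    calc ((badY x a Q ((2 * C1 + 4 : ℕ) * rho x H)).card : ℝ)
        ≤ (((Icc 1 N).biUnion
            (fun j => bad (j * x / N) a Q (C1 * rho (j * x / N) H))).card : ℝ) := by
          exact_mod_cast card_le_card hsub
      _ ≤ ((∑ j ∈ Icc 1 N, (bad (j * x / N) a Q (C1 * rho (j * x / N) H)).card : ℕ) : ℝ) := by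
          exact_mod_cast card_biUnion_le
      _ = ∑ j ∈ Icc 1 N, ((bad (j * x / N) a Q (C1 * rho (j * x / N) H)).card : ℝ) := by
          push_cast; rfl
      _ ≤ ∑ _j ∈ Icc 1 N, (Q / (L / 2) ^ (c + 4) : ℝ) := by
          apply sum_le_sum
          intro j hj
          have haEj : a ∉ E j := fun h => haE (mem_biUnion.2 ⟨j, hj, h⟩)
          rw [mem_Icc] at hj
          refine ((hE2 j hj.1 hj.2).2 a ha haEj Q (hQ.trans (hyθ j hj.1))).trans ?_
          apply div_le_div_of_nonneg_left (by positivity) (by positivity)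
          exact pow_le_pow_left₀ (by linarith only [hm0, ht, ht1, hx3, hpow]) (hly1 j hj.1) _
      _ = N * (Q / (L / 2) ^ (c + 4)) := by simp
      _ ≤ Q / L ^ c := FinY_lin L N (L / 2) c Q (by positivity) hL2 hN2 le_rfl

end Pool.Agent.H35.U

end

section

/-!
# U ExcY: the final form with the maximum over `y ≤ x` and the total excess

`mx x q a = max_{y ≤ x} |err y q a|`.  From `main2` (with `c + 4`): `q ∈ badY x a Q η ↔ q ∈ (Q,2Q]`, coprime, and
`η π(x)/φ(q) < mx x q a` (`Finset.lt_sup'_iff`).  The total excess: copy the proof of `main_excess` in `WL.Exc` with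
`mx x q a` in place of `|err x q a|`: `exc_triv` for every `y ≤ x` (trivial bound
`|err y q a| ≤ #{n ≤ y, n ≡ a} + π(y)/φ(q) ≤ (x/q + 1) + x/φ(q) ≤ 3 L x/q`; it only needs `y ≤ x`, `q ≤ x`), `exc_one`
(`err y 1 a = 0` for every `y`), dyadic blocks.  `main2`'s constant: the same `C`.
-/

set_option autoImplicit false

namespace Pool.Agent.H35.U

open Finset
open Pool.Agent.H91.EHA (err)
open Pool.Agent.H87.WL (PntProp BVProp bad)

/-- `max_{y ≤ x} |π(y;q,a) - π(y)/φ(q)|` -/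
noncomputable def mx (x q a : ℕ) : ℝ :=
  (range (x + 1)).sup' nonempty_range_add_one (fun y => |err y q (a : ZMod q)|)

/-- the number of `n ≤ x` in a class mod `q` is at most `x/q + 1` -/
private theorem exc_count (x q : ℕ) (a : ZMod q) (hq : 1 ≤ q) :
    (((Icc 1 x).filter (fun n : ℕ => (n : ZMod q) = a)).card : ℝ) ≤ x / q + 1 := by
  have hq0 : (0 : ℝ) < q := by exact_mod_cast hq
  have h1 : ((Icc 1 x).filter (fun n : ℕ => (n : ZMod q) = a)).card ≤ x / q + 1 := by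
    have hinj : Set.InjOn (fun n : ℕ => n / q)
        ((Icc 1 x).filter (fun n : ℕ => (n : ZMod q) = a)) := by
      intro m hm n hn hmn
      rw [Finset.mem_coe, mem_filter] at hm hn
      have e : (m : ZMod q) = (n : ZMod q) := hm.2.trans hn.2.symm
      rw [ZMod.natCast_eq_natCast_iff] at e
      have e1 : m % q = n % q := e
      have e2 : m / q = n / q := hmn
      rw [← Nat.div_add_mod m q, ← Nat.div_add_mod n q, e1, e2]
    have hmaps : ∀ n ∈ (Icc 1 x).filter (fun n : ℕ => (n : ZMod q) = a),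
        n / q ∈ range (x / q + 1) := by
      intro n hn
      rw [mem_filter, mem_Icc] at hn
      rw [mem_range]
      exact Nat.lt_succ_of_le (Nat.div_le_div_right hn.1.2)
    have := Finset.card_le_card_of_injOn _ hmaps hinj
    rwa [card_range] at this
  have h2 : ((x / q : ℕ) : ℝ) ≤ x / q := Nat.cast_div_le
  have h3 : (((Icc 1 x).filter (fun n : ℕ => (n : ZMod q) = a)).card : ℝ) ≤ ((x / q : ℕ) : ℝ) + 1 := by
    exact_mod_cast h1
  linarith only [h2, h3]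

private theorem exc_pc (x : ℕ) : Nat.primeCounting x = ((Icc 1 x).filter Nat.Prime).card := by
  rw [Nat.primeCounting, Nat.primeCounting', Nat.count_eq_card_filter_range]
  congr 1
  ext p
  simp only [mem_filter, mem_Icc, mem_range]
  constructor
  · rintro ⟨h, hp⟩
    exact ⟨⟨hp.one_lt.le, by omega⟩, hp⟩
  · rintro ⟨⟨_, h⟩, hp⟩
    exact ⟨by omega, hp⟩

/-- trivial bound for `err` -/
private theorem exc_triv (x y q : ℕ) (hyx : y ≤ x) (a : ZMod q) (hq : 1 ≤ q) (hqx : q ≤ x)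
    (hL : 3 ≤ Real.log x) : |err y q a| ≤ 3 * Real.log x * (x / q) := by
  set L := Real.log x with hLdef
  have hq0 : (0 : ℝ) < q := by exact_mod_cast hq
  have hx0 : (0 : ℝ) < x := by exact_mod_cast lt_of_lt_of_le hq hqx
  have hφ : (0 : ℝ) < q.totient := by exact_mod_cast Nat.totient_pos.2 hq
  have h1 : (((Icc 1 y).filter (fun p : ℕ => Nat.Prime p ∧ ((p : ZMod q) = a))).card : ℝ)
      ≤ x / q + 1 := by
    refine le_trans ?_ (exc_count x q a hq)
    exact_mod_cast Finset.card_le_card fun n hn => by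
      rw [mem_filter, mem_Icc] at hn ⊢
      exact ⟨⟨hn.1.1, hn.1.2.trans hyx⟩, hn.2.2⟩
  have h2 : (1 : ℝ) ≤ x / q := by
    rw [le_div_iff₀ hq0]
    have : (q : ℝ) ≤ x := by exact_mod_cast hqx
    linarith only [this]
  have h3 : (Nat.primeCounting y : ℝ) ≤ x := by
    have : Nat.primeCounting y ≤ y := by
      rw [exc_pc]
      refine (Finset.card_filter_le _ _).trans ?_
      rw [Nat.card_Icc]
      omega
    exact_mod_cast this.trans hyx
  have h4 : (x : ℝ) / q.totient ≤ (x / q) * ((Nat.log 2 q : ℝ) + 1) := by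
    have e1 := Pool.Agent.H92.EH.le_totient_mul q
    have e2 : ((q.primeFactors.card : ℝ)) ≤ (Nat.log 2 q : ℝ) := by
      exact_mod_cast Pool.Agent.H92.EH.card_primeFactors_le q
    have e3 : (q : ℝ) ≤ q.totient * ((Nat.log 2 q : ℝ) + 1) :=
      e1.trans (mul_le_mul_of_nonneg_left (by linarith only [e2]) hφ.le)
    rw [div_le_iff₀ hφ]
    calc (x : ℝ) = (x / q) * q := by field_simp
      _ ≤ (x / q) * (q.totient * ((Nat.log 2 q : ℝ) + 1)) :=
        mul_le_mul_of_nonneg_left e3 (by positivity)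
      _ = _ := by ring
  have h5 : (Nat.log 2 q : ℝ) * Real.log 2 ≤ L := by
    rw [← Real.log_pow, hLdef]
    refine Real.log_le_log (by positivity) ?_
    have : 2 ^ Nat.log 2 q ≤ x := (Nat.pow_log_le_self 2 (by omega)).trans hqx
    exact_mod_cast this
  have h6 : (Nat.log 2 q : ℝ) ≤ 3 / 2 * L := by
    have e5 := Real.log_two_gt_d9
    by_contra hcon
    push Not at hcon
    have e8 : 3 / 2 * L * (0.69 : ℝ) ≤ (Nat.log 2 q : ℝ) * Real.log 2 :=
      mul_le_mul hcon.le (by linarith only [e5]) (by norm_num) (by positivity)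
    nlinarith only [hL, h5, e8]
  have h7 : (Nat.primeCounting y : ℝ) / q.totient ≤ (x / q) * (3 / 2 * L + 1) := by
    refine (div_le_div_of_nonneg_right h3 hφ.le).trans (h4.trans ?_)
    exact mul_le_mul_of_nonneg_left (by linarith only [h6]) (by positivity)
  have h8 : (0 : ℝ) ≤ (Nat.primeCounting y : ℝ) / q.totient := by positivity
  have h9 : (0 : ℝ) ≤ (((Icc 1 y).filter
      (fun p : ℕ => Nat.Prime p ∧ ((p : ZMod q) = a))).card : ℝ) := Nat.cast_nonneg _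
  unfold err
  rw [abs_le]
  have h10 : (0 : ℝ) < x / q := by positivity
  constructor <;> nlinarith only [h2, h7, hL, h1, h8]

private theorem exc_one (x : ℕ) (a : ZMod 1) : err x 1 a = 0 := by
  unfold err
  rw [exc_pc, Nat.totient_one, Nat.cast_one, div_one, sub_eq_zero]
  congr 2
  refine Finset.filter_congr fun p _ => ?_
  constructor
  · exact fun h => h.1
  · exact fun h => ⟨h, Subsingleton.elim _ _⟩

private theorem mx_le {x q a : ℕ} {t : ℝ} (h : ∀ y ≤ x, |err y q (a : ZMod q)| ≤ t) :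
    mx x q a ≤ t := by
  unfold mx
  refine Finset.sup'_le _ _ fun y hy => h y ?_
  rw [mem_range] at hy
  omega

private theorem mx_one (x a : ℕ) : mx x 1 a ≤ 0 := by
  refine mx_le fun y _ => ?_
  rw [exc_one, abs_zero]

private theorem lt_mx {x q a : ℕ} {t : ℝ} :
    t < mx x q a ↔ ∃ y : ℕ, y ≤ x ∧ t < |err y q (a : ZMod q)| := by
  unfold mx
  rw [Finset.lt_sup'_iff]
  constructor
  · rintro ⟨y, hy, h⟩
    rw [mem_range] at hy
    exact ⟨y, by omega, h⟩
  · rintro ⟨y, hy, h⟩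
    exact ⟨y, mem_range.2 (by omega), h⟩

private theorem badY_eq (x a Q : ℕ) (η : ℝ) : badY x a Q η = (Ioc Q (2 * Q)).filter
    (fun q => Nat.Coprime a q ∧ η * ((Nat.primeCounting x : ℝ) / (q.totient : ℝ)) < mx x q a) := by
  ext q
  unfold badY
  rw [mem_filter, mem_filter, lt_mx]

theorem main3 (θ : ℝ) (hθ : θ < 1) (c : ℕ) : ∃ C x0 : ℕ,
    ∀ x : ℕ, x0 ≤ x → ∀ a0 H : ℕ, Real.log x ^ C ≤ H → ((a0 + H : ℕ) : ℝ) ≤ (x : ℝ) ^ θ →
      ∃ E ⊆ Ioc a0 (a0 + H), (E.card : ℝ) ≤ H / Real.log x ^ c ∧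
        ∀ a ∈ Ioc a0 (a0 + H), a ∉ E →
          (∀ Q : ℕ, (Q : ℝ) ≤ (x : ℝ) ^ θ →
            (((Ioc Q (2 * Q)).filter (fun q => Nat.Coprime a q ∧
              C * rho x H * ((Nat.primeCounting x : ℝ) / (q.totient : ℝ)) < mx x q a)).card : ℝ)
              ≤ Q / Real.log x ^ c) ∧
          ∑ q ∈ (Icc 1 ⌊(x : ℝ) ^ θ⌋₊).filter (fun q => Nat.Coprime a q),
            max 0 (mx x q a - C * rho x H * ((Nat.primeCounting x : ℝ) / (q.totient : ℝ)))
              ≤ x / Real.log x ^ c := by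
  obtain ⟨C, x1, hx1⟩ := main2 θ hθ (c + 4)
  have ev1 : ∀ᶠ x : ℕ in Filter.atTop, (3 : ℝ) ≤ Real.log x :=
    (Real.tendsto_log_atTop.comp tendsto_natCast_atTop_atTop).eventually_ge_atTop 3
  have ev2 : ∀ᶠ x : ℕ in Filter.atTop, (2 : ℝ) ≤ (x : ℝ) ^ (1 - θ) :=
    ((tendsto_rpow_atTop (by linarith)).comp tendsto_natCast_atTop_atTop).eventually_ge_atTop 2
  obtain ⟨x2, hx2⟩ := Filter.eventually_atTop.1
    (ev1.and (ev2.and (Filter.eventually_ge_atTop 1)))
  refine ⟨C, max x1 x2, fun x hx a0 H hH haH => ?_⟩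
  obtain ⟨hL, h2, hx1n⟩ := hx2 x (le_trans (le_max_right _ _) hx)
  obtain ⟨E, hE0, hE1, hE2⟩ := hx1 x (le_trans (le_max_left _ _) hx) a0 H hH haH
  set L : ℝ := Real.log x with hLdef
  have hL0 : 0 < L := by linarith only [hL]
  have hx1r : (1 : ℝ) ≤ x := by exact_mod_cast hx1n
  have hx0 : (0 : ℝ) < x := by linarith only [hx1r]
  have hxθ : 2 * (x : ℝ) ^ θ ≤ x := by
    have e : (x : ℝ) = (x : ℝ) ^ (1 - θ) * (x : ℝ) ^ θ := by
      rw [← Real.rpow_add hx0, sub_add_cancel, Real.rpow_one]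
    calc 2 * (x : ℝ) ^ θ ≤ (x : ℝ) ^ (1 - θ) * (x : ℝ) ^ θ :=
          mul_le_mul_of_nonneg_right h2 (by positivity)
      _ = x := e.symm
  have hLc : L ^ c ≤ L ^ (c + 4) := pow_le_pow_right₀ (by linarith only [hL]) (by omega)
  have hHpos : 0 < (H : ℝ) := lt_of_lt_of_le (by positivity) hH
  have hrho : 0 ≤ rho x H := by
    have e1 : 0 ≤ Real.log (Real.log x) := Real.log_nonneg (by rw [← hLdef]; linarith only [hL])
    have e2 : 0 ≤ Real.log H := Real.log_natCast_nonneg H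
    unfold rho
    have e3 : 0 ≤ Real.log x := by rw [← hLdef]; linarith
    positivity
  set η : ℝ := C * rho x H with hη
  have hη0 : 0 ≤ η := by positivity
  refine ⟨E, hE0, hE1.trans ?_, fun a ha haE => ⟨fun Q hQ => ?_, ?_⟩⟩
  · exact div_le_div_of_nonneg_left (Nat.cast_nonneg _) (by positivity) hLc
  · rw [← badY_eq]
    refine (hE2 a ha haE Q hQ).trans ?_
    exact div_le_div_of_nonneg_left (Nat.cast_nonneg _) (by positivity) hLc
  set f : ℕ → ℝ := fun q =>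
    max 0 (mx x q a - η * ((Nat.primeCounting x : ℝ) / (q.totient : ℝ))) with hf
  set S : Finset ℕ := (Icc 1 ⌊(x : ℝ) ^ θ⌋₊).filter (fun q => Nat.Coprime a q) with hS
  set J : ℕ := ⌊2 * L⌋₊ + 1 with hJ
  have hmem : ∀ q ∈ S, 1 ≤ q ∧ (q : ℝ) ≤ (x : ℝ) ^ θ ∧ Nat.Coprime a q := by
    intro q hq
    rw [hS, mem_filter, mem_Icc] at hq
    exact ⟨hq.1.1, (Nat.cast_le.2 hq.1.2).trans (Nat.floor_le (by positivity)), hq.2⟩
  have hlogq : ∀ q ∈ S, Nat.log 2 (q - 1) ∈ range J := by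
    intro q hq
    obtain ⟨q1, q2, q3⟩ := hmem q hq
    rw [mem_range, hJ, Nat.lt_succ_iff]
    refine Nat.le_floor ?_
    rcases Nat.eq_zero_or_pos (q - 1) with h0 | h0
    · rw [h0, Nat.log_zero_right, Nat.cast_zero]
      linarith only [hL]
    have e0 : 2 ^ Nat.log 2 (q - 1) ≤ q := (Nat.pow_log_le_self 2 (by omega)).trans (by omega)
    have e3 : (2 : ℝ) ^ Nat.log 2 (q - 1) ≤ x := by
      have : ((2 ^ Nat.log 2 (q - 1) : ℕ) : ℝ) ≤ q := by exact_mod_cast e0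
      push_cast at this
      have hxθ0 : 0 < (x : ℝ) ^ θ := Real.rpow_pos_of_pos hx0 _
      linarith only [hxθ, q2, this, hxθ0]
    have e4 : (Nat.log 2 (q - 1) : ℝ) * Real.log 2 ≤ L := by
      rw [← Real.log_pow, hLdef]
      exact Real.log_le_log (by positivity) e3
    have e5 := Real.log_two_gt_d9
    by_contra hcon
    push Not at hcon
    have e8 : 2 * L * (0.69 : ℝ) ≤ (Nat.log 2 (q - 1) : ℝ) * Real.log 2 :=
      mul_le_mul hcon.le (by linarith only [e5]) (by norm_num) (by positivity)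
    linarith only [hL, e4, e8]
  rw [← Finset.sum_fiberwise_of_maps_to hlogq]
  have hblock : ∀ j ∈ range J, ∑ q ∈ S.filter (fun q => Nat.log 2 (q - 1) = j), f q ≤
      3 * x / L ^ (c + 3) := by
    intro j _
    rcases le_or_gt ((2 : ℝ) ^ j) ((x : ℝ) ^ θ) with hj | hj
    · have hb := hE2 a ha haE (2 ^ j) (by push_cast; exact hj)
      have hpj : (0 : ℝ) < 2 ^ j := by positivity
      have h1 : ∑ q ∈ S.filter (fun q => Nat.log 2 (q - 1) = j), f q ≤
          ∑ q ∈ badY x a (2 ^ j) η, 3 * L * (x / (2 : ℝ) ^ j) := by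
        rw [← Finset.sum_filter_ne_zero]
        have hsub : ∀ q ∈ (S.filter (fun q => Nat.log 2 (q - 1) = j)).filter (fun q => f q ≠ 0),
            q ∈ badY x a (2 ^ j) η ∧ f q ≤ 3 * L * (x / (2 : ℝ) ^ j) := by
          intro q hq
          rw [mem_filter, mem_filter] at hq
          obtain ⟨⟨hqS, hqj⟩, hq0⟩ := hq
          obtain ⟨q1, q2, q3⟩ := hmem q hqS
          have q4 : q ≠ 1 := by
            rintro rfl
            apply hq0
            rw [hf]
            simp only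
            refine max_eq_left ?_
            have : 0 ≤ η * ((Nat.primeCounting x : ℝ) / ((1 : ℕ).totient : ℝ)) := by positivity
            have e := mx_one x a
            linarith only [this, e]
          have q5 : 2 ^ j ≤ q - 1 := by
            rw [← hqj]
            exact Nat.pow_log_le_self 2 (by omega)
          have q6 : q - 1 < 2 ^ (j + 1) := by
            rw [← hqj]
            exact Nat.lt_pow_succ_log_self (by norm_num) _
          have q7 : 0 < mx x q a -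
              η * ((Nat.primeCounting x : ℝ) / (q.totient : ℝ)) := by
            by_contra hcon
            push Not at hcon
            exact hq0 (max_eq_left hcon)
          have e : 2 ^ (j + 1) = 2 * 2 ^ j := by rw [pow_succ]; ring
          refine ⟨?_, ?_⟩
          · rw [badY_eq, mem_filter, mem_Ioc]
            refine ⟨⟨by omega, by omega⟩, q3, by linarith only [q7]⟩
          · have q8 : f q ≤ mx x q a := by
              rw [hf]
              simp only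
              rw [max_eq_right q7.le]
              have : 0 ≤ η * ((Nat.primeCounting x : ℝ) / (q.totient : ℝ)) := by positivity
              linarith only [this]
            have hqx : q ≤ x := by
              have : (q : ℝ) ≤ x := by
                have hxθ0 : 0 < (x : ℝ) ^ θ := Real.rpow_pos_of_pos hx0 _
                linarith only [hxθ, hj, hpj, q2]
              exact_mod_cast this
            have q9 : mx x q a ≤ 3 * Real.log x * (x / q) :=
              mx_le fun y hy => exc_triv x y q hy (a : ZMod q) q1 hqx hL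
            refine q8.trans (q9.trans ?_)
            refine mul_le_mul_of_nonneg_left ?_ (by positivity)
            have q10 : (2 : ℝ) ^ j ≤ q := by
              have : 2 ^ j ≤ q := by omega
              exact_mod_cast this
            exact div_le_div_of_nonneg_left hx0.le hpj q10
        refine (Finset.sum_le_sum fun q hq => (hsub q hq).2).trans ?_
        exact Finset.sum_le_sum_of_subset_of_nonneg (fun q hq => (hsub q hq).1)
          (fun _ _ _ => by positivity)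
      refine h1.trans ?_
      rw [Finset.sum_const, nsmul_eq_mul]
      calc ((badY x a (2 ^ j) η).card : ℝ) * (3 * L * (x / (2 : ℝ) ^ j))
          ≤ (((2 ^ j : ℕ) : ℝ) / L ^ (c + 4)) * (3 * L * (x / (2 : ℝ) ^ j)) :=
            mul_le_mul_of_nonneg_right hb (by positivity)
        _ = 3 * x / L ^ (c + 3) := by
            push_cast
            rw [show c + 4 = (c + 3) + 1 by omega, pow_succ L (c + 3)]
            field_simp
    · have hempty : S.filter (fun q => Nat.log 2 (q - 1) = j) = ∅ ∨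
          ∀ q ∈ S.filter (fun q => Nat.log 2 (q - 1) = j), f q = 0 := by
        right
        intro q hq
        rw [mem_filter] at hq
        obtain ⟨hqS, hqj⟩ := hq
        obtain ⟨q1, q2, q3⟩ := hmem q hqS
        by_cases q4 : q = 1
        · subst q4
          rw [hf]
          simp only
          refine max_eq_left ?_
          have : 0 ≤ η * ((Nat.primeCounting x : ℝ) / ((1 : ℕ).totient : ℝ)) := by positivity
          have e := mx_one x a
          linarith only [this, e]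
        · exfalso
          have q5 : 2 ^ j ≤ q - 1 := by
            rw [← hqj]
            exact Nat.pow_log_le_self 2 (by omega)
          have q6 : 2 ^ j ≤ q := by omega
          have q10 : (2 : ℝ) ^ j ≤ q := by exact_mod_cast q6
          linarith only [hj, q2, q10]
      have h0 : ∀ q ∈ S.filter (fun q => Nat.log 2 (q - 1) = j), f q = 0 := by
        rcases hempty with h | h
        · intro q hq
          rw [h] at hq
          exact absurd hq (Finset.notMem_empty _)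
        · exact h
      rw [Finset.sum_eq_zero h0]
      positivity
  refine (Finset.sum_le_sum hblock).trans ?_
  rw [Finset.sum_const, card_range, nsmul_eq_mul]
  have hJ3 : (J : ℝ) ≤ 3 * L := by
    have e3 : (⌊2 * L⌋₊ : ℝ) ≤ 2 * L := Nat.floor_le (by linarith only [hL])
    rw [hJ]
    push_cast
    linarith only [hL, e3]
  calc (J : ℝ) * (3 * x / L ^ (c + 3)) ≤ 3 * L * (3 * x / L ^ (c + 3)) :=
        mul_le_mul_of_nonneg_right hJ3 (by positivity)
    _ = (9 / L ^ 2) * (x / L ^ c) := by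
        rw [show c + 3 = c + 2 + 1 by omega, pow_succ L (c + 2), pow_add]
        field_simp
        ring
    _ ≤ 1 * (x / L ^ c) := by
        refine mul_le_mul_of_nonneg_right ?_ (by positivity)
        rw [div_le_one (by positivity)]
        nlinarith only [hL]
    _ = x / L ^ c := one_mul _

end Pool.Agent.H35.U

end
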