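import Pool.Agent.H94.EH.M01
import Pool.Agent.H94.EH.M11
import Pool.Agent.H94.EH.M36

/-! The parts of this file: H80.KF.BkA, H35.KM.Sgn, H80.KF.Gram, H80.KF.Dg, H35.KM.Bkx, H80.KF.Tail, H35.KM.DiA, H35.KM.DiB, H35.KM.DiC, H35.KM.DiD. -/

section

/-!
# Signs, and Cauchy's inequality over the primes

`bk_sign`: `c_a(q) = sign(∑_p u_{a,q}(p))` if `(a,q) = 1`, and `0` otherwise.
`bk_cauchy`: Cauchy's inequality over the at most `x` primes `p ≤ y ≤ x`, `p ∉ A`; they are distinct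
elements of `RW` outside `A` (`p ≤ x < xJ`, as `J ≥ 2`) with `ww ≥ 1` (`ww_ge_one`); the other
terms are nonnegative (`ww_nonneg`).
-/

set_option autoImplicit false

namespace Pool.Agent.H80.KF

open Finset

theorem bk_cauchy (x y Q R J : ℕ) (hx : 1 ≤ x) (hyx : y ≤ x) (hJ : 2 ≤ J) (A : Finset ℤ)
    (cf : ℤ → ℕ → ℝ) :
    (∑ p ∈ (PX y).filter (fun p : ℕ => (p : ℤ) ∉ A), ∑ a ∈ A, SS R Q (cf a) a p) ^ 2 ≤
      x * ∑ n ∈ (RW x J).filter (fun n => n ∉ A), ww x J n * (∑ a ∈ A, SS R Q (cf a) a n) ^ 2 := by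
  classical
  have h1 := sq_sum_le_card_mul_sum_sq (s := (PX y).filter (fun p : ℕ => (p : ℤ) ∉ A))
    (f := fun p : ℕ => ∑ a ∈ A, SS R Q (cf a) a p)
  have hc : (((PX y).filter (fun p : ℕ => (p : ℤ) ∉ A)).card : ℝ) ≤ x := by
    have h2 : ((PX y).filter (fun p : ℕ => (p : ℤ) ∉ A)).card ≤ x := by
      refine (Finset.card_filter_le _ _).trans ?_
      unfold PX
      refine (Finset.card_filter_le _ _).trans ?_
      simpa using hyx
    exact_mod_cast h2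
  have hx0 : (0 : ℝ) ≤ x := Nat.cast_nonneg x
  have h3 : ∑ p ∈ (PX y).filter (fun p : ℕ => (p : ℤ) ∉ A), (∑ a ∈ A, SS R Q (cf a) a p) ^ 2 ≤
      ∑ n ∈ (RW x J).filter (fun n => n ∉ A), ww x J n * (∑ a ∈ A, SS R Q (cf a) a n) ^ 2 := by
    have h4 : ∑ p ∈ (PX y).filter (fun p : ℕ => (p : ℤ) ∉ A),
        (∑ a ∈ A, SS R Q (cf a) a p) ^ 2 ≤
        ∑ p ∈ (PX y).filter (fun p : ℕ => (p : ℤ) ∉ A),
          ww x J (p : ℤ) * (∑ a ∈ A, SS R Q (cf a) a (p : ℤ)) ^ 2 := by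
      refine Finset.sum_le_sum fun p hp => ?_
      have hp1 : 1 ≤ p ∧ p ≤ x := by
        have h5 := (Finset.mem_filter.1 (Finset.mem_filter.1 hp).1).1
        exact ⟨(Finset.mem_Icc.1 h5).1, (Finset.mem_Icc.1 h5).2.trans hyx⟩
      have h6 : 1 ≤ ww x J (p : ℤ) := ww_ge_one x J hx (by omega) _ (by
        rw [abs_of_nonneg (by positivity)]
        exact_mod_cast hp1.2)
      nlinarith [sq_nonneg (∑ a ∈ A, SS R Q (cf a) a (p : ℤ))]
    refine h4.trans ?_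
    rw [← Finset.sum_image (s := (PX y).filter (fun p : ℕ => (p : ℤ) ∉ A))
      (g := fun p : ℕ => (p : ℤ))
      (f := fun n : ℤ => ww x J n * (∑ a ∈ A, SS R Q (cf a) a n) ^ 2)
      (fun p _ p' _ h => by simpa using h)]
    refine Finset.sum_le_sum_of_subset_of_nonneg ?_ ?_
    · intro n hn
      obtain ⟨p, hp, rfl⟩ := Finset.mem_image.1 hn
      have hp0 := Finset.mem_filter.1 hp
      have hp2 := Finset.mem_Icc.1 (Finset.mem_filter.1 hp0.1).1
      have hp1 : 1 ≤ p ∧ p ≤ x := ⟨hp2.1, hp2.2.trans hyx⟩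
      refine Finset.mem_filter.2 ⟨?_, hp0.2⟩
      unfold RW
      rw [Finset.mem_Ico]
      constructor
      · have : (0 : ℤ) ≤ (x : ℤ) * J := by positivity
        have : (0 : ℤ) ≤ (p : ℤ) := by positivity
        linarith
      · have h7 : (p : ℤ) ≤ x := by exact_mod_cast hp1.2
        have h8 : (2 : ℤ) ≤ J := by exact_mod_cast hJ
        have h9 : (1 : ℤ) ≤ x := by exact_mod_cast hx
        nlinarith
    · intro n _ _
      exact mul_nonneg (ww_nonneg x J n) (sq_nonneg _)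
  calc (∑ p ∈ (PX y).filter (fun p : ℕ => (p : ℤ) ∉ A), ∑ a ∈ A, SS R Q (cf a) a p) ^ 2
      ≤ (((PX y).filter (fun p : ℕ => (p : ℤ) ∉ A)).card : ℝ) *
        ∑ p ∈ (PX y).filter (fun p : ℕ => (p : ℤ) ∉ A),
          (∑ a ∈ A, SS R Q (cf a) a p) ^ 2 := h1
    _ ≤ x * ∑ n ∈ (RW x J).filter (fun n => n ∉ A),
        ww x J n * (∑ a ∈ A, SS R Q (cf a) a n) ^ 2 :=
        mul_le_mul hc h3 (Finset.sum_nonneg fun _ _ => sq_nonneg _) hx0

end Pool.Agent.H80.KF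

end

section

/-!
# Signs

`bk_sign` of KF (BkA.lean) for a selection: `cf a q = sign (∑_p u_{a,q}(p))` if `a ∈ T q`, and `0`
otherwise; exchange the sums (`T q ⊆ A`).
-/

set_option autoImplicit false

namespace Pool.Agent.H35.KM

open Finset
open Pool.Agent.H80.KF

theorem sgn (y Q R M : ℕ) (A : Finset ℤ) (T : ℕ → Finset ℤ) (hT : Sel A M T) :
    ∃ cf : ℤ → ℕ → ℝ, (∀ a q, |cf a q| ≤ 1) ∧ (∀ a q, a ∉ T q → cf a q = 0) ∧
      ∑ q ∈ Ioc Q (2 * Q), ∑ a ∈ T q, |∑ p ∈ PX y, uu R q a p| =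
        ∑ p ∈ PX y, ∑ a ∈ A, SS R Q (cf a) a p := by
  classical
  refine ⟨fun a q => if a ∈ T q then
    (if 0 ≤ ∑ p ∈ PX y, uu R q a p then 1 else -1) else 0, ?_, ?_, ?_⟩
  · intro a q
    dsimp only
    split_ifs <;> simp
  · intro a q h
    exact if_neg h
  · have h1 : ∀ (a : ℤ) (q : ℕ), (if a ∈ T q then |∑ p ∈ PX y, uu R q a p| else 0) =
        (if a ∈ T q then
          (if 0 ≤ ∑ p ∈ PX y, uu R q a p then (1 : ℝ) else -1) else 0) *
          ∑ p ∈ PX y, uu R q a p := by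
      intro a q
      split_ifs with h2 h3
      · rw [one_mul, abs_of_nonneg h3]
      · rw [abs_of_neg (not_le.1 h3)]
        ring
      · rw [zero_mul]
    have h2 : ∀ q, ∑ a ∈ T q, |∑ p ∈ PX y, uu R q a p| =
        ∑ a ∈ A, if a ∈ T q then |∑ p ∈ PX y, uu R q a p| else 0 := by
      intro q
      rw [← Finset.sum_filter]
      refine Finset.sum_congr ?_ fun _ _ => rfl
      ext a
      rw [Finset.mem_filter]
      exact ⟨fun h => ⟨(hT q).1 h, h⟩, fun h => h.2⟩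
    simp only [h2]
    rw [Finset.sum_comm (s := PX y) (t := A), Finset.sum_comm]
    refine Finset.sum_congr rfl fun a _ => ?_
    unfold SS
    rw [Finset.sum_comm]
    refine Finset.sum_congr rfl fun q _ => ?_
    rw [h1, Finset.mul_sum]

end Pool.Agent.H35.KM

end

section

/-!
# The Gram matrix, exactly

Write `u = 1_{q ∣ n-a} - v`, `v = (1/q) ∑_{r ∣ q, r ≤ R} c_r(n-a)`,
`c_r(n-a) = ∑_{d ∣ r} d μ(r/d) 1_{d ∣ n-a}`, `h = a' - a`, `κ = π²x/2`.
* `⟨1, 1'⟩`: `n ≡ a (q)`, `n ≡ a' (q')` is empty unless `(q,q') ∣ h`, else `n ≡ n₀ mod [q,q']`: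
  `(κ/[q,q']) fej` (`ww_class`).
* `⟨1, v'⟩`: `∑_{n ≡ a (q), n ≡ a' (d)} = [(q,d) ∣ h] κ/[q,d]` (`[q,d] ≤ qR ≤ 2x`), `1/[q,d] =
  (q,d)/(q d)`, so `⟨1,v'⟩ = (κ/(qq')) ∑_{r ∣ q', r ≤ R} ∑_{d ∣ r} μ(r/d) (q,d)[(q,d) ∣ h]
  = (κ/(qq')) ∑_{r ∣ (q,q'), r ≤ R} c_r(h)` by `ram_gcd`.
* `⟨v, 1'⟩`: the same (`c_r(-h) = c_r(h)`).
* `⟨v, v'⟩`: `∑_{d ∣ r, d' ∣ r'} d d' μ μ [(d,d') ∣ h] κ/[d,d']` (`[d,d'] ≤ R² ≤ 2x`); the sum over
  `d'` is (`ram_gcd`) `1_{r' ∣ d} c_{r'}(h)`, then `∑_{r' ∣ d ∣ r} μ(r/d) = 1_{r = r'}`; again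
  `(κ/(qq')) ∑_{r ∣ (q,q'), r ≤ R} c_r(h)`.
Total `⟨1,1'⟩ - (κ/(qq')) ∑_{r ∣ (q,q'), r ≤ R} c_r(h)`.
-/

set_option autoImplicit false

namespace Pool.Agent.H80.KF

open Finset

/-- indicator of the class `a` modulo `d` -/
private noncomputable def gramI (d : ℕ) (a n : ℤ) : ℝ := if (d : ℤ) ∣ n - a then 1 else 0

/-- `g [g ∣ h]` -/
private noncomputable def gramG (h : ℤ) (g : ℕ) : ℝ := if (g : ℤ) ∣ h then (g : ℝ) else 0

private theorem gram_lcm_dvd (d d' : ℕ) (z : ℤ) :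
    ((Nat.lcm d d' : ℕ) : ℤ) ∣ z ↔ ((d : ℤ) ∣ z ∧ (d' : ℤ) ∣ z) := by
  rw [Int.natCast_dvd, Int.natCast_dvd, Int.natCast_dvd, Nat.lcm_dvd_iff]

private theorem gram_prod (d d' : ℕ) (a a' n0 n : ℤ) (h0 : (d : ℤ) ∣ n0 - a)
    (h0' : (d' : ℤ) ∣ n0 - a') :
    gramI d a n * gramI d' a' n = if ((Nat.lcm d d' : ℕ) : ℤ) ∣ n - n0 then 1 else 0 := by
  unfold gramI
  have e1 : (d : ℤ) ∣ n - a ↔ (d : ℤ) ∣ n - n0 := by
    constructor
    · intro h
      have := dvd_sub h h0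
      simpa using this
    · intro h
      have := dvd_add h h0
      simpa using this
  have e2 : (d' : ℤ) ∣ n - a' ↔ (d' : ℤ) ∣ n - n0 := by
    constructor
    · intro h
      have := dvd_sub h h0'
      simpa using this
    · intro h
      have := dvd_add h h0'
      simpa using this
  have e3 := gram_lcm_dvd d d' (n - n0)
  by_cases h1 : (d : ℤ) ∣ n - n0 <;> by_cases h2 : (d' : ℤ) ∣ n - n0
  · rw [if_pos (e1.2 h1), if_pos (e2.2 h2), if_pos (e3.2 ⟨h1, h2⟩)]; norm_num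
  · rw [if_neg (fun h => h2 (e2.1 h)), if_neg (fun h => h2 (e3.1 h).2)]; norm_num
  · rw [if_neg (fun h => h1 (e1.1 h)), if_neg (fun h => h1 (e3.1 h).1)]; norm_num
  · rw [if_neg (fun h => h1 (e1.1 h)), if_neg (fun h => h1 (e3.1 h).1)]; norm_num

private theorem gram_exists (d d' : ℕ) (a a' : ℤ)
    (h : ((Nat.gcd d d' : ℕ) : ℤ) ∣ a' - a) :
    ∃ n0 : ℤ, (d : ℤ) ∣ n0 - a ∧ (d' : ℤ) ∣ n0 - a' := by
  obtain ⟨k, hk⟩ := h
  have hb := Nat.gcd_eq_gcd_ab d d'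
  refine ⟨a + d * Nat.gcdA d d' * k, ?_, ?_⟩
  · exact ⟨Nat.gcdA d d' * k, by ring⟩
  · refine ⟨-(Nat.gcdB d d' * k), ?_⟩
    have : a' = a + (d * Nat.gcdA d d' + d' * Nat.gcdB d d') * k := by
      rw [← hb, ← hk]; ring
    rw [this]; ring

private theorem gram_notexists (d d' : ℕ) (a a' n : ℤ)
    (h : ¬ ((Nat.gcd d d' : ℕ) : ℤ) ∣ a' - a) :
    gramI d a n * gramI d' a' n = 0 := by
  unfold gramI
  by_cases h1 : (d : ℤ) ∣ n - a
  · by_cases h2 : (d' : ℤ) ∣ n - a'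
    · exfalso
      apply h
      have g1 : ((Nat.gcd d d' : ℕ) : ℤ) ∣ (d : ℤ) := by
        exact_mod_cast Nat.gcd_dvd_left d d'
      have g2 : ((Nat.gcd d d' : ℕ) : ℤ) ∣ (d' : ℤ) := by
        exact_mod_cast Nat.gcd_dvd_right d d'
      have := dvd_sub (g1.trans h1) (g2.trans h2)
      have e : n - a - (n - a') = a' - a := by ring
      rwa [e] at this
    · simp [h2]
  · simp [h1]

private theorem gram_J (x J d d' : ℕ) (hx : 1 ≤ x) (hJ : 1 ≤ J) (hd : 1 ≤ d) (hd' : 1 ≤ d')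
    (hdiv : Nat.lcm d d' ∣ 2 * x * J) (hle : Nat.lcm d d' ≤ 2 * x) (a a' : ℤ) :
    ∑ n ∈ RW x J, ww x J n * (gramI d a n * gramI d' a' n) =
      Real.pi ^ 2 * x / (2 * d * d') * gramG (a' - a) (Nat.gcd d d') := by
  by_cases h : ((Nat.gcd d d' : ℕ) : ℤ) ∣ a' - a
  · obtain ⟨n0, h0, h0'⟩ := gram_exists d d' a a' h
    have hl : 1 ≤ Nat.lcm d d' := Nat.lcm_pos hd hd'
    have h1 := ww_class_small x J (Nat.lcm d d') hx hJ hl hdiv hle n0
    rw [Finset.sum_filter] at h1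
    have h2 : ∑ n ∈ RW x J, ww x J n * (gramI d a n * gramI d' a' n) =
        ∑ n ∈ RW x J, if ((Nat.lcm d d' : ℕ) : ℤ) ∣ n - n0 then ww x J n else 0 := by
      apply Finset.sum_congr rfl
      intro n _
      rw [gram_prod d d' a a' n0 n h0 h0']
      split_ifs <;> simp
    rw [h2, h1]
    unfold gramG
    rw [if_pos h]
    have hmul : (Nat.gcd d d' : ℝ) * (Nat.lcm d d' : ℝ) = d * d' := by
      exact_mod_cast Nat.gcd_mul_lcm d d'
    have hl0 : (Nat.lcm d d' : ℝ) ≠ 0 := by positivity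
    have hd0 : (d : ℝ) ≠ 0 := by positivity
    have hd0' : (d' : ℝ) ≠ 0 := by positivity
    rw [div_mul_eq_mul_div, div_eq_div_iff (by positivity) (by positivity)]
    have : Real.pi ^ 2 * x * (2 * d * d') = Real.pi ^ 2 * x * 2 * (d * d') := by ring
    rw [this, ← hmul]; ring
  · have h2 : ∑ n ∈ RW x J, ww x J n * (gramI d a n * gramI d' a' n) = 0 := by
      apply Finset.sum_eq_zero
      intro n _
      rw [gram_notexists d d' a a' n h, mul_zero]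
    rw [h2]; unfold gramG; rw [if_neg h, mul_zero]

private theorem gram_ram (r : ℕ) (n : ℤ) (a : ℤ) :
    ram r (n - a) = ∑ d ∈ r.divisors, (d : ℝ) * (ArithmeticFunction.moebius (r / d) : ℝ) *
      gramI d a n := by
  unfold ram gramI
  rw [Finset.sum_filter]
  apply Finset.sum_congr rfl
  intro d _
  split_ifs <;> simp

private theorem gram_ramgcd (q r : ℕ) (hq : 1 ≤ q) (hr : 1 ≤ r) (h : ℤ) :
    ∑ d ∈ r.divisors, (ArithmeticFunction.moebius (r / d) : ℝ) * gramG h (Nat.gcd q d) =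
      if r ∣ q then ram r h else 0 := ram_gcd q r hq hr h

private theorem gram_mu (r r' : ℕ) (hr : 1 ≤ r) (hr' : 1 ≤ r') :
    ∑ d ∈ r.divisors, (ArithmeticFunction.moebius (r / d) : ℝ) * (if r' ∣ d then (1 : ℝ) else 0) =
      if r = r' then 1 else 0 := by
  by_cases h : r' ∣ r
  · obtain ⟨t, rfl⟩ := h
    have ht : 1 ≤ t := by
      rcases Nat.eq_zero_or_pos t with h0 | h0
      · subst h0; simp at hr
      · exact h0
    have e1 : ∑ d ∈ (r' * t).divisors, (ArithmeticFunction.moebius (r' * t / d) : ℝ) *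
        (if r' ∣ d then (1 : ℝ) else 0) =
        ∑ s ∈ t.divisors, (ArithmeticFunction.moebius (t / s) : ℝ) := by
      have e2 : ∑ d ∈ (r' * t).divisors, (ArithmeticFunction.moebius (r' * t / d) : ℝ) *
        (if r' ∣ d then (1 : ℝ) else 0) = ∑ d ∈ (r' * t).divisors.filter (fun d => r' ∣ d),
          (ArithmeticFunction.moebius (r' * t / d) : ℝ) := by
        rw [Finset.sum_filter]
        apply Finset.sum_congr rfl
        intro d _
        split_ifs <;> simp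
      rw [e2]
      symm
      apply Finset.sum_nbij' (fun s => r' * s) (fun d => d / r')
      · intro s hs
        rw [Nat.mem_divisors] at hs
        rw [Finset.mem_filter, Nat.mem_divisors]
        exact ⟨⟨Nat.mul_dvd_mul_left r' hs.1, by positivity⟩, Dvd.intro s rfl⟩
      · intro d hd
        rw [Finset.mem_filter, Nat.mem_divisors] at hd
        obtain ⟨⟨hd1, _⟩, ⟨s, rfl⟩⟩ := hd
        have hs : s ∣ t := Nat.dvd_of_mul_dvd_mul_left hr' hd1
        rw [Nat.mul_div_cancel_left s hr', Nat.mem_divisors]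
        exact ⟨hs, by omega⟩
      · intro s _
        exact Nat.mul_div_cancel_left s hr'
      · intro d hd
        rw [Finset.mem_filter] at hd
        exact Nat.mul_div_cancel' hd.2
      · intro s _
        rw [Nat.mul_div_mul_left _ _ hr']
    rw [e1]
    have e3 : ∑ s ∈ t.divisors, (ArithmeticFunction.moebius (t / s) : ℝ) =
        ∑ s ∈ t.divisors, (ArithmeticFunction.moebius s : ℝ) :=
      Nat.sum_div_divisors t (fun s => (ArithmeticFunction.moebius s : ℝ))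
    rw [e3]
    have e4 : ∑ s ∈ t.divisors, (ArithmeticFunction.moebius s : ℤ) = if t = 1 then 1 else 0 := by
      rw [← ArithmeticFunction.coe_mul_zeta_apply, ArithmeticFunction.moebius_mul_coe_zeta,
        ArithmeticFunction.one_apply]
    have e5 : ∑ s ∈ t.divisors, (ArithmeticFunction.moebius s : ℝ) =
        ((∑ s ∈ t.divisors, (ArithmeticFunction.moebius s : ℤ) : ℤ) : ℝ) := by push_cast; rfl
    rw [e5, e4]
    by_cases ht1 : t = 1
    · subst ht1; simp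
    · have : ¬ (r' * t = r') := by
        intro hc
        apply ht1
        have : r' * t = r' * 1 := by rw [hc, mul_one]
        exact Nat.eq_of_mul_eq_mul_left hr' this
      simp [ht1, this]
  · have e0 : ∑ d ∈ r.divisors, (ArithmeticFunction.moebius (r / d) : ℝ) *
        (if r' ∣ d then (1 : ℝ) else 0) = 0 := by
      apply Finset.sum_eq_zero
      intro d hd
      rw [Nat.mem_divisors] at hd
      have : ¬ r' ∣ d := fun hc => h (hc.trans hd.1)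
      simp [this]
    rw [e0, if_neg]
    rintro rfl
    exact h dvd_rfl

/-- the low part -/
private noncomputable def gramV (R q : ℕ) (a n : ℤ) : ℝ :=
  (1 / (q : ℝ)) * ∑ r ∈ q.divisors.filter (fun r => r ≤ R), ram r (n - a)

private theorem gramV_eq (R q : ℕ) (a n : ℤ) :
    gramV R q a n = ∑ r ∈ q.divisors.filter (fun r => r ≤ R), ∑ d ∈ r.divisors,
      (1 / (q : ℝ)) * ((d : ℝ) * (ArithmeticFunction.moebius (r / d) : ℝ)) * gramI d a n := by
  unfold gramV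
  rw [Finset.mul_sum]
  apply Finset.sum_congr rfl
  intro r _
  rw [gram_ram, Finset.mul_sum]
  apply Finset.sum_congr rfl
  intro d _
  ring

private theorem gram_uu (R q : ℕ) (a n : ℤ) : uu R q a n = gramI q a n - gramV R q a n := rfl

/-- the common value -/
private noncomputable def gramS (x R q q' : ℕ) (h : ℤ) : ℝ :=
  Real.pi ^ 2 * x / (2 * q * q') *
    ∑ r ∈ (Nat.gcd q q').divisors.filter (fun r => r ≤ R), ram r h

private theorem gramS_alt (x R q q' : ℕ) (hq : 1 ≤ q) (hq' : 1 ≤ q') (h : ℤ) :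
    gramS x R q q' h = Real.pi ^ 2 * x / (2 * q * q') *
      ∑ r ∈ q'.divisors.filter (fun r => r ≤ R), (if r ∣ q then ram r h else 0) := by
  unfold gramS
  congr 1
  rw [← Finset.sum_filter, Finset.filter_filter]
  apply Finset.sum_congr _ (fun _ _ => rfl)
  ext r
  rw [Finset.mem_filter, Finset.mem_filter, Nat.mem_divisors, Nat.mem_divisors]
  constructor
  · rintro ⟨⟨h1, h2⟩, h3⟩
    exact ⟨⟨h1.trans (Nat.gcd_dvd_right q q'), by omega⟩, h3, h1.trans (Nat.gcd_dvd_left q q')⟩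
  · rintro ⟨⟨h1, h2⟩, h3, h4⟩
    refine ⟨⟨Nat.dvd_gcd h4 h1, ?_⟩, h3⟩
    intro hc
    rw [Nat.gcd_eq_zero_iff] at hc
    omega

private theorem gramS_comm (x R q q' : ℕ) (h : ℤ) : gramS x R q q' h = gramS x R q' q h := by
  unfold gramS
  rw [Nat.gcd_comm]
  congr 2
  ring

/-- `⟨1, v'⟩` -/
private theorem gram_1v (x J R q q' : ℕ) (hx : 1 ≤ x) (hJ : 1 ≤ J) (hq : 1 ≤ q) (hq' : 1 ≤ q')
    (hdiv : ∀ m, 1 ≤ m → m ≤ q * q' → m ∣ 2 * x * J) (h1 : q * R ≤ 2 * x) (a a' : ℤ) :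
    ∑ n ∈ RW x J, ww x J n * (gramI q a n * gramV R q' a' n) = gramS x R q q' (a' - a) := by
  have e1 : ∑ n ∈ RW x J, ww x J n * (gramI q a n * gramV R q' a' n) =
      ∑ r ∈ q'.divisors.filter (fun r => r ≤ R), ∑ d ∈ r.divisors,
        (1 / (q' : ℝ)) * ((d : ℝ) * (ArithmeticFunction.moebius (r / d) : ℝ)) *
          ∑ n ∈ RW x J, ww x J n * (gramI q a n * gramI d a' n) := by
    have : ∀ n ∈ RW x J, ww x J n * (gramI q a n * gramV R q' a' n) =
        ∑ r ∈ q'.divisors.filter (fun r => r ≤ R), ∑ d ∈ r.divisors,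
        (1 / (q' : ℝ)) * ((d : ℝ) * (ArithmeticFunction.moebius (r / d) : ℝ)) *
          (ww x J n * (gramI q a n * gramI d a' n)) := by
      intro n _
      rw [gramV_eq, Finset.mul_sum, Finset.mul_sum]
      apply Finset.sum_congr rfl
      intro r _
      rw [Finset.mul_sum, Finset.mul_sum]
      apply Finset.sum_congr rfl
      intro d _
      ring
    rw [Finset.sum_congr rfl this, Finset.sum_comm]
    apply Finset.sum_congr rfl
    intro r _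
    rw [Finset.sum_comm]
    apply Finset.sum_congr rfl
    intro d _
    rw [Finset.mul_sum]
  rw [e1, gramS_alt x R q q' hq hq', Finset.mul_sum]
  apply Finset.sum_congr rfl
  intro r hr
  rw [Finset.mem_filter, Nat.mem_divisors] at hr
  obtain ⟨⟨hr1, _⟩, hrR⟩ := hr
  have hr0 : 1 ≤ r := Nat.pos_of_dvd_of_pos hr1 hq'
  rw [← gram_ramgcd q r hq hr0, Finset.mul_sum]
  apply Finset.sum_congr rfl
  intro d hd
  rw [Nat.mem_divisors] at hd
  have hd0 : 1 ≤ d := Nat.pos_of_dvd_of_pos hd.1 hr0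
  have hdr : d ≤ r := Nat.le_of_dvd hr0 hd.1
  have hdq : d ≤ q' := hdr.trans (Nat.le_of_dvd hq' hr1)
  have hl : Nat.lcm q d ≤ q * d := Nat.lcm_le_mul hq hd0
  have hl1 : Nat.lcm q d ≤ 2 * x := hl.trans ((Nat.mul_le_mul_left q (hdr.trans hrR)).trans h1)
  have hl2 : Nat.lcm q d ∣ 2 * x * J :=
    hdiv _ (Nat.lcm_pos hq hd0) (hl.trans (Nat.mul_le_mul_left q hdq))
  rw [gram_J x J q d hx hJ hq hd0 hl2 hl1]
  have hq0 : (q : ℝ) ≠ 0 := by positivity
  have hq0' : (q' : ℝ) ≠ 0 := by positivity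
  have hd0' : (d : ℝ) ≠ 0 := by positivity
  field_simp

/-- `⟨v, v'⟩` -/
private theorem gram_vv (x J R q q' : ℕ) (hx : 1 ≤ x) (hJ : 1 ≤ J) (hq : 1 ≤ q) (hq' : 1 ≤ q')
    (hdiv : ∀ m, 1 ≤ m → m ≤ q * q' → m ∣ 2 * x * J) (h3 : R * R ≤ 2 * x) (a a' : ℤ) :
    ∑ n ∈ RW x J, ww x J n * (gramV R q a n * gramV R q' a' n) = gramS x R q q' (a' - a) := by
  have e1 : ∑ n ∈ RW x J, ww x J n * (gramV R q a n * gramV R q' a' n) =
      ∑ r ∈ q.divisors.filter (fun r => r ≤ R), ∑ d ∈ r.divisors,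
        (1 / (q : ℝ)) * ((d : ℝ) * (ArithmeticFunction.moebius (r / d) : ℝ)) *
          ∑ n ∈ RW x J, ww x J n * (gramI d a n * gramV R q' a' n) := by
    have : ∀ n ∈ RW x J, ww x J n * (gramV R q a n * gramV R q' a' n) =
        ∑ r ∈ q.divisors.filter (fun r => r ≤ R), ∑ d ∈ r.divisors,
        (1 / (q : ℝ)) * ((d : ℝ) * (ArithmeticFunction.moebius (r / d) : ℝ)) *
          (ww x J n * (gramI d a n * gramV R q' a' n)) := by
      intro n _
      rw [gramV_eq R q a n, Finset.sum_mul, Finset.mul_sum]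
      apply Finset.sum_congr rfl
      intro r _
      rw [Finset.sum_mul, Finset.mul_sum]
      apply Finset.sum_congr rfl
      intro d _
      ring
    rw [Finset.sum_congr rfl this, Finset.sum_comm]
    apply Finset.sum_congr rfl
    intro r _
    rw [Finset.sum_comm]
    apply Finset.sum_congr rfl
    intro d _
    rw [Finset.mul_sum]
  have e2 : ∀ r ∈ q.divisors.filter (fun r => r ≤ R), ∀ d ∈ r.divisors,
      ∑ n ∈ RW x J, ww x J n * (gramI d a n * gramV R q' a' n) =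
        Real.pi ^ 2 * x / (2 * d * q') *
          ∑ r' ∈ q'.divisors.filter (fun r' => r' ≤ R), (if r' ∣ d then ram r' (a' - a) else 0) := by
    intro r hr d hd
    rw [Finset.mem_filter, Nat.mem_divisors] at hr
    obtain ⟨⟨hr1, _⟩, hrR⟩ := hr
    have hr0 : 1 ≤ r := Nat.pos_of_dvd_of_pos hr1 hq
    rw [Nat.mem_divisors] at hd
    have hd0 : 1 ≤ d := Nat.pos_of_dvd_of_pos hd.1 hr0
    have hdr : d ≤ r := Nat.le_of_dvd hr0 hd.1
    have hdq : d ≤ q := hdr.trans (Nat.le_of_dvd hq hr1)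
    rw [gram_1v x J R d q' hx hJ hd0 hq'
      (fun m hm hm' => hdiv m hm (hm'.trans (Nat.mul_le_mul_right q' hdq)))
      ((Nat.mul_le_mul_right R (hdr.trans hrR)).trans h3) a a',
      gramS_alt x R d q' hd0 hq']
  rw [e1, Finset.sum_congr rfl (fun r hr => Finset.sum_congr rfl (fun d hd => by
    rw [e2 r hr d hd]))]
  have e3 : ∀ r ∈ q.divisors.filter (fun r => r ≤ R), ∑ d ∈ r.divisors,
      (1 / (q : ℝ)) * ((d : ℝ) * (ArithmeticFunction.moebius (r / d) : ℝ)) *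
        (Real.pi ^ 2 * x / (2 * d * q') *
          ∑ r' ∈ q'.divisors.filter (fun r' => r' ≤ R), (if r' ∣ d then ram r' (a' - a) else 0)) =
      Real.pi ^ 2 * x / (2 * q * q') * (if r ∣ q' then ram r (a' - a) else 0) := by
    intro r hr
    rw [Finset.mem_filter, Nat.mem_divisors] at hr
    obtain ⟨⟨hr1, _⟩, hrR⟩ := hr
    have hr0 : 1 ≤ r := Nat.pos_of_dvd_of_pos hr1 hq
    have f1 : ∀ d ∈ r.divisors, (1 / (q : ℝ)) * ((d : ℝ) *
        (ArithmeticFunction.moebius (r / d) : ℝ)) * (Real.pi ^ 2 * x / (2 * d * q') *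
          ∑ r' ∈ q'.divisors.filter (fun r' => r' ≤ R), (if r' ∣ d then ram r' (a' - a) else 0)) =
        ∑ r' ∈ q'.divisors.filter (fun r' => r' ≤ R), Real.pi ^ 2 * x / (2 * q * q') *
          ram r' (a' - a) * ((ArithmeticFunction.moebius (r / d) : ℝ) *
            (if r' ∣ d then (1 : ℝ) else 0)) := by
      intro d hd
      rw [Nat.mem_divisors] at hd
      have hd0 : 1 ≤ d := Nat.pos_of_dvd_of_pos hd.1 hr0
      rw [Finset.mul_sum, Finset.mul_sum]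
      apply Finset.sum_congr rfl
      intro r' _
      have hq0 : (q : ℝ) ≠ 0 := by positivity
      have hq0' : (q' : ℝ) ≠ 0 := by positivity
      have hd0' : (d : ℝ) ≠ 0 := by positivity
      split_ifs
      · field_simp
      · simp
    rw [Finset.sum_congr rfl f1, Finset.sum_comm]
    have f2 : ∀ r' ∈ q'.divisors.filter (fun r' => r' ≤ R), ∑ d ∈ r.divisors,
        Real.pi ^ 2 * x / (2 * q * q') * ram r' (a' - a) *
          ((ArithmeticFunction.moebius (r / d) : ℝ) * (if r' ∣ d then (1 : ℝ) else 0)) =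
        if r = r' then Real.pi ^ 2 * x / (2 * q * q') * ram r' (a' - a) else 0 := by
      intro r' hr'
      rw [Finset.mem_filter, Nat.mem_divisors] at hr'
      have hr0' : 1 ≤ r' := Nat.pos_of_dvd_of_pos hr'.1.1 hq'
      rw [← Finset.mul_sum, gram_mu r r' hr0 hr0']
      split_ifs <;> simp
    rw [Finset.sum_congr rfl f2, Finset.sum_ite_eq]
    have f3 : r ∈ q'.divisors.filter (fun r' => r' ≤ R) ↔ r ∣ q' := by
      rw [Finset.mem_filter, Nat.mem_divisors]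
      constructor
      · exact fun h => h.1.1
      · exact fun h => ⟨⟨h, by omega⟩, hrR⟩
    by_cases hrq : r ∣ q'
    · rw [if_pos (f3.2 hrq), if_pos hrq]
    · rw [if_neg (fun h => hrq (f3.1 h)), if_neg hrq, mul_zero]
  rw [Finset.sum_congr rfl e3, ← Finset.mul_sum, gramS_comm, gramS_alt x R q' q hq' hq]
  congr 1
  ring

private theorem gram_total (x J R q q' : ℕ) (hx : 1 ≤ x) (hJ : 1 ≤ J) (hq : 1 ≤ q) (hq' : 1 ≤ q')
    (hdiv : ∀ m, 1 ≤ m → m ≤ q * q' → m ∣ 2 * x * J) (h1 : q * R ≤ 2 * x) (h2 : q' * R ≤ 2 * x)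
    (h3 : R * R ≤ 2 * x) (a a' : ℤ) :
    ∑ n ∈ RW x J, ww x J n * uu R q a n * uu R q' a' n =
      ∑ n ∈ RW x J, ww x J n * (gramI q a n * gramI q' a' n) - gramS x R q q' (a' - a) := by
  have e1 := gram_1v x J R q q' hx hJ hq hq' hdiv h1 a a'
  have e2 := gram_1v x J R q' q hx hJ hq' hq
    (fun m hm hm' => hdiv m hm (by rwa [Nat.mul_comm])) h2 a' a
  have e3 := gram_vv x J R q q' hx hJ hq hq' hdiv h3 a a'
  have e4 : gramS x R q' q (a - a') = gramS x R q q' (a' - a) := by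
    rw [gramS_comm]
    unfold gramS
    congr 1
    apply Finset.sum_congr rfl
    intro r _
    unfold ram
    have : ∀ d : ℕ, ((d : ℤ) ∣ a - a') ↔ ((d : ℤ) ∣ a' - a) := by
      intro d
      rw [← dvd_neg, neg_sub]
    simp only [this]
  rw [e4] at e2
  have e5 : ∑ n ∈ RW x J, ww x J n * uu R q a n * uu R q' a' n =
      ∑ n ∈ RW x J, ww x J n * (gramI q a n * gramI q' a' n)
      - ∑ n ∈ RW x J, ww x J n * (gramI q a n * gramV R q' a' n)
      - ∑ n ∈ RW x J, ww x J n * (gramI q' a' n * gramV R q a n)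
      + ∑ n ∈ RW x J, ww x J n * (gramV R q a n * gramV R q' a' n) := by
    rw [← Finset.sum_sub_distrib, ← Finset.sum_sub_distrib, ← Finset.sum_add_distrib]
    apply Finset.sum_congr rfl
    intro n _
    rw [gram_uu, gram_uu]
    ring
  rw [e5, e1, e2, e3]
  ring

theorem gram_in (x J R q q' : ℕ) (hx : 1 ≤ x) (hJ : 1 ≤ J) (hq : 1 ≤ q) (hq' : 1 ≤ q')
    (hdiv : ∀ m, 1 ≤ m → m ≤ q * q' → m ∣ 2 * x * J) (h1 : q * R ≤ 2 * x) (h2 : q' * R ≤ 2 * x)
    (h3 : R * R ≤ 2 * x) (a a' n0 : ℤ) (hn : (q : ℤ) ∣ n0 - a) (hn' : (q' : ℤ) ∣ n0 - a') :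
    ((∑ n ∈ RW x J, ww x J n * uu R q a n * uu R q' a' n : ℝ) : ℂ) =
      ((Real.pi ^ 2 * x / (2 * (Nat.lcm q q' : ℕ)) : ℝ) : ℂ) * fej x (Nat.lcm q q') n0 -
        ((Real.pi ^ 2 * x / (2 * q * q') *
          ∑ r ∈ (Nat.gcd q q').divisors.filter (fun r => r ≤ R), ram r (a' - a) : ℝ) : ℂ) := by
  rw [gram_total x J R q q' hx hJ hq hq' hdiv h1 h2 h3 a a']
  have hl : 1 ≤ Nat.lcm q q' := Nat.lcm_pos hq hq'
  have e1 := ww_class x J (Nat.lcm q q') hx hJ hl (hdiv _ hl (Nat.lcm_le_mul hq hq')) n0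
  have e2 : ∑ n ∈ RW x J, ww x J n * (gramI q a n * gramI q' a' n) =
      ∑ n ∈ (RW x J).filter (fun n => ((Nat.lcm q q' : ℕ) : ℤ) ∣ n - n0), ww x J n := by
    rw [Finset.sum_filter]
    apply Finset.sum_congr rfl
    intro n _
    rw [gram_prod q q' a a' n0 n hn hn']
    split_ifs <;> simp
  rw [e2, Complex.ofReal_sub, e1]
  rfl

theorem gram_out (x J R q q' : ℕ) (hx : 1 ≤ x) (hJ : 1 ≤ J) (hq : 1 ≤ q) (hq' : 1 ≤ q')
    (hdiv : ∀ m, 1 ≤ m → m ≤ q * q' → m ∣ 2 * x * J) (h1 : q * R ≤ 2 * x) (h2 : q' * R ≤ 2 * x)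
    (h3 : R * R ≤ 2 * x) (a a' : ℤ) (h : ¬ ((Nat.gcd q q' : ℕ) : ℤ) ∣ a' - a) :
    ∑ n ∈ RW x J, ww x J n * uu R q a n * uu R q' a' n =
      -(Real.pi ^ 2 * x / (2 * q * q') *
          ∑ r ∈ (Nat.gcd q q').divisors.filter (fun r => r ≤ R), ram r (a' - a)) := by
  rw [gram_total x J R q q' hx hJ hq hq' hdiv h1 h2 h3 a a']
  have e2 : ∑ n ∈ RW x J, ww x J n * (gramI q a n * gramI q' a' n) = 0 := by
    apply Finset.sum_eq_zero
    intro n _
    rw [gram_notexists q q' a a' n h, mul_zero]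
  rw [e2]
  unfold gramS
  ring

end Pool.Agent.H80.KF

end

section

/-!
# The diagonal, and pointwise bounds

`u = 1_{q ∣ n-a} - v`.  For `n ≠ a`: `∑_q 1_{q ∣ n-a} = A(n)`,
`∑_q |v| ≤ ∑_{r ≤ R, r ≤ 2Q} |c_r(n-a)| ∑_{q, r ∣ q} 1/q ≤ 3 ∑_{r ≤ R} (1/r) ∑_{d ∣ r, d ∣ n-a} d
≤ 3 (1 + log R) D(n)`, `D(n) = #{d ≤ R : d ∣ n-a}`.
`∑_{n ≠ a} ww A² = ∑_{q,q'} ∑_{n ≠ a, [q,q'] ∣ n-a} ww ≤ 100x ∑ 1/[q,q']` (`ww_tail`) and
`∑_{q,q'} (q,q')/(qq') ≤ ∑_{g ≤ 2Q} g (3/g)² ≤ 9(1 + log 2Q)`; in the same way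
`∑ ww D² ≤ 100 x ∑_{d,d' ≤ R} (d,d')/(dd') ≤ 100 x (1 + log R)³`.  `SS² ≤ 2A² + 2(∑|v|)²`.
`pt_bd`: `A, D ≤ τ(|n-a|)`, divisor bound.  `pt_ctr`: `u(a) = 1 - (1/q) ∑_{r ∣ q, r ≤ R} φ(r) ∈ [0,1]`.
-/

set_option autoImplicit false

namespace Pool.Agent.H80.KF

open Finset

/-- number of the elements of `S` dividing `h` -/
noncomputable def Dg_cnt (S : Finset ℕ) (h : ℤ) : ℝ :=
  ((S.filter (fun d : ℕ => (d : ℤ) ∣ h)).card : ℝ)

theorem Dg_cnt_nonneg (S : Finset ℕ) (h : ℤ) : 0 ≤ Dg_cnt S h := Nat.cast_nonneg _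

theorem Dg_cnt_eq (S : Finset ℕ) (h : ℤ) :
    Dg_cnt S h = ∑ d ∈ S, if (d : ℤ) ∣ h then (1 : ℝ) else 0 := by
  unfold Dg_cnt
  rw [Finset.card_filter]
  push_cast
  rfl

theorem Dg_harm (R : ℕ) : ∑ k ∈ Icc 1 R, (1 : ℝ) / k ≤ 1 + Real.log R := by
  have h := harmonic_le_one_add_log R
  rw [harmonic_eq_sum_Icc] at h
  push_cast at h
  simpa [one_div] using h

theorem Dg_one_log (R : ℕ) : 0 ≤ 1 + Real.log R := by
  rcases Nat.eq_zero_or_pos R with h | h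
  · subst h
    simp
  · have : 0 ≤ Real.log R := Real.log_nonneg (by exact_mod_cast h)
    linarith

theorem Dg_inv_mult (R d : ℕ) (hd : 1 ≤ d) :
    ∑ r ∈ (Icc 1 R).filter (fun r => d ∣ r), (1 : ℝ) / r ≤ (1 + Real.log R) / d := by
  have hd0 : (0 : ℝ) < d := by exact_mod_cast hd
  have hsub : (Icc 1 R).filter (fun r => d ∣ r) ⊆ (Icc 1 R).image (fun k => d * k) := by
    intro r hr
    rw [mem_filter, mem_Icc] at hr
    obtain ⟨⟨h1, h2⟩, k, rfl⟩ := hr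
    rw [mem_image]
    refine ⟨k, ?_, rfl⟩
    rw [mem_Icc]
    constructor
    · by_contra h
      have : k = 0 := by omega
      subst this
      simp at h1
    · exact le_trans (Nat.le_mul_of_pos_left k hd) h2
  calc ∑ r ∈ (Icc 1 R).filter (fun r => d ∣ r), (1 : ℝ) / r
      ≤ ∑ r ∈ (Icc 1 R).image (fun k => d * k), (1 : ℝ) / r :=
        sum_le_sum_of_subset_of_nonneg hsub fun r _ _ => by positivity
    _ = ∑ k ∈ Icc 1 R, (1 : ℝ) / ((d * k : ℕ) : ℝ) := by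
        apply sum_image
        intro k _ k' _ h
        exact Nat.eq_of_mul_eq_mul_left hd h
    _ = (∑ k ∈ Icc 1 R, (1 : ℝ) / k) / d := by
        rw [sum_div]
        apply sum_congr rfl
        intro k _
        push_cast
        rw [div_div, mul_comm]
    _ ≤ (1 + Real.log R) / d := div_le_div_of_nonneg_right (Dg_harm R) hd0.le

theorem Dg_ram (R r : ℕ) (hr : r ∈ Icc 1 R) (h : ℤ) :
    |ram r h| ≤ ∑ d ∈ Icc 1 R, if d ∣ r ∧ (d : ℤ) ∣ h then (d : ℝ) else 0 := by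
  refine (ram_abs r h).trans (le_of_eq ?_)
  rw [← sum_filter]
  apply sum_congr _ fun _ _ => rfl
  rw [mem_Icc] at hr
  ext d
  rw [mem_filter, mem_filter, mem_Icc, Nat.mem_divisors]
  constructor
  · rintro ⟨⟨h1, h2⟩, h3⟩
    exact ⟨⟨Nat.pos_of_dvd_of_pos h1 (by omega), (Nat.le_of_dvd (by omega) h1).trans hr.2⟩, h1, h3⟩
  · rintro ⟨_, h1, h3⟩
    exact ⟨⟨h1, by omega⟩, h3⟩

theorem Dg_vv (Q R : ℕ) (hQ : 1 ≤ Q) (h : ℤ) :
    ∑ q ∈ Ioc Q (2 * Q), |(1 / (q : ℝ)) * ∑ r ∈ q.divisors.filter (fun r => r ≤ R), ram r h| ≤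
      3 * (1 + Real.log R) * Dg_cnt (Icc 1 R) h := by
  have e1 : ∀ q ∈ Ioc Q (2 * Q),
      |(1 / (q : ℝ)) * ∑ r ∈ q.divisors.filter (fun r => r ≤ R), ram r h| ≤
        ∑ r ∈ Icc 1 R, if r ∣ q then (1 / (q : ℝ)) * |ram r h| else 0 := by
    intro q hq
    rw [mem_Ioc] at hq
    have hq0 : (0 : ℝ) < q := by
      have : 0 < q := by omega
      exact_mod_cast this
    rw [abs_mul, abs_of_pos (by positivity : (0 : ℝ) < 1 / q), ← sum_filter, ← mul_sum]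
    apply mul_le_mul_of_nonneg_left _ (by positivity)
    refine (abs_sum_le_sum_abs _ _).trans (le_of_eq ?_)
    apply sum_congr _ fun _ _ => rfl
    ext r
    rw [mem_filter, mem_filter, mem_Icc, Nat.mem_divisors]
    constructor
    · rintro ⟨⟨h1, h2⟩, h3⟩
      exact ⟨⟨Nat.pos_of_dvd_of_pos h1 (by omega), h3⟩, h1⟩
    · rintro ⟨⟨_, h3⟩, h1⟩
      exact ⟨⟨h1, by omega⟩, h3⟩
  have e2 : ∀ r ∈ Icc 1 R, (∑ q ∈ Ioc Q (2 * Q), if r ∣ q then (1 / (q : ℝ)) * |ram r h| else 0) ≤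
      (3 / (r : ℝ)) * |ram r h| := by
    intro r hr
    rw [mem_Icc] at hr
    rw [← sum_filter, ← sum_mul]
    apply mul_le_mul_of_nonneg_right _ (abs_nonneg _)
    by_cases hrQ : r ≤ 2 * Q
    · exact sum_inv_mult Q r hQ hr.1 hrQ
    · have : (Ioc Q (2 * Q)).filter (fun q => r ∣ q) = ∅ := by
        apply filter_eq_empty_iff.2
        intro q hq hrq
        rw [mem_Ioc] at hq
        have := Nat.le_of_dvd (by omega) hrq
        omega
      rw [this, sum_empty]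
      positivity
  have e3 : ∀ r ∈ Icc 1 R, (3 / (r : ℝ)) * |ram r h| ≤
      ∑ d ∈ Icc 1 R, if d ∣ r ∧ (d : ℤ) ∣ h then (3 / (r : ℝ)) * d else 0 := by
    intro r hr
    have h1 := mul_le_mul_of_nonneg_left (Dg_ram R r hr h) (by positivity : (0 : ℝ) ≤ 3 / r)
    refine h1.trans (le_of_eq ?_)
    rw [mul_sum]
    apply sum_congr rfl
    intro d _
    rw [mul_ite, mul_zero]
  have e4 : ∀ d ∈ Icc 1 R, (∑ r ∈ Icc 1 R, if d ∣ r ∧ (d : ℤ) ∣ h then (3 / (r : ℝ)) * d else 0) ≤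
      if (d : ℤ) ∣ h then 3 * (1 + Real.log R) else 0 := by
    intro d hd
    rw [mem_Icc] at hd
    have hd0 : (0 : ℝ) < d := by exact_mod_cast hd.1
    by_cases hdh : (d : ℤ) ∣ h
    · rw [if_pos hdh]
      have h1 : (∑ r ∈ Icc 1 R, if d ∣ r ∧ (d : ℤ) ∣ h then (3 / (r : ℝ)) * d else 0) =
          3 * d * ∑ r ∈ (Icc 1 R).filter (fun r => d ∣ r), (1 : ℝ) / r := by
        rw [mul_sum, sum_filter]
        apply sum_congr rfl
        intro r _
        by_cases hdr : d ∣ r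
        · rw [if_pos ⟨hdr, hdh⟩, if_pos hdr]
          ring
        · rw [if_neg (fun h => hdr h.1), if_neg hdr]
      rw [h1]
      have h2 := mul_le_mul_of_nonneg_left (Dg_inv_mult R d hd.1) (by positivity : (0 : ℝ) ≤ 3 * d)
      refine h2.trans (le_of_eq ?_)
      field_simp
    · rw [if_neg hdh]
      apply le_of_eq
      apply sum_eq_zero
      intro r _
      rw [if_neg (fun h => hdh h.2)]
  calc ∑ q ∈ Ioc Q (2 * Q), |(1 / (q : ℝ)) * ∑ r ∈ q.divisors.filter (fun r => r ≤ R), ram r h|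
      ≤ ∑ q ∈ Ioc Q (2 * Q), ∑ r ∈ Icc 1 R, (if r ∣ q then (1 / (q : ℝ)) * |ram r h| else 0) :=
        sum_le_sum e1
    _ = ∑ r ∈ Icc 1 R, ∑ q ∈ Ioc Q (2 * Q), (if r ∣ q then (1 / (q : ℝ)) * |ram r h| else 0) :=
        sum_comm
    _ ≤ ∑ r ∈ Icc 1 R, (3 / (r : ℝ)) * |ram r h| := sum_le_sum e2
    _ ≤ ∑ r ∈ Icc 1 R, ∑ d ∈ Icc 1 R, (if d ∣ r ∧ (d : ℤ) ∣ h then (3 / (r : ℝ)) * d else 0) :=
        sum_le_sum e3
    _ = ∑ d ∈ Icc 1 R, ∑ r ∈ Icc 1 R, (if d ∣ r ∧ (d : ℤ) ∣ h then (3 / (r : ℝ)) * d else 0) :=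
        sum_comm
    _ ≤ ∑ d ∈ Icc 1 R, (if (d : ℤ) ∣ h then 3 * (1 + Real.log R) else 0) := sum_le_sum e4
    _ = 3 * (1 + Real.log R) * Dg_cnt (Icc 1 R) h := by
        rw [Dg_cnt_eq, mul_sum]
        apply sum_congr rfl
        intro d _
        rw [mul_ite, mul_one, mul_zero]

/-- the pointwise bound -/
theorem Dg_ss (R Q : ℕ) (hQ : 1 ≤ Q) (c : ℕ → ℝ) (hc : ∀ q, |c q| ≤ 1) (a n : ℤ) :
    |SS R Q c a n| ≤ Dg_cnt (Ioc Q (2 * Q)) (n - a) +
      3 * (1 + Real.log R) * Dg_cnt (Icc 1 R) (n - a) := by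
  refine le_trans ?_ (add_le_add le_rfl (Dg_vv Q R hQ (n - a)))
  rw [Dg_cnt_eq, ← sum_add_distrib]
  unfold SS
  refine (abs_sum_le_sum_abs _ _).trans (sum_le_sum fun q _ => ?_)
  rw [abs_mul]
  have h1 : |c q| * |uu R q a n| ≤ 1 * |uu R q a n| :=
    mul_le_mul_of_nonneg_right (hc q) (abs_nonneg _)
  rw [one_mul] at h1
  refine h1.trans ?_
  unfold uu
  refine (abs_sub _ _).trans ?_
  apply add_le_add _ le_rfl
  split_ifs
  · rw [abs_one]
  · rw [abs_zero]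

/-- the sum of the absolute values -/
noncomputable def SA (R Q : ℕ) (a n : ℤ) : ℝ := ∑ q ∈ Ioc Q (2 * Q), |uu R q a n|

theorem ss_le_sa (R Q : ℕ) (c : ℕ → ℝ) (hc : ∀ q, |c q| ≤ 1) (a n : ℤ) :
    |SS R Q c a n| ≤ SA R Q a n := by
  unfold SS SA
  refine (abs_sum_le_sum_abs _ _).trans (sum_le_sum fun q _ => ?_)
  rw [abs_mul]
  have h1 : |c q| * |uu R q a n| ≤ 1 * |uu R q a n| :=
    mul_le_mul_of_nonneg_right (hc q) (abs_nonneg _)
  rwa [one_mul] at h1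

theorem pt_ctr (R Q : ℕ) (a : ℤ) : SA R Q a a ≤ Q := by
  unfold SA
  have h1 : ∀ q ∈ Ioc Q (2 * Q), |uu R q a a| ≤ 1 := by
    intro q hq
    rw [mem_Ioc] at hq
    have hq0 : (0 : ℝ) < q := by
      have : 0 < q := by omega
      exact_mod_cast this
    unfold uu
    rw [sub_self, if_pos (dvd_zero _)]
    have h2 : ∀ r, ram r 0 = (Nat.totient r : ℝ) := ram_at_zero
    simp only [h2]
    have h3 : ∑ r ∈ q.divisors.filter (fun r => r ≤ R), (Nat.totient r : ℝ) ≤ q := by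
      calc ∑ r ∈ q.divisors.filter (fun r => r ≤ R), (Nat.totient r : ℝ)
          ≤ ∑ r ∈ q.divisors, (Nat.totient r : ℝ) :=
            sum_le_sum_of_subset_of_nonneg (filter_subset _ _) fun _ _ _ => Nat.cast_nonneg _
        _ = q := by exact_mod_cast Nat.sum_totient q
    have h4 : 0 ≤ ∑ r ∈ q.divisors.filter (fun r => r ≤ R), (Nat.totient r : ℝ) :=
      sum_nonneg fun _ _ => Nat.cast_nonneg _
    have h5 : 1 / (q : ℝ) * ∑ r ∈ q.divisors.filter (fun r => r ≤ R), (Nat.totient r : ℝ) ≤ 1 := by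
      rw [one_div_mul_eq_div, div_le_one hq0]
      exact h3
    have h6 : 0 ≤ 1 / (q : ℝ) * ∑ r ∈ q.divisors.filter (fun r => r ≤ R), (Nat.totient r : ℝ) := by
      positivity
    rw [abs_le]
    constructor <;> linarith
  calc ∑ q ∈ Ioc Q (2 * Q), |uu R q a a| ≤ ∑ q ∈ Ioc Q (2 * Q), (1 : ℝ) := sum_le_sum h1
    _ = Q := by
        rw [sum_const, Nat.card_Ioc, nsmul_eq_mul, mul_one]
        congr 1
        omega

theorem Dg_cnt_le (S : Finset ℕ) (h : ℤ) (hh : h ≠ 0) : Dg_cnt S h ≤ (h.natAbs.divisors.card : ℝ) := by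
  unfold Dg_cnt
  have : (S.filter (fun d : ℕ => (d : ℤ) ∣ h)).card ≤ h.natAbs.divisors.card := by
    apply card_le_card
    intro d hd
    rw [mem_filter] at hd
    rw [Nat.mem_divisors]
    exact ⟨Int.natCast_dvd.1 hd.2, Int.natAbs_ne_zero.2 hh⟩
  exact_mod_cast this

theorem pt_bd : ∃ x0 : ℕ, ∀ x Q R : ℕ, x0 ≤ x → 1 ≤ Q → 1 ≤ R → R ≤ x → ∀ a n : ℤ, a ≠ n →
    |a| ≤ x → |n| ≤ x → SA R Q a n ≤ (x : ℝ) ^ ((1 : ℝ) / 1000) := by
  obtain ⟨C, hC1, hC⟩ := Pool.Agent.H92.EH.div_bound (1 / 4000) (by norm_num)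
  refine ⟨⌈(24008 * C) ^ 2000⌉₊ + 1, ?_⟩
  intro x Q R hx hQ hR hRx a n han ha hn
  have hx1 : 1 ≤ x := by omega
  have hx1' : (1 : ℝ) ≤ x := by exact_mod_cast hx1
  have hx0 : (0 : ℝ) < x := by linarith
  have hbig : (24008 * C) ^ 2000 ≤ (x : ℝ) := by
    have h1 : (24008 * C) ^ 2000 ≤ (⌈(24008 * C) ^ 2000⌉₊ : ℝ) := Nat.le_ceil _
    have h2 : (⌈(24008 * C) ^ 2000⌉₊ : ℝ) ≤ x := by exact_mod_cast (by omega)
    linarith
  have hroot : 24008 * C ≤ (x : ℝ) ^ ((1 : ℝ) / 2000) := by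
    have h1 : ((24008 * C) ^ 2000) ^ ((1 : ℝ) / 2000) ≤ (x : ℝ) ^ ((1 : ℝ) / 2000) :=
      Real.rpow_le_rpow (by positivity) hbig (by norm_num)
    have h2 : ((24008 * C) ^ 2000) ^ ((1 : ℝ) / 2000) = 24008 * C := by
      rw [← Real.rpow_natCast (24008 * C) 2000, ← Real.rpow_mul (by positivity)]
      norm_num
    rwa [h2] at h1
  set h : ℤ := n - a with hh
  have hh0 : h ≠ 0 := by
    intro h0
    exact han (by omega)
  have hhx : (h.natAbs : ℝ) ≤ 2 * x := by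
    have h1 : |h| ≤ 2 * x := by
      rw [hh]
      exact (abs_sub n a).trans (by linarith)
    have h2 : ((h.natAbs : ℕ) : ℤ) ≤ 2 * x := by
      rw [Int.natCast_natAbs]
      exact h1
    exact_mod_cast h2
  have hhp : 1 ≤ h.natAbs := Int.natAbs_pos.2 hh0
  have hSA : SA R Q a n ≤ Dg_cnt (Ioc Q (2 * Q)) h + 3 * (1 + Real.log R) * Dg_cnt (Icc 1 R) h := by
    have h1 := Dg_ss R Q hQ (fun q => if 0 ≤ uu R q a n then 1 else -1) (fun q => by
      split_ifs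
      · rw [abs_one]
      · rw [abs_neg, abs_one]) a n
    refine le_trans ?_ h1
    refine le_trans (le_of_eq ?_) (le_abs_self _)
    unfold SA SS
    apply sum_congr rfl
    intro q _
    change |uu R q a n| = (if 0 ≤ uu R q a n then (1 : ℝ) else -1) * uu R q a n
    split_ifs with h2
    · rw [abs_of_nonneg h2, one_mul]
    · rw [abs_of_neg (not_le.1 h2)]
      ring
  have hlogR : Real.log R ≤ Real.log x :=
    Real.log_le_log (by exact_mod_cast hR) (by exact_mod_cast hRx)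
  have hlogR0 : 0 ≤ Real.log R := Real.log_nonneg (by exact_mod_cast hR)
  set T : ℝ := (h.natAbs.divisors.card : ℝ) with hT
  have hT0 : 0 ≤ T := Nat.cast_nonneg _
  have h1 : SA R Q a n ≤ T * (4 + 3 * Real.log x) := by
    have h2 := Dg_cnt_le (Ioc Q (2 * Q)) h hh0
    have h3 := Dg_cnt_le (Icc 1 R) h hh0
    have h4 : 3 * (1 + Real.log R) * Dg_cnt (Icc 1 R) h ≤ 3 * (1 + Real.log x) * T :=
      mul_le_mul (by linarith) h3 (Dg_cnt_nonneg _ _) (by linarith)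
    calc SA R Q a n ≤ T + 3 * (1 + Real.log x) * T := hSA.trans (add_le_add h2 h4)
      _ = T * (4 + 3 * Real.log x) := by ring
  have h2 : T ≤ 2 * C * (x : ℝ) ^ ((1 : ℝ) / 4000) := by
    have h3 := hC h.natAbs hhp
    have h4 : (h.natAbs : ℝ) ^ ((1 : ℝ) / 4000) ≤ (2 * (x : ℝ)) ^ ((1 : ℝ) / 4000) :=
      Real.rpow_le_rpow (Nat.cast_nonneg _) hhx (by norm_num)
    have h5 : (2 * (x : ℝ)) ^ ((1 : ℝ) / 4000) = (2 : ℝ) ^ ((1 : ℝ) / 4000) * (x : ℝ) ^ ((1 : ℝ) / 4000) :=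
      Real.mul_rpow (by norm_num) hx0.le
    have h6 : (2 : ℝ) ^ ((1 : ℝ) / 4000) ≤ 2 := by
      calc (2 : ℝ) ^ ((1 : ℝ) / 4000) ≤ (2 : ℝ) ^ (1 : ℝ) :=
            Real.rpow_le_rpow_of_exponent_le (by norm_num) (by norm_num)
        _ = 2 := Real.rpow_one 2
    have h7 : (0 : ℝ) ≤ (x : ℝ) ^ ((1 : ℝ) / 4000) := by positivity
    calc T ≤ C * (h.natAbs : ℝ) ^ ((1 : ℝ) / 4000) := h3
      _ ≤ C * ((2 : ℝ) ^ ((1 : ℝ) / 4000) * (x : ℝ) ^ ((1 : ℝ) / 4000)) := by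
          rw [← h5]
          exact mul_le_mul_of_nonneg_left h4 (by linarith)
      _ ≤ C * (2 * (x : ℝ) ^ ((1 : ℝ) / 4000)) :=
          mul_le_mul_of_nonneg_left (mul_le_mul_of_nonneg_right h6 h7) (by linarith)
      _ = 2 * C * (x : ℝ) ^ ((1 : ℝ) / 4000) := by ring
  have h3 : 4 + 3 * Real.log x ≤ 12004 * (x : ℝ) ^ ((1 : ℝ) / 4000) := by
    have h4 : Real.log x ≤ (x : ℝ) ^ ((1 : ℝ) / 4000) / (1 / 4000) :=
      Real.log_le_rpow_div hx0.le (by norm_num)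
    have h5 : (1 : ℝ) ≤ (x : ℝ) ^ ((1 : ℝ) / 4000) := Real.one_le_rpow hx1' (by norm_num)
    have h6 : (x : ℝ) ^ ((1 : ℝ) / 4000) / (1 / 4000) = 4000 * (x : ℝ) ^ ((1 : ℝ) / 4000) := by ring
    rw [h6] at h4
    linarith
  have hlx : 0 ≤ Real.log x := Real.log_nonneg hx1'
  calc SA R Q a n ≤ T * (4 + 3 * Real.log x) := h1
    _ ≤ (2 * C * (x : ℝ) ^ ((1 : ℝ) / 4000)) * (12004 * (x : ℝ) ^ ((1 : ℝ) / 4000)) :=
        mul_le_mul h2 h3 (by linarith) (by positivity)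
    _ = 24008 * C * ((x : ℝ) ^ ((1 : ℝ) / 4000) * (x : ℝ) ^ ((1 : ℝ) / 4000)) := by ring
    _ = 24008 * C * (x : ℝ) ^ ((1 : ℝ) / 2000) := by
        rw [← Real.rpow_add hx0]
        norm_num
    _ ≤ (x : ℝ) ^ ((1 : ℝ) / 2000) * (x : ℝ) ^ ((1 : ℝ) / 2000) :=
        mul_le_mul_of_nonneg_right hroot (by positivity)
    _ = (x : ℝ) ^ ((1 : ℝ) / 1000) := by
        rw [← Real.rpow_add hx0]
        norm_num

end Pool.Agent.H80.KF

end

section

/-!
# Expanding the square, with the total diagonal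

`bk_expand` of KF (BkB.lean) with the hypothesis `hD` on the sum of the diagonal terms instead of a
bound for each of them; the same proof (its private lemmas have to be copied).
-/

set_option autoImplicit false

namespace Pool.Agent.H35.KM

open Finset
open Pool.Agent.H80.KF

private theorem Bkx_pt (Q R : ℕ) (A : Finset ℤ) (cf : ℤ → ℕ → ℝ)
    (hcf : ∀ a q, |cf a q| ≤ 1) (M : ℝ) (hM0 : 0 ≤ M)
    (hM : ∀ a ∈ A, ∀ n ∈ A, a ≠ n → SA R Q a n ≤ M) (hC : ∀ a ∈ A, SA R Q a a ≤ Q)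
    (a a' : ℤ) (ha : a ∈ A) (ha' : a' ∈ A) (haa : a ≠ a') (n : ℤ) (hn : n ∈ A) :
    |SS R Q (cf a) a n| * |SS R Q (cf a') a' n| ≤
      M ^ 2 + (if n = a then (Q : ℝ) * M else 0) + (if n = a' then (Q : ℝ) * M else 0) := by
  have hQ : (0 : ℝ) ≤ Q := Nat.cast_nonneg Q
  have hQM : (0 : ℝ) ≤ Q * M := mul_nonneg hQ hM0
  have hM2 : (0 : ℝ) ≤ M ^ 2 := sq_nonneg M
  have h1 := ss_le_sa R Q (cf a) (hcf a) a n
  have h2 := ss_le_sa R Q (cf a') (hcf a') a' n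
  by_cases hna : n = a
  · subst hna
    have h3 := hC n ha
    have h4 := hM a' ha' n hn haa.symm
    have h5 : |SS R Q (cf n) n n| * |SS R Q (cf a') a' n| ≤ Q * M :=
      mul_le_mul (h1.trans h3) (h2.trans h4) (abs_nonneg _) hQ
    rw [if_pos rfl]
    split_ifs <;> linarith
  · have h3 := hM a ha n hn (Ne.symm hna)
    by_cases hna' : n = a'
    · subst hna'
      have h4 := hC n ha'
      have h5 : |SS R Q (cf a) a n| * |SS R Q (cf n) n n| ≤ M * Q :=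
        mul_le_mul (h1.trans h3) (h2.trans h4) (abs_nonneg _) hM0
      rw [if_neg hna, if_pos rfl]
      linarith
    · have h4 := hM a' ha' n hn (Ne.symm hna')
      have h5 : |SS R Q (cf a) a n| * |SS R Q (cf a') a' n| ≤ M * M :=
        mul_le_mul (h1.trans h3) (h2.trans h4) (abs_nonneg _) hM0
      rw [if_neg hna, if_neg hna']
      nlinarith

private theorem Bkx_off (x Q R J : ℕ) (hx : 1 ≤ x) (hJ : 1 ≤ J) (A : Finset ℤ) (cf : ℤ → ℕ → ℝ)
    (hcf : ∀ a q, |cf a q| ≤ 1) (E M : ℝ) (hM0 : 0 ≤ M)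
    (hM : ∀ a ∈ A, ∀ n ∈ A, a ≠ n → SA R Q a n ≤ M) (hC : ∀ a ∈ A, SA R Q a a ≤ Q)
    (a a' : ℤ) (ha : a ∈ A) (ha' : a' ∈ A) (haa : a ≠ a')
    (hE : |∑ n ∈ RW x J, ww x J n * (SS R Q (cf a) a n * SS R Q (cf a') a' n)| ≤ E) :
    ∑ n ∈ (RW x J).filter (fun n => n ∉ A), ww x J n *
        (SS R Q (cf a) a n * SS R Q (cf a') a' n) ≤
      E + 3 * A.card * M ^ 2 + 6 * Q * M := by
  have h1 := Finset.sum_filter_add_sum_filter_not (RW x J) (fun n => n ∉ A)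
    (fun n => ww x J n * (SS R Q (cf a) a n * SS R Q (cf a') a' n))
  have h2 := (abs_le.1 hE).2
  have h3 : -(∑ n ∈ (RW x J).filter (fun n => ¬ n ∉ A), ww x J n *
      (SS R Q (cf a) a n * SS R Q (cf a') a' n)) ≤
      ∑ n ∈ A, 3 * (M ^ 2 + (if n = a then (Q : ℝ) * M else 0) +
        (if n = a' then (Q : ℝ) * M else 0)) := by
    rw [← Finset.sum_neg_distrib]
    have hnn : ∀ n, 0 ≤ 3 * (M ^ 2 + (if n = a then (Q : ℝ) * M else 0) +
        (if n = a' then (Q : ℝ) * M else 0)) := by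
      intro n
      have hQM : (0 : ℝ) ≤ Q * M := mul_nonneg (Nat.cast_nonneg Q) hM0
      have hM2 : (0 : ℝ) ≤ M ^ 2 := sq_nonneg M
      split_ifs <;> linarith
    refine le_trans (Finset.sum_le_sum fun n hn => ?_)
      (Finset.sum_le_sum_of_subset_of_nonneg (s := (RW x J).filter (fun n => ¬ n ∉ A)) ?_
        fun n _ _ => hnn n)
    · have hnA : n ∈ A := not_not.1 (Finset.mem_filter.1 hn).2
      have h4 := Bkx_pt Q R A cf hcf M hM0 hM hC a a' ha ha' haa n hnA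
      have h5 := ww_nonneg x J n
      have h6 := ww_le x J hx hJ n
      have h7 : -(ww x J n * (SS R Q (cf a) a n * SS R Q (cf a') a' n)) ≤
          ww x J n * (|SS R Q (cf a) a n| * |SS R Q (cf a') a' n|) := by
        rw [← abs_mul, ← mul_neg]
        exact mul_le_mul_of_nonneg_left (neg_le_abs _) h5
      refine h7.trans ?_
      exact mul_le_mul h6 h4 (mul_nonneg (abs_nonneg _) (abs_nonneg _)) (by norm_num)
    · intro n hn
      exact not_not.1 (Finset.mem_filter.1 hn).2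
  have h4 : ∑ n ∈ A, 3 * (M ^ 2 + (if n = a then (Q : ℝ) * M else 0) +
        (if n = a' then (Q : ℝ) * M else 0)) = 3 * (A.card * M ^ 2 + Q * M + Q * M) := by
    rw [← Finset.mul_sum, Finset.sum_add_distrib, Finset.sum_add_distrib, Finset.sum_const,
      Finset.sum_ite_eq' A a, Finset.sum_ite_eq' A a', if_pos ha, if_pos ha', nsmul_eq_mul]
  rw [h4] at h3
  linarith

theorem bkx (x Q R J : ℕ) (hx : 1 ≤ x) (hJ : 1 ≤ J) (A : Finset ℤ) (cf : ℤ → ℕ → ℝ)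
    (hcf : ∀ a q, |cf a q| ≤ 1) (D E M : ℝ) (hM0 : 0 ≤ M) (hE0 : 0 ≤ E)
    (hD : ∑ a ∈ A, ∑ n ∈ (RW x J).filter (fun n => n ≠ a), ww x J n * SS R Q (cf a) a n ^ 2 ≤ D)
    (hE : ∀ a ∈ A, ∀ a' ∈ A, a ≠ a' →
      |∑ n ∈ RW x J, ww x J n * (SS R Q (cf a) a n * SS R Q (cf a') a' n)| ≤ E)
    (hM : ∀ a ∈ A, ∀ n ∈ A, a ≠ n → SA R Q a n ≤ M) (hC : ∀ a ∈ A, SA R Q a a ≤ Q) :
    ∑ n ∈ (RW x J).filter (fun n => n ∉ A), ww x J n * (∑ a ∈ A, SS R Q (cf a) a n) ^ 2 ≤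
      D + (A.card : ℝ) ^ 2 * (E + 3 * A.card * M ^ 2 + 6 * Q * M) := by
  classical
  set B : ℝ := E + 3 * A.card * M ^ 2 + 6 * Q * M with hB
  have hB0 : 0 ≤ B := by
    have h1 : (0 : ℝ) ≤ 3 * A.card * M ^ 2 := by positivity
    have h2 : (0 : ℝ) ≤ 6 * Q * M := by positivity
    linarith
  set Dg : ℤ → ℝ := fun a =>
    ∑ n ∈ (RW x J).filter (fun n => n ≠ a), ww x J n * SS R Q (cf a) a n ^ 2 with hDg
  have h1 : ∑ n ∈ (RW x J).filter (fun n => n ∉ A), ww x J n * (∑ a ∈ A, SS R Q (cf a) a n) ^ 2 =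
      ∑ a ∈ A, ∑ a' ∈ A, ∑ n ∈ (RW x J).filter (fun n => n ∉ A), ww x J n *
        (SS R Q (cf a) a n * SS R Q (cf a') a' n) := by
    have h2 : ∀ n, ww x J n * (∑ a ∈ A, SS R Q (cf a) a n) ^ 2 =
        ∑ a ∈ A, ∑ a' ∈ A, ww x J n * (SS R Q (cf a) a n * SS R Q (cf a') a' n) := by
      intro n
      rw [pow_two, Finset.sum_mul_sum, Finset.mul_sum]
      exact Finset.sum_congr rfl fun a _ => Finset.mul_sum _ _ _
    rw [Finset.sum_congr rfl fun n _ => h2 n, Finset.sum_comm]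
    exact Finset.sum_congr rfl fun a _ => Finset.sum_comm
  rw [h1]
  have h3 : ∀ a ∈ A, ∀ a' ∈ A, ∑ n ∈ (RW x J).filter (fun n => n ∉ A), ww x J n *
      (SS R Q (cf a) a n * SS R Q (cf a') a' n) ≤ (if a' = a then Dg a else 0) + B := by
    intro a ha a' ha'
    by_cases haa : a' = a
    · subst haa
      rw [if_pos rfl]
      have h5 : ∑ n ∈ (RW x J).filter (fun n => n ∉ A), ww x J n *
          (SS R Q (cf a') a' n * SS R Q (cf a') a' n) ≤
          ∑ n ∈ (RW x J).filter (fun n => n ≠ a'), ww x J n * SS R Q (cf a') a' n ^ 2 := by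
        simp only [← pow_two]
        refine Finset.sum_le_sum_of_subset_of_nonneg ?_ fun n _ _ =>
          mul_nonneg (ww_nonneg x J n) (sq_nonneg _)
        intro n hn
        rw [Finset.mem_filter] at hn ⊢
        exact ⟨hn.1, fun h => hn.2 (h ▸ ha)⟩
      have h6 : Dg a' =
          ∑ n ∈ (RW x J).filter (fun n => n ≠ a'), ww x J n * SS R Q (cf a') a' n ^ 2 := rfl
      linarith
    · rw [if_neg haa, zero_add]
      exact Bkx_off x Q R J hx hJ A cf hcf E M hM0 hM hC a a' ha ha' (Ne.symm haa)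
        (hE a ha a' ha' (Ne.symm haa))
  refine le_trans (Finset.sum_le_sum fun a ha => Finset.sum_le_sum fun a' ha' => h3 a ha a' ha') ?_
  have h6 : ∀ a ∈ A, ∑ a' ∈ A, ((if a' = a then Dg a else 0) + B) = Dg a + A.card * B := by
    intro a ha
    rw [Finset.sum_add_distrib, Finset.sum_const, nsmul_eq_mul, Finset.sum_ite_eq' A a, if_pos ha]
  rw [Finset.sum_congr rfl h6, Finset.sum_add_distrib, Finset.sum_const, nsmul_eq_mul]
  have h7 : (A.card : ℝ) * (A.card * B) = (A.card : ℝ) ^ 2 * B := by ring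
  rw [h7]
  exact add_le_add hD le_rfl

end Pool.Agent.H35.KM

end

section

/-!
# Multiples of `m` away from the centre

`n = a + k m`, `k ≠ 0`.  Those with `|n| ≤ 2x`: none if `m > 3x`, at most `4x/m + 1 ≤ 7x/m` if
`m ≤ 3x`, each of weight `≤ 3`.  Those with `|n| > 2x`: `|k m| ≤ |n| + x ≤ (3/2)|n|`, `|k|m > x`,
weight `≤ 3x²/n² ≤ (27/4) x²/(km)²`, and `∑_{|k| > x/m, k ≠ 0} 1/k² ≤ 4 min(1, m/x)`.
Total `≤ 21x/m + 27 x/m ≤ 100 x/m`.
-/

set_option autoImplicit false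

namespace Pool.Agent.H80.KF

open Finset

private lemma Tail_tele (K M : ℕ) (h : K ≤ M) :
    ∑ k ∈ Ioc K M, (1 : ℝ) / (k : ℝ) ^ 2 ≤ 2 / ((K : ℝ) + 1) - 2 / ((M : ℝ) + 1) := by
  induction M, h using Nat.le_induction with
  | base => simp
  | succ M hM ih =>
    rw [← Finset.insert_Ioc_right_eq_Ioc_add_one (by omega), sum_insert (by simp)]
    have h1 : (1 : ℝ) / (((M + 1 : ℕ) : ℝ)) ^ 2 ≤ 2 / ((M : ℝ) + 1) - 2 / (((M + 1 : ℕ) : ℝ) + 1) := by
      push_cast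
      have h2 : (0 : ℝ) < (M : ℝ) + 1 := by positivity
      have h3 : (0 : ℝ) < (M : ℝ) + 1 + 1 := by positivity
      rw [div_sub_div _ _ h2.ne' h3.ne', div_le_div_iff₀ (by positivity) (by positivity)]
      have h4 : (0 : ℝ) ≤ (M : ℝ) := Nat.cast_nonneg _
      nlinarith only [mul_nonneg h4 h4, mul_nonneg (mul_nonneg h4 h4) h4]
    linarith only [ih, h1]

theorem ww_tail (x J m : ℕ) (hx : 1 ≤ x) (hJ : 1 ≤ J) (hm : 1 ≤ m) (a : ℤ) (ha : |a| ≤ x) :
    ∑ n ∈ (RW x J).filter (fun n => n ≠ a ∧ (m : ℤ) ∣ n - a), ww x J n ≤ 100 * x / m := by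
  classical
  set S := (RW x J).filter (fun n => n ≠ a ∧ (m : ℤ) ∣ n - a) with hS
  have hmR : (0 : ℝ) < m := by exact_mod_cast hm
  have hxR : (0 : ℝ) < x := by exact_mod_cast hx
  set y : ℝ := (x : ℝ) / m with hy
  have hy0 : 0 < y := div_pos hxR hmR
  set K : ℕ := ⌊3 * y⌋₊ with hK
  set M : ℕ := K + (x * J + x) with hM
  let G : ℕ → ℝ := fun k => if k ≤ K then 3 else 27 * y ^ 2 / (k : ℝ) ^ 2
  have hG0 : ∀ k, 0 ≤ G k := by
    intro k
    simp only [G]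
    split_ifs
    · norm_num
    · positivity
  -- the members of S
  have hmem : ∀ n ∈ S, ∃ k : ℤ, n - a = m * k ∧ (n - a) / m = k ∧ k ≠ 0 ∧ |n| ≤ x * J := by
    intro n hn
    rw [hS, mem_filter] at hn
    obtain ⟨h1, h2, k, h3⟩ := hn
    refine ⟨k, h3, ?_, ?_, ?_⟩
    · rw [h3]
      exact Int.mul_ediv_cancel_left _ (by omega)
    · rintro rfl
      apply h2
      have : n - a = 0 := by rw [h3]; ring
      linarith only [h3]
    · rw [RW, mem_Ico] at h1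
      rw [abs_le]
      constructor
      · have := h1.1
        push_cast at this ⊢
        linarith only [h1]
      · have := h1.2
        push_cast at this ⊢
        linarith only [h1]
  have h1 : ∀ n ∈ S, ww x J n ≤ G (((n - a) / m).natAbs) := by
    intro n hn
    obtain ⟨k, h3, h4, h5, h6⟩ := hmem n hn
    rw [h4]
    simp only [G]
    split_ifs with h7
    · exact ww_le x J hx hJ n
    · have h8 := ww_decay x J hx hJ n (by exact_mod_cast h6)
      have haR : |(a : ℝ)| ≤ x := by exact_mod_cast ha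
      have h3R : (n : ℝ) - a = m * k := by exact_mod_cast h3
      have hkabs : ((k.natAbs : ℕ) : ℝ) = |(k : ℝ)| := by
        rw [Nat.cast_natAbs]
        push_cast
        rfl
      have hkpos : 0 < |(k : ℝ)| := by
        rw [abs_pos]
        exact_mod_cast h5
      have hbig : 2 * (x : ℝ) < |(n : ℝ)| := by
        by_contra hcon
        push Not at hcon
        apply h7
        rw [hK]
        apply Nat.le_floor
        rw [hkabs]
        have h9 : (m : ℝ) * |(k : ℝ)| ≤ 3 * x := by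
          calc (m : ℝ) * |(k : ℝ)| = |(m : ℝ) * k| := by rw [abs_mul, abs_of_pos hmR]
            _ = |(n : ℝ) - a| := by rw [h3R]
            _ ≤ |(n : ℝ)| + |(a : ℝ)| := abs_sub _ _
            _ ≤ 3 * x := by linarith only [haR, hcon]
        rw [hy, mul_div_assoc', le_div_iff₀ hmR]
        linarith only [h9]
      have h9 : ((m : ℝ) * k) ^ 2 ≤ 9 / 4 * (n : ℝ) ^ 2 := by
        rw [← h3R, ← sq_abs ((n : ℝ) - a), ← sq_abs (n : ℝ)]
        have h10 : |(n : ℝ) - a| ≤ 3 / 2 * |(n : ℝ)| := by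
          have := abs_sub (n : ℝ) (a : ℝ)
          linarith only [haR, hbig, this]
        calc |(n : ℝ) - a| ^ 2 ≤ (3 / 2 * |(n : ℝ)|) ^ 2 :=
              pow_le_pow_left₀ (abs_nonneg _) h10 2
          _ = 9 / 4 * |(n : ℝ)| ^ 2 := by ring
      have hw0 := ww_nonneg x J n
      have h11 : ww x J n * ((m : ℝ) * k) ^ 2 ≤ 27 / 4 * (x : ℝ) ^ 2 := by
        calc ww x J n * ((m : ℝ) * k) ^ 2 ≤ ww x J n * (9 / 4 * (n : ℝ) ^ 2) :=
              mul_le_mul_of_nonneg_left h9 hw0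
          _ = 9 / 4 * (ww x J n * (n : ℝ) ^ 2) := by ring
          _ ≤ 9 / 4 * (3 * (x : ℝ) ^ 2) := by linarith only [h8]
          _ = 27 / 4 * (x : ℝ) ^ 2 := by ring
      rw [hkabs, sq_abs, le_div_iff₀ (by rw [← sq_abs]; positivity), hy, div_pow, mul_div_assoc',
        le_div_iff₀ (by positivity)]
      have h12 : ww x J n * (k : ℝ) ^ 2 * (m : ℝ) ^ 2 = ww x J n * ((m : ℝ) * k) ^ 2 := by ring
      rw [h12]
      nlinarith only [h11, sq_nonneg (x : ℝ)]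
  have hmaps : ∀ n ∈ S, ((n - a) / m).natAbs ∈ Icc 1 M := by
    intro n hn
    obtain ⟨k, h3, h4, h5, h6⟩ := hmem n hn
    rw [h4, mem_Icc]
    constructor
    · omega
    · have h7 : |k| ≤ (x : ℤ) * J + x := by
        calc |k| ≤ (m : ℤ) * |k| := by
              have : (1 : ℤ) ≤ m := by exact_mod_cast hm
              nlinarith only [hm, abs_nonneg k]
          _ = |n - a| := by rw [h3, abs_mul, abs_of_nonneg (by positivity : (0 : ℤ) ≤ m)]
          _ ≤ |n| + |a| := abs_sub _ _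
          _ ≤ (x : ℤ) * J + x := by linarith only [ha, h6]
      have h8 : ((k.natAbs : ℕ) : ℤ) ≤ ((x * J + x : ℕ) : ℤ) := by
        rw [Int.natCast_natAbs]
        push_cast
        exact h7
      have h9 : k.natAbs ≤ x * J + x := by exact_mod_cast h8
      omega
  have hfib : ∀ k ∈ Icc 1 M, ((S.filter (fun n => ((n - a) / m).natAbs = k)).card : ℝ) ≤ 2 := by
    intro k _
    have hsub : S.filter (fun n => ((n - a) / m).natAbs = k) ⊆ {a + m * (k : ℤ), a - m * (k : ℤ)} := by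
      intro n hn
      rw [mem_filter] at hn
      obtain ⟨l, h3, h4, h5, h6⟩ := hmem n hn.1
      have h7 := hn.2
      rw [h4] at h7
      rw [mem_insert, mem_singleton]
      rcases Int.natAbs_eq l with h8 | h8
      · left
        rw [h7] at h8
        rw [← h8]
        linarith only [h3]
      · right
        rw [h7] at h8
        have : (k : ℤ) = -l := by linarith only [h8]
        rw [this]
        linarith only [h3]
    have := (card_le_card hsub).trans card_le_two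
    exact_mod_cast this
  have h2 : ∑ n ∈ S, ww x J n ≤ 2 * ∑ k ∈ Icc 1 M, G k := by
    calc ∑ n ∈ S, ww x J n ≤ ∑ n ∈ S, G (((n - a) / m).natAbs) := sum_le_sum h1
      _ = ∑ k ∈ Icc 1 M, ∑ n ∈ S.filter (fun n => ((n - a) / m).natAbs = k),
            G (((n - a) / m).natAbs) := (sum_fiberwise_of_maps_to hmaps _).symm
      _ = ∑ k ∈ Icc 1 M, ((S.filter (fun n => ((n - a) / m).natAbs = k)).card : ℝ) * G k := by
          refine sum_congr rfl fun k _ => ?_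
          rw [sum_congr rfl (fun n hn => by rw [(mem_filter.1 hn).2]), sum_const, nsmul_eq_mul]
      _ ≤ ∑ k ∈ Icc 1 M, 2 * G k :=
          sum_le_sum fun k hk => mul_le_mul_of_nonneg_right (hfib k hk) (hG0 k)
      _ = 2 * ∑ k ∈ Icc 1 M, G k := by rw [mul_sum]
  have hKy : (K : ℝ) ≤ 3 * y := Nat.floor_le (by positivity)
  have hKy' : 3 * y < (K : ℝ) + 1 := Nat.lt_floor_add_one _
  have h3 : ∑ k ∈ Icc 1 M, G k ≤ 27 * y := by
    have hsplit : Icc 1 M = Icc 1 K ∪ Ioc K M := by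
      ext k
      simp only [mem_Icc, mem_union, mem_Ioc]
      omega
    have hdisj : Disjoint (Icc 1 K) (Ioc K M) := by
      rw [disjoint_left]
      intro k h h'
      simp only [mem_Icc] at h
      simp only [mem_Ioc] at h'
      omega
    rw [hsplit, sum_union hdisj]
    have e1 : ∑ k ∈ Icc 1 K, G k = 3 * K := by
      rw [sum_congr rfl (fun k hk => by
        show G k = 3
        simp only [G]
        rw [if_pos (mem_Icc.1 hk).2]), sum_const, Nat.card_Icc, nsmul_eq_mul, Nat.add_sub_cancel]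
      ring
    have e2 : ∑ k ∈ Ioc K M, G k = 27 * y ^ 2 * ∑ k ∈ Ioc K M, (1 : ℝ) / (k : ℝ) ^ 2 := by
      rw [mul_sum]
      refine sum_congr rfl fun k hk => ?_
      show G k = _
      simp only [G]
      rw [if_neg (by have := (mem_Ioc.1 hk).1; omega)]
      ring
    have e3 : ∑ k ∈ Ioc K M, (1 : ℝ) / (k : ℝ) ^ 2 ≤ 2 / ((K : ℝ) + 1) := by
      refine (Tail_tele K M (by omega)).trans ?_
      have : (0 : ℝ) ≤ 2 / ((M : ℝ) + 1) := by positivity
      linarith only [this]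
    have e4 : 2 / ((K : ℝ) + 1) ≤ 2 / (3 * y) :=
      div_le_div_of_nonneg_left (by norm_num) (by positivity) hKy'.le
    have e5 : 27 * y ^ 2 * ∑ k ∈ Ioc K M, (1 : ℝ) / (k : ℝ) ^ 2 ≤ 27 * y ^ 2 * (2 / (3 * y)) :=
      mul_le_mul_of_nonneg_left (e3.trans e4) (by positivity)
    have e6 : 27 * y ^ 2 * (2 / (3 * y)) = 18 * y := by
      field_simp
      ring
    rw [e1, e2]
    linarith only [hKy, e5, e6]
  have h4 : (100 : ℝ) * x / m = 100 * y := by rw [hy]; ring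
  rw [h4]
  linarith only [hy0, h2, h3]

end Pool.Agent.H80.KF

end

section

/-!
# A divisibility condition times a divisor count

`Dg_cnt S h = ∑_{e ∈ S} [e ∣ h]`, `[d ∣ h][e ∣ h] = [lcm(d,e) ∣ h]`, `ww_tail` with `m = lcm(d,e)`:
`100 x/lcm(d,e) = 100 x gcd(d,e)/(d e) ≤ (100 x/d) ∑_{g ∣ d, g ∣ e} g/e`.
`dia_Q`: `S = (Q, 2Q]`, `sum_inv_mult` (`∑_{e ∈ S, g ∣ e} 1/e ≤ 3/g` for `g ≤ 2Q`; the sum is empty
for `g > 2Q`).  `dia_R`: `S = [1,R]`, `Dg_inv_mult`.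
-/

set_option autoImplicit false

namespace Pool.Agent.H35.KM

open Finset
open Pool.Agent.H80.KF

theorem dia_gcd (x J d : ℕ) (hx : 1 ≤ x) (hJ : 1 ≤ J) (hd : 1 ≤ d) (a : ℤ) (ha : |a| ≤ x)
    (S : Finset ℕ) (hS : ∀ e ∈ S, 1 ≤ e) :
    ∑ n ∈ (RW x J).filter (fun n => n ≠ a),
        ww x J n * ((if (d : ℤ) ∣ n - a then 1 else 0) * Dg_cnt S (n - a)) ≤
      100 * x / d * ∑ g ∈ d.divisors, (g : ℝ) * ∑ e ∈ S.filter (fun e => g ∣ e), (1 : ℝ) / e := by
  have hd0 : (0 : ℝ) < d := by exact_mod_cast hd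
  have e1 : ∀ n : ℤ, ww x J n * ((if (d : ℤ) ∣ n - a then 1 else 0) * Dg_cnt S (n - a)) =
      ∑ e ∈ S, (if ((Nat.lcm d e : ℕ) : ℤ) ∣ n - a then ww x J n else 0) := by
    intro n
    rw [Dg_cnt_eq, mul_sum, mul_sum]
    apply sum_congr rfl
    intro e _
    have hl : ((Nat.lcm d e : ℕ) : ℤ) ∣ n - a ↔ (d : ℤ) ∣ n - a ∧ (e : ℤ) ∣ n - a := by
      rw [Int.natCast_dvd, Int.natCast_dvd, Int.natCast_dvd, Nat.lcm_dvd_iff]
    by_cases h1 : (d : ℤ) ∣ n - a <;> by_cases h2 : (e : ℤ) ∣ n - a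
    · rw [if_pos h1, if_pos h2, if_pos (hl.2 ⟨h1, h2⟩)]
      ring
    · rw [if_neg h2, if_neg (fun h => h2 (hl.1 h).2)]
      ring
    · rw [if_neg h1, if_neg (fun h => h1 (hl.1 h).1)]
      ring
    · rw [if_neg h1, if_neg (fun h => h1 (hl.1 h).1)]
      ring
  have e2 : ∀ e ∈ S, (∑ n ∈ (RW x J).filter (fun n => n ≠ a),
      (if ((Nat.lcm d e : ℕ) : ℤ) ∣ n - a then ww x J n else 0)) ≤
      100 * x / d * ∑ g ∈ d.divisors, (if g ∣ e then (g : ℝ) * (1 / (e : ℝ)) else 0) := by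
    intro e he
    have hd1 := hS e he
    have he0 : (0 : ℝ) < e := by exact_mod_cast hd1
    have hl1 : 1 ≤ Nat.lcm d e := Nat.lcm_pos (by omega) (by omega)
    rw [← sum_filter, filter_filter]
    refine (ww_tail x J (Nat.lcm d e) hx hJ hl1 a ha).trans ?_
    have hg1 : Nat.gcd d e ∈ d.divisors := by
      rw [Nat.mem_divisors]
      exact ⟨Nat.gcd_dvd_left d e, by omega⟩
    have h1 : (if Nat.gcd d e ∣ e then ((Nat.gcd d e : ℕ) : ℝ) * (1 / (e : ℝ)) else 0) ≤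
        ∑ g ∈ d.divisors, (if g ∣ e then (g : ℝ) * (1 / (e : ℝ)) else 0) := by
      apply single_le_sum (f := fun g : ℕ => if g ∣ e then (g : ℝ) * (1 / (e : ℝ)) else 0) _ hg1
      intro g _
      split_ifs
      · positivity
      · exact le_rfl
    rw [if_pos (Nat.gcd_dvd_right d e)] at h1
    have h2 : 100 * (x : ℝ) / ((Nat.lcm d e : ℕ) : ℝ) =
        100 * x / d * (((Nat.gcd d e : ℕ) : ℝ) * (1 / (e : ℝ))) := by
      have h3 : ((Nat.gcd d e : ℕ) : ℝ) * ((Nat.lcm d e : ℕ) : ℝ) = d * e := by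
        exact_mod_cast Nat.gcd_mul_lcm d e
      have hl0 : (0 : ℝ) < ((Nat.lcm d e : ℕ) : ℝ) := by exact_mod_cast hl1
      rw [div_eq_iff hl0.ne']
      have h4 : 100 * (x : ℝ) / d * (((Nat.gcd d e : ℕ) : ℝ) * (1 / (e : ℝ))) *
          ((Nat.lcm d e : ℕ) : ℝ) = 100 * x * ((((Nat.gcd d e : ℕ) : ℝ) *
          ((Nat.lcm d e : ℕ) : ℝ)) / (d * e)) := by
        field_simp
      rw [h4, h3, div_self (by positivity), mul_one]
    rw [h2]
    exact mul_le_mul_of_nonneg_left h1 (by positivity)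
  calc ∑ n ∈ (RW x J).filter (fun n => n ≠ a),
        ww x J n * ((if (d : ℤ) ∣ n - a then 1 else 0) * Dg_cnt S (n - a))
      = ∑ n ∈ (RW x J).filter (fun n => n ≠ a), ∑ e ∈ S,
          (if ((Nat.lcm d e : ℕ) : ℤ) ∣ n - a then ww x J n else 0) :=
        sum_congr rfl fun n _ => e1 n
    _ = ∑ e ∈ S, ∑ n ∈ (RW x J).filter (fun n => n ≠ a),
          (if ((Nat.lcm d e : ℕ) : ℤ) ∣ n - a then ww x J n else 0) := sum_comm
    _ ≤ ∑ e ∈ S, 100 * x / d * ∑ g ∈ d.divisors, (if g ∣ e then (g : ℝ) * (1 / (e : ℝ)) else 0) :=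
        sum_le_sum e2
    _ = 100 * x / d * ∑ g ∈ d.divisors, ∑ e ∈ S, (if g ∣ e then (g : ℝ) * (1 / (e : ℝ)) else 0) := by
        rw [← mul_sum, sum_comm]
    _ = 100 * x / d * ∑ g ∈ d.divisors, (g : ℝ) * ∑ e ∈ S.filter (fun e => g ∣ e), (1 : ℝ) / e := by
        congr 1
        apply sum_congr rfl
        intro g _
        rw [sum_filter, mul_sum]
        apply sum_congr rfl
        intro e _
        rw [mul_ite, mul_zero]

private theorem dia_fin (x d : ℕ) (hd : 1 ≤ d) (c : ℝ) (F : ℕ → ℝ)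
    (hF : ∀ g, 1 ≤ g → F g ≤ c / g) :
    100 * (x : ℝ) / d * ∑ g ∈ d.divisors, (g : ℝ) * F g ≤ 100 * x / d * (c * tau d) := by
  apply mul_le_mul_of_nonneg_left _ (by positivity)
  have h1 : ∑ g ∈ d.divisors, (g : ℝ) * F g ≤ ∑ _g ∈ d.divisors, c := by
    apply sum_le_sum
    intro g hg
    have hg1 : 1 ≤ g := Nat.pos_of_mem_divisors hg
    have hg0 : (0 : ℝ) < g := by exact_mod_cast hg1
    calc (g : ℝ) * F g ≤ g * (c / g) := mul_le_mul_of_nonneg_left (hF g hg1) hg0.le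
      _ = c := by field_simp
  refine h1.trans (le_of_eq ?_)
  rw [sum_const, nsmul_eq_mul, mul_comm]
  rfl

theorem dia_Q (x J d Q : ℕ) (hx : 1 ≤ x) (hJ : 1 ≤ J) (hd : 1 ≤ d) (hQ : 1 ≤ Q) (a : ℤ)
    (ha : |a| ≤ x) :
    ∑ n ∈ (RW x J).filter (fun n => n ≠ a),
        ww x J n * ((if (d : ℤ) ∣ n - a then 1 else 0) * Dg_cnt (Ioc Q (2 * Q)) (n - a)) ≤
      100 * x / d * (3 * tau d) := by
  refine (dia_gcd x J d hx hJ hd a ha (Ioc Q (2 * Q)) (fun e he => by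
    rw [mem_Ioc] at he; omega)).trans ?_
  apply dia_fin x d hd 3 (fun g => ∑ e ∈ (Ioc Q (2 * Q)).filter (fun e => g ∣ e), (1 : ℝ) / e)
  intro g hg
  by_cases hgQ : g ≤ 2 * Q
  · exact sum_inv_mult Q g hQ hg hgQ
  · have : (Ioc Q (2 * Q)).filter (fun q => g ∣ q) = ∅ := by
      apply filter_eq_empty_iff.2
      intro q hq hrq
      rw [mem_Ioc] at hq
      have := Nat.le_of_dvd (by omega) hrq
      omega
    change ∑ e ∈ (Ioc Q (2 * Q)).filter (fun e => g ∣ e), (1 : ℝ) / e ≤ 3 / g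
    rw [this, sum_empty]
    positivity

theorem dia_R (x J d R : ℕ) (hx : 1 ≤ x) (hJ : 1 ≤ J) (hd : 1 ≤ d) (hR : 1 ≤ R) (a : ℤ)
    (ha : |a| ≤ x) :
    ∑ n ∈ (RW x J).filter (fun n => n ≠ a),
        ww x J n * ((if (d : ℤ) ∣ n - a then 1 else 0) * Dg_cnt (Icc 1 R) (n - a)) ≤
      100 * x / d * ((1 + Real.log R) * tau d) := by
  refine (dia_gcd x J d hx hJ hd a ha (Icc 1 R) (fun e he => by
    rw [mem_Icc] at he; omega)).trans ?_
  apply dia_fin x d hd (1 + Real.log R)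
    (fun g => ∑ e ∈ (Icc 1 R).filter (fun e => g ∣ e), (1 : ℝ) / e)
  intro g hg
  exact Dg_inv_mult R g hg

end Pool.Agent.H35.KM

end

section

/-!
# One diagonal entry

`|u_{a,q}(n)| ≤ [q ∣ h] + (1/q) ∑_{r ∣ q, r ≤ R} ∑_{d ∣ r} d [d ∣ h]`, `h = n - a` (`uu`, `ram_abs`).
`SA R Q a n ≤ Dg_cnt (Ioc Q (2Q)) h + 3 (1 + log R) Dg_cnt (Icc 1 R) h` (`Dg_ss` for the coefficients
`c q = sign (uu R q a n)`, for which `SS = SA`).  By `dia_Q`, `dia_R`, for every `d ≥ 1`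
`∑_n ww [d ∣ h] SA ≤ (100 x/d) τ(d) (3 + 3 (1 + log R)²)`; sum over the terms.
-/

set_option autoImplicit false

namespace Pool.Agent.H35.KM

open Finset
open Pool.Agent.H80.KF

private theorem DiB_ww_nonneg (x J : ℕ) (n : ℤ) : 0 ≤ ww x J n := by
  unfold ww
  positivity

private theorem DiB_sa_nonneg (R Q : ℕ) (a n : ℤ) : 0 ≤ SA R Q a n := by
  unfold SA
  exact sum_nonneg fun _ _ => abs_nonneg _

private theorem DiB_uu (R q : ℕ) (a n : ℤ) : |uu R q a n| ≤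
    (if (q : ℤ) ∣ n - a then 1 else 0) + ∑ r ∈ q.divisors.filter (fun r => r ≤ R),
      ∑ d ∈ r.divisors, (1 / (q : ℝ) * d) * (if (d : ℤ) ∣ n - a then (1 : ℝ) else 0) := by
  unfold uu
  refine (abs_sub _ _).trans (add_le_add ?_ ?_)
  · split_ifs
    · rw [abs_one]
    · rw [abs_zero]
  · rw [abs_mul, abs_of_nonneg (by positivity : (0 : ℝ) ≤ 1 / (q : ℝ))]
    have h1 : |∑ r ∈ q.divisors.filter (fun r => r ≤ R), ram r (n - a)| ≤
        ∑ r ∈ q.divisors.filter (fun r => r ≤ R),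
          ∑ d ∈ r.divisors, (d : ℝ) * (if (d : ℤ) ∣ n - a then (1 : ℝ) else 0) := by
      refine (abs_sum_le_sum_abs _ _).trans (sum_le_sum fun r _ => ?_)
      refine (ram_abs r (n - a)).trans (le_of_eq ?_)
      rw [sum_filter]
      refine sum_congr rfl fun d _ => ?_
      split_ifs <;> simp
    refine (mul_le_mul_of_nonneg_left h1 (by positivity)).trans (le_of_eq ?_)
    rw [mul_sum]
    refine sum_congr rfl fun r _ => ?_
    rw [mul_sum]
    refine sum_congr rfl fun d _ => ?_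
    ring

private theorem DiB_sa (R Q : ℕ) (hQ : 1 ≤ Q) (a n : ℤ) : SA R Q a n ≤
    Dg_cnt (Ioc Q (2 * Q)) (n - a) + 3 * (1 + Real.log R) * Dg_cnt (Icc 1 R) (n - a) := by
  have h := Dg_ss R Q hQ (fun q => if 0 ≤ uu R q a n then 1 else -1) (by
    intro q
    show |if 0 ≤ uu R q a n then (1 : ℝ) else -1| ≤ 1
    split_ifs
    · rw [abs_one]
    · rw [abs_neg, abs_one]) a n
  have e : SS R Q (fun q => if 0 ≤ uu R q a n then 1 else -1) a n = SA R Q a n := by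
    unfold SS SA
    refine sum_congr rfl fun q _ => ?_
    show (if 0 ≤ uu R q a n then (1 : ℝ) else -1) * uu R q a n = |uu R q a n|
    split_ifs with h0
    · rw [one_mul, abs_of_nonneg h0]
    · rw [neg_one_mul, abs_of_neg (not_le.1 h0)]
  rw [e] at h
  exact (le_abs_self _).trans h

theorem dia_one (x J R Q q : ℕ) (hx : 1 ≤ x) (hJ : 1 ≤ J) (hR : 1 ≤ R) (hQ : 1 ≤ Q) (hq : 1 ≤ q)
    (a : ℤ) (ha : |a| ≤ x) :
    ∑ n ∈ (RW x J).filter (fun n => n ≠ a), ww x J n * (|uu R q a n| * SA R Q a n) ≤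
      PS x R q := by
  set Λ : ℝ := 1 + Real.log R with hΛ
  have hΛ0 : 0 ≤ Λ := Dg_one_log R
  set S : ℤ → ℝ := fun n => Dg_cnt (Ioc Q (2 * Q)) (n - a) + 3 * Λ * Dg_cnt (Icc 1 R) (n - a)
    with hS
  have hS0 : ∀ n, 0 ≤ S n := by
    intro n
    have h1 := Dg_cnt_nonneg (Ioc Q (2 * Q)) (n - a)
    have h2 := Dg_cnt_nonneg (Icc 1 R) (n - a)
    simp only [hS]
    positivity
  set T : ℕ → ℝ := fun d => ∑ n ∈ (RW x J).filter (fun n => n ≠ a),
    ww x J n * ((if (d : ℤ) ∣ n - a then 1 else 0) * S n) with hT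
  -- one divisor
  have hTd : ∀ d : ℕ, 1 ≤ d → T d ≤ 100 * x / d * ((3 + 3 * Λ ^ 2) * tau d) := by
    intro d hd
    have h1 := dia_Q x J d Q hx hJ hd hQ a ha
    have h2 := dia_R x J d R hx hJ hd hR a ha
    have e : T d = ∑ n ∈ (RW x J).filter (fun n => n ≠ a),
        ww x J n * ((if (d : ℤ) ∣ n - a then 1 else 0) * Dg_cnt (Ioc Q (2 * Q)) (n - a)) +
        3 * Λ * ∑ n ∈ (RW x J).filter (fun n => n ≠ a),
        ww x J n * ((if (d : ℤ) ∣ n - a then 1 else 0) * Dg_cnt (Icc 1 R) (n - a)) := by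
      simp only [hT, hS]
      rw [mul_sum, ← sum_add_distrib]
      refine sum_congr rfl fun n _ => ?_
      ring
    rw [e]
    have h3 := mul_le_mul_of_nonneg_left h2 (by positivity : (0 : ℝ) ≤ 3 * Λ)
    refine (add_le_add h1 h3).trans (le_of_eq ?_)
    rw [← hΛ]
    ring
  -- the majorant
  have hmaj : ∑ n ∈ (RW x J).filter (fun n => n ≠ a), ww x J n * (|uu R q a n| * SA R Q a n) ≤
      T q + ∑ r ∈ q.divisors.filter (fun r => r ≤ R),
        ∑ d ∈ r.divisors, (1 / (q : ℝ) * d) * T d := by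
    have e : T q + ∑ r ∈ q.divisors.filter (fun r => r ≤ R),
        ∑ d ∈ r.divisors, (1 / (q : ℝ) * d) * T d =
        ∑ n ∈ (RW x J).filter (fun n => n ≠ a), ww x J n *
          (((if (q : ℤ) ∣ n - a then 1 else 0) + ∑ r ∈ q.divisors.filter (fun r => r ≤ R),
            ∑ d ∈ r.divisors, (1 / (q : ℝ) * d) * (if (d : ℤ) ∣ n - a then (1 : ℝ) else 0)) *
              S n) := by
      have e1 : ∑ r ∈ q.divisors.filter (fun r => r ≤ R),
          ∑ d ∈ r.divisors, (1 / (q : ℝ) * d) * T d =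
          ∑ n ∈ (RW x J).filter (fun n => n ≠ a), ∑ r ∈ q.divisors.filter (fun r => r ≤ R),
            ∑ d ∈ r.divisors, (1 / (q : ℝ) * d) *
              (ww x J n * ((if (d : ℤ) ∣ n - a then 1 else 0) * S n)) := by
        rw [sum_comm]
        refine sum_congr rfl fun r _ => ?_
        rw [sum_comm]
        refine sum_congr rfl fun d _ => ?_
        rw [hT, mul_sum]
      rw [e1, hT]
      simp only
      rw [← sum_add_distrib]
      refine sum_congr rfl fun n _ => ?_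
      generalize S n = s
      rw [add_mul, mul_add]
      congr 1
      rw [sum_mul, mul_sum]
      refine sum_congr rfl fun r _ => ?_
      rw [sum_mul, mul_sum]
      refine sum_congr rfl fun d _ => ?_
      ring
    rw [e]
    refine sum_le_sum fun n _ => ?_
    refine mul_le_mul_of_nonneg_left ?_ (DiB_ww_nonneg x J n)
    refine mul_le_mul (DiB_uu R q a n) (DiB_sa R Q hQ a n) (DiB_sa_nonneg R Q a n) ?_
    exact (abs_nonneg _).trans (DiB_uu R q a n)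
  refine hmaj.trans ?_
  have hq0 : (0 : ℝ) < q := by exact_mod_cast hq
  have h1 := hTd q hq
  have h2 : ∑ r ∈ q.divisors.filter (fun r => r ≤ R), ∑ d ∈ r.divisors, (1 / (q : ℝ) * d) * T d ≤
      ∑ r ∈ q.divisors.filter (fun r => r ≤ R), ∑ d ∈ r.divisors,
        (100 * x / q * (3 + 3 * Λ ^ 2)) * (tau d : ℝ) := by
    refine sum_le_sum fun r hr => sum_le_sum fun d hd => ?_
    have hd1 : 1 ≤ d := Nat.pos_of_mem_divisors hd
    have hd0 : (0 : ℝ) < d := by exact_mod_cast hd1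
    refine (mul_le_mul_of_nonneg_left (hTd d hd1) (by positivity)).trans (le_of_eq ?_)
    field_simp
  unfold PS WW
  refine (add_le_add h1 h2).trans (le_of_eq ?_)
  simp only [← mul_sum]
  rw [← hΛ]
  ring

end Pool.Agent.H35.KM

end

section

/-!
# The sum of the diagonal majorants

`L = log x`, `1 + log R ≤ 2L`, `3 + 3 (1 + log R)² ≤ 15 L²`.
`∑_{q ∈ (Q,2Q]} τ(q)/q = ∑_{d ≤ 2Q} ∑_{d ∣ q} 1/q ≤ ∑_{d ≤ 2Q} 3/d ≤ 3 (1 + log 2Q) ≤ 6 L`
(`sum_inv_mult`, `Dg_harm`).  `∑_q WW R q/q = ∑_{r ≤ R} (∑_{d ∣ r} τ(d)) ∑_{r ∣ q} 1/q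
≤ 3 ∑_{r ≤ R} (1/r) ∑_{d ∣ r} τ(d) ≤ 3 (∑_{n ≤ R} 1/n)³ ≤ 24 L³`
(`∑_{d ∣ r} τ(d)` counts `r = n₁ n₂ n₃`; do it in two steps with `Dg_inv_mult`).
Total `≤ 100 x · 15 L² · 30 L³`.
-/

set_option autoImplicit false

namespace Pool.Agent.H35.KM

open Finset
open Pool.Agent.H80.KF

private theorem DiC_swap (s : Finset ℕ) (N : ℕ) (hs : ∀ q ∈ s, 1 ≤ q ∧ q ≤ N) (f : ℕ → ℝ)
    (P : ℕ → Prop) [DecidablePred P] :
    ∑ q ∈ s, (∑ d ∈ q.divisors.filter P, f d) / (q : ℝ) =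
      ∑ d ∈ (Icc 1 N).filter P, f d * ∑ q ∈ s.filter (fun q => d ∣ q), (1 : ℝ) / q := by
  have h1 : ∀ q ∈ s, (∑ d ∈ q.divisors.filter P, f d) / (q : ℝ) =
      ∑ d ∈ (Icc 1 N).filter P, if d ∣ q then f d / (q : ℝ) else 0 := by
    intro q hq
    have h2 : q.divisors.filter P = ((Icc 1 N).filter P).filter (fun d => d ∣ q) := by
      ext d
      simp only [mem_filter, Nat.mem_divisors, mem_Icc]
      have h6 := hs q hq
      constructor
      · rintro ⟨⟨h3, h4⟩, h5⟩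
        have h7 := Nat.le_of_dvd (Nat.pos_of_ne_zero h4) h3
        have h8 := Nat.pos_of_dvd_of_pos h3 (Nat.pos_of_ne_zero h4)
        exact ⟨⟨⟨h8, h7.trans h6.2⟩, h5⟩, h3⟩
      · rintro ⟨⟨⟨h3, h4⟩, h5⟩, h7⟩
        exact ⟨⟨h7, by omega⟩, h5⟩
    rw [h2, sum_filter (fun d => d ∣ q), sum_div]
    refine sum_congr rfl fun d _ => ?_
    split_ifs
    · rfl
    · exact zero_div _
  rw [sum_congr rfl h1, sum_comm]
  refine sum_congr rfl fun d _ => ?_
  rw [sum_filter, mul_sum]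
  refine sum_congr rfl fun q _ => ?_
  split_ifs
  · ring
  · ring

private theorem DiC_tau_eq (q : ℕ) : (tau q : ℝ) = ∑ d ∈ q.divisors.filter (fun _ => True), (1 : ℝ) := by
  unfold tau
  rw [filter_true_of_mem (fun _ _ => trivial)]
  simp

private theorem DiC_tau (Q : ℕ) (hQ : 1 ≤ Q) :
    ∑ q ∈ Ioc Q (2 * Q), (tau q : ℝ) / q ≤ 3 * (1 + Real.log ((2 * Q : ℕ) : ℝ)) := by
  have h0 : ∑ q ∈ Ioc Q (2 * Q), (tau q : ℝ) / q =
      ∑ q ∈ Ioc Q (2 * Q), (∑ d ∈ q.divisors.filter (fun _ => True), (1 : ℝ)) / (q : ℝ) :=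
    sum_congr rfl fun q _ => by rw [DiC_tau_eq]
  rw [h0, DiC_swap (Ioc Q (2 * Q)) (2 * Q) (fun q hq => by
    rw [mem_Ioc] at hq
    omega) (fun _ => 1) (fun _ => True)]
  have h1 : ∑ d ∈ (Icc 1 (2 * Q)).filter (fun _ => True),
      (1 : ℝ) * ∑ q ∈ (Ioc Q (2 * Q)).filter (fun q => d ∣ q), (1 : ℝ) / q ≤
      ∑ d ∈ Icc 1 (2 * Q), 3 * ((1 : ℝ) / d) := by
    rw [filter_true_of_mem (fun _ _ => trivial)]
    refine sum_le_sum fun d hd => ?_
    rw [mem_Icc] at hd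
    have h2 := sum_inv_mult Q d hQ hd.1 hd.2
    rw [one_mul]
    refine h2.trans (le_of_eq ?_)
    ring
  refine h1.trans ?_
  rw [← mul_sum]
  exact mul_le_mul_of_nonneg_left (Dg_harm (2 * Q)) (by norm_num)

/-- `∑_{d ≤ R} τ(d)/d` -/
private theorem DiC_tau2 (R : ℕ) :
    ∑ d ∈ Icc 1 R, (tau d : ℝ) / d ≤ (1 + Real.log R) ^ 2 := by
  have h0 : ∑ q ∈ Icc 1 R, (tau q : ℝ) / q =
      ∑ q ∈ Icc 1 R, (∑ d ∈ q.divisors.filter (fun _ => True), (1 : ℝ)) / (q : ℝ) :=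
    sum_congr rfl fun q _ => by rw [DiC_tau_eq]
  rw [h0, DiC_swap (Icc 1 R) R (fun q hq => by
    rw [mem_Icc] at hq
    exact hq) (fun _ => 1) (fun _ => True)]
  have h1 : ∑ d ∈ (Icc 1 R).filter (fun _ => True),
      (1 : ℝ) * ∑ q ∈ (Icc 1 R).filter (fun q => d ∣ q), (1 : ℝ) / q ≤
      ∑ d ∈ Icc 1 R, (1 + Real.log R) * ((1 : ℝ) / d) := by
    rw [filter_true_of_mem (fun _ _ => trivial)]
    refine sum_le_sum fun d hd => ?_
    rw [mem_Icc] at hd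
    have h2 := Dg_inv_mult R d hd.1
    rw [one_mul]
    refine h2.trans (le_of_eq ?_)
    ring
  refine h1.trans ?_
  rw [← mul_sum, sq]
  exact mul_le_mul_of_nonneg_left (Dg_harm R) (Dg_one_log R)

private theorem DiC_tau3 (R : ℕ) :
    ∑ r ∈ Icc 1 R, (∑ d ∈ r.divisors, (tau d : ℝ)) / r ≤ (1 + Real.log R) ^ 3 := by
  have h0 : ∑ r ∈ Icc 1 R, (∑ d ∈ r.divisors, (tau d : ℝ)) / (r : ℝ) =
      ∑ r ∈ Icc 1 R, (∑ d ∈ r.divisors.filter (fun _ => True), (tau d : ℝ)) / (r : ℝ) :=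
    sum_congr rfl fun q _ => by rw [filter_true_of_mem (fun _ _ => trivial)]
  rw [h0, DiC_swap (Icc 1 R) R (fun q hq => by
    rw [mem_Icc] at hq
    exact hq) (fun d => (tau d : ℝ)) (fun _ => True)]
  have h1 : ∑ d ∈ (Icc 1 R).filter (fun _ => True),
      (tau d : ℝ) * ∑ q ∈ (Icc 1 R).filter (fun q => d ∣ q), (1 : ℝ) / q ≤
      ∑ d ∈ Icc 1 R, (1 + Real.log R) * ((tau d : ℝ) / d) := by
    rw [filter_true_of_mem (fun _ _ => trivial)]
    refine sum_le_sum fun d hd => ?_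
    rw [mem_Icc] at hd
    have h2 := mul_le_mul_of_nonneg_left (Dg_inv_mult R d hd.1) (Nat.cast_nonneg (tau d) : (0 : ℝ) ≤ tau d)
    refine h2.trans (le_of_eq ?_)
    ring
  refine h1.trans ?_
  rw [← mul_sum]
  have h2 := mul_le_mul_of_nonneg_left (DiC_tau2 R) (Dg_one_log R)
  refine h2.trans (le_of_eq ?_)
  ring

private theorem DiC_WW (Q R : ℕ) (hQ : 1 ≤ Q) :
    ∑ q ∈ Ioc Q (2 * Q), WW R q / q ≤ 3 * (1 + Real.log R) ^ 3 := by
  unfold WW
  rw [DiC_swap (Ioc Q (2 * Q)) (2 * Q) (fun q hq => by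
    rw [mem_Ioc] at hq
    omega) (fun r => ∑ d ∈ r.divisors, (tau d : ℝ)) (fun r => r ≤ R)]
  have hnn : ∀ r : ℕ, (0 : ℝ) ≤ ∑ d ∈ r.divisors, (tau d : ℝ) := fun r =>
    sum_nonneg fun d _ => Nat.cast_nonneg _
  have h1 : ∑ r ∈ (Icc 1 (2 * Q)).filter (fun r => r ≤ R), (∑ d ∈ r.divisors, (tau d : ℝ)) *
      ∑ q ∈ (Ioc Q (2 * Q)).filter (fun q => r ∣ q), (1 : ℝ) / q ≤
      ∑ r ∈ (Icc 1 (2 * Q)).filter (fun r => r ≤ R),
        3 * ((∑ d ∈ r.divisors, (tau d : ℝ)) / r) := by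
    refine sum_le_sum fun r hr => ?_
    rw [mem_filter, mem_Icc] at hr
    have h2 := mul_le_mul_of_nonneg_left (sum_inv_mult Q r hQ hr.1.1 hr.1.2) (hnn r)
    refine h2.trans (le_of_eq ?_)
    ring
  refine h1.trans ?_
  rw [← mul_sum]
  refine mul_le_mul_of_nonneg_left (le_trans ?_ (DiC_tau3 R)) (by norm_num)
  refine sum_le_sum_of_subset_of_nonneg ?_ ?_
  · intro r hr
    rw [mem_filter, mem_Icc] at hr
    rw [mem_Icc]
    exact ⟨hr.1.1, hr.2⟩
  · intro r _ _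
    exact div_nonneg (hnn r) (Nat.cast_nonneg r)

private theorem DiC_arith (x L K T W : ℝ) (hx : 0 ≤ x) (hL : 1 ≤ L) (hK0 : 0 ≤ K) (hK : K ≤ 2 * L)
    (hT : T ≤ 6 * L) (hW : W ≤ 3 * K ^ 3) :
    100 * x * (3 + 3 * K ^ 2) * (T + W) ≤ 10 ^ 5 * x * L ^ 5 := by
  have hL0 : 0 ≤ L := by linarith
  have h1 : K ^ 2 ≤ (2 * L) ^ 2 := pow_le_pow_left₀ hK0 hK 2
  have h2 : K ^ 3 ≤ (2 * L) ^ 3 := pow_le_pow_left₀ hK0 hK 3
  have h3 : (1 : ℝ) ≤ L ^ 2 := one_le_pow₀ hL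
  have h4 : 3 + 3 * K ^ 2 ≤ 15 * L ^ 2 := by nlinarith
  have h5 : L ≤ L ^ 3 := by
    have h6 : L * 1 ≤ L * L ^ 2 := mul_le_mul_of_nonneg_left h3 hL0
    calc L = L * 1 := (mul_one L).symm
      _ ≤ L * L ^ 2 := h6
      _ = L ^ 3 := by ring
  have h6 : T + W ≤ 30 * L ^ 3 := by nlinarith
  have h7 : 0 ≤ 100 * x * (3 + 3 * K ^ 2) := by positivity
  calc 100 * x * (3 + 3 * K ^ 2) * (T + W) ≤ 100 * x * (3 + 3 * K ^ 2) * (30 * L ^ 3) :=
        mul_le_mul_of_nonneg_left h6 h7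
    _ = (3 + 3 * K ^ 2) * (3000 * x * L ^ 3) := by ring
    _ ≤ (15 * L ^ 2) * (3000 * x * L ^ 3) := mul_le_mul_of_nonneg_right h4 (by positivity)
    _ = 45000 * (x * L ^ 5) := by ring
    _ ≤ 10 ^ 5 * (x * L ^ 5) := mul_le_mul_of_nonneg_right (by norm_num) (by positivity)
    _ = 10 ^ 5 * x * L ^ 5 := by ring

theorem ps_nonneg (x R q : ℕ) : 0 ≤ PS x R q := by
  unfold PS WW
  have h1 : (0 : ℝ) ≤ ∑ r ∈ q.divisors.filter (fun r => r ≤ R), ∑ d ∈ r.divisors, (tau d : ℝ) :=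
    sum_nonneg fun r _ => sum_nonneg fun d _ => Nat.cast_nonneg _
  positivity

theorem dia_tot (x Q R : ℕ) (hx : 3 ≤ x) (hQ : 1 ≤ Q) (hQx : 2 * Q ≤ x) (hR : 1 ≤ R)
    (hRx : R ≤ x) :
    ∑ q ∈ Ioc Q (2 * Q), PS x R q ≤ 10 ^ 5 * x * Real.log x ^ 5 := by
  have hxR : (3 : ℝ) ≤ x := by exact_mod_cast hx
  have hx0 : (0 : ℝ) < x := by linarith
  have hL : (1 : ℝ) ≤ Real.log x := by
    rw [Real.le_log_iff_exp_le hx0]
    have := Real.exp_one_lt_d9
    linarith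
  have hR0 : (0 : ℝ) < R := by exact_mod_cast hR
  have hK : 1 + Real.log R ≤ 2 * Real.log x := by
    have h1 : Real.log R ≤ Real.log x := Real.log_le_log hR0 (by exact_mod_cast hRx)
    linarith
  have hQ0 : (0 : ℝ) < ((2 * Q : ℕ) : ℝ) := by exact_mod_cast (by omega : 0 < 2 * Q)
  have hT := DiC_tau Q hQ
  have hT' : ∑ q ∈ Ioc Q (2 * Q), (tau q : ℝ) / q ≤ 6 * Real.log x := by
    have h1 : Real.log ((2 * Q : ℕ) : ℝ) ≤ Real.log x :=
      Real.log_le_log hQ0 (by exact_mod_cast hQx)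
    linarith
  have hW := DiC_WW Q R hQ
  have h := DiC_arith (x : ℝ) (Real.log x) (1 + Real.log R) _ _ hx0.le hL (Dg_one_log R) hK hT' hW
  refine le_trans (le_of_eq ?_) h
  rw [← sum_add_distrib, mul_sum]
  refine sum_congr rfl fun q _ => ?_
  unfold PS
  ring

end Pool.Agent.H35.KM

end

section

/-!
# The diagonal of a selection

`cf a q = 0` unless `a ∈ T q`, `|cf| ≤ 1`: `SS(cf a)² ≤ |SS(cf a)| SA` (`ss_le_sa`) and
`|SS(cf a)| ≤ ∑_{q ∈ (Q,2Q], a ∈ T q} |u_{a,q}(n)|`.  Exchange the sums: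
`∑_a ∑_n ≤ ∑_q ∑_{a ∈ T q} PS x R q ≤ M ∑_q PS x R q` (`dia_one`, `ps_nonneg`, `dia_tot`).
-/

set_option autoImplicit false

namespace Pool.Agent.H35.KM

open Finset
open Pool.Agent.H80.KF

private theorem DiD_ss (R Q : ℕ) (T : ℕ → Finset ℤ) (c : ℕ → ℝ) (hc : ∀ q, |c q| ≤ 1) (a n : ℤ)
    (hc0 : ∀ q, a ∉ T q → c q = 0) :
    |SS R Q c a n| ≤ ∑ q ∈ Ioc Q (2 * Q), if a ∈ T q then |uu R q a n| else 0 := by
  unfold SS
  refine (Finset.abs_sum_le_sum_abs _ _).trans (Finset.sum_le_sum fun q _ => ?_)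
  split_ifs with h
  · rw [abs_mul]
    have h1 := mul_le_mul_of_nonneg_right (hc q) (abs_nonneg (uu R q a n))
    rwa [one_mul] at h1
  · rw [hc0 q h, zero_mul, abs_zero]

theorem dia_sel (x Q R J M : ℕ) (hx : 3 ≤ x) (hQ : 1 ≤ Q) (hQx : 2 * Q ≤ x) (hR : 1 ≤ R)
    (hRx : R ≤ x) (hJ : 1 ≤ J) (A : Finset ℤ) (hA : ∀ a ∈ A, |a| ≤ x) (T : ℕ → Finset ℤ)
    (hT : Sel A M T) (cf : ℤ → ℕ → ℝ) (hcf : ∀ a q, |cf a q| ≤ 1)
    (hc0 : ∀ a q, a ∉ T q → cf a q = 0) :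
    ∑ a ∈ A, ∑ n ∈ (RW x J).filter (fun n => n ≠ a), ww x J n * SS R Q (cf a) a n ^ 2 ≤
      M * (10 ^ 5 * x * Real.log x ^ 5) := by
  -- pointwise
  have h1 : ∀ a n : ℤ, ww x J n * SS R Q (cf a) a n ^ 2 ≤
      ∑ q ∈ Ioc Q (2 * Q), if a ∈ T q then ww x J n * (|uu R q a n| * SA R Q a n) else 0 := by
    intro a n
    have h2 := DiD_ss R Q T (cf a) (hcf a) a n (fun q => hc0 a q)
    have h3 := ss_le_sa R Q (cf a) (hcf a) a n
    have h4 : SS R Q (cf a) a n ^ 2 ≤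
        (∑ q ∈ Ioc Q (2 * Q), if a ∈ T q then |uu R q a n| else 0) * SA R Q a n := by
      rw [← sq_abs, sq]
      exact mul_le_mul h2 h3 (abs_nonneg _) ((abs_nonneg _).trans h2)
    refine (mul_le_mul_of_nonneg_left h4 (ww_nonneg x J n)).trans (le_of_eq ?_)
    rw [Finset.sum_mul, Finset.mul_sum]
    refine Finset.sum_congr rfl fun q _ => ?_
    split_ifs
    · rfl
    · simp
  -- exchange of the sums
  have h5 : ∑ a ∈ A, ∑ n ∈ (RW x J).filter (fun n => n ≠ a), ww x J n * SS R Q (cf a) a n ^ 2 ≤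
      ∑ q ∈ Ioc Q (2 * Q), ∑ a ∈ A, if a ∈ T q then
        ∑ n ∈ (RW x J).filter (fun n => n ≠ a), ww x J n * (|uu R q a n| * SA R Q a n) else 0 := by
    refine (Finset.sum_le_sum fun a _ => Finset.sum_le_sum fun n _ => h1 a n).trans (le_of_eq ?_)
    rw [Finset.sum_comm (s := Ioc Q (2 * Q)) (t := A)]
    refine Finset.sum_congr rfl fun a _ => ?_
    rw [Finset.sum_comm]
    refine Finset.sum_congr rfl fun q _ => ?_
    split_ifs
    · rfl
    · simp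
  refine h5.trans ?_
  have h6 : ∀ q ∈ Ioc Q (2 * Q), (∑ a ∈ A, if a ∈ T q then
      ∑ n ∈ (RW x J).filter (fun n => n ≠ a), ww x J n * (|uu R q a n| * SA R Q a n) else 0) ≤
      M * PS x R q := by
    intro q hq
    rw [Finset.mem_Ioc] at hq
    obtain ⟨hTA, hTc, _⟩ := hT q
    rw [← Finset.sum_filter]
    have h7 : A.filter (fun a => a ∈ T q) = T q := by
      ext a
      rw [Finset.mem_filter]
      exact ⟨fun h => h.2, fun h => ⟨hTA h, h⟩⟩
    rw [h7]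
    refine (Finset.sum_le_card_nsmul _ _ (PS x R q) fun a ha =>
      dia_one x J R Q q (by omega) hJ hR hQ (by omega) a (hA a (hTA ha))).trans ?_
    rw [nsmul_eq_mul]
    exact mul_le_mul_of_nonneg_right (by exact_mod_cast hTc) (ps_nonneg x R q)
  refine (Finset.sum_le_sum h6).trans ?_
  rw [← Finset.mul_sum]
  exact mul_le_mul_of_nonneg_left (dia_tot x Q R hx hQ hQx hR hRx) (Nat.cast_nonneg _)

end Pool.Agent.H35.KM

end
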