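import Pool.Agent.H94.EH.M10
import Pool.Agent.H94.EH.M14
import Pool.Agent.H94.EH.M37

/-! The parts of this file: H80.KF.CKa, H80.KF.CKb, H80.KF.CKc, H80.KF.Cross, H35.KM.Crs, H80.KF.Ext. -/

section

/-!
# The Kloosterman fraction of a pair of classes

`q = g m`, `q' = g n`, `(m,n) = 1`, `g h₁ = a' - a`, `n₀ ≡ a (gm)`, `n₀ ≡ a' (gn)`:
`n₀ = a + g m t`, `g m t ≡ g h₁ (mod g n)`, `t ≡ h₁ m̄ (mod n)`, so
`l n₀/(gmn) = l a/(gmn) + l t/n`.
-/

set_option autoImplicit false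

namespace Pool.Agent.H80.KF

open Finset

theorem crt_phase (g m n : ℕ) (hg : 1 ≤ g) (hm : 1 ≤ m) (hn : 1 ≤ n) (hc : Nat.Coprime m n)
    (a a' h1 n0 l : ℤ) (hh : (g : ℤ) * h1 = a' - a) (h0 : ((g * m : ℕ) : ℤ) ∣ n0 - a)
    (h0' : ((g * n : ℕ) : ℤ) ∣ n0 - a') :
    ee ((l : ℝ) * n0 / ((g : ℝ) * m * n)) =
      ee ((l : ℝ) * a / ((g : ℝ) * m * n)) * kf n (l * h1) m := by
  obtain ⟨t, ht⟩ := h0
  obtain ⟨w, hw⟩ := h0'
  obtain ⟨z, hz⟩ := iv_spec hn hc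
  have hgpos : (g : ℤ) ≠ 0 := by
    have : (1 : ℤ) ≤ g := by exact_mod_cast hg
    omega
  have hmt : (m : ℤ) * t = h1 + n * w := by
    apply mul_left_cancel₀ hgpos
    push_cast at ht hw
    linear_combination (-1 : ℤ) * ht + hw - hh
  rw [kf_eq hn (l * h1) (iv n m : ℤ) ⟨z, hz⟩, ← ee_add]
  have hgR : (g : ℝ) ≠ 0 := by
    have : (1 : ℝ) ≤ g := by exact_mod_cast hg
    linarith
  have hmR : (m : ℝ) ≠ 0 := by
    have : (1 : ℝ) ≤ m := by exact_mod_cast hm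
    linarith
  have hnR : (n : ℝ) ≠ 0 := by
    have : (1 : ℝ) ≤ n := by exact_mod_cast hn
    linarith
  apply ee_eq_of_int (l * ((iv n m : ℤ) * w - z * t))
  have ht' : (n0 : ℝ) - a = (g : ℝ) * m * t := by exact_mod_cast ht
  have hmt' : (m : ℝ) * t = h1 + n * w := by exact_mod_cast hmt
  have hz' : (m : ℝ) * (iv n m : ℝ) - 1 = n * z := by exact_mod_cast hz
  push_cast
  field_simp
  linear_combination (l : ℝ) * ht' + (g : ℝ) * m * l * (iv n m : ℝ) * hmt' -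
    (g : ℝ) * m * l * t * hz'

end Pool.Agent.H80.KF

end

section

/-!
# One common factor and one frequency

`N = Q/g` (floor), `α m = c(gm) 1_{gm ∈ (Q,2Q]}`, `β n = c'(gn) 1_{gn ∈ (Q,2Q]}`,
`F(y) = (N²/y)(1 - 2x|l|/(g y))⁺ ee(l a/(g y))` for `y ≥ N²`, `F(y) = 0` for `y < N²`; `η = l h₁`.
If `|l| g x > 2Q²` every term is `0` (`m, n ≤ 2Q/g`, so `2x|l| ≥ gmn`).  Otherwise
`|l| ≤ 2Q²/(gx)`, `|h₁| ≤ x/g`, `|η| ≤ 2(Q/g)² ≤ 2(N+1)² ≤ 4N²` (`N ≥ 3`), and `F` is Lipschitz on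
`[N², 9N²]` with constant `(1 + 4(N+1)²/N² + 4π(N+1)²/N²)/N² ≤ 40/N²` (`N` large): the three factors are
bounded by one and have derivatives `≤ N²/y²`, `2x|l|/(gy²)`, `2π|l||a|/(gy²)`, `|a| ≤ x`.  Apply `lemmaK`.
-/

set_option autoImplicit false

namespace Pool.Agent.H80.KF

open Finset

private theorem ckb_ee_norm (t : ℝ) : ‖ee t‖ = 1 := by
  have h : (2 * Real.pi * t * Complex.I : ℂ) = ((2 * Real.pi * t : ℝ) : ℂ) * Complex.I := by
    push_cast; ring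
  rw [ee, h, Complex.norm_exp_ofReal_mul_I]

private theorem ckb_ee_lip (s t : ℝ) : ‖ee s - ee t‖ ≤ 2 * Real.pi * |s - t| := by
  have h : ee s - ee t =
      ee t * (Complex.exp (Complex.I * ((2 * Real.pi * (s - t) : ℝ) : ℂ)) - 1) := by
    rw [ee, ee, mul_sub, mul_one, ← Complex.exp_add]
    congr 2
    push_cast
    ring
  rw [h, norm_mul, ckb_ee_norm, one_mul]
  refine Real.norm_exp_I_mul_ofReal_sub_one_le.trans ?_
  rw [Real.norm_eq_abs, abs_mul, abs_of_nonneg (by positivity)]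

private theorem ckb_wt {N : ℕ} (hN : 10 ≤ N) {A B : ℝ} (hA0 : 0 ≤ A)
    (hA : A ≤ 4 * ((N : ℝ) + 1) ^ 2) (hB : |B| ≤ 2 * ((N : ℝ) + 1) ^ 2) :
    Wt N (fun y => if (N : ℝ) ^ 2 ≤ y then
      (((N : ℝ) ^ 2 / y * max 0 (1 - A / y) : ℝ) : ℂ) * ee (B / y) else 0) := by
  have hNr : (10 : ℝ) ≤ N := by exact_mod_cast hN
  have hM : (0 : ℝ) < (N : ℝ) ^ 2 := by positivity
  have f1 : ∀ y : ℝ, (N : ℝ) ^ 2 ≤ y → 0 ≤ (N : ℝ) ^ 2 / y ∧ (N : ℝ) ^ 2 / y ≤ 1 := by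
    intro y hy
    have hy0 : 0 < y := lt_of_lt_of_le hM hy
    exact ⟨by positivity, (div_le_one hy0).2 hy⟩
  have f2 : ∀ y : ℝ, (N : ℝ) ^ 2 ≤ y → 0 ≤ max 0 (1 - A / y) ∧ max 0 (1 - A / y) ≤ 1 := by
    intro y hy
    have hy0 : 0 < y := lt_of_lt_of_le hM hy
    have : 0 ≤ A / y := by positivity
    exact ⟨le_max_left _ _, max_le (by norm_num) (by linarith)⟩
  refine ⟨?_, ?_⟩
  · intro y
    by_cases hy : (N : ℝ) ^ 2 ≤ y
    · simp only [if_pos hy]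
      rw [norm_mul, ckb_ee_norm, mul_one, Complex.norm_real, Real.norm_eq_abs,
        abs_of_nonneg (mul_nonneg (f1 y hy).1 (f2 y hy).1)]
      exact mul_le_one₀ (f1 y hy).2 (f2 y hy).1 (f2 y hy).2
    · simp only [if_neg hy, norm_zero]
      norm_num
  · intro y z hy _ hz _
    simp only [if_pos hy, if_pos hz]
    have hy0 : 0 < y := lt_of_lt_of_le hM hy
    have hz0 : 0 < z := lt_of_lt_of_le hM hz
    obtain ⟨D, hD⟩ : ∃ D : ℝ, D = |1 / y - 1 / z| := ⟨_, rfl⟩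
    have hD0 : 0 ≤ D := by rw [hD]; exact abs_nonneg _
    have hDle : D ≤ |y - z| / ((N : ℝ) ^ 2) ^ 2 := by
      have h1 : 1 / y - 1 / z = (z - y) / (y * z) := by field_simp
      rw [hD, h1, abs_div, abs_sub_comm z y, abs_of_pos (mul_pos hy0 hz0), sq ((N : ℝ) ^ 2)]
      exact div_le_div_of_nonneg_left (abs_nonneg _) (by positivity)
        (mul_le_mul hy hz hM.le hy0.le)
    have e1 : |(N : ℝ) ^ 2 / y - (N : ℝ) ^ 2 / z| = (N : ℝ) ^ 2 * D := by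
      rw [hD, ← abs_of_pos hM, ← abs_mul, abs_of_pos hM]
      congr 1
      ring
    have e2 : |max 0 (1 - A / y) - max 0 (1 - A / z)| ≤ A * D := by
      have h1 := abs_max_sub_max_le_abs (1 - A / y) (1 - A / z) 0
      rw [max_comm (1 - A / y) 0, max_comm (1 - A / z) 0] at h1
      refine h1.trans (le_of_eq ?_)
      have h2 : 1 - A / y - (1 - A / z) = A * -(1 / y - 1 / z) := by ring
      rw [h2, abs_mul, abs_of_nonneg hA0, abs_neg, hD]
    have e3 : ‖ee (B / y) - ee (B / z)‖ ≤ 2 * Real.pi * (|B| * D) := by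
      refine (ckb_ee_lip _ _).trans (le_of_eq ?_)
      have h2 : B / y - B / z = B * (1 / y - 1 / z) := by ring
      rw [h2, abs_mul, hD]
    obtain ⟨p, hp⟩ : ∃ p : ℝ, p = (N : ℝ) ^ 2 / y := ⟨_, rfl⟩
    obtain ⟨p', hp'⟩ : ∃ p' : ℝ, p' = (N : ℝ) ^ 2 / z := ⟨_, rfl⟩
    obtain ⟨r, hr⟩ : ∃ r : ℝ, r = max 0 (1 - A / y) := ⟨_, rfl⟩
    obtain ⟨r', hr'⟩ : ∃ r' : ℝ, r' = max 0 (1 - A / z) := ⟨_, rfl⟩
    have a1 := f1 z hz
    have a2 := f2 y hy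
    have a3 := f2 z hz
    rw [← hp, ← hp'] at e1
    rw [← hr, ← hr'] at e2
    rw [← hp'] at a1
    rw [← hr] at a2
    rw [← hr'] at a3
    rw [← hp, ← hp', ← hr, ← hr']
    have key : ((p * r : ℝ) : ℂ) * ee (B / y) - ((p' * r' : ℝ) : ℂ) * ee (B / z) =
        (((p - p') * r : ℝ) : ℂ) * ee (B / y) + ((p' * (r - r') : ℝ) : ℂ) * ee (B / y) +
          ((p' * r' : ℝ) : ℂ) * (ee (B / y) - ee (B / z)) := by
      push_cast
      ring
    rw [key]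
    have n1 : ‖(((p - p') * r : ℝ) : ℂ) * ee (B / y)‖ ≤ (N : ℝ) ^ 2 * D := by
      rw [norm_mul, ckb_ee_norm, mul_one, Complex.norm_real, Real.norm_eq_abs, abs_mul, e1,
        abs_of_nonneg a2.1]
      exact mul_le_of_le_one_right (by positivity) a2.2
    have n2 : ‖((p' * (r - r') : ℝ) : ℂ) * ee (B / y)‖ ≤ A * D := by
      rw [norm_mul, ckb_ee_norm, mul_one, Complex.norm_real, Real.norm_eq_abs, abs_mul,
        abs_of_nonneg a1.1]
      exact (mul_le_of_le_one_left (abs_nonneg _) a1.2).trans e2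
    have n3 : ‖((p' * r' : ℝ) : ℂ) * (ee (B / y) - ee (B / z))‖ ≤ 2 * Real.pi * (|B| * D) := by
      rw [norm_mul, Complex.norm_real, Real.norm_eq_abs, abs_mul, abs_of_nonneg a1.1,
        abs_of_nonneg a3.1]
      refine (mul_le_of_le_one_left (norm_nonneg _) ?_).trans e3
      exact mul_le_one₀ a1.2 a3.1 a3.2
    refine (norm_add₃_le).trans ?_
    have hpi : Real.pi ≤ 4 := Real.pi_le_four
    have hpi0 : 0 < Real.pi := Real.pi_pos
    have b1 : 2 * Real.pi * (|B| * D) ≤ 8 * (2 * ((N : ℝ) + 1) ^ 2 * D) := by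
      have h1 : |B| * D ≤ 2 * ((N : ℝ) + 1) ^ 2 * D := mul_le_mul_of_nonneg_right hB hD0
      have h2 : 2 * Real.pi ≤ 8 := by linarith only [hpi]
      exact mul_le_mul h2 h1 (mul_nonneg (abs_nonneg _) hD0) (by norm_num)
    have b2 : A * D ≤ 4 * ((N : ℝ) + 1) ^ 2 * D := mul_le_mul_of_nonneg_right hA hD0
    have b3 : ((N : ℝ) + 1) ^ 2 ≤ 39 / 20 * (N : ℝ) ^ 2 := by nlinarith only [hNr]
    have b4 : ((N : ℝ) + 1) ^ 2 * D ≤ 39 / 20 * (N : ℝ) ^ 2 * D :=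
      mul_le_mul_of_nonneg_right b3 hD0
    have b5 : (N : ℝ) ^ 2 * D ≤ 1 / (N : ℝ) ^ 2 * |y - z| := by
      have h1 := mul_le_mul_of_nonneg_left hDle hM.le
      refine h1.trans (le_of_eq ?_)
      field_simp
    have b6 : 40 / (N : ℝ) ^ 2 * |y - z| = 40 * (1 / (N : ℝ) ^ 2 * |y - z|) := by ring
    rw [b6]
    nlinarith only [n1, n2, n3, b1, b2, b4, b5]

theorem ckb : ∃ N0 : ℕ, ∀ x Q g : ℕ, 1 ≤ x → 1 ≤ g → N0 ≤ Q / g → ∀ l a h1 : ℤ, l ≠ 0 →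
    h1 ≠ 0 → |a| ≤ x → (g : ℤ) * |h1| ≤ x → ∀ c c' : ℕ → ℝ, (∀ q, |c q| ≤ 1) →
    (∀ q, |c' q| ≤ 1) →
    ‖∑ n ∈ II (Q / g), ∑ m ∈ (II (Q / g)).filter (fun m => Nat.Coprime m n),
        (if g * m ∈ Ioc Q (2 * Q) ∧ g * n ∈ Ioc Q (2 * Q) then
          ((c (g * m) * c' (g * n) / ((g : ℝ) * m * n) *
            max 0 (1 - 2 * x * |(l : ℝ)| / ((g : ℝ) * m * n)) : ℝ) : ℂ) *
            (ee ((l : ℝ) * a / ((g : ℝ) * m * n)) * kf n (l * h1) m)
        else 0)‖ ≤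
      if |l| * g * x ≤ 2 * (Q : ℤ) ^ 2 then
        1 / ((g : ℝ) * ((Q / g : ℕ) : ℝ) ^ 2) * ((Q / g : ℕ) : ℝ) ^ ((2 : ℝ) - 1 / 50)
      else 0 := by
  obtain ⟨N0, hK⟩ := lemmaK
  refine ⟨max N0 10, ?_⟩
  intro x Q g hx hg hNN l a h1 hl hh1 ha hgh c c' hc hc'
  obtain ⟨N, hNdef⟩ : ∃ N : ℕ, N = Q / g := ⟨_, rfl⟩
  rw [← hNdef] at hNN ⊢
  have hN0 : N0 ≤ N := (le_max_left _ _).trans hNN
  have hN10 : 10 ≤ N := (le_max_right _ _).trans hNN
  have hNr : (10 : ℝ) ≤ N := by exact_mod_cast hN10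
  have hgr : (1 : ℝ) ≤ g := by exact_mod_cast hg
  have hg0 : (0 : ℝ) < g := by linarith only [hgr]
  have hxr : (1 : ℝ) ≤ x := by exact_mod_cast hx
  have hQlt : Q < g * (N + 1) := by
    rw [hNdef]
    exact Nat.lt_mul_div_succ Q (by omega)
  have hQr : (Q : ℝ) < g * (N + 1) := by exact_mod_cast hQlt
  have hQ0 : (0 : ℝ) ≤ Q := Nat.cast_nonneg _
  have hQ2 : (Q : ℝ) ^ 2 ≤ (g : ℝ) ^ 2 * ((N : ℝ) + 1) ^ 2 := by
    rw [← mul_pow]
    exact pow_le_pow_left₀ hQ0 hQr.le 2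
  have hlr : (1 : ℝ) ≤ |(l : ℝ)| := by
    have : 1 ≤ |l| := Int.one_le_abs hl
    exact_mod_cast this
  by_cases hcase : |l| * g * x ≤ 2 * (Q : ℤ) ^ 2
  · rw [if_pos hcase]
    have hcr : |(l : ℝ)| * g * x ≤ 2 * (Q : ℝ) ^ 2 := by exact_mod_cast hcase
    have har : |(a : ℝ)| ≤ x := by exact_mod_cast ha
    have hhr : (g : ℝ) * |(h1 : ℝ)| ≤ x := by exact_mod_cast hgh
    -- the size of the frequency
    have hη : |l * h1| ≤ 4 * (N : ℤ) ^ 2 := by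
      have h2 : |(l : ℝ)| * |(h1 : ℝ)| ≤ 4 * (N : ℝ) ^ 2 := by
        have h3 : |(l : ℝ)| * |(h1 : ℝ)| * (g : ℝ) ^ 2 ≤ 2 * ((N : ℝ) + 1) ^ 2 * (g : ℝ) ^ 2 := by
          calc |(l : ℝ)| * |(h1 : ℝ)| * (g : ℝ) ^ 2 = |(l : ℝ)| * g * (g * |(h1 : ℝ)|) := by ring
            _ ≤ |(l : ℝ)| * g * x := mul_le_mul_of_nonneg_left hhr (by positivity)
            _ ≤ 2 * (Q : ℝ) ^ 2 := hcr
            _ ≤ 2 * ((g : ℝ) ^ 2 * ((N : ℝ) + 1) ^ 2) := by linarith only [hQ2]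
            _ = 2 * ((N : ℝ) + 1) ^ 2 * (g : ℝ) ^ 2 := by ring
        have h4 : |(l : ℝ)| * |(h1 : ℝ)| ≤ 2 * ((N : ℝ) + 1) ^ 2 :=
          le_of_mul_le_mul_right h3 (by positivity)
        nlinarith only [hNr, h4]
      rw [abs_mul]
      exact_mod_cast h2
    have hη0 : l * h1 ≠ 0 := mul_ne_zero hl hh1
    obtain ⟨A, hA⟩ : ∃ A : ℝ, A = 2 * x * |(l : ℝ)| / g := ⟨_, rfl⟩
    obtain ⟨B, hB⟩ : ∃ B : ℝ, B = (l : ℝ) * a / g := ⟨_, rfl⟩
    have hA0 : 0 ≤ A := by rw [hA]; positivity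
    have hA1 : A ≤ 4 * ((N : ℝ) + 1) ^ 2 := by
      rw [hA, div_le_iff₀ hg0]
      have h3 : 2 * x * |(l : ℝ)| * g ≤ 4 * ((N : ℝ) + 1) ^ 2 * g * g := by
        calc 2 * x * |(l : ℝ)| * g = 2 * (|(l : ℝ)| * g * x) := by ring
          _ ≤ 2 * (2 * (Q : ℝ) ^ 2) := by linarith only [hcr]
          _ ≤ 2 * (2 * ((g : ℝ) ^ 2 * ((N : ℝ) + 1) ^ 2)) := by linarith only [hQ2]
          _ = 4 * ((N : ℝ) + 1) ^ 2 * g * g := by ring
      exact le_of_mul_le_mul_right h3 hg0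
    have hB1 : |B| ≤ 2 * ((N : ℝ) + 1) ^ 2 := by
      rw [hB, abs_div, abs_mul, abs_of_pos hg0, div_le_iff₀ hg0]
      have h3 : |(l : ℝ)| * |(a : ℝ)| * g ≤ 2 * ((N : ℝ) + 1) ^ 2 * g * g := by
        calc |(l : ℝ)| * |(a : ℝ)| * g = |(l : ℝ)| * g * |(a : ℝ)| := by ring
          _ ≤ |(l : ℝ)| * g * x := mul_le_mul_of_nonneg_left har (by positivity)
          _ ≤ 2 * (Q : ℝ) ^ 2 := hcr
          _ ≤ 2 * ((g : ℝ) ^ 2 * ((N : ℝ) + 1) ^ 2) := by linarith only [hQ2]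
          _ = 2 * ((N : ℝ) + 1) ^ 2 * g * g := by ring
      exact le_of_mul_le_mul_right h3 hg0
    have hW := ckb_wt hN10 hA0 hA1 hB1
    have hmain := hK N hN0 (l * h1) hη0 hη
      (fun m => if g * m ∈ Ioc Q (2 * Q) then ((c (g * m) : ℝ) : ℂ) else 0)
      (fun n => if g * n ∈ Ioc Q (2 * Q) then ((c' (g * n) : ℝ) : ℂ) else 0)
      (by
        intro m
        split_ifs
        · rw [Complex.norm_real]; exact hc _
        · rw [norm_zero]; norm_num)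
      (by
        intro m
        split_ifs
        · rw [Complex.norm_real]; exact hc' _
        · rw [norm_zero]; norm_num)
      _ hW
    have hsum : (∑ n ∈ II N, ∑ m ∈ (II N).filter (fun m => Nat.Coprime m n),
        (if g * m ∈ Ioc Q (2 * Q) ∧ g * n ∈ Ioc Q (2 * Q) then
          ((c (g * m) * c' (g * n) / ((g : ℝ) * m * n) *
            max 0 (1 - 2 * x * |(l : ℝ)| / ((g : ℝ) * m * n)) : ℝ) : ℂ) *
            (ee ((l : ℝ) * a / ((g : ℝ) * m * n)) * kf n (l * h1) m)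
        else 0)) =
        ((1 / ((g : ℝ) * (N : ℝ) ^ 2) : ℝ) : ℂ) *
        ∑ n ∈ II N, ∑ m ∈ (II N).filter (fun m => Nat.Coprime m n),
          (fun m : ℕ => if g * m ∈ Ioc Q (2 * Q) then ((c (g * m) : ℝ) : ℂ) else 0) m *
          (fun n : ℕ => if g * n ∈ Ioc Q (2 * Q) then ((c' (g * n) : ℝ) : ℂ) else 0) n *
          (fun y : ℝ => if (N : ℝ) ^ 2 ≤ y then
            (((N : ℝ) ^ 2 / y * max 0 (1 - A / y) : ℝ) : ℂ) * ee (B / y) else 0) ((m : ℝ) * n) *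
          kf n (l * h1) m := by
      rw [mul_sum]
      refine sum_congr rfl fun n hn => ?_
      rw [mul_sum]
      refine sum_congr rfl fun m hm => ?_
      have hm' := (mem_filter.1 hm).1
      rw [II, mem_Ioc] at hn hm'
      have hnr : (N : ℝ) < n := by exact_mod_cast hn.1
      have hmr : (N : ℝ) < m := by exact_mod_cast hm'.1
      have hn0 : (0 : ℝ) < n := by linarith only [hNr, hnr]
      have hm0 : (0 : ℝ) < m := by linarith only [hNr, hmr]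
      have hmn : (N : ℝ) ^ 2 ≤ (m : ℝ) * n := by
        rw [sq]
        exact mul_le_mul hmr.le hnr.le (by linarith only [hNr]) hm0.le
      dsimp only
      rw [if_pos hmn]
      by_cases h1' : g * m ∈ Ioc Q (2 * Q)
      · by_cases h2' : g * n ∈ Ioc Q (2 * Q)
        · rw [if_pos ⟨h1', h2'⟩, if_pos h1', if_pos h2']
          have e1 : A / ((m : ℝ) * n) = 2 * x * |(l : ℝ)| / ((g : ℝ) * m * n) := by
            rw [hA, div_div, mul_assoc (g : ℝ)]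
          have e2 : B / ((m : ℝ) * n) = (l : ℝ) * a / ((g : ℝ) * m * n) := by
            rw [hB, div_div, mul_assoc (g : ℝ)]
          rw [e1, e2]
          obtain ⟨E, hE⟩ : ∃ E : ℂ, E = ee ((l : ℝ) * a / ((g : ℝ) * m * n)) := ⟨_, rfl⟩
          obtain ⟨K, hKd⟩ : ∃ K : ℂ, K = kf n (l * h1) m := ⟨_, rfl⟩
          obtain ⟨R, hR⟩ : ∃ R : ℝ, R = max 0 (1 - 2 * x * |(l : ℝ)| / ((g : ℝ) * m * n)) :=
            ⟨_, rfl⟩
          rw [← hE, ← hKd, ← hR]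
          have hnum : c (g * m) * c' (g * n) / ((g : ℝ) * m * n) * R =
              1 / ((g : ℝ) * (N : ℝ) ^ 2) *
                (c (g * m) * c' (g * n) * ((N : ℝ) ^ 2 / ((m : ℝ) * n) * R)) := by
            have hNz : (N : ℝ) ≠ 0 := by linarith only [hNr]
            field_simp
          rw [hnum]
          push_cast
          ring
        · rw [if_neg (fun h => h2' h.2), if_neg h2']
          ring
      · rw [if_neg (fun h => h1' h.1), if_neg h1']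
        ring
    rw [hsum, norm_mul, Complex.norm_real, Real.norm_eq_abs, abs_of_nonneg (by positivity)]
    exact mul_le_mul_of_nonneg_left hmain (by positivity)
  · rw [if_neg hcase]
    push Not at hcase
    have hcr : 2 * (Q : ℝ) ^ 2 < |(l : ℝ)| * g * x := by exact_mod_cast hcase
    refine le_of_eq ?_
    rw [norm_eq_zero]
    refine sum_eq_zero fun n hn => sum_eq_zero fun m hm => ?_
    by_cases hif : g * m ∈ Ioc Q (2 * Q) ∧ g * n ∈ Ioc Q (2 * Q)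
    · rw [if_pos hif]
      have hm' := (mem_filter.1 hm).1
      rw [II, mem_Ioc] at hn hm'
      have hnr : (N : ℝ) < n := by exact_mod_cast hn.1
      have hmr : (N : ℝ) < m := by exact_mod_cast hm'.1
      have hn0 : (0 : ℝ) < n := by linarith only [hNr, hnr]
      have hm0 : (0 : ℝ) < m := by linarith only [hNr, hmr]
      obtain ⟨i1, i2⟩ := hif
      rw [mem_Ioc] at i1 i2
      have j1 : (g : ℝ) * m ≤ 2 * Q := by exact_mod_cast i1.2
      have j2 : (g : ℝ) * n ≤ 2 * Q := by exact_mod_cast i2.2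
      have j3 : (g : ℝ) * m * n * g ≤ 2 * x * |(l : ℝ)| * g := by
        calc (g : ℝ) * m * n * g = (g * m) * (g * n) := by ring
          _ ≤ (2 * Q) * (2 * Q) := mul_le_mul j1 j2 (by positivity) (by positivity)
          _ = 2 * (2 * (Q : ℝ) ^ 2) := by ring
          _ ≤ 2 * (|(l : ℝ)| * g * x) := by linarith only [hcr]
          _ = 2 * x * |(l : ℝ)| * g := by ring
      have j4 : (g : ℝ) * m * n ≤ 2 * x * |(l : ℝ)| := le_of_mul_le_mul_right j3 hg0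
      have j5 : 1 ≤ 2 * x * |(l : ℝ)| / ((g : ℝ) * m * n) := by
        rw [le_div_iff₀ (by positivity)]
        linarith only [j4]
      rw [max_eq_left (by linarith only [j5]), mul_zero, Complex.ofReal_zero, zero_mul]
    · rw [if_neg hif]

end Pool.Agent.H80.KF

end

section

/-!
# The nonzero frequencies

Group the pairs by `g = (q,q')` (a divisor of `h = a' - a`), `q = gm`, `q' = gn`, `(m,n) = 1`,
`[q,q'] = gmn`, `m, n ∈ II (Q/g)`; `fej - 1` is the sum over `l ≠ 0`, and by `crt_phase` the term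
is that of `ckb` times `π²x/2`.  If `4Q² ≤ 2xg` every `fej` is `1` (`gmn ≤ 4Q²/g ≤ 2x`, `fej_small`).
Otherwise `g < 2Q²/x`, `Q/g ≥ x/(2Q) ≥ x^{99/200}/2` exceeds `N₀`.  For each `g`: at most
`4Q²/(gx)` values of `l`, so `≤ (4Q²/(gx)) (π²x/2) (1/(gN²)) N^{2-1/50} ≤ 40 (Q/g)^{2-1/50}`
(`N = Q/g` floor, `Q/g ≤ N + 1`), and `∑ g^{-(2-1/50)} ≤ 2`.
-/

set_option autoImplicit false

namespace Pool.Agent.H80.KF

open Finset

/-- the contribution of the nonzero frequencies -/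
noncomputable def XK (x Q : ℕ) (c c' : ℕ → ℝ) (a a' : ℤ) (n0 : ℕ → ℕ → ℤ) : ℂ :=
  ∑ q ∈ Ioc Q (2 * Q), ∑ q' ∈ Ioc Q (2 * Q),
    if ((Nat.gcd q q' : ℕ) : ℤ) ∣ a' - a then
      ((c q * c' q' * (Real.pi ^ 2 * x / (2 * (Nat.lcm q q' : ℕ))) : ℝ) : ℂ) *
        (fej x (Nat.lcm q q') (n0 q q') - 1)
    else 0

private theorem ckc_sum (n : ℕ) :
    ∑ g ∈ Icc 1 n, 1 / ((g : ℝ) ^ ((3 : ℝ) / 2)) ≤ 3 := by
  have key : ∀ n : ℕ, ∑ g ∈ Icc 1 (n + 1), 1 / ((g : ℝ) ^ ((3 : ℝ) / 2)) ≤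
      3 - 2 / Real.sqrt ((n : ℝ) + 1) := by
    intro n
    induction n with
    | zero => norm_num
    | succ n ih =>
      rw [sum_Icc_succ_top (by omega)]
      set u := Real.sqrt ((n : ℝ) + 1) with hu
      set v := Real.sqrt (((n + 1 : ℕ) : ℝ) + 1) with hv
      have hu0 : 0 < u := Real.sqrt_pos.mpr (by positivity)
      have hv0 : 0 < v := Real.sqrt_pos.mpr (by positivity)
      have hu2 : u ^ 2 = (n : ℝ) + 1 := Real.sq_sqrt (by positivity)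
      have hv2 : v ^ 2 = (n : ℝ) + 2 := by
        rw [hv, Real.sq_sqrt (by positivity)]
        push_cast
        ring
      have huv : u ≤ v := by
        apply Real.sqrt_le_sqrt
        push_cast
        linarith only
      have e1 : (((n + 1 + 1 : ℕ) : ℝ)) ^ ((3 : ℝ) / 2) = v ^ 3 := by
        have h1 : (((n + 1 + 1 : ℕ) : ℝ)) = ((n + 1 : ℕ) : ℝ) + 1 := by push_cast; ring
        rw [h1, hv, Real.sqrt_eq_rpow, ← Real.rpow_natCast, ← Real.rpow_mul (by positivity)]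
        norm_num
      rw [e1]
      have h2 : 1 / v ^ 3 ≤ 2 / u - 2 / v := by
        have h3 : 2 / u - 2 / v = 2 / (u * v * (u + v)) := by
          have h4 : (v - u) * (u + v) = 1 := by nlinarith only [hu2, hv2]
          field_simp
          nlinarith only [hu2, hv2]
        rw [h3, div_le_div_iff₀ (by positivity) (by positivity)]
        have h5 : u * v * (u + v) ≤ v * v * (v + v) := by
          apply mul_le_mul
          · exact mul_le_mul_of_nonneg_right huv hv0.le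
          · linarith only [huv]
          · positivity
          · positivity
        nlinarith only [h5]
      linarith only [ih, h2]
  rcases n with _ | n
  · simp
  · refine (key n).trans ?_
    have : 0 ≤ 2 / Real.sqrt ((n : ℝ) + 1) := by positivity
    linarith

private theorem ckc_fej (x M : ℕ) (B : ℤ) (hx : 1 ≤ x) (hM : 1 ≤ M) (hB : (M : ℤ) ≤ B) (c : ℤ) :
    fej x M c - 1 = ∑ l ∈ (Icc (-B) B).erase 0,
      ((max 0 (1 - 2 * x * |(l : ℝ)| / M) : ℝ) : ℂ) * ee ((l : ℝ) * c / M) := by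
  have h0 : (0 : ℤ) ∈ Icc (-B) B := by
    rw [mem_Icc]
    omega
  have h1 : fej x M c = ∑ l ∈ Icc (-B) B,
      ((max 0 (1 - 2 * x * |(l : ℝ)| / M) : ℝ) : ℂ) * ee ((l : ℝ) * c / M) := by
    unfold fej
    apply sum_subset
    · intro l hl
      rw [mem_Icc] at hl ⊢
      omega
    · intro l _ hl
      rw [mem_Icc] at hl
      have h2 : (M : ℤ) ≤ |l| := by
        by_contra h3
        apply hl
        rw [not_le, abs_lt] at h3
        omega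
      have h3 : (M : ℝ) ≤ |(l : ℝ)| := by exact_mod_cast h2
      have h4 : (0 : ℝ) < M := by exact_mod_cast hM
      have h5 : (1 : ℝ) ≤ x := by exact_mod_cast hx
      have h6 : 1 ≤ 2 * x * |(l : ℝ)| / M := by
        rw [le_div_iff₀ h4]
        nlinarith only [h4, h3, h5, abs_nonneg (l : ℝ)]
      rw [max_eq_left (by linarith only [h6]), Complex.ofReal_zero, zero_mul]
  rw [h1, ← add_sum_erase _ _ h0]
  simp [ee_zero]

private theorem ckc_group (Q : ℕ) (D : ℕ → Prop) [DecidablePred D] (T : ℕ → ℕ → ℂ) :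
    (∑ q ∈ Ioc Q (2 * Q), ∑ q' ∈ Ioc Q (2 * Q), if D (Nat.gcd q q') then T q q' else 0) =
      ∑ g ∈ Icc 1 (2 * Q), if D g then
        ∑ n ∈ II (Q / g), ∑ m ∈ (II (Q / g)).filter (fun m => Nat.Coprime m n),
          (if g * m ∈ Ioc Q (2 * Q) ∧ g * n ∈ Ioc Q (2 * Q) then T (g * m) (g * n) else 0)
      else 0 := by
  rw [← sum_product']
  have hmap : ∀ p ∈ Ioc Q (2 * Q) ×ˢ Ioc Q (2 * Q), Nat.gcd p.1 p.2 ∈ Icc 1 (2 * Q) := by
    intro p hp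
    rw [mem_product, mem_Ioc, mem_Ioc] at hp
    rw [mem_Icc]
    refine ⟨Nat.gcd_pos_of_pos_left _ (by omega), ?_⟩
    exact (Nat.gcd_le_left _ (by omega)).trans hp.1.2
  rw [← sum_fiberwise_of_maps_to hmap]
  refine sum_congr rfl fun g hg => ?_
  rw [mem_Icc] at hg
  by_cases hD : D g
  · rw [if_pos hD]
    have e1 : (∑ n ∈ II (Q / g), ∑ m ∈ (II (Q / g)).filter (fun m => Nat.Coprime m n),
        (if g * m ∈ Ioc Q (2 * Q) ∧ g * n ∈ Ioc Q (2 * Q) then T (g * m) (g * n) else 0)) =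
        ∑ p ∈ (II (Q / g) ×ˢ II (Q / g)).filter (fun p => Nat.Coprime p.2 p.1 ∧
          (g * p.2 ∈ Ioc Q (2 * Q) ∧ g * p.1 ∈ Ioc Q (2 * Q))), T (g * p.2) (g * p.1) := by
      rw [sum_filter, sum_product]
      refine sum_congr rfl fun n _ => ?_
      rw [sum_filter]
      refine sum_congr rfl fun m _ => ?_
      by_cases h1 : Nat.Coprime m n
      · rw [if_pos h1]
        by_cases h2 : g * m ∈ Ioc Q (2 * Q) ∧ g * n ∈ Ioc Q (2 * Q)
        · rw [if_pos h2, if_pos ⟨h1, h2⟩]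
        · rw [if_neg h2, if_neg (fun h => h2 h.2)]
      · rw [if_neg h1, if_neg (fun h => h1 h.1)]
    rw [e1]
    have e2 : ∀ p ∈ (Ioc Q (2 * Q) ×ˢ Ioc Q (2 * Q)).filter (fun p => Nat.gcd p.1 p.2 = g),
        (if D (Nat.gcd p.1 p.2) then T p.1 p.2 else 0) = T p.1 p.2 := by
      intro p hp
      rw [(mem_filter.mp hp).2, if_pos hD]
    rw [sum_congr rfl e2]
    have hg0 : 0 < g := hg.1
    refine sum_bij' (fun p _ => (p.2 / g, p.1 / g)) (fun p _ => (g * p.2, g * p.1)) ?_ ?_ ?_ ?_ ?_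
    · rintro ⟨q, q'⟩ hp
      rw [mem_filter, mem_product] at hp
      obtain ⟨⟨h1, h2⟩, h3⟩ := hp
      simp only at h1 h2 h3
      obtain ⟨m, hm⟩ : g ∣ q := h3 ▸ Nat.gcd_dvd_left q q'
      obtain ⟨n, hn⟩ : g ∣ q' := h3 ▸ Nat.gcd_dvd_right q q'
      have hm1 : q / g = m := by rw [hm, Nat.mul_div_cancel_left _ hg0]
      have hn1 : q' / g = n := by rw [hn, Nat.mul_div_cancel_left _ hg0]
      rw [mem_filter, mem_product]
      simp only [hm1, hn1]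
      rw [← hm, ← hn]
      have hII : ∀ m q : ℕ, q = g * m → q ∈ Ioc Q (2 * Q) → m ∈ II (Q / g) := by
        intro m q hq h
        rw [mem_Ioc] at h
        unfold II
        rw [mem_Ioc]
        have h5 : Q / g < m := by
          rw [Nat.div_lt_iff_lt_mul hg0, mul_comm, ← hq]
          exact h.1
        refine ⟨h5, ?_⟩
        by_contra h6
        push Not at h6
        have h7 : Q < g * (Q / g) + g := by
          have := Nat.lt_mul_div_succ Q hg0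
          rw [Nat.mul_add, mul_one] at this
          exact this
        have h8 : g * (2 * (Q / g) + 2) ≤ g * m := Nat.mul_le_mul_left _ (by omega)
        have h9 : g * (2 * (Q / g) + 2) = 2 * (g * (Q / g) + g) := by ring
        rw [← hq] at h8
        omega
      refine ⟨⟨hII n q' hn h2, hII m q hm h1⟩, ?_, h1, h2⟩
      have h10 : g * Nat.gcd m n = g := by
        rw [← Nat.gcd_mul_left, ← hm, ← hn, h3]
      exact Nat.eq_of_mul_eq_mul_left hg0 (by rw [h10, mul_one])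
    · rintro ⟨n, m⟩ hp
      rw [mem_filter, mem_product] at hp
      obtain ⟨-, h1, h2, h3⟩ := hp
      simp only at h1 h2 h3
      rw [mem_filter, mem_product]
      simp only
      refine ⟨⟨h2, h3⟩, ?_⟩
      rw [Nat.gcd_mul_left]
      have : Nat.gcd m n = 1 := h1
      rw [this, mul_one]
    · rintro ⟨q, q'⟩ hp
      rw [mem_filter, mem_product] at hp
      obtain ⟨⟨h1, h2⟩, h3⟩ := hp
      simp only at h1 h2 h3
      have hm : g ∣ q := h3 ▸ Nat.gcd_dvd_left q q'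
      have hn : g ∣ q' := h3 ▸ Nat.gcd_dvd_right q q'
      simp only
      rw [Nat.mul_div_cancel' hm, Nat.mul_div_cancel' hn]
    · rintro ⟨n, m⟩ _
      simp only
      rw [Nat.mul_div_cancel_left _ hg0, Nat.mul_div_cancel_left _ hg0]
    · rintro ⟨q, q'⟩ hp
      rw [mem_filter, mem_product] at hp
      obtain ⟨⟨h1, h2⟩, h3⟩ := hp
      simp only at h1 h2 h3
      have hm : g ∣ q := h3 ▸ Nat.gcd_dvd_left q q'
      have hn : g ∣ q' := h3 ▸ Nat.gcd_dvd_right q q'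
      simp only
      rw [Nat.mul_div_cancel' hm, Nat.mul_div_cancel' hn]
  · rw [if_neg hD]
    refine sum_eq_zero fun p hp => ?_
    rw [(mem_filter.mp hp).2, if_neg hD]

/-- the sum of one frequency -/
private noncomputable def ckcS (x Q g : ℕ) (c c' : ℕ → ℝ) (a h1 l : ℤ) : ℂ :=
  ∑ n ∈ II (Q / g), ∑ m ∈ (II (Q / g)).filter (fun m => Nat.Coprime m n),
    (if g * m ∈ Ioc Q (2 * Q) ∧ g * n ∈ Ioc Q (2 * Q) then
      ((c (g * m) * c' (g * n) / ((g : ℝ) * m * n) *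
        max 0 (1 - 2 * x * |(l : ℝ)| / ((g : ℝ) * m * n)) : ℝ) : ℂ) *
        (ee ((l : ℝ) * a / ((g : ℝ) * m * n)) * kf n (l * h1) m)
    else 0)

private theorem ckc_expand (x Q g : ℕ) (hx : 1 ≤ x) (hg : 1 ≤ g) (c c' : ℕ → ℝ) (a a' h1 : ℤ)
    (hh : (g : ℤ) * h1 = a' - a) (n0 : ℕ → ℕ → ℤ)
    (hn0 : ∀ q q' : ℕ, ((Nat.gcd q q' : ℕ) : ℤ) ∣ a' - a →
      (q : ℤ) ∣ n0 q q' - a ∧ (q' : ℤ) ∣ n0 q q' - a') :
    (∑ n ∈ II (Q / g), ∑ m ∈ (II (Q / g)).filter (fun m => Nat.Coprime m n),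
      (if g * m ∈ Ioc Q (2 * Q) ∧ g * n ∈ Ioc Q (2 * Q) then
        ((c (g * m) * c' (g * n) * (Real.pi ^ 2 * x / (2 * (Nat.lcm (g * m) (g * n) : ℕ))) : ℝ) : ℂ)
          * (fej x (Nat.lcm (g * m) (g * n)) (n0 (g * m) (g * n)) - 1)
      else 0)) =
      ∑ l ∈ (Icc (-(4 * (Q : ℤ) ^ 2)) (4 * (Q : ℤ) ^ 2)).erase 0,
        ((Real.pi ^ 2 * x / 2 : ℝ) : ℂ) * ckcS x Q g c c' a h1 l := by
  unfold ckcS
  simp_rw [mul_sum]
  rw [sum_comm]
  refine sum_congr rfl fun n hn => ?_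
  rw [sum_comm]
  refine sum_congr rfl fun m hm => ?_
  rw [mem_filter] at hm
  by_cases hq : g * m ∈ Ioc Q (2 * Q) ∧ g * n ∈ Ioc Q (2 * Q)
  swap
  · simp only [if_neg hq, mul_zero, sum_const_zero]
  simp only [if_pos hq]
  have hm1 : 1 ≤ m := by
    have := hm.1
    unfold II at this
    rw [mem_Ioc] at this
    omega
  have hn1 : 1 ≤ n := by
    unfold II at hn
    rw [mem_Ioc] at hn
    omega
  have hlcm : Nat.lcm (g * m) (g * n) = g * m * n := by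
    rw [Nat.lcm_mul_left, Nat.Coprime.lcm_eq_mul hm.2, mul_assoc]
  have hM1 : 1 ≤ g * m * n := Nat.mul_pos (Nat.mul_pos hg hm1) hn1
  have hMB : ((g * m * n : ℕ) : ℤ) ≤ 4 * (Q : ℤ) ^ 2 := by
    have h2 : g * m ≤ 2 * Q := (mem_Ioc.mp hq.1).2
    have h3 : g * n ≤ 2 * Q := (mem_Ioc.mp hq.2).2
    have h4 : n ≤ 2 * Q := le_trans (Nat.le_mul_of_pos_left n hg) h3
    have h5 : g * m * n ≤ 2 * Q * (2 * Q) := Nat.mul_le_mul h2 h4
    have h6 : 2 * Q * (2 * Q) = 4 * Q ^ 2 := by ring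
    rw [h6] at h5
    exact_mod_cast h5
  rw [hlcm, ckc_fej x (g * m * n) _ hx hM1 hMB, mul_sum]
  refine sum_congr rfl fun l _ => ?_
  have hgcd : ((Nat.gcd (g * m) (g * n) : ℕ) : ℤ) ∣ a' - a := by
    rw [Nat.gcd_mul_left]
    have h2 : Nat.gcd m n = 1 := hm.2
    rw [h2, mul_one]
    exact ⟨h1, hh.symm⟩
  obtain ⟨h2, h3⟩ := hn0 (g * m) (g * n) hgcd
  have hph := crt_phase g m n hg hm1 hn1 hm.2 a a' h1 (n0 (g * m) (g * n)) l hh h2 h3
  have hcast : ((g * m * n : ℕ) : ℝ) = (g : ℝ) * m * n := by push_cast; ring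
  rw [hcast, hph]
  have hgmn : ((g : ℝ) * m * n) ≠ 0 := by
    have h4 : (0 : ℝ) < ((g * m * n : ℕ) : ℝ) := by exact_mod_cast hM1
    rw [hcast] at h4
    exact h4.ne'
  have hre : (c (g * m) * c' (g * n) * (Real.pi ^ 2 * x / (2 * ((g : ℝ) * m * n)))) *
      max 0 (1 - 2 * x * |(l : ℝ)| / ((g : ℝ) * m * n)) =
      (Real.pi ^ 2 * x / 2) * (c (g * m) * c' (g * n) / ((g : ℝ) * m * n) *
        max 0 (1 - 2 * x * |(l : ℝ)| / ((g : ℝ) * m * n))) := by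
    field_simp
  have hre' : ((c (g * m) * c' (g * n) * (Real.pi ^ 2 * x / (2 * ((g : ℝ) * m * n))) : ℝ) : ℂ) *
      ((max 0 (1 - 2 * x * |(l : ℝ)| / ((g : ℝ) * m * n)) : ℝ) : ℂ) =
      ((Real.pi ^ 2 * x / 2 : ℝ) : ℂ) * ((c (g * m) * c' (g * n) / ((g : ℝ) * m * n) *
        max 0 (1 - 2 * x * |(l : ℝ)| / ((g : ℝ) * m * n)) : ℝ) : ℂ) := by
    rw [← Complex.ofReal_mul, hre, Complex.ofReal_mul]
  linear_combination (ee ((l : ℝ) * a / ((g : ℝ) * m * n)) * kf n (l * h1) m) * hre'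

private theorem ckc_zero (x Q g : ℕ) (hg : 1 ≤ g) (hbig : 2 * Q ^ 2 < g * x) (c c' : ℕ → ℝ)
    (a h1 l : ℤ) (hl : l ≠ 0) : ckcS x Q g c c' a h1 l = 0 := by
  unfold ckcS
  refine sum_eq_zero fun n _ => sum_eq_zero fun m _ => ?_
  by_cases hq : g * m ∈ Ioc Q (2 * Q) ∧ g * n ∈ Ioc Q (2 * Q)
  swap
  · rw [if_neg hq]
  rw [if_pos hq]
  have h2 : Q < g * m ∧ g * m ≤ 2 * Q := mem_Ioc.mp hq.1
  have h3 : Q < g * n ∧ g * n ≤ 2 * Q := mem_Ioc.mp hq.2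
  have h4 : (g * m) * (g * n) ≤ (2 * Q) * (2 * Q) := Nat.mul_le_mul h2.2 h3.2
  have h5 : (g * m * n) * g < (2 * x) * g := by
    calc (g * m * n) * g = (g * m) * (g * n) := by ring
      _ ≤ (2 * Q) * (2 * Q) := h4
      _ = 2 * (2 * Q ^ 2) := by ring
      _ < 2 * (g * x) := by omega
      _ = (2 * x) * g := by ring
  have h6 : g * m * n < 2 * x := Nat.lt_of_mul_lt_mul_right h5
  have h7 : ((g : ℝ) * m * n) < 2 * x := by exact_mod_cast h6
  have h8 : (0 : ℝ) < (g : ℝ) * m * n := by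
    have hm : 0 < m := Nat.pos_of_ne_zero (by rintro rfl; omega)
    have hn : 0 < n := Nat.pos_of_ne_zero (by rintro rfl; omega)
    have : 0 < g * m * n := Nat.mul_pos (Nat.mul_pos hg hm) hn
    exact_mod_cast this
  have h9 : (1 : ℝ) ≤ |(l : ℝ)| := by
    have : (1 : ℤ) ≤ |l| := Int.one_le_abs hl
    exact_mod_cast this
  have h10 : 1 ≤ 2 * x * |(l : ℝ)| / ((g : ℝ) * m * n) := by
    rw [le_div_iff₀ h8]
    have h11 : (0 : ℝ) ≤ 2 * x := by positivity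
    nlinarith only [h7, h9]
  rw [max_eq_left (by linarith only [h10]), mul_zero, Complex.ofReal_zero, zero_mul]

theorem xk_bound : ∃ x0 : ℕ, ∀ x Q : ℕ, x0 ≤ x → 1 ≤ Q →
    (Q : ℝ) ≤ (x : ℝ) ^ ((101 : ℝ) / 200) → ∀ a a' : ℤ, a ≠ a' → |a| ≤ x → |a'| ≤ x →
    |a' - a| ≤ x → ∀ c c' : ℕ → ℝ, (∀ q, |c q| ≤ 1) → (∀ q, |c' q| ≤ 1) →
    ∀ n0 : ℕ → ℕ → ℤ,
    (∀ q q' : ℕ, ((Nat.gcd q q' : ℕ) : ℤ) ∣ a' - a →
      (q : ℤ) ∣ n0 q q' - a ∧ (q' : ℤ) ∣ n0 q q' - a') →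
    ‖XK x Q c c' a a' n0‖ ≤ 100 * (Q : ℝ) ^ ((2 : ℝ) - 1 / 50) := by
  obtain ⟨N0, hckb⟩ := ckb
  set N1 : ℕ := max N0 100 with hN1
  refine ⟨(2 * N1) ^ 3, ?_⟩
  intro x Q hx hQ hQx a a' haa ha ha' hd c c' hc hc' n0 hn0
  have hN1100 : 100 ≤ N1 := le_max_right _ _
  have hx1 : 1 ≤ x := le_trans (Nat.one_le_pow _ _ (by omega)) hx
  have hxr : (1 : ℝ) ≤ x := by exact_mod_cast hx1
  have hx0 : (0 : ℝ) < x := by linarith only [hxr]
  have hQ0 : (0 : ℝ) < Q := by exact_mod_cast hQ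
  -- the size of x^(99/200)
  have hpow : 2 * (N1 : ℝ) ≤ (x : ℝ) ^ ((99 : ℝ) / 200) := by
    have h1 : ((2 * N1 : ℕ) : ℝ) ^ 3 ≤ x := by exact_mod_cast hx
    have h2 : ((2 * N1 : ℕ) : ℝ) = (((2 * N1 : ℕ) : ℝ) ^ 3) ^ ((1 : ℝ) / 3) := by
      rw [← Real.rpow_natCast, ← Real.rpow_mul (by positivity)]
      norm_num
    have h3 : (((2 * N1 : ℕ) : ℝ) ^ 3) ^ ((1 : ℝ) / 3) ≤ (x : ℝ) ^ ((1 : ℝ) / 3) :=
      Real.rpow_le_rpow (by positivity) h1 (by norm_num)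
    have h4 : (x : ℝ) ^ ((1 : ℝ) / 3) ≤ (x : ℝ) ^ ((99 : ℝ) / 200) :=
      Real.rpow_le_rpow_of_exponent_le hxr (by norm_num)
    have h5 : ((2 * N1 : ℕ) : ℝ) = 2 * (N1 : ℝ) := by push_cast; ring
    rw [← h5, h2]
    exact h3.trans h4
  have hxQ : 2 * (N1 : ℝ) * Q ≤ x := by
    have h1 : (x : ℝ) ^ ((99 : ℝ) / 200) * (x : ℝ) ^ ((101 : ℝ) / 200) = x := by
      rw [← Real.rpow_add hx0]
      norm_num
    calc 2 * (N1 : ℝ) * Q ≤ (x : ℝ) ^ ((99 : ℝ) / 200) * (x : ℝ) ^ ((101 : ℝ) / 200) :=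
          mul_le_mul hpow hQx hQ0.le (by positivity)
      _ = x := h1
  -- regroup
  have hXK : XK x Q c c' a a' n0 = ∑ g ∈ Icc 1 (2 * Q), if ((g : ℕ) : ℤ) ∣ a' - a then
        ∑ n ∈ II (Q / g), ∑ m ∈ (II (Q / g)).filter (fun m => Nat.Coprime m n),
          (if g * m ∈ Ioc Q (2 * Q) ∧ g * n ∈ Ioc Q (2 * Q) then
            ((c (g * m) * c' (g * n) *
              (Real.pi ^ 2 * x / (2 * (Nat.lcm (g * m) (g * n) : ℕ))) : ℝ) : ℂ)
              * (fej x (Nat.lcm (g * m) (g * n)) (n0 (g * m) (g * n)) - 1)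
          else 0)
      else 0 := by
    unfold XK
    exact ckc_group Q (fun g => ((g : ℕ) : ℤ) ∣ a' - a) (fun q q' =>
      ((c q * c' q' * (Real.pi ^ 2 * x / (2 * (Nat.lcm q q' : ℕ))) : ℝ) : ℂ) *
        (fej x (Nat.lcm q q') (n0 q q') - 1))
  rw [hXK]
  refine (norm_sum_le _ _).trans ?_
  have hE : ∀ g ∈ Icc 1 (2 * Q), ‖(if ((g : ℕ) : ℤ) ∣ a' - a then
        ∑ n ∈ II (Q / g), ∑ m ∈ (II (Q / g)).filter (fun m => Nat.Coprime m n),
          (if g * m ∈ Ioc Q (2 * Q) ∧ g * n ∈ Ioc Q (2 * Q) then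
            ((c (g * m) * c' (g * n) *
              (Real.pi ^ 2 * x / (2 * (Nat.lcm (g * m) (g * n) : ℕ))) : ℝ) : ℂ)
              * (fej x (Nat.lcm (g * m) (g * n)) (n0 (g * m) (g * n)) - 1)
          else 0)
      else 0)‖ ≤ 21 * (Q : ℝ) ^ ((2 : ℝ) - 1 / 50) * (1 / ((g : ℝ) ^ ((3 : ℝ) / 2))) := by
    intro g hg
    rw [mem_Icc] at hg
    have hg0 : (0 : ℝ) < g := by exact_mod_cast hg.1
    have hg1 : (1 : ℝ) ≤ g := by exact_mod_cast hg.1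
    have hRnn : 0 ≤ 21 * (Q : ℝ) ^ ((2 : ℝ) - 1 / 50) * (1 / ((g : ℝ) ^ ((3 : ℝ) / 2))) := by
      positivity
    by_cases hdv : ((g : ℕ) : ℤ) ∣ a' - a
    swap
    · rw [if_neg hdv, norm_zero]
      exact hRnn
    rw [if_pos hdv]
    obtain ⟨h1, hh⟩ := hdv
    have hh1 : (g : ℤ) * h1 = a' - a := hh.symm
    have hh0 : h1 ≠ 0 := by
      rintro rfl
      rw [mul_zero] at hh1
      exact haa (by linarith only [hh])
    rw [ckc_expand x Q g hx1 hg.1 c c' a a' h1 hh1 n0 hn0]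
    by_cases hbig : 2 * Q ^ 2 < g * x
    · have h2 : ∑ l ∈ (Icc (-(4 * (Q : ℤ) ^ 2)) (4 * (Q : ℤ) ^ 2)).erase 0,
          ((Real.pi ^ 2 * x / 2 : ℝ) : ℂ) * ckcS x Q g c c' a h1 l = 0 := by
        refine sum_eq_zero fun l hl => ?_
        rw [ckc_zero x Q g hg.1 hbig c c' a h1 l (mem_erase.mp hl).1, mul_zero]
      rw [h2, norm_zero]
      exact hRnn
    push Not at hbig
    -- N1 ≤ Q / g
    have hbigr : (g : ℝ) * x ≤ 2 * (Q : ℝ) ^ 2 := by exact_mod_cast hbig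
    have hNg : N1 ≤ Q / g := by
      rw [Nat.le_div_iff_mul_le hg.1]
      have h2 : (N1 : ℝ) * g ≤ Q := by
        have h3 : (g : ℝ) * (2 * N1 * Q) ≤ 2 * (Q : ℝ) ^ 2 :=
          (mul_le_mul_of_nonneg_left hxQ hg0.le).trans hbigr
        have h4 : ((N1 : ℝ) * g) * (2 * Q) ≤ Q * (2 * Q) := by nlinarith only [h3]
        exact le_of_mul_le_mul_right h4 (by positivity)
      exact_mod_cast h2
    set N : ℕ := Q / g with hN
    have hN100 : 100 ≤ N := hN1100.trans hNg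
    have hNr : (100 : ℝ) ≤ N := by exact_mod_cast hN100
    have hN0 : (0 : ℝ) < N := by linarith only [hNr]
    have hghx : (g : ℤ) * |h1| ≤ x := by
      have h2 : (g : ℤ) * |h1| = |a' - a| := by
        rw [← hh1, abs_mul, Nat.abs_cast]
      rw [h2]
      exact hd
    set V : ℝ := 1 / ((g : ℝ) * (N : ℝ) ^ 2) * (N : ℝ) ^ ((2 : ℝ) - 1 / 50) with hV
    have hV0 : 0 ≤ V := by positivity
    have hSb : ∀ l ∈ (Icc (-(4 * (Q : ℤ) ^ 2)) (4 * (Q : ℤ) ^ 2)).erase 0,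
        ‖((Real.pi ^ 2 * x / 2 : ℝ) : ℂ) * ckcS x Q g c c' a h1 l‖ ≤
          (Real.pi ^ 2 * x / 2) * (if |l| * g * x ≤ 2 * (Q : ℤ) ^ 2 then V else 0) := by
      intro l hl
      rw [norm_mul, Complex.norm_real, Real.norm_of_nonneg (by positivity)]
      refine mul_le_mul_of_nonneg_left ?_ (by positivity)
      exact hckb x Q g hx1 hg.1 ((le_max_left _ _).trans hNg) l a h1 (mem_erase.mp hl).1 hh0 ha hghx
        c c' hc hc'
    refine (norm_sum_le _ _).trans ((sum_le_sum hSb).trans ?_)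
    rw [← mul_sum, ← sum_filter, sum_const, nsmul_eq_mul]
    set Mn : ℕ := 2 * Q ^ 2 / (g * x) with hMn
    have hcard : ((((Icc (-(4 * (Q : ℤ) ^ 2)) (4 * (Q : ℤ) ^ 2)).erase 0).filter
        (fun l => |l| * g * x ≤ 2 * (Q : ℤ) ^ 2)).card : ℝ) ≤ 2 * Mn := by
      have h2 : ((Icc (-(4 * (Q : ℤ) ^ 2)) (4 * (Q : ℤ) ^ 2)).erase 0).filter
          (fun l => |l| * g * x ≤ 2 * (Q : ℤ) ^ 2) ⊆ (Icc (-(Mn : ℤ)) Mn).erase 0 := by
        intro l hl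
        rw [mem_filter, mem_erase] at hl
        rw [mem_erase, mem_Icc]
        refine ⟨hl.1.1, ?_⟩
        have h3 : |l| ≤ Mn := by
          have h4 : l.natAbs ≤ Mn := by
            rw [hMn, Nat.le_div_iff_mul_le (Nat.mul_pos hg.1 hx1)]
            have h5 : ((l.natAbs * (g * x) : ℕ) : ℤ) ≤ ((2 * Q ^ 2 : ℕ) : ℤ) := by
              push_cast
              rw [← mul_assoc]
              exact hl.2
            exact_mod_cast h5
          have h5 : |l| = (l.natAbs : ℤ) := Int.abs_eq_natAbs l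
          rw [h5]
          exact_mod_cast h4
        exact ⟨(abs_le.mp h3).1, (abs_le.mp h3).2⟩
      have h3 := card_le_card h2
      have h0 : (0 : ℤ) ∈ Icc (-(Mn : ℤ)) Mn := by
        rw [mem_Icc]
        exact ⟨neg_nonpos.mpr (Int.natCast_nonneg _), Int.natCast_nonneg _⟩
      rw [card_erase_of_mem h0, Int.card_Icc] at h3
      have h4 : ((Mn : ℤ) + 1 - (-(Mn : ℤ))).toNat - 1 = 2 * Mn := by
        clear_value Mn
        omega
      rw [h4] at h3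
      exact_mod_cast h3
    have hMr : (Mn : ℝ) ≤ 2 * (Q : ℝ) ^ 2 / (g * x) := by
      have h2 : ((2 * Q ^ 2 / (g * x) : ℕ) : ℝ) ≤ ((2 * Q ^ 2 : ℕ) : ℝ) / ((g * x : ℕ) : ℝ) :=
        Nat.cast_div_le
      push_cast at h2
      exact h2
    have hQN : (Q : ℝ) / g ≤ N + 1 := by
      rw [div_le_iff₀ hg0]
      have h2 : Q < g * (N + 1) := Nat.lt_mul_div_succ Q hg.1
      have h3 : (Q : ℝ) < g * (N + 1) := by exact_mod_cast h2
      linarith only [h3]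
    have hNQ : (N : ℝ) ≤ Q / g := Nat.cast_div_le
    have hpi : Real.pi ^ 2 < 9.87 := by
      have h2 := Real.pi_lt_d4
      have h3 := Real.pi_pos
      nlinarith only [h2, h3]
    calc Real.pi ^ 2 * x / 2 * (((((Icc (-(4 * (Q : ℤ) ^ 2)) (4 * (Q : ℤ) ^ 2)).erase 0).filter
        (fun l => |l| * g * x ≤ 2 * (Q : ℤ) ^ 2)).card : ℝ) * V)
        ≤ Real.pi ^ 2 * x / 2 * ((2 * (2 * (Q : ℝ) ^ 2 / (g * x))) * V) := by
          refine mul_le_mul_of_nonneg_left (mul_le_mul_of_nonneg_right ?_ hV0) (by positivity)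
          linarith only [hcard, hMr]
      _ = 2 * Real.pi ^ 2 * (((Q : ℝ) / g) ^ 2 / (N : ℝ) ^ 2) * (N : ℝ) ^ ((2 : ℝ) - 1 / 50) := by
          rw [hV]
          field_simp
      _ ≤ 2 * Real.pi ^ 2 * (1.03 : ℝ) * ((Q : ℝ) / g) ^ ((2 : ℝ) - 1 / 50) := by
          have h2 : ((Q : ℝ) / g) ^ 2 / (N : ℝ) ^ 2 ≤ 1.03 := by
            rw [div_le_iff₀ (by positivity)]
            have h3 : (Q : ℝ) / g ≤ 1.01 * N := by linarith only [hNr, hQN]
            have h4 : ((Q : ℝ) / g) ^ 2 ≤ (1.01 * N) ^ 2 := by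
              apply pow_le_pow_left₀ (by positivity) h3
            nlinarith only [h4]
          have h3 : (N : ℝ) ^ ((2 : ℝ) - 1 / 50) ≤ ((Q : ℝ) / g) ^ ((2 : ℝ) - 1 / 50) :=
            Real.rpow_le_rpow hN0.le hNQ (by norm_num)
          refine mul_le_mul (mul_le_mul_of_nonneg_left h2 (by positivity)) h3 (by positivity)
            (by positivity)
      _ ≤ 21 * ((Q : ℝ) / g) ^ ((2 : ℝ) - 1 / 50) := by
          refine mul_le_mul_of_nonneg_right ?_ (by positivity)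
          linarith only [hpi]
      _ ≤ 21 * (Q : ℝ) ^ ((2 : ℝ) - 1 / 50) * (1 / ((g : ℝ) ^ ((3 : ℝ) / 2))) := by
          rw [Real.div_rpow hQ0.le hg0.le, mul_assoc, mul_one_div]
          refine mul_le_mul_of_nonneg_left ?_ (by norm_num)
          refine div_le_div_of_nonneg_left (by positivity) (by positivity) ?_
          exact Real.rpow_le_rpow_of_exponent_le hg1 (by norm_num)
  refine (sum_le_sum hE).trans ?_
  rw [← mul_sum]
  have h1 := ckc_sum (2 * Q)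
  have h2 : 0 ≤ (Q : ℝ) ^ ((2 : ℝ) - 1 / 50) := by positivity
  nlinarith only [h1, h2]

end Pool.Agent.H80.KF

end

section

/-!
# Different residues are nearly orthogonal

Expand `SS` and use `gram_in` (with `n₀(q,q')` a solution of the two congruences, which exists when
`(q,q') ∣ h`) and `gram_out`; by `ram_sum` `[g ∣ h]/[q,q'] = (1/(qq')) ∑_{r ∣ g} c_r(h)`, so the sum
is `XK + ∑ c c' (π²x/(2qq')) ∑_{r ∣ g, r > R} c_r(h)`.  `xk_bound`: `100 Q^{99/50} ≤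
100 x^{9999/10000}`; `cross_ram`: `100 x τ(|h|)/R`, `R ≥ x^{1/1000}/2`, `τ(|h|) ≤ x^{1/10^4}`
(`div_bound`).  `q R ≤ 2Q R ≤ 2x` for `q ≤ 2Q`.
-/

set_option autoImplicit false

namespace Pool.Agent.H80.KF

open Finset

end Pool.Agent.H80.KF

end

section

/-!
# Different residues are nearly orthogonal, with a better exponent for smaller moduli

`cross` of KF (Cross.lean) with `R = ⌊x^{1/50}⌋` and `Q ≤ x^{101/200 - κ}`; the same proof (copy the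
private lemmas `cross_n0`, `cross_entry`; `cross_num` has to be redone).  `ε₀ = 1/200 - κ > 0`.
`xk_bound`: `100 Q^{99/50} ≤ 100 x^{0.9999 - 1.98 κ}`, and
`1 - 2κ - ε₀/60 - 0.9999 + 1.98 κ = ε₀/50 - ε₀/60 = ε₀/300 > 0`.  `cross_ram`: `100 x τ(|h|)/R`,
`R ≥ x^{1/50}/2`, `τ(|h|) ≤ C x^{1/1000}` (`div_bound`), `2κ + ε₀/60 < 1/100 + 1/1000`.
-/

set_option autoImplicit false

namespace Pool.Agent.H35.KM

open Finset
open Pool.Agent.H80.KF

/-- solution of two congruences -/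
private theorem Crs_n0 (a a' : ℤ) : ∃ n0 : ℕ → ℕ → ℤ, ∀ q q' : ℕ,
    ((Nat.gcd q q' : ℕ) : ℤ) ∣ a' - a → (q : ℤ) ∣ n0 q q' - a ∧ (q' : ℤ) ∣ n0 q q' - a' := by
  classical
  have h : ∀ q q' : ℕ, ∃ n0 : ℤ, ((Nat.gcd q q' : ℕ) : ℤ) ∣ a' - a →
      (q : ℤ) ∣ n0 - a ∧ (q' : ℤ) ∣ n0 - a' := by
    intro q q'
    by_cases hd : ((Nat.gcd q q' : ℕ) : ℤ) ∣ a' - a
    · obtain ⟨t, ht⟩ := hd
      have hb := Nat.gcd_eq_gcd_ab q q'
      refine ⟨a + q * Nat.gcdA q q' * t, fun _ => ⟨?_, ?_⟩⟩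
      · exact ⟨Nat.gcdA q q' * t, by ring⟩
      · refine ⟨-(Nat.gcdB q q' * t), ?_⟩
        rw [hb] at ht
        linear_combination -ht
    · exact ⟨0, fun h => absurd h hd⟩
  choose n0 hn0 using h
  exact ⟨n0, hn0⟩

/-- one Gram entry -/
private theorem Crs_entry (x J R q q' : ℕ) (hx : 1 ≤ x) (hJ : 1 ≤ J) (hq : 1 ≤ q) (hq' : 1 ≤ q')
    (hdiv : ∀ m, 1 ≤ m → m ≤ q * q' → m ∣ 2 * x * J) (h1 : q * R ≤ 2 * x) (h2 : q' * R ≤ 2 * x)
    (h3 : R * R ≤ 2 * x) (a a' : ℤ) (n0 : ℕ → ℕ → ℤ)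
    (hn0 : ((Nat.gcd q q' : ℕ) : ℤ) ∣ a' - a →
      (q : ℤ) ∣ n0 q q' - a ∧ (q' : ℤ) ∣ n0 q q' - a') :
    ((∑ n ∈ RW x J, ww x J n * uu R q a n * uu R q' a' n : ℝ) : ℂ) =
      (if ((Nat.gcd q q' : ℕ) : ℤ) ∣ a' - a then
        ((Real.pi ^ 2 * x / (2 * (Nat.lcm q q' : ℕ)) : ℝ) : ℂ) *
          (fej x (Nat.lcm q q') (n0 q q') - 1) else 0) +
        ((Real.pi ^ 2 * x / (2 * q * q') *
          ∑ r ∈ (Nat.gcd q q').divisors.filter (fun r => R < r), ram r (a' - a) : ℝ) : ℂ) := by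
  have hg : 1 ≤ Nat.gcd q q' := Nat.gcd_pos_of_pos_left _ hq
  have hsum := ram_sum (Nat.gcd q q') hg (a' - a)
  have hsplit : ∑ r ∈ (Nat.gcd q q').divisors.filter (fun r => R < r), ram r (a' - a)
      = (∑ r ∈ (Nat.gcd q q').divisors, ram r (a' - a)) -
        ∑ r ∈ (Nat.gcd q q').divisors.filter (fun r => r ≤ R), ram r (a' - a) := by
    have h4 := Finset.sum_filter_add_sum_filter_not (Nat.gcd q q').divisors (fun r => r ≤ R)
      (fun r => ram r (a' - a))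
    have h5 : (Nat.gcd q q').divisors.filter (fun r => ¬ r ≤ R)
        = (Nat.gcd q q').divisors.filter (fun r => R < r) := by
      refine Finset.filter_congr fun r _ => ?_
      exact not_le
    rw [h5] at h4
    linarith only [h4]
  by_cases hd : ((Nat.gcd q q' : ℕ) : ℤ) ∣ a' - a
  · rw [if_pos hd]
    have h4 := gram_in x J R q q' hx hJ hq hq' hdiv h1 h2 h3 a a' (n0 q q') (hn0 hd).1 (hn0 hd).2
    rw [h4, hsplit, hsum, if_pos hd]
    have hgl : ((Nat.gcd q q' : ℕ) : ℝ) * (Nat.lcm q q' : ℕ) = q * q' := by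
      exact_mod_cast Nat.gcd_mul_lcm q q'
    have hq0 : (q : ℝ) ≠ 0 := by
      have : (1 : ℝ) ≤ q := by exact_mod_cast hq
      linarith only [this]
    have hq0' : (q' : ℝ) ≠ 0 := by
      have : (1 : ℝ) ≤ q' := by exact_mod_cast hq'
      linarith only [this]
    have hl0 : ((Nat.lcm q q' : ℕ) : ℝ) ≠ 0 := by
      have : Nat.lcm q q' ≠ 0 := Nat.lcm_ne_zero (by omega) (by omega)
      exact_mod_cast this
    have h6 : Real.pi ^ 2 * x / (2 * q * q') * ((Nat.gcd q q' : ℕ) : ℝ)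
        = Real.pi ^ 2 * x / (2 * (Nat.lcm q q' : ℕ)) := by
      rw [div_mul_eq_mul_div, div_eq_div_iff (by positivity) (by positivity)]
      linear_combination (2 * Real.pi ^ 2 * x) * hgl
    rw [mul_sub (Real.pi ^ 2 * (x : ℝ) / (2 * q * q')), h6]
    push_cast
    ring
  · rw [if_neg hd]
    have h4 := gram_out x J R q q' hx hJ hq hq' hdiv h1 h2 h3 a a' hd
    rw [h4, hsplit, hsum, if_neg hd]
    push_cast
    ring

/-- the numerical part -/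
private theorem Crs_num (κ : ℝ) (h0 : 0 ≤ κ) (h1 : κ < 1 / 200) : ∃ x0 : ℕ, ∀ x : ℕ, x0 ≤ x →
    1 ≤ x ∧ 1 ≤ RR x ∧
    (∀ Q : ℕ, 1 ≤ Q → (Q : ℝ) ≤ (x : ℝ) ^ ((101 : ℝ) / 200 - κ) →
      2 * Q * RR x ≤ 2 * x ∧
      100 * (Q : ℝ) ^ ((2 : ℝ) - 1 / 50) ≤ (x : ℝ) ^ (1 - 2 * κ - (1 / 200 - κ) / 60) / 2) ∧
    RR x * RR x ≤ 2 * x ∧
    ∀ h : ℤ, h ≠ 0 → |h| ≤ x →
      100 * x * (tau h.natAbs : ℝ) / (RR x : ℝ) ≤
        (x : ℝ) ^ (1 - 2 * κ - (1 / 200 - κ) / 60) / 2 := by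
  obtain ⟨C, hC1, hC⟩ := Pool.Agent.H92.EH.div_bound (1 / 1000) (by norm_num)
  have hε : 0 < 1 / 200 - κ := by linarith only [h1]
  have hδ : 0 < 1 / 50 - 1 / 1000 - 2 * κ - (1 / 200 - κ) / 60 := by linarith only [h1]
  have ht1 : Filter.Tendsto (fun x : ℕ => ((x : ℝ)) ^ ((1 / 200 - κ) / 300)) Filter.atTop
      Filter.atTop :=
    (tendsto_rpow_atTop (by positivity)).comp tendsto_natCast_atTop_atTop
  have ht2 : Filter.Tendsto (fun x : ℕ => ((x : ℝ)) ^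
      (1 / 50 - 1 / 1000 - 2 * κ - (1 / 200 - κ) / 60)) Filter.atTop Filter.atTop :=
    (tendsto_rpow_atTop hδ).comp tendsto_natCast_atTop_atTop
  obtain ⟨X1, hX1⟩ := Filter.eventually_atTop.1 (ht1.eventually_ge_atTop 200)
  obtain ⟨X2, hX2⟩ := Filter.eventually_atTop.1 (ht2.eventually_ge_atTop (400 * C))
  refine ⟨max 1 (max X1 X2), fun x hx => ?_⟩
  have hx1 : 1 ≤ x := (le_max_left _ _).trans hx
  have hxX1 : X1 ≤ x := ((le_max_left _ _).trans (le_max_right _ _)).trans hx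
  have hxX2 : X2 ≤ x := ((le_max_right _ _).trans (le_max_right _ _)).trans hx
  have hxr : (1 : ℝ) ≤ x := by exact_mod_cast hx1
  have hxpos : (0 : ℝ) < x := by linarith only [hxr]
  have b1 := hX1 x hxX1
  have b2 := hX2 x hxX2
  have hr1 : (1 : ℝ) ≤ (x : ℝ) ^ ((1 : ℝ) / 50) := Real.one_le_rpow hxr (by norm_num)
  have hR1 : 1 ≤ RR x := Nat.one_le_floor_iff _ |>.2 hr1
  have hRle : (RR x : ℝ) ≤ (x : ℝ) ^ ((1 : ℝ) / 50) :=
    Nat.floor_le (by positivity)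
  have hRge : (x : ℝ) ^ ((1 : ℝ) / 50) / 2 ≤ (RR x : ℝ) := by
    have h1 : (x : ℝ) ^ ((1 : ℝ) / 50) < (RR x : ℝ) + 1 :=
      Nat.lt_floor_add_one ((x : ℝ) ^ ((1 : ℝ) / 50))
    have h2 : (1 : ℝ) ≤ (RR x : ℝ) := by exact_mod_cast hR1
    linarith only [h1, h2]
  refine ⟨hx1, hR1, ?_, ?_, ?_⟩
  · intro Q hQ1 hQ
    have hQr : (1 : ℝ) ≤ Q := by exact_mod_cast hQ1
    constructor
    · have h1 : (Q : ℝ) * (RR x : ℝ) ≤ x := by
        calc (Q : ℝ) * (RR x : ℝ)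
            ≤ (x : ℝ) ^ ((101 : ℝ) / 200 - κ) * (x : ℝ) ^ ((1 : ℝ) / 50) := by gcongr
          _ = (x : ℝ) ^ ((101 : ℝ) / 200 - κ + 1 / 50) := (Real.rpow_add hxpos _ _).symm
          _ ≤ (x : ℝ) ^ (1 : ℝ) := Real.rpow_le_rpow_of_exponent_le hxr (by linarith only [h0])
          _ = x := Real.rpow_one _
      have h2 : Q * RR x ≤ x := by exact_mod_cast h1
      rw [mul_assoc]
      exact Nat.mul_le_mul_left 2 h2
    · have h1 : (Q : ℝ) ^ ((2 : ℝ) - 1 / 50) ≤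
          (x : ℝ) ^ (((101 : ℝ) / 200 - κ) * ((2 : ℝ) - 1 / 50)) := by
        calc (Q : ℝ) ^ ((2 : ℝ) - 1 / 50)
            ≤ ((x : ℝ) ^ ((101 : ℝ) / 200 - κ)) ^ ((2 : ℝ) - 1 / 50) :=
              Real.rpow_le_rpow (by positivity) hQ (by norm_num)
          _ = (x : ℝ) ^ (((101 : ℝ) / 200 - κ) * ((2 : ℝ) - 1 / 50)) :=
              (Real.rpow_mul hxpos.le _ _).symm
      have h2 : (x : ℝ) ^ (1 - 2 * κ - (1 / 200 - κ) / 60)
          = (x : ℝ) ^ (((101 : ℝ) / 200 - κ) * ((2 : ℝ) - 1 / 50)) *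
            (x : ℝ) ^ ((1 / 200 - κ) / 300) := by
        rw [← Real.rpow_add hxpos]
        congr 1
        ring
      have h3 : 0 < (x : ℝ) ^ (((101 : ℝ) / 200 - κ) * ((2 : ℝ) - 1 / 50)) := by positivity
      rw [h2]
      have h4 : (x : ℝ) ^ (((101 : ℝ) / 200 - κ) * ((2 : ℝ) - 1 / 50)) * 200 ≤
          (x : ℝ) ^ (((101 : ℝ) / 200 - κ) * ((2 : ℝ) - 1 / 50)) *
            (x : ℝ) ^ ((1 / 200 - κ) / 300) :=
        mul_le_mul_of_nonneg_left b1 h3.le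
      linarith only [h1, h4]
  · have h1 : (RR x : ℝ) * (RR x : ℝ) ≤ x := by
      calc (RR x : ℝ) * (RR x : ℝ)
          ≤ (x : ℝ) ^ ((1 : ℝ) / 50) * (x : ℝ) ^ ((1 : ℝ) / 50) := by gcongr
        _ = (x : ℝ) ^ ((1 : ℝ) / 50 + 1 / 50) := (Real.rpow_add hxpos _ _).symm
        _ ≤ (x : ℝ) ^ (1 : ℝ) := Real.rpow_le_rpow_of_exponent_le hxr (by norm_num)
        _ = x := Real.rpow_one _
    have h2 : RR x * RR x ≤ x := by
      exact_mod_cast h1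
    omega
  · intro h hh hhx
    have hnat : 1 ≤ h.natAbs := Int.natAbs_pos.2 hh
    have hle : (h.natAbs : ℝ) ≤ x := by
      have h1 : ((h.natAbs : ℕ) : ℤ) ≤ x := by
        rw [Int.natCast_natAbs]
        exact hhx
      exact_mod_cast h1
    have ht : (tau h.natAbs : ℝ) ≤ C * (x : ℝ) ^ ((1 : ℝ) / 1000) := by
      refine (hC h.natAbs hnat).trans ?_
      exact mul_le_mul_of_nonneg_left
        (Real.rpow_le_rpow (Nat.cast_nonneg _) hle (by norm_num)) (by linarith only [hC1])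
    have hRpos : 0 < (RR x : ℝ) := by
      have : (1 : ℝ) ≤ (RR x : ℝ) := by exact_mod_cast hR1
      linarith only [this]
    rw [div_le_iff₀ hRpos]
    have e1 : (x : ℝ) ^ (1 - 2 * κ - (1 / 200 - κ) / 60) * (x : ℝ) ^ ((1 : ℝ) / 50)
        = x * (x : ℝ) ^ ((1 : ℝ) / 1000) *
          (x : ℝ) ^ (1 / 50 - 1 / 1000 - 2 * κ - (1 / 200 - κ) / 60) := by
      have e2 : (x : ℝ) * (x : ℝ) ^ ((1 : ℝ) / 1000) *
          (x : ℝ) ^ (1 / 50 - 1 / 1000 - 2 * κ - (1 / 200 - κ) / 60)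
          = (x : ℝ) ^ (1 : ℝ) * (x : ℝ) ^ ((1 : ℝ) / 1000) *
            (x : ℝ) ^ (1 / 50 - 1 / 1000 - 2 * κ - (1 / 200 - κ) / 60) := by
        rw [Real.rpow_one]
      rw [e2, ← Real.rpow_add hxpos, ← Real.rpow_add hxpos, ← Real.rpow_add hxpos]
      congr 1
      ring
    have e3 : 0 < (x : ℝ) * (x : ℝ) ^ ((1 : ℝ) / 1000) := by positivity
    have e4 : (x : ℝ) * (x : ℝ) ^ ((1 : ℝ) / 1000) * (400 * C) ≤
        x * (x : ℝ) ^ ((1 : ℝ) / 1000) *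
          (x : ℝ) ^ (1 / 50 - 1 / 1000 - 2 * κ - (1 / 200 - κ) / 60) :=
      mul_le_mul_of_nonneg_left b2 e3.le
    have e5 : 100 * (x : ℝ) * (tau h.natAbs : ℝ) ≤ 100 * x * (C * (x : ℝ) ^ ((1 : ℝ) / 1000)) :=
      mul_le_mul_of_nonneg_left ht (by positivity)
    have e6 : (x : ℝ) ^ (1 - 2 * κ - (1 / 200 - κ) / 60) / 2 * ((x : ℝ) ^ ((1 : ℝ) / 50) / 2) ≤
        (x : ℝ) ^ (1 - 2 * κ - (1 / 200 - κ) / 60) / 2 * (RR x : ℝ) :=
      mul_le_mul_of_nonneg_left hRge (by positivity)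
    nlinarith only [e1, e4, e5, e6]

theorem crs (κ : ℝ) (h0 : 0 ≤ κ) (h1 : κ < 1 / 200) : ∃ x0 : ℕ, ∀ x Q J : ℕ, x0 ≤ x → 1 ≤ Q →
    1 ≤ J → (Q : ℝ) ≤ (x : ℝ) ^ ((101 : ℝ) / 200 - κ) →
    (∀ m, 1 ≤ m → m ≤ 4 * Q ^ 2 → m ∣ 2 * x * J) →
    ∀ a a' : ℤ, a ≠ a' → |a| ≤ x → |a'| ≤ x → |a' - a| ≤ x →
    ∀ c c' : ℕ → ℝ, (∀ q, |c q| ≤ 1) → (∀ q, |c' q| ≤ 1) →
    |∑ n ∈ RW x J, ww x J n * (SS (RR x) Q c a n * SS (RR x) Q c' a' n)| ≤
      (x : ℝ) ^ (1 - 2 * κ - (1 / 200 - κ) / 60) := by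
  obtain ⟨X1, hX1⟩ := Crs_num κ h0 h1
  obtain ⟨X2, hX2⟩ := xk_bound
  refine ⟨max X1 X2, fun x Q J hx hQ1 hJ hQ hdiv a a' haa ha ha' hd c c' hc hc' => ?_⟩
  obtain ⟨hx1, hR1, hnQ, hRR, hτ⟩ := hX1 x ((le_max_left _ _).trans hx)
  obtain ⟨hQR, hQn⟩ := hnQ Q hQ1 hQ
  set R : ℕ := RR x with hR
  obtain ⟨n0, hn0⟩ := Crs_n0 a a'
  have hQ' : (Q : ℝ) ≤ (x : ℝ) ^ ((101 : ℝ) / 200) := by
    refine hQ.trans (Real.rpow_le_rpow_of_exponent_le ?_ (by linarith only [h0]))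
    exact_mod_cast hx1
  have hxk := hX2 x Q ((le_max_right _ _).trans hx) hQ1 hQ' a a' haa ha ha' hd c c' hc hc' n0 hn0
  have hh : a' - a ≠ 0 := sub_ne_zero.2 haa.symm
  have hcr := cross_ram x Q R hQ1 hR1 c c' hc hc' (a' - a) hh
  have hτ' := hτ (a' - a) hh hd
  set Y : ℝ := ∑ q ∈ Ioc Q (2 * Q), ∑ q' ∈ Ioc Q (2 * Q), c q * c' q' *
    (Real.pi ^ 2 * x / (2 * q * q')) *
        ∑ r ∈ (Nat.gcd q q').divisors.filter (fun r => R < r), ram r (a' - a) with hY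
  have hexp : ∑ n ∈ RW x J, ww x J n * (SS R Q c a n * SS R Q c' a' n) =
      ∑ q ∈ Ioc Q (2 * Q), ∑ q' ∈ Ioc Q (2 * Q), c q * c' q' *
        ∑ n ∈ RW x J, ww x J n * uu R q a n * uu R q' a' n := by
    have e1 : ∀ n ∈ RW x J, ww x J n * (SS R Q c a n * SS R Q c' a' n) =
        ∑ q ∈ Ioc Q (2 * Q), ∑ q' ∈ Ioc Q (2 * Q), c q * c' q' *
          (ww x J n * uu R q a n * uu R q' a' n) := by
      intro n _
      unfold SS
      rw [Finset.sum_mul_sum, Finset.mul_sum]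
      refine Finset.sum_congr rfl fun q _ => ?_
      rw [Finset.mul_sum]
      refine Finset.sum_congr rfl fun q' _ => ?_
      ring
    rw [Finset.sum_congr rfl e1, Finset.sum_comm]
    refine Finset.sum_congr rfl fun q _ => ?_
    rw [Finset.sum_comm]
    refine Finset.sum_congr rfl fun q' _ => ?_
    rw [Finset.mul_sum]
  have hkey : ((∑ n ∈ RW x J, ww x J n * (SS R Q c a n * SS R Q c' a' n) : ℝ) : ℂ) =
      XK x Q c c' a a' n0 + (Y : ℂ) := by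
    rw [hexp, hY, XK]
    push_cast
    rw [← Finset.sum_add_distrib]
    refine Finset.sum_congr rfl fun q hq => ?_
    rw [← Finset.sum_add_distrib]
    refine Finset.sum_congr rfl fun q' hq' => ?_
    rw [mem_Ioc] at hq hq'
    have hent := Crs_entry x J R q q' hx1 hJ (by omega) (by omega)
      (fun m hm1 hm2 => hdiv m hm1 (hm2.trans (by nlinarith only [hq, hq', hq.2, hq'.2])))
      (le_trans (Nat.mul_le_mul_right R hq.2) hQR) (le_trans (Nat.mul_le_mul_right R hq'.2) hQR)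
      hRR a a' n0 (hn0 q q')
    push_cast at hent
    rw [hent]
    split_ifs
    · ring
    · ring
  have h1 : |∑ n ∈ RW x J, ww x J n * (SS R Q c a n * SS R Q c' a' n)| =
      ‖((∑ n ∈ RW x J, ww x J n * (SS R Q c a n * SS R Q c' a' n) : ℝ) : ℂ)‖ := by
    rw [Complex.norm_real, Real.norm_eq_abs]
  rw [h1, hkey]
  calc ‖XK x Q c c' a a' n0 + (Y : ℂ)‖ ≤ ‖XK x Q c c' a a' n0‖ + ‖(Y : ℂ)‖ := norm_add_le _ _
    _ ≤ (x : ℝ) ^ (1 - 2 * κ - (1 / 200 - κ) / 60) / 2 + (x : ℝ) ^ (1 - 2 * κ - (1 / 200 - κ) / 60) / 2 := by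
        refine add_le_add (hxk.trans hQn) ?_
        rw [Complex.norm_real, Real.norm_eq_abs]
        exact hcr.trans hτ'
    _ = (x : ℝ) ^ (1 - 2 * κ - (1 / 200 - κ) / 60) := by ring

end Pool.Agent.H35.KM

end

section

/-!
# What is used from project EHA (black boxes)

`ext_ints`: Siegel-Walfisz / Bombieri-Vinogradov for one residue; `ext_dyadic`: dyadic blocks.
-/

set_option autoImplicit false

namespace Pool.Agent.H80.KF

open Finset
open Pool.Agent.H91.EHA (err)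

theorem ext_err_one (x : ℕ) (a : ZMod 1) : err x 1 a = 0 :=
  Pool.Agent.H91.EHA.err_one x a

theorem ext_dyadic (F : ℕ → ℝ) (hF : ∀ q, 0 ≤ F q) (M J : ℕ) (hM : M < 2 ^ J) (hF1 : F 1 = 0)
    (b : ℝ) (hb : 0 ≤ b) (hblock : ∀ j < J, 2 ^ j ≤ M → ∑ q ∈ Ioc (2 ^ j) (2 * 2 ^ j), F q ≤ b) :
    ∑ q ∈ Icc 1 M, F q ≤ J * b := by
  have h := Pool.Agent.H91.EHA.dyadic_cover F hF M J hM (fun _ => True) hF1 b hb
    (fun j hj q hq _ h1 _ => hblock j hj (h1.le.trans hq))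
  rwa [filter_true_of_mem (fun _ _ => trivial)] at h

end Pool.Agent.H80.KF

end
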