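import Pool.Agent.H94.EH.H35.KM.BVs
import Pool.Agent.H94.EH.M38

/-! The parts of this file: H35.KM.Unf, H35.KM.Bl, H35.KM.Dy, H35.KM.Mx, H35.KM.Fam. -/

section

/-!
# The structured part is uniform in all residues

For every modulus `q` one residue `s q` prime to `q`.  Let `b d` be a reduced class mod `d` with the
largest `|err y d b|` (`d ≥ 1`; `exists_max_image` over the units), `E d = |err y d (b d)|`.  For
`d ∣ q` the class of `s q` mod `d` is reduced, so `|err y d (s q)| ≤ E d`.  As in `str_sum` of KF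
(StrD.lean): `str_id` at `y` with `a = s q`, `|μ| ≤ 1`, `stg`, `str_tail`, with `R = RR x`, and
`bvs (c+2)`: total `≤ 3 (1 + log x) x/(log x)^{c+2} + x · 12/√R ≤ x/(log x)^c`.
-/

set_option autoImplicit false

namespace Pool.Agent.H35.KM

open Finset
open Pool.Agent.H91.EHA (err)
open Pool.Agent.H80.KF

private theorem unf_num (c : ℕ) : ∃ x0 : ℕ, ∀ x : ℕ, x0 ≤ x →
    1 ≤ ⌊(x : ℝ) ^ ((1 : ℝ) / 50)⌋₊ ∧ 12 ≤ Real.log x ∧
      24 * Real.log x ^ c ≤ Real.sqrt (⌊(x : ℝ) ^ ((1 : ℝ) / 50)⌋₊ : ℝ) := by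
  have h1 : ∀ᶠ x : ℝ in Filter.atTop, ‖Real.log x ^ ((2 * c : ℕ) : ℝ)‖ ≤
      (1 / 1152 : ℝ) * ‖x ^ ((1 : ℝ) / 50)‖ :=
    (isLittleO_log_rpow_rpow_atTop ((2 * c : ℕ) : ℝ)
      (by norm_num : (0 : ℝ) < (1 : ℝ) / 50)).def (by norm_num)
  have h2 : ∀ᶠ x : ℝ in Filter.atTop, (12 : ℝ) ≤ Real.log x :=
    Real.tendsto_log_atTop.eventually_ge_atTop 12
  have h3 : ∀ᶠ x : ℝ in Filter.atTop, (2 : ℝ) ≤ x ^ ((1 : ℝ) / 50) :=
    (tendsto_rpow_atTop (by norm_num : (0 : ℝ) < (1 : ℝ) / 50)).eventually_ge_atTop 2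
  have h4 := tendsto_natCast_atTop_atTop (R := ℝ) |>.eventually (h1.and (h2.and h3))
  obtain ⟨x0, hx0⟩ := Filter.eventually_atTop.mp h4
  refine ⟨x0, fun x hx => ?_⟩
  obtain ⟨g1, g2, g3⟩ := hx0 x hx
  set y : ℝ := (x : ℝ) ^ ((1 : ℝ) / 50) with hy
  have hL : 0 ≤ Real.log (x : ℝ) := by linarith
  have hfl : y / 2 ≤ (⌊y⌋₊ : ℝ) := by
    have := Nat.sub_one_lt_floor y
    linarith
  refine ⟨?_, g2, ?_⟩
  · exact Nat.le_floor (by push_cast; linarith)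
  · rw [Real.rpow_natCast, Real.norm_of_nonneg (pow_nonneg hL _),
      Real.norm_of_nonneg (by linarith)] at g1
    apply Real.le_sqrt_of_sq_le
    calc (24 * Real.log (x : ℝ) ^ c) ^ 2 = 576 * Real.log (x : ℝ) ^ (2 * c) := by
          rw [mul_pow, ← pow_mul, mul_comm c 2]
          norm_num
      _ ≤ 576 * (1 / 1152 * y) := by gcongr
      _ ≤ y / 2 := by linarith
      _ ≤ _ := hfl

/-- a reduced class with the largest error -/
private theorem unf_max (y : ℕ) : ∃ b : (d : ℕ) → ZMod d, (∀ d, IsUnit (b d)) ∧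
    ∀ d, 1 ≤ d → ∀ a : ZMod d, IsUnit a → |err y d a| ≤ |err y d (b d)| := by
  classical
  have h : ∀ d : ℕ, ∃ b : ZMod d, IsUnit b ∧
      (1 ≤ d → ∀ a : ZMod d, IsUnit a → |err y d a| ≤ |err y d b|) := by
    intro d
    rcases Nat.eq_zero_or_pos d with h0 | h0
    · exact ⟨1, isUnit_one, fun h => by omega⟩
    · haveI : NeZero d := ⟨by omega⟩
      have hne : ((Finset.univ : Finset (ZMod d)).filter (fun a => IsUnit a)).Nonempty :=
        ⟨1, Finset.mem_filter.2 ⟨Finset.mem_univ _, isUnit_one⟩⟩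
      obtain ⟨b, hb, hmax⟩ := Finset.exists_max_image _ (fun a => |err y d a|) hne
      exact ⟨b, (Finset.mem_filter.1 hb).2, fun _ a ha =>
        hmax a (Finset.mem_filter.2 ⟨Finset.mem_univ _, ha⟩)⟩
  choose b hb using h
  exact ⟨b, fun d => (hb d).1, fun d => (hb d).2⟩

theorem unf (c : ℕ) : ∃ x0 : ℕ, ∀ x Q : ℕ, x0 ≤ x → 1 ≤ Q → ∀ y : ℕ, y ≤ x → ∀ s : ℕ → ℤ,
    (∀ q, IsCoprime (s q) (q : ℤ)) →
    ∑ q ∈ Ioc Q (2 * Q),
      |err y q (s q : ZMod q) - ∑ p ∈ PX y, uu (RR x) q (s q) p| ≤ x / Real.log x ^ c := by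
  obtain ⟨x1, h1⟩ := bvs (c + 2)
  obtain ⟨x2, h2⟩ := unf_num c
  refine ⟨max 1 (max x1 x2), fun x Q hx hQ y hyx s hs => ?_⟩
  have hx1 : x1 ≤ x := le_trans (le_trans (le_max_left _ _) (le_max_right _ _)) hx
  have hx2 : x2 ≤ x := le_trans (le_trans (le_max_right _ _) (le_max_right _ _)) hx
  have hx3 : 1 ≤ x := le_trans (le_max_left _ _) hx
  obtain ⟨hR, hL, hsq⟩ := h2 x hx2
  obtain ⟨b, hbu, hbm⟩ := unf_max y
  have he := h1 x hx1 y hyx b hbu
  have hxr : (1 : ℝ) ≤ (x : ℝ) := by exact_mod_cast hx3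
  unfold RR at he ⊢
  set R : ℕ := ⌊(x : ℝ) ^ ((1 : ℝ) / 50)⌋₊ with hRdef
  set L : ℝ := Real.log (x : ℝ) with hLdef
  have hL0 : 0 < L := by linarith
  have hmu : ∀ n : ℕ, |(ArithmeticFunction.moebius n : ℝ)| ≤ 1 := by
    intro n
    have h := ArithmeticFunction.abs_moebius_le_one (n := n)
    exact_mod_cast h
  -- one modulus
  have hone : ∀ q ∈ Ioc Q (2 * Q),
      |err y q (s q : ZMod q) - ∑ p ∈ PX y, uu R q (s q) p| ≤
        (1 / (q : ℝ)) * ∑ r ∈ q.divisors.filter (fun r => r ≤ R), ∑ d ∈ r.divisors,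
          (d : ℝ) * |err y d (b d)| +
        (x : ℝ) * ((1 / (q : ℝ)) * ∑ r ∈ q.divisors.filter (fun r => R < r),
            (ArithmeticFunction.moebius r : ℝ) ^ 2 / (Nat.totient r : ℝ)) := by
    intro q hq
    have hq1 : 1 ≤ q := by
      have := (mem_Ioc.mp hq).1
      omega
    rw [str_id y R q hq1 (s q)]
    refine (abs_sub _ _).trans ?_
    have hT : 0 ≤ ∑ r ∈ q.divisors.filter (fun r => R < r),
        (ArithmeticFunction.moebius r : ℝ) ^ 2 / (Nat.totient r : ℝ) :=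
      sum_nonneg fun r _ => by positivity
    have hpi : (Nat.primeCounting y : ℝ) ≤ x := by
      have : Nat.primeCounting y ≤ y := by
        rw [Nat.primeCounting, Nat.primeCounting', Nat.count_eq_card_filter_range]
        refine (card_le_card (t := Icc 1 y) ?_).trans (by rw [Nat.card_Icc]; omega)
        intro p hp
        rw [mem_filter, mem_range] at hp
        rw [mem_Icc]
        exact ⟨hp.2.one_lt.le, by omega⟩
      exact_mod_cast this.trans hyx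
    apply add_le_add
    · rw [abs_mul, abs_of_nonneg (by positivity : (0 : ℝ) ≤ 1 / (q : ℝ))]
      apply mul_le_mul_of_nonneg_left _ (by positivity)
      refine (abs_sum_le_sum_abs _ _).trans (sum_le_sum fun r hr => ?_)
      refine (abs_sum_le_sum_abs _ _).trans (sum_le_sum fun d hd => ?_)
      have hrq : r ∣ q := Nat.dvd_of_mem_divisors (mem_filter.1 hr).1
      have hdr : d ∣ r := Nat.dvd_of_mem_divisors hd
      have hdq : d ∣ q := hdr.trans hrq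
      have hd1 : 1 ≤ d := Nat.pos_of_dvd_of_pos hdq (by omega)
      have hunit : IsUnit ((s q : ℤ) : ZMod d) := by
        rw [ZMod.coe_int_isUnit_iff_isCoprime]
        exact ((hs q).of_isCoprime_of_dvd_right (by exact_mod_cast hdq)).symm
      rw [abs_mul, abs_mul, Nat.abs_cast]
      apply mul_le_mul _ (hbm d hd1 _ hunit) (abs_nonneg _) (by positivity)
      calc (d : ℝ) * |(ArithmeticFunction.moebius (r / d) : ℝ)| ≤ d * 1 := by
            apply mul_le_mul_of_nonneg_left (hmu _) (by positivity)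
        _ = d := mul_one _
    · rw [abs_of_nonneg (by positivity)]
      calc (Nat.primeCounting y : ℝ) / (q : ℝ) * _ ≤ (x : ℝ) / (q : ℝ) * _ :=
            mul_le_mul_of_nonneg_right (by gcongr) hT
        _ = _ := by ring
  refine (sum_le_sum hone).trans ?_
  rw [sum_add_distrib, ← mul_sum]
  have hA := stg Q R hQ hR (fun d => |err y d (b d)|) (fun d => abs_nonneg _)
  have hB : ∑ q ∈ Ioc Q (2 * Q),
      (1 / (q : ℝ)) * ∑ r ∈ q.divisors.filter (fun r => R < r),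
        (ArithmeticFunction.moebius r : ℝ) ^ 2 / (Nat.totient r : ℝ) ≤ 12 / Real.sqrt R :=
    str_tail Q R hQ hR
  have hRx : Real.log (R : ℝ) ≤ L := by
    apply Real.log_le_log (by exact_mod_cast hR)
    calc (R : ℝ) ≤ (x : ℝ) ^ ((1 : ℝ) / 50) := Nat.floor_le (by positivity)
      _ ≤ (x : ℝ) ^ (1 : ℝ) := Real.rpow_le_rpow_of_exponent_le hxr (by norm_num)
      _ = x := Real.rpow_one _
  have hR0 : 0 ≤ Real.log (R : ℝ) := Real.log_nonneg (by exact_mod_cast hR)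
  have hE0 : 0 ≤ ∑ d ∈ Icc 1 R, |err y d (b d)| := sum_nonneg fun _ _ => abs_nonneg _
  have hLc : 0 < L ^ c := by positivity
  have hA2 : 3 * (1 + Real.log R) * ∑ d ∈ Icc 1 R, |err y d (b d)| ≤
      (x : ℝ) / L ^ c / 2 := by
    calc 3 * (1 + Real.log R) * ∑ d ∈ Icc 1 R, |err y d (b d)| ≤
        3 * (2 * L) * (x / L ^ (c + 2)) := by
          apply mul_le_mul _ he hE0 (by positivity)
          linarith
      _ = (x / L ^ c) * (6 / L) := by
          rw [pow_add]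
          field_simp
          norm_num
      _ ≤ (x / L ^ c) * (1 / 2) := by
          apply mul_le_mul_of_nonneg_left _ (by positivity)
          rw [div_le_div_iff₀ hL0 (by norm_num)]
          linarith
      _ = _ := by ring
  have hB2 : 12 / Real.sqrt (R : ℝ) ≤ 1 / (2 * L ^ c) := by
    have hs : 0 < Real.sqrt (R : ℝ) := lt_of_lt_of_le (by positivity) hsq
    rw [div_le_div_iff₀ hs (by positivity)]
    linarith
  calc _ ≤ (x : ℝ) / L ^ c / 2 + (x : ℝ) * (12 / Real.sqrt R) :=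
        add_le_add (hA.trans hA2) (mul_le_mul_of_nonneg_left hB (by positivity))
    _ ≤ (x : ℝ) / L ^ c / 2 + (x : ℝ) * (1 / (2 * L ^ c)) := by
        gcongr
    _ = (x : ℝ) / L ^ c := by
        field_simp
        ring

end Pool.Agent.H35.KM

end

section

/-!
# One dyadic block of moduli and a selection

Follow `blk` of KF (Blk.lean).  `L = log x`, `K = #A ≤ x^{κ + ε₀/200}`, `ε₀ = 1/200 - κ`, `R = RR x`,
`J = 2 (4Q²)!`.  If `T q` is not empty let `s q ∈ T q` be the element with the largest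
`|err - ∑_p u|`, otherwise `s q = 1`: by `unf (c+1)` replacing `err` by `∑_p u` costs `M x/L^{c+1}`.
`sgn`.  Primes in `A`: at most `K(Q + K x^{1/1000}) ≤ x/L^{c+1}` (`ss_le_sa`, `pt_ctr`, `pt_bd`).
Primes outside `A`: `bk_cauchy` and `bkx` with `D = M 10⁵ x L⁵` (`dia_sel`),
`E = x^{1 - 2κ - ε₀/60}` (`crs`), bound `x^{1/1000}` (`pt_bd`);
`K² (E + 3 K x^{2/1000} + 6 Q x^{1/1000}) ≤ x` (`K² ≤ x^{2κ + ε₀/100}`, `κ < 1/200`), so the square is
at most `x (10⁵ M x L⁵ + x) ≤ M x² L⁶/16` for large `x`.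
-/

set_option autoImplicit false

namespace Pool.Agent.H35.KM

open Finset
open Pool.Agent.H91.EHA (err)
open Pool.Agent.H80.KF

private theorem Bl_num (ε : ℝ) (hε : 0 < ε) (c : ℕ) : ∃ x0 : ℕ, ∀ x : ℕ, x0 ≤ x → 3 ≤ x ∧
    (10 : ℝ) ≤ (x : ℝ) ^ (ε / 150) ∧ (2 : ℝ) ≤ (x : ℝ) ^ ((99 : ℝ) / 200) ∧
    2 * Real.log x ^ (c + 1) ≤ (x : ℝ) ^ ((98 : ℝ) / 200) ∧ (4 * 10 ^ 6 : ℝ) ≤ Real.log x := by
  have hcast := tendsto_natCast_atTop_atTop (R := ℝ)
  have e1 : ∀ᶠ x : ℕ in Filter.atTop, (10 : ℝ) ≤ (x : ℝ) ^ (ε / 150) :=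
    ((tendsto_rpow_atTop (by positivity)).comp hcast).eventually_ge_atTop 10
  have e1' : ∀ᶠ x : ℕ in Filter.atTop, (2 : ℝ) ≤ (x : ℝ) ^ ((99 : ℝ) / 200) :=
    ((tendsto_rpow_atTop (by norm_num)).comp hcast).eventually_ge_atTop 2
  have e2 : ∀ᶠ x : ℕ in Filter.atTop, (4 * 10 ^ 6 : ℝ) ≤ Real.log x :=
    (Real.tendsto_log_atTop.comp hcast).eventually_ge_atTop _
  have e3 : ∀ᶠ x : ℕ in Filter.atTop, 2 * Real.log x ^ (c + 1) ≤ (x : ℝ) ^ ((98 : ℝ) / 200) := by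
    have h := (isLittleO_log_rpow_rpow_atTop ((c + 1 : ℕ) : ℝ) (s := (98 : ℝ) / 200)
      (by norm_num)).bound (c := 1 / 2) (by norm_num)
    have h' := hcast.eventually h
    filter_upwards [h', e2] with x hx hl
    rw [Real.rpow_natCast, Real.norm_of_nonneg (by positivity),
      Real.norm_of_nonneg (by positivity)] at hx
    linarith only [hx]
  have e4 : ∀ᶠ x : ℕ in Filter.atTop, 3 ≤ x := Filter.eventually_ge_atTop 3
  have := e4.and (e1.and (e1'.and (e3.and e2)))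
  exact Filter.eventually_atTop.1 this

theorem bl (κ : ℝ) (h0 : 0 ≤ κ) (h1 : κ < 1 / 200) (c : ℕ) : ∃ x0 : ℕ, ∀ x Q : ℕ, x0 ≤ x →
    1 ≤ Q → (Q : ℝ) ≤ (x : ℝ) ^ ((101 : ℝ) / 200 - κ) → ∀ A : Finset ℤ, Adx x A →
    (A.card : ℝ) ≤ (x : ℝ) ^ (κ + (1 / 200 - κ) / 200) → ∀ M : ℕ, 1 ≤ M →
    ∀ T : ℕ → Finset ℤ, Sel A M T → ∀ y : ℕ, y ≤ x →
    ∑ q ∈ Ioc Q (2 * Q), ∑ a ∈ T q, |err y q (a : ZMod q)| ≤
      Real.sqrt M * x * Real.log x ^ 3 / 4 + M * x / Real.log x ^ c := by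
  classical
  set ε : ℝ := 1 / 200 - κ with hε
  have hε0 : 0 < ε := by rw [hε]; linarith only [h1]
  have hε1 : ε ≤ 1 / 200 := by rw [hε]; linarith only [h0]
  obtain ⟨x1, h1'⟩ := Bl_num ε hε0 c
  obtain ⟨x2, h2⟩ := unf (c + 1)
  obtain ⟨x3, h3⟩ := crs κ h0 h1
  obtain ⟨x4, h4⟩ := pt_bd
  refine ⟨x1 + x2 + x3 + x4, ?_⟩
  intro x Q hx hQ hQx A hAdx hK M hM T hT y hyx
  obtain ⟨hA, hAA⟩ := hAdx
  obtain ⟨hx3, n1, n1', n2, n3⟩ := h1' x (by omega)
  have hcr := h3 x Q (2 * (4 * Q ^ 2).factorial) (by omega) hQ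
    (by have := Nat.factorial_pos (4 * Q ^ 2); omega) hQx
    (by
      intro m hm1 hm2
      have := Nat.dvd_factorial (by omega : 0 < m) hm2
      exact Dvd.dvd.mul_left (Dvd.dvd.mul_left this 2) (2 * x))
  set R : ℕ := RR x with hR
  set J : ℕ := 2 * (4 * Q ^ 2).factorial with hJ
  set K : ℝ := (A.card : ℝ) with hKdef
  set L : ℝ := Real.log x with hL
  have hJ2 : 2 ≤ J := by have := Nat.factorial_pos (4 * Q ^ 2); omega
  have hX0 : (0 : ℝ) < x := by exact_mod_cast (by omega : 0 < x)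
  have hX1 : (1 : ℝ) ≤ x := by exact_mod_cast (by omega : 1 ≤ x)
  have hK0 : 0 ≤ K := by positivity
  have hL1 : 1 ≤ L := by linarith only [h0, hε, hε0, n3]
  have hM1' : (1 : ℝ) ≤ M := by exact_mod_cast hM
  -- R
  have hM1 : (1 : ℝ) ≤ (x : ℝ) ^ ((1 : ℝ) / 50) := Real.one_le_rpow hX1 (by norm_num)
  have hR1 : 1 ≤ R := by
    rw [hR]
    exact Nat.le_floor (by simpa using hM1)
  have hRx : R ≤ x := by
    have : (R : ℝ) ≤ x := by
      refine (Nat.floor_le (by positivity)).trans ?_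
      calc (x : ℝ) ^ ((1 : ℝ) / 50) ≤ (x : ℝ) ^ (1 : ℝ) :=
            Real.rpow_le_rpow_of_exponent_le hX1 (by norm_num)
        _ = x := Real.rpow_one _
    exact_mod_cast this
  have hpt := h4 x Q R (by omega) hQ hR1 hRx
  -- powers
  have hpw : ∀ s t : ℝ, (x : ℝ) ^ s * (x : ℝ) ^ t = (x : ℝ) ^ (s + t) := fun s t =>
    (Real.rpow_add hX0 s t).symm
  have hmono : ∀ s t : ℝ, s ≤ t → (x : ℝ) ^ s ≤ (x : ℝ) ^ t := fun s t h =>
    Real.rpow_le_rpow_of_exponent_le hX1 h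
  have hx1 : (x : ℝ) ^ (1 : ℝ) = x := Real.rpow_one _
  -- 2 Q ≤ x
  have hQ2 : 2 * Q ≤ x := by
    have : 2 * (Q : ℝ) ≤ x := by
      calc 2 * (Q : ℝ) ≤ (x : ℝ) ^ ((99 : ℝ) / 200) * (x : ℝ) ^ ((101 : ℝ) / 200 - κ) := by gcongr
        _ = (x : ℝ) ^ ((99 : ℝ) / 200 + ((101 : ℝ) / 200 - κ)) := hpw _ _
        _ ≤ (x : ℝ) ^ (1 : ℝ) := hmono _ _ (by linarith only [h0])
        _ = x := hx1
    exact_mod_cast this
  -- signs
  obtain ⟨cf, hcf, hc0, hsign⟩ := sgn y Q R M A T hT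
  -- the element with the largest error
  have hs : ∀ q : ℕ, ∃ s : ℤ, IsCoprime s (q : ℤ) ∧ ∀ a ∈ T q,
      |err y q (a : ZMod q) - ∑ p ∈ PX y, uu R q a p| ≤
        |err y q (s : ZMod q) - ∑ p ∈ PX y, uu R q s p| := by
    intro q
    by_cases hne : (T q).Nonempty
    · obtain ⟨s, hsT, hs⟩ := exists_max_image (T q)
        (fun a : ℤ => |err y q (a : ZMod q) - ∑ p ∈ PX y, uu R q a p|) hne
      exact ⟨s, (hT q).2.2 s hsT, hs⟩
    · rw [not_nonempty_iff_eq_empty] at hne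
      refine ⟨1, isCoprime_one_left, ?_⟩
      intro a ha
      rw [hne] at ha
      simp at ha
  choose s hs1 hs2 using hs
  have hunf := h2 x Q (by omega) hQ y hyx s hs1
  -- structured part
  have hS1 : ∑ q ∈ Ioc Q (2 * Q), ∑ a ∈ T q, |err y q (a : ZMod q)| ≤
      ∑ p ∈ PX y, ∑ a ∈ A, SS R Q (cf a) a p + M * (x / L ^ (c + 1)) := by
    rw [← hsign]
    have hA1 : ∑ q ∈ Ioc Q (2 * Q), ∑ a ∈ T q,
        |err y q (a : ZMod q) - ∑ p ∈ PX y, uu R q a p| ≤ M * (x / L ^ (c + 1)) := by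
      calc ∑ q ∈ Ioc Q (2 * Q), ∑ a ∈ T q, |err y q (a : ZMod q) - ∑ p ∈ PX y, uu R q a p|
          ≤ ∑ q ∈ Ioc Q (2 * Q), M * |err y q (s q : ZMod q) - ∑ p ∈ PX y, uu R q (s q) p| := by
            refine sum_le_sum fun q _ => ?_
            calc ∑ a ∈ T q, |err y q (a : ZMod q) - ∑ p ∈ PX y, uu R q a p|
                ≤ ∑ a ∈ T q, |err y q (s q : ZMod q) - ∑ p ∈ PX y, uu R q (s q) p| :=
                  sum_le_sum fun a ha => hs2 q a ha
              _ = ((T q).card : ℝ) * |err y q (s q : ZMod q) - ∑ p ∈ PX y, uu R q (s q) p| := by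
                  rw [sum_const, nsmul_eq_mul]
              _ ≤ M * |err y q (s q : ZMod q) - ∑ p ∈ PX y, uu R q (s q) p| := by
                  refine mul_le_mul_of_nonneg_right ?_ (abs_nonneg _)
                  exact_mod_cast (hT q).2.1
        _ = M * ∑ q ∈ Ioc Q (2 * Q), |err y q (s q : ZMod q) - ∑ p ∈ PX y, uu R q (s q) p| := by
            rw [mul_sum]
        _ ≤ M * (x / L ^ (c + 1)) := by gcongr
    calc ∑ q ∈ Ioc Q (2 * Q), ∑ a ∈ T q, |err y q (a : ZMod q)|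
        ≤ ∑ q ∈ Ioc Q (2 * Q), ∑ a ∈ T q, (|∑ p ∈ PX y, uu R q a p| +
            |err y q (a : ZMod q) - ∑ p ∈ PX y, uu R q a p|) := by
          refine sum_le_sum fun q _ => sum_le_sum fun a _ => ?_
          have := abs_add_le (∑ p ∈ PX y, uu R q a p)
            (err y q (a : ZMod q) - ∑ p ∈ PX y, uu R q a p)
          rwa [add_sub_cancel] at this
      _ = ∑ q ∈ Ioc Q (2 * Q), ∑ a ∈ T q, |∑ p ∈ PX y, uu R q a p| +
            ∑ q ∈ Ioc Q (2 * Q), ∑ a ∈ T q,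
              |err y q (a : ZMod q) - ∑ p ∈ PX y, uu R q a p| := by
          rw [← sum_add_distrib]
          exact sum_congr rfl fun q _ => sum_add_distrib
      _ ≤ _ := by gcongr
  -- primes in A
  have hS2 : ∑ p ∈ (PX y).filter (fun p : ℕ => (p : ℤ) ∈ A), ∑ a ∈ A, SS R Q (cf a) a p ≤
      K * (Q + K * (x : ℝ) ^ ((1 : ℝ) / 1000)) := by
    have hcard : (((PX y).filter (fun p : ℕ => (p : ℤ) ∈ A)).card : ℝ) ≤ K := by
      have : ((PX y).filter (fun p : ℕ => (p : ℤ) ∈ A)).card ≤ A.card := by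
        refine card_le_card_of_injOn (fun p : ℕ => (p : ℤ)) ?_ ?_
        · intro p hp
          exact (mem_filter.1 hp).2
        · intro p _ p' _ h
          exact Int.ofNat.inj h
      rw [hKdef]
      exact Nat.cast_le.2 this
    have hone : ∀ p ∈ (PX y).filter (fun p : ℕ => (p : ℤ) ∈ A), ∑ a ∈ A, SS R Q (cf a) a p ≤
        Q + K * (x : ℝ) ^ ((1 : ℝ) / 1000) := by
      intro p hp
      rw [mem_filter] at hp
      have hpx : |(p : ℤ)| ≤ x := hA _ hp.2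
      have hb : ∀ a ∈ A, SS R Q (cf a) a p ≤
          (if a = (p : ℤ) then (Q : ℝ) else 0) + (x : ℝ) ^ ((1 : ℝ) / 1000) := by
        intro a ha
        refine (le_abs_self _).trans ((ss_le_sa R Q (cf a) (hcf a) a p).trans ?_)
        by_cases hap : a = (p : ℤ)
        · rw [if_pos hap, hap]
          have := pt_ctr R Q (p : ℤ)
          have h5 : (0 : ℝ) ≤ (x : ℝ) ^ ((1 : ℝ) / 1000) := by positivity
          linarith only [this, h5]
        · rw [if_neg hap, zero_add]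
          exact hpt a p hap (hA a ha) hpx
      refine (sum_le_sum hb).trans ?_
      rw [sum_add_distrib, sum_ite_eq' A (p : ℤ) (fun _ => (Q : ℝ)), if_pos hp.2, sum_const,
        nsmul_eq_mul]
    refine (sum_le_sum hone).trans ?_
    rw [sum_const, nsmul_eq_mul]
    gcongr
  -- primes outside A
  have hD := dia_sel x Q R J M hx3 hQ hQ2 hR1 hRx (by omega) A hA T hT cf hcf hc0
  have hE : ∀ a ∈ A, ∀ a' ∈ A, a ≠ a' →
      |∑ n ∈ RW x J, ww x J n * (SS R Q (cf a) a n * SS R Q (cf a') a' n)| ≤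
        (x : ℝ) ^ (1 - 2 * κ - ε / 60) := fun a ha a' ha' haa =>
    hcr a a' haa (hA a ha) (hA a' ha') (hAA a ha a' ha') (cf a) (cf a') (hcf a) (hcf a')
  have hexp := bkx x Q R J (by omega) (by omega) A cf hcf (M * (10 ^ 5 * x * L ^ 5))
    ((x : ℝ) ^ (1 - 2 * κ - ε / 60)) ((x : ℝ) ^ ((1 : ℝ) / 1000)) (by positivity)
    (by positivity) hD hE (fun a ha n hn han => hpt a n han (hA a ha) (hA n hn))
    (fun a _ => pt_ctr R Q a)
  have hcau := bk_cauchy x y Q R J (by omega) hyx hJ2 A cf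
  -- numerics
  have hKEM : K ^ 2 * ((x : ℝ) ^ (1 - 2 * κ - ε / 60) +
      3 * K * ((x : ℝ) ^ ((1 : ℝ) / 1000)) ^ 2 + 6 * Q * (x : ℝ) ^ ((1 : ℝ) / 1000)) ≤ x := by
    have hK2 : K ^ 2 ≤ (x : ℝ) ^ (2 * κ + ε / 100) := by
      calc K ^ 2 ≤ ((x : ℝ) ^ (κ + ε / 200)) ^ 2 := by gcongr
        _ = (x : ℝ) ^ (κ + ε / 200) * (x : ℝ) ^ (κ + ε / 200) := by ring
        _ = (x : ℝ) ^ (κ + ε / 200 + (κ + ε / 200)) := hpw _ _
        _ = _ := by congr 1; ring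
    have t1 : K ^ 2 * (x : ℝ) ^ (1 - 2 * κ - ε / 60) ≤ (x : ℝ) ^ (1 - ε / 150) := by
      calc K ^ 2 * (x : ℝ) ^ (1 - 2 * κ - ε / 60)
          ≤ (x : ℝ) ^ (2 * κ + ε / 100) * (x : ℝ) ^ (1 - 2 * κ - ε / 60) := by gcongr
        _ = (x : ℝ) ^ (2 * κ + ε / 100 + (1 - 2 * κ - ε / 60)) := hpw _ _
        _ = (x : ℝ) ^ (1 - ε / 150) := by congr 1; ring
    have t2 : K ^ 2 * (3 * K * ((x : ℝ) ^ ((1 : ℝ) / 1000)) ^ 2) ≤
        3 * (x : ℝ) ^ (1 - ε / 150) := by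
      calc K ^ 2 * (3 * K * ((x : ℝ) ^ ((1 : ℝ) / 1000)) ^ 2)
          ≤ (x : ℝ) ^ (2 * κ + ε / 100) * (3 * (x : ℝ) ^ (κ + ε / 200) *
            ((x : ℝ) ^ ((1 : ℝ) / 1000)) ^ 2) := by gcongr
        _ = 3 * ((x : ℝ) ^ (2 * κ + ε / 100) * (x : ℝ) ^ (κ + ε / 200) *
            ((x : ℝ) ^ ((1 : ℝ) / 1000) * (x : ℝ) ^ ((1 : ℝ) / 1000))) := by ring
        _ = 3 * (x : ℝ) ^ (2 * κ + ε / 100 + (κ + ε / 200) + ((1 : ℝ) / 1000 + 1 / 1000)) := by
            rw [hpw, hpw, hpw]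
        _ ≤ 3 * (x : ℝ) ^ (1 - ε / 150) := by
            have := hmono (2 * κ + ε / 100 + (κ + ε / 200) + ((1 : ℝ) / 1000 + 1 / 1000))
              (1 - ε / 150) (by linarith only [h0, hε, hε0])
            linarith only [this]
    have t3 : K ^ 2 * (6 * Q * (x : ℝ) ^ ((1 : ℝ) / 1000)) ≤
        6 * (x : ℝ) ^ (1 - ε / 150) := by
      calc K ^ 2 * (6 * Q * (x : ℝ) ^ ((1 : ℝ) / 1000))
          ≤ (x : ℝ) ^ (2 * κ + ε / 100) * (6 * (x : ℝ) ^ ((101 : ℝ) / 200 - κ) *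
            (x : ℝ) ^ ((1 : ℝ) / 1000)) := by gcongr
        _ = 6 * ((x : ℝ) ^ (2 * κ + ε / 100) * (x : ℝ) ^ ((101 : ℝ) / 200 - κ) *
            (x : ℝ) ^ ((1 : ℝ) / 1000)) := by ring
        _ = 6 * (x : ℝ) ^ (2 * κ + ε / 100 + ((101 : ℝ) / 200 - κ) + (1 : ℝ) / 1000) := by
            rw [hpw, hpw]
        _ ≤ 6 * (x : ℝ) ^ (1 - ε / 150) := by
            have := hmono (2 * κ + ε / 100 + ((101 : ℝ) / 200 - κ) + (1 : ℝ) / 1000)
              (1 - ε / 150) (by linarith only [h0, hε, hε0])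
            linarith only [this]
    have t4 : 10 * (x : ℝ) ^ (1 - ε / 150) ≤ x := by
      calc 10 * (x : ℝ) ^ (1 - ε / 150)
          ≤ (x : ℝ) ^ (ε / 150) * (x : ℝ) ^ (1 - ε / 150) := by gcongr
        _ = (x : ℝ) ^ (ε / 150 + (1 - ε / 150)) := hpw _ _
        _ = (x : ℝ) ^ (1 : ℝ) := by congr 1; ring
        _ = x := hx1
    calc K ^ 2 * ((x : ℝ) ^ (1 - 2 * κ - ε / 60) +
          3 * K * ((x : ℝ) ^ ((1 : ℝ) / 1000)) ^ 2 + 6 * Q * (x : ℝ) ^ ((1 : ℝ) / 1000))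
        = K ^ 2 * (x : ℝ) ^ (1 - 2 * κ - ε / 60) +
          K ^ 2 * (3 * K * ((x : ℝ) ^ ((1 : ℝ) / 1000)) ^ 2) +
          K ^ 2 * (6 * Q * (x : ℝ) ^ ((1 : ℝ) / 1000)) := by ring
      _ ≤ (x : ℝ) ^ (1 - ε / 150) + 3 * (x : ℝ) ^ (1 - ε / 150) +
          6 * (x : ℝ) ^ (1 - ε / 150) := by linarith only [t1, t2, t3]
      _ = 10 * (x : ℝ) ^ (1 - ε / 150) := by ring
      _ ≤ x := t4
  set S := ∑ p ∈ (PX y).filter (fun p : ℕ => (p : ℤ) ∉ A), ∑ a ∈ A, SS R Q (cf a) a p with hS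
  have hS3 : S ≤ Real.sqrt M * x * L ^ 3 / 4 := by
    have hL5 : 1 ≤ L ^ 5 := one_le_pow₀ hL1
    have hsq : S ^ 2 ≤ (Real.sqrt M * x * L ^ 3 / 4) ^ 2 := by
      have e1 : (Real.sqrt M * x * L ^ 3 / 4) ^ 2 = M * x ^ 2 * L ^ 6 / 16 := by
        have := Real.sq_sqrt (show (0 : ℝ) ≤ M by positivity)
        calc (Real.sqrt M * x * L ^ 3 / 4) ^ 2 = (Real.sqrt M) ^ 2 * x ^ 2 * L ^ 6 / 16 := by ring
          _ = _ := by rw [this]
      rw [e1]
      calc S ^ 2 ≤ x * ∑ n ∈ (RW x J).filter (fun n => n ∉ A),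
            ww x J n * (∑ a ∈ A, SS R Q (cf a) a n) ^ 2 := hcau
        _ ≤ x * (M * (10 ^ 5 * x * L ^ 5) + K ^ 2 * ((x : ℝ) ^ (1 - 2 * κ - ε / 60) +
            3 * K * ((x : ℝ) ^ ((1 : ℝ) / 1000)) ^ 2 + 6 * Q * (x : ℝ) ^ ((1 : ℝ) / 1000))) := by
            gcongr
        _ ≤ x * (M * (10 ^ 5 * x * L ^ 5) + x) := by gcongr
        _ ≤ x * (M * (10 ^ 5 * x * L ^ 5) + M * x) := by
            gcongr
            nlinarith only [hM1']
        _ = M * x ^ 2 * (10 ^ 5 * L ^ 5 + 1) := by ring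
        _ ≤ M * x ^ 2 * (L ^ 6 / 16) := by
            refine mul_le_mul_of_nonneg_left ?_ (by positivity)
            have : L ^ 6 = L * L ^ 5 := by ring
            rw [this]
            nlinarith only [n3, hL5, h0, hε, hε0]
        _ = M * x ^ 2 * L ^ 6 / 16 := by ring
    exact (le_abs_self _).trans (abs_le_of_sq_le_sq hsq (by positivity))
  have hsplit : ∑ p ∈ PX y, ∑ a ∈ A, SS R Q (cf a) a p =
      ∑ p ∈ (PX y).filter (fun p : ℕ => (p : ℤ) ∈ A), ∑ a ∈ A, SS R Q (cf a) a p + S := by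
    rw [hS, sum_filter_add_sum_filter_not]
  have hS4 : K * (Q + K * (x : ℝ) ^ ((1 : ℝ) / 1000)) ≤ x / L ^ (c + 1) := by
    rw [le_div_iff₀ (by positivity)]
    have t1 : K * (K * (x : ℝ) ^ ((1 : ℝ) / 1000)) ≤ (x : ℝ) ^ ((102 : ℝ) / 200) := by
      calc K * (K * (x : ℝ) ^ ((1 : ℝ) / 1000))
          ≤ (x : ℝ) ^ (κ + ε / 200) * ((x : ℝ) ^ (κ + ε / 200) * (x : ℝ) ^ ((1 : ℝ) / 1000)) := by
            gcongr
        _ = (x : ℝ) ^ (κ + ε / 200 + (κ + ε / 200 + 1 / 1000)) := by rw [hpw, hpw]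
        _ ≤ _ := hmono _ _ (by linarith only [h0, hε, hε0])
    have t2 : K * Q ≤ (x : ℝ) ^ ((102 : ℝ) / 200) := by
      calc K * Q ≤ (x : ℝ) ^ (κ + ε / 200) * (x : ℝ) ^ ((101 : ℝ) / 200 - κ) := by gcongr
        _ = (x : ℝ) ^ (κ + ε / 200 + ((101 : ℝ) / 200 - κ)) := hpw _ _
        _ ≤ _ := hmono _ _ (by linarith only [h0, hε, hε0])
    calc K * (Q + K * (x : ℝ) ^ ((1 : ℝ) / 1000)) * L ^ (c + 1)
        = (K * Q + K * (K * (x : ℝ) ^ ((1 : ℝ) / 1000))) * L ^ (c + 1) := by ring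
      _ ≤ ((x : ℝ) ^ ((102 : ℝ) / 200) + (x : ℝ) ^ ((102 : ℝ) / 200)) * L ^ (c + 1) := by gcongr
      _ = (x : ℝ) ^ ((102 : ℝ) / 200) * (2 * L ^ (c + 1)) := by ring
      _ ≤ (x : ℝ) ^ ((102 : ℝ) / 200) * (x : ℝ) ^ ((98 : ℝ) / 200) := by gcongr
      _ = (x : ℝ) ^ ((102 : ℝ) / 200 + (98 : ℝ) / 200) := hpw _ _
      _ = (x : ℝ) ^ (1 : ℝ) := by congr 1; norm_num
      _ = x := hx1
  have hpos : 0 ≤ (x : ℝ) / L ^ (c + 1) := by positivity
  have hS5 : M * (x / L ^ (c + 1)) + M * (x / L ^ (c + 1)) ≤ M * x / L ^ c := by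
    have e : M * x / L ^ c = M * (x / L ^ (c + 1)) * L := by
      rw [pow_succ]; field_simp
    rw [e]
    have : 0 ≤ M * (x / L ^ (c + 1)) := by positivity
    nlinarith only [this, h0, hε, hε0, n3]
  have hS6 : (x : ℝ) / L ^ (c + 1) ≤ M * (x / L ^ (c + 1)) := by nlinarith only [h0, hε, hε0, hM1', hpos]
  linarith only [hS1, hS2, hS3, hsplit, hS4, hS5, hS6]

end Pool.Agent.H35.KM

end

section

/-!
# All moduli, and residues of both signs

`dy_one`: as `dysum` of KF (DyS.lean): the moduli `2 ≤ q ≤ QQ κ x` lie in at most `log x` blocks,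
`ext_err_one`, `ext_dyadic` with `F q = ∑_{a ∈ T q} |err y q a|`, `bl (c+1)`.
`dy`: the nonnegative and the negative elements of `A` (and of `T q`) separately, each satisfies
`Adx`; `dy_one (c+1)` twice.
-/

set_option autoImplicit false

namespace Pool.Agent.H35.KM

open Finset
open Pool.Agent.H91.EHA (err)
open Pool.Agent.H80.KF

theorem dy_one (κ : ℝ) (h0 : 0 ≤ κ) (h1 : κ < 1 / 200) (c : ℕ) : ∃ x0 : ℕ, ∀ x : ℕ, x0 ≤ x →
    ∀ A : Finset ℤ, Adx x A → (A.card : ℝ) ≤ (x : ℝ) ^ (κ + (1 / 200 - κ) / 200) →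
    ∀ M : ℕ, 1 ≤ M → ∀ T : ℕ → Finset ℤ, Sel A M T → ∀ y : ℕ, y ≤ x →
    ∑ q ∈ Icc 1 (QQ κ x), ∑ a ∈ T q, |err y q (a : ZMod q)| ≤
      Real.sqrt M * x * Real.log x ^ 4 / 4 + M * x / Real.log x ^ c := by
  classical
  obtain ⟨x1, hb1⟩ := bl κ h0 h1 (c + 1)
  refine ⟨max x1 (max 1 ⌈Real.exp 4⌉₊), fun x hx A hA hcard M hM T hT y hy => ?_⟩
  have hx1 : x1 ≤ x := (le_max_left _ _).trans hx
  have hx2 : 1 ≤ x := (le_max_left _ _).trans ((le_max_right _ _).trans hx)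
  have hx3 : ⌈Real.exp 4⌉₊ ≤ x := (le_max_right _ _).trans ((le_max_right _ _).trans hx)
  have hx4 : Real.exp 4 ≤ x := (Nat.le_ceil _).trans (by exact_mod_cast hx3)
  have hxpos : (0 : ℝ) < x := by exact_mod_cast hx2
  have hxone : (1 : ℝ) ≤ x := by exact_mod_cast hx2
  set L := Real.log x with hL
  have hL4 : 4 ≤ L := by
    rw [hL, Real.le_log_iff_exp_le hxpos]
    exact hx4
  have hLpos : 0 < L := by linarith
  have hQr : (QQ κ x : ℝ) ≤ (x : ℝ) ^ ((101 : ℝ) / 200 - κ) := Nat.floor_le (by positivity)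
  have hQ1 : 1 ≤ QQ κ x := by
    rw [QQ, Nat.one_le_floor_iff]
    exact Real.one_le_rpow hxone (by linarith)
  set Q := QQ κ x with hQ
  set J := Nat.log 2 Q + 1 with hJ
  have hQJ : Q < 2 ^ J := Nat.lt_pow_succ_log_self (by norm_num) Q
  have hJL : (J : ℝ) ≤ L := by
    have e1 : 2 ^ (Nat.log 2 Q) ≤ Q := Nat.pow_log_le_self 2 (by omega)
    have e2 : ((2 : ℝ)) ^ (Nat.log 2 Q) ≤ (x : ℝ) ^ ((101 : ℝ) / 200 - κ) :=
      le_trans (by exact_mod_cast e1) hQr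
    have e3 := Real.log_le_log (by positivity) e2
    rw [Real.log_pow, Real.log_rpow hxpos, ← hL] at e3
    have e4 : (0.6931471803 : ℝ) < Real.log 2 := Real.log_two_gt_d9
    have e5 : (0 : ℝ) ≤ (Nat.log 2 Q : ℕ) := Nat.cast_nonneg _
    have e6 : 0 ≤ κ * L := by positivity
    rw [hJ]
    push_cast
    nlinarith
  set b : ℝ := Real.sqrt M * x * L ^ 3 / 4 + M * x / L ^ (c + 1) with hb
  have hb0 : 0 ≤ b := by positivity
  have hblock : ∀ j : ℕ, j < J → 2 ^ j ≤ Q → ∑ q ∈ Ioc ((2 : ℕ) ^ j) (2 * (2 : ℕ) ^ j),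
      (∑ a ∈ T q, |err y q (a : ZMod q)|) ≤ b := by
    intro j _ hjM
    exact hb1 x (2 ^ j) hx1 Nat.one_le_two_pow (le_trans (by exact_mod_cast hjM) hQr) A hA hcard
      M hM T hT y hy
  have key := ext_dyadic (fun q => ∑ a ∈ T q, |err y q (a : ZMod q)|)
    (fun q => sum_nonneg fun a _ => abs_nonneg _) Q J hQJ
    (sum_eq_zero fun a _ => by rw [ext_err_one, abs_zero]) b hb0 hblock
  refine key.trans ((mul_le_mul_of_nonneg_right hJL hb0).trans (le_of_eq ?_))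
  rw [hb]
  have hLc : L ^ (c + 1) = L * L ^ c := by ring
  have hL0 : L ≠ 0 := hLpos.ne'
  have hLc0 : L ^ c ≠ 0 := pow_ne_zero _ hL0
  rw [hLc]
  field_simp

theorem dy (κ : ℝ) (h0 : 0 ≤ κ) (h1 : κ < 1 / 200) (c : ℕ) : ∃ x0 : ℕ, ∀ x : ℕ, x0 ≤ x →
    ∀ A : Finset ℤ, (∀ a ∈ A, |a| ≤ x) →
    (A.card : ℝ) ≤ (x : ℝ) ^ (κ + (1 / 200 - κ) / 200) →
    ∀ M : ℕ, 1 ≤ M → ∀ T : ℕ → Finset ℤ, Sel A M T → ∀ y : ℕ, y ≤ x →
    ∑ q ∈ Icc 1 (QQ κ x), ∑ a ∈ T q, |err y q (a : ZMod q)| ≤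
      Real.sqrt M * x * Real.log x ^ 4 + M * x / Real.log x ^ c := by
  classical
  obtain ⟨x1, hd1⟩ := dy_one κ h0 h1 (c + 1)
  refine ⟨max x1 (max 1 ⌈Real.exp 4⌉₊), fun x hx A hA hcard M hM T hT y hy => ?_⟩
  have hx1 : x1 ≤ x := (le_max_left _ _).trans hx
  have hx2 : 1 ≤ x := (le_max_left _ _).trans ((le_max_right _ _).trans hx)
  have hx3 : ⌈Real.exp 4⌉₊ ≤ x := (le_max_right _ _).trans ((le_max_right _ _).trans hx)
  have hx4 : Real.exp 4 ≤ x := (Nat.le_ceil _).trans (by exact_mod_cast hx3)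
  have hxpos : (0 : ℝ) < x := by exact_mod_cast hx2
  have hL4 : 4 ≤ Real.log x := by
    rw [Real.le_log_iff_exp_le hxpos]
    exact hx4
  have hd1' := hd1 x hx1
  set L := Real.log x with hLdef
  have hL0 : 0 < L := by linarith
  have part : ∀ (P : ℤ → Prop) [DecidablePred P], (∀ a a', |a| ≤ (x : ℤ) → |a'| ≤ (x : ℤ) →
      P a → P a' → |a' - a| ≤ (x : ℤ)) →
      ∑ q ∈ Icc 1 (QQ κ x), ∑ a ∈ (T q).filter P, |err y q (a : ZMod q)| ≤
        Real.sqrt M * x * L ^ 4 / 4 + M * x / L ^ (c + 1) := by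
    intro P _ hP
    refine hd1' (A.filter P) ⟨fun a ha => hA a (mem_filter.1 ha).1, fun a ha a' ha' =>
      hP a a' (hA a (mem_filter.1 ha).1) (hA a' (mem_filter.1 ha').1) (mem_filter.1 ha).2
        (mem_filter.1 ha').2⟩ ?_ M hM (fun q => (T q).filter P) ?_ y hy
    · refine le_trans ?_ hcard
      exact_mod_cast card_le_card (filter_subset _ _)
    · intro q
      obtain ⟨g1, g2, g3⟩ := hT q
      exact ⟨filter_subset_filter _ g1, (card_le_card (filter_subset _ _)).trans g2,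
        fun a ha => g3 a (mem_filter.1 ha).1⟩
  have hp := part (fun a => 0 ≤ a) (by
    intro a a' e1 e2 e3 e4
    rw [abs_le] at *
    constructor <;> linarith [e1.2, e2.2])
  have hn := part (fun a => ¬ 0 ≤ a) (by
    intro a a' e1 e2 e3 e4
    rw [not_le] at e3 e4
    rw [abs_le] at *
    constructor <;> linarith [e1.1, e2.1])
  have hsum : ∑ q ∈ Icc 1 (QQ κ x), ∑ a ∈ T q, |err y q (a : ZMod q)| =
      ∑ q ∈ Icc 1 (QQ κ x), ∑ a ∈ (T q).filter (fun a => 0 ≤ a), |err y q (a : ZMod q)| +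
      ∑ q ∈ Icc 1 (QQ κ x), ∑ a ∈ (T q).filter (fun a => ¬ 0 ≤ a), |err y q (a : ZMod q)| := by
    rw [← sum_add_distrib]
    exact sum_congr rfl fun q _ => (sum_filter_add_sum_filter_not _ _ _).symm
  rw [hsum]
  have g3 : 0 ≤ Real.sqrt M * x * L ^ 4 := by positivity
  have g5 : (M : ℝ) * x / L ^ (c + 1) ≤ M * x / L ^ c / 2 := by
    have e1 : (M : ℝ) * x / L ^ (c + 1) = M * x / L ^ c * (1 / L) := by
      rw [pow_succ]
      field_simp
    have e2 : 1 / L ≤ 1 / 2 := one_div_le_one_div_of_le (by norm_num) (by linarith)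
    have e3 : 0 ≤ (M : ℝ) * x / L ^ c := by positivity
    rw [e1]
    calc (M : ℝ) * x / L ^ c * (1 / L) ≤ M * x / L ^ c * (1 / 2) :=
          mul_le_mul_of_nonneg_left e2 e3
      _ = M * x / L ^ c / 2 := by ring
  linarith

end Pool.Agent.H35.KM

end

section

/-!
# The maximum over the endpoint

As `few_max` of KF (Mxb.lean): `L = log x`, `G = ⌈L^{c+4}⌉`, `grid`, `phi_inv_sum` and `dy (2c+6)` at
the points `y_j = ⌊jx/G⌋ ≤ x`: the sum is at most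
`(G+1)(√M x L⁴ + M x/L^{2c+6}) + M (x/G + 1) 4L²`, with `G + 1 ≤ 2 L^{c+4}`: at most
`√M x L^{c+9} + M x (2/L^{c+2} + 8/L^{c+2})`.
-/

set_option autoImplicit false

namespace Pool.Agent.H35.KM

open Finset
open Pool.Agent.H91.EHA (err)
open Pool.Agent.H80.KF

private lemma mx_sum (κ : ℝ) (h0 : 0 ≤ κ) (x G M : ℕ) (hx : 3 ≤ x) (hG : 1 ≤ G)
    (T : ℕ → Finset ℤ) (hT : ∀ q, (T q).card ≤ M) :
    ∑ q ∈ Icc 1 (QQ κ x), ∑ a ∈ T q, ME x q (a : ZMod q) ≤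
      ∑ j ∈ range (G + 1), ∑ q ∈ Icc 1 (QQ κ x), ∑ a ∈ T q, |err (j * x / G) q (a : ZMod q)| +
        M * (((x : ℝ) / G + 1) * (4 * Real.log x ^ 2)) := by
  have hx1 : 1 ≤ x := by omega
  have hxr : (1 : ℝ) ≤ x := by exact_mod_cast hx1
  set S := Icc 1 (QQ κ x) with hS
  have hSx : S ⊆ Icc 1 x := by
    intro q hq
    rw [hS, mem_Icc] at hq
    rw [mem_Icc]
    refine ⟨hq.1, hq.2.trans ?_⟩
    have h1 : ((QQ κ x : ℕ) : ℝ) ≤ x := by
      unfold QQ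
      refine (Nat.floor_le (by positivity)).trans ?_
      calc (x : ℝ) ^ ((101 : ℝ) / 200 - κ) ≤ (x : ℝ) ^ (1 : ℝ) :=
            Real.rpow_le_rpow_of_exponent_le hxr (by linarith only [h0])
        _ = x := Real.rpow_one _
    exact_mod_cast h1
  have h4 : 0 ≤ (x : ℝ) / G + 1 := by positivity
  have h1 : ∀ q ∈ S, ∑ a ∈ T q, ME x q (a : ZMod q) ≤
      ∑ j ∈ range (G + 1), ∑ a ∈ T q, |err (j * x / G) q (a : ZMod q)| +
        M * (((x : ℝ) / G + 1) * (1 / (Nat.totient q : ℝ))) := by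
    intro q hq
    have hq1 : 1 ≤ q := (mem_Icc.1 (hSx hq)).1
    have e1 : ∀ a ∈ T q, ME x q (a : ZMod q) ≤
        ∑ j ∈ range (G + 1), |err (j * x / G) q (a : ZMod q)| +
          ((x : ℝ) / G + 1) * (1 / (Nat.totient q : ℝ)) := by
      intro a _
      unfold ME
      apply Finset.sup'_le
      intro y hy
      rw [mem_range] at hy
      have h2 := grid x G q hx1 hG hq1 (a : ZMod q) y (by omega)
      rw [mul_one_div]
      exact h2
    refine (sum_le_sum e1).trans ?_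
    rw [sum_add_distrib, sum_comm, sum_const, nsmul_eq_mul]
    have e2 : ((T q).card : ℝ) ≤ M := by exact_mod_cast hT q
    have e3 : 0 ≤ ((x : ℝ) / G + 1) * (1 / (Nat.totient q : ℝ)) := by positivity
    have e4 := mul_le_mul_of_nonneg_right e2 e3
    linarith only [e4]
  refine (sum_le_sum h1).trans ?_
  rw [sum_add_distrib, sum_comm, ← mul_sum, ← mul_sum]
  have h3 : ∑ q ∈ S, 1 / (Nat.totient q : ℝ) ≤ 4 * Real.log x ^ 2 :=
    (sum_le_sum_of_subset_of_nonneg hSx (fun q _ _ => by positivity)).trans (phi_inv_sum x hx)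
  have h5 : (M : ℝ) * (((x : ℝ) / G + 1) * ∑ q ∈ S, 1 / (Nat.totient q : ℝ)) ≤
      M * (((x : ℝ) / G + 1) * (4 * Real.log x ^ 2)) :=
    mul_le_mul_of_nonneg_left (mul_le_mul_of_nonneg_left h3 h4) (Nat.cast_nonneg M)
  linarith only [h5]

private lemma mx_ev (c : ℕ) : ∃ x0 : ℕ, ∀ x : ℕ, x0 ≤ x → 4 ≤ Real.log x ∧ 3 ≤ x ∧
    Real.log x ^ (c + 4) ≤ x := by
  have h1 : ∀ᶠ x : ℝ in Filter.atTop, 4 ≤ Real.log x :=
    Real.tendsto_log_atTop.eventually_ge_atTop 4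
  have h2 := (isLittleO_log_rpow_rpow_atTop (((c + 4 : ℕ) : ℝ))
    (by norm_num : (0 : ℝ) < (1 : ℝ))).bound (by norm_num : (0 : ℝ) < 1)
  have h3 := tendsto_natCast_atTop_atTop.eventually (h1.and h2)
  obtain ⟨x0, hx0⟩ := Filter.eventually_atTop.1 h3
  refine ⟨max x0 3, fun x hx => ?_⟩
  obtain ⟨h4, h5⟩ := hx0 x ((le_max_left _ _).trans hx)
  refine ⟨h4, (le_max_right _ _).trans hx, ?_⟩
  rw [Real.rpow_natCast, Real.rpow_one] at h5
  have h6 : (0 : ℝ) ≤ Real.log x ^ (c + 4) := by positivity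
  rw [Real.norm_of_nonneg h6, Real.norm_of_nonneg (Nat.cast_nonneg x)] at h5
  linarith only [h5]

theorem mx (κ : ℝ) (h0 : 0 ≤ κ) (h1 : κ < 1 / 200) (c : ℕ) : ∃ x0 : ℕ, ∀ x : ℕ, x0 ≤ x →
    ∀ A : Finset ℤ, (∀ a ∈ A, |a| ≤ x) →
    (A.card : ℝ) ≤ (x : ℝ) ^ (κ + (1 / 200 - κ) / 200) →
    ∀ M : ℕ, 1 ≤ M → ∀ T : ℕ → Finset ℤ, Sel A M T →
    ∑ q ∈ Icc 1 (QQ κ x), ∑ a ∈ T q, ME x q (a : ZMod q) ≤
      Real.sqrt M * x * Real.log x ^ (c + 9) + M * x / Real.log x ^ c := by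
  obtain ⟨x1, h1⟩ := dy κ h0 h1 (2 * c + 6)
  obtain ⟨x2, h2⟩ := mx_ev c
  refine ⟨max x1 x2, fun x hx A hA hAc M hM T hT => ?_⟩
  obtain ⟨hL4, hx3, hLx⟩ := h2 x ((le_max_right _ _).trans hx)
  have h1' := h1 x ((le_max_left _ _).trans hx) A hA hAc M hM T hT
  have hTM : ∀ q, (T q).card ≤ M := fun q => (hT q).2.1
  set L := Real.log x with hLdef
  have hL0 : 0 < L := by linarith only [hL4]
  have hxr : (0 : ℝ) < x := by
    have : 0 < x := by omega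
    exact_mod_cast this
  set G := ⌈L ^ (c + 4)⌉₊ with hGdef
  have hG1 : L ^ (c + 4) ≤ G := Nat.le_ceil _
  have hLp : (4 : ℝ) ≤ L ^ (c + 4) := by
    calc (4 : ℝ) ≤ L := hL4
      _ = L ^ 1 := (pow_one L).symm
      _ ≤ L ^ (c + 4) := pow_le_pow_right₀ (by linarith only [hL4]) (by omega)
  have hLp0 : 0 < L ^ (c + 4) := by linarith only [hLp]
  have hG2 : (G : ℝ) < L ^ (c + 4) + 1 := Nat.ceil_lt_add_one hLp0.le
  have hG0 : (0 : ℝ) < G := by linarith only [hG1, hLp]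
  have hG : 1 ≤ G := by exact_mod_cast hG0
  refine (mx_sum κ h0 x G M hx3 hG T hTM).trans ?_
  rw [← hLdef]
  have h4 : ∑ j ∈ range (G + 1), ∑ q ∈ Icc 1 (QQ κ x), ∑ a ∈ T q,
      |err (j * x / G) q (a : ZMod q)| ≤
      (G + 1) * (Real.sqrt M * x * L ^ 4 + M * x / L ^ (2 * c + 6)) := by
    have h5 : ∀ j ∈ range (G + 1), ∑ q ∈ Icc 1 (QQ κ x), ∑ a ∈ T q,
        |err (j * x / G) q (a : ZMod q)| ≤
        Real.sqrt M * x * L ^ 4 + M * x / L ^ (2 * c + 6) := by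
      intro j hj
      rw [mem_range] at hj
      apply h1'
      apply Nat.div_le_of_le_mul
      exact Nat.mul_le_mul_right x (by omega)
    refine (sum_le_sum h5).trans ?_
    rw [sum_const, card_range, nsmul_eq_mul]
    push_cast
    exact le_rfl
  have h6 : ((G : ℝ) + 1) ≤ 2 * L ^ (c + 4) := by linarith only [hLp, hG2]
  set s := Real.sqrt M with hs
  have hs0 : 0 ≤ s := Real.sqrt_nonneg _
  have hK0 : (0 : ℝ) ≤ M := Nat.cast_nonneg _
  have h7 : ((G : ℝ) + 1) * (s * x * L ^ 4 + M * x / L ^ (2 * c + 6)) ≤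
      s * x * L ^ (c + 9) + 2 * (M * x / L ^ (c + 2)) := by
    have e1 : ((G : ℝ) + 1) * (s * x * L ^ 4 + M * x / L ^ (2 * c + 6)) ≤
        (2 * L ^ (c + 4)) * (s * x * L ^ 4 + M * x / L ^ (2 * c + 6)) :=
      mul_le_mul_of_nonneg_right h6 (by positivity)
    have e2 : (2 * L ^ (c + 4)) * (s * x * L ^ 4 + M * x / L ^ (2 * c + 6)) =
        2 * (s * x * L ^ (c + 8)) + 2 * (M * x / L ^ (c + 2)) := by
      have e3 : L ^ (2 * c + 6) = L ^ (c + 4) * L ^ (c + 2) := by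
        rw [← pow_add]
        congr 1
        ring
      have e4 : L ^ (c + 8) = L ^ (c + 4) * L ^ 4 := by
        rw [← pow_add]
      rw [e3, e4]
      field_simp
    have e5 : 2 * (s * x * L ^ (c + 8)) ≤ s * x * L ^ (c + 9) := by
      have e6 : L ^ (c + 9) = L ^ (c + 8) * L := pow_succ _ _
      rw [e6]
      have e7 : 0 ≤ s * x * L ^ (c + 8) := by positivity
      nlinarith only [e7, hL4]
    linarith only [e1, e2, e5]
  have h8 : (M : ℝ) * (((x : ℝ) / G + 1) * (4 * L ^ 2)) ≤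
      8 * (M * x / L ^ (c + 2)) := by
    have e1 : (x : ℝ) / G ≤ x / L ^ (c + 4) :=
      div_le_div_of_nonneg_left hxr.le hLp0 hG1
    have e2 : (1 : ℝ) ≤ x / L ^ (c + 4) := by
      rw [le_div_iff₀ hLp0, one_mul]
      exact hLx
    have e3 : ((x : ℝ) / G + 1) ≤ 2 * (x / L ^ (c + 4)) := by linarith only [e1, e2]
    have e4 : ((x : ℝ) / G + 1) * (4 * L ^ 2) ≤ 2 * (x / L ^ (c + 4)) * (4 * L ^ 2) :=
      mul_le_mul_of_nonneg_right e3 (by positivity)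
    have e5 : 2 * ((x : ℝ) / L ^ (c + 4)) * (4 * L ^ 2) = 8 * (x / L ^ (c + 2)) := by
      have e6 : L ^ (c + 4) = L ^ (c + 2) * L ^ 2 := by
        rw [← pow_add]
      rw [e6]
      field_simp
      ring
    calc (M : ℝ) * (((x : ℝ) / G + 1) * (4 * L ^ 2)) ≤ M * (8 * (x / L ^ (c + 2))) := by
          rw [← e5]
          exact mul_le_mul_of_nonneg_left e4 hK0
      _ = 8 * (M * x / L ^ (c + 2)) := by ring
  have h9 : 10 * (M * x / L ^ (c + 2)) ≤ M * x / L ^ c := by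
    have e1 : (M : ℝ) * x / L ^ c = L ^ 2 * (M * x / L ^ (c + 2)) := by
      have e6 : L ^ (c + 2) = L ^ c * L ^ 2 := by
        rw [← pow_add]
      rw [e6]
      field_simp
    rw [e1]
    have e2 : 0 ≤ (M : ℝ) * x / L ^ (c + 2) := by positivity
    have e3 : (10 : ℝ) ≤ L ^ 2 := by nlinarith only [hL4]
    exact mul_le_mul_of_nonneg_right e3 e2
  linarith only [h4, h7, h8, h9]

end Pool.Agent.H35.KM

end

section

/-!
# Disjoint bad sets

`Good κ c x A`: for every choice of `r q ∈ A` the sum over `q ≤ x^{101/200 - κ}`, `(r q, q) = 1`, of the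
largest error is at most `x/(log x)^c`.
`fam_card`: if a family `F` of pairwise disjoint bad sets had more than `L^{4c+21}` members, take `M`
of them, `M = ⌊L^{4c+21}⌋ + 1`, with bad choices `r_B`, `B ∈ F'`; `A = ⋃ B`,
`T q = {r_B q : B ∈ F', (r_B q, q) = 1}`: `#A ≤ M x^κ ≤ x^{κ + ε₀/200}`, `Sel A M T`, and
`∑_q ∑_{a ∈ T q} ME = ∑_B ∑_q ME(r_B q) > M x/L^c` (`r_B q` are different for different `B`).
`mx (c+1)`: `M x/L^c ≤ √M x L^{c+10} + M x/L^{c+1}`, so `√M (1 - 1/L) ≤ L^{2c+10}`, `M ≤ L^{4c+21}`.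
`fam_exc`: the union of a maximal disjoint family of bad sets.
-/

set_option autoImplicit false

namespace Pool.Agent.H35.KM

open Finset
open Pool.Agent.H91.EHA (err)
open Pool.Agent.H80.KF

/-- the sum over the moduli of the largest errors is small for every choice of residues from `A` -/
def Good (κ : ℝ) (c x : ℕ) (A : Finset ℤ) : Prop :=
  ∀ r : ℕ → ℤ, (∀ q, r q ∈ A) →
    ∑ q ∈ (Icc 1 (QQ κ x)).filter (fun q : ℕ => IsCoprime (r q) (q : ℤ)),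
      ME x q (r q : ZMod q) ≤ x / Real.log x ^ c

private lemma fam_ev (κ : ℝ) (h1 : κ < 1 / 200) (c : ℕ) : ∃ x0 : ℕ, ∀ x : ℕ, x0 ≤ x →
    4 ≤ Real.log x ∧ 1 ≤ x ∧
      2 * Real.log x ^ (4 * c + 21) ≤ (x : ℝ) ^ ((1 / 200 - κ) / 200) := by
  have h2 : ∀ᶠ x : ℝ in Filter.atTop, 4 ≤ Real.log x :=
    Real.tendsto_log_atTop.eventually_ge_atTop 4
  have h3 := (isLittleO_log_rpow_rpow_atTop (((4 * c + 21 : ℕ) : ℝ))
    (by linarith : (0 : ℝ) < (1 / 200 - κ) / 200)).bound (by norm_num : (0 : ℝ) < 1 / 2)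
  have h4 := tendsto_natCast_atTop_atTop.eventually (h2.and h3)
  obtain ⟨x0, hx0⟩ := Filter.eventually_atTop.1 h4
  refine ⟨max x0 1, fun x hx => ?_⟩
  obtain ⟨h5, h6⟩ := hx0 x ((le_max_left _ _).trans hx)
  refine ⟨h5, (le_max_right _ _).trans hx, ?_⟩
  rw [Real.rpow_natCast] at h6
  have h7 : (0 : ℝ) ≤ Real.log x ^ (4 * c + 21) := by positivity
  have h8 : (0 : ℝ) ≤ (x : ℝ) ^ ((1 / 200 - κ) / 200) := by positivity
  rw [Real.norm_of_nonneg h7, Real.norm_of_nonneg h8] at h6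
  linarith

/-- the numerical contradiction -/
private lemma fam_alg (x L M : ℝ) (c : ℕ) (hx : 0 < x) (hL : 4 ≤ L) (hM : 0 < M)
    (h : M * (x / L ^ c) ≤ Real.sqrt M * x * L ^ (c + 1 + 9) + M * x / L ^ (c + 1)) :
    M ≤ L ^ (4 * c + 21) := by
  have hL0 : 0 < L := by linarith
  set t := Real.sqrt M with ht
  have ht0 : 0 < t := Real.sqrt_pos.2 hM
  have htt : t * t = M := Real.mul_self_sqrt hM.le
  rw [← htt] at h ⊢
  have h6 : t * t * L ≤ t * L ^ (2 * c + 11) + t * t := by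
    have e1 : t * t * (x / L ^ c) * (L ^ (c + 1) / x) = t * t * L := by
      field_simp
      ring
    have e2 : (t * x * L ^ (c + 1 + 9) + t * t * x / L ^ (c + 1)) * (L ^ (c + 1) / x) =
        t * L ^ (2 * c + 11) + t * t := by
      have e6 : L ^ (2 * c + 11) = L ^ (c + 1 + 9) * L ^ (c + 1) := by
        rw [← pow_add]
        congr 1
        ring
      rw [e6]
      field_simp
    have e3 : 0 ≤ L ^ (c + 1) / x := by positivity
    have e4 := mul_le_mul_of_nonneg_right h e3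
    rw [e1, e2] at e4
    exact e4
  have h7 : t * (L - 1) ≤ L ^ (2 * c + 11) := by
    have e1 : t * (t * (L - 1)) ≤ t * L ^ (2 * c + 11) := by nlinarith
    exact le_of_mul_le_mul_left e1 ht0
  have h8 : 0 < t * (L - 1) := mul_pos ht0 (by linarith)
  have h9 : (t * (L - 1)) * (t * (L - 1)) ≤ L ^ (2 * c + 11) * L ^ (2 * c + 11) :=
    mul_le_mul h7 h7 h8.le (by positivity)
  have h10 : L ^ (2 * c + 11) * L ^ (2 * c + 11) = L ^ (4 * c + 21) * L := by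
    rw [← pow_add, ← pow_succ]
    congr 1
    ring
  have h11 : L ≤ (L - 1) * (L - 1) := by nlinarith
  have h12 : t * t * L ≤ L ^ (4 * c + 21) * L := by
    calc t * t * L ≤ t * t * ((L - 1) * (L - 1)) :=
          mul_le_mul_of_nonneg_left h11 (by positivity)
      _ = (t * (L - 1)) * (t * (L - 1)) := by ring
      _ ≤ L ^ (4 * c + 21) * L := by rw [← h10]; exact h9
  exact le_of_mul_le_mul_right h12 hL0

theorem fam_card (κ : ℝ) (h0 : 0 ≤ κ) (h1 : κ < 1 / 200) (c : ℕ) : ∃ x0 : ℕ, ∀ x : ℕ, x0 ≤ x →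
    ∀ F : Finset (Finset ℤ), (∀ A ∈ F, ∀ B ∈ F, A ≠ B → Disjoint A B) →
    (∀ A ∈ F, (∀ a ∈ A, |a| ≤ x) ∧ (A.card : ℝ) ≤ (x : ℝ) ^ κ ∧ ¬ Good κ c x A) →
    (F.card : ℝ) ≤ Real.log x ^ (4 * c + 21) := by
  classical
  obtain ⟨x1, hmx⟩ := mx κ h0 h1 (c + 1)
  obtain ⟨x2, hev⟩ := fam_ev κ h1 c
  refine ⟨max x1 x2, fun x hx F hdis hF => ?_⟩
  have hmx' := hmx x ((le_max_left _ _).trans hx)
  obtain ⟨hL4, hx1, hLx⟩ := hev x ((le_max_right _ _).trans hx)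
  set L := Real.log x with hL
  have hL0 : 0 < L := by linarith
  have hxr : (0 : ℝ) < x := by exact_mod_cast hx1
  by_contra hcon
  push Not at hcon
  have hLp : (0 : ℝ) ≤ L ^ (4 * c + 21) := by positivity
  set M := ⌊L ^ (4 * c + 21)⌋₊ + 1 with hM
  have hMF : M ≤ F.card := (Nat.floor_lt hLp).2 hcon
  have hM1 : 1 ≤ M := by omega
  have hMgt : L ^ (4 * c + 21) < M := by
    rw [hM]
    push_cast
    exact Nat.lt_floor_add_one _
  have hMle : (M : ℝ) ≤ (x : ℝ) ^ ((1 / 200 - κ) / 200) := by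
    have e1 : (M : ℝ) ≤ L ^ (4 * c + 21) + 1 := by
      rw [hM]
      push_cast
      have := Nat.floor_le hLp
      linarith
    have e2 : (1 : ℝ) ≤ L ^ (4 * c + 21) := one_le_pow₀ (by linarith)
    linarith
  obtain ⟨F', hF'F, hF'c⟩ := Finset.exists_subset_card_eq hMF
  have hr : ∀ B : Finset ℤ, ∃ r : ℕ → ℤ, B ∈ F' → (∀ q, r q ∈ B) ∧ x / L ^ c <
      ∑ q ∈ (Icc 1 (QQ κ x)).filter (fun q : ℕ => IsCoprime (r q) (q : ℤ)),
        ME x q (r q : ZMod q) := by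
    intro B
    by_cases hB : B ∈ F'
    · have h2 := (hF B (hF'F hB)).2.2
      unfold Good at h2
      push Not at h2
      obtain ⟨r, h3, h4⟩ := h2
      exact ⟨r, fun _ => ⟨h3, h4⟩⟩
    · exact ⟨fun _ => 0, fun h => absurd h hB⟩
  choose r hr using hr
  set A : Finset ℤ := F'.biUnion id with hA
  set T : ℕ → Finset ℤ := fun q =>
    (F'.filter (fun B => IsCoprime (r B q) (q : ℤ))).image (fun B => r B q) with hT
  have hinj : ∀ q : ℕ, ∀ B ∈ F', ∀ B' ∈ F', r B q = r B' q → B = B' := by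
    intro q B hB B' hB' h
    by_contra hne
    have h2 := hdis B (hF'F hB) B' (hF'F hB') hne
    exact Finset.disjoint_left.1 h2 ((hr B hB).1 q) (h ▸ (hr B' hB').1 q)
  have hAx : ∀ a ∈ A, |a| ≤ x := by
    intro a ha
    rw [hA, mem_biUnion] at ha
    obtain ⟨B, hB, haB⟩ := ha
    exact (hF B (hF'F hB)).1 a haB
  have hSel : Sel A M T := by
    intro q
    refine ⟨?_, ?_, ?_⟩
    · intro a ha
      rw [hT] at ha
      simp only [mem_image, mem_filter] at ha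
      obtain ⟨B, ⟨hB, -⟩, rfl⟩ := ha
      rw [hA, mem_biUnion]
      exact ⟨B, hB, (hr B hB).1 q⟩
    · rw [← hF'c]
      exact card_image_le.trans (card_filter_le _ _)
    · intro a ha
      rw [hT] at ha
      simp only [mem_image, mem_filter] at ha
      obtain ⟨B, ⟨-, hc⟩, rfl⟩ := ha
      exact hc
  have hAc : (A.card : ℝ) ≤ (x : ℝ) ^ (κ + (1 / 200 - κ) / 200) := by
    have e1 : A.card ≤ ∑ B ∈ F', B.card := card_biUnion_le
    have e2 : (A.card : ℝ) ≤ ∑ B ∈ F', (B.card : ℝ) := by exact_mod_cast e1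
    have e3 : ∑ B ∈ F', (B.card : ℝ) ≤ ∑ _B ∈ F', (x : ℝ) ^ κ :=
      sum_le_sum fun B hB => (hF B (hF'F hB)).2.1
    rw [sum_const, hF'c, nsmul_eq_mul] at e3
    rw [Real.rpow_add hxr]
    calc (A.card : ℝ) ≤ M * (x : ℝ) ^ κ := e2.trans e3
      _ ≤ (x : ℝ) ^ ((1 / 200 - κ) / 200) * (x : ℝ) ^ κ := by gcongr
      _ = (x : ℝ) ^ κ * (x : ℝ) ^ ((1 / 200 - κ) / 200) := mul_comm _ _
  have hup := hmx' A hAx hAc M hM1 T hSel
  have hsum : ∑ q ∈ Icc 1 (QQ κ x), ∑ a ∈ T q, ME x q (a : ZMod q) =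
      ∑ B ∈ F', ∑ q ∈ (Icc 1 (QQ κ x)).filter (fun q : ℕ => IsCoprime (r B q) (q : ℤ)),
        ME x q (r B q : ZMod q) := by
    have e1 : ∀ q ∈ Icc 1 (QQ κ x), ∑ a ∈ T q, ME x q (a : ZMod q) =
        ∑ B ∈ F', if IsCoprime (r B q) (q : ℤ) then ME x q (r B q : ZMod q) else 0 := by
      intro q _
      rw [hT, ← sum_filter]
      apply sum_image
      intro B hB B' hB' h
      rw [mem_coe, mem_filter] at hB hB'
      exact hinj q B hB.1 B' hB'.1 h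
    rw [sum_congr rfl e1, sum_comm]
    refine sum_congr rfl fun B _ => ?_
    rw [sum_filter]
  have hlow : (M : ℝ) * (x / L ^ c) ≤ ∑ q ∈ Icc 1 (QQ κ x), ∑ a ∈ T q, ME x q (a : ZMod q) := by
    rw [hsum, ← hF'c, ← nsmul_eq_mul]
    exact card_nsmul_le_sum F' _ _ fun B hB => (hr B hB).2.le
  have hfin := fam_alg x L M c hxr hL4 (by exact_mod_cast hM1) (hlow.trans hup)
  linarith

end Pool.Agent.H35.KM

end
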