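import Pool.Agent.H94.EH.M27
import Pool.Agent.H94.EH.M44
import Pool.Agent.H94.EH.M49

/-! The parts of this file: H80.LV.GInt, H80.LV.HM, H88.PSI.BoxL, H88.PSI.BoxI, H88.PSI.BoxC. -/

section

/-!
# LV GInt: the kernel integral

`D(u) = ∑_{n ≤ K} ee(u log n)`, `x^κ ≤ K ≤ x`.  `ks1 κ` (with `β = 0`, `a = 0`, `b = K`) gives `δ, C ≥ 1, x1` with
`|D(u)| ≤ C K (1/|u| + x^{-δ})` for `1 ≤ |u| ≤ x^3`; trivially `|D(u)| ≤ K`.  Hence for `|u| ≤ 2 x^2 ≤ x^3`
`|D(u)| ≤ 2 C K / (1 + |u|) + C K x^{-δ}`.  For `t ∈ B`: `∫_B 1/(1+|t-s|) ds ≤ ∫_{|u| ≤ 2 x^2} du/(1+|u|) = 2 log(1 + 2 x^2) ≤ 6 L` and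
`∫_B x^{-δ} ≤ x^{η - δ} ≤ 1` with `η = δ`.  So the integral is `≤ 12 C K L + C K ≤ K L^2` for large `x`.
(To avoid computing the integral one may also compare on dyadic pieces or use
`∫_0^Y du/(1+u) = log(1+Y)`, `integral_one_div_of_pos` after a shift.)
-/

set_option autoImplicit false

namespace Pool.Agent.H80.LV

open Finset MeasureTheory
open Pool.Agent.H91.PK (ee)

private theorem GInt_log (t Y : ℝ) (hY : 0 ≤ Y) :
    ∫ s in (t - Y)..(t + Y), 1 / (1 + |t - s|) = 2 * Real.log (1 + Y) := by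
  have hcont : Continuous (fun s : ℝ => 1 / (1 + |t - s|)) := by
    refine continuous_const.div (by fun_prop) fun s => ?_
    positivity
  have h1 : ∫ s in (t - Y)..t, 1 / (1 + |t - s|) = Real.log (1 + Y) := by
    have e1 : ∫ s in (t - Y)..t, 1 / (1 + |t - s|) =
        ∫ s in (t - Y)..t, (fun u : ℝ => 1 / u) (1 + t - s) := by
      refine intervalIntegral.integral_congr fun s hs => ?_
      rw [Set.uIcc_of_le (by linarith), Set.mem_Icc] at hs
      simp only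
      rw [abs_of_nonneg (by linarith)]
      congr 1
      ring
    rw [e1, intervalIntegral.integral_comp_sub_left, integral_one_div_of_pos (by linarith)
      (by linarith)]
    congr 1
    rw [show (1 : ℝ) + t - t = 1 by ring, div_one]
    ring
  have h2 : ∫ s in t..(t + Y), 1 / (1 + |t - s|) = Real.log (1 + Y) := by
    have e1 : ∫ s in t..(t + Y), 1 / (1 + |t - s|) =
        ∫ s in t..(t + Y), (fun u : ℝ => 1 / u) (s - (t - 1)) := by
      refine intervalIntegral.integral_congr fun s hs => ?_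
      rw [Set.uIcc_of_le (by linarith), Set.mem_Icc] at hs
      simp only
      rw [abs_of_nonpos (by linarith)]
      congr 1
      ring
    rw [e1, intervalIntegral.integral_comp_sub_right, integral_one_div_of_pos (by linarith only)
      (by linarith)]
    congr 1
    rw [show t - (t - 1) = 1 by ring, div_one]
    ring
  rw [← intervalIntegral.integral_add_adjacent_intervals (b := t)
    (hcont.intervalIntegrable _ _) (hcont.intervalIntegrable _ _), h1, h2]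
  ring

theorem g_int (κ : ℝ) (hκ : 0 < κ) : ∃ η : ℝ, 0 < η ∧ η ≤ 1 ∧ ∃ x0 : ℕ, ∀ x : ℕ, x0 ≤ x →
    ∀ (K : ℕ) (B : Set ℝ), (x : ℝ) ^ κ ≤ K → K ≤ x → MeasurableSet B →
      B ⊆ Set.Icc (-((x : ℝ) ^ (2 : ℕ))) ((x : ℝ) ^ (2 : ℕ)) → volume.real B ≤ (x : ℝ) ^ η →
      ∀ t ∈ B, ∫ s in B, ‖∑ n ∈ Icc 1 K, ee ((t - s) * Real.log n)‖ ≤ K * Real.log x ^ 2 := by
  obtain ⟨δ, C, hδ, hδ1, hC, x1, hx1⟩ := Pool.Agent.H35.W.ks1 κ hκ
  obtain ⟨x2, hx2⟩ := log_ge (13 * C)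
  refine ⟨δ, hδ, hδ1, max (max x1 x2) 3, fun x hx K B hK hKx hB hBs hvol t ht => ?_⟩
  have hxx1 : x1 ≤ x := le_trans (le_trans (le_max_left _ _) (le_max_left _ _)) hx
  have hxx2 : x2 ≤ x := le_trans (le_trans (le_max_right _ _) (le_max_left _ _)) hx
  have hx3 : 3 ≤ x := le_trans (le_max_right _ _) hx
  have hxr : (3 : ℝ) ≤ x := by exact_mod_cast hx3
  have hx0 : (0 : ℝ) < x := by linarith only [hxr]
  have hL := hx2 x hxx2
  set L : ℝ := Real.log x with hLdef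
  have hL1 : 13 ≤ L := by linarith only [hC, hL]
  have hK0 : (0 : ℝ) ≤ K := Nat.cast_nonneg _
  set Y : ℝ := 2 * (x : ℝ) ^ 2 with hY
  have hY0 : 0 ≤ Y := by positivity
  have hYx : 1 + Y ≤ (x : ℝ) ^ 3 := by
    rw [hY]
    nlinarith only [hxr, sq_nonneg ((x : ℝ) - 3)]
  have hxd : 0 ≤ (x : ℝ) ^ (-δ) := Real.rpow_nonneg hx0.le _
  -- pointwise bound
  have hpt : ∀ s ∈ B, ‖∑ n ∈ Icc 1 K, ee ((t - s) * Real.log n)‖ ≤
      2 * C * K * (1 / (1 + |t - s|)) + C * K * (x : ℝ) ^ (-δ) := by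
    intro s hs
    have hs1 := hBs hs
    have ht1 := hBs ht
    rw [Set.mem_Icc] at hs1 ht1
    have habs : |t - s| ≤ Y := by
      rw [hY, abs_le]
      constructor <;> linarith only [hs1, ht1, hs1.1, hs1.2, ht1.1, ht1.2]
    rcases lt_or_ge |t - s| 1 with h | h
    · have h1 : ‖∑ n ∈ Icc 1 K, ee ((t - s) * Real.log n)‖ ≤ K := by
        refine (norm_sum_le _ _).trans ?_
        refine (Finset.sum_le_card_nsmul _ _ 1 fun n _ =>
          (Pool.Agent.H91.PK.LSa_norm_ee _).le).trans ?_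
        rw [Nat.card_Icc, nsmul_eq_mul, mul_one, Nat.add_sub_cancel]
      have h2 : 1 ≤ 2 * (1 / (1 + |t - s|)) := by
        rw [mul_one_div, le_div_iff₀ (by positivity)]
        linarith only [h]
      have h3 : (0 : ℝ) ≤ C * K * (x : ℝ) ^ (-δ) := by positivity
      have h4 : (K : ℝ) ≤ 2 * C * K * (1 / (1 + |t - s|)) := by
        calc (K : ℝ) = K * 1 := (mul_one _).symm
          _ ≤ K * (2 * (1 / (1 + |t - s|))) := mul_le_mul_of_nonneg_left h2 hK0
          _ = 1 * (2 * K * (1 / (1 + |t - s|))) := by ring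
          _ ≤ C * (2 * K * (1 / (1 + |t - s|))) :=
              mul_le_mul_of_nonneg_right hC (by positivity)
          _ = _ := by ring
      linarith only [h1, h3, h4]
    · have h1 := hx1 x hxx1 K 0 K 0 (t - s) hK hKx le_rfl le_rfl zero_le_one h
        (habs.trans (by linarith only [hYx]))
      simp only [add_zero] at h1
      have e : Ioc 0 K = Icc 1 K := by
        ext n
        simp only [mem_Ioc, mem_Icc]
        omega
      rw [e] at h1
      refine h1.trans ?_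
      have h2 : 1 / |t - s| ≤ 2 * (1 / (1 + |t - s|)) := by
        rw [mul_one_div, div_le_div_iff₀ (by linarith only [h]) (by positivity)]
        linarith only [h]
      calc C * K * (1 / |t - s| + (x : ℝ) ^ (-δ)) ≤
            C * K * (2 * (1 / (1 + |t - s|)) + (x : ℝ) ^ (-δ)) :=
            mul_le_mul_of_nonneg_left (by linarith only [h2]) (by positivity)
        _ = _ := by ring
  have hcee : Continuous (fun s : ℝ => ‖∑ n ∈ Icc 1 K, ee ((t - s) * Real.log n)‖) := by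
    unfold ee
    fun_prop
  have hcg0 : Continuous (fun s : ℝ => 1 / (1 + |t - s|)) := by
    refine continuous_const.div (by fun_prop) fun s => ?_
    positivity
  have hcg : Continuous (fun s : ℝ => 2 * C * K * (1 / (1 + |t - s|))) :=
    continuous_const.mul hcg0
  have hi1 : IntegrableOn (fun s : ℝ => ‖∑ n ∈ Icc 1 K, ee ((t - s) * Real.log n)‖) B :=
    (hcee.continuousOn.integrableOn_Icc).mono_set hBs
  have hi2 : IntegrableOn (fun s : ℝ => 2 * C * K * (1 / (1 + |t - s|))) B :=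
    (hcg.continuousOn.integrableOn_Icc).mono_set hBs
  have hi3 : IntegrableOn (fun _ : ℝ => C * K * (x : ℝ) ^ (-δ)) B :=
    (continuous_const.continuousOn.integrableOn_Icc).mono_set hBs
  refine (setIntegral_mono_on hi1 (hi2.add hi3) hB hpt).trans ?_
  have e1 : ∫ s in B, (2 * C * K * (1 / (1 + |t - s|)) + C * K * (x : ℝ) ^ (-δ)) =
      2 * C * K * (∫ s in B, 1 / (1 + |t - s|)) + volume.real B * (C * K * (x : ℝ) ^ (-δ)) := by
    rw [integral_add hi2 hi3, integral_const_mul, setIntegral_const, smul_eq_mul]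
  have e2 : ∫ s in B, 1 / (1 + |t - s|) ≤ 2 * Real.log (1 + Y) := by
    rw [← GInt_log t Y hY0, intervalIntegral.integral_of_le (by linarith only [hY0]),
      ← integral_Icc_eq_integral_Ioc]
    refine setIntegral_mono_set (hcg0.continuousOn.integrableOn_Icc)
      (Filter.Eventually.of_forall fun s => ?_) (HasSubset.Subset.eventuallyLE ?_)
    · simp only [Pi.zero_apply]
      positivity
    · intro s hs
      have hs1 := hBs hs
      have ht1 := hBs ht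
      rw [Set.mem_Icc] at hs1 ht1 ⊢
      constructor <;> linarith only [hs1, ht1, hs1.1, hs1.2, ht1.1, ht1.2]
  have e3 : Real.log (1 + Y) ≤ 3 * L := by
    calc Real.log (1 + Y) ≤ Real.log ((x : ℝ) ^ 3) := Real.log_le_log (by positivity) hYx
      _ = 3 * L := by rw [Real.log_pow, hLdef]; norm_num
  have e4 : volume.real B * (x : ℝ) ^ (-δ) ≤ 1 := by
    calc volume.real B * (x : ℝ) ^ (-δ) ≤ (x : ℝ) ^ δ * (x : ℝ) ^ (-δ) :=
          mul_le_mul_of_nonneg_right hvol hxd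
      _ = 1 := by rw [← Real.rpow_add hx0, add_neg_cancel, Real.rpow_zero]
  have e5 : 2 * C * K * (∫ s in B, 1 / (1 + |t - s|)) ≤ 2 * C * K * (2 * (3 * L)) := by
    refine mul_le_mul_of_nonneg_left ?_ (by positivity)
    linarith only [e2, e3]
  have e6 : volume.real B * (C * K * (x : ℝ) ^ (-δ)) ≤ C * K * 1 := by
    calc volume.real B * (C * K * (x : ℝ) ^ (-δ)) = C * K * (volume.real B * (x : ℝ) ^ (-δ)) := by
          ring
      _ ≤ C * K * 1 := mul_le_mul_of_nonneg_left e4 (by positivity)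
  have e7 : 12 * C * L + C ≤ L ^ 2 := by
    have : C ≤ C * L := le_mul_of_one_le_right (by linarith only [hC]) (by linarith only [hC, hL])
    nlinarith only [hC, hL]
  change ∫ s in B, (2 * C * K * (1 / (1 + |t - s|)) + C * K * (x : ℝ) ^ (-δ)) ≤ K * L ^ 2
  rw [e1]
  calc 2 * C * K * (∫ s in B, 1 / (1 + |t - s|)) + volume.real B * (C * K * (x : ℝ) ^ (-δ))
      ≤ 2 * C * K * (2 * (3 * L)) + C * K * 1 := add_le_add e5 e6
    _ = K * (12 * C * L + C) := by ring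
    _ ≤ K * L ^ 2 := mul_le_mul_of_nonneg_left e7 hK0

end Pool.Agent.H80.LV

end

section

/-!
# LV HM: the Halász-Montgomery inequality for short sets
-/

set_option autoImplicit false

namespace Pool.Agent.H80.LV

open Finset MeasureTheory
open Pool.Agent.H91.PK (ee)

theorem hm (κ : ℝ) (hκ : 0 < κ) : ∃ η : ℝ, 0 < η ∧ η ≤ 1 ∧ ∃ x0 : ℕ, ∀ x : ℕ, x0 ≤ x →
    ∀ (K : ℕ) (a : ℕ → ℂ) (B : Set ℝ), (x : ℝ) ^ κ ≤ K → K ≤ x → MeasurableSet B →
      B ⊆ Set.Icc (-((x : ℝ) ^ (2 : ℕ))) ((x : ℝ) ^ (2 : ℕ)) → volume.real B ≤ (x : ℝ) ^ η →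
      ∫ t in B, ‖∑ n ∈ Icc 1 K, a n * ee (t * Real.log n)‖ ^ 2
        ≤ K * Real.log x ^ 2 * ∑ n ∈ Icc 1 K, ‖a n‖ ^ 2 := by
  obtain ⟨η, h1, h2, x0, H⟩ := g_int κ hκ
  refine ⟨η, h1, h2, x0, fun x hx K a B hK hKx hB hb hv => ?_⟩
  exact dual_ineq B _ hB hb K a _ (by positivity) (H x hx K B hK hKx hB hb hv)

end Pool.Agent.H80.LV

end

section

/-!
# PSI BoxL: the integral over a small set, given a bound for the longest factor

`i` with `N i` maximal: `N i ≥ (X/2^r)^(1/r) ≥ X^(1/7)`, so `hp` applies to it.  `G = ∏_{i' ≠ i} g i'` (`dp_prod`),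
`K' = ∏_{i' ≠ i} 2 N i'`, `X^(1/3) ≤ K' ≤ X` (`N i ≤ X^(11/24)`, `X ≤ 2^r ∏ N`, `∏ N ≤ 3X`).  `Pool.Agent.H80.LV.hm (1/3)`
(`Pool/Agent/H80/LV/HM.lean`; it has the same sums): `∫_B |DP G K'|^2 ≤ K' L^2 SS G K'`, `SS G K' ≤ K' L^C` (`prod_bd`, `tau_mom`).
`∫_B FF^2 ≤ (N i/L^K)^2 K'^2 L^(C+2) ≤ 4^r 9 X^2 L^(C+2-2K) ≤ X^2/L^A` for `K` large.
-/

set_option autoImplicit false

namespace Pool.Agent.H88.PSI

open Finset MeasureTheory

/-- the longest factor is long -/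
theorem BoxL_long {X r : ℕ} {N : Fin r → ℕ} (hr : r ≤ 6) (hX : 2 ≤ X)
    (hP : X ≤ 2 ^ r * ∏ i, N i) (h1 : ∀ i, 1 ≤ N i) :
    ∃ i : Fin r, (X : ℝ) ^ (1 / 6 : ℝ) ≤ 2 * N i := by
  have hne : (univ : Finset (Fin r)).Nonempty := by
    by_contra hcon
    rw [not_nonempty_iff_eq_empty] at hcon
    rw [hcon, prod_empty] at hP
    have hr0 : r = 0 := by
      by_contra h
      have : (⟨0, Nat.pos_of_ne_zero h⟩ : Fin r) ∈ (univ : Finset (Fin r)) := mem_univ _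
      rw [hcon] at this
      exact absurd this (notMem_empty _)
    rw [hr0] at hP
    omega
  obtain ⟨i, _, hi⟩ := exists_max_image univ N hne
  refine ⟨i, ?_⟩
  have h2 : X ≤ (2 * N i) ^ 6 := by
    calc X ≤ 2 ^ r * ∏ i, N i := hP
      _ ≤ 2 ^ r * ∏ _j : Fin r, N i := by
          apply Nat.mul_le_mul_left
          exact prod_le_prod' fun j _ => hi j (mem_univ _)
      _ = (2 * N i) ^ r := by
          rw [prod_const, card_univ, Fintype.card_fin, mul_pow]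
      _ ≤ (2 * N i) ^ 6 := Nat.pow_le_pow_right (by have := h1 i; omega) hr
  have h3 : (X : ℝ) ≤ (2 * N i : ℝ) ^ (6 : ℝ) := by
    rw [show (6 : ℝ) = ((6 : ℕ) : ℝ) by norm_num, Real.rpow_natCast]
    exact_mod_cast h2
  calc (X : ℝ) ^ (1 / 6 : ℝ) ≤ ((2 * N i : ℝ) ^ (6 : ℝ)) ^ (1 / 6 : ℝ) :=
        Real.rpow_le_rpow (by positivity) h3 (by norm_num)
    _ = 2 * N i := by
        rw [← Real.rpow_mul (by positivity)]
        norm_num

theorem BoxL_SS {X r : ℕ} {N : Fin r → ℕ} {g : Fin r → ArithmeticFunction ℂ} (hB : Box X N g)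
    (i : Fin r) (hL : 1 ≤ Real.log X) {K' : ℕ} (hK' : K' ≤ X) (hX : 1 ≤ X) :
    SS (⇑(∏ j ∈ univ.erase i, g j)) K' ≤ K' * (2 * Real.log X) ^ (12 + 2 ^ 12) := by
  set L := Real.log X with hLdef
  set f' : Fin r → ArithmeticFunction ℂ := fun j => if j = i then 1 else g j with hf'
  have hprod : ∏ j, f' j = ∏ j ∈ univ.erase i, g j := by
    rw [← mul_prod_erase univ f' (mem_univ i)]
    have h1 : f' i = 1 := by simp [hf']
    rw [h1, one_mul]
    apply prod_congr rfl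
    intro j hj
    have : j ≠ i := (mem_erase.1 hj).1
    simp [hf', this]
  have hbd : ∀ j n, ‖f' j n‖ ≤ 2 * L := by
    intro j n
    by_cases hj : j = i
    · simp only [hf', hj, if_true]
      rw [ArithmeticFunction.one_apply]
      split_ifs
      · rw [norm_one]; linarith only [hL]
      · rw [norm_zero]; linarith only [hL]
    · simp only [hf', hj, if_false]
      exact hB.bd j n
  have hG : ∀ n, 1 ≤ n → ‖(∏ j ∈ univ.erase i, g j) n‖ ^ 2 ≤ (2 * L) ^ 12 * tau n ^ 12 := by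
    intro n hn
    have h1 := prod_bd f' (2 * L) (by linarith) hbd n
    rw [hprod] at h1
    have ht : 1 ≤ tau n := by
      unfold tau
      have : 0 < n.divisors.card := card_pos.2 ⟨1, Nat.one_mem_divisors.2 (by omega)⟩
      exact_mod_cast this
    have h2 : (2 * L) ^ r * tau n ^ r ≤ (2 * L) ^ 6 * tau n ^ 6 :=
      mul_le_mul (pow_le_pow_right₀ (by linarith) hB.hr) (pow_le_pow_right₀ ht hB.hr)
        (by positivity) (by positivity)
    calc ‖(∏ j ∈ univ.erase i, g j) n‖ ^ 2 ≤ ((2 * L) ^ 6 * tau n ^ 6) ^ 2 :=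
          pow_le_pow_left₀ (norm_nonneg _) (h1.trans h2) 2
      _ = _ := by ring
  unfold SS
  calc ∑ n ∈ Icc 1 K', ‖(∏ j ∈ univ.erase i, g j) n‖ ^ 2
      ≤ ∑ n ∈ Icc 1 K', (2 * L) ^ 12 * tau n ^ 12 :=
        sum_le_sum fun n hn => hG n (mem_Icc.1 hn).1
    _ = (2 * L) ^ 12 * ∑ n ∈ Icc 1 K', tau n ^ 12 := by rw [mul_sum]
    _ ≤ (2 * L) ^ 12 * (K' * (1 + Real.log K') ^ (2 ^ 12)) :=
        mul_le_mul_of_nonneg_left (tau_mom 12 K') (by positivity)
    _ ≤ (2 * L) ^ 12 * (K' * (2 * L) ^ (2 ^ 12)) := by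
        apply mul_le_mul_of_nonneg_left _ (by positivity)
        apply mul_le_mul_of_nonneg_left _ (by positivity)
        have h0 : 0 ≤ Real.log K' := Real.log_natCast_nonneg _
        apply pow_le_pow_left₀ (by linarith)
        have : Real.log K' ≤ L := by
          rcases Nat.eq_zero_or_pos K' with h | h
          · rw [h]
            simp
            linarith only [hL]
          · exact Real.log_le_log (by exact_mod_cast h) (by exact_mod_cast hK')
        linarith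
    _ = _ := by rw [pow_add]; ring

theorem box_l : ∃ η : ℝ, 0 < η ∧ ∀ A : ℕ, ∃ K X0 : ℕ, ∀ X : ℕ, X0 ≤ X →
    ∀ (r : ℕ) (N : Fin r → ℕ) (g : Fin r → ArithmeticFunction ℂ) (B : Set ℝ),
    Box X N g → X ≤ 2 ^ r * ∏ i, N i → MeasurableSet B →
    B ⊆ Set.Icc (-(X : ℝ)) X → volume.real B ≤ (X : ℝ) ^ η →
    (∀ i, (X : ℝ) ^ (1 / 7 : ℝ) ≤ N i → ∀ t ∈ B, ‖DP (g i) (2 * N i) t‖ ≤ N i / Real.log X ^ K) →
    ∫ t in B, FF N g t ^ 2 ≤ (X : ℝ) ^ 2 / Real.log X ^ A := by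
  obtain ⟨η, hη0, hη1, x0, hhm⟩ := Pool.Agent.H80.LV.hm (1 / 3) (by norm_num)
  refine ⟨η, hη0, fun A => ?_⟩
  obtain ⟨EE, hEE⟩ : ∃ EE : ℕ, EE = 2 ^ 12 := ⟨_, rfl⟩
  obtain ⟨C0, hC0⟩ : ∃ C0 : ℝ, C0 = 9216 * 2 ^ (12 + EE) := ⟨_, rfl⟩
  have hC0pos : 0 < C0 := by rw [hC0]; positivity
  obtain ⟨x1, hx1⟩ := Pool.Agent.H80.LV.log_ge (max 1 C0)
  obtain ⟨x2, hx2⟩ := Pool.Agent.H80.LV.pow_ge (1 / 6 - 1 / 7) 2 (by norm_num)
  obtain ⟨x3, hx3⟩ := Pool.Agent.H80.LV.pow_ge (1 / 7) 96 (by norm_num)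
  obtain ⟨x4, hx4⟩ := Pool.Agent.H80.LV.pow_ge (13 / 24 - 1 / 3) 2 (by norm_num)
  refine ⟨A + EE + 20, max 2 (max x0 (max x1 (max x2 (max x3 x4)))), fun X hX => ?_⟩
  have hXa : 2 ≤ X := (le_max_left _ _).trans hX
  have hX' := (le_max_right _ _).trans hX
  have hX0 : x0 ≤ X := (le_max_left _ _).trans hX'
  have hX'' := (le_max_right _ _).trans hX'
  have hL := hx1 X ((le_max_left _ _).trans hX'')
  have hX3 := (le_max_right _ _).trans hX''
  have hp2 := hx2 X ((le_max_left _ _).trans hX3)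
  have hX4 := (le_max_right _ _).trans hX3
  have hp3 := hx3 X ((le_max_left _ _).trans hX4)
  have hp4 := hx4 X ((le_max_right _ _).trans hX4)
  have hL1 : 1 ≤ Real.log X := (le_max_left _ _).trans hL
  have hLC : C0 ≤ Real.log X := (le_max_right _ _).trans hL
  clear hX hX' hX'' hX3 hX4
  intro r N g B hBox hP hBm hBsub hBvol hp
  have hXr : (0 : ℝ) < X := by exact_mod_cast (show 0 < X by omega)
  have hXr1 : (1 : ℝ) ≤ X := by exact_mod_cast (show 1 ≤ X by omega)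
  obtain ⟨i, hi⟩ := BoxL_long hBox.hr hXa hP hBox.one
  have hNi0 : (0 : ℝ) < N i := by exact_mod_cast (hBox.one i)
  -- `N i ≥ X^(1/7)`
  have hi7 : (X : ℝ) ^ (1 / 7 : ℝ) ≤ N i := by
    have h1 : (X : ℝ) ^ (1 / 6 : ℝ) = (X : ℝ) ^ (1 / 7 : ℝ) * (X : ℝ) ^ (1 / 6 - 1 / 7 : ℝ) := by
      rw [← Real.rpow_add hXr]
      norm_num
    rw [h1] at hi
    have h2 : (X : ℝ) ^ (1 / 7 : ℝ) * 2 ≤ (X : ℝ) ^ (1 / 7 : ℝ) * (X : ℝ) ^ (1 / 6 - 1 / 7 : ℝ) :=
      mul_le_mul_of_nonneg_left hp2 (by positivity)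
    linarith only [hi, h2]
  set G := ∏ j ∈ univ.erase i, g j with hG
  set K' := ∏ j ∈ univ.erase i, (2 * N j) with hK'
  have hKN : (2 * N i) * K' = 2 ^ r * ∏ j, N j := by
    rw [hK', mul_prod_erase univ (fun j => 2 * N j) (mem_univ i), prod_mul_distrib, prod_const,
      card_univ, Fintype.card_fin]
  have hr1 : 2 ^ r ≤ 2 ^ 6 := Nat.pow_le_pow_right (by norm_num) hBox.hr
  have hKNle : 2 * (N i * K') ≤ 192 * X := by
    calc 2 * (N i * K') = (2 * N i) * K' := by ring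
      _ = 2 ^ r * ∏ j, N j := hKN
      _ ≤ 2 ^ 6 * (3 * X) := Nat.mul_le_mul hr1 hBox.prod
      _ = 192 * X := by ring
  have hKNle' : (N i : ℝ) * K' ≤ 96 * X := by
    have : ((2 * (N i * K') : ℕ) : ℝ) ≤ ((192 * X : ℕ) : ℝ) := by exact_mod_cast hKNle
    push_cast at this
    linarith only [this]
  have hK'X : K' ≤ X := by
    have h1 : (96 : ℝ) * K' ≤ 96 * X := by
      calc (96 : ℝ) * K' ≤ N i * K' := mul_le_mul_of_nonneg_right (hp3.trans hi7) (by positivity)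
        _ ≤ _ := hKNle'
    have h2 : (K' : ℝ) ≤ X := by linarith only [h1]
    exact_mod_cast h2
  have hK'low : (X : ℝ) ^ (1 / 3 : ℝ) ≤ K' := by
    have h1 : (X : ℝ) ≤ 2 * N i * K' := by
      have : X ≤ (2 * N i) * K' := hKN ▸ hP
      exact_mod_cast this
    have h2 : (2 : ℝ) * N i * K' ≤ 2 * (X : ℝ) ^ (11 / 24 : ℝ) * K' := by
      apply mul_le_mul_of_nonneg_right _ (by positivity)
      exact mul_le_mul_of_nonneg_left (hBox.top i) (by norm_num)
    have h3 : (X : ℝ) = (X : ℝ) ^ (11 / 24 : ℝ) * ((X : ℝ) ^ (1 / 3 : ℝ) * (X : ℝ) ^ (13 / 24 - 1 / 3 : ℝ)) := by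
      rw [← Real.rpow_add hXr, ← Real.rpow_add hXr]
      norm_num
    have hpos : 0 < (X : ℝ) ^ (11 / 24 : ℝ) := by positivity
    have h4 : (X : ℝ) ^ (11 / 24 : ℝ) * ((X : ℝ) ^ (1 / 3 : ℝ) * (X : ℝ) ^ (13 / 24 - 1 / 3 : ℝ)) ≤
        (X : ℝ) ^ (11 / 24 : ℝ) * (2 * K') := by
      rw [← h3]
      linarith only [h1, h2]
    have h5 := le_of_mul_le_mul_left h4 hpos
    have h6 : (X : ℝ) ^ (1 / 3 : ℝ) * 2 ≤ (X : ℝ) ^ (1 / 3 : ℝ) * (X : ℝ) ^ (13 / 24 - 1 / 3 : ℝ) :=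
      mul_le_mul_of_nonneg_left hp4 (by positivity)
    linarith only [h5, h6]
  have hBsub' : B ⊆ Set.Icc (-((X : ℝ) ^ (2 : ℕ))) ((X : ℝ) ^ (2 : ℕ)) := by
    intro t ht
    have h1 := hBsub ht
    have h2 : (X : ℝ) ≤ (X : ℝ) ^ (2 : ℕ) := by nlinarith only [hXr1]
    exact ⟨by linarith only [h2, h1, h1.1], by linarith only [h2, h1, h1.2]⟩
  have hHM := hhm X hX0 K' (⇑G) B hK'low hK'X hBm hBsub' hBvol
  have hSS := BoxL_SS hBox i hL1 hK'X (by omega)
  rw [← hEE] at hSS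
  -- FF as a product
  have hFF : ∀ t, FF N g t ^ 2 = ‖DP (g i) (2 * N i) t‖ ^ 2 * ‖DP (⇑G) K' t‖ ^ 2 := by
    intro t
    have h1 : DP (⇑G) K' t = ∏ j ∈ univ.erase i, DP (g j) (2 * N j) t := by
      rw [hG, hK']
      apply dp_prod (univ.erase i) g (fun j => 2 * N j)
      intro j _ n hn
      exact (hBox.supp j n hn).2.le
    unfold FF
    rw [← mul_prod_erase univ (fun j => ‖DP (g j) (2 * N j) t‖) (mem_univ i), h1, norm_prod,
      mul_pow]
  have hcontG : Continuous (fun t => ‖DP (⇑G) K' t‖ ^ 2) := ((dp_cont _ _).norm).pow 2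
  have hintG : IntegrableOn (fun t => ‖DP (⇑G) K' t‖ ^ 2) B :=
    (hcontG.continuousOn.integrableOn_compact isCompact_Icc).mono_set hBsub
  have hcontF : Continuous (fun t => FF N g t ^ 2) := (ff_cont N g).pow 2
  have hintF : IntegrableOn (fun t => FF N g t ^ 2) B :=
    (hcontF.continuousOn.integrableOn_compact isCompact_Icc).mono_set hBsub
  set KK := A + EE + 20 with hKK
  set L := Real.log X with hLdef
  have hLpos : 0 < L := by linarith only [hL1]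
  have hstep : ∫ t in B, FF N g t ^ 2 ≤ (N i / L ^ KK) ^ 2 * ∫ t in B, ‖DP (⇑G) K' t‖ ^ 2 := by
    rw [← integral_const_mul]
    apply setIntegral_mono_on hintF (hintG.const_mul _) hBm
    intro t ht
    rw [hFF t]
    apply mul_le_mul_of_nonneg_right _ (by positivity)
    exact pow_le_pow_left₀ (norm_nonneg _) (hp i hi7 t ht) 2
  have hHM' : ∫ t in B, ‖DP (⇑G) K' t‖ ^ 2 ≤ K' * L ^ 2 * (K' * (2 * L) ^ (12 + EE)) := by
    refine hHM.trans ?_
    apply mul_le_mul_of_nonneg_left hSS (by positivity)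
  refine hstep.trans ?_
  calc (N i / L ^ KK) ^ 2 * ∫ t in B, ‖DP (⇑G) K' t‖ ^ 2
      ≤ (N i / L ^ KK) ^ 2 * (K' * L ^ 2 * (K' * (2 * L) ^ (12 + EE))) :=
        mul_le_mul_of_nonneg_left hHM' (by positivity)
    _ = ((N i : ℝ) * K') ^ 2 * (L ^ 2 * (2 * L) ^ (12 + EE)) / (L ^ KK) ^ 2 := by
        field_simp
    _ ≤ (96 * X) ^ 2 * (L ^ 2 * (2 * L) ^ (12 + EE)) / (L ^ KK) ^ 2 := by
        apply div_le_div_of_nonneg_right _ (by positivity)
        apply mul_le_mul_of_nonneg_right _ (by positivity)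
        exact pow_le_pow_left₀ (by positivity) hKNle' 2
    _ = (X : ℝ) ^ 2 * (C0 * L ^ (14 + EE)) / (L ^ KK) ^ 2 := by
        rw [hC0, mul_pow (2 : ℝ) L, mul_pow (96 : ℝ)]
        congr 1
        have : L ^ 2 * (2 ^ (12 + EE) * L ^ (12 + EE)) =
            2 ^ (12 + EE) * L ^ (14 + EE) := by
          rw [show (14 + EE : ℕ) = 2 + (12 + EE) by omega, pow_add L 2]
          ring
        rw [this]
        ring
    _ ≤ (X : ℝ) ^ 2 * (L * L ^ (14 + EE)) / (L ^ KK) ^ 2 := by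
        apply div_le_div_of_nonneg_right _ (by positivity)
        apply mul_le_mul_of_nonneg_left _ (by positivity)
        exact mul_le_mul_of_nonneg_right hLC (by positivity)
    _ ≤ (X : ℝ) ^ 2 / L ^ A := by
        rw [div_le_div_iff₀ (by positivity) (by positivity), mul_assoc]
        apply mul_le_mul_of_nonneg_left _ (by positivity)
        have h1 : L * L ^ (14 + EE) * L ^ A = L ^ (A + 15 + EE) := by
          rw [← pow_succ', ← pow_add]
          congr 1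
          ring
        have h2 : (L ^ KK) ^ 2 = L ^ (2 * KK) := by
          rw [← pow_mul]
          congr 1
          ring
        rw [h1, h2]
        apply pow_le_pow_right₀ hL1
        omega

end Pool.Agent.H88.PSI

end

section

/-!
# PSI BoxI: mean square of the Dirichlet polynomial of a box of type II

`η` from `box_l`, `δ = min (η/13) (1/200)`; `box_s` on `{FF ≤ X^(1-δ)}`, and on `B = {L^K' ≤ |t| ≤ T, FF > X^(1-δ)}` `box_m` and
`box_l` with `pt_b`.  `Box`: `tw χ (pc k j)` is supported on `[2^j, 2^(j+1))`, bounded by `log 2^(j+1) ≤ 2 L`.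
`FF = ‖DP (tw χ (Pp κ j)) (∏ 2·2^(j i))‖` by `dp_prod`, `tw_prod`; the length may be increased (`hN`).
-/

set_option autoImplicit false

namespace Pool.Agent.H88.PSI

open Finset MeasureTheory

private theorem BoxI_ext (f : ℕ → ℂ) (N0 N : ℕ) (h : ∀ n, f n ≠ 0 → n ≤ N0) (hN : N0 ≤ N) (t : ℝ) :
    DP f N t = DP f N0 t := by
  unfold DP
  symm
  apply sum_subset (Icc_subset_Icc le_rfl hN)
  intro n _ hn
  have : f n = 0 := by
    by_contra h0
    have := h n h0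
    simp only [mem_Icc, not_and, not_le] at hn
    rename_i h1
    rw [mem_Icc] at h1
    have := hn h1.1
    omega
  rw [this, zero_mul]

private theorem BoxI_norm_char {d : ℕ} (χ : DirichletCharacter ℂ d) (a : ZMod d) : ‖χ a‖ ≤ 1 :=
  DirichletCharacter.norm_le_one χ a

theorem BoxI_box (X : ℕ) (hX : 3 ≤ X) {r d : ℕ} (χ : DirichletCharacter ℂ d) (κ : Fin r → Fin 3)
    (j : Fin r → ℕ) (hr : r ≤ 6) (h1 : ∀ i, (2 : ℝ) ^ j i ≤ (X : ℝ) ^ (11 / 24 : ℝ))
    (h2 : ∏ i, 2 ^ j i ≤ 3 * X) :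
    Box X (fun i => 2 ^ j i) (fun i => tw χ (pc (κ i) (j i))) where
  hr := hr
  one := fun i => Nat.one_le_two_pow
  top := fun i => by push_cast; exact h1 i
  prod := h2
  supp := by
    intro i n hn
    have h3 : pc (κ i) (j i) n ≠ 0 := by
      intro h0
      apply hn
      show (((pc (κ i) (j i)) n : ℝ) : ℂ) * χ (n : ZMod d) = 0
      rw [h0]; simp
    unfold pc seg at h3
    simp only [ArithmeticFunction.coe_mk] at h3
    split_ifs at h3 with h4
    · refine ⟨h4.2.1, ?_⟩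
      have := h4.2.2
      rw [pow_succ] at this
      show n < 2 * 2 ^ j i
      omega
    · exact absurd rfl h3
  bd := by
    intro i n
    have hX3 : (3 : ℝ) ≤ X := by exact_mod_cast hX
    have hL1 : 1 ≤ Real.log X := by
      rw [Real.le_log_iff_exp_le (by linarith)]
      have := Real.exp_one_lt_d9
      linarith
    show ‖(((pc (κ i) (j i)) n : ℝ) : ℂ) * χ (n : ZMod d)‖ ≤ 2 * Real.log X
    rw [norm_mul, Complex.norm_real]
    have h3 : ‖(pc (κ i) (j i)) n‖ ≤ 2 * Real.log X := by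
      unfold pc seg
      simp only [ArithmeticFunction.coe_mk]
      split_ifs with h4
      · unfold kf
        split_ifs
        · simp; linarith
        · have hn0 : (0 : ℝ) < n := by
            have := Nat.pos_of_ne_zero h4.1
            exact_mod_cast this
          have hn1 : (1 : ℝ) ≤ n := by
            have := Nat.pos_of_ne_zero h4.1
            exact_mod_cast this
          rw [Real.norm_eq_abs, abs_of_nonneg (Real.log_nonneg hn1)]
          have h5 : (n : ℝ) ≤ (X : ℝ) ^ 2 := by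
            have h6 : (n : ℝ) < 2 ^ (j i + 1) := by exact_mod_cast h4.2.2
            have h7 : (X : ℝ) ^ (11 / 24 : ℝ) ≤ X := by
              nth_rewrite 2 [← Real.rpow_one (X : ℝ)]
              exact Real.rpow_le_rpow_of_exponent_le (by linarith) (by norm_num)
            have h8 := h1 i
            have h9 : (2 : ℝ) ^ (j i + 1) = 2 ^ (j i) * 2 := by ring
            nlinarith
          calc Real.log n ≤ Real.log ((X : ℝ) ^ 2) := Real.log_le_log hn0 h5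
            _ = 2 * Real.log X := by rw [Real.log_pow]; norm_num
        · have h5 := ArithmeticFunction.abs_moebius_le_one (n := n)
          have h6 : |((ArithmeticFunction.moebius n : ℤ) : ℝ)| ≤ 1 := by exact_mod_cast h5
          rw [Real.norm_eq_abs]
          linarith
      · simp; linarith
    calc ‖(pc (κ i) (j i)) n‖ * ‖χ (n : ZMod d)‖ ≤ ‖(pc (κ i) (j i)) n‖ * 1 :=
          mul_le_mul_of_nonneg_left (BoxI_norm_char χ _) (norm_nonneg _)
      _ ≤ 2 * Real.log X := by rw [mul_one]; exact h3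

theorem BoxI_ff {r d : ℕ} (N : ℕ) (hd : 1 ≤ d) (χ : DirichletCharacter ℂ d) (κ : Fin r → Fin 3)
    (j : Fin r → ℕ) (hN : 2 ^ r * ∏ i, 2 ^ j i ≤ N) (t : ℝ) :
    ‖DP (tw χ (Pp κ j)) N t‖ = FF (fun i => 2 ^ j i) (fun i => tw χ (pc (κ i) (j i))) t := by
  have hsup : ∀ i n, tw χ (pc (κ i) (j i)) n ≠ 0 → 2 ^ j i ≤ n ∧ n < 2 * 2 ^ j i := by
    intro i n hn
    have h3 : pc (κ i) (j i) n ≠ 0 := by
      intro h0
      apply hn
      show (((pc (κ i) (j i)) n : ℝ) : ℂ) * χ (n : ZMod d) = 0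
      rw [h0]; simp
    unfold pc seg at h3
    simp only [ArithmeticFunction.coe_mk] at h3
    split_ifs at h3 with h4
    · refine ⟨h4.2.1, ?_⟩
      have := h4.2.2
      rw [pow_succ] at this
      omega
    · exact absurd rfl h3
  have e1 : tw χ (Pp κ j) = ∏ i, tw χ (pc (κ i) (j i)) := by
    unfold Pp
    exact tw_prod χ univ _ (by omega)
  have e2 : ∏ i : Fin r, (2 * 2 ^ j i) = 2 ^ r * ∏ i, 2 ^ j i := by
    rw [prod_mul_distrib]; simp
  have e3 : DP (⇑(tw χ (Pp κ j))) N t = DP (⇑(∏ i, tw χ (pc (κ i) (j i)))) (∏ i : Fin r, (2 * 2 ^ j i)) t := by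
    rw [e1]
    apply BoxI_ext
    · intro n hn
      exact (prod_supp _ (fun i => 2 ^ j i) hsup n hn).2
    · rw [e2]; exact hN
  rw [e3, dp_prod univ (fun i => tw χ (pc (κ i) (j i))) (fun i => 2 * 2 ^ j i)
    (fun i _ n hn => (hsup i n hn).2.le) t, norm_prod]
  rfl

/-- the statement of `pt_b`, used as a hypothesis -/
def PTB : Prop := ∀ K B : ℕ, ∃ K' X0 : ℕ, ∀ X : ℕ, X0 ≤ X →
    ∀ (d : ℕ) (χ : DirichletCharacter ℂ d) (k : Fin 3) (j : ℕ) (t : ℝ), 1 ≤ d →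
    (d : ℝ) ≤ Real.log X ^ B →
    (X : ℝ) ^ (1 / 7 : ℝ) ≤ (2 : ℝ) ^ j → (2 : ℝ) ^ j ≤ X → Real.log X ^ K' ≤ |t| → |t| ≤ X →
    ‖DP (tw χ (pc k j)) (2 * 2 ^ j) t‖ ≤ (2 : ℝ) ^ j / Real.log X ^ K

theorem box_i (hpt : PTB) (e : ℝ) (he : 0 < e) (he' : e ≤ 1 / 100) (A B : ℕ) : ∃ K' X0 : ℕ, ∀ X : ℕ, X0 ≤ X →
    ∀ (r d N : ℕ) (χ : DirichletCharacter ℂ d) (κ : Fin r → Fin 3) (j : Fin r → ℕ), r ≤ 6 → 1 ≤ d →
    (d : ℝ) ≤ Real.log X ^ B → (∀ i, (2 : ℝ) ^ j i ≤ (X : ℝ) ^ (11 / 24 : ℝ)) →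
    ∏ i, 2 ^ j i ≤ 3 * X → X ≤ 2 ^ r * ∏ i, 2 ^ j i → 2 ^ r * ∏ i, 2 ^ j i ≤ N →
    ∫ t in {t : ℝ | Real.log X ^ K' ≤ |t| ∧ |t| ≤ (X : ℝ) ^ (5 / 6 - e)},
      ‖DP (tw χ (Pp κ j)) N t‖ ^ 2 ≤ (X : ℝ) ^ 2 / Real.log X ^ A := by
  obtain ⟨η, hη, HL⟩ := box_l
  obtain ⟨K, X1, HL⟩ := HL (A + 1)
  obtain ⟨K', X2, HP⟩ := hpt K B
  set δ : ℝ := min (η / 13) (1 / 200) with hδdef
  have hδ : 0 < δ := lt_min (by positivity) (by norm_num)
  have hδ1 : 13 * δ ≤ η := by have := min_le_left (η / 13) (1 / 200 : ℝ); rw [← hδdef] at this; linarith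
  have hδ2 : δ ≤ 1 / 200 := min_le_right _ _
  obtain ⟨X3, HS⟩ := box_s e δ he he' hδ (by linarith)
  obtain ⟨X4, HM⟩ := box_m e δ he he' hδ hδ2
  obtain ⟨X5, H5⟩ := Pool.Agent.H80.LV.log_pow_le (e * δ / 2) 2 (by positivity) (by norm_num) A
  obtain ⟨X6, H6⟩ := Pool.Agent.H80.LV.log_ge 2
  refine ⟨K', max (max (max X1 X2) (max X3 X4)) (max (max X5 X6) 3), ?_⟩
  intro X hX r d N χ κ j hr hd hdB hj1 hj2 hj3 hN
  simp only [max_le_iff] at hX
  obtain ⟨⟨⟨hX1, hX2⟩, hX3, hX4⟩, ⟨hX5, hX6⟩, hX7⟩ := hX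
  have hXr : (3 : ℝ) ≤ X := by exact_mod_cast hX7
  have hX0 : (0 : ℝ) < X := by linarith
  have hL := H6 X hX6
  have hbox := BoxI_box X hX7 χ κ j hr hj1 hj2
  set T : ℝ := (X : ℝ) ^ (5 / 6 - e) with hT
  have hT1 : 1 ≤ T := Real.one_le_rpow (by linarith) (by linarith)
  have hTX : T ≤ X := by
    rw [hT]; nth_rewrite 2 [← Real.rpow_one (X : ℝ)]
    exact Real.rpow_le_rpow_of_exponent_le (by linarith) (by linarith)
  set F : ℝ → ℝ := FF (fun i => 2 ^ j i) (fun i => tw χ (pc (κ i) (j i))) with hF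
  have hFc : Continuous F := ff_cont _ _
  have hF0 : ∀ t, 0 ≤ F t := ff_nonneg _ _
  set S : Set ℝ := {t : ℝ | Real.log X ^ K' ≤ |t| ∧ |t| ≤ T} with hS
  set B1 : Set ℝ := {t : ℝ | |t| ≤ T ∧ F t ≤ (X : ℝ) ^ (1 - δ)} with hB1
  set B2 : Set ℝ := {t : ℝ | (Real.log X ^ K' ≤ |t| ∧ |t| ≤ T) ∧ (X : ℝ) ^ (1 - δ) < F t} with hB2
  have mS : MeasurableSet S := by
    apply MeasurableSet.inter
    · exact measurableSet_le measurable_const continuous_abs.measurable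
    · exact measurableSet_le continuous_abs.measurable measurable_const
  have mB1 : MeasurableSet B1 := by
    apply MeasurableSet.inter
    · exact measurableSet_le continuous_abs.measurable measurable_const
    · exact measurableSet_le hFc.measurable measurable_const
  have mB2 : MeasurableSet B2 := by
    apply MeasurableSet.inter mS
    exact measurableSet_lt measurable_const hFc.measurable
  have hint : IntegrableOn (fun t => F t ^ 2) (Set.Icc (-T) T) :=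
    (hFc.pow 2).continuousOn.integrableOn_compact isCompact_Icc
  have sB1 : B1 ⊆ Set.Icc (-T) T := fun t ht => abs_le.1 ht.1
  have sB2 : B2 ⊆ Set.Icc (-T) T := fun t ht => abs_le.1 ht.1.2
  have i1 : IntegrableOn (fun t => F t ^ 2) B1 := hint.mono_set sB1
  have i2 : IntegrableOn (fun t => F t ^ 2) B2 := hint.mono_set sB2
  have hSsub : S ⊆ B1 ∪ B2 := by
    intro t ht
    by_cases h : F t ≤ (X : ℝ) ^ (1 - δ)
    · exact Or.inl ⟨ht.2, h⟩
    · exact Or.inr ⟨ht, not_le.1 h⟩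
  have e1 : ∫ t in S, ‖DP (tw χ (Pp κ j)) N t‖ ^ 2 = ∫ t in S, F t ^ 2 := by
    apply setIntegral_congr_fun mS
    intro t _
    show ‖DP (tw χ (Pp κ j)) N t‖ ^ 2 = F t ^ 2
    rw [BoxI_ff N hd χ κ j hN t]
  have e2 : ∫ t in S, F t ^ 2 ≤ ∫ t in B1 ∪ B2, F t ^ 2 := by
    apply setIntegral_mono_set (i1.union i2)
    · exact Filter.Eventually.of_forall fun t => sq_nonneg _
    · exact hSsub.eventuallyLE
  have e3 : ∫ t in B1 ∪ B2, F t ^ 2 ≤ (∫ t in B1, F t ^ 2) + ∫ t in B2, F t ^ 2 := by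
    have hd1 : Disjoint B1 B2 := by
      rw [Set.disjoint_left]
      intro t h1 h2
      exact absurd h1.2 (not_le.2 h2.2)
    rw [setIntegral_union hd1 mB2 i1 i2]
  have e4 : ∫ t in B1, F t ^ 2 ≤ (X : ℝ) ^ (2 - e * δ / 2) := HS X hX3 r _ _ T hbox hT1 le_rfl
  have e5 : ∫ t in B2, F t ^ 2 ≤ (X : ℝ) ^ 2 / Real.log X ^ (A + 1) := by
    apply HL X hX1 r _ _ B2 hbox hj3 mB2
    · intro t ht
      have := sB2 ht
      exact ⟨by linarith [this.1], by linarith [this.2]⟩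
    · have h1 : volume.real B2 ≤ volume.real {t : ℝ | |t| ≤ T ∧ (X : ℝ) ^ (1 - δ) < F t} := by
        apply measureReal_mono
        · intro t ht
          exact ⟨ht.1.2, ht.2⟩
        · have : {t : ℝ | |t| ≤ T ∧ (X : ℝ) ^ (1 - δ) < F t} ⊆ Set.Icc (-T) T := fun t ht => abs_le.1 ht.1
          exact ne_top_of_le_ne_top (by rw [Real.volume_Icc]; exact ENNReal.ofReal_ne_top) (measure_mono this)
      have h2 := HM X hX4 r _ _ T hbox hT1 le_rfl
      refine (h1.trans h2).trans ?_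
      exact Real.rpow_le_rpow_of_exponent_le (by linarith) hδ1
    · intro i hi t ht
      have h3 := HP X hX2 d χ (κ i) (j i) t hd hdB (by push_cast at hi; exact hi) ?_ ht.1.1 ?_
      · push_cast
        exact h3
      · refine (hj1 i).trans ?_
        nth_rewrite 2 [← Real.rpow_one (X : ℝ)]
        exact Real.rpow_le_rpow_of_exponent_le (by linarith) (by norm_num)
      · exact ht.1.2.trans hTX
  have hLp : (0 : ℝ) < Real.log X ^ A := by positivity
  have e6 : (X : ℝ) ^ (2 - e * δ / 2) ≤ (X : ℝ) ^ 2 / Real.log X ^ A / 2 := by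
    have h1 := H5 X hX5
    have h2 : (X : ℝ) ^ (2 - e * δ / 2) * (X : ℝ) ^ (e * δ / 2) = (X : ℝ) ^ 2 := by
      rw [← Real.rpow_add hX0]
      rw [show (2 - e * δ / 2 + e * δ / 2 : ℝ) = ((2 : ℕ) : ℝ) by push_cast; ring, Real.rpow_natCast]
    rw [div_div, le_div_iff₀ (by positivity), ← h2]
    exact mul_le_mul_of_nonneg_left (by linarith) (by positivity)
  have e7 : (X : ℝ) ^ 2 / Real.log X ^ (A + 1) ≤ (X : ℝ) ^ 2 / Real.log X ^ A / 2 := by
    rw [div_div]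
    apply div_le_div_of_nonneg_left (by positivity) (by positivity)
    rw [pow_succ]
    exact mul_le_mul_of_nonneg_left hL hLp.le
  rw [e1]
  linarith

end Pool.Agent.H88.PSI

end

section

/-!
# PSI BoxC: the window averages of a box of type II

`f = tw χ (Pp κ j)`, supported on `n < 192 X =: N`; `SS f N ≤ X L^C` (`prod_bd`, `tau_mom`); `K = ⌈L^A2⌉`, `100 SS/K^2 ≤ X/L^(A+1)`;
`e' = min e (1/100) / 2`; `box_i e'` with `A' = A + A2 + 1` gives `K'`; `T0 = L^K'`, `T = X^(5/6 - e')`;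
`pars` with `hs = log(1 + H/X_i)`, `hl = log(1+H1/X_i)` (`y - y^2/2 ≤ log(1+y) ≤ y`; `|hs/H - hl/H1| ≤ H1/X^2`).  The term
`X K T0^3 H1^2 N/X^4 SS ≤ X L^(A2 + 3K' - 2 A1 + C')` is small for `A1 ≥ A0`; `(1/H^2)(1/T + N(1+log N)/T^2) SS X K` saves a power (`H T ≥ X^(1+e/2)`).
If `3 X < ∏ 2^(j i)` or `2^r ∏ 2^(j i) < X` then `D f H H1 x = 0` (`prod_supp`; the windows lie in `(X, 3X]`).
-/

set_option autoImplicit false

namespace Pool.Agent.H88.PSI

open Finset MeasureTheory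

private theorem BoxC_D0 (f : ℕ → ℂ) (X H H1 x : ℕ) (hx : x ∈ Ico X (2 * X)) (hH : H ≤ X)
    (hH1 : H1 ≤ X) (h : ∀ n, X < n → n ≤ 3 * X → f n = 0) : D f H H1 x = 0 := by
  rw [mem_Ico] at hx
  have h1 : ∀ H' : ℕ, H' ≤ X → W f H' x = 0 := by
    intro H' hH'
    unfold W
    apply sum_eq_zero
    intro n hn
    rw [mem_Ioc] at hn
    exact h n (by omega) (by omega)
  unfold D
  rw [h1 H hH, h1 H1 hH1]
  simp

private theorem BoxC_log (y : ℝ) (hy : 0 ≤ y) : y - y ^ 2 / 2 ≤ Real.log (1 + y) := by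
  have h := Real.le_log_one_add_of_nonneg hy
  refine le_trans ?_ h
  rw [le_div_iff₀ (by linarith only [hy])]
  nlinarith only [hy, mul_nonneg hy (sq_nonneg y), sq_nonneg y]

private theorem BoxC_hd (X Xi H H1 : ℝ) (hX : 0 < X) (hXi : X ≤ Xi) (hH : 0 < H) (hH1 : H ≤ H1) :
    |Real.log (1 + H / Xi) / H - Real.log (1 + H1 / Xi) / H1| ≤ H1 / X ^ 2 := by
  have hXi0 : 0 < Xi := by linarith only [hX, hXi]
  have hH10 : 0 < H1 := by linarith only [hH, hH1]
  have key : ∀ h : ℝ, 0 < h → h ≤ H1 →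
      1 / Xi - H1 / (2 * Xi ^ 2) ≤ Real.log (1 + h / Xi) / h ∧ Real.log (1 + h / Xi) / h ≤ 1 / Xi := by
    intro h hh hh1
    have h0 : 0 ≤ h / Xi := by positivity
    constructor
    · rw [le_div_iff₀ hh]
      refine le_trans ?_ (BoxC_log _ h0)
      have : (1 / Xi - H1 / (2 * Xi ^ 2)) * h ≤ (1 / Xi - h / (2 * Xi ^ 2)) * h := by
        apply mul_le_mul_of_nonneg_right _ hh.le
        have := div_le_div_of_nonneg_right hh1 (by positivity : (0:ℝ) ≤ 2 * Xi ^ 2)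
        linarith only [this]
      refine this.trans (le_of_eq ?_)
      field_simp
    · rw [div_le_iff₀ hh]
      have := Real.log_le_sub_one_of_pos (by positivity : 0 < 1 + h / Xi)
      have e1 : 1 / Xi * h = h / Xi := by ring
      rw [e1]; linarith only [this]
  obtain ⟨a1, a2⟩ := key H hH hH1
  obtain ⟨b1, b2⟩ := key H1 hH10 le_rfl
  have h3 : H1 / (2 * Xi ^ 2) ≤ H1 / X ^ 2 := by
    apply div_le_div_of_nonneg_left hH10.le (by positivity)
    have : X ^ 2 ≤ Xi ^ 2 := pow_le_pow_left₀ hX.le hXi 2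
    nlinarith only [this, sq_nonneg Xi]
  rw [abs_le]
  constructor <;> linarith only [a1, b2, h3, a2, b1]

private theorem BoxC_ss : ∃ X0 : ℕ, ∀ X : ℕ, X0 ≤ X →
    ∀ (r d : ℕ) (χ : DirichletCharacter ℂ d) (κ : Fin r → Fin 3) (j : Fin r → ℕ), r ≤ 6 → 1 ≤ d →
    (∀ i, (2 : ℝ) ^ j i ≤ (X : ℝ) ^ (11 / 24 : ℝ)) → ∏ i, 2 ^ j i ≤ 3 * X →
    SS (tw χ (Pp κ j)) (192 * X) ≤ X * Real.log X ^ 4109 := by
  obtain ⟨m, hm⟩ : ∃ m : ℕ, 2 ^ 12 = m := ⟨_, rfl⟩
  obtain ⟨c, hc⟩ : ∃ c : ℝ, c = 192 * 2 ^ 12 * 3 ^ m := ⟨_, rfl⟩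
  obtain ⟨X1, H1⟩ := Pool.Agent.H80.LV.log_ge (max c 200)
  refine ⟨max X1 3, ?_⟩
  intro X hX r d χ κ j hr hd hj1 hj2
  rw [max_le_iff] at hX
  have hX3 := hX.2
  have hXr : (3 : ℝ) ≤ X := by exact_mod_cast hX3
  have hX0 : (0 : ℝ) < X := by linarith only [hXr]
  have hLc := H1 X hX.1
  have hL1 : c ≤ Real.log X := (le_max_left _ _).trans hLc
  have hL2 : (200 : ℝ) ≤ Real.log X := (le_max_right _ _).trans hLc
  set L := Real.log X with hL
  have hbox := BoxI_box X hX3 χ κ j hr hj1 hj2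
  have e1 : tw χ (Pp κ j) = ∏ i, tw χ (pc (κ i) (j i)) := by
    unfold Pp
    exact tw_prod χ univ _ (by omega)
  have h2L : 1 ≤ 2 * L := by linarith only [hL2]
  have hpt : ∀ n ∈ Icc 1 (192 * X), ‖tw χ (Pp κ j) n‖ ^ 2 ≤ (2 * L) ^ 12 * tau n ^ 12 := by
    intro n hn
    rw [mem_Icc] at hn
    have h3 := prod_bd (fun i => tw χ (pc (κ i) (j i))) (2 * L) h2L (fun i n => hbox.bd i n) n
    rw [← e1] at h3
    have ht : 1 ≤ tau n := by
      unfold tau
      have : 0 < n.divisors.card := Finset.card_pos.2 ⟨1, Nat.one_mem_divisors.2 (by omega)⟩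
      exact_mod_cast this
    have h4 : (2 * L) ^ r * tau n ^ r ≤ (2 * L) ^ 6 * tau n ^ 6 :=
      mul_le_mul (pow_le_pow_right₀ h2L hr) (pow_le_pow_right₀ ht hr) (by positivity) (by positivity)
    have h5 := pow_le_pow_left₀ (norm_nonneg _) (h3.trans h4) 2
    refine h5.trans (le_of_eq ?_)
    ring
  have h6 : SS (tw χ (Pp κ j)) (192 * X) ≤ (2 * L) ^ 12 * ∑ n ∈ Icc 1 (192 * X), tau n ^ 12 := by
    unfold SS
    rw [mul_sum]
    exact sum_le_sum hpt
  have h7 := tau_mom 12 (192 * X)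
  have hlogN : 1 + Real.log ((192 * X : ℕ) : ℝ) ≤ 3 * L := by
    have h10 : ((192 * X : ℕ) : ℝ) = 192 * X := by push_cast; ring
    rw [h10, Real.log_mul (by norm_num) hX0.ne']
    have : Real.log 192 ≤ 192 - 1 := Real.log_le_sub_one_of_pos (by norm_num)
    rw [← hL]
    linarith only [hL2, this]
  have hlog0 : 0 ≤ 1 + Real.log ((192 * X : ℕ) : ℝ) := by
    have : 0 ≤ Real.log ((192 * X : ℕ) : ℝ) := Real.log_natCast_nonneg _
    linarith only [this]
  have h8 : ∑ n ∈ Icc 1 (192 * X), tau n ^ 12 ≤ 192 * X * (3 * L) ^ m := by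
    rw [hm] at h7
    refine h7.trans ?_
    have h9 : (1 + Real.log ((192 * X : ℕ) : ℝ)) ^ m ≤ (3 * L) ^ m := pow_le_pow_left₀ hlog0 hlogN m
    have h10 : ((192 * X : ℕ) : ℝ) = 192 * X := by push_cast; ring
    calc ((192 * X : ℕ) : ℝ) * (1 + Real.log ((192 * X : ℕ) : ℝ)) ^ m
        ≤ ((192 * X : ℕ) : ℝ) * (3 * L) ^ m := mul_le_mul_of_nonneg_left h9 (by positivity)
      _ = 192 * X * (3 * L) ^ m := by rw [h10]
  have hm2 : 4109 = 12 + m + 1 := by omega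
  calc SS (tw χ (Pp κ j)) (192 * X) ≤ (2 * L) ^ 12 * (192 * X * (3 * L) ^ m) :=
        h6.trans (mul_le_mul_of_nonneg_left h8 (by positivity))
    _ = (192 * 2 ^ 12 * 3 ^ m) * (X * L ^ (12 + m)) := by
        rw [mul_pow, mul_pow, pow_add]; ring
    _ = c * (X * L ^ (12 + m)) := by rw [hc]
    _ ≤ L * (X * L ^ (12 + m)) := mul_le_mul_of_nonneg_right hL1 (by positivity)
    _ = X * L ^ 4109 := by rw [hm2, pow_succ]; ring

/-- the first error term -/
private theorem BoxC_b (X K T0 H1 S L : ℝ) (A A2 K' A1 : ℕ) (hX : 0 < X) (hL : 10 ^ 8 ≤ L)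
    (hK0 : 0 ≤ K) (hK : K ≤ 2 * L ^ A2) (hT0 : T0 = L ^ K') (hH10 : 0 ≤ H1) (hH1 : H1 ≤ X / L ^ A1)
    (hS0 : 0 ≤ S) (hS : S ≤ X * L ^ 4109) (hA : A2 + 3 * K' + 4109 + A + 1 ≤ 2 * A1) :
    8 * X * K * (1000 * (T0 ^ 3 * H1 ^ 2 * (192 * X) / X ^ 4) * S) ≤ X / (4 * L ^ A) := by
  have hL0 : 0 < L := by linarith only [hL]
  have hL1 : 1 ≤ L := by linarith only [hL]
  have h1 : H1 ^ 2 ≤ X ^ 2 / L ^ (2 * A1) := by
    have := pow_le_pow_left₀ hH10 hH1 2
    rw [div_pow, ← pow_mul, mul_comm A1 2] at this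
    exact this
  have h2 : T0 ^ 3 = L ^ (3 * K') := by rw [hT0, ← pow_mul, mul_comm]
  have h3 : 8 * X * K * (1000 * (T0 ^ 3 * H1 ^ 2 * (192 * X) / X ^ 4) * S)
      ≤ 8 * X * (2 * L ^ A2) * (1000 * (L ^ (3 * K') * (X ^ 2 / L ^ (2 * A1)) * (192 * X) / X ^ 4) *
        (X * L ^ 4109)) := by
    rw [h2]
    gcongr
  refine h3.trans ?_
  have h4 : 8 * X * (2 * L ^ A2) * (1000 * (L ^ (3 * K') * (X ^ 2 / L ^ (2 * A1)) * (192 * X) / X ^ 4) *
        (X * L ^ 4109)) = 3072000 * X * L ^ (A2 + 3 * K' + 4109) / L ^ (2 * A1) := by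
    rw [pow_add, pow_add]
    field_simp
    ring
  rw [h4]
  have h5 : L ^ (A2 + 3 * K' + 4109 + A + 1) ≤ L ^ (2 * A1) := pow_le_pow_right₀ hL1 hA
  rw [div_le_div_iff₀ (by positivity) (by positivity)]
  calc 3072000 * X * L ^ (A2 + 3 * K' + 4109) * (4 * L ^ A)
      = 12288000 * (X * (L ^ (A2 + 3 * K' + 4109) * L ^ A)) := by ring
    _ ≤ L * (X * (L ^ (A2 + 3 * K' + 4109) * L ^ A)) :=
        mul_le_mul_of_nonneg_right (by linarith only [hL]) (by positivity)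
    _ = X * L ^ (A2 + 3 * K' + 4109 + A + 1) := by
        rw [pow_succ L (A2 + 3 * K' + 4109 + A), pow_add L (A2 + 3 * K' + 4109) A]; ring
    _ ≤ X * L ^ (2 * A1) := mul_le_mul_of_nonneg_left h5 hX.le

/-- the second error term -/
private theorem BoxC_c (X K H T N S L P Q : ℝ) (A A2 : ℕ) (hX : 1 ≤ X) (hL : 1 ≤ L)
    (hK0 : 0 ≤ K) (hK : K ≤ 2 * L ^ A2) (hH : 0 < H) (hT : 0 < T) (hN0 : 0 ≤ N)
    (hN : N ≤ 576 * L * X)
    (hS0 : 0 ≤ S) (hS : S ≤ X * L ^ 4109) (hP : P ≤ H) (hP0 : 0 < P) (hHT : X ≤ H * T)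
    (hHT2 : X ^ 2 * Q ≤ (H * T) ^ 2) (hQ0 : 0 < Q)
    (h1 : 73728000 * L ^ (A2 + 4110 + A) ≤ P) (h2 : 73728000 * L ^ (A2 + 4110 + A) ≤ Q) :
    8 * X * K * (1000 * (1 / H ^ 2 * (1 / T + N / T ^ 2)) * S) ≤ X / (4 * L ^ A) := by
  have hX0 : 0 < X := by linarith only [hX]
  have hL0 : 0 < L := by linarith only [hL]
  have e1 : 1 / H ^ 2 * (1 / T) ≤ 1 / (P * X) := by
    rw [one_div_mul_one_div]
    apply div_le_div_of_nonneg_left (by norm_num) (by positivity)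
    calc P * X ≤ H * (H * T) := mul_le_mul hP hHT hX0.le hH.le
      _ = H ^ 2 * T := by ring
  have e2 : 1 / H ^ 2 * (N / T ^ 2) ≤ 576 * L / (X * Q) := by
    rw [div_mul_div_comm, one_mul]
    calc N / (H ^ 2 * T ^ 2) ≤ 576 * L * X / (X ^ 2 * Q) := by
          apply div_le_div₀ (by positivity) hN (by positivity)
          calc X ^ 2 * Q ≤ (H * T) ^ 2 := hHT2
            _ = H ^ 2 * T ^ 2 := by ring
      _ = 576 * L / (X * Q) := by field_simp
  have e3 : 1 / H ^ 2 * (1 / T + N / T ^ 2) ≤ 1 / (P * X) + 576 * L / (X * Q) := by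
    rw [mul_add]; linarith only [e1, e2]
  have e4 : 1 / (P * X) + 576 * L / (X * Q) ≤ (1 / X) * (576 * L * (1 / P + 1 / Q)) := by
    have : 1 / (P * X) ≤ (1 / X) * (576 * L * (1 / P)) := by
      have h3 : 1 / (P * X) = (1 / X) * (1 * (1 / P)) := by field_simp
      rw [h3]
      gcongr
      linarith only [hL]
    have h4 : 576 * L / (X * Q) = (1 / X) * (576 * L * (1 / Q)) := by field_simp
    rw [h4]
    have h5 : (1 / X) * (576 * L * (1 / P + 1 / Q)) =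
      (1 / X) * (576 * L * (1 / P)) + (1 / X) * (576 * L * (1 / Q)) := by ring
    rw [h5]; linarith only [this]
  have hW0 : 0 ≤ 1 / H ^ 2 * (1 / T + N / T ^ 2) := by positivity
  have h3 : 8 * X * K * (1000 * (1 / H ^ 2 * (1 / T + N / T ^ 2)) * S)
      ≤ 8 * X * (2 * L ^ A2) * (1000 * ((1 / X) * (576 * L * (1 / P + 1 / Q))) * (X * L ^ 4109)) := by
    have := e3.trans e4
    gcongr
  refine h3.trans ?_
  have h4 : 8 * X * (2 * L ^ A2) * (1000 * ((1 / X) * (576 * L * (1 / P + 1 / Q))) * (X * L ^ 4109))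
      = X * (9216000 * L ^ (A2 + 4110) * (1 / P + 1 / Q)) := by
    rw [show A2 + 4110 = A2 + 1 + 4109 by ring, pow_add, pow_add]
    field_simp
    ring
  rw [h4]
  have h5 : 73728000 * L ^ (A2 + 4110 + A) * (1 / P) ≤ 1 := by
    rw [mul_one_div, div_le_one hP0]; exact h1
  have h6 : 73728000 * L ^ (A2 + 4110 + A) * (1 / Q) ≤ 1 := by
    rw [mul_one_div, div_le_one hQ0]; exact h2
  rw [pow_add _ (A2 + 4110) A] at h5 h6
  have h7 : 9216000 * L ^ (A2 + 4110) * (1 / P + 1 / Q) ≤ 1 / (4 * L ^ A) := by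
    rw [le_div_iff₀ (by positivity)]
    have e5 : 9216000 * L ^ (A2 + 4110) * (1 / P + 1 / Q) * (4 * L ^ A)
        = (73728000 * (L ^ (A2 + 4110) * L ^ A) * (1 / P) + 73728000 * (L ^ (A2 + 4110) * L ^ A) * (1 / Q)) / 2 := by
      ring
    rw [e5]; linarith only [h5, h6]
  calc X * (9216000 * L ^ (A2 + 4110) * (1 / P + 1 / Q)) ≤ X * (1 / (4 * L ^ A)) :=
        mul_le_mul_of_nonneg_left h7 hX0.le
    _ = X / (4 * L ^ A) := by ring

private theorem BoxC_a (X K S L : ℝ) (A : ℕ) (hX : 0 < X) (hL : 400 ≤ L)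
    (hK : L ^ (4110 + A) ≤ K) (hS : S ≤ X * L ^ 4109) :
    100 * S / K ^ 2 ≤ X / (4 * L ^ A) := by
  have hL0 : 0 < L := by linarith only [hL]
  have hL1 : 1 ≤ L := by linarith only [hL]
  have hK0 : 0 < K := lt_of_lt_of_le (by positivity) hK
  have h1 : (L ^ (4110 + A)) ^ 2 ≤ K ^ 2 := pow_le_pow_left₀ (by positivity) hK 2
  calc 100 * S / K ^ 2 ≤ 100 * (X * L ^ 4109) / (L ^ (4110 + A)) ^ 2 := by
        apply div_le_div₀ (by positivity) (by linarith) (by positivity) h1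
    _ ≤ X / (4 * L ^ A) := by
        rw [div_le_div_iff₀ (by positivity) (by positivity)]
        have h2 : L ^ (4110 + A) = L ^ 4109 * L * L ^ A := by
          rw [show 4110 + A = 4109 + 1 + A by ring, pow_add, pow_add]; ring
        have h3 : 1 ≤ L ^ 4109 := one_le_pow₀ hL1
        have h4 : 1 ≤ L ^ A := one_le_pow₀ hL1
        rw [h2]
        calc 100 * (X * L ^ 4109) * (4 * L ^ A) = 400 * (X * (L ^ 4109 * L ^ A)) := by ring
          _ ≤ L * (X * (L ^ 4109 * L ^ A)) := mul_le_mul_of_nonneg_right hL (by positivity)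
          _ = X * (L ^ 4109 * L * L ^ A) * 1 := by ring
          _ ≤ X * (L ^ 4109 * L * L ^ A) * (L ^ 4109 * L * L ^ A) := by
              apply mul_le_mul_of_nonneg_left _ (by positivity)
              have : 1 * 1 * 1 ≤ L ^ 4109 * L * L ^ A := by gcongr
              linarith
          _ = X * (L ^ 4109 * L * L ^ A) ^ 2 := by ring

theorem box_c (hpt : PTB) (e : ℝ) (he : 0 < e) (A B : ℕ) : ∃ A0 : ℕ, ∀ A1 : ℕ, A0 ≤ A1 → ∃ X0 : ℕ,
    ∀ X : ℕ, X0 ≤ X → ∀ (r d H H1 : ℕ) (χ : DirichletCharacter ℂ d) (κ : Fin r → Fin 3)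
      (j : Fin r → ℕ), r ≤ 6 → 1 ≤ d → (d : ℝ) ≤ Real.log X ^ B →
    (X : ℝ) ^ (1 / 6 + e) ≤ H → (H : ℝ) ≤ (X : ℝ) ^ (1 / 3 : ℝ) → H1 = ⌊X / Real.log X ^ A1⌋₊ →
    (∀ i, (2 : ℝ) ^ j i ≤ (X : ℝ) ^ (11 / 24 : ℝ)) →
    ∑ x ∈ Ico X (2 * X), ‖D (tw χ (Pp κ j)) H H1 x‖ ^ 2 ≤ X / Real.log X ^ A := by
  set A2 : ℕ := 4110 + A with hA2
  set e' : ℝ := min e (1 / 100) / 2 with he'def
  have he'0 : 0 < e' := by
    have : 0 < min e (1 / 100) := lt_min he (by norm_num)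
    positivity
  have he'1 : e' ≤ 1 / 100 := by
    have := min_le_right e (1 / 100 : ℝ)
    linarith only [he'def, he'0, this]
  have he'2 : e' ≤ e / 2 := by
    have := min_le_left e (1 / 100 : ℝ)
    linarith only [he'def, this]
  obtain ⟨K', X1, hI⟩ := box_i hpt e' he'0 he'1 (A + A2 + 1) B
  obtain ⟨X2, hSS⟩ := BoxC_ss
  refine ⟨A2 + 3 * K' + 4109 + A + 1, ?_⟩
  intro A1 hA1
  obtain ⟨X3, hX3⟩ := Pool.Agent.H80.LV.log_ge (10 ^ 8)
  obtain ⟨X4, hX4⟩ := Pool.Agent.H80.LV.log_pow_le (1 / 6) 73728000 (by norm_num) (by norm_num) (A2 + 4110 + A)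
  obtain ⟨X5, hX5⟩ := Pool.Agent.H80.LV.log_pow_le e 73728000 he (by norm_num) (A2 + 4110 + A)
  obtain ⟨X6, hX6⟩ := Pool.Agent.H80.LV.log_pow_le (1 / 3) 2 (by norm_num) (by norm_num) A1
  obtain ⟨X7, hX7⟩ := Pool.Agent.H80.LV.log_pow_le (1 / 2) 1 (by norm_num) (by norm_num) K'
  refine ⟨max (max (max X1 X2) (max X3 X4)) (max (max X5 X6) (max X7 8)), ?_⟩
  intro X hX r d H H1 χ κ j hr hd hdB hH hH' hH1 hj
  simp only [max_le_iff] at hX
  obtain ⟨⟨⟨hXa, hXb⟩, hXc, hXd⟩, ⟨hXe, hXf⟩, hXg, hXh⟩ := hX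
  have hX8 : (8 : ℝ) ≤ X := by exact_mod_cast hXh
  have hX0 : (0 : ℝ) < X := by linarith only [he'0, he'1, hX8]
  have hX1' : (1 : ℝ) ≤ X := by linarith only [he'0, he'1, hX8]
  have hL := hX3 X hXc
  have hP := hX4 X hXd
  have hQ := hX5 X hXe
  have h6 := hX6 X hXf
  have h7 := hX7 X hXg
  set L := Real.log X with hLdef
  have hL1 : 1 ≤ L := by linarith only [he'0, he'1, hL]
  have hL0 : 0 < L := by linarith only [he'0, he'1, hL]
  -- sizes
  have hHpos : (0 : ℝ) < H := lt_of_lt_of_le (Real.rpow_pos_of_pos hX0 _) hH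
  have hH16 : (X : ℝ) ^ (1 / 6 : ℝ) ≤ H :=
    (Real.rpow_le_rpow_of_exponent_le hX1' (by linarith only [he'0, he'2])).trans hH
  have hLA1 : (0 : ℝ) < L ^ A1 := by positivity
  have hH1le : (H1 : ℝ) ≤ X / L ^ A1 := by
    rw [hH1]; exact Nat.floor_le (by positivity)
  have hH1X : (H1 : ℝ) ≤ X := by
    refine hH1le.trans ?_
    apply div_le_self hX0.le (one_le_pow₀ hL1)
  have hH1Xn : H1 ≤ X := by exact_mod_cast hH1X
  have hX13 : (X : ℝ) ^ (1 / 3 : ℝ) * (X : ℝ) ^ (2 / 3 : ℝ) = X := by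
    rw [← Real.rpow_add hX0]; norm_num
  have hX13b : (X : ℝ) ^ (2 / 3 : ℝ) = (X : ℝ) ^ (1 / 3 : ℝ) * (X : ℝ) ^ (1 / 3 : ℝ) := by
    rw [← Real.rpow_add hX0]; norm_num
  have hX132 : (2 : ℝ) ≤ (X : ℝ) ^ (1 / 3 : ℝ) := by
    have h8 : (8 : ℝ) ^ (1 / 3 : ℝ) = 2 := by
      rw [show (8 : ℝ) = 2 ^ (3 : ℝ) by norm_num, ← Real.rpow_mul (by norm_num)]; norm_num
    rw [← h8]
    exact Real.rpow_le_rpow (by norm_num) hX8 (by norm_num)
  have hHH1 : H ≤ H1 := by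
    rw [hH1]
    apply Nat.le_floor
    rw [le_div_iff₀ hLA1]
    calc (H : ℝ) * L ^ A1 ≤ (X : ℝ) ^ (1 / 3 : ℝ) * (X : ℝ) ^ (1 / 3 : ℝ) := by
          apply mul_le_mul hH' (by linarith only [he'0, he'1, h6, hX132]) hLA1.le (by positivity)
      _ ≤ (X : ℝ) ^ (1 / 3 : ℝ) * (X : ℝ) ^ (2 / 3 : ℝ) := by
          apply mul_le_mul_of_nonneg_left _ (by positivity)
          exact Real.rpow_le_rpow_of_exponent_le hX1' (by norm_num)
      _ = X := hX13
  have hHX : H ≤ X := hHH1.trans hH1Xn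
  have hRHS : (0 : ℝ) ≤ X / L ^ A := by positivity
  -- boxes out of range
  have hsup : ∀ n, tw χ (Pp κ j) n ≠ 0 → ∏ i, 2 ^ j i ≤ n ∧ n ≤ 2 ^ r * ∏ i, 2 ^ j i := by
    intro n hn
    have e1 : tw χ (Pp κ j) = ∏ i, tw χ (pc (κ i) (j i)) := by
      unfold Pp
      exact tw_prod χ univ _ (by omega)
    rw [e1] at hn
    have h3 := prod_supp (fun i => tw χ (pc (κ i) (j i))) (fun i => 2 ^ j i) ?_ n hn
    · refine ⟨h3.1, h3.2.trans (le_of_eq ?_)⟩
      rw [prod_mul_distrib]; simp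
    · intro i n hn
      have h3 : pc (κ i) (j i) n ≠ 0 := by
        intro h0
        apply hn
        show (((pc (κ i) (j i)) n : ℝ) : ℂ) * χ (n : ZMod d) = 0
        rw [h0]; simp
      unfold pc seg at h3
      simp only [ArithmeticFunction.coe_mk] at h3
      split_ifs at h3 with h4
      · refine ⟨h4.2.1, ?_⟩
        have := h4.2.2
        rw [pow_succ] at this
        show n < 2 * 2 ^ j i
        omega
      · exact absurd rfl h3
  have hzero : (∀ n, X < n → n ≤ 3 * X → tw χ (Pp κ j) n = 0) →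
      ∑ x ∈ Ico X (2 * X), ‖D (tw χ (Pp κ j)) H H1 x‖ ^ 2 ≤ X / L ^ A := by
    intro h
    rw [sum_eq_zero]
    · exact hRHS
    · intro x hx
      rw [BoxC_D0 _ X H H1 x hx hHX hH1Xn h]; simp
  by_cases hc1 : ∏ i, 2 ^ j i ≤ 3 * X
  swap
  · apply hzero
    intro n _ hn
    by_contra h0
    have := (hsup n h0).1
    omega
  by_cases hc2 : X ≤ 2 ^ r * ∏ i, 2 ^ j i
  swap
  · apply hzero
    intro n hn _
    by_contra h0
    have := (hsup n h0).2
    omega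
  -- parameters
  set K : ℕ := ⌈L ^ A2⌉₊ with hKdef
  have hK1 : L ^ A2 ≤ K := Nat.le_ceil _
  have hLA2 : (1 : ℝ) ≤ L ^ A2 := one_le_pow₀ hL1
  have hK2 : (K : ℝ) ≤ 2 * L ^ A2 := by
    have := (Nat.ceil_lt_add_one (by positivity : 0 ≤ L ^ A2)).le
    linarith only [hLA2, this]
  have hK3 : 1 ≤ K := by
    have : (1 : ℝ) ≤ K := hLA2.trans hK1
    exact_mod_cast this
  have hKH : K ≤ H := by
    have h8 : (K : ℝ) ≤ H := by
      refine (hK2.trans ?_).trans hH16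
      refine le_trans ?_ hP
      have h9 : L ^ A2 ≤ L ^ (A2 + 4110 + A) := pow_le_pow_right₀ hL1 (by omega)
      linarith only [he'0, he'1, hLA2, h9, pow_pos hL0 (A2 + 4110 + A)]
    exact_mod_cast h8
  set N : ℕ := 192 * X with hNdef
  have h2r : 2 ^ r * ∏ i, 2 ^ j i ≤ N := by
    calc 2 ^ r * ∏ i, 2 ^ j i ≤ 2 ^ 6 * (3 * X) :=
          Nat.mul_le_mul (Nat.pow_le_pow_right (by norm_num) hr) hc1
      _ = N := by rw [hNdef]; ring
  have hS := hSS X hXb r d χ κ j hr hd hj hc1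
  set S := SS (tw χ (Pp κ j)) N with hSdef
  have hS0 : 0 ≤ S := sum_nonneg fun _ _ => sq_nonneg _
  set T0 : ℝ := L ^ K' with hT0def
  set T : ℝ := (X : ℝ) ^ (5 / 6 - e') with hTdef
  have hT01 : 1 ≤ T0 := one_le_pow₀ hL1
  have hT0T : T0 ≤ T := by
    have h8 : T0 ≤ (X : ℝ) ^ (1 / 2 : ℝ) := by linarith only [h7]
    refine h8.trans ?_
    exact Real.rpow_le_rpow_of_exponent_le hX1' (by linarith only [he'0, he'1])
  have hTpos : 0 < T := by linarith only [he'0, he'1, hT01, hT0T]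
  have hI' := hI X hXa r d N χ κ j hr hd hdB hj hc1 hc2 h2r
  set I : ℝ := ∫ t in {t : ℝ | T0 ≤ |t| ∧ |t| ≤ T}, ‖DP (tw χ (Pp κ j)) N t‖ ^ 2 with hIdef
  have hconv := conv (tw χ (Pp κ j)) N X H H1 K (by omega) hK3 hKH hHH1 hH1Xn (by omega)
  -- the Plancherel bound
  have hpars : ∀ i ∈ range K, ∫ u, ‖Gw (tw χ (Pp κ j)) N (Real.log (1 + H / (X * (1 + (i : ℝ) / K))))
          (Real.log (1 + H1 / (X * (1 + (i : ℝ) / K)))) H H1 u‖ ^ 2
      ≤ 1000 * (T0 ^ 3 * H1 ^ 2 * N / X ^ 4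
          + 1 / H ^ 2 * (1 / T + N * (1 + Real.log N) / T ^ 2)) * S + 4 / X ^ 2 * I := by
    intro i _
    have hKr : (0 : ℝ) < K := by exact_mod_cast hK3
    have hi0 : (0 : ℝ) ≤ (i : ℝ) / K := by positivity
    set Xi : ℝ := X * (1 + (i : ℝ) / K) with hXi
    have hXiX : (X : ℝ) ≤ Xi := by rw [hXi]; nlinarith only [hi0]
    have hXi0 : 0 < Xi := by linarith only [he'0, he'1, hX8, hXiX]
    have hH1pos : (0 : ℝ) < H1 := by
      have : (H : ℝ) ≤ H1 := by exact_mod_cast hHH1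
      linarith only [hHpos, this]
    have hup : ∀ h : ℝ, 0 ≤ h → Real.log (1 + h / Xi) ≤ h / X := by
      intro h hh
      have h8 := Real.log_le_sub_one_of_pos (by positivity : 0 < 1 + h / Xi)
      have h9 : h / Xi ≤ h / X := div_le_div_of_nonneg_left hh hX0 hXiX
      linarith only [h8, h9]
    have hlo : ∀ h : ℝ, 0 ≤ h → 0 ≤ Real.log (1 + h / Xi) := by
      intro h hh
      apply Real.log_nonneg
      have : 0 ≤ h / Xi := by positivity
      linarith only [this]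
    exact pars (tw χ (Pp κ j)) N X H H1 _ _ T0 T (by omega) hX1'
      (by exact_mod_cast (hK3.trans hKH)) (by exact_mod_cast hHH1) hH1X (hlo _ hHpos.le)
      (hup _ hHpos.le) (hlo _ hH1pos.le) (hup _ hH1pos.le)
      (BoxC_hd X Xi H H1 hX0 hXiX hHpos (by exact_mod_cast hHH1)) hT01 hT0T
  set E : ℝ := 1000 * (T0 ^ 3 * H1 ^ 2 * N / X ^ 4
          + 1 / H ^ 2 * (1 / T + N * (1 + Real.log N) / T ^ 2)) * S + 4 / X ^ 2 * I with hE
  have hsumE : ∑ i ∈ range K, ∫ u, ‖Gw (tw χ (Pp κ j)) N (Real.log (1 + H / (X * (1 + (i : ℝ) / K))))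
          (Real.log (1 + H1 / (X * (1 + (i : ℝ) / K)))) H H1 u‖ ^ 2 ≤ K * E := by
    refine (sum_le_sum hpars).trans (le_of_eq ?_)
    simp [sum_const, card_range, nsmul_eq_mul]
  -- numerical bounds
  have hNr : (N : ℝ) = 192 * X := by rw [hNdef]; push_cast; ring
  have hlogN : 1 + Real.log N ≤ 3 * L := by
    rw [hNr, Real.log_mul (by norm_num) hX0.ne']
    have : Real.log 192 ≤ 192 - 1 := Real.log_le_sub_one_of_pos (by norm_num)
    linarith only [he'0, he'1, hL, this]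
  have hlogN0 : 0 ≤ 1 + Real.log (N : ℝ) := by
    have : 0 ≤ Real.log (N : ℝ) := Real.log_natCast_nonneg _
    linarith only [he'0, he'1, this]
  have ea := BoxC_a X K S L A hX0 (by linarith only [he'0, he'1, hL]) (by rw [← hA2]; exact hK1) hS
  have eb := BoxC_b X K T0 H1 S L A A2 K' A1 hX0 hL (by positivity) hK2 rfl (by positivity) hH1le hS0 hS
    (by omega)
  have hHT : (X : ℝ) ^ (1 + e / 2) ≤ H * T := by
    calc (X : ℝ) ^ (1 + e / 2) ≤ (X : ℝ) ^ ((1 / 6 + e) + (5 / 6 - e')) :=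
          Real.rpow_le_rpow_of_exponent_le hX1' (by linarith only [he'2])
      _ = (X : ℝ) ^ (1 / 6 + e) * T := by rw [Real.rpow_add hX0]
      _ ≤ H * T := mul_le_mul_of_nonneg_right hH hTpos.le
  have hHT1 : (X : ℝ) ≤ H * T := by
    refine le_trans ?_ hHT
    nth_rewrite 1 [← Real.rpow_one (X : ℝ)]
    exact Real.rpow_le_rpow_of_exponent_le hX1' (by linarith only [he'0, he'2])
  have hHT2 : (X : ℝ) ^ 2 * (X : ℝ) ^ e ≤ (H * T) ^ 2 := by
    have h8 := pow_le_pow_left₀ (by positivity) hHT 2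
    refine le_trans (le_of_eq ?_) h8
    rw [← Real.rpow_natCast, ← Real.rpow_natCast, ← Real.rpow_mul hX0.le, ← Real.rpow_add hX0]
    congr 1
    push_cast
    ring
  have ec := BoxC_c X K H T (N * (1 + Real.log N)) S L ((X : ℝ) ^ (1 / 6 : ℝ)) ((X : ℝ) ^ e) A A2
    hX1' hL1 (by positivity) hK2 hHpos hTpos (by positivity)
    (by rw [hNr]; rw [hNr] at hlogN; nlinarith only [hlogN]) hS0 hS hH16 (by positivity) hHT1 hHT2 (by positivity) hP hQ
  have ed : 8 * X * K * (4 / X ^ 2 * I) ≤ X / (4 * L ^ A) := by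
    have hI0 : 0 ≤ I := setIntegral_nonneg_of_ae (Filter.Eventually.of_forall fun _ => sq_nonneg _)
    calc 8 * X * K * (4 / X ^ 2 * I) ≤ 8 * X * (2 * L ^ A2) * (4 / X ^ 2 * ((X : ℝ) ^ 2 / L ^ (A + A2 + 1))) := by
          gcongr
      _ = 64 * X / (L ^ A * L) := by
          have h8 : L ^ (A + A2 + 1) = L ^ A2 * (L ^ A * L) := by
            rw [show A + A2 + 1 = A2 + (A + 1) by omega, pow_add L A2 (A + 1), pow_succ L A]
          rw [h8]
          have h9 : L ^ A2 ≠ 0 := by positivity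
          generalize L ^ A2 = q at h9
          field_simp
          ring
      _ ≤ X / (4 * L ^ A) := by
          rw [div_le_div_iff₀ (by positivity) (by positivity)]
          have h8 : 0 < X * L ^ A := by positivity
          nlinarith only [he'0, h8, he'1, hL]
  have hfin : ∑ x ∈ Ico X (2 * X), ‖D (tw χ (Pp κ j)) H H1 x‖ ^ 2
      ≤ 100 * S / (K : ℝ) ^ 2 + 8 * X * (K * E) :=
    hconv.trans (by
      have := mul_le_mul_of_nonneg_left hsumE (by positivity : (0 : ℝ) ≤ 8 * X)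
      linarith only [this])
  have hE2 : 8 * X * (K * E) = 8 * X * K * (1000 * (T0 ^ 3 * H1 ^ 2 * (192 * X) / X ^ 4) * S)
      + 8 * X * K * (1000 * (1 / H ^ 2 * (1 / T + N * (1 + Real.log N) / T ^ 2)) * S)
      + 8 * X * K * (4 / X ^ 2 * I) := by
    rw [hE]
    nth_rewrite 1 [hNr]
    ring
  rw [hE2] at hfin
  have h4 : X / (4 * L ^ A) + (X / (4 * L ^ A) + X / (4 * L ^ A) + X / (4 * L ^ A)) = X / L ^ A := by
    field_simp; ring
  linarith only [ea, eb, ec, ed, hfin, h4]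

end Pool.Agent.H88.PSI

end
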