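import Pool.Agent.H94.EH.H88.PSI.Ti
import Pool.Agent.H94.EH.H91.EHA.SwK1
import Pool.Agent.H94.EH.M45
import Pool.Agent.H94.EH.M47
import Pool.Agent.H94.EH.M50
import Pool.Agent.H94.EH.M51
import Pool.Agent.H94.EH.M52

/-! The parts of this file: H88.PSI.Tii, H88.PSI.Asm, H88.PSI.HuxT, H76.VKT.FkUp, H97.VK.VChain, H76.VKT.Chain, H97.VK.Chain, H88.PSI.PtB, H91.L1.HuxI. -/

section

/-!
# PSI Tii: the terms of type II

`tp_dy`: `cl d u (Tp κ y w)` (and `tw χ (Tp κ y w)`) is a sum over `≤ (2 L)^6` boxes `j` (`y, w ≤ 2 L`), Cauchy-Schwarz: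
`|D(Tp)|^2 ≤ (2L)^6 ∑_j |D(Pp)|^2`; `box_c` with `A + 13`; `chi_cl`.
-/

set_option autoImplicit false

namespace Pool.Agent.H88.PSI

open Finset

private theorem Tii_sum {ι : Type*} (s : Finset ι) (f : ι → ArithmeticFunction ℝ) (n : ℕ) :
    (∑ i ∈ s, f i) n = ∑ i ∈ s, f i n := by
  classical
  induction s using Finset.induction_on with
  | empty => rw [Finset.sum_empty, Finset.sum_empty, ArithmeticFunction.zero_apply]
  | insert i s hi ih =>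
    rw [Finset.sum_insert hi, Finset.sum_insert hi, ArithmeticFunction.add_apply, ih]

private theorem Tii_tw {ι : Type*} {d : ℕ} (χ : DirichletCharacter ℂ d) (s : Finset ι)
    (f : ι → ArithmeticFunction ℝ) :
    (⇑(tw χ (∑ i ∈ s, f i)) : ℕ → ℂ) = fun n => ∑ i ∈ s, (tw χ (f i)) n := by
  funext n
  show ((((∑ i ∈ s, f i) n : ℝ) : ℂ)) * χ (n : ZMod d) =
    ∑ i ∈ s, ((f i n : ℝ) : ℂ) * χ (n : ZMod d)
  rw [Tii_sum, Complex.ofReal_sum, Finset.sum_mul]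

private theorem Tii_cs {ι : Type*} (s : Finset ι) (a : ι → ℂ) :
    ‖∑ i ∈ s, a i‖ ^ 2 ≤ (s.card : ℝ) * ∑ i ∈ s, ‖a i‖ ^ 2 :=
  (pow_le_pow_left₀ (norm_nonneg _) (norm_sum_le _ _) 2).trans sq_sum_le_card_mul_sum_sq

private theorem Tii_exp {X b : ℕ} (hX : 1 ≤ X) (h : (2 : ℝ) ^ b ≤ (X : ℝ) ^ (11 / 24 : ℝ)) :
    (b : ℝ) ≤ Real.log X := by
  have hX0 : (0 : ℝ) < X := by exact_mod_cast hX
  have h1 := Real.log_le_log (by positivity) h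
  rw [Real.log_pow, Real.log_rpow hX0] at h1
  have h2 := Real.log_two_gt_d9
  have h3 : 0 ≤ Real.log X := Real.log_natCast_nonneg X
  have h4 : (b : ℝ) * (1 / 2) ≤ (b : ℝ) * Real.log 2 :=
    mul_le_mul_of_nonneg_left (by linarith) (by positivity)
  linarith

theorem tii (hpt : PTB) (e : ℝ) (he : 0 < e) (A B : ℕ) : ∃ A0 : ℕ, ∀ A1 : ℕ, A0 ≤ A1 → ∃ X0 : ℕ,
    ∀ X : ℕ, X0 ≤ X → ∀ (r d u H H1 y w : ℕ) (κ : Fin r → Fin 3), r ≤ 6 → 1 ≤ d →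
    (d : ℝ) ≤ Real.log X ^ B → Nat.Coprime u d →
    (X : ℝ) ^ (1 / 6 + e) ≤ H → (H : ℝ) ≤ (X : ℝ) ^ (1 / 3 : ℝ) → H1 = ⌊X / Real.log X ^ A1⌋₊ →
    (2 : ℝ) ^ y ≤ (X : ℝ) ^ (11 / 24 : ℝ) → (2 : ℝ) ^ w ≤ (X : ℝ) ^ (11 / 24 : ℝ) →
    ∑ x ∈ Ico X (2 * X), ‖D (cl d u (Tp κ y w)) H H1 x‖ ^ 2 ≤ X / Real.log X ^ A := by
  obtain ⟨A0, hA0⟩ := box_c hpt e he (A + 12) B
  refine ⟨A0, fun A1 hA1 => ?_⟩
  obtain ⟨X0, hX0⟩ := hA0 A1 hA1
  refine ⟨max X0 3, fun X hX r d u H H1 y w κ hr hd hdB hu hH hH' hH1 hy hw => ?_⟩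
  have hXX0 : X0 ≤ X := (le_max_left _ _).trans hX
  have hX3 : 3 ≤ X := (le_max_right _ _).trans hX
  have hX1 : 1 ≤ X := by omega
  have hXr : (0 : ℝ) < X := by exact_mod_cast hX1
  have hL1 : 1 ≤ Real.log X := by
    rw [Real.le_log_iff_exp_le hXr]
    have h1 : Real.exp 1 ≤ 3 := by linarith [Real.exp_one_lt_d9]
    exact h1.trans (by exact_mod_cast hX3)
  set L := Real.log X with hL
  set S := Fintype.piFinset (fun i => range (top (κ i) y w)) with hS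
  have hcard : (S.card : ℝ) ≤ L ^ 6 := by
    rw [hS, Fintype.card_piFinset]
    push_cast
    simp only [Finset.card_range]
    have h1 : ∀ i : Fin r, ((top (κ i) y w : ℕ) : ℝ) ≤ L := by
      intro i
      unfold top
      split_ifs
      · exact Tii_exp hX1 hw
      · exact Tii_exp hX1 hy
    calc ∏ i : Fin r, ((top (κ i) y w : ℕ) : ℝ) ≤ ∏ _i : Fin r, L :=
          Finset.prod_le_prod (fun i _ => Nat.cast_nonneg _) (fun i _ => h1 i)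
      _ = L ^ r := by rw [Finset.prod_const, Finset.card_univ, Fintype.card_fin]
      _ ≤ L ^ 6 := pow_le_pow_right₀ hL1 hr
  refine chi_cl (Tp κ y w) d u H H1 (Ico X (2 * X)) _ hd hu ?_
  intro χ
  have hbox : ∀ j ∈ S, ∑ x ∈ Ico X (2 * X), ‖D (tw χ (Pp κ j)) H H1 x‖ ^ 2 ≤
      X / L ^ (A + 12) := by
    intro j hj
    rw [hS, Fintype.mem_piFinset] at hj
    refine hX0 X hXX0 r d H H1 χ κ j hr hd hdB hH hH' hH1 ?_
    intro i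
    have h1 := hj i
    rw [Finset.mem_range] at h1
    unfold top at h1
    split_ifs at h1 with h2
    · exact (pow_le_pow_right₀ (by norm_num) h1.le).trans hw
    · exact (pow_le_pow_right₀ (by norm_num) h1.le).trans hy
  have hD : ∀ x, D (tw χ (Tp κ y w)) H H1 x = ∑ j ∈ S, D (tw χ (Pp κ j)) H H1 x := by
    intro x
    rw [tp_dy, Tii_tw]
    exact d_sum S (fun j => (⇑(tw χ (Pp κ j)) : ℕ → ℂ)) H H1 x
  have hL0 : 0 < L := by linarith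
  calc ∑ x ∈ Ico X (2 * X), ‖D (tw χ (Tp κ y w)) H H1 x‖ ^ 2
      ≤ ∑ x ∈ Ico X (2 * X), (S.card : ℝ) * ∑ j ∈ S, ‖D (tw χ (Pp κ j)) H H1 x‖ ^ 2 := by
        refine Finset.sum_le_sum fun x _ => ?_
        rw [hD]
        exact Tii_cs S _
    _ = (S.card : ℝ) * ∑ j ∈ S, ∑ x ∈ Ico X (2 * X), ‖D (tw χ (Pp κ j)) H H1 x‖ ^ 2 := by
        rw [← Finset.mul_sum, Finset.sum_comm]
    _ ≤ (S.card : ℝ) * ∑ _j ∈ S, (X : ℝ) / L ^ (A + 12) := by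
        refine mul_le_mul_of_nonneg_left (Finset.sum_le_sum hbox) (Nat.cast_nonneg _)
    _ = (S.card : ℝ) * S.card * (X / L ^ (A + 12)) := by
        rw [Finset.sum_const, nsmul_eq_mul]
        ring
    _ ≤ L ^ 6 * L ^ 6 * (X / L ^ (A + 12)) := by gcongr
    _ = X / L ^ A := by
        rw [pow_add]
        field_simp

end Pool.Agent.H88.PSI

end

section

/-!
# PSI Asm: short average of `Λ` minus long average

`y` maximal with `2^y ≤ X^(11/24)`, `w` with `2 X^(1/3) ≤ 2^w ≤ 4 X^(1/3)`; `hb` for `X < n ≤ 3X`; `ti` for `cA` (`k = 1`) and `cB` (`k = 0`)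
(`cA_bd`, `cB_bd`, `5 (y+1) ≤ 20 L`), `tii` for `k4`, `k6`; `A0` = maximum, `A1 = A0`; `|a+b-3c+e|^2 ≤ 4(|a|^2+|b|^2+9|c|^2+|e|^2)`.
-/

set_option autoImplicit false

namespace Pool.Agent.H88.PSI

open Finset

private theorem Asm_congr {X H H1 x : ℕ} (h1 : X ≤ x) (h2 : x < 2 * X) (hH : H ≤ X) (hH1 : H1 ≤ X)
    {f g : ℕ → ℂ} (h : ∀ n, X < n → n ≤ 3 * X → f n = g n) : D f H H1 x = D g H H1 x := by
  unfold D W
  have e1 : ∑ n ∈ Ioc x (x + H), f n = ∑ n ∈ Ioc x (x + H), g n := by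
    refine Finset.sum_congr rfl fun n hn => ?_
    rw [Finset.mem_Ioc] at hn
    exact h n (by omega) (by omega)
  have e2 : ∑ n ∈ Ioc x (x + H1), f n = ∑ n ∈ Ioc x (x + H1), g n := by
    refine Finset.sum_congr rfl fun n hn => ?_
    rw [Finset.mem_Ioc] at hn
    exact h n (by omega) (by omega)
  rw [e1, e2]

private theorem Asm_lin (a b c e : ℕ → ℂ) (H H1 x : ℕ) :
    D (fun n => a n + b n - 3 * c n + e n) H H1 x =
      D a H H1 x + D b H H1 x - 3 * D c H H1 x + D e H H1 x := by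
  unfold D W
  simp only [Finset.sum_add_distrib, Finset.sum_sub_distrib, ← Finset.mul_sum]
  ring

private theorem Asm_norm (a b c e : ℂ) :
    ‖a + b - 3 * c + e‖ ^ 2 ≤ 4 * (‖a‖ ^ 2 + ‖b‖ ^ 2 + 9 * ‖c‖ ^ 2 + ‖e‖ ^ 2) := by
  have h1 : ‖a + b - 3 * c + e‖ ≤ ‖a‖ + ‖b‖ + 3 * ‖c‖ + ‖e‖ := by
    have h2 := norm_add_le (a + b - 3 * c) e
    have h3 := norm_sub_le (a + b) (3 * c)
    have h4 := norm_add_le a b
    have h5 : ‖3 * c‖ = 3 * ‖c‖ := by rw [norm_mul]; norm_num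
    linarith
  have h2 : ‖a + b - 3 * c + e‖ ^ 2 ≤ (‖a‖ + ‖b‖ + 3 * ‖c‖ + ‖e‖) ^ 2 :=
    pow_le_pow_left₀ (norm_nonneg _) h1 2
  refine h2.trans ?_
  nlinarith only [sq_nonneg (‖a‖ - ‖b‖), sq_nonneg (‖a‖ - 3 * ‖c‖), sq_nonneg (‖a‖ - ‖e‖),
    sq_nonneg (‖b‖ - 3 * ‖c‖), sq_nonneg (‖b‖ - ‖e‖), sq_nonneg (3 * ‖c‖ - ‖e‖)]

private theorem Asm_log {z : ℝ} (hz : 1 ≤ z) : ∃ y : ℕ, (2 : ℝ) ^ y ≤ z ∧ z < 2 * (2 : ℝ) ^ y := by
  have h0 : ⌊z⌋₊ ≠ 0 := by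
    have : 1 ≤ ⌊z⌋₊ := Nat.le_floor (by exact_mod_cast hz)
    omega
  refine ⟨Nat.log 2 ⌊z⌋₊, ?_, ?_⟩
  · have h1 : 2 ^ Nat.log 2 ⌊z⌋₊ ≤ ⌊z⌋₊ := Nat.pow_log_le_self 2 h0
    have h2 : ((2 ^ Nat.log 2 ⌊z⌋₊ : ℕ) : ℝ) ≤ (⌊z⌋₊ : ℝ) := by exact_mod_cast h1
    have h3 : (⌊z⌋₊ : ℝ) ≤ z := Nat.floor_le (by linarith only [hz])
    push_cast at h2
    linarith only [h3, h2]
  · have h1 : ⌊z⌋₊ < 2 ^ (Nat.log 2 ⌊z⌋₊ + 1) := Nat.lt_pow_succ_log_self (by norm_num) _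
    have h2 := (Nat.floor_lt (by linarith)).1 h1
    push_cast at h2
    rw [pow_succ] at h2
    linarith

theorem asm (hpt : PTB) (e : ℝ) (he : 0 < e) (A B : ℕ) : ∃ A0 : ℕ, ∀ A1 : ℕ, A0 ≤ A1 → ∃ X0 : ℕ,
    ∀ X : ℕ, X0 ≤ X → ∀ (d u H H1 : ℕ), 1 ≤ d →
    (d : ℝ) ≤ Real.log X ^ B → Nat.Coprime u d →
    (X : ℝ) ^ (1 / 6 + e) ≤ H → (H : ℝ) ≤ (X : ℝ) ^ (1 / 3 : ℝ) → H1 = ⌊X / Real.log X ^ A1⌋₊ →
    ∑ x ∈ Ico X (2 * X), ‖D (cl d u La) H H1 x‖ ^ 2 ≤ X / Real.log X ^ A := by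
  obtain ⟨a1, h1⟩ := ti (A + 1) B
  obtain ⟨a2, h2⟩ := tii hpt e he (A + 1) B
  refine ⟨max a1 a2, fun A1 hA1 => ?_⟩
  obtain ⟨X1, h3⟩ := h1 A1 ((le_max_left _ _).trans hA1)
  obtain ⟨X2, h4⟩ := h2 A1 ((le_max_right _ _).trans hA1)
  obtain ⟨X3, h5⟩ : ∃ X3 : ℕ, ∀ X : ℕ, X3 ≤ X → (48 : ℝ) ≤ Real.log X := by
    have := Real.tendsto_log_atTop.comp tendsto_natCast_atTop_atTop
    exact Filter.eventually_atTop.1 (this.eventually (Filter.eventually_ge_atTop 48))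
  obtain ⟨X4, h6⟩ : ∃ X4 : ℕ, ∀ X : ℕ, X4 ≤ X → (4 : ℝ) ≤ (X : ℝ) ^ (1 / 8 : ℝ) := by
    have := (tendsto_rpow_atTop (show (0 : ℝ) < 1 / 8 by norm_num)).comp
      tendsto_natCast_atTop_atTop
    exact Filter.eventually_atTop.1 (this.eventually (Filter.eventually_ge_atTop 4))
  refine ⟨X1 + X2 + X3 + X4 + 1, fun X hX d u H H1 hd hdB hu hH hH' hH1 => ?_⟩
  have hL := h5 X (by omega)
  have hX8 := h6 X (by omega)
  have hXN : 1 ≤ X := by omega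
  have hX1 : (1 : ℝ) ≤ X := by exact_mod_cast hXN
  have hX0 : (0 : ℝ) < X := by linarith only [hX1]
  obtain ⟨y, hy1, hy2⟩ := Asm_log (z := (X : ℝ) ^ (11 / 24 : ℝ))
    (Real.one_le_rpow hX1 (by norm_num))
  obtain ⟨w, hw1, hw2⟩ := Asm_log (z := (X : ℝ) ^ (1 / 3 : ℝ))
    (Real.one_le_rpow hX1 (by norm_num))
  -- sizes
  have hww : (2 : ℝ) ^ (w + 2) ≤ (X : ℝ) ^ (11 / 24 : ℝ) := by
    rw [pow_add]
    have e1 : (X : ℝ) ^ (11 / 24 : ℝ) = (X : ℝ) ^ (1 / 3 : ℝ) * (X : ℝ) ^ (1 / 8 : ℝ) := by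
      rw [← Real.rpow_add hX0]
      norm_num
    rw [e1]
    have e2 : (0 : ℝ) ≤ (X : ℝ) ^ (1 / 3 : ℝ) := by positivity
    have e3 : (0 : ℝ) < 2 ^ w := by positivity
    nlinarith only [hw1, hX8, hH']
  have hcube : (8 : ℝ) * X ≤ ((2 : ℝ) ^ (w + 2)) ^ 3 := by
    have e1 : ((X : ℝ) ^ (1 / 3 : ℝ)) ^ 3 = X := by
      rw [← Real.rpow_natCast, ← Real.rpow_mul hX0.le]
      norm_num
    have e2 : 2 * (X : ℝ) ^ (1 / 3 : ℝ) ≤ (2 : ℝ) ^ (w + 2) := by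
      rw [pow_add]
      linarith only [hw2]
    calc (8 : ℝ) * X = (2 * (X : ℝ) ^ (1 / 3 : ℝ)) ^ 3 := by rw [mul_pow, e1]; norm_num
      _ ≤ _ := pow_le_pow_left₀ (by positivity) e2 3
  have hyw : (2 : ℝ) ^ y * (2 : ℝ) ^ (w + 2) ≤ X := by
    have e1 : (2 : ℝ) ^ (w + 2) ≤ 4 * (X : ℝ) ^ (1 / 3 : ℝ) := by
      rw [pow_add]
      linarith only [hw1]
    have e2 : (X : ℝ) ^ (11 / 24 : ℝ) * (4 * (X : ℝ) ^ (1 / 3 : ℝ)) ≤ X := by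
      have e3 : (X : ℝ) ^ (1 / 12 : ℝ) * ((X : ℝ) ^ (11 / 24 : ℝ) * ((X : ℝ) ^ (1 / 8 : ℝ) *
          (X : ℝ) ^ (1 / 3 : ℝ))) = X := by
        rw [← Real.rpow_add hX0, ← Real.rpow_add hX0, ← Real.rpow_add hX0]
        norm_num
      have e4 : (1 : ℝ) ≤ (X : ℝ) ^ (1 / 12 : ℝ) := Real.one_le_rpow hX1 (by norm_num)
      have e5 : (X : ℝ) ^ (11 / 24 : ℝ) * (4 * (X : ℝ) ^ (1 / 3 : ℝ)) ≤
          (X : ℝ) ^ (11 / 24 : ℝ) * ((X : ℝ) ^ (1 / 8 : ℝ) * (X : ℝ) ^ (1 / 3 : ℝ)) :=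
        mul_le_mul_of_nonneg_left (mul_le_mul_of_nonneg_right hX8 (by positivity)) (by positivity)
      have e6 : 1 * ((X : ℝ) ^ (11 / 24 : ℝ) * ((X : ℝ) ^ (1 / 8 : ℝ) * (X : ℝ) ^ (1 / 3 : ℝ))) ≤
          (X : ℝ) ^ (1 / 12 : ℝ) * ((X : ℝ) ^ (11 / 24 : ℝ) * ((X : ℝ) ^ (1 / 8 : ℝ) *
          (X : ℝ) ^ (1 / 3 : ℝ))) := mul_le_mul_of_nonneg_right e4 (by positivity)
      rw [e3, one_mul] at e6
      exact e5.trans e6
    exact (mul_le_mul hy1 e1 (by positivity) (by positivity)).trans e2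
  have hHX : H ≤ X := by
    have e1 : (H : ℝ) ≤ X := by
      refine hH'.trans ?_
      calc (X : ℝ) ^ (1 / 3 : ℝ) ≤ (X : ℝ) ^ (1 : ℝ) :=
            Real.rpow_le_rpow_of_exponent_le hX1 (by norm_num)
        _ = X := Real.rpow_one _
    exact_mod_cast e1
  have hH1X : H1 ≤ X := by
    rw [hH1]
    refine Nat.floor_le_of_le ?_
    exact div_le_self hX0.le (one_le_pow₀ (by linarith only [hL]))
  have hH6 : (X : ℝ) ^ (1 / 6 : ℝ) ≤ H :=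
    (Real.rpow_le_rpow_of_exponent_le hX1 (by linarith only [he])).trans hH
  have hyL : ((y : ℝ) + 1) ≤ 4 * Real.log X := by
    have e1 : Real.log ((2 : ℝ) ^ y) ≤ Real.log ((X : ℝ) ^ (11 / 24 : ℝ)) :=
      Real.log_le_log (by positivity) hy1
    rw [Real.log_pow, Real.log_rpow hX0] at e1
    have e2 := Real.log_two_gt_d9
    have e3 : (0 : ℝ) ≤ y := Nat.cast_nonneg y
    nlinarith only [hL, e1, e2]
  -- the four terms
  have t1 := h3 X (by omega) d u H H1 (2 ^ y) 1 (cA (w + 2)) (by decide) hd hdB hu hH6 hH' hH1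
    (by push_cast; linarith only [hy2]) (fun m => by
      refine (cA_bd (w + 2) m).trans ?_
      have e1 : 0 ≤ tau m ^ 5 := by unfold tau; positivity
      nlinarith only [e1, hL])
  have t2 := h3 X (by omega) d u H H1 (2 ^ y) 0 (cB y (w + 2)) (by decide) hd hdB hu hH6 hH' hH1
    (by push_cast; linarith only [hy2]) (fun m => by
      refine (cB_bd y (w + 2) m).trans ?_
      have e1 : 0 ≤ tau m ^ 5 := by unfold tau; positivity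
      nlinarith only [hyL, e1])
  have t3 := h4 X (by omega) 4 d u H H1 y (w + 2) k4 (by norm_num) hd hdB hu hH hH' hH1 hy1 hww
  have t4 := h4 X (by omega) 6 d u H H1 y (w + 2) k6 (by norm_num) hd hdB hu hH hH' hH1 hy1 hww
  set f1 : ℕ → ℂ := cl d u (hi 1 (2 ^ y) * cA (w + 2)) with hf1
  set f2 : ℕ → ℂ := cl d u (hi 0 (2 ^ y) * cB y (w + 2)) with hf2
  set f3 : ℕ → ℂ := cl d u (Tp k4 y (w + 2)) with hf3
  set f4 : ℕ → ℂ := cl d u (Tp k6 y (w + 2)) with hf4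
  have hid : ∀ n, X < n → n ≤ 3 * X → cl d u La n = f1 n + f2 n - 3 * f3 n + f4 n := by
    intro n hn1 hn2
    have e1 : n < (2 ^ (w + 2)) ^ 3 := by
      have e2 : (n : ℝ) < ((2 : ℝ) ^ (w + 2)) ^ 3 := by
        have e3 : (n : ℝ) ≤ 3 * X := by exact_mod_cast hn2
        linarith only [hX1, hcube, e3]
      exact_mod_cast e2
    have e2 : 2 ^ y * 2 ^ (w + 2) ≤ n := by
      have e3 : ((2 : ℝ) ^ y * (2 : ℝ) ^ (w + 2)) ≤ n := by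
        have e4 : (X : ℝ) ≤ n := by exact_mod_cast hn1.le
        linarith only [hyw, e4]
      exact_mod_cast e3
    have e3 := hb y (w + 2) n e1 e2
    simp only [hf1, hf2, hf3, hf4, cl]
    by_cases e4 : n % d = u % d
    · rw [if_pos e4, if_pos e4, if_pos e4, if_pos e4, if_pos e4, e3]
      push_cast
      ring
    · rw [if_neg e4, if_neg e4, if_neg e4, if_neg e4, if_neg e4]
      ring
  have hpt : ∀ x ∈ Ico X (2 * X), ‖D (cl d u La) H H1 x‖ ^ 2 ≤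
      4 * (‖D f1 H H1 x‖ ^ 2 + ‖D f2 H H1 x‖ ^ 2 + 9 * ‖D f3 H H1 x‖ ^ 2 + ‖D f4 H H1 x‖ ^ 2) := by
    intro x hx
    rw [Finset.mem_Ico] at hx
    rw [Asm_congr hx.1 hx.2 hHX hH1X hid, Asm_lin]
    exact Asm_norm _ _ _ _
  refine (Finset.sum_le_sum hpt).trans ?_
  rw [← Finset.mul_sum, Finset.sum_add_distrib, Finset.sum_add_distrib, Finset.sum_add_distrib,
    ← Finset.mul_sum]
  have hLA : 0 < Real.log X ^ A := by positivity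
  have e1 : (X : ℝ) / Real.log X ^ (A + 1) * 48 ≤ X / Real.log X ^ A := by
    rw [pow_succ, div_mul_eq_mul_div, div_le_div_iff₀ (by positivity) hLA]
    have e2 : 0 ≤ (X : ℝ) * Real.log X ^ A := by positivity
    nlinarith only [hL, e2]
  linarith only [t1, t2, t3, t4, e1]

end Pool.Agent.H88.PSI

end

section

/-!
# PSI HuxT: primes in almost all short intervals, in residue classes

`asm` with `A + 2` and `A1` large; the long average by `Pool.Agent.H91.EHA.psi_ap` (`Pool/Agent/H91/EHA/SwK1.lean`) for `3X` with `k = A1 + A + 4`: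
`|W(cl d u La) H1 x/H1 - 1/φ(d)| ≤ 2·3X/log^k(3X)/H1 ≤ L^(-A-1)`.
-/

set_option autoImplicit false

namespace Pool.Agent.H88.PSI

open Finset
open Pool.Agent.H91.EHA (psiA Lam psi_ap)

private lemma HuxT_psiA (y q a : ℕ) :
    psiA y q a = ∑ n ∈ Ioc 0 y, if n % q = a % q then Lam n else 0 := by
  unfold psiA
  rw [sum_filter]
  refine sum_congr (by ext n; simp [Nat.succ_le_iff]) fun n _ => ?_
  by_cases h : n % q = a % q
  · rw [if_pos h, if_pos (show n ≡ a [MOD q] from h)]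
  · rw [if_neg h, if_neg (show ¬ n ≡ a [MOD q] from h)]

private lemma HuxT_W (d u H x : ℕ) :
    W (cl d u La) H x = ((psiA (x + H) d u - psiA x d u : ℝ) : ℂ) := by
  rw [HuxT_psiA, HuxT_psiA]
  have h := Finset.sum_Ioc_consecutive (fun n => if n % d = u % d then Lam n else 0)
    (Nat.zero_le x) (Nat.le_add_right x H)
  rw [← h, add_sub_cancel_left]
  unfold W cl
  rw [Complex.ofReal_sum]
  refine sum_congr rfl fun n _ => ?_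
  by_cases h : n % d = u % d
  · rw [if_pos h, if_pos h]
    rfl
  · rw [if_neg h, if_neg h, Complex.ofReal_zero]

private lemma HuxT_ev (k : ℕ) : ∃ X0 : ℕ, ∀ X : ℕ, X0 ≤ X →
    4 ≤ Real.log X ∧ 2 * Real.log X ^ k ≤ X := by
  have h1 : Filter.Tendsto (fun n : ℕ => Real.log n) Filter.atTop Filter.atTop :=
    Real.tendsto_log_atTop.comp tendsto_natCast_atTop_atTop
  have h2 : ∀ᶠ x : ℝ in Filter.atTop, 2 * Real.log x ^ k ≤ x := by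
    have h3 := (Real.isLittleO_pow_log_id_atTop (n := k)).bound (show (0 : ℝ) < 1 / 2 by norm_num)
    filter_upwards [h3, Filter.eventually_ge_atTop (0 : ℝ)] with x hx hx0
    simp only [id, Real.norm_eq_abs, abs_of_nonneg hx0] at hx
    have := le_abs_self (Real.log x ^ k)
    linarith only [hx, this]
  have h4 := (h1.eventually_ge_atTop 4).and (tendsto_natCast_atTop_atTop.eventually h2)
  obtain ⟨X0, hX0⟩ := Filter.eventually_atTop.1 h4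
  exact ⟨X0, fun X hX => hX0 X hX⟩

theorem hux (hpt : PTB) (e : ℝ) (he : 0 < e) (A B : ℕ) : ∃ X0 : ℕ, ∀ X : ℕ, X0 ≤ X → ∀ (d u H : ℕ), 1 ≤ d →
    (d : ℝ) ≤ Real.log X ^ B → Nat.Coprime u d →
    (X : ℝ) ^ (1 / 6 + e) ≤ H → (H : ℝ) ≤ (X : ℝ) ^ (1 / 3 : ℝ) →
    ∑ x ∈ Ico X (2 * X), ‖W (cl d u La) H x - (H : ℂ) / (d.totient : ℂ)‖ ^ 2
      ≤ X * (H : ℝ) ^ 2 / Real.log X ^ A := by
  obtain ⟨A1, hA⟩ := asm hpt e he (A + 2) B
  obtain ⟨X1, hX1⟩ := hA A1 le_rfl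
  obtain ⟨X2, hX2⟩ := psi_ap B (A1 + A + 4)
  obtain ⟨X3, hX3⟩ := HuxT_ev A1
  refine ⟨max X1 (max X2 X3) + 1, fun X hX d u H hd hdB hu hH1 hH2 => ?_⟩
  obtain ⟨hL, hLA⟩ := hX3 X (by omega)
  have hX0 : 0 < X := by omega
  have hXR : (0 : ℝ) < X := by exact_mod_cast hX0
  set L : ℝ := Real.log X with hLdef
  have hL0 : 0 < L := by linarith only [hL]
  set H1 : ℕ := ⌊(X : ℝ) / L ^ A1⌋₊ with hH1def
  have hasm := hX1 X (by omega) d u H H1 hd hdB hu hH1 hH2 rfl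
  have hP : (0 : ℝ) < L ^ A1 := by positivity
  have hH1u : (H1 : ℝ) ≤ X / L ^ A1 := Nat.floor_le (by positivity)
  have hH1l : (X : ℝ) / L ^ A1 < H1 + 1 := Nat.lt_floor_add_one _
  have hq : 2 ≤ (X : ℝ) / L ^ A1 := by
    rw [le_div_iff₀ hP]
    exact hLA
  have hH1h : (X : ℝ) / (2 * L ^ A1) ≤ H1 := by
    have : (X : ℝ) / (2 * L ^ A1) = X / L ^ A1 / 2 := by
      rw [div_div, mul_comm]
    rw [this]
    linarith only [hH1l, hq]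
  have hH1p : (0 : ℝ) < H1 := by linarith only [hH1l, hq]
  have hH1X : H1 ≤ X := by
    have h1 : (1 : ℝ) ≤ L ^ A1 := one_le_pow₀ (by linarith only [hL])
    have h2 : (X : ℝ) / L ^ A1 ≤ X := div_le_self hXR.le h1
    exact_mod_cast hH1u.trans h2
  -- the long average
  have hlong : ∀ x ∈ Ico X (2 * X),
      ‖W (cl d u La) H1 x / H1 - 1 / (d.totient : ℂ)‖ ≤ 1 / L ^ (A + 1) := by
    intro x hx
    rw [mem_Ico] at hx
    have hlog3 : L ≤ Real.log ((3 * X : ℕ) : ℝ) := by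
      refine Real.log_le_log hXR ?_
      push_cast
      linarith only [hLA, hP]
    have hlog0 : 0 < Real.log ((3 * X : ℕ) : ℝ) := by linarith only [hL, hlog3]
    have hdB' : (d : ℝ) ≤ Real.log ((3 * X : ℕ) : ℝ) ^ B :=
      hdB.trans (pow_le_pow_left₀ hL0.le hlog3 B)
    have e1 := hX2 (3 * X) (by omega) (x + H1) (by omega) d hd hdB' u hu
    have e2 := hX2 (3 * X) (by omega) x (by omega) d hd hdB' u hu
    have e3 : ((3 * X : ℕ) : ℝ) / Real.log ((3 * X : ℕ) : ℝ) ^ (A1 + A + 4) ≤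
        3 * X / L ^ (A1 + A + 4) := by
      push_cast
      refine div_le_div_of_nonneg_left (by positivity) (by positivity) ?_
      refine pow_le_pow_left₀ hL0.le ?_ _
      push_cast at hlog3
      exact hlog3
    have hφ : (0 : ℝ) < d.totient := by exact_mod_cast Nat.totient_pos.2 hd
    have h5 : W (cl d u La) H1 x / H1 - 1 / (d.totient : ℂ) =
        (((psiA (x + H1) d u - ((x + H1 : ℕ) : ℝ) / d.totient) -
          (psiA x d u - (x : ℝ) / d.totient)) / H1 : ℝ) := by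
      rw [HuxT_W]
      have hH1c : (H1 : ℂ) ≠ 0 := by exact_mod_cast hH1p.ne'
      have hφc : (d.totient : ℂ) ≠ 0 := by exact_mod_cast hφ.ne'
      push_cast
      field_simp
      ring
    rw [h5, Complex.norm_real, Real.norm_eq_abs, abs_div, abs_of_pos hH1p, div_le_iff₀ hH1p]
    have h6 : |psiA (x + H1) d u - ((x + H1 : ℕ) : ℝ) / d.totient -
        (psiA x d u - (x : ℝ) / d.totient)| ≤ 6 * X / L ^ (A1 + A + 4) := by
      have h7 := abs_sub (psiA (x + H1) d u - ((x + H1 : ℕ) : ℝ) / d.totient)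
        (psiA x d u - (x : ℝ) / d.totient)
      have h8 : 6 * X / L ^ (A1 + A + 4) = 3 * X / L ^ (A1 + A + 4) + 3 * X / L ^ (A1 + A + 4) := by
        ring
      rw [h8]
      linarith only [e1, e2, e3, h7]
    refine h6.trans ?_
    have h9 : 1 / L ^ (A + 1) * (X / (2 * L ^ A1)) ≤ 1 / L ^ (A + 1) * H1 :=
      mul_le_mul_of_nonneg_left hH1h (by positivity)
    refine le_trans ?_ h9
    rw [div_mul_div_comm, one_mul, div_le_div_iff₀ (by positivity) (by positivity)]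
    have h10 : L ^ (A1 + A + 4) = L ^ (A + 1) * L ^ A1 * L ^ 3 := by
      rw [← pow_add, ← pow_add]
      congr 1
      omega
    rw [h10]
    have h11 : (12 : ℝ) ≤ L ^ 3 := by
      have : (4 : ℝ) ^ 3 ≤ L ^ 3 := pow_le_pow_left₀ (by norm_num) hL 3
      linarith only [this]
    have h12 : (0 : ℝ) ≤ X * (L ^ (A + 1) * L ^ A1) := by positivity
    nlinarith only [h11, h12]
  have hpt : ∀ x ∈ Ico X (2 * X), ‖W (cl d u La) H x - (H : ℂ) / (d.totient : ℂ)‖ ^ 2 ≤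
      2 * (H : ℝ) ^ 2 * ‖D (cl d u La) H H1 x‖ ^ 2 + 2 * (H : ℝ) ^ 2 * (1 / L ^ (A + 1)) ^ 2 := by
    intro x hx
    have h1 := hlong x hx
    have hHp : (0 : ℝ) < H := lt_of_lt_of_le (Real.rpow_pos_of_pos hXR _) hH1
    have h2 : W (cl d u La) H x - (H : ℂ) / (d.totient : ℂ) =
        (H : ℂ) * D (cl d u La) H H1 x + (H : ℂ) * (W (cl d u La) H1 x / H1 - 1 / (d.totient : ℂ)) := by
      unfold D
      have hHc : (H : ℂ) ≠ 0 := by exact_mod_cast hHp.ne'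
      field_simp
      ring
    have h3 : ‖W (cl d u La) H x - (H : ℂ) / (d.totient : ℂ)‖ ≤
        H * ‖D (cl d u La) H H1 x‖ + H * (1 / L ^ (A + 1)) := by
      rw [h2]
      refine (norm_add_le _ _).trans ?_
      rw [norm_mul, norm_mul, Complex.norm_natCast]
      exact add_le_add le_rfl (mul_le_mul_of_nonneg_left h1 hHp.le)
    have h4 := pow_le_pow_left₀ (norm_nonneg _) h3 2
    refine h4.trans ?_
    have h5 := sq_nonneg (H * ‖D (cl d u La) H H1 x‖ - H * (1 / L ^ (A + 1)))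
    nlinarith
  refine (sum_le_sum hpt).trans ?_
  rw [sum_add_distrib, ← mul_sum, sum_const, Nat.card_Ico, nsmul_eq_mul]
  have hc : ((2 * X - X : ℕ) : ℝ) = X := by
    have : 2 * X - X = X := by omega
    rw [this]
  rw [hc]
  have h1 : 2 * (H : ℝ) ^ 2 * ∑ x ∈ Ico X (2 * X), ‖D (cl d u La) H H1 x‖ ^ 2 ≤
      2 * (H : ℝ) ^ 2 * (X / L ^ (A + 2)) := mul_le_mul_of_nonneg_left hasm (by positivity)
  have h2 : (1 / L ^ (A + 1)) ^ 2 ≤ 1 / L ^ (A + 2) := by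
    rw [div_pow, one_pow, ← pow_mul]
    exact one_div_le_one_div_of_le (by positivity) (pow_le_pow_right₀ (by linarith only [hL]) (by omega))
  have h3 : (X : ℝ) * (2 * (H : ℝ) ^ 2 * (1 / L ^ (A + 1)) ^ 2) ≤
      X * (2 * (H : ℝ) ^ 2 * (1 / L ^ (A + 2))) :=
    mul_le_mul_of_nonneg_left (mul_le_mul_of_nonneg_left h2 (by positivity)) hXR.le
  refine (add_le_add h1 h3).trans ?_
  have h4 : 2 * (H : ℝ) ^ 2 * (X / L ^ (A + 2)) + X * (2 * (H : ℝ) ^ 2 * (1 / L ^ (A + 2))) =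
      (X * (H : ℝ) ^ 2 / L ^ A) * (4 / L ^ 2) := by
    rw [pow_add]
    field_simp
    ring
  rw [h4]
  refine mul_le_of_le_one_right (by positivity) ?_
  rw [div_le_one (by positivity)]
  nlinarith only [hL]

end Pool.Agent.H88.PSI

end

section

/-!
# VKT (H97/VK of helper97 with the parameter `T0.t` in place of `9/10`, `t1` in place of `19/20`) FkUp: bounds for the series of `Λ(n) ψ(n) (log n)^k`

Proof.  `Lk_succ_eq` (`EHA/SwF.lean`): `Lk (k+1) = ∑_{i ≤ k} C(k,i) Lk i · Fk (k-i)`; solve for `Fk k` and use strong induction on `k`, `lk_low`, `lk_up`: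
`‖Fk k‖ ≤ (LL^7/c) (C L9^{k+1} LL^{k+2} + ∑_{1≤i≤k} C(k,i) C L9^i LL^{i+1} · C' L9^{k-i+1} LL^{20(k-i+1)}) ≤ C'' L9^{k+1} LL^{20(k+1)}`
(`7 + k + 2 ≤ 20(k+1)`, `7 + i + 1 + 20(k-i+1) ≤ 20(k+1)` for `i ≥ 1`).
-/

set_option autoImplicit false

namespace Pool.Agent.H76.VKT

open Finset
open Pool.Agent.H91.EHA

theorem fk_up_h [T0] (h_lk_low : lk_low_P) (h_lk_up : lk_up_P)  (k B : ℕ) : ∃ C : ℝ, 1 ≤ C ∧ ∃ K' x0 : ℕ, ∀ x : ℕ, x0 ≤ x → ∀ (d : ℕ) (χ : DirichletCharacter ℂ d) (s : ℂ),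
    1 ≤ d → (d : ℝ) ≤ Real.log x ^ B → 1 + 1 / (4 * Real.log x) ≤ s.re → s.re ≤ 2 →
    Real.log x ^ K' ≤ |s.im| → |s.im| ≤ 3 * (x : ℝ) ^ (3 : ℕ) →
    ‖Fk (qm x d) (ch x χ) k s‖ ≤ C * L9 x ^ (k + 1) * LL x ^ (20 * (k + 1)) := by
  induction k using Nat.strong_induction_on with
  | _ k ih =>
  have hlk : ∀ i : ℕ, ∃ C : ℝ, 1 ≤ C ∧ ∃ K' x0 : ℕ, ∀ x : ℕ, x0 ≤ x →
      ∀ (d : ℕ) (χ : DirichletCharacter ℂ d) (s : ℂ),
      1 ≤ d → (d : ℝ) ≤ Real.log x ^ B → 1 + 1 / (4 * Real.log x) ≤ s.re → s.re ≤ 2 →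
      Real.log x ^ K' ≤ |s.im| → |s.im| ≤ 6 * (x : ℝ) ^ (3 : ℕ) →
      ‖Lk (qm x d) (ch x χ) i s‖ ≤ C * L9 x ^ i * LL x ^ (i + 1) := fun i => h_lk_up i B
  have hfk : ∀ j : ℕ, ∃ C : ℝ, 1 ≤ C ∧ ∃ K' x0 : ℕ, j < k → ∀ x : ℕ, x0 ≤ x →
      ∀ (d : ℕ) (χ : DirichletCharacter ℂ d) (s : ℂ),
      1 ≤ d → (d : ℝ) ≤ Real.log x ^ B → 1 + 1 / (4 * Real.log x) ≤ s.re → s.re ≤ 2 →
      Real.log x ^ K' ≤ |s.im| → |s.im| ≤ 3 * (x : ℝ) ^ (3 : ℕ) →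
      ‖Fk (qm x d) (ch x χ) j s‖ ≤ C * L9 x ^ (j + 1) * LL x ^ (20 * (j + 1)) := by
    intro j
    rcases lt_or_ge j k with h | h
    · obtain ⟨C, hC, K', x0, hx⟩ := ih j h
      exact ⟨C, hC, K', x0, fun _ => hx⟩
    · exact ⟨1, le_rfl, 0, 0, fun h' => absurd h' (by omega)⟩
  choose CL hCL KL xL hL using hlk
  choose CF hCF KF xF hF using hfk
  obtain ⟨c, hc, hc1, K0, xc, hlow⟩ := h_lk_low B
  obtain ⟨xe, hxe⟩ := yx_ev
  obtain ⟨S, hS⟩ : ∃ S : ℝ, S = CL (k + 1) +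
      ∑ i ∈ range k, (k.choose (i + 1) : ℝ) * (CL (i + 1) * CF (k - (i + 1))) := ⟨_, rfl⟩
  have hS1 : 1 ≤ S := by
    rw [hS]
    have h1 : 0 ≤ ∑ i ∈ range k, (k.choose (i + 1) : ℝ) * (CL (i + 1) * CF (k - (i + 1))) :=
      sum_nonneg fun i _ => mul_nonneg (by positivity)
        (mul_nonneg (by linarith [hCL (i + 1)]) (by linarith [hCF (k - (i + 1))]))
    linarith [hCL (k + 1)]
  refine ⟨S / c, ?_, K0 + ∑ i ∈ range (k + 2), KL i + ∑ i ∈ range (k + 2), KF i,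
    xc + xe + ∑ i ∈ range (k + 2), xL i + ∑ i ∈ range (k + 2), xF i, ?_⟩
  · rw [le_div_iff₀ hc]; linarith
  intro x hx d χ s hd hdB hs1 hs2 him1 him2
  have hxL : ∀ i, i < k + 2 → xL i ≤ x := by
    intro i hi
    have h1 : xL i ≤ ∑ i ∈ range (k + 2), xL i :=
      single_le_sum (f := xL) (fun _ _ => Nat.zero_le _) (mem_range.2 hi)
    omega
  have hxF : ∀ i, i < k + 2 → xF i ≤ x := by
    intro i hi
    have h1 : xF i ≤ ∑ i ∈ range (k + 2), xF i :=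
      single_le_sum (f := xF) (fun _ _ => Nat.zero_le _) (mem_range.2 hi)
    omega
  obtain ⟨-, -, -, hLL1, hL91, hlog1, -⟩ := hxe x (by omega)
  have himp : ∀ K : ℕ, K ≤ K0 + ∑ i ∈ range (k + 2), KL i + ∑ i ∈ range (k + 2), KF i →
      Real.log x ^ K ≤ |s.im| := fun K hK =>
    (pow_le_pow_right₀ hlog1 hK).trans him1
  have hKL : ∀ i, i < k + 2 → Real.log x ^ KL i ≤ |s.im| := by
    intro i hi
    refine himp _ ?_
    have h1 : KL i ≤ ∑ i ∈ range (k + 2), KL i :=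
      single_le_sum (f := KL) (fun _ _ => Nat.zero_le _) (mem_range.2 hi)
    omega
  have hKF : ∀ i, i < k + 2 → Real.log x ^ KF i ≤ |s.im| := by
    intro i hi
    refine himp _ ?_
    have h1 : KF i ≤ ∑ i ∈ range (k + 2), KF i :=
      single_le_sum (f := KF) (fun _ _ => Nat.zero_le _) (mem_range.2 hi)
    omega
  have hx3 : (0:ℝ) ≤ (x : ℝ) ^ (3 : ℕ) := by positivity
  have him6 : |s.im| ≤ 6 * (x : ℝ) ^ (3 : ℕ) := by linarith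
  have hs : 1 < s.re := by
    have h1 : 0 < 1 / (4 * Real.log x) := by positivity
    linarith
  have hLi : ∀ i, i < k + 2 →
      ‖Lk (qm x d) (ch x χ) i s‖ ≤ CL i * L9 x ^ i * LL x ^ (i + 1) := fun i hi =>
    hL i x (hxL i hi) d χ s hd hdB hs1 hs2 (hKL i hi) him6
  have hFi : ∀ j, j < k →
      ‖Fk (qm x d) (ch x χ) j s‖ ≤ CF j * L9 x ^ (j + 1) * LL x ^ (20 * (j + 1)) := fun j hj =>
    hF j hj x (hxF j (by omega)) d χ s hd hdB hs1 hs2 (hKF j (by omega)) him2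
  have hlow' := hlow x (by omega) d χ s hd hdB hs1 hs2 (himp K0 (by omega)) him2
  obtain ⟨a, ha⟩ : ∃ a, a = L9 x := ⟨_, rfl⟩
  obtain ⟨l, hl⟩ : ∃ l, l = LL x := ⟨_, rfl⟩
  rw [← ha] at hL91
  rw [← hl] at hLL1
  simp only [← ha, ← hl] at hLi hFi hlow' ⊢
  have ha0 : 0 < a := by linarith
  have hl0 : 0 < l := by linarith
  have heq := Lk_succ_eq (qm x d) (ch x χ) k s hs
  rw [Finset.sum_range_succ'] at heq
  simp only [Nat.choose_zero_right, Nat.cast_one, one_mul, Nat.sub_zero] at heq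
  have h1 : Lk (qm x d) (ch x χ) 0 s * Fk (qm x d) (ch x χ) k s =
      Lk (qm x d) (ch x χ) (k + 1) s -
      ∑ i ∈ range k, (k.choose (i + 1) : ℂ) * (Lk (qm x d) (ch x χ) (i + 1) s *
        Fk (qm x d) (ch x χ) (k - (i + 1)) s) := by
    rw [heq]
    ring
  have h2 : ‖Lk (qm x d) (ch x χ) (k + 1) s‖ ≤ CL (k + 1) * (a ^ (k + 1) * l ^ (20 * k + 13)) := by
    refine (hLi (k + 1) (by omega)).trans ?_
    rw [mul_assoc]
    refine mul_le_mul_of_nonneg_left ?_ (by linarith [hCL (k + 1)])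
    exact mul_le_mul_of_nonneg_left (pow_le_pow_right₀ hLL1 (by omega)) (by positivity)
  have h3 : ∀ i ∈ range k, ‖(k.choose (i + 1) : ℂ) * (Lk (qm x d) (ch x χ) (i + 1) s *
        Fk (qm x d) (ch x χ) (k - (i + 1)) s)‖ ≤
      (k.choose (i + 1) : ℝ) * (CL (i + 1) * CF (k - (i + 1))) *
        (a ^ (k + 1) * l ^ (20 * k + 13)) := by
    intro i hi
    rw [mem_range] at hi
    rw [norm_mul, norm_mul, Complex.norm_natCast, mul_assoc]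
    refine mul_le_mul_of_nonneg_left ?_ (by positivity)
    have hA := hLi (i + 1) (by omega)
    have hB := hFi (k - (i + 1)) (by omega)
    have hc1' := hCL (i + 1)
    have hc2' := hCF (k - (i + 1))
    calc ‖Lk (qm x d) (ch x χ) (i + 1) s‖ * ‖Fk (qm x d) (ch x χ) (k - (i + 1)) s‖
        ≤ (CL (i + 1) * a ^ (i + 1) * l ^ (i + 1 + 1)) *
          (CF (k - (i + 1)) * a ^ (k - (i + 1) + 1) * l ^ (20 * (k - (i + 1) + 1))) :=
          mul_le_mul hA hB (norm_nonneg _) (by positivity)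
      _ = CL (i + 1) * CF (k - (i + 1)) * (a ^ ((i + 1) + (k - (i + 1) + 1)) *
          l ^ ((i + 1 + 1) + 20 * (k - (i + 1) + 1))) := by
          rw [pow_add a (i + 1), pow_add l (i + 1 + 1)]; ring
      _ ≤ CL (i + 1) * CF (k - (i + 1)) * (a ^ (k + 1) * l ^ (20 * k + 13)) := by
          refine mul_le_mul_of_nonneg_left ?_ (mul_nonneg (by linarith) (by linarith))
          rw [show (i + 1) + (k - (i + 1) + 1) = k + 1 by omega]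
          exact mul_le_mul_of_nonneg_left (pow_le_pow_right₀ hLL1 (by omega)) (by positivity)
  have h4 : ‖Lk (qm x d) (ch x χ) 0 s‖ * ‖Fk (qm x d) (ch x χ) k s‖ ≤
      S * (a ^ (k + 1) * l ^ (20 * k + 13)) := by
    rw [← norm_mul, h1]
    refine (norm_sub_le _ _).trans ?_
    rw [hS, add_mul, sum_mul]
    exact add_le_add h2 ((norm_sum_le _ _).trans (sum_le_sum h3))
  have h5 : c / l ^ 7 * ‖Fk (qm x d) (ch x χ) k s‖ ≤ S * (a ^ (k + 1) * l ^ (20 * k + 13)) :=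
    (mul_le_mul_of_nonneg_right hlow' (norm_nonneg _)).trans h4
  have h6 : ‖Fk (qm x d) (ch x χ) k s‖ ≤ (S * (a ^ (k + 1) * l ^ (20 * k + 13))) / (c / l ^ 7) := by
    rw [le_div_iff₀ (by positivity), mul_comm]
    exact h5
  refine h6.trans (le_of_eq ?_)
  rw [show 20 * (k + 1) = (20 * k + 13) + 7 by ring, pow_add l (20 * k + 13) 7]
  field_simp

end Pool.Agent.H76.VKT

end

section

set_option autoImplicit false

namespace Pool.Agent.H97.VK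

open Finset
open Pool.Agent.H91.PK (ee)

theorem vexp : ∃ c C : ℝ, 0 < c ∧ 1 ≤ C ∧ ∀ (κ N a b : ℕ) (β t : ℝ), 4 ≤ κ → (C * κ) ^ C ≤ N →
    N ≤ a → b ≤ 2 * N → 0 ≤ β → β ≤ 1 → (N : ℝ) ^ (4 * κ - 4) ≤ |t| → |t| ≤ (N : ℝ) ^ (4 * κ) →
    ‖∑ n ∈ Ioc a b, ee (t * Real.log (n + β))‖ ≤ C * (N : ℝ) ^ (1 - c / (κ : ℝ) ^ 2) :=
  vexp_h jv_eight

end Pool.Agent.H97.VK

end

section

set_option autoImplicit false

namespace Pool.Agent.H76.VKT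

open Finset
open Pool.Agent.H91.EHA
open Pool.Agent.H91.PK (ee)

theorem vk_exp [T0] (A : ℕ) : ∃ x0 : ℕ, ∀ x : ℕ, x0 ≤ x → ∀ (K a b : ℕ) (β t : ℝ),
    Real.exp (Real.log x ^ T0.t) ≤ K → K ≤ x → b ≤ K → 0 ≤ β → β ≤ 1 →
    1 ≤ |t| → |t| ≤ (x : ℝ) ^ (3 : ℕ) →
    ‖∑ n ∈ Ioc a b, ee (t * Real.log (n + β))‖ ≤ K * (100 / |t| + 1 / Real.log x ^ A) :=
  vk_exp_h Pool.Agent.H97.VK.vexp A

theorem psum [T0] (A B : ℕ) : ∃ K' x0 : ℕ, ∀ x : ℕ, x0 ≤ x → ∀ (d : ℕ) (χ : DirichletCharacter ℂ d) (t : ℝ) (v : ℕ),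
    1 ≤ d → (d : ℝ) ≤ Real.log x ^ B → Real.log x ^ K' ≤ |t| → |t| ≤ (x : ℝ) ^ (3 : ℕ) → Yx x + 1 ≤ v →
    ‖∑ n ∈ Icc 1 v, χ (n : ZMod d) * ee (t * Real.log n)‖ ≤ v / Real.log x ^ A :=
  psum_h vk_exp A B

theorem rtw [T0] (A B : ℕ) : ∃ K' D x0 : ℕ, ∀ x : ℕ, x0 ≤ x → ∀ (d : ℕ) (χ : DirichletCharacter ℂ d) (t : ℝ) (u : ℕ),
    1 ≤ d → (d : ℝ) ≤ Real.log x ^ B → Real.log x ^ K' ≤ |t| → |t| ≤ (x : ℝ) ^ (3 : ℕ) → D * (LL x * L9 x) ≤ Real.log u →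
    ‖∑ n ∈ Icc 1 u, ch x χ (n : ZMod (qm x d)) * ee (t * Real.log n)‖ ≤ u / Real.log x ^ A :=
  rtw_h psum A B

theorem lk_up [T0] (k B : ℕ) : ∃ C : ℝ, 1 ≤ C ∧ ∃ K' x0 : ℕ, ∀ x : ℕ, x0 ≤ x → ∀ (d : ℕ) (χ : DirichletCharacter ℂ d) (s : ℂ),
    1 ≤ d → (d : ℝ) ≤ Real.log x ^ B → 1 + 1 / (4 * Real.log x) ≤ s.re → s.re ≤ 2 →
    Real.log x ^ K' ≤ |s.im| → |s.im| ≤ 6 * (x : ℝ) ^ (3 : ℕ) →
    ‖Lk (qm x d) (ch x χ) k s‖ ≤ C * L9 x ^ k * LL x ^ (k + 1) :=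
  lk_up_h rtw k B

theorem lk_low [T0] (B : ℕ) : ∃ c : ℝ, 0 < c ∧ c ≤ 1 ∧ ∃ K' x0 : ℕ, ∀ x : ℕ, x0 ≤ x → ∀ (d : ℕ) (χ : DirichletCharacter ℂ d) (s : ℂ),
    1 ≤ d → (d : ℝ) ≤ Real.log x ^ B → 1 + 1 / (4 * Real.log x) ≤ s.re → s.re ≤ 2 →
    Real.log x ^ K' ≤ |s.im| → |s.im| ≤ 3 * (x : ℝ) ^ (3 : ℕ) →
    c / LL x ^ 7 ≤ ‖Lk (qm x d) (ch x χ) 0 s‖ :=
  lk_low_h lk_up zy_up B

theorem fk_up [T0] (k B : ℕ) : ∃ C : ℝ, 1 ≤ C ∧ ∃ K' x0 : ℕ, ∀ x : ℕ, x0 ≤ x → ∀ (d : ℕ) (χ : DirichletCharacter ℂ d) (s : ℂ),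
    1 ≤ d → (d : ℝ) ≤ Real.log x ^ B → 1 + 1 / (4 * Real.log x) ≤ s.re → s.re ≤ 2 →
    Real.log x ^ K' ≤ |s.im| → |s.im| ≤ 3 * (x : ℝ) ^ (3 : ℕ) →
    ‖Fk (qm x d) (ch x χ) k s‖ ≤ C * L9 x ^ (k + 1) * LL x ^ (20 * (k + 1)) :=
  fk_up_h lk_low lk_up k B

theorem sm_sharp_w [T0] (t1 : ℝ) (ht1' : T0.t < t1) (k κ B : ℕ) (hκ : 1 ≤ κ) : ∃ C : ℝ, 1 ≤ C ∧ ∃ K' x0 : ℕ, ∀ x : ℕ, x0 ≤ x →
    ∀ (d : ℕ) (χ : DirichletCharacter ℂ d) (t : ℝ) (v z : ℕ), 1 ≤ d → (d : ℝ) ≤ Real.log x ^ B →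
    Real.exp (Real.log x ^ t1) ≤ z → z ≤ x ^ 2 → v ≤ z → Real.log x ^ K' ≤ |t| → |t| ≤ (x : ℝ) ^ (2 : ℕ) →
    ‖∑ n ∈ Icc 1 v, ((Lam n * Real.log n ^ k : ℝ) : ℂ) * ch x χ (n : ZMod (qm x d)) * ee (t * Real.log n)‖ ≤
      C * z * (L9 x ^ (k + 1) * LL x ^ (20 * (k + 1)) * Real.log x ^ (3 * κ) +
        Real.log (2 * z) ^ (k + 1) / Real.log x ^ κ) :=
  sm_sharp_w_h fk_up t1 ht1' k κ B hκ

theorem vk_chi_w [T0] (t1 : ℝ) (ht1' : T0.t < t1) (K B : ℕ) : ∃ K' x0 : ℕ, ∀ x : ℕ, x0 ≤ x →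
    ∀ (d : ℕ) (χ : DirichletCharacter ℂ d) (t : ℝ) (z : ℕ), 1 ≤ d → (d : ℝ) ≤ Real.log x ^ B →
    Real.exp (Real.log x ^ t1) ≤ z → z ≤ x ^ 2 → Real.log x ^ K' ≤ |t| → |t| ≤ (x : ℝ) ^ (2 : ℕ) →
    ‖∑ n ∈ Icc 1 z, ((Lam n : ℝ) : ℂ) * χ (n : ZMod d) * ee (t * Real.log n)‖ ≤ z / Real.log x ^ K :=
  vk_chi_w_h sm_sharp_w t1 ht1' K B

end Pool.Agent.H76.VKT

end

section

set_option autoImplicit false

namespace Pool.Agent.H97.VK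

open Finset
open Pool.Agent.H91.EHA
open Pool.Agent.H91.PK (ee)

theorem psum (A B : ℕ) : ∃ K' x0 : ℕ, ∀ x : ℕ, x0 ≤ x → ∀ (d : ℕ) (χ : DirichletCharacter ℂ d) (t : ℝ) (v : ℕ),
    1 ≤ d → (d : ℝ) ≤ Real.log x ^ B → Real.log x ^ K' ≤ |t| → |t| ≤ (x : ℝ) ^ (3 : ℕ) → Yx x + 1 ≤ v →
    ‖∑ n ∈ Icc 1 v, χ (n : ZMod d) * ee (t * Real.log n)‖ ≤ v / Real.log x ^ A :=
  @Pool.Agent.H76.VKT.psum ⟨9 / 10, by norm_num, by norm_num⟩ A B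

theorem vk_chi_w (K B : ℕ) : ∃ K' x0 : ℕ, ∀ x : ℕ, x0 ≤ x →
    ∀ (d : ℕ) (χ : DirichletCharacter ℂ d) (t : ℝ) (z : ℕ), 1 ≤ d → (d : ℝ) ≤ Real.log x ^ B →
    Real.exp (Real.log x ^ (19 / 20 : ℝ)) ≤ z → z ≤ x ^ 2 → Real.log x ^ K' ≤ |t| → |t| ≤ (x : ℝ) ^ (2 : ℕ) →
    ‖∑ n ∈ Icc 1 z, ((Lam n : ℝ) : ℂ) * χ (n : ZMod d) * ee (t * Real.log n)‖ ≤ z / Real.log x ^ K :=
  @Pool.Agent.H76.VKT.vk_chi_w ⟨9 / 10, by norm_num, by norm_num⟩ (19 / 20)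
    (show (9 / 10 : ℝ) < 19 / 20 by norm_num) K B

end Pool.Agent.H97.VK

end

section

/-!
# PSI PtB: pointwise bound for the factors of all kinds (maximum of the constants of `mu_b`, `sm_b`)
-/

set_option autoImplicit false

namespace Pool.Agent.H88.PSI

theorem pt_b (K B : ℕ) : ∃ K' X0 : ℕ, ∀ X : ℕ, X0 ≤ X →
    ∀ (d : ℕ) (χ : DirichletCharacter ℂ d) (k : Fin 3) (j : ℕ) (t : ℝ), 1 ≤ d →
    (d : ℝ) ≤ Real.log X ^ B →
    (X : ℝ) ^ (1 / 7 : ℝ) ≤ (2 : ℝ) ^ j → (2 : ℝ) ^ j ≤ X → Real.log X ^ K' ≤ |t| → |t| ≤ X →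
    ‖DP (tw χ (pc k j)) (2 * 2 ^ j) t‖ ≤ (2 : ℝ) ^ j / Real.log X ^ K := by
  obtain ⟨K1, X1, h1⟩ := mu_b_h Pool.Agent.H97.VK.vk_chi_w K B
  obtain ⟨K2, X2, h2⟩ := sm_b_h Pool.Agent.H97.VK.psum K B
  obtain ⟨X3, h3⟩ := Pool.Agent.H80.LV.log_ge 1
  refine ⟨max K1 K2, max (max X1 X2) X3, ?_⟩
  intro X hX d χ k j t hd hdB hj1 hj2 ht1 ht2
  simp only [max_le_iff] at hX
  obtain ⟨⟨hX1, hX2⟩, hX3⟩ := hX
  have hL := h3 X hX3
  by_cases hk : k = 2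
  · subst hk
    exact h1 X hX1 d χ j t hd hdB hj1 hj2 ((pow_le_pow_right₀ hL (le_max_left _ _)).trans ht1) ht2
  · exact h2 X hX2 d χ k j t hk hd hdB hj1 hj2 ((pow_le_pow_right₀ hL (le_max_right _ _)).trans ht1) ht2

end Pool.Agent.H88.PSI

end

section

/-!
# L1 HuxI: `HuxProp` from project PSI (helper88)
-/

set_option autoImplicit false

namespace Pool.Agent.H91.L1

open Finset
open Pool.Agent.H91.EHA (Lam)

theorem huxProp : HuxProp := by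
  intro e he A B
  obtain ⟨X0, h⟩ := Pool.Agent.H88.PSI.hux Pool.Agent.H88.PSI.pt_b e he A B
  refine ⟨X0, fun X hX d u H hd hdB hu hH1 hH2 => ?_⟩
  refine le_trans (le_of_eq ?_) (h X hX d u H hd hdB hu hH1 hH2)
  refine sum_congr rfl fun w _ => ?_
  have h1 : Pool.Agent.H88.PSI.W (Pool.Agent.H88.PSI.cl d u Pool.Agent.H88.PSI.La) H w
      = ((∑ n ∈ (Ioc w (w + H)).filter (fun n => n ≡ u [MOD d]), Lam n : ℝ) : ℂ) := by
    unfold Pool.Agent.H88.PSI.W Pool.Agent.H88.PSI.cl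
    rw [Complex.ofReal_sum, sum_filter]
    rfl
  rw [h1]
  have h2 : ((∑ n ∈ (Ioc w (w + H)).filter (fun n => n ≡ u [MOD d]), Lam n : ℝ) : ℂ)
      - (H : ℂ) / (d.totient : ℂ)
      = (((∑ n ∈ (Ioc w (w + H)).filter (fun n => n ≡ u [MOD d]), Lam n)
        - (H : ℝ) / (d.totient : ℝ) : ℝ) : ℂ) := by
    push_cast
    ring
  rw [h2, Complex.norm_real, Real.norm_eq_abs, sq_abs]

end Pool.Agent.H91.L1

end
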